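import Pool.Agent.MOT.Def

/-!
# MOT: basic API (cocycles, restriction, connectedness, `pl`, `mi`)
-/

open Classical

noncomputable section

namespace MOT

variable {V : Type} {G : SimpleGraph V} {A B C M N : Set V}

theorem two_add (a : ZMod 2) : a + a = 0 := CharTwo.add_self_eq_zero a

theorem z2_eq (a b : ZMod 2) : a + b = 0 ↔ a = b := by
  constructor
  · intro h
    have : a = -b := eq_neg_of_add_eq_zero_left h
    rwa [CharTwo.neg_eq] at this
  · rintro rfl; exact two_add a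

theorem EIn.symm {x y : V} (h : EIn G A x y) : EIn G A y x := ⟨h.1.symm, h.2.2, h.2.1⟩

theorem EIn.mono (h : A ⊆ B) {x y : V} (e : EIn G A x y) : EIn G B x y := ⟨e.1, h e.2.1, h e.2.2⟩

theorem mem_Z0 {f : V → ZMod 2} : f ∈ Z0 G A ↔
    (∀ x, x ∉ A → f x = 0) ∧ ∀ x y, EIn G A x y → f x = f y := Iff.rfl

theorem mem_Z1 {a : V → V → ZMod 2} : a ∈ Z1 G A ↔
    (∀ x y, ¬ EIn G A x y → a x y = 0) ∧ (∀ x y, a x y = a y x) ∧
    ∀ x y z, EIn G A x y → EIn G A y z → EIn G A x z → a x y + a y z = a x z := Iff.rfl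

theorem mem_K1 {a : V → V → ZMod 2} : a ∈ K1 G A B ↔ a ∈ Z1 G A ∧ Triv G B a := Iff.rfl

theorem Triv.mono {a : V → V → ZMod 2} (h : B ⊆ A) (t : Triv G A a) : Triv G B a := by
  obtain ⟨f, hf⟩ := t
  exact ⟨f, fun x y e => hf x y (e.mono h)⟩

theorem Triv.add {a b : V → V → ZMod 2} (s : Triv G A a) (t : Triv G A b) : Triv G A (a + b) := by
  obtain ⟨f, hf⟩ := s
  obtain ⟨g, hg⟩ := t
  refine ⟨f + g, fun x y e => ?_⟩
  simp only [Pi.add_apply, hf x y e, hg x y e]; abel

theorem Triv.congr {a b : V → V → ZMod 2} (s : Triv G A a)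
    (h : ∀ x y, EIn G A x y → a x y = b x y) : Triv G A b := by
  obtain ⟨f, hf⟩ := s
  exact ⟨f, fun x y e => by rw [← h x y e, hf x y e]⟩

theorem Triv_zero : Triv G A 0 := ⟨0, fun _ _ _ => by simp⟩

/-- restriction of a cochain to `B` -/
def rs (G : SimpleGraph V) (B : Set V) (a : V → V → ZMod 2) : V → V → ZMod 2 :=
  fun x y => if EIn G B x y then a x y else 0

/-- coboundary of `f` on `A` -/
def cb (G : SimpleGraph V) (A : Set V) (f : V → ZMod 2) : V → V → ZMod 2 :=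
  fun x y => if EIn G A x y then f x + f y else 0

theorem rs_apply {a : V → V → ZMod 2} {x y : V} (h : EIn G B x y) : rs G B a x y = a x y :=
  if_pos h

theorem cb_apply {f : V → ZMod 2} {x y : V} (h : EIn G A x y) : cb G A f x y = f x + f y :=
  if_pos h

theorem rs_mem {a : V → V → ZMod 2} (h : B ⊆ A) (ha : a ∈ Z1 G A) : rs G B a ∈ Z1 G B := by
  obtain ⟨h0, hs, hc⟩ := mem_Z1.1 ha
  refine mem_Z1.2 ⟨fun x y e => if_neg e, fun x y => ?_, fun x y z e1 e2 e3 => ?_⟩
  · unfold rs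
    by_cases e : EIn G B x y
    · rw [if_pos e, if_pos e.symm, hs]
    · rw [if_neg e, if_neg (fun e' => e e'.symm)]
  · rw [rs_apply e1, rs_apply e2, rs_apply e3]
    exact hc x y z (e1.mono h) (e2.mono h) (e3.mono h)

theorem cb_mem (f : V → ZMod 2) : cb G A f ∈ Z1 G A := by
  refine mem_Z1.2 ⟨fun x y e => if_neg e, fun x y => ?_, fun x y z e1 e2 e3 => ?_⟩
  · unfold cb
    by_cases e : EIn G A x y
    · rw [if_pos e, if_pos e.symm, add_comm]
    · rw [if_neg e, if_neg (fun e' => e e'.symm)]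
  · rw [cb_apply e1, cb_apply e2, cb_apply e3]
    have := two_add (f y)
    calc f x + f y + (f y + f z) = f x + (f y + f y) + f z := by abel
      _ = f x + f z := by rw [this, add_zero]

theorem cb_triv (f : V → ZMod 2) : Triv G A (cb G A f) := ⟨f, fun _ _ e => cb_apply e⟩

theorem Triv_rs {a : V → V → ZMod 2} : Triv G B (rs G B a) ↔ Triv G B a :=
  ⟨fun t => t.congr fun _ _ e => rs_apply e, fun t => t.congr fun _ _ e => (rs_apply e).symm⟩

theorem rs_self {a : V → V → ZMod 2} (ha : a ∈ Z1 G A) : rs G A a = a := by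
  funext x y
  by_cases e : EIn G A x y
  · exact rs_apply e
  · rw [(mem_Z1.1 ha).1 x y e]; exact if_neg e

/-- restriction as a linear map -/
def rsl (G : SimpleGraph V) (A B : Set V) (h : B ⊆ A) : (Z1 G A) →ₗ[ZMod 2] (Z1 G B) where
  toFun := fun a => ⟨rs G B a.1, rs_mem h a.2⟩
  map_add' := by
    intro a b; ext x y
    simp only [Submodule.coe_add, rs, Pi.add_apply]
    split_ifs <;> simp
  map_smul' := by
    intro c a; ext x y
    simp only [Submodule.coe_smul, rs, Pi.smul_apply, RingHom.id_apply]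
    split_ifs <;> simp

/-- restriction as a linear map to `H^1(B)` -/
def rmap (G : SimpleGraph V) (A B : Set V) (h : B ⊆ A) :
    (Z1 G A) →ₗ[ZMod 2] ((Z1 G B) ⧸ (K1 G B B).comap (Z1 G B).subtype) :=
  (Submodule.mkQ _).comp (rsl G A B h)

theorem rmap_apply (h : B ⊆ A) (a : Z1 G A) : rmap G A B h a =
    Submodule.Quotient.mk ⟨rs G B a.1, rs_mem h a.2⟩ := rfl

theorem ker_rmap (h : B ⊆ A) :
    LinearMap.ker (rmap G A B h) = (K1 G A B).comap (Z1 G A).subtype := by
  ext a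
  rw [LinearMap.mem_ker, rmap_apply, Submodule.Quotient.mk_eq_zero]
  simp only [Submodule.mem_comap, Submodule.subtype_apply, mem_K1]
  constructor
  · rintro ⟨_, t⟩; exact ⟨a.2, Triv_rs.1 t⟩
  · rintro ⟨_, t⟩; exact ⟨rs_mem h a.2, Triv_rs.2 t⟩

theorem rk1_eq_range (h : B ⊆ A) :
    rk1 G A B = Module.finrank (ZMod 2) (LinearMap.range (rmap G A B h)) := by
  rw [rk1, ← ker_rmap h]
  exact LinearEquiv.finrank_eq (LinearMap.quotKerEquivRange _)

theorem rk1_le_right [Finite V] (h : B ⊆ A) : rk1 G A B ≤ b1 G B := by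
  rw [rk1_eq_range h]
  exact Submodule.finrank_le _

theorem rk1_mono_right [Finite V] (h : C ⊆ B) : rk1 G A C ≤ rk1 G A B := by
  have hk : (K1 G A B).comap (Z1 G A).subtype ≤ (K1 G A C).comap (Z1 G A).subtype := by
    intro a ha
    exact ⟨ha.1, ha.2.mono h⟩
  have e1 := Submodule.finrank_quotient_add_finrank ((K1 G A B).comap (Z1 G A).subtype)
  have e2 := Submodule.finrank_quotient_add_finrank ((K1 G A C).comap (Z1 G A).subtype)
  have e3 := Submodule.finrank_mono hk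
  unfold rk1
  omega

theorem rk1_le_left [Finite V] (h : B ⊆ A) : rk1 G A B ≤ b1 G A := rk1_mono_right h

theorem rk1_mono_left [Finite V] (h : B ⊆ A) (h' : C ⊆ B) : rk1 G A C ≤ rk1 G B C := by
  rw [rk1_eq_range (h'.trans h), rk1_eq_range h']
  refine Submodule.finrank_mono ?_
  rintro _ ⟨a, rfl⟩
  refine ⟨⟨rs G B a.1, rs_mem h a.2⟩, ?_⟩
  rw [rmap_apply, rmap_apply]
  congr 2
  funext x y
  by_cases e : EIn G C x y
  · rw [rs_apply e, rs_apply e]
    exact rs_apply (e.mono h')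
  · simp [rs, e]

theorem Inj.rk1_eq (h : Inj G A B) (hBA : B ⊆ A) : rk1 G A B = b1 G A := by
  unfold b1 rk1
  have : K1 G A B = K1 G A A := by
    ext a
    exact ⟨fun t => ⟨t.1, h a t.1 t.2⟩, fun t => ⟨t.1, t.2.mono hBA⟩⟩
  rw [this]

theorem Surj.rk1_eq (h : Surj G A B) (hBA : B ⊆ A) : rk1 G A B = b1 G B := by
  rw [rk1_eq_range hBA]
  have : LinearMap.range (rmap G A B hBA) = ⊤ := by
    rw [eq_top_iff]
    rintro q -
    obtain ⟨b, rfl⟩ := Submodule.Quotient.mk_surjective _ q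
    obtain ⟨a, ha, t⟩ := h b.1 b.2
    refine ⟨⟨a, ha⟩, ?_⟩
    rw [rmap_apply, Submodule.Quotient.eq]
    refine ⟨(Z1 G B).sub_mem (rs_mem hBA ha) b.2, ?_⟩
    refine t.congr fun x y e => ?_
    simp only [Submodule.subtype_apply, Submodule.coe_sub, Pi.add_apply, Pi.sub_apply,
      rs_apply e, CharTwo.sub_eq_add]
  rw [this, finrank_top]
  rfl

theorem Inj.le [Finite V] (h : Inj G A B) (hBA : B ⊆ A) : b1 G A ≤ b1 G B := by
  rw [← h.rk1_eq hBA]; exact rk1_le_right hBA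

theorem Surj.le [Finite V] (h : Surj G A B) (hBA : B ⊆ A) : b1 G B ≤ b1 G A := by
  rw [← h.rk1_eq hBA]; exact rk1_le_left hBA

theorem b1_eq_zero [Finite V] : b1 G A = 0 ↔ HZ G A := by
  unfold b1 rk1
  rw [Module.finrank_zero_iff, Submodule.Quotient.subsingleton_iff]
  constructor
  · intro h a ha
    have : (⟨a, ha⟩ : Z1 G A) ∈ (K1 G A A).comap (Z1 G A).subtype := by rw [h]; trivial
    exact this.2
  · intro h
    rw [eq_top_iff]
    rintro a -
    exact ⟨a.2, h a.1 a.2⟩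

theorem Inj_of_HZ (h : HZ G A) : Inj G A B := fun a ha _ => h a ha

theorem Surj_of_HZ (h : HZ G B) : Surj G A B := fun b hb =>
  ⟨0, (Z1 G A).zero_mem, by rw [zero_add]; exact h b hb⟩

theorem Inj_of_rk1 [Finite V] (h : rk1 G A B = b1 G A) (hBA : B ⊆ A) : Inj G A B := by
  have hk : (K1 G A A).comap (Z1 G A).subtype ≤ (K1 G A B).comap (Z1 G A).subtype := by
    intro a ha
    exact ⟨ha.1, ha.2.mono hBA⟩
  have e1 := Submodule.finrank_quotient_add_finrank ((K1 G A A).comap (Z1 G A).subtype)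
  have e2 := Submodule.finrank_quotient_add_finrank ((K1 G A B).comap (Z1 G A).subtype)
  have e3 : Module.finrank (ZMod 2) ((K1 G A A).comap (Z1 G A).subtype) =
      Module.finrank (ZMod 2) ((K1 G A B).comap (Z1 G A).subtype) := by
    unfold b1 rk1 at h
    omega
  have e4 := Submodule.eq_of_le_of_finrank_eq hk e3
  intro a ha t
  have : (⟨a, ha⟩ : Z1 G A) ∈ (K1 G A B).comap (Z1 G A).subtype := ⟨ha, t⟩
  rw [← e4] at this
  exact this.2

theorem Surj_of_rk1 [Finite V] (h : rk1 G A B = b1 G B) (hBA : B ⊆ A) : Surj G A B := by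
  rw [rk1_eq_range hBA] at h
  have htop : LinearMap.range (rmap G A B hBA) = ⊤ :=
    Submodule.eq_top_of_finrank_eq h
  intro b hb
  have : (Submodule.Quotient.mk ⟨b, hb⟩ : (Z1 G B) ⧸ (K1 G B B).comap (Z1 G B).subtype) ∈
      LinearMap.range (rmap G A B hBA) := by rw [htop]; trivial
  obtain ⟨a, ha⟩ := this
  refine ⟨a.1, a.2, ?_⟩
  rw [rmap_apply, Submodule.Quotient.eq] at ha
  refine ha.2.congr fun x y e => ?_
  simp only [Submodule.subtype_apply, Submodule.coe_sub, Pi.add_apply, Pi.sub_apply,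
    rs_apply e, CharTwo.sub_eq_add]

/-! ## Connectedness -/

theorem rtg_symm {x y : V} (h : Relation.ReflTransGen (EIn G A) x y) :
    Relation.ReflTransGen (EIn G A) y x := by
  induction h with
  | refl => exact Relation.ReflTransGen.refl
  | tail _ e ih => exact Relation.ReflTransGen.head e.symm ih

theorem rtg_mono (h : A ⊆ B) {x y : V} (r : Relation.ReflTransGen (EIn G A) x y) :
    Relation.ReflTransGen (EIn G B) x y := by
  induction r with
  | refl => exact Relation.ReflTransGen.refl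
  | tail _ e ih => exact ih.tail (e.mono h)

theorem rtg_mem {x y : V} (hx : x ∈ A) (h : Relation.ReflTransGen (EIn G A) x y) : y ∈ A := by
  induction h with
  | refl => exact hx
  | tail _ e _ => exact e.2.2

theorem rtg_const {f : V → ZMod 2} (hf : ∀ x y, EIn G A x y → f x = f y) {x y : V}
    (h : Relation.ReflTransGen (EIn G A) x y) : f x = f y := by
  induction h with
  | refl => rfl
  | tail _ e ih => exact ih.trans (hf _ _ e)

theorem Conn.const (h : Conn G A) {f : V → ZMod 2} (hf : ∀ x y, EIn G A x y → f x = f y)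
    {x y : V} (hx : x ∈ A) (hy : y ∈ A) : f x = f y := rtg_const hf (h.2 x hx y hy)

theorem Conn_iff : Conn G A ↔ A.Nonempty ∧ ∀ f : V → ZMod 2,
    (∀ x y, EIn G A x y → f x = f y) → ∀ x ∈ A, ∀ y ∈ A, f x = f y := by
  refine ⟨fun h => ⟨h.1, fun f hf x hx y hy => h.const hf hx hy⟩, fun h => ⟨h.1, ?_⟩⟩
  intro x hx y hy
  have := h.2 (fun z => if Relation.ReflTransGen (EIn G A) x z then 1 else 0) (by
    intro u v e
    have : Relation.ReflTransGen (EIn G A) x u ↔ Relation.ReflTransGen (EIn G A) x v :=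
      ⟨fun r => r.tail e, fun r => r.tail e.symm⟩
    simp only [this]) x hx y hy
  simp only [Relation.ReflTransGen.refl, if_true] at this
  by_contra hn
  rw [if_neg hn] at this
  exact one_ne_zero this

/-! ## `pl`, `mi`, `Fr` -/

theorem cmp_adj {P : Type} [PartialOrder P] {x y : P} : (cmp P).Adj x y ↔ x < y ∨ y < x := Iff.rfl

theorem sd_adj {s t : Cq G} : (sd G).Adj s t ↔ s < t ∨ t < s := Iff.rfl

theorem Cq.le_iff {s t : Cq G} : s ≤ t ↔ s.1 ⊆ t.1 := Iff.rfl

theorem Cq.lt_iff {s t : Cq G} : s < t ↔ s.1 ⊂ t.1 := by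
  rw [lt_iff_le_not_ge, Cq.le_iff, Cq.le_iff]; rfl

theorem mem_pl {s : Cq G} : s ∈ pl G M ↔ ∃ x ∈ s.1, x ∈ M := Iff.rfl

theorem mem_mi {s : Cq G} : s ∈ mi G M ↔ ∀ x ∈ s.1, x ∈ M := Iff.rfl

theorem compl_pl : (pl G M)ᶜ = mi G Mᶜ := by
  ext s; simp [pl, mi]

theorem compl_mi : (mi G M)ᶜ = pl G Mᶜ := by
  ext s; simp [pl, mi]

theorem mi_sub_pl : mi G M ⊆ pl G M := by
  intro s hs
  obtain ⟨x, hx⟩ := s.2.1
  exact ⟨x, hx, hs x hx⟩

theorem mi_mono (h : M ⊆ N) : mi G M ⊆ mi G N := fun _ hs x hx => h (hs x hx)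

theorem pl_mono (h : M ⊆ N) : pl G M ⊆ pl G N := fun _ ⟨x, hx, hm⟩ => ⟨x, hx, h hm⟩

theorem mi_inter : mi G (M ∩ N) = mi G M ∩ mi G N := by
  ext s
  exact ⟨fun h => ⟨fun x hx => (h x hx).1, fun x hx => (h x hx).2⟩,
    fun h x hx => ⟨h.1 x hx, h.2 x hx⟩⟩

theorem pl_union : pl G (M ∪ N) = pl G M ∪ pl G N := by
  ext s
  constructor
  · rintro ⟨x, hx, h | h⟩
    · exact Or.inl ⟨x, hx, h⟩
    · exact Or.inr ⟨x, hx, h⟩
  · rintro (⟨x, hx, h⟩ | ⟨x, hx, h⟩)
    · exact ⟨x, hx, Or.inl h⟩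
    · exact ⟨x, hx, Or.inr h⟩

theorem Fr_compl : Fr G Mᶜ = Fr G M := by
  unfold Fr; rw [compl_compl, Set.inter_comm]

theorem bb_compl : bb G Mᶜ = bb G M := by
  unfold bb; rw [compl_compl, add_comm]

/-- the vertex `x` as a simplex -/
def vx (G : SimpleGraph V) (x : V) : Cq G := ⟨{x}, Finset.singleton_nonempty x, by simp⟩

/-- the edge `xy` as a simplex -/
def eg (G : SimpleGraph V) {x y : V} (h : G.Adj x y) : Cq G :=
  ⟨{x, y}, ⟨x, by simp⟩, by
    intro u hu v hv huv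
    simp only [Finset.coe_insert, Finset.coe_singleton, Set.mem_insert_iff,
      Set.mem_singleton_iff] at hu hv
    rcases hu with rfl | rfl <;> rcases hv with rfl | rfl
    · exact absurd rfl huv
    · exact h
    · exact h.symm
    · exact absurd rfl huv⟩

end MOT
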