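import Pool.Agent.MOT.Bas

/-!
# MOT/Eul: the Euler formula `b1 + f1 + f3 = f2 + b0 + z2`
-/

open Classical

noncomputable section

namespace MOT

variable {V : Type} {G : SimpleGraph V} {A B C M : Set V}

/-- simplices of `A` with `k` vertices -/
def Kq (G : SimpleGraph V) (A : Set V) (k : ℕ) : Type :=
  {s : Finset V // s.card = k ∧ G.IsClique (s : Set V) ∧ (s : Set V) ⊆ A}

instance [Finite V] (k : ℕ) : Fintype (Kq G A k) :=
  haveI : Finite (Kq G A k) := inferInstanceAs (Finite {_s : Finset V // _})
  Fintype.ofFinite _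

theorem card_Kq [Finite V] (k : ℕ) : Fintype.card (Kq G A k) = fn G A k := by
  rw [← Nat.card_eq_fintype_card]
  rfl

/-- incidence matrix between `k + 1`- and `k`-vertex simplices -/
def inc (G : SimpleGraph V) (A : Set V) [Finite V] (k : ℕ) :
    Matrix (Kq G A (k + 1)) (Kq G A k) (ZMod 2) :=
  Matrix.of fun t e => if e.1 ⊆ t.1 then 1 else 0

/-- dimension of the space of 2-cycles of `A` -/
def z2 (G : SimpleGraph V) (A : Set V) [Finite V] : ℕ :=
  Module.finrank (ZMod 2) (LinearMap.ker (Matrix.mulVecLin (Matrix.transpose (inc G A 2))))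

/-! ### 0-cochains -/

/-- extension by zero -/
def ex0 (A : Set V) : (A → ZMod 2) →ₗ[ZMod 2] (V → ZMod 2) where
  toFun f := fun x => if h : x ∈ A then f ⟨x, h⟩ else 0
  map_add' f g := by
    funext x; simp only [Pi.add_apply]; split_ifs <;> simp
  map_smul' c f := by
    funext x; simp only [Pi.smul_apply, RingHom.id_apply]; split_ifs <;> simp

theorem ex0_inj : Function.Injective (ex0 A) := by
  intro f g h
  funext x
  have := congrFun h x.1
  simpa [ex0, x.2] using this

/-- coboundary as a linear map -/
def cbl (G : SimpleGraph V) (A : Set V) : (V → ZMod 2) →ₗ[ZMod 2] (V → V → ZMod 2) where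
  toFun f := cb G A f
  map_add' f g := by
    funext x y
    simp only [Pi.add_apply, cb]
    split_ifs
    · abel
    · simp
  map_smul' c f := by
    funext x y
    simp only [Pi.smul_apply, cb, RingHom.id_apply]
    split_ifs
    · rw [smul_add]
    · simp

theorem cbl_range : LinearMap.range ((cbl G A).comp (ex0 A)) = K1 G A A := by
  ext a
  constructor
  · rintro ⟨f, rfl⟩
    exact ⟨cb_mem _, cb_triv _⟩
  · rintro ⟨ha, f, hf⟩
    refine ⟨fun x => f x.1, ?_⟩
    funext x y
    show cb G A _ x y = _
    by_cases e : EIn G A x y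
    · rw [cb_apply e, hf x y e]
      simp [ex0, e.2.1, e.2.2]
    · rw [(mem_Z1.1 ha).1 x y e]
      exact if_neg e

theorem cbl_ker : Submodule.map (ex0 A) (LinearMap.ker ((cbl G A).comp (ex0 A))) = Z0 G A := by
  ext f
  constructor
  · rintro ⟨g, hg, rfl⟩
    refine ⟨fun x hx => by simp [ex0, hx], fun x y e => ?_⟩
    have h1 : cb G A (ex0 A g) x y = 0 := congrFun (congrFun (LinearMap.mem_ker.1 hg) x) y
    rw [cb_apply e] at h1
    exact (z2_eq _ _).1 h1
  · rintro ⟨h0, h1⟩
    have hf : ex0 A (fun x => f x.1) = f := by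
      funext x
      by_cases hx : x ∈ A
      · simp [ex0, hx]
      · simp [ex0, hx, h0 x hx]
    refine ⟨fun x => f x.1, ?_, hf⟩
    rw [SetLike.mem_coe, LinearMap.mem_ker, LinearMap.comp_apply, hf]
    funext x y
    show cb G A f x y = 0
    by_cases e : EIn G A x y
    · rw [cb_apply e, h1 x y e]; exact two_add _
    · exact if_neg e

theorem fn_one [Finite V] : fn G A 1 = A.ncard := by
  have : {s : Finset V | s.card = 1 ∧ G.IsClique (s : Set V) ∧ (s : Set V) ⊆ A} =
      (fun x => ({x} : Finset V)) '' A := by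
    ext s
    constructor
    · rintro ⟨h1, -, h3⟩
      obtain ⟨x, rfl⟩ := Finset.card_eq_one.1 h1
      exact ⟨x, h3 (by simp), rfl⟩
    · rintro ⟨x, hx, rfl⟩
      exact ⟨by simp, by simp, by simpa using hx⟩
  rw [fn, this, Set.ncard_image_of_injective _ Finset.singleton_injective]

theorem dim_B1 [Finite V] : Module.finrank (ZMod 2) (K1 G A A) + b0 G A = fn G A 1 := by
  have h := LinearMap.finrank_range_add_finrank_ker ((cbl G A).comp (ex0 A))
  let _ : Fintype A := Fintype.ofFinite _
  rw [cbl_range, Module.finrank_fintype_fun_eq_card] at h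
  have h2 : Module.finrank (ZMod 2) (LinearMap.ker ((cbl G A).comp (ex0 A))) = b0 G A := by
    rw [b0, ← cbl_ker]
    exact (LinearEquiv.finrank_eq
      (Submodule.equivMapOfInjective (ex0 A) ex0_inj _))
  rw [h2] at h
  rw [h, fn_one, ← Nat.card_eq_fintype_card]
  rfl

/-! ### 1-cochains -/

theorem eq_pair {s : Kq G A 2} : ∃ x y : V, EIn G A x y ∧ s.1 = {x, y} := by
  obtain ⟨s, h2, hc, hA⟩ := s
  obtain ⟨x, y, hxy, rfl⟩ := Finset.card_eq_two.1 h2
  exact ⟨x, y, ⟨hc (by simp) (by simp) hxy, hA (by simp), hA (by simp)⟩, rfl⟩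

/-- the edge as an element of `Kq` -/
def kp {x y : V} (h : EIn G A x y) : Kq G A 2 := ⟨{x, y}, by
  refine ⟨Finset.card_pair h.1.ne, ?_, ?_⟩
  · intro u hu v hv huv
    simp only [Finset.coe_insert, Finset.coe_singleton, Set.mem_insert_iff,
      Set.mem_singleton_iff] at hu hv
    rcases hu with rfl | rfl <;> rcases hv with rfl | rfl
    · exact absurd rfl huv
    · exact h.1
    · exact h.1.symm
    · exact absurd rfl huv
  · intro u hu
    simp only [Finset.coe_insert, Finset.coe_singleton, Set.mem_insert_iff,
      Set.mem_singleton_iff] at hu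
    rcases hu with rfl | rfl
    · exact h.2.1
    · exact h.2.2⟩

theorem kp_symm {x y : V} (h : EIn G A x y) : kp h = kp h.symm :=
  Subtype.ext (Finset.pair_comm x y)

/-- a function on edges as a cochain -/
def ex1 (G : SimpleGraph V) (A : Set V) :
    (Kq G A 2 → ZMod 2) →ₗ[ZMod 2] (V → V → ZMod 2) where
  toFun f := fun x y => if h : EIn G A x y then f (kp h) else 0
  map_add' f g := by
    funext x y; simp only [Pi.add_apply]; split_ifs <;> simp
  map_smul' c f := by
    funext x y; simp only [Pi.smul_apply, RingHom.id_apply]; split_ifs <;> simp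

theorem ex1_apply {f : Kq G A 2 → ZMod 2} {x y : V} (h : EIn G A x y) :
    ex1 G A f x y = f (kp h) := dif_pos h

theorem ex1_inj : Function.Injective (ex1 G A) := by
  intro f g h
  funext s
  obtain ⟨x, y, e, hs⟩ := eq_pair (s := s)
  have h1 := congrFun (congrFun h x) y
  rw [ex1_apply e, ex1_apply e] at h1
  have : kp e = s := Subtype.ext hs.symm
  rwa [this] at h1

/-- the sum over the edges of a triangle -/
theorem inc_tri [Finite V] {x y z : V} (t : Kq G A 3) (ht : t.1 = {x, y, z})
    (e1 : EIn G A x y) (e2 : EIn G A y z) (e3 : EIn G A x z) (f : Kq G A 2 → ZMod 2) :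
    (inc G A 2).mulVec f t = f (kp e1) + f (kp e2) + f (kp e3) := by
  have hxy := e1.1.ne
  have hyz := e2.1.ne
  have hxz := e3.1.ne
  have hcl : ∀ e : Kq G A 2, e.1 ⊆ t.1 ↔ e = kp e1 ∨ e = kp e2 ∨ e = kp e3 := by
    intro e
    constructor
    · intro hs
      obtain ⟨u, v, huv, he⟩ := eq_pair (s := e)
      have hu : u ∈ ({x, y, z} : Finset V) := by rw [← ht]; exact hs (by rw [he]; simp)
      have hv : v ∈ ({x, y, z} : Finset V) := by rw [← ht]; exact hs (by rw [he]; simp)
      have hne := huv.1.ne
      simp only [Finset.mem_insert, Finset.mem_singleton] at hu hv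
      have key : e.1 = {x, y} ∨ e.1 = {y, z} ∨ e.1 = {x, z} := by
        rw [he]
        rcases hu with rfl | rfl | rfl <;> rcases hv with rfl | rfl | rfl
        · exact absurd rfl hne
        · exact Or.inl rfl
        · exact Or.inr (Or.inr rfl)
        · exact Or.inl (Finset.pair_comm _ _)
        · exact absurd rfl hne
        · exact Or.inr (Or.inl rfl)
        · exact Or.inr (Or.inr (Finset.pair_comm _ _))
        · exact Or.inr (Or.inl (Finset.pair_comm _ _))
        · exact absurd rfl hne
      rcases key with h | h | h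
      · exact Or.inl (Subtype.ext h)
      · exact Or.inr (Or.inl (Subtype.ext h))
      · exact Or.inr (Or.inr (Subtype.ext h))
    · rw [ht]
      rintro (rfl | rfl | rfl)
      · intro u hu
        simp only [kp, Finset.mem_insert, Finset.mem_singleton] at hu ⊢
        tauto
      · intro u hu
        simp only [kp, Finset.mem_insert, Finset.mem_singleton] at hu ⊢
        tauto
      · intro u hu
        simp only [kp, Finset.mem_insert, Finset.mem_singleton] at hu ⊢
        tauto
  have n12 : kp e1 ≠ kp e2 := by
    intro h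
    have : x ∈ ({y, z} : Finset V) := by
      have h' : ({x, y} : Finset V) = {y, z} := congrArg Subtype.val h
      rw [← h']; simp
    simp only [Finset.mem_insert, Finset.mem_singleton] at this
    tauto
  have n13 : kp e1 ≠ kp e3 := by
    intro h
    have : y ∈ ({x, z} : Finset V) := by
      have h' : ({x, y} : Finset V) = {x, z} := congrArg Subtype.val h
      rw [← h']; simp
    simp only [Finset.mem_insert, Finset.mem_singleton] at this
    rcases this with h | h
    · exact hxy h.symm
    · exact hyz h
  have n23 : kp e2 ≠ kp e3 := by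
    intro h
    have : y ∈ ({x, z} : Finset V) := by
      have h' : ({y, z} : Finset V) = {x, z} := congrArg Subtype.val h
      rw [← h']; simp
    simp only [Finset.mem_insert, Finset.mem_singleton] at this
    rcases this with h | h
    · exact hxy h.symm
    · exact hyz h
  have hsum : (inc G A 2).mulVec f t = ∑ e ∈ ({kp e1, kp e2, kp e3} : Finset (Kq G A 2)), f e := by
    rw [Matrix.mulVec, dotProduct, ← Finset.sum_subset (Finset.subset_univ
      ({kp e1, kp e2, kp e3} : Finset (Kq G A 2)))]
    · refine Finset.sum_congr rfl fun e he => ?_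
      have : e.1 ⊆ t.1 := (hcl e).2 (by simpa using he)
      simp [inc, this]
    · intro e _ he
      have : ¬ e.1 ⊆ t.1 := fun h => he (by simpa using (hcl e).1 h)
      simp [inc, this]
  rw [hsum, Finset.sum_insert (by simp [n12, n13]), Finset.sum_insert (by simp [n23]),
    Finset.sum_singleton]
  ring

theorem ker_inc [Finite V] :
    Submodule.map (ex1 G A) (LinearMap.ker (Matrix.mulVecLin (inc G A 2))) = Z1 G A := by
  ext a
  constructor
  · rintro ⟨f, hf, rfl⟩
    have hf' : (inc G A 2).mulVec f = 0 := hf
    refine mem_Z1.2 ⟨fun x y e => dif_neg e, fun x y => ?_, fun x y z e1 e2 e3 => ?_⟩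
    · by_cases e : EIn G A x y
      · rw [ex1_apply e, ex1_apply e.symm, kp_symm]
      · show (dite _ _ _) = (dite _ _ _)
        rw [dif_neg e, dif_neg (fun h => e h.symm)]
    · rw [ex1_apply e1, ex1_apply e2, ex1_apply e3]
      have h3 : ({x, y, z} : Finset V).card = 3 := by
        rw [Finset.card_eq_three]
        exact ⟨x, y, z, e1.1.ne, e3.1.ne, e2.1.ne, rfl⟩
      have hcl : G.IsClique (({x, y, z} : Finset V) : Set V) := by
        intro u hu v hv huv
        simp only [Finset.coe_insert, Finset.coe_singleton, Set.mem_insert_iff,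
          Set.mem_singleton_iff] at hu hv
        rcases hu with rfl | rfl | rfl <;> rcases hv with rfl | rfl | rfl
        · exact absurd rfl huv
        · exact e1.1
        · exact e3.1
        · exact e1.1.symm
        · exact absurd rfl huv
        · exact e2.1
        · exact e3.1.symm
        · exact e2.1.symm
        · exact absurd rfl huv
      have hA : (({x, y, z} : Finset V) : Set V) ⊆ A := by
        intro u hu
        simp only [Finset.coe_insert, Finset.coe_singleton, Set.mem_insert_iff,
          Set.mem_singleton_iff] at hu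
        rcases hu with rfl | rfl | rfl
        · exact e1.2.1
        · exact e1.2.2
        · exact e2.2.2
      have h := inc_tri (⟨{x, y, z}, h3, hcl, hA⟩ : Kq G A 3) rfl e1 e2 e3 f
      rw [hf'] at h
      exact (z2_eq _ _).1 h.symm
  · intro ha
    obtain ⟨h0, hs, hc⟩ := mem_Z1.1 ha
    have hf : ∃ f : Kq G A 2 → ZMod 2, ∀ x y (e : EIn G A x y), f (kp e) = a x y := by
      refine ⟨fun s => a (eq_pair (s := s)).choose (eq_pair (s := s)).choose_spec.choose, ?_⟩
      intro x y e
      show a _ _ = a x y
      obtain ⟨e', hs'⟩ := (eq_pair (s := kp e)).choose_spec.choose_spec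
      generalize (eq_pair (s := kp e)).choose_spec.choose = v at e' hs' ⊢
      generalize (eq_pair (s := kp e)).choose = u at e' hs' ⊢
      have h1 : u ∈ ({x, y} : Finset V) := by
        have : u ∈ (kp e).1 := by rw [hs']; simp
        exact this
      have h2 : v ∈ ({x, y} : Finset V) := by
        have : v ∈ (kp e).1 := by rw [hs']; simp
        exact this
      simp only [Finset.mem_insert, Finset.mem_singleton] at h1 h2
      have hne := e'.1.ne
      rcases h1 with rfl | rfl <;> rcases h2 with rfl | rfl
      · exact absurd rfl hne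
      · rfl
      · exact hs _ _
      · exact absurd rfl hne
    obtain ⟨f, hf⟩ := hf
    refine ⟨f, ?_, ?_⟩
    · rw [SetLike.mem_coe, LinearMap.mem_ker]
      funext t
      obtain ⟨x, y, z, hxy, hxz, hyz, ht⟩ := Finset.card_eq_three.1 t.2.1
      have hx : x ∈ t.1 := by rw [ht]; simp
      have hy : y ∈ t.1 := by rw [ht]; simp
      have hz : z ∈ t.1 := by rw [ht]; simp
      have e1 : EIn G A x y := ⟨t.2.2.1 hx hy hxy, t.2.2.2 hx, t.2.2.2 hy⟩
      have e2 : EIn G A y z := ⟨t.2.2.1 hy hz hyz, t.2.2.2 hy, t.2.2.2 hz⟩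
      have e3 : EIn G A x z := ⟨t.2.2.1 hx hz hxz, t.2.2.2 hx, t.2.2.2 hz⟩
      rw [Matrix.mulVecLin_apply, inc_tri t ht e1 e2 e3, hf, hf, hf, hc x y z e1 e2 e3]
      exact two_add _
    · funext x y
      by_cases e : EIn G A x y
      · rw [ex1_apply e, hf]
      · rw [h0 x y e]; exact dif_neg e

/-- the Euler formula -/
theorem euler [Finite V] : b1 G A + fn G A 1 + fn G A 3 = fn G A 2 + b0 G A + z2 G A := by
  have h1 := LinearMap.finrank_range_add_finrank_ker (Matrix.mulVecLin (inc G A 2))
  have h2 := LinearMap.finrank_range_add_finrank_ker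
    (Matrix.mulVecLin (Matrix.transpose (inc G A 2)))
  have h3 : Module.finrank (ZMod 2) (LinearMap.range (Matrix.mulVecLin (inc G A 2))) =
      Module.finrank (ZMod 2)
        (LinearMap.range (Matrix.mulVecLin (Matrix.transpose (inc G A 2)))) :=
    (Matrix.rank_transpose (inc G A 2)).symm
  have h4 : Module.finrank (ZMod 2) (LinearMap.ker (Matrix.mulVecLin (inc G A 2))) =
      Module.finrank (ZMod 2) (Z1 G A) := by
    rw [← ker_inc]
    exact (LinearEquiv.finrank_eq
      (Submodule.equivMapOfInjective (ex1 G A) ex1_inj _))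
  rw [Module.finrank_fintype_fun_eq_card, card_Kq] at h1 h2
  have h5 := dim_B1 (G := G) (A := A)
  have h6 := Submodule.finrank_quotient_add_finrank ((K1 G A A).comap (Z1 G A).subtype)
  have hle : K1 G A A ≤ Z1 G A := fun a ha => ha.1
  have h7 : Module.finrank (ZMod 2) ((K1 G A A).comap (Z1 G A).subtype) =
      Module.finrank (ZMod 2) (K1 G A A) :=
    LinearEquiv.finrank_eq (Submodule.comapSubtypeEquivOfLe hle)
  have h8 : fn G A (2 + 1) = fn G A 3 := rfl
  unfold b1 rk1 z2
  omega

end MOT
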