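import Pool.Agent.MOT.Bas

/-!
# MOT/MV: Mayer-Vietoris for full subcomplexes
-/

open Classical

noncomputable section

namespace MOT

variable {V : Type} {G : SimpleGraph V} {A B C M : Set V}

private theorem d4 : ∀ a b c d : ZMod 2, a + b = c + d → a + c = b + d := by decide

private theorem d3 : ∀ a b c : ZMod 2, a + b = c → a = b + c := by decide

private theorem d5 : ∀ a b c : ZMod 2, a + b = (a + c) + (b + c) := by decide

private theorem d2 : ∀ a b : ZMod 2, a + (a + b) = b := by decide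

private theorem d0 : ∀ a b : ZMod 2, 0 = a + b → a = b := by decide

private theorem edge_or (h : NAdj G (A \ B) (B \ A)) {x y : V} (e : EIn G (A ∪ B) x y) :
    EIn G A x y ∨ EIn G B x y := by
  by_contra hn
  push Not at hn
  obtain ⟨h1, h2⟩ := hn
  have hx := e.2.1
  have hy := e.2.2
  by_cases xa : x ∈ A
  · by_cases ya : y ∈ A
    · exact h1 ⟨e.1, xa, ya⟩
    · have yb : y ∈ B := hy.resolve_left ya
      by_cases xb : x ∈ B
      · exact h2 ⟨e.1, xb, yb⟩
      · exact h x ⟨xa, xb⟩ y ⟨yb, ya⟩ e.1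
  · have xb : x ∈ B := hx.resolve_left xa
    by_cases yb : y ∈ B
    · exact h2 ⟨e.1, xb, yb⟩
    · have ya := hy.resolve_right yb
      exact h y ⟨ya, yb⟩ x ⟨xb, xa⟩ e.1.symm

private theorem tri_or (h : NAdj G (A \ B) (B \ A)) {x y z : V} (e1 : EIn G (A ∪ B) x y)
    (e2 : EIn G (A ∪ B) y z) (e3 : EIn G (A ∪ B) x z) :
    (EIn G A x y ∧ EIn G A y z ∧ EIn G A x z) ∨ (EIn G B x y ∧ EIn G B y z ∧ EIn G B x z) := by
  have a1 := e1.1
  have a2 := e2.1
  have a3 := e3.1
  have f1 := edge_or h e1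
  have f2 := edge_or h e2
  have f3 := edge_or h e3
  unfold EIn at *
  tauto

private theorem cb_zero_B {k : V → ZMod 2} (hk : ∀ x y, EIn G (A ∩ B) x y → k x = k y) {x y : V}
    (e : EIn G B x y) : cb G A k x y = 0 := by
  by_cases e' : EIn G A x y
  · rw [cb_apply e', hk x y ⟨e.1, ⟨e'.2.1, e.2.1⟩, ⟨e'.2.2, e.2.2⟩⟩]
    exact two_add _
  · exact if_neg e'

private theorem cb_un (h : NAdj G (A \ B) (B \ A)) {k : V → ZMod 2}
    (hk : ∀ x y, EIn G (A ∩ B) x y → k x = k y) : cb G A k ∈ Z1 G (A ∪ B) := by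
  obtain ⟨_, cs, cc⟩ := mem_Z1.1 (cb_mem (G := G) (A := A) k)
  refine mem_Z1.2 ⟨fun x y e => ?_, cs, fun x y z e1 e2 e3 => ?_⟩
  · exact if_neg fun e' => e (e'.mono Set.subset_union_left)
  · rcases tri_or h e1 e2 e3 with ⟨f1, f2, f3⟩ | ⟨f1, f2, f3⟩
    · exact cc x y z f1 f2 f3
    · rw [cb_zero_B hk f1, cb_zero_B hk f2, cb_zero_B hk f3, add_zero]

/-- `H^1(A ∪ B) → H^1(A) + H^1(B)` is injective if `A ∩ B` is connected.
Sketch: `a = df` on `A`, `a = dg` on `B`; `f + g` is constant `c` on `A ∩ B`; put `f` on `A`,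
`g + c` on `B \ A`.  Every edge in `A ∪ B` lies in `A` or in `B` by `h`. -/
theorem mv_triv (h : NAdj G (A \ B) (B \ A)) (hc : Conn G (A ∩ B)) {a : V → V → ZMod 2}
    (ha : a ∈ Z1 G (A ∪ B)) (hA : Triv G A a) (hB : Triv G B a) : Triv G (A ∪ B) a := by
  obtain ⟨f, hf⟩ := hA
  obtain ⟨g, hg⟩ := hB
  obtain ⟨x0, hx0⟩ := hc.1
  have hk : ∀ z ∈ A ∩ B, f z = g z + (f x0 + g x0) := by
    intro z hz
    have := hc.const (f := fun z => f z + g z) (by
      intro x y e
      have e1 := hf x y (e.mono Set.inter_subset_left)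
      have e2 := hg x y (e.mono Set.inter_subset_right)
      rw [e1] at e2
      exact d4 _ _ _ _ e2) hz hx0
    exact d3 _ _ _ this
  have hB' : ∀ z ∈ B, (if z ∈ A then f z else g z + (f x0 + g x0)) = g z + (f x0 + g x0) := by
    intro z hz
    by_cases hA : z ∈ A
    · rw [if_pos hA]; exact hk z ⟨hA, hz⟩
    · rw [if_neg hA]
  refine ⟨fun z => if z ∈ A then f z else g z + (f x0 + g x0), fun x y e => ?_⟩
  rcases edge_or h e with e' | e'
  · show a x y = (if x ∈ A then f x else g x + (f x0 + g x0)) +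
      (if y ∈ A then f y else g y + (f x0 + g x0))
    rw [if_pos e'.2.1, if_pos e'.2.2]
    exact hf x y e'
  · show a x y = (if x ∈ A then f x else g x + (f x0 + g x0)) +
      (if y ∈ A then f y else g y + (f x0 + g x0))
    rw [hB' x e'.2.1, hB' y e'.2.2, hg x y e']
    exact d5 _ _ _

/-- exactness at `H^1(A) + H^1(B)`.
Sketch: `a + b = df` on `A ∩ B`; `c := a + cb(f on A∩B, 0 else)` on the edges in `A`, `b` on the edges in `B` not in `A`.
(every triangle in `A ∪ B` lies in `A` or in `B`.) -/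
theorem mv_glue (h : NAdj G (A \ B) (B \ A)) {a b : V → V → ZMod 2}
    (ha : a ∈ Z1 G A) (hb : b ∈ Z1 G B) (t : Triv G (A ∩ B) (a + b)) :
    ∃ c ∈ Z1 G (A ∪ B), Triv G A (c + a) ∧ Triv G B (c + b) := by
  obtain ⟨f, hf⟩ := t
  obtain ⟨a0, as, ac⟩ := mem_Z1.1 ha
  obtain ⟨b0', bs, bc⟩ := mem_Z1.1 hb
  obtain ⟨F, hF⟩ : ∃ F : V → ZMod 2, ∀ z ∈ A ∩ B, F z = f z := ⟨f, fun _ _ => rfl⟩
  set c : V → V → ZMod 2 := fun x y => if EIn G A x y then a x y + (F x + F y) else b x y with hc
  have cA : ∀ x y, EIn G A x y → c x y = a x y + (F x + F y) := fun x y e => if_pos e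
  have cB : ∀ x y, EIn G B x y → c x y = b x y := by
    intro x y e
    by_cases e' : EIn G A x y
    · rw [cA x y e']
      have e2 : EIn G (A ∩ B) x y := ⟨e.1, ⟨e'.2.1, e.2.1⟩, ⟨e'.2.2, e.2.2⟩⟩
      have h1 := hf x y e2
      rw [hF x e2.2.1, hF y e2.2.2, ← h1]
      exact d2 _ _
    · exact if_neg e'
  refine ⟨c, mem_Z1.2 ⟨fun x y e => ?_, fun x y => ?_, fun x y z e1 e2 e3 => ?_⟩,
    ⟨F, fun x y e => ?_⟩, ⟨0, fun x y e => ?_⟩⟩
  · have e1 : ¬ EIn G A x y := fun e' => e (e'.mono Set.subset_union_left)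
    have e2 : ¬ EIn G B x y := fun e' => e (e'.mono Set.subset_union_right)
    show (if EIn G A x y then a x y + (F x + F y) else b x y) = 0
    rw [if_neg e1]
    exact b0' x y e2
  · by_cases e : EIn G A x y
    · rw [cA x y e, cA y x e.symm, as x y, add_comm (F x)]
    · have e' : ¬ EIn G A y x := fun e' => e e'.symm
      show (if EIn G A x y then a x y + (F x + F y) else b x y) =
        (if EIn G A y x then a y x + (F y + F x) else b y x)
      rw [if_neg e, if_neg e']
      exact bs x y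
  · rcases tri_or h e1 e2 e3 with ⟨f1, f2, f3⟩ | ⟨f1, f2, f3⟩
    · rw [cA x y f1, cA y z f2, cA x z f3, ← ac x y z f1 f2 f3]
      have : ∀ a b c d e : ZMod 2, a + (c + d) + (b + (d + e)) = a + b + (c + e) := by decide
      exact this _ _ _ _ _
    · rw [cB x y f1, cB y z f2, cB x z f3]
      exact bc x y z f1 f2 f3
  · rw [Pi.add_apply, Pi.add_apply, cA x y e]
    have : ∀ a b : ZMod 2, a + b + a = b := by decide
    exact this _ _
  · rw [Pi.add_apply, Pi.add_apply, cB x y e, two_add]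
    simp

/-- `H^1(A ∪ B) = 0`, `A`, `B` connected: `A ∩ B` is connected (if nonempty).
Sketch: `f` locally constant on `A ∩ B`; the cochain `x y ↦ f x + f y'`, precisely the cocycle of
`A ∪ B` which is `d (f on A, 0 elsewhere)` on edges in `A` and `0` on the others is trivial:
`= dg`; `g` is constant on `B`, `g + f` constant on `A`; so `f` is constant on `A ∩ B`. -/
theorem mv_conn_inter (h : NAdj G (A \ B) (B \ A)) (hz : HZ G (A ∪ B)) (hA : Conn G A)
    (hB : Conn G B) (hne : (A ∩ B).Nonempty) : Conn G (A ∩ B) := by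
  rw [Conn_iff]
  refine ⟨hne, fun f hf x hx y hy => ?_⟩
  obtain ⟨g, hg⟩ := hz _ (cb_un h hf)
  have gB : ∀ u v, EIn G B u v → g u = g v := by
    intro u v e
    have h1 := hg u v (e.mono Set.subset_union_right)
    rw [cb_zero_B hf e] at h1
    exact d0 _ _ h1
  have gA : ∀ u v, EIn G A u v → f u + g u = f v + g v := by
    intro u v e
    have h1 := hg u v (e.mono Set.subset_union_left)
    rw [cb_apply e] at h1
    exact d4 _ _ _ _ h1
  have h1 := hB.const gB hx.2 hy.2
  have h2 := hA.const (f := fun z => f z + g z) gA hx.1 hy.1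
  have h3 : f x + g x = f y + g y := h2
  rw [h1] at h3
  exact add_right_cancel h3

private theorem ind_Z0 {f : V → ZMod 2} (hf : ∀ x y, EIn G A x y → f x = f y) :
    (fun z => if z ∈ A then f z else 0) ∈ Z0 G A :=
  mem_Z0.2 ⟨fun _ hx => if_neg hx, fun x y e => by
    rw [if_pos e.2.1, if_pos e.2.2]; exact hf x y e⟩

/-- restriction of a locally constant function -/
private def rz (G : SimpleGraph V) (A C : Set V) (hs : C ⊆ A) : Z0 G A →ₗ[ZMod 2] Z0 G C where
  toFun f := ⟨fun z => if z ∈ C then f.1 z else 0,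
    ind_Z0 fun x y e => (mem_Z0.1 f.2).2 x y (e.mono hs)⟩
  map_add' := by
    intro f g; ext z
    simp only [Submodule.coe_add, Pi.add_apply]
    split_ifs <;> simp
  map_smul' := by
    intro c f; ext z
    simp only [Submodule.coe_smul, Pi.smul_apply, RingHom.id_apply]
    split_ifs <;> simp

/-- difference on the intersection -/
private def phi (G : SimpleGraph V) (A B : Set V) :
    (Z0 G A × Z0 G B) →ₗ[ZMod 2] (V → ZMod 2) where
  toFun p := fun z => if z ∈ A ∩ B then p.1.1 z + p.2.1 z else 0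
  map_add' := by
    intro p q; funext z
    simp only [Prod.fst_add, Prod.snd_add, Submodule.coe_add, Pi.add_apply]
    split_ifs
    · abel
    · simp
  map_smul' := by
    intro c p; funext z
    simp only [Prod.smul_fst, Prod.smul_snd, Submodule.coe_smul, Pi.smul_apply, RingHom.id_apply]
    split_ifs
    · rw [smul_add]
    · simp

private theorem phi_apply (p : Z0 G A × Z0 G B) {z : V} (hz : z ∈ A ∩ B) :
    phi G A B p z = p.1.1 z + p.2.1 z := if_pos hz

private theorem mv_ker [Finite V] (h : NAdj G (A \ B) (B \ A)) :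
    b0 G A + b0 G B = Module.finrank (ZMod 2) (LinearMap.range (phi G A B)) + b0 G (A ∪ B) := by
  have h1 := LinearMap.finrank_range_add_finrank_ker (phi G A B)
  rw [Module.finrank_prod] at h1
  unfold b0
  rw [← h1]
  congr 1
  set th : Z0 G (A ∪ B) →ₗ[ZMod 2] (Z0 G A × Z0 G B) :=
    (rz G (A ∪ B) A Set.subset_union_left).prod (rz G (A ∪ B) B Set.subset_union_right) with hth
  have hA : ∀ (f : Z0 G (A ∪ B)) z, z ∈ A → (th f).1.1 z = f.1 z := fun f z hz => if_pos hz
  have hB : ∀ (f : Z0 G (A ∪ B)) z, z ∈ B → (th f).2.1 z = f.1 z := fun f z hz => if_pos hz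
  have hinj : Function.Injective th := by
    intro f g hfg
    ext z
    by_cases hzA : z ∈ A
    · rw [← hA f z hzA, ← hA g z hzA, hfg]
    · by_cases hzB : z ∈ B
      · rw [← hB f z hzB, ← hB g z hzB, hfg]
      · have hz : z ∉ A ∪ B := fun hz => hz.elim hzA hzB
        rw [(mem_Z0.1 f.2).1 z hz, (mem_Z0.1 g.2).1 z hz]
  rw [← LinearMap.finrank_range_of_inj hinj]
  suffices hR : LinearMap.ker (phi G A B) = LinearMap.range th by rw [hR]
  ext p
  rw [LinearMap.mem_ker]
  constructor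
  · intro hp
    have hAB : ∀ z, z ∈ A ∩ B → p.1.1 z = p.2.1 z := by
      intro z hz
      have := congrFun hp z
      rw [phi_apply p hz] at this
      exact (z2_eq _ _).1 this
    obtain ⟨fA, fA'⟩ := mem_Z0.1 p.1.2
    obtain ⟨gB, gB'⟩ := mem_Z0.1 p.2.2
    set k : V → ZMod 2 := fun z => if z ∈ A then p.1.1 z else p.2.1 z with hk
    have kA : ∀ z, z ∈ A → k z = p.1.1 z := fun z hz => if_pos hz
    have kB : ∀ z, z ∈ B → k z = p.2.1 z := by
      intro z hz
      by_cases hzA : z ∈ A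
      · rw [kA z hzA]; exact hAB z ⟨hzA, hz⟩
      · exact if_neg hzA
    have hk0 : k ∈ Z0 G (A ∪ B) := by
      refine mem_Z0.2 ⟨fun x hx => ?_, fun x y e => ?_⟩
      · have h1 : x ∉ A := fun h1 => hx (Or.inl h1)
        have h2 : x ∉ B := fun h2 => hx (Or.inr h2)
        show (if x ∈ A then p.1.1 x else p.2.1 x) = 0
        rw [if_neg h1]
        exact gB x h2
      · rcases edge_or h e with e' | e'
        · rw [kA x e'.2.1, kA y e'.2.2]; exact fA' x y e'
        · rw [kB x e'.2.1, kB y e'.2.2]; exact gB' x y e'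
    refine ⟨⟨k, hk0⟩, Prod.ext (Subtype.ext (funext fun z => ?_)) (Subtype.ext (funext fun z => ?_))⟩
    · by_cases hz : z ∈ A
      · rw [hA _ z hz]; exact kA z hz
      · rw [fA z hz]; exact if_neg hz
    · by_cases hz : z ∈ B
      · rw [hB _ z hz]; exact kB z hz
      · rw [gB z hz]; exact if_neg hz
  · rintro ⟨f, rfl⟩
    funext z
    by_cases hz : z ∈ A ∩ B
    · rw [phi_apply _ hz, hA f z hz.1, hB f z hz.2, two_add]; rfl
    · exact if_neg hz

private theorem phi_le : LinearMap.range (phi G A B) ≤ Z0 G (A ∩ B) := by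
  rintro _ ⟨p, rfl⟩
  refine mem_Z0.2 ⟨fun x hx => if_neg hx, fun x y e => ?_⟩
  rw [phi_apply p e.2.1, phi_apply p e.2.2,
    (mem_Z0.1 p.1.2).2 x y (e.mono Set.inter_subset_left),
    (mem_Z0.1 p.2.2).2 x y (e.mono Set.inter_subset_right)]

/-- a locally constant function on the intersection is a sum iff its coboundary is trivial -/
private theorem mem_phi (h : NAdj G (A \ B) (B \ A)) {k : V → ZMod 2} (hk : k ∈ Z0 G (A ∩ B)) :
    k ∈ LinearMap.range (phi G A B) ↔ Triv G (A ∪ B) (cb G A k) := by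
  obtain ⟨k0, kc⟩ := mem_Z0.1 hk
  constructor
  · rintro ⟨p, rfl⟩
    obtain ⟨fA, fA'⟩ := mem_Z0.1 p.1.2
    obtain ⟨gB, gB'⟩ := mem_Z0.1 p.2.2
    set k := phi G A B p with hkdef
    have sA : ∀ z, z ∈ A → (if z ∈ B then p.2.1 z else p.1.1 z) + k z = p.1.1 z := by
      intro z hz
      by_cases hzB : z ∈ B
      · rw [if_pos hzB, hkdef, phi_apply p ⟨hz, hzB⟩]
        have : ∀ a b : ZMod 2, b + (a + b) = a := by decide
        exact this _ _
      · rw [if_neg hzB, k0 z (fun h' => hzB h'.2), add_zero]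
    refine ⟨fun z => if z ∈ B then p.2.1 z else p.1.1 z, fun x y e => ?_⟩
    rcases edge_or h e with e' | e'
    · rw [cb_apply e']
      have h1 := sA x e'.2.1
      have h2 := sA y e'.2.2
      have h3 := h2.trans ((fA' x y e').symm.trans h1.symm)
      have : ∀ a b c d : ZMod 2, c + b = a + d → d + b = a + c := by decide
      exact this _ _ _ _ h3
    · rw [cb_zero_B kc e']
      show (0 : ZMod 2) = (if x ∈ B then p.2.1 x else p.1.1 x) +
        (if y ∈ B then p.2.1 y else p.1.1 y)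
      rw [if_pos e'.2.1, if_pos e'.2.2, gB' x y e', two_add]
  · rintro ⟨g, hg⟩
    have gB : ∀ u v, EIn G B u v → g u = g v := by
      intro u v e
      have h1 := hg u v (e.mono Set.subset_union_right)
      rw [cb_zero_B kc e] at h1
      exact d0 _ _ h1
    have gA : ∀ u v, EIn G A u v → k u + g u = k v + g v := by
      intro u v e
      have h1 := hg u v (e.mono Set.subset_union_left)
      rw [cb_apply e] at h1
      exact d4 _ _ _ _ h1
    refine ⟨(⟨_, ind_Z0 (f := fun z => k z + g z) gA⟩, ⟨_, ind_Z0 gB⟩), ?_⟩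
    funext z
    by_cases hz : z ∈ A ∩ B
    · rw [phi_apply _ hz]
      show (if z ∈ A then k z + g z else 0) + (if z ∈ B then g z else 0) = k z
      rw [if_pos hz.1, if_pos hz.2]
      have : ∀ a b : ZMod 2, a + b + b = a := by decide
      exact this _ _
    · rw [k0 z hz]; exact if_neg hz

private theorem b0_one (hc : Conn G A) : b0 G A = 1 := by
  unfold b0
  obtain ⟨x0, hx0⟩ := hc.1
  refine (finrank_eq_one_iff_of_nonzero'
    (⟨fun z => if z ∈ A then 1 else 0, ind_Z0 (f := fun _ => 1) fun _ _ _ => rfl⟩ : Z0 G A)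
    (fun h => ?_)).2 (fun w => ⟨w.1 x0, ?_⟩)
  · have h1 : (if x0 ∈ A then (1 : ZMod 2) else 0) = 0 := congrFun (congrArg Subtype.val h) x0
    rw [if_pos hx0] at h1
    exact one_ne_zero h1
  · ext z
    show w.1 x0 * (if z ∈ A then (1 : ZMod 2) else 0) = w.1 z
    by_cases hz : z ∈ A
    · rw [if_pos hz, mul_one]
      exact hc.const (mem_Z0.1 w.2).2 hx0 hz
    · rw [if_neg hz, mul_zero]
      exact ((mem_Z0.1 w.2).1 z hz).symm

private theorem b0_emp : b0 G (∅ : Set V) = 0 := by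
  have : Z0 G (∅ : Set V) = ⊥ := by
    rw [eq_bot_iff]
    intro f hf
    rw [Submodule.mem_bot]
    funext x
    exact (mem_Z0.1 hf).1 x (Set.notMem_empty x)
  unfold b0
  rw [this, finrank_bot]

private theorem ne_of_b0 [Finite V] (h : b0 G A ≠ 0) : A.Nonempty := by
  rw [Set.nonempty_iff_ne_empty]
  rintro rfl
  exact h b0_emp

/-- count of components: `H^1(A ∪ B) = 0`, `A ∪ B` connected. -/
theorem mv_b0 [Finite V] (h : NAdj G (A \ B) (B \ A)) (hz : HZ G (A ∪ B))
    (hc : Conn G (A ∪ B)) : b0 G (A ∩ B) + 1 = b0 G A + b0 G B := by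
  have h1 := mv_ker h
  rw [b0_one hc] at h1
  rw [h1]
  congr 1
  unfold b0
  rw [show LinearMap.range (phi G A B) = Z0 G (A ∩ B) from
    le_antisymm phi_le fun k hk => (mem_phi h hk).2 (hz _ (cb_un h (mem_Z0.1 hk).2))]

/-- restriction on cohomology -/
private def jm (G : SimpleGraph V) (A C : Set V) (hs : C ⊆ A) :
    (Z1 G A ⧸ (K1 G A A).comap (Z1 G A).subtype) →ₗ[ZMod 2]
      (Z1 G C ⧸ (K1 G C C).comap (Z1 G C).subtype) :=
  Submodule.liftQ _ (rmap G A C hs) (by
    rw [ker_rmap hs]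
    intro a ha
    exact ⟨ha.1, ha.2.mono hs⟩)

private theorem jm_mk {C : Set V} (hs : C ⊆ A) (a : Z1 G A) :
    jm G A C hs (Submodule.Quotient.mk a) = rmap G A C hs a := rfl

private def psi (G : SimpleGraph V) (A B : Set V) :
    ((Z1 G A ⧸ (K1 G A A).comap (Z1 G A).subtype) × (Z1 G B ⧸ (K1 G B B).comap (Z1 G B).subtype))
      →ₗ[ZMod 2] (Z1 G (A ∩ B) ⧸ (K1 G (A ∩ B) (A ∩ B)).comap (Z1 G (A ∩ B)).subtype) :=
  (jm G A (A ∩ B) Set.inter_subset_left).coprod (jm G B (A ∩ B) Set.inter_subset_right)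

private theorem psi_mk (a : Z1 G A) (b : Z1 G B) :
    psi G A B (Submodule.Quotient.mk a, Submodule.Quotient.mk b) =
      Submodule.Quotient.mk (⟨rs G (A ∩ B) a.1, rs_mem Set.inter_subset_left a.2⟩ +
        ⟨rs G (A ∩ B) b.1, rs_mem Set.inter_subset_right b.2⟩) := rfl

private theorem psi_inj (h : NAdj G (A \ B) (B \ A)) (hz : HZ G (A ∪ B)) :
    Function.Injective (psi G A B) := by
  rw [injective_iff_map_eq_zero]
  rintro ⟨qa, qb⟩ hq
  obtain ⟨a, rfl⟩ := Submodule.Quotient.mk_surjective _ qa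
  obtain ⟨b, rfl⟩ := Submodule.Quotient.mk_surjective _ qb
  rw [psi_mk, Submodule.Quotient.mk_eq_zero] at hq
  have t0 : Triv G (A ∩ B) (rs G (A ∩ B) a.1 + rs G (A ∩ B) b.1) := hq.2
  have t : Triv G (A ∩ B) (a.1 + b.1) := t0.congr fun x y e => by
    rw [Pi.add_apply, Pi.add_apply, Pi.add_apply, Pi.add_apply, rs_apply e, rs_apply e]
  obtain ⟨c, hc, t1, t2⟩ := mv_glue h a.2 b.2 t
  have hcz := hz c hc
  have ta : Triv G A a.1 := ((hcz.mono Set.subset_union_left).add t1).congr fun x y _ => by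
    simp only [Pi.add_apply]
    exact d2 _ _
  have tb : Triv G B b.1 := ((hcz.mono Set.subset_union_right).add t2).congr fun x y _ => by
    simp only [Pi.add_apply]
    exact d2 _ _
  refine Prod.ext ?_ ?_
  · exact (Submodule.Quotient.mk_eq_zero _).2 ⟨a.2, ta⟩
  · exact (Submodule.Quotient.mk_eq_zero _).2 ⟨b.2, tb⟩

/-- `H^1(A ∪ B) = 0`: `H^1(A) + H^1(B) → H^1(A ∩ B)` is injective (use `mv_glue`). -/
theorem mv_b1_le [Finite V] (h : NAdj G (A \ B) (B \ A)) (hz : HZ G (A ∪ B)) :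
    b1 G A + b1 G B ≤ b1 G (A ∩ B) := by
  have h1 := LinearMap.finrank_le_finrank_of_injective (psi_inj h hz)
  rw [Module.finrank_prod] at h1
  exact h1

/-- as `mv_b1_le`, with equality if moreover every cocycle of `A ∩ B` is a sum. -/
theorem mv_b1_eq [Finite V] (h : NAdj G (A \ B) (B \ A)) (hz : HZ G (A ∪ B))
    (hs : ∀ c ∈ Z1 G (A ∩ B), ∃ a ∈ Z1 G A, ∃ b ∈ Z1 G B, Triv G (A ∩ B) (a + b + c)) :
    b1 G A + b1 G B = b1 G (A ∩ B) := by
  have hsur : Function.Surjective (psi G A B) := by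
    intro q
    obtain ⟨c, rfl⟩ := Submodule.Quotient.mk_surjective _ q
    obtain ⟨a, ha, b, hb, f, hf⟩ := hs c.1 c.2
    refine ⟨(Submodule.Quotient.mk ⟨a, ha⟩, Submodule.Quotient.mk ⟨b, hb⟩), ?_⟩
    rw [psi_mk, Submodule.Quotient.eq]
    refine ⟨by rw [Submodule.subtype_apply]; exact SetLike.coe_mem _, f, fun x y e => ?_⟩
    have h1 := hf x y e
    show rs G (A ∩ B) a x y + rs G (A ∩ B) b x y - c.1 x y = f x + f y
    rw [rs_apply e, rs_apply e, ← h1]
    have : ∀ a b c : ZMod 2, a + b - c = a + b + c := by decide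
    exact this _ _ _
  have h1 := LinearMap.finrank_le_finrank_of_injective (psi_inj h hz)
  have h2 := LinearMap.finrank_range_of_inj (psi_inj h hz)
  rw [LinearMap.range_eq_top.2 hsur, finrank_top, Module.finrank_prod] at h2
  exact h2.symm

private theorem b1_add [Finite V] : b1 G A + Module.finrank (ZMod 2) (K1 G A A) =
    Module.finrank (ZMod 2) (Z1 G A) := by
  have h := Submodule.finrank_quotient_add_finrank ((K1 G A A).comap (Z1 G A).subtype)
  have h2 : Module.finrank (ZMod 2) ((K1 G A A).comap (Z1 G A).subtype) =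
      Module.finrank (ZMod 2) (K1 G A A) :=
    LinearEquiv.finrank_eq (Submodule.comapSubtypeEquivOfLe fun a ha => ha.1)
  unfold b1 rk1
  rw [← h2]
  exact h

/-- the coboundary on the edges in `A`, linear -/
private def cbl (G : SimpleGraph V) (A : Set V) : (V → ZMod 2) →ₗ[ZMod 2] (V → V → ZMod 2) where
  toFun := cb G A
  map_add' := by
    intro f g; funext x y
    simp only [cb, Pi.add_apply]
    split_ifs
    · abel
    · simp
  map_smul' := by
    intro c f; funext x y
    simp only [cb, Pi.smul_apply, RingHom.id_apply]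
    split_ifs
    · rw [smul_add]
    · simp

private def del (G : SimpleGraph V) (A B : Set V) :
    (K1 G (A ∪ B) (A ∪ B) × Z0 G (A ∩ B)) →ₗ[ZMod 2] (V → V → ZMod 2) :=
  (K1 G (A ∪ B) (A ∪ B)).subtype.coprod ((cbl G A).comp (Z0 G (A ∩ B)).subtype)

private theorem del_apply (p : K1 G (A ∪ B) (A ∪ B) × Z0 G (A ∩ B)) :
    del G A B p = p.1.1 + cb G A p.2.1 := rfl

private theorem del_range (h : NAdj G (A \ B) (B \ A)) :
    LinearMap.range (del G A B) = K1 G (A ∪ B) A ⊓ K1 G (A ∪ B) B := by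
  ext c
  constructor
  · rintro ⟨p, rfl⟩
    obtain ⟨h1, h2⟩ := mem_K1.1 p.1.2
    have h3 := cb_un h (mem_Z0.1 p.2.2).2
    have h4 : p.1.1 + cb G A p.2.1 ∈ Z1 G (A ∪ B) := (Z1 G (A ∪ B)).add_mem h1 h3
    rw [del_apply]
    refine ⟨⟨h4, (h2.mono Set.subset_union_left).add (cb_triv _)⟩, h4, ?_⟩
    refine (h2.mono Set.subset_union_right).congr fun x y e => ?_
    rw [Pi.add_apply, Pi.add_apply, cb_zero_B (mem_Z0.1 p.2.2).2 e, add_zero]
  · rintro ⟨⟨hc, f, hf⟩, -, g, hg⟩
    have hk : ∀ x y, EIn G (A ∩ B) x y → f x + g x = f y + g y := by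
      intro x y e
      have h1 := hf x y (e.mono Set.inter_subset_left)
      have h2 := hg x y (e.mono Set.inter_subset_right)
      rw [h1] at h2
      exact d4 _ _ _ _ h2
    set k : V → ZMod 2 := fun z => if z ∈ A ∩ B then f z + g z else 0 with hkd
    have hk0 : k ∈ Z0 G (A ∩ B) := mem_Z0.2 ⟨fun _ hx => if_neg hx, fun x y e => by
      have e1 : k x = f x + g x := if_pos e.2.1
      have e2 : k y = f y + g y := if_pos e.2.2
      rw [e1, e2]
      exact hk x y e⟩
    have hkc := (mem_Z0.1 hk0).2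
    have h3 := cb_un h hkc
    have hmem : c + cb G A k ∈ K1 G (A ∪ B) (A ∪ B) := by
      refine mem_K1.2 ⟨(Z1 G (A ∪ B)).add_mem hc h3, fun z => if z ∈ B then g z else f z,
        fun x y e => ?_⟩
      have sA : ∀ z, z ∈ A → (if z ∈ B then g z else f z) = f z + k z := by
        intro z hz
        by_cases hzB : z ∈ B
        · have : k z = f z + g z := if_pos ⟨hz, hzB⟩
          rw [if_pos hzB, this]
          exact (d2 _ _).symm
        · have : k z = 0 := if_neg fun h' => hzB h'.2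
          rw [if_neg hzB, this, add_zero]
      rcases edge_or h e with e' | e'
      · show c x y + cb G A k x y = (if x ∈ B then g x else f x) + (if y ∈ B then g y else f y)
        rw [sA x e'.2.1, sA y e'.2.2, cb_apply e', hf x y e']
        have : ∀ a b c d : ZMod 2, a + b + (c + d) = a + c + (b + d) := by decide
        exact this _ _ _ _
      · show c x y + cb G A k x y = (if x ∈ B then g x else f x) + (if y ∈ B then g y else f y)
        rw [if_pos e'.2.1, if_pos e'.2.2, cb_zero_B hkc e', add_zero]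
        exact hg x y e'
    refine ⟨(⟨_, hmem⟩, ⟨k, hk0⟩), ?_⟩
    rw [del_apply]
    funext x y
    show c x y + cb G A k x y + cb G A k x y = c x y
    rw [add_assoc, two_add, add_zero]

private theorem del_ker [Finite V] (h : NAdj G (A \ B) (B \ A)) :
    Module.finrank (ZMod 2) (LinearMap.ker (del G A B)) =
      Module.finrank (ZMod 2) (LinearMap.range (phi G A B)) := by
  set pr : LinearMap.ker (del G A B) →ₗ[ZMod 2] (V → ZMod 2) :=
    ((Z0 G (A ∩ B)).subtype.comp (LinearMap.snd _ _ _)).comp (LinearMap.ker (del G A B)).subtype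
    with hpr
  have ap : ∀ p, pr p = p.1.2.1 := fun p => rfl
  have hcb : ∀ p : LinearMap.ker (del G A B), p.1.1.1 = cb G A p.1.2.1 := by
    intro p
    have h1 := LinearMap.mem_ker.1 p.2
    rw [del_apply] at h1
    funext x y
    have h2 : p.1.1.1 x y + cb G A p.1.2.1 x y = 0 := congrFun (congrFun h1 x) y
    exact (z2_eq _ _).1 h2
  have hinj : Function.Injective pr := by
    intro p q hpq
    rw [ap, ap] at hpq
    refine Subtype.ext (Prod.ext (Subtype.ext ?_) (Subtype.ext hpq))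
    rw [hcb p, hcb q, hpq]
  rw [← LinearMap.finrank_range_of_inj hinj]
  suffices hR : LinearMap.range pr = LinearMap.range (phi G A B) by rw [hR]
  ext k
  constructor
  · rintro ⟨p, rfl⟩
    rw [ap]
    refine (mem_phi h p.1.2.2).2 ?_
    rw [← hcb p]
    exact (mem_K1.1 p.1.1.2).2
  · intro hk
    have hk0 := phi_le hk
    have ht := (mem_phi h hk0).1 hk
    refine ⟨⟨(⟨cb G A k, mem_K1.2 ⟨cb_un h (mem_Z0.1 hk0).2, ht⟩⟩, ⟨k, hk0⟩), ?_⟩, rfl⟩
    rw [LinearMap.mem_ker, del_apply]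
    funext x y
    exact two_add _

private theorem chi_rank [Finite V] (h : NAdj G (A \ B) (B \ A)) (hz : HZ G (A ∩ B)) :
    Module.finrank (ZMod 2) (Z1 G (A ∪ B)) = b1 G A + b1 G B +
      Module.finrank (ZMod 2) (K1 G (A ∪ B) A ⊓ K1 G (A ∪ B) B : Submodule _ _) := by
  have hsA : A ⊆ A ∪ B := Set.subset_union_left
  have hsB : B ⊆ A ∪ B := Set.subset_union_right
  set ch := (rmap G (A ∪ B) A hsA).prod (rmap G (A ∪ B) B hsB) with hch
  have h1 := LinearMap.finrank_range_add_finrank_ker ch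
  have hsur : Function.Surjective ch := by
    rintro ⟨qa, qb⟩
    obtain ⟨a, rfl⟩ := Submodule.Quotient.mk_surjective _ qa
    obtain ⟨b, rfl⟩ := Submodule.Quotient.mk_surjective _ qb
    have t0 := hz _ ((Z1 G (A ∩ B)).add_mem (rs_mem Set.inter_subset_left a.2)
      (rs_mem Set.inter_subset_right b.2))
    have t : Triv G (A ∩ B) (a.1 + b.1) := t0.congr fun x y e => by
      rw [Pi.add_apply, Pi.add_apply, Pi.add_apply, Pi.add_apply, rs_apply e, rs_apply e]
    obtain ⟨c, hc, t1, t2⟩ := mv_glue h a.2 b.2 t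
    refine ⟨⟨c, hc⟩, Prod.ext ?_ ?_⟩
    · show rmap G (A ∪ B) A hsA ⟨c, hc⟩ = Submodule.Quotient.mk a
      rw [rmap_apply, Submodule.Quotient.eq]
      refine ⟨by rw [Submodule.subtype_apply]; exact SetLike.coe_mem _, t1.congr fun x y e => ?_⟩
      show c x y + a.1 x y = rs G A c x y - a.1 x y
      rw [rs_apply e]
      have : ∀ a b : ZMod 2, a + b = a - b := by decide
      exact this _ _
    · show rmap G (A ∪ B) B hsB ⟨c, hc⟩ = Submodule.Quotient.mk b
      rw [rmap_apply, Submodule.Quotient.eq]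
      refine ⟨by rw [Submodule.subtype_apply]; exact SetLike.coe_mem _, t2.congr fun x y e => ?_⟩
      show c x y + b.1 x y = rs G B c x y - b.1 x y
      rw [rs_apply e]
      have : ∀ a b : ZMod 2, a + b = a - b := by decide
      exact this _ _
  rw [LinearMap.range_eq_top.2 hsur, finrank_top, Module.finrank_prod] at h1
  have h2 : LinearMap.ker ch =
      (K1 G (A ∪ B) A ⊓ K1 G (A ∪ B) B).comap (Z1 G (A ∪ B)).subtype := by
    rw [hch, LinearMap.ker_prod, ker_rmap, ker_rmap]
    rfl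
  have h3 : Module.finrank (ZMod 2) (LinearMap.ker ch) =
      Module.finrank (ZMod 2) (K1 G (A ∪ B) A ⊓ K1 G (A ∪ B) B : Submodule _ _) := by
    rw [h2]
    exact LinearEquiv.finrank_eq (Submodule.comapSubtypeEquivOfLe fun a ha => ha.1.1)
  rw [← h1, h3]
  rfl

/-- the Mayer-Vietoris dimension formula when `H^1(A ∩ B) = 0`. -/
theorem mv_dim [Finite V] (h : NAdj G (A \ B) (B \ A)) (hz : HZ G (A ∩ B)) :
    b1 G (A ∪ B) + b0 G A + b0 G B = b1 G A + b1 G B + b0 G (A ∪ B) + b0 G (A ∩ B) := by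
  have h1 := mv_ker h
  have h2 := chi_rank h hz
  have h3 := b1_add (G := G) (A := A ∪ B)
  have h4 := LinearMap.finrank_range_add_finrank_ker (del G A B)
  rw [del_range h, del_ker h, Module.finrank_prod] at h4
  have h5 : b0 G (A ∩ B) = Module.finrank (ZMod 2) (Z0 G (A ∩ B)) := rfl
  omega

theorem b1_disj [Finite V] (hd : Disjoint A B) (h : NAdj G A B) :
    b1 G (A ∪ B) = b1 G A + b1 G B := by
  have hi : A ∩ B = ∅ := Set.disjoint_iff_inter_eq_empty.1 hd
  have h' : NAdj G (A \ B) (B \ A) := fun x hx y hy => h x hx.1 y hy.1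
  have hz : HZ G (A ∩ B) := by
    intro a _
    refine ⟨0, fun x y e => ?_⟩
    have := e.2.1
    rw [hi] at this
    exact absurd this (Set.notMem_empty x)
  have h1 := mv_dim h' hz
  have h2 := mv_ker h'
  have h3 : Module.finrank (ZMod 2) (LinearMap.range (phi G A B)) ≤ b0 G (A ∩ B) :=
    Submodule.finrank_mono phi_le
  rw [hi, b0_emp] at h1 h3
  omega

theorem b0_disj [Finite V] (hd : Disjoint A B) (h : NAdj G A B) :
    b0 G (A ∪ B) = b0 G A + b0 G B := by
  have hi : A ∩ B = ∅ := Set.disjoint_iff_inter_eq_empty.1 hd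
  have h' : NAdj G (A \ B) (B \ A) := fun x hx y hy => h x hx.1 y hy.1
  have h2 := mv_ker h'
  have h3 : Module.finrank (ZMod 2) (LinearMap.range (phi G A B)) ≤ b0 G (A ∩ B) :=
    Submodule.finrank_mono phi_le
  rw [hi, b0_emp] at h3
  omega

theorem b0_empty : b0 G (∅ : Set V) = 0 := by
  exact b0_emp

/-- `b_0 = 1` iff connected (and nonempty). -/
theorem b0_eq_one [Finite V] : b0 G A = 1 ↔ Conn G A := by
  refine ⟨fun h => ?_, b0_one⟩
  have hne := ne_of_b0 (by rw [h]; exact one_ne_zero)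
  rw [Conn_iff]
  refine ⟨hne, fun f hf x hx y hy => ?_⟩
  have hnz : (⟨fun z => if z ∈ A then 1 else 0, ind_Z0 (f := fun _ => 1) fun _ _ _ => rfl⟩ :
      Z0 G A) ≠ 0 := by
    intro h0
    have h1 : (if x ∈ A then (1 : ZMod 2) else 0) = 0 := congrFun (congrArg Subtype.val h0) x
    rw [if_pos hx] at h1
    exact one_ne_zero h1
  obtain ⟨c, hc⟩ := (finrank_eq_one_iff_of_nonzero' _ hnz).1 h ⟨_, ind_Z0 hf⟩
  have h1 : ∀ z ∈ A, f z = c := by
    intro z hz
    have h2 : c * (if z ∈ A then (1 : ZMod 2) else 0) = (if z ∈ A then f z else 0) :=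
      congrFun (congrArg Subtype.val hc) z
    rw [if_pos hz, if_pos hz, mul_one] at h2
    exact h2.symm
  rw [h1 x hx, h1 y hy]

theorem b0_eq_zero [Finite V] : b0 G A = 0 ↔ A = ∅ := by
  constructor
  · intro h
    by_contra hA
    obtain ⟨x, hx⟩ := Set.nonempty_iff_ne_empty.2 hA
    have hs : Subsingleton (Z0 G A) := Module.finrank_zero_iff.1 h
    have h0 : (⟨fun z => if z ∈ A then 1 else 0, ind_Z0 (f := fun _ => 1) fun _ _ _ => rfl⟩ :
      Z0 G A) = 0 := Subsingleton.elim _ _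
    have h1 : (if x ∈ A then (1 : ZMod 2) else 0) = 0 := congrFun (congrArg Subtype.val h0) x
    rw [if_pos hx] at h1
    exact one_ne_zero h1
  · rintro rfl
    exact b0_emp

end MOT
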