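import Pool.Agent.MOT.Sph

/-!
# MOT/Srf: two sources of surfaces
-/

open Classical

noncomputable section

namespace MOT

variable {V : Type} {G : SimpleGraph V} {S W : Set V}

/-! ## private helpers -/

private theorem srf_card_lt {s t : Cq G} (h : s < t) : s.1.card < t.1.card :=
  Finset.card_lt_card (Cq.lt_iff.1 h)

private theorem srf_card_pos (s : Cq G) : 1 ≤ s.1.card := Finset.card_pos.2 s.2.1

/-- a nonempty part of a simplex -/
private def srfSub (s : Cq G) (t : Finset V) (ht : t ⊆ s.1) (hn : t.Nonempty) : Cq G :=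
  ⟨t, hn, fun _ hx _ hy hxy => s.2.2 (ht hx) (ht hy) hxy⟩

private theorem srf_lk (s : Cq G) (X : Set (Cq G)) :
    Lk (sd G) {s} ∩ X = ({t | t < s} ∩ X) ∪ ({t | s < t} ∩ X) := by
  ext t
  constructor
  · rintro ⟨h1, h2⟩
    rcases sd_adj.1 (h1 s rfl) with h | h
    · exact Or.inr ⟨h, h2⟩
    · exact Or.inl ⟨h, h2⟩
  · rintro (⟨h1, h2⟩ | ⟨h1, h2⟩)
    · refine ⟨fun y hy => ?_, h2⟩
      rw [Set.mem_singleton_iff] at hy
      rw [hy]
      exact sd_adj.2 (Or.inr h1)
    · refine ⟨fun y hy => ?_, h2⟩
      rw [Set.mem_singleton_iff] at hy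
      rw [hy]
      exact sd_adj.2 (Or.inl h1)

/-- a chain whose members have cardinalities in `[a, a + 2]` has at most 3 members -/
private theorem srf_chain (c : Finset (Cq G)) (hc : (sd G).IsClique (c : Set (Cq G))) (a : ℕ)
    (h1 : ∀ s ∈ c, a ≤ s.1.card) (h2 : ∀ s ∈ c, s.1.card ≤ a + 2) : c.card ≤ 3 := by
  have hinj : Set.InjOn (fun s : Cq G => s.1.card) (c : Set (Cq G)) := by
    intro s hs t ht hst
    by_contra hne
    rcases sd_adj.1 (hc hs ht hne) with h | h
    · exact absurd hst (ne_of_lt (srf_card_lt h))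
    · exact absurd hst (ne_of_gt (srf_card_lt h))
  have hmap : ∀ s ∈ c, (fun s : Cq G => s.1.card) s ∈ Finset.Icc a (a + 2) := fun s hs =>
    Finset.mem_Icc.2 ⟨h1 s hs, h2 s hs⟩
  have := Finset.card_le_card_of_injOn _ hmap hinj
  rw [Nat.card_Icc] at this
  omega

/-- every edge of a surface has exactly two common neighbours in it, not adjacent -/
theorem Surf.edge [Finite V] (hS : Surf G S) {x y : V} (e : EIn G S x y) :
    (Lk G {x, y} ∩ S).ncard = 2 ∧ ∀ u ∈ Lk G {x, y} ∩ S, ∀ v ∈ Lk G {x, y} ∩ S, ¬ G.Adj u v := by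
  constructor
  · have h1 := (hS.lk x e.2.1).2 y ⟨fun z hz => by
      rw [Set.mem_singleton_iff] at hz; rw [hz]; exact e.1, e.2.2⟩
    have h2 : Lk G {x, y} ∩ S = {z | EIn G (Lk G {x} ∩ S) y z} := by
      ext z
      constructor
      · rintro ⟨hz, hzS⟩
        refine ⟨hz y (by simp), ⟨fun w hw => ?_, e.2.2⟩, ⟨fun w hw => ?_, hzS⟩⟩
        · rw [Set.mem_singleton_iff] at hw; rw [hw]; exact e.1
        · rw [Set.mem_singleton_iff] at hw; rw [hw]; exact hz x (by simp)
      · rintro ⟨hyz, -, hz, hzS⟩
        refine ⟨fun w hw => ?_, hzS⟩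
        rcases hw with hw | hw
        · rw [hw]; exact hz x rfl
        · rw [Set.mem_singleton_iff] at hw; rw [hw]; exact hyz
    rw [h2]
    exact h1
  · rintro u ⟨hu, huS⟩ v ⟨hv, hvS⟩ huv
    have hxu : G.Adj x u := hu x (by simp)
    have hyu : G.Adj y u := hu y (by simp)
    have hxv : G.Adj x v := hv x (by simp)
    have hyv : G.Adj y v := hv y (by simp)
    have hcard : ({x, y, u, v} : Finset V).card = 4 := by
      have h1 : x ∉ ({y, u, v} : Finset V) := by
        simp only [Finset.mem_insert, Finset.mem_singleton, not_or]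
        exact ⟨e.1.ne, hxu.ne, hxv.ne⟩
      have h2 : y ∉ ({u, v} : Finset V) := by
        simp only [Finset.mem_insert, Finset.mem_singleton, not_or]
        exact ⟨hyu.ne, hyv.ne⟩
      have h3 : u ∉ ({v} : Finset V) := by
        rw [Finset.mem_singleton]; exact huv.ne
      rw [Finset.card_insert_of_notMem h1, Finset.card_insert_of_notMem h2,
        Finset.card_insert_of_notMem h3, Finset.card_singleton]
    have hcl : G.IsClique (({x, y, u, v} : Finset V) : Set V) := by
      intro a ha b hb hab
      simp only [Finset.coe_insert, Finset.coe_singleton, Set.mem_insert_iff,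
        Set.mem_singleton_iff] at ha hb
      rcases ha with rfl | rfl | rfl | rfl <;> rcases hb with rfl | rfl | rfl | rfl
      all_goals first
        | exact absurd rfl hab
        | exact e.1
        | exact e.1.symm
        | exact hxu
        | exact hxu.symm
        | exact hyu
        | exact hyu.symm
        | exact hxv
        | exact hxv.symm
        | exact hyv
        | exact hyv.symm
        | exact huv
        | exact huv.symm
    have hsub : (({x, y, u, v} : Finset V) : Set V) ⊆ S := by
      intro a ha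
      simp only [Finset.coe_insert, Finset.coe_singleton, Set.mem_insert_iff,
        Set.mem_singleton_iff] at ha
      rcases ha with rfl | rfl | rfl | rfl
      · exact e.2.1
      · exact e.2.2
      · exact huS
      · exact hvS
    have := hS.k4 _ hcl hsub
    omega

private theorem srf_card_le (hS : Surf G S) {s : Cq G} (h : s ∈ mi G S) : s.1.card ≤ 3 :=
  hS.k4 s.1 s.2.2 (fun x hx => h x hx)

/-- the triangles of a surface above an edge -/
private theorem srf_above_two [Finite V] (hS : Surf G S) (s : Cq G) (h : s ∈ mi G S)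
    (h2 : s.1.card = 2) : ({t | s < t} ∩ mi G S).ncard = 2 ∧
      ∀ t ∈ {t | s < t} ∩ mi G S, ∀ t' ∈ {t | s < t} ∩ mi G S, ¬ (sd G).Adj t t' := by
  constructor
  · obtain ⟨x, y, hxy, hs⟩ := Finset.card_eq_two.1 h2
    have hx : x ∈ s.1 := by rw [hs]; simp
    have hy : y ∈ s.1 := by rw [hs]; simp
    have e : EIn G S x y := ⟨s.2.2 hx hy hxy, h x hx, h y hy⟩
    have hE := (hS.edge e).1
    have hset : ((s.1 : Finset V) : Set V) = {x, y} := by rw [hs]; simp
    have hcl : ∀ z ∈ Lk G {x, y} ∩ S, G.IsClique ((insert z s.1 : Finset V) : Set V) := by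
      intro z hz a ha b hb hab
      rw [Finset.coe_insert] at ha hb
      rcases ha with ha | ha
      · rcases hb with hb | hb
        · exact absurd (ha.trans hb.symm) hab
        · rw [hset] at hb
          rw [ha]
          exact (hz.1 b hb).symm
      · rcases hb with hb | hb
        · rw [hset] at ha
          rw [hb]
          exact hz.1 a ha
        · exact s.2.2 ha hb hab
    let f : V → Cq G := fun z => if hz : z ∈ Lk G {x, y} ∩ S then
      ⟨insert z s.1, ⟨z, Finset.mem_insert_self z s.1⟩, hcl z hz⟩ else s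
    have hf : ∀ z ∈ Lk G {x, y} ∩ S, (f z).1 = insert z s.1 := by
      intro z hz
      simp only [f, dif_pos hz]
    have hns : ∀ z ∈ Lk G {x, y} ∩ S, z ∉ s.1 := by
      intro z hz hzs
      have hzs' : z ∈ ((s.1 : Finset V) : Set V) := hzs
      rw [hset] at hzs'
      exact G.irrefl (hz.1 z hzs')
    have himg : {t | s < t} ∩ mi G S = f '' (Lk G {x, y} ∩ S) := by
      ext t
      constructor
      · rintro ⟨hst, ht⟩
        have hst' := Cq.lt_iff.1 hst
        obtain ⟨z, hzt, hzs⟩ := Finset.exists_of_ssubset hst'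
        have hz : z ∈ Lk G {x, y} ∩ S := by
          refine ⟨fun w hw => ?_, ht z hzt⟩
          rw [← hset] at hw
          refine t.2.2 (hst'.1 hw) hzt ?_
          rintro rfl
          exact hzs hw
        refine ⟨z, hz, Subtype.ext ?_⟩
        rw [hf z hz]
        refine Finset.eq_of_subset_of_card_le (Finset.insert_subset hzt hst'.1) ?_
        rw [Finset.card_insert_of_notMem hzs, h2]
        exact srf_card_le hS ht
      · rintro ⟨z, hz, rfl⟩
        refine ⟨Cq.lt_iff.2 ?_, fun w hw => ?_⟩
        · rw [hf z hz]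
          exact Finset.ssubset_insert (hns z hz)
        · rw [hf z hz] at hw
          rcases Finset.mem_insert.1 hw with hw | hw
          · rw [hw]; exact hz.2
          · exact h w hw
    rw [himg, Set.ncard_image_of_injOn]
    · exact hE
    · intro z hz w hw hzw
      have h1 : insert z s.1 = insert w s.1 := by rw [← hf z hz, ← hf w hw, hzw]
      have h3 : z ∈ insert w s.1 := by rw [← h1]; exact Finset.mem_insert_self z s.1
      rcases Finset.mem_insert.1 h3 with h4 | h4
      · exact h4
      · exact absurd h4 (hns z hz)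
  · rintro t ⟨hst, ht⟩ t' ⟨hst', ht'⟩ hadj
    have c1 := srf_card_lt hst
    have c2 := srf_card_lt hst'
    have c3 := srf_card_le hS ht
    have c4 := srf_card_le hS ht'
    rcases sd_adj.1 hadj with h5 | h5
    · have := srf_card_lt h5; omega
    · have := srf_card_lt h5; omega

/-- subdivision of a surface.  Sketch: link of `{x}` in `mi S`: `{t ⊆ S, x ∈ t}` = subdivision of the
cycle `Lk x ∩ S` (as in `above_iso`, `sd_cyc`); link of an edge: two vertices and two triangles
(`join_cyc`); link of a triangle: hexagon (`below_cyc`). -/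
theorem surf_sd [Finite V] (hS : Surf G S) : Surf (sd G) (mi G S) := by
  refine ⟨fun s hs => ?_, fun c hc hcS => ?_⟩
  · rw [srf_lk]
    have hb : ({t | t < s} ∩ mi G S) = {t | t < s} := by
      refine Set.inter_eq_left.2 fun t ht x hx => hs x ((Cq.lt_iff.1 ht).1 hx)
    rw [hb]
    have h1 := srf_card_pos s
    have h3 := srf_card_le hS hs
    have hcases : s.1.card = 1 ∨ s.1.card = 2 ∨ s.1.card = 3 := by omega
    rcases hcases with hc | hc | hc
    · have hempty : {t : Cq G | t < s} = ∅ := by
        rw [Set.eq_empty_iff_forall_notMem]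
        intro t ht
        have := srf_card_lt ht
        have := srf_card_pos t
        omega
      rw [hempty, Set.empty_union]
      obtain ⟨x, hx⟩ := Finset.card_eq_one.1 hc
      have hxs : x ∈ s.1 := by rw [hx]; simp
      have hset : ((s.1 : Finset V) : Set V) = {x} := by rw [hx]; simp
      have hcyc := hS.lk x (hs x hxs)
      have hE : {t : Cq G | s < t ∧ ∀ x ∈ t.1, x ∉ s.1 → x ∈ S} = {t | s < t} ∩ mi G S := by
        ext t
        constructor
        · rintro ⟨h4, h5⟩
          refine ⟨h4, fun y hy => ?_⟩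
          by_cases h6 : y ∈ s.1
          · exact hs y h6
          · exact h5 y hy h6
        · rintro ⟨h4, h5⟩
          exact ⟨h4, fun y hy _ => h5 y hy⟩
      have hconn := (above_mi_Conn s S).2 (by rw [hset]; exact hcyc.1)
      rw [hE] at hconn
      refine ⟨hconn, fun t ht => ?_⟩
      have ct := srf_card_lt ht.1
      have ct' := srf_card_le hS ht.2
      have hct : t.1.card = 2 ∨ t.1.card = 3 := by omega
      rcases hct with h4 | h4
      · have h5 := (srf_above_two hS t ht.2 h4).1
        have h6 : {y | EIn (sd G) ({t | s < t} ∩ mi G S) t y} = {u | t < u} ∩ mi G S := by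
          ext u
          constructor
          · rintro ⟨h7, -, h8⟩
            refine ⟨?_, h8.2⟩
            rcases sd_adj.1 h7 with h9 | h9
            · exact h9
            · have := srf_card_lt h9
              have := srf_card_lt h8.1
              omega
          · rintro ⟨h7, h8⟩
            exact ⟨sd_adj.2 (Or.inl h7), ht, (lt_trans ht.1 h7 : s < u), h8⟩
        rw [h6]
        exact h5
      · have h5 := (between_two s t ht.1 (by omega)).1
        have h6 : {y | EIn (sd G) ({t | s < t} ∩ mi G S) t y} = {r | s < r ∧ r < t} := by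
          ext u
          constructor
          · rintro ⟨h7, -, h8⟩
            refine ⟨h8.1, ?_⟩
            rcases sd_adj.1 h7 with h9 | h9
            · have := srf_card_lt h9
              have := srf_card_le hS h8.2
              omega
            · exact h9
          · rintro ⟨h7, h8⟩
            exact ⟨sd_adj.2 (Or.inr h8), ht, h7, fun y hy => ht.2 y ((Cq.lt_iff.1 h8).1 hy)⟩
        rw [h6]
        exact h5
    · have h4 := below_two s hc
      have h5 := srf_above_two hS s hs hc
      exact join_cyc h4.1 h5.1 (fun t ht t' ht' => h4.2 t t' ht ht') h5.2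
        (fun t ht t' ht' => sd_adj.2 (Or.inl (lt_trans ht ht'.1)))
    · have hempty : {t : Cq G | s < t} ∩ mi G S = ∅ := by
        rw [Set.eq_empty_iff_forall_notMem]
        rintro t ⟨ht, ht'⟩
        have := srf_card_lt ht
        have := srf_card_le hS ht'
        omega
      rw [hempty, Set.union_empty]
      exact below_cyc s hc
  · exact srf_chain c hc 1 (fun s _ => srf_card_pos s) (fun s hs => srf_card_le hS (hcS hs))

/-! ## mixed simplices -/

private theorem srf_mixed_card {s : Cq G} (h : s ∈ Fr G W) : 2 ≤ s.1.card := by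
  obtain ⟨⟨x, hx, hxW⟩, ⟨y, hy, hyW⟩⟩ := h
  have hxy : x ≠ y := by
    rintro rfl
    exact hyW hxW
  exact Finset.one_lt_card.2 ⟨x, hx, y, hy, hxy⟩

private theorem srf_mixed_up {s t : Cq G} (h : s ∈ Fr G W) (hst : s ≤ t) : t ∈ Fr G W := by
  obtain ⟨⟨x, hx, hxW⟩, ⟨y, hy, hyW⟩⟩ := h
  exact ⟨⟨x, hst hx, hxW⟩, ⟨y, hst hy, hyW⟩⟩

/-- the mixed edges of the triangle `x | y z` -/
private theorem srf_tri_aux {W : Set V} (s : Cq G) {x y z : V} (hs : s.1 = {x, y, z})
    (hyz : y ≠ z) (hx : x ∈ W) (hy : y ∉ W) (hz : z ∉ W) :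
    ({t | t < s} ∩ Fr G W).ncard = 2 := by
  have hxs : x ∈ s.1 := by rw [hs]; simp
  have hys : y ∈ s.1 := by rw [hs]; simp
  have hzs : z ∈ s.1 := by rw [hs]; simp
  have hxy : x ≠ y := by rintro rfl; exact hy hx
  have hxz : x ≠ z := by rintro rfl; exact hz hx
  have h1 : ({x, y} : Finset V) ⊆ s.1 := by
    rw [hs]; intro a ha
    simp only [Finset.mem_insert, Finset.mem_singleton] at ha ⊢
    tauto
  have h2 : ({x, z} : Finset V) ⊆ s.1 := by
    rw [hs]; intro a ha
    simp only [Finset.mem_insert, Finset.mem_singleton] at ha ⊢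
    tauto
  let p : Cq G := srfSub s {x, y} h1 ⟨x, by simp⟩
  let q : Cq G := srfSub s {x, z} h2 ⟨x, by simp⟩
  have hpq : p ≠ q := by
    intro h
    have h3 : ({x, y} : Finset V) = {x, z} := congrArg Subtype.val h
    have h4 : y ∈ ({x, z} : Finset V) := by rw [← h3]; simp
    simp only [Finset.mem_insert, Finset.mem_singleton] at h4
    rcases h4 with h4 | h4
    · exact hxy h4.symm
    · exact hyz h4
  have key : {t | t < s} ∩ Fr G W = {p, q} := by
    ext t
    constructor
    · rintro ⟨hts, ⟨u, hu, huW⟩, ⟨v, hv, hvW⟩⟩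
      have hts' := Cq.lt_iff.1 hts
      have hmem : ∀ a ∈ t.1, a = x ∨ a = y ∨ a = z := by
        intro a ha
        have := hts'.1 ha
        rw [hs] at this
        simpa only [Finset.mem_insert, Finset.mem_singleton] using this
      have hux : u = x := by
        rcases hmem u hu with h | h | h
        · exact h
        · exact absurd (h ▸ huW) hy
        · exact absurd (h ▸ huW) hz
      have hxt : x ∈ t.1 := hux ▸ hu
      have hnot : ¬ (y ∈ t.1 ∧ z ∈ t.1) := by
        rintro ⟨h5, h6⟩
        apply hts'.2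
        rw [hs]
        intro a ha
        simp only [Finset.mem_insert, Finset.mem_singleton] at ha
        rcases ha with h | h | h
        · rw [h]; exact hxt
        · rw [h]; exact h5
        · rw [h]; exact h6
      have hvyz : v = y ∨ v = z := by
        rcases hmem v hv with h | h | h
        · exact absurd (h ▸ hx) hvW
        · exact Or.inl h
        · exact Or.inr h
      rcases hvyz with h | h
      · have hyt : y ∈ t.1 := h ▸ hv
        have hzt : z ∉ t.1 := fun h6 => hnot ⟨hyt, h6⟩
        left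
        apply Subtype.ext
        change t.1 = {x, y}
        ext a
        simp only [Finset.mem_insert, Finset.mem_singleton]
        constructor
        · intro ha
          rcases hmem a ha with h7 | h7 | h7
          · exact Or.inl h7
          · exact Or.inr h7
          · exact absurd (h7 ▸ ha) hzt
        · rintro (h7 | h7)
          · rw [h7]; exact hxt
          · rw [h7]; exact hyt
      · have hzt : z ∈ t.1 := h ▸ hv
        have hyt : y ∉ t.1 := fun h6 => hnot ⟨h6, hzt⟩
        right
        apply Subtype.ext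
        change t.1 = {x, z}
        ext a
        simp only [Finset.mem_insert, Finset.mem_singleton]
        constructor
        · intro ha
          rcases hmem a ha with h7 | h7 | h7
          · exact Or.inl h7
          · exact absurd (h7 ▸ ha) hyt
          · exact Or.inr h7
        · rintro (h7 | h7)
          · rw [h7]; exact hxt
          · rw [h7]; exact hzt
    · rintro (rfl | rfl)
      · refine ⟨Cq.lt_iff.2 ⟨h1, fun h => ?_⟩, ⟨x, by simp [p, srfSub], hx⟩, ⟨y, by simp [p, srfSub], hy⟩⟩
        have h4 : z ∈ ({x, y} : Finset V) := h hzs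
        simp only [Finset.mem_insert, Finset.mem_singleton] at h4
        rcases h4 with h4 | h4
        · exact hxz h4.symm
        · exact hyz h4.symm
      · refine ⟨Cq.lt_iff.2 ⟨h2, fun h => ?_⟩, ⟨x, by simp [q, srfSub], hx⟩, ⟨z, by simp [q, srfSub], hz⟩⟩
        have h4 : y ∈ ({x, z} : Finset V) := h hys
        simp only [Finset.mem_insert, Finset.mem_singleton] at h4
        rcases h4 with h4 | h4
        · exact hxy h4.symm
        · exact hyz h4
  rw [key]
  exact Set.ncard_pair hpq

private theorem srf_tri_aux' {W : Set V} (s : Cq G) {x y z : V} (hs : s.1 = {x, y, z})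
    (hyz : y ≠ z) (hx : x ∉ W) (hy : y ∈ W) (hz : z ∈ W) :
    ({t | t < s} ∩ Fr G W).ncard = 2 := by
  rw [← Fr_compl]
  exact srf_tri_aux s hs hyz hx (fun h => h hy) (fun h => h hz)

/-- the mixed faces of a mixed triangle -/
private theorem srf_tri (s : Cq G) (h3 : s.1.card = 3) (hs : s ∈ Fr G W) :
    ({t | t < s} ∩ Fr G W).ncard = 2 := by
  obtain ⟨x, y, z, hxy, hxz, hyz, he⟩ := Finset.card_eq_three.1 h3
  have e2 : s.1 = {y, x, z} := by rw [he, Finset.insert_comm]
  have e3 : s.1 = {z, x, y} := by
    rw [he]; ext a; simp only [Finset.mem_insert, Finset.mem_singleton]; tauto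
  have hmix : (x ∈ W ∨ y ∈ W ∨ z ∈ W) ∧ (x ∉ W ∨ y ∉ W ∨ z ∉ W) := by
    obtain ⟨⟨u, hu, huW⟩, ⟨v, hv, hvW⟩⟩ := hs
    rw [he] at hu hv
    simp only [Finset.mem_insert, Finset.mem_singleton] at hu hv
    constructor
    · rcases hu with h | h | h
      · left; rw [← h]; exact huW
      · right; left; rw [← h]; exact huW
      · right; right; rw [← h]; exact huW
    · rcases hv with h | h | h
      · left; rw [← h]; exact hvW
      · right; left; rw [← h]; exact hvW
      · right; right; rw [← h]; exact hvW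
  by_cases hx : x ∈ W
  · by_cases hy : y ∈ W
    · have hz : z ∉ W := by tauto
      exact srf_tri_aux' s e3 hxy hz hx hy
    · by_cases hz : z ∈ W
      · exact srf_tri_aux' s e2 hxz hy hx hz
      · exact srf_tri_aux s he hyz hx hy hz
  · by_cases hy : y ∈ W
    · by_cases hz : z ∈ W
      · exact srf_tri_aux' s he hyz hx hy hz
      · exact srf_tri_aux s e2 hxz hy hx hz
    · have hz : z ∈ W := by tauto
      exact srf_tri_aux s e3 hxy hz hx hy

/-- the link of a mixed tetrahedron in the frontier -/
theorem Fr_tet_cyc (s : Cq G) (h4 : s.1.card = 4) (hs : s ∈ Fr G W) :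
    IsCyc (sd G) ({t | t < s} ∩ Fr G W) := by
  have hcl : ∀ t : Finset V, t ⊆ s.1 → t.Nonempty → t.card ≤ 3 →
      ∀ x ∈ t, x ∈ W → ∀ y ∈ t, y ∉ W → ∃ r ∈ {t | t < s} ∩ Fr G W, r.1 = t := by
    intro t ht hn hc x hx hxW y hy hyW
    refine ⟨srfSub s t ht hn, ⟨Cq.lt_iff.2 ⟨ht, fun h => ?_⟩, ⟨x, hx, hxW⟩, ⟨y, hy, hyW⟩⟩, rfl⟩
    have := Finset.card_le_card (show s.1 ⊆ t from h)
    omega
  have hadj : ∀ r ∈ {t | t < s} ∩ Fr G W, ∀ r' ∈ {t | t < s} ∩ Fr G W, r.1 ⊆ r'.1 →
      Relation.ReflTransGen (EIn (sd G) ({t | t < s} ∩ Fr G W)) r r' := by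
    intro r hr r' hr' hrr
    by_cases h : r = r'
    · rw [h]
    · exact Relation.ReflTransGen.single ⟨sd_adj.2 (Or.inl (lt_of_le_of_ne hrr h)), hr, hr'⟩
  have hedge : ∀ x ∈ s.1, x ∈ W → ∀ y ∈ s.1, y ∉ W →
      ∃ r ∈ {t | t < s} ∩ Fr G W, r.1 = {x, y} := by
    intro x hx hxW y hy hyW
    refine hcl {x, y} ?_ ⟨x, by simp⟩ ?_ x (by simp) hxW y (by simp) hyW
    · intro a ha
      simp only [Finset.mem_insert, Finset.mem_singleton] at ha
      rcases ha with rfl | rfl
      · exact hx
      · exact hy
    · exact le_trans (Finset.card_le_two) (by norm_num)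
  have h3 : ∀ x ∈ s.1, ∀ y ∈ s.1, ∀ z ∈ s.1, x ∈ W → y ∉ W →
      ∃ r ∈ {t | t < s} ∩ Fr G W, r.1 = {x, y, z} := by
    intro x hx y hy z hz hxW hyW
    refine hcl {x, y, z} ?_ ⟨x, by simp⟩ ?_ x (by simp) hxW y (by simp) hyW
    · intro a ha
      simp only [Finset.mem_insert, Finset.mem_singleton] at ha
      rcases ha with rfl | rfl | rfl
      · exact hx
      · exact hy
      · exact hz
    · exact Finset.card_le_three
  -- any two mixed edges are connected
  have hconn : ∀ x ∈ s.1, x ∈ W → ∀ y ∈ s.1, y ∉ W → ∀ x' ∈ s.1, x' ∈ W → ∀ y' ∈ s.1, y' ∉ W →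
      ∀ r ∈ {t | t < s} ∩ Fr G W, r.1 = {x, y} → ∀ r' ∈ {t | t < s} ∩ Fr G W, r'.1 = {x', y'} →
      Relation.ReflTransGen (EIn (sd G) ({t | t < s} ∩ Fr G W)) r r' := by
    intro x hx hxW y hy hyW x' hx' hxW' y' hy' hyW' r hr hre r' hr' hre'
    obtain ⟨p, hp, hpe⟩ := h3 x hx y hy x' hx' hxW hyW
    obtain ⟨m, hm, hme⟩ := hedge x' hx' hxW' y hy hyW
    obtain ⟨q, hq, hqe⟩ := h3 x' hx' y hy y' hy' hxW' hyW
    refine ((hadj r hr p hp ?_).trans (rtg_symm (hadj m hm p hp ?_))).trans
      ((hadj m hm q hq ?_).trans (rtg_symm (hadj r' hr' q hq ?_)))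
    · rw [hre, hpe]; intro a ha
      simp only [Finset.mem_insert, Finset.mem_singleton] at ha ⊢; tauto
    · rw [hme, hpe]; intro a ha
      simp only [Finset.mem_insert, Finset.mem_singleton] at ha ⊢; tauto
    · rw [hme, hqe]; intro a ha
      simp only [Finset.mem_insert, Finset.mem_singleton] at ha ⊢; tauto
    · rw [hre', hqe]; intro a ha
      simp only [Finset.mem_insert, Finset.mem_singleton] at ha ⊢; tauto
  -- every mixed face is connected to a mixed edge
  have hdown : ∀ t ∈ {t | t < s} ∩ Fr G W, ∃ x ∈ s.1, x ∈ W ∧ ∃ y ∈ s.1, y ∉ W ∧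
      ∃ r ∈ {t | t < s} ∩ Fr G W, r.1 = {x, y} ∧
      Relation.ReflTransGen (EIn (sd G) ({t | t < s} ∩ Fr G W)) t r := by
    rintro t ⟨hts, htF⟩
    obtain ⟨⟨x, hx, hxW⟩, ⟨y, hy, hyW⟩⟩ := htF
    have hts' := Cq.lt_iff.1 hts
    obtain ⟨r, hr, hre⟩ := hedge x (hts'.1 hx) hxW y (hts'.1 hy) hyW
    refine ⟨x, hts'.1 hx, hxW, y, hts'.1 hy, hyW, r, hr, hre, ?_⟩
    refine rtg_symm (hadj r hr t ⟨hts, ⟨x, hx, hxW⟩, ⟨y, hy, hyW⟩⟩ ?_)
    rw [hre]; intro a ha
    simp only [Finset.mem_insert, Finset.mem_singleton] at ha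
    rcases ha with rfl | rfl
    · exact hx
    · exact hy
  refine ⟨⟨?_, ?_⟩, ?_⟩
  · obtain ⟨⟨x, hx, hxW⟩, ⟨y, hy, hyW⟩⟩ := hs
    obtain ⟨r, hr, -⟩ := hedge x hx hxW y hy hyW
    exact ⟨r, hr⟩
  · intro t ht t' ht'
    obtain ⟨x, hx, hxW, y, hy, hyW, r, hr, hre, hrr⟩ := hdown t ht
    obtain ⟨x', hx', hxW', y', hy', hyW', r', hr', hre', hrr'⟩ := hdown t' ht'
    exact (hrr.trans (hconn x hx hxW y hy hyW x' hx' hxW' y' hy' hyW' r hr hre r' hr' hre')).trans
      (rtg_symm hrr')
  · rintro t ⟨hts, htF⟩
    have c1 := srf_card_lt hts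
    have c2 := srf_mixed_card htF
    have hc : t.1.card = 2 ∨ t.1.card = 3 := by omega
    rcases hc with h5 | h5
    · have h6 := (between_two t s hts (by omega)).1
      have h7 : {y | EIn (sd G) ({t | t < s} ∩ Fr G W) t y} = {r | t < r ∧ r < s} := by
        ext u
        constructor
        · rintro ⟨h8, -, h9⟩
          refine ⟨?_, h9.1⟩
          rcases sd_adj.1 h8 with h10 | h10
          · exact h10
          · have := srf_card_lt h10
            have := srf_mixed_card h9.2
            omega
        · rintro ⟨h8, h9⟩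
          exact ⟨sd_adj.2 (Or.inl h8), ⟨hts, htF⟩, h9, srf_mixed_up htF h8.le⟩
      rw [h7]
      exact h6
    · have h6 := srf_tri t h5 htF
      have h7 : {y | EIn (sd G) ({t | t < s} ∩ Fr G W) t y} = {r | r < t} ∩ Fr G W := by
        ext u
        constructor
        · rintro ⟨h8, -, h9⟩
          refine ⟨?_, h9.2⟩
          rcases sd_adj.1 h8 with h10 | h10
          · have := srf_card_lt h10
            have := srf_card_lt h9.1
            omega
          · exact h10
        · rintro ⟨h8, h9⟩
          exact ⟨sd_adj.2 (Or.inr h8), ⟨hts, htF⟩, (lt_trans h8 hts : u < s), h9⟩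
      rw [h7]
      exact h6

/-- the frontier of a region is a closed surface.  Sketch: link of a mixed edge `xy` in `Fr W` =
simplices above it = subdivision of the cycle `Lk {x,y}` (all are mixed); link of a mixed triangle
`x|yz`: the two mixed edges `xy`, `xz` and the two tetrahedra above (`join_cyc`); link of a mixed
tetrahedron: its mixed edges and triangles, 6 of them (1+3 vertices) or 8 (2+2 vertices), a cycle.
No 4-clique: a chain of 4 simplices contains a vertex. -/
theorem surf_Fr [Finite V] (h : IsSph3 G) : Surf (sd G) (Fr G W) := by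
  have hc4 : ∀ s : Cq G, s.1.card ≤ 4 := fun s => h.k5 s.1 s.2.2
  refine ⟨fun s hs => ?_, fun c hc hcS => ?_⟩
  · rw [srf_lk]
    have hb : ({t | s < t} ∩ Fr G W) = {t | s < t} :=
      Set.inter_eq_left.2 fun t ht => srf_mixed_up hs (le_of_lt ht)
    rw [hb]
    have h1 := srf_mixed_card hs
    have h2 := hc4 s
    have hcases : s.1.card = 2 ∨ s.1.card = 3 ∨ s.1.card = 4 := by omega
    rcases hcases with hc | hc | hc
    · have hempty : ({t : Cq G | t < s} ∩ Fr G W) = ∅ := by
        rw [Set.eq_empty_iff_forall_notMem]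
        rintro t ⟨ht, ht'⟩
        have := srf_card_lt ht
        have := srf_mixed_card ht'
        omega
      rw [hempty, Set.empty_union]
      exact above_cyc h s hc
    · have h4 := srf_tri s hc hs
      have h5 := above_two h s hc
      refine join_cyc h4 h5.1 ?_ (fun t ht t' ht' => h5.2 t t' ht ht')
        (fun t ht t' ht' => sd_adj.2 (Or.inl (lt_trans ht.1 ht')))
      rintro t ⟨ht, ht'⟩ u ⟨hu, hu'⟩ hadj
      have c1 := srf_card_lt ht
      have c2 := srf_card_lt hu
      have c3 := srf_mixed_card ht'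
      have c4 := srf_mixed_card hu'
      rcases sd_adj.1 hadj with h6 | h6
      · have := srf_card_lt h6; omega
      · have := srf_card_lt h6; omega
    · have hempty : {t : Cq G | s < t} = ∅ := by
        rw [Set.eq_empty_iff_forall_notMem]
        intro t ht
        have := srf_card_lt ht
        have := hc4 t
        omega
      rw [hempty, Set.union_empty]
      exact Fr_tet_cyc s hc hs
  · exact srf_chain c hc 2 (fun s hs => srf_mixed_card (hcS hs)) (fun s _ => hc4 s)

end MOT
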