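import Pool.Agent.MOT.DuaA
import Pool.Agent.MOT.Eul
import Pool.Agent.MOT.MV
import Pool.Agent.MOT.Srf

/-!
# MOT/DuaB: Euler characteristic and duality
-/

open Classical

noncomputable section

namespace MOT

variable {V : Type} {G : SimpleGraph V} {A B M S : Set V}

theorem fn_empty (k : ℕ) : fn G (∅ : Set V) (k + 1) = 0 := by
  have : {s : Finset V | s.card = k + 1 ∧ G.IsClique (s : Set V) ∧ (s : Set V) ⊆ (∅ : Set V)} =
      ∅ := by
    ext s
    simp only [Set.mem_ofPred_eq, Set.mem_empty_iff_false, iff_false, not_and]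
    intro h1 _ h3
    have : s = ∅ := by
      rw [← Finset.coe_eq_empty]; exact Set.subset_empty_iff.1 h3
    rw [this] at h1; simp at h1
  rw [fn, this, Set.ncard_empty]

theorem fn_zero : fn G A 0 = 1 := by
  have : {s : Finset V | s.card = 0 ∧ G.IsClique (s : Set V) ∧ (s : Set V) ⊆ A} = {∅} := by
    ext s
    simp only [Set.mem_ofPred_eq, Finset.card_eq_zero, Set.mem_singleton_iff]
    exact ⟨fun h => h.1, fun h => by subst h; simp⟩
  rw [fn, this, Set.ncard_singleton]

theorem chi_empty : chi G ∅ = 0 := by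
  unfold chi
  rw [fn_empty 0, fn_empty 1, fn_empty 2, fn_empty 3]; rfl

theorem fn_insert [Finite V] {x : V} (hx : x ∉ A) (k : ℕ) :
    fn G (insert x A) (k + 1) = fn G A (k + 1) + fn G (Lk G {x} ∩ A) k := by
  have hset : {s : Finset V | s.card = k + 1 ∧ G.IsClique (s : Set V) ∧
        (s : Set V) ⊆ insert x A} =
      {s : Finset V | s.card = k + 1 ∧ G.IsClique (s : Set V) ∧ (s : Set V) ⊆ A} ∪
      (fun t : Finset V => insert x t) ''
        {t : Finset V | t.card = k ∧ G.IsClique (t : Set V) ∧ (t : Set V) ⊆ Lk G {x} ∩ A} := by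
    ext s
    constructor
    · rintro ⟨h1, h2, h3⟩
      by_cases hxs : x ∈ s
      · right
        refine ⟨s.erase x, ⟨?_, ?_, ?_⟩, Finset.insert_erase hxs⟩
        · rw [Finset.card_erase_of_mem hxs, h1]; rfl
        · exact h2.subset (by intro y hy; exact Finset.mem_coe.2 (Finset.mem_of_mem_erase hy))
        · intro y hy
          have hy' : y ∈ s.erase x := hy
          refine ⟨?_, ?_⟩
          · intro z hz
            rw [Set.mem_singleton_iff] at hz; subst hz
            exact clique_erase h2 hxs hy'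
          · rcases h3 (Finset.mem_coe.2 (Finset.mem_of_mem_erase hy')) with h | h
            · exact absurd h (Finset.ne_of_mem_erase hy')
            · exact h
      · left
        refine ⟨h1, h2, fun y hy => ?_⟩
        rcases h3 hy with h | h
        · exact absurd (h ▸ hy) hxs
        · exact h
    · rintro (⟨h1, h2, h3⟩ | ⟨t, ⟨h1, h2, h3⟩, rfl⟩)
      · exact ⟨h1, h2, h3.trans (Set.subset_insert _ _)⟩
      · have hxt : x ∉ t := fun h => hx (h3 (Finset.mem_coe.2 h)).2
        refine ⟨?_, ?_, ?_⟩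
        · rw [Finset.card_insert_of_notMem hxt, h1]
        · exact clique_insert h2 fun y hy => (h3 (Finset.mem_coe.2 hy)).1 x rfl
        · intro y hy
          simp only [Finset.coe_insert, Set.mem_insert_iff, Finset.mem_coe] at hy
          rcases hy with rfl | hy
          · exact Set.mem_insert _ _
          · exact Set.mem_insert_of_mem _ (h3 (Finset.mem_coe.2 hy)).2
  rw [fn, hset, Set.ncard_union_eq]
  · rw [Set.InjOn.ncard_image]
    · rfl
    · intro t ht t' ht' h
      have hxt : x ∉ t := fun h => hx (ht.2.2 (Finset.mem_coe.2 h)).2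
      have hxt' : x ∉ t' := fun h => hx (ht'.2.2 (Finset.mem_coe.2 h)).2
      have h' : insert x t = insert x t' := h
      rw [← Finset.erase_insert hxt, h', Finset.erase_insert hxt']
  · rw [Set.disjoint_left]
    rintro s ⟨_, _, h3⟩ ⟨t, _, rfl⟩
    exact hx (h3 (by simp))

/-- adding one vertex -/
theorem chi_insert [Finite V] {x : V} (hx : x ∉ A)
    (h5 : ∀ s : Finset V, G.IsClique (s : Set V) → s.card ≤ 4) :
    chi G (insert x A) = chi G A + 1 - chi G (Lk G {x} ∩ A) := by
  have h4 : fn G (Lk G {x} ∩ A) 4 = 0 := by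
    have : {s : Finset V | s.card = 4 ∧ G.IsClique (s : Set V) ∧
        (s : Set V) ⊆ Lk G {x} ∩ A} = ∅ := by
      ext s
      simp only [Set.mem_ofPred_eq, Set.mem_empty_iff_false, iff_false, not_and]
      intro h1 h2 h3
      have hxs : x ∉ s := fun h => hx (h3 (Finset.mem_coe.2 h)).2
      have := h5 (insert x s) (clique_insert h2 fun y hy => (h3 (Finset.mem_coe.2 hy)).1 x rfl)
      rw [Finset.card_insert_of_notMem hxs, h1] at this
      omega
    rw [fn, this, Set.ncard_empty]
  unfold chi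
  rw [fn_insert hx 0, fn_insert hx 1, fn_insert hx 2, fn_insert hx 3, fn_zero, h4]
  push_cast
  ring

/-! ## double counting -/

theorem dc_two {α β : Type} (E : Finset α) (T : Finset β) (r : α → β → Prop)
    (h1 : ∀ e ∈ E, (T.filter (fun t => r e t)).card = 2)
    (h2 : ∀ t ∈ T, (E.filter (fun e => r e t)).card = 2) : E.card = T.card := by
  have h := Finset.sum_card_bipartiteAbove_eq_sum_card_bipartiteBelow (s := E) (t := T) r
  have ha : ∑ a ∈ E, (T.bipartiteAbove r a).card = ∑ _a ∈ E, 2 :=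
    Finset.sum_congr rfl fun e he => h1 e he
  have hb : ∑ b ∈ T, (E.bipartiteBelow r b).card = ∑ _b ∈ T, 2 :=
    Finset.sum_congr rfl fun t ht => h2 t ht
  rw [ha, hb] at h
  simp only [Finset.sum_const, smul_eq_mul] at h
  omega

/-! ## additivity in surfaces -/

/-- mixed simplices of `S` with respect to `A` -/
def mxk (G : SimpleGraph V) (S A : Set V) (k : ℕ) : Set (Finset V) :=
  {s | (s.card = k ∧ G.IsClique (s : Set V) ∧ (s : Set V) ⊆ S) ∧ (∃ x ∈ s, x ∈ A) ∧ ∃ x ∈ s, x ∉ A}

theorem fn_split [Finite V] (hA : A ⊆ S) (k : ℕ) :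
    fn G S (k + 1) = fn G A (k + 1) + fn G (S \ A) (k + 1) + (mxk G S A (k + 1)).ncard := by
  have hset : {s : Finset V | s.card = k + 1 ∧ G.IsClique (s : Set V) ∧ (s : Set V) ⊆ S} =
      ({s : Finset V | s.card = k + 1 ∧ G.IsClique (s : Set V) ∧ (s : Set V) ⊆ A} ∪
      {s : Finset V | s.card = k + 1 ∧ G.IsClique (s : Set V) ∧ (s : Set V) ⊆ S \ A}) ∪
      mxk G S A (k + 1) := by
    ext s
    constructor
    · rintro ⟨h1, h2, h3⟩
      by_cases ha : ∃ x ∈ s, x ∈ A
      · by_cases hb : ∃ x ∈ s, x ∉ A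
        · exact Or.inr ⟨⟨h1, h2, h3⟩, ha, hb⟩
        · push Not at hb
          exact Or.inl (Or.inl ⟨h1, h2, fun x hx => hb x hx⟩)
      · push Not at ha
        exact Or.inl (Or.inr ⟨h1, h2, fun x hx => ⟨h3 hx, ha x hx⟩⟩)
    · rintro ((⟨h1, h2, h3⟩ | ⟨h1, h2, h3⟩) | h)
      · exact ⟨h1, h2, h3.trans hA⟩
      · exact ⟨h1, h2, h3.trans Set.sdiff_subset⟩
      · exact h.1
  have hne : ∀ s : Finset V, s.card = k + 1 → ∃ x, x ∈ s := fun s h =>
    Finset.card_pos.1 (by omega)
  rw [fn, hset, Set.ncard_union_eq, Set.ncard_union_eq]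
  · rfl
  · rw [Set.disjoint_left]
    rintro s ⟨h1, _, h3⟩ ⟨_, _, h3'⟩
    obtain ⟨x, hx⟩ := hne s h1
    exact (h3' hx).2 (h3 hx)
  · rw [Set.disjoint_left]
    rintro s (⟨h1, _, h3⟩ | ⟨h1, _, h3⟩) ⟨_, ⟨x, hx, hxA⟩, y, hy, hyA⟩
    · exact hyA (h3 hy)
    · exact (h3 hx).2 hxA

theorem mxk_one : mxk G S A 1 = ∅ := by
  ext s
  simp only [Set.mem_empty_iff_false, iff_false]
  rintro ⟨⟨h1, _⟩, ⟨x, hx, hxA⟩, y, hy, hyA⟩
  obtain ⟨z, rfl⟩ := Finset.card_eq_one.1 h1
  rw [Finset.mem_singleton] at hx hy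
  subst hx; subst hy
  exact hyA hxA

/-- the mixed edges of a mixed triangle -/
theorem mixed_edges_tri [Finite V] {t : Finset V} (ht : t ∈ mxk G S A 3) :
    ((Set.toFinite (mxk G S A 2)).toFinset.filter (fun e => e ⊆ t)).card = 2 := by
  obtain ⟨⟨h1, h2, h3⟩, ⟨x, hx, hxA⟩, y, hy, hyA⟩ := ht
  have himg : (Set.toFinite (mxk G S A 2)).toFinset.filter (fun e => e ⊆ t) =
      ((t.filter (· ∈ A)) ×ˢ (t.filter (· ∉ A))).image (fun p => ({p.1, p.2} : Finset V)) := by
    ext e
    simp only [Finset.mem_filter, Set.Finite.mem_toFinset, Finset.mem_image, Finset.mem_product,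
      Prod.exists]
    constructor
    · rintro ⟨⟨⟨c1, c2, c3⟩, ⟨u, hu, huA⟩, v, hv, hvA⟩, het⟩
      refine ⟨u, v, ⟨⟨het hu, huA⟩, het hv, hvA⟩, ?_⟩
      have huv : u ≠ v := fun h => hvA (h ▸ huA)
      symm
      refine (Finset.eq_of_subset_of_card_le ?_ ?_).symm
      · intro w hw
        simp only [Finset.mem_insert, Finset.mem_singleton] at hw
        rcases hw with rfl | rfl <;> assumption
      · rw [c1, Finset.card_pair huv]
    · rintro ⟨u, v, ⟨⟨hu, huA⟩, hv, hvA⟩, rfl⟩
      have huv : u ≠ v := fun h => hvA (h ▸ huA)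
      have hsub : ({u, v} : Finset V) ⊆ t := by
        intro w hw
        simp only [Finset.mem_insert, Finset.mem_singleton] at hw
        rcases hw with rfl | rfl <;> assumption
      refine ⟨⟨⟨Finset.card_pair huv, h2.subset (by exact_mod_cast hsub), ?_⟩,
        ⟨u, by simp, huA⟩, v, by simp, hvA⟩, hsub⟩
      exact fun w hw => h3 (hsub hw)
  rw [himg, Finset.card_image_of_injOn]
  · rw [Finset.card_product]
    have hsum := Finset.card_filter_add_card_filter_not (s := t) (fun x => x ∈ A)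
    have ha : 0 < (t.filter (· ∈ A)).card := Finset.card_pos.2 ⟨x, by simp [hx, hxA]⟩
    have hb : 0 < (t.filter (· ∉ A)).card := Finset.card_pos.2 ⟨y, by simp [hy, hyA]⟩
    rw [h1] at hsum
    generalize (t.filter (· ∈ A)).card = a at *
    generalize (t.filter (· ∉ A)).card = b at *
    have : (a = 1 ∧ b = 2) ∨ (a = 2 ∧ b = 1) := by omega
    rcases this with ⟨rfl, rfl⟩ | ⟨rfl, rfl⟩ <;> rfl
  · rintro ⟨u, v⟩ hp ⟨u', v'⟩ hp' h
    simp only [Finset.coe_product, Set.mem_prod, Finset.coe_filter, Set.mem_ofPred_eq] at hp hp'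
    have h' : ({u, v} : Finset V) = {u', v'} := h
    have h1 : u ∈ ({u', v'} : Finset V) := by rw [← h']; simp
    have h2 : v ∈ ({u', v'} : Finset V) := by rw [← h']; simp
    simp only [Finset.mem_insert, Finset.mem_singleton] at h1 h2
    have e1 : u = u' := by
      rcases h1 with h | h
      · exact h
      · exact absurd (h ▸ hp.1.2) hp'.2.2
    have e2 : v = v' := by
      rcases h2 with h | h
      · exact absurd (h ▸ hp'.1.2) hp.2.2
      · exact h
    rw [e1, e2]

theorem mixed_tri_edge [Finite V] (hS : Surf G S) {e : Finset V} (he : e ∈ mxk G S A 2) :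
    ((Set.toFinite (mxk G S A 3)).toFinset.filter (fun t => e ⊆ t)).card = 2 := by
  obtain ⟨⟨h1, h2, h3⟩, ⟨x, hx, hxA⟩, y, hy, hyA⟩ := he
  have hset : (((Set.toFinite (mxk G S A 3)).toFinset.filter (fun t => e ⊆ t) : Finset _) :
      Set (Finset V)) =
      {t : Finset V | t.card = 2 + 1 ∧ G.IsClique (t : Set V) ∧ (t : Set V) ⊆ S ∧ e ⊆ t} := by
    ext t
    simp only [Finset.coe_filter, Set.Finite.mem_toFinset, Set.mem_ofPred_eq]
    constructor
    · rintro ⟨⟨⟨c1, c2, c3⟩, _⟩, c4⟩
      exact ⟨c1, c2, c3, c4⟩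
    · rintro ⟨c1, c2, c3, c4⟩
      exact ⟨⟨⟨c1, c2, c3⟩, ⟨x, c4 hx, hxA⟩, y, c4 hy, hyA⟩, c4⟩
  obtain ⟨u, v, huv, rfl⟩ := Finset.card_eq_two.1 h1
  have huv' : EIn G S u v := ⟨h2 (by simp) (by simp) huv, h3 (by simp), h3 (by simp)⟩
  have h := star_ncard ({u, v} : Finset V) 2 h1 h2 h3
  rw [← Set.ncard_coe_finset, hset, h]
  have := (hS.edge huv').1
  rwa [show (({u, v} : Finset V) : Set V) = {u, v} by simp]

/-- in a surface `chi A + chi (S \ A) = chi S` -/
theorem surf_chi_add [Finite V] (hS : Surf G S) (hA : A ⊆ S) :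
    chi G A + chi G (S \ A) = chi G S := by
  have h4 : mxk G S A 4 = ∅ := by
    ext s
    simp only [Set.mem_empty_iff_false, iff_false]
    rintro ⟨⟨h1, h2, h3⟩, _⟩
    have := hS.k4 s h2 h3
    omega
  have h23 : (mxk G S A 2).ncard = (mxk G S A 3).ncard := by
    have := dc_two (Set.toFinite (mxk G S A 2)).toFinset (Set.toFinite (mxk G S A 3)).toFinset
      (fun e t => e ⊆ t)
      (fun e he => by convert mixed_tri_edge hS ((Set.Finite.mem_toFinset _).1 he))
      (fun t ht => by convert mixed_edges_tri ((Set.Finite.mem_toFinset _).1 ht))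
    rw [Set.ncard_eq_toFinset_card (mxk G S A 2), Set.ncard_eq_toFinset_card (mxk G S A 3)]
    exact this
  have e1 := fn_split (G := G) hA 0
  have e2 := fn_split (G := G) hA 1
  have e3 := fn_split (G := G) hA 2
  have e4 := fn_split (G := G) hA 3
  rw [zero_add, mxk_one, Set.ncard_empty] at e1
  rw [show 1 + 1 = 2 from rfl] at e2
  rw [show 2 + 1 = 3 from rfl] at e3
  rw [show 3 + 1 = 4 from rfl, h4, Set.ncard_empty] at e4
  unfold chi
  omega

/-! ## strong connectivity, 2-cycles -/

/-- the two triangles at an edge have the same value -/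
theorem cyc_edge [Finite V] (hS : Surf G S) (hAS : A ⊆ S) (w : Kq G A 3 → ZMod 2)
    (hw : (Matrix.transpose (inc G A 2)).mulVec w = 0) (x y z z' : V) (e : EIn G S x y)
    (hz : z ∈ Lk G {x, y} ∩ S) (hz' : z' ∈ Lk G {x, y} ∩ S) :
    wbar w {x, y, z} = wbar w {x, y, z'} := by
  by_cases hzz : z = z'
  · rw [hzz]
  have hcoe : (({x, y} : Finset V) : Set V) = {x, y} := by simp
  have hl : lkf G S {x, y} = {z, z'} := by
    symm
    refine Finset.eq_of_subset_of_card_le ?_ ?_
    · intro u hu
      simp only [Finset.mem_insert, Finset.mem_singleton] at hu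
      rcases hu with rfl | rfl
      · exact mem_lkf.2 ⟨fun v hv => hz.1 v (by rw [← hcoe]; exact hv), hz.2⟩
      · exact mem_lkf.2 ⟨fun v hv => hz'.1 v (by rw [← hcoe]; exact hv), hz'.2⟩
    · rw [Finset.card_pair hzz]
      have h1 := (hS.edge e).1
      have h2 : ((lkf G S {x, y} : Finset V) : Set V) = Lk G {x, y} ∩ S := by
        rw [lkf, Set.Finite.coe_toFinset, hcoe]
      rw [← h2, Set.ncard_coe_finset] at h1
      exact h1.le
  by_cases hA : x ∈ A ∧ y ∈ A
  · have e' : EIn G A x y := ⟨e.1, hA.1, hA.2⟩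
    have h := congrFun hw (kp e')
    rw [incT_sum hAS] at h
    have hval : (kp e').1 = {x, y} := rfl
    rw [hval, hl, Finset.sum_pair hzz] at h
    have h' := (z2_eq _ _).1 h
    have e1 : ∀ u : V, (insert u ({x, y} : Finset V)) = {x, y, u} := by
      intro u; ext v; simp only [Finset.mem_insert, Finset.mem_singleton]; tauto
    rwa [e1, e1] at h'
  · rcases not_and_or.1 hA with h | h
    · rw [wbar_zero w (x := x) (by simp) h, wbar_zero w (x := x) (by simp) h]
    · rw [wbar_zero w (x := y) (by simp) h, wbar_zero w (x := y) (by simp) h]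

theorem z2_part [Finite V] (hS : Surf G S) (hc : Conn G S) (hA : A ⊆ S) (hne : A ≠ S) :
    z2 G A = 0 := by
  have hker : LinearMap.ker (Matrix.mulVecLin (Matrix.transpose (inc G A 2))) = ⊥ := by
    rw [eq_bot_iff]
    intro w hw
    have hw' : (Matrix.transpose (inc G A 2)).mulVec w = 0 := hw
    obtain ⟨x0, hx0, hx0A⟩ : ∃ x, x ∈ S ∧ x ∉ A := by
      by_contra h
      push Not at h
      exact hne (Set.Subset.antisymm hA h)
    obtain ⟨y0, hy0⟩ : (Lk G {x0} ∩ S).Nonempty := (hS.lk x0 hx0).1.1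
    have e0 : EIn G S x0 y0 := ⟨hy0.1 x0 rfl, hx0, hy0.2⟩
    obtain ⟨z0, hz0⟩ := hS.edge_ne e0
    rw [Submodule.mem_bot]
    funext t
    obtain ⟨x, y, z, e, hz, ht⟩ := tri_form t.2.1 t.2.2.1 (t.2.2.2.trans hA)
    have h1 := surf_strong hS hc (wbar w) (cyc_edge hS hA w hw') e hz e0 hz0
    rw [wbar_zero w (t := {x0, y0, z0}) (x := x0) (by simp) hx0A, ← ht, wbar_val] at h1
    exact h1
  rw [z2, hker, finrank_bot]

theorem surf_chi_part [Finite V] (hS : Surf G S) (hc : Conn G S) (hA : A ⊆ S) (hne : A ≠ S) :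
    chi G A = b0 G A - b1 G A := by
  have h := euler (G := G) (A := A)
  rw [z2_part hS hc hA hne] at h
  have h4 : fn G A 4 = 0 := by
    have : {s : Finset V | s.card = 4 ∧ G.IsClique (s : Set V) ∧ (s : Set V) ⊆ A} = ∅ := by
      ext s
      simp only [Set.mem_ofPred_eq, Set.mem_empty_iff_false, iff_false, not_and]
      intro h1 h2 h3
      have := hS.k4 s h2 (h3.trans hA)
      omega
    rw [fn, this, Set.ncard_empty]
  unfold chi
  omega

theorem z2_surf [Finite V] (hS : Surf G S) (hc : Conn G S) : z2 G S = 1 := by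
  have hker : LinearMap.ker (Matrix.mulVecLin (Matrix.transpose (inc G S 2))) =
      Submodule.span (ZMod 2) {(1 : Kq G S 3 → ZMod 2)} := by
    ext w
    rw [Submodule.mem_span_singleton, LinearMap.mem_ker, Matrix.mulVecLin_apply]
    obtain ⟨x0, hx0⟩ := hc.1
    obtain ⟨y0, hy0⟩ : (Lk G {x0} ∩ S).Nonempty := (hS.lk x0 hx0).1.1
    have e0 : EIn G S x0 y0 := ⟨hy0.1 x0 rfl, hx0, hy0.2⟩
    obtain ⟨z0, hz0⟩ := hS.edge_ne e0
    constructor
    · intro hw
      refine ⟨wbar w {x0, y0, z0}, ?_⟩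
      funext t
      obtain ⟨x, y, z, e, hz, ht⟩ := tri_form t.2.1 t.2.2.1 t.2.2.2
      have h1 := surf_strong hS hc (wbar w) (cyc_edge hS subset_rfl w hw) e hz e0 hz0
      rw [← ht, wbar_val] at h1
      simp [h1]
    · rintro ⟨c, rfl⟩
      rw [Matrix.mulVec_smul]
      have : (Matrix.transpose (inc G S 2)).mulVec (1 : Kq G S 3 → ZMod 2) = 0 := by
        funext e
        rw [incT_sum (S := S) subset_rfl]
        obtain ⟨x, y, e', he⟩ := eq_pair (s := e)
        have hcoe : (({x, y} : Finset V) : Set V) = {x, y} := by simp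
        have h1 := (hS.edge e').1
        have h2 : ((lkf G S {x, y} : Finset V) : Set V) = Lk G {x, y} ∩ S := by
          rw [lkf, Set.Finite.coe_toFinset, hcoe]
        rw [← h2, Set.ncard_coe_finset] at h1
        have h3 : ∀ z ∈ lkf G S e.1, wbar (1 : Kq G S 3 → ZMod 2) (insert z e.1) = 1 := by
          intro z hz
          have hz' := mem_lkf.1 hz
          have hze : z ∉ e.1 := fun h => G.irrefl (hz'.1 z h)
          unfold wbar
          rw [dif_pos]
          · rfl
          · refine ⟨?_, ?_, ?_⟩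
            · rw [Finset.card_insert_of_notMem hze, e.2.1]
            · exact clique_insert e.2.2.1 fun u hu => (hz'.1 u hu).symm
            · intro u hu
              simp only [Finset.coe_insert, Set.mem_insert_iff, Finset.mem_coe] at hu
              rcases hu with rfl | hu
              · exact hz'.2
              · exact e.2.2.2 hu
        rw [Finset.sum_congr rfl h3, Finset.sum_const, he, h1]
        exact two_add (1 : ZMod 2)
      rw [this, smul_zero]
  have hne : (1 : Kq G S 3 → ZMod 2) ≠ 0 := by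
    obtain ⟨x0, hx0⟩ := hc.1
    obtain ⟨y0, hy0⟩ : (Lk G {x0} ∩ S).Nonempty := (hS.lk x0 hx0).1.1
    have e0 : EIn G S x0 y0 := ⟨hy0.1 x0 rfl, hx0, hy0.2⟩
    obtain ⟨z0, hz0⟩ := hS.edge_ne e0
    intro h
    have hz' : z0 ∉ (kp e0).1 := by
      intro h
      have h : z0 ∈ ({x0, y0} : Finset V) := h
      simp only [Finset.mem_insert, Finset.mem_singleton] at h
      rcases h with h | h
      · exact G.irrefl (h ▸ hz0.1 x0 (by simp))
      · exact G.irrefl (h ▸ hz0.1 y0 (by simp))
    have := congrFun h (⟨insert z0 (kp e0).1, by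
      rw [Finset.card_insert_of_notMem hz', (kp e0).2.1], clique_insert (kp e0).2.2.1 (by
        intro u hu
        have hu' : u ∈ ({x0, y0} : Finset V) := hu
        simp only [Finset.mem_insert, Finset.mem_singleton] at hu'
        rcases hu' with rfl | rfl
        · exact (hz0.1 _ (by simp)).symm
        · exact (hz0.1 _ (by simp)).symm), by
      intro u hu
      simp only [Finset.coe_insert, Set.mem_insert_iff, Finset.mem_coe] at hu
      rcases hu with rfl | hu
      · exact hz0.2
      · exact (kp e0).2.2.2 hu⟩ : Kq G S 3)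
    exact one_ne_zero this
  rw [z2, hker, finrank_span_singleton hne]

theorem surf_chi [Finite V] (hS : Surf G S) (hc : Conn G S) :
    chi G S = 2 - b1 G S := by
  have h := euler (G := G) (A := S)
  rw [z2_surf hS hc] at h
  have h4 : fn G S 4 = 0 := by
    have : {s : Finset V | s.card = 4 ∧ G.IsClique (s : Set V) ∧ (s : Set V) ⊆ S} = ∅ := by
      ext s
      simp only [Set.mem_ofPred_eq, Set.mem_empty_iff_false, iff_false, not_and]
      intro h1 h2 h3
      have := hS.k4 s h2 h3
      omega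
    rw [fn, this, Set.ncard_empty]
  have h5 : b0 G S = 1 := b0_eq_one.2 hc
  unfold chi
  omega

/-! ## the 3-sphere -/

/-- tetrahedra meeting a connected set `N` are connected through triangles meeting `N` -/
theorem sph_strong [Finite V] (h : IsSph3 G) {N : Set V} (hN : Conn G N)
    (F : Finset V → ZMod 2)
    (hF : ∀ t : Finset V, G.IsClique (t : Set V) → t.card = 3 → (∃ x ∈ t, x ∈ N) →
      ∀ z ∈ lkf G Set.univ t, ∀ z' ∈ lkf G Set.univ t, F (insert z t) = F (insert z' t))
    {T T' : Finset V} (hT : G.IsClique (T : Set V)) (hT4 : T.card = 4)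
    (hTN : ∃ x ∈ T, x ∈ N) (hT' : G.IsClique (T' : Set V)) (hT4' : T'.card = 4)
    (hTN' : ∃ x ∈ T', x ∈ N) : F T = F T' := by
  have key : ∀ x ∈ N, ∀ T T' : Finset V, G.IsClique (T : Set V) → T.card = 4 → x ∈ T →
      G.IsClique (T' : Set V) → T'.card = 4 → x ∈ T' → F T = F T' := by
    intro x hx T T' hT hT4 hxT hT' hT4' hxT'
    have hL := h.lk_surf x
    have hLc := (h.vert x).1
    have hE : ∀ T : Finset V, G.IsClique (T : Set V) → T.card = 4 → x ∈ T →
        ∃ a b c, EIn G (Lk G {x}) a b ∧ c ∈ Lk G {a, b} ∩ Lk G {x} ∧ T = insert x {a, b, c} := by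
      intro T hT hT4 hxT
      have h1 : (T.erase x).card = 3 := by rw [Finset.card_erase_of_mem hxT, hT4]
      have h2 : G.IsClique ((T.erase x : Finset V) : Set V) :=
        hT.subset (by intro y hy; exact Finset.mem_coe.2 (Finset.mem_of_mem_erase hy))
      have h3 : ((T.erase x : Finset V) : Set V) ⊆ Lk G {x} := by
        intro y hy z hz
        rw [Set.mem_singleton_iff] at hz; subst hz
        exact clique_erase hT hxT hy
      obtain ⟨a, b, c, e, hc, ht⟩ := tri_form h1 h2 h3
      exact ⟨a, b, c, e, hc, by rw [← ht, Finset.insert_erase hxT]⟩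
    obtain ⟨a, b, c, e, hc, rfl⟩ := hE T hT hT4 hxT
    obtain ⟨a', b', c', e', hc', rfl⟩ := hE T' hT' hT4' hxT'
    refine surf_strong hL hLc (fun t => F (insert x t)) ?_ e hc e' hc'
    intro a b u u' e hu hu'
    have hxa : G.Adj x a := e.2.1 x rfl
    have hxb : G.Adj x b := e.2.2 x rfl
    have hab : G.IsClique (({a, b} : Finset V) : Set V) :=
      clique_insert (G := G) (x := a) (s := {b}) (by simp) (by simpa using e.1)
    have hcl : G.IsClique ((insert x ({a, b} : Finset V) : Finset V) : Set V) :=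
      clique_insert hab (by
        intro y hy
        simp only [Finset.mem_insert, Finset.mem_singleton] at hy
        rcases hy with rfl | rfl <;> assumption)
    have hxab : x ∉ ({a, b} : Finset V) := by
      simp only [Finset.mem_insert, Finset.mem_singleton, not_or]
      exact ⟨hxa.ne, hxb.ne⟩
    have h3 : (insert x ({a, b} : Finset V)).card = 3 := by
      rw [Finset.card_insert_of_notMem hxab, Finset.card_pair e.1.ne]
    have hm : ∀ v, v ∈ Lk G {a, b} ∩ Lk G {x} → v ∈ lkf G Set.univ (insert x {a, b}) := by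
      intro v hv
      rw [mem_lkf_univ]
      intro y hy
      simp only [Finset.mem_insert, Finset.mem_singleton] at hy
      rcases hy with rfl | rfl | rfl
      · exact hv.2 _ rfl
      · exact hv.1 _ (by simp)
      · exact hv.1 _ (by simp)
    have := hF _ hcl h3 ⟨x, by simp, hx⟩ u (hm u hu) u' (hm u' hu')
    have r : ∀ v : V, insert v (insert x ({a, b} : Finset V)) = insert x {a, b, v} := by
      intro v; ext y; simp only [Finset.mem_insert, Finset.mem_singleton]; tauto
    rw [r, r] at this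
    exact this
  have hf : ∃ f : V → ZMod 2, ∀ x ∈ N, ∀ T : Finset V, G.IsClique (T : Set V) → T.card = 4 →
      x ∈ T → F T = f x := by
    refine ⟨fun x => if hh : ∃ T : Finset V, G.IsClique (T : Set V) ∧ T.card = 4 ∧ x ∈ T then
      F hh.choose else 0, ?_⟩
    intro x hx T hT hT4 hxT
    have hh : ∃ T : Finset V, G.IsClique (T : Set V) ∧ T.card = 4 ∧ x ∈ T := ⟨T, hT, hT4, hxT⟩
    show F T = dite _ _ _
    rw [dif_pos hh]
    exact key x hx T _ hT hT4 hxT hh.choose_spec.1 hh.choose_spec.2.1 hh.choose_spec.2.2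
  obtain ⟨f, hf⟩ := hf
  obtain ⟨x, hxT, hx⟩ := hTN
  obtain ⟨x', hxT', hx'⟩ := hTN'
  rw [hf x hx T hT hT4 hxT, hf x' hx' T' hT' hT4' hxT']
  refine hN.const (f := f) ?_ hx hx'
  intro u v e
  obtain ⟨T, c1, c2, c3, c4⟩ := edge_tet h e.1
  rw [← hf u e.2.1 T c1 c2 c3, ← hf v e.2.2 T c1 c2 c4]

theorem sum_lk [Finite V] (k : ℕ) (E : Finset V) (hE : ∀ x, x ∈ E) :
    ∑ x ∈ E, fn G (Lk G {x}) k = (k + 1) * fn G Set.univ (k + 1) := by
  let K : Set (Finset V) := {s : Finset V | s.card = k + 1 ∧ G.IsClique (s : Set V) ∧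
    (s : Set V) ⊆ Set.univ}
  have hK : fn G Set.univ (k + 1) = (Set.toFinite K).toFinset.card := by
    rw [← Set.ncard_eq_toFinset_card K]; rfl
  have h := Finset.sum_card_bipartiteAbove_eq_sum_card_bipartiteBelow (s := E)
    (t := (Set.toFinite K).toFinset) (fun x s => x ∈ s)
  have ha : ∀ x ∈ E, (((Set.toFinite K).toFinset).bipartiteAbove (fun x s => x ∈ s) x).card =
      fn G (Lk G {x}) k := by
    intro x _
    have h1 := star_ncard (G := G) (S := Set.univ) ({x} : Finset V) 1 (by simp) (by simp) (by simp)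
    have hset : ((((Set.toFinite K).toFinset).bipartiteAbove (fun x s => x ∈ s) x : Finset _) :
        Set (Finset V)) = (fun t : Finset V => insert x t) ''
        {t : Finset V | t.card = k ∧ G.IsClique (t : Set V) ∧ (t : Set V) ⊆ Lk G {x}} := by
      ext s
      simp only [Finset.bipartiteAbove, Finset.coe_filter, Set.Finite.mem_toFinset,
        Set.mem_ofPred_eq, Set.mem_image]
      constructor
      · rintro ⟨⟨c1, c2, -⟩, hxs⟩
        refine ⟨s.erase x, ⟨?_, ?_, ?_⟩, Finset.insert_erase hxs⟩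
        · rw [Finset.card_erase_of_mem hxs, c1]; rfl
        · exact c2.subset (by intro y hy; exact Finset.mem_coe.2 (Finset.mem_of_mem_erase hy))
        · intro y hy z hz
          rw [Set.mem_singleton_iff] at hz; subst hz
          exact clique_erase c2 hxs hy
      · rintro ⟨t, ⟨c1, c2, c3⟩, rfl⟩
        have hxt : x ∉ t := fun h => G.irrefl (c3 (Finset.mem_coe.2 h) x rfl)
        refine ⟨⟨?_, ?_, Set.subset_univ _⟩, by simp⟩
        · rw [Finset.card_insert_of_notMem hxt, c1]
        · exact clique_insert c2 fun y hy => c3 (Finset.mem_coe.2 hy) x rfl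
    rw [← Set.ncard_coe_finset, hset, Set.InjOn.ncard_image]
    · rfl
    · intro t ht t' ht' h
      have hxt : x ∉ t := fun h => G.irrefl (ht.2.2 (Finset.mem_coe.2 h) x rfl)
      have hxt' : x ∉ t' := fun h => G.irrefl (ht'.2.2 (Finset.mem_coe.2 h) x rfl)
      have h' : insert x t = insert x t' := h
      rw [← Finset.erase_insert hxt, h', Finset.erase_insert hxt']
  have hb : ∀ s ∈ (Set.toFinite K).toFinset,
      (E.bipartiteBelow (fun x s => x ∈ s) s).card = k + 1 := by
    intro s hs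
    have : E.bipartiteBelow (fun x s => x ∈ s) s = s := by
      ext x
      simp only [Finset.bipartiteBelow, Finset.mem_filter]
      exact ⟨fun h => h.2, fun h => ⟨hE x, h⟩⟩
    rw [this]
    exact ((Set.Finite.mem_toFinset _).1 hs).1
  rw [Finset.sum_congr rfl ha, Finset.sum_congr rfl hb, Finset.sum_const, smul_eq_mul] at h
  rw [h, hK, mul_comm]

/-- every triangle lies in two tetrahedra, every tetrahedron has four triangles -/
theorem tet_count [Finite V] (h : IsSph3 G) : 2 * fn G Set.univ 3 = 4 * fn G Set.univ 4 := by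
  let K3 : Set (Finset V) := {s : Finset V | s.card = 3 ∧ G.IsClique (s : Set V) ∧
    (s : Set V) ⊆ Set.univ}
  let K4 : Set (Finset V) := {s : Finset V | s.card = 4 ∧ G.IsClique (s : Set V) ∧
    (s : Set V) ⊆ Set.univ}
  have hK3 : fn G Set.univ 3 = (Set.toFinite K3).toFinset.card := by
    rw [← Set.ncard_eq_toFinset_card K3]; rfl
  have hK4 : fn G Set.univ 4 = (Set.toFinite K4).toFinset.card := by
    rw [← Set.ncard_eq_toFinset_card K4]; rfl
  have hh := Finset.sum_card_bipartiteAbove_eq_sum_card_bipartiteBelow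
    (s := (Set.toFinite K3).toFinset) (t := (Set.toFinite K4).toFinset) (fun e t => e ⊆ t)
  have ha : ∀ e ∈ (Set.toFinite K3).toFinset,
      (((Set.toFinite K4).toFinset).bipartiteAbove (fun e t => e ⊆ t) e).card = 2 := by
    intro e he
    obtain ⟨c1, c2, -⟩ := (Set.Finite.mem_toFinset _).1 he
    have hset : ((((Set.toFinite K4).toFinset).bipartiteAbove (fun e t => e ⊆ t) e : Finset _) :
        Set (Finset V)) = {t : Finset V | t.card = 3 + 1 ∧ G.IsClique (t : Set V) ∧
          (t : Set V) ⊆ Set.univ ∧ e ⊆ t} := by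
      ext t
      simp only [Finset.bipartiteAbove, Finset.coe_filter, Set.Finite.mem_toFinset,
        Set.mem_ofPred_eq]
      constructor
      · rintro ⟨⟨d1, d2, d3⟩, d4⟩; exact ⟨d1, d2, d3, d4⟩
      · rintro ⟨d1, d2, d3, d4⟩; exact ⟨⟨d1, d2, d3⟩, d4⟩
    rw [← Set.ncard_coe_finset, hset, star_ncard e 3 c1 c2 (Set.subset_univ _), Set.inter_univ]
    exact h.tri e c2 c1
  have hb : ∀ t ∈ (Set.toFinite K4).toFinset,
      (((Set.toFinite K3).toFinset).bipartiteBelow (fun e t => e ⊆ t) t).card = 4 := by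
    intro t ht
    obtain ⟨c1, c2, -⟩ := (Set.Finite.mem_toFinset _).1 ht
    have : ((Set.toFinite K3).toFinset).bipartiteBelow (fun e t => e ⊆ t) t =
        Finset.powersetCard 3 t := by
      ext e
      simp only [Finset.bipartiteBelow, Finset.mem_filter, Set.Finite.mem_toFinset,
        Finset.mem_powersetCard]
      constructor
      · rintro ⟨⟨d1, -⟩, d2⟩; exact ⟨d2, d1⟩
      · rintro ⟨d1, d2⟩; exact ⟨⟨d2, subset_clique d1 c2, Set.subset_univ _⟩, d1⟩
    rw [this, Finset.card_powersetCard, c1]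
    rfl
  rw [Finset.sum_congr rfl ha, Finset.sum_congr rfl hb, Finset.sum_const, Finset.sum_const,
    smul_eq_mul, smul_eq_mul] at hh
  rw [hK3, hK4]; omega

theorem lk_chi [Finite V] (h : IsSph3 G) (x : V) : chi G (Lk G {x}) = 2 := by
  rw [surf_chi (h.lk_surf x) (h.vert x).1, b1_eq_zero.2 (h.vert x).2]
  rfl

theorem lk_fn4 [Finite V] (h : IsSph3 G) (x : V) : fn G (Lk G {x}) 4 = 0 := by
  have : {s : Finset V | s.card = 4 ∧ G.IsClique (s : Set V) ∧ (s : Set V) ⊆ Lk G {x}} = ∅ := by
    ext s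
    simp only [Set.mem_ofPred_eq, Set.mem_empty_iff_false, iff_false, not_and]
    intro h1 h2 h3
    have := (h.lk_surf x).k4 s h2 h3
    omega
  rw [fn, this, Set.ncard_empty]

/-- `chi (Lk x) = 2` for all `x`, count flags. -/
theorem sph_chi [Finite V] (h : IsSph3 G) : chi G Set.univ = 0 := by
  let E : Finset V := (Set.toFinite (Set.univ : Set V)).toFinset
  have hE : ∀ x, x ∈ E := fun x => (Set.Finite.mem_toFinset _).2 (Set.mem_univ x)
  have s0 := sum_lk (G := G) 0 E hE
  have s1 := sum_lk (G := G) 1 E hE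
  have s2 := sum_lk (G := G) 2 E hE
  have s3 := sum_lk (G := G) 3 E hE
  have ht := tet_count h
  have hsum : ∑ x ∈ E, ((fn G (Lk G {x}) 1 : ℤ) - fn G (Lk G {x}) 2 + fn G (Lk G {x}) 3) =
      ∑ x ∈ E, (2 : ℤ) * fn G (Lk G {x}) 0 := by
    refine Finset.sum_congr rfl fun x _ => ?_
    have h1 := lk_chi h x
    have h2 := lk_fn4 h x
    rw [fn_zero]
    unfold chi at h1
    rw [h2] at h1
    push_cast at h1 ⊢
    omega
  rw [Finset.sum_add_distrib, Finset.sum_sub_distrib, ← Finset.mul_sum] at hsum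
  have c0 : ∑ x ∈ E, (fn G (Lk G {x}) 0 : ℤ) = (0 + 1) * fn G Set.univ (0 + 1) := by
    exact_mod_cast s0
  have c1 : ∑ x ∈ E, (fn G (Lk G {x}) 1 : ℤ) = (1 + 1) * fn G Set.univ (1 + 1) := by
    exact_mod_cast s1
  have c2 : ∑ x ∈ E, (fn G (Lk G {x}) 2 : ℤ) = (2 + 1) * fn G Set.univ (2 + 1) := by
    exact_mod_cast s2
  have c3 : ∑ x ∈ E, (fn G (Lk G {x}) 3 : ℤ) = (3 + 1) * fn G Set.univ (3 + 1) := by
    exact_mod_cast s3
  rw [c0, c1, c2, c3] at hsum
  rw [show (0 : ℕ) + 1 = 1 from rfl, show (1 : ℕ) + 1 = 2 from rfl,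
    show (2 : ℕ) + 1 = 3 from rfl, show (3 : ℕ) + 1 = 4 from rfl] at hsum
  unfold chi
  omega

/-- `chi M = chi Mᶜ` -/
theorem sph_chi_compl [Finite V] (h : IsSph3 G) (M : Set V) : chi G M = chi G Mᶜ := by
  refine Set.Finite.induction_on (motive := fun M _ => chi G M = chi G Mᶜ) M (Set.toFinite M)
    ?_ ?_
  · rw [Set.compl_empty, chi_empty, sph_chi h]
  · intro x M hx _ ih
    have hx' : x ∉ (insert x M)ᶜ := fun hh => hh (Set.mem_insert x M)
    have hM : Mᶜ = insert x (insert x M)ᶜ := by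
      ext y
      simp only [Set.mem_compl_iff, Set.mem_insert_iff, not_or]
      by_cases hy : y = x
      · subst hy; simp [hx]
      · simp [hy]
    have h1 := chi_insert (G := G) hx h.k5
    have h2 := chi_insert (G := G) hx' h.k5
    rw [← hM] at h2
    have h3 : Lk G {x} ∩ (insert x M)ᶜ = Lk G {x} \ (Lk G {x} ∩ M) := by
      ext y
      simp only [Set.mem_inter_iff, Set.mem_compl_iff, Set.mem_insert_iff, Set.mem_sdiff]
      constructor
      · rintro ⟨a, b⟩
        exact ⟨a, fun hh => b (Or.inr hh.2)⟩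
      · rintro ⟨a, b⟩
        refine ⟨a, ?_⟩
        rintro (rfl | hh)
        · exact G.irrefl (a y rfl)
        · exact b ⟨a, hh⟩
    have h4 := surf_chi_add (h.lk_surf x) (A := Lk G {x} ∩ M) Set.inter_subset_left
    rw [lk_chi h x] at h4
    rw [h3] at h2
    omega

/-- the boundary of a boundary is zero -/
theorem inc_mul [Finite V] : inc G A 3 * inc G A 2 = 0 := by
  ext T e
  rw [Matrix.mul_apply, Matrix.zero_apply]
  have h1 : ∑ t : Kq G A 3, inc G A 3 T t * inc G A 2 t e =
      ∑ t ∈ Finset.univ.filter (fun t : Kq G A 3 => e.1 ⊆ t.1 ∧ t.1 ⊆ T.1), (1 : ZMod 2) := by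
    rw [Finset.sum_filter]
    refine Finset.sum_congr rfl fun t _ => ?_
    simp only [inc, Matrix.of_apply]
    by_cases ha : t.1 ⊆ T.1
    · by_cases hb : e.1 ⊆ t.1
      · simp [ha, hb]
      · simp [ha, hb]
    · simp [ha]
  refine h1.trans ?_
  rw [Finset.sum_const, nsmul_eq_mul, mul_one]
  by_cases heT : e.1 ⊆ T.1
  · have hc : (Finset.univ.filter (fun t : Kq G A 3 => e.1 ⊆ t.1 ∧ t.1 ⊆ T.1)).card = 2 := by
      have hd : (T.1 \ e.1).card = 2 := by
        rw [Finset.card_sdiff_of_subset heT, T.2.1, e.2.1]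
      refine Eq.trans (Eq.symm ?_) hd
      refine Finset.card_bij (fun z hz => (⟨insert z e.1, ?_⟩ : Kq G A 3)) ?_ ?_ ?_
      · rw [Finset.mem_sdiff] at hz
        have hsub : insert z e.1 ⊆ T.1 := Finset.insert_subset hz.1 heT
        refine ⟨?_, subset_clique hsub T.2.2.1, fun x hx => T.2.2.2 (hsub hx)⟩
        rw [Finset.card_insert_of_notMem hz.2, e.2.1]
      · intro z hz
        rw [Finset.mem_sdiff] at hz
        exact Finset.mem_filter.2 ⟨Finset.mem_univ _, Finset.subset_insert _ _,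
          Finset.insert_subset hz.1 heT⟩
      · intro z hz z' hz' h
        rw [Finset.mem_sdiff] at hz hz'
        have h' : insert z e.1 = insert z' e.1 := congrArg Subtype.val h
        have : z ∈ insert z' e.1 := by rw [← h']; simp
        rcases Finset.mem_insert.1 this with h2 | h2
        · exact h2
        · exact absurd h2 hz.2
      · intro t ht
        have ht := (Finset.mem_filter.1 ht).2
        have h1 : (t.1 \ e.1).card = 1 := by
          rw [Finset.card_sdiff_of_subset ht.1, t.2.1, e.2.1]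
        obtain ⟨z, hz⟩ := Finset.card_eq_one.1 h1
        have hzt : z ∈ t.1 \ e.1 := by rw [hz]; simp
        rw [Finset.mem_sdiff] at hzt
        refine ⟨z, Finset.mem_sdiff.2 ⟨ht.2 hzt.1, hzt.2⟩, ?_⟩
        apply Subtype.ext
        show insert z e.1 = t.1
        rw [← Finset.sdiff_union_of_subset ht.1, hz]; rfl
    rw [hc]; rfl
  · have hc : (Finset.univ.filter (fun t : Kq G A 3 => e.1 ⊆ t.1 ∧ t.1 ⊆ T.1)) = ∅ := by
      rw [Finset.filter_eq_empty_iff]
      rintro t - ⟨h1, h2⟩
      exact heT (h1.trans h2)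
    rw [hc]; simp

/-- `Mᶜ` connected: the space of 2-cycles inside `M` has dimension `f4` -/
theorem z2_sph [Finite V] (h : IsSph3 G) (hc : Conn G Mᶜ) : z2 G M = fn G M 4 := by
  let D := Matrix.mulVecLin (Matrix.transpose (inc G M 3))
  have hlk : ∀ t : Finset V, G.IsClique (t : Set V) → t.card = 3 → ∃ z z', z ≠ z' ∧
      lkf G Set.univ t = {z, z'} := fun t h2 h3 => by
    obtain ⟨z, z', hne, he⟩ := Finset.card_eq_two.1 (lkf_univ_card h h2 h3)
    exact ⟨z, z', hne, he⟩
  -- every vertex lies in a tetrahedron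
  have hvt : ∀ x : V, ∃ T : Finset V, G.IsClique (T : Set V) ∧ T.card = 4 ∧ x ∈ T := by
    intro x
    obtain ⟨y, hy⟩ := (h.vert x).1.1
    obtain ⟨T, c1, c2, c3, -⟩ := edge_tet h (hy x rfl)
    exact ⟨T, c1, c2, c3⟩
  have hinj : Function.Injective D := by
    rw [← LinearMap.ker_eq_bot, eq_bot_iff]
    intro F hF
    have hF' : (Matrix.transpose (inc G M 3)).mulVec F = 0 := hF
    rw [Submodule.mem_bot]
    obtain ⟨x0, hx0⟩ := hc.1
    obtain ⟨T0, c1, c2, c3⟩ := hvt x0
    funext T
    have hst := sph_strong h h.conn (wbar F) (by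
      intro t ht ht3 _ z hz z' hz'
      by_cases hzz : z = z'
      · rw [hzz]
      have hl : lkf G Set.univ t = {z, z'} := by
        symm
        refine Finset.eq_of_subset_of_card_le ?_ ?_
        · intro u hu
          simp only [Finset.mem_insert, Finset.mem_singleton] at hu
          rcases hu with rfl | rfl <;> assumption
        · rw [Finset.card_pair hzz, lkf_univ_card h ht ht3]
      by_cases hM : (t : Set V) ⊆ M
      · have h1 : (Matrix.transpose (inc G M 3)).mulVec F (⟨t, ht3, ht, hM⟩ : Kq G M 3) = 0 :=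
          congrFun hF' _
        have h2 := incT_sum (Set.subset_univ M) F (⟨t, ht3, ht, hM⟩ : Kq G M 3)
        rw [h1] at h2
        have h3 : (0 : ZMod 2) = ∑ z ∈ lkf G Set.univ t, wbar F (insert z t) := h2
        rw [hl, Finset.sum_pair hzz] at h3
        exact (z2_eq _ _).1 h3.symm
      · obtain ⟨x, hx, hxM⟩ := Set.not_subset.1 hM
        rw [wbar_zero F (t := insert z t) (x := x)
            (Finset.mem_insert_of_mem (Finset.mem_coe.1 hx)) hxM,
          wbar_zero F (t := insert z' t) (x := x)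
            (Finset.mem_insert_of_mem (Finset.mem_coe.1 hx)) hxM])
      (T := T.1) (T' := T0) T.2.2.1 T.2.1 (by
        obtain ⟨x, hx⟩ := Finset.card_pos.1 (by rw [T.2.1]; norm_num : 0 < T.1.card)
        exact ⟨x, hx, Set.mem_univ x⟩) c1 c2 ⟨x0, c3, Set.mem_univ x0⟩
    rw [wbar_val, wbar_zero F c3 hx0] at hst
    exact hst
  have hrange : LinearMap.range D =
      LinearMap.ker (Matrix.mulVecLin (Matrix.transpose (inc G M 2))) := by
    apply le_antisymm
    · rintro _ ⟨F, rfl⟩
      rw [LinearMap.mem_ker]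
      show (Matrix.transpose (inc G M 2)).mulVec ((Matrix.transpose (inc G M 3)).mulVec F) = 0
      rw [Matrix.mulVec_mulVec, ← Matrix.transpose_mul, inc_mul, Matrix.transpose_zero,
        Matrix.zero_mulVec]
    · intro w hw
      have hw' : (Matrix.transpose (inc G M 2)).mulVec w = 0 := hw
      obtain ⟨F, hF⟩ := H2_cycle h (wbar w) (by
        intro e he he2
        by_cases hM : (e : Set V) ⊆ M
        · have h1 : (Matrix.transpose (inc G M 2)).mulVec w (⟨e, he2, he, hM⟩ : Kq G M 2) = 0 :=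
            congrFun hw' _
          have h2 := incT_sum (Set.subset_univ M) w (⟨e, he2, he, hM⟩ : Kq G M 2)
          rw [h1] at h2
          exact h2.symm
        · obtain ⟨x, hx, hxM⟩ := Set.not_subset.1 hM
          refine Finset.sum_eq_zero fun z _ => ?_
          exact wbar_zero w (t := insert z e) (x := x)
            (Finset.mem_insert_of_mem (Finset.mem_coe.1 hx)) hxM)
      obtain ⟨x0, hx0⟩ := hc.1
      obtain ⟨T0, c1, c2, c3⟩ := hvt x0
      have hconst : ∀ T : Finset V, G.IsClique (T : Set V) → T.card = 4 → (∃ x ∈ T, x ∈ Mᶜ) →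
          F T = F T0 := by
        intro T hT hT4 hTM
        refine sph_strong h hc F ?_ hT hT4 hTM c1 c2 ⟨x0, c3, hx0⟩
        rintro t ht ht3 ⟨x, hxt, hxM⟩ z hz z' hz'
        by_cases hzz : z = z'
        · rw [hzz]
        have hl : lkf G Set.univ t = {z, z'} := by
          symm
          refine Finset.eq_of_subset_of_card_le ?_ ?_
          · intro u hu
            simp only [Finset.mem_insert, Finset.mem_singleton] at hu
            rcases hu with rfl | rfl <;> assumption
          · rw [Finset.card_pair hzz, lkf_univ_card h ht ht3]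
        have h1 := hF t ht ht3
        rw [wbar_zero w hxt hxM, hl, Finset.sum_pair hzz] at h1
        exact (z2_eq _ _).1 h1.symm
      refine ⟨fun T => F T.1 + F T0, ?_⟩
      funext t
      show (Matrix.transpose (inc G M 3)).mulVec _ t = w t
      rw [incT_sum (Set.subset_univ M)]
      obtain ⟨z, z', hne, hl⟩ := hlk t.1 t.2.2.1 t.2.1
      have hval : ∀ u ∈ lkf G Set.univ t.1,
          wbar (G := G) (A := M) (k := 4) (fun T => F T.1 + F T0) (insert u t.1) =
            F (insert u t.1) + F T0 := by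
        intro u hu
        have hun : u ∉ t.1 := fun hh => G.irrefl ((mem_lkf_univ.1 hu) u hh)
        have hcl := clique_insert t.2.2.1 (fun v hv => ((mem_lkf_univ.1 hu) v hv).symm)
        have h4 : (insert u t.1).card = 4 := by
          rw [Finset.card_insert_of_notMem hun, t.2.1]
        by_cases hM : ((insert u t.1 : Finset V) : Set V) ⊆ M
        · unfold wbar
          rw [dif_pos ⟨h4, hcl, hM⟩]
        · obtain ⟨x, hx, hxM⟩ := Set.not_subset.1 hM
          rw [wbar_zero _ (Finset.mem_coe.1 hx) hxM,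
            hconst _ hcl h4 ⟨x, Finset.mem_coe.1 hx, hxM⟩]
          exact (two_add _).symm
      rw [Finset.sum_congr rfl hval, Finset.sum_add_distrib, ← hF t.1 t.2.2.1 t.2.1, wbar_val,
        hl, Finset.sum_const, Finset.card_pair hne]
      have : (2 : ℕ) • F T0 = 0 := by rw [two_smul]; exact two_add _
      rw [this, add_zero]
  have h1 := LinearMap.finrank_range_of_inj hinj
  rw [hrange, Module.finrank_fintype_fun_eq_card, card_Kq] at h1
  exact h1

/-- `Mᶜ` connected: `chi M = b0 M - b1 M` -/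
theorem sph_chi_b [Finite V] (h : IsSph3 G) (hc : Conn G Mᶜ) :
    chi G M = b0 G M - b1 G M := by
  have h1 := euler (G := G) (A := M)
  rw [z2_sph h hc] at h1
  unfold chi
  omega

/-- DUALITY -/
theorem dual [Finite V] (h : IsSph3 G) (h1 : Conn G M) (h2 : Conn G Mᶜ) :
    b1 G M = b1 G Mᶜ := by
  have e1 := sph_chi_b h h2
  have e2 := sph_chi_b h (M := Mᶜ) (by rwa [compl_compl])
  have e3 := sph_chi_compl h M
  rw [b0_eq_one.2 h1] at e1
  rw [b0_eq_one.2 h2] at e2
  omega

end MOT
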