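import Pool.Agent.MOT.DmDef
import Pool.Agent.MOT.Eul
import Pool.Agent.MOT.DuaB

/-!
# MOT/DmA: the 1-skeleton and the dual graph in `sd Gc` (helper82)

`Xs` = vertices and edges of `Gc` as vertices of `sd Gc` (a graph: vertex `v` adjacent to the edges containing
it); `Xsᶜ` = triangles and tetrahedra.
Connectedness of `Xs`: `Gc` connected (`h.conn`), two adjacent vertices are joined through the edge.
Connectedness of `Xsᶜ`: every triangle lies in a tetrahedron (`h.tri`); remove from `sd Gc` (connected,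
`sd_sph3`) first the vertices `v` (upper link of `v` = `sd` of `Lk v`, connected, `above_Conn`), then the edges `e` (upper
link = `sd` of the cycle `Lk e`).  Or: `sph_strong` in file DuaB.
`b1_Xs`: every cocycle `a` of `Xs` is cohomologous to one which is supported on the pairs `(e0, e)`, `e0` a
chosen end point of `e`; so the linear map `F_2^E → H^1(Xs)` is onto; it kills the cuts `δ f`, `f : Vc → F_2`, and
`dim (cuts) = card Vc - 1` (`Gc` connected).  Or by Euler characteristic.  Dually with triangles / tetrahedra.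
-/

open Classical

noncomputable section

namespace MOT

variable {Vc : Type} {Gc : SimpleGraph Vc}

private theorem dm_lt {s t : Cq Gc} (h : s < t) : s.1.card < t.1.card :=
  Finset.card_lt_card (Cq.lt_iff.1 h)

private theorem dm_pos (s : Cq Gc) : 1 ≤ s.1.card := Finset.card_pos.2 s.2.1

private theorem dm_nm {s : Finset Vc} {z : Vc} (hz : z ∈ Lk Gc (s : Set Vc)) : z ∉ s :=
  fun h => Gc.loopless.irrefl z (hz z h)

private theorem dm_ins {s : Finset Vc} (hs : Gc.IsClique (s : Set Vc)) {z : Vc}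
    (hz : z ∈ Lk Gc (s : Set Vc)) : Gc.IsClique ((insert z s : Finset Vc) : Set Vc) := by
  rw [Finset.coe_insert, SimpleGraph.isClique_insert]
  exact ⟨hs, fun b hb _ => (hz b hb).symm⟩

theorem Xs_Conn [Finite Vc] (h : IsSph3 Gc) : Conn (sd Gc) (Xs Gc) := by
  rw [Conn_iff]
  obtain ⟨x0, -⟩ := h.conn.1
  have hv : ∀ x, vx Gc x ∈ Xs Gc := fun x => by
    show ({x} : Finset Vc).card ≤ 2
    rw [Finset.card_singleton]
    norm_num
  refine ⟨⟨vx Gc x0, hv x0⟩, fun f hf s hs t ht => ?_⟩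
  have h1 : ∀ x y, EIn Gc Set.univ x y → f (vx Gc x) = f (vx Gc y) := by
    intro x y e
    have he : eg Gc e.1 ∈ Xs Gc := by
      show ({x, y} : Finset Vc).card ≤ 2
      exact Finset.card_le_two
    have hc : ({x, y} : Finset Vc).card = 2 := Finset.card_pair e.1.ne
    have hlt : ∀ z, z ∈ ({x, y} : Finset Vc) → vx Gc z < eg Gc e.1 := by
      intro z hz
      refine Cq.lt_iff.2 ⟨Finset.singleton_subset_iff.2 hz, fun hh => ?_⟩
      have h4 := Finset.card_le_card hh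
      have h5 : ({z} : Finset Vc).card = 1 := Finset.card_singleton z
      have h6 : (eg Gc e.1).1.card = 2 := hc
      have h7 : (vx Gc z).1.card = 1 := h5
      omega
    rw [hf _ _ ⟨Or.inl (hlt x (by simp)), hv x, he⟩, hf _ _ ⟨Or.inl (hlt y (by simp)), hv y, he⟩]
  have h2 : ∀ s ∈ Xs Gc, f s = f (vx Gc (pk s)) := by
    intro s hs
    by_cases e : vx Gc (pk s) = s
    · rw [e]
    · refine (hf _ _ ⟨Or.inl (lt_of_le_of_ne ?_ e), hv _, hs⟩).symm
      exact Cq.le_iff.2 (Finset.singleton_subset_iff.2 (pk_mem s))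
  rw [h2 s hs, h2 t ht]
  exact h.conn.const (f := fun x => f (vx Gc x)) h1 trivial trivial

theorem Xs_compl_Conn [Finite Vc] (h : IsSph3 Gc) : Conn (sd Gc) (Xs Gc)ᶜ := by
  rw [Conn_iff]
  obtain ⟨x0, -⟩ := h.conn.1
  obtain ⟨y0, hy0⟩ := (h.vert x0).1.1
  have hxy : Gc.Adj x0 y0 := hy0 x0 rfl
  obtain ⟨z0, hz0⟩ := (h.edge {x0, y0} (eg Gc hxy).2.2 (Finset.card_pair hxy.ne)).1.1
  have ht0 := dm_ins (eg Gc hxy).2.2 hz0
  have hmem : ∀ s : Cq Gc, 3 ≤ s.1.card → s ∈ (Xs Gc)ᶜ := by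
    intro s hs hh
    have h2 : s.1.card ≤ 2 := hh
    omega
  refine ⟨⟨⟨insert z0 {x0, y0}, ⟨z0, Finset.mem_insert_self _ _⟩, ht0⟩, hmem _ ?_⟩,
    fun f hf s hs t ht => ?_⟩
  · show 3 ≤ (insert z0 {x0, y0} : Finset Vc).card
    rw [Finset.card_insert_of_notMem (dm_nm hz0), Finset.card_pair hxy.ne]
  let F : Finset Vc → ZMod 2 := fun T =>
    if hT : T.Nonempty ∧ Gc.IsClique (T : Set Vc) then f ⟨T, hT⟩ else 0
  have hF : ∀ s : Cq Gc, F s.1 = f s := fun s => dif_pos s.2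
  have hup : ∀ s : Cq Gc, 3 ≤ s.1.card → ∀ z ∈ Lk Gc (s.1 : Set Vc), F (insert z s.1) = f s := by
    intro s hs z hz
    have hcl := dm_ins s.2.2 hz
    have h1 : F (insert z s.1) = f ⟨insert z s.1, ⟨z, Finset.mem_insert_self _ _⟩, hcl⟩ :=
      hF ⟨insert z s.1, ⟨z, Finset.mem_insert_self _ _⟩, hcl⟩
    rw [h1]
    refine (hf _ _ ⟨Or.inl (Cq.lt_iff.2 (Finset.ssubset_insert (dm_nm hz))), hmem _ hs,
      hmem _ ?_⟩).symm
    show 3 ≤ (insert z s.1).card
    rw [Finset.card_insert_of_notMem (dm_nm hz)]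
    omega
  have hT : ∀ s ∈ (Xs Gc)ᶜ, ∃ T : Finset Vc, Gc.IsClique (T : Set Vc) ∧ T.card = 4 ∧ f s = F T := by
    intro s hs
    have h3 : 3 ≤ s.1.card := by
      have : ¬ s.1.card ≤ 2 := hs
      omega
    have h4 := h.k5 s.1 s.2.2
    by_cases h5 : s.1.card = 4
    · exact ⟨s.1, s.2.2, h5, (hF s).symm⟩
    · have h6 : s.1.card = 3 := by omega
      have h7 := h.tri s.1 s.2.2 h6
      obtain ⟨z, hz⟩ := (Set.ncard_pos (Set.toFinite _)).1 (show 0 < (Lk Gc (s.1 : Set Vc)).ncard by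
        omega)
      refine ⟨insert z s.1, dm_ins s.2.2 hz, ?_, (hup s h3 z hz).symm⟩
      rw [Finset.card_insert_of_notMem (dm_nm hz), h6]
  obtain ⟨T, hT1, hT2, hT3⟩ := hT s hs
  obtain ⟨T', hT1', hT2', hT3'⟩ := hT t ht
  rw [hT3, hT3']
  have hne : ∀ T : Finset Vc, T.card = 4 → ∃ x ∈ T, x ∈ (Set.univ : Set Vc) := by
    intro T hT
    obtain ⟨x, hx⟩ := Finset.card_pos.1 (show 0 < T.card by omega)
    exact ⟨x, hx, trivial⟩
  refine sph_strong h h.conn F ?_ hT1 hT2 (hne T hT2) hT1' hT2' (hne T' hT2')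
  intro r hr hr3 _ z hz z' hz'
  have hrn : r.Nonempty := Finset.card_pos.1 (by omega)
  have e1 := hup ⟨r, hrn, hr⟩ (by show 3 ≤ r.card; omega) z (fun x hx => (mem_lkf.1 hz).1 x hx)
  have e2 := hup ⟨r, hrn, hr⟩ (by show 3 ≤ r.card; omega) z' (fun x hx => (mem_lkf.1 hz').1 x hx)
  exact e1.trans e2.symm

private theorem dm_no3 {c : Finset (Cq Gc)} (hc : (sd Gc).IsClique (c : Set (Cq Gc))) (a : ℕ)
    (h1 : ∀ s ∈ c, a ≤ s.1.card) (h2 : ∀ s ∈ c, s.1.card ≤ a + 1) : c.card ≤ 2 := by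
  have hinj : Set.InjOn (fun s : Cq Gc => s.1.card) (c : Set (Cq Gc)) := by
    intro s hs t ht hst
    by_contra hne
    rcases sd_adj.1 (hc hs ht hne) with h | h
    · exact absurd hst (ne_of_lt (dm_lt h))
    · exact absurd hst (ne_of_gt (dm_lt h))
  have hmap : ∀ s ∈ c, (fun s : Cq Gc => s.1.card) s ∈ Finset.Icc a (a + 1) := fun s hs =>
    Finset.mem_Icc.2 ⟨h1 s hs, h2 s hs⟩
  have := Finset.card_le_card_of_injOn _ hmap hinj
  rw [Nat.card_Icc] at this
  omega

private theorem dm_eu {V : Type} {G : SimpleGraph V} [Finite V] {A : Set V}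
    (h3 : ∀ s : Finset V, s.card = 3 → G.IsClique (s : Set V) → ¬ (s : Set V) ⊆ A)
    (hc : Conn G A) : b1 G A + A.ncard = fn G A 2 + 1 := by
  have h := euler (G := G) (A := A)
  have h1 : fn G A 3 = 0 := by
    rw [fn, Set.ncard_eq_zero (Set.toFinite _), Set.eq_empty_iff_forall_notMem]
    rintro s ⟨hs, hs', hs''⟩
    exact h3 s hs hs' hs''
  have h2 : z2 G A = 0 := by
    have hemp : IsEmpty (Kq G A (2 + 1)) := ⟨fun t => h3 t.1 t.2.1 t.2.2.1 t.2.2.2⟩
    unfold z2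
    have : Subsingleton (Kq G A (2 + 1) → ZMod 2) := inferInstance
    exact Module.finrank_zero_of_subsingleton
  rw [h1, h2, b0_eq_one.2 hc, fn_one] at h
  omega

private theorem dm_cnt {I : Type} [Finite I] {β : I → Type} [∀ i, Finite (β i)] {T : Type}
    (hb : ∀ i, Nat.card (β i) = 2) (φ : (i : I) → β i → T) {S : Set T}
    (hS : ∀ c ∈ S, ∃ i x, φ i x = c) : S.ncard ≤ 2 * Nat.card I := by
  have : Fintype I := Fintype.ofFinite I
  have h1 : S ⊆ (fun p : Sigma β => φ p.1 p.2) '' Set.univ := by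
    intro c hc
    obtain ⟨i, x, hx⟩ := hS c hc
    exact ⟨⟨i, x⟩, trivial, hx⟩
  have h2 := Set.ncard_le_ncard h1 (Set.toFinite _)
  have h3 := Set.ncard_image_le (f := fun p : Sigma β => φ p.1 p.2) (Set.toFinite Set.univ)
  have h4 : (Set.univ : Set (Sigma β)).ncard = 2 * Nat.card I := by
    rw [Set.ncard_univ, Nat.card_sigma]
    simp only [hb]
    rw [Finset.sum_const, Finset.card_univ, Nat.card_eq_fintype_card, smul_eq_mul, mul_comm]
  omega

private theorem dm_sum {A B T : Type} [Finite A] [Finite B] (f : A → T) (g : B → T)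
    (hf : Function.Injective f) (hg : Function.Injective g) (hfg : ∀ a b, f a ≠ g b) {S : Set T}
    (hS : S.Finite) (h1 : ∀ a, f a ∈ S) (h2 : ∀ b, g b ∈ S) :
    Nat.card A + Nat.card B ≤ S.ncard := by
  have hi : Function.Injective (Sum.elim f g) := by
    rintro (a | a) (b | b) hab
    · exact congrArg Sum.inl (hf hab)
    · exact absurd hab (hfg a b)
    · exact absurd hab.symm (hfg b a)
    · exact congrArg Sum.inr (hg hab)
  have h3 : Set.range (Sum.elim f g) ⊆ S := by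
    rintro _ ⟨(a | b), rfl⟩
    · exact h1 a
    · exact h2 b
  have h4 := Set.ncard_le_ncard h3 hS
  rw [← Set.image_univ, Set.ncard_image_of_injective _ hi, Set.ncard_univ, Nat.card_sum] at h4
  exact h4

/-- a two-element chain -/
private theorem dm_two {c : Finset (Cq Gc)} (hc : (sd Gc).IsClique (c : Set (Cq Gc)))
    (h2 : c.card = 2) : ∃ s t : Cq Gc, s < t ∧ c = {s, t} := by
  obtain ⟨s, t, hst, rfl⟩ := Finset.card_eq_two.1 h2
  rcases sd_adj.1 (hc (by simp) (by simp) hst) with h | h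
  · exact ⟨s, t, h, rfl⟩
  · exact ⟨t, s, h, Finset.pair_comm s t⟩

theorem b1_Xs [Finite Vc] (h : IsSph3 Gc) :
    b1 (sd Gc) (Xs Gc) + Nat.card Vc ≤ Nat.card (Ec Gc) + 1 := by
  have h1 := dm_eu (G := sd Gc) (A := Xs Gc) (fun c hc hcl hs => by
    have := dm_no3 hcl 1 (fun s _ => dm_pos s) (fun s hs' => hs hs')
    omega) (Xs_Conn h)
  have h2 : fn (sd Gc) (Xs Gc) 2 ≤ 2 * Nat.card (Ec Gc) := by
    refine dm_cnt (β := fun e : Ec Gc => {x // x ∈ e.1}) (fun e => ?_)
      (fun e x => ({vx Gc x.1, e.q} : Finset (Cq Gc))) ?_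
    · rw [Nat.card_eq_fintype_card, Fintype.card_coe]
      exact e.2.1
    · rintro c ⟨hc2, hcl, hs⟩
      obtain ⟨s, t, hst, rfl⟩ := dm_two hcl hc2
      have hs2 : s.1.card ≤ 2 := hs (by simp)
      have ht2 : t.1.card ≤ 2 := hs (by simp)
      have h3 := dm_lt hst
      have h4 := dm_pos s
      obtain ⟨x, hx⟩ := Finset.card_eq_one.1 (show s.1.card = 1 by omega)
      have hxt : x ∈ t.1 := hst.le (by rw [hx]; simp)
      refine ⟨⟨t.1, by omega, t.2.2⟩, ⟨x, hxt⟩, ?_⟩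
      have e1 : vx Gc x = s := Subtype.ext hx.symm
      show ({vx Gc x, _} : Finset (Cq Gc)) = {s, t}
      rw [e1]
      rfl
  have h3 : Nat.card Vc + Nat.card (Ec Gc) ≤ (Xs Gc).ncard := by
    refine dm_sum (vx Gc) Ec.q ?_ ?_ ?_ (Set.toFinite _) ?_ ?_
    · intro x y hxy
      exact Finset.singleton_injective (congrArg Subtype.val hxy)
    · intro e e' hee
      have h9 : e.q.1 = e'.q.1 := by rw [hee]
      exact Subtype.ext h9
    · intro x e hxe
      have h4 : ({x} : Finset Vc) = e.1 := congrArg Subtype.val hxe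
      have h5 := e.2.1
      rw [← h4, Finset.card_singleton] at h5
      omega
    · intro x
      show ({x} : Finset Vc).card ≤ 2
      rw [Finset.card_singleton]
      norm_num
    · intro e
      show e.1.card ≤ 2
      exact e.2.1.le
  omega

theorem b1_Xs_compl [Finite Vc] (h : IsSph3 Gc) :
    b1 (sd Gc) (Xs Gc)ᶜ + Nat.card (Te Gc) ≤ Nat.card (Fc Gc) + 1 := by
  have hge : ∀ s ∈ (Xs Gc)ᶜ, 3 ≤ s.1.card := fun s hs => by
    have : ¬ s.1.card ≤ 2 := hs
    omega
  have h1 := dm_eu (G := sd Gc) (A := (Xs Gc)ᶜ) (fun c hc hcl hs => by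
    have := dm_no3 hcl 3 (fun s hs' => hge s (hs hs')) (fun s _ => h.k5 s.1 s.2.2)
    omega) (Xs_compl_Conn h)
  have h2 : fn (sd Gc) (Xs Gc)ᶜ 2 ≤ 2 * Nat.card (Fc Gc) := by
    refine dm_cnt (β := fun s : Fc Gc => (Lk Gc (s.1 : Set Vc) : Set Vc)) (fun s => ?_)
      (fun s z => ({s.q, ⟨insert z.1 s.1, ⟨z.1, Finset.mem_insert_self _ _⟩,
        dm_ins s.2.2 z.2⟩} : Finset (Cq Gc))) ?_
    · exact h.tri s.1 s.2.2 s.2.1
    · rintro c ⟨hc2, hcl, hs⟩
      obtain ⟨s, t, hst, rfl⟩ := dm_two hcl hc2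
      have hs2 := hge s (hs (by simp))
      have ht4 := h.k5 t.1 t.2.2
      have h3 := dm_lt hst
      obtain ⟨z, hzt, hzs⟩ := Finset.exists_of_ssubset (Cq.lt_iff.1 hst)
      have hz : z ∈ Lk Gc (s.1 : Set Vc) := fun x hx =>
        t.2.2 (hst.le hx) hzt (fun hh => hzs (hh ▸ hx))
      refine ⟨⟨s.1, by omega, s.2.2⟩, ⟨z, hz⟩, ?_⟩
      have e1 : insert z s.1 = t.1 := by
        refine Finset.eq_of_subset_of_card_le (Finset.insert_subset hzt (Cq.le_iff.1 hst.le)) ?_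
        rw [Finset.card_insert_of_notMem hzs]
        omega
      have e2 : (⟨insert z s.1, ⟨z, Finset.mem_insert_self _ _⟩, dm_ins s.2.2 hz⟩ : Cq Gc) = t :=
        Subtype.ext e1
      show ({_, (⟨insert z s.1, ⟨z, Finset.mem_insert_self _ _⟩, dm_ins s.2.2 hz⟩ : Cq Gc)} :
        Finset (Cq Gc)) = {s, t}
      rw [e2]
      rfl
  have h3 : Nat.card (Fc Gc) + Nat.card (Te Gc) ≤ ((Xs Gc)ᶜ).ncard := by
    refine dm_sum Fc.q Te.q ?_ ?_ ?_ (Set.toFinite _) ?_ ?_
    · intro e e' hee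
      have h9 : e.q.1 = e'.q.1 := by rw [hee]
      exact Subtype.ext h9
    · intro e e' hee
      have h9 : e.q.1 = e'.q.1 := by rw [hee]
      exact Subtype.ext h9
    · intro s t hst
      have h4 : s.1 = t.1 := congrArg Subtype.val hst
      have h5 := s.2.1
      have h6 := t.2.1
      rw [h4] at h5
      omega
    · intro s hs
      have h5 : s.1.card ≤ 2 := hs
      have h6 := s.2.1
      omega
    · intro t ht
      have h5 : t.1.card ≤ 2 := ht
      have h6 := t.2.1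
      omega
  omega

end MOT
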