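import Pool.Agent.MOT.CbDef
import Pool.Agent.MOT.DmA

/-!
# MOT/CbA: the structure `Base` from a level of the range (helper82): sets and cochains, first part

`K`, `K'` towers of domain and range, `p : V'(N) → V(m0+7)` with `T : Tra _ _ p`.
-/

open Classical

noncomputable section

namespace MOT.Cb

variable {K K' : Lv} {m0 N : ℕ}

/-- thickened preimage of a set of positions -/
abbrev Tk (p : (tw K' N).V → PV K m0) (D : Set (PV K m0)) : Set (tw K' N).V :=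
  Thk (tw K (m0 + 7)).G (tw K' N).G p D

variable (p : (tw K' N).V → PV K m0)

def zB : Set (tw K' N).V := Tk p {u | lS K m0 u = 0}

def zBs : Set (tw K' N).V := Tk p {u | lS K m0 u = 64}

def zBL : Set (tw K' N).V := Tk p {u | lS K m0 u ≤ 15}

def zBsL : Set (tw K' N).V := Tk p {u | 49 ≤ lS K m0 u}

def zcr (x : (tw K' N).V) : Set (Cq (tw K m0).G) := MOT.cr K m0 (p x)

def ztop (x : (tw K' N).V) : (tw K m0).V := topD (p x)

def ztt (x : (tw K' N).V) : Finset (tw K m0).V := ttD (p x)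

def zwe (e : Ec (tw K m0).G) : (tw K' N).V → (tw K' N).V → ZMod 2 := pbk p (weD e)

def zws (s : Fc (tw K m0).G) : (tw K' N).V → (tw K' N).V → ZMod 2 := pbk p (wsD s)

def zBde (e : Ec (tw K m0).G) : Set (tw K' N).V := {x | ∃ y, Nr (tw K' N).G x y ∧ e.q < mnc (p y)}

def zBd (s : Fc (tw K m0).G) : Set (tw K' N).V := {x | ∃ y, Nr (tw K' N).G x y ∧ mxc (p y) < s.q}

/-- positions below / above a simplex -/
def Bel (σ : Cq (tw K m0).G) : Set (PV K m0) := {u | ∀ τ ∈ MOT.cr K m0 u, τ ≤ σ}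

def Abv (σ : Cq (tw K m0).G) : Set (PV K m0) := {u | ∀ τ ∈ MOT.cr K m0 u, σ ≤ τ}

def zLv (v : (tw K m0).V) : Set (tw K' N).V := Tk p (Bel (vx _ v))

def zLe (e : Ec (tw K m0).G) : Set (tw K' N).V := Tk p (Bel e.q)

def zLt (t : Te (tw K m0).G) : Set (tw K' N).V := Tk p (Abv t.q)

def zLs (s : Fc (tw K m0).G) : Set (tw K' N).V := Tk p (Abv s.q)

variable {p}

/-! connectedness in the domain -/

/-- `{lS ≤ i}` is connected: `lS_eq`, `LV_lN`, `LV.lo`, `LV.hi` (`LV_base` for `Xs`: `c1_Xs` etc. of DmA) -/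
private theorem lv_h16 (h : IsSph3 (tw K m0).G) :
    ∃ r, LV (tw K (m0 + 7)).G (lS K m0) 64 r := by
  have h1 : LV (tw K (m0 + 1)).G (ind (Xs (tw K m0).G)) 1 (bb (sd (tw K m0).G) (Xs (tw K m0).G)) :=
    LV_base (Xs_Conn h) (Xs_compl_Conn h) le_rfl
  have h2 := LV_lN (K := K) (n := m0 + 1) (sd_sph3 h) h1 6
  have h3 : lS K m0 = lN K (m0 + 1) (ind (Xs (tw K m0).G)) 6 := funext lS_eq
  rw [h3]
  exact ⟨_, h2⟩

theorem lo_conn (h : IsSph3 (tw K m0).G) (i : ℕ) (hi : i < 64) :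
    Conn (tw K (m0 + 7)).G {u : PV K m0 | lS K m0 u ≤ i} := by
  obtain ⟨r, hr⟩ := lv_h16 h
  exact hr.lo i hi

theorem hi_conn (h : IsSph3 (tw K m0).G) (i : ℕ) (hi : 1 ≤ i) (hi' : i ≤ 64) :
    Conn (tw K (m0 + 7)).G {u : PV K m0 | i ≤ lS K m0 u} := by
  obtain ⟨r, hr⟩ := lv_h16 h
  have h1 := hr.hi (i - 1) (by omega)
  have h2 : {u : PV K m0 | i ≤ lS K m0 u} = {u | lS K m0 u ≤ i - 1}ᶜ := by
    ext u
    show i ≤ lS K m0 u ↔ ¬ lS K m0 u ≤ i - 1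
    omega
  rw [h2]
  exact h1

/-- the carrier on level `m0+1` as a `car` -/
private theorem cr_car_h19 (u : PV K m0) : MOT.cr K m0 u = car K (m0 + 1) 6 u := by
  ext s
  constructor
  · rintro ⟨c, ⟨C, ⟨x1, h1, x2, h2, x3, h3, x4, h4, h5⟩, hc⟩, hs⟩
    have h5' : C = x4 := h5
    subst h5'
    exact ⟨x1, h1, x2, h2, x3, h3, C, h4, c, hc, s, hs, rfl⟩
  · rintro ⟨x1, h1, x2, h2, x3, h3, C, h4, c, hc, s', hs, h5⟩
    have h5' : s = s' := h5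
    subst h5'
    exact ⟨c, ⟨C, ⟨x1, h1, x2, h2, x3, h3, C, h4, rfl⟩, hc⟩, hs⟩

private theorem cr_miN_h19 (A : Set (Cq (tw K m0).G)) :
    ({u : PV K m0 | ∀ τ ∈ MOT.cr K m0 u, τ ∈ A} : Set (PV K m0)) = miN K (m0 + 1) A 6 := by
  ext u
  refine Iff.trans ?_ (mem_miN (K := K) (n := m0 + 1) (k := 6) (A := A) (x := u)).symm
  show (∀ τ ∈ MOT.cr K m0 u, τ ∈ A) ↔ _
  rw [cr_car_h19]
  exact Iff.rfl

private theorem cone_conn_h19 {A : Set (Cq (tw K m0).G)} {σ : Cq (tw K m0).G} (hσ : σ ∈ A)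
    (h : ∀ τ ∈ A, Nr (sd (tw K m0).G) τ σ) :
    Conn (tw K (m0 + 7)).G {u : PV K m0 | ∀ τ ∈ MOT.cr K m0 u, τ ∈ A} := by
  rw [cr_miN_h19]
  refine (miN_Conn (K := K) (n := m0 + 1) (k := 6) (A := A)).2 ?_
  have key : ∀ τ ∈ A, Relation.ReflTransGen (EIn (sd (tw K m0).G) A) τ σ := by
    intro τ hτ
    rcases h τ hτ with e | e
    · rw [e]
    · exact Relation.ReflTransGen.single ⟨e, hτ, hσ⟩
  refine ⟨⟨σ, hσ⟩, fun x hx y hy => ?_⟩
  exact (key x hx).trans (rtg_symm (key y hy))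

/-- `Bel σ = miN {≤ σ} 6`, a cone with apex `σ` -/
theorem bel_conn (σ : Cq (tw K m0).G) : Conn (tw K (m0 + 7)).G (Bel σ) := by
  refine cone_conn_h19 (A := {τ | τ ≤ σ}) (σ := σ) (le_refl σ) fun τ hτ => ?_
  rcases eq_or_lt_of_le (show τ ≤ σ from hτ) with e | e
  · exact Or.inl e
  · exact Or.inr (Or.inl e)

theorem abv_conn (σ : Cq (tw K m0).G) : Conn (tw K (m0 + 7)).G (Abv σ) := by
  refine cone_conn_h19 (A := {τ | σ ≤ τ}) (σ := σ) (le_refl σ) fun τ hτ => ?_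
  rcases eq_or_lt_of_le (show σ ≤ τ from hτ) with e | e
  · exact Or.inl e.symm
  · exact Or.inr (Or.inr e)

/-- positions all of whose simplices contain `v`: `miN` of the star of `vx v` -/
theorem star_conn (v : (tw K m0).V) :
    Conn (tw K (m0 + 7)).G {u : PV K m0 | ∀ τ ∈ MOT.cr K m0 u, v ∈ τ.1} := by
  refine cone_conn_h19 (A := {τ | v ∈ τ.1}) (σ := vx (tw K m0).G v) ?_ fun τ hτ => ?_
  · exact Finset.mem_singleton_self v
  · have h1 : vx (tw K m0).G v ≤ τ := by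
      refine Cq.le_iff.2 fun w hw => ?_
      rw [Finset.mem_singleton.1 hw]
      exact hτ
    rcases eq_or_lt_of_le h1 with e | e
    · exact Or.inl e.symm
    · exact Or.inr (Or.inr e)

/-- every set of simplices which is nonempty contains the carrier of a position: `car_full` -/
theorem pos_ex (σ : Cq (tw K m0).G) : ∃ u : PV K m0, MOT.cr K m0 u = {σ} := by
  obtain ⟨u, hu⟩ := car_full (K := K) (n := m0 + 1) 6 σ
  exact ⟨u, (cr_car_h19 u).trans hu⟩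

/-! first fields -/

variable (hK : IsSph3 (tw K m0).G) (T : Tra (tw K (m0 + 7)).G (tw K' N).G p)

include T in
theorem nBL : NAdj (tw K' N).G (zBL p) (zBsL p) := by
  intro x hx y hy e
  obtain ⟨u, hu, hn⟩ := thk_sub hx
  obtain ⟨v, hv, hm⟩ := thk_sub hy
  have h1 := lS_lip _ _ hn
  have h2 := lS_lip _ _ hm.symm
  have h3 := lS_lip _ _ (T.nr y x (Or.inr e.symm))
  have h4 : lS K m0 u ≤ 15 := hu
  have h5 : 49 ≤ lS K m0 v := hv
  omega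

include T in
theorem dBL : Disjoint (zBL p) (zBsL p) := by
  refine Set.disjoint_left.2 fun x hx hy => ?_
  obtain ⟨u, hu, hn⟩ := thk_sub hx
  obtain ⟨v, hv, hm⟩ := thk_sub hy
  have h1 := lS_lip _ _ hn
  have h2 := lS_lip _ _ hm.symm
  have h4 : lS K m0 u ≤ 15 := hu
  have h5 : 49 ≤ lS K m0 v := hv
  omega

include T in
theorem near_lS {x y : (tw K' N).V} (h : Nr (tw K' N).G x y) :
    lS K m0 (p x) ≤ lS K m0 (p y) + 1 := by
  exact lS_lip _ _ (T.nr _ _ h)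

theorem B_lS {x : (tw K' N).V} (h : x ∈ zB p) : lS K m0 (p x) ≤ 1 := by
  obtain ⟨u, hu, hn⟩ := thk_sub h
  have h1 := lS_lip _ _ hn
  have h2 : lS K m0 u = 0 := hu
  omega

theorem Bs_lS {x : (tw K' N).V} (h : x ∈ zBs p) : 63 ≤ lS K m0 (p x) := by
  obtain ⟨u, hu, hn⟩ := thk_sub h
  have h1 := lS_lip _ _ hn.symm
  have h2 : lS K m0 u = 64 := hu
  omega

theorem BL_lS {x : (tw K' N).V} (h : x ∈ zBL p) : lS K m0 (p x) ≤ 16 := by
  obtain ⟨u, hu, hn⟩ := thk_sub h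
  have h1 := lS_lip _ _ hn
  have h2 : lS K m0 u ≤ 15 := hu
  omega

theorem BsL_lS {x : (tw K' N).V} (h : x ∈ zBsL p) : 48 ≤ lS K m0 (p x) := by
  obtain ⟨u, hu, hn⟩ := thk_sub h
  have h1 := lS_lip _ _ hn.symm
  have h2 : 49 ≤ lS K m0 u := hu
  omega

include T in
theorem not_Bs {Q : Set (tw K' N).V} (hQ : (tw K' N).G.IsClique Q) (h : ¬ Q ⊆ zBs p) :
    Q.Nonempty ∧ ∀ x ∈ Q, lS K m0 (p x) < 64 := by
  obtain ⟨w, hw, hw2⟩ := Set.not_subset.1 h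
  refine ⟨⟨w, hw⟩, fun x hx => ?_⟩
  by_contra h1
  refine hw2 (thk_nb T (show p x ∈ {u | lS K m0 u = 64} from
    le_antisymm (lS_le _) (not_lt.1 h1)) ?_)
  by_cases h2 : x = w
  · exact Or.inl h2
  · exact Or.inr (hQ hx hw h2)

include T in
theorem not_B {Q : Set (tw K' N).V} (hQ : (tw K' N).G.IsClique Q) (h : ¬ Q ⊆ zB p) :
    Q.Nonempty ∧ ∀ x ∈ Q, 0 < lS K m0 (p x) := by
  obtain ⟨w, hw, hw2⟩ := Set.not_subset.1 h
  refine ⟨⟨w, hw⟩, fun x hx => ?_⟩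
  by_contra h1
  refine hw2 (thk_nb T (show p x ∈ {u | lS K m0 u = 0} from Nat.eq_zero_of_not_pos h1) ?_)
  by_cases h2 : x = w
  · exact Or.inl h2
  · exact Or.inr (hQ hx hw h2)

include T in
theorem cr_chain (x y : (tw K' N).V) (h : Nr (tw K' N).G x y) :
    IsChain (· ≤ ·) (zcr p x ∪ zcr p y) := by
  exact MOT.cr_nr (T.nr _ _ h)

include T in
theorem cr_top (x : (tw K' N).V) (h : x ∉ zBs p) : ∀ σ ∈ zcr p x, ztop p x ∈ σ.1 := by
  intro σ hσ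
  refine Cq.le_iff.1 (mnc_le (p x) hσ) ?_
  show topD (p x) ∈ _
  unfold topD
  split
  case isTrue h1 =>
    have h2 : e1 h1.choose ∈ h1.choose.q.1 := by
      show e1 h1.choose ∈ h1.choose.1
      rw [e1_eq h1.choose]
      simp
    exact Cq.le_iff.1 h1.choose_spec.ge h2
  case isFalse h1 => exact pk_mem _

include hK T in
theorem cr_tt (x : (tw K' N).V) (h : x ∉ zB p) : ∀ σ ∈ zcr p x, σ.1 ⊆ ztt p x := by
  intro σ hσ
  have h0 : 0 < lS K m0 (p x) := by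
    by_contra h1
    exact h (sub_thk (show p x ∈ {u | lS K m0 u = 0} from Nat.eq_zero_of_not_pos h1))
  obtain ⟨s, hs, h2⟩ := (lS_pos_iff _).1 h0
  have h3 := Finset.card_le_card (Cq.le_iff.1 (le_mxc (p x) hs))
  have h4 : (mxc (p x)).1.card ≤ 4 := hK.k5 _ (mxc (p x)).2.2
  refine (Cq.le_iff.1 (le_mxc (p x) hσ)).trans ?_
  show _ ⊆ ttD (p x)
  unfold ttD
  split
  case isTrue h1 =>
    exact (Cq.le_iff.1 h1.choose_spec.le).trans (t1_spec hK h1.choose).2.1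
  case isFalse h1 =>
    have h5 : (mxc (p x)).1.card = 4 := by
      by_contra h6
      exact h1 ⟨⟨(mxc (p x)).1, by omega, (mxc (p x)).2.2⟩, rfl⟩
    rw [if_pos h5]

private theorem cnr_h16 {V : Type} {G : SimpleGraph V} {Q : Set V} (hQ : G.IsClique Q) {x y : V}
    (hx : x ∈ Q) (hy : y ∈ Q) : Nr G x y := by
  by_cases h : x = y
  · exact Or.inl h
  · exact Or.inr (hQ hx hy h)

include T in
private theorem inr_h16 {Q : Set (tw K' N).V} (hQ : (tw K' N).G.IsClique Q) :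
    ∀ x ∈ p '' Q, ∀ y ∈ p '' Q, Nr (tw K (m0 + 7)).G x y := by
  rintro _ ⟨x, hx, rfl⟩ _ ⟨y, hy, rfl⟩
  exact T.nr _ _ (cnr_h16 hQ hx hy)

include T in
theorem top_cl (Q : Set (tw K' N).V) (hQ : (tw K' N).G.IsClique Q) (h : ¬ Q ⊆ zBs p) :
    ∃ v w, (v = w ∨ (tw K m0).G.Adj v w) ∧ ∀ x ∈ Q, ztop p x = v ∨ ztop p x = w := by
  obtain ⟨hne, hl⟩ := not_Bs T hQ h
  obtain ⟨v, w, h1, h2⟩ := topD_two (p '' Q) (inr_h16 T hQ) (hne.image p) (by
    rintro _ ⟨x, hx, rfl⟩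
    exact hl x hx)
  exact ⟨v, w, h1, fun x hx => h2 _ ⟨x, hx, rfl⟩⟩

include hK T in
theorem tt_cl (Q : Set (tw K' N).V) (hQ : (tw K' N).G.IsClique Q) (h : ¬ Q ⊆ zB p) :
    ∃ t t' : Te (tw K m0).G, (t = t' ∨ TAdj t.1 t'.1) ∧ ∀ x ∈ Q, ztt p x = t.1 ∨ ztt p x = t'.1 := by
  obtain ⟨hne, hl⟩ := not_B T hQ h
  obtain ⟨v, w, h1, h2⟩ := ttD_two hK (p '' Q) (inr_h16 T hQ) (hne.image p) (by
    rintro _ ⟨x, hx, rfl⟩
    exact hl x hx)
  exact ⟨v, w, h1, fun x hx => h2 _ ⟨x, hx, rfl⟩⟩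

include T in
theorem we_def (e) (Q : Set (tw K' N).V) (hQ : (tw K' N).G.IsClique Q) (h : ¬ Q ⊆ zBs p) :
    ∀ x ∈ Q, ∀ y ∈ Q,
      zwe p e x y = if ztop p x ≠ ztop p y ∧ ztop p x ∈ e.1 ∧ ztop p y ∈ e.1 then 1 else 0 := by
  intro x hx y hy
  obtain ⟨hne, hl⟩ := not_Bs T hQ h
  exact weD_top e (p x) (p y) (T.nr _ _ (cnr_h16 hQ hx hy)) (hl x hx) (hl y hy)

include hK T in
theorem ws_def (s) (Q : Set (tw K' N).V) (hQ : (tw K' N).G.IsClique Q) (h : ¬ Q ⊆ zB p) :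
    ∀ x ∈ Q, ∀ y ∈ Q,
      zws p s x y = if ztt p x ≠ ztt p y ∧ s.1 ⊆ ztt p x ∧ s.1 ⊆ ztt p y then 1 else 0 := by
  intro x hx y hy
  obtain ⟨hne, hl⟩ := not_B T hQ h
  exact wsD_tt hK s (p x) (p y) (T.nr _ _ (cnr_h16 hQ hx hy)) (hl x hx) (hl y hy)

include T in
theorem we_coc (e) : Coc (tw K' N).G (zBde p e) (zwe p e) := by
  refine ⟨fun x y => weD_sym e _ _, fun x => weD_dia e _, fun Q hQ h x hx y hy z hz => ?_⟩
  obtain ⟨w, hw, hw2⟩ := Set.not_subset.1 h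
  have key : ∀ u ∈ Q, ¬ e.q < mnc (p u) := fun u hu h2 => hw2 ⟨u, cnr_h16 hQ hw hu, h2⟩
  exact weD_coc' e _ _ _ (T.nr _ _ (cnr_h16 hQ hx hy)) (T.nr _ _ (cnr_h16 hQ hy hz))
    (T.nr _ _ (cnr_h16 hQ hx hz)) (key x hx) (key y hy) (key z hz)

include hK T in
theorem ws_coc (s) : Coc (tw K' N).G (zBd p s) (zws p s) := by
  refine ⟨fun x y => wsD_sym s _ _, fun x => wsD_dia hK s _, fun Q hQ h x hx y hy z hz => ?_⟩
  obtain ⟨w, hw, hw2⟩ := Set.not_subset.1 h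
  have key : ∀ u ∈ Q, ¬ mxc (p u) < s.q := fun u hu h2 => hw2 ⟨u, cnr_h16 hQ hw hu, h2⟩
  exact wsD_coc' hK s _ _ _ (T.nr _ _ (cnr_h16 hQ hx hy)) (T.nr _ _ (cnr_h16 hQ hy hz))
    (T.nr _ _ (cnr_h16 hQ hx hz)) (key x hx) (key y hy) (key z hz)

include T in
theorem Bde_sub (e) : ∀ x ∈ zBde p e, x ∈ zBs p ∧ ∃ s : Fc (tw K m0).G, e.1 ⊆ s.1 ∧ x ∈ zLs p s := by
  rintro x ⟨y, hxy, hlt⟩
  have hc := Finset.card_lt_card (Cq.lt_iff.1 hlt)
  have he : e.q.1.card = 2 := e.2.1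
  constructor
  · refine thk_nb T (show p y ∈ {u | lS K m0 u = 64} from ?_) hxy.symm
    refine le_antisymm (lS_le _) ?_
    by_contra h2
    push Not at h2
    obtain ⟨s, hs, h3⟩ := (lS_lt_iff _).1 h2
    have h4 := Finset.card_le_card (Cq.le_iff.1 (mnc_le (p y) hs))
    omega
  · obtain ⟨u, h1, h2, h3⟩ := Finset.exists_subsuperset_card_eq
      (Cq.lt_iff.1 hlt).1 (show e.q.1.card ≤ 3 by omega) (show 3 ≤ (mnc (p y)).1.card by omega)
    refine ⟨⟨u, h3, (mnc (p y)).2.2.subset (Finset.coe_subset.2 h2)⟩, h1, ?_⟩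
    refine thk_nb T (show p y ∈ Abv _ from fun τ hτ => ?_) hxy.symm
    exact Cq.le_iff.2 (h2.trans (Cq.le_iff.1 (mnc_le (p y) hτ)))

include T in
theorem Bd_sub (s) : ∀ x ∈ zBd p s, x ∈ zB p ∧ ∃ e : Ec (tw K m0).G, e.1 ⊆ s.1 ∧ x ∈ zLe p e := by
  rintro x ⟨y, hxy, hlt⟩
  have hc := Finset.card_lt_card (Cq.lt_iff.1 hlt)
  have he : s.q.1.card = 3 := s.2.1
  constructor
  · refine thk_nb T (show p y ∈ {u | lS K m0 u = 0} from ?_) hxy.symm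
    by_contra h2
    have h2' : 0 < lS K m0 (p y) := Nat.pos_of_ne_zero h2
    obtain ⟨t, ht, h3⟩ := (lS_pos_iff _).1 h2'
    have h4 := Finset.card_le_card (Cq.le_iff.1 (le_mxc (p y) ht))
    omega
  · obtain ⟨u, h1, h2, h3⟩ := Finset.exists_subsuperset_card_eq
      (Cq.lt_iff.1 hlt).1 (show (mxc (p y)).1.card ≤ 2 by omega) (show 2 ≤ s.q.1.card by omega)
    refine ⟨⟨u, h3, s.q.2.2.subset (Finset.coe_subset.2 h2)⟩, h2, ?_⟩
    refine thk_nb T (show p y ∈ Bel _ from fun τ hτ => ?_) hxy.symm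
    exact Cq.le_iff.2 ((Cq.le_iff.1 (le_mxc (p y) hτ)).trans h1)

end MOT.Cb
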