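import Pool.Agent.MOT.CbA

/-!
# MOT/CbB: the structure `Base` from a level of the range, second part (helper82)

(lb_e) `zB ⊇ p⁻¹ {lS = 0}`, `{lS = 0} = miN (Xs) 6`; `cmb A we = pbk p (pbk mnc (cmb A weX))`; `tra_inj` (`T.inj`) and
`Triv_choice` (`mnc` is a choice in the carrier of level `m0+1`, `cr_eq`): `cmb A weX` is trivial on `Xs`, potential `g`;
`weX e' (vx v) e.q` is `1` iff `e' = e` and `v = e0 e`; so `A e = g (vx (e0 e)) + g (vx (e1 e))`, `f v := g (vx v)`.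
(lb_s) dual: `g s + g (t0 s) = A s`, `g s + g (t1 s) = 0`, `f t := g t`; `t1_spec`: these are the two tetrahedra at `s`.
(far_B) `u = p x`, `mnc u ⊄ nb Z`: take `v ∈ mnc u`, `v ∉ nb Z`.  `D' = {u' | all τ ∈ cr u' contain v}` is connected (`star_conn`),
contains `u` and a position with `cr = {vx v}` (`lS = 0`; `pos_ex`) and one with `cr = {t}`, `v ∈ t` (`lS = 64`).
`nb D' ⊆ {u' | no τ ∈ cr u' is inside Z}`: `τ` is comparable with some `σ ∋ v`; if `σ ≤ τ` then `v ∈ τ`, `v ∉ Z`; if `τ ≤ σ`, `τ ⊆ Z`, then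
`v` is equal or adjacent to a vertex of `τ`.  Use `T.conn` and `T.surj`.
-/

open Classical

noncomputable section

namespace MOT.Cb

variable {K K' : Lv} {m0 N : ℕ} {p : (tw K' N).V → PV K m0}
variable (hK : IsSph3 (tw K m0).G) (T : Tra (tw K (m0 + 7)).G (tw K' N).G p)

section aux

variable {V : Type} {G : SimpleGraph V}

private theorem cbb_lt {a b : Cq G} (h : a < b) : a.1.card < b.1.card :=
  Finset.card_lt_card (Cq.lt_iff.1 h)

private theorem cbb_le {a b : Cq G} (h : a ≤ b) : a.1.card ≤ b.1.card :=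
  Finset.card_le_card (Cq.le_iff.1 h)

private theorem cbb_eq {a b : Cq G} (h : a ≤ b) (hc : b.1.card ≤ a.1.card) : a = b :=
  Subtype.ext (Finset.eq_of_subset_of_card_le (Cq.le_iff.1 h) hc)

private theorem cbb_adj {a b : Cq G} (h : (sd G).Adj a b) : a.1.card ≠ b.1.card := by
  rcases sd_adj.1 h with h | h
  · exact (cbb_lt h).ne
  · exact (cbb_lt h).ne'

private theorem cbb_ec (e : Ec G) : e.q.1.card = 2 := e.2.1

private theorem cbb_fc (s : Fc G) : s.q.1.card = 3 := s.2.1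

private theorem cbb_te (t : Te G) : t.q.1.card = 4 := t.2.1

private theorem cbb_vx (x : V) : (vx G x).1.card = 1 := Finset.card_singleton x

private theorem cbb_einj {e e' : Ec G} (h : e.q = e'.q) : e = e' :=
  Subtype.ext (congrArg (fun a : Cq G => a.1) h)

private theorem cbb_finj {e e' : Fc G} (h : e.q = e'.q) : e = e' :=
  Subtype.ext (congrArg (fun a : Cq G => a.1) h)

private theorem cbb_vinj {x y : V} (h : vx G x = vx G y) : x = y :=
  Finset.singleton_injective (congrArg (fun a : Cq G => a.1) h)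

private theorem cbb_we_sym (e : Ec G) (a b : Cq G) : weX e a b = weX e b a :=
  if_congr or_comm rfl rfl

private theorem cbb_ws_sym (s : Fc G) (a b : Cq G) : wsX s a b = wsX s b a :=
  if_congr or_comm rfl rfl

private theorem cbb_we_dia (e : Ec G) (a : Cq G) : weX e a a = 0 := by
  have key : ¬ (a = vx G (e0 e) ∧ a = e.q) := by
    rintro ⟨h1, h2⟩
    have h3 := cbb_ec e
    rw [← h2, h1, cbb_vx] at h3
    omega
  exact if_neg (fun h => h.elim key key)

private theorem cbb_ws_dia (h : IsSph3 G) (s : Fc G) (a : Cq G) : wsX s a a = 0 := by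
  have key : ¬ (a = s.q ∧ a = t0 s) := by
    rintro ⟨h1, h2⟩
    have h3 := cbb_fc s
    have h4 := (t0_spec h s).1.1
    rw [← h2, h1] at h4
    omega
  exact if_neg (fun h => h.elim key key)

/-- the value on the edge from a vertex to an edge -/
private theorem cbb_we_val (A : Ec G → ZMod 2) (e : Ec G) (v : V) :
    cmb A weX (vx G v) e.q = if v = e0 e then A e else 0 := by
  have h1 : cmb A weX (vx G v) e.q = A e * weX e (vx G v) e.q := by
    refine finsum_eq_single _ e (fun e' he' => ?_)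
    have h2 : weX e' (vx G v) e.q = 0 := by
      refine if_neg ?_
      rintro (⟨-, h⟩ | ⟨-, h⟩)
      · exact he' (cbb_einj h).symm
      · have h3 := cbb_ec e'
        rw [← h, cbb_vx] at h3
        omega
    rw [h2, mul_zero]
  rw [h1]
  by_cases hv : v = e0 e
  · have h2 : weX e (vx G v) e.q = 1 := if_pos (Or.inl ⟨by rw [hv], rfl⟩)
    rw [h2, mul_one, if_pos hv]
  · have h2 : weX e (vx G v) e.q = 0 := by
      refine if_neg ?_
      rintro (⟨h, -⟩ | ⟨-, h⟩)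
      · exact hv (cbb_vinj h)
      · have h3 := cbb_ec e
        rw [← h, cbb_vx] at h3
        omega
    rw [h2, mul_zero, if_neg hv]

private theorem cbb_ws_val (A : Fc G → ZMod 2) (s : Fc G) (t : Te G) :
    cmb A wsX s.q t.q = if t.q = t0 s then A s else 0 := by
  have h1 : cmb A wsX s.q t.q = A s * wsX s s.q t.q := by
    refine finsum_eq_single _ s (fun s' hs' => ?_)
    have h2 : wsX s' s.q t.q = 0 := by
      refine if_neg ?_
      rintro (⟨h, -⟩ | ⟨h, -⟩)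
      · exact hs' (cbb_finj h).symm
      · have h3 := cbb_fc s'
        rw [← h, cbb_te] at h3
        omega
    rw [h2, mul_zero]
  rw [h1]
  by_cases hv : t.q = t0 s
  · have h2 : wsX s s.q t.q = 1 := if_pos (Or.inl ⟨rfl, hv⟩)
    rw [h2, mul_one, if_pos hv]
  · have h2 : wsX s s.q t.q = 0 := by
      refine if_neg ?_
      rintro (⟨-, h⟩ | ⟨h, -⟩)
      · exact hv h
      · have h3 := cbb_fc s
        rw [← h, cbb_te] at h3
        omega
    rw [h2, mul_zero, if_neg hv]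

private theorem cbb_alg {a b c d : ZMod 2} (h1 : a = c + d) (h2 : 0 = b + d) : a = c + b := by
  revert h1 h2
  revert a b c d
  decide

end aux

private theorem cbb_mem (u : PV K m0) (s : Cq (tw K m0).G) :
    s ∈ car K (m0 + 1) 6 u ↔ s ∈ MOT.cr K m0 u := by
  rw [← cr_eq]
  exact Iff.rfl

private theorem cbb_S0 {u : PV K m0} (h : ∀ s ∈ MOT.cr K m0 u, s.1.card ≤ 2) :
    lS K m0 u = 0 := by
  by_contra hn
  obtain ⟨s, hs, h3⟩ := (lS_pos_iff u).1 (Nat.pos_of_ne_zero hn)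
  have := h s hs
  omega

private theorem cbb_S64 {u : PV K m0} (h : ∀ s ∈ MOT.cr K m0 u, 3 ≤ s.1.card) :
    lS K m0 u = 64 := by
  by_contra hn
  have h1 := lS_le u
  obtain ⟨s, hs, h3⟩ := (lS_lt_iff u).1 (by omega)
  have := h s hs
  omega

/-- the general step -/
private theorem cbb_gen {I : Type} (T : Tra (tw K (m0 + 7)).G (tw K' N).G p)
    {q : PV K m0 → (tw K (m0 + 1)).V} (hq : ∀ u : PV K m0, q u ∈ car K (m0 + 1) 6 u)
    {X : Set (tw K (m0 + 1)).V} {D : Set (PV K m0)}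
    (hD : ∀ u : PV K m0, u ∈ D ↔ car K (m0 + 1) 6 u ⊆ X)
    {w : I → (tw K (m0 + 1)).V → (tw K (m0 + 1)).V → ZMod 2} (hs : ∀ i a b, w i a b = w i b a)
    (hd : ∀ i a, w i a a = 0)
    (hno : ∀ a b c, EIn (tw K (m0 + 1)).G X a b → EIn (tw K (m0 + 1)).G X b c →
      EIn (tw K (m0 + 1)).G X a c → False)
    (A : I → ZMod 2)
    (h : Triv (tw K' N).G (p ⁻¹' D) (cmb A (fun i => pbk p (pbk q (w i))))) :
    Triv (tw K (m0 + 1)).G X (cmb A w) := by
  have hs' : ∀ a b, cmb A w a b = cmb A w b a := fun a b => finsum_congr fun i => by rw [hs]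
  have hd' : ∀ a, cmb A w a a = 0 := fun a =>
    finsum_eq_zero_of_forall_eq_zero fun i => by rw [hd, mul_zero]
  have ha : rs (tw K (m0 + 1)).G X (cmb A w) ∈ Z1 (tw K (m0 + 1)).G X := by
    refine mem_Z1.2 ⟨fun x y e => if_neg e, fun x y => ?_,
      fun x y z e1 e2 e3 => (hno x y z e1 e2 e3).elim⟩
    unfold rs
    by_cases e : EIn (tw K (m0 + 1)).G X x y
    · rw [if_pos e, if_pos e.symm, hs']
    · rw [if_neg e, if_neg fun e' => e e'.symm]
  have hDe : D = miN K (m0 + 1) X 6 := by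
    ext u
    rw [hD]
    exact (mem_miN (K := K) (n := m0 + 1) (k := 6)).symm
  have hnr : ∀ u u' : PV K m0, Nr (tw K (m0 + 7)).G u u' →
      Nr (tw K (m0 + 1)).G (q u) (q u') :=
    fun u u' h => choice_nr (K := K) (n := m0 + 1) (k := 6) hq u u' h
  have hb : rs (tw K (m0 + 7)).G D (pbk q (rs (tw K (m0 + 1)).G X (cmb A w))) ∈
      Z1 (tw K (m0 + 7)).G D :=
    pbk_mem ha (fun u u' h _ _ => hnr u u' h) (fun u hu => (hD u).1 hu (hq u))
  have h0 : Triv (tw K' N).G (p ⁻¹' D)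
      (pbk p (rs (tw K (m0 + 7)).G D (pbk q (rs (tw K (m0 + 1)).G X (cmb A w))))) := by
    refine h.congr fun x y e => ?_
    show cmb A w (q (p x)) (q (p y)) = rs (tw K (m0 + 7)).G D
      (pbk q (rs (tw K (m0 + 1)).G X (cmb A w))) (p x) (p y)
    rcases T.nr x y (Or.inr e.1) with h1 | h1
    · rw [h1, hd']
      exact (if_neg fun e' => e'.1.ne rfl).symm
    · rw [rs_apply (⟨h1, e.2.1, e.2.2⟩ : EIn (tw K (m0 + 7)).G D (p x) (p y))]
      show cmb A w (q (p x)) (q (p y)) = rs (tw K (m0 + 1)).G X (cmb A w) (q (p x)) (q (p y))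
      rcases hnr _ _ (Or.inr h1) with h2 | h2
      · rw [h2, hd']
        exact (if_neg fun e' => e'.1.ne rfl).symm
      · exact (rs_apply ⟨h2, (hD _).1 e.2.1 (hq _), (hD _).1 e.2.2 (hq _)⟩).symm
  have h2 := Triv_rs.1 (T.inj D _ hb h0)
  rw [hDe] at h2
  have h3 := (Triv_choice (K := K) (n := m0 + 1) (k := 6) hq ha subset_rfl).1 h2
  exact Triv_rs.1 h3

include hK T in
theorem lb_e (A : Ec (tw K m0).G → ZMod 2) (h : Triv (tw K' N).G (zB p) (cmb A (zwe p))) :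
    ∃ f : (tw K m0).V → ZMod 2, ∀ (e : Ec (tw K m0).G) (v w : (tw K m0).V), v ≠ w → v ∈ e.1 →
      w ∈ e.1 → A e = f v + f w := by
  have hD : ∀ u : PV K m0, u ∈ {u : PV K m0 | lS K m0 u = 0} ↔
      car K (m0 + 1) 6 u ⊆ Xs (tw K m0).G := by
    intro u
    constructor
    · intro h s hs
      by_contra h2
      have h3 : ¬ s.1.card ≤ 2 := h2
      have h4 := (lS_pos_iff u).2 ⟨s, (cbb_mem u s).1 hs, by omega⟩
      have h5 : lS K m0 u = 0 := h
      omega
    · intro h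
      exact cbb_S0 fun s hs => h ((cbb_mem u s).2 hs)
  have h1 : Triv (tw K' N).G (p ⁻¹' {u : PV K m0 | lS K m0 u = 0})
      (cmb A (fun e => pbk p (pbk mnc (weX e)))) := h.mono sub_thk
  have h2 := cbb_gen T (q := mnc) (fun u => (cbb_mem u _).2 (mnc_mem u)) hD (w := weX)
    cbb_we_sym cbb_we_dia (fun a b c e1 e2 e3 => by
      have k1 := cbb_adj e1.1
      have k2 := cbb_adj e2.1
      have k3 := cbb_adj e3.1
      have l1 : a.1.card ≤ 2 := e1.2.1
      have l2 : b.1.card ≤ 2 := e1.2.2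
      have l3 : c.1.card ≤ 2 := e2.2.2
      have p1 := Finset.card_pos.2 a.2.1
      have p2 := Finset.card_pos.2 b.2.1
      have p3 := Finset.card_pos.2 c.2.1
      omega) A h1
  obtain ⟨g, hg⟩ := h2
  refine ⟨fun v => g (vx (tw K m0).G v), fun e v w hvw hv hw => ?_⟩
  have key : ∀ v ∈ e.1, (if v = e0 e then A e else 0) = g (vx (tw K m0).G v) + g e.q := by
    intro v hv
    rw [← cbb_we_val]
    refine hg _ _ ⟨Or.inl (Cq.lt_iff.2 ⟨?_, fun h => ?_⟩), ?_, ?_⟩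
    · intro x hx
      rw [Finset.mem_singleton.1 hx]
      exact hv
    · have h3 := Finset.card_le_card h
      have h4 := cbb_ec e
      have h5 := cbb_vx (G := (tw K m0).G) v
      omega
    · show (vx (tw K m0).G v).1.card ≤ 2
      rw [cbb_vx]
      norm_num
    · exact (cbb_ec e).le
  have hm : ∀ v ∈ e.1, v = e0 e ∨ v = e1 e := by
    intro v hv
    rw [e1_eq e, Finset.mem_insert, Finset.mem_singleton] at hv
    exact hv
  have kv := key v hv
  have kw := key w hw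
  rcases hm v hv with h3 | h3
  · have h4 : w ≠ e0 e := fun h4 => hvw (h3.trans h4.symm)
    rw [if_pos h3] at kv
    rw [if_neg h4] at kw
    exact cbb_alg kv kw
  · have h4 : v ≠ e0 e := by
      rw [h3]
      exact e1_ne e
    have h5 : w = e0 e := (hm w hw).resolve_right fun h5 => hvw (h3.trans h5.symm)
    rw [if_neg h4] at kv
    rw [if_pos h5] at kw
    show A e = g (vx (tw K m0).G v) + g (vx (tw K m0).G w)
    rw [add_comm]
    exact cbb_alg kw kv

include hK T in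
theorem lb_s (A : Fc (tw K m0).G → ZMod 2) (h : Triv (tw K' N).G (zBs p) (cmb A (zws p))) :
    ∃ f : Te (tw K m0).G → ZMod 2, ∀ (s : Fc (tw K m0).G) (t t' : Te (tw K m0).G), t ≠ t' →
      s.1 ⊆ t.1 → s.1 ⊆ t'.1 → A s = f t + f t' := by
  have hD : ∀ u : PV K m0, u ∈ {u : PV K m0 | lS K m0 u = 64} ↔
      car K (m0 + 1) 6 u ⊆ (Xs (tw K m0).G)ᶜ := by
    intro u
    constructor
    · intro h s hs h2
      have h3 : s.1.card ≤ 2 := h2
      have h4 := (lS_lt_iff u).2 ⟨s, (cbb_mem u s).1 hs, h3⟩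
      have h5 : lS K m0 u = 64 := h
      omega
    · intro h
      refine cbb_S64 fun s hs => ?_
      have h2 : ¬ s.1.card ≤ 2 := h ((cbb_mem u s).2 hs)
      omega
  have h1 : Triv (tw K' N).G (p ⁻¹' {u : PV K m0 | lS K m0 u = 64})
      (cmb A (fun e => pbk p (pbk mxc (wsX e)))) := h.mono sub_thk
  have h2 := cbb_gen T (q := mxc) (fun u => (cbb_mem u _).2 (mxc_mem u)) hD (w := wsX)
    cbb_ws_sym (cbb_ws_dia hK) (fun a b c e1 e2 e3 => by
      have k1 := cbb_adj e1.1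
      have k2 := cbb_adj e2.1
      have k3 := cbb_adj e3.1
      have l1 : ¬ a.1.card ≤ 2 := e1.2.1
      have l2 : ¬ b.1.card ≤ 2 := e1.2.2
      have l3 : ¬ c.1.card ≤ 2 := e2.2.2
      have p1 := hK.k5 a.1 a.2.2
      have p2 := hK.k5 b.1 b.2.2
      have p3 := hK.k5 c.1 c.2.2
      omega) A h1
  obtain ⟨g, hg⟩ := h2
  refine ⟨fun t => g t.q, fun s t t' htt hst hst' => ?_⟩
  have key : ∀ t : Te (tw K m0).G, s.1 ⊆ t.1 →
      (if t.q = t0 s then A s else 0) = g t.q + g s.q := by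
    intro t ht
    rw [← cbb_ws_val, add_comm]
    refine hg _ _ ⟨Or.inl (Cq.lt_iff.2 ⟨ht, fun h => ?_⟩), ?_, ?_⟩
    · have h3 := Finset.card_le_card h
      have h4 := cbb_fc s
      have h5 := cbb_te t
      omega
    · intro h3
      have h4 : s.q.1.card ≤ 2 := h3
      have h5 := cbb_fc s
      omega
    · intro h3
      have h4 : t.q.1.card ≤ 2 := h3
      have h5 := cbb_te t
      omega
  obtain ⟨-, -, s3, s4⟩ := t1_spec hK s
  have kt := key t hst
  have kt' := key t' hst'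
  have hval : ∀ t : Te (tw K m0).G, t.q = t0 s ↔ t.1 = (t0 s).1 := fun t =>
    ⟨fun h => congrArg (fun a : Cq (tw K m0).G => a.1) h, fun h => Subtype.ext h⟩
  have htt' : t.1 ≠ t'.1 := fun h => htt (Subtype.ext h)
  rcases s4 t hst with h3 | h3
  · have h4 : ¬ t'.q = t0 s := by
      rw [hval]
      exact fun h4 => htt' (h3.trans h4.symm)
    rw [if_pos ((hval t).2 h3)] at kt
    rw [if_neg h4] at kt'
    exact cbb_alg kt kt'
  · have h4 : ¬ t.q = t0 s := by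
      rw [hval, h3]
      exact s3
    have h5 : t'.1 = (t0 s).1 := (s4 t' hst').resolve_right fun h5 => htt' (h3.trans h5.symm)
    rw [if_neg h4] at kt
    rw [if_pos ((hval t').2 h5)] at kt'
    show A s = g t.q + g t'.q
    rw [add_comm]
    exact cbb_alg kt' kt

/-- near a position in `D` there is a common simplex -/
private theorem cbb_com {x : (tw K' N).V} {D : Set (PV K m0)} (h : x ∈ Tk p D) :
    ∃ u ∈ D, Nr (tw K (m0 + 7)).G (p x) u ∧ ∃ σ ∈ MOT.cr K m0 (p x), σ ∈ MOT.cr K m0 u := by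
  obtain ⟨u, hu, hn⟩ := thk_sub h
  obtain ⟨c, hc, hc'⟩ := cr_inter _ _ hn
  obtain ⟨σ, hσ⟩ := c.2.1
  exact ⟨u, hu, hn, σ, ⟨c, hc, hσ⟩, c, hc', hσ⟩

private theorem cbb_topv {u : PV K m0} {v : (tw K m0).V} (h : mnc u = vx _ v) : topD u = v := by
  unfold topD
  rw [dif_neg, h]
  · exact Finset.mem_singleton.1 (pk_mem (vx (tw K m0).G v))
  · rintro ⟨e, he⟩
    have h1 := cbb_ec e
    rw [← he, h, cbb_vx] at h1
    omega

private theorem cbb_tope {u : PV K m0} {e : Ec (tw K m0).G} (h : mnc u = e.q) :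
    topD u = e1 e := by
  have hex : ∃ e : Ec (tw K m0).G, mnc u = e.q := ⟨e, h⟩
  unfold topD
  rw [dif_pos hex, cbb_einj (hex.choose_spec.symm.trans h)]

private theorem cbb_tts {u : PV K m0} {s : Fc (tw K m0).G} (h : mxc u = s.q) :
    ttD u = t1 s := by
  have hex : ∃ s : Fc (tw K m0).G, mxc u = s.q := ⟨s, h⟩
  unfold ttD
  rw [dif_pos hex, cbb_finj (hex.choose_spec.symm.trans h)]

private theorem cbb_ttt {u : PV K m0} (h : (mxc u).1.card = 4) : ttD u = (mxc u).1 := by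
  unfold ttD
  rw [dif_neg, if_pos h]
  rintro ⟨s, hs⟩
  rw [hs, cbb_fc] at h
  omega

include T in
theorem Lv_top (v) : ∀ x ∈ zLv p v, ztop p x = v ∧ vx (tw K m0).G v ∈ zcr p x := by
  intro x hx
  obtain ⟨u, hu, -, σ, h1, h2⟩ := cbb_com hx
  have h3 : σ = vx (tw K m0).G v := cbb_eq (hu σ h2) (by
    rw [cbb_vx]
    exact Finset.card_pos.2 σ.2.1)
  rw [h3] at h1
  have h4 : mnc (p x) = vx (tw K m0).G v := cbb_eq (mnc_le _ h1) (by
    rw [cbb_vx]
    exact Finset.card_pos.2 (mnc (p x)).2.1)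
  exact ⟨cbb_topv h4, h1⟩

include T in
theorem Le_top (e) : ∀ x ∈ zLe p e, ztop p x ∈ e.1 := by
  intro x hx
  obtain ⟨u, hu, -, σ, h1, h2⟩ := cbb_com hx
  have h3 : mnc (p x) ≤ e.q := (mnc_le _ h1).trans (hu σ h2)
  have h4 := cbb_le h3
  have h5 := Finset.card_pos.2 (mnc (p x)).2.1
  rw [cbb_ec] at h4
  show topD (p x) ∈ e.1
  rcases (by omega : (mnc (p x)).1.card = 1 ∨ (mnc (p x)).1.card = 2) with h6 | h6
  · obtain ⟨v, hv⟩ := Finset.card_eq_one.1 h6
    rw [cbb_topv (v := v) (Subtype.ext hv)]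
    apply Cq.le_iff.1 h3
    rw [hv]
    exact Finset.mem_singleton_self v
  · rw [cbb_tope (cbb_eq h3 (by rw [cbb_ec, h6])), e1_eq e]
    exact Finset.mem_insert_of_mem (Finset.mem_singleton_self _)

include hK T in
theorem Lt_tt (t) : ∀ x ∈ zLt p t, ztt p x = t.1 ∧ t.q ∈ zcr p x := by
  intro x hx
  obtain ⟨u, hu, -, σ, h1, h2⟩ := cbb_com hx
  have h3 : t.q = σ := cbb_eq (hu σ h2) (by
    rw [cbb_te]
    exact hK.k5 σ.1 σ.2.2)
  rw [← h3] at h1
  have h4 : t.q = mxc (p x) := cbb_eq (le_mxc _ h1) (by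
    rw [cbb_te]
    exact hK.k5 (mxc (p x)).1 (mxc (p x)).2.2)
  refine ⟨?_, h1⟩
  show ttD (p x) = t.1
  rw [cbb_ttt (by rw [← h4]; exact cbb_te t), ← h4]
  rfl

include hK T in
theorem Ls_tt (s) : ∀ x ∈ zLs p s, s.1 ⊆ ztt p x := by
  intro x hx
  obtain ⟨u, hu, -, σ, h1, h2⟩ := cbb_com hx
  have h3 : s.q ≤ mxc (p x) := (hu σ h2).trans (le_mxc _ h1)
  have h4 := cbb_le h3
  have h5 := hK.k5 (mxc (p x)).1 (mxc (p x)).2.2
  rw [cbb_fc] at h4
  show s.1 ⊆ ttD (p x)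
  rcases (by omega : (mxc (p x)).1.card = 3 ∨ (mxc (p x)).1.card = 4) with h6 | h6
  · rw [cbb_tts (cbb_eq h3 (by rw [cbb_fc, h6])).symm]
    exact (t1_spec hK s).2.1
  · rw [cbb_ttt h6]
    exact Cq.le_iff.1 h3

theorem Lv_Le (v) (e : Ec (tw K m0).G) (h : v ∈ e.1) : zLv p v ⊆ zLe p e := by
  refine thk_mono fun u hu τ hτ => (hu τ hτ).trans ?_
  rw [Cq.le_iff]
  intro x hx
  rw [Finset.mem_singleton.1 hx]
  exact h

theorem Lt_Ls (t : Te (tw K m0).G) (s : Fc (tw K m0).G) (h : s.1 ⊆ t.1) :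
    zLt p t ⊆ zLs p s := by
  refine thk_mono fun u hu τ hτ => le_trans ?_ (hu τ hτ)
  exact Cq.le_iff.2 h

theorem Le_B (e) : zLe p e ⊆ zB p := by
  refine thk_mono fun u hu => cbb_S0 fun τ hτ => ?_
  have := cbb_le (hu τ hτ)
  rwa [cbb_ec] at this

theorem Ls_Bs (s) : zLs p s ⊆ zBs p := by
  refine thk_mono fun u hu => cbb_S64 fun τ hτ => ?_
  have := cbb_le (hu τ hτ)
  rwa [cbb_fc] at this

/-- walk inside the star of `v` -/
private theorem cbb_far (T : Tra (tw K (m0 + 7)).G (tw K' N).G p) (Z : Set (tw K m0).V)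
    {x y : (tw K' N).V} {v : (tw K m0).V} (hv : v ∉ nb (tw K m0).G Z)
    (hx : ∀ τ ∈ MOT.cr K m0 (p x), v ∈ τ.1) (hy : ∀ τ ∈ MOT.cr K m0 (p y), v ∈ τ.1) :
    Relation.ReflTransGen
      (EIn (tw K' N).G {z | ∀ s ∈ zcr p z, ¬ (s.1 : Set (tw K m0).V) ⊆ Z}) x y := by
  refine rtg_mono ?_ (T.conn (nb (tw K (m0 + 7)).G {u : PV K m0 | ∀ τ ∈ MOT.cr K m0 u, v ∈ τ.1})
    {u : PV K m0 | ∀ τ ∈ MOT.cr K m0 u, v ∈ τ.1} subset_rfl (star_conn v) x y hx hy)
  rintro z ⟨u, hu, hn⟩ s hs hsZ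
  obtain ⟨σ, hσ⟩ := MOT.cr_ne (K := K) (m0 := m0) u
  have hvσ := hu σ hσ
  rcases (cr_nr hn).total (Or.inl hs) (Or.inr hσ) with h1 | h1
  · obtain ⟨w, hw⟩ := s.2.1
    have hwσ := Cq.le_iff.1 h1 hw
    refine hv ⟨w, hsZ (Finset.mem_coe.2 hw), ?_⟩
    by_cases hvw : v = w
    · exact Or.inl hvw
    · exact Or.inr (σ.2.2 (Finset.mem_coe.2 hvσ) (Finset.mem_coe.2 hwσ) hvw)
  · exact hv (sub_nb (hsZ (Finset.mem_coe.2 (Cq.le_iff.1 h1 hvσ))))

private theorem cbb_far0 (Z : Set (tw K m0).V) (x : (tw K' N).V)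
    (h : ∀ s ∈ zcr p x, ¬ (s.1 : Set (tw K m0).V) ⊆ nb (tw K m0).G Z) :
    ∃ v, v ∉ nb (tw K m0).G Z ∧ ∀ τ ∈ MOT.cr K m0 (p x), v ∈ τ.1 := by
  obtain ⟨v, hv, hvZ⟩ := Set.not_subset.1 (h (mnc (p x)) (mnc_mem (p x)))
  exact ⟨v, hvZ, fun τ hτ => Cq.le_iff.1 (mnc_le _ hτ) (Finset.mem_coe.1 hv)⟩

include T in
theorem far_B (Z : Set (tw K m0).V) (x : (tw K' N).V)
    (h : ∀ s ∈ zcr p x, ¬ (s.1 : Set (tw K m0).V) ⊆ nb (tw K m0).G Z) :
    ∃ y ∈ zB p, Relation.ReflTransGen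
      (EIn (tw K' N).G {z | ∀ s ∈ zcr p z, ¬ (s.1 : Set (tw K m0).V) ⊆ Z}) x y := by
  obtain ⟨v, hv, hx⟩ := cbb_far0 Z x h
  obtain ⟨u, hu⟩ := pos_ex (K := K) (vx (tw K m0).G v)
  obtain ⟨y, rfl⟩ := T.surj u
  refine ⟨y, sub_thk ?_, cbb_far T Z hv hx fun τ hτ => ?_⟩
  · refine cbb_S0 fun s hs => ?_
    rw [hu] at hs
    rw [Set.mem_singleton_iff.1 hs, cbb_vx]
    norm_num
  · rw [hu] at hτ
    rw [Set.mem_singleton_iff.1 hτ]
    exact Finset.mem_singleton_self v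

include hK T in
theorem far_Bs (Z : Set (tw K m0).V) (x : (tw K' N).V)
    (h : ∀ s ∈ zcr p x, ¬ (s.1 : Set (tw K m0).V) ⊆ nb (tw K m0).G Z) :
    ∃ y ∈ zBs p, Relation.ReflTransGen
      (EIn (tw K' N).G {z | ∀ s ∈ zcr p z, ¬ (s.1 : Set (tw K m0).V) ⊆ Z}) x y := by
  obtain ⟨v, hv, hx⟩ := cbb_far0 Z x h
  -- a tetrahedron at `v`
  obtain ⟨w, hw⟩ := (hK.vert v).1.1
  have hvw : (tw K m0).G.Adj v w := hw v rfl
  obtain ⟨s, hs⟩ := ex_tri hK (⟨(eg (tw K m0).G hvw).1, Finset.card_pair hvw.ne,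
    (eg (tw K m0).G hvw).2.2⟩ : Ec (tw K m0).G)
  have hvs : v ∈ s.1 := hs (Finset.mem_insert_self v {w})
  obtain ⟨h1, h2⟩ := t0_spec hK s
  obtain ⟨u, hu⟩ := pos_ex (K := K) (t0 s)
  obtain ⟨y, rfl⟩ := T.surj u
  refine ⟨y, sub_thk ?_, cbb_far T Z hv hx fun τ hτ => ?_⟩
  · refine cbb_S64 fun s hs => ?_
    rw [hu] at hs
    rw [Set.mem_singleton_iff.1 hs, h1.1]
    norm_num
  · rw [hu] at hτ
    rw [Set.mem_singleton_iff.1 hτ]
    exact h2 hvs

/-- the structure `Base` on level `N` of the range -/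
def mkBase : Base (tw K m0).G (tw K' N).G where
  B := zB p
  Bs := zBs p
  cr := zcr p
  top := ztop p
  tt := ztt p
  we := zwe p
  ws := zws p
  Bde := zBde p
  Bd := zBd p
  Lv := zLv p
  Le := zLe p
  Lt := zLt p
  Ls := zLs p
  cB := by
    have h := thk_conn T (lo_conn hK 0 (by norm_num))
    simp only [Nat.le_zero] at h
    exact h
  cBs := by
    have h := thk_conn T (hi_conn hK 64 (by norm_num) le_rfl)
    have e : {u : PV K m0 | 64 ≤ lS K m0 u} = {u | lS K m0 u = 64} := by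
      ext u; exact ⟨fun h => le_antisymm (lS_le u) h, fun h => le_of_eq (Eq.symm h)⟩
    rwa [e] at h
  nBB := by
    intro x hx y hy e
    have h1 := B_lS hx
    have h2 := Bs_lS hy
    have h3 := near_lS T (Or.inr e.symm)
    omega
  dBB := by
    refine Set.disjoint_left.2 fun x hx hy => ?_
    have h1 := B_lS hx
    have h2 := Bs_lS hy
    omega
  BL := zBL p
  BsL := zBsL p
  cBL := thk_conn T (lo_conn hK 15 (by norm_num))
  cBsL := thk_conn T (hi_conn hK 49 (by norm_num) (by norm_num))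
  B_BL := thk_mono fun u hu => by
    have : lS K m0 u = 0 := hu
    show lS K m0 u ≤ 15
    omega
  Bs_BsL := thk_mono fun u hu => by
    have : lS K m0 u = 64 := hu
    show 49 ≤ lS K m0 u
    omega
  dBL := dBL T
  nBL := nBL T
  B_nb x hx y hxy := sub_thk (D := {u | lS K m0 u ≤ 15}) (by
    have h1 := B_lS hx
    have h2 := near_lS T hxy.symm
    show lS K m0 (p y) ≤ 15
    omega)
  Bs_nb x hx y hxy := sub_thk (D := {u | 49 ≤ lS K m0 u}) (by
    have h1 := Bs_lS hx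
    have h2 := near_lS T hxy
    show 49 ≤ lS K m0 (p y)
    omega)
  cr_ne x := cr_ne (p x)
  cr_chain := cr_chain T
  cr_top := cr_top T
  cr_tt := cr_tt hK T
  top_cl := top_cl T
  tt_cl := tt_cl hK T
  we_def := we_def T
  ws_def := ws_def hK T
  we_coc := we_coc T
  ws_coc := ws_coc hK T
  Bde_sub := Bde_sub T
  Bd_sub := Bd_sub T
  lb_e := lb_e hK T
  lb_s := lb_s hK T
  Lv_c v := thk_conn T (bel_conn _)
  Le_c e := thk_conn T (bel_conn _)
  Lt_c t := thk_conn T (abv_conn _)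
  Ls_c s := thk_conn T (abv_conn _)
  Lv_top := Lv_top T
  Le_top := Le_top T
  Lt_tt := Lt_tt hK T
  Ls_tt := Ls_tt hK T
  Lv_Le v e h := Lv_Le v e h
  Lt_Ls t s h := Lt_Ls t s h
  Le_B := Le_B
  Ls_Bs := Ls_Bs
  far_B := far_B T
  far_Bs := far_Bs hK T

end MOT.Cb
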