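import Pool.Agent.MOT.DmB

/-!
# MOT/DmC: the discs `R1 e` (dual to the edge `e`) and `D1 s` (the triangle `s`) on level `m0+2` (helper82)

`R1 e = {c | e ∈ c, e smallest}` has the least element `{e}` (`bot_Conn`, `bot_HZ`); the complement is
`{c | e ∉ c or e is not the smallest element of c}`; `c ↦ c \ {e}` is a monotone retraction `≤ id` onto
`{c | e ∉ c} = mi (sd Gc) {e}ᶜ` (nonempty: a smaller element stays), connected with `HZ` (`sph_compl_vertex`,
`sd_sph3`).  The same for `D1 s` (largest instead of smallest).  Both hold for every simplex `e`, `s` of `Gc`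
which is not a vertex resp. not a tetrahedron; stated for all simplices: for a vertex `e` the complement of
`R1 e` is `{c | e ∉ c}`, so the statement is true as well.
-/

open Classical

noncomputable section

namespace MOT

variable {Vc : Type} {Gc : SimpleGraph Vc}

private theorem vx_le {e : Cq Gc} {c : Cq (sd Gc)} (h : e ∈ c.1) : vx (sd Gc) e ≤ c :=
  Cq.le_iff.2 (Finset.singleton_subset_iff.2 h)

private theorem vx_R1 (e : Cq Gc) : vx (sd Gc) e ∈ R1 Gc e :=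
  ⟨Finset.mem_singleton_self e, fun s hs => by rw [Finset.mem_singleton.1 hs]⟩

private theorem vx_D1 (e : Cq Gc) : vx (sd Gc) e ∈ D1 Gc e :=
  ⟨Finset.mem_singleton_self e, fun s hs => by rw [Finset.mem_singleton.1 hs]⟩

/-- remove `e` from a chain -/
private def er (e : Cq Gc) (c : Cq (sd Gc)) : Cq (sd Gc) :=
  if h : (c.1.erase e).Nonempty then
    ⟨c.1.erase e, h, c.2.2.subset (fun _ hx => Finset.mem_of_mem_erase hx)⟩
  else c

private theorem er_val {e : Cq Gc} {c : Cq (sd Gc)} (h : (c.1.erase e).Nonempty) :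
    (er e c).1 = c.1.erase e := by
  unfold er
  rw [dif_pos h]

private theorem compl_gen [Finite Vc] (h : IsSph3 Gc) (e : Cq Gc) {S : Set (Cq (sd Gc))}
    (h1 : ∀ c : Cq (sd Gc), e ∉ c.1 → c ∈ S)
    (h2 : ∀ c ∈ S, e ∈ c.1 → ∃ s ∈ c.1, s ≠ e) :
    Conn (sd (sd Gc)) S ∧ HZ (sd (sd Gc)) S := by
  have hne : ∀ c ∈ S, (c.1.erase e).Nonempty := by
    intro c hc
    by_cases he : e ∈ c.1
    · obtain ⟨s, hs, hse⟩ := h2 c hc he
      exact ⟨s, Finset.mem_erase.2 ⟨hse, hs⟩⟩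
    · rw [Finset.erase_eq_of_notMem he]; exact c.2.1
  have k1 : mi (sd Gc) {e}ᶜ ⊆ S := fun c hc => h1 c fun he => hc e he rfl
  have k2 : ∀ c ∈ S, er e c ∈ mi (sd Gc) {e}ᶜ := by
    intro c hc x hx
    rw [er_val (hne c hc)] at hx
    exact Finset.ne_of_mem_erase hx
  have k3 : ∀ c ∈ S, er e c ≤ c := by
    intro c hc
    rw [Cq.le_iff, er_val (hne c hc)]
    exact Finset.erase_subset e c.1
  have k4 : ∀ x ∈ S, ∀ y ∈ S, x ≤ y → er e x ≤ er e y := by
    intro x hx y hy hxy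
    rw [Cq.le_iff, er_val (hne x hx), er_val (hne y hy)]
    exact Finset.erase_subset_erase e hxy
  have k5 : ∀ x ∈ mi (sd Gc) {e}ᶜ, er e x = x := by
    intro x hx
    have hx' : e ∉ x.1 := fun he => hx e he rfl
    refine Subtype.ext ?_
    rw [er_val (hne x (k1 hx)), Finset.erase_eq_of_notMem hx']
  have hs := sph_compl_vertex (sd_sph3 h) e
  exact ⟨(ret_Conn (er e) k1 k2 k3 k4).2 (sd_Conn.2 hs.1),
    (ret_HZ (er e) k1 k2 k3 k4 k5).2 (sd_HZ.2 hs.2)⟩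

theorem R1_Conn (e : Cq Gc) : Conn (sd (sd Gc)) (R1 Gc e) :=
  bot_Conn (vx_R1 e) fun _ hc => vx_le hc.1

theorem R1_HZ (e : Cq Gc) : HZ (sd (sd Gc)) (R1 Gc e) :=
  bot_HZ (vx_R1 e) fun _ hc => vx_le hc.1

theorem R1_compl [Finite Vc] (h : IsSph3 Gc) (e : Cq Gc) :
    Conn (sd (sd Gc)) (R1 Gc e)ᶜ ∧ HZ (sd (sd Gc)) (R1 Gc e)ᶜ := by
  refine compl_gen h e (fun c hc h' => hc h'.1) fun c hc he => ?_
  by_contra h3
  push Not at h3
  exact hc ⟨he, fun s hs => by rw [h3 s hs]⟩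

theorem D1_Conn (s : Cq Gc) : Conn (sd (sd Gc)) (D1 Gc s) :=
  bot_Conn (vx_D1 s) fun _ hc => vx_le hc.1

theorem D1_HZ (s : Cq Gc) : HZ (sd (sd Gc)) (D1 Gc s) :=
  bot_HZ (vx_D1 s) fun _ hc => vx_le hc.1

theorem D1_compl [Finite Vc] (h : IsSph3 Gc) (s : Cq Gc) :
    Conn (sd (sd Gc)) (D1 Gc s)ᶜ ∧ HZ (sd (sd Gc)) (D1 Gc s)ᶜ := by
  refine compl_gen h s (fun c hc h' => hc h'.1) fun c hc he => ?_
  by_contra h3
  push Not at h3
  exact hc ⟨he, fun u hu => by rw [h3 u hu]⟩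

theorem R1_bb [Finite Vc] (h : IsSph3 Gc) (e : Cq Gc) : bb (sd (sd Gc)) (R1 Gc e) = 0 := by
  unfold bb
  rw [b1_eq_zero.2 (R1_HZ e), b1_eq_zero.2 (R1_compl h e).2]

theorem D1_bb [Finite Vc] (h : IsSph3 Gc) (s : Cq Gc) : bb (sd (sd Gc)) (D1 Gc s) = 0 := by
  unfold bb
  rw [b1_eq_zero.2 (D1_HZ s), b1_eq_zero.2 (D1_compl h s).2]

end MOT
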