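import Pool.Agent.MOT.CbB
import Pool.Agent.MOT.DmA
import Pool.Agent.MOT.DmC

/-!
# MOT/CbC: the regions from THIN (helper82)

`TD p` = regions `M0`, `We e`, `Ue e`, `Ud s` of level `N` of the range given by `thin_dom` for `Xs` (level `m0+1`,
`k = 6`), `V2 e`, `PR e`, `PD s` (level `m0+3`, `k = 4`), with their position in terms of the level functions
`lS`, `lV`, `lU`, `lD` of the domain.

(td_ex) `thin_dom` for finitely many sets (`Finite (Ec _)`, `Finite (Fc _)`: take the maximum of the levels `N0`), `dn_ex` for `p`.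
Hypotheses of `thin_dom`: DmA (`Xs_Conn`, `Xs_compl_Conn`, `b1_Xs`, `b1_Xs_compl`), DmB (`V1_...`) with `sd_Conn`,
`compl_mi`, `bt_bb` for `V2 = mi V1`, DmC (`R1_...`, `D1_...`) with `bt_Conn`, `bt_bb` for `PR = pl R1`, `PD = pl D1`.
The constants: `2 ^ 5 = 32`: in for `lS ≤ 28`, out for `36 ≤ lS`; `2 ^ 3 = 8`: in for `l ≤ 4`, out for `12 ≤ l`.

(location) all functions `lS`, `lV`, `lU`, `lD` change by at most one between adjacent vertices (`near_lS` etc.,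
`lV_lip` ...); two edges (two vertices, two triangles) in a chain are equal (`cr_chain`).
(loc0) a clique mixed for `M0` has `28 ≤ lS ≤ 36` on all vertices; `d4`.
(curve_U) `e' ≠ e`: if `Q` meets `Ue e'` then `e.q`, `e'.q ∈ cr x` for some `x`; `e' = e`: if `Q` meets `Ue e` and its complement then
`4 ≤ lU ≤ 12` on `Q`, `d3U`: `|lS - 32| = lV` on `Q`; a vertex outside `We e` has `lV ≥ 5`, a vertex in `M0` has `lS ≤ 35`, a vertex outside
`M0` has `lS ≥ 29`: contradiction.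
(rim_e) `ws_R2` with `j = 25`: `lS = 51`, `lU = 3` by `r2_lU`, `tra_non`; (rim_s) `we_D2` with `j = 6`: `lS = 13`, `lD = 3`.
-/

open Classical

noncomputable section

namespace MOT.Cb

variable {K K' : Lv} {m0 N : ℕ}

/-- regions of level `N` of the range from THIN -/
structure TD (p : (tw K' N).V → PV K m0) where
  M0 : Set (tw K' N).V
  We : Ec (tw K m0).G → Set (tw K' N).V
  Ue : Ec (tw K m0).G → Set (tw K' N).V
  Ud : Fc (tw K m0).G → Set (tw K' N).V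
  M0_c : Conn (tw K' N).G M0
  M0_cc : Conn (tw K' N).G M0ᶜ
  M0_bb : bb (tw K' N).G M0 ≤ bb (sd (tw K m0).G) (Xs (tw K m0).G)
  M0_in : ∀ x, lS K m0 (p x) ≤ 28 → x ∈ M0
  M0_out : ∀ x, 36 ≤ lS K m0 (p x) → x ∉ M0
  We_c : ∀ e, Conn (tw K' N).G (We e)
  We_cc : ∀ e, Conn (tw K' N).G (We e)ᶜ
  We_bb : ∀ e, bb (tw K' N).G (We e) ≤ 2
  We_in : ∀ e x, lV K m0 e.q (p x) ≤ 4 → x ∈ We e
  We_out : ∀ e x, 12 ≤ lV K m0 e.q (p x) → x ∉ We e
  Ue_c : ∀ e, Conn (tw K' N).G (Ue e)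
  Ue_cc : ∀ e, Conn (tw K' N).G (Ue e)ᶜ
  Ue_bb : ∀ e, bb (tw K' N).G (Ue e) = 0
  Ue_in : ∀ e x, lU K m0 e.q (p x) ≤ 4 → x ∈ Ue e
  Ue_out : ∀ e x, 12 ≤ lU K m0 e.q (p x) → x ∉ Ue e
  Ud_c : ∀ s, Conn (tw K' N).G (Ud s)
  Ud_cc : ∀ s, Conn (tw K' N).G (Ud s)ᶜ
  Ud_bb : ∀ s, bb (tw K' N).G (Ud s) = 0
  Ud_in : ∀ s x, lD K m0 s.q (p x) ≤ 4 → x ∈ Ud s
  Ud_out : ∀ s x, 12 ≤ lD K m0 s.q (p x) → x ∉ Ud s

private theorem cbc_one (P : Pair K K') (hK : IsSph3 K.G) (hK' : IsSph3 K'.G) (m0 : ℕ)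
    (M : Set (tw K (m0 + 3)).V) (r : ℕ) (h1 : Conn (tw K (m0 + 3)).G M)
    (h2 : Conn (tw K (m0 + 3)).G Mᶜ) (h3 : bb (tw K (m0 + 3)).G M ≤ r) :
    ∃ N0 : ℕ, ∀ N : ℕ, N0 ≤ N → ∃ R : Set (tw K' N).V,
      Conn (tw K' N).G R ∧ Conn (tw K' N).G Rᶜ ∧ bb (tw K' N).G R ≤ r ∧
      ∀ (x : (tw K' N).V) (u : PV K m0), P.dn N (m0 + 7) x u →
        (lN K (m0 + 3) (ind M) 4 u ≤ 4 → x ∈ R) ∧
        (12 ≤ lN K (m0 + 3) (ind M) 4 u → x ∉ R) := by
  obtain ⟨N0, hN0⟩ := thin_dom P hK hK' (m0 + 3) 4 le_rfl M r h1 h2 h3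
  refine ⟨N0, fun N hN => ?_⟩
  obtain ⟨R, r1, r2, r3, r4⟩ := hN0 N hN
  refine ⟨R, r1, r2, r3, fun x u hxu => ?_⟩
  obtain ⟨a, b⟩ := r4 x u hxu
  norm_num at a b
  constructor
  · intro h
    exact a (by omega)
  · intro h
    exact b (by omega)

theorem td_ex (P : Pair K K') (hK : IsSph3 K.G) (hK' : IsSph3 K'.G) (m0 : ℕ) :
    ∃ N0, ∀ N, N0 ≤ N → ∃ p : (tw K' N).V → PV K m0, (∀ x, P.dn N (m0 + 7) x (p x)) ∧
      Nonempty (TD p) := by
  have hG : IsSph3 (tw K m0).G := tw_sph3 K hK m0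
  obtain ⟨NM, hM⟩ := thin_dom P hK hK' (m0 + 1) 6 (by norm_num) (Xs (tw K m0).G)
    (bb (sd (tw K m0).G) (Xs (tw K m0).G)) (Xs_Conn hG) (Xs_compl_Conn hG) le_rfl
  have hW : ∀ e : Ec (tw K m0).G, _ := fun e =>
    cbc_one P hK hK' m0 (V2 (tw K m0).G e.q) 2 (sd_Conn.2 (V1_Conn hG e)) (by
      have h6 : Conn (sd (sd (sd (tw K m0).G))) (V2 (tw K m0).G e.q)ᶜ := by
        unfold V2
        rw [compl_mi]
        exact (bt_Conn (M := (V1 (tw K m0).G e.q)ᶜ) mi_sub_pl subset_rfl).2 (V1_compl_Conn hG e)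
      exact h6) (by
      have h6 : bb (sd (sd (sd (tw K m0).G))) (V2 (tw K m0).G e.q) =
          bb (sd (sd (tw K m0).G)) (V1 (tw K m0).G e.q) := bt_bb subset_rfl mi_sub_pl
      have h7 := V1_b1 hG e
      have h8 := V1_compl_b1 hG e
      have h9 : bb (sd (sd (tw K m0).G)) (V1 (tw K m0).G e.q) ≤ 2 := by
        unfold bb
        omega
      exact h6.le.trans h9)
  have hU : ∀ e : Ec (tw K m0).G, _ := fun e =>
    cbc_one P hK hK' m0 (PR (tw K m0).G e.q) 0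
      ((bt_Conn (M := R1 (tw K m0).G e.q) mi_sub_pl subset_rfl).2 (R1_Conn e.q)) (by
      have h6 : Conn (sd (sd (sd (tw K m0).G))) (PR (tw K m0).G e.q)ᶜ := by
        unfold PR
        rw [compl_pl]
        exact sd_Conn.2 (R1_compl hG e.q).1
      exact h6) (by
      have h6 : bb (sd (sd (sd (tw K m0).G))) (PR (tw K m0).G e.q) =
          bb (sd (sd (tw K m0).G)) (R1 (tw K m0).G e.q) := bt_bb mi_sub_pl subset_rfl
      exact (h6.trans (R1_bb hG e.q)).le)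
  have hD : ∀ s : Fc (tw K m0).G, _ := fun s =>
    cbc_one P hK hK' m0 (PD (tw K m0).G s.q) 0
      ((bt_Conn (M := D1 (tw K m0).G s.q) mi_sub_pl subset_rfl).2 (D1_Conn s.q)) (by
      have h6 : Conn (sd (sd (sd (tw K m0).G))) (PD (tw K m0).G s.q)ᶜ := by
        unfold PD
        rw [compl_pl]
        exact sd_Conn.2 (D1_compl hG s.q).1
      exact h6) (by
      have h6 : bb (sd (sd (sd (tw K m0).G))) (PD (tw K m0).G s.q) =
          bb (sd (sd (tw K m0).G)) (D1 (tw K m0).G s.q) := bt_bb mi_sub_pl subset_rfl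
      exact (h6.trans (D1_bb hG s.q)).le)
  choose NW hW' using hW
  choose NU hU' using hU
  choose ND hD' using hD
  obtain ⟨BW, hBW⟩ := (Set.finite_range NW).bddAbove
  obtain ⟨BU, hBU⟩ := (Set.finite_range NU).bddAbove
  obtain ⟨BD, hBD⟩ := (Set.finite_range ND).bddAbove
  obtain ⟨Np, hNp⟩ := P.dn_ex (m0 + 7)
  refine ⟨max (max NM Np) (max BW (max BU BD)), fun N hN => ?_⟩
  have e1 : NM ≤ N := (le_max_left _ _).trans ((le_max_left _ _).trans hN)
  have e2 : Np ≤ N := (le_max_right _ _).trans ((le_max_left _ _).trans hN)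
  have e3 : ∀ e, NW e ≤ N := fun e =>
    (hBW (Set.mem_range_self e)).trans ((le_max_left _ _).trans ((le_max_right _ _).trans hN))
  have e4 : ∀ e, NU e ≤ N := fun e => (hBU (Set.mem_range_self e)).trans
    ((le_max_left _ _).trans ((le_max_right _ _).trans ((le_max_right _ _).trans hN)))
  have e5 : ∀ s, ND s ≤ N := fun s => (hBD (Set.mem_range_self s)).trans
    ((le_max_right _ _).trans ((le_max_right _ _).trans ((le_max_right _ _).trans hN)))
  choose p hp using hNp N e2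
  obtain ⟨RM, m1, m2, m3, m4⟩ := hM N e1
  choose RW w1 w2 w3 w4 using fun e => hW' e N (e3 e)
  choose RU u1 u2 u3 u4 using fun e => hU' e N (e4 e)
  choose RD d1 d2 d3 d4 using fun s => hD' s N (e5 s)
  refine ⟨p, hp, ⟨⟨RM, RW, RU, RD, m1, m2, m3, fun x h => ?_, fun x h => ?_, w1, w2, w3,
    fun e x h => (w4 e x (p x) (hp x)).1 h, fun e x h => (w4 e x (p x) (hp x)).2 h, u1, u2,
    fun e => Nat.le_zero.mp (u3 e), fun e x h => (u4 e x (p x) (hp x)).1 h,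
    fun e x h => (u4 e x (p x) (hp x)).2 h, d1, d2, fun s => Nat.le_zero.mp (d3 s),
    fun s x h => (d4 s x (p x) (hp x)).1 h, fun s x h => (d4 s x (p x) (hp x)).2 h⟩⟩⟩
  · have h1 := (m4 x (p x) (hp x)).1
    norm_num at h1
    have h2 : lN K (m0 + 1) (ind (Xs (tw K m0).G)) 6 (p x) ≤ 28 := h
    exact h1 (by omega)
  · have h1 := (m4 x (p x) (hp x)).2
    norm_num at h1
    have h2 : 36 ≤ lN K (m0 + 1) (ind (Xs (tw K m0).G)) 6 (p x) := h
    exact h1 (by omega)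

variable {p : (tw K' N).V → PV K m0}
variable (hK : IsSph3 (tw K m0).G) (T : Tra (tw K (m0 + 7)).G (tw K' N).G p) (X : TD p)

include hK in
theorem M0_bb : bb (tw K' N).G X.M0 + Nat.card (tw K m0).V + Nat.card (Te (tw K m0).G) ≤
    Nat.card (Ec (tw K m0).G) + Nat.card (Fc (tw K m0).G) + 2 := by
  have h1 := X.M0_bb
  have h2 := b1_Xs hK
  have h3 := b1_Xs_compl hK
  have h4 : bb (sd (tw K m0).G) (Xs (tw K m0).G) = b1 (sd (tw K m0).G) (Xs (tw K m0).G) +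
      b1 (sd (tw K m0).G) (Xs (tw K m0).G)ᶜ := rfl
  omega

theorem M0_B : zBL p ⊆ X.M0 := fun x hx => X.M0_in x (by
  have := BL_lS hx
  omega)

theorem M0_Bs : Disjoint X.M0 (zBsL p) := Set.disjoint_left.2 fun x hx hx' =>
  X.M0_out x (by
    have := BsL_lS hx'
    omega) hx

private theorem cbc_eq {V : Type} {G : SimpleGraph V} {a b : Cq G} (h : a ≤ b ∨ b ≤ a)
    (hc : a.1.card = b.1.card) : a = b := by
  rcases h with h | h
  · exact Subtype.ext (Finset.eq_of_subset_of_card_le (Cq.le_iff.1 h) hc.ge)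
  · exact (Subtype.ext (Finset.eq_of_subset_of_card_le (Cq.le_iff.1 h) hc.le)).symm

private theorem cbc_qE {e e' : Ec (tw K m0).G} (h : e.q = e'.q) : e = e' := by
  have h1 : e.q.1 = e'.q.1 := by rw [h]
  exact Subtype.ext h1

private theorem cbc_qF {e e' : Fc (tw K m0).G} (h : e.q = e'.q) : e = e' := by
  have h1 : e.q.1 = e'.q.1 := by rw [h]
  exact Subtype.ext h1

private theorem cbc_E {u : PV K m0} {e e' : Ec (tw K m0).G} (h : e.q ∈ MOT.cr K m0 u)
    (h' : e'.q ∈ MOT.cr K m0 u) : e = e' :=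
  cbc_qE (cbc_eq ((MOT.cr_chain u).total h h') (e.2.1.trans e'.2.1.symm))

private theorem cbc_F {u : PV K m0} {e e' : Fc (tw K m0).G} (h : e.q ∈ MOT.cr K m0 u)
    (h' : e'.q ∈ MOT.cr K m0 u) : e = e' :=
  cbc_qF (cbc_eq ((MOT.cr_chain u).total h h') (e.2.1.trans e'.2.1.symm))

/-- levels near a region -/
private theorem cbc_We {e} {x : (tw K' N).V} (hx : x ∈ X.We e) : lV K m0 e.q (p x) ≤ 11 := by
  by_contra h
  exact X.We_out e x (by omega) hx

private theorem cbc_Ue {e} {x : (tw K' N).V} (hx : x ∈ X.Ue e) : lU K m0 e.q (p x) ≤ 11 := by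
  by_contra h
  exact X.Ue_out e x (by omega) hx

private theorem cbc_Ud {s} {x : (tw K' N).V} (hx : x ∈ X.Ud s) : lD K m0 s.q (p x) ≤ 11 := by
  by_contra h
  exact X.Ud_out s x (by omega) hx

include T in
private theorem cbc_We' {e} {x y : (tw K' N).V} (hx : x ∈ X.We e) (h : Nr (tw K' N).G x y) :
    lV K m0 e.q (p y) ≤ 12 := by
  have h1 := cbc_We X hx
  have h2 := lV_lip e.q (p y) (p x) (T.nr _ _ h).symm
  omega

include T in
private theorem cbc_Ue' {e} {x y : (tw K' N).V} (hx : x ∈ X.Ue e) (h : Nr (tw K' N).G x y) :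
    lU K m0 e.q (p y) ≤ 12 := by
  have h1 := cbc_Ue X hx
  have h2 := lU_lip e.q (p y) (p x) (T.nr _ _ h).symm
  omega

include T in
private theorem cbc_Ud' {s} {x y : (tw K' N).V} (hx : x ∈ X.Ud s) (h : Nr (tw K' N).G x y) :
    lD K m0 s.q (p y) ≤ 12 := by
  have h1 := cbc_Ud X hx
  have h2 := lD_lip s.q (p y) (p x) (T.nr _ _ h).symm
  omega

/-- disjoint and not adjacent -/
private theorem cbc_dis {V : Type} {G : SimpleGraph V} {A B : Set V}
    (h : ∀ x ∈ A, ∀ y, Nr G x y → y ∉ B) : Disjoint A B ∧ NAdj G A B :=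
  ⟨Set.disjoint_left.2 fun x hx => h x hx x (Nr.refl x), fun x hx y hy e =>
    h x hx y (Or.inr e) hy⟩

include T in
theorem Wt_cr (e) : ∀ x ∈ X.We e, ∀ y, Nr (tw K' N).G x y → e.q ∈ zcr p y ∧ e.q < mxc (p y) := by
  intro x hx y h
  have h1 := cbc_We' T X hx h
  exact ⟨d5V e.q (p y) (by omega), lV_mxc e (p y) (by omega)⟩

include T in
theorem Wt_dis (e e') (h : e ≠ e') :
    Disjoint (X.We e) (X.We e') ∧ NAdj (tw K' N).G (X.We e) (X.We e') :=
  cbc_dis fun x hx y hn hy =>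
    h (cbc_E (Wt_cr T X e x hx y hn).1 (Wt_cr T X e' y hy y (Nr.refl y)).1)

include T in
theorem Wt_B (e) : Disjoint (X.We e) (zBL p) ∧ NAdj (tw K' N).G (X.We e) (zBL p) :=
  cbc_dis fun x hx y hn hy => by
    have h1 := cbc_We' T X hx hn
    have h2 := (d1 e (p y) (by omega)).1
    have h3 := BL_lS hy
    omega

include T in
theorem Wt_Bs (e) : Disjoint (X.We e) (zBsL p) ∧ NAdj (tw K' N).G (X.We e) (zBsL p) :=
  cbc_dis fun x hx y hn hy => by
    have h1 := cbc_We' T X hx hn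
    have h2 := (d1 e (p y) (by omega)).2
    have h3 := BsL_lS hy
    omega

/-- the part at the vertex `v` -/
def Om (p : (tw K' N).V → PV K m0) (v : (tw K m0).V) : Set (tw K' N).V :=
  {x | vx (tw K m0).G v ∈ zcr p x}

include T in
theorem Om_dis (v v') (h : v ≠ v') :
    Disjoint (Om p v) (Om p v') ∧ NAdj (tw K' N).G (Om p v) (Om p v') :=
  cbc_dis fun x hx y hn hy => by
    have h1 : vx (tw K m0).G v = vx (tw K m0).G v' :=
      cbc_eq ((cr_nr (T.nr _ _ hn)).total (Or.inl hx) (Or.inr hy)) rfl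
    have h2 : ({v} : Finset (tw K m0).V) = {v'} := congrArg Subtype.val h1
    exact h (Finset.singleton_injective h2)

include T in
private theorem cbc_mix {Q : Set (tw K' N).V} (hQ : (tw K' N).G.IsClique Q)
    (h1 : (Q ∩ X.M0).Nonempty) (h2 : (Q \ X.M0).Nonempty) {x : (tw K' N).V} (hx : x ∈ Q) :
    28 ≤ lS K m0 (p x) ∧ lS K m0 (p x) ≤ 36 := by
  obtain ⟨a, ha, haM⟩ := h1
  obtain ⟨b, hb, hbM⟩ := h2
  have hnr : ∀ y ∈ Q, Nr (tw K' N).G x y := fun y hy => by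
    by_cases h : x = y
    · exact Or.inl h
    · exact Or.inr (hQ hx hy h)
  have e1 : lS K m0 (p a) ≤ 35 := by
    by_contra h
    exact X.M0_out a (by omega) haM
  have e2 : 29 ≤ lS K m0 (p b) := by
    by_contra h
    exact hbM (X.M0_in b (by omega))
  have e3 := lS_lip (p x) (p a) (T.nr _ _ (hnr a ha))
  have e4 := lS_lip (p b) (p x) (T.nr _ _ (hnr b hb)).symm
  omega

include T in
theorem loc0 (Q : Set (tw K' N).V) (hQ : (tw K' N).G.IsClique Q) (h1 : (Q ∩ X.M0).Nonempty)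
    (h2 : (Q \ X.M0).Nonempty) : ∀ x ∈ Q, (∃ e, x ∈ X.We e) ∨ ∃ v, x ∈ Om p v := by
  intro x hx
  obtain ⟨l1, l2⟩ := cbc_mix T X hQ h1 h2 hx
  by_cases hw : ∃ e, x ∈ X.We e
  · exact Or.inl hw
  · right
    push Not at hw
    refine d4 (p x) l1 l2 fun e => ?_
    by_contra h
    exact hw e (X.We_in e x (by omega))

include T in
theorem loc1 (v e x y) (hx : x ∈ Om p v) (hy : y ∈ X.We e) (h : Nr (tw K' N).G x y) :
    v ∈ e.1 := by
  have h1 : e.q ∈ MOT.cr K m0 (p x) := (Wt_cr T X e y hy x h.symm).1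
  have h2 : vx (tw K m0).G v ∈ MOT.cr K m0 (p x) := hx
  rcases (MOT.cr_chain (p x)).total h2 h1 with h3 | h3
  · exact Cq.le_iff.1 h3 (Finset.mem_singleton_self v)
  · have h4 := Finset.card_le_card (Cq.le_iff.1 h3)
    have h5 : e.q.1.card = 2 := e.2.1
    have h6 : (vx (tw K m0).G v).1.card = 1 := Finset.card_singleton v
    omega

include T in
theorem Ue_cr (e) : ∀ x ∈ X.Ue e, ∀ y, Nr (tw K' N).G x y → e.q ∈ zcr p y := by
  intro x hx y h
  have h1 := cbc_Ue' T X hx h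
  exact d5U e.q (p y) (by omega)

include T in
theorem Ue_dis (e e') (h : e ≠ e') :
    Disjoint (X.Ue e) (X.Ue e') ∧ NAdj (tw K' N).G (X.Ue e) (X.Ue e') :=
  cbc_dis fun x hx y hn hy =>
    h (cbc_E (Ue_cr T X e x hx y hn) (Ue_cr T X e' y hy y (Nr.refl y)))

include T in
theorem Ue_Bs (e) : Disjoint (X.Ue e) (zBs p) ∧ NAdj (tw K' N).G (X.Ue e) (zBs p) :=
  cbc_dis fun x hx y hn hy => by
    have h1 := cbc_Ue' T X hx hn
    have h2 := d2 e (p y)
    have h3 := Bs_lS hy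
    omega

include T in
theorem Ue_Lv (e v) : Disjoint (X.Ue e) (zLv p v) := by
  refine Set.disjoint_left.2 fun x hx hx' => ?_
  obtain ⟨u, hu, hn⟩ := hx'.1
  have h1 := cbc_Ue X hx
  have h2 := lU_lip e.q u (p x) hn.symm
  have h3 : e.q ≤ vx (tw K m0).G v := hu e.q (d5U e.q u (by omega))
  have h4 := Finset.card_le_card (Cq.le_iff.1 h3)
  have h5 : e.q.1.card = 2 := e.2.1
  have h6 : (vx (tw K m0).G v).1.card = 1 := Finset.card_singleton v
  omega

include T in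
theorem Ue_Le (e e') (h : e ≠ e') : Disjoint (X.Ue e) (zLe p e') := by
  refine Set.disjoint_left.2 fun x hx hx' => ?_
  obtain ⟨u, hu, hn⟩ := hx'.1
  have h1 := cbc_Ue X hx
  have h2 := lU_lip e.q u (p x) hn.symm
  have h3 : e.q ≤ e'.q := hu e.q (d5U e.q u (by omega))
  exact h (cbc_qE (cbc_eq (Or.inl h3) (e.2.1.trans e'.2.1.symm)))

include hK T in
theorem rim_e (e) : ∃ s : Fc (tw K m0).G, e.1 ⊆ s.1 ∧
    ¬ Triv (tw K' N).G (X.Ue e ∩ zBsL p) (zws p s) := by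
  obtain ⟨z, hz⟩ := (hK.edge e.1 e.2.2 e.2.1).1.1
  have hze : z ∉ e.1 := fun h => (hz z h).ne rfl
  let s : Fc (tw K m0).G := ⟨insert z e.1, by rw [Finset.card_insert_of_notMem hze, e.2.1], by
    rw [Finset.coe_insert]
    exact e.2.2.insert fun b hb _ => (hz b hb).symm⟩
  have hes : e.1 ⊆ s.1 := Finset.subset_insert z e.1
  refine ⟨s, hes, fun ht => ?_⟩
  have h1 := ws_R2 hK e s hes 25 (by norm_num) (by norm_num)
  refine tra_non T (wsD_dia hK s) ?_ h1 (ht.mono ?_)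
  · refine ⟨fun x y h => if_neg h, fun x y => ?_, fun x y z h1 h2 h3 => ?_⟩
    · show (if EIn _ _ x y then _ else _) = if EIn _ _ y x then _ else _
      by_cases h : EIn (tw K (m0 + 7)).G
          {u | c2 K m0 u ⊆ R2 (tw K m0).G e.q ∧ lS K m0 u = 2 * 25 + 1} x y
      · rw [if_pos h, if_pos h.symm]; exact wsD_sym s _ _
      · rw [if_neg h, if_neg (fun h' => h h'.symm)]
    · rw [rs_apply h1, rs_apply h2, rs_apply h3]
      have e1 := h1.2.1.2
      have e2 := h1.2.2.2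
      have e3 := h2.2.2.2
      exact wsD_coc hK s x y z (Or.inr h1.1) (Or.inr h2.1) (Or.inr h3.1) (by omega) (by omega)
        (by omega)
  · rintro x ⟨h2, h3⟩
    have h4 := (r2_lU e (p x) h2).2 (by omega)
    refine ⟨X.Ue_in e x (by omega), sub_thk ?_⟩
    show 49 ≤ lS K m0 (p x)
    omega

include T in
theorem Ud_cr (s) : ∀ x ∈ X.Ud s, ∀ y, Nr (tw K' N).G x y → s.q ∈ zcr p y := by
  intro x hx y h
  have h1 := cbc_Ud' T X hx h
  exact d5D s.q (p y) (by omega)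

include T in
theorem Ud_dis (s s') (h : s ≠ s') :
    Disjoint (X.Ud s) (X.Ud s') ∧ NAdj (tw K' N).G (X.Ud s) (X.Ud s') :=
  cbc_dis fun x hx y hn hy =>
    h (cbc_F (Ud_cr T X s x hx y hn) (Ud_cr T X s' y hy y (Nr.refl y)))

include T in
theorem Ud_B (s) : Disjoint (X.Ud s) (zB p) ∧ NAdj (tw K' N).G (X.Ud s) (zB p) :=
  cbc_dis fun x hx y hn hy => by
    have h1 := cbc_Ud' T X hx hn
    have h2 := d2' s (p y)
    have h3 := B_lS hy
    omega

include T in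
theorem Ud_Lt (s t) : Disjoint (X.Ud s) (zLt p t) := by
  refine Set.disjoint_left.2 fun x hx hx' => ?_
  obtain ⟨u, hu, hn⟩ := hx'.1
  have h1 := cbc_Ud X hx
  have h2 := lD_lip s.q u (p x) hn.symm
  have h3 : t.q ≤ s.q := hu s.q (d5D s.q u (by omega))
  have h4 := Finset.card_le_card (Cq.le_iff.1 h3)
  have h5 : t.q.1.card = 4 := t.2.1
  have h6 : s.q.1.card = 3 := s.2.1
  omega

include T in
theorem Ud_Ls (s s') (h : s ≠ s') : Disjoint (X.Ud s) (zLs p s') := by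
  refine Set.disjoint_left.2 fun x hx hx' => ?_
  obtain ⟨u, hu, hn⟩ := hx'.1
  have h1 := cbc_Ud X hx
  have h2 := lD_lip s.q u (p x) hn.symm
  have h3 : s'.q ≤ s.q := hu s.q (d5D s.q u (by omega))
  exact h (cbc_qF (cbc_eq (Or.inr h3) (s.2.1.trans s'.2.1.symm)))

include hK T in
theorem rim_s (s) : ∃ e : Ec (tw K m0).G, e.1 ⊆ s.1 ∧
    ¬ Triv (tw K' N).G (X.Ud s ∩ zBL p) (zwe p e) := by
  obtain ⟨f, hf, hf2⟩ := Finset.exists_subset_card_eq (show 2 ≤ s.1.card by rw [s.2.1]; norm_num)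
  let e : Ec (tw K m0).G := ⟨f, hf2, s.2.2.subset (Finset.coe_subset.2 hf)⟩
  have hes : e.1 ⊆ s.1 := hf
  refine ⟨e, hes, fun ht => ?_⟩
  have h1 := we_D2 hK e s hes 6 (by norm_num)
  refine tra_non T (weD_dia e) ?_ h1 (ht.mono ?_)
  · refine ⟨fun x y h => if_neg h, fun x y => ?_, fun x y z h1 h2 h3 => ?_⟩
    · show (if EIn _ _ x y then _ else _) = if EIn _ _ y x then _ else _
      by_cases h : EIn (tw K (m0 + 7)).G
          {u | c2 K m0 u ⊆ D2 (tw K m0).G s.q ∧ lS K m0 u = 2 * 6 + 1} x y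
      · rw [if_pos h, if_pos h.symm]; exact weD_sym e _ _
      · rw [if_neg h, if_neg (fun h' => h h'.symm)]
    · rw [rs_apply h1, rs_apply h2, rs_apply h3]
      have e1 := h1.2.1.2
      have e2 := h1.2.2.2
      have e3 := h2.2.2.2
      exact weD_coc e x y z (Or.inr h1.1) (Or.inr h2.1) (Or.inr h3.1) (by omega) (by omega)
        (by omega)
  · rintro x ⟨h2, h3⟩
    have h4 := (d2_lD s (p x) h2).2 (by omega)
    refine ⟨X.Ud_in s x (by omega), sub_thk ?_⟩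
    show lS K m0 (p x) ≤ 15
    omega

include T in
theorem curve_U (Q : Set (tw K' N).V) (hQ : (tw K' N).G.IsClique Q)
    (h1 : (Q ∩ X.M0).Nonempty) (h2 : (Q \ X.M0).Nonempty) (e)
    (h3 : (Q ∩ X.We e).Nonempty) (h4 : (Q \ X.We e).Nonempty) (e') :
    Q ⊆ X.Ue e' ∨ Disjoint Q (X.Ue e') := by
  by_contra hcon
  rw [not_or, Set.not_subset, Set.not_disjoint_iff] at hcon
  obtain ⟨⟨y, hyQ, hyU⟩, x, hxQ, hxU⟩ := hcon
  have hnr : ∀ a ∈ Q, ∀ b ∈ Q, Nr (tw K' N).G a b := fun a ha b hb => by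
    by_cases h : a = b
    · exact Or.inl h
    · exact Or.inr (hQ ha hb h)
  obtain ⟨z, hzQ, hzW⟩ := h3
  have he : e' = e := cbc_E (Ue_cr T X e' x hxU x (Nr.refl x))
    (Wt_cr T X e z hzW x (hnr z hzQ x hxQ)).1
  subst he
  obtain ⟨w, hwQ, hwW⟩ := h4
  obtain ⟨l1, l2⟩ := cbc_mix T X hQ h1 h2 hwQ
  have l3 : lU K m0 e'.q (p w) ≤ 12 := cbc_Ue' T X hxU (hnr x hxQ w hwQ)
  have l4 : 5 ≤ lV K m0 e'.q (p w) := by
    by_contra h
    exact hwW (X.We_in e' w (by omega))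
  rcases d3U e' (p w) (by omega) (by omega) (by omega) with h | h
  · omega
  · omega

end MOT.Cb
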