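import Pool.Agent.MOT.CbC

/-!
# MOT/CbD: the marked curves `Cm e`, `Cp e` of the torus of `e` (helper82)

`Fm e` = simplices of the frontier of `We e` inside `p⁻¹ (in2 (Em e))`, `Fp e` = those inside `p⁻¹ (in2 (Ep e))`.

(fm_non) `fr_non0` with `D = in2 (Em e)`, `D' = {c2 ⊆ R1 e, lS ≤ 31}` (`nb_R1`), `em_HZ`, `w = ws s`, `M = We e`,
`E = {x | e < mxc (p x)}` (`lV_mxc`; `rs _ E (ws s) ∈ Z1`: `up_Z1` pulled back by `mxc ∘ p`, `pbk_mem`); not trivial on
`p⁻¹ D' ∩ We e`: contains `p⁻¹ {c2 ⊆ R1 e, lS = 29}` (there `lV = 3` by `em_lev`), `ws_R1`, `tra_non`.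
(fp_non) `fr_non1` with `D = in2 (Ep e)`, `D' = {c2 ⊆ R2 e, 33 ≤ lS ≤ 47}` (`nb_R2`), `ep_gen`; both sides by `ws_R2` with `j = 17`
(`lS = 35`, `lV = 3`, inside `We e`) and `j = 22` (`lS = 45`, `lV = 13`, outside).
(fm_M) a simplex of `Fm e` has a vertex `x ∉ We e`, `lV ≥ 5`, so `lS ≤ 28` by `em_lev`: `x ∈ M0`.
(fp_M) a simplex of `Fp e` has a vertex outside `We e`, so `lV ≥ 4` on all its vertices, `lS ≥ 36` by `ep_lev`: no vertex in `M0`.
(zero) `ws s`, `e ⊄ s`, is `0` on `Fm e`, `Fp e` (`wsD_zero`; all vertices have `e ∈ cr`, `Wt_cr`); (same) `ws s + ws s'` is trivial there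
(`wsX_up2` pulled back by `mxc ∘ p ∘ pk`).
(cm_ex) a component of `Fm e` on which `ws s` (`ex_tri`) is not trivial (`comp_nontriv`).

(beta) `bet x y = we e x y` if `lS ≤ 32` at both, `0` otherwise, is a cocycle of `(We e)ᶜ`: for a triangle with a vertex with `lS ≥ 33`
and two vertices `x y` with `lS ≤ 32`: `lS = 32` at `x`, `y`; if `we e x y = 1` one of them has smallest element `e`, so it lies in
`in2 (Em e)` (`em_of`), `lV = 0` by `em_lev`, so it is in `We e`.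
(beta_non) not trivial on `(We e)ᶜ ⊇ zB` (`lb_e` with `A = δ_e`; the triangle `s ⊇ e` gives a contradiction).
(beta_fr) `glue0` with `D = univ`, `M = (We e)ᶜ` and `HZ G univ` of the 3-sphere: not trivial on `Fr (We e)`.
(round) `b1 (Fr (We e)) = bb (We e) ≤ 2` (`b1_Fr`); `pk^* (ws s)` is not trivial on `Cm e`, `Cp e`, `beta` is trivial on both
and not trivial on the frontier, so every class is `c1 ws + c2 beta` (`two_gen`), trivial on `Cm` iff `c1 = 0` iff trivial on `Cp`.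
-/

open Classical

noncomputable section

namespace MOT.Cb

variable {K K' : Lv} {m0 N : ℕ} {p : (tw K' N).V → PV K m0}

/-- two independent classes generate if `b1 ≤ 2` -/
theorem two_gen {V : Type} [Finite V] {G : SimpleGraph V} {F : Set V} (h : b1 G F ≤ 2)
    {a b c : V → V → ZMod 2} (ha : a ∈ Z1 G F) (hb : b ∈ Z1 G F) (hc : c ∈ Z1 G F)
    (h1 : ¬ Triv G F a) (h2 : ¬ Triv G F b) (h3 : ¬ Triv G F (a + b)) :
    Triv G F c ∨ Triv G F (c + a) ∨ Triv G F (c + b) ∨ Triv G F (c + a + b) := by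
  unfold b1 rk1 at h
  let K := (K1 G F F).comap (Z1 G F).subtype
  let m : Z1 G F →ₗ[ZMod 2] ((Z1 G F) ⧸ K) := K.mkQ
  have hdep : ¬ LinearIndependent (ZMod 2) ![m ⟨a, ha⟩, m ⟨b, hb⟩, m ⟨c, hc⟩] := by
    intro hli
    have h4 := hli.fintype_card_le_finrank
    have h5 : Fintype.card (Fin 3) = 3 := rfl
    rw [h5] at h4
    exact absurd (h4.trans h) (by norm_num)
  rw [Fintype.not_linearIndependent_iff] at hdep
  obtain ⟨g, hg, i, hi⟩ := hdep
  rw [Fin.sum_univ_three] at hg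
  have hg' : m (g 0 • ⟨a, ha⟩ + g 1 • ⟨b, hb⟩ + g 2 • ⟨c, hc⟩) = 0 := by
    rw [map_add, map_add, map_smul, map_smul, map_smul]
    exact hg
  have hk := (Submodule.Quotient.mk_eq_zero _).1 hg'
  have ht : Triv G F (g 0 • a + g 1 • b + g 2 • c) := hk.2
  have h01 : ∀ r : ZMod 2, r = 0 ∨ r = 1 := by decide
  rcases h01 (g 0) with e0 | e0 <;> rcases h01 (g 1) with e1 | e1 <;>
    rcases h01 (g 2) with e2 | e2 <;> rw [e0, e1, e2] at ht <;>
    simp only [zero_smul, one_smul, zero_add, add_zero] at ht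
  · exfalso
    fin_cases i
    · exact hi e0
    · exact hi e1
    · exact hi e2
  · exact Or.inl ht
  · exact absurd ht h2
  · exact Or.inr (Or.inr (Or.inl (by rwa [add_comm])))
  · exact absurd ht h1
  · exact Or.inr (Or.inl (by rwa [add_comm]))
  · exact absurd ht h3
  · refine Or.inr (Or.inr (Or.inr ?_))
    have : c + a + b = a + b + c := by abel
    rwa [this]

private theorem z_j_gt (f : Cq (sd (sd (tw K m0).G)) → ℕ) (u : PV K m0) (c : ℕ)
    (h : ∀ C ∈ c3 K m0 u, c ≤ f C) (h' : ∃ C ∈ c3 K m0 u, c < f C) :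
    16 * c < lN K (m0 + 3) f 4 u :=
  lt_lN (K := K) (n := m0 + 3) (k := 4) (f := f) (x := u) (c := c) h h'

private theorem z_j_ind_le {V : Type} (M : Set V) (x : V) : ind M x ≤ 1 := by
  unfold ind
  split_ifs <;> omega

private theorem z_j_ind_out {V : Type} {M : Set V} {x : V} (h : x ∉ M) : ind M x = 1 := if_neg h

private theorem z_j_ind_lip {V : Type} {G : SimpleGraph V} (M : Set V) (x y : V) (_ : G.Adj x y) :
    ind M x ≤ ind M y + 1 := by
  have := z_j_ind_le M x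
  omega

section zvals

variable {Vc : Type} {Gc : SimpleGraph Vc}

private def z_g1 (Gc : SimpleGraph Vc) : Cq (sd Gc) → ℕ := lsd (ind (Xs Gc))

private theorem z_g1_def (c : Cq (sd Gc)) :
    z_g1 Gc c = c.1.inf' c.2.1 (ind (Xs Gc)) + c.1.sup' c.2.1 (ind (Xs Gc)) := rfl

private theorem z_g2_def (C : Cq (sd (sd Gc))) :
    f2 Gc C = C.1.inf' C.2.1 (z_g1 Gc) + C.1.sup' C.2.1 (z_g1 Gc) := rfl

private theorem z_g1_lip (c d : Cq (sd Gc)) (h : (sd (sd Gc)).Adj c d) : z_g1 Gc c ≤ z_g1 Gc d + 1 :=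
  lsd_lip (G := sd Gc) (fun x y e => z_j_ind_lip (G := sd Gc) _ x y e) c d h

private theorem z_g2_lip (C D : Cq (sd (sd Gc))) (h : (sd (sd (sd Gc))).Adj C D) :
    f2 Gc C ≤ f2 Gc D + 1 :=
  lsd_lip (G := sd (sd Gc)) (fun x y e => z_g1_lip x y e) C D h

private theorem z_j_xs_out {s : Cq Gc} (h : 3 ≤ s.1.card) : ind (Xs Gc) s = 1 :=
  z_j_ind_out (fun h' : s.1.card ≤ 2 => by omega)

private theorem z_g1_two {c : Cq (sd Gc)} (h : ∀ s ∈ c.1, 3 ≤ s.1.card) : z_g1 Gc c = 2 := by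
  obtain ⟨x, hx, ex⟩ := Finset.exists_mem_eq_inf' c.2.1 (ind (Xs Gc))
  obtain ⟨y, hy, ey⟩ := Finset.exists_mem_eq_sup' c.2.1 (ind (Xs Gc))
  rw [z_g1_def, ex, ey, z_j_xs_out (h x hx), z_j_xs_out (h y hy)]

private theorem z_small_of_ne {c : Cq (sd Gc)} (h : z_g1 Gc c ≠ 2) : ∃ s ∈ c.1, s.1.card ≤ 2 := by
  by_contra hn
  push Not at hn
  exact h (z_g1_two fun s hs => hn s hs)

private theorem z_g1_nr {C : Cq (sd (sd Gc))} {c d : Cq (sd Gc)} (hc : c ∈ C.1) (hd : d ∈ C.1) :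
    z_g1 Gc c ≤ z_g1 Gc d + 1 := by
  by_cases h : c = d
  · rw [h]
    exact Nat.le_succ _
  · exact z_g1_lip c d (C.2.2 (Finset.mem_coe.2 hc) (Finset.mem_coe.2 hd) h)

private theorem z_g2_ge3 {C : Cq (sd (sd Gc))} {c : Cq (sd Gc)} (hc : c ∈ C.1)
    (h : z_g1 Gc c = 2) : 3 ≤ f2 Gc C := by
  obtain ⟨x, hx, ex⟩ := Finset.exists_mem_eq_inf' C.2.1 (z_g1 Gc)
  have h1 := z_g1_nr hc hx
  have h2 : z_g1 Gc c ≤ C.1.sup' C.2.1 (z_g1 Gc) := Finset.le_sup' _ hc
  rw [z_g2_def, ex]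
  omega

end zvals

private theorem z_g2_nr {u : PV K m0} {C D : Cq (sd (sd (tw K m0).G))} (hC : C ∈ c3 K m0 u)
    (hD : D ∈ c3 K m0 u) : f2 (tw K m0).G C ≤ f2 (tw K m0).G D + 1 := by
  by_cases h : C = D
  · rw [h]
    exact Nat.le_succ _
  · exact z_g2_lip C D (car_cl (K := K) (n := m0 + 3) (k := 4) u hC hD h)

private theorem z_no_two {u : PV K m0} (h : lS K m0 u ≤ 32) {c : Cq (sd (tw K m0).G)}
    (hc : c ∈ c2 K m0 u) : ∃ s ∈ c.1, s.1.card ≤ 2 := by
  obtain ⟨C, hC, hcC⟩ := hc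
  apply z_small_of_ne
  intro h2
  have h3 := z_g2_ge3 hcC h2
  have h4 : 16 * 2 < lS K m0 u := by
    refine z_j_gt (f2 (tw K m0).G) u 2 (fun D hD => ?_) ⟨C, hC, by omega⟩
    have := z_g2_nr hC hD
    omega
  omega

/-- smallest element `e` and `lS ≤ 32`: all chains of the carrier contain `e` -/
theorem em_of (e : Ec (tw K m0).G) (u : PV K m0) (h1 : mnc u = e.q) (h2 : lS K m0 u ≤ 32) :
    u ∈ in2 (Em (tw K m0).G e.q) := by
  intro c hc
  obtain ⟨s, hs, hs2⟩ := z_no_two h2 hc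
  have h3 : e.q ≤ s := h1 ▸ mnc_le u ⟨c, hc, hs⟩
  have h4 : e.q.1.card = 2 := e.2.1
  have h5 : e.q = s :=
    Subtype.ext (Finset.eq_of_subset_of_card_le (Cq.le_iff.1 h3) (hs2.trans h4.ge))
  show e.q ∈ c.1
  rw [h5]
  exact hs

variable (hK : IsSph3 (tw K m0).G) (T : Tra (tw K (m0 + 7)).G (tw K' N).G p) (X : TD p)

/-- inner part of the frontier of the torus -/
def Fm (e : Ec (tw K m0).G) : Set (Cq (tw K' N).G) :=
  mi (tw K' N).G (p ⁻¹' in2 (Em (tw K m0).G e.q)) ∩ Fr (tw K' N).G (X.We e)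

/-- outer part of the frontier of the torus -/
def Fp (e : Ec (tw K m0).G) : Set (Cq (tw K' N).G) :=
  mi (tw K' N).G (p ⁻¹' in2 (Ep (tw K m0).G e.q)) ∩ Fr (tw K' N).G (X.We e)

section h72

variable {V : Type} {G : SimpleGraph V} {A B : Set V}

private theorem h72_nontriv_mono {a : V → V → ZMod 2} (h : B ⊆ A) (t : ¬ Triv G B a) :
    ¬ Triv G A a := fun k => t (k.mono h)

private theorem h72_clq {q : Cq G} {x y : V} (hx : x ∈ q.1) (hy : y ∈ q.1) : Nr G x y := by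
  by_cases h : x = y
  · exact Or.inl h
  · exact Or.inr (q.2.2 (Finset.mem_coe.2 hx) (Finset.mem_coe.2 hy) h)

private theorem h72_comp {C : Set V} (h : IsComp G A C) : C ⊆ A := by
  obtain ⟨x, hx, rfl⟩ := h
  intro y hy
  exact hy.2

private theorem h72_wsX_sym {Vc : Type} {Gc : SimpleGraph Vc} (s : Fc Gc) (a b : Cq Gc) :
    wsX s a b = wsX s b a := by
  unfold wsX
  exact if_congr or_comm rfl rfl

end h72

include T in
private theorem h72_nr_mx {x y : (tw K' N).V} (h : Nr (tw K' N).G x y) :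
    Nr (sd (tw K m0).G) (mxc (p x)) (mxc (p y)) := by
  by_cases k : mxc (p x) = mxc (p y)
  · exact Or.inl k
  · refine Or.inr ?_
    have c := cr_chain T x y h (Or.inl (mxc_mem (p x))) (Or.inr (mxc_mem (p y))) k
    rcases c with c | c
    · exact Or.inl (lt_of_le_of_ne c k)
    · exact Or.inr (lt_of_le_of_ne c (Ne.symm k))

include hK T in
private theorem h72_zws_E (e : Ec (tw K m0).G) (s : Fc (tw K m0).G) :
    rs (tw K' N).G {x | e.q < mxc (p x)} (zws p s) ∈ Z1 (tw K' N).G {x | e.q < mxc (p x)} := by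
  have k := pbk_mem (G' := (tw K' N).G) (p := fun x => mxc (p x)) (E := {x | e.q < mxc (p x)})
    (up_Z1 hK e (a := wsX s) (h72_wsX_sym s)) (fun x y h _ _ => h72_nr_mx T h) (fun x hx => hx)
  have e1 : rs (tw K' N).G {x | e.q < mxc (p x)} (zws p s) =
      rs (tw K' N).G {x | e.q < mxc (p x)}
        (pbk (fun x => mxc (p x)) (rs (sd (tw K m0).G) (Up e.q) (wsX s))) := by
    funext x y
    by_cases h : EIn (tw K' N).G {x | e.q < mxc (p x)} x y
    · rw [rs_apply h, rs_apply h]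
      show wsX s (mxc (p x)) (mxc (p y)) =
        rs (sd (tw K m0).G) (Up e.q) (wsX s) (mxc (p x)) (mxc (p y))
      rcases h72_nr_mx T (Or.inr h.1) with k | k
      · have e2 : wsX s (mxc (p x)) (mxc (p y)) = 0 := by
          rw [← k]
          exact wsD_dia hK s (p x)
        rw [e2, ← k]
        exact (if_neg (fun h => h.1.ne rfl)).symm
      · exact (rs_apply ⟨k, h.2.1, h.2.2⟩).symm
    · have a1 : rs (tw K' N).G {x | e.q < mxc (p x)} (zws p s) x y = 0 := if_neg h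
      rw [a1]
      exact (if_neg h).symm
  rw [e1]
  exact k

include hK in
private theorem h72_wsD_mem (s : Fc (tw K m0).G) {D : Set (PV K m0)}
    (h : ∀ u ∈ D, 0 < lS K m0 u) :
    rs (tw K (m0 + 7)).G D (wsD s) ∈ Z1 (tw K (m0 + 7)).G D := by
  refine mem_Z1.2 ⟨fun x y h => if_neg h, fun x y => ?_, fun x y z h1 h2 h3 => ?_⟩
  · by_cases k : EIn (tw K (m0 + 7)).G D x y
    · rw [rs_apply k, rs_apply k.symm]
      exact wsD_sym s x y
    · have a1 : rs (tw K (m0 + 7)).G D (wsD s) x y = 0 := if_neg k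
      have a2 : rs (tw K (m0 + 7)).G D (wsD s) y x = 0 := if_neg (fun k' => k k'.symm)
      rw [a1, a2]
  · rw [rs_apply h1, rs_apply h2, rs_apply h3]
    exact wsD_coc hK s x y z (Or.inr h1.1) (Or.inr h2.1) (Or.inr h3.1) (h x h1.2.1) (h y h1.2.2)
      (h z h2.2.2)

include hK T in
private theorem h72_ws_non (s : Fc (tw K m0).G) {D : Set (PV K m0)}
    (h : ∀ u ∈ D, 0 < lS K m0 u) (hn : ¬ Triv (tw K (m0 + 7)).G D (wsD s)) :
    ¬ Triv (tw K' N).G (p ⁻¹' D) (zws p s) :=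
  tra_non T (wsD_dia hK s) (h72_wsD_mem hK s h) hn

private theorem h72_Nr2 {V : Type} {G : SimpleGraph V} {s t : Cq G} {x y : V} (h : Nr (sd G) s t)
    (hx : x ∈ s.1) (hy : y ∈ t.1) : Nr G x y := by
  rcases h with rfl | h | h
  · exact h72_clq hx hy
  · exact h72_clq (q := t) ((Cq.lt_iff.1 h).1 hx) hy
  · exact h72_clq (q := s) hx ((Cq.lt_iff.1 h).1 hy)

include hK in
private theorem h72_wsX_self (s : Fc (tw K m0).G) (a : Cq (tw K m0).G) : wsX s a a = 0 := by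
  have h1 : (t0 s).1.card = 4 := (t0_spec hK s).1.1
  have h2 : s.q.1.card = 3 := s.2.1
  refine if_neg ?_
  rintro (⟨k1, k2⟩ | ⟨k1, k2⟩)
  · rw [← k2, k1, h2] at h1
    exact absurd h1 (by norm_num)
  · rw [← k2, k1, h2] at h1
    exact absurd h1 (by norm_num)

include hK T in
theorem fm_non (e s) (h : e.1 ⊆ s.1) :
    ¬ Triv (sd (tw K' N).G) (Fm X e) (pbk pk (zws p s)) := by
  refine fr_non0 T (D := in2 (Em (tw K m0).G e.q))
    (D' := {u | c2 K m0 u ⊆ R1 (tw K m0).G e.q ∧ lS K m0 u ≤ 31}) (nb_R1 e) (em_HZ e)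
    (w := zws p s) (M := X.We e) (E := {x | e.q < mxc (p x)}) (fun x => wsD_dia hK s (p x))
    (h72_zws_E hK T e s) ?_ ?_ ?_
  · intro x hx
    exact (Wt_cr T X e x hx.2 x (Or.inl rfl)).2
  · intro q hq x hx
    obtain ⟨y, hy, hyM⟩ := hq.2.1
    exact (Wt_cr T X e y hyM x (h72_clq hy hx)).2
  · refine h72_nontriv_mono ?_ (h72_ws_non hK T s
      (D := {u | c2 K m0 u ⊆ R1 (tw K m0).G e.q ∧ lS K m0 u = 29}) ?_ (ws_R1 hK e s h))
    · intro x hx
      have h1 : c2 K m0 (p x) ⊆ R1 (tw K m0).G e.q := hx.1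
      have h2 : lS K m0 (p x) = 29 := hx.2
      have h3 : p x ∈ in2 (Em (tw K m0).G e.q) := fun c hc => (h1 hc).1
      have h4 := (em_lev e (p x) h3).2.2 (by omega)
      exact ⟨⟨h1, by omega⟩, X.We_in e x (by omega)⟩
    · intro u hu
      have h2 : lS K m0 u = 29 := hu.2
      omega

include hK T in
theorem fp_non (e s) (h : e.1 ⊆ s.1) :
    ¬ Triv (sd (tw K' N).G) (Fp X e) (pbk pk (zws p s)) := by
  refine fr_non1 T (D := in2 (Ep (tw K m0).G e.q))
    (D' := {u | c2 K m0 u ⊆ R2 (tw K m0).G e.q ∧ 33 ≤ lS K m0 u ∧ lS K m0 u ≤ 47}) (nb_R2 e)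
    (w := wsD s) (wsD_dia hK s) (h72_wsD_mem hK s ?_) (fun a ha => ep_gen hK e s h a ha)
    (M := X.We e) ?_ ?_
  · intro u hu
    have := (ep_lev e u hu).2.2.1
    omega
  · refine h72_nontriv_mono ?_ (h72_ws_non hK T s
      (D := {u | c2 K m0 u ⊆ R2 (tw K m0).G e.q ∧ lS K m0 u = 2 * 17 + 1}) ?_
      (ws_R2 hK e s h 17 (by norm_num) (by norm_num)))
    · intro x hx
      have h1 : c2 K m0 (p x) ⊆ R2 (tw K m0).G e.q := hx.1
      have h2 : lS K m0 (p x) = 2 * 17 + 1 := hx.2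
      have h3 : p x ∈ {u | c2 K m0 u ⊆ R2 (tw K m0).G e.q ∧ 33 ≤ lS K m0 u ∧ lS K m0 u ≤ 47} :=
        ⟨h1, by omega, by omega⟩
      have h4 := (ep_lev e (p x) (nb_R2 e (sub_nb h3))).2.2.2 (by omega)
      exact ⟨h3, X.We_in e x (by omega)⟩
    · intro u hu
      have h2 : lS K m0 u = 2 * 17 + 1 := hu.2
      omega
  · refine h72_nontriv_mono ?_ (h72_ws_non hK T s
      (D := {u | c2 K m0 u ⊆ R2 (tw K m0).G e.q ∧ lS K m0 u = 2 * 22 + 1}) ?_
      (ws_R2 hK e s h 22 (by norm_num) (by norm_num)))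
    · intro x hx
      have h1 : c2 K m0 (p x) ⊆ R2 (tw K m0).G e.q := hx.1
      have h2 : lS K m0 (p x) = 2 * 22 + 1 := hx.2
      have h3 : p x ∈ {u | c2 K m0 u ⊆ R2 (tw K m0).G e.q ∧ 33 ≤ lS K m0 u ∧ lS K m0 u ≤ 47} :=
        ⟨h1, by omega, by omega⟩
      have h4 := (ep_lev e (p x) (nb_R2 e (sub_nb h3))).2.2.2 (by omega)
      exact ⟨h3, X.We_out e x (by omega)⟩
    · intro u hu
      have h2 : lS K m0 u = 2 * 22 + 1 := hu.2
      omega

include T in
theorem fm_M (e) : Fm X e ⊆ pl (tw K' N).G X.M0 := by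
  intro q hq
  obtain ⟨x, hx, hxM⟩ := hq.2.2
  refine ⟨x, hx, X.M0_in x ?_⟩
  have h1 : p x ∈ in2 (Em (tw K m0).G e.q) := hq.1 x hx
  have h2 : ¬ lV K m0 e.q (p x) ≤ 4 := fun k => hxM (X.We_in e x k)
  have h3 := (em_lev e (p x) h1).2.2
  by_contra h4
  have h5 := h3 (by omega)
  omega

include T in
theorem fp_M (e) : Disjoint (Fp X e) (pl (tw K' N).G X.M0) := by
  refine Set.disjoint_left.2 ?_
  rintro q hq ⟨y, hy, hyM⟩
  obtain ⟨x, hx, hxM⟩ := hq.2.2
  refine X.M0_out y ?_ hyM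
  have h1 : p y ∈ in2 (Ep (tw K m0).G e.q) := hq.1 y hy
  have h2 : ¬ lV K m0 e.q (p x) ≤ 4 := fun k => hxM (X.We_in e x k)
  have h3 := lV_lip e.q (p x) (p y) (T.nr x y (h72_clq hx hy))
  have h4 := (ep_lev e (p y) h1).2.2.2
  by_contra h5
  have h6 := h4 (by omega)
  omega

include T in
/-- all vertices of the frontier of the torus are above `e` -/
theorem fr_e (e) : ∀ q ∈ Fr (tw K' N).G (X.We e), ∀ x ∈ q.1, e.q ∈ zcr p x ∧ e.q < mxc (p x) := by
  intro q hq x hx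
  obtain ⟨y, hy, hyM⟩ := hq.1
  exact Wt_cr T X e y hyM x (h72_clq hy hx)

include T in
theorem fr_zero (e s) (h : ¬ e.1 ⊆ s.1) :
    Triv (sd (tw K' N).G) (Fr (tw K' N).G (X.We e)) (pbk pk (zws p s)) := by
  refine ⟨fun _ => 0, fun a b h1 => ?_⟩
  rw [add_zero]
  have h2 : Nr (tw K' N).G (pk a) (pk b) := h72_Nr2 (Or.inr h1.1) (pk_mem a) (pk_mem b)
  exact wsD_zero e s h (p (pk a)) (p (pk b)) (T.nr _ _ h2) (fr_e T X e a h1.2.1 _ (pk_mem a)).1
    (fr_e T X e b h1.2.2 _ (pk_mem b)).1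

include hK T in
theorem fr_same (e s s') (h : e.1 ⊆ s.1) (h' : e.1 ⊆ s'.1) :
    Triv (sd (tw K' N).G) (Fr (tw K' N).G (X.We e)) (pbk pk (zws p s) + pbk pk (zws p s')) := by
  refine Triv_pbk (G' := sd (tw K' N).G) (p := fun q => mxc (p (pk q))) (a := wsX s + wsX s')
    (D := Up e.q) (fun x => ?_) (wsX_up2 hK h h') (fun a b h1 _ _ => ?_) (fun a ha => ?_)
  · show wsX s x x + wsX s' x x = 0
    rw [h72_wsX_self hK, h72_wsX_self hK, add_zero]
  · exact h72_nr_mx T (h72_Nr2 h1 (pk_mem a) (pk_mem b))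
  · exact (fr_e T X e a ha _ (pk_mem a)).2

include hK T in
theorem fr_Z1 (e s) (h : e.1 ⊆ s.1) :
    rs (sd (tw K' N).G) (Fr (tw K' N).G (X.We e)) (pbk pk (zws p s)) ∈
      Z1 (sd (tw K' N).G) (Fr (tw K' N).G (X.We e)) := by
  have k := pbk_mem (G' := sd (tw K' N).G) (p := pk) (E := Fr (tw K' N).G (X.We e))
    (h72_zws_E hK T e s) (fun a b h1 _ _ => h72_Nr2 h1 (pk_mem a) (pk_mem b))
    (fun a ha => (fr_e T X e a ha _ (pk_mem a)).2)
  have e1 : rs (sd (tw K' N).G) (Fr (tw K' N).G (X.We e)) (pbk pk (zws p s)) =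
      rs (sd (tw K' N).G) (Fr (tw K' N).G (X.We e))
        (pbk pk (rs (tw K' N).G {x | e.q < mxc (p x)} (zws p s))) := by
    funext a b
    by_cases h1 : EIn (sd (tw K' N).G) (Fr (tw K' N).G (X.We e)) a b
    · rw [rs_apply h1, rs_apply h1]
      show zws p s (pk a) (pk b) =
        rs (tw K' N).G {x | e.q < mxc (p x)} (zws p s) (pk a) (pk b)
      rcases h72_Nr2 (Or.inr h1.1) (pk_mem a) (pk_mem b) with k | k
      · have e2 : zws p s (pk a) (pk b) = 0 := by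
          rw [← k]
          exact wsD_dia hK s (p (pk a))
        rw [e2, ← k]
        exact (if_neg (fun h => h.1.ne rfl)).symm
      · exact (rs_apply ⟨k, (fr_e T X e a h1.2.1 _ (pk_mem a)).2,
          (fr_e T X e b h1.2.2 _ (pk_mem b)).2⟩).symm
    · have a1 : rs (sd (tw K' N).G) (Fr (tw K' N).G (X.We e)) (pbk pk (zws p s)) a b = 0 :=
        if_neg h1
      rw [a1]
      exact (if_neg h1).symm
  rw [e1]
  exact k

include hK T in
theorem cm_ex (e) : ∃ C, IsComp (sd (tw K' N).G) (Fm X e) C ∧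
    ∀ s, (Triv (sd (tw K' N).G) C (pbk pk (zws p s)) ↔ ¬ e.1 ⊆ s.1) := by
  obtain ⟨s0, hs0⟩ := ex_tri hK e
  obtain ⟨C, hC, hn⟩ := comp_nontriv (fm_non hK T X e s0 hs0)
  have hF : C ⊆ Fr (tw K' N).G (X.We e) := fun q hq => (h72_comp hC hq).2
  refine ⟨C, hC, fun s => ⟨fun h k => hn ?_, fun h => (fr_zero T X e s h).mono hF⟩⟩
  have h1 := ((fr_same hK T X e s s0 k hs0).mono hF).add h
  refine h1.congr (fun x y _ => ?_)
  have t : ∀ a b : ZMod 2, a + b + a = b := by decide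
  exact t _ _

include hK T in
theorem cp_ex (e) : ∃ C, IsComp (sd (tw K' N).G) (Fp X e) C ∧
    ∀ s, (Triv (sd (tw K' N).G) C (pbk pk (zws p s)) ↔ ¬ e.1 ⊆ s.1) := by
  obtain ⟨s0, hs0⟩ := ex_tri hK e
  obtain ⟨C, hC, hn⟩ := comp_nontriv (fp_non hK T X e s0 hs0)
  have hF : C ⊆ Fr (tw K' N).G (X.We e) := fun q hq => (h72_comp hC hq).2
  refine ⟨C, hC, fun s => ⟨fun h k => hn ?_, fun h => (fr_zero T X e s h).mono hF⟩⟩
  have h1 := ((fr_same hK T X e s s0 k hs0).mono hF).add h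
  refine h1.congr (fun x y _ => ?_)
  have t : ∀ a b : ZMod 2, a + b + a = b := by decide
  exact t _ _

/-- crossing the inner half of the dual disc of `e` -/
def bet (e : Ec (tw K m0).G) : (tw K' N).V → (tw K' N).V → ZMod 2 := fun x y =>
  if lS K m0 (p x) ≤ 32 ∧ lS K m0 (p y) ≤ 32 then zwe p e x y else 0

private theorem z_bet_pos {e : Ec (tw K m0).G} {x y : (tw K' N).V}
    (hx : lS K m0 (p x) ≤ 32) (hy : lS K m0 (p y) ≤ 32) : bet (p := p) e x y = zwe p e x y :=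
  if_pos ⟨hx, hy⟩

private theorem z_bet_neg {e : Ec (tw K m0).G} {x y : (tw K' N).V}
    (h : ¬ (lS K m0 (p x) ≤ 32 ∧ lS K m0 (p y) ≤ 32)) : bet (p := p) e x y = 0 := if_neg h

/-- a vertex off `We e` with smallest element `e` and `lS ≤ 32` has `lS < 32` -/
private theorem z_lt {e : Ec (tw K m0).G} {x : (tw K' N).V} (hx : x ∈ (X.We e)ᶜ)
    (h1 : mnc (p x) = e.q) (h2 : lS K m0 (p x) ≤ 32) : lS K m0 (p x) < 32 := by
  by_contra hn
  have h3 : lS K m0 (p x) = 32 := by omega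
  obtain ⟨-, -, h4⟩ := em_lev e (p x) (em_of e (p x) h1 h2)
  have h5 := h4 (by omega)
  exact hx (X.We_in e x (by omega))

include T in
/-- two vertices off `We e` with a common neighbour of level `≥ 33` -/
private theorem z_zero {e : Ec (tw K m0).G} {x y z : (tw K' N).V} (hx : x ∈ (X.We e)ᶜ)
    (hy : y ∈ (X.We e)ᶜ) (h1 : Nr (tw K' N).G x z) (h2 : Nr (tw K' N).G y z)
    (hz : 33 ≤ lS K m0 (p z)) : bet (p := p) e x y = 0 := by
  by_cases h : lS K m0 (p x) ≤ 32 ∧ lS K m0 (p y) ≤ 32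
  · rw [z_bet_pos h.1 h.2]
    have k1 := near_lS T h1.symm
    have k2 := near_lS T h2.symm
    refine if_neg ?_
    rintro (⟨-, h3⟩ | ⟨-, h3⟩)
    · have := z_lt X hy h3 h.2
      omega
    · have := z_lt X hx h3 h.1
      omega
  · exact z_bet_neg h

include T in
theorem bet_mem (e) : rs (tw K' N).G (X.We e)ᶜ (bet (p := p) e) ∈ Z1 (tw K' N).G (X.We e)ᶜ := by
  have hs : ∀ x y, bet (p := p) e x y = bet (p := p) e y x := by
    intro x y
    by_cases h : lS K m0 (p x) ≤ 32 ∧ lS K m0 (p y) ≤ 32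
    · rw [z_bet_pos h.1 h.2, z_bet_pos h.2 h.1]
      exact weD_sym e _ _
    · rw [z_bet_neg h, z_bet_neg fun h' => h ⟨h'.2, h'.1⟩]
  refine mem_Z1.2 ⟨fun x y h => if_neg h, fun x y => ?_, fun x y z h1 h2 h3 => ?_⟩
  · show (if EIn _ _ x y then _ else _) = if EIn _ _ y x then _ else _
    by_cases h : EIn (tw K' N).G (X.We e)ᶜ x y
    · rw [if_pos h, if_pos h.symm]; exact hs _ _
    · rw [if_neg h, if_neg fun h' => h h'.symm]
  · rw [rs_apply h1, rs_apply h2, rs_apply h3]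
    have n1 : Nr (tw K' N).G x y := Or.inr h1.1
    have n2 : Nr (tw K' N).G y z := Or.inr h2.1
    have n3 : Nr (tw K' N).G x z := Or.inr h3.1
    by_cases kx : 33 ≤ lS K m0 (p x)
    · rw [z_bet_neg (x := x) (y := y) (by omega), z_bet_neg (x := x) (y := z) (by omega),
        z_zero T X h2.2.1 h2.2.2 n1.symm n3.symm kx, add_zero]
    by_cases ky : 33 ≤ lS K m0 (p y)
    · rw [z_bet_neg (x := x) (y := y) (by omega), z_bet_neg (x := y) (y := z) (by omega),
        z_zero T X h3.2.1 h3.2.2 n1 n2.symm ky, add_zero]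
    by_cases kz : 33 ≤ lS K m0 (p z)
    · rw [z_bet_neg (x := x) (y := z) (by omega), z_bet_neg (x := y) (y := z) (by omega),
        z_zero T X h1.2.1 h1.2.2 n3 n2 kz, add_zero]
    rw [z_bet_pos (by omega) (by omega), z_bet_pos (by omega) (by omega),
      z_bet_pos (by omega) (by omega)]
    exact weD_coc e _ _ _ (T.nr _ _ n1) (T.nr _ _ n2) (T.nr _ _ n3) (by omega) (by omega)
      (by omega)

include hK T in
theorem bet_non (e) : ¬ Triv (tw K' N).G (X.We e)ᶜ (bet (p := p) e) := by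
  intro ht
  have hB : zB p ⊆ (X.We e)ᶜ := by
    intro x hx hxW
    refine Set.disjoint_left.1 (Wt_B T X e).1 hxW ?_
    exact thk_mono (fun u (hu : lS K m0 u = 0) => by
      show lS K m0 u ≤ 15
      omega) hx
  let A : Ec (tw K m0).G → ZMod 2 := fun e' => if e' = e then 1 else 0
  have hcmb : ∀ x y, cmb A (zwe p) x y = zwe p e x y := by
    intro x y
    show ∑ᶠ i, A i * zwe p i x y = _
    rw [finsum_eq_single _ e]
    · show (if e = e then (1 : ZMod 2) else 0) * _ = _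
      rw [if_pos rfl, one_mul]
    · intro e' he'
      show (if e' = e then (1 : ZMod 2) else 0) * _ = _
      rw [if_neg he', zero_mul]
  have h1 : Triv (tw K' N).G (zB p) (cmb A (zwe p)) := by
    refine (ht.mono hB).congr fun x y e' => ?_
    rw [hcmb]
    have k1 := B_lS e'.2.1
    have k2 := B_lS e'.2.2
    exact z_bet_pos (by omega) (by omega)
  obtain ⟨f, hf⟩ := lb_e hK T A h1
  obtain ⟨s, hs⟩ := ex_tri hK e
  obtain ⟨a, b, hab, he⟩ := Finset.card_eq_two.1 e.2.1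
  have ha : a ∈ e.1 := by rw [he]; simp
  have hb : b ∈ e.1 := by rw [he]; simp
  obtain ⟨c, hc, hce⟩ : ∃ c ∈ s.1, c ∉ e.1 := by
    by_contra hn
    push Not at hn
    have h3 := Finset.card_le_card (fun c hc => hn c hc : s.1 ⊆ e.1)
    have h4 : s.1.card = 3 := s.2.1
    have h5 : e.1.card = 2 := e.2.1
    omega
  have hac : a ≠ c := fun h => hce (h ▸ ha)
  have hbc : b ≠ c := fun h => hce (h ▸ hb)
  have mk : ∀ x y : (tw K m0).V, x ≠ y → x ∈ s.1 → y ∈ s.1 →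
      ∃ e' : Ec (tw K m0).G, e'.1 = {x, y} := by
    intro x y hxy hx hy
    refine ⟨⟨{x, y}, Finset.card_pair hxy, ?_⟩, rfl⟩
    refine s.2.2.subset ?_
    intro z hz
    rw [Finset.mem_coe, Finset.mem_insert, Finset.mem_singleton] at hz
    rcases hz with rfl | rfl
    · exact hx
    · exact hy
  obtain ⟨e1, he1⟩ := mk a c hac (hs ha) hc
  obtain ⟨e2, he2⟩ := mk b c hbc (hs hb) hc
  have g0 := hf e a b hab ha hb
  have g1 := hf e1 a c hac (by rw [he1]; simp) (by rw [he1]; simp)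
  have g2 := hf e2 b c hbc (by rw [he2]; simp) (by rw [he2]; simp)
  have A0 : A e = 1 := if_pos rfl
  have A1 : A e1 = 0 := if_neg fun h => hce (by rw [← h, he1]; simp)
  have A2 : A e2 = 0 := if_neg fun h => hce (by rw [← h, he2]; simp)
  rw [A0] at g0
  rw [A1] at g1
  rw [A2] at g2
  have key : ∀ u v w : ZMod 2, 1 = u + v → 0 = u + w → 0 = v + w → False := by decide
  exact key _ _ _ g0 g1 g2

private theorem z_Nr2 {V : Type} {G : SimpleGraph V} {s t : Cq G} {x y : V} (h : Nr (sd G) s t)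
    (hx : x ∈ s.1) (hy : y ∈ t.1) : Nr G x y := by
  have key : ∀ r : Cq G, x ∈ r.1 → y ∈ r.1 → Nr G x y := by
    intro r h1 h2
    by_cases e : x = y
    · exact Or.inl e
    · exact Or.inr (r.2.2 (Finset.mem_coe.2 h1) (Finset.mem_coe.2 h2) e)
  rcases h with rfl | h | h
  · exact key s hx hy
  · exact key t ((Cq.lt_iff.1 h).1 hx) hy
  · exact key s hx ((Cq.lt_iff.1 h).1 hy)

include hK T in
/-- the class `beta` on the frontier -/
theorem bet_fr (hK' : IsSph3 (tw K' N).G) (e) :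
    ∃ b ∈ Z1 (sd (tw K' N).G) (Fr (tw K' N).G (X.We e)),
      ¬ Triv (sd (tw K' N).G) (Fr (tw K' N).G (X.We e)) b ∧
      Triv (sd (tw K' N).G) (Fm X e) b ∧ Triv (sd (tw K' N).G) (Fp X e) b := by
  have ha := bet_mem T X e
  set M : Set (tw K' N).V := (X.We e)ᶜ with hM
  set a := rs (tw K' N).G M (bet (p := p) e) with ha'
  have hFr : Fr (tw K' N).G (X.We e) ⊆ pl (tw K' N).G M := fun s hs => hs.2
  have hnr : ∀ s t, Nr (sd (tw K' N).G) s t → s ∈ Fr (tw K' N).G (X.We e) →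
      t ∈ Fr (tw K' N).G (X.We e) → Nr (tw K' N).G (pkm M s) (pkm M t) := by
    intro s t h hs ht
    exact z_Nr2 h (pkm_mem (hFr hs)).1 (pkm_mem (hFr ht)).1
  refine ⟨rs (sd (tw K' N).G) (Fr (tw K' N).G (X.We e)) (pbk (pkm M) a),
    pbk_mem ha hnr fun s hs => (pkm_mem (hFr hs)).2, fun ht => ?_, ?_, ?_⟩
  · have ha2 : a ∈ Z1 (tw K' N).G (Set.univ ∩ M) := by rw [Set.univ_inter]; exact ha
    have hF : mi (tw K' N).G Set.univ ∩ Fr (tw K' N).G M = Fr (tw K' N).G (X.We e) := by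
      rw [hM, Fr_compl]
      exact Set.inter_eq_right.2 fun s _ x _ => Set.mem_univ x
    obtain ⟨w, hw, h1, -⟩ := glue0 ha2 (by
      rw [hF]
      exact Triv_rs.1 ht)
    have h2 : Triv (tw K' N).G (Set.univ ∩ M) w := (hK'.hz w hw).mono Set.inter_subset_left
    have h3 := h1.add h2
    have h4 : w + a + w = a := by
      rw [add_comm w a, add_assoc]
      have : w + w = 0 := by
        funext x y; exact two_add _
      rw [this, add_zero]
    rw [h4, Set.univ_inter] at h3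
    exact bet_non hK T X e (Triv_rs.1 h3)
  · refine ⟨fun s => if mnc (p (pkm M s)) = vx (tw K m0).G (e0 e) then 1 else 0, ?_⟩
    intro s t est
    have hs : s ∈ Fr (tw K' N).G (X.We e) := est.2.1.2
    have ht : t ∈ Fr (tw K' N).G (X.We e) := est.2.2.2
    rw [rs_apply ⟨est.1, hs, ht⟩]
    have ls := em_lev e (p (pkm M s)) (est.2.1.1 _ (pkm_mem (hFr hs)).1)
    have lt := em_lev e (p (pkm M t)) (est.2.2.1 _ (pkm_mem (hFr ht)).1)
    have hn := hnr s t (Or.inr est.1) hs ht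
    show a (pkm M s) (pkm M t) = (if mnc (p (pkm M s)) = vx (tw K m0).G (e0 e) then 1 else 0) +
      (if mnc (p (pkm M t)) = vx (tw K m0).G (e0 e) then 1 else 0)
    rcases hn with hn | hn
    · rw [hn, two_add]
      exact if_neg fun h => h.1.ne rfl
    · rw [ha', rs_apply ⟨hn, (pkm_mem (hFr hs)).2, (pkm_mem (hFr ht)).2⟩,
        z_bet_pos ls.2.1 lt.2.1]
      exact weD_pot e _ _ (T.nr _ _ (Or.inr hn)) ls.1 lt.1
  · refine ⟨fun _ => 0, ?_⟩
    intro s t est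
    have hs : s ∈ Fr (tw K' N).G (X.We e) := est.2.1.2
    have ht : t ∈ Fr (tw K' N).G (X.We e) := est.2.2.2
    rw [rs_apply ⟨est.1, hs, ht⟩, add_zero]
    show a (pkm M s) (pkm M t) = 0
    by_cases hE : EIn (tw K' N).G M (pkm M s) (pkm M t)
    · rw [ha', rs_apply hE]
      refine z_bet_neg fun h => ?_
      obtain ⟨-, -, l1, l2⟩ := ep_lev e (p (pkm M s)) (est.2.1.1 _ (pkm_mem (hFr hs)).1)
      have l3 := l2 (by omega)
      exact (pkm_mem (hFr hs)).2 (X.We_in e _ (by omega))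
    · exact if_neg hE

include hK T in
theorem round (hK' : IsSph3 (tw K' N).G) (e) {Cm Cp : Set (Cq (tw K' N).G)} (hm : Cm ⊆ Fm X e)
    (hp : Cp ⊆ Fp X e)
    (hm' : ∀ s, (Triv (sd (tw K' N).G) Cm (pbk pk (zws p s)) ↔ ¬ e.1 ⊆ s.1))
    (hp' : ∀ s, (Triv (sd (tw K' N).G) Cp (pbk pk (zws p s)) ↔ ¬ e.1 ⊆ s.1)) :
    ∀ a ∈ Z1 (sd (tw K' N).G) (Fr (tw K' N).G (X.We e)),
      (Triv (sd (tw K' N).G) Cm a ↔ Triv (sd (tw K' N).G) Cp a) := by
  intro a ha
  obtain ⟨s, hs⟩ := ex_tri hK e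
  obtain ⟨b, hb, nb, bm, bp⟩ := bet_fr hK T X hK' e
  have hw := fr_Z1 hK T X e s hs
  set F := Fr (tw K' N).G (X.We e) with hF
  set w := rs (sd (tw K' N).G) F (pbk pk (zws p s)) with hw'
  have hmF : Fm X e ⊆ F := Set.inter_subset_right
  have hpF : Fp X e ⊆ F := Set.inter_subset_right
  have hwC : ∀ C : Set (Cq (tw K' N).G), C ⊆ F →
      (Triv (sd (tw K' N).G) C w ↔ Triv (sd (tw K' N).G) C (pbk pk (zws p s))) := fun C hC =>
    ⟨fun t => t.congr fun _ _ e' => rs_apply (e'.mono hC),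
      fun t => t.congr fun _ _ e' => (rs_apply (e'.mono hC)).symm⟩
  have wm : ¬ Triv (sd (tw K' N).G) Cm w := fun t =>
    (hm' s).1 ((hwC Cm (hm.trans hmF)).1 t) hs
  have wp : ¬ Triv (sd (tw K' N).G) Cp w := fun t =>
    (hp' s).1 ((hwC Cp (hp.trans hpF)).1 t) hs
  have bm' := bm.mono hm
  have bp' := bp.mono hp
  have hz : ∀ x : Cq (tw K' N).G → Cq (tw K' N).G → ZMod 2, x + x = 0 := fun x => by
    funext i j; exact two_add _
  have nw : ¬ Triv (sd (tw K' N).G) F w := fun t => wm (t.mono (hm.trans hmF))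
  have nwb : ¬ Triv (sd (tw K' N).G) F (w + b) := fun t => wm (by
    have h1 := (t.mono (hm.trans hmF)).add bm'
    rwa [add_assoc, hz, add_zero] at h1)
  have hb2 : b1 (sd (tw K' N).G) F ≤ 2 := by
    rw [hF, b1_Fr hK']
    exact X.We_bb e
  rcases two_gen hb2 hw hb ha nw nb nwb with h | h | h | h
  · exact ⟨fun _ => h.mono (hp.trans hpF), fun _ => h.mono (hm.trans hmF)⟩
  · have k1 : ¬ Triv (sd (tw K' N).G) Cm a := fun t => wm (by
      have h1 := t.add (h.mono (hm.trans hmF))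
      rwa [← add_assoc, hz, zero_add] at h1)
    have k2 : ¬ Triv (sd (tw K' N).G) Cp a := fun t => wp (by
      have h1 := t.add (h.mono (hp.trans hpF))
      rwa [← add_assoc, hz, zero_add] at h1)
    exact ⟨fun t => absurd t k1, fun t => absurd t k2⟩
  · have k1 : Triv (sd (tw K' N).G) Cm a := by
      have h1 := (h.mono (hm.trans hmF)).add bm'
      rwa [add_assoc, hz, add_zero] at h1
    have k2 : Triv (sd (tw K' N).G) Cp a := by
      have h1 := (h.mono (hp.trans hpF)).add bp'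
      rwa [add_assoc, hz, add_zero] at h1
    exact ⟨fun _ => k2, fun _ => k1⟩
  · have k1 : ¬ Triv (sd (tw K' N).G) Cm a := fun t => wm (by
      have h1 := (t.add (h.mono (hm.trans hmF))).add bm'
      rwa [← add_assoc, ← add_assoc, hz, zero_add, add_assoc, hz, add_zero] at h1)
    have k2 : ¬ Triv (sd (tw K' N).G) Cp a := fun t => wp (by
      have h1 := (t.add (h.mono (hp.trans hpF))).add bp'
      rwa [← add_assoc, ← add_assoc, hz, zero_add, add_assoc, hz, add_zero] at h1)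
    exact ⟨fun t => absurd t k1, fun t => absurd t k2⟩

end MOT.Cb
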