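import Pool.Agent.MOT.DuaB

/-!
# MOT/Dua: `H^2 = 0` by duality, `b1 (Fr M) = b1 M + b1 Mᶜ`
-/

open Classical

noncomputable section

namespace MOT

variable {V : Type} {G : SimpleGraph V} {A B M S : Set V}

/-- `H^2 = 0`: `u` lies in the range of the coboundary iff it is orthogonal to
the kernel of the transpose, i.e. to all 2-cycles `w`; `w` is the boundary of `F` by `H2_cycle`, and
`⟨u, ∂F⟩ = ⟨du, F⟩ = 0`. -/
theorem H2_cocycle [Finite V] (h : IsSph3 G) (u : Finset V → ZMod 2)
    (hu : ∀ T : Finset V, G.IsClique (T : Set V) → T.card = 4 → ∑ x ∈ T, u (T.erase x) = 0) :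
    ∃ e : Finset V → ZMod 2, ∀ t : Finset V, G.IsClique (t : Set V) → t.card = 3 →
      u t = ∑ x ∈ t, e (t.erase x) := by
  let u' : Kq G Set.univ 3 → ZMod 2 := fun t => u t.1
  have hmem : u' ∈ LinearMap.range (Matrix.mulVecLin (inc G Set.univ 2)) := by
    by_contra hn
    obtain ⟨φ, hφ, hle⟩ := Submodule.exists_le_ker_of_notMem hn
    let w : Kq G Set.univ 3 → ZMod 2 := fun t => φ (Pi.single t 1)
    have hφw : ∀ v : Kq G Set.univ 3 → ZMod 2, φ v = ∑ t, v t * w t := by
      intro v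
      conv_lhs => rw [pi_eq_sum_univ v]
      rw [map_sum]
      refine Finset.sum_congr rfl fun t _ => ?_
      rw [map_smul, smul_eq_mul]
      congr 2
      funext j
      simp [Pi.single_apply, eq_comm]
    have hw : (Matrix.transpose (inc G Set.univ 2)).mulVec w = 0 := by
      funext e
      have h1 : φ (Matrix.mulVecLin (inc G Set.univ 2) (Pi.single e 1)) = 0 :=
        LinearMap.mem_ker.1 (hle ⟨_, rfl⟩)
      rw [hφw] at h1
      show ∑ t, (Matrix.transpose (inc G Set.univ 2)) e t * w t = 0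
      rw [← h1]
      refine Finset.sum_congr rfl fun t _ => ?_
      rw [Matrix.mulVecLin_apply, Matrix.mulVec_single_one]
      rfl
    obtain ⟨F, hF⟩ := H2_cycle h (wbar w) (by
      intro e he he2
      have h1 : (Matrix.transpose (inc G Set.univ 2)).mulVec w
          (⟨e, he2, he, Set.subset_univ _⟩ : Kq G Set.univ 2) = 0 := congrFun hw _
      have h2 := incT_sum (S := Set.univ) subset_rfl w
        (⟨e, he2, he, Set.subset_univ _⟩ : Kq G Set.univ 2)
      rw [h1] at h2
      exact h2.symm)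
    let F' : Kq G Set.univ 4 → ZMod 2 := fun T => F T.1
    have hwF : w = (Matrix.transpose (inc G Set.univ 3)).mulVec F' := by
      funext t
      rw [incT_sum (S := Set.univ) subset_rfl, ← wbar_val w t, hF t.1 t.2.2.1 t.2.1]
      refine Finset.sum_congr rfl fun z hz => ?_
      have hz' := mem_lkf_univ.1 hz
      have hzn : z ∉ t.1 := fun hh => G.irrefl (hz' z hh)
      unfold wbar
      rw [dif_pos]
      refine ⟨?_, clique_insert t.2.2.1 fun v hv => (hz' v hv).symm, Set.subset_univ _⟩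
      rw [Finset.card_insert_of_notMem hzn, t.2.1]
    have hzero : φ u' = 0 := by
      have h1 : φ u' = u' ⬝ᵥ ((Matrix.transpose (inc G Set.univ 3)).mulVec F') := by
        rw [hφw, ← hwF]; rfl
      rw [h1, Matrix.dotProduct_mulVec, Matrix.vecMul_transpose]
      have h2 : (inc G Set.univ 3).mulVec u' = 0 := by
        funext T
        have h3 : (inc G Set.univ 3).mulVec u' T =
            ∑ t ∈ Finset.univ.filter (fun t : Kq G Set.univ 3 => t.1 ⊆ T.1), u' t := by
          rw [Finset.sum_filter, Matrix.mulVec, dotProduct]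
          refine Finset.sum_congr rfl fun t _ => ?_
          simp only [inc, Matrix.of_apply]
          split_ifs <;> simp
        rw [h3]
        refine Eq.trans (Eq.symm ?_) (hu T.1 T.2.2.1 T.2.1)
        refine Finset.sum_bij (fun x hx => (⟨T.1.erase x, ?_, subset_clique
          (Finset.erase_subset _ _) T.2.2.1, Set.subset_univ _⟩ : Kq G Set.univ 3)) ?_ ?_ ?_ ?_
        · rw [Finset.card_erase_of_mem hx, T.2.1]
        · intro x hx
          exact Finset.mem_filter.2 ⟨Finset.mem_univ _, Finset.erase_subset _ _⟩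
        · intro x hx y hy hxy
          have h' : T.1.erase x = T.1.erase y := congrArg Subtype.val hxy
          by_contra hne
          have : x ∈ T.1.erase y := Finset.mem_erase.2 ⟨hne, hx⟩
          rw [← h'] at this
          exact (Finset.mem_erase.1 this).1 rfl
        · intro t ht
          have ht' := (Finset.mem_filter.1 ht).2
          have h1 : (T.1 \ t.1).card = 1 := by
            rw [Finset.card_sdiff_of_subset ht', t.2.1, T.2.1]
          obtain ⟨z, hz⟩ := Finset.card_eq_one.1 h1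
          have hzt : z ∈ T.1 \ t.1 := by rw [hz]; simp
          rw [Finset.mem_sdiff] at hzt
          refine ⟨z, hzt.1, Subtype.ext ?_⟩
          show T.1.erase z = t.1
          rw [Finset.erase_eq, ← hz, Finset.sdiff_sdiff_eq_self ht']
        · intro x hx
          rfl
      rw [h2, zero_dotProduct]
    exact hφ hzero
  obtain ⟨e, he⟩ := hmem
  refine ⟨wbar e, fun t ht ht3 => ?_⟩
  have h1 : (inc G Set.univ 2).mulVec e (⟨t, ht3, ht, Set.subset_univ _⟩ : Kq G Set.univ 3) =
      u t := congrFun he _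
  obtain ⟨x, y, z, hxy, hxz, hyz, rfl⟩ := Finset.card_eq_three.1 ht3
  have e1 : EIn G Set.univ x y := ⟨ht (by simp) (by simp) hxy, trivial, trivial⟩
  have e2 : EIn G Set.univ y z := ⟨ht (by simp) (by simp) hyz, trivial, trivial⟩
  have e3 : EIn G Set.univ x z := ⟨ht (by simp) (by simp) hxz, trivial, trivial⟩
  have h2 := inc_tri (⟨{x, y, z}, ht3, ht, Set.subset_univ _⟩ : Kq G Set.univ 3) rfl e1 e2 e3 e
  have h3 : u {x, y, z} = e (kp e1) + e (kp e2) + e (kp e3) := h1.symm.trans h2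
  rw [h3, Finset.sum_insert (by simp [hxy, hxz]), Finset.sum_insert (by simp [hyz]),
    Finset.sum_singleton]
  have r1 : ({x, y, z} : Finset V).erase x = {y, z} := by
    ext v; simp only [Finset.mem_erase, Finset.mem_insert, Finset.mem_singleton]
    constructor
    · tauto
    · rintro (rfl | rfl)
      · exact ⟨hxy.symm, by tauto⟩
      · exact ⟨hxz.symm, by tauto⟩
  have r2 : ({x, y, z} : Finset V).erase y = {x, z} := by
    ext v; simp only [Finset.mem_erase, Finset.mem_insert, Finset.mem_singleton]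
    constructor
    · tauto
    · rintro (rfl | rfl)
      · exact ⟨hxy, by tauto⟩
      · exact ⟨hyz.symm, by tauto⟩
  have r3 : ({x, y, z} : Finset V).erase z = {x, y} := by
    ext v; simp only [Finset.mem_erase, Finset.mem_insert, Finset.mem_singleton]
    constructor
    · tauto
    · rintro (rfl | rfl)
      · exact ⟨hxz, by tauto⟩
      · exact ⟨hyz, by tauto⟩
  rw [r1, r2, r3]
  have v1 : wbar e {y, z} = e (kp e2) := wbar_val e (kp e2)
  have v2 : wbar e {x, z} = e (kp e3) := wbar_val e (kp e3)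
  have v3 : wbar e {x, y} = e (kp e1) := wbar_val e (kp e1)
  rw [v1, v2, v3]
  ring

/-- a symmetric function as a function on pairs -/
theorem fin_of_sym {a : V → V → ZMod 2} (hs : ∀ x y, a x y = a y x) :
    ∃ c : Finset V → ZMod 2, ∀ x y, x ≠ y → c {x, y} = a x y := by
  refine ⟨fun s => if h : ∃ x y, x ≠ y ∧ s = {x, y} then a h.choose h.choose_spec.choose else 0,
    ?_⟩
  intro x y hxy
  have h : ∃ x' y', x' ≠ y' ∧ ({x, y} : Finset V) = {x', y'} := ⟨x, y, hxy, rfl⟩
  show dite _ _ _ = _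
  rw [dif_pos h]
  obtain ⟨hne, he⟩ := h.choose_spec.choose_spec
  generalize h.choose_spec.choose = v at hne he ⊢
  generalize h.choose = u at hne he ⊢
  have h1 : u ∈ ({x, y} : Finset V) := by rw [he]; simp
  have h2 : v ∈ ({x, y} : Finset V) := by rw [he]; simp
  simp only [Finset.mem_insert, Finset.mem_singleton] at h1 h2
  rcases h1 with rfl | rfl <;> rcases h2 with rfl | rfl
  · exact absurd rfl hne
  · rfl
  · exact hs _ _
  · exact absurd rfl hne

theorem sum_erase3 (g : Finset V → ZMod 2) {x y z : V} (hxy : x ≠ y) (hxz : x ≠ z)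
    (hyz : y ≠ z) : ∑ v ∈ ({x, y, z} : Finset V), g (({x, y, z} : Finset V).erase v) =
      g {y, z} + g {x, z} + g {x, y} := by
  rw [Finset.sum_insert (by simp [hxy, hxz]), Finset.sum_insert (by simp [hyz]),
    Finset.sum_singleton]
  have r1 : ({x, y, z} : Finset V).erase x = {y, z} := by
    ext v; simp only [Finset.mem_erase, Finset.mem_insert, Finset.mem_singleton]
    constructor
    · tauto
    · rintro (rfl | rfl)
      · exact ⟨hxy.symm, by tauto⟩
      · exact ⟨hxz.symm, by tauto⟩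
  have r2 : ({x, y, z} : Finset V).erase y = {x, z} := by
    ext v; simp only [Finset.mem_erase, Finset.mem_insert, Finset.mem_singleton]
    constructor
    · tauto
    · rintro (rfl | rfl)
      · exact ⟨hxy, by tauto⟩
      · exact ⟨hyz.symm, by tauto⟩
  have r3 : ({x, y, z} : Finset V).erase z = {x, y} := by
    ext v; simp only [Finset.mem_erase, Finset.mem_insert, Finset.mem_singleton]
    constructor
    · tauto
    · rintro (rfl | rfl)
      · exact ⟨hxz, by tauto⟩
      · exact ⟨hyz, by tauto⟩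
  rw [r1, r2, r3]
  ring

theorem sum_erase2_zero (g : Finset V → ZMod 2) (T : Finset V) :
    ∑ x ∈ T, ∑ y ∈ T.erase x, g ((T.erase x).erase y) = 0 := by
  rw [Finset.sum_sigma']
  refine Finset.sum_involution (fun p _ => ⟨p.2, p.1⟩) ?_ ?_ ?_ ?_
  · rintro ⟨x, y⟩ hp
    show g ((T.erase x).erase y) + g ((T.erase y).erase x) = 0
    rw [Finset.erase_right_comm]
    exact two_add _
  · rintro ⟨x, y⟩ hp _ h
    simp only [Finset.mem_sigma, Finset.mem_erase] at hp
    have : y = x := congrArg Sigma.fst h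
    exact hp.2.1 this
  · rintro ⟨x, y⟩ hp
    simp only [Finset.mem_sigma, Finset.mem_erase] at hp ⊢
    exact ⟨hp.2.2, fun h => hp.2.1 h.symm, hp.1⟩
  · rintro ⟨x, y⟩ hp
    rfl

theorem pl_cover : pl G M ∪ pl G Mᶜ = Set.univ := by
  ext s
  simp only [Set.mem_union, Set.mem_univ, iff_true]
  obtain ⟨x, hx⟩ := s.2.1
  by_cases h : x ∈ M
  · exact Or.inl ⟨x, hx, h⟩
  · exact Or.inr ⟨x, hx, h⟩

/-- a clique of `sd G` lies in `pl M` or in `pl Mᶜ` -/
theorem clique_pl {T : Finset (Cq G)} (hT : (sd G).IsClique (T : Set (Cq G)))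
    (h : ¬ (T : Set (Cq G)) ⊆ pl G M) : (T : Set (Cq G)) ⊆ pl G Mᶜ := by
  obtain ⟨s, hs, hsM⟩ := Set.not_subset.1 h
  have hs' : ∀ x ∈ s.1, x ∉ M := fun x hx hxM => hsM ⟨x, hx, hxM⟩
  intro t ht
  by_cases hst : s = t
  · subst hst
    obtain ⟨x, hx⟩ := s.2.1
    exact ⟨x, hx, hs' x hx⟩
  · rcases hT hs ht hst with h1 | h1
    · obtain ⟨x, hx⟩ := s.2.1
      exact ⟨x, (Cq.lt_iff.1 h1).1 hx, hs' x hx⟩
    · obtain ⟨x, hx⟩ := t.2.1
      exact ⟨x, hx, hs' x ((Cq.lt_iff.1 h1).1 hx)⟩

theorem pl_nadj : NAdj (sd G) (pl G M \ pl G Mᶜ) (pl G Mᶜ \ pl G M) := by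
  rintro s ⟨hs, hs'⟩ t ⟨ht, ht'⟩ a
  have h1 : ∀ x ∈ s.1, x ∈ M := fun x hx => by
    by_contra h; exact hs' ⟨x, hx, h⟩
  have h2 : ∀ x ∈ t.1, x ∉ M := fun x hx h => ht' ⟨x, hx, h⟩
  rcases a with a | a
  · obtain ⟨x, hx⟩ := s.2.1
    exact h2 x ((Cq.lt_iff.1 a).1 hx) (h1 x hx)
  · obtain ⟨x, hx⟩ := t.2.1
    exact h2 x hx (h1 x ((Cq.lt_iff.1 a).1 hx))

/-- surjectivity `H^1(pl M) + H^1(pl Mᶜ) → H^1(Fr M)`. -/
theorem fr_split [Finite V] (h : IsSph3 G) {c : Cq G → Cq G → ZMod 2}
    (hc : c ∈ Z1 (sd G) (Fr G M)) : ∃ a ∈ Z1 (sd G) (pl G M), ∃ b ∈ Z1 (sd G) (pl G Mᶜ),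
      Triv (sd G) (Fr G M) (a + b + c) := by
  obtain ⟨h0, hs, hcc⟩ := mem_Z1.1 hc
  obtain ⟨cF, hcF⟩ := fin_of_sym hs
  let u : Finset (Cq G) → ZMod 2 := fun t =>
    if (t : Set (Cq G)) ⊆ pl G M then ∑ x ∈ t, cF (t.erase x) else 0
  -- the cocycle condition of `c` on triangles in the frontier
  have hfr : ∀ t : Finset (Cq G), (sd G).IsClique (t : Set (Cq G)) → t.card = 3 →
      (t : Set (Cq G)) ⊆ pl G M → (t : Set (Cq G)) ⊆ pl G Mᶜ →
      ∑ x ∈ t, cF (t.erase x) = 0 := by
    intro t ht ht3 h1 h2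
    obtain ⟨x, y, z, hxy, hxz, hyz, rfl⟩ := Finset.card_eq_three.1 ht3
    have hx : x ∈ Fr G M := ⟨h1 (by simp), h2 (by simp)⟩
    have hy : y ∈ Fr G M := ⟨h1 (by simp), h2 (by simp)⟩
    have hz : z ∈ Fr G M := ⟨h1 (by simp), h2 (by simp)⟩
    rw [sum_erase3 cF hxy hxz hyz, hcF y z hyz, hcF x z hxz, hcF x y hxy]
    have := hcc x y z ⟨ht (by simp) (by simp) hxy, hx, hy⟩ ⟨ht (by simp) (by simp) hyz, hy, hz⟩
      ⟨ht (by simp) (by simp) hxz, hx, hz⟩
    rw [← this]
    have t1 := two_add (c x y)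
    have t2 := two_add (c y z)
    calc c y z + (c x y + c y z) + c x y = (c x y + c x y) + (c y z + c y z) := by ring
      _ = 0 := by rw [t1, t2, add_zero]
  have hu : ∀ T : Finset (Cq G), (sd G).IsClique (T : Set (Cq G)) → T.card = 4 →
      ∑ x ∈ T, u (T.erase x) = 0 := by
    intro T hT hT4
    by_cases hM : (T : Set (Cq G)) ⊆ pl G M
    · have : ∀ x ∈ T, u (T.erase x) = ∑ y ∈ T.erase x, cF ((T.erase x).erase y) := by
        intro x hx
        exact if_pos (fun y hy => hM (Finset.mem_coe.2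
          (Finset.mem_of_mem_erase (Finset.mem_coe.1 hy))))
      rw [Finset.sum_congr rfl this]
      exact sum_erase2_zero cF T
    · have hM' := clique_pl hT hM
      refine Finset.sum_eq_zero fun x hx => ?_
      by_cases h1 : ((T.erase x : Finset (Cq G)) : Set (Cq G)) ⊆ pl G M
      · show ite _ _ _ = _
        rw [if_pos h1]
        refine hfr _ (subset_clique (Finset.erase_subset _ _) hT) ?_ h1 ?_
        · rw [Finset.card_erase_of_mem hx, hT4]
        · exact fun y hy => hM' (Finset.mem_coe.2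
            (Finset.mem_of_mem_erase (Finset.mem_coe.1 hy)))
      · exact if_neg h1
  obtain ⟨e, he⟩ := H2_cocycle (sd_sph3 h) u hu
  have he3 : ∀ x y z, (sd G).Adj x y → (sd G).Adj y z → (sd G).Adj x z →
      u {x, y, z} = e {y, z} + e {x, z} + e {x, y} := by
    intro x y z a1 a2 a3
    have hcl : (sd G).IsClique (({x, y, z} : Finset (Cq G)) : Set (Cq G)) :=
      clique_insert (s := {y, z}) (clique_insert (s := {z}) (by simp) (by simpa using a2))
        (by
          intro v hv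
          simp only [Finset.mem_insert, Finset.mem_singleton] at hv
          rcases hv with rfl | rfl
          · exact a1
          · exact a3)
    rw [he _ hcl (Finset.card_eq_three.2 ⟨x, y, z, a1.ne, a3.ne, a2.ne, rfl⟩),
      sum_erase3 e a1.ne a3.ne a2.ne]
  refine ⟨fun x y => if EIn (sd G) (pl G M) x y then cF {x, y} + e {x, y} else 0, ?_,
    fun x y => if EIn (sd G) (pl G Mᶜ) x y then e {x, y} else 0, ?_, ?_⟩
  · refine mem_Z1.2 ⟨fun x y e => if_neg e, fun x y => ?_, fun x y z e1 e2 e3 => ?_⟩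
    · by_cases e : EIn (sd G) (pl G M) x y
      · simp only [if_pos e, if_pos e.symm, Finset.pair_comm]
      · simp only [if_neg e, if_neg (fun e' => e (EIn.symm e'))]
    · simp only [if_pos e1, if_pos e2, if_pos e3]
      have h1 := he3 x y z e1.1 e2.1 e3.1
      have h2 : u {x, y, z} = cF {y, z} + cF {x, z} + cF {x, y} := by
        show ite _ _ _ = _
        rw [if_pos, sum_erase3 cF e1.1.ne e3.1.ne e2.1.ne]
        intro v hv
        simp only [Finset.coe_insert, Finset.coe_singleton, Set.mem_insert_iff,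
          Set.mem_singleton_iff] at hv
        rcases hv with rfl | rfl | rfl
        · exact e1.2.1
        · exact e1.2.2
        · exact e2.2.2
      rw [h1] at h2
      have h3 : e {y, z} + e {x, z} + e {x, y} + (cF {y, z} + cF {x, z} + cF {x, y}) = 0 := by
        rw [h2]; exact two_add _
      rw [← z2_eq]
      calc cF {x, y} + e {x, y} + (cF {y, z} + e {y, z}) + (cF {x, z} + e {x, z}) =
          e {y, z} + e {x, z} + e {x, y} + (cF {y, z} + cF {x, z} + cF {x, y}) := by ring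
        _ = 0 := h3
  · refine mem_Z1.2 ⟨fun x y e => if_neg e, fun x y => ?_, fun x y z e1 e2 e3 => ?_⟩
    · by_cases e : EIn (sd G) (pl G Mᶜ) x y
      · simp only [if_pos e, if_pos e.symm, Finset.pair_comm]
      · simp only [if_neg e, if_neg (fun e' => e (EIn.symm e'))]
    · simp only [if_pos e1, if_pos e2, if_pos e3]
      have h1 := he3 x y z e1.1 e2.1 e3.1
      have hM' : (({x, y, z} : Finset (Cq G)) : Set (Cq G)) ⊆ pl G Mᶜ := by
        intro v hv
        simp only [Finset.coe_insert, Finset.coe_singleton, Set.mem_insert_iff,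
          Set.mem_singleton_iff] at hv
        rcases hv with rfl | rfl | rfl
        · exact e1.2.1
        · exact e1.2.2
        · exact e2.2.2
      have h2 : u {x, y, z} = 0 := by
        by_cases hM : (({x, y, z} : Finset (Cq G)) : Set (Cq G)) ⊆ pl G M
        · show ite _ _ _ = _
          rw [if_pos hM]
          refine hfr _ ?_ (Finset.card_eq_three.2 ⟨x, y, z, e1.1.ne, e3.1.ne, e2.1.ne, rfl⟩)
            hM hM'
          exact clique_insert (s := {y, z}) (clique_insert (s := {z}) (by simp)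
            (by simpa using e2.1)) (by
              intro v hv
              simp only [Finset.mem_insert, Finset.mem_singleton] at hv
              rcases hv with rfl | rfl
              · exact e1.1
              · exact e3.1)
        · exact if_neg hM
      rw [h1] at h2
      rw [← z2_eq]
      calc e {x, y} + e {y, z} + e {x, z} = e {y, z} + e {x, z} + e {x, y} := by ring
        _ = 0 := h2
  · refine ⟨0, fun x y exy => ?_⟩
    have e1 : EIn (sd G) (pl G M) x y := ⟨exy.1, exy.2.1.1, exy.2.2.1⟩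
    have e2 : EIn (sd G) (pl G Mᶜ) x y := ⟨exy.1, exy.2.1.2, exy.2.2.2⟩
    simp only [Pi.add_apply, if_pos e1, if_pos e2, Pi.zero_apply, add_zero]
    rw [hcF x y exy.1.ne]
    calc c x y + e {x, y} + e {x, y} + c x y = (c x y + c x y) + (e {x, y} + e {x, y}) := by ring
      _ = 0 := by rw [two_add, two_add, add_zero]

theorem hz_sd [Finite V] (h : IsSph3 G) : HZ (sd G) Set.univ := (sd_sph3 h).hz

/-- `b1 (Fr M) = b1 M + b1 Mᶜ` -/
theorem b1_Fr [Finite V] (h : IsSph3 G) : b1 (sd G) (Fr G M) = bb G M := by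
  have h1 := mv_b1_eq (G := sd G) (A := pl G M) (B := pl G Mᶜ) pl_nadj
    (by rw [pl_cover]; exact hz_sd h) (fun c hc => fr_split h hc)
  rw [bt_b1 (M := M) mi_sub_pl subset_rfl, bt_b1 (M := Mᶜ) mi_sub_pl subset_rfl] at h1
  exact h1.symm

theorem b0_Fr [Finite V] (h : IsSph3 G) :
    b0 (sd G) (Fr G M) + 1 = b0 G M + b0 G Mᶜ := by
  have h1 := mv_b0 (G := sd G) (A := pl G M) (B := pl G Mᶜ) pl_nadj
    (by rw [pl_cover]; exact hz_sd h) (by rw [pl_cover]; exact (sd_sph3 h).conn)
  rw [bt_b0 (M := M) mi_sub_pl subset_rfl, bt_b0 (M := Mᶜ) mi_sub_pl subset_rfl] at h1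
  exact h1

theorem Fr_Conn [Finite V] (h : IsSph3 G) (h1 : Conn G M) (h2 : Conn G Mᶜ) :
    Conn (sd G) (Fr G M) := by
  have h3 := b0_Fr h (M := M)
  rw [b0_eq_one.2 h1, b0_eq_one.2 h2] at h3
  exact b0_eq_one.1 (by omega)

theorem Fr_union (hd : Disjoint A B) (hn : NAdj G A B) :
    Fr G (A ∪ B) = Fr G A ∪ Fr G B ∧ Disjoint (Fr G A) (Fr G B) ∧
      NAdj (sd G) (Fr G A) (Fr G B) := by
  have key : ∀ s : Cq G, ∀ x ∈ s.1, ∀ y ∈ s.1, x ∈ A → y ∈ B → False := by
    intro s x hx y hy hxA hyB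
    by_cases hxy : x = y
    · subst hxy; exact Set.disjoint_left.1 hd hxA hyB
    · exact hn x hxA y hyB (s.2.2 (Finset.mem_coe.2 hx) (Finset.mem_coe.2 hy) hxy)
  refine ⟨?_, ?_, ?_⟩
  · ext s
    constructor
    · rintro ⟨⟨x, hx, hxA | hxB⟩, y, hy, hyn⟩
      · exact Or.inl ⟨⟨x, hx, hxA⟩, y, hy, fun h => hyn (Or.inl h)⟩
      · exact Or.inr ⟨⟨x, hx, hxB⟩, y, hy, fun h => hyn (Or.inr h)⟩
    · rintro (⟨⟨x, hx, hxA⟩, y, hy, hyn⟩ | ⟨⟨x, hx, hxB⟩, y, hy, hyn⟩)
      · exact ⟨⟨x, hx, Or.inl hxA⟩, y, hy, fun h => h.elim hyn (fun hB => key s x hx y hy hxA hB)⟩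
      · exact ⟨⟨x, hx, Or.inr hxB⟩, y, hy, fun h => h.elim (fun hA => key s y hy x hx hA hxB) hyn⟩
  · rw [Set.disjoint_left]
    rintro s ⟨⟨x, hx, hxA⟩, -⟩ ⟨⟨y, hy, hyB⟩, -⟩
    exact key s x hx y hy hxA hyB
  · rintro s ⟨⟨x, hx, hxA⟩, -⟩ t ⟨⟨y, hy, hyB⟩, -⟩ a
    rcases a with a | a
    · exact key t x ((Cq.lt_iff.1 a).1 hx) y hy hxA hyB
    · exact key s x hx y ((Cq.lt_iff.1 a).1 hy) hxA hyB

theorem bb_disj [Finite V] (h : IsSph3 G) (hd : Disjoint A B) (hn : NAdj G A B) :
    bb G (A ∪ B) = bb G A + bb G B := by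
  obtain ⟨h1, h2, h3⟩ := Fr_union hd hn
  rw [← b1_Fr h, h1, b1_disj h2 h3, b1_Fr h, b1_Fr h]

/-- restriction of classes from the frontier -/
theorem Fr_Inj (hz : HZ (sd G) Set.univ) : Inj (sd G) (pl G M) (Fr G M) := by
  rintro a ha ⟨f, hf⟩
  obtain ⟨h0, hs, hc⟩ := mem_Z1.1 ha
  let a' : Cq G → Cq G → ZMod 2 := a + cb (sd G) (pl G M) f
  have ha' : a' ∈ Z1 (sd G) (pl G M) := (Z1 (sd G) (pl G M)).add_mem ha (cb_mem f)
  obtain ⟨h0', hs', hc'⟩ := mem_Z1.1 ha'
  have hF : ∀ x y, EIn (sd G) (Fr G M) x y → a' x y = 0 := by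
    intro x y e
    have e' : EIn (sd G) (pl G M) x y := ⟨e.1, e.2.1.1, e.2.2.1⟩
    show a x y + cb (sd G) (pl G M) f x y = 0
    rw [hf x y e, cb_apply e']
    exact two_add _
  have hU : a' ∈ Z1 (sd G) Set.univ := by
    refine mem_Z1.2 ⟨fun x y e => h0' x y (fun e' => e (e'.mono (Set.subset_univ _))), hs',
      fun x y z e1 e2 e3 => ?_⟩
    by_cases hM : (({x, y, z} : Finset (Cq G)) : Set (Cq G)) ⊆ pl G M
    · have hx : x ∈ pl G M := hM (by simp)
      have hy : y ∈ pl G M := hM (by simp)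
      have hz : z ∈ pl G M := hM (by simp)
      exact hc' x y z ⟨e1.1, hx, hy⟩ ⟨e2.1, hy, hz⟩ ⟨e3.1, hx, hz⟩
    · have hcl : (sd G).IsClique (({x, y, z} : Finset (Cq G)) : Set (Cq G)) :=
        clique_insert (s := {y, z}) (clique_insert (s := {z}) (by simp) (by simpa using e2.1))
          (by
            intro v hv
            simp only [Finset.mem_insert, Finset.mem_singleton] at hv
            rcases hv with rfl | rfl
            · exact e1.1
            · exact e3.1)
      have hM' := clique_pl hcl hM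
      have hx : x ∈ pl G Mᶜ := hM' (by simp)
      have hy : y ∈ pl G Mᶜ := hM' (by simp)
      have hz : z ∈ pl G Mᶜ := hM' (by simp)
      have hzero : ∀ s t, (sd G).Adj s t → s ∈ pl G Mᶜ → t ∈ pl G Mᶜ → a' s t = 0 := by
        intro s t ad h1 h2
        by_cases e : EIn (sd G) (pl G M) s t
        · exact hF s t ⟨ad, ⟨e.2.1, h1⟩, e.2.2, h2⟩
        · exact h0' s t e
      rw [hzero x y e1.1 hx hy, hzero y z e2.1 hy hz, hzero x z e3.1 hx hz, add_zero]
  obtain ⟨g, hg⟩ := hz a' hU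
  refine ⟨g + f, fun x y e => ?_⟩
  have h1 := hg x y (e.mono (Set.subset_univ _))
  have h2 : a' x y = a x y + (f x + f y) := by
    show a x y + cb (sd G) (pl G M) f x y = _
    rw [cb_apply e]
  rw [h2] at h1
  have t1 := two_add (f x + f y)
  calc a x y = a x y + (f x + f y + (f x + f y)) := by rw [t1, add_zero]
    _ = (a x y + (f x + f y)) + (f x + f y) := by ring
    _ = g x + g y + (f x + f y) := by rw [h1]
    _ = (g + f) x + (g + f) y := by simp only [Pi.add_apply]; ring

end MOT
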