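import Pool.Agent.MOT.Tw
import Pool.Agent.MOT.Dua

/-!
# MOT/Lab: level functions and their subdivision (helper82)

`lsd f s = min f + max f` on the simplex `s`.  If `f` is 1-Lipschitz, `f` takes at most two consecutive
values on a simplex, `{lsd f ≤ 2i} = mi {f ≤ i}`, `{lsd f ≤ 2i+1} = pl {f ≤ i}`, `{lsd f = 2i} = mi {f = i}`,
`{lsd f = 2i+1} = Fr {f ≤ i}` (`i < N` for the last one, otherwise empty), and `lsd f` is 1-Lipschitz.
-/

open Classical

noncomputable section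

namespace MOT

variable {V : Type} {G : SimpleGraph V} {f : V → ℕ} {N r i : ℕ}

/-- minimum plus maximum of `f` on the simplex `s` -/
def lsd (f : V → ℕ) (s : Cq G) : ℕ := s.1.inf' s.2.1 f + s.1.sup' s.2.1 f

/-- `0` on `M`, `1` outside -/
def ind (M : Set V) (x : V) : ℕ := if x ∈ M then 0 else 1

/-- the iterated level function -/
def lN (K : Lv) (n : ℕ) (f : (tw K n).V → ℕ) : (k : ℕ) → (tw K (n + k)).V → ℕ
  | 0 => f
  | k + 1 => lsd (G := (tw K (n + k)).G) (lN K n f k)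

/-- a collar: all level sets have `b_1 ≤ r`, all sublevel sets are connected with connected
complement and `b ≤ r` -/
structure LV (G : SimpleGraph V) (f : V → ℕ) (N r : ℕ) : Prop where
  lip : ∀ x y, G.Adj x y → f x ≤ f y + 1
  le : ∀ x, f x ≤ N
  lo : ∀ i, i < N → Conn G {x | f x ≤ i}
  hi : ∀ i, i < N → Conn G {x | f x ≤ i}ᶜ
  bb : ∀ i, i < N → bb G {x | f x ≤ i} ≤ r
  b1 : ∀ i, 0 < i → i < N → b1 G {x | f x = i} ≤ r

private theorem inf_le {s : Cq G} {g : V → ℕ} {x : V} (hx : x ∈ s.1) : s.1.inf' s.2.1 g ≤ g x :=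
  Finset.inf'_le g hx

private theorem le_sup {s : Cq G} {g : V → ℕ} {x : V} (hx : x ∈ s.1) : g x ≤ s.1.sup' s.2.1 g :=
  Finset.le_sup' g hx

private theorem ex_inf (s : Cq G) (g : V → ℕ) : ∃ x ∈ s.1, s.1.inf' s.2.1 g = g x :=
  Finset.exists_mem_eq_inf' s.2.1 g

private theorem ex_sup (s : Cq G) (g : V → ℕ) : ∃ x ∈ s.1, s.1.sup' s.2.1 g = g x :=
  Finset.exists_mem_eq_sup' s.2.1 g

private theorem inf_le_sup (s : Cq G) (g : V → ℕ) : s.1.inf' s.2.1 g ≤ s.1.sup' s.2.1 g := by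
  obtain ⟨x, hx⟩ := s.2.1
  exact (inf_le hx).trans (le_sup hx)

section lip

variable (hl : ∀ x y, G.Adj x y → f x ≤ f y + 1)

include hl

private theorem sup_le_inf (s : Cq G) : s.1.sup' s.2.1 f ≤ s.1.inf' s.2.1 f + 1 := by
  obtain ⟨x, hx, ex⟩ := ex_sup s f
  obtain ⟨y, hy, ey⟩ := ex_inf s f
  rw [ex, ey]
  by_cases hxy : x = y
  · rw [hxy]; omega
  · exact hl x y (s.2.2 (Finset.mem_coe.2 hx) (Finset.mem_coe.2 hy) hxy)

theorem lsd_lip (s t : Cq G) (h : (sd G).Adj s t) : lsd f s ≤ lsd f t + 1 := by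
  have hs := sup_le_inf hl s
  have ht := sup_le_inf hl t
  have h1 := inf_le_sup s f
  have h2 := inf_le_sup t f
  unfold lsd
  rcases sd_adj.1 h with h | h
  · have hsub := (Cq.lt_iff.1 h).1
    obtain ⟨x, hx, ex⟩ := ex_sup s f
    have h3 : f x ≤ t.1.sup' t.2.1 f := le_sup (hsub hx)
    omega
  · have hsub := (Cq.lt_iff.1 h).1
    obtain ⟨x, hx, ex⟩ := ex_inf t f
    have h3 : s.1.inf' s.2.1 f ≤ f x := inf_le (hsub hx)
    omega

theorem lsd_even : {s : Cq G | lsd f s ≤ 2 * i} = mi G {x | f x ≤ i} := by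
  ext s
  have hs := sup_le_inf hl s
  show lsd f s ≤ 2 * i ↔ ∀ x ∈ s.1, f x ≤ i
  constructor
  · intro h x hx
    have h3 : f x ≤ s.1.sup' s.2.1 f := le_sup hx
    unfold lsd at h
    omega
  · intro h
    obtain ⟨x, hx, ex⟩ := ex_sup s f
    have h1 := inf_le_sup s f
    have h2 := h x hx
    unfold lsd
    omega

theorem lsd_odd : {s : Cq G | lsd f s ≤ 2 * i + 1} = pl G {x | f x ≤ i} := by
  ext s
  have hs := sup_le_inf hl s
  have h1 := inf_le_sup s f
  show lsd f s ≤ 2 * i + 1 ↔ ∃ x ∈ s.1, f x ≤ i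
  constructor
  · intro h
    obtain ⟨x, hx, ex⟩ := ex_inf s f
    refine ⟨x, hx, ?_⟩
    unfold lsd at h
    omega
  · rintro ⟨x, hx, h⟩
    have h3 : s.1.inf' s.2.1 f ≤ f x := inf_le hx
    unfold lsd
    omega

theorem lsd_eq_even : {s : Cq G | lsd f s = 2 * i} = mi G {x | f x = i} := by
  ext s
  have hs := sup_le_inf hl s
  have h1 := inf_le_sup s f
  show lsd f s = 2 * i ↔ ∀ x ∈ s.1, f x = i
  constructor
  · intro h x hx
    have h3 : f x ≤ s.1.sup' s.2.1 f := le_sup hx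
    have h4 : s.1.inf' s.2.1 f ≤ f x := inf_le hx
    unfold lsd at h
    omega
  · intro h
    obtain ⟨x, hx, ex⟩ := ex_sup s f
    obtain ⟨y, hy, ey⟩ := ex_inf s f
    unfold lsd
    rw [ex, ey, h x hx, h y hy]
    omega

theorem lsd_eq_odd : {s : Cq G | lsd f s = 2 * i + 1} = Fr G {x | f x ≤ i} := by
  ext s
  have hs := sup_le_inf hl s
  have h1 := inf_le_sup s f
  show lsd f s = 2 * i + 1 ↔ (∃ x ∈ s.1, f x ≤ i) ∧ ∃ x ∈ s.1, ¬ f x ≤ i
  constructor
  · intro h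
    obtain ⟨x, hx, ex⟩ := ex_sup s f
    obtain ⟨y, hy, ey⟩ := ex_inf s f
    unfold lsd at h
    exact ⟨⟨y, hy, by omega⟩, x, hx, by omega⟩
  · rintro ⟨⟨y, hy, h2⟩, x, hx, h3⟩
    have h4 : f x ≤ s.1.sup' s.2.1 f := le_sup hx
    have h5 : s.1.inf' s.2.1 f ≤ f y := inf_le hy
    unfold lsd
    omega

end lip

theorem LV_base {M : Set V} (h1 : Conn G M) (h2 : Conn G Mᶜ) (h3 : bb G M ≤ r) :
    LV G (ind M) 1 r := by
  have h0 : ∀ i, i < 1 → {x | ind M x ≤ i} = M := by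
    intro i hi
    ext x
    show ind M x ≤ i ↔ x ∈ M
    unfold ind
    split_ifs with h
    · exact ⟨fun _ => h, fun _ => Nat.zero_le _⟩
    · exact ⟨fun h' => by omega, fun h' => absurd h' h⟩
  have hle : ∀ x, ind M x ≤ 1 := by
    intro x
    unfold ind
    split_ifs <;> omega
  refine ⟨fun x y _ => ?_, hle, fun i hi => ?_, fun i hi => ?_, fun i hi => ?_, fun i h0' hi => ?_⟩
  · have := hle x
    omega
  · rw [h0 i hi]; exact h1
  · rw [h0 i hi]; exact h2
  · rw [h0 i hi]; exact h3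
  · omega

theorem LV.sd [Finite V] (hG : IsSph3 G) (h : LV G f N r) : LV (sd G) (lsd (G := G) f) (2 * N) r := by
  have hlip : ∀ x y, G.Adj x y → f x ≤ f y + 1 := h.lip
  refine ⟨fun s t e => lsd_lip hlip s t e, fun s => ?_, fun j hj => ?_, fun j hj => ?_,
    fun j hj => ?_, fun j h0 hj => ?_⟩
  · have h1 : s ∈ mi G {x | f x ≤ N} := fun x _ => h.le x
    rw [← lsd_even hlip] at h1
    exact h1
  · rcases Nat.even_or_odd' j with ⟨i, rfl | rfl⟩
    · rw [lsd_even hlip]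
      exact sd_Conn.2 (h.lo i (by omega))
    · rw [lsd_odd hlip]
      exact (bt_Conn mi_sub_pl subset_rfl).2 (h.lo i (by omega))
  · rcases Nat.even_or_odd' j with ⟨i, rfl | rfl⟩
    · rw [lsd_even hlip, compl_mi]
      exact (bt_Conn mi_sub_pl subset_rfl).2 (h.hi i (by omega))
    · rw [lsd_odd hlip, compl_pl]
      exact sd_Conn.2 (h.hi i (by omega))
  · rcases Nat.even_or_odd' j with ⟨i, rfl | rfl⟩
    · rw [lsd_even hlip, bt_bb (M := {x | f x ≤ i}) subset_rfl mi_sub_pl]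
      exact h.bb i (by omega)
    · rw [lsd_odd hlip, bt_bb (M := {x | f x ≤ i}) mi_sub_pl subset_rfl]
      exact h.bb i (by omega)
  · rcases Nat.even_or_odd' j with ⟨i, rfl | rfl⟩
    · rw [lsd_eq_even hlip, sd_b1]
      exact h.b1 i (by omega) (by omega)
    · rw [lsd_eq_odd hlip, b1_Fr hG]
      exact h.bb i (by omega)

theorem LV_lN {K : Lv} {n : ℕ} (hG : IsSph3 (tw K n).G) {f : (tw K n).V → ℕ}
    (h : LV (tw K n).G f N r) (k : ℕ) : LV (tw K (n + k)).G (lN K n f k) (2 ^ k * N) r := by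
  have hS : ∀ k, IsSph3 (tw K (n + k)).G := by
    intro k
    induction k with
    | zero => exact hG
    | succ k ih => exact sd_sph3 ih
  induction k with
  | zero =>
    show LV (tw K n).G f (2 ^ 0 * N) r
    rw [pow_zero, one_mul]
    exact h
  | succ k ih =>
    have h1 := ih.sd (hS k)
    have h2 : 2 * (2 ^ k * N) = 2 ^ (k + 1) * N := by ring
    rw [h2] at h1
    exact h1

/-! bounds of `lN` by the values on the carrier -/

theorem lN_le {K : Lv} {n k : ℕ} {f : (tw K n).V → ℕ} {x : (tw K (n + k)).V} {c : ℕ}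
    (h : ∀ u ∈ car K n k x, f u ≤ c) : lN K n f k x ≤ 2 ^ k * c := by
  induction k with
  | zero =>
    show f x ≤ 2 ^ 0 * c
    rw [pow_zero, one_mul]
    exact h x rfl
  | succ k ih =>
    revert x
    intro (s : Cq (tw K (n + k)).G) h
    have hy : ∀ y ∈ s.1, lN K n f k y ≤ 2 ^ k * c := fun y hy => ih fun u hu => h u ⟨y, hy, hu⟩
    obtain ⟨x, hx, ex⟩ := ex_sup s (lN K n f k)
    have h1 := inf_le_sup s (lN K n f k)
    have h2 := hy x hx
    have h3 : 2 ^ (k + 1) * c = 2 ^ k * c + 2 ^ k * c := by ring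
    show s.1.inf' s.2.1 (lN K n f k) + s.1.sup' s.2.1 (lN K n f k) ≤ _
    omega

theorem le_lN {K : Lv} {n k : ℕ} {f : (tw K n).V → ℕ} {x : (tw K (n + k)).V} {c : ℕ}
    (h : ∀ u ∈ car K n k x, c ≤ f u) : 2 ^ k * c ≤ lN K n f k x := by
  induction k with
  | zero =>
    show 2 ^ 0 * c ≤ f x
    rw [pow_zero, one_mul]
    exact h x rfl
  | succ k ih =>
    revert x
    intro (s : Cq (tw K (n + k)).G) h
    have hy : ∀ y ∈ s.1, 2 ^ k * c ≤ lN K n f k y := fun y hy => ih fun u hu => h u ⟨y, hy, hu⟩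
    obtain ⟨x, hx, ex⟩ := ex_inf s (lN K n f k)
    have h1 := inf_le_sup s (lN K n f k)
    have h2 := hy x hx
    have h3 : 2 ^ (k + 1) * c = 2 ^ k * c + 2 ^ k * c := by ring
    show _ ≤ s.1.inf' s.2.1 (lN K n f k) + s.1.sup' s.2.1 (lN K n f k)
    omega

/-- strict version: some value on the carrier is larger than the minimum bound -/
theorem lt_lN {K : Lv} {n k : ℕ} {f : (tw K n).V → ℕ} {x : (tw K (n + k)).V} {c : ℕ}
    (h : ∀ u ∈ car K n k x, c ≤ f u) (h' : ∃ u ∈ car K n k x, c < f u) :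
    2 ^ k * c < lN K n f k x := by
  induction k with
  | zero =>
    show 2 ^ 0 * c < f x
    rw [pow_zero, one_mul]
    obtain ⟨u, hu, hc⟩ := h'
    have : u = x := hu
    rw [← this]
    exact hc
  | succ k ih =>
    revert x
    intro (s : Cq (tw K (n + k)).G) h h'
    obtain ⟨u, ⟨y, hys, hu⟩, hc⟩ := h'
    have h1 : 2 ^ k * c < lN K n f k y := ih (fun u hu => h u ⟨y, hys, hu⟩) ⟨u, hu, hc⟩
    have hy : ∀ y ∈ s.1, 2 ^ k * c ≤ lN K n f k y := fun y hy => le_lN fun u hu => h u ⟨y, hy, hu⟩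
    obtain ⟨x, hx, ex⟩ := ex_inf s (lN K n f k)
    have h2 := hy x hx
    have h4 : lN K n f k y ≤ s.1.sup' s.2.1 (lN K n f k) := le_sup hys
    have h3 : 2 ^ (k + 1) * c = 2 ^ k * c + 2 ^ k * c := by ring
    show _ < s.1.inf' s.2.1 (lN K n f k) + s.1.sup' s.2.1 (lN K n f k)
    omega

theorem lN_lt {K : Lv} {n k : ℕ} {f : (tw K n).V → ℕ} {x : (tw K (n + k)).V} {c : ℕ}
    (h : ∀ u ∈ car K n k x, f u ≤ c) (h' : ∃ u ∈ car K n k x, f u < c) :
    lN K n f k x < 2 ^ k * c := by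
  induction k with
  | zero =>
    show f x < 2 ^ 0 * c
    rw [pow_zero, one_mul]
    obtain ⟨u, hu, hc⟩ := h'
    have : u = x := hu
    rw [← this]
    exact hc
  | succ k ih =>
    revert x
    intro (s : Cq (tw K (n + k)).G) h h'
    obtain ⟨u, ⟨y, hys, hu⟩, hc⟩ := h'
    have h1 : lN K n f k y < 2 ^ k * c := ih (fun u hu => h u ⟨y, hys, hu⟩) ⟨u, hu, hc⟩
    have hy : ∀ y ∈ s.1, lN K n f k y ≤ 2 ^ k * c := fun y hy => lN_le fun u hu => h u ⟨y, hy, hu⟩
    obtain ⟨x, hx, ex⟩ := ex_sup s (lN K n f k)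
    have h2 := hy x hx
    have h4 : s.1.inf' s.2.1 (lN K n f k) ≤ lN K n f k y := inf_le hys
    have h3 : 2 ^ (k + 1) * c = 2 ^ k * c + 2 ^ k * c := by ring
    show s.1.inf' s.2.1 (lN K n f k) + s.1.sup' s.2.1 (lN K n f k) < _
    omega

/-- `lN` depends only on the values on the carrier -/
theorem lN_congr {K : Lv} {n k : ℕ} {f g : (tw K n).V → ℕ} {x : (tw K (n + k)).V}
    (h : ∀ u ∈ car K n k x, f u = g u) : lN K n f k x = lN K n g k x := by
  induction k with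
  | zero => exact h x rfl
  | succ k ih =>
    revert x
    intro (s : Cq (tw K (n + k)).G) h
    have hy : ∀ y ∈ s.1, lN K n f k y = lN K n g k y := fun y hy => ih fun u hu => h u ⟨y, hy, hu⟩
    show s.1.inf' s.2.1 (lN K n f k) + s.1.sup' s.2.1 (lN K n f k) =
      s.1.inf' s.2.1 (lN K n g k) + s.1.sup' s.2.1 (lN K n g k)
    rw [Finset.inf'_congr s.2.1 rfl hy, Finset.sup'_congr s.2.1 rfl hy]

private theorem inf_add_sup (s : Cq G) (p q : V → ℕ) {c : ℕ} (h : ∀ y ∈ s.1, p y + q y = c) :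
    s.1.inf' s.2.1 p + s.1.sup' s.2.1 q = c := by
  obtain ⟨x, hx, ex⟩ := ex_inf s p
  obtain ⟨y, hy, ey⟩ := ex_sup s q
  have h1 := h x hx
  have h2 := h y hy
  have h3 : s.1.inf' s.2.1 p ≤ p y := inf_le hy
  have h4 : q x ≤ s.1.sup' s.2.1 q := le_sup hx
  omega

/-- reflection: if `f u + g u = c` on the carrier then `lN f + lN g = 2^k c` -/
theorem lN_refl {K : Lv} {n k : ℕ} {f g : (tw K n).V → ℕ} {x : (tw K (n + k)).V} {c : ℕ}
    (h : ∀ u ∈ car K n k x, f u + g u = c) : lN K n f k x + lN K n g k x = 2 ^ k * c := by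
  induction k with
  | zero =>
    show f x + g x = 2 ^ 0 * c
    rw [pow_zero, one_mul]
    exact h x rfl
  | succ k ih =>
    revert x
    intro (s : Cq (tw K (n + k)).G) h
    have hy : ∀ y ∈ s.1, lN K n f k y + lN K n g k y = 2 ^ k * c :=
      fun y hy => ih fun u hu => h u ⟨y, hy, hu⟩
    have h1 := inf_add_sup s (lN K n f k) (lN K n g k) hy
    have h2 := inf_add_sup s (lN K n g k) (lN K n f k) (fun y hy' => by rw [add_comm]; exact hy y hy')
    have h3 : 2 ^ (k + 1) * c = 2 ^ k * c + 2 ^ k * c := by ring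
    show s.1.inf' s.2.1 (lN K n f k) + s.1.sup' s.2.1 (lN K n f k) +
      (s.1.inf' s.2.1 (lN K n g k) + s.1.sup' s.2.1 (lN K n g k)) = _
    omega

theorem lN_mono {K : Lv} {n k : ℕ} {f g : (tw K n).V → ℕ} {x : (tw K (n + k)).V}
    (h : ∀ u ∈ car K n k x, f u ≤ g u) : lN K n f k x ≤ lN K n g k x := by
  induction k with
  | zero => exact h x rfl
  | succ k ih =>
    revert x
    intro (s : Cq (tw K (n + k)).G) h
    have hy : ∀ y ∈ s.1, lN K n f k y ≤ lN K n g k y := fun y hy => ih fun u hu => h u ⟨y, hy, hu⟩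
    obtain ⟨x, hx, ex⟩ := ex_inf s (lN K n g k)
    obtain ⟨y, hys, ey⟩ := ex_sup s (lN K n f k)
    have h1 := hy x hx
    have h2 := hy y hys
    have h3 : s.1.inf' s.2.1 (lN K n f k) ≤ lN K n f k x := inf_le hx
    have h4 : lN K n g k y ≤ s.1.sup' s.2.1 (lN K n g k) := le_sup hys
    show s.1.inf' s.2.1 (lN K n f k) + s.1.sup' s.2.1 (lN K n f k) ≤
      s.1.inf' s.2.1 (lN K n g k) + s.1.sup' s.2.1 (lN K n g k)
    omega

theorem lN_lip {K : Lv} {n k : ℕ} {f : (tw K n).V → ℕ}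
    (h : ∀ x y, (tw K n).G.Adj x y → f x ≤ f y + 1) (x y : (tw K (n + k)).V)
    (e : (tw K (n + k)).G.Adj x y) : lN K n f k x ≤ lN K n f k y + 1 := by
  induction k with
  | zero => exact h x y e
  | succ k ih => exact lsd_lip (G := (tw K (n + k)).G) (fun a b hab => ih a b hab) x y e

end MOT
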