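import Pool.Agent.MOT.TgTyb

/-!
# MOT: THIN, product levels give bijections on components (helper81)

For a coarse vertex `t = {v}`: `cel c t` has only vertices with `(c x).ncard = 1`; these have labels
different from the product levels.  So for `bij_band` `T ∩ cel c t = ∅` and for `bij_upp`
`T ∩ cel c t = S ∩ cel c t` (then both parts are trivial: second part since `T ∩ cel c t = S ∩ cel c t`).
For `t` with 2 or 3 elements write `X = cel c t ⊆ sk c 3`.

`bij_band`: `S = {l = j}`, `T = {j - 1 ≤ l ≤ j + 1}`.  First part: `x ∈ T ∩ X` with `l x = j - 1`: `One` at level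
`j - 1` (with `(j - 1) + 1 = j`) gives a neighbour piece with label `j`, its vertices and the piece of `x`
are in `T ∩ X`, so `x` is joined in `T ∩ X` to a vertex of `S ∩ X`.  The same for `l x = j + 1`.
Second part: for `z ∈ T ∩ X` define the level-`j` class of `z`: the set `φ z` of all `w ∈ S ∩ X` with
`w ∈ pce G X l z` if `l z = j`, and `NbP G X l z w` if `l z ≠ j`.  By `One` at the levels `j - 1`, `j + 1`, `φ z` is
exactly one piece of `X` with label `j`.  For adjacent `z`, `z'` in `T ∩ X`: `φ z = φ z'` (same label: same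
piece, `NbP.congr`; labels `j` and `j ± 1`: `z` is in the unique neighbour piece of `z'`; labels `j - 1`
and `j + 1` are not adjacent by `hl`).  So if `x`, `y ∈ S ∩ X` are joined in `T ∩ X` then `φ x = φ y`, so
`y ∈ pce G X l x`, i.e. `x` and `y` are joined in `S ∩ X`.

`bij_upp`: `S = {j + 1 ≤ l}`, `T = {j ≤ l}`: the same with `φ z` := the set of all `w ∈ S ∩ X` joined to `z` in
`S ∩ X` if `l z ≥ j + 1`, and for `l z = j` the set of all `w ∈ S ∩ X` joined in `S ∩ X` to a `w'` with `l w' = j + 1`,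
`NbP G X l z w'` (by `One` at level `j` all such `w'` are in one piece, so `φ z` is one component of `S ∩ X`).
-/

open Classical

noncomputable section

namespace MOT

variable {V0 V : Type} {G0 : SimpleGraph V0} {G : SimpleGraph V} {c : V → Set V0} {l : V → ℕ}

private theorem band_abs_tgBj {X : Set V} {j : ℕ} (hj : 1 ≤ j)
    (hl : ∀ x y, EIn G X x y → l x ≤ l y + 1)
    (hd : ∀ x ∈ X, l x = j - 1 → One G X l x j) (hu : ∀ x ∈ X, l x = j + 1 → One G X l x j)
    {S T : Set V} (hS : ∀ x, x ∈ S ↔ x ∈ X ∧ l x = j)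
    (hT : ∀ x, x ∈ T ↔ x ∈ X ∧ j ≤ l x + 1 ∧ l x ≤ j + 1) :
    (∀ x ∈ T, ∃ y ∈ S, Relation.ReflTransGen (EIn G T) x y) ∧
    ∀ x ∈ S, ∀ y ∈ S, Relation.ReflTransGen (EIn G T) x y →
      Relation.ReflTransGen (EIn G S) x y := by
  have hone : ∀ x ∈ T, l x ≠ j → One G X l x j := by
    intro x hx hxj
    obtain ⟨h1, h2, h3⟩ := (hT x).1 hx
    rcases Nat.lt_or_ge (l x) j with h | h
    · exact hd x h1 (by omega)
    · exact hu x h1 (by omega)
  have hST : S ⊆ T := by
    intro x hx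
    obtain ⟨h1, h2⟩ := (hS x).1 hx
    exact (hT x).2 ⟨h1, by omega, by omega⟩
  refine ⟨?_, ?_⟩
  · intro x hx
    obtain ⟨hxX, hx1, hx2⟩ := (hT x).1 hx
    by_cases hxj : l x = j
    · exact ⟨x, (hS x).2 ⟨hxX, hxj⟩, Relation.ReflTransGen.refl⟩
    · obtain ⟨y, hy, ⟨_, x', hx', y', hy', e⟩, _⟩ := hone x hx hxj
      have hTx : lev X l (l x) ⊆ T := by
        rintro z ⟨hz1, hz2⟩
        exact (hT z).2 ⟨hz1, by omega, by omega⟩
      have hx'' : Relation.ReflTransGen (EIn G (lev X l (l x))) x x' ∧ x' ∈ lev X l (l x) := hx'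
      have hy'S : y' ∈ S := (hS y').2 ⟨pce_sub hy', by rw [pce_lab hy', hy]⟩
      exact ⟨y', hy'S, (rtg_mono hTx hx''.1).tail ⟨e, hTx hx''.2, hST hy'S⟩⟩
  · intro x hx y hy hr
    obtain ⟨hxX, hxj⟩ := (hS x).1 hx
    obtain ⟨hyX, hyj⟩ := (hS y).1 hy
    have step : ∀ z z' w, EIn G T z z' →
        (l w = j ∧ if l z = j then w ∈ pce G X l z else NbP G X l z w) →
        (l w = j ∧ if l z' = j then w ∈ pce G X l z' else NbP G X l z' w) := by
      rintro z z' w e ⟨hw, hf⟩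
      obtain ⟨hzX, hz1, hz2⟩ := (hT z).1 e.2.1
      obtain ⟨hzX', hz1', hz2'⟩ := (hT z').1 e.2.2
      have l1 := hl z z' ⟨e.1, hzX, hzX'⟩
      have l2 := hl z' z ⟨e.1.symm, hzX', hzX⟩
      refine ⟨hw, ?_⟩
      by_cases hz : l z = j <;> by_cases hz' : l z' = j
      · rw [if_pos hz] at hf
        rw [if_pos hz']
        have : z' ∈ pce G X l z := pce_adj (pce_self hzX) hzX' (by rw [hz, hz']) e.1
        rw [pce_eq this]
        exact hf
      · rw [if_pos hz] at hf
        rw [if_neg hz']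
        have hn : NbP G X l z' z := nbP_of_adj hzX' hzX e.1.symm (by omega)
        exact hn.congr (pce_self hzX') hf
      · rw [if_neg hz] at hf
        rw [if_pos hz']
        have hn : NbP G X l z z' := nbP_of_adj hzX hzX' e.1 (by omega)
        obtain ⟨u, _, _, hu'⟩ := hone z e.2.1 hz
        exact pce_trans (pce_symm (hu' z' hn hz')) (hu' w hf hw)
      · rw [if_neg hz] at hf
        rw [if_neg hz']
        have hll : l z' = l z := by omega
        have : z' ∈ pce G X l z := pce_adj (pce_self hzX) hzX' hll e.1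
        exact hf.congr this (pce_self hf.right)
    have hφ : ∀ z, Relation.ReflTransGen (EIn G T) x z → ∀ w,
        (l w = j ∧ if l z = j then w ∈ pce G X l z else NbP G X l z w) →
        (l w = j ∧ if l x = j then w ∈ pce G X l x else NbP G X l x w) := by
      intro z hz
      induction hz with
      | refl => exact fun w hw => hw
      | tail _ e ih => exact fun w hw => ih w (step _ _ w e.symm hw)
    have h1 := (hφ y hr y ⟨hyj, by rw [if_pos hyj]; exact pce_self hyX⟩).2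
    rw [if_pos hxj] at h1
    have h2 : Relation.ReflTransGen (EIn G (lev X l (l x))) x y ∧ y ∈ lev X l (l x) := h1
    refine rtg_mono ?_ h2.1
    rintro z ⟨hz1, hz2⟩
    exact (hS z).2 ⟨hz1, by rw [hz2, hxj]⟩

private theorem upp_abs_tgBj {X : Set V} {j : ℕ}
    (hl : ∀ x y, EIn G X x y → l x ≤ l y + 1)
    (h1 : ∀ x ∈ X, l x = j → One G X l x (j + 1))
    {S T : Set V} (hS : ∀ x, x ∈ S ↔ x ∈ X ∧ j + 1 ≤ l x)
    (hT : ∀ x, x ∈ T ↔ x ∈ X ∧ j ≤ l x) :
    (∀ x ∈ T, ∃ y ∈ S, Relation.ReflTransGen (EIn G T) x y) ∧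
    ∀ x ∈ S, ∀ y ∈ S, Relation.ReflTransGen (EIn G T) x y →
      Relation.ReflTransGen (EIn G S) x y := by
  have hST : S ⊆ T := by
    intro x hx
    obtain ⟨h1, h2⟩ := (hS x).1 hx
    exact (hT x).2 ⟨h1, by omega⟩
  refine ⟨?_, ?_⟩
  · intro x hx
    obtain ⟨hxX, hx1⟩ := (hT x).1 hx
    by_cases hxj : j + 1 ≤ l x
    · exact ⟨x, (hS x).2 ⟨hxX, hxj⟩, Relation.ReflTransGen.refl⟩
    · obtain ⟨y, hy, ⟨_, x', hx', y', hy', e⟩, _⟩ := h1 x hxX (by omega)
      have hTx : lev X l (l x) ⊆ T := by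
        rintro z ⟨hz1, hz2⟩
        exact (hT z).2 ⟨hz1, by omega⟩
      have hx'' : Relation.ReflTransGen (EIn G (lev X l (l x))) x x' ∧ x' ∈ lev X l (l x) := hx'
      have hy'S : y' ∈ S := (hS y').2 ⟨pce_sub hy', by rw [pce_lab hy', hy]⟩
      exact ⟨y', hy'S, (rtg_mono hTx hx''.1).tail ⟨e, hTx hx''.2, hST hy'S⟩⟩
  · intro x hx y hy hr
    obtain ⟨hxX, hxj⟩ := (hS x).1 hx
    obtain ⟨hyX, hyj⟩ := (hS y).1 hy
    have step : ∀ z z' w, EIn G T z z' →
        (if j + 1 ≤ l z then Relation.ReflTransGen (EIn G S) z w else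
          ∃ w', l w' = j + 1 ∧ NbP G X l z w' ∧ Relation.ReflTransGen (EIn G S) w' w) →
        (if j + 1 ≤ l z' then Relation.ReflTransGen (EIn G S) z' w else
          ∃ w', l w' = j + 1 ∧ NbP G X l z' w' ∧ Relation.ReflTransGen (EIn G S) w' w) := by
      intro z z' w e hf
      obtain ⟨hzX, hz1⟩ := (hT z).1 e.2.1
      obtain ⟨hzX', hz1'⟩ := (hT z').1 e.2.2
      have l1 := hl z z' ⟨e.1, hzX, hzX'⟩
      have l2 := hl z' z ⟨e.1.symm, hzX', hzX⟩
      by_cases hz : j + 1 ≤ l z <;> by_cases hz' : j + 1 ≤ l z'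
      · rw [if_pos hz] at hf
        rw [if_pos hz']
        exact Relation.ReflTransGen.head
          ⟨e.1.symm, (hS z').2 ⟨hzX', hz'⟩, (hS z).2 ⟨hzX, hz⟩⟩ hf
      · rw [if_pos hz] at hf
        rw [if_neg hz']
        exact ⟨z, by omega, nbP_of_adj hzX' hzX e.1.symm (by omega), hf⟩
      · rw [if_neg hz] at hf
        rw [if_pos hz']
        obtain ⟨w', hw', hn', hr'⟩ := hf
        have hn : NbP G X l z z' := nbP_of_adj hzX hzX' e.1 (by omega)
        obtain ⟨u, _, _, hu'⟩ := h1 z hzX (by omega)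
        have h3 : w' ∈ pce G X l z' :=
          pce_trans (pce_symm (hu' z' hn (by omega))) (hu' w' hn' hw')
        have h4 : Relation.ReflTransGen (EIn G (lev X l (l z'))) z' w' ∧
          w' ∈ lev X l (l z') := h3
        refine Relation.ReflTransGen.trans (rtg_mono ?_ h4.1) hr'
        rintro v ⟨hv1, hv2⟩
        exact (hS v).2 ⟨hv1, by omega⟩
      · rw [if_neg hz] at hf
        rw [if_neg hz']
        obtain ⟨w', hw', hn', hr'⟩ := hf
        have : z' ∈ pce G X l z := pce_adj (pce_self hzX) hzX' (by omega) e.1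
        exact ⟨w', hw', hn'.congr this (pce_self hn'.right), hr'⟩
    have hφ : ∀ z, Relation.ReflTransGen (EIn G T) x z → ∀ w,
        (if j + 1 ≤ l z then Relation.ReflTransGen (EIn G S) z w else
          ∃ w', l w' = j + 1 ∧ NbP G X l z w' ∧ Relation.ReflTransGen (EIn G S) w' w) →
        (if j + 1 ≤ l x then Relation.ReflTransGen (EIn G S) x w else
          ∃ w', l w' = j + 1 ∧ NbP G X l x w' ∧ Relation.ReflTransGen (EIn G S) w' w) := by
      intro z hz
      induction hz with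
      | refl => exact fun w hw => hw
      | tail _ e ih => exact fun w hw => ih w (step _ _ w e.symm hw)
    have h2 := hφ y hr y (by rw [if_pos hyj])
    rw [if_pos hxj] at h2
    exact h2

private theorem sub_sk_tgBj [Finite V0] {t : Set V0} (h3 : t.ncard ≤ 3) {x : V}
    (hx : x ∈ cel c t) : x ∈ sk c 3 :=
  (Set.ncard_le_ncard (show c x ⊆ t from hx) (Set.toFinite t)).trans h3

private theorem one_tgBj [Finite V0] (h : CY G0 G c) {a : ℕ} (hp : PrdL G0 G c l a)
    {t : Set V0} (ht : t.Nonempty) (hc : G0.IsClique t) (h3 : t.ncard ≤ 3) {x : V}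
    (hx : x ∈ cel c t) (hxa : l x = a) :
    One G (cel c t) l x (a - 1) ∧ One G (cel c t) l x (a + 1) := by
  have h0 : 0 < t.ncard := (Set.ncard_pos (Set.toFinite t)).2 ht
  by_cases h1 : t.ncard = 1
  · exfalso
    have h4 : 0 < (c x).ncard := (Set.ncard_pos (Set.toFinite _)).2 (h.clq x).1
    have h5 := Set.ncard_le_ncard (show c x ⊆ t from hx) (Set.toFinite t)
    exact hp.1 x (by omega) hxa
  · exact hp.2 t hc (by omega) x hx hxa

theorem bij_band [Finite V0] (h : CY G0 G c)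
    (hl : ∀ x y, EIn G (sk c 3) x y → l x ≤ l y + 1) {j : ℕ} (hj : 1 ≤ j)
    (h1 : PrdL G0 G c l (j - 1)) (h2 : PrdL G0 G c l j) (h3 : PrdL G0 G c l (j + 1)) :
    Bij0 G0 G c (lev (sk c 3) l j) (band (sk c 3) l j) := by
  refine ⟨?_, ?_⟩
  · rintro x ⟨hx1, hx2⟩
    exact ⟨hx1, by omega, by omega⟩
  · intro t ht hc ht3
    refine band_abs_tgBj (X := cel c t) hj (fun x y e => hl x y
      ⟨e.1, sub_sk_tgBj ht3 e.2.1, sub_sk_tgBj ht3 e.2.2⟩) ?_ ?_ ?_ ?_
    · intro x hx hxj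
      have := (one_tgBj h h1 ht hc ht3 hx hxj).2
      rwa [Nat.sub_add_cancel hj] at this
    · intro x hx hxj
      exact (one_tgBj h h3 ht hc ht3 hx hxj).1
    · intro x
      constructor
      · rintro ⟨⟨hx1, hx2⟩, hx3⟩
        exact ⟨hx3, hx2⟩
      · rintro ⟨hx3, hx2⟩
        exact ⟨⟨sub_sk_tgBj ht3 hx3, hx2⟩, hx3⟩
    · intro x
      constructor
      · rintro ⟨⟨hx1, hx2⟩, hx3⟩
        exact ⟨hx3, hx2⟩
      · rintro ⟨hx3, hx2⟩
        exact ⟨⟨sub_sk_tgBj ht3 hx3, hx2⟩, hx3⟩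

theorem bij_upp [Finite V0] (h : CY G0 G c)
    (hl : ∀ x y, EIn G (sk c 3) x y → l x ≤ l y + 1) {j : ℕ} (hj : PrdL G0 G c l j) :
    Bij0 G0 G c (upp (sk c 3) l (j + 1)) (upp (sk c 3) l j) := by
  refine ⟨?_, ?_⟩
  · rintro x ⟨hx1, hx2⟩
    exact ⟨hx1, by omega⟩
  · intro t ht hc ht3
    refine upp_abs_tgBj (X := cel c t) (j := j) (fun x y e => hl x y
      ⟨e.1, sub_sk_tgBj ht3 e.2.1, sub_sk_tgBj ht3 e.2.2⟩) ?_ ?_ ?_
    · intro x hx hxj
      exact (one_tgBj h hj ht hc ht3 hx hxj).2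
    · intro x
      constructor
      · rintro ⟨⟨hx1, hx2⟩, hx3⟩
        exact ⟨hx3, hx2⟩
      · rintro ⟨hx3, hx2⟩
        exact ⟨⟨sub_sk_tgBj ht3 hx3, hx2⟩, hx3⟩
    · intro x
      constructor
      · rintro ⟨⟨hx1, hx2⟩, hx3⟩
        exact ⟨hx3, hx2⟩
      · rintro ⟨hx3, hx2⟩
        exact ⟨⟨sub_sk_tgBj ht3 hx3, hx2⟩, hx3⟩

end MOT
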