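import Pool.Agent.MOT.TgTya

/-!
# MOT: THIN, extension of hat cocycles (helper81)

`S ⊆ T ⊆ sk c 3` with `Bij0`, `a` a hat cocycle of `S`: for every tetrahedron `D` (a clique of `G0` with 4
elements) there is `u D : V → ZMod 2` with `a x y = u D x + u D y` on the edges of `S ∩ bdc c D`.

For a clique `t ≠ ∅` with at most 3 elements let `ch t` be a tetrahedron containing it (`Pur.up`); then
`t ⊂ ch t`.  For `x ∈ T` choose `q x ∈ S ∩ cel c (c x)` joined to `x` in `T ∩ cel c (c x)` (first part of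
`Bij0` with `t = c x`), and `q x = x` if `x ∈ S`.

Put `v D x = u D (q x)` for `x ∈ T` and `a' x y = v D x + v D y` for an edge `x y` of `T`, `D = ch t`, `t` the
larger one of `c x`, `c y` (`CY.cmp`), and `a' x y = 0` if `¬ EIn G T x y`.

Independence of `D`: let `D`, `D'` be tetrahedra containing `t ⊇ c x, c y`.  `q x` and `q y` lie in `S ∩ cel c t` and
are joined in `T ∩ cel c t` (`q x` to `x`, the edge `x y`, `y` to `q y`), so they are joined in
`S ∩ cel c t` (second part of `Bij0`).  On the edges of `S ∩ cel c t ⊆ S ∩ bdc c D ∩ bdc c D'` both `u D` and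
`u D'` are potentials of `a`, so `u D + u D'` is constant along this path:
`u D (q x) + u D' (q x) = u D (q y) + u D' (q y)`, so `v D x + v D y = v D' x + v D' y`.

Cocycle: the carriers of a triangle form a chain, so all three edges can be computed with the same `D`.
Symmetry: clear.  Hat: on `T ∩ bdc c D` the potential is `v D` (for an edge `x y` of `T ∩ bdc c D` the larger
carrier is contained in `D`).  On the edges of `S`: `q x = x`, `q y = y`, so
`a' x y = u D x + u D y = a x y` (the edge lies in `S ∩ bdc c D`), so `Triv G S (a + a')` with potential `0`.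
-/

open Classical

noncomputable section

namespace MOT

variable {V0 V : Type} {G0 : SimpleGraph V0} {G : SimpleGraph V} {c : V → Set V0}

theorem ext_hat [Finite V0] (h : CY G0 G c) (hp : Pur G0) {S T : Set V} (hT : T ⊆ sk c 3)
    (hb : Bij0 G0 G c S T) {a : V → V → ZMod 2} (ha : a ∈ Zh G (bdd G0 c) S) :
    ∃ a' ∈ Zh G (bdd G0 c) T, Triv G S (a + a') := by
  obtain ⟨haZ, haT⟩ := ha
  -- the potentials on the spheres
  have hu1 : ∀ D : Set V0, ∃ u : V → ZMod 2, G0.IsClique D → D.ncard = 4 →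
      ∀ x y, EIn G (S ∩ bdc c D) x y → a x y = u x + u y := by
    intro D
    by_cases hD : G0.IsClique D ∧ D.ncard = 4
    · obtain ⟨u, hu⟩ := haT (bdc c D) ⟨D, hD.1, hD.2, rfl⟩
      exact ⟨u, fun _ _ => hu⟩
    · exact ⟨0, fun h1 h2 => absurd ⟨h1, h2⟩ hD⟩
  choose u hu using hu1
  -- a tetrahedron containing a simplex
  have hch1 : ∀ t : Set V0, ∃ D : Set V0, t.Nonempty → G0.IsClique t →
      G0.IsClique D ∧ D.ncard = 4 ∧ t ⊆ D := by
    intro t
    by_cases ht : t.Nonempty ∧ G0.IsClique t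
    · obtain ⟨D, hD⟩ := hp.up t ht.1 ht.2
      exact ⟨D, fun _ _ => hD⟩
    · exact ⟨∅, fun h1 h2 => absurd ⟨h1, h2⟩ ht⟩
  choose ch hch using hch1
  have hss : ∀ t D : Set V0, t.ncard ≤ 3 → D.ncard = 4 → t ⊆ D → t ⊂ D := by
    intro t D ht hD hs
    refine ⟨hs, fun hc => ?_⟩
    have h1 := Set.ncard_le_ncard hc (Set.toFinite t)
    omega
  have hT3 : ∀ x ∈ T, (c x).ncard ≤ 3 := fun x hx => hT hx
  -- the points of `S`
  have hq1 : ∀ x, ∃ z, (x ∈ T → z ∈ S ∩ cel c (c x) ∧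
      Relation.ReflTransGen (EIn G (T ∩ cel c (c x))) x z) ∧ (x ∈ S → z = x) := by
    intro x
    by_cases hxS : x ∈ S
    · exact ⟨x, fun _ => ⟨⟨hxS, Set.Subset.refl (c x)⟩, Relation.ReflTransGen.refl⟩, fun _ => rfl⟩
    · by_cases hxT : x ∈ T
      · obtain ⟨y, hy, hr⟩ := (hb.2 (c x) (h.clq x).1 (h.clq x).2 (hT3 x hxT)).1 x
          ⟨hxT, Set.Subset.refl (c x)⟩
        exact ⟨y, fun _ => ⟨hy, hr⟩, fun h1 => absurd h1 hxS⟩
      · exact ⟨x, fun h1 => absurd h1 hxT, fun h1 => absurd h1 hxS⟩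
  choose q hq hqS using hq1
  -- independence of the tetrahedron
  have key : ∀ (t D D' : Set V0), t.Nonempty → G0.IsClique t → t.ncard ≤ 3 → G0.IsClique D →
      D.ncard = 4 → t ⊆ D → G0.IsClique D' → D'.ncard = 4 → t ⊆ D' → ∀ x y, EIn G T x y →
      c x ⊆ t → c y ⊆ t → u D (q x) + u D (q y) = u D' (q x) + u D' (q y) := by
    intro t D D' hne ht ht3 hD hD4 htD hD' hD4' htD' x y e hx hy
    have hmono : ∀ z, c z ⊆ t → T ∩ cel c (c z) ⊆ T ∩ cel c t := fun z hz w hw =>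
      ⟨hw.1, (show c w ⊆ c z from hw.2).trans hz⟩
    have hqx : q x ∈ S ∩ cel c t :=
      ⟨(hq x e.2.1).1.1, (show c (q x) ⊆ c x from (hq x e.2.1).1.2).trans hx⟩
    have hqy : q y ∈ S ∩ cel c t :=
      ⟨(hq y e.2.2).1.1, (show c (q y) ⊆ c y from (hq y e.2.2).1.2).trans hy⟩
    have r1 : Relation.ReflTransGen (EIn G (T ∩ cel c t)) (q x) x :=
      rtg_symm (rtg_mono (hmono x hx) (hq x e.2.1).2)
    have r2 : Relation.ReflTransGen (EIn G (T ∩ cel c t)) y (q y) :=
      rtg_mono (hmono y hy) (hq y e.2.2).2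
    have e1 : EIn G (T ∩ cel c t) x y := ⟨e.1, ⟨e.2.1, hx⟩, ⟨e.2.2, hy⟩⟩
    have r3 := (hb.2 t hne ht ht3).2 (q x) hqx (q y) hqy ((r1.tail e1).trans r2)
    have h1 := rtg_const (f := fun z => u D z + u D' z) (fun z z' ez => by
      have hsub : ∀ D1 : Set V0, D1.ncard = 4 → t ⊆ D1 → EIn G (S ∩ bdc c D1) z z' := by
        intro D1 h4 hs
        have h5 := hss t D1 ht3 h4 hs
        exact ⟨ez.1, ⟨ez.2.1.1, lt_of_le_of_lt (show c z ⊆ t from ez.2.1.2) h5⟩,
          ⟨ez.2.2.1, lt_of_le_of_lt (show c z' ⊆ t from ez.2.2.2) h5⟩⟩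
      have h6 := hu D hD hD4 z z' (hsub D hD4 htD)
      have h7 := hu D' hD' hD4' z z' (hsub D' hD4' htD')
      have h8 := two_add (u D z')
      have h9 := two_add (u D' z)
      linear_combination h7 - h6 + h9 - h8) r3
    have h2 : u D (q x) + u D' (q x) = u D (q y) + u D' (q y) := h1
    have h3 := two_add (u D (q y))
    have h4 := two_add (u D' (q x))
    linear_combination h2 + h3 - h4
  -- the extension
  set a' : V → V → ZMod 2 := fun x y =>
    if EIn G T x y then u (ch (c x ∪ c y)) (q x) + u (ch (c x ∪ c y)) (q y) else 0 with ha'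
  have hun : ∀ x y, EIn G T x y → (c x ∪ c y).Nonempty ∧ G0.IsClique (c x ∪ c y) ∧
      (c x ∪ c y).ncard ≤ 3 := by
    intro x y e
    rcases h.cmp x y e.1 with h1 | h1
    · rw [Set.union_eq_right.2 h1]
      exact ⟨(h.clq y).1, (h.clq y).2, hT3 y e.2.2⟩
    · rw [Set.union_eq_left.2 h1]
      exact ⟨(h.clq x).1, (h.clq x).2, hT3 x e.2.1⟩
  have hF : ∀ x y, EIn G T x y → ∀ D : Set V0, G0.IsClique D → D.ncard = 4 → c x ⊆ D → c y ⊆ D →
      a' x y = u D (q x) + u D (q y) := by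
    intro x y e D hD hD4 hx hy
    obtain ⟨h1, h2, h3⟩ := hun x y e
    obtain ⟨h4, h5, h6⟩ := hch _ h1 h2
    have h7 : a' x y = u (ch (c x ∪ c y)) (q x) + u (ch (c x ∪ c y)) (q y) := if_pos e
    rw [h7]
    exact key (c x ∪ c y) _ D h1 h2 h3 h4 h5 h6 hD hD4 (Set.union_subset hx hy) x y e
      Set.subset_union_left Set.subset_union_right
  refine ⟨a', ⟨mem_Z1.2 ⟨fun x y e => if_neg e, fun x y => ?_, fun x y z e1 e2 e3 => ?_⟩,
    ?_⟩, ⟨0, fun x y e => ?_⟩⟩
  · by_cases e : EIn G T x y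
    · have h1 : a' x y = u (ch (c x ∪ c y)) (q x) + u (ch (c x ∪ c y)) (q y) := if_pos e
      have h2 : a' y x = u (ch (c y ∪ c x)) (q y) + u (ch (c y ∪ c x)) (q x) := if_pos e.symm
      rw [h1, h2, Set.union_comm (c y) (c x), add_comm]
    · have h1 : a' x y = 0 := if_neg e
      have h2 : a' y x = 0 := if_neg fun e' => e e'.symm
      rw [h1, h2]
  · have hmax : ∃ p ∈ T, c x ⊆ c p ∧ c y ⊆ c p ∧ c z ⊆ c p := by
      rcases h.cmp x y e1.1 with h1 | h1
      · rcases h.cmp y z e2.1 with h2 | h2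
        · exact ⟨z, e2.2.2, h1.trans h2, h2, Set.Subset.refl _⟩
        · exact ⟨y, e2.2.1, h1, Set.Subset.refl _, h2⟩
      · rcases h.cmp x z e3.1 with h3 | h3
        · exact ⟨z, e2.2.2, h3, h1.trans h3, Set.Subset.refl _⟩
        · exact ⟨x, e1.2.1, Set.Subset.refl _, h1, h3⟩
    obtain ⟨p, hp', hx, hy, hz⟩ := hmax
    obtain ⟨h4, h5, h6⟩ := hch (c p) (h.clq p).1 (h.clq p).2
    rw [hF x y e1 _ h4 h5 (hx.trans h6) (hy.trans h6), hF y z e2 _ h4 h5 (hy.trans h6)
      (hz.trans h6), hF x z e3 _ h4 h5 (hx.trans h6) (hz.trans h6)]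
    linear_combination two_add (u (ch (c p)) (q y))
  · rintro B ⟨D, hD, hD4, rfl⟩
    refine ⟨fun x => u D (q x), fun x y e => ?_⟩
    exact hF x y ⟨e.1, e.2.1.1, e.2.2.1⟩ D hD hD4 (show c x ⊂ D from e.2.1.2).subset
      (show c y ⊂ D from e.2.2.2).subset
  · have eT : EIn G T x y := e.mono hb.1
    obtain ⟨h1, h2, h3⟩ := hun x y eT
    obtain ⟨h4, h5, h6⟩ := hch _ h1 h2
    have h7 := hss _ _ h3 h5 h6
    have h8 : a' x y = u (ch (c x ∪ c y)) (q x) + u (ch (c x ∪ c y)) (q y) := if_pos eT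
    rw [hqS x e.2.1, hqS y e.2.2] at h8
    have h9 := hu _ h4 h5 x y ⟨e.1, ⟨e.2.1, lt_of_le_of_lt Set.subset_union_left h7⟩,
      ⟨e.2.2, lt_of_le_of_lt Set.subset_union_right h7⟩⟩
    rw [Pi.add_apply, Pi.add_apply, h8, h9, two_add]
    simp

end MOT
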