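import Pool.Agent.MOT.TgLev
import Pool.Agent.MOT.TgBj
import Pool.Agent.MOT.TgEx

/-!
# MOT: THIN, a level at which the hat classes extend (helper81)

`good_level`: `good_three` gives `j` with `2 ≤ j`, `j + 1 ≤ m`; `good_prd` for `j - 1`, `j`, `j + 1`;
`bij_band`, `bij_upp` and `ext_hat` (`lev ⊆ band ⊆ sk c 3`, `upp (j+1) ⊆ upp j ⊆ sk c 3`).

`pur_of_sph`: a vertex has a neighbour (its link is nonempty, `IsSph3.vert`), the link of an edge is a
cycle, so nonempty (`IsSph3.edge`), the link of a triangle has 2 elements (`IsSph3.tri`): every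
clique with 1, 2, 3 elements can be enlarged by one vertex; `k5` is `IsSph3.k5` (finite sets).
-/

open Classical

noncomputable section

namespace MOT

variable {V0 V : Type} {G0 : SimpleGraph V0} {G : SimpleGraph V} {c : V → Set V0} {l : V → ℕ}

/-- the link of a clique with 1, 2 or 3 vertices is nonempty -/
private theorem lk_ne_tgFin [Finite V0] (h : IsSph3 G0) {t : Set V0} (hne : t.Nonempty)
    (hc : G0.IsClique t) (h3 : t.ncard ≤ 3) : (Lk G0 t).Nonempty := by
  obtain ⟨s, rfl⟩ : ∃ s : Finset V0, (s : Set V0) = t :=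
    ⟨(Set.toFinite t).toFinset, Set.Finite.coe_toFinset _⟩
  rw [Set.ncard_coe_finset] at h3
  have h0 : 0 < s.card := Finset.card_pos.2 (Finset.coe_nonempty.1 hne)
  obtain h1 | h2 | h3 : s.card = 1 ∨ s.card = 2 ∨ s.card = 3 := by omega
  · obtain ⟨x, rfl⟩ := Finset.card_eq_one.1 h1
    rw [Finset.coe_singleton]
    exact (h.vert x).1.1
  · exact (h.edge s hc h2).1.1
  · rw [← Set.ncard_pos (Set.toFinite _), h.tri s hc h3]
    norm_num

theorem pur_of_sph [Finite V0] (h : IsSph3 G0) : Pur G0 := by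
  have hk : ∀ t : Set V0, G0.IsClique t → t.ncard ≤ 4 := by
    intro t hc
    obtain ⟨s, rfl⟩ : ∃ s : Finset V0, (s : Set V0) = t :=
      ⟨(Set.toFinite t).toFinset, Set.Finite.coe_toFinset _⟩
    rw [Set.ncard_coe_finset]
    exact h.k5 s hc
  refine ⟨hk, ?_⟩
  have key : ∀ n : ℕ, ∀ t : Set V0, t.Nonempty → G0.IsClique t → t.ncard + n = 4 →
      ∃ D : Set V0, G0.IsClique D ∧ D.ncard = 4 ∧ t ⊆ D := by
    intro n
    induction n with
    | zero => exact fun t _ hc h4 => ⟨t, hc, h4, subset_rfl⟩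
    | succ n ih =>
      intro t hne hc h4
      obtain ⟨v, hv⟩ := lk_ne_tgFin h hne hc (by omega)
      have hv' : ∀ x ∈ t, G0.Adj x v := hv
      have hvt : v ∉ t := fun h => G0.irrefl (hv' v h)
      obtain ⟨D, hD, hD4, hs⟩ := ih (insert v t) (Set.insert_nonempty v t)
        (hc.insert (fun x hx _ => (hv' x hx).symm))
        (by rw [Set.ncard_insert_of_notMem hvt (Set.toFinite t)]; omega)
      exact ⟨D, hD, hD4, (Set.subset_insert v t).trans hs⟩
  intro t hne hc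
  have h4 := hk t hc
  exact key (4 - t.ncard) t hne hc (by omega)

theorem good_level [Finite V0] [Finite V] (h : CY G0 G c) (hp : Pur G0) {m : ℕ}
    (hl : ∀ x y, EIn G (sk c 3) x y → l x ≤ l y + 1) (ht : ∀ x ∈ sk c 3, l x ≤ m + 1)
    (hlow : ∀ i, Conn G (low (sk c 3) l i)) (hupp : ∀ i, i ≤ m + 1 → Conn G (upp (sk c 3) l i))
    {x0 x1 : V} (hx0 : (c x0).ncard = 1) (h0 : l x0 = 0) (hx1 : (c x1).ncard = 1)
    (h1 : l x1 = m + 1) (hno : NoF G0 G c l) (hm : 12 * ntri G0 + 3 ≤ m) :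
    ∃ j, 2 ≤ j ∧ j + 1 ≤ m ∧
      (∀ a ∈ Zh G (bdd G0 c) (lev (sk c 3) l j),
        ∃ a' ∈ Zh G (bdd G0 c) (band (sk c 3) l j), Triv G (lev (sk c 3) l j) (a + a')) ∧
      ∀ b ∈ Zh G (bdd G0 c) (upp (sk c 3) l (j + 1)),
        ∃ b' ∈ Zh G (bdd G0 c) (upp (sk c 3) l j),
          Triv G (upp (sk c 3) l (j + 1)) (b + b') := by
  obtain ⟨j, hj2, hjm, g1, g2, g3⟩ := good_three h hp hl ht hlow hupp hx0 h0 hx1 h1 hno hm
  have hx0' : x0 ∈ sk c 3 := by
    change (c x0).ncard ≤ 3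
    omega
  have hx1' : x1 ∈ sk c 3 := by
    change (c x1).ncard ≤ 3
    omega
  have p1 := good_prd h hp hl hlow hupp hx0' h0 hx1' h1 hno (by omega) (by omega) g1
  have p2 := good_prd h hp hl hlow hupp hx0' h0 hx1' h1 hno (by omega) (by omega) g2
  have p3 := good_prd h hp hl hlow hupp hx0' h0 hx1' h1 hno (by omega) (by omega) g3
  exact ⟨j, hj2, hjm,
    fun a ha => ext_hat h hp (fun x hx => hx.1) (bij_band h hl (by omega) p1 p2 p3) ha,
    fun b hb => ext_hat h hp (fun x hx => hx.1) (bij_upp h hl p2) hb⟩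

end MOT
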