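import Pool.Agent.MOT.TlG

/-!
# MOT: THIN, filled sets: connectedness and protected cells (helper23)

`fc_conn`: if `M ∩ sk c 3` is connected then `M` is connected: every component of `M ∩ cel c D` meets
`bdc c D ⊆ sk c 3`.
`fc_in`: if `M ⊇ sk c 3 ∩ cel c A0` then `M ⊇ cel c A0`: for `x` with `c x = D ⊆ A0`, `x ∉ M`, the component
of `x` in `Mᶜ ∩ cel c D` meets `bdc c D ⊆ M`: contradiction.
-/

open Classical

noncomputable section

namespace MOT

variable {V0 V : Type} {G0 : SimpleGraph V0} {G : SimpleGraph V} {c : V → Set V0}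

private theorem TlK_card [Finite V0] (h0 : IsSph3 G0) {t : Set V0} (ht : G0.IsClique t) :
    t.ncard ≤ 4 := by
  have hf : t.Finite := Set.toFinite t
  have h1 : ((hf.toFinset : Finset V0) : Set V0) = t := hf.coe_toFinset
  have h2 : hf.toFinset.card = t.ncard := (Set.ncard_eq_toFinset_card t hf).symm
  rw [← h2]
  exact h0.k5 _ (by rw [h1]; exact ht)

private theorem TlK_bd [Finite V0] {D : Set V0} (h4 : D.ncard = 4) {y : V} (hy : y ∈ bdc c D) :
    y ∈ sk c 3 := by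
  have h1 : (c y).ncard < D.ncard := Set.ncard_lt_ncard hy (Set.toFinite D)
  change (c y).ncard ≤ 3
  omega

theorem fc_conn [Finite V0] (h0 : IsSph3 G0) (h : CY G0 G c) {M : Set V} (hM : FC G0 G c M)
    (hc : Conn G (M ∩ sk c 3)) : Conn G M := by
  have key : ∀ x ∈ M, ∃ y ∈ M ∩ sk c 3, Relation.ReflTransGen (EIn G M) x y := by
    intro x hx
    by_cases h3 : (c x).ncard ≤ 3
    · exact ⟨x, ⟨hx, h3⟩, Relation.ReflTransGen.refl⟩
    · have h4 : (c x).ncard = 4 := by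
        have := TlK_card h0 (h.clq x).2
        omega
      have hxT : x ∈ M ∩ cel c (c x) := ⟨hx, Set.Subset.refl (c x)⟩
      have hC : IsComp G (M ∩ cel c (c x)) (comp G (M ∩ cel c (c x)) x) := ⟨x, hxT, rfl⟩
      obtain ⟨y, hy, hyb⟩ := ((hM (c x) (h.clq x).2 h4).1 _ hC).2.1
      exact ⟨y, ⟨hy.2.1, TlK_bd h4 hyb⟩, rtg_mono Set.inter_subset_left hy.1⟩
  obtain ⟨z, hz⟩ := hc.1
  refine ⟨⟨z, hz.1⟩, fun x hx y hy => ?_⟩
  obtain ⟨x', hx', hxx⟩ := key x hx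
  obtain ⟨y', hy', hyy⟩ := key y hy
  exact (hxx.trans (rtg_mono Set.inter_subset_left (hc.2 x' hx' y' hy'))).trans (rtg_symm hyy)

theorem fc_in [Finite V0] (h0 : IsSph3 G0) (h : CY G0 G c) {M : Set V} (hM : FC G0 G c M)
    {A0 : Set V0} (hA : sk c 3 ∩ cel c A0 ⊆ M) : cel c A0 ⊆ M := by
  intro x hx
  by_cases h3 : (c x).ncard ≤ 3
  · exact hA ⟨h3, hx⟩
  · have h4 : (c x).ncard = 4 := by
      have := TlK_card h0 (h.clq x).2
      omega
    by_contra hxM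
    have hxT : x ∈ Mᶜ ∩ cel c (c x) := ⟨hxM, Set.Subset.refl (c x)⟩
    have hC : IsComp G (Mᶜ ∩ cel c (c x)) (comp G (Mᶜ ∩ cel c (c x)) x) := ⟨x, hxT, rfl⟩
    obtain ⟨y, hy, hyb⟩ := ((hM (c x) (h.clq x).2 h4).2 _ hC).2.1
    exact hy.2.1 (hA ⟨TlK_bd h4 hyb, hyb.1.trans hx⟩)

end MOT
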