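import Pool.Agent.MOT.Tc

/-!
# MOT: THIN, coarse faces (helper23)

`up3`, `up4`: a coarse simplex with at most 3 (4) vertices lies in a coarse triangle (tetrahedron):
`IsSph3`: vertex links are connected, so nonempty (`vert`), edge links are cycles, so nonempty (`edge`),
triangles have exactly two common neighbours (`tri`).  (Convert `Set` with `ncard` to `Finset` by
`Set.Finite.toFinset`.)
`edge_face`: the carriers of adjacent vertices are comparable (`CY.cmp`), take `up3` of the larger one.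

Let `f` be a coarse triangle, `D` a coarse tetrahedron containing `f` (`up4`), `S = bdc c D`, a closed
surface (`CY.bd`); for adjacent `x, y` in `S`, `y` is a vertex of the cycle `Lk G {x} ∩ S` (`Surf.lk`), and
has exactly two neighbours in it, so `{z ∈ S | Adj x z, Adj y z}` has exactly 2 elements (*).
`face_two`: if the larger of `c x`, `c y` is `f`, then `c z` is comparable with `f` and `c z ⊂ D`, so
`c z ⊆ f`, and all `z` of (*) lie in `cel c f`.
`face_one`: if `c x, c y ⊂ f` then the larger of them, `e`, has two elements (if both were equal to the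
same one-element set, then `x = y` by `CY.vert`).  `D = f ∪ {d}`, `f' = e ∪ {d}`.  By `CY.half` for `{x, y}` and
`f` (`f'`) there is `z` with `c z = f` (`c z = f'`) in (*).  So the `z` of (*) are exactly these two, exactly
one has carrier `f`, and none has `c z ⊆ e`; and every `z` with `c z ⊆ f` is in (*).
`face_lk`: `x` with `c x ⊆ f`.  If `c x = f`: every neighbour `z ∈ S` of `x` has `c z ⊆ f`, and
`Lk G {x} ∩ S` is connected.  If `c x ⊂ f`: `Lk G {x} ∩ opc c f` is connected by `CY.half`, and a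
neighbour `y` of `x` with `c y ⊂ f` has a common neighbour with `x` in `opc c f` (`CY.half` for `{x, y}`).
-/

open Classical

noncomputable section

namespace MOT

variable {V0 V : Type} {G0 : SimpleGraph V0} {G : SimpleGraph V} {c : V → Set V0}

private theorem TfF_step [Finite V0] (h0 : IsSph3 G0) {t : Set V0} (ht : G0.IsClique t)
    (hn : t.Nonempty) (h3 : t.ncard ≤ 3) :
    ∃ v, v ∉ t ∧ G0.IsClique (insert v t) ∧ (insert v t).ncard = t.ncard + 1 := by
  have key : (Lk G0 t).Nonempty := by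
    have hf : t.Finite := Set.toFinite t
    have h1 : ((hf.toFinset : Finset V0) : Set V0) = t := hf.coe_toFinset
    have h2 : hf.toFinset.card = t.ncard := (Set.ncard_eq_toFinset_card t hf).symm
    have h4 : 0 < t.ncard := (Set.ncard_pos hf).2 hn
    have h5 : t.ncard = 1 ∨ t.ncard = 2 ∨ t.ncard = 3 := by omega
    rcases h5 with h5 | h5 | h5
    · obtain ⟨x, rfl⟩ := Set.ncard_eq_one.1 h5
      exact (h0.vert x).1.1
    · have h6 := h0.edge hf.toFinset (by rw [h1]; exact ht) (by rw [h2]; exact h5)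
      rw [h1] at h6
      exact h6.1.1
    · have h6 := h0.tri hf.toFinset (by rw [h1]; exact ht) (by rw [h2]; exact h5)
      rw [h1] at h6
      apply Set.nonempty_of_ncard_ne_zero
      rw [h6]
      norm_num
  obtain ⟨v, hv⟩ := key
  have hv' : ∀ x ∈ t, G0.Adj x v := hv
  have hvt : v ∉ t := fun h => G0.loopless.irrefl v (hv' v h)
  refine ⟨v, hvt, ?_, Set.ncard_insert_of_notMem hvt (Set.toFinite t)⟩
  intro a ha b hb hab
  rcases ha with rfl | ha
  · rcases hb with rfl | hb
    · exact absurd rfl hab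
    · exact (hv' b hb).symm
  · rcases hb with rfl | hb
    · exact hv' a ha
    · exact ht ha hb hab

private theorem TfF_up [Finite V0] (h0 : IsSph3 G0) : ∀ (k d : ℕ) (t : Set V0), G0.IsClique t →
    t.Nonempty → t.ncard + k = d → d ≤ 4 → ∃ f : Set V0, G0.IsClique f ∧ f.ncard = d ∧ t ⊆ f := by
  intro k
  induction k with
  | zero =>
    intro d t ht hn hk hd
    exact ⟨t, ht, hk, subset_rfl⟩
  | succ k ih =>
    intro d t ht hn hk hd
    obtain ⟨v, hv, hc, hcard⟩ := TfF_step h0 ht hn (by omega)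
    obtain ⟨f, hf, hf', hf''⟩ := ih d (insert v t) hc (Set.insert_nonempty v t) (by omega) hd
    exact ⟨f, hf, hf', (Set.subset_insert v t).trans hf''⟩

theorem up3 [Finite V0] (h0 : IsSph3 G0) {t : Set V0} (ht : G0.IsClique t) (hn : t.Nonempty)
    (h3 : t.ncard ≤ 3) : ∃ f : Set V0, G0.IsClique f ∧ f.ncard = 3 ∧ t ⊆ f := by
  obtain ⟨k, hk⟩ := Nat.exists_eq_add_of_le h3
  exact TfF_up h0 k 3 t ht hn hk.symm (by norm_num)

theorem up4 [Finite V0] (h0 : IsSph3 G0) {t : Set V0} (ht : G0.IsClique t) (hn : t.Nonempty)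
    (h3 : t.ncard ≤ 4) : ∃ f : Set V0, G0.IsClique f ∧ f.ncard = 4 ∧ t ⊆ f := by
  obtain ⟨k, hk⟩ := Nat.exists_eq_add_of_le h3
  exact TfF_up h0 k 4 t ht hn hk.symm (by norm_num)

theorem edge_face [Finite V0] (h0 : IsSph3 G0) (h : CY G0 G c) {x y : V}
    (e : EIn G (sk c 3) x y) :
    ∃ f : Set V0, G0.IsClique f ∧ f.ncard = 3 ∧ c x ⊆ f ∧ c y ⊆ f := by
  have hx : (c x).ncard ≤ 3 := e.2.1
  have hy : (c y).ncard ≤ 3 := e.2.2
  rcases h.cmp x y e.1 with hxy | hxy
  · obtain ⟨f, hf, hf3, hff⟩ := up3 h0 (h.clq y).2 (h.clq y).1 hy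
    exact ⟨f, hf, hf3, hxy.trans hff, hff⟩
  · obtain ⟨f, hf, hf3, hff⟩ := up3 h0 (h.clq x).2 (h.clq x).1 hx
    exact ⟨f, hf, hf3, hff, hxy.trans hff⟩

private theorem TfF_up4 [Finite V0] (h0 : IsSph3 G0) {f : Set V0}
    (hf : G0.IsClique f) (h3 : f.ncard = 3) :
    ∃ D : Set V0, G0.IsClique D ∧ D.ncard = 4 ∧ f ⊂ D ∧ cel c f ⊆ bdc c D := by
  obtain ⟨D, hD, hD4, hfD⟩ := up4 h0 hf
    (Set.nonempty_of_ncard_ne_zero (by rw [h3]; norm_num)) (by omega)
  have hss : f ⊂ D := by
    refine hfD.ssubset_of_ne ?_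
    rintro rfl
    omega
  exact ⟨D, hD, hD4, hss, fun x hx => Set.ssubset_of_subset_of_ssubset hx hss⟩

/-- two common neighbours in the boundary of a tetrahedron -/
private theorem TfF_star (h : CY G0 G c) {D : Set V0} (hD : G0.IsClique D) (h4 : D.ncard = 4)
    {x y : V} (e : EIn G (bdc c D) x y) :
    {z | EIn G (bdc c D) x z ∧ EIn G (bdc c D) y z}.ncard = 2 := by
  have hxl : y ∈ Lk G {x} ∩ bdc c D := ⟨fun u hu => by
    rw [Set.mem_singleton_iff.1 hu]
    exact e.1, e.2.2⟩
  have h1 := ((h.bd D hD h4).1.lk x e.2.1).2 y hxl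
  rw [← h1]
  congr 1
  ext z
  constructor
  · rintro ⟨h2, h3⟩
    refine ⟨h3.1, hxl, ⟨fun u hu => ?_, h2.2.2⟩⟩
    rw [Set.mem_singleton_iff.1 hu]
    exact h2.1
  · rintro ⟨h2, -, h3, h5⟩
    exact ⟨⟨h3 x rfl, e.2.1, h5⟩, ⟨h2, e.2.2, h5⟩⟩

private theorem TfF_in [Finite V0] (h : CY G0 G c) {f D : Set V0} (h3 : f.ncard = 3)
    (h4 : D.ncard = 4) {x z : V} (hx : c x = f) (e : G.Adj x z) (hz : z ∈ bdc c D) :
    z ∈ cel c f := by
  rcases h.cmp x z e with h1 | h1
  · have h2 : (c z).ncard < D.ncard := Set.ncard_lt_ncard hz (Set.toFinite D)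
    rw [hx] at h1
    have h5 : f = c z := Set.eq_of_subset_of_ncard_le h1 (by omega) (Set.toFinite _)
    exact h5.symm.subset
  · rw [hx] at h1
    exact h1

theorem face_two [Finite V0] [Finite V] (h0 : IsSph3 G0) (h : CY G0 G c) {f : Set V0}
    (hf : G0.IsClique f) (h3 : f.ncard = 3) {x y : V} (e : EIn G (cel c f) x y)
    (hxy : c x = f ∨ c y = f) : {z | EIn G (cel c f) x z ∧ EIn G (cel c f) y z}.ncard = 2 := by
  obtain ⟨D, hD, hD4, hfD, hS⟩ := TfF_up4 h0 hf h3
  have h1 := TfF_star h hD hD4 (x := x) (y := y) ⟨e.1, hS e.2.1, hS e.2.2⟩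
  rw [← h1]
  congr 1
  ext z
  constructor
  · rintro ⟨h2, h4⟩
    exact ⟨⟨h2.1, hS h2.2.1, hS h2.2.2⟩, ⟨h4.1, hS h4.2.1, hS h4.2.2⟩⟩
  · rintro ⟨h2, h4⟩
    have hz : z ∈ cel c f := by
      rcases hxy with h5 | h5
      · exact TfF_in h h3 hD4 h5 h2.1 h2.2.2
      · exact TfF_in h h3 hD4 h5 h4.1 h4.2.2
    exact ⟨⟨h2.1, e.2.1, hz⟩, ⟨h4.1, e.2.2, hz⟩⟩

theorem face_one [Finite V0] [Finite V] (h0 : IsSph3 G0) (h : CY G0 G c) {f : Set V0}
    (hf : G0.IsClique f) (h3 : f.ncard = 3) {x y : V} (e : EIn G (cel c f) x y)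
    (hx : c x ⊂ f) (hy : c y ⊂ f) :
    ∃ z, c z = f ∧ {z | EIn G (cel c f) x z ∧ EIn G (cel c f) y z} = {z} := by
  obtain ⟨d, hd, hD, hD4⟩ := TfF_step h0 hf
    (Set.nonempty_of_ncard_ne_zero (by rw [h3]; norm_num)) h3.le
  rw [h3] at hD4
  have hfD : f ⊂ insert d f := Set.ssubset_insert hd
  have hS : cel c f ⊆ bdc c (insert d f) :=
    fun x hx => Set.ssubset_of_subset_of_ssubset hx hfD
  -- the larger carrier
  have hE : ∃ E : Set V0, c x ⊆ E ∧ c y ⊆ E ∧ E ⊂ f ∧ E.ncard = 2 := by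
    have key : ∀ u v : V, G.Adj u v → c u ⊆ c v → c v ⊂ f → (c v).ncard = 2 := by
      intro u v huv h1 h2
      have h5 : (c v).ncard < f.ncard := Set.ncard_lt_ncard h2 (Set.toFinite f)
      have h6 : 0 < (c v).ncard := (Set.ncard_pos (Set.toFinite _)).2 (h.clq v).1
      by_contra h7
      have h8 : (c v).ncard = 1 := by omega
      obtain ⟨a, ha⟩ := Set.ncard_eq_one.1 h8
      have h9 : c u = {a} := by
        rw [ha] at h1
        exact (Set.subset_singleton_iff_eq.1 h1).resolve_left (h.clq u).1.ne_empty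
      have h10 : u = v := (h.vert a).unique h9 ha
      rw [h10] at huv
      exact G.loopless.irrefl v huv
    rcases h.cmp x y e.1 with h1 | h1
    · exact ⟨c y, h1, subset_rfl, hy, key x y e.1 h1 hy⟩
    · exact ⟨c x, subset_rfl, h1, hx, key y x e.1.symm h1 hx⟩
  obtain ⟨E, hxE, hyE, hEf, hE2⟩ := hE
  have hdE : d ∉ E := fun h1 => hd (hEf.1 h1)
  have hE3 : (insert d E).ncard = 3 := by
    rw [Set.ncard_insert_of_notMem hdE (Set.toFinite E), hE2]
  have hEE : E ⊂ insert d E := Set.ssubset_insert hdE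
  have hED : insert d E ⊂ insert d f := by
    refine (Set.insert_subset_insert hEf.1).ssubset_of_ne ?_
    intro h1
    rw [h1, hD4] at hE3
    omega
  have hcl : G.IsClique (({x, y} : Finset V) : Set V) := by
    rw [Finset.coe_pair]
    intro a ha b hb hab
    rcases ha with rfl | ha
    · rcases hb with rfl | hb
      · exact absurd rfl hab
      · rw [Set.mem_singleton_iff.1 hb]
        exact e.1
    · rcases hb with rfl | hb
      · rw [Set.mem_singleton_iff.1 ha]
        exact e.1.symm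
      · rw [Set.mem_singleton_iff.1 ha, Set.mem_singleton_iff.1 hb] at hab
        exact absurd rfl hab
  have hget : ∀ t : Set V0, G0.IsClique t → c x ⊂ t → c y ⊂ t →
      ∃ z, c z = t ∧ G.Adj x z ∧ G.Adj y z := by
    intro t ht h1 h2
    have h5 := (h.half t ht {x, y} ⟨x, Finset.mem_insert_self x _⟩ hcl (by
      intro w hw
      rcases Finset.mem_insert.1 hw with rfl | hw
      · exact h1
      · rw [Finset.mem_singleton.1 hw]
        exact h2)).1.1
    obtain ⟨z, hz, hz'⟩ := h5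
    rw [Finset.coe_pair] at hz
    exact ⟨z, hz', hz x (Or.inl rfl), hz y (Or.inr rfl)⟩
  obtain ⟨z, hz, hxz, hyz⟩ := hget f hf hx hy
  obtain ⟨z', hz', hxz', hyz'⟩ := hget (insert d E) (hD.subset hED.1)
    (Set.ssubset_of_subset_of_ssubset hxE hEE) (Set.ssubset_of_subset_of_ssubset hyE hEE)
  have hzz : z ≠ z' := by
    rintro rfl
    rw [hz] at hz'
    apply hd
    rw [hz']
    exact Set.mem_insert d E
  have h1 := TfF_star h hD hD4 (x := x) (y := y) ⟨e.1, hS e.2.1, hS e.2.2⟩
  have hxS := hS e.2.1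
  have hyS := hS e.2.2
  have hzS : z ∈ bdc c (insert d f) := by
    change c z ⊂ insert d f
    rw [hz]
    exact hfD
  have hzS' : z' ∈ bdc c (insert d f) := by
    change c z' ⊂ insert d f
    rw [hz']
    exact hED
  have h2 : ({z, z'} : Set V) = {w | EIn G (bdc c (insert d f)) x w ∧
      EIn G (bdc c (insert d f)) y w} := by
    apply Set.eq_of_subset_of_ncard_le
    · intro w hw
      rcases hw with rfl | hw
      · exact ⟨⟨hxz, hxS, hzS⟩, ⟨hyz, hyS, hzS⟩⟩
      · rw [Set.mem_singleton_iff.1 hw]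
        exact ⟨⟨hxz', hxS, hzS'⟩, ⟨hyz', hyS, hzS'⟩⟩
    · rw [h1, Set.ncard_pair hzz]
    · exact Set.toFinite _
  have hzf : z ∈ cel c f := by
    change c z ⊆ f
    rw [hz]
  refine ⟨z, hz, ?_⟩
  ext w
  constructor
  · rintro ⟨h5, h6⟩
    have h7 : w ∈ ({z, z'} : Set V) := by
      rw [h2]
      exact ⟨⟨h5.1, hxS, hS h5.2.2⟩, ⟨h6.1, hyS, hS h6.2.2⟩⟩
    rcases h7 with h7 | h7
    · exact h7
    · exfalso
      rw [Set.mem_singleton_iff.1 h7] at h5
      have h8 : c z' ⊆ f := h5.2.2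
      rw [hz'] at h8
      exact hd (h8 (Set.mem_insert d E))
  · intro hw
    rw [Set.mem_singleton_iff.1 hw]
    exact ⟨⟨hxz, e.2.1, hzf⟩, ⟨hyz, e.2.2, hzf⟩⟩

theorem face_lk [Finite V0] [Finite V] (h0 : IsSph3 G0) (h : CY G0 G c) {f : Set V0}
    (hf : G0.IsClique f) (h3 : f.ncard = 3) {x : V} (hx : c x ⊆ f) :
    Conn G (Lk G {x} ∩ cel c f) := by
  by_cases hxf : c x = f
  · obtain ⟨D, hD, hD4, hfD, hS⟩ := TfF_up4 h0 hf h3
    have h1 := ((h.bd D hD hD4).1.lk x (hS hx)).1
    have e : Lk G {x} ∩ bdc c D = Lk G {x} ∩ cel c f := by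
      ext z
      constructor
      · rintro ⟨h2, h4⟩
        exact ⟨h2, TfF_in h h3 hD4 hxf (h2 x rfl) h4⟩
      · rintro ⟨h2, h4⟩
        exact ⟨h2, hS h4⟩
    rw [← e]
    exact h1
  · have hxf' : c x ⊂ f := hx.ssubset_of_ne hxf
    have h1 := (h.half f hf {x} (Finset.singleton_nonempty x) (by
      rw [Finset.coe_singleton]
      exact SimpleGraph.isClique_singleton x) (by
      intro w hw
      rw [Finset.mem_singleton.1 hw]
      exact hxf')).1
    rw [Finset.coe_singleton] at h1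
    have hsub : Lk G {x} ∩ opc c f ⊆ Lk G {x} ∩ cel c f := by
      rintro z ⟨h2, h4⟩
      refine ⟨h2, ?_⟩
      have h5 : c z = f := h4
      change c z ⊆ f
      rw [h5]
    have key : ∀ u ∈ Lk G {x} ∩ cel c f, ∃ w ∈ Lk G {x} ∩ opc c f,
        Relation.ReflTransGen (EIn G (Lk G {x} ∩ cel c f)) u w := by
      intro u hu
      by_cases huf : c u = f
      · exact ⟨u, ⟨hu.1, huf⟩, Relation.ReflTransGen.refl⟩
      · have huf' : c u ⊂ f := LE.le.ssubset_of_ne (show c u ⊆ f from hu.2) huf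
        have hxu : G.Adj x u := hu.1 x rfl
        have h2 := (h.half f hf {x, u} ⟨x, Finset.mem_insert_self x _⟩ (by
          rw [Finset.coe_pair]
          intro a ha b hb hab
          rcases ha with rfl | ha
          · rcases hb with rfl | hb
            · exact absurd rfl hab
            · rw [Set.mem_singleton_iff.1 hb]
              exact hxu
          · rcases hb with rfl | hb
            · rw [Set.mem_singleton_iff.1 ha]
              exact hxu.symm
            · rw [Set.mem_singleton_iff.1 ha, Set.mem_singleton_iff.1 hb] at hab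
              exact absurd rfl hab) (by
          intro w hw
          rcases Finset.mem_insert.1 hw with rfl | hw
          · exact hxf'
          · rw [Finset.mem_singleton.1 hw]
            exact huf')).1.1
        obtain ⟨w, hw, hw'⟩ := h2
        rw [Finset.coe_pair] at hw
        have hwx : w ∈ Lk G {x} ∩ opc c f := ⟨fun a ha => by
          rw [Set.mem_singleton_iff.1 ha]
          exact hw x (Or.inl rfl), hw'⟩
        refine ⟨w, hwx, Relation.ReflTransGen.single ⟨hw u (Or.inr rfl), hu, hsub hwx⟩⟩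
    refine ⟨h1.1.mono hsub, ?_⟩
    intro u hu v hv
    obtain ⟨u', hu', hu''⟩ := key u hu
    obtain ⟨v', hv', hv''⟩ := key v hv
    exact (hu''.trans (rtg_mono hsub (h1.2 u' hu' v' hv'))).trans (rtg_symm hv'')

end MOT
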