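import Pool.Agent.MOT.Ret

/-!
# MOT/Sdi: subdivision invariance of `b0`, `b1`, `Conn`, `HZ`, `rk1`
-/

open Classical

noncomputable section

namespace MOT

variable {V : Type} {G : SimpleGraph V} {A B M M' : Set V} {N N' : Set (Cq G)}

/-- a vertex of the simplex `s` -/
def pk (s : Cq G) : V := s.2.1.choose

theorem pk_mem (s : Cq G) : pk s ∈ s.1 := s.2.1.choose_spec

/-- pull back of a cochain of `A` to `sd` (along `pk`) -/
def upc (G : SimpleGraph V) (A : Set V) (a : V → V → ZMod 2) : Cq G → Cq G → ZMod 2 :=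
  fun s t => if EIn (sd G) (mi G A) s t then (if pk s = pk t then 0 else a (pk s) (pk t)) else 0

/-- `a x y := a {x} {x,y} + a {x,y} {y}` -/
def dnc (G : SimpleGraph V) (A : Set V) (a : Cq G → Cq G → ZMod 2) : V → V → ZMod 2 :=
  fun x y => if h : EIn G A x y then
    a (vx G x) (eg G h.1) + a (eg G h.1) (vx G y) else 0

/-- equal or adjacent -/
private def Cx (G : SimpleGraph V) (x y : V) : Prop := x = y ∨ G.Adj x y

private theorem Cx.symm {x y : V} (h : Cx G x y) : Cx G y x := by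
  rcases h with h | h
  · exact Or.inl h.symm
  · exact Or.inr h.symm

private theorem cx_le {s t : Cq G} (h : s ≤ t) : Cx (sd G) s t := by
  rcases eq_or_lt_of_le h with e | e
  · exact Or.inl e
  · exact Or.inr (Or.inl e)

private theorem cx_mem (s : Cq G) {x y : V} (hx : x ∈ s.1) (hy : y ∈ s.1) : Cx G x y := by
  by_cases e : x = y
  · exact Or.inl e
  · exact Or.inr (s.2.2 (Finset.mem_coe.2 hx) (Finset.mem_coe.2 hy) e)

private theorem zx_self {a : V → V → ZMod 2} (ha : a ∈ Z1 G A) (x : V) : a x x = 0 :=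
  (mem_Z1.1 ha).1 x x (fun h => G.loopless.irrefl x h.1)

private theorem zx_symm {a : V → V → ZMod 2} (ha : a ∈ Z1 G A) (x y : V) : a x y = a y x :=
  (mem_Z1.1 ha).2.1 x y

private theorem zx_tri {a : V → V → ZMod 2} (ha : a ∈ Z1 G A) {x y z : V} (hx : x ∈ A)
    (hy : y ∈ A) (hz : z ∈ A) (hxy : Cx G x y) (hyz : Cx G y z) (hxz : Cx G x z) :
    a x y + a y z = a x z := by
  rcases hxy with rfl | hxy
  · rw [zx_self ha, zero_add]
  rcases hyz with rfl | hyz
  · rw [zx_self ha, add_zero]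
  rcases hxz with rfl | hxz
  · rw [zx_self ha, zx_symm ha y x]; exact two_add _
  exact (mem_Z1.1 ha).2.2 x y z ⟨hxy, hx, hy⟩ ⟨hyz, hy, hz⟩ ⟨hxz, hx, hz⟩

private theorem tx {a : V → V → ZMod 2} (ha : a ∈ Z1 G A) {f : V → ZMod 2}
    (hf : ∀ x y, EIn G B x y → a x y = f x + f y) {x y : V} (hx : x ∈ B) (hy : y ∈ B)
    (h : Cx G x y) : a x y = f x + f y := by
  rcases h with rfl | h
  · rw [zx_self ha, two_add]
  · exact hf x y ⟨h, hx, hy⟩

/-- the pair of chosen vertices of comparable simplices -/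
private theorem pk_cx {s t : Cq G} (h : (sd G).Adj s t) : Cx G (pk s) (pk t) := by
  rcases sd_adj.1 h with h | h
  · exact cx_mem t (Cq.le_iff.1 h.le (pk_mem s)) (pk_mem t)
  · exact cx_mem s (pk_mem s) (Cq.le_iff.1 h.le (pk_mem t))

private theorem pk_A {s : Cq G} (h : s ∈ mi G A) : pk s ∈ A := h _ (pk_mem s)

private theorem pk_vx (x : V) : pk (vx G x) = x := Finset.mem_singleton.1 (pk_mem (vx G x))

private theorem vx_le {s : Cq G} {x : V} (h : x ∈ s.1) : vx G x ≤ s :=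
  Cq.le_iff.2 (Finset.singleton_subset_iff.2 h)

private theorem vx_mi {x : V} (h : x ∈ A) : vx G x ∈ mi G A := by
  intro y hy
  rw [Finset.mem_singleton.1 hy]; exact h

private theorem eg_mi {x y : V} (h : EIn G A x y) : eg G h.1 ∈ mi G A := by
  intro z hz
  rcases Finset.mem_insert.1 hz with e | e
  · rw [e]; exact h.2.1
  · rw [Finset.mem_singleton.1 e]; exact h.2.2

private theorem eg_l {x y : V} (h : G.Adj x y) : x ∈ (eg G h).1 := Finset.mem_insert_self _ _

private theorem eg_r {x y : V} (h : G.Adj x y) : y ∈ (eg G h).1 :=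
  Finset.mem_insert_of_mem (Finset.mem_singleton_self _)

private theorem upc_eq {a : V → V → ZMod 2} (ha : a ∈ Z1 G A) {s t : Cq G}
    (hs : s ∈ mi G A) (ht : t ∈ mi G A) (h : Cx (sd G) s t) :
    upc G A a s t = a (pk s) (pk t) := by
  unfold upc
  rcases h with rfl | h
  · rw [zx_self ha]
    split_ifs <;> rfl
  · rw [if_pos ⟨h, hs, ht⟩]
    split_ifs with e
    · rw [e, zx_self ha]
    · rfl

private theorem upc_mem' {a : V → V → ZMod 2} (ha : a ∈ Z1 G A) :
    upc G A a ∈ Z1 (sd G) (mi G A) := by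
  refine mem_Z1.2 ⟨fun x y e => if_neg e, fun x y => ?_, fun x y z e1 e2 e3 => ?_⟩
  · by_cases e : EIn (sd G) (mi G A) x y
    · rw [upc_eq ha e.2.1 e.2.2 (Or.inr e.1), upc_eq ha e.2.2 e.2.1 (Or.inr e.1.symm)]
      exact zx_symm ha _ _
    · unfold upc
      rw [if_neg e, if_neg (fun e' => e e'.symm)]
  · rw [upc_eq ha e1.2.1 e1.2.2 (Or.inr e1.1), upc_eq ha e2.2.1 e2.2.2 (Or.inr e2.1),
      upc_eq ha e3.2.1 e3.2.2 (Or.inr e3.1)]
    exact zx_tri ha (pk_A e1.2.1) (pk_A e1.2.2) (pk_A e2.2.2) (pk_cx e1.1) (pk_cx e2.1)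
      (pk_cx e3.1)

private theorem dnc_eq {a : Cq G → Cq G → ZMod 2} (ha : a ∈ Z1 (sd G) (mi G A)) {u : Cq G}
    (hu : u ∈ mi G A) {x y : V} (hx : x ∈ u.1) (hy : y ∈ u.1) :
    dnc G A a x y = a (vx G x) u + a u (vx G y) := by
  have hxA := hu x hx
  have hyA := hu y hy
  by_cases e : x = y
  · subst e
    unfold dnc
    rw [dif_neg (fun h => G.loopless.irrefl x h.1), zx_symm ha u (vx G x), two_add]
  · have hadj : G.Adj x y := u.2.2 (Finset.mem_coe.2 hx) (Finset.mem_coe.2 hy) e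
    have h : EIn G A x y := ⟨hadj, hxA, hyA⟩
    have heu : eg G hadj ≤ u := by
      refine Cq.le_iff.2 fun z hz => ?_
      rcases Finset.mem_insert.1 hz with e | e
      · rw [e]; exact hx
      · rw [Finset.mem_singleton.1 e]; exact hy
    have t1 := zx_tri ha (vx_mi hxA) (eg_mi h) hu (cx_le (vx_le (eg_l hadj))) (cx_le heu)
      (cx_le (vx_le hx))
    have t2 := zx_tri ha hu (eg_mi h) (vx_mi hyA) (cx_le heu).symm
      (cx_le (vx_le (eg_r hadj))).symm (cx_le (vx_le hy)).symm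
    unfold dnc
    rw [dif_pos h, ← t1, ← t2, zx_symm ha u (eg G hadj)]
    have := two_add (a (eg G hadj) u)
    calc a (vx G x) (eg G hadj) + a (eg G hadj) (vx G y)
        = a (vx G x) (eg G hadj) + (a (eg G hadj) u + a (eg G hadj) u)
          + a (eg G hadj) (vx G y) := by rw [this, add_zero]
      _ = _ := by abel

private theorem alg1 (a b c : ZMod 2) : a + b + (b + c) = a + c := by decide +revert

private theorem alg2 (a b c d e f : ZMod 2) (h1 : a + b = c) (h2 : c + d = e + f) :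
    b = e + a + (f + d) := by decide +revert

private theorem alg3 (a b c d : ZMod 2) (h1 : a + b = c) : c + d + b = a + d := by
  decide +revert

private theorem alg4 (a b c : ZMod 2) (h : a + b = c) : b = a + c := by decide +revert

theorem upc_mem {a : V → V → ZMod 2} (ha : a ∈ Z1 G A) : upc G A a ∈ Z1 (sd G) (mi G A) :=
  upc_mem' ha

theorem dnc_mem {a : Cq G → Cq G → ZMod 2} (ha : a ∈ Z1 (sd G) (mi G A)) :
    dnc G A a ∈ Z1 G A := by
  refine mem_Z1.2 ⟨fun x y e => dif_neg e, fun x y => ?_, fun x y z e1 e2 e3 => ?_⟩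
  · by_cases e : EIn G A x y
    · rw [dnc_eq ha (eg_mi e) (eg_l e.1) (eg_r e.1), dnc_eq ha (eg_mi e) (eg_r e.1) (eg_l e.1),
        zx_symm ha (vx G x), zx_symm ha (vx G y), add_comm]
    · unfold dnc
      rw [dif_neg e, dif_neg (fun e' => e e'.symm)]
  · let u : Cq G := ⟨{x, y, z}, ⟨x, by simp⟩, by
      intro p hp q hq hpq
      simp only [Finset.coe_insert, Finset.coe_singleton, Set.mem_insert_iff,
        Set.mem_singleton_iff] at hp hq
      rcases hp with rfl | rfl | rfl <;> rcases hq with rfl | rfl | rfl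
      · exact absurd rfl hpq
      · exact e1.1
      · exact e3.1
      · exact e1.1.symm
      · exact absurd rfl hpq
      · exact e2.1
      · exact e3.1.symm
      · exact e2.1.symm
      · exact absurd rfl hpq⟩
    have hu : u ∈ mi G A := by
      intro p hp
      have hp' : p ∈ ({x, y, z} : Finset V) := hp
      simp only [Finset.mem_insert, Finset.mem_singleton] at hp'
      rcases hp' with rfl | rfl | rfl
      · exact e1.2.1
      · exact e1.2.2
      · exact e2.2.2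
    have hx : x ∈ u.1 := by change x ∈ ({x, y, z} : Finset V); simp
    have hy : y ∈ u.1 := by change y ∈ ({x, y, z} : Finset V); simp
    have hz : z ∈ u.1 := by change z ∈ ({x, y, z} : Finset V); simp
    rw [dnc_eq ha hu hx hy, dnc_eq ha hu hy hz, dnc_eq ha hu hx hz, zx_symm ha u (vx G y)]
    exact alg1 _ _ _

theorem Triv_upc {a : V → V → ZMod 2} (ha : a ∈ Z1 G A) (h : B ⊆ A) :
    Triv (sd G) (mi G B) (upc G A a) ↔ Triv G B a := by
  constructor
  · rintro ⟨F, hF⟩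
    refine ⟨fun x => F (vx G x), fun x y e => ?_⟩
    have hxB := vx_mi (G := G) e.2.1
    have hyB := vx_mi (G := G) e.2.2
    have heB := eg_mi e
    have c1 : Cx (sd G) (vx G x) (eg G e.1) := cx_le (vx_le (eg_l e.1))
    have c2 : Cx (sd G) (eg G e.1) (vx G y) := (cx_le (vx_le (eg_r e.1))).symm
    have t1 := tx (upc_mem ha) hF hxB heB c1
    have t2 := tx (upc_mem ha) hF heB hyB c2
    rw [upc_eq ha (mi_mono h hxB) (mi_mono h heB) c1, pk_vx] at t1
    rw [upc_eq ha (mi_mono h heB) (mi_mono h hyB) c2, pk_vx] at t2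
    have hp := pk_mem (eg G e.1)
    have t3 := zx_tri ha (h e.2.1) (h (pk_A heB)) (h e.2.2)
      (cx_mem (eg G e.1) (eg_l e.1) hp) (cx_mem (eg G e.1) hp (eg_r e.1)) (Or.inr e.1)
    rw [← t3, t1, t2]
    exact alg1 _ _ _
  · rintro ⟨f, hf⟩
    refine ⟨fun s => f (pk s), fun s t e => ?_⟩
    rw [upc_eq ha (mi_mono h e.2.1) (mi_mono h e.2.2) (Or.inr e.1)]
    exact tx ha hf (pk_A e.2.1) (pk_A e.2.2) (pk_cx e.1)

theorem Triv_dnc {a : Cq G → Cq G → ZMod 2} (ha : a ∈ Z1 (sd G) (mi G A)) (h : B ⊆ A) :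
    Triv G B (dnc G A a) ↔ Triv (sd G) (mi G B) a := by
  constructor
  · rintro ⟨f, hf⟩
    have key : ∀ s t : Cq G, s ∈ mi G B → t ∈ mi G B → s ≤ t →
        a s t = (f (pk s) + a (vx G (pk s)) s) + (f (pk t) + a (vx G (pk t)) t) := by
      intro s t hs ht hst
      have hsA := mi_mono h hs
      have htA := mi_mono h ht
      have hx : pk s ∈ t.1 := Cq.le_iff.1 hst (pk_mem s)
      have t1 := zx_tri ha (vx_mi (pk_A hsA)) hsA htA (cx_le (vx_le (pk_mem s))) (cx_le hst)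
        (cx_le (vx_le hx))
      have t2 := dnc_eq ha htA hx (pk_mem t)
      rw [tx (dnc_mem ha) hf (pk_A hs) (pk_A ht) (cx_mem t hx (pk_mem t)),
        zx_symm ha t (vx G (pk t))] at t2
      exact alg2 _ _ _ _ _ _ t1 t2.symm
    refine ⟨fun s => f (pk s) + a (vx G (pk s)) s, fun s t e => ?_⟩
    rcases sd_adj.1 e.1 with h' | h'
    · exact key s t e.2.1 e.2.2 h'.le
    · rw [zx_symm ha s t, key t s e.2.2 e.2.1 h'.le, add_comm]
  · rintro ⟨F, hF⟩
    refine ⟨fun x => F (vx G x), fun x y e => ?_⟩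
    have hxB := vx_mi (G := G) e.2.1
    have hyB := vx_mi (G := G) e.2.2
    have heB := eg_mi e
    rw [dnc_eq ha (mi_mono h heB) (eg_l e.1) (eg_r e.1),
      tx ha hF hxB heB (cx_le (vx_le (eg_l e.1))),
      tx ha hF heB hyB (cx_le (vx_le (eg_r e.1))).symm]
    exact alg1 _ _ _

/-- `upc (dnc a)` and `a` are cohomologous: potential `s ↦ a (vx (pk s)) s`. -/
theorem upc_dnc {a : Cq G → Cq G → ZMod 2} (ha : a ∈ Z1 (sd G) (mi G A)) :
    Triv (sd G) (mi G A) (upc G A (dnc G A a) + a) := by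
  have key : ∀ s t : Cq G, s ∈ mi G A → t ∈ mi G A → s ≤ t →
      upc G A (dnc G A a) s t + a s t = a (vx G (pk s)) s + a (vx G (pk t)) t := by
    intro s t hs ht hst
    have hx : pk s ∈ t.1 := Cq.le_iff.1 hst (pk_mem s)
    have t1 := zx_tri ha (vx_mi (pk_A hs)) hs ht (cx_le (vx_le (pk_mem s))) (cx_le hst)
      (cx_le (vx_le hx))
    rw [upc_eq (dnc_mem ha) hs ht (cx_le hst), dnc_eq ha ht hx (pk_mem t),
      zx_symm ha t (vx G (pk t))]
    exact alg3 _ _ _ _ t1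
  refine ⟨fun s => a (vx G (pk s)) s, fun s t e => ?_⟩
  rcases sd_adj.1 e.1 with h' | h'
  · exact key s t e.2.1 e.2.2 h'.le
  · have := key t s e.2.2 e.2.1 h'.le
    rw [Pi.add_apply, Pi.add_apply, zx_symm (upc_mem (dnc_mem ha)) s t, zx_symm ha s t, this,
      add_comm]

private theorem fc {f : V → ZMod 2} (hf : ∀ x y, EIn G A x y → f x = f y) {x y : V}
    (hx : x ∈ A) (hy : y ∈ A) (h : Cx G x y) : f x = f y := by
  rcases h with rfl | h
  · rfl
  · exact hf x y ⟨h, hx, hy⟩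

theorem sd_Conn : Conn (sd G) (mi G A) ↔ Conn G A := by
  rw [Conn_iff, Conn_iff]
  constructor
  · rintro ⟨⟨s, hs⟩, h⟩
    refine ⟨⟨pk s, pk_A hs⟩, fun f hf x hx y hy => ?_⟩
    have := h (fun s => f (pk s)) (fun s t e => fc hf (pk_A e.2.1) (pk_A e.2.2) (pk_cx e.1))
      (vx G x) (vx_mi hx) (vx G y) (vx_mi hy)
    simpa only [pk_vx] using this
  · rintro ⟨⟨x, hx⟩, h⟩
    refine ⟨⟨vx G x, vx_mi hx⟩, fun F hF s hs t ht => ?_⟩
    have := h (fun x => F (vx G x)) (fun x y e =>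
      (fc hF (vx_mi e.2.1) (eg_mi e) (cx_le (vx_le (eg_l e.1)))).trans
        (fc hF (eg_mi e) (vx_mi e.2.2) (cx_le (vx_le (eg_r e.1))).symm))
      (pk s) (pk_A hs) (pk t) (pk_A ht)
    have e1 : F (vx G (pk s)) = F s := fc hF (vx_mi (pk_A hs)) hs (cx_le (vx_le (pk_mem s)))
    have e2 : F (vx G (pk t)) = F t := fc hF (vx_mi (pk_A ht)) ht (cx_le (vx_le (pk_mem t)))
    rw [← e1, ← e2]
    exact this

theorem sd_HZ : HZ (sd G) (mi G A) ↔ HZ G A :=
  ⟨fun h a ha => (Triv_upc ha subset_rfl).1 (h _ (upc_mem ha)),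
    fun h _ ha => (Triv_dnc ha subset_rfl).1 (h _ (dnc_mem ha))⟩

theorem sd_Inj (h : B ⊆ A) : Inj (sd G) (mi G A) (mi G B) ↔ Inj G A B :=
  ⟨fun hi _ ha t => (Triv_upc ha subset_rfl).1 (hi _ (upc_mem ha) ((Triv_upc ha h).2 t)),
    fun hi _ ha t => (Triv_dnc ha subset_rfl).1 (hi _ (dnc_mem ha) ((Triv_dnc ha h).2 t))⟩

theorem sd_Surj (h : B ⊆ A) : Surj (sd G) (mi G A) (mi G B) ↔ Surj G A B := by
  constructor
  · intro hs b hb
    obtain ⟨a', ha', t⟩ := hs _ (upc_mem hb)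
    refine ⟨dnc G A a', dnc_mem ha', ?_⟩
    have hm := mi_mono (G := G) h
    have hc : rs (sd G) (mi G B) a' + upc G B b ∈ Z1 (sd G) (mi G B) :=
      (Z1 (sd G) (mi G B)).add_mem (rs_mem hm ha') (upc_mem hb)
    have t' : Triv (sd G) (mi G B) (rs (sd G) (mi G B) a' + upc G B b) :=
      t.congr fun s t e => by rw [Pi.add_apply, Pi.add_apply, Pi.add_apply, Pi.add_apply,
        rs_apply e]
    refine ((Triv_dnc hc subset_rfl).2 t').congr fun x y e => ?_
    have heB := eg_mi e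
    have e1 : EIn (sd G) (mi G B) (vx G x) (eg G e.1) := by
      refine ⟨?_, vx_mi e.2.1, heB⟩
      rcases cx_le (vx_le (eg_l e.1)) with h' | h'
      · exfalso
        have := eg_r e.1
        rw [← h'] at this
        exact e.1.ne (Finset.mem_singleton.1 this).symm
      · exact h'
    have e2 : EIn (sd G) (mi G B) (eg G e.1) (vx G y) := by
      refine ⟨?_, heB, vx_mi e.2.2⟩
      rcases (cx_le (vx_le (eg_r e.1))).symm with h' | h'
      · exfalso
        have := eg_l e.1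
        rw [h'] at this
        exact e.1.ne (Finset.mem_singleton.1 this)
      · exact h'
    rw [dnc_eq hc heB (eg_l e.1) (eg_r e.1), Pi.add_apply, Pi.add_apply, Pi.add_apply,
      Pi.add_apply, Pi.add_apply, Pi.add_apply, rs_apply e1, rs_apply e2,
      dnc_eq ha' (hm heB) (eg_l e.1) (eg_r e.1),
      upc_eq hb e1.2.1 heB (Or.inr e1.1), upc_eq hb heB e2.2.2 (Or.inr e2.1), pk_vx, pk_vx]
    have hp := pk_mem (eg G e.1)
    have t3 := zx_tri hb e.2.1 (pk_A heB) e.2.2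
      (cx_mem (eg G e.1) (eg_l e.1) hp) (cx_mem (eg G e.1) hp (eg_r e.1)) (Or.inr e.1)
    rw [← t3]
    abel
  · intro hs b hb
    obtain ⟨a, ha, t⟩ := hs _ (dnc_mem hb)
    refine ⟨upc G A a, upc_mem ha, ?_⟩
    have hc : rs G B a + dnc G B b ∈ Z1 G B :=
      (Z1 G B).add_mem (rs_mem h ha) (dnc_mem hb)
    have t' : Triv G B (rs G B a + dnc G B b) :=
      t.congr fun s t e => by rw [Pi.add_apply, Pi.add_apply, Pi.add_apply, Pi.add_apply,
        rs_apply e]
    have t1 := (Triv_upc hc subset_rfl).2 t'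
    refine (t1.add (upc_dnc hb)).congr fun s t e => ?_
    have hra : rs G B a (pk s) (pk t) = a (pk s) (pk t) := by
      rcases pk_cx e.1 with h' | h'
      · rw [h', zx_self ha, zx_self (rs_mem h ha)]
      · exact rs_apply ⟨h', pk_A e.2.1, pk_A e.2.2⟩
    simp only [Pi.add_apply]
    rw [upc_eq hc e.2.1 e.2.2 (Or.inr e.1), upc_eq (dnc_mem hb) e.2.1 e.2.2 (Or.inr e.1),
      upc_eq ha (mi_mono h e.2.1) (mi_mono h e.2.2) (Or.inr e.1), Pi.add_apply, Pi.add_apply,
      hra]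
    exact alg1 _ _ _

theorem sd_b0 [Finite V] : b0 (sd G) (mi G A) = b0 G A := by
  let φ : Z0 (sd G) (mi G A) →ₗ[ZMod 2] Z0 G A :=
    { toFun := fun F => ⟨fun x => if x ∈ A then F.1 (vx G x) else 0, by
        refine mem_Z0.2 ⟨fun x hx => if_neg hx, fun x y e => ?_⟩
        rw [if_pos e.2.1, if_pos e.2.2]
        have hF := (mem_Z0.1 F.2).2
        exact (fc hF (vx_mi e.2.1) (eg_mi e) (cx_le (vx_le (eg_l e.1)))).trans
          (fc hF (eg_mi e) (vx_mi e.2.2) (cx_le (vx_le (eg_r e.1))).symm)⟩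
      map_add' := by
        intro f g; ext x
        simp only [Submodule.coe_add, Pi.add_apply]
        split_ifs <;> simp
      map_smul' := by
        intro c f; ext x
        simp only [Submodule.coe_smul, Pi.smul_apply, RingHom.id_apply]
        split_ifs <;> simp }
  let ψ : Z0 G A →ₗ[ZMod 2] Z0 (sd G) (mi G A) :=
    { toFun := fun f => ⟨fun s => if s ∈ mi G A then f.1 (pk s) else 0, by
        refine mem_Z0.2 ⟨fun s hs => if_neg hs, fun s t e => ?_⟩
        rw [if_pos e.2.1, if_pos e.2.2]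
        exact fc (mem_Z0.1 f.2).2 (pk_A e.2.1) (pk_A e.2.2) (pk_cx e.1)⟩
      map_add' := by
        intro f g; ext x
        simp only [Submodule.coe_add, Pi.add_apply]
        split_ifs <;> simp
      map_smul' := by
        intro c f; ext x
        simp only [Submodule.coe_smul, Pi.smul_apply, RingHom.id_apply]
        split_ifs <;> simp }
  have e : Z0 (sd G) (mi G A) ≃ₗ[ZMod 2] Z0 G A := LinearEquiv.ofLinearMap φ ψ (by
    ext f x
    change (if x ∈ A then (if vx G x ∈ mi G A then f.1 (pk (vx G x)) else 0) else 0) = f.1 x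
    by_cases hx : x ∈ A
    · rw [if_pos hx, if_pos (vx_mi hx), pk_vx]
    · rw [if_neg hx, (mem_Z0.1 f.2).1 x hx]) (by
    ext F s
    change (if s ∈ mi G A then (if pk s ∈ A then F.1 (vx G (pk s)) else 0) else 0) = F.1 s
    by_cases hs : s ∈ mi G A
    · rw [if_pos hs, if_pos (pk_A hs)]
      exact fc (mem_Z0.1 F.2).2 (vx_mi (pk_A hs)) hs (cx_le (vx_le (pk_mem s)))
    · rw [if_neg hs, (mem_Z0.1 F.2).1 s hs])
  exact LinearEquiv.finrank_eq e

theorem sd_rk1 [Finite V] (h : B ⊆ A) : rk1 (sd G) (mi G A) (mi G B) = rk1 G A B := by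
  let U : (Z1 G A) →ₗ[ZMod 2] (Z1 (sd G) (mi G A)) :=
    { toFun := fun a => ⟨upc G A a.1, upc_mem a.2⟩
      map_add' := by
        intro a b; ext x y
        simp only [Submodule.coe_add, upc, Pi.add_apply]
        split_ifs <;> simp
      map_smul' := by
        intro c a; ext x y
        simp only [Submodule.coe_smul, upc, Pi.smul_apply, RingHom.id_apply]
        split_ifs <;> simp }
  let T : (Z1 G A) →ₗ[ZMod 2]
      ((Z1 (sd G) (mi G A)) ⧸ (K1 (sd G) (mi G A) (mi G B)).comap (Z1 (sd G) (mi G A)).subtype) :=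
    (Submodule.mkQ _).comp U
  have hT : ∀ a : Z1 G A, T a = Submodule.Quotient.mk ⟨upc G A a.1, upc_mem a.2⟩ := fun _ => rfl
  have hker : LinearMap.ker T = (K1 G A B).comap (Z1 G A).subtype := by
    ext a
    rw [LinearMap.mem_ker, hT, Submodule.Quotient.mk_eq_zero]
    simp only [Submodule.mem_comap, Submodule.subtype_apply, mem_K1]
    constructor
    · rintro ⟨_, t⟩; exact ⟨a.2, (Triv_upc a.2 h).1 t⟩
    · rintro ⟨_, t⟩; exact ⟨upc_mem a.2, (Triv_upc a.2 h).2 t⟩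
  have hsur : Function.Surjective T := by
    intro q
    obtain ⟨b, rfl⟩ := Submodule.Quotient.mk_surjective _ q
    refine ⟨⟨dnc G A b.1, dnc_mem b.2⟩, ?_⟩
    rw [hT, Submodule.Quotient.eq]
    refine ⟨(Z1 (sd G) (mi G A)).sub_mem (upc_mem (dnc_mem b.2)) b.2, ?_⟩
    refine ((upc_dnc b.2).mono (mi_mono h)).congr fun x y e => ?_
    simp only [Submodule.subtype_apply, Submodule.coe_sub, Pi.add_apply, Pi.sub_apply,
      CharTwo.sub_eq_add]
  unfold rk1
  rw [← hker]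
  exact (LinearEquiv.finrank_eq (T.quotKerEquivOfSurjective hsur)).symm

theorem sd_b1 [Finite V] : b1 (sd G) (mi G A) = b1 G A := sd_rk1 subset_rfl

/-- trace of the simplex `s` on `M` (`s` itself if it misses `M`) -/
def tr (M : Set V) (s : Cq G) : Cq G :=
  if h : (s.1.filter (· ∈ M)).Nonempty then
    ⟨s.1.filter (· ∈ M), h, fun x hx y hy hxy =>
      s.2.2 (Finset.mem_coe.2 (Finset.mem_filter.1 (Finset.mem_coe.1 hx)).1)
        (Finset.mem_coe.2 (Finset.mem_filter.1 (Finset.mem_coe.1 hy)).1) hxy⟩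
  else s

theorem tr_val {s : Cq G} (h : s ∈ pl G M) : (tr M s).1 = s.1.filter (· ∈ M) := by
  obtain ⟨x, hx, hm⟩ := h
  have h' : (s.1.filter (· ∈ M)).Nonempty := ⟨x, Finset.mem_filter.2 ⟨hx, hm⟩⟩
  unfold tr
  rw [dif_pos h']

theorem tr_le (s : Cq G) : tr M s ≤ s := by
  unfold tr
  split_ifs with h
  · exact Cq.le_iff.2 (Finset.filter_subset _ _)
  · exact le_rfl

theorem tr_mem {s : Cq G} (h : s ∈ pl G M) : tr M s ∈ mi G M := by
  intro x hx
  rw [tr_val h] at hx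
  exact (Finset.mem_filter.1 hx).2

theorem tr_mono {s t : Cq G} (h : s ∈ pl G M) (hst : s ≤ t) : tr M s ≤ tr M t := by
  have ht : t ∈ pl G M := by
    obtain ⟨x, hx, hm⟩ := h
    exact ⟨x, Cq.le_iff.1 hst hx, hm⟩
  rw [Cq.le_iff, tr_val h, tr_val ht]
  exact Finset.filter_subset_filter _ (Cq.le_iff.1 hst)

theorem tr_id {s : Cq G} (h : s ∈ mi G M) : tr M s = s := by
  apply Subtype.ext
  rw [tr_val (mi_sub_pl h)]
  exact Finset.filter_true_of_mem h

/-! every `N` between `mi M` and `pl M` has the cohomology of `M` (retraction `tr M`) -/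

theorem bt_Inj (h1 : mi G M ⊆ N) (h2 : N ⊆ pl G M) : Inj (sd G) N (mi G M) :=
  ret_Inj (tr M) h1 (fun _ hs => tr_mem (h2 hs)) (fun s _ => tr_le s)
    (fun _ hs _ _ hst => tr_mono (h2 hs) hst)

theorem bt_Surj (h1 : mi G M ⊆ N) (h2 : N ⊆ pl G M) : Surj (sd G) N (mi G M) :=
  ret_Surj (tr M) h1 (fun _ hs => tr_mem (h2 hs))
    (fun _ hs _ _ hst => tr_mono (h2 hs) hst) (fun _ hs => tr_id hs)

theorem bt_Conn (h1 : mi G M ⊆ N) (h2 : N ⊆ pl G M) : Conn (sd G) N ↔ Conn G M :=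
  (ret_Conn (tr M) h1 (fun _ hs => tr_mem (h2 hs)) (fun s _ => tr_le s)
    (fun _ hs _ _ hst => tr_mono (h2 hs) hst)).trans sd_Conn

theorem bt_HZ (h1 : mi G M ⊆ N) (h2 : N ⊆ pl G M) : HZ (sd G) N ↔ HZ G M :=
  (ret_HZ (tr M) h1 (fun _ hs => tr_mem (h2 hs)) (fun s _ => tr_le s)
    (fun _ hs _ _ hst => tr_mono (h2 hs) hst) (fun _ hs => tr_id hs)).trans sd_HZ

theorem bt_b1 [Finite V] (h1 : mi G M ⊆ N) (h2 : N ⊆ pl G M) : b1 (sd G) N = b1 G M :=
  (ret_b1 (tr M) h1 (fun _ hs => tr_mem (h2 hs)) (fun s _ => tr_le s)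
    (fun _ hs _ _ hst => tr_mono (h2 hs) hst) (fun _ hs => tr_id hs)).trans sd_b1

theorem bt_b0 [Finite V] (h1 : mi G M ⊆ N) (h2 : N ⊆ pl G M) : b0 (sd G) N = b0 G M :=
  (ret_b0 (tr M) h1 (fun _ hs => tr_mem (h2 hs)) (fun s _ => tr_le s)
    (fun _ hs _ _ hst => tr_mono (h2 hs) hst) (fun _ hs => tr_id hs)).trans sd_b0

/-- a cocycle of `N` is trivial iff it is trivial on `mi M` -/
theorem bt_Triv (h1 : mi G M ⊆ N) (h2 : N ⊆ pl G M) {a : Cq G → Cq G → ZMod 2}
    (ha : a ∈ Z1 (sd G) N) : Triv (sd G) N a ↔ Triv (sd G) (mi G M) a :=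
  ⟨fun t => t.mono h1, fun t => bt_Inj h1 h2 a ha t⟩

private theorem alg5 (a b c : ZMod 2) (h : a + b = c) : a = c + b := by decide +revert

/-- `Triv` of a difference -/
private theorem Triv.chain {W : Type} {H : SimpleGraph W} {D : Set W}
    {a b c : W → W → ZMod 2} (s : Triv H D (a + b)) (t : Triv H D (b + c)) :
    Triv H D (a + c) := by
  refine (s.add t).congr fun x y _ => ?_
  simp only [Pi.add_apply]
  exact alg1 _ _ _

private theorem Triv.of_add {W : Type} {H : SimpleGraph W} {D : Set W}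
    {a b : W → W → ZMod 2} (s : Triv H D (a + b)) (t : Triv H D b) : Triv H D a := by
  refine (s.add t).congr fun x y _ => ?_
  simp only [Pi.add_apply]
  rw [add_assoc, two_add, add_zero]

/-- triviality on `N` of a cocycle of a bigger set -/
private theorem bt_Triv' (h1 : mi G M ⊆ N) (h2 : N ⊆ pl G M) {D : Set (Cq G)} (hD : N ⊆ D)
    {a : Cq G → Cq G → ZMod 2} (ha : a ∈ Z1 (sd G) D) (t : Triv (sd G) (mi G M) a) :
    Triv (sd G) N a := by
  refine Triv_rs.1 ((bt_Triv h1 h2 (rs_mem hD ha)).2 ?_)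
  exact t.congr fun x y e => (rs_apply (e.mono h1)).symm

private theorem rk1_surj [Finite V] {C : Set V} (h : B ⊆ A) (h' : C ⊆ B) (hs : Surj G A B) :
    rk1 G A C = rk1 G B C := by
  refine le_antisymm (rk1_mono_left h h') ?_
  rw [rk1_eq_range (h'.trans h), rk1_eq_range h']
  refine Submodule.finrank_mono ?_
  rintro _ ⟨b, rfl⟩
  obtain ⟨a, ha, t⟩ := hs b.1 b.2
  refine ⟨⟨a, ha⟩, ?_⟩
  rw [rmap_apply, rmap_apply, Submodule.Quotient.eq]
  refine ⟨(Z1 G C).sub_mem (rs_mem (h'.trans h) ha) (rs_mem h' b.2), ?_⟩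
  refine (t.mono h').congr fun x y e => ?_
  simp only [Submodule.subtype_apply, Submodule.coe_sub, Pi.add_apply, Pi.sub_apply,
    rs_apply e, CharTwo.sub_eq_add]

theorem bt_rk1 [Finite V] (hM : M' ⊆ M) (hN : N' ⊆ N) (h1 : mi G M ⊆ N) (h2 : N ⊆ pl G M)
    (h1' : mi G M' ⊆ N') (h2' : N' ⊆ pl G M') : rk1 (sd G) N N' = rk1 G M M' := by
  have e1 : rk1 (sd G) N N' = rk1 (sd G) N (mi G M') := by
    have hK : K1 (sd G) N N' = K1 (sd G) N (mi G M') := by
      ext a
      exact ⟨fun t => ⟨t.1, t.2.mono h1'⟩, fun t => ⟨t.1, bt_Triv' h1' h2' hN t.1 t.2⟩⟩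
    unfold rk1
    rw [hK]
  rw [e1, rk1_surj h1 (mi_mono hM) (bt_Surj h1 h2), sd_rk1 hM]

theorem bt_Inj2 (hM : M' ⊆ M) (hN : N' ⊆ N) (h1 : mi G M ⊆ N) (h2 : N ⊆ pl G M)
    (h1' : mi G M' ⊆ N') (h2' : N' ⊆ pl G M') : Inj (sd G) N N' ↔ Inj G M M' := by
  rw [← sd_Inj hM]
  constructor
  · intro hi a ha t
    obtain ⟨b, hb, tb⟩ := bt_Surj h1 h2 a ha
    have t1 : Triv (sd G) (mi G M') b := (tb.mono (mi_mono hM)).of_add t
    have t2 := (hi b hb (bt_Triv' h1' h2' hN hb t1)).mono h1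
    refine Triv.of_add (b := b) (tb.congr fun x y _ => ?_) t2
    simp only [Pi.add_apply]
    rw [add_comm]
  · intro hi a ha t
    refine (bt_Triv h1 h2 ha).2 (Triv_rs.1 (hi _ (rs_mem h1 ha) ?_))
    exact (t.mono h1').congr fun x y e => (rs_apply (e.mono (mi_mono hM))).symm

theorem bt_Surj2 (hM : M' ⊆ M) (hN : N' ⊆ N) (h1 : mi G M ⊆ N) (h2 : N ⊆ pl G M)
    (h1' : mi G M' ⊆ N') (h2' : N' ⊆ pl G M') : Surj (sd G) N N' ↔ Surj G M M' := by
  rw [← sd_Surj hM]
  constructor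
  · intro hs b hb
    obtain ⟨b', hb', t1⟩ := bt_Surj h1' h2' b hb
    obtain ⟨a, ha, t2⟩ := hs b' hb'
    refine ⟨rs (sd G) (mi G M) a, rs_mem h1 ha, ?_⟩
    refine ((t2.mono h1').chain t1).congr fun x y e => ?_
    simp only [Pi.add_apply]
    rw [rs_apply (e.mono (mi_mono hM))]
  · intro hs b hb
    obtain ⟨a, ha, t1⟩ := hs _ (rs_mem h1' hb)
    obtain ⟨a', ha', t2⟩ := bt_Surj h1 h2 a ha
    refine ⟨a', ha', ?_⟩
    have t3 : Triv (sd G) (mi G M') (a' + rs (sd G) (mi G M') b) :=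
      (t2.mono (mi_mono hM)).chain t1
    have t4 : Triv (sd G) (mi G M') (rs (sd G) N' a' + b) := t3.congr fun x y e => by
      simp only [Pi.add_apply]
      rw [rs_apply e, rs_apply (e.mono h1')]
    have t5 := (bt_Triv h1' h2' ((Z1 (sd G) N').add_mem (rs_mem hN ha') hb)).2 t4
    refine t5.congr fun x y e => ?_
    simp only [Pi.add_apply]
    rw [rs_apply e]

private theorem bt_compl' (h1 : mi G M ⊆ N) (h2 : N ⊆ pl G M) :
    mi G Mᶜ ⊆ Nᶜ ∧ Nᶜ ⊆ pl G Mᶜ := by
  rw [← compl_pl, ← compl_mi]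
  exact ⟨Set.compl_subset_compl.2 h2, Set.compl_subset_compl.2 h1⟩

theorem bt_bb [Finite V] (h1 : mi G M ⊆ N) (h2 : N ⊆ pl G M) : bb (sd G) N = bb G M := by
  unfold bb
  rw [bt_b1 h1 h2, bt_b1 (bt_compl' h1 h2).1 (bt_compl' h1 h2).2]

/-- `N` is between `mi M` and `pl M` iff its complement is between `mi Mᶜ` and `pl Mᶜ` -/
theorem bt_compl (h1 : mi G M ⊆ N) (h2 : N ⊆ pl G M) : mi G Mᶜ ⊆ Nᶜ ∧ Nᶜ ⊆ pl G Mᶜ :=
  bt_compl' h1 h2

/-- components: if `C` is a component of `M` then `N ∩ pl C` is a component of `N` -/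
theorem bt_comp {C : Set V} (h1 : mi G M ⊆ N) (h2 : N ⊆ pl G M) (hC : IsComp G M C) :
    IsComp (sd G) N (N ∩ pl G C) := by
  obtain ⟨x, hx, rfl⟩ := hC
  have step : ∀ s t : Cq G, s ∈ N → t ∈ N → Cx (sd G) s t →
      Relation.ReflTransGen (EIn (sd G) N) s t := by
    intro s t hs ht h
    rcases h with rfl | h
    · exact Relation.ReflTransGen.refl
    · exact Relation.ReflTransGen.single ⟨h, hs, ht⟩
  have path : ∀ y, Relation.ReflTransGen (EIn G M) x y →
      Relation.ReflTransGen (EIn (sd G) N) (vx G x) (vx G y) := by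
    intro y h
    induction h with
    | refl => exact Relation.ReflTransGen.refl
    | tail _ e ih =>
      exact (ih.trans (step _ _ (h1 (vx_mi e.2.1)) (h1 (eg_mi e))
        (cx_le (vx_le (eg_l e.1))))).trans
        (step _ _ (h1 (eg_mi e)) (h1 (vx_mi e.2.2)) (cx_le (vx_le (eg_r e.1))).symm)
  refine ⟨vx G x, h1 (vx_mi hx), ?_⟩
  ext s
  constructor
  · rintro ⟨hs, z, hz, hzx, hzM⟩
    exact ⟨(path z hzx).trans (step _ _ (h1 (vx_mi hzM)) hs (cx_le (vx_le hz))), hs⟩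
  · rintro ⟨h, hs⟩
    refine ⟨hs, ?_⟩
    clear hs
    induction h with
    | refl => exact ⟨x, Finset.mem_singleton_self x, Relation.ReflTransGen.refl, hx⟩
    | tail _ e ih =>
      obtain ⟨z, hz, hzx, hzM⟩ := ih
      rcases sd_adj.1 e.1 with h' | h'
      · exact ⟨z, Cq.le_iff.1 h'.le hz, hzx, hzM⟩
      · obtain ⟨y, hy, hyM⟩ := h2 e.2.2
        refine ⟨y, hy, ?_, hyM⟩
        rcases cx_mem _ hz (Cq.le_iff.1 h'.le hy) with rfl | h''
        · exact hzx
        · exact hzx.tail ⟨h'', hzM, hyM⟩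

end MOT
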