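import Pool.Agent.MOT.TmDef
import Pool.Agent.MOT.Sdi

/-!
# MOT: THIN, the end of the argument in `Y` (helper16)

`Rk2 G DD A B r`: every `r + 1` pairs (hat class of `A`, hat class of `B`) have a nontrivial
combination which is trivial on `A` and on `B`.

`rk2_good`.  Given pairs `(a_k, b_k)`, extend `b_k` to `b'_k` on `upp Y l j` (hypothesis `hE2`), restrict
`a_k + b'_k` to `lev Y l j` (`rs`; it is a hat cocycle), extend it to `band Y l j` (`hE1`) and apply `hR`: there is
`c ≠ 0` such that `A + B = f x + f y` on `lev Y l j`, `A = ∑ c_k a_k`, `B = ∑ c_k b'_k`.  Glue `A` on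
`low Y l j` and `B + (f x + f y)` on `upp Y l j` to a cocycle of `Y` (every edge and every triangle of `Y` lies in
`low Y l j` or in `upp Y l j` since `l` is 1-Lipschitz, and `low ∩ upp = lev`; see `mv_glue`), it is
trivial by `HZ G Y`; so `A` is trivial on `low Y l j`, `B` on `upp Y l j`, hence `∑ c_k b_k` on
`upp Y l (j+1)`.

`rk2_sd`: pull back by `dnc` (Sdi): `dnc G A (rs (mi A) a)` is a hat cocycle of `A`; a cocycle of `A'` whose
pull back is trivial on `A` is trivial on `A'` (`Triv_dnc`, `bt_Triv`).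

`rk2_b1`: if `b1 A + b1 B ≥ r + 1` (with `DD = ∅`) there are `r + 1` pairs without a nontrivial trivial
combination (a basis of the product of the two quotients); so `Rk2 G ∅ A B r → b1 A + b1 B ≤ r`.
-/

open Classical

noncomputable section

namespace MOT

variable {V : Type}

/-- the hat classes of `A` and `B` together have dimension at most `r` -/
def Rk2 (G : SimpleGraph V) (DD : Set (Set V)) (A B : Set V) (r : ℕ) : Prop :=
  ∀ a b : Fin (r + 1) → V → V → ZMod 2, (∀ k, a k ∈ Zh G DD A) → (∀ k, b k ∈ Zh G DD B) →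
    ∃ c : Fin (r + 1) → ZMod 2, c ≠ 0 ∧ Triv G A (∑ k, c k • a k) ∧ Triv G B (∑ k, c k • b k)

theorem Zh_rs {G : SimpleGraph V} {DD : Set (Set V)} {A B : Set V} (h : B ⊆ A)
    {a : V → V → ZMod 2} (ha : a ∈ Zh G DD A) : rs G B a ∈ Zh G DD B := by
  obtain ⟨ha1, ha2⟩ := ha
  refine ⟨rs_mem h ha1, fun C hC => ?_⟩
  refine ((ha2 C hC).mono (Set.inter_subset_inter_left C h)).congr fun x y e => ?_
  exact (rs_apply (e.mono Set.inter_subset_left)).symm

private theorem Triv_smul {G : SimpleGraph V} {A : Set V} {a : V → V → ZMod 2} (c : ZMod 2)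
    (t : Triv G A a) : Triv G A (c • a) := by
  obtain ⟨f, hf⟩ := t
  refine ⟨c • f, fun x y e => ?_⟩
  simp only [Pi.smul_apply, hf x y e, smul_add]

private theorem Triv_sum {G : SimpleGraph V} {A : Set V} {n : ℕ} {a : Fin n → V → V → ZMod 2}
    (c : Fin n → ZMod 2) (t : ∀ k, Triv G A (a k)) : Triv G A (∑ k, c k • a k) := by
  have key : ∀ s : Finset (Fin n), Triv G A (∑ k ∈ s, c k • a k) := by
    intro s
    induction s using Finset.induction_on with
    | empty => rw [Finset.sum_empty]; exact Triv_zero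
    | insert k s hk ih => rw [Finset.sum_insert hk]; exact (Triv_smul _ (t k)).add ih
  exact key Finset.univ

private theorem pi_two {a : V → V → ZMod 2} : a + a = 0 := by
  funext x y
  exact two_add _

/-- replace a family by a cohomologous one -/
private theorem Triv_repl {G : SimpleGraph V} {A : Set V} {n : ℕ} {a b : Fin n → V → V → ZMod 2}
    (c : Fin n → ZMod 2) (t : ∀ k, Triv G A (a k + b k)) (h : Triv G A (∑ k, c k • b k)) :
    Triv G A (∑ k, c k • a k) := by
  have e : (∑ k, c k • a k) = (∑ k, c k • (a k + b k)) + ∑ k, c k • b k := by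
    rw [← Finset.sum_add_distrib]
    refine Finset.sum_congr rfl fun k _ => ?_
    rw [smul_add, add_assoc, pi_two, add_zero]
  rw [e]
  exact (Triv_sum c t).add h

private theorem lev_sub_low {Y : Set V} {l : V → ℕ} {j : ℕ} : lev Y l j ⊆ low Y l j :=
  fun _ hx => ⟨hx.1, hx.2.le⟩

private theorem lev_sub_upp {Y : Set V} {l : V → ℕ} {j : ℕ} : lev Y l j ⊆ upp Y l j :=
  fun _ hx => ⟨hx.1, hx.2.ge⟩

private theorem lowupp_lev {G : SimpleGraph V} {Y : Set V} {l : V → ℕ} {j : ℕ} {x y : V}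
    (h1 : EIn G (low Y l j) x y) (h2 : EIn G (upp Y l j) x y) : EIn G (lev Y l j) x y :=
  ⟨h1.1, ⟨h1.2.1.1, le_antisymm h1.2.1.2 h2.2.1.2⟩, ⟨h1.2.2.1, le_antisymm h1.2.2.2 h2.2.2.2⟩⟩

/-- glueing of cocycles of `low` and `upp` which agree on `lev` up to a coboundary -/
private theorem glue_tr {G : SimpleGraph V} {Y : Set V} {l : V → ℕ} {j : ℕ}
    (hz : HZ G Y) (hl : ∀ x y, EIn G Y x y → l x ≤ l y + 1)
    {A B : V → V → ZMod 2} (hA : A ∈ Z1 G (low Y l j)) (hB : B ∈ Z1 G (upp Y l j))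
    (t : Triv G (lev Y l j) (A + B)) : Triv G (low Y l j) A ∧ Triv G (upp Y l j) B := by
  obtain ⟨f, hf⟩ := t
  obtain ⟨B', hB', hBB⟩ : ∃ B' ∈ Z1 G (upp Y l j), ∀ x y, EIn G (upp Y l j) x y →
      B' x y = B x y + (f x + f y) :=
    ⟨B + cb G (upp Y l j) f, (Z1 G _).add_mem hB (cb_mem f), fun x y e => by
      simp only [Pi.add_apply, cb_apply e]⟩
  have hag : ∀ x y, EIn G (low Y l j) x y → EIn G (upp Y l j) x y → A x y = B' x y := by
    intro x y e1 e2
    have h := hf x y (lowupp_lev e1 e2)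
    rw [hBB x y e2, ← h]
    simp only [Pi.add_apply]
    have h2 := two_add (B x y)
    calc A x y = A x y + (B x y + B x y) := by rw [h2, add_zero]
      _ = B x y + (A x y + B x y) := by abel
  obtain ⟨hA0, hAs, hAc⟩ := mem_Z1.1 hA
  obtain ⟨hB0, hBs, hBc⟩ := mem_Z1.1 hB'
  -- the glued cochain
  obtain ⟨g, hg1, hg2, hg3⟩ : ∃ g : V → V → ZMod 2,
      (∀ x y, EIn G (low Y l j) x y → g x y = A x y) ∧
      (∀ x y, EIn G (upp Y l j) x y → g x y = B' x y) ∧
      (∀ x y, ¬ EIn G (low Y l j) x y → ¬ EIn G (upp Y l j) x y → g x y = 0) := by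
    refine ⟨fun x y => if EIn G (low Y l j) x y then A x y else
      if EIn G (upp Y l j) x y then B' x y else 0, fun x y e => if_pos e, fun x y e => ?_,
      fun x y e1 e2 => ?_⟩
    · by_cases e1 : EIn G (low Y l j) x y
      · simp only [if_pos e1]
        exact hag x y e1 e
      · simp only [if_neg e1, if_pos e]
    · simp only [if_neg e1, if_neg e2]
  have hlow : low Y l j ⊆ Y := fun _ hx => hx.1
  have hupp : upp Y l j ⊆ Y := fun _ hx => hx.1
  have hgZ : g ∈ Z1 G Y := by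
    refine mem_Z1.2 ⟨fun x y e => hg3 x y (fun e' => e (e'.mono hlow))
      (fun e' => e (e'.mono hupp)), fun x y => ?_, fun x y z e1 e2 e3 => ?_⟩
    · by_cases e1 : EIn G (low Y l j) x y
      · rw [hg1 x y e1, hg1 y x e1.symm, hAs]
      · by_cases e2 : EIn G (upp Y l j) x y
        · rw [hg2 x y e2, hg2 y x e2.symm, hBs]
        · rw [hg3 x y e1 e2, hg3 y x (fun e => e1 e.symm) (fun e => e2 e.symm)]
    · have h12 := hl x y e1
      have h21 := hl y x e1.symm
      have h23 := hl y z e2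
      have h32 := hl z y e2.symm
      have h13 := hl x z e3
      have h31 := hl z x e3.symm
      have hx := e1.2.1
      have hy := e1.2.2
      have hz' := e2.2.2
      have hcase : (l x ≤ j ∧ l y ≤ j ∧ l z ≤ j) ∨ (j ≤ l x ∧ j ≤ l y ∧ j ≤ l z) := by
        omega
      rcases hcase with ⟨a1, a2, a3⟩ | ⟨a1, a2, a3⟩
      · have f1 : EIn G (low Y l j) x y := ⟨e1.1, ⟨hx, a1⟩, ⟨hy, a2⟩⟩
        have f2 : EIn G (low Y l j) y z := ⟨e2.1, ⟨hy, a2⟩, ⟨hz', a3⟩⟩
        have f3 : EIn G (low Y l j) x z := ⟨e3.1, ⟨hx, a1⟩, ⟨hz', a3⟩⟩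
        rw [hg1 x y f1, hg1 y z f2, hg1 x z f3]
        exact hAc x y z f1 f2 f3
      · have f1 : EIn G (upp Y l j) x y := ⟨e1.1, ⟨hx, a1⟩, ⟨hy, a2⟩⟩
        have f2 : EIn G (upp Y l j) y z := ⟨e2.1, ⟨hy, a2⟩, ⟨hz', a3⟩⟩
        have f3 : EIn G (upp Y l j) x z := ⟨e3.1, ⟨hx, a1⟩, ⟨hz', a3⟩⟩
        rw [hg2 x y f1, hg2 y z f2, hg2 x z f3]
        exact hBc x y z f1 f2 f3
  have tg := hz g hgZ
  refine ⟨(tg.mono hlow).congr fun x y e => hg1 x y e, ?_⟩
  obtain ⟨p, hp⟩ := tg.mono hupp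
  refine ⟨p + f, fun x y e => ?_⟩
  have h1 := hp x y e
  rw [hg2 x y e, hBB x y e] at h1
  have h2 := two_add (f x + f y)
  calc B x y = B x y + ((f x + f y) + (f x + f y)) := by rw [h2, add_zero]
    _ = (B x y + (f x + f y)) + (f x + f y) := by abel
    _ = (p x + p y) + (f x + f y) := by rw [h1]
    _ = (p + f) x + (p + f) y := by simp only [Pi.add_apply]; abel

theorem rk2_good {G : SimpleGraph V} {DD : Set (Set V)} {Y : Set V} {l : V → ℕ} {j r : ℕ}
    (hz : HZ G Y) (hl : ∀ x y, EIn G Y x y → l x ≤ l y + 1)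
    (hR : Rk G DD (band Y l j) (lev Y l j) r)
    (hE1 : ∀ a ∈ Zh G DD (lev Y l j), ∃ a' ∈ Zh G DD (band Y l j), Triv G (lev Y l j) (a + a'))
    (hE2 : ∀ b ∈ Zh G DD (upp Y l (j + 1)),
      ∃ b' ∈ Zh G DD (upp Y l j), Triv G (upp Y l (j + 1)) (b + b')) :
    Rk2 G DD (low Y l j) (upp Y l (j + 1)) r := by
  intro a b ha hb
  choose b' hb' hbt using fun k => hE2 (b k) (hb k)
  have hd : ∀ k, rs G (lev Y l j) (a k) + rs G (lev Y l j) (b' k) ∈ Zh G DD (lev Y l j) :=
    fun k => (Zh G DD _).add_mem (Zh_rs lev_sub_low (ha k)) (Zh_rs lev_sub_upp (hb' k))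
  choose d hd' hdt using fun k => hE1 _ (hd k)
  obtain ⟨c, hc, ht⟩ := hR d hd'
  have hA : (∑ k, c k • a k) ∈ Z1 G (low Y l j) :=
    Submodule.sum_mem _ fun k _ => Submodule.smul_mem _ _ (ha k).1
  have hB : (∑ k, c k • b' k) ∈ Z1 G (upp Y l j) :=
    Submodule.sum_mem _ fun k _ => Submodule.smul_mem _ _ (hb' k).1
  have t1 : Triv G (lev Y l j) (∑ k, c k • (rs G (lev Y l j) (a k) + rs G (lev Y l j) (b' k))) :=
    Triv_repl c hdt ht
  have t2 : Triv G (lev Y l j) ((∑ k, c k • a k) + ∑ k, c k • b' k) := by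
    refine t1.congr fun x y e => ?_
    rw [← Finset.sum_add_distrib]
    simp only [Finset.sum_apply, Pi.smul_apply, Pi.add_apply]
    refine Finset.sum_congr rfl fun k _ => ?_
    rw [rs_apply e, rs_apply e, smul_add]
  obtain ⟨t3, t4⟩ := glue_tr hz hl hA hB t2
  have hsub : upp Y l (j + 1) ⊆ upp Y l j := fun _ hx => ⟨hx.1, (Nat.le_succ j).trans hx.2⟩
  exact ⟨c, hc, t3, Triv_repl c hbt (t4.mono hsub)⟩

private theorem dnc_sum {G : SimpleGraph V} {A : Set V} {n : ℕ} (c : Fin n → ZMod 2)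
    (a : Fin n → Cq G → Cq G → ZMod 2) :
    (∑ k, c k • dnc G A (a k)) = dnc G A (∑ k, c k • a k) := by
  funext x y
  simp only [Finset.sum_apply, Pi.smul_apply]
  unfold dnc
  by_cases e : EIn G A x y
  · simp only [dif_pos e, Finset.sum_apply, Pi.smul_apply, smul_add, Finset.sum_add_distrib]
  · simp only [dif_neg e, smul_zero, Finset.sum_const_zero]

private theorem dnc_Zh {G : SimpleGraph V} {DD : Set (Set V)} {A : Set V} {A' : Set (Cq G)}
    (hA : mi G A ⊆ A') {a : Cq G → Cq G → ZMod 2} (ha : a ∈ Zh (sd G) ((mi G) '' DD) A') :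
    rs (sd G) (mi G A) a ∈ Z1 (sd G) (mi G A) ∧
      dnc G A (rs (sd G) (mi G A) a) ∈ Zh G DD A := by
  have h1 : rs (sd G) (mi G A) a ∈ Z1 (sd G) (mi G A) := rs_mem hA ha.1
  refine ⟨h1, dnc_mem h1, fun D hD => ?_⟩
  rw [Triv_dnc h1 Set.inter_subset_left]
  have h2 := ha.2 (mi G D) ⟨D, hD, rfl⟩
  have h3 : mi G (A ∩ D) ⊆ A' ∩ mi G D := by
    rw [mi_inter]
    exact Set.inter_subset_inter_left _ hA
  refine (h2.mono h3).congr fun x y e => ?_
  exact (rs_apply (e.mono (mi_mono Set.inter_subset_left))).symm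

private theorem dnc_back {G : SimpleGraph V} {A : Set V} {A' : Set (Cq G)} {n : ℕ}
    (hA : mi G A ⊆ A') (hA' : A' ⊆ pl G A) {a : Fin n → Cq G → Cq G → ZMod 2}
    (ha : ∀ k, a k ∈ Z1 (sd G) A') (c : Fin n → ZMod 2)
    (t : Triv G A (∑ k, c k • dnc G A (rs (sd G) (mi G A) (a k)))) :
    Triv (sd G) A' (∑ k, c k • a k) := by
  have hm : (∑ k, c k • a k) ∈ Z1 (sd G) A' :=
    Submodule.sum_mem _ fun k _ => Submodule.smul_mem _ _ (ha k)
  rw [bt_Triv hA hA' hm]
  have hm2 : (∑ k, c k • rs (sd G) (mi G A) (a k)) ∈ Z1 (sd G) (mi G A) :=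
    Submodule.sum_mem _ fun k _ => Submodule.smul_mem _ _ (rs_mem hA (ha k))
  rw [dnc_sum, Triv_dnc hm2 subset_rfl] at t
  refine t.congr fun x y e => ?_
  simp only [Finset.sum_apply, Pi.smul_apply]
  refine Finset.sum_congr rfl fun k _ => ?_
  rw [rs_apply e]

theorem rk2_sd {G : SimpleGraph V} {DD : Set (Set V)} {A B : Set V} {A' B' : Set (Cq G)} {r : ℕ}
    (h : Rk2 G DD A B r) (hA : mi G A ⊆ A') (hA' : A' ⊆ pl G A) (hB : mi G B ⊆ B')
    (hB' : B' ⊆ pl G B) : Rk2 (sd G) ((mi G) '' DD) A' B' r := by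
  intro a b ha hb
  obtain ⟨c, hc, t1, t2⟩ := h (fun k => dnc G A (rs (sd G) (mi G A) (a k)))
    (fun k => dnc G B (rs (sd G) (mi G B) (b k))) (fun k => (dnc_Zh hA (ha k)).2)
    (fun k => (dnc_Zh hB (hb k)).2)
  exact ⟨c, hc, dnc_back hA hA' (fun k => (ha k).1) c t1,
    dnc_back hB hB' (fun k => (hb k).1) c t2⟩

private theorem Zh_empty {G : SimpleGraph V} {A : Set V} {a : V → V → ZMod 2}
    (ha : a ∈ Z1 G A) : a ∈ Zh G ∅ A := ⟨ha, fun _ h => h.elim⟩

theorem rk2_b1 [Finite V] {G : SimpleGraph V} {A B : Set V} {r : ℕ} (h : Rk2 G ∅ A B r) :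
    b1 G A + b1 G B ≤ r := by
  by_contra hn
  push Not at hn
  have hf : Module.finrank (ZMod 2)
      (((Z1 G A) ⧸ (K1 G A A).comap (Z1 G A).subtype) ×
        ((Z1 G B) ⧸ (K1 G B B).comap (Z1 G B).subtype)) = b1 G A + b1 G B := by
    rw [Module.finrank_prod]
    rfl
  obtain ⟨v, hv⟩ := exists_linearIndependent_of_le_finrank (R := ZMod 2)
    (M := (((Z1 G A) ⧸ (K1 G A A).comap (Z1 G A).subtype) ×
        ((Z1 G B) ⧸ (K1 G B B).comap (Z1 G B).subtype))) (n := r + 1) (by rw [hf]; exact hn)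
  choose a ha using fun k => Submodule.Quotient.mk_surjective _ (v k).1
  choose b hb using fun k => Submodule.Quotient.mk_surjective _ (v k).2
  obtain ⟨c, hc, t1, t2⟩ := h (fun k => (a k).1) (fun k => (b k).1)
    (fun k => Zh_empty (a k).2) (fun k => Zh_empty (b k).2)
  apply hc
  funext k
  refine Fintype.linearIndependent_iff.1 hv c ?_ k
  refine Prod.ext ?_ ?_
  · rw [Prod.fst_sum]
    simp only [Prod.smul_fst, Prod.fst_zero]
    have e : (∑ k, c k • (v k).1) =
        Submodule.Quotient.mk (p := (K1 G A A).comap (Z1 G A).subtype) (∑ k, c k • a k) := by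
      have := map_sum (Submodule.mkQ ((K1 G A A).comap (Z1 G A).subtype))
        (fun k => c k • a k) Finset.univ
      simp only [Submodule.mkQ_apply] at this
      rw [this]
      refine Finset.sum_congr rfl fun k _ => ?_
      rw [Submodule.Quotient.mk_smul, ha k]
    rw [e, Submodule.Quotient.mk_eq_zero]
    refine ⟨(∑ k, c k • a k : Z1 G A).2, ?_⟩
    refine t1.congr fun x y _ => ?_
    simp only [Submodule.subtype_apply, Submodule.coe_sum, Submodule.coe_smul]
  · rw [Prod.snd_sum]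
    simp only [Prod.smul_snd, Prod.snd_zero]
    have e : (∑ k, c k • (v k).2) =
        Submodule.Quotient.mk (p := (K1 G B B).comap (Z1 G B).subtype) (∑ k, c k • b k) := by
      have := map_sum (Submodule.mkQ ((K1 G B B).comap (Z1 G B).subtype))
        (fun k => c k • b k) Finset.univ
      simp only [Submodule.mkQ_apply] at this
      rw [this]
      refine Finset.sum_congr rfl fun k _ => ?_
      rw [Submodule.Quotient.mk_smul, hb k]
    rw [e, Submodule.Quotient.mk_eq_zero]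
    refine ⟨(∑ k, c k • b k : Z1 G B).2, ?_⟩
    refine t2.congr fun x y _ => ?_
    simp only [Submodule.subtype_apply, Submodule.coe_sum, Submodule.coe_smul]

/-- the rank condition from `rk1` -/
theorem rk_of_rk1 [Finite V] {G : SimpleGraph V} {P R : Set V} {r : ℕ} (h : rk1 G P R ≤ r) :
    Rk G ∅ P R r := by
  intro a ha
  by_contra hn
  push Not at hn
  have hli : LinearIndependent (ZMod 2) (fun k =>
      Submodule.Quotient.mk (p := (K1 G P R).comap (Z1 G P).subtype) ⟨a k, (ha k).1⟩) := by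
    rw [Fintype.linearIndependent_iff]
    intro c hc
    by_contra hk
    have hc0 : c ≠ 0 := by
      rintro rfl
      exact hk fun _ => rfl
    refine hn c hc0 ?_
    have e : (∑ k, c k • Submodule.Quotient.mk (p := (K1 G P R).comap (Z1 G P).subtype)
        (⟨a k, (ha k).1⟩ : Z1 G P)) =
        Submodule.Quotient.mk (p := (K1 G P R).comap (Z1 G P).subtype)
          (∑ k, c k • (⟨a k, (ha k).1⟩ : Z1 G P)) := by
      have := map_sum (Submodule.mkQ ((K1 G P R).comap (Z1 G P).subtype))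
        (fun k => c k • (⟨a k, (ha k).1⟩ : Z1 G P)) Finset.univ
      simp only [Submodule.mkQ_apply] at this
      rw [this]
      exact Finset.sum_congr rfl fun k _ => rfl
    rw [e, Submodule.Quotient.mk_eq_zero] at hc
    refine hc.2.congr fun x y _ => ?_
    simp only [Submodule.subtype_apply, Submodule.coe_sum, Submodule.coe_smul]
  have h2 := hli.fintype_card_le_finrank
  rw [Fintype.card_fin] at h2
  unfold rk1 at h
  omega

end MOT
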