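import Pool.Agent.MOT.TlA
import Pool.Agent.MOT.TfF
import Pool.Agent.MOT.TmEnd

/-!
# MOT: THIN, filled sets: from the 2-skeleton to the real set (helper23)

`M` is filled: `GC G (cel c D) (bdc c D) M` for all coarse tetrahedra `D`.  Every vertex has `c x ⊆ D` for some `D`
(`up4`), adjacent vertices have comparable carriers, so they lie in a common closed tetrahedron.

`fc_hat`: `a ∈ Z1 M` is trivial on `M ∩ bdc c D`: on every component `C` of `M ∩ cel c D` it has a potential; take
the potential of the component of the vertex; an edge of `M ∩ bdc c D` lies in one component.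
`fc_inj`: let `a ∈ Z1 M` be trivial on `M ∩ sk c 3`, potential `f`.  For `x ∈ M` with `c x = D` a tetrahedron, `C`
the component of `x` in `M ∩ cel c D`, `g` a potential of `a` on `C`: `f + g` is constant on the
connected nonempty set `C ∩ bdc c D` (edges of it are edges of `M ∩ sk c 3`), put `f x := g x + const`.
Check an edge `x y` of `M`: if both are in `sk c 3` clear; otherwise one has carrier `D`, both are in
`cel c D`, in the same component.
`fc_rk2`: `Rk2` for hat classes of `M ∩ sk c 3`, `Mᶜ ∩ sk c 3` gives `Rk2 G ∅ M Mᶜ r` (restrict with `rs`; the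
restrictions are hat cocycles by `fc_hat`, combinations trivial on the 2-skeleton are trivial by `fc_inj`).
-/

open Classical

noncomputable section

namespace MOT

variable {V0 V : Type} {G0 : SimpleGraph V0} {G : SimpleGraph V} {c : V → Set V0}

/-- `M` is filled in all coarse tetrahedra -/
def FC (G0 : SimpleGraph V0) (G : SimpleGraph V) (c : V → Set V0) (M : Set V) : Prop :=
  ∀ D : Set V0, G0.IsClique D → D.ncard = 4 → GC G (cel c D) (bdc c D) M

theorem FC.compl {M : Set V} (h : FC G0 G c M) : FC G0 G c Mᶜ :=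
  fun D hD h4 => (h D hD h4).compl

private theorem comp_edge83 {A : Set V} {x y : V} (e : EIn G A x y) :
    comp G A x = comp G A y := by
  ext z
  constructor
  · rintro ⟨h1, h2⟩
    exact ⟨(Relation.ReflTransGen.single e.symm).trans h1, h2⟩
  · rintro ⟨h1, h2⟩
    exact ⟨(Relation.ReflTransGen.single e).trans h1, h2⟩

/-- potentials on the components -/
private theorem triv_comp83 {A : Set V} {a : V → V → ZMod 2}
    (h : ∀ C, IsComp G A C → Triv G C a) : Triv G A a := by
  have h1 : ∀ C : Set V, ∃ f : V → ZMod 2, IsComp G A C →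
      ∀ x y, EIn G C x y → a x y = f x + f y := by
    intro C
    by_cases hC : IsComp G A C
    · obtain ⟨f, hf⟩ := h C hC
      exact ⟨f, fun _ => hf⟩
    · exact ⟨0, fun h2 => absurd h2 hC⟩
  choose g hg using h1
  refine ⟨fun x => g (comp G A x) x, fun x y e => ?_⟩
  simp only
  rw [← comp_edge83 e]
  refine hg _ ⟨x, e.2.1, rfl⟩ x y ⟨e.1, comp_self e.2.1, ?_⟩
  rw [comp_edge83 e]
  exact comp_self e.2.2

private theorem triv_sub83 {M C : Set V} {a : V → V → ZMod 2} (ha : a ∈ Z1 G M) (hC : C ⊆ M)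
    (hz : HZ G C) : Triv G C a := Triv_rs.1 (hz _ (rs_mem hC ha))

theorem fc_hat [Finite V0] (h0 : IsSph3 G0) (h : CY G0 G c) {M : Set V} (hM : FC G0 G c M)
    {a : V → V → ZMod 2} (ha : a ∈ Z1 G M) {B : Set V} (hB : B ∈ bdd G0 c) :
    Triv G (M ∩ B) a := by
  obtain ⟨D, hD, h4, rfl⟩ := hB
  have h1 : Triv G (M ∩ cel c D) a := by
    refine triv_comp83 fun C hC => ?_
    exact triv_sub83 ha (hC.sub.trans Set.inter_subset_left) ((hM D hD h4).1 C hC).1
  refine h1.mono ?_
  rintro x ⟨hx, hx'⟩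
  exact ⟨hx, hx'.1⟩

theorem fc_inj [Finite V0] (h0 : IsSph3 G0) (h : CY G0 G c) {M : Set V} (hM : FC G0 G c M)
    {a : V → V → ZMod 2} (ha : a ∈ Z1 G M) (ht : Triv G (M ∩ sk c 3) a) : Triv G M a := by
  obtain ⟨f, hf⟩ := ht
  have hcard : ∀ x, (c x).ncard ≤ 4 := by
    intro x
    have hfin : (c x).Finite := Set.toFinite _
    rw [Set.ncard_eq_toFinset_card _ hfin]
    apply h0.k5
    rw [hfin.coe_toFinset]
    exact (h.clq x).2
  have hsub3 : ∀ {s D : Set V0}, s ⊂ D → D.ncard = 4 → s.ncard ≤ 3 := by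
    intro s D hs hD
    have h1 := Set.ncard_lt_ncard hs (Set.toFinite D)
    omega
  -- the potentials
  have hpot : ∀ (D : Set V0) (C : Set V), ∃ g : V → ZMod 2, G0.IsClique D → D.ncard = 4 →
      IsComp G (M ∩ cel c D) C → (∀ x y, EIn G C x y → a x y = g x + g y) ∧
        ∀ x ∈ C ∩ bdc c D, g x = f x := by
    intro D C
    by_cases hD : G0.IsClique D
    swap
    · exact ⟨0, fun h1 => absurd h1 hD⟩
    by_cases h4 : D.ncard = 4
    swap
    · exact ⟨0, fun _ h1 => absurd h1 h4⟩
    by_cases hC : IsComp G (M ∩ cel c D) C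
    swap
    · exact ⟨0, fun _ _ h1 => absurd h1 hC⟩
    have hCM : C ⊆ M := hC.sub.trans Set.inter_subset_left
    obtain ⟨hz, hcn⟩ := (hM D hD h4).1 C hC
    obtain ⟨g, hg⟩ := triv_sub83 ha hCM hz
    obtain ⟨s0, hs0⟩ := hcn.1
    refine ⟨fun x => g x + (g s0 + f s0), fun _ _ _ => ⟨fun x y e => ?_, fun x hx => ?_⟩⟩
    · rw [hg x y e]
      have h1 := two_add (g s0 + f s0)
      calc g x + g y = g x + g y + ((g s0 + f s0) + (g s0 + f s0)) := by rw [h1, add_zero]
        _ = g x + (g s0 + f s0) + (g y + (g s0 + f s0)) := by abel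
    · have h1 : (fun v => g v + f v) x = (fun v => g v + f v) s0 := by
        refine hcn.const (f := fun v => g v + f v) (fun u v e => ?_) hx hs0
        have e1 : EIn G C u v := ⟨e.1, e.2.1.1, e.2.2.1⟩
        have e2 : EIn G (M ∩ sk c 3) u v := ⟨e.1, ⟨hCM e.2.1.1, hsub3 e.2.1.2 h4⟩,
          ⟨hCM e.2.2.1, hsub3 e.2.2.2 h4⟩⟩
        have h2 := hg u v e1
        rw [hf u v e2] at h2
        change g u + f u = g v + f v
        rw [← z2_eq]
        calc g u + f u + (g v + f v) = (f u + f v) + (g u + g v) := by abel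
          _ = 0 := by rw [h2, two_add]
      simp only at h1
      rw [← h1]
      calc g x + (g x + f x) = (g x + g x) + f x := by abel
        _ = f x := by rw [two_add, zero_add]
  choose g hg using hpot
  -- the edges with one carrier of dimension 3
  have key : ∀ x y, EIn G M x y → 3 < (c x).ncard →
      a x y = (if (c x).ncard ≤ 3 then f x else g (c x) (comp G (M ∩ cel c (c x)) x) x) +
        (if (c y).ncard ≤ 3 then f y else g (c y) (comp G (M ∩ cel c (c y)) y) y) := by
    intro x y e hx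
    have hx4 : (c x).ncard = 4 := by
      have := hcard x
      omega
    have hyx : c y ⊆ c x := by
      rcases h.cmp x y e.1 with h1 | h1
      · have h2 : c x = c y := Set.eq_of_subset_of_ncard_le h1 (by
          have := hcard y
          omega) (Set.toFinite _)
        exact h2.symm.subset
      · exact h1
    have eC : EIn G (M ∩ cel c (c x)) x y :=
      ⟨e.1, ⟨e.2.1, Set.Subset.refl (c x)⟩, ⟨e.2.2, hyx⟩⟩
    have hIs : IsComp G (M ∩ cel c (c x)) (comp G (M ∩ cel c (c x)) x) := ⟨x, eC.2.1, rfl⟩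
    obtain ⟨h1, h2⟩ := hg (c x) (comp G (M ∩ cel c (c x)) x) (h.clq x).2 hx4 hIs
    have hyC : y ∈ comp G (M ∩ cel c (c x)) x := by
      rw [comp_edge83 eC]
      exact comp_self eC.2.2
    rw [h1 x y ⟨e.1, comp_self eC.2.1, hyC⟩, if_neg (by omega)]
    congr 1
    by_cases hy : (c y).ncard ≤ 3
    · rw [if_pos hy]
      refine h2 y ⟨hyC, ?_⟩
      change c y ⊂ c x
      refine hyx.ssubset_of_ne ?_
      intro h3
      rw [h3] at hy
      omega
    · rw [if_neg hy]
      have h3 : c y = c x := Set.eq_of_subset_of_ncard_le hyx (by omega) (Set.toFinite _)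
      rw [h3, comp_edge83 eC]
  refine ⟨fun x => if (c x).ncard ≤ 3 then f x else
    g (c x) (comp G (M ∩ cel c (c x)) x) x, fun x y e => ?_⟩
  simp only
  by_cases hx : (c x).ncard ≤ 3
  · by_cases hy : (c y).ncard ≤ 3
    · rw [if_pos hx, if_pos hy]
      exact hf x y ⟨e.1, ⟨e.2.1, hx⟩, ⟨e.2.2, hy⟩⟩
    · rw [(mem_Z1.1 ha).2.1 x y, key y x e.symm (not_le.1 hy), add_comm]
  · exact key x y e (not_le.1 hx)

theorem fc_rk2 [Finite V0] (h0 : IsSph3 G0) (h : CY G0 G c) {M : Set V} (hM : FC G0 G c M)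
    {r : ℕ} (hr : Rk2 G (bdd G0 c) (M ∩ sk c 3) (Mᶜ ∩ sk c 3) r) : Rk2 G ∅ M Mᶜ r := by
  have aux : ∀ {N : Set V}, FC G0 G c N → ∀ {a : V → V → ZMod 2}, a ∈ Z1 G N →
      rs G (N ∩ sk c 3) a ∈ Zh G (bdd G0 c) (N ∩ sk c 3) := by
    intro N hN a ha
    refine ⟨rs_mem Set.inter_subset_left ha, fun B hB => ?_⟩
    have h1 := (fc_hat h0 h hN ha hB).mono
      (Set.inter_subset_inter_left B (Set.inter_subset_left (s := N) (t := sk c 3)))
    refine h1.congr fun x y e => ?_
    exact (rs_apply (e.mono Set.inter_subset_left)).symm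
  have aux2 : ∀ {N : Set V}, FC G0 G c N → ∀ {a : Fin (r + 1) → V → V → ZMod 2}
      (d : Fin (r + 1) → ZMod 2), (∀ k, a k ∈ Z1 G N) →
      Triv G (N ∩ sk c 3) (∑ k, d k • rs G (N ∩ sk c 3) (a k)) →
      Triv G N (∑ k, d k • a k) := by
    intro N hN a d ha ht
    refine fc_inj h0 h hN ((Z1 G N).sum_mem fun k _ => (Z1 G N).smul_mem _ (ha k)) ?_
    refine ht.congr fun x y e => ?_
    simp only [Finset.sum_apply, Pi.smul_apply]
    refine Finset.sum_congr rfl fun k _ => ?_
    rw [rs_apply e]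
  intro a b ha hb
  obtain ⟨d, hd, h1, h2⟩ := hr (fun k => rs G (M ∩ sk c 3) (a k))
    (fun k => rs G (Mᶜ ∩ sk c 3) (b k)) (fun k => aux hM (ha k).1)
    (fun k => aux hM.compl (hb k).1)
  exact ⟨d, hd, aux2 hM d (fun k => (ha k).1) h1, aux2 hM.compl d (fun k => (hb k).1) h2⟩

end MOT
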