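import Pool.Agent.MOT.TlF
import Pool.Agent.MOT.TlG

/-!
# MOT: THIN, filling all coarse tetrahedra (helper23)

`fill_all`: the numbers of mixed pairs for the finitely many coarse tetrahedra have a maximum `w`; take
`t = 2 w`, `b i = (i % 2 = 0)`; for every coarse tetrahedron `D` let `M_D` be the filling of `fill_one`; put
`M := {x | x ∈ sk 3 and x ∈ ev A t} ∪ {x | x ∉ sk 3 and x ∈ M_(car x)}` (a carrier with more than 3 elements is a
coarse tetrahedron).  Then `M ∩ cel D = M_D ∩ cel D` and the same for the complements, so `FC M`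
(`GC` only depends on `M ∩ cel D`), and `M ∩ sk 3 = ev A t ∩ sk 3`.
-/

open Classical

noncomputable section

namespace MOT

private theorem TlN_congr {V : Type} {G : SimpleGraph V} {T S M M' : Set V} (g : GC G T S M)
    (h : M' ∩ T = M ∩ T) : GC G T S M' := by
  have h' : M'ᶜ ∩ T = Mᶜ ∩ T := by
    ext x
    have hx : x ∈ M' ∩ T ↔ x ∈ M ∩ T := by rw [h]
    simp only [Set.mem_inter_iff, Set.mem_compl_iff] at hx ⊢
    tauto
  unfold GC
  rw [h, h']
  exact g

theorem fill_all (K : Lv) (n k : ℕ) (h : IsSph3 (tw K n).G) (A : Set (tw K (n + (k + 1))).V) :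
    ∃ (b : ℕ → Bool) (t : ℕ) (M : Set (tw K (n + (k + 1 + t))).V),
      FC (tw K n).G (tw K (n + (k + 1 + t))).G (car K n (k + 1 + t)) M ∧
      M ∩ sk (car K n (k + 1 + t)) 3 = ev K n (k + 1) b A t ∩ sk (car K n (k + 1 + t)) 3 := by
  obtain ⟨w, hw⟩ : ∃ w : ℕ, ∀ D : Set (tw K n).V,
      mx2 (tw K (n + (k + 1))).G (bdc (car K n (k + 1)) D) A ≤ w := by
    obtain ⟨w, hw⟩ := (Set.finite_range fun D : Set (tw K n).V =>
      mx2 (tw K (n + (k + 1))).G (bdc (car K n (k + 1)) D) A).bddAbove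
    exact ⟨w, fun D => hw ⟨D, rfl⟩⟩
  have hb : ∀ i : ℕ, decide ((i + 1) % 2 = 0) = !decide (i % 2 = 0) := by
    intro i
    by_cases h1 : i % 2 = 0
    · have h2 : ¬ (i + 1) % 2 = 0 := by omega
      simp [h1, h2]
    · have h2 : (i + 1) % 2 = 0 := by omega
      simp [h1, h2]
  have key : ∀ D : Set (tw K n).V, ∃ M : Set (tw K (n + (k + 1 + 2 * w))).V,
      (tw K n).G.IsClique D → D.ncard = 4 →
      GC (tw K (n + (k + 1 + 2 * w))).G (cel (car K n (k + 1 + 2 * w)) D)
          (bdc (car K n (k + 1 + 2 * w)) D) M ∧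
        M ∩ bdc (car K n (k + 1 + 2 * w)) D =
          ev K n (k + 1) (fun i => decide (i % 2 = 0)) A (2 * w) ∩
            bdc (car K n (k + 1 + 2 * w)) D := by
    intro D
    by_cases hD : (tw K n).G.IsClique D ∧ D.ncard = 4
    · obtain ⟨M, h1, h2⟩ := fill_one K n k h hD.1 hD.2 w (fun i => decide (i % 2 = 0)) hb A (hw D)
        (2 * w) le_rfl
      exact ⟨M, fun _ _ => ⟨h1, h2⟩⟩
    · exact ⟨∅, fun h1 h2 => absurd ⟨h1, h2⟩ hD⟩
  choose MD hMD using key
  refine ⟨fun i => decide (i % 2 = 0), 2 * w,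
    {x | if (car K n (k + 1 + 2 * w) x).ncard ≤ 3 then
      x ∈ ev K n (k + 1) (fun i => decide (i % 2 = 0)) A (2 * w)
      else x ∈ MD (car K n (k + 1 + 2 * w) x)}, ?_, ?_⟩
  · intro D hD h4
    obtain ⟨g, e⟩ := hMD D hD h4
    refine TlN_congr g ?_
    ext x
    constructor
    · rintro ⟨hx, hxD⟩
      refine ⟨?_, hxD⟩
      have hx' : if (car K n (k + 1 + 2 * w) x).ncard ≤ 3 then
        x ∈ ev K n (k + 1) (fun i => decide (i % 2 = 0)) A (2 * w)
        else x ∈ MD (car K n (k + 1 + 2 * w) x) := hx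
      by_cases hc : car K n (k + 1 + 2 * w) x = D
      · rw [hc, if_neg (by omega)] at hx'
        exact hx'
      · have hss : car K n (k + 1 + 2 * w) x ⊂ D := Set.ssubset_iff_subset_ne.2 ⟨hxD, hc⟩
        have hlt := Set.ncard_lt_ncard hss (Set.toFinite D)
        rw [if_pos (by omega)] at hx'
        have hm : x ∈ ev K n (k + 1) (fun i => decide (i % 2 = 0)) A (2 * w) ∩
            bdc (car K n (k + 1 + 2 * w)) D := ⟨hx', hss⟩
        rw [← e] at hm
        exact hm.1
    · rintro ⟨hx, hxD⟩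
      refine ⟨?_, hxD⟩
      show if (car K n (k + 1 + 2 * w) x).ncard ≤ 3 then
        x ∈ ev K n (k + 1) (fun i => decide (i % 2 = 0)) A (2 * w)
        else x ∈ MD (car K n (k + 1 + 2 * w) x)
      by_cases hc : car K n (k + 1 + 2 * w) x = D
      · rw [hc, if_neg (by omega)]
        exact hx
      · have hss : car K n (k + 1 + 2 * w) x ⊂ D := Set.ssubset_iff_subset_ne.2 ⟨hxD, hc⟩
        have hlt := Set.ncard_lt_ncard hss (Set.toFinite D)
        rw [if_pos (by omega)]
        have hm : x ∈ MD D ∩ bdc (car K n (k + 1 + 2 * w)) D := ⟨hx, hss⟩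
        rw [e] at hm
        exact hm.1
  · ext x
    constructor
    · rintro ⟨hx, hs⟩
      have hx' : if (car K n (k + 1 + 2 * w) x).ncard ≤ 3 then
        x ∈ ev K n (k + 1) (fun i => decide (i % 2 = 0)) A (2 * w)
        else x ∈ MD (car K n (k + 1 + 2 * w) x) := hx
      have hs' : (car K n (k + 1 + 2 * w) x).ncard ≤ 3 := hs
      rw [if_pos hs'] at hx'
      exact ⟨hx', hs⟩
    · rintro ⟨hx, hs⟩
      refine ⟨?_, hs⟩
      show if (car K n (k + 1 + 2 * w) x).ncard ≤ 3 then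
        x ∈ ev K n (k + 1) (fun i => decide (i % 2 = 0)) A (2 * w)
        else x ∈ MD (car K n (k + 1 + 2 * w) x)
      have hs' : (car K n (k + 1 + 2 * w) x).ncard ≤ 3 := hs
      rw [if_pos hs']
      exact hx

end MOT
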