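import Pool.Agent.MOT.TlM
import Pool.Agent.MOT.TlN
import Pool.Agent.MOT.TlK

/-!
# MOT: THIN, realisation of a thin set (helper23)

`lfill`: `fill_all`, then `fc_rk2`, `rk2_b1`, `fc_conn` (for `M` and `Mᶜ`), `fc_in` (for `M` and `Mᶜ`); `bb = b1 M + b1 Mᶜ`.
-/

open Classical

noncomputable section

namespace MOT

theorem lfill (K : Lv) (n k : ℕ) (h : IsSph3 (tw K n).G) {r : ℕ}
    {A : Set (tw K (n + (k + 1))).V} {A0 A1 : Set (tw K n).V}
    (hr : Rk2 (tw K (n + (k + 1))).G (bdd (tw K n).G (car K n (k + 1)))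
      (A ∩ sk (car K n (k + 1)) 3) (Aᶜ ∩ sk (car K n (k + 1)) 3) r)
    (hc : Conn (tw K (n + (k + 1))).G (A ∩ sk (car K n (k + 1)) 3))
    (hc' : Conn (tw K (n + (k + 1))).G (Aᶜ ∩ sk (car K n (k + 1)) 3))
    (hA0 : sk (car K n (k + 1)) 3 ∩ cel (car K n (k + 1)) A0 ⊆ A)
    (hA1 : sk (car K n (k + 1)) 3 ∩ cel (car K n (k + 1)) A1 ⊆ Aᶜ) :
    ∃ (t : ℕ) (M : Set (tw K (n + (k + 1 + t))).V),
      cel (car K n (k + 1 + t)) A0 ⊆ M ∧ Disjoint (cel (car K n (k + 1 + t)) A1) M ∧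
      Conn (tw K (n + (k + 1 + t))).G M ∧ Conn (tw K (n + (k + 1 + t))).G Mᶜ ∧
      bb (tw K (n + (k + 1 + t))).G M ≤ r := by
  obtain ⟨b, t, M, hF, hM⟩ := fill_all K n k h A
  have cy : CY (tw K n).G (tw K (n + (k + 1 + t))).G (car K n (k + 1 + t)) :=
    tw_cy_pos K n h (by omega)
  have hM' : Mᶜ ∩ sk (car K n (k + 1 + t)) 3 =
      (ev K n (k + 1) b A t)ᶜ ∩ sk (car K n (k + 1 + t)) 3 := by
    ext x
    have hx : x ∈ M ∩ sk (car K n (k + 1 + t)) 3 ↔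
        x ∈ ev K n (k + 1) b A t ∩ sk (car K n (k + 1 + t)) 3 := by rw [hM]
    simp only [Set.mem_inter_iff, Set.mem_compl_iff] at hx ⊢
    tauto
  have hrk := ev_rk2 K n k h b hr t
  rw [← hM, ← hM'] at hrk
  have hcM := ev_conn K n k h b hc t
  rw [← hM] at hcM
  have hcM' := ev_conn K n k h (fun i => !b i) hc' t
  rw [ev_compl K n (k + 1) b A t, ← hM'] at hcM'
  have hin0 := ev_in K n k b hA0 t
  have hin1 := ev_in K n k (fun i => !b i) hA1 t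
  rw [ev_compl K n (k + 1) b A t] at hin1
  refine ⟨t, M, ?_, ?_, fc_conn h cy hF hcM, fc_conn h cy hF.compl hcM', ?_⟩
  · refine fc_in h cy hF (fun x hx => ?_)
    have h1 : x ∈ M ∩ sk (car K n (k + 1 + t)) 3 := by
      rw [hM]
      exact ⟨hin0 hx, hx.1⟩
    exact h1.1
  · have h2 : cel (car K n (k + 1 + t)) A1 ⊆ Mᶜ := by
      refine fc_in h cy hF.compl (fun x hx => ?_)
      have h1 : x ∈ Mᶜ ∩ sk (car K n (k + 1 + t)) 3 := by
        rw [hM']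
        exact ⟨hin1 hx, hx.1⟩
      exact h1.1
    exact Set.disjoint_left.2 fun x hx hxM => h2 hx hxM
  · exact rk2_b1 (fc_rk2 h cy hF hrk)

end MOT
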