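import Pool.Agent.MOT.TfF

/-!
# MOT: THIN, from real cocycles to hat cocycles (helper23)

`ext_real`: `P` any set of vertices, `a` a hat cocycle of `P ∩ sk c 3`.  For every coarse tetrahedron `D` choose a
potential `p D` of `a` on `(P ∩ sk c 3) ∩ bdc c D`, and put `q D x := p D x` for `c x ⊂ D`, `q D x := 0` for `c x = D`.
Define for an edge `x y` of `P`: `a' x y = a x y` if both `x, y ∈ sk c 3`; otherwise one of the two carriers is a
coarse tetrahedron `D` (cliques of `G0` have at most 4 elements, `IsSph3.k5`), the other carrier is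
comparable, so `⊆ D`, and `a' x y := q D x + q D y`.  Note that `a x y = q D x + q D y` for every edge of
`P ∩ bdc c D`.  A triangle of `P` is in `sk c 3` or has a vertex with carrier `D`, and then all its
vertices are in `cel c D`: the sum is zero.
`real_to_Y`: `P = {x | j ≤ l x + 1 ∧ l x ≤ j + 1}`, `band (sk c 3) l j = P ∩ sk c 3`, `lev (sk c 3) l j ⊆ {l = j}`; a
combination of the extensions is trivial on `{l = j}`, so the same combination of the `a k` is trivial on
`lev (sk c 3) l j`.
-/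

open Classical

noncomputable section

namespace MOT

variable {V0 V : Type} {G0 : SimpleGraph V0} {G : SimpleGraph V} {c : V → Set V0}

theorem ext_real [Finite V0] (h0 : IsSph3 G0) (h : CY G0 G c) (P : Set V)
    {a : V → V → ZMod 2} (ha : a ∈ Zh G (bdd G0 c) (P ∩ sk c 3)) :
    ∃ a' ∈ Z1 G P, ∀ x y, EIn G (P ∩ sk c 3) x y → a' x y = a x y := by
  obtain ⟨ha1, ha2⟩ := ha
  obtain ⟨haz, has, hac⟩ := mem_Z1.1 ha1
  have hcard : ∀ x, (c x).ncard ≤ 4 := by
    intro x
    have h1 := h0.k5 (Set.toFinite (c x)).toFinset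
      (by rw [Set.Finite.coe_toFinset]; exact (h.clq x).2)
    rwa [← Set.ncard_eq_toFinset_card] at h1
  let pot : Set V0 → V → ZMod 2 := fun D =>
    if hD : G0.IsClique D ∧ D.ncard = 4 then
      Classical.choose (ha2 (bdc c D) ⟨D, hD.1, hD.2, rfl⟩) else 0
  have hpot : ∀ D : Set V0, G0.IsClique D → D.ncard = 4 → ∀ x y,
      EIn G ((P ∩ sk c 3) ∩ bdc c D) x y → a x y = pot D x + pot D y := by
    intro D hD hD4 x y e
    have h1 := Classical.choose_spec (ha2 (bdc c D) ⟨D, hD, hD4, rfl⟩) x y e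
    have h2 : pot D = Classical.choose (ha2 (bdc c D) ⟨D, hD, hD4, rfl⟩) :=
      dif_pos ⟨hD, hD4⟩
    rw [h2]
    exact h1
  let q : Set V0 → V → ZMod 2 := fun D x => if c x ⊂ D then pot D x else 0
  let a' : V → V → ZMod 2 := fun x y => if EIn G P x y then
    (if (c x).ncard ≤ 3 ∧ (c y).ncard ≤ 3 then a x y
      else q (c x ∪ c y) x + q (c x ∪ c y) y) else 0
  have key : ∀ D : Set V0, G0.IsClique D → D.ncard = 4 → ∀ x y, EIn G P x y → c x ⊆ D →
      c y ⊆ D → a' x y = q D x + q D y := by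
    intro D hD hD4 x y e hx hy
    have e0 : a' x y = (if (c x).ncard ≤ 3 ∧ (c y).ncard ≤ 3 then a x y
      else q (c x ∪ c y) x + q (c x ∪ c y) y) := if_pos e
    rw [e0]
    by_cases h3 : (c x).ncard ≤ 3 ∧ (c y).ncard ≤ 3
    · rw [if_pos h3]
      have hxs : c x ⊂ D := by
        refine hx.ssubset_of_ne ?_
        rintro hh
        rw [hh] at h3
        omega
      have hys : c y ⊂ D := by
        refine hy.ssubset_of_ne ?_
        rintro hh
        rw [hh] at h3
        omega
      have h5 : q D x = pot D x := if_pos hxs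
      have h6 : q D y = pot D y := if_pos hys
      rw [h5, h6]
      exact hpot D hD hD4 x y ⟨e.1, ⟨⟨e.2.1, h3.1⟩, hxs⟩, ⟨⟨e.2.2, h3.2⟩, hys⟩⟩
    · rw [if_neg h3]
      have hu : c x ∪ c y = D := by
        rw [not_and_or, not_le, not_le] at h3
        rcases h3 with h3 | h3
        · have h7 : c x = D := Set.eq_of_subset_of_ncard_le hx (by omega) (Set.toFinite _)
          rw [h7]
          exact Set.union_eq_self_of_subset_right hy
        · have h7 : c y = D := Set.eq_of_subset_of_ncard_le hy (by omega) (Set.toFinite _)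
          rw [h7]
          exact Set.union_eq_self_of_subset_left hx
      rw [hu]
  have key2 : ∀ x y z, EIn G P x y → EIn G P y z → EIn G P x z → (c x).ncard = 4 →
      a' x y + a' y z = a' x z := by
    intro x y z e1 e2 e3 h4
    have sub : ∀ w, EIn G P x w → c w ⊆ c x := by
      intro w ew
      rcases h.cmp x w ew.1 with h1 | h1
      · have := hcard w
        have h7 : c x = c w := Set.eq_of_subset_of_ncard_le h1 (by omega) (Set.toFinite _)
        exact h7.symm.subset
      · exact h1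
    have hy := sub y e1
    have hz := sub z e3
    rw [key (c x) (h.clq x).2 h4 x y e1 subset_rfl hy, key (c x) (h.clq x).2 h4 y z e2 hy hz,
      key (c x) (h.clq x).2 h4 x z e3 subset_rfl hz]
    have h8 := two_add (q (c x) y)
    calc q (c x) x + q (c x) y + (q (c x) y + q (c x) z)
        = q (c x) x + (q (c x) y + q (c x) y) + q (c x) z := by abel
      _ = _ := by rw [h8, add_zero]
  have sym : ∀ x y, a' x y = a' y x := by
    intro x y
    show (if EIn G P x y then (if (c x).ncard ≤ 3 ∧ (c y).ncard ≤ 3 then a x y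
      else q (c x ∪ c y) x + q (c x ∪ c y) y) else 0) =
      (if EIn G P y x then (if (c y).ncard ≤ 3 ∧ (c x).ncard ≤ 3 then a y x
      else q (c y ∪ c x) y + q (c y ∪ c x) x) else 0)
    by_cases e : EIn G P x y
    · rw [if_pos e, if_pos e.symm]
      by_cases h3 : (c x).ncard ≤ 3 ∧ (c y).ncard ≤ 3
      · rw [if_pos h3, if_pos h3.symm, has]
      · rw [if_neg h3, if_neg (fun h4 => h3 h4.symm), Set.union_comm (c y) (c x), add_comm]
    · rw [if_neg e, if_neg (fun e' => e e'.symm)]
  refine ⟨a', mem_Z1.2 ⟨fun x y e => if_neg e, sym, ?_⟩, ?_⟩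
  · intro x y z e1 e2 e3
    by_cases hx : (c x).ncard ≤ 3
    · by_cases hy : (c y).ncard ≤ 3
      · by_cases hz : (c z).ncard ≤ 3
        · have g1 : a' x y = a x y := by
            show (if EIn G P x y then _ else _) = _
            rw [if_pos e1, if_pos ⟨hx, hy⟩]
          have g2 : a' y z = a y z := by
            show (if EIn G P y z then _ else _) = _
            rw [if_pos e2, if_pos ⟨hy, hz⟩]
          have g3 : a' x z = a x z := by
            show (if EIn G P x z then _ else _) = _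
            rw [if_pos e3, if_pos ⟨hx, hz⟩]
          rw [g1, g2, g3]
          exact hac x y z ⟨e1.1, ⟨e1.2.1, hx⟩, ⟨e1.2.2, hy⟩⟩ ⟨e2.1, ⟨e2.2.1, hy⟩, ⟨e2.2.2, hz⟩⟩
            ⟨e3.1, ⟨e3.2.1, hx⟩, ⟨e3.2.2, hz⟩⟩
        · have h4 : (c z).ncard = 4 := by have := hcard z; omega
          have h5 := key2 z y x e2.symm e1.symm e3.symm h4
          rw [sym x y, sym y z, sym x z, ← h5, add_comm]
      · have h4 : (c y).ncard = 4 := by have := hcard y; omega
        have h5 := key2 y x z e1.symm e3 e2 h4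
        rw [← h5, sym x y]
        have h8 := two_add (a' y x)
        calc a' y x + (a' y x + a' x z) = (a' y x + a' y x) + a' x z := by abel
          _ = _ := by rw [h8, zero_add]
    · have h4 : (c x).ncard = 4 := by have := hcard x; omega
      exact key2 x y z e1 e2 e3 h4
  · intro x y e
    show (if EIn G P x y then _ else _) = _
    rw [if_pos ⟨e.1, e.2.1.1, e.2.2.1⟩]
    exact if_pos ⟨e.2.1.2, e.2.2.2⟩

theorem real_to_Y [Finite V0] (h0 : IsSph3 G0) (h : CY G0 G c) {l : V → ℕ} {j r : ℕ}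
    (hr : Rk G ∅ {x | j ≤ l x + 1 ∧ l x ≤ j + 1} {x | l x = j} r) :
    Rk G (bdd G0 c) (band (sk c 3) l j) (lev (sk c 3) l j) r := by
  intro a ha
  have hb : band (sk c 3) l j = {x | j ≤ l x + 1 ∧ l x ≤ j + 1} ∩ sk c 3 := by
    ext x
    constructor
    · rintro ⟨h1, h2⟩
      exact ⟨h2, h1⟩
    · rintro ⟨h1, h2⟩
      exact ⟨h2, h1⟩
  have hex : ∀ k, ∃ a' ∈ Z1 G {x | j ≤ l x + 1 ∧ l x ≤ j + 1}, ∀ x y,
      EIn G ({x | j ≤ l x + 1 ∧ l x ≤ j + 1} ∩ sk c 3) x y → a' x y = a k x y := by
    intro k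
    have h1 := ha k
    rw [hb] at h1
    exact ext_real h0 h _ h1
  choose a' ha' hae using hex
  obtain ⟨d, hd, f, hf⟩ := hr a' (fun k => ⟨ha' k, fun B hB => hB.elim⟩)
  refine ⟨d, hd, f, fun x y e => ?_⟩
  have ex : l x = j := e.2.1.2
  have ey : l y = j := e.2.2.2
  rw [← hf x y ⟨e.1, ex, ey⟩]
  simp only [Finset.sum_apply, Pi.smul_apply]
  refine Finset.sum_congr rfl fun k _ => ?_
  rw [hae k x y ⟨e.1, ⟨⟨by omega, by omega⟩, e.2.1.1⟩, ⟨⟨by omega, by omega⟩, e.2.2.1⟩⟩]

end MOT
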