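import Pool.Agent.MOT.TmH
import Pool.Agent.MOT.TmEnd
import Pool.Agent.MOT.TgFin
import Pool.Agent.MOT.TrA
import Pool.Agent.MOT.TlH

/-!
# MOT/Thin: the theorem THIN (helper81, helper23, helper16)
-/

open Classical

noncomputable section

namespace MOT

/-- THIN.  `K` a tower over a 3-sphere, `n` the coarse level.  There is `m` such that every
1-Lipschitz labelling `l : V(n + k) → {0..m+1}` which is `0` on the coarse set `Am` and `m+1` on the
coarse set `Ap` and has the rank condition on all levels `1..m`, yields a vertex set `M` of a later level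
with `Am ⊆ M`, `Ap ⊆ Mᶜ`, `M`, `Mᶜ` connected and `b_1(M) + b_1(Mᶜ) ≤ r`. -/
theorem thin (K : Lv) (hK : IsSph3 K.G) (n : ℕ) : ∃ m : ℕ, ∀ (r : ℕ) (Am Ap : Set (tw K n).V),
    Conn (tw K n).G Am → Conn (tw K n).G Ap → ∀ k : ℕ, 1 ≤ k → ∀ l : (tw K (n + k)).V → ℕ,
    (∀ x y, (tw K (n + k)).G.Adj x y → l x ≤ l y + 1) → (∀ x, l x ≤ m + 1) →
    (∀ x ∈ miN K n Am k, l x = 0) → (∀ x ∈ miN K n Ap k, l x = m + 1) →
    (∀ j, 1 ≤ j → j ≤ m → Rk (tw K (n + k)).G ∅ (band Set.univ l j) (lev Set.univ l j) r) →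
    ∃ k' : ℕ, k ≤ k' ∧ ∃ M : Set (tw K (n + k')).V, miN K n Am k' ⊆ M ∧
      Disjoint (miN K n Ap k') M ∧ Conn (tw K (n + k')).G M ∧ Conn (tw K (n + k')).G Mᶜ ∧
      bb (tw K (n + k')).G M ≤ r := by
  have h : IsSph3 (tw K n).G := tw_sph3 K hK n
  refine ⟨12 * ntri (tw K n).G + 3, ?_⟩
  intro r Am Ap hAm hAp k hk l hlip htop hl0 hl1 hrk
  set m := 12 * ntri (tw K n).G + 3 with hm
  obtain ⟨k0, rfl⟩ : ∃ k0, k = k0 + 1 := ⟨k - 1, by omega⟩
  have hcy := tw_cy K n h k0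
  have hl : LabT K n (k0 + 1) Am Ap m r l := by
    refine ⟨fun x y e => hlip x y e.1, fun x _ => htop x, fun x hx => hl0 x ?_,
      fun x hx => hl1 x ?_, fun j h1 h2 => ?_⟩
    · rw [miN_car]; exact hx.2
    · rw [miN_car]; exact hx.2
    · refine real_to_Y h hcy ?_
      have e1 : band Set.univ l j = {x | j ≤ l x + 1 ∧ l x ≤ j + 1} := by
        ext x; simp [band]
      have e2 : lev Set.univ l j = {x | l x = j} := by
        ext x; simp [lev]
      have := hrk j h1 h2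
      rwa [e1, e2] at this
  obtain ⟨k', hk', l', hl', hlow, hupp, hno⟩ := exists_nof K n h hAm hAp hl
  have hcy' := tw_cy K n h k'
  have hsub : ∀ A : Set (tw K n).V, Conn (tw K n).G A → ∃ x, x ∈ sk (car K n (k' + 1)) 3 ∧
      x ∈ cel (car K n (k' + 1)) A ∧ (car K n (k' + 1) x).ncard = 1 := by
    intro A hA
    obtain ⟨v, hv⟩ := hA.1
    obtain ⟨x, hx, -⟩ := hcy'.vert v
    refine ⟨x, ?_, ?_, ?_⟩
    · show (car K n (k' + 1) x).ncard ≤ 3
      rw [hx, Set.ncard_singleton]; norm_num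
    · show car K n (k' + 1) x ⊆ A
      rw [hx]; exact Set.singleton_subset_iff.2 hv
    · rw [hx, Set.ncard_singleton]
  obtain ⟨x0, hx0s, hx0c, hx01⟩ := hsub Am hAm
  obtain ⟨x1, hx1s, hx1c, hx11⟩ := hsub Ap hAp
  have h0 : l' x0 = 0 := hl'.x0 x0 ⟨hx0s, hx0c⟩
  have h1 : l' x1 = m + 1 := hl'.x1 x1 ⟨hx1s, hx1c⟩
  obtain ⟨j, h2j, hjm, hE1, hE2⟩ := good_level hcy' (pur_of_sph h) hl'.lip hl'.top hlow hupp
    hx01 h0 hx11 h1 hno (le_of_eq hm.symm)
  have hR := hl'.rk j (by omega) (by omega)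
  have hrk2 := rk2_good hcy'.two.2 hl'.lip hR hE1 hE2
  have eA : {x | l' x ≤ j} ∩ sk (car K n (k' + 1)) 3 = low (sk (car K n (k' + 1)) 3) l' j := by
    ext x; simp only [low, Set.mem_inter_iff, Set.mem_ofPred_eq]; tauto
  have eB : {x | l' x ≤ j}ᶜ ∩ sk (car K n (k' + 1)) 3 =
      upp (sk (car K n (k' + 1)) 3) l' (j + 1) := by
    ext x; simp only [upp, Set.mem_inter_iff, Set.mem_compl_iff, Set.mem_ofPred_eq]
    constructor
    · rintro ⟨h3, h4⟩; exact ⟨h4, by omega⟩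
    · rintro ⟨h3, h4⟩; exact ⟨by omega, h3⟩
  obtain ⟨t, M, hM0, hM1, hMc, hMc', hMb⟩ := lfill K n k' h (r := r) (A := {x | l' x ≤ j})
    (A0 := Am) (A1 := Ap) (by rw [eA, eB]; exact hrk2) (by rw [eA]; exact hlow j)
    (by rw [eB]; exact hupp (j + 1) (by omega))
    (fun x hx => by
      have := hl'.x0 x hx
      show l' x ≤ j
      omega)
    (fun x hx => by
      have := hl'.x1 x hx
      show ¬ (l' x ≤ j)
      omega)
  refine ⟨k' + 1 + t, by omega, M, ?_, ?_, hMc, hMc', hMb⟩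
  · rw [miN_car]; exact hM0
  · rw [miN_car]; exact hM1

end MOT
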