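import Pool.Agent.MOT.Tra
import Pool.Agent.MOT.Lab
import Pool.Agent.MOT.Thin

/-!
# MOT/ThinD: THIN for a collar given in the domain (helper82)

`thin_dom`: `M` a vertex set of level `m` of the domain tower, `f = lN K m (ind M) k` its collar on level
`p = m + k` (values `0..2^k`, `mid = 2^(k-1)`).  For all large `N` there is `R` on level `N` of the range with
`bb R ≤ r`, which contains all `x` with `f ≤ mid - 4` and no `x` with `f ≥ mid + 4` at the position of `x`.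

Proof.  `n0` with `p0 : V'(n0) → V(p)` (`dn_ex`), `lab0 = f ∘ p0`.  `Am` = component of `{lab0 ≤ mid - 2}` which
contains all `y` with `lab0 y ≤ mid - 3` (`tra_conn` with `D' = {f ≤ mid - 3}`, connected by `LV.lo`, nonempty by
`tra_surj`), `Ap` = component of `{mid + 2 ≤ lab0}` which contains all `y` with `mid + 3 ≤ lab0 y` (`LV.hi`).
`m1` from `thin K' n0`; `j` with `m1 + 1 ≤ 2^(j+1)`; `f1 = lN K p f j` on level `p + j`, `LV f1 (2^j * 2^k) r`;
`k1 ≥ 1` with `p1 : V'(n0 + k1) → V(p + j)`.  `c = (mid - 1) 2^j`, `l x = min (f1 (p1 x) - c) (m1 + 1)`.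
`l = 0` on `miN Am k1`: for `y ∈ car x` every `w ∈ car K p j (p1 x)` is equal or adjacent to `p0 y`
(`dn_dn`), so `f w ≤ mid - 1`, `f1 (p1 x) ≤ 2^j (mid - 1)` (`lN_le`).  `l = m1 + 1` on `miN Ap k1` similarly (`le_lN`).
Rank condition: `rk_of_tra` with `D' = {f1 = c + i}`, `D = {i ≤ l' + 1, l' ≤ i + 1}`,
`l' u = min (f1 u - c) (m1 + 1)`.  `thin` gives `k'`, `M'`; `thin_later` gives such a set on every level
`n0 + k''`, `k'' ≥ k'`; `N = n0 + k''`.  If `dn N p x u`, `f u ≤ mid - 4` and `y ∈ car K' n0 k'' x` then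
`u`, `p0 y` are equal or adjacent (`dn_dn` with `j = 0`), so `lab0 y ≤ mid - 3`, `y ∈ Am`; hence
`x ∈ miN Am k''` (`mem_miN`).
-/

open Classical

noncomputable section

namespace MOT

/-- `r + 1` elements of a space of cocycles with `b1 D' ≤ r` have a nontrivial combination which is a coboundary -/
theorem comb_of_b1 {V : Type} [Finite V] {G : SimpleGraph V} {D' : Set V} {r : ℕ}
    (h : b1 G D' ≤ r) (w : Fin (r + 1) → V → V → ZMod 2) (hw : ∀ k, w k ∈ Z1 G D') :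
    ∃ c : Fin (r + 1) → ZMod 2, c ≠ 0 ∧ Triv G D' (∑ k, c k • w k) := by
  classical
  set v : Fin (r + 1) → ((Z1 G D') ⧸ (K1 G D' D').comap (Z1 G D').subtype) :=
    fun k => Submodule.Quotient.mk ⟨w k, hw k⟩ with hv
  have hnl : ¬ LinearIndependent (ZMod 2) v := by
    intro hli
    have h1 := hli.fintype_card_le_finrank
    rw [Fintype.card_fin] at h1
    have h2 : Module.finrank (ZMod 2)
        ((Z1 G D') ⧸ (K1 G D' D').comap (Z1 G D').subtype) ≤ r := h
    omega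
  obtain ⟨c, hc, i, hi⟩ := Fintype.not_linearIndependent_iff.1 hnl
  refine ⟨c, fun h0 => hi (by rw [h0]; rfl), ?_⟩
  have h3 : (Submodule.Quotient.mk (∑ k, c k • (⟨w k, hw k⟩ : Z1 G D')) :
      (Z1 G D') ⧸ (K1 G D' D').comap (Z1 G D').subtype) = 0 := by
    rw [← hc]
    have h4 := map_sum ((K1 G D' D').comap (Z1 G D').subtype).mkQ
      (fun k => c k • (⟨w k, hw k⟩ : Z1 G D')) Finset.univ
    refine Eq.trans h4 ?_
    refine Finset.sum_congr rfl fun k _ => ?_
    rw [map_smul]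
    rfl
  rw [Submodule.Quotient.mk_eq_zero, Submodule.mem_comap] at h3
  have h5 := h3.2
  have h6 : (Z1 G D').subtype (∑ k, c k • (⟨w k, hw k⟩ : Z1 G D')) = ∑ k, c k • w k := by
    rw [map_sum]
    refine Finset.sum_congr rfl fun k _ => ?_
    rw [map_smul]
    rfl
  rw [h6] at h5
  exact h5

theorem rk_of_tra {V W : Type} [Finite V] {G : SimpleGraph V} {G' : SimpleGraph W} {p : W → V}
    (T : Tra G G' p) {D D' : Set V} (hD : nb G D' ⊆ D) {r : ℕ} (h : b1 G D' ≤ r) :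
    Rk G' ∅ (p ⁻¹' D) (p ⁻¹' D') r := by
  intro a ha
  have hDD : D' ⊆ D := sub_nb.trans hD
  choose w hw ht using fun k => T.lift D D' hD (a k) (ha k).1
  obtain ⟨c, hc, F, hF⟩ := comb_of_b1 h (fun k => rs G D' (w k)) (fun k => rs_mem hDD (hw k))
  choose f hf using ht
  refine ⟨c, hc, fun x => ∑ k, c k * f k x + F (p x), fun x y e => ?_⟩
  have hx : p x ∈ D' := e.2.1
  have hy : p y ∈ D' := e.2.2
  have h1 : ∀ k, a k x y = f k x + f k y + w k (p x) (p y) := by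
    intro k
    have h2 : a k x y + w k (p x) (p y) = f k x + f k y := hf k x y e
    have t : ∀ r s t : ZMod 2, r + s = t → r = t + s := by decide
    exact t _ _ _ h2
  have h3 : ∑ k, c k * w k (p x) (p y) = F (p x) + F (p y) := by
    rcases T.nr x y (Or.inr e.1) with h4 | h4
    · rw [h4, two_add]
      refine Finset.sum_eq_zero fun k _ => ?_
      rw [(mem_Z1.1 (hw k)).1 _ _ (fun h5 => h5.1.ne rfl), mul_zero]
    · have h5 : EIn G D' (p x) (p y) := ⟨h4, hx, hy⟩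
      rw [← hF _ _ h5, Finset.sum_apply, Finset.sum_apply]
      refine Finset.sum_congr rfl fun k _ => ?_
      rw [Pi.smul_apply, Pi.smul_apply, rs_apply h5, smul_eq_mul]
  have h6 : (∑ k, c k • a k) x y = ∑ k, c k * a k x y := by
    rw [Finset.sum_apply, Finset.sum_apply]
    rfl
  rw [h6]
  have h7 : ∑ k, c k * a k x y = ∑ k, c k * f k x + ∑ k, c k * f k y +
      ∑ k, c k * w k (p x) (p y) := by
    rw [← Finset.sum_add_distrib, ← Finset.sum_add_distrib]
    refine Finset.sum_congr rfl fun k _ => ?_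
    rw [h1 k]
    ring
  rw [h7, h3]
  ring

theorem thin_later {K : Lv} {n k' r : ℕ} {Am Ap : Set (tw K n).V} {M : Set (tw K (n + k')).V}
    (h1 : miN K n Am k' ⊆ M) (h2 : Disjoint (miN K n Ap k') M) (h3 : Conn (tw K (n + k')).G M)
    (h4 : Conn (tw K (n + k')).G Mᶜ) (h5 : bb (tw K (n + k')).G M ≤ r) (k'' : ℕ) (hk : k' ≤ k'') :
    ∃ M'' : Set (tw K (n + k'')).V, miN K n Am k'' ⊆ M'' ∧
      Disjoint (miN K n Ap k'') M'' ∧ Conn (tw K (n + k'')).G M'' ∧
      Conn (tw K (n + k'')).G M''ᶜ ∧ bb (tw K (n + k'')).G M'' ≤ r := by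
  induction k'', hk using Nat.le_induction with
  | base => exact ⟨M, h1, h2, h3, h4, h5⟩
  | succ k'' hk ih =>
    obtain ⟨M', i1, i2, i3, i4, i5⟩ := ih
    refine ⟨mi (tw K (n + k'')).G M', ?_, ?_, ?_, ?_, ?_⟩
    · exact mi_mono i1
    · rw [Set.disjoint_left] at i2 ⊢
      intro s hs hs'
      have hs1 : s ∈ mi (tw K (n + k'')).G (miN K n Ap k'') := hs
      obtain ⟨x, hx⟩ := s.2.1
      exact i2 (hs1 x hx) (hs' x hx)
    · exact sd_Conn.2 i3
    · have h6 : Conn (sd (tw K (n + k'')).G) (mi (tw K (n + k'')).G M')ᶜ := by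
        rw [compl_mi]
        exact (bt_Conn (M := M'ᶜ) mi_sub_pl subset_rfl).2 i4
      exact h6
    · have h6 : MOT.bb (sd (tw K (n + k'')).G) (mi (tw K (n + k'')).G M') =
          MOT.bb (tw K (n + k'')).G M' := bt_bb subset_rfl mi_sub_pl
      exact h6.le.trans i5

/-- a component which contains the preimage of a connected set -/
private theorem ThinD_comp {V W : Type} {G : SimpleGraph V} {G' : SimpleGraph W} {p : W → V}
    (T : Tra G G' p) {D D' : Set V} (hD : nb G D' ⊆ D) (hc : Conn G D') :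
    ∃ A : Set W, Conn G' A ∧ (∀ x, p x ∈ D' → x ∈ A) ∧ ∀ x ∈ A, p x ∈ D := by
  have hDD : D' ⊆ D := sub_nb.trans hD
  obtain ⟨u, hu⟩ := hc.1
  obtain ⟨x0, rfl⟩ := T.surj u
  refine ⟨MOT.comp G' (p ⁻¹' D) x0, comp_Conn (hDD hu), fun x hx => ?_, fun x hx => hx.2⟩
  exact ⟨T.conn D D' hD hc x0 x hu hx, hDD hx⟩

theorem thin_dom {K K' : Lv} (P : Pair K K') (hK : IsSph3 K.G) (hK' : IsSph3 K'.G) (m k : ℕ)
    (hk : 4 ≤ k) (M : Set (tw K m).V) (r : ℕ) (h1 : Conn (tw K m).G M) (h2 : Conn (tw K m).G Mᶜ)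
    (h3 : bb (tw K m).G M ≤ r) :
    ∃ N0 : ℕ, ∀ N : ℕ, N0 ≤ N → ∃ R : Set (tw K' N).V,
      Conn (tw K' N).G R ∧ Conn (tw K' N).G Rᶜ ∧ bb (tw K' N).G R ≤ r ∧
      ∀ (x : (tw K' N).V) (u : (tw K (m + k)).V), P.dn N (m + k) x u →
        (lN K m (ind M) k u + 4 ≤ 2 ^ (k - 1) → x ∈ R) ∧
        (2 ^ (k - 1) + 4 ≤ lN K m (ind M) k u → x ∉ R) := by
  have hLV0 : LV (tw K (m + k)).G (lN K m (ind M) k) (2 ^ k * 1) r :=
    LV_lN (tw_sph3 K hK m) (LV_base h1 h2 h3) k
  generalize lN K m (ind M) k = f at hLV0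
  obtain ⟨q, hq⟩ : ∃ q, q = 2 ^ (k - 1) := ⟨_, rfl⟩
  have hq2 : 2 ^ k * 1 = 2 * q := by
    rw [hq, mul_one, ← pow_succ']
    congr 1
    omega
  have hq8 : 8 ≤ q := by
    rw [hq]
    calc 8 = 2 ^ 3 := by norm_num
      _ ≤ 2 ^ (k - 1) := Nat.pow_le_pow_right (by norm_num) (by omega)
  rw [← hq]
  rw [hq2] at hLV0
  have hlip : ∀ x y, Nr (tw K (m + k)).G x y → f x ≤ f y + 1 := by
    intro x y h
    rcases h with h | h
    · rw [h]
      exact Nat.le_succ _
    · exact hLV0.lip x y h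
  obtain ⟨n0, hn0⟩ := P.dn_ex (m + k)
  choose p0 hp0 using hn0 n0 le_rfl
  have T0 := P.tra hp0
  -- the lower coarse set
  obtain ⟨Am, hAmc, hAm1, hAm2⟩ := ThinD_comp T0 (D := {u | f u ≤ q - 2})
    (D' := {u | f u ≤ q - 3}) (by
      rintro u ⟨y, hy, hn⟩
      have h4 := hlip u y hn
      have h5 : f y ≤ q - 3 := hy
      change f u ≤ q - 2
      omega) (hLV0.lo (q - 3) (by omega))
  -- the upper coarse set
  obtain ⟨Ap, hApc, hAp1, hAp2⟩ := ThinD_comp T0 (D := {u | q + 2 ≤ f u})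
    (D' := {u | f u ≤ q + 2}ᶜ) (by
      rintro u ⟨y, hy, hn⟩
      have h4 := hlip y u hn.symm
      have h5 : ¬ f y ≤ q + 2 := hy
      change q + 2 ≤ f u
      omega) (hLV0.hi (q + 2) (by omega))
  obtain ⟨m1, hthin⟩ := thin K' hK' n0
  have hj : m1 + 1 ≤ 2 ^ (m1 + 1) := Nat.lt_two_pow_self.le
  have hLV1 : LV (tw K (m + k + m1)).G (lN K (m + k) f m1) (2 ^ m1 * (2 * q)) r :=
    LV_lN (tw_sph3 K hK (m + k)) hLV0 m1
  obtain ⟨n1, hn1⟩ := P.dn_ex (m + k + m1)
  choose p1 hp1 using hn1 (n0 + (n1 + 1)) (by omega)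
  have T1 := P.tra hp1
  obtain ⟨d, hd⟩ : ∃ d, d = 2 ^ m1 := ⟨_, rfl⟩
  have hd1 : 1 ≤ d := by
    rw [hd]
    exact Nat.one_le_two_pow
  have hmd : m1 + 1 ≤ 2 * d := by
    rw [hd, ← pow_succ']
    exact hj
  rw [← hd] at hLV1
  have hlip1 : ∀ x y, Nr (tw K (m + k + m1)).G x y →
      lN K (m + k) f m1 x ≤ lN K (m + k) f m1 y + 1 := by
    intro x y h
    rcases h with h | h
    · rw [h]
      exact Nat.le_succ _
    · exact hLV1.lip x y h
  have hnear : ∀ (x : (tw K' (n0 + (n1 + 1))).V) (y : (tw K' n0).V), y ∈ car K' n0 (n1 + 1) x →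
      ∀ w ∈ car K (m + k) m1 (p1 x), Nr (tw K (m + k)).G w (p0 y) := by
    intro x y hy w hw
    exact P.dn_dn n0 (n1 + 1) (m + k) m1 x x y (p1 x) (p0 y) (Nr.refl x) hy (hp1 x) (hp0 y) w hw
  obtain ⟨c, hc⟩ : ∃ c, c = d * (q - 1) := ⟨_, rfl⟩
  have hcd : d * (q + 1) = c + 2 * d := by
    obtain ⟨q', rfl⟩ : ∃ q', q = q' + 1 := ⟨q - 1, by omega⟩
    rw [hc]
    simp only [Nat.add_sub_cancel]
    ring
  have hcN : c + 2 * d ≤ d * (2 * q) := by
    rw [← hcd]
    exact Nat.mul_le_mul_left d (by omega)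
  have hlow : ∀ x ∈ miN K' n0 Am (n1 + 1), lN K (m + k) f m1 (p1 x) ≤ c := by
    intro x hx
    obtain ⟨y, hy⟩ := car_ne x
    have hyA : y ∈ Am := mem_miN.1 hx hy
    have h4 : f (p0 y) ≤ q - 2 := hAm2 y hyA
    rw [hc, hd]
    refine lN_le fun w hw => ?_
    have h5 := hlip w (p0 y) (hnear x y hy w hw)
    omega
  have hupp : ∀ x ∈ miN K' n0 Ap (n1 + 1), c + (m1 + 1) ≤ lN K (m + k) f m1 (p1 x) := by
    intro x hx
    obtain ⟨y, hy⟩ := car_ne x
    have hyA : y ∈ Ap := mem_miN.1 hx hy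
    have h4 : q + 2 ≤ f (p0 y) := hAp2 y hyA
    have h6 : 2 ^ m1 * (q + 1) ≤ lN K (m + k) f m1 (p1 x) := by
      refine le_lN fun w hw => ?_
      have h5 := hlip (p0 y) w (hnear x y hy w hw).symm
      omega
    rw [← hd, hcd] at h6
    omega
  generalize lN K (m + k) f m1 = g at hLV1 hlip1 hlow hupp
  obtain ⟨k', -, M', m1', m2', m3', m4', m5'⟩ := hthin r Am Ap hAmc hApc (n1 + 1) (by omega)
    (fun x => min (g (p1 x) - c) (m1 + 1)) (by
      intro x y e
      have h4 := hlip1 _ _ (P.dn_nr _ _ x y (p1 x) (p1 y) (hp1 x) (hp1 y) (Or.inr e))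
      omega) (fun x => min_le_right _ _) (by
      intro x hx
      have h4 := hlow x hx
      omega) (by
      intro x hx
      have h4 := hupp x hx
      omega) (by
      intro i hi1 hi2
      have h4 := rk_of_tra T1 (D := {u | i ≤ min (g u - c) (m1 + 1) + 1 ∧
        min (g u - c) (m1 + 1) ≤ i + 1}) (D' := {u | g u = c + i}) (by
          rintro u ⟨y, hy, hn⟩
          have h5 := hlip1 _ _ hn
          have h6 := hlip1 _ _ hn.symm
          have h7 : g y = c + i := hy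
          change i ≤ min (g u - c) (m1 + 1) + 1 ∧ min (g u - c) (m1 + 1) ≤ i + 1
          omega) (hLV1.b1 (c + i) (by omega) (by omega))
      have e1 : p1 ⁻¹' {u | i ≤ min (g u - c) (m1 + 1) + 1 ∧ min (g u - c) (m1 + 1) ≤ i + 1} =
          band Set.univ (fun x => min (g (p1 x) - c) (m1 + 1)) i := by
        ext x
        exact ⟨fun h => ⟨trivial, h.1, h.2⟩, fun h => ⟨h.2.1, h.2.2⟩⟩
      have e2 : p1 ⁻¹' {u | g u = c + i} =
          lev Set.univ (fun x => min (g (p1 x) - c) (m1 + 1)) i := by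
        ext x
        constructor
        · intro h
          have h7 : g (p1 x) = c + i := h
          refine ⟨trivial, ?_⟩
          beta_reduce
          omega
        · rintro ⟨-, h⟩
          beta_reduce at h
          change g (p1 x) = c + i
          omega
      rw [e1, e2] at h4
      exact h4)
  refine ⟨n0 + k', fun N hN => ?_⟩
  obtain ⟨k'', rfl⟩ : ∃ k'', N = n0 + k'' := ⟨N - n0, by omega⟩
  obtain ⟨R, r1, r2, r3, r4, r5⟩ := thin_later m1' m2' m3' m4' m5' k'' (by omega)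
  refine ⟨R, r3, r4, r5, fun x u hxu => ?_⟩
  have hnr : ∀ y ∈ car K' n0 k'' x, Nr (tw K (m + k)).G u (p0 y) := by
    intro y hy
    exact P.dn_dn n0 k'' (m + k) 0 x x y u (p0 y) (Nr.refl x) hy hxu (hp0 y) u rfl
  constructor
  · intro hu
    apply r1
    rw [mem_miN]
    intro y hy
    apply hAm1
    have h4 := hlip (p0 y) u (hnr y hy).symm
    change f (p0 y) ≤ q - 3
    omega
  · intro hu hx
    refine Set.disjoint_left.1 r2 ?_ hx
    rw [mem_miN]
    intro y hy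
    apply hAp1
    have h4 := hlip u (p0 y) (hnr y hy)
    change ¬ f (p0 y) ≤ q + 2
    omega

end MOT
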