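import Pool.Agent.MOT.DmJ
import Pool.Agent.MOT.ThinD

/-!
# MOT/CbDef: thickened preimages (helper82)

`p : W → V` from a fine level of the range (`G'`) to the position level (`G`), `T : Tra G G' p`.
`Thk D` = the part of `p⁻¹ (nb D)` which is joined to `p⁻¹ D` inside `p⁻¹ (nb D)`.

(thk_conn) a point of `Thk D` is joined inside `Thk D` to a point of `p⁻¹ D`; two points of `p⁻¹ D` are joined in
`p⁻¹ (nb D)` by `T.conn` (with `D' = D`), the path stays in `Thk D`.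
-/

open Classical

noncomputable section

namespace MOT

variable {V W : Type} {G : SimpleGraph V} {G' : SimpleGraph W} {p : W → V}

/-- thickened preimage -/
def Thk (G : SimpleGraph V) (G' : SimpleGraph W) (p : W → V) (D : Set V) : Set W :=
  {x | p x ∈ nb G D ∧ ∃ y, p y ∈ D ∧ Relation.ReflTransGen (EIn G' (p ⁻¹' nb G D)) x y}

theorem thk_sub {D : Set V} : Thk G G' p D ⊆ p ⁻¹' nb G D := fun _ h => h.1

theorem sub_thk {D : Set V} : p ⁻¹' D ⊆ Thk G G' p D :=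
  fun x hx => ⟨sub_nb hx, x, hx, Relation.ReflTransGen.refl⟩

/-! auxiliary facts -/

private theorem cb_path {D : Set V} {a b : W} (ha : a ∈ Thk G G' p D)
    (h : Relation.ReflTransGen (EIn G' (p ⁻¹' nb G D)) a b) :
    Relation.ReflTransGen (EIn G' (Thk G G' p D)) a b ∧ b ∈ Thk G G' p D := by
  induction h with
  | refl => exact ⟨Relation.ReflTransGen.refl, ha⟩
  | tail r e ih =>
    obtain ⟨h1, h2⟩ := ih
    obtain ⟨_, y, hy, h3⟩ := id h2
    have hc : _ ∈ Thk G G' p D := ⟨e.2.2, y, hy, Relation.ReflTransGen.head e.symm h3⟩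
    exact ⟨h1.tail ⟨e.1, h2, hc⟩, hc⟩

private theorem cb_swp {A : Set W} {a b : W → W → ZMod 2} (h : Triv G' A (a + b))
    (hb : Triv G' A b) : Triv G' A a := by
  refine (h.add hb).congr fun x y _ => ?_
  show a x y + b x y + b x y = a x y
  linear_combination two_add (b x y)

private theorem cb_swp' {A : Set W} {a b : W → W → ZMod 2} (h : Triv G' A (a + b))
    (ha : Triv G' A a) : Triv G' A b := by
  refine (h.add ha).congr fun x y _ => ?_
  show a x y + b x y + a x y = b x y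
  linear_combination two_add (a x y)

private theorem cb_z1 {D : Set V} {a : V → V → ZMod 2} (ha : a ∈ Z1 G D) (u : V) : a u u = 0 :=
  (mem_Z1.1 ha).1 u u fun h => h.1.ne rfl

private theorem cb_rs {D : Set V} {w : V → V → ZMod 2} (hd : ∀ u, w u u = 0) {x y : V}
    (h : Nr G x y) (hx : x ∈ D) (hy : y ∈ D) : rs G D w x y = w x y := by
  rcases h with h | h
  · subst h
    rw [hd]
    exact if_neg fun h => h.1.ne rfl
  · exact rs_apply ⟨h, hx, hy⟩

private theorem cb_pull (T : Tra G G' p) {D : Set V} {a : V → V → ZMod 2} (hd : ∀ u, a u u = 0)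
    (h : Triv G D a) {E : Set W} (hE : ∀ x ∈ E, p x ∈ D) : Triv G' E (pbk p a) :=
  Triv_pbk hd h (fun x y hn _ _ => T.nr x y hn) hE

private theorem cb_nrs {G' : SimpleGraph W} {r : Cq G'} {x y : W} (hx : x ∈ r.1) (hy : y ∈ r.1) :
    Nr G' x y := by
  by_cases e : x = y
  · exact Or.inl e
  · exact Or.inr (r.2.2 (Finset.mem_coe.2 hx) (Finset.mem_coe.2 hy) e)

private theorem cb_sel {G' : SimpleGraph W} {f g : Cq G' → W} {S : Set (Cq G')}
    (hf : ∀ s ∈ S, f s ∈ s.1) (hg : ∀ s ∈ S, g s ∈ s.1) (s t : Cq G') (h : Nr (sd G') s t)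
    (hs : s ∈ S) (ht : t ∈ S) : Nr G' (f s) (g t) := by
  rcases h with h | h
  · subst h
    exact cb_nrs (hf s hs) (hg s hs)
  · rcases h with h | h
    · exact cb_nrs ((Cq.le_iff.1 h.le) (hf s hs)) (hg t ht)
    · exact cb_nrs (hf s hs) ((Cq.le_iff.1 h.le) (hg t ht))

/-- glueing with zero -/
private theorem cb_glue {X M E : Set W} {w : W → W → ZMod 2} (hd : ∀ x, w x x = 0)
    (hw : rs G' E w ∈ Z1 G' E) (hM : X ∩ M ⊆ E) (hF : mi G' X ∩ Fr G' M ⊆ mi G' E)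
    (ht : Triv (sd G') (mi G' X ∩ Fr G' M) (pbk pk w)) :
    ∃ v ∈ Z1 G' X, Triv G' (X ∩ M) (v + w) ∧ Triv G' (X \ M) v := by
  have hrs : rs G' (X ∩ M) (rs G' E w) = rs G' (X ∩ M) w := by
    funext x y
    by_cases e : EIn G' (X ∩ M) x y
    · rw [rs_apply e, rs_apply e, rs_apply (e.mono hM)]
    · exact (if_neg e).trans (if_neg e).symm
  have ha : rs G' (X ∩ M) w ∈ Z1 G' (X ∩ M) := by
    rw [← hrs]
    exact rs_mem hM hw
  have m1 : ∀ s ∈ mi G' X ∩ Fr G' M, pk s ∈ s.1 := fun s _ => pk_mem s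
  have m2 : ∀ s ∈ mi G' X ∩ Fr G' M, pkm M s ∈ s.1 := fun s hs => (pkm_mem hs.2.1).1
  have m3 : ∀ s ∈ mi G' X ∩ Fr G' M, pkm M s ∈ X ∩ M := fun s hs =>
    ⟨hs.1 _ (m2 s hs), (pkm_mem hs.2.1).2⟩
  have m4 : ∀ s ∈ mi G' X ∩ Fr G' M, pk s ∈ E := fun s hs => hF hs _ (m1 s hs)
  have m5 : ∀ s ∈ mi G' X ∩ Fr G' M, pkm M s ∈ E := fun s hs => hF hs _ (m2 s hs)
  have c1 : Triv (sd G') (mi G' X ∩ Fr G' M)
      (pbk pk (rs G' E w) + pbk (pkm M) (rs G' E w)) :=
    pbk_contig hw (cb_sel m1 m1) (cb_sel m2 m2) (cb_sel m1 m2) m4 m5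
  have c2 : Triv (sd G') (mi G' X ∩ Fr G' M) (pbk pk (rs G' E w)) := by
    refine ht.congr fun s t e => ?_
    exact (cb_rs hd (cb_sel m1 m1 s t (Or.inr e.1) e.2.1 e.2.2) (m4 s e.2.1) (m4 t e.2.2)).symm
  have c3 : Triv (sd G') (mi G' X ∩ Fr G' M)
      (fun s t => rs G' (X ∩ M) w (pkm M s) (pkm M t)) := by
    refine (cb_swp' c1 c2).congr fun s t e => ?_
    have hn := cb_sel m2 m2 s t (Or.inr e.1) e.2.1 e.2.2
    have e1 := cb_rs hd hn (m5 s e.2.1) (m5 t e.2.2)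
    have e2 := cb_rs hd hn (m3 s e.2.1) (m3 t e.2.2)
    exact e1.trans e2.symm
  obtain ⟨v, hv, t1, t2⟩ := glue0 ha c3
  refine ⟨v, hv, t1.congr fun x y e => ?_, t2⟩
  simp only [Pi.add_apply]
  rw [rs_apply e]

theorem thk_mono {D E : Set V} (h : D ⊆ E) : Thk G G' p D ⊆ Thk G G' p E := by
  rintro x ⟨hx, y, hy, r⟩
  exact ⟨nb_mono h hx, y, h hy, rtg_mono (Set.preimage_mono (nb_mono h)) r⟩

theorem thk_nb (T : Tra G G' p) {D : Set V} {x y : W} (hx : p x ∈ D) (h : Nr G' x y) :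
    y ∈ Thk G G' p D := by
  have h1 : p y ∈ nb G D := ⟨p x, hx, T.nr y x h.symm⟩
  refine ⟨h1, x, hx, ?_⟩
  rcases h with h | h
  · rw [h]
  · exact Relation.ReflTransGen.single ⟨h.symm, h1, sub_nb hx⟩

theorem thk_conn (T : Tra G G' p) {D : Set V} (h : Conn G D) : Conn G' (Thk G G' p D) := by
  constructor
  · obtain ⟨d, hd⟩ := h.1
    obtain ⟨x, hx⟩ := T.surj d
    exact ⟨x, sub_thk (show p x ∈ D from hx ▸ hd)⟩
  · intro x hx x' hx'
    obtain ⟨_, y, hy, r⟩ := id hx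
    obtain ⟨_, y', hy', r'⟩ := id hx'
    have h1 := (cb_path hx r).1
    have h2 := (cb_path hx' r').1
    have h3 := (cb_path (sub_thk (show y ∈ p ⁻¹' D from hy)) (T.conn (nb G D) D subset_rfl h y y' hy hy')).1
    exact (h1.trans h3).trans (rtg_symm h2)

/-- the part of a set which is joined to a connected preimage; components -/
theorem comp_nontriv [Finite W] {F : Set W} {a : W → W → ZMod 2} (h : ¬ Triv G' F a) :
    ∃ C, IsComp G' F C ∧ ¬ Triv G' C a := by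
  by_contra hn
  push Not at hn
  have h1 : ∀ x : W, ∃ f : W → ZMod 2, x ∈ F → ∀ u v, EIn G' (comp G' F x) u v → a u v = f u + f v := by
    intro x
    by_cases hx : x ∈ F
    · obtain ⟨f, hf⟩ := hn (comp G' F x) ⟨x, hx, rfl⟩
      exact ⟨f, fun _ => hf⟩
    · exact ⟨0, fun hx' => absurd hx' hx⟩
  choose f hf using h1
  have h2 : ∀ C : Set W, ∃ g : W → ZMod 2, IsComp G' F C → ∀ u v, EIn G' C u v → a u v = g u + g v := by
    intro C
    by_cases hC : IsComp G' F C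
    · obtain ⟨g, hg⟩ := hn C hC
      exact ⟨g, fun _ => hg⟩
    · exact ⟨0, fun hC' => absurd hC' hC⟩
  choose g hg using h2
  refine h ⟨fun x => g (comp G' F x) x, fun x y e => ?_⟩
  have hx : IsComp G' F (comp G' F x) := ⟨x, e.2.1, rfl⟩
  have hy : IsComp G' F (comp G' F y) := ⟨y, e.2.2, rfl⟩
  have hyx : y ∈ comp G' F x := ⟨Relation.ReflTransGen.single e, e.2.2⟩
  have he : comp G' F x = comp G' F y := hx.eq_of_inter hy ⟨y, hyx, comp_self e.2.2⟩
  have h3 := hg (comp G' F x) hx x y ⟨e.1, comp_self e.2.1, hyx⟩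
  show a x y = g (comp G' F x) x + g (comp G' F y) y
  rw [← he]
  exact h3

/-- `H^1` of a preimage, if `H^1` of the set is generated by one class: a cocycle of `p⁻¹ D` is trivial on `p⁻¹ D'` or
equal to the class there (`T.lift`) -/
theorem tra_gen (T : Tra G G' p) {D D' : Set V} (hD : nb G D' ⊆ D) {w : V → V → ZMod 2}
    (hd : ∀ u, w u u = 0) (hgen : ∀ a ∈ Z1 G D, Triv G D a ∨ Triv G D (a + w))
    {a : W → W → ZMod 2} (ha : a ∈ Z1 G' (p ⁻¹' D)) :
    Triv G' (p ⁻¹' D') a ∨ Triv G' (p ⁻¹' D') (a + pbk p w) := by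
  obtain ⟨v, hv, t⟩ := T.lift D D' hD a ha
  have hDD : D' ⊆ D := fun x hx => hD (sub_nb hx)
  rcases hgen v hv with h1 | h1
  · left
    exact cb_swp t (cb_pull T (cb_z1 hv) h1 fun x hx => hDD hx)
  · right
    have h2 : Triv G' (p ⁻¹' D') (pbk p (v + w)) := by
      refine cb_pull T (fun u => ?_) h1 fun x hx => hDD hx
      show v u u + w u u = 0
      rw [cb_z1 hv, hd, add_zero]
    refine (t.add h2).congr fun x y _ => ?_
    show a x y + v (p x) (p y) + (v (p x) (p y) + w (p x) (p y)) = a x y + w (p x) (p y)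
    linear_combination two_add (v (p x) (p y))

theorem tra_HZ (T : Tra G G' p) {D D' : Set V} (hD : nb G D' ⊆ D) (h : HZ G D)
    {a : W → W → ZMod 2} (ha : a ∈ Z1 G' (p ⁻¹' D)) : Triv G' (p ⁻¹' D') a := by
  obtain ⟨v, hv, t⟩ := T.lift D D' hD a ha
  exact cb_swp t (cb_pull T (cb_z1 hv) (h v hv) fun x hx => hD (sub_nb hx))

/-- nontrivial classes pull back to nontrivial classes -/
theorem tra_non (T : Tra G G' p) {D : Set V} {w : V → V → ZMod 2} (hd : ∀ u, w u u = 0)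
    (hw : rs G D w ∈ Z1 G D) (h : ¬ Triv G D w) : ¬ Triv G' (p ⁻¹' D) (pbk p w) := by
  intro ht
  refine h (Triv_rs.1 (T.inj D (rs G D w) hw ?_))
  refine ht.congr fun x y e => ?_
  exact (cb_rs hd (T.nr x y (Or.inr e.1)) e.2.1 e.2.2).symm

/-- FRONTIER, contractible case.  A class defined on `E`, which contains `M ∩ p⁻¹ D` and all vertices of the
frontier of `M` in `p⁻¹ D`, and not trivial on `p⁻¹ D' ∩ M`, is not trivial on the frontier of `M` inside `p⁻¹ D`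
(compare `pk` and `pkm M` by `pbk_contig` on the frontier; `glue0` with `D := p⁻¹ D`; the glued cocycle is trivial on
`p⁻¹ D'` by `tra_HZ`). -/
theorem fr_non0 (T : Tra G G' p) {D D' : Set V} (hD : nb G D' ⊆ D) (h : HZ G D)
    {w : W → W → ZMod 2} {M E : Set W} (hd : ∀ x, w x x = 0) (hw : rs G' E w ∈ Z1 G' E)
    (hM : p ⁻¹' D ∩ M ⊆ E) (hF : mi G' (p ⁻¹' D) ∩ Fr G' M ⊆ mi G' E)
    (hn : ¬ Triv G' (p ⁻¹' D' ∩ M) w) :
    ¬ Triv (sd G') (mi G' (p ⁻¹' D) ∩ Fr G' M) (pbk pk w) := by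
  intro ht
  obtain ⟨v, hv, t1, t2⟩ := cb_glue hd hw hM hF ht
  have hs : p ⁻¹' D' ∩ M ⊆ p ⁻¹' D ∩ M := fun x hx => ⟨hD (sub_nb hx.1), hx.2⟩
  exact hn (cb_swp' (t1.mono hs) ((tra_HZ T hD h hv).mono Set.inter_subset_left))

/-- FRONTIER, cyclic case: the class `pbk p w` generates `H^1` over `D` and is not trivial on both sides of the frontier -/
theorem fr_non1 (T : Tra G G' p) {D D' : Set V} (hD : nb G D' ⊆ D) {w : V → V → ZMod 2}
    (hd : ∀ u, w u u = 0) (hw : rs G D w ∈ Z1 G D)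
    (hgen : ∀ a ∈ Z1 G D, Triv G D a ∨ Triv G D (a + w)) {M : Set W}
    (h1 : ¬ Triv G' (p ⁻¹' D' ∩ M) (pbk p w)) (h2 : ¬ Triv G' (p ⁻¹' D' \ M) (pbk p w)) :
    ¬ Triv (sd G') (mi G' (p ⁻¹' D) ∩ Fr G' M) (pbk pk (pbk p w)) := by
  intro ht
  have hwp : rs G' (p ⁻¹' D) (pbk p w) ∈ Z1 G' (p ⁻¹' D) := by
    have h3 := pbk_mem (G' := G') (p := p) hw (E := p ⁻¹' D) (fun x y hn _ _ => T.nr x y hn)
      (fun x hx => hx)
    have h4 : rs G' (p ⁻¹' D) (pbk p (rs G D w)) = rs G' (p ⁻¹' D) (pbk p w) := by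
      funext x y
      by_cases e : EIn G' (p ⁻¹' D) x y
      · rw [rs_apply e, rs_apply e]
        exact cb_rs hd (T.nr x y (Or.inr e.1)) e.2.1 e.2.2
      · exact (if_neg e).trans (if_neg e).symm
    rwa [h4] at h3
  obtain ⟨v, hv, t1, t2⟩ := cb_glue (X := p ⁻¹' D) (M := M) (fun x => hd (p x)) hwp
    Set.inter_subset_left Set.inter_subset_left ht
  have hs : p ⁻¹' D' ∩ M ⊆ p ⁻¹' D ∩ M := fun x hx => ⟨hD (sub_nb hx.1), hx.2⟩
  have hs' : p ⁻¹' D' \ M ⊆ p ⁻¹' D \ M := fun x hx => ⟨hD (sub_nb hx.1), hx.2⟩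
  rcases tra_gen T hD hd hgen hv with h3 | h3
  · exact h1 (cb_swp' (t1.mono hs) (h3.mono Set.inter_subset_left))
  · exact h2 (cb_swp' (h3.mono Set.sdiff_subset) (t2.mono hs'))

end MOT
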