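import Pool.Agent.MOT.CbD

/-!
# MOT/CbE: the structure `Start2` on a level of the range (helper82)
-/

open Classical

noncomputable section

namespace MOT.Cb

variable {K K' : Lv} {m0 N : ℕ} {p : (tw K' N).V → PV K m0}

/-- the marked curves -/
def Cmf (hK : IsSph3 (tw K m0).G) (T : Tra (tw K (m0 + 7)).G (tw K' N).G p) (X : TD p)
    (e : Ec (tw K m0).G) : Set (Cq (tw K' N).G) := (cm_ex hK T X e).choose

def Cpf (hK : IsSph3 (tw K m0).G) (T : Tra (tw K (m0 + 7)).G (tw K' N).G p) (X : TD p)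
    (e : Ec (tw K m0).G) : Set (Cq (tw K' N).G) := (cp_ex hK T X e).choose

theorem comp_sub_h82 {V : Type} {G : SimpleGraph V} {A C : Set V} (h : IsComp G A C) : C ⊆ A := by
  obtain ⟨x, hx, rfl⟩ := h
  exact fun y hy => hy.2

def mkStart1 (hK : IsSph3 (tw K m0).G) (hK' : IsSph3 (tw K' N).G)
    (T : Tra (tw K (m0 + 7)).G (tw K' N).G p) (X : TD p) :
    Start1 (tw K m0).G (tw K' N).G where
  toBase := mkBase hK T
  M0 := X.M0
  Wt := X.We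
  Om := Om p
  Cm := Cmf hK T X
  Cp := Cpf hK T X
  M0_B := M0_B X
  M0_Bs := M0_Bs X
  M0_c := X.M0_c
  M0_cc := X.M0_cc
  M0_bb := M0_bb hK X
  Wt_c := X.We_c
  Wt_cc := X.We_cc
  Wt_bb := X.We_bb
  Wt_dis := Wt_dis T X
  Wt_B := Wt_B T X
  Wt_Bs := Wt_Bs T X
  Wt_cr e x hx y hy := (Wt_cr T X e x hx y hy).1
  Om_cr v x := Iff.rfl
  Om_dis := Om_dis T
  loc0 := loc0 T X
  loc1 := loc1 T X
  Cm_c e := (cm_ex hK T X e).choose_spec.1.conn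
  Cp_c e := (cp_ex hK T X e).choose_spec.1.conn
  Cm_Fr e := (comp_sub_h82 (cm_ex hK T X e).choose_spec.1).trans Set.inter_subset_right
  Cp_Fr e := (comp_sub_h82 (cp_ex hK T X e).choose_spec.1).trans Set.inter_subset_right
  Cm_M e := (comp_sub_h82 (cm_ex hK T X e).choose_spec.1).trans (fm_M T X e)
  Cp_M e := (fp_M T X e).mono_left (comp_sub_h82 (cp_ex hK T X e).choose_spec.1)
  round e := round hK T X hK' e (comp_sub_h82 (cm_ex hK T X e).choose_spec.1)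
    (comp_sub_h82 (cp_ex hK T X e).choose_spec.1) (cm_ex hK T X e).choose_spec.2
    (cp_ex hK T X e).choose_spec.2
  Cm_ws e := (cm_ex hK T X e).choose_spec.2

def mkStart2 (hK : IsSph3 (tw K m0).G) (hK' : IsSph3 (tw K' N).G)
    (T : Tra (tw K (m0 + 7)).G (tw K' N).G p) (X : TD p) :
    Start2 (tw K m0).G (tw K' N).G where
  toStart1 := mkStart1 hK hK' T X
  Ue := X.Ue
  Ud := X.Ud
  Ue_c := X.Ue_c
  Ue_cc := X.Ue_cc
  Ue_bb := X.Ue_bb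
  Ue_dis := Ue_dis T X
  Ue_Bs := Ue_Bs T X
  Ue_Lv := Ue_Lv T X
  Ue_Le := Ue_Le T X
  Ue_cr := Ue_cr T X
  rim_e := rim_e hK T X
  Ud_c := X.Ud_c
  Ud_cc := X.Ud_cc
  Ud_bb := X.Ud_bb
  Ud_dis := Ud_dis T X
  Ud_B := Ud_B T X
  Ud_Lt := Ud_Lt T X
  Ud_Ls := Ud_Ls T X
  Ud_cr := Ud_cr T X
  rim_s := rim_s hK T X
  curve_U := curve_U T X

/-- END OF BLOCK C2 -/
theorem start2_ex (P : Pair K K') (hK : IsSph3 K.G) (hK' : IsSph3 K'.G) (m0 : ℕ) :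
    ∃ N0, ∀ N, N0 ≤ N → ∃ p : (tw K' N).V → PV K m0, (∀ x, P.dn N (m0 + 7) x (p x)) ∧
      ∃ S : Start2 (tw K m0).G (tw K' N).G, S.cr = fun x => MOT.cr K m0 (p x) := by
  obtain ⟨N0, h⟩ := td_ex P hK hK' m0
  refine ⟨N0, fun N hN => ?_⟩
  obtain ⟨p, hp, ⟨X⟩⟩ := h N hN
  exact ⟨p, hp, mkStart2 (tw_sph3 K hK m0) (tw_sph3 K' hK' N) (P.tra hp) X, rfl⟩

end MOT.Cb
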