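import Pool.Agent.MOT.SuB

/-!
# MOT/CmR: carriers through several steps (`Rc`), coarse position of a stable record
-/

open Classical

noncomputable section

namespace MOT

/-- `y` (level `N`) is in the carrier of `x` (level `m`), for arbitrary levels -/
inductive Rc (K : Lv) (N : ℕ) : (m : ℕ) → (tw K m).V → (tw K N).V → Prop
  | refl (y : (tw K N).V) : Rc K N N y y
  | up {m : ℕ} (x : (tw K (m + 1)).V) (a : (tw K m).V) (y : (tw K N).V) (h : a ∈ x.1)
      (h' : Rc K N m a y) : Rc K N (m + 1) x y

theorem Rc.of_car {K : Lv} {n : ℕ} (k : ℕ) {x : (tw K (n + k)).V} {u : (tw K n).V}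
    (h : u ∈ car K n k x) : Rc K n (n + k) x u := by
  induction k with
  | zero =>
    have h' : u = x := h
    rw [h']
    exact Rc.refl x
  | succ k ih =>
    obtain ⟨a, ha, hu⟩ := h
    exact Rc.up x a u ha (ih hu)

theorem Rc.trans {K : Lv} {N n m : ℕ} {x : (tw K m).V} {u : (tw K n).V} {y : (tw K N).V}
    (h : Rc K n m x u) (h' : Rc K N n u y) : Rc K N m x y := by
  induction h with
  | refl => exact h'
  | up x a u ha _ ih => exact Rc.up x a y ha (ih h')

theorem Rc.le {K : Lv} {N m : ℕ} {x : (tw K m).V} {y : (tw K N).V} (h : Rc K N m x y) :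
    N ≤ m := by
  induction h with
  | refl => exact le_rfl
  | up _ _ _ _ _ ih => omega

private theorem rc_car {K : Lv} {N m : ℕ} {x : (tw K m).V} {y : (tw K N).V} (h : Rc K N m x y) :
    ∀ (k : ℕ) (e : m = N + k), y ∈ car K N k (e ▸ x) := by
  induction h with
  | refl y =>
    intro k e
    have hk : k = 0 := by omega
    subst hk
    exact rfl
  | @up m x a y ha h' ih =>
    intro k e
    cases k with
    | zero =>
      have := h'.le
      omega
    | succ k =>
      have e' : m = N + k := by omega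
      subst e'
      exact ⟨a, ha, ih k rfl⟩

theorem Rc.car {K : Lv} {N k : ℕ} {x : (tw K (N + k)).V} {y : (tw K N).V}
    (h : Rc K N (N + k) x y) : y ∈ car K N k x := rc_car h k rfl

/-- the coarse position on level `n + k` is the one of a vertex of the carrier -/
theorem upN_cr {Vc : Type} {Gc : SimpleGraph Vc} [Finite Vc] {K : Lv} {n : ℕ}
    (b : BaseU Gc (tw K n).G) (k : ℕ) (x : (tw K (n + k)).V) :
    ∃ w, Rc K n (n + k) x w ∧ (upN K n b k).cr x = b.cr w := by
  induction k with
  | zero => exact ⟨x, Rc.refl x, rfl⟩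
  | succ k ih =>
    obtain ⟨w, hw, e⟩ := ih (pk (G := (tw K (n + k)).G) x)
    exact ⟨w, Rc.up x _ w (pk_mem (G := (tw K (n + k)).G) x) hw, e⟩

end MOT
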