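import Pool.Agent.MOT.MV

/-!
# MOT/Cpt: components, main component
-/

open Classical

noncomputable section

namespace MOT

variable {V : Type} {G : SimpleGraph V} {A B C M : Set V}

/-! ## Components -/

theorem comp_sub {x : V} : comp G A x ⊆ A := fun _ h => h.2

private theorem comp_rtg {x y : V} (hx : x ∈ A) (h : Relation.ReflTransGen (EIn G A) x y) :
    Relation.ReflTransGen (EIn G (comp G A x)) x y := by
  induction h with
  | refl => exact Relation.ReflTransGen.refl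
  | tail r e ih => exact ih.tail ⟨e.1, ⟨r, e.2.1⟩, ⟨r.tail e, e.2.2⟩⟩

theorem comp_Conn {x : V} (hx : x ∈ A) : Conn G (comp G A x) := by
  refine ⟨⟨x, Relation.ReflTransGen.refl, hx⟩, fun y hy z hz => ?_⟩
  exact (rtg_symm (comp_rtg hx hy.1)).trans (comp_rtg hx hz.1)

theorem comp_self {x : V} (hx : x ∈ A) : x ∈ comp G A x :=
  ⟨Relation.ReflTransGen.refl, hx⟩

/-- a component is not adjacent to the rest -/
theorem IsComp.nadj (h : IsComp G A C) : NAdj G C (A \ C) := by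
  obtain ⟨x, hx, rfl⟩ := h
  intro y hy z hz e
  exact hz.2 ⟨hy.1.tail ⟨e, hy.2, hz.1⟩, hz.1⟩

theorem IsComp.conn (h : IsComp G A C) : Conn G C := by
  obtain ⟨x, hx, rfl⟩ := h
  exact comp_Conn hx

theorem IsComp.sub (h : IsComp G A C) : C ⊆ A := by
  obtain ⟨x, hx, rfl⟩ := h
  exact comp_sub

/-- connected, closed under adjacency in `A`: a component -/
theorem IsComp_of (hc : Conn G C) (hs : C ⊆ A) (hn : NAdj G C (A \ C)) : IsComp G A C := by
  obtain ⟨x, hx⟩ := hc.1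
  refine ⟨x, hs hx, Set.Subset.antisymm ?_ ?_⟩
  · intro y hy
    exact ⟨rtg_mono hs (hc.2 x hx y hy), hs hy⟩
  · rintro y ⟨r, -⟩
    induction r with
    | refl => exact hx
    | tail _ e ih =>
      by_contra hv
      exact hn _ ih _ ⟨e.2.2, hv⟩ e.1

/-- a connected subset lies in one component -/
theorem IsComp.absorb (h : IsComp G A C) (hB : Conn G B) (hs : B ⊆ A) (hn : (B ∩ C).Nonempty) :
    B ⊆ C := by
  obtain ⟨x, hx, rfl⟩ := h
  obtain ⟨b, hb, hbc⟩ := hn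
  intro y hy
  exact ⟨hbc.1.trans (rtg_mono hs (hB.2 b hb y hy)), hs hy⟩

theorem IsComp.eq_of_inter {C' : Set V} (h : IsComp G A C) (h' : IsComp G A C')
    (hn : (C ∩ C').Nonempty) : C = C' := by
  refine Set.Subset.antisymm (h'.absorb h.conn h.sub hn) (h.absorb h'.conn h'.sub ?_)
  rwa [Set.inter_comm]

/-- MAIN COMPONENT: `H^1(K) = 0`, `A` not adjacent to `M \ A`.
Sketch: `a = df` on `Mᶜ`; extend `f` by `0` to `A`; `a + df` is zero on edges in `Mᶜ`, extended by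
`0` it is a cocycle of the whole complex (a triangle with a vertex in `M \ A` has no vertex in
`A`). -/
theorem main_Inj (hz : HZ G Set.univ) (hs : A ⊆ M) (hn : NAdj G A (M \ A)) :
    Inj G (Mᶜ ∪ A) Mᶜ := by
  intro a ha t
  obtain ⟨f, hf⟩ := t
  have key : ∀ x y, G.Adj x y → x ∈ Mᶜ ∪ A → x ∉ Mᶜ → y ∈ Mᶜ ∪ A := by
    intro x y e h1 h2
    by_contra h3
    have hx : x ∈ A := h1.resolve_left h2
    have hy : y ∈ M \ A := by
      refine ⟨?_, fun h => h3 (Or.inr h)⟩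
      by_contra h
      exact h3 (Or.inl h)
    exact hn x hx y hy e
  have hb := (Z1 G (Mᶜ ∪ A)).add_mem ha
    (cb_mem (G := G) (A := Mᶜ ∪ A) (fun x => if x ∈ Mᶜ then f x else 0))
  generalize hbd : a + cb G (Mᶜ ∪ A) (fun x => if x ∈ Mᶜ then f x else 0) = b at hb
  have hb0 : ∀ x y, EIn G Mᶜ x y → b x y = 0 := by
    intro x y e
    have e' : EIn G (Mᶜ ∪ A) x y := e.mono Set.subset_union_left
    have h1 := hf x y e
    rw [← hbd, Pi.add_apply, Pi.add_apply, cb_apply e', if_pos e.2.1, if_pos e.2.2, h1]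
    exact two_add _
  obtain ⟨hz0, hzs, hzc⟩ := mem_Z1.1 hb
  -- an edge outside `A`
  have hb1 : ∀ x y, G.Adj x y → x ∉ A → y ∉ A → b x y = 0 := by
    intro x y e hx hy
    by_cases h : EIn G (Mᶜ ∪ A) x y
    · exact hb0 x y ⟨e, h.2.1.resolve_right hx, h.2.2.resolve_right hy⟩
    · exact hz0 x y h
  have hbu : b ∈ Z1 G Set.univ := by
    refine mem_Z1.2 ⟨fun x y h => hz0 x y fun h' => h (h'.mono (Set.subset_univ _)), hzs, ?_⟩
    intro x y z e1 e2 e3
    by_cases hx : x ∈ Mᶜ ∪ A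
    · by_cases hy : y ∈ Mᶜ ∪ A
      · by_cases hz' : z ∈ Mᶜ ∪ A
        · exact hzc x y z ⟨e1.1, hx, hy⟩ ⟨e2.1, hy, hz'⟩ ⟨e3.1, hx, hz'⟩
        · have h1 : x ∉ A := fun h => hz' (key x z e3.1 hx fun h' => h' (hs h))
          have h2 : y ∉ A := fun h => hz' (key y z e2.1 hy fun h' => h' (hs h))
          have h3 : z ∉ A := fun h => hz' (Or.inr h)
          rw [hb1 x y e1.1 h1 h2, hb1 y z e2.1 h2 h3, hb1 x z e3.1 h1 h3, add_zero]
      · have h1 : x ∉ A := fun h => hy (key x y e1.1 hx fun h' => h' (hs h))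
        have h2 : y ∉ A := fun h => hy (Or.inr h)
        have h3 : z ∉ A := fun h => hy (key z y e2.1.symm (Or.inr h) fun h' => h' (hs h))
        rw [hb1 x y e1.1 h1 h2, hb1 y z e2.1 h2 h3, hb1 x z e3.1 h1 h3, add_zero]
    · have h1 : x ∉ A := fun h => hx (Or.inr h)
      have h2 : y ∉ A := fun h => hx (key y x e1.1.symm (Or.inr h) fun h' => h' (hs h))
      have h3 : z ∉ A := fun h => hx (key z x e3.1.symm (Or.inr h) fun h' => h' (hs h))
      rw [hb1 x y e1.1 h1 h2, hb1 y z e2.1 h2 h3, hb1 x z e3.1 h1 h3, add_zero]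
  have t := (hz b hbu).mono (Set.subset_univ (Mᶜ ∪ A))
  have t2 := t.add (cb_triv (G := G) (A := Mᶜ ∪ A) (fun x => if x ∈ Mᶜ then f x else 0))
  refine t2.congr fun x y e => ?_
  rw [← hbd]
  simp only [Pi.add_apply]
  rw [add_assoc, two_add, add_zero]

/-- dropping a part `A` (not adjacent to the rest) does not increase `b` -/
theorem main_bb [Finite V] (hz : HZ G Set.univ) (hs : A ⊆ M) (hn : NAdj G A (M \ A)) :
    bb G (M \ A) ≤ bb G M := by
  unfold bb
  have e : (M \ A)ᶜ = Mᶜ ∪ A := by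
    ext x
    simp only [Set.mem_compl_iff, Set.mem_diff, Set.mem_union, not_and_or, not_not]
  rw [e]
  refine Nat.add_le_add ?_ ((main_Inj hz hs hn).le Set.subset_union_left)
  refine Surj.le (A := M) (B := M \ A) (fun b hb => ⟨b, ?_, ?_⟩) Set.diff_subset
  · obtain ⟨h0, hsy, hc⟩ := mem_Z1.1 hb
    refine mem_Z1.2 ⟨fun x y h => h0 x y fun h' => h (h'.mono Set.diff_subset), hsy, ?_⟩
    intro x y z e1 e2 e3
    have cl : ∀ u v, EIn G M u v → u ∈ A → v ∈ A := by
      intro u v e hu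
      by_contra hv
      exact hn u hu v ⟨e.2.2, hv⟩ e.1
    by_cases hx : x ∈ A
    · have hy := cl x y e1 hx
      have hz' := cl x z e3 hx
      rw [h0 x y fun h' => h'.2.1.2 hx, h0 y z fun h' => h'.2.1.2 hy,
        h0 x z fun h' => h'.2.1.2 hx, add_zero]
    · have hy : y ∉ A := fun h => hx (cl y x e1.symm h)
      have hz' : z ∉ A := fun h => hx (cl z x e3.symm h)
      exact hc x y z ⟨e1.1, ⟨e1.2.1, hx⟩, ⟨e1.2.2, hy⟩⟩ ⟨e2.1, ⟨e2.2.1, hy⟩, ⟨e2.2.2, hz'⟩⟩
        ⟨e3.1, ⟨e3.2.1, hx⟩, ⟨e3.2.2, hz'⟩⟩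
  · refine Triv_zero.congr fun x y _ => ?_
    simp only [Pi.add_apply, Pi.zero_apply]
    exact (two_add _).symm

end MOT
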