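import Pool.Agent.MOT.PaBig
import Pool.Agent.MOT.Cpt

/-!
# MOT/PaPt: points, elements of the curves: sizes and faces (block I)
-/

open Classical

noncomputable section

namespace MOT.Pa

variable {V C W : Type} {G : SimpleGraph V} {κ : V → C} {S : Sys C} {ρ : C → ℕ}
  {a b c d v w t t' : C} {R I J : Set (Cq G)} {p q r : Cq G}

/-- a point has four vertices of different colours (`hG.k5`) -/
theorem p4_card (hG : IsSph3 G) (hp : p ∈ P4 G κ) : p.1.card = 4 := by
  have h1 := cols_ncard_le (κ := κ) p
  have h2 : (cols κ p).ncard = 4 := hp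
  have h3 := hG.k5 p.1 p.2.2
  omega

theorem p4_inj (hG : IsSph3 G) (hp : p ∈ P4 G κ) {x y : V} (hx : x ∈ p.1) (hy : y ∈ p.1)
    (h : κ x = κ y) : x = y := by
  have h2 : (cols κ p).ncard = 4 := hp
  rw [cols_eq_image] at h2
  have h4 : (κ '' (p.1 : Set V)).ncard = (p.1 : Set V).ncard := by
    rw [h2, Set.ncard_coe_finset, p4_card hG hp]
  have := (Set.ncard_image_iff (Finset.finite_toSet p.1)).1 h4
  exact this (Finset.mem_coe.2 hx) (Finset.mem_coe.2 hy) h

/-- nothing above a point -/
theorem p4_top (hG : IsSph3 G) (hp : p ∈ P4 G κ) (h : p ≤ q) : q = p := by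
  have h1 : p.1 ⊆ q.1 := Cq.le_iff.1 h
  have h2 := hG.k5 q.1 q.2.2
  rw [← p4_card hG hp] at h2
  exact Subtype.ext (Finset.eq_of_subset_of_card_le h1 h2).symm

private theorem side_cases (a b c : C) (h1 : S.side b ≠ S.side a) (h2 : S.side c ≠ S.side a) :
    S.side b = S.side c := by
  cases ha : S.side a <;> cases hb : S.side b <;> cases hc : S.side c <;> simp_all

/-- colours of the other side: one or two -/
private theorem other (hP : Pre G κ S) (hc : c ∈ cols κ q) (hs : S.side c ≠ S.side a) :
    (∀ e ∈ cols κ q, S.side e ≠ S.side a → e = c) ∨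
      ∃ d ∈ cols κ q, S.side d ≠ S.side a ∧ c ≠ d ∧ S.E c d ∧
        ∀ e ∈ cols κ q, S.side e ≠ S.side a → e = c ∨ e = d := by
  by_cases h : ∀ e ∈ cols κ q, S.side e ≠ S.side a → e = c
  · exact Or.inl h
  · push Not at h
    obtain ⟨d, hd, hds, hdc⟩ := h
    have hsd := side_cases a c d hs hds
    refine Or.inr ⟨d, hd, hds, hdc.symm, hP.adj q c hc d hd hsd hdc.symm, ?_⟩
    intro e he hes
    rcases hP.two q c hc d hd e he hsd (side_cases a d e hds hes) with h | h | h
    · exact absurd h.symm hdc
    · exact Or.inr h.symm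
    · exact Or.inl h.symm

/-- colours of the own side: one or two -/
private theorem own (hP : Pre G κ S) (ha : a ∈ cols κ q) :
    (∀ e ∈ cols κ q, S.side e = S.side a → e = a) ∨
      ∃ b ∈ cols κ q, S.side b = S.side a ∧ a ≠ b ∧ S.E a b ∧
        ∀ e ∈ cols κ q, S.side e = S.side a → e = a ∨ e = b := by
  by_cases h : ∀ e ∈ cols κ q, S.side e = S.side a → e = a
  · exact Or.inl h
  · push Not at h
    obtain ⟨b, hb, hbs, hba⟩ := h
    refine Or.inr ⟨b, hb, hbs, hba.symm, hP.adj q a ha b hb hbs.symm hba.symm, ?_⟩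
    intro e he hes
    rcases hP.two q a ha b hb e he hbs.symm (hbs.trans hes.symm) with h | h | h
    · exact absurd h.symm hba
    · exact Or.inr h.symm
    · exact Or.inl h.symm

private theorem inc_of (hP : Pre G κ S) (h1 : S.E a b) (h2 : S.E c d)
    (hs : S.side c ≠ S.side a) (hq : cols κ q = {a, b, c, d}) : S.Inc4 a b c d := by
  by_contra h
  have := hP.none a b c d h1 h2 hs.symm h
  have h3 : q ∈ Ex G κ {a, b, c, d} := hq
  rw [this] at h3
  exact h3

/-- a point has two colours of each side: `cols κ p = {a, b, c, d}`, incident -/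
theorem p4_form (hP : Pre G κ S) (hp : p ∈ P4 G κ) (ha : a ∈ cols κ p) :
    ∃ b c d, cols κ p = {a, b, c, d} ∧ S.Inc4 a b c d := by
  have hn : (cols κ p).ncard = 4 := hp
  have key : ∀ s : Finset C, cols κ p ⊆ (s : Set C) → s.card ≤ 3 → False := by
    intro s hs hc
    have := Set.ncard_le_ncard hs (Finset.finite_toSet s)
    rw [Set.ncard_coe_finset, hn] at this
    omega
  have hex : ∃ c ∈ cols κ p, S.side c ≠ S.side a := by
    by_contra h
    push Not at h
    rcases own hP ha with h1 | ⟨b, hb, hbs, hab, hE, h1⟩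
    · exact key {a} (fun e he => by simp [h1 e he (h e he)]) (by simp)
    · refine key {a, b} (fun e he => ?_) (Finset.card_le_two.trans (by norm_num))
      simpa using h1 e he (h e he)
  obtain ⟨c, hc, hcs⟩ := hex
  rcases own hP ha with h1 | ⟨b, hb, hbs, hab, hE, h1⟩ <;>
    rcases other hP hc hcs with h2 | ⟨d, hd, hds, hcd, hE2, h2⟩
  · refine (key {a, c} (fun e he => ?_) (Finset.card_le_two.trans (by norm_num))).elim
    by_cases h : S.side e = S.side a
    · simp [h1 e he h]
    · simp [h2 e he h]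
  · refine (key {a, c, d} (fun e he => ?_) Finset.card_le_three).elim
    by_cases h : S.side e = S.side a
    · simp [h1 e he h]
    · rcases h2 e he h with h | h <;> simp [h]
  · refine (key {a, b, c} (fun e he => ?_) Finset.card_le_three).elim
    by_cases h : S.side e = S.side a
    · rcases h1 e he h with h | h <;> simp [h]
    · simp [h2 e he h]
  · have he : cols κ p = {a, b, c, d} := by
      ext e
      simp only [Set.mem_insert_iff, Set.mem_singleton_iff]
      constructor
      · intro he
        by_cases h : S.side e = S.side a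
        · rcases h1 e he h with h | h
          · exact Or.inl h
          · exact Or.inr (Or.inl h)
        · rcases h2 e he h with h | h
          · exact Or.inr (Or.inr (Or.inl h))
          · exact Or.inr (Or.inr (Or.inr h))
      · rintro (rfl | rfl | rfl | rfl)
        exacts [ha, hb, hc, hd]
    exact ⟨b, c, d, he, inc_of hP hE hE2 hcs he⟩

private theorem inc4_ncard (h : S.Inc4 a b c d) : ({a, b, c, d} : Set C).ncard = 4 := by
  obtain ⟨h1, h2, h3, h4, h5, h6⟩ := h
  have e1 := S.E_ne h1
  have e2 := S.E_ne h2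
  have e3 : a ≠ c := fun e => S.I_side h3 (by rw [e])
  have e4 : a ≠ d := fun e => S.I_side h4 (by rw [e])
  have e5 : b ≠ c := fun e => S.I_side h5 (by rw [e])
  have e6 : b ≠ d := fun e => S.I_side h6 (by rw [e])
  have : ({a, b, c, d} : Set C) = (({a, b, c, d} : Finset C) : Set C) := by simp
  rw [this, Set.ncard_coe_finset]
  rw [Finset.card_insert_of_notMem, Finset.card_insert_of_notMem, Finset.card_pair e2]
  · simp [e5, e6]
  · simp [e1, e3, e4]

theorem p4_of (hP : Pre G κ S) (h : S.Inc4 a b c d) (hp : cols κ p = {a, b, c, d}) :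
    p ∈ P4 G κ := by
  show (cols κ p).ncard = 4
  rw [hp, inc4_ncard h]

/-- there is a point with given incident colours -/
theorem p4_ex (hP : Pre G κ S) (h : S.Inc4 a b c d) : ∃ p : Cq G, cols κ p = {a, b, c, d} := by
  have h1 := hP.odd a b c d h
  by_contra hn
  push Not at hn
  have : Ex G κ {a, b, c, d} = ∅ := by
    ext q
    constructor
    · intro hq
      exact hn q hq
    · intro hq
      exact hq.elim
  rw [this, Set.ncard_empty] at h1
  exact Nat.not_odd_zero h1

/-- colours of both sides: the simplex is in the piece or in a curve of `a` -/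
theorem so_or_cu (hP : Pre G κ S) (ha : a ∈ cols κ q) (hc : c ∈ cols κ q)
    (hs : S.side c ≠ S.side a) : q ∈ So G κ S a ∨ ∃ b, S.E a b ∧ q ∈ Cu G κ S a b := by
  rcases own hP ha with h1 | ⟨b, hb, hbs, hab, hE, h1⟩
  · exact Or.inl ⟨ha, fun e he h => h1 e he h, c, hc, hs⟩
  · exact Or.inr ⟨b, hE, ha, hb, c, hc, hs⟩

/-- colours of an element of `So a`: `{a, c}` or `{a, c, d}` with `E c d` -/
theorem so_form (hP : Pre G κ S) (h : q ∈ So G κ S a) :
    (∃ c, S.side c ≠ S.side a ∧ cols κ q = {a, c}) ∨
      ∃ c d, S.side c ≠ S.side a ∧ S.E c d ∧ cols κ q = {a, c, d} := by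
  obtain ⟨ha, h1, c, hc, hcs⟩ := h
  rcases other hP hc hcs with h2 | ⟨d, hd, hds, hcd, hE2, h2⟩
  · refine Or.inl ⟨c, hcs, ?_⟩
    ext e
    simp only [Set.mem_insert_iff, Set.mem_singleton_iff]
    constructor
    · intro he
      by_cases h : S.side e = S.side a
      · exact Or.inl (h1 e he h)
      · exact Or.inr (h2 e he h)
    · rintro (rfl | rfl)
      exacts [ha, hc]
  · refine Or.inr ⟨c, d, hcs, hE2, ?_⟩
    ext e
    simp only [Set.mem_insert_iff, Set.mem_singleton_iff]
    constructor
    · intro he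
      by_cases h : S.side e = S.side a
      · exact Or.inl (h1 e he h)
      · exact Or.inr (h2 e he h)
    · rintro (rfl | rfl | rfl)
      exacts [ha, hc, hd]

/-- colours of an element of `Cu a b`: `{a, b, c}` or `{a, b, c, d}` -/
theorem cu_form (hP : Pre G κ S) (hab : S.E a b) (h : q ∈ Cu G κ S a b) :
    (∃ c, S.side c ≠ S.side a ∧ cols κ q = {a, b, c}) ∨
      ∃ c d, S.Inc4 a b c d ∧ cols κ q = {a, b, c, d} := by
  obtain ⟨ha, hb, c, hc, hcs⟩ := h
  have h1 : ∀ e ∈ cols κ q, S.side e = S.side a → e = a ∨ e = b := by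
    intro e he hes
    rcases hP.two q a ha b hb e he (S.E_side hab) ((S.E_side hab).symm.trans hes.symm) with
      h | h | h
    · exact absurd h (S.E_ne hab)
    · exact Or.inr h.symm
    · exact Or.inl h.symm
  rcases other hP hc hcs with h2 | ⟨d, hd, hds, hcd, hE2, h2⟩
  · refine Or.inl ⟨c, hcs, ?_⟩
    ext e
    simp only [Set.mem_insert_iff, Set.mem_singleton_iff]
    constructor
    · intro he
      by_cases h : S.side e = S.side a
      · rcases h1 e he h with h | h
        · exact Or.inl h
        · exact Or.inr (Or.inl h)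
      · exact Or.inr (Or.inr (h2 e he h))
    · rintro (rfl | rfl | rfl)
      exacts [ha, hb, hc]
  · have he : cols κ q = {a, b, c, d} := by
      ext e
      simp only [Set.mem_insert_iff, Set.mem_singleton_iff]
      constructor
      · intro he
        by_cases h : S.side e = S.side a
        · rcases h1 e he h with h | h
          · exact Or.inl h
          · exact Or.inr (Or.inl h)
        · rcases h2 e he h with h | h
          · exact Or.inr (Or.inr (Or.inl h))
          · exact Or.inr (Or.inr (Or.inr h))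
      · rintro (rfl | rfl | rfl | rfl)
        exacts [ha, hb, hc, hd]
    exact Or.inr ⟨c, d, inc_of hP hab hE2 hcs he, he⟩

/-- corners of a stratum `R ⊆ Ex σ`: points whose trace on `σ` is in `R` -/
theorem mem_cor (hG : IsSph3 G) {σ : Set C} (hσ : σ.Nonempty) (hR : IsComp (sd G) (Ex G κ σ) R) :
    p ∈ cor κ R ↔ p ∈ P4 G κ ∧ σ ⊆ cols κ p ∧ σ ≠ cols κ p ∧ tc κ σ p ∈ R := by
  constructor
  · rintro ⟨hp, q, hq, hqp⟩
    have h1 : cols κ q = σ := hR.sub hq
    have h2 : σ ⊆ cols κ p := h1 ▸ cols_mono hqp.le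
    have h3 : cols κ (tc κ σ p) = σ := tc_cols_sub hσ h2
    refine ⟨hp, h2, ?_, ?_⟩
    · intro e
      have h4 : q ∈ P4 G κ := by
        show (cols κ q).ncard = 4
        rw [h1, e]
        exact hp
      exact absurd (p4_top hG h4 hqp.le) hqp.ne'
    · have h5 : q ≤ tc κ σ p := le_tc hqp.le h1.le
      by_contra h6
      rcases h5.lt_or_eq with h7 | h7
      · exact hR.nadj q hq _ ⟨h3, h6⟩ (Or.inl h7)
      · exact h6 (h7 ▸ hq)
  · rintro ⟨hp, h2, h3, h4⟩
    refine ⟨hp, tc κ σ p, h4, lt_of_le_of_ne (tc_le p σ) ?_⟩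
    intro e
    have := tc_cols_sub hσ h2
    rw [e] at this
    exact h3 this.symm

end MOT.Pa
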