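import Pool.Agent.MOT.PaCoa
import Pool.Agent.MOT.PaPt

/-!
# MOT/PaCo: from the standard pattern to PatT (block I)
-/

open Classical

noncomputable section

namespace MOT.Pa

variable {V C W : Type} {G : SimpleGraph V} {κ : V → C} {S : Sys C} {ρ : C → ℕ}
  {a b c d v w t t' t1 t2 : C} {R H I J : Set (Cq G)} {p q r : Cq G}

variable {Gc : SimpleGraph W}

/-- colours as elements of `Co W` -/
def toCo (Gc : SimpleGraph W) : Col Gc → Co W := Sum.map id Subtype.val

theorem toCo_inj : Function.Injective (toCo Gc) := by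
  intro x y h
  rcases x with x | x <;> rcases y with y | y
  · exact congrArg Sum.inl (Sum.inl.inj h)
  · exact absurd h (by intro h; cases h)
  · exact absurd h (by intro h; cases h)
  · exact congrArg Sum.inr (Subtype.ext (Sum.inr.inj h))

private theorem own' {A : Set C} (hP : Pre G κ S) (hA : A ⊆ cols κ q) (ha : a ∈ A) :
    (∀ e ∈ A, S.side e = S.side a → e = a) ∨
      ∃ b ∈ A, S.side b = S.side a ∧ S.E a b ∧
        ∀ e ∈ A, S.side e = S.side a → e = a ∨ e = b := by
  by_cases h : ∀ e ∈ A, S.side e = S.side a → e = a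
  · exact Or.inl h
  · push Not at h
    obtain ⟨b, hb, hbs, hba⟩ := h
    refine Or.inr ⟨b, hb, hbs, hP.adj q a (hA ha) b (hA hb) hbs.symm hba.symm, ?_⟩
    intro e he hes
    rcases hP.two q a (hA ha) b (hA hb) e (hA he) hbs.symm (hbs.trans hes.symm) with h | h | h
    · exact absurd h.symm hba
    · exact Or.inr h.symm
    · exact Or.inl h.symm

private theorem inc4_swap (h : S.Inc4 a b c d) : S.Inc4 c d a b := by
  obtain ⟨h1, h2, h3, h4, h5, h6⟩ := h
  exact ⟨h2, h1, S.I_symm h3, S.I_symm h5, S.I_symm h4, S.I_symm h6⟩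

private theorem ext_E (hS : S.Good) (h1 : S.E a b) (h2 : S.I a c) (h3 : S.I b c) :
    ∃ d, S.Inc4 a b c d := by
  have h := hS.two a b c h1 h2 h3
  have hne : {d | S.E c d ∧ S.I a d ∧ S.I b d}.Nonempty := by
    rw [Set.nonempty_iff_ne_empty]
    intro e
    rw [e, Set.ncard_empty] at h
    omega
  obtain ⟨d, hd1, hd2, hd3⟩ := hne
  exact ⟨d, h1, hd1, h2, hd2, h3, hd3⟩

private theorem ext_I (hS : S.Good) (h1 : S.I a c) : ∃ b d, S.Inc4 a b c d := by
  have h := hS.three a c h1
  have hne : {b | S.E a b ∧ S.I b c}.Nonempty := by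
    rw [Set.nonempty_iff_ne_empty]
    intro e
    rw [e, Set.ncard_empty] at h
    omega
  obtain ⟨b, hb1, hb2⟩ := hne
  obtain ⟨d, hd⟩ := ext_E hS hb1 h1 hb2
  exact ⟨b, d, hd⟩

/-- every set of colours of a simplex is contained in an incident four-tuple -/
theorem inc4_sup (hS : S.Good) (h : Std G κ S) (q : Cq G) :
    ∃ a b c d, S.side a = true ∧ S.Inc4 a b c d ∧ cols κ q ⊆ {a, b, c, d} := by
  have sub : ∀ a b c d : C, S.side a = true → S.side c = false →
      (∀ e ∈ cols κ q, S.side e = S.side a → e = a ∨ e = b) →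
      (∀ e ∈ cols κ q, S.side e = S.side c → e = c ∨ e = d) → cols κ q ⊆ {a, b, c, d} := by
    intro a b c d ha hc h1 h2 e he
    simp only [Set.mem_insert_iff, Set.mem_singleton_iff]
    cases hs : S.side e
    · rcases h2 e he (hs.trans hc.symm) with h | h
      · exact Or.inr (Or.inr (Or.inl h))
      · exact Or.inr (Or.inr (Or.inr h))
    · rcases h1 e he (hs.trans ha.symm) with h | h
      · exact Or.inl h
      · exact Or.inr (Or.inl h)
  have ne1 : ∀ a c : C, S.side a = true → S.side c = false → S.side a ≠ S.side c := by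
    intro a c ha hc e
    rw [ha, hc] at e
    exact Bool.false_ne_true e.symm
  have fals : ∀ a c : C, S.side a = true → S.I a c → S.side c = false := by
    intro a c ha hI
    have := S.I_side hI
    rw [ha] at this
    cases e : S.side c
    · rfl
    · rw [e] at this; exact absurd rfl this
  by_cases hT : ∃ a ∈ cols κ q, S.side a = true
  · obtain ⟨a, ha, hsa⟩ := hT
    by_cases hF : ∃ c ∈ cols κ q, S.side c = false
    · obtain ⟨c, hc, hsc⟩ := hF
      have hac : S.I a c := h.inc q a ha c hc (ne1 a c hsa hsc)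
      rcases own' h.pre subset_rfl ha with h1 | ⟨b, hb, hbs, hE, h1⟩ <;>
        rcases own' h.pre subset_rfl hc with h2 | ⟨d, hd, hds, hE2, h2⟩
      · obtain ⟨b, d, hI⟩ := ext_I hS hac
        exact ⟨a, b, c, d, hsa, hI, sub a b c d hsa hsc (fun e he hs => Or.inl (h1 e he hs))
          (fun e he hs => Or.inl (h2 e he hs))⟩
      · have hda : S.I a d := h.inc q a ha d hd (ne1 a d hsa (hds.trans hsc))
        obtain ⟨b, hI⟩ := ext_E hS hE2 (S.I_symm hac) (S.I_symm hda)
        exact ⟨a, b, c, d, hsa, inc4_swap hI, sub a b c d hsa hsc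
          (fun e he hs => Or.inl (h1 e he hs)) h2⟩
      · have hbc : S.I b c := h.inc q b hb c hc (ne1 b c (hbs.trans hsa) hsc)
        obtain ⟨d, hI⟩ := ext_E hS hE hac hbc
        exact ⟨a, b, c, d, hsa, hI, sub a b c d hsa hsc h1
          (fun e he hs => Or.inl (h2 e he hs))⟩
      · have hbc : S.I b c := h.inc q b hb c hc (ne1 b c (hbs.trans hsa) hsc)
        have hda : S.I a d := h.inc q a ha d hd (ne1 a d hsa (hds.trans hsc))
        have hbd : S.I b d := h.inc q b hb d hd (ne1 b d (hbs.trans hsa) (hds.trans hsc))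
        exact ⟨a, b, c, d, hsa, ⟨hE, hE2, hac, hda, hbc, hbd⟩, sub a b c d hsa hsc h1 h2⟩
    · have hno : ∀ c d : C, S.side c = false → ∀ e ∈ cols κ q, S.side e = S.side c → e = c ∨ e = d :=
        fun c d hc e he hs => absurd ⟨e, he, hs.trans hc⟩ hF
      rcases own' h.pre subset_rfl ha with h1 | ⟨b, hb, hbs, hE, h1⟩
      · obtain ⟨c, hac⟩ := hS.exI a
        obtain ⟨b, d, hI⟩ := ext_I hS hac
        have hsc := fals a c hsa hac
        exact ⟨a, b, c, d, hsa, hI, sub a b c d hsa hsc (fun e he hs => Or.inl (h1 e he hs))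
          (hno c d hsc)⟩
      · obtain ⟨c, d, hI⟩ := hS.ex a b hE
        have hsc := fals a c hsa hI.2.2.1
        exact ⟨a, b, c, d, hsa, hI, sub a b c d hsa hsc h1 (hno c d hsc)⟩
  · have hF : ∃ c ∈ cols κ q, S.side c = false := by
      obtain ⟨c, hc⟩ := cols_ne (κ := κ) q
      refine ⟨c, hc, ?_⟩
      cases e : S.side c
      · rfl
      · exact absurd ⟨c, hc, e⟩ hT
    obtain ⟨c, hc, hsc⟩ := hF
    have tru : ∀ a : C, S.I c a → S.side a = true := by
      intro a hI
      have := S.I_side hI
      rw [hsc] at this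
      cases e : S.side a
      · rw [e] at this; exact absurd rfl this
      · rfl
    have hno : ∀ a b : C, S.side a = true → ∀ e ∈ cols κ q, S.side e = S.side a → e = a ∨ e = b :=
      fun a b ha e he hs => absurd ⟨e, he, hs.trans ha⟩ hT
    rcases own' h.pre subset_rfl hc with h2 | ⟨d, hd, hds, hE2, h2⟩
    · obtain ⟨a, hca⟩ := hS.exI c
      obtain ⟨d, b, hI⟩ := ext_I hS hca
      have hsa := tru a hca
      exact ⟨a, b, c, d, hsa, inc4_swap hI, sub a b c d hsa hsc (hno a b hsa)
        (fun e he hs => Or.inl (h2 e he hs))⟩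
    · obtain ⟨a, b, hI⟩ := hS.ex c d hE2
      have hsa := tru a hI.2.2.1
      exact ⟨a, b, c, d, hsa, inc4_swap hI, sub a b c d hsa hsc (hno a b hsa) h2⟩

/-- all cells of a standard pattern: `PatJ` for the colouring `κ`.  Cases by the number of colours of `A`
on each side: one colour (`XX {c} = pl G (cs κ c)`, `pl_Conn`, `pl_HZ`), two of the same side (`dconn`,
`dhz`), two of different sides (`hexc`, `hexz`), three (`arcc`, `arcz`), four (one element). -/
theorem std_patJ (h : Std G κ S) : PatJ G κ := by
  intro A hA hX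
  obtain ⟨q, hq⟩ := hX
  have hq' : A ⊆ cols κ q := hq
  obtain ⟨a, ha⟩ := hA
  by_cases hF : ∃ c ∈ A, S.side a ≠ S.side c
  · obtain ⟨c, hc, hac⟩ := hF
    have hoth : ∀ e, S.side a ≠ S.side e → S.side e = S.side c := by
      intro e he
      cases h1 : S.side a <;> cases h2 : S.side c <;> cases h3 : S.side e <;> simp_all
    have hIac : S.I a c := h.inc q a (hq' ha) c (hq' hc) hac
    rcases own' h.pre hq' ha with h1 | ⟨b, hb, hbs, hE, h1⟩ <;>
      rcases own' h.pre hq' hc with h2 | ⟨d, hd, hds, hE2, h2⟩
    · have hA : A = {a, c} := by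
        ext e
        simp only [Set.mem_insert_iff, Set.mem_singleton_iff]
        constructor
        · intro he
          by_cases hs : S.side e = S.side a
          · exact Or.inl (h1 e he hs)
          · exact Or.inr (h2 e he (hoth e (fun h => hs h.symm)))
        · rintro (rfl | rfl) <;> assumption
      rw [hA]
      exact ⟨h.hexc a c hIac, h.hexz a c hIac⟩
    · have hIad : S.I a d := h.inc q a (hq' ha) d (hq' hd) (fun e => hac (e.trans hds))
      have hA : A = {c, d, a} := by
        ext e
        simp only [Set.mem_insert_iff, Set.mem_singleton_iff]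
        constructor
        · intro he
          by_cases hs : S.side e = S.side a
          · exact Or.inr (Or.inr (h1 e he hs))
          · rcases h2 e he (hoth e (fun h => hs h.symm)) with h | h
            · exact Or.inl h
            · exact Or.inr (Or.inl h)
        · rintro (rfl | rfl | rfl) <;> assumption
      rw [hA]
      exact ⟨h.arcc c d a hE2 (S.I_symm hIac) (S.I_symm hIad),
        h.arcz c d a hE2 (S.I_symm hIac) (S.I_symm hIad)⟩
    · have hIbc : S.I b c := h.inc q b (hq' hb) c (hq' hc) (fun e => hac (hbs.symm.trans e))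
      have hA : A = {a, b, c} := by
        ext e
        simp only [Set.mem_insert_iff, Set.mem_singleton_iff]
        constructor
        · intro he
          by_cases hs : S.side e = S.side a
          · rcases h1 e he hs with h | h
            · exact Or.inl h
            · exact Or.inr (Or.inl h)
          · exact Or.inr (Or.inr (h2 e he (hoth e (fun h => hs h.symm))))
        · rintro (rfl | rfl | rfl) <;> assumption
      rw [hA]
      exact ⟨h.arcc a b c hE hIac hIbc, h.arcz a b c hE hIac hIbc⟩
    · have hIbc : S.I b c := h.inc q b (hq' hb) c (hq' hc) (fun e => hac (hbs.symm.trans e))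
      have hIad : S.I a d := h.inc q a (hq' ha) d (hq' hd) (fun e => hac (e.trans hds))
      have hIbd : S.I b d := h.inc q b (hq' hb) d (hq' hd)
        (fun e => hac (hbs.symm.trans (e.trans hds)))
      have hA : A = {a, b, c, d} := by
        ext e
        simp only [Set.mem_insert_iff, Set.mem_singleton_iff]
        constructor
        · intro he
          by_cases hs : S.side e = S.side a
          · rcases h1 e he hs with h | h
            · exact Or.inl h
            · exact Or.inr (Or.inl h)
          · rcases h2 e he (hoth e (fun h => hs h.symm)) with h | h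
            · exact Or.inr (Or.inr (Or.inl h))
            · exact Or.inr (Or.inr (Or.inr h))
        · rintro (rfl | rfl | rfl | rfl) <;> assumption
      have hinc : S.Inc4 a b c d := ⟨hE, hE2, hIac, hIad, hIbc, hIbd⟩
      obtain ⟨q0, hq0, hu⟩ := h.pt a b c d hinc
      have hX : XX G κ A = {q0} := by
        ext r
        rw [Set.mem_singleton_iff, XX_iff, hA]
        constructor
        · intro hr
          have hra : a ∈ cols κ r := hr (by simp)
          have hrb : b ∈ cols κ r := hr (by simp)
          have hrc : c ∈ cols κ r := hr (by simp)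
          have hrd : d ∈ cols κ r := hr (by simp)
          refine hu r (Set.Subset.antisymm ?_ hr)
          intro e he
          simp only [Set.mem_insert_iff, Set.mem_singleton_iff]
          by_cases hs : S.side e = S.side a
          · rcases h.pre.two r a hra b hrb e he hbs.symm (hbs.trans hs.symm) with h3 | h3 | h3
            · exact absurd h3 (S.E_ne hE)
            · exact Or.inr (Or.inl h3.symm)
            · exact Or.inl h3.symm
          · have hs' := hoth e (fun h => hs h.symm)
            rcases h.pre.two r c hrc d hrd e he hds.symm (hds.trans hs'.symm) with h3 | h3 | h3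
            · exact absurd h3 (S.E_ne hE2)
            · exact Or.inr (Or.inr (Or.inr h3.symm))
            · exact Or.inr (Or.inr (Or.inl h3.symm))
        · rintro rfl
          exact hq0.ge
      rw [hX]
      refine ⟨⟨⟨q0, rfl⟩, ?_⟩, ?_⟩
      · rintro x rfl y rfl
        exact Relation.ReflTransGen.refl
      · intro f _
        refine ⟨0, ?_⟩
        rintro x y ⟨hxy, hx, hy⟩
        rw [Set.mem_singleton_iff] at hx hy
        rw [hx, hy] at hxy
        exact absurd hxy ((sd G).loopless.irrefl q0)
  · push Not at hF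
    rcases own' h.pre hq' ha with h1 | ⟨b, hb, hbs, hE, h1⟩
    · have hA : A = {a} := by
        ext e
        rw [Set.mem_singleton_iff]
        exact ⟨fun he => h1 e he (hF e he).symm, fun he => he ▸ ha⟩
      have hX : XX G κ A = pl G (cs κ a) := by
        rw [hA]
        ext r
        constructor
        · intro hr
          obtain ⟨x, hx, hxa⟩ := hr a rfl
          exact ⟨x, hx, hxa⟩
        · rintro ⟨x, hx, hxa⟩ e he
          rw [Set.mem_singleton_iff] at he
          exact ⟨x, hx, he ▸ hxa⟩
      rw [hX]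
      exact ⟨(bt_Conn mi_sub_pl subset_rfl).2 (h.pre.conn a),
        (bt_HZ mi_sub_pl subset_rfl).2 (h.pre.hz a)⟩
    · have hA : A = {a, b} := by
        ext e
        simp only [Set.mem_insert_iff, Set.mem_singleton_iff]
        constructor
        · intro he
          exact h1 e he (hF e he).symm
        · rintro (rfl | rfl) <;> assumption
      rw [hA]
      exact ⟨h.pre.dconn a b hE, h.pre.dhz a b hE⟩

/-- OUTPUT for block J -/
theorem std_patT (hS : (colH Gc).Good) {κ : V → Col Gc} (h : Std G κ (colH Gc)) :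
    PatT Gc G (fun x => toCo Gc (κ x)) := by
  refine ⟨?_, ?_⟩
  · intro A hA hX
    have hsub : ∀ a ∈ A, ∃ b : Col Gc, toCo Gc b = a := by
      obtain ⟨q, hq⟩ := hX
      intro a ha
      obtain ⟨x, _, hxa⟩ := hq a ha
      exact ⟨κ x, hxa⟩
    have hXX : XX G (fun x => toCo Gc (κ x)) A = XX G κ (toCo Gc ⁻¹' A) := by
      ext s
      constructor
      · intro hs b hb
        obtain ⟨x, hx, hxb⟩ := hs (toCo Gc b) hb
        exact ⟨x, hx, toCo_inj hxb⟩
      · intro hs a ha
        obtain ⟨b, rfl⟩ := hsub a ha
        obtain ⟨x, hx, hxb⟩ := hs b ha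
        exact ⟨x, hx, congrArg (toCo Gc) hxb⟩
    rw [hXX] at hX ⊢
    refine std_patJ h _ ?_ hX
    obtain ⟨a, ha⟩ := hA
    obtain ⟨b, rfl⟩ := hsub a ha
    exact ⟨b, ha⟩
  · intro A hA
    constructor
    · rintro ⟨q, hq⟩
      obtain ⟨a, b, c, d, hsa, hinc, hsub⟩ := inc4_sup hS h q
      obtain ⟨h1, h2, h3, h4, h5, h6⟩ := hinc
      rcases a with v | a
      swap
      · exact absurd hsa (by intro h; exact Bool.false_ne_true h)
      rcases b with w | b
      swap
      · exact absurd h1 id
      rcases c with c | t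
      · exact absurd h3 id
      rcases d with d | t'
      · exact absurd h2 id
      have e1 : Gc.Adj v w := h1
      have e3 : v ∈ t.1 := h3
      have e4 : v ∈ t'.1 := h4
      have e5 : w ∈ t.1 := h5
      have e6 : w ∈ t'.1 := h6
      have e2 : (t.1 ∩ t'.1).card = 3 := h2
      refine ⟨v, w, t.1, t'.1, e1.ne, Finset.mem_inter.2 ⟨e3, e4⟩, Finset.mem_inter.2 ⟨e5, e6⟩,
        t.2, t'.2, ⟨?_, e2⟩, ?_⟩
      · intro e
        rw [e, Finset.inter_self, t'.2.1] at e2
        omega
      · intro a ha
        obtain ⟨x, hx, rfl⟩ := hq a ha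
        have h7 := hsub ⟨x, hx, rfl⟩
        simp only [Set.mem_insert_iff, Set.mem_singleton_iff] at h7 ⊢
        rcases h7 with h7 | h7 | h7 | h7
        · rw [h7]; exact Or.inl rfl
        · rw [h7]; exact Or.inr (Or.inl rfl)
        · rw [h7]; exact Or.inr (Or.inr (Or.inl rfl))
        · rw [h7]; exact Or.inr (Or.inr (Or.inr rfl))
    · rintro ⟨v, w, t, t', hvw, hv, hw, ht, ht', htt, hsub⟩
      rw [Finset.mem_inter] at hv hw
      have hinc : (colH Gc).Inc4 (Sum.inl v) (Sum.inl w) (Sum.inr ⟨t, ht⟩) (Sum.inr ⟨t', ht'⟩) := by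
        refine ⟨?_, htt.2, hv.1, hv.2, hw.1, hw.2⟩
        exact ht.2 (Finset.mem_coe.2 hv.1) (Finset.mem_coe.2 hw.1) hvw
      obtain ⟨q, hq, _⟩ := h.pt _ _ _ _ hinc
      refine ⟨q, ?_⟩
      intro a ha
      have h8 := hsub ha
      have key : ∀ c ∈ cols κ q, ∃ x ∈ q.1, toCo Gc (κ x) = toCo Gc c := by
        intro c hc
        obtain ⟨x, hx, hxc⟩ := hc
        exact ⟨x, hx, congrArg (toCo Gc) hxc⟩
      have m1 := hq.ge (Or.inl rfl)
      have m2 := hq.ge (Or.inr (Or.inl rfl))
      have m3 := hq.ge (Or.inr (Or.inr (Or.inl rfl)))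
      have m4 := hq.ge (Or.inr (Or.inr (Or.inr rfl)))
      simp only [Set.mem_insert_iff, Set.mem_singleton_iff] at h8
      rcases h8 with rfl | rfl | rfl | rfl
      · exact key _ m1
      · exact key _ m2
      · exact key _ m3
      · exact key _ m4

end MOT.Pa
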