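import Pool.Agent.MOT.PaDef
import Pool.Agent.MOT.Dua

/-!
# MOT/PaCoa: the colour system of a flag 3-sphere is good (block I)

`H` is the coarse complex, `IsSph3 H`.  The link of a vertex is a connected surface with `H^1 = 0`
(`IsSph3.lk_surf`, `h.vert`), `lk_chi : chi H (Lk H {x}) = 2`.
-/

open Classical

noncomputable section

namespace MOT.Pa

variable {W : Type} {H : SimpleGraph W}

/-! ### auxiliary statements -/

/-- tetrahedra -/
private abbrev Tt (H : SimpleGraph W) : Type :=
  {s : Finset W // s.card = 4 ∧ H.IsClique (s : Set W)}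

private def vL (H : SimpleGraph W) (v : W) : Col H := Sum.inl v

private def tR (T : Tt H) : Col H := Sum.inr T

private theorem coa_cases (a : Col H) : (∃ v, a = vL H v) ∨ ∃ T : Tt H, a = tR T := by
  rcases a with v | T
  · exact Or.inl ⟨v, rfl⟩
  · exact Or.inr ⟨T, rfl⟩

private theorem vL_inj {v w : W} (h : vL H v = vL H w) : v = w := Sum.inl_injective h

private theorem tR_inj {S T : Tt H} (h : tR S = tR T) : S = T := Sum.inr_injective h

private theorem coa_tri (T : Tt H) {x : W} (hx : x ∈ T.1) :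
    (T.1.erase x).card = 3 ∧ H.IsClique ((T.1.erase x : Finset W) : Set W) :=
  ⟨by rw [Finset.card_erase_of_mem hx, T.2.1], subset_clique (Finset.erase_subset _ _) T.2.2⟩

/-- the common part of two neighbours -/
private theorem coa_int {T T' : Tt H} (h : (T.1 ∩ T'.1).card = 3) :
    ∃ x ∈ T.1, T.1 ∩ T'.1 = T.1.erase x := by
  obtain ⟨x, hx, e⟩ := Finset.exists_eq_insert_iff.2
    ⟨Finset.inter_subset_left (s₁ := T.1) (s₂ := T'.1), by rw [h, T.2.1]⟩
  refine ⟨x, ?_, ?_⟩
  · rw [← e]
    exact Finset.mem_insert_self _ _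
  · have h1 := congrArg (fun s => Finset.erase s x) e
    simp only [Finset.erase_insert hx] at h1
    exact h1

/-- a tetrahedron as a triangle and a vertex of its link -/
private theorem coa_ins {T : Tt H} {t : Finset W} (ht : t.card = 3) (h : t ⊆ T.1) :
    ∃ z, z ∉ t ∧ z ∈ Lk H (t : Set W) ∧ insert z t = T.1 := by
  obtain ⟨z, hz, e⟩ := Finset.exists_eq_insert_iff.2 ⟨h, by rw [ht, T.2.1]⟩
  refine ⟨z, hz, ?_, e⟩
  intro y hy
  refine T.2.2 (Finset.mem_coe.2 (h (Finset.mem_coe.1 hy))) (Finset.mem_coe.2 ?_) ?_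
  · rw [← e]
    exact Finset.mem_insert_self _ _
  · rintro rfl
    exact hz (Finset.mem_coe.1 hy)

private theorem coa_nb [Finite W] (h : IsSph3 H) (T : Tt H) {x : W} (hx : x ∈ T.1) :
    ∃ T' : Tt H, T.1 ∩ T'.1 = T.1.erase x := by
  obtain ⟨h3, hc⟩ := coa_tri T hx
  have h2 := h.tri _ hc h3
  have hxL : x ∈ Lk H ((T.1.erase x : Finset W) : Set W) := fun y hy =>
    (clique_erase T.2.2 hx (Finset.mem_coe.1 hy)).symm
  obtain ⟨z, hz, hzx⟩ := Set.exists_ne_of_one_lt_ncard
    (s := Lk H ((T.1.erase x : Finset W) : Set W)) (by rw [h2]; norm_num) x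
  have hzt : z ∉ T.1.erase x := fun hh => H.irrefl (hz z (Finset.mem_coe.2 hh))
  have hzT : z ∉ T.1 := fun hh => hzt (Finset.mem_erase.2 ⟨hzx, hh⟩)
  refine ⟨⟨insert z (T.1.erase x), ?_, ?_⟩, ?_⟩
  · rw [Finset.card_insert_of_notMem hzt, h3]
  · exact clique_insert hc fun y hy => (hz y (Finset.mem_coe.2 hy)).symm
  · ext y
    simp only [Finset.mem_inter, Finset.mem_insert, Finset.mem_erase]
    constructor
    · rintro ⟨h4, rfl | h5⟩
      · exact absurd h4 hzT
      · exact h5
    · rintro ⟨h4, h5⟩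
      exact ⟨h5, Or.inr ⟨h4, h5⟩⟩

private theorem coa_unq [Finite W] (h : IsSph3 H) {T T1 T2 : Tt H} (h1 : (T.1 ∩ T1.1).card = 3)
    (h2 : T.1 ∩ T1.1 = T.1 ∩ T2.1) : T1 = T2 := by
  have hc : H.IsClique ((T.1 ∩ T1.1 : Finset W) : Set W) :=
    subset_clique Finset.inter_subset_left T.2.2
  have hL := h.tri _ hc h1
  obtain ⟨z, hz, hzL, ez⟩ := coa_ins (T := T) h1 Finset.inter_subset_left
  obtain ⟨z1, hz1, hzL1, ez1⟩ := coa_ins (T := T1) h1 Finset.inter_subset_right
  obtain ⟨z2, hz2, hzL2, ez2⟩ := coa_ins (T := T2) h1 (by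
    rw [h2]
    exact Finset.inter_subset_right)
  have hT : z ∈ T.1 := by rw [← ez]; exact Finset.mem_insert_self _ _
  have hT1 : z1 ∈ T1.1 := by rw [← ez1]; exact Finset.mem_insert_self _ _
  have hT2 : z2 ∈ T2.1 := by rw [← ez2]; exact Finset.mem_insert_self _ _
  have n1 : z ≠ z1 := by
    rintro rfl
    exact hz (Finset.mem_inter.2 ⟨hT, hT1⟩)
  have n2 : z ≠ z2 := by
    rintro rfl
    rw [h2] at hz
    exact hz (Finset.mem_inter.2 ⟨hT, hT2⟩)
  have n3 : z1 = z2 := by
    by_contra hne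
    have h3 : ({z, z1, z2} : Set W) ⊆ Lk H ((T.1 ∩ T1.1 : Finset W) : Set W) := by
      rintro y (rfl | rfl | rfl) <;> assumption
    have h4 := Set.ncard_le_ncard h3 (Set.toFinite _)
    rw [hL, Set.ncard_eq_three.2 ⟨z, z1, z2, n1, n2, hne, rfl⟩] at h4
    omega
  apply Subtype.ext
  rw [← ez1, ← ez2, n3]

private theorem coa_erase_inj {s : Finset W} {x y : W} (hx : x ∈ s) (h : s.erase x = s.erase y) :
    x = y := by
  by_contra hne
  have : x ∈ s.erase y := Finset.mem_erase.2 ⟨hne, hx⟩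
  rw [← h] at this
  exact Finset.notMem_erase x s this

/-- the neighbours of a tetrahedron which contain the vertices in `A` -/
private theorem coa_count [Finite W] (h : IsSph3 H) (T : Tt H) (A : Finset W) (hA : A ⊆ T.1) :
    {d : Col H | (colH H).E (tR T) d ∧ ∀ v ∈ A, (colH H).I (vL H v) d}.ncard =
      (T.1 \ A).card := by
  have hnb : ∀ x : W, ∃ T' : Tt H, x ∈ T.1 → T.1 ∩ T'.1 = T.1.erase x := by
    intro x
    by_cases hx : x ∈ T.1
    · obtain ⟨T', hT'⟩ := coa_nb h T hx
      exact ⟨T', fun _ => hT'⟩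
    · exact ⟨T, fun hh => absurd hh hx⟩
  choose f hf using hnb
  have e : {d : Col H | (colH H).E (tR T) d ∧ ∀ v ∈ A, (colH H).I (vL H v) d} =
      (fun x => tR (f x)) '' ((T.1 \ A : Finset W) : Set W) := by
    ext d
    constructor
    · rintro ⟨h1, h2⟩
      obtain ⟨w, rfl⟩ | ⟨T', rfl⟩ := coa_cases d
      · exact absurd h1 id
      · have h1' : (T.1 ∩ T'.1).card = 3 := h1
        obtain ⟨x, hx, ex⟩ := coa_int h1'
        refine ⟨x, ?_, ?_⟩
        · rw [Finset.mem_coe, Finset.mem_sdiff]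
          refine ⟨hx, fun hxA => ?_⟩
          have hxT' : x ∈ T'.1 := h2 x hxA
          have : x ∈ T.1 ∩ T'.1 := Finset.mem_inter.2 ⟨hx, hxT'⟩
          rw [ex] at this
          exact Finset.notMem_erase x _ this
        · have h3 : T' = f x := coa_unq h h1' (ex.trans (hf x hx).symm)
          show tR (f x) = tR T'
          rw [h3]
    · rintro ⟨x, hx, rfl⟩
      rw [Finset.mem_coe, Finset.mem_sdiff] at hx
      have h1 := hf x hx.1
      refine ⟨?_, fun v hv => ?_⟩
      · show (T.1 ∩ (f x).1).card = 3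
        rw [h1]
        exact (coa_tri T hx.1).1
      · show v ∈ (f x).1
        have : v ∈ T.1.erase x := Finset.mem_erase.2 ⟨fun hh => hx.2 (hh ▸ hv), hA hv⟩
        rw [← h1] at this
        exact (Finset.mem_inter.1 this).2
  rw [e, Set.InjOn.ncard_image, Set.ncard_coe_finset]
  intro x hx y hy hxy
  rw [Finset.mem_coe, Finset.mem_sdiff] at hx hy
  have h1 : f x = f y := tR_inj hxy
  have h2 := hf x hx.1
  rw [h1, hf y hy.1] at h2
  exact (coa_erase_inj hy.1 h2).symm

/-- vertices of a finset adjacent to `v` -/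
private theorem coa_vcount {s : Finset W} (hc : H.IsClique (s : Set W)) {v : W} (hv : v ∈ s) :
    {b : Col H | (colH H).E (vL H v) b ∧ ∃ w, b = vL H w ∧ w ∈ s}.ncard = s.card - 1 := by
  have e : {b : Col H | (colH H).E (vL H v) b ∧ ∃ w, b = vL H w ∧ w ∈ s} =
      (fun w => vL H w) '' ((s.erase v : Finset W) : Set W) := by
    ext b
    constructor
    · rintro ⟨h1, w, rfl, hw⟩
      have h1' : H.Adj v w := h1
      exact ⟨w, Finset.mem_coe.2 (Finset.mem_erase.2 ⟨h1'.ne.symm, hw⟩), rfl⟩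
    · rintro ⟨w, hw, rfl⟩
      have hw' := Finset.mem_coe.1 hw
      exact ⟨clique_erase hc hv hw', w, rfl, Finset.mem_of_mem_erase hw'⟩
  rw [e, Set.InjOn.ncard_image, Set.ncard_coe_finset, Finset.card_erase_of_mem hv]
  intro x _ y _ hxy
  exact vL_inj hxy

private theorem coa_f2 [Finite W] {S : Set W} (hS : Surf H S) : 2 * fn H S 2 = 3 * fn H S 3 := by
  let K2 : Set (Finset W) := {s : Finset W | s.card = 2 ∧ H.IsClique (s : Set W) ∧ (s : Set W) ⊆ S}
  let K3 : Set (Finset W) := {s : Finset W | s.card = 3 ∧ H.IsClique (s : Set W) ∧ (s : Set W) ⊆ S}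
  have hK2 : fn H S 2 = (Set.toFinite K2).toFinset.card := by
    rw [← Set.ncard_eq_toFinset_card K2]; rfl
  have hK3 : fn H S 3 = (Set.toFinite K3).toFinset.card := by
    rw [← Set.ncard_eq_toFinset_card K3]; rfl
  have hh := Finset.sum_card_bipartiteAbove_eq_sum_card_bipartiteBelow
    (s := (Set.toFinite K2).toFinset) (t := (Set.toFinite K3).toFinset) (fun e t => e ⊆ t)
  have ha : ∀ e ∈ (Set.toFinite K2).toFinset,
      (((Set.toFinite K3).toFinset).bipartiteAbove (fun e t => e ⊆ t) e).card = 2 := by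
    intro e he
    obtain ⟨c1, c2, c3⟩ := (Set.Finite.mem_toFinset _).1 he
    have hset : ((((Set.toFinite K3).toFinset).bipartiteAbove (fun e t => e ⊆ t) e : Finset _) :
        Set (Finset W)) = {t : Finset W | t.card = 2 + 1 ∧ H.IsClique (t : Set W) ∧
          (t : Set W) ⊆ S ∧ e ⊆ t} := by
      ext t
      simp only [Finset.bipartiteAbove, Finset.coe_filter, Set.Finite.mem_toFinset,
        Set.mem_ofPred_eq]
      constructor
      · rintro ⟨⟨d1, d2, d3⟩, d4⟩; exact ⟨d1, d2, d3, d4⟩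
      · rintro ⟨d1, d2, d3, d4⟩; exact ⟨⟨d1, d2, d3⟩, d4⟩
    rw [← Set.ncard_coe_finset, hset, star_ncard e 2 c1 c2 c3]
    obtain ⟨x, y, hxy, rfl⟩ := Finset.card_eq_two.1 c1
    have e1 : EIn H S x y := ⟨c2 (by simp) (by simp) hxy, c3 (by simp), c3 (by simp)⟩
    have e2 : ((({x, y} : Finset W)) : Set W) = {x, y} := by simp
    rw [e2]
    exact (hS.edge e1).1
  have hb : ∀ t ∈ (Set.toFinite K3).toFinset,
      (((Set.toFinite K2).toFinset).bipartiteBelow (fun e t => e ⊆ t) t).card = 3 := by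
    intro t ht
    obtain ⟨c1, c2, c3⟩ := (Set.Finite.mem_toFinset _).1 ht
    have : ((Set.toFinite K2).toFinset).bipartiteBelow (fun e t => e ⊆ t) t =
        Finset.powersetCard 2 t := by
      ext e
      simp only [Finset.bipartiteBelow, Finset.mem_filter, Set.Finite.mem_toFinset,
        Finset.mem_powersetCard]
      constructor
      · rintro ⟨⟨d1, -⟩, d2⟩; exact ⟨d2, d1⟩
      · rintro ⟨d1, d2⟩
        exact ⟨⟨d2, subset_clique d1 c2, (Finset.coe_subset.2 d1).trans c3⟩, d1⟩
    rw [this, Finset.card_powersetCard, c1]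
    rfl
  rw [Finset.sum_congr rfl ha, Finset.sum_congr rfl hb, Finset.sum_const, Finset.sum_const,
    smul_eq_mul, smul_eq_mul] at hh
  rw [hK2, hK3]; omega

/-- a tetrahedron contains exactly three edges at each of its vertices; dually exactly three of its
faces contain a given vertex, each face lies in exactly one other tetrahedron (`h.tri`) -/
theorem coa_three [Finite W] (h : IsSph3 H) (a c : Col H) (hac : (colH H).I a c) :
    {b | (colH H).E a b ∧ (colH H).I b c}.ncard = 3 := by
  obtain ⟨v, rfl⟩ | ⟨T, rfl⟩ := coa_cases a <;> obtain ⟨w, rfl⟩ | ⟨T', rfl⟩ := coa_cases c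
  · exact absurd hac id
  · have hv : v ∈ T'.1 := hac
    have h1 := coa_vcount T'.2.2 hv
    rw [T'.2.1] at h1
    refine Eq.trans ?_ h1
    congr 1
    ext b
    constructor
    · rintro ⟨h2, h3⟩
      obtain ⟨u, rfl⟩ | ⟨T1, rfl⟩ := coa_cases b
      · exact ⟨h2, u, rfl, h3⟩
      · exact absurd h2 id
    · rintro ⟨h2, u, rfl, h3⟩
      exact ⟨h2, h3⟩
  · have hv : w ∈ T.1 := hac
    have h1 := coa_count h T {w} (by simpa using hv)
    have h2 : (T.1 \ {w}).card = 3 := by
      rw [Finset.card_sdiff_of_subset (by simpa using hv), T.2.1]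
      rfl
    rw [h2] at h1
    rw [← h1]
    congr 1
    ext b
    constructor
    · rintro ⟨h2, h3⟩
      refine ⟨h2, fun v hv => ?_⟩
      rw [Finset.mem_singleton] at hv
      subst hv
      exact (colH H).I_symm h3
    · rintro ⟨h2, h3⟩
      exact ⟨h2, (colH H).I_symm (h3 w (by simp))⟩
  · exact absurd hac id

/-- two faces of a tetrahedron contain a given edge; a triangle has two edges at each vertex -/
theorem coa_two [Finite W] (h : IsSph3 H) (a b c : Col H) (hab : (colH H).E a b)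
    (hac : (colH H).I a c) (hbc : (colH H).I b c) :
    {d | (colH H).E c d ∧ (colH H).I a d ∧ (colH H).I b d}.ncard = 2 := by
  obtain ⟨v, rfl⟩ | ⟨T, rfl⟩ := coa_cases a <;> obtain ⟨w, rfl⟩ | ⟨T', rfl⟩ := coa_cases b
  · obtain ⟨u, rfl⟩ | ⟨T, rfl⟩ := coa_cases c
    · exact absurd hac id
    · have hv : v ∈ T.1 := hac
      have hw : w ∈ T.1 := hbc
      have hvw : H.Adj v w := hab
      have hA : ({v, w} : Finset W) ⊆ T.1 := by
        intro y hy
        simp only [Finset.mem_insert, Finset.mem_singleton] at hy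
        rcases hy with rfl | rfl <;> assumption
      have h1 := coa_count h T {v, w} hA
      have h2 : (T.1 \ {v, w}).card = 2 := by
        rw [Finset.card_sdiff_of_subset hA, T.2.1, Finset.card_pair hvw.ne]
      rw [h2] at h1
      rw [← h1]
      congr 1
      ext b
      constructor
      · rintro ⟨h2, h3, h4⟩
        refine ⟨h2, fun y hy => ?_⟩
        simp only [Finset.mem_insert, Finset.mem_singleton] at hy
        rcases hy with rfl | rfl <;> assumption
      · rintro ⟨h2, h3⟩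
        exact ⟨h2, h3 v (by simp), h3 w (by simp)⟩
  · exact absurd hab id
  · exact absurd hab id
  · obtain ⟨v, rfl⟩ | ⟨T1, rfl⟩ := coa_cases c
    · have hv : v ∈ T.1 := hac
      have hv' : v ∈ T'.1 := hbc
      have h3 : (T.1 ∩ T'.1).card = 3 := hab
      have h1 := coa_vcount (H := H) (s := T.1 ∩ T'.1)
        (subset_clique Finset.inter_subset_left T.2.2) (Finset.mem_inter.2 ⟨hv, hv'⟩)
      rw [h3] at h1
      refine Eq.trans ?_ h1
      congr 1
      ext b
      constructor
      · rintro ⟨h2, h4, h5⟩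
        obtain ⟨u, rfl⟩ | ⟨T2, rfl⟩ := coa_cases b
        · exact ⟨h2, u, rfl, Finset.mem_inter.2 ⟨h4, h5⟩⟩
        · exact absurd h2 id
      · rintro ⟨h2, u, rfl, h4⟩
        exact ⟨h2, (Finset.mem_inter.1 h4).1, (Finset.mem_inter.1 h4).2⟩
    · exact absurd hac id

/-- if `v` is a vertex, `w ≠ w'`: the triangle `v w w'` would lie in the three tetrahedra `c, d, d'`;
the same triangle argument if `a` is a tetrahedron -/
theorem coa_uniq [Finite W] (h : IsSph3 H) (a b b' c d d' : Col H)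
    (h1 : (colH H).Inc4 a b c d) (h2 : (colH H).Inc4 a b c d') (h3 : (colH H).Inc4 a b' c d)
    (h4 : (colH H).Inc4 a b' c d') (hd : d ≠ d') : b = b' := by
  have key : ∀ (T T1 T2 : Tt H) (x y z : W), x ≠ y → x ≠ z → y ≠ z → x ∈ T.1 → y ∈ T.1 →
      z ∈ T.1 → x ∈ T1.1 → y ∈ T1.1 → z ∈ T1.1 → x ∈ T2.1 → y ∈ T2.1 → z ∈ T2.1 →
      (T.1 ∩ T1.1).card = 3 → (T.1 ∩ T2.1).card = 3 → T1 = T2 := by
    intro T T1 T2 x y z hxy hxz hyz a1 a2 a3 b1 b2 b3 c1 c2 c3 k1 k2
    have h3 : ({x, y, z} : Finset W).card = 3 := Finset.card_eq_three.2 ⟨x, y, z, hxy, hxz, hyz, rfl⟩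
    have s1 : ({x, y, z} : Finset W) ⊆ T.1 ∩ T1.1 := by
      intro u hu
      simp only [Finset.mem_insert, Finset.mem_singleton] at hu
      rcases hu with rfl | rfl | rfl <;> exact Finset.mem_inter.2 ⟨by assumption, by assumption⟩
    have s2 : ({x, y, z} : Finset W) ⊆ T.1 ∩ T2.1 := by
      intro u hu
      simp only [Finset.mem_insert, Finset.mem_singleton] at hu
      rcases hu with rfl | rfl | rfl <;> exact Finset.mem_inter.2 ⟨by assumption, by assumption⟩
    have e1 := Finset.eq_of_subset_of_card_le s1 (by rw [k1, h3])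
    have e2 := Finset.eq_of_subset_of_card_le s2 (by rw [k2, h3])
    exact coa_unq h k1 (e1.symm.trans e2)
  obtain ⟨p1, p2, p3, p4, p5, p6⟩ := h1
  obtain ⟨q1, q2, q3, q4, q5, q6⟩ := h2
  obtain ⟨r1, r2, r3, r4, r5, r6⟩ := h3
  obtain ⟨s1, s2, s3, s4, s5, s6⟩ := h4
  by_contra hne
  obtain ⟨v, rfl⟩ | ⟨T, rfl⟩ := coa_cases a
  · obtain ⟨w, rfl⟩ | ⟨X, rfl⟩ := coa_cases b
    swap
    · exact absurd p1 id
    obtain ⟨w', rfl⟩ | ⟨X, rfl⟩ := coa_cases b'
    swap
    · exact absurd r1 id
    obtain ⟨x, rfl⟩ | ⟨T, rfl⟩ := coa_cases c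
    · exact absurd p3 id
    obtain ⟨x, rfl⟩ | ⟨T1, rfl⟩ := coa_cases d
    · exact absurd p2 id
    obtain ⟨x, rfl⟩ | ⟨T2, rfl⟩ := coa_cases d'
    · exact absurd q2 id
    have n1 : H.Adj v w := p1
    have n2 : H.Adj v w' := r1
    have n3 : w ≠ w' := fun hh => hne (by rw [hh])
    exact hd (congrArg tR (key T T1 T2 v w w' n1.ne n2.ne n3 p3 p5 r5 p4 p6 r6 q4 q6 s6 p2 q2))
  · obtain ⟨x, rfl⟩ | ⟨T1, rfl⟩ := coa_cases b
    · exact absurd p1 id
    obtain ⟨x, rfl⟩ | ⟨T2, rfl⟩ := coa_cases b'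
    · exact absurd r1 id
    obtain ⟨v, rfl⟩ | ⟨X, rfl⟩ := coa_cases c
    swap
    · exact absurd p3 id
    obtain ⟨w, rfl⟩ | ⟨X, rfl⟩ := coa_cases d
    swap
    · exact absurd p2 id
    obtain ⟨w', rfl⟩ | ⟨X, rfl⟩ := coa_cases d'
    swap
    · exact absurd q2 id
    have n1 : H.Adj v w := p2
    have n2 : H.Adj v w' := q2
    have n3 : w ≠ w' := fun hh => hd (by rw [hh])
    exact hne (congrArg tR (key T T1 T2 v w w' n1.ne n2.ne n3 p3 p4 q4 p5 p6 q6 r5 r6 s6 p1 r1))

/-- `chi (Lk v) = 2`, every triangle of the link has three edges, every edge two triangles;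
the triangles of the link are the tetrahedra at `v` (`fn H (Lk H {v}) 3`), `lk_fn4` -/
theorem coa_link [Finite W] (h : IsSph3 H) (a : Col H) (ha : (colH H).side a = true) :
    {c | (colH H).I a c}.ncard + 4 = 2 * {b | (colH H).E a b}.ncard := by
  obtain ⟨v, rfl⟩ | ⟨T, rfl⟩ := coa_cases a
  swap
  · exact absurd (show (false : Bool) = true from ha) Bool.false_ne_true
  have hS := h.lk_surf v
  have hchi := lk_chi h v
  have h4 := lk_fn4 h v
  have h2 := coa_f2 hS
  have e1 : {b | (colH H).E (vL H v) b}.ncard = fn H (Lk H {v}) 1 := by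
    have a1 : {b | (colH H).E (vL H v) b} = (fun w => vL H w) '' Lk H {v} := by
      ext b
      constructor
      · intro hb
        obtain ⟨w, rfl⟩ | ⟨T, rfl⟩ := coa_cases b
        · refine ⟨w, ?_, rfl⟩
          intro y hy
          rw [Set.mem_singleton_iff] at hy
          subst hy
          exact hb
        · exact absurd hb id
      · rintro ⟨w, hw, rfl⟩
        exact hw v rfl
    have a2 : {s : Finset W | s.card = 1 ∧ H.IsClique (s : Set W) ∧ (s : Set W) ⊆ Lk H {v}} =
        (fun w => ({w} : Finset W)) '' Lk H {v} := by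
      ext s
      constructor
      · rintro ⟨c1, -, c3⟩
        obtain ⟨w, rfl⟩ := Finset.card_eq_one.1 c1
        exact ⟨w, c3 (by simp), rfl⟩
      · rintro ⟨w, hw, rfl⟩
        exact ⟨by simp, by simp, by simpa using hw⟩
    unfold fn
    rw [a1, a2, Set.InjOn.ncard_image, Set.InjOn.ncard_image]
    · intro x _ y _ hxy
      exact Finset.singleton_injective hxy
    · intro x _ y _ hxy
      exact vL_inj hxy
  have e3 : {c | (colH H).I (vL H v) c}.ncard = fn H (Lk H {v}) 3 := by
    unfold fn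
    symm
    have hvn : ∀ t : Finset W, (t : Set W) ⊆ Lk H {v} → v ∉ t := fun t ht hh =>
      H.irrefl (ht (Finset.mem_coe.2 hh) v rfl)
    refine Set.ncard_congr (fun t (ht : t.card = 3 ∧ H.IsClique (t : Set W) ∧
      (t : Set W) ⊆ Lk H {v}) => tR (H := H) ⟨insert v t, by
        rw [Finset.card_insert_of_notMem (hvn t ht.2.2), ht.1],
        clique_insert ht.2.1 fun y hy => ht.2.2 (Finset.mem_coe.2 hy) v rfl⟩) ?_ ?_ ?_
    · intro t ht
      exact Finset.mem_insert_self v t
    · intro t t' ht ht' hh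
      have h5 := congrArg Subtype.val (tR_inj hh)
      have h6 : insert v t = insert v t' := h5
      rw [← Finset.erase_insert (hvn t ht.2.2), h6, Finset.erase_insert (hvn t' ht'.2.2)]
    · intro c hc
      obtain ⟨w, rfl⟩ | ⟨T, rfl⟩ := coa_cases c
      · exact absurd hc id
      · have hv : v ∈ T.1 := hc
        obtain ⟨h5, h6⟩ := coa_tri T hv
        have h7 : ((T.1.erase v : Finset W) : Set W) ⊆ Lk H {v} := by
          intro y hy z hz
          rw [Set.mem_singleton_iff] at hz
          subst hz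
          exact clique_erase T.2.2 hv (Finset.mem_coe.1 hy)
        refine ⟨T.1.erase v, ⟨h5, h6, h7⟩, ?_⟩
        have h8 : insert v (T.1.erase v) = T.1 := Finset.insert_erase hv
        exact congrArg tR (Subtype.ext h8)
  rw [e1, e3]
  unfold chi at hchi
  rw [h4] at hchi
  omega

/-- every edge lies in a triangle (`h.edge`: the link of an edge is nonempty), every triangle in two
tetrahedra -/
theorem coa_ex [Finite W] (h : IsSph3 H) (a b : Col H) (hab : (colH H).E a b) :
    ∃ c d, (colH H).Inc4 a b c d := by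
  obtain ⟨v, rfl⟩ | ⟨T, rfl⟩ := coa_cases a <;> obtain ⟨w, rfl⟩ | ⟨T', rfl⟩ := coa_cases b
  · have hvw : H.Adj v w := hab
    obtain ⟨T, c1, c2, c3, c4⟩ := edge_tet h hvw
    have h1 : (T \ {v, w}).Nonempty := by
      rw [← Finset.card_pos, Finset.card_sdiff_of_subset, c2, Finset.card_pair hvw.ne]
      · norm_num
      · intro y hy
        simp only [Finset.mem_insert, Finset.mem_singleton] at hy
        rcases hy with rfl | rfl <;> assumption
    obtain ⟨x, hx⟩ := h1
    rw [Finset.mem_sdiff, Finset.mem_insert, Finset.mem_singleton, not_or] at hx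
    obtain ⟨T', hT'⟩ := coa_nb h ⟨T, c2, c1⟩ hx.1
    have hT2 : T ∩ T'.1 = T.erase x := hT'
    have m : ∀ y ∈ T, y ≠ x → y ∈ T'.1 := by
      intro y hy hyx
      have : y ∈ T.erase x := Finset.mem_erase.2 ⟨hyx, hy⟩
      rw [← hT2] at this
      exact (Finset.mem_inter.1 this).2
    refine ⟨tR ⟨T, c2, c1⟩, tR T', hab, ?_, c3, m v c3 (Ne.symm hx.2.1), c4,
      m w c4 (Ne.symm hx.2.2)⟩
    show (T ∩ T'.1).card = 3
    rw [hT2, Finset.card_erase_of_mem hx.1, c2]
  · exact absurd hab id
  · exact absurd hab id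
  · have h3 : (T.1 ∩ T'.1).card = 3 := hab
    obtain ⟨v, w, u, hvw, -, -, e⟩ := Finset.card_eq_three.1 h3
    have hv : v ∈ T.1 ∩ T'.1 := by rw [e]; simp
    have hw : w ∈ T.1 ∩ T'.1 := by rw [e]; simp
    rw [Finset.mem_inter] at hv hw
    exact ⟨vL H v, vL H w, hab, T.2.2 (Finset.mem_coe.2 hv.1) (Finset.mem_coe.2 hw.1) hvw,
      hv.1, hw.1, hv.2, hw.2⟩

theorem coa_exI [Finite W] (h : IsSph3 H) (a : Col H) : ∃ c, (colH H).I a c := by
  obtain ⟨v, rfl⟩ | ⟨T, rfl⟩ := coa_cases a
  · obtain ⟨w, hw⟩ := (h.vert v).1.1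
    obtain ⟨T, c1, c2, c3, -⟩ := edge_tet h (hw v rfl)
    exact ⟨tR ⟨T, c2, c1⟩, c3⟩
  · have : T.1.Nonempty := by
      rw [← Finset.card_pos, T.2.1]
      norm_num
    obtain ⟨v, hv⟩ := this
    exact ⟨vL H v, hv⟩

/-- vertices: `h.conn`.  Tetrahedra: two tetrahedra with a common vertex `x` are joined by a path of
tetrahedra at `x` (the link of `x` is strongly connected, `surf_strong` or `sph_strong`), then `h.conn`. -/
theorem coa_con [Finite W] (h : IsSph3 H) (a b : Col H)
    (hab : (colH H).side a = (colH H).side b) : Relation.ReflTransGen (colH H).E a b := by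
  obtain ⟨v, rfl⟩ | ⟨T, rfl⟩ := coa_cases a <;> obtain ⟨w, rfl⟩ | ⟨T', rfl⟩ := coa_cases b
  · have h1 := h.conn.2 v (Set.mem_univ _) w (Set.mem_univ _)
    have h2 : ∀ x y, EIn H Set.univ x y → (colH H).E (vL H x) (vL H y) := fun x y e => e.1
    exact Relation.ReflTransGen.lift (vL H) h2 v w h1
  · exact absurd (show (true : Bool) = false from hab) (by simp)
  · exact absurd (show (false : Bool) = true from hab) Bool.false_ne_true
  · let F : Finset W → ZMod 2 := fun s => if ∃ hs : s.card = 4 ∧ H.IsClique (s : Set W),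
      Relation.ReflTransGen (colH H).E (tR T) (tR ⟨s, hs⟩) then 1 else 0
    have hstep : ∀ t : Finset W, H.IsClique (t : Set W) → t.card = 3 →
        ∀ z ∈ lkf H Set.univ t, ∀ z' ∈ lkf H Set.univ t,
        (∃ hs : (insert z t).card = 4 ∧ H.IsClique ((insert z t : Finset W) : Set W),
          Relation.ReflTransGen (colH H).E (tR T) (tR ⟨insert z t, hs⟩)) →
        ∃ hs : (insert z' t).card = 4 ∧ H.IsClique ((insert z' t : Finset W) : Set W),
          Relation.ReflTransGen (colH H).E (tR T) (tR ⟨insert z' t, hs⟩) := by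
      rintro t hc h3 z hz z' hz' ⟨hs, hr⟩
      rw [mem_lkf_univ] at hz hz'
      have hzt : z ∉ t := fun hh => H.irrefl (hz z hh)
      have hzt' : z' ∉ t := fun hh => H.irrefl (hz' z' hh)
      by_cases hne : z = z'
      · subst hne
        exact ⟨hs, hr⟩
      · have hs' : (insert z' t).card = 4 ∧ H.IsClique ((insert z' t : Finset W) : Set W) :=
          ⟨by rw [Finset.card_insert_of_notMem hzt', h3],
            clique_insert hc fun y hy => (hz' y hy).symm⟩
        refine ⟨hs', hr.tail ?_⟩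
        show (insert z t ∩ insert z' t).card = 3
        rw [← h3]
        congr 1
        ext y
        simp only [Finset.mem_inter, Finset.mem_insert]
        constructor
        · rintro ⟨rfl | h4, h5⟩
          · rcases h5 with h5 | h5
            · exact absurd h5 hne
            · exact h5
          · exact h4
        · exact fun h4 => ⟨Or.inr h4, Or.inr h4⟩
    have hF := sph_strong h h.conn F (fun t hc h3 _ z hz z' hz' => by
      show (if _ then (1 : ZMod 2) else 0) = if _ then 1 else 0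
      exact if_congr ⟨hstep t hc h3 z hz z' hz', hstep t hc h3 z' hz' z hz⟩ rfl rfl)
      T.2.2 T.2.1 (by
        have : T.1.Nonempty := by
          rw [← Finset.card_pos, T.2.1]
          norm_num
        exact ⟨this.choose, this.choose_spec, Set.mem_univ _⟩)
      T'.2.2 T'.2.1 (by
        have : T'.1.Nonempty := by
          rw [← Finset.card_pos, T'.2.1]
          norm_num
        exact ⟨this.choose, this.choose_spec, Set.mem_univ _⟩)
    have h1 : F T.1 = 1 := if_pos ⟨T.2, Relation.ReflTransGen.refl⟩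
    rw [h1] at hF
    by_contra hcon
    have h2 : F T'.1 = 0 := if_neg (by
      rintro ⟨hs, hr⟩
      exact hcon hr)
    rw [h2] at hF
    exact one_ne_zero hF

theorem colH_good [Finite W] (h : IsSph3 H) : (colH H).Good where
  three := coa_three h
  two := coa_two h
  uniq := coa_uniq h
  link := coa_link h
  ex := coa_ex h
  exI := coa_exI h
  con := coa_con h

instance [Finite W] : Finite (Col H) :=
  inferInstanceAs (Finite (W ⊕ {s : Finset W // s.card = 4 ∧ H.IsClique (s : Set W)}))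

end MOT.Pa
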