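import Pool.Agent.MOT.PtS
import Pool.Agent.MOT.PaCoa

/-!
# MOT/PtE: end theorem of block P
-/

open Classical

noncomputable section

namespace MOT.Pt

open MOT.Pa

section touch

variable {V : Type} {G : SimpleGraph V} {A Bc : Type} [Fintype Bc] {e1 e2 : Bc → A} {M : Set V}
  {U : Bc → Set V} {D : Bc → Set (Cq G)} {Lv : A → Set V} {Le : Bc → Set V} {top vc : V → A}

/-- the two sides of a disc have constant colours -/
theorem side_const (h : StrIn G e1 e2 M U D Lv Le top) (o : StrOut G e1 e2 M D Lv vc) (b : Bc) :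
    ∃ c c' : A, ({c, c'} : Set A) = {e1 b, e2 b} ∧ ∀ q ∈ D b, ∀ x ∈ q.1,
      (x ∈ U b → vc x = c) ∧ (x ∉ U b → vc x = c') := by
  have hne := h.ne b
  have hdisc : ∀ q : Cq G, q ∈ D b ↔ q ∈ mi G M ∧ (∃ x ∈ q.1, vc x = e1 b) ∧
      ∃ x ∈ q.1, vc x = e2 b := fun q => by
    rw [← o.disc b]; exact Iff.rfl
  -- same side, same colour
  have same : ∀ q ∈ D b, ∀ x ∈ q.1, ∀ y ∈ q.1, (x ∈ U b ↔ y ∈ U b) → vc x = vc y := by
    intro q hq x hx y hy hxy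
    by_contra hc
    obtain ⟨hM, ⟨u, hu, eu⟩, v, hv, ev⟩ := (hdisc q).1 hq
    have e : x ≠ y := fun e => hc (by rw [e])
    have hadj : G.Adj x y := q.2.2 (Finset.mem_coe.2 hx) (Finset.mem_coe.2 hy) e
    have hcol : ∀ z ∈ q.1, vc z = e1 b ∨ vc z = e2 b := by
      intro z hz
      by_contra hz'
      push Not at hz'
      have n1 : u ≠ z := fun e => hz'.1 (by rw [← e, eu])
      have n2 : v ≠ z := fun e => hz'.2 (by rw [← e, ev])
      have n3 : u ≠ v := fun e => hne (by rw [← eu, ← ev, e])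
      have a1 : EIn G M u v := ⟨q.2.2 (Finset.mem_coe.2 hu) (Finset.mem_coe.2 hv) n3, hM u hu, hM v hv⟩
      have a2 : EIn G M v z := ⟨q.2.2 (Finset.mem_coe.2 hv) (Finset.mem_coe.2 hz) n2, hM v hv, hM z hz⟩
      have a3 : EIn G M u z := ⟨q.2.2 (Finset.mem_coe.2 hu) (Finset.mem_coe.2 hz) n1, hM u hu, hM z hz⟩
      rcases o.two u v z a1 a2 a3 with k | k | k
      · exact hne (by rw [← eu, ← ev, k])
      · exact hz'.2 (by rw [← k, ev])
      · exact hz'.1 (by rw [← k, eu])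
    have hmem : ∀ z, z ∈ (eg G hadj).1 ↔ z = x ∨ z = y := by
      intro z
      show z ∈ ({x, y} : Finset V) ↔ _
      simp
    have hE : eg G hadj ∈ D b := by
      refine (hdisc _).2 ⟨?_, ?_⟩
      · intro z hz
        rcases (hmem z).1 hz with rfl | rfl
        · exact hM _ hx
        · exact hM _ hy
      · rcases hcol x hx with k | k <;> rcases hcol y hy with k' | k'
        · exact absurd (k.trans k'.symm) hc
        · exact ⟨⟨x, (hmem x).2 (Or.inl rfl), k⟩, y, (hmem y).2 (Or.inr rfl), k'⟩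
        · exact ⟨⟨y, (hmem y).2 (Or.inr rfl), k'⟩, x, (hmem x).2 (Or.inl rfl), k⟩
        · exact absurd (k.trans k'.symm) hc
    obtain ⟨⟨z, hz, hzU⟩, z', hz', hzU'⟩ := ((h.Dc b).sub hE).2
    have hzU2 : z' ∉ U b := hzU'
    rcases (hmem z).1 hz with rfl | rfl <;> rcases (hmem z').1 hz' with rfl | rfl
    · exact hzU2 hzU
    · exact hzU2 (hxy.1 hzU)
    · exact hzU2 (hxy.2 hzU)
    · exact hzU2 hzU
  have hmix : ∀ q ∈ D b, (∃ x ∈ q.1, x ∈ U b) ∧ ∃ x ∈ q.1, x ∉ U b := fun q hq =>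
    ((h.Dc b).sub hq).2
  obtain ⟨⟨q0, hq0⟩, hconn⟩ := Conn_iff.1 (h.Dc b).conn
  obtain ⟨⟨x0, hx0, hx0U⟩, y0, hy0, hy0U⟩ := hmix q0 hq0
  -- the colour of the inner side is constant
  have hc1 : ∀ q ∈ D b, ∀ x ∈ q.1, x ∈ U b → vc x = vc x0 := by
    intro q hq x hx hxU
    have h7 := hconn (fun q => if ∃ x ∈ q.1, x ∈ U b ∧ vc x = vc x0 then 1 else 0) (fun r r' hr => by
      have key : ∀ r r' : Cq G, r ∈ D b → r' ∈ D b → r ≤ r' →
          ((∃ x ∈ r.1, x ∈ U b ∧ vc x = vc x0) ↔ ∃ x ∈ r'.1, x ∈ U b ∧ vc x = vc x0) := by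
        intro r r' hr hr' hle
        constructor
        · rintro ⟨x, hx, h1, h2⟩
          exact ⟨x, hle hx, h1, h2⟩
        · rintro ⟨x, hx, h1, h2⟩
          obtain ⟨⟨z, hz, hzU⟩, _⟩ := hmix r hr
          exact ⟨z, hz, hzU, (same r' hr' z (hle hz) x hx ⟨fun _ => h1, fun _ => hzU⟩).trans h2⟩
      beta_reduce
      refine if_congr ?_ rfl rfl
      rcases hr.1 with k | k
      · exact key r r' hr.2.1 hr.2.2 k.le
      · exact (key r' r hr.2.2 hr.2.1 k.le).symm) q hq q0 hq0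
    beta_reduce at h7
    rw [if_pos (show ∃ x ∈ q0.1, x ∈ U b ∧ vc x = vc x0 from ⟨x0, hx0, hx0U, rfl⟩)] at h7
    by_contra hc
    rw [if_neg] at h7
    · exact absurd h7 (by decide)
    · rintro ⟨z, hz, hzU, e⟩
      exact hc ((same q hq x hx z hz ⟨fun _ => hzU, fun _ => hxU⟩).trans e)
  have hcol : ∀ q ∈ D b, ∀ x ∈ q.1, ∀ y ∈ q.1, x ∈ U b → y ∉ U b →
      ({vc x, vc y} : Set A) = {e1 b, e2 b} := by
    intro q hq x hx y hy hxU hyU
    obtain ⟨hM, ⟨u, hu, eu⟩, v, hv, ev⟩ := (hdisc q).1 hq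
    have side : ∀ z ∈ q.1, vc z = vc x ∨ vc z = vc y := by
      intro z hz
      by_cases hzU : z ∈ U b
      · exact Or.inl (same q hq z hz x hx ⟨fun _ => hxU, fun _ => hzU⟩)
      · exact Or.inr (same q hq z hz y hy ⟨fun h => absurd h hzU, fun h => absurd h hyU⟩)
    rcases side u hu with k1 | k1 <;> rcases side v hv with k2 | k2
    · exact absurd (eu.symm.trans (k1.trans (k2.symm.trans ev))) hne
    · rw [← k1, ← k2, eu, ev]
    · rw [← k1, ← k2, eu, ev, Set.pair_comm]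
    · exact absurd (eu.symm.trans (k1.trans (k2.symm.trans ev))) hne
  have h0 := hcol q0 hq0 x0 hx0 y0 hy0 hx0U hy0U
  refine ⟨vc x0, vc y0, h0, fun q hq x hx => ⟨fun hxU => hc1 q hq x hx hxU, fun hxU => ?_⟩⟩
  obtain ⟨⟨z, hz, hzU⟩, _⟩ := hmix q hq
  have h1 := hcol q hq z hz x hx hzU hxU
  rw [hc1 q hq z hz hzU, ← h0] at h1
  rcases Set.pair_eq_pair_iff.1 h1 with ⟨_, e⟩ | ⟨e, e'⟩
  · exact e
  · rw [e', e]

/-- both colours of `b` occur at vertices adjacent to the complement -/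
theorem touch (h : StrIn G e1 e2 M U D Lv Le top) (o : StrOut G e1 e2 M D Lv vc) (b : Bc) {a : A}
    (ha : a = e1 b ∨ a = e2 b) : ∃ x ∈ M, vc x = a ∧ ∃ y, y ∉ M ∧ G.Adj x y := by
  obtain ⟨c, c', hcc, hc⟩ := side_const h o b
  obtain ⟨q1, hq1, x1, hx1, hx1U, y1, hy1, hxy1⟩ := h.tch1 b
  obtain ⟨q2, hq2, x2, hx2, hx2U, y2, hy2, hxy2⟩ := h.tch2 b
  have m1 : x1 ∈ M := ((h.Dc b).sub hq1).1 x1 hx1
  have m2 : x2 ∈ M := ((h.Dc b).sub hq2).1 x2 hx2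
  have k1 : vc x1 = c := (hc q1 hq1 x1 hx1).1 hx1U
  have k2 : vc x2 = c' := (hc q2 hq2 x2 hx2).2 hx2U
  have h3 : a = c ∨ a = c' := by
    have : a ∈ ({e1 b, e2 b} : Set A) := by
      rcases ha with e | e
      · exact Or.inl e
      · exact Or.inr e
    rw [← hcc] at this
    rcases this with e | e
    · exact Or.inl e
    · exact Or.inr e
  rcases h3 with e | e
  · exact ⟨x1, m1, k1.trans e.symm, y1, hy1, hxy1⟩
  · exact ⟨x2, m2, k2.trans e.symm, y2, hy2, hxy2⟩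

end touch

section fin

variable {Vc V B B' : Type} {G : SimpleGraph V} {Gc : SimpleGraph Vc} {S P N : Set V}
  {D : B → Set (Cq G)} {F : B' → Set (Cq G)} {vc : V → Vc} {tt tt0 : V → Tt Gc}
  {e1 e2 : B → Vc} {f1 f2 : B' → Tt Gc} {ρ : Vc → ℕ} {ρ' : Tt Gc → ℕ}

/-- incidence of an edge and a triangle, by their ends -/
def Inc (Gc : SimpleGraph Vc) (e1 e2 : B → Vc) (f1 f2 : B' → Tt Gc) (b : B) (s : B') : Prop :=
  e1 b ∈ (f1 s).1 ∧ e1 b ∈ (f2 s).1 ∧ e2 b ∈ (f1 s).1 ∧ e2 b ∈ (f2 s).1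

theorem inl_iff {v w : Vc} : (Sum.inl v : Pa.Col Gc) = Sum.inl w ↔ v = w :=
  ⟨fun e => Sum.inl.inj e, fun e => by rw [e]⟩

theorem inr_iff {t u : Tt Gc} : (Sum.inr t : Pa.Col Gc) = Sum.inr u ↔ t = u :=
  ⟨fun e => Sum.inr.inj e, fun e => by rw [e]⟩

theorem TE_irrefl (t : Tt Gc) : ¬ TE Gc t t := by
  intro h
  have h1 : (t.1 ∩ t.1).card = 3 := h
  rw [Finset.inter_self, t.2.1] at h1
  omega

theorem pm1 {C : Type} (a b c d : C) : ({a, b, c, d} : Set C) = {b, a, c, d} := by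
  ext x
  simp only [Set.mem_insert_iff, Set.mem_singleton_iff]
  tauto

theorem pm2 {C : Type} (a b c d : C) : ({a, b, c, d} : Set C) = {a, b, d, c} := by
  ext x
  simp only [Set.mem_insert_iff, Set.mem_singleton_iff]
  tauto

/-- a point of the next level gives a simplex of `S` with the same colours -/
theorem pt_old (w : Wall G S P N) (hv : SCol G Gc.Adj e1 e2 (S ∪ P) D vc)
    (ht : SCol G (TE Gc) f1 f2 (S ∪ N) F tt) {b : B} {s : B'} {c : Cq (sd G)}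
    (hc : ({Sum.inl (e1 b), Sum.inl (e2 b), Sum.inr (f1 s), Sum.inr (f2 s)} : Set (Pa.Col Gc)) ⊆
      cols (kq G Gc S P vc tt ρ ρ') c) : ∃ q ∈ mi G S, q ∈ D b ∧ q ∈ F s := by
  have m1 : (Sum.inl (e1 b) : Pa.Col Gc) ∈ cols (kq G Gc S P vc tt ρ ρ') c := hc (Or.inl rfl)
  have m2 : (Sum.inl (e2 b) : Pa.Col Gc) ∈ cols (kq G Gc S P vc tt ρ ρ') c := hc (Or.inr (Or.inl rfl))
  have m3 : (Sum.inr (f1 s) : Pa.Col Gc) ∈ cols (kq G Gc S P vc tt ρ ρ') c := hc (Or.inr (Or.inr (Or.inl rfl)))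
  have m4 : (Sum.inr (f2 s) : Pa.Col Gc) ∈ cols (kq G Gc S P vc tt ρ ρ') c := hc (Or.inr (Or.inr (Or.inr rfl)))
  obtain ⟨r1, h1, h1X, k1⟩ := mem_inr.1 m3
  obtain ⟨r2, h2, h2X, k2⟩ := mem_inr.1 m4
  have hC : c ∈ Cu (sd G) (kq G Gc S P vc tt ρ ρ') (colH Gc) (Sum.inl (e1 b)) (Sum.inl (e2 b)) :=
    ⟨m1, m2, Sum.inr (f1 s), m3, fun e => Bool.false_ne_true e⟩
  obtain ⟨p1, ⟨p2, p2S⟩, p3, p4⟩ := cuk_spec w hv hC
  obtain ⟨q1, q2⟩ := p4 r1 h1 h1X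
  obtain ⟨q3, q4⟩ := p4 r2 h2 h2X
  have hT : tp c ∉ mi G (S ∪ P) := fun h => h1X (mi_dn (le_tp h1) h)
  obtain ⟨t1, t2⟩ := p4 _ (tp_mem c) hT
  obtain ⟨y, hy⟩ := (pi G S P c).2.1
  have hyS := p2S y hy
  have hp : tp c ∈ pl G S := ⟨y, t1 hy, hyS⟩
  refine ⟨tr S (tp c), tr_mem hp, ?_, ?_⟩
  · obtain ⟨_, d1, d2⟩ := (mem_disc hv).1 p2
    have hle : pi G S P c ≤ tr S (tp c) := Cq.le_iff.2 fun z hz => (tr_iff hp).2 ⟨t1 hz, p2S z hz⟩
    refine (mem_disc hv).2 ⟨fun z hz => Or.inl ((tr_mem hp) z hz), cols_mono hle d1,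
      cols_mono hle d2⟩
  · have key : ∀ r ∈ c.1, r ∉ mi G (S ∪ P) → cr G S tt ρ' r ∈ cols tt (tr S (tp c)) := by
      intro r hr hrX
      obtain ⟨u1, _⟩ := p4 r hr hrX
      have hpr : r ∈ pl G S := ⟨y, u1 hy, hyS⟩
      rw [cr_pos hpr]
      exact cols_mono (tr_mono hpr (le_tp hr)) (Pa.mx_mem _)
    refine (mem_disc ht).2 ⟨fun z hz => Or.inl ((tr_mem hp) z hz), ?_, ?_⟩
    · have := key r1 h1 h1X
      rwa [k1] at this
    · have := key r2 h2 h2X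
      rwa [k2] at this

/-- END THEOREM in terms of `SCol` -/
theorem pre_of [Finite V] (hG : IsSph3 G) (w : Wall G S P N)
    (hv : SCol G Gc.Adj e1 e2 (S ∪ P) D vc) (ht : SCol G (TE Gc) f1 f2 (S ∪ N) F tt)
    (hρ : Function.Injective ρ) (hρ' : Function.Injective ρ')
    (hX : Conn G (S ∪ P)) (hS : ∀ t, ∃ x ∈ S, tt x = t)
    (cls : ∀ s, Triv G (S ∪ N) (gam (F s) + wtt tt0 (f1 s) (f2 s)))
    (par : ∀ b s, Inc Gc e1 e2 f1 f2 b s →
      ¬ Triv (sd G) (D b ∩ mi G S) (pbk pk (wtt tt0 (f1 s) (f2 s))))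
    (loc : ∀ b s, ¬ Inc Gc e1 e2 f1 f2 b s → ∀ q ∈ mi G S, q ∈ D b → q ∉ F s) :
    Pa.Pre (sd G) (kq G Gc S P vc tt ρ ρ') (colH Gc) := by
  have h0 : Pre0 (sd G) (kq G Gc S P vc tt ρ ρ') (colH Gc) :=
    pre0 (scol_sd hv (fun a => Gc.irrefl) hρ) (scol_open hG w hX ht TE_irrefl hρ' hS)
  -- the two statements for the standard order of the colours
  have odd1 : ∀ (v v' : Vc) (t t' : Tt Gc), Gc.Adj v v' → TE Gc t t' →
      (v ∈ t.1 ∧ v ∈ t'.1 ∧ v' ∈ t.1 ∧ v' ∈ t'.1) →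
      Odd (Ex (sd G) (kq G Gc S P vc tt ρ ρ')
        {Sum.inl v, Sum.inl v', Sum.inr t, Sum.inr t'}).ncard := by
    intro v v' t t' hvv htt hin
    obtain ⟨b, hb⟩ := hv.ends.ex v v' hvv
    obtain ⟨s, hs⟩ := ht.ends.ex t t' htt
    have hne : f1 s ≠ f2 s := fun e => by
      have := ht.ends.e s
      rw [e] at this
      exact TE_irrefl _ this
    have hI : Inc Gc e1 e2 f1 f2 b s := by
      unfold Inc
      rcases Set.pair_eq_pair_iff.1 hb with ⟨i1, i2⟩ | ⟨i1, i2⟩ <;>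
        rcases Set.pair_eq_pair_iff.1 hs with ⟨j1, j2⟩ | ⟨j1, j2⟩ <;>
          (rw [← i1, ← i2, ← j1, ← j2]; tauto)
    have hset : ({Sum.inl v, Sum.inl v', Sum.inr t, Sum.inr t'} : Set (Pa.Col Gc)) =
        {Sum.inl (e1 b), Sum.inl (e2 b), Sum.inr (f1 s), Sum.inr (f2 s)} := by
      rcases Set.pair_eq_pair_iff.1 hb with ⟨i1, i2⟩ | ⟨i1, i2⟩ <;>
        rcases Set.pair_eq_pair_iff.1 hs with ⟨j1, j2⟩ | ⟨j1, j2⟩
      · rw [← i1, ← i2, ← j1, ← j2]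
      · rw [← i1, ← i2, ← j1, ← j2]; exact pm2 _ _ _ _
      · rw [← i1, ← i2, ← j1, ← j2]; exact pm1 _ _ _ _
      · rw [← i1, ← i2, ← j1, ← j2]; exact (pm1 _ _ _ _).trans (pm2 _ _ _ _)
    rw [hset]
    refine odd_of (sd_sph3 hG) h0 (a := Sum.inl (e1 b)) (b := Sum.inl (e2 b))
      (c := Sum.inr (f1 s)) (d := Sum.inr (f2 s)) (hv.ends.e b) (ht.ends.e s) (by
        rw [side_inl, side_inr]; exact Bool.noConfusion) ?_
    intro hT
    exact par b s hI (par_dn w hv ht hρ hne (cls s) hT)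
  have none1 : ∀ (v v' : Vc) (t t' : Tt Gc), Gc.Adj v v' → TE Gc t t' →
      ¬ (v ∈ t.1 ∧ v ∈ t'.1 ∧ v' ∈ t.1 ∧ v' ∈ t'.1) →
      Ex (sd G) (kq G Gc S P vc tt ρ ρ') {Sum.inl v, Sum.inl v', Sum.inr t, Sum.inr t'} = ∅ := by
    intro v v' t t' hvv htt hin
    obtain ⟨b, hb⟩ := hv.ends.ex v v' hvv
    obtain ⟨s, hs⟩ := ht.ends.ex t t' htt
    have hI : ¬ Inc Gc e1 e2 f1 f2 b s := by
      unfold Inc
      rcases Set.pair_eq_pair_iff.1 hb with ⟨i1, i2⟩ | ⟨i1, i2⟩ <;>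
        rcases Set.pair_eq_pair_iff.1 hs with ⟨j1, j2⟩ | ⟨j1, j2⟩ <;>
          (rw [← i1, ← i2, ← j1, ← j2]; tauto)
    have hset : ({Sum.inl v, Sum.inl v', Sum.inr t, Sum.inr t'} : Set (Pa.Col Gc)) =
        {Sum.inl (e1 b), Sum.inl (e2 b), Sum.inr (f1 s), Sum.inr (f2 s)} := by
      rcases Set.pair_eq_pair_iff.1 hb with ⟨i1, i2⟩ | ⟨i1, i2⟩ <;>
        rcases Set.pair_eq_pair_iff.1 hs with ⟨j1, j2⟩ | ⟨j1, j2⟩
      · rw [← i1, ← i2, ← j1, ← j2]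
      · rw [← i1, ← i2, ← j1, ← j2]; exact pm2 _ _ _ _
      · rw [← i1, ← i2, ← j1, ← j2]; exact pm1 _ _ _ _
      · rw [← i1, ← i2, ← j1, ← j2]; exact (pm1 _ _ _ _).trans (pm2 _ _ _ _)
    rw [hset]
    rw [Set.eq_empty_iff_forall_notMem]
    intro c hc
    obtain ⟨q, hqS, hqD, hqF⟩ := pt_old (ρ := ρ) (ρ' := ρ') w hv ht (b := b) (s := s) (c := c)
      (show cols (kq G Gc S P vc tt ρ ρ') c = _ from hc).ge
    exact loc b s hI q hqS hqD hqF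
  have hsw : ∀ a b c d : Pa.Col Gc, ({a, b, c, d} : Set (Pa.Col Gc)) = {c, d, a, b} := by
    intro a b c d
    ext x
    simp only [Set.mem_insert_iff, Set.mem_singleton_iff]
    tauto
  refine h0.pre ?_ ?_
  · rintro (a | a) (b | b) (c | c) (d | d) ⟨i1, i2, i3, i4, i5, i6⟩
    · exact absurd i3 id
    · exact absurd i3 id
    · exact absurd i2 id
    · exact odd1 a b c d i1 i2 ⟨i3, i4, i5, i6⟩
    · exact absurd i1 id
    · exact absurd i1 id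
    · exact absurd i1 id
    · exact absurd i1 id
    · exact absurd i1 id
    · exact absurd i1 id
    · exact absurd i1 id
    · exact absurd i1 id
    · rw [hsw]
      exact odd1 c d a b i2 i1 ⟨i3, i5, i4, i6⟩
    · exact absurd i2 id
    · exact absurd i3 id
    · exact absurd i3 id
  · rintro (a | a) (b | b) (c | c) (d | d) i1 i2 i3 i4
    · exact absurd rfl i3
    · exact absurd i2 id
    · exact absurd i2 id
    · exact none1 a b c d i1 i2 (fun h => i4 ⟨i1, i2, h.1, h.2.1, h.2.2.1, h.2.2.2⟩)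
    · exact absurd i1 id
    · exact absurd i1 id
    · exact absurd i1 id
    · exact absurd i1 id
    · exact absurd i1 id
    · exact absurd i1 id
    · exact absurd i1 id
    · exact absurd i1 id
    · rw [hsw]
      exact none1 c d a b i2 i1 (fun h => i4 ⟨i1, i2, h.1, h.2.2.1, h.2.1, h.2.2.2⟩)
    · exact absurd i2 id
    · exact absurd i2 id
    · exact absurd rfl i3

/-- every tetrahedron has a neighbour -/
theorem tet_nb [Finite Vc] (hGc : IsSph3 Gc) (t : Tt Gc) : ∃ t', TE Gc t t' := by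
  obtain ⟨c, hc⟩ := coa_exI hGc (Sum.inr t)
  have h1 := coa_three hGc (Sum.inr t) c hc
  have h2 : {b | (colH Gc).E (Sum.inr t) b ∧ (colH Gc).I b c}.Nonempty :=
    Set.nonempty_of_ncard_ne_zero (by rw [h1]; decide)
  obtain ⟨b, hb, _⟩ := h2
  rcases b with b | b
  · exact absurd hb id
  · exact ⟨b, hb⟩

/-- END THEOREM OF BLOCK P -/
theorem Pend [Finite V] [Finite Vc] [Fintype B] [Fintype B'] (hGc : IsSph3 Gc)
    (w : Wall G S P N) (he : EndOf Gc.Adj e1 e2) (hf : EndOf (TE Gc) f1 f2)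
    {U : B → Set V} {U' : B' → Set V} {Lv : Vc → Set V} {Le : B → Set V} {top : V → Vc}
    {Lt : Tt Gc → Set V} {Ls : B' → Set V}
    (hv : StrIn G e1 e2 (S ∪ P) U D Lv Le top) (ov : StrOut G e1 e2 (S ∪ P) D Lv vc)
    (ht : StrIn G f1 f2 (S ∪ N) U' F Lt Ls tt0) (ot : StrOut G f1 f2 (S ∪ N) F Lt tt)
    (par : ∀ b s, Inc Gc e1 e2 f1 f2 b s →
      ¬ Triv (sd G) (D b ∩ mi G S) (pbk pk (wtt tt0 (f1 s) (f2 s))))
    (loc : ∀ b s, ¬ Inc Gc e1 e2 f1 f2 b s → ∀ q ∈ mi G S, q ∈ D b → q ∉ F s) :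
    ∃ κ : Cq G → Pa.Col Gc, Pa.Pre (sd G) κ (colH Gc) ∧
      (∀ (q : Cq G) (v : Vc), κ q = Sum.inl v → q ∈ mi G (S ∪ P) ∧
        ∃ x ∈ q.1, x ∈ S ∪ P ∧ vc x = v) ∧
      ∀ (q : Cq G) (t : Tt Gc), κ q = Sum.inr t → q ∈ pl G N ∧
        ∃ x ∈ q.1, x ∈ S ∪ N ∧ tt x = t := by
  obtain ⟨n, ⟨ρ⟩⟩ := Finite.exists_equiv_fin Vc
  obtain ⟨n', ⟨ρ'⟩⟩ := Finite.exists_equiv_fin (Tt Gc)
  have hρ : Function.Injective (fun x => (ρ x).1 : Vc → ℕ) := fun a b h =>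
    ρ.injective (Fin.ext h)
  have hρ' : Function.Injective (fun x => (ρ' x).1 : Tt Gc → ℕ) := fun a b h =>
    ρ'.injective (Fin.ext h)
  have sv := scol_of hv ov he
  have st := scol_of ht ot hf
  have hS : ∀ t, ∃ x ∈ S, tt x = t := by
    intro t
    obtain ⟨t', htt⟩ := tet_nb hGc t
    obtain ⟨s, hs⟩ := hf.ex t t' htt
    have h1 : t = f1 s ∨ t = f2 s := by
      rcases Set.pair_eq_pair_iff.1 hs with ⟨i, _⟩ | ⟨i, _⟩
      · exact Or.inl i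
      · exact Or.inr i
    obtain ⟨x, hx, hxt, y, hy, hxy⟩ := touch ht ot s h1
    refine ⟨x, ?_, hxt⟩
    rcases hx with h | h
    · exact h
    · exfalso
      have hc : y ∈ S ∪ P ∪ N := by rw [w.cover]; trivial
      rcases hc with (h2 | h2) | h2
      · exact hy (Or.inl h2)
      · exact w.nadj y h2 x h hxy.symm
      · exact hy (Or.inr h2)
  refine ⟨kq G Gc S P vc tt (fun x => (ρ x).1) (fun x => (ρ' x).1),
    pre_of hv.sph w sv st hρ hρ' hv.cM hS ht.cls par loc, fun q v hq => ?_, fun q t hq => ?_⟩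
  · obtain ⟨h1, h2⟩ := kp_inl.1 hq
    obtain ⟨x, hx, e⟩ := Pa.mx_mem (κ := vc) (ρ := fun x => (ρ x).1) q
    exact ⟨h1, x, hx, h1 x hx, e.trans h2⟩
  · obtain ⟨h1, h2⟩ := kp_inr.1 hq
    rw [mi_compl w] at h1
    obtain ⟨x, hx, e⟩ := cr_mem (S := S) (tt := tt) (ρ := fun x => (ρ' x).1) q
    exact ⟨h1, x, hx, pl_sub w h1 x hx, e.trans h2⟩

end fin

end MOT.Pt
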