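import Pool.Agent.MOT.Sbb
import Pool.Agent.MOT.DuaB

/-!
# MOT/Sbc: structure theorem, part 3: the colour classes are balls
-/

open Classical

noncomputable section

namespace MOT

variable {V : Type} {G : SimpleGraph V} {A Bc : Type} [Fintype Bc] {e1 e2 : Bc → A} {M : Set V}
  {U : Bc → Set V} {D : Bc → Set (Cq G)} {Lv : A → Set V} {Le : Bc → Set V} {top : V → A}
  {vc : V → A}

/-- data of a colouring as produced by `StrIn.col` and `StrIn.cross` -/
structure IsCol (G : SimpleGraph V) (e1 e2 : Bc → A) (M : Set V) (D : Bc → Set (Cq G))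
    (Lv : A → Set V) (vc : V → A) : Prop where
  near : ∀ x ∈ M, ∃ y ∈ Lv (vc x), RC G M D x y
  anchor : ∀ a, ∀ x ∈ Lv a, vc x = a
  rc : ∀ x ∈ M, ∀ y ∈ M, vc x = vc y ↔ RC G M D x y
  cross : ∀ x y, EIn G M x y → (∀ b, gam (D b) x y = 1 → ({vc x, vc y} : Set A) = {e1 b, e2 b}) ∧
    ((∀ b, gam (D b) x y = 0) → vc x = vc y)

private theorem sbc_pair {p q u v : A} (h : ({u, v} : Set A) = {p, q}) :
    (u = p ∧ v = q) ∨ (u = q ∧ v = p) := Set.pair_eq_pair_iff.1 h

private theorem sbc_ne {a : ZMod 2} (h : ¬ a = 0) : a = 1 := by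
  revert h a
  decide

private theorem sbc_sub (h : StrIn G e1 e2 M U D Lv Le top) {b : Bc} {s : Cq G} (hs : s ∈ D b) :
    s ∈ mi G M ∩ Fr G (U b) := by
  obtain ⟨x, hx, e⟩ := h.Dc b
  rw [e] at hs
  exact hs.2

private theorem sbc_cl (h : StrIn G e1 e2 M U D Lv Le top) {b : Bc} {s t : Cq G} (hs : s ∈ D b)
    (ht : t ∈ mi G M ∩ Fr G (U b)) (hst : s ≤ t ∨ t ≤ s) : t ∈ D b := by
  by_cases he : s = t
  · rw [← he]; exact hs
  have hs' := sbc_sub h hs
  have hadj : (sd G).Adj s t := by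
    rcases hst with h1 | h1
    · exact Or.inl (lt_of_le_of_ne h1 he)
    · exact Or.inr (lt_of_le_of_ne h1 (Ne.symm he))
  obtain ⟨x, hx, e⟩ := h.Dc b
  rw [e] at hs ⊢
  exact ⟨hs.1.tail ⟨hadj, hs', ht⟩, ht⟩

private theorem sbc_uniq (h : StrIn G e1 e2 M U D Lv Le top) {b b' : Bc} {s : Cq G}
    (hs : s ∈ D b) (hs' : s ∈ D b') : b = b' := by
  by_contra hne
  obtain ⟨-, ⟨x, hx, hxU⟩, -⟩ := sbc_sub h hs
  obtain ⟨-, ⟨y, hy, hyU⟩, -⟩ := sbc_sub h hs'
  have hd := h.Ud b b' hne
  have hxy : x ≠ y := fun e => Set.disjoint_left.1 hd.1 hxU (e ▸ hyU)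
  exact hd.2 x hxU y hyU (s.2.2 (Finset.mem_coe.2 hx) (Finset.mem_coe.2 hy) hxy)

theorem StrIn.exists_col (h : StrIn G e1 e2 M U D Lv Le top) :
    ∃ vc : V → A, IsCol G e1 e2 M D Lv vc := by
  obtain ⟨vc, h1, h2, h3⟩ := h.col
  exact ⟨vc, h1, h2, h3, fun x y hxy => h.cross h1 h2 h3 hxy⟩

theorem IsCol.adj (h : StrIn G e1 e2 M U D Lv Le top) (c : IsCol G e1 e2 M D Lv vc) (x y : V)
    (hxy : EIn G M x y) : vc x = vc y ∨ ∃ b, ({vc x, vc y} : Set A) = {e1 b, e2 b} := by
  have h1 := c.cross x y hxy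
  by_cases h0 : ∀ b, gam (D b) x y = 0
  · exact Or.inl (h1.2 h0)
  · push Not at h0
    obtain ⟨b, hb⟩ := h0
    exact Or.inr ⟨b, h1.1 b (sbc_ne hb)⟩

/-- a triangle in `M` has at most two colours: three different colours need three edges in discs;
they are mixed for one and the same `U b` (far), but a triangle has at most two mixed edges -/
theorem IsCol.two (h : StrIn G e1 e2 M U D Lv Le top) (c : IsCol G e1 e2 M D Lv vc) (x y z : V)
    (hxy : EIn G M x y) (hyz : EIn G M y z) (hxz : EIn G M x z) :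
    vc x = vc y ∨ vc y = vc z ∨ vc x = vc z := by
  by_contra hcon
  push Not at hcon
  obtain ⟨n1, n2, n3⟩ := hcon
  have h0 : ¬ ∀ b, gam (D b) x y = 0 := fun h0 => n1 ((c.cross x y hxy).2 h0)
  push Not at h0
  obtain ⟨b, hb⟩ := h0
  have hb1 := sbc_ne hb
  have k1 := (c.cross x y hxy).1 b hb1
  have hco := h.gam_coc b hxy hyz hxz
  by_cases h2 : gam (D b) y z = 0
  · rw [hb1, h2, add_zero] at hco
    have k2 := (c.cross x z hxz).1 b hco.symm
    rcases sbc_pair (k1.trans k2.symm) with ⟨_, e⟩ | ⟨e, _⟩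
    · exact n2 e
    · exact n3 e
  · have k2 := (c.cross y z hyz).1 b (sbc_ne h2)
    rcases sbc_pair (k1.trans k2.symm) with ⟨e, _⟩ | ⟨e, _⟩
    · exact n1 e
    · exact n3 e

/-- the disc of `b` consists of all cliques in `M` with both colours.
Sketch: `⊆`: `q ∈ D b` contains `x ∈ U b`, `y ∉ U b`, the edge is in `D b`.  `⊇`: the edge between the
two colours is in some `D b'`, `b' = b` by `cross`, `simple`; `q` is mixed for `U b` and comparable
with the edge, so it is in the same component. -/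
theorem IsCol.disc (h : StrIn G e1 e2 M U D Lv Le top) (c : IsCol G e1 e2 M D Lv vc) (b : Bc) :
    {s : Cq G | s ∈ mi G M ∧ (∃ x ∈ s.1, vc x = e1 b) ∧ ∃ x ∈ s.1, vc x = e2 b} = D b := by
  ext q
  constructor
  · rintro ⟨hqM, ⟨x, hx, hxc⟩, y, hy, hyc⟩
    have hne : x ≠ y := by
      rintro rfl
      exact h.ne b (hxc.symm.trans hyc)
    have hxy : EIn G M x y :=
      ⟨q.2.2 (Finset.mem_coe.2 hx) (Finset.mem_coe.2 hy) hne, hqM x hx, hqM y hy⟩
    have h0 : ¬ ∀ b, gam (D b) x y = 0 := fun h0 => by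
      have := (c.cross x y hxy).2 h0
      rw [hxc, hyc] at this
      exact h.ne b this
    push Not at h0
    obtain ⟨b', hb'⟩ := h0
    have hb1 := sbc_ne hb'
    have k1 := (c.cross x y hxy).1 b' hb1
    rw [hxc, hyc] at k1
    have hbb := h.simple b b' k1
    subst hbb
    have hex : ∃ s ∈ D b, s.1 = {x, y} := by
      by_contra hno
      have : gam (D b) x y = 0 := if_neg hno
      rw [hb1] at this
      exact one_ne_zero this
    obtain ⟨s, hs, he⟩ := hex
    have hmix := (h.gam_one hb1).2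
    refine sbc_cl h hs ⟨hqM, ?_⟩ (Or.inl (Cq.le_iff.2 ?_))
    · rcases hmix with ⟨m1, m2⟩ | ⟨m1, m2⟩
      · exact ⟨⟨x, hx, m1⟩, ⟨y, hy, m2⟩⟩
      · exact ⟨⟨y, hy, m2⟩, ⟨x, hx, m1⟩⟩
    · rw [he]
      intro u hu
      rw [Finset.mem_insert, Finset.mem_singleton] at hu
      rcases hu with rfl | rfl
      · exact hx
      · exact hy
  · intro hq
    obtain ⟨hqM, ⟨x, hx, hxU⟩, ⟨y, hy, hyU⟩⟩ := sbc_sub h hq
    have hg := h.edge_mem hq hx hy hxU hyU
    have k1 := (c.cross x y (h.gam_one hg).1).1 b hg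
    refine ⟨hqM, ?_, ?_⟩
    · rcases sbc_pair k1 with ⟨k2, k3⟩ | ⟨k2, k3⟩
      · exact ⟨x, hx, k2⟩
      · exact ⟨y, hy, k3⟩
    · rcases sbc_pair k1 with ⟨k2, k3⟩ | ⟨k2, k3⟩
      · exact ⟨y, hy, k3⟩
      · exact ⟨x, hx, k2⟩

theorem IsCol.conn (h : StrIn G e1 e2 M U D Lv Le top) (c : IsCol G e1 e2 M D Lv vc) (a : A) :
    Conn G {x | x ∈ M ∧ vc x = a} := by
  refine ⟨?_, fun x hx y hy => ?_⟩
  · obtain ⟨x, hx⟩ := (h.LvC a).1
    exact ⟨x, h.LvM a hx, c.anchor a x hx⟩
  · have hr : RC G M D x y := (c.rc x hx.1 y hy.1).1 (hx.2.trans hy.2.symm)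
    have key : ∀ z, RC G M D x z → z ∈ {x | x ∈ M ∧ vc x = a} ∧
        Relation.ReflTransGen (EIn G {x | x ∈ M ∧ vc x = a}) x z := by
      intro z hz
      induction hz with
      | refl => exact ⟨hx, Relation.ReflTransGen.refl⟩
      | @tail u v _ e ih =>
        have h0 : ∀ b, gam (D b) u v = 0 := by
          intro b
          refine if_neg ?_
          rintro ⟨s, hs, he⟩
          exact e.2 b s hs he
        have h1 := (c.cross u v e.1).2 h0
        have h2 : v ∈ {x | x ∈ M ∧ vc x = a} := ⟨e.1.2.2, h1.symm.trans ih.1.2⟩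
        exact ⟨h2, ih.2.tail ⟨e.1.1, ih.1, h2⟩⟩
    exact (key y hr).2

/-- EXTENSION.  Every cocycle `a0` of `mi {vc = a}` is the restriction of a cocycle of `mi M` that is zero on
the edges in `mi {vc = a'}`, `a' ≠ a`.
Sketch: `mi M` is the disjoint union of the `mi {vc = a'}` and the `D b`.  For `b` at `a` the map
`r q := q ∩ {vc = a}` (`tr`) is monotone `D b → mi {vc = a}`, the pull back of `a0` is `dF` on `D b`
(`Dz`); put `F q + a0 (r q) s` on the pairs `s < q`, `s ∈ mi {vc = a}`, `q ∈ D b`, zero on all other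
pairs outside `mi {vc = a}`. -/
theorem IsCol.ext (h : StrIn G e1 e2 M U D Lv Le top) (c : IsCol G e1 e2 M D Lv vc) (a : A)
    {a0 : Cq G → Cq G → ZMod 2} (ha : a0 ∈ Z1 (sd G) (mi G {x | x ∈ M ∧ vc x = a})) :
    ∃ a1 ∈ Z1 (sd G) (mi G M), ∀ s t, EIn (sd G) (mi G {x | x ∈ M ∧ vc x = a}) s t →
      a1 s t = a0 s t := by
  obtain ⟨S, hS⟩ : ∃ S : Set V, S = {x | x ∈ M ∧ vc x = a} := ⟨_, rfl⟩
  rw [← hS] at ha ⊢
  obtain ⟨z0, zs, zc⟩ := mem_Z1.1 ha
  have hSM : S ⊆ M := by
    rw [hS]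
    exact fun x hx => hx.1
  -- the extended cochain with zero on the diagonal
  obtain ⟨a0t, ht⟩ : ∃ a0t : Cq G → Cq G → ZMod 2,
      a0t = fun u v => if u = v then 0 else a0 u v := ⟨_, rfl⟩
  have t_self : ∀ u, a0t u u = 0 := by
    intro u
    rw [ht]
    exact if_pos rfl
  have t_ne : ∀ u v, u ≠ v → a0t u v = a0 u v := by
    intro u v huv
    rw [ht]
    exact if_neg huv
  have t_symm : ∀ u v, a0t u v = a0t v u := by
    intro u v
    by_cases huv : u = v
    · rw [huv]
    · rw [t_ne u v huv, t_ne v u (Ne.symm huv), zs]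
  have t_chain : ∀ u v w, u ∈ mi G S → v ∈ mi G S → w ∈ mi G S → u ≤ v → v ≤ w →
      a0t u v + a0t v w = a0t u w := by
    intro u v w hu hv hw h1 h2
    by_cases e1 : u = v
    · rw [e1, t_self, zero_add]
    · by_cases e2 : v = w
      · rw [e2, t_self, add_zero]
      · have h3 : u < v := lt_of_le_of_ne h1 e1
        have h4 : v < w := lt_of_le_of_ne h2 e2
        rw [t_ne u v e1, t_ne v w e2, t_ne u w (h3.trans h4).ne]
        exact zc u v w ⟨Or.inl h3, hu, hv⟩ ⟨Or.inl h4, hv, hw⟩ ⟨Or.inl (h3.trans h4), hu, hw⟩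
  have hDS : ∀ b, (a = e1 b ∨ a = e2 b) → ∀ q ∈ D b, q ∈ pl G S := by
    intro b hb q hq
    have h1 : q ∈ {s : Cq G | s ∈ mi G M ∧ (∃ x ∈ s.1, vc x = e1 b) ∧ ∃ x ∈ s.1, vc x = e2 b} := by
      rw [c.disc h b]
      exact hq
    obtain ⟨hqM, ⟨x, hx, hxc⟩, ⟨y, hy, hyc⟩⟩ := h1
    rw [hS]
    rcases hb with hb | hb
    · exact ⟨x, hx, hqM x hx, hxc.trans hb.symm⟩
    · exact ⟨y, hy, hqM y hy, hyc.trans hb.symm⟩
  have hpot : ∀ b, ∃ F : Cq G → ZMod 2, (a = e1 b ∨ a = e2 b) → ∀ x y, EIn (sd G) (D b) x y →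
      a0t (tr S x) (tr S y) = F x + F y := by
    intro b
    by_cases hb : a = e1 b ∨ a = e2 b
    · have hz := h.Dz b (fun x y => if EIn (sd G) (D b) x y then a0t (tr S x) (tr S y) else 0) (by
        refine mem_Z1.2 ⟨fun x y e => if_neg e, fun x y => ?_, fun x y z e1' e2' e3' => ?_⟩
        · by_cases e : EIn (sd G) (D b) x y
          · show (if EIn (sd G) (D b) x y then a0t (tr S x) (tr S y) else 0) =
              if EIn (sd G) (D b) y x then a0t (tr S y) (tr S x) else 0
            rw [if_pos e, if_pos e.symm, t_symm]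
          · show (if EIn (sd G) (D b) x y then a0t (tr S x) (tr S y) else 0) =
              if EIn (sd G) (D b) y x then a0t (tr S y) (tr S x) else 0
            rw [if_neg e, if_neg fun e' => e e'.symm]
        · show (if EIn (sd G) (D b) x y then a0t (tr S x) (tr S y) else 0) +
            (if EIn (sd G) (D b) y z then a0t (tr S y) (tr S z) else 0) =
            if EIn (sd G) (D b) x z then a0t (tr S x) (tr S z) else 0
          rw [if_pos e1', if_pos e2', if_pos e3']
          have px := hDS b hb x e1'.2.1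
          have py := hDS b hb y e1'.2.2
          have pz := hDS b hb z e2'.2.2
          have mx := tr_mem px
          have my := tr_mem py
          have mz := tr_mem pz
          have C2 : ∀ u v w : ZMod 2, u + v = w → w + v = u := by decide
          have C3 : ∀ u v w : ZMod 2, u + v = w → u + w = v := by decide
          rcases e1'.1 with h1 | h1
          · rcases e2'.1 with h2 | h2
            · exact t_chain _ _ _ mx my mz (tr_mono px h1.le) (tr_mono py h2.le)
            · rcases e3'.1 with h3 | h3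
              · -- x < z < y
                have := t_chain _ _ _ mx mz my (tr_mono px h3.le) (tr_mono pz h2.le)
                rw [t_symm (tr S y) (tr S z)]
                exact C2 _ _ _ this
              · -- z < x < y
                have := t_chain _ _ _ mz mx my (tr_mono pz h3.le) (tr_mono px h1.le)
                rw [t_symm (tr S y) (tr S z), t_symm (tr S x) (tr S z), add_comm]
                exact C2 _ _ _ this
          · rcases e2'.1 with h2 | h2
            · rcases e3'.1 with h3 | h3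
              · -- y < x < z
                have := t_chain _ _ _ my mx mz (tr_mono py h1.le) (tr_mono px h3.le)
                rw [t_symm (tr S x) (tr S y)]
                exact C3 _ _ _ this
              · -- y < z < x
                have := t_chain _ _ _ my mz mx (tr_mono py h2.le) (tr_mono pz h3.le)
                rw [t_symm (tr S x) (tr S y), t_symm (tr S x) (tr S z), add_comm]
                exact C3 _ _ _ this
            · -- z < y < x
              have := t_chain _ _ _ mz my mx (tr_mono pz h2.le) (tr_mono py h1.le)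
              rw [t_symm (tr S x) (tr S y), t_symm (tr S y) (tr S z), t_symm (tr S x) (tr S z),
                add_comm]
              exact this)
      obtain ⟨F, hF⟩ := hz
      refine ⟨F, fun _ x y e => ?_⟩
      have := hF x y e
      have e' : (if EIn (sd G) (D b) x y then a0t (tr S x) (tr S y) else 0) = F x + F y := this
      rwa [if_pos e] at e'
    · exact ⟨0, fun hb' => absurd hb' hb⟩
  choose Fb hFb using hpot
  obtain ⟨F, hF⟩ : ∃ F : Cq G → ZMod 2, F = fun q =>
      if hq : ∃ b, q ∈ D b ∧ (a = e1 b ∨ a = e2 b) then Fb hq.choose q else 0 := ⟨_, rfl⟩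
  have F1 : ∀ b q, q ∈ D b → (a = e1 b ∨ a = e2 b) → F q = Fb b q := by
    intro b q hq hb
    have hex : ∃ b, q ∈ D b ∧ (a = e1 b ∨ a = e2 b) := ⟨b, hq, hb⟩
    have : F q = Fb hex.choose q := by
      rw [hF]
      exact dif_pos hex
    rw [this, sbc_uniq h hex.choose_spec.1 hq]
  have F0 : ∀ q ∈ mi G S, F q = 0 := by
    intro q hq
    rw [hF]
    refine dif_neg ?_
    rintro ⟨b, hqb, -⟩
    have h1 : q ∈ {s : Cq G | s ∈ mi G M ∧ (∃ x ∈ s.1, vc x = e1 b) ∧ ∃ x ∈ s.1, vc x = e2 b} := by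
      rw [c.disc h b]
      exact hqb
    obtain ⟨hqM, ⟨x, hx, hxc⟩, ⟨y, hy, hyc⟩⟩ := h1
    have k1 : x ∈ S := hq x hx
    have k2 : y ∈ S := hq y hy
    rw [hS] at k1 k2
    exact h.ne b (hxc.symm.trans (k1.2.trans (k2.2.symm.trans hyc)))
  -- a clique of `M` which meets `S` and is not inside `S` lies in a disc at `a`
  have hmixS : ∀ q ∈ mi G M, q ∈ pl G S → q ∉ mi G S → ∃ b, q ∈ D b ∧ (a = e1 b ∨ a = e2 b) := by
    rintro q hqM ⟨x, hx, hxS⟩ hqS
    have h1 : ∃ y ∈ q.1, y ∉ S := by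
      by_contra hno
      push Not at hno
      exact hqS hno
    obtain ⟨y, hy, hyS⟩ := h1
    have hne : x ≠ y := fun e => hyS (e ▸ hxS)
    have hxy : EIn G M x y :=
      ⟨q.2.2 (Finset.mem_coe.2 hx) (Finset.mem_coe.2 hy) hne, hqM x hx, hqM y hy⟩
    rw [hS] at hxS hyS
    have hcy : vc y ≠ a := fun e => hyS ⟨hxy.2.2, e⟩
    rcases c.adj h x y hxy with h2 | ⟨b, hb⟩
    · exact absurd (h2.symm.trans hxS.2) hcy
    · refine ⟨b, ?_, ?_⟩
      · rw [← c.disc h b]
        rcases sbc_pair hb with ⟨k1, k2⟩ | ⟨k1, k2⟩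
        · exact ⟨hqM, ⟨x, hx, k1⟩, ⟨y, hy, k2⟩⟩
        · exact ⟨hqM, ⟨y, hy, k2⟩, ⟨x, hx, k1⟩⟩
      · rcases sbc_pair hb with ⟨k1, k2⟩ | ⟨k1, k2⟩
        · exact Or.inl (hxS.2.symm.trans k1)
        · exact Or.inr (hxS.2.symm.trans k1)
  obtain ⟨be, hbe⟩ : ∃ be : Cq G → Cq G → ZMod 2, be = fun s q =>
      if s ∈ mi G S then F q + a0t (tr S q) s else 0 := ⟨_, rfl⟩
  have b1' : ∀ s q, s ∈ mi G S → be s q = F q + a0t (tr S q) s := by
    intro s q hs
    rw [hbe]
    exact if_pos hs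
  have b0' : ∀ s q, s ∉ mi G S → be s q = 0 := by
    intro s q hs
    rw [hbe]
    exact if_neg hs
  have chain : ∀ s t u, s ∈ mi G M → t ∈ mi G M → u ∈ mi G M → s < t → t < u →
      be s t + be t u = be s u := by
    intro s t u hs ht' hu h1 h2
    have h1' : s.1 ⊆ t.1 := h1.le
    have h2' : t.1 ⊆ u.1 := h2.le
    by_cases hsS : s ∈ mi G S
    · obtain ⟨x, hx⟩ := s.2.1
      have ptl : t ∈ pl G S := ⟨x, h1' hx, hsS x hx⟩
      have pul : u ∈ pl G S := ⟨x, h2' (h1' hx), hsS x hx⟩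
      have mt := tr_mem ptl
      have mu := tr_mem pul
      have hst : s ≤ tr S t := by
        have := tr_mono (M := S) (s := s) (t := t) (mi_sub_pl hsS) h1.le
        rwa [tr_id hsS] at this
      have hsu : s ≤ tr S u := by
        have := tr_mono (M := S) (s := s) (t := u) (mi_sub_pl hsS) (h1.trans h2).le
        rwa [tr_id hsS] at this
      have htu : tr S t ≤ tr S u := tr_mono ptl h2.le
      have q1 := t_chain _ _ _ hsS mt mu hst htu
      rw [b1' s t hsS, b1' s u hsS, t_symm (tr S t) s, t_symm (tr S u) s]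
      by_cases htS : t ∈ mi G S
      · rw [b1' t u htS, F0 t htS, zero_add, t_symm (tr S u) t]
        rw [tr_id htS] at q1 ⊢
        have : ∀ p q r f : ZMod 2, p + q = r → p + (f + q) = f + r := by decide
        exact this _ _ _ _ q1
      · rw [b0' t u htS, add_zero]
        obtain ⟨b, hb, hab⟩ := hmixS t ht' ptl htS
        have hub : u ∈ D b := by
          have h3 : t ∈ {s : Cq G | s ∈ mi G M ∧ (∃ x ∈ s.1, vc x = e1 b) ∧
              ∃ x ∈ s.1, vc x = e2 b} := by
            rw [c.disc h b]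
            exact hb
          rw [← c.disc h b]
          obtain ⟨-, ⟨x1, hx1, hc1⟩, ⟨x2, hx2, hc2⟩⟩ := h3
          exact ⟨hu, ⟨x1, h2' hx1, hc1⟩, ⟨x2, h2' hx2, hc2⟩⟩
        have q2 := hFb b hab t u ⟨Or.inl h2, hb, hub⟩
        rw [F1 b t hb hab, F1 b u hub hab]
        have : ∀ p q r f g : ZMod 2, p + q = r → q = f + g → f + p = g + r := by decide
        exact this _ _ _ _ _ q1 q2
    · have htS : t ∉ mi G S := fun h3 => hsS fun x hx => h3 x (h1' hx)
      rw [b0' s t hsS, b0' t u htS, b0' s u hsS, add_zero]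
  refine ⟨fun s t => if EIn (sd G) (mi G M) s t then (if s < t then be s t else be t s) else 0,
    mem_Z1.2 ⟨fun s t e => if_neg e, fun s t => ?_, fun x y z e1' e2' e3' => ?_⟩,
    fun s t e => ?_⟩
  · show (if EIn (sd G) (mi G M) s t then (if s < t then be s t else be t s) else 0) =
      if EIn (sd G) (mi G M) t s then (if t < s then be t s else be s t) else 0
    by_cases e : EIn (sd G) (mi G M) s t
    · rw [if_pos e, if_pos e.symm]
      rcases e.1 with h1 | h1
      · rw [if_pos h1, if_neg (lt_asymm h1)]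
      · rw [if_pos h1, if_neg (lt_asymm h1)]
    · rw [if_neg e, if_neg fun e' => e e'.symm]
  · show (if EIn (sd G) (mi G M) x y then (if x < y then be x y else be y x) else 0) +
      (if EIn (sd G) (mi G M) y z then (if y < z then be y z else be z y) else 0) =
      if EIn (sd G) (mi G M) x z then (if x < z then be x z else be z x) else 0
    rw [if_pos e1', if_pos e2', if_pos e3']
    have mx := e1'.2.1
    have my := e1'.2.2
    have mz := e2'.2.2
    have C2 : ∀ u v w : ZMod 2, u + v = w → w + v = u := by decide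
    have C3 : ∀ u v w : ZMod 2, u + v = w → u + w = v := by decide
    rcases e1'.1 with h1 | h1
    · rw [if_pos h1]
      rcases e2'.1 with h2 | h2
      · rw [if_pos h2, if_pos (h1.trans h2)]
        exact chain _ _ _ mx my mz h1 h2
      · rw [if_neg (lt_asymm h2)]
        rcases e3'.1 with h3 | h3
        · rw [if_pos h3]
          exact C2 _ _ _ (chain _ _ _ mx mz my h3 h2)
        · rw [if_neg (lt_asymm h3), add_comm]
          exact C2 _ _ _ (chain _ _ _ mz mx my h3 h1)
    · rw [if_neg (lt_asymm h1)]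
      rcases e2'.1 with h2 | h2
      · rw [if_pos h2]
        rcases e3'.1 with h3 | h3
        · rw [if_pos h3]
          exact C3 _ _ _ (chain _ _ _ my mx mz h1 h3)
        · rw [if_neg (lt_asymm h3), add_comm]
          exact C3 _ _ _ (chain _ _ _ my mz mx h2 h3)
      · rw [if_neg (lt_asymm h2), if_neg (lt_asymm (h2.trans h1)), add_comm]
        exact chain _ _ _ mz my mx h2 h1
  · have e' : EIn (sd G) (mi G M) s t := e.mono (mi_mono hSM)
    show (if EIn (sd G) (mi G M) s t then (if s < t then be s t else be t s) else 0) = a0 s t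
    rw [if_pos e']
    rcases e.1 with h1 | h1
    · rw [if_pos h1, b1' s t e.2.1, F0 t e.2.2, tr_id e.2.2, zero_add, t_ne t s h1.ne', zs]
    · rw [if_neg (lt_asymm h1), b1' t s e.2.2, F0 s e.2.1, tr_id e.2.1, zero_add,
        t_ne s t h1.ne']

/-- Sketch: `a0` in `Z1 {vc = a}`; go to `sd` (`upc`), extend to `mi M`, come back (`dnc`): a class of `M`,
by `span` a combination of the `w b`, by `cls` of the `gam (D b)`, which are zero on the edges in
`{vc = a}`.  (`sd_HZ`, `Triv_upc`, `Triv_dnc`, `upc_dnc`.) -/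
theorem IsCol.hz (h : StrIn G e1 e2 M U D Lv Le top) (c : IsCol G e1 e2 M D Lv vc) (a : A) :
    HZ G {x | x ∈ M ∧ vc x = a} := by
  intro a0 ha0
  have hSM : {x | x ∈ M ∧ vc x = a} ⊆ M := fun x hx => hx.1
  obtain ⟨a1, ha1, hext⟩ := c.ext h a (upc_mem ha0)
  obtain ⟨cc, hcc⟩ := h.span _ (dnc_mem ha1)
  have hg : Triv G M (lc cc (fun b => wtt top (e1 b) (e2 b)) + lc cc (fun b => gam (D b))) := by
    choose f hf using h.cls
    refine ⟨fun x => ∑ b, cc b * f b x, fun x y e => ?_⟩
    have h1 : ∀ b, gam (D b) x y + wtt top (e1 b) (e2 b) x y = f b x + f b y :=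
      fun b => hf b x y e
    show (∑ b, cc b * wtt top (e1 b) (e2 b) x y) + (∑ b, cc b * gam (D b) x y) =
      (∑ b, cc b * f b x) + ∑ b, cc b * f b y
    rw [← Finset.sum_add_distrib, ← Finset.sum_add_distrib]
    refine Finset.sum_congr rfl fun b _ => ?_
    rw [← mul_add, ← mul_add, ← h1 b, add_comm (wtt top (e1 b) (e2 b) x y)]
  have h3 : Triv G {x | x ∈ M ∧ vc x = a} (dnc G M a1) := by
    refine ((hcc.add hg).mono hSM).congr fun x y e => ?_
    have h4 : lc cc (fun b => gam (D b)) x y = 0 := by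
      refine Finset.sum_eq_zero fun b _ => ?_
      have h5 : gam (D b) x y = 0 := by
        by_contra hne
        have k1 := (c.cross x y (e.mono hSM)).1 b (sbc_ne hne)
        rcases sbc_pair k1 with ⟨k2, k3⟩ | ⟨k2, k3⟩
        · exact h.ne b (k2.symm.trans (e.2.1.2.trans (e.2.2.2.symm.trans k3)))
        · exact h.ne b (k3.symm.trans (e.2.2.2.trans (e.2.1.2.symm.trans k2)))
      show cc b * gam (D b) x y = 0
      rw [h5, mul_zero]
    show dnc G M a1 x y + lc cc (fun b => wtt top (e1 b) (e2 b)) x y +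
      (lc cc (fun b => wtt top (e1 b) (e2 b)) x y + lc cc (fun b => gam (D b)) x y) =
      dnc G M a1 x y
    rw [h4]
    have : ∀ p q : ZMod 2, p + q + (q + 0) = p := by decide
    exact this _ _
  have h4 := (Triv_dnc ha1 hSM).1 h3
  exact (Triv_upc ha0 subset_rfl).1 (h4.congr hext)

/-- Sketch: `Mᶜ` is connected and every `{vc = a'}`, `a' ≠ a`, is connected and has a vertex adjacent
to `Mᶜ`: `graph` gives an edge `b` at `a'` (if `A` has two elements), both sides of `D b` touch `Mᶜ`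
(`tch1`, `tch2`) and one of them has colour `a'`. -/
theorem IsCol.cconn (h : StrIn G e1 e2 M U D Lv Le top) (c : IsCol G e1 e2 M D Lv vc) (a : A) :
    Conn G {x | x ∈ M ∧ vc x = a}ᶜ := by
  obtain ⟨y0, hy0⟩ := h.cN.1
  have hMS : Mᶜ ⊆ {x | x ∈ M ∧ vc x = a}ᶜ := fun x hx hx' => hx hx'.1
  -- every other class touches the complement of `M`
  have htouch : ∀ a', a' ≠ a → ∃ x y, x ∈ M ∧ vc x = a' ∧ y ∉ M ∧ G.Adj x y := by
    intro a' hne
    have hb : ∃ b, a' = e1 b ∨ a' = e2 b := by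
      by_contra hno
      push Not at hno
      by_cases hB : Nonempty Bc
      · obtain ⟨b0⟩ := hB
        have := h.graph b0 (fun z => if z = a' then 1 else 0) (fun b' _ => by
          show (if e1 b' = a' then (1 : ZMod 2) else 0) = if e2 b' = a' then 1 else 0
          rw [if_neg (Ne.symm (hno b').1), if_neg (Ne.symm (hno b').2)]) a a'
        have h1 : (if a = a' then (1 : ZMod 2) else 0) = if a' = a' then 1 else 0 := this
        rw [if_neg (Ne.symm hne), if_pos rfl] at h1
        exact zero_ne_one h1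
      · obtain ⟨x, hx⟩ := (h.LvC a).1
        obtain ⟨y, hy⟩ := (h.LvC a').1
        have hp := h.cM.2 x (h.LvM a hx) y (h.LvM a' hy)
        have key : ∀ z, Relation.ReflTransGen (EIn G M) x z → top z = top x := by
          intro z hz
          induction hz with
          | refl => rfl
          | @tail u v _ e ih =>
            rcases h.t1 u v e with h1 | ⟨b, _⟩
            · exact h1.symm.trans ih
            · exact absurd ⟨b⟩ hB
        have := key y hp
        rw [h.Lvt a x hx, h.Lvt a' y hy] at this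
        exact hne this
    obtain ⟨b, hb⟩ := hb
    obtain ⟨q, hq, x, hx, hxU, y, hyM, hxy⟩ := h.tch1 b
    obtain ⟨q', hq', x', hx', hxU', y', hyM', hxy'⟩ := h.tch2 b
    obtain ⟨hqM, -, -⟩ := sbc_sub h hq
    obtain ⟨hqM', ⟨u', hu', huU'⟩, -⟩ := sbc_sub h hq'
    have hside : RC G M D x u' := h.side b hq hq' hx hu' ⟨fun _ => huU', fun _ => hxU⟩
    have hcol : vc x = vc u' := (c.rc x (hqM x hx) u' (hqM' u' hu')).2 hside
    have hg := h.edge_mem hq' hu' hx' huU' hxU'
    have k1 := (c.cross u' x' (h.gam_one hg).1).1 b hg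
    rw [← hcol] at k1
    have : vc x = a' ∨ vc x' = a' := by
      rcases sbc_pair k1 with ⟨k2, k3⟩ | ⟨k2, k3⟩
      · rcases hb with hb | hb
        · exact Or.inl (k2.trans hb.symm)
        · exact Or.inr (k3.trans hb.symm)
      · rcases hb with hb | hb
        · exact Or.inr (k3.trans hb.symm)
        · exact Or.inl (k2.trans hb.symm)
    rcases this with h1 | h1
    · exact ⟨x, y, hqM x hx, h1, hyM, hxy⟩
    · exact ⟨x', y', hqM' x' hx', h1, hyM', hxy'⟩
  have key : ∀ z ∈ {x | x ∈ M ∧ vc x = a}ᶜ,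
      Relation.ReflTransGen (EIn G {x | x ∈ M ∧ vc x = a}ᶜ) y0 z := by
    intro z hz
    by_cases hzM : z ∈ M
    · have hza : vc z ≠ a := fun e => hz ⟨hzM, e⟩
      obtain ⟨x, y, hxM, hxc, hyM, hxy⟩ := htouch (vc z) hza
      have h1 := rtg_mono hMS (h.cN.2 y0 hy0 y hyM)
      have hsub : {x | x ∈ M ∧ vc x = vc z} ⊆ {x | x ∈ M ∧ vc x = a}ᶜ := by
        intro w hw hw'
        exact hza (hw.2.symm.trans hw'.2)
      have h2 := rtg_mono hsub ((c.conn h (vc z)).2 x ⟨hxM, hxc⟩ z ⟨hzM, rfl⟩)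
      exact (h1.tail ⟨hxy.symm, hMS hyM, hsub ⟨hxM, hxc⟩⟩).trans h2
    · exact rtg_mono hMS (h.cN.2 y0 hy0 z hzM)
  exact ⟨⟨y0, hMS hy0⟩, fun x hx y hy => (rtg_symm (key x hx)).trans (key y hy)⟩

/-- STRUCTURE THEOREM (`dual` for the complement) -/
theorem structure_thm [Finite V] (h : StrIn G e1 e2 M U D Lv Le top) :
    ∃ vc : V → A, StrOut G e1 e2 M D Lv vc := by
  obtain ⟨vc, c⟩ := h.exists_col
  refine ⟨vc, c.anchor, c.adj h, c.two h, c.disc h, c.conn h, c.hz h, c.cconn h, fun a => ?_⟩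
  rw [← b1_eq_zero, ← dual h.sph (c.conn h a) (c.cconn h a), b1_eq_zero]
  exact c.hz h a

end MOT
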