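import Pool.Agent.MOT.SvC

/-!
# MOT/SvE: control of the colour classes of the structure theorem (other side, tetrahedra)
-/

open Classical

noncomputable section

namespace MOT

variable {Vc V : Type} {Gc : SimpleGraph Vc} {G : SimpleGraph V} {b : BaseU Gc G} {S Y : Set V}
  {J : Type} {F : Fc Gc → Set (Cq G)} {tt : V → Te Gc}

/-- input on one level: `Y` = closed side of `S` towards the dual graph, `tt` = colouring of `Y` by the
structure theorem, `F s` = disc of the triangle `s` -/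
structure CtlT (hc : IsSph3 Gc) (b : BaseU Gc G) (S Y : Set V) (P : PcsU b S J)
    (F : Fc Gc → Set (Cq G)) (tt : V → Te Gc) : Prop where
  SY : S ⊆ Y
  bdry : ∀ x y, x ∈ Y → y ∉ Y → G.Adj x y → x ∈ S
  YB : Disjoint Y b.B
  out : StrOut G (cS1 hc) (cS2 hc) Y F b.Lt tt
  cne : ∀ s, ∃ q ∈ F s, q ∈ mi G S
  i1 : ∀ s, ∀ q ∈ F s, q ∈ mi G S → ∀ x ∈ q.1, s.q ∈ b.cr x
  i2 : ∀ s, ∀ q ∈ F s, ∀ x ∈ q.1, x ∈ b.Ns (nb Gc (s.1 : Set Vc))

private theorem sve_exit {A K : Set V} {x x' : V} (r : Relation.ReflTransGen (EIn G A) x x')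
    (hx : x ∈ K) (hx' : x' ∉ K) : ∃ y z, y ∈ K ∧ z ∉ K ∧ EIn G A y z := by
  induction r with
  | refl => exact absurd hx hx'
  | @tail b c r e ih =>
    by_cases hb : b ∈ K
    · exact ⟨b, c, hb, hx', e⟩
    · exact ih hb

private theorem sve_eg {A : Set V} {x y : V} (e : G.Adj x y) (hx : x ∈ A) (hy : y ∈ A) :
    eg G e ∈ mi G A := by
  intro u hu
  have hu' : u = x ∨ u = y := by
    have : u ∈ ({x, y} : Finset V) := hu
    simpa using this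
  rcases hu' with rfl | rfl
  · exact hx
  · exact hy

/-- an edge of `Y` with two colours is an element of some `F s` -/
theorem CtlT.edge {hc : IsSph3 Gc} {P : PcsU b S J} (h : CtlT hc b S Y P F tt) {x y : V}
    (hxy : EIn G Y x y) (hne : tt x ≠ tt y) :
    ∃ s : Fc Gc, s.1 ⊆ (tt x).1 ∧ s.1 ⊆ (tt y).1 ∧ eg G hxy.1 ∈ F s := by
  rcases h.out.adj x y hxy with h1 | ⟨s, he⟩
  · exact absurd h1 hne
  have hx : tt x = cS1 hc s ∨ tt x = cS2 hc s := by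
    have : tt x ∈ ({cS1 hc s, cS2 hc s} : Set (Te Gc)) := by rw [← he]; exact Set.mem_insert _ _
    simpa using this
  have hy : tt y = cS1 hc s ∨ tt y = cS2 hc s := by
    have : tt y ∈ ({cS1 hc s, cS2 hc s} : Set (Te Gc)) := by
      rw [← he]; exact Set.mem_insert_of_mem _ rfl
    simpa using this
  have mx : x ∈ (eg G hxy.1).1 := Finset.mem_insert_self x {y}
  have my : y ∈ (eg G hxy.1).1 := Finset.mem_insert_of_mem (Finset.mem_singleton_self y)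
  refine ⟨s, ?_, ?_, ?_⟩
  · rcases hx with hx | hx <;> rw [hx]
    · exact cS_sub1 hc s
    · exact cS_sub2 hc s
  · rcases hy with hy | hy <;> rw [hy]
    · exact cS_sub1 hc s
    · exact cS_sub2 hc s
  · rw [← h.out.disc s]
    refine ⟨sve_eg hxy.1 hxy.2.1 hxy.2.2, ?_, ?_⟩
    · rcases hx with hx | hx
      · exact ⟨x, mx, hx⟩
      · rcases hy with hy | hy
        · exact ⟨y, my, hy⟩
        · exact absurd (hx.trans hy.symm) hne
    · rcases hx with hx | hx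
      · rcases hy with hy | hy
        · exact absurd (hx.trans hy.symm) hne
        · exact ⟨y, my, hy⟩
      · exact ⟨x, mx, hx⟩

/-- no curve `Cv j` lies in one class.  The class `{x ∈ Y | tt x = t}` is `HZ` and misses `B ⊇ Bd s`, so
`ws s` is trivial on it; `cw` for a triangle `s` at the edge `ej j` (`Ec.tri`) -/
theorem CtlT.curve [Finite Vc] {hc : IsSph3 Gc} {P : PcsU b S J} (h : CtlT hc b S Y P F tt) (j : J)
    (t : Te Gc) : ∃ x ∈ P.Cv j, tt x ≠ t := by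
  by_contra hcon
  push Not at hcon
  obtain ⟨s, z, -, hs'⟩ := e_tri hc (P.ej j)
  have hs : (P.ej j).1 ⊆ s.1 := by rw [hs']; exact Finset.subset_insert _ _
  have hsub : P.Cv j ⊆ {x | x ∈ Y ∧ tt x = t} := fun x hx =>
    ⟨h.SY (P.pcs.csub j hx), hcon x hx⟩
  have hd : Disjoint {x | x ∈ Y ∧ tt x = t} (b.Bd s) := by
    rw [Set.disjoint_left]
    rintro x ⟨hxY, -⟩ hxB
    exact Set.disjoint_left.1 h.YB hxY (b.Lb_B s (b.Bd_Lb s hxB))
  have h1 := h.out.hz t _ ((b.ws_coc s).CocO.rs_mem hd)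
  exact (P.cw j s).1 ((Triv_rs.1 h1).mono hsub) hs

/-- CONTROL ON `S`: every vertex of `S` lies in a piece near a triangle of its tetrahedron.
`x ∈ Pc i`, `K` = component of `x` in `{y ∈ S ∩ Pc i | tt y = tt x}`, `K ≠ S` by `cne`; exit `(y, z)`.
`tt y ≠ tt z`: `edge`, `i1`, `rel`.  Otherwise `z ∉ Pc i`, `y ∈ Cv j ⊆ Pc i`; by `curve` walk along `Cv j` from
`y` to an edge `(y', z')` with `tt y' = tt x ≠ tt z'`: `edge`, `i1`, `rel` at `y' ∈ Pc i`. -/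
theorem CtlT.onS [Finite Vc] {hc : IsSph3 Gc} {P : PcsU b S J} (h : CtlT hc b S Y P F tt) {x : V}
    (hx : x ∈ S) : ∃ i, ∃ s : Fc Gc, s.1 ⊆ (tt x).1 ∧ cvI i ⊆ s.1 ∧ x ∈ P.Pc i := by
  have s0 : Fc Gc := (e_tri hc (v_e hc hc.conn.1.some).choose).choose
  have hx' : ∃ x' ∈ S, tt x' ≠ tt x := by
    obtain ⟨q, hq, hqS⟩ := h.cne s0
    rw [← h.out.disc s0] at hq
    obtain ⟨-, ⟨u, hu, hu1⟩, w, hw, hw2⟩ := hq
    by_cases hv : tt u = tt x
    · refine ⟨w, hqS w hw, fun hv' => cS_ne hc s0 ?_⟩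
      rw [← hu1, ← hw2, hv, hv']
    · exact ⟨u, hqS u hu, hv⟩
  obtain ⟨i, hi⟩ := P.pcs.cover x hx
  obtain ⟨x', hx', hv⟩ := hx'
  have hxK : x ∈ comp G {y | y ∈ S ∧ y ∈ P.Pc i ∧ tt y = tt x} x :=
    ⟨Relation.ReflTransGen.refl, hx, hi, rfl⟩
  have hx'K : x' ∉ comp G {y | y ∈ S ∧ y ∈ P.Pc i ∧ tt y = tt x} x := fun hk => hv hk.2.2.2
  obtain ⟨y, z, hy, hz, e⟩ := sve_exit (P.pcs.cS.2 x hx x' hx') hxK hx'K
  have hyi : y ∈ P.Pc i := hy.2.2.1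
  have hyc : tt y = tt x := hy.2.2.2
  have h2 : ∀ s : Fc Gc, 2 ≤ s.q.1.card := by
    intro s
    show 2 ≤ s.1.card
    rw [s.2.1]; norm_num
  by_cases hcc : tt y = tt z
  · have hzi : z ∉ P.Pc i := by
      intro hzi
      exact hz ⟨hy.1.tail ⟨e.1, hy.2, e.2.2, hzi, hcc.symm.trans hyc⟩, e.2.2, hzi,
        hcc.symm.trans hyc⟩
    obtain ⟨j, hj⟩ := P.pcs.fro i y hyi z e.2.2 hzi e.1
    have hji := P.pcs.cin i j y hj hyi
    obtain ⟨x1, hx1, hx1t⟩ := h.curve j (tt x)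
    obtain ⟨y', z', hy', hz', e'⟩ := sve_exit (K := {u | tt u = tt x})
      ((P.pcs.cc j).2 y hj x1 hx1) hyc hx1t
    have hy't : tt y' = tt x := hy'
    have hS : EIn G S y' z' := e'.mono (P.pcs.csub j)
    obtain ⟨s, h3, -, h4⟩ := h.edge (hS.mono h.SY) (fun h5 => hz' (h5.symm.trans hy't))
    refine ⟨i, s, hy't ▸ h3, P.rel i y' (hji e'.2.1) s.q ?_ (h2 s), hi⟩
    exact h.i1 s _ h4 (sve_eg hS.1 hS.2.1 hS.2.2) y' (Finset.mem_insert_self y' {z'})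
  · obtain ⟨s, h3, -, h4⟩ := h.edge (e.mono h.SY) hcc
    refine ⟨i, s, hyc ▸ h3, P.rel i y hyi s.q ?_ (h2 s), hi⟩
    exact h.i1 s _ h4 (sve_eg e.1 e.2.1 e.2.2) y (Finset.mem_insert_self y {z})

/-- CONTROL: the class of the tetrahedron `t` is near `t` (`far_B` with `Z = nb t`; `B` misses `Y`) -/
theorem CtlT.near [Finite Vc] {hc : IsSph3 Gc} {P : PcsU b S J} (h : CtlT hc b S Y P F tt) {x : V}
    (hx : x ∈ Y) : x ∈ b.Ns (nbk Gc 2 ((tt x).1 : Set Vc)) := by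
  by_contra hn
  obtain ⟨y, hyB, hr⟩ := b.far_B (nbk Gc 1 ((tt x).1 : Set Vc)) x
    (fun τ hτ hsub => hn ⟨τ, hτ, hsub⟩)
  obtain ⟨u, w, hu, hw, e⟩ := sve_exit (K := {z | z ∈ Y ∧ tt z = tt x}) hr ⟨hx, rfl⟩
    (fun h' => Set.disjoint_left.1 h.YB h'.1 hyB)
  have hsm : ∀ {A : Finset Vc} {s : Fc Gc}, s.1 ⊆ (tt u).1 → A ⊆ s.1 →
      nb Gc (A : Set Vc) ⊆ nbk Gc 1 ((tt x).1 : Set Vc) := by
    intro A s h1 h2
    rw [← hu.2]
    exact nb_mono' (Finset.coe_subset.2 (h2.trans h1))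
  by_cases hwY : w ∈ Y
  · have hne : tt u ≠ tt w := fun h5 => hw ⟨hwY, h5.symm.trans hu.2⟩
    obtain ⟨s, h3, -, h4⟩ := h.edge ⟨e.1, hu.1, hwY⟩ hne
    obtain ⟨τ, hτ, hsub⟩ := Ns_mono (hsm h3 subset_rfl)
      (h.i2 s _ h4 u (Finset.mem_insert_self u {w}))
    exact e.2.1 τ hτ hsub
  · obtain ⟨i, s, h3, h4, h5⟩ := h.onS (h.bdry u w hu.1 hwY e.1)
    obtain ⟨τ, hτ, hsub⟩ := Ns_mono (hsm h3 h4) (P.zn i u (P.pcs.zone i h5) u (Or.inl rfl))
    exact e.2.1 τ hτ hsub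

end MOT
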