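import Pool.Agent.MOT.SvC
import Pool.Agent.MOT.SvE
import Pool.Agent.MOT.Sbc
import Pool.Agent.MOT.PtE
import Pool.Agent.MOT.PaCo
import Pool.Agent.MOT.CmR

/-!
# MOT/CmS: from the output of stage 2 on one level to the located pre-pattern one level later
-/

open Classical

noncomputable section

namespace MOT

variable {Vc V : Type} {Gc : SimpleGraph Vc} {G : SimpleGraph V}

/-- OUTPUT OF STAGE 2 on one level.  `P` = side of the 1-skeleton, `N` = side of the dual graph; `D e` = disc of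
the edge `e` in the plate `U e`, `F s` = disc of the triangle `s` in the plate `U' s`. -/
structure FinS (hc : IsSph3 Gc) [Fintype (Ec Gc)] [Fintype (Fc Gc)] (b : BaseU Gc G)
    (S P N : Set V) {J : Type} (Q : PcsU b S J) (U : Ec Gc → Set V) (U' : Fc Gc → Set V)
    (D : Ec Gc → Set (Cq G)) (F : Fc Gc → Set (Cq G)) (tto : V → Te Gc) : Prop where
  wall : Wall G S P N
  BP : b.B ⊆ P
  BsN : b.Bs ⊆ N
  hv : StrIn G cE1 cE2 (S ∪ P) U D b.Lv b.Le b.top
  ht : StrIn G (cS1 hc) (cS2 hc) (S ∪ N) U' F b.Lt b.Ls tto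
  par : ∀ (e : Ec Gc) (s : Fc Gc), e.1 ⊆ s.1 →
    ¬ Triv (sd G) (D e ∩ mi G S) (pbk pk (wtt tto (cS1 hc s) (cS2 hc s)))
  cne : ∀ e, ∃ q ∈ D e, q ∈ mi G S
  i1 : ∀ e, ∀ q ∈ D e, q ∈ mi G S → ∀ x ∈ q.1, e.q ∈ b.cr x
  i2 : ∀ e, ∀ q ∈ D e, ∀ x ∈ q.1, x ∈ b.Ns (nb Gc (e.1 : Set Vc))
  i3 : ∀ e, ∀ q ∈ D e, q ∈ mi G S → ∀ j, ¬ (q.1 : Set V) ⊆ Q.Cv j
  i4 : ∀ (s : Fc Gc) (e : Ec Gc), ¬ e.1 ⊆ s.1 → ∀ q ∈ D e, ¬ (q.1 : Set V) ⊆ b.Lb s
  cne' : ∀ s, ∃ q ∈ F s, q ∈ mi G S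
  i1' : ∀ s, ∀ q ∈ F s, q ∈ mi G S → ∀ x ∈ q.1, s.q ∈ b.cr x
  i2' : ∀ s, ∀ q ∈ F s, ∀ x ∈ q.1, x ∈ b.Ns (nb Gc (s.1 : Set Vc))

variable {S P N : Set V} {J : Type} {U : Ec Gc → Set V} {U' : Fc Gc → Set V}
  {D : Ec Gc → Set (Cq G)} {F : Fc Gc → Set (Cq G)} {tto : V → Te Gc} {hc : IsSph3 Gc}

/-- control of the side of the vertices -/
theorem FinS.ctlU [Fintype (Ec Gc)] [Fintype (Fc Gc)] {b : BaseU Gc G} {Q : PcsU b S J}
    (h : FinS hc b S P N Q U U' D F tto) {vc : V → Vc}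
    (o : StrOut G cE1 cE2 (S ∪ P) D b.Lv vc) : CtlU b S (S ∪ P) Q D vc where
  SX := Set.subset_union_left
  bdry := by
    intro x y hx hy hxy
    rcases hx with hx | hx
    · exact hx
    · exfalso
      have hyN : y ∈ N := by
        have : y ∈ S ∪ P ∪ N := by rw [h.wall.cover]; trivial
        exact this.resolve_left hy
      exact h.wall.nadj x hx y hyN hxy
  XBs := by
    rw [Set.disjoint_left]
    rintro x (hx | hx) hB
    · exact Set.disjoint_left.1 h.wall.dqn hx (h.BsN hB)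
    · exact Set.disjoint_left.1 h.wall.dpn hx (h.BsN hB)
  BX := h.BP.trans Set.subset_union_right
  out := o
  cne := h.cne
  i1 := h.i1
  i2 := h.i2
  i3 := h.i3
  i4 := h.i4

/-- control of the side of the tetrahedra -/
theorem FinS.ctlT [Fintype (Ec Gc)] [Fintype (Fc Gc)] {b : BaseU Gc G} {Q : PcsU b S J}
    (h : FinS hc b S P N Q U U' D F tto) {tt : V → Te Gc}
    (o : StrOut G (cS1 hc) (cS2 hc) (S ∪ N) F b.Lt tt) : CtlT hc b S (S ∪ N) Q F tt where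
  SY := Set.subset_union_left
  bdry := by
    intro x y hx hy hxy
    rcases hx with hx | hx
    · exact hx
    · exfalso
      have hyP : y ∈ P := by
        have : y ∈ S ∪ P ∪ N := by rw [h.wall.cover]; trivial
        rcases this with (h1 | h1) | h1
        · exact absurd (Or.inl h1) hy
        · exact h1
        · exact absurd (Or.inr h1) hy
      exact h.wall.nadj y hyP x hx hxy.symm
  YB := by
    rw [Set.disjoint_left]
    rintro x (hx | hx) hB
    · exact Set.disjoint_left.1 h.wall.dqp hx (h.BP hB)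
    · exact Set.disjoint_left.1 h.wall.dpn (h.BP hB) hx
  out := o
  cne := h.cne'
  i1 := h.i1'
  i2 := h.i2'

theorem endE : Pt.EndOf Gc.Adj (cE1 : Ec Gc → Vc) cE2 where
  e e := e_adj e (cE_m1 e) (cE_m2 e) (cE_ne e)
  ex v w h := by
    refine ⟨mkE h, ?_⟩
    have h1 : ({v, w} : Finset Vc) = {cE1 (mkE h), cE2 (mkE h)} := cE_eq (mkE h)
    have h2 := congrArg (fun s : Finset Vc => (s : Set Vc)) h1
    simpa using h2

theorem endS (hc : IsSph3 Gc) : Pt.EndOf (Pt.TE Gc) (cS1 hc : Fc Gc → Te Gc) (cS2 hc) where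
  e s := by
    have h1 := inter_s s (cS1 hc s) (cS2 hc s) (cS_ne hc s) (cS_sub1 hc s) (cS_sub2 hc s)
    show ((cS1 hc s).1 ∩ (cS2 hc s).1).card = 3
    rw [h1, s.2.1]
  ex t t' h := by
    have h3 : (t.1 ∩ t'.1).card = 3 := h
    let s : Fc Gc := ⟨t.1 ∩ t'.1, h3, t.2.2.subset (fun z hz => (Finset.mem_inter.1 hz).1)⟩
    have hne : (t : Te Gc) ≠ t' := by
      intro e
      have h4 : t.1 = t'.1 := congrArg Subtype.val e
      rw [h4, Finset.inter_self, t'.2.1] at h3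
      omega
    have a1 := cS_all hc s t Finset.inter_subset_left
    have a2 := cS_all hc s t' Finset.inter_subset_right
    refine ⟨s, ?_⟩
    rcases a1 with a1 | a1 <;> rcases a2 with a2 | a2
    · exact absurd (a1.trans a2.symm) hne
    · rw [a1, a2]
    · rw [a1, a2]; exact Set.pair_comm _ _
    · exact absurd (a1.trans a2.symm) hne

private theorem nbk_sub' {W : Type} {H : SimpleGraph W} {k : ℕ} {A : Set W} :
    nbk H k A ⊆ nbk H (k + 1) A := fun x hx => ⟨x, hx, Or.inl rfl⟩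

/-- LOCATED PRE-PATTERN one level later -/
theorem FinS.pre [Finite V] [Finite Vc] [Fintype (Ec Gc)] [Fintype (Fc Gc)] {b : BaseU Gc G}
    {Q : PcsU b S J} (h : FinS hc b S P N Q U U' D F tto) :
    ∃ κ : Cq G → Pa.Col Gc, Pa.Pre (sd G) κ (Pa.colH Gc) ∧
      ∀ q, ∃ x ∈ q.1, x ∈ b.Ns (nbk Gc 3 (covs (Pa.toCo Gc (κ q)))) := by
  obtain ⟨vc, ov⟩ := structure_thm h.hv
  obtain ⟨tt, ot⟩ := structure_thm h.ht
  have hI : ∀ (e : Ec Gc) (s : Fc Gc),
      Pt.Inc Gc cE1 cE2 (cS1 hc : Fc Gc → Te Gc) (cS2 hc) e s ↔ e.1 ⊆ s.1 := by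
    intro e s
    have h1 := inter_s s (cS1 hc s) (cS2 hc s) (cS_ne hc s) (cS_sub1 hc s) (cS_sub2 hc s)
    unfold Pt.Inc
    constructor
    · rintro ⟨i1, i2, i3, i4⟩
      rw [cE_eq, ← h1]
      intro z hz
      simp only [Finset.mem_insert, Finset.mem_singleton] at hz
      rcases hz with rfl | rfl
      · exact Finset.mem_inter.2 ⟨i1, i2⟩
      · exact Finset.mem_inter.2 ⟨i3, i4⟩
    · intro hes
      exact ⟨cS_sub1 hc s (hes (cE_m1 e)), cS_sub2 hc s (hes (cE_m1 e)),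
        cS_sub1 hc s (hes (cE_m2 e)), cS_sub2 hc s (hes (cE_m2 e))⟩
  obtain ⟨κ, hpre, hk1, hk2⟩ := Pt.Pend (D := D) (F := F) hc h.wall endE (endS hc) h.hv ov h.ht ot
    (fun e s hi => h.par e s ((hI e s).1 hi))
    (by
      intro e s hi q hqS hqD hqF
      apply hi
      rw [hI]
      obtain ⟨x, hx⟩ := q.2.1
      have a1 := h.i1 e q hqD hqS x hx
      have a2 := h.i1' s q hqF hqS x hx
      rcases (b.cr_chain x x (Or.inl rfl)).total (Or.inl a1) (Or.inl a2) with a | a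
      · exact Cq.le_iff.1 a
      · exfalso
        have := Finset.card_le_card (Cq.le_iff.1 a)
        have h3 : s.q.1.card = 3 := s.2.1
        have h2 : e.q.1.card = 2 := e.2.1
        omega)
  refine ⟨κ, hpre, fun q => ?_⟩
  rcases hκ : κ q with v | t
  · obtain ⟨_, x, hx, hxX, e⟩ := hk1 q v hκ
    refine ⟨x, hx, ?_⟩
    have h1 := (h.ctlU ov).near hc hxX
    rw [e] at h1
    exact h1
  · obtain ⟨_, x, hx, hxY, e⟩ := hk2 q t hκ
    refine ⟨x, hx, ?_⟩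
    have h1 := (h.ctlT ot).near hxY
    rw [e] at h1
    exact Ns_mono nbk_sub' h1

end MOT
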