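import Pool.Agent.MOT.Def

/-!
# MOT/Pat: interface between the minimal position (block I) and the PL homeomorphism (block J)

`Gc` is the coarse complex, a flag triangulation of the 3-sphere.  Colours of the final pattern: the
vertices `v` of `Gc` and the tetrahedra `t` of `Gc`, in the type `Co Vc = Vc ⊕ Finset Vc`.
-/

open Classical

noncomputable section

namespace MOT

variable {Vc V C : Type}

/-! ## The output of block I = the input of block J -/

/-- simplices of `G` whose colours contain `A` (vertices of `sd G`) -/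
def XX (G : SimpleGraph V) (κ : V → C) (A : Set C) : Set (Cq G) :=
  {s | ∀ a ∈ A, ∃ x ∈ s.1, κ x = a}

/-- pattern conditions: all cells are connected with `H^1 = 0` -/
def PatJ (G : SimpleGraph V) (κ : V → C) : Prop :=
  ∀ A : Set C, A.Nonempty → (XX G κ A).Nonempty →
    Conn (sd G) (XX G κ A) ∧ HZ (sd G) (XX G κ A)

/-- colours: vertices and tetrahedra of the coarse complex -/
abbrev Co (Vc : Type) : Type := Vc ⊕ Finset Vc

/-- `t` is a tetrahedron of `Gc` -/
def IsTet (Gc : SimpleGraph Vc) (t : Finset Vc) : Prop :=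
  t.card = 4 ∧ Gc.IsClique (t : Set Vc)

/-- `t ≠ t'` have a common triangle -/
def TAdj (t t' : Finset Vc) : Prop := t ≠ t' ∧ (t ∩ t').card = 3

/-- simplices of the coarse triangulation `T`, given by its facets `{v, w, t, t'}`,
`vw` an edge of the common triangle of `t`, `t'` -/
def TS (Gc : SimpleGraph Vc) (A : Set (Co Vc)) : Prop :=
  ∃ (v w : Vc) (t t' : Finset Vc), v ≠ w ∧ v ∈ t ∩ t' ∧ w ∈ t ∩ t' ∧ IsTet Gc t ∧
    IsTet Gc t' ∧ TAdj t t' ∧ A ⊆ {Sum.inl v, Sum.inl w, Sum.inr t, Sum.inr t'}

/-- `G` with the colouring `κ` has the pattern of `Gc` -/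
structure PatT (Gc : SimpleGraph Vc) (G : SimpleGraph V) (κ : V → Co Vc) : Prop where
  pat : PatJ G κ
  ne : ∀ A : Set (Co Vc), A.Nonempty → ((XX G κ A).Nonempty ↔ TS Gc A)

end MOT
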