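import Pool.Agent.MOT.Pr
import Pool.Agent.MOT.Pat

/-!
# MOT/FnDef: interface between COMB (helper82) and the final estimate (helper90)
-/

open Classical

noncomputable section

namespace MOT

/-- iterated closed neighbourhood -/
def nbk {V : Type} (G : SimpleGraph V) : ℕ → Set V → Set V
  | 0, D => D
  | k + 1, D => nb G (nbk G k D)

/-- coarse vertices of a colour -/
def covs {Vc : Type} : Co Vc → Set Vc
  | Sum.inl v => {v}
  | Sum.inr t => (t : Set Vc)

/-- THE COMBINATORIAL THEOREM: every homeomorphism (as a pair of towers) has a pattern of the coarse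
complex `tw (cell16 R) n0` on a fine level `N2` of the range; cells are controlled by `c0` layers -/
def Comb (c0 : ℕ) : Prop :=
  ∀ R R' : ℝ, 0 < R → 0 < R' → ∀ P : Pair (cell16 R) (cell16 R'), ∃ n1 : ℕ, ∀ n0, n1 ≤ n0 →
    ∃ (N2 : ℕ) (κ : (tw (cell16 R') N2).V → Co (tw (cell16 R) n0).V),
      PatT (tw (cell16 R) n0).G (tw (cell16 R') N2).G κ ∧
      ∀ x', ∃ (j : ℕ) (u : (tw (cell16 R) (n0 + j)).V), P.dn N2 (n0 + j) x' u ∧
        ∃ w ∈ car (cell16 R) n0 j u, w ∈ nbk (tw (cell16 R) n0).G c0 (covs (κ x'))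

end MOT
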