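import Pool.Agent.MOT.Bas
import Pool.Agent.MOT.Pat

/-!
# MOT/PaDef: colour systems, coloured complexes, the pattern conditions (block I)

`κ : V → C` colours the vertices of a complex; a simplex `q : Cq G` carries the set of colours
`cols κ q`.  All strata (discs, curves, arcs, regions, points) are sets of simplices `q : Cq G`, i.e.
sets of vertices of `sd G`.
-/

open Classical

noncomputable section

namespace MOT.Pa

variable {V C W : Type}

/-! ## Colour systems -/

/-- colours with two sides, adjacency of colours of the same side, incidence of colours of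
different sides -/
structure Sys (C : Type) where
  side : C → Bool
  E : C → C → Prop
  I : C → C → Prop
  E_side : ∀ {a b}, E a b → side a = side b
  E_ne : ∀ {a b}, E a b → a ≠ b
  E_symm : ∀ {a b}, E a b → E b a
  I_side : ∀ {a b}, I a b → side a ≠ side b
  I_symm : ∀ {a b}, I a b → I b a

/-- the four colours `a, b | c, d` span an incident pair (edge, face) -/
def Sys.Inc4 (S : Sys C) (a b c d : C) : Prop :=
  S.E a b ∧ S.E c d ∧ S.I a c ∧ S.I a d ∧ S.I b c ∧ S.I b d

/-- combinatorial facts about the colour system used in the count (true for the vertices and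
tetrahedra of a flag 3-sphere) -/
structure Sys.Good (S : Sys C) : Prop where
  /-- `a ∈ c`: exactly three edges of `c` at `a` (and dually) -/
  three : ∀ a c, S.I a c → {b | S.E a b ∧ S.I b c}.ncard = 3
  /-- exactly two faces of `c` contain the edge `ab` (and dually) -/
  two : ∀ a b c, S.E a b → S.I a c → S.I b c → {d | S.E c d ∧ S.I a d ∧ S.I b d}.ncard = 2
  /-- two different faces of `c` have at most one common edge at `a` (and dually) -/
  uniq : ∀ a b b' c d d', S.Inc4 a b c d → S.Inc4 a b c d' → S.Inc4 a b' c d →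
    S.Inc4 a b' c d' → d ≠ d' → b = b'
  /-- Euler characteristic of the link of a vertex -/
  link : ∀ a, S.side a = true → {c | S.I a c}.ncard + 4 = 2 * {b | S.E a b}.ncard
  /-- every edge lies in a face, every face contains an edge -/
  ex : ∀ a b, S.E a b → ∃ c d, S.Inc4 a b c d
  /-- every vertex lies in a tetrahedron and conversely -/
  exI : ∀ a, ∃ c, S.I a c
  /-- the colours of one side are connected -/
  con : ∀ a b, S.side a = S.side b → Relation.ReflTransGen S.E a b

/-- the colours of the coarse complex `H`: vertices and tetrahedra -/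
def Col (H : SimpleGraph W) : Type :=
  W ⊕ {s : Finset W // s.card = 4 ∧ H.IsClique (s : Set W)}

/-- the colour system of the coarse complex: side `true` = vertices, `false` = tetrahedra -/
def colH (H : SimpleGraph W) : Sys (Col H) where
  side c := match c with
    | Sum.inl _ => true
    | Sum.inr _ => false
  E a b := match a, b with
    | Sum.inl v, Sum.inl w => H.Adj v w
    | Sum.inr s, Sum.inr t => (s.1 ∩ t.1).card = 3
    | _, _ => False
  I a b := match a, b with
    | Sum.inl v, Sum.inr t => v ∈ t.1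
    | Sum.inr t, Sum.inl v => v ∈ t.1
    | _, _ => False
  E_side := by
    rintro (a | a) (b | b) h <;> first | rfl | exact absurd h id
  E_ne := by
    rintro (a | a) (b | b) h e
    · cases e; exact h.ne rfl
    · exact h
    · exact h
    · cases e
      have h1 : (a.1 ∩ a.1).card = 3 := h
      rw [Finset.inter_self, a.2.1] at h1
      omega
  E_symm := by
    rintro (a | a) (b | b) h
    · exact h.symm
    · exact h
    · exact h
    · show (b.1 ∩ a.1).card = 3
      rw [Finset.inter_comm]; exact h
  I_side := by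
    rintro (a | a) (b | b) h <;> first | exact absurd h id | simp
  I_symm := by
    rintro (a | a) (b | b) h <;> exact h

/-! ## Coloured complexes -/

/-- vertices of colour `c` -/
def cs (κ : V → C) (c : C) : Set V := {x | κ x = c}

/-- colours of a simplex -/
def cols {G : SimpleGraph V} (κ : V → C) (q : Cq G) : Set C := {c | ∃ x ∈ q.1, κ x = c}

/-- simplices whose colour set is exactly `σ` -/
def Ex (G : SimpleGraph V) (κ : V → C) (σ : Set C) : Set (Cq G) := {q | cols κ q = σ}

/-- PRE-PATTERN: the conditions which are kept by the bigon move -/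
structure Pre (G : SimpleGraph V) (κ : V → C) (S : Sys C) : Prop where
  /-- a simplex has at most two colours of each side -/
  two : ∀ q : Cq G, ∀ a ∈ cols κ q, ∀ b ∈ cols κ q, ∀ c ∈ cols κ q, S.side a = S.side b →
    S.side b = S.side c → a = b ∨ b = c ∨ a = c
  /-- two colours of the same side in a simplex are related -/
  adj : ∀ q : Cq G, ∀ a ∈ cols κ q, ∀ b ∈ cols κ q, S.side a = S.side b → a ≠ b → S.E a b
  conn : ∀ c, Conn G (cs κ c)
  hz : ∀ c, HZ G (cs κ c)
  cconn : ∀ c, Conn G (cs κ c)ᶜ
  chz : ∀ c, HZ G (cs κ c)ᶜ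
  /-- the discs -/
  dconn : ∀ a b, S.E a b → Conn (sd G) (XX G κ {a, b})
  dhz : ∀ a b, S.E a b → HZ (sd G) (XX G κ {a, b})
  /-- parity of the numbers of points -/
  odd : ∀ a b c d, S.Inc4 a b c d → Odd (Ex G κ {a, b, c, d}).ncard
  none : ∀ a b c d, S.E a b → S.E c d → S.side a ≠ S.side c → ¬ S.Inc4 a b c d →
    Ex G κ {a, b, c, d} = ∅

/-- STANDARD PATTERN: output of block I -/
structure Std (G : SimpleGraph V) (κ : V → C) (S : Sys C) : Prop where
  pre : Pre G κ S
  /-- incidence -/
  inc : ∀ q : Cq G, ∀ a ∈ cols κ q, ∀ b ∈ cols κ q, S.side a ≠ S.side b → S.I a b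
  /-- hexagons -/
  hexc : ∀ a c, S.I a c → Conn (sd G) (XX G κ {a, c})
  hexz : ∀ a c, S.I a c → HZ (sd G) (XX G κ {a, c})
  /-- arcs -/
  arcc : ∀ a b c, S.E a b → S.I a c → S.I b c → Conn (sd G) (XX G κ {a, b, c})
  arcz : ∀ a b c, S.E a b → S.I a c → S.I b c → HZ (sd G) (XX G κ {a, b, c})
  /-- points -/
  pt : ∀ a b c d, S.Inc4 a b c d → ∃! q : Cq G, cols κ q = {a, b, c, d}

/-- CONTROL: the colouring `κ` on level `n + k` against the old colouring `κ₀` on level `n` -/
structure Ctl (K : Lv) (n k : ℕ) (S : Sys C) (κ₀ : (tw K n).V → C)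
    (κ : (tw K (n + k)).V → C) : Prop where
  /-- locality: a constant old colour on the carrier is kept -/
  loc : ∀ x c, (∀ u ∈ car K n k x, κ₀ u = c) → κ x = c
  /-- vertex colours are colours of the carrier -/
  nv : ∀ x, S.side (κ x) = true → ∃ u ∈ car K n k x, κ₀ u = κ x
  /-- tetrahedron colours: the carrier meets the old cell or the old cell of one of its vertices -/
  nt : ∀ x, S.side (κ x) = false → ∃ u ∈ car K n k x, κ₀ u = κ x ∨ S.I (κ x) (κ₀ u)
  /-- discs of faces: near the old disc of the face or near the cells of its vertices -/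
  nd : ∀ (q : Cq (tw K (n + k)).G) (a b : C), a ∈ cols κ q → b ∈ cols κ q → S.E a b →
    S.side a = false → ∃ x ∈ q.1, ∃ u ∈ car K n k x,
      (S.I a (κ₀ u) ∧ S.I b (κ₀ u)) ∨
      ∃ r : Cq (tw K n).G, u ∈ r.1 ∧ a ∈ cols κ₀ r ∧ b ∈ cols κ₀ r

/-! ## Strata -/

/-- points: simplices with four colours -/
def P4 (G : SimpleGraph V) (κ : V → C) : Set (Cq G) := {p | (cols κ p).ncard = 4}

/-- neighbours above a set of simplices -/
def nbr {G : SimpleGraph V} (R : Set (Cq G)) : Set (Cq G) := {r | r ∉ R ∧ ∃ q ∈ R, q < r}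

/-- corners (ends) of a stratum: points above it -/
def cor {G : SimpleGraph V} (κ : V → C) (R : Set (Cq G)) : Set (Cq G) :=
  {p | p ∈ P4 G κ ∧ ∃ q ∈ R, q < p}

/-- the curve of the pair `a, b` of the same side -/
def Cu (G : SimpleGraph V) (κ : V → C) (S : Sys C) (a b : C) : Set (Cq G) :=
  {q | a ∈ cols κ q ∧ b ∈ cols κ q ∧ ∃ c ∈ cols κ q, S.side c ≠ S.side a}

/-- the open piece of the surface with colour `a` -/
def So (G : SimpleGraph V) (κ : V → C) (S : Sys C) (a : C) : Set (Cq G) :=
  {q | a ∈ cols κ q ∧ (∀ b ∈ cols κ q, S.side b = S.side a → b = a) ∧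
    ∃ c ∈ cols κ q, S.side c ≠ S.side a}

/-- the surface: simplices with colours of both sides -/
def Su (G : SimpleGraph V) (κ : V → C) (S : Sys C) : Set (Cq G) :=
  {q | (∃ a ∈ cols κ q, S.side a = true) ∧ ∃ b ∈ cols κ q, S.side b = false}

/-- regions in the piece of colour `a` -/
def Rg (G : SimpleGraph V) (κ : V → C) (S : Sys C) (a : C) : Set (Set (Cq G)) :=
  {R | ∃ c, S.side c ≠ S.side a ∧ IsComp (sd G) (Ex G κ {a, c}) R}

/-- trace of a simplex on the colours in `σ` (the simplex itself if it has no colour in `σ`) -/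
def tc {G : SimpleGraph V} (κ : V → C) (σ : Set C) (q : Cq G) : Cq G :=
  if h : (q.1.filter (fun x => κ x ∈ σ)).Nonempty then
    ⟨q.1.filter (fun x => κ x ∈ σ), h, fun x hx y hy hxy =>
      q.2.2 (Finset.mem_coe.2 (Finset.mem_filter.1 (Finset.mem_coe.1 hx)).1)
        (Finset.mem_coe.2 (Finset.mem_filter.1 (Finset.mem_coe.1 hy)).1) hxy⟩
  else q

/-- a BIGON between the colours `v` and `t`: its sides are an interval on the curve of `v, w` and an
arc on the curve of `t, t'` -/
structure Big (G : SimpleGraph V) (κ : V → C) (S : Sys C) (v w t t' : C) (R : Set (Cq G)) :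
    Prop where
  inc : S.Inc4 v w t t'
  sv : S.side v = true
  comp : IsComp (sd G) (Ex G κ {v, t}) R
  hz : HZ (sd G) R
  nb : nbr R ⊆ Ex G κ {v, w, t} ∪ (Ex G κ {v, t, t'} ∪ Ex G κ {v, w, t, t'})
  bconn : Conn (sd G) (nbr R ∩ Ex G κ {v, w, t})
  aconn : Conn (sd G) (nbr R ∩ (Ex G κ {v, t, t'} ∪ Ex G κ {v, w, t, t'}))
  pts : (nbr R ∩ Ex G κ {v, w, t, t'}).ncard = 2

/-- the set to be recoloured: the bigon and its side on the curve of `v, w` -/
def Zb (G : SimpleGraph V) (κ : V → C) (v w t : C) (R : Set (Cq G)) : Set (Cq G) :=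
  R ∪ (nbr R ∩ Ex G κ {v, w, t})

/-- priorities: vertices before tetrahedra, then `t`, then `t'` -/
structure Rho (S : Sys C) (t t' : C) (ρ : C → ℕ) : Prop where
  inj : Function.Injective ρ
  sd : ∀ a b, S.side a = true → S.side b = false → ρ a < ρ b
  top : ∀ a, a ≠ t' → ρ a < ρ t'
  snd : ∀ a, a ≠ t → a ≠ t' → ρ a < ρ t

/-- the colour of largest priority of a simplex -/
def mx {G : SimpleGraph V} (κ : V → C) (ρ : C → ℕ) (q : Cq G) : C :=
  κ (Finset.exists_max_image q.1 (fun x => ρ (κ x)) q.2.1).choose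

/-- the new colouring of the subdivision: `t'` on `Z`, otherwise the colour of largest priority -/
def nk {G : SimpleGraph V} (κ : V → C) (ρ : C → ℕ) (Z : Set (Cq G)) (t' : C) (q : Cq G) : C :=
  if q ∈ Z then t' else mx κ ρ q

end MOT.Pa
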