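import Pool.Agent.MOT.Bas

/-!
# MOT/Joi: unions, joins, cones, adding a vertex
-/

open Classical

noncomputable section

namespace MOT

variable {V : Type} {G : SimpleGraph V} {A B C M : Set V}

/-- union of two connected sets with a common point -/
theorem conn_union (hA : Conn G A) (hB : Conn G B) (hAB : (A ∩ B).Nonempty) :
    Conn G (A ∪ B) := by
  obtain ⟨z, hzA, hzB⟩ := hAB
  have key : ∀ x ∈ A ∪ B, Relation.ReflTransGen (EIn G (A ∪ B)) x z := by
    rintro x (hx | hx)
    · exact rtg_mono Set.subset_union_left (hA.2 x hx z hzA)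
    · exact rtg_mono Set.subset_union_right (hB.2 x hx z hzB)
  exact ⟨⟨z, Or.inl hzA⟩, fun x hx y hy => (key x hx).trans (rtg_symm (key y hy))⟩

/-- union of two connected sets joined by an edge -/
theorem conn_union_adj (hA : Conn G A) (hB : Conn G B) {x y : V} (hx : x ∈ A) (hy : y ∈ B)
    (e : G.Adj x y) : Conn G (A ∪ B) := by
  have exy : EIn G (A ∪ B) x y := ⟨e, Or.inl hx, Or.inr hy⟩
  have key : ∀ u ∈ A ∪ B, Relation.ReflTransGen (EIn G (A ∪ B)) u x := by
    rintro u (hu | hu)
    · exact rtg_mono Set.subset_union_left (hA.2 u hu x hx)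
    · exact (rtg_mono Set.subset_union_right (hB.2 u hu y hy)).tail exy.symm
  exact ⟨⟨x, Or.inl hx⟩, fun u hu v hv => (key u hu).trans (rtg_symm (key v hv))⟩

/-- JOIN: all of `A` is adjacent to all of `B`, `A` connected, `B` nonempty.
Sketch: choose `b0 ∈ B`, `f x := a b0 x` on `A`; for `b ∈ B` the function `x ↦ a b x + f x` is
constant on `A`, call it `g b`. -/
theorem join_HZ (hAB : ∀ x ∈ A, ∀ y ∈ B, G.Adj x y) (hA : Conn G A) (hB : B.Nonempty) :
    HZ G (A ∪ B) := by
  intro a ha
  obtain ⟨h0, hs, hc⟩ := mem_Z1.1 ha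
  obtain ⟨b0, hb0⟩ := hB
  obtain ⟨x0, hx0⟩ := hA.1
  have hdis : ∀ z, z ∈ A → z ∈ B → False := fun z hz hz' => G.irrefl (hAB z hz z hz')
  have eAB : ∀ x ∈ A, ∀ y ∈ B, EIn G (A ∪ B) y x := fun x hx y hy =>
    ⟨(hAB x hx y hy).symm, Or.inr hy, Or.inl hx⟩
  have hg : ∀ b ∈ B, ∀ x ∈ A, a b x + a b0 x = a b x0 + a b0 x0 := by
    intro b hb x hx
    refine hA.const (f := fun z => a b z + a b0 z) ?_ hx hx0
    intro u v e
    have e' : EIn G (A ∪ B) u v := e.mono Set.subset_union_left
    have h1 := hc b u v (eAB u e.2.1 b hb) e' (eAB v e.2.2 b hb)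
    have h2 := hc b0 u v (eAB u e.2.1 b0 hb0) e' (eAB v e.2.2 b0 hb0)
    rw [← h1, ← h2]
    have := two_add (a u v)
    calc a b u + a b0 u = a b u + a b0 u + 0 := by rw [add_zero]
      _ = a b u + a b0 u + (a u v + a u v) := by rw [this]
      _ = a b u + a u v + (a b0 u + a u v) := by abel
  refine ⟨fun z => if z ∈ A then a b0 z else a z x0 + a b0 x0, ?_⟩
  intro u v e
  have two := two_add
  by_cases hu : u ∈ A
  · by_cases hv : v ∈ A
    · simp only [hu, hv, if_true]
      have h1 := hc b0 u v (eAB u hu b0 hb0) e (eAB v hv b0 hb0)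
      rw [← h1]
      calc a u v = (a b0 u + a b0 u) + a u v := by rw [two, zero_add]
        _ = a b0 u + (a b0 u + a u v) := by abel
    · have hvB : v ∈ B := e.2.2.resolve_left hv
      simp only [hu, hv, if_true, if_false]
      have h1 := hg v hvB u hu
      rw [hs u v, ← h1]
      calc a v u = a v u + (a b0 u + a b0 u) := by rw [two, add_zero]
        _ = a b0 u + (a v u + a b0 u) := by abel
  · have huB : u ∈ B := e.2.1.resolve_left hu
    by_cases hv : v ∈ A
    · simp only [hu, hv, if_true, if_false]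
      have h1 := hg u huB v hv
      rw [← h1]
      calc a u v = a u v + (a b0 v + a b0 v) := by rw [two, add_zero]
        _ = a u v + a b0 v + a b0 v := by abel
    · have hvB : v ∈ B := e.2.2.resolve_left hv
      simp only [hu, hv, if_false]
      have h1 := hc u v x0 e (eAB x0 hx0 v hvB) (eAB x0 hx0 u huB)
      rw [← h1]
      calc a u v = a u v + ((a v x0 + a v x0) + (a b0 x0 + a b0 x0)) := by
            rw [two, two, add_zero, add_zero]
        _ = a u v + a v x0 + a b0 x0 + (a v x0 + a b0 x0) := by abel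

theorem join_Conn (hAB : ∀ x ∈ A, ∀ y ∈ B, G.Adj x y) (hA : A.Nonempty) (hB : B.Nonempty) :
    Conn G (A ∪ B) := by
  obtain ⟨x0, hx0⟩ := hA
  obtain ⟨y0, hy0⟩ := hB
  have eAB : ∀ x ∈ A, ∀ y ∈ B, EIn G (A ∪ B) x y := fun x hx y hy =>
    ⟨hAB x hx y hy, Or.inl hx, Or.inr hy⟩
  have key : ∀ u ∈ A ∪ B, Relation.ReflTransGen (EIn G (A ∪ B)) u x0 := by
    rintro u (hu | hu)
    · exact (Relation.ReflTransGen.single (eAB u hu y0 hy0)).tail (eAB x0 hx0 y0 hy0).symm
    · exact Relation.ReflTransGen.single (eAB x0 hx0 u hu).symm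
  exact ⟨⟨x0, Or.inl hx0⟩, fun u hu v hv => (key u hu).trans (rtg_symm (key v hv))⟩

/-- cones -/
theorem cone_Conn {x : V} (hx : x ∈ A) (h : ∀ y ∈ A, y ≠ x → G.Adj x y) : Conn G A := by
  have key : ∀ u ∈ A, Relation.ReflTransGen (EIn G A) u x := by
    intro u hu
    by_cases h' : u = x
    · rw [h']
    · exact Relation.ReflTransGen.single ⟨(h u hu h').symm, hu, hx⟩
  exact ⟨⟨x, hx⟩, fun u hu v hv => (key u hu).trans (rtg_symm (key v hv))⟩

theorem cone_HZ {x : V} (hx : x ∈ A) (h : ∀ y ∈ A, y ≠ x → G.Adj x y) : HZ G A := by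
  intro a ha
  obtain ⟨h0, hs, hc⟩ := mem_Z1.1 ha
  have hxx : a x x = 0 := h0 x x (fun e => G.irrefl e.1)
  refine ⟨a x, fun u v e => ?_⟩
  by_cases hu : u = x
  · rw [hu, hxx, zero_add]
  · by_cases hv : v = x
    · rw [hv, hxx, add_zero, hs]
    · have h1 := hc x u v ⟨h u e.2.1 hu, hx, e.2.1⟩ e ⟨h v e.2.2 hv, hx, e.2.2⟩
      rw [← h1]
      calc a u v = (a x u + a x u) + a u v := by rw [two_add, zero_add]
        _ = a x u + (a x u + a u v) := by abel

/-- adding a vertex with connected link -/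
theorem add_vertex_Inj {x : V} (hx : x ∉ A) (hc : Conn G (Lk G {x} ∩ A)) :
    Inj G (insert x A) A := by
  intro a ha t
  obtain ⟨h0, hs, hcc⟩ := mem_Z1.1 ha
  obtain ⟨f, hf⟩ := t
  obtain ⟨u0, hu0⟩ := hc.1
  have eL : ∀ u ∈ Lk G {x} ∩ A, EIn G (insert x A) x u := fun u hu =>
    ⟨hu.1 x rfl, Set.mem_insert x A, Set.mem_insert_of_mem x hu.2⟩
  have hconst : ∀ u ∈ Lk G {x} ∩ A, a x u + f u = a x u0 + f u0 := by
    intro u hu
    refine hc.const (f := fun z => a x z + f z) ?_ hu hu0
    intro p q e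
    have eA : EIn G A p q := e.mono Set.inter_subset_right
    have h1 := hcc x p q (eL p e.2.1) (eA.mono (Set.subset_insert x A)) (eL q e.2.2)
    rw [← h1, hf p q eA]
    calc a x p + f p = a x p + f p + (f q + f q) := by rw [two_add, add_zero]
      _ = a x p + (f p + f q) + f q := by abel
  have two := two_add
  refine ⟨fun z => if z = x then a x u0 + f u0 else f z, fun u v e => ?_⟩
  by_cases hu : u = x
  · have hv : v ≠ x := fun h => G.irrefl (by rw [hu, h] at e; exact e.1)
    have hvA : v ∈ A := e.2.2.resolve_left hv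
    have hvL : v ∈ Lk G {x} ∩ A := ⟨fun y hy => by
      rw [Set.mem_singleton_iff] at hy; rw [hy, ← hu]; exact e.1, hvA⟩
    simp only [hu, hv, if_true, if_false]
    rw [← hconst v hvL]
    calc a x v = a x v + (f v + f v) := by rw [two, add_zero]
      _ = a x v + f v + f v := by abel
  · have huA : u ∈ A := e.2.1.resolve_left hu
    by_cases hv : v = x
    · have huL : u ∈ Lk G {x} ∩ A := ⟨fun y hy => by
        rw [Set.mem_singleton_iff] at hy; rw [hy, ← hv]; exact e.1.symm, huA⟩
      simp only [hu, hv, if_true, if_false]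
      rw [← hconst u huL, hs u x]
      calc a x u = a x u + (f u + f u) := by rw [two, add_zero]
        _ = f u + (a x u + f u) := by abel
    · have hvA : v ∈ A := e.2.2.resolve_left hv
      simp only [hu, hv, if_false]
      exact hf u v ⟨e.1, huA, hvA⟩

/-- adding a vertex whose link has `H^1 = 0` -/
theorem add_vertex_Surj {x : V} (hx : x ∉ A) (hz : HZ G (Lk G {x} ∩ A)) :
    Surj G (insert x A) A := by
  intro b hb
  obtain ⟨h0, hs, hcc⟩ := mem_Z1.1 hb
  have hsub : Lk G {x} ∩ A ⊆ A := Set.inter_subset_right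
  obtain ⟨f, hf'⟩ := hz _ (rs_mem hsub hb)
  have hf : ∀ u v, EIn G (Lk G {x} ∩ A) u v → b u v = f u + f v := fun u v e => by
    rw [← hf' u v e, rs_apply e]
  have memL : ∀ u, EIn G (insert x A) x u → u ∈ Lk G {x} ∩ A := fun u e =>
    ⟨fun y hy => by rw [Set.mem_singleton_iff] at hy; rw [hy]; exact e.1,
      e.2.2.resolve_left (fun h => G.irrefl (by rw [h] at e; exact e.1))⟩
  let a : V → V → ZMod 2 := fun u v =>
    if EIn G (insert x A) u v then (if u = x then f v else if v = x then f u else b u v) else 0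
  have av1 : ∀ v, EIn G (insert x A) x v → a x v = f v := fun v e => by
    simp only [a, if_pos e, if_true]
  have av2 : ∀ u, EIn G (insert x A) u x → a u x = f u := fun u e => by
    have hu : u ≠ x := fun h => G.irrefl (by rw [h] at e; exact e.1)
    simp only [a, if_pos e, if_neg hu, if_true]
  have av3 : ∀ u v, EIn G (insert x A) u v → u ≠ x → v ≠ x → a u v = b u v := fun u v e hu hv => by
    simp only [a, if_pos e, if_neg hu, if_neg hv]
  have eAof : ∀ u v, EIn G (insert x A) u v → u ≠ x → v ≠ x → EIn G A u v := fun u v e hu hv =>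
    ⟨e.1, e.2.1.resolve_left hu, e.2.2.resolve_left hv⟩
  have two := two_add
  refine ⟨a, mem_Z1.2 ⟨fun u v e => if_neg e, fun u v => ?_, fun u v w e1 e2 e3 => ?_⟩, ?_⟩
  · by_cases e : EIn G (insert x A) u v
    · by_cases hu : u = x
      · subst hu
        rw [av1 v e, av2 v e.symm]
      · by_cases hv : v = x
        · subst hv
          rw [av1 u e.symm, av2 u e]
        · rw [av3 u v e hu hv, av3 v u e.symm hv hu, hs]
    · simp only [a, if_neg e, if_neg (fun e' => e (EIn.symm e'))]
  · by_cases hu : u = x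
    · subst hu
      have hv : v ≠ u := fun h => G.irrefl (by rw [h] at e1; exact e1.1)
      have hw : w ≠ u := fun h => G.irrefl (by rw [h] at e3; exact e3.1)
      rw [av1 v e1, av1 w e3, av3 v w e2 hv hw, hf v w ⟨e2.1, memL v e1, memL w e3⟩]
      calc f v + (f v + f w) = (f v + f v) + f w := by abel
        _ = f w := by rw [two, zero_add]
    · by_cases hv : v = x
      · subst hv
        have hw : w ≠ v := fun h => G.irrefl (by rw [h] at e2; exact e2.1)
        rw [av2 u e1, av1 w e2, av3 u w e3 hu hw, hf u w ⟨e3.1, memL u e1.symm, memL w e2⟩]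
      · by_cases hw : w = x
        · subst hw
          rw [av3 u v e1 hu hv, av2 v e2, av2 u e3,
            hf u v ⟨e1.1, memL u e3.symm, memL v e2.symm⟩]
          calc f u + f v + f v = f u + (f v + f v) := by abel
            _ = f u := by rw [two, add_zero]
        · rw [av3 u v e1 hu hv, av3 v w e2 hv hw, av3 u w e3 hu hw]
          exact hcc u v w (eAof u v e1 hu hv) (eAof v w e2 hv hw) (eAof u w e3 hu hw)
  · refine ⟨0, fun u v e => ?_⟩
    have hu : u ≠ x := fun h => hx (h ▸ e.2.1)
    have hv : v ≠ x := fun h => hx (h ▸ e.2.2)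
    simp only [Pi.add_apply, Pi.zero_apply]
    rw [av3 u v (e.mono (Set.subset_insert x A)) hu hv, two, add_zero]

theorem add_vertex_Conn {x : V} (hx : x ∉ A) (hc : Conn G (Lk G {x} ∩ A)) :
    Conn G (insert x A) ↔ Conn G A := by
  obtain ⟨u0, hu0⟩ := hc.1
  constructor
  · intro h
    rw [Conn_iff]
    refine ⟨⟨u0, hu0.2⟩, fun f hf p hp q hq => ?_⟩
    have hF : ∀ u v, EIn G (insert x A) u v →
        (fun z => if z = x then f u0 else f z) u = (fun z => if z = x then f u0 else f z) v := by
      intro u v e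
      have hL : ∀ w, w ∈ A → G.Adj x w → f u0 = f w := by
        intro w hw hxw
        refine hc.const (f := f) (fun p q e => hf p q (e.mono Set.inter_subset_right)) hu0
          ⟨fun y hy => by rw [Set.mem_singleton_iff] at hy; rw [hy]; exact hxw, hw⟩
      by_cases hu : u = x
      · have hv : v ≠ x := fun h => G.irrefl (by rw [hu, h] at e; exact e.1)
        simp only [hu, hv, if_true, if_false]
        exact hL v (e.2.2.resolve_left hv) (hu ▸ e.1)
      · by_cases hv : v = x
        · simp only [hu, hv, if_true, if_false]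
          exact (hL u (e.2.1.resolve_left hu) (hv ▸ e.1.symm)).symm
        · simp only [hu, hv, if_false]
          exact hf u v ⟨e.1, e.2.1.resolve_left hu, e.2.2.resolve_left hv⟩
    have := h.const hF (Set.mem_insert_of_mem x hp) (Set.mem_insert_of_mem x hq)
    have hpx : p ≠ x := fun h => hx (h ▸ hp)
    have hqx : q ≠ x := fun h => hx (h ▸ hq)
    simpa only [hpx, hqx, if_false] using this
  · intro h
    have h1 : Conn G {x} := ⟨⟨x, rfl⟩, fun p hp q hq => by
      rw [Set.mem_singleton_iff] at hp hq; rw [hp, hq]⟩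
    rw [Set.insert_eq]
    exact conn_union_adj h1 h rfl hu0.2 (hu0.1 x rfl)

end MOT
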