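import Pool.Agent.MOT.PaMvR
import Pool.Agent.MOT.Joi

/-!
# MOT/PaMvC: the bigon move, the complement of the region of `t'` (block I)
-/

open Classical

noncomputable section

namespace MOT.Pa

variable {V C W : Type} {G : SimpleGraph V} {κ : V → C} {S : Sys C} {ρ : C → ℕ}
  {v w t t' : C} {R : Set (Cq G)}

/-- link of `q ∈ Z` in `mi (cs κ t')ᶜ \ Z`: the simplices `r < q` that do not have both colours `v`, `t`;
nothing above `q` (a simplex above `q` is in `Z` or has the colour `t'`) -/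
theorem Big.lkZ (h : Big G κ S v w t t' R) {q r : Cq G} (hq : q ∈ Zb G κ v w t R)
    (hr : r ∈ mi G (cs κ t')ᶜ \ Zb G κ v w t R) (e : (sd G).Adj q r) :
    r < q ∧ (r ≤ tc κ {v, w} q ∨ r ≤ tc κ {w, t} q) := by
  have hrt : t' ∉ cols κ r := by
    rintro ⟨x, hx, hxt⟩
    exact hr.1 x hx hxt
  have hlt : r < q := by
    rcases sd_adj.1 e with h1 | h1
    · exfalso
      rcases h.up hq h1.le with h2 | ⟨_, h2 | h2⟩
      · exact hr.2 h2
      · have h3 : cols κ r = {v, t, t'} := h2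
        rw [h3] at hrt
        exact hrt (by simp)
      · have h3 : cols κ r = {v, w, t, t'} := h2
        rw [h3] at hrt
        exact hrt (by simp)
    · exact h1
  refine ⟨hlt, ?_⟩
  have hsub : cols κ r ⊆ {v, w, t} := (cols_mono hlt.le).trans (h.colZ_sub hq).2.1
  by_cases h1 : t ∈ cols κ r
  · by_cases h2 : v ∈ cols κ r
    · exfalso
      refine hr.2 (h.down hq hlt.le ?_)
      rintro x (rfl | rfl)
      · exact h2
      · exact h1
    · refine Or.inr (le_tc hlt.le ?_)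
      intro x hx
      have h3 := hsub hx
      simp only [Set.mem_insert_iff, Set.mem_singleton_iff] at h3 ⊢
      rcases h3 with h3 | h3 | h3
      · rw [h3] at hx
        exact absurd hx h2
      · exact Or.inl h3
      · exact Or.inr h3
  · refine Or.inl (le_tc hlt.le ?_)
    intro x hx
    have h3 := hsub hx
    simp only [Set.mem_insert_iff, Set.mem_singleton_iff] at h3 ⊢
    rcases h3 with h3 | h3 | h3
    · exact Or.inl h3
    · exact Or.inr h3
    · rw [h3] at hx
      exact absurd hx h1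

/-- the traces on `{v, w}` and `{w, t}` of elements of `Z` are in the set -/
private theorem Big.trX (h : Big G κ S v w t t' R) {q : Cq G} (hq : q ∈ Zb G κ v w t R) :
    tc κ {v, w} q ∈ mi G (cs κ t')ᶜ \ Zb G κ v w t R ∧
      tc κ {w, t} q ∈ mi G (cs κ t')ᶜ \ Zb G κ v w t R := by
  obtain ⟨c1, c2, c3⟩ := h.colZ_sub hq
  have hv : v ∈ cols κ q := c1 (by simp)
  have ht : t ∈ cols κ q := c1 (by simp)
  have hx : ∀ σ : Set C, tc κ σ q ∈ mi G (cs κ t')ᶜ := by
    intro σ x hx hxt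
    exact c3 (cols_mono (tc_le q σ) ⟨x, hx, hxt⟩)
  refine ⟨⟨hx _, fun hZ => ?_⟩, ⟨hx _, fun hZ => ?_⟩⟩
  · have h1 : t ∈ cols κ (tc κ {v, w} q) := (h.colZ_sub hZ).1 (by simp)
    rw [tc_cols ⟨v, hv, by simp⟩] at h1
    rcases h1.2 with h2 | h2
    · exact h.ne_vt h2.symm
    · exact h.ne_wt h2.symm
  · have h1 : v ∈ cols κ (tc κ {w, t} q) := (h.colZ_sub hZ).1 (by simp)
    rw [tc_cols ⟨t, ht, by simp⟩] at h1
    rcases h1.2 with h2 | h2
    · exact h.ne_vw h2
    · exact h.ne_vt h2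

private theorem Big.mMono (h : Big G κ S v w t t' R) {q q' : Cq G} (hq : q ∈ Zb G κ v w t R)
    (hqq : q ≤ q') : tc κ {v, w} q ≤ tc κ {v, w} q' ∧ tc κ {w, t} q ≤ tc κ {w, t} q' := by
  have c1 := (h.colZ_sub hq).1
  exact ⟨tc_mono ⟨v, c1 (by simp), by simp⟩ hqq, tc_mono ⟨t, c1 (by simp), by simp⟩ hqq⟩

/-- trace on `{w}` of an element of the side `bI` -/
private theorem Big.trW (h : Big G κ S v w t t' R) {q : Cq G} (hq : q ∈ bI G κ v w t R) :
    tc κ {w} q ∈ mi G (cs κ t')ᶜ \ Zb G κ v w t R ∧ tc κ {w} q ≤ tc κ {v, w} q ∧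
      tc κ {w} q ≤ tc κ {w, t} q := by
  have hc : cols κ q = {v, w, t} := hq.2
  have hw : w ∈ cols κ q := by rw [hc]; simp
  have hcw : cols κ (tc κ {w} q) = {w} :=
    tc_cols_sub ⟨w, rfl⟩ (Set.singleton_subset_iff.2 hw)
  have hqZ : q ∈ Zb G κ v w t R := Or.inr hq
  refine ⟨⟨?_, fun hZ => ?_⟩, le_tc (tc_le q _) ?_, le_tc (tc_le q _) ?_⟩
  · intro x hx hxt
    exact (h.colZ_sub hqZ).2.2 (cols_mono (tc_le q _) ⟨x, hx, hxt⟩)
  · have h1 : v ∈ cols κ (tc κ {w} q) := (h.colZ_sub hZ).1 (by simp)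
    rw [hcw] at h1
    exact h.ne_vw h1
  · rw [hcw]
    exact Set.singleton_subset_iff.2 (by simp)
  · rw [hcw]
    exact Set.singleton_subset_iff.2 (by simp)

private theorem f_le {X : Set (Cq G)} {f : Cq G → ZMod 2}
    (hf : ∀ x y, EIn (sd G) X x y → f x = f y) {x y : Cq G} (hx : x ∈ X) (hy : y ∈ X)
    (h : x ≤ y) : f x = f y := by
  rcases eq_or_lt_of_le h with h | h
  · rw [h]
  · exact hf x y ⟨Or.inl h, hx, hy⟩

/-- complement, connectedness.  Sketch: `f` locally constant on `mi Cᶜ \ Z` (`C = cs κ t'`).  For `q ∈ Z`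
both `tc {v,w} q` and `tc {w,t} q` are in the set and `q ↦ f (tc {v,w} q)`, `q ↦ f (tc {w,t} q)` are
locally constant on `Z` (connected): constants `c1`, `c2`; they agree at an element `q` of the side
`bI` (nonempty by `h.bconn`) since `tc {w} q` lies below both.  So `f` extends by `c1` over `Z` to a
locally constant function on `mi Cᶜ` (`Big.lkZ`), which is connected (`bt_Conn` or `sd_Conn`). -/
theorem mv_topc_Conn (hP : Pre G κ S) (h : Big G κ S v w t t' R) :
    Conn (sd G) (mi G (cs κ t')ᶜ \ Zb G κ v w t R) := by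
  obtain ⟨q0, hq0⟩ := h.bconn.1
  have hq0' : q0 ∈ bI G κ v w t R := hq0
  have hq0Z : q0 ∈ Zb G κ v w t R := Or.inr hq0
  rw [Conn_iff]
  refine ⟨⟨_, (h.trX hq0Z).1⟩, fun f hf x hx y hy => ?_⟩
  have hY : Conn (sd G) (mi G (cs κ t')ᶜ) := sd_Conn.2 (hP.cconn t')
  have k1 : ∀ q ∈ Zb G κ v w t R, f (tc κ {v, w} q) = f (tc κ {v, w} q0) := by
    intro q hq
    refine h.Z_Conn.const (f := fun q => f (tc κ {v, w} q)) ?_ hq hq0Z
    intro a b e
    rcases sd_adj.1 e.1 with h1 | h1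
    · exact f_le hf (h.trX e.2.1).1 (h.trX e.2.2).1 (h.mMono e.2.1 h1.le).1
    · exact (f_le hf (h.trX e.2.2).1 (h.trX e.2.1).1 (h.mMono e.2.2 h1.le).1).symm
  have k2 : ∀ q ∈ Zb G κ v w t R, f (tc κ {w, t} q) = f (tc κ {w, t} q0) := by
    intro q hq
    refine h.Z_Conn.const (f := fun q => f (tc κ {w, t} q)) ?_ hq hq0Z
    intro a b e
    rcases sd_adj.1 e.1 with h1 | h1
    · exact f_le hf (h.trX e.2.1).2 (h.trX e.2.2).2 (h.mMono e.2.1 h1.le).2
    · exact (f_le hf (h.trX e.2.2).2 (h.trX e.2.1).2 (h.mMono e.2.2 h1.le).2).symm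
  have k3 : f (tc κ {v, w} q0) = f (tc κ {w, t} q0) := by
    obtain ⟨w1, w2, w3⟩ := h.trW hq0'
    rw [← f_le hf w1 (h.trX hq0Z).1 w2, ← f_le hf w1 (h.trX hq0Z).2 w3]
  have k4 : ∀ q ∈ Zb G κ v w t R, ∀ r ∈ mi G (cs κ t')ᶜ \ Zb G κ v w t R, (sd G).Adj q r →
      f (tc κ {v, w} q0) = f r := by
    intro q hq r hr e
    rcases (h.lkZ hq hr e).2 with h1 | h1
    · rw [f_le hf hr (h.trX hq).1 h1, k1 q hq]
    · rw [f_le hf hr (h.trX hq).2 h1, k2 q hq, k3]
  have key := hY.const (f := fun z => if z ∈ Zb G κ v w t R then f (tc κ {v, w} q0) else f z) (by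
    intro a b e
    by_cases ha : a ∈ Zb G κ v w t R
    · by_cases hb : b ∈ Zb G κ v w t R
      · simp only [ha, hb, if_true]
      · simp only [ha, hb, if_true, if_false]
        exact k4 a ha b ⟨e.2.2, hb⟩ e.1
    · by_cases hb : b ∈ Zb G κ v w t R
      · simp only [ha, hb, if_true, if_false]
        exact (k4 b hb a ⟨e.2.1, ha⟩ e.1.symm).symm
      · simp only [ha, hb, if_false]
        exact hf a b ⟨e.1, ⟨e.2.1, ha⟩, ⟨e.2.2, hb⟩⟩) hx.1 hy.1
  simp only [hx.2, hy.2, if_false] at key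
  exact key

private theorem a_self {X : Set (Cq G)} {a : Cq G → Cq G → ZMod 2} (ha : a ∈ Z1 (sd G) X)
    (x : Cq G) : a x x = 0 :=
  (mem_Z1.1 ha).1 x x (fun h => (sd G).loopless.irrefl x h.1)

private theorem a_coc {X : Set (Cq G)} {a : Cq G → Cq G → ZMod 2} (ha : a ∈ Z1 (sd G) X)
    {x y z : Cq G} (hx : x ∈ X) (hy : y ∈ X) (hz : z ∈ X) (hxy : x ≤ y) (hyz : y ≤ z) :
    a x y + a y z = a x z := by
  rcases eq_or_lt_of_le hxy with e | e
  · rw [e, a_self ha, zero_add]
  · rcases eq_or_lt_of_le hyz with e' | e'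
    · rw [e', a_self ha, add_zero]
    · exact (mem_Z1.1 ha).2.2 x y z ⟨Or.inl e, hx, hy⟩ ⟨Or.inl e', hy, hz⟩
        ⟨Or.inl (e.trans e'), hx, hz⟩

/-- pull back along a monotone map of `Z` -/
private theorem pull {X Z : Set (Cq G)} {a : Cq G → Cq G → ZMod 2} (ha : a ∈ Z1 (sd G) X)
    (hZ : HZ (sd G) Z) (m : Cq G → Cq G) (h1 : ∀ q ∈ Z, m q ∈ X)
    (h2 : ∀ q ∈ Z, ∀ q' ∈ Z, q ≤ q' → m q ≤ m q') :
    ∃ g : Cq G → ZMod 2, ∀ q ∈ Z, ∀ q' ∈ Z, q ≤ q' → a (m q) (m q') = g q + g q' := by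
  have hs := (mem_Z1.1 ha).2.1
  obtain ⟨g, hg⟩ := hZ (fun x y => if EIn (sd G) Z x y then a (m x) (m y) else 0) (by
    refine mem_Z1.2 ⟨fun x y e => if_neg e, fun x y => ?_, fun x y z e1 e2 e3 => ?_⟩
    · by_cases e : EIn (sd G) Z x y
      · rw [if_pos e, if_pos e.symm, hs]
      · rw [if_neg e, if_neg (fun e' => e e'.symm)]
    · rw [if_pos e1, if_pos e2, if_pos e3]
      -- the three elements are pairwise comparable
      have key : ∀ p q r : Cq G, p ∈ Z → q ∈ Z → r ∈ Z → p ≤ q → q ≤ r →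
          a (m p) (m q) + a (m q) (m r) = a (m p) (m r) := fun p q r hp hq hr hpq hqr =>
        a_coc ha (h1 p hp) (h1 q hq) (h1 r hr) (h2 p hp q hq hpq) (h2 q hq r hr hqr)
      have hx := e1.2.1
      have hy := e1.2.2
      have hz := e2.2.2
      have alg : ∀ p q r : ZMod 2, p + q = r → r + q = p ∧ p + r = q := by decide
      rcases sd_adj.1 e1.1 with a1 | a1
      · rcases sd_adj.1 e2.1 with a2 | a2
        · exact key x y z hx hy hz a1.le a2.le
        · rcases sd_adj.1 e3.1 with a3 | a3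
          · -- x < z < y
            have k := key x z y hx hz hy a3.le a2.le
            rw [hs (m z) (m y)] at k
            exact (alg _ _ _ k).1
          · -- z < x < y
            have k := key z x y hz hx hy a3.le a1.le
            rw [hs (m z) (m x), hs (m z) (m y)] at k
            rw [add_comm] at k
            have k' := (alg _ _ _ k).2
            exact k'
      · rcases sd_adj.1 e2.1 with a2 | a2
        · rcases sd_adj.1 e3.1 with a3 | a3
          · -- y < x < z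
            have k := key y x z hy hx hz a1.le a3.le
            rw [hs (m y) (m x)] at k
            exact (alg _ _ _ k).2
          · -- y < z < x
            have k := key y z x hy hz hx a2.le a3.le
            rw [hs (m y) (m x), hs (m z) (m x), add_comm] at k
            have k' := (alg _ _ _ k).1
            exact k'
        · -- z < y < x
          have k := key z y x hz hy hx a2.le a1.le
          rw [hs (m z) (m y), hs (m y) (m x), hs (m z) (m x), add_comm] at k
          exact k)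
  refine ⟨g, fun q hq q' hq' hqq => ?_⟩
  rcases eq_or_lt_of_le hqq with e | e
  · rw [e, a_self ha, two_add]
  · have e' : EIn (sd G) Z q q' := ⟨Or.inl e, hq, hq'⟩
    have k := hg q q' e'
    beta_reduce at k
    rw [if_pos e'] at k
    exact k

/-- complement, `H^1 = 0`.  Sketch: let `a` be a cocycle of `mi Cᶜ \ Z`.  Put `m q := tc {v,w} q`,
`n q := tc {w,t} q` for `q ∈ Z` (monotone).  The pull backs `a (m q) (m q')`, `a (n q) (n q')` (`0` if the
arguments are equal) are cocycles of `Z`, `HZ Z` gives `g1`, `g2`.  For `q ∈ bI` let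
`u q := a (tc {w} q) (m q) + a (tc {w} q) (n q) + g1 q + g2 q`: locally constant on `bI`, which is connected:
`u = c`.  EXTENSION of `a` to `mi Cᶜ`: `0` on edges in `Z`; for `r < q`, `q ∈ Z`:
`a r (m q) + g1 q` if `r ≤ m q`, `a r (n q) + g2 q + c` if `r ≤ n q` (with `a x x = 0`; both formulas agree
if `r ≤ tc {w} q`, by the definition of `c`).  Check the triangles `r < r' < q` and `r < q < q'`.
The extension is a cocycle of `mi Cᶜ`, `HZ` (`sd_HZ`, `hP.chz`), so it is trivial, hence `a` is. -/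
theorem mv_topc_HZ (hP : Pre G κ S) (h : Big G κ S v w t t' R) :
    HZ (sd G) (mi G (cs κ t')ᶜ \ Zb G κ v w t R) := by
  intro a ha
  set X : Set (Cq G) := mi G (cs κ t')ᶜ \ Zb G κ v w t R with hX
  set Z : Set (Cq G) := Zb G κ v w t R with hZdef
  have hs := (mem_Z1.1 ha).2.1
  obtain ⟨g1, hg1⟩ := pull ha h.Z_HZ (fun q => tc κ {v, w} q) (fun q hq => (h.trX hq).1)
    (fun q hq q' _ e => (h.mMono hq e).1)
  obtain ⟨g2, hg2⟩ := pull ha h.Z_HZ (fun q => tc κ {w, t} q) (fun q hq => (h.trX hq).2)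
    (fun q hq q' _ e => (h.mMono hq e).2)
  obtain ⟨q0, hq0⟩ := h.bconn.1
  -- the constant
  obtain ⟨c, hc⟩ : ∃ c : ZMod 2, ∀ q ∈ bI G κ v w t R,
      a (tc κ {w} q) (tc κ {v, w} q) + a (tc κ {w} q) (tc κ {w, t} q) + g1 q + g2 q = c := by
    refine ⟨_, fun q hq => Conn.const h.bconn (f := fun q =>
      a (tc κ {w} q) (tc κ {v, w} q) + a (tc κ {w} q) (tc κ {w, t} q) + g1 q + g2 q) ?_ hq hq0⟩
    have step : ∀ p q : Cq G, p ∈ bI G κ v w t R → q ∈ bI G κ v w t R → p ≤ q →
        a (tc κ {w} p) (tc κ {v, w} p) + a (tc κ {w} p) (tc κ {w, t} p) + g1 p + g2 p =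
        a (tc κ {w} q) (tc κ {v, w} q) + a (tc κ {w} q) (tc κ {w, t} q) + g1 q + g2 q := by
      intro p q hp hq hpq
      have hpZ : p ∈ Z := Or.inr hp
      have hqZ : q ∈ Z := Or.inr hq
      obtain ⟨p1, p2, p3⟩ := h.trW hp
      obtain ⟨q1, q2, q3⟩ := h.trW hq
      have hcp : cols κ p = {v, w, t} := hp.2
      have hww : tc κ {w} p ≤ tc κ {w} q := tc_mono ⟨w, by rw [hcp]; simp, rfl⟩ hpq
      obtain ⟨m1, m2⟩ := h.mMono hpZ hpq
      have i1 := a_coc ha p1 (h.trX hpZ).1 (h.trX hqZ).1 p2 m1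
      have i2 := a_coc ha p1 q1 (h.trX hqZ).1 hww q2
      have i3 := a_coc ha p1 (h.trX hpZ).2 (h.trX hqZ).2 p3 m2
      have i4 := a_coc ha p1 q1 (h.trX hqZ).2 hww q3
      have j1 := hg1 p hpZ q hqZ hpq
      have j2 := hg2 p hpZ q hqZ hpq
      revert i1 i2 i3 i4 j1 j2
      generalize a (tc κ {w} p) (tc κ {v, w} p) = x1
      generalize a (tc κ {v, w} p) (tc κ {v, w} q) = x2
      generalize a (tc κ {w} p) (tc κ {v, w} q) = x3
      generalize a (tc κ {w} p) (tc κ {w} q) = x4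
      generalize a (tc κ {w} q) (tc κ {v, w} q) = x5
      generalize a (tc κ {w} p) (tc κ {w, t} p) = y1
      generalize a (tc κ {w, t} p) (tc κ {w, t} q) = y2
      generalize a (tc κ {w} p) (tc κ {w, t} q) = y3
      generalize a (tc κ {w} q) (tc κ {w, t} q) = y5
      generalize g1 p = s1
      generalize g1 q = s2
      generalize g2 p = s3
      generalize g2 q = s4
      intro i1 i2 i3 i4 j1 j2
      subst j1 j2
      subst i1 i3
      have e1 : x5 = x4 + (x1 + (s1 + s2)) := by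
        rw [← i2, ← add_assoc, two_add, zero_add]
      have e2 : y5 = x4 + (y1 + (s3 + s4)) := by
        rw [← i4, ← add_assoc, two_add, zero_add]
      rw [e1, e2]
      have t4 := two_add x4
      have t2 := two_add s2
      have t3 := two_add s4
      calc x1 + y1 + s1 + s3 = x1 + y1 + s1 + s3 + (x4 + x4) + (s2 + s2) + (s4 + s4) := by
            rw [t4, t2, t3, add_zero, add_zero, add_zero]
        _ = x4 + (x1 + (s1 + s2)) + (x4 + (y1 + (s3 + s4))) + s2 + s4 := by abel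
    intro x y e
    rcases sd_adj.1 e.1 with h1 | h1
    · exact step x y e.2.1 e.2.2 h1.le
    · exact (step y x e.2.2 e.2.1 h1.le).symm
  -- the values on mixed edges
  let φ : Cq G → Cq G → ZMod 2 := fun r q =>
    if r ≤ tc κ {v, w} q then a r (tc κ {v, w} q) + g1 q else a r (tc κ {w, t} q) + g2 q + c
  have φ1 : ∀ r q : Cq G, r ≤ tc κ {v, w} q → φ r q = a r (tc κ {v, w} q) + g1 q :=
    fun r q e => if_pos e
  have φ2 : ∀ r ∈ X, ∀ q ∈ Z, r ≤ tc κ {w, t} q → φ r q = a r (tc κ {w, t} q) + g2 q + c := by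
    intro r hr q hq e
    by_cases e1 : r ≤ tc κ {v, w} q
    · rw [φ1 r q e1]
      -- the colours of `r` are `{w}`
      obtain ⟨c1, c2, c3⟩ := h.colZ_sub hq
      have hrc : cols κ r ⊆ {w} := by
        intro x hx
        have x1 := cols_mono e1 hx
        have x2 := cols_mono e hx
        rw [tc_cols ⟨v, c1 (by simp), by simp⟩] at x1
        rw [tc_cols ⟨t, c1 (by simp), by simp⟩] at x2
        rcases x1.2 with y1 | y1
        · rcases x2.2 with y2 | y2
          · exact y2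
          · exact absurd (y1.symm.trans y2) h.ne_vt
        · exact y1
      have hwr : w ∈ cols κ r := by
        obtain ⟨x, hx⟩ := cols_ne (κ := κ) r
        have := hrc hx
        rw [Set.mem_singleton_iff] at this
        rw [← this]
        exact hx
      have hwq : w ∈ cols κ q := cols_mono (e.trans (tc_le q _)) hwr
      have hqb : q ∈ bI G κ v w t R := by
        rcases hq with hq | hq
        · exfalso
          rw [h.colR hq] at hwq
          rcases hwq with y | y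
          · exact h.ne_vw y.symm
          · exact h.ne_wt y
        · exact hq
      obtain ⟨w1, w2, w3⟩ := h.trW hqb
      have hrw : r ≤ tc κ {w} q := le_tc (e.trans (tc_le q _)) hrc
      have i1 := a_coc ha hr w1 (h.trX hq).1 hrw w2
      have i2 := a_coc ha hr w1 (h.trX hq).2 hrw w3
      rw [← i1, ← i2, ← hc q hqb]
      have t1 := two_add (a (tc κ {w} q) (tc κ {w, t} q))
      have t2 := two_add (g2 q)
      calc a r (tc κ {w} q) + a (tc κ {w} q) (tc κ {v, w} q) + g1 q =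
          a r (tc κ {w} q) + a (tc κ {w} q) (tc κ {v, w} q) + g1 q +
            (a (tc κ {w} q) (tc κ {w, t} q) + a (tc κ {w} q) (tc κ {w, t} q)) +
            (g2 q + g2 q) := by rw [t1, t2, add_zero, add_zero]
        _ = _ := by abel
    · exact if_neg e1
  -- the two kinds of mixed triangles
  have tri1 : ∀ r ∈ X, ∀ r' ∈ X, ∀ q ∈ Z, r ≤ r' → r' < q → a r r' + φ r' q = φ r q := by
    intro r hr r' hr' q hq e1 e2
    rcases (h.lkZ hq hr' (Or.inr e2)).2 with e3 | e3
    · rw [φ1 r' q e3, φ1 r q (e1.trans e3), ← a_coc ha hr hr' (h.trX hq).1 e1 e3]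
      abel
    · rw [φ2 r' hr' q hq e3, φ2 r hr q hq (e1.trans e3), ← a_coc ha hr hr' (h.trX hq).2 e1 e3]
      abel
  have tri2 : ∀ r ∈ X, ∀ q ∈ Z, ∀ q' ∈ Z, r < q → q ≤ q' → φ r q = φ r q' := by
    intro r hr q hq q' hq' e1 e2
    obtain ⟨m1, m2⟩ := h.mMono hq e2
    rcases (h.lkZ hq hr (Or.inr e1)).2 with e3 | e3
    · rw [φ1 r q e3, φ1 r q' (e3.trans m1), ← a_coc ha hr (h.trX hq).1 (h.trX hq').1 e3 m1,
        hg1 q hq q' hq' e2]
      have t1 := two_add (g1 q')
      calc a r (tc κ {v, w} q) + g1 q = a r (tc κ {v, w} q) + g1 q + (g1 q' + g1 q') := by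
            rw [t1, add_zero]
        _ = _ := by abel
    · rw [φ2 r hr q hq e3, φ2 r hr q' hq' (e3.trans m2),
        ← a_coc ha hr (h.trX hq).2 (h.trX hq').2 e3 m2, hg2 q hq q' hq' e2]
      have t1 := two_add (g2 q')
      calc a r (tc κ {w, t} q) + g2 q + c = a r (tc κ {w, t} q) + g2 q + c + (g2 q' + g2 q') := by
            rw [t1, add_zero]
        _ = _ := by abel
  -- the extension
  let A : Cq G → Cq G → ZMod 2 := fun x y =>
    if EIn (sd G) (mi G (cs κ t')ᶜ) x y then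
      (if x ∈ Z then (if y ∈ Z then 0 else φ y x) else (if y ∈ Z then φ x y else a x y))
    else 0
  have A0 : ∀ x y, ¬ EIn (sd G) (mi G (cs κ t')ᶜ) x y → A x y = 0 := fun x y e => if_neg e
  have Azz : ∀ x y, EIn (sd G) (mi G (cs κ t')ᶜ) x y → x ∈ Z → y ∈ Z → A x y = 0 := by
    intro x y e hx hy
    simp only [A, if_pos e, if_pos hx, if_pos hy]
  have Azx : ∀ x y, EIn (sd G) (mi G (cs κ t')ᶜ) x y → x ∈ Z → y ∉ Z → A x y = φ y x := by
    intro x y e hx hy
    simp only [A, if_pos e, if_pos hx, if_neg hy]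
  have Axz : ∀ x y, EIn (sd G) (mi G (cs κ t')ᶜ) x y → x ∉ Z → y ∈ Z → A x y = φ x y := by
    intro x y e hx hy
    simp only [A, if_pos e, if_neg hx, if_pos hy]
  have Axx : ∀ x y, EIn (sd G) (mi G (cs κ t')ᶜ) x y → x ∉ Z → y ∉ Z → A x y = a x y := by
    intro x y e hx hy
    simp only [A, if_pos e, if_neg hx, if_neg hy]
  have hAs : ∀ x y, A x y = A y x := by
    intro x y
    by_cases e : EIn (sd G) (mi G (cs κ t')ᶜ) x y
    · by_cases hx : x ∈ Z
      · by_cases hy : y ∈ Z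
        · rw [Azz x y e hx hy, Azz y x e.symm hy hx]
        · rw [Azx x y e hx hy, Axz y x e.symm hy hx]
      · by_cases hy : y ∈ Z
        · rw [Axz x y e hx hy, Azx y x e.symm hy hx]
        · rw [Axx x y e hx hy, Axx y x e.symm hy hx, hs]
    · rw [A0 x y e, A0 y x (fun e' => e e'.symm)]
  -- cocycle condition on chains
  have chain : ∀ x y z, x ∈ mi G (cs κ t')ᶜ → y ∈ mi G (cs κ t')ᶜ → z ∈ mi G (cs κ t')ᶜ →
      x < y → y < z → A x y + A y z = A x z := by
    intro x y z hx hy hz e1 e2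
    have exy : EIn (sd G) (mi G (cs κ t')ᶜ) x y := ⟨Or.inl e1, hx, hy⟩
    have eyz : EIn (sd G) (mi G (cs κ t')ᶜ) y z := ⟨Or.inl e2, hy, hz⟩
    have exz : EIn (sd G) (mi G (cs κ t')ᶜ) x z := ⟨Or.inl (e1.trans e2), hx, hz⟩
    by_cases hxZ : x ∈ Z
    · have hyZ : y ∈ Z := by
        by_contra hyZ
        have := (h.lkZ hxZ ⟨hy, hyZ⟩ (Or.inl e1)).1
        exact lt_asymm this e1
      have hzZ : z ∈ Z := by
        by_contra hzZ
        have := (h.lkZ hyZ ⟨hz, hzZ⟩ (Or.inl e2)).1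
        exact lt_asymm this e2
      rw [Azz x y exy hxZ hyZ, Azz y z eyz hyZ hzZ, Azz x z exz hxZ hzZ, add_zero]
    · by_cases hyZ : y ∈ Z
      · have hzZ : z ∈ Z := by
          by_contra hzZ
          have := (h.lkZ hyZ ⟨hz, hzZ⟩ (Or.inl e2)).1
          exact lt_asymm this e2
        rw [Axz x y exy hxZ hyZ, Azz y z eyz hyZ hzZ, Axz x z exz hxZ hzZ, add_zero]
        exact tri2 x ⟨hx, hxZ⟩ y hyZ z hzZ e1 e2.le
      · by_cases hzZ : z ∈ Z
        · rw [Axx x y exy hxZ hyZ, Axz y z eyz hyZ hzZ, Axz x z exz hxZ hzZ]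
          exact tri1 x ⟨hx, hxZ⟩ y ⟨hy, hyZ⟩ z hzZ e1.le e2
        · rw [Axx x y exy hxZ hyZ, Axx y z eyz hyZ hzZ, Axx x z exz hxZ hzZ]
          exact a_coc ha ⟨hx, hxZ⟩ ⟨hy, hyZ⟩ ⟨hz, hzZ⟩ e1.le e2.le
  have hA : A ∈ Z1 (sd G) (mi G (cs κ t')ᶜ) := by
    refine mem_Z1.2 ⟨A0, hAs, fun x y z e1 e2 e3 => ?_⟩
    have hx := e1.2.1
    have hy := e1.2.2
    have hz := e2.2.2
    have alg : ∀ p q r : ZMod 2, p + q = r → r + q = p ∧ p + r = q := by decide
    rcases sd_adj.1 e1.1 with a1 | a1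
    · rcases sd_adj.1 e2.1 with a2 | a2
      · exact chain x y z hx hy hz a1 a2
      · rcases sd_adj.1 e3.1 with a3 | a3
        · have k := chain x z y hx hz hy a3 a2
          rw [hAs z y] at k
          exact (alg _ _ _ k).1
        · have k := chain z x y hz hx hy a3 a1
          rw [hAs z x, hAs z y, add_comm] at k
          exact (alg _ _ _ k).2
    · rcases sd_adj.1 e2.1 with a2 | a2
      · rcases sd_adj.1 e3.1 with a3 | a3
        · have k := chain y x z hy hx hz a1 a3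
          rw [hAs y x] at k
          exact (alg _ _ _ k).2
        · have k := chain y z x hy hz hx a2 a3
          rw [hAs y x, hAs z x, add_comm] at k
          exact (alg _ _ _ k).1
      · have k := chain z y x hz hy hx a2 a1
        rw [hAs z y, hAs y x, hAs z x, add_comm] at k
        exact k
  obtain ⟨F, hF⟩ := sd_HZ.2 (hP.chz t') A hA
  refine ⟨F, fun x y e => ?_⟩
  have e' : EIn (sd G) (mi G (cs κ t')ᶜ) x y := ⟨e.1, e.2.1.1, e.2.2.1⟩
  rw [← hF x y e', Axx x y e' e.2.1.2 e.2.2.2]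

end MOT.Pa
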