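import Pool.Agent.MOT.PaBig
import Pool.Agent.MOT.Sdi

/-!
# MOT/PaMvFX: chains of a poset meeting given sets (fibre over the greatest element) (block I)
-/

open Classical

noncomputable section

namespace MOT.Pa.FX

variable {V : Type} {G : SimpleGraph V}

/-- `Q` with a new greatest element `a` -/
def insC (a : Cq G) (Q : Cq (sd G)) : Cq (sd G) :=
  if h : ∀ q ∈ Q.1, q ≤ a then ⟨insert a Q.1, ⟨a, Finset.mem_insert_self _ _⟩, by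
    intro x hx y hy hxy
    have hx' := Finset.mem_insert.1 (Finset.mem_coe.1 hx)
    have hy' := Finset.mem_insert.1 (Finset.mem_coe.1 hy)
    rcases hx' with rfl | hx'
    · rcases hy' with rfl | hy'
      · exact absurd rfl hxy
      · exact Or.inr (lt_of_le_of_ne (h y hy') (Ne.symm hxy))
    · rcases hy' with rfl | hy'
      · exact Or.inl (lt_of_le_of_ne (h x hx') hxy)
      · exact Q.2.2 (Finset.mem_coe.2 hx') (Finset.mem_coe.2 hy') hxy⟩ else Q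

theorem mem_insC {a : Cq G} {Q : Cq (sd G)} (h : ∀ q ∈ Q.1, q ≤ a) {q : Cq G} :
    q ∈ (insC a Q).1 ↔ q = a ∨ q ∈ Q.1 := by
  unfold insC
  rw [dif_pos h]
  exact Finset.mem_insert

theorem le_insC (a : Cq G) (Q : Cq (sd G)) : Q ≤ insC a Q := by
  by_cases h : ∀ q ∈ Q.1, q ≤ a
  · exact Cq.le_iff.2 fun q hq => (mem_insC h).2 (Or.inr hq)
  · unfold insC
    rw [dif_neg h]

theorem insC_mono {a : Cq G} {Q Q' : Cq (sd G)} (h : ∀ q ∈ Q'.1, q ≤ a) (hQ : Q ≤ Q') :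
    insC a Q ≤ insC a Q' := by
  refine Cq.le_iff.2 fun q hq => (mem_insC h).2 ?_
  rcases (mem_insC (fun q hq => h q (hQ hq))).1 hq with e | e
  · exact Or.inl e
  · exact Or.inr (hQ e)

theorem mem_tr {M : Set (Cq G)} {Q : Cq (sd G)} (h : ∃ q ∈ Q.1, q ∈ M) {q : Cq G} :
    q ∈ (tr M Q).1 ↔ q ∈ Q.1 ∧ q ∈ M := by
  rw [tr_val (G := sd G) h, Finset.mem_filter]

/-- the chains of `U` with the new greatest element `a` -/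
def CN (a : Cq G) (U : Set (Cq (sd G))) : Set (Cq (sd G)) :=
  {Q | ∃ Q' ∈ U, ∀ q, q ∈ Q.1 ↔ q = a ∨ q ∈ Q'.1}

section cn

variable {a : Cq G} {U : Set (Cq (sd G))}

private theorem cq_ext {Q Q' : Cq (sd G)} (h : ∀ q, q ∈ Q.1 ↔ q ∈ Q'.1) : Q = Q' :=
  Subtype.ext (Finset.ext h)

private theorem cn_up (ha : ∀ Q ∈ U, ∀ q ∈ Q.1, q < a) :
    (∀ Q ∈ U ∪ CN a U, ∀ q ∈ Q.1, q ≤ a) ∧ (∀ Q ∈ U ∪ CN a U, insC a Q ∈ CN a U) ∧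
      ∀ Q ∈ CN a U, insC a Q = Q := by
  have h1 : ∀ Q ∈ U ∪ CN a U, ∀ q ∈ Q.1, q ≤ a := by
    rintro Q (hQ | ⟨Q', hQ', hq⟩) q hqQ
    · exact (ha Q hQ q hqQ).le
    · rcases (hq q).1 hqQ with e | e
      · exact e.le
      · exact (ha Q' hQ' q e).le
  have h2 : ∀ Q ∈ CN a U, insC a Q = Q := by
    intro Q hQ
    refine cq_ext fun q => ?_
    rw [mem_insC (h1 Q (Or.inr hQ))]
    obtain ⟨Q', hQ', hq⟩ := hQ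
    rw [hq]
    tauto
  refine ⟨h1, ?_, h2⟩
  rintro Q (hQ | hQ)
  · exact ⟨Q, hQ, fun q => mem_insC (h1 Q (Or.inl hQ))⟩
  · rw [h2 Q hQ]; exact hQ

private theorem cn_dn (ha : ∀ Q ∈ U, ∀ q ∈ Q.1, q < a) :
    (∀ Q ∈ U ∪ CN a U, ∃ q ∈ Q.1, q ∈ {q | q ≠ a}) ∧
    (∀ Q ∈ U ∪ CN a U, tr {q | q ≠ a} Q ∈ U) ∧ ∀ Q ∈ U, tr {q | q ≠ a} Q = Q := by
  have h1 : ∀ Q ∈ U ∪ CN a U, ∃ q ∈ Q.1, q ∈ {q | q ≠ a} := by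
    rintro Q (hQ | ⟨Q', hQ', hq⟩)
    · obtain ⟨q, hq⟩ := Q.2.1
      exact ⟨q, hq, (ha Q hQ q hq).ne⟩
    · obtain ⟨q, hq'⟩ := Q'.2.1
      exact ⟨q, (hq q).2 (Or.inr hq'), (ha Q' hQ' q hq').ne⟩
  have h2 : ∀ Q ∈ U, tr {q | q ≠ a} Q = Q := fun Q hQ =>
    tr_id (G := sd G) fun q hq => (ha Q hQ q hq).ne
  refine ⟨h1, ?_, h2⟩
  rintro Q (hQ | ⟨Q', hQ', hq⟩)
  · rw [h2 Q hQ]; exact hQ
  · have e : tr {q | q ≠ a} Q = Q' := by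
      refine cq_ext fun q => ?_
      rw [mem_tr (h1 Q (Or.inr ⟨Q', hQ', hq⟩)), hq]
      constructor
      · rintro ⟨h | h, h'⟩
        · exact absurd h h'
        · exact h
      · intro h
        exact ⟨Or.inr h, (ha Q' hQ' q h).ne⟩
    rw [e]; exact hQ'

theorem cn_Conn (ha : ∀ Q ∈ U, ∀ q ∈ Q.1, q < a) (hU : Conn (sd (sd G)) U) :
    Conn (sd (sd G)) (CN a U) := by
  obtain ⟨h1, h2, h3⟩ := cn_up ha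
  obtain ⟨g1, g2, g3⟩ := cn_dn ha
  have h4 : Conn (sd (sd G)) (U ∪ CN a U) :=
    (ret_Conn (tr {q | q ≠ a}) (S' := U) Set.subset_union_left g2
      (fun Q _ => tr_le Q) fun Q hQ Q' _ h => tr_mono (G := sd G) (g1 Q hQ) h).2 hU
  exact (retu_Conn (insC a) (S' := CN a U) Set.subset_union_right h2
    (fun Q _ => le_insC a Q) fun Q _ Q' hQ' h => insC_mono (h1 Q' hQ') h).1 h4

theorem cn_HZ (ha : ∀ Q ∈ U, ∀ q ∈ Q.1, q < a) (hU : HZ (sd (sd G)) U) :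
    HZ (sd (sd G)) (CN a U) := by
  obtain ⟨h1, h2, h3⟩ := cn_up ha
  obtain ⟨g1, g2, g3⟩ := cn_dn ha
  have h4 : HZ (sd (sd G)) (U ∪ CN a U) :=
    (ret_HZ (tr {q | q ≠ a}) (S' := U) Set.subset_union_left g2
      (fun Q _ => tr_le Q) (fun Q hQ Q' _ h => tr_mono (G := sd G) (g1 Q hQ) h) g3).2 hU
  exact (retu_HZ (insC a) (S' := CN a U) Set.subset_union_right h2
    (fun Q _ => le_insC a Q) (fun Q _ Q' hQ' h => insC_mono (h1 Q' hQ') h) h3).1 h4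

end cn

section step

variable {A : Set (Cq G)} {U : Set (Cq (sd G))}

/-- chains which meet `A`, the rest of the chain in `U` -/
def CX (A : Set (Cq G)) (U : Set (Cq (sd G))) : Set (Cq (sd G)) :=
  {Q | (∃ a ∈ Q.1, a ∈ A) ∧ ∃ Q' ∈ U, ∀ q, q ∈ Q'.1 ↔ q ∈ Q.1 ∧ q ∉ A}

theorem cx_tp (hA : ∀ Q ∈ U, ∀ b ∈ Q.1, ∀ a ∈ A, ¬ a ≤ b) {Q : Cq (sd G)} (hQ : Q ∈ CX A U) :
    tp Q ∈ A := by
  obtain ⟨⟨a, ha, haA⟩, Q', hQ', h⟩ := hQ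
  by_contra hn
  exact hA Q' hQ' (tp Q) ((h _).2 ⟨tp_mem Q, hn⟩) a haA (le_tp ha)

private theorem cx_lt (hA : ∀ Q ∈ U, ∀ b ∈ Q.1, ∀ a ∈ A, ¬ a ≤ b) {a : Cq G} (ha : a ∈ A) :
    ∀ Q ∈ {Q | Q ∈ U ∧ ∀ q ∈ Q.1, q ≤ a}, ∀ q ∈ Q.1, q < a := by
  rintro Q ⟨hQ, h⟩ q hq
  refine lt_of_le_of_ne (h q hq) ?_
  rintro rfl
  exact hA Q hQ q hq q ha le_rfl

/-- the fibre over `a` -/
private theorem cx_fib (hA : ∀ Q ∈ U, ∀ b ∈ Q.1, ∀ a ∈ A, ¬ a ≤ b) {a : Cq G} (ha : a ∈ A)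
    (p : Set (Cq (sd G)) → Prop)
    (pu : ∀ (S S' : Set (Cq (sd G))) (r : Cq (sd G) → Cq (sd G)), S' ⊆ S → (∀ x ∈ S, r x ∈ S') →
      (∀ x ∈ S, x ≤ r x) → (∀ x ∈ S, ∀ y ∈ S, x ≤ y → r x ≤ r y) → (∀ x ∈ S', r x = x) →
      p S' → p S)
    (pd : ∀ (S S' : Set (Cq (sd G))) (r : Cq (sd G) → Cq (sd G)), S' ⊆ S → (∀ x ∈ S, r x ∈ S') →
      (∀ x ∈ S, r x ≤ x) → (∀ x ∈ S, ∀ y ∈ S, x ≤ y → r x ≤ r y) → (∀ x ∈ S', r x = x) →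
      p S' → p S)
    (h : p (CN a {Q | Q ∈ U ∧ ∀ q ∈ Q.1, q ≤ a})) : p {Q | Q ∈ CX A U ∧ tp Q ≤ a} := by
  have hle : ∀ Q : Cq (sd G), tp Q ≤ a ↔ ∀ q ∈ Q.1, q ≤ a := fun Q =>
    ⟨fun h q hq => (le_tp hq).trans h, fun h => h _ (tp_mem Q)⟩
  refine pu _ {Q | (Q ∈ CX A U ∧ tp Q ≤ a) ∧ a ∈ Q.1} (insC a) (fun Q hQ => hQ.1) ?_
    (fun Q _ => le_insC a Q) (fun Q _ Q' hQ' h => insC_mono ((hle Q').1 hQ'.2) h) ?_ ?_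
  · rintro Q ⟨⟨-, Q', hQ', hq⟩, hQa⟩
    have h1 := (hle Q).1 hQa
    refine ⟨⟨⟨⟨a, (mem_insC h1).2 (Or.inl rfl), ha⟩, Q', hQ', fun q => ?_⟩, ?_⟩,
      (mem_insC h1).2 (Or.inl rfl)⟩
    · rw [hq, mem_insC h1]
      constructor
      · rintro ⟨h2, h3⟩; exact ⟨Or.inr h2, h3⟩
      · rintro ⟨h2 | h2, h3⟩
        · rw [h2] at h3; exact absurd ha h3
        · exact ⟨h2, h3⟩
    · refine (hle _).2 fun q hq => ?_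
      rcases (mem_insC h1).1 hq with e | e
      · exact e.le
      · exact h1 q e
  · rintro Q ⟨⟨-, hQa⟩, haQ⟩
    refine Subtype.ext (Finset.ext fun q => ?_)
    rw [mem_insC ((hle Q).1 hQa)]
    constructor
    · rintro (e | e)
      · rw [e]; exact haQ
      · exact e
    · exact Or.inr
  have hm : ∀ Q : Cq (sd G), a ∈ Q.1 → ∃ q ∈ Q.1, q ∈ {q | q = a ∨ q ∉ A} :=
    fun Q hQ => ⟨a, hQ, Or.inl rfl⟩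
  refine pd _ (CN a {Q | Q ∈ U ∧ ∀ q ∈ Q.1, q ≤ a}) (tr {q | q = a ∨ q ∉ A}) ?_ ?_
    (fun Q _ => tr_le Q) (fun Q hQ Q' _ h => tr_mono (G := sd G) (hm Q hQ.2) h) ?_ h
  · rintro Q ⟨Q', ⟨hQ', hQa⟩, hq⟩
    have haQ : a ∈ Q.1 := (hq a).2 (Or.inl rfl)
    refine ⟨⟨⟨⟨a, haQ, ha⟩, Q', hQ', fun q => ?_⟩, ?_⟩, haQ⟩
    · constructor
      · intro h1
        exact ⟨(hq q).2 (Or.inr h1), fun h2 => hA Q' hQ' q h1 q h2 le_rfl⟩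
      · rintro ⟨h1, h2⟩
        rcases (hq q).1 h1 with e | e
        · rw [e] at h2; exact absurd ha h2
        · exact e
    · refine (hle _).2 fun q h1 => ?_
      rcases (hq q).1 h1 with e | e
      · exact e.le
      · exact hQa q e
  · rintro Q ⟨⟨⟨-, Q', hQ', hq⟩, hQa⟩, haQ⟩
    refine ⟨Q', ⟨hQ', fun q h1 => (hle Q).1 hQa q ((hq q).1 h1).1⟩, fun q => ?_⟩
    rw [mem_tr (hm Q haQ), hq]
    constructor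
    · rintro ⟨h1, h2 | h2⟩
      · exact Or.inl h2
      · exact Or.inr ⟨h1, h2⟩
    · rintro (e | ⟨h1, h2⟩)
      · rw [e]; exact ⟨haQ, Or.inl rfl⟩
      · exact ⟨h1, Or.inr h2⟩
  · rintro Q ⟨Q', ⟨hQ', hQa⟩, hq⟩
    refine tr_id (G := sd G) fun q h1 => ?_
    rcases (hq q).1 h1 with e | e
    · exact Or.inl e
    · exact Or.inr fun h2 => hA Q' hQ' q e q h2 le_rfl

private theorem cx_fib_Conn (hA : ∀ Q ∈ U, ∀ b ∈ Q.1, ∀ a ∈ A, ¬ a ≤ b) {a : Cq G} (ha : a ∈ A)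
    (h : Conn (sd (sd G)) {Q | Q ∈ U ∧ ∀ q ∈ Q.1, q ≤ a}) :
    Conn (sd (sd G)) {Q | Q ∈ CX A U ∧ tp Q ≤ a} :=
  cx_fib hA ha (Conn (sd (sd G))) (fun _ _ r h1 h2 h3 h4 _ => (retu_Conn r h1 h2 h3 h4).2)
    (fun _ _ r h1 h2 h3 h4 _ => (ret_Conn r h1 h2 h3 h4).2) (cn_Conn (cx_lt hA ha) h)

private theorem cx_fib_HZ (hA : ∀ Q ∈ U, ∀ b ∈ Q.1, ∀ a ∈ A, ¬ a ≤ b) {a : Cq G} (ha : a ∈ A)
    (h : HZ (sd (sd G)) {Q | Q ∈ U ∧ ∀ q ∈ Q.1, q ≤ a}) :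
    HZ (sd (sd G)) {Q | Q ∈ CX A U ∧ tp Q ≤ a} :=
  cx_fib hA ha (HZ (sd (sd G))) (fun _ _ r h1 h2 h3 h4 h5 => (retu_HZ r h1 h2 h3 h4 h5).2)
    (fun _ _ r h1 h2 h3 h4 h5 => (ret_HZ r h1 h2 h3 h4 h5).2) (cn_HZ (cx_lt hA ha) h)

theorem cx_Conn (hA : ∀ Q ∈ U, ∀ b ∈ Q.1, ∀ a ∈ A, ¬ a ≤ b) (hc : Conn (sd G) A)
    (h : ∀ a ∈ A, Conn (sd (sd G)) {Q | Q ∈ U ∧ ∀ q ∈ Q.1, q ≤ a}) :
    Conn (sd (sd G)) (CX A U) :=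
  fibd_Conn tp (fun _ _ _ _ h => tp_mono h) (fun _ hQ => cx_tp hA hQ)
    (fun a ha => cx_fib_Conn hA ha (h a ha)) hc

theorem cx_HZ (hA : ∀ Q ∈ U, ∀ b ∈ Q.1, ∀ a ∈ A, ¬ a ≤ b) (hc : HZ (sd G) A)
    (h : ∀ a ∈ A, Conn (sd (sd G)) {Q | Q ∈ U ∧ ∀ q ∈ Q.1, q ≤ a})
    (h' : ∀ a ∈ A, HZ (sd (sd G)) {Q | Q ∈ U ∧ ∀ q ∈ Q.1, q ≤ a}) :
    HZ (sd (sd G)) (CX A U) :=
  fibd_HZ tp (fun _ _ _ _ h => tp_mono h) (fun _ hQ => cx_tp hA hQ)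
    (fun a ha => ⟨cx_fib_Conn hA ha (h a ha), cx_fib_HZ hA ha (h' a ha)⟩) hc

end step

section two

variable {A B : Set (Cq G)}

/-- chains in `A ∪ B` which meet both sets -/
def UAB (A B : Set (Cq G)) : Set (Cq (sd G)) :=
  {Q | (∃ q ∈ Q.1, q ∈ A) ∧ (∃ q ∈ Q.1, q ∈ B) ∧ ∀ q ∈ Q.1, q ∈ A ∨ q ∈ B}

private theorem uab_eq (hA : ∀ b ∈ B, ∀ a ∈ A, ¬ a ≤ b) : UAB A B = CX A (mi (sd G) B) := by
  ext Q
  constructor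
  · rintro ⟨h1, h2, h3⟩
    refine ⟨h1, tr B Q, tr_mem (G := sd G) h2, fun q => ?_⟩
    rw [mem_tr h2]
    constructor
    · rintro ⟨h4, h5⟩
      exact ⟨h4, fun h6 => hA q h5 q h6 le_rfl⟩
    · rintro ⟨h4, h5⟩
      exact ⟨h4, (h3 q h4).resolve_left h5⟩
  · rintro ⟨h1, Q', hQ', h⟩
    obtain ⟨b, hb⟩ := Q'.2.1
    refine ⟨h1, ⟨b, ((h b).1 hb).1, hQ' b hb⟩, fun q hq => ?_⟩
    by_cases hqA : q ∈ A
    · exact Or.inl hqA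
    · exact Or.inr (hQ' q ((h q).2 ⟨hq, hqA⟩))

private theorem mi_le (a : Cq G) : {Q : Cq (sd G) | Q ∈ mi (sd G) B ∧ ∀ q ∈ Q.1, q ≤ a} =
    mi (sd G) {q | q ∈ B ∧ q ≤ a} := by
  ext Q
  exact ⟨fun h q hq => ⟨h.1 q hq, h.2 q hq⟩, fun h => ⟨fun q hq => (h q hq).1,
    fun q hq => (h q hq).2⟩⟩

theorem uab_Conn (hA : ∀ b ∈ B, ∀ a ∈ A, ¬ a ≤ b) (hc : Conn (sd G) A)
    (h : ∀ a ∈ A, Conn (sd G) {q | q ∈ B ∧ q ≤ a}) : Conn (sd (sd G)) (UAB A B) := by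
  rw [uab_eq hA]
  refine cx_Conn (fun Q hQ b hb a ha => hA b (hQ b hb) a ha) hc fun a ha => ?_
  rw [mi_le]
  exact sd_Conn.2 (h a ha)

theorem uab_HZ (hA : ∀ b ∈ B, ∀ a ∈ A, ¬ a ≤ b) (hc : HZ (sd G) A)
    (h : ∀ a ∈ A, Conn (sd G) {q | q ∈ B ∧ q ≤ a})
    (h' : ∀ a ∈ A, HZ (sd G) {q | q ∈ B ∧ q ≤ a}) : HZ (sd (sd G)) (UAB A B) := by
  rw [uab_eq hA]
  refine cx_HZ (fun Q hQ b hb a ha => hA b (hQ b hb) a ha) hc (fun a ha => ?_) fun a ha => ?_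
  · rw [mi_le]
    exact sd_Conn.2 (h a ha)
  · rw [mi_le]
    exact sd_HZ.2 (h' a ha)

theorem uab_le (a : Cq G) : {Q : Cq (sd G) | Q ∈ UAB A B ∧ ∀ q ∈ Q.1, q ≤ a} =
    UAB {q | q ∈ A ∧ q ≤ a} {q | q ∈ B ∧ q ≤ a} := by
  ext Q
  constructor
  · rintro ⟨⟨⟨x, hx, hxA⟩, ⟨y, hy, hyB⟩, h⟩, ha⟩
    refine ⟨⟨x, hx, hxA, ha x hx⟩, ⟨y, hy, hyB, ha y hy⟩, fun q hq => ?_⟩
    rcases h q hq with e | e
    · exact Or.inl ⟨e, ha q hq⟩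
    · exact Or.inr ⟨e, ha q hq⟩
  · rintro ⟨⟨x, hx, hxA⟩, ⟨y, hy, hyB⟩, h⟩
    refine ⟨⟨⟨x, hx, hxA.1⟩, ⟨y, hy, hyB.1⟩, fun q hq => ?_⟩, fun q hq => ?_⟩
    · rcases h q hq with e | e
      · exact Or.inl e.1
      · exact Or.inr e.1
    · rcases h q hq with e | e
      · exact e.2
      · exact e.2

end two

end MOT.Pa.FX
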