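import Pool.Agent.MOT.PaMvE
import Pool.Agent.MOT.PaMvFX

/-!
# MOT/PaMvF: the bigon move, the disc `{t, t'}`, second half (block I)
-/

open Classical

noncomputable section

namespace MOT.Pa

variable {V C W : Type} {G : SimpleGraph V} {κ : V → C} {S : Sys C} {ρ : C → ℕ}
  {v w t t' : C} {R : Set (Cq G)}

private theorem nt_not (h : Big G κ S v w t t' R) (hρ : Rho S t t' ρ) :
    ∀ b ∈ {q | nk κ ρ (Zb G κ v w t R) t' q = t}, ∀ a ∈ Zb G κ v w t R, ¬ a ≤ b := by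
  intro b hb a ha hab
  obtain ⟨_, h2, h3⟩ := (h.nk_t hρ).1 hb
  rcases h.up ha hab with h4 | ⟨_, h4 | h4⟩
  · exact h3 h4
  · have e : cols κ b = {v, t, t'} := h4
    rw [e] at h2
    exact h2 (by simp)
  · have e : cols κ b = {v, w, t, t'} := h4
    rw [e] at h2
    exact h2 (by simp)

private theorem aI_t' {q : Cq G} (hq : q ∈ aI G κ v w t t' R) : t' ∈ cols κ q := by
  rcases hq with ⟨_, h | h⟩
  · have e : cols κ q = {v, t, t'} := h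
    rw [e]; simp
  · have e : cols κ q = {v, w, t, t'} := h
    rw [e]; simp

private theorem nt_tc (h : Big G κ S v w t t' R) (hρ : Rho S t t' ρ) {q : Cq G}
    (hq : t ∈ cols κ q) : nk κ ρ (Zb G κ v w t R) t' (tc κ {t} q) = t := by
  have e : cols κ (tc κ {t} q) = {t} :=
    tc_cols_sub (Set.singleton_nonempty t) (Set.singleton_subset_iff.2 hq)
  refine (h.nk_t hρ).2 ⟨?_, ?_, fun hz => ?_⟩
  · rw [e]; exact Set.mem_singleton t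
  · rw [e]; exact fun h1 => h.ne_tt (Set.mem_singleton_iff.1 h1).symm
  · have h1 := (h.colZ_sub hz).1 (Set.mem_insert v _)
    rw [e] at h1
    exact h.ne_vt (Set.mem_singleton_iff.1 h1)

/-- elements of new colour `t` below an element of `Z` -/
private theorem nt_le (h : Big G κ S v w t t' R) (hρ : Rho S t t' ρ) {z : Cq G}
    (hz : z ∈ Zb G κ v w t R) :
    Conn (sd G) {q | q ∈ {q | nk κ ρ (Zb G κ v w t R) t' q = t} ∧ q ≤ z} ∧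
      HZ (sd G) {q | q ∈ {q | nk κ ρ (Zb G κ v w t R) t' q = t} ∧ q ≤ z} := by
  have hzt : t ∈ cols κ z := (h.colZ_sub hz).1 (by simp)
  have h0 : ∀ q ∈ {q | q ∈ {q | nk κ ρ (Zb G κ v w t R) t' q = t} ∧ q ≤ z}, t ∈ cols κ q :=
    fun q hq => ((h.nk_t hρ).1 hq.1).1
  have hm : tc κ {t} z ∈ {q | q ∈ {q | nk κ ρ (Zb G κ v w t R) t' q = t} ∧ q ≤ z} :=
    ⟨nt_tc h hρ hzt, tc_le _ _⟩
  have h2 : ∀ q ∈ {q | q ∈ {q | nk κ ρ (Zb G κ v w t R) t' q = t} ∧ q ≤ z},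
      tc κ {t} q ∈ {q | q ∈ {q | nk κ ρ (Zb G κ v w t R) t' q = t} ∧ q ≤ z} :=
    fun q hq => ⟨nt_tc h hρ (h0 q hq), (tc_le _ _).trans hq.2⟩
  have h4 : ∀ q ∈ {q | q ∈ {q | nk κ ρ (Zb G κ v w t R) t' q = t} ∧ q ≤ z},
      tc κ {t} q ≤ tc κ {t} z := fun q hq => tc_mono ⟨t, h0 q hq, rfl⟩ hq.2
  exact ⟨cc_Conn hm (tc κ {t}) h2 (fun q _ => tc_le _ _) h4,
    cc_HZ hm (tc κ {t}) h2 (fun q _ => tc_le _ _) h4
      fun q hq r _ hqr => tc_mono ⟨t, h0 q hq, rfl⟩ hqr⟩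

/-- `U2` is a copy of `Z`.  First retract (downwards) by `Q ↦ Q ∩ (Z ∪ {new colour t})`.  Then fibre lemma
`fibd_*` for `Q ↦` greatest element of `Q ∩ Z` (`= tp Q` now, since an element of new colour `t` is never
above an element of `Z`, `Big.up`) with values in `Z` (`Big.Z_Conn`, `Big.Z_HZ`).  Fibre over `q0 ∈ Z`: add
`q0`, remove the other elements of `Z`; what remains is `T ∪ {q0}`, `T` a nonempty chain of elements `q < q0`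
of new colour `t`: retracts by `q ↦ tc {t} q`, greatest element `tc {t} q0`. -/
theorem U2_ok (h : Big G κ S v w t t' R) (hρ : Rho S t t' ρ) :
    Conn (sd (sd G)) (U2 G κ ρ v w t t' R) ∧ HZ (sd (sd G)) (U2 G κ ρ v w t t' R) := by
  have hA := nt_not h hρ
  have c1 := FX.uab_Conn hA h.Z_Conn fun a ha => (nt_le h hρ ha).1
  have c2 := FX.uab_HZ hA h.Z_HZ (fun a ha => (nt_le h hρ ha).1) fun a ha => (nt_le h hρ ha).2
  set N : Set (Cq G) := {q | nk κ ρ (Zb G κ v w t R) t' q = t} with hN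
  have hm : ∀ Q ∈ U2 G κ ρ v w t t' R, ∃ q ∈ Q.1, q ∈ Zb G κ v w t R ∪ N := by
    rintro Q ⟨⟨q, hq, hq'⟩, -⟩
    exact ⟨q, hq, Or.inr hq'⟩
  have h1 : FX.UAB (Zb G κ v w t R) N ⊆ U2 G κ ρ v w t t' R := fun Q hQ => ⟨hQ.2.1, hQ.1⟩
  have h2 : ∀ Q ∈ U2 G κ ρ v w t t' R, tr (Zb G κ v w t R ∪ N) Q ∈
      FX.UAB (Zb G κ v w t R) N := by
    intro Q hQ
    have hQ' := hm Q hQ
    obtain ⟨⟨q, hq, hq'⟩, z, hz, hz'⟩ := hQ
    refine ⟨⟨z, (FX.mem_tr hQ').2 ⟨hz, Or.inl hz'⟩, hz'⟩,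
      ⟨q, (FX.mem_tr hQ').2 ⟨hq, Or.inr hq'⟩, hq'⟩, fun x hx => ((FX.mem_tr hQ').1 hx).2⟩
  have h5 : ∀ Q ∈ FX.UAB (Zb G κ v w t R) N, tr (Zb G κ v w t R ∪ N) Q = Q :=
    fun Q hQ => tr_id (G := sd G) fun q hq => hQ.2.2 q hq
  exact ⟨(ret_Conn (tr (Zb G κ v w t R ∪ N)) h1 h2 (fun Q _ => tr_le Q)
      fun Q hQ Q' _ h => tr_mono (G := sd G) (hm Q hQ) h).2 c1,
    (ret_HZ (tr (Zb G κ v w t R ∪ N)) h1 h2 (fun Q _ => tr_le Q)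
      (fun Q hQ Q' _ h => tr_mono (G := sd G) (hm Q hQ) h) h5).2 c2⟩

/-- `U1 ∩ U2` is a copy of the closed arc `aI`: `tp` maps it to `aI` (the element with colour `t'` is above
an element of `Z`, `Big.up`), fibre over `q0 ∈ aI`: add `q0`, remove the other elements of `aI`; add
`z0 := tc {v, w, t} q0 ∈ Z`, remove the other elements of `Z`; then as before below `z0`. -/
theorem U12_Conn (h : Big G κ S v w t t' R) (hρ : Rho S t t' ρ) :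
    Conn (sd (sd G)) (U1 G κ ρ v w t t' R ∩ U2 G κ ρ v w t t' R) := by
  have hA := nt_not h hρ
  have hN' : ∀ q ∈ {q | nk κ ρ (Zb G κ v w t R) t' q = t}, t' ∉ cols κ q :=
    fun q hq => ((h.nk_t hρ).1 hq).2.1
  have hNc := fun z hz => (nt_le (ρ := ρ) h hρ (z := z) hz).1
  have hd2 : U2 G κ ρ v w t t' R = {Q | (∃ q ∈ Q.1, q ∈ {q | nk κ ρ (Zb G κ v w t R) t' q = t}) ∧
      ∃ q ∈ Q.1, q ∈ Zb G κ v w t R} := rfl
  have hd1 : U1 G κ ρ v w t t' R = {Q | (∃ q ∈ Q.1, q ∈ {q | nk κ ρ (Zb G κ v w t R) t' q = t}) ∧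
      ∃ q ∈ Q.1, t' ∈ cols κ q} := rfl
  rw [hd1, hd2]
  generalize {q | nk κ ρ (Zb G κ v w t R) t' q = t} = N at hA hN' hNc
  have hZ' : ∀ q ∈ Zb G κ v w t R, t' ∉ cols κ q := fun q hq => (h.colZ_sub hq).2.2
  -- the fibres
  have hB : ∀ a ∈ aI G κ v w t t' R,
      Conn (sd (sd G)) {Q | Q ∈ FX.UAB (Zb G κ v w t R) N ∧ ∀ q ∈ Q.1, q ≤ a} := by
    intro a ha
    rw [FX.uab_le]
    refine FX.uab_Conn (fun b hb z hz => hA b hb.1 z hz.1) ?_ ?_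
    · obtain ⟨⟨_, q, hq, hqa⟩, hcol⟩ := ha
      have hqZ : q ∈ Zb G κ v w t R := Or.inl hq
      have h1 : q ≤ tc κ {v, w, t} a := le_tc hqa.le (h.colZ_sub hqZ).2.1
      have h2 : tc κ {v, w, t} a ∈ Zb G κ v w t R := by
        rcases h.up hqZ h1 with h3 | h3
        · exact h3
        · have h4 := aI_t' h3
          rw [tc_cols ⟨v, cols_mono hqa.le ((h.colZ_sub hqZ).1 (by simp)), by simp⟩] at h4
          have h5 := h4.2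
          simp only [Set.mem_insert_iff, Set.mem_singleton_iff] at h5
          rcases h5 with e | e | e
          · exact absurd e.symm h.ne_vt'
          · exact absurd e.symm h.ne_wt'
          · exact absurd e.symm h.ne_tt
      exact top_Conn (m := tc κ {v, w, t} a) ⟨h2, tc_le _ _⟩
        fun z hz => le_tc hz.2 (h.colZ_sub hz.1).2.1
    · rintro z ⟨hz, hza⟩
      have e : {q | q ∈ {q | q ∈ N ∧ q ≤ a} ∧ q ≤ z} = {q | q ∈ N ∧ q ≤ z} := by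
        ext q
        exact ⟨fun h => ⟨h.1.1, h.2⟩, fun h => ⟨⟨h.1, h.2.trans hza⟩, h.2⟩⟩
      rw [e]
      exact hNc z hz
  have c1 : Conn (sd (sd G)) (FX.CX (aI G κ v w t t' R) (FX.UAB (Zb G κ v w t R) N)) := by
    refine FX.cx_Conn ?_ h.aconn hB
    intro Q hQ b hb a ha hab
    have h1 := cols_mono hab (aI_t' ha)
    rcases hQ.2.2 b hb with h2 | h2
    · exact hZ' b h2 h1
    · exact hN' b h2 h1
  have hm : ∀ Q ∈ {Q : Cq (sd G) | (∃ q ∈ Q.1, q ∈ N) ∧ ∃ q ∈ Q.1, t' ∈ cols κ q} ∩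
      {Q | (∃ q ∈ Q.1, q ∈ N) ∧ ∃ q ∈ Q.1, q ∈ Zb G κ v w t R},
      ∃ q ∈ Q.1, q ∈ aI G κ v w t t' R ∪ (Zb G κ v w t R ∪ N) := by
    rintro Q ⟨⟨⟨q, hq, hq'⟩, -⟩, -⟩
    exact ⟨q, hq, Or.inr (Or.inr hq')⟩
  refine (ret_Conn (tr (aI G κ v w t t' R ∪ (Zb G κ v w t R ∪ N)))
    (S' := FX.CX (aI G κ v w t t' R) (FX.UAB (Zb G κ v w t R) N)) ?_ ?_ (fun Q _ => tr_le Q)
      fun Q hQ Q' _ h => tr_mono (G := sd G) (hm Q hQ) h).2 c1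
  · rintro Q ⟨⟨a, ha, ha'⟩, Q', ⟨⟨z, hz, hz'⟩, ⟨n, hn, hn'⟩, -⟩, hQ'⟩
    have h1 := ((hQ' z).1 hz).1
    have h2 := ((hQ' n).1 hn).1
    exact ⟨⟨⟨n, h2, hn'⟩, a, ha, aI_t' ha'⟩, ⟨n, h2, hn'⟩, z, h1, hz'⟩
  · intro Q hQ
    have hQ' := hm Q hQ
    obtain ⟨⟨⟨n, hn, hn'⟩, x, hx, hx'⟩, -, z, hz, hz'⟩ := hQ
    have hxa : x ∈ aI G κ v w t t' R := by
      rcases ch_cmp hz hx with h1 | h1
      · rcases h.up hz' h1 with h2 | h2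
        · exact absurd hx' (hZ' x h2)
        · exact h2
      · exact absurd (cols_mono h1 hx') (hZ' z hz')
    have hQ2 : ∃ q ∈ Q.1, q ∈ Zb G κ v w t R ∪ N := ⟨n, hn, Or.inr hn'⟩
    refine ⟨⟨x, (FX.mem_tr hQ').2 ⟨hx, Or.inl hxa⟩, hxa⟩, tr (Zb G κ v w t R ∪ N) Q,
      ⟨⟨z, (FX.mem_tr hQ2).2 ⟨hz, Or.inl hz'⟩, hz'⟩,
        ⟨n, (FX.mem_tr hQ2).2 ⟨hn, Or.inr hn'⟩, hn'⟩, fun q hq => ((FX.mem_tr hQ2).1 hq).2⟩,
      fun q => ?_⟩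
    rw [FX.mem_tr hQ2, FX.mem_tr hQ']
    constructor
    · rintro ⟨h1, h2⟩
      refine ⟨⟨h1, Or.inr h2⟩, fun h3 => ?_⟩
      rcases h2 with h2 | h2
      · exact hZ' q h2 (aI_t' h3)
      · exact hN' q h2 (aI_t' h3)
    · rintro ⟨⟨h1, h2⟩, h3⟩
      exact ⟨h1, h2.resolve_left h3⟩

/-- Mayer-Vietoris (`mv_triv`, `conn_union`); `U1`, `U2` are closed upwards, so there is no edge between
`U1 \ U2` and `U2 \ U1`. -/
theorem mv_disc (hP : Pre G κ S) (h : Big G κ S v w t t' R) (hρ : Rho S t t' ρ) :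
    Conn (sd (sd G)) (XX (sd G) (nk κ ρ (Zb G κ v w t R) t') {t, t'}) ∧
      HZ (sd (sd G)) (XX (sd G) (nk κ ρ (Zb G κ v w t R) t') {t, t'}) := by
  rw [h.disc_eq hρ]
  have h1 := U1_ok hP h hρ
  have h2 := U2_ok h hρ
  have h3 := U12_Conn h hρ
  have up1 : ∀ Q ∈ U1 G κ ρ v w t t' R, ∀ Q', Q ≤ Q' → Q' ∈ U1 G κ ρ v w t t' R := by
    rintro Q ⟨⟨q, hq, hq'⟩, r, hr, hr'⟩ Q' hQ
    exact ⟨⟨q, hQ hq, hq'⟩, r, hQ hr, hr'⟩
  have up2 : ∀ Q ∈ U2 G κ ρ v w t t' R, ∀ Q', Q ≤ Q' → Q' ∈ U2 G κ ρ v w t t' R := by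
    rintro Q ⟨⟨q, hq, hq'⟩, r, hr, hr'⟩ Q' hQ
    exact ⟨⟨q, hQ hq, hq'⟩, r, hQ hr, hr'⟩
  refine ⟨conn_union h1.1 h2.1 h3.1, fun a ha => ?_⟩
  refine mv_triv ?_ h3 ha (Triv_rs.1 (h1.2 _ (rs_mem Set.subset_union_left ha)))
    (Triv_rs.1 (h2.2 _ (rs_mem Set.subset_union_right ha)))
  rintro x hx y hy (e | e)
  · exact hy.2 (up1 x hx.1 y e.le)
  · exact hx.2 (up2 y hy.1 x e.le)

end MOT.Pa
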