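import Pool.Agent.MOT.PaMvE

/-!
# MOT/PaMvP: the bigon move, the points (block I)
-/

open Classical

noncomputable section

namespace MOT.Pa

variable {V C W : Type} {G : SimpleGraph V} {κ : V → C} {S : Sys C} {ρ : C → ℕ}
  {v w t t' : C} {R : Set (Cq G)}

/-! ### auxiliary statements -/

private theorem c4_le (a b c d : C) : ({a, b, c, d} : Set C).ncard ≤ 4 := by
  have h1 := Set.ncard_insert_le a ({b, c, d} : Set C)
  have h2 := Set.ncard_insert_le b ({c, d} : Set C)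
  have h3 := Set.ncard_insert_le c ({d} : Set C)
  have h4 := Set.ncard_singleton d
  omega

private theorem c3_le (a b c : C) : ({a, b, c} : Set C).ncard ≤ 3 := by
  have h2 := Set.ncard_insert_le a ({b, c} : Set C)
  have h3 := Set.ncard_insert_le b ({c} : Set C)
  have h4 := Set.ncard_singleton c
  omega

private theorem c2_le (a b : C) : ({a, b} : Set C).ncard ≤ 2 := by
  have h3 := Set.ncard_insert_le a ({b} : Set C)
  have h4 := Set.ncard_singleton b
  omega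

private theorem c4_eq (h : Big G κ S v w t t' R) : ({v, w, t, t'} : Set C).ncard = 4 := by
  have e1 : t ∉ ({t'} : Set C) := fun hh => h.ne_tt hh
  have e2 : w ∉ ({t, t'} : Set C) := by
    rintro (hh | hh)
    · exact h.ne_wt hh
    · exact h.ne_wt' hh
  have e3 : v ∉ ({w, t, t'} : Set C) := by
    rintro (hh | hh | hh)
    · exact h.ne_vw hh
    · exact h.ne_vt hh
    · exact h.ne_vt' hh
  rw [Set.ncard_insert_of_notMem e3, Set.ncard_insert_of_notMem e2,
    Set.ncard_insert_of_notMem e1, Set.ncard_singleton]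

private theorem k4_inj (hG : IsSph3 G) {p : Cq G} (hp : p ∈ P4 G κ) :
    Set.InjOn κ (p.1 : Set V) := by
  have h1 : (κ '' (p.1 : Set V)).ncard = 4 := by
    rw [← cols_eq_image]
    exact hp
  have h2 : p.1.card ≤ 4 := hG.k5 _ p.2.2
  have h3 : (p.1 : Set V).ncard = p.1.card := Set.ncard_coe_finset _
  refine (Set.ncard_image_iff (Finset.finite_toSet _)).1 ?_
  have h4 := Set.ncard_image_le (f := κ) (Finset.finite_toSet p.1)
  omega

private theorem no_Z (h : Big G κ S v w t t' R) (hρ : Rho S t t' ρ) {Q : Cq (sd G)}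
    (hQ : Q ∈ P4 (sd G) (nk κ ρ (Zb G κ v w t R) t')) : ∀ q ∈ Q.1, q ∉ Zb G κ v w t R := by
  intro q hq hqZ
  have h1 := (h.cols_nk_Z (ρ := ρ) hq hqZ).1
  have hQ' : (cols (nk κ ρ (Zb G κ v w t R) t') Q).ncard = 4 := hQ
  have h3 : cols (nk κ ρ (Zb G κ v w t R) t') Q = {v, w, t, t'} :=
    Set.eq_of_subset_of_ncard_le h1 (by rw [hQ']; exact c4_le _ _ _ _) (Set.toFinite _)
  have ht : t ∈ cols (nk κ ρ (Zb G κ v w t R) t') Q := by rw [h3]; simp
  have hv : v ∈ cols (nk κ ρ (Zb G κ v w t R) t') Q := by rw [h3]; simp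
  obtain ⟨a, ha, ea⟩ := ht
  obtain ⟨b, hb, eb⟩ := hv
  obtain ⟨a1, a2, a3⟩ := (h.nk_t hρ).1 ea
  have b1 : b ∉ Zb G κ v w t R := by
    intro hb'
    rw [nk_pos hb'] at eb
    exact h.ne_vt' eb.symm
  rw [nk_neg b1] at eb
  have b2 : t ∉ cols κ b := by
    intro ht
    have := mx_max (ρ := ρ) ht
    rw [eb] at this
    exact absurd this (not_le.2 (hρ.snd v h.ne_vt h.ne_vt'))
  have b3 : v ∈ cols κ b := by
    have := mx_mem (κ := κ) (ρ := ρ) b
    rwa [eb] at this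
  have b4 : b ≤ a := by
    rcases ch_cmp hb ha with h5 | h5
    · exact h5
    · exact absurd (cols_mono h5 a1) b2
  have a4 : v ∈ cols κ a := cols_mono b4 b3
  rcases ch_cmp hq ha with h5 | h5
  · rcases h.up hqZ h5 with h6 | ⟨_, h6 | h6⟩
    · exact a3 h6
    · have h7 : cols κ a = {v, t, t'} := h6
      exact a2 (by rw [h7]; simp)
    · have h7 : cols κ a = {v, w, t, t'} := h6
      exact a2 (by rw [h7]; simp)
  · refine a3 (h.down hqZ h5 ?_)
    rintro x (hx | hx)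
    · rw [hx]; exact a4
    · rw [Set.mem_singleton_iff.1 hx]; exact a1

/-- a new point is a full flag `q1 < q2 < q3 < q4` with four colours.  If `q_i ∈ Z` then the colours are
`v, w, t, t'` (`Big.cols_nk_Z`); the element `q_j` of new colour `t` is below `q_i` (`Big.up`) and does not have
the colour `v` (`Big.down`, `Big.nk_t`); an element of new colour `v` has old colours of the side of `v`
only (`hρ.sd`), it is comparable with `q_j`, so below it (it does not have the colour `t`), so `v ∈ cols κ q_j`,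
contradiction.  Hence no element is in `Z`, all new colours are base colours, contained in
`cols κ (tp Q)`, which has at most four elements (`hG.k5`). -/
theorem pt_new (hG : IsSph3 G) (h : Big G κ S v w t t' R) (hρ : Rho S t t' ρ) {Q : Cq (sd G)}
    (hQ : Q ∈ P4 (sd G) (nk κ ρ (Zb G κ v w t R) t')) :
    (∀ q ∈ Q.1, q ∉ Zb G κ v w t R) ∧ tp Q ∈ P4 G κ ∧
      cols κ (tp Q) = cols (nk κ ρ (Zb G κ v w t R) t') Q := by
  have h1 := no_Z h hρ hQ
  have hQ' : (cols (nk κ ρ (Zb G κ v w t R) t') Q).ncard = 4 := hQ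
  have h2 : cols (nk κ ρ (Zb G κ v w t R) t') Q ⊆ cols κ (tp Q) := by
    rintro c ⟨q, hq, rfl⟩
    rw [nk_neg (h1 q hq)]
    exact cols_mono (le_tp hq) (mx_mem q)
  have h3 : (cols κ (tp Q)).ncard ≤ 4 :=
    (cols_ncard_le _).trans (hG.k5 _ (tp Q).2.2)
  have h4 : cols (nk κ ρ (Zb G κ v w t R) t') Q = cols κ (tp Q) :=
    Set.eq_of_subset_of_ncard_le h2 (by rw [hQ']; exact h3) (cols_fin _)
  refine ⟨h1, ?_, h4.symm⟩
  show (cols κ (tp Q)).ncard = 4
  rw [← h4]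
  exact hQ'

/-- an element of a new point is the set of the vertices of the top of smaller priority -/
private theorem pt_seg (hG : IsSph3 G) (h : Big G κ S v w t t' R) (hρ : Rho S t t' ρ)
    {Q : Cq (sd G)} (hQ : Q ∈ P4 (sd G) (nk κ ρ (Zb G κ v w t R) t')) {q : Cq G} (hq : q ∈ Q.1)
    (x : V) : x ∈ q.1 ↔ x ∈ (tp Q).1 ∧ ρ (κ x) ≤ ρ (mx κ ρ q) := by
  obtain ⟨h1, h2, h3⟩ := pt_new hG h hρ hQ
  have hi := k4_inj hG h2
  constructor
  · intro hx
    exact ⟨le_tp hq hx, mx_max ⟨x, hx, rfl⟩⟩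
  · rintro ⟨hx, hx2⟩
    have hc : κ x ∈ cols (nk κ ρ (Zb G κ v w t R) t') Q := by
      rw [← h3]
      exact ⟨x, hx, rfl⟩
    obtain ⟨q', hq', e⟩ := hc
    rw [nk_neg (h1 q' hq')] at e
    have key : ∀ r : Cq G, r ∈ Q.1 → κ x ∈ cols κ r → x ∈ r.1 := by
      rintro r hr ⟨y, hy, ey⟩
      have : y = x := hi (Finset.mem_coe.2 (le_tp hr hy)) (Finset.mem_coe.2 hx) ey
      rw [← this]
      exact hy
    have hxq' : x ∈ q'.1 := key q' hq' (by
      have := mx_mem (κ := κ) (ρ := ρ) q'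
      rwa [e] at this)
    rcases ch_cmp hq hq' with h5 | h5
    · have h6 : ρ (mx κ ρ q) ≤ ρ (mx κ ρ q') := mx_mono h5
      rw [e] at h6
      have h7 : mx κ ρ q = κ x := hρ.inj (le_antisymm h6 hx2)
      exact key q hq (by
        have := mx_mem (κ := κ) (ρ := ρ) q
        rwa [h7] at this)
    · exact h5 hxq'

/-- the flag is determined by its top: `q_i` consists of the `i` vertices of smallest priority -/
theorem pt_inj (hG : IsSph3 G) (h : Big G κ S v w t t' R) (hρ : Rho S t t' ρ) {Q Q' : Cq (sd G)}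
    (hQ : Q ∈ P4 (sd G) (nk κ ρ (Zb G κ v w t R) t'))
    (hQ' : Q' ∈ P4 (sd G) (nk κ ρ (Zb G κ v w t R) t')) (e : tp Q = tp Q') : Q = Q' := by
  have key : ∀ P P' : Cq (sd G), P ∈ P4 (sd G) (nk κ ρ (Zb G κ v w t R) t') →
      P' ∈ P4 (sd G) (nk κ ρ (Zb G κ v w t R) t') → tp P = tp P' → P.1 ⊆ P'.1 := by
    intro P P' hP hP' e q hq
    obtain ⟨h1, h2, h3⟩ := pt_new hG h hρ hP
    obtain ⟨h1', h2', h3'⟩ := pt_new hG h hρ hP'
    have hc : mx κ ρ q ∈ cols (nk κ ρ (Zb G κ v w t R) t') P' := by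
      rw [← h3', ← e]
      exact cols_mono (le_tp hq) (mx_mem q)
    obtain ⟨q', hq', e'⟩ := hc
    rw [nk_neg (h1' q' hq')] at e'
    have : q = q' := by
      apply Subtype.ext
      ext x
      rw [pt_seg hG h hρ hP hq x, pt_seg hG h hρ hP' hq' x, e, e']
    rw [this]
    exact hq'
  apply Subtype.ext
  exact Finset.Subset.antisymm (key Q Q' hQ hQ' e) (key Q' Q hQ' hQ e.symm)

/-- initial segment of a simplex -/
private def seg (κ : V → C) (ρ : C → ℕ) (p : Cq G) (x : V) : Cq G :=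
  if hx : x ∈ p.1 then
    ⟨p.1.filter (fun y => ρ (κ y) ≤ ρ (κ x)), ⟨x, Finset.mem_filter.2 ⟨hx, le_rfl⟩⟩,
      fun y hy z hz hyz => p.2.2
        (Finset.mem_coe.2 (Finset.mem_filter.1 (Finset.mem_coe.1 hy)).1)
        (Finset.mem_coe.2 (Finset.mem_filter.1 (Finset.mem_coe.1 hz)).1) hyz⟩
  else p

private theorem mem_seg {p : Cq G} {x y : V} (hx : x ∈ p.1) :
    y ∈ (seg κ ρ p x).1 ↔ y ∈ p.1 ∧ ρ (κ y) ≤ ρ (κ x) := by
  unfold seg
  rw [dif_pos hx]
  exact Finset.mem_filter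

private theorem seg_le {p : Cq G} {x : V} (hx : x ∈ p.1) : seg κ ρ p x ≤ p :=
  Cq.le_iff.2 fun _ hy => ((mem_seg hx).1 hy).1

private theorem seg_mono {p : Cq G} {x y : V} (hx : x ∈ p.1) (hy : y ∈ p.1)
    (h : ρ (κ x) ≤ ρ (κ y)) : seg κ ρ p x ≤ seg κ ρ p y :=
  Cq.le_iff.2 fun _ hz => (mem_seg hy).2 ⟨((mem_seg hx).1 hz).1, ((mem_seg hx).1 hz).2.trans h⟩

/-- an element of `Z` below a point: the point is a corner of the bigon -/
private theorem Z_below (h : Big G κ S v w t t' R) {p q : Cq G} (hp : p ∈ P4 G κ)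
    (hqZ : q ∈ Zb G κ v w t R) (hqp : q ≤ p) : p ∈ nbr R ∩ Ex G κ {v, w, t, t'} := by
  have hp' : (cols κ p).ncard = 4 := hp
  rcases h.up hqZ hqp with h6 | ⟨h7, h6 | h6⟩
  · rcases h.colZ h6 with h8 | h8
    · rw [h8] at hp'
      have := c2_le v t
      omega
    · rw [h8] at hp'
      have := c3_le v w t
      omega
  · have h8 : cols κ p = {v, t, t'} := h6
    rw [h8] at hp'
    have := c3_le v t t'
    omega
  · exact ⟨h7, h6⟩

/-- an old point which is not a corner of the bigon gives a new point: the flag of the initial segments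
(for `ρ`) of `p`; its elements are not in `Z`: an element of `Z` below `p` has the colours `v`, `t`, so it
contains the three vertices of smallest priority, if it is an initial segment; then `p ∈ nbr R` has the
four colours `v, w, t, t'` by `h.nb`. -/
theorem pt_old (hG : IsSph3 G) (h : Big G κ S v w t t' R) (hρ : Rho S t t' ρ) {p : Cq G}
    (hp : p ∈ P4 G κ) (hc : p ∉ nbr R ∩ Ex G κ {v, w, t, t'}) :
    ∃ Q ∈ P4 (sd G) (nk κ ρ (Zb G κ v w t R) t'), tp Q = p := by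
  have hcl : (sd G).IsClique ((p.1.image (seg κ ρ p) : Finset (Cq G)) : Set (Cq G)) := by
    intro a ha b hb hab
    obtain ⟨x, hx, rfl⟩ := Finset.mem_image.1 (Finset.mem_coe.1 ha)
    obtain ⟨y, hy, rfl⟩ := Finset.mem_image.1 (Finset.mem_coe.1 hb)
    rcases le_total (ρ (κ x)) (ρ (κ y)) with h1 | h1
    · exact Or.inl (lt_of_le_of_ne (seg_mono hx hy h1) hab)
    · exact Or.inr (lt_of_le_of_ne (seg_mono hy hx h1) hab.symm)
  obtain ⟨Q, hQ⟩ : ∃ Q : Cq (sd G), Q.1 = p.1.image (seg κ ρ p) :=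
    ⟨⟨p.1.image (seg κ ρ p), p.2.1.image _, hcl⟩, rfl⟩
  have hmem : ∀ q : Cq G, q ∈ Q.1 ↔ ∃ x ∈ p.1, seg κ ρ p x = q := by
    intro q
    rw [hQ, Finset.mem_image]
  have hnk : ∀ x ∈ p.1, nk κ ρ (Zb G κ v w t R) t' (seg κ ρ p x) = κ x := by
    intro x hx
    rw [nk_neg (fun hz => hc (Z_below h hp hz (seg_le hx)))]
    refine mx_eq hρ.inj ⟨x, (mem_seg hx).2 ⟨hx, le_rfl⟩, rfl⟩ ?_
    rintro d ⟨y, hy, rfl⟩
    exact ((mem_seg hx).1 hy).2
  have hcols : cols (nk κ ρ (Zb G κ v w t R) t') Q = cols κ p := by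
    ext c
    constructor
    · rintro ⟨q, hq, e⟩
      obtain ⟨x, hx, rfl⟩ := (hmem q).1 hq
      rw [hnk x hx] at e
      exact ⟨x, hx, e⟩
    · rintro ⟨x, hx, e⟩
      exact ⟨seg κ ρ p x, (hmem _).2 ⟨x, hx, rfl⟩, by rw [hnk x hx, e]⟩
  refine ⟨Q, ?_, ?_⟩
  · show (cols (nk κ ρ (Zb G κ v w t R) t') Q).ncard = 4
    rw [hcols]
    exact hp
  · obtain ⟨x, hx, e⟩ := (hmem _).1 (tp_mem Q)
    have h1 : tp Q ≤ p := by
      rw [← e]
      exact seg_le hx
    obtain ⟨y, hy, hm⟩ := Finset.exists_max_image p.1 (fun x => ρ (κ x)) p.2.1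
    have h2 : seg κ ρ p y = p := by
      refine le_antisymm (seg_le hy) (Cq.le_iff.2 fun z hz => (mem_seg hy).2 ⟨hz, hm z hz⟩)
    have h3 : p ∈ Q.1 := (hmem p).2 ⟨y, hy, h2⟩
    exact le_antisymm h1 (le_tp h3)

/-- the two corners of the bigon give no new point: the flag would contain `tc {v, w, t} p ∈ Z` -/
theorem pt_corner (hG : IsSph3 G) (h : Big G κ S v w t t' R) (hρ : Rho S t t' ρ) {p : Cq G}
    (hc : p ∈ nbr R ∩ Ex G κ {v, w, t, t'}) :
    ¬ ∃ Q ∈ P4 (sd G) (nk κ ρ (Zb G κ v w t R) t'), tp Q = p := by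
  rintro ⟨Q, hQ, rfl⟩
  obtain ⟨h1, h2, h3⟩ := pt_new hG h hρ hQ
  obtain ⟨⟨_, r, hr, hrp⟩, hc2⟩ := hc
  have hc3 : cols κ (tp Q) = {v, w, t, t'} := hc2
  have ht : t ∈ cols (nk κ ρ (Zb G κ v w t R) t') Q := by
    rw [← h3, hc3]
    simp
  obtain ⟨q, hq, e⟩ := ht
  have e' := e
  rw [nk_neg (h1 q hq)] at e'
  have hrq : r ≤ q := by
    refine Cq.le_iff.2 fun x hx => ?_
    refine (pt_seg hG h hρ hQ hq x).2 ⟨hrp.le hx, ?_⟩
    rw [e']
    have hxc : κ x ∈ cols κ r := ⟨x, hx, rfl⟩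
    rw [h.colR hr] at hxc
    rcases hxc with hx1 | hx1
    · rw [hx1]
      exact (hρ.snd v h.ne_vt h.ne_vt').le
    · rw [Set.mem_singleton_iff.1 hx1]
  obtain ⟨a1, a2, a3⟩ := (h.nk_t hρ).1 e
  rcases h.up (Or.inl hr : r ∈ Zb G κ v w t R) hrq with h6 | ⟨_, h6 | h6⟩
  · exact a3 h6
  · have h7 : cols κ q = {v, t, t'} := h6
    exact a2 (by rw [h7]; simp)
  · have h7 : cols κ q = {v, w, t, t'} := h6
    exact a2 (by rw [h7]; simp)

/-- points of a given colour set with four elements -/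
theorem mv_pts [Finite V] (hG : IsSph3 G) (h : Big G κ S v w t t' R) (hρ : Rho S t t' ρ)
    {σ : Set C} (hσ : σ.ncard = 4) :
    (Ex (sd G) (nk κ ρ (Zb G κ v w t R) t') σ).ncard +
      (if σ = {v, w, t, t'} then 2 else 0) = (Ex G κ σ).ncard := by
  have hsub : ∀ Q, Q ∈ Ex (sd G) (nk κ ρ (Zb G κ v w t R) t') σ →
      Q ∈ P4 (sd G) (nk κ ρ (Zb G κ v w t R) t') := by
    intro Q hQ
    have hQ' : cols (nk κ ρ (Zb G κ v w t R) t') Q = σ := hQ
    show (cols (nk κ ρ (Zb G κ v w t R) t') Q).ncard = 4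
    rw [hQ', hσ]
  have e1 : Ex G κ σ = tp '' (Ex (sd G) (nk κ ρ (Zb G κ v w t R) t') σ) ∪
      ((nbr R ∩ Ex G κ {v, w, t, t'}) ∩ Ex G κ σ) := by
    ext p
    constructor
    · intro hp
      have hp' : cols κ p = σ := hp
      have hp4 : p ∈ P4 G κ := by
        show (cols κ p).ncard = 4
        rw [hp', hσ]
      by_cases hc : p ∈ nbr R ∩ Ex G κ {v, w, t, t'}
      · exact Or.inr ⟨hc, hp⟩
      · obtain ⟨Q, hQ, e⟩ := pt_old hG h hρ hp4 hc
        refine Or.inl ⟨Q, ?_, e⟩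
        show cols (nk κ ρ (Zb G κ v w t R) t') Q = σ
        rw [← (pt_new hG h hρ hQ).2.2, e, hp']
    · rintro (⟨Q, hQ, rfl⟩ | hp)
      · show cols κ (tp Q) = σ
        rw [(pt_new hG h hρ (hsub Q hQ)).2.2]
        exact hQ
      · exact hp.2
  have e2 : Disjoint (tp '' (Ex (sd G) (nk κ ρ (Zb G κ v w t R) t') σ))
      ((nbr R ∩ Ex G κ {v, w, t, t'}) ∩ Ex G κ σ) := by
    rw [Set.disjoint_left]
    rintro p ⟨Q, hQ, rfl⟩ ⟨hc, _⟩
    exact pt_corner hG h hρ hc ⟨Q, hsub Q hQ, rfl⟩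
  have e3 : (tp '' (Ex (sd G) (nk κ ρ (Zb G κ v w t R) t') σ)).ncard =
      (Ex (sd G) (nk κ ρ (Zb G κ v w t R) t') σ).ncard :=
    Set.InjOn.ncard_image fun Q hQ Q' hQ' e => pt_inj hG h hρ (hsub Q hQ) (hsub Q' hQ') e
  have e4 : ((nbr R ∩ Ex G κ {v, w, t, t'}) ∩ Ex G κ σ).ncard =
      if σ = {v, w, t, t'} then 2 else 0 := by
    by_cases hs : σ = {v, w, t, t'}
    · rw [if_pos hs, hs, Set.inter_assoc, Set.inter_self]
      exact h.pts
    · rw [if_neg hs]
      have : (nbr R ∩ Ex G κ {v, w, t, t'}) ∩ Ex G κ σ = ∅ := by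
        ext p
        constructor
        · rintro ⟨⟨_, h1⟩, h2⟩
          have h1' : cols κ p = {v, w, t, t'} := h1
          have h2' : cols κ p = σ := h2
          exact hs (h2'.symm.trans h1')
        · intro hh
          exact absurd hh (Set.notMem_empty p)
      rw [this, Set.ncard_empty]
  rw [e1, Set.ncard_union_eq e2 (Set.toFinite _) (Set.toFinite _), e3, e4]

theorem mv_npt [Finite V] (hG : IsSph3 G) (h : Big G κ S v w t t' R) (hρ : Rho S t t' ρ) :
    (P4 (sd G) (nk κ ρ (Zb G κ v w t R) t')).ncard + 2 = (P4 G κ).ncard := by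
  have e1 : P4 G κ = tp '' (P4 (sd G) (nk κ ρ (Zb G κ v w t R) t')) ∪
      (nbr R ∩ Ex G κ {v, w, t, t'}) := by
    ext p
    constructor
    · intro hp4
      by_cases hc : p ∈ nbr R ∩ Ex G κ {v, w, t, t'}
      · exact Or.inr hc
      · obtain ⟨Q, hQ, e⟩ := pt_old hG h hρ hp4 hc
        exact Or.inl ⟨Q, hQ, e⟩
    · rintro (⟨Q, hQ, rfl⟩ | hp)
      · exact (pt_new hG h hρ hQ).2.1
      · show (cols κ p).ncard = 4
        have h1' : cols κ p = {v, w, t, t'} := hp.2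
        rw [h1']
        exact c4_eq h
  have e2 : Disjoint (tp '' (P4 (sd G) (nk κ ρ (Zb G κ v w t R) t')))
      (nbr R ∩ Ex G κ {v, w, t, t'}) := by
    rw [Set.disjoint_left]
    rintro p ⟨Q, hQ, rfl⟩ hc
    exact pt_corner hG h hρ hc ⟨Q, hQ, rfl⟩
  have e3 : (tp '' (P4 (sd G) (nk κ ρ (Zb G κ v w t R) t'))).ncard =
      (P4 (sd G) (nk κ ρ (Zb G κ v w t R) t')).ncard :=
    Set.InjOn.ncard_image fun Q hQ Q' hQ' e => pt_inj hG h hρ hQ hQ' e
  rw [e1, Set.ncard_union_eq e2 (Set.toFinite _) (Set.toFinite _), e3, h.pts]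

end MOT.Pa
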