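import Pool.Agent.MOT.PaMvT
import Pool.Agent.MOT.PaMvC
import Pool.Agent.MOT.PaMvF
import Pool.Agent.MOT.PaMvP

/-!
# MOT/PaMv: the bigon move (block I)
-/

open Classical

noncomputable section

namespace MOT.Pa

variable {V C W : Type} {G : SimpleGraph V} {κ : V → C} {S : Sys C} {ρ : C → ℕ}
  {v w t t' : C} {R : Set (Cq G)}

/-- control in one step -/
structure Ctl1 (G : SimpleGraph V) (S : Sys C) (κ : V → C) (κ' : Cq G → C) : Prop where
  k1 : ∀ (q : Cq G) (c : C), cols κ q = {c} → κ' q = c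
  k2 : ∀ q : Cq G, S.side (κ' q) = true → κ' q ∈ cols κ q
  k3 : ∀ q : Cq G, S.side (κ' q) = false →
    κ' q ∈ cols κ q ∨ ∃ c ∈ cols κ q, S.side c = true ∧ S.I (κ' q) c
  k4 : ∀ (Q : Cq (sd G)) (a b : C), a ∈ cols κ' Q → b ∈ cols κ' Q → S.E a b →
    S.side a = false → (∃ q ∈ Q.1, a ∈ cols κ q ∧ b ∈ cols κ q) ∨
      ∃ q ∈ Q.1, ∃ c ∈ cols κ q, S.side c = true ∧ S.I a c ∧ S.I b c

/-- `k4`: if no element of `Q` is in `Z` take `q := tp Q`; otherwise `{a, b} = {t, t'}` and `c := v`. -/
theorem mv_ctl (h : Big G κ S v w t t' R) (hρ : Rho S t t' ρ) :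
    Ctl1 G S κ (nk κ ρ (Zb G κ v w t R) t') := by
  have hIv : S.I t v := S.I_symm h.inc.2.2.1
  have hIv' : S.I t' v := S.I_symm h.inc.2.2.2.1
  refine ⟨fun q c hq => ?_, fun q hq => ?_, fun q hq => ?_, fun Q a b ha hb hab hs => ?_⟩
  · have hqZ : q ∉ Zb G κ v w t R := by
      intro hqZ
      have h1 := (h.colZ_sub hqZ).1
      rw [hq] at h1
      have h2 : v = c := h1 (by simp)
      have h3 : t = c := h1 (by simp)
      exact h.ne_vt (h2.trans h3.symm)
    rw [nk_neg hqZ]
    have h1 := mx_mem (κ := κ) (ρ := ρ) q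
    rw [hq] at h1
    exact h1
  · by_cases hqZ : q ∈ Zb G κ v w t R
    · rw [nk_pos hqZ, h.st'] at hq
      exact absurd hq Bool.false_ne_true
    · rw [nk_neg hqZ]
      exact mx_mem q
  · by_cases hqZ : q ∈ Zb G κ v w t R
    · refine Or.inr ⟨v, (h.colZ_sub hqZ).1 (by simp), h.sv, ?_⟩
      rw [nk_pos hqZ]
      exact hIv'
    · rw [nk_neg hqZ]
      exact Or.inl (mx_mem q)
  · by_cases hz : ∃ q ∈ Q.1, q ∈ Zb G κ v w t R
    · obtain ⟨q, hq, hqZ⟩ := hz
      have hsub := (h.cols_nk_Z (ρ := ρ) hq hqZ).1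
      have hbs : S.side b = false := by rw [← S.E_side hab]; exact hs
      have key : ∀ x, x ∈ ({v, w, t, t'} : Set C) → S.side x = false → x = t ∨ x = t' := by
        intro x hx hxs
        simp only [Set.mem_insert_iff, Set.mem_singleton_iff] at hx
        rcases hx with e | e | e | e
        · rw [e, h.sv] at hxs
          exact Bool.noConfusion hxs
        · rw [e, h.sw] at hxs
          exact Bool.noConfusion hxs
        · exact Or.inl e
        · exact Or.inr e
      have hI : ∀ x, x = t ∨ x = t' → S.I x v := by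
        rintro x (e | e)
        · rw [e]
          exact hIv
        · rw [e]
          exact hIv'
      exact Or.inr ⟨q, hq, v, (h.colZ_sub hqZ).1 (by simp), h.sv, hI a (key a (hsub ha) hs),
        hI b (key b (hsub hb) hbs)⟩
    · have key : ∀ c, c ∈ cols (nk κ ρ (Zb G κ v w t R) t') Q → c ∈ cols κ (tp Q) := by
        rintro c ⟨q, hq, e⟩
        rw [nk_neg (fun hqZ => hz ⟨q, hq, hqZ⟩)] at e
        rw [← e]
        exact cols_mono (le_tp hq) (mx_mem q)
      exact Or.inl ⟨tp Q, tp_mem Q, key a ha, key b hb⟩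

/-- THE MOVE: `κ' := nk κ ρ Z t'` with `ρ` from `exists_rho`.  `odd`, `none`: `mv_pts`
(`{a, b, c, d}.ncard = 4`; `none`: a four element set `{a,b,c,d}` which is not incident is not
`{v, w, t, t'}`). -/
theorem move [Finite V] [Finite C] (hG : IsSph3 G) (hP : Pre G κ S)
    (h : Big G κ S v w t t' R) : ∃ κ' : Cq G → C, Pre (sd G) κ' S ∧
      (P4 (sd G) κ').ncard < (P4 G κ).ncard ∧ Ctl1 G S κ κ' := by
  obtain ⟨ρ, hρ⟩ := exists_rho S t t' h.st h.st' h.ne_tt
  have h4 : ∀ a b c d, S.E a b → S.E c d → S.side a ≠ S.side c →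
      ({a, b, c, d} : Set C).ncard = 4 := by
    intro a b c d hab hcd hac
    have e1 := S.E_side hab
    have e2 := S.E_side hcd
    have n1 : a ≠ b := S.E_ne hab
    have n2 : c ≠ d := S.E_ne hcd
    have n3 : a ≠ c := fun e => hac (by rw [e])
    have n4 : a ≠ d := fun e => hac (by rw [e2, e])
    have n5 : b ≠ c := fun e => hac (by rw [e1, e])
    have n6 : b ≠ d := fun e => hac (by rw [e1, e2, e])
    rw [Set.ncard_insert_of_notMem (by simp [n1, n3, n4]),
      Set.ncard_insert_of_notMem (by simp [n5, n6]), Set.ncard_pair n2]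
  have hpt := fun (σ : Set C) (hσ : σ.ncard = 4) => mv_pts hG h hρ hσ
  refine ⟨nk κ ρ (Zb G κ v w t R) t', ?_, ?_, mv_ctl h hρ⟩
  · refine
      { two := mv_two hP h
        adj := mv_adj hP h
        conn := fun c => ?_
        hz := fun c => ?_
        cconn := fun c => ?_
        chz := fun c => ?_
        dconn := fun a b hab => ?_
        dhz := fun a b hab => ?_
        odd := fun a b c d hi => ?_
        none := fun a b c d hab hcd hac hn => ?_ }
    · by_cases hc : c = t'
      · rw [hc, h.cs_top hρ]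
        exact (mv_top hP h).1
      · exact (mv_reg hP h hc).1
    · by_cases hc : c = t'
      · rw [hc, h.cs_top hρ]
        exact (mv_top hP h).2
      · exact (mv_reg hP h hc).2.1
    · by_cases hc : c = t'
      · rw [hc, h.cs_topc hρ]
        exact mv_topc_Conn hP h
      · exact (mv_reg hP h hc).2.2.1
    · by_cases hc : c = t'
      · rw [hc, h.cs_topc hρ]
        exact mv_topc_HZ hP h
      · exact (mv_reg hP h hc).2.2.2
    · by_cases he : ({a, b} : Set C) = {t, t'}
      · rw [he]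
        exact (mv_disc hP h hρ).1
      · exact (mv_dis hP h hρ hab he).1
    · by_cases he : ({a, b} : Set C) = {t, t'}
      · rw [he]
        exact (mv_disc hP h hρ).2
      · exact (mv_dis hP h hρ hab he).2
    · have h1 := hpt {a, b, c, d} (h4 a b c d hi.1 hi.2.1 (S.I_side hi.2.2.1))
      have h2 := hP.odd a b c d hi
      rw [← h1] at h2
      split_ifs at h2
      · rw [Nat.odd_add] at h2
        exact h2.2 (by norm_num)
      · simpa using h2
    · have h1 := hpt {a, b, c, d} (h4 a b c d hab hcd hac)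
      rw [hP.none a b c d hab hcd hac hn, Set.ncard_empty] at h1
      have h2 : (Ex (sd G) (nk κ ρ (Zb G κ v w t R) t') {a, b, c, d}).ncard = 0 := by omega
      exact (Set.ncard_eq_zero (Set.toFinite _)).1 h2
  · have h1 := mv_npt hG h hρ
    omega

end MOT.Pa
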