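import Pool.Agent.MOT.PaOut
import Pool.Agent.MOT.PaCo
import Pool.Agent.MOT.PaMv
import Pool.Agent.MOT.Sdi

/-!
# MOT/PaMin: MAIN THEOREM of block I: minimal position
-/

open Classical

noncomputable section

namespace MOT.Pa

variable {C W : Type} {S : Sys C} {K : Lv} {n k : ℕ}

theorem ctl_refl (κ : (tw K n).V → C) : Ctl K n 0 S κ κ := by
  refine ⟨fun x c h => h x rfl, fun x _ => ⟨x, rfl, rfl⟩, fun x _ => ⟨x, rfl, Or.inl rfl⟩,
    fun q a b ha hb _ _ => ?_⟩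
  obtain ⟨x, hx⟩ := q.2.1
  exact ⟨x, hx, x, rfl, Or.inr ⟨q, hx, ha, hb⟩⟩

/-- one more step of the tower (`car K n (k + 1) x = {u | ∃ y ∈ x.1, u ∈ car K n k y}`) -/
theorem ctl_step {κ₀ : (tw K n).V → C} {κ₁ : (tw K (n + k)).V → C}
    {κ₂ : (tw K (n + (k + 1))).V → C} (h : Ctl K n k S κ₀ κ₁)
    (h1 : Ctl1 (tw K (n + k)).G S κ₁ κ₂) : Ctl K n (k + 1) S κ₀ κ₂ := by
  refine ⟨fun x c H => ?_, fun x hs => ?_, fun x hs => ?_, fun Q a b ha hb hE hs => ?_⟩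
  · revert x
    intro (x : Cq (tw K (n + k)).G) H
    refine h1.k1 x c ?_
    have key : ∀ y ∈ x.1, κ₁ y = c := fun y hy => h.loc y c fun u hu => H u ⟨y, hy, hu⟩
    ext e
    rw [Set.mem_singleton_iff]
    constructor
    · rintro ⟨y, hy, rfl⟩
      exact key y hy
    · rintro rfl
      obtain ⟨y, hy⟩ := x.2.1
      exact ⟨y, hy, key y hy⟩
  · obtain ⟨y, hy, hyx⟩ := h1.k2 x hs
    obtain ⟨u, hu, hu'⟩ := h.nv y (by rw [hyx]; exact hs)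
    exact ⟨u, ⟨y, hy, hu⟩, hu'.trans hyx⟩
  · rcases h1.k3 x hs with ⟨y, hy, hyx⟩ | ⟨c, ⟨y, hy, hyc⟩, hc, hI⟩
    · obtain ⟨u, hu, hu'⟩ := h.nt y (by rw [hyx]; exact hs)
      rw [hyx] at hu'
      exact ⟨u, ⟨y, hy, hu⟩, hu'⟩
    · obtain ⟨u, hu, hu'⟩ := h.nv y (by rw [hyc]; exact hc)
      exact ⟨u, ⟨y, hy, hu⟩, Or.inr (by rw [hu', hyc]; exact hI)⟩
  · rcases h1.k4 Q a b ha hb hE hs with ⟨q, hq, h2, h3⟩ | ⟨q, hq, c, ⟨y, hy, hyc⟩, hc, hI, hI'⟩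
    · obtain ⟨x, hx, u, hu, h4⟩ := h.nd q a b h2 h3 hE hs
      exact ⟨q, hq, u, ⟨x, hx, hu⟩, h4⟩
    · obtain ⟨u, hu, hu'⟩ := h.nv y (by rw [hyc]; exact hc)
      refine ⟨q, hq, u, ⟨y, hy, hu⟩, Or.inl ?_⟩
      rw [hu', hyc]
      exact ⟨hI, hI'⟩

/-- `sd_sph3` -/
theorem tw_sph3 (h : IsSph3 (tw K n).G) (k : ℕ) : IsSph3 (tw K (n + k)).G := by
  induction k with
  | zero => exact h
  | succ k ih => exact sd_sph3 ih

/-- LOOP: among all `k`, `κ` with `Pre` and `Ctl K n k S κ₀ κ` take one with the smallest number of points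
(`k = 0`, `κ = κ₀` is one); there is no bigon by `move` (next level), so `std`. -/
theorem pat_std [Finite C] (hS : S.Good) (hK : IsSph3 (tw K n).G) (κ₀ : (tw K n).V → C)
    (hP : Pre (tw K n).G κ₀ S) : ∃ (k : ℕ) (κ : (tw K (n + k)).V → C),
      Std (tw K (n + k)).G κ S ∧ Ctl K n k S κ₀ κ := by
  have key : ∀ N : ℕ, ∀ (k : ℕ) (κ : (tw K (n + k)).V → C), Pre (tw K (n + k)).G κ S →
      Ctl K n k S κ₀ κ → (P4 (tw K (n + k)).G κ).ncard = N →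
      ∃ (k : ℕ) (κ : (tw K (n + k)).V → C), Std (tw K (n + k)).G κ S ∧ Ctl K n k S κ₀ κ := by
    intro N
    induction N using Nat.strong_induction_on with
    | _ N ih =>
      intro k κ hp hc hN
      by_cases hB : ∃ v w t t' R, Big (tw K (n + k)).G κ S v w t t' R
      · obtain ⟨v, w, t, t', R, hB⟩ := hB
        obtain ⟨κ', h1, h2, h3⟩ := move (tw_sph3 hK k) hp hB
        exact ih _ (by rw [← hN]; exact h2) (k + 1) κ' h1 (ctl_step hc h3) rfl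
      · push Not at hB
        exact ⟨k, κ, std (tw_sph3 hK k) hS hp hB, hc⟩
  exact key _ 0 κ₀ hP (ctl_refl κ₀) rfl

/-- MINIMAL POSITION: from the pre-pattern to `PatT` -/
theorem pat_min [Finite W] {Gc : SimpleGraph W} (hGc : IsSph3 Gc) (hK : IsSph3 (tw K n).G)
    (κ₀ : (tw K n).V → Col Gc) (hP : Pre (tw K n).G κ₀ (colH Gc)) :
    ∃ (k : ℕ) (κ : (tw K (n + k)).V → Col Gc),
      PatT Gc (tw K (n + k)).G (fun x => toCo Gc (κ x)) ∧ Ctl K n k (colH Gc) κ₀ κ := by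
  have hf : Finite (Col Gc) :=
    inferInstanceAs (Finite (W ⊕ {s : Finset W // s.card = 4 ∧ Gc.IsClique (s : Set W)}))
  obtain ⟨k, κ, h1, h2⟩ := pat_std (colH_good hGc) hK κ₀ hP
  exact ⟨k, κ, std_patT (colH_good hGc) h1, h2⟩

end MOT.Pa
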