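import Pool.Agent.MOT.ScF

/-!
# MOT/ScG: stage 2, the loop for both families of plates (helper73)
-/

open Classical

noncomputable section

namespace MOT

variable {V : Type} {G : SimpleGraph V} {A Bc Cc : Type} [Fintype Bc] [Fintype Cc]
  {e1 e2 : Bc → A} {inc : Bc → Cc → Prop} {X : Sc V A Bc Cc}

theorem sc_step [Finite V] (h : ScS G e1 e2 inc X) (hu : ScU G e1 e2 inc X) (hf : DscZ G X)
    (hn : ¬ NoD G X) :
    ∃ U' : Bc → Set (Cq G), ScU (MOT.sd G) e1 e2 inc ((X.sd G).upd U') ∧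
      kc (MOT.sd G) ((X.sd G).upd U') < kc G X := by
  by_contra hcon
  refine hn ⟨fun b D hD hz => hcon (sc_cut h hu hf hD hz), fun D hD hz => hcon (sc_fill h hu hf hD hz)⟩

/-- one family waits while the other one moves: its plates become `mi G (U b)` (`ScU.sd`, `kc_sd`) -/
theorem sc_wait [Finite V] (h : ScS G e1 e2 inc X) (hu : ScU G e1 e2 inc X) :
    ScU (MOT.sd G) e1 e2 inc ((X.sd G).upd (X.sd G).U) ∧
      kc (MOT.sd G) ((X.sd G).upd (X.sd G).U) = kc G X :=
  ⟨hu.sd h, kc_sd⟩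

private theorem scg_dz {U : Bc → Set V} (h : DscZ G X) : DscZ G (X.upd U) := h

private theorem scg_main {K : Lv} {n : ℕ} {A' : Type} {X : Sc (tw K n).V A Bc Cc}
    {X' : Sc (tw K n).V A' Cc Bc} {e1' e2' : Cc → A'} {inc' : Cc → Bc → Prop}
    (h : ScS (tw K n).G e1 e2 inc X) (h' : ScS (tw K n).G e1' e2' inc' X')
    (hf : ∀ k, DscZ (tw K (n + k)).G (scN K n X k))
    (hf' : ∀ k, DscZ (tw K (n + k)).G (scN K n X' k)) :
    ∀ (m k : ℕ) (U : Bc → Set (tw K (n + k)).V) (U' : Cc → Set (tw K (n + k)).V),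
      ScU (tw K (n + k)).G e1 e2 inc ((scN K n X k).upd U) →
      ScU (tw K (n + k)).G e1' e2' inc' ((scN K n X' k).upd U') →
      kc (tw K (n + k)).G ((scN K n X k).upd U) +
        kc (tw K (n + k)).G ((scN K n X' k).upd U') = m →
    ∃ (k : ℕ) (U : Bc → Set (tw K (n + k)).V) (U' : Cc → Set (tw K (n + k)).V),
      ScU (tw K (n + k)).G e1 e2 inc ((scN K n X k).upd U) ∧
      NoD (tw K (n + k)).G ((scN K n X k).upd U) ∧
      ScU (tw K (n + k)).G e1' e2' inc' ((scN K n X' k).upd U') ∧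
      NoD (tw K (n + k)).G ((scN K n X' k).upd U') := by
  intro m
  induction m using Nat.strong_induction_on with
  | _ m ih =>
    intro k U U' hu hu' hm
    by_cases hn : NoD (tw K (n + k)).G ((scN K n X k).upd U)
    · by_cases hn' : NoD (tw K (n + k)).G ((scN K n X' k).upd U')
      · exact ⟨k, U, U', hu, hn, hu', hn'⟩
      · obtain ⟨U1, h1, h2⟩ := sc_step ((h'.scN k).upd U') hu' (scg_dz (hf' k)) hn'
        obtain ⟨h3, h4⟩ := sc_wait ((h.scN k).upd U) hu
        have h5 : kc (MOT.sd (tw K (n + k)).G) ((((scN K n X k).upd U).sd (tw K (n + k)).G).upd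
            (((scN K n X k).upd U).sd (tw K (n + k)).G).U) +
            kc (MOT.sd (tw K (n + k)).G) ((((scN K n X' k).upd U').sd (tw K (n + k)).G).upd U1) <
              m := by
          omega
        exact ih _ h5 (k + 1) (((scN K n X k).upd U).sd (tw K (n + k)).G).U U1 h3 h1 rfl
    · obtain ⟨U1, h1, h2⟩ := sc_step ((h.scN k).upd U) hu (scg_dz (hf k)) hn
      obtain ⟨h3, h4⟩ := sc_wait ((h'.scN k).upd U') hu'
      have h5 : kc (MOT.sd (tw K (n + k)).G) ((((scN K n X k).upd U).sd (tw K (n + k)).G).upd U1) +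
          kc (MOT.sd (tw K (n + k)).G) ((((scN K n X' k).upd U').sd (tw K (n + k)).G).upd
            (((scN K n X' k).upd U').sd (tw K (n + k)).G).U) < m := by
        omega
      exact ih _ h5 (k + 1) U1 (((scN K n X' k).upd U').sd (tw K (n + k)).G).U h1 h3 rfl

/-- LOOP.  Claim by induction on `m`: for every `k` and all plates `U`, `U'` on level `n + k` with
`kc + kc' ≤ m` there are `k1 ≥ k` and plates without discs on level `n + k1`.  If `NoD` fails for one family,
`sc_step` for it and `sc_wait` for the other one; `ScS.scN`, `ScS.upd` give the static hypotheses;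
`((scN K n X k).upd U).sd` and `scN K n X (k + 1)` differ only in the plates. -/
theorem sc_loop {K : Lv} {n : ℕ} {A' : Type} {X : Sc (tw K n).V A Bc Cc}
    {X' : Sc (tw K n).V A' Cc Bc} {e1' e2' : Cc → A'} {inc' : Cc → Bc → Prop}
    (h : ScS (tw K n).G e1 e2 inc X) (hu : ScU (tw K n).G e1 e2 inc X)
    (h' : ScS (tw K n).G e1' e2' inc' X') (hu' : ScU (tw K n).G e1' e2' inc' X')
    (hf : ∀ k, DscZ (tw K (n + k)).G (scN K n X k))
    (hf' : ∀ k, DscZ (tw K (n + k)).G (scN K n X' k)) :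
    ∃ (k : ℕ) (U : Bc → Set (tw K (n + k)).V) (U' : Cc → Set (tw K (n + k)).V),
      ScU (tw K (n + k)).G e1 e2 inc ((scN K n X k).upd U) ∧
      NoD (tw K (n + k)).G ((scN K n X k).upd U) ∧
      ScU (tw K (n + k)).G e1' e2' inc' ((scN K n X' k).upd U') ∧
      NoD (tw K (n + k)).G ((scN K n X' k).upd U') := by
  exact scg_main h h' hf hf' _ 0 X.U X'.U hu hu' rfl

end MOT
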