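import Pool.Agent.MOT.SaDef

/-!
# MOT/SbDef: the structure theorem (a region cut along discs `D b`, one for every edge `b` of a coarse
graph): definitions
-/

open Classical

noncomputable section

namespace MOT

variable {V : Type} {G : SimpleGraph V} {A Bc : Type}

/-- indicator of the edges in `D` -/
def gam {G : SimpleGraph V} (D : Set (Cq G)) : V → V → ZMod 2 := fun x y =>
  if ∃ s ∈ D, s.1 = {x, y} then 1 else 0

/-- the cochain of the pair `{p, q}`, pulled back by `top` -/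
def wtt (top : V → A) (p q : A) : V → V → ZMod 2 := fun x y =>
  if (top x = p ∧ top y = q) ∨ (top x = q ∧ top y = p) then 1 else 0

/-- cuts of the graph with edges `b`, ends `e1 b`, `e2 b` -/
def cutS (e1 e2 : Bc → A) : Submodule (ZMod 2) (Bc → ZMod 2) where
  carrier := {c | ∃ f : A → ZMod 2, ∀ b, c b = f (e1 b) + f (e2 b)}
  add_mem' := by
    rintro c d ⟨f, hf⟩ ⟨g, hg⟩
    exact ⟨f + g, fun b => by simp only [Pi.add_apply, hf b, hg b]; abel⟩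
  zero_mem' := ⟨0, fun _ => by simp⟩
  smul_mem' := by
    rintro r c ⟨f, hf⟩
    exact ⟨r • f, fun b => by simp only [Pi.smul_apply, hf b, smul_add]⟩

/-- hypotheses of the structure theorem.  `U b` are the (flipped) plates, `D b` is one disc component
of the frontier of `U b` inside `M`, with crossing class `w b = wtt top (e1 b) (e2 b)`. -/
structure StrIn (G : SimpleGraph V) [Fintype Bc] (e1 e2 : Bc → A) (M : Set V) (U : Bc → Set V)
    (D : Bc → Set (Cq G)) (Lv : A → Set V) (Le : Bc → Set V) (top : V → A) : Prop where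
  sph : IsSph3 G
  ne : ∀ b, e1 b ≠ e2 b
  simple : ∀ b b', ({e1 b, e2 b} : Set A) = {e1 b', e2 b'} → b = b'
  graph : ∀ b, ∀ f : A → ZMod 2, (∀ b', b' ≠ b → f (e1 b') = f (e2 b')) → ∀ a a', f a = f a'
  cM : Conn G M
  cN : Conn G Mᶜ
  t1 : ∀ x y, EIn G M x y → top x = top y ∨ ∃ b, ({top x, top y} : Set A) = {e1 b, e2 b}
  t2 : ∀ x y z, EIn G M x y → EIn G M y z → EIn G M x z →
    top x = top y ∨ top y = top z ∨ top x = top z
  Ud : ∀ b b', b ≠ b' → Disjoint (U b) (U b') ∧ NAdj G (U b) (U b')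
  Dc : ∀ b, IsComp (sd G) (mi G M ∩ Fr G (U b)) (D b)
  Dz : ∀ b, HZ (sd G) (D b)
  cls : ∀ b, Triv G M (gam (D b) + wtt top (e1 b) (e2 b))
  span : ∀ a ∈ Z1 G M, ∃ c : Bc → ZMod 2, Triv G M (a + lc c (fun b => wtt top (e1 b) (e2 b)))
  ker : ∀ c : Bc → ZMod 2, Triv G M (lc c (fun b => wtt top (e1 b) (e2 b))) → c ∈ cutS e1 e2
  LvC : ∀ a, Conn G (Lv a)
  LvM : ∀ a, Lv a ⊆ M
  Lvt : ∀ a, ∀ x ∈ Lv a, top x = a
  LvU : ∀ a b, Disjoint (Lv a) (U b)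
  LeC : ∀ b, Conn G (Le b)
  LeM : ∀ b, Le b ⊆ M
  Let : ∀ b, ∀ x ∈ Le b, top x = e1 b ∨ top x = e2 b
  LeU : ∀ b b', b ≠ b' → Disjoint (Le b) (U b')
  Le1 : ∀ b, Lv (e1 b) ⊆ Le b
  Le2 : ∀ b, Lv (e2 b) ⊆ Le b
  tch1 : ∀ b, ∃ q ∈ D b, ∃ x ∈ q.1, x ∈ U b ∧ ∃ y, y ∉ M ∧ G.Adj x y
  tch2 : ∀ b, ∃ q ∈ D b, ∃ x ∈ q.1, x ∉ U b ∧ ∃ y, y ∉ M ∧ G.Adj x y

/-- conclusion of the structure theorem: the colouring of `M` by the components of `M` cut along
the discs -/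
structure StrOut (G : SimpleGraph V) (e1 e2 : Bc → A) (M : Set V) (D : Bc → Set (Cq G))
    (Lv : A → Set V) (vc : V → A) : Prop where
  anchor : ∀ a, ∀ x ∈ Lv a, vc x = a
  adj : ∀ x y, EIn G M x y → vc x = vc y ∨ ∃ b, ({vc x, vc y} : Set A) = {e1 b, e2 b}
  two : ∀ x y z, EIn G M x y → EIn G M y z → EIn G M x z →
    vc x = vc y ∨ vc y = vc z ∨ vc x = vc z
  disc : ∀ b, {s : Cq G | s ∈ mi G M ∧ (∃ x ∈ s.1, vc x = e1 b) ∧ ∃ x ∈ s.1, vc x = e2 b} = D b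
  conn : ∀ a, Conn G {x | x ∈ M ∧ vc x = a}
  hz : ∀ a, HZ G {x | x ∈ M ∧ vc x = a}
  cconn : ∀ a, Conn G {x | x ∈ M ∧ vc x = a}ᶜ
  chz : ∀ a, HZ G {x | x ∈ M ∧ vc x = a}ᶜ

/-- adjacency inside `M` without crossing a disc -/
def EC (G : SimpleGraph V) (M : Set V) (D : Bc → Set (Cq G)) (x y : V) : Prop :=
  EIn G M x y ∧ ∀ b, ∀ s ∈ D b, s.1 ≠ {x, y}

/-- connected by a path that crosses no disc -/
def RC (G : SimpleGraph V) (M : Set V) (D : Bc → Set (Cq G)) (x y : V) : Prop :=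
  Relation.ReflTransGen (EC G M D) x y

end MOT
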