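import Pool.Agent.MOT.SfE
import Pool.Agent.MOT.Sdi
import Pool.Agent.MOT.SbDef

/-!
# MOT/SgA: duality for one curve in a closed surface (S7)
-/

open Classical

noncomputable section

namespace MOT

variable {V : Type} {G : SimpleGraph V} {A B M S P W : Set V} {C : Set (Cq G)}

/-- indicator of the edges of `C` as a 1-chain of the subdivided surface -/
def wC (G : SimpleGraph V) (S : Set V) (C : Set (Cq G)) : Kq (sd G) (mi G S) 2 → ZMod 2 :=
  fun e => if (e.1 : Set (Cq G)) ⊆ C then 1 else 0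

theorem wC_kp {s t : Cq G} (e : EIn (sd G) (mi G S) s t) :
    wC G S C (kp e) = if EIn (sd G) C s t then 1 else 0 := by
  have hval : (kp e).1 = {s, t} := rfl
  unfold wC
  congr 1
  rw [hval]
  apply propext
  simp only [Finset.coe_insert, Finset.coe_singleton, Set.insert_subset_iff,
    Set.singleton_subset_iff]
  exact ⟨fun h => ⟨e.1, h.1, h.2⟩, fun h => ⟨h.2.1, h.2.2⟩⟩

theorem wC_cyc [Finite V] (hS : Surf G S) (hC : IsComp (sd G) (FrIn G S W) C) :
    (Matrix.transpose (inc (sd G) (mi G S) 1)).mulVec (wC G S C) = 0 := by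
  have hsub : FrIn G S W ⊆ mi G S := fun s hs => hs.1.1
  funext v
  rw [incT_sum (S := mi G S) subset_rfl]
  obtain ⟨s, hs⟩ := Finset.card_eq_one.1 v.2.1
  have hsA : s ∈ mi G S := v.2.2.2 (by rw [hs]; simp)
  rw [hs]
  have h1 : ∀ t ∈ lkf (sd G) (mi G S) {s}, wbar (wC G S C) (insert t {s}) =
      if EIn (sd G) C s t then 1 else 0 := by
    intro t ht
    obtain ⟨ht1, ht2⟩ := mem_lkf.1 ht
    have e : EIn (sd G) (mi G S) s t := ⟨ht1 s (by simp), hsA, ht2⟩
    have h2 : (insert t ({s} : Finset (Cq G))) = {s, t} := Finset.pair_comm t s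
    rw [h2, wbar_kp e, wC_kp e]
  rw [Finset.sum_congr rfl h1, ← Finset.sum_filter, Finset.sum_const]
  by_cases hsC : s ∈ C
  · have hsF := hC.sub hsC
    have h2 : ((lkf (sd G) (mi G S) {s}).filter (fun t => EIn (sd G) C s t)).card = 2 := by
      rw [← FrIn_two hS hsF, ← Set.ncard_coe_finset]
      congr 1
      ext t
      simp only [Finset.coe_filter]
      constructor
      · rintro ⟨-, h⟩; exact h.mono hC.sub
      · intro h
        have htC : t ∈ C := by
          by_contra hn
          exact hC.nadj s hsC t ⟨h.2.2, hn⟩ h.1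
        refine ⟨mem_lkf.2 ⟨fun x hx => ?_, hsub h.2.2⟩, h.1, hsC, htC⟩
        rw [Finset.mem_singleton] at hx; subst hx; exact h.1
    rw [h2, two_smul]
    exact two_add _
  · have h2 : (lkf (sd G) (mi G S) {s}).filter (fun t => EIn (sd G) C s t) = ∅ := by
      rw [Finset.filter_eq_empty_iff]
      intro t _ h
      exact hsC h.2.1
    rw [h2]; simp

theorem wC_dot [Finite V] (hS : Surf G S) (hC : IsComp (sd G) (FrIn G S W) C)
    {g : Kq (sd G) (mi G S) 2 → ZMod 2} (h : Triv (sd G) C (ex1 (sd G) (mi G S) g)) :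
    wC G S C ⬝ᵥ g = 0 := by
  obtain ⟨p, hp⟩ := h
  obtain ⟨p', hp'⟩ := one_ext (G := sd G) (A := mi G S) p
  have h1 : wC G S C ⬝ᵥ g = wC G S C ⬝ᵥ (inc (sd G) (mi G S) 1).mulVec p' := by
    refine Finset.sum_congr rfl fun e _ => ?_
    obtain ⟨s, t, hst, hs⟩ := Finset.card_eq_two.1 e.2.1
    have hsA : s ∈ mi G S := e.2.2.2 (by rw [hs]; simp)
    have htA : t ∈ mi G S := e.2.2.2 (by rw [hs]; simp)
    have hadj : (sd G).Adj s t := e.2.2.1 (by rw [hs]; simp) (by rw [hs]; simp) hst
    have ee : EIn (sd G) (mi G S) s t := ⟨hadj, hsA, htA⟩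
    have he : e = kp ee := Subtype.ext hs
    rw [he, wC_kp]
    by_cases hF : EIn (sd G) C s t
    · rw [if_pos hF, inc_one, hp' s hsA, hp' t htA, ← hp s t hF, ex1_apply ee]
    · rw [if_neg hF, zero_mul, zero_mul]
  rw [h1, Matrix.dotProduct_mulVec, ← Matrix.mulVec_transpose, wC_cyc hS hC, zero_dotProduct]

/-- a curve on which all cocycles of the surface are trivial bounds -/
theorem wC_bound [Finite V] (hS : Surf G S) (hC : IsComp (sd G) (FrIn G S W) C)
    (h : ∀ a ∈ Z1 (sd G) (mi G S), Triv (sd G) C a) :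
    ∃ T : Kq (sd G) (mi G S) 3 → ZMod 2,
      (Matrix.transpose (inc (sd G) (mi G S) 2)).mulVec T = wC G S C := by
  refine perp_range _ _ fun w hw => ?_
  rw [Matrix.transpose_transpose] at hw
  rw [dotProduct_comm]
  refine wC_dot hS hC (h _ ?_)
  rw [← ker_inc]
  exact ⟨w, LinearMap.mem_ker.2 hw, rfl⟩

/-- S7: the curve bounds, so its crossing cochain is a coboundary -/
theorem curve_sep' [Finite V] (hS : Surf G S) (hC : IsComp (sd G) (FrIn G S W) C)
    (h : ∀ a ∈ Z1 (sd G) (mi G S), Triv (sd G) C a) : Triv G S (gam C) := by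
  obtain ⟨T, hT⟩ := wC_bound hS hC h
  have hS' := surf_sd hS
  have hsum : ∀ s t, EIn (sd G) (mi G S) s t →
      (if EIn (sd G) C s t then 1 else 0) =
        ∑ u ∈ lkf (sd G) (mi G S) {s, t}, wbar T {s, t, u} := by
    intro s t e
    rw [← wC_kp e, ← hT, incT_sum (S := mi G S) subset_rfl]
    refine Finset.sum_congr rfl fun u _ => ?_
    congr 1
    show insert u ({s, t} : Finset (Cq G)) = {s, t, u}
    ext v; simp only [Finset.mem_insert, Finset.mem_singleton]; tauto
  -- two triangles at an edge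
  have two : ∀ s t u u', EIn (sd G) (mi G S) s t → u ≠ u' →
      u ∈ Lk (sd G) {s, t} ∩ mi G S → u' ∈ Lk (sd G) {s, t} ∩ mi G S →
      (if EIn (sd G) C s t then 1 else 0) = wbar T {s, t, u} + wbar T {s, t, u'} := by
    intro s t u u' e huu hu hu'
    rw [hsum s t e]
    have hl : lkf (sd G) (mi G S) {s, t} = {u, u'} := by
      symm
      have hcoe : (({s, t} : Finset (Cq G)) : Set (Cq G)) = {s, t} := by simp
      refine Finset.eq_of_subset_of_card_le ?_ ?_
      · intro v hv
        simp only [Finset.mem_insert, Finset.mem_singleton] at hv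
        rcases hv with rfl | rfl
        · exact mem_lkf.2 ⟨fun r hr => hu.1 r (by rw [← hcoe]; exact hr), hu.2⟩
        · exact mem_lkf.2 ⟨fun r hr => hu'.1 r (by rw [← hcoe]; exact hr), hu'.2⟩
      · rw [Finset.card_pair huu]
        have h2 := (hS'.edge e).1
        rw [← h2, ← Set.ncard_coe_finset]
        refine Set.ncard_le_ncard ?_ (Set.toFinite _)
        intro v hv
        have hv' := mem_lkf.1 (Finset.mem_coe.1 hv)
        exact ⟨fun r hr => hv'.1 r (by rw [← Finset.mem_coe, hcoe]; exact hr), hv'.2⟩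
    rw [hl, Finset.sum_pair huu]
  have hvS : ∀ x ∈ S, vx G x ∈ mi G S := by
    intro x hx y hy
    have : y ∈ ({x} : Finset V) := hy
    rw [Finset.mem_singleton] at this; subst this; exact hx
  have hvF : ∀ x, vx G x ∉ C := by
    intro x hx
    obtain ⟨⟨-, y, hy, hyP⟩, z, hz, hzP⟩ := hC.sub hx
    have h1 : y ∈ ({x} : Finset V) := hy
    have h2 : z ∈ ({x} : Finset V) := hz
    rw [Finset.mem_singleton] at h1 h2
    subst h1; subst h2; exact hzP hyP
  have hloc : ∀ x ∈ S, ∀ y z y' z', EIn (sd G) (mi G S) (vx G x) y →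
      z ∈ Lk (sd G) {vx G x, y} ∩ mi G S → EIn (sd G) (mi G S) (vx G x) y' →
      z' ∈ Lk (sd G) {vx G x, y'} ∩ mi G S → wbar T {vx G x, y, z} = wbar T {vx G x, y', z'} := by
    intro x hx y z y' z' e hz e' hz'
    refine around hS' (hvS x hx) (wbar T) ?_ e hz e' hz'
    intro y z z' e hz hz'
    by_cases hzz : z = z'
    · rw [hzz]
    have h1 := two _ _ _ _ e hzz hz hz'
    rw [if_neg (fun h => hvF x h.2.1)] at h1
    exact (z2_eq _ _).1 h1.symm
  have hf : ∃ f : V → ZMod 2, ∀ x ∈ S, ∀ y z, EIn (sd G) (mi G S) (vx G x) y →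
      z ∈ Lk (sd G) {vx G x, y} ∩ mi G S → wbar T {vx G x, y, z} = f x := by
    refine ⟨fun x => if h : ∃ y z, EIn (sd G) (mi G S) (vx G x) y ∧
      z ∈ Lk (sd G) {vx G x, y} ∩ mi G S then wbar T {vx G x, h.choose, h.choose_spec.choose}
        else 0, ?_⟩
    intro x hx y z e hz
    have h : ∃ y z, EIn (sd G) (mi G S) (vx G x) y ∧
      z ∈ Lk (sd G) {vx G x, y} ∩ mi G S := ⟨y, z, e, hz⟩
    show _ = dite _ _ _
    rw [dif_pos h]
    exact hloc x hx _ _ _ _ e hz h.choose_spec.choose_spec.1 h.choose_spec.choose_spec.2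
  obtain ⟨f, hf⟩ := hf
  refine ⟨f, fun x y e => ?_⟩
  obtain ⟨z, hz⟩ := hS.edge_ne e
  have hcl : G.IsClique (({x, y, z} : Finset V) : Set V) :=
    clique_insert (s := {y, z}) (clique_insert (s := {z}) (by simp)
      (by simpa using hz.1 y (by simp))) (by
        intro v hv
        simp only [Finset.mem_insert, Finset.mem_singleton] at hv
        rcases hv with rfl | rfl
        · exact e.1
        · exact hz.1 x (by simp))
  let t : Cq G := ⟨{x, y, z}, ⟨x, by simp⟩, hcl⟩
  let s : Cq G := eg G e.1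
  have hsval : s.1 = {x, y} := rfl
  have htval : t.1 = {x, y, z} := rfl
  have hzx : z ≠ x := fun h => G.irrefl (h ▸ hz.1 x (by simp))
  have hzy : z ≠ y := fun h => G.irrefl (h ▸ hz.1 y (by simp))
  have hst : s < t := by
    rw [Cq.lt_iff, hsval, htval, Finset.ssubset_iff_subset_ne]
    refine ⟨fun v hv => ?_, fun h => ?_⟩
    · simp only [Finset.mem_insert, Finset.mem_singleton] at hv ⊢
      tauto
    · have : z ∈ ({x, y} : Finset V) := by rw [h]; simp
      simp only [Finset.mem_insert, Finset.mem_singleton] at this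
      tauto
  have hxs : vx G x < s := by
    rw [Cq.lt_iff, hsval, Finset.ssubset_iff_subset_ne]
    refine ⟨fun v hv => ?_, fun h => ?_⟩
    · have : v ∈ ({x} : Finset V) := hv
      rw [Finset.mem_singleton] at this; subst this; simp
    · have : y ∈ ({x} : Finset V) := by
        have h' : ({x} : Finset V) = {x, y} := h
        rw [h']; simp
      rw [Finset.mem_singleton] at this
      exact e.1.ne this.symm
  have hys : vx G y < s := by
    rw [Cq.lt_iff, hsval, Finset.ssubset_iff_subset_ne]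
    refine ⟨fun v hv => ?_, fun h => ?_⟩
    · have : v ∈ ({y} : Finset V) := hv
      rw [Finset.mem_singleton] at this; subst this; simp
    · have : x ∈ ({y} : Finset V) := by
        have h' : ({y} : Finset V) = {x, y} := h
        rw [h']; simp
      rw [Finset.mem_singleton] at this
      exact e.1.ne this
  have hxt : vx G x < t := hxs.trans hst
  have hyt : vx G y < t := hys.trans hst
  have hsS : s ∈ mi G S := by
    intro v hv
    rw [hsval] at hv
    simp only [Finset.mem_insert, Finset.mem_singleton] at hv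
    rcases hv with rfl | rfl
    · exact e.2.1
    · exact e.2.2
  have htS : t ∈ mi G S := by
    intro v hv
    rw [htval] at hv
    simp only [Finset.mem_insert, Finset.mem_singleton] at hv
    rcases hv with rfl | rfl | rfl
    · exact e.2.1
    · exact e.2.2
    · exact hz.2
  have hlx : vx G x ∈ Lk (sd G) {s, t} ∩ mi G S := ⟨by
    intro r hr
    rcases hr with rfl | hr
    · exact Or.inr hxs
    · rw [Set.mem_singleton_iff] at hr; subst hr; exact Or.inr hxt, hvS x e.2.1⟩
  have hly : vx G y ∈ Lk (sd G) {s, t} ∩ mi G S := ⟨by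
    intro r hr
    rcases hr with rfl | hr
    · exact Or.inr hys
    · rw [Set.mem_singleton_iff] at hr; subst hr; exact Or.inr hyt, hvS y e.2.2⟩
  have hxy : vx G x ≠ vx G y := by
    intro h
    have : ({x} : Finset V) = {y} := congrArg Subtype.val h
    exact e.1.ne (Finset.singleton_injective this)
  have h1 := two s t _ _ ⟨Or.inl hst, hsS, htS⟩ hxy hlx hly
  have r : ∀ a : Cq G, ({s, t, a} : Finset (Cq G)) = {a, s, t} := by
    intro a; ext v; simp only [Finset.mem_insert, Finset.mem_singleton]; tauto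
  rw [r, r] at h1
  have h2 := hf x e.2.1 s t ⟨Or.inl hxs, hvS x e.2.1, hsS⟩ ⟨by
    intro r hr
    rcases hr with rfl | hr
    · exact Or.inl hxt
    · rw [Set.mem_singleton_iff] at hr; subst hr; exact Or.inl hst, htS⟩
  have h3 := hf y e.2.2 s t ⟨Or.inl hys, hvS y e.2.2, hsS⟩ ⟨by
    intro r hr
    rcases hr with rfl | hr
    · exact Or.inl hyt
    · rw [Set.mem_singleton_iff] at hr; subst hr; exact Or.inl hst, htS⟩
  rw [← h2, ← h3, ← h1]
  unfold gam
  congr 1
  apply propext
  constructor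
  · rintro ⟨s', hs', he⟩
    have hss : s' = s := Subtype.ext he
    subst hss
    have hsF := hC.sub hs'
    have htF : t ∈ FrIn G S W := by
      obtain ⟨⟨-, u, hu, huW⟩, v, hv, hvW⟩ := hsF
      exact ⟨⟨htS, u, (Cq.lt_iff.1 hst).1 hu, huW⟩, v, (Cq.lt_iff.1 hst).1 hv, hvW⟩
    have htC : t ∈ C := by
      by_contra hn
      exact hC.nadj _ hs' t ⟨htF, hn⟩ (Or.inl hst)
    exact ⟨Or.inl hst, hs', htC⟩
  · intro h
    exact ⟨s, h.2.1, rfl⟩

/-- S7 in the form of MOT/Sb -/
theorem curve_sep [Finite V] (hS : Surf G S) (_hc : Conn G S) {W : Set V} {C : Set (Cq G)}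
    (hC : IsComp (sd G) (FrIn G S W) C) (h : ∀ a ∈ Z1 G S, Triv (sd G) C (upc G S a)) :
    Triv G S (gam C) := by
  refine curve_sep' hS hC fun a ha => ?_
  have hsub : C ⊆ mi G S := fun s hs => (hC.sub hs).1.1
  refine ((h _ (dnc_mem ha)).add ((upc_dnc ha).mono hsub)).congr ?_
  intro x y _
  simp only [Pi.add_apply]
  rw [← add_assoc, ← two_mul, show (2 : ZMod 2) = 0 from rfl, zero_mul, zero_add]

end MOT
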