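import Pool.Agent.MOT.SfE

/-!
# MOT/SgB: pieces of a surface by the Euler characteristic: leaves of a sphere, discs inside a disc
-/

open Classical

noncomputable section

namespace MOT

variable {V : Type} {G : SimpleGraph V} {A B M S P W R E : Set V}

/-! ## components with `H^1 = 0` -/

theorem IsComp.lift {K K' : Set V} (h : IsComp G A K) (h' : IsComp G (A \ K) K') :
    IsComp G A K' := by
  refine IsComp_of h'.conn (fun x hx => (h'.sub hx).1) ?_
  intro y hy z hz e
  by_cases hzK : z ∈ K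
  · exact h.nadj z hzK y (h'.sub hy) e.symm
  · exact h'.nadj y hy z ⟨⟨hz.1, hzK⟩, hz.2⟩ e

theorem comp_HZ_count [Finite V] (A : Set V) :
    b0 G A ≤ b1 G A + {K | IsComp G A K ∧ HZ G K}.ncard := by
  induction hn : A.ncard using Nat.strong_induction_on generalizing A with
  | _ n ih =>
    by_cases hA : A.Nonempty
    · obtain ⟨x, hx⟩ := hA
      have hK : IsComp G A (comp G A x) := ⟨x, hx, rfl⟩
      set K := comp G A x with hKdef
      have hlt : (A \ K).ncard < n := by
        rw [← hn]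
        refine Set.ncard_lt_ncard ⟨Set.sdiff_subset, fun h => ?_⟩ (Set.toFinite _)
        exact (h hx).2 (comp_self hx)
      have h1 := ih _ hlt (A \ K) rfl
      have hu : K ∪ (A \ K) = A := Set.union_sdiff_cancel hK.sub
      have hd : Disjoint K (A \ K) := Set.disjoint_sdiff_right
      have h2 := b0_disj hd hK.nadj
      have h3 := b1_disj hd hK.nadj
      rw [hu] at h2 h3
      rw [b0_eq_one.2 hK.conn] at h2
      have hsub : {K' | IsComp G (A \ K) K' ∧ HZ G K'} ⊆ {K' | IsComp G A K' ∧ HZ G K'} :=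
        fun K' h => ⟨hK.lift h.1, h.2⟩
      by_cases hz : HZ G K
      · have hnot : K ∉ {K' | IsComp G (A \ K) K' ∧ HZ G K'} := by
          rintro ⟨h, -⟩
          obtain ⟨y, hy⟩ := h.conn.1
          exact (h.sub hy).2 hy
        have h4 : (insert K {K' | IsComp G (A \ K) K' ∧ HZ G K'}).ncard ≤
            {K' | IsComp G A K' ∧ HZ G K'}.ncard :=
          Set.ncard_le_ncard (Set.insert_subset ⟨hK, hz⟩ hsub) (Set.toFinite _)
        rw [Set.ncard_insert_of_notMem hnot (Set.toFinite _)] at h4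
        omega
      · have h4 := Set.ncard_le_ncard hsub (Set.toFinite _)
        have h5 : b1 G K ≠ 0 := fun h => hz (b1_eq_zero.1 h)
        omega
    · rw [Set.not_nonempty_iff_eq_empty] at hA
      rw [hA, b0_empty]
      exact Nat.zero_le _

theorem comp_HZ_ex [Finite V] (h : b1 G A < b0 G A) : ∃ K, IsComp G A K ∧ HZ G K := by
  have h1 := comp_HZ_count (G := G) A
  have h2 : {K | IsComp G A K ∧ HZ G K}.Nonempty := by
    rw [← Set.ncard_pos]; omega
  exact h2

/-- LEAVES OF A SPHERE -/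
theorem sphere_leaves [Finite V] (hS : Surf G S) (hc : Conn G S) (hz : HZ G S) (hA : A ⊆ S)
    (h1 : A.Nonempty) (h2 : A ≠ S) :
    2 ≤ {K | IsComp G A K ∧ HZ G K}.ncard + {K | IsComp G (S \ A) K ∧ HZ G K}.ncard := by
  have e1 := surf_chi_part hS hc hA h2
  have e2 : chi G (S \ A) = b0 G (S \ A) - b1 G (S \ A) := by
    refine surf_chi_part hS hc Set.sdiff_subset ?_
    intro h
    obtain ⟨x, hx⟩ := h1
    have : x ∈ S \ A := by rw [h]; exact hA hx
    exact this.2 hx
  have e3 := surf_chi_add hS hA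
  have e4 := surf_chi hS hc
  rw [b1_eq_zero.2 hz] at e4
  have e5 := comp_HZ_count (G := G) A
  have e6 := comp_HZ_count (G := G) (S \ A)
  omega

/-- LEAVES OF A SURFACE with `b1 ≤ 1`, and for a torus without negative pieces -/
theorem surf_leaves [Finite V] (hS : Surf G S) (hc : Conn G S) (hA : A ⊆ S)
    (h1 : A.Nonempty) (h2 : A ≠ S) :
    2 ≤ {K | IsComp G A K ∧ HZ G K}.ncard + {K | IsComp G (S \ A) K ∧ HZ G K}.ncard +
      b1 G S := by
  have e1 := surf_chi_part hS hc hA h2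
  have e2 : chi G (S \ A) = b0 G (S \ A) - b1 G (S \ A) := by
    refine surf_chi_part hS hc Set.sdiff_subset ?_
    intro h
    obtain ⟨x, hx⟩ := h1
    have : x ∈ S \ A := by rw [h]; exact hA hx
    exact this.2 hx
  have e3 := surf_chi_add hS hA
  have e4 := surf_chi hS hc
  have e5 := comp_HZ_count (G := G) A
  have e6 := comp_HZ_count (G := G) (S \ A)
  omega

/-! ## three sets -/

private theorem fn_three [Finite V] (dAB : Disjoint A B) (dBE : Disjoint B E)
    (dAE : Disjoint A E) (h : ∀ s : Finset V, G.IsClique (s : Set V) →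
      (s : Set V) ⊆ A ∪ B ∪ E → (s : Set V) ⊆ A ∪ B ∨ (s : Set V) ⊆ B ∪ E ∨ (s : Set V) ⊆ A ∪ E)
    {k : ℕ} (hk : 0 < k) :
    fn G (A ∪ B ∪ E) k + fn G A k + fn G B k + fn G E k =
      fn G (A ∪ B) k + fn G (B ∪ E) k + fn G (A ∪ E) k := by
  let F : Set V → Set (Finset V) := fun X =>
    {s | s.card = k ∧ G.IsClique (s : Set V) ∧ (s : Set V) ⊆ X}
  have hF : ∀ X, fn G X k = (F X).ncard := fun X => rfl
  have hint : ∀ X Y, F X ∩ F Y = F (X ∩ Y) := by
    intro X Y; ext s
    constructor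
    · rintro ⟨⟨a, b, c⟩, ⟨_, _, d⟩⟩; exact ⟨a, b, Set.subset_inter c d⟩
    · rintro ⟨a, b, c⟩
      exact ⟨⟨a, b, fun x hx => (c hx).1⟩, ⟨a, b, fun x hx => (c hx).2⟩⟩
  have hmono : ∀ X Y, X ⊆ Y → F X ⊆ F Y := fun X Y h s hs => ⟨hs.1, hs.2.1, hs.2.2.trans h⟩
  have hemp : F ∅ = ∅ := by
    ext s
    simp only [Set.mem_empty_iff_false, iff_false]
    rintro ⟨a, -, c⟩
    have : s = ∅ := by
      rw [← Finset.coe_eq_empty]; exact Set.subset_empty_iff.1 c
    rw [this, Finset.card_empty] at a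
    omega
  have i1 : (A ∪ B) ∩ (B ∪ E) = B := by
    ext x
    constructor
    · rintro ⟨h1 | h1, h2 | h2⟩
      · exact h2
      · exact absurd h2 (Set.disjoint_left.1 dAE h1)
      · exact h1
      · exact h1
    · intro hx; exact ⟨Or.inr hx, Or.inl hx⟩
  have i2 : (A ∪ B) ∩ (A ∪ E) = A := by
    ext x
    constructor
    · rintro ⟨h1 | h1, h2 | h2⟩
      · exact h1
      · exact h1
      · exact h2
      · exact absurd h2 (Set.disjoint_left.1 dBE h1)
    · intro hx; exact ⟨Or.inl hx, Or.inl hx⟩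
  have i3 : (B ∪ E) ∩ (A ∪ E) = E := by
    ext x
    constructor
    · rintro ⟨h1 | h1, h2 | h2⟩
      · exact absurd h1 (Set.disjoint_left.1 dAB h2)
      · exact h2
      · exact h1
      · exact h1
    · intro hx; exact ⟨Or.inr hx, Or.inr hx⟩
  have hall : F (A ∪ B ∪ E) = (F (A ∪ B) ∪ F (B ∪ E)) ∪ F (A ∪ E) := by
    apply Set.Subset.antisymm
    · rintro s ⟨a, b, c⟩
      rcases h s b c with h1 | h1 | h1
      · exact Or.inl (Or.inl ⟨a, b, h1⟩)
      · exact Or.inl (Or.inr ⟨a, b, h1⟩)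
      · exact Or.inr ⟨a, b, h1⟩
    · refine Set.union_subset (Set.union_subset (hmono _ _ ?_) (hmono _ _ ?_)) (hmono _ _ ?_)
      · exact Set.subset_union_left
      · exact Set.union_subset (fun x hx => Or.inl (Or.inr hx)) Set.subset_union_right
      · exact Set.union_subset (fun x hx => Or.inl (Or.inl hx)) Set.subset_union_right
  have c1 := Set.ncard_union_add_ncard_inter (F (A ∪ B)) (F (B ∪ E)) (Set.toFinite _)
    (Set.toFinite _)
  have c2 := Set.ncard_union_add_ncard_inter (F (A ∪ B) ∪ F (B ∪ E)) (F (A ∪ E))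
    (Set.toFinite _) (Set.toFinite _)
  have c3 := Set.ncard_union_add_ncard_inter (F A) (F E) (Set.toFinite _) (Set.toFinite _)
  rw [hint, i1] at c1
  rw [Set.union_inter_distrib_right, hint, hint, i2, i3, ← hall] at c2
  rw [hint, dAE.inter_eq, hemp, Set.ncard_empty] at c3
  simp only [hF]
  omega

theorem chi_three [Finite V] (dAB : Disjoint A B) (dBE : Disjoint B E)
    (dAE : Disjoint A E) (h : ∀ s : Finset V, G.IsClique (s : Set V) →
      (s : Set V) ⊆ A ∪ B ∪ E → (s : Set V) ⊆ A ∪ B ∨ (s : Set V) ⊆ B ∪ E ∨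
        (s : Set V) ⊆ A ∪ E) :
    chi G (A ∪ B ∪ E) + chi G A + chi G B + chi G E =
      chi G (A ∪ B) + chi G (B ∪ E) + chi G (A ∪ E) := by
  have h1 := fn_three dAB dBE dAE h (k := 1) (by norm_num)
  have h2 := fn_three dAB dBE dAE h (k := 2) (by norm_num)
  have h3 := fn_three dAB dBE dAE h (k := 3) (by norm_num)
  have h4 := fn_three dAB dBE dAE h (k := 4) (by norm_num)
  unfold chi
  omega

/-- edges between `R` and the rest of `S` are mixed for `W`: the Euler characteristic of `R` splits -/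
theorem chi_split [Finite V] (hS : Surf G S) (hR : R ⊆ S)
    (hF : ∀ x ∈ R, ∀ y ∈ S \ R, G.Adj x y → (x ∈ W ↔ y ∉ W)) :
    chi G (R ∩ W) + chi G (R \ W) = chi G R := by
  have dAB : Disjoint (R ∩ W) (R \ W) :=
    Set.disjoint_left.2 fun x hx hx' => hx'.2 hx.2
  have dBE : Disjoint (R \ W) (S \ R) := Set.disjoint_left.2 fun x hx hx' => hx'.2 hx.1
  have dAE : Disjoint (R ∩ W) (S \ R) := Set.disjoint_left.2 fun x hx hx' => hx'.2 hx.1
  have uR : R ∩ W ∪ R \ W = R := Set.inter_union_sdiff R W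
  have uS : R ∩ W ∪ R \ W ∪ S \ R = S := by rw [uR, Set.union_sdiff_cancel hR]
  have h3 := chi_three (G := G) dAB dBE dAE (by
    intro s hs hsub
    by_cases hE : ∃ z ∈ s, z ∈ S \ R
    · obtain ⟨z, hz, hzE⟩ := hE
      by_cases hzW : z ∈ W
      · right; left
        intro x hx
        rcases hsub hx with (h | h) | h
        · exfalso
          have hne : x ≠ z := fun e => hzE.2 (e ▸ h.1)
          exact ((hF x h.1 z hzE (hs hx (Finset.mem_coe.2 hz) hne)).1 h.2) hzW
        · exact Or.inl h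
        · exact Or.inr h
      · right; right
        intro x hx
        rcases hsub hx with (h | h) | h
        · exact Or.inl h
        · exfalso
          have hne : x ≠ z := fun e => hzE.2 (e ▸ h.1)
          exact h.2 ((hF x h.1 z hzE (hs hx (Finset.mem_coe.2 hz) hne)).2 hzW)
        · exact Or.inr h
    · left
      intro x hx
      rcases hsub hx with h | h
      · exact h
      · exact absurd ⟨x, Finset.mem_coe.1 hx, h⟩ hE)
  rw [uS, uR] at h3
  have e1 := surf_chi_add hS (A := R ∩ W) (fun x hx => hR hx.1)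
  have e2 := surf_chi_add hS (A := R \ W) (fun x hx => hR hx.1)
  have e3 := surf_chi_add hS hR
  have s1 : S \ (R ∩ W) = R \ W ∪ S \ R := by
    ext x
    constructor
    · rintro ⟨h1, h2⟩
      by_cases hx : x ∈ R
      · exact Or.inl ⟨hx, fun hw => h2 ⟨hx, hw⟩⟩
      · exact Or.inr ⟨h1, hx⟩
    · rintro (h | h)
      · exact ⟨hR h.1, fun h' => h.2 h'.2⟩
      · exact ⟨h.1, fun h' => h.2 h'.1⟩
  have s2 : S \ (R \ W) = R ∩ W ∪ S \ R := by
    ext x
    constructor
    · rintro ⟨h1, h2⟩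
      by_cases hx : x ∈ R
      · refine Or.inl ⟨hx, ?_⟩
        by_contra hw
        exact h2 ⟨hx, hw⟩
      · exact Or.inr ⟨h1, hx⟩
    · rintro (h | h)
      · exact ⟨hR h.1, fun h' => h'.2 h.2⟩
      · exact ⟨h.1, fun h' => h.2 h'.1⟩
  rw [s1] at e1
  rw [s2] at e2
  omega

theorem FrIn_mixed (hR : R ⊆ S) (hF : FrIn G S R ⊆ FrIn G S W) :
    ∀ x ∈ R, ∀ y ∈ S \ R, G.Adj x y → (x ∈ W ↔ y ∉ W) := by
  intro x hx y hy e
  have h1 : eg G e ∈ FrIn G S R := by
    refine ⟨⟨fun v hv => ?_, x, ?_, hx⟩, y, ?_, hy.2⟩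
    · have : v ∈ ({x, y} : Finset V) := hv
      simp only [Finset.mem_insert, Finset.mem_singleton] at this
      rcases this with rfl | rfl
      · exact hR hx
      · exact hy.1
    · show x ∈ ({x, y} : Finset V); simp
    · show y ∈ ({x, y} : Finset V); simp
  obtain ⟨⟨-, u, hu, huW⟩, v, hv, hvW⟩ := hF h1
  have hu' : u ∈ ({x, y} : Finset V) := hu
  have hv' : v ∈ ({x, y} : Finset V) := hv
  simp only [Finset.mem_insert, Finset.mem_singleton] at hu' hv'
  rcases hu' with rfl | rfl <;> rcases hv' with rfl | rfl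
  · exact absurd huW hvW
  · exact ⟨fun _ => hvW, fun _ => huW⟩
  · exact ⟨fun h => absurd h hvW, fun h => absurd huW h⟩
  · exact absurd huW hvW

/-- B4: a disc of the surface whose curve is part of the curve of `W` contains a disc piece -/
theorem disc_inside [Finite V] (hS : Surf G S) (hc : Conn G S) {R W : Set V} (hR : R ⊆ S)
    (hne : R ≠ S) (hcR : Conn G R) (hzR : HZ G R) (hF : FrIn G S R ⊆ FrIn G S W) :
    ∃ D, D ⊆ R ∧ HZ G D ∧ (IsComp G (S ∩ W) D ∨ IsComp G (S \ W) D) := by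
  have hm := FrIn_mixed hR hF
  have h1 := chi_split hS hR hm
  have h2 := surf_chi_part hS hc hR hne
  rw [b0_eq_one.2 hcR, b1_eq_zero.2 hzR] at h2
  have hneS : ∀ X, X ⊆ R → X ≠ S := by
    intro X hX h
    exact hne (Set.Subset.antisymm hR (h ▸ hX))
  have h3 := surf_chi_part hS hc (A := R ∩ W) (fun x hx => hR hx.1)
    (hneS _ Set.inter_subset_left)
  have h4 := surf_chi_part hS hc (A := R \ W) (fun x hx => hR hx.1)
    (hneS _ Set.sdiff_subset)
  by_cases h5 : b1 G (R ∩ W) < b0 G (R ∩ W)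
  · obtain ⟨K, hK, hz⟩ := comp_HZ_ex h5
    refine ⟨K, fun x hx => (hK.sub hx).1, hz, Or.inl ?_⟩
    refine IsComp_of hK.conn (fun x hx => ⟨hR (hK.sub hx).1, (hK.sub hx).2⟩) ?_
    intro x hx y hy e
    by_cases hyR : y ∈ R
    · exact hK.nadj x hx y ⟨⟨hyR, hy.1.2⟩, hy.2⟩ e
    · exact (hm x (hK.sub hx).1 y ⟨hy.1.1, hyR⟩ e).1 (hK.sub hx).2 hy.1.2
  · have h6 : b1 G (R \ W) < b0 G (R \ W) := by omega
    obtain ⟨K, hK, hz⟩ := comp_HZ_ex h6
    refine ⟨K, fun x hx => (hK.sub hx).1, hz, Or.inr ?_⟩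
    refine IsComp_of hK.conn (fun x hx => ⟨hR (hK.sub hx).1, (hK.sub hx).2⟩) ?_
    intro x hx y hy e
    by_cases hyR : y ∈ R
    · exact hK.nadj x hx y ⟨⟨hyR, hy.1.2⟩, hy.2⟩ e
    · exact (hK.sub hx).2 ((hm x (hK.sub hx).1 y ⟨hy.1.1, hyR⟩ e).2 hy.1.2)

end MOT
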