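import Pool.Agent.MOT.ScM
import Pool.Agent.MOT.SgA
import Pool.Agent.MOT.SgB

/-!
# MOT/ScN: the curve of the leaf goes around `b` (helper73)
-/

open Classical

noncomputable section

namespace MOT

variable {V : Type} {G : SimpleGraph V} {A Bc Cc : Type} [Fintype Bc] [Fintype Cc]
  {e1 e2 : Bc → A} {inc : Bc → Cc → Prop} {X : Sc V A Bc Cc}

private theorem comp_mem_n {B C : Set (Cq G)} (hC : IsComp (sd G) B C) {s q : Cq G} (hs : s ∈ C)
    (hq : q ∈ B) (h : s ≤ q ∨ q ≤ s) : q ∈ C := by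
  by_contra hn
  have hne : s ≠ q := fun e => hn (e ▸ hs)
  refine hC.nadj s hs q ⟨hq, hn⟩ (sd_adj.2 ?_)
  rcases h with h | h
  · exact Or.inl (lt_of_le_of_ne h hne)
  · exact Or.inr (lt_of_le_of_ne h (Ne.symm hne))

private theorem chain_n (c : Cq (sd G)) {s t : Cq G} (hs : s ∈ c.1) (ht : t ∈ c.1) :
    s ≤ t ∨ t ≤ s := by
  by_cases e : s = t
  · exact Or.inl e.le
  · rcases sd_adj.1 (c.2.2 (Finset.mem_coe.2 hs) (Finset.mem_coe.2 ht) e) with h | h
    · exact Or.inl h.le
    · exact Or.inr h.le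

/-- the curve `D ∩ mi G S` of the disc `D` is one component of the curves of `U b` on the wall.
Sketch: `Q = Fr G (U b)` sphere, `D` a disc in it, `D ≠ Q` (`fr_ne`), so `FrIn (sd G) Q D` (chains in `Q` with an
element in `D` and one outside) is connected (`disc_curve`); the largest element of the chain which lies in `D`
is a simplex of `D` inside `S` (it is below a simplex which meets `N`); the image of this map is
`D ∩ mi G S` (`Wall.hn`), comparable chains have comparable images. -/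
theorem leaf_curve [Finite V] (h : ScS G e1 e2 inc X) (hu : ScU G e1 e2 inc X) {b : Bc}
    {D : Set (Cq G)} (hD : IsComp (sd G) (mi G X.X ∩ Fr G (X.U b)) D) (hz : HZ (sd G) D) :
    IsComp (sd G) (FrIn G X.S (X.U b)) (D ∩ mi G X.S) := by
  obtain ⟨s1, s2, s3⟩ := ScU.sphere h hu b
  obtain ⟨n1, n2, n3⟩ := ScU.fr_ne h hu b
  have hXc : ∀ x, x ∈ X.N → x ∉ X.X := by
    rintro x hx (h1 | h1)
    · exact Set.disjoint_left.1 h.wall.dqn h1 hx
    · exact Set.disjoint_left.1 h.wall.dpn h1 hx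
  have hDQ : D ⊆ Fr G (X.U b) := fun q hq => (hD.sub hq).2
  have hDne : D ≠ Fr G (X.U b) := by
    intro he
    obtain ⟨q, hq, x, hx, hxN⟩ := n3
    rw [← he] at hq
    exact hXc x hxN ((hD.sub hq).1 x hx)
  have hcurve := disc_curve s1 s2 hDQ hDne hD.conn hz
  -- in a chain of the curve there is an element of `D` inside the wall
  have hex : ∀ c ∈ FrIn (sd G) (Fr G (X.U b)) D, ∃ s ∈ c.1, s ∈ D ∩ mi G X.S := by
    rintro c ⟨⟨hcQ, s, hs, hsD⟩, ⟨t, ht, htD⟩⟩
    have htQ := hcQ t ht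
    have htX : t ∉ mi G X.X := fun h' => by
      have hc := chain_n c hs ht
      exact htD (comp_mem_n hD hsD ⟨h', htQ⟩ hc)
    have hst : s ≤ t := by
      rcases chain_n c hs ht with h' | h'
      · exact h'
      · exact absurd (fun x hx => (hD.sub hsD).1 x (Cq.le_iff.1 h' hx)) htX
    have hy : ∃ y ∈ t.1, y ∉ X.X := by
      by_contra hno
      push Not at hno
      exact htX hno
    obtain ⟨y, hy, hyX⟩ := hy
    have hyN : y ∈ X.N := by
      have : y ∈ X.S ∪ X.P ∪ X.N := by rw [h.wall.cover]; trivial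
      exact this.resolve_left hyX
    refine ⟨s, hs, hsD, fun x hx => ?_⟩
    rcases (hD.sub hsD).1 x hx with h1 | h1
    · exact h1
    · exfalso
      have hne : x ≠ y := by
        rintro rfl
        exact Set.disjoint_left.1 h.wall.dpn h1 hyN
      exact h.wall.nadj x h1 y hyN
        (t.2.2 (Finset.mem_coe.2 (Cq.le_iff.1 hst hx)) (Finset.mem_coe.2 hy) hne)
  -- every element of `D` in the wall is in a chain of the curve
  have hbk : ∀ s ∈ D ∩ mi G X.S, ∃ c ∈ FrIn (sd G) (Fr G (X.U b)) D, s ∈ c.1 := by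
    rintro s ⟨hsD, hsS⟩
    obtain ⟨y, hy1, hy2⟩ := (h.wall.hn s.1 s.2.1 s.2.2 (fun x hx => hsS x hx)).1.1
    have hyX := hXc y hy2
    let t : Cq G := ⟨insert y s.1, ⟨y, Finset.mem_insert_self _ _⟩, by
      rw [Finset.coe_insert]
      exact s.2.2.insert fun z hz _ => (hy1 z hz).symm⟩
    have hst : s ≤ t := Cq.le_iff.2 (Finset.subset_insert _ _)
    have hyt : y ∈ t.1 := Finset.mem_insert_self _ _
    have hys : y ∉ s.1 := fun h' => hyX ((hD.sub hsD).1 y h')
    have hlt : s < t := lt_of_le_of_ne hst (fun e => hys (e ▸ hyt))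
    have htQ : t ∈ Fr G (X.U b) := by
      obtain ⟨⟨u, hu1, hu2⟩, ⟨v, hv1, hv2⟩⟩ := hDQ hsD
      exact ⟨⟨u, Cq.le_iff.1 hst hu1, hu2⟩, ⟨v, Cq.le_iff.1 hst hv1, hv2⟩⟩
    have htD : t ∉ D := fun h' => hyX ((hD.sub h').1 y hyt)
    have hadj : (sd G).Adj s t := sd_adj.2 (Or.inl hlt)
    refine ⟨eg (sd G) hadj, ⟨⟨?_, s, Finset.mem_insert_self _ _, hsD⟩,
      ⟨t, Finset.mem_insert_of_mem (Finset.mem_singleton_self t), htD⟩⟩,
      Finset.mem_insert_self _ _⟩
    intro z hz
    have hz' : z ∈ ({s, t} : Finset (Cq G)) := hz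
    simp only [Finset.mem_insert, Finset.mem_singleton] at hz'
    rcases hz' with rfl | rfl
    · exact hDQ hsD
    · exact htQ
  have hconn : Conn (sd G) (D ∩ mi G X.S) := by
    rw [Conn_iff]
    refine ⟨?_, fun f hf => ?_⟩
    · obtain ⟨c, hc⟩ := hcurve.1
      obtain ⟨s, -, hs⟩ := hex c hc
      exact ⟨s, hs⟩
    · have hcl : ∀ (c : Cq (sd G)) (s t : Cq G), s ∈ c.1 → t ∈ c.1 → s ∈ D ∩ mi G X.S →
          t ∈ D ∩ mi G X.S → f s = f t := by
        intro c s t hs ht hsD htD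
        by_cases e : s = t
        · rw [e]
        · exact hf s t ⟨c.2.2 (Finset.mem_coe.2 hs) (Finset.mem_coe.2 ht) e, hsD, htD⟩
      let F : Cq (sd G) → ZMod 2 := fun c =>
        if h : ∃ s ∈ c.1, s ∈ D ∩ mi G X.S then f h.choose else 0
      have hF : ∀ (c : Cq (sd G)) (s : Cq G), s ∈ c.1 → s ∈ D ∩ mi G X.S → F c = f s := by
        intro c s hs hsD
        have h' : ∃ s ∈ c.1, s ∈ D ∩ mi G X.S := ⟨s, hs, hsD⟩
        show (if h : ∃ s ∈ c.1, s ∈ D ∩ mi G X.S then f h.choose else 0) = f s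
        rw [dif_pos h']
        exact hcl c _ _ h'.choose_spec.1 hs h'.choose_spec.2 hsD
      have hle : ∀ c c' : Cq (sd G), c ∈ FrIn (sd G) (Fr G (X.U b)) D → c ≤ c' → F c = F c' := by
        intro c c' hc hcc
        obtain ⟨s, hs, hsD⟩ := hex c hc
        rw [hF c s hs hsD, hF c' s (Cq.le_iff.1 hcc hs) hsD]
      intro s hs t ht
      obtain ⟨c, hc, hsc⟩ := hbk s hs
      obtain ⟨c', hc', htc⟩ := hbk t ht
      rw [← hF c s hsc hs, ← hF c' t htc ht]
      refine hcurve.const (f := F) (fun u v e => ?_) hc hc'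
      rcases sd_adj.1 e.1 with h' | h'
      · exact hle u v e.2.1 h'.le
      · exact (hle v u e.2.2 h'.le).symm
  refine IsComp_of hconn ?_ ?_
  · rintro s ⟨hsD, hsS⟩
    exact ⟨⟨hsS, (hDQ hsD).1⟩, (hDQ hsD).2⟩
  · rintro s ⟨hsD, hsS⟩ t ⟨⟨⟨htS, ht1⟩, ht2⟩, htn⟩ e
    refine htn ⟨?_, htS⟩
    refine comp_mem_n hD hsD ⟨fun x hx => Or.inl (htS x hx), ht1, ht2⟩ ?_
    rcases sd_adj.1 e with h' | h'
    · exact Or.inl h'.le
    · exact Or.inr h'.le

private theorem zself_n {B : Set V} {a : V → V → ZMod 2} (ha : a ∈ Z1 G B) (x : V) :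
    a x x = 0 := (mem_Z1.1 ha).1 x x (fun e => G.irrefl e.1)

private theorem upc_pw_n {B : Set V} {a : V → V → ZMod 2} (h0 : ∀ x, a x x = 0)
    {s t : Cq G} (e : EIn (sd G) (mi G B) s t) : upc G B a s t = pw G a s t := by
  unfold upc pw
  rw [if_pos e]
  by_cases hk : pk s = pk t
  · rw [if_pos hk, hk, h0]
  · rw [if_neg hk]

/-- a trivial cochain on `B` gives a trivial cochain on every part of `mi G B` -/
private theorem tpw_n {B : Set V} {C : Set (Cq G)} (hC : C ⊆ mi G B) {w : V → V → ZMod 2}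
    (hs : ∀ x y, w x y = w y x) (h0 : ∀ x, w x x = 0) (t : Triv G B w) :
    Triv (sd G) C (pw G w) := ((Triv_pw hs h0).2 t).mono hC

private theorem lc_triv_n {W : Type} {H : SimpleGraph W} {C : Set W} (k : Cc → ZMod 2)
    {w : Cc → W → W → ZMod 2} (hw : ∀ c, Triv H C (w c)) : Triv H C (lc k w) := by
  choose f hf using hw
  refine ⟨fun x => ∑ c, k c * f c x, fun x y e => ?_⟩
  show ∑ c, k c * w c x y = _
  rw [← Finset.sum_add_distrib]
  refine Finset.sum_congr rfl fun c _ => ?_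
  rw [hf c x y e, mul_add]

/-- if one `w c`, `inc b c`, is trivial on the curve, all classes of the other side are: the vertices of the
curve are in `Ze b` (`ScU.loc`), `par0`, `par1`; `spanY` -/
theorem par_Y [Finite V] (h : ScS G e1 e2 inc X) (hp : ScPar G inc X) (hu : ScU G e1 e2 inc X)
    {b : Bc} {C : Set (Cq G)} (hC : C ⊆ FrIn G X.S (X.U b)) {c : Cc} (hc : inc b c)
    (t : Triv (sd G) C (pw G (X.w c))) : ∀ a ∈ Z1 G X.Y, Triv (sd G) C (upc G X.Y a) := by
  have hCS : C ⊆ mi G X.S := fun s hs => (hC hs).1.1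
  have hCY : C ⊆ mi G X.Y := fun s hs x hx => Or.inl (hCS hs x hx)
  have hCZ : C ⊆ mi G (X.Y ∩ X.Ze b) := by
    intro s hs x hx
    refine ⟨hCY hs x hx, ?_⟩
    obtain ⟨⟨hsS, u, hu1, hu2⟩, ⟨v, hv1, hv2⟩⟩ := hC hs
    exact hu.loc b s ⟨u, hu1, hsS u hu1, hu2⟩ ⟨v, hv1, hsS v hv1, hv2⟩ x hx
  have hs : ∀ c' x y, X.w c' x y = X.w c' y x := fun c' => (h.wco c').symm
  have h0 : ∀ c' x, X.w c' x x = 0 := fun c' => (h.wco c').zero
  have hall : ∀ c', Triv (sd G) C (pw G (X.w c')) := by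
    intro c'
    by_cases hi : inc b c'
    · have h1 := tpw_n hCZ (w := X.w c + X.w c')
        (fun x y => by simp only [Pi.add_apply, hs c x y, hs c' x y])
        (fun x => by simp only [Pi.add_apply, h0 c x, h0 c' x, add_zero]) (hp.par1 b c c' hc hi)
      refine (t.add h1).congr fun x y _ => ?_
      simp only [Pi.add_apply, pw]
      rw [← add_assoc, two_add, zero_add]
    · refine tpw_n hCZ (hs c') (h0 c') ⟨0, fun x y e => ?_⟩
      rw [hp.par0 b c' hi x y e]
      simp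
  intro a ha
  obtain ⟨k, hk⟩ := h.spanY a ha
  have hsl : ∀ x y, lc k X.w x y = lc k X.w y x := fun x y =>
    Finset.sum_congr rfl fun c' _ => by rw [hs c' x y]
  have h0l : ∀ x, lc k X.w x x = 0 := fun x =>
    Finset.sum_eq_zero fun c' _ => by rw [h0 c' x, mul_zero]
  have h1 := tpw_n hCY (w := a + lc k X.w)
    (fun x y => by simp only [Pi.add_apply, hsl x y, (mem_Z1.1 ha).2.1 x y])
    (fun x => by simp only [Pi.add_apply, h0l x, zself_n ha x, add_zero]) hk
  have h2 : Triv (sd G) C (lc k (fun c' => pw G (X.w c'))) := lc_triv_n k hall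
  refine (h1.add h2).congr fun x y e => ?_
  rw [upc_pw_n (fun x => zself_n ha x) (e.mono hCY)]
  show a (pk x) (pk y) + lc k X.w (pk x) (pk y) + lc k (fun c' => pw G (X.w c')) x y =
    a (pk x) (pk y)
  have e3 : lc k (fun c' => pw G (X.w c')) x y = lc k X.w (pk x) (pk y) := rfl
  rw [e3, add_assoc, two_add, add_zero]

/-- (PAR).  Sketch: let `C = D ∩ mi G S` and `w c` trivial on `C`.  Classes of `Y`: `par_Y`; classes of `X`
are trivial on `D` (`HZ`), so on `C`; `split`: all classes of `S` are trivial on `C`; `curve_sep`: `gam C` is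
trivial on `S`; on pairs in `S` `gam C = gam D`, so `gam D` is trivial on `S`, on `X` (`inj_S`, `gam_mem`), so `wb b` is
trivial on `X` (`hcls`): contradiction to `no_X`. -/
theorem sc_par [Finite V] (h : ScS G e1 e2 inc X) (hp : ScPar G inc X)
    (hu : ScU G e1 e2 inc X) {b : Bc} {D : Set (Cq G)}
    (hD : IsComp (sd G) (mi G X.X ∩ Fr G (X.U b)) D) (hz : HZ (sd G) D)
    (hcls : Triv G X.X (gam D + X.wb e1 e2 b)) {c : Cc} (hc : inc b c) :
    ¬ Triv (sd G) (D ∩ mi G X.S) (pw G (X.w c)) := by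
  intro t
  have hcomp := leaf_curve h hu hD hz
  have hCS : D ∩ mi G X.S ⊆ mi G X.S := Set.inter_subset_right
  have hSX : X.S ⊆ X.X := Set.subset_union_left
  have hSY : X.S ⊆ X.Y := Set.subset_union_left
  have hDX : D ⊆ mi G X.X := fun q hq => (hD.sub hq).1
  have hY := par_Y h hp hu hcomp.sub hc t
  have hSall : ∀ a ∈ Z1 G X.S, Triv (sd G) (D ∩ mi G X.S) (upc G X.S a) := by
    intro a ha
    obtain ⟨a1, ha1, b1, hb1, hab⟩ := h.split a ha
    have k1 : Triv (sd G) (D ∩ mi G X.S) (upc G X.X a1) := by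
      refine Triv.mono (A := D) Set.inter_subset_left ?_
      exact Triv_rs.1 (hz _ (rs_mem hDX (upc_mem ha1)))
    have k2 := hY b1 hb1
    have k3 := tpw_n hCS (w := a1 + b1 + a)
      (fun x y => by simp only [Pi.add_apply, (mem_Z1.1 ha1).2.1 x y, (mem_Z1.1 hb1).2.1 x y,
        (mem_Z1.1 ha).2.1 x y])
      (fun x => by simp only [Pi.add_apply, zself_n ha1 x, zself_n hb1 x, zself_n ha x, add_zero])
      hab
    refine ((k1.add k2).add k3).congr fun x y e => ?_
    have e' := e.mono hCS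
    simp only [Pi.add_apply]
    rw [upc_pw_n (fun x => zself_n ha1 x) (e'.mono (mi_mono hSX)),
      upc_pw_n (fun x => zself_n hb1 x) (e'.mono (mi_mono hSY)),
      upc_pw_n (fun x => zself_n ha x) e']
    simp only [pw, Pi.add_apply]
    have : ∀ p q r : ZMod 2, p + q + (p + q + r) = r := by decide
    exact this _ _ _
  have hsep := curve_sep h.wall.surf h.cS hcomp hSall
  have hgS : Triv G X.S (rs G X.X (gam D)) := by
    refine hsep.congr fun x y e => ?_
    rw [rs_apply (e.mono hSX)]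
    unfold gam
    congr 1
    apply propext
    constructor
    · rintro ⟨s, hs, he⟩
      exact ⟨s, hs.1, he⟩
    · rintro ⟨s, hs, he⟩
      refine ⟨s, ⟨hs, fun z hz' => ?_⟩, he⟩
      rw [he] at hz'
      simp only [Finset.mem_insert, Finset.mem_singleton] at hz'
      rcases hz' with rfl | rfl
      · exact e.2.1
      · exact e.2.2
  have hgX := Triv_rs.1 (h.inj_S _ (gam_mem hD) hgS)
  refine h.no_X b ((hgX.add hcls).congr fun x y _ => ?_)
  simp only [Pi.add_apply]
  rw [← add_assoc, two_add, zero_add]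

end MOT
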