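import Pool.Agent.MOT.ScR

/-!
# MOT/ScRs: the triangle side: `SpOK` from `BaseU`, `PltU` (helper73)
-/

open Classical

noncomputable section

namespace MOT

variable {Vc V : Type} {Gc : SimpleGraph Vc} {G : SimpleGraph V}

/-- the dual core without the middle of `s` -/
def LrF (b : BaseU Gc G) (s : Fc Gc) : Set V :=
  {x | (∃ t, x ∈ b.Lt t) ∨ (∃ s', s' ≠ s ∧ x ∈ b.Ls s') ∨
    ∃ e : Ec Gc, ¬ e.1 ⊆ s.1 ∧ x ∈ b.Lbs e}

/-- the data of the triangle side -/
def spF [Finite Vc] (hc : IsSph3 Gc) (b : BaseU Gc G) (p : PltU b) :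
    SpD V (Te Gc) (Fc Gc) (Ec Gc) where
  Bs := b.B
  BsL := b.BL
  U := p.Ud
  Lv := b.Lt
  Le := b.Ls
  Lr := LrF b
  Ze s := {x | s.q ∈ b.cr x}
  Zf s := b.Ns (nb Gc (s.1 : Set Vc))
  Bd := b.Bde
  top := b.tto hc
  w := b.we

variable [Finite Vc] [Fintype (Ec Gc)] [Fintype (Fc Gc)]

/-- values of `tto` on a simplex which is not inside `B` -/
private theorem tto_val_h10 (hc : IsSph3 Gc) (b : BaseU Gc G) {q : Cq G} (hq : q ∉ mi G b.B) :
    ∃ t t' : Te Gc, (t = t' ∨ TAdj t.1 t'.1) ∧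
      (∀ x ∈ q.1, b.tto hc x = t ∨ b.tto hc x = t') ∧ ∀ x ∈ q.1, b.tt x = (b.tto hc x).1 := by
  obtain ⟨t, t', h1, h2⟩ := b.tt_cl (q.1 : Set V) q.2.2 (fun h => hq fun x hx => h hx)
  have key : ∀ (t : Te Gc) (x : V), b.tt x = t.1 → b.tto hc x = t := by
    intro t x hx
    have h3 : IsTet Gc (b.tt x) := by rw [hx]; exact t.2
    unfold BaseU.tto
    rw [dif_pos h3]
    exact Subtype.ext hx
  refine ⟨t, t', h1, fun x hx => ?_, fun x hx => ?_⟩
  · rcases h2 x hx with h | h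
    · exact Or.inl (key t x h)
    · exact Or.inr (key t' x h)
  · rcases h2 x hx with h | h
    · rw [key t x h, h]
    · rw [key t' x h, h]

/-- the vertex `x` as a simplex outside `B` -/
private theorem vx_out_h10 {B : Set V} {x : V} (hx : x ∉ B) : vx G x ∉ mi G B :=
  fun h => hx (h x (Finset.mem_singleton_self x))

private theorem tto_one_h10 (hc : IsSph3 Gc) (b : BaseU Gc G) {x : V} (hx : x ∉ b.B) :
    b.tt x = (b.tto hc x).1 := by
  obtain ⟨-, -, -, -, h⟩ := tto_val_h10 hc b (vx_out_h10 hx)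
  exact h x (Finset.mem_singleton_self x)

/-- off `B` the crossing cochain of `s` is the pull back by `tto` -/
theorem ws_wtt (hc : IsSph3 Gc) (b : BaseU Gc G) (s : Fc Gc) {q : Cq G} (hq : q ∉ mi G b.B)
    {x y : V} (hx : x ∈ q.1) (hy : y ∈ q.1) :
    b.ws s x y = wtt (b.tto hc) (cS1 hc s) (cS2 hc s) x y := by
  obtain ⟨-, -, -, -, hv⟩ := tto_val_h10 hc b hq
  rw [b.ws_def s (q.1 : Set V) q.2.2 (fun h => hq fun x hx => h hx) x hx y hy, hv x hx, hv y hy]
  refine if_congr ?_ rfl rfl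
  constructor
  · rintro ⟨h1, h2, h3⟩
    rcases cS_all hc s _ h2 with e1 | e1 <;> rcases cS_all hc s _ h3 with e2 | e2
    · exact absurd (by rw [e1, e2]) h1
    · exact Or.inl ⟨e1, e2⟩
    · exact Or.inr ⟨e1, e2⟩
    · exact absurd (by rw [e1, e2]) h1
  · rintro (⟨e1, e2⟩ | ⟨e1, e2⟩)
    · rw [e1, e2]
      exact ⟨fun h => cS_ne hc s (Subtype.ext h), cS_sub1 hc s, cS_sub2 hc s⟩
    · rw [e1, e2]
      exact ⟨fun h => cS_ne hc s (Subtype.ext h).symm, cS_sub2 hc s, cS_sub1 hc s⟩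

theorem LrF_conn (hc : IsSph3 Gc) (b : BaseU Gc G) (s : Fc Gc) : Conn G (LrF b s) := by
  rw [Conn_iff]
  obtain ⟨t0⟩ := Te_ne hc
  obtain ⟨x0, hx0⟩ := (b.Lt_c t0).1
  refine ⟨⟨x0, Or.inl ⟨t0, hx0⟩⟩, fun f hf => ?_⟩
  have subt : ∀ t, b.Lt t ⊆ LrF b s := fun t x hx => Or.inl ⟨t, hx⟩
  have subs : ∀ s', s' ≠ s → b.Ls s' ⊆ LrF b s := fun s' h x hx => Or.inr (Or.inl ⟨s', h, hx⟩)
  have sube : ∀ e : Ec Gc, ¬ e.1 ⊆ s.1 → b.Lbs e ⊆ LrF b s := fun e h x hx =>
    Or.inr (Or.inr ⟨e, h, hx⟩)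
  have cst : ∀ A ⊆ LrF b s, Conn G A → ∀ x ∈ A, ∀ y ∈ A, f x = f y := fun A hA hc x hx y hy =>
    hc.const (fun u v e => hf u v (e.mono hA)) hx hy
  choose pt hpt using fun t => (b.Lt_c t).1
  have h1 : ∀ t, ∀ x ∈ b.Lt t, f x = f (pt t) := fun t x hx => cst _ (subt t) (b.Lt_c t) x hx _ (hpt t)
  have h2 : ∀ t t', f (pt t) = f (pt t') := by
    intro t t'
    refine cS_graph hc s (fun t => f (pt t)) (fun s' hs => ?_) t t'
    exact cst _ (subs s' hs) (b.Ls_c s') _ (b.Lt_Ls _ _ (cS_sub1 hc s') (hpt _)) _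
      (b.Lt_Ls _ _ (cS_sub2 hc s') (hpt _))
  have key : ∀ x ∈ LrF b s, f x = f (pt t0) := by
    rintro x (⟨t, hx⟩ | ⟨s', hs', hx⟩ | ⟨e, he, hx⟩)
    · rw [h1 t x hx, h2 t t0]
    · rw [cst _ (subs s' hs') (b.Ls_c s') x hx _ (b.Lt_Ls _ _ (cS_sub1 hc s') (hpt _)), h2 _ t0]
    · obtain ⟨s', z, -, hs'⟩ := e_tri hc e
      have hes : e.1 ⊆ s'.1 := by rw [hs']; exact Finset.subset_insert _ _
      rw [cst _ (sube e he) (b.Lbs_c e) x hx _
        (b.Ls_Lbs s' e hes (b.Lt_Ls _ _ (cS_sub1 hc s') (hpt _))), h2 _ t0]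
  intro x hx y hy
  rw [key x hx, key y hy]

private theorem nr_mem_h10 (q : Cq G) {x y : V} (hx : x ∈ q.1) (hy : y ∈ q.1) : Nr G x y := by
  by_cases e : x = y
  · exact Or.inl e
  · exact Or.inr (q.2.2 (Finset.mem_coe.2 hx) (Finset.mem_coe.2 hy) e)

/-- an edge with ends `v`, `w` is `{v, w}` -/
private theorem e_pair_h10 (e : Ec Gc) {v w : Vc} (hv : v ∈ e.1) (hw : w ∈ e.1) (hvw : v ≠ w) :
    e.1 = {v, w} := by
  refine (Finset.eq_of_subset_of_card_le ?_ (by rw [e.2.1, Finset.card_pair hvw])).symm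
  intro z hz
  rw [Finset.mem_insert, Finset.mem_singleton] at hz
  rcases hz with rfl | rfl
  · exact hv
  · exact hw

/-- `z0`, `z1` for the triangle side: a simplex meeting `M` has no vertex in `NT` and is not inside `Bs`;
`s ∈ cr x` gives `top x ∈ s` (`cr_top`); `we_def`; `around_s` -/
theorem spF_z (hc : IsSph3 Gc) (b : BaseU Gc G) (hn : ∀ x ∈ b.NT, ∀ y, Nr G x y → y ∈ b.BsL)
    {M : Set V} (hB : b.BsL ⊆ Mᶜ) (s : Fc Gc) :
    (∀ e : Ec Gc, ¬ e.1 ⊆ s.1 → ∀ q ∈ pl G M, ∀ x ∈ q.1, ∀ y ∈ q.1, s.q ∈ b.cr x →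
      s.q ∈ b.cr y → b.we e x y = 0) ∧
    ∀ e e' : Ec Gc, e.1 ⊆ s.1 → e'.1 ⊆ s.1 → ∃ f : V → ZMod 2, ∀ q ∈ pl G M, ∀ x ∈ q.1,
      ∀ y ∈ q.1, s.q ∈ b.cr x → s.q ∈ b.cr y → b.we e x y + b.we e' x y = f x + f y := by
  have htop : ∀ q ∈ pl G M, ∀ x ∈ q.1, s.q ∈ b.cr x → b.top x ∈ s.1 := by
    rintro q ⟨z, hz, hzM⟩ x hx hsx
    exact b.cr_top x (fun h => hB (hn x h z (nr_mem_h10 q hx hz)) hzM) _ hsx
  have hout : ∀ q ∈ pl G M, ¬ (q.1 : Set V) ⊆ b.Bs := by
    rintro q ⟨z, hz, hzM⟩ h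
    exact hB (b.Bs_BsL (h hz)) hzM
  constructor
  · intro e he q hq x hx y hy hsx hsy
    rw [b.we_def e (q.1 : Set V) q.2.2 (hout q hq) x hx y hy]
    refine if_neg ?_
    rintro ⟨h1, h2, h3⟩
    apply he
    rw [e_pair_h10 e h2 h3 h1]
    intro z hz
    rw [Finset.mem_insert, Finset.mem_singleton] at hz
    rcases hz with rfl | rfl
    · exact htop q hq x hx hsx
    · exact htop q hq y hy hsy
  · intro e e' he he'
    obtain ⟨g, hg⟩ := around_s s e e' he he'
    refine ⟨fun x => g (b.top x), fun q hq x hx y hy hsx hsy => ?_⟩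
    have tx := htop q hq x hx hsx
    have ty := htop q hq y hy hsy
    rw [b.we_def e (q.1 : Set V) q.2.2 (hout q hq) x hx y hy,
      b.we_def e' (q.1 : Set V) q.2.2 (hout q hq) x hx y hy]
    by_cases h1 : b.top x = b.top y
    · rw [if_neg (fun h => h.1 h1), if_neg (fun h => h.1 h1)]
      show (0 : ZMod 2) + 0 = g (b.top x) + g (b.top y)
      rw [h1, two_add, two_add]
    · have hadj : Gc.Adj (b.top x) (b.top y) :=
        s.2.2 (Finset.mem_coe.2 tx) (Finset.mem_coe.2 ty) h1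
      have m1 : b.top x ∈ (mkE hadj).1 := Finset.mem_insert_self _ _
      have m2 : b.top y ∈ (mkE hadj).1 := Finset.mem_insert_of_mem (Finset.mem_singleton_self _)
      have hsub : (mkE hadj).1 ⊆ s.1 := by
        intro z hz
        have hz' : z ∈ ({b.top x, b.top y} : Finset Vc) := hz
        rw [Finset.mem_insert, Finset.mem_singleton] at hz'
        rcases hz' with rfl | rfl
        · exact tx
        · exact ty
      show _ = g (b.top x) + g (b.top y)
      rw [hg (mkE hadj) _ _ h1 hsub m1 m2]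
      have key : ∀ e : Ec Gc, (b.top x ≠ b.top y ∧ b.top x ∈ e.1 ∧ b.top y ∈ e.1) ↔
          mkE hadj = e := by
        intro e
        constructor
        · rintro ⟨-, h2, h3⟩
          exact simple_e h1 m1 m2 h2 h3
        · rintro rfl
          exact ⟨h1, m1, m2⟩
      rw [if_congr (key e) rfl rfl, if_congr (key e') rfl rfl]

/-- `tto` is one of the two tetrahedra at `s` -/
private theorem tto_two_h10 (hc : IsSph3 Gc) (b : BaseU Gc G) (s : Fc Gc) {x : V}
    (hx : x ∉ b.B) (hs : s.1 ⊆ b.tt x) : b.tto hc x = cS1 hc s ∨ b.tto hc x = cS2 hc s := by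
  rw [tto_one_h10 hc b hx] at hs
  exact cS_all hc s _ hs

private theorem lc_ind_h10 {I : Type} [Fintype I] (i : I) (w : I → V → V → ZMod 2) :
    lc (fun j => if j = i then 1 else 0) w = w i := by
  funext x y
  show ∑ j, (if j = i then (1 : ZMod 2) else 0) * w j x y = w i x y
  simp

private theorem wtt_pot_h10 {A : Type} {top : V → A} {p q : A} (hne : p ≠ q) {x y : V}
    (hx : top x = p ∨ top x = q) (hy : top y = p ∨ top y = q) :
    wtt top p q x y = (if top x = p then 1 else 0) + (if top y = p then 1 else 0) := by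
  have h1 : wtt top p q x y =
      if (top x = p ∧ top y = q) ∨ (top x = q ∧ top y = p) then 1 else 0 := rfl
  rw [h1]
  rcases hx with ex | ex <;> rcases hy with ey | ey <;> rw [ex, ey]
  · rw [if_neg (fun h => h.elim (fun h => hne h.2) (fun h => hne h.1)), if_pos rfl, two_add]
  · rw [if_pos (Or.inl ⟨rfl, rfl⟩), if_pos rfl, if_neg hne.symm, add_zero]
  · rw [if_pos (Or.inr ⟨rfl, rfl⟩), if_pos rfl, if_neg hne.symm, zero_add]
  · rw [if_neg (fun h => h.elim (fun h => hne.symm h.1) (fun h => hne.symm h.2)), if_neg hne.symm,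
      add_zero]

/-- INSTANCE for the triangles; own side `Mᶜ` -/
theorem spF_ok [Finite V] (hc : IsSph3 Gc) (hG : IsSph3 G) (b : BaseU Gc G) (p : PltU b)
    (hn : ∀ x ∈ b.NT, ∀ y, Nr G x y → y ∈ b.BsL) {M : Set V}
    (hM : Adm G b.BL b.BsL M (fq (cutE Gc) + fq (cutF Gc))) :
    SpOK G (cS1 hc) (cS2 hc) (fun s e => e.1 ⊆ s.1) (spF hc b p) Mᶜ := by
  have hBM : b.B ⊆ M := b.B_BL.trans hM.hB
  have hBsM : b.Bs ⊆ Mᶜ := b.Bs_BsL.trans hM.hBs
  have hdB : ∀ x, x ∈ b.Bs → x ∉ b.B := fun x h1 h2 => Set.disjoint_left.1 b.dBB h2 h1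
  obtain ⟨hb1, hb2⟩ := adm_b1 hc b hM
  have hz := spF_z hc b hn hM.hBs
  have hedge : ∀ x y, EIn G Mᶜ x y → ∀ s : Fc Gc,
      b.ws s x y = wtt (b.tto hc) (cS1 hc s) (cS2 hc s) x y := by
    intro x y e s
    refine ws_wtt hc b s (q := eg G e.1) (fun h => ?_) (by simp [eg]) (by simp [eg])
    exact e.2.1 (hBM (h x (by simp [eg])))
  have LtBs : ∀ t, b.Lt t ⊆ b.Bs := by
    intro t
    obtain ⟨x, hx⟩ : t.1.Nonempty := by
      rw [← Finset.card_pos, t.2.1]
      norm_num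
    obtain ⟨s, hs⟩ := te_erase t hx
    have hst : s.1 ⊆ t.1 := by rw [hs]; exact Finset.erase_subset _ _
    exact (b.Lt_Ls t s hst).trans (b.Ls_Bs s)
  have tUd : ∀ s, ∀ x ∈ p.Ud s, b.tto hc x = cS1 hc s ∨ b.tto hc x = cS2 hc s := by
    intro s x hx
    refine tto_two_h10 hc b s (fun h => Set.disjoint_left.1 (p.Ud_B s).1 hx h) ?_
    exact b.cr_tt x (p.Ud_NTs s x hx x (Or.inl rfl)) _ (p.Ud_cr s x hx x (Or.inl rfl))
  have tLs : ∀ s, ∀ x ∈ b.Ls s, b.tto hc x = cS1 hc s ∨ b.tto hc x = cS2 hc s := fun s x hx =>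
    tto_two_h10 hc b s (hdB x (b.Ls_Bs s hx)) (b.Ls_tt s x hx)
  exact
    { neB := by
        obtain ⟨⟨x, -⟩, -⟩ := hc.conn
        obtain ⟨e, -⟩ := v_e hc x
        obtain ⟨s, -⟩ := e_tri hc e
        exact ⟨s⟩
      sph := hG
      cM := hM.cN
      cN := by rw [compl_compl]; exact hM.cM
      ne := cS_ne hc
      simple := cS_simple hc
      graph := fun s f hf => cS_graph hc s f hf
      top2 := by
        intro q hq
        obtain ⟨t, t', h1, h2, -⟩ := tto_val_h10 hc b hq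
        refine ⟨t, t', ?_, h2⟩
        rcases h1 with h1 | h1
        · exact Or.inl h1
        · obtain ⟨hne, s, hs, hs'⟩ := (TAdj_iff t t').1 h1
          refine Or.inr ⟨s, ?_⟩
          rcases cS_all hc s t hs with e1 | e1 <;> rcases cS_all hc s t' hs' with e2 | e2
          · exact absurd (e1.trans e2.symm) hne
          · rw [e1, e2]
          · rw [e1, e2, Set.pair_comm]
          · exact absurd (e1.trans e2.symm) hne
      span := by
        intro a ha
        obtain ⟨c, hc'⟩ := (b.famF hc).span hBsM (Set.disjoint_left.2 fun x h1 h2 => h1 (hBM h2))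
          hb2 ha
        refine ⟨c, hc'.congr fun x y e => ?_⟩
        simp only [Pi.add_apply, lc]
        congr 1
        exact Finset.sum_congr rfl fun s _ => by rw [hedge x y e s]; rfl
      spanN := by
        rw [compl_compl]
        intro a ha
        exact b.famE.span hBM (Set.disjoint_left.2 fun x h1 h2 => hBsM h2 h1) hb1 ha
      injN := by
        rw [compl_compl]
        exact b.famE.inj hBM (Set.disjoint_left.2 fun x h1 h2 => hBsM h2 h1) hb1
      cBs := b.cB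
      BsN := by rw [compl_compl]; exact hBM
      BsL := by rw [compl_compl]; exact hM.hB
      LvC := b.Lt_c
      LvL := fun t s x hx => Or.inl ⟨t, hx⟩
      Lvt := by
        intro t x hx
        have h1 := tto_one_h10 hc b (hdB x (LtBs t hx))
        exact Subtype.ext (h1.symm.trans (b.Lt_tt t x hx).1)
      LeC := b.Ls_c
      LeM := fun s => (b.Ls_Bs s).trans hBsM
      Let := tLs
      Le1 := fun s => b.Lt_Ls _ _ (cS_sub1 hc s)
      Le2 := fun s => b.Lt_Ls _ _ (cS_sub2 hc s)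
      LeL := fun s s' h x hx => Or.inr (Or.inl ⟨s, h, hx⟩)
      LrC := LrF_conn hc b
      LrM := by
        rintro s x (⟨t, hx⟩ | ⟨s', -, hx⟩ | ⟨e, -, hx⟩)
        · exact hBsM (LtBs t hx)
        · exact hBsM (b.Ls_Bs s' hx)
        · exact hBsM (b.Lbs_Bs e hx)
      wco := fun e => ⟨(b.we_coc e).sym, (b.we_coc e).dia, fun s hs x hx y hy z hz =>
        (b.we_coc e).coc (s.1 : Set V) s.2.2 (fun hsub => hs fun v hv => hsub hv) x hx y hy z hz⟩
      BdM := fun e => ((b.Bde_Lbs e).trans (b.Lbs_Bs e)).trans hBsM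
      BdL := fun s e h x hx => Or.inr (Or.inr ⟨e, h, b.Bde_Lbs e hx⟩)
      inc0 := by
        intro s
        obtain ⟨e, he⟩ := s_not_e hc s
        refine ⟨e, he, fun ht => ?_⟩
        have h1 : Triv G b.B (lc (fun e' : Ec Gc => if e' = e then 1 else 0) b.we) := by
          rw [lc_ind_h10]
          exact ht
        obtain ⟨f, hf⟩ := b.famE.ker _ h1
        have h2 : ∀ v w, f v = f w := coarse_e hc e f (fun e' he' v hv w hw => by
          by_cases hvw : v = w
          · rw [hvw]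
          · have h3 : (if e' = e then (1 : ZMod 2) else 0) = f v + f w := hf e' v w hvw hv hw
            rw [if_neg he'] at h3
            exact (z2_eq _ _).1 h3.symm)
        have h4 : (if e = e then (1 : ZMod 2) else 0) = f (cE1 e) + f (cE2 e) :=
          hf e _ _ (cE_ne e) (cE_m1 e) (cE_m2 e)
        rw [if_pos rfl, h2 (cE1 e) (cE2 e), two_add] at h4
        exact one_ne_zero h4
      inc2 := by
        intro s s' hne
        obtain ⟨x, hx, hxs⟩ : ∃ x ∈ s'.1, x ∉ s.1 := by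
          by_contra hcon
          push Not at hcon
          exact hne (Subtype.ext (Finset.eq_of_subset_of_card_le hcon
            (by rw [s.2.1, s'.2.1])).symm)
        obtain ⟨y, hy, hyx⟩ := Finset.exists_mem_ne (by rw [s'.2.1]; norm_num : 1 < s'.1.card) x
        have hadj : Gc.Adj x y := s'.2.2 (Finset.mem_coe.2 hx) (Finset.mem_coe.2 hy) hyx.symm
        refine ⟨mkE hadj, ?_, fun h => hxs (h (Finset.mem_insert_self _ _))⟩
        intro z hz
        have hz' : z ∈ ({x, y} : Finset Vc) := hz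
        rw [Finset.mem_insert, Finset.mem_singleton] at hz'
        rcases hz' with rfl | rfl
        · exact hx
        · exact hy
      UC := p.Ud_c
      UCc := p.Ud_cc
      Ubb := p.Ud_bb
      Ud := p.Ud_dis
      UBs := fun s => (p.Ud_B s).1
      ULr := by
        intro s
        refine Set.disjoint_left.2 ?_
        rintro x hx (⟨t, h⟩ | ⟨s', hs', h⟩ | ⟨e, he, h⟩)
        · exact Set.disjoint_left.1 (p.Ud_Lt s t) hx h
        · exact Set.disjoint_left.1 (p.Ud_Ls s s' (Ne.symm hs')) hx h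
        · exact Set.disjoint_left.1 (p.Ud_Lbs s e he) hx h
      U4 := by
        intro s
        refine ⟨fun x => if b.tto hc x = cS1 hc s then 1 else 0, fun x y e => ?_⟩
        have hv : ∀ x ∈ p.Ud s ∪ b.Ls s, b.tto hc x = cS1 hc s ∨ b.tto hc x = cS2 hc s := by
          rintro x (hx | hx)
          · exact tUd s x hx
          · exact tLs s x hx
        exact wtt_pot_h10 (cS_ne hc s) (hv x e.2.1) (hv y e.2.2)
      Unb := fun s x hx y h => p.Ud_cr s x hx y h
      ZeZf := fun s x hx => ⟨s.q, hx, fun z hz => sub_nb hz⟩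
      rim := p.rim_s
      z0 := by
        rw [compl_compl]
        intro s e h q hq x hx y hy h1 h2
        exact (hz s).1 e h q hq x hx y hy h1 h2
      z1 := by
        rw [compl_compl]
        intro s e e' h h'
        exact (hz s).2 e e' h h' }

end MOT
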