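import Pool.Agent.MOT.Sdi

/-!
# MOT/Pr: the homeomorphism as a pair of simplicial approximations; transfer of cohomology (helper82)

`K` = tower of the domain, `K'` = tower of the range, `up m n u x` means `h (star u) ⊆ star x`
(`u` on level `m` of the domain, `x` on level `n` of the range), `dn n m x u` means
`h⁻¹ (star x) ⊆ star u`.
-/

open Classical

noncomputable section

namespace MOT

/-- equal or adjacent -/
def Nr {V : Type} (G : SimpleGraph V) (x y : V) : Prop := x = y ∨ G.Adj x y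

/-- closed neighbourhood of `D` -/
def nb {V : Type} (G : SimpleGraph V) (D : Set V) : Set V := {x | ∃ y ∈ D, Nr G x y}

/-- pull back of a cochain along a vertex map -/
def pbk {V W : Type} (p : W → V) (a : V → V → ZMod 2) : W → W → ZMod 2 := fun x y => a (p x) (p y)

/-- the pair of towers (see the head of the file) -/
structure Pair (K K' : Lv) where
  up : (m n : ℕ) → (tw K m).V → (tw K' n).V → Prop
  dn : (n m : ℕ) → (tw K' n).V → (tw K m).V → Prop
  up_ex : ∀ n, ∃ m0, ∀ m, m0 ≤ m → ∀ u : (tw K m).V, ∃ x, up m n u x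
  dn_ex : ∀ m, ∃ n0, ∀ n, n0 ≤ n → ∀ x : (tw K' n).V, ∃ u, dn n m x u
  up_nr : ∀ m n (u u' : (tw K m).V) (x x' : (tw K' n).V), up m n u x → up m n u' x' →
    Nr (tw K m).G u u' → Nr (tw K' n).G x x'
  dn_nr : ∀ n m (x x' : (tw K' n).V) (u u' : (tw K m).V), dn n m x u → dn n m x' u' →
    Nr (tw K' n).G x x' → Nr (tw K m).G u u'
  /-- `star x ⊆ h (star u) ⊆ star y` -/
  dn_up : ∀ n k m (x : (tw K' (n + k)).V) (u : (tw K m).V) (y : (tw K' n).V),
    dn (n + k) m x u → up m n u y → y ∈ car K' n k x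
  /-- `star u ⊆ h⁻¹ (star x) ⊆ star w` -/
  up_dn : ∀ m k n (u : (tw K (m + k)).V) (x : (tw K' n).V) (w : (tw K m).V),
    up (m + k) n u x → dn n m x w → w ∈ car K m k u
  /-- `star x ∩ star x' ≠ ∅` (same level), `star x ⊆ star y`, `h⁻¹ (star x') ⊆ star z`,
  `h⁻¹ (star y) ⊆ star u`: so `star z ∩ star u ≠ ∅` -/
  dn_dn : ∀ n k m j (x x' : (tw K' (n + k)).V) (y : (tw K' n).V) (z : (tw K (m + j)).V)
    (u : (tw K m).V), Nr (tw K' (n + k)).G x x' → y ∈ car K' n k x → dn (n + k) (m + j) x' z →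
    dn n m y u → ∀ w ∈ car K m j z, Nr (tw K m).G w u

/-- `p : W → V` (fine range level to domain level) is simplicial and is a homotopy equivalence up to
one layer over every full subcomplex -/
structure Tra {V W : Type} (G : SimpleGraph V) (G' : SimpleGraph W) (p : W → V) : Prop where
  nr : ∀ x y, Nr G' x y → Nr G (p x) (p y)
  surj : Function.Surjective p
  lift : ∀ D D' : Set V, nb G D' ⊆ D → ∀ a ∈ Z1 G' (p ⁻¹' D), ∃ w ∈ Z1 G D,
    Triv G' (p ⁻¹' D') (a + pbk p w)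
  inj : ∀ D : Set V, ∀ w ∈ Z1 G D, Triv G' (p ⁻¹' D) (pbk p w) → Triv G D w
  conn : ∀ D D' : Set V, nb G D' ⊆ D → Conn G D' → ∀ x y, p x ∈ D' → p y ∈ D' →
    Relation.ReflTransGen (EIn G' (p ⁻¹' D)) x y

section basic

variable {V W : Type} {G : SimpleGraph V} {G' : SimpleGraph W} {p q : W → V} {D D' : Set V}

theorem Nr.refl (x : V) : Nr G x x := Or.inl rfl

theorem Nr.symm {x y : V} (h : Nr G x y) : Nr G y x := by
  rcases h with h | h
  · exact Or.inl h.symm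
  · exact Or.inr h.symm

theorem sub_nb : D ⊆ nb G D := fun x hx => ⟨x, hx, Or.inl rfl⟩

theorem nb_mono (h : D ⊆ D') : nb G D ⊆ nb G D' := fun _ ⟨y, hy, hn⟩ => ⟨y, h hy, hn⟩

/-- cocycle identity for vertices which are pairwise equal or adjacent -/
theorem Z1_nr {a : V → V → ZMod 2} (ha : a ∈ Z1 G D) {x y z : V} (hx : x ∈ D) (hy : y ∈ D)
    (hz : z ∈ D) (h1 : Nr G x y) (h2 : Nr G y z) (h3 : Nr G x z) : a x y + a y z = a x z := by
  obtain ⟨h0, hs, hc⟩ := ha
  have d : ∀ u, a u u = 0 := fun u => h0 u u (fun h => h.1.ne rfl)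
  rcases h1 with h1 | h1
  · subst h1; rw [d, zero_add]
  rcases h2 with h2 | h2
  · subst h2; rw [d, add_zero]
  rcases h3 with h3 | h3
  · subst h3; rw [hs y x, d]; exact CharTwo.add_self_eq_zero _
  exact hc x y z ⟨h1, hx, hy⟩ ⟨h2, hy, hz⟩ ⟨h3, hx, hz⟩

/-- pull back of a cocycle along a simplicial map -/
theorem pbk_mem {a : V → V → ZMod 2} (ha : a ∈ Z1 G D) {E : Set W}
    (hp : ∀ x y, Nr G' x y → x ∈ E → y ∈ E → Nr G (p x) (p y)) (hE : ∀ x ∈ E, p x ∈ D) :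
    rs G' E (pbk p a) ∈ Z1 G' E := by
  refine ⟨fun x y h => if_neg h, fun x y => ?_, fun x y z h1 h2 h3 => ?_⟩
  · show (if EIn G' E x y then _ else _) = if EIn G' E y x then _ else _
    by_cases h : EIn G' E x y
    · rw [if_pos h, if_pos h.symm]; exact ha.2.1 _ _
    · rw [if_neg h, if_neg (fun h' => h h'.symm)]
  · rw [rs_apply h1, rs_apply h2, rs_apply h3]
    exact Z1_nr ha (hE x h1.2.1) (hE y h1.2.2) (hE z h2.2.2) (hp x y (Or.inr h1.1) h1.2.1 h1.2.2)
      (hp y z (Or.inr h2.1) h2.2.1 h2.2.2) (hp x z (Or.inr h3.1) h3.2.1 h3.2.2)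

/-- pull back of a trivial cocycle -/
theorem Triv_pbk {a : V → V → ZMod 2} (ha : ∀ x, a x x = 0) (h : Triv G D a) {E : Set W}
    (hp : ∀ x y, Nr G' x y → x ∈ E → y ∈ E → Nr G (p x) (p y)) (hE : ∀ x ∈ E, p x ∈ D) :
    Triv G' E (pbk p a) := by
  obtain ⟨f, hf⟩ := h
  refine ⟨fun x => f (p x), fun x y e => ?_⟩
  show a (p x) (p y) = f (p x) + f (p y)
  rcases hp x y (Or.inr e.1) e.2.1 e.2.2 with h | h
  · rw [h, ha, two_add]
  · exact hf _ _ ⟨h, hE x e.2.1, hE y e.2.2⟩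

/-- PRISM: contiguous simplicial maps have the same pull back up to coboundary -/
theorem pbk_contig {a : V → V → ZMod 2} (ha : a ∈ Z1 G D) {E : Set W}
    (hp : ∀ x y, Nr G' x y → x ∈ E → y ∈ E → Nr G (p x) (p y))
    (hq : ∀ x y, Nr G' x y → x ∈ E → y ∈ E → Nr G (q x) (q y))
    (hpq : ∀ x y, Nr G' x y → x ∈ E → y ∈ E → Nr G (p x) (q y))
    (hE : ∀ x ∈ E, p x ∈ D) (hE' : ∀ x ∈ E, q x ∈ D) :
    Triv G' E (pbk p a + pbk q a) := by
  refine ⟨fun x => a (p x) (q x), fun x y e => ?_⟩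
  have nx := Nr.refl (G := G') x
  have ny := Nr.refl (G := G') y
  have nxy : Nr G' x y := Or.inr e.1
  have e1 := Z1_nr ha (hE x e.2.1) (hE y e.2.2) (hE' y e.2.2) (hp x y nxy e.2.1 e.2.2)
    (hpq y y ny e.2.2 e.2.2) (hpq x y nxy e.2.1 e.2.2)
  have e2 := Z1_nr ha (hE x e.2.1) (hE' x e.2.1) (hE' y e.2.2) (hpq x x nx e.2.1 e.2.1)
    (hq x y nxy e.2.1 e.2.2) (hpq x y nxy e.2.1 e.2.2)
  show a (p x) (p y) + a (q x) (q y) = a (p x) (q x) + a (p y) (q y)
  have e3 : a (p x) (p y) + a (p y) (q y) = a (p x) (q x) + a (q x) (q y) := e1.trans e2.symm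
  have t : ∀ r s t u : ZMod 2, r + s = t + u → r + u = t + s := by decide
  exact t _ _ _ _ e3

end basic

end MOT
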