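import Pool.Agent.MOT.SaC
import Pool.Agent.MOT.SbDef
import Pool.Agent.MOT.Pr

/-!
# MOT/ScDef: stage 2 (the plates `U b` are moved, the wall `S` is fixed): definitions (helper73)

Everything is seen from ONE side of the wall `S` (own side `P`, other side `N`); stage 2 uses it twice
(plates of the edges: `P` = inside, plates of the triangles: `P` = outside).
-/

open Classical

noncomputable section

namespace MOT

variable {V : Type} {G : SimpleGraph V} {A Bc Cc : Type}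

/-- data of stage 2 on one level, from one side.  `S` wall, `P` own side, `N` other side; `U b` plates, `b` an
edge (ends `e1 b`, `e2 b`) of the own coarse graph; `Lv a`, `Le b` connected pieces of the own core,
`Lr b` own core without the middle of `b`; `Bs` other core; `w c` crossing cochains of the other coarse graph
(cocycles off `Bd c`); `Ze b` zone of `b` for the curves, `Zf b` for the whole frontier of `U b`; `Fo b` set of
simplices which contains the curves of `U b` on `S`; `top` position in the own coarse graph. -/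
structure Sc (V A Bc Cc : Type) where
  S : Set V
  P : Set V
  N : Set V
  Bs : Set V
  U : Bc → Set V
  Lv : A → Set V
  Le : Bc → Set V
  Lr : Bc → Set V
  Ze : Bc → Set V
  Zf : Bc → Set V
  Fo : Bc → Set (Finset V)
  Bd : Cc → Set V
  top : V → A
  w : Cc → V → V → ZMod 2

/-- the own closed side -/
def Sc.X (X : Sc V A Bc Cc) : Set V := X.S ∪ X.P

/-- the other closed side -/
def Sc.Y (X : Sc V A Bc Cc) : Set V := X.S ∪ X.N

/-- union of the plates -/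
def Sc.W (X : Sc V A Bc Cc) : Set V := ⋃ b, X.U b

/-- crossing cochain of the own edge `b` -/
def Sc.wb (X : Sc V A Bc Cc) (e1 e2 : Bc → A) (b : Bc) : V → V → ZMod 2 :=
  wtt X.top (e1 b) (e2 b)

/-- the same objects one level later -/
def Sc.sd (G : SimpleGraph V) (X : Sc V A Bc Cc) : Sc (Cq G) A Bc Cc where
  S := mi G X.S
  P := sdp G X.S X.P
  N := sdp G X.S X.N
  Bs := mi G X.Bs
  U b := mi G (X.U b)
  Lv a := mi G (X.Lv a)
  Le b := mi G (X.Le b)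
  Lr b := mi G (X.Lr b)
  Ze b := {s | pk s ∈ X.Ze b}
  Zf b := {s | pk s ∈ X.Zf b}
  Fo b := {c | ∃ m ∈ c, (∀ s ∈ c, s ≤ m) ∧ m.1 ∈ X.Fo b}
  Bd c := mi G (X.Bd c)
  top s := X.top (pk s)
  w c := pw G (X.w c)

/-- new plates -/
def Sc.upd (X : Sc V A Bc Cc) (U' : Bc → Set V) : Sc V A Bc Cc := { X with U := U' }

/-- the same objects `k` levels later -/
def scN (K : Lv) (n : ℕ) (X : Sc (tw K n).V A Bc Cc) : (k : ℕ) → Sc (tw K (n + k)).V A Bc Cc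
  | 0 => X
  | k + 1 => (scN K n X k).sd (tw K (n + k)).G

/-- static hypotheses (nothing about the plates) -/
structure ScS (G : SimpleGraph V) [Fintype Bc] [Fintype Cc] (e1 e2 : Bc → A)
    (inc : Bc → Cc → Prop) (X : Sc V A Bc Cc) : Prop where
  neB : Nonempty Bc
  sph : IsSph3 G
  wall : Wall G X.S X.P X.N
  cS : Conn G X.S
  cP : Conn G X.P
  cN : Conn G X.N
  /-- `H^1(S) = H^1(X) + H^1(Y)` -/
  split : ∀ c ∈ Z1 G X.S, ∃ a ∈ Z1 G X.X, ∃ b ∈ Z1 G X.Y, Triv G X.S (a + b + c)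
  ne : ∀ b, e1 b ≠ e2 b
  simple : ∀ b b', ({e1 b, e2 b} : Set A) = {e1 b', e2 b'} → b = b'
  graph : ∀ b, ∀ f : A → ZMod 2, (∀ b', b' ≠ b → f (e1 b') = f (e2 b')) → ∀ a a', f a = f a'
  /-- off `Bs` a clique has at most two tops, equal or adjacent -/
  top2 : ∀ q : Cq G, q ∉ mi G X.Bs → ∃ u v, (u = v ∨ ∃ b, ({u, v} : Set A) = {e1 b, e2 b}) ∧
    ∀ x ∈ q.1, X.top x = u ∨ X.top x = v
  span : ∀ a ∈ Z1 G X.X, ∃ c : Bc → ZMod 2, Triv G X.X (a + lc c (X.wb e1 e2))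
  spanY : ∀ a ∈ Z1 G X.Y, ∃ c : Cc → ZMod 2, Triv G X.Y (a + lc c X.w)
  injY : ∀ a ∈ Z1 G X.Y, Triv G X.Bs a → Triv G X.Y a
  cBs : Conn G X.Bs
  BsN : X.Bs ⊆ X.N
  LvC : ∀ a, Conn G (X.Lv a)
  LvL : ∀ a b, X.Lv a ⊆ X.Lr b
  Lvt : ∀ a, ∀ x ∈ X.Lv a, X.top x = a
  LeC : ∀ b, Conn G (X.Le b)
  LeP : ∀ b, X.Le b ⊆ X.P
  Let : ∀ b, ∀ x ∈ X.Le b, X.top x = e1 b ∨ X.top x = e2 b
  Le1 : ∀ b, X.Lv (e1 b) ⊆ X.Le b
  Le2 : ∀ b, X.Lv (e2 b) ⊆ X.Le b
  LeL : ∀ b b', b ≠ b' → X.Le b ⊆ X.Lr b'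
  LrC : ∀ b, Conn G (X.Lr b)
  LrP : ∀ b, X.Lr b ⊆ X.P
  wco : ∀ c, CocO G (X.Bd c) (X.w c)
  BdP : ∀ c, X.Bd c ⊆ X.P
  BdL : ∀ b c, ¬ inc b c → X.Bd c ⊆ X.Lr b
  inc1 : ∀ b, ∃ c, inc b c
  /-- some other edge `c` not incident with `b` is detected on the other core -/
  inc0 : ∀ b, ∃ c, ¬ inc b c ∧ ¬ Triv G X.Bs (X.w c)
  inc2 : ∀ b b', b ≠ b' → ∃ c, inc b' c ∧ ¬ inc b c

/-- the cochains `w c` in the zone of `b` -/
structure ScPar (G : SimpleGraph V) (inc : Bc → Cc → Prop) (X : Sc V A Bc Cc) : Prop where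
  par0 : ∀ b c, ¬ inc b c → ∀ x y, EIn G (X.Y ∩ X.Ze b) x y → X.w c x y = 0
  par1 : ∀ b c c', inc b c → inc b c' → Triv G (X.Y ∩ X.Ze b) (X.w c + X.w c')

/-- hypotheses on the plates -/
structure ScU (G : SimpleGraph V) (e1 e2 : Bc → A) (inc : Bc → Cc → Prop)
    (X : Sc V A Bc Cc) : Prop where
  UC : ∀ b, Conn G (X.U b)
  UCc : ∀ b, Conn G (X.U b)ᶜ
  Ubb : ∀ b, bb G (X.U b) = 0
  Ud : ∀ b b', b ≠ b' → Disjoint (X.U b) (X.U b') ∧ NAdj G (X.U b) (X.U b')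
  UBs : ∀ b, Disjoint (X.U b) X.Bs
  ULr : ∀ b, Disjoint (X.U b) (X.Lr b)
  /-- a connected piece of the plate on the wall which goes around `b` -/
  U3 : ∀ b, ∃ Z, Conn G Z ∧ Z ⊆ X.U b ∩ X.S ∧ ∀ c, inc b c → ¬ Triv G Z (X.w c)
  U4 : ∀ b, Triv G (X.U b ∪ X.Le b) (X.wb e1 e2 b)
  /-- the curves of the plate on the wall are in the zone of `b` -/
  loc : ∀ b, ∀ q : Cq G, (∃ x ∈ q.1, x ∈ X.S ∧ x ∈ X.U b) → (∃ y ∈ q.1, y ∈ X.S ∧ y ∉ X.U b) →
    ∀ z ∈ q.1, z ∈ X.Ze b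
  /-- they are old curves -/
  old : ∀ b, ∀ q ∈ FrIn G X.S (X.U b), q.1 ∈ X.Fo b
  /-- the whole frontier of the plate is near `b` -/
  fro : ∀ b, ∀ q ∈ Fr G (X.U b), ∀ z ∈ q.1, z ∈ X.Zf b

/-- location of the discs of the wall with curve near `b` (delivered by stage 1 on all levels) -/
def DscZ (G : SimpleGraph V) (X : Sc V A Bc Cc) : Prop :=
  ∀ b, ∀ F ⊆ X.S, Conn G F → HZ G F → F ≠ X.S →
    (∀ y ∈ F, ∀ z ∈ X.S \ F, G.Adj y z → y ∈ X.Ze b) → ∀ x ∈ F, ∀ y, Nr G x y → y ∈ X.Zf b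

/-- no disc of the wall on or off the plates -/
structure NoD (G : SimpleGraph V) (X : Sc V A Bc Cc) : Prop where
  inn : ∀ b D, IsComp G (X.U b ∩ X.S) D → ¬ HZ G D
  out : ∀ D, IsComp G (X.S \ X.W) D → ¬ HZ G D

/-- number of curves of the plates on the wall -/
def kc (G : SimpleGraph V) [Fintype Bc] (X : Sc V A Bc Cc) : ℕ :=
  ∑ b, b0 (sd G) (FrIn G X.S (X.U b))

end MOT
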