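import Pool.Agent.MOT.SvA
import Pool.Agent.MOT.ScDef

/-!
# MOT/SvF: location of discs for stage 2 (`DscZ`) on all levels
-/

open Classical

noncomputable section

namespace MOT

variable {Vc A Bc Cc J : Type} {Gc : SimpleGraph Vc} {K : Lv} {n : ℕ}

/-- surface and zones of `scN` -/
theorem scN_zones [Finite Vc] {b : BaseU Gc (tw K n).G} {S : Set (tw K n).V}
    {X : Sc (tw K n).V A Bc Cc} {σ : Bc → Cq Gc} (hS : X.S = S)
    (hZe : ∀ c, X.Ze c = {x | σ c ∈ b.cr x})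
    (hZf : ∀ c, X.Zf c = b.Ns (nb Gc ((σ c).1 : Set Vc))) (k : ℕ) :
    (scN K n X k).S = miN K n S k ∧
    (∀ c, (scN K n X k).Ze c = {x | σ c ∈ (upN K n b k).cr x}) ∧
    ∀ c, (scN K n X k).Zf c = (upN K n b k).Ns (nb Gc ((σ c).1 : Set Vc)) := by
  induction k with
  | zero => exact ⟨hS, hZe, hZf⟩
  | succ k ih =>
    obtain ⟨h1, h2, h3⟩ := ih
    refine ⟨?_, fun c => ?_, fun c => ?_⟩
    · change mi _ (scN K n X k).S = mi _ (miN K n S k)
      rw [h1]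
    · change {s | pk s ∈ (scN K n X k).Ze c} = _
      rw [h2 c]
      rfl
    · change {s | pk s ∈ (scN K n X k).Zf c} = _
      rw [h3 c]
      rfl

/-- LOCATION OF DISCS for stage 2, on all levels; `σ c` is the edge or the triangle of the plate `c` -/
theorem dscZ_all [Finite Vc] {b : BaseU Gc (tw K n).G} {S : Set (tw K n).V} (P : PcsU b S J)
    {X : Sc (tw K n).V A Bc Cc} {σ : Bc → Cq Gc} (h2 : ∀ c, 2 ≤ (σ c).1.card) (hS : X.S = S)
    (hZe : ∀ c, X.Ze c = {x | σ c ∈ b.cr x})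
    (hZf : ∀ c, X.Zf c = b.Ns (nb Gc ((σ c).1 : Set Vc))) (k : ℕ) :
    DscZ (tw K (n + k)).G (scN K n X k) := by
  obtain ⟨e1, e2, e3⟩ := scN_zones hS hZe hZf k
  intro c F hF _ hz hne h x hx y hy
  rw [e1] at hF hne h
  rw [e3 c]
  refine (P.upK k).disc hF hz hne (h2 c) ?_ hx hy
  intro y hy z hz hzF hyz
  have h4 := h y hy z ⟨hz, hzF⟩ hyz
  rw [e2 c] at h4
  exact h4

/-- (I3) on all levels -/
theorem scN_Fo [Finite Vc] {b : BaseU Gc (tw K n).G} {S : Set (tw K n).V} (P : PcsU b S J)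
    {X : Sc (tw K n).V A Bc Cc}
    (hFo : ∀ c, ∀ q ∈ X.Fo c, ∀ j, ¬ (q : Set (tw K n).V) ⊆ P.Cv j) (k : ℕ) :
    ∀ c, ∀ q ∈ (scN K n X k).Fo c, ∀ j, ¬ (q : Set (tw K (n + k)).V) ⊆ (P.upK k).Cv j := by
  induction k with
  | zero => exact hFo
  | succ k ih =>
    rintro c q ⟨m, hm, -, hF⟩ j hq
    exact ih c m.1 hF j fun x hx => hq (Finset.mem_coe.2 hm) x hx

/-- (I3) at the start: a simplex which is mixed for the plate is not inside a curve -/
theorem old_start {V : Type} {G : SimpleGraph V} {b : BaseU Gc G} {S U : Set V} (P : PcsU b S J)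
    (h : ∀ j, P.Cv j ⊆ U ∨ Disjoint (P.Cv j) U) :
    ∀ q ∈ FrIn G S U, ∀ j, ¬ (q.1 : Set V) ⊆ P.Cv j := by
  rintro q ⟨⟨-, x, hx, hxU⟩, y, hy, hyU⟩ j hq
  rcases h j with h | h
  · exact hyU (h (hq (Finset.mem_coe.2 hy)))
  · exact Set.disjoint_left.1 h (hq (Finset.mem_coe.2 hx)) hxU

end MOT
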