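import Pool.Agent.MOT.ScEndD
import Pool.Agent.MOT.SvF
import Pool.Agent.MOT.ScG
import Pool.Agent.MOT.ScN
import Pool.Agent.MOT.ScRs

/-!
# MOT/ScEnd: END THEOREM of stage 2 (helper73)
-/

open Classical

noncomputable section

namespace MOT

variable {Vc V : Type} {Gc : SimpleGraph Vc} {G : SimpleGraph V} {K : Lv} {n : ℕ}

/-- the output of stage 2 from the data of the two sides on one level -/
theorem S2out_mk [Finite Vc] [Fintype (Ec Gc)] [Fintype (Fc Gc)] [Finite V] (hc : IsSph3 Gc)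
    {b : BaseU Gc G} {S : Set V} {J : Type} {Cv : J → Set V}
    {X : Sc V Vc (Ec Gc) (Fc Gc)} {X' : Sc V (Te Gc) (Fc Gc) (Ec Gc)}
    (h : ScS G cE1 cE2 (fun e s => e.1 ⊆ s.1) X)
    (hp : ScPar G (fun (e : Ec Gc) (s : Fc Gc) => e.1 ⊆ s.1) X)
    (hu : ScU G cE1 cE2 (fun e s => e.1 ⊆ s.1) X) (hn : NoD G X)
    (h' : ScS G (cS1 hc) (cS2 hc) (fun s e => e.1 ⊆ s.1) X')
    (hu' : ScU G (cS1 hc) (cS2 hc) (fun s e => e.1 ⊆ s.1) X') (hn' : NoD G X')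
    (eS : X.S = S) (eS' : X'.S = S) (eP : X'.P = X.N)
    (eLv : X.Lv = b.Lv) (eLe : X.Le = b.Le) (eT : X.top = b.top) (ew : X.w = b.ws)
    (eLv' : X'.Lv = b.Lt) (eLe' : X'.Le = b.Ls) (eT' : X'.top = b.tto hc)
    (hBL : b.BL ⊆ X.P) (hBsL : b.BsL ⊆ X.N)
    (hLb : ∀ (e : Ec Gc) (s : Fc Gc), ¬ e.1 ⊆ s.1 → b.Lb s ⊆ X.Lr e)
    (hZe : ∀ e, X.Ze e = {x | e.q ∈ b.cr x})
    (hZf : ∀ e, X.Zf e = b.Ns (nb Gc (e.1 : Set Vc)))
    (hZe' : ∀ s, X'.Ze s = {x | s.q ∈ b.cr x})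
    (hZf' : ∀ s, X'.Zf s = b.Ns (nb Gc (s.1 : Set Vc)))
    (hFo : ∀ e, ∀ q ∈ X.Fo e, ∀ j, ¬ (q : Set V) ⊆ Cv j) :
    Nonempty (S2Out hc b S Cv) := by
  obtain ⟨D, strE⟩ := sc_str h hu hn
  obtain ⟨F, strF⟩ := sc_str h' hu' hn'
  have hmix : ∀ e, ∀ q ∈ D e, (∃ x ∈ q.1, x ∈ X.U e) ∧ ∃ y ∈ q.1, y ∉ X.U e := by
    intro e q hq
    exact ((strE.Dc e).sub hq).2
  have hmixF : ∀ s, ∀ q ∈ F s, (∃ x ∈ q.1, x ∈ X'.U s) ∧ ∃ y ∈ q.1, y ∉ X'.U s := by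
    intro s q hq
    exact ((strF.Dc s).sub hq).2
  have hSB : Disjoint S b.B := by
    rw [← eS]
    exact h.wall.dqp.mono_right (b.B_BL.trans hBL)
  have e1 : S ∪ X.P = X.X := by rw [← eS]; rfl
  have e2 : S ∪ X.N = X'.X := by rw [← eS', ← eP]; rfl
  refine ⟨{
    P := X.P
    N := X.N
    Ue := X.U
    Ud := X'.U
    D := D
    F := F
    wall := by rw [← eS]; exact h.wall
    cS := by rw [← eS]; exact h.cS
    cP := h.cP
    cN := h.cN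
    BP := hBL
    BsN := hBsL
    strE := by rw [e1, ← eLv, ← eLe, ← eT]; exact strE
    strF := by rw [e2, ← eLv', ← eLe', ← eT']; exact strF
    par := ?_
    cne := ?_
    i1 := ?_
    i2 := ?_
    i3 := ?_
    i4 := ?_
    cneF := ?_
    i1F := ?_
    i2F := ?_ }⟩
  · intro e s hes ht
    refine sc_par h hp hu (strE.Dc e) (strE.Dz e) (strE.cls e) (c := s) hes ?_
    rw [eS]
    refine ht.congr ?_
    intro s1 t1 hst
    have key : ∀ q : Cq G, q ∈ mi G S → q ∉ mi G b.B := by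
      intro q hq hqB
      obtain ⟨x, hx⟩ := q.2.1
      exact Set.disjoint_left.1 hSB (hq x hx) (hqB x hx)
    show wtt (b.tto hc) (cS1 hc s) (cS2 hc s) (pk s1) (pk t1) = X.w s (pk s1) (pk t1)
    rw [ew]
    symm
    rcases sd_adj.1 hst.1 with hlt | hlt
    · exact ws_wtt hc b s (key t1 hst.2.2.2) ((Cq.lt_iff.1 hlt).1 (pk_mem s1)) (pk_mem t1)
    · exact ws_wtt hc b s (key s1 hst.2.1.2) (pk_mem s1) ((Cq.lt_iff.1 hlt).1 (pk_mem t1))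
  · intro e
    rw [← eS]
    exact touch h.wall (ScU.sphere h hu e).2.1 (strE.Dc e) (ScU.fr_ne h hu e).2.2
  · intro e q hq hqS x hx
    obtain ⟨⟨y, hy, hyU⟩, z, hz, hzU⟩ := hmix e q hq
    have hmS : ∀ x ∈ q.1, x ∈ X.S := by rw [eS]; exact hqS
    have := hu.loc e q ⟨y, hy, hmS y hy, hyU⟩ ⟨z, hz, hmS z hz, hzU⟩ x hx
    rw [hZe] at this
    exact this
  · intro e q hq x hx
    have := hu.fro e q ((strE.Dc e).sub hq).2 x hx
    rw [hZf] at this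
    exact this
  · intro e q hq hqS j
    obtain ⟨⟨y, hy, hyU⟩, z, hz, hzU⟩ := hmix e q hq
    exact hFo e q.1 (hu.old e q ⟨⟨by rw [eS]; exact hqS, y, hy, hyU⟩, z, hz, hzU⟩) j
  · intro s e hes q hq hqL
    obtain ⟨⟨y, hy, hyU⟩, -⟩ := hmix e q hq
    exact Set.disjoint_left.1 (hu.ULr e) hyU (hLb e s hes (hqL (Finset.mem_coe.2 hy)))
  · intro s
    rw [← eS']
    exact touch h'.wall (ScU.sphere h' hu' s).2.1 (strF.Dc s) (ScU.fr_ne h' hu' s).2.2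
  · intro s q hq hqS x hx
    obtain ⟨⟨y, hy, hyU⟩, z, hz, hzU⟩ := hmixF s q hq
    have hmS : ∀ x ∈ q.1, x ∈ X'.S := by rw [eS']; exact hqS
    have := hu'.loc s q ⟨y, hy, hmS y hy, hyU⟩ ⟨z, hz, hmS z hz, hzU⟩ x hx
    rw [hZe'] at this
    exact this
  · intro s q hq x hx
    have := hu'.fro s q ((strF.Dc s).sub hq).2 x hx
    rw [hZf'] at this
    exact this

/-- the fields of the edge side on all levels -/
private theorem fldE [Finite Vc] [Fintype (Ec Gc)] [Fintype (Fc Gc)] {b : BaseU Gc (tw K n).G}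
    {X : Sc (tw K n).V Vc (Ec Gc) (Fc Gc)}
    (h : ScS (tw K n).G cE1 cE2 (fun (e : Ec Gc) (s : Fc Gc) => e.1 ⊆ s.1) X)
    (eLv : X.Lv = b.Lv) (eLe : X.Le = b.Le) (eT : X.top = b.top) (ew : X.w = b.ws)
    (hBL : b.BL ⊆ X.P) (hBsL : b.BsL ⊆ X.N)
    (hLb : ∀ (e : Ec Gc) (s : Fc Gc), ¬ e.1 ⊆ s.1 → b.Lb s ⊆ X.Lr e) (k : ℕ) :
    (scN K n X k).Lv = (upN K n b k).Lv ∧ (scN K n X k).Le = (upN K n b k).Le ∧
    (scN K n X k).top = (upN K n b k).top ∧ (scN K n X k).w = (upN K n b k).ws ∧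
    (upN K n b k).BL ⊆ (scN K n X k).P ∧ (upN K n b k).BsL ⊆ (scN K n X k).N ∧
    ∀ (e : Ec Gc) (s : Fc Gc), ¬ e.1 ⊆ s.1 → (upN K n b k).Lb s ⊆ (scN K n X k).Lr e := by
  induction k with
  | zero => exact ⟨eLv, eLe, eT, ew, hBL, hBsL, hLb⟩
  | succ k ih =>
    obtain ⟨i1, i2, i3, i4, i5, i6, i7⟩ := ih
    have hw : Wall _ (scN K n X k).S (scN K n X k).P (scN K n X k).N := (h.scN k).wall
    refine ⟨?_, ?_, ?_, ?_, ?_, ?_, ?_⟩
    · show (fun a => mi _ ((scN K n X k).Lv a)) = fun a => mi _ ((upN K n b k).Lv a)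
      rw [i1]
    · show (fun a => mi _ ((scN K n X k).Le a)) = fun a => mi _ ((upN K n b k).Le a)
      rw [i2]
    · show (fun s => (scN K n X k).top (pk s)) = fun s => (upN K n b k).top (pk s)
      rw [i3]
    · show (fun c => pw _ ((scN K n X k).w c)) = fun c => pw _ ((upN K n b k).ws c)
      rw [i4]
    · exact (mi_mono i5).trans (sdp_bt hw).1
    · exact (mi_mono i6).trans (sdp_bt hw.swap).1
    · exact fun e s hes => mi_mono (i7 e s hes)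

/-- the fields of the triangle side on all levels -/
private theorem fldF [Finite Vc] (hc : IsSph3 Gc) {b : BaseU Gc (tw K n).G}
    {X : Sc (tw K n).V Vc (Ec Gc) (Fc Gc)}
    {X' : Sc (tw K n).V (Te Gc) (Fc Gc) (Ec Gc)}
    (eS : X'.S = X.S) (eP : X'.P = X.N) (eLv : X'.Lv = b.Lt) (eLe : X'.Le = b.Ls)
    (eT : X'.top = b.tto hc) (k : ℕ) :
    (scN K n X' k).S = (scN K n X k).S ∧ (scN K n X' k).P = (scN K n X k).N ∧
    (scN K n X' k).Lv = (upN K n b k).Lt ∧ (scN K n X' k).Le = (upN K n b k).Ls ∧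
    (scN K n X' k).top = (upN K n b k).tto hc := by
  induction k with
  | zero => exact ⟨eS, eP, eLv, eLe, eT⟩
  | succ k ih =>
    obtain ⟨i0, i1, i2, i3, i4⟩ := ih
    refine ⟨?_, ?_, ?_, ?_, ?_⟩
    · show mi _ (scN K n X' k).S = mi _ (scN K n X k).S
      rw [i0]
    · show sdp _ (scN K n X' k).S (scN K n X' k).P = sdp _ (scN K n X k).S (scN K n X k).N
      rw [i0, i1]
    · show (fun a => mi _ ((scN K n X' k).Lv a)) = fun a => mi _ ((upN K n b k).Lt a)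
      rw [i2]
    · show (fun a => mi _ ((scN K n X' k).Le a)) = fun a => mi _ ((upN K n b k).Ls a)
      rw [i3]
    · show (fun s => (scN K n X' k).top (pk s)) = fun s => (upN K n b k).tto hc (pk s)
      rw [i4]

/-- the two sides from stage 1 on, on level `m`, to the output on level `m + k` -/
private theorem S2end_aux [Finite Vc] [Fintype (Ec Gc)] [Fintype (Fc Gc)] (hc : IsSph3 Gc)
    {m : ℕ} {b : BaseU Gc (tw K m).G} {S : Set (tw K m).V} {J : Type} (P : PcsU b S J)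
    {X : Sc (tw K m).V Vc (Ec Gc) (Fc Gc)} {X' : Sc (tw K m).V (Te Gc) (Fc Gc) (Ec Gc)}
    (h : ScS (tw K m).G cE1 cE2 (fun (e : Ec Gc) (s : Fc Gc) => e.1 ⊆ s.1) X)
    (hp : ScPar (tw K m).G (fun (e : Ec Gc) (s : Fc Gc) => e.1 ⊆ s.1) X)
    (hu : ScU (tw K m).G cE1 cE2 (fun (e : Ec Gc) (s : Fc Gc) => e.1 ⊆ s.1) X)
    (h' : ScS (tw K m).G (cS1 hc) (cS2 hc) (fun (s : Fc Gc) (e : Ec Gc) => e.1 ⊆ s.1) X')
    (hu' : ScU (tw K m).G (cS1 hc) (cS2 hc) (fun (s : Fc Gc) (e : Ec Gc) => e.1 ⊆ s.1) X')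
    (eS : X.S = S) (eS' : X'.S = S) (eP : X'.P = X.N)
    (eLv : X.Lv = b.Lv) (eLe : X.Le = b.Le) (eT : X.top = b.top) (ew : X.w = b.ws)
    (eLv' : X'.Lv = b.Lt) (eLe' : X'.Le = b.Ls) (eT' : X'.top = b.tto hc)
    (hBL : b.BL ⊆ X.P) (hBsL : b.BsL ⊆ X.N)
    (hLb : ∀ (e : Ec Gc) (s : Fc Gc), ¬ e.1 ⊆ s.1 → b.Lb s ⊆ X.Lr e)
    (hZe : ∀ e, X.Ze e = {x | e.q ∈ b.cr x})
    (hZf : ∀ e, X.Zf e = b.Ns (nb Gc (e.1 : Set Vc)))
    (hZe' : ∀ s, X'.Ze s = {x | s.q ∈ b.cr x})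
    (hZf' : ∀ s, X'.Zf s = b.Ns (nb Gc (s.1 : Set Vc)))
    (hFo : ∀ e, ∀ q ∈ X.Fo e, ∀ j, ¬ (q : Set (tw K m).V) ⊆ P.Cv j) :
    ∃ k : ℕ, Nonempty (S2Out hc (G := (tw K (m + k)).G) (upN K m b k)
      (miN K m S k) (fun j => (P.upK (K := K) (n := m) k).Cv j)) := by
  have c2 : ∀ e : Ec Gc, 2 ≤ (e.q).1.card := fun e => le_of_eq e.2.1.symm
  have c3 : ∀ s : Fc Gc, 2 ≤ (s.q).1.card := fun s => by
    rw [show (s.q).1.card = 3 from s.2.1]; norm_num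
  obtain ⟨k, U, U', u1, n1, u2, n2⟩ := sc_loop h hu h' hu'
    (dscZ_all P c2 eS hZe hZf) (dscZ_all P c3 eS' hZe' hZf')
  refine ⟨k, ?_⟩
  obtain ⟨z1, z2, z3⟩ := scN_zones (σ := fun e : Ec Gc => e.q) eS hZe hZf k
  obtain ⟨y1, y2, y3⟩ := scN_zones (σ := fun s : Fc Gc => s.q) eS' hZe' hZf' k
  obtain ⟨i1, i2, i3, i4, i5, i6, i7⟩ := fldE h eLv eLe eT ew hBL hBsL hLb k
  obtain ⟨-, j1, j2, j3, j4⟩ := fldF hc (X := X) (eS'.trans eS.symm) eP eLv' eLe' eT' k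
  exact S2out_mk hc (X := (scN K m X k).upd U) (X' := (scN K m X' k).upd U')
    ((h.scN k).upd U) ((ScPar.scN h hp k).upd U) u1 n1 ((h'.scN k).upd U') u2 n2
    z1 y1 j1 i1 i2 i3 i4 j2 j3 j4 i5 i6 i7 z2 z3 y2 y3 (scN_Fo P hFo k)

/-- END OF STAGE 2.  Input on level `n`: the records `b`, `p`, the region `M` of stage 1; on level `n + 1` the
wall `Fr M` with the pieces of stage 1.  Output on level `n + 1 + k`. -/
theorem S2end [Finite Vc] [Fintype (Ec Gc)] [Fintype (Fc Gc)] (hc : IsSph3 Gc)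
    (hG : IsSph3 (tw K n).G) (b : BaseU Gc (tw K n).G) (p : PltU b) (M : Set (tw K n).V)
    (hM : Adm (tw K n).G b.BL b.BsL M (fq (cutE Gc) + fq (cutF Gc))) {J : Type}
    (P : PcsU b.up (Fr (tw K n).G M) J)
    (hcv : ∀ j e, P.Cv j ⊆ p.up.Ue e ∨ Disjoint (P.Cv j) (p.up.Ue e)) :
    ∃ k : ℕ, Nonempty (S2Out hc (G := (tw K (n + 1 + k)).G) (upN K (n + 1) b.up k)
      (miN K (n + 1) (Fr (tw K n).G M) k) (fun j => (P.upK (K := K) (n := n + 1) k).Cv j)) := by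
  have hE := spE_ok hc hG b p b.NTs_nb hM
  have hF := spF_ok hc hG b p b.NT_nb hM
  refine S2end_aux (K := K) (m := n + 1) hc (b := b.up) P
    (X := (spE b p).toSc (tw K n).G M) (X' := (spF hc b p).toSc (tw K n).G Mᶜ)
    hE.scS hE.scPar hE.scU hF.scS hF.scU rfl ?_ rfl rfl rfl rfl rfl rfl rfl rfl
    (mi_mono hM.hB) (mi_mono hM.hBs) ?_ (fun _ => rfl) (fun _ => rfl) (fun _ => rfl) (fun _ => rfl) ?_
  · exact Fr_compl
  · intro e s hes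
    exact mi_mono fun x hx => Or.inr (Or.inr ⟨s, hes, hx⟩)
  · rintro e q ⟨r, hr, rfl⟩ j
    exact old_start P (fun j => hcv j e) r hr j

end MOT
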