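import Pool.Agent.MOT.SfD

/-!
# MOT/SfE: one circle bounds; planar pieces
-/

open Classical

noncomputable section

namespace MOT

variable {V : Type} {G : SimpleGraph V} {A B M S P : Set V}

/-- the complement of a disc in a sphere is a disc -/
theorem sphere_compl [Finite V] (hS : Surf G S) (hcS : Conn G S) (hzS : HZ G S) (hP : P ⊆ S)
    (hne : P ≠ S) (hc : Conn G P) (hz : HZ G P) : Conn G (S \ P) ∧ HZ G (S \ P) := by
  obtain ⟨h1, h2⟩ := disc_compl hS hcS hP hne hc hz
  refine ⟨h1, b1_eq_zero.1 ?_⟩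
  rw [h2, b1_eq_zero.2 hzS]

/-! ## triangles at an edge of the part over `P` -/

theorem lkf_off [Finite V] (hS : Surf G S) (hP : P ⊆ S) {s t : Cq G}
    (e : EIn (sd G) (prt G S P) s t) (hn : ¬ EIn (sd G) (FrIn G S P) s t) :
    (lkf (sd G) (prt G S P) {s, t}).card = 2 := by
  have hS' := surf_sd hS
  have hn' : ¬ (s ∈ FrIn G S P ∧ t ∈ FrIn G S P) := fun h => hn ⟨e.1, h.1, h.2⟩
  have e' : EIn (sd G) (mi G S) s t := ⟨e.1, e.2.1.1, e.2.2.1⟩
  have h2 := (hS'.edge e').1
  rw [← h2, ← Set.ncard_coe_finset]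
  congr 1
  have hcoe : (({s, t} : Finset (Cq G)) : Set (Cq G)) = {s, t} := by simp
  ext v
  constructor
  · intro hv
    have hv' := mem_lkf.1 (Finset.mem_coe.1 hv)
    exact ⟨fun r hr => hv'.1 r (by rw [← Finset.mem_coe, hcoe]; exact hr), hv'.2.1⟩
  · intro hv
    exact Finset.mem_coe.2 (mem_lkf.2 ⟨fun r hr => hv.1 r (by rw [← hcoe]; exact hr),
      third_in hP e.1 e.2.1 e.2.2 hn' hv⟩)

theorem lkf_on [Finite V] (hS : Surf G S) (hP : P ⊆ S) {s t : Cq G}
    (e : EIn (sd G) (FrIn G S P) s t) : (lkf (sd G) (prt G S P) {s, t}).card = 1 := by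
  have key : ∀ s t, EIn (sd G) (FrIn G S P) s t → s < t →
      (lkf (sd G) (prt G S P) {s, t}).card = 1 := by
    intro s t e hst
    have ep : EIn (sd G) (prt G S P) s t := e.mono FrIn_sub_prt
    have cs := FrIn_card hS e.2.1
    have ct := FrIn_card hS e.2.2
    have clt := Finset.card_lt_card (Cq.lt_iff.1 hst)
    have cs2 : s.1.card = 2 := by omega
    have ct3 : t.1.card = 3 := by omega
    obtain ⟨⟨⟨hsS, x, hx, hxP⟩, y, hy, hyP⟩, -⟩ := And.intro e.2.1 trivial
    have hxy : x ≠ y := fun h => hyP (h ▸ hxP)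
    have hs2 : s.1 = {x, y} := by
      symm
      refine Finset.eq_of_subset_of_card_le ?_ ?_
      · intro v hv
        simp only [Finset.mem_insert, Finset.mem_singleton] at hv
        rcases hv with rfl | rfl <;> assumption
      · rw [Finset.card_pair hxy, cs2]
    have hvs : vx G x < s := by
      rw [Cq.lt_iff, Finset.ssubset_iff_subset_ne]
      refine ⟨fun v hv => ?_, fun h => ?_⟩
      · have : v ∈ ({x} : Finset V) := hv
        rw [Finset.mem_singleton] at this; subst this; exact hx
      · have : y ∈ (vx G x).1 := by rw [h]; exact hy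
        have : y ∈ ({x} : Finset V) := this
        rw [Finset.mem_singleton] at this
        exact hxy this.symm
    have hvp : vx G x ∈ prt G S P := by
      refine ⟨fun v hv => ?_, x, by simp [vx], hxP⟩
      have : v ∈ ({x} : Finset V) := hv
      rw [Finset.mem_singleton] at this; subst this; exact hP hxP
    have hl : lkf (sd G) (prt G S P) {s, t} = {vx G x} := by
      ext u
      rw [Finset.mem_singleton]
      constructor
      · intro hu
        obtain ⟨hu1, hu2⟩ := mem_lkf.1 hu
        have a1 := hu1 s (by simp)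
        have a2 := hu1 t (by simp)
        have cu := Finset.card_pos.2 u.2.1
        have cu3 := hS.card_le hu2.1
        have hus : u < s := by
          rcases a1 with a | a
          · exfalso
            have h1 := Finset.card_lt_card (Cq.lt_iff.1 a)
            rcases a2 with b | b
            · have h2 := Finset.card_lt_card (Cq.lt_iff.1 b); omega
            · have h2 := Finset.card_lt_card (Cq.lt_iff.1 b); omega
          · exact a
        have h1 := Finset.card_lt_card (Cq.lt_iff.1 hus)
        obtain ⟨z, hz⟩ := Finset.card_eq_one.1 (by omega : u.1.card = 1)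
        obtain ⟨z', hz', hzP⟩ := hu2.2
        rw [hz, Finset.mem_singleton] at hz'
        subst hz'
        have hzs : z' ∈ s.1 := (Cq.lt_iff.1 hus).1 (by rw [hz]; simp)
        rw [hs2] at hzs
        simp only [Finset.mem_insert, Finset.mem_singleton] at hzs
        rcases hzs with rfl | rfl
        · exact Subtype.ext hz
        · exact absurd hzP hyP
      · rintro rfl
        refine mem_lkf.2 ⟨fun r hr => ?_, hvp⟩
        simp only [Finset.mem_insert, Finset.mem_singleton] at hr
        rcases hr with rfl | rfl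
        · exact Or.inr hvs
        · exact Or.inr (hvs.trans hst)
    rw [hl, Finset.card_singleton]
  rcases e.1 with a | a
  · exact key s t e a
  · rw [Finset.pair_comm]; exact key t s e.symm a

/-- the indicator of the frontier -/
def oneF (G : SimpleGraph V) (S P : Set V) : Cq G → ZMod 2 :=
  fun s => if s ∈ FrIn G S P then 1 else 0

theorem oneF_mem : oneF G S P ∈ Z0 (sd G) (FrIn G S P) := by
  refine ⟨fun s hs => if_neg hs, fun s t e => ?_⟩
  show ite _ _ _ = ite _ _ _
  rw [if_pos e.2.1, if_pos e.2.2]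

/-- the sum of all circles is the boundary of the part over `P` -/
theorem bd_one [Finite V] (hS : Surf G S) (hP : P ⊆ S) :
    (Matrix.transpose (inc (sd G) (prt G S P) 2)).mulVec (fun _ => 1) =
      al G S P (oneF G S P) := by
  funext e
  obtain ⟨s, t, hst, hs⟩ := Finset.card_eq_two.1 e.2.1
  have hsA : s ∈ prt G S P := e.2.2.2 (by rw [hs]; simp)
  have htA : t ∈ prt G S P := e.2.2.2 (by rw [hs]; simp)
  have hadj : (sd G).Adj s t := e.2.2.1 (by rw [hs]; simp) (by rw [hs]; simp) hst
  have ee : EIn (sd G) (prt G S P) s t := ⟨hadj, hsA, htA⟩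
  have he : e = kp ee := Subtype.ext hs
  rw [he, al_apply oneF_mem ee, incT_sum (S := prt G S P) subset_rfl]
  have h1 : ∀ u ∈ lkf (sd G) (prt G S P) (kp ee).1,
      wbar (fun _ : Kq (sd G) (prt G S P) 3 => (1 : ZMod 2)) (insert u (kp ee).1) = 1 := by
    intro u hu
    obtain ⟨hu1, hu2⟩ := mem_lkf.1 hu
    unfold wbar
    rw [dif_pos]
    have hval : (kp ee).1 = {s, t} := rfl
    rw [hval] at hu1 ⊢
    have us := hu1 s (by simp)
    have ut := hu1 t (by simp)
    refine ⟨?_, ?_, ?_⟩
    · rw [Finset.card_insert_of_notMem, Finset.card_pair hst]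
      simp only [Finset.mem_insert, Finset.mem_singleton, not_or]
      exact ⟨us.ne', ut.ne'⟩
    · refine clique_insert (clique_insert (s := {t}) (by simp) (by simpa using hadj)) ?_
      intro v hv
      exact (hu1 v hv).symm
    · intro v hv
      simp only [Finset.coe_insert, Finset.coe_singleton, Set.mem_insert_iff,
        Set.mem_singleton_iff] at hv
      rcases hv with rfl | rfl | rfl
      · exact hu2
      · exact hsA
      · exact htA
  rw [Finset.sum_congr rfl h1, Finset.sum_const]
  have hval : (kp ee).1 = {s, t} := rfl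
  rw [hval]
  by_cases h : EIn (sd G) (FrIn G S P) s t
  · rw [if_pos h, lkf_on hS hP h]
    simp [oneF, h.2.1]
  · rw [if_neg h, lkf_off hS hP ee h]
    rw [two_smul]; exact two_add _

/-- the restriction of a cochain of the part to the frontier is trivial when it vanishes on all
circles -/
theorem triv_F [Finite V] (hS : Surf G S) {g : Kq (sd G) (prt G S P) 2 → ZMod 2}
    (h : ∀ f ∈ Z0 (sd G) (FrIn G S P), al G S P f ⬝ᵥ g = 0) :
    Triv (sd G) (FrIn G S P) (ex1 (sd G) (prt G S P) g) := by
  let ι : Kq (sd G) (FrIn G S P) 2 → Kq (sd G) (prt G S P) 2 :=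
    fun e => ⟨e.1, e.2.1, e.2.2.1, e.2.2.2.trans FrIn_sub_prt⟩
  have hι : Function.Injective ι := by
    intro e e' he
    have h0 : (ι e).1 = (ι e').1 := congrArg Subtype.val he
    exact Subtype.ext h0
  have hιk : ∀ {s t : Cq G} (e : EIn (sd G) (FrIn G S P) s t),
      ι (kp e) = kp (e.mono FrIn_sub_prt) := fun e => Subtype.ext rfl
  have h1 : Triv (sd G) (FrIn G S P) (ex1 (sd G) (FrIn G S P) (fun e => g (ι e))) := by
    refine triv_perp.2 fun w hw => ?_
    -- `w` is constant along the circles
    have hf : ∃ f : Cq G → ZMod 2, (∀ s, s ∉ FrIn G S P → f s = 0) ∧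
        ∀ s t (e : EIn (sd G) (FrIn G S P) s t), w (kp e) = f s := by
      refine ⟨fun s => if h : ∃ t, EIn (sd G) (FrIn G S P) s t then w (kp h.choose_spec) else 0,
        ?_, ?_⟩
      · intro s hs
        exact dif_neg (fun ⟨t, e⟩ => hs e.2.1)
      · intro s t e
        have hex : ∃ t, EIn (sd G) (FrIn G S P) s t := ⟨t, e⟩
        show _ = dite _ _ _
        rw [dif_pos hex]
        generalize hex.choose_spec = e'
        revert e'
        generalize hex.choose = t'
        intro e'
        by_cases htt : t = t'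
        · subst htt; rfl
        have hs1 : (({s} : Finset (Cq G)).card = 1 ∧ (sd G).IsClique (({s} : Finset (Cq G)) :
            Set (Cq G)) ∧ (({s} : Finset (Cq G)) : Set (Cq G)) ⊆ FrIn G S P) :=
          ⟨by simp, by simp, by simpa using e.2.1⟩
        have h2 := congrFun hw ⟨{s}, hs1⟩
        rw [incT_sum (S := FrIn G S P) subset_rfl] at h2
        have h3 : lkf (sd G) (FrIn G S P) {s} = {t, t'} := by
          symm
          refine Finset.eq_of_subset_of_card_le ?_ ?_
          · intro v hv
            simp only [Finset.mem_insert, Finset.mem_singleton] at hv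
            rcases hv with rfl | rfl
            · exact mem_lkf.2 ⟨fun r hr => by
                rw [Finset.mem_singleton] at hr; subst hr; exact e.1, e.2.2⟩
            · exact mem_lkf.2 ⟨fun r hr => by
                rw [Finset.mem_singleton] at hr; subst hr; exact e'.1, e'.2.2⟩
          · rw [Finset.card_pair htt, ← FrIn_two hS e.2.1, ← Set.ncard_coe_finset]
            refine Set.ncard_le_ncard ?_ (Set.toFinite _)
            intro v hv
            have hv' := mem_lkf.1 (Finset.mem_coe.1 hv)
            exact ⟨hv'.1 s (by simp), e.2.1, hv'.2⟩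
        have h4 : ∑ u ∈ lkf (sd G) (FrIn G S P) {s}, wbar w (insert u {s}) = 0 := h2
        rw [h3, Finset.sum_pair htt] at h4
        have r : ∀ u, (insert u ({s} : Finset (Cq G))) = {s, u} := fun u => Finset.pair_comm u s
        rw [r, r, wbar_kp e, wbar_kp e'] at h4
        exact (z2_eq _ _).1 h4
    obtain ⟨f, hf0, hf⟩ := hf
    have hfZ : f ∈ Z0 (sd G) (FrIn G S P) := by
      refine ⟨hf0, fun s t e => ?_⟩
      rw [← hf s t e, ← hf t s e.symm]
      congr 1
      exact Subtype.ext (Finset.pair_comm s t)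
    rw [← h f hfZ]
    refine Fintype.sum_of_injective ι hι _ _ ?_ ?_
    · intro e he
      have hns : ¬ (e.1 : Set (Cq G)) ⊆ FrIn G S P := by
        intro hsub
        exact he ⟨⟨e.1, e.2.1, e.2.2.1, hsub⟩, rfl⟩
      have : al G S P f e = 0 := if_neg hns
      rw [this, zero_mul]
    · intro e
      obtain ⟨s, t, hst, hs⟩ := Finset.card_eq_two.1 e.2.1
      have ee : EIn (sd G) (FrIn G S P) s t := ⟨e.2.2.1 (by rw [hs]; simp) (by rw [hs]; simp) hst,
        e.2.2.2 (by rw [hs]; simp), e.2.2.2 (by rw [hs]; simp)⟩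
      have he : e = kp ee := Subtype.ext hs
      rw [he, hιk ee, al_apply hfZ, if_pos ee, hf s t ee]
      show _ * g (ι (kp ee)) = _
      rw [hιk ee]
  obtain ⟨p, hp⟩ := h1
  refine ⟨p, fun s t e => ?_⟩
  rw [← hp s t e, ex1_apply e, ex1_apply (e.mono FrIn_sub_prt), ← hιk e]

/-- circles are orthogonal to cochains that are trivial on the frontier -/
theorem al_dot [Finite V] (hS : Surf G S) {g : Kq (sd G) (prt G S P) 2 → ZMod 2}
    (h : Triv (sd G) (FrIn G S P) (ex1 (sd G) (prt G S P) g)) {f : Cq G → ZMod 2}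
    (hf : f ∈ Z0 (sd G) (FrIn G S P)) : al G S P f ⬝ᵥ g = 0 := by
  obtain ⟨p, hp⟩ := h
  obtain ⟨p', hp'⟩ := one_ext (G := sd G) (A := prt G S P) p
  have h1 : al G S P f ⬝ᵥ g = al G S P f ⬝ᵥ (inc (sd G) (prt G S P) 1).mulVec p' := by
    refine Finset.sum_congr rfl fun e _ => ?_
    obtain ⟨s, t, hst, hs⟩ := Finset.card_eq_two.1 e.2.1
    have hsA : s ∈ prt G S P := e.2.2.2 (by rw [hs]; simp)
    have htA : t ∈ prt G S P := e.2.2.2 (by rw [hs]; simp)
    have hadj : (sd G).Adj s t := e.2.2.1 (by rw [hs]; simp) (by rw [hs]; simp) hst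
    have ee : EIn (sd G) (prt G S P) s t := ⟨hadj, hsA, htA⟩
    have he : e = kp ee := Subtype.ext hs
    rw [he, al_apply hf]
    by_cases hF : EIn (sd G) (FrIn G S P) s t
    · rw [if_pos hF, inc_one, hp' s hsA, hp' t htA, ← hp s t hF, ex1_apply ee]
    · rw [if_neg hF, zero_mul, zero_mul]
  rw [h1, Matrix.dotProduct_mulVec, ← Matrix.mulVec_transpose, al_cyc hS hf, zero_dotProduct]

/-- boundaries are orthogonal to cocycles -/
theorem bd_dot [Finite V] {g : Kq G A 2 → ZMod 2} (hg : (inc G A 2).mulVec g = 0)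
    (T : Kq G A 3 → ZMod 2) : (Matrix.transpose (inc G A 2)).mulVec T ⬝ᵥ g = 0 := by
  rw [Matrix.mulVec_transpose, ← Matrix.dotProduct_mulVec, hg, dotProduct_zero]

/-- ONE CIRCLE: a cocycle of the part is trivial on a connected frontier -/
theorem one_circle [Finite V] (hS : Surf G S) (hP : P ⊆ S) (hF : Conn (sd G) (FrIn G S P))
    {a : Cq G → Cq G → ZMod 2} (ha : a ∈ Z1 (sd G) (prt G S P)) :
    Triv (sd G) (FrIn G S P) a := by
  obtain ⟨g, hg, rfl⟩ := ex1_surj ha
  refine triv_F hS fun f hf => ?_
  obtain ⟨s0, hs0⟩ := hF.1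
  have hfc : f = f s0 • oneF G S P := by
    funext s
    show f s = f s0 * ite _ _ _
    by_cases hs : s ∈ FrIn G S P
    · rw [if_pos hs, mul_one]
      exact hF.const (f := f) (fun x y e => hf.2 x y e) hs hs0
    · rw [if_neg hs, mul_zero]; exact hf.1 s hs
  rw [hfc, map_smul, ← bd_one hS hP, smul_dotProduct, bd_dot hg, smul_zero]

/-- classes of circles in the first homology of the part -/
def beF [Finite V] (hS : Surf G S) : (Z0 (sd G) (FrIn G S P)) →ₗ[ZMod 2]
    (LinearMap.ker (Matrix.mulVecLin (Matrix.transpose (inc (sd G) (prt G S P) 1)))) ⧸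
      ((LinearMap.range (Matrix.mulVecLin (Matrix.transpose (inc (sd G) (prt G S P) 2)))).comap
        (LinearMap.ker (Matrix.mulVecLin
          (Matrix.transpose (inc (sd G) (prt G S P) 1)))).subtype) :=
  (Submodule.mkQ _).comp (LinearMap.codRestrict _
    ((al G S P).comp (Z0 (sd G) (FrIn G S P)).subtype)
    (fun f => LinearMap.mem_ker.2 (al_cyc hS f.2)))

theorem be_ker [Finite V] (hS : Surf G S) (hP : P ⊆ S) (hc : Conn G P) :
    Module.finrank (ZMod 2) (LinearMap.ker (beF (P := P) hS)) ≤ 1 := by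
  by_cases hF : (FrIn G S P).Nonempty
  · obtain ⟨s0, hs0⟩ := hF
    let ev : LinearMap.ker (beF (P := P) hS) →ₗ[ZMod 2] ZMod 2 :=
      { toFun := fun f => f.1.1 s0
        map_add' := fun f g => rfl
        map_smul' := fun c f => rfl }
    have hinj : Function.Injective ev := by
      rw [← LinearMap.ker_eq_bot, eq_bot_iff]
      intro f hf
      have hf0 : f.1.1 s0 = 0 := hf
      have hker : beF (P := P) hS f.1 = 0 := f.2
      obtain ⟨T, hT⟩ := (Submodule.Quotient.mk_eq_zero _).1 hker
      obtain ⟨c, hcc⟩ := al_const hS hP hc f.1.2 (T := T) hT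
      have hc0 : c = 0 := by rw [← hcc s0 hs0, hf0]
      rw [Submodule.mem_bot]
      apply Subtype.ext
      apply Subtype.ext
      funext s
      by_cases hs : s ∈ FrIn G S P
      · rw [hcc s hs, hc0]; rfl
      · exact f.1.2.1 s hs
    have := LinearMap.finrank_le_finrank_of_injective hinj
    rwa [Module.finrank_self] at this
  · rw [Set.not_nonempty_iff_eq_empty] at hF
    have : Module.finrank (ZMod 2) (Z0 (sd G) (FrIn G S P)) = 0 := by
      have hb : b0 (sd G) (FrIn G S P) = 0 := by rw [hF]; exact b0_empty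
      exact hb
    have h8 : Module.finrank (ZMod 2) (LinearMap.ker (beF (P := P) hS)) ≤
      Module.finrank (ZMod 2) (Z0 (sd G) (FrIn G S P)) := Submodule.finrank_le _
    omega

/-- PLANAR: `b1 P + 1` circles: every 1-cycle is a sum of circles and a boundary -/
theorem planar_gen [Finite V] (hS : Surf G S) (hP : P ⊆ S) (hc : Conn G P)
    (hk : b1 G P + 1 ≤ b0 (sd G) (FrIn G S P))
    {w : Kq (sd G) (prt G S P) 2 → ZMod 2}
    (hw : (Matrix.transpose (inc (sd G) (prt G S P) 1)).mulVec w = 0) :
    ∃ f ∈ Z0 (sd G) (FrIn G S P), ∃ T,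
      w = al G S P f + (Matrix.transpose (inc (sd G) (prt G S P) 2)).mulVec T := by
  let Z := LinearMap.ker (Matrix.mulVecLin (Matrix.transpose (inc (sd G) (prt G S P) 1)))
  let B := LinearMap.range (Matrix.mulVecLin (Matrix.transpose (inc (sd G) (prt G S P) 2)))
  have hBZ : B ≤ Z := by
    rintro _ ⟨T, rfl⟩
    exact LinearMap.mem_ker.2 (bd_bd T)
  have h1 := LinearMap.finrank_range_add_finrank_ker (beF (P := P) hS)
  have h3 := Submodule.finrank_quotient_add_finrank (B.comap Z.subtype)
  have h4 : Module.finrank (ZMod 2) (B.comap Z.subtype) = Module.finrank (ZMod 2) B :=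
    LinearEquiv.finrank_eq (Submodule.comapSubtypeEquivOfLe hBZ)
  have h5 : Module.finrank (ZMod 2) Z = Module.finrank (ZMod 2) B + b1 (sd G) (prt G S P) :=
    cyc_dim
  have h6 : b1 (sd G) (prt G S P) = b1 G P := bt_b1 (prt_btw hP).1 (prt_btw hP).2
  have h7 := be_ker hS hP hc
  have h8 : Module.finrank (ZMod 2) (Z0 (sd G) (FrIn G S P)) = b0 (sd G) (FrIn G S P) := rfl
  have h9 : LinearMap.range (beF (P := P) hS) = ⊤ := by
    apply Submodule.eq_top_of_finrank_eq
    have h10 : Module.finrank (ZMod 2) (LinearMap.range (beF (P := P) hS)) ≤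
      Module.finrank (ZMod 2) (Z ⧸ (B.comap Z.subtype)) := Submodule.finrank_le _
    show _ = Module.finrank (ZMod 2) (Z ⧸ (B.comap Z.subtype))
    omega
  have hmem : (Submodule.Quotient.mk (⟨w, LinearMap.mem_ker.2 hw⟩ : Z) :
      Z ⧸ (B.comap Z.subtype)) ∈ LinearMap.range (beF (P := P) hS) := by
    rw [h9]; trivial
  obtain ⟨f, hf⟩ := hmem
  have hq := (Submodule.Quotient.eq _).1 hf
  obtain ⟨T, hT⟩ := hq
  refine ⟨f.1, f.2, -T, ?_⟩
  have hT' : (Matrix.transpose (inc (sd G) (prt G S P) 2)).mulVec T = al G S P f.1 - w := hT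
  rw [Matrix.mulVec_neg, hT']
  abel

/-- PLANAR: `b1 P + 1` circles: restriction to the frontier is injective -/
theorem planar_Inj [Finite V] (hS : Surf G S) (hP : P ⊆ S) (hc : Conn G P)
    (hk : b1 G P + 1 ≤ b0 (sd G) (FrIn G S P)) :
    Inj (sd G) (prt G S P) (FrIn G S P) := by
  intro a ha ht
  obtain ⟨g, hg, rfl⟩ := ex1_surj ha
  refine triv_perp.2 fun w hw => ?_
  obtain ⟨f, hf, T, rfl⟩ := planar_gen hS hP hc hk hw
  rw [add_dotProduct, al_dot hS ht hf, bd_dot hg, add_zero]

/-! ## rank of the restriction to the frontier -/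

theorem flip_rank {K M N : Type} [Field K] [AddCommGroup M] [Module K M] [AddCommGroup N]
    [Module K N] [FiniteDimensional K M] [FiniteDimensional K N] (B : M →ₗ[K] N →ₗ[K] K) :
    Module.finrank K (LinearMap.range B) = Module.finrank K (LinearMap.range B.flip) := by
  rw [← LinearMap.finrank_range_dualMap_eq_finrank_range B.flip]
  have h : B = (LinearMap.dualMap B.flip).comp (Module.Dual.eval K M) := by
    ext m n; rfl
  have h2 : LinearMap.range (Module.Dual.eval K M) = ⊤ := by
    rw [← Module.evalEquiv_toLinearMap]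
    exact LinearEquiv.range _
  have h3 : LinearMap.range B = LinearMap.range (LinearMap.dualMap B.flip) := by
    conv_lhs => rw [h]
    rw [LinearMap.range_comp_of_range_eq_top _ h2]
  rw [h3]

/-- pairing of cocycles of the part with circles -/
def prPair [Finite V] (G : SimpleGraph V) (S P : Set V) :
    (LinearMap.ker (Matrix.mulVecLin (inc (sd G) (prt G S P) 2))) →ₗ[ZMod 2]
      (Z0 (sd G) (FrIn G S P)) →ₗ[ZMod 2] ZMod 2 where
  toFun g :=
    { toFun := fun f => al G S P f.1 ⬝ᵥ g.1
      map_add' := fun f f' => by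
        rw [Submodule.coe_add, map_add, add_dotProduct]
      map_smul' := fun c f => by
        rw [Submodule.coe_smul, map_smul, smul_dotProduct]; rfl }
  map_add' g g' := by
    ext f
    show al G S P f.1 ⬝ᵥ (g.1 + g'.1) = _
    rw [dotProduct_add]; rfl
  map_smul' c g := by
    ext f
    show al G S P f.1 ⬝ᵥ (c • g.1) = _
    rw [dotProduct_smul]; rfl

/-- rank of the restriction `H^1(P) → H^1(circles)`: number of circles minus one -/
theorem prt_rk [Finite V] (hS : Surf G S) (hcS : Conn G S) (hP : P ⊆ S) (hne : P ≠ S)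
    (hc : Conn G P) : rk1 (sd G) (prt G S P) (FrIn G S P) + 1 = b0 (sd G) (FrIn G S P) := by
  have h1 := LinearMap.finrank_range_add_finrank_ker (prPair G S P)
  have h2 := LinearMap.finrank_range_add_finrank_ker (prPair G S P).flip
  rw [← flip_rank] at h2
  have h3 := Submodule.finrank_quotient_add_finrank
    ((K1 (sd G) (prt G S P) (FrIn G S P)).comap (Z1 (sd G) (prt G S P)).subtype)
  have hle : K1 (sd G) (prt G S P) (FrIn G S P) ≤ Z1 (sd G) (prt G S P) := fun a ha => ha.1
  have h4 : Module.finrank (ZMod 2)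
      ((K1 (sd G) (prt G S P) (FrIn G S P)).comap (Z1 (sd G) (prt G S P)).subtype) =
      Module.finrank (ZMod 2) (K1 (sd G) (prt G S P) (FrIn G S P)) :=
    LinearEquiv.finrank_eq (Submodule.comapSubtypeEquivOfLe hle)
  have h5 : Module.finrank (ZMod 2)
      (LinearMap.ker (Matrix.mulVecLin (inc (sd G) (prt G S P) 2))) =
      Module.finrank (ZMod 2) (Z1 (sd G) (prt G S P)) := by
    rw [← ker_inc]
    exact (LinearEquiv.finrank_eq (Submodule.equivMapOfInjective (ex1 _ _) ex1_inj _))
  have h6 : Module.finrank (ZMod 2) (LinearMap.ker (prPair G S P)) =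
      Module.finrank (ZMod 2) (K1 (sd G) (prt G S P) (FrIn G S P)) := by
    have h7 : Submodule.map ((ex1 (sd G) (prt G S P)).comp
        (LinearMap.ker (Matrix.mulVecLin (inc (sd G) (prt G S P) 2))).subtype)
        (LinearMap.ker (prPair G S P)) = K1 (sd G) (prt G S P) (FrIn G S P) := by
      ext a
      constructor
      · rintro ⟨g, hg, rfl⟩
        refine ⟨?_, ?_⟩
        · rw [← ker_inc]; exact ⟨g.1, g.2, rfl⟩
        · refine triv_F hS fun f hf => ?_
          have := LinearMap.congr_fun (LinearMap.mem_ker.1 hg) ⟨f, hf⟩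
          exact this
      · rintro ⟨ha, ht⟩
        obtain ⟨g, hg, rfl⟩ := ex1_surj ha
        refine ⟨⟨g, LinearMap.mem_ker.2 hg⟩, ?_, rfl⟩
        refine LinearMap.mem_ker.2 ?_
        ext f
        exact al_dot hS ht f.2
    rw [← h7]
    refine LinearEquiv.finrank_eq (Submodule.equivMapOfInjective _ ?_ _)
    intro g g' he
    exact Subtype.ext (ex1_inj he)
  have hF := FrIn_ne hcS hP hc.1 hne
  obtain ⟨s0, hs0⟩ := hF
  have h7 : Module.finrank (ZMod 2) (LinearMap.ker (prPair G S P).flip) = 1 := by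
    have h8 : LinearMap.ker (prPair G S P).flip =
        Submodule.span (ZMod 2) {(⟨oneF G S P, oneF_mem⟩ : Z0 (sd G) (FrIn G S P))} := by
      ext f
      rw [Submodule.mem_span_singleton]
      constructor
      · intro hf
        have hf' : ∀ g, (inc (sd G) (prt G S P) 2).mulVec g = 0 → al G S P f.1 ⬝ᵥ g = 0 :=
          fun g hg => LinearMap.congr_fun (LinearMap.mem_ker.1 hf) ⟨g, LinearMap.mem_ker.2 hg⟩
        obtain ⟨T, hT⟩ := perp_range (Matrix.transpose (inc (sd G) (prt G S P) 2))
          (al G S P f.1) (fun w hw => by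
            rw [Matrix.transpose_transpose] at hw
            rw [dotProduct_comm]
            exact hf' w hw)
        obtain ⟨c, hcc⟩ := al_const hS hP hc f.2 (T := T) hT
        refine ⟨c, ?_⟩
        apply Subtype.ext
        funext s
        show c * ite _ _ _ = _
        by_cases hs : s ∈ FrIn G S P
        · rw [if_pos hs, mul_one, hcc s hs]
        · rw [if_neg hs, mul_zero, f.2.1 s hs]
      · rintro ⟨c, rfl⟩
        refine LinearMap.mem_ker.2 ?_
        ext g
        show al G S P (c • oneF G S P) ⬝ᵥ g.1 = 0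
        rw [map_smul, ← bd_one hS hP, smul_dotProduct, bd_dot (LinearMap.mem_ker.1 g.2),
          smul_zero]
    rw [h8, finrank_span_singleton]
    intro h0
    have := congrFun (congrArg Subtype.val h0) s0
    have h9 : oneF G S P s0 = 1 := if_pos hs0
    have h10 : oneF G S P s0 = 0 := this
    rw [h9] at h10
    exact one_ne_zero h10
  have h8 : Module.finrank (ZMod 2) (Z0 (sd G) (FrIn G S P)) = b0 (sd G) (FrIn G S P) := rfl
  unfold rk1
  omega

end MOT
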