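import Pool.Agent.MOT.SfV
import Pool.Agent.MOT.SfE
import Pool.Agent.MOT.MV
import Pool.Agent.MOT.Sdi

/-!
# MOT/SfT: components and curves; a torus cut into pieces without discs (B3')
-/

open Classical

noncomputable section

namespace MOT

variable {V : Type} {G : SimpleGraph V} {A B C D F M S P : Set V}

/-! ## components -/

theorem IsComp.of_diff {E : Set V} (hD : IsComp G A D) (hE : IsComp G (A \ D) E) :
    IsComp G A E := by
  refine IsComp_of hE.conn (fun x hx => (hE.sub hx).1) ?_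
  rintro x hx y ⟨hy, hyE⟩ e
  by_cases hyD : y ∈ D
  · exact hD.nadj y hyD x (hE.sub hx) e.symm
  · exact hE.nadj x hx y ⟨⟨hy, hyD⟩, hyE⟩ e

theorem IsComp_comp {x : V} (hx : x ∈ A) : IsComp G A (comp G A x) := ⟨x, hx, rfl⟩

/-- the pieces of a set: numbers -/
theorem comp_split [Finite V] (hD : IsComp G A D) :
    b0 G A = 1 + b0 G (A \ D) ∧ b1 G A = b1 G D + b1 G (A \ D) := by
  have hu : D ∪ A \ D = A := Set.union_sdiff_cancel hD.sub
  have e0 := b0_disj (Set.disjoint_sdiff_right (s := D) (t := A)) hD.nadj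
  have e1 := b1_disj (Set.disjoint_sdiff_right (s := D) (t := A)) hD.nadj
  rw [hu] at e0 e1
  rw [b0_eq_one.2 hD.conn] at e0
  exact ⟨e0, e1⟩

/-- no component with `H^1 = 0`: at least as many classes as components -/
theorem b0_le_b1 [Finite V] (h : ∀ D, IsComp G A D → ¬ HZ G D) : b0 G A ≤ b1 G A := by
  have key : ∀ (n : ℕ) (A : Set V), b0 G A = n → (∀ D, IsComp G A D → ¬ HZ G D) →
      b0 G A ≤ b1 G A := by
    intro n
    induction n with
    | zero => intro A hA _; rw [hA]; exact Nat.zero_le _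
    | succ n ih =>
      intro A hA h
      obtain ⟨x, hx⟩ : A.Nonempty := by
        rw [Set.nonempty_iff_ne_empty]
        intro hE
        rw [hE, b0_empty] at hA
        omega
      have hD := IsComp_comp (G := G) hx
      obtain ⟨e0, e1⟩ := comp_split hD
      have h1 := ih (A \ comp G A x) (by omega) fun E hE => h E (hD.of_diff hE)
      have h2 : b1 G (comp G A x) ≠ 0 := fun h0 => h _ hD (b1_eq_zero.1 h0)
      omega
  exact key _ A rfl h

theorem comp_b1_one [Finite V] (h : ∀ D, IsComp G A D → ¬ HZ G D) (hb : b1 G A ≤ b0 G A)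
    (hD : IsComp G A D) : b1 G D = 1 := by
  obtain ⟨e0, e1⟩ := comp_split hD
  have h1 := b0_le_b1 fun E hE => h E (hD.of_diff hE)
  have h2 : b1 G D ≠ 0 := fun h0 => h _ hD (b1_eq_zero.1 h0)
  omega

/-- a cochain trivial on every component is trivial -/
theorem Triv_of_comps {a : V → V → ZMod 2} (h : ∀ C, IsComp G F C → Triv G C a) :
    Triv G F a := by
  choose f hf using h
  refine ⟨fun x => if hx : x ∈ F then f (comp G F x) (IsComp_comp hx) x else 0, ?_⟩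
  intro x y e
  have hcx := IsComp_comp (G := G) e.2.1
  have hcy := IsComp_comp (G := G) e.2.2
  have hmem : y ∈ comp G F x := ⟨Relation.ReflTransGen.single e, e.2.2⟩
  have heq : comp G F x = comp G F y := hcx.eq_of_inter hcy ⟨y, hmem, comp_self e.2.2⟩
  have h1 := hf (comp G F x) hcx x y ⟨e.1, comp_self e.2.1, hmem⟩
  beta_reduce
  rw [dif_pos e.2.1, dif_pos e.2.2, h1]
  congr 1
  have : ∀ C' (hC' : IsComp G F C'), C' = comp G F x → f (comp G F x) hcx y = f C' hC' y := by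
    rintro C' hC' rfl
    rfl
  exact this _ hcy heq.symm

/-! ## curves of components -/

theorem FrIn_comp_sub (hD : IsComp G (M ∩ S) D) : FrIn G S D ⊆ FrIn G S M := by
  rintro s ⟨⟨h1, x, hx, hxD⟩, y, hy, hyD⟩
  refine ⟨⟨h1, x, hx, (hD.sub hxD).1⟩, y, hy, fun hyM => ?_⟩
  have hne : x ≠ y := fun h => hyD (h ▸ hxD)
  exact hD.nadj x hxD y ⟨⟨hyM, h1 y hy⟩, hyD⟩ (s.2.2 hx hy hne)

theorem FrIn_comp_closed (hD : IsComp G (M ∩ S) D) {s t : Cq G} (hs : s ∈ FrIn G S D)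
    (ht : t ∈ FrIn G S M) (e : (sd G).Adj s t) : t ∈ FrIn G S D := by
  obtain ⟨⟨h1, x, hx, hxD⟩, y, hy, hyD⟩ := hs
  obtain ⟨⟨h2, u, hu, huM⟩, v, hv, hvM⟩ := ht
  have huD : u ∈ D := by
    have hus : ∃ r : Cq G, x ∈ r.1 ∧ u ∈ r.1 := by
      rcases e with e | e
      · exact ⟨t, (Cq.lt_iff.1 e).1 hx, hu⟩
      · exact ⟨s, hx, (Cq.lt_iff.1 e).1 hu⟩
    obtain ⟨r, hxr, hur⟩ := hus
    by_contra hn
    have hne : x ≠ u := fun h => hn (h ▸ hxD)
    exact hD.nadj x hxD u ⟨⟨huM, h2 u hu⟩, hn⟩ (r.2.2 hxr hur hne)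
  exact ⟨⟨h2, u, hu, huD⟩, v, hv, fun h => hvM (hD.sub h).1⟩

theorem FrIn_comp_up (hD : IsComp G (M ∩ S) D) {C : Set (Cq G)}
    (hC : IsComp (sd G) (FrIn G S D) C) : IsComp (sd G) (FrIn G S M) C := by
  refine IsComp_of hC.conn (hC.sub.trans (FrIn_comp_sub hD)) ?_
  rintro s hs t ⟨ht, htC⟩ e
  exact hC.nadj s hs t ⟨FrIn_comp_closed hD (hC.sub hs) ht e, htC⟩ e

theorem FrIn_comp_down (hD : IsComp G (M ∩ S) D) {C : Set (Cq G)}
    (hC : IsComp (sd G) (FrIn G S M) C) (hn : (C ∩ FrIn G S D).Nonempty) :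
    IsComp (sd G) (FrIn G S D) C := by
  obtain ⟨s, hs, hsD⟩ := hn
  have h1 := IsComp_comp (G := sd G) hsD
  have h2 := FrIn_comp_up hD h1
  rw [hC.eq_of_inter h2 ⟨s, hs, comp_self hsD⟩]
  exact h1

/-- a piece of `S` cut along the frontier of `M` -/
def Piece (G : SimpleGraph V) (S M D : Set V) : Prop :=
  IsComp G (M ∩ S) D ∨ IsComp G (Mᶜ ∩ S) D

theorem Piece.compl (h : Piece G S M D) : Piece G S Mᶜ D := by
  unfold Piece
  rw [compl_compl]
  exact h.symm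

theorem Piece.conn (h : Piece G S M D) : Conn G D := h.elim (fun h => h.conn) fun h => h.conn

theorem Piece.sub (h : Piece G S M D) : D ⊆ S := h.elim (fun h _ hx => (h.sub hx).2)
  fun h _ hx => (h.sub hx).2

theorem Piece.up (hD : Piece G S M D) {C : Set (Cq G)}
    (hC : IsComp (sd G) (FrIn G S D) C) : IsComp (sd G) (FrIn G S M) C := by
  rcases hD with h | h
  · exact FrIn_comp_up h hC
  · rw [← FrIn_compl]; exact FrIn_comp_up h hC

theorem Piece.down (hD : Piece G S M D) {C : Set (Cq G)}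
    (hC : IsComp (sd G) (FrIn G S M) C) (hn : (C ∩ FrIn G S D).Nonempty) :
    IsComp (sd G) (FrIn G S D) C := by
  rcases hD with h | h
  · exact FrIn_comp_down h hC hn
  · rw [← FrIn_compl] at hC; exact FrIn_comp_down h hC hn

theorem Piece.exists {x : V} (hx : x ∈ S) : ∃ D, Piece G S M D ∧ x ∈ D := by
  by_cases hM : x ∈ M
  · exact ⟨_, Or.inl (IsComp_comp ⟨hM, hx⟩), comp_self ⟨hM, hx⟩⟩
  · exact ⟨_, Or.inr (IsComp_comp ⟨hM, hx⟩), comp_self ⟨hM, hx⟩⟩

theorem Piece.eq {D' : Set V} {x : V} (h : Piece G S M D) (h' : Piece G S M D') (hx : x ∈ D)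
    (hx' : x ∈ D') : D = D' := by
  rcases h with h | h <;> rcases h' with h' | h'
  · exact h.eq_of_inter h' ⟨x, hx, hx'⟩
  · exact absurd (h.sub hx).1 (h'.sub hx').1
  · exact absurd (h'.sub hx').1 (h.sub hx).1
  · exact h.eq_of_inter h' ⟨x, hx, hx'⟩

/-- every curve is a curve of a piece -/
theorem Piece.of_curve {C : Set (Cq G)} (hC : IsComp (sd G) (FrIn G S M) C) :
    ∃ D, Piece G S M D ∧ IsComp (sd G) (FrIn G S D) C := by
  obtain ⟨s, hs⟩ := hC.conn.1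
  obtain ⟨⟨h1, x, hx, hxM⟩, y, hy, hyM⟩ := hC.sub hs
  have hxs : x ∈ M ∩ S := ⟨hxM, h1 x hx⟩
  have hD : Piece G S M (comp G (M ∩ S) x) := Or.inl (IsComp_comp hxs)
  refine ⟨_, hD, hD.down hC ⟨s, hs, ⟨h1, x, hx, comp_self hxs⟩, y, hy, fun h => ?_⟩⟩
  exact hyM (comp_sub h).1

/-- two different adjacent pieces have a common curve -/
theorem Piece.common {D' : Set V} {x y : V} (hD : Piece G S M D) (hD' : Piece G S M D')
    (e : EIn G S x y) (hx : x ∈ D) (hy : y ∈ D') (hne : D ≠ D') :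
    ∃ C, IsComp (sd G) (FrIn G S D) C ∧ IsComp (sd G) (FrIn G S D') C := by
  have hyD : y ∉ D := fun h => hne (hD.eq hD' h hy)
  have hxD' : x ∉ D' := fun h => hne (hD.eq hD' hx h)
  let s : Cq G := eg G e.1
  have hsx : x ∈ s.1 := by show x ∈ ({x, y} : Finset V); simp
  have hsy : y ∈ s.1 := by show y ∈ ({x, y} : Finset V); simp
  have hmi : s ∈ mi G S := by
    intro z hz
    have hz' : z ∈ ({x, y} : Finset V) := hz
    simp only [Finset.mem_insert, Finset.mem_singleton] at hz'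
    rcases hz' with rfl | rfl
    · exact e.2.1
    · exact e.2.2
  have h1 : s ∈ FrIn G S D := ⟨⟨hmi, x, hsx, hx⟩, y, hsy, hyD⟩
  have h2 : s ∈ FrIn G S D' := ⟨⟨hmi, y, hsy, hy⟩, x, hsx, hxD'⟩
  have hC := IsComp_comp (G := sd G) h1
  exact ⟨_, hC, hD'.down (hD.up hC) ⟨s, comp_self h1, h2⟩⟩

/-! ## the torus -/

section Torus

variable [Finite V] (hS : Surf G S) (hcS : Conn G S)
  (hp : ∀ D, Piece G S M D → b1 G D = 1 ∧ b0 (sd G) (FrIn G S D) ≤ 2)

include hS in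
/-- a cocycle nontrivial on a curve of the piece `D` is nontrivial on every curve of `D` -/
private theorem odd_piece {a : Cq G → Cq G → ZMod 2} (ha : a ∈ Z1 (sd G) (mi G S))
    (hP : P ⊆ S) (hk : b0 (sd G) (FrIn G S P) ≤ 2) {C : Set (Cq G)}
    (hC : IsComp (sd G) (FrIn G S P) C) (hn : ¬ Triv (sd G) C a) :
    b0 (sd G) (FrIn G S P) = 2 ∧
      ∀ C', IsComp (sd G) (FrIn G S P) C' → ¬ Triv (sd G) C' a := by
  have hsub : prt G S P ⊆ mi G S := Set.inter_subset_left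
  have har := rs_mem hsub ha
  have hFP : FrIn G S P ⊆ prt G S P := fun s hs => ⟨hs.1.1, hs.1.2⟩
  have hiff : ∀ X : Set (Cq G), X ⊆ FrIn G S P →
      (Triv (sd G) X (rs (sd G) (prt G S P) a) ↔ Triv (sd G) X a) := fun X hX =>
    ⟨fun t => t.congr fun x y e => rs_apply (e.mono (hX.trans hFP)),
      fun t => t.congr fun x y e => (rs_apply (e.mono (hX.trans hFP))).symm⟩
  have h0 : b0 (sd G) (FrIn G S P) ≠ 0 := by
    intro h
    rw [b0_eq_zero] at h
    obtain ⟨s, hs⟩ := hC.conn.1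
    have := hC.sub hs
    rw [h] at this
    exact this
  have h1 : b0 (sd G) (FrIn G S P) ≠ 1 := by
    intro h
    have hF := b0_eq_one.1 h
    have t := one_circle hS hP hF har
    exact hn (((hiff _ subset_rfl).1 t).mono hC.sub)
  have h2 : b0 (sd G) (FrIn G S P) = 2 := by omega
  refine ⟨h2, fun C' hC' t' => ?_⟩
  obtain ⟨hcomp, hiff2⟩ := two_circ hS hP h2 hC har
  rw [hiff _ hC.sub, hiff _ Set.sdiff_subset] at hiff2
  obtain ⟨s, hs⟩ := hC'.conn.1
  by_cases hsC : s ∈ C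
  · rw [hC'.eq_of_inter hC ⟨s, hs, hsC⟩] at t'
    exact hn t'
  · rw [hC'.eq_of_inter hcomp ⟨s, hs, hC'.sub hs, hsC⟩] at t'
    exact hn (hiff2.2 t')

include hS hcS hp in
/-- a cocycle nontrivial on one curve is nontrivial on all curves, and all pieces have two curves -/
private theorem odd_all {a : Cq G → Cq G → ZMod 2} (ha : a ∈ Z1 (sd G) (mi G S))
    {C : Set (Cq G)} (hC : IsComp (sd G) (FrIn G S M) C) (hn : ¬ Triv (sd G) C a) :
    (∀ D, Piece G S M D → b0 (sd G) (FrIn G S D) = 2) ∧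
      ∀ C', IsComp (sd G) (FrIn G S M) C' → ¬ Triv (sd G) C' a := by
  have key : ∀ D, Piece G S M D → ∃ C, IsComp (sd G) (FrIn G S D) C ∧ ¬ Triv (sd G) C a := by
    let Q : V → Prop := fun x => ∃ D, Piece G S M D ∧ x ∈ D ∧
      ∃ C, IsComp (sd G) (FrIn G S D) C ∧ ¬ Triv (sd G) C a
    have hstep : ∀ x y, EIn G S x y → Q x → Q y := by
      rintro x y e ⟨D, hD, hx, C, hC, hn⟩
      obtain ⟨D', hD', hy⟩ := Piece.exists (G := G) (M := M) e.2.2
      by_cases hDD : D = D'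
      · exact ⟨D, hD, hDD ▸ hy, C, hC, hn⟩
      · obtain ⟨C', h1, h2⟩ := hD.common hD' e hx hy hDD
        exact ⟨D', hD', hy, C', h2, (odd_piece hS ha hD.sub (hp D hD).2 hC hn).2 C' h1⟩
    obtain ⟨D0, hD0, hC0⟩ := Piece.of_curve hC
    obtain ⟨x0, hx0⟩ := hD0.conn.1
    intro D hD
    obtain ⟨x, hx⟩ := hD.conn.1
    have hconst := hcS.const (f := fun x => if Q x then 1 else 0) (by
      intro u v e
      have : Q u ↔ Q v := ⟨hstep u v e, hstep v u e.symm⟩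
      simp only [this]) (hD0.sub hx0) (hD.sub hx)
    have hQ0 : Q x0 := ⟨D0, hD0, hx0, C, hC0, hn⟩
    have hQx : Q x := by
      by_contra hQ
      simp only [hQ0, hQ, if_true, if_false] at hconst
      exact one_ne_zero hconst
    obtain ⟨D', hD', hx', C', hC', hn'⟩ := hQx
    rw [hD.eq hD' hx hx']
    exact ⟨C', hC', hn'⟩
  refine ⟨fun D hD => ?_, fun C' hC' => ?_⟩
  · obtain ⟨C1, h1, h2⟩ := key D hD
    exact (odd_piece hS ha hD.sub (hp D hD).2 h1 h2).1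
  · obtain ⟨D, hD, hCD⟩ := Piece.of_curve hC'
    obtain ⟨C1, h1, h2⟩ := key D hD
    exact (odd_piece hS ha hD.sub (hp D hD).2 h1 h2).2 C' hCD

end Torus

/-- gluing with zero: a cocycle of `mi S` which is trivial on the curves of `D` can be replaced by one
which agrees with it over `D` and is trivial off `D` -/
theorem cut_off {a : Cq G → Cq G → ZMod 2} (ha : a ∈ Z1 (sd G) (mi G S))
    (ht : Triv (sd G) (FrIn G S D) a) : ∃ c ∈ Z1 (sd G) (mi G S),
      Triv (sd G) (mi G S ∩ pl G D) (c + a) ∧ Triv (sd G) (mi G S ∩ pl G Dᶜ) c := by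
  have hu : mi G S ∩ pl G D ∪ mi G S ∩ pl G Dᶜ = mi G S := by
    ext s
    constructor
    · rintro (h | h)
      · exact h.1
      · exact h.1
    · intro h
      obtain ⟨x, hx⟩ := s.2.1
      by_cases hD : x ∈ D
      · exact Or.inl ⟨h, x, hx, hD⟩
      · exact Or.inr ⟨h, x, hx, hD⟩
  have hi : (mi G S ∩ pl G D) ∩ (mi G S ∩ pl G Dᶜ) = FrIn G S D := by
    ext s
    constructor
    · rintro ⟨h1, h2⟩
      exact ⟨h1, h2.2⟩
    · rintro ⟨h1, h2⟩
      exact ⟨h1, h1.1, h2⟩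
  have hn : NAdj (sd G) ((mi G S ∩ pl G D) \ (mi G S ∩ pl G Dᶜ))
      ((mi G S ∩ pl G Dᶜ) \ (mi G S ∩ pl G D)) := by
    rintro s ⟨⟨h1, h2⟩, h3⟩ t ⟨⟨h4, h5⟩, h6⟩ e
    have hsD : ∀ x ∈ s.1, x ∈ D := fun x hx => by
      by_contra h
      exact h3 ⟨h1, x, hx, h⟩
    have htD : ∀ x ∈ t.1, x ∉ D := fun x hx h => h6 ⟨h4, x, hx, h⟩
    rcases e with e | e
    · obtain ⟨x, hx⟩ := s.2.1
      exact htD x ((Cq.lt_iff.1 e).1 hx) (hsD x hx)
    · obtain ⟨x, hx⟩ := t.2.1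
      exact htD x hx (hsD x ((Cq.lt_iff.1 e).1 hx))
  have hsub : mi G S ∩ pl G D ⊆ mi G S := Set.inter_subset_left
  have hFD : FrIn G S D ⊆ mi G S ∩ pl G D := fun s hs => ⟨hs.1.1, hs.1.2⟩
  obtain ⟨c, hc, h1, h2⟩ := mv_glue hn (rs_mem hsub ha)
    ((Z1 (sd G) (mi G S ∩ pl G Dᶜ)).zero_mem) (by
      rw [add_zero, hi]
      exact ht.congr fun x y e => (rs_apply (e.mono hFD)).symm)
  rw [hu] at hc
  rw [add_zero] at h2
  refine ⟨c, hc, h1.congr fun x y e => ?_, h2⟩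
  show c x y + rs (sd G) (mi G S ∩ pl G D) a x y = c x y + a x y
  rw [rs_apply e]

/-- (B3').  A closed connected surface with `b1 ≤ 2`, cut by `M` into pieces none of which is a disc,
with connected sets `Cm` (in `M`), `Cp` (off `M`) which carry the same nontrivial class: every piece has
`b1 = 1` and two curves, and every curve is parallel to `Cm`. -/
theorem torus_curves [Finite V] (hS : Surf G S) (hcS : Conn G S) (hb : b1 G S ≤ 2)
    (h1 : ∀ D, IsComp G (M ∩ S) D → ¬ HZ G D) (h2 : ∀ D, IsComp G (Mᶜ ∩ S) D → ¬ HZ G D)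
    {Cm Cp : Set V} (cm : Conn G Cm) (cp : Cp.Nonempty) (hm : Cm ⊆ M ∩ S) (hp : Cp ⊆ Mᶜ ∩ S)
    (round : ∀ a ∈ Z1 G S, (Triv G Cm a ↔ Triv G Cp a))
    (odd : ∃ a ∈ Z1 G S, ¬ Triv G Cm a) :
    (∀ D, IsComp G (M ∩ S) D ∨ IsComp G (Mᶜ ∩ S) D →
      b1 G D = 1 ∧ b0 (sd G) (FrIn G S D) = 2) ∧
    ∀ C, IsComp (sd G) (FrIn G S M) C → ∀ a ∈ Z1 (sd G) (mi G S),
      (Triv (sd G) C a ↔ Triv (sd G) (mi G Cm) a) := by
  obtain ⟨x0, hx0⟩ := cm.1
  obtain ⟨y0, hy0⟩ := cp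
  -- numbers
  have hdiff : S \ (M ∩ S) = Mᶜ ∩ S := by
    ext x; constructor
    · rintro ⟨h3, h4⟩; exact ⟨fun h => h4 ⟨h, h3⟩, h3⟩
    · rintro ⟨h3, h4⟩; exact ⟨h4, fun h => h3 h.1⟩
  have hcut := cut2 hS hcS (A := M ∩ S) Set.inter_subset_right ⟨x0, hm hx0⟩ (by
    intro h
    have : y0 ∈ M ∩ S := by rw [h]; exact (hp hy0).2
    exact (hp hy0).1 this.1)
  rw [hdiff] at hcut
  have l1 := b0_le_b1 h1
  have l2 := b0_le_b1 h2
  have hpc : ∀ D, Piece G S M D → b1 G D = 1 ∧ b0 (sd G) (FrIn G S D) ≤ 2 := by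
    intro D hD
    have hb1 : b1 G D = 1 := by
      rcases hD with hD | hD
      · exact comp_b1_one h1 (by omega) hD
      · exact comp_b1_one h2 (by omega) hD
    refine ⟨hb1, ?_⟩
    have := k_le hS hD.sub hD.conn
    omega
  -- the odd class upstairs
  obtain ⟨a0', ha0', hn0'⟩ := odd
  have hmS : Cm ⊆ S := fun x hx => (hm hx).2
  have hpS : Cp ⊆ S := fun x hx => (hp hx).2
  have ha0 := upc_mem ha0'
  have hn0 : ¬ Triv (sd G) (mi G Cm) (upc G S a0') := fun t => hn0' ((Triv_upc ha0' hmS).1 t)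
  have hround : ∀ c ∈ Z1 (sd G) (mi G S),
      (Triv (sd G) (mi G Cm) c ↔ Triv (sd G) (mi G Cp) c) := by
    intro c hc
    rw [← Triv_dnc hc hmS, ← Triv_dnc hc hpS]
    exact round _ (dnc_mem hc)
  -- the piece of `Cm`
  have hDm := IsComp_comp (G := G) (hm hx0)
  have hCmD : Cm ⊆ comp G (M ∩ S) x0 :=
    hDm.absorb cm hm ⟨x0, hx0, comp_self (hm hx0)⟩
  have hPm : Piece G S M (comp G (M ∩ S) x0) := Or.inl hDm
  have hmiCm : mi G Cm ⊆ prt G S (comp G (M ∩ S) x0) := by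
    intro s hs
    refine ⟨mi_mono hmS hs, ?_⟩
    obtain ⟨x, hx⟩ := s.2.1
    exact ⟨x, hx, hCmD (hs x hx)⟩
  have hex : ∃ C, IsComp (sd G) (FrIn G S M) C ∧ ¬ Triv (sd G) C (upc G S a0') := by
    by_contra hno
    push Not at hno
    have ht : Triv (sd G) (FrIn G S (comp G (M ∩ S) x0)) (upc G S a0') :=
      Triv_of_comps fun C hC => hno C (hPm.up hC)
    obtain ⟨c, hc, t1, t2⟩ := cut_off ha0 ht
    have hmp : mi G Cp ⊆ mi G S ∩ pl G (comp G (M ∩ S) x0)ᶜ := by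
      intro s hs
      obtain ⟨x, hx⟩ := s.2.1
      exact ⟨mi_mono hpS hs, x, hx, fun h => (hp (hs x hx)).1 (comp_sub h).1⟩
    have t3 : Triv (sd G) (mi G Cp) c := t2.mono hmp
    have t4 := (hround c hc).2 t3
    have t5 := t4.add (t1.mono hmiCm)
    rw [← add_assoc] at t5
    have hcc : c + c = 0 := by
      funext x y; exact two_add _
    rw [hcc, zero_add] at t5
    exact hn0 t5
  obtain ⟨C0, hC0, hnC0⟩ := hex
  obtain ⟨hk2, hall0⟩ := odd_all hS hcS hpc ha0 hC0 hnC0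
  refine ⟨fun D hD => ⟨(hpc D hD).1, hk2 D hD⟩, ?_⟩
  -- trivial on a curve implies trivial on `Cm`
  have key : ∀ C, IsComp (sd G) (FrIn G S M) C → ∀ a ∈ Z1 (sd G) (mi G S),
      Triv (sd G) C a → Triv (sd G) (mi G Cm) a := by
    intro C hC a ha t
    have hall : ∀ C', IsComp (sd G) (FrIn G S M) C' → Triv (sd G) C' a := by
      intro C' hC'
      by_contra hn
      exact (odd_all hS hcS hpc ha hC' hn).2 C hC t
    have ht : Triv (sd G) (FrIn G S (comp G (M ∩ S) x0)) a :=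
      Triv_of_comps fun C' hC' => hall C' (hPm.up hC')
    have hsub : prt G S (comp G (M ∩ S) x0) ⊆ mi G S := Set.inter_subset_left
    have hFP : FrIn G S (comp G (M ∩ S) x0) ⊆ prt G S (comp G (M ∩ S) x0) :=
      fun s hs => ⟨hs.1.1, hs.1.2⟩
    have hinj := planar_Inj hS hPm.sub hPm.conn (by
      rw [(hpc _ hPm).1, hk2 _ hPm])
    have t2 := hinj _ (rs_mem hsub ha) (ht.congr fun x y e => (rs_apply (e.mono hFP)).symm)
    exact (Triv_rs.1 t2).mono hmiCm
  intro C hC a ha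
  refine ⟨key C hC a ha, fun t => ?_⟩
  by_contra hn
  have hb1 : b1 (sd G) C = 1 := (FrIn_TwoReg hS).b1_comp hC
  have hCS : C ⊆ mi G S := fun s hs => (hC.sub hs).1.1
  have hn1 : ¬ Triv (sd G) C (rs (sd G) C a) := fun t => hn (Triv_rs.1 t)
  have hn2 : ¬ Triv (sd G) C (rs (sd G) C (upc G S a0')) := fun t => hall0 C hC (Triv_rs.1 t)
  have t1 := b1_one_add hb1 (rs_mem hCS ha) (rs_mem hCS ha0) hn1 hn2
  have t2 : Triv (sd G) C (a + upc G S a0') := t1.congr fun x y e => by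
    show rs (sd G) C a x y + rs (sd G) C (upc G S a0') x y = a x y + upc G S a0' x y
    rw [rs_apply e, rs_apply e]
  have t3 := key C hC _ ((Z1 (sd G) (mi G S)).add_mem ha ha0) t2
  have t4 := t.add t3
  rw [← add_assoc] at t4
  have haa : a + a = 0 := by
    funext x y; exact two_add _
  rw [haa, zero_add] at t4
  exact hn0 t4

end MOT
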