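import Pool.Agent.MOT.Wal
import Pool.Agent.MOT.Cpt

/-!
# MOT/Cv: curves (frontiers in a surface) under subdivision
-/

open Classical

noncomputable section

namespace MOT

variable {V : Type} {G : SimpleGraph V} {S A B C : Set V}

theorem FrIn_compl : FrIn G S Aᶜ = FrIn G S A := by
  unfold FrIn
  rw [compl_compl, Set.inter_assoc, Set.inter_comm (pl G Aᶜ), ← Set.inter_assoc]

private theorem FrIn_sub (h : A ∩ S = B ∩ S) : FrIn G S A ⊆ FrIn G S B := by
  rintro s ⟨⟨h1, x, hx, hxA⟩, y, hy, hyA⟩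
  refine ⟨⟨h1, x, hx, ?_⟩, y, hy, fun hyB => hyA ?_⟩
  · have h2 : x ∈ A ∩ S := ⟨hxA, h1 x hx⟩
    rw [h] at h2
    exact h2.1
  · have h2 : y ∈ B ∩ S := ⟨hyB, h1 y hy⟩
    rw [← h] at h2
    exact h2.1

theorem FrIn_congr (h : A ∩ S = B ∩ S) : FrIn G S A = FrIn G S B :=
  Set.Subset.antisymm (FrIn_sub h) (FrIn_sub h.symm)

theorem FrIn_diff : FrIn G S (S \ A) = FrIn G S A := by
  rw [← FrIn_compl (A := A)]
  refine FrIn_congr ?_
  ext x
  simp only [Set.mem_inter_iff, Set.mem_sdiff, Set.mem_compl_iff]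
  tauto

/-- greatest element of a chain -/
def mx (c : Cq (sd G)) : Cq G :=
  if h : ∃ t ∈ c.1, ∀ s ∈ c.1, s ≤ t then h.choose else c.2.1.choose

private theorem ch_cm (c : Cq (sd G)) {s t : Cq G} (hs : s ∈ c.1) (ht : t ∈ c.1) :
    s ≤ t ∨ t ≤ s := by
  by_cases e : s = t
  · exact Or.inl e.le
  · rcases c.2.2 (Finset.mem_coe.2 hs) (Finset.mem_coe.2 ht) e with h | h
    · exact Or.inl h.le
    · exact Or.inr h.le

private theorem exists_mx (c : Cq (sd G)) : ∃ t ∈ c.1, ∀ s ∈ c.1, s ≤ t := by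
  obtain ⟨m, hm⟩ := c.1.exists_maximal c.2.1
  refine ⟨m, hm.1, fun s hs => ?_⟩
  rcases ch_cm c hs hm.1 with h | h
  · exact h
  · exact hm.2 hs h

theorem mx_mem (c : Cq (sd G)) : mx c ∈ c.1 := by
  unfold mx
  rw [dif_pos (exists_mx c)]
  exact (exists_mx c).choose_spec.1

theorem le_mx (c : Cq (sd G)) {s : Cq G} (h : s ∈ c.1) : s ≤ mx c := by
  unfold mx
  rw [dif_pos (exists_mx c)]
  exact (exists_mx c).choose_spec.2 s h

theorem mx_mono {c c' : Cq (sd G)} (h : c ≤ c') : mx c ≤ mx c' :=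
  le_mx c' (Cq.le_iff.1 h (mx_mem c))

private theorem mx_eq {c : Cq (sd G)} {y : Cq G} (hy : y ∈ c.1) (h : ∀ s ∈ c.1, s ≤ y) :
    mx c = y := le_antisymm (h _ (mx_mem c)) (le_mx c hy)

private theorem mem_cv {c : Cq (sd G)} : c ∈ FrIn (sd G) (mi G S) (pl G A) ↔
    mx c ∈ mi G S ∧ mx c ∈ pl G A ∧ ∃ s ∈ c.1, s ∈ mi G Aᶜ := by
  constructor
  · rintro ⟨⟨h1, s, hs, x, hx, hxA⟩, t, ht, htA⟩
    refine ⟨h1 _ (mx_mem c), ⟨x, Cq.le_iff.1 (le_mx c hs) hx, hxA⟩, t, ht, ?_⟩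
    rw [compl_pl] at htA
    exact htA
  · rintro ⟨h1, h2, t, ht, htA⟩
    refine ⟨⟨fun s hs x hx => h1 x (Cq.le_iff.1 (le_mx c hs) hx), mx c, mx_mem c, h2⟩, t, ht, ?_⟩
    rw [compl_pl]
    exact htA

/-- the curve of `pl A` in the subdivided surface maps to the curve of `A` -/
theorem mx_curve {c : Cq (sd G)} (h : c ∈ FrIn (sd G) (mi G S) (pl G A)) :
    mx c ∈ FrIn G S A := by
  obtain ⟨h1, h2, t, ht, htA⟩ := mem_cv.1 h
  obtain ⟨x, hx⟩ := t.2.1
  exact ⟨⟨h1, h2⟩, x, Cq.le_iff.1 (le_mx c ht) hx, htA x hx⟩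

/-! ## chains -/

private def mk (T : Finset (Cq G)) (h0 : T.Nonempty) (h : ∀ s ∈ T, ∀ t ∈ T, s ≤ t ∨ t ≤ s) :
    Cq (sd G) :=
  ⟨T, h0, fun s hs t ht hne => by
    rcases h s (Finset.mem_coe.1 hs) t (Finset.mem_coe.1 ht) with h | h
    · exact Or.inl (lt_of_le_of_ne h hne)
    · exact Or.inr (lt_of_le_of_ne h (Ne.symm hne))⟩

/-- the chain `t ≤ m ≤ y` -/
private def c3 {t m y : Cq G} (h1 : t ≤ m) (h2 : m ≤ y) : Cq (sd G) :=
  mk {t, m, y} ⟨t, by simp⟩ (by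
    intro s hs u hu
    simp only [Finset.mem_insert, Finset.mem_singleton] at hs hu
    have h3 := h1.trans h2
    rcases hs with rfl | rfl | rfl <;> rcases hu with rfl | rfl | rfl <;> simp [*])

/-- the chain `t ≤ y` -/
private def c2 {t y : Cq G} (h : t ≤ y) : Cq (sd G) :=
  mk {t, y} ⟨t, by simp⟩ (by
    intro s hs u hu
    simp only [Finset.mem_insert, Finset.mem_singleton] at hs hu
    rcases hs with rfl | rfl <;> rcases hu with rfl | rfl <;> simp [*])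

/-- `c ∪ {y}` -/
private def ins {c : Cq (sd G)} {y : Cq G} (h : mx c ≤ y) : Cq (sd G) :=
  mk (insert y c.1) ⟨y, by simp⟩ (by
    intro s hs u hu
    simp only [Finset.mem_insert] at hs hu
    rcases hs with rfl | hs
    · rcases hu with rfl | hu
      · exact Or.inl le_rfl
      · exact Or.inr ((le_mx c hu).trans h)
    · rcases hu with rfl | hu
      · exact Or.inl ((le_mx c hs).trans h)
      · exact ch_cm c hs hu)

private theorem mem_c3 {t m y s : Cq G} (h1 : t ≤ m) (h2 : m ≤ y) :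
    s ∈ (c3 h1 h2).1 ↔ s = t ∨ s = m ∨ s = y := by
  unfold c3 mk
  simp

private theorem mem_c2 {t y s : Cq G} (h : t ≤ y) : s ∈ (c2 h).1 ↔ s = t ∨ s = y := by
  unfold c2 mk
  simp

private theorem mem_ins {c : Cq (sd G)} {y s : Cq G} (h : mx c ≤ y) :
    s ∈ (ins h).1 ↔ s = y ∨ s ∈ c.1 := by
  unfold ins mk
  simp

private theorem mx_c3 {t m y : Cq G} (h1 : t ≤ m) (h2 : m ≤ y) : mx (c3 h1 h2) = y := by
  refine mx_eq ((mem_c3 h1 h2).2 (Or.inr (Or.inr rfl))) fun s hs => ?_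
  rcases (mem_c3 h1 h2).1 hs with rfl | rfl | rfl
  · exact h1.trans h2
  · exact h2
  · exact le_rfl

private theorem mx_c2 {t y : Cq G} (h : t ≤ y) : mx (c2 h) = y := by
  refine mx_eq ((mem_c2 h).2 (Or.inr rfl)) fun s hs => ?_
  rcases (mem_c2 h).1 hs with rfl | rfl
  · exact h
  · exact le_rfl

private theorem mx_ins {c : Cq (sd G)} {y : Cq G} (h : mx c ≤ y) : mx (ins h) = y := by
  refine mx_eq ((mem_ins h).2 (Or.inl rfl)) fun s hs => ?_
  rcases (mem_ins h).1 hs with rfl | hs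
  · exact le_rfl
  · exact (le_mx c hs).trans h

/-- the chain `y \ A ≤ y` -/
private def sg (A : Set V) (y : Cq G) : Cq (sd G) := c2 (tr_le (M := Aᶜ) y)

private theorem mx_sg (y : Cq G) : mx (sg A y) = y := mx_c2 _

private theorem cv_of {c : Cq (sd G)} {y t : Cq G} (hy : y ∈ FrIn G S A) (hc : mx c = y)
    (ht : t ∈ c.1) (htA : t ∈ mi G Aᶜ) : c ∈ FrIn (sd G) (mi G S) (pl G A) := by
  subst hc
  exact mem_cv.2 ⟨hy.1.1, hy.1.2, t, ht, htA⟩

private theorem sg_mem {y : Cq G} (hy : y ∈ FrIn G S A) :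
    sg A y ∈ FrIn (sd G) (mi G S) (pl G A) :=
  cv_of hy (mx_sg y) ((mem_c2 _).2 (Or.inl rfl)) (tr_mem hy.2)

private theorem ins_mem {c : Cq (sd G)} {y : Cq G} (hy : y ∈ FrIn G S A)
    (hc : c ∈ FrIn (sd G) (mi G S) (pl G A)) (h : mx c ≤ y) :
    ins h ∈ FrIn (sd G) (mi G S) (pl G A) := by
  obtain ⟨-, -, t, ht, htA⟩ := mem_cv.1 hc
  exact cv_of hy (mx_ins h) ((mem_ins h).2 (Or.inr ht)) htA

private theorem le_ins {c : Cq (sd G)} {y : Cq G} (h : mx c ≤ y) : c ≤ ins h :=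
  Cq.le_iff.2 fun _ hs => (mem_ins h).2 (Or.inr hs)

/-- the chains with greatest element `y` are connected to `y \ A ≤ y` -/
private theorem fib_path {y : Cq G} (hy : y ∈ FrIn G S A) (F : Cq (sd G) → ZMod 2)
    (hF : ∀ c c' : Cq (sd G), c ∈ FrIn (sd G) (mi G S) (pl G A) →
      c' ∈ FrIn (sd G) (mi G S) (pl G A) → mx c = y → mx c' = y → c ≤ c' → F c = F c')
    {c : Cq (sd G)} (hc : c ∈ FrIn (sd G) (mi G S) (pl G A)) (hm : mx c = y) :
    F c = F (sg A y) := by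
  obtain ⟨-, -, t, ht, htA⟩ := mem_cv.1 hc
  have hty : t ≤ y := hm ▸ le_mx c ht
  have h1 : tr Aᶜ y ≤ y := tr_le y
  have htm : t ≤ tr Aᶜ y := by
    have h2 := tr_mono (M := Aᶜ) (mi_sub_pl htA) hty
    rwa [tr_id htA] at h2
  have e2 : c2 hty ∈ FrIn (sd G) (mi G S) (pl G A) :=
    cv_of hy (mx_c2 hty) ((mem_c2 hty).2 (Or.inl rfl)) htA
  have e3 : c3 htm h1 ∈ FrIn (sd G) (mi G S) (pl G A) :=
    cv_of hy (mx_c3 htm h1) ((mem_c3 htm h1).2 (Or.inl rfl)) htA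
  have l1 : c2 hty ≤ c := by
    refine Cq.le_iff.2 fun s hs => ?_
    rcases (mem_c2 hty).1 hs with rfl | rfl
    · exact ht
    · exact hm ▸ mx_mem c
  have l2 : c2 hty ≤ c3 htm h1 := by
    refine Cq.le_iff.2 fun s hs => (mem_c3 htm h1).2 ?_
    rcases (mem_c2 hty).1 hs with rfl | rfl
    · exact Or.inl rfl
    · exact Or.inr (Or.inr rfl)
  have l3 : sg A y ≤ c3 htm h1 := by
    refine Cq.le_iff.2 fun s hs => (mem_c3 htm h1).2 ?_
    rcases (mem_c2 _).1 hs with rfl | rfl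
    · exact Or.inr (Or.inl rfl)
    · exact Or.inr (Or.inr rfl)
  rw [← hF _ _ e2 hc (mx_c2 hty) hm l1, hF _ _ e2 e3 (mx_c2 hty) (mx_c3 htm h1) l2,
    hF _ _ (sg_mem hy) e3 (mx_sg y) (mx_c3 htm h1) l3]

private theorem lc_le {W : Type} {H : SimpleGraph W} {D : Set (Cq H)} {F : Cq H → ZMod 2}
    (hF : ∀ x y, EIn (sd H) D x y → F x = F y) {x y : Cq H} (hx : x ∈ D) (hy : y ∈ D)
    (h : x ≤ y) : F x = F y := by
  by_cases e : x = y
  · rw [e]
  · exact hF x y ⟨Or.inl (lt_of_le_of_ne h e), hx, hy⟩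

/-- the part of the curve over `D` -/
private def ov (G : SimpleGraph V) (S A : Set V) (D : Set (Cq G)) : Set (Cq (sd G)) :=
  {c | c ∈ FrIn (sd G) (mi G S) (pl G A) ∧ mx c ∈ D}

private theorem lc_sg {D : Set (Cq G)} (hD : D ⊆ FrIn G S A) {F : Cq (sd G) → ZMod 2}
    (hF : ∀ x y, EIn (sd (sd G)) (ov G S A D) x y → F x = F y) {c : Cq (sd G)}
    (hc : c ∈ ov G S A D) : F c = F (sg A (mx c)) :=
  fib_path (hD hc.2) F (fun _ _ h1 h2 e1 e2 hle =>
    lc_le hF ⟨h1, e1 ▸ hc.2⟩ ⟨h2, e2 ▸ hc.2⟩ hle) hc.1 rfl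

private theorem lc_sg_le {D : Set (Cq G)} (hD : D ⊆ FrIn G S A) {F : Cq (sd G) → ZMod 2}
    (hF : ∀ x y, EIn (sd (sd G)) (ov G S A D) x y → F x = F y) {y y' : Cq G}
    (hy : y ∈ D) (hy' : y' ∈ D) (h : y ≤ y') : F (sg A y) = F (sg A y') := by
  have hm : mx (sg A y) ≤ y' := (mx_sg y).le.trans h
  have h1 : sg A y ∈ ov G S A D := ⟨sg_mem (hD hy), (mx_sg y).symm ▸ hy⟩
  have h2 : ins hm ∈ ov G S A D := ⟨ins_mem (hD hy') h1.1 hm, (mx_ins hm).symm ▸ hy'⟩
  have h3 := lc_sg hD hF h2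
  rw [mx_ins hm] at h3
  rw [lc_le hF h1 h2 (le_ins hm), h3]

private theorem lc_sg_ein {D : Set (Cq G)} (hD : D ⊆ FrIn G S A) {F : Cq (sd G) → ZMod 2}
    (hF : ∀ x y, EIn (sd (sd G)) (ov G S A D) x y → F x = F y) {y y' : Cq G}
    (e : EIn (sd G) D y y') : F (sg A y) = F (sg A y') := by
  rcases e.1 with h | h
  · exact lc_sg_le hD hF e.2.1 e.2.2 h.le
  · exact (lc_sg_le hD hF e.2.2 e.2.1 h.le).symm

private theorem lc_mx {D : Set (Cq G)} {f : Cq G → ZMod 2}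
    (hf : ∀ x y, EIn (sd G) D x y → f x = f y) {c c' : Cq (sd G)}
    (e : EIn (sd (sd G)) (ov G S A D) c c') : f (mx c) = f (mx c') := by
  rcases e.1 with h | h
  · exact lc_le hf e.2.1.2 e.2.2.2 (mx_mono h.le)
  · exact (lc_le hf e.2.2.2 e.2.1.2 (mx_mono h.le)).symm

private theorem ov_Conn {D : Set (Cq G)} (hD : D ⊆ FrIn G S A) :
    Conn (sd (sd G)) (ov G S A D) ↔ Conn (sd G) D := by
  rw [Conn_iff, Conn_iff]
  constructor
  · rintro ⟨⟨c0, hc0⟩, h⟩
    refine ⟨⟨mx c0, hc0.2⟩, fun f hf x hx y hy => ?_⟩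
    have h1 := h (fun c => f (mx c)) (fun c c' e => lc_mx hf e) (sg A x)
      ⟨sg_mem (hD hx), (mx_sg x).symm ▸ hx⟩ (sg A y) ⟨sg_mem (hD hy), (mx_sg y).symm ▸ hy⟩
    simp only [mx_sg] at h1
    exact h1
  · rintro ⟨⟨y0, hy0⟩, h⟩
    refine ⟨⟨sg A y0, sg_mem (hD hy0), (mx_sg y0).symm ▸ hy0⟩, fun F hF c hc c' hc' => ?_⟩
    rw [lc_sg hD hF hc, lc_sg hD hF hc']
    exact h (fun y => F (sg A y)) (fun y y' e => lc_sg_ein hD hF e) _ hc.2 _ hc'.2

private theorem ov_all : ov G S A (FrIn G S A) = FrIn (sd G) (mi G S) (pl G A) :=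
  Set.Subset.antisymm (fun _ h => h.1) fun _ h => ⟨h, mx_curve h⟩

/-- ... and is connected iff the curve of `A` is.  Sketch: `fibd_Conn` for `mx`: the fibre
`{c | mx c ≤ y}` retracts by `c ↦ c ∪ {y}` and then by dropping the elements meeting `A` other than `y`
onto the chains in `{t | t ≤ y \ A}` (plus `y`). -/
theorem curve_Conn : Conn (sd (sd G)) (FrIn (sd G) (mi G S) (pl G A)) ↔
    Conn (sd G) (FrIn G S A) := by
  rw [← ov_all]
  exact ov_Conn subset_rfl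

/-- components of the curve correspond to components -/
theorem curve_comp {C : Set (Cq G)} (hC : IsComp (sd G) (FrIn G S A) C) :
    IsComp (sd (sd G)) (FrIn (sd G) (mi G S) (pl G A))
      {c | c ∈ FrIn (sd G) (mi G S) (pl G A) ∧ mx c ∈ C} := by
  refine IsComp_of ((ov_Conn hC.sub).2 hC.conn) (fun _ h => h.1) ?_
  rintro c hc c' ⟨hc', hn⟩ e
  have h1 : mx c' ∉ C := fun h => hn ⟨hc', h⟩
  have hne : mx c ≠ mx c' := fun h => h1 (h ▸ hc.2)
  refine hC.nadj _ hc.2 _ ⟨mx_curve hc', h1⟩ ?_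
  rcases e with h | h
  · exact Or.inl (lt_of_le_of_ne (mx_mono h.le) hne)
  · exact Or.inr (lt_of_le_of_ne (mx_mono h.le) hne.symm)

theorem curve_comp' {C' : Set (Cq (sd G))}
    (hC : IsComp (sd (sd G)) (FrIn (sd G) (mi G S) (pl G A)) C') :
    ∃ C, IsComp (sd G) (FrIn G S A) C ∧
      C' = {c | c ∈ FrIn (sd G) (mi G S) (pl G A) ∧ mx c ∈ C} := by
  obtain ⟨c, hc⟩ := hC.conn.1
  have hm := mx_curve (hC.sub hc)
  have h1 : IsComp (sd G) (FrIn G S A) (comp (sd G) (FrIn G S A) (mx c)) := ⟨_, hm, rfl⟩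
  exact ⟨_, h1, hC.eq_of_inter (curve_comp h1) ⟨c, hc, hC.sub hc, comp_self hm⟩⟩

theorem curve_b0 [Finite V] : b0 (sd (sd G)) (FrIn (sd G) (mi G S) (pl G A)) =
    b0 (sd G) (FrIn G S A) := by
  have hD : FrIn G S A ⊆ FrIn G S A := subset_rfl
  rw [← ov_all]
  let φ : Z0 (sd G) (FrIn G S A) →ₗ[ZMod 2] Z0 (sd (sd G)) (ov G S A (FrIn G S A)) :=
    { toFun := fun f => ⟨fun c => if c ∈ ov G S A (FrIn G S A) then f.1 (mx c) else 0, by
        refine mem_Z0.2 ⟨fun x hx => if_neg hx, fun x y e => ?_⟩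
        rw [if_pos e.2.1, if_pos e.2.2]
        exact lc_mx (mem_Z0.1 f.2).2 e⟩
      map_add' := by
        intro f g; ext x
        simp only [Submodule.coe_add, Pi.add_apply]
        split_ifs <;> simp
      map_smul' := by
        intro c f; ext x
        simp only [Submodule.coe_smul, Pi.smul_apply, RingHom.id_apply]
        split_ifs <;> simp }
  let ψ : Z0 (sd (sd G)) (ov G S A (FrIn G S A)) →ₗ[ZMod 2] Z0 (sd G) (FrIn G S A) :=
    { toFun := fun F => ⟨fun y => if y ∈ FrIn G S A then F.1 (sg A y) else 0, by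
        refine mem_Z0.2 ⟨fun x hx => if_neg hx, fun x y e => ?_⟩
        rw [if_pos e.2.1, if_pos e.2.2]
        exact lc_sg_ein hD (mem_Z0.1 F.2).2 e⟩
      map_add' := by
        intro f g; ext x
        simp only [Submodule.coe_add, Pi.add_apply]
        split_ifs <;> simp
      map_smul' := by
        intro c f; ext x
        simp only [Submodule.coe_smul, Pi.smul_apply, RingHom.id_apply]
        split_ifs <;> simp }
  have e : Z0 (sd (sd G)) (ov G S A (FrIn G S A)) ≃ₗ[ZMod 2] Z0 (sd G) (FrIn G S A) :=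
    LinearEquiv.ofLinearMap ψ φ (by
      ext f y
      change (if y ∈ FrIn G S A then
        (if sg A y ∈ ov G S A (FrIn G S A) then f.1 (mx (sg A y)) else 0) else 0) = f.1 y
      by_cases hy : y ∈ FrIn G S A
      · have h1 : sg A y ∈ ov G S A (FrIn G S A) := ⟨sg_mem hy, (mx_sg y).symm ▸ hy⟩
        rw [if_pos hy, if_pos h1, mx_sg]
      · rw [if_neg hy, (mem_Z0.1 f.2).1 y hy]) (by
      ext F c
      change (if c ∈ ov G S A (FrIn G S A) then
        (if mx c ∈ FrIn G S A then F.1 (sg A (mx c)) else 0) else 0) = F.1 c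
      by_cases hc : c ∈ ov G S A (FrIn G S A)
      · rw [if_pos hc, if_pos hc.2]
        exact (lc_sg hD (mem_Z0.1 F.2).2 hc).symm
      · rw [if_neg hc, (mem_Z0.1 F.2).1 c hc])
  exact LinearEquiv.finrank_eq e

/-! ## cocycles -/

private theorem z_self {W : Type} {H : SimpleGraph W} {D : Set (Cq H)}
    {a : Cq H → Cq H → ZMod 2} (ha : a ∈ Z1 (sd H) D) (x : Cq H) : a x x = 0 :=
  (mem_Z1.1 ha).1 x x (fun h => (sd H).loopless.irrefl x h.1)

private theorem ein_le {W : Type} {H : SimpleGraph W} {D : Set (Cq H)} {x y : Cq H}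
    (hx : x ∈ D) (hy : y ∈ D) (h : x ≤ y ∨ y ≤ x) (hne : x ≠ y) : EIn (sd H) D x y := by
  refine ⟨?_, hx, hy⟩
  rcases h with h | h
  · exact Or.inl (lt_of_le_of_ne h hne)
  · exact Or.inr (lt_of_le_of_ne h (Ne.symm hne))

private theorem z_tri {W : Type} {H : SimpleGraph W} {D : Set (Cq H)}
    {a : Cq H → Cq H → ZMod 2} (ha : a ∈ Z1 (sd H) D) {x y z : Cq H} (hx : x ∈ D) (hy : y ∈ D)
    (hz : z ∈ D) (hxy : x ≤ y ∨ y ≤ x) (hyz : y ≤ z ∨ z ≤ y) (hxz : x ≤ z ∨ z ≤ x) :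
    a x y + a y z = a x z := by
  by_cases e1 : x = y
  · subst e1; rw [z_self ha, zero_add]
  by_cases e2 : y = z
  · subst e2; rw [z_self ha, add_zero]
  by_cases e3 : x = z
  · subst e3; rw [z_self ha, (mem_Z1.1 ha).2.1 y x]; exact two_add _
  exact (mem_Z1.1 ha).2.2 x y z (ein_le hx hy hxy e1) (ein_le hy hz hyz e2)
    (ein_le hx hz hxz e3)

/-- the pull back along `pk` compared with the pull back along `mx` -/
private theorem upc_mx {a : Cq G → Cq G → ZMod 2} (ha : a ∈ Z1 (sd G) (mi G S))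
    {c c' : Cq (sd G)} (hc : c ∈ FrIn (sd G) (mi G S) (pl G A))
    (hc' : c' ∈ FrIn (sd G) (mi G S) (pl G A)) (e : (sd (sd G)).Adj c c') :
    upc (sd G) (mi G S) a c c' = a (pk c) (mx c) + a (mx c) (mx c') + a (pk c') (mx c') := by
  have m1 : pk c ∈ mi G S := hc.1.1 _ (pk_mem c)
  have m2 : mx c ∈ mi G S := hc.1.1 _ (mx_mem c)
  have m3 : pk c' ∈ mi G S := hc'.1.1 _ (pk_mem c')
  have m4 : mx c' ∈ mi G S := hc'.1.1 _ (mx_mem c')
  have key : ∃ d : Cq (sd G), pk c ∈ d.1 ∧ mx c ∈ d.1 ∧ pk c' ∈ d.1 ∧ mx c' ∈ d.1 := by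
    rcases e with h | h
    · have h1 := Cq.le_iff.1 h.le
      exact ⟨c', h1 (pk_mem c), h1 (mx_mem c), pk_mem c', mx_mem c'⟩
    · have h1 := Cq.le_iff.1 h.le
      exact ⟨c, pk_mem c, mx_mem c, h1 (pk_mem c'), h1 (mx_mem c')⟩
  obtain ⟨d, d1, d2, d3, d4⟩ := key
  have hu : upc (sd G) (mi G S) a c c' = a (pk c) (pk c') := by
    unfold upc
    rw [if_pos ⟨e, hc.1.1, hc'.1.1⟩]
    by_cases h : pk c = pk c'
    · rw [if_pos h, h, z_self ha]
    · rw [if_neg h]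
  rw [hu, ← z_tri ha m1 m2 m3 (ch_cm d d1 d2) (ch_cm d d2 d3) (ch_cm d d1 d3),
    ← z_tri ha m2 m4 m3 (ch_cm d d2 d4) (ch_cm d d4 d3) (ch_cm d d2 d3),
    (mem_Z1.1 ha).2.1 (mx c') (pk c'), add_assoc]

/-- a class of the surface on a circle and on its copy one level later -/
theorem curve_Triv {C : Set (Cq G)} (hC : IsComp (sd G) (FrIn G S A) C)
    {a : Cq G → Cq G → ZMod 2} (ha : a ∈ Z1 (sd G) (mi G S)) :
    Triv (sd (sd G)) {c | c ∈ FrIn (sd G) (mi G S) (pl G A) ∧ mx c ∈ C}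
      (upc (sd G) (mi G S) a) ↔ Triv (sd G) C a := by
  have hD := hC.sub
  have hs := (mem_Z1.1 ha).2.1
  constructor
  · rintro ⟨F, hF⟩
    have hG : ∀ c c', EIn (sd (sd G)) (ov G S A C) c c' →
        a (mx c) (mx c') = (F c + a (pk c) (mx c)) + (F c' + a (pk c') (mx c')) := by
      intro c c' e
      have h1 := hF c c' e
      rw [upc_mx ha e.2.1.1 e.2.2.1 e.1] at h1
      revert h1
      generalize a (mx c) (mx c') = p
      generalize a (pk c) (mx c) = q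
      generalize a (pk c') (mx c') = r
      generalize F c = s
      generalize F c' = t
      decide +revert
    have key : ∀ y ∈ C, ∀ y' ∈ C, y < y' → a y y' =
        (F (sg A y) + a (pk (sg A y)) (mx (sg A y))) +
        (F (sg A y') + a (pk (sg A y')) (mx (sg A y'))) := by
      intro y hy y' hy' h
      have hm : mx (sg A y) ≤ y' := (mx_sg y).le.trans h.le
      have h1 : sg A y ∈ ov G S A C := ⟨sg_mem (hD hy), (mx_sg y).symm ▸ hy⟩
      have h2 : ins hm ∈ ov G S A C := ⟨ins_mem (hD hy') h1.1 hm, (mx_ins hm).symm ▸ hy'⟩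
      have hne : sg A y ≠ ins hm := by
        intro e
        have e1 := congrArg mx e
        rw [mx_sg, mx_ins] at e1
        exact h.ne e1
      have h3 := hG _ _ (ein_le h1 h2 (Or.inl (le_ins hm)) hne)
      have h4 := fib_path (hD hy') (fun c => F c + a (pk c) (mx c)) (fun c c' k k' e e' hle => by
        by_cases hcc : c = c'
        · rw [hcc]
        · have h5 := hG c c' (ein_le ⟨k, e.symm ▸ hy'⟩ ⟨k', e'.symm ▸ hy'⟩ (Or.inl hle) hcc)
          rw [e, e', z_self ha] at h5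
          rw [e, e']
          exact (z2_eq _ _).1 h5.symm) h2.1 (mx_ins hm)
      rw [h4] at h3
      rw [mx_sg, mx_ins] at h3
      rw [mx_sg]
      exact h3
    refine ⟨fun y => F (sg A y) + a (pk (sg A y)) (mx (sg A y)), fun y y' e => ?_⟩
    rcases e.1 with h | h
    · exact key y e.2.1 y' e.2.2 h
    · rw [hs y y', key y' e.2.2 y e.2.1 h, add_comm]
  · rintro ⟨g, hg⟩
    refine ⟨fun c => g (mx c) + a (pk c) (mx c), fun c c' e => ?_⟩
    rw [upc_mx ha e.2.1.1 e.2.2.1 e.1]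
    have h1 : a (mx c) (mx c') = g (mx c) + g (mx c') := by
      by_cases h : mx c = mx c'
      · rw [h, z_self ha, two_add]
      · refine hg _ _ (ein_le e.2.1.2 e.2.2.2 ?_ h)
        rcases e.1 with h | h
        · exact Or.inl (mx_mono h.le)
        · exact Or.inr (mx_mono h.le)
    rw [h1]
    change _ = (g (mx c) + a (pk c) (mx c)) + (g (mx c') + a (pk c') (mx c'))
    generalize a (pk c) (mx c) = q
    generalize a (pk c') (mx c') = r
    generalize g (mx c) = s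
    generalize g (mx c') = t
    decide +revert

end MOT
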