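import Pool.Agent.MOT.Flp
import Pool.Agent.MOT.Cv
import Pool.Agent.MOT.Cpt
import Pool.Agent.MOT.MV
import Pool.Agent.MOT.Joi
import Pool.Agent.MOT.Dua
import Pool.Agent.MOT.SfE

/-!
# MOT/Stp: one pruning step (flip + main component), curves, pockets

`Q` is a wall with sides `P`, `N`; `D` a component of `M ∩ Q` with `HZ G D` and connected curve
`FrIn G Q D`.  For a component `D` of `Q \ M` apply everything to `Mᶜ` (`fill_eq`).
-/

open Classical

noncomputable section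

namespace MOT

variable {V : Type} {G : SimpleGraph V} {A B M S Q P N D : Set V}

private theorem clique_no {s : Cq G} {x y : V} (hx : x ∈ s.1) (hy : y ∈ s.1) (hxA : x ∈ A)
    (hyB : y ∈ B) (hd : Disjoint A B) (hn : NAdj G A B) : False := by
  have hne : x ≠ y := by
    rintro rfl
    exact Set.disjoint_left.1 hd hxA hyB
  exact hn x hxA y hyB (s.2.2 hx hy hne)

private theorem NAdj.symm' (h : NAdj G A B) : NAdj G B A := fun x hx y hy e => h y hy x hx e.symm

private theorem nadj_mono {A' B' : Set V} (h : NAdj G A B) (hA : A' ⊆ A) (hB : B' ⊆ B) :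
    NAdj G A' B' := fun x hx y hy e => h x (hA hx) y (hB hy) e

/-- components of `M ∩ Q` satisfy the hypotheses `hD`, `hn` of `Flp` -/
theorem comp_hyp (hD : IsComp G (M ∩ Q) D) : D ⊆ M ∩ Q ∧ NAdj G D ((M ∩ Q) \ D) :=
  ⟨hD.sub, hD.nadj⟩

/-! ## curves -/

/-- frontier of a non adjacent union inside a surface -/
theorem FrIn_union (hA : A ⊆ S) (hB : B ⊆ S) (hd : Disjoint A B) (hn : NAdj G A B) :
    FrIn G S (A ∪ B) = FrIn G S A ∪ FrIn G S B ∧ Disjoint (FrIn G S A) (FrIn G S B) ∧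
      NAdj (sd G) (FrIn G S A) (FrIn G S B) := by
  have aux : ∀ {A B : Set V}, Disjoint A B → NAdj G A B → ∀ s : Cq G, s ∈ mi G S → s ∈ pl G A →
      s ∈ pl G Aᶜ → s ∈ FrIn G S (A ∪ B) := by
    rintro A B hd hn s h1 ⟨x, hx, hxA⟩ ⟨y, hy, hyA⟩
    refine ⟨⟨h1, x, hx, Or.inl hxA⟩, y, hy, ?_⟩
    rintro (h | h)
    · exact hyA h
    · exact clique_no hx hy hxA h hd hn
  refine ⟨?_, ?_, ?_⟩
  · ext s
    constructor
    · rintro ⟨⟨h1, x, hx, hxA | hxB⟩, y, hy, hyAB⟩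
      · exact Or.inl ⟨⟨h1, x, hx, hxA⟩, y, hy, fun h => hyAB (Or.inl h)⟩
      · exact Or.inr ⟨⟨h1, x, hx, hxB⟩, y, hy, fun h => hyAB (Or.inr h)⟩
    · rintro (⟨⟨h1, h2⟩, h3⟩ | ⟨⟨h1, h2⟩, h3⟩)
      · exact aux hd hn s h1 h2 h3
      · rw [Set.union_comm]
        exact aux hd.symm (NAdj.symm' hn) s h1 h2 h3
  · rw [Set.disjoint_left]
    rintro s ⟨⟨_, x, hx, hxA⟩, _⟩ ⟨⟨_, y, hy, hyB⟩, _⟩
    exact clique_no hx hy hxA hyB hd hn
  · rintro s ⟨⟨_, x, hx, hxA⟩, _⟩ t ⟨⟨_, y, hy, hyB⟩, _⟩ (e | e)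
    · exact clique_no (s := t) (Cq.le_iff.1 e.le hx) hy hxA hyB hd hn
    · exact clique_no (s := s) hx (Cq.le_iff.1 e.le hy) hxA hyB hd hn

theorem cut_curves (hD : D ⊆ M ∩ Q) (hn : NAdj G D ((M ∩ Q) \ D)) :
    FrIn (sd G) (mi G Q) (cut G Q M D) = FrIn (sd G) (mi G Q) (pl G ((M ∩ Q) \ D)) := by
  refine FrIn_congr ?_
  rw [cut_trace hD hn, Set.inter_comm]

private theorem FrIn_split (hD : D ⊆ M ∩ Q) (hn : NAdj G D ((M ∩ Q) \ D)) :
    FrIn G Q M = FrIn G Q D ∪ FrIn G Q ((M ∩ Q) \ D) ∧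
      Disjoint (FrIn G Q D) (FrIn G Q ((M ∩ Q) \ D)) ∧
      NAdj (sd G) (FrIn G Q D) (FrIn G Q ((M ∩ Q) \ D)) := by
  obtain ⟨h1, h2, h3⟩ := FrIn_union (G := G) (S := Q) (A := D) (B := (M ∩ Q) \ D)
    (fun x hx => (hD hx).2) (fun x hx => hx.1.2) Set.disjoint_sdiff_right hn
  refine ⟨?_, h2, h3⟩
  rw [← h1, Set.union_diff_cancel hD]
  exact FrIn_congr (by rw [Set.inter_assoc, Set.inter_self])

/-- the number of curves on the wall drops by the number of curves of `D` -/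
theorem cut_kk [Finite V] (hD : D ⊆ M ∩ Q) (hn : NAdj G D ((M ∩ Q) \ D)) :
    b0 (sd (sd G)) (FrIn (sd G) (mi G Q) (cut G Q M D)) + b0 (sd G) (FrIn G Q D) =
      b0 (sd G) (FrIn G Q M) := by
  obtain ⟨h1, h2, h3⟩ := FrIn_split hD hn
  rw [cut_curves hD hn, curve_b0, h1, b0_disj h2 h3, add_comm]

/-- a part `C` of `R`, not adjacent to the rest: its curves are curves of `R` -/
theorem part_curves {R C : Set V} (hC : C ⊆ R) (hn : NAdj G C (R \ C)) :
    FrIn G S C = FrIn G S R ∩ pl G C ∧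
      NAdj (sd G) (FrIn G S C) (FrIn G S R \ FrIn G S C) := by
  have h1 : FrIn G S C = FrIn G S R ∩ pl G C := by
    ext s
    constructor
    · rintro ⟨⟨h1, x, hx, hxC⟩, y, hy, hyC⟩
      refine ⟨⟨⟨h1, x, hx, hC hxC⟩, y, hy, fun hyR => ?_⟩, x, hx, hxC⟩
      exact clique_no hx hy hxC (⟨hyR, hyC⟩ : y ∈ R \ C) Set.disjoint_sdiff_right hn
    · rintro ⟨⟨⟨h1, _⟩, y, hy, hyR⟩, h2⟩
      exact ⟨⟨h1, h2⟩, y, hy, fun h => hyR (hC h)⟩
  refine ⟨h1, ?_⟩
  rintro s ⟨⟨_, x, hx, hxC⟩, _⟩ t ⟨ht, ht'⟩ e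
  have htC : t ∉ pl G C := fun h => ht' (by rw [h1]; exact ⟨ht, h⟩)
  rcases e with e | e
  · exact htC ⟨x, Cq.le_iff.1 e.le hx, hxC⟩
  · obtain ⟨⟨_, z, hz, hzR⟩, _⟩ := ht
    have hzC : z ∉ C := fun h => htC ⟨z, hz, h⟩
    exact clique_no (s := s) hx (Cq.le_iff.1 e.le hz) hxC (⟨hzR, hzC⟩ : z ∈ R \ C)
      Set.disjoint_sdiff_right hn

theorem part_kk [Finite V] {R C : Set V} (hC : C ⊆ R) (hn : NAdj G C (R \ C)) :
    b0 (sd G) (FrIn G S C) ≤ b0 (sd G) (FrIn G S R) := by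
  obtain ⟨h1, h2⟩ := part_curves (S := S) hC hn
  have hs : FrIn G S C ⊆ FrIn G S R := by
    rw [h1]; exact Set.inter_subset_left
  have h3 := b0_disj (G := sd G) (A := FrIn G S C) (B := FrIn G S R \ FrIn G S C)
    Set.disjoint_sdiff_right h2
  rw [Set.union_diff_cancel hs] at h3
  omega

private theorem comp_of_part {R' C' g : Set V} (hs : C' ⊆ R') (hn : NAdj G C' (R' \ C'))
    (hg : IsComp G C' g) : IsComp G R' g := by
  refine IsComp_of hg.conn (hg.sub.trans hs) fun x hx z hz e => ?_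
  by_cases h : z ∈ C'
  · exact hg.nadj x hx z ⟨h, hz.2⟩ e
  · exact hn x (hg.sub hx) z ⟨hz.1, h⟩ e

/-- every curve of a component `C` of the new region on the wall is (the copy one level later of) an
old curve, different from the curves of `D` -/
theorem old_curve (hD : D ⊆ M ∩ Q) (hn : NAdj G D ((M ∩ Q) \ D)) {C : Set (Cq G)}
    (hC : C ⊆ cut G Q M D) (hCn : NAdj (sd G) C (cut G Q M D \ C))
    {g : Set (Cq (sd G))} (hg : IsComp (sd (sd G)) (FrIn (sd G) (mi G Q) C) g) :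
    ∃ g0 : Set (Cq G), IsComp (sd G) (FrIn G Q M) g0 ∧ Disjoint g0 (FrIn G Q D) ∧
      g = {c | c ∈ FrIn (sd G) (mi G Q) (pl G ((M ∩ Q) \ D)) ∧ mx c ∈ g0} := by
  obtain ⟨h1, h2⟩ := part_curves (G := sd G) (S := mi G Q) hC hCn
  have hs : FrIn (sd G) (mi G Q) C ⊆ FrIn (sd G) (mi G Q) (cut G Q M D) := by
    rw [h1]; exact Set.inter_subset_left
  have hg' := comp_of_part hs h2 hg
  rw [cut_curves hD hn] at hg'
  obtain ⟨g0, hg0, e⟩ := curve_comp' hg'
  obtain ⟨k1, k2, k3⟩ := FrIn_split hD hn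
  have hs' : FrIn G Q ((M ∩ Q) \ D) ⊆ FrIn G Q M := by
    rw [k1]; exact Set.subset_union_right
  refine ⟨g0, comp_of_part hs' ?_ hg0, ?_, e⟩
  · refine NAdj.symm' (nadj_mono k3 ?_ subset_rfl)
    rintro x ⟨hx, hx'⟩
    rw [k1] at hx
    exact hx.resolve_right hx'
  · exact (k2.mono_right hg0.sub).symm

/-! ## the step -/

/-- the two cases after a flip of a disc with nonempty connected curve, `M` connected:
either the new region is connected, or it has exactly two components, one on each side of `D` -/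
theorem flip_cases [Finite V] (w : Wall G Q P N) (hD : IsComp G (M ∩ Q) D) (hM : Conn G M) :
    Conn (sd G) (cut G Q M D) ∨
    ∃ C C' : Set (Cq G), IsComp (sd G) (cut G Q M D) C ∧ IsComp (sd G) (cut G Q M D) C' ∧
      C ∪ C' = cut G Q M D ∧ Disjoint C C' ∧ NAdj (sd G) C C' ∧
      sidp G Q P D ⊆ C ∧ sidp G Q N D ⊆ C' := by
  have hDQ : D ⊆ Q := fun x hx => (hD.sub hx).2
  obtain ⟨cP, cN⟩ := sidp_Conn w hDQ hD.conn
  obtain ⟨sP, sN⟩ := sidp_cut w hD.sub
  obtain ⟨p, hp⟩ := cP.1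
  obtain ⟨q, hq⟩ := cN.1
  have hC : IsComp (sd G) (cut G Q M D) (comp (sd G) (cut G Q M D) p) := ⟨p, sP hp, rfl⟩
  have hC' : IsComp (sd G) (cut G Q M D) (comp (sd G) (cut G Q M D) q) := ⟨q, sN hq, rfl⟩
  have hPC := hC.absorb cP sP ⟨p, hp, comp_self (sP hp)⟩
  have hNC := hC'.absorb cN sN ⟨q, hq, comp_self (sN hq)⟩
  generalize comp (sd G) (cut G Q M D) p = C at hC hPC
  generalize comp (sd G) (cut G Q M D) q = C' at hC' hNC
  have hall : ∀ x ∈ cut G Q M D, x ∈ C ∨ x ∈ C' := by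
    intro x hx
    have hx' : IsComp (sd G) (cut G Q M D) (comp (sd G) (cut G Q M D) x) := ⟨x, hx, rfl⟩
    rcases flip_comp w hD.sub hD.nadj hD.conn hM hx' with h | h
    · left
      rw [← hx'.eq_of_inter hC ⟨p, h hp, hPC hp⟩]
      exact comp_self hx
    · right
      rw [← hx'.eq_of_inter hC' ⟨q, h hq, hNC hq⟩]
      exact comp_self hx
  by_cases e : C = C'
  · left
    have : cut G Q M D = C := by
      refine Set.Subset.antisymm (fun x hx => ?_) hC.sub
      rcases hall x hx with h | h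
      · exact h
      · rw [e]; exact h
    rw [this]
    exact hC.conn
  · right
    have hd : Disjoint C C' := by
      rw [Set.disjoint_iff_inter_eq_empty]
      by_contra hne
      exact e (hC.eq_of_inter hC' (Set.nonempty_iff_ne_empty.2 hne))
    refine ⟨C, C', hC, hC', ?_, hd, ?_, hPC, hNC⟩
    · refine Set.Subset.antisymm (Set.union_subset hC.sub hC'.sub) fun x hx => hall x hx
    · exact nadj_mono hC.nadj subset_rfl fun x hx =>
        ⟨hC'.sub hx, fun h => Set.disjoint_left.1 hd h hx⟩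

/-- case 1: `b1` drops by one -/
theorem flip_one [Finite V] (w : Wall G Q P N) (hD : IsComp G (M ∩ Q) D) (hz : HZ G D)
    (hM : Conn G M) (h1 : Conn (sd G) (cut G Q M D)) :
    b1 (sd G) (cut G Q M D) + 1 = b1 G M := by
  have h := flip_b1 w hD.sub hD.nadj hD.conn hz
  rw [b0_eq_one.2 hM, b0_eq_one.2 h1] at h
  omega

/-- case 2: `b1` is distributed -/
theorem flip_two [Finite V] (w : Wall G Q P N) (hD : IsComp G (M ∩ Q) D) (hz : HZ G D)
    (hM : Conn G M) {C C' : Set (Cq G)} (hC : IsComp (sd G) (cut G Q M D) C)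
    (hC' : IsComp (sd G) (cut G Q M D) C') (hu : C ∪ C' = cut G Q M D) (hd : Disjoint C C') :
    b1 (sd G) C + b1 (sd G) C' = b1 G M := by
  have h := flip_b1 w hD.sub hD.nadj hD.conn hz
  have hn : NAdj (sd G) C C' := nadj_mono hC.nadj subset_rfl fun x hx =>
        ⟨hC'.sub hx, fun h => Set.disjoint_left.1 hd h hx⟩
  rw [b0_eq_one.2 hM, ← hu, b0_disj hd hn, b1_disj hd hn, b0_eq_one.2 hC.conn,
    b0_eq_one.2 hC'.conn] at h
  omega

/-- a point of a side of `D` has a neighbour in the sheet -/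
private theorem side_nbr (w : Wall G Q P N) (hDQ : D ⊆ Q) {s : Cq G} (hs : s ∈ sidp G Q P D) :
    ∃ t ∈ sheet G Q D, t < s := by
  obtain ⟨⟨x, hx, hxD⟩, ⟨y, hy, hyQ⟩, hP⟩ := hs
  have hQ : s ∈ pl G Q := ⟨x, hx, hDQ hxD⟩
  refine ⟨tr Q s, ⟨tr_mem hQ, x, ?_, hxD⟩, lt_of_le_of_ne (tr_le s) ?_⟩
  · rw [tr_val hQ, Finset.mem_filter]
    exact ⟨hx, hDQ hxD⟩
  · intro e
    have := tr_mem hQ y (by rw [e]; exact hy)
    exact hyQ this

private theorem comp_conn_eq {R' C' : Set V} (hC : IsComp G R' C') (h : Conn G R') : C' = R' := by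
  obtain ⟨x, hx⟩ := hC.conn.1
  exact Set.Subset.antisymm hC.sub (hC.absorb h subset_rfl ⟨x, hC.sub hx, hx⟩)

private theorem compl_split {R' C' : Set V} (hs : C' ⊆ R') : C'ᶜ = R'ᶜ ∪ (R' \ C') := by
  ext x
  constructor
  · intro hx
    by_cases h : x ∈ R'
    · exact Or.inr ⟨h, hx⟩
    · exact Or.inl h
  · rintro (h | h)
    · exact fun h' => h (hs h')
    · exact h.2

/-- the complement of a component of the new region is connected -/
theorem step_compl_Conn [Finite V] (w : Wall G Q P N) (hD : IsComp G (M ∩ Q) D)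
    (hM : Conn G M) (hM' : Conn G Mᶜ) (hF : (FrIn G Q D).Nonempty) {C : Set (Cq G)}
    (hC : IsComp (sd G) (cut G Q M D) C) : Conn (sd G) Cᶜ := by
  have hDQ : D ⊆ Q := fun x hx => (hD.sub hx).2
  have hc := flip_compl_Conn hD.sub hD.nadj hD.conn hM' hF
  rw [compl_split hC.sub]
  have sh : sheet G Q D ⊆ (cut G Q M D)ᶜ := fun s hs h => h.2 hs
  rcases flip_cases w hD hM with h1 | ⟨C1, C2, k1, k2, ku, kd, kn, kP, kN⟩
  · rw [comp_conn_eq hC h1, Set.diff_self, Set.union_empty]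
    exact hc
  · have hside := sidp_Conn w hDQ hD.conn
    obtain ⟨x, hx⟩ := hC.conn.1
    have hx' := hC.sub hx
    rw [← ku] at hx'
    have fin : ∀ {C3 C4 : Set (Cq G)}, IsComp (sd G) (cut G Q M D) C4 →
        C3 ∪ C4 = cut G Q M D → Disjoint C3 C4 → C = C3 →
        (∃ s ∈ C4, ∃ t ∈ sheet G Q D, t < s) →
        Conn (sd G) ((cut G Q M D)ᶜ ∪ (cut G Q M D) \ C) := by
      rintro C3 C4 h4 hu hd rfl ⟨s, hs, t, ht, hts⟩
      have e : cut G Q M D \ C = C4 := by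
        rw [← hu, Set.union_diff_left]
        exact hd.sdiff_eq_right
      rw [e]
      exact conn_union_adj hc h4.conn (sh ht) hs (Or.inl hts)
    rcases hx' with h | h
    · refine fin k2 ku kd (hC.eq_of_inter k1 ⟨x, hx, h⟩) ?_
      obtain ⟨s, hs⟩ := hside.2.1
      obtain ⟨t, ht, hts⟩ := side_nbr w.swap hDQ hs
      exact ⟨s, kN hs, t, ht, hts⟩
    · refine fin k1 (by rw [Set.union_comm]; exact ku) kd.symm
        (hC.eq_of_inter k2 ⟨x, hx, h⟩) ?_
      obtain ⟨s, hs⟩ := hside.1.1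
      obtain ⟨t, ht, hts⟩ := side_nbr w hDQ hs
      exact ⟨s, kP hs, t, ht, hts⟩

/-- restriction of classes from the new complement to the old one is injective -/
theorem step_Inj [Finite V] (h : IsSph3 G) (hD : IsComp G (M ∩ Q) D) (hz : HZ G D)
    (hF : FrIn G Q D = ∅ ∨ Conn (sd G) (FrIn G Q D)) {C : Set (Cq G)}
    (hC : IsComp (sd G) (cut G Q M D) C) : Inj (sd G) Cᶜ (mi G Mᶜ) := by
  have h1 := flip_Inj hD.sub hD.nadj hD.conn hz hF
  have hm : mi G Mᶜ ⊆ (cut G Q M D)ᶜ := by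
    intro s hs hc
    obtain ⟨x, hx, hxM⟩ := hc.1
    exact hs x hx hxM
  have hdd : cut G Q M D \ (cut G Q M D \ C) = C := Set.diff_diff_cancel_left hC.sub
  have h2 := main_Inj (G := sd G) (M := cut G Q M D) (A := cut G Q M D \ C) (sd_sph3 h).hz
    Set.diff_subset (by rw [hdd]; exact NAdj.symm' hC.nadj)
  rw [← compl_split hC.sub] at h2
  have hcc : (cut G Q M D)ᶜ ⊆ Cᶜ := Set.compl_subset_compl.2 hC.sub
  intro a ha t
  refine h2 a ha ?_
  refine Triv_rs.1 (h1 _ (rs_mem hcc ha) ?_)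
  exact t.congr fun x y e => (rs_apply (e.mono hm)).symm

theorem step_b1_compl [Finite V] (h : IsSph3 G) (hD : IsComp G (M ∩ Q) D) (hz : HZ G D)
    (hF : FrIn G Q D = ∅ ∨ Conn (sd G) (FrIn G Q D)) {C : Set (Cq G)}
    (hC : IsComp (sd G) (cut G Q M D) C) : b1 (sd G) Cᶜ ≤ b1 G Mᶜ := by
  rw [← sd_b1 (A := Mᶜ)]
  refine (step_Inj h hD hz hF hC).le ?_
  intro s hs hc
  obtain ⟨x, hx, hxM⟩ := (hC.sub hc).1
  exact hs x hx hxM

private theorem zero_ext {R' C' : Set V} (hs : C' ⊆ R') (hn : NAdj G C' (R' \ C'))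
    {b : V → V → ZMod 2} (hb : b ∈ Z1 G C') : b ∈ Z1 G R' := by
  obtain ⟨h0, hsy, hc⟩ := mem_Z1.1 hb
  refine mem_Z1.2 ⟨fun x y h => h0 x y fun h' => h (h'.mono hs), hsy, ?_⟩
  intro x y z e1 e2 e3
  have cl : ∀ u v, EIn G R' u v → u ∈ C' → v ∈ C' := by
    intro u v e hu
    by_contra hv
    exact hn u hu v ⟨e.2.2, hv⟩ e.1
  by_cases hx : x ∈ C'
  · have hy := cl x y e1 hx
    have hz' := cl x z e3 hx
    exact hc x y z ⟨e1.1, hx, hy⟩ ⟨e2.1, hy, hz'⟩ ⟨e3.1, hx, hz'⟩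
  · have hy : y ∉ C' := fun h => hx (cl y x e1.symm h)
    rw [h0 x y fun h' => hx h'.2.1, h0 y z fun h' => hy h'.2.1,
      h0 x z fun h' => hx h'.2.1, add_zero]

/-- every class of the new region is the restriction of a class of the old one -/
private theorem step_Surj' [Finite V] (w : Wall G Q P N) (hD : IsComp G (M ∩ Q) D)
    (hz : HZ G D) {C : Set (Cq G)} (hC : IsComp (sd G) (cut G Q M D) C) :
    Surj (sd G) (pl G M) C := by
  intro b hb
  obtain ⟨a, ha, t⟩ := flip_Surj w hD.sub hD.nadj hz b (zero_ext hC.sub hC.nadj hb)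
  exact ⟨a, ha, t.mono hC.sub⟩

theorem step_bb [Finite V] (h : IsSph3 G) (w : Wall G Q P N) (hD : IsComp G (M ∩ Q) D)
    (hz : HZ G D) (hF : FrIn G Q D = ∅ ∨ Conn (sd G) (FrIn G Q D)) {C : Set (Cq G)}
    (hC : IsComp (sd G) (cut G Q M D) C) : bb (sd G) C ≤ bb G M := by
  unfold bb
  refine Nat.add_le_add ?_ (step_b1_compl h hD hz hF hC)
  rw [← bt_b1 (M := M) (N := pl G M) mi_sub_pl subset_rfl]
  refine (step_Surj' w hD hz hC).le fun s hs => (hC.sub hs).1

/-- the number of curves on the wall drops -/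
theorem step_kk [Finite V] (hD : IsComp G (M ∩ Q) D)
    (hF : Conn (sd G) (FrIn G Q D)) {C : Set (Cq G)} (hC : IsComp (sd G) (cut G Q M D) C) :
    b0 (sd (sd G)) (FrIn (sd G) (mi G Q) C) < b0 (sd G) (FrIn G Q M) := by
  have h1 := part_kk (G := sd G) (S := mi G Q) hC.sub hC.nadj
  have h2 := cut_kk hD.sub hD.nadj
  rw [b0_eq_one.2 hF] at h2
  omega

/-- every class of the new region is the restriction of a class of the old one -/
theorem step_Surj [Finite V] (w : Wall G Q P N) (hD : IsComp G (M ∩ Q) D) (hz : HZ G D)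
    {C : Set (Cq G)} (hC : IsComp (sd G) (cut G Q M D) C) : Surj (sd G) (pl G M) C :=
  step_Surj' w hD hz hC

/-! ## the crossing cocycle of `D` -/

/-- `[D]`: `1` on the edges between the sheet and its `P`-side -/
def crs (G : SimpleGraph V) (Q P D : Set V) : Cq G → Cq G → ZMod 2 := fun s t =>
  if (s ∈ sheet G Q D ∧ t ∈ sidp G Q P D ∧ s < t) ∨ (t ∈ sheet G Q D ∧ s ∈ sidp G Q P D ∧ t < s)
  then 1 else 0

private theorem crs_val {s t : Cq G} (e : (sd G).Adj s t) : crs G Q P D s t =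
    if (s ∈ sheet G Q D ∧ t ∈ sidp G Q P D) ∨ (t ∈ sheet G Q D ∧ s ∈ sidp G Q P D)
    then 1 else 0 := by
  have key : ∀ {s t : Cq G}, (sd G).Adj s t → s ∈ sheet G Q D → t ∈ sidp G Q P D → s < t := by
    intro s t e hs ht
    rcases e with e | e
    · exact e
    · exfalso
      obtain ⟨y, hy, hyQ⟩ := ht.2.1
      exact hyQ (hs.1 y (Cq.le_iff.1 e.le hy))
  unfold crs
  refine if_congr ?_ rfl rfl
  constructor
  · rintro (h | h)
    · exact Or.inl ⟨h.1, h.2.1⟩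
    · exact Or.inr ⟨h.1, h.2.1⟩
  · rintro (h | h)
    · exact Or.inl ⟨h.1, h.2, key e h.1 h.2⟩
    · exact Or.inr ⟨h.1, h.2, key e.symm h.1 h.2⟩

private theorem sheet_sidp {s : Cq G} (h1 : s ∈ sheet G Q D) (h2 : s ∈ sidp G Q P D) : False := by
  obtain ⟨y, hy, hyQ⟩ := h2.2.1
  exact hyQ (h1.1 y hy)

private theorem crs_third (w : Wall G Q P N) (hD : IsComp G (M ∩ Q) D) {s t r : Cq G}
    (hr : r ∈ pl G M) (e1 : (sd G).Adj s r) (e2 : (sd G).Adj t r)
    (hs : s ∈ sheet G Q D) (ht : t ∈ sidp G Q P D) :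
    r ∈ sheet G Q D ∨ r ∈ sidp G Q P D := by
  rcases e1 with e1 | e1
  · -- `s < r`
    obtain ⟨x, hx, hxD⟩ := hs.2
    have hrD : r ∈ pl G D := ⟨x, Cq.le_iff.1 e1.le hx, hxD⟩
    by_cases hrQ : r ∈ mi G Q
    · exact Or.inl ⟨hrQ, hrD⟩
    · rcases w.side hrQ with h | h
      · exact Or.inr ⟨hrD, h⟩
      · exact ((sidp_nadj w).1 t ht r ⟨hrD, h⟩ e2).elim
  · -- `r < s`
    left
    have hrQ : r ∈ mi G Q := fun x hx => hs.1 x (Cq.le_iff.1 e1.le hx)
    refine ⟨hrQ, ?_⟩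
    obtain ⟨x, hx, hxM⟩ := hr
    obtain ⟨y, hy, hyD⟩ := hs.2
    refine ⟨x, hx, ?_⟩
    by_contra hxD
    exact clique_no (s := s) hy (Cq.le_iff.1 e1.le hx) hyD
      (⟨⟨hxM, hrQ x hx⟩, hxD⟩ : x ∈ (M ∩ Q) \ D) Set.disjoint_sdiff_right hD.nadj

private theorem crs_alg (a1 a2 b1 b2 c1 c2 : Prop) (dx : ¬ (a1 ∧ a2)) (dy : ¬ (b1 ∧ b2))
    (dz : ¬ (c1 ∧ c2)) (t1 : a1 → b2 → c1 ∨ c2) (t2 : b1 → a2 → c1 ∨ c2)
    (t3 : b1 → c2 → a1 ∨ a2) (t4 : c1 → b2 → a1 ∨ a2) (t5 : a1 → c2 → b1 ∨ b2)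
    (t6 : c1 → a2 → b1 ∨ b2) :
    (if (a1 ∧ b2) ∨ (b1 ∧ a2) then (1 : ZMod 2) else 0) +
      (if (b1 ∧ c2) ∨ (c1 ∧ b2) then 1 else 0) = if (a1 ∧ c2) ∨ (c1 ∧ a2) then 1 else 0 := by
  have h11 : (1 : ZMod 2) + 1 = 0 := by decide
  by_cases ha1 : a1 <;> by_cases ha2 : a2 <;> by_cases hb1 : b1 <;> by_cases hb2 : b2 <;>
    by_cases hc1 : c1 <;> by_cases hc2 : c2 <;> simp_all

theorem crs_mem (w : Wall G Q P N) (hD : IsComp G (M ∩ Q) D) :
    crs G Q P D ∈ Z1 (sd G) (pl G M) := by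
  have hDM : pl G D ⊆ pl G M := pl_mono fun x hx => (hD.sub hx).1
  refine mem_Z1.2 ⟨fun s t h => ?_, fun s t => ?_, fun x y z e1 e2 e3 => ?_⟩
  · unfold crs
    refine if_neg ?_
    rintro (⟨h1, h2, h3⟩ | ⟨h1, h2, h3⟩)
    · exact h ⟨Or.inl h3, hDM h1.2, hDM h2.1⟩
    · exact h ⟨Or.inr h3, hDM h2.1, hDM h1.2⟩
  · unfold crs
    exact if_congr Or.comm rfl rfl
  · rw [crs_val e1.1, crs_val e2.1, crs_val e3.1]
    have dx : ¬ (x ∈ sheet G Q D ∧ x ∈ sidp G Q P D) := fun h => sheet_sidp h.1 h.2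
    have dy : ¬ (y ∈ sheet G Q D ∧ y ∈ sidp G Q P D) := fun h => sheet_sidp h.1 h.2
    have dz : ¬ (z ∈ sheet G Q D ∧ z ∈ sidp G Q P D) := fun h => sheet_sidp h.1 h.2
    have t1 : x ∈ sheet G Q D → y ∈ sidp G Q P D → z ∈ sheet G Q D ∨ z ∈ sidp G Q P D :=
      crs_third w hD e2.2.2 e3.1 e2.1
    have t2 : y ∈ sheet G Q D → x ∈ sidp G Q P D → z ∈ sheet G Q D ∨ z ∈ sidp G Q P D :=
      crs_third w hD e2.2.2 e2.1 e3.1
    have t3 : y ∈ sheet G Q D → z ∈ sidp G Q P D → x ∈ sheet G Q D ∨ x ∈ sidp G Q P D :=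
      crs_third w hD e1.2.1 e1.1.symm e3.1.symm
    have t4 : z ∈ sheet G Q D → y ∈ sidp G Q P D → x ∈ sheet G Q D ∨ x ∈ sidp G Q P D :=
      crs_third w hD e1.2.1 e3.1.symm e1.1.symm
    have t5 : x ∈ sheet G Q D → z ∈ sidp G Q P D → y ∈ sheet G Q D ∨ y ∈ sidp G Q P D :=
      crs_third w hD e1.2.2 e1.1 e2.1.symm
    have t6 : z ∈ sheet G Q D → x ∈ sidp G Q P D → y ∈ sheet G Q D ∨ y ∈ sidp G Q P D :=
      crs_third w hD e1.2.2 e2.1.symm e1.1
    exact crs_alg _ _ _ _ _ _ dx dy dz t1 t2 t3 t4 t5 t6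

/-- `[D]` is trivial on `pl M` iff the two sides of `D` are in different components of the cut region
(`M` connected) -/
theorem crs_Triv [Finite V] (w : Wall G Q P N) (hD : IsComp G (M ∩ Q) D) (hM : Conn G M) :
    Triv (sd G) (pl G M) (crs G Q P D) ↔ ¬ Conn (sd G) (cut G Q M D) := by
  have hDQ : D ⊆ Q := fun x hx => (hD.sub hx).2
  have hDM : pl G D ⊆ pl G M := pl_mono fun x hx => (hD.sub hx).1
  constructor
  · rintro ⟨f, hf⟩ hc
    -- `f` is constant on the cut region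
    have hconst : ∀ x ∈ cut G Q M D, ∀ y ∈ cut G Q M D, f x = f y := by
      intro x hx y hy
      refine hc.const (fun u v e => ?_) hx hy
      have h1 := hf u v (e.mono fun s hs => hs.1)
      rw [crs_val e.1, if_neg] at h1
      · exact (z2_eq _ _).1 h1.symm
      · rintro (h | h)
        · exact e.2.1.2 h.1
        · exact e.2.2.2 h.1
    obtain ⟨sP, sN⟩ := sidp_cut w hD.sub
    obtain ⟨x, hx⟩ := hD.conn.1
    have hxQ : x ∈ Q := hDQ hx
    have hcl : G.IsClique ((({x} : Finset V)) : Set V) := by simp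
    have hsub : ((({x} : Finset V)) : Set V) ⊆ Q := by
      intro y hy
      have : y = x := by simpa using hy
      rw [this]; exact hxQ
    obtain ⟨u, hu⟩ := (w.hp {x} (Finset.singleton_nonempty x) hcl hsub).1.1
    obtain ⟨v, hv⟩ := (w.hn {x} (Finset.singleton_nonempty x) hcl hsub).1.1
    have eu : G.Adj x u := hu.1 x (by simp)
    have ev : G.Adj x v := hv.1 x (by simp)
    have huQ : u ∉ Q := fun h => Set.disjoint_left.1 w.dqp h hu.2
    have hvQ : v ∉ Q := fun h => Set.disjoint_left.1 w.dqn h hv.2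
    have hsx : vx G x ∈ sheet G Q D := by
      refine ⟨fun y hy => ?_, x, by simp [vx], hx⟩
      have : y = x := by simpa [vx] using hy
      rw [this]; exact hxQ
    have hU : eg G eu ∈ sidp G Q P D := by
      refine ⟨⟨x, by simp [eg], hx⟩, ⟨u, by simp [eg], huQ⟩, fun y hy hyQ => ?_⟩
      have : y = x ∨ y = u := by simpa [eg] using hy
      rcases this with rfl | rfl
      · exact absurd hxQ hyQ
      · exact hu.2
    have hV : eg G ev ∈ sidp G Q N D := by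
      refine ⟨⟨x, by simp [eg], hx⟩, ⟨v, by simp [eg], hvQ⟩, fun y hy hyQ => ?_⟩
      have : y = x ∨ y = v := by simpa [eg] using hy
      rcases this with rfl | rfl
      · exact absurd hxQ hyQ
      · exact hv.2
    have lt1 : ∀ {z : V} (e : G.Adj x z), vx G x < eg G e := by
      intro z e
      rw [Cq.lt_iff]
      refine Finset.ssubset_iff_subset_ne.2 ⟨?_, ?_⟩
      · intro y hy
        have : y = x := by simpa [vx] using hy
        rw [this]; simp [eg]
      · intro h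
        have : z ∈ (vx G x).1 := by rw [h]; simp [eg]
        have : z = x := by simpa [vx] using this
        exact G.ne_of_adj e this.symm
    have adU : (sd G).Adj (vx G x) (eg G eu) := Or.inl (lt1 eu)
    have adV : (sd G).Adj (vx G x) (eg G ev) := Or.inl (lt1 ev)
    have h1 := hf _ _ ⟨adU, hDM hsx.2, hDM hU.1⟩
    have h2 := hf _ _ ⟨adV, hDM hsx.2, hDM hV.1⟩
    rw [crs_val adU, if_pos (Or.inl ⟨hsx, hU⟩)] at h1
    rw [crs_val adV, if_neg] at h2
    · rw [hconst _ (sP hU) _ (sN hV), ← h2] at h1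
      exact one_ne_zero h1
    · rintro (h | h)
      · exact Set.disjoint_left.1 (sidp_nadj w).2 h.2 hV
      · exact sheet_sidp h.1 hV
  · intro hc
    rcases flip_cases w hD hM with h1 | ⟨C, C', k1, k2, ku, kd, kn, kP, kN⟩
    · exact absurd h1 hc
    refine ⟨fun s => if s ∈ C then 1 else 0, ?_⟩
    have main : ∀ s t : Cq G, EIn (sd G) (pl G M) s t → s ∈ sheet G Q D → t ∈ cut G Q M D →
        crs G Q P D s t = (if s ∈ C then 1 else 0) + (if t ∈ C then 1 else 0) := by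
      intro s t e hs ht
      have hsC : s ∉ C := fun h => (k1.sub h).2 hs
      rw [crs_val e.1, if_neg hsC, zero_add]
      rcases (sheet_above w hD.sub hD.nadj hs ht e.1).2 with h | h
      · rw [if_pos (Or.inl ⟨hs, h⟩), if_pos (kP h)]
      · rw [if_neg (fun h' => Set.disjoint_left.1 kd h' (kN h)), if_neg]
        rintro (h' | h')
        · exact Set.disjoint_left.1 (sidp_nadj w).2 h'.2 h
        · exact sheet_sidp h'.1 h
    intro s t e
    show crs G Q P D s t = (if s ∈ C then 1 else 0) + (if t ∈ C then 1 else 0)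
    by_cases hs : s ∈ sheet G Q D
    · by_cases ht : t ∈ sheet G Q D
      · rw [crs_val e.1, if_neg, if_neg (fun h => (k1.sub h).2 hs),
          if_neg (fun h => (k1.sub h).2 ht), add_zero]
        rintro (h | h)
        · exact sheet_sidp ht h.2
        · exact sheet_sidp hs h.2
      · exact main s t e hs ⟨e.2.2, ht⟩
    · by_cases ht : t ∈ sheet G Q D
      · rw [(mem_Z1.1 (crs_mem w hD)).2.1 s t, add_comm]
        exact main t s e.symm ht ⟨e.2.1, hs⟩
      · have hs' : s ∈ cut G Q M D := ⟨e.2.1, hs⟩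
        have ht' : t ∈ cut G Q M D := ⟨e.2.2, ht⟩
        rw [crs_val e.1, if_neg]
        · by_cases hsC : s ∈ C
          · have htC : t ∈ C := by
              by_contra h
              exact k1.nadj s hsC t ⟨ht', h⟩ e.1
            rw [if_pos hsC, if_pos htC, two_add]
          · have htC : t ∉ C := by
              intro h
              exact k1.nadj t h s ⟨hs', hsC⟩ e.1.symm
            rw [if_neg hsC, if_neg htC, add_zero]
        · rintro (h | h)
          · exact hs h.1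
          · exact ht h.1

/-! ## pockets -/

private theorem pocket_aux_stp [Finite V] (h : IsSph3 G) (w : Wall G Q P N)
    (hD : IsComp G (M ∩ Q) D) (hz : HZ G D) (hM : Conn G M) (hM' : Conn G Mᶜ)
    (hF : Conn (sd G) (FrIn G Q D)) {C C' : Set (Cq G)}
    (hC' : IsComp (sd G) (cut G Q M D) C') (hu : C ∪ C' = cut G Q M D) (hd : Disjoint C C')
    (hn : NAdj (sd G) C C') (hP : sidp G Q P D ⊆ C') (hN : sidp G Q N D ⊆ C)
    (hz' : HZ (sd G) C') :
    ∃ F : Set (Cq (sd G)), HZ (sd (sd G)) F ∧ F ⊆ Fr (sd G) C' ∧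
      IsComp (sd (sd G))
        (Fr (sd G) (pl G M) \ FrIn (sd G) (mi G Q) (sheet G Q D)) F := by
  have h' := sd_sph3 h
  have hDQ : D ⊆ Q := fun x hx => (hD.sub hx).2
  have hcc := step_compl_Conn w hD hM hM' hF.1 hC'
  have hS := surf_Fr (W := C') h'
  have hSc := Fr_Conn h' hC'.conn hcc
  have hSz : HZ (sd (sd G)) (Fr (sd G) C') := by
    rw [← b1_eq_zero, b1_Fr h', bb, ← dual h' hC'.conn hcc, b1_eq_zero.2 hz']
  obtain ⟨e1, e2, e3⟩ := Fr_union (G := sd G) hd hn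
  rw [hu] at e1
  have e4 := Fr_cut w hD.sub hD.nadj
  obtain ⟨-, -, c3, -⟩ := cap_disj (M := M) w hD.sub
  have hshC : ∀ s ∈ sheet G Q D, s ∉ C' := fun s hs hs' => (hC'.sub hs').2 hs
  have hshC2 : ∀ s ∈ sheet G Q D, s ∉ C := fun s hs hs' => by
    have : s ∈ cut G Q M D := by
      rw [← hu]
      exact Or.inl hs'
    exact this.2 hs
  -- the cap on the side of `C'`
  have hcap : cap G Q P D ⊆ Fr (sd G) C' := by
    rintro c ⟨-, ⟨s, hs, hs'⟩, t, ht, ht'⟩
    exact ⟨⟨t, ht, hP ht'⟩, s, hs, hshC s hs'⟩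
  have hcap2 : cap G Q N D ⊆ Fr (sd G) C := by
    rintro c ⟨-, ⟨s, hs, hs'⟩, t, ht, ht'⟩
    exact ⟨⟨t, ht, hN ht'⟩, s, hs, hshC2 s hs'⟩
  -- the cap is not everything
  have hne : cap G Q P D ≠ Fr (sd G) C' := by
    intro e
    obtain ⟨s, ⟨hsQ, x, hx, hxD⟩, y, hy, hyD⟩ := hF.1
    have hyM : y ∉ M := fun hyM =>
      clique_no hx hy hxD (⟨⟨hyM, hsQ y hy⟩, hyD⟩ : y ∈ (M ∩ Q) \ D)
        Set.disjoint_sdiff_right hD.nadj
    obtain ⟨p, hp1, hp2⟩ := (w.hp s.1 s.2.1 s.2.2 hsQ).1.1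
    have hpQ : p ∉ Q := fun h => Set.disjoint_left.1 w.dqp h hp2
    have hcl : G.IsClique ((insert p s.1 : Finset V) : Set V) := by
      rw [Finset.coe_insert]
      exact s.2.2.insert fun z hz _ => (hp1 z hz).symm
    obtain ⟨u, hu'⟩ : ∃ u : Cq G, u.1 = insert p s.1 :=
      ⟨⟨insert p s.1, Finset.insert_nonempty p s.1, hcl⟩, rfl⟩
    have hup : u ∈ sidp G Q P D := by
      refine ⟨⟨x, by rw [hu']; exact Finset.mem_insert_of_mem hx, hxD⟩,
        ⟨p, by rw [hu']; exact Finset.mem_insert_self p s.1, hpQ⟩, fun z hz hzQ => ?_⟩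
      rw [hu'] at hz
      rcases Finset.mem_insert.1 hz with rfl | hz
      · exact hp2
      · exact absurd (hsQ z hz) hzQ
    have hyu : y ∈ u.1 := by
      rw [hu']
      exact Finset.mem_insert_of_mem hy
    have hlt : vx G y < u := by
      rw [Cq.lt_iff]
      refine Finset.ssubset_iff_subset_ne.2 ⟨?_, ?_⟩
      · intro z hz
        have : z = y := by simpa [vx] using hz
        rw [this]
        exact hyu
      · intro hh
        have : x ∈ (vx G y).1 := by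
          rw [hh, hu']
          exact Finset.mem_insert_of_mem hx
        have : x = y := by simpa [vx] using this
        exact hyD (this ▸ hxD)
    have hadj : (sd G).Adj (vx G y) u := Or.inl hlt
    have hvy : vx G y ∉ pl G M := by
      rintro ⟨z, hz, hzM⟩
      have : z = y := by simpa [vx] using hz
      exact hyM (this ▸ hzM)
    have hmem : eg (sd G) hadj ∈ Fr (sd G) C' := by
      refine ⟨⟨u, by simp [eg], hP hup⟩, vx G y, by simp [eg], fun h => hvy (hC'.sub h).1⟩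
    rw [← e] at hmem
    rcases hmem.1 (vx G y) (by simp [eg]) with h1 | h1
    · exact hvy (pl_mono (fun z hz => (hD.sub hz).1) h1.2)
    · exact hvy (pl_mono (fun z hz => (hD.sub hz).1) h1.1)
  obtain ⟨f1, f2⟩ := sphere_compl hS hSc hSz hcap hne (cap_Conn w hDQ hD.conn).1
    (cap_HZ w hDQ hD.conn hz).1
  refine ⟨Fr (sd G) C' \ cap G Q P D, f2, Set.diff_subset, IsComp_of f1 ?_ ?_⟩
  · rintro x ⟨hx, hx'⟩
    have : x ∈ Fr (sd G) (cut G Q M D) := by
      rw [e1]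
      exact Or.inr hx
    rw [e4] at this
    rcases this with (h1 | h1) | h1
    · exact h1
    · exact absurd h1 hx'
    · exact (Set.disjoint_left.1 e2 (hcap2 h1) hx).elim
  · rintro x ⟨hx, hx'⟩ y ⟨hy, hy'⟩ e
    have : y ∈ Fr (sd G) (cut G Q M D) := by
      rw [e4]
      exact Or.inl (Or.inl hy)
    rw [e1] at this
    rcases this with h1 | h1
    · exact e3 y h1 x hx e.symm
    · exact hy' ⟨h1, fun h2 => Set.disjoint_left.1 c3 h2 hy.1⟩

/-- POCKET.  A component `C'` of the cut region (two components) with `H^1 = 0`: its frontier is a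
sphere, one cap and one side `F` of the curve of `D` in the surface `Fr (pl M)`; so `F` is a disc.
(`dual` for `C'`, `b1_Fr`, `Fr_cut`, complement of a disc in a sphere is a disc:
`sphere_compl`.) -/
theorem pocket [Finite V] (h : IsSph3 G) (w : Wall G Q P N) (hD : IsComp G (M ∩ Q) D)
    (hz : HZ G D) (hM : Conn G M) (hM' : Conn G Mᶜ) (hF : Conn (sd G) (FrIn G Q D))
    {C C' : Set (Cq G)} (hC : IsComp (sd G) (cut G Q M D) C)
    (hC' : IsComp (sd G) (cut G Q M D) C') (hne : C ≠ C') (hz' : HZ (sd G) C') :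
    ∃ F : Set (Cq (sd G)), HZ (sd (sd G)) F ∧ F ⊆ Fr (sd G) C' ∧
      IsComp (sd (sd G))
        (Fr (sd G) (pl G M) \ FrIn (sd G) (mi G Q) (sheet G Q D)) F := by
  rcases flip_cases w hD hM with h1 | ⟨C1, C2, k1, k2, ku, kd, kn, kP, kN⟩
  · exact absurd ((comp_conn_eq hC h1).trans (comp_conn_eq hC' h1).symm) hne
  · obtain ⟨x, hx⟩ := hC'.conn.1
    have hx' := hC'.sub hx
    rw [← ku] at hx'
    rcases hx' with hx' | hx'
    · have e := hC'.eq_of_inter k1 ⟨x, hx, hx'⟩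
      subst e
      exact pocket_aux_stp h w hD hz hM hM' hF hC' (by rw [Set.union_comm]; exact ku) kd.symm
        (NAdj.symm' kn) kP kN hz'
    · have e := hC'.eq_of_inter k2 ⟨x, hx, hx'⟩
      subst e
      exact pocket_aux_stp h w.swap hD hz hM hM' hF hC' ku kd kn kN kP hz'

end MOT
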