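import Pool.Agent.MOT.Dua
import Pool.Agent.MOT.Stp

/-!
# MOT/SaIX: the curve of a disc in a wall is connected

`D ⊆ Q` connected, `H^1(D) = 0`, with a mixed simplex in `Q`.  The frontier of `D` in the 3-sphere is the
union of the two sides `sidp G Q P D`, `sidp G Q N D` and of the curve; each side is connected and every
simplex of the curve has a neighbour in both, so the frontier is connected, hence the complement of `D` too
(`b0_Fr`), so `b1` of the complement is `b1` of `D`, that is `0` (`dual`), and the frontier has `H^1 = 0`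
(`b1_Fr`).  By Mayer-Vietoris (`mv_conn_inter`) the curve is connected.
-/

open Classical

noncomputable section

namespace MOT

variable {V : Type} {G : SimpleGraph V} {Q P N D : Set V}

private theorem grow_h75 {W : Type} {H : SimpleGraph W} {A F : Set W} (hA : Conn H A)
    (h : ∀ x ∈ F, ∃ y ∈ A, H.Adj x y) : Conn H (A ∪ F) := by
  obtain ⟨⟨a, ha⟩, hc⟩ := hA
  have key : ∀ x ∈ A ∪ F, Relation.ReflTransGen (EIn H (A ∪ F)) a x := by
    intro x hx
    rcases hx with hx | hx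
    · exact rtg_mono Set.subset_union_left (hc a ha x hx)
    · obtain ⟨y, hy, e⟩ := h x hx
      exact (rtg_mono Set.subset_union_left (hc a ha y hy)).tail
        ⟨e.symm, Or.inl hy, Or.inr hx⟩
  exact ⟨⟨a, Or.inl ha⟩, fun x hx y hy => (rtg_symm (key x hx)).trans (key y hy)⟩

private theorem nbr_h75 (w : Wall G Q P N) {s : Cq G} (hs : s ∈ FrIn G Q D) :
    ∃ t ∈ sidp G Q P D, (sd G).Adj s t := by
  obtain ⟨⟨hQ, y, hy, hyD⟩, -⟩ := hs
  obtain ⟨z, hz, hzP⟩ := (w.hp s.1 s.2.1 s.2.2 (fun x hx => hQ x hx)).1.1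
  have hzQ : z ∉ Q := fun h => Set.disjoint_left.1 w.dqp h hzP
  have hzs : z ∉ s.1 := fun h => hzQ (hQ z h)
  have hcl : G.IsClique ((insert z s.1 : Finset V) : Set V) := by
    rw [Finset.coe_insert]
    exact s.2.2.insert fun b hb _ => (hz b hb).symm
  refine ⟨⟨insert z s.1, ⟨z, Finset.mem_insert_self _ _⟩, hcl⟩, ⟨⟨y, ?_, hyD⟩, ⟨z, ?_, hzQ⟩, ?_⟩, ?_⟩
  · exact Finset.mem_insert_of_mem hy
  · exact Finset.mem_insert_self _ _
  · intro x hx hxQ
    rcases Finset.mem_insert.1 hx with rfl | hx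
    · exact hzP
    · exact absurd (hQ x hx) hxQ
  · refine Or.inl (Cq.lt_iff.2 ?_)
    exact Finset.ssubset_insert hzs

private theorem Fr_split_h75 (w : Wall G Q P N) (hDQ : D ⊆ Q) :
    Fr G D = (sidp G Q P D ∪ FrIn G Q D) ∪ (sidp G Q N D ∪ FrIn G Q D) := by
  ext s
  constructor
  · rintro ⟨h1, h2⟩
    by_cases hs : s ∈ mi G Q
    · exact Or.inl (Or.inr ⟨⟨hs, h1⟩, h2⟩)
    · rcases w.side hs with h | h
      · exact Or.inl (Or.inl ⟨h1, h⟩)
      · exact Or.inr (Or.inl ⟨h1, h⟩)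
  · have hside : ∀ P' : Set V, sidp G Q P' D ⊆ Fr G D := by
      rintro P' t ⟨h1, ⟨x, hx, hxQ⟩, -⟩
      exact ⟨h1, x, hx, fun h => hxQ (hDQ h)⟩
    rintro ((h | h) | (h | h))
    · exact hside P h
    · exact ⟨h.1.2, h.2⟩
    · exact hside N h
    · exact ⟨h.1.2, h.2⟩

theorem disc_curve_h75 [Finite V] (h : IsSph3 G) (w : Wall G Q P N) (hDQ : D ⊆ Q)
    (hD : Conn G D) (hz : HZ G D) (hne : (FrIn G Q D).Nonempty) :
    Conn (sd G) (FrIn G Q D) := by
  obtain ⟨c1, c2⟩ := sidp_Conn w hDQ hD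
  have hA := grow_h75 c1 (fun x hx => nbr_h75 w hx) (F := FrIn G Q D)
  have hB := grow_h75 c2 (fun x hx => nbr_h75 w.swap hx) (F := FrIn G Q D)
  have hFr := Fr_split_h75 w hDQ
  have hFc : Conn (sd G) (Fr G D) := by
    rw [hFr]
    obtain ⟨f, hf⟩ := hne
    have key : ∀ x ∈ (sidp G Q P D ∪ FrIn G Q D) ∪ (sidp G Q N D ∪ FrIn G Q D),
        Relation.ReflTransGen (EIn (sd G)
          ((sidp G Q P D ∪ FrIn G Q D) ∪ (sidp G Q N D ∪ FrIn G Q D))) f x := by
      intro x hx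
      rcases hx with hx | hx
      · exact rtg_mono Set.subset_union_left (hA.2 f (Or.inr hf) x hx)
      · exact rtg_mono Set.subset_union_right (hB.2 f (Or.inr hf) x hx)
    exact ⟨⟨f, Or.inl (Or.inr hf)⟩, fun x hx y hy => (rtg_symm (key x hx)).trans (key y hy)⟩
  have e1 := b0_Fr (M := D) h
  rw [b0_eq_one.2 hFc, b0_eq_one.2 hD] at e1
  have hDc : Conn G Dᶜ := b0_eq_one.1 (by omega)
  have e2 := dual h hD hDc
  rw [b1_eq_zero.2 hz] at e2
  have e3 := b1_Fr (M := D) h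
  have hzF : HZ (sd G) (Fr G D) := by
    rw [← b1_eq_zero, e3, bb, ← e2, b1_eq_zero.2 hz]
  obtain ⟨n1, n2⟩ := sidp_nadj (D := D) w
  have hint : (sidp G Q P D ∪ FrIn G Q D) ∩ (sidp G Q N D ∪ FrIn G Q D) = FrIn G Q D := by
    ext s
    constructor
    · rintro ⟨h1 | h1, h2 | h2⟩
      · exact absurd h2 (Set.disjoint_left.1 n2 h1)
      · exact h2
      · exact h1
      · exact h1
    · exact fun hs => ⟨Or.inr hs, Or.inr hs⟩
  rw [← hint]
  refine mv_conn_inter ?_ (by rw [← hFr]; exact hzF) hA hB (by rw [hint]; exact hne)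
  rintro s ⟨hs1, hs2⟩ t ⟨ht1, ht2⟩ e
  have hs : s ∈ sidp G Q P D := by
    rcases hs1 with h1 | h1
    · exact h1
    · exact absurd (Or.inr h1) hs2
  have ht : t ∈ sidp G Q N D := by
    rcases ht1 with h1 | h1
    · exact h1
    · exact absurd (Or.inr h1) ht2
  exact n1 s hs t ht e

end MOT
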