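import Pool.Agent.MOT.SaDef

/-!
# MOT/SaL: labels of the outside part of the frontier under one flip

`Out G Q P M = Fr G M ∩ sdp G Q P` (mixed simplices not inside the wall, with the vertices off the wall on
the side `P`).  `cut G Q M D` is the flip of a component `D` of `M ∩ Q`.
-/

open Classical

noncomputable section

namespace MOT

variable {V : Type} {G : SimpleGraph V} {M Q P N D : Set V} {Vc : Type}
  {Nv : Vc → Set V} {lam : Cq G → Vc}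

/-- mixed simplices of `Q` at `D` are mixed for `M` -/
theorem FrIn_sub_Fr (hD : IsComp G (M ∩ Q) D) : FrIn G Q D ⊆ Fr G M := by
  rintro s ⟨⟨hQ, x, hx, hxD⟩, y, hy, hyD⟩
  refine ⟨⟨x, hx, (hD.sub hxD).1⟩, ?_⟩
  by_contra hn
  have hall : ∀ z ∈ s.1, z ∈ M := by
    intro z hz
    by_contra hz'
    exact hn ⟨z, hz, hz'⟩
  have hne : x ≠ y := fun e => hyD (e ▸ hxD)
  exact hD.nadj x hxD y ⟨⟨hall y hy, hQ y hy⟩, hyD⟩
    (s.2.2 (Finset.mem_coe.2 hx) (Finset.mem_coe.2 hy) hne)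

private theorem conn_const {W β : Type} {H : SimpleGraph W} {A : Set W} (h : Conn H A)
    {f : W → β} (hf : ∀ x y, EIn H A x y → f x = f y) {x y : W} (hx : x ∈ A) (hy : y ∈ A) :
    f x = f y := by
  have h1 := h.2 x hx y hy
  clear hy
  induction h1 with
  | refl => rfl
  | tail _ e ih => exact ih.trans (hf _ _ e)

/-- the simplices above `s` on the side `P` -/
private def Us (G : SimpleGraph V) (Q P : Set V) (s : Cq G) : Set (Cq G) :=
  {t | s < t ∧ t ∈ sdp G Q P}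

private theorem Us_eq (w : Wall G Q P N) {s : Cq G} (hs : s ∈ mi G Q) :
    Us G Q P s = {t | s < t ∧ ∃ x ∈ t.1, x ∉ s.1 ∧ x ∈ P} := by
  ext t
  constructor
  · rintro ⟨hst, ⟨x, hx, hxQ⟩, h⟩
    exact ⟨hst, x, hx, fun hxs => hxQ (hs x hxs), h x hx hxQ⟩
  · rintro ⟨hst, x, hx, -, hxP⟩
    have hxQ : x ∉ Q := fun hq => Set.disjoint_left.1 w.dqp hq hxP
    refine ⟨hst, ⟨x, hx, hxQ⟩, fun y hy hyQ => ?_⟩
    have h1 : y ∈ Q ∪ P ∪ N := by rw [w.cover]; trivial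
    rcases h1 with (h1 | h1) | h1
    · exact absurd h1 hyQ
    · exact h1
    · exfalso
      have hne : x ≠ y := fun e => Set.disjoint_left.1 w.dpn hxP (e ▸ h1)
      exact w.nadj x hxP y h1 (t.2.2 (Finset.mem_coe.2 hx) (Finset.mem_coe.2 hy) hne)

private theorem Us_conn [Finite V] (w : Wall G Q P N) {s : Cq G} (hs : s ∈ mi G Q) :
    Conn (sd G) (Us G Q P s) := by
  rw [Us_eq w hs]
  exact (above_pl_Conn s P).2 (w.hp s.1 s.2.1 s.2.2 hs).1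

private theorem Fr_up {s t : Cq G} (hs : s ∈ Fr G M) (h : s ≤ t) : t ∈ Fr G M := by
  obtain ⟨⟨x, hx, hxM⟩, y, hy, hyM⟩ := hs
  exact ⟨⟨x, Cq.le_iff.1 h hx, hxM⟩, y, Cq.le_iff.1 h hy, hyM⟩

/-- one label on the outer side of the curve of `D`.
Sketch: for `s ∈ FrIn G Q D` the set `U s = {t | s < t ∧ ∃ x ∈ t, x ∉ s ∧ x ∈ P}` is connected
(`above_pl_Conn`, `Wall.hp`) and lies in `Out`; `U s' ⊆ U s` for `s ≤ s'`; `FrIn G Q D` is
connected. -/
theorem lab_curve [Finite V] (w : Wall G Q P N) (hD : IsComp G (M ∩ Q) D)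
    (hc : Conn (sd G) (FrIn G Q D))
    (hl : ∀ s t : Cq G, s ≤ t → s ∈ Out G Q P M → t ∈ Out G Q P M → lam s = lam t) :
    ∃ l : Vc, (∀ s ∈ FrIn G Q D, ∀ t, s < t → t ∈ sdp G Q P → t ∈ Out G Q P M ∧ lam t = l) ∧
      ∃ s ∈ FrIn G Q D, ∃ t, s < t ∧ t ∈ sdp G Q P := by
  have hO : ∀ s ∈ FrIn G Q D, ∀ t ∈ Us G Q P s, t ∈ Out G Q P M := by
    intro s hs t ht
    exact ⟨Fr_up (FrIn_sub_Fr hD hs) ht.1.le, ht.2⟩
  have hC : ∀ s ∈ FrIn G Q D, ∀ t ∈ Us G Q P s, ∀ t' ∈ Us G Q P s, lam t = lam t' := by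
    intro s hs t ht t' ht'
    refine conn_const (Us_conn w hs.1.1) (fun x y e => ?_) ht ht'
    rcases sd_adj.1 e.1 with h | h
    · exact hl x y h.le (hO s hs x e.2.1) (hO s hs y e.2.2)
    · exact (hl y x h.le (hO s hs y e.2.2) (hO s hs x e.2.1)).symm
  have hP : ∀ s ∈ FrIn G Q D, ∀ s', Relation.ReflTransGen (EIn (sd G) (FrIn G Q D)) s s' →
      ∀ t ∈ Us G Q P s, ∀ t' ∈ Us G Q P s', lam t = lam t' := by
    intro s hs s' hr
    induction hr with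
    | refl => exact hC s hs
    | @tail b c _ e ih =>
      intro t ht t' ht'
      rcases sd_adj.1 e.1 with h | h
      · exact ih t ht t' ⟨h.trans ht'.1, ht'.2⟩
      · obtain ⟨t0, ht0⟩ := (Us_conn w e.2.1.1.1).1
        rw [ih t ht t0 ht0]
        exact hC c e.2.2 t0 ⟨h.trans ht0.1, ht0.2⟩ t' ht'
  obtain ⟨s0, hs0⟩ := hc.1
  obtain ⟨t0, ht0⟩ := (Us_conn w hs0.1.1).1
  refine ⟨lam t0, fun s hs t hst ht => ⟨hO s hs t ⟨hst, ht⟩, ?_⟩, s0, hs0, t0, ht0.1, ht0.2⟩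
  exact (hP s0 hs0 s (hc.2 s0 hs0 s hs) t0 ht0 t ⟨hst, ht⟩).symm

/-- LABEL STEP.  `lam' c := lam (mx c)` if `c` has an element in `mi Mᶜ`, else the label `l` of
`lab_curve`.  Check of `const` for `c ≤ c'`: if `c` has an element in `mi Mᶜ`, both tops are in `Out G Q P M`
and comparable.  If not, `c` has an element `s1 ∈ sheet`; if `c'` has `s0 ∈ mi Mᶜ`, then `s0 < s1`
(`sheet_below`), so `s1 ∈ FrIn G Q D` and `lam (mx c') = l`.  `near`: `hN` says that `l` is near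
`D`. -/
theorem lab_step [Finite V] (w : Wall G Q P N) (hD : IsComp G (M ∩ Q) D)
    (hc : Conn (sd G) (FrIn G Q D)) (hL : LabO G Q P M Nv lam)
    (hN : ∀ l, ∀ t : Cq G, t ∈ pl G D → t ∈ pl G (Nv l) → D ⊆ Nv l) :
    ∃ lam' : Cq (sd G) → Vc, LabO (sd G) (mi G Q) (sdp G Q P) (cut G Q M D)
      (fun v => pl G (Nv v)) lam' := by
  obtain ⟨l, hl, s1, hs1, t1, hst1, ht1⟩ := lab_curve w hD hc hL.const
  have hDN : D ⊆ Nv l := by
    obtain ⟨h1, h2⟩ := hl s1 hs1 t1 hst1 ht1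
    obtain ⟨x, hx, hxD⟩ := hs1.1.2
    have h3 := hL.near t1 h1
    rw [h2] at h3
    exact hN l t1 ⟨x, Cq.le_iff.1 hst1.le hx, hxD⟩ h3
  have hDM : D ⊆ M := fun x hx => (hD.sub hx).1
  -- the top of a chain in the new `Out`
  have htop : ∀ c ∈ Out (sd G) (mi G Q) (sdp G Q P) (cut G Q M D),
      mx c ∈ sdp G Q P ∧ mx c ∉ mi G Q := by
    rintro c ⟨-, ⟨s, hs, hsQ⟩, h⟩
    have h1 : mx c ∉ mi G Q := fun h2 => hsQ fun x hx => h2 x (Cq.le_iff.1 (le_mx c hs) hx)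
    exact ⟨h _ (mx_mem c) h1, h1⟩
  have hold : ∀ c ∈ Out (sd G) (mi G Q) (sdp G Q P) (cut G Q M D),
      (∃ s ∈ c.1, s ∈ mi G Mᶜ) → mx c ∈ Out G Q P M := by
    rintro c hcO ⟨s, hs, hsM⟩
    refine ⟨⟨?_, ?_⟩, (htop c hcO).1⟩
    · obtain ⟨⟨u, hu, hu'⟩, -⟩ := hcO.1
      obtain ⟨x, hx, hxM⟩ := hu'.1
      exact ⟨x, Cq.le_iff.1 (le_mx c hu) hx, hxM⟩
    · obtain ⟨x, hx⟩ := s.2.1
      exact ⟨x, Cq.le_iff.1 (le_mx c hs) hx, hsM x hx⟩
  have hsh : ∀ c ∈ Out (sd G) (mi G Q) (sdp G Q P) (cut G Q M D),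
      (¬ ∃ s ∈ c.1, s ∈ mi G Mᶜ) → ∃ s ∈ c.1, s ∈ sheet G Q D := by
    rintro c hcO hn
    obtain ⟨-, u, hu, hu'⟩ := hcO.1
    rw [cut_compl] at hu'
    rcases hu' with h | h
    · exact absurd ⟨u, hu, h⟩ hn
    · exact ⟨u, hu, h⟩
  refine ⟨fun c => if ∃ s ∈ c.1, s ∈ mi G Mᶜ then lam (mx c) else l, ?_, ?_⟩
  · intro c c' hcc hcO hcO'
    by_cases h1 : ∃ s ∈ c.1, s ∈ mi G Mᶜ
    · have h2 : ∃ s ∈ c'.1, s ∈ mi G Mᶜ := by
        obtain ⟨s, hs, hsM⟩ := h1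
        exact ⟨s, Cq.le_iff.1 hcc hs, hsM⟩
      simp only [if_pos h1, if_pos h2]
      exact hL.const _ _ (mx_mono hcc) (hold c hcO h1) (hold c' hcO' h2)
    · by_cases h2 : ∃ s ∈ c'.1, s ∈ mi G Mᶜ
      · simp only [if_neg h1, if_pos h2]
        obtain ⟨s, hs, hsD⟩ := hsh c hcO h1
        obtain ⟨s0, hs0, hs0M⟩ := h2
        have hs' : s ∈ c'.1 := Cq.le_iff.1 hcc hs
        have hne : s ≠ s0 := by
          rintro rfl
          obtain ⟨-, x, hx, hxD⟩ := hsD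
          exact hs0M x hx (hDM hxD)
        have hadj : (sd G).Adj s s0 :=
          c'.2.2 (Finset.mem_coe.2 hs') (Finset.mem_coe.2 hs0) hne
        obtain ⟨hlt, -⟩ := sheet_below hsD hs0M hDM hadj
        have hF : s ∈ FrIn G Q D := by
          refine ⟨hsD, ?_⟩
          obtain ⟨x, hx⟩ := s0.2.1
          exact ⟨x, Cq.le_iff.1 hlt.le hx, fun hxD => hs0M x hx (hDM hxD)⟩
        have hlt2 : s < mx c' := by
          refine lt_of_le_of_ne (le_mx c' hs') fun e => ?_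
          exact (htop c' hcO').2 (e ▸ hsD.1)
        exact (hl s hF (mx c') hlt2 (htop c' hcO').1).2.symm
      · simp only [if_neg h1, if_neg h2]
  · intro c hcO
    by_cases h1 : ∃ s ∈ c.1, s ∈ mi G Mᶜ
    · simp only [if_pos h1]
      exact ⟨mx c, mx_mem c, hL.near _ (hold c hcO h1)⟩
    · simp only [if_neg h1]
      obtain ⟨s, hs, -, x, hx, hxD⟩ := hsh c hcO h1
      exact ⟨s, hs, x, hx, hDN hxD⟩

/-- restriction of labels to a region whose frontier is contained in the old one -/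
theorem LabO.mono {M' : Set V} (h : LabO G Q P M Nv lam) (hM : Fr G M' ⊆ Fr G M) :
    LabO G Q P M' Nv lam := by
  have h1 : Out G Q P M' ⊆ Out G Q P M := fun s hs => ⟨hM hs.1, hs.2⟩
  exact ⟨fun s t hst hs ht => h.const s t hst (h1 hs) (h1 ht), fun s hs => h.near s (h1 hs)⟩

theorem LabO.compl (h : LabO G Q P M Nv lam) : LabO G Q P Mᶜ Nv lam :=
  h.mono (Fr_compl (G := G) (M := M)).subset

end MOT
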