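import Pool.Agent.MOT.SaC

/-!
# MOT/SaT: the static hypotheses of stage 1 under subdivision
-/

open Classical

noncomputable section

namespace MOT

variable {V : Type} {G : SimpleGraph V} {Vc Ec Fc : Type} {X : Tor V Vc Ec Fc}

/-- a clique inside the wall lies in one `T e` -/
theorem mi_Q (h : ∀ e e', e ≠ e' → Disjoint (X.T e) (X.T e') ∧ NAdj G (X.T e) (X.T e')) :
    mi G X.Q = (X.sd G).Q := by
  ext s
  constructor
  · intro hs
    obtain ⟨x, hx⟩ := s.2.1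
    obtain ⟨e, he⟩ := Set.mem_iUnion.1 (hs x hx)
    refine Set.mem_iUnion.2 ⟨e, fun y hy => ?_⟩
    obtain ⟨e', he'⟩ := Set.mem_iUnion.1 (hs y hy)
    by_cases hee : e = e'
    · rw [hee]; exact he'
    · exfalso
      have h1 := h e e' hee
      have hne : x ≠ y := by
        rintro rfl
        exact Set.disjoint_left.1 h1.1 he he'
      exact h1.2 x he y he' (s.2.2 hx hy hne)
  · intro hs x hx
    obtain ⟨e, he⟩ := Set.mem_iUnion.1 hs
    exact Set.mem_iUnion.2 ⟨e, he x hx⟩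

theorem mi_disj {A B : Set V} (h : Disjoint A B) : Disjoint (mi G A) (mi G B) := by
  refine Set.disjoint_left.2 fun s hA hB => ?_
  obtain ⟨x, hx⟩ := s.2.1
  exact Set.disjoint_left.1 h (hA x hx) (hB x hx)

theorem mi_nadj {A B : Set V} (h : Disjoint A B) : NAdj (sd G) (mi G A) (mi G B) := by
  rintro s hs t ht (hst | hst)
  · obtain ⟨x, hx⟩ := s.2.1
    exact Set.disjoint_left.1 h (hs x hx) (ht x (hst.le hx))
  · obtain ⟨x, hx⟩ := t.2.1
    exact Set.disjoint_left.1 h (hs x (hst.le hx)) (ht x hx)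

/-- loops: transport of `round` (via `dnc`, `Triv_dnc`) -/
theorem round_sd {S A B : Set V} (hA : A ⊆ S) (hB : B ⊆ S)
    (h : ∀ a ∈ Z1 G S, (Triv G A a ↔ Triv G B a)) :
    ∀ a ∈ Z1 (sd G) (mi G S), (Triv (sd G) (mi G A) a ↔ Triv (sd G) (mi G B) a) := by
  intro a ha
  rw [← Triv_dnc ha hA, ← Triv_dnc ha hB]
  exact h _ (dnc_mem ha)

/-- cliques of `sd G` meeting `pl A`: their greatest element meets `A` -/
theorem pl_pl {A : Set V} {c : Cq (sd G)} (h : c ∈ pl (sd G) (pl G A)) :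
    mx c ∈ pl G A := by
  obtain ⟨s, hs, x, hx, hxA⟩ := h
  exact ⟨x, le_mx c hs hx, hxA⟩

/-- everything is kept by `sd` (`sd_sph3`, `Wall.sd`, `sd_Conn`, `sd_b1`, `Fam.sd`, `Triv_pw`) -/
theorem TorOK.sd [Finite V] [Fintype Ec] [Fintype Fc] {inc : Vc → Ec → Prop}
    {C : Submodule (ZMod 2) (Ec → ZMod 2)} {C' : Submodule (ZMod 2) (Fc → ZMod 2)}
    (h : TorOK G X inc C C') : TorOK (MOT.sd G) (X.sd G) inc C C' where
  sph := sd_sph3 h.sph
  wall := by
    rw [← mi_Q h.dT]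
    exact h.wall.sd
  cT := fun e => sd_Conn.2 (h.cT e)
  bT := fun e => by
    show b1 (MOT.sd G) (mi G (X.T e)) ≤ 2
    rw [sd_b1]
    exact h.bT e
  dT := fun e e' hee => ⟨mi_disj (h.dT e e' hee).1, mi_nadj (h.dT e e' hee).1⟩
  cB := sd_Conn.2 h.cB
  cBs := sd_Conn.2 h.cBs
  QB := by
    rw [← mi_Q h.dT]
    exact mi_disj h.QB
  QBs := by
    rw [← mi_Q h.dT]
    exact mi_disj h.QBs
  fam := h.fam.sd
  fams := h.fams.sd
  cCm := fun e => sd_Conn.2 (h.cCm e)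
  cCp := fun e => sd_Conn.2 (h.cCp e)
  CmT := fun e => mi_mono (h.CmT e)
  CpT := fun e => mi_mono (h.CpT e)
  round := fun e => round_sd (h.CmT e) (h.CpT e) (h.round e)
  odd := fun e => by
    obtain ⟨s, hs⟩ := h.odd e
    refine ⟨s, fun ht => hs ?_⟩
    exact (Triv_pw (h.fams.coc s).symm (h.fams.coc s).zero).1 ht
  W1 := fun e s hs => ⟨pk s, pk_mem s, h.W1 e (hs _ (pk_mem s))⟩
  W2 := fun s hs => by
    obtain ⟨⟨x, hx, hxQ⟩, hN⟩ := hs
    obtain ⟨e, he⟩ := Set.mem_iUnion.1 (h.W2 (hN x hx hxQ))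
    exact Set.mem_iUnion.2 ⟨e, x, hx, he⟩
  W3 := fun v e hve => pl_mono (h.W3 v e hve)
  W4 := fun v e s hs hs' => h.W4 v e (mx s) (pl_pl hs) (pl_pl hs')
  W5 := fun e e' s hs hs' => h.W5 e e' (mx s) (pl_pl hs) (pl_pl hs')

theorem TorOK.torN {K : Lv} {n : ℕ} [Fintype Ec] [Fintype Fc] {X : Tor (tw K n).V Vc Ec Fc}
    {inc : Vc → Ec → Prop} {C : Submodule (ZMod 2) (Ec → ZMod 2)}
    {C' : Submodule (ZMod 2) (Fc → ZMod 2)} (h : TorOK (tw K n).G X inc C C') (k : ℕ) :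
    TorOK (tw K (n + k)).G (torN K n X k) inc C C' := by
  induction k with
  | zero => exact h
  | succ k ih => exact ih.sd

end MOT
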