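import Pool.Agent.MOT.SaDef

/-!
# MOT/SaZ: the curves on the wall stay where they are
-/

open Classical

noncomputable section

namespace MOT

variable {V : Type} {G : SimpleGraph V} {M Q D Z : Set V}

/-- the curves on the wall after a flip are old curves (`old_curve`) -/
theorem crc_cut (hD : IsComp G (M ∩ Q) D) {M' : Set (Cq G)}
    (hM' : IsComp (sd G) (cut G Q M D) M') (h : FrIn G Q M ⊆ mi G Z) :
    FrIn (sd G) (mi G Q) M' ⊆ mi (sd G) (mi G Z) := by
  intro c hc
  obtain ⟨h1, h2⟩ := comp_hyp hD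
  have hg : IsComp (sd (sd G)) (FrIn (sd G) (mi G Q) M')
      (comp (sd (sd G)) (FrIn (sd G) (mi G Q) M') c) := ⟨c, hc, rfl⟩
  obtain ⟨g0, hg0, -, hge⟩ := old_curve h1 h2 hM'.sub hM'.nadj hg
  have hcm : c ∈ comp (sd (sd G)) (FrIn (sd G) (mi G Q) M') c := comp_self hc
  rw [hge] at hcm
  have hmx : mx c ∈ mi G Z := h (hg0.sub hcm.2)
  intro s hs x hx
  exact hmx x (le_mx c hs hx)

end MOT
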