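import Pool.Agent.MOT.SaA
import Pool.Agent.MOT.SaL
import Pool.Agent.MOT.SaT
import Pool.Agent.MOT.SaZ
import Pool.Agent.MOT.SaIX

/-!
# MOT/SaI: one step of stage 1, for discs of `M ∩ Q` and of `Q \ M`
-/

open Classical

noncomputable section

namespace MOT

variable {V : Type} {G : SimpleGraph V} {Vc Ec Fc : Type} [Fintype Ec] [Fintype Fc]
  {X : Tor V Vc Ec Fc} {inc : Vc → Ec → Prop} {C : Submodule (ZMod 2) (Ec → ZMod 2)}
  {C' : Submodule (ZMod 2) (Fc → ZMod 2)} {M D : Set V} {lam : Cq G → Vc}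

/-- a component of `M ∩ Q` lies in one torus -/
theorem comp_in_T (hX : TorOK G X inc C C') (hD : IsComp G (M ∩ X.Q) D) :
    ∃ e, IsComp G (M ∩ X.T e) D := by
  obtain ⟨x, hx⟩ := hD.conn.1
  obtain ⟨e, he⟩ := Set.mem_iUnion.1 (hD.sub hx).2
  have key : ∀ y, Relation.ReflTransGen (EIn G D) x y → y ∈ X.T e := by
    intro y hy
    induction hy with
    | refl => exact he
    | tail _ st ih =>
      obtain ⟨e', he'⟩ := Set.mem_iUnion.1 (hD.sub st.2.2).2
      by_cases hee : e = e'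
      · rw [hee]; exact he'
      · exact absurd st.1 ((hX.dT e e' hee).2 _ ih _ he')
  refine ⟨e, IsComp_of hD.conn (fun y hy => ⟨(hD.sub hy).1, key y (hD.conn.2 x hx y hy)⟩) ?_⟩
  rintro y hy z ⟨⟨hz1, hz2⟩, hz3⟩
  exact hD.nadj y hy z ⟨⟨hz1, Set.mem_iUnion.2 ⟨e, hz2⟩⟩, hz3⟩

/-- the curve of `D` is the curve in its torus -/
theorem FrIn_T (hX : TorOK G X inc C C') {e : Ec} (hD : D ⊆ X.T e) :
    FrIn G X.Q D = FrIn G (X.T e) D := by
  ext s
  constructor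
  · rintro ⟨⟨hQ, x, hx, hxD⟩, h2⟩
    refine ⟨⟨fun y hy => ?_, x, hx, hxD⟩, h2⟩
    obtain ⟨e', he'⟩ := Set.mem_iUnion.1 (hQ y hy)
    by_cases hee : e = e'
    · rw [hee]; exact he'
    · obtain ⟨hd, hn⟩ := hX.dT e e' hee
      have hxy : x ≠ y := by
        rintro rfl
        exact Set.disjoint_left.1 hd (hD hxD) he'
      exact absurd (s.2.2 hx hy hxy) (hn x (hD hxD) y he')
  · rintro ⟨⟨hQ, h1⟩, h2⟩
    exact ⟨⟨fun y hy => Set.mem_iUnion.2 ⟨e, hQ y hy⟩, h1⟩, h2⟩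

/-- a disc `D /= T e` has a connected curve.  Use `comp_in_T`, `FrIn_T` and the surface lemma of
helper19 (connected, `H^1 = 0`, not the whole surface => one boundary curve). `hY`: every torus has a
vertex outside `M`. -/
theorem disc_curveT [Finite V] (hX : TorOK G X inc C C') (hY : ∀ e, ¬ X.T e ⊆ M)
    (hD : IsComp G (M ∩ X.Q) D) (hz : HZ G D) : Conn (sd G) (FrIn G X.Q D) := by
  obtain ⟨e, he⟩ := comp_in_T hX hD
  have hTQ : X.T e ⊆ X.Q := Set.subset_iUnion X.T e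
  obtain ⟨y, hy, hyM⟩ := Set.not_subset.1 (hY e)
  obtain ⟨x, hx⟩ := hD.conn.1
  refine disc_curve_h75 hX.sph hX.wall (fun z hz => (hD.sub hz).2) hD.conn hz ?_
  have : ∃ u v, EIn G (X.T e) u v ∧ u ∈ D ∧ v ∉ D := by
    by_contra hno
    push Not at hno
    have key : ∀ z, Relation.ReflTransGen (EIn G (X.T e)) x z → z ∈ D := by
      intro z hz
      induction hz with
      | refl => exact hx
      | tail _ st ih => exact hno _ _ st ih
    exact hyM (hD.sub (key y ((hX.cT e).2 x (he.sub hx).2 y hy))).1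
  obtain ⟨u, v, huv, hu, hv⟩ := this
  have hcl : G.IsClique (({u, v} : Finset V) : Set V) := by
    rw [Finset.coe_pair, SimpleGraph.isClique_pair]
    exact fun _ => huv.1
  refine ⟨⟨{u, v}, ⟨u, by simp⟩, hcl⟩, ⟨?_, u, by simp, hu⟩, v, by simp, hv⟩
  intro z hz
  rcases Finset.mem_insert.1 hz with rfl | hz
  · exact hTQ huv.2.1
  · rw [Finset.mem_singleton.1 hz]; exact hTQ huv.2.2

/-- the hypothesis `hN` of `lab_step` -/
theorem near_T (hX : TorOK G X inc C C') (hD : IsComp G (M ∩ X.Q) D) (l : Vc) (t : Cq G)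
    (h : t ∈ pl G D) (h' : t ∈ pl G (X.Nv l)) : D ⊆ X.Nv l := by
  obtain ⟨e, he⟩ := comp_in_T hX hD
  have hW : D ⊆ X.We e := fun x hx => hX.W1 e (he.sub hx).2
  exact hW.trans (hX.W3 l e (hX.W4 l e t (pl_mono hW h) h'))

/-- STEP for a disc of `M ∩ Q`.  `M'` from `adm_cut`; `Cm`: `pers` with `ws s` of `odd`; `Cp`:
`pers_compl`; labels: `lab_step`, `LabO.mono`, `Fr_comp`. -/
theorem s1_cut [Finite V] (hX : TorOK G X inc C C') (h : S1Inv G X C C' M lam)
    (hD : IsComp G (M ∩ X.Q) D) (hz : HZ G D) :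
    ∃ (M' : Set (Cq G)) (lam' : Cq (sd G) → Vc), S1Inv (sd G) (X.sd G) C C' M' lam' ∧
      b0 (sd (sd G)) (FrIn (sd G) (X.sd G).Q M') < b0 (sd G) (FrIn G X.Q M) := by
  have hY : ∀ e, ¬ X.T e ⊆ M := by
    intro e he
    obtain ⟨x, hx⟩ := (hX.cCp e).1
    exact h.cp e hx (he (hX.CpT e hx))
  have hc := disc_curveT hX hY hD hz
  obtain ⟨M', hM', ha, hY', hb⟩ :=
    adm_cut hX.sph hX.wall hX.fam hX.fams hX.cB hX.QB h.adm hD hz hc
  have hQ : mi G X.Q = (X.sd G).Q := mi_Q hX.dT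
  obtain ⟨lam1, hl1⟩ := lab_step hX.wall hD hc h.lab (near_T hX hD)
  refine ⟨M', lam1, ⟨ha, ?_, ?_, ?_, ?_⟩, ?_⟩
  · intro e
    obtain ⟨s, hs⟩ := hX.odd e
    refine pers (hX.fams.coc s) (hX.cCm e) (fun x hx => ⟨h.cm e hx, ?_⟩) hs hD hz ?_ hM' hY'
    · exact Set.mem_iUnion.2 ⟨e, hX.CmT e hx⟩
    · exact hX.QB.mono_left fun x hx => (hD.sub hx).2
  · intro e
    exact pers_compl (h.cp e) hM'
  · have h1 := hl1.mono (Fr_comp hM')
    rw [hQ] at h1
    exact h1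
  · rw [← hQ]
    exact crc_cut hD hM' h.crc
  · rw [← hQ]; exact hb

/-- STEP for a disc of `Mᶜ ∩ Q`: the same with `adm_cut` for `Mᶜ` (cores exchanged, families
exchanged), `M' := M''ᶜ`.  `Cp`: `pers` with `ws s` (a class off `B`; a component `Y /= M''` of
`cut G Q Mᶜ D` misses `mi B` because `cut G Q Mᶜ D ⊆ (mi M)ᶜ`); nontriviality on `Cp` by
`round` (restrict `ws s` to `T e`, which misses `B`); `Cm`: `pers_compl` for `Mᶜ`. -/
theorem s1_fill [Finite V] (hX : TorOK G X inc C C') (h : S1Inv G X C C' M lam)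
    (hD : IsComp G (Mᶜ ∩ X.Q) D) (hz : HZ G D) :
    ∃ (M' : Set (Cq G)) (lam' : Cq (sd G) → Vc), S1Inv (sd G) (X.sd G) C C' M' lam' ∧
      b0 (sd (sd G)) (FrIn (sd G) (X.sd G).Q M') < b0 (sd G) (FrIn G X.Q M) := by
  have hY : ∀ e, ¬ X.T e ⊆ Mᶜ := by
    intro e he
    obtain ⟨x, hx⟩ := (hX.cCm e).1
    exact he (hX.CmT e hx) (h.cm e hx)
  have hc := disc_curveT hX hY hD hz
  have hadm : Adm G X.Bs X.B Mᶜ (fq C' + fq C) := by
    rw [add_comm]; exact h.adm.swap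
  obtain ⟨M', hM', ha, hY', hb⟩ :=
    adm_cut hX.sph hX.wall hX.fams hX.fam hX.cBs hX.QBs hadm hD hz hc
  have hQ : mi G X.Q = (X.sd G).Q := mi_Q hX.dT
  obtain ⟨lam1, hl1⟩ := lab_step hX.wall hD hc h.lab.compl (near_T hX hD)
  have ha' : Adm (sd G) (mi G X.B) (mi G X.Bs) M'ᶜ (fq C + fq C') := by
    rw [add_comm]; exact ha.swap
  have hcB : Disjoint (cut G X.Q Mᶜ D) (mi G X.B) := by
    refine Set.disjoint_left.2 fun s hs hsB => ?_
    obtain ⟨x, hx, hxM⟩ := hs.1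
    exact hxM (h.adm.hB (hsB x hx))
  refine ⟨M'ᶜ, lam1, ⟨ha', ?_, ?_, ?_, ?_⟩, ?_⟩
  · intro e
    exact pers_compl (M := Mᶜ) (by rw [compl_compl]; exact h.cm e) hM'
  · intro e
    rw [compl_compl]
    obtain ⟨s, hs⟩ := hX.odd e
    have hTB : Disjoint (X.T e) X.B := hX.QB.mono_left (Set.subset_iUnion X.T e)
    have hns : ¬ Triv G (X.Cp e) (X.ws s) := by
      intro ht
      apply hs
      have hm := (hX.fams.coc s).rs_mem hTB
      have h1 : Triv G (X.Cp e) (rs G (X.T e) (X.ws s)) :=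
        ht.congr fun x y exy => (rs_apply (exy.mono (hX.CpT e))).symm
      have h2 := (hX.round e _ hm).2 h1
      exact h2.congr fun x y exy => rs_apply (exy.mono (hX.CmT e))
    refine pers (hX.fams.coc s) (hX.cCp e) (fun x hx => ⟨h.cp e hx, ?_⟩) hns hD hz ?_ hM'
      fun Y hYc hne => ⟨(hY' Y hYc hne).1, hcB.mono_left hYc.sub⟩
    · exact Set.mem_iUnion.2 ⟨e, hX.CpT e hx⟩
    · exact hX.QB.mono_left fun x hx => (hD.sub hx).2
  · have h1 := (hl1.mono (Fr_comp hM')).compl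
    rw [hQ] at h1
    exact h1
  · rw [← hQ, FrIn_compl]
    exact crc_cut hD hM' (by rw [FrIn_compl]; exact h.crc)
  · rw [← hQ, FrIn_compl]
    rw [FrIn_compl] at hb
    exact hb

/-- loop: after finitely many levels there is no disc any more (induction on `b0` of the curves) -/
theorem s1_loop {K : Lv} {n : ℕ} {X : Tor (tw K n).V Vc Ec Fc}
    (hX : TorOK (tw K n).G X inc C C') {M : Set (tw K n).V} {lam : Cq (tw K n).G → Vc}
    (h : S1Inv (tw K n).G X C C' M lam) :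
    ∃ (k : ℕ) (M' : Set (tw K (n + k)).V) (lam' : Cq (tw K (n + k)).G → Vc),
      S1Inv (tw K (n + k)).G (torN K n X k) C C' M' lam' ∧
      (∀ D, IsComp (tw K (n + k)).G (M' ∩ (torN K n X k).Q) D → ¬ HZ (tw K (n + k)).G D) ∧
      (∀ D, IsComp (tw K (n + k)).G (M'ᶜ ∩ (torN K n X k).Q) D →
        ¬ HZ (tw K (n + k)).G D) := by
  have key : ∀ (m k : ℕ) (M : Set (tw K (n + k)).V) (lam : Cq (tw K (n + k)).G → Vc),
      S1Inv (tw K (n + k)).G (torN K n X k) C C' M lam →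
      b0 (sd (tw K (n + k)).G) (FrIn (tw K (n + k)).G (torN K n X k).Q M) = m →
      ∃ (k : ℕ) (M' : Set (tw K (n + k)).V) (lam' : Cq (tw K (n + k)).G → Vc),
        S1Inv (tw K (n + k)).G (torN K n X k) C C' M' lam' ∧
        (∀ D, IsComp (tw K (n + k)).G (M' ∩ (torN K n X k).Q) D → ¬ HZ (tw K (n + k)).G D) ∧
        (∀ D, IsComp (tw K (n + k)).G (M'ᶜ ∩ (torN K n X k).Q) D →
          ¬ HZ (tw K (n + k)).G D) := by
    intro m
    induction m using Nat.strong_induction_on with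
    | _ m ih =>
      intro k M lam hI hm
      by_cases h1 : ∀ D, IsComp (tw K (n + k)).G (M ∩ (torN K n X k).Q) D →
          ¬ HZ (tw K (n + k)).G D
      · by_cases h2 : ∀ D, IsComp (tw K (n + k)).G (Mᶜ ∩ (torN K n X k).Q) D →
            ¬ HZ (tw K (n + k)).G D
        · exact ⟨k, M, lam, hI, h1, h2⟩
        · push Not at h2
          obtain ⟨D, hD, hz⟩ := h2
          obtain ⟨M', lam', hI', hlt⟩ := s1_fill (hX.torN k) hI hD hz
          exact ih _ (by rw [← hm]; exact hlt) (k + 1) M' lam' hI' rfl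
      · push Not at h1
        obtain ⟨D, hD, hz⟩ := h1
        obtain ⟨M', lam', hI', hlt⟩ := s1_cut (hX.torN k) hI hD hz
        exact ih _ (by rw [← hm]; exact hlt) (k + 1) M' lam' hI' rfl
  exact key _ 0 M lam h rfl

end MOT
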