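import Pool.Agent.MOT.Sza
import Pool.Agent.MOT.SaI
import Pool.Agent.MOT.Dua

/-!
# MOT/Szb: the pieces of `Fr M` after stage 1
-/

open Classical

noncomputable section

namespace MOT

variable {V : Type} {G : SimpleGraph V} {Vc Ec Fc : Type} [Fintype Ec] [Fintype Fc]
  {X : Tor V Vc Ec Fc} {inc : Vc → Ec → Prop} {C : Submodule (ZMod 2) (Ec → ZMod 2)}
  {C' : Submodule (ZMod 2) (Fc → ZMod 2)} {M : Set V} {lam : Cq G → Vc}

/-- the curves of `M` on the wall -/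
abbrev CrvT (G : SimpleGraph V) (X : Tor V Vc Ec Fc) (M : Set V) : Type :=
  {g : Set (Cq G) // IsComp (sd G) (FrIn G X.Q M) g}

/-- piece of a label `v`: outside vertices with this label and the curves next to them; piece of `e`:
inside vertices near `e` and the curves next to them -/
def PcO (G : SimpleGraph V) (X : Tor V Vc Ec Fc) (M : Set V) (lam : Cq G → Vc) :
    Vc ⊕ Ec → Set (Cq G)
  | Sum.inl v => {s | (s ∈ Out G X.Q X.P M ∧ lam s = v) ∨ ∃ g : CrvT G X M, s ∈ g.1 ∧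
      ∃ r ∈ g.1, ∃ t ∈ Out G X.Q X.P M, r < t ∧ lam t = v}
  | Sum.inr e => {s | (s ∈ Out G X.Q X.N M ∧ s ∈ pl G (X.We e)) ∨ ∃ g : CrvT G X M, s ∈ g.1 ∧
      ∃ r ∈ g.1, ∃ t ∈ Out G X.Q X.N M, r < t ∧ t ∈ pl G (X.We e)}

/-- zones of the pieces -/
def ZiT (G : SimpleGraph V) (X : Tor V Vc Ec Fc) : Vc ⊕ Ec → Set (Cq G)
  | Sum.inl v => pl G (X.Nv v)
  | Sum.inr e => pl G (X.We e)

/-- a mixed simplex is on the wall (on a curve), outside or inside -/
theorem Fr_cases (hX : TorOK G X inc C C') {s : Cq G} (hs : s ∈ Fr G M) :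
    s ∈ FrIn G X.Q M ∨ s ∈ Out G X.Q X.P M ∨ s ∈ Out G X.Q X.N M := by
  by_cases hQ : s ∈ mi G X.Q
  · exact Or.inl ⟨⟨hQ, hs.1⟩, hs.2⟩
  · have hQ' : ∃ x ∈ s.1, x ∉ X.Q := by
      by_contra hcon
      exact hQ fun x hx => by
        by_contra h'
        exact hcon ⟨x, hx, h'⟩
    obtain ⟨x, hx, hxQ⟩ := hQ'
    have hcov : ∀ y, y ∉ X.Q → y ∈ X.P ∨ y ∈ X.N := by
      intro y hy
      have := Set.eq_univ_iff_forall.1 hX.wall.cover y
      rcases this with (h1 | h1) | h1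
      · exact absurd h1 hy
      · exact Or.inl h1
      · exact Or.inr h1
    have hPN : ∀ y ∈ s.1, ∀ z ∈ s.1, y ∈ X.P → z ∈ X.N → False := by
      intro y hy z hz hyP hzN
      by_cases e : y = z
      · subst e
        exact Set.disjoint_left.1 hX.wall.dpn hyP hzN
      · exact hX.wall.nadj y hyP z hzN (s.2.2 (Finset.mem_coe.2 hy) (Finset.mem_coe.2 hz) e)
    rcases hcov x hxQ with h1 | h1
    · refine Or.inr (Or.inl ⟨hs, ⟨x, hx, hxQ⟩, fun y hy hyQ => ?_⟩)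
      rcases hcov y hyQ with h2 | h2
      · exact h2
      · exact (hPN x hx y hy h1 h2).elim
    · refine Or.inr (Or.inr ⟨hs, ⟨x, hx, hxQ⟩, fun y hy hyQ => ?_⟩)
      rcases hcov y hyQ with h2 | h2
      · exact (hPN y hy x hx h2 h1).elim
      · exact h2

private theorem FrIn_T1 (hX : TorOK G X inc C C') {s : Cq G} (hs : s ∈ FrIn G X.Q M) :
    ∃ e, s ∈ mi G (X.T e) := by
  have h1 : s ∈ (X.sd G).Q := by rw [← mi_Q hX.dT]; exact hs.1.1
  exact Set.mem_iUnion.1 h1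

private theorem FrIn_T2 (hX : TorOK G X inc C C') {s t : Cq G} {e e' : Ec}
    (hs : s ∈ mi G (X.T e)) (ht : t ∈ mi G (X.T e')) (hst : s ≤ t ∨ t ≤ s) : e = e' := by
  by_contra hne
  have hd := (hX.dT e e' hne).1
  rcases hst with h | h
  · obtain ⟨x, hx⟩ := s.2.1
    exact Set.disjoint_left.1 hd (hs x hx) (ht x (h hx))
  · obtain ⟨x, hx⟩ := t.2.1
    exact Set.disjoint_left.1 hd (hs x (h hx)) (ht x hx)

private theorem sdp_not_mi {Q P : Set V} {s : Cq G} (hs : s ∈ sdp G Q P) (h : s ∈ mi G Q) :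
    False := by
  obtain ⟨⟨x, hx, hxQ⟩, -⟩ := hs
  exact hxQ (h x hx)

private theorem Out_PN (hX : TorOK G X inc C C') {s t : Cq G} (hs : s ∈ Out G X.Q X.P M)
    (ht : t ∈ Out G X.Q X.N M) (hst : s ≤ t ∨ t ≤ s) : False := by
  rcases hst with h | h
  · obtain ⟨⟨x, hx, hxQ⟩, h2⟩ := hs.2
    exact Set.disjoint_left.1 hX.wall.dpn (h2 x hx hxQ) (ht.2.2 x (h hx) hxQ)
  · obtain ⟨⟨x, hx, hxQ⟩, h2⟩ := ht.2
    exact Set.disjoint_left.1 hX.wall.dpn (hs.2.2 x (h hx) hxQ) (h2 x hx hxQ)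

private theorem pl_up {A : Set V} {s t : Cq G} (hs : s ∈ pl G A) (hst : s ≤ t) : t ∈ pl G A := by
  obtain ⟨x, hx, hxA⟩ := hs
  exact ⟨x, hst hx, hxA⟩

/-- the curve through a simplex of the wall -/
private def crv (s : Cq G) (hs : s ∈ FrIn G X.Q M) : CrvT G X M :=
  ⟨comp (sd G) (FrIn G X.Q M) s, s, hs, rfl⟩

private theorem crv_self {s : Cq G} (hs : s ∈ FrIn G X.Q M) : s ∈ (crv (X := X) s hs).1 :=
  comp_self hs

private theorem N_We (hX : TorOK G X inc C C') {s : Cq G} (hs : s ∈ Out G X.Q X.N M) :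
    ∃ e, s ∈ pl G (X.We e) := by
  obtain ⟨⟨x, hx, hxQ⟩, h2⟩ := hs.2
  obtain ⟨e, he⟩ := Set.mem_iUnion.1 (hX.W2 (h2 x hx hxQ))
  exact ⟨e, x, hx, he⟩

/-- a curve lies in one torus -/
theorem curve_T (hX : TorOK G X inc C C') (g : CrvT G X M) : ∃ e, g.1 ⊆ mi G (X.T e) := by
  obtain ⟨g, s, hs, rfl⟩ := g
  obtain ⟨e, he⟩ := FrIn_T1 hX hs
  refine ⟨e, ?_⟩
  rintro t ⟨hr, -⟩
  induction hr with
  | refl => exact he
  | tail _ st ih =>
    obtain ⟨e', he'⟩ := FrIn_T1 hX st.2.2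
    have : e = e' := FrIn_T2 hX ih he' (st.1.imp le_of_lt le_of_lt)
    rw [this]; exact he'

theorem PcO_zone (hX : TorOK G X inc C C') (h : LabO G X.Q X.P M X.Nv lam) (i : Vc ⊕ Ec) :
    PcO G X M lam i ⊆ ZiT G X i := by
  cases i with
  | inl v =>
    rintro s (⟨hs, rfl⟩ | ⟨g, hsg, r, hr, t, ht, hrt, rfl⟩)
    · exact h.near s hs
    · obtain ⟨e, he⟩ := curve_T hX g
      have h1 : t ∈ pl G (X.Nv (lam t)) := h.near t ht
      have h2 : t ∈ pl G (X.We e) :=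
        pl_up (pl_mono (hX.W1 e) (mi_sub_pl (he hr))) hrt.le
      exact pl_mono ((hX.W1 e).trans (hX.W3 _ e (hX.W4 _ e t h2 h1))) (mi_sub_pl (he hsg))
  | inr e' =>
    rintro s (⟨-, hs⟩ | ⟨g, hsg, r, hr, t, ht, hrt, ht'⟩)
    · exact hs
    · obtain ⟨e, he⟩ := curve_T hX g
      have h2 : t ∈ pl G (X.We e) :=
        pl_up (pl_mono (hX.W1 e) (mi_sub_pl (he hr))) hrt.le
      have := hX.W5 e e' t h2 ht'
      subst this
      exact pl_mono (hX.W1 e) (mi_sub_pl (he hsg))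

/-- a piece containing a curve of the torus `T e` is near `e` -/
theorem PcO_near (hX : TorOK G X inc C C') (h : LabO G X.Q X.P M X.Nv lam) (g : CrvT G X M) {e : Ec}
    (he : g.1 ⊆ mi G (X.T e)) (i : Vc ⊕ Ec) (hi : g.1 ⊆ PcO G X M lam i) :
    (∀ v, i = Sum.inl v → inc v e) ∧ ∀ e', i = Sum.inr e' → e' = e := by
  obtain ⟨s, hs⟩ := g.2.conn.1
  have h1 : s ∈ ZiT G X i := PcO_zone hX h i (hi hs)
  have h2 : s ∈ pl G (X.We e) := pl_mono (hX.W1 e) (mi_sub_pl (he hs))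
  constructor
  · rintro v rfl
    exact hX.W4 v e s h2 h1
  · rintro e' rfl
    exact hX.W5 e' e s h1 h2

private theorem PcO_on (g : CrvT G X M) {s t : Cq G} (hs : s ∈ g.1) (ht : t ∈ g.1)
    (i : Vc ⊕ Ec) (hi : s ∈ PcO G X M lam i) : t ∈ PcO G X M lam i := by
  have hsF : s ∈ mi G X.Q := (g.2.sub hs).1.1
  cases i with
  | inl v =>
    rcases hi with ⟨h1, -⟩ | ⟨g', hsg, h2⟩
    · exact (sdp_not_mi h1.2 hsF).elim
    · have : g' = g := Subtype.ext (g'.2.eq_of_inter g.2 ⟨s, hsg, hs⟩)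
      subst this
      exact Or.inr ⟨g', ht, h2⟩
  | inr e =>
    rcases hi with ⟨h1, -⟩ | ⟨g', hsg, h2⟩
    · exact (sdp_not_mi h1.2 hsF).elim
    · have : g' = g := Subtype.ext (g'.2.eq_of_inter g.2 ⟨s, hsg, hs⟩)
      subst this
      exact Or.inr ⟨g', ht, h2⟩

private theorem FrIn_up (hX : TorOK G X inc C C') {s : Cq G} (hs : s ∈ FrIn G X.Q M) :
    ∃ t ∈ Out G X.Q X.P M, s < t := by
  obtain ⟨⟨p, hp1, hp2⟩, -⟩ := (hX.wall.hp s.1 s.2.1 s.2.2 (fun x hx =>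
    hs.1.1 x (Finset.mem_coe.1 hx))).1
  have hpQ : p ∉ X.Q := fun h => Set.disjoint_left.1 hX.wall.dqp h hp2
  have hcl : G.IsClique ((insert p s.1 : Finset V) : Set V) := by
    rw [Finset.coe_insert]
    refine s.2.2.insert fun x hx _ => (hp1 x hx).symm
  let t : Cq G := ⟨insert p s.1, ⟨p, Finset.mem_insert_self _ _⟩, hcl⟩
  have hle : s ≤ t := fun x hx => Finset.mem_insert_of_mem hx
  refine ⟨t, ⟨⟨pl_up hs.1.2 hle, pl_up hs.2 hle⟩, ⟨p, Finset.mem_insert_self _ _, hpQ⟩, ?_⟩,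
    lt_of_le_of_ne hle ?_⟩
  · intro x hx hxQ
    rcases Finset.mem_insert.1 hx with rfl | hx'
    · exact hp2
    · exact absurd (hs.1.1 x hx') hxQ
  · intro e
    have : p ∈ s.1 := by rw [e]; exact Finset.mem_insert_self _ _
    exact hpQ (hs.1.1 p this)

/-- THE PIECES.  `hn`: every curve carries a nontrivial class (result of stage 1, `s1_circ`). -/
theorem s1_pieces [Finite V] (hX : TorOK G X inc C C') (h : S1Inv G X C C' M lam)
    (hn : ∀ g : CrvT G X M, ∃ s, ¬ Triv (sd G) g.1 (pw G (X.ws s))) :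
    Pieces (sd G) (Fr G M) (mi G X.B) (PcO G X M lam) (ZiT G X)
      (fun g : CrvT G X M => g.1) where
  cS := Fr_Conn hX.sph h.adm.cM h.adm.cN
  sub := by
    have h1 : ∀ g : CrvT G X M, g.1 ⊆ Fr G M := fun g s hs =>
      ⟨(g.2.sub hs).1.2, (g.2.sub hs).2⟩
    intro i
    cases i with
    | inl v =>
      rintro s (⟨hs, -⟩ | ⟨g, hg, -⟩)
      · exact hs.1
      · exact h1 g hg
    | inr e =>
      rintro s (⟨hs, -⟩ | ⟨g, hg, -⟩)
      · exact hs.1
      · exact h1 g hg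
  cover := by
    intro x hx
    rcases Fr_cases hX hx with h1 | h1 | h1
    · obtain ⟨t, ht, hlt⟩ := FrIn_up hX h1
      exact ⟨Sum.inl (lam t), Or.inr ⟨crv x h1, crv_self h1, x, crv_self h1, t, ht, hlt, rfl⟩⟩
    · exact ⟨Sum.inl (lam x), Or.inl ⟨h1, rfl⟩⟩
    · obtain ⟨e, he⟩ := N_We hX h1
      exact ⟨Sum.inr e, Or.inl ⟨h1, he⟩⟩
  zone := PcO_zone hX h.lab
  fro := by
    intro i y hy z hz hzi hyz
    by_cases hyF : y ∈ FrIn G X.Q M
    · exact ⟨crv y hyF, crv_self hyF⟩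
    exfalso
    have hle : y ≤ z ∨ z ≤ y := hyz.imp le_of_lt le_of_lt
    have hlow : z ∈ FrIn G X.Q M → y ∉ mi G X.Q → z < y := by
      intro hzF hyQ
      rcases hyz with h1 | h1
      · exact absurd (fun x hx => hzF.1.1 x (h1.le hx)) hyQ
      · exact h1
    cases i with
    | inl v =>
      rcases hy with ⟨hyO, hyv⟩ | ⟨g, hg, -⟩
      · have hyQ : y ∉ mi G X.Q := fun h1 => sdp_not_mi hyO.2 h1
        rcases Fr_cases hX hz with h1 | h1 | h1
        · exact hzi (Or.inr ⟨crv z h1, crv_self h1, z, crv_self h1, y, hyO, hlow h1 hyQ, hyv⟩)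
        · refine hzi (Or.inl ⟨h1, ?_⟩)
          rw [← hyv]
          rcases hle with h2 | h2
          · exact (h.lab.const y z h2 hyO h1).symm
          · exact h.lab.const z y h2 h1 hyO
        · exact Out_PN hX hyO h1 hle
      · exact hyF (g.2.sub hg)
    | inr e =>
      rcases hy with ⟨hyO, hye⟩ | ⟨g, hg, -⟩
      · have hyQ : y ∉ mi G X.Q := fun h1 => sdp_not_mi hyO.2 h1
        rcases Fr_cases hX hz with h1 | h1 | h1
        · exact hzi (Or.inr ⟨crv z h1, crv_self h1, z, crv_self h1, y, hyO, hlow h1 hyQ, hye⟩)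
        · exact Out_PN hX h1 hyO hle.symm
        · refine hzi (Or.inl ⟨h1, ?_⟩)
          rcases hle with h2 | h2
          · exact pl_up hye h2
          · obtain ⟨e', he'⟩ := N_We hX h1
            have := hX.W5 e e' y hye (pl_up he' h2)
            rw [this]; exact he'
      · exact hyF (g.2.sub hg)
  csub := fun g s hs => ⟨(g.2.sub hs).1.2, (g.2.sub hs).2⟩
  cin := fun i g y hy hyi s hs => PcO_on g hy hs i hyi
  cc := fun g => g.2.conn
  cn := by
    intro g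
    obtain ⟨s, hs⟩ := hn g
    exact ⟨_, (hX.fams.coc s).pw, hs⟩
  cna := by
    intro g g' hne
    have hd : Disjoint g.1 g'.1 := by
      rw [Set.disjoint_left]
      intro s hs hs'
      exact hne (Subtype.ext (g.2.eq_of_inter g'.2 ⟨s, hs, hs'⟩))
    refine ⟨hd, fun s hs t ht => g.2.nadj s hs t ⟨g'.2.sub ht, fun ht' => ?_⟩⟩
    exact Set.disjoint_left.1 hd ht' ht

end MOT
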