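import Pool.Agent.MOT.SaS
import Pool.Agent.MOT.Szb
import Pool.Agent.MOT.SfT

/-!
# MOT/SaE: the end of stage 1
-/

open Classical

noncomputable section

namespace MOT

section part

variable {V : Type} {G : SimpleGraph V} {Q D A : Set V}

/-- a union of components of a surface is a surface -/
theorem Surf.part (h : Surf G Q) (hD : D ⊆ Q) (hn : NAdj G D (Q \ D)) : Surf G D where
  lk := by
    intro x hx
    have e : Lk G {x} ∩ D = Lk G {x} ∩ Q := by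
      ext y
      refine ⟨fun hy => ⟨hy.1, hD hy.2⟩, fun hy => ⟨hy.1, ?_⟩⟩
      by_contra hyD
      exact hn x hx y ⟨hy.2, hyD⟩ (hy.1 x rfl)
    rw [e]
    exact h.lk x (hD hx)
  k4 := fun s hs hsD => h.k4 s hs (hsD.trans hD)

end part

variable {V : Type} {G : SimpleGraph V} {Vc Ec Fc : Type} [Fintype Ec] [Fintype Fc]
  {X : Tor V Vc Ec Fc} {inc : Vc → Ec → Prop} {C : Submodule (ZMod 2) (Ec → ZMod 2)}
  {C' : Submodule (ZMod 2) (Fc → ZMod 2)} {M : Set V} {lam : Cq G → Vc}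

theorem T_surf (hX : TorOK G X inc C C') (e : Ec) : Surf G (X.T e) := by
  refine hX.wall.surf.part (Set.subset_iUnion X.T e) ?_
  rintro x hx y ⟨hy, hyT⟩
  obtain ⟨e', he'⟩ := Set.mem_iUnion.1 hy
  have hne : e ≠ e' := by
    rintro rfl
    exact hyT he'
  exact (hX.dT e e' hne).2 x hx y he'

/-- components in one torus are components in the wall -/
theorem comp_of_T (hX : TorOK G X inc C C') {A D : Set V} {e : Ec}
    (hD : IsComp G (A ∩ X.T e) D) : IsComp G (A ∩ X.Q) D := by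
  refine IsComp_of hD.conn (fun x hx => ⟨(hD.sub hx).1, Set.mem_iUnion.2 ⟨e, (hD.sub hx).2⟩⟩) ?_
  rintro x hx y ⟨⟨hyA, hyQ⟩, hyD⟩
  obtain ⟨e', he'⟩ := Set.mem_iUnion.1 hyQ
  by_cases hee : e = e'
  · subst hee
    exact hD.nadj x hx y ⟨⟨hyA, he'⟩, hyD⟩
  · exact (hX.dT e e' hee).2 x (hD.sub hx).2 y he'

/-- a curve on the wall is a curve in one torus -/
theorem comp_FrIn_T (hX : TorOK G X inc C C') {g : Set (Cq G)}
    (hg : IsComp (sd G) (FrIn G X.Q M) g) :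
    ∃ e, IsComp (sd G) (FrIn G (X.T e) M) g := by
  have hQ : mi G X.Q = (X.sd G).Q := mi_Q hX.dT
  obtain ⟨x, hx⟩ := hg.conn.1
  have hxQ : x ∈ (X.sd G).Q := hQ ▸ (hg.sub hx).1.1
  obtain ⟨e, he⟩ := Set.mem_iUnion.1 hxQ
  have key : ∀ y, Relation.ReflTransGen (EIn (sd G) g) x y → y ∈ mi G (X.T e) := by
    intro y hy
    induction hy with
    | refl => exact he
    | tail _ st ih =>
      have h1 := hQ ▸ (hg.sub st.2.2).1.1
      obtain ⟨e', he'⟩ := Set.mem_iUnion.1 h1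
      by_cases hee : e = e'
      · rw [hee]; exact he'
      · exact absurd st.1 (mi_nadj (hX.dT e e' hee).1 _ ih _ he')
  have hsub : g ⊆ mi G (X.T e) := fun y hy => key y (hg.conn.2 x hx y hy)
  refine ⟨e, IsComp_of hg.conn (fun y hy => ⟨⟨hsub hy, (hg.sub hy).1.2⟩, (hg.sub hy).2⟩) ?_⟩
  rintro y hy z ⟨⟨⟨hz1, hz2⟩, hz3⟩, hz4⟩
  exact hg.nadj y hy z ⟨⟨⟨mi_mono (Set.subset_iUnion X.T e) hz1, hz2⟩, hz3⟩, hz4⟩

/-- END OF STAGE 1: every curve lies in one torus and carries the same classes as its loop `Cm` -/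
theorem s1_circ [Finite V] (hX : TorOK G X inc C C') (h : S1Inv G X C C' M lam)
    (h1 : ∀ D, IsComp G (M ∩ X.Q) D → ¬ HZ G D) (h2 : ∀ D, IsComp G (Mᶜ ∩ X.Q) D → ¬ HZ G D)
    (g : CrvT G X M) : ∃ e, g.1 ⊆ mi G (X.T e) ∧
      ∀ s, (Triv (sd G) g.1 (pw G (X.ws s)) ↔ Triv G (X.Cm e) (X.ws s)) := by
  obtain ⟨e, he⟩ := comp_FrIn_T hX g.2
  refine ⟨e, fun s hs => (he.sub hs).1.1, fun s => ?_⟩
  have hTB : Disjoint (X.T e) X.B := hX.QB.mono_left (Set.subset_iUnion X.T e)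
  have hTB' : Disjoint (mi G (X.T e)) (mi G X.B) := mi_disj hTB
  obtain ⟨s0, hs0⟩ := hX.odd e
  have ho : ∃ a ∈ Z1 G (X.T e), ¬ Triv G (X.Cm e) a :=
    ⟨_, (hX.fams.coc s0).rs_mem hTB, fun ht => hs0
      (ht.congr fun x y exy => rs_apply (exy.mono (hX.CmT e)))⟩
  have key := (torus_curves (T_surf hX e) (hX.cT e) (hX.bT e)
    (fun D hD => h1 D (comp_of_T hX hD)) (fun D hD => h2 D (comp_of_T hX hD)) (hX.cCm e)
    (hX.cCp e).1 (fun x hx => ⟨h.cm e hx, hX.CmT e hx⟩)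
    (fun x hx => ⟨h.cp e hx, hX.CpT e hx⟩) (hX.round e) ho).2 g.1 he
    _ ((hX.fams.coc s).pw.rs_mem hTB')
  have hsub : g.1 ⊆ mi G (X.T e) := fun s hs => (he.sub hs).1.1
  have e1 : Triv (sd G) g.1 (rs (sd G) (mi G (X.T e)) (pw G (X.ws s))) ↔
      Triv (sd G) g.1 (pw G (X.ws s)) :=
    ⟨fun t => t.congr fun _ _ e => rs_apply (e.mono hsub),
      fun t => t.congr fun _ _ e => (rs_apply (e.mono hsub)).symm⟩
  have e2 : Triv (sd G) (mi G (X.Cm e)) (rs (sd G) (mi G (X.T e)) (pw G (X.ws s))) ↔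
      Triv (sd G) (mi G (X.Cm e)) (pw G (X.ws s)) :=
    ⟨fun t => t.congr fun _ _ e' => rs_apply (e'.mono (mi_mono (hX.CmT e))),
      fun t => t.congr fun _ _ e' => (rs_apply (e'.mono (mi_mono (hX.CmT e)))).symm⟩
  rw [← e1, key, e2, Triv_pw (hX.fams.coc s).symm (hX.fams.coc s).zero]

/-- the loops at the end carry the same classes as at the beginning -/
theorem torN_Cm {K : Lv} {n : ℕ} {X : Tor (tw K n).V Vc Ec Fc}
    (hX : TorOK (tw K n).G X inc C C') (k : ℕ) (e : Ec) (s : Fc) :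
    Triv (tw K (n + k)).G ((torN K n X k).Cm e) ((torN K n X k).ws s) ↔
      Triv (tw K n).G (X.Cm e) (X.ws s) := by
  induction k with
  | zero => exact Iff.rfl
  | succ k ih =>
    rw [← ih]
    exact Triv_pw ((hX.torN k).fams.coc s).symm ((hX.torN k).fams.coc s).zero

section stage

variable {Vc : Type} {Gc : SimpleGraph Vc}

/-- the neighbourhood of `v` meets the torus of `e` only if `v` is an end of `e` -/
theorem start_hO {V : Type} {G : SimpleGraph V} (S : Start1 Gc G) (v : Vc) (e : MOT.Ec Gc) (x : V)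
    (hv : x ∈ S.Om v) (he : x ∈ S.Wt e) : v ∈ e.1 := by
  have h1 := (S.Om_cr v x).1 hv
  have h2 := S.Wt_cr e x he x (Or.inl rfl)
  have hne : vx Gc v ≠ e.q := by
    intro h
    have h3 : ({v} : Finset Vc) = e.1 := congrArg Subtype.val h
    have h4 := e.2.1
    rw [← h3] at h4
    simp at h4
  rcases S.cr_chain x x (Or.inl rfl) (Or.inl h1) (Or.inl h2) hne with h | h
  · exact Cq.le_iff.1 h (Finset.mem_singleton_self v)
  · exfalso
    have h3 : e.1 ⊆ {v} := Cq.le_iff.1 h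
    have h4 := Finset.card_le_card h3
    rw [e.2.1, Finset.card_singleton] at h4
    omega

/-- STAGE 1 -/
theorem stage1 {K : Lv} {n : ℕ} (hc : IsSph3 Gc) (hG : IsSph3 (tw K n).G) [Finite Vc]
    [Fintype (MOT.Ec Gc)] [Fintype (MOT.Fc Gc)] (S : Start1 Gc (tw K n).G) :
    ∃ (k : ℕ) (M : Set (tw K (n + 1 + k)).V) (lam : Cq (tw K (n + 1 + k)).G → Vc),
      TorOK (tw K (n + 1 + k)).G (torN K (n + 1) (torS S) k) (fun v e => v ∈ e.1) (cutE Gc)
        (cutF Gc) ∧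
      S1Inv (tw K (n + 1 + k)).G (torN K (n + 1) (torS S) k) (cutE Gc) (cutF Gc) M lam ∧
      ∀ g : CrvT (tw K (n + 1 + k)).G (torN K (n + 1) (torS S) k) M, ∃ e : MOT.Ec Gc,
        g.1 ⊆ mi (tw K (n + 1 + k)).G ((torN K (n + 1) (torS S) k).T e) ∧
        ∀ s : MOT.Fc Gc, (Triv (sd (tw K (n + 1 + k)).G) g.1
          (pw (tw K (n + 1 + k)).G ((torN K (n + 1) (torS S) k).ws s)) ↔ ¬ e.1 ⊆ s.1) := by
  have hX : TorOK (tw K (n + 1)).G (torS S) (fun v e => v ∈ e.1) (cutE Gc) (cutF Gc) :=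
    start_ok hc hG S (start_hO S)
  obtain ⟨lam0, h0⟩ := start_inv hc S
  obtain ⟨k, M, lam, h, h1, h2⟩ := s1_loop (K := K) (n := n + 1) hX h0
  refine ⟨k, M, lam, hX.torN k, h, fun g => ?_⟩
  obtain ⟨e, he, hs⟩ := s1_circ (hX.torN k) h h1 h2 g
  refine ⟨e, he, fun s => ?_⟩
  rw [hs s, torN_Cm hX k e s]
  exact S.Cm_ws e s

end stage

end MOT
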