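import Pool.Agent.MOT.Pr
import Pool.Agent.MOT.Pat

/-!
# MOT/Start: interface between the topology (blocks C, THIN) and the end game (blocks S1, S2, P, I)
(helper82)

`Gc` = coarse complex in the domain (a level of the domain tower), `G` = ONE level of the range.  All sets
are vertex sets of `G` (`Cm`, `Cp`: of `sd G`).

Picture: `B` = deep inside of the 1-skeleton, `Bs` = deep inside of the dual graph, `cr x` = chain of coarse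
simplices in whose neighbourhood `x` lies, `M0` the THIN region, `Wt e` = solid torus around the edge `e` in the
collar, `Om v` = part at the vertex `v`.  `we e` = crossing the (dual disc of the) edge `e`, a cocycle
outside `Bde e ⊆ Bs`; `ws s` = crossing the triangle `s`, a cocycle outside `Bd s ⊆ B`.
-/

open Classical

noncomputable section

namespace MOT

variable {Vc V : Type}

/-- edges of the coarse complex -/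
def Ec (Gc : SimpleGraph Vc) : Type := {e : Finset Vc // e.card = 2 ∧ Gc.IsClique (e : Set Vc)}

/-- triangles of the coarse complex -/
def Fc (Gc : SimpleGraph Vc) : Type := {s : Finset Vc // s.card = 3 ∧ Gc.IsClique (s : Set Vc)}

/-- tetrahedra of the coarse complex -/
def Te (Gc : SimpleGraph Vc) : Type := {t : Finset Vc // IsTet Gc t}

instance [Finite Vc] (Gc : SimpleGraph Vc) : Finite (Ec Gc) :=
  inferInstanceAs (Finite {e : Finset Vc // e.card = 2 ∧ Gc.IsClique (e : Set Vc)})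

instance [Finite Vc] (Gc : SimpleGraph Vc) : Finite (Fc Gc) :=
  inferInstanceAs (Finite {s : Finset Vc // s.card = 3 ∧ Gc.IsClique (s : Set Vc)})

instance [Finite Vc] (Gc : SimpleGraph Vc) : Finite (Te Gc) :=
  inferInstanceAs (Finite {t : Finset Vc // IsTet Gc t})

/-- edge / triangle / tetrahedron as a simplex -/
def Ec.q {Gc : SimpleGraph Vc} (e : Ec Gc) : Cq Gc :=
  ⟨e.1, Finset.card_pos.1 (by rw [e.2.1]; norm_num), e.2.2⟩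

def Fc.q {Gc : SimpleGraph Vc} (s : Fc Gc) : Cq Gc :=
  ⟨s.1, Finset.card_pos.1 (by rw [s.2.1]; norm_num), s.2.2⟩

def Te.q {Gc : SimpleGraph Vc} (t : Te Gc) : Cq Gc :=
  ⟨t.1, Finset.card_pos.1 (by rw [t.2.1]; norm_num), t.2.2⟩

/-- linear combination of cochains -/
def cmb {I : Type} (A : I → ZMod 2) (w : I → V → V → ZMod 2) : V → V → ZMod 2 :=
  fun x y => ∑ᶠ i, A i * w i x y

/-- `w` is a cocycle on every clique which is not contained in `B` -/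
structure Coc (G : SimpleGraph V) (B : Set V) (w : V → V → ZMod 2) : Prop where
  sym : ∀ x y, w x y = w y x
  dia : ∀ x, w x x = 0
  coc : ∀ Q : Set V, G.IsClique Q → ¬ Q ⊆ B → ∀ x ∈ Q, ∀ y ∈ Q, ∀ z ∈ Q, w x y + w y z = w x z

/-- `w = d f` on every clique which is not contained in `B` -/
def TrO (G : SimpleGraph V) (B : Set V) (w : V → V → ZMod 2) (f : V → ZMod 2) : Prop :=
  ∀ Q : Set V, G.IsClique Q → ¬ Q ⊆ B → ∀ x ∈ Q, ∀ y ∈ Q, w x y = f x + f y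

/-- topology of the end game without THIN regions -/
structure Base (Gc : SimpleGraph Vc) (G : SimpleGraph V) where
  B : Set V
  Bs : Set V
  cr : V → Set (Cq Gc)
  top : V → Vc
  tt : V → Finset Vc
  we : Ec Gc → V → V → ZMod 2
  ws : Fc Gc → V → V → ZMod 2
  Bde : Ec Gc → Set V
  Bd : Fc Gc → Set V
  Lv : Vc → Set V
  Le : Ec Gc → Set V
  Lt : Te Gc → Set V
  Ls : Fc Gc → Set V
  cB : Conn G B
  cBs : Conn G Bs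
  nBB : NAdj G B Bs
  dBB : Disjoint B Bs
  /-- large cores -/
  BL : Set V
  BsL : Set V
  cBL : Conn G BL
  cBsL : Conn G BsL
  B_BL : B ⊆ BL
  Bs_BsL : Bs ⊆ BsL
  dBL : Disjoint BL BsL
  nBL : NAdj G BL BsL
  B_nb : ∀ x ∈ B, ∀ y, Nr G x y → y ∈ BL
  Bs_nb : ∀ x ∈ Bs, ∀ y, Nr G x y → y ∈ BsL
  cr_ne : ∀ x, (cr x).Nonempty
  cr_chain : ∀ x y, Nr G x y → IsChain (· ≤ ·) (cr x ∪ cr y)
  cr_top : ∀ x, x ∉ Bs → ∀ σ ∈ cr x, top x ∈ σ.1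
  cr_tt : ∀ x, x ∉ B → ∀ σ ∈ cr x, σ.1 ⊆ tt x
  /-- off `Bs`: `top` takes at most two values on a clique, they are equal or adjacent -/
  top_cl : ∀ Q : Set V, G.IsClique Q → ¬ Q ⊆ Bs → ∃ v w, (v = w ∨ Gc.Adj v w) ∧
    ∀ x ∈ Q, top x = v ∨ top x = w
  tt_cl : ∀ Q : Set V, G.IsClique Q → ¬ Q ⊆ B → ∃ t t' : Te Gc, (t = t' ∨ TAdj t.1 t'.1) ∧
    ∀ x ∈ Q, tt x = t.1 ∨ tt x = t'.1
  we_def : ∀ e, ∀ Q : Set V, G.IsClique Q → ¬ Q ⊆ Bs → ∀ x ∈ Q, ∀ y ∈ Q,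
    we e x y = if top x ≠ top y ∧ top x ∈ e.1 ∧ top y ∈ e.1 then 1 else 0
  ws_def : ∀ s, ∀ Q : Set V, G.IsClique Q → ¬ Q ⊆ B → ∀ x ∈ Q, ∀ y ∈ Q,
    ws s x y = if tt x ≠ tt y ∧ s.1 ⊆ tt x ∧ s.1 ⊆ tt y then 1 else 0
  we_coc : ∀ e, Coc G (Bde e) (we e)
  ws_coc : ∀ s, Coc G (Bd s) (ws s)
  Bde_sub : ∀ e, ∀ x ∈ Bde e, x ∈ Bs ∧ ∃ s : Fc Gc, e.1 ⊆ s.1 ∧ x ∈ Ls s
  Bd_sub : ∀ s, ∀ x ∈ Bd s, x ∈ B ∧ ∃ e : Ec Gc, e.1 ⊆ s.1 ∧ x ∈ Le e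
  lb_e : ∀ A : Ec Gc → ZMod 2, Triv G B (cmb A we) →
    ∃ f : Vc → ZMod 2, ∀ (e : Ec Gc) (v w : Vc), v ≠ w → v ∈ e.1 → w ∈ e.1 → A e = f v + f w
  lb_s : ∀ A : Fc Gc → ZMod 2, Triv G Bs (cmb A ws) →
    ∃ f : Te Gc → ZMod 2, ∀ (s : Fc Gc) (t t' : Te Gc), t ≠ t' → s.1 ⊆ t.1 → s.1 ⊆ t'.1 →
      A s = f t + f t'
  Lv_c : ∀ v, Conn G (Lv v)
  Le_c : ∀ e, Conn G (Le e)
  Lt_c : ∀ t, Conn G (Lt t)
  Ls_c : ∀ s, Conn G (Ls s)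
  Lv_top : ∀ v, ∀ x ∈ Lv v, top x = v ∧ vx Gc v ∈ cr x
  Le_top : ∀ e, ∀ x ∈ Le e, top x ∈ e.1
  Lt_tt : ∀ t, ∀ x ∈ Lt t, tt x = t.1 ∧ t.q ∈ cr x
  Ls_tt : ∀ s, ∀ x ∈ Ls s, s.1 ⊆ tt x
  Lv_Le : ∀ v e, v ∈ e.1 → Lv v ⊆ Le e
  Lt_Ls : ∀ t s, s.1 ⊆ t.1 → Lt t ⊆ Ls s
  Le_B : ∀ e, Le e ⊆ B
  Ls_Bs : ∀ s, Ls s ⊆ Bs
  /-- from a point far from `Z` one reaches `B` and `Bs` without coming near `Z` -/
  far_B : ∀ (Z : Set Vc) (x : V), (∀ s ∈ cr x, ¬ (s.1 : Set Vc) ⊆ nb Gc Z) →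
    ∃ y ∈ B, Relation.ReflTransGen (EIn G {z | ∀ s ∈ cr z, ¬ (s.1 : Set Vc) ⊆ Z}) x y
  far_Bs : ∀ (Z : Set Vc) (x : V), (∀ s ∈ cr x, ¬ (s.1 : Set Vc) ⊆ nb Gc Z) →
    ∃ y ∈ Bs, Relation.ReflTransGen (EIn G {z | ∀ s ∈ cr z, ¬ (s.1 : Set Vc) ⊆ Z}) x y

/-- input of stage 1: THIN region `M0` and the solid tori `Wt e` -/
structure Start1 (Gc : SimpleGraph Vc) (G : SimpleGraph V) extends Base Gc G where
  M0 : Set V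
  Wt : Ec Gc → Set V
  Om : Vc → Set V
  Cm : Ec Gc → Set (Cq G)
  Cp : Ec Gc → Set (Cq G)
  M0_B : BL ⊆ M0
  M0_Bs : Disjoint M0 BsL
  M0_c : Conn G M0
  M0_cc : Conn G M0ᶜ
  M0_bb : bb G M0 + Nat.card Vc + Nat.card (Te Gc) ≤ Nat.card (Ec Gc) + Nat.card (Fc Gc) + 2
  Wt_c : ∀ e, Conn G (Wt e)
  Wt_cc : ∀ e, Conn G (Wt e)ᶜ
  Wt_bb : ∀ e, bb G (Wt e) ≤ 2
  Wt_dis : ∀ e e', e ≠ e' → Disjoint (Wt e) (Wt e') ∧ NAdj G (Wt e) (Wt e')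
  Wt_B : ∀ e, Disjoint (Wt e) BL ∧ NAdj G (Wt e) BL
  Wt_Bs : ∀ e, Disjoint (Wt e) BsL ∧ NAdj G (Wt e) BsL
  Wt_cr : ∀ e, ∀ x ∈ Wt e, ∀ y, Nr G x y → e.q ∈ cr y
  Om_cr : ∀ v x, x ∈ Om v ↔ vx Gc v ∈ cr x
  Om_dis : ∀ v v', v ≠ v' → Disjoint (Om v) (Om v') ∧ NAdj G (Om v) (Om v')
  /-- every vertex of a clique which is mixed for `M0` lies in some `Wt e` or in some `Om v` -/
  loc0 : ∀ Q : Set V, G.IsClique Q → (Q ∩ M0).Nonempty → (Q \ M0).Nonempty → ∀ x ∈ Q,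
    (∃ e, x ∈ Wt e) ∨ ∃ v, x ∈ Om v
  loc1 : ∀ v e x y, x ∈ Om v → y ∈ Wt e → Nr G x y → v ∈ e.1
  Cm_c : ∀ e, Conn (sd G) (Cm e)
  Cp_c : ∀ e, Conn (sd G) (Cp e)
  Cm_Fr : ∀ e, Cm e ⊆ Fr G (Wt e)
  Cp_Fr : ∀ e, Cp e ⊆ Fr G (Wt e)
  Cm_M : ∀ e, Cm e ⊆ pl G M0
  Cp_M : ∀ e, Disjoint (Cp e) (pl G M0)
  round : ∀ e, ∀ a ∈ Z1 (sd G) (Fr G (Wt e)), (Triv (sd G) (Cm e) a ↔ Triv (sd G) (Cp e) a)
  Cm_ws : ∀ e s, (Triv (sd G) (Cm e) (pbk pk (ws s)) ↔ ¬ e.1 ⊆ s.1)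

/-- input of stage 2: plates `Ue e` (dual discs of the edges) and `Ud s` (triangles), same level -/
structure Start2 (Gc : SimpleGraph Vc) (G : SimpleGraph V) extends Start1 Gc G where
  Ue : Ec Gc → Set V
  Ud : Fc Gc → Set V
  Ue_c : ∀ e, Conn G (Ue e)
  Ue_cc : ∀ e, Conn G (Ue e)ᶜ
  Ue_bb : ∀ e, bb G (Ue e) = 0
  Ue_dis : ∀ e e', e ≠ e' → Disjoint (Ue e) (Ue e') ∧ NAdj G (Ue e) (Ue e')
  Ue_Bs : ∀ e, Disjoint (Ue e) Bs ∧ NAdj G (Ue e) Bs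
  Ue_Lv : ∀ e v, Disjoint (Ue e) (Lv v)
  Ue_Le : ∀ e e', e ≠ e' → Disjoint (Ue e) (Le e')
  Ue_cr : ∀ e, ∀ x ∈ Ue e, ∀ y, Nr G x y → e.q ∈ cr y
  rim_e : ∀ e, ∃ s : Fc Gc, e.1 ⊆ s.1 ∧ ¬ Triv G (Ue e ∩ BsL) (ws s)
  Ud_c : ∀ s, Conn G (Ud s)
  Ud_cc : ∀ s, Conn G (Ud s)ᶜ
  Ud_bb : ∀ s, bb G (Ud s) = 0
  Ud_dis : ∀ s s', s ≠ s' → Disjoint (Ud s) (Ud s') ∧ NAdj G (Ud s) (Ud s')
  Ud_B : ∀ s, Disjoint (Ud s) B ∧ NAdj G (Ud s) B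
  Ud_Lt : ∀ s t, Disjoint (Ud s) (Lt t)
  Ud_Ls : ∀ s s', s ≠ s' → Disjoint (Ud s) (Ls s')
  Ud_cr : ∀ s, ∀ x ∈ Ud s, ∀ y, Nr G x y → s.q ∈ cr y
  rim_s : ∀ s, ∃ e : Ec Gc, e.1 ⊆ s.1 ∧ ¬ Triv G (Ud s ∩ BL) (we e)
  /-- a clique which is mixed for `M0` and for a torus is not mixed for a plate -/
  curve_U : ∀ Q : Set V, G.IsClique Q → (Q ∩ M0).Nonempty → (Q \ M0).Nonempty →
    ∀ e, (Q ∩ Wt e).Nonempty → (Q \ Wt e).Nonempty → ∀ e', Q ⊆ Ue e' ∨ Disjoint Q (Ue e')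

end MOT
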