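import Pool.Agent.MOT.SaDef
import Pool.Agent.MOT.DuaB
import Pool.Agent.MOT.Start

/-!
# MOT/SaG: cut spaces of the coarse complex and of its dual graph
-/

open Classical

noncomputable section

namespace MOT

variable {Vc : Type} {Gc : SimpleGraph Vc}

/-- cuts of the 1-skeleton -/
def cutE (Gc : SimpleGraph Vc) : Submodule (ZMod 2) (Ec Gc → ZMod 2) where
  carrier := {A | ∃ f : Vc → ZMod 2, ∀ (e : Ec Gc) (v w : Vc), v ≠ w → v ∈ e.1 → w ∈ e.1 →
    A e = f v + f w}
  add_mem' := by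
    rintro A B ⟨f, hf⟩ ⟨g, hg⟩
    exact ⟨f + g, fun e v w h h1 h2 => by
      simp only [Pi.add_apply, hf e v w h h1 h2, hg e v w h h1 h2]; abel⟩
  zero_mem' := ⟨0, fun _ _ _ _ _ _ => by simp⟩
  smul_mem' := by
    rintro r A ⟨f, hf⟩
    exact ⟨r • f, fun e v w h h1 h2 => by
      simp only [Pi.smul_apply, hf e v w h h1 h2, smul_add]⟩

/-- cuts of the dual graph (tetrahedra, common triangles) -/
def cutF (Gc : SimpleGraph Vc) : Submodule (ZMod 2) (Fc Gc → ZMod 2) where
  carrier := {A | ∃ f : Te Gc → ZMod 2, ∀ (s : Fc Gc) (t t' : Te Gc), t ≠ t' → s.1 ⊆ t.1 →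
    s.1 ⊆ t'.1 → A s = f t + f t'}
  add_mem' := by
    rintro A B ⟨f, hf⟩ ⟨g, hg⟩
    exact ⟨f + g, fun s t t' h h1 h2 => by
      simp only [Pi.add_apply, hf s t t' h h1 h2, hg s t t' h h1 h2]; abel⟩
  zero_mem' := ⟨0, fun _ _ _ _ _ _ => by simp⟩
  smul_mem' := by
    rintro r A ⟨f, hf⟩
    exact ⟨r • f, fun s t t' h h1 h2 => by
      simp only [Pi.smul_apply, hf s t t' h h1 h2, smul_add]⟩

/-- the two ends of an edge -/
theorem Ec.ends (e : Ec Gc) : ∃ v w : Vc, v ≠ w ∧ Gc.Adj v w ∧ e.1 = {v, w} := by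
  obtain ⟨v, w, hvw, he⟩ := Finset.card_eq_two.1 e.2.1
  refine ⟨v, w, hvw, ?_, he⟩
  exact e.2.2 (by rw [he]; simp) (by rw [he]; simp) hvw

private theorem SaG_ins [Finite Vc] (s : Fc Gc) {z : Vc} (hz : z ∈ lkf Gc Set.univ s.1) :
    z ∉ s.1 ∧ IsTet Gc (insert z s.1) := by
  have h1 := mem_lkf_univ.1 hz
  have h2 : z ∉ s.1 := fun h => Gc.irrefl (h1 z h)
  refine ⟨h2, ?_, clique_insert s.2.2 fun y hy => (h1 y hy).symm⟩
  rw [Finset.card_insert_of_notMem h2, s.2.1]

/-- the two tetrahedra of a triangle -/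
theorem Fc.ends (h : IsSph3 Gc) [Finite Vc] (s : Fc Gc) : ∃ t t' : Te Gc, t ≠ t' ∧ s.1 ⊆ t.1 ∧
    s.1 ⊆ t'.1 ∧ ∀ t'' : Te Gc, s.1 ⊆ t''.1 → t'' = t ∨ t'' = t' := by
  obtain ⟨z, z', hzz, he⟩ := Finset.card_eq_two.1 (lkf_univ_card h s.2.2 s.2.1)
  have hz : z ∈ lkf Gc Set.univ s.1 := by rw [he]; simp
  have hz' : z' ∈ lkf Gc Set.univ s.1 := by rw [he]; simp
  obtain ⟨n1, t1⟩ := SaG_ins s hz
  obtain ⟨n2, t2⟩ := SaG_ins s hz'
  refine ⟨⟨insert z s.1, t1⟩, ⟨insert z' s.1, t2⟩, ?_, Finset.subset_insert _ _,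
    Finset.subset_insert _ _, ?_⟩
  · intro heq
    have h1 : insert z s.1 = insert z' s.1 := congrArg Subtype.val heq
    have h2 : z ∈ insert z' s.1 := by rw [← h1]; exact Finset.mem_insert_self _ _
    rcases Finset.mem_insert.1 h2 with h3 | h3
    · exact hzz h3
    · exact n1 h3
  · intro t'' hst
    have hc : (t''.1 \ s.1).card = 1 := by
      rw [Finset.card_sdiff_of_subset hst, t''.2.1, s.2.1]
    obtain ⟨u, hu⟩ := Finset.card_eq_one.1 hc
    have hu' : u ∈ t''.1 \ s.1 := by rw [hu]; simp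
    rw [Finset.mem_sdiff] at hu'
    have hul : u ∈ lkf Gc Set.univ s.1 := mem_lkf_univ.2 fun x hx =>
      t''.2.2 (Finset.mem_coe.2 (hst hx)) (Finset.mem_coe.2 hu'.1)
        (fun hxu => hu'.2 (hxu ▸ hx))
    have hte : t''.1 = insert u s.1 := by
      rw [← Finset.sdiff_union_of_subset hst, hu]; rfl
    rw [he] at hul
    rcases Finset.mem_insert.1 hul with h3 | h3
    · left
      exact Subtype.ext (by rw [hte, h3])
    · right
      rw [Finset.mem_singleton] at h3
      exact Subtype.ext (by rw [hte, h3])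

/-- the dual graph is connected (`sph_strong`) -/
theorem dual_conn (h : IsSph3 Gc) [Finite Vc] (f : Te Gc → ZMod 2)
    (hf : ∀ (s : Fc Gc) (t t' : Te Gc), s.1 ⊆ t.1 → s.1 ⊆ t'.1 → f t = f t') (t t' : Te Gc) :
    f t = f t' := by
  let F : Finset Vc → ZMod 2 := fun T => if hT : IsTet Gc T then f ⟨T, hT⟩ else 0
  have hF : ∀ T : Te Gc, F T.1 = f T := fun T => dif_pos T.2
  have hne : ∀ T : Te Gc, ∃ x ∈ T.1, x ∈ (Set.univ : Set Vc) := by
    intro T
    obtain ⟨x, hx⟩ := Finset.card_pos.1 (by rw [T.2.1]; norm_num : 0 < T.1.card)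
    exact ⟨x, hx, Set.mem_univ x⟩
  have key := sph_strong h h.conn F (by
    intro s hs hs3 _ z hz z' hz'
    obtain ⟨-, t1⟩ := SaG_ins (⟨s, hs3, hs⟩ : Fc Gc) hz
    obtain ⟨-, t2⟩ := SaG_ins (⟨s, hs3, hs⟩ : Fc Gc) hz'
    have e1 : F (insert z s) = f ⟨insert z s, t1⟩ := dif_pos t1
    have e2 : F (insert z' s) = f ⟨insert z' s, t2⟩ := dif_pos t2
    rw [e1, e2]
    exact hf ⟨s, hs3, hs⟩ _ _ (Finset.subset_insert _ _) (Finset.subset_insert _ _))
    (T := t.1) (T' := t'.1) t.2.2 t.2.1 (hne t) t'.2.2 t'.2.1 (hne t')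
  rw [hF, hF] at key
  exact key

/-- rank counting: `C` is the range of a linear map with kernel the constants -/
private theorem SaG_count {I E : Type} [Finite I] [Finite E] [Nonempty I]
    (C : Submodule (ZMod 2) (E → ZMod 2)) (D : (I → ZMod 2) →ₗ[ZMod 2] (E → ZMod 2))
    (h1 : LinearMap.range D = C) (h2 : ∀ f, D f = 0 ↔ ∀ i j, f i = f j) :
    fq C + Nat.card I = Nat.card E + 1 := by
  haveI := Fintype.ofFinite I
  haveI := Fintype.ofFinite E
  have hker : LinearMap.ker D = Submodule.span (ZMod 2) {(1 : I → ZMod 2)} := by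
    ext f
    rw [LinearMap.mem_ker, h2, Submodule.mem_span_singleton]
    constructor
    · intro hf
      obtain ⟨i0⟩ := (inferInstance : Nonempty I)
      refine ⟨f i0, ?_⟩
      funext i
      simp only [Pi.smul_apply, Pi.one_apply, smul_eq_mul, mul_one]
      exact hf i0 i
    · rintro ⟨c, rfl⟩ i j
      rfl
  have hk1 : Module.finrank (ZMod 2) (LinearMap.ker D) = 1 := by
    rw [hker]
    refine finrank_span_singleton ?_
    intro h
    obtain ⟨i0⟩ := (inferInstance : Nonempty I)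
    have := congrFun h i0
    exact one_ne_zero this
  have hr := LinearMap.finrank_range_add_finrank_ker D
  rw [h1, hk1, Module.finrank_fintype_fun_eq_card] at hr
  have hq := Submodule.finrank_quotient_add_finrank C
  rw [Module.finrank_fintype_fun_eq_card] at hq
  unfold fq
  rw [Nat.card_eq_fintype_card, Nat.card_eq_fintype_card]
  omega

/-- `dim (F_2^E / cuts) = E - V + 1`: the coboundary `(Vc → F_2) → cuts` is onto with kernel the
constants -/
theorem fq_cutE (h : IsSph3 Gc) [Finite Vc] :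
    fq (cutE Gc) + Nat.card Vc = Nat.card (Ec Gc) + 1 := by
  haveI : Nonempty Vc := ⟨h.conn.1.some⟩
  let D : (Vc → ZMod 2) →ₗ[ZMod 2] (Ec Gc → ZMod 2) :=
    { toFun := fun f e => ∑ v ∈ e.1, f v
      map_add' := by
        intro f g; funext e
        simp only [Pi.add_apply, Finset.sum_add_distrib]
      map_smul' := by
        intro c f; funext e
        simp only [Pi.smul_apply, smul_eq_mul, RingHom.id_apply, Finset.mul_sum] }
  have hD : ∀ f (e : Ec Gc) (v w : Vc), v ≠ w → v ∈ e.1 → w ∈ e.1 → D f e = f v + f w := by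
    intro f e v w hvw hv hw
    have he : e.1 = {v, w} := by
      symm
      refine Finset.eq_of_subset_of_card_le ?_ ?_
      · intro x hx
        rcases Finset.mem_insert.1 hx with rfl | hx
        · exact hv
        · rw [Finset.mem_singleton.1 hx]; exact hw
      · rw [e.2.1, Finset.card_pair hvw]
    change ∑ v ∈ e.1, f v = f v + f w
    rw [he, Finset.sum_pair hvw]
  refine SaG_count (cutE Gc) D ?_ ?_
  · ext A
    constructor
    · rintro ⟨f, rfl⟩
      exact ⟨f, hD f⟩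
    · rintro ⟨f, hf⟩
      refine ⟨f, ?_⟩
      funext e
      obtain ⟨v, w, hvw, -, he⟩ := e.ends
      have hv : v ∈ e.1 := by rw [he]; simp
      have hw : w ∈ e.1 := by rw [he]; simp
      rw [hD f e v w hvw hv hw, hf e v w hvw hv hw]
  · intro f
    constructor
    · intro hf i j
      refine h.conn.const (f := f) ?_ (Set.mem_univ i) (Set.mem_univ j)
      intro v w hvw
      have hcl : Gc.IsClique (({v, w} : Finset Vc) : Set Vc) := by
        have := clique_insert (G := Gc) (x := v) (s := {w}) (by simp) (by simpa using hvw.1)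
        exact this
      have h1 := congrFun hf (⟨{v, w}, Finset.card_pair hvw.1.ne, hcl⟩ : Ec Gc)
      rw [hD f _ v w hvw.1.ne (by simp) (by simp)] at h1
      exact (z2_eq _ _).1 h1
    · intro hf
      funext e
      obtain ⟨v, w, hvw, -, he⟩ := e.ends
      have hv : v ∈ e.1 := by rw [he]; simp
      have hw : w ∈ e.1 := by rw [he]; simp
      rw [hD f e v w hvw hv hw, hf v w]
      exact two_add _

private theorem SaG_sum (h : IsSph3 Gc) [Finite Vc] [Fintype (Te Gc)] (f : Te Gc → ZMod 2)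
    (s : Fc Gc) (t t' : Te Gc) (htt : t ≠ t') (h1 : s.1 ⊆ t.1) (h2 : s.1 ⊆ t'.1) :
    ∑ u : Te Gc, f u * (if s.1 ⊆ u.1 then 1 else 0) = f t + f t' := by
  obtain ⟨a, b, hab, ha, hb, hu⟩ := Fc.ends h s
  have hsub : ∀ u : Te Gc, s.1 ⊆ u.1 → u = t ∨ u = t' := by
    intro u hus
    rcases hu t h1 with rfl | rfl
    · rcases hu t' h2 with rfl | rfl
      · exact absurd rfl htt
      · exact hu u hus
    · rcases hu t' h2 with rfl | rfl
      · exact (hu u hus).symm
      · exact absurd rfl htt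
  rw [← Finset.sum_pair htt (f := f)]
  symm
  refine Finset.sum_subset_zero_on_sdiff (Finset.subset_univ _) ?_ ?_
  · intro u hus
    rw [Finset.mem_sdiff] at hus
    have : ¬ s.1 ⊆ u.1 := by
      intro h3
      apply hus.2
      rcases hsub u h3 with rfl | rfl
      · simp
      · simp
    rw [if_neg this, mul_zero]
  · intro u hus
    have : s.1 ⊆ u.1 := by
      rcases Finset.mem_insert.1 hus with rfl | h3
      · exact h1
      · rw [Finset.mem_singleton.1 h3]; exact h2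
    rw [if_pos this, mul_one]

theorem fq_cutF (h : IsSph3 Gc) [Finite Vc] :
    fq (cutF Gc) + Nat.card (Te Gc) = Nat.card (Fc Gc) + 1 := by
  haveI : Nonempty (Te Gc) := by
    obtain ⟨y, hy⟩ := (h.vert h.conn.1.some).1.1
    obtain ⟨T, c1, c2, -, -⟩ := edge_tet h (hy _ rfl)
    exact ⟨⟨T, c2, c1⟩⟩
  haveI := Fintype.ofFinite (Te Gc)
  let D : (Te Gc → ZMod 2) →ₗ[ZMod 2] (Fc Gc → ZMod 2) :=
    { toFun := fun f s => ∑ u : Te Gc, f u * (if s.1 ⊆ u.1 then 1 else 0)
      map_add' := by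
        intro f g; funext e
        simp only [Pi.add_apply, add_mul, Finset.sum_add_distrib]
      map_smul' := by
        intro c f; funext e
        simp only [Pi.smul_apply, smul_eq_mul, RingHom.id_apply, Finset.mul_sum, mul_assoc] }
  have hD : ∀ f (s : Fc Gc) (t t' : Te Gc), t ≠ t' → s.1 ⊆ t.1 → s.1 ⊆ t'.1 →
      D f s = f t + f t' := fun f s t t' h1 h2 h3 => SaG_sum h f s t t' h1 h2 h3
  refine SaG_count (cutF Gc) D ?_ ?_
  · ext A
    constructor
    · rintro ⟨f, rfl⟩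
      exact ⟨f, hD f⟩
    · rintro ⟨f, hf⟩
      refine ⟨f, ?_⟩
      funext s
      obtain ⟨t, t', htt, h1, h2, -⟩ := Fc.ends h s
      rw [hD f s t t' htt h1 h2, hf s t t' htt h1 h2]
  · intro f
    constructor
    · intro hf i j
      refine dual_conn h f ?_ i j
      intro s t t' h1 h2
      by_cases htt : t = t'
      · rw [htt]
      · have h3 := congrFun hf s
        rw [hD f s t t' htt h1 h2] at h3
        exact (z2_eq _ _).1 h3
    · intro hf
      funext s
      obtain ⟨t, t', htt, h1, h2, -⟩ := Fc.ends h s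
      rw [hD f s t t' htt h1 h2, hf t t']
      exact two_add _

/-- every edge is in a triangle -/
theorem Ec.tri (h : IsSph3 Gc) [Finite Vc] (e : Ec Gc) : ∃ s : Fc Gc, e.1 ⊆ s.1 := by
  obtain ⟨z, hz⟩ := (h.edge e.1 e.2.2 e.2.1).1.1
  have hz' : ∀ u ∈ e.1, Gc.Adj z u := fun u hu => (hz u (Finset.mem_coe.2 hu)).symm
  have hn : z ∉ e.1 := fun h1 => Gc.irrefl (hz' z h1)
  refine ⟨⟨insert z e.1, ?_, clique_insert e.2.2 hz'⟩, Finset.subset_insert _ _⟩
  rw [Finset.card_insert_of_notMem hn, e.2.1]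

private theorem SaG_lc {I E : Type} [Fintype I] [Fintype E] {V : Type} (f : I → ZMod 2)
    (c : I → E → ZMod 2) (w : E → V → V → ZMod 2) {A : E → ZMod 2}
    (hA : ∀ e, A e = ∑ i, f i * c i e) (x y : V) :
    lc A w x y = ∑ i, f i * cmb (c i) w x y := by
  unfold lc cmb
  have h1 : ∀ i, (∑ᶠ e, c i e * w e x y) = ∑ e, c i e * w e x y := fun i =>
    finsum_eq_sum_of_fintype _
  simp only [h1, Finset.mul_sum]
  rw [Finset.sum_comm]
  refine Finset.sum_congr rfl fun e _ => ?_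
  rw [hA e, Finset.sum_mul]
  exact Finset.sum_congr rfl fun i _ => mul_assoc _ _ _

/-- `Σ_v f v Σ_(e > v) w e = Σ_e (f v + f w) w e` -/
theorem lc_cutE [Fintype Vc] [Fintype (Ec Gc)] {V : Type} (f : Vc → ZMod 2)
    (w : Ec Gc → V → V → ZMod 2) {A : Ec Gc → ZMod 2}
    (hA : ∀ (e : Ec Gc) (v w : Vc), v ≠ w → v ∈ e.1 → w ∈ e.1 → A e = f v + f w) (x y : V) :
    lc A w x y = ∑ v, f v * cmb (fun e : Ec Gc => if v ∈ e.1 then 1 else 0) w x y := by
  refine SaG_lc f (fun v (e : Ec Gc) => if v ∈ e.1 then 1 else 0) w ?_ x y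
  intro e
  obtain ⟨v, v', hvw, -, he⟩ := e.ends
  have hv : v ∈ e.1 := by rw [he]; simp
  have hw : v' ∈ e.1 := by rw [he]; simp
  rw [hA e v v' hvw hv hw, ← Finset.sum_pair hvw (f := f)]
  refine Finset.sum_subset_zero_on_sdiff (Finset.subset_univ _) ?_ ?_
  · intro u hus
    rw [Finset.mem_sdiff, ← he] at hus
    rw [if_neg hus.2, mul_zero]
  · intro u hus
    rw [← he] at hus
    rw [if_pos hus, mul_one]

theorem lc_cutF (h : IsSph3 Gc) [Fintype Vc] [Fintype (Te Gc)] [Fintype (Fc Gc)] {V : Type}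
    (f : Te Gc → ZMod 2) (w : Fc Gc → V → V → ZMod 2) {A : Fc Gc → ZMod 2}
    (hA : ∀ (s : Fc Gc) (t t' : Te Gc), t ≠ t' → s.1 ⊆ t.1 → s.1 ⊆ t'.1 → A s = f t + f t')
    (x y : V) :
    lc A w x y = ∑ t, f t * cmb (fun s : Fc Gc => if s.1 ⊆ t.1 then 1 else 0) w x y := by
  refine SaG_lc f (fun t (s : Fc Gc) => if s.1 ⊆ t.1 then 1 else 0) w ?_ x y
  intro s
  obtain ⟨t, t', htt, h1, h2, -⟩ := Fc.ends h s
  rw [hA s t t' htt h1 h2]
  exact (SaG_sum h f s t t' htt h1 h2).symm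

end MOT
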