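import Pool.Agent.MOT.SuDef
import Pool.Agent.MOT.SaG

/-!
# MOT/SuA: `Base` gives `BaseU`, `Start2` gives `PltU`
-/

open Classical

noncomputable section

namespace MOT

variable {Vc V : Type} {Gc : SimpleGraph Vc} {G : SimpleGraph V}

private theorem sua_union {I : Type} {P : I → Prop} {L : I → Set V} (hne : ∃ i, P i)
    (hc : ∀ i, P i → Conn G (L i))
    (hj : ∀ i j, P i → P j → Relation.ReflTransGen
      (fun a b => P b ∧ (L a ∩ L b).Nonempty) i j) :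
    Conn G (⋃ i : I, ⋃ _ : P i, L i) := by
  have hsub : ∀ i, P i → L i ⊆ ⋃ i : I, ⋃ _ : P i, L i := fun i hi x hx =>
    Set.mem_iUnion.2 ⟨i, Set.mem_iUnion.2 ⟨hi, hx⟩⟩
  refine Conn_iff.2 ⟨?_, ?_⟩
  · obtain ⟨i, hi⟩ := hne
    obtain ⟨x, hx⟩ := (hc i hi).1
    exact ⟨x, hsub i hi hx⟩
  · intro f hf x hx y hy
    obtain ⟨i, hx⟩ := Set.mem_iUnion.1 hx
    obtain ⟨hi, hx⟩ := Set.mem_iUnion.1 hx
    obtain ⟨j, hy⟩ := Set.mem_iUnion.1 hy
    obtain ⟨hj', hy⟩ := Set.mem_iUnion.1 hy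
    have hL : ∀ k, P k → ∀ u ∈ L k, ∀ v ∈ L k, f u = f v := fun k hk u hu v hv =>
      (hc k hk).const (fun a b e => hf a b (e.mono (hsub k hk))) hu hv
    have key : ∀ k, Relation.ReflTransGen (fun a b => P b ∧ (L a ∩ L b).Nonempty) i k →
        P k ∧ ∀ z ∈ L k, f x = f z := by
      intro k h
      induction h with
      | refl => exact ⟨hi, fun z hz => hL i hi x hx z hz⟩
      | tail _ e ih =>
        obtain ⟨hk, u, hu1, hu2⟩ := e
        exact ⟨hk, fun z hz => (ih.2 u hu1).trans (hL _ hk u hu2 z hz)⟩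
    exact (key j (hj i j hi hj')).2 y hy

/-- union of the `Le e`, `e < s`; any two of these edges have a common vertex `v`, `Lv v ⊆ Le e ∩ Le e'` -/
theorem Base.Lb_conn (S : Base Gc G) (s : Fc Gc) :
    Conn G (⋃ e : Ec Gc, ⋃ _ : e.1 ⊆ s.1, S.Le e) := by
  refine sua_union (P := fun e : Ec Gc => e.1 ⊆ s.1) (L := S.Le) ?_ (fun e _ => S.Le_c e) ?_
  · obtain ⟨q, hq1, hq2⟩ := Finset.exists_subset_card_eq (s := s.1) (n := 2)
      (by rw [s.2.1]; norm_num)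
    exact ⟨⟨q, hq2, s.2.2.subset (Finset.coe_subset.2 hq1)⟩, hq1⟩
  · intro e e' he he'
    refine Relation.ReflTransGen.single ⟨he', ?_⟩
    have h1 : (e.1 ∩ e'.1).Nonempty := by
      by_contra hn
      rw [Finset.not_nonempty_iff_eq_empty] at hn
      have h2 := Finset.card_union_add_card_inter e.1 e'.1
      rw [hn, Finset.card_empty, e.2.1, e'.2.1] at h2
      have h3 := Finset.card_le_card (Finset.union_subset he he')
      rw [s.2.1] at h3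
      omega
    obtain ⟨v, hv⟩ := h1
    rw [Finset.mem_inter] at hv
    obtain ⟨x, hx⟩ := (S.Lv_c v).1
    exact ⟨x, S.Lv_Le v e hv.1 hx, S.Lv_Le v e' hv.2 hx⟩

private theorem sua_ins {e : Ec Gc} {z : Vc} (hz : z ∈ Lk Gc (e.1 : Set Vc)) :
    z ∉ e.1 ∧ (insert z e.1).card = 3 ∧ Gc.IsClique ((insert z e.1 : Finset Vc) : Set Vc) := by
  have h1 : z ∉ e.1 := fun h => Gc.irrefl (hz z (Finset.mem_coe.2 h))
  refine ⟨h1, by rw [Finset.card_insert_of_notMem h1, e.2.1], ?_⟩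
  rw [Finset.coe_insert]
  exact e.2.2.insert fun y hy _ => (hz y hy).symm

private theorem sua_ex {e : Ec Gc} {s : Fc Gc} (h : e.1 ⊆ s.1) :
    ∃ z ∈ Lk Gc (e.1 : Set Vc), s.1 = insert z e.1 := by
  have hc : (s.1 \ e.1).card = 1 := by
    rw [Finset.card_sdiff_of_subset h, s.2.1, e.2.1]
  obtain ⟨z, hz⟩ := Finset.card_eq_one.1 hc
  have hz' : z ∈ s.1 \ e.1 := by rw [hz]; simp
  rw [Finset.mem_sdiff] at hz'
  refine ⟨z, fun x hx => ?_, ?_⟩
  · exact s.2.2 (Finset.mem_coe.2 (h (Finset.mem_coe.1 hx))) (Finset.mem_coe.2 hz'.1)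
      (fun hxz => hz'.2 (hxz ▸ Finset.mem_coe.1 hx))
  · rw [← Finset.sdiff_union_of_subset h, hz]
    rfl

/-- union of the `Ls s`, `e < s`; the link of `e` is a cycle (`IsSph3.edge`): the triangles around `e` are
connected through tetrahedra `t`, `Lt t ⊆ Ls s ∩ Ls s'` -/
theorem Base.Lbs_conn (hc : IsSph3 Gc) [Finite Vc] (S : Base Gc G) (e : Ec Gc) :
    Conn G (⋃ s : Fc Gc, ⋃ _ : e.1 ⊆ s.1, S.Ls s) := by
  have hcyc := (hc.edge e.1 e.2.2 e.2.1).1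
  refine sua_union (P := fun s : Fc Gc => e.1 ⊆ s.1) (L := S.Ls) ?_ (fun s _ => S.Ls_c s) ?_
  · obtain ⟨z, hz⟩ := hcyc.1
    obtain ⟨-, h2, h3⟩ := sua_ins hz
    exact ⟨⟨insert z e.1, h2, h3⟩, Finset.subset_insert _ _⟩
  · intro s s' hs hs'
    obtain ⟨z, hz, hsz⟩ := sua_ex hs
    obtain ⟨z', hz', hsz'⟩ := sua_ex hs'
    have key : ∀ w, Relation.ReflTransGen (EIn Gc (Lk Gc (e.1 : Set Vc))) z w →
        ∀ r : Fc Gc, r.1 = insert w e.1 → Relation.ReflTransGen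
          (fun a b : Fc Gc => e.1 ⊆ b.1 ∧ (S.Ls a ∩ S.Ls b).Nonempty) s r := by
      intro w hw
      induction hw with
      | refl =>
        intro r hr
        have : r = s := Subtype.ext (hr.trans hsz.symm)
        rw [this]
      | @tail u w _ he ih =>
        intro r hr
        obtain ⟨hadj, hu, hw⟩ := he
        obtain ⟨hu1, hu2, hu3⟩ := sua_ins hu
        have h1 := ih ⟨insert u e.1, hu2, hu3⟩ rfl
        refine h1.tail ⟨by rw [hr]; exact Finset.subset_insert _ _, ?_⟩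
        have hwu : w ∉ insert u e.1 := by
          rw [Finset.mem_insert]
          rintro (h | h)
          · exact hadj.ne h.symm
          · exact (sua_ins hw).1 h
        have ht : IsTet Gc (insert w (insert u e.1)) := by
          refine ⟨by rw [Finset.card_insert_of_notMem hwu, hu2], ?_⟩
          rw [Finset.coe_insert]
          refine hu3.insert fun y hy _ => ?_
          rw [Finset.coe_insert] at hy
          rcases hy with hy | hy
          · rw [hy]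
            exact hadj.symm
          · exact (hw y hy).symm
        obtain ⟨x, hx⟩ := (S.Lt_c ⟨_, ht⟩).1
        refine ⟨x, S.Lt_Ls ⟨_, ht⟩ _ ?_ hx, S.Lt_Ls ⟨_, ht⟩ _ ?_ hx⟩
        · exact Finset.subset_insert _ _
        · rw [hr]
          exact Finset.insert_subset_insert _ (Finset.subset_insert _ _)
    exact key z' (hcyc.2 z hz z' hz') s' hsz'

/-- the stable record (at the start `NT = Bs`, `NTs = B`) -/
def Base.toU (hc : IsSph3 Gc) [Finite Vc] (S : Base Gc G) : BaseU Gc G where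
  B := S.B
  Bs := S.Bs
  BL := S.BL
  BsL := S.BsL
  NT := S.Bs
  NTs := S.B
  cr := S.cr
  top := S.top
  tt := S.tt
  we := S.we
  ws := S.ws
  Bde := S.Bde
  Bd := S.Bd
  Lv := S.Lv
  Le := S.Le
  Lt := S.Lt
  Ls := S.Ls
  Lb s := ⋃ e : Ec Gc, ⋃ _ : e.1 ⊆ s.1, S.Le e
  Lbs e := ⋃ s : Fc Gc, ⋃ _ : e.1 ⊆ s.1, S.Ls s
  cB := S.cB
  cBs := S.cBs
  nBB := S.nBB
  dBB := S.dBB
  cBL := S.cBL
  cBsL := S.cBsL
  B_BL := S.B_BL
  Bs_BsL := S.Bs_BsL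
  dBL := S.dBL
  nBL := S.nBL
  NTs_nb := S.B_nb
  NT_nb := S.Bs_nb
  cr_ne := S.cr_ne
  cr_chain := S.cr_chain
  cr_top := S.cr_top
  cr_tt := S.cr_tt
  top_cl := S.top_cl
  tt_cl := S.tt_cl
  we_def := S.we_def
  ws_def := S.ws_def
  we_coc := S.we_coc
  ws_coc := S.ws_coc
  Bde_Lbs e := by
    intro x hx
    obtain ⟨_, s, hs, hxs⟩ := S.Bde_sub e x hx
    exact Set.mem_iUnion.2 ⟨s, Set.mem_iUnion.2 ⟨hs, hxs⟩⟩
  Bd_Lb s := by
    intro x hx
    obtain ⟨_, e, he, hxe⟩ := S.Bd_sub s x hx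
    exact Set.mem_iUnion.2 ⟨e, Set.mem_iUnion.2 ⟨he, hxe⟩⟩
  lb_e := S.lb_e
  lb_s := S.lb_s
  Lv_c := S.Lv_c
  Le_c := S.Le_c
  Lt_c := S.Lt_c
  Ls_c := S.Ls_c
  Lb_c := S.Lb_conn
  Lbs_c := S.Lbs_conn hc
  Lv_top := S.Lv_top
  Le_top := S.Le_top
  Lt_tt := S.Lt_tt
  Ls_tt := S.Ls_tt
  Lv_Le := S.Lv_Le
  Lt_Ls := S.Lt_Ls
  Le_Lb e s h := by
    intro x hx
    exact Set.mem_iUnion.2 ⟨e, Set.mem_iUnion.2 ⟨h, hx⟩⟩
  Ls_Lbs s e h := by
    intro x hx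
    exact Set.mem_iUnion.2 ⟨s, Set.mem_iUnion.2 ⟨h, hx⟩⟩
  Le_B := S.Le_B
  Ls_Bs := S.Ls_Bs
  Lb_B s := by
    intro x hx
    obtain ⟨e, hx⟩ := Set.mem_iUnion.1 hx
    obtain ⟨_, hx⟩ := Set.mem_iUnion.1 hx
    exact S.Le_B e hx
  Lbs_Bs e := by
    intro x hx
    obtain ⟨s, hx⟩ := Set.mem_iUnion.1 hx
    obtain ⟨_, hx⟩ := Set.mem_iUnion.1 hx
    exact S.Ls_Bs s hx
  far_B := S.far_B
  far_Bs := S.far_Bs

/-- the plates -/
def Start2.toP (hc : IsSph3 Gc) [Finite Vc] (S : Start2 Gc G) : PltU (S.toBase.toU hc) where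
  Ue := S.Ue
  Ud := S.Ud
  Ue_c := S.Ue_c
  Ue_cc := S.Ue_cc
  Ue_bb := S.Ue_bb
  Ue_dis := S.Ue_dis
  Ue_Bs := S.Ue_Bs
  Ue_NT e x hx y hxy := by
    intro hy
    have hy' : y ∈ S.Bs := hy
    rcases hxy with h | h
    · rw [← h] at hy'
      exact Set.disjoint_left.1 (S.Ue_Bs e).1 hx hy'
    · exact (S.Ue_Bs e).2 x hx y hy' h
  Ue_Lv := S.Ue_Lv
  Ue_Le := S.Ue_Le
  Ue_Lb e s h := by
    rw [Set.disjoint_left]
    intro x hx hx'
    obtain ⟨e', hx'⟩ := Set.mem_iUnion.1 hx'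
    obtain ⟨he', hx'⟩ := Set.mem_iUnion.1 hx'
    exact Set.disjoint_left.1 (S.Ue_Le e e' (fun hee => h (by rw [hee]; exact he'))) hx hx'
  Ue_cr := S.Ue_cr
  rim_e := S.rim_e
  Ud_c := S.Ud_c
  Ud_cc := S.Ud_cc
  Ud_bb := S.Ud_bb
  Ud_dis := S.Ud_dis
  Ud_B := S.Ud_B
  Ud_NTs s x hx y hxy := by
    intro hy
    have hy' : y ∈ S.B := hy
    rcases hxy with h | h
    · rw [← h] at hy'
      exact Set.disjoint_left.1 (S.Ud_B s).1 hx hy'
    · exact (S.Ud_B s).2 x hx y hy' h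
  Ud_Lt := S.Ud_Lt
  Ud_Ls := S.Ud_Ls
  Ud_Lbs s e h := by
    rw [Set.disjoint_left]
    intro x hx hx'
    obtain ⟨s', hx'⟩ := Set.mem_iUnion.1 hx'
    obtain ⟨hs', hx'⟩ := Set.mem_iUnion.1 hx'
    exact Set.disjoint_left.1 (S.Ud_Ls s s' (fun hss => h (by rw [hss]; exact hs'))) hx hx'
  Ud_cr := S.Ud_cr
  rim_s := S.rim_s

end MOT
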