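import Pool.Agent.MOT.SvA
import Pool.Agent.MOT.SuA
import Pool.Agent.MOT.SaE

/-!
# MOT/SvB: the pieces after stage 1 with their coarse position; `S1end`

`b0 := S.toU hc` on level `n`, `b := b0.up` on level `n + 1` (the level of `torS S`), `upN K (n + 1) b k` on
level `n + 1 + k` (the level of `M`).
-/

open Classical

noncomputable section

namespace MOT

variable {Vc V : Type} {Gc : SimpleGraph Vc} {G : SimpleGraph V} {K : Lv} {n : ℕ}

/-- the objects of stage 1 on level `n + 1 + k` are those of the stable record -/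
theorem torN_up [Finite Vc] [Fintype (Ec Gc)] [Fintype (Fc Gc)] (hc : IsSph3 Gc)
    (S : Start1 Gc (tw K n).G) (k : ℕ) :
    (torN K (n + 1) (torS S) k).B = (upN K (n + 1) (S.toBase.toU hc).up k).BL ∧
    (torN K (n + 1) (torS S) k).Bs = (upN K (n + 1) (S.toBase.toU hc).up k).BsL ∧
    (torN K (n + 1) (torS S) k).we = (upN K (n + 1) (S.toBase.toU hc).up k).we ∧
    (torN K (n + 1) (torS S) k).ws = (upN K (n + 1) (S.toBase.toU hc).up k).ws := by
  induction k with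
  | zero => exact ⟨rfl, rfl, rfl, rfl⟩
  | succ k ih =>
    obtain ⟨h1, h2, h3, h4⟩ := ih
    refine ⟨?_, ?_, ?_, ?_⟩
    · show mi (tw K (n + 1 + k)).G (torN K (n + 1) (torS S) k).B = mi (tw K (n + 1 + k)).G _
      rw [h1]
    · show mi (tw K (n + 1 + k)).G (torN K (n + 1) (torS S) k).Bs = mi (tw K (n + 1 + k)).G _
      rw [h2]
    · show (fun e => pw (tw K (n + 1 + k)).G ((torN K (n + 1) (torS S) k).we e)) =
        fun e => pw (tw K (n + 1 + k)).G ((upN K (n + 1) (S.toBase.toU hc).up k).we e)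
      rw [h3]
    · show (fun e => pw (tw K (n + 1 + k)).G ((torN K (n + 1) (torS S) k).ws e)) =
        fun e => pw (tw K (n + 1 + k)).G ((upN K (n + 1) (S.toBase.toU hc).up k).ws e)
      rw [h4]

/-- position of `y` next to a vertex `a` of the torus of `e` -/
private theorem svb_Wt {G : SimpleGraph V} (S : Start1 Gc G) {e : Ec Gc} {a z : V}
    (ha : a ∈ S.Wt e) (h : Nr G a z) :
    e.q ∈ S.cr z ∧ ∀ σ ∈ S.cr z, 2 ≤ σ.1.card → e.1 ⊆ σ.1 := by
  have h1 := S.Wt_cr e a ha z h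
  refine ⟨h1, fun σ hσ h2 => ?_⟩
  rcases (S.cr_chain z z (Or.inl rfl)).total (Or.inl h1) (Or.inl hσ) with h3 | h3
  · exact Cq.le_iff.1 h3
  · have h5 : e.1.card = 2 := e.2.1
    have h4 : σ.1 = e.1 := Finset.eq_of_subset_of_card_le (Cq.le_iff.1 h3) (h5.le.trans h2)
    rw [h4]

private theorem svb_Om {G : SimpleGraph V} (S : Start1 Gc G) {v : Vc} {a z : V}
    (ha : a ∈ S.Om v) (h : Nr G a z) :
    (∃ τ ∈ S.cr z, (τ.1 : Set Vc) ⊆ nb Gc {v}) ∧ ∀ σ ∈ S.cr z, 2 ≤ σ.1.card → v ∈ σ.1 := by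
  have h1 := (S.Om_cr v a).1 ha
  have key : ∀ σ ∈ S.cr z, v ∈ σ.1 := by
    intro σ hσ
    rcases (S.cr_chain a z h).total (Or.inl h1) (Or.inr hσ) with h3 | h3
    · exact Cq.le_iff.1 h3 (Finset.mem_singleton_self v)
    · obtain ⟨w, hw⟩ := σ.2.1
      have h4 := Finset.mem_singleton.1 (Cq.le_iff.1 h3 hw)
      rw [← h4]; exact hw
  refine ⟨?_, fun σ hσ _ => key σ hσ⟩
  obtain ⟨τ, hτ⟩ := S.cr_ne z
  refine ⟨τ, hτ, fun w hw => ⟨v, rfl, ?_⟩⟩
  exact Nr_cl (s := τ) (Finset.mem_coe.1 hw) (key τ hτ)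

/-- neighbourhoods `Nv v` on level `n + 1 + k`: coarse position.
`k = 0`: `x ∈ pl G A`, `A = Om v ∪ {Wt e, v ∈ e}`, `Nr x y` give `a ∈ A` with `Nr G a (pk y)`; `a ∈ Om v`:
`{v} ∈ cr a`, `Om_cr`, `cr_chain`; `a ∈ Wt e`: `Wt_cr`.  Step: `pl`, the same argument. -/
theorem Nv_zn [Finite Vc] (hc : IsSph3 Gc) (S : Start1 Gc (tw K n).G) (k : ℕ) (v : Vc)
    {x y : (tw K (n + 1 + k)).V} (hx : x ∈ (torN K (n + 1) (torS S) k).Nv v)
    (hy : Nr (tw K (n + 1 + k)).G x y) :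
    y ∈ (upN K (n + 1) (S.toBase.toU hc).up k).Ns (nb Gc {v}) ∧
    ∀ σ ∈ (upN K (n + 1) (S.toBase.toU hc).up k).cr y, 2 ≤ σ.1.card → v ∈ σ.1 := by
  induction k with
  | zero =>
    obtain ⟨a, hax, ha⟩ := hx
    have hn : Nr (tw K n).G a (pk y) := Nr_cl2 hy hax (pk_mem y)
    rcases ha with ha | ⟨e, hve, ha⟩
    · exact svb_Om S ha hn
    · obtain ⟨h1, h2⟩ := svb_Wt S ha hn
      refine ⟨⟨e.q, h1, fun w hw => ⟨v, rfl, ?_⟩⟩, fun σ hσ h3 => h2 σ hσ h3 hve⟩
      exact Nr_cl (s := e.q) (Finset.mem_coe.1 hw) hve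
  | succ k ih =>
    obtain ⟨a, hax, ha⟩ := hx
    exact ih ha (Nr_cl2 hy hax (pk_mem y))

theorem We_zn [Finite Vc] (hc : IsSph3 Gc) (S : Start1 Gc (tw K n).G) (k : ℕ) (e : Ec Gc)
    {x y : (tw K (n + 1 + k)).V} (hx : x ∈ (torN K (n + 1) (torS S) k).We e)
    (hy : Nr (tw K (n + 1 + k)).G x y) :
    y ∈ (upN K (n + 1) (S.toBase.toU hc).up k).Ns (nb Gc (e.1 : Set Vc)) ∧
    ∀ σ ∈ (upN K (n + 1) (S.toBase.toU hc).up k).cr y, 2 ≤ σ.1.card → e.1 ⊆ σ.1 := by
  induction k with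
  | zero =>
    obtain ⟨a, hax, ha⟩ := hx
    obtain ⟨h1, h2⟩ := svb_Wt S ha (Nr_cl2 hy hax (pk_mem y))
    exact ⟨⟨e.q, h1, fun w hw => ⟨w, hw, Or.inl rfl⟩⟩, h2⟩
  | succ k ih =>
    obtain ⟨a, hax, ha⟩ := hx
    exact ih ha (Nr_cl2 hy hax (pk_mem y))

/-- a clique in the zone `Zt` of the curves is inside a plate or disjoint from it (`curve_U`).
`k = 0`: the greatest element `m` of the clique is in `Zt`: `m ≤ t`, `t` mixed for `M0` and for a torus.
Step: greatest element. -/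
theorem Zt_plate [Finite Vc] (hc : IsSph3 Gc) (S : Start2 Gc (tw K n).G) (k : ℕ) (e : Ec Gc)
    {q : Cq (tw K (n + 1 + k)).G}
    (hq : (q.1 : Set (tw K (n + 1 + k)).V) ⊆ (torN K (n + 1) (torS S.toStart1) k).Zt) :
    (q.1 : Set (tw K (n + 1 + k)).V) ⊆ (upP K (n + 1) (S.toP hc).up k).Ue e ∨
    Disjoint (q.1 : Set (tw K (n + 1 + k)).V) ((upP K (n + 1) (S.toP hc).up k).Ue e) := by
  have fin : ∀ {V : Type} {G : SimpleGraph V} {U : Set V} (q : Cq (sd G)) {t : Cq G}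
      (_ : mx q ≤ t) (_ : (t.1 : Set V) ⊆ U ∨ Disjoint (t.1 : Set V) U),
      (q.1 : Set (Cq G)) ⊆ mi G U ∨ Disjoint (q.1 : Set (Cq G)) (mi G U) := by
    intro V G U q t ht h
    rcases h with h | h
    · left
      intro s hs x hx
      exact h (Finset.mem_coe.2 (Cq.le_iff.1 ((le_mx q (Finset.mem_coe.1 hs)).trans ht) hx))
    · right
      rw [Set.disjoint_left]
      intro s hs hsU
      obtain ⟨x, hx⟩ := s.2.1
      exact Set.disjoint_left.1 h
        (Finset.mem_coe.2 (Cq.le_iff.1 ((le_mx q (Finset.mem_coe.1 hs)).trans ht) hx)) (hsU x hx)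
  cases k with
  | zero =>
    obtain ⟨t, hmt, hM, e', he'⟩ := hq (Finset.mem_coe.2 (mx_mem q))
    obtain ⟨⟨x, hx, hxM⟩, y, hy, hyM⟩ := hM
    obtain ⟨⟨z, hz, hzW⟩, w, hw, hwW⟩ := he'
    exact fin q hmt (S.curve_U (t.1 : Set _) t.2.2 ⟨x, Finset.mem_coe.2 hx, hxM⟩
      ⟨y, Finset.mem_coe.2 hy, hyM⟩ e' ⟨z, Finset.mem_coe.2 hz, hzW⟩
      ⟨w, Finset.mem_coe.2 hw, hwW⟩ e)
  | succ k =>
    have hm := hq (Finset.mem_coe.2 (mx_mem q))
    exact fin q le_rfl (Zt_plate hc S k e (q := mx q) fun x hx => hm x (Finset.mem_coe.1 hx))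

/-- END OF STAGE 1 in the form used by the later stages: `M` on level `n + 1 + k`, the surface
`Fr M` one level later. -/
theorem S1end [Finite Vc] [Fintype (Ec Gc)] [Fintype (Fc Gc)] (hc : IsSph3 Gc)
    (hG : IsSph3 (tw K n).G) (S : Start2 Gc (tw K n).G) :
    ∃ (k : ℕ) (M : Set (tw K (n + 1 + k)).V) (J : Type)
      (P : PcsU (upN K (n + 1) (S.toBase.toU hc).up (k + 1)) (Fr (tw K (n + 1 + k)).G M) J),
      Adm (tw K (n + 1 + k)).G (upN K (n + 1) (S.toBase.toU hc).up k).BL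
        (upN K (n + 1) (S.toBase.toU hc).up k).BsL M (fq (cutE Gc) + fq (cutF Gc)) ∧
      ∀ j e, P.Cv j ⊆ (upP K (n + 1) (S.toP hc).up (k + 1)).Ue e ∨
        Disjoint (P.Cv j) ((upP K (n + 1) (S.toP hc).up (k + 1)).Ue e) := by
  obtain ⟨k, M, lam, hX, h, hg⟩ := stage1 hc hG S.toStart1
  obtain ⟨eB, eBs, -, ews⟩ := torN_up hc S.toStart1 k
  have hadm := h.adm
  rw [eB, eBs] at hadm
  have hn : ∀ g : CrvT (tw K (n + 1 + k)).G (torN K (n + 1) (torS S.toStart1) k) M, ∃ s,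
      ¬ Triv (sd (tw K (n + 1 + k)).G) g.1
        (pw (tw K (n + 1 + k)).G ((torN K (n + 1) (torS S.toStart1) k).ws s)) := by
    intro g
    obtain ⟨e, -, he⟩ := hg g
    obtain ⟨s, hs⟩ := Ec.tri hc e
    exact ⟨s, fun ht => (he s).1 ht hs⟩
  have hp := s1_pieces hX h hn
  rw [eB] at hp
  let P : PcsU (upN K (n + 1) (S.toBase.toU hc).up (k + 1)) (Fr (tw K (n + 1 + k)).G M)
      (CrvT (tw K (n + 1 + k)).G (torN K (n + 1) (torS S.toStart1) k) M) :=
    { Pc := PcO (tw K (n + 1 + k)).G (torN K (n + 1) (torS S.toStart1) k) M lam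
      Zi := ZiT (tw K (n + 1 + k)).G (torN K (n + 1) (torS S.toStart1) k)
      Cv := fun g => g.1
      ej := fun g => (hg g).choose
      pcs := hp
      SB := by
        refine Set.disjoint_left.2 ?_
        rintro s ⟨-, x, hx, hxM⟩ hs
        exact hxM (hadm.hB (hs x hx))
      SBs := by
        refine Set.disjoint_left.2 ?_
        rintro s ⟨⟨x, hx, hxM⟩, -⟩ hs
        exact hadm.hBs (hs x hx) hxM
      zn := by
        rintro (v | e) x ⟨a, hax, ha⟩ y hy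
        · have h1 := (Nv_zn hc S.toStart1 k v ha (Nr_cl2 hy hax (pk_mem y))).1
          have h2 : ((cvI (Sum.inl v : Vc ⊕ Ec Gc) : Finset Vc) : Set Vc) = {v} :=
            Finset.coe_singleton v
          rw [h2]
          exact h1
        · exact (We_zn hc S.toStart1 k e ha (Nr_cl2 hy hax (pk_mem y))).1
      rel := by
        intro i x hx σ hσ h2
        have hz := hp.zone i hx
        rcases i with v | e
        · obtain ⟨a, hax, ha⟩ := hz
          have h1 := (Nv_zn hc S.toStart1 k v ha (Nr_cl hax (pk_mem x))).2 σ hσ h2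
          exact Finset.singleton_subset_iff.2 h1
        · obtain ⟨a, hax, ha⟩ := hz
          exact (We_zn hc S.toStart1 k e ha (Nr_cl hax (pk_mem x))).2 σ hσ h2
      cz := by
        intro i g hi
        obtain ⟨h1, h2⟩ := PcO_near hX h.lab g (hg g).choose_spec.1 i hi
        rcases i with v | e
        · exact Finset.singleton_subset_iff.2 (h1 v rfl)
        · rw [← h2 e rfl]
          exact subset_rfl
      cw := by
        intro g s
        have h1 := (hg g).choose_spec.2 s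
        have h2 := congrFun ews s
        show Triv (sd (tw K (n + 1 + k)).G) g.1 (pw (tw K (n + 1 + k)).G
          ((upN K (n + 1) (S.toBase.toU hc).up k).ws s)) ↔ _
        rw [← h2]
        exact h1 }
  refine ⟨k, M, _, P, hadm, fun g e => ?_⟩
  have key : ∀ s ∈ g.1, (s.1 : Set (tw K (n + 1 + k)).V) ⊆ (upP K (n + 1) (S.toP hc).up k).Ue e ∨
      Disjoint (s.1 : Set (tw K (n + 1 + k)).V) ((upP K (n + 1) (S.toP hc).up k).Ue e) := by
    intro s hs
    refine Zt_plate hc S k e fun x hx => ?_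
    exact h.crc (g.2.sub hs) x (Finset.mem_coe.1 hx)
  have hdis : ∀ s ∈ g.1, Disjoint (s.1 : Set (tw K (n + 1 + k)).V)
      ((upP K (n + 1) (S.toP hc).up k).Ue e) →
      s ∉ mi (tw K (n + 1 + k)).G ((upP K (n + 1) (S.toP hc).up k).Ue e) := by
    intro s _ hd hs
    obtain ⟨x, hx⟩ := s.2.1
    exact Set.disjoint_left.1 hd (Finset.mem_coe.2 hx) (hs x hx)
  have hstep : ∀ s t, s ∈ g.1 → t ∈ g.1 → s ≤ t →
      (s ∈ mi (tw K (n + 1 + k)).G ((upP K (n + 1) (S.toP hc).up k).Ue e) ↔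
        t ∈ mi (tw K (n + 1 + k)).G ((upP K (n + 1) (S.toP hc).up k).Ue e)) := by
    intro s t hs ht hst
    constructor
    · intro h1
      rcases key t ht with h2 | h2
      · exact fun x hx => h2 (Finset.mem_coe.2 hx)
      · exfalso
        obtain ⟨x, hx⟩ := s.2.1
        exact Set.disjoint_left.1 h2 (Finset.mem_coe.2 (Cq.le_iff.1 hst hx)) (h1 x hx)
    · exact fun h1 x hx => h1 x (Cq.le_iff.1 hst hx)
  have hconst : ∀ s ∈ g.1, ∀ t ∈ g.1,
      (s ∈ mi (tw K (n + 1 + k)).G ((upP K (n + 1) (S.toP hc).up k).Ue e) →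
        t ∈ mi (tw K (n + 1 + k)).G ((upP K (n + 1) (S.toP hc).up k).Ue e)) := by
    intro s hs t ht h1
    have hr := g.2.conn.2 s hs t ht
    clear ht
    induction hr with
    | refl => exact h1
    | tail _ e' ih =>
      rcases e'.1 with h2 | h2
      · exact (hstep _ _ e'.2.1 e'.2.2 h2.le).1 ih
      · exact (hstep _ _ e'.2.2 e'.2.1 h2.le).2 ih
  obtain ⟨s0, hs0⟩ := g.2.conn.1
  by_cases h0 : s0 ∈ mi (tw K (n + 1 + k)).G ((upP K (n + 1) (S.toP hc).up k).Ue e)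
  · exact Or.inl fun t ht => hconst s0 hs0 t ht h0
  · right
    refine Set.disjoint_left.2 ?_
    intro t ht ht'
    exact h0 (hconst t ht s0 hs0 ht')

end MOT
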