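import Pool.Agent.MOT.Start
import Pool.Agent.MOT.PaDef
import Pool.Agent.MOT.PaCo
import Pool.Agent.MOT.PaMin
import Pool.Agent.MOT.FnDef
import Pool.Agent.MOT.SvB
import Pool.Agent.MOT.ScEnd
import Pool.Agent.MOT.CmS

/-!
# MOT/CmP: from `Start2` to the pre-pattern (stage 1, stage 2, structure, control, P)
-/

open Classical

noncomputable section

namespace MOT

/-- the output record of stage 2 gives `FinS` -/
theorem S2Out.fin {Vc V : Type} {Gc : SimpleGraph Vc} {G : SimpleGraph V} [Finite Vc]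
    [Fintype (Ec Gc)] [Fintype (Fc Gc)] {hc : IsSph3 Gc} {b : BaseU Gc G} {S : Set V} {J : Type}
    {Q : PcsU b S J} (o : S2Out hc b S Q.Cv) :
    FinS hc b S o.P o.N Q o.Ue o.Ud o.D o.F (b.tto hc) where
  wall := o.wall
  BP := b.B_BL.trans o.BP
  BsN := b.Bs_BsL.trans o.BsN
  hv := o.strE
  ht := o.strF
  par := o.par
  cne := o.cne
  i1 := o.i1
  i2 := o.i2
  i3 := o.i3
  i4 := o.i4
  cne' := o.cneF
  i1' := o.i1F
  i2' := o.i2F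

/-- PRE-PATTERN WITH LOCATION -/
theorem preloc : ∃ c1 : ℕ, ∀ (K' : Lv) (N : ℕ) (Vc : Type) [Finite Vc] (Gc : SimpleGraph Vc),
    IsSph3 Gc → IsSph3 (tw K' N).G → ∀ S : Start2 Gc (tw K' N).G,
      ∃ (k : ℕ) (κ : (tw K' (N + k)).V → Pa.Col Gc),
        Pa.Pre (tw K' (N + k)).G κ (Pa.colH Gc) ∧
        ∀ x, ∃ y ∈ car K' N k x, ∃ σ ∈ S.cr y, ∃ w ∈ σ.1,
          w ∈ nbk Gc c1 (covs (Pa.toCo Gc (κ x))) := by
  refine ⟨3, fun K' N Vc _ Gc hc hG S => ?_⟩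
  suffices h : ∃ (m : ℕ) (_ : N ≤ m) (κ : (tw K' m).V → Pa.Col Gc),
      Pa.Pre (tw K' m).G κ (Pa.colH Gc) ∧ ∀ x, ∃ y, Rc K' N m x y ∧ ∃ σ ∈ S.cr y, ∃ w ∈ σ.1,
        w ∈ nbk Gc 3 (covs (Pa.toCo Gc (κ x))) by
    obtain ⟨m, hm, κ, hp, hl⟩ := h
    obtain ⟨k, rfl⟩ := Nat.exists_eq_add_of_le hm
    refine ⟨k, κ, hp, fun x => ?_⟩
    obtain ⟨y, hy, hs⟩ := hl x
    exact ⟨y, hy.car, hs⟩
  let _ : Fintype (Ec Gc) := Fintype.ofFinite _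
  let _ : Fintype (Fc Gc) := Fintype.ofFinite _
  obtain ⟨k1, M, J, P, hA, hP⟩ := S1end hc hG S
  have hG1 : IsSph3 (tw K' (N + 1)).G := Pa.tw_sph3 hG 1
  obtain ⟨k2, ⟨o⟩⟩ := S2end (K := K') (n := N + 1 + k1) hc (Pa.tw_sph3 hG1 k1) _
      (upP K' (N + 1) (S.toP hc).up k1) M hA P hP
  obtain ⟨κ, hpre, hloc⟩ := o.fin.pre
  refine ⟨N + 1 + k1 + 1 + k2 + 1, by omega, κ, hpre, fun x => ?_⟩
  obtain ⟨a, ha, τ, hτ, hsub⟩ := hloc x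
  obtain ⟨w2, hw2, e2⟩ := upN_cr (K := K') (n := N + 1 + k1 + 1)
    (upN K' (N + 1) (S.toBase.toU hc).up k1).up k2 a
  obtain ⟨w1, hw1, e1⟩ := upN_cr (K := K') (n := N + 1) (S.toBase.toU hc).up k1
    (pk (G := (tw K' (N + 1 + k1)).G) w2)
  obtain ⟨w, hw⟩ := τ.2.1
  refine ⟨pk (G := (tw K' N).G) w1, ?_, τ, ?_, w, hw, hsub (Finset.mem_coe.2 hw)⟩
  · refine Rc.up x a _ ha (hw2.trans ?_)
    refine Rc.up w2 _ _ (pk_mem (G := (tw K' (N + 1 + k1)).G) w2) (hw1.trans ?_)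
    exact Rc.up w1 _ _ (pk_mem (G := (tw K' N).G) w1) (Rc.refl _)
  · rw [e2] at hτ
    have h3 : τ ∈ (upN K' (N + 1) (S.toBase.toU hc).up k1).cr
      (pk (G := (tw K' (N + 1 + k1)).G) w2) := hτ
    rw [e1] at h3
    exact h3

end MOT
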