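import Pool.Agent.MOT.CmP
import Pool.Agent.MOT.CbE
import Pool.Agent.MOT.PaMin

/-!
# MOT/Cmb: the combinatorial theorem `Comb` (helper82)
-/

open Classical

noncomputable section

namespace MOT

/-- from a simplex to a comparable one: a vertex in the first has an equal or adjacent vertex in the
second -/
private theorem step_nr {V : Type} {G : SimpleGraph V} {σ τ : Cq G} (h : σ ≤ τ ∨ τ ≤ σ) {w : V}
    (hw : w ∈ σ.1) : ∃ w' ∈ τ.1, Nr G w' w := by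
  rcases h with h | h
  · exact ⟨w, Cq.le_iff.1 h hw, Or.inl rfl⟩
  · obtain ⟨w', hw'⟩ := τ.2.1
    refine ⟨w', hw', ?_⟩
    by_cases e : w' = w
    · exact Or.inl e
    · exact Or.inr (σ.2.2 (Finset.mem_coe.2 (Cq.le_iff.1 h hw')) (Finset.mem_coe.2 hw) e)

private theorem chain_cmp {V : Type} {G : SimpleGraph V} {A B : Set (Cq G)}
    (h : IsChain (· ≤ ·) (A ∪ B)) {σ τ : Cq G} (hσ : σ ∈ A) (hτ : τ ∈ B) : σ ≤ τ ∨ τ ≤ σ := by
  by_cases e : σ = τ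
  · rw [e]; exact Or.inl le_rfl
  · exact h (Or.inl hσ) (Or.inr hτ) e

/-- positions: the vertices of the carrier on level `m0` are the vertices of the simplices in `cr` -/
private theorem cr_car {K : Lv} {m0 : ℕ} (u : PV K m0) {σ : Cq (tw K m0).G} (h : σ ∈ cr K m0 u)
    {w : (tw K m0).V} (hw : w ∈ σ.1) : w ∈ car K m0 7 u := by
  obtain ⟨c, ⟨C, hC, hc⟩, hσc⟩ := h
  obtain ⟨x3, h3, x2, h2, x1, h1, x0, h0, e⟩ := hC
  have e' : C = x0 := e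
  subst e'
  exact ⟨x3, h3, x2, h2, x1, h1, C, h0, c, hc, σ, hσc, w, hw, rfl⟩

private theorem nbk_mono {V : Type} {G : SimpleGraph V} {A B : Set V} (h : A ⊆ B) {k : ℕ} :
    nbk G k A ⊆ nbk G k B := by
  induction k with
  | zero => exact h
  | succ k ih => exact nb_mono ih

private theorem covs_I {Vc : Type} {Gc : SimpleGraph Vc} {a b : Pa.Col Gc}
    (hs : ¬ (Pa.colH Gc).side a = true) (h : (Pa.colH Gc).I a b) :
    covs (Pa.toCo Gc b) ⊆ covs (Pa.toCo Gc a) := by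
  rcases a with a | a
  · exact absurd rfl hs
  · rcases b with b | b
    · intro x hx
      have h1 : x = b := hx
      have h2 : b ∈ a.1 := h
      show x ∈ (a.1 : Set Vc)
      rw [h1]
      exact Finset.mem_coe.2 h2
    · exact absurd h id

/-- THE COMBINATORIAL THEOREM -/
theorem comb : ∃ c0 : ℕ, Comb c0 := by
  obtain ⟨c1, hc⟩ := preloc
  refine ⟨c1 + 1 + 1, fun R R' hR hR' P => ⟨0, fun n0 _ => ?_⟩⟩
  have hK : IsSph3 (cell16 R).G := cell16_sph3 R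
  have hK' : IsSph3 (cell16 R').G := cell16_sph3 R'
  obtain ⟨N0, hN0⟩ := Cb.start2_ex P hK hK' n0
  obtain ⟨N1, hN1⟩ := P.dn_ex (n0 + 7)
  obtain ⟨p, hp, S, hS⟩ := hN0 (max N0 N1) (le_max_left _ _)
  generalize hN : max N0 N1 = N at p hp S hS
  have hNN : N1 ≤ N := hN ▸ le_max_right _ _
  obtain ⟨k, κ, hPre, hloc⟩ := hc (cell16 R') N _ (tw (cell16 R) n0).G (tw_sph3 _ hK n0)
    (tw_sph3 _ hK' N) S
  obtain ⟨k2, κ2, hPat, hCtl⟩ := Pa.pat_min (K := cell16 R') (n := N + k) (tw_sph3 _ hK n0)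
    (tw_sph3 _ hK' (N + k)) κ hPre
  refine ⟨N + k + k2, fun x => Pa.toCo _ (κ2 x), hPat, fun x' => ⟨7, ?_⟩⟩
  obtain ⟨u', hu'⟩ := hN1 (N + k + k2) (by omega) x'
  refine ⟨u', hu', ?_⟩
  -- a vertex of the carrier with a near colour
  have h1 : ∃ u ∈ car (cell16 R') (N + k) k2 x', ∃ y ∈ car (cell16 R') N k u, ∃ σ ∈ S.cr y,
      ∃ w ∈ σ.1, w ∈ nbk (tw (cell16 R) n0).G c1 (covs (Pa.toCo _ (κ2 x'))) := by
    by_cases hs : (Pa.colH (tw (cell16 R) n0).G).side (κ2 x') = true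
    · obtain ⟨u, hu, e⟩ := hCtl.nv x' hs
      obtain ⟨y, hy, σ, hσ, w, hw, hwn⟩ := hloc u
      exact ⟨u, hu, y, hy, σ, hσ, w, hw, by rw [← e]; exact hwn⟩
    · obtain ⟨u, hu, e⟩ := hCtl.nt x' (by simpa using hs)
      obtain ⟨y, hy, σ, hσ, w, hw, hwn⟩ := hloc u
      refine ⟨u, hu, y, hy, σ, hσ, w, hw, ?_⟩
      rcases e with e | e
      · rw [← e]; exact hwn
      · exact nbk_mono (covs_I hs e) hwn
  obtain ⟨u, hu, y, hy, σ, hσ, w, hw, hwn⟩ := h1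
  obtain ⟨v, hv⟩ := hN1 (N + k) (by omega) u
  have a1 : Nr (tw (cell16 R) (n0 + 7)).G u' v :=
    P.dn_dn (N + k) k2 (n0 + 7) 0 x' x' u u' v (Nr.refl x') hu hu' hv u' rfl
  have a2 : Nr (tw (cell16 R) (n0 + 7)).G v (p y) :=
    P.dn_dn N k (n0 + 7) 0 u u y v (p y) (Nr.refl u) hy hv (hp y) v rfl
  rw [hS] at hσ
  obtain ⟨τ, hτ⟩ := cr_ne v
  obtain ⟨τ', hτ'⟩ := cr_ne u'
  obtain ⟨w1, hw1, n1⟩ := step_nr (chain_cmp (cr_nr a2.symm) hσ hτ) hw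
  obtain ⟨w2, hw2, n2⟩ := step_nr (chain_cmp (cr_nr a1.symm) hτ hτ') hw1
  exact ⟨w2, cr_car u' hτ' hw2, w1, ⟨w, hwn, n1⟩, n2⟩

end MOT
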