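import Pool.Agent.MOT.Bas

/-!
# MOT/Iso: transport along isomorphisms
-/

open Classical

noncomputable section

namespace MOT

/-! ## Transport along graph isomorphisms between vertex sets of possibly different complexes -/

variable {V W : Type} {G : SimpleGraph V} {H : SimpleGraph W} {A : Set V} {B : Set W}

/-- `e : A → B` bijective, respecting adjacency in both directions -/
structure GIso (G : SimpleGraph V) (H : SimpleGraph W) (A : Set V) (B : Set W) (e : V → W) :
    Prop where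
  bij : Set.BijOn e A B
  adj : ∀ x ∈ A, ∀ y ∈ A, (G.Adj x y ↔ H.Adj (e x) (e y))

theorem GIso.ein {e : V → W} (h : GIso G H A B e) {x y : V} (hxy : EIn G A x y) :
    EIn H B (e x) (e y) :=
  ⟨(h.adj x hxy.2.1 y hxy.2.2).1 hxy.1, h.bij.mapsTo hxy.2.1, h.bij.mapsTo hxy.2.2⟩

theorem GIso.ein_iff {e : V → W} (h : GIso G H A B e) {x y : V} (hx : x ∈ A) (hy : y ∈ A) :
    EIn G A x y ↔ EIn H B (e x) (e y) :=
  ⟨h.ein, fun k => ⟨(h.adj x hx y hy).2 k.1, hx, hy⟩⟩

private theorem exists_inv {e : V → W} (h : GIso G H A B e) (hA : A.Nonempty) :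
    ∃ g : W → V, GIso H G B A g ∧ (∀ x ∈ A, g (e x) = x) ∧ ∀ y ∈ B, e (g y) = y := by
  obtain ⟨x0, hx0⟩ := hA
  have : Nonempty V := ⟨x0⟩
  have hinv := h.bij.invOn_invFunOn
  have hge : ∀ x ∈ A, Function.invFunOn e A (e x) = x := fun x hx => hinv.1 hx
  have heg : ∀ y ∈ B, e (Function.invFunOn e A y) = y := fun y hy => hinv.2 hy
  have hmap : Set.MapsTo (Function.invFunOn e A) B A := by
    intro y hy
    obtain ⟨x, hx, rfl⟩ := h.bij.surjOn hy
    rw [hge x hx]
    exact hx
  refine ⟨Function.invFunOn e A, ⟨⟨hmap, ?_, ?_⟩, ?_⟩, hge, heg⟩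
  · intro y hy z hz hyz
    rw [← heg y hy, ← heg z hz, hyz]
  · intro x hx
    exact ⟨e x, h.bij.mapsTo hx, hge x hx⟩
  · intro y hy z hz
    rw [h.adj _ (hmap hy) _ (hmap hz), heg y hy, heg z hz]

private theorem empty_of {e : V → W} (h : GIso G H A B e) (hA : A = ∅) : B = ∅ := by
  rw [← h.bij.image_eq, hA, Set.image_empty]

private theorem conn_mp {e : V → W} (h : GIso G H A B e) (hc : Conn G A) : Conn H B := by
  refine ⟨?_, ?_⟩
  · obtain ⟨x, hx⟩ := hc.1
    exact ⟨e x, h.bij.mapsTo hx⟩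
  · intro u hu v hv
    obtain ⟨x, hx, rfl⟩ := h.bij.surjOn hu
    obtain ⟨y, hy, rfl⟩ := h.bij.surjOn hv
    exact (hc.2 x hx y hy).lift e fun a b hab => h.ein hab

/-- pull-back of cochains -/
private def pb (g : W → V) (H : SimpleGraph W) (B : Set W) (a : V → V → ZMod 2) :
    W → W → ZMod 2 :=
  fun u v => if EIn H B u v then a (g u) (g v) else 0

private theorem pb_apply {g : W → V} {a : V → V → ZMod 2} {u v : W} (h : EIn H B u v) :
    pb g H B a u v = a (g u) (g v) := if_pos h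

private theorem pb_mem {g : W → V} (h : GIso H G B A g) {a : V → V → ZMod 2} (ha : a ∈ Z1 G A) :
    pb g H B a ∈ Z1 H B := by
  obtain ⟨h0, hs, hc⟩ := mem_Z1.1 ha
  refine mem_Z1.2 ⟨fun x y k => if_neg k, fun x y => ?_, fun x y z e1 e2 e3 => ?_⟩
  · by_cases k : EIn H B x y
    · rw [pb_apply k, pb_apply k.symm, hs]
    · unfold pb
      rw [if_neg k, if_neg fun k' => k k'.symm]
  · rw [pb_apply e1, pb_apply e2, pb_apply e3]
    exact hc _ _ _ (h.ein e1) (h.ein e2) (h.ein e3)

private theorem pb_triv {g : W → V} (h : GIso H G B A g) {a : V → V → ZMod 2}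
    (ha : Triv G A a) : Triv H B (pb g H B a) := by
  obtain ⟨f, hf⟩ := ha
  exact ⟨fun w => f (g w), fun u v k => by rw [pb_apply k, hf _ _ (h.ein k)]⟩

private theorem pb_pb {e : V → W} {g : W → V} (h : GIso G H A B e)
    (hge : ∀ x ∈ A, g (e x) = x) {a : V → V → ZMod 2} (ha : a ∈ Z1 G A) :
    pb e G A (pb g H B a) = a := by
  funext x y
  by_cases k : EIn G A x y
  · rw [pb_apply k, pb_apply (h.ein k), hge x k.2.1, hge y k.2.2]
  · rw [(mem_Z1.1 ha).1 x y k]
    exact if_neg k

/-- pull-back as a linear map -/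
private def pbl (g : W → V) (h : GIso H G B A g) : (Z1 G A) →ₗ[ZMod 2] (Z1 H B) where
  toFun := fun a => ⟨pb g H B a.1, pb_mem h a.2⟩
  map_add' := by
    intro a b
    ext x y
    simp only [Submodule.coe_add, pb, Pi.add_apply]
    split_ifs <;> simp
  map_smul' := by
    intro c a
    ext x y
    simp only [Submodule.coe_smul, pb, Pi.smul_apply, RingHom.id_apply]
    split_ifs <;> simp

theorem GIso.conn {e : V → W} (h : GIso G H A B e) : Conn G A ↔ Conn H B := by
  refine ⟨conn_mp h, fun hc => ?_⟩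
  rcases Set.eq_empty_or_nonempty A with hA | hA
  · exfalso
    have h1 := hc.1
    rw [empty_of h hA] at h1
    exact Set.not_nonempty_empty h1
  · obtain ⟨g, hg, -, -⟩ := exists_inv h hA
    exact conn_mp hg hc

private theorem hz_empty (G : SimpleGraph V) : HZ G ∅ := fun _ _ =>
  ⟨0, fun _ _ k => absurd k.2.1 (Set.notMem_empty _)⟩

private theorem hz_mp {e : V → W} {g : W → V} (h : GIso G H A B e) (hg : GIso H G B A g)
    (heg : ∀ y ∈ B, e (g y) = y) (hz : HZ G A) : HZ H B := by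
  intro b hb
  have h1 := pb_triv hg (hz _ (pb_mem h hb))
  rw [pb_pb hg heg hb] at h1
  exact h1

theorem GIso.hz {e : V → W} (h : GIso G H A B e) : HZ G A ↔ HZ H B := by
  rcases Set.eq_empty_or_nonempty A with hA | hA
  · have hB := empty_of h hA
    subst hA
    subst hB
    exact ⟨fun _ => hz_empty H, fun _ => hz_empty G⟩
  · obtain ⟨g, hg, hge, heg⟩ := exists_inv h hA
    exact ⟨hz_mp h hg heg, hz_mp hg h hge⟩

theorem GIso.b1_eq [Finite V] [Finite W] {e : V → W} (h : GIso G H A B e) :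
    b1 G A = b1 H B := by
  rcases Set.eq_empty_or_nonempty A with hA | hA
  · have hB := empty_of h hA
    subst hA
    subst hB
    rw [b1_eq_zero.2 (hz_empty G), b1_eq_zero.2 (hz_empty H)]
  · obtain ⟨g, hg, hge, heg⟩ := exists_inv h hA
    let φ : (Z1 G A) ≃ₗ[ZMod 2] (Z1 H B) := LinearEquiv.ofLinear (pbl g hg) (pbl e h)
      (by
        ext b
        exact congrFun (congrFun (pb_pb hg heg b.2) _) _)
      (by
        ext a
        exact congrFun (congrFun (pb_pb h hge a.2) _) _)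
    have hφ : ∀ a : Z1 G A, (φ a).1 = pb g H B a.1 := fun _ => rfl
    have hψ : ∀ b : Z1 H B, (φ.symm b).1 = pb e G A b.1 := fun _ => rfl
    unfold b1 rk1
    refine LinearEquiv.finrank_eq (Submodule.Quotient.equiv _ _ φ ?_)
    ext b
    rw [Submodule.mem_map]
    constructor
    · rintro ⟨a, ha, rfl⟩
      exact ⟨(φ a).2, pb_triv hg ha.2⟩
    · intro hb
      refine ⟨φ.symm b, ⟨(φ.symm b).2, pb_triv h hb.2⟩, ?_⟩
      exact φ.apply_symm_apply b

/-- pull-back of functions -/
private def pz (g : W → V) (B : Set W) (f : V → ZMod 2) : W → ZMod 2 :=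
  fun u => if u ∈ B then f (g u) else 0

private theorem pz_apply {g : W → V} {f : V → ZMod 2} {u : W} (h : u ∈ B) :
    pz g B f u = f (g u) := if_pos h

private theorem pz_mem {g : W → V} (h : GIso H G B A g) {f : V → ZMod 2} (hf : f ∈ Z0 G A) :
    pz g B f ∈ Z0 H B := by
  refine mem_Z0.2 ⟨fun x k => if_neg k, fun x y k => ?_⟩
  rw [pz_apply k.2.1, pz_apply k.2.2]
  exact (mem_Z0.1 hf).2 _ _ (h.ein k)

private theorem pz_pz {e : V → W} {g : W → V} (h : GIso G H A B e)
    (hge : ∀ x ∈ A, g (e x) = x) {f : V → ZMod 2} (hf : f ∈ Z0 G A) :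
    pz e A (pz g B f) = f := by
  funext x
  by_cases k : x ∈ A
  · rw [pz_apply k, pz_apply (h.bij.mapsTo k), hge x k]
  · rw [(mem_Z0.1 hf).1 x k]
    exact if_neg k

private def pzl (g : W → V) (h : GIso H G B A g) : (Z0 G A) →ₗ[ZMod 2] (Z0 H B) where
  toFun := fun f => ⟨pz g B f.1, pz_mem h f.2⟩
  map_add' := by
    intro a b
    ext x
    simp only [Submodule.coe_add, pz, Pi.add_apply]
    split_ifs <;> simp
  map_smul' := by
    intro c a
    ext x
    simp only [Submodule.coe_smul, pz, Pi.smul_apply, RingHom.id_apply]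
    split_ifs <;> simp

private theorem b0_empty (G : SimpleGraph V) : b0 G ∅ = 0 := by
  unfold b0
  have h1 : Z0 G ∅ = ⊥ := by
    rw [eq_bot_iff]
    intro f hf
    rw [Submodule.mem_bot]
    funext x
    exact (mem_Z0.1 hf).1 x (Set.notMem_empty x)
  rw [h1, finrank_bot]

theorem GIso.b0_eq [Finite V] [Finite W] {e : V → W} (h : GIso G H A B e) :
    b0 G A = b0 H B := by
  rcases Set.eq_empty_or_nonempty A with hA | hA
  · have hB := empty_of h hA
    subst hA
    subst hB
    rw [b0_empty, b0_empty]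
  · obtain ⟨g, hg, hge, heg⟩ := exists_inv h hA
    unfold b0
    refine LinearEquiv.finrank_eq (LinearEquiv.ofLinear (pzl g hg) (pzl e h) ?_ ?_)
    · ext b
      exact congrFun (pz_pz hg heg b.2) _
    · ext a
      exact congrFun (pz_pz h hge a.2) _

private theorem isCyc_mp {e : V → W} (h : GIso G H A B e) (hc : IsCyc G A) : IsCyc H B := by
  refine ⟨conn_mp h hc.1, ?_⟩
  intro u hu
  obtain ⟨x, hx, rfl⟩ := h.bij.surjOn hu
  have h1 : {v | EIn H B (e x) v} = e '' {y | EIn G A x y} := by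
    ext v
    constructor
    · intro hv
      obtain ⟨y, hy, rfl⟩ := h.bij.surjOn hv.2.2
      exact ⟨y, (h.ein_iff hx hy).2 hv, rfl⟩
    · rintro ⟨y, hy, rfl⟩
      exact h.ein hy
  rw [h1, Set.ncard_image_of_injOn (h.bij.injOn.mono fun y hy => hy.2.2)]
  exact hc.2 x hx

theorem GIso.isCyc {e : V → W} (h : GIso G H A B e) : IsCyc G A ↔ IsCyc H B := by
  refine ⟨isCyc_mp h, fun hc => ?_⟩
  rcases Set.eq_empty_or_nonempty A with hA | hA
  · exfalso
    have h1 := hc.1.1
    rw [empty_of h hA] at h1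
    exact Set.not_nonempty_empty h1
  · obtain ⟨g, hg, -, -⟩ := exists_inv h hA
    exact isCyc_mp hg hc

end MOT
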