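import Pool.Agent.MOT.Joi
import Pool.Agent.MOT.Iso
import Pool.Agent.MOT.Sdi

/-!
# MOT/Sph: links in `sd G`; `sd` keeps `IsSph3`; the 16-cell
-/

open Classical

noncomputable section

namespace MOT

variable {V : Type} {G : SimpleGraph V}

/-! ## simplices above and below a simplex -/

private theorem cpos (s : Cq G) : 1 ≤ s.1.card := s.2.1.card_pos

private theorem card_lt {s t : Cq G} (h : s < t) : s.1.card < t.1.card :=
  Finset.card_lt_card (Cq.lt_iff.1 h)

private theorem sub_of_lt {s t : Cq G} (h : s < t) : s.1 ⊆ t.1 := (Cq.lt_iff.1 h).1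

private theorem lt_of_sub {s t : Cq G} (h : s.1 ⊆ t.1) (hc : s.1.card < t.1.card) : s < t := by
  rw [Cq.lt_iff]
  exact ⟨h, fun e => absurd (Finset.card_le_card e) (not_le.2 hc)⟩

private theorem cext {s t : Cq G} (h : s.1 = t.1) : s = t := Subtype.ext h

/-- `t ↦ t \ s` -/
private def sdf (s t : Cq G) : Cq G :=
  if h : (t.1 \ s.1).Nonempty then
    ⟨t.1 \ s.1, h, fun _ hx _ hy hxy =>
      t.2.2 (Finset.mem_coe.2 (Finset.mem_sdiff.1 (Finset.mem_coe.1 hx)).1)
        (Finset.mem_coe.2 (Finset.mem_sdiff.1 (Finset.mem_coe.1 hy)).1) hxy⟩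
  else s

private theorem sdf_val {s t : Cq G} (h : s < t) : (sdf s t).1 = t.1 \ s.1 := by
  have h1 : (t.1 \ s.1).Nonempty := Finset.sdiff_nonempty.2 (Cq.lt_iff.1 h).2
  unfold sdf
  rw [dif_pos h1]

private theorem sdf_card {s t : Cq G} (h : s < t) :
    (sdf s t).1.card + s.1.card = t.1.card := by
  rw [sdf_val h]
  exact Finset.card_sdiff_add_card_eq_card (sub_of_lt h)

private theorem sub_iff {s t t' : Cq G} (h : s < t) (h' : s < t') :
    t.1 ⊆ t'.1 ↔ (sdf s t).1 ⊆ (sdf s t').1 := by
  rw [sdf_val h, sdf_val h']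
  constructor
  · intro k x hx
    rw [Finset.mem_sdiff] at hx ⊢
    exact ⟨k hx.1, hx.2⟩
  · intro k x hx
    by_cases hs : x ∈ s.1
    · exact sub_of_lt h' hs
    · exact (Finset.mem_sdiff.1 (k (Finset.mem_sdiff.2 ⟨hx, hs⟩))).1

private theorem lt_iff' {s t t' : Cq G} (h : s < t) (h' : s < t') :
    t < t' ↔ sdf s t < sdf s t' := by
  rw [lt_iff_le_not_ge, lt_iff_le_not_ge, Cq.le_iff, Cq.le_iff, Cq.le_iff, Cq.le_iff,
    sub_iff h h', sub_iff h' h]

private theorem iso0 (s : Cq G) :
    GIso (sd G) (sd G) {t | s < t} (mi G (Lk G (s.1 : Set V))) (sdf s) := by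
  refine ⟨⟨?_, ?_, ?_⟩, ?_⟩
  · intro t ht
    have ht' : s < t := ht
    intro x hx y hy
    rw [sdf_val ht', Finset.mem_sdiff] at hx
    refine t.2.2 (Finset.mem_coe.2 (sub_of_lt ht' (Finset.mem_coe.1 hy)))
      (Finset.mem_coe.2 hx.1) ?_
    rintro rfl
    exact hx.2 (Finset.mem_coe.1 hy)
  · intro t ht t' ht' e
    have h1 : s < t := ht
    have h2 : s < t' := ht'
    have h3 : (sdf s t).1 = (sdf s t').1 := by rw [e]
    exact cext (Finset.Subset.antisymm ((sub_iff h1 h2).2 h3.subset)
      ((sub_iff h2 h1).2 h3.symm.subset))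
  · intro r hr
    have hd : Disjoint s.1 r.1 := by
      rw [Finset.disjoint_left]
      intro x hx hx'
      exact G.loopless.irrefl x (hr x hx' x (Finset.mem_coe.2 hx))
    have hcl : G.IsClique ((s.1 ∪ r.1 : Finset V) : Set V) := by
      intro x hx y hy hxy
      rw [Finset.mem_coe, Finset.mem_union] at hx hy
      rcases hx with hx | hx <;> rcases hy with hy | hy
      · exact s.2.2 (Finset.mem_coe.2 hx) (Finset.mem_coe.2 hy) hxy
      · exact hr y hy x (Finset.mem_coe.2 hx)
      · exact (hr x hx y (Finset.mem_coe.2 hy)).symm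
      · exact r.2.2 (Finset.mem_coe.2 hx) (Finset.mem_coe.2 hy) hxy
    let t : Cq G := ⟨s.1 ∪ r.1, s.2.1.mono Finset.subset_union_left, hcl⟩
    have hst : s < t := by
      refine lt_of_sub Finset.subset_union_left ?_
      have h1 : t.1.card = s.1.card + r.1.card := Finset.card_union_of_disjoint hd
      have h2 := cpos r
      omega
    refine ⟨t, hst, cext ?_⟩
    rw [sdf_val hst]
    exact Finset.union_sdiff_cancel_left hd
  · intro t ht t' ht'
    rw [sd_adj, sd_adj, lt_iff' ht ht', lt_iff' ht' ht]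

private theorem giso_restrict {V W : Type} {G : SimpleGraph V} {H : SimpleGraph W}
    {A A' : Set V} {B B' : Set W} {e : V → W} (h : GIso G H A B e) (hA : A' ⊆ A) (hB : B' ⊆ B)
    (hi : ∀ x ∈ A, x ∈ A' ↔ e x ∈ B') : GIso G H A' B' e := by
  refine ⟨⟨fun x hx => (hi x (hA hx)).1 hx, h.bij.injOn.mono hA, ?_⟩,
    fun x hx y hy => h.adj x (hA hx) y (hA hy)⟩
  intro y hy
  obtain ⟨x, hx, rfl⟩ := h.bij.surjOn (hB hy)
  exact ⟨x, (hi x hx).2 hy, rfl⟩

/-- `t ↦ t \ s` is an isomorphism from `{t | s < t}` onto `mi (Lk s)` -/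
theorem above_iso (s : Cq G) : ∃ e : Cq G → Cq G,
    GIso (sd G) (sd G) {t | s < t} (mi G (Lk G (s.1 : Set V))) e :=
  ⟨sdf s, iso0 s⟩

theorem above_Conn (s : Cq G) :
    Conn (sd G) {t | s < t} ↔ Conn G (Lk G (s.1 : Set V)) :=
  (iso0 s).conn.trans sd_Conn

theorem above_HZ (s : Cq G) : HZ (sd G) {t | s < t} ↔ HZ G (Lk G (s.1 : Set V)) :=
  (iso0 s).hz.trans sd_HZ

private theorem iso_mi (s : Cq G) (A : Set V) :
    GIso (sd G) (sd G) {t | s < t ∧ ∀ x ∈ t.1, x ∉ s.1 → x ∈ A}
      (mi G (Lk G (s.1 : Set V) ∩ A)) (sdf s) := by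
  refine giso_restrict (iso0 s) (fun t ht => ht.1) (mi_mono Set.inter_subset_left) ?_
  intro t ht
  have ht' : s < t := ht
  have h1 := (iso0 s).bij.mapsTo ht
  constructor
  · intro h x hx
    refine ⟨h1 x hx, ?_⟩
    rw [sdf_val ht', Finset.mem_sdiff] at hx
    exact h.2 x hx.1 hx.2
  · intro h
    refine ⟨ht', fun x hx hx' => (h x ?_).2⟩
    rw [sdf_val ht', Finset.mem_sdiff]
    exact ⟨hx, hx'⟩

private theorem iso_pl (s : Cq G) (A : Set V) :
    GIso (sd G) (sd G) {t | s < t ∧ ∃ x ∈ t.1, x ∉ s.1 ∧ x ∈ A}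
      (mi G (Lk G (s.1 : Set V)) ∩ pl G A) (sdf s) := by
  refine giso_restrict (iso0 s) (fun t ht => ht.1) Set.inter_subset_left ?_
  intro t ht
  have ht' : s < t := ht
  have h1 := (iso0 s).bij.mapsTo ht
  constructor
  · rintro ⟨-, x, hx, hx', hA⟩
    refine ⟨h1, x, ?_, hA⟩
    rw [sdf_val ht', Finset.mem_sdiff]
    exact ⟨hx, hx'⟩
  · rintro ⟨-, x, hx, hA⟩
    rw [sdf_val ht', Finset.mem_sdiff] at hx
    exact ⟨ht', x, hx.1, hx.2, hA⟩

private theorem pl1 (s : Cq G) (A : Set V) :
    mi G (Lk G (s.1 : Set V) ∩ A) ⊆ mi G (Lk G (s.1 : Set V)) ∩ pl G A := by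
  rw [mi_inter]
  exact Set.inter_subset_inter_right _ mi_sub_pl

private theorem pl2 (s : Cq G) (A : Set V) :
    mi G (Lk G (s.1 : Set V)) ∩ pl G A ⊆ pl G (Lk G (s.1 : Set V) ∩ A) := by
  rintro r ⟨h1, x, hx, hA⟩
  exact ⟨x, hx, h1 x hx, hA⟩

/-- the part of the upper link with new vertices in `A` (all of them / at least one of them) -/
theorem above_mi_Conn (s : Cq G) (A : Set V) :
    Conn (sd G) {t | s < t ∧ ∀ x ∈ t.1, x ∉ s.1 → x ∈ A} ↔ Conn G (Lk G (s.1 : Set V) ∩ A) :=
  (iso_mi s A).conn.trans sd_Conn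

theorem above_mi_HZ (s : Cq G) (A : Set V) :
    HZ (sd G) {t | s < t ∧ ∀ x ∈ t.1, x ∉ s.1 → x ∈ A} ↔ HZ G (Lk G (s.1 : Set V) ∩ A) :=
  (iso_mi s A).hz.trans sd_HZ

theorem above_pl_Conn (s : Cq G) (A : Set V) :
    Conn (sd G) {t | s < t ∧ ∃ x ∈ t.1, x ∉ s.1 ∧ x ∈ A} ↔ Conn G (Lk G (s.1 : Set V) ∩ A) :=
  (iso_pl s A).conn.trans (bt_Conn (pl1 s A) (pl2 s A))

theorem above_pl_HZ (s : Cq G) (A : Set V) :
    HZ (sd G) {t | s < t ∧ ∃ x ∈ t.1, x ∉ s.1 ∧ x ∈ A} ↔ HZ G (Lk G (s.1 : Set V) ∩ A) :=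
  (iso_pl s A).hz.trans (bt_HZ (pl1 s A) (pl2 s A))

private theorem vx_lt {s : Cq G} {x : V} (hx : x ∈ s.1) (h : 2 ≤ s.1.card) : vx G x < s := by
  refine lt_of_sub (Finset.singleton_subset_iff.2 hx) ?_
  have h1 : (vx G x).1.card = 1 := Finset.card_singleton x
  omega

theorem below_nonempty (s : Cq G) (h : 2 ≤ s.1.card) : {t : Cq G | t < s}.Nonempty := by
  obtain ⟨x, hx⟩ := s.2.1
  exact ⟨vx G x, vx_lt hx h⟩

/-- `t ↦ t ∪ {x}` -/
private def ins (s : Cq G) (x : V) (t : Cq G) : Cq G :=
  if h : x ∈ s.1 ∧ t.1 ⊆ s.1 then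
    ⟨insert x t.1, Finset.insert_nonempty x _, fun _ ha _ hb hab =>
      s.2.2 (Finset.mem_coe.2 (Finset.insert_subset h.1 h.2 (Finset.mem_coe.1 ha)))
        (Finset.mem_coe.2 (Finset.insert_subset h.1 h.2 (Finset.mem_coe.1 hb))) hab⟩
  else t

private theorem ins_val {s : Cq G} {x : V} (hx : x ∈ s.1) {t : Cq G} (ht : t < s) :
    (ins s x t).1 = insert x t.1 := by
  unfold ins
  rw [dif_pos ⟨hx, sub_of_lt ht⟩]

private theorem core (s : Cq G) {x : V} (hx : x ∈ s.1) (h : 2 ≤ s.1.card) :
    Conn (sd G) {t | t < s ∧ t.1 ≠ s.1.erase x} ∧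
      HZ (sd G) {t | t < s ∧ t.1 ≠ s.1.erase x} := by
  have h1 : {t : Cq G | t < s ∧ x ∈ t.1} ⊆ {t | t < s ∧ t.1 ≠ s.1.erase x} := by
    rintro t ⟨ht, hxt⟩
    refine ⟨ht, fun e => ?_⟩
    rw [e] at hxt
    exact Finset.notMem_erase x _ hxt
  have h2 : ∀ t ∈ {t : Cq G | t < s ∧ t.1 ≠ s.1.erase x},
      ins s x t ∈ {t : Cq G | t < s ∧ x ∈ t.1} := by
    rintro t ⟨ht, hne⟩
    refine ⟨?_, ?_⟩
    · rw [Cq.lt_iff, ins_val hx ht]
      refine ⟨Finset.insert_subset hx (sub_of_lt ht), fun k => ?_⟩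
      by_cases hxt : x ∈ t.1
      · rw [Finset.insert_eq_of_mem hxt] at k
        exact (Cq.lt_iff.1 ht).2 k
      · apply hne
        refine Finset.Subset.antisymm (fun y hy => ?_) (fun y hy => ?_)
        · rw [Finset.mem_erase]
          refine ⟨?_, sub_of_lt ht hy⟩
          rintro rfl
          exact hxt hy
        · rw [Finset.mem_erase] at hy
          exact (Finset.mem_insert.1 (k hy.2)).resolve_left hy.1
    · rw [ins_val hx ht]
      exact Finset.mem_insert_self x _
  have h3 : ∀ t ∈ {t : Cq G | t < s ∧ t.1 ≠ s.1.erase x}, t ≤ ins s x t := by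
    rintro t ⟨ht, -⟩
    rw [Cq.le_iff, ins_val hx ht]
    exact Finset.subset_insert x _
  have h4 : ∀ t ∈ {t : Cq G | t < s ∧ t.1 ≠ s.1.erase x},
      ∀ t' ∈ {t : Cq G | t < s ∧ t.1 ≠ s.1.erase x}, t ≤ t' → ins s x t ≤ ins s x t' := by
    rintro t ⟨ht, -⟩ t' ⟨ht', -⟩ k
    rw [Cq.le_iff, ins_val hx ht, ins_val hx ht']
    exact Finset.insert_subset_insert x (Cq.le_iff.1 k)
  have h5 : vx G x ∈ {t : Cq G | t < s ∧ x ∈ t.1} := ⟨vx_lt hx h, Finset.mem_singleton_self x⟩
  have h6 : ∀ t ∈ {t : Cq G | t < s ∧ x ∈ t.1}, vx G x ≤ t := by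
    rintro t ⟨-, hxt⟩
    exact Cq.le_iff.2 (Finset.singleton_subset_iff.2 hxt)
  have h7 : ∀ t ∈ {t : Cq G | t < s ∧ x ∈ t.1}, ins s x t = t := by
    rintro t ⟨ht, hxt⟩
    refine Subtype.ext ?_
    rw [ins_val hx ht]
    exact Finset.insert_eq_of_mem hxt
  exact ⟨(retu_Conn (ins s x) h1 h2 h3 h4).2 (bot_Conn h5 h6),
    (retu_HZ (ins s x) h1 h2 h3 h4 h7).2 (bot_HZ h5 h6)⟩

private theorem mfac (s : Cq G) {x : V} (hx : x ∈ s.1) (h : 2 ≤ s.1.card) :
    ∃ m : Cq G, m.1 = s.1.erase x ∧ m < s ∧ m.1.card + 1 = s.1.card ∧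
      {t | t < s} = insert m {t : Cq G | t < s ∧ t.1 ≠ s.1.erase x} := by
  have hc : (s.1.erase x).card + 1 = s.1.card := Finset.card_erase_add_one hx
  have hne : (s.1.erase x).Nonempty := by
    rw [← Finset.card_pos]
    omega
  have hcl : G.IsClique ((s.1.erase x : Finset V) : Set V) := fun a ha b hb hab =>
    s.2.2 (Finset.mem_coe.2 (Finset.mem_of_mem_erase (Finset.mem_coe.1 ha)))
      (Finset.mem_coe.2 (Finset.mem_of_mem_erase (Finset.mem_coe.1 hb))) hab
  let m : Cq G := ⟨s.1.erase x, hne, hcl⟩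
  have hm : m.1 = s.1.erase x := rfl
  have hlt : m < s := by
    refine lt_of_sub (Finset.erase_subset x _) ?_
    rw [hm]
    omega
  refine ⟨m, hm, hlt, hc, ?_⟩
  ext t
  constructor
  · intro ht
    by_cases e : t.1 = s.1.erase x
    · exact Or.inl (cext (e.trans hm.symm))
    · exact Or.inr ⟨ht, e⟩
  · rintro (rfl | ht)
    · exact hlt
    · exact ht.1

theorem below_Conn (s : Cq G) (h : 3 ≤ s.1.card) : Conn (sd G) {t | t < s} := by
  obtain ⟨x, hx⟩ := s.2.1
  obtain ⟨m, hm, hlt, hc, he⟩ := mfac s hx (by omega)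
  obtain ⟨y, hy⟩ := m.2.1
  have hys : y ∈ s.1 := sub_of_lt hlt hy
  have h1 : vx G y ∈ {t : Cq G | t < s ∧ t.1 ≠ s.1.erase x} := by
    refine ⟨vx_lt hys (by omega), fun e => ?_⟩
    have h2 : (vx G y).1.card = 1 := Finset.card_singleton y
    rw [e, ← hm] at h2
    omega
  have h2 : Conn (sd G) ({m} : Set (Cq G)) :=
    cone_Conn (Set.mem_singleton m) fun y hy hne => absurd hy hne
  have h3 := conn_union_adj (core s hx (by omega)).1 h2 h1 (Set.mem_singleton m)
    (Or.inl (vx_lt hy (by omega)))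
  rw [he, Set.insert_eq, Set.union_comm]
  exact h3

/-- boundary of a simplex with at least 4 vertices.
Sketch: `x ∈ s`, `m := s \ {x}`; `{t < s} \ {m}` is a cone via `t ↦ t ∪ {x}`, `≥ {x}`; the link of
`m` in it is `{t | t < m}`, connected by `below_Conn`; use `mv_triv` or `add_vertex_Inj`. -/
theorem below_HZ (s : Cq G) (h : 4 ≤ s.1.card) : HZ (sd G) {t | t < s} := by
  obtain ⟨x, hx⟩ := s.2.1
  obtain ⟨m, hm, hlt, hc, he⟩ := mfac s hx (by omega)
  have h1 : m ∉ {t : Cq G | t < s ∧ t.1 ≠ s.1.erase x} := fun k => k.2 hm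
  have h2 : Lk (sd G) {m} ∩ {t : Cq G | t < s ∧ t.1 ≠ s.1.erase x} = {t | t < m} := by
    ext t
    constructor
    · rintro ⟨ht, ht1, ht2⟩
      rcases ht m (Set.mem_singleton m) with k | k
      · have := card_lt k
        have := card_lt ht1
        omega
      · exact k
    · intro ht
      have ht' : t < m := ht
      refine ⟨?_, ht'.trans hlt, fun e => ?_⟩
      · intro y hy
        rw [Set.mem_singleton_iff.1 hy]
        exact Or.inr ht'
      · rw [← hm] at e
        exact absurd (cext e) ht'.ne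
  have h3 : Conn (sd G) (Lk (sd G) {m} ∩ {t : Cq G | t < s ∧ t.1 ≠ s.1.erase x}) := by
    rw [h2]
    exact below_Conn m (by omega)
  rw [he]
  intro a ha
  refine add_vertex_Inj h1 h3 a ha ?_
  exact Triv_rs.1 ((core s hx (by omega)).2 _ (rs_mem (Set.subset_insert _ _) ha))

private theorem below_two' (s : Cq G) (h : s.1.card = 2) :
    {t : Cq G | t < s}.ncard = 2 ∧ ∀ t t' : Cq G, t < s → t' < s → ¬ (sd G).Adj t t' := by
  constructor
  · obtain ⟨x, y, hxy, e⟩ := Finset.card_eq_two.1 h
    have h1 : {t : Cq G | t < s} = {vx G x, vx G y} := by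
      ext t
      constructor
      · intro ht
        have ht' : t < s := ht
        have h2 := card_lt ht'
        have h3 := cpos t
        obtain ⟨z, hz⟩ := Finset.card_eq_one.1 (by omega : t.1.card = 1)
        have h4 : z ∈ s.1 := sub_of_lt ht' (by rw [hz]; exact Finset.mem_singleton_self z)
        rw [e, Finset.mem_insert, Finset.mem_singleton] at h4
        rcases h4 with rfl | rfl
        · exact Or.inl (cext hz)
        · exact Or.inr (cext hz)
      · rintro (rfl | rfl)
        · exact vx_lt (by rw [e]; exact Finset.mem_insert_self _ _) (by omega)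
        · exact vx_lt (by rw [e]; exact Finset.mem_insert_of_mem (Finset.mem_singleton_self _))
            (by omega)
    rw [h1]
    refine Set.ncard_pair fun k => hxy ?_
    have h2 : (vx G x).1 = (vx G y).1 := by rw [k]
    exact Finset.singleton_injective h2
  · rintro t t' ht ht' (k | k)
    · have h1 := card_lt k
      have h2 := card_lt ht'
      have h3 := cpos t
      omega
    · have h1 := card_lt k
      have h2 := card_lt ht
      have h3 := cpos t'
      omega

private theorem iso1 {s t : Cq G} (h : s < t) :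
    GIso (sd G) (sd G) {r | s < r ∧ r < t} {r | r < sdf s t} (sdf s) := by
  have h1 := (iso0 s).bij.mapsTo (Set.mem_ofPred_eq ▸ h : t ∈ {t | s < t})
  refine giso_restrict (iso0 s) (fun r hr => hr.1) ?_ ?_
  · intro r hr x hx
    exact h1 x (sub_of_lt hr hx)
  · intro r hr
    have hr' : s < r := hr
    constructor
    · intro k
      exact (lt_iff' hr' h).1 k.2
    · intro k
      exact ⟨hr', (lt_iff' hr' h).2 k⟩

private theorem between_two' (s t : Cq G) (h : s < t) (hc : t.1.card = s.1.card + 2) :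
    {r : Cq G | s < r ∧ r < t}.ncard = 2 ∧
      ∀ r r' : Cq G, s < r → r < t → s < r' → r' < t → ¬ (sd G).Adj r r' := by
  have h0 := sdf_card h
  have h1 := below_two' (sdf s t) (by omega)
  have h2 := iso1 h
  constructor
  · rw [← h2.bij.injOn.ncard_image, h2.bij.image_eq]
    exact h1.1
  · intro r r' a b a' b' k
    exact h1.2 _ _ ((lt_iff' a h).1 b) ((lt_iff' a' h).1 b')
      ((h2.adj r ⟨a, b⟩ r' ⟨a', b'⟩).1 k)

/-- the boundary of a triangle is a hexagon -/
theorem below_cyc (s : Cq G) (h : s.1.card = 3) : IsCyc (sd G) {t | t < s} := by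
  refine ⟨below_Conn s (by omega), ?_⟩
  intro t ht
  have ht' : t < s := ht
  have h1 := card_lt ht'
  have h2 := cpos t
  rcases (by omega : t.1.card = 1 ∨ t.1.card = 2) with h3 | h3
  · rw [← (between_two' t s ht' (by omega)).1]
    congr 1
    ext r
    constructor
    · rintro ⟨k | k, -, hr⟩
      · exact ⟨k, hr⟩
      · have := card_lt k
        have := cpos r
        omega
    · rintro ⟨k, hr⟩
      exact ⟨Or.inl k, ht, hr⟩
  · rw [← (below_two' t h3).1]
    congr 1
    ext r
    constructor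
    · rintro ⟨k | k, -, hr⟩
      · have := card_lt k
        have := card_lt hr
        omega
      · exact k
    · intro k
      have k' : r < t := k
      exact ⟨Or.inr k', ht, k'.trans ht'⟩

theorem below_two (s : Cq G) (h : s.1.card = 2) :
    {t : Cq G | t < s}.ncard = 2 ∧ ∀ t t' : Cq G, t < s → t' < s → ¬ (sd G).Adj t t' :=
  below_two' s h

theorem between_cyc (s t : Cq G) (h : s < t) (hc : t.1.card = s.1.card + 3) :
    IsCyc (sd G) {r | s < r ∧ r < t} := by
  have h0 := sdf_card h
  exact (iso1 h).isCyc.2 (below_cyc _ (by omega))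

theorem between_two (s t : Cq G) (h : s < t) (hc : t.1.card = s.1.card + 2) :
    {r : Cq G | s < r ∧ r < t}.ncard = 2 ∧
      ∀ r r' : Cq G, s < r → r < t → s < r' → r' < t → ¬ (sd G).Adj r r' :=
  between_two' s t h hc

theorem above_two (hG : IsSph3 G) [Finite V] (s : Cq G) (h : s.1.card = 3) :
    {t : Cq G | s < t}.ncard = 2 ∧ ∀ t t' : Cq G, s < t → s < t' → ¬ (sd G).Adj t t' := by
  have hk : ∀ t : Cq G, t.1.card ≤ 4 := fun t => hG.k5 t.1 t.2.2
  constructor
  · rw [← (iso0 s).bij.injOn.ncard_image, (iso0 s).bij.image_eq]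
    have h1 : mi G (Lk G (s.1 : Set V)) = vx G '' Lk G (s.1 : Set V) := by
      ext r
      constructor
      · intro hr
        obtain ⟨t, ht, rfl⟩ := (iso0 s).bij.surjOn hr
        have h2 := sdf_card ht
        have h3 := hk t
        have h4 := cpos (sdf s t)
        obtain ⟨z, hz⟩ := Finset.card_eq_one.1 (by omega : (sdf s t).1.card = 1)
        refine ⟨z, hr z (by rw [hz]; exact Finset.mem_singleton_self z), (cext hz).symm⟩
      · rintro ⟨z, hz, rfl⟩ x hx
        rw [Finset.mem_singleton.1 hx]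
        exact hz
    rw [h1, Set.ncard_image_of_injective]
    · exact hG.tri s.1 s.2.2 h
    · intro x y k
      have h2 : (vx G x).1 = (vx G y).1 := by rw [k]
      exact Finset.singleton_injective h2
  · rintro t t' ht ht' (k | k)
    · have h1 := card_lt k
      have h2 := card_lt ht
      have h3 := hk t'
      omega
    · have h1 := card_lt k
      have h2 := card_lt ht'
      have h3 := hk t
      omega

/-- the join of two pairs of non adjacent vertices is a 4-cycle -/
theorem join_cyc {A B : Set V} (hA : A.ncard = 2) (hB : B.ncard = 2)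
    (hA' : ∀ x ∈ A, ∀ y ∈ A, ¬ G.Adj x y) (hB' : ∀ x ∈ B, ∀ y ∈ B, ¬ G.Adj x y)
    (hAB : ∀ x ∈ A, ∀ y ∈ B, G.Adj x y) : IsCyc G (A ∪ B) := by
  have hAn : A.Nonempty := Set.nonempty_of_ncard_ne_zero (by omega)
  have hBn : B.Nonempty := Set.nonempty_of_ncard_ne_zero (by omega)
  refine ⟨join_Conn hAB hAn hBn, ?_⟩
  rintro x (hx | hx)
  · rw [← hB]
    congr 1
    ext y
    constructor
    · rintro ⟨k, -, hy | hy⟩
      · exact absurd k (hA' x hx y hy)
      · exact hy
    · intro hy
      exact ⟨hAB x hx y hy, Or.inl hx, Or.inr hy⟩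
  · rw [← hA]
    congr 1
    ext y
    constructor
    · rintro ⟨k, -, hy | hy⟩
      · exact hy
      · exact absurd k (hB' x hx y hy)
    · intro hy
      exact ⟨(hAB y hy x hx).symm, Or.inr hx, Or.inl hy⟩

/-- subdivision of a cycle (a cycle with at least 4 vertices has no triangle) -/
theorem sd_cyc [Finite V] {C : Set V} (h : IsCyc G C)
    (h3 : ∀ x y z, EIn G C x y → EIn G C y z → EIn G C x z → False) :
    IsCyc (sd G) (mi G C) := by
  have hc : ∀ r ∈ mi G C, r.1.card ≤ 2 := by
    intro r hr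
    by_contra k
    obtain ⟨x, hx, y, hy, z, hz, hxy, hxz, hyz⟩ := Finset.two_lt_card.1 (not_le.1 k)
    exact h3 x y z ⟨r.2.2 hx hy hxy, hr x hx, hr y hy⟩ ⟨r.2.2 hy hz hyz, hr y hy, hr z hz⟩
      ⟨r.2.2 hx hz hxz, hr x hx, hr z hz⟩
  refine ⟨sd_Conn.2 h.1, ?_⟩
  intro r hr
  have h1 := hc r hr
  have h2 := cpos r
  rcases (by omega : r.1.card = 1 ∨ r.1.card = 2) with h4 | h4
  · obtain ⟨x, hx⟩ := Finset.card_eq_one.1 h4
    have hxC : x ∈ C := hr x (by rw [hx]; exact Finset.mem_singleton_self x)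
    rw [← h.2 x hxC]
    let g : V → Cq G := fun y => if k : G.Adj x y then eg G k else vx G x
    have hg : ∀ y, EIn G C x y → (g y).1 = {x, y} := by
      intro y hy
      have : g y = eg G hy.1 := dif_pos hy.1
      rw [this]
      rfl
    have h5 : {t | EIn (sd G) (mi G C) r t} = g '' {y | EIn G C x y} := by
      ext t
      constructor
      · rintro ⟨k | k, -, ht⟩
        · have h6 := card_lt k
          have h7 := hc t ht
          have hxt : x ∈ t.1 := sub_of_lt k (by rw [hx]; exact Finset.mem_singleton_self x)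
          obtain ⟨y, hy, hyx⟩ := Finset.exists_mem_ne (by omega : 1 < t.1.card) x
          have h8 : EIn G C x y := ⟨t.2.2 hxt hy hyx.symm, hxC, ht y hy⟩
          refine ⟨y, h8, cext ?_⟩
          rw [hg y h8]
          refine Finset.eq_of_subset_of_card_le ?_ ?_
          · intro z hz
            rw [Finset.mem_insert, Finset.mem_singleton] at hz
            rcases hz with rfl | rfl
            · exact hxt
            · exact hy
          · rw [Finset.card_pair hyx.symm]
            omega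
        · have := card_lt k
          have := cpos t
          omega
      · rintro ⟨y, hy, rfl⟩
        have hyv := hg y hy
        have hne : x ≠ y := hy.1.ne
        refine ⟨Or.inl (lt_of_sub ?_ ?_), hr, ?_⟩
        · rw [hyv, hx]
          exact Finset.singleton_subset_iff.2 (Finset.mem_insert_self _ _)
        · rw [hyv, hx, Finset.card_pair hne, Finset.card_singleton]
          omega
        · intro z hz
          rw [hyv, Finset.mem_insert, Finset.mem_singleton] at hz
          rcases hz with rfl | rfl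
          · exact hxC
          · exact hy.2.2
    rw [h5]
    refine Set.InjOn.ncard_image ?_
    intro y hy y' hy' e
    have h6 := hg y hy
    have h7 := hg y' hy'
    have h8 : ({x, y} : Finset V) = {x, y'} := by rw [← h6, ← h7, e]
    have h9 : y ∈ ({x, y'} : Finset V) := by
      rw [← h8]
      exact Finset.mem_insert_of_mem (Finset.mem_singleton_self y)
    rw [Finset.mem_insert, Finset.mem_singleton] at h9
    rcases h9 with rfl | h9
    · exact absurd hy.1 (G.loopless.irrefl _)
    · exact h9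
  · rw [← (below_two r h4).1]
    congr 1
    ext t
    constructor
    · rintro ⟨k | k, -, ht⟩
      · have := card_lt k
        have := hc t ht
        omega
      · exact k
    · intro k
      have k' : t < r := k
      exact ⟨Or.inr k', hr, fun z hz => hr z (sub_of_lt k' hz)⟩

theorem above_cyc (hG : IsSph3 G) [Finite V] (s : Cq G) (h : s.1.card = 2) :
    IsCyc (sd G) {t | s < t} := by
  refine (iso0 s).isCyc.2 (sd_cyc (hG.edge s.1 s.2.2 h) ?_)
  intro x y z hxy hyz hxz
  have hcl : G.IsClique (({x, y, z} : Finset V) : Set V) := by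
    intro a ha b hb hab
    simp only [Finset.coe_insert, Finset.coe_singleton, Set.mem_insert_iff,
      Set.mem_singleton_iff] at ha hb
    rcases ha with rfl | rfl | rfl <;> rcases hb with rfl | rfl | rfl
    · exact absurd rfl hab
    · exact hxy.1
    · exact hxz.1
    · exact hxy.1.symm
    · exact absurd rfl hab
    · exact hyz.1
    · exact hxz.1.symm
    · exact hyz.1.symm
    · exact absurd rfl hab
  let r : Cq G := ⟨{x, y, z}, Finset.insert_nonempty _ _, hcl⟩
  have hr : r ∈ mi G (Lk G (s.1 : Set V)) := by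
    intro a ha
    have ha' : a ∈ ({x, y, z} : Finset V) := ha
    simp only [Finset.mem_insert, Finset.mem_singleton] at ha'
    rcases ha' with rfl | rfl | rfl
    · exact hxy.2.1
    · exact hxy.2.2
    · exact hyz.2.2
  obtain ⟨t, ht, e⟩ := (iso0 s).bij.surjOn hr
  have h1 := sdf_card ht
  have h2 : t.1.card ≤ 4 := hG.k5 t.1 t.2.2
  have h3 : (sdf s t).1.card = 3 := by
    rw [e]
    exact Finset.card_eq_three.2 ⟨x, y, z, hxy.1.ne, hxz.1.ne, hyz.1.ne, rfl⟩
  omega

/-! ## `sd` keeps `IsSph3` -/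

/-- a clique of `sd G` is a chain; it has a largest and a smallest element -/
theorem chain_top (c : Finset (Cq G)) (hc : (sd G).IsClique (c : Set (Cq G)))
    (hn : c.Nonempty) : ∃ t ∈ c, ∀ s ∈ c, s ≤ t := by
  obtain ⟨t, ht, hm⟩ := Finset.exists_max_image c (fun s => s.1.card) hn
  refine ⟨t, ht, fun s hs => ?_⟩
  by_cases e : s = t
  · exact e.le
  · rcases hc (Finset.mem_coe.2 hs) (Finset.mem_coe.2 ht) e with k | k
    · exact k.le
    · exact absurd (card_lt k) (not_lt.2 (hm s hs))

theorem chain_bot (c : Finset (Cq G)) (hc : (sd G).IsClique (c : Set (Cq G)))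
    (hn : c.Nonempty) : ∃ t ∈ c, ∀ s ∈ c, t ≤ s := by
  obtain ⟨t, ht, hm⟩ := Finset.exists_min_image c (fun s => s.1.card) hn
  refine ⟨t, ht, fun s hs => ?_⟩
  by_cases e : s = t
  · exact e.ge
  · rcases hc (Finset.mem_coe.2 hs) (Finset.mem_coe.2 ht) e with k | k
    · exact absurd (card_lt k) (not_lt.2 (hm s hs))
    · exact k.le

theorem sd_k5 (h : IsSph3 G) (c : Finset (Cq G)) (hc : (sd G).IsClique (c : Set (Cq G))) :
    c.card ≤ 4 := by
  have h1 : c.card ≤ (Finset.Icc 1 4).card := by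
    refine Finset.card_le_card_of_injOn (fun s => s.1.card) ?_ ?_
    · intro s _
      exact Finset.mem_coe.2 (Finset.mem_Icc.2 ⟨cpos s, h.k5 s.1 s.2.2⟩)
    · intro s hs t ht e
      by_contra hne
      have e' : s.1.card = t.1.card := e
      rcases hc hs ht hne with k | k
      · have := card_lt k
        omega
      · have := card_lt k
        omega
  simpa using h1

private theorem chain3 (c : Finset (Cq G)) (hc : (sd G).IsClique (c : Set (Cq G)))
    (h3 : c.card = 3) : ∃ a b d : Cq G, a < b ∧ b < d ∧ c = {a, b, d} := by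
  obtain ⟨x, y, z, hxy, hxz, hyz, rfl⟩ := Finset.card_eq_three.1 h3
  have h1 : x < y ∨ y < x := hc (by simp) (by simp) hxy
  have h2 : x < z ∨ z < x := hc (by simp) (by simp) hxz
  have h4 : y < z ∨ z < y := hc (by simp) (by simp) hyz
  rcases h1 with h1 | h1 <;> rcases h2 with h2 | h2 <;> rcases h4 with h4 | h4
  · exact ⟨x, y, z, h1, h4, rfl⟩
  · exact ⟨x, z, y, h2, h4, by ext u; simp only [Finset.mem_insert, Finset.mem_singleton]; tauto⟩
  · exact absurd (h4.trans h2) (lt_asymm h1)
  · exact ⟨z, x, y, h2, h1, by ext u; simp only [Finset.mem_insert, Finset.mem_singleton]; tauto⟩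
  · exact ⟨y, x, z, h1, h2, by ext u; simp only [Finset.mem_insert, Finset.mem_singleton]; tauto⟩
  · exact absurd (h4.trans h1) (lt_asymm h2)
  · exact ⟨y, z, x, h4, h2, by ext u; simp only [Finset.mem_insert, Finset.mem_singleton]; tauto⟩
  · exact ⟨z, y, x, h4, h1, by ext u; simp only [Finset.mem_insert, Finset.mem_singleton]; tauto⟩

private theorem chain2 (c : Finset (Cq G)) (hc : (sd G).IsClique (c : Set (Cq G)))
    (h3 : c.card = 2) : ∃ a b : Cq G, a < b ∧ c = {a, b} := by
  obtain ⟨x, y, hxy, rfl⟩ := Finset.card_eq_two.1 h3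
  have h1 : x < y ∨ y < x := hc (by simp) (by simp) hxy
  rcases h1 with h1 | h1
  · exact ⟨x, y, h1, rfl⟩
  · exact ⟨y, x, h1, Finset.pair_comm x y⟩

private theorem lk3 (a b d : Cq G) :
    Lk (sd G) ((({a, b, d} : Finset (Cq G))) : Set (Cq G)) =
      {t | (a < t ∨ t < a) ∧ (b < t ∨ t < b) ∧ (d < t ∨ t < d)} := by
  ext t
  constructor
  · intro h
    exact ⟨h a (by simp), h b (by simp), h d (by simp)⟩
  · rintro ⟨h1, h2, h3⟩ x hx
    rw [Finset.mem_coe, Finset.mem_insert, Finset.mem_insert, Finset.mem_singleton] at hx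
    rcases hx with rfl | rfl | rfl
    · exact h1
    · exact h2
    · exact h3

private theorem lk2 (a b : Cq G) :
    Lk (sd G) ((({a, b} : Finset (Cq G))) : Set (Cq G)) =
      {t | (a < t ∨ t < a) ∧ (b < t ∨ t < b)} := by
  ext t
  constructor
  · intro h
    exact ⟨h a (by simp), h b (by simp)⟩
  · rintro ⟨h1, h2⟩ x hx
    rw [Finset.mem_coe, Finset.mem_insert, Finset.mem_singleton] at hx
    rcases hx with rfl | rfl
    · exact h1
    · exact h2

theorem sd_tri [Finite V] (h : IsSph3 G) (c : Finset (Cq G))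
    (hc : (sd G).IsClique (c : Set (Cq G))) (h3 : c.card = 3) :
    (Lk (sd G) (c : Set (Cq G))).ncard = 2 := by
  obtain ⟨a, b, d, hab, hbd, rfl⟩ := chain3 c hc h3
  rw [lk3]
  have c1 := card_lt hab
  have c2 := card_lt hbd
  have c0 := cpos a
  have hk : ∀ t : Cq G, t.1.card ≤ 4 := fun t => h.k5 t.1 t.2.2
  have c4 := hk d
  rcases (by omega : (a.1.card = 1 ∧ b.1.card = 2 ∧ d.1.card = 3) ∨
      (a.1.card = 1 ∧ b.1.card = 2 ∧ d.1.card = 4) ∨
      (a.1.card = 1 ∧ b.1.card = 3 ∧ d.1.card = 4) ∨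
      (a.1.card = 2 ∧ b.1.card = 3 ∧ d.1.card = 4)) with ⟨e1, e2, e3⟩ | ⟨e1, e2, e3⟩ |
      ⟨e1, e2, e3⟩ | ⟨e1, e2, e3⟩
  · rw [← (above_two h d e3).1]
    congr 1
    ext t
    constructor
    · rintro ⟨h1, h2, h3⟩
      have ht := cpos t
      rcases h1 with h1 | h1 <;> rcases h2 with h2 | h2 <;> rcases h3 with h3 | h3 <;>
        have k1 := card_lt h1 <;> have k2 := card_lt h2 <;> have k3 := card_lt h3 <;>
        first
        | exact h3
        | (exfalso; omega)
    · intro k
      have k' : d < t := k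
      exact ⟨Or.inl (hab.trans (hbd.trans k')), Or.inl (hbd.trans k'), Or.inl k'⟩
  · rw [← (between_two b d hbd (by omega)).1]
    congr 1
    ext t
    constructor
    · rintro ⟨h1, h2, h3⟩
      have ht := cpos t
      have ht4 := hk t
      rcases h1 with h1 | h1 <;> rcases h2 with h2 | h2 <;> rcases h3 with h3 | h3 <;>
        have k1 := card_lt h1 <;> have k2 := card_lt h2 <;> have k3 := card_lt h3 <;>
        first
        | exact ⟨h2, h3⟩
        | (exfalso; omega)
    · rintro ⟨k, k'⟩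
      exact ⟨Or.inl (hab.trans k), Or.inl k, Or.inr k'⟩
  · rw [← (between_two a b hab (by omega)).1]
    congr 1
    ext t
    constructor
    · rintro ⟨h1, h2, h3⟩
      have ht := cpos t
      have ht4 := hk t
      rcases h1 with h1 | h1 <;> rcases h2 with h2 | h2 <;> rcases h3 with h3 | h3 <;>
        have k1 := card_lt h1 <;> have k2 := card_lt h2 <;> have k3 := card_lt h3 <;>
        first
        | exact ⟨h1, h2⟩
        | (exfalso; omega)
    · rintro ⟨k, k'⟩
      exact ⟨Or.inl k, Or.inr k', Or.inr (k'.trans hbd)⟩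
  · rw [← (below_two a e1).1]
    congr 1
    ext t
    constructor
    · rintro ⟨h1, h2, h3⟩
      have ht := cpos t
      have ht4 := hk t
      rcases h1 with h1 | h1 <;> rcases h2 with h2 | h2 <;> rcases h3 with h3 | h3 <;>
        have k1 := card_lt h1 <;> have k2 := card_lt h2 <;> have k3 := card_lt h3 <;>
        first
        | exact h1
        | (exfalso; omega)
    · intro k
      have k' : t < a := k
      exact ⟨Or.inr k', Or.inr (k'.trans hab), Or.inr (k'.trans (hab.trans hbd))⟩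

/-- link of an edge `s < t` of `sd G`: cases `(card s, card t)` = (1,2), (1,3), (1,4), (2,3), (2,4),
(3,4): cycle, 4-cycle, hexagon, 4-cycle, 4-cycle, hexagon. -/
theorem sd_edge [Finite V] (h : IsSph3 G) (c : Finset (Cq G))
    (hc : (sd G).IsClique (c : Set (Cq G))) (h2 : c.card = 2) :
    IsCyc (sd G) (Lk (sd G) (c : Set (Cq G))) := by
  obtain ⟨s, t, hst, rfl⟩ := chain2 c hc h2
  rw [lk2]
  have c1 := card_lt hst
  have c0 := cpos s
  have hk : ∀ t : Cq G, t.1.card ≤ 4 := fun t => h.k5 t.1 t.2.2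
  have c4 := hk t
  rcases (by omega : (s.1.card = 1 ∧ t.1.card = 2) ∨ (s.1.card = 1 ∧ t.1.card = 3) ∨
      (s.1.card = 1 ∧ t.1.card = 4) ∨ (s.1.card = 2 ∧ t.1.card = 3) ∨
      (s.1.card = 2 ∧ t.1.card = 4) ∨ (s.1.card = 3 ∧ t.1.card = 4)) with ⟨e1, e2⟩ | ⟨e1, e2⟩ |
      ⟨e1, e2⟩ | ⟨e1, e2⟩ | ⟨e1, e2⟩ | ⟨e1, e2⟩
  · have e : {r : Cq G | (s < r ∨ r < s) ∧ (t < r ∨ r < t)} = {r | t < r} := by
      ext r
      constructor
      · rintro ⟨h1, h2⟩
        have hr := cpos r
        rcases h1 with h1 | h1 <;> rcases h2 with h2 | h2 <;>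
          have k1 := card_lt h1 <;> have k2 := card_lt h2 <;>
          first
          | exact h2
          | (exfalso; omega)
      · intro k
        have k' : t < r := k
        exact ⟨Or.inl (hst.trans k'), Or.inl k'⟩
    rw [e]
    exact above_cyc h t e2
  · have e : {r : Cq G | (s < r ∨ r < s) ∧ (t < r ∨ r < t)} =
        {r | s < r ∧ r < t} ∪ {r | t < r} := by
      ext r
      constructor
      · rintro ⟨h1, h2⟩
        have hr := cpos r
        rcases h1 with h1 | h1 <;> rcases h2 with h2 | h2 <;>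
          have k1 := card_lt h1 <;> have k2 := card_lt h2 <;>
          first
          | exact Or.inr h2
          | exact Or.inl ⟨h1, h2⟩
          | (exfalso; omega)
      · rintro (⟨k, k'⟩ | k)
        · exact ⟨Or.inl k, Or.inr k'⟩
        · have k' : t < r := k
          exact ⟨Or.inl (hst.trans k'), Or.inl k'⟩
    rw [e]
    have h1 := between_two s t hst (by omega)
    have h2 := above_two h t e2
    exact join_cyc h1.1 h2.1 (fun x hx y hy => h1.2 x y hx.1 hx.2 hy.1 hy.2)
      (fun x hx y hy => h2.2 x y hx hy) (fun x hx y hy => Or.inl (lt_trans hx.2 hy))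
  · have e : {r : Cq G | (s < r ∨ r < s) ∧ (t < r ∨ r < t)} = {r | s < r ∧ r < t} := by
      ext r
      constructor
      · rintro ⟨h1, h2⟩
        have hr := cpos r
        have hr4 := hk r
        rcases h1 with h1 | h1 <;> rcases h2 with h2 | h2 <;>
          have k1 := card_lt h1 <;> have k2 := card_lt h2 <;>
          first
          | exact ⟨h1, h2⟩
          | (exfalso; omega)
      · rintro ⟨k, k'⟩
        exact ⟨Or.inl k, Or.inr k'⟩
    rw [e]
    exact between_cyc s t hst (by omega)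
  · have e : {r : Cq G | (s < r ∨ r < s) ∧ (t < r ∨ r < t)} =
        {r | r < s} ∪ {r | t < r} := by
      ext r
      constructor
      · rintro ⟨h1, h2⟩
        have hr := cpos r
        rcases h1 with h1 | h1 <;> rcases h2 with h2 | h2 <;>
          have k1 := card_lt h1 <;> have k2 := card_lt h2 <;>
          first
          | exact Or.inr h2
          | exact Or.inl h1
          | (exfalso; omega)
      · rintro (k | k)
        · have k' : r < s := k
          exact ⟨Or.inr k', Or.inr (k'.trans hst)⟩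
        · have k' : t < r := k
          exact ⟨Or.inl (hst.trans k'), Or.inl k'⟩
    rw [e]
    have h1 := below_two s e1
    have h2 := above_two h t e2
    exact join_cyc h1.1 h2.1 (fun x hx y hy => h1.2 x y hx hy)
      (fun x hx y hy => h2.2 x y hx hy)
      (fun x hx y hy => Or.inl (lt_trans hx (lt_trans hst hy)))
  · have e : {r : Cq G | (s < r ∨ r < s) ∧ (t < r ∨ r < t)} =
        {r | r < s} ∪ {r | s < r ∧ r < t} := by
      ext r
      constructor
      · rintro ⟨h1, h2⟩
        have hr := cpos r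
        have hr4 := hk r
        rcases h1 with h1 | h1 <;> rcases h2 with h2 | h2 <;>
          have k1 := card_lt h1 <;> have k2 := card_lt h2 <;>
          first
          | exact Or.inr ⟨h1, h2⟩
          | exact Or.inl h1
          | (exfalso; omega)
      · rintro (k | ⟨k, k'⟩)
        · have k' : r < s := k
          exact ⟨Or.inr k', Or.inr (k'.trans hst)⟩
        · exact ⟨Or.inl k, Or.inr k'⟩
    rw [e]
    have h1 := below_two s e1
    have h2 := between_two s t hst (by omega)
    exact join_cyc h1.1 h2.1 (fun x hx y hy => h1.2 x y hx hy)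
      (fun x hx y hy => h2.2 x y hx.1 hx.2 hy.1 hy.2)
      (fun x hx y hy => Or.inl (lt_trans hx hy.1))
  · have e : {r : Cq G | (s < r ∨ r < s) ∧ (t < r ∨ r < t)} = {r | r < s} := by
      ext r
      constructor
      · rintro ⟨h1, h2⟩
        have hr := cpos r
        have hr4 := hk r
        rcases h1 with h1 | h1 <;> rcases h2 with h2 | h2 <;>
          have k1 := card_lt h1 <;> have k2 := card_lt h2 <;>
          first
          | exact h1
          | (exfalso; omega)
      · intro k
        have k' : r < s := k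
        exact ⟨Or.inr k', Or.inr (k'.trans hst)⟩
    rw [e]
    exact below_cyc s e1

/-- link of a vertex `s` of `sd G` = join of `{t < s}` and `{t > s}`: `card s` = 1: `above`;
2: two points and a cycle; 3: hexagon and two points; 4: boundary of a tetrahedron. -/
theorem sd_vert [Finite V] (h : IsSph3 G) (s : Cq G) :
    Conn (sd G) (Lk (sd G) {s}) ∧ HZ (sd G) (Lk (sd G) {s}) := by
  have e : Lk (sd G) {s} = {r | r < s} ∪ {r | s < r} := by
    ext r
    constructor
    · intro k
      rcases k s (Set.mem_singleton s) with k | k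
      · exact Or.inr k
      · exact Or.inl k
    · rintro (k | k) x hx
      · rw [Set.mem_singleton_iff.1 hx]
        exact Or.inr k
      · rw [Set.mem_singleton_iff.1 hx]
        exact Or.inl k
  rw [e]
  have hk : ∀ t : Cq G, t.1.card ≤ 4 := fun t => h.k5 t.1 t.2.2
  have c0 := cpos s
  have c4 := hk s
  have hj : ∀ x ∈ {r : Cq G | r < s}, ∀ y ∈ {r : Cq G | s < r}, (sd G).Adj x y :=
    fun x hx y hy => Or.inl (lt_trans hx hy)
  rcases (by omega : s.1.card = 1 ∨ s.1.card = 2 ∨ s.1.card = 3 ∨ s.1.card = 4) with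
    h1 | h1 | h1 | h1
  · have e1 : {r : Cq G | r < s} = ∅ := by
      refine Set.eq_empty_of_forall_notMem fun r hr => ?_
      have := card_lt hr
      have := cpos r
      omega
    rw [e1, Set.empty_union, above_Conn, above_HZ]
    obtain ⟨x, hx⟩ := Finset.card_eq_one.1 h1
    rw [hx, Finset.coe_singleton]
    exact h.vert x
  · have h2 := above_cyc h s h1
    have h3 := below_nonempty s (by omega)
    refine ⟨join_Conn hj h3 h2.1.1, ?_⟩
    rw [Set.union_comm]
    exact join_HZ (fun x hx y hy => (hj y hy x hx).symm) h2.1 h3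
  · have h2 := below_cyc s h1
    have h3 : {r : Cq G | s < r}.Nonempty := by
      refine Set.nonempty_of_ncard_ne_zero ?_
      rw [(above_two h s h1).1]
      norm_num
    exact ⟨join_Conn hj h2.1.1 h3, join_HZ hj h2.1 h3⟩
  · have e1 : {r : Cq G | s < r} = ∅ := by
      refine Set.eq_empty_of_forall_notMem fun r hr => ?_
      have := card_lt hr
      have := hk r
      omega
    rw [e1, Set.union_empty]
    exact ⟨below_Conn s (by omega), below_HZ s (by omega)⟩

theorem sd_sph3 [Finite V] (h : IsSph3 G) : IsSph3 (sd G) := by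
  have e : (Set.univ : Set (Cq G)) = mi G Set.univ := by
    ext s
    exact ⟨fun _ _ _ => trivial, fun _ => trivial⟩
  refine ⟨sd_k5 h, sd_tri h, sd_edge h, sd_vert h, ?_, ?_⟩
  · rw [e, sd_Conn]
    exact h.conn
  · rw [e, sd_HZ]
    exact h.hz

theorem tw_sph3 (K : Lv) (h : IsSph3 K.G) (n : ℕ) : IsSph3 (tw K n).G := by
  induction n with
  | zero => exact h
  | succ n ih => exact sd_sph3 ih

/-! ## the 16-cell -/

private def H16 : SimpleGraph (Fin 4 × Bool) :=
  { Adj := fun x y => x.1 ≠ y.1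
    symm := ⟨fun _ _ h => Ne.symm h⟩
    loopless := ⟨fun _ h => h rfl⟩ }

private def Fb (I : Finset (Fin 4)) : Set (Fin 4 × Bool) := {v | v.1 ∈ I}

private theorem fb_lk (s : Finset (Fin 4 × Bool)) :
    Lk H16 (s : Set (Fin 4 × Bool)) = Fb (s.image Prod.fst)ᶜ := by
  ext v
  constructor
  · intro h
    refine Finset.mem_compl.2 fun k => ?_
    obtain ⟨x, hx, e⟩ := Finset.mem_image.1 k
    exact h x (Finset.mem_coe.2 hx) e
  · intro h x hx e
    exact Finset.mem_compl.1 h (Finset.mem_image.2 ⟨x, Finset.mem_coe.1 hx, e⟩)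

private theorem fb_card {s : Finset (Fin 4 × Bool)} (h : H16.IsClique (s : Set (Fin 4 × Bool))) :
    (s.image Prod.fst).card = s.card := by
  refine Finset.card_image_of_injOn ?_
  intro x hx y hy e
  by_contra hne
  exact h hx hy hne e

private theorem fb_one (i : Fin 4) : (Fb {i}).ncard = 2 := by
  have e : Fb {i} = {(i, false), (i, true)} := by
    ext v
    constructor
    · intro h
      have h1 : v.1 = i := Finset.mem_singleton.1 h
      rcases hb : v.2 with _ | _
      · exact Or.inl (Prod.ext h1 hb)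
      · exact Or.inr (Prod.ext h1 hb)
    · rintro (rfl | rfl)
      · exact Finset.mem_singleton_self i
      · exact Finset.mem_singleton_self i
  rw [e]
  refine Set.ncard_pair fun k => ?_
  have := congrArg Prod.snd k
  exact Bool.noConfusion this

private theorem fb_ne {I : Finset (Fin 4)} (h : 1 ≤ I.card) : (Fb I).Nonempty := by
  obtain ⟨i, hi⟩ := Finset.card_pos.1 h
  exact ⟨(i, true), hi⟩

private theorem fb_split {I : Finset (Fin 4)} {i : Fin 4} (hi : i ∈ I) :
    Fb I = Fb (I.erase i) ∪ Fb {i} := by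
  ext v
  constructor
  · intro h
    by_cases e : v.1 = i
    · exact Or.inr (Finset.mem_singleton.2 e)
    · exact Or.inl (Finset.mem_erase.2 ⟨e, h⟩)
  · rintro (h | h)
    · exact Finset.mem_of_mem_erase h
    · have e : v.1 = i := Finset.mem_singleton.1 h
      have h2 : v.1 ∈ I := by rw [e]; exact hi
      exact h2

private theorem fb_adj {I : Finset (Fin 4)} {i : Fin 4} :
    ∀ x ∈ Fb (I.erase i), ∀ y ∈ Fb {i}, H16.Adj x y := by
  intro x hx y hy e
  have h1 : y.1 = i := Finset.mem_singleton.1 hy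
  rw [← h1, ← e] at hx
  exact Finset.notMem_erase _ _ hx

private theorem fb_conn {I : Finset (Fin 4)} (h : 2 ≤ I.card) : Conn H16 (Fb I) := by
  obtain ⟨i, hi⟩ := Finset.card_pos.1 (by omega : 0 < I.card)
  have hc := Finset.card_erase_add_one hi
  rw [fb_split hi]
  exact join_Conn fb_adj (fb_ne (by omega)) (fb_ne (by simp))

private theorem fb_hz {I : Finset (Fin 4)} (h : 3 ≤ I.card) : HZ H16 (Fb I) := by
  obtain ⟨i, hi⟩ := Finset.card_pos.1 (by omega : 0 < I.card)
  have hc := Finset.card_erase_add_one hi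
  rw [fb_split hi]
  exact join_HZ fb_adj (fb_conn (by omega)) (fb_ne (by simp))

private theorem fb_self (i : Fin 4) : ∀ x ∈ Fb {i}, ∀ y ∈ Fb {i}, ¬ H16.Adj x y := by
  intro x hx y hy h
  have h1 : x.1 = i := Finset.mem_singleton.1 hx
  have h2 : y.1 = i := Finset.mem_singleton.1 hy
  exact h (h1.trans h2.symm)

private theorem fb_cyc {I : Finset (Fin 4)} (h : I.card = 2) : IsCyc H16 (Fb I) := by
  obtain ⟨i, j, hij, rfl⟩ := Finset.card_eq_two.1 h
  have h1 : ({i, j} : Finset (Fin 4)).erase i = {j} := by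
    rw [Finset.erase_insert]
    exact fun k => hij (Finset.mem_singleton.1 k)
  have h2 := fb_split (Finset.mem_insert_self i {j})
  rw [h1] at h2
  have h3 := fb_adj (I := {i, j}) (i := i)
  rw [h1] at h3
  rw [h2]
  exact join_cyc (fb_one j) (fb_one i) (fb_self j) (fb_self i) h3

private theorem fb_compl (I : Finset (Fin 4)) : Iᶜ.card = 4 - I.card := by
  rw [Finset.card_compl, Fintype.card_fin]

private theorem fb_univ : (Set.univ : Set (Fin 4 × Bool)) = Fb Finset.univ := by
  ext v
  exact ⟨fun _ => (Finset.mem_univ v.1 : v.1 ∈ (Finset.univ : Finset (Fin 4))), fun _ => trivial⟩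

private theorem h16 : IsSph3 H16 where
  k5 := by
    intro s hs
    rw [← fb_card hs]
    exact (Finset.card_le_univ _).trans (by rw [Fintype.card_fin])
  tri := by
    intro s hs h3
    have h1 := fb_card hs
    have h2 := fb_compl (s.image Prod.fst)
    obtain ⟨i, hi⟩ := Finset.card_eq_one.1 (by omega : ((s.image Prod.fst)ᶜ).card = 1)
    rw [fb_lk, hi]
    exact fb_one i
  edge := by
    intro s hs h3
    have h1 := fb_card hs
    have h2 := fb_compl (s.image Prod.fst)
    rw [fb_lk]
    exact fb_cyc (by omega)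
  vert := by
    intro x
    have h1 := fb_lk {x}
    rw [Finset.coe_singleton, Finset.image_singleton] at h1
    have h2 := fb_compl {x.1}
    rw [Finset.card_singleton] at h2
    rw [h1]
    exact ⟨fb_conn (by omega), fb_hz (by omega)⟩
  conn := by
    rw [fb_univ]
    exact fb_conn (by rw [Finset.card_univ, Fintype.card_fin]; norm_num)
  hz := by
    rw [fb_univ]
    exact fb_hz (by rw [Finset.card_univ, Fintype.card_fin]; norm_num)

theorem cell16_sph3 (R : ℝ) : IsSph3 (cell16 R).G := h16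

end MOT
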