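import Pool.Agent.MOT.SfC
import Pool.Agent.MOT.Sph

/-!
# MOT/CyE: cocycles on a cycle (helper10)

`cyc_sum`: two cocycles of a cycle which are no coboundaries have a sum which is a coboundary.
`cyc_ed1`: the indicator of one edge of a circle is no coboundary.
-/

open Classical

noncomputable section

namespace MOT

/-! ## cycles -/

private theorem two_h10 {V : Type} {G : SimpleGraph V} {C : Set V} (h : IsCyc G C) {x y z u : V}
    (hy : EIn G C x y) (hz : EIn G C x z) (hyz : y ≠ z) (hu : EIn G C x u) : u = y ∨ u = z := by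
  have h2 := h.2 x hy.2.1
  have h3 : ({y, z} : Set V) ⊆ {u | EIn G C x u} := by
    intro u hu
    rcases hu with rfl | hu
    · exact hy
    · rw [Set.mem_singleton_iff.1 hu]; exact hz
  have hf : {u | EIn G C x u}.Finite := Set.finite_of_ncard_ne_zero (by rw [h2]; decide)
  have h4 := Set.eq_of_subset_of_ncard_le h3 (by rw [h2, Set.ncard_pair hyz]) hf
  have h5 : u ∈ ({y, z} : Set V) := by rw [h4]; exact hu
  simpa using h5

/-- a triangle which is a cycle: every cocycle is a coboundary -/
private theorem tri_h10 {V : Type} {G : SimpleGraph V} {C : Set V} (h : IsCyc G C) {x y z : V}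
    (hxy : EIn G C x y) (hyz : EIn G C y z) (hxz : EIn G C x z) {a : V → V → ZMod 2}
    (ha : a ∈ Z1 G C) : Triv G C a := by
  have hall : ∀ u ∈ C, u = x ∨ u = y ∨ u = z := by
    intro u hu
    have h1 := h.1.2 x hxy.2.1 u hu
    clear hu
    induction h1 with
    | refl => exact Or.inl rfl
    | tail h2 h3 ih =>
      rename_i b c
      rcases ih with rfl | rfl | rfl
      · rcases two_h10 h hxy hxz hyz.1.ne h3 with e | e
        · exact Or.inr (Or.inl e)
        · exact Or.inr (Or.inr e)
      · rcases two_h10 h hxy.symm hyz hxz.1.ne h3 with e | e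
        · exact Or.inl e
        · exact Or.inr (Or.inr e)
      · rcases two_h10 h hxz.symm hyz.symm hxy.1.ne h3 with e | e
        · exact Or.inl e
        · exact Or.inr (Or.inl e)
  obtain ⟨-, hs, hc⟩ := mem_Z1.1 ha
  have hcc := hc x y z hxy hyz hxz
  refine ⟨fun u => if u = x then 0 else a x u, fun u v e => ?_⟩
  show a u v = (if u = x then 0 else a x u) + (if v = x then 0 else a x v)
  have hne := e.1.ne
  have nxy := hxy.1.ne
  have nxz := hxz.1.ne
  have nyz := hyz.1.ne
  rcases hall u e.2.1 with rfl | rfl | rfl <;> rcases hall v e.2.2 with rfl | rfl | rfl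
  · exact absurd rfl hne
  · rw [if_pos rfl, if_neg nxy.symm, zero_add]
  · rw [if_pos rfl, if_neg nxz.symm, zero_add]
  · rw [if_pos rfl, if_neg nxy.symm, add_zero, hs]
  · exact absurd rfl hne
  · rw [if_neg nxy.symm, if_neg nxz.symm, ← hcc, ← add_assoc, two_add, zero_add]
  · rw [if_pos rfl, if_neg nxz.symm, add_zero, hs]
  · rw [if_neg nxy.symm, if_neg nxz.symm, ← hcc, hs v u, add_assoc, add_comm (a u v) (a x v),
      ← add_assoc, two_add, zero_add]
  · exact absurd rfl hne

theorem cyc_sum {V : Type} [Finite V] {G : SimpleGraph V} {C : Set V} (h : IsCyc G C)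
    {a b : V → V → ZMod 2} (ha : a ∈ Z1 G C) (hb : b ∈ Z1 G C) (ha' : ¬ Triv G C a)
    (hb' : ¬ Triv G C b) : Triv G C (a + b) := by
  by_cases ht : ∃ x y z, EIn G C x y ∧ EIn G C y z ∧ EIn G C x z
  · obtain ⟨x, y, z, h1, h2, h3⟩ := ht
    exact absurd (tri_h10 h h1 h2 h3 ha) ha'
  · push Not at ht
    have hT : TwoReg G C := ⟨h.2, fun x y z h1 h2 h3 => ht x y z h1 h2 h3⟩
    have h1 : b1 G C = 1 := by
      rw [hT.b1_eq, b0_eq_one]
      exact h.1
    exact b1_one_add h1 ha hb ha' hb'

/-- the indicator of one edge of a circle is not a coboundary -/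
theorem cyc_ed1 {V : Type} [Finite V] {G : SimpleGraph V} {C : Set V} (h : TwoReg G C)
    {x y : V} (hxy : EIn G C x y) :
    ¬ Triv G C (fun a b => if (a = x ∧ b = y) ∨ (b = x ∧ a = y) then 1 else 0) := by
  intro ht
  set w : V → V → ZMod 2 := fun a b => if (a = x ∧ b = y) ∨ (b = x ∧ a = y) then 1 else 0
    with hw
  have hs : ∀ a b, w a b = w b a := fun a b => if_congr or_comm rfl rfl
  have h0 := cev_triv h hs ht
  have h1 : cev G C w = w x y := by
    unfold cev
    rw [Finset.sum_eq_single {x, y}]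
    · exact pv_pair hs hxy.1.ne
    · intro e he hne
      obtain ⟨a, b, hab, rfl⟩ := mem_eds'.1 he
      rw [pv_pair hs hab.1.ne]
      refine if_neg ?_
      rintro (⟨rfl, rfl⟩ | ⟨rfl, rfl⟩)
      · exact hne rfl
      · exact hne (Finset.pair_comm _ _)
    · intro hn
      exact absurd (mem_eds'.2 ⟨x, y, hxy, rfl⟩) hn
  rw [h1] at h0
  have h2 : w x y = 1 := if_pos (Or.inl ⟨rfl, rfl⟩)
  rw [h2] at h0
  exact one_ne_zero h0

end MOT
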