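import Mathlib

/-!
# MOT: definitions for the finite part (flag complexes, cohomology with coefficients F_2, subdivision)

A complex is a graph `G : SimpleGraph V` on a finite type `V`; its simplices are the nonempty cliques
(flag complex).  `A : Set V` always stands for the FULL subcomplex on `A`.
-/

open Classical

noncomputable section

namespace MOT

variable {V : Type}

/-! ## Cohomology of full subcomplexes -/

/-- edges of the full subcomplex on `A` -/
def EIn (G : SimpleGraph V) (A : Set V) (x y : V) : Prop := G.Adj x y ∧ x ∈ A ∧ y ∈ A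

/-- locally constant functions on `A` (zero outside `A`) -/
def Z0 (G : SimpleGraph V) (A : Set V) : Submodule (ZMod 2) (V → ZMod 2) where
  carrier := {f | (∀ x, x ∉ A → f x = 0) ∧ ∀ x y, EIn G A x y → f x = f y}
  add_mem' := by
    rintro f g ⟨hf, hf'⟩ ⟨hg, hg'⟩
    exact ⟨fun x hx => by simp [hf x hx, hg x hx], fun x y h => by simp [hf' x y h, hg' x y h]⟩
  zero_mem' := ⟨fun _ _ => rfl, fun _ _ _ => rfl⟩
  smul_mem' := by
    rintro c f ⟨hf, hf'⟩
    exact ⟨fun x hx => by simp [hf x hx], fun x y h => by simp [hf' x y h]⟩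

/-- 1-cocycles of the full subcomplex on `A` (zero outside the edges in `A`) -/
def Z1 (G : SimpleGraph V) (A : Set V) : Submodule (ZMod 2) (V → V → ZMod 2) where
  carrier := {a | (∀ x y, ¬ EIn G A x y → a x y = 0) ∧ (∀ x y, a x y = a y x) ∧
    ∀ x y z, EIn G A x y → EIn G A y z → EIn G A x z → a x y + a y z = a x z}
  add_mem' := by
    rintro a b ⟨ha, ha', ha''⟩ ⟨hb, hb', hb''⟩
    refine ⟨fun x y h => by simp [ha x y h, hb x y h], fun x y => by
      simp only [Pi.add_apply, ha' x y, hb' x y], fun x y z h1 h2 h3 => ?_⟩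
    have e1 := ha'' x y z h1 h2 h3
    have e2 := hb'' x y z h1 h2 h3
    simp only [Pi.add_apply]
    rw [← e1, ← e2]; abel
  zero_mem' := ⟨fun _ _ _ => rfl, fun _ _ => rfl, fun _ _ _ _ _ _ => by simp⟩
  smul_mem' := by
    rintro c a ⟨ha, ha', ha''⟩
    refine ⟨fun x y h => by simp [ha x y h], fun x y => by
      simp only [Pi.smul_apply, ha' x y], fun x y z h1 h2 h3 => ?_⟩
    have e1 := ha'' x y z h1 h2 h3
    simp only [Pi.smul_apply]
    rw [← e1, smul_add]

/-- `a` is a coboundary on the edges in `A` -/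
def Triv (G : SimpleGraph V) (A : Set V) (a : V → V → ZMod 2) : Prop :=
  ∃ f : V → ZMod 2, ∀ x y, EIn G A x y → a x y = f x + f y

/-- cocycles of `A` whose restriction to `B` is a coboundary (used for `B ⊆ A`) -/
def K1 (G : SimpleGraph V) (A B : Set V) : Submodule (ZMod 2) (V → V → ZMod 2) where
  carrier := {a | a ∈ Z1 G A ∧ Triv G B a}
  add_mem' := by
    rintro a b ⟨ha, f, hf⟩ ⟨hb, g, hg⟩
    refine ⟨(Z1 G A).add_mem ha hb, f + g, fun x y h => ?_⟩
    simp only [Pi.add_apply, hf x y h, hg x y h]; abel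
  zero_mem' := ⟨(Z1 G A).zero_mem, 0, fun _ _ _ => by simp⟩
  smul_mem' := by
    rintro c a ⟨ha, f, hf⟩
    refine ⟨(Z1 G A).smul_mem c ha, c • f, fun x y h => ?_⟩
    simp only [Pi.smul_apply, hf x y h, smul_add]

/-- rank of the restriction `H^1(A) → H^1(B)` (used for `B ⊆ A`) -/
def rk1 (G : SimpleGraph V) (A B : Set V) : ℕ :=
  Module.finrank (ZMod 2) ((Z1 G A) ⧸ (K1 G A B).comap (Z1 G A).subtype)

/-- first Betti number `dim H^1(A; F_2)` of the full subcomplex on `A` -/
def b1 (G : SimpleGraph V) (A : Set V) : ℕ := rk1 G A A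

/-- number of components of `A` -/
def b0 (G : SimpleGraph V) (A : Set V) : ℕ := Module.finrank (ZMod 2) (Z0 G A)

/-- `H^1(A) = 0` -/
def HZ (G : SimpleGraph V) (A : Set V) : Prop := ∀ a ∈ Z1 G A, Triv G A a

/-- `A` is nonempty and connected -/
def Conn (G : SimpleGraph V) (A : Set V) : Prop :=
  A.Nonempty ∧ ∀ x ∈ A, ∀ y ∈ A, Relation.ReflTransGen (EIn G A) x y

/-- restriction `H^1(A) → H^1(B)` is injective (used for `B ⊆ A`) -/
def Inj (G : SimpleGraph V) (A B : Set V) : Prop := ∀ a ∈ Z1 G A, Triv G B a → Triv G A a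

/-- restriction `H^1(A) → H^1(B)` is surjective (used for `B ⊆ A`) -/
def Surj (G : SimpleGraph V) (A B : Set V) : Prop :=
  ∀ b ∈ Z1 G B, ∃ a ∈ Z1 G A, Triv G B (a + b)

/-- component of `x` in `A` -/
def comp (G : SimpleGraph V) (A : Set V) (x : V) : Set V :=
  {y | Relation.ReflTransGen (EIn G A) x y ∧ y ∈ A}

/-- `C` is a component of `A` -/
def IsComp (G : SimpleGraph V) (A C : Set V) : Prop := ∃ x ∈ A, C = comp G A x

/-- no edge between `A` and `B` -/
def NAdj (G : SimpleGraph V) (A B : Set V) : Prop := ∀ x ∈ A, ∀ y ∈ B, ¬ G.Adj x y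

/-- number of simplices of `A` with `k` vertices -/
def fn (G : SimpleGraph V) (A : Set V) (k : ℕ) : ℕ :=
  {s : Finset V | s.card = k ∧ G.IsClique (s : Set V) ∧ (s : Set V) ⊆ A}.ncard

/-- Euler characteristic of `A` (complexes of dimension at most 3) -/
def chi (G : SimpleGraph V) (A : Set V) : ℤ :=
  (fn G A 1 : ℤ) - fn G A 2 + fn G A 3 - fn G A 4

/-! ## Links, surfaces, 3-spheres -/

/-- common neighbours of the vertices in `s` -/
def Lk (G : SimpleGraph V) (s : Set V) : Set V := {v | ∀ x ∈ s, G.Adj x v}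

/-- the full subcomplex on `C` is a cycle -/
def IsCyc (G : SimpleGraph V) (C : Set V) : Prop :=
  Conn G C ∧ ∀ x ∈ C, {y | EIn G C x y}.ncard = 2

/-- the full subcomplex on `S` is a closed surface: vertex links are cycles, no 4-clique -/
structure Surf (G : SimpleGraph V) (S : Set V) : Prop where
  lk : ∀ x ∈ S, IsCyc G (Lk G {x} ∩ S)
  k4 : ∀ s : Finset V, G.IsClique (s : Set V) → (s : Set V) ⊆ S → s.card ≤ 3

/-- flag triangulation of a 3-manifold with `H^1 = 0` (a homology 3-sphere mod 2) -/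
structure IsSph3 (G : SimpleGraph V) : Prop where
  k5 : ∀ s : Finset V, G.IsClique (s : Set V) → s.card ≤ 4
  tri : ∀ s : Finset V, G.IsClique (s : Set V) → s.card = 3 → (Lk G (s : Set V)).ncard = 2
  edge : ∀ s : Finset V, G.IsClique (s : Set V) → s.card = 2 → IsCyc G (Lk G (s : Set V))
  vert : ∀ x, Conn G (Lk G {x}) ∧ HZ G (Lk G {x})
  conn : Conn G Set.univ
  hz : HZ G Set.univ

/-! ## Posets and barycentric subdivision -/

/-- comparability graph of a poset (its order complex) -/
def cmp (P : Type) [PartialOrder P] : SimpleGraph P where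
  Adj x y := x < y ∨ y < x
  symm := ⟨fun _ _ h => h.symm⟩
  loopless := ⟨fun x h => by rcases h with h | h <;> exact lt_irrefl x h⟩

/-- simplices of `G`, ordered by inclusion -/
def Cq (G : SimpleGraph V) : Type := {s : Finset V // s.Nonempty ∧ G.IsClique (s : Set V)}

instance (G : SimpleGraph V) : PartialOrder (Cq G) :=
  inferInstanceAs (PartialOrder {s : Finset V // s.Nonempty ∧ G.IsClique (s : Set V)})

instance (G : SimpleGraph V) [Finite V] : Finite (Cq G) :=
  inferInstanceAs (Finite {s : Finset V // s.Nonempty ∧ G.IsClique (s : Set V)})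

/-- barycentric subdivision -/
def sd (G : SimpleGraph V) : SimpleGraph (Cq G) := cmp (Cq G)

/-- simplices meeting `M` -/
def pl (G : SimpleGraph V) (M : Set V) : Set (Cq G) := {s | ∃ x ∈ s.1, x ∈ M}

/-- simplices inside `M` -/
def mi (G : SimpleGraph V) (M : Set V) : Set (Cq G) := {s | ∀ x ∈ s.1, x ∈ M}

/-- frontier of `M`: the mixed simplices -/
def Fr (G : SimpleGraph V) (M : Set V) : Set (Cq G) := pl G M ∩ pl G Mᶜ

/-- mixed simplices of the full subcomplex on `S` (frontier of `A` in `S`) -/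
def FrIn (G : SimpleGraph V) (S A : Set V) : Set (Cq G) := mi G S ∩ pl G A ∩ pl G Aᶜ

/-- `b(M) = b_1(M) + b_1(Mᶜ)` -/
def bb (G : SimpleGraph V) (M : Set V) : ℕ := b1 G M + b1 G Mᶜ

/-! ## Walls and the flip -/

/-- `Q` is a two-sided closed surface with sides `P` and `N` -/
structure Wall (G : SimpleGraph V) (Q P N : Set V) : Prop where
  cover : Q ∪ P ∪ N = Set.univ
  dqp : Disjoint Q P
  dqn : Disjoint Q N
  dpn : Disjoint P N
  nadj : NAdj G P N
  surf : Surf G Q
  hp : ∀ s : Finset V, s.Nonempty → G.IsClique (s : Set V) → (s : Set V) ⊆ Q →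
    Conn G (Lk G (s : Set V) ∩ P) ∧ HZ G (Lk G (s : Set V) ∩ P)
  hn : ∀ s : Finset V, s.Nonempty → G.IsClique (s : Set V) → (s : Set V) ⊆ Q →
    Conn G (Lk G (s : Set V) ∩ N) ∧ HZ G (Lk G (s : Set V) ∩ N)

/-- the thick sheet over `D` in the wall `Q` -/
def sheet (G : SimpleGraph V) (Q D : Set V) : Set (Cq G) := mi G Q ∩ pl G D

/-- flip of a component `D` of `M ∩ Q`: `M` is cut along `D` -/
def cut (G : SimpleGraph V) (Q M D : Set V) : Set (Cq G) := pl G M \ sheet G Q D

/-- flip of a component `D` of `Mᶜ ∩ Q`: the complement is cut along `D` -/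
def fill (G : SimpleGraph V) (Q M D : Set V) : Set (Cq G) := mi G M ∪ sheet G Q D

/-! ## The tower of subdivisions -/

/-- a finite complex, bundled, with positions in `R^3` and a set of near vertices -/
structure Lv where
  V : Type
  fin : Finite V
  G : SimpleGraph V
  pos : V → Fin 3 → ℝ
  near : Set V

instance (K : Lv) : Finite K.V := K.fin

/-- barycentric subdivision with barycentres as positions; near = all vertices near -/
def Lv.sd (K : Lv) : Lv where
  V := Cq K.G
  fin := inferInstance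
  G := MOT.sd K.G
  pos s := (s.1.card : ℝ)⁻¹ • ∑ x ∈ s.1, K.pos x
  near := mi K.G K.near

/-- the `n`-th subdivision -/
def tw (K : Lv) : ℕ → Lv
  | 0 => K
  | n + 1 => (tw K n).sd

/-- `A` (level `n`) seen on level `n + k`: the vertices whose carrier lies in `A` -/
def miN (K : Lv) (n : ℕ) (A : Set (tw K n).V) : (k : ℕ) → Set (tw K (n + k)).V
  | 0 => A
  | k + 1 => mi (tw K (n + k)).G (miN K n A k)

/-- the thick version of `A` on level `n + k`: the vertices whose carrier meets `A` -/
def plN (K : Lv) (n : ℕ) (A : Set (tw K n).V) : (k : ℕ) → Set (tw K (n + k)).V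
  | 0 => A
  | k + 1 => pl (tw K (n + k)).G (plN K n A k)

/-- vertices of the carrier (in level `n`) of a vertex of level `n + k` -/
def car (K : Lv) (n : ℕ) : (k : ℕ) → (tw K (n + k)).V → Set (tw K n).V
  | 0, v => {v}
  | k + 1, s => {u | ∃ x ∈ s.1, u ∈ car K n k x}

/-- the 16-cell: vertices `(i, b)`, `i < 4`; `(0, false)` is the origin, `(0, true)` is infinity,
`(i, b)` is `± R e_i`; two vertices are adjacent iff their first components differ -/
def cell16 (R : ℝ) : Lv where
  V := Fin 4 × Bool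
  fin := inferInstance
  G := { Adj := fun x y => x.1 ≠ y.1
         symm := ⟨fun _ _ h => Ne.symm h⟩
         loopless := ⟨fun _ h => h rfl⟩ }
  pos x := fun j => if x.1 = j.succ then (if x.2 then R else -R) else 0
  near := {x | x ≠ (0, true)}

end MOT
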