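import Pool.Agent.MOT.DmDef
import Pool.Agent.MOT.Dua
import Pool.Agent.MOT.DuaB

/-!
# MOT/DmB: the solid torus `V1 e` on level `m0+2` (helper82)

`e` an edge of `Gc` (`e.1.card = 2`), `G2 = sd (sd Gc)`, vertices = chains `c` of simplices.
`V1 e = {c | e ∈ c, c has an element of card ≥ 3}`.  The map `c ↦ {s ∈ c | e ≤ s}` is a monotone retraction
`≤ id` onto `{c ∈ V1 e | ∀ s ∈ c, e ≤ s}`, this set is isomorphic (`c ↦ c \ {e}`) to the nonempty chains of
`{s | e < s}`, i.e. to `mi (sd Gc) {s | e < s}`, a subdivision of the cycle `Lk e` (`above_iso`, `h.edge`):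
connected with `b1 = 1`.
Complement: `V1ᶜ = {c | e ∉ c} ∪ {{e}} ∪ {{v, e} | v < e}`.  `{c | e ∉ c} = mi (sd Gc) {e}ᶜ` is connected with `HZ`
(complement of a vertex in `sd Gc`, `sd_sph3`: the link of `e` is connected with `HZ`; see `sph_compl_vertex`
below), `{v, e}` is adjacent in `V1ᶜ` only to `{v}` and `{e}`: an arc joining two points of a connected set with `HZ`:
connected, `b1 ≤ 1`.  `b1 (V1 e) ≤ 1` follows by duality (`dual` of DuaB).
-/

open Classical

noncomputable section

namespace MOT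

variable {Vc : Type} {Gc : SimpleGraph Vc}

/-- complement of a vertex in a 3-sphere -/
theorem sph_compl_vertex {V : Type} [Finite V] {G : SimpleGraph V} (h : IsSph3 G) (x : V) :
    Conn G {x}ᶜ ∧ HZ G {x}ᶜ := by
  have hx : x ∉ ({x}ᶜ : Set V) := fun hh => hh rfl
  have hi : insert x ({x}ᶜ : Set V) = Set.univ := by
    ext y
    by_cases hy : y = x
    · simp [hy]
    · simp [hy]
  have hl : Lk G {x} ∩ {x}ᶜ = Lk G {x} := by
    refine Set.inter_eq_left.2 (fun y hy hyx => ?_)
    have h1 := hy x rfl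
    rw [Set.mem_singleton_iff.1 hyx] at h1
    exact h1.ne rfl
  have hC := add_vertex_Conn hx (by rw [hl]; exact (h.vert x).1)
  have hS := add_vertex_Surj hx (by rw [hl]; exact (h.vert x).2)
  rw [hi] at hC hS
  refine ⟨hC.1 h.conn, fun b hb => ?_⟩
  obtain ⟨a, ha, t⟩ := hS b hb
  have t2 : Triv G {x}ᶜ a := (h.hz a ha).mono (Set.subset_univ _)
  refine (t.add t2).congr (fun u v _ => ?_)
  simp only [Pi.add_apply]
  rw [add_comm (a u v) (b u v), add_assoc, two_add, add_zero]

private theorem ins_hz {V : Type} {G : SimpleGraph V} {A : Set V} {x y1 : V} (hz : HZ G A)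
    (hn : ∀ y ∈ A, G.Adj x y → y = y1) : HZ G (insert x A) := by
  intro a ha
  obtain ⟨h0, hs, hc⟩ := mem_Z1.1 ha
  obtain ⟨f, hf⟩ := Triv_rs.1 (hz _ (rs_mem (Set.subset_insert x A) ha))
  refine ⟨fun z => if z = x then a x y1 + f y1 else f z, fun u v e => ?_⟩
  by_cases hu : u = x
  · have hv : v ≠ x := fun hv => e.1.ne (hu.trans hv.symm)
    subst hu
    have hy := hn v (e.2.2.resolve_left hv) e.1
    simp only [if_pos, if_neg hv]
    rw [hy, add_assoc, two_add, add_zero]
  · by_cases hv : v = x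
    · subst hv
      have hy := hn u (e.2.1.resolve_left hu) e.1.symm
      simp only [if_pos, if_neg hu]
      rw [hy, add_comm, add_assoc, two_add, add_zero]
      exact hs _ _
    · simp only [if_neg hu, if_neg hv]
      exact hf u v ⟨e.1, e.2.1.resolve_left hu, e.2.2.resolve_left hv⟩

private theorem ins_conn {V : Type} {G : SimpleGraph V} {A : Set V} {x y : V} (hA : Conn G A)
    (hy : y ∈ A) (e : G.Adj x y) : Conn G (insert x A) := by
  rw [← Set.union_singleton]
  refine conn_union_adj hA ⟨⟨x, rfl⟩, ?_⟩ hy (rfl : x ∈ ({x} : Set V)) e.symm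
  intro u hu v hv
  rw [Set.mem_singleton_iff.1 hu, Set.mem_singleton_iff.1 hv]

/-- `a`, `b` not coboundaries, then `a + b` is one -/
private theorem ins_two {V : Type} {G : SimpleGraph V} {A : Set V} {x y1 y2 : V}
    (hz : HZ G A) (hn : ∀ y ∈ A, G.Adj x y → y = y1 ∨ y = y2)
    {a b : V → V → ZMod 2} (ha : a ∈ Z1 G (insert x A)) (hb : b ∈ Z1 G (insert x A))
    (hat : ¬ Triv G (insert x A) a) (hbt : ¬ Triv G (insert x A) b) :
    Triv G (insert x A) (a + b) := by
  have key : ∀ c ∈ Z1 G (insert x A), ∃ f : V → ZMod 2,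
      (∀ u v, EIn G A u v → c u v = f u + f v) ∧
      (c x y1 + f y1 = c x y2 + f y2 → Triv G (insert x A) c) := by
    intro c hc
    obtain ⟨h0, hs, _⟩ := mem_Z1.1 hc
    obtain ⟨f, hf⟩ := Triv_rs.1 (hz _ (rs_mem (Set.subset_insert x A) hc))
    refine ⟨f, hf, fun hj => ⟨fun z => if z = x then c x y1 + f y1 else f z, fun u v e => ?_⟩⟩
    have h2 : ∀ w ∈ A, G.Adj x w → c x w = (c x y1 + f y1) + f w := by
      intro w hw hxw
      rcases hn w hw hxw with rfl | rfl
      · rw [add_assoc, two_add, add_zero]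
      · rw [hj, add_assoc, two_add, add_zero]
    by_cases hu : u = x
    · have hv : v ≠ x := fun hv => e.1.ne (hu.trans hv.symm)
      subst hu
      simp only [if_pos, if_neg hv]
      exact h2 v (e.2.2.resolve_left hv) e.1
    · by_cases hv : v = x
      · subst hv
        simp only [if_pos, if_neg hu]
        rw [hs u v, h2 u (e.2.1.resolve_left hu) e.1.symm, add_comm]
      · simp only [if_neg hu, if_neg hv]
        exact hf u v ⟨e.1, e.2.1.resolve_left hu, e.2.2.resolve_left hv⟩
  have one : ∀ s t : ZMod 2, s ≠ t → s + t = 1 := by decide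
  obtain ⟨f, hf, hf2⟩ := key a ha
  obtain ⟨g, hg, hg2⟩ := key b hb
  have h1 := one _ _ (fun hh => hat (hf2 hh))
  have h2 := one _ _ (fun hh => hbt (hg2 hh))
  obtain ⟨_, hsa, _⟩ := mem_Z1.1 ha
  obtain ⟨_, hsb, _⟩ := mem_Z1.1 hb
  have h3 : (a x y1 + b x y1) + (f y1 + g y1) = (a x y2 + b x y2) + (f y2 + g y2) := by
    rw [← z2_eq]
    have h4 : (a x y1 + b x y1) + (f y1 + g y1) + ((a x y2 + b x y2) + (f y2 + g y2)) =
        (a x y1 + f y1 + (a x y2 + f y2)) + (b x y1 + g y1 + (b x y2 + g y2)) := by abel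
    rw [h4, h1, h2]
    decide
  refine ⟨fun z => if z = x then (a x y1 + b x y1) + (f y1 + g y1) else f z + g z,
    fun u v e => ?_⟩
  have h5 : ∀ w ∈ A, G.Adj x w → a x w + b x w =
      ((a x y1 + b x y1) + (f y1 + g y1)) + (f w + g w) := by
    intro w hw hxw
    rcases hn w hw hxw with rfl | rfl
    · rw [add_assoc, two_add, add_zero]
    · rw [h3, add_assoc, two_add, add_zero]
  by_cases hu : u = x
  · have hv : v ≠ x := fun hv => e.1.ne (hu.trans hv.symm)
    subst hu
    simp only [if_pos, if_neg hv, Pi.add_apply]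
    exact h5 v (e.2.2.resolve_left hv) e.1
  · by_cases hv : v = x
    · subst hv
      simp only [if_pos, if_neg hu, Pi.add_apply]
      rw [hsa u v, hsb u v, h5 u (e.2.1.resolve_left hu) e.1.symm, add_comm]
    · simp only [if_neg hu, if_neg hv, Pi.add_apply]
      have e' : EIn G A u v := ⟨e.1, e.2.1.resolve_left hu, e.2.2.resolve_left hv⟩
      rw [hf u v e', hg u v e']
      abel

private theorem ins_b1 {V : Type} {G : SimpleGraph V} {A : Set V} {x y1 y2 : V}
    (hz : HZ G A) (hn : ∀ y ∈ A, G.Adj x y → y = y1 ∨ y = y2) : b1 G (insert x A) ≤ 1 := by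
  unfold b1 rk1
  by_cases hall : ∃ a ∈ Z1 G (insert x A), ¬ Triv G (insert x A) a
  · obtain ⟨a, ha, hat⟩ := hall
    refine finrank_le_one (Submodule.Quotient.mk (⟨a, ha⟩ : Z1 G (insert x A))) ?_
    intro w
    obtain ⟨b, rfl⟩ := Submodule.Quotient.mk_surjective _ w
    by_cases hbt : Triv G (insert x A) b.1
    · refine ⟨0, ?_⟩
      rw [zero_smul, eq_comm, Submodule.Quotient.mk_eq_zero]
      exact ⟨b.2, hbt⟩
    · refine ⟨1, ?_⟩
      rw [one_smul, Submodule.Quotient.eq]
      refine ⟨(Z1 G (insert x A)).sub_mem ha b.2, ?_⟩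
      refine (ins_two hz hn ha b.2 hat hbt).congr (fun u v _ => ?_)
      simp only [Submodule.subtype_apply, Submodule.coe_sub, Pi.add_apply, Pi.sub_apply,
        CharTwo.sub_eq_add]
  · push Not at hall
    refine finrank_le_one 0 ?_
    intro w
    obtain ⟨b, rfl⟩ := Submodule.Quotient.mk_surjective _ w
    refine ⟨0, ?_⟩
    rw [zero_smul, eq_comm, Submodule.Quotient.mk_eq_zero]
    exact ⟨b.2, hall b.1 b.2⟩

private theorem Ec_card (e : Ec Gc) : e.q.1.card = 2 := e.2.1

theorem V1_Conn [Finite Vc] (h : IsSph3 Gc) (e : Ec Gc) : Conn (sd (sd Gc)) (V1 Gc e.q) := by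
  have hcmp : ∀ c : Cq (sd Gc), e.q ∈ c.1 → ∀ s ∈ c.1, s ≤ e.q ∨ e.q ≤ s := by
    intro c hc s hs
    by_cases hse : s = e.q
    · exact Or.inl hse.le
    · rcases c.2.2 (Finset.mem_coe.2 hs) (Finset.mem_coe.2 hc) hse with h1 | h1
      · exact Or.inl h1.le
      · exact Or.inr h1.le
  have hbig : ∀ c ∈ V1 Gc e.q, ∃ s ∈ c.1, e.q < s := by
    rintro c ⟨hc, s, hs, h3⟩
    refine ⟨s, hs, ?_⟩
    have h2 := Ec_card e
    rcases hcmp c hc s hs with h4 | h4
    · have h5 := Finset.card_le_card (Cq.le_iff.1 h4)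
      omega
    · refine lt_of_le_of_ne h4 (fun h5 => ?_)
      rw [← h5] at h3
      omega
  have hup := (above_mi_Conn (vx (sd Gc) e.q) {s : Cq Gc | e.q ≤ s}).2 (by
    have h1 : Lk (sd Gc) ((vx (sd Gc) e.q).1 : Set (Cq Gc)) ∩ {s : Cq Gc | e.q ≤ s} =
        {s | e.q < s} := by
      ext s
      constructor
      · rintro ⟨h1, h2⟩
        have h3 : (sd Gc).Adj e.q s := h1 e.q (Finset.mem_coe.2 (Finset.mem_singleton_self _))
        exact lt_of_le_of_ne h2 h3.ne
      · intro hs
        have hs' : e.q < s := hs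
        refine ⟨fun x hx => ?_, hs'.le⟩
        rw [Finset.mem_singleton.1 (Finset.mem_coe.1 hx)]
        exact Or.inl hs'
    rw [h1]
    exact (above_Conn e.q).2 (h.edge e.q.1 e.q.2.2 (Ec_card e)).1)
  have hr := ret_Conn (P := Cq (sd Gc)) (S := V1 Gc e.q)
    (S' := {t | vx (sd Gc) e.q < t ∧ ∀ x ∈ t.1, x ∉ (vx (sd Gc) e.q).1 → x ∈ {s : Cq Gc | e.q ≤ s}})
    (fun c => if hc : (c.1.filter (fun s => e.q ≤ s)).Nonempty then
      ⟨c.1.filter (fun s => e.q ≤ s), hc, c.2.2.subset (by
        intro y hy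
        exact Finset.mem_coe.2 (Finset.mem_filter.1 (Finset.mem_coe.1 hy)).1)⟩ else c) ?_ ?_ ?_ ?_
  · exact hr.2 hup
  · rintro t ⟨h1, h2⟩
    have he : e.q ∈ t.1 := (Cq.lt_iff.1 h1).1 (Finset.mem_singleton_self _)
    obtain ⟨s, hs, hs'⟩ := Finset.exists_of_ssubset (Cq.lt_iff.1 h1)
    refine ⟨he, s, hs, ?_⟩
    have h3 : e.q ≤ s := h2 s hs hs'
    have h4 : e.q ≠ s := fun h5 => hs' (by rw [← h5]; exact Finset.mem_singleton_self _)
    have h5 := Finset.card_lt_card (Cq.lt_iff.1 (lt_of_le_of_ne h3 h4))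
    have h6 := Ec_card e
    omega
  · intro c hc
    obtain ⟨s, hs, hes⟩ := hbig c hc
    have he : e.q ∈ c.1.filter (fun s => e.q ≤ s) := Finset.mem_filter.2 ⟨hc.1, le_refl _⟩
    have hne : (c.1.filter (fun s => e.q ≤ s)).Nonempty := ⟨_, he⟩
    simp only [dif_pos hne]
    refine ⟨?_, fun x hx _ => (Finset.mem_filter.1 hx).2⟩
    rw [Cq.lt_iff]
    refine Finset.ssubset_iff_subset_ne.2 ⟨Finset.singleton_subset_iff.2 he, fun h1 => ?_⟩
    have h2 : s ∈ (vx (sd Gc) e.q).1 := by
      rw [h1]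
      exact Finset.mem_filter.2 ⟨hs, hes.le⟩
    exact hes.ne (Finset.mem_singleton.1 h2).symm
  · intro c hc
    have he : e.q ∈ c.1.filter (fun s => e.q ≤ s) := Finset.mem_filter.2 ⟨hc.1, le_refl _⟩
    have hne : (c.1.filter (fun s => e.q ≤ s)).Nonempty := ⟨_, he⟩
    simp only [dif_pos hne]
    exact Finset.filter_subset _ _
  · intro c hc d hd hcd
    have he : e.q ∈ c.1.filter (fun s => e.q ≤ s) := Finset.mem_filter.2 ⟨hc.1, le_refl _⟩
    have hne : (c.1.filter (fun s => e.q ≤ s)).Nonempty := ⟨_, he⟩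
    have he' : e.q ∈ d.1.filter (fun s => e.q ≤ s) := Finset.mem_filter.2 ⟨hd.1, le_refl _⟩
    have hne' : (d.1.filter (fun s => e.q ≤ s)).Nonempty := ⟨_, he'⟩
    simp only [dif_pos hne, dif_pos hne']
    exact Finset.filter_subset_filter _ (Cq.le_iff.1 hcd)

/-- the structure of the complement -/
private theorem V1_compl [Finite Vc] (h : IsSph3 Gc) (e : Ec Gc) :
    ∃ (M0 : Set (Cq (sd Gc))) (P1 E0 P2 q1 q2 : Cq (sd Gc)),
      (V1 Gc e.q)ᶜ = insert P1 (insert E0 (insert P2 M0)) ∧
      Conn (sd (sd Gc)) M0 ∧ HZ (sd (sd Gc)) M0 ∧ q2 ∈ M0 ∧ (sd (sd Gc)).Adj P2 q2 ∧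
      (∀ y ∈ M0, (sd (sd Gc)).Adj P2 y → y = q2) ∧ (sd (sd Gc)).Adj E0 P2 ∧
      (∀ y ∈ insert P2 M0, (sd (sd Gc)).Adj E0 y → y = P2) ∧ (sd (sd Gc)).Adj P1 E0 ∧
      (∀ y ∈ insert E0 (insert P2 M0), (sd (sd Gc)).Adj P1 y → y = E0 ∨ y = q1) := by
  have hS := sph_compl_vertex (sd_sph3 h) e.q
  obtain ⟨u1, u2, hu, hlow⟩ := Set.ncard_eq_two.1 (below_two e.q (Ec_card e)).1
  have hu1 : u1 < e.q := by
    have : u1 ∈ {t | t < e.q} := by rw [hlow]; exact Or.inl rfl
    exact this
  have hu2 : u2 < e.q := by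
    have : u2 ∈ {t | t < e.q} := by rw [hlow]; exact Or.inr rfl
    exact this
  have hc1 := Finset.card_lt_card (Cq.lt_iff.1 hu1)
  have hc2 := Finset.card_lt_card (Cq.lt_iff.1 hu2)
  have hce := Ec_card e
  have hnadj : ¬ (sd Gc).Adj u1 u2 := by
    rintro (h1 | h1)
    · have h2 := Finset.card_lt_card (Cq.lt_iff.1 h1)
      have h3 := u1.2.1.card_pos
      omega
    · have h2 := Finset.card_lt_card (Cq.lt_iff.1 h1)
      have h3 := u2.2.1.card_pos
      omega
  have a1 : (sd Gc).Adj u1 e.q := Or.inl hu1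
  have a2 : (sd Gc).Adj u2 e.q := Or.inl hu2
  have hval : ∀ {x : Cq Gc} (a : (sd Gc).Adj x e.q), (eg (sd Gc) a).1 = {x, e.q} := fun a => rfl
  have hvx : ∀ x : Cq Gc, (vx (sd Gc) x).1 = {x} := fun x => rfl
  -- proper subsets of {x, e} without e
  have hsub : ∀ {x : Cq Gc} (a : (sd Gc).Adj x e.q) (y : Cq (sd Gc)), e.q ∉ y.1 →
      (sd (sd Gc)).Adj (eg (sd Gc) a) y → y = vx (sd Gc) x := by
    intro x a y hy hadj
    rcases hadj with h1 | h1
    · exact absurd ((Cq.lt_iff.1 h1).1 (by rw [hval]; simp)) hy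
    · have h2 := (Cq.lt_iff.1 h1).1
      rw [hval] at h2
      refine Subtype.ext ?_
      rw [hvx]
      refine Finset.Subset.antisymm (fun z hz => ?_) ?_
      · have h3 := h2 hz
        rw [Finset.mem_insert, Finset.mem_singleton] at h3
        rcases h3 with h3 | h3
        · rw [h3]; exact Finset.mem_singleton_self _
        · rw [h3] at hz; exact absurd hz hy
      · obtain ⟨z, hz⟩ := y.2.1
        have h3 := h2 hz
        rw [Finset.mem_insert, Finset.mem_singleton] at h3
        rcases h3 with h3 | h3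
        · rw [h3] at hz; exact Finset.singleton_subset_iff.2 hz
        · rw [h3] at hz; exact absurd hz hy
  have hEP : ∀ {x : Cq Gc} (a : (sd Gc).Adj x e.q),
      (sd (sd Gc)).Adj (vx (sd Gc) e.q) (eg (sd Gc) a) := by
    intro x a
    refine Or.inl (Cq.lt_iff.2 ?_)
    rw [hval, hvx]
    refine Finset.ssubset_iff_subset_ne.2 ⟨by simp, fun h1 => ?_⟩
    have h2 : x ∈ ({e.q} : Finset (Cq Gc)) := by rw [h1]; simp
    exact a.ne (Finset.mem_singleton.1 h2)
  refine ⟨mi (sd Gc) {e.q}ᶜ, eg (sd Gc) a1, vx (sd Gc) e.q, eg (sd Gc) a2, vx (sd Gc) u1,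
    vx (sd Gc) u2, ?_, sd_Conn.2 hS.1, sd_HZ.2 hS.2, ?_, ?_, ?_, hEP a2, ?_, (hEP a1).symm, ?_⟩
  · ext c
    constructor
    · intro hc
      by_cases he : e.q ∈ c.1
      · have hsm : ∀ s ∈ c.1, s.1.card ≤ 2 := by
          intro s hs
          by_contra h3
          exact hc ⟨he, s, hs, by omega⟩
        have hle : ∀ s ∈ c.1, s = e.q ∨ s = u1 ∨ s = u2 := by
          intro s hs
          by_cases hse : s = e.q
          · exact Or.inl hse
          · right
            rcases c.2.2 (Finset.mem_coe.2 hs) (Finset.mem_coe.2 he) hse with h1 | h1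
            · have h2 : s ∈ {t | t < e.q} := h1
              rw [hlow] at h2
              exact h2
            · have h2 := Finset.card_lt_card (Cq.lt_iff.1 h1)
              have h3 := hsm s hs
              omega
        by_cases h1 : u1 ∈ c.1
        · left
          refine Subtype.ext ?_
          rw [hval]
          ext z
          rw [Finset.mem_insert, Finset.mem_singleton]
          constructor
          · intro hz
            rcases hle z hz with h2 | h2 | h2
            · exact Or.inr h2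
            · exact Or.inl h2
            · exfalso
              rw [h2] at hz
              exact hnadj (c.2.2 (Finset.mem_coe.2 h1) (Finset.mem_coe.2 hz) hu)
          · rintro (h2 | h2)
            · rw [h2]; exact h1
            · rw [h2]; exact he
        · by_cases h2 : u2 ∈ c.1
          · right; right; left
            refine Subtype.ext ?_
            rw [hval]
            ext z
            rw [Finset.mem_insert, Finset.mem_singleton]
            constructor
            · intro hz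
              rcases hle z hz with h3 | h3 | h3
              · exact Or.inr h3
              · rw [h3] at hz; exact absurd hz h1
              · exact Or.inl h3
            · rintro (h3 | h3)
              · rw [h3]; exact h2
              · rw [h3]; exact he
          · right; left
            refine Subtype.ext ?_
            rw [hvx]
            ext z
            rw [Finset.mem_singleton]
            constructor
            · intro hz
              rcases hle z hz with h3 | h3 | h3
              · exact h3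
              · rw [h3] at hz; exact absurd hz h1
              · rw [h3] at hz; exact absurd hz h2
            · intro h3
              rw [h3]; exact he
      · right; right; right
        intro x hx hxe
        rw [Set.mem_singleton_iff.1 hxe] at hx
        exact he hx
    · have hsmall : ∀ {x : Cq Gc} (a : (sd Gc).Adj x e.q), x.1.card ≤ 2 →
          eg (sd Gc) a ∉ V1 Gc e.q := by
        rintro x a hx ⟨_, s, hs, h3⟩
        rw [hval, Finset.mem_insert, Finset.mem_singleton] at hs
        rcases hs with hs | hs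
        · rw [hs] at h3; omega
        · rw [hs] at h3; omega
      rintro (rfl | rfl | rfl | hc)
      · exact hsmall a1 (by omega)
      · rintro ⟨_, s, hs, h3⟩
        rw [hvx, Finset.mem_singleton] at hs
        rw [hs] at h3
        omega
      · exact hsmall a2 (by omega)
      · rintro ⟨h1, _⟩
        exact hc e.q h1 rfl
  · intro x hx hxe
    rw [hvx, Finset.mem_singleton] at hx
    rw [Set.mem_singleton_iff.1 hxe] at hx
    exact hu2.ne hx.symm
  · refine Or.inr (Cq.lt_iff.2 ?_)
    rw [hval, hvx]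
    refine Finset.ssubset_iff_subset_ne.2 ⟨by simp, fun h1 => ?_⟩
    have h2 : e.q ∈ ({u2} : Finset (Cq Gc)) := by rw [h1]; simp
    exact hu2.ne (Finset.mem_singleton.1 h2).symm
  · intro y hy hadj
    exact hsub a2 y (fun h1 => hy e.q h1 rfl) hadj
  · rintro y (rfl | hy) hadj
    · rfl
    · exfalso
      rcases hadj with h1 | h1
      · exact hy e.q ((Cq.lt_iff.1 h1).1 (by rw [hvx]; simp)) rfl
      · have h2 := (Cq.lt_iff.1 h1).1
        obtain ⟨z, hz⟩ := y.2.1
        have h3 := h2 hz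
        rw [hvx, Finset.mem_singleton] at h3
        exact hy z hz h3
  · rintro y (rfl | rfl | hy) hadj
    · exact Or.inl rfl
    · exfalso
      have hne : ∀ {p q : Cq Gc} (a : (sd Gc).Adj p e.q) (b : (sd Gc).Adj q e.q), p ≠ q →
          ¬ eg (sd Gc) a < eg (sd Gc) b := by
        intro p q a b hpq h1
        have h2 := (Cq.lt_iff.1 h1).1 (by rw [hval]; simp : p ∈ (eg (sd Gc) a).1)
        rw [hval, Finset.mem_insert, Finset.mem_singleton] at h2
        rcases h2 with h2 | h2
        · exact hpq h2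
        · exact a.ne h2
      rcases hadj with h1 | h1
      · exact hne a1 a2 hu h1
      · exact hne a2 a1 hu.symm h1
    · exact Or.inr (hsub a1 y (fun h1 => hy e.q h1 rfl) hadj)

theorem V1_compl_Conn [Finite Vc] (h : IsSph3 Gc) (e : Ec Gc) :
    Conn (sd (sd Gc)) (V1 Gc e.q)ᶜ := by
  obtain ⟨M0, P1, E0, P2, q1, q2, hV, hC, _, h1, h2, _, h4, _, h6, _⟩ := V1_compl h e
  rw [hV]
  exact ins_conn (ins_conn (ins_conn hC h1 h2) (Set.mem_insert _ _) h4) (Set.mem_insert _ _) h6

theorem V1_compl_b1 [Finite Vc] (h : IsSph3 Gc) (e : Ec Gc) :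
    b1 (sd (sd Gc)) (V1 Gc e.q)ᶜ ≤ 1 := by
  obtain ⟨M0, P1, E0, P2, q1, q2, hV, _, hz, _, _, h3, _, h5, _, h7⟩ := V1_compl h e
  rw [hV]
  exact ins_b1 (ins_hz (ins_hz hz h3) h5) h7

theorem V1_b1 [Finite Vc] (h : IsSph3 Gc) (e : Ec Gc) : b1 (sd (sd Gc)) (V1 Gc e.q) ≤ 1 := by
  rw [dual (sd_sph3 (sd_sph3 h)) (V1_Conn h e) (V1_compl_Conn h e)]
  exact V1_compl_b1 h e

end MOT
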