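import Pool.Agent.MOT.DmDef

/-!
# MOT/DmD: relations between the level functions at the position level (helper82)

`c3 u` is a clique (chain) of `C`'s (`car_cl`); so `c2 u` and `cr u` are chains too (all members of the
largest `C`, all members of the largest `c`).  `f1 c = lsd (ind Xs) c` is `0` if all simplices of `c` have card
`≤ 2`, `2` if all have card `≥ 3`, `1` otherwise (mixed); `f2 C = min f1 + max f1`, `|f2 C - f2 C'| ≤ 1` for
comparable `C`, `C'`; `f2 C = 2` iff every `c ∈ C` is mixed.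
`lS u = lN f2 4 u`: bounds from `lN_le`, `le_lN`, `lt_lN`, `lN_lt`, `lN_mono`, `lN_refl` (file Lab).

(d1) `lV e u ≤ 15` → some `C ∈ c3 u` is in `V2 e`, `f2 C = 2`, so `17 ≤ lS u ≤ 47`.
(d2) `f2 ≤ ind (PR e) + 3` (an element of `PR e` contains `c ∋ e`, so `f1 c ≤ 1`, `f2 ≤ 3`) → `lS u ≤ lU e u + 48`;
     `1 ≤ f2 + ind (PD s)` → `16 ≤ lS u + lD s u`.
(d3) if every `C ∈ c3 u` satisfies (`C ∈ V2 e ↔ f2 C = 2`) and `16 ≤ lS u ≤ 48` then
     `lV e u + 32 = lS u` (values of `f2` on `c3 u` in `{2, 3}`) or `lV e u + lS u = 32` (values in `{1, 2}`).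
(d4) `28 ≤ lS u ≤ 36`, `5 ≤ lV e u` for all edges `e` → `cr u` contains a vertex `v`: there is `C ∈ c3 u` with `f2 C = 2`.  If no
     `c ∈ c2 u` contains a vertex, all mixed `c ∈ c2 u` contain an edge, the same edge `e` for all, and (d3) gives
     `lV e u ≤ 4`.
(d5) `lV e u ≤ 15 → e ∈ cr u`, `lU e u ≤ 15 → e ∈ cr u`, `lD s u ≤ 15 → s ∈ cr u`.
-/

open Classical

noncomputable section

namespace MOT

variable {K : Lv} {m0 : ℕ}

/-! level functions with values on `c3` -/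

private theorem a_le (f : Cq (sd (sd (tw K m0).G)) → ℕ) (u : PV K m0) (c : ℕ)
    (h : ∀ C ∈ c3 K m0 u, f C ≤ c) : lN K (m0 + 3) f 4 u ≤ 16 * c :=
  lN_le (K := K) (n := m0 + 3) (k := 4) (f := f) (x := u) (c := c) h

private theorem a_ge (f : Cq (sd (sd (tw K m0).G)) → ℕ) (u : PV K m0) (c : ℕ)
    (h : ∀ C ∈ c3 K m0 u, c ≤ f C) : 16 * c ≤ lN K (m0 + 3) f 4 u :=
  le_lN (K := K) (n := m0 + 3) (k := 4) (f := f) (x := u) (c := c) h

private theorem a_lt (f : Cq (sd (sd (tw K m0).G)) → ℕ) (u : PV K m0) (c : ℕ)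
    (h : ∀ C ∈ c3 K m0 u, f C ≤ c) (h' : ∃ C ∈ c3 K m0 u, f C < c) :
    lN K (m0 + 3) f 4 u < 16 * c :=
  lN_lt (K := K) (n := m0 + 3) (k := 4) (f := f) (x := u) (c := c) h h'

private theorem a_gt (f : Cq (sd (sd (tw K m0).G)) → ℕ) (u : PV K m0) (c : ℕ)
    (h : ∀ C ∈ c3 K m0 u, c ≤ f C) (h' : ∃ C ∈ c3 K m0 u, c < f C) :
    16 * c < lN K (m0 + 3) f 4 u :=
  lt_lN (K := K) (n := m0 + 3) (k := 4) (f := f) (x := u) (c := c) h h'

private theorem a_refl (f g : Cq (sd (sd (tw K m0).G)) → ℕ) (u : PV K m0) (c : ℕ)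
    (h : ∀ C ∈ c3 K m0 u, f C + g C = c) :
    lN K (m0 + 3) f 4 u + lN K (m0 + 3) g 4 u = 16 * c :=
  lN_refl (K := K) (n := m0 + 3) (k := 4) (f := f) (g := g) (x := u) (c := c) h

private theorem a_mono (f g : Cq (sd (sd (tw K m0).G)) → ℕ) (u : PV K m0)
    (h : ∀ C ∈ c3 K m0 u, f C ≤ g C) :
    lN K (m0 + 3) f 4 u ≤ lN K (m0 + 3) g 4 u :=
  lN_mono (K := K) (n := m0 + 3) (k := 4) (f := f) (g := g) (x := u) h

private theorem a_lip (f : Cq (sd (sd (tw K m0).G)) → ℕ)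
    (hf : ∀ C D, (sd (sd (sd (tw K m0).G))).Adj C D → f C ≤ f D + 1) (u u' : PV K m0)
    (h : Nr (tw K (m0 + 7)).G u u') :
    lN K (m0 + 3) f 4 u ≤ lN K (m0 + 3) f 4 u' + 1 := by
  rcases h with h | h
  · rw [h]
    exact Nat.le_succ _
  · exact lN_lip (K := K) (n := m0 + 3) (k := 4) (f := f) hf u u' h

private theorem ind_le {V : Type} (M : Set V) (x : V) : ind M x ≤ 1 := by
  unfold ind
  split_ifs <;> omega

private theorem ind_in {V : Type} {M : Set V} {x : V} (h : x ∈ M) : ind M x = 0 := if_pos h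

private theorem ind_out {V : Type} {M : Set V} {x : V} (h : x ∉ M) : ind M x = 1 := if_neg h

private theorem ind_lip {V : Type} {G : SimpleGraph V} (M : Set V) (x y : V) (_ : G.Adj x y) :
    ind M x ≤ ind M y + 1 := by
  have := ind_le M x
  omega

private def ic {V : Type} (M : Set V) : V → ℕ := ind Mᶜ

private theorem ind_compl {V : Type} (M : Set V) (x : V) : ind M x + ind Mᶜ x = 1 := by
  by_cases h : x ∈ M
  · rw [ind_in h, ind_out (M := Mᶜ) (fun h' : x ∈ Mᶜ => h' h)]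
  · rw [ind_out h, ind_in (M := Mᶜ) h]

/-! chains -/

private theorem union_chain {V : Type} {G : SimpleGraph V} {T : Set (Cq (sd G))}
    (h : IsChain (· ≤ ·) T) : IsChain (· ≤ ·) {s : Cq G | ∃ c ∈ T, s ∈ c.1} := by
  rintro s ⟨c, hc, hs⟩ t ⟨d, hd, ht⟩ hst
  have key : ∀ e : Cq (sd G), s ∈ e.1 → t ∈ e.1 → s ≤ t ∨ t ≤ s := by
    intro e h1 h2
    have h3 : (sd G).Adj s t := e.2.2 (Finset.mem_coe.2 h1) (Finset.mem_coe.2 h2) hst
    rcases sd_adj.1 h3 with h4 | h4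
    · exact Or.inl h4.le
    · exact Or.inr h4.le
  by_cases hcd : c = d
  · subst hcd
    exact key c hs ht
  · rcases h hc hd hcd with h1 | h1
    · exact key d (Cq.le_iff.1 h1 hs) ht
    · exact key c hs (Cq.le_iff.1 h1 ht)

/-! values of `f1`, `f2` -/

section vals

variable {Vc : Type} {Gc : SimpleGraph Vc}

/-- level `m0+2` -/
private def f1 (Gc : SimpleGraph Vc) : Cq (sd Gc) → ℕ := lsd (ind (Xs Gc))

private theorem f1_def (c : Cq (sd Gc)) :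
    f1 Gc c = c.1.inf' c.2.1 (ind (Xs Gc)) + c.1.sup' c.2.1 (ind (Xs Gc)) := rfl

private theorem f2_def (C : Cq (sd (sd Gc))) :
    f2 Gc C = C.1.inf' C.2.1 (f1 Gc) + C.1.sup' C.2.1 (f1 Gc) := rfl

private theorem f1_lip (c d : Cq (sd Gc)) (h : (sd (sd Gc)).Adj c d) : f1 Gc c ≤ f1 Gc d + 1 :=
  lsd_lip (G := sd Gc) (fun x y e => ind_lip (G := sd Gc) _ x y e) c d h

private theorem f2_lip (C D : Cq (sd (sd Gc))) (h : (sd (sd (sd Gc))).Adj C D) :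
    f2 Gc C ≤ f2 Gc D + 1 :=
  lsd_lip (G := sd (sd Gc)) (fun x y e => f1_lip x y e) C D h

private theorem f1_le (c : Cq (sd Gc)) : f1 Gc c ≤ 2 := by
  obtain ⟨x, hx, ex⟩ := Finset.exists_mem_eq_inf' c.2.1 (ind (Xs Gc))
  obtain ⟨y, hy, ey⟩ := Finset.exists_mem_eq_sup' c.2.1 (ind (Xs Gc))
  have h1 := ind_le (Xs Gc) x
  have h2 := ind_le (Xs Gc) y
  rw [f1_def, ex, ey]
  omega

private theorem f2_le (C : Cq (sd (sd Gc))) : f2 Gc C ≤ 4 := by
  obtain ⟨x, hx, ex⟩ := Finset.exists_mem_eq_inf' C.2.1 (f1 Gc)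
  obtain ⟨y, hy, ey⟩ := Finset.exists_mem_eq_sup' C.2.1 (f1 Gc)
  have h1 := f1_le (Gc := Gc) x
  have h2 := f1_le (Gc := Gc) y
  rw [f2_def, ex, ey]
  omega

private theorem xs_in {s : Cq Gc} (h : s.1.card ≤ 2) : ind (Xs Gc) s = 0 := ind_in h

private theorem xs_out {s : Cq Gc} (h : 3 ≤ s.1.card) : ind (Xs Gc) s = 1 :=
  ind_out (fun h' : s.1.card ≤ 2 => by omega)

private theorem f1_le_one {c : Cq (sd Gc)} {s : Cq Gc} (hs : s ∈ c.1) (h : s.1.card ≤ 2) :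
    f1 Gc c ≤ 1 := by
  have h1 : c.1.inf' c.2.1 (ind (Xs Gc)) ≤ ind (Xs Gc) s := Finset.inf'_le _ hs
  obtain ⟨y, hy, ey⟩ := Finset.exists_mem_eq_sup' c.2.1 (ind (Xs Gc))
  have h2 := ind_le (Xs Gc) y
  rw [xs_in h] at h1
  rw [f1_def, ey]
  omega

private theorem one_le_f1 {c : Cq (sd Gc)} {s : Cq Gc} (hs : s ∈ c.1) (h : 3 ≤ s.1.card) :
    1 ≤ f1 Gc c := by
  have h1 : ind (Xs Gc) s ≤ c.1.sup' c.2.1 (ind (Xs Gc)) := Finset.le_sup' _ hs
  rw [xs_out h] at h1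
  rw [f1_def]
  omega

private theorem f1_two {c : Cq (sd Gc)} (h : ∀ s ∈ c.1, 3 ≤ s.1.card) : f1 Gc c = 2 := by
  obtain ⟨x, hx, ex⟩ := Finset.exists_mem_eq_inf' c.2.1 (ind (Xs Gc))
  obtain ⟨y, hy, ey⟩ := Finset.exists_mem_eq_sup' c.2.1 (ind (Xs Gc))
  rw [f1_def, ex, ey, xs_out (h x hx), xs_out (h y hy)]

private theorem f1_zero {c : Cq (sd Gc)} (h : ∀ s ∈ c.1, s.1.card ≤ 2) : f1 Gc c = 0 := by
  obtain ⟨x, hx, ex⟩ := Finset.exists_mem_eq_inf' c.2.1 (ind (Xs Gc))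
  obtain ⟨y, hy, ey⟩ := Finset.exists_mem_eq_sup' c.2.1 (ind (Xs Gc))
  rw [f1_def, ex, ey, xs_in (h x hx), xs_in (h y hy)]

private theorem f1_one_iff {c : Cq (sd Gc)} :
    f1 Gc c = 1 ↔ (∃ s ∈ c.1, s.1.card ≤ 2) ∧ ∃ s ∈ c.1, 3 ≤ s.1.card := by
  constructor
  · intro h
    constructor
    · by_contra hn
      push Not at hn
      have := f1_two (Gc := Gc) (c := c) (fun s hs => hn s hs)
      omega
    · by_contra hn
      push Not at hn
      have := f1_zero (Gc := Gc) (c := c) (fun s hs => by have := hn s hs; omega)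
      omega
  · rintro ⟨⟨s, hs, h1⟩, t, ht, h2⟩
    have h3 := f1_le_one hs h1
    have h4 := one_le_f1 ht h2
    omega

private theorem f2_le_three {C : Cq (sd (sd Gc))} {c : Cq (sd Gc)} (hc : c ∈ C.1)
    (h : f1 Gc c ≤ 1) : f2 Gc C ≤ 3 := by
  have h1 : C.1.inf' C.2.1 (f1 Gc) ≤ f1 Gc c := Finset.inf'_le _ hc
  obtain ⟨y, hy, ey⟩ := Finset.exists_mem_eq_sup' C.2.1 (f1 Gc)
  have h2 := f1_le (Gc := Gc) y
  rw [f2_def, ey]
  omega

private theorem one_le_f2 {C : Cq (sd (sd Gc))} {c : Cq (sd Gc)} (hc : c ∈ C.1)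
    (h : 1 ≤ f1 Gc c) : 1 ≤ f2 Gc C := by
  have h1 : f1 Gc c ≤ C.1.sup' C.2.1 (f1 Gc) := Finset.le_sup' _ hc
  rw [f2_def]
  omega

private theorem f2_four {C : Cq (sd (sd Gc))} (h : ∀ c ∈ C.1, f1 Gc c = 2) : f2 Gc C = 4 := by
  obtain ⟨x, hx, ex⟩ := Finset.exists_mem_eq_inf' C.2.1 (f1 Gc)
  obtain ⟨y, hy, ey⟩ := Finset.exists_mem_eq_sup' C.2.1 (f1 Gc)
  rw [f2_def, ex, ey, h x hx, h y hy]

private theorem f2_zero {C : Cq (sd (sd Gc))} (h : ∀ c ∈ C.1, f1 Gc c = 0) : f2 Gc C = 0 := by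
  obtain ⟨x, hx, ex⟩ := Finset.exists_mem_eq_inf' C.2.1 (f1 Gc)
  obtain ⟨y, hy, ey⟩ := Finset.exists_mem_eq_sup' C.2.1 (f1 Gc)
  rw [f2_def, ex, ey, h x hx, h y hy]

private theorem f2_two_iff (C : Cq (sd (sd Gc))) : f2 Gc C = 2 ↔ ∀ c ∈ C.1, f1 Gc c = 1 := by
  have h := lsd_eq_even (G := sd (sd Gc)) (f := f1 Gc) (i := 1) (fun x y e => f1_lip x y e)
  have h2 := Set.ext_iff.1 h C
  exact h2

private theorem V2_two {e : Cq Gc} (he : e.1.card ≤ 2) {C : Cq (sd (sd Gc))} (h : C ∈ V2 Gc e) :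
    f2 Gc C = 2 := by
  rw [f2_two_iff]
  intro c hc
  obtain ⟨h1, h2⟩ := h c hc
  exact f1_one_iff.2 ⟨⟨e, h1, he⟩, h2⟩

end vals

private theorem f2_nr {u : PV K m0} {C D : Cq (sd (sd (tw K m0).G))} (hC : C ∈ c3 K m0 u)
    (hD : D ∈ c3 K m0 u) : f2 (tw K m0).G C ≤ f2 (tw K m0).G D + 1 := by
  by_cases h : C = D
  · rw [h]
    exact Nat.le_succ _
  · exact f2_lip C D (car_cl (K := K) (n := m0 + 3) (k := 4) u hC hD h)

private theorem Ecard {Vc : Type} {Gc : SimpleGraph Vc} (e : Ec Gc) : e.q.1.card = 2 := e.2.1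

private theorem Fcard {Vc : Type} {Gc : SimpleGraph Vc} (s : Fc Gc) : s.q.1.card = 3 := s.2.1

theorem c3_chain (u : PV K m0) : IsChain (· ≤ ·) (c3 K m0 u) := by
  intro C hC D hD hCD
  have h : (sd (sd (sd (tw K m0).G))).Adj C D :=
    car_cl (K := K) (n := m0 + 3) (k := 4) u hC hD hCD
  rcases sd_adj.1 h with h1 | h1
  · exact Or.inl h1.le
  · exact Or.inr h1.le

theorem c2_chain (u : PV K m0) : IsChain (· ≤ ·) (c2 K m0 u) := by
  exact union_chain (c3_chain u)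

theorem cr_chain (u : PV K m0) : IsChain (· ≤ ·) (cr K m0 u) := by
  exact union_chain (c2_chain u)

theorem cr_ne (u : PV K m0) : (cr K m0 u).Nonempty := by
  obtain ⟨C, hC⟩ : (c3 K m0 u).Nonempty := car_ne (K := K) (n := m0 + 3) (k := 4) u
  obtain ⟨c, hc⟩ := C.2.1
  obtain ⟨s, hs⟩ := c.2.1
  exact ⟨s, c, ⟨C, hC, hc⟩, hs⟩

theorem c2_nr {u u' : PV K m0} (h : Nr (tw K (m0 + 7)).G u u') :
    IsChain (· ≤ ·) (c2 K m0 u ∪ c2 K m0 u') := by
  have key : c3 K m0 u ⊆ c3 K m0 u' ∨ c3 K m0 u' ⊆ c3 K m0 u := by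
    rcases h with h | h
    · rw [h]
      exact Or.inl subset_rfl
    · exact car_cmp (K := K) (n := m0 + 3) (k := 3) h
  rcases key with h1 | h1
  · refine (c2_chain u').mono (Set.union_subset ?_ subset_rfl)
    rintro c ⟨C, hC, hc⟩
    exact ⟨C, h1 hC, hc⟩
  · refine (c2_chain u).mono (Set.union_subset subset_rfl ?_)
    rintro c ⟨C, hC, hc⟩
    exact ⟨C, h1 hC, hc⟩

/-- adjacent positions: the union of the carriers is a chain -/
theorem cr_nr {u u' : PV K m0} (h : Nr (tw K (m0 + 7)).G u u') :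
    IsChain (· ≤ ·) (cr K m0 u ∪ cr K m0 u') := by
  have h1 := c2_nr h
  have h2 := union_chain h1
  refine h2.mono ?_
  rintro s (⟨c, hc, hs⟩ | ⟨c, hc, hs⟩)
  · exact ⟨c, Or.inl hc, hs⟩
  · exact ⟨c, Or.inr hc, hs⟩

/-- `lS` is the level function of `Xs` from level `m0+1` -/
theorem lS_eq (u : PV K m0) :
    lS K m0 u = lN K (m0 + 1) (ind (Xs (tw K m0).G)) 6 u := by
  rfl

theorem lS_le (u : PV K m0) : lS K m0 u ≤ 64 := by
  exact a_le (f2 (tw K m0).G) u 4 fun C _ => f2_le C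

theorem lS_lip (u u' : PV K m0) (h : Nr (tw K (m0 + 7)).G u u') :
    lS K m0 u ≤ lS K m0 u' + 1 := by
  exact a_lip (f2 (tw K m0).G) (fun C D e => f2_lip C D e) u u' h

theorem lV_lip (e : Cq (tw K m0).G) (u u' : PV K m0) (h : Nr (tw K (m0 + 7)).G u u') :
    lV K m0 e u ≤ lV K m0 e u' + 1 := by
  exact a_lip (ind (V2 (tw K m0).G e)) (fun C D e' => ind_lip (G := sd (sd (sd (tw K m0).G))) _ C D e') u u' h

theorem lU_lip (e : Cq (tw K m0).G) (u u' : PV K m0) (h : Nr (tw K (m0 + 7)).G u u') :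
    lU K m0 e u ≤ lU K m0 e u' + 1 := by
  exact a_lip (ind (PR (tw K m0).G e)) (fun C D e' => ind_lip (G := sd (sd (sd (tw K m0).G))) _ C D e') u u' h

theorem lD_lip (s : Cq (tw K m0).G) (u u' : PV K m0) (h : Nr (tw K (m0 + 7)).G u u') :
    lD K m0 s u ≤ lD K m0 s u' + 1 := by
  exact a_lip (ind (PD (tw K m0).G s)) (fun C D e' => ind_lip (G := sd (sd (sd (tw K m0).G))) _ C D e') u u' h

/-- `lS u < 64` iff the carrier contains a vertex or an edge -/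
theorem lS_lt_iff (u : PV K m0) : lS K m0 u < 64 ↔ ∃ s ∈ cr K m0 u, s.1.card ≤ 2 := by
  constructor
  · intro h
    by_contra hn
    push Not at hn
    have h1 : 16 * 4 ≤ lS K m0 u := by
      refine a_ge (f2 (tw K m0).G) u 4 fun C hC => ?_
      rw [f2_four (C := C)]
      intro c hc
      exact f1_two fun s hs => hn s ⟨c, ⟨C, hC, hc⟩, hs⟩
    omega
  · rintro ⟨s, ⟨c, ⟨C, hC, hc⟩, hs⟩, h⟩
    have h1 : lS K m0 u < 16 * 4 := by
      refine a_lt (f2 (tw K m0).G) u 4 (fun C _ => f2_le C) ⟨C, hC, ?_⟩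
      have := f2_le_three hc (f1_le_one hs h)
      omega
    omega

/-- `0 < lS u` iff the carrier contains a triangle or a tetrahedron -/
theorem lS_pos_iff (u : PV K m0) : 0 < lS K m0 u ↔ ∃ s ∈ cr K m0 u, 3 ≤ s.1.card := by
  constructor
  · intro h
    by_contra hn
    push Not at hn
    have h1 : lS K m0 u ≤ 16 * 0 := by
      refine a_le (f2 (tw K m0).G) u 0 fun C hC => ?_
      rw [f2_zero (C := C)]
      intro c hc
      exact f1_zero fun s hs => Nat.le_of_lt_succ (hn s ⟨c, ⟨C, hC, hc⟩, hs⟩)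
    omega
  · rintro ⟨s, ⟨c, ⟨C, hC, hc⟩, hs⟩, h⟩
    have h1 : 16 * 0 < lS K m0 u := by
      refine a_gt (f2 (tw K m0).G) u 0 (fun C _ => Nat.zero_le _) ⟨C, hC, ?_⟩
      have := one_le_f2 hc (one_le_f1 hs h)
      omega
    omega

theorem d1 (e : Ec (tw K m0).G) (u : PV K m0) (h : lV K m0 e.q u ≤ 15) :
    17 ≤ lS K m0 u ∧ lS K m0 u ≤ 47 := by
  obtain ⟨C, hC, hV⟩ : ∃ C ∈ c3 K m0 u, C ∈ V2 (tw K m0).G e.q := by
    by_contra hn
    push Not at hn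
    have h1 : 16 * 1 ≤ lV K m0 e.q u := a_ge (ind (V2 (tw K m0).G e.q)) u 1 fun C hC => (ind_out (hn C hC)).ge
    omega
  have h2 := V2_two (Ecard e).le hV
  have h3 : 16 * 1 < lS K m0 u := by
    refine a_gt (f2 (tw K m0).G) u 1 (fun D hD => ?_) ⟨C, hC, by omega⟩
    have := f2_nr hC hD
    omega
  have h4 : lS K m0 u < 16 * 3 := by
    refine a_lt (f2 (tw K m0).G) u 3 (fun D hD => ?_) ⟨C, hC, by omega⟩
    have := f2_nr hD hC
    omega
  omega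

theorem d2 (e : Ec (tw K m0).G) (u : PV K m0) : lS K m0 u ≤ lU K m0 e.q u + 48 := by
  have h1 : lS K m0 u + lN K (m0 + 3) (fun C => 4 - f2 (tw K m0).G C) 4 u = 16 * 4 := by
    refine a_refl (f2 (tw K m0).G) (fun C => 4 - f2 (tw K m0).G C) u 4 fun C _ => ?_
    have := f2_le C
    show f2 (tw K m0).G C + (4 - f2 (tw K m0).G C) = 4
    omega
  have h2 : lU K m0 e.q u + lN K (m0 + 3) (ic (PR (tw K m0).G e.q)) 4 u = 16 * 1 :=
    a_refl (ind (PR (tw K m0).G e.q)) (ic (PR (tw K m0).G e.q)) u 1 fun C _ => ind_compl _ C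
  have h3 : lN K (m0 + 3) (ic (PR (tw K m0).G e.q)) 4 u ≤
      lN K (m0 + 3) (fun C => 4 - f2 (tw K m0).G C) 4 u := by
    refine a_mono (ic (PR (tw K m0).G e.q)) (fun C => 4 - f2 (tw K m0).G C) u fun C _ => ?_
    show ind (PR (tw K m0).G e.q)ᶜ C ≤ 4 - f2 (tw K m0).G C
    by_cases hC : C ∈ PR (tw K m0).G e.q
    · obtain ⟨c, hc, h4⟩ := hC
      have h5 := f2_le_three hc (f1_le_one h4.1 (Ecard e).le)
      have h6 := ind_le (PR (tw K m0).G e.q)ᶜ C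
      omega
    · rw [ind_in (M := (PR (tw K m0).G e.q)ᶜ) hC]
      exact Nat.zero_le _
  omega

theorem d2' (s : Fc (tw K m0).G) (u : PV K m0) : 16 ≤ lS K m0 u + lD K m0 s.q u := by
  have h2 : lD K m0 s.q u + lN K (m0 + 3) (ic (PD (tw K m0).G s.q)) 4 u = 16 * 1 :=
    a_refl (ind (PD (tw K m0).G s.q)) (ic (PD (tw K m0).G s.q)) u 1 fun C _ => ind_compl _ C
  have h3 : lN K (m0 + 3) (ic (PD (tw K m0).G s.q)) 4 u ≤ lS K m0 u := by
    refine a_mono (ic (PD (tw K m0).G s.q)) (f2 (tw K m0).G) u fun C _ => ?_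
    show ind (PD (tw K m0).G s.q)ᶜ C ≤ f2 (tw K m0).G C
    by_cases hC : C ∈ PD (tw K m0).G s.q
    · obtain ⟨c, hc, h4⟩ := hC
      have h5 := one_le_f2 hc (one_le_f1 h4.1 (Fcard s).ge)
      have h6 := ind_le (PD (tw K m0).G s.q)ᶜ C
      omega
    · rw [ind_in (M := (PD (tw K m0).G s.q)ᶜ) hC]
      exact Nat.zero_le _
  omega

theorem d3 (e : Ec (tw K m0).G) (u : PV K m0)
    (h : ∀ C ∈ c3 K m0 u, C ∈ V2 (tw K m0).G e.q ↔ f2 (tw K m0).G C = 2)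
    (h1 : 16 ≤ lS K m0 u) (h2 : lS K m0 u ≤ 48) :
    lV K m0 e.q u + 32 = lS K m0 u ∨ lV K m0 e.q u + lS K m0 u = 32 := by
  have hlow : (∀ C ∈ c3 K m0 u, f2 (tw K m0).G C ≤ 2 ∧ 1 ≤ f2 (tw K m0).G C) →
      lV K m0 e.q u + lS K m0 u = 32 := by
    intro hv
    have h3 : lV K m0 e.q u + lS K m0 u = 16 * 2 := by
      refine a_refl (ind (V2 (tw K m0).G e.q)) (f2 (tw K m0).G) u 2 fun C hC => ?_
      have h4 := hv C hC
      by_cases hC2 : C ∈ V2 (tw K m0).G e.q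
      · rw [ind_in hC2, (h C hC).1 hC2]
      · have h5 : f2 (tw K m0).G C ≠ 2 := fun h6 => hC2 ((h C hC).2 h6)
        rw [ind_out hC2]
        omega
    omega
  have hhigh : (∀ C ∈ c3 K m0 u, 2 ≤ f2 (tw K m0).G C ∧ f2 (tw K m0).G C ≤ 3) →
      lV K m0 e.q u + 32 = lS K m0 u := by
    intro hv
    have h3 : lN K (m0 + 3) (fun C => 4 - f2 (tw K m0).G C) 4 u + lS K m0 u = 16 * 4 := by
      refine a_refl (fun C => 4 - f2 (tw K m0).G C) (f2 (tw K m0).G) u 4 fun C _ => ?_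
      have := f2_le C
      show 4 - f2 (tw K m0).G C + f2 (tw K m0).G C = 4
      omega
    have h4 : lN K (m0 + 3) (fun C => 4 - f2 (tw K m0).G C) 4 u + lV K m0 e.q u = 16 * 2 := by
      refine a_refl (fun C => 4 - f2 (tw K m0).G C) (ind (V2 (tw K m0).G e.q)) u 2
        fun C hC => ?_
      have h4 := hv C hC
      show 4 - f2 (tw K m0).G C + ind (V2 (tw K m0).G e.q) C = 2
      by_cases hC2 : C ∈ V2 (tw K m0).G e.q
      · rw [ind_in hC2, (h C hC).1 hC2]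
      · have h5 : f2 (tw K m0).G C ≠ 2 := fun h6 => hC2 ((h C hC).2 h6)
        rw [ind_out hC2]
        omega
    omega
  by_cases h3 : ∃ C ∈ c3 K m0 u, 3 ≤ f2 (tw K m0).G C
  · obtain ⟨C, hC, h3⟩ := h3
    have h4 : ∀ D ∈ c3 K m0 u, 2 ≤ f2 (tw K m0).G D := by
      intro D hD
      have := f2_nr hC hD
      omega
    by_cases h5 : ∃ D ∈ c3 K m0 u, f2 (tw K m0).G D = 2
    · obtain ⟨D, hD, h5⟩ := h5
      left
      refine hhigh fun E hE => ⟨h4 E hE, ?_⟩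
      have := f2_nr hE hD
      omega
    · push Not at h5
      have h6 : ∀ D ∈ c3 K m0 u, 3 ≤ f2 (tw K m0).G D := by
        intro D hD
        have h7 := h4 D hD
        have h8 := h5 D hD
        omega
      left
      by_cases h7 : ∃ D ∈ c3 K m0 u, 3 < f2 (tw K m0).G D
      · have h8 : 16 * 3 < lS K m0 u := a_gt (f2 (tw K m0).G) u 3 h6 h7
        omega
      · push Not at h7
        exact hhigh fun E hE => ⟨h4 E hE, h7 E hE⟩
  · push Not at h3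
    by_cases h5 : ∃ D ∈ c3 K m0 u, f2 (tw K m0).G D = 2
    · obtain ⟨D, hD, h5⟩ := h5
      right
      refine hlow fun E hE => ⟨Nat.le_of_lt_succ (h3 E hE), ?_⟩
      have := f2_nr hD hE
      omega
    · push Not at h5
      have h6 : ∀ D ∈ c3 K m0 u, f2 (tw K m0).G D ≤ 1 := by
        intro D hD
        have h7 := h3 D hD
        have h8 := h5 D hD
        omega
      right
      by_cases h7 : ∃ D ∈ c3 K m0 u, f2 (tw K m0).G D < 1
      · have h8 : lS K m0 u < 16 * 1 := a_lt (f2 (tw K m0).G) u 1 h6 h7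
        omega
      · push Not at h7
        refine hlow fun E hE => ⟨?_, h7 E hE⟩
        have := h6 E hE
        omega

theorem f2_eq_two {Vc : Type} {Gc : SimpleGraph Vc} (C : Cq (sd (sd Gc))) :
    f2 Gc C = 2 ↔ ∀ c ∈ C.1, (∃ s ∈ c.1, s.1.card ≤ 2) ∧ ∃ s ∈ c.1, 3 ≤ s.1.card := by
  rw [f2_two_iff]
  exact ⟨fun h c hc => f1_one_iff.1 (h c hc), fun h c hc => f1_one_iff.2 (h c hc)⟩

theorem d5V (e : Cq (tw K m0).G) (u : PV K m0) (h : lV K m0 e u ≤ 15) : e ∈ cr K m0 u := by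
  obtain ⟨C, hC, hV⟩ : ∃ C ∈ c3 K m0 u, C ∈ V2 (tw K m0).G e := by
    by_contra hn
    push Not at hn
    have h1 : 16 * 1 ≤ lV K m0 e u := a_ge (ind (V2 (tw K m0).G e)) u 1 fun C hC => (ind_out (hn C hC)).ge
    omega
  obtain ⟨c, hc⟩ := C.2.1
  exact ⟨c, ⟨C, hC, hc⟩, (hV c hc).1⟩

theorem d5U (e : Cq (tw K m0).G) (u : PV K m0) (h : lU K m0 e u ≤ 15) : e ∈ cr K m0 u := by
  obtain ⟨C, hC, hV⟩ : ∃ C ∈ c3 K m0 u, C ∈ PR (tw K m0).G e := by
    by_contra hn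
    push Not at hn
    have h1 : 16 * 1 ≤ lU K m0 e u := a_ge (ind (PR (tw K m0).G e)) u 1 fun C hC => (ind_out (hn C hC)).ge
    omega
  obtain ⟨c, hc, h1⟩ := hV
  exact ⟨c, ⟨C, hC, hc⟩, h1.1⟩

theorem d5D (s : Cq (tw K m0).G) (u : PV K m0) (h : lD K m0 s u ≤ 15) : s ∈ cr K m0 u := by
  obtain ⟨C, hC, hV⟩ : ∃ C ∈ c3 K m0 u, C ∈ PD (tw K m0).G s := by
    by_contra hn
    push Not at hn
    have h1 : 16 * 1 ≤ lD K m0 s u := a_ge (ind (PD (tw K m0).G s)) u 1 fun C hC => (ind_out (hn C hC)).ge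
    omega
  obtain ⟨c, hc, h1⟩ := hV
  exact ⟨c, ⟨C, hC, hc⟩, h1.1⟩

/-- near the thick disc of `e` the distance to the torus is the radial distance -/
theorem d3U (e : Ec (tw K m0).G) (u : PV K m0) (h : lU K m0 e.q u ≤ 15)
    (h1 : 16 ≤ lS K m0 u) (h2 : lS K m0 u ≤ 48) :
    lV K m0 e.q u + 32 = lS K m0 u ∨ lV K m0 e.q u + lS K m0 u = 32 := by
  obtain ⟨C₀, hC₀, hV⟩ : ∃ C ∈ c3 K m0 u, C ∈ PR (tw K m0).G e.q := by
    by_contra hn
    push Not at hn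
    have h3 : 16 * 1 ≤ lU K m0 e.q u := a_ge (ind (PR (tw K m0).G e.q)) u 1 fun C hC => (ind_out (hn C hC)).ge
    omega
  obtain ⟨c₀, hc₀, he, hle⟩ := hV
  refine d3 e u (fun C hC => ⟨fun h3 => V2_two (Ecard e).le h3, fun h3 => ?_⟩) h1 h2
  intro c hc
  obtain ⟨⟨s, hs, hs2⟩, h4⟩ := (f2_eq_two C).1 h3 c hc
  refine ⟨?_, h4⟩
  have h5 : c₀ ≤ c ∨ c ≤ c₀ := by
    by_cases hcc : c₀ = c
    · exact Or.inl hcc.le
    · exact c2_chain u ⟨C₀, hC₀, hc₀⟩ ⟨C, hC, hc⟩ hcc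
  rcases h5 with h5 | h5
  · exact Cq.le_iff.1 h5 he
  · have h6 : e.q ≤ s := hle s (Cq.le_iff.1 h5 hs)
    have h7 : e.q = s := by
      apply Subtype.ext
      refine Finset.eq_of_subset_of_card_le (Cq.le_iff.1 h6) ?_
      rw [Ecard e]
      exact hs2
    rw [h7]
    exact hs

theorem d4 (u : PV K m0) (h1 : 28 ≤ lS K m0 u) (h2 : lS K m0 u ≤ 36)
    (h : ∀ e : Ec (tw K m0).G, 5 ≤ lV K m0 e.q u) : ∃ v, vx (tw K m0).G v ∈ cr K m0 u := by
  by_contra hn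
  push Not at hn
  obtain ⟨C₁, hC₁, hf⟩ : ∃ C ∈ c3 K m0 u, f2 (tw K m0).G C = 2 := by
    by_contra hn2
    push Not at hn2
    by_cases h3 : ∃ C ∈ c3 K m0 u, 3 ≤ f2 (tw K m0).G C
    · obtain ⟨C, hC, h3⟩ := h3
      have h4 : 16 * 3 ≤ lS K m0 u := by
        refine a_ge (f2 (tw K m0).G) u 3 fun D hD => ?_
        have h5 := f2_nr hC hD
        have h6 := hn2 D hD
        omega
      omega
    · push Not at h3
      have h4 : lS K m0 u ≤ 16 * 1 := by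
        refine a_le (f2 (tw K m0).G) u 1 fun D hD => ?_
        have h5 := h3 D hD
        have h6 := hn2 D hD
        omega
      omega
  have small : ∀ s ∈ cr K m0 u, s.1.card ≤ 2 → s.1.card = 2 := by
    intro s hs h3
    have h4 : 0 < s.1.card := Finset.card_pos.2 s.2.1
    by_contra h5
    have h6 : s.1.card = 1 := by omega
    obtain ⟨v, hv⟩ := Finset.card_eq_one.1 h6
    apply hn v
    have h7 : vx (tw K m0).G v = s := Subtype.ext hv.symm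
    rw [h7]
    exact hs
  obtain ⟨c₁, hc₁⟩ := C₁.2.1
  obtain ⟨⟨s₁, hs₁, hs₂⟩, _⟩ := (f2_eq_two C₁).1 hf c₁ hc₁
  have hs₃ : s₁ ∈ cr K m0 u := ⟨c₁, ⟨C₁, hC₁, hc₁⟩, hs₁⟩
  have hs₄ : s₁.1.card = 2 := small s₁ hs₃ hs₂
  let e : Ec (tw K m0).G := ⟨s₁.1, hs₄, s₁.2.2⟩
  have heq : e.q = s₁ := Subtype.ext rfl
  have huniq : ∀ s ∈ cr K m0 u, s.1.card ≤ 2 → s = s₁ := by
    intro s hs h3
    have h4 := small s hs h3
    by_contra h5
    rcases cr_chain u hs hs₃ h5 with h6 | h6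
    · exact h5 (Subtype.ext (Finset.eq_of_subset_of_card_le (Cq.le_iff.1 h6) (by omega)))
    · exact h5 (Subtype.ext (Finset.eq_of_subset_of_card_le (Cq.le_iff.1 h6) (by omega)).symm)
  have h3 := d3 e u (fun C hC => ⟨fun h3 => V2_two (Ecard e).le h3, fun h3 => ?_⟩) (by omega)
    (by omega)
  · have h4 := h e
    rcases h3 with h3 | h3 <;> omega
  · intro c hc
    obtain ⟨⟨s, hs, hs2⟩, h4⟩ := (f2_eq_two C).1 h3 c hc
    refine ⟨?_, h4⟩
    rw [heq, ← huniq s ⟨c, ⟨C, hC, hc⟩, hs⟩ hs2]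
    exact hs

end MOT
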