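import Pool.Agent.MOT.Lab
import Pool.Agent.MOT.Start

/-!
# MOT/DmDef: the model sets in the domain (helper82)

`Gc` coarse complex (level `m0` of the domain tower).  Level `m0+1`: vertices = simplices of `Gc`; level
`m0+2`: vertices `c` = chains of simplices of `Gc`; level `m0+3`: vertices `C` = chains of such chains; position
level `m0+7`.
-/

open Classical

noncomputable section

namespace MOT

variable {Vc : Type}

/-- level `m0+1`: vertices and edges of `Gc` -/
def Xs (Gc : SimpleGraph Vc) : Set (Cq Gc) := {s | s.1.card ≤ 2}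

/-- level `m0+2`: chains through `e` with an element of dimension `≥ 2` (solid torus around `e`) -/
def V1 (Gc : SimpleGraph Vc) (e : Cq Gc) : Set (Cq (sd Gc)) :=
  {c | e ∈ c.1 ∧ ∃ s ∈ c.1, 3 ≤ s.1.card}

/-- level `m0+2`: chains with smallest element `e` (disc dual to the edge `e`) -/
def R1 (Gc : SimpleGraph Vc) (e : Cq Gc) : Set (Cq (sd Gc)) := {c | e ∈ c.1 ∧ ∀ s ∈ c.1, e ≤ s}

/-- level `m0+2`: chains with largest element `s` (the triangle `s`) -/
def D1 (Gc : SimpleGraph Vc) (s : Cq Gc) : Set (Cq (sd Gc)) := {c | s ∈ c.1 ∧ ∀ u ∈ c.1, u ≤ s}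

/-- level `m0+3` -/
def V2 (Gc : SimpleGraph Vc) (e : Cq Gc) : Set (Cq (sd (sd Gc))) := mi (sd (sd Gc)) (V1 Gc e)

/-- level `m0+3` -/
def PR (Gc : SimpleGraph Vc) (e : Cq Gc) : Set (Cq (sd (sd Gc))) := pl (sd (sd Gc)) (R1 Gc e)

/-- level `m0+3` -/
def PD (Gc : SimpleGraph Vc) (s : Cq Gc) : Set (Cq (sd (sd Gc))) := pl (sd (sd Gc)) (D1 Gc s)

/-- level `m0+3`: radial position `0..4` -/
def f2 (Gc : SimpleGraph Vc) : Cq (sd (sd Gc)) → ℕ := lsd (lsd (ind (Xs Gc)))

section tower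

variable (K : Lv) (m0 : ℕ)

/-- position level -/
abbrev PV : Type := (tw K (m0 + 7)).V

/-- radial position `0..64` -/
def lS : PV K m0 → ℕ := lN K (m0 + 3) (f2 (tw K m0).G) 4

/-- position relative to the solid torus of `e`, `0..16` -/
def lV (e : Cq (tw K m0).G) : PV K m0 → ℕ := lN K (m0 + 3) (ind (V2 (tw K m0).G e)) 4

/-- position relative to the thick disc dual to `e`, `0..16` -/
def lU (e : Cq (tw K m0).G) : PV K m0 → ℕ := lN K (m0 + 3) (ind (PR (tw K m0).G e)) 4

/-- position relative to the thick triangle `s`, `0..16` -/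
def lD (s : Cq (tw K m0).G) : PV K m0 → ℕ := lN K (m0 + 3) (ind (PD (tw K m0).G s)) 4

/-- carrier on level `m0+3` -/
def c3 (u : PV K m0) : Set (Cq (sd (sd (tw K m0).G))) := car K (m0 + 3) 4 u

/-- carrier on level `m0+2` -/
def c2 (u : PV K m0) : Set (Cq (sd (tw K m0).G)) := {c | ∃ C ∈ c3 K m0 u, c ∈ C.1}

/-- carrier on level `m0+1`: a chain of simplices of the coarse complex -/
def cr (u : PV K m0) : Set (Cq (tw K m0).G) := {s | ∃ c ∈ c2 K m0 u, s ∈ c.1}

end tower

end MOT
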