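import Pool.Agent.MOT.Sdi

/-!
# MOT/DmG: glueing a cocycle with zero (helper82)

`glue0`: `a` a cocycle of `D ∩ M` which is a coboundary `d f` on the frontier of `M` inside `D` (level `sd`).  On
`N = mi G D` put `w' s t = a (pkm s) (pkm t) + f s + f t` if `s, t ∈ pl G M` (`f` := `0` outside `mi G D ∩ Fr G M`), `0`
otherwise.  An edge between `s ∈ pl G M` and `t ∉ pl G M` has `t < s`, `s ∈ Fr G M`; a triangle `s, s', t` with
`t ∉ pl G M` has `s, s' ∈ Fr G M`, so `w' s s' = 0`: `w'` is a cocycle of `mi G D`.  `w = dnc G D w'` (`dnc_mem`).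
`w + a` on `D ∩ M`: `w' + upc a` is trivial on `mi G (D ∩ M)` (there `pkm` and `pk` are both choices of a
vertex: contiguous, `pbk_contig`), use `Triv_dnc`, `Triv_upc`.  `w = 0` on `D \ M`.
-/

open Classical

noncomputable section

namespace MOT

variable {V : Type} {G : SimpleGraph V}

/-- a vertex of `s` in `M` if there is one -/
def pkm (M : Set V) (s : Cq G) : V := if h : ∃ x ∈ s.1, x ∈ M then h.choose else pk s

theorem pkm_mem {M : Set V} {s : Cq G} (h : s ∈ pl G M) : pkm M s ∈ s.1 ∧ pkm M s ∈ M := by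
  have h' : ∃ x ∈ s.1, x ∈ M := h
  unfold pkm
  rw [dif_pos h']
  exact h'.choose_spec

/-- cocycle identity for vertices which are pairwise equal or adjacent -/
private theorem dmg_z1 {D : Set V} {a : V → V → ZMod 2} (ha : a ∈ Z1 G D) {x y z : V}
    (hx : x ∈ D) (hy : y ∈ D) (hz : z ∈ D) (h1 : x = y ∨ G.Adj x y) (h2 : y = z ∨ G.Adj y z)
    (h3 : x = z ∨ G.Adj x z) : a x y + a y z = a x z := by
  obtain ⟨h0, hs, hc⟩ := ha
  have d : ∀ u, a u u = 0 := fun u => h0 u u (fun h => h.1.ne rfl)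
  rcases h1 with h1 | h1
  · subst h1
    rw [d, zero_add]
  rcases h2 with h2 | h2
  · subst h2
    rw [d, add_zero]
  rcases h3 with h3 | h3
  · subst h3
    rw [hs y x, d]
    exact two_add _
  exact hc x y z ⟨h1, hx, hy⟩ ⟨h2, hy, hz⟩ ⟨h3, hx, hz⟩

private theorem dmg_nr {M : Set V} {s t : Cq G} (e : (sd G).Adj s t) (hs : s ∈ pl G M)
    (ht : t ∈ pl G M) : pkm M s = pkm M t ∨ G.Adj (pkm M s) (pkm M t) := by
  by_cases h : pkm M s = pkm M t
  · exact Or.inl h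
  · right
    rcases e with e | e
    · exact t.2.2 (Finset.mem_coe.2 ((Cq.le_iff.1 e.le) (pkm_mem hs).1))
        (Finset.mem_coe.2 (pkm_mem ht).1) h
    · exact s.2.2 (Finset.mem_coe.2 (pkm_mem hs).1)
        (Finset.mem_coe.2 ((Cq.le_iff.1 e.le) (pkm_mem ht).1)) h

private theorem dmg_lt {x y : V} (e : G.Adj x y) : vx G x < eg G e ∧ vx G y < eg G e := by
  constructor
  · rw [Cq.lt_iff]
    refine ⟨by simp [vx, eg], fun hh => ?_⟩
    have h1 : y ∈ (vx G x).1 := hh (by simp [eg])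
    exact e.ne (by simpa [vx] using h1 : y = x).symm
  · rw [Cq.lt_iff]
    refine ⟨by simp [vx, eg], fun hh => ?_⟩
    have h1 : x ∈ (vx G y).1 := hh (by simp [eg])
    exact e.ne (by simpa [vx] using h1 : x = y)

theorem glue0 {D M : Set V} {a : V → V → ZMod 2} (ha : a ∈ Z1 G (D ∩ M))
    (h : Triv (sd G) (mi G D ∩ Fr G M) (fun s t => a (pkm M s) (pkm M t))) :
    ∃ w ∈ Z1 G D, Triv G (D ∩ M) (w + a) ∧ Triv G (D \ M) w := by
  obtain ⟨f, hf⟩ := h
  obtain ⟨a0, as, ac⟩ := mem_Z1.1 ha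
  have d : ∀ u, a u u = 0 := fun u => a0 u u fun h => h.1.ne rfl
  set F : Set (Cq G) := mi G D ∩ Fr G M with hF
  set f' : Cq G → ZMod 2 := fun s => if s ∈ F then f s else 0 with hf'
  set w' : Cq G → Cq G → ZMod 2 := fun s t =>
    if EIn (sd G) (mi G D) s t ∧ s ∈ pl G M ∧ t ∈ pl G M then
      a (pkm M s) (pkm M t) + f' s + f' t else 0 with hw'
  have hpos : ∀ s t, EIn (sd G) (mi G D) s t → s ∈ pl G M → t ∈ pl G M →
      w' s t = a (pkm M s) (pkm M t) + f' s + f' t := fun s t h1 h2 h3 => if_pos ⟨h1, h2, h3⟩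
  have hn1 : ∀ s t, s ∉ pl G M → w' s t = 0 := fun s t h1 => if_neg fun h2 => h1 h2.2.1
  have hn2 : ∀ s t, t ∉ pl G M → w' s t = 0 := fun s t h1 => if_neg fun h2 => h1 h2.2.2
  have hFr : ∀ u z, (sd G).Adj u z → u ∈ mi G D → u ∈ pl G M → z ∉ pl G M → u ∈ F := by
    intro u z e hu hu' hz
    refine ⟨hu, hu', ?_⟩
    rcases e with h1 | h1
    · obtain ⟨x, hx, hxM⟩ := hu'
      exact absurd ⟨x, (Cq.le_iff.1 h1.le) hx, hxM⟩ hz
    · obtain ⟨v, hv⟩ := z.2.1
      exact ⟨v, (Cq.le_iff.1 h1.le) hv, fun hm => hz ⟨v, hv, hm⟩⟩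
  have hFF : ∀ u v, EIn (sd G) (mi G D) u v → u ∈ F → v ∈ F → w' u v = 0 := by
    intro u v e hu hv
    have e1 : f' u = f u := if_pos hu
    have e2 : f' v = f v := if_pos hv
    have e3 : a (pkm M u) (pkm M v) = f u + f v := hf u v ⟨e.1, hu, hv⟩
    rw [hpos u v e hu.2.1 hv.2.1, e1, e2, e3, add_assoc]
    exact two_add _
  have hE : ∀ p q r, EIn (sd G) (mi G D) p q → (sd G).Adj p r → (sd G).Adj q r → r ∉ pl G M →
      w' p q = 0 := by
    intro p q r e e1 e2 hr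
    by_cases hp : p ∈ pl G M
    · by_cases hq : q ∈ pl G M
      · exact hFF p q e (hFr p r e1 e.2.1 hp hr) (hFr q r e2 e.2.2 hq hr)
      · exact hn2 p q hq
    · exact hn1 p q hp
  have hmem : ∀ s, s ∈ mi G D → s ∈ pl G M → pkm M s ∈ D ∩ M := fun s h1 h2 =>
    ⟨h1 _ (pkm_mem h2).1, (pkm_mem h2).2⟩
  have hw : w' ∈ Z1 (sd G) (mi G D) := by
    refine mem_Z1.2 ⟨fun x y e => if_neg fun h1 => e h1.1, fun x y => ?_, fun x y z e1 e2 e3 => ?_⟩
    · by_cases h1 : EIn (sd G) (mi G D) x y ∧ x ∈ pl G M ∧ y ∈ pl G M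
      · rw [hpos x y h1.1 h1.2.1 h1.2.2, hpos y x h1.1.symm h1.2.2 h1.2.1,
          as (pkm M x) (pkm M y)]
        ring
      · have h2 : w' x y = 0 := if_neg h1
        have h3 : w' y x = 0 := if_neg fun h4 => h1 ⟨h4.1.symm, h4.2.2, h4.2.1⟩
        rw [h2, h3]
    · by_cases hx : x ∈ pl G M
      · by_cases hy : y ∈ pl G M
        · by_cases hz : z ∈ pl G M
          · rw [hpos x y e1 hx hy, hpos y z e2 hy hz, hpos x z e3 hx hz]
            have h1 := dmg_z1 ha (hmem x e1.2.1 hx) (hmem y e1.2.2 hy) (hmem z e2.2.2 hz)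
              (dmg_nr e1.1 hx hy) (dmg_nr e2.1 hy hz) (dmg_nr e3.1 hx hz)
            have h2 := two_add (f' y)
            linear_combination h1 + h2
          · rw [hE x y z e1 e3.1 e2.1 hz, hn2 y z hz, hn2 x z hz, add_zero]
        · rw [hn2 x y hy, hn1 y z hy, hE x z y e3 e1.1 e2.1.symm hy, add_zero]
      · rw [hn1 x y hx, hn1 x z hx, hE y z x e2 e1.1.symm e3.1.symm hx, add_zero]
  refine ⟨dnc G D w', dnc_mem hw, ⟨0, fun x y e => ?_⟩, ⟨0, fun x y e => ?_⟩⟩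
  · have eD : EIn G D x y := ⟨e.1, e.2.1.1, e.2.2.1⟩
    have h1 : dnc G D w' x y = w' (vx G x) (eg G eD.1) + w' (eg G eD.1) (vx G y) := dif_pos eD
    have mx : ∀ z ∈ (vx G x).1, z ∈ D ∩ M := fun z hz => by
      rw [show z = x by simpa [vx] using hz]
      exact e.2.1
    have my : ∀ z ∈ (vx G y).1, z ∈ D ∩ M := fun z hz => by
      rw [show z = y by simpa [vx] using hz]
      exact e.2.2
    have me : ∀ z ∈ (eg G eD.1).1, z ∈ D ∩ M := fun z hz => by
      have h2 : z = x ∨ z = y := by simpa [eg] using hz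
      rcases h2 with h2 | h2
      · rw [h2]
        exact e.2.1
      · rw [h2]
        exact e.2.2
    have hz0 : ∀ s : Cq G, (∀ z ∈ s.1, z ∈ D ∩ M) → f' s = 0 := by
      intro s hs
      refine if_neg fun h2 => ?_
      obtain ⟨z, hz, hzM⟩ := h2.2.2
      exact hzM (hs z hz).2
    have hpl : ∀ s : Cq G, (∀ z ∈ s.1, z ∈ D ∩ M) → s ∈ pl G M := fun s hs =>
      mi_sub_pl fun z hz => (hs z hz).2
    have hmi : ∀ s : Cq G, (∀ z ∈ s.1, z ∈ D ∩ M) → s ∈ mi G D := fun s hs z hz => (hs z hz).1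
    have px : pkm M (vx G x) = x := by simpa [vx] using (pkm_mem (hpl _ mx)).1
    have py : pkm M (vx G y) = y := by simpa [vx] using (pkm_mem (hpl _ my)).1
    have pe : pkm M (eg G eD.1) = x ∨ pkm M (eg G eD.1) = y := by
      simpa [eg] using (pkm_mem (hpl _ me)).1
    have h2 : dnc G D w' x y = a x y := by
      rw [h1, hpos _ _ ⟨Or.inl (dmg_lt eD.1).1, hmi _ mx, hmi _ me⟩ (hpl _ mx) (hpl _ me),
        hpos _ _ ⟨Or.inr (dmg_lt eD.1).2, hmi _ me, hmi _ my⟩ (hpl _ me) (hpl _ my), px, py,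
        hz0 _ mx, hz0 _ my, hz0 _ me]
      rcases pe with pe | pe
      · rw [pe, d]
        ring
      · rw [pe, d]
        ring
    rw [Pi.add_apply, Pi.add_apply, h2, two_add]
    simp
  · have eD : EIn G D x y := ⟨e.1, e.2.1.1, e.2.2.1⟩
    have h1 : dnc G D w' x y = w' (vx G x) (eg G eD.1) + w' (eg G eD.1) (vx G y) := dif_pos eD
    have nx : vx G x ∉ pl G M := by
      rintro ⟨z, hz, hzM⟩
      rw [show z = x by simpa [vx] using hz] at hzM
      exact e.2.1.2 hzM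
    have ny : vx G y ∉ pl G M := by
      rintro ⟨z, hz, hzM⟩
      rw [show z = y by simpa [vx] using hz] at hzM
      exact e.2.2.2 hzM
    rw [h1, hn1 _ _ nx, hn2 _ _ ny]
    simp

end MOT
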