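import Pool.Agent.MOT.DmX
import Pool.Agent.MOT.DmG
import Pool.Agent.MOT.CyE

/-!
# MOT/DmH: the circle above an edge and the circle below a triangle (helper82)

Level `m0+1` = `sd Gc`.  `Up e` = simplices strictly above the edge `e` (triangles and tetrahedra, alternating
around the cycle `Lk Gc e`): a cycle.  `Lo s` = vertices and edges of the triangle `s`: a cycle with six
vertices.  `wsX s` restricted to `Up e` (`e ⊆ s`) is the indicator of one edge `{s, t0 s}` of the cycle: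
not a coboundary (the cycle minus an edge is connected).  Two cocycles of a cycle which are not coboundaries
have a sum which is a coboundary (`H^1` of a cycle has dimension one).
-/

open Classical

noncomputable section

namespace MOT

section coarse

variable {Vc : Type} {Gc : SimpleGraph Vc}

/-- strictly above `e` -/
def Up (e : Cq Gc) : Set (Cq Gc) := {σ | e < σ}

/-- strictly below `s` -/
def Lo (s : Cq Gc) : Set (Cq Gc) := {σ | σ < s}

private theorem clt_h10 {s t : Cq Gc} (h : s < t) : s.1.card < t.1.card :=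
  Finset.card_lt_card (Cq.lt_iff.1 h)

theorem up_cyc [Finite Vc] (h : IsSph3 Gc) (e : Ec Gc) : IsCyc (sd Gc) (Up e.q) :=
  above_cyc h e.q e.2.1

theorem lo_cyc (s : Fc Gc) : IsCyc (sd Gc) (Lo s.q) := below_cyc s.q s.2.1

private theorem up_no_h10 (h : IsSph3 Gc) (e : Ec Gc) (x y z : Cq Gc)
    (h1 : EIn (sd Gc) (Up e.q) x y) (h2 : EIn (sd Gc) (Up e.q) y z)
    (h3 : EIn (sd Gc) (Up e.q) x z) : False := by
  have he : e.q.1.card = 2 := e.2.1
  have kx := h.k5 x.1 x.2.2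
  have ky := h.k5 y.1 y.2.2
  have kz := h.k5 z.1 z.2.2
  have lx := clt_h10 (show e.q < x from h1.2.1)
  have ly := clt_h10 (show e.q < y from h1.2.2)
  have lz := clt_h10 (show e.q < z from h2.2.2)
  rcases h1.1 with a | a <;> rcases h2.1 with b | b <;> rcases h3.1 with c | c <;>
    have a' := clt_h10 a <;> have b' := clt_h10 b <;> have c' := clt_h10 c <;> omega

private theorem lo_no_h10 (s : Fc Gc) (x y z : Cq Gc)
    (h1 : EIn (sd Gc) (Lo s.q) x y) (h2 : EIn (sd Gc) (Lo s.q) y z)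
    (h3 : EIn (sd Gc) (Lo s.q) x z) : False := by
  have he : s.q.1.card = 3 := s.2.1
  have kx := Finset.card_pos.2 x.2.1
  have ky := Finset.card_pos.2 y.2.1
  have kz := Finset.card_pos.2 z.2.1
  have lx := clt_h10 (show x < s.q from h1.2.1)
  have ly := clt_h10 (show y < s.q from h1.2.2)
  have lz := clt_h10 (show z < s.q from h2.2.2)
  rcases h1.1 with a | a <;> rcases h2.1 with b | b <;> rcases h3.1 with c | c <;>
    have a' := clt_h10 a <;> have b' := clt_h10 b <;> have c' := clt_h10 c <;> omega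

private theorem rsZ_h10 {V : Type} {G : SimpleGraph V} {C : Set V}
    (h3 : ∀ x y z, EIn G C x y → EIn G C y z → EIn G C x z → False) {a : V → V → ZMod 2}
    (ha : ∀ x y, a x y = a y x) : rs G C a ∈ Z1 G C := by
  refine mem_Z1.2 ⟨fun x y e => if_neg e, fun x y => ?_, fun x y z e1 e2 e3 =>
    (h3 x y z e1 e2 e3).elim⟩
  unfold rs
  by_cases e : EIn G C x y
  · rw [if_pos e, if_pos e.symm, ha]
  · rw [if_neg e, if_neg (fun e' => e e'.symm)]

/-- no triangles in `Up e`: every symmetric cochain is a cocycle -/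
theorem up_Z1 (h : IsSph3 Gc) (e : Ec Gc) {a : Cq Gc → Cq Gc → ZMod 2} (ha : ∀ x y, a x y = a y x) :
    rs (sd Gc) (Up e.q) a ∈ Z1 (sd Gc) (Up e.q) :=
  rsZ_h10 (up_no_h10 h e) ha

theorem lo_Z1 (s : Fc Gc) {a : Cq Gc → Cq Gc → ZMod 2} (ha : ∀ x y, a x y = a y x) :
    rs (sd Gc) (Lo s.q) a ∈ Z1 (sd Gc) (Lo s.q) :=
  rsZ_h10 (lo_no_h10 s) ha

private theorem up_two_h10 [Finite Vc] (h : IsSph3 Gc) (e : Ec Gc) : TwoReg (sd Gc) (Up e.q) :=
  ⟨(up_cyc h e).2, up_no_h10 h e⟩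

private theorem lo_two_h10 (s : Fc Gc) : TwoReg (sd Gc) (Lo s.q) :=
  ⟨(lo_cyc s).2, lo_no_h10 s⟩

private theorem lt_h10 {s t : Cq Gc} (h : s.1 ⊆ t.1) (hc : s.1.card < t.1.card) : s < t := by
  rw [Cq.lt_iff]
  exact ⟨h, fun e => absurd (Finset.card_le_card e) (not_le.2 hc)⟩

theorem wsX_up [Finite Vc] (h : IsSph3 Gc) {e : Ec Gc} {s : Fc Gc} (hes : e.1 ⊆ s.1) :
    ¬ Triv (sd Gc) (Up e.q) (wsX s) := by
  have he : e.q.1.card = 2 := e.2.1
  have hs : s.q.1.card = 3 := s.2.1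
  obtain ⟨ht, hst⟩ := t0_spec h s
  have h1 : e.q < s.q := lt_h10 hes (by omega)
  have h2 : s.q < t0 s := lt_h10 hst (by rw [hs, ht.1]; omega)
  exact cyc_ed1 (up_two_h10 h e) ⟨Or.inl h2, h1, h1.trans h2⟩

private theorem face_h10 (s : Fc Gc) {t : Finset Vc} (hn : t.Nonempty) (ht : t ⊆ s.1)
    (hc : t.card < 3) : ∃ q ∈ Lo s.q, q.1 = t :=
  ⟨⟨t, hn, s.2.2.subset (Finset.coe_subset.2 ht)⟩, lt_h10 ht (by rw [show s.q.1.card = 3 from s.2.1]; exact hc),
    rfl⟩

theorem weX_lo {e : Ec Gc} {s : Fc Gc} (hes : e.1 ⊆ s.1) :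
    ¬ Triv (sd Gc) (Lo s.q) (weX e) := by
  rintro ⟨f, hf⟩
  have hs : s.1.card = 3 := s.2.1
  have hab := e1_eq e
  have hne := e1_ne e
  have hbe : e1 e ∈ e.1 := by rw [hab]; simp
  have hae : e0 e ∈ e.1 := by rw [hab]; simp
  obtain ⟨c, hcs, hce⟩ : ∃ c ∈ s.1, c ∉ e.1 := by
    by_contra hn
    push Not at hn
    have h1 := Finset.card_le_card (show s.1 ⊆ e.1 from hn)
    rw [hs, e.2.1] at h1
    omega
  have hca : c ≠ e0 e := fun h => hce (h ▸ hae)
  have hcb : c ≠ e1 e := fun h => hce (h ▸ hbe)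
  have has := hes hae
  have hbs := hes hbe
  have sub2 : ∀ x ∈ s.1, ∀ y ∈ s.1, ({x, y} : Finset Vc) ⊆ s.1 := by
    intro x hx y hy z hz
    rw [Finset.mem_insert, Finset.mem_singleton] at hz
    rcases hz with rfl | rfl
    · exact hx
    · exact hy
  obtain ⟨A, hA, eA⟩ := face_h10 s (Finset.singleton_nonempty (e0 e))
    (Finset.singleton_subset_iff.2 has) (by rw [Finset.card_singleton]; norm_num)
  obtain ⟨B, hB, eB⟩ := face_h10 s (Finset.singleton_nonempty (e1 e))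
    (Finset.singleton_subset_iff.2 hbs) (by rw [Finset.card_singleton]; norm_num)
  obtain ⟨C, hC, eC⟩ := face_h10 s (Finset.singleton_nonempty c)
    (Finset.singleton_subset_iff.2 hcs) (by rw [Finset.card_singleton]; norm_num)
  obtain ⟨E, hE, eE⟩ := face_h10 s ⟨_, hae⟩ hes (by rw [e.2.1]; norm_num)
  obtain ⟨BC, hBC, eBC⟩ := face_h10 s (Finset.insert_nonempty (e1 e) {c}) (sub2 _ hbs _ hcs)
    (by rw [Finset.card_pair hcb.symm]; norm_num)
  obtain ⟨AC, hAC, eAC⟩ := face_h10 s (Finset.insert_nonempty (e0 e) {c}) (sub2 _ has _ hcs)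
    (by rw [Finset.card_pair hca.symm]; norm_num)
  have qA : A = vx Gc (e0 e) := Subtype.ext eA
  have qE : E = e.q := Subtype.ext eE
  have adj : ∀ x y : Cq Gc, x ∈ Lo s.q → y ∈ Lo s.q → x.1.card = 1 → y.1.card = 2 → x.1 ⊆ y.1 →
      EIn (sd Gc) (Lo s.q) x y := fun x y hx hy h1 h2 h3 => ⟨Or.inl (lt_h10 h3 (by omega)), hx, hy⟩
  have zero : ∀ x y : Cq Gc, ¬ (x = A ∧ y = E) → y ≠ A → EIn (sd Gc) (Lo s.q) x y →
      f x = f y := by
    intro x y h1 h2 h3
    have h4 := hf x y h3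
    have h5 : weX e x y = 0 := by
      refine if_neg ?_
      rw [← qA, ← qE]
      rintro (h | h)
      · exact h1 h
      · exact h2 h.1
    rw [h5] at h4
    exact (z2_eq _ _).1 h4.symm
  have cA : A.1.card = 1 := by rw [eA]; exact Finset.card_singleton _
  have cB : B.1.card = 1 := by rw [eB]; exact Finset.card_singleton _
  have cC : C.1.card = 1 := by rw [eC]; exact Finset.card_singleton _
  have cE : E.1.card = 2 := by rw [eE]; exact e.2.1
  have cBC : BC.1.card = 2 := by rw [eBC]; exact Finset.card_pair hcb.symm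
  have cAC : AC.1.card = 2 := by rw [eAC]; exact Finset.card_pair hca.symm
  have ne1 : ∀ x : Cq Gc, x.1.card = 2 → x ≠ A := by
    rintro x h rfl
    omega
  have nB : B ≠ A := by
    rintro rfl
    exact hne (Finset.singleton_injective (eB.symm.trans eA))
  have nC : C ≠ A := by
    rintro rfl
    exact hca (Finset.singleton_injective (eC.symm.trans eA))
  have nAC : AC ≠ E := by
    intro h
    apply hce
    rw [← eE, ← h, eAC]
    simp
  have s1 := zero B E (fun h => nB h.1) (ne1 _ cE) (adj B E hB hE cB cE (by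
    rw [eB, eE]; exact Finset.singleton_subset_iff.2 hbe))
  have s2 := zero B BC (fun h => nB h.1) (ne1 _ cBC) (adj B BC hB hBC cB cBC (by
    rw [eB, eBC]; simp))
  have s3 := zero C BC (fun h => nC h.1) (ne1 _ cBC) (adj C BC hC hBC cC cBC (by
    rw [eC, eBC]; simp))
  have s4 := zero C AC (fun h => nC h.1) (ne1 _ cAC) (adj C AC hC hAC cC cAC (by
    rw [eC, eAC]; simp))
  have s5 := zero A AC (fun h => nAC h.2) (ne1 _ cAC) (adj A AC hA hAC cA cAC (by
    rw [eA, eAC]; simp))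
  have s6 := hf A E (adj A E hA hE cA cE (by
    rw [eA, eE]; exact Finset.singleton_subset_iff.2 hae))
  have s7 : weX e A E = 1 := if_pos (Or.inl ⟨qA, qE⟩)
  have s8 : f A = f E := by rw [s5, ← s4, s3, ← s2, s1]
  rw [s7, s8, two_add] at s6
  exact one_ne_zero s6

theorem wsX_up2 [Finite Vc] (h : IsSph3 Gc) {e : Ec Gc} {s s' : Fc Gc} (hes : e.1 ⊆ s.1)
    (hes' : e.1 ⊆ s'.1) : Triv (sd Gc) (Up e.q) (wsX s + wsX s') := by
  have hs : ∀ s : Fc Gc, ∀ x y, wsX s x y = wsX s y x := fun s x y => if_congr or_comm rfl rfl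
  have h1 := cyc_sum (up_cyc h e) (up_Z1 h e (hs s)) (up_Z1 h e (hs s'))
    (fun t => wsX_up h hes (Triv_rs.1 t)) (fun t => wsX_up h hes' (Triv_rs.1 t))
  refine h1.congr fun x y e => ?_
  simp only [Pi.add_apply, rs_apply e]

theorem weX_lo2 [Finite Vc] {e e' : Ec Gc} {s : Fc Gc} (hes : e.1 ⊆ s.1) (hes' : e'.1 ⊆ s.1) :
    Triv (sd Gc) (Lo s.q) (weX e + weX e') := by
  have hs : ∀ e : Ec Gc, ∀ x y, weX e x y = weX e y x := fun e x y => if_congr or_comm rfl rfl
  have h1 := cyc_sum (lo_cyc s) (lo_Z1 s (hs e)) (lo_Z1 s (hs e'))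
    (fun t => weX_lo hes (Triv_rs.1 t)) (fun t => weX_lo hes' (Triv_rs.1 t))
  refine h1.congr fun x y e => ?_
  simp only [Pi.add_apply, rs_apply e]

/-- every edge lies in a triangle -/
theorem ex_tri (h : IsSph3 Gc) (e : Ec Gc) : ∃ s : Fc Gc, e.1 ⊆ s.1 := by
  obtain ⟨⟨x, hx⟩, -⟩ := (h.edge e.1 e.2.2 e.2.1).1
  have hxe : x ∉ e.1 := fun hm => (hx x hm).ne rfl
  refine ⟨⟨insert x e.1, ?_, ?_⟩, Finset.subset_insert _ _⟩
  · rw [Finset.card_insert_of_notMem hxe, e.2.1]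
  · rw [Finset.coe_insert]
    exact e.2.2.insert fun b hb _ => (hx b hb).symm

theorem ex_edge (s : Fc Gc) : ∃ e : Ec Gc, e.1 ⊆ s.1 := by
  obtain ⟨t, ht, hc⟩ := Finset.exists_subset_card_eq (show 2 ≤ s.1.card by rw [s.2.1]; norm_num)
  exact ⟨⟨t, hc, s.2.2.subset (Finset.coe_subset.2 ht)⟩, ht⟩

end coarse

end MOT
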