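import Pool.Agent.MOT.DmH

/-!
# MOT/DmI: H^1 of neighbourhoods of an edge / a triangle at the position level, nontrivial circles (helper82)

`in2 E` = positions with `c2 u ⊆ E` (`c2 u = car K (m0+2) 5 u`, so `in2 E = miN K (m0+2) E 5`; use
`lift_choice`, `Triv_choice`, or `sd_HZ`).

(em_HZ) `Em e = {c | e ∈ c}` is a cone: every `c` is `≥ {e}`.
(ep_gen), (pu_gen), (r2_gen): `c ↦ c ∩ Up e` retracts `Ep e`, `pl (Up e)`, `R2 e` onto `mi (Up e)`, whose `H^1` is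
that of the cycle `Up e` (`up_cyc`, `sd_...`), generated by `wsX s` (`cyc_sum`, `wsX_up`).  At the position level
`wsD s = wsX s` at the largest elements (which lie in `Up e` here); compare with any other choice by `pbk_contig`.

(ws_R1) level `m0+6`: `l6 = lN K (m0+3) f2 3`, values `0..32`, `lS` on level `m0+7` is `lsd l6`, so
`lS q = 29` iff `q` is mixed for `M = {15 ≤ l6}`.  `D = {c2 ⊆ R1 e}` has `H^1 = 0` (cone with apex `{e}`).  If `wsD s` were trivial on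
`mi D ∩ Fr M` then by `glue0` the cocycle `wsX s (max, max)` of `D ∩ M` would be trivial (all positions of `D ∩ M` have a
largest element `> e`).  But `D ∩ M` contains all positions with `c2 ⊆ R1 e \ {{e}}` (there `f1 = 1`, `f2 = 2`, `l6 = 16`), and
`R1 e \ {{e}}` is a copy of `mi (Up e)` (`c ↦ c \ {e}`), so the class is not trivial there.
(ws_R2) `i = 2 j + 1`, `M = {l6 ≤ j}`, `D = {c2 ⊆ R2 e}`, `H^1(D)` generated by the class: if trivial on the frontier,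
`glue0` gives `w ∈ Z1 D`, `w ~ wsD` on `D ∩ M`, `w ~ 0` on `D \ M`; `w ~ 0` or `w ~ wsD` on `D`; but `wsD` is nontrivial on
`D ∩ M` (contains `c2 ⊆ R1 e \ {{e}}`, `l6 = 16 ≤ j`) and on `D \ M` (contains `c2 ⊆ mi (Up e)`, `l6 = 32 > j`).
(we_D2) is the dual statement (smallest elements, `Lo s` instead of `Up e`, `f1 = 0` on chains in `Lo s`, `1` on mixed ones).
-/

open Classical

noncomputable section

namespace MOT

/-! ### selections of elements of the carrier (two levels below) in a set `X` -/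

private theorem rsn_h12 {V : Type} {G : SimpleGraph V} {A : Set V} {a : V → V → ZMod 2}
    {x y : V} (h0 : x = y → a x y = 0) (hx : x ∈ A) (hy : y ∈ A) (h : Nr G x y) :
    rs G A a x y = a x y := by
  by_cases e : x = y
  · rw [h0 e]
    exact if_neg fun h => h.1.ne e
  · exact rs_apply ⟨h.resolve_left e, hx, hy⟩

private theorem z1d_h12 {V : Type} {G : SimpleGraph V} {A : Set V} {a : V → V → ZMod 2}
    (ha : a ∈ Z1 G A) (x : V) : a x x = 0 := (mem_Z1.1 ha).1 x x (fun h => h.1.ne rfl)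

private theorem swp_h12 {V : Type} {G : SimpleGraph V} {B : Set V}
    {a b : V → V → ZMod 2} (h : Triv G B (a + b)) : Triv G B a ↔ Triv G B b := by
  constructor
  · intro h1
    refine (h.add h1).congr fun x y _ => ?_
    simp only [Pi.add_apply]
    linear_combination two_add (a x y)
  · intro h1
    refine (h.add h1).congr fun x y _ => ?_
    simp only [Pi.add_apply]
    linear_combination two_add (b x y)

/-- `J` contains a copy of `mi X` (for cochains pulled back from `X`) -/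
private def Cpy {V : Type} (G : SimpleGraph V) (X : Set V) (J : Set (Cq G)) : Prop :=
  J ⊆ pl G X ∧ ∃ j : Cq G → Cq G, (∀ c ∈ mi G X, j c ∈ J) ∧
    (∀ c ∈ mi G X, ∀ d ∈ mi G X, c ≤ d → j c ≤ j d) ∧
    ∀ c ∈ mi G X, ∀ s ∈ (j c).1, s ∈ X → s ∈ c.1

private theorem Cpy_mi {V : Type} {G : SimpleGraph V} {X : Set V} : Cpy G X (mi G X) :=
  ⟨mi_sub_pl, id, fun _ h => h, fun _ _ _ _ h => h, fun _ _ _ h _ => h⟩

/-- add a vertex to a simplex -/
private def insz {V : Type} {G : SimpleGraph V} (z : V) (c : Cq G) : Cq G :=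
  if h : ∀ x ∈ c.1, G.Adj z x then ⟨insert z c.1, Finset.insert_nonempty _ _, by
    rw [Finset.coe_insert]
    exact c.2.2.insert fun x hx _ => h x (Finset.mem_coe.1 hx)⟩ else c

private theorem insz_mem {V : Type} {G : SimpleGraph V} {z : V} {c : Cq G}
    (h : ∀ x ∈ c.1, G.Adj z x) {x : V} : x ∈ (insz z c).1 ↔ x = z ∨ x ∈ c.1 := by
  unfold insz
  rw [dif_pos h]
  exact Finset.mem_insert

private theorem Cpy_ins {V : Type} {G : SimpleGraph V} {X : Set V} {J : Set (Cq G)} {z : V}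
    (hz : ∀ x ∈ X, G.Adj z x) (hJ : J ⊆ pl G X) (h : ∀ c ∈ mi G X, insz z c ∈ J) :
    Cpy G X J := by
  have ha : ∀ c ∈ mi G X, ∀ x ∈ c.1, G.Adj z x := fun c hc x hx => hz x (hc x hx)
  refine ⟨hJ, insz z, h, fun c hc d hd hcd => ?_, fun c hc s hs hsX => ?_⟩
  · refine Cq.le_iff.2 fun x hx => ?_
    rw [insz_mem (ha d hd)]
    rcases (insz_mem (ha c hc)).1 hx with e | e
    · exact Or.inl e
    · exact Or.inr (Cq.le_iff.1 hcd e)
  · rcases (insz_mem (ha c hc)).1 hs with e | e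
    · rw [e] at hsX
      exact absurd rfl (hz z hsX).ne
    · exact e

section gen

variable {K : Lv} {n k : ℕ}

/-- carrier two levels below -/
private def CR (K : Lv) (n k : ℕ) (x : (tw K (n + 1 + k)).V) : Set (tw K n).V :=
  {s | ∃ c : Cq (tw K n).G, c ∈ car K (n + 1) k x ∧ s ∈ c.1}

private theorem CR_nr {x y : (tw K (n + 1 + k)).V} (h : Nr (tw K (n + 1 + k)).G x y)
    {s t : (tw K n).V} (hs : s ∈ CR K n k x) (ht : t ∈ CR K n k y) : Nr (tw K n).G s t := by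
  obtain ⟨c, hc, hs⟩ := hs
  obtain ⟨d, hd, ht⟩ := ht
  have hcd : Nr (tw K (n + 1)).G c d := car_nr h hc hd
  have key : ∀ r : Cq (tw K n).G, s ∈ r.1 → t ∈ r.1 → Nr (tw K n).G s t := by
    intro r h1 h2
    by_cases e : s = t
    · exact Or.inl e
    · exact Or.inr (r.2.2 (Finset.mem_coe.2 h1) (Finset.mem_coe.2 h2) e)
  have hcd' : c = d ∨ (c < d ∨ d < c) := hcd
  rcases hcd' with h | h | h
  · exact key c hs (h ▸ ht)
  · exact key d ((Cq.le_iff.1 h.le) hs) ht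
  · exact key c hs ((Cq.le_iff.1 h.le) ht)

/-- `p` selects elements of the carrier in `X` -/
private def SelP (K : Lv) (n k : ℕ) (X : Set (tw K n).V) (E : Set (tw K (n + 1 + k)).V)
    (p : (tw K (n + 1 + k)).V → (tw K n).V) : Prop :=
  ∀ x ∈ E, p x ∈ CR K n k x ∧ p x ∈ X

variable {X : Set (tw K n).V} {E E' : Set (tw K (n + 1 + k)).V}
  {p q : (tw K (n + 1 + k)).V → (tw K n).V} {b b' : (tw K n).V → (tw K n).V → ZMod 2}

private theorem SelP.mono (hp : SelP K n k X E p) (h : E' ⊆ E) : SelP K n k X E' p :=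
  fun x hx => hp x (h hx)

private theorem sel_contig (hb : b ∈ Z1 (tw K n).G X) (hp : SelP K n k X E p)
    (hq : SelP K n k X E q) : Triv (tw K (n + 1 + k)).G E (pbk p b + pbk q b) :=
  pbk_contig hb (fun x y h hx hy => CR_nr h (hp x hx).1 (hp y hy).1)
    (fun x y h hx hy => CR_nr h (hq x hx).1 (hq y hy).1)
    (fun x y h hx hy => CR_nr h (hp x hx).1 (hq y hy).1)
    (fun x hx => (hp x hx).2) (fun x hx => (hq x hx).2)

private theorem sel_Z1 (hb : b ∈ Z1 (tw K n).G X) (hp : SelP K n k X E p) :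
    rs (tw K (n + 1 + k)).G E (pbk p b) ∈ Z1 (tw K (n + 1 + k)).G E :=
  pbk_mem hb (fun x y h hx hy => CR_nr h (hp x hx).1 (hp y hy).1) (fun x hx => (hp x hx).2)

private theorem sel_triv (hb : b ∈ Z1 (tw K n).G X) (hp : SelP K n k X E p)
    (ht : Triv (tw K n).G X b) : Triv (tw K (n + 1 + k)).G E (pbk p b) :=
  Triv_pbk (z1d_h12 hb) ht (fun x y h hx hy => CR_nr h (hp x hx).1 (hp y hy).1)
    (fun x hx => (hp x hx).2)

private theorem sel_rs {w : (tw K n).V → (tw K n).V → ZMod 2} (h0 : ∀ z, w z z = 0)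
    (hp : SelP K n k X E p) (x y : (tw K (n + 1 + k)).V) (e : EIn (tw K (n + 1 + k)).G E x y) :
    pbk p (rs (tw K n).G X w) x y = pbk p w x y := by
  refine rsn_h12 (fun e' => ?_) (hp x e.2.1).2 (hp y e.2.2).2
    (CR_nr (Or.inr e.1) (hp x e.2.1).1 (hp y e.2.2).1)
  rw [e', h0]

private theorem sel_ex (h : ∀ x ∈ E, ∃ s ∈ CR K n k x, s ∈ X) : ∃ q, SelP K n k X E q := by
  have h' : ∀ x, ∃ s : (tw K n).V, x ∈ E → s ∈ CR K n k x ∧ s ∈ X := by
    intro x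
    by_cases hx : x ∈ E
    · obtain ⟨s, h1, h2⟩ := h x hx
      exact ⟨s, fun _ => ⟨h1, h2⟩⟩
    · exact ⟨pk (G := (tw K n).G) (ch K (n + 1) k x), fun h => absurd h hx⟩
  choose q hq using h'
  exact ⟨q, fun x hx => hq x hx⟩

private theorem sel_pl {N : Set (Cq (tw K n).G)} (h2 : N ⊆ pl (tw K n).G X) :
    ∀ x ∈ miN K (n + 1) N k, ∃ s ∈ CR K n k x, s ∈ X := by
  intro x hx
  have h1 : ch K (n + 1) k x ∈ N := mem_miN.1 hx (ch_mem x)
  obtain ⟨s, hs, hsX⟩ := h2 h1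
  exact ⟨s, ⟨ch K (n + 1) k x, ch_mem x, hs⟩, hsX⟩

/-- the selection through the level `n + 1` -/
private theorem sel_ch {N : Set (Cq (tw K n).G)} (h2 : N ⊆ pl (tw K n).G X) :
    SelP K n k X (miN K (n + 1) N k) (fun x => pkm (G := (tw K n).G) X (ch K (n + 1) k x)) := by
  intro x hx
  have h1 : ch K (n + 1) k x ∈ N := mem_miN.1 hx (ch_mem x)
  exact ⟨⟨ch K (n + 1) k x, ch_mem x, (pkm_mem (h2 h1)).1⟩, (pkm_mem (h2 h1)).2⟩

private theorem sel_zero {N : Set (Cq (tw K n).G)} (h2 : N ⊆ pl (tw K n).G X) :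
    SelP K n 0 X N (pkm (G := (tw K n).G) X) :=
  fun c hc => ⟨⟨c, rfl, (pkm_mem (h2 hc)).1⟩, (pkm_mem (h2 hc)).2⟩

private theorem sel_pk : SelP K n 0 X (mi (tw K n).G X) (pk (G := (tw K n).G)) :=
  fun c hc => ⟨⟨c, rfl, pk_mem c⟩, hc _ (pk_mem c)⟩

private theorem triv_pk (hb : b ∈ Z1 (tw K n).G X) :
    Triv (tw K (n + 1)).G (mi (tw K n).G X) (pbk (pk (G := (tw K n).G)) b) ↔
      Triv (tw K n).G X b :=
  Triv_choice (n := n) (k := 1) (p := pk (G := (tw K n).G))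
    (fun c => ⟨pk (G := (tw K n).G) c, pk_mem (G := (tw K n).G) c, rfl⟩) hb subset_rfl

/-- a class of `X` is detected on a copy -/
private theorem sel_copy {J : Set (Cq (tw K n).G)} (hJ : Cpy (tw K n).G X J)
    (hb : b ∈ Z1 (tw K n).G X) (hE : miN K (n + 1) J k ⊆ E) (hp : SelP K n k X E p)
    (ht : Triv (tw K (n + 1 + k)).G E (pbk p b)) : Triv (tw K n).G X b := by
  obtain ⟨hpl, j, hj, hm, hi⟩ := hJ
  have hb0 : ∀ z, b z z = 0 := z1d_h12 hb
  have hq := sel_ch (K := K) (k := k) hpl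
  have t1 := (swp_h12 (sel_contig hb (hp.mono hE) hq)).1 (ht.mono hE)
  have hX0 := sel_zero (K := K) hpl
  have ha : rs (tw K (n + 1)).G J (pbk (pkm (G := (tw K n).G) X) b) ∈
      Z1 (tw K (n + 1)).G J := sel_Z1 (k := 0) hb hX0
  have t2 : Triv (tw K (n + 1)).G J
      (rs (tw K (n + 1)).G J (pbk (pkm (G := (tw K n).G) X) b)) := by
    refine (Triv_choice (p := ch K (n + 1) k) ch_mem ha subset_rfl).1
      (t1.congr fun x y e => ?_)
    have e1 : rs (tw K (n + 1)).G J (pbk (pkm (G := (tw K n).G) X) b)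
        (ch K (n + 1) k x) (ch K (n + 1) k y) =
        pbk (pkm (G := (tw K n).G) X) b (ch K (n + 1) k x) (ch K (n + 1) k y) := by
      refine rsn_h12 (fun e' => ?_) (mem_miN.1 e.2.1 (ch_mem x)) (mem_miN.1 e.2.2 (ch_mem y))
        (choice_nr ch_mem x y (Or.inr e.1))
      show b _ _ = 0
      rw [e', hb0]
    exact e1.symm
  have t3 : Triv (tw K (n + 1)).G J (pbk (pkm (G := (tw K n).G) X) b) := Triv_rs.1 t2
  have t4 : Triv (tw K (n + 1)).G (mi (tw K n).G X)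
      (pbk j (pbk (pkm (G := (tw K n).G) X) b)) := by
    refine Triv_pbk (a := pbk (pkm (G := (tw K n).G) X) b) (D := J) (p := j)
      (fun x => hb0 _) t3 (fun c d h hc hd => ?_) hj
    have h' : c = d ∨ (c < d ∨ d < c) := h
    rcases h' with h | h | h
    · rw [h]
      exact Nr.refl _
    · have h1 := hm c hc d hd h.le
      rcases h1.eq_or_lt with h2 | h2
      · exact Or.inl h2
      · exact Or.inr (Or.inl h2)
    · have h1 := hm d hd c hc h.le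
      rcases h1.eq_or_lt with h2 | h2
      · exact Or.inl h2.symm
      · exact Or.inr (Or.inr h2)
  have hjs : SelP K n 0 X (mi (tw K n).G X) (fun c => pkm (G := (tw K n).G) X (j c)) := by
    intro c hc
    have h1 := pkm_mem (hpl (hj c hc))
    exact ⟨⟨c, rfl, hi c hc _ h1.1 h1.2⟩, h1.2⟩
  have t5 : Triv (tw K (n + 1)).G (mi (tw K n).G X) (pbk (pk (G := (tw K n).G)) b) :=
    (swp_h12 (sel_contig (k := 0) hb hjs sel_pk)).1 t4
  exact (triv_pk hb).1 t5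

/-- every class of `N` is pulled back from `X` -/
private theorem sel_gen {N : Set (Cq (tw K n).G)} (h1 : mi (tw K n).G X ⊆ N)
    (h2 : N ⊆ pl (tw K n).G X) {a : (tw K (n + 1 + k)).V → (tw K (n + 1 + k)).V → ZMod 2}
    (ha : a ∈ Z1 (tw K (n + 1 + k)).G (miN K (n + 1) N k))
    (hp : SelP K n k X (miN K (n + 1) N k) p) :
    ∃ b ∈ Z1 (tw K n).G X, Triv (tw K (n + 1 + k)).G (miN K (n + 1) N k) (a + pbk p b) := by
  let G := (tw K n).G
  let c0 : (tw K (n + 1 + k)).V → Cq G := ch K (n + 1) k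
  have H : ∃ a2 : Cq G → Cq G → ZMod 2, a2 ∈ Z1 (sd G) N ∧
      Triv (tw K (n + 1 + k)).G (miN K (n + 1) N k) (a + pbk c0 a2) :=
    lift_choice (p := ch K (n + 1) k) ch_mem ha
  obtain ⟨a2, ha2', t1⟩ := H
  have ha3 : rs (sd G) (mi G X) a2 ∈ Z1 (sd G) (mi G X) := rs_mem h1 ha2'
  have hb : dnc G X (rs (sd G) (mi G X) a2) ∈ Z1 G X := dnc_mem ha3
  have t2 := upc_dnc ha3
  generalize dnc G X (rs (sd G) (mi G X) a2) = b at hb t2
  have hb0 : ∀ z, b z z = 0 := z1d_h12 hb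
  refine ⟨b, hb, ?_⟩
  -- `a2` is `pbk pk b` on `mi X`
  have t3 : Triv (sd G) (mi G X) (pbk (pk (G := G)) b + a2) := by
    refine t2.congr fun s t e => ?_
    simp only [Pi.add_apply]
    have e1 : upc G X b s t = pbk (pk (G := G)) b s t := by
      have e2 : upc G X b s t = if pk s = pk t then 0 else b (pk s) (pk t) := if_pos e
      rw [e2]
      show _ = b (pk s) (pk t)
      by_cases h : pk s = pk t
      · rw [if_pos h, h, hb0]
      · rw [if_neg h]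
    rw [e1, rs_apply e]
  have t4 : Triv (sd G) (mi G X) (pbk (pk (G := G)) b + pbk (pkm (G := G) X) b) :=
    sel_contig (k := 0) hb sel_pk ((sel_zero (K := K) h2).mono h1)
  have ha4 : rs (sd G) N (pbk (pkm (G := G) X) b) ∈ Z1 (sd G) N :=
    sel_Z1 (k := 0) hb (sel_zero (K := K) h2)
  have ha5 : a2 + rs (sd G) N (pbk (pkm (G := G) X) b) ∈ Z1 (sd G) N :=
    Submodule.add_mem _ ha2' ha4
  have t5 : Triv (sd G) N (a2 + rs (sd G) N (pbk (pkm (G := G) X) b)) := by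
    refine (bt_Triv h1 h2 ha5).2 ((t3.add t4).congr fun s t e => ?_)
    simp only [Pi.add_apply]
    rw [rs_apply (e.mono h1)]
    linear_combination two_add (pbk (pk (G := G)) b s t)
  have t6 : Triv (tw K (n + 1 + k)).G (miN K (n + 1) N k)
      (pbk c0 (a2 + rs (sd G) N (pbk (pkm (G := G) X) b))) := by
    refine Triv_pbk (z1d_h12 ha5) t5 (fun x y h _ _ => choice_nr (p := ch K (n + 1) k) ch_mem x y h)
      (fun x hx => mem_miN.1 hx (ch_mem x))
  have t7 := sel_contig hb (sel_ch (K := K) (k := k) h2) hp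
  refine ((t1.add t6).add t7).congr fun x y e => ?_
  have e1 : rs (sd G) N (pbk (pkm (G := G) X) b) (c0 x) (c0 y) =
      pbk (pkm (G := G) X) b (c0 x) (c0 y) := by
    refine rsn_h12 (fun e' => ?_) (mem_miN.1 e.2.1 (ch_mem x)) (mem_miN.1 e.2.2 (ch_mem y))
      (choice_nr (p := ch K (n + 1) k) ch_mem x y (Or.inr e.1))
    show b _ _ = 0
    rw [e', hb0]
  have e2 : pbk c0 (a2 + rs (sd G) N (pbk (pkm (G := G) X) b)) x y =
      a2 (c0 x) (c0 y) + pbk (pkm (G := G) X) b (c0 x) (c0 y) := by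
    rw [← e1]
    rfl
  simp only [Pi.add_apply]
  rw [e2]
  show a x y + a2 (c0 x) (c0 y) +
    (a2 (c0 x) (c0 y) +
      b (pkm (G := G) X (c0 x)) (pkm (G := G) X (c0 y))) +
    (b (pkm (G := G) X (c0 x)) (pkm (G := G) X (c0 y)) +
      b (p x) (p y)) = a x y + b (p x) (p y)
  linear_combination two_add (a2 (c0 x) (c0 y)) +
    two_add (b (pkm (G := G) X (c0 x)) (pkm (G := G) X (c0 y)))

/-- glueing: a class which is trivial on the frontier of `M` in `D` comes from a class of `D` which is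
trivial on `D \ M` -/
private theorem sel_glue (hb : b ∈ Z1 (tw K n).G X) {D M : Set (tw K (n + 1 + k)).V}
    (hq : SelP K n k X (D ∩ M) q) {p : (tw K (n + 1 + (k + 1))).V → (tw K n).V}
    (hp : SelP K n (k + 1) X (mi (tw K (n + 1 + k)).G D ∩ Fr (tw K (n + 1 + k)).G M) p)
    (ht : Triv (tw K (n + 1 + (k + 1))).G
      (mi (tw K (n + 1 + k)).G D ∩ Fr (tw K (n + 1 + k)).G M) (pbk p b)) :
    ∃ w ∈ Z1 (tw K (n + 1 + k)).G D, Triv (tw K (n + 1 + k)).G (D ∩ M) (w + pbk q b) ∧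
      Triv (tw K (n + 1 + k)).G (D \ M) w := by
  have hb0 : ∀ z, b z z = 0 := z1d_h12 hb
  let G := (tw K (n + 1 + k)).G
  have ha : rs G (D ∩ M) (pbk q b) ∈ Z1 G (D ∩ M) := sel_Z1 hb hq
  have hmem : ∀ s ∈ mi G D ∩ Fr G M, pkm (G := G) M s ∈ D ∩ M ∧ pkm (G := G) M s ∈ s.1 := by
    rintro s ⟨h1, h2, _⟩
    exact ⟨⟨h1 _ (pkm_mem h2).1, (pkm_mem h2).2⟩, (pkm_mem h2).1⟩
  have hr : SelP K n (k + 1) X (mi G D ∩ Fr G M) (fun s => q (pkm (G := G) M s)) := by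
    intro s hs
    obtain ⟨h1, h2⟩ := hmem s hs
    obtain ⟨⟨c, hc, h3⟩, h4⟩ := hq _ h1
    exact ⟨⟨c, ⟨_, h2, hc⟩, h3⟩, h4⟩
  have t1 := (swp_h12 (sel_contig hb hp hr)).1 ht
  have t2 : Triv (sd G) (mi G D ∩ Fr G M) (fun s t => rs G (D ∩ M) (pbk q b)
      (pkm (G := G) M s) (pkm (G := G) M t)) := by
    refine Triv.congr t1 fun s t e => ?_
    obtain ⟨h1, h2⟩ := hmem s e.2.1
    obtain ⟨h3, h4⟩ := hmem t e.2.2
    have e1 : rs G (D ∩ M) (pbk q b) (pkm (G := G) M s) (pkm (G := G) M t) =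
        pbk q b (pkm (G := G) M s) (pkm (G := G) M t) := ?_
    · exact e1.symm
    refine rsn_h12 (fun e' => ?_) h1 h3 ?_
    · show b _ _ = 0
      rw [e', hb0]
    · have key : ∀ r : Cq G, pkm (G := G) M s ∈ r.1 → pkm (G := G) M t ∈ r.1 →
          Nr G (pkm (G := G) M s) (pkm (G := G) M t) := by
        intro r g1 g2
        by_cases e : pkm (G := G) M s = pkm (G := G) M t
        · exact Or.inl e
        · exact Or.inr (r.2.2 (Finset.mem_coe.2 g1) (Finset.mem_coe.2 g2) e)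
      have e' : s < t ∨ t < s := e.1
      rcases e' with h | h
      · exact key t ((Cq.le_iff.1 h.le) h2) h4
      · exact key s h2 ((Cq.le_iff.1 h.le) h4)
  obtain ⟨w, hw, h1, h2⟩ := glue0 ha t2
  refine ⟨w, hw, h1.congr fun x y e => ?_, h2⟩
  simp only [Pi.add_apply]
  rw [rs_apply e]

/-- the class is nontrivial on the frontier if it is nontrivial on both sides -/
private theorem sel_two (hX : ∀ b ∈ Z1 (tw K n).G X, ∀ b' ∈ Z1 (tw K n).G X,
      ¬ Triv (tw K n).G X b → ¬ Triv (tw K n).G X b' → Triv (tw K n).G X (b + b'))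
    (hb : b ∈ Z1 (tw K n).G X) (hnb : ¬ Triv (tw K n).G X b)
    {N : Set (Cq (tw K n).G)} (h1 : mi (tw K n).G X ⊆ N) (h2 : N ⊆ pl (tw K n).G X)
    {M : Set (tw K (n + 1 + k)).V} {J1 J2 : Set (Cq (tw K n).G)}
    (hJ1 : Cpy (tw K n).G X J1) (hJ2 : Cpy (tw K n).G X J2)
    (hE1 : miN K (n + 1) J1 k ⊆ miN K (n + 1) N k ∩ M)
    (hE2 : miN K (n + 1) J2 k ⊆ miN K (n + 1) N k \ M)
    {p : (tw K (n + 1 + (k + 1))).V → (tw K n).V}
    (hp : SelP K n (k + 1) X (mi (tw K (n + 1 + k)).G (miN K (n + 1) N k) ∩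
      Fr (tw K (n + 1 + k)).G M) p)
    (ht : Triv (tw K (n + 1 + (k + 1))).G (mi (tw K (n + 1 + k)).G (miN K (n + 1) N k) ∩
      Fr (tw K (n + 1 + k)).G M) (pbk p b)) : False := by
  obtain ⟨q, hq⟩ := sel_ex (k := k) (sel_pl h2)
  obtain ⟨w, hw, t1, t2⟩ := sel_glue hb (hq.mono Set.inter_subset_left) hp ht
  obtain ⟨b', hb', t3⟩ := sel_gen h1 h2 hw hq
  by_cases hbt : Triv (tw K n).G X b'
  · have t4 := (swp_h12 t3).2 (sel_triv hb' hq hbt)
    have t5 := (swp_h12 t1).1 (t4.mono Set.inter_subset_left)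
    exact hnb (sel_copy hJ1 hb hE1 (hq.mono Set.inter_subset_left) t5)
  · have t4 := hX b' hb' b hb hbt hnb
    have t5 : Triv (tw K (n + 1 + k)).G (miN K (n + 1) N k) (pbk q (b' + b)) :=
      sel_triv (Submodule.add_mem _ hb' hb) hq t4
    have t6 : Triv (tw K (n + 1 + k)).G (miN K (n + 1) N k) (w + pbk q b) := by
      refine (t3.add t5).congr fun x y _ => ?_
      show w x y + b' (q x) (q y) + (b' (q x) (q y) + b (q x) (q y)) = w x y + b (q x) (q y)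
      linear_combination two_add (b' (q x) (q y))
    have t7 := (swp_h12 (t6.mono Set.sdiff_subset)).1 t2
    exact hnb (sel_copy hJ2 hb hE2 (hq.mono Set.sdiff_subset) t7)

end gen

section coarse

variable {Vc : Type} (Gc : SimpleGraph Vc)

/-- chains in `{≥ e}` with an element `> e` -/
def R2 (e : Cq Gc) : Set (Cq (sd Gc)) := {c | (∀ σ ∈ c.1, e ≤ σ) ∧ ∃ σ ∈ c.1, e < σ}

/-- chains in `{≤ s}` with an element `< s` -/
def D2 (s : Cq Gc) : Set (Cq (sd Gc)) := {c | (∀ σ ∈ c.1, σ ≤ s) ∧ ∃ σ ∈ c.1, σ < s}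

/-- chains through `e` -/
def Em (e : Cq Gc) : Set (Cq (sd Gc)) := {c | e ∈ c.1}

/-- solid torus of `e` and the chains above `e` -/
def Ep (e : Cq Gc) : Set (Cq (sd Gc)) :=
  {c | (e ∈ c.1 ∧ ∃ s ∈ c.1, 3 ≤ s.1.card) ∨ ∀ s ∈ c.1, e < s}

end coarse

variable {K : Lv} {m0 : ℕ}

/-- positions with `c2` in `E` -/
def in2 (E : Set (Cq (sd (tw K m0).G))) : Set (PV K m0) := {u | c2 K m0 u ⊆ E}

theorem c2_eq (u : PV K m0) : c2 K m0 u = car K (m0 + 2) 5 u := by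
  ext c
  constructor
  · rintro ⟨C, ⟨x1, h1, x2, h2, x3, h3, x4, h4, h5⟩, hc⟩
    have h5' : C = x4 := h5
    subst h5'
    exact ⟨x1, h1, x2, h2, x3, h3, C, h4, c, hc, rfl⟩
  · rintro ⟨x1, h1, x2, h2, x3, h3, C, h4, c', hc, h5⟩
    have h5' : c = c' := h5
    subst h5'
    exact ⟨C, ⟨x1, h1, x2, h2, x3, h3, C, h4, rfl⟩, hc⟩

private theorem in2_eq (N : Set (Cq (sd (tw K m0).G))) :
    (in2 N : Set (PV K m0)) = miN K (m0 + 2) N 5 := by
  ext u
  refine Iff.trans ?_ (mem_miN (K := K) (n := m0 + 2) (k := 5) (A := N) (x := u)).symm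
  show c2 K m0 u ⊆ N ↔ _
  rw [c2_eq]
  exact Iff.rfl

private theorem cr_CR {u : PV K m0} {s : Cq (tw K m0).G} :
    s ∈ cr K m0 u ↔ s ∈ CR K (m0 + 1) 5 u := by
  show (∃ c ∈ c2 K m0 u, s ∈ c.1) ↔ _
  rw [c2_eq]
  exact Iff.rfl

/-! ### the level function on the level `m0 + 6` -/

section lev

variable {Vc : Type} {Gc : SimpleGraph Vc}

private theorem indl_h12 (x y : Cq Gc) (_ : (sd Gc).Adj x y) :
    ind (Xs Gc) x ≤ ind (Xs Gc) y + 1 := by
  unfold ind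
  split_ifs <;> omega

private def f1c (Gc : SimpleGraph Vc) : Cq (sd Gc) → ℕ := lsd (G := sd Gc) (ind (Xs Gc))

private theorem f1c_zero {c : Cq (sd Gc)} (h : ∀ s ∈ c.1, s.1.card ≤ 2) : f1c Gc c = 0 := by
  have h1 := Set.ext_iff.1 (lsd_eq_even (G := sd Gc) (f := ind (Xs Gc)) (i := 0) indl_h12) c
  exact h1.2 fun s hs => if_pos (h s hs)

private theorem f1c_two {c : Cq (sd Gc)} (h : ∀ s ∈ c.1, 3 ≤ s.1.card) : f1c Gc c = 2 := by
  have h1 := Set.ext_iff.1 (lsd_eq_even (G := sd Gc) (f := ind (Xs Gc)) (i := 1) indl_h12) c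
  refine h1.2 fun s hs => if_neg fun h' => ?_
  have h2 : s.1.card ≤ 2 := h'
  have := h s hs
  omega

private theorem f1c_one {c : Cq (sd Gc)} {s t : Cq Gc} (hs : s ∈ c.1) (h : s.1.card ≤ 2)
    (ht : t ∈ c.1) (h' : 3 ≤ t.1.card) : f1c Gc c = 1 := by
  have h1 := Set.ext_iff.1 (lsd_eq_odd (G := sd Gc) (f := ind (Xs Gc)) (i := 0) indl_h12) c
  refine h1.2 ⟨⟨s, hs, ?_⟩, ⟨t, ht, ?_⟩⟩
  · have h2 : ind (Xs Gc) s = 0 := if_pos h
    show ind (Xs Gc) s ≤ 0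
    omega
  · have h2 : ind (Xs Gc) t = 1 := by
      refine if_neg fun h3 => ?_
      have h4 : t.1.card ≤ 2 := h3
      omega
    show ¬ ind (Xs Gc) t ≤ 0
    omega

end lev

/-- radial position on the level `m0 + 6`, `0..32` -/
private def l6 (K : Lv) (m0 : ℕ) : (tw K (m0 + 6)).V → ℕ := lN K (m0 + 2) (f1c (tw K m0).G) 4

private theorem l6_lip (x y : (tw K (m0 + 6)).V) (e : (tw K (m0 + 6)).G.Adj x y) :
    l6 K m0 x ≤ l6 K m0 y + 1 :=
  lN_lip (K := K) (n := m0 + 2) (k := 4) (f := f1c (tw K m0).G)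
    (fun c d e => lsd_lip (G := sd (tw K m0).G) indl_h12 c d e) x y e

private theorem l6_val {x : (tw K (m0 + 6)).V} {c : ℕ}
    (h : ∀ d ∈ car K (m0 + 2) 4 x, f1c (tw K m0).G d = c) : l6 K m0 x = 16 * c :=
  le_antisymm
    (lN_le (K := K) (n := m0 + 2) (k := 4) (f := f1c (tw K m0).G) (x := x) (c := c)
      fun u hu => (h u hu).le)
    (le_lN (K := K) (n := m0 + 2) (k := 4) (f := f1c (tw K m0).G) (x := x) (c := c)
      fun u hu => (h u hu).ge)

/-- the circles as frontiers -/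
private theorem circ_eq (N : Set (Cq (sd (tw K m0).G))) (i : ℕ) :
    {u : PV K m0 | c2 K m0 u ⊆ N ∧ lS K m0 u = 2 * i + 1} =
      mi (tw K (m0 + 6)).G (miN K (m0 + 2) N 4) ∩ Fr (tw K (m0 + 6)).G {x | l6 K m0 x ≤ i} := by
  have h1 := lsd_eq_odd (G := (tw K (m0 + 6)).G) (f := l6 K m0) (i := i) l6_lip
  have h2 := in2_eq (K := K) (m0 := m0) N
  ext u
  have h3 := Set.ext_iff.1 h1 u
  have h4 := Set.ext_iff.1 h2 u
  exact and_congr h4 h3

/-! ### selections at the position level -/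

private theorem sel_mxc (e : Cq (tw K m0).G) {E : Set (PV K m0)}
    (h : ∀ u ∈ E, ∃ σ ∈ cr K m0 u, e < σ) : SelP K (m0 + 1) 5 (Up e) E mxc := by
  intro u hu
  obtain ⟨σ, h1, h2⟩ := h u hu
  exact ⟨cr_CR.1 (mxc_mem u), lt_of_lt_of_le h2 (le_mxc u h1)⟩

private theorem sel_mnc (s : Cq (tw K m0).G) {E : Set (PV K m0)}
    (h : ∀ u ∈ E, ∃ σ ∈ cr K m0 u, σ < s) : SelP K (m0 + 1) 5 (Lo s) E mnc := by
  intro u hu
  obtain ⟨σ, h1, h2⟩ := h u hu
  exact ⟨cr_CR.1 (mnc_mem u), lt_of_le_of_lt (mnc_le u h1) h2⟩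

private theorem in2_pl {X : Set (Cq (tw K m0).G)} {N : Set (Cq (sd (tw K m0).G))}
    (h2 : N ⊆ pl (sd (tw K m0).G) X) (u : PV K m0) (hu : u ∈ miN K (m0 + 2) N 5) :
    ∃ σ ∈ cr K m0 u, σ ∈ X := by
  rw [← in2_eq] at hu
  have hne : (c2 K m0 u).Nonempty := by
    rw [c2_eq]
    exact car_ne (K := K) (n := m0 + 2) (k := 5) u
  obtain ⟨c, hc⟩ := hne
  obtain ⟨σ, h3, h4⟩ := h2 (hu hc)
  exact ⟨σ, ⟨c, hc, h3⟩, h4⟩

private theorem wsX_dia {Vc : Type} {Gc : SimpleGraph Vc} (h : IsSph3 Gc) (s : Fc Gc)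
    (z : Cq Gc) : wsX s z z = 0 := by
  have key : ¬ (z = s.q ∧ z = t0 s) := by
    rintro ⟨h1, h2⟩
    have h3 : (t0 s).1.card = 4 := (t0_spec h s).1.1
    have h4 : s.q.1.card = 3 := s.2.1
    rw [← h2, h1] at h3
    omega
  exact if_neg fun h' => h'.elim key key

private theorem weX_dia {Vc : Type} {Gc : SimpleGraph Vc} (e : Ec Gc) (z : Cq Gc) :
    weX e z z = 0 := by
  have key : ¬ (z = vx Gc (e0 e) ∧ z = e.q) := by
    rintro ⟨h1, h2⟩
    have h3 : e.q.1.card = 2 := e.2.1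
    have h4 : (vx Gc (e0 e)).1.card = 1 := rfl
    rw [← h2, h1] at h3
    omega
  exact if_neg fun h' => h'.elim key key

private theorem wsX_sy {Vc : Type} {Gc : SimpleGraph Vc} (s : Fc Gc) (a b : Cq Gc) :
    wsX s a b = wsX s b a := if_congr or_comm rfl rfl

private theorem weX_sy {Vc : Type} {Gc : SimpleGraph Vc} (e : Ec Gc) (a b : Cq Gc) :
    weX e a b = weX e b a := if_congr or_comm rfl rfl

private theorem up_adj {Vc : Type} {Gc : SimpleGraph Vc} (e : Cq Gc) :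
    ∀ x ∈ Up e, (sd Gc).Adj e x := fun _ hx => Or.inl hx

private theorem lo_adj {Vc : Type} {Gc : SimpleGraph Vc} (s : Cq Gc) :
    ∀ x ∈ Lo s, (sd Gc).Adj s x := fun _ hx => Or.inr hx

private theorem up_card {Vc : Type} {Gc : SimpleGraph Vc} (e : Ec Gc) {x : Cq Gc}
    (hx : e.q < x) : 3 ≤ x.1.card := by
  have h1 := Finset.card_lt_card (Cq.lt_iff.1 hx)
  have h2 : e.q.1.card = 2 := e.2.1
  omega

private theorem lo_card {Vc : Type} {Gc : SimpleGraph Vc} (s : Fc Gc) {x : Cq Gc}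
    (hx : x < s.q) : x.1.card ≤ 2 := by
  have h1 := Finset.card_lt_card (Cq.lt_iff.1 hx)
  have h2 : s.q.1.card = 3 := s.2.1
  omega

/-- a class near `e` -/
private theorem up_gen (h : IsSph3 (tw K m0).G) (e : Ec (tw K m0).G) (s : Fc (tw K m0).G)
    (hes : e.1 ⊆ s.1) {N : Set (Cq (sd (tw K m0).G))}
    (h1 : mi (sd (tw K m0).G) (Up e.q) ⊆ N) (h2 : N ⊆ pl (sd (tw K m0).G) (Up e.q)) (a)
    (ha : a ∈ Z1 (tw K (m0 + 7)).G (in2 N)) :
    Triv (tw K (m0 + 7)).G (in2 N) a ∨ Triv (tw K (m0 + 7)).G (in2 N) (a + wsD s) := by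
  rw [in2_eq] at ha ⊢
  have hp : SelP K (m0 + 1) 5 (Up e.q) (miN K (m0 + 2) N 5) mxc := sel_mxc e.q (in2_pl h2)
  obtain ⟨b, hb, t1⟩ := sel_gen (K := K) (n := m0 + 1) (k := 5) (X := Up e.q) h1 h2 ha hp
  by_cases hbt : Triv (sd (tw K m0).G) (Up e.q) b
  · exact Or.inl ((swp_h12 t1).2 (sel_triv hb hp hbt))
  · right
    have hb0 := up_Z1 h e (wsX_sy s)
    have hn0 : ¬ Triv (sd (tw K m0).G) (Up e.q) (rs (sd (tw K m0).G) (Up e.q) (wsX s)) :=
      fun t => wsX_up h hes (Triv_rs.1 t)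
    have t2 := cyc_sum (up_cyc h e) hb hb0 hbt hn0
    have t3 := sel_triv (K := K) (n := m0 + 1) (k := 5) (Submodule.add_mem _ hb hb0) hp t2
    refine (t1.add t3).congr fun x y e' => ?_
    have e1 := sel_rs (K := K) (n := m0 + 1) (k := 5) (wsX_dia h s) hp x y e'
    show a x y + b (mxc x) (mxc y) + (b (mxc x) (mxc y) +
      pbk mxc (rs (sd (tw K m0).G) (Up e.q) (wsX s)) x y) = a x y + pbk mxc (wsX s) x y
    have e2 : pbk mxc (rs (sd (tw K m0).G) (Up e.q) (wsX s)) x y = pbk mxc (wsX s) x y := e1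
    rw [e2]
    linear_combination two_add (b (mxc x) (mxc y))

theorem em_HZ (e : Ec (tw K m0).G) : HZ (tw K (m0 + 7)).G (in2 (Em (tw K m0).G e.q)) := by
  rw [in2_eq]
  refine (miN_HZ (K := K) (n := m0 + 2) (k := 5)).2 ?_
  refine bot_HZ (P := Cq (sd (tw K m0).G)) (m := vx (sd (tw K m0).G) e.q) ?_ ?_
  · exact Finset.mem_singleton_self e.q
  · intro c hc
    exact Cq.le_iff.2 (Finset.singleton_subset_iff.2 hc)

theorem ep_gen (h : IsSph3 (tw K m0).G) (e : Ec (tw K m0).G) (s : Fc (tw K m0).G)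
    (hes : e.1 ⊆ s.1) (a) (ha : a ∈ Z1 (tw K (m0 + 7)).G (in2 (Ep (tw K m0).G e.q))) :
    Triv (tw K (m0 + 7)).G (in2 (Ep (tw K m0).G e.q)) a ∨
      Triv (tw K (m0 + 7)).G (in2 (Ep (tw K m0).G e.q)) (a + wsD s) := by
  refine up_gen h e s hes ?_ ?_ a ha
  · exact fun c hc => Or.inr hc
  · rintro c (⟨h1, σ, h2, h3⟩ | h1)
    · refine ⟨σ, h2, ?_⟩
      have hne : e.q ≠ σ := by
        rintro rfl
        have h4 : e.q.1.card = 2 := e.2.1
        omega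
      rcases c.2.2 (Finset.mem_coe.2 h1) (Finset.mem_coe.2 h2) hne with h5 | h5
      · exact h5
      · have h6 := Finset.card_le_card (Cq.le_iff.1 h5.le)
        have h4 : e.q.1.card = 2 := e.2.1
        omega
    · obtain ⟨σ, h2⟩ := c.2.1
      exact ⟨σ, h2, h1 σ h2⟩

theorem pu_gen (h : IsSph3 (tw K m0).G) (e : Ec (tw K m0).G) (s : Fc (tw K m0).G)
    (hes : e.1 ⊆ s.1) (a)
    (ha : a ∈ Z1 (tw K (m0 + 7)).G (in2 (pl (sd (tw K m0).G) (Up e.q)))) :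
    Triv (tw K (m0 + 7)).G (in2 (pl (sd (tw K m0).G) (Up e.q))) a ∨
      Triv (tw K (m0 + 7)).G (in2 (pl (sd (tw K m0).G) (Up e.q))) (a + wsD s) :=
  up_gen h e s hes mi_sub_pl subset_rfl a ha

/-- chains with smallest element `e` and a further element -/
private theorem cpy_up (e : Ec (tw K m0).G) : Cpy (sd (tw K m0).G) (Up e.q)
    {c | e.q ∈ c.1 ∧ (∀ σ ∈ c.1, e.q ≤ σ) ∧ ∃ σ ∈ c.1, e.q < σ} := by
  refine Cpy_ins (up_adj e.q) (fun c hc => hc.2.2) fun c hc => ?_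
  have ha : ∀ x ∈ c.1, (sd (tw K m0).G).Adj e.q x := fun x hx => up_adj e.q x (hc x hx)
  refine ⟨(insz_mem ha).2 (Or.inl rfl), fun σ hσ => ?_, ?_⟩
  · rcases (insz_mem ha).1 hσ with h1 | h1
    · rw [h1]
    · exact (show e.q < σ from hc σ h1).le
  · obtain ⟨σ, h1⟩ := c.2.1
    exact ⟨σ, (insz_mem ha).2 (Or.inr h1), hc σ h1⟩

/-- chains with largest element `s` and a further element -/
private theorem cpy_lo (s : Fc (tw K m0).G) : Cpy (sd (tw K m0).G) (Lo s.q)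
    {c | s.q ∈ c.1 ∧ (∀ σ ∈ c.1, σ ≤ s.q) ∧ ∃ σ ∈ c.1, σ < s.q} := by
  refine Cpy_ins (lo_adj s.q) (fun c hc => hc.2.2) fun c hc => ?_
  have ha : ∀ x ∈ c.1, (sd (tw K m0).G).Adj s.q x := fun x hx => lo_adj s.q x (hc x hx)
  refine ⟨(insz_mem ha).2 (Or.inl rfl), fun σ hσ => ?_, ?_⟩
  · rcases (insz_mem ha).1 hσ with h1 | h1
    · rw [h1]
    · exact (show σ < s.q from hc σ h1).le
  · obtain ⟨σ, h1⟩ := c.2.1
    exact ⟨σ, (insz_mem ha).2 (Or.inr h1), hc σ h1⟩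

theorem ws_R1 (h : IsSph3 (tw K m0).G) (e : Ec (tw K m0).G) (s : Fc (tw K m0).G)
    (hes : e.1 ⊆ s.1) :
    ¬ Triv (tw K (m0 + 7)).G {u | c2 K m0 u ⊆ R1 (tw K m0).G e.q ∧ lS K m0 u = 29} (wsD s) := by
  intro ht
  have he := circ_eq (K := K) (m0 := m0) (R1 (tw K m0).G e.q) 14
  have he' : {u : PV K m0 | c2 K m0 u ⊆ R1 (tw K m0).G e.q ∧ lS K m0 u = 29} =
      mi (tw K (m0 + 6)).G (miN K (m0 + 2) (R1 (tw K m0).G e.q) 4) ∩
        Fr (tw K (m0 + 6)).G {x | l6 K m0 x ≤ 14} := he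
  rw [he', ← Fr_compl] at ht
  have hb0 := up_Z1 h e (wsX_sy s)
  have hn0 : ¬ Triv (sd (tw K m0).G) (Up e.q) (rs (sd (tw K m0).G) (Up e.q) (wsX s)) :=
    fun t => wsX_up h hes (Triv_rs.1 t)
  -- on `D ∩ M` the carrier meets `Up e`
  have hD : ∀ x ∈ miN K (m0 + 2) (R1 (tw K m0).G e.q) 4 ∩ {x | l6 K m0 x ≤ 14}ᶜ,
      ∃ σ ∈ CR K (m0 + 1) 4 x, σ ∈ Up e.q := by
    rintro x ⟨h1, h2⟩
    by_contra hn
    push Not at hn
    have h1' := (mem_miN (K := K) (n := m0 + 2) (k := 4)).1 h1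
    apply h2
    have h3 : l6 K m0 x = 16 * 0 := by
      refine l6_val fun d hd => f1c_zero fun σ hσ => ?_
      have h4 : e.q ≤ σ := (h1' hd).2 σ hσ
      have h5 : e.q = σ := by
        by_contra h6
        exact hn σ ⟨d, hd, hσ⟩ (lt_of_le_of_ne h4 h6)
      rw [← h5]
      exact (show e.q.1.card = 2 from e.2.1).le
    show l6 K m0 x ≤ 14
    omega
  obtain ⟨q, hq⟩ := sel_ex (K := K) (n := m0 + 1) (k := 4) hD
  have hp : SelP K (m0 + 1) 5 (Up e.q)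
      (mi (tw K (m0 + 6)).G (miN K (m0 + 2) (R1 (tw K m0).G e.q) 4) ∩
        Fr (tw K (m0 + 6)).G {x | l6 K m0 x ≤ 14}ᶜ) mxc := by
    refine sel_mxc e.q ?_
    rintro u ⟨h1, ⟨x, hx, hxM⟩, _⟩
    obtain ⟨σ, ⟨c, hc, h3⟩, h4⟩ := hD x ⟨h1 x hx, hxM⟩
    exact ⟨σ, cr_CR.2 ⟨c, ⟨x, hx, hc⟩, h3⟩, h4⟩
  have ht' := Triv.congr ht fun x y e' =>
    (sel_rs (K := K) (n := m0 + 1) (k := 5) (wsX_dia h s) hp x y e').symm
  obtain ⟨w, hw, t1, _⟩ := sel_glue (K := K) (n := m0 + 1) (k := 4) hb0 hq hp ht'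
  have hz : HZ (tw K (m0 + 6)).G (miN K (m0 + 2) (R1 (tw K m0).G e.q) 4) := by
    refine (miN_HZ (K := K) (n := m0 + 2) (k := 4)).2 ?_
    refine bot_HZ (P := Cq (sd (tw K m0).G)) (m := vx (sd (tw K m0).G) e.q) ?_ ?_
    · refine ⟨Finset.mem_singleton_self e.q, fun σ hσ => ?_⟩
      rw [show σ = e.q from Finset.mem_singleton.1 hσ]
    · intro c hc
      exact Cq.le_iff.2 (Finset.singleton_subset_iff.2 hc.1)
  have t2 := (swp_h12 t1).1 ((hz w hw).mono Set.inter_subset_left)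
  refine hn0 (sel_copy (K := K) (n := m0 + 1) (k := 4) (cpy_up e) hb0 ?_ hq t2)
  intro x hx
  have h1 := (mem_miN (K := K) (n := m0 + 2) (k := 4)).1 hx
  refine ⟨(mem_miN (K := K) (n := m0 + 2) (k := 4)).2 fun c hc => ⟨(h1 hc).1, (h1 hc).2.1⟩,
    fun h2 => ?_⟩
  have h3 : l6 K m0 x = 16 * 1 := by
    refine l6_val fun d hd => ?_
    obtain ⟨h4, _, σ, h5, h6⟩ := h1 hd
    exact f1c_one h4 (show e.q.1.card = 2 from e.2.1).le h5 (up_card e h6)
  have h4 : l6 K m0 x ≤ 14 := h2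
  omega

theorem ws_R2 (h : IsSph3 (tw K m0).G) (e : Ec (tw K m0).G) (s : Fc (tw K m0).G)
    (hes : e.1 ⊆ s.1) (j : ℕ) (h1 : 16 ≤ j) (h2 : j ≤ 31) :
    ¬ Triv (tw K (m0 + 7)).G {u | c2 K m0 u ⊆ R2 (tw K m0).G e.q ∧ lS K m0 u = 2 * j + 1}
      (wsD s) := by
  intro ht
  rw [circ_eq] at ht
  have hb0 := up_Z1 h e (wsX_sy s)
  have hn0 : ¬ Triv (sd (tw K m0).G) (Up e.q) (rs (sd (tw K m0).G) (Up e.q) (wsX s)) :=
    fun t => wsX_up h hes (Triv_rs.1 t)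
  have n1 : mi (sd (tw K m0).G) (Up e.q) ⊆ R2 (tw K m0).G e.q := by
    intro c hc
    obtain ⟨σ, h3⟩ := c.2.1
    exact ⟨fun σ hσ => (show e.q < σ from hc σ hσ).le, σ, h3, hc σ h3⟩
  have n2 : R2 (tw K m0).G e.q ⊆ pl (sd (tw K m0).G) (Up e.q) := fun c hc => hc.2
  have hp : SelP K (m0 + 1) 5 (Up e.q)
      (mi (tw K (m0 + 6)).G (miN K (m0 + 2) (R2 (tw K m0).G e.q) 4) ∩
        Fr (tw K (m0 + 6)).G {x | l6 K m0 x ≤ j}) mxc :=
    sel_mxc e.q fun u hu => in2_pl n2 u hu.1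
  have ht' := Triv.congr ht fun x y e' =>
    (sel_rs (K := K) (n := m0 + 1) (k := 5) (wsX_dia h s) hp x y e').symm
  refine sel_two (K := K) (n := m0 + 1) (k := 4)
    (fun b hb b' hb' h3 h4 => cyc_sum (up_cyc h e) hb hb' h3 h4) hb0 hn0 n1 n2
    (cpy_up e) Cpy_mi ?_ ?_ hp ht'
  · intro x hx
    have h3 := (mem_miN (K := K) (n := m0 + 2) (k := 4)).1 hx
    refine ⟨(mem_miN (K := K) (n := m0 + 2) (k := 4)).2 fun c hc =>
      ⟨(h3 hc).2.1, (h3 hc).2.2⟩, ?_⟩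
    have h4 : l6 K m0 x = 16 * 1 := by
      refine l6_val fun d hd => ?_
      obtain ⟨h4, _, σ, h5, h6⟩ := h3 hd
      exact f1c_one h4 (show e.q.1.card = 2 from e.2.1).le h5 (up_card e h6)
    show l6 K m0 x ≤ j
    omega
  · intro x hx
    have h3 := (mem_miN (K := K) (n := m0 + 2) (k := 4)).1 hx
    refine ⟨(mem_miN (K := K) (n := m0 + 2) (k := 4)).2 fun c hc => n1 (h3 hc), fun h5 => ?_⟩
    have h4 : l6 K m0 x = 16 * 2 :=
      l6_val fun d hd => f1c_two fun σ hσ => up_card e (h3 hd σ hσ)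
    have h5' : l6 K m0 x ≤ j := h5
    omega

theorem we_D2 (h : IsSph3 (tw K m0).G) (e : Ec (tw K m0).G) (s : Fc (tw K m0).G)
    (hes : e.1 ⊆ s.1) (j : ℕ) (h2 : j ≤ 15) :
    ¬ Triv (tw K (m0 + 7)).G {u | c2 K m0 u ⊆ D2 (tw K m0).G s.q ∧ lS K m0 u = 2 * j + 1}
      (weD e) := by
  intro ht
  rw [circ_eq] at ht
  have hb0 := lo_Z1 s (weX_sy e)
  have hn0 : ¬ Triv (sd (tw K m0).G) (Lo s.q) (rs (sd (tw K m0).G) (Lo s.q) (weX e)) :=
    fun t => weX_lo hes (Triv_rs.1 t)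
  have n1 : mi (sd (tw K m0).G) (Lo s.q) ⊆ D2 (tw K m0).G s.q := by
    intro c hc
    obtain ⟨σ, h3⟩ := c.2.1
    exact ⟨fun σ hσ => (show σ < s.q from hc σ hσ).le, σ, h3, hc σ h3⟩
  have n2 : D2 (tw K m0).G s.q ⊆ pl (sd (tw K m0).G) (Lo s.q) := fun c hc => hc.2
  have hp : SelP K (m0 + 1) 5 (Lo s.q)
      (mi (tw K (m0 + 6)).G (miN K (m0 + 2) (D2 (tw K m0).G s.q) 4) ∩
        Fr (tw K (m0 + 6)).G {x | l6 K m0 x ≤ j}) mnc :=
    sel_mnc s.q fun u hu => in2_pl n2 u hu.1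
  have ht' := Triv.congr ht fun x y e' =>
    (sel_rs (K := K) (n := m0 + 1) (k := 5) (weX_dia e) hp x y e').symm
  refine sel_two (K := K) (n := m0 + 1) (k := 4)
    (fun b hb b' hb' h3 h4 => cyc_sum (lo_cyc s) hb hb' h3 h4) hb0 hn0 n1 n2
    Cpy_mi (cpy_lo s) ?_ ?_ hp ht'
  · intro x hx
    have h3 := (mem_miN (K := K) (n := m0 + 2) (k := 4)).1 hx
    refine ⟨(mem_miN (K := K) (n := m0 + 2) (k := 4)).2 fun c hc => n1 (h3 hc), ?_⟩
    have h4 : l6 K m0 x = 16 * 0 :=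
      l6_val fun d hd => f1c_zero fun σ hσ => lo_card s (h3 hd σ hσ)
    show l6 K m0 x ≤ j
    omega
  · intro x hx
    have h3 := (mem_miN (K := K) (n := m0 + 2) (k := 4)).1 hx
    refine ⟨(mem_miN (K := K) (n := m0 + 2) (k := 4)).2 fun c hc =>
      ⟨(h3 hc).2.1, (h3 hc).2.2⟩, fun h5 => ?_⟩
    have h4 : l6 K m0 x = 16 * 1 := by
      refine l6_val fun d hd => ?_
      obtain ⟨h4, _, σ, h5, h6⟩ := h3 hd
      exact f1c_one h5 (lo_card s h6) h4 (show s.q.1.card = 3 from s.2.1).ge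
    have h5' : l6 K m0 x ≤ j := h5
    omega

end MOT
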