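import Pool.Agent.MOT.DmI

/-!
# MOT/DmJ: neighbourhoods and level relations near an edge / a triangle (helper82)

`f1 c = lsd (ind Xs) c` = `0`, `1`, `2` if all / some, not all / no simplices of the chain `c` have card `≤ 2`;
`f2 C = min f1 + max f1` on `C`; on a chain of `C`'s the values of `f2` lie in `{k, k+1}`.  `lS` from `f2` by
`lN_le`, `le_lN`, `lt_lN`, `lN_lt`.

(nb_R1) `u'` near `u`, `c2 u ⊆ R1 e`, `lS u ≤ 31`, so `lS u' ≤ 32` and no `c' ∈ c2 u'` has `f1 = 2` (a `C'` containing such a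
`c'` has `f2 ≥ 3`, and then all `f2 ≥ 2`, so `lS u' > 32`).  `c'` is comparable with some `c ∈ c2 u` (`c2_nr`), `e ∈ c ⊆ {≥ e}`:
if `c ⊆ c'` then `e ∈ c'`; if `c' ⊆ c` then `c'` has an element of card `≤ 2` which is `≥ e`, it is `e`.
(nb_R2) `33 ≤ lS u ≤ 47`: some `C ∈ c3 u` has `f2 C = 2` or all have ..; in any case some `c ∈ c2 u` is mixed, `c ⊆ {≥ e}`, so
`e ∈ c` and some `σ ∈ c` is `> e`.  `lS u' ≥ 32`: no `c' ∈ c2 u'` has `f1 = 0`.  `c'` comparable with `c` (mixed one): if `c ⊆ c'`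
then `e ∈ c'` and `c'` has an element of card `≥ 3`; if `c' ⊆ c ⊆ {≥ e}`: `c'` has an element `> e`, and `e ∈ c'` or all
elements are `> e`.
(em_lev) on `in2 (Em e)`: `f1 ≤ 1`, `f2 ≤ 2`, `lS ≤ 32`, and `C ∈ V2 e ↔ f2 C = 2`; use `d3`.
(ep_lev) on `in2 (Ep e)`: `f1 ≥ 1`, `f2 ≥ 2`, `lS ≥ 32`, and `C ∈ V2 e ↔ f2 C = 2`; use `d3`.
(r2_lU) `c2 u ⊆ R2 e`: a `C ∈ c3 u` with `f2 C ≤ 3` contains a mixed `c`, `e ∈ c`, so `C ∈ PR e`; if `f2 C = 4` then `C ∉ PR e`.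
Dual statements with `lS` replaced by `64 - lS`.
-/

open Classical

noncomputable section

namespace MOT

variable {K : Lv} {m0 : ℕ}

/-! level functions with values on `c3` -/

private theorem j_le (f : Cq (sd (sd (tw K m0).G)) → ℕ) (u : PV K m0) (c : ℕ)
    (h : ∀ C ∈ c3 K m0 u, f C ≤ c) : lN K (m0 + 3) f 4 u ≤ 16 * c :=
  lN_le (K := K) (n := m0 + 3) (k := 4) (f := f) (x := u) (c := c) h

private theorem j_ge (f : Cq (sd (sd (tw K m0).G)) → ℕ) (u : PV K m0) (c : ℕ)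
    (h : ∀ C ∈ c3 K m0 u, c ≤ f C) : 16 * c ≤ lN K (m0 + 3) f 4 u :=
  le_lN (K := K) (n := m0 + 3) (k := 4) (f := f) (x := u) (c := c) h

private theorem j_lt (f : Cq (sd (sd (tw K m0).G)) → ℕ) (u : PV K m0) (c : ℕ)
    (h : ∀ C ∈ c3 K m0 u, f C ≤ c) (h' : ∃ C ∈ c3 K m0 u, f C < c) :
    lN K (m0 + 3) f 4 u < 16 * c :=
  lN_lt (K := K) (n := m0 + 3) (k := 4) (f := f) (x := u) (c := c) h h'

private theorem j_gt (f : Cq (sd (sd (tw K m0).G)) → ℕ) (u : PV K m0) (c : ℕ)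
    (h : ∀ C ∈ c3 K m0 u, c ≤ f C) (h' : ∃ C ∈ c3 K m0 u, c < f C) :
    16 * c < lN K (m0 + 3) f 4 u :=
  lt_lN (K := K) (n := m0 + 3) (k := 4) (f := f) (x := u) (c := c) h h'

private theorem j_refl (f g : Cq (sd (sd (tw K m0).G)) → ℕ) (u : PV K m0) (c : ℕ)
    (h : ∀ C ∈ c3 K m0 u, f C + g C = c) :
    lN K (m0 + 3) f 4 u + lN K (m0 + 3) g 4 u = 16 * c :=
  lN_refl (K := K) (n := m0 + 3) (k := 4) (f := f) (g := g) (x := u) (c := c) h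

private theorem j_ind_le {V : Type} (M : Set V) (x : V) : ind M x ≤ 1 := by
  unfold ind
  split_ifs <;> omega

private theorem j_ind_in {V : Type} {M : Set V} {x : V} (h : x ∈ M) : ind M x = 0 := if_pos h

private theorem j_ind_out {V : Type} {M : Set V} {x : V} (h : x ∉ M) : ind M x = 1 := if_neg h

private theorem j_ind_lip {V : Type} {G : SimpleGraph V} (M : Set V) (x y : V) (_ : G.Adj x y) :
    ind M x ≤ ind M y + 1 := by
  have := j_ind_le M x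
  omega

/-! values of `f1`, `f2` -/

section jvals

variable {Vc : Type} {Gc : SimpleGraph Vc}

/-- level `m0+2` -/
private def g1 (Gc : SimpleGraph Vc) : Cq (sd Gc) → ℕ := lsd (ind (Xs Gc))

private theorem g1_def (c : Cq (sd Gc)) :
    g1 Gc c = c.1.inf' c.2.1 (ind (Xs Gc)) + c.1.sup' c.2.1 (ind (Xs Gc)) := rfl

private theorem g2_def (C : Cq (sd (sd Gc))) :
    f2 Gc C = C.1.inf' C.2.1 (g1 Gc) + C.1.sup' C.2.1 (g1 Gc) := rfl

private theorem g1_lip (c d : Cq (sd Gc)) (h : (sd (sd Gc)).Adj c d) : g1 Gc c ≤ g1 Gc d + 1 :=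
  lsd_lip (G := sd Gc) (fun x y e => j_ind_lip (G := sd Gc) _ x y e) c d h

private theorem g2_lip (C D : Cq (sd (sd Gc))) (h : (sd (sd (sd Gc))).Adj C D) :
    f2 Gc C ≤ f2 Gc D + 1 :=
  lsd_lip (G := sd (sd Gc)) (fun x y e => g1_lip x y e) C D h

private theorem g1_le (c : Cq (sd Gc)) : g1 Gc c ≤ 2 := by
  obtain ⟨x, hx, ex⟩ := Finset.exists_mem_eq_inf' c.2.1 (ind (Xs Gc))
  obtain ⟨y, hy, ey⟩ := Finset.exists_mem_eq_sup' c.2.1 (ind (Xs Gc))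
  have h1 := j_ind_le (Xs Gc) x
  have h2 := j_ind_le (Xs Gc) y
  rw [g1_def, ex, ey]
  omega

private theorem g2_le (C : Cq (sd (sd Gc))) : f2 Gc C ≤ 4 := by
  obtain ⟨x, hx, ex⟩ := Finset.exists_mem_eq_inf' C.2.1 (g1 Gc)
  obtain ⟨y, hy, ey⟩ := Finset.exists_mem_eq_sup' C.2.1 (g1 Gc)
  have h1 := g1_le (Gc := Gc) x
  have h2 := g1_le (Gc := Gc) y
  rw [g2_def, ex, ey]
  omega

private theorem j_xs_in {s : Cq Gc} (h : s.1.card ≤ 2) : ind (Xs Gc) s = 0 := j_ind_in h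

private theorem j_xs_out {s : Cq Gc} (h : 3 ≤ s.1.card) : ind (Xs Gc) s = 1 :=
  j_ind_out (fun h' : s.1.card ≤ 2 => by omega)

private theorem g1_le_one {c : Cq (sd Gc)} {s : Cq Gc} (hs : s ∈ c.1) (h : s.1.card ≤ 2) :
    g1 Gc c ≤ 1 := by
  have h1 : c.1.inf' c.2.1 (ind (Xs Gc)) ≤ ind (Xs Gc) s := Finset.inf'_le _ hs
  obtain ⟨y, hy, ey⟩ := Finset.exists_mem_eq_sup' c.2.1 (ind (Xs Gc))
  have h2 := j_ind_le (Xs Gc) y
  rw [j_xs_in h] at h1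
  rw [g1_def, ey]
  omega

private theorem one_le_g1 {c : Cq (sd Gc)} {s : Cq Gc} (hs : s ∈ c.1) (h : 3 ≤ s.1.card) :
    1 ≤ g1 Gc c := by
  have h1 : ind (Xs Gc) s ≤ c.1.sup' c.2.1 (ind (Xs Gc)) := Finset.le_sup' _ hs
  rw [j_xs_out h] at h1
  rw [g1_def]
  omega

private theorem g1_two {c : Cq (sd Gc)} (h : ∀ s ∈ c.1, 3 ≤ s.1.card) : g1 Gc c = 2 := by
  obtain ⟨x, hx, ex⟩ := Finset.exists_mem_eq_inf' c.2.1 (ind (Xs Gc))
  obtain ⟨y, hy, ey⟩ := Finset.exists_mem_eq_sup' c.2.1 (ind (Xs Gc))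
  rw [g1_def, ex, ey, j_xs_out (h x hx), j_xs_out (h y hy)]

private theorem g1_zero {c : Cq (sd Gc)} (h : ∀ s ∈ c.1, s.1.card ≤ 2) : g1 Gc c = 0 := by
  obtain ⟨x, hx, ex⟩ := Finset.exists_mem_eq_inf' c.2.1 (ind (Xs Gc))
  obtain ⟨y, hy, ey⟩ := Finset.exists_mem_eq_sup' c.2.1 (ind (Xs Gc))
  rw [g1_def, ex, ey, j_xs_in (h x hx), j_xs_in (h y hy)]

private theorem small_of_ne {c : Cq (sd Gc)} (h : g1 Gc c ≠ 2) : ∃ s ∈ c.1, s.1.card ≤ 2 := by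
  by_contra hn
  push Not at hn
  exact h (g1_two fun s hs => hn s hs)

private theorem large_of_ne {c : Cq (sd Gc)} (h : g1 Gc c ≠ 0) : ∃ s ∈ c.1, 3 ≤ s.1.card := by
  by_contra hn
  push Not at hn
  exact h (g1_zero fun s hs => by have := hn s hs; omega)

private theorem g1_nr {C : Cq (sd (sd Gc))} {c d : Cq (sd Gc)} (hc : c ∈ C.1) (hd : d ∈ C.1) :
    g1 Gc c ≤ g1 Gc d + 1 := by
  by_cases h : c = d
  · rw [h]
    exact Nat.le_succ _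
  · exact g1_lip c d (C.2.2 (Finset.mem_coe.2 hc) (Finset.mem_coe.2 hd) h)

private theorem g2_ge {C : Cq (sd (sd Gc))} {k : ℕ} (h : ∀ c ∈ C.1, k ≤ g1 Gc c) :
    2 * k ≤ f2 Gc C := by
  obtain ⟨x, hx, ex⟩ := Finset.exists_mem_eq_inf' C.2.1 (g1 Gc)
  obtain ⟨y, hy, ey⟩ := Finset.exists_mem_eq_sup' C.2.1 (g1 Gc)
  have h1 := h x hx
  have h2 := h y hy
  rw [g2_def, ex, ey]
  omega

private theorem g2_up {C : Cq (sd (sd Gc))} {k : ℕ} (h : ∀ c ∈ C.1, g1 Gc c ≤ k) :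
    f2 Gc C ≤ 2 * k := by
  obtain ⟨x, hx, ex⟩ := Finset.exists_mem_eq_inf' C.2.1 (g1 Gc)
  obtain ⟨y, hy, ey⟩ := Finset.exists_mem_eq_sup' C.2.1 (g1 Gc)
  have h1 := h x hx
  have h2 := h y hy
  rw [g2_def, ex, ey]
  omega

private theorem g2_ge3 {C : Cq (sd (sd Gc))} {c : Cq (sd Gc)} (hc : c ∈ C.1)
    (h : g1 Gc c = 2) : 3 ≤ f2 Gc C := by
  obtain ⟨x, hx, ex⟩ := Finset.exists_mem_eq_inf' C.2.1 (g1 Gc)
  have h1 := g1_nr hc hx
  have h2 : g1 Gc c ≤ C.1.sup' C.2.1 (g1 Gc) := Finset.le_sup' _ hc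
  rw [g2_def, ex]
  omega

private theorem g2_le1 {C : Cq (sd (sd Gc))} {c : Cq (sd Gc)} (hc : c ∈ C.1)
    (h : g1 Gc c = 0) : f2 Gc C ≤ 1 := by
  obtain ⟨y, hy, ey⟩ := Finset.exists_mem_eq_sup' C.2.1 (g1 Gc)
  have h1 := g1_nr hy hc
  have h2 : C.1.inf' C.2.1 (g1 Gc) ≤ g1 Gc c := Finset.inf'_le _ hc
  rw [g2_def, ey]
  omega

private theorem g2_mixed {C : Cq (sd (sd Gc))} (h : f2 Gc C = 2) {c : Cq (sd Gc)}
    (hc : c ∈ C.1) : g1 Gc c = 1 := by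
  have h1 := g1_le (Gc := Gc) c
  by_contra h2
  rcases (by omega : g1 Gc c = 0 ∨ g1 Gc c = 2) with h3 | h3
  · have := g2_le1 hc h3
    omega
  · have := g2_ge3 hc h3
    omega

private theorem j_V2_two {e : Cq Gc} (he : e.1.card ≤ 2) {C : Cq (sd (sd Gc))}
    (h : C ∈ V2 Gc e) : f2 Gc C = 2 := by
  rw [f2_eq_two]
  intro c hc
  obtain ⟨h1, h2⟩ := h c hc
  exact ⟨⟨e, h1, he⟩, h2⟩

private theorem j_eq_of {e s : Cq Gc} (h : e ≤ s) (hc : s.1.card ≤ e.1.card) : e = s :=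
  Subtype.ext (Finset.eq_of_subset_of_card_le (Cq.le_iff.1 h) hc)

private theorem j_Ecard (e : Ec Gc) : e.q.1.card = 2 := e.2.1

private theorem j_Fcard (s : Fc Gc) : s.q.1.card = 3 := s.2.1

private theorem j_lt_of {e s : Cq Gc} (h : e ≤ s) (hc : e.1.card < s.1.card) : e < s :=
  lt_of_le_of_ne h fun h1 => by rw [h1] at hc; exact lt_irrefl _ hc

/-- two elements of a chain with different cardinalities -/
private theorem j_cmp {c : Cq (sd Gc)} {e s : Cq Gc} (he : e ∈ c.1) (hs : s ∈ c.1)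
    (hc : e.1.card < s.1.card) : e < s := by
  have hne : e ≠ s := fun h => by rw [h] at hc; exact lt_irrefl _ hc
  rcases sd_adj.1 (c.2.2 (Finset.mem_coe.2 he) (Finset.mem_coe.2 hs) hne) with h | h
  · exact h
  · have := Finset.card_le_card (Cq.le_iff.1 h.le)
    omega

end jvals

private theorem g2_nr {u : PV K m0} {C D : Cq (sd (sd (tw K m0).G))} (hC : C ∈ c3 K m0 u)
    (hD : D ∈ c3 K m0 u) : f2 (tw K m0).G C ≤ f2 (tw K m0).G D + 1 := by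
  by_cases h : C = D
  · rw [h]
    exact Nat.le_succ _
  · exact g2_lip C D (car_cl (K := K) (n := m0 + 3) (k := 4) u hC hD h)

private theorem c2_ne (u : PV K m0) : (c2 K m0 u).Nonempty := by
  obtain ⟨C, hC⟩ : (c3 K m0 u).Nonempty := car_ne (K := K) (n := m0 + 3) (k := 4) u
  obtain ⟨c, hc⟩ := C.2.1
  exact ⟨c, C, hC, hc⟩

private theorem c3_cmp {u u' : PV K m0} (h : Nr (tw K (m0 + 7)).G u u') :
    c3 K m0 u ⊆ c3 K m0 u' ∨ c3 K m0 u' ⊆ c3 K m0 u := by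
  rcases h with h | h
  · rw [h]
    exact Or.inl subset_rfl
  · exact car_cmp (K := K) (n := m0 + 3) (k := 3) h

private theorem c2_total {u u' : PV K m0} (h : Nr (tw K (m0 + 7)).G u u')
    {c c' : Cq (sd (tw K m0).G)} (hc : c ∈ c2 K m0 u) (hc' : c' ∈ c2 K m0 u') :
    c ≤ c' ∨ c' ≤ c := (c2_nr h).total (Or.inl hc) (Or.inr hc')

/-- `lS ≤ 32`: no `c` with all simplices of card `≥ 3` -/
private theorem no_two {u : PV K m0} (h : lS K m0 u ≤ 32) {c : Cq (sd (tw K m0).G)}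
    (hc : c ∈ c2 K m0 u) : ∃ s ∈ c.1, s.1.card ≤ 2 := by
  obtain ⟨C, hC, hcC⟩ := hc
  apply small_of_ne
  intro h2
  have h3 := g2_ge3 hcC h2
  have h4 : 16 * 2 < lS K m0 u := by
    refine j_gt (f2 (tw K m0).G) u 2 (fun D hD => ?_) ⟨C, hC, by omega⟩
    have := g2_nr hC hD
    omega
  omega

/-- `32 ≤ lS`: no `c` with all simplices of card `≤ 2` -/
private theorem no_zero {u : PV K m0} (h : 32 ≤ lS K m0 u) {c : Cq (sd (tw K m0).G)}
    (hc : c ∈ c2 K m0 u) : ∃ s ∈ c.1, 3 ≤ s.1.card := by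
  obtain ⟨C, hC, hcC⟩ := hc
  apply large_of_ne
  intro h2
  have h3 := g2_le1 hcC h2
  have h4 : lS K m0 u < 16 * 2 := by
    refine j_lt (f2 (tw K m0).G) u 2 (fun D hD => ?_) ⟨C, hC, by omega⟩
    have := g2_nr hD hC
    omega
  omega

theorem nb_R1 (e : Ec (tw K m0).G) :
    nb (tw K (m0 + 7)).G {u | c2 K m0 u ⊆ R1 (tw K m0).G e.q ∧ lS K m0 u ≤ 31} ⊆
      in2 (Em (tw K m0).G e.q) := by
  rintro u' ⟨u, ⟨hu, hlu⟩, hn⟩ c' hc'
  have h32 : lS K m0 u' ≤ 32 := by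
    have := lS_lip u' u hn
    omega
  obtain ⟨s, hs, hs2⟩ := no_two h32 hc'
  obtain ⟨c, hc⟩ := c2_ne u
  obtain ⟨h1, h2⟩ := hu hc
  show e.q ∈ c'.1
  rcases c2_total hn hc' hc with h3 | h3
  · have h4 : e.q = s := j_eq_of (h2 s (Cq.le_iff.1 h3 hs)) (by rw [j_Ecard e]; exact hs2)
    rw [h4]
    exact hs
  · exact Cq.le_iff.1 h3 h1

theorem nb_R2 (e : Ec (tw K m0).G) :
    nb (tw K (m0 + 7)).G {u | c2 K m0 u ⊆ R2 (tw K m0).G e.q ∧ 33 ≤ lS K m0 u ∧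
      lS K m0 u ≤ 47} ⊆ in2 (Ep (tw K m0).G e.q) := by
  rintro u' ⟨u, ⟨hu, hl1, hl2⟩, hn⟩ c' hc'
  have h32 : 32 ≤ lS K m0 u' := by
    have := lS_lip u u' hn.symm
    omega
  obtain ⟨s, hs, hs3⟩ := no_zero h32 hc'
  -- a mixed `c`
  obtain ⟨c, hc, t, ht, ht2⟩ : ∃ c ∈ c2 K m0 u, ∃ t ∈ c.1, t.1.card ≤ 2 := by
    by_contra h
    push Not at h
    have h1 : 16 * 4 ≤ lS K m0 u := by
      refine j_ge (f2 (tw K m0).G) u 4 fun C hC => ?_
      have := g2_ge (C := C) (k := 2) fun c hc =>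
        (g1_two fun t ht => h c ⟨C, hC, hc⟩ t ht).ge
      omega
    omega
  obtain ⟨h1, σ, hσ, hσe⟩ := hu hc
  have hte : e.q = t := j_eq_of (h1 t ht) (by rw [j_Ecard e]; exact ht2)
  have hec : e.q ∈ c.1 := by rw [hte]; exact ht
  show (e.q ∈ c'.1 ∧ ∃ s ∈ c'.1, 3 ≤ s.1.card) ∨ ∀ s ∈ c'.1, e.q < s
  rcases c2_total hn hc' hc with h3 | h3
  · by_cases he : e.q ∈ c'.1
    · exact Or.inl ⟨he, s, hs, hs3⟩
    · right
      intro r hr
      exact lt_of_le_of_ne (h1 r (Cq.le_iff.1 h3 hr)) fun h4 => he (by rw [h4]; exact hr)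
  · exact Or.inl ⟨Cq.le_iff.1 h3 hec, s, hs, hs3⟩

theorem nb_R2' (e : Ec (tw K m0).G) :
    nb (tw K (m0 + 7)).G {u | c2 K m0 u ⊆ R2 (tw K m0).G e.q ∧ 33 ≤ lS K m0 u} ⊆
      in2 (pl (sd (tw K m0).G) (Up e.q)) := by
  rintro u' ⟨u, ⟨hu, hl1⟩, hn⟩ c' hc'
  have h32 : 32 ≤ lS K m0 u' := by
    have := lS_lip u u' hn.symm
    omega
  obtain ⟨s, hs, hs3⟩ := no_zero h32 hc'
  obtain ⟨c, hc⟩ := c2_ne u
  obtain ⟨h1, σ, hσ, hσe⟩ := hu hc
  rcases c2_total hn hc' hc with h3 | h3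
  · exact ⟨s, hs, j_lt_of (h1 s (Cq.le_iff.1 h3 hs)) (by rw [j_Ecard e]; omega)⟩
  · exact ⟨σ, Cq.le_iff.1 h3 hσ, hσe⟩

theorem em_lev (e : Ec (tw K m0).G) (u : PV K m0) (h : u ∈ in2 (Em (tw K m0).G e.q)) :
    e.q ∈ cr K m0 u ∧ lS K m0 u ≤ 32 ∧ (16 ≤ lS K m0 u → lV K m0 e.q u + lS K m0 u = 32) := by
  obtain ⟨c, hc⟩ := c2_ne u
  have hf1 : ∀ C ∈ c3 K m0 u, ∀ c ∈ C.1, g1 (tw K m0).G c ≤ 1 := fun C hC c hc =>
    g1_le_one (h ⟨C, hC, hc⟩ : e.q ∈ c.1) (j_Ecard e).le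
  have h32 : lS K m0 u ≤ 32 := by
    have : lS K m0 u ≤ 16 * 2 := by
      refine j_le (f2 (tw K m0).G) u 2 fun C hC => ?_
      have := g2_up (C := C) (k := 1) (hf1 C hC)
      omega
    omega
  refine ⟨⟨c, hc, h hc⟩, h32, fun h16 => ?_⟩
  have h3 := d3 e u (fun C hC => ⟨fun h3 => j_V2_two (j_Ecard e).le h3, fun h3 => ?_⟩) h16
    (by omega)
  · omega
  · intro c hc
    exact ⟨h ⟨C, hC, hc⟩, ((f2_eq_two C).1 h3 c hc).2⟩

theorem ep_lev (e : Ec (tw K m0).G) (u : PV K m0) (h : u ∈ in2 (Ep (tw K m0).G e.q)) :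
    (∀ σ ∈ cr K m0 u, σ ≤ e.q ∨ e.q < σ) ∧ e.q < mxc u ∧
    32 ≤ lS K m0 u ∧ (lS K m0 u ≤ 48 → lV K m0 e.q u + 32 = lS K m0 u) := by
  have hlarge : ∀ c ∈ c2 K m0 u, ∃ s ∈ c.1, 3 ≤ s.1.card := by
    intro c hc
    rcases h hc with ⟨h1, h2⟩ | h1
    · exact h2
    · obtain ⟨s, hs⟩ := c.2.1
      refine ⟨s, hs, ?_⟩
      have h2 := Finset.card_lt_card (Cq.lt_iff.1 (h1 s hs))
      rw [j_Ecard e] at h2
      exact h2
  have hcmp : ∀ c ∈ c2 K m0 u, ∀ s ∈ c.1, s ≤ e.q ∨ e.q < s := by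
    intro c hc s hs
    rcases h hc with ⟨h1, h2⟩ | h1
    · by_cases hse : s = e.q
      · exact Or.inl hse.le
      · rcases sd_adj.1 (c.2.2 (Finset.mem_coe.2 hs) (Finset.mem_coe.2 h1) hse) with h3 | h3
        · exact Or.inl h3.le
        · exact Or.inr h3
    · exact Or.inr (h1 s hs)
  have h32 : 32 ≤ lS K m0 u := by
    have : 16 * 2 ≤ lS K m0 u := by
      refine j_ge (f2 (tw K m0).G) u 2 fun C hC => ?_
      have := g2_ge (C := C) (k := 1) fun c hc => by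
        obtain ⟨s, hs, hs3⟩ := hlarge c ⟨C, hC, hc⟩
        exact one_le_g1 hs hs3
      omega
    omega
  refine ⟨?_, ?_, h32, fun h48 => ?_⟩
  · rintro σ ⟨c, hc, hσ⟩
    exact hcmp c hc σ hσ
  · obtain ⟨c, hc⟩ := c2_ne u
    obtain ⟨s, hs, hs3⟩ := hlarge c hc
    have h1 : e.q < s := by
      rcases hcmp c hc s hs with h2 | h2
      · have h3 := Finset.card_le_card (Cq.le_iff.1 h2)
        rw [j_Ecard e] at h3
        omega
      · exact h2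
    exact lt_of_lt_of_le h1 (le_mxc u ⟨c, hc, hs⟩)
  · have h3 := d3 e u (fun C hC => ⟨fun h3 => j_V2_two (j_Ecard e).le h3, fun h3 => ?_⟩)
      (by omega) h48
    · omega
    · intro c hc
      obtain ⟨⟨s, hs, hs2⟩, h4⟩ := (f2_eq_two C).1 h3 c hc
      rcases h ⟨C, hC, hc⟩ with h1 | h1
      · exact h1
      · exfalso
        have h5 := Finset.card_lt_card (Cq.lt_iff.1 (h1 s hs))
        rw [j_Ecard e] at h5
        omega

theorem r1_lU (e : Ec (tw K m0).G) (u : PV K m0) (h : c2 K m0 u ⊆ R1 (tw K m0).G e.q) :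
    lU K m0 e.q u = 0 := by
  have h1 : lU K m0 e.q u ≤ 16 * 0 := by
    refine j_le (ind (PR (tw K m0).G e.q)) u 0 fun C hC => ?_
    obtain ⟨c, hc⟩ := C.2.1
    have h2 : C ∈ PR (tw K m0).G e.q := ⟨c, hc, h ⟨C, hC, hc⟩⟩
    exact (j_ind_in h2).le
  omega

theorem r2_lU (e : Ec (tw K m0).G) (u : PV K m0) (h : c2 K m0 u ⊆ R2 (tw K m0).G e.q) :
    (lS K m0 u ≤ 48 → lU K m0 e.q u = 0) ∧ (48 ≤ lS K m0 u → lU K m0 e.q u + 48 = lS K m0 u) := by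
  have hpos : ∀ c ∈ c2 K m0 u, 1 ≤ g1 (tw K m0).G c := by
    intro c hc
    obtain ⟨-, σ, hσ, hσe⟩ := h hc
    have h2 := Finset.card_lt_card (Cq.lt_iff.1 hσe)
    rw [j_Ecard e] at h2
    exact one_le_g1 hσ h2
  have hin : ∀ C ∈ c3 K m0 u, f2 (tw K m0).G C ≤ 3 → C ∈ PR (tw K m0).G e.q := by
    intro C hC h3
    obtain ⟨c, hc, h4⟩ : ∃ c ∈ C.1, g1 (tw K m0).G c ≠ 2 := by
      by_contra hn
      push Not at hn
      have := g2_ge (C := C) (k := 2) fun c hc => (hn c hc).ge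
      omega
    obtain ⟨s, hs, hs2⟩ := small_of_ne h4
    obtain ⟨h5, -⟩ := h ⟨C, hC, hc⟩
    have h6 : e.q = s := j_eq_of (h5 s hs) (by rw [j_Ecard e]; exact hs2)
    exact ⟨c, hc, by rw [h6]; exact hs, h5⟩
  have hout : ∀ C ∈ c3 K m0 u, f2 (tw K m0).G C = 4 → C ∉ PR (tw K m0).G e.q := by
    rintro C hC h4 ⟨c, hc, h5, -⟩
    have h6 := g1_le_one h5 (j_Ecard e).le
    have h7 : C.1.inf' C.2.1 (g1 (tw K m0).G) ≤ g1 (tw K m0).G c := Finset.inf'_le _ hc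
    obtain ⟨y, hy, ey⟩ := Finset.exists_mem_eq_sup' C.2.1 (g1 (tw K m0).G)
    have h8 := g1_le (Gc := (tw K m0).G) y
    rw [g2_def, ey] at h4
    omega
  constructor
  · intro h48
    have h3 : ∀ C ∈ c3 K m0 u, f2 (tw K m0).G C ≤ 3 := by
      intro C hC
      by_contra hn
      have h4 : 16 * 3 < lS K m0 u := by
        refine j_gt (f2 (tw K m0).G) u 3 (fun D hD => ?_) ⟨C, hC, by omega⟩
        have := g2_nr hC hD
        omega
      omega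
    have h1 : lU K m0 e.q u ≤ 16 * 0 :=
      j_le (ind (PR (tw K m0).G e.q)) u 0 fun C hC => (j_ind_in (hin C hC (h3 C hC))).le
    omega
  · intro h48
    have h2 : ∀ C ∈ c3 K m0 u, 2 ≤ f2 (tw K m0).G C := by
      intro C hC
      have := g2_ge (C := C) (k := 1) fun c hc => hpos c ⟨C, hC, hc⟩
      omega
    have h3 : ∀ C ∈ c3 K m0 u, 3 ≤ f2 (tw K m0).G C := by
      intro C hC
      by_contra hn
      have h4 : lS K m0 u < 16 * 3 := by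
        have h5 := h2 C hC
        refine j_lt (f2 (tw K m0).G) u 3 (fun D hD => ?_) ⟨C, hC, by omega⟩
        have := g2_nr hD hC
        omega
      omega
    have h4 : lN K (m0 + 3) (fun C => 4 - f2 (tw K m0).G C) 4 u + lS K m0 u = 16 * 4 := by
      refine j_refl (fun C => 4 - f2 (tw K m0).G C) (f2 (tw K m0).G) u 4 fun C _ => ?_
      have := g2_le C
      show 4 - f2 (tw K m0).G C + f2 (tw K m0).G C = 4
      omega
    have h5 : lN K (m0 + 3) (fun C => 4 - f2 (tw K m0).G C) 4 u + lU K m0 e.q u = 16 * 1 := by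
      refine j_refl (fun C => 4 - f2 (tw K m0).G C) (ind (PR (tw K m0).G e.q)) u 1
        fun C hC => ?_
      have h6 := h3 C hC
      have h7 := g2_le C
      show 4 - f2 (tw K m0).G C + ind (PR (tw K m0).G e.q) C = 1
      rcases (by omega : f2 (tw K m0).G C = 3 ∨ f2 (tw K m0).G C = 4) with h8 | h8
      · rw [j_ind_in (hin C hC h8.le), h8]
      · rw [j_ind_out (hout C hC h8), h8]
    omega

theorem d2_lD (s : Fc (tw K m0).G) (u : PV K m0) (h : c2 K m0 u ⊆ D2 (tw K m0).G s.q) :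
    (16 ≤ lS K m0 u → lD K m0 s.q u = 0) ∧ (lS K m0 u ≤ 16 → lD K m0 s.q u + lS K m0 u = 16) := by
  have hle : ∀ c ∈ c2 K m0 u, g1 (tw K m0).G c ≤ 1 := by
    intro c hc
    obtain ⟨-, σ, hσ, hσe⟩ := h hc
    have h2 := Finset.card_lt_card (Cq.lt_iff.1 hσe)
    rw [j_Fcard s] at h2
    exact g1_le_one hσ (by omega)
  have hin : ∀ C ∈ c3 K m0 u, 1 ≤ f2 (tw K m0).G C → C ∈ PD (tw K m0).G s.q := by
    intro C hC h3
    obtain ⟨c, hc, h4⟩ : ∃ c ∈ C.1, g1 (tw K m0).G c ≠ 0 := by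
      by_contra hn
      push Not at hn
      have := g2_up (C := C) (k := 0) fun c hc => (hn c hc).le
      omega
    obtain ⟨t, ht, ht3⟩ := large_of_ne h4
    obtain ⟨h5, -⟩ := h ⟨C, hC, hc⟩
    have h6 : t = s.q := j_eq_of (h5 t ht) (by rw [j_Fcard s]; exact ht3)
    exact ⟨c, hc, by rw [← h6]; exact ht, h5⟩
  have hout : ∀ C ∈ c3 K m0 u, f2 (tw K m0).G C = 0 → C ∉ PD (tw K m0).G s.q := by
    rintro C hC h4 ⟨c, hc, h5, -⟩
    have h6 := one_le_g1 h5 (j_Fcard s).ge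
    have h7 : g1 (tw K m0).G c ≤ C.1.sup' C.2.1 (g1 (tw K m0).G) := Finset.le_sup' _ hc
    rw [g2_def] at h4
    omega
  constructor
  · intro h16
    have h3 : ∀ C ∈ c3 K m0 u, 1 ≤ f2 (tw K m0).G C := by
      intro C hC
      by_contra hn
      have h4 : lS K m0 u < 16 * 1 := by
        refine j_lt (f2 (tw K m0).G) u 1 (fun D hD => ?_) ⟨C, hC, by omega⟩
        have := g2_nr hD hC
        omega
      omega
    have h1 : lD K m0 s.q u ≤ 16 * 0 :=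
      j_le (ind (PD (tw K m0).G s.q)) u 0 fun C hC => (j_ind_in (hin C hC (h3 C hC))).le
    omega
  · intro h16
    have h2 : ∀ C ∈ c3 K m0 u, f2 (tw K m0).G C ≤ 2 := by
      intro C hC
      have := g2_up (C := C) (k := 1) fun c hc => hle c ⟨C, hC, hc⟩
      omega
    have h3 : ∀ C ∈ c3 K m0 u, f2 (tw K m0).G C ≤ 1 := by
      intro C hC
      by_contra hn
      have h4 : 16 * 1 < lS K m0 u := by
        have h5 := h2 C hC
        refine j_gt (f2 (tw K m0).G) u 1 (fun D hD => ?_) ⟨C, hC, by omega⟩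
        have := g2_nr hC hD
        omega
      omega
    have h5 : lD K m0 s.q u + lS K m0 u = 16 * 1 := by
      refine j_refl (ind (PD (tw K m0).G s.q)) (f2 (tw K m0).G) u 1 fun C hC => ?_
      have h6 := h3 C hC
      rcases (by omega : f2 (tw K m0).G C = 1 ∨ f2 (tw K m0).G C = 0) with h8 | h8
      · rw [j_ind_in (hin C hC h8.ge), h8]
      · rw [j_ind_out (hout C hC h8), h8]
    omega

/-- the solid torus of `e` lies above `e` -/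
theorem lV_mxc (e : Ec (tw K m0).G) (u : PV K m0) (h : lV K m0 e.q u ≤ 15) : e.q < mxc u := by
  obtain ⟨C, hC, hV⟩ : ∃ C ∈ c3 K m0 u, C ∈ V2 (tw K m0).G e.q := by
    by_contra hn
    push Not at hn
    have h1 : 16 * 1 ≤ lV K m0 e.q u :=
      j_ge (ind (V2 (tw K m0).G e.q)) u 1 fun C hC => (j_ind_out (hn C hC)).ge
    omega
  obtain ⟨c, hc⟩ := C.2.1
  obtain ⟨h1, s, hs, hs3⟩ := hV c hc
  exact lt_of_lt_of_le (j_cmp h1 hs (by rw [j_Ecard e]; omega)) (le_mxc u ⟨c, ⟨C, hC, hc⟩, hs⟩)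

private theorem c2_common {u u' : PV K m0} (h : Nr (tw K (m0 + 7)).G u u') :
    ∃ c ∈ c2 K m0 u, c ∈ c2 K m0 u' := by
  have key : ∃ C ∈ c3 K m0 u, C ∈ c3 K m0 u' := by
    rcases c3_cmp h with h1 | h1
    · obtain ⟨C, hC⟩ : (c3 K m0 u).Nonempty := car_ne (K := K) (n := m0 + 3) (k := 4) u
      exact ⟨C, hC, h1 hC⟩
    · obtain ⟨C, hC⟩ : (c3 K m0 u').Nonempty := car_ne (K := K) (n := m0 + 3) (k := 4) u'
      exact ⟨C, h1 hC, hC⟩
  obtain ⟨C, hC, hC'⟩ := key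
  obtain ⟨c, hc⟩ := C.2.1
  exact ⟨c, ⟨C, hC, hc⟩, C, hC', hc⟩

/-- near a position with `cr ⊆ {≤ e}` the smallest element is `≤ e` -/
theorem mnc_near (e : Ec (tw K m0).G) (u u' : PV K m0) (h : Nr (tw K (m0 + 7)).G u u')
    (hu : ∀ σ ∈ cr K m0 u, σ ≤ e.q) : ∃ σ ∈ cr K m0 u', σ ≤ e.q ∧ σ ∈ cr K m0 u := by
  obtain ⟨c, hc, hc'⟩ := c2_common h
  obtain ⟨σ, hσ⟩ := c.2.1
  exact ⟨σ, ⟨c, hc', hσ⟩, hu σ ⟨c, hc, hσ⟩, c, hc, hσ⟩

theorem mxc_near (s : Fc (tw K m0).G) (u u' : PV K m0) (h : Nr (tw K (m0 + 7)).G u u')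
    (hu : ∀ σ ∈ cr K m0 u, s.q ≤ σ) : ∃ σ ∈ cr K m0 u', s.q ≤ σ ∧ σ ∈ cr K m0 u := by
  obtain ⟨c, hc, hc'⟩ := c2_common h
  obtain ⟨σ, hσ⟩ := c.2.1
  exact ⟨σ, ⟨c, hc', hσ⟩, hu σ ⟨c, hc, hσ⟩, c, hc, hσ⟩

/-- adjacent positions have a common element of the carriers -/
theorem cr_inter (u u' : PV K m0) (h : Nr (tw K (m0 + 7)).G u u') :
    ∃ c ∈ c2 K m0 u, c ∈ c2 K m0 u' := by
  exact c2_common h

end MOT
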