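import Pool.Agent.MOT.DmD

/-!
# MOT/DmW: the crossing cocycles in the domain (helper82)

Level `m0+1`: `weX e` is supported on the edge between the vertex `e0 e` and `e`, `wsX s` on the edge
between `s` and the tetrahedron `t0 s`.  Position level: `weD e = weX e` at the smallest elements of the
carriers, `wsD s = wsX s` at the largest elements.

On a clique `Q` of positions the union of the carriers `cr u` is a chain (`cr_nr`); if `lS < 64` on `Q` all
smallest elements are vertices or edges (`lS_lt_iff`), so they lie in `{v, e'}` for one vertex `v` and one edge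
`e'`: a function with at most two values on `Q`.  The same for the largest elements if `0 < lS`.
`rel_v`: `chvD v u = 1` iff the smallest element of `cr u` is `v`, or an edge `e ∋ v` with `e0 e ≠ v`.
`rel_t`: `chtD t u = 1` iff the largest element of `cr u` is `t`, or a triangle `s ⊆ t` with `t0 s ≠ t`
(every triangle lies in exactly two tetrahedra: `IsSph3.tri`).
-/

open Classical

noncomputable section

namespace MOT

variable {Vc : Type}

/-- a chosen end point of `e` -/
def e0 {Gc : SimpleGraph Vc} (e : Ec Gc) : Vc := pk e.q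

/-- a chosen tetrahedron at `s` -/
def t0 {Gc : SimpleGraph Vc} (s : Fc Gc) : Cq Gc :=
  if h : ∃ t : Te Gc, s.1 ⊆ t.1 then h.choose.q else s.q

def weX {Gc : SimpleGraph Vc} (e : Ec Gc) : Cq Gc → Cq Gc → ZMod 2 := fun a b =>
  if (a = vx Gc (e0 e) ∧ b = e.q) ∨ (b = vx Gc (e0 e) ∧ a = e.q) then 1 else 0

def wsX {Gc : SimpleGraph Vc} (s : Fc Gc) : Cq Gc → Cq Gc → ZMod 2 := fun a b =>
  if (a = s.q ∧ b = t0 s) ∨ (b = s.q ∧ a = t0 s) then 1 else 0

section aux

variable {Gc : SimpleGraph Vc}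

private theorem eq_of_card {a b : Cq Gc} (h : a ≤ b ∨ b ≤ a) (hc : a.1.card = b.1.card) :
    a = b := by
  rcases h with h | h
  · exact Subtype.ext (Finset.eq_of_subset_of_card_le (Cq.le_iff.1 h) hc.ge)
  · exact Subtype.ext (Finset.eq_of_subset_of_card_le (Cq.le_iff.1 h) hc.le).symm

private theorem ec_card (e : Ec Gc) : e.q.1.card = 2 := e.2.1

private theorem fc_card (s : Fc Gc) : s.q.1.card = 3 := s.2.1

private theorem te_card (t : Te Gc) : t.q.1.card = 4 := t.2.1

private theorem vx_card (x : Vc) : (vx Gc x).1.card = 1 := Finset.card_singleton x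

private theorem ec_inj {e e' : Ec Gc} (h : e.q = e'.q) : e = e' := Subtype.ext (congrArg (fun a : Cq Gc => a.1) h)

private theorem fc_inj {e e' : Fc Gc} (h : e.q = e'.q) : e = e' := Subtype.ext (congrArg (fun a : Cq Gc => a.1) h)

private theorem te_inj {e e' : Te Gc} (h : e.q = e'.q) : e = e' := Subtype.ext (congrArg (fun a : Cq Gc => a.1) h)

private theorem vx_inj {x y : Vc} (h : vx Gc x = vx Gc y) : x = y :=
  Finset.singleton_injective (congrArg (fun a : Cq Gc => a.1) h)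

private theorem two_val {a b c : Cq Gc} {n : ℕ} (h1 : a ≤ b ∨ b ≤ a) (h2 : b ≤ c ∨ c ≤ b)
    (h3 : a ≤ c ∨ c ≤ a) (ha : n ≤ a.1.card ∧ a.1.card ≤ n + 1)
    (hb : n ≤ b.1.card ∧ b.1.card ≤ n + 1) (hc : n ≤ c.1.card ∧ c.1.card ≤ n + 1) :
    a = b ∨ b = c ∨ a = c := by
  by_cases e1 : a.1.card = b.1.card
  · exact Or.inl (eq_of_card h1 e1)
  by_cases e2 : b.1.card = c.1.card
  · exact Or.inr (Or.inl (eq_of_card h2 e2))
  · exact Or.inr (Or.inr (eq_of_card h3 (by omega)))

private theorem coc_of {w : Cq Gc → Cq Gc → ZMod 2} (hs : ∀ a b, w a b = w b a)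
    (hd : ∀ a, w a a = 0) {a b c : Cq Gc} (h : a = b ∨ b = c ∨ a = c) :
    w a b + w b c = w a c := by
  rcases h with rfl | rfl | rfl
  · rw [hd, zero_add]
  · rw [hd, add_zero]
  · rw [hs b a, two_add, hd]

private theorem e0_mem (e : Ec Gc) : e0 e ∈ e.1 := pk_mem e.q

private theorem weX_sym (e : Ec Gc) (a b : Cq Gc) : weX e a b = weX e b a :=
  if_congr or_comm rfl rfl

private theorem wsX_sym (s : Fc Gc) (a b : Cq Gc) : wsX s a b = wsX s b a :=
  if_congr or_comm rfl rfl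

private theorem weX_self (e : Ec Gc) (a : Cq Gc) : weX e a a = 0 := by
  have key : ¬ (a = vx Gc (e0 e) ∧ a = e.q) := by
    rintro ⟨h1, h2⟩
    have h3 := ec_card e
    rw [← h2, h1, vx_card] at h3
    omega
  exact if_neg (fun h => h.elim key key)

private theorem tet_lk (s : Fc Gc) (t : Te Gc) (h : s.1 ⊆ t.1) :
    ∃ x ∈ Lk Gc (s.1 : Set Vc), t.1 = insert x s.1 := by
  have h1 : (t.1 \ s.1).card = 1 := by
    rw [Finset.card_sdiff_of_subset h, t.2.1, s.2.1]
  obtain ⟨x, hx⟩ := Finset.card_eq_one.1 h1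
  have hx1 : x ∈ t.1 \ s.1 := by rw [hx]; exact Finset.mem_singleton_self x
  rw [Finset.mem_sdiff] at hx1
  refine ⟨x, ?_, ?_⟩
  · intro y hy
    have hy' : y ∈ s.1 := Finset.mem_coe.1 hy
    refine t.2.2 (Finset.mem_coe.2 (h hy')) (Finset.mem_coe.2 hx1.1) ?_
    rintro rfl
    exact hx1.2 hy'
  · have h2 := Finset.sdiff_union_of_subset h
    rw [hx] at h2
    rw [← h2]
    rfl

private theorem t0_spec (hK : IsSph3 Gc) (s : Fc Gc) :
    ∃ t : Te Gc, t0 s = t.q ∧ s.1 ⊆ t.1 := by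
  have hex : ∃ t : Te Gc, s.1 ⊆ t.1 := by
    have h2 := hK.tri s.1 s.2.2 s.2.1
    have h3 : (Lk Gc (s.1 : Set Vc)).Nonempty := Set.nonempty_of_ncard_ne_zero (by omega)
    obtain ⟨x, hx⟩ := h3
    have hxs : x ∉ s.1 := by
      intro hxs
      exact (hx x (Finset.mem_coe.2 hxs)).ne rfl
    refine ⟨⟨insert x s.1, ?_, ?_⟩, Finset.subset_insert _ _⟩
    · rw [Finset.card_insert_of_notMem hxs, s.2.1]
    · intro a ha b hb hab
      rw [Finset.mem_coe, Finset.mem_insert] at ha hb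
      rcases ha with rfl | ha <;> rcases hb with rfl | hb
      · exact absurd rfl hab
      · exact (hx b (Finset.mem_coe.2 hb)).symm
      · exact hx a (Finset.mem_coe.2 ha)
      · exact s.2.2 (Finset.mem_coe.2 ha) (Finset.mem_coe.2 hb) hab
  refine ⟨hex.choose, ?_, hex.choose_spec⟩
  exact dif_pos hex

private theorem t0_card (hK : IsSph3 Gc) (s : Fc Gc) : (t0 s).1.card = 4 := by
  obtain ⟨t, h, -⟩ := t0_spec hK s
  rw [h, te_card]

private theorem wsX_self (hK : IsSph3 Gc) (s : Fc Gc) (a : Cq Gc) : wsX s a a = 0 := by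
  have key : ¬ (a = s.q ∧ a = t0 s) := by
    rintro ⟨h1, h2⟩
    have h3 := t0_card hK s
    rw [← h2, h1, fc_card] at h3
    omega
  exact if_neg (fun h => h.elim key key)

private theorem weX_pot (e : Ec Gc) {a b : Cq Gc} (ha : a ≤ e.q) (hb : b ≤ e.q)
    (hab : a ≤ b ∨ b ≤ a) :
    weX e a b = (if a = vx Gc (e0 e) then 1 else 0) + (if b = vx Gc (e0 e) then 1 else 0) := by
  have key : ∀ a b : Cq Gc, a ≤ e.q → b ≤ e.q → (a ≤ b ∨ b ≤ a) → a = vx Gc (e0 e) →
      b ≠ vx Gc (e0 e) → b = e.q := by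
    intro a b ha hb hab h1 h2
    have h3 := Finset.card_le_card (Cq.le_iff.1 hb)
    rw [ec_card] at h3
    have h4 := Finset.card_pos.2 b.2.1
    by_cases h5 : b.1.card = 2
    · exact eq_of_card (Or.inl hb) (by rw [h5, ec_card])
    · exfalso
      apply h2
      rw [← h1]
      exact eq_of_card hab.symm (by rw [h1, vx_card]; omega)
  by_cases h1 : a = vx Gc (e0 e)
  · by_cases h2 : b = vx Gc (e0 e)
    · rw [if_pos h1, if_pos h2, h1, h2, weX_self, two_add]
    · have h3 := key a b ha hb hab h1 h2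
      rw [if_pos h1, if_neg h2, add_zero]
      exact if_pos (Or.inl ⟨h1, h3⟩)
  · by_cases h2 : b = vx Gc (e0 e)
    · have h3 := key b a hb ha hab.symm h2 h1
      rw [if_neg h1, if_pos h2, zero_add]
      exact if_pos (Or.inr ⟨h2, h3⟩)
    · rw [if_neg h1, if_neg h2, add_zero]
      exact if_neg (fun h => h.elim (fun h => h1 h.1) (fun h => h2 h.1))

private theorem wsX_pot (hK : IsSph3 Gc) (s : Fc Gc) {a b : Cq Gc} (ha : s.q ≤ a) (hb : s.q ≤ b)
    (hab : a ≤ b ∨ b ≤ a) :
    wsX s a b = (if a = t0 s then 1 else 0) + (if b = t0 s then 1 else 0) := by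
  have key : ∀ a b : Cq Gc, s.q ≤ b → (a ≤ b ∨ b ≤ a) → a = t0 s → b ≠ t0 s → b = s.q := by
    intro a b hb hab h1 h2
    have h3 := Finset.card_le_card (Cq.le_iff.1 hb)
    rw [fc_card] at h3
    have h4 := hK.k5 b.1 b.2.2
    by_cases h5 : b.1.card = 3
    · exact (eq_of_card (Or.inl hb) (by rw [h5, fc_card])).symm
    · exfalso
      apply h2
      rw [← h1]
      exact eq_of_card hab.symm (by rw [h1, t0_card hK]; omega)
  by_cases h1 : a = t0 s
  · by_cases h2 : b = t0 s
    · rw [if_pos h1, if_pos h2, h1, h2, wsX_self hK, two_add]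
    · have h3 := key a b hb hab h1 h2
      rw [if_pos h1, if_neg h2, add_zero]
      exact if_pos (Or.inr ⟨h3, h1⟩)
  · by_cases h2 : b = t0 s
    · have h3 := key b a ha hab.symm h2 h1
      rw [if_neg h1, if_pos h2, zero_add]
      exact if_pos (Or.inl ⟨h3, h2⟩)
    · rw [if_neg h1, if_neg h2, add_zero]
      exact if_neg (fun h => h.elim (fun h => h2 h.2) (fun h => h1 h.2))

private def chX (v : Vc) (a : Cq Gc) : ZMod 2 :=
  if a = vx Gc v ∨ ∃ e : Ec Gc, a = e.q ∧ v ∈ e.1 ∧ e0 e ≠ v then 1 else 0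

private theorem chX_vx (v p : Vc) : chX v (vx Gc p) = if p = v then 1 else 0 := by
  refine if_congr ?_ rfl rfl
  constructor
  · rintro (h | ⟨e, h, -⟩)
    · exact vx_inj h
    · exfalso
      have h3 := ec_card e
      rw [← h, vx_card] at h3
      omega
  · rintro rfl
    exact Or.inl rfl

private theorem chX_ec (v : Vc) (e : Ec Gc) :
    chX v e.q = if v ∈ e.1 ∧ e0 e ≠ v then 1 else 0 := by
  refine if_congr ?_ rfl rfl
  constructor
  · rintro (h | ⟨e', h, h'⟩)
    · exfalso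
      have h3 := ec_card e
      rw [h, vx_card] at h3
      omega
    · have := ec_inj h
      subst this
      exact h'
  · intro h
    exact Or.inr ⟨e, rfl, h⟩

private theorem relX_one (v p : Vc) (e : Ec Gc) (hpe : p ∈ e.1) :
    cmb (fun e : Ec Gc => if v ∈ e.1 then 1 else 0) weX (vx Gc p) e.q =
      chX v (vx Gc p) + chX v e.q := by
  have h1 : cmb (fun e : Ec Gc => if v ∈ e.1 then 1 else 0) weX (vx Gc p) e.q =
      (if v ∈ e.1 then 1 else 0) * weX e (vx Gc p) e.q := by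
    refine finsum_eq_single _ e (fun e' he' => ?_)
    have h2 : weX e' (vx Gc p) e.q = 0 := by
      refine if_neg ?_
      rintro (⟨-, h⟩ | ⟨-, h⟩)
      · exact he' (ec_inj h).symm
      · have h3 := ec_card e'
        rw [← h, vx_card] at h3
        omega
    rw [h2, mul_zero]
  have h2 : weX e (vx Gc p) e.q = if p = e0 e then 1 else 0 := by
    refine if_congr ?_ rfl rfl
    constructor
    · rintro (⟨h, -⟩ | ⟨-, h⟩)
      · exact vx_inj h
      · exfalso
        have h3 := ec_card e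
        rw [← h, vx_card] at h3
        omega
    · rintro rfl
      exact Or.inl ⟨rfl, rfl⟩
  rw [h1, h2, chX_vx, chX_ec]
  by_cases hv : v ∈ e.1
  · rw [if_pos hv, one_mul]
    by_cases hp : p = e0 e
    · rw [if_pos hp]
      by_cases hpv : p = v
      · rw [if_pos hpv, if_neg (fun h => h.2 (hp.symm.trans hpv)), add_zero]
      · rw [if_neg hpv, if_pos ⟨hv, fun h => hpv (hp.trans h)⟩, zero_add]
    · rw [if_neg hp]
      by_cases hpv : p = v
      · rw [if_pos hpv, if_pos ⟨hv, fun h => hp (hpv.trans h.symm)⟩, two_add]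
      · have h0 : e0 e = v := by
          by_contra h0
          have h5 : ({p, v, e0 e} : Finset Vc) ⊆ e.1 := by
            intro z hz
            rw [Finset.mem_insert, Finset.mem_insert, Finset.mem_singleton] at hz
            rcases hz with rfl | rfl | rfl
            · exact hpe
            · exact hv
            · exact e0_mem e
          have h6 := Finset.card_le_card h5
          rw [Finset.card_eq_three.2 ⟨p, v, e0 e, hpv, hp, fun h => h0 h.symm, rfl⟩, e.2.1] at h6
          omega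
        rw [if_neg hpv, if_neg (fun h => h.2 h0), add_zero]
  · rw [if_neg hv, zero_mul, if_neg (fun h : p = v => hv (h ▸ hpe)), if_neg (fun h => hv h.1),
      add_zero]

private theorem cmbX_sym (A : Ec Gc → ZMod 2) (a b : Cq Gc) : cmb A weX a b = cmb A weX b a :=
  finsum_congr (fun e => by rw [weX_sym])

private theorem relX (v : Vc) {a b : Cq Gc} (hab : a ≤ b ∨ b ≤ a) (ha : a.1.card ≤ 2)
    (hb : b.1.card ≤ 2) :
    cmb (fun e : Ec Gc => if v ∈ e.1 then 1 else 0) weX a b = chX v a + chX v b := by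
  by_cases hc : a.1.card = b.1.card
  · rw [eq_of_card hab hc, two_add]
    exact finsum_eq_zero_of_forall_eq_zero (fun e => by rw [weX_self, mul_zero])
  · have key : ∀ a b : Cq Gc, a ≤ b → a.1.card ≠ b.1.card → b.1.card ≤ 2 →
        cmb (fun e : Ec Gc => if v ∈ e.1 then 1 else 0) weX a b = chX v a + chX v b := by
      intro a b hle hne h2
      have h3 := Finset.card_le_card (Cq.le_iff.1 hle)
      have h4 := Finset.card_pos.2 a.2.1
      have h5 : a.1.card = 1 := by omega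
      have h6 : b.1.card = 2 := by omega
      obtain ⟨p, hp⟩ := Finset.card_eq_one.1 h5
      have e1 : a = vx Gc p := Subtype.ext hp
      have e2 : b = Ec.q (⟨b.1, h6, b.2.2⟩ : Ec Gc) := Subtype.ext rfl
      have hpb : p ∈ b.1 := by
        apply Cq.le_iff.1 hle
        rw [hp]
        exact Finset.mem_singleton_self p
      rw [e1, e2]
      exact relX_one v p _ hpb
    rcases hab with h | h
    · exact key a b h hc hb
    · rw [cmbX_sym, add_comm]
      exact key b a h (Ne.symm hc) ha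

private def chY (t : Te Gc) (a : Cq Gc) : ZMod 2 :=
  if a = t.q ∨ ∃ s : Fc Gc, a = s.q ∧ s.1 ⊆ t.1 ∧ t0 s ≠ t.q then 1 else 0

private theorem chY_te (t t' : Te Gc) : chY t t'.q = if t' = t then 1 else 0 := by
  refine if_congr ?_ rfl rfl
  constructor
  · rintro (h | ⟨e, h, -⟩)
    · exact te_inj h
    · exfalso
      have h3 := fc_card e
      rw [← h, te_card] at h3
      omega
  · rintro rfl
    exact Or.inl rfl

private theorem chY_fc (t : Te Gc) (s : Fc Gc) :
    chY t s.q = if s.1 ⊆ t.1 ∧ t0 s ≠ t.q then 1 else 0 := by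
  refine if_congr ?_ rfl rfl
  constructor
  · rintro (h | ⟨e', h, h'⟩)
    · exfalso
      have h3 := fc_card s
      rw [h, te_card] at h3
      omega
    · have := fc_inj h
      subst this
      exact h'
  · intro h
    exact Or.inr ⟨s, rfl, h⟩

private theorem relY_one (hK : IsSph3 Gc) (t t' : Te Gc) (s : Fc Gc) (hst : s.1 ⊆ t'.1) :
    cmb (fun s : Fc Gc => if s.1 ⊆ t.1 then 1 else 0) wsX s.q t'.q = chY t s.q + chY t t'.q := by
  have h1 : cmb (fun s : Fc Gc => if s.1 ⊆ t.1 then 1 else 0) wsX s.q t'.q =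
      (if s.1 ⊆ t.1 then 1 else 0) * wsX s s.q t'.q := by
    refine finsum_eq_single _ s (fun s' hs' => ?_)
    have h2 : wsX s' s.q t'.q = 0 := by
      refine if_neg ?_
      rintro (⟨h, -⟩ | ⟨h, -⟩)
      · exact hs' (fc_inj h).symm
      · have h3 := fc_card s'
        rw [← h, te_card] at h3
        omega
    rw [h2, mul_zero]
  have h2 : wsX s s.q t'.q = if t0 s = t'.q then 1 else 0 := by
    refine if_congr ?_ rfl rfl
    constructor
    · rintro (⟨-, h⟩ | ⟨h, -⟩)
      · exact h.symm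
      · exfalso
        have h3 := fc_card s
        rw [← h, te_card] at h3
        omega
    · intro h
      exact Or.inl ⟨rfl, h.symm⟩
  rw [h1, h2, chY_te, chY_fc]
  by_cases hv : s.1 ⊆ t.1
  · rw [if_pos hv, one_mul]
    by_cases hp : t0 s = t'.q
    · rw [if_pos hp]
      by_cases hpv : t' = t
      · rw [if_pos hpv, if_neg (fun h => h.2 (by rw [hp, hpv])), zero_add]
      · rw [if_neg hpv, if_pos ⟨hv, fun h => hpv (te_inj (hp.symm.trans h))⟩, add_zero]
    · rw [if_neg hp]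
      by_cases hpv : t' = t
      · rw [if_pos hpv, if_pos ⟨hv, fun h => hp (by rw [h, hpv])⟩, two_add]
      · have h0 : t0 s = t.q := by
          by_contra h0
          obtain ⟨t'', e'', hs''⟩ := t0_spec hK s
          obtain ⟨x, hx, ex⟩ := tet_lk s t hv
          obtain ⟨y, hy, ey⟩ := tet_lk s t' hst
          obtain ⟨z, hz, ez⟩ := tet_lk s t'' hs''
          have h7 := hK.tri s.1 s.2.2 s.2.1
          obtain ⟨p, q, hpq, hL⟩ := Set.ncard_eq_two.1 h7
          have hxy : x ≠ y := by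
            rintro rfl
            exact hpv (Subtype.ext (ey.trans ex.symm))
          have hxz : x ≠ z := by
            rintro rfl
            apply h0
            rw [e'']
            exact congrArg Te.q (Subtype.ext (ez.trans ex.symm))
          have hyz : y ≠ z := by
            rintro rfl
            apply hp
            rw [e'']
            exact congrArg Te.q (Subtype.ext (ez.trans ey.symm))
          rw [hL] at hx hy hz
          rcases hx with rfl | hx <;> rcases hy with rfl | hy <;> rcases hz with rfl | hz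
          · exact hxy rfl
          · exact hxy rfl
          · exact hxz rfl
          · exact hyz ((Set.mem_singleton_iff.1 hy).trans (Set.mem_singleton_iff.1 hz).symm)
          · exact hyz rfl
          · exact hxz ((Set.mem_singleton_iff.1 hx).trans (Set.mem_singleton_iff.1 hz).symm)
          · exact hxy ((Set.mem_singleton_iff.1 hx).trans (Set.mem_singleton_iff.1 hy).symm)
          · exact hxy ((Set.mem_singleton_iff.1 hx).trans (Set.mem_singleton_iff.1 hy).symm)
        rw [if_neg hpv, if_neg (fun h => h.2 h0), add_zero]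
  · rw [if_neg hv, zero_mul, if_neg (fun h : t' = t => hv (h ▸ hst)), if_neg (fun h => hv h.1),
      add_zero]

private theorem cmbY_sym (A : Fc Gc → ZMod 2) (a b : Cq Gc) : cmb A wsX a b = cmb A wsX b a :=
  finsum_congr (fun e => by rw [wsX_sym])

private theorem relY (hK : IsSph3 Gc) (t : Te Gc) {a b : Cq Gc} (hab : a ≤ b ∨ b ≤ a)
    (ha : 3 ≤ a.1.card) (hb : 3 ≤ b.1.card) :
    cmb (fun s : Fc Gc => if s.1 ⊆ t.1 then 1 else 0) wsX a b = chY t a + chY t b := by
  by_cases hc : a.1.card = b.1.card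
  · rw [eq_of_card hab hc, two_add]
    exact finsum_eq_zero_of_forall_eq_zero (fun e => by rw [wsX_self hK, mul_zero])
  · have key : ∀ a b : Cq Gc, a ≤ b → a.1.card ≠ b.1.card → 3 ≤ a.1.card →
        cmb (fun s : Fc Gc => if s.1 ⊆ t.1 then 1 else 0) wsX a b = chY t a + chY t b := by
      intro a b hle hne h2
      have h3 := Finset.card_le_card (Cq.le_iff.1 hle)
      have h4 := hK.k5 b.1 b.2.2
      have h5 : a.1.card = 3 := by omega
      have h6 : b.1.card = 4 := by omega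
      have e1 : a = Fc.q (⟨a.1, h5, a.2.2⟩ : Fc Gc) := Subtype.ext rfl
      have e2 : b = Te.q (⟨b.1, h6, b.2.2⟩ : Te Gc) := Subtype.ext rfl
      rw [e1, e2]
      exact relY_one hK t _ _ (Cq.le_iff.1 hle)
    rcases hab with h | h
    · exact key a b h hc ha
    · rw [cmbY_sym, add_comm]
      exact key b a h (Ne.symm hc) hb

end aux

variable {K : Lv} {m0 : ℕ}

theorem mn_ex (u : PV K m0) : ∃ s ∈ cr K m0 u, ∀ t ∈ cr K m0 u, s ≤ t := by
  obtain ⟨m, hm⟩ := (Set.toFinite (cr K m0 u)).exists_minimal (cr_ne u)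
  refine ⟨m, hm.1, fun t ht => ?_⟩
  rcases (cr_chain u).total hm.1 ht with h | h
  · exact h
  · exact hm.2 ht h

theorem mx_ex (u : PV K m0) : ∃ s ∈ cr K m0 u, ∀ t ∈ cr K m0 u, t ≤ s := by
  obtain ⟨m, hm⟩ := (Set.toFinite (cr K m0 u)).exists_maximal (cr_ne u)
  refine ⟨m, hm.1, fun t ht => ?_⟩
  rcases (cr_chain u).total hm.1 ht with h | h
  · exact hm.2 ht h
  · exact h

/-- smallest element of the carrier -/
def mnc (u : PV K m0) : Cq (tw K m0).G := (mn_ex u).choose

/-- largest element of the carrier -/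
def mxc (u : PV K m0) : Cq (tw K m0).G := (mx_ex u).choose

theorem mnc_mem (u : PV K m0) : mnc u ∈ cr K m0 u := (mn_ex u).choose_spec.1

theorem mnc_le (u : PV K m0) {t} (h : t ∈ cr K m0 u) : mnc u ≤ t := (mn_ex u).choose_spec.2 t h

theorem mxc_mem (u : PV K m0) : mxc u ∈ cr K m0 u := (mx_ex u).choose_spec.1

theorem le_mxc (u : PV K m0) {t} (h : t ∈ cr K m0 u) : t ≤ mxc u := (mx_ex u).choose_spec.2 t h

/-- `cr` is the carrier on level `m0+1` -/
theorem cr_eq (u : PV K m0) : cr K m0 u = car K (m0 + 1) 6 u := by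
  ext s
  constructor
  · rintro ⟨c, ⟨C, ⟨x1, h1, x2, h2, x3, h3, x4, h4, h5⟩, hc⟩, hs⟩
    have h5' : C = x4 := h5
    subst h5'
    exact ⟨x1, h1, x2, h2, x3, h3, C, h4, c, hc, s, hs, rfl⟩
  · rintro ⟨x1, h1, x2, h2, x3, h3, C, h4, c, hc, s', hs, h5⟩
    have h5' : s = s' := h5
    subst h5'
    exact ⟨c, ⟨C, ⟨x1, h1, x2, h2, x3, h3, C, h4, rfl⟩, hc⟩, hs⟩

private theorem mnc_comp {u u' : PV K m0} (h : Nr (tw K (m0 + 7)).G u u') :
    mnc u ≤ mnc u' ∨ mnc u' ≤ mnc u :=
  (cr_nr h).total (Or.inl (mnc_mem u)) (Or.inr (mnc_mem u'))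

private theorem mxc_comp {u u' : PV K m0} (h : Nr (tw K (m0 + 7)).G u u') :
    mxc u ≤ mxc u' ∨ mxc u' ≤ mxc u :=
  (cr_nr h).total (Or.inl (mxc_mem u)) (Or.inr (mxc_mem u'))

private theorem mnc_card {u : PV K m0} (h : lS K m0 u < 64) :
    1 ≤ (mnc u).1.card ∧ (mnc u).1.card ≤ 1 + 1 := by
  obtain ⟨s, hs, h2⟩ := (lS_lt_iff u).1 h
  have h3 := Finset.card_le_card (Cq.le_iff.1 (mnc_le u hs))
  exact ⟨Finset.card_pos.2 (mnc u).2.1, by omega⟩

private theorem mxc_card {u : PV K m0} (h : 0 < lS K m0 u) : 3 ≤ (mxc u).1.card := by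
  obtain ⟨s, hs, h2⟩ := (lS_pos_iff u).1 h
  have h3 := Finset.card_le_card (Cq.le_iff.1 (le_mxc u hs))
  omega

def weD (e : Ec (tw K m0).G) : PV K m0 → PV K m0 → ZMod 2 := pbk mnc (weX e)

def wsD (s : Fc (tw K m0).G) : PV K m0 → PV K m0 → ZMod 2 := pbk mxc (wsX s)

def chvD (v : (tw K m0).V) (u : PV K m0) : ZMod 2 :=
  if mnc u = vx (tw K m0).G v ∨ ∃ e : Ec (tw K m0).G, mnc u = e.q ∧ v ∈ e.1 ∧ e0 e ≠ v then 1 else 0

def chtD (t : Te (tw K m0).G) (u : PV K m0) : ZMod 2 :=
  if mxc u = t.q ∨ ∃ s : Fc (tw K m0).G, mxc u = s.q ∧ s.1 ⊆ t.1 ∧ t0 s ≠ t.q then 1 else 0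

theorem weD_sym (e : Ec (tw K m0).G) (u u' : PV K m0) : weD e u u' = weD e u' u :=
  weX_sym e _ _

theorem wsD_sym (s : Fc (tw K m0).G) (u u' : PV K m0) : wsD s u u' = wsD s u' u :=
  wsX_sym s _ _

theorem weD_dia (e : Ec (tw K m0).G) (u : PV K m0) : weD e u u = 0 := weX_self e _

theorem wsD_dia (hK : IsSph3 (tw K m0).G) (s : Fc (tw K m0).G) (u : PV K m0) :
    wsD s u u = 0 := wsX_self hK s _

theorem weD_coc (e : Ec (tw K m0).G) (x y z : PV K m0) (h1 : Nr (tw K (m0 + 7)).G x y)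
    (h2 : Nr (tw K (m0 + 7)).G y z) (h3 : Nr (tw K (m0 + 7)).G x z) (hx : lS K m0 x < 64)
    (hy : lS K m0 y < 64) (hz : lS K m0 z < 64) : weD e x y + weD e y z = weD e x z :=
  coc_of (weX_sym e) (weX_self e) (two_val (mnc_comp h1) (mnc_comp h2) (mnc_comp h3)
    (mnc_card hx) (mnc_card hy) (mnc_card hz))

theorem wsD_coc (hK : IsSph3 (tw K m0).G) (s : Fc (tw K m0).G) (x y z : PV K m0) (h1 : Nr (tw K (m0 + 7)).G x y)
    (h2 : Nr (tw K (m0 + 7)).G y z) (h3 : Nr (tw K (m0 + 7)).G x z) (hx : 0 < lS K m0 x)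
    (hy : 0 < lS K m0 y) (hz : 0 < lS K m0 z) : wsD s x y + wsD s y z = wsD s x z :=
  coc_of (wsX_sym s) (wsX_self hK s) (two_val (mxc_comp h1) (mxc_comp h2) (mxc_comp h3)
    ⟨mxc_card hx, hK.k5 _ (mxc x).2.2⟩ ⟨mxc_card hy, hK.k5 _ (mxc y).2.2⟩
    ⟨mxc_card hz, hK.k5 _ (mxc z).2.2⟩)

theorem relD_v (v : (tw K m0).V) (x y : PV K m0) (h1 : Nr (tw K (m0 + 7)).G x y)
    (hx : lS K m0 x < 64) (hy : lS K m0 y < 64) :
    cmb (fun e : Ec (tw K m0).G => if v ∈ e.1 then 1 else 0) weD x y = chvD v x + chvD v y :=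
  relX v (mnc_comp h1) (mnc_card hx).2 (mnc_card hy).2

theorem relD_t (hK : IsSph3 (tw K m0).G) (t : Te (tw K m0).G) (x y : PV K m0)
    (h1 : Nr (tw K (m0 + 7)).G x y) (hx : 0 < lS K m0 x) (hy : 0 < lS K m0 y) :
    cmb (fun s : Fc (tw K m0).G => if s.1 ⊆ t.1 then 1 else 0) wsD x y = chtD t x + chtD t y :=
  relY hK t (mxc_comp h1) (mxc_card hx) (mxc_card hy)

/-! local values near an edge / a triangle of the coarse complex -/

/-- near `e` only the cocycles `ws s` with `e ⊆ s` are nonzero -/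
theorem wsD_zero (e : Ec (tw K m0).G) (s : Fc (tw K m0).G) (h : ¬ e.1 ⊆ s.1) (x y : PV K m0)
    (h1 : Nr (tw K (m0 + 7)).G x y) (hx : e.q ∈ cr K m0 x) (hy : e.q ∈ cr K m0 y) :
    wsD s x y = 0 := by
  refine if_neg ?_
  rintro (⟨h2, -⟩ | ⟨h2, -⟩)
  · exact h (Cq.le_iff.1 (h2 ▸ le_mxc x hx))
  · exact h (Cq.le_iff.1 (h2 ▸ le_mxc y hy))

/-- near `e` the cocycle `we e'` is zero for `e' ≠ e` -/
theorem weD_zero (e e' : Ec (tw K m0).G) (h : e ≠ e') (x y : PV K m0)
    (h1 : Nr (tw K (m0 + 7)).G x y) (hx : e.q ∈ cr K m0 x) (hy : e.q ∈ cr K m0 y) :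
    weD e' x y = 0 := by
  have key : ∀ u : PV K m0, e.q ∈ cr K m0 u → mnc u ≠ e'.q := by
    intro u hu h2
    have h3 := mnc_le u hu
    rw [h2] at h3
    exact h (ec_inj (eq_of_card (Or.inl h3) (by rw [ec_card, ec_card]))).symm
  refine if_neg ?_
  rintro (⟨-, h2⟩ | ⟨-, h2⟩)
  · exact key y hy h2
  · exact key x hx h2

/-- near `e` the cocycle `we e` has a potential -/
theorem weD_pot (e : Ec (tw K m0).G) (x y : PV K m0)
    (h1 : Nr (tw K (m0 + 7)).G x y) (hx : e.q ∈ cr K m0 x) (hy : e.q ∈ cr K m0 y) :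
    weD e x y = (if mnc x = vx _ (e0 e) then 1 else 0) + (if mnc y = vx _ (e0 e) then 1 else 0) :=
  weX_pot e (mnc_le x hx) (mnc_le y hy) (mnc_comp h1)

/-- near `s` the cocycle `we e` is zero for edges `e` not in `s` -/
theorem weD_zero' (e : Ec (tw K m0).G) (s : Fc (tw K m0).G) (h : ¬ e.1 ⊆ s.1) (x y : PV K m0)
    (h1 : Nr (tw K (m0 + 7)).G x y) (hx : s.q ∈ cr K m0 x) (hy : s.q ∈ cr K m0 y) :
    weD e x y = 0 := by
  refine if_neg ?_
  rintro (⟨-, h2⟩ | ⟨-, h2⟩)
  · exact h (Cq.le_iff.1 (h2 ▸ mnc_le y hy))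
  · exact h (Cq.le_iff.1 (h2 ▸ mnc_le x hx))

/-- near `s` the cocycle `ws s'` is zero for `s' ≠ s` -/
theorem wsD_zero' (s s' : Fc (tw K m0).G) (h : s ≠ s') (x y : PV K m0)
    (h1 : Nr (tw K (m0 + 7)).G x y) (hx : s.q ∈ cr K m0 x) (hy : s.q ∈ cr K m0 y) :
    wsD s' x y = 0 := by
  have key : ∀ u : PV K m0, s.q ∈ cr K m0 u → mxc u ≠ s'.q := by
    intro u hu h2
    have h3 := le_mxc u hu
    rw [h2] at h3
    exact h (fc_inj (eq_of_card (Or.inl h3) (by rw [fc_card, fc_card])))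
  refine if_neg ?_
  rintro (⟨h2, -⟩ | ⟨h2, -⟩)
  · exact key x hx h2
  · exact key y hy h2

/-- near `s` the cocycle `ws s` has a potential -/
theorem wsD_pot (hK : IsSph3 (tw K m0).G) (s : Fc (tw K m0).G) (x y : PV K m0)
    (h1 : Nr (tw K (m0 + 7)).G x y) (hx : s.q ∈ cr K m0 x) (hy : s.q ∈ cr K m0 y) :
    wsD s x y = (if mxc x = t0 s then 1 else 0) + (if mxc y = t0 s then 1 else 0) :=
  wsX_pot hK s (le_mxc x hx) (le_mxc y hy) (mxc_comp h1)

end MOT
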