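import Pool.Agent.MOT.DmW

/-!
# MOT/DmX: `topD`, `ttD` and the local cocycle conditions in the domain (helper82)

On a clique of positions the union of the carriers is a chain (`cr_nr`); if `lS < 64` all smallest elements lie in
`{v, e}` (one vertex, one edge, `v ≤ e`), `topD` of a position with smallest element `e` is the end point
`e1 e ≠ e0 e`; so `topD` takes the values `v`, `e1 e` only.  Dually with largest elements in `{s, t}`: `ttD` takes the values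
`t1 s`, `t` only (`t1 s` = the tetrahedron at `s` different from `t0 s`).
`weD e x y ≠ 0` iff the smallest elements are `e0 e` and `e` iff the values of `topD` are `e0 e` and `e1 e`.
`wsD_coc'`: `wsX s` is nonzero only on `{s, t0 s}`; among three elements of a chain which are largest elements of
carriers and not `< s` it is a cocycle (if two of them are `s`, `t0 s` the third one is `≥ s`, so equal to one of them).
-/

open Classical

noncomputable section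

namespace MOT

private theorem eqc_h75 {V : Type} {G : SimpleGraph V} {a b : Cq G} (h : a ≤ b)
    (hc : b.1.card ≤ a.1.card) : a = b :=
  Subtype.ext (Finset.eq_of_subset_of_card_le (Cq.le_iff.1 h) hc)

private theorem cmpc_h75 {V : Type} {G : SimpleGraph V} {a b : Cq G} (h : a ≤ b ∨ b ≤ a)
    (hc : a.1.card = b.1.card) : a = b := by
  rcases h with h | h
  · exact eqc_h75 h hc.ge
  · exact (eqc_h75 h hc.le).symm

private theorem cmpl_h75 {V : Type} {G : SimpleGraph V} {a b : Cq G} (h : a ≤ b ∨ b ≤ a)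
    (hc : a.1.card < b.1.card) : a ≤ b := by
  rcases h with h | h
  · exact h
  · have := Finset.card_le_card (Cq.le_iff.1 h)
    omega

private theorem alg_h75 (p1 p2 q1 q2 r1 r2 : Prop) (hp : ¬ (p1 ∧ p2)) (hq : ¬ (q1 ∧ q2))
    (hr : ¬ (r1 ∧ r2)) (h1 : p1 → q2 → r1 ∨ r2) (h2 : q1 → p2 → r1 ∨ r2) (h3 : q1 → r2 → p1 ∨ p2)
    (h4 : r1 → q2 → p1 ∨ p2) (h5 : p1 → r2 → q1 ∨ q2) (h6 : r1 → p2 → q1 ∨ q2) :
    (if (p1 ∧ q2) ∨ (q1 ∧ p2) then (1 : ZMod 2) else 0) +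
      (if (q1 ∧ r2) ∨ (r1 ∧ q2) then 1 else 0) = if (p1 ∧ r2) ∨ (r1 ∧ p2) then 1 else 0 := by
  have h2' : (1 : ZMod 2) + 1 = 0 := by decide
  by_cases a1 : p1 <;> by_cases a2 : p2 <;> by_cases a3 : q1 <;> by_cases a4 : q2 <;>
    by_cases a5 : r1 <;> by_cases a6 : r2 <;> simp_all

section coarse

variable {Vc : Type} {Gc : SimpleGraph Vc}

theorem e1_ex (e : Ec Gc) : ∃ v, v ≠ e0 e ∧ e.1 = {e0 e, v} := by
  obtain ⟨x, y, hxy, he⟩ := Finset.card_eq_two.1 e.2.1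
  have hm : e0 e ∈ e.1 := pk_mem e.q
  rw [he, Finset.mem_insert, Finset.mem_singleton] at hm
  rcases hm with h | h
  · exact ⟨y, by rw [h]; exact hxy.symm, by rw [he, h]⟩
  · exact ⟨x, by rw [h]; exact hxy, by rw [he, h, Finset.pair_comm]⟩

/-- the other end point of `e` -/
def e1 (e : Ec Gc) : Vc := (e1_ex e).choose

theorem e1_ne (e : Ec Gc) : e1 e ≠ e0 e := (e1_ex e).choose_spec.1

theorem e1_eq (e : Ec Gc) : e.1 = {e0 e, e1 e} := (e1_ex e).choose_spec.2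

/-- the other tetrahedron at `s` -/
def t1 (s : Fc Gc) : Finset Vc :=
  if h : ∃ t : Te Gc, s.1 ⊆ t.1 ∧ t.q ≠ t0 s then h.choose.1 else s.1

private theorem tets_h75 (h : IsSph3 Gc) (s : Fc Gc) : ∃ t t' : Te Gc, t ≠ t' ∧ s.1 ⊆ t.1 ∧
    s.1 ⊆ t'.1 ∧ ∀ u : Te Gc, s.1 ⊆ u.1 → u = t ∨ u = t' := by
  obtain ⟨a, b, hab, hL⟩ := Set.ncard_eq_two.1 (h.tri s.1 s.2.2 s.2.1)
  have mk : ∀ z, z ∈ Lk Gc (s.1 : Set Vc) → z ∉ s.1 ∧ IsTet Gc (insert z s.1) := by
    intro z hz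
    have hzs : z ∉ s.1 := fun h => (hz z h).ne rfl
    refine ⟨hzs, by rw [Finset.card_insert_of_notMem hzs, s.2.1], ?_⟩
    rw [Finset.coe_insert]
    exact s.2.2.insert fun b hb _ => (hz b hb).symm
  have ha := mk a (by rw [hL]; simp)
  have hb := mk b (by rw [hL]; simp)
  refine ⟨⟨_, ha.2⟩, ⟨_, hb.2⟩, ?_, Finset.subset_insert _ _, Finset.subset_insert _ _, ?_⟩
  · intro he
    have h1 : insert a s.1 = insert b s.1 := congrArg Subtype.val he
    have h2 : a ∈ insert b s.1 := by rw [← h1]; exact Finset.mem_insert_self _ _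
    rcases Finset.mem_insert.1 h2 with h3 | h3
    · exact hab h3
    · exact ha.1 h3
  · intro u hu
    have hc : (u.1 \ s.1).card = 1 := by
      rw [Finset.card_sdiff_of_subset hu, u.2.1, s.2.1]
    obtain ⟨z, hz⟩ := Finset.card_eq_one.1 hc
    have hz1 : z ∈ u.1 \ s.1 := by rw [hz]; simp
    rw [Finset.mem_sdiff] at hz1
    have hu' : u.1 = insert z s.1 := by
      rw [← Finset.sdiff_union_of_subset hu, hz]; rfl
    have hzL : z ∈ Lk Gc (s.1 : Set Vc) := by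
      intro x hx
      refine u.2.2 (hu hx) hz1.1 ?_
      rintro rfl
      exact hz1.2 hx
    rw [hL] at hzL
    rcases hzL with rfl | hzL
    · exact Or.inl (Subtype.ext hu')
    · rw [Set.mem_singleton_iff] at hzL
      subst hzL
      exact Or.inr (Subtype.ext hu')

theorem t0_spec (h : IsSph3 Gc) (s : Fc Gc) : IsTet Gc (t0 s).1 ∧ s.1 ⊆ (t0 s).1 := by
  obtain ⟨t, -, -, ht, -, -⟩ := tets_h75 h s
  have hex : ∃ t : Te Gc, s.1 ⊆ t.1 := ⟨t, ht⟩
  unfold t0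
  rw [dif_pos hex]
  exact ⟨hex.choose.2, hex.choose_spec⟩

private theorem Teq_h75 {t t' : Te Gc} (h : t.q = t'.q) : t = t' :=
  Subtype.ext (congrArg (fun q : Cq Gc => q.1) h)

theorem t1_spec (h : IsSph3 Gc) (s : Fc Gc) :
    IsTet Gc (t1 s) ∧ s.1 ⊆ t1 s ∧ t1 s ≠ (t0 s).1 ∧
      ∀ t : Te Gc, s.1 ⊆ t.1 → t.1 = (t0 s).1 ∨ t.1 = t1 s := by
  obtain ⟨a, b, hab, ha, hb, hall⟩ := tets_h75 h s
  have hex : ∃ t : Te Gc, s.1 ⊆ t.1 ∧ t.q ≠ t0 s := by
    by_cases hat : a.q = t0 s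
    · refine ⟨b, hb, fun hbt => hab (Teq_h75 (hat.trans hbt.symm))⟩
    · exact ⟨a, ha, hat⟩
  obtain ⟨h01, h02⟩ := t0_spec h s
  have e1 : t1 s = hex.choose.1 := by
    unfold t1
    rw [dif_pos hex]
  obtain ⟨hs1, hs2⟩ := hex.choose_spec
  have hne : t1 s ≠ (t0 s).1 := by
    rw [e1]
    intro he
    exact hs2 (Subtype.ext he)
  refine ⟨by rw [e1]; exact hex.choose.2, by rw [e1]; exact hs1, hne, ?_⟩
  intro t ht
  have k0 := hall ⟨(t0 s).1, h01⟩ h02
  have k1 := hall hex.choose hs1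
  have kt := hall t ht
  rw [e1]
  rw [e1] at hne
  rcases kt with rfl | rfl <;> rcases k0 with k0 | k0 <;> rcases k1 with k1 | k1
  · left; rw [← k0]
  · left; rw [← k0]
  · right; rw [k1]
  · exfalso; apply hne; rw [k1, ← k0]
  · exfalso; apply hne; rw [k1, ← k0]
  · right; rw [k1]
  · left; rw [← k0]
  · left; rw [← k0]

private theorem t01_h75 (h : IsSph3 Gc) (s : Fc Gc) : TAdj (t0 s).1 (t1 s) := by
  obtain ⟨h1, h2⟩ := t0_spec h s
  obtain ⟨h3, h4, h5, -⟩ := t1_spec h s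
  refine ⟨fun he => h5 he.symm, ?_⟩
  have h6 : s.1.card ≤ ((t0 s).1 ∩ t1 s).card :=
    Finset.card_le_card (Finset.subset_inter h2 h4)
  rw [s.2.1] at h6
  have h7 : ((t0 s).1 ∩ t1 s).card < 4 := by
    rw [← h1.1]
    refine Finset.card_lt_card (Finset.ssubset_iff_subset_ne.2 ⟨Finset.inter_subset_left, ?_⟩)
    intro he
    have h8 : (t0 s).1 ⊆ t1 s := by rw [← he]; exact Finset.inter_subset_right
    exact h5 (Finset.eq_of_subset_of_card_le h8 (by rw [h1.1, h3.1])).symm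
  omega

private theorem s_of_two_h75 (h : IsSph3 Gc) (s s' : Fc Gc) (h1 : s.1 ⊆ (t0 s').1)
    (h2 : s.1 ⊆ t1 s') : s = s' := by
  have h3 := (t01_h75 h s').2
  have h4 : s.1 = (t0 s').1 ∩ t1 s' :=
    Finset.eq_of_subset_of_card_le (Finset.subset_inter h1 h2) (by rw [h3, s.2.1])
  have h5 : s'.1 = (t0 s').1 ∩ t1 s' :=
    Finset.eq_of_subset_of_card_le (Finset.subset_inter (t0_spec h s').2 (t1_spec h s').2.1)
      (by rw [h3, s'.2.1])
  exact Subtype.ext (h4.trans h5.symm)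

private theorem third_e_h75 (e : Ec Gc) {c : Cq Gc}
    (hac : vx Gc (e0 e) ≤ c ∨ c ≤ vx Gc (e0 e)) (hbc : e.q ≤ c ∨ c ≤ e.q) (hc : ¬ e.q < c) :
    c = vx Gc (e0 e) ∨ c = e.q := by
  rcases hbc with h | h
  · exact Or.inr (eq_of_le_of_not_lt h hc).symm
  · have hle : c.1.card ≤ 2 := by
      have := Finset.card_le_card (Cq.le_iff.1 h)
      rwa [show (e.q : Cq Gc).1.card = 2 from e.2.1] at this
    have hpos := Finset.card_pos.2 c.2.1
    rcases (by omega : c.1.card = 1 ∨ c.1.card = 2) with h1 | h1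
    · left
      exact (cmpc_h75 hac (by rw [h1]; rfl)).symm
    · right
      exact eqc_h75 h (by rw [h1]; exact e.2.1.le)

private theorem third_s_h75 (h : IsSph3 Gc) (s : Fc Gc) {c : Cq Gc}
    (hac : s.q ≤ c ∨ c ≤ s.q) (hbc : t0 s ≤ c ∨ c ≤ t0 s) (hc : ¬ c < s.q) :
    c = s.q ∨ c = t0 s := by
  rcases hac with h1 | h1
  · have hle := h.k5 c.1 c.2.2
    have hge : 3 ≤ c.1.card := by
      have := Finset.card_le_card (Cq.le_iff.1 h1)
      rwa [show (s.q : Cq Gc).1.card = 3 from s.2.1] at this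
    rcases (by omega : c.1.card = 3 ∨ c.1.card = 4) with h2 | h2
    · left
      exact (eqc_h75 h1 (by rw [h2]; exact s.2.1.ge)).symm
    · right
      exact (cmpc_h75 hbc (by rw [h2]; exact (t0_spec h s).1.1)).symm
  · exact Or.inl (eq_of_le_of_not_lt h1 hc)

private theorem vx_ne_q_h75 (e : Ec Gc) (v : Vc) : vx Gc v ≠ e.q := by
  intro h
  have h1 : (vx Gc v).1.card = e.q.1.card := by rw [h]
  have h2 : (vx Gc v).1.card = 1 := rfl
  have h3 : e.q.1.card = 2 := e.2.1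
  omega

private theorem s_ne_t0_h75 (h : IsSph3 Gc) (s s' : Fc Gc) : s'.q ≠ t0 s := by
  intro he
  have h1 : s'.q.1.card = (t0 s).1.card := by rw [he]
  have h2 : s'.q.1.card = 3 := s'.2.1
  have h3 := (t0_spec h s).1.1
  omega

end coarse

variable {K : Lv} {m0 : ℕ}

def topD (u : PV K m0) : (tw K m0).V :=
  if h : ∃ e : Ec (tw K m0).G, mnc u = e.q then e1 h.choose else pk (mnc u)

def ttD (u : PV K m0) : Finset (tw K m0).V :=
  if h : ∃ s : Fc (tw K m0).G, mxc u = s.q then t1 h.choose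
  else if (mxc u).1.card = 4 then (mxc u).1 else ∅

private theorem Ecq_h75 {Vc : Type} {Gc : SimpleGraph Vc} {e e' : Ec Gc} (h : e.q = e'.q) :
    e = e' := Subtype.ext (congrArg (fun q : Cq Gc => q.1) h)

private theorem Fcq_h75 {Vc : Type} {Gc : SimpleGraph Vc} {e e' : Fc Gc} (h : e.q = e'.q) :
    e = e' := Subtype.ext (congrArg (fun q : Cq Gc => q.1) h)

private theorem top_vx_h75 {x : PV K m0} {v : (tw K m0).V} (h : mnc x = vx _ v) :
    topD x = v := by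
  unfold topD
  rw [dif_neg, h]
  · exact Finset.mem_singleton.1 (pk_mem (vx (tw K m0).G v))
  · rintro ⟨e, he⟩
    exact vx_ne_q_h75 e v (h.symm.trans he)

private theorem top_e_h75 {x : PV K m0} {e : Ec (tw K m0).G} (h : mnc x = e.q) :
    topD x = e1 e := by
  have hex : ∃ e : Ec (tw K m0).G, mnc x = e.q := ⟨e, h⟩
  unfold topD
  rw [dif_pos hex]
  have : hex.choose = e := Ecq_h75 (hex.choose_spec.symm.trans h)
  rw [this]

private theorem tt_s_h75 {x : PV K m0} {s : Fc (tw K m0).G} (h : mxc x = s.q) :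
    ttD x = t1 s := by
  have hex : ∃ s : Fc (tw K m0).G, mxc x = s.q := ⟨s, h⟩
  unfold ttD
  rw [dif_pos hex]
  have : hex.choose = s := Fcq_h75 (hex.choose_spec.symm.trans h)
  rw [this]

private theorem tt_t_h75 {x : PV K m0} {t : Te (tw K m0).G} (h : mxc x = t.q) :
    ttD x = t.1 := by
  have h4 : (mxc x).1.card = 4 := by rw [h]; exact t.2.1
  unfold ttD
  rw [dif_neg, if_pos h4, h]
  · rfl
  · rintro ⟨s, hs⟩
    rw [hs] at h4
    have : s.q.1.card = 3 := s.2.1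
    omega

private theorem mnc_cases_h75 {x : PV K m0} (h : lS K m0 x < 64) :
    (∃ v, mnc x = vx _ v) ∨ ∃ e : Ec (tw K m0).G, mnc x = e.q := by
  obtain ⟨s, hs, hc⟩ := (lS_lt_iff x).1 h
  have h1 : (mnc x).1.card ≤ 2 := (Finset.card_le_card (Cq.le_iff.1 (mnc_le x hs))).trans hc
  have h0 := Finset.card_pos.2 (mnc x).2.1
  rcases (by omega : (mnc x).1.card = 1 ∨ (mnc x).1.card = 2) with h2 | h2
  · obtain ⟨v, hv⟩ := Finset.card_eq_one.1 h2
    exact Or.inl ⟨v, Subtype.ext hv⟩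
  · exact Or.inr ⟨⟨(mnc x).1, h2, (mnc x).2.2⟩, Subtype.ext rfl⟩

private theorem mxc_cases_h75 (hK : IsSph3 (tw K m0).G) {x : PV K m0} (h : 0 < lS K m0 x) :
    (∃ s : Fc (tw K m0).G, mxc x = s.q) ∨ ∃ t : Te (tw K m0).G, mxc x = t.q := by
  obtain ⟨s, hs, hc⟩ := (lS_pos_iff x).1 h
  have h1 : 3 ≤ (mxc x).1.card := hc.trans (Finset.card_le_card (Cq.le_iff.1 (le_mxc x hs)))
  have h0 := hK.k5 (mxc x).1 (mxc x).2.2
  rcases (by omega : (mxc x).1.card = 3 ∨ (mxc x).1.card = 4) with h2 | h2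
  · exact Or.inl ⟨⟨(mxc x).1, h2, (mxc x).2.2⟩, Subtype.ext rfl⟩
  · exact Or.inr ⟨⟨(mxc x).1, h2, (mxc x).2.2⟩, Subtype.ext rfl⟩

private theorem mnc_cmp_h75 {x y : PV K m0} (h : Nr (tw K (m0 + 7)).G x y) :
    mnc x ≤ mnc y ∨ mnc y ≤ mnc x := by
  have hc := cr_nr h
  by_cases he : mnc x = mnc y
  · exact Or.inl he.le
  · exact hc (Or.inl (mnc_mem x)) (Or.inr (mnc_mem y)) he

private theorem mxc_cmp_h75 {x y : PV K m0} (h : Nr (tw K (m0 + 7)).G x y) :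
    mxc x ≤ mxc y ∨ mxc y ≤ mxc x := by
  have hc := cr_nr h
  by_cases he : mxc x = mxc y
  · exact Or.inl he.le
  · exact hc (Or.inl (mxc_mem x)) (Or.inr (mxc_mem y)) he

private theorem cmp_ee_h75 {Vc : Type} {Gc : SimpleGraph Vc} {e e' : Ec Gc}
    (h : e.q ≤ e'.q ∨ e'.q ≤ e.q) : e = e' :=
  Ecq_h75 (cmpc_h75 h (by rw [show e.q.1.card = 2 from e.2.1, show e'.q.1.card = 2 from e'.2.1]))

private theorem cmp_ss_h75 {Vc : Type} {Gc : SimpleGraph Vc} {e e' : Fc Gc}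
    (h : e.q ≤ e'.q ∨ e'.q ≤ e.q) : e = e' :=
  Fcq_h75 (cmpc_h75 h (by rw [show e.q.1.card = 3 from e.2.1, show e'.q.1.card = 3 from e'.2.1]))

private theorem cmp_tt_h75 {Vc : Type} {Gc : SimpleGraph Vc} {e e' : Te Gc}
    (h : e.q ≤ e'.q ∨ e'.q ≤ e.q) : e = e' :=
  Teq_h75 (cmpc_h75 h (by rw [show e.q.1.card = 4 from e.2.1, show e'.q.1.card = 4 from e'.2.1]))

private theorem cmp_vv_h75 {Vc : Type} {Gc : SimpleGraph Vc} {v v' : Vc}
    (h : vx Gc v ≤ vx Gc v' ∨ vx Gc v' ≤ vx Gc v) : v = v' := by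
  have h1 := congrArg Subtype.val (cmpc_h75 h rfl)
  exact Finset.singleton_injective h1

private theorem cmp_ve_h75 {Vc : Type} {Gc : SimpleGraph Vc} {v : Vc} {e : Ec Gc}
    (h : vx Gc v ≤ e.q ∨ e.q ≤ vx Gc v) : v = e0 e ∨ v = e1 e := by
  have h1 := cmpl_h75 h (by
    rw [show (vx Gc v).1.card = 1 from rfl, show e.q.1.card = 2 from e.2.1]; norm_num)
  have h2 : v ∈ e.1 := Cq.le_iff.1 h1 (Finset.mem_singleton_self v)
  rw [e1_eq e, Finset.mem_insert, Finset.mem_singleton] at h2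
  exact h2

private theorem cmp_st_h75 {Vc : Type} {Gc : SimpleGraph Vc} (hG : IsSph3 Gc) {s : Fc Gc}
    {t : Te Gc} (h : s.q ≤ t.q ∨ t.q ≤ s.q) : t.1 = (t0 s).1 ∨ t.1 = t1 s := by
  have h1 := cmpl_h75 h (by
    rw [show s.q.1.card = 3 from s.2.1, show t.q.1.card = 4 from t.2.1]; norm_num)
  exact (t1_spec hG s).2.2.2 t (Cq.le_iff.1 h1)

theorem topD_two (Q : Set (PV K m0)) (hQ : ∀ x ∈ Q, ∀ y ∈ Q, Nr (tw K (m0 + 7)).G x y)
    (hne : Q.Nonempty) (h : ∀ x ∈ Q, lS K m0 x < 64) :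
    ∃ v w, (v = w ∨ (tw K m0).G.Adj v w) ∧ ∀ x ∈ Q, topD x = v ∨ topD x = w := by
  by_cases hex : ∃ x ∈ Q, ∃ e : Ec (tw K m0).G, mnc x = e.q
  · obtain ⟨x0, hx0, e, he⟩ := hex
    refine ⟨e0 e, e1 e, Or.inr ?_, fun x hx => ?_⟩
    · have h1 := e1_eq e
      refine e.2.2 (?_ : e0 e ∈ e.1) (?_ : e1 e ∈ e.1) (e1_ne e).symm <;> rw [h1] <;> simp
    · have hc := mnc_cmp_h75 (hQ x hx x0 hx0)
      rcases mnc_cases_h75 (h x hx) with ⟨v, hv⟩ | ⟨e', he'⟩
      · rw [hv, he] at hc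
        rw [top_vx_h75 hv]
        exact cmp_ve_h75 hc
      · rw [he', he] at hc
        have := cmp_ee_h75 hc
        subst this
        exact Or.inr (top_e_h75 he')
  · push Not at hex
    obtain ⟨x0, hx0⟩ := hne
    rcases mnc_cases_h75 (h x0 hx0) with ⟨v, hv⟩ | ⟨e', he'⟩
    · refine ⟨v, v, Or.inl rfl, fun x hx => Or.inl ?_⟩
      rcases mnc_cases_h75 (h x hx) with ⟨w, hw⟩ | ⟨e', he'⟩
      · have hc := mnc_cmp_h75 (hQ x hx x0 hx0)
        rw [hv, hw] at hc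
        rw [top_vx_h75 hw]
        exact cmp_vv_h75 hc
      · exact absurd he' (hex x hx e')
    · exact absurd he' (hex x0 hx0 e')

theorem ttD_two (hK : IsSph3 (tw K m0).G) (Q : Set (PV K m0))
    (hQ : ∀ x ∈ Q, ∀ y ∈ Q, Nr (tw K (m0 + 7)).G x y)
    (hne : Q.Nonempty) (h : ∀ x ∈ Q, 0 < lS K m0 x) :
    ∃ t t' : Te (tw K m0).G, (t = t' ∨ TAdj t.1 t'.1) ∧ ∀ x ∈ Q, ttD x = t.1 ∨ ttD x = t'.1 := by
  by_cases hex : ∃ x ∈ Q, ∃ s : Fc (tw K m0).G, mxc x = s.q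
  · obtain ⟨x0, hx0, s, hs⟩ := hex
    refine ⟨⟨(t0 s).1, (t0_spec hK s).1⟩, ⟨t1 s, (t1_spec hK s).1⟩, Or.inr (t01_h75 hK s),
      fun x hx => ?_⟩
    have hc := mxc_cmp_h75 (hQ x0 hx0 x hx)
    rcases mxc_cases_h75 hK (h x hx) with ⟨s', hs'⟩ | ⟨t, ht⟩
    · rw [hs', hs] at hc
      have := cmp_ss_h75 hc
      subst this
      exact Or.inr (tt_s_h75 hs')
    · rw [ht, hs] at hc
      rw [tt_t_h75 ht]
      exact cmp_st_h75 hK hc
  · push Not at hex
    obtain ⟨x0, hx0⟩ := hne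
    rcases mxc_cases_h75 hK (h x0 hx0) with ⟨s', hs'⟩ | ⟨t, ht⟩
    · exact absurd hs' (hex x0 hx0 s')
    · refine ⟨t, t, Or.inl rfl, fun x hx => Or.inl ?_⟩
      rcases mxc_cases_h75 hK (h x hx) with ⟨s', hs'⟩ | ⟨t', ht'⟩
      · exact absurd hs' (hex x hx s')
      · have hc := mxc_cmp_h75 (hQ x hx x0 hx0)
        rw [ht, ht'] at hc
        rw [tt_t_h75 ht', cmp_tt_h75 hc]

theorem weD_top (e : Ec (tw K m0).G) (x y : PV K m0) (h1 : Nr (tw K (m0 + 7)).G x y)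
    (hx : lS K m0 x < 64) (hy : lS K m0 y < 64) :
    weD e x y = if topD x ≠ topD y ∧ topD x ∈ e.1 ∧ topD y ∈ e.1 then 1 else 0 := by
  have hc := mnc_cmp_h75 h1
  have key : ((mnc x = vx _ (e0 e) ∧ mnc y = e.q) ∨ (mnc y = vx _ (e0 e) ∧ mnc x = e.q)) ↔
      (topD x ≠ topD y ∧ topD x ∈ e.1 ∧ topD y ∈ e.1) := by
    -- one vertex and one edge
    have mixed : ∀ (x y : PV K m0) (v : (tw K m0).V) (e' : Ec (tw K m0).G),
        mnc x = vx _ v → mnc y = e'.q → (v = e0 e' ∨ v = e1 e') →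
        ((mnc x = vx _ (e0 e) ∧ mnc y = e.q) ↔
          (topD x ≠ topD y ∧ topD x ∈ e.1 ∧ topD y ∈ e.1)) := by
      intro x y v e' hv he' hve
      rw [top_vx_h75 hv, top_e_h75 he']
      constructor
      · rintro ⟨h1, h2⟩
        have h3 : e' = e := Ecq_h75 (he'.symm.trans h2)
        have h4 : v = e0 e := Finset.singleton_injective (congrArg Subtype.val (hv.symm.trans h1))
        subst h3
        rw [h4]
        refine ⟨(e1_ne e').symm, ?_, ?_⟩ <;> rw [e1_eq e'] <;> simp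
      · rintro ⟨h1, h2, h3⟩
        have hv0 : v = e0 e' := hve.resolve_right h1
        have hee : e'.1 = e.1 := by
          refine Finset.eq_of_subset_of_card_le ?_ (by rw [e.2.1, e'.2.1])
          rw [e1_eq e', Finset.insert_subset_iff, Finset.singleton_subset_iff]
          exact ⟨by rw [← hv0]; exact h2, h3⟩
        have hee' : e' = e := Subtype.ext hee
        subst hee'
        exact ⟨by rw [hv, hv0], he'⟩
    rcases mnc_cases_h75 hx with ⟨v, hv⟩ | ⟨e', he'⟩ <;>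
      rcases mnc_cases_h75 hy with ⟨w, hw⟩ | ⟨e'', he''⟩
    · rw [hv, hw] at hc
      have hvw := cmp_vv_h75 hc
      constructor
      · rintro (⟨-, h2⟩ | ⟨-, h2⟩)
        · exact absurd (hw.symm.trans h2) (vx_ne_q_h75 e w)
        · exact absurd (hv.symm.trans h2) (vx_ne_q_h75 e v)
      · rintro ⟨h1, -⟩
        rw [top_vx_h75 hv, top_vx_h75 hw] at h1
        exact absurd hvw h1
    · rw [hv, he''] at hc
      rw [← mixed x y v e'' hv he'' (cmp_ve_h75 hc)]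
      constructor
      · rintro (h2 | ⟨h2, -⟩)
        · exact h2
        · exact absurd (h2.symm.trans he'') (vx_ne_q_h75 e'' _)
      · exact Or.inl
    · rw [he', hw] at hc
      have hm := mixed y x w e' hw he' (cmp_ve_h75 hc.symm)
      constructor
      · rintro (⟨h2, -⟩ | h2)
        · exact absurd (h2.symm.trans he') (vx_ne_q_h75 e' _)
        · obtain ⟨k1, k2, k3⟩ := hm.1 h2
          exact ⟨k1.symm, k3, k2⟩
      · rintro ⟨k1, k2, k3⟩
        exact Or.inr (hm.2 ⟨k1.symm, k3, k2⟩)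
    · rw [he', he''] at hc
      have hee := cmp_ee_h75 hc
      constructor
      · rintro (⟨h2, -⟩ | ⟨h2, -⟩)
        · exact absurd (h2.symm.trans he') (vx_ne_q_h75 e' _)
        · exact absurd (h2.symm.trans he'') (vx_ne_q_h75 e'' _)
      · rintro ⟨h1, -⟩
        rw [top_e_h75 he', top_e_h75 he'', hee] at h1
        exact absurd rfl h1
  have hdef : weD e x y = if ((mnc x = vx _ (e0 e) ∧ mnc y = e.q) ∨
      (mnc y = vx _ (e0 e) ∧ mnc x = e.q)) then 1 else 0 := rfl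
  rw [hdef]
  by_cases hk : (topD x ≠ topD y ∧ topD x ∈ e.1 ∧ topD y ∈ e.1)
  · rw [if_pos hk, if_pos (key.2 hk)]
  · rw [if_neg hk, if_neg fun h => hk (key.1 h)]

theorem wsD_tt (hK : IsSph3 (tw K m0).G) (s : Fc (tw K m0).G) (x y : PV K m0)
    (h1 : Nr (tw K (m0 + 7)).G x y) (hx : 0 < lS K m0 x) (hy : 0 < lS K m0 y) :
    wsD s x y = if ttD x ≠ ttD y ∧ s.1 ⊆ ttD x ∧ s.1 ⊆ ttD y then 1 else 0 := by
  have hc := mxc_cmp_h75 h1
  have key : ((mxc x = s.q ∧ mxc y = t0 s) ∨ (mxc y = s.q ∧ mxc x = t0 s)) ↔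
      (ttD x ≠ ttD y ∧ s.1 ⊆ ttD x ∧ s.1 ⊆ ttD y) := by
    have mixed : ∀ (x y : PV K m0) (s' : Fc (tw K m0).G) (t : Te (tw K m0).G),
        mxc x = s'.q → mxc y = t.q → (t.1 = (t0 s').1 ∨ t.1 = t1 s') →
        ((mxc x = s.q ∧ mxc y = t0 s) ↔
          (ttD x ≠ ttD y ∧ s.1 ⊆ ttD x ∧ s.1 ⊆ ttD y)) := by
      intro x y s' t hs' ht hst
      rw [tt_s_h75 hs', tt_t_h75 ht]
      constructor
      · rintro ⟨h1, h2⟩
        have h3 : s' = s := Fcq_h75 (hs'.symm.trans h1)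
        have h4 : t.1 = (t0 s).1 := congrArg Subtype.val (ht.symm.trans h2)
        subst h3
        rw [h4]
        exact ⟨(t1_spec hK s').2.2.1, (t1_spec hK s').2.1, (t0_spec hK s').2⟩
      · rintro ⟨h1, h2, h3⟩
        have hv0 : t.1 = (t0 s').1 := hst.resolve_right (Ne.symm h1)
        have hee : s = s' := s_of_two_h75 hK s s' (by rw [← hv0]; exact h3) h2
        subst hee
        refine ⟨hs', ?_⟩
        rw [ht]
        exact Subtype.ext hv0
    rcases mxc_cases_h75 hK hx with ⟨v, hv⟩ | ⟨e', he'⟩ <;>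
      rcases mxc_cases_h75 hK hy with ⟨w, hw⟩ | ⟨e'', he''⟩
    · rw [hv, hw] at hc
      have hvw := cmp_ss_h75 hc
      constructor
      · rintro (⟨-, h2⟩ | ⟨-, h2⟩)
        · exact absurd (hw.symm.trans h2) (s_ne_t0_h75 hK s w)
        · exact absurd (hv.symm.trans h2) (s_ne_t0_h75 hK s v)
      · rintro ⟨h1, -⟩
        rw [tt_s_h75 hv, tt_s_h75 hw, hvw] at h1
        exact absurd rfl h1
    · rw [hv, he''] at hc
      rw [← mixed x y v e'' hv he'' (cmp_st_h75 hK hc)]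
      constructor
      · rintro (h2 | ⟨-, h2⟩)
        · exact h2
        · exact absurd (hv.symm.trans h2) (s_ne_t0_h75 hK s v)
      · exact Or.inl
    · rw [he', hw] at hc
      have hm := mixed y x w e' hw he' (cmp_st_h75 hK hc.symm)
      constructor
      · rintro (⟨-, h2⟩ | h2)
        · exact absurd (hw.symm.trans h2) (s_ne_t0_h75 hK s w)
        · obtain ⟨k1, k2, k3⟩ := hm.1 h2
          exact ⟨k1.symm, k3, k2⟩
      · rintro ⟨k1, k2, k3⟩
        exact Or.inr (hm.2 ⟨k1.symm, k3, k2⟩)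
    · rw [he', he''] at hc
      have hee := cmp_tt_h75 hc
      have hne : ∀ (t : Te (tw K m0).G), t.q ≠ s.q := by
        intro t h
        have h1 : t.q.1.card = s.q.1.card := by rw [h]
        have h2 : t.q.1.card = 4 := t.2.1
        have h3 : s.q.1.card = 3 := s.2.1
        omega
      constructor
      · rintro (⟨h2, -⟩ | ⟨h2, -⟩)
        · exact absurd (he'.symm.trans h2) (hne _)
        · exact absurd (he''.symm.trans h2) (hne _)
      · rintro ⟨h1, -⟩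
        rw [tt_t_h75 he', tt_t_h75 he'', hee] at h1
        exact absurd rfl h1
  have hdef : wsD s x y = if ((mxc x = s.q ∧ mxc y = t0 s) ∨
      (mxc y = s.q ∧ mxc x = t0 s)) then 1 else 0 := rfl
  rw [hdef]
  by_cases hk : (ttD x ≠ ttD y ∧ s.1 ⊆ ttD x ∧ s.1 ⊆ ttD y)
  · rw [if_pos hk, if_pos (key.2 hk)]
  · rw [if_neg hk, if_neg fun h => hk (key.1 h)]

theorem weD_coc' (e : Ec (tw K m0).G) (x y z : PV K m0) (h1 : Nr (tw K (m0 + 7)).G x y)
    (h2 : Nr (tw K (m0 + 7)).G y z) (h3 : Nr (tw K (m0 + 7)).G x z) (hx : ¬ e.q < mnc x)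
    (hy : ¬ e.q < mnc y) (hz : ¬ e.q < mnc z) : weD e x y + weD e y z = weD e x z := by
  have c1 := mnc_cmp_h75 h1
  have c2 := mnc_cmp_h75 h2
  have c3 := mnc_cmp_h75 h3
  have ex : ∀ a : Cq (tw K m0).G, ¬ (a = vx _ (e0 e) ∧ a = e.q) := fun a ha =>
    vx_ne_q_h75 e _ (ha.1.symm.trans ha.2)
  have th : ∀ a b c : Cq (tw K m0).G, (a ≤ c ∨ c ≤ a) → (b ≤ c ∨ c ≤ b) → ¬ e.q < c →
      a = vx _ (e0 e) → b = e.q → c = vx _ (e0 e) ∨ c = e.q := by
    rintro a b c ha hb hc rfl rfl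
    exact third_e_h75 e ha hb hc
  exact alg_h75 (mnc x = vx _ (e0 e)) (mnc x = e.q) (mnc y = vx _ (e0 e)) (mnc y = e.q)
    (mnc z = vx _ (e0 e)) (mnc z = e.q) (ex _) (ex _) (ex _)
    (th _ _ _ c3 c2 hz) (th _ _ _ c2 c3 hz) (th _ _ _ c1.symm c3.symm hx)
    (th _ _ _ c3.symm c1.symm hx) (th _ _ _ c1 c2.symm hy) (th _ _ _ c2.symm c1 hy)

theorem wsD_coc' (hK : IsSph3 (tw K m0).G) (s : Fc (tw K m0).G) (x y z : PV K m0)
    (h1 : Nr (tw K (m0 + 7)).G x y) (h2 : Nr (tw K (m0 + 7)).G y z)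
    (h3 : Nr (tw K (m0 + 7)).G x z) (hx : ¬ mxc x < s.q)
    (hy : ¬ mxc y < s.q) (hz : ¬ mxc z < s.q) : wsD s x y + wsD s y z = wsD s x z := by
  have c1 := mxc_cmp_h75 h1
  have c2 := mxc_cmp_h75 h2
  have c3 := mxc_cmp_h75 h3
  have ex : ∀ a : Cq (tw K m0).G, ¬ (a = s.q ∧ a = t0 s) := fun a ha =>
    s_ne_t0_h75 hK s s (ha.1.symm.trans ha.2)
  have th : ∀ a b c : Cq (tw K m0).G, (a ≤ c ∨ c ≤ a) → (b ≤ c ∨ c ≤ b) → ¬ c < s.q →
      a = s.q → b = t0 s → c = s.q ∨ c = t0 s := by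
    intro a b c ha hb hc e1 e2
    rw [e1] at ha
    rw [e2] at hb
    exact third_s_h75 hK s ha hb hc
  exact alg_h75 (mxc x = s.q) (mxc x = t0 s) (mxc y = s.q) (mxc y = t0 s)
    (mxc z = s.q) (mxc z = t0 s) (ex _) (ex _) (ex _)
    (th _ _ _ c3 c2 hz) (th _ _ _ c2 c3 hz) (th _ _ _ c1.symm c3.symm hx)
    (th _ _ _ c3.symm c1.symm hx) (th _ _ _ c1 c2.symm hy) (th _ _ _ c2.symm c1 hy)

end MOT
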