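import Pool.Agent.MOT.Inc
import Pool.Agent.MOT.Srf

/-!
# MOT/DuaA: every 2-cycle of a 3-sphere bounds
-/

open Classical

noncomputable section

namespace MOT

variable {V : Type} {G : SimpleGraph V} {A B M S : Set V}

/-- the link of a vertex of a 3-sphere is a surface -/
theorem IsSph3.lk_surf [Finite V] (h : IsSph3 G) (x : V) : Surf G (Lk G {x}) := by
  refine ⟨fun y hy => ?_, fun s hs hsS => ?_⟩
  · have hxy : G.Adj x y := hy x rfl
    have hcl : G.IsClique (({x, y} : Finset V) : Set V) :=
      clique_insert (s := {y}) (by simp) (by simpa using hxy)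
    have h1 := h.edge {x, y} hcl (Finset.card_pair hxy.ne)
    have h2 : Lk G (({x, y} : Finset V) : Set V) = Lk G {y} ∩ Lk G {x} := by
      ext v
      constructor
      · intro hv
        exact ⟨fun u hu => by rw [Set.mem_singleton_iff] at hu; subst hu; exact hv _ (by simp),
          fun u hu => by rw [Set.mem_singleton_iff] at hu; subst hu; exact hv _ (by simp)⟩
      · rintro ⟨h1, h2⟩ u hu
        simp only [Finset.coe_insert, Finset.coe_singleton, Set.mem_insert_iff,
          Set.mem_singleton_iff] at hu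
        rcases hu with rfl | rfl
        · exact h2 _ rfl
        · exact h1 _ rfl
    rwa [h2] at h1
  · have hxs : x ∉ s := fun hh => G.irrefl (hsS (Finset.mem_coe.2 hh) x rfl)
    have := h.k5 (insert x s) (clique_insert hs fun y hy => hsS (Finset.mem_coe.2 hy) x rfl)
    rw [Finset.card_insert_of_notMem hxs] at this
    omega

theorem lk_pair_comm (x y : V) : Lk G {x, y} = Lk G {y, x} := by
  rw [Set.pair_comm]

theorem lk_swap {x y z : V} (hx : x ∈ S) (h : y ∈ S) (hxy : G.Adj x y)
    (hz : z ∈ Lk G {x, y} ∩ S) : y ∈ Lk G {x, z} ∩ S := by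
  refine ⟨?_, h⟩
  intro u hu
  rcases hu with rfl | hu
  · exact hxy
  · rw [Set.mem_singleton_iff] at hu; subst hu
    exact (hz.1 y (by simp)).symm

theorem Surf.edge_ne [Finite V] (hS : Surf G S) {x y : V} (e : EIn G S x y) :
    (Lk G {x, y} ∩ S).Nonempty := by
  rw [← Set.ncard_pos, (hS.edge e).1]; norm_num

/-- strong connectivity of a connected surface -/
theorem surf_strong [Finite V] (hS : Surf G S) (hc : Conn G S) (w : Finset V → ZMod 2)
    (h : ∀ x y z z', EIn G S x y → z ∈ Lk G {x, y} ∩ S → z' ∈ Lk G {x, y} ∩ S →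
      w {x, y, z} = w {x, y, z'}) {x y z x' y' z' : V} (e : EIn G S x y)
    (hz : z ∈ Lk G {x, y} ∩ S) (e' : EIn G S x' y') (hz' : z' ∈ Lk G {x', y'} ∩ S) :
    w {x, y, z} = w {x', y', z'} := by
  let g : V → V → ZMod 2 := fun x y =>
    if h : (Lk G {x, y} ∩ S).Nonempty then w {x, y, h.some} else 0
  have hg : ∀ x y z, EIn G S x y → z ∈ Lk G {x, y} ∩ S → g x y = w {x, y, z} := by
    intro x y z e hz
    have hne : (Lk G {x, y} ∩ S).Nonempty := ⟨z, hz⟩
    simp only [g, dif_pos hne]
    exact h x y _ _ e hne.some_mem hz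
  have hgs : ∀ x y, EIn G S x y → g x y = g y x := by
    intro x y e
    obtain ⟨z, hz⟩ := hS.edge_ne e
    rw [hg x y z e hz, hg y x z e.symm (by rwa [lk_pair_comm]), pair_comm3]
  have hgc : ∀ x y y', EIn G S x y → EIn G S x y' → g x y = g x y' := by
    intro x y y' e e'
    have hx := hS.lk x e.2.1
    refine hx.1.const (f := g x) ?_ ⟨fun u hu => ?_, e.2.2⟩ ⟨fun u hu => ?_, e'.2.2⟩
    · intro u v euv
      have hu : G.Adj x u := euv.2.1.1 x rfl
      have hv : G.Adj x v := euv.2.2.1 x rfl
      have h1 : v ∈ Lk G {x, u} ∩ S := ⟨by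
        intro r hr
        rcases hr with rfl | hr
        · exact hv
        · rw [Set.mem_singleton_iff] at hr; subst hr; exact euv.1, euv.2.2.2⟩
      have h2 : u ∈ Lk G {x, v} ∩ S := ⟨by
        intro r hr
        rcases hr with rfl | hr
        · exact hu
        · rw [Set.mem_singleton_iff] at hr; subst hr; exact euv.1.symm, euv.2.1.2⟩
      rw [hg x u v ⟨hu, e.2.1, euv.2.1.2⟩ h1, hg x v u ⟨hv, e.2.1, euv.2.2.2⟩ h2, pair_comm3']
    · rw [Set.mem_singleton_iff] at hu; subst hu; exact e.1
    · rw [Set.mem_singleton_iff] at hu; subst hu; exact e'.1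
  let f : V → ZMod 2 := fun x => if h : ∃ y, EIn G S x y then g x h.choose else 0
  have hf : ∀ x y, EIn G S x y → f x = g x y := by
    intro x y e
    have hne : ∃ y, EIn G S x y := ⟨y, e⟩
    simp only [f, dif_pos hne]
    exact hgc x _ _ hne.choose_spec e
  have hfc : f x = f x' := hc.const (f := f) (fun u v e => by
    rw [hf u v e, hf v u e.symm, hgs u v e]) e.2.1 e'.2.1
  rw [← hg x y z e hz, ← hg x' y' z' e' hz', ← hf x y e, ← hf x' y' e', hfc]

/-- a triangle of `S` as an edge and a third vertex -/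
theorem tri_form {t : Finset V} (h3 : t.card = 3) (hc : G.IsClique (t : Set V))
    (hS : (t : Set V) ⊆ S) : ∃ x y z, EIn G S x y ∧ z ∈ Lk G {x, y} ∩ S ∧ t = {x, y, z} := by
  obtain ⟨x, y, z, hxy, hxz, hyz, rfl⟩ := Finset.card_eq_three.1 h3
  refine ⟨x, y, z, ⟨hc (by simp) (by simp) hxy, hS (by simp), hS (by simp)⟩, ⟨?_, hS (by simp)⟩,
    rfl⟩
  intro u hu
  rcases hu with rfl | hu
  · exact hc (by simp) (by simp) hxz
  · rw [Set.mem_singleton_iff] at hu; subst hu
    exact hc (by simp) (by simp) hyz

theorem lkf_univ_card [Finite V] (h : IsSph3 G) {t : Finset V} (hc : G.IsClique (t : Set V))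
    (h3 : t.card = 3) : (lkf G Set.univ t).card = 2 := by
  have h1 := h.tri t hc h3
  have h2 : ((lkf G Set.univ t : Finset V) : Set V) = Lk G (t : Set V) := by
    rw [lkf, Set.Finite.coe_toFinset, Set.inter_univ]
  rw [← h2, Set.ncard_coe_finset] at h1
  exact h1

theorem mem_lkf_univ [Finite V] {s : Finset V} {v : V} :
    v ∈ lkf G Set.univ s ↔ ∀ x ∈ s, G.Adj x v := by
  rw [mem_lkf]; simp

/-- the coboundary of a vertex function on an edge -/
theorem inc_one [Finite V] (f : Kq G S 1 → ZMod 2) {x y : V} (e : EIn G S x y) :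
    (inc G S 1).mulVec f (kp e) = wbar f {x} + wbar f {y} := by
  have hx : (({x} : Finset V).card = 1 ∧ G.IsClique (({x} : Finset V) : Set V) ∧
      (({x} : Finset V) : Set V) ⊆ S) := ⟨by simp, by simp, by simpa using e.2.1⟩
  have hy : (({y} : Finset V).card = 1 ∧ G.IsClique (({y} : Finset V) : Set V) ∧
      (({y} : Finset V) : Set V) ⊆ S) := ⟨by simp, by simp, by simpa using e.2.2⟩
  let vx : Kq G S 1 := ⟨{x}, hx⟩
  let vy : Kq G S 1 := ⟨{y}, hy⟩
  have hne : vx ≠ vy := by
    intro h
    have : ({x} : Finset V) = {y} := congrArg Subtype.val h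
    exact e.1.ne (Finset.singleton_injective this)
  have hcl : ∀ v : Kq G S 1, v.1 ⊆ (kp e).1 ↔ v = vx ∨ v = vy := by
    intro v
    obtain ⟨u, hu⟩ := Finset.card_eq_one.1 v.2.1
    constructor
    · intro h
      have h1 : u ∈ ({x, y} : Finset V) := h (by rw [hu]; simp)
      simp only [Finset.mem_insert, Finset.mem_singleton] at h1
      rcases h1 with rfl | rfl
      · exact Or.inl (Subtype.ext hu)
      · exact Or.inr (Subtype.ext hu)
    · rintro (rfl | rfl)
      · intro w hw
        have : w ∈ ({x} : Finset V) := hw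
        rw [Finset.mem_singleton] at this; subst this
        show w ∈ ({w, y} : Finset V)
        simp
      · intro w hw
        have : w ∈ ({y} : Finset V) := hw
        rw [Finset.mem_singleton] at this; subst this
        show w ∈ ({x, w} : Finset V)
        simp
  have hsum : (inc G S 1).mulVec f (kp e) = ∑ v ∈ ({vx, vy} : Finset (Kq G S 1)), f v := by
    rw [Matrix.mulVec, dotProduct, ← Finset.sum_subset (Finset.subset_univ
      ({vx, vy} : Finset (Kq G S 1)))]
    · refine Finset.sum_congr rfl fun v hv => ?_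
      have : v.1 ⊆ (kp e).1 := (hcl v).2 (by simpa using hv)
      simp [inc, this]
    · intro v _ hv
      have : ¬ v.1 ⊆ (kp e).1 := fun h => hv (by simpa using (hcl v).1 h)
      simp [inc, this]
  rw [hsum, Finset.sum_pair hne]
  have v1 : wbar f {x} = f vx := wbar_val f vx
  have v2 : wbar f {y} = f vy := wbar_val f vy
  rw [v1, v2]

/-- `H_1 = 0` from `H^1 = 0` (linear duality): every 1-cycle bounds -/
theorem surf_cycle [Finite V] (hz : HZ G S) (w : Finset V → ZMod 2)
    (hw : ∀ x ∈ S, ∑ y ∈ lkf G S {x}, w {x, y} = 0) :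
    ∃ F : Finset V → ZMod 2, ∀ x y, EIn G S x y →
      w {x, y} = ∑ z ∈ lkf G S {x, y}, F {x, y, z} := by
  let w' : Kq G S 2 → ZMod 2 := fun e => w e.1
  have hmem : w' ∈ LinearMap.range (Matrix.mulVecLin (Matrix.transpose (inc G S 2))) := by
    by_contra hn
    obtain ⟨φ, hφ, hle⟩ := Submodule.exists_le_ker_of_notMem hn
    let g : Kq G S 2 → ZMod 2 := fun t => φ (Pi.single t 1)
    have hφg : ∀ v : Kq G S 2 → ZMod 2, φ v = ∑ t, v t * g t := by
      intro v
      conv_lhs => rw [pi_eq_sum_univ v]
      rw [map_sum]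
      refine Finset.sum_congr rfl fun t _ => ?_
      rw [map_smul, smul_eq_mul]
      congr 2
      funext j
      simp [Pi.single_apply, eq_comm]
    have hg : (inc G S 2).mulVec g = 0 := by
      funext t
      have h1 : φ (Matrix.mulVecLin (Matrix.transpose (inc G S 2)) (Pi.single t 1)) = 0 :=
        LinearMap.mem_ker.1 (hle ⟨_, rfl⟩)
      rw [hφg] at h1
      show ∑ e, (inc G S 2) t e * g e = 0
      rw [← h1]
      refine Finset.sum_congr rfl fun e _ => ?_
      rw [Matrix.mulVecLin_apply, Matrix.mulVec_single_one]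
      rfl
    have hgZ : ex1 G S g ∈ Z1 G S := by
      rw [← ker_inc]
      exact ⟨g, LinearMap.mem_ker.2 hg, rfl⟩
    obtain ⟨f, hf⟩ := hz _ hgZ
    let f' : Kq G S 1 → ZMod 2 := fun v => f (Finset.card_eq_one.1 v.2.1).choose
    have hf' : ∀ x ∈ S, wbar f' {x} = f x := by
      intro x hx
      have hx' : (({x} : Finset V).card = 1 ∧ G.IsClique (({x} : Finset V) : Set V) ∧
          (({x} : Finset V) : Set V) ⊆ S) := ⟨by simp, by simp, by simpa using hx⟩
      unfold wbar
      rw [dif_pos hx']
      show f _ = f x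
      congr 1
      have := (Finset.card_eq_one.1 hx'.1).choose_spec
      exact (Finset.singleton_injective this).symm
    have hgf : g = (inc G S 1).mulVec f' := by
      funext e
      obtain ⟨x, y, e', he⟩ := eq_pair (s := e)
      have hk : kp e' = e := Subtype.ext he.symm
      rw [← hk, inc_one, hf' x e'.2.1, hf' y e'.2.2, ← hf x y e', ex1_apply e']
    have hzero : φ w' = 0 := by
      have h1 : φ w' = w' ⬝ᵥ ((inc G S 1).mulVec f') := by
        rw [hφg, ← hgf]; rfl
      rw [h1, Matrix.dotProduct_mulVec]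
      have h2 : Matrix.vecMul w' (inc G S 1) = 0 := by
        rw [← Matrix.mulVec_transpose]
        funext v
        rw [incT_sum (S := S) subset_rfl]
        obtain ⟨x, hx⟩ := Finset.card_eq_one.1 v.2.1
        have hxS : x ∈ S := v.2.2.2 (by rw [hx]; simp)
        rw [hx]
        refine Eq.trans (Finset.sum_congr rfl fun y hy => ?_) (hw x hxS)
        have hy' := mem_lkf.1 hy
        have hxy : G.Adj x y := hy'.1 x (by simp)
        have e : EIn G S x y := ⟨hxy, hxS, hy'.2⟩
        have h3 : (insert y ({x} : Finset V)) = (kp e).1 := Finset.pair_comm y x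
        rw [h3, wbar_val]
        rfl
      rw [h2, zero_dotProduct]
    exact hφ hzero
  obtain ⟨F, hF⟩ := hmem
  refine ⟨wbar F, fun x y e => ?_⟩
  have h1 : (Matrix.transpose (inc G S 2)).mulVec F (kp e) = w {x, y} := congrFun hF _
  rw [← h1, incT_sum (S := S) subset_rfl]
  refine Finset.sum_congr rfl fun z _ => ?_
  congr 1
  show insert z ({x, y} : Finset V) = {x, y, z}
  ext v; simp only [Finset.mem_insert, Finset.mem_singleton]; tauto

/-- every edge lies in a tetrahedron -/
theorem edge_tet [Finite V] (h : IsSph3 G) {x y : V} (e : G.Adj x y) :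
    ∃ T : Finset V, G.IsClique (T : Set V) ∧ T.card = 4 ∧ x ∈ T ∧ y ∈ T := by
  have hc : G.IsClique (({x, y} : Finset V) : Set V) := by
    have := clique_insert (G := G) (x := x) (s := {y}) (by simp) (by simpa using e)
    exact this
  obtain ⟨⟨⟨z, hz⟩, -⟩, -⟩ := h.edge {x, y} hc (Finset.card_pair e.ne)
  have hz' : ∀ u ∈ ({x, y} : Finset V), G.Adj z u := fun u hu => (hz u (by simpa using hu)).symm
  have hzn : z ∉ ({x, y} : Finset V) := fun hh => G.irrefl (hz' z hh)
  have hc3 := clique_insert hc hz'
  have h3 : (insert z ({x, y} : Finset V)).card = 3 := by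
    rw [Finset.card_insert_of_notMem hzn, Finset.card_pair e.ne]
  obtain ⟨w, hw⟩ : (lkf G Set.univ (insert z ({x, y} : Finset V))).Nonempty := by
    rw [← Finset.card_pos, lkf_univ_card h hc3 h3]; norm_num
  rw [mem_lkf_univ] at hw
  have hwn : w ∉ insert z ({x, y} : Finset V) := fun hh => G.irrefl (hw w hh)
  refine ⟨insert w (insert z {x, y}), clique_insert hc3 fun u hu => (hw u hu).symm, ?_, ?_, ?_⟩
  · rw [Finset.card_insert_of_notMem hwn, h3]
  · simp
  · simp

/-- the local solutions -/
theorem H2_local [Finite V] (h : IsSph3 G) (w : Finset V → ZMod 2)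
    (hw : ∀ e : Finset V, G.IsClique (e : Set V) → e.card = 2 →
      ∑ z ∈ lkf G Set.univ e, w (insert z e) = 0) :
    ∃ P : V → Finset V → ZMod 2, ∀ (x : V) (t : Finset V), x ∈ t → G.IsClique (t : Set V) →
      t.card = 3 → w t = ∑ u ∈ lkf G Set.univ t, P x (insert u t) := by
  have hloc : ∀ x : V, ∃ F : Finset V → ZMod 2, ∀ y z, EIn G (Lk G {x}) y z →
      w (insert x {y, z}) = ∑ u ∈ lkf G (Lk G {x}) {y, z}, F {y, z, u} := by
    intro x
    refine surf_cycle (h.vert x).2 (fun e => w (insert x e)) ?_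
    intro y hy
    have hxy : G.Adj x y := hy x rfl
    have hcl : G.IsClique (({x, y} : Finset V) : Set V) :=
      clique_insert (s := {y}) (by simp) (by simpa using hxy)
    rw [← hw {x, y} hcl (Finset.card_pair hxy.ne)]
    have hl : lkf G (Lk G {x}) {y} = lkf G Set.univ {x, y} := by
      ext v
      rw [mem_lkf, mem_lkf_univ]
      simp only [Finset.mem_insert, Finset.mem_singleton, forall_eq_or_imp, forall_eq]
      constructor
      · rintro ⟨h1, h2⟩; exact ⟨h2 x rfl, h1⟩
      · rintro ⟨h1, h2⟩
        exact ⟨h2, fun u hu => by rw [Set.mem_singleton_iff] at hu; subst hu; exact h1⟩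
    rw [hl]
    refine Finset.sum_congr rfl fun z _ => ?_
    congr 1
    ext v; simp only [Finset.mem_insert, Finset.mem_singleton]; tauto
  choose F hF using hloc
  refine ⟨fun x T => F x (T.erase x), ?_⟩
  intro x t hxt ht ht3
  have h1 : (t.erase x).card = 2 := by rw [Finset.card_erase_of_mem hxt, ht3]
  obtain ⟨y, z, hyz, hte⟩ := Finset.card_eq_two.1 h1
  have hy : y ∈ t.erase x := by rw [hte]; simp
  have hz : z ∈ t.erase x := by rw [hte]; simp
  have hxy : G.Adj x y := clique_erase ht hxt hy
  have hxz : G.Adj x z := clique_erase ht hxt hz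
  have eyz : EIn G (Lk G {x}) y z := ⟨ht (Finset.mem_coe.2 (Finset.mem_of_mem_erase hy))
    (Finset.mem_coe.2 (Finset.mem_of_mem_erase hz)) hyz,
    fun u hu => by rw [Set.mem_singleton_iff] at hu; subst hu; exact hxy,
    fun u hu => by rw [Set.mem_singleton_iff] at hu; subst hu; exact hxz⟩
  have ht' : t = insert x {y, z} := by rw [← hte, Finset.insert_erase hxt]
  have h2 := hF x y z eyz
  rw [← ht'] at h2
  rw [h2]
  have hl : lkf G (Lk G {x}) {y, z} = lkf G Set.univ t := by
    ext v
    rw [mem_lkf, mem_lkf_univ, ht']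
    simp only [Finset.mem_insert, Finset.mem_singleton, forall_eq_or_imp, forall_eq]
    constructor
    · rintro ⟨⟨h1, h3⟩, h2⟩; exact ⟨h2 x rfl, h1, h3⟩
    · rintro ⟨h1, h2, h3⟩
      exact ⟨⟨h2, h3⟩, fun u hu => by rw [Set.mem_singleton_iff] at hu; subst hu; exact h1⟩
  rw [hl]
  refine Finset.sum_congr rfl fun u hu => ?_
  show F x {y, z, u} = F x ((insert u t).erase x)
  have hux : G.Adj x u := (mem_lkf_univ.1 hu) x hxt
  rw [Finset.erase_insert_of_ne hux.ne.symm, hte]
  congr 1
  ext v; simp only [Finset.mem_insert, Finset.mem_singleton]; tauto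

theorem pair_tet [Finite V] (h : IsSph3 G) {t : Finset V} (ht : G.IsClique (t : Set V))
    (ht3 : t.card = 3) {u u' : V} (hu : u ∈ lkf G Set.univ t) (hu' : u' ∈ lkf G Set.univ t)
    (P : Finset V → ZMod 2) (hne : u ≠ u') :
    ∑ v ∈ lkf G Set.univ t, P (insert v t) = P (insert u t) + P (insert u' t) := by
  have hl : lkf G Set.univ t = {u, u'} := by
    symm
    refine Finset.eq_of_subset_of_card_le ?_ ?_
    · intro v hv
      simp only [Finset.mem_insert, Finset.mem_singleton] at hv
      rcases hv with rfl | rfl <;> assumption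
    · rw [Finset.card_pair hne, lkf_univ_card h ht ht3]
  rw [hl, Finset.sum_pair hne]

/-- 3-SPHERE: every 2-cycle bounds. -/
theorem H2_cycle [Finite V] (h : IsSph3 G) (w : Finset V → ZMod 2)
    (hw : ∀ e : Finset V, G.IsClique (e : Set V) → e.card = 2 →
      ∑ z ∈ lkf G Set.univ e, w (insert z e) = 0) :
    ∃ F : Finset V → ZMod 2, ∀ t : Finset V, G.IsClique (t : Set V) → t.card = 3 →
      w t = ∑ z ∈ lkf G Set.univ t, F (insert z t) := by
  obtain ⟨P, hP⟩ := H2_local h w hw
  -- adjacent tetrahedra at an edge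
  have hstep : ∀ x y : V, ∀ t : Finset V, x ∈ t → y ∈ t → G.IsClique (t : Set V) → t.card = 3 →
      ∀ u ∈ lkf G Set.univ t, ∀ u' ∈ lkf G Set.univ t,
      P x (insert u t) + P y (insert u t) = P x (insert u' t) + P y (insert u' t) := by
    intro x y t hx hy ht ht3 u hu u' hu'
    by_cases hne : u = u'
    · rw [hne]
    have h1 := hP x t hx ht ht3
    have h2 := hP y t hy ht ht3
    rw [pair_tet h ht ht3 hu hu' (P x) hne] at h1
    rw [pair_tet h ht ht3 hu hu' (P y) hne] at h2
    rw [h1] at h2
    rw [← z2_eq] at h2 ⊢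
    rw [← h2]; ring
  -- for an edge the sum does not depend on the tetrahedron
  have hedge : ∀ x y : V, G.Adj x y → ∀ T T' : Finset V, G.IsClique (T : Set V) → T.card = 4 →
      x ∈ T → y ∈ T → G.IsClique (T' : Set V) → T'.card = 4 → x ∈ T' → y ∈ T' →
      P x T + P y T = P x T' + P y T' := by
    intro x y hxy T T' hT hT4 hxT hyT hT' hT4' hxT' hyT'
    have hcl : G.IsClique (({x, y} : Finset V) : Set V) :=
      clique_insert (s := {y}) (by simp) (by simpa using hxy)
    have hcyc := h.edge {x, y} hcl (Finset.card_pair hxy.ne)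
    have hcoe : (({x, y} : Finset V) : Set V) = {x, y} := by simp
    -- value at a third vertex
    have hval : ∃ c : V → ZMod 2, ∀ u, ∀ T : Finset V, G.IsClique (T : Set V) → T.card = 4 →
        x ∈ T → y ∈ T → u ∈ T → u ≠ x → u ≠ y → P x T + P y T = c u := by
      refine ⟨fun u => if hh : ∃ T : Finset V, G.IsClique (T : Set V) ∧ T.card = 4 ∧ x ∈ T ∧
        y ∈ T ∧ u ∈ T then P x hh.choose + P y hh.choose else 0, ?_⟩
      intro u T hT hT4 hxT hyT huT hux huy
      have hh : ∃ T : Finset V, G.IsClique (T : Set V) ∧ T.card = 4 ∧ x ∈ T ∧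
        y ∈ T ∧ u ∈ T := ⟨T, hT, hT4, hxT, hyT, huT⟩
      show _ = dite _ _ _
      rw [dif_pos hh]
      obtain ⟨d1, d2, d3, d4, d5⟩ := hh.choose_spec
      generalize hh.choose = T' at d1 d2 d3 d4 d5
      have ht3 : ({x, y, u} : Finset V).card = 3 :=
        Finset.card_eq_three.2 ⟨x, y, u, hxy.ne, hux.symm, huy.symm, rfl⟩
      have hform : ∀ T : Finset V, G.IsClique (T : Set V) → T.card = 4 → x ∈ T → y ∈ T →
          u ∈ T → ∃ v ∈ lkf G Set.univ {x, y, u}, T = insert v {x, y, u} := by
        intro T hT hT4 hxT hyT huT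
        have hsub : ({x, y, u} : Finset V) ⊆ T := by
          intro v hv
          simp only [Finset.mem_insert, Finset.mem_singleton] at hv
          rcases hv with rfl | rfl | rfl <;> assumption
        have h1 : (T \ {x, y, u}).card = 1 := by
          rw [Finset.card_sdiff_of_subset hsub, ht3, hT4]
        obtain ⟨v, hv⟩ := Finset.card_eq_one.1 h1
        have hvT : v ∈ T \ {x, y, u} := by rw [hv]; simp
        rw [Finset.mem_sdiff] at hvT
        refine ⟨v, mem_lkf_univ.2 fun r hr => hT (Finset.mem_coe.2 (hsub hr))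
          (Finset.mem_coe.2 hvT.1) (fun hh => hvT.2 (hh ▸ hr)), ?_⟩
        rw [← Finset.sdiff_union_of_subset hsub, hv]; rfl
      obtain ⟨v, hv, hTv⟩ := hform T hT hT4 hxT hyT huT
      obtain ⟨v', hv', hTv'⟩ := hform T' d1 d2 d3 d4 d5
      have hsub : ({x, y, u} : Finset V) ⊆ T := by
        intro v hv
        simp only [Finset.mem_insert, Finset.mem_singleton] at hv
        rcases hv with rfl | rfl | rfl <;> assumption
      rw [hTv, hTv']
      exact hstep x y {x, y, u} (by simp) (by simp) (subset_clique hsub hT) ht3 v hv v' hv'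
    obtain ⟨c, hc⟩ := hval
    -- `c` is locally constant on the link of the edge
    have hcc : ∀ u v, EIn G (Lk G (({x, y} : Finset V) : Set V)) u v → c u = c v := by
      intro u v e
      have hux : G.Adj x u := e.2.1 x (by simp)
      have huy : G.Adj y u := e.2.1 y (by simp)
      have hvx : G.Adj x v := e.2.2 x (by simp)
      have hvy : G.Adj y v := e.2.2 y (by simp)
      have hcl4 : G.IsClique (({u, v, x, y} : Finset V) : Set V) :=
        clique_insert (s := {v, x, y}) (clique_insert (s := {x, y}) hcl (by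
          intro r hr
          simp only [Finset.mem_insert, Finset.mem_singleton] at hr
          rcases hr with rfl | rfl
          · exact hvx.symm
          · exact hvy.symm)) (by
          intro r hr
          simp only [Finset.mem_insert, Finset.mem_singleton] at hr
          rcases hr with rfl | rfl | rfl
          · exact e.1
          · exact hux.symm
          · exact huy.symm)
      have h4 : ({u, v, x, y} : Finset V).card = 4 := by
        rw [Finset.card_insert_of_notMem, Finset.card_insert_of_notMem,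
          Finset.card_pair hxy.ne]
        · simp only [Finset.mem_insert, Finset.mem_singleton, not_or]
          exact ⟨hvx.ne.symm, hvy.ne.symm⟩
        · simp only [Finset.mem_insert, Finset.mem_singleton, not_or]
          exact ⟨e.1.ne, hux.ne.symm, huy.ne.symm⟩
      rw [← hc u {u, v, x, y} hcl4 h4 (by simp) (by simp) (by simp) hux.ne.symm huy.ne.symm,
        ← hc v {u, v, x, y} hcl4 h4 (by simp) (by simp) (by simp) hvx.ne.symm hvy.ne.symm]
    have hthird : ∀ T : Finset V, G.IsClique (T : Set V) → T.card = 4 → x ∈ T → y ∈ T →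
        ∃ u ∈ T, u ≠ x ∧ u ≠ y := by
      intro T hT hT4 hxT hyT
      have : (T \ {x, y}).card = 2 := by
        rw [Finset.card_sdiff_of_subset, Finset.card_pair hxy.ne, hT4]
        intro r hr
        simp only [Finset.mem_insert, Finset.mem_singleton] at hr
        rcases hr with rfl | rfl <;> assumption
      obtain ⟨u, hu⟩ := Finset.card_pos.1 (by rw [this]; norm_num : 0 < (T \ {x, y}).card)
      rw [Finset.mem_sdiff] at hu
      simp only [Finset.mem_insert, Finset.mem_singleton, not_or] at hu
      exact ⟨u, hu.1, hu.2.1, hu.2.2⟩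
    have hlk : ∀ T : Finset V, G.IsClique (T : Set V) → x ∈ T → y ∈ T → ∀ u ∈ T, u ≠ x → u ≠ y →
        u ∈ Lk G (({x, y} : Finset V) : Set V) := by
      intro T hT hxT hyT u hu hux huy r hr
      rw [hcoe] at hr
      rcases hr with rfl | hr
      · exact hT (Finset.mem_coe.2 hxT) (Finset.mem_coe.2 hu) hux.symm
      · rw [Set.mem_singleton_iff] at hr; subst hr
        exact hT (Finset.mem_coe.2 hyT) (Finset.mem_coe.2 hu) huy.symm
    obtain ⟨u, hu, hux, huy⟩ := hthird T hT hT4 hxT hyT
    obtain ⟨v, hv, hvx, hvy⟩ := hthird T' hT' hT4' hxT' hyT'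
    rw [hc u T hT hT4 hxT hyT hu hux huy, hc v T' hT' hT4' hxT' hyT' hv hvx hvy]
    exact hcyc.1.const hcc (hlk T hT hxT hyT u hu hux huy) (hlk T' hT' hxT' hyT' v hv hvx hvy)
  -- the cocycle
  have htet : ∀ x y : V, G.Adj x y → ∃ T : Finset V, G.IsClique (T : Set V) ∧ T.card = 4 ∧
      x ∈ T ∧ y ∈ T := fun x y e => edge_tet h e
  let a : V → V → ZMod 2 := fun x y => if e : G.Adj x y then
    P x (htet x y e).choose + P y (htet x y e).choose else 0
  have ha : ∀ x y, ∀ e : G.Adj x y, ∀ T : Finset V, G.IsClique (T : Set V) → T.card = 4 →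
      x ∈ T → y ∈ T → a x y = P x T + P y T := by
    intro x y e T hT hT4 hx hy
    obtain ⟨d1, d2, d3, d4⟩ := (htet x y e).choose_spec
    show dite _ _ _ = _
    rw [dif_pos e]
    exact hedge x y e _ T d1 d2 d3 d4 hT hT4 hx hy
  have haZ : a ∈ Z1 G Set.univ := by
    refine mem_Z1.2 ⟨fun x y e => dif_neg fun e' => e ⟨e', trivial, trivial⟩, fun x y => ?_,
      fun x y z e1 e2 e3 => ?_⟩
    · by_cases e : G.Adj x y
      · obtain ⟨T, d1, d2, d3, d4⟩ := htet x y e
        rw [ha x y e T d1 d2 d3 d4, ha y x e.symm T d1 d2 d4 d3, add_comm]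
      · show dite _ _ _ = dite _ _ _
        rw [dif_neg e, dif_neg (fun e' => e e'.symm)]
    · have hcl : G.IsClique (({x, y, z} : Finset V) : Set V) :=
        clique_insert (s := {y, z}) (clique_insert (s := {z}) (by simp) (by simpa using e2.1))
          (by
            intro v hv
            simp only [Finset.mem_insert, Finset.mem_singleton] at hv
            rcases hv with rfl | rfl
            · exact e1.1
            · exact e3.1)
      have h3 : ({x, y, z} : Finset V).card = 3 :=
        Finset.card_eq_three.2 ⟨x, y, z, e1.1.ne, e3.1.ne, e2.1.ne, rfl⟩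
      obtain ⟨u, hu⟩ : (lkf G Set.univ ({x, y, z} : Finset V)).Nonempty := by
        rw [← Finset.card_pos, lkf_univ_card h hcl h3]; norm_num
      have hu' := mem_lkf_univ.1 hu
      have hun : u ∉ ({x, y, z} : Finset V) := fun hh => G.irrefl (hu' u hh)
      have hT := clique_insert hcl fun v hv => (hu' v hv).symm
      have hT4 : (insert u ({x, y, z} : Finset V)).card = 4 := by
        rw [Finset.card_insert_of_notMem hun, h3]
      rw [ha x y e1.1 _ hT hT4 (by simp) (by simp), ha y z e2.1 _ hT hT4 (by simp) (by simp),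
        ha x z e3.1 _ hT hT4 (by simp) (by simp)]
      generalize P x _ = p
      generalize P y _ = q
      generalize P z _ = r
      calc p + q + (q + r) = p + r + (q + q) := by ring
        _ = p + r := by rw [two_add, add_zero]
  obtain ⟨f, hf⟩ := h.hz a haZ
  have hPf : ∀ (x y : V) (T : Finset V), G.IsClique (T : Set V) → T.card = 4 → x ∈ T → y ∈ T →
      P x T + f x = P y T + f y := by
    intro x y T hT hT4 hx hy
    by_cases hxy : x = y
    · rw [hxy]
    have e : G.Adj x y := hT (Finset.mem_coe.2 hx) (Finset.mem_coe.2 hy) hxy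
    have h1 := hf x y ⟨e, trivial, trivial⟩
    rw [ha x y e T hT hT4 hx hy] at h1
    rw [← z2_eq] at h1 ⊢
    rw [← h1]; ring
  refine ⟨fun T => if hh : T.Nonempty then P hh.choose T + f hh.choose else 0, ?_⟩
  have hFT : ∀ (x : V) (T : Finset V), G.IsClique (T : Set V) → T.card = 4 → x ∈ T →
      (fun T : Finset V => if hh : T.Nonempty then P hh.choose T + f hh.choose else 0) T =
        P x T + f x := by
    intro x T hT hT4 hx
    have hh : T.Nonempty := ⟨x, hx⟩
    show dite _ _ _ = _
    rw [dif_pos hh]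
    exact hPf _ x T hT hT4 hh.choose_spec hx
  intro t ht ht3
  obtain ⟨x, hx⟩ := Finset.card_pos.1 (by rw [ht3]; norm_num : 0 < t.card)
  rw [hP x t hx ht ht3]
  have h1 : ∀ u ∈ lkf G Set.univ t,
      (fun T : Finset V => if hh : T.Nonempty then P hh.choose T + f hh.choose else 0)
        (insert u t) = P x (insert u t) + f x := by
    intro u hu
    have hu' := mem_lkf_univ.1 hu
    have hun : u ∉ t := fun hh => G.irrefl (hu' u hh)
    exact hFT x _ (clique_insert ht fun v hv => (hu' v hv).symm)
      (by rw [Finset.card_insert_of_notMem hun, ht3]) (Finset.mem_insert_of_mem hx)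
  rw [Finset.sum_congr rfl h1, Finset.sum_add_distrib, Finset.sum_const, lkf_univ_card h ht ht3,
    two_smul, two_add, add_zero]

end MOT
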