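import Pool.Agent.MOT.Bas

/-!
# MOT/Ret: retractions in posets
-/

open Classical

noncomputable section

namespace MOT

variable {P Q : Type} [PartialOrder P] [PartialOrder Q] {S S' : Set P} {T T' : Set Q}

/-- comparability -/
private def Cm (x y : P) : Prop := x ≤ y ∨ y ≤ x

private theorem Cm.symm {x y : P} (h : Cm x y) : Cm y x := Or.symm h

private theorem ein_of {x y : P} (hx : x ∈ S) (hy : y ∈ S) (h : Cm x y) (hne : x ≠ y) :
    EIn (cmp P) S x y := by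
  refine ⟨?_, hx, hy⟩
  rcases h with h | h
  · exact Or.inl (lt_of_le_of_ne h hne)
  · exact Or.inr (lt_of_le_of_ne h (Ne.symm hne))

private theorem ein_cm {x y : P} (h : EIn (cmp P) S x y) : Cm x y := by
  rcases h.1 with h | h
  · exact Or.inl h.le
  · exact Or.inr h.le

private theorem z1_self {a : P → P → ZMod 2} (ha : a ∈ Z1 (cmp P) S) (x : P) : a x x = 0 :=
  (mem_Z1.1 ha).1 x x (fun h => (cmp P).loopless.irrefl x h.1)

private theorem z1_tri {a : P → P → ZMod 2} (ha : a ∈ Z1 (cmp P) S) {x y z : P} (hx : x ∈ S)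
    (hy : y ∈ S) (hz : z ∈ S) (hxy : Cm x y) (hyz : Cm y z) (hxz : Cm x z) :
    a x y + a y z = a x z := by
  by_cases e1 : x = y
  · subst e1; rw [z1_self ha, zero_add]
  by_cases e2 : y = z
  · subst e2; rw [z1_self ha, add_zero]
  by_cases e3 : x = z
  · subst e3; rw [z1_self ha, (mem_Z1.1 ha).2.1 y x]; exact two_add _
  exact (mem_Z1.1 ha).2.2 x y z (ein_of hx hy hxy e1) (ein_of hy hz hyz e2)
    (ein_of hx hz hxz e3)

private theorem triv_cm {a : P → P → ZMod 2} (ha : a ∈ Z1 (cmp P) S) {S₁ : Set P}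
    {f : P → ZMod 2}
    (hf : ∀ x y, EIn (cmp P) S₁ x y → a x y = f x + f y) {x y : P} (hx : x ∈ S₁) (hy : y ∈ S₁)
    (h : Cm x y) : a x y = f x + f y := by
  by_cases e : x = y
  · subst e; rw [z1_self ha, two_add]
  · exact hf x y (ein_of hx hy h e)

private theorem alg1 (axy rxx rxry ryy rxy : ZMod 2) (h1 : rxx + axy = rxy)
    (h2 : rxry + ryy = rxy) : axy = rxx + rxry + ryy := by
  decide +revert

private theorem alg2 (axy yry xrx rxry xry : ZMod 2) (h1 : axy + yry = xry)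
    (h2 : xrx + rxry = xry) : axy = xrx + rxry + yry := by
  decide +revert

/-- the basic homotopy: `a x y` compared with `a (r x) (r y)` -/
private theorem homot {a : P → P → ZMod 2} (ha : a ∈ Z1 (cmp P) S) {r : P → P} {x y : P}
    (hx : x ∈ S) (hy : y ∈ S) (hrx : r x ∈ S) (hry : r y ∈ S) (hxy : Cm x y)
    (h1 : Cm (r x) x) (h2 : Cm (r y) y) (h3 : Cm (r x) (r y))
    (h : Cm (r x) y ∨ Cm x (r y)) : a x y = a (r x) x + a (r x) (r y) + a (r y) y := by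
  have hs := (mem_Z1.1 ha).2.1
  rcases h with h | h
  · exact alg1 _ _ _ _ _ (z1_tri ha hrx hx hy h1 hxy h) (z1_tri ha hrx hry hy h3 h2 h)
  · have e1 := z1_tri ha hx hy hry hxy h2.symm h
    have e2 := z1_tri ha hx hrx hry h1.symm h3 h
    rw [hs y (r y)] at e1
    rw [hs x (r x)] at e2
    exact alg2 _ _ _ _ _ e1 e2

private theorem hcm {r : P → P}
    (h4 : ∀ x ∈ S, ∀ y ∈ S, x ≤ y → r x ≤ r y) {x y : P} (hx : x ∈ S) (hy : y ∈ S)
    (h : Cm x y) : Cm (r x) (r y) := by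
  rcases h with h | h
  · exact Or.inl (h4 x hx y hy h)
  · exact Or.inr (h4 y hy x hx h)

private theorem gen_Inj (r : P → P) (h1 : S' ⊆ S) (h2 : ∀ x ∈ S, r x ∈ S')
    (h3 : ∀ x ∈ S, Cm (r x) x)
    (h4 : ∀ x ∈ S, ∀ y ∈ S, x ≤ y → r x ≤ r y)
    (h6 : ∀ x ∈ S, ∀ y ∈ S, Cm x y → Cm (r x) y ∨ Cm x (r y)) : Inj (cmp P) S S' := by
  rintro a ha ⟨f, hf⟩
  refine ⟨fun x => f (r x) + a (r x) x, fun x y e => ?_⟩
  have hxy := ein_cm e
  have hx := e.2.1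
  have hy := e.2.2
  have key := homot ha hx hy (h1 (h2 x hx)) (h1 (h2 y hy)) hxy (h3 x hx) (h3 y hy)
    (hcm h4 hx hy hxy) (h6 x hx y hy hxy)
  have e2 := triv_cm ha hf (h2 x hx) (h2 y hy) (hcm h4 hx hy hxy)
  change a x y = (f (r x) + a (r x) x) + (f (r y) + a (r y) y)
  rw [key, e2]
  abel

/-- the pull back of a cocycle -/
private def pb (r : P → P) (S : Set P) (b : P → P → ZMod 2) : P → P → ZMod 2 :=
  fun x y => if EIn (cmp P) S x y then b (r x) (r y) else 0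

private theorem pb_mem {r : P → P} {b : P → P → ZMod 2} (hb : b ∈ Z1 (cmp P) S')
    (h2 : ∀ x ∈ S, r x ∈ S') (h4 : ∀ x ∈ S, ∀ y ∈ S, x ≤ y → r x ≤ r y) :
    pb r S b ∈ Z1 (cmp P) S := by
  refine mem_Z1.2 ⟨fun x y e => if_neg e, fun x y => ?_, fun x y z e1 e2 e3 => ?_⟩
  · unfold pb
    by_cases e : EIn (cmp P) S x y
    · rw [if_pos e, if_pos e.symm, (mem_Z1.1 hb).2.1]
    · rw [if_neg e, if_neg (fun e' => e e'.symm)]
  · unfold pb
    rw [if_pos e1, if_pos e2, if_pos e3]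
    exact z1_tri hb (h2 x e1.2.1) (h2 y e1.2.2) (h2 z e2.2.2) (hcm h4 e1.2.1 e1.2.2 (ein_cm e1))
      (hcm h4 e2.2.1 e2.2.2 (ein_cm e2)) (hcm h4 e3.2.1 e3.2.2 (ein_cm e3))

private theorem gen_Conn (r : P → P) (h1 : S' ⊆ S) (h2 : ∀ x ∈ S, r x ∈ S')
    (h3 : ∀ x ∈ S, Cm (r x) x)
    (h4 : ∀ x ∈ S, ∀ y ∈ S, x ≤ y → r x ≤ r y) : Conn (cmp P) S ↔ Conn (cmp P) S' := by
  have hc : ∀ {A : Set P} {f : P → ZMod 2}, (∀ x y, EIn (cmp P) A x y → f x = f y) →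
      ∀ {x y : P}, x ∈ A → y ∈ A → Cm x y → f x = f y := by
    intro A f hf x y hx hy h
    by_cases e : x = y
    · rw [e]
    · exact hf x y (ein_of hx hy h e)
  rw [Conn_iff, Conn_iff]
  constructor
  · rintro ⟨⟨x0, hx0⟩, h⟩
    refine ⟨⟨r x0, h2 x0 hx0⟩, fun f hf x hx y hy => ?_⟩
    have e := h (fun z => f (r z)) (fun u v e =>
      hc hf (h2 u e.2.1) (h2 v e.2.2) (hcm h4 e.2.1 e.2.2 (ein_cm e))) x (h1 hx) y (h1 hy)
    have e1 : f (r x) = f x := hc hf (h2 x (h1 hx)) hx (h3 x (h1 hx))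
    have e2 : f (r y) = f y := hc hf (h2 y (h1 hy)) hy (h3 y (h1 hy))
    rw [← e1, ← e2]
    exact e
  · rintro ⟨⟨x0, hx0⟩, h⟩
    refine ⟨⟨x0, h1 hx0⟩, fun f hf x hx y hy => ?_⟩
    have e := h f (fun u v e => hf u v (e.mono h1)) (r x) (h2 x hx) (r y) (h2 y hy)
    have e1 : f (r x) = f x := hc hf (h1 (h2 x hx)) hx (h3 x hx)
    have e2 : f (r y) = f y := hc hf (h1 (h2 y hy)) hy (h3 y hy)
    rw [← e1, ← e2]
    exact e

omit [PartialOrder P] in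
private theorem HZ_of_IS {G : SimpleGraph P} (h1 : S' ⊆ S) (hi : Inj G S S')
    (hs : Surj G S S') : HZ G S ↔ HZ G S' := by
  constructor
  · intro h a ha
    obtain ⟨a', ha', t⟩ := hs a ha
    have t' := (h a' ha').mono h1
    refine (t.add t').congr fun x y _ => ?_
    simp only [Pi.add_apply]
    have := two_add (a' x y)
    calc a' x y + a x y + a' x y = a x y + (a' x y + a' x y) := by abel
      _ = a x y := by rw [this, add_zero]
  · intro h a ha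
    exact hi a ha (Triv_rs.1 (h _ (rs_mem h1 ha)))

private theorem down6 {r : P → P} (h3 : ∀ x ∈ S, r x ≤ x) :
    ∀ x ∈ S, ∀ y ∈ S, Cm x y → Cm (r x) y ∨ Cm x (r y) := by
  intro x hx y hy h
  rcases h with h | h
  · exact Or.inl (Or.inl ((h3 x hx).trans h))
  · exact Or.inr (Or.inr ((h3 y hy).trans h))

private theorem up6 {r : P → P} (h3 : ∀ x ∈ S, x ≤ r x) :
    ∀ x ∈ S, ∀ y ∈ S, Cm x y → Cm (r x) y ∨ Cm x (r y) := by
  intro x hx y hy h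
  rcases h with h | h
  · exact Or.inr (Or.inl (h.trans (h3 y hy)))
  · exact Or.inl (Or.inr (h.trans (h3 x hx)))

/-- RETRACTION (downwards), injectivity.  `r` maps `S` to `S' ⊆ S`, monotone, `r x ≤ x`.
Sketch: `a = df` on `S'`; `F x := f (r x) + a (r x) x` (the second term is `0` if `r x = x`);
for `x < y` use the triangles `r x ≤ x < y` and `r x ≤ r y ≤ y` (degenerate cases allowed). -/
theorem ret_Inj (r : P → P) (h1 : S' ⊆ S) (h2 : ∀ x ∈ S, r x ∈ S') (h3 : ∀ x ∈ S, r x ≤ x)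
    (h4 : ∀ x ∈ S, ∀ y ∈ S, x ≤ y → r x ≤ r y) : Inj (cmp P) S S' :=
  gen_Inj r h1 h2 (fun x hx => Or.inl (h3 x hx)) h4 (down6 h3)

/-- RETRACTION, surjectivity (`r` is the identity on `S'`).
Sketch: extend `a` by `a (r x) (r y)`. -/
theorem ret_Surj (r : P → P) (h1 : S' ⊆ S) (h2 : ∀ x ∈ S, r x ∈ S')
    (h4 : ∀ x ∈ S, ∀ y ∈ S, x ≤ y → r x ≤ r y) (h5 : ∀ x ∈ S', r x = x) :
    Surj (cmp P) S S' := by
  intro b hb
  refine ⟨pb r S b, pb_mem hb h2 h4, 0, fun x y e => ?_⟩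
  simp only [Pi.add_apply, pb, Pi.zero_apply, add_zero]
  rw [if_pos (e.mono h1), h5 x e.2.1, h5 y e.2.2]
  exact two_add _

theorem ret_Conn (r : P → P) (h1 : S' ⊆ S) (h2 : ∀ x ∈ S, r x ∈ S') (h3 : ∀ x ∈ S, r x ≤ x)
    (h4 : ∀ x ∈ S, ∀ y ∈ S, x ≤ y → r x ≤ r y) : Conn (cmp P) S ↔ Conn (cmp P) S' :=
  gen_Conn r h1 h2 (fun x hx => Or.inl (h3 x hx)) h4

theorem ret_HZ (r : P → P) (h1 : S' ⊆ S) (h2 : ∀ x ∈ S, r x ∈ S') (h3 : ∀ x ∈ S, r x ≤ x)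
    (h4 : ∀ x ∈ S, ∀ y ∈ S, x ≤ y → r x ≤ r y) (h5 : ∀ x ∈ S', r x = x) :
    HZ (cmp P) S ↔ HZ (cmp P) S' :=
  HZ_of_IS h1 (ret_Inj r h1 h2 h3 h4) (ret_Surj r h1 h2 h4 h5)

theorem ret_b1 [Finite P] (r : P → P) (h1 : S' ⊆ S) (h2 : ∀ x ∈ S, r x ∈ S')
    (h3 : ∀ x ∈ S, r x ≤ x) (h4 : ∀ x ∈ S, ∀ y ∈ S, x ≤ y → r x ≤ r y)
    (h5 : ∀ x ∈ S', r x = x) : b1 (cmp P) S = b1 (cmp P) S' :=
  le_antisymm ((ret_Inj r h1 h2 h3 h4).le h1) ((ret_Surj r h1 h2 h4 h5).le h1)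

theorem ret_b0 [Finite P] (r : P → P) (h1 : S' ⊆ S) (h2 : ∀ x ∈ S, r x ∈ S')
    (h3 : ∀ x ∈ S, r x ≤ x) (h4 : ∀ x ∈ S, ∀ y ∈ S, x ≤ y → r x ≤ r y)
    (h5 : ∀ x ∈ S', r x = x) : b0 (cmp P) S = b0 (cmp P) S' := by
  have hc : ∀ {A : Set P} {f : P → ZMod 2}, (∀ x y, EIn (cmp P) A x y → f x = f y) →
      ∀ {x y : P}, x ∈ A → y ∈ A → Cm x y → f x = f y := by
    intro A f hf x y hx hy h
    by_cases e : x = y
    · rw [e]
    · exact hf x y (ein_of hx hy h e)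
  let φ : Z0 (cmp P) S →ₗ[ZMod 2] Z0 (cmp P) S' :=
    { toFun := fun f => ⟨fun x => if x ∈ S' then f.1 x else 0, by
        refine mem_Z0.2 ⟨fun x hx => if_neg hx, fun x y e => ?_⟩
        rw [if_pos e.2.1, if_pos e.2.2]
        exact (mem_Z0.1 f.2).2 x y (e.mono h1)⟩
      map_add' := by
        intro f g; ext x
        simp only [Submodule.coe_add, Pi.add_apply]
        split_ifs <;> simp
      map_smul' := by
        intro c f; ext x
        simp only [Submodule.coe_smul, Pi.smul_apply, RingHom.id_apply]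
        split_ifs <;> simp }
  let ψ : Z0 (cmp P) S' →ₗ[ZMod 2] Z0 (cmp P) S :=
    { toFun := fun g => ⟨fun x => if x ∈ S then g.1 (r x) else 0, by
        refine mem_Z0.2 ⟨fun x hx => if_neg hx, fun x y e => ?_⟩
        rw [if_pos e.2.1, if_pos e.2.2]
        exact hc (mem_Z0.1 g.2).2 (h2 x e.2.1) (h2 y e.2.2) (hcm h4 e.2.1 e.2.2 (ein_cm e))⟩
      map_add' := by
        intro f g; ext x
        simp only [Submodule.coe_add, Pi.add_apply]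
        split_ifs <;> simp
      map_smul' := by
        intro c f; ext x
        simp only [Submodule.coe_smul, Pi.smul_apply, RingHom.id_apply]
        split_ifs <;> simp }
  have e : Z0 (cmp P) S ≃ₗ[ZMod 2] Z0 (cmp P) S' := LinearEquiv.ofLinearMap φ ψ (by
    ext g x
    change (if x ∈ S' then (if x ∈ S then g.1 (r x) else 0) else 0) = g.1 x
    by_cases hx : x ∈ S'
    · rw [if_pos hx, if_pos (h1 hx), h5 x hx]
    · rw [if_neg hx, (mem_Z0.1 g.2).1 x hx]) (by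
    ext f x
    change (if x ∈ S then (if r x ∈ S' then f.1 (r x) else 0) else 0) = f.1 x
    by_cases hx : x ∈ S
    · rw [if_pos hx, if_pos (h2 x hx)]
      exact hc (mem_Z0.1 f.2).2 (h1 (h2 x hx)) hx (Or.inl (h3 x hx))
    · rw [if_neg hx, (mem_Z0.1 f.2).1 x hx])
  exact LinearEquiv.finrank_eq e

/-- RETRACTION (upwards): the same with `x ≤ r x`. -/
theorem retu_Inj (r : P → P) (h1 : S' ⊆ S) (h2 : ∀ x ∈ S, r x ∈ S') (h3 : ∀ x ∈ S, x ≤ r x)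
    (h4 : ∀ x ∈ S, ∀ y ∈ S, x ≤ y → r x ≤ r y) : Inj (cmp P) S S' :=
  gen_Inj r h1 h2 (fun x hx => Or.inr (h3 x hx)) h4 (up6 h3)

theorem retu_Conn (r : P → P) (h1 : S' ⊆ S) (h2 : ∀ x ∈ S, r x ∈ S') (h3 : ∀ x ∈ S, x ≤ r x)
    (h4 : ∀ x ∈ S, ∀ y ∈ S, x ≤ y → r x ≤ r y) : Conn (cmp P) S ↔ Conn (cmp P) S' :=
  gen_Conn r h1 h2 (fun x hx => Or.inr (h3 x hx)) h4

theorem retu_HZ (r : P → P) (h1 : S' ⊆ S) (h2 : ∀ x ∈ S, r x ∈ S') (h3 : ∀ x ∈ S, x ≤ r x)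
    (h4 : ∀ x ∈ S, ∀ y ∈ S, x ≤ y → r x ≤ r y) (h5 : ∀ x ∈ S', r x = x) :
    HZ (cmp P) S ↔ HZ (cmp P) S' :=
  HZ_of_IS h1 (retu_Inj r h1 h2 h3 h4) (ret_Surj r h1 h2 h4 h5)

private theorem m_Conn {m : P} (hm : m ∈ S) (h : ∀ x ∈ S, Cm x m) : Conn (cmp P) S := by
  rw [Conn_iff]
  refine ⟨⟨m, hm⟩, fun f hf x hx y hy => ?_⟩
  have key : ∀ z ∈ S, f z = f m := by
    intro z hz
    by_cases e : z = m
    · rw [e]
    · exact hf z m (ein_of hz hm (h z hz) e)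
  rw [key x hx, key y hy]

private theorem alg4 (mx xy my : ZMod 2) (h : mx + xy = my) : xy = mx + my := by
  decide +revert

private theorem m_HZ {m : P} (hm : m ∈ S) (h : ∀ x ∈ S, Cm m x) : HZ (cmp P) S := by
  intro a ha
  refine ⟨fun x => a m x, fun x y e => ?_⟩
  exact alg4 _ _ _ (z1_tri ha hm e.2.1 e.2.2 (h x e.2.1) (ein_cm e) (h y e.2.2))

/-- a set with a least element -/
theorem bot_Conn {m : P} (hm : m ∈ S) (h : ∀ x ∈ S, m ≤ x) : Conn (cmp P) S :=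
  m_Conn hm fun x hx => Or.inr (h x hx)

theorem bot_HZ {m : P} (hm : m ∈ S) (h : ∀ x ∈ S, m ≤ x) : HZ (cmp P) S :=
  m_HZ hm fun x hx => Or.inl (h x hx)

/-- a set with a greatest element -/
theorem top_Conn {m : P} (hm : m ∈ S) (h : ∀ x ∈ S, x ≤ m) : Conn (cmp P) S :=
  m_Conn hm fun x hx => Or.inl (h x hx)

theorem top_HZ {m : P} (hm : m ∈ S) (h : ∀ x ∈ S, x ≤ m) : HZ (cmp P) S :=
  m_HZ hm fun x hx => Or.inr (h x hx)

/-- two-step cone: `f x ≤ x` and `f x ≤ m` with `f` monotone into `S`, `m ∈ S`. -/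
theorem cc_Conn {m : P} (hm : m ∈ S) (f : P → P) (h2 : ∀ x ∈ S, f x ∈ S)
    (h3 : ∀ x ∈ S, f x ≤ x) (h4 : ∀ x ∈ S, f x ≤ m) : Conn (cmp P) S := by
  rw [Conn_iff]
  refine ⟨⟨m, hm⟩, fun g hg x hx y hy => ?_⟩
  have hc : ∀ {x y : P}, x ∈ S → y ∈ S → Cm x y → g x = g y := by
    intro x y hx hy h
    by_cases e : x = y
    · rw [e]
    · exact hg x y (ein_of hx hy h e)
  have key : ∀ z ∈ S, g z = g m := fun z hz =>
    (hc hz (h2 z hz) (Or.inr (h3 z hz))).trans (hc (h2 z hz) hm (Or.inl (h4 z hz)))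
  rw [key x hx, key y hy]

private theorem alg5 (xy fxx ffxy fyy fxm fym : ZMod 2) (h1 : xy = fxx + ffxy + fyy)
    (h2 : ffxy + fym = fxm) : xy = (fxx + fxm) + (fyy + fym) := by
  decide +revert

theorem cc_HZ {m : P} (hm : m ∈ S) (f : P → P) (h2 : ∀ x ∈ S, f x ∈ S)
    (h3 : ∀ x ∈ S, f x ≤ x) (h4 : ∀ x ∈ S, f x ≤ m)
    (h5 : ∀ x ∈ S, ∀ y ∈ S, x ≤ y → f x ≤ f y) : HZ (cmp P) S := by
  intro a ha
  refine ⟨fun x => a (f x) x + a (f x) m, fun x y e => ?_⟩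
  have hx := e.2.1
  have hy := e.2.2
  have hxy := ein_cm e
  have hff := hcm h5 hx hy hxy
  have key := homot ha hx hy (h2 x hx) (h2 y hy) hxy (Or.inl (h3 x hx)) (Or.inl (h3 y hy))
    hff (down6 h3 x hx y hy hxy)
  exact alg5 _ _ _ _ _ _ key (z1_tri ha (h2 x hx) (h2 y hy) hm hff (Or.inl (h4 y hy))
    (Or.inl (h4 x hx)))

end MOT
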