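import Pool.Agent.MOT.EaDef
import Pool.Agent.MOT.DuaB
import Pool.Agent.MOT.Cpt
import Pool.Agent.MOT.Ret

/-!
# MOT/EaA: splitting an acyclic set along a disc between two layers (block E, helper98)
-/

open Classical

noncomputable section

namespace MOT.Ea

variable {V : Type} {G : SimpleGraph V} {W A A0 A1 : Set V} {D : Set (Cq G)}

/-- `A` is split into `A0`, `A1` along the set `D` of simplices; the `A0` ends are in `W` -/
structure Split (G : SimpleGraph V) (W A : Set V) (D : Set (Cq G)) (A0 A1 : Set V) : Prop where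
  dj : Disjoint A0 A1
  un : A0 ∪ A1 = A
  ee : EE G A0 A1 = D
  c0 : Conn G A0
  c1 : Conn G A1
  ed : ∀ x ∈ A0, ∀ y ∈ A1, G.Adj x y → x ∈ W ∧ y ∉ W

theorem EE_symm (X Y : Set V) : EE G X Y = EE G Y X := by
  unfold EE
  rw [Set.union_comm X Y, Set.inter_assoc, Set.inter_assoc, Set.inter_comm (pl G X)]

theorem Split.symm (h : Split G W A D A0 A1) : Split G Wᶜ A D A1 A0 where
  dj := h.dj.symm
  un := by rw [Set.union_comm]; exact h.un
  ee := by rw [EE_symm]; exact h.ee
  c0 := h.c1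
  c1 := h.c0
  ed := fun x hx y hy e => by
    have := h.ed y hy x hx e.symm
    exact ⟨this.2, fun h' => h' this.1⟩

/-- duality: acyclic sets and complements -/
theorem Acy.compl [Finite V] (h3 : IsSph3 G) (h : Acy G A) : Acy G Aᶜ := by
  refine ⟨h.2.2, ?_, by rw [compl_compl]; exact h.1⟩
  rw [← b1_eq_zero, ← dual h3 h.1 h.2.2, b1_eq_zero]
  exact h.2.1

/-- two vertices of a simplex are equal or adjacent -/
private theorem smp_adj (s : Cq G) {x y : V} (hx : x ∈ s.1) (hy : y ∈ s.1) (h : x ≠ y) :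
    G.Adj x y := s.2.2 hx hy h

/-- the simplex with three vertices -/
private theorem ex_tri {x y z : V} (h1 : G.Adj x y) (h2 : G.Adj y z) (h3 : G.Adj x z) :
    ∃ t : Cq G, x ∈ t.1 ∧ y ∈ t.1 ∧ z ∈ t.1 ∧ ∀ v ∈ t.1, v = x ∨ v = y ∨ v = z := by
  have hc : G.IsClique ((({x, y, z} : Finset V)) : Set V) := by
    intro u hu v hv huv
    simp only [Finset.coe_insert, Finset.coe_singleton, Set.mem_insert_iff,
      Set.mem_singleton_iff] at hu hv
    rcases hu with rfl | rfl | rfl <;> rcases hv with rfl | rfl | rfl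
    · exact absurd rfl huv
    · exact h1
    · exact h3
    · exact h1.symm
    · exact absurd rfl huv
    · exact h2
    · exact h3.symm
    · exact h2.symm
    · exact absurd rfl huv
  refine ⟨⟨{x, y, z}, ⟨x, by simp⟩, hc⟩, by simp, by simp, by simp, fun v hv => ?_⟩
  simpa using hv

private theorem eg_mem_l {x y : V} (h : G.Adj x y) : x ∈ (eg G h).1 := Finset.mem_insert_self x {y}

private theorem eg_mem_r {x y : V} (h : G.Adj x y) : y ∈ (eg G h).1 :=
  Finset.mem_insert_of_mem (Finset.mem_singleton_self y)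

private theorem eg_mem {x y v : V} (h : G.Adj x y) (hv : v ∈ (eg G h).1) : v = x ∨ v = y := by
  rcases Finset.mem_insert.1 hv with h1 | h1
  · exact Or.inl h1
  · exact Or.inr (Finset.mem_singleton.1 h1)

private theorem eg_le {x y : V} (h : G.Adj x y) {t : Cq G} (hx : x ∈ t.1) (hy : y ∈ t.1) :
    eg G h ≤ t := by
  intro v hv
  rcases eg_mem h hv with rfl | rfl
  · exact hx
  · exact hy

private theorem eg_symm {x y : V} (h : G.Adj x y) : eg G h.symm = eg G h :=
  Subtype.ext (Finset.pair_comm y x)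

/-- nested simplices: both in the component or none -/
private theorem cl_iff (hD : IsComp (sd G) (mi G A ∩ Fr G W) D) {s t : Cq G} (hst : s ≤ t)
    (hs : s ∈ mi G A ∩ Fr G W) (ht : t ∈ mi G A ∩ Fr G W) : s ∈ D ↔ t ∈ D := by
  by_cases h : s = t
  · rw [h]
  have e : (sd G).Adj s t := Or.inl (lt_of_le_of_ne hst h)
  constructor
  · intro h1
    by_contra h2
    exact hD.nadj s h1 t ⟨ht, h2⟩ e
  · intro h1
    by_contra h2
    exact hD.nadj t h1 s ⟨hs, h2⟩ e.symm

/-- a function constant on `s ∩ B` for all `s ∈ D` -/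
private theorem const_D (hDc : Conn (sd G) D) (B : Set V) (g : V → ZMod 2)
    (hm : ∀ s ∈ D, ∃ x ∈ s.1, x ∈ B)
    (hg : ∀ s ∈ D, ∀ x ∈ s.1, ∀ y ∈ s.1, x ∈ B → y ∈ B → g x = g y) :
    ∃ γ, ∀ s ∈ D, ∀ x ∈ s.1, x ∈ B → g x = γ := by
  obtain ⟨φ, hφ⟩ : ∃ φ : Cq G → ZMod 2, φ = fun s =>
      if h : ∃ x ∈ s.1, x ∈ B then g h.choose else 0 := ⟨_, rfl⟩
  have h1 : ∀ s ∈ D, ∀ x ∈ s.1, x ∈ B → φ s = g x := by
    intro s hs x hx hxB
    have h2 : ∃ x ∈ s.1, x ∈ B := ⟨x, hx, hxB⟩
    rw [hφ]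
    show (if h : ∃ x ∈ s.1, x ∈ B then g h.choose else 0) = g x
    rw [dif_pos h2]
    exact hg s hs _ h2.choose_spec.1 x hx h2.choose_spec.2 hxB
  obtain ⟨s0, hs0⟩ := hDc.1
  refine ⟨φ s0, fun s hs x hx hxB => ?_⟩
  rw [← h1 s hs x hx hxB]
  refine hDc.const (f := φ) ?_ hs hs0
  intro u v e
  rcases e.1 with h2 | h2
  · obtain ⟨z, hz, hzB⟩ := hm u e.2.1
    rw [h1 u e.2.1 z hz hzB, h1 v e.2.2 z (h2.le hz) hzB]
  · obtain ⟨z, hz, hzB⟩ := hm v e.2.2
    rw [h1 v e.2.2 z hz hzB, h1 u e.2.1 z (h2.le hz) hzB]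

/-- connectedness of the first part -/
private theorem c0_of (hc : Conn G A) (hDc : Conn (sd G) D) (hun : A0 ∪ A1 = A)
    (hdj : Disjoint A0 A1) (hee : EE G A0 A1 = D) : Conn G A0 := by
  have hm : ∀ s ∈ D, ∃ x ∈ s.1, x ∈ A0 := by
    intro s hs
    rw [← hee] at hs
    exact hs.1.2
  rw [Conn_iff]
  constructor
  · obtain ⟨s, hs⟩ := hDc.1
    obtain ⟨x, -, hx⟩ := hm s hs
    exact ⟨x, hx⟩
  intro g hg
  obtain ⟨γ, hγ⟩ := const_D hDc A0 g hm (by
    intro s _ x hx y hy hxA hyA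
    by_cases h : x = y
    · rw [h]
    · exact hg x y ⟨smp_adj s hx hy h, hxA, hyA⟩)
  intro x hx y hy
  have hxA : x ∈ A := hun ▸ Or.inl hx
  have hyA : y ∈ A := hun ▸ Or.inl hy
  have key : ∀ u ∈ A0, ∀ v ∈ A, v ∉ A0 → G.Adj u v → g u = γ := by
    intro u hu v hv hv0 e
    have hv1 : v ∈ A1 := by
      rw [← hun] at hv
      exact hv.resolve_left hv0
    have h1 : eg G e ∈ D := by
      rw [← hee]
      refine ⟨⟨?_, u, eg_mem_l e, hu⟩, v, eg_mem_r e, hv1⟩
      intro w hw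
      rcases eg_mem e hw with rfl | rfl
      · exact Or.inl hu
      · exact Or.inr hv1
    exact hγ _ h1 u (eg_mem_l e) hu
  have h2 := hc.const (f := fun z => if z ∈ A0 then g z else γ) (by
    intro u v e
    by_cases hu : u ∈ A0 <;> by_cases hv : v ∈ A0
    · simp only [if_pos hu, if_pos hv]
      exact hg u v ⟨e.1, hu, hv⟩
    · simp only [if_pos hu, if_neg hv]
      exact key u hu v e.2.2 hv e.1
    · simp only [if_neg hu, if_pos hv]
      exact (key v hv u e.2.1 hu e.1.symm).symm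
    · simp only [if_neg hu, if_neg hv]) hxA hyA
  simp only [if_pos hx, if_pos hy] at h2
  exact h2

/-- SPLIT.  Sketch: `c x y := 1` iff `x`, `y` are adjacent in `A` and the edge `{x, y}` (`eg`) is in `D`.
`c ∈ Z1 G A`: a triangle of `A` has zero or two edges mixed with respect to `W`; in the second case both
are comparable with the triangle, which is in `mi G A ∩ Fr G W`, so all three are in `D` or none is
(`IsComp.nadj`).  So `c = df` on `A`.  `f` is constant on `s ∩ W` and on `s \ W` for a simplex `s ⊆ A`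
(edges inside `W` or outside `W` are not in `Fr G W`); for `s ∈ D` let `φ s := f (any vertex of s in W)`: locally
constant on `D` (nested simplices), so a constant `ε` (`IsComp.conn`).  `A0 := {x ∈ A | f x = ε}`,
`A1 := {x ∈ A | f x ≠ ε}`.  An edge of `A` in `D` has `f = ε` at the end in `W`, `ε + 1` at the other; an edge of
`A` not in `D` has equal values.  This gives `ed` and `ee` (a simplex of `A` which meets `A0` and `A1` contains
an edge between them, it is in `D`, the simplex is above it and in `Fr G W`, so in `D`; conversely `s ∈ D` has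
`x ∈ W`, `y ∉ W` and `{x, y} ≤ s` is in `D`).  `c0`: nonempty since `D` is; let `g` be locally constant on `A0`
(`Conn_iff`): `s ↦ g (vertex of s in W)` is locally constant on `D`, so a constant `γ`; `g` extended by `γ` to `A1`
is locally constant on `A`, so constant.  `c1`: the same with the ends not in `W`. -/
theorem split_exists (hc : Conn G A) (hz : HZ G A)
    (hD : IsComp (sd G) (mi G A ∩ Fr G W) D) : ∃ A0 A1, Split G W A D A0 A1 := by
  obtain ⟨q, hq⟩ : ∃ q : V → V → Prop, q = fun x y => ∃ h : G.Adj x y, eg G h ∈ D := ⟨_, rfl⟩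
  have hqs : ∀ x y, q x y → q y x := by
    intro x y h
    rw [hq] at h ⊢
    obtain ⟨h1, h2⟩ := h
    exact ⟨h1.symm, by rw [eg_symm]; exact h2⟩
  -- an edge of `D` is mixed and lies in `A`
  have hqW : ∀ x y, q x y → (x ∈ W ∧ y ∉ W) ∨ (y ∈ W ∧ x ∉ W) := by
    intro x y h
    rw [hq] at h
    obtain ⟨h1, h2⟩ := h
    obtain ⟨⟨u, hu, huW⟩, v, hv, hvW⟩ := (hD.sub h2).2
    rcases eg_mem h1 hu with rfl | rfl <;> rcases eg_mem h1 hv with rfl | rfl
    · exact absurd huW hvW
    · exact Or.inl ⟨huW, hvW⟩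
    · exact Or.inr ⟨huW, hvW⟩
    · exact absurd huW hvW
  have hqA : ∀ x y, q x y → EIn G A x y := by
    intro x y h
    rw [hq] at h
    obtain ⟨h1, h2⟩ := h
    exact ⟨h1, (hD.sub h2).1 x (eg_mem_l h1), (hD.sub h2).1 y (eg_mem_r h1)⟩
  -- edges of a simplex of `A`
  have hqt : ∀ t : Cq G, t ∈ mi G A → ∀ x ∈ t.1, ∀ y ∈ t.1, x ≠ y →
      (q x y ↔ t ∈ D ∧ ((x ∈ W ∧ y ∉ W) ∨ (y ∈ W ∧ x ∉ W))) := by
    intro t ht x hx y hy hne
    have e := smp_adj t hx hy hne
    have heA : eg G e ∈ mi G A := by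
      intro v hv
      rcases eg_mem e hv with rfl | rfl
      · exact ht _ hx
      · exact ht _ hy
    constructor
    · intro h
      refine ⟨?_, hqW x y h⟩
      rw [hq] at h
      obtain ⟨h1, h2⟩ := h
      have h3 := hD.sub h2
      obtain ⟨⟨u, hu, huW⟩, v, hv, hvW⟩ := h3.2
      have hle : eg G h1 ≤ t := eg_le h1 hx hy
      exact (cl_iff hD hle h3 ⟨ht, ⟨u, hle hu, huW⟩, v, hle hv, hvW⟩).1 h2
    · rintro ⟨h1, h2⟩
      rw [hq]
      refine ⟨e, ?_⟩
      have h3 : eg G e ∈ Fr G W := by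
        rcases h2 with ⟨h4, h5⟩ | ⟨h4, h5⟩
        · exact ⟨⟨x, eg_mem_l e, h4⟩, y, eg_mem_r e, h5⟩
        · exact ⟨⟨y, eg_mem_r e, h4⟩, x, eg_mem_l e, h5⟩
      exact (cl_iff hD (eg_le e hx hy) ⟨heA, h3⟩ (hD.sub h1)).2 h1
  obtain ⟨c, hcd⟩ : ∃ c : V → V → ZMod 2, c = fun x y => if q x y then 1 else 0 := ⟨_, rfl⟩
  have hc1 : ∀ x y, q x y → c x y = 1 := fun x y h => by rw [hcd]; exact if_pos h
  have hc0 : ∀ x y, ¬ q x y → c x y = 0 := fun x y h => by rw [hcd]; exact if_neg h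
  have hcZ : c ∈ Z1 G A := by
    refine mem_Z1.2 ⟨fun x y h => hc0 x y fun h1 => h (hqA x y h1), fun x y => ?_,
      fun x y z e1 e2 e3 => ?_⟩
    · by_cases h : q x y
      · rw [hc1 x y h, hc1 y x (hqs x y h)]
      · rw [hc0 x y h, hc0 y x (fun h1 => h (hqs y x h1))]
    · obtain ⟨t, hx, hy, hz', hall⟩ := ex_tri e1.1 e2.1 e3.1
      have ht : t ∈ mi G A := by
        intro v hv
        rcases hall v hv with rfl | rfl | rfl
        · exact e1.2.1
        · exact e1.2.2
        · exact e2.2.2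
      have q1 := hqt t ht x hx y hy e1.1.ne
      have q2 := hqt t ht y hy z hz' e2.1.ne
      have q3 := hqt t ht x hx z hz' e3.1.ne
      by_cases htD : t ∈ D
      · by_cases w1 : x ∈ W <;> by_cases w2 : y ∈ W <;> by_cases w3 : z ∈ W <;>
          simp only [htD, w1, w2, w3, not_true_eq_false, not_false_eq_true, and_true, and_false,
            or_false, or_true, true_and, false_and, or_self] at q1 q2 q3 <;>
          simp only [hcd, q1, q2, q3, if_true, if_false] <;> decide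
      · simp only [htD, false_and] at q1 q2 q3
        simp only [hcd, q1, q2, q3, if_false, add_zero]
  obtain ⟨f, hf⟩ := hz c hcZ
  have f1 : ∀ x y, q x y → f x + f y = 1 := fun x y h => by
    rw [← hf x y (hqA x y h), hc1 x y h]
  have f0 : ∀ x y, EIn G A x y → ¬ q x y → f x = f y := fun x y e h =>
    (z2_eq _ _).1 (by rw [← hf x y e, hc0 x y h])
  obtain ⟨ε, hε⟩ := const_D hD.conn W f (fun s hs => (hD.sub hs).2.1) (by
    intro s hs x hx y hy hxW hyW
    by_cases h : x = y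
    · rw [h]
    · refine f0 x y ⟨smp_adj s hx hy h, (hD.sub hs).1 x hx, (hD.sub hs).1 y hy⟩ fun h1 => ?_
      rcases hqW x y h1 with h2 | h2
      · exact h2.2 hyW
      · exact h2.2 hxW)
  have hε' : ∀ s ∈ D, ∀ y ∈ s.1, y ∉ W → f y ≠ ε := by
    intro s hs y hy hyW
    obtain ⟨x, hx, hxW⟩ := (hD.sub hs).2.1
    have hne : x ≠ y := by
      rintro rfl
      exact hyW hxW
    have h1 : q x y := (hqt s (hD.sub hs).1 x hx y hy hne).2 ⟨hs, Or.inl ⟨hxW, hyW⟩⟩
    have h2 := f1 x y h1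
    rw [hε s hs x hx hxW] at h2
    intro h3
    rw [h3, two_add] at h2
    exact zero_ne_one h2
  have hdj : Disjoint {x | x ∈ A ∧ f x = ε} {x | x ∈ A ∧ f x ≠ ε} :=
    Set.disjoint_left.2 fun x h1 h2 => h2.2 h1.2
  have hun : {x | x ∈ A ∧ f x = ε} ∪ {x | x ∈ A ∧ f x ≠ ε} = A := by
    ext x
    simp only [Set.mem_union, Set.mem_ofPred_eq]
    tauto
  -- edges between the two parts
  have hcr : ∀ x y, x ∈ A → f x = ε → y ∈ A → f y ≠ ε → G.Adj x y → q x y := by
    intro x y hx hfx hy hfy e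
    by_contra h
    exact hfy (by rw [← f0 x y ⟨e, hx, hy⟩ h]; exact hfx)
  have hee : EE G {x | x ∈ A ∧ f x = ε} {x | x ∈ A ∧ f x ≠ ε} = D := by
    ext s
    constructor
    · rintro ⟨⟨h1, x, hx, hxA, hfx⟩, y, hy, hyA, hfy⟩
      have hne : x ≠ y := by
        rintro rfl
        exact hfy hfx
      have h2 := hcr x y hxA hfx hyA hfy (smp_adj s hx hy hne)
      rw [hun] at h1
      exact ((hqt s h1 x hx y hy hne).1 h2).1
    · intro hs
      have h1 := hD.sub hs
      obtain ⟨⟨u, hu, huW⟩, v, hv, hvW⟩ := h1.2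
      refine ⟨⟨by rw [hun]; exact h1.1, u, hu, h1.1 u hu, hε s hs u hu huW⟩,
        v, hv, h1.1 v hv, hε' s hs v hv hvW⟩
  refine ⟨{x | x ∈ A ∧ f x = ε}, {x | x ∈ A ∧ f x ≠ ε}, hdj, hun, hee,
    c0_of hc hD.conn hun hdj hee,
    c0_of hc hD.conn (by rw [Set.union_comm]; exact hun) hdj.symm
      (by rw [EE_symm]; exact hee), ?_⟩
  rintro x ⟨hxA, hfx⟩ y ⟨hyA, hfy⟩ e
  have h1 := hcr x y hxA hfx hyA hfy e
  rcases hqW x y h1 with h2 | h2
  · exact h2
  · exfalso
    have h3 := h1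
    rw [hq] at h3
    obtain ⟨h4, h5⟩ := h3
    exact hfy (hε _ h5 y (eg_mem_r h4) h2.1)

/-- cocycle rule for three vertices of a simplex, equal vertices allowed -/
private theorem tri_rule {B : Set V} {a : V → V → ZMod 2} (ha : a ∈ Z1 G B) (m : Cq G)
    {x y z : V} (hx : x ∈ m.1) (hy : y ∈ m.1) (hz : z ∈ m.1) (hxB : x ∈ B) (hyB : y ∈ B)
    (hzB : z ∈ B) : a x y + a y z = a x z := by
  obtain ⟨h0, hs, hcc⟩ := mem_Z1.1 ha
  have hself : ∀ v, a v v = 0 := fun v => h0 v v fun e => G.loopless.irrefl v e.1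
  by_cases h1 : x = y
  · rw [h1, hself, zero_add]
  by_cases h2 : y = z
  · rw [h2, hself, add_zero]
  by_cases h3 : x = z
  · rw [← h3, hs y x, two_add, hself]
  exact hcc x y z ⟨smp_adj m hx hy h1, hxB, hyB⟩ ⟨smp_adj m hy hz h2, hyB, hzB⟩
    ⟨smp_adj m hx hz h3, hxB, hzB⟩

/-- Sketch: `a ∈ Z1 G A0`.  For `s ∈ D` let `r s` be a vertex of `s` in `A0`;
`a' s t := a (r s) (r t)` (`0` if `r s = r t`) is in `Z1 (sd G) D` (all the vertices of a chain are in one
simplex), so `a' = dg`.  Cocycle `a''` of `A`: `a` on edges of `A0`, `0` on edges of `A1`, `g {x, y}` on a mixed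
edge `x ∈ A0`, `y ∈ A1` (it is in `D`).  Triangle `x x' | y`: `t = {x, x', y} ∈ D`,
`g {x, y} + g t = a x (r t)`, `g {x', y} + g t = a x' (r t)`, sum `a x x'`.  Triangle `x | y y'`:
`g {x, y} = g t = g {x, y'}`.  `a'' = dh` by `hz`, restrict to `A0`. -/
theorem Split.hz0 (h : Split G W A D A0 A1) (hz : HZ G A) (hD : HZ (sd G) D) : HZ G A0 := by
  intro a ha
  obtain ⟨h0, hs, hcc⟩ := mem_Z1.1 ha
  have hself : ∀ v, a v v = 0 := fun v => h0 v v fun e => G.loopless.irrefl v e.1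
  have hmeet : ∀ s ∈ D, ∃ x ∈ s.1, x ∈ A0 := by
    intro s hs
    rw [← h.ee] at hs
    exact hs.1.2
  have hsub : ∀ s ∈ D, s ∈ mi G A := by
    intro s hs
    rw [← h.ee] at hs
    rw [← h.un]
    exact hs.1.1
  by_cases hne : Nonempty V
  swap
  · exact ⟨0, fun x => (hne ⟨x⟩).elim⟩
  obtain ⟨v0⟩ := hne
  have hr : ∀ s : Cq G, ∃ x : V, s ∈ D → x ∈ s.1 ∧ x ∈ A0 := by
    intro s
    by_cases hs : s ∈ D
    · obtain ⟨x, hx, hxA⟩ := hmeet s hs
      exact ⟨x, fun _ => ⟨hx, hxA⟩⟩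
    · exact ⟨v0, fun h => absurd h hs⟩
  choose r hr using hr
  obtain ⟨a', ha'⟩ : ∃ a' : Cq G → Cq G → ZMod 2, a' = fun s t =>
      if EIn (MOT.sd G) D s t then a (r s) (r t) else 0 := ⟨_, rfl⟩
  have ha'1 : ∀ s t, EIn (MOT.sd G) D s t → a' s t = a (r s) (r t) := fun s t e => by
    rw [ha']; exact if_pos e
  have ha'Z : a' ∈ Z1 (MOT.sd G) D := by
    refine mem_Z1.2 ⟨fun s t e => by rw [ha']; exact if_neg e, fun s t => ?_,
      fun s t u e1 e2 e3 => ?_⟩
    · by_cases e : EIn (MOT.sd G) D s t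
      · rw [ha'1 s t e, ha'1 t s e.symm, hs]
      · rw [ha']
        simp only [if_neg e, if_neg (fun e' => e (EIn.symm e'))]
    · rw [ha'1 s t e1, ha'1 t u e2, ha'1 s u e3]
      have hrs := hr s e1.2.1
      have hrt := hr t e1.2.2
      have hru := hr u e2.2.2
      -- the largest of the three
      obtain ⟨m, m1, m2, m3⟩ : ∃ m : Cq G, s ≤ m ∧ t ≤ m ∧ u ≤ m := by
        rcases e1.1 with g1 | g1 <;> rcases e2.1 with g2 | g2 <;> rcases e3.1 with g3 | g3
        · exact ⟨u, g3.le, g2.le, le_rfl⟩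
        · exact absurd (g1.trans (g2.trans g3)) (lt_irrefl s)
        · exact ⟨t, g1.le, le_rfl, g2.le⟩
        · exact ⟨t, g1.le, le_rfl, g2.le⟩
        · exact ⟨u, g3.le, g2.le, le_rfl⟩
        · exact ⟨s, le_rfl, g1.le, g3.le⟩
        · exact absurd (g1.trans (g3.trans g2)) (lt_irrefl t)
        · exact ⟨s, le_rfl, g1.le, g3.le⟩
      exact tri_rule ha m (m1 hrs.1) (m2 hrt.1) (m3 hru.1) hrs.2 hrt.2 hru.2
  obtain ⟨g, hg⟩ := hD a' ha'Z
  obtain ⟨gE, hgE⟩ : ∃ gE : V → V → ZMod 2, gE = fun x y =>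
      if e : G.Adj x y then g (eg G e) else 0 := ⟨_, rfl⟩
  have hgE1 : ∀ x y (e : G.Adj x y), gE x y = g (eg G e) := fun x y e => by
    rw [hgE]; exact dif_pos e
  have hgEs : ∀ x y, gE x y = gE y x := by
    intro x y
    by_cases e : G.Adj x y
    · rw [hgE1 x y e, hgE1 y x e.symm, eg_symm]
    · rw [hgE]
      simp only [dif_neg e, dif_neg (fun e' : G.Adj y x => e e'.symm)]
  obtain ⟨b, hb⟩ : ∃ b : V → V → ZMod 2, b = fun x y =>
      if EIn G A x y then (if x ∈ A0 then (if y ∈ A0 then a x y else gE x y)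
        else (if y ∈ A0 then gE x y else 0)) else 0 := ⟨_, rfl⟩
  have hb1 : ∀ x y, EIn G A x y → b x y = (if x ∈ A0 then (if y ∈ A0 then a x y else gE x y)
        else (if y ∈ A0 then gE x y else 0)) := fun x y e => by rw [hb]; exact if_pos e
  have hA1 : ∀ x ∈ A, x ∉ A0 → x ∈ A1 := by
    intro x hx hx0
    rw [← h.un] at hx
    exact hx.resolve_left hx0
  have hbZ : b ∈ Z1 G A := by
    refine mem_Z1.2 ⟨fun x y e => by rw [hb]; exact if_neg e, fun x y => ?_,
      fun x y z e1 e2 e3 => ?_⟩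
    · by_cases e : EIn G A x y
      · rw [hb1 x y e, hb1 y x e.symm, hs y x, hgEs y x]
        by_cases w1 : x ∈ A0 <;> by_cases w2 : y ∈ A0 <;> simp only [w1, w2, if_true, if_false]
      · rw [hb]
        simp only [if_neg e, if_neg (fun e' => e (EIn.symm e'))]
    · obtain ⟨t, hx, hy, hz', hall⟩ := ex_tri e1.1 e2.1 e3.1
      have ht : t ∈ mi G A := by
        intro v hv
        rcases hall v hv with rfl | rfl | rfl
        · exact e1.2.1
        · exact e1.2.2
        · exact e2.2.2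
      by_cases htD : t ∈ D
      · -- `b` is the coboundary of `β` on `t`
        obtain ⟨β, hβ⟩ : ∃ β : V → ZMod 2, β = fun v => if v ∈ A0 then a v (r t) + g t else 0 :=
          ⟨_, rfl⟩
        have hrt := hr t htD
        have hmix : ∀ u ∈ t.1, ∀ v ∈ t.1, u ∈ A0 → v ∉ A0 → ∀ e : G.Adj u v,
            g (eg G e) = a u (r t) + g t := by
          intro u hu v hv hu0 hv0 e
          have hv1 : v ∈ A1 := hA1 v (ht v hv) hv0
          have he : eg G e ∈ D := by
            rw [← h.ee]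
            refine ⟨⟨?_, u, eg_mem_l e, hu0⟩, v, eg_mem_r e, hv1⟩
            intro w hw
            rcases eg_mem e hw with rfl | rfl
            · exact Or.inl hu0
            · exact Or.inr hv1
          have hre : r (eg G e) = u := by
            obtain ⟨k1, k2⟩ := hr _ he
            rcases eg_mem e k1 with k3 | k3
            · exact k3
            · rw [k3] at k2
              exact absurd k2 hv0
          by_cases het : eg G e = t
          · rw [het] at hre ⊢
            rw [hre, hself, zero_add]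
          · have k4 := hg _ _ (⟨Or.inl (lt_of_le_of_ne (eg_le e hu hv) het), he, htD⟩ :
              EIn (MOT.sd G) D (eg G e) t)
            rw [ha'1 _ _ ⟨Or.inl (lt_of_le_of_ne (eg_le e hu hv) het), he, htD⟩, hre] at k4
            rw [k4]
            have k5 := two_add (g t)
            linear_combination -k5
        have key : ∀ u ∈ t.1, ∀ v ∈ t.1, EIn G A u v → b u v = β u + β v := by
          intro u hu v hv e
          rw [hb1 u v e, hβ]
          by_cases w1 : u ∈ A0 <;> by_cases w2 : v ∈ A0 <;> simp only [w1, w2, if_true, if_false]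
          · have k1 := tri_rule ha t hu hrt.1 hv w1 hrt.2 w2
            rw [hs (r t) v] at k1
            have k2 := two_add (g t)
            linear_combination -k1 - k2
          · rw [hgE1 u v e.1, hmix u hu v hv w1 w2 e.1, add_zero]
          · rw [hgEs u v, hgE1 v u e.1.symm, hmix v hv u hu w2 w1 e.1.symm, zero_add]
          · rw [add_zero]
        rw [key x hx y hy e1, key y hy z hz' e2, key x hx z hz' e3]
        have k2 := two_add (β y)
        linear_combination k2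
      · -- all vertices on one side
        have hside : (x ∈ A0 ∧ y ∈ A0 ∧ z ∈ A0) ∨ (x ∉ A0 ∧ y ∉ A0 ∧ z ∉ A0) := by
          by_contra hn
          apply htD
          rw [← h.ee]
          refine ⟨⟨by rw [h.un]; exact ht, ?_⟩, ?_⟩
          · by_contra h1
            apply hn
            right
            refine ⟨fun k => h1 ⟨x, hx, k⟩, fun k => h1 ⟨y, hy, k⟩, fun k => h1 ⟨z, hz', k⟩⟩
          · by_contra h1
            apply hn
            left
            refine ⟨?_, ?_, ?_⟩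
            · by_contra k
              exact h1 ⟨x, hx, hA1 x (ht x hx) k⟩
            · by_contra k
              exact h1 ⟨y, hy, hA1 y (ht y hy) k⟩
            · by_contra k
              exact h1 ⟨z, hz', hA1 z (ht z hz') k⟩
        rw [hb1 x y e1, hb1 y z e2, hb1 x z e3]
        rcases hside with ⟨w1, w2, w3⟩ | ⟨w1, w2, w3⟩
        · simp only [w1, w2, w3, if_true]
          exact tri_rule ha t hx hy hz' w1 w2 w3
        · simp only [w1, w2, w3, if_false, add_zero]
  obtain ⟨f, hf⟩ := hz b hbZ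
  refine ⟨f, fun x y e => ?_⟩
  have hxy : EIn G A x y := ⟨e.1, h.un ▸ Or.inl e.2.1, h.un ▸ Or.inl e.2.2⟩
  rw [← hf x y hxy, hb1 x y hxy, if_pos e.2.1, if_pos e.2.2]

theorem Split.hz1 (h : Split G W A D A0 A1) (hz : HZ G A) (hD : HZ (sd G) D) : HZ G A1 :=
  h.symm.hz0 hz hD

/-- Sketch: `Fr G W` is connected and `D ≠ Fr G W`, so there are adjacent `s ∈ D`, `t ∈ Fr G W \ D`
(`D ⊆ Fr G W` nonempty).  `t ∉ mi G A` (`IsComp.nadj`), so `t` has a vertex `z ∉ A`, so `t < s` is impossible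
and `s < t`.  `s` has vertices in `A0` and in `A1` (`h.ee`), both adjacent to `z`.
`A0ᶜ = A1 ∪ Aᶜ`: `conn_union_adj`. -/
theorem Split.compl0 (h : Split G W A D A0 A1) (hD : IsComp (sd G) (mi G A ∩ Fr G W) D)
    (hF : Conn (sd G) (Fr G W)) (hne : D ≠ Fr G W) (hA : Conn G Aᶜ) : Conn G A0ᶜ := by
  have hDF : D ⊆ Fr G W := fun s hs => (hD.sub hs).2
  have hex : ∃ s ∈ D, ∃ t ∈ Fr G W \ D, (MOT.sd G).Adj s t := by
    by_contra hn
    push Not at hn
    have hC : IsComp (MOT.sd G) (Fr G W) D := IsComp_of hD.conn hDF fun s hs t ht => hn s hs t ht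
    obtain ⟨s0, hs0⟩ := hD.conn.1
    exact hne (Set.Subset.antisymm hDF (hC.absorb hF subset_rfl ⟨s0, hDF hs0, hs0⟩))
  obtain ⟨s, hs, t, ⟨htF, htD⟩, e⟩ := hex
  have htA : t ∉ mi G A := fun h1 => hD.nadj s hs t ⟨⟨h1, htF⟩, htD⟩ e
  have hsA : s ∈ mi G A := (hD.sub hs).1
  have hst : s < t := by
    rcases e with e | e
    · exact e
    · exact absurd (fun x hx => hsA x (e.le hx)) htA
  obtain ⟨z, hz, hzA⟩ : ∃ z ∈ t.1, z ∉ A := by
    by_contra h1
    push Not at h1
    exact htA h1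
  have hsE := hs
  rw [← h.ee] at hsE
  obtain ⟨y, hy, hyA⟩ := hsE.2
  have hyA' : y ∈ A := h.un ▸ Or.inr hyA
  have hne' : y ≠ z := by
    rintro rfl
    exact hzA hyA'
  have he : A0ᶜ = A1 ∪ Aᶜ := by
    ext v
    simp only [Set.mem_compl_iff, Set.mem_union]
    constructor
    · intro h1
      by_cases h2 : v ∈ A
      · rw [← h.un] at h2
        exact Or.inl (h2.resolve_left h1)
      · exact Or.inr h2
    · rintro (h1 | h1) h2
      · exact Set.disjoint_left.1 h.dj h2 h1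
      · exact h1 (h.un ▸ Or.inl h2)
  rw [he]
  exact conn_union_adj h.c1 hA hyA hzA (smp_adj t (hst.le hy) hz hne')

theorem Split.compl1 (h : Split G W A D A0 A1) (hD : IsComp (sd G) (mi G A ∩ Fr G W) D)
    (hF : Conn (sd G) (Fr G W)) (hne : D ≠ Fr G W) (hA : Conn G Aᶜ) : Conn G A1ᶜ := by
  have e : Fr G Wᶜ = Fr G W := Fr_compl
  exact h.symm.compl0 (by rw [e]; exact hD) (by rw [e]; exact hF) (by rw [e]; exact hne) hA

/-- CUT of an acyclic set along a disc -/
theorem cut_acy (hA : Acy G A) (hD : IsComp (sd G) (mi G A ∩ Fr G W) D) (hz : HZ (sd G) D)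
    (hF : Conn (sd G) (Fr G W)) (hne : D ≠ Fr G W) :
    ∃ A0 A1, Split G W A D A0 A1 ∧ Acy G A0 ∧ Acy G A1 := by
  obtain ⟨A0, A1, h⟩ := split_exists hA.1 hA.2.1 hD
  exact ⟨A0, A1, h, ⟨h.c0, h.hz0 hA.2.1 hz, h.compl0 hD hF hne hA.2.2⟩,
    ⟨h.c1, h.hz1 hA.2.1 hz, h.compl1 hD hF hne hA.2.2⟩⟩

end MOT.Ea
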