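import Pool.Agent.MOT.EaG
import Pool.Agent.MOT.Sdi

/-!
# MOT/EaB: the base: discs in one layer (block E, helper98)
-/

open Classical

noncomputable section

namespace MOT.Ea

variable {V : Type} {G : SimpleGraph V} {B : Set (Cq G) → Prop} {Z : Set V} {y : V} {l : V → ℕ}
  {m : ℕ} {rho : ℕ → V} {U : Set (Cq G)}

/-- Adding the simplices which contain `y` and miss `Z`, in any order.
Sketch: induction on `(pl G (insert y Z) \ U).ncard`.  If it is not empty take `s` in it; `y ∈ s`, `s` misses `Z`,
`s ≠ vx y`.  `Lk (sd G) {s} ∩ U` is a cone with apex `vx G y`: `t < s`, `t ∈ U`: `t` misses `Z`, so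
`y ∈ t`; `t > s`: `y ∈ t`; all are comparable with `vx G y`, which is in it (`cone_Conn`, `cone_HZ`).
`s \ {y}` is in `Lk (sd G) {s} \ U` (it misses `insert y Z`).  So `insert s U` is acyclic (`Acy_insert`) and `B`
(`BallRules.add`). -/
theorem star_add [Finite V] (h3 : IsSph3 G) (R : BallRules (sd G) B) (hU0 : pl G Z ⊆ U)
    (hU1 : U ⊆ pl G (insert y Z)) (hv : vx G y ∈ U) (hA : Acy (sd G) U) (hB : B U) :
    Acy (sd G) (pl G (insert y Z)) ∧ B (pl G (insert y Z)) := by
  have key : ∀ n : ℕ, ∀ U : Set (Cq G), pl G Z ⊆ U → U ⊆ pl G (insert y Z) → vx G y ∈ U →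
      Acy (sd G) U → B U → (pl G (insert y Z) \ U).ncard = n →
      Acy (sd G) (pl G (insert y Z)) ∧ B (pl G (insert y Z)) := by
    intro n
    induction n with
    | zero =>
      intro U _ hU1 _ hA hB hn
      have h0 : pl G (insert y Z) \ U = ∅ := (Set.ncard_eq_zero (Set.toFinite _)).1 hn
      have e : U = pl G (insert y Z) :=
        Set.Subset.antisymm hU1 (Set.diff_eq_empty.1 h0)
      rw [← e]
      exact ⟨hA, hB⟩
    | succ n ih =>
      intro U hU0 hU1 hv hA hB hn
      have hne0 : (pl G (insert y Z) \ U).Nonempty := by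
        rw [Set.nonempty_iff_ne_empty]
        intro h
        rw [h, Set.ncard_empty] at hn
        omega
      obtain ⟨s, hs1, hs2⟩ := hne0
      have hsZ : ∀ x ∈ s.1, x ∉ Z := fun x hx hxZ => hs2 (hU0 ⟨x, hx, hxZ⟩)
      have hys : y ∈ s.1 := by
        obtain ⟨x, hx, hx'⟩ := hs1
        rcases hx' with rfl | hx'
        · exact hx
        · exact absurd hx' (hsZ x hx)
      have hvs : vx G y ≠ s := fun e => hs2 (e ▸ hv)
      have hvlt : ∀ t : Cq G, y ∈ t.1 → t ≠ vx G y → vx G y < t := by
        intro t ht hne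
        refine lt_of_le_of_ne ?_ hne.symm
        intro x hx
        have : x = y := Finset.mem_singleton.1 hx
        rw [this]; exact ht
      have hvL : vx G y ∈ Lk (sd G) {s} ∩ U := by
        refine ⟨?_, hv⟩
        intro r hr
        rw [Set.mem_singleton_iff] at hr
        subst hr
        exact Or.inr (hvlt _ hys hvs.symm)
      have hcone : ∀ t ∈ Lk (sd G) {s} ∩ U, t ≠ vx G y → (sd G).Adj (vx G y) t := by
        rintro t ⟨ht, htU⟩ hne
        refine Or.inl (hvlt t ?_ hne)
        rcases ht s rfl with h1 | h1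
        · exact h1.le hys
        · obtain ⟨x, hx, hx'⟩ := hU1 htU
          rcases hx' with rfl | hx'
          · exact hx
          · exact absurd hx' (hsZ x (h1.le hx))
      have hc : Conn (sd G) (Lk (sd G) {s} ∩ U) := cone_Conn hvL hcone
      have hz : HZ (sd G) (Lk (sd G) {s} ∩ U) := cone_HZ hvL hcone
      have hne : (Lk (sd G) {s} \ U).Nonempty := by
        have h1 : (s.1.erase y).Nonempty := by
          rw [Finset.nonempty_iff_ne_empty]
          intro h
          apply hvs
          apply Subtype.ext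
          show ({y} : Finset V) = s.1
          rw [← Finset.insert_erase hys, h]
          rfl
        let t : Cq G := ⟨s.1.erase y, h1, s.2.2.subset (fun x hx =>
          Finset.mem_coe.2 (Finset.mem_of_mem_erase (Finset.mem_coe.1 hx)))⟩
        refine ⟨t, ?_, ?_⟩
        · intro r hr
          rw [Set.mem_singleton_iff] at hr
          subst hr
          refine Or.inr (lt_of_le_of_ne (fun x hx => Finset.mem_of_mem_erase hx) ?_)
          intro e
          have : y ∈ t.1 := by rw [e]; exact hys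
          exact Finset.notMem_erase y _ this
        · intro htU
          obtain ⟨x, hx, hx'⟩ := hU1 htU
          have hx2 : x ∈ s.1.erase y := hx
          rcases hx' with rfl | hx'
          · exact Finset.notMem_erase x _ hx2
          · exact hsZ x (Finset.mem_of_mem_erase hx2) hx'
      have hA' := Acy_insert (sd_sph3 h3) hA hs2 hc hz hne
      have hB' := R.add (sd_sph3 h3) hA hs2 hc hz hne hB
      refine ih (insert s U) (hU0.trans (Set.subset_insert _ _)) ?_ (Set.mem_insert_of_mem _ hv)
        hA' hB' ?_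
      · intro r hr
        rcases hr with rfl | hr
        · exact hs1
        · exact hU1 hr
      · have e : pl G (insert y Z) \ insert s U = (pl G (insert y Z) \ U) \ {s} := by
          ext r
          simp only [Set.mem_diff, Set.mem_insert_iff, Set.mem_singleton_iff]
          tauto
        have hm : s ∈ pl G (insert y Z) \ U := ⟨hs1, hs2⟩
        rw [e, Set.ncard_diff_singleton_of_mem hm, hn]
        rfl
  exact key _ U hU0 hU1 hv hA hB rfl

/-- Sketch: `U := insert (vx G y) (pl G Z)`; `Lk (sd G) {vx G y} ∩ pl G Z = {t | vx G y < t ∧ ∃ x ∈ t.1, x ∉ {y} ∧ x ∈ Z}`,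
connected and `HZ` by `above_pl_Conn`, `above_pl_HZ`; for `z ∈ Lk G {y} \ Z` the edge `eg` is in
`Lk (sd G) {vx G y} \ pl G Z`.  `Acy_insert`, `BallRules.add` (for `sd G`, `sd_sph3`), then `star_add`. -/
theorem pl_add [Finite V] (h3 : IsSph3 G) (R : BallRules (sd G) B) (hy : y ∉ Z)
    (hZ : Acy (sd G) (pl G Z)) (hc : Conn G (Lk G {y} ∩ Z)) (hz : HZ G (Lk G {y} ∩ Z))
    (hne : (Lk G {y} \ Z).Nonempty) (hB : B (pl G Z)) :
    Acy (sd G) (pl G (insert y Z)) ∧ B (pl G (insert y Z)) := by
  have hvZ : vx G y ∉ pl G Z := by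
    rintro ⟨x, hx, hxZ⟩
    have : x = y := Finset.mem_singleton.1 hx
    rw [this] at hxZ
    exact hy hxZ
  have hno : ∀ t : Cq G, ¬ t < vx G y := by
    intro t ht
    obtain ⟨x, hx⟩ := t.2.1
    have h1 : x = y := Finset.mem_singleton.1 (ht.le hx)
    refine ht.ne (le_antisymm ht.le ?_)
    intro z hz'
    have h2 : z = y := Finset.mem_singleton.1 hz'
    rw [h2, ← h1]; exact hx
  have eL : Lk (sd G) {vx G y} ∩ pl G Z =
      {t | vx G y < t ∧ ∃ x ∈ t.1, x ∉ (vx G y).1 ∧ x ∈ Z} := by
    ext t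
    constructor
    · rintro ⟨h1, x, hx, hxZ⟩
      refine ⟨?_, x, hx, ?_, hxZ⟩
      · rcases h1 (vx G y) rfl with h | h
        · exact h
        · exact absurd h (hno t)
      · intro hx'
        have : x = y := Finset.mem_singleton.1 hx'
        rw [this] at hxZ
        exact hy hxZ
    · rintro ⟨h1, x, hx, -, hxZ⟩
      refine ⟨?_, x, hx, hxZ⟩
      intro r hr
      rw [Set.mem_singleton_iff] at hr
      subst hr
      exact Or.inl h1
  have ev : ((vx G y).1 : Set V) = {y} := Finset.coe_singleton y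
  have hc' : Conn (sd G) (Lk (sd G) {vx G y} ∩ pl G Z) := by
    rw [eL, above_pl_Conn, ev]; exact hc
  have hz' : HZ (sd G) (Lk (sd G) {vx G y} ∩ pl G Z) := by
    rw [eL, above_pl_HZ, ev]; exact hz
  have hne' : (Lk (sd G) {vx G y} \ pl G Z).Nonempty := by
    obtain ⟨z, hz1, hz2⟩ := hne
    have hyz : G.Adj y z := hz1 y rfl
    refine ⟨eg G hyz, ?_, ?_⟩
    · intro r hr
      rw [Set.mem_singleton_iff] at hr
      subst hr
      refine Or.inl (lt_of_le_of_ne ?_ ?_)
      · intro x hx
        have : x = y := Finset.mem_singleton.1 hx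
        rw [this]
        exact Finset.mem_insert_self _ _
      · intro e
        have h1 : z ∈ (eg G hyz).1 := Finset.mem_insert_of_mem (Finset.mem_singleton_self z)
        rw [← e] at h1
        exact hyz.ne (Finset.mem_singleton.1 h1).symm
    · rintro ⟨x, hx, hxZ⟩
      rcases Finset.mem_insert.1 hx with rfl | hx'
      · exact hy hxZ
      · rw [Finset.mem_singleton.1 hx'] at hxZ
        exact hz2 hxZ
  have hA' := Acy_insert (sd_sph3 h3) hZ hvZ hc' hz' hne'
  have hB' := R.add (sd_sph3 h3) hZ hvZ hc' hz' hne' hB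
  refine star_add h3 R (Set.subset_insert _ _) ?_ (Set.mem_insert _ _) hA' hB'
  intro r hr
  rcases hr with rfl | hr
  · exact ⟨y, Finset.mem_singleton_self y, Set.mem_insert _ _⟩
  · exact pl_mono (Set.subset_insert _ _) hr

theorem pl_single [Finite V] (h3 : IsSph3 G) (R : BallRules (sd G) B) (y : V) :
    Acy (sd G) (pl G {y}) ∧ B (pl G {y}) := by
  have e : pl G (∅ : Set V) = ∅ := by
    ext s; simp [mem_pl]
  have h := star_add (Z := ∅) (y := y) (U := {vx G y}) h3 R (by rw [e]; exact Set.empty_subset _)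
    (by
      intro s hs
      rw [Set.mem_singleton_iff] at hs
      subst hs
      exact ⟨y, by simp [vx], by simp⟩) rfl
    (Acy_single (sd_sph3 h3) _) (R.r0 _)
  have e2 : (insert y (∅ : Set V)) = {y} := by simp
  rwa [e2] at h

/-- BASE -/
theorem ea_base [Finite V] (L : Lay G m l rho) (R : BallRules (sd G) B) :
    ∀ i Y, 0 < i → i < m → Y ⊆ {x | l x = i} → Conn G Y → HZ G Y → rho i ∉ Y → B (pl G Y) := by
  intro i Y h0 hi hY hc hz hr
  have hw := L.wall i h0 hi
  have hne : Y ≠ {x | l x = i} := fun h => hr (h ▸ L.rl i hi.le)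
  refine (shell2_ind hw.surf (L.lc i hi.le) (fun Z => Acy (sd G) (pl G Z) ∧ B (pl G Z))
    (fun y _ => pl_single L.sph R y) ?_ hY hne hc hz).2
  intro Z y hs _ hyZ z1 z2 _ _ l1 l2 ih
  refine pl_add L.sph R hyZ ih.1 l1 l2 ?_ ih.2
  obtain ⟨p, hp⟩ := (hw.hp {y} ⟨y, by simp⟩ (by simp) (by simpa using hs (Or.inl rfl))).1.1
  refine ⟨p, by simpa using hp.1, fun h => ?_⟩
  exact Set.disjoint_left.1 hw.dqp (hs (Or.inr h)) hp.2

end MOT.Ea
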