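import Pool.Agent.MOT.Bas

/-!
# MOT block E (Alexander), part E1: definitions (helper98)

`Acy X`: acyclic region; `EE X Y`: closed interface of two disjoint sets of vertices; `BallRules`: the
closure rules of the PL library; `Lay`: a layering of a flag 3-sphere by spherical walls with a
vertical path `rho`.
-/

open Classical

noncomputable section

namespace MOT.Ea

variable {V : Type}

/-- `X` connected, `H^1(X) = 0`, complement connected -/
def Acy (G : SimpleGraph V) (X : Set V) : Prop := Conn G X ∧ HZ G X ∧ Conn G Xᶜ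

/-- interface of the disjoint sets `X`, `Y`: the simplices inside `X ∪ Y` which meet `X` and `Y` -/
def EE (G : SimpleGraph V) (X Y : Set V) : Set (Cq G) := mi G (X ∪ Y) ∩ pl G X ∩ pl G Y

/-- closure rules for `B X` = 'the dual region of `X` is a PL ball' -/
structure BallRules (H : SimpleGraph V) (B : Set V → Prop) : Prop where
  r0 : ∀ x, B {x}
  r2 : ∀ X Y, Disjoint X Y → Acy H X → Acy H Y → Acy H (X ∪ Y) →
    Conn (sd H) (EE H X Y) → HZ (sd H) (EE H X Y) → B X → B Y → B (X ∪ Y)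
  rt : ∀ U C W, Disjoint U C → Disjoint C W → Disjoint U W → NAdj H U W →
    Acy H C → Acy H (C ∪ W) → Acy H (U ∪ C) → Acy H (U ∪ C ∪ W) →
    Conn (sd H) (EE H U C) → HZ (sd H) (EE H U C) → B C → B (C ∪ W) →
    (B (U ∪ C) ↔ B (U ∪ C ∪ W))

/-- layering of a flag 3-sphere: layers `0 < i < m` are spherical walls, the layers `0` and `m` are
the points `rho 0`, `rho m`; `rho` is a vertical path -/
structure Lay (G : SimpleGraph V) (m : ℕ) (l : V → ℕ) (rho : ℕ → V) : Prop where
  sph : IsSph3 G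
  le : ∀ x, l x ≤ m
  two : 2 ≤ m
  lip : ∀ x y, G.Adj x y → l x ≤ l y + 1
  bot : ∀ x, l x = 0 → x = rho 0
  top : ∀ x, l x = m → x = rho m
  wall : ∀ i, 0 < i → i < m → Wall G {x | l x = i} {x | l x < i} {x | i < l x}
  lc : ∀ i, i ≤ m → Conn G {x | l x = i}
  lh : ∀ i, i ≤ m → HZ G {x | l x = i}
  dc : ∀ i, i < m → Conn G {x | l x ≤ i}
  dh : ∀ i, i < m → HZ G {x | l x ≤ i}
  uc : ∀ i, i < m → Conn G {x | i < l x}
  uh : ∀ i, i < m → HZ G {x | i < l x}
  rl : ∀ i, i ≤ m → l (rho i) = i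
  ra : ∀ i, i < m → G.Adj (rho i) (rho (i + 1))

/-- the surface between the layers `i` and `i + 1` -/
def FF (G : SimpleGraph V) (l : V → ℕ) (i : ℕ) : Set (Cq G) := Fr G {x | l x ≤ i}

/-- the edge `rho i, rho (i+1)` as a simplex (`vx (rho i)` if they are not adjacent) -/
def re (G : SimpleGraph V) (rho : ℕ → V) (i : ℕ) : Cq G :=
  if h : G.Adj (rho i) (rho (i + 1)) then eg G h else vx G (rho i)

/-- mixed pairs inside the layers -/
def mu (G : SimpleGraph V) (l : V → ℕ) (A : Set V) : ℕ :=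
  {p : V × V | G.Adj p.1 p.2 ∧ l p.1 = l p.2 ∧ p.1 ∈ A ∧ p.2 ∉ A}.ncard

end MOT.Ea
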