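import Pool.Agent.MOT.Sf2

/-!
# MOT/SfD: number of circles of a piece, discs, planar pieces
-/

open Classical

noncomputable section

namespace MOT

variable {V : Type} {G : SimpleGraph V} {A B M S P : Set V}

/-! ## union -/

private theorem clq_no {s : Cq G} {x y : V} (hx : x ∈ s.1) (hy : y ∈ s.1) (hxA : x ∈ A)
    (hyB : y ∈ B) (hd : Disjoint A B) (hn : NAdj G A B) : False := by
  have hne : x ≠ y := by
    rintro rfl
    exact Set.disjoint_left.1 hd hxA hyB
  exact hn x hxA y hyB (s.2.2 hx hy hne)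

private theorem NAdj.symd (h : NAdj G A B) : NAdj G B A := fun x hx y hy e => h y hy x hx e.symm

/-- frontier of a non adjacent union inside a surface -/
theorem FrIn_un (hA : A ⊆ S) (hB : B ⊆ S) (hd : Disjoint A B) (hn : NAdj G A B) :
    FrIn G S (A ∪ B) = FrIn G S A ∪ FrIn G S B ∧ Disjoint (FrIn G S A) (FrIn G S B) ∧
      NAdj (sd G) (FrIn G S A) (FrIn G S B) := by
  have aux : ∀ {A B : Set V}, Disjoint A B → NAdj G A B → ∀ s : Cq G, s ∈ mi G S → s ∈ pl G A →
      s ∈ pl G Aᶜ → s ∈ FrIn G S (A ∪ B) := by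
    rintro A B hd hn s h1 ⟨x, hx, hxA⟩ ⟨y, hy, hyA⟩
    refine ⟨⟨h1, x, hx, Or.inl hxA⟩, y, hy, ?_⟩
    rintro (h | h)
    · exact hyA h
    · exact clq_no hx hy hxA h hd hn
  refine ⟨?_, ?_, ?_⟩
  · ext s
    constructor
    · rintro ⟨⟨h1, x, hx, hxA | hxB⟩, y, hy, hyAB⟩
      · exact Or.inl ⟨⟨h1, x, hx, hxA⟩, y, hy, fun h => hyAB (Or.inl h)⟩
      · exact Or.inr ⟨⟨h1, x, hx, hxB⟩, y, hy, fun h => hyAB (Or.inr h)⟩
    · rintro (⟨⟨h1, h2⟩, h3⟩ | ⟨⟨h1, h2⟩, h3⟩)
      · exact aux hd hn s h1 h2 h3
      · rw [Set.union_comm]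
        exact aux hd.symm (NAdj.symd hn) s h1 h2 h3
  · rw [Set.disjoint_left]
    rintro s ⟨⟨_, x, hx, hxA⟩, _⟩ ⟨⟨_, y, hy, hyB⟩, _⟩
    exact clq_no hx hy hxA hyB hd hn
  · rintro s ⟨⟨_, x, hx, hxA⟩, _⟩ t ⟨⟨_, y, hy, hyB⟩, _⟩ (e | e)
    · exact clq_no (s := t) (Cq.le_iff.1 e.le hx) hy hxA hyB hd hn
    · exact clq_no (s := s) hx (Cq.le_iff.1 e.le hy) hxA hyB hd hn

/-! ## linear duality -/

theorem perp_range {m n : Type} [Fintype m] [Fintype n] (M : Matrix m n (ZMod 2))
    (g : m → ZMod 2) (h : ∀ w : m → ZMod 2, (Matrix.transpose M).mulVec w = 0 → w ⬝ᵥ g = 0) :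
    ∃ f, M.mulVec f = g := by
  by_contra hcon
  have hn : g ∉ LinearMap.range (Matrix.mulVecLin M) := by
    rintro ⟨f, hf⟩; exact hcon ⟨f, hf⟩
  obtain ⟨φ, hφ, hle⟩ := Submodule.exists_le_ker_of_notMem hn
  let w : m → ZMod 2 := fun t => φ (Pi.single t 1)
  have hφw : ∀ v : m → ZMod 2, φ v = ∑ t, v t * w t := by
    intro v
    conv_lhs => rw [pi_eq_sum_univ v]
    rw [map_sum]
    refine Finset.sum_congr rfl fun t _ => ?_
    rw [map_smul, smul_eq_mul]
    congr 2
    funext j
    simp [Pi.single_apply, eq_comm]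
  have hw : (Matrix.transpose M).mulVec w = 0 := by
    funext e
    have h1 : φ (Matrix.mulVecLin M (Pi.single e 1)) = 0 := LinearMap.mem_ker.1 (hle ⟨_, rfl⟩)
    rw [hφw] at h1
    show ∑ t, (Matrix.transpose M) e t * w t = 0
    rw [← h1]
    refine Finset.sum_congr rfl fun t _ => ?_
    rw [Matrix.mulVecLin_apply, Matrix.mulVec_single_one]
    rfl
  apply hφ
  rw [hφw]
  have h2 := h w hw
  rw [dotProduct] at h2
  rw [← h2]
  exact Finset.sum_congr rfl fun t _ => mul_comm _ _

/-- a vertex function as a function on one-element simplices -/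
theorem one_ext (f : V → ZMod 2) : ∃ f' : Kq G A 1 → ZMod 2, ∀ x ∈ A, wbar f' {x} = f x := by
  refine ⟨fun v => f (Finset.card_eq_one.1 v.2.1).choose, fun x hx => ?_⟩
  have hx' : (({x} : Finset V).card = 1 ∧ G.IsClique (({x} : Finset V) : Set V) ∧
      (({x} : Finset V) : Set V) ⊆ A) := ⟨by simp, by simp, by simpa using hx⟩
  unfold wbar
  rw [dif_pos hx']
  show f _ = f x
  congr 1
  exact (Finset.singleton_injective (Finset.card_eq_one.1 hx'.1).choose_spec).symm

/-- a cocycle as a function on edges -/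
theorem ex1_surj [Finite V] {a : V → V → ZMod 2} (ha : a ∈ Z1 G A) :
    ∃ g : Kq G A 2 → ZMod 2, (inc G A 2).mulVec g = 0 ∧ ex1 G A g = a := by
  rw [← ker_inc] at ha
  obtain ⟨g, hg, h⟩ := ha
  exact ⟨g, LinearMap.mem_ker.1 hg, h⟩

theorem ex1_inc [Finite V] (f' : Kq G A 1 → ZMod 2) :
    ex1 G A ((inc G A 1).mulVec f') = cb G A (fun x => wbar f' {x}) := by
  funext x y
  by_cases e : EIn G A x y
  · rw [ex1_apply e, cb_apply e, inc_one]
  · show dite _ _ _ = ite _ _ _
    rw [dif_neg e, if_neg e]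

/-- a cocycle is trivial iff it vanishes on all 1-cycles -/
theorem triv_perp [Finite V] {g : Kq G A 2 → ZMod 2} :
    Triv G A (ex1 G A g) ↔
      ∀ w, (Matrix.transpose (inc G A 1)).mulVec w = 0 → w ⬝ᵥ g = 0 := by
  constructor
  · rintro ⟨f, hf⟩ w hw
    obtain ⟨f', hf'⟩ := one_ext (G := G) (A := A) f
    have hg : g = (inc G A 1).mulVec f' := by
      apply ex1_inj
      rw [ex1_inc]
      funext x y
      by_cases e : EIn G A x y
      · rw [cb_apply e, hf' x e.2.1, hf' y e.2.2, hf x y e]
      · show dite _ _ _ = ite _ _ _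
        rw [dif_neg e, if_neg e]
    rw [hg, Matrix.dotProduct_mulVec, ← Matrix.mulVec_transpose, hw, zero_dotProduct]
  · intro h
    obtain ⟨f', hf'⟩ := perp_range (inc G A 1) g h
    rw [← hf', ex1_inc]
    exact cb_triv _

/-- `dim Z_1 = dim B_1 + b1` -/
theorem cyc_dim [Finite V] :
    Module.finrank (ZMod 2) (LinearMap.ker (Matrix.mulVecLin (Matrix.transpose (inc G A 1)))) =
      Module.finrank (ZMod 2)
        (LinearMap.range (Matrix.mulVecLin (Matrix.transpose (inc G A 2)))) + b1 G A := by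
  have h1 := LinearMap.finrank_range_add_finrank_ker
    (Matrix.mulVecLin (Matrix.transpose (inc G A 1)))
  have h2 := LinearMap.finrank_range_add_finrank_ker (Matrix.mulVecLin (inc G A 2))
  have h3 : Module.finrank (ZMod 2) (LinearMap.range (Matrix.mulVecLin (inc G A 2))) =
      Module.finrank (ZMod 2)
        (LinearMap.range (Matrix.mulVecLin (Matrix.transpose (inc G A 2)))) :=
    (Matrix.rank_transpose (inc G A 2)).symm
  have h3' : Module.finrank (ZMod 2) (LinearMap.range (Matrix.mulVecLin (inc G A 1))) =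
      Module.finrank (ZMod 2)
        (LinearMap.range (Matrix.mulVecLin (Matrix.transpose (inc G A 1)))) :=
    (Matrix.rank_transpose (inc G A 1)).symm
  have h4 : Module.finrank (ZMod 2) (LinearMap.ker (Matrix.mulVecLin (inc G A 2))) =
      Module.finrank (ZMod 2) (Z1 G A) := by
    rw [← ker_inc]
    exact (LinearEquiv.finrank_eq
      (Submodule.equivMapOfInjective (ex1 G A) ex1_inj _))
  have h5 : Submodule.map (ex1 G A) (LinearMap.range (Matrix.mulVecLin (inc G A 1))) =
      K1 G A A := by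
    ext a
    constructor
    · rintro ⟨_, ⟨f', rfl⟩, rfl⟩
      rw [Matrix.mulVecLin_apply, ex1_inc]
      exact ⟨cb_mem _, cb_triv _⟩
    · rintro ⟨ha, f, hf⟩
      obtain ⟨f', hf'⟩ := one_ext (G := G) (A := A) f
      refine ⟨(inc G A 1).mulVec f', ⟨f', rfl⟩, ?_⟩
      rw [ex1_inc]
      funext x y
      by_cases e : EIn G A x y
      · rw [cb_apply e, hf' x e.2.1, hf' y e.2.2, hf x y e]
      · rw [(mem_Z1.1 ha).1 x y e]; exact if_neg e
  have h6 : Module.finrank (ZMod 2) (LinearMap.range (Matrix.mulVecLin (inc G A 1))) =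
      Module.finrank (ZMod 2) (K1 G A A) := by
    rw [← h5]
    exact (LinearEquiv.finrank_eq
      (Submodule.equivMapOfInjective (ex1 G A) ex1_inj _))
  have h7 := Submodule.finrank_quotient_add_finrank ((K1 G A A).comap (Z1 G A).subtype)
  have hle : K1 G A A ≤ Z1 G A := fun a ha => ha.1
  have h8 : Module.finrank (ZMod 2) ((K1 G A A).comap (Z1 G A).subtype) =
      Module.finrank (ZMod 2) (K1 G A A) :=
    LinearEquiv.finrank_eq (Submodule.comapSubtypeEquivOfLe hle)
  rw [Module.finrank_fintype_fun_eq_card] at h1 h2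
  have h9 : Fintype.card (Kq G A (1 + 1)) = Fintype.card (Kq G A 2) := rfl
  unfold b1 rk1
  omega

theorem bd_bd [Finite V] (T : Kq G A 3 → ZMod 2) :
    (Matrix.transpose (inc G A 1)).mulVec ((Matrix.transpose (inc G A 2)).mulVec T) = 0 := by
  have h : inc G A 2 * inc G A 1 = 0 := by
    ext t v
    have h1 : ((inc G A 2).mulVec ((inc G A 1).mulVec (Pi.single v 1))) t = 0 := by
      have h2 : (inc G A 1).mulVec (Pi.single v 1) ∈
          LinearMap.ker (Matrix.mulVecLin (inc G A 2)) := by
        have h3 : ex1 G A ((inc G A 1).mulVec (Pi.single v 1)) ∈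
            Submodule.map (ex1 G A) (LinearMap.ker (Matrix.mulVecLin (inc G A 2))) := by
          rw [ker_inc, ex1_inc]; exact cb_mem _
        obtain ⟨g, hg, he⟩ := h3
        rw [← ex1_inj he]; exact hg
      exact congrFun (LinearMap.mem_ker.1 h2) t
    rw [Matrix.mulVec_mulVec, Matrix.mulVec_single_one] at h1
    exact h1
  rw [Matrix.mulVec_mulVec, ← Matrix.transpose_mul, h, Matrix.transpose_zero, Matrix.zero_mulVec]

/-! ## circles as 1-cycles of the part over `P` -/

/-- the part of the subdivided surface over `P` -/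
abbrev prt (G : SimpleGraph V) (S P : Set V) : Set (Cq G) := mi G S ∩ pl G P

theorem FrIn_sub_prt : FrIn G S P ⊆ prt G S P := fun _ h => h.1

theorem pk_mem_coe {V : Type} {e : Finset V} (h : e.card = 2) : ∃ s, s ∈ e := by
  obtain ⟨x, y, -, rfl⟩ := Finset.card_eq_two.1 h
  exact ⟨x, by simp⟩

/-- the edge function of a vertex function on the frontier -/
def al (G : SimpleGraph V) (S P : Set V) :
    (Cq G → ZMod 2) →ₗ[ZMod 2] (Kq (sd G) (prt G S P) 2 → ZMod 2) where
  toFun f := fun e => if (e.1 : Set (Cq G)) ⊆ FrIn G S P then f (pk_mem_coe e.2.1).choose else 0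
  map_add' f g := by
    funext e; simp only [Pi.add_apply]; split_ifs <;> simp
  map_smul' c f := by
    funext e; simp only [Pi.smul_apply, RingHom.id_apply]; split_ifs <;> simp

theorem al_apply {f : Cq G → ZMod 2} (hf : f ∈ Z0 (sd G) (FrIn G S P)) {s t : Cq G}
    (e : EIn (sd G) (prt G S P) s t) :
    al G S P f (kp e) = if EIn (sd G) (FrIn G S P) s t then f s else 0 := by
  have hval : (kp e).1 = {s, t} := rfl
  show ite _ _ _ = ite _ _ _
  by_cases h : EIn (sd G) (FrIn G S P) s t
  · have hsub : ((kp e).1 : Set (Cq G)) ⊆ FrIn G S P := by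
      intro v hv
      rw [hval] at hv
      simp only [Finset.coe_insert, Finset.coe_singleton, Set.mem_insert_iff,
        Set.mem_singleton_iff] at hv
      rcases hv with rfl | rfl
      · exact h.2.1
      · exact h.2.2
    rw [if_pos hsub, if_pos h]
    have hm := (pk_mem_coe (kp e).2.1).choose_spec
    generalize (pk_mem_coe (kp e).2.1).choose = v at hm ⊢
    rw [hval] at hm
    simp only [Finset.mem_insert, Finset.mem_singleton] at hm
    rcases hm with rfl | rfl
    · rfl
    · exact (hf.2 _ _ h).symm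
  · have hsub : ¬ ((kp e).1 : Set (Cq G)) ⊆ FrIn G S P := by
      intro hsub
      exact h ⟨e.1, hsub (by rw [hval]; simp), hsub (by rw [hval]; simp)⟩
    rw [if_neg hsub, if_neg h]

theorem wbar_kp {w : Kq G A 2 → ZMod 2} {x y : V} (e : EIn G A x y) :
    wbar w {x, y} = w (kp e) := wbar_val w (kp e)

/-- circles are 1-cycles -/
theorem al_cyc [Finite V] (hS : Surf G S) {f : Cq G → ZMod 2}
    (hf : f ∈ Z0 (sd G) (FrIn G S P)) :
    (Matrix.transpose (inc (sd G) (prt G S P) 1)).mulVec (al G S P f) = 0 := by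
  funext v
  rw [incT_sum (S := prt G S P) subset_rfl]
  obtain ⟨s, hs⟩ := Finset.card_eq_one.1 v.2.1
  have hsA : s ∈ prt G S P := v.2.2.2 (by rw [hs]; simp)
  rw [hs]
  have h1 : ∀ t ∈ lkf (sd G) (prt G S P) {s}, wbar (al G S P f) (insert t {s}) =
      if EIn (sd G) (FrIn G S P) s t then f s else 0 := by
    intro t ht
    obtain ⟨ht1, ht2⟩ := mem_lkf.1 ht
    have e : EIn (sd G) (prt G S P) s t := ⟨ht1 s (by simp), hsA, ht2⟩
    have h2 : (insert t ({s} : Finset (Cq G))) = {s, t} := Finset.pair_comm t s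
    rw [h2, wbar_kp e, al_apply hf e]
  rw [Finset.sum_congr rfl h1, ← Finset.sum_filter, Finset.sum_const]
  by_cases hsF : s ∈ FrIn G S P
  · have h2 : ((lkf (sd G) (prt G S P) {s}).filter
        (fun t => EIn (sd G) (FrIn G S P) s t)).card = 2 := by
      rw [← FrIn_two hS hsF, ← Set.ncard_coe_finset]
      congr 1
      ext t
      simp only [Finset.coe_filter]
      constructor
      · rintro ⟨-, h⟩; exact h
      · intro h
        refine ⟨mem_lkf.2 ⟨fun x hx => ?_, FrIn_sub_prt h.2.2⟩, h⟩
        rw [Finset.mem_singleton] at hx; subst hx; exact h.1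
    rw [h2, two_smul]
    exact two_add _
  · have h2 : (lkf (sd G) (prt G S P) {s}).filter
        (fun t => EIn (sd G) (FrIn G S P) s t) = ∅ := by
      rw [Finset.filter_eq_empty_iff]
      intro t _ h
      exact hsF h.2.1
    rw [h2]; simp

/-- if the circles with weights `f` bound then `f` is constant -/
theorem al_const [Finite V] (hS : Surf G S) (hP : P ⊆ S) (hc : Conn G P)
    {f : Cq G → ZMod 2} (hf : f ∈ Z0 (sd G) (FrIn G S P))
    {T : Kq (sd G) (prt G S P) 3 → ZMod 2}
    (hT : (Matrix.transpose (inc (sd G) (prt G S P) 2)).mulVec T = al G S P f) :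
    ∃ c, ∀ s ∈ FrIn G S P, f s = c := by
  have hS' := surf_sd hS
  have hsum : ∀ s t, EIn (sd G) (prt G S P) s t →
      (if EIn (sd G) (FrIn G S P) s t then f s else 0) =
        ∑ u ∈ lkf (sd G) (prt G S P) {s, t}, wbar T {s, t, u} := by
    intro s t e
    rw [← al_apply hf e, ← hT, incT_sum (S := prt G S P) subset_rfl]
    refine Finset.sum_congr rfl fun u _ => ?_
    congr 1
    show insert u ({s, t} : Finset (Cq G)) = {s, t, u}
    ext v; simp only [Finset.mem_insert, Finset.mem_singleton]; tauto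
  obtain ⟨c, hc'⟩ := prt_strong hS hP hc (wbar T) (by
    intro s t u u' e hn hu hu'
    by_cases huu : u = u'
    · rw [huu]
    have h1 := hsum s t e
    have hF : ¬ EIn (sd G) (FrIn G S P) s t := fun h => hn ⟨h.2.1, h.2.2⟩
    rw [if_neg hF] at h1
    have hl : lkf (sd G) (prt G S P) {s, t} = {u, u'} := by
      symm
      have hcoe : (({s, t} : Finset (Cq G)) : Set (Cq G)) = {s, t} := by simp
      refine Finset.eq_of_subset_of_card_le ?_ ?_
      · intro v hv
        simp only [Finset.mem_insert, Finset.mem_singleton] at hv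
        rcases hv with rfl | rfl
        · exact mem_lkf.2 ⟨fun r hr => hu.1 r (by rw [← hcoe]; exact hr),
            third_in hP e.1 e.2.1 e.2.2 hn hu⟩
        · exact mem_lkf.2 ⟨fun r hr => hu'.1 r (by rw [← hcoe]; exact hr),
            third_in hP e.1 e.2.1 e.2.2 hn hu'⟩
      · rw [Finset.card_pair huu]
        have e' : EIn (sd G) (mi G S) s t := ⟨e.1, e.2.1.1, e.2.2.1⟩
        have h2 := (hS'.edge e').1
        rw [← h2, ← Set.ncard_coe_finset]
        refine Set.ncard_le_ncard ?_ (Set.toFinite _)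
        intro v hv
        have hv' := mem_lkf.1 (Finset.mem_coe.1 hv)
        exact ⟨fun r hr => hv'.1 r (by rw [← Finset.mem_coe, hcoe]; exact hr), hv'.2.1⟩
    rw [hl, Finset.sum_pair huu] at h1
    exact (z2_eq _ _).1 h1.symm)
  refine ⟨c, ?_⟩
  -- an edge `s < t` of the frontier lies in exactly one triangle over `P`
  have key : ∀ s t, EIn (sd G) (FrIn G S P) s t → s < t → f s = c := by
    intro s t e hst
    have ep : EIn (sd G) (prt G S P) s t := e.mono FrIn_sub_prt
    have h1 := hsum s t ep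
    rw [if_pos e] at h1
    have cs := FrIn_card hS e.2.1
    have ct := FrIn_card hS e.2.2
    have clt := Finset.card_lt_card (Cq.lt_iff.1 hst)
    have cs2 : s.1.card = 2 := by omega
    have ct3 : t.1.card = 3 := by omega
    obtain ⟨⟨⟨hsS, x, hx, hxP⟩, y, hy, hyP⟩, -⟩ := And.intro e.2.1 trivial
    have hxy : x ≠ y := fun h => hyP (h ▸ hxP)
    have hs2 : s.1 = {x, y} := by
      symm
      refine Finset.eq_of_subset_of_card_le ?_ ?_
      · intro v hv
        simp only [Finset.mem_insert, Finset.mem_singleton] at hv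
        rcases hv with rfl | rfl <;> assumption
      · rw [Finset.card_pair hxy, cs2]
    have hvs : vx G x < s := by
      rw [Cq.lt_iff, Finset.ssubset_iff_subset_ne]
      refine ⟨fun v hv => ?_, fun h => ?_⟩
      · have : v ∈ ({x} : Finset V) := hv
        rw [Finset.mem_singleton] at this; subst this; exact hx
      · have : y ∈ (vx G x).1 := by rw [h]; exact hy
        have : y ∈ ({x} : Finset V) := this
        rw [Finset.mem_singleton] at this
        exact hxy this.symm
    have hvp : vx G x ∈ prt G S P := by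
      refine ⟨fun v hv => ?_, x, by simp [vx], hxP⟩
      have : v ∈ ({x} : Finset V) := hv
      rw [Finset.mem_singleton] at this; subst this; exact hP hxP
    have hl : lkf (sd G) (prt G S P) {s, t} = {vx G x} := by
      ext u
      rw [Finset.mem_singleton]
      constructor
      · intro hu
        obtain ⟨hu1, hu2⟩ := mem_lkf.1 hu
        have a1 := hu1 s (by simp)
        have a2 := hu1 t (by simp)
        have cu := Finset.card_pos.2 u.2.1
        have cu3 := hS.card_le hu2.1
        have hus : u < s := by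
          rcases a1 with a | a
          · exfalso
            have h1 := Finset.card_lt_card (Cq.lt_iff.1 a)
            rcases a2 with b | b
            · have h2 := Finset.card_lt_card (Cq.lt_iff.1 b); omega
            · have h2 := Finset.card_lt_card (Cq.lt_iff.1 b); omega
          · exact a
        have h1 := Finset.card_lt_card (Cq.lt_iff.1 hus)
        obtain ⟨z, hz⟩ := Finset.card_eq_one.1 (by omega : u.1.card = 1)
        obtain ⟨z', hz', hzP⟩ := hu2.2
        rw [hz, Finset.mem_singleton] at hz'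
        subst hz'
        have hzs : z' ∈ s.1 := (Cq.lt_iff.1 hus).1 (by rw [hz]; simp)
        rw [hs2] at hzs
        simp only [Finset.mem_insert, Finset.mem_singleton] at hzs
        rcases hzs with rfl | rfl
        · exact Subtype.ext hz
        · exact absurd hzP hyP
      · rintro rfl
        refine mem_lkf.2 ⟨fun r hr => ?_, hvp⟩
        simp only [Finset.mem_insert, Finset.mem_singleton] at hr
        rcases hr with rfl | rfl
        · exact Or.inr hvs
        · exact Or.inr (hvs.trans hst)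
    rw [hl, Finset.sum_singleton] at h1
    rw [h1]
    refine hc' s t (vx G x) ep ⟨fun r hr => ?_, hvp⟩
    rcases hr with rfl | hr
    · exact Or.inr hvs
    · rw [Set.mem_singleton_iff] at hr; subst hr; exact Or.inr (hvs.trans hst)
  intro s hs
  obtain ⟨t, ht⟩ : {t | EIn (sd G) (FrIn G S P) s t}.Nonempty := by
    rw [← Set.ncard_pos, FrIn_two hS hs]; norm_num
  rcases ht.1 with a | a
  · exact key s t ht a
  · rw [hf.2 s t ht]; exact key t s ht.symm a

/-- NUMBER OF CIRCLES: at most `b1 P + 1` -/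
theorem k_le [Finite V] (hS : Surf G S) (hP : P ⊆ S) (hc : Conn G P) :
    b0 (sd G) (FrIn G S P) ≤ b1 G P + 1 := by
  let Z := LinearMap.ker (Matrix.mulVecLin (Matrix.transpose (inc (sd G) (prt G S P) 1)))
  let B := LinearMap.range (Matrix.mulVecLin (Matrix.transpose (inc (sd G) (prt G S P) 2)))
  have hBZ : B ≤ Z := by
    rintro _ ⟨T, rfl⟩
    exact LinearMap.mem_ker.2 (bd_bd T)
  let α : (Z0 (sd G) (FrIn G S P)) →ₗ[ZMod 2] Z :=
    LinearMap.codRestrict Z ((al G S P).comp (Z0 (sd G) (FrIn G S P)).subtype)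
      (fun f => LinearMap.mem_ker.2 (al_cyc hS f.2))
  let β := (Submodule.mkQ (B.comap Z.subtype)).comp α
  have h1 := LinearMap.finrank_range_add_finrank_ker β
  have h2 : Module.finrank (ZMod 2) (LinearMap.range β) ≤
      Module.finrank (ZMod 2) (Z ⧸ (B.comap Z.subtype)) := Submodule.finrank_le _
  have h3 := Submodule.finrank_quotient_add_finrank (B.comap Z.subtype)
  have h4 : Module.finrank (ZMod 2) (B.comap Z.subtype) = Module.finrank (ZMod 2) B :=
    LinearEquiv.finrank_eq (Submodule.comapSubtypeEquivOfLe hBZ)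
  have h5 : Module.finrank (ZMod 2) Z = Module.finrank (ZMod 2) B + b1 (sd G) (prt G S P) :=
    cyc_dim
  have h6 : b1 (sd G) (prt G S P) = b1 G P := bt_b1 (prt_btw hP).1 (prt_btw hP).2
  have h7 : Module.finrank (ZMod 2) (LinearMap.ker β) ≤ 1 := by
    -- the kernel consists of constant functions
    by_cases hF : (FrIn G S P).Nonempty
    · obtain ⟨s0, hs0⟩ := hF
      let ev : LinearMap.ker β →ₗ[ZMod 2] ZMod 2 :=
        { toFun := fun f => f.1.1 s0
          map_add' := fun f g => rfl
          map_smul' := fun c f => rfl }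
      have hinj : Function.Injective ev := by
        rw [← LinearMap.ker_eq_bot, eq_bot_iff]
        intro f hf
        have hf0 : f.1.1 s0 = 0 := hf
        have hker : β f.1 = 0 := f.2
        have hmem : (al G S P) f.1.1 ∈ B := by
          have h8 : α f.1 ∈ B.comap Z.subtype :=
            (Submodule.Quotient.mk_eq_zero (B.comap Z.subtype)).1 hker
          exact h8
        obtain ⟨T, hT⟩ := hmem
        obtain ⟨c, hcc⟩ := al_const hS hP hc f.1.2 (T := T) hT
        have hc0 : c = 0 := by rw [← hcc s0 hs0, hf0]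
        rw [Submodule.mem_bot]
        apply Subtype.ext
        apply Subtype.ext
        funext s
        by_cases hs : s ∈ FrIn G S P
        · rw [hcc s hs, hc0]; rfl
        · exact f.1.2.1 s hs
      have := LinearMap.finrank_le_finrank_of_injective hinj
      rwa [Module.finrank_self] at this
    · rw [Set.not_nonempty_iff_eq_empty] at hF
      have : Module.finrank (ZMod 2) (Z0 (sd G) (FrIn G S P)) = 0 := by
        have hb : b0 (sd G) (FrIn G S P) = 0 := by rw [hF]; exact b0_empty
        exact hb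
      have h8 : Module.finrank (ZMod 2) (LinearMap.ker β) ≤
        Module.finrank (ZMod 2) (Z0 (sd G) (FrIn G S P)) := Submodule.finrank_le _
      omega
  have h8 : Module.finrank (ZMod 2) (Z0 (sd G) (FrIn G S P)) = b0 (sd G) (FrIn G S P) := rfl
  omega

/-- DISC: connected boundary curve -/
theorem disc_curve [Finite V] (hS : Surf G S) (hcS : Conn G S) (hP : P ⊆ S) (hne : P ≠ S)
    (hc : Conn G P) (hz : HZ G P) : Conn (sd G) (FrIn G S P) := by
  have h1 := k_le hS hP hc
  rw [b1_eq_zero.2 hz] at h1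
  have h2 : b0 (sd G) (FrIn G S P) ≠ 0 := by
    intro h
    have h3 := b0_eq_zero.1 h
    have h4 := FrIn_ne hcS hP hc.1 hne
    rw [h3] at h4
    exact Set.not_nonempty_empty h4
  exact b0_eq_one.1 (by omega)

/-- `P` with connected curve has connected complement -/
theorem compl_Conn [Finite V] (hcS : Conn G S) (hP : P ⊆ S) (hc : Conn G P) (hne : P ≠ S)
    (hF : Conn (sd G) (FrIn G S P)) : Conn G (S \ P) := by
  obtain ⟨y, hy, hyP⟩ : ∃ y, y ∈ S ∧ y ∉ P := by
    by_contra h
    push Not at h
    exact hne (Set.Subset.antisymm hP h)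
  have hcomp : IsComp G (S \ P) (comp G (S \ P) y) := ⟨y, ⟨hy, hyP⟩, rfl⟩
  by_contra hn
  let R := comp G (S \ P) y
  have hRne : R ≠ S \ P := fun h => hn (h ▸ hcomp.conn)
  have hRS : R ⊆ S \ P := hcomp.sub
  let R' := (S \ P) \ R
  have hR' : R'.Nonempty := by
    by_contra h
    rw [Set.not_nonempty_iff_eq_empty] at h
    apply hRne
    refine Set.Subset.antisymm hRS fun x hx => ?_
    by_contra hxR
    have : x ∈ R' := ⟨hx, hxR⟩
    rw [h] at this; exact this
  have hd : Disjoint R R' := Set.disjoint_left.2 fun x hx hx' => hx'.2 hx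
  obtain ⟨h1, h2, h3⟩ := FrIn_un (S := S) (A := R) (B := R') (fun x hx => (hRS hx).1)
    (fun x hx => hx.1.1) hd hcomp.nadj
  have hu : R ∪ R' = S \ P := by
    ext x
    constructor
    · rintro (hx | hx)
      · exact hRS hx
      · exact hx.1
    · intro hx
      by_cases hxR : x ∈ R
      · exact Or.inl hxR
      · exact Or.inr ⟨hx, hxR⟩
  rw [hu, FrIn_diff] at h1
  have n1 : (FrIn G S R).Nonempty := FrIn_ne hcS (fun x hx => (hRS hx).1) ⟨y, comp_self ⟨hy, hyP⟩⟩
    (by
      intro h
      obtain ⟨x, hx⟩ := hc.1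
      exact (hRS (h ▸ hP hx : x ∈ R)).2 hx)
  have n2 : (FrIn G S R').Nonempty := FrIn_ne hcS (fun x hx => hx.1.1) hR'
    (by
      intro h
      obtain ⟨x, hx⟩ := hc.1
      exact ((h ▸ hP hx : x ∈ R')).1.2 hx)
  obtain ⟨s, hs⟩ := n1
  obtain ⟨t, ht⟩ := n2
  have hf := (Conn_iff.1 hF).2 (fun u => if u ∈ FrIn G S R then 1 else 0) (by
    intro u v e
    rw [h1] at e
    by_cases hu : u ∈ FrIn G S R
    · by_cases hv : v ∈ FrIn G S R
      · simp [hu, hv]
      · exact absurd e.1 (h3 u hu v (e.2.2.resolve_left hv))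
    · by_cases hv : v ∈ FrIn G S R
      · exact absurd e.1.symm (h3 v hv u (e.2.1.resolve_left hu))
      · simp [hu, hv]) s (by rw [h1]; exact Or.inl hs) t (by rw [h1]; exact Or.inr ht)
  have ht' : t ∉ FrIn G S R := fun h => Set.disjoint_left.1 h2 h ht
  simp only [hs, ht', if_true, if_false] at hf
  exact one_ne_zero hf

/-- the complement of a disc: connected, with the `b1` of the surface -/
theorem disc_compl [Finite V] (hS : Surf G S) (hcS : Conn G S) (hP : P ⊆ S) (hne : P ≠ S)
    (hc : Conn G P) (hz : HZ G P) : Conn G (S \ P) ∧ b1 G (S \ P) = b1 G S := by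
  have h1 := compl_Conn hcS hP hc hne (disc_curve hS hcS hP hne hc hz)
  refine ⟨h1, ?_⟩
  have h2 := cut2 hS hcS hP hc.1 hne
  rw [b1_eq_zero.2 hz, b0_eq_one.2 hc, b0_eq_one.2 h1] at h2
  omega

end MOT
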