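import Pool.Agent.MOT.Dua
import Pool.Agent.MOT.Cpt
import Pool.Agent.MOT.SfD

/-!
# MOT/PaDsk: a disc in a connected closed surface has one boundary circle and a connected
# complement (block I)
-/

open Classical

noncomputable section

namespace MOT.Pa

variable {V : Type} {G : SimpleGraph V} {S R : Set V}

/-- ONE BOUNDARY CIRCLE (`disc_curve`, MOT/SfD). -/
theorem dsk_bd [Finite V] (hS : Surf G S) (hc : Conn G S) (hR : R ⊆ S) (hRc : Conn G R)
    (hz : HZ G R) (hne : R ≠ S) : Conn (sd G) (FrIn G S R) := by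
  exact disc_curve hS hc hR hne hRc hz

/-- CONNECTED COMPLEMENT.  Sketch: `f` locally constant on `S \ R`; `q ↦ f (a vertex of q outside R)` is
locally constant on `FrIn G S R`, so constant `c` (`dsk_bd`); the extension of `f` by `c` over `R` is locally
constant on `S`. -/
theorem dsk_compl [Finite V] (hS : Surf G S) (hc : Conn G S) (hR : R ⊆ S) (hRc : Conn G R)
    (hz : HZ G R) (hne : R ≠ S) : Conn G (S \ R) := by
  exact (disc_compl hS hc hR hne hRc hz).1

theorem dsk_chi [Finite V] (hS : Surf G S) (hc : Conn G S) (hR : R ⊆ S) (hRc : Conn G R)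
    (hne : R ≠ S) : chi G R ≤ 1 ∧ (chi G R = 1 ↔ HZ G R) := by
  have h1 := surf_chi_part hS hc hR hne
  rw [b0_eq_one.2 hRc] at h1
  refine ⟨by omega, ?_⟩
  rw [← b1_eq_zero]
  omega

end MOT.Pa
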