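import Pool.Agent.MOT.Bas

/-!
# MOT: THIN, fillings: the complement of a connected set in a sphere (helper23)

`disc_HZ`.  `S` closed surface, connected, `H^1 = 0`, `H ⊆ S`, `S \ H` connected.  Let `a ∈ Z1 H` and
`W = S \ H`.  For a triangle `T` of `S` put `u T = ` sum of `a` over its three edges (`a = 0` on edges not in
`H`); `u T = 0` if `T ⊆ H`.  Claim: there is a symmetric `b`, zero on the edges inside `H` (and outside `S`),
such that for all triangles `T` of `S` the sum of `b` over the edges of `T` is `u T`.  Then `a + b` is a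
cocycle of `S`, trivial by `HZ G S`, and so `a` is trivial on `H`.
Proof of the claim: linear algebra.  The functions `T ↦ ` (sum of `b` over the edges of `T`) form a subspace
`B` of the functions on the triangles of `S` which meet `W`.  If `u ∉ B` there is a linear functional
`φ v = ∑ T, F T * v T` which vanishes on `B` and not at `u` (`Submodule.exists_le_ker_of_notMem`).  Vanishing on
the function of one edge `x y` which meets `W`: the two triangles at `x y` have the same `F` (`Surf.lk`: exactly
two common neighbours in `S`).  For `x ∈ W` all triangles at `x` have the same `F` (the link of `x` in `S`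
is connected), and adjacent `x, y ∈ W` have a common triangle; `W` is connected: `F` is constant on all
triangles which meet `W`.  So `φ u = const * ∑ T, u T`, and `∑ T, u T = ∑ edges, 2 a = 0` (each edge in
exactly two triangles; triangles inside `H` contribute 0).  Contradiction.

-/

open Classical

noncomputable section

namespace MOT

variable {V : Type} {G : SimpleGraph V}

/-- the triangles of `S` -/
private def Tr42 (G : SimpleGraph V) (S : Set V) : Type :=
  {s : Finset V // s.card = 3 ∧ G.IsClique (s : Set V) ∧ (s : Set V) ⊆ S}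

private theorem mk42 {S : Set V} {x y z : V} (h1 : EIn G S x y) (h2 : EIn G S y z)
    (h3 : EIn G S x z) : ({x, y, z} : Finset V).card = 3 ∧
      G.IsClique (({x, y, z} : Finset V) : Set V) ∧ (({x, y, z} : Finset V) : Set V) ⊆ S := by
  refine ⟨Finset.card_eq_three.2 ⟨x, y, z, h1.1.ne, h3.1.ne, h2.1.ne, rfl⟩, ?_, ?_⟩
  · intro u hu v hv huv
    simp only [Finset.coe_insert, Finset.coe_singleton, Set.mem_insert_iff,
      Set.mem_singleton_iff] at hu hv
    rcases hu with rfl | rfl | rfl <;> rcases hv with rfl | rfl | rfl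
    · exact absurd rfl huv
    · exact h1.1
    · exact h3.1
    · exact h1.1.symm
    · exact absurd rfl huv
    · exact h2.1
    · exact h3.1.symm
    · exact h2.1.symm
    · exact absurd rfl huv
  · intro u hu
    simp only [Finset.coe_insert, Finset.coe_singleton, Set.mem_insert_iff,
      Set.mem_singleton_iff] at hu
    rcases hu with rfl | rfl | rfl
    · exact h1.2.1
    · exact h1.2.2
    · exact h2.2.2

/-- a triangle which contains the edge `x y` is `{x, y, z}` -/
private theorem third42 {S : Set V} (T : Tr42 G S) {x y : V} (hxy : x ≠ y) (hx : x ∈ T.1)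
    (hy : y ∈ T.1) : ∃ z, z ≠ x ∧ z ≠ y ∧ T.1 = {x, y, z} := by
  have hsub : ({x, y} : Finset V) ⊆ T.1 := by
    intro u hu
    rcases Finset.mem_insert.1 hu with rfl | hu
    · exact hx
    · rw [Finset.mem_singleton.1 hu]; exact hy
  have hc : (T.1 \ {x, y}).card = 1 := by
    rw [Finset.card_sdiff_of_subset hsub, T.2.1, Finset.card_pair hxy]
  obtain ⟨z, hz⟩ := Finset.card_eq_one.1 hc
  have hz1 : z ∈ T.1 \ {x, y} := by rw [hz]; exact Finset.mem_singleton_self z
  rw [Finset.mem_sdiff, Finset.mem_insert, Finset.mem_singleton] at hz1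
  refine ⟨z, fun h => hz1.2 (Or.inl h), fun h => hz1.2 (Or.inr h), ?_⟩
  have h2 : ({x, y} : Finset V) ∪ (T.1 \ {x, y}) = T.1 := Finset.union_sdiff_of_subset hsub
  rw [← h2, hz]
  ext u
  simp only [Finset.mem_union, Finset.mem_insert, Finset.mem_singleton]
  tauto

/-- exactly two triangles at an edge -/
private theorem two42 {S : Set V} (hS : Surf G S) {x y : V} (h : EIn G S x y) :
    ∃ T1 T2 : Tr42 G S, T1 ≠ T2 ∧ ∀ T : Tr42 G S,
      ((x ∈ T.1 ∧ y ∈ T.1) ↔ (T = T1 ∨ T = T2)) := by
  have hy : y ∈ Lk G {x} ∩ S := by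
    refine ⟨?_, h.2.2⟩
    intro u hu
    rw [Set.mem_singleton_iff.1 hu]; exact h.1
  have h2 := (hS.lk x h.2.1).2 y hy
  obtain ⟨z1, z2, hne, hset⟩ := Set.ncard_eq_two.1 h2
  have key : ∀ z, z ∈ ({z1, z2} : Set V) ↔ (EIn G S y z ∧ EIn G S x z) := by
    intro z
    rw [← hset]
    constructor
    · rintro ⟨e1, e2, e3⟩
      have e4 : G.Adj x z := e3.1 x rfl
      exact ⟨⟨e1, h.2.2, e3.2⟩, ⟨e4, h.2.1, e3.2⟩⟩
    · rintro ⟨e1, e2⟩
      refine ⟨e1.1, hy, ?_, e1.2.2⟩
      intro u hu
      rw [Set.mem_singleton_iff.1 hu]; exact e2.1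
  obtain ⟨a1, b1⟩ := (key z1).1 (Or.inl rfl)
  obtain ⟨a2, b2⟩ := (key z2).1 (Or.inr rfl)
  refine ⟨⟨{x, y, z1}, mk42 h a1 b1⟩, ⟨{x, y, z2}, mk42 h a2 b2⟩, ?_, ?_⟩
  · intro hE
    have hE' : ({x, y, z1} : Finset V) = {x, y, z2} := congrArg Subtype.val hE
    have : z1 ∈ ({x, y, z2} : Finset V) := by rw [← hE']; simp
    simp only [Finset.mem_insert, Finset.mem_singleton] at this
    rcases this with h' | h' | h'
    · exact b1.1.ne h'.symm
    · exact a1.1.ne h'.symm
    · exact hne h'
  · intro T
    constructor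
    · rintro ⟨hx, hy'⟩
      obtain ⟨z, hzx, hzy, hT⟩ := third42 T h.1.ne hx hy'
      have hz : z ∈ T.1 := by rw [hT]; simp
      have hzS : z ∈ S := T.2.2.2 hz
      have e1 : G.Adj y z := T.2.2.1 hy' hz hzy.symm
      have e2 : G.Adj x z := T.2.2.1 hx hz hzx.symm
      have hzz := (key z).2 ⟨⟨e1, h.2.2, hzS⟩, ⟨e2, h.2.1, hzS⟩⟩
      rcases hzz with h' | h'
      · left; apply Subtype.ext; rw [hT, h']
      · right; apply Subtype.ext; rw [hT, Set.mem_singleton_iff.1 h']
    · rintro (rfl | rfl)
      · exact ⟨by simp, by simp⟩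
      · exact ⟨by simp, by simp⟩

/-- incidence of a pair and a triangle -/
private theorem inc42 {S : Set V} (T : Tr42 G S) {x y : V} (hxy : x ≠ y) :
    (∑ z ∈ T.1, if T.1.erase z = {x, y} then (1 : ZMod 2) else 0) =
      if x ∈ T.1 ∧ y ∈ T.1 then 1 else 0 := by
  by_cases h : x ∈ T.1 ∧ y ∈ T.1
  · rw [if_pos h]
    obtain ⟨w, hwx, hwy, hT⟩ := third42 T hxy h.1 h.2
    have hw : w ∈ T.1 := by rw [hT]; simp
    have hew : T.1.erase w = {x, y} := by
      rw [hT]; ext u
      simp only [Finset.mem_erase, Finset.mem_insert, Finset.mem_singleton]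
      constructor
      · rintro ⟨h1, h2 | h2 | h2⟩
        · exact Or.inl h2
        · exact Or.inr h2
        · exact absurd h2 h1
      · rintro (rfl | rfl)
        · exact ⟨hwx.symm, Or.inl rfl⟩
        · exact ⟨hwy.symm, Or.inr (Or.inl rfl)⟩
    rw [Finset.sum_eq_single w]
    · rw [if_pos hew]
    · intro z hz hzw
      rw [if_neg]
      intro hE
      have h1 : z ∉ T.1.erase z := Finset.notMem_erase z T.1
      rw [hE, ← hew] at h1
      exact h1 (Finset.mem_erase.2 ⟨hzw, hz⟩)
    · intro h'; exact absurd hw h'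
  · rw [if_neg h]
    apply Finset.sum_eq_zero
    intro z hz
    rw [if_neg]
    intro hE
    have hx : x ∈ T.1.erase z := by rw [hE]; simp
    have hy : y ∈ T.1.erase z := by rw [hE]; simp
    exact h ⟨Finset.mem_of_mem_erase hx, Finset.mem_of_mem_erase hy⟩

private theorem sum42 {S : Set V} [Fintype (Tr42 G S)] (F : Tr42 G S → ZMod 2) {x y : V}
    {T1 T2 : Tr42 G S} (hne : T1 ≠ T2)
    (h : ∀ T : Tr42 G S, ((x ∈ T.1 ∧ y ∈ T.1) ↔ (T = T1 ∨ T = T2))) :
    (∑ T : Tr42 G S, F T * (if x ∈ T.1 ∧ y ∈ T.1 then 1 else 0)) = F T1 + F T2 := by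
  have : ∀ T : Tr42 G S, F T * (if x ∈ T.1 ∧ y ∈ T.1 then 1 else 0)
      = (if T = T1 then F T1 else 0) + (if T = T2 then F T2 else 0) := by
    intro T
    by_cases h1 : T = T1
    · subst h1
      rw [if_pos ((h T).2 (Or.inl rfl)), if_pos rfl, if_neg hne, mul_one, add_zero]
    · by_cases h2 : T = T2
      · subst h2
        rw [if_pos ((h T).2 (Or.inr rfl)), if_pos rfl, if_neg h1, mul_one, zero_add]
      · rw [if_neg (fun hh => ((h T).1 hh).elim h1 h2), if_neg h1, if_neg h2, mul_zero, add_zero]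
  rw [Finset.sum_congr rfl fun T _ => this T, Finset.sum_add_distrib]
  simp

/-- the function on pairs given by a symmetric cochain -/
private def ah42 (a : V → V → ZMod 2) (e : Finset V) : ZMod 2 :=
  if h : ∃ p : V × V, p.1 ≠ p.2 ∧ e = {p.1, p.2} then a h.choose.1 h.choose.2 else 0

private theorem ah_pair42 {a : V → V → ZMod 2} (hs : ∀ x y, a x y = a y x) {x y : V}
    (hxy : x ≠ y) : ah42 a {x, y} = a x y := by
  have h : ∃ p : V × V, p.1 ≠ p.2 ∧ ({x, y} : Finset V) = {p.1, p.2} := ⟨(x, y), hxy, rfl⟩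
  unfold ah42
  rw [dif_pos h]
  obtain ⟨h1, h2⟩ := h.choose_spec
  have h3 : ({x, y} : Set V) = {h.choose.1, h.choose.2} := by
    have := congrArg (fun s : Finset V => (s : Set V)) h2
    simpa using this
  rcases Set.pair_eq_pair_iff.1 h3 with ⟨e1, e2⟩ | ⟨e1, e2⟩
  · rw [← e1, ← e2]
  · rw [← e1, ← e2, hs]

private theorem ah_ne42 {a : V → V → ZMod 2} {e : Finset V} (h : ah42 a e ≠ 0) :
    ∃ x y, x ≠ y ∧ e = {x, y} := by
  unfold ah42 at h
  by_cases h' : ∃ p : V × V, p.1 ≠ p.2 ∧ e = {p.1, p.2}
  · obtain ⟨p, h1, h2⟩ := h'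
    exact ⟨p.1, p.2, h1, h2⟩
  · rw [dif_neg h'] at h; exact absurd rfl h

/-- a function on the triangles, constant at the edges which meet `S \ H`, is constant on the
triangles which meet `S \ H` -/
private theorem const42 {S H : Set V} (hS : Surf G S) (hW : Conn G (S \ H))
    (F : Tr42 G S → ZMod 2)
    (hF : ∀ x y, EIn G S x y → x ∉ H → ∀ T T' : Tr42 G S, x ∈ T.1 → y ∈ T.1 → x ∈ T'.1 →
      y ∈ T'.1 → F T = F T') :
    ∃ c, ∀ T : Tr42 G S, (∃ x ∈ T.1, x ∉ H) → F T = c := by
  -- all triangles at `x`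
  have hA : ∀ x ∈ S, x ∉ H → ∀ T T' : Tr42 G S, x ∈ T.1 → x ∈ T'.1 → F T = F T' := by
    intro x hxS hxH T T' hT hT'
    let f : V → ZMod 2 := fun y =>
      if h : ∃ T : Tr42 G S, x ∈ T.1 ∧ y ∈ T.1 then F h.choose else 0
    have hf : ∀ y, EIn G S x y → ∀ T : Tr42 G S, x ∈ T.1 → y ∈ T.1 → f y = F T := by
      intro y hxy T h1 h2
      have h : ∃ T : Tr42 G S, x ∈ T.1 ∧ y ∈ T.1 := ⟨T, h1, h2⟩
      show (if h : ∃ T : Tr42 G S, x ∈ T.1 ∧ y ∈ T.1 then F h.choose else 0) = F T
      rw [dif_pos h]
      exact hF x y hxy hxH _ _ h.choose_spec.1 h.choose_spec.2 h1 h2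
    have hcon := (hS.lk x hxS).1
    have hlk : ∀ y, y ∈ Lk G {x} ∩ S → EIn G S x y := fun y hy => ⟨hy.1 x rfl, hxS, hy.2⟩
    have hc : ∀ y z, EIn G (Lk G {x} ∩ S) y z → f y = f z := by
      rintro y z ⟨h1, h2, h3⟩
      have e1 := hlk y h2
      have e2 := hlk z h3
      let T0 : Tr42 G S := ⟨{x, y, z}, mk42 e1 ⟨h1, h2.2, h3.2⟩ e2⟩
      have hx0 : x ∈ T0.1 := Finset.mem_insert_self _ _
      have hy0 : y ∈ T0.1 := Finset.mem_insert_of_mem (Finset.mem_insert_self _ _)
      have hz0 : z ∈ T0.1 := Finset.mem_insert_of_mem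
        (Finset.mem_insert_of_mem (Finset.mem_singleton_self _))
      rw [hf y e1 T0 hx0 hy0, hf z e2 T0 hx0 hz0]
    have hex : ∀ T : Tr42 G S, x ∈ T.1 → ∃ y, y ∈ Lk G {x} ∩ S ∧ y ∈ T.1 := by
      intro T hT
      have : 1 < T.1.card := by rw [T.2.1]; norm_num
      obtain ⟨y, hy, hyx⟩ := Finset.exists_mem_ne this x
      refine ⟨y, ⟨?_, T.2.2.2 hy⟩, hy⟩
      intro u hu
      rw [Set.mem_singleton_iff.1 hu]
      exact T.2.2.1 hT hy hyx.symm
    obtain ⟨y, hy1, hy2⟩ := hex T hT
    obtain ⟨z, hz1, hz2⟩ := hex T' hT'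
    rw [← hf y (hlk y hy1) T hT hy2, ← hf z (hlk z hz1) T' hT' hz2]
    exact hcon.const hc hy1 hz1
  let f : V → ZMod 2 := fun x => if h : ∃ T : Tr42 G S, x ∈ T.1 then F h.choose else 0
  have hf : ∀ x ∈ S, x ∉ H → ∀ T : Tr42 G S, x ∈ T.1 → f x = F T := by
    intro x h1 h2 T hT
    have h : ∃ T : Tr42 G S, x ∈ T.1 := ⟨T, hT⟩
    show (if h : ∃ T : Tr42 G S, x ∈ T.1 then F h.choose else 0) = F T
    rw [dif_pos h]
    exact hA x h1 h2 _ _ h.choose_spec hT
  have hc : ∀ x y, EIn G (S \ H) x y → f x = f y := by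
    rintro x y ⟨h1, h2, h3⟩
    obtain ⟨T1, T2, _, hT⟩ := two42 hS (⟨h1, h2.1, h3.1⟩ : EIn G S x y)
    obtain ⟨e1, e2⟩ := (hT T1).2 (Or.inl rfl)
    rw [hf x h2.1 h2.2 T1 e1, hf y h3.1 h3.2 T1 e2]
  obtain ⟨x0, hx0⟩ := hW.1
  refine ⟨f x0, ?_⟩
  rintro T ⟨x, hx, hxH⟩
  have hxS : x ∈ S := T.2.2.2 hx
  rw [← hf x hxS hxH T hx]
  exact hW.const hc ⟨hxS, hxH⟩ hx0

theorem disc_HZ [Finite V] {S H : Set V} (hS : Surf G S) (hz : HZ G S)
    (hH : H ⊆ S) (hW : Conn G (S \ H)) : HZ G H := by
  have : Fintype V := Fintype.ofFinite V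
  have : Fintype (Tr42 G S) := by unfold Tr42; exact Fintype.ofFinite _
  intro a ha
  obtain ⟨ha0, has, hac⟩ := mem_Z1.1 ha
  -- the masked boundary map
  let D : (Finset V → ZMod 2) →ₗ[ZMod 2] (Tr42 G S → ZMod 2) :=
    { toFun := fun b T => ∑ x ∈ T.1, if ((T.1.erase x : Finset V) : Set V) ⊆ H then 0
        else b (T.1.erase x)
      map_add' := by
        intro b c; funext T
        simp only [Pi.add_apply]
        rw [← Finset.sum_add_distrib]
        refine Finset.sum_congr rfl fun x _ => ?_
        split_ifs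
        · rw [add_zero]
        · rfl
      map_smul' := by
        intro k b; funext T
        simp only [Pi.smul_apply, RingHom.id_apply]
        rw [Finset.smul_sum]
        refine Finset.sum_congr rfl fun x _ => ?_
        split_ifs
        · rw [smul_zero]
        · rfl }
  have hD : ∀ b T, D b T = ∑ x ∈ T.1, if ((T.1.erase x : Finset V) : Set V) ⊆ H then 0
        else b (T.1.erase x) := fun _ _ => rfl
  let u : Tr42 G S → ZMod 2 := fun T => ∑ x ∈ T.1, ah42 a (T.1.erase x)
  have key : u ∈ LinearMap.range D := by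
    by_contra hu
    obtain ⟨f, hfu, hfD⟩ := Submodule.exists_le_ker_of_notMem hu
    let F : Tr42 G S → ZMod 2 := fun T => f (Pi.single T 1)
    have hfF : ∀ v : Tr42 G S → ZMod 2, f v = ∑ T, F T * v T := by
      intro v
      rw [LinearMap.pi_apply_eq_sum_univ f v]
      refine Finset.sum_congr rfl fun T _ => ?_
      rw [smul_eq_mul, mul_comm]
      congr 2
      funext T'
      by_cases h : T = T'
      · subst h; simp
      · rw [if_neg h, Pi.single_eq_of_ne (Ne.symm h)]
    -- equality of `F` at the edges which meet `S \ H`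
    have hF : ∀ x y, EIn G S x y → x ∉ H → ∀ T T' : Tr42 G S, x ∈ T.1 → y ∈ T.1 → x ∈ T'.1 →
        y ∈ T'.1 → F T = F T' := by
      intro x y hxy hxH T T' h1 h2 h3 h4
      obtain ⟨T1, T2, hne, hT⟩ := two42 hS hxy
      have hnH : ¬ ((({x, y} : Finset V) : Set V) ⊆ H) := fun h => hxH (h (by simp))
      have e0 : f (D (fun e => if e = {x, y} then 1 else 0)) = 0 :=
        LinearMap.mem_ker.1 (hfD (LinearMap.mem_range_self D _))
      have e1 : ∀ T : Tr42 G S, D (fun e => if e = {x, y} then 1 else 0) T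
          = if x ∈ T.1 ∧ y ∈ T.1 then 1 else 0 := by
        intro T
        rw [hD, ← inc42 T hxy.1.ne]
        refine Finset.sum_congr rfl fun z _ => ?_
        by_cases hz : T.1.erase z = {x, y}
        · rw [hz, if_neg hnH]
        · rw [if_neg hz, ite_self]
      rw [hfF] at e0
      rw [Finset.sum_congr rfl fun T _ => by rw [e1 T], sum42 F hne hT, z2_eq] at e0
      rcases (hT T).1 ⟨h1, h2⟩ with rfl | rfl <;> rcases (hT T').1 ⟨h3, h4⟩ with rfl | rfl
      · rfl
      · exact e0
      · exact e0.symm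
      · rfl
    obtain ⟨c, hc⟩ := const42 hS hW F hF
    -- `F T * u T = c * u T`
    have hFu : ∀ T : Tr42 G S, F T * u T = c * u T := by
      intro T
      by_cases hT : ∃ x ∈ T.1, x ∉ H
      · rw [hc T hT]
      · have hTH : ∀ x ∈ T.1, x ∈ H := by
          intro x hx; by_contra h; exact hT ⟨x, hx, h⟩
        have hu0 : u T = 0 := by
          obtain ⟨x, y, z, hxy, hxz, hyz, hTe⟩ := Finset.card_eq_three.1 T.2.1
          have hx : x ∈ T.1 := by rw [hTe]; simp
          have hy : y ∈ T.1 := by rw [hTe]; simp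
          have hz : z ∈ T.1 := by rw [hTe]; simp
          have ex : T.1.erase x = {y, z} := by
            rw [hTe]; ext w
            simp only [Finset.mem_erase, Finset.mem_insert, Finset.mem_singleton]
            constructor
            · rintro ⟨k1, k2 | k2 | k2⟩
              · exact absurd k2 k1
              · exact Or.inl k2
              · exact Or.inr k2
            · rintro (rfl | rfl)
              · exact ⟨hxy.symm, Or.inr (Or.inl rfl)⟩
              · exact ⟨hxz.symm, Or.inr (Or.inr rfl)⟩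
          have ey : T.1.erase y = {x, z} := by
            rw [hTe]; ext w
            simp only [Finset.mem_erase, Finset.mem_insert, Finset.mem_singleton]
            constructor
            · rintro ⟨k1, k2 | k2 | k2⟩
              · exact Or.inl k2
              · exact absurd k2 k1
              · exact Or.inr k2
            · rintro (rfl | rfl)
              · exact ⟨hxy, Or.inl rfl⟩
              · exact ⟨hyz.symm, Or.inr (Or.inr rfl)⟩
          have ez : T.1.erase z = {x, y} := by
            rw [hTe]; ext w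
            simp only [Finset.mem_erase, Finset.mem_insert, Finset.mem_singleton]
            constructor
            · rintro ⟨k1, k2 | k2 | k2⟩
              · exact Or.inl k2
              · exact Or.inr k2
              · exact absurd k2 k1
            · rintro (rfl | rfl)
              · exact ⟨hxz, Or.inl rfl⟩
              · exact ⟨hyz, Or.inr (Or.inl rfl)⟩
          have e1 : EIn G H x y := ⟨T.2.2.1 hx hy hxy, hTH x hx, hTH y hy⟩
          have e2 : EIn G H y z := ⟨T.2.2.1 hy hz hyz, hTH y hy, hTH z hz⟩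
          have e3 : EIn G H x z := ⟨T.2.2.1 hx hz hxz, hTH x hx, hTH z hz⟩
          have hs : u T = ah42 a (T.1.erase x) + (ah42 a (T.1.erase y) +
              ah42 a (T.1.erase z)) := by
            show ∑ w ∈ T.1, ah42 a (T.1.erase w) = _
            have : ∑ w ∈ T.1, ah42 a (T.1.erase w)
                = ∑ w ∈ ({x, y, z} : Finset V), ah42 a (T.1.erase w) := by rw [← hTe]
            rw [this, Finset.sum_insert (by simp [hxy, hxz]), Finset.sum_insert (by simp [hyz]),
              Finset.sum_singleton]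
          rw [hs, ex, ey, ez, ah_pair42 has hyz, ah_pair42 has hxz, ah_pair42 has hxy,
            ← hac x y z e1 e2 e3]
          have k1 := two_add (a x y)
          have k2 := two_add (a y z)
          calc a y z + (a x y + a y z + a x y) = (a x y + a x y) + (a y z + a y z) := by ring
            _ = 0 := by rw [k1, k2, add_zero]
        rw [hu0, mul_zero, mul_zero]
    -- the total sum of `u`
    have hsum : ∑ T, u T = 0 := by
      have e1 : ∀ T : Tr42 G S, u T = ∑ e : Finset V, ah42 a e *
          (∑ x ∈ T.1, if T.1.erase x = e then 1 else 0) := by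
        intro T
        show ∑ x ∈ T.1, ah42 a (T.1.erase x) = _
        simp_rw [Finset.mul_sum]
        rw [Finset.sum_comm]
        refine Finset.sum_congr rfl fun x _ => ?_
        simp
      rw [Finset.sum_congr rfl fun T _ => e1 T, Finset.sum_comm]
      apply Finset.sum_eq_zero
      intro e _
      rw [← Finset.mul_sum]
      by_cases he : ah42 a e = 0
      · rw [he, zero_mul]
      · obtain ⟨x, y, hxy, rfl⟩ := ah_ne42 he
        rw [ah_pair42 has hxy] at he
        have hE : EIn G H x y := by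
          by_contra h; exact he (ha0 x y h)
        obtain ⟨T1, T2, hne, hT⟩ := two42 hS (hE.mono hH)
        have h1 := sum42 (fun _ => (1 : ZMod 2)) hne hT
        have h2 : (∑ T : Tr42 G S, ∑ z ∈ T.1, if T.1.erase z = {x, y} then (1 : ZMod 2) else 0)
            = ∑ T : Tr42 G S, (1 : ZMod 2) * (if x ∈ T.1 ∧ y ∈ T.1 then 1 else 0) := by
          refine Finset.sum_congr rfl fun T _ => ?_
          rw [inc42 T hxy, one_mul]
        rw [h2, h1, two_add, mul_zero]
    apply hfu
    rw [hfF, Finset.sum_congr rfl fun T _ => hFu T, ← Finset.mul_sum, hsum, mul_zero]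
  obtain ⟨b, hb⟩ := key
  have hbT : ∀ T : Tr42 G S, (∑ x ∈ T.1, if ((T.1.erase x : Finset V) : Set V) ⊆ H then 0
        else b (T.1.erase x)) = ∑ x ∈ T.1, ah42 a (T.1.erase x) := fun T => congrFun hb T
  let c : Finset V → ZMod 2 := fun e => ah42 a e + if ((e : Finset V) : Set V) ⊆ H then 0 else b e
  have hcT : ∀ T : Tr42 G S, ∑ x ∈ T.1, c (T.1.erase x) = 0 := by
    intro T
    show ∑ x ∈ T.1, (ah42 a (T.1.erase x) + if ((T.1.erase x : Finset V) : Set V) ⊆ H then 0
        else b (T.1.erase x)) = 0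
    rw [Finset.sum_add_distrib, hbT, two_add]
  have hcZ : (fun x y => if EIn G S x y then c {x, y} else 0) ∈ Z1 G S := by
    refine mem_Z1.2 ⟨fun x y e => if_neg e, fun x y => ?_, fun x y z e1 e2 e3 => ?_⟩
    · by_cases e : EIn G S x y
      · rw [if_pos e, if_pos e.symm, Finset.pair_comm]
      · rw [if_neg e, if_neg (fun e' => e e'.symm)]
    · rw [if_pos e1, if_pos e2, if_pos e3]
      have h := hcT ⟨{x, y, z}, mk42 e1 e2 e3⟩
      have hxy := e1.1.ne
      have hyz := e2.1.ne
      have hxz := e3.1.ne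
      have ex : ({x, y, z} : Finset V).erase x = {y, z} := by
        ext w
        simp only [Finset.mem_erase, Finset.mem_insert, Finset.mem_singleton]
        constructor
        · rintro ⟨k1, k2 | k2 | k2⟩
          · exact absurd k2 k1
          · exact Or.inl k2
          · exact Or.inr k2
        · rintro (rfl | rfl)
          · exact ⟨hxy.symm, Or.inr (Or.inl rfl)⟩
          · exact ⟨hxz.symm, Or.inr (Or.inr rfl)⟩
      have ey : ({x, y, z} : Finset V).erase y = {x, z} := by
        ext w
        simp only [Finset.mem_erase, Finset.mem_insert, Finset.mem_singleton]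
        constructor
        · rintro ⟨k1, k2 | k2 | k2⟩
          · exact Or.inl k2
          · exact absurd k2 k1
          · exact Or.inr k2
        · rintro (rfl | rfl)
          · exact ⟨hxy, Or.inl rfl⟩
          · exact ⟨hyz.symm, Or.inr (Or.inr rfl)⟩
      have ez : ({x, y, z} : Finset V).erase z = {x, y} := by
        ext w
        simp only [Finset.mem_erase, Finset.mem_insert, Finset.mem_singleton]
        constructor
        · rintro ⟨k1, k2 | k2 | k2⟩
          · exact Or.inl k2
          · exact Or.inr k2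
          · exact absurd k2 k1
        · rintro (rfl | rfl)
          · exact ⟨hxz, Or.inl rfl⟩
          · exact ⟨hyz, Or.inr (Or.inl rfl)⟩
      have h' : ∑ w ∈ ({x, y, z} : Finset V), c (({x, y, z} : Finset V).erase w) = 0 := h
      rw [Finset.sum_insert (by simp [hxy, hxz]), Finset.sum_insert (by simp [hyz]),
        Finset.sum_singleton, ex, ey, ez] at h'
      rw [← z2_eq]
      rw [← h']; ring
  obtain ⟨g, hg⟩ := hz _ hcZ
  refine ⟨g, fun x y e => ?_⟩
  have e' := e.mono hH
  have h1 : (if EIn G S x y then c {x, y} else 0) = g x + g y := hg x y e'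
  rw [if_pos e'] at h1
  have h2 : c {x, y} = a x y := by
    show ah42 a {x, y} + (if ((({x, y} : Finset V)) : Set V) ⊆ H then 0 else b {x, y}) = a x y
    rw [if_pos, add_zero, ah_pair42 has e.1.ne]
    intro w hw
    simp only [Finset.coe_insert, Finset.coe_singleton, Set.mem_insert_iff,
      Set.mem_singleton_iff] at hw
    rcases hw with rfl | rfl
    · exact e.2.1
    · exact e.2.2
  rw [← h2, h1]

end MOT
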