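import Pool.Agent.MOT.Cpt
import Pool.Agent.MOT.TlI

/-!
# MOT: THIN, fillings: a leaf of a coloured sphere (helper23)

`leaf_ex`.  Pieces: the components of `A ∩ S` and of `S \ A`.
(1) choose a piece `H` and a component `W` of `S \ H` with `W.ncard` maximal.  Then `W = S \ H`: otherwise
let `W'` be another component of `S \ H`; both `W`, `W'` have vertices adjacent to `H` (`S` connected), let `H'` be the
piece of a vertex of `W'` adjacent to `H`; `H' ⊆ W'`; the component of `S \ H'` containing `H` contains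
`H ∪ W`: larger.  (If `S \ H` is empty, `S = H` would be monochromatic: excluded.)
(2) let `N` be a piece adjacent to `H` (it has the other colour).  If another piece `N' ≠ N` is adjacent
to `H`: `a x y := 1` iff one of `x, y` is in `H` and the other one in `N` is a cocycle of `S` (a triangle
has two vertices of the same colour, they lie in the same piece), so `a x y = g x + g y` on `S`.  `g` is constant
on `W = S \ H` (connected, `a = 0` there), in particular equal on `N` and `N'`; `g` is constant on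
`H ∪ N'` too; but `g` differs between `H` and `N`: contradiction.
(3) `H` is connected, `S \ H = W` is connected: `HZ G H` by `disc_HZ`.
`mx_compl`: exchange the two entries.  `mx_lt`: all mixed pairs of `A \ H` are mixed pairs of `A` (a neighbour in
`S` of a vertex of `H`, not in `H`, is not in `A`, as `H` is a component of `A ∩ S`), and a pair `x ∈ H`,
`y ∈ S \ A` adjacent is lost.
-/

open Classical

noncomputable section

namespace MOT

variable {V : Type} {G : SimpleGraph V}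

/-- pieces -/
private def IsP (G : SimpleGraph V) (S A H : Set V) : Prop :=
  IsComp G (A ∩ S) H ∨ IsComp G (S \ A) H

private theorem IsP.conn {S A H : Set V} (h : IsP G S A H) : Conn G H := by
  rcases h with h | h
  · exact h.conn
  · exact h.conn

private theorem IsP.sub {S A H : Set V} (h : IsP G S A H) : H ⊆ S := by
  rcases h with h | h
  · exact h.sub.trans Set.inter_subset_right
  · exact h.sub.trans Set.sdiff_subset

private theorem IsP.same {S A H : Set V} (h : IsP G S A H) {x y : V} (hx : x ∈ S) (hy : y ∈ S)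
    (e : G.Adj x y) (hA : x ∈ A ↔ y ∈ A) : x ∈ H ↔ y ∈ H := by
  have key : ∀ u v, u ∈ S → v ∈ S → G.Adj u v → (u ∈ A ↔ v ∈ A) → u ∈ H → v ∈ H := by
    intro u v hu hv e hA huH
    by_contra hvH
    rcases h with h | h
    · exact h.nadj u huH v ⟨⟨hA.1 (h.sub huH).1, hv⟩, hvH⟩ e
    · exact h.nadj u huH v ⟨⟨hv, fun h' => (h.sub huH).2 (hA.2 h')⟩, hvH⟩ e
  exact ⟨key x y hx hy e hA, key y x hy hx e.symm hA.symm⟩

private theorem IsP.disj {S A H H' : Set V} (h : IsP G S A H) (h' : IsP G S A H') {x : V}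
    (hx : x ∈ H) (hx' : x ∈ H') : H = H' := by
  rcases h with h | h <;> rcases h' with h' | h'
  · exact h.eq_of_inter h' ⟨x, hx, hx'⟩
  · exact absurd (h.sub hx).1 (h'.sub hx').2
  · exact absurd (h'.sub hx').1 (h.sub hx).2
  · exact h.eq_of_inter h' ⟨x, hx, hx'⟩

private theorem ex_piece {S A : Set V} {x : V} (hx : x ∈ S) : ∃ H, IsP G S A H ∧ x ∈ H := by
  by_cases h : x ∈ A
  · exact ⟨comp G (A ∩ S) x, Or.inl ⟨x, ⟨h, hx⟩, rfl⟩, comp_self ⟨h, hx⟩⟩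
  · exact ⟨comp G (S \ A) x, Or.inr ⟨x, ⟨hx, h⟩, rfl⟩, comp_self ⟨hx, h⟩⟩

/-- an edge leaving a proper nonempty part of a connected set -/
private theorem ex_edge {S B : Set V} (hc : Conn G S) {x y : V} (hx : x ∈ B) (hxS : x ∈ S)
    (hy : y ∈ S) (hyB : y ∉ B) : ∃ u ∈ B, ∃ v ∈ S, v ∉ B ∧ u ∈ S ∧ G.Adj u v := by
  by_contra hcon
  have h1 : ∀ z, Relation.ReflTransGen (EIn G S) x z → z ∈ B := by
    intro z hz
    induction hz with
    | refl => exact hx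
    | tail _ e ih =>
      by_contra h
      exact hcon ⟨_, ih, _, e.2.2, h, e.2.1, e.1⟩
  exact hyB (h1 y (hc.2 x hxS y hy))

private theorem conn_union {H W : Set V} (hH : Conn G H) (hW : Conn G W) {h w : V} (hh : h ∈ H)
    (hw : w ∈ W) (e : G.Adj h w) : Conn G (H ∪ W) := by
  have h1 : ∀ x ∈ H ∪ W, Relation.ReflTransGen (EIn G (H ∪ W)) h x := by
    rintro x (hx | hx)
    · exact rtg_mono Set.subset_union_left (hH.2 h hh x hx)
    · exact Relation.ReflTransGen.head ⟨e, Or.inl hh, Or.inr hw⟩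
        (rtg_mono Set.subset_union_right (hW.2 w hw x hx))
  exact ⟨⟨h, Or.inl hh⟩, fun x hx y hy => (rtg_symm (h1 x hx)).trans (h1 y hy)⟩

private theorem ex_HW [Finite V] {S A : Set V} (hc : Conn G S)
    (h1 : (A ∩ S).Nonempty) (h2 : (S \ A).Nonempty) :
    ∃ H, IsP G S A H ∧ Conn G (S \ H) := by
  have hout : ∀ H, IsP G S A H → (S \ H).Nonempty := by
    rintro H (h | h)
    · obtain ⟨y, hy⟩ := h2
      exact ⟨y, hy.1, fun h' => hy.2 (h.sub h').1⟩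
    · obtain ⟨y, hy⟩ := h1
      exact ⟨y, hy.2, fun h' => (h.sub h').2 hy.1⟩
  have hne : {p : Set V × Set V | IsP G S A p.1 ∧ IsComp G (S \ p.1) p.2}.Nonempty := by
    obtain ⟨x, hx⟩ := hc.1
    obtain ⟨H, hH, -⟩ := ex_piece (G := G) (A := A) hx
    obtain ⟨y, hy⟩ := hout H hH
    exact ⟨(H, comp G (S \ H) y), hH, y, hy, rfl⟩
  obtain ⟨⟨H, W⟩, ⟨hH, hW⟩, hmax⟩ := Set.exists_max_image
    {p : Set V × Set V | IsP G S A p.1 ∧ IsComp G (S \ p.1) p.2} (fun p => p.2.ncard)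
    (Set.toFinite _) hne
  simp only at hH hW hmax
  refine ⟨H, hH, ?_⟩
  have hWS : W ⊆ S \ H := hW.sub
  suffices hall : S \ H ⊆ W by
    rw [Set.Subset.antisymm hall hWS]
    exact hW.conn
  intro x' hx'
  by_contra hx'W
  have hW' : IsComp G (S \ H) (comp G (S \ H) x') := ⟨x', hx', rfl⟩
  set W' := comp G (S \ H) x' with hWd
  have hx'W' : x' ∈ W' := comp_self hx'
  have hdis : ∀ z, z ∈ W → z ∉ W' := by
    intro z hz hz'
    have := hW.eq_of_inter hW' ⟨z, hz, hz'⟩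
    exact hx'W (this ▸ hx'W')
  obtain ⟨k, hk⟩ := hH.conn.1
  have hkS : k ∈ S := hH.sub hk
  -- edges from W, W' to H
  have hedge : ∀ X, IsComp G (S \ H) X → ∃ u ∈ X, ∃ v ∈ H, G.Adj u v := by
    intro X hX
    obtain ⟨z, hz⟩ := hX.conn.1
    obtain ⟨u, hu, v, hvS, hvX, -, e⟩ := ex_edge hc hz (hX.sub hz).1 hkS
      (fun h => (hX.sub h).2 hk)
    refine ⟨u, hu, v, ?_, e⟩
    by_contra hvH
    exact hX.nadj u hu v ⟨⟨hvS, hvH⟩, hvX⟩ e
  obtain ⟨w, hw, h, hh, ewh⟩ := hedge W hW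
  obtain ⟨w', hw', h', hh', -⟩ := hedge W' hW'
  obtain ⟨H', hH', hwH'⟩ := ex_piece (G := G) (A := A) (hW'.sub hw').1
  have hdH : ∀ z, z ∈ H → z ∉ H' := by
    intro z hz hz'
    have := hH.disj hH' hz hz'
    exact (hW'.sub hw').2 (this ▸ hwH')
  have hHW' : H' ⊆ W' := by
    refine hW'.absorb hH'.conn (fun z hz => ⟨hH'.sub hz, fun hzH => hdH z hzH hz⟩) ⟨w', hwH', hw'⟩
  have hU : Conn G (H ∪ W) := conn_union hH.conn hW.conn hh hw ewh.symm
  have hUs : H ∪ W ⊆ S \ H' := by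
    rintro z (hz | hz)
    · exact ⟨hH.sub hz, hdH z hz⟩
    · exact ⟨(hWS hz).1, fun h' => hdis z hz (hHW' h')⟩
  have hW2 : IsComp G (S \ H') (comp G (S \ H') k) := ⟨k, hUs (Or.inl hk), rfl⟩
  have hUW2 : H ∪ W ⊆ comp G (S \ H') k :=
    hW2.absorb hU hUs ⟨k, Or.inl hk, comp_self (hUs (Or.inl hk))⟩
  have hle := hmax (H', comp G (S \ H') k) ⟨hH', hW2⟩
  have hlt : W.ncard < (comp G (S \ H') k).ncard := by
    refine Set.ncard_lt_ncard ⟨fun z hz => hUW2 (Or.inr hz), fun hcon => ?_⟩ (Set.toFinite _)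
    exact (hWS (hcon (hUW2 (Or.inl hk)))).2 hk
  simp only at hle
  omega

private theorem piece_cocycle {S A H N : Set V} (hH : IsP G S A H) (hN : IsP G S A N)
    (hd : ∀ z, z ∈ H → z ∉ N) :
    (fun x y => if EIn G S x y ∧ ((x ∈ H ∧ y ∈ N) ∨ (x ∈ N ∧ y ∈ H)) then (1 : ZMod 2) else 0)
      ∈ Z1 G S := by
  refine mem_Z1.2 ⟨fun x y h => if_neg fun h' => h h'.1, fun x y => ?_, fun x y z e1 e2 e3 => ?_⟩
  · by_cases h : EIn G S x y ∧ ((x ∈ H ∧ y ∈ N) ∨ (x ∈ N ∧ y ∈ H))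
    · have h' : EIn G S y x ∧ ((y ∈ H ∧ x ∈ N) ∨ (y ∈ N ∧ x ∈ H)) :=
        ⟨h.1.symm, h.2.elim (fun t => Or.inr ⟨t.2, t.1⟩) fun t => Or.inl ⟨t.2, t.1⟩⟩
      rw [if_pos h, if_pos h']
    · have h' : ¬ (EIn G S y x ∧ ((y ∈ H ∧ x ∈ N) ∨ (y ∈ N ∧ x ∈ H))) := fun h' =>
        h ⟨h'.1.symm, h'.2.elim (fun t => Or.inr ⟨t.2, t.1⟩) fun t => Or.inl ⟨t.2, t.1⟩⟩
      rw [if_neg h, if_neg h']
  · have c1 : (x ∈ A ↔ y ∈ A) ∨ (y ∈ A ↔ z ∈ A) ∨ (x ∈ A ↔ z ∈ A) := by tauto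
    have c2 : ((x ∈ H ↔ y ∈ H) ∧ (x ∈ N ↔ y ∈ N)) ∨ ((y ∈ H ↔ z ∈ H) ∧ (y ∈ N ↔ z ∈ N)) ∨
        ((x ∈ H ↔ z ∈ H) ∧ (x ∈ N ↔ z ∈ N)) := by
      rcases c1 with c | c | c
      · exact Or.inl ⟨hH.same e1.2.1 e1.2.2 e1.1 c, hN.same e1.2.1 e1.2.2 e1.1 c⟩
      · exact Or.inr (Or.inl ⟨hH.same e2.2.1 e2.2.2 e2.1 c, hN.same e2.2.1 e2.2.2 e2.1 c⟩)
      · exact Or.inr (Or.inr ⟨hH.same e3.2.1 e3.2.2 e3.1 c, hN.same e3.2.1 e3.2.2 e3.1 c⟩)
    have dx := hd x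
    have dy := hd y
    have dz := hd z
    simp only [e1, e2, e3, true_and]
    have h11 : (1 : ZMod 2) + 1 = 0 := by decide
    by_cases xH : x ∈ H <;> by_cases xN : x ∈ N <;> by_cases yH : y ∈ H <;>
      by_cases yN : y ∈ N <;> by_cases zH : z ∈ H <;> by_cases zN : z ∈ N <;>
      simp only [xH, xN, yH, yN, zH, zN, and_true, and_false, or_true, or_false, if_true,
        if_false, add_zero, zero_add, h11, or_self, iff_true, iff_false, not_true,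
        not_false_iff, forall_true_left, and_self] at c2 dx dy dz ⊢

theorem leaf_ex [Finite V] {S A : Set V} (hS : Surf G S) (hc : Conn G S) (hz : HZ G S)
    (h1 : (A ∩ S).Nonempty) (h2 : (S \ A).Nonempty) :
    ∃ H N, ((IsComp G (A ∩ S) H ∧ IsComp G (S \ A) N) ∨
        (IsComp G (S \ A) H ∧ IsComp G (A ∩ S) N)) ∧ HZ G H ∧
      (∀ x ∈ H, ∀ y ∈ S, G.Adj x y → y ∈ H ∨ y ∈ N) ∧ ∃ x ∈ H, ∃ y ∈ N, G.Adj x y := by
  obtain ⟨H, hH, hW⟩ := ex_HW hc h1 h2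
  obtain ⟨k, hk⟩ := hH.conn.1
  obtain ⟨l, hl⟩ := hW.1
  obtain ⟨x0, hx0, y0, hy0S, hy0H, hx0S, e0⟩ := ex_edge hc hk (hH.sub hk) hl.1 hl.2
  obtain ⟨N, hN, hy0N⟩ := ex_piece (G := G) (A := A) hy0S
  have hd : ∀ z, z ∈ H → z ∉ N := by
    intro z hz hz'
    exact hy0H (hH.disj hN hz hz' ▸ hy0N)
  have hcol : (IsComp G (A ∩ S) H ∧ IsComp G (S \ A) N) ∨
      (IsComp G (S \ A) H ∧ IsComp G (A ∩ S) N) := by
    rcases hH with h | h <;> rcases hN with h' | h'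
    · exact absurd ((IsP.same (Or.inl h) hx0S hy0S e0
        (iff_of_true (h.sub hx0).1 (h'.sub hy0N).1)).1 hx0) hy0H
    · exact Or.inl ⟨h, h'⟩
    · exact Or.inr ⟨h, h'⟩
    · exact absurd ((IsP.same (Or.inr h) hx0S hy0S e0
        (iff_of_false (h.sub hx0).2 (h'.sub hy0N).2)).1 hx0) hy0H
  refine ⟨H, N, hcol, disc_HZ hS hz hH.sub hW, ?_, x0, hx0, y0, hy0N, e0⟩
  intro x hx y hy e
  by_contra hcon
  rw [not_or] at hcon
  obtain ⟨g, hg'⟩ := hz _ (piece_cocycle hH hN hd)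
  have hg : ∀ x y, EIn G S x y → (if EIn G S x y ∧ ((x ∈ H ∧ y ∈ N) ∨ (x ∈ N ∧ y ∈ H)) then
    (1 : ZMod 2) else 0) = g x + g y := hg'
  have gW : ∀ u ∈ S \ H, ∀ v ∈ S \ H, g u = g v := by
    intro u hu v hv
    refine hW.const (fun s t est => ?_) hu hv
    have := hg s t ⟨est.1, est.2.1.1, est.2.2.1⟩
    rw [if_neg] at this
    · exact (z2_eq _ _).1 this.symm
    · rintro ⟨-, h | h⟩
      · exact est.2.1.2 h.1
      · exact est.2.2.2 h.2
  have gH : ∀ u ∈ H, ∀ v ∈ H, g u = g v := by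
    intro u hu v hv
    refine hH.conn.const (fun s t est => ?_) hu hv
    have := hg s t ⟨est.1, hH.sub est.2.1, hH.sub est.2.2⟩
    rw [if_neg] at this
    · exact (z2_eq _ _).1 this.symm
    · rintro ⟨-, h | h⟩
      · exact hd t est.2.2 h.2
      · exact hd s est.2.1 h.1
  have a1 := hg x0 y0 ⟨e0, hx0S, hy0S⟩
  rw [if_pos ⟨⟨e0, hx0S, hy0S⟩, Or.inl ⟨hx0, hy0N⟩⟩] at a1
  have a2 := hg x y ⟨e, hH.sub hx, hy⟩
  rw [if_neg] at a2
  · have b1 : g x = g y := (z2_eq _ _).1 a2.symm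
    have b2 := gH x0 hx0 x hx
    have b3 := gW y0 ⟨hy0S, hy0H⟩ y ⟨hy, hcon.1⟩
    rw [b2, b1, b3, two_add] at a1
    exact one_ne_zero a1
  · rintro ⟨-, h | h⟩
    · exact hcon.2 h.2
    · exact hcon.1 h.2

/-- number of mixed pairs of `A` in `S` -/
def mx2 (G : SimpleGraph V) (S A : Set V) : ℕ :=
  {p : V × V | EIn G S p.1 p.2 ∧ p.1 ∈ A ∧ p.2 ∉ A}.ncard

theorem mx2_compl [Finite V] (S A : Set V) : mx2 G S Aᶜ = mx2 G S A := by
  unfold mx2
  have e : {p : V × V | EIn G S p.1 p.2 ∧ p.1 ∈ Aᶜ ∧ p.2 ∉ Aᶜ} =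
      Prod.swap '' {p : V × V | EIn G S p.1 p.2 ∧ p.1 ∈ A ∧ p.2 ∉ A} := by
    ext p
    constructor
    · rintro ⟨h, h1, h2⟩
      exact ⟨(p.2, p.1), ⟨h.symm, not_not.1 h2, h1⟩, rfl⟩
    · rintro ⟨q, ⟨h, h1, h2⟩, rfl⟩
      exact ⟨h.symm, h2, not_not.2 h1⟩
  rw [e, Set.ncard_image_of_injective _ Prod.swap_injective]

theorem mx2_lt [Finite V] {S A H : Set V} (hH : IsComp G (A ∩ S) H)
    (he : ∃ x ∈ H, ∃ y ∈ S \ A, G.Adj x y) : mx2 G S (A \ H) < mx2 G S A := by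
  obtain ⟨x, hx, y, hy, e⟩ := he
  unfold mx2
  refine Set.ncard_lt_ncard ⟨?_, fun hcon => ?_⟩ (Set.toFinite _)
  · rintro p ⟨h, h1, h2⟩
    refine ⟨h, h1.1, fun h3 => ?_⟩
    have h4 : p.2 ∈ H := by
      by_contra h4
      exact h2 ⟨h3, h4⟩
    exact hH.nadj p.2 h4 p.1 ⟨⟨h1.1, h.2.1⟩, h1.2⟩ h.1.symm
  · have h3 : ((x, y) : V × V) ∈ {p : V × V | EIn G S p.1 p.2 ∧ p.1 ∈ A ∧ p.2 ∉ A} :=
      ⟨⟨e, (hH.sub hx).2, hy.1⟩, (hH.sub hx).1, hy.2⟩
    exact (hcon h3).2.1.2 hx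

theorem mx2_zero [Finite V] {S A : Set V} (hc : Conn G S) (h : mx2 G S A = 0) :
    S ⊆ A ∨ Disjoint S A := by
  have h0 : {p : V × V | EIn G S p.1 p.2 ∧ p.1 ∈ A ∧ p.2 ∉ A} = ∅ :=
    (Set.ncard_eq_zero (Set.toFinite _)).1 h
  by_cases hx : ∃ x ∈ S, x ∈ A
  · obtain ⟨x, hxS, hxA⟩ := hx
    left
    intro y hy
    have h1 := hc.2 x hxS y hy
    induction h1 with
    | refl => exact hxA
    | @tail b c _ e ih =>
      by_contra hcA
      have h3 : ((b, c) : V × V) ∈ {p : V × V | EIn G S p.1 p.2 ∧ p.1 ∈ A ∧ p.2 ∉ A} :=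
        ⟨e, ih e.2.1, hcA⟩
      rw [h0] at h3
      exact h3
  · right
    rw [Set.disjoint_left]
    intro x hxS hxA
    exact hx ⟨x, hxS, hxA⟩

end MOT
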