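import Pool.Agent.MOT.EaDef
import Pool.Agent.MOT.Dua
import Pool.Agent.MOT.Srf
import Pool.Agent.MOT.TlE
import Pool.Agent.MOT.TlI
import Pool.Agent.MOT.PaDsk

/-!
# MOT/EaT: discs in spheres: complement, leaf lemma (block E, helper98)
-/

open Classical

noncomputable section

namespace MOT.Ea

variable {V : Type} {G : SimpleGraph V} {l : V → ℕ} {m i : ℕ} {rho : ℕ → V} {S T E C : Set V}

theorem compl_le (l : V → ℕ) (i : ℕ) : {x : V | l x ≤ i}ᶜ = {x | i < l x} := by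
  ext x; simp

/-- the surface between two layers is a sphere -/
theorem Lay.FF_surf [Finite V] (L : Lay G m l rho) (i : ℕ) : Surf (sd G) (FF G l i) :=
  surf_Fr L.sph

theorem Lay.FF_conn [Finite V] (L : Lay G m l rho) (hi : i < m) : Conn (sd G) (FF G l i) :=
  Fr_Conn L.sph (L.dc i hi) (by rw [compl_le]; exact L.uc i hi)

theorem Lay.FF_hz [Finite V] (L : Lay G m l rho) (hi : i < m) : HZ (sd G) (FF G l i) := by
  unfold FF
  rw [← b1_eq_zero, b1_Fr L.sph, bb, compl_le, b1_eq_zero.2 (L.dh i hi), b1_eq_zero.2 (L.uh i hi)]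

/-- the complement of a disc in a sphere is a disc -/
theorem sphere_compl [Finite V] (hS : Surf G S) (hc : Conn G S) (hz : HZ G S) (hC : C ⊆ S)
    (h1 : Conn G C) (h2 : HZ G C) (hne : C ≠ S) : Conn G (S \ C) ∧ HZ G (S \ C) := by
  refine ⟨Pa.dsk_compl hS hc hC h1 h2 hne, disc_HZ hS hz Set.sdiff_subset ?_⟩
  have : S \ (S \ C) = C := by
    ext x
    simp only [Set.mem_sdiff]
    constructor
    · rintro ⟨h, h'⟩; by_contra h''; exact h' ⟨h, h''⟩
    · intro h; exact ⟨hC h, fun h' => h'.2 h⟩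
  rw [this]
  exact h1

/-- pieces -/
private def EaP (G : SimpleGraph V) (S T H : Set V) : Prop := IsComp G T H ∨ IsComp G (S \ T) H

private theorem EaP.conn {H : Set V} (h : EaP G S T H) : Conn G H := by
  rcases h with h | h
  · exact h.conn
  · exact h.conn

private theorem EaP.sub {H : Set V} (hT : T ⊆ S) (h : EaP G S T H) : H ⊆ S := by
  rcases h with h | h
  · exact h.sub.trans hT
  · exact h.sub.trans Set.sdiff_subset

private theorem EaP.disj {H H' : Set V} (h : EaP G S T H) (h' : EaP G S T H') {x : V}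
    (hx : x ∈ H) (hx' : x ∈ H') : H = H' := by
  rcases h with h | h <;> rcases h' with h' | h'
  · exact h.eq_of_inter h' ⟨x, hx, hx'⟩
  · exact absurd (h.sub hx) (h'.sub hx').2
  · exact absurd (h'.sub hx') (h.sub hx).2
  · exact h.eq_of_inter h' ⟨x, hx, hx'⟩

private theorem eat_piece {x : V} (hx : x ∈ S) : ∃ H, EaP G S T H ∧ x ∈ H := by
  by_cases h : x ∈ T
  · exact ⟨comp G T x, Or.inl ⟨x, h, rfl⟩, comp_self h⟩
  · exact ⟨comp G (S \ T) x, Or.inr ⟨x, ⟨hx, h⟩, rfl⟩, comp_self ⟨hx, h⟩⟩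

/-- an edge leaving a proper nonempty part of a connected set -/
private theorem eat_edge {B : Set V} (hc : Conn G S) {x y : V} (hx : x ∈ B) (hxS : x ∈ S)
    (hy : y ∈ S) (hyB : y ∉ B) : ∃ u ∈ B, ∃ v ∈ S, v ∉ B ∧ u ∈ S ∧ G.Adj u v := by
  by_contra hcon
  have h1 : ∀ z, Relation.ReflTransGen (EIn G S) x z → z ∈ B := by
    intro z hz
    induction hz with
    | refl => exact hx
    | tail _ e ih =>
      by_contra h
      exact hcon ⟨_, ih, _, e.2.2, h, e.2.1, e.1⟩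
  exact hyB (h1 y (hc.2 x hxS y hy))

private theorem eat_union {H W : Set V} (hH : Conn G H) (hW : Conn G W) {h w : V} (hh : h ∈ H)
    (hw : w ∈ W) (e : G.Adj h w) : Conn G (H ∪ W) := by
  have h1 : ∀ x ∈ H ∪ W, Relation.ReflTransGen (EIn G (H ∪ W)) h x := by
    rintro x (hx | hx)
    · exact rtg_mono Set.subset_union_left (hH.2 h hh x hx)
    · exact Relation.ReflTransGen.head ⟨e, Or.inl hh, Or.inr hw⟩
        (rtg_mono Set.subset_union_right (hW.2 w hw x hx))
  exact ⟨⟨h, Or.inl hh⟩, fun x hx y hy => (rtg_symm (h1 x hx)).trans (h1 y hy)⟩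

private theorem eat_ex [Finite V] (hc : Conn G S) (hT : T ⊆ S) (hne : T.Nonempty) {e0 : V}
    (he : e0 ∈ S \ T) : ∃ H, EaP G S T H ∧ e0 ∉ H ∧ Conn G (S \ H) := by
  have hne' : {H : Set V | EaP G S T H ∧ e0 ∉ H}.Nonempty := by
    obtain ⟨t, ht⟩ := hne
    exact ⟨comp G T t, Or.inl ⟨t, ht, rfl⟩, fun h => he.2 (comp_sub h)⟩
  obtain ⟨H, ⟨hH, heH⟩, hmax⟩ := Set.exists_max_image {H : Set V | EaP G S T H ∧ e0 ∉ H}
    (fun H => (comp G (S \ H) e0).ncard) (Set.toFinite _) hne'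
  refine ⟨H, hH, heH, ?_⟩
  have heS : e0 ∈ S \ H := ⟨he.1, heH⟩
  have hW : IsComp G (S \ H) (comp G (S \ H) e0) := ⟨e0, heS, rfl⟩
  set W := comp G (S \ H) e0 with hWd
  have heW : e0 ∈ W := comp_self heS
  have hWS : W ⊆ S \ H := hW.sub
  suffices hall : S \ H ⊆ W by
    rw [Set.Subset.antisymm hall hWS]
    exact hW.conn
  intro x' hx'
  by_contra hx'W
  have hW' : IsComp G (S \ H) (comp G (S \ H) x') := ⟨x', hx', rfl⟩
  set W' := comp G (S \ H) x' with hWd'
  have hx'W' : x' ∈ W' := comp_self hx'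
  have hdis : ∀ z, z ∈ W → z ∉ W' := by
    intro z hz hz'
    have := hW.eq_of_inter hW' ⟨z, hz, hz'⟩
    exact hx'W (this ▸ hx'W')
  obtain ⟨k, hk⟩ := hH.conn.1
  have hkS : k ∈ S := hH.sub hT hk
  obtain ⟨w, hw, h, hhS, hhW, -, ewh⟩ := eat_edge hc heW heS.1 hkS
    (fun h => (hW.sub h).2 hk)
  have hh : h ∈ H := by
    by_contra hvH
    exact hW.nadj w hw h ⟨⟨hhS, hvH⟩, hhW⟩ ewh
  obtain ⟨H', hH', hwH'⟩ := eat_piece (G := G) (T := T) hx'.1
  have hdH : ∀ z, z ∈ H → z ∉ H' := by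
    intro z hz hz'
    have := hH.disj hH' hz hz'
    exact hx'.2 (this ▸ hwH')
  have hHW' : H' ⊆ W' := by
    refine hW'.absorb hH'.conn (fun z hz => ⟨hH'.sub hT hz, fun hzH => hdH z hzH hz⟩)
      ⟨x', hwH', hx'W'⟩
  have hU : Conn G (H ∪ W) := eat_union hH.conn hW.conn hh hw ewh.symm
  have hUs : H ∪ W ⊆ S \ H' := by
    rintro z (hz | hz)
    · exact ⟨hH.sub hT hz, hdH z hz⟩
    · exact ⟨(hWS hz).1, fun h' => hdis z hz (hHW' h')⟩
  have heH' : e0 ∉ H' := fun h' => hdis e0 heW (hHW' h')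
  have hW2 : IsComp G (S \ H') (comp G (S \ H') e0) := ⟨e0, ⟨he.1, heH'⟩, rfl⟩
  have hUW2 : H ∪ W ⊆ comp G (S \ H') e0 :=
    hW2.absorb hU hUs ⟨e0, Or.inr heW, comp_self ⟨he.1, heH'⟩⟩
  have hle := hmax H' ⟨hH', heH'⟩
  have hlt : W.ncard < (comp G (S \ H') e0).ncard := by
    refine Set.ncard_lt_ncard ⟨fun z hz => hUW2 (Or.inr hz), fun hcon => ?_⟩ (Set.toFinite _)
    exact (hWS (hcon (hUW2 (Or.inl hk)))).2 hk
  omega

/-- LEAF LEMMA.  `S` a sphere, `T ⊆ S` nonempty, no component of `T` has `H^1 = 0`, `E ⊆ S \ T`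
connected.  Then `S \ T` has a component `H` which is a disc and misses `E`.
Sketch (as `ex_HW` in MOT/TlE): pieces := components of `T` and components of `S \ T`; `E'` := the
component of `S \ T` which contains `E`.  Among the pieces `H ≠ E'` (there is one, `T` is nonempty) take one
for which the component `W` of `S \ H` which contains `E'` is largest.  If `S \ H ≠ W`, there is another
component `W'` of `S \ H`; it contains a piece `H' ≠ E'` (a piece meeting `W'` is in `S \ H`, connected);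
`H ∪ W` is connected and in `S \ H'`, so the component of `S \ H'` which contains `E'` is larger.  So `S \ H`
is connected, `HZ G H` by `disc_HZ`, so `H` is not a component of `T`. -/
theorem leaf_disc [Finite V] (hS : Surf G S) (hc : Conn G S) (hz : HZ G S) (hT : T ⊆ S)
    (hne : T.Nonempty) (hE : Conn G E) (hES : E ⊆ S \ T)
    (hno : ∀ D, IsComp G T D → ¬ HZ G D) :
    ∃ H, IsComp G (S \ T) H ∧ Disjoint H E ∧ HZ G H ∧ Conn G (S \ H) := by
  obtain ⟨e0, he0⟩ := hE.1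
  obtain ⟨H, hH, heH, hcc⟩ := eat_ex hc hT hne (hES he0)
  have hHZ : HZ G H := disc_HZ hS hz (hH.sub hT) hcc
  rcases hH with hH | hH
  · exact absurd hHZ (hno H hH)
  · refine ⟨H, hH, ?_, hHZ, hcc⟩
    rw [Set.disjoint_left]
    intro x hx hxE
    exact heH (hH.absorb hE hES ⟨x, hxE, hx⟩ he0)

end MOT.Ea
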