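import Pool.Agent.MOT.DuaB
import Pool.Agent.MOT.Cv

/-!
# MOT/Sf1: frontiers in surfaces are disjoint circles; `cut2`
-/

open Classical

noncomputable section

namespace MOT

variable {V : Type} {G : SimpleGraph V} {A B M S P : Set V}

theorem Surf.card_le (hS : Surf G S) {s : Cq G} (hs : s ∈ mi G S) : s.1.card ≤ 3 :=
  hS.k4 s.1 s.2.2 (fun x hx => hs x hx)

/-- elements of `FrIn` have 2 or 3 vertices -/
theorem FrIn_card (hS : Surf G S) {s : Cq G} (hs : s ∈ FrIn G S P) :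
    s.1.card = 2 ∨ s.1.card = 3 := by
  obtain ⟨⟨h1, x, hx, hxP⟩, y, hy, hyP⟩ := hs
  have h3 := hS.card_le h1
  have h2 : 1 < s.1.card := Finset.one_lt_card.2 ⟨x, hx, y, hy, fun h => hyP (h ▸ hxP)⟩
  omega

/-- neighbours in the frontier of a mixed edge: the two triangles -/
theorem FrIn_nb2 (hS : Surf G S) {s : Cq G} (hs : s ∈ FrIn G S P) (h2 : s.1.card = 2) :
    {t | EIn (sd G) (FrIn G S P) s t} = {t : Cq G | t ∈ mi G S ∧ s < t} := by
  ext t
  constructor
  · rintro ⟨a, -, ht⟩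
    refine ⟨ht.1.1, ?_⟩
    rcases a with a | a
    · exact a
    · exfalso
      have h1 := Finset.card_lt_card (Cq.lt_iff.1 a)
      have := FrIn_card hS ht
      omega
  · rintro ⟨h1, a⟩
    obtain ⟨⟨-, x, hx, hxP⟩, y, hy, hyP⟩ := id hs
    exact ⟨Or.inl a, hs, ⟨h1, x, (Cq.lt_iff.1 a).1 hx, hxP⟩, y, (Cq.lt_iff.1 a).1 hy, hyP⟩

/-- neighbours in the frontier of a mixed triangle: its two mixed edges -/
theorem FrIn_nb3 (hS : Surf G S) {s : Cq G} (hs : s ∈ FrIn G S P) (h3 : s.1.card = 3) :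
    {t | EIn (sd G) (FrIn G S P) s t} = {t : Cq G | t ∈ FrIn G S P ∧ t < s} := by
  ext t
  constructor
  · rintro ⟨a, -, ht⟩
    refine ⟨ht, ?_⟩
    rcases a with a | a
    · exfalso
      have h1 := Finset.card_lt_card (Cq.lt_iff.1 a)
      have := FrIn_card hS ht
      omega
    · exact a
  · rintro ⟨ht, a⟩
    exact ⟨Or.inr a, hs, ht⟩

/-- every element of the frontier has exactly two neighbours in it -/
theorem FrIn_two [Finite V] (hS : Surf G S) {s : Cq G} (hs : s ∈ FrIn G S P) :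
    {t | EIn (sd G) (FrIn G S P) s t}.ncard = 2 := by
  have hval : Function.Injective (fun t : Cq G => t.1) := fun _ _ h => Subtype.ext h
  rcases FrIn_card hS hs with h2 | h3
  · rw [FrIn_nb2 hS hs h2, ← Set.ncard_image_of_injective _ hval]
    have hsub : (s.1 : Set V) ⊆ S := fun x hx => hs.1.1 x hx
    have himg : (fun t : Cq G => t.1) '' {t : Cq G | t ∈ mi G S ∧ s < t} =
        {t : Finset V | t.card = 2 + 1 ∧ G.IsClique (t : Set V) ∧ (t : Set V) ⊆ S ∧ s.1 ⊆ t} := by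
      ext t
      constructor
      · rintro ⟨t, ⟨h1, a⟩, rfl⟩
        have h4 := Finset.card_lt_card (Cq.lt_iff.1 a)
        have h5 := hS.card_le h1
        exact ⟨by show t.1.card = 3; omega, t.2.2, fun x hx => h1 x hx, (Cq.lt_iff.1 a).1⟩
      · rintro ⟨c1, c2, c3, c4⟩
        have hne : t.Nonempty := Finset.card_pos.1 (by omega)
        refine ⟨⟨t, hne, c2⟩, ⟨fun x hx => c3 hx, Cq.lt_iff.2 ?_⟩, rfl⟩
        refine ⟨c4, fun h => ?_⟩
        have := Finset.card_le_card h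
        simp only at this
        omega
    rw [himg, star_ncard s.1 2 h2 s.2.2 hsub]
    obtain ⟨u, v, huv, hs'⟩ := Finset.card_eq_two.1 h2
    have hu : u ∈ s.1 := by rw [hs']; simp
    have hv : v ∈ s.1 := by rw [hs']; simp
    have e : EIn G S u v := ⟨s.2.2 (Finset.mem_coe.2 hu) (Finset.mem_coe.2 hv) huv,
      hs.1.1 u hu, hs.1.1 v hv⟩
    have := (hS.edge e).1
    rw [hs']
    rwa [show (({u, v} : Finset V) : Set V) = {u, v} by simp]
  · rw [FrIn_nb3 hS hs h3, ← Set.ncard_image_of_injective _ hval]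
    have hm : s.1 ∈ mxk G S P 3 := ⟨⟨h3, s.2.2, fun x hx => hs.1.1 x hx⟩, hs.1.2, hs.2⟩
    have h1 := mixed_edges_tri hm
    rw [← Set.ncard_coe_finset] at h1
    rw [← h1]
    congr 1
    ext t
    simp only [Finset.coe_filter, Set.Finite.mem_toFinset]
    constructor
    · rintro ⟨t, ⟨h1, a⟩, rfl⟩
      have h4 := Finset.card_lt_card (Cq.lt_iff.1 a)
      have h5 := FrIn_card hS h1
      exact ⟨⟨⟨by show t.1.card = 2; omega, t.2.2, fun x hx => h1.1.1 x hx⟩, h1.1.2, h1.2⟩,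
        (Cq.lt_iff.1 a).1⟩
    · rintro ⟨⟨⟨c1, c2, c3⟩, c4, c5⟩, c6⟩
      have hne : t.Nonempty := Finset.card_pos.1 (by omega)
      refine ⟨⟨t, hne, c2⟩, ⟨⟨⟨fun x hx => c3 hx, c4⟩, c5⟩, Cq.lt_iff.2 ?_⟩, rfl⟩
      refine ⟨c6, fun h => ?_⟩
      have := Finset.card_le_card h
      simp only at this
      omega

/-- no triangles in the frontier -/
theorem FrIn_no_tri (hS : Surf G S) {s t u : Cq G} (e1 : EIn (sd G) (FrIn G S P) s t)
    (e2 : EIn (sd G) (FrIn G S P) t u) (e3 : EIn (sd G) (FrIn G S P) s u) : False := by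
  have c1 := FrIn_card hS e1.2.1
  have c2 := FrIn_card hS e1.2.2
  have c3 := FrIn_card hS e2.2.2
  have d : ∀ s t : Cq G, (sd G).Adj s t → s.1.card ≠ t.1.card := by
    rintro s t (a | a)
    · exact (Finset.card_lt_card (Cq.lt_iff.1 a)).ne
    · exact (Finset.card_lt_card (Cq.lt_iff.1 a)).ne'
  have d1 := d _ _ e1.1
  have d2 := d _ _ e2.1
  have d3 := d _ _ e3.1
  omega

/-- Euler count in a surface -/
theorem cut2 [Finite V] (hS : Surf G S) (hc : Conn G S) (hA : A ⊆ S) (h1 : A.Nonempty)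
    (h2 : A ≠ S) : b1 G A + b1 G (S \ A) + 2 = b0 G A + b0 G (S \ A) + b1 G S := by
  have e1 := surf_chi_add hS hA
  have e2 := surf_chi_part hS hc hA h2
  have e3 := surf_chi_part hS hc (A := S \ A) Set.sdiff_subset (by
    intro h
    obtain ⟨x, hx⟩ := h1
    have : x ∈ S \ A := by rw [h]; exact hA hx
    exact this.2 hx)
  have e4 := surf_chi hS hc
  omega

/-- a proper nonempty part of a connected set has a mixed edge -/
theorem FrIn_nonempty (hc : Conn G S) (hA : A ⊆ S) (h1 : A.Nonempty) (h2 : A ≠ S) :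
    ∃ x y, EIn G S x y ∧ x ∈ A ∧ y ∉ A := by
  by_contra hn
  push Not at hn
  have hf := (Conn_iff.1 hc).2 (fun x => if x ∈ A then 1 else 0) (by
    intro x y e
    by_cases hx : x ∈ A
    · by_cases hy : y ∈ A
      · simp [hx, hy]
      · exact absurd (hn x y e hx) hy
    · by_cases hy : y ∈ A
      · exact absurd (hn y x e.symm hy) hx
      · simp [hx, hy])
  obtain ⟨x, hx⟩ := h1
  obtain ⟨y, hy, hyA⟩ : ∃ y, y ∈ S ∧ y ∉ A := by
    by_contra h
    push Not at h
    exact h2 (Set.Subset.antisymm hA h)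
  have := hf x (hA hx) y hy
  simp only [hx, hyA, if_true, if_false] at this
  exact one_ne_zero this

theorem FrIn_ne (hc : Conn G S) (hA : A ⊆ S) (h1 : A.Nonempty) (h2 : A ≠ S) :
    (FrIn G S A).Nonempty := by
  obtain ⟨x, y, e, hx, hy⟩ := FrIn_nonempty hc hA h1 h2
  refine ⟨eg G e.1, ⟨⟨?_, x, by simp [eg], hx⟩, y, by simp [eg], hy⟩⟩
  intro u hu
  have hu' : u ∈ ({x, y} : Finset V) := hu
  simp only [Finset.mem_insert, Finset.mem_singleton] at hu'
  rcases hu' with rfl | rfl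
  · exact e.2.1
  · exact e.2.2

end MOT
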