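import Pool.Agent.MOT.EaA
import Pool.Agent.MOT.EaT
import Pool.Agent.MOT.Sf1
import Pool.Agent.MOT.Sdi

/-!
# MOT/EaE: the interface of `Nᶜ` and a part of `N` (block E, helper98)
-/

open Classical

noncomputable section

namespace MOT.Ea

variable {V : Type} {G : SimpleGraph V} {W N N0 N1 : Set V} {D : Set (Cq G)}

/-- `N` is split along the disc `D` into `N0`, `N1`; then the interface of `Nᶜ` and `N1` is a disc.
Sketch: `S := Fr G N1` is a surface (`surf_Fr`), connected (`Fr_Conn`), `HZ` (`b1_Fr`, `Acy.compl`).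
`C := Fr G N1 ∩ pl G N0`, `D ⊆ C`.  `tr N` (trace on `N`, MOT/Sdi) is a retraction of `C` to `D = EE G N0 N1`
(a simplex of `C` meets `N1` and `N0`), so `C` is connected and `HZ` (`ret_Conn`, `ret_HZ`, `sd G` is
`cmp (Cq G)`).  `S \ C = EE G Nᶜ N1` (`N0ᶜ = Nᶜ ∪ N1`).  It is nonempty: `N0ᶜ` is connected and meets
`N1` and `Nᶜ` (`FrIn_nonempty` of MOT/Sf1 gives an edge between them, `eg`).  `sphere_compl`. -/
theorem ee_disc [Finite V] (h3 : IsSph3 G) (h : Split G W N D N0 N1) (hN : Nᶜ.Nonempty)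
    (h0 : Conn G N0ᶜ) (h1 : Acy G N1) (hDc : Conn (sd G) D) (hDz : HZ (sd G) D) :
    Conn (sd G) (EE G Nᶜ N1) ∧ HZ (sd G) (EE G Nᶜ N1) := by
  have hS : Surf (sd G) (Fr G N1) := surf_Fr h3
  have hc : Conn (sd G) (Fr G N1) := Fr_Conn h3 h1.1 h1.2.2
  have hz : HZ (sd G) (Fr G N1) := by
    rw [← b1_eq_zero, b1_Fr h3, bb, b1_eq_zero.2 h1.2.1, b1_eq_zero.2 (Acy.compl h3 h1).2.1]
  have hin0 : ∀ x ∈ N0, x ∈ N := fun x hx => by rw [← h.un]; exact Or.inl hx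
  have hin1 : ∀ x ∈ N1, x ∈ N := fun x hx => by rw [← h.un]; exact Or.inr hx
  have hdj : ∀ x ∈ N0, x ∉ N1 := fun x hx hx' => Set.disjoint_left.1 h.dj hx hx'
  have hD : D = EE G N0 N1 := h.ee.symm
  have hDN : D ⊆ mi G N := by
    intro s hs
    rw [hD] at hs
    have := hs.1.1
    rwa [h.un] at this
  -- the retraction
  have r1 : D ⊆ Fr G N1 ∩ pl G N0 := by
    intro s hs
    rw [hD] at hs
    obtain ⟨⟨-, x, hx, hx0⟩, hs1⟩ := hs
    exact ⟨⟨hs1, x, hx, hdj x hx0⟩, x, hx, hx0⟩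
  have hpl : ∀ s ∈ Fr G N1 ∩ pl G N0, s ∈ pl G N := by
    rintro s ⟨-, x, hx, hx0⟩
    exact ⟨x, hx, hin0 x hx0⟩
  have r2 : ∀ s ∈ Fr G N1 ∩ pl G N0, tr N s ∈ D := by
    intro s hs
    have hv := tr_val (hpl s hs)
    have hm := tr_mem (hpl s hs)
    obtain ⟨⟨⟨y, hy, hy1⟩, -⟩, x, hx, hx0⟩ := hs
    rw [hD]
    refine ⟨⟨?_, x, ?_, hx0⟩, y, ?_, hy1⟩
    · rw [h.un]; exact hm
    · rw [hv]; exact Finset.mem_filter.2 ⟨hx, hin0 x hx0⟩
    · rw [hv]; exact Finset.mem_filter.2 ⟨hy, hin1 y hy1⟩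
  have r3 : ∀ s ∈ Fr G N1 ∩ pl G N0, tr N s ≤ s := fun s _ => tr_le s
  have r4 : ∀ s ∈ Fr G N1 ∩ pl G N0, ∀ t ∈ Fr G N1 ∩ pl G N0, s ≤ t → tr N s ≤ tr N t :=
    fun s hs _ _ hst => tr_mono (hpl s hs) hst
  have r5 : ∀ s ∈ D, tr N s = s := fun s hs => tr_id (hDN hs)
  have hCc : Conn (sd G) (Fr G N1 ∩ pl G N0) := (ret_Conn (tr N) r1 r2 r3 r4).2 hDc
  have hCz : HZ (sd G) (Fr G N1 ∩ pl G N0) := (ret_HZ (tr N) r1 r2 r3 r4 r5).2 hDz
  have e : Fr G N1 \ (Fr G N1 ∩ pl G N0) = EE G Nᶜ N1 := by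
    ext s
    constructor
    · rintro ⟨hs, hn⟩
      have hn0 : ∀ x ∈ s.1, x ∉ N0 := fun x hx hx0 => hn ⟨hs, x, hx, hx0⟩
      obtain ⟨hs1, y, hy, hy1⟩ := hs
      refine ⟨⟨?_, y, hy, ?_⟩, hs1⟩
      · intro x hx
        by_cases hx1 : x ∈ N1
        · exact Or.inr hx1
        · refine Or.inl fun hxN => ?_
          rw [← h.un] at hxN
          exact hxN.elim (hn0 x hx) hx1
      · intro hyN
        rw [← h.un] at hyN
        exact hyN.elim (hn0 y hy) hy1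
    · rintro ⟨⟨hs, y, hy, hyN⟩, hs1⟩
      refine ⟨⟨hs1, y, hy, fun hy1 => hyN (hin1 y hy1)⟩, ?_⟩
      rintro ⟨-, x, hx, hx0⟩
      rcases hs x hx with hxN | hx1
      · exact hxN (hin0 x hx0)
      · exact hdj x hx0 hx1
  have hne : Fr G N1 ∩ pl G N0 ≠ Fr G N1 := by
    obtain ⟨z, hz'⟩ := hN
    have hzN1 : z ∉ N1 := fun h' => hz' (hin1 z h')
    have hzN0 : z ∈ N0ᶜ := fun h' => hz' (hin0 z h')
    obtain ⟨x, y, hxy, hx, hy⟩ := FrIn_nonempty h0 (A := N1)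
      (fun x hx hx0 => hdj x hx0 hx) h.c1.1 (fun h' => hzN1 (by rw [h']; exact hzN0))
    intro h'
    have hmem : eg G hxy.1 ∈ Fr G N1 :=
      ⟨⟨x, by simp [eg], hx⟩, y, by simp [eg], hy⟩
    rw [← h'] at hmem
    obtain ⟨u, hu, hu0⟩ := hmem.2
    have hu' : u ∈ ({x, y} : Finset V) := hu
    simp only [Finset.mem_insert, Finset.mem_singleton] at hu'
    rcases hu' with rfl | rfl
    · exact hdj _ hu0 hx
    · exact hxy.2.2 hu0
  have := sphere_compl hS hc hz Set.inter_subset_left hCc hCz hne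
  rwa [e] at this

end MOT.Ea
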