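import Pool.Agent.MOT.EaL

/-!
# MOT/EaLa: the layering of the 16-cell by the third coordinate and its subdivisions (helper81)

`l = 0` at `- e3 = (3, false)`, `l = 2` at `e3 = (3, true)`, `l = 1` else; `rho = - e3, oo, e3, e3, ...`.
`lay_tw`: a layering of `(tw (cell16 R) n).G` with a vertical path from the pole `- e3` to the pole `e3`
which is not near except for the poles (`itv`: iterated `vx`).
-/

open Classical

noncomputable section

namespace MOT.Ea

/-- the vertex `x` of level `0` on level `n` -/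
def itv (K : Lv) (x : K.V) : (n : ℕ) → (tw K n).V
  | 0 => x
  | n + 1 => vx (tw K n).G (itv K x n)

/-- third coordinate of the 16-cell -/
def l16 (x : Fin 4 × Bool) : ℕ := if x.1 = 3 then (if x.2 then 2 else 0) else 1

/-- vertical path of the 16-cell -/
def r16 (i : ℕ) : Fin 4 × Bool := if i = 0 then (3, false) else if i = 1 then (0, true) else (3, true)

private theorem adj16 {R : ℝ} {x y : Fin 4 × Bool} : (cell16 R).G.Adj x y ↔ x.1 ≠ y.1 := Iff.rfl

private theorem l0 {x : Fin 4 × Bool} : l16 x = 0 ↔ x = (3, false) := by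
  revert x; decide

private theorem l2 {x : Fin 4 × Bool} : l16 x = 2 ↔ x = (3, true) := by
  revert x; decide

private theorem l1 {x : Fin 4 × Bool} : l16 x = 1 ↔ x.1 ≠ 3 := by
  revert x; decide

private theorem ll {x : Fin 4 × Bool} : l16 x ≤ 2 := by
  revert x; decide

private theorem l0' (x : Fin 4 × Bool) : l16 x ≤ 0 ↔ x = (3, false) := by
  revert x; decide

private theorem l2' (x : Fin 4 × Bool) : 1 < l16 x ↔ x = (3, true) := by
  revert x; decide

private theorem two_nc (R : ℝ) (i : Fin 4) : ({x | x.1 = i} : Set (cell16 R).V).ncard = 2 := by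
  have : ({x | x.1 = i} : Set (Fin 4 × Bool)) = {(i, false), (i, true)} := by
    ext ⟨a, b⟩
    cases b <;> simp
  show ({x | x.1 = i} : Set (Fin 4 × Bool)).ncard = 2
  rw [this]
  exact Set.ncard_pair (by simp)

private theorem surf16 (R : ℝ) : Surf (cell16 R).G {x | l16 x = 1} where
  lk x hx := by
    have hx' : x.1 ≠ 3 := l1.1 hx
    have key : ∀ a : Fin 4, a ≠ 3 → ∃ b c : Fin 4, b ≠ c ∧
        ∀ d : Fin 4, (a ≠ d ∧ d ≠ 3) ↔ (d = b ∨ d = c) := by decide
    obtain ⟨b, c, hbc, hd⟩ := key x.1 hx'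
    have e : Lk (cell16 R).G {x} ∩ {y | l16 y = 1} =
        ({y | y.1 = b} : Set (cell16 R).V) ∪ {y | y.1 = c} := by
      ext y
      constructor
      · rintro ⟨h1, h2⟩
        exact (hd y.1).1 ⟨h1 x rfl, l1.1 h2⟩
      · intro h1
        have h2 := (hd y.1).2 h1
        refine ⟨?_, l1.2 h2.2⟩
        intro z hz
        have hz' : z = x := hz
        rw [hz']; exact h2.1
    rw [e]
    refine join_cyc (two_nc R b) (two_nc R c) ?_ ?_ ?_
    · intro y hy z hz h
      exact h ((show y.1 = b from hy).trans (show z.1 = b from hz).symm)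
    · intro y hy z hz h
      exact h ((show y.1 = c from hy).trans (show z.1 = c from hz).symm)
    · intro y hy z hz h
      exact hbc ((show y.1 = b from hy).symm.trans (h.trans (show z.1 = c from hz)))
  k4 s hs hS := by
    have h1 : s.card = (s.image (fun x : Fin 4 × Bool => x.1)).card := by
      refine (Finset.card_image_of_injOn ?_).symm
      intro x hx y hy hxy
      by_contra hne
      exact hs hx hy hne hxy
    rw [h1]
    have h2 : s.image (fun x : Fin 4 × Bool => x.1) ⊆ ({0, 1, 2} : Finset (Fin 4)) := by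
      intro a ha
      obtain ⟨x, hx, rfl⟩ := Finset.mem_image.1 ha
      have h3 : x.1 ≠ 3 := l1.1 (hS (Finset.mem_coe.2 hx))
      revert h3
      generalize x.1 = a
      revert a
      decide
    exact (Finset.card_le_card h2).trans (by decide)

private theorem pt (R : ℝ) (a : Fin 4 × Bool) (A : Set (cell16 R).V) (h : ∀ x, x ∈ A ↔ x = a) :
    Conn (cell16 R).G A ∧ HZ (cell16 R).G A :=
  ⟨cone_Conn (x := a) ((h a).2 rfl) fun y hy hne => absurd ((h y).1 hy) hne,
    cone_HZ (x := a) ((h a).2 rfl) fun y hy hne => absurd ((h y).1 hy) hne⟩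

private theorem con (R : ℝ) (a : Fin 4 × Bool) (A : Set (cell16 R).V) (ha : a ∈ A)
    (h : ∀ x ∈ A, x ≠ a → a.1 ≠ x.1) : Conn (cell16 R).G A ∧ HZ (cell16 R).G A :=
  ⟨cone_Conn (x := a) ha fun y hy hne => h y hy hne,
    cone_HZ (x := a) ha fun y hy hne => h y hy hne⟩

private theorem oct (R : ℝ) : Conn (cell16 R).G {x | l16 x = 1} ∧ HZ (cell16 R).G {x | l16 x = 1} := by
  have e : ({x | l16 x = 1} : Set (cell16 R).V) =
      (({x | x.1 = 0} ∪ {x | x.1 = 1} : Set (cell16 R).V)) ∪ {x | x.1 = 2} := by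
    ext x
    show l16 x = 1 ↔ (x.1 = 0 ∨ x.1 = 1) ∨ x.1 = 2
    revert x
    show ∀ x : Fin 4 × Bool, _
    decide
  have h1 : ∀ x ∈ (({x | x.1 = 0} ∪ {x | x.1 = 1} : Set (cell16 R).V)),
      ∀ y ∈ ({x | x.1 = 2} : Set (cell16 R).V), (cell16 R).G.Adj x y := by
    intro x hx y hy
    rw [adj16, show y.1 = 2 from hy]
    rcases hx with hx | hx
    · rw [show x.1 = 0 from hx]; decide
    · rw [show x.1 = 1 from hx]; decide
  have n0 : ({x | x.1 = 0} : Set (cell16 R).V).Nonempty := ⟨((0, true) : Fin 4 × Bool), rfl⟩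
  have n1 : ({x | x.1 = 1} : Set (cell16 R).V).Nonempty := ⟨((1, true) : Fin 4 × Bool), rfl⟩
  have n2 : ({x | x.1 = 2} : Set (cell16 R).V).Nonempty := ⟨((2, true) : Fin 4 × Bool), rfl⟩
  rw [e]
  refine ⟨join_Conn h1 (n0.mono Set.subset_union_left) n2, join_HZ h1 ?_ n2⟩
  refine join_Conn ?_ n0 n1
  intro x hx y hy
  rw [adj16, show x.1 = 0 from hx, show y.1 = 1 from hy]; decide

private theorem cases3 (i : ℕ) (hi : i ≤ 2) : i = 0 ∨ i = 1 ∨ i = 2 := by omega

private theorem wall16 (R : ℝ) : Wall (cell16 R).G {x | l16 x = 1} {x | l16 x < 1} {x | 1 < l16 x} where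
  cover := by
    ext x
    simp only [Set.mem_union, Set.mem_ofPred_eq, Set.mem_univ, iff_true]
    omega
  dqp := Set.disjoint_left.2 fun x hx hy => by
    have h1 : l16 x = 1 := hx
    have h2 : l16 x < 1 := hy
    omega
  dqn := Set.disjoint_left.2 fun x hx hy => by
    have h1 : l16 x = 1 := hx
    have h2 : 1 < l16 x := hy
    omega
  dpn := Set.disjoint_left.2 fun x hx hy => by
    have h1 : l16 x < 1 := hx
    have h2 : 1 < l16 x := hy
    omega
  nadj := by
    intro x hx y hy h
    have h1 : l16 x < 1 := hx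
    have h2 : 1 < l16 y := hy
    have h3 := l0.1 (show l16 x = 0 by omega)
    have h4 := l2.1 (show l16 y = 2 by have := ll (x := y); omega)
    subst h3 h4
    exact h rfl
  surf := surf16 R
  hp s hn hs hS := by
    refine pt R (3, false) _ fun x => ?_
    constructor
    · rintro ⟨h1, h2⟩
      have h3 : l16 x < 1 := h2
      exact l0.1 (by omega)
    · rintro rfl
      refine ⟨fun z hz => ?_, (show l16 (3, false) < 1 by decide)⟩
      exact l1.1 (hS hz)
  hn s hn hs hS := by
    refine pt R (3, true) _ fun x => ?_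
    constructor
    · rintro ⟨h1, h2⟩
      have h3 : 1 < l16 x := h2
      exact l2.1 (by have := ll (x := x); omega)
    · rintro rfl
      refine ⟨fun z hz => ?_, (show 1 < l16 (3, true) by decide)⟩
      exact l1.1 (hS hz)

theorem lay16 (R : ℝ) : Lay (cell16 R).G 2 l16 r16 where
  sph := cell16_sph3 R
  le x := ll
  two := le_rfl
  lip x y _ := by
    have : ∀ x y : Fin 4 × Bool, x.1 ≠ y.1 → l16 x ≤ l16 y + 1 := by decide
    exact this x y ‹_›
  bot x hx := l0.1 hx
  top x hx := l2.1 hx
  wall i h0 h2 := by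
    obtain rfl : i = 1 := by omega
    exact wall16 R
  lc i hi := by
    rcases cases3 i hi with rfl | rfl | rfl
    · exact (pt R (3, false) _ fun x => l0).1
    · exact (oct R).1
    · exact (pt R (3, true) _ fun x => l2).1
  lh i hi := by
    rcases cases3 i hi with rfl | rfl | rfl
    · exact (pt R (3, false) _ fun x => l0).2
    · exact (oct R).2
    · exact (pt R (3, true) _ fun x => l2).2
  dc i hi := by
    rcases cases3 i hi.le with rfl | rfl | rfl
    · exact (pt R (3, false) _ l0').1
    · refine (con R (3, false) _ (show l16 (3, false) ≤ 1 by decide) ?_).1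
      have : ∀ x : Fin 4 × Bool, l16 x ≤ 1 → x ≠ (3, false) → (3 : Fin 4) ≠ x.1 := by decide
      exact this
    · omega
  dh i hi := by
    rcases cases3 i hi.le with rfl | rfl | rfl
    · exact (pt R (3, false) _ l0').2
    · refine (con R (3, false) _ (show l16 (3, false) ≤ 1 by decide) ?_).2
      have : ∀ x : Fin 4 × Bool, l16 x ≤ 1 → x ≠ (3, false) → (3 : Fin 4) ≠ x.1 := by decide
      exact this
    · omega
  uc i hi := by
    rcases cases3 i hi.le with rfl | rfl | rfl
    · refine (con R (3, true) _ (show 0 < l16 (3, true) by decide) ?_).1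
      have : ∀ x : Fin 4 × Bool, 0 < l16 x → x ≠ (3, true) → (3 : Fin 4) ≠ x.1 := by decide
      exact this
    · exact (pt R (3, true) _ l2').1
    · omega
  uh i hi := by
    rcases cases3 i hi.le with rfl | rfl | rfl
    · refine (con R (3, true) _ (show 0 < l16 (3, true) by decide) ?_).2
      have : ∀ x : Fin 4 × Bool, 0 < l16 x → x ≠ (3, true) → (3 : Fin 4) ≠ x.1 := by decide
      exact this
    · exact (pt R (3, true) _ l2').2
    · omega
  rl i hi := by
    rcases cases3 i hi with rfl | rfl | rfl <;> decide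
  ra i hi := by
    rcases cases3 i hi.le with rfl | rfl | rfl
    · show (r16 0).1 ≠ (r16 1).1; decide
    · show (r16 1).1 ≠ (r16 2).1; decide
    · omega

/-- main statement: the layering of level `n` -/
theorem lay_tw (R : ℝ) (n : ℕ) : ∃ (m : ℕ) (l : (tw (cell16 R) n).V → ℕ)
    (rho : ℕ → (tw (cell16 R) n).V), Lay (tw (cell16 R) n).G m l rho ∧
      rho 0 = itv (cell16 R) ((3, false) : Fin 4 × Bool) n ∧
      (∀ i, m ≤ i → rho i = itv (cell16 R) ((3, true) : Fin 4 × Bool) n) ∧
      ∀ i, 0 < i → i < m → rho i ∉ (tw (cell16 R) n).near := by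
  induction n with
  | zero =>
    refine ⟨2, l16, r16, lay16 R, rfl, fun i hi => ?_, fun i h0 h2 => ?_⟩
    · show r16 i = _
      unfold r16
      rw [if_neg (by omega), if_neg (by omega)]
      rfl
    · obtain rfl : i = 1 := by omega
      intro h
      exact h rfl
  | succ n ih =>
    obtain ⟨m, l, rho, h, h0, h1, h2⟩ := ih
    have : Finite (tw (cell16 R) n).V := (tw (cell16 R) n).fin
    refine ⟨2 * m, lsd (G := (tw (cell16 R) n).G) l, rhs (tw (cell16 R) n).G rho, Lay_sd h, ?_,
      fun i hi => ?_, fun i hi0 him => ?_⟩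
    · have e := rhs_even (G := (tw (cell16 R) n).G) (rho := rho) 0
      rw [Nat.mul_zero] at e
      rw [e, h0]; rfl
    · obtain ⟨j, hj | hj⟩ : ∃ j, i = 2 * j ∨ i = 2 * j + 1 := ⟨i / 2, by omega⟩
      · subst hj
        rw [rhs_even, h1 j (by omega)]; rfl
      · subst hj
        rw [rhs_odd]
        unfold re
        rw [dif_neg (by rw [h1 j (by omega), h1 (j + 1) (by omega)]; exact SimpleGraph.irrefl _),
          h1 j (by omega)]; rfl
    · obtain ⟨j, hj | hj⟩ : ∃ j, i = 2 * j ∨ i = 2 * j + 1 := ⟨i / 2, by omega⟩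
      · subst hj
        rw [rhs_even]
        intro h3
        exact h2 j (by omega) (by omega) (h3 (rho j) (mem_vx.2 rfl))
      · subst hj
        rw [rhs_odd]
        intro h3
        have ha := h.ra j (by omega)
        have hm := h.two
        by_cases hj : j = 0
        · exact h2 (j + 1) (by omega) (by omega) (h3 _ ((mem_re ha).2 (Or.inr rfl)))
        · exact h2 j (by omega) (by omega) (h3 _ ((mem_re ha).2 (Or.inl rfl)))

end MOT.Ea
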