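import Pool.Agent.MOT.St3

/-!
# MOT/St4: compactness, Lebesgue number: fine stars go into stars (helper18, block C1)
-/

open Classical

noncomputable section

namespace MOT

theorem Rl_closed {V : Type} [Finite V] {G : SimpleGraph V} {A : Set V} : IsClosed (Rl G A) := by
  have := Fintype.ofFinite V
  have e : Rl G A = (⋂ x : V, {c : V → ℝ | 0 ≤ c x}) ∩ {c | ∑ x, c x = 1} ∩
      (⋂ x : V, {c | x ∉ A → c x = 0}) ∩
      (⋂ x : V, ⋂ y : V, {c | x ≠ y → ¬ G.Adj x y → c x * c y = 0}) := by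
    ext c
    simp only [Rl, finsum_eq_sum_of_fintype, Set.mem_ofPred_eq, Set.mem_inter_iff, Set.mem_iInter]
    constructor
    · rintro ⟨h1, h2, h3, h4⟩
      refine ⟨⟨⟨h1, h2⟩, fun x hx => ?_⟩, fun x y hne hadj => ?_⟩
      · by_contra h
        exact hx (h3 x h)
      · by_contra h
        exact hadj (h4 x y (left_ne_zero_of_mul h) (right_ne_zero_of_mul h) hne)
    · rintro ⟨⟨⟨h1, h2⟩, h3⟩, h4⟩
      refine ⟨h1, h2, fun x hx => ?_, fun x y hx hy hne => ?_⟩
      · by_contra h
        exact hx (h3 x h)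
      · by_contra h
        exact (mul_ne_zero hx hy) (h4 x y hne h)
  rw [e]
  have c : ∀ x : V, Continuous fun c : V → ℝ => c x := fun x => continuous_apply x
  refine ((IsClosed.inter (isClosed_iInter fun x => isClosed_le continuous_const (c x))
    (isClosed_eq (continuous_finsetSum _ fun x _ => c x) continuous_const)).inter
    (isClosed_iInter fun x => ?_)).inter (isClosed_iInter fun x => isClosed_iInter fun y => ?_)
  · by_cases h : x ∈ A
    · simp [h]
    · simp only [h, not_false_eq_true, true_implies]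
      exact isClosed_eq (c x) continuous_const
  · by_cases h : x ≠ y ∧ ¬ G.Adj x y
    · simp only [h.1, h.2, not_false_eq_true, ne_eq, true_implies]
      exact isClosed_eq ((c x).mul (c y)) continuous_const
    · have : {c : V → ℝ | x ≠ y → ¬ G.Adj x y → c x * c y = 0} = Set.univ := by
        ext c
        simp only [Set.mem_ofPred_eq, Set.mem_univ, iff_true]
        exact fun h1 h2 => absurd ⟨h1, h2⟩ h
      rw [this]
      exact isClosed_univ

theorem Rl_le_one {V : Type} [Finite V] {G : SimpleGraph V} {A : Set V} {c : V → ℝ}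
    (hc : c ∈ Rl G A) (x : V) : c x ≤ 1 := by
  have := Fintype.ofFinite V
  have h := hc.2.1
  rw [finsum_eq_sum_of_fintype] at h
  rw [← h]
  exact Finset.single_le_sum (f := c) (fun y _ => hc.1 y) (Finset.mem_univ x)

theorem Rl_compact {V : Type} [Finite V] {G : SimpleGraph V} {A : Set V} : IsCompact (Rl G A) := by
  refine IsCompact.of_isClosed_subset (isCompact_Icc (a := (0 : V → ℝ)) (b := 1)) Rl_closed ?_
  intro c hc
  exact ⟨fun x => hc.1 x, fun x => Rl_le_one hc x⟩

/-- for a continuous map between realisations the fine stars go into stars -/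
theorem star_map {K K' : Lv} (hk : ∀ s : Finset K.V, K.G.IsClique (s : Set K.V) → s.card ≤ 4)
    {F : (K.V → ℝ) → K'.V → ℝ} (hF : ContinuousOn F (Re K.G)) (hm : Set.MapsTo F (Re K.G) (Re K'.G))
    (m : ℕ) : ∃ n0, ∀ n, n0 ≤ n → ∀ x : (tw K n).V, ∃ v : (tw K' m).V,
      ∀ y ∈ ost K n x, F y ∈ ost K' m v := by
  have := Fintype.ofFinite K.V
  have h1 : ∀ v : (tw K' m).V, ∃ U : Set (K.V → ℝ), IsOpen U ∧ F ⁻¹' {y | 0 < co K' m y v} ∩
      Re K.G = U ∩ Re K.G := fun v => by
    exact continuousOn_iff'.1 hF _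
      (isOpen_lt continuous_const ((continuous_apply v).comp (continuous_co m)))
  choose U hU hUe using h1
  have hcov : Re K.G ⊆ ⋃ v, U v := by
    intro y hy
    obtain ⟨v, hv⟩ := ost_cover (hm hy) m
    have h2 : y ∈ F ⁻¹' {y | 0 < co K' m y v} ∩ Re K.G := ⟨hv.2, hy⟩
    rw [hUe v] at h2
    exact Set.mem_iUnion.2 ⟨v, h2.1⟩
  obtain ⟨δ, hδ, hL⟩ := lebesgue_number_lemma_of_metric Rl_compact hU hcov
  obtain ⟨n0, hn0⟩ := exists_pow_lt_of_lt_one hδ (by norm_num : (3 / 4 : ℝ) < 1)
  refine ⟨n0, fun n hn x => ?_⟩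
  obtain ⟨v, hv⟩ := hL (pt K n x) (pt_mem n x)
  refine ⟨v, fun y hy => ⟨hm hy.1, ?_⟩⟩
  have h3 : y ∈ Metric.ball (pt K n x) δ := by
    rw [Metric.mem_ball, dist_pi_lt_iff hδ]
    intro z
    rw [Real.dist_eq]
    refine lt_of_le_of_lt (mesh_ost hk n hy z) (lt_of_le_of_lt ?_ hn0)
    exact pow_le_pow_of_le_one (by norm_num) (by norm_num) hn
  have h4 : y ∈ U v ∩ Re K.G := ⟨hv h3, hy.1⟩
  rw [← hUe v] at h4
  exact h4.1

end MOT
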