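import Pool.Agent.MOT.EbS
import Pool.Agent.MOT.Ret
import Pool.Agent.MOT.St4
import Pool.Agent.MOT.Sph

/-!
# MOT/EbR: the closure rules of block E (helper86): `ball_rules`

`two_discs`: for disjoint `X`, `Y` the sphere `Fr X` is the union of the discs `pl X ∩ pl Y` and
`pl X ∩ pl (X ∪ Y)ᶜ` with the common boundary `pl X ∩ pl Y ∩ pl (X ∪ Y)ᶜ`.
`r2` is `Ball.glue`, `rt` is `glue_ext`, `r0` is `sphere_of_discs` and the cone with apex `vx x`.
-/

open Classical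

noncomputable section

namespace MOT

open Ea

variable {V : Type} {G : SimpleGraph V}

private theorem mem_eg {x y z : V} (h : G.Adj x y) : z ∈ (eg G h).1 ↔ z = x ∨ z = y := by
  show z ∈ ({x, y} : Finset V) ↔ _
  rw [Finset.mem_insert, Finset.mem_singleton]

/-- an edge between the two parts of a connected set -/
private theorem cross {A B : Set V} (h : Conn G (A ∪ B)) (hd : Disjoint A B) (hA : A.Nonempty)
    (hB : B.Nonempty) : ∃ x ∈ A, ∃ y ∈ B, G.Adj x y := by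
  obtain ⟨x, y, e, hx, hy⟩ := FrIn_nonempty h Set.subset_union_left hA (by
    intro he
    obtain ⟨b, hb⟩ := hB
    have : b ∈ A := by rw [he]; exact Or.inr hb
    exact Set.disjoint_left.1 hd this hb)
  rcases e.2.2 with h1 | h1
  · exact absurd h1 hy
  · exact ⟨x, hx, y, h1, e.1⟩

private theorem compl_dec {X Y : Set V} (hd : Disjoint X Y) : Xᶜ = Y ∪ (X ∪ Y)ᶜ := by
  ext v
  have h : v ∈ X → v ∉ Y := fun h1 h2 => Set.disjoint_left.1 hd h1 h2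
  simp only [Set.mem_compl_iff, Set.mem_union]
  tauto

private theorem compl_cc {X Y : Set V} (hd : Disjoint X Y) : (X ∪ (X ∪ Y)ᶜ)ᶜ = Y := by
  ext v
  have h : v ∈ X → v ∉ Y := fun h1 h2 => Set.disjoint_left.1 hd h1 h2
  simp only [Set.mem_compl_iff, Set.mem_union]
  tauto

private theorem dis_cc {X Y : Set V} : Disjoint X (X ∪ Y)ᶜ :=
  Set.disjoint_left.2 fun _ h h' => h' (Or.inl h)

/-- the frontier of `X` as a union -/
private theorem Fr_dec {X Y : Set V} (hd : Disjoint X Y) :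
    Fr G X = (pl G X ∩ pl G Y) ∪ (pl G X ∩ pl G (X ∪ Y)ᶜ) := by
  unfold Fr
  conv_lhs => rw [compl_dec hd]
  rw [pl_union, Set.inter_union_distrib_left]

private theorem Rl_Fr [Finite V] {X Y : Set V} (hd : Disjoint X Y) :
    Rl (sd G) (Fr G X) =
      Rl (sd G) (pl G X ∩ pl G Y) ∪ Rl (sd G) (pl G X ∩ pl G (X ∪ Y)ᶜ) := by
  rw [Fr_dec hd]
  exact Rl_up_union pl2_up pl2_up

/-- the sphere `Fr X` is divided by `pl Y` in two discs -/
theorem two_discs [Finite V] (hG : IsSph3 G) {X Y : Set V} (hd : Disjoint X Y)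
    (hs : Conn (sd G) (Fr G X)) (hs' : HZ (sd G) (Fr G X))
    (hc : Conn (sd G) (pl G X ∩ pl G Y)) (hz : HZ (sd G) (pl G X ∩ pl G Y))
    (hne : ∃ s ∈ Fr G X, s ∉ pl G Y) :
    Ball 2 (Rl (sd G) (pl G X ∩ pl G Y)) (Rl (sd G) (pl G X ∩ pl G Y ∩ pl G (X ∪ Y)ᶜ)) ∧
    Ball 2 (Rl (sd G) (pl G X ∩ pl G (X ∪ Y)ᶜ))
      (Rl (sd G) (pl G X ∩ pl G Y ∩ pl G (X ∪ Y)ᶜ)) := by
  obtain ⟨h1, h2, h3⟩ := cmp_disc hG hd hs hs' hc hz hne
  refine ⟨disc_ball hG hd hc hz h3, ?_⟩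
  have h4 : pl G X ∩ pl G (X ∪ Y)ᶜ ∩ pl G (X ∪ (X ∪ Y)ᶜ)ᶜ =
      pl G X ∩ pl G Y ∩ pl G (X ∪ Y)ᶜ := by
    rw [compl_cc hd, Set.inter_assoc, Set.inter_comm (pl G (X ∪ Y)ᶜ), ← Set.inter_assoc]
  have h5 := disc_ball hG dis_cc h1 h2 (by rw [h4]; exact h3)
  rw [h4] at h5
  exact h5

/-- rule r2 -/
theorem rule_r2 [Finite V] (hG : IsSph3 G) {X Y : Set V} (hd : Disjoint X Y) (hX : Acy G X)
    (hY : Acy G Y) (hXY : Acy G (X ∪ Y)) (hc : Conn (sd G) (EE G X Y))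
    (hz : HZ (sd G) (EE G X Y)) (bX : BB G X) (bY : BB G Y) : BB G (X ∪ Y) := by
  obtain ⟨hc', hz'⟩ := ee_disc hd hc hz
  have hcYX : (Y ∪ X)ᶜ = (X ∪ Y)ᶜ := by rw [Set.union_comm]
  have key : ∀ {X Y : Set V}, Disjoint X Y → Acy G X → Acy G Y → Acy G (X ∪ Y) →
      ∃ s ∈ Fr G X, s ∉ pl G Y := by
    intro X Y hd hX hY hXY
    have e : Yᶜ = X ∪ (X ∪ Y)ᶜ := by
      rw [compl_dec hd.symm, Set.union_comm Y X]
    obtain ⟨x, hx, z, hz, hxz⟩ := cross (G := G) (A := X) (B := (X ∪ Y)ᶜ) (by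
      rw [← e]; exact hY.2.2) dis_cc hX.1.1 hXY.2.2.1
    refine ⟨eg G hxz, ⟨⟨x, (mem_eg hxz).2 (Or.inl rfl), hx⟩,
      ⟨z, (mem_eg hxz).2 (Or.inr rfl), fun h => hz (Or.inl h)⟩⟩, ?_⟩
    rintro ⟨w, hw, hwY⟩
    rcases (mem_eg hxz).1 hw with rfl | rfl
    · exact Set.disjoint_left.1 hd hx hwY
    · exact hz (Or.inr hwY)
  obtain ⟨s1, s2⟩ := fr_sphere hG hX
  obtain ⟨t1, t2⟩ := fr_sphere hG hY
  obtain ⟨d1, d2⟩ := two_discs hG hd s1 s2 hc' hz' (key hd hX hY hXY)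
  have eI : pl G Y ∩ pl G X = pl G X ∩ pl G Y := Set.inter_comm _ _
  obtain ⟨-, d3⟩ := two_discs hG hd.symm t1 t2 (by rw [eI]; exact hc') (by rw [eI]; exact hz')
    (key hd.symm hY hX (by rw [Set.union_comm]; exact hXY))
  rw [eI, hcYX] at d3
  unfold BB at bX bY ⊢
  rw [Rl_Fr hd] at bX
  rw [Rl_Fr hd.symm, eI, hcYX] at bY
  have g := Ball.glue bX bY (Rl_inter _ _) d1 d2 d3
    (by rw [Rl_inter]; congr 1; ext s; simp only [Set.mem_inter_iff]; tauto)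
    (by rw [Rl_inter]; congr 1; ext s; simp only [Set.mem_inter_iff]; tauto)
  rw [← Rl_up_union pl_up pl_up, ← Rl_up_union pl2_up pl2_up, ← pl_union,
    ← Set.union_inter_distrib_right, ← pl_union] at g
  exact g

/-- rule rt -/
theorem rule_rt [Finite V] (hG : IsSph3 G) {U C W : Set V} (dUC : Disjoint U C)
    (dCW : Disjoint C W) (dUW : Disjoint U W) (hn : NAdj G U W) (hC : Acy G C)
    (hCW : Acy G (C ∪ W)) (hUC : Acy G (U ∪ C)) (hUCW : Acy G (U ∪ C ∪ W))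
    (hc : Conn (sd G) (EE G U C)) (hz : HZ (sd G) (EE G U C)) (bC : BB G C)
    (bCW : BB G (C ∪ W)) : BB G (U ∪ C) ↔ BB G (U ∪ C ∪ W) := by
  rcases Set.eq_empty_or_nonempty W with rfl | hW
  · rw [Set.union_empty]
  obtain ⟨hc', hz'⟩ := ee_disc dUC hc hz
  rw [Set.inter_comm] at hc' hz'
  have dCU := dUC.symm
  have dXU : Disjoint (C ∪ W) U := Set.disjoint_union_left.2 ⟨dCU, dUW.symm⟩
  -- no simplex meets `U` and `W`
  have hUW : pl G U ∩ pl G W = ∅ := by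
    refine Set.eq_empty_of_forall_notMem ?_
    rintro s ⟨⟨x, hx, hxU⟩, y, hy, hyW⟩
    have hne : x ≠ y := by
      rintro rfl
      exact Set.disjoint_left.1 dUW hxU hyW
    exact hn x hxU y hyW (s.2.2 hx hy hne)
  have eCU : pl G (C ∪ W) ∩ pl G U = pl G C ∩ pl G U := by
    rw [pl_union, Set.union_inter_distrib_right, Set.inter_comm (pl G W), hUW, Set.union_empty]
  -- the outside
  have eZ : (U ∪ C)ᶜ = W ∪ (U ∪ C ∪ W)ᶜ :=
    compl_dec (X := U ∪ C) (Y := W) (Set.disjoint_union_left.2 ⟨dUW, dCW⟩)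
  have eUZ : pl G U ∩ pl G (U ∪ C)ᶜ = pl G U ∩ pl G (U ∪ C ∪ W)ᶜ := by
    rw [eZ, pl_union, Set.inter_union_distrib_left, hUW, Set.empty_union]
  have e1 : (C ∪ U)ᶜ = (U ∪ C)ᶜ := by rw [Set.union_comm]
  have e2 : (C ∪ W ∪ U)ᶜ = (U ∪ C ∪ W)ᶜ := by rw [Set.union_comm, Set.union_assoc]
  -- the discs
  obtain ⟨s1, s2⟩ := fr_sphere hG hC
  obtain ⟨t1, t2⟩ := fr_sphere hG hCW
  obtain ⟨d1, d2⟩ := two_discs hG dCU s1 s2 hc' hz' (by
    obtain ⟨x, hx, y, hy, hxy⟩ := cross hCW.1 dCW hC.1.1 hW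
    refine ⟨eg G hxy, ⟨⟨x, (mem_eg hxy).2 (Or.inl rfl), hx⟩,
      ⟨y, (mem_eg hxy).2 (Or.inr rfl), fun h => Set.disjoint_left.1 dCW h hy⟩⟩, ?_⟩
    rintro ⟨w, hw, hwU⟩
    rcases (mem_eg hxy).1 hw with rfl | rfl
    · exact Set.disjoint_left.1 dUC hwU hx
    · exact Set.disjoint_left.1 dUW hwU hy)
  obtain ⟨-, d3⟩ := two_discs hG dXU t1 t2 (by rw [eCU]; exact hc') (by rw [eCU]; exact hz') (by
    have h0 : Conn G (W ∪ (U ∪ C ∪ W)ᶜ) := by rw [← eZ]; exact hUC.2.2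
    obtain ⟨x, hx, y, hy, hxy⟩ := cross h0
      (Set.disjoint_left.2 fun v h h' => h' (Or.inr h)) hW hUCW.2.2.1
    refine ⟨eg G hxy, ⟨⟨x, (mem_eg hxy).2 (Or.inl rfl), Or.inr hx⟩,
      ⟨y, (mem_eg hxy).2 (Or.inr rfl), ?_⟩⟩, ?_⟩
    · rintro (h | h)
      · exact hy (Or.inl (Or.inr h))
      · exact hy (Or.inr h)
    · rintro ⟨w, hw, hwU⟩
      rcases (mem_eg hxy).1 hw with rfl | rfl
      · exact Set.disjoint_left.1 dUW hwU hx
      · exact hy (Or.inl (Or.inl hwU)))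
  have eR : pl G C ∩ pl G U ∩ pl G (U ∪ C ∪ W)ᶜ = pl G C ∩ pl G U ∩ pl G (U ∪ C)ᶜ := by
    rw [Set.inter_assoc, Set.inter_assoc, eUZ]
  rw [e1] at d1 d2
  rw [e2, eCU, eR] at d3
  have bC' := bC
  have bCW' := bCW
  unfold BB at bC' bCW'
  rw [Rl_Fr dCU, e1] at bC'
  rw [Rl_Fr dXU, eCU, e2] at bCW'
  have eX0 : pl G U ∩ pl G (C ∪ W) = pl G C ∩ pl G U := by rw [Set.inter_comm, eCU]
  obtain ⟨f, g, hf, hf0, hf1⟩ := glue_ext (X₀ := Rl (sd G) (pl G U)) Rl_closed bC' bCW' d1 d2 d3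
    (by rw [Rl_inter]; congr 1; ext s; simp only [Set.mem_inter_iff]; tauto)
    (by
      rw [Rl_inter, ← eR]; congr 1
      rw [← eCU]; ext s; simp only [Set.mem_inter_iff]; tauto)
    (by rw [Rl_inter, Set.inter_comm])
    (by rw [Rl_inter, eX0])
  rw [← Rl_up_union pl_up pl_up, ← Rl_up_union pl_up pl_up, ← pl_union, ← pl_union,
    ← Set.union_assoc] at hf
  have eB : Rl (sd G) (Fr G (U ∪ C)) = Rl (sd G) (pl G U ∩ pl G (U ∪ C)ᶜ) ∪
      Rl (sd G) (pl G C ∩ pl G (U ∪ C)ᶜ) := by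
    rw [← Rl_up_union pl2_up pl2_up, ← Set.union_inter_distrib_right, ← pl_union]
    rfl
  have eB' : Rl (sd G) (Fr G (U ∪ C ∪ W)) = Rl (sd G) (pl G U ∩ pl G (U ∪ C)ᶜ) ∪
      Rl (sd G) (pl G (C ∪ W) ∩ pl G (U ∪ C ∪ W)ᶜ) := by
    rw [eUZ, ← Rl_up_union pl2_up pl2_up, ← Set.union_inter_distrib_right, ← pl_union,
      ← Set.union_assoc]
    rfl
  refine PPair.ball (n := 3) ⟨Rl_mono Set.inter_subset_left, f, g, hf, ?_⟩
  rw [eB, eB', Set.image_union, hf1]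
  congr 1
  have h6 : ∀ x ∈ Rl (sd G) (pl G U ∩ pl G (U ∪ C)ᶜ), f x = id x := fun x hx =>
    hf0 x (Rl_mono Set.inter_subset_left hx)
  rw [Set.image_congr h6, Set.image_id]

/-- rule r0 -/
theorem rule_r0 [Finite V] (hG : IsSph3 G) (x : V) : BB G {x} := by
  -- the frontier is the set above the vertex
  have eF : Fr G {x} = {t | vx G x < t} := by
    ext t
    constructor
    · rintro ⟨⟨y, hy, hyx⟩, z, hz, hzx⟩
      have hyx' : y = x := hyx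
      subst hyx'
      refine Cq.lt_iff.2 ⟨?_, ?_⟩
      · intro w hw
        have : w = y := Finset.mem_singleton.1 hw
        rw [this]; exact hy
      · intro h
        exact hzx (Finset.mem_singleton.1 (h hz))
    · intro h
      have h1 := Cq.lt_iff.1 h
      have hx : x ∈ t.1 := h1.1 (Finset.mem_singleton_self x)
      refine ⟨⟨x, hx, rfl⟩, ?_⟩
      obtain ⟨z, hz, hz'⟩ := Finset.exists_of_ssubset h1
      exact ⟨z, hz, fun h' => hz' (Finset.mem_singleton.2 h')⟩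
  have eL : ((vx G x).1 : Set V) = {x} := Finset.coe_singleton x
  have hs : Conn (sd G) (Fr G {x}) := by
    rw [eF, above_Conn, eL]; exact (hG.vert x).1
  have hs' : HZ (sd G) (Fr G {x}) := by
    rw [eF, above_HZ, eL]; exact (hG.vert x).2
  -- a neighbour, and another one
  obtain ⟨y, hy⟩ := (hG.vert x).1.1
  have hxy : G.Adj x y := hy x rfl
  obtain ⟨z, hz⟩ := (hG.edge {x, y} (by
    intro u hu v hv huv
    simp only [Finset.coe_insert, Finset.coe_singleton, Set.mem_insert_iff,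
      Set.mem_singleton_iff] at hu hv
    rcases hu with rfl | rfl <;> rcases hv with rfl | rfl
    · exact absurd rfl huv
    · exact hxy
    · exact hxy.symm
    · exact absurd rfl huv) (Finset.card_pair hxy.ne)).1.1
  have hxz : G.Adj x z := hz x (by simp)
  have hyz : G.Adj y z := hz y (by simp)
  have hd : Disjoint ({x} : Set V) {y} := Set.disjoint_singleton.2 hxy.ne
  have eXY : ∀ s : Cq G, s ∈ pl G {x} ∩ pl G {y} ↔ x ∈ s.1 ∧ y ∈ s.1 := by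
    intro s
    constructor
    · rintro ⟨⟨u, hu, hux⟩, v, hv, hvy⟩
      have e1 : u = x := hux
      have e2 : v = y := hvy
      subst e1; subst e2
      exact ⟨hu, hv⟩
    · rintro ⟨h1, h2⟩
      exact ⟨⟨x, h1, rfl⟩, y, h2, rfl⟩
  have hb : eg G hxy ∈ pl G {x} ∩ pl G {y} :=
    (eXY _).2 ⟨(mem_eg hxy).2 (Or.inl rfl), (mem_eg hxy).2 (Or.inr rfl)⟩
  have hle : ∀ s ∈ pl G {x} ∩ pl G {y}, eg G hxy ≤ s := by
    intro s hs
    obtain ⟨h1, h2⟩ := (eXY s).1 hs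
    intro w hw
    rcases (mem_eg hxy).1 hw with rfl | rfl
    · exact h1
    · exact h2
  obtain ⟨d1, d2⟩ := two_discs hG hd hs hs' (bot_Conn hb hle) (bot_HZ hb hle) (by
    refine ⟨eg G hxz, ⟨⟨x, (mem_eg hxz).2 (Or.inl rfl), rfl⟩,
      ⟨z, (mem_eg hxz).2 (Or.inr rfl), fun h => hxz.ne h.symm⟩⟩, ?_⟩
    rintro ⟨w, hw, hwy⟩
    have hwy' : w = y := hwy
    subst hwy'
    rcases (mem_eg hxz).1 hw with h | h
    · exact hxy.ne h.symm
    · exact hyz.ne h)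
  obtain ⟨φ, ψ, hφ⟩ := sphere_of_discs d1 d2 (by
    rw [Rl_inter]; congr 1; ext s; simp only [Set.mem_inter_iff]; tauto)
  rw [← Rl_Fr hd] at hφ
  have eP : pl G {x} = insert (vx G x) (Fr G {x}) := by
    ext s
    constructor
    · rintro ⟨u, hu, hux⟩
      have e1 : u = x := hux
      subst e1
      by_cases h : ∃ v ∈ s.1, v ≠ u
      · obtain ⟨v, hv, hvu⟩ := h
        exact Or.inr ⟨⟨u, hu, rfl⟩, v, hv, hvu⟩
      · left
        push Not at h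
        refine Subtype.ext ?_
        show s.1 = {u}
        exact Finset.eq_singleton_iff_unique_mem.2 ⟨hu, h⟩
    · rintro (rfl | h)
      · exact ⟨x, Finset.mem_singleton_self x, rfl⟩
      · exact h.1
  unfold BB
  rw [eP]
  refine Ball.of_cone (n := 3) (cone_Rl ?_ ?_) hφ
  · rw [eF]
    exact fun h => lt_irrefl (vx G x) h
  · intro s hs
    rw [eF] at hs
    exact Or.inl hs

/-- the rules for the dual regions of the vertex sets of a flag 3-sphere -/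
theorem ball_rules [Finite V] (hG : IsSph3 G) : BallRules G (BB G) where
  r0 := rule_r0 hG
  r2 := fun _ _ h1 h2 h3 h4 h5 h6 h7 h8 => rule_r2 hG h1 h2 h3 h4 h5 h6 h7 h8
  rt := fun _ _ _ h1 h2 h3 h4 h5 h6 h7 h8 h9 h10 h11 h12 =>
    rule_rt hG h1 h2 h3 h4 h5 h6 h7 h8 h9 h10 h11 h12

end MOT
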