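import Pool.Agent.MOT.PlC

/-!
# MOT/EbP: PL homeomorphisms of pairs; extension over balls (block E2, helper16)

`PPair X B Y C`: a PL homeomorphism `X → Y` which maps `B` onto `C`.

`PPair.ball`: `Ball.map`.  `glue_ext`: `X₁`, `X₂` are balls with boundary `D ∪ D₁`, `D ∪ D₂`, all three
discs have the boundary `R`; then the identity of `X₀` (`X₀ ∩ Xᵢ = D`) extends to `X₀ ∪ X₁ → X₀ ∪ X₂`.
Proof: `Ball.ext hD₁ hD₂` applied to the identity of `R` (`PLH.refl R`) gives `f₁ : D₁ → D₂`, the identity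
on `R`; `PLH.union (PLH.refl D) f₁` (closed by `Ball.isClosed`; `D ∩ D₁ = R = D ∩ D₂`) is a PL
homeomorphism `D ∪ D₁ → D ∪ D₂` which is the identity on `D`; `Ball.ext h₁ h₂` extends it to
`f₂ : X₁ → X₂`; at last `PLH.union (PLH.refl X₀) f₂` (`X₀ ∩ X₁ = D = X₀ ∩ X₂`, `f₂ = id` on `D`).
`sphere_of_discs`: `D₁ ∪ D₂` with `D₁ ∩ D₂ = R` is a sphere: `Ball.plh h₁ (ball_cap n (Or.inl rfl))` gives
`f₁ : D₁ → Sh' n 1` with `f₁ '' R = Eq' n`; `Ball.ext h₂ (ball_cap n (Or.inr rfl))` extends `f₁ | R` to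
`f₂ : D₂ → Sh' n (-1)`; `PLH.union` (`D₁ ∩ D₂ = R`, `Sh' n 1 ∩ Sh' n (-1) = Eq' n`,
`Sh' n 1 ∪ Sh' n (-1) = Sp (n+1)`).
-/

open Classical

noncomputable section

namespace MOT

section Pair

variable {E F H : Type}
variable [AddCommGroup E] [Module ℝ E] [TopologicalSpace E]
variable [AddCommGroup F] [Module ℝ F] [TopologicalSpace F]
variable [AddCommGroup H] [Module ℝ H] [TopologicalSpace H]

/-- PL homeomorphic pairs -/
def PPair (X B : Set E) (Y C : Set F) : Prop :=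
  B ⊆ X ∧ ∃ f g, PLH X Y f g ∧ f '' B = C

theorem PPair.refl {X B : Set E} (h : B ⊆ X) : PPair X B X B := by
  exact ⟨h, fun x => x, fun x => x, PLH.refl X, Set.image_id' B⟩

theorem PPair.symm {X B : Set E} {Y C : Set F} (h : PPair X B Y C) : PPair Y C X B := by
  obtain ⟨hB, f, g, hfg, hf⟩ := h
  refine ⟨?_, g, f, hfg.symm, ?_⟩
  · rw [← hf]
    rintro _ ⟨x, hx, rfl⟩
    exact hfg.fm (hB hx)
  · rw [← hf]
    exact hfg.image_symm hB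

theorem PPair.trans {X B : Set E} {Y C : Set F} {Z D : Set H} (h : PPair X B Y C)
    (h' : PPair Y C Z D) : PPair X B Z D := by
  obtain ⟨hB, f, g, hfg, hf⟩ := h
  obtain ⟨hC, f', g', hfg', hf'⟩ := h'
  refine ⟨hB, _, _, hfg.trans hfg', ?_⟩
  rw [← hf', ← hf, Set.image_image]

/-- maps in both directions -/
theorem PPair.mk' {X B : Set E} {Y C : Set F} {f : E → F} {g : F → E} (h : PLH X Y f g)
    (hB : B ⊆ X) (hC : C ⊆ Y) (h1 : ∀ x ∈ B, f x ∈ C) (h2 : ∀ y ∈ C, g y ∈ B) :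
    PPair X B Y C := by
  refine ⟨hB, f, g, h, ?_⟩
  ext y
  constructor
  · rintro ⟨x, hx, rfl⟩
    exact h1 x hx
  · intro hy
    exact ⟨g y, h2 y hy, h.fg y (hC hy)⟩

end Pair

section Ext

variable {E F : Type}
variable [AddCommGroup E] [Module ℝ E] [TopologicalSpace E] [IsTopologicalAddGroup E]
  [ContinuousSMul ℝ E] [T2Space E] [FiniteDimensional ℝ E]
variable [AddCommGroup F] [Module ℝ F] [TopologicalSpace F] [IsTopologicalAddGroup F]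
  [ContinuousSMul ℝ F] [T2Space F] [FiniteDimensional ℝ F]

theorem PPair.ball {n : ℕ} {X B : Set E} {Y C : Set F} (h : PPair X B Y C) :
    Ball n X B ↔ Ball n Y C := by
  constructor
  · intro hX
    obtain ⟨_, f, g, hfg, hf⟩ := h
    have h1 := hX.map hfg
    rw [hf] at h1
    exact h1
  · intro hY
    obtain ⟨_, f, g, hfg, hf⟩ := h.symm
    have h1 := hY.map hfg
    rw [hf] at h1
    exact h1

/-- extension of the identity over balls -/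
theorem glue_ext {n : ℕ} {X₀ X₁ X₂ D D₁ D₂ R : Set E} (h₀ : IsClosed X₀)
    (h₁ : Ball (n + 1) X₁ (D ∪ D₁)) (h₂ : Ball (n + 1) X₂ (D ∪ D₂)) (hD : Ball n D R)
    (hD₁ : Ball n D₁ R) (hD₂ : Ball n D₂ R) (hR₁ : D ∩ D₁ = R) (hR₂ : D ∩ D₂ = R)
    (hX₁ : X₀ ∩ X₁ = D) (hX₂ : X₀ ∩ X₂ = D) :
    ∃ f g, PLH (X₀ ∪ X₁) (X₀ ∪ X₂) f g ∧ (∀ x ∈ X₀, f x = x) ∧ f '' D₁ = D₂ := by
  obtain ⟨f₁, g₁, k₁, a₁, _⟩ := hD₁.ext hD₂ (PLH.refl R)
  obtain ⟨f₂, g₂, k₂, a₂, b₂, _, _⟩ := PLH.union (PLH.refl D) k₁ hD.isClosed hD₁.isClosed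
    hD.isClosed hD₂.isClosed
    (fun x hx => by
      rw [hR₁] at hx
      exact (a₁ x hx).symm)
    (by rw [hR₁, hR₂]; exact Set.image_id' R)
  obtain ⟨f₃, g₃, k₃, a₃, _⟩ := h₁.ext h₂ k₂
  obtain ⟨f, g, k, a, b, _, _⟩ := PLH.union (PLH.refl X₀) k₃ h₀ h₁.isClosed h₀ h₂.isClosed
    (fun x hx => by
      rw [hX₁] at hx
      rw [a₃ x (Or.inl hx), a₂ x hx])
    (by rw [hX₁, hX₂]; exact Set.image_id' D)
  refine ⟨f, g, k, a, ?_⟩
  rw [← k₁.image]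
  refine Set.image_congr fun x hx => ?_
  rw [b x (h₁.1 (Or.inr hx)), a₃ x (Or.inr hx), b₂ x hx]

/-- two discs with the same boundary -/
theorem sphere_of_discs {n : ℕ} {D₁ D₂ R : Set E} (h₁ : Ball n D₁ R) (h₂ : Ball n D₂ R)
    (hi : D₁ ∩ D₂ = R) : ∃ f g, PLH (D₁ ∪ D₂) (Sp (n + 1)) f g := by
  obtain ⟨f₁, g₁, k₁, e₁⟩ := h₁.plh (ball_cap n (Or.inl rfl))
  have k0 : PLH R (Eq' n) f₁ g₁ := k₁.restrict' h₁.1 e₁
  obtain ⟨f₂, g₂, k₂, a₂, _⟩ := h₂.ext (ball_cap n (Or.inr rfl)) k0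
  have hS : Sh' n 1 ∩ Sh' n (-1) = Eq' n := by
    ext x
    constructor
    · rintro ⟨h3, h4⟩
      refine ⟨h3.1, ?_⟩
      have h5 := h3.2
      have h6 := h4.2
      linarith
    · rintro ⟨h3, h4⟩
      exact ⟨⟨h3, by rw [h4, mul_zero]⟩, h3, by rw [h4, mul_zero]⟩
  obtain ⟨f, g, k, _, _, _, _⟩ := PLH.union k₁ k₂ h₁.isClosed h₂.isClosed
    (ball_cap n (Or.inl rfl)).isClosed (ball_cap n (Or.inr rfl)).isClosed
    (fun x hx => by
      rw [hi] at hx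
      exact (a₂ x hx).symm)
    (by rw [hi, e₁, hS])
  rw [(half_facts n).2.2.1] at k
  exact ⟨f, g, k⟩

end Ext

end MOT
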