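import Pool.Agent.MOT.St2
import Pool.Agent.MOT.Bas
import Pool.Agent.MOT.EbP

/-!
# MOT/EbA: realisations of full subcomplexes of posets; the predicate `BB` (block E2, helper16)

`Rl_up_union`: the support of `c ∈ Rl (sd G) (S ∪ T)` is a nonempty finite chain; its least element `s`
(e.g. the element of the support with the fewest vertices) lies in `S` or `T`; if `s ∈ S` the whole
support is in `S`, because `S` is an upper set.
`cone_Rl`: apex `dlt v`, radius `1 - c v`; for `c ≠ dlt v` one has `c v ≠ 1` and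
`c = dlt v + (1 - c v) • (b - dlt v)` with `b = (1 - c v)⁻¹ • (c - c v • dlt v) ∈ Rl H S`.
-/

open Classical

noncomputable section

namespace MOT

variable {V : Type} {G : SimpleGraph V}

/-- the dual region of `X` is a PL ball -/
def BB (G : SimpleGraph V) (X : Set V) : Prop :=
  Ball 3 (Rl (sd G) (pl G X)) (Rl (sd G) (Fr G X))

theorem Rl_mono {A B : Set V} (h : A ⊆ B) : Rl G A ⊆ Rl G B := by
  exact fun c hc => ⟨hc.1, hc.2.1, fun x hx => h (hc.2.2.1 x hx), hc.2.2.2⟩

theorem Rl_inter (A B : Set V) : Rl G A ∩ Rl G B = Rl G (A ∩ B) := by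
  apply Set.Subset.antisymm
  · rintro c ⟨h1, h2⟩
    exact ⟨h1.1, h1.2.1, fun x hx => ⟨h1.2.2.1 x hx, h2.2.2.1 x hx⟩, h1.2.2.2⟩
  · intro c hc
    exact ⟨Rl_mono Set.inter_subset_left hc, Rl_mono Set.inter_subset_right hc⟩

/-- unions of upper sets -/
theorem Rl_up_union [Finite V] {S T : Set (Cq G)} (hS : ∀ s ∈ S, ∀ t, s ≤ t → t ∈ S)
    (hT : ∀ s ∈ T, ∀ t, s ≤ t → t ∈ T) :
    Rl (sd G) (S ∪ T) = Rl (sd G) S ∪ Rl (sd G) T := by
  apply Set.Subset.antisymm
  · intro c hc
    have := Fintype.ofFinite (Cq G)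
    have hne : (Finset.univ.filter fun s : Cq G => c s ≠ 0).Nonempty := by
      by_contra h'
      rw [Finset.not_nonempty_iff_eq_empty, Finset.filter_eq_empty_iff] at h'
      have h0 : ∀ s, c s = 0 := fun s => not_not.1 (h' (Finset.mem_univ s))
      have h1 := hc.2.1
      simp only [h0, finsum_zero] at h1
      exact zero_ne_one h1
    obtain ⟨s, hs, hmin⟩ := Finset.exists_min_image _ (fun s : Cq G => s.1.card) hne
    have hs0 : c s ≠ 0 := (Finset.mem_filter.1 hs).2
    have hle : ∀ t, c t ≠ 0 → s ≤ t := by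
      intro t ht
      by_cases e : s = t
      · exact e.le
      · rcases hc.2.2.2 s t hs0 ht e with h | h
        · exact h.le
        · exfalso
          have h1 : t.1 ⊂ s.1 := h
          have h2 := Finset.card_lt_card h1
          have h3 := hmin t (Finset.mem_filter.2 ⟨Finset.mem_univ t, ht⟩)
          exact absurd h3 (not_le.2 h2)
    rcases hc.2.2.1 s hs0 with h | h
    · exact Or.inl ⟨hc.1, hc.2.1, fun t ht => hS s h t (hle t ht), hc.2.2.2⟩
    · exact Or.inr ⟨hc.1, hc.2.1, fun t ht => hT s h t (hle t ht), hc.2.2.2⟩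
  · rintro c (hc | hc)
    · exact Rl_mono Set.subset_union_left hc
    · exact Rl_mono Set.subset_union_right hc

theorem pl_up {A : Set V} : ∀ s ∈ pl G A, ∀ t, s ≤ t → t ∈ pl G A := by
  rintro s ⟨x, hx, hxA⟩ t hst
  exact ⟨x, hst hx, hxA⟩

theorem pl2_up {A B : Set V} : ∀ s ∈ pl G A ∩ pl G B, ∀ t, s ≤ t → t ∈ pl G A ∩ pl G B := by
  exact fun s hs t hst => ⟨pl_up s hs.1 t hst, pl_up s hs.2 t hst⟩

private theorem eba_le_one [Finite V] {A : Set V} {c : V → ℝ} (hc : c ∈ Rl G A) (v : V) :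
    c v ≤ 1 := by
  have := Fintype.ofFinite V
  have h1 := hc.2.1
  rw [finsum_eq_sum_of_fintype] at h1
  rw [← h1]
  exact Finset.single_le_sum (fun x _ => hc.1 x) (Finset.mem_univ v)

private theorem eba_eq_dlt [Finite V] {A : Set V} {c : V → ℝ} (hc : c ∈ Rl G A) {v : V}
    (h : c v = 1) : c = dlt v := by
  have := Fintype.ofFinite V
  have h1 := hc.2.1
  rw [finsum_eq_sum_of_fintype, ← Finset.add_sum_erase _ _ (Finset.mem_univ v), h] at h1
  have h2 : ∑ x ∈ Finset.univ.erase v, c x = 0 := by linarith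
  rw [Finset.sum_eq_zero_iff_of_nonneg (fun x _ => hc.1 x)] at h2
  funext x
  by_cases e : x = v
  · rw [e, h, dlt_self]
  · rw [dlt_ne e]
    exact h2 x (Finset.mem_erase.2 ⟨e, Finset.mem_univ x⟩)

/-- the full subcomplex on a cone is a cone -/
theorem cone_Rl [Finite V] {v : V} {S : Set V} (hv : v ∉ S) (hS : ∀ s ∈ S, G.Adj v s) :
    IsCone (Rl G (insert v S)) (Rl G S) (dlt v) (fun c => 1 - c v) := by
  have hfin := Fintype.ofFinite V
  have hsub : Rl G S ⊆ Rl G (insert v S) := Rl_mono (Set.subset_insert v S)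
  refine ⟨dlt_mem (Set.mem_insert v S), hsub, ?_, ?_, ?_, ?_, ?_, ?_⟩
  · have h := PLOn.of_affine
      (AffineMap.const ℝ (V → ℝ) (1 : ℝ) - (LinearMap.proj v : (V → ℝ) →ₗ[ℝ] ℝ).toAffineMap)
      (show Continuous fun c : V → ℝ => 1 - c v from continuous_const.sub (continuous_apply v))
      (Rl G (insert v S))
    exact h
  · intro c hc
    have := eba_le_one hc v
    show 0 ≤ 1 - c v
    linarith
  · intro c hc
    have := hc.1 v
    show 1 - c v ≤ 1
    linarith
  · intro c hc
    constructor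
    · intro h
      have h' : 1 - c v = 0 := h
      exact eba_eq_dlt hc (by linarith)
    · intro h
      show 1 - c v = 0
      rw [h, dlt_self, sub_self]
  · intro c hc hne
    have h1 : c v ≠ 1 := fun h => hne (eba_eq_dlt hc h)
    have h2 : 0 < 1 - c v := by
      have := eba_le_one hc v
      exact lt_of_le_of_ne (by linarith) (fun e => h1 (by linarith))
    have hval : ∀ x, ((1 - c v)⁻¹ • (c - c v • dlt v)) x =
        (1 - c v)⁻¹ * (c x - c v * dlt v x) := fun x => rfl
    have hv0 : ((1 - c v)⁻¹ • (c - c v • dlt v)) v = 0 := by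
      rw [hval, dlt_self, mul_one, sub_self, mul_zero]
    have hx0 : ∀ x, x ≠ v → ((1 - c v)⁻¹ • (c - c v • dlt v)) x = (1 - c v)⁻¹ * c x := by
      intro x hx
      rw [hval, dlt_ne hx, mul_zero, sub_zero]
    have hsup : ∀ x, ((1 - c v)⁻¹ • (c - c v • dlt v)) x ≠ 0 → x ≠ v ∧ c x ≠ 0 := by
      intro x hx
      have h3 : x ≠ v := by
        rintro rfl
        exact hx hv0
      refine ⟨h3, fun e => hx ?_⟩
      rw [hx0 x h3, e, mul_zero]
    refine ⟨(1 - c v)⁻¹ • (c - c v • dlt v), ⟨?_, ?_, ?_, ?_⟩, ?_⟩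
    · intro x
      by_cases e : x = v
      · rw [e, hv0]
      · rw [hx0 x e]
        exact mul_nonneg (inv_nonneg.2 h2.le) (hc.1 x)
    · have h4 := hc.2.1
      rw [finsum_eq_sum_of_fintype] at h4 ⊢
      simp only [hval]
      rw [← Finset.mul_sum, Finset.sum_sub_distrib, ← Finset.mul_sum, sum_dlt, h4, mul_one]
      exact inv_mul_cancel₀ h2.ne'
    · intro x hx
      obtain ⟨h3, h4⟩ := hsup x hx
      exact (hc.2.2.1 x h4).resolve_left h3
    · intro x y hx hy hxy
      exact hc.2.2.2 x y (hsup x hx).2 (hsup y hy).2 hxy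
    · funext x
      show c x = dlt v x + (1 - c v) * ((1 - c v)⁻¹ * (c x - c v * dlt v x) - dlt v x)
      rw [mul_sub, mul_inv_cancel_left₀ h2.ne']
      ring
  · intro b hb t ht0 ht1
    have hbv : b v = 0 := by
      by_contra h
      exact hv (hb.2.2.1 v h)
    have hval : ∀ x, (dlt v + t • (b - dlt v)) x = dlt v x + t * (b x - dlt v x) :=
      fun x => rfl
    have hvv : (dlt v + t • (b - dlt v)) v = 1 - t := by
      rw [hval, dlt_self, hbv]
      ring
    have hvx : ∀ x, x ≠ v → (dlt v + t • (b - dlt v)) x = t * b x := by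
      intro x hx
      rw [hval, dlt_ne hx]
      ring
    have hsup : ∀ x, (dlt v + t • (b - dlt v)) x ≠ 0 → x = v ∨ (x ≠ v ∧ b x ≠ 0) := by
      intro x hx
      by_cases e : x = v
      · exact Or.inl e
      · refine Or.inr ⟨e, fun h => hx ?_⟩
        rw [hvx x e, h, mul_zero]
    refine ⟨⟨?_, ?_, ?_, ?_⟩, ?_⟩
    · intro x
      by_cases e : x = v
      · rw [e, hvv]
        linarith
      · rw [hvx x e]
        exact mul_nonneg ht0 (hb.1 x)
    · have h4 := hb.2.1
      rw [finsum_eq_sum_of_fintype] at h4 ⊢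
      simp only [hval]
      rw [Finset.sum_add_distrib, ← Finset.mul_sum, Finset.sum_sub_distrib, sum_dlt, h4]
      ring
    · intro x hx
      rcases hsup x hx with h | h
      · exact Or.inl h
      · exact Or.inr (hb.2.2.1 x h.2)
    · intro x y hx hy hxy
      rcases hsup x hx with h | h <;> rcases hsup y hy with h' | h'
      · exact absurd (h.trans h'.symm) hxy
      · rw [h]
        exact hS y (hb.2.2.1 y h'.2)
      · rw [h']
        exact (hS x (hb.2.2.1 x h.2)).symm
      · exact hb.2.2.2 x y h.2 h'.2 hxy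
    · show 1 - (dlt v + t • (b - dlt v)) v = t
      rw [hvv]
      ring

end MOT
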