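import Pool.Agent.MOT.PlSel

/-!
# MOT/EcF: a jointly piecewise linear family of homeomorphisms `[0,1] → [0,s]` (block E2, rc; helper16)

`ph s x = min x (x/2 + s - 1/2)`, inverse `qh s y = max y (2 y - 2 s + 1)` (inverse to each other on
all of `ℝ`, for every `s`).  Proofs: case distinction `x ≤ 2 s - 1` or not, `linarith`.
`ph_pl`, `qh_pl`: `PLOn.min`, `PLOn.max`, `PLOn.add`, `PLOn.smul`, `PLOn.const`, `PLOn.congr`.
-/

open Classical

noncomputable section

namespace MOT.Ec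

def ph (s x : ℝ) : ℝ := min x (x / 2 + s - 1 / 2)

def qh (s y : ℝ) : ℝ := max y (2 * y - 2 * s + 1)

theorem qh_ph (s x : ℝ) : qh s (ph s x) = x := by
  unfold qh ph
  rcases min_cases x (x / 2 + s - 1 / 2) with ⟨h1, h2⟩ | ⟨h1, h2⟩
  · rw [h1]
    exact max_eq_left (by linarith)
  · rw [h1, max_eq_right (by linarith)]
    ring

theorem ph_qh (s y : ℝ) : ph s (qh s y) = y := by
  unfold qh ph
  rcases max_cases y (2 * y - 2 * s + 1) with ⟨h1, h2⟩ | ⟨h1, h2⟩
  · rw [h1]
    exact min_eq_left (by linarith)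
  · rw [h1, min_eq_right (by linarith)]
    ring

theorem ph_mono (s : ℝ) : Monotone (ph s) := by
  intro x y h
  exact min_le_min h (by linarith)

theorem qh_mono (s : ℝ) : Monotone (qh s) := by
  intro x y h
  exact max_le_max h (by linarith)

theorem ph_zero {s : ℝ} (h : 1 / 2 ≤ s) : ph s 0 = 0 := by
  unfold ph
  exact min_eq_left (by linarith)

theorem qh_zero {s : ℝ} (h : 1 / 2 ≤ s) : qh s 0 = 0 := by
  unfold qh
  exact max_eq_left (by linarith)

theorem ph_one {s : ℝ} (h : s ≤ 1) : ph s 1 = s := by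
  unfold ph
  rw [min_eq_right (by linarith)]
  ring

theorem qh_self {s : ℝ} (h : s ≤ 1) : qh s s = 1 := by
  unfold qh
  rw [max_eq_right (by linarith)]
  ring

theorem ph_half {x : ℝ} (h : 0 ≤ x) : ph (1 / 2) x = x / 2 := by
  unfold ph
  rw [min_eq_right (by linarith)]
  ring

theorem qh_half {y : ℝ} (h : 0 ≤ y) : qh (1 / 2) y = 2 * y := by
  unfold qh
  rw [max_eq_right (by linarith)]
  ring

theorem ph_at_one {x : ℝ} (h : x ≤ 1) : ph 1 x = x := by
  unfold ph
  exact min_eq_left (by linarith)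

theorem qh_at_one {y : ℝ} (h : y ≤ 1) : qh 1 y = y := by
  unfold qh
  exact max_eq_left (by linarith)

theorem ph_nonneg {s x : ℝ} (h : 1 / 2 ≤ s) (hx : 0 ≤ x) : 0 ≤ ph s x := by
  unfold ph
  exact le_min hx (by linarith)

theorem qh_nonneg {s y : ℝ} (hy : 0 ≤ y) : 0 ≤ qh s y := by
  unfold qh
  exact le_max_of_le_left hy

theorem ph_ne {s x : ℝ} (h : 1 / 2 ≤ s) : ph s x ≠ 0 ↔ x ≠ 0 := by
  constructor
  · intro h1 h2
    exact h1 (by rw [h2, ph_zero h])
  · intro h1 h2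
    apply h1
    have h3 := qh_ph s x
    rw [h2, qh_zero h] at h3
    exact h3.symm

theorem qh_ne {s y : ℝ} (h : 1 / 2 ≤ s) : qh s y ≠ 0 ↔ y ≠ 0 := by
  constructor
  · intro h1 h2
    exact h1 (by rw [h2, qh_zero h])
  · intro h1 h2
    apply h1
    have h3 := ph_qh s y
    rw [h2, ph_zero h] at h3
    exact h3.symm

section

variable {E : Type} [AddCommGroup E] [Module ℝ E] [TopologicalSpace E] {X : Set E}

theorem ph_pl {f g : E → ℝ} (hf : PLOn f X) (hg : PLOn g X) :
    PLOn (fun x => ph (f x) (g x)) X := by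
  have h1 : PLOn (fun x => (1 / 2 : ℝ) • g x + f x + (- (1 / 2))) X :=
    ((hg.smul (1 / 2)).add hf).add (PLOn.const (- (1 / 2)) X)
  refine (hg.min h1).congr fun x _ => ?_
  unfold ph
  congr 1
  rw [smul_eq_mul]
  ring

theorem qh_pl {f g : E → ℝ} (hf : PLOn f X) (hg : PLOn g X) :
    PLOn (fun x => qh (f x) (g x)) X := by
  have h1 : PLOn (fun x => (2 : ℝ) • g x + (-2 : ℝ) • f x + 1) X :=
    ((hg.smul 2).add (hf.smul (-2))).add (PLOn.const 1 X)
  refine (hg.max h1).congr fun x _ => ?_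
  unfold qh
  congr 1
  rw [smul_eq_mul, smul_eq_mul]
  ring

end

end MOT.Ec
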