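import Pool.Agent.MOT.EcK
import Pool.Agent.MOT.EcF
import Pool.Agent.MOT.EbP

/-!
# MOT/EcE: `{max over A ≥ 1/2}` is PL homeomorphic to `{max over A = 1}` in `UU G` (block E2, rc; helper16)

`eE A u x = qh s (u x)` for `x ∈ A`, `ph (3/2 - s) (u x)` for `x ∉ A`, where `s = ma A u`.
`eI A v x = ph (min 1 (3/2 - r)) (v x)` for `x ∈ A`, `qh (max (1/2) r) (v x)` for `x ∉ A`, `r = ma Aᶜ v`.

Let `u ∈ UU G`, `s = ma A u ∈ [1/2, 1]`; `max (ma A u) (ma Aᶜ u) = 1` (`ma_univ`).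
`ma A (eE A u) = qh s s = 1` (`ma_congr`, `ma_map`, `qh_self`), `ma Aᶜ (eE A u) = ph (3/2 - s) (ma Aᶜ u)`
which is `3/2 - s` if `s < 1` (then `ma Aᶜ u = 1`, `ph_one`) and `(ma Aᶜ u)/2` if `s = 1` (`ph_half`); it is
`≤ 1`, so `eE A u ∈ UU G`.  Supports do not change (`ph_ne`, `qh_ne`), values stay `≥ 0`.
`eI A (eE A u) = u`: if `s < 1`, `r = 3/2 - s > 1/2`, so `min 1 (3/2 - r) = s`, `max (1/2) r = 3/2 - s`;
if `s = 1`, `r ≤ 1/2`, so `min = 1`, `max = 1/2 = 3/2 - s`: in both cases the parameters agree, then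
`ph_qh`, `qh_ph`.
Let `v ∈ UU G`, `ma A v = 1`, `r = ma Aᶜ v ∈ [0, 1]`, `s = min 1 (3/2 - r) ∈ [1/2, 1]`,
`r' = max (1/2) r`.  `ma A (eI A v) = ph s 1 = s`, `ma Aᶜ (eI A v) = qh r' r`, which is `1` if `r ≥ 1/2`
(`qh_self`) and `2 r ≤ 1` if `r ≤ 1/2` (`qh_half`); so `max = 1` (if `r < 1/2` then `s = 1`).
`eE A (eI A v) = v`: `3/2 - s = r'` in both cases.
Frontiers: `ma A u = 1/2` gives `ma Aᶜ u = 1`, `ma Aᶜ (eE A u) = ph 1 1 = 1`; conversely `r = 1` gives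
`s = 1/2`.  PL: components (`PLOn.pi`), `ph_pl`, `qh_pl`, `ma_pl`, `PLOn.min`, `PLOn.max`, `PLOn.sub`.
-/

open Classical

noncomputable section

namespace MOT.Ec

variable {V : Type} {G : SimpleGraph V}

def eE (A : Set V) (u : V → ℝ) : V → ℝ :=
  fun x => if x ∈ A then qh (ma A u) (u x) else ph (3 / 2 - ma A u) (u x)

def eI (A : Set V) (v : V → ℝ) : V → ℝ :=
  fun x => if x ∈ A then ph (min 1 (3 / 2 - ma Aᶜ v)) (v x) else qh (max (1 / 2) (ma Aᶜ v)) (v x)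

private theorem ece_uu [Finite V] {A : Set V} {u : V → ℝ} (hu : u ∈ UU G) :
    (∀ x, 0 ≤ u x) ∧ 0 ≤ ma A u ∧ ma A u ≤ 1 ∧ 0 ≤ ma Aᶜ u ∧ ma Aᶜ u ≤ 1 ∧
      (ma A u = 1 ∨ ma Aᶜ u = 1) := by
  have h0 := hu.1.1
  have h1 := ma_univ A h0
  rw [hu.2] at h1
  have h2 := le_max_left (ma A u) (ma Aᶜ u)
  have h3 := le_max_right (ma A u) (ma Aᶜ u)
  rw [← h1] at h2 h3
  refine ⟨h0, ma_nonneg h0, h2, ma_nonneg h0, h3, ?_⟩
  rcases max_choice (ma A u) (ma Aᶜ u) with h | h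
  · rw [h] at h1
    exact Or.inl h1.symm
  · rw [h] at h1
    exact Or.inr h1.symm

private theorem ece_E1 [Finite V] {A : Set V} {u : V → ℝ} (hu : ∀ x, 0 ≤ u x)
    (h1 : 1 / 2 ≤ ma A u) (h2 : ma A u ≤ 1) : ma A (eE A u) = 1 := by
  have h3 : ma A (eE A u) = ma A (fun x => qh (ma A u) (u x)) :=
    ma_congr fun x hx => if_pos hx
  rw [h3, ma_map (qh_mono _) (qh_zero h1) hu, qh_self h2]

private theorem ece_E2 [Finite V] {A : Set V} {u : V → ℝ} (hu : ∀ x, 0 ≤ u x)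
    (h2 : ma A u ≤ 1) : ma Aᶜ (eE A u) = ph (3 / 2 - ma A u) (ma Aᶜ u) := by
  have h3 : ma Aᶜ (eE A u) = ma Aᶜ (fun x => ph (3 / 2 - ma A u) (u x)) :=
    ma_congr fun x hx => if_neg hx
  rw [h3, ma_map (ph_mono _) (ph_zero (by linarith)) hu]

private theorem ece_EK {A : Set V} {u : V → ℝ} (hu : u ∈ KK G) (h1 : 1 / 2 ≤ ma A u)
    (h2 : ma A u ≤ 1) : eE A u ∈ KK G := by
  have hne : ∀ x, eE A u x ≠ 0 → u x ≠ 0 := by
    intro x hx
    unfold eE at hx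
    by_cases h : x ∈ A
    · rw [if_pos h] at hx
      exact (qh_ne h1).1 hx
    · rw [if_neg h] at hx
      exact (ph_ne (by linarith)).1 hx
  refine ⟨fun x => ?_, fun x y hx hy hxy => hu.2 x y (hne x hx) (hne y hy) hxy⟩
  unfold eE
  by_cases h : x ∈ A
  · rw [if_pos h]
    exact qh_nonneg (hu.1 x)
  · rw [if_neg h]
    exact ph_nonneg (by linarith) (hu.1 x)

private theorem ece_I1 [Finite V] {A : Set V} {v : V → ℝ} (hv : ∀ x, 0 ≤ v x)
    (h1 : ma A v = 1) (h2 : ma Aᶜ v ≤ 1) : ma A (eI A v) = min 1 (3 / 2 - ma Aᶜ v) := by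
  have h3 : ma A (eI A v) = ma A (fun x => ph (min 1 (3 / 2 - ma Aᶜ v)) (v x)) :=
    ma_congr fun x hx => if_pos hx
  rw [h3, ma_map (ph_mono _) (ph_zero (le_min (by norm_num) (by linarith))) hv, h1,
    ph_one (min_le_left _ _)]

private theorem ece_I2 [Finite V] {A : Set V} {v : V → ℝ} (hv : ∀ x, 0 ≤ v x) :
    ma Aᶜ (eI A v) = qh (max (1 / 2) (ma Aᶜ v)) (ma Aᶜ v) := by
  have h3 : ma Aᶜ (eI A v) = ma Aᶜ (fun x => qh (max (1 / 2) (ma Aᶜ v)) (v x)) :=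
    ma_congr fun x hx => if_neg hx
  rw [h3, ma_map (qh_mono _) (qh_zero (le_max_left _ _)) hv]

private theorem ece_IK {A : Set V} {v : V → ℝ} (hv : v ∈ KK G) (h2 : ma Aᶜ v ≤ 1) :
    eI A v ∈ KK G := by
  have hs : 1 / 2 ≤ min 1 (3 / 2 - ma Aᶜ v) := le_min (by norm_num) (by linarith)
  have hne : ∀ x, eI A v x ≠ 0 → v x ≠ 0 := by
    intro x hx
    unfold eI at hx
    by_cases h : x ∈ A
    · rw [if_pos h] at hx
      exact (ph_ne hs).1 hx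
    · rw [if_neg h] at hx
      exact (qh_ne (le_max_left _ _)).1 hx
  refine ⟨fun x => ?_, fun x y hx hy hxy => hv.2 x y (hne x hx) (hne y hy) hxy⟩
  unfold eI
  by_cases h : x ∈ A
  · rw [if_pos h]
    exact ph_nonneg hs (hv.1 x)
  · rw [if_neg h]
    exact qh_nonneg (hv.1 x)

theorem pair_E [Finite V] (G : SimpleGraph V) (A : Set V) :
    PPair {u | u ∈ UU G ∧ 1 / 2 ≤ ma A u} {u | u ∈ UU G ∧ ma A u = 1 / 2}
      {u | u ∈ UU G ∧ ma A u = 1} {u | u ∈ UU G ∧ ma A u = 1 ∧ ma Aᶜ u = 1} := by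
  -- the inverse maps
  have hgf : ∀ u ∈ {u | u ∈ UU G ∧ 1 / 2 ≤ ma A u}, eI A (eE A u) = u := by
    rintro u ⟨hu, h1⟩
    obtain ⟨h0, -, h2, h3, h4, h5⟩ := ece_uu (A := A) hu
    have e1 : min 1 (3 / 2 - ma Aᶜ (eE A u)) = ma A u ∧
        max (1 / 2) (ma Aᶜ (eE A u)) = 3 / 2 - ma A u := by
      rw [ece_E2 h0 h2]
      rcases h5 with h5 | h5
      · rw [h5, show (3 / 2 - 1 : ℝ) = 1 / 2 by norm_num, ph_half h3]
        exact ⟨min_eq_left (by linarith), max_eq_left (by linarith)⟩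
      · rw [h5, ph_one (by linarith)]
        constructor
        · rw [min_eq_right (by linarith)]
          ring
        · exact max_eq_right (by linarith)
    funext x
    by_cases hx : x ∈ A
    · have e2 : eI A (eE A u) x = ph (min 1 (3 / 2 - ma Aᶜ (eE A u))) (eE A u x) := if_pos hx
      have e3 : eE A u x = qh (ma A u) (u x) := if_pos hx
      rw [e2, e1.1, e3, ph_qh]
    · have e2 : eI A (eE A u) x = qh (max (1 / 2) (ma Aᶜ (eE A u))) (eE A u x) := if_neg hx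
      have e3 : eE A u x = ph (3 / 2 - ma A u) (u x) := if_neg hx
      rw [e2, e1.2, e3, qh_ph]
  have hfg : ∀ v ∈ {u | u ∈ UU G ∧ ma A u = 1}, eE A (eI A v) = v := by
    rintro v ⟨hv, h1⟩
    obtain ⟨h0, -, h2, h3, h4, h5⟩ := ece_uu (A := A) hv
    have e1 := ece_I1 h0 h1 h4
    have e4 : 3 / 2 - min 1 (3 / 2 - ma Aᶜ v) = max (1 / 2) (ma Aᶜ v) := by
      rcases le_total (ma Aᶜ v) (1 / 2) with h | h
      · rw [max_eq_left h, min_eq_left (by linarith)]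
        norm_num
      · rw [max_eq_right h, min_eq_right (by linarith)]
        ring
    funext x
    by_cases hx : x ∈ A
    · have e2 : eE A (eI A v) x = qh (ma A (eI A v)) (eI A v x) := if_pos hx
      have e3 : eI A v x = ph (min 1 (3 / 2 - ma Aᶜ v)) (v x) := if_pos hx
      rw [e2, e1, e3, qh_ph]
    · have e2 : eE A (eI A v) x = ph (3 / 2 - ma A (eI A v)) (eI A v x) := if_neg hx
      have e3 : eI A v x = qh (max (1 / 2) (ma Aᶜ v)) (v x) := if_neg hx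
      rw [e2, e1, e3, e4, ph_qh]
  have hfm : Set.MapsTo (eE A) {u | u ∈ UU G ∧ 1 / 2 ≤ ma A u} {u | u ∈ UU G ∧ ma A u = 1} := by
    rintro u ⟨hu, h1⟩
    obtain ⟨h0, -, h2, h3, h4, h5⟩ := ece_uu (A := A) hu
    have e1 := ece_E1 h0 h1 h2
    refine ⟨⟨ece_EK hu.1 h1 h2, ?_⟩, e1⟩
    have hk := (ece_EK hu.1 h1 h2).1
    rw [ma_univ A hk, e1, ece_E2 h0 h2]
    apply max_eq_left
    rcases h5 with h5 | h5
    · rw [h5, show (3 / 2 - 1 : ℝ) = 1 / 2 by norm_num, ph_half h3]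
      linarith
    · rw [h5, ph_one (by linarith)]
      linarith
  have hgm : Set.MapsTo (eI A) {u | u ∈ UU G ∧ ma A u = 1} {u | u ∈ UU G ∧ 1 / 2 ≤ ma A u} := by
    rintro v ⟨hv, h1⟩
    obtain ⟨h0, -, h2, h3, h4, h5⟩ := ece_uu (A := A) hv
    have e1 := ece_I1 h0 h1 h4
    refine ⟨⟨ece_IK hv.1 h4, ?_⟩, ?_⟩
    · have hk := (ece_IK hv.1 h4).1
      rw [ma_univ A hk, e1, ece_I2 h0]
      rcases le_total (ma Aᶜ v) (1 / 2) with h | h
      · rw [min_eq_left (by linarith), max_eq_left h, qh_half h3]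
        exact max_eq_left (by linarith)
      · rw [max_eq_right h, qh_self h4]
        exact max_eq_right (min_le_left _ _)
    · rw [e1]
      exact le_min (by norm_num) (by linarith)
  have hfpl : PLOn (eE A) {u | u ∈ UU G ∧ 1 / 2 ≤ ma A u} := by
    refine PLOn.pi fun x => ?_
    by_cases hx : x ∈ A
    · exact (qh_pl (ma_pl A _) (PLOn.coord x _)).congr fun u _ => if_pos hx
    · exact (ph_pl ((PLOn.const (3 / 2 : ℝ) _).sub (ma_pl A _)) (PLOn.coord x _)).congr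
        fun u _ => if_neg hx
  have hgpl : PLOn (eI A) {u | u ∈ UU G ∧ ma A u = 1} := by
    refine PLOn.pi fun x => ?_
    by_cases hx : x ∈ A
    · exact (ph_pl ((PLOn.const (1 : ℝ) _).min ((PLOn.const (3 / 2 : ℝ) _).sub (ma_pl Aᶜ _)))
        (PLOn.coord x _)).congr fun u _ => if_pos hx
    · exact (qh_pl ((PLOn.const (1 / 2 : ℝ) _).max (ma_pl Aᶜ _)) (PLOn.coord x _)).congr
        fun u _ => if_neg hx
  have h : PLH {u | u ∈ UU G ∧ 1 / 2 ≤ ma A u} {u | u ∈ UU G ∧ ma A u = 1} (eE A) (eI A) :=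
    ⟨hfpl, hgpl, hfm, hgm, hgf, hfg⟩
  refine PPair.mk' h ?_ ?_ ?_ ?_
  · rintro u ⟨hu, h1⟩
    exact ⟨hu, h1.ge⟩
  · rintro u ⟨hu, h1, -⟩
    exact ⟨hu, h1⟩
  · rintro u ⟨hu, h1⟩
    obtain ⟨h0, -, h2, h3, h4, h5⟩ := ece_uu (A := A) hu
    obtain ⟨m1, m2⟩ := hfm ⟨hu, h1.ge⟩
    refine ⟨m1, m2, ?_⟩
    have h6 : ma Aᶜ u = 1 := by
      rcases h5 with h5 | h5
      · rw [h1] at h5
        norm_num at h5
      · exact h5
    rw [ece_E2 h0 h2, h1, h6, show (3 / 2 - 1 / 2 : ℝ) = 1 by norm_num, ph_one le_rfl]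
  · rintro v ⟨hv, h1, h6⟩
    obtain ⟨h0, -, h2, h3, h4, h5⟩ := ece_uu (A := A) hv
    refine ⟨(hgm ⟨hv, h1⟩).1, ?_⟩
    rw [ece_I1 h0 h1 h4, h6, min_eq_right (by norm_num)]
    norm_num

end MOT.Ec
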