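import Pool.Agent.MOT.EcK
import Pool.Agent.MOT.EcF
import Pool.Agent.MOT.EbP

/-!
# MOT/EcS: change of the normalisation (block E2, rc; helper16)

`sS P w x = qh (ma P w) (w x)` for `x ∈ P`, `2 * w x` for `x ∉ P`;
`sI P v x = ph (1 - ma Pᶜ v / 2) (v x)` for `x ∈ P`, `v x / 2` for `x ∉ P`.
Let `ma P w + ma Pᶜ w = 1`, `s = ma P w ∈ [1/2, 1]`: `ma P (sS P w) = qh s s = 1` (`ma_congr`, `ma_map`,
`qh_self`), `ma Pᶜ (sS P w) = 2 (1 - s) ∈ [0, 1]`; so `sS P w ∈ UU G` (`ma_univ`), supports do not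
change.  `sI P (sS P w) = w`: the parameter is `1 - (1 - s) = s`, `ph_qh`.  Let `v ∈ UU G`, `ma P v = 1`,
`t = ma Pᶜ v ∈ [0, 1]`: `ma P (sI P v) = ph (1 - t/2) 1 = 1 - t/2` (`ph_one`), `ma Pᶜ (sI P v) = t/2`; the
sum is 1; `sS P (sI P v) = v` by `qh_ph`.  Frontiers: `s = 1/2` iff `t = 1`.  PL: components.
-/

open Classical

noncomputable section

namespace MOT.Ec

variable {V : Type} {G : SimpleGraph V}

def sS (P : Set V) (w : V → ℝ) : V → ℝ :=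
  fun x => if x ∈ P then qh (ma P w) (w x) else 2 * w x

def sI (P : Set V) (v : V → ℝ) : V → ℝ :=
  fun x => if x ∈ P then ph (1 - ma Pᶜ v / 2) (v x) else v x / 2

private theorem ecs_in {P : Set V} (w : V → ℝ) {x : V} (hx : x ∈ P) :
    sS P w x = qh (ma P w) (w x) := if_pos hx

private theorem ecs_out {P : Set V} (w : V → ℝ) {x : V} (hx : x ∉ P) :
    sS P w x = 2 * w x := if_neg hx

private theorem eci_in {P : Set V} (w : V → ℝ) {x : V} (hx : x ∈ P) :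
    sI P w x = ph (1 - ma Pᶜ w / 2) (w x) := if_pos hx

private theorem eci_out {P : Set V} (w : V → ℝ) {x : V} (hx : x ∉ P) :
    sI P w x = w x / 2 := if_neg hx

private theorem ecs_ma [Finite V] {P : Set V} {w : V → ℝ} (hw : ∀ x, 0 ≤ w x)
    (h1 : ma P w + ma Pᶜ w = 1) (h2 : 1 / 2 ≤ ma P w) :
    ma P (sS P w) = 1 ∧ ma Pᶜ (sS P w) = 2 * (1 - ma P w) := by
  have h3 : 0 ≤ ma Pᶜ w := ma_nonneg hw
  have e1 : ma P (sS P w) = ma P (fun x => qh (ma P w) (w x)) :=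
    ma_congr fun x hx => ecs_in w hx
  have e2 : ma Pᶜ (sS P w) = ma Pᶜ (fun x => 2 * w x) :=
    ma_congr fun x hx => ecs_out w hx
  constructor
  · rw [e1, ma_map (qh_mono (ma P w)) (qh_zero h2) hw]
    exact qh_self (by linarith)
  · rw [e2, ma_map (g := fun r : ℝ => 2 * r)
      (fun a b hab => mul_le_mul_of_nonneg_left hab (by norm_num)) (mul_zero 2) hw]
    have h4 : ma Pᶜ w = 1 - ma P w := by linarith
    rw [h4]

private theorem ecs_kk [Finite V] {P : Set V} {w : V → ℝ} (hw : w ∈ KK G)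
    (h2 : 1 / 2 ≤ ma P w) : sS P w ∈ KK G := by
  have hne : ∀ x, sS P w x ≠ 0 → w x ≠ 0 := by
    intro x hx
    by_cases h : x ∈ P
    · rw [ecs_in w h] at hx
      exact (qh_ne h2).1 hx
    · rw [ecs_out w h] at hx
      intro h0
      exact hx (by rw [h0, mul_zero])
  refine ⟨fun x => ?_, fun x y hx hy hxy => hw.2 x y (hne x hx) (hne y hy) hxy⟩
  by_cases h : x ∈ P
  · rw [ecs_in w h]
    exact qh_nonneg (hw.1 x)
  · rw [ecs_out w h]
    exact mul_nonneg (by norm_num) (hw.1 x)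

private theorem ecs_uu [Finite V] {P : Set V} {w : V → ℝ} (hw : w ∈ KK G)
    (h1 : ma P w + ma Pᶜ w = 1) (h2 : 1 / 2 ≤ ma P w) : sS P w ∈ UU G := by
  obtain ⟨e1, e2⟩ := ecs_ma hw.1 h1 h2
  have hk := ecs_kk (G := G) hw h2
  refine ⟨hk, ?_⟩
  rw [ma_univ P hk.1, e1, e2]
  exact max_eq_left (by linarith)

private theorem eci_t [Finite V] {P : Set V} {v : V → ℝ} (hv : v ∈ UU G) :
    0 ≤ ma Pᶜ v ∧ ma Pᶜ v ≤ 1 := by
  refine ⟨ma_nonneg hv.1.1, ?_⟩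
  rw [← hv.2, ma_univ P hv.1.1]
  exact le_max_right _ _

private theorem eci_ma [Finite V] {P : Set V} {v : V → ℝ} (hv : v ∈ UU G) (h1 : ma P v = 1) :
    ma P (sI P v) = 1 - ma Pᶜ v / 2 ∧ ma Pᶜ (sI P v) = ma Pᶜ v / 2 := by
  obtain ⟨t0, t1⟩ := eci_t (P := P) hv
  have e1 : ma P (sI P v) = ma P (fun x => ph (1 - ma Pᶜ v / 2) (v x)) :=
    ma_congr fun x hx => eci_in v hx
  have e2 : ma Pᶜ (sI P v) = ma Pᶜ (fun x => v x / 2) :=
    ma_congr fun x hx => eci_out v hx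
  constructor
  · rw [e1, ma_map (ph_mono (1 - ma Pᶜ v / 2)) (ph_zero (by linarith)) hv.1.1, h1]
    exact ph_one (by linarith)
  · rw [e2, ma_map (g := fun r : ℝ => r / 2)
      (fun a b hab => div_le_div_of_nonneg_right hab (by norm_num)) (zero_div 2) hv.1.1]

private theorem eci_kk [Finite V] {P : Set V} {v : V → ℝ} (hv : v ∈ UU G) :
    sI P v ∈ KK G := by
  obtain ⟨t0, t1⟩ := eci_t (P := P) hv
  have h2 : 1 / 2 ≤ 1 - ma Pᶜ v / 2 := by linarith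
  have hne : ∀ x, sI P v x ≠ 0 → v x ≠ 0 := by
    intro x hx
    by_cases h : x ∈ P
    · rw [eci_in v h] at hx
      exact (ph_ne h2).1 hx
    · rw [eci_out v h] at hx
      intro h0
      exact hx (by rw [h0, zero_div])
  refine ⟨fun x => ?_, fun x y hx hy hxy => hv.1.2 x y (hne x hx) (hne y hy) hxy⟩
  by_cases h : x ∈ P
  · rw [eci_in v h]
    exact ph_nonneg h2 (hv.1.1 x)
  · rw [eci_out v h]
    exact div_nonneg (hv.1.1 x) (by norm_num)

private theorem ecs_pl [Finite V] (P : Set V) (X : Set (V → ℝ)) : PLOn (sS P) X := by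
  refine PLOn.pi fun x => ?_
  by_cases hx : x ∈ P
  · exact (qh_pl (ma_pl P X) (PLOn.coord x X)).congr fun w _ => ecs_in w hx
  · exact ((PLOn.coord x X).smul 2).congr fun w _ => ecs_out w hx

private theorem eci_pl [Finite V] (P : Set V) (X : Set (V → ℝ)) : PLOn (sI P) X := by
  refine PLOn.pi fun x => ?_
  by_cases hx : x ∈ P
  · have h1 : PLOn (fun v : V → ℝ => 1 - ma Pᶜ v / 2) X :=
      (((ma_pl Pᶜ X).smul (- (1 / 2))).add (PLOn.const 1 X)).congr fun v _ => by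
        rw [smul_eq_mul]
        ring
    exact (ph_pl h1 (PLOn.coord x X)).congr fun v _ => eci_in v hx
  · exact ((PLOn.coord x X).smul (1 / 2)).congr fun v _ => by
      rw [eci_out v hx, smul_eq_mul]
      ring

theorem pair_S [Finite V] (G : SimpleGraph V) (P : Set V) :
    PPair {w | w ∈ KK G ∧ ma P w + ma Pᶜ w = 1 ∧ 1 / 2 ≤ ma P w}
      {w | w ∈ KK G ∧ ma P w + ma Pᶜ w = 1 ∧ ma P w = 1 / 2}
      {v | v ∈ UU G ∧ ma P v = 1} {v | v ∈ UU G ∧ ma P v = 1 ∧ ma Pᶜ v = 1} := by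
  have hXY : ∀ w, w ∈ KK G → ma P w + ma Pᶜ w = 1 → 1 / 2 ≤ ma P w →
      sI P (sS P w) = w := by
    intro w hw h1 h2
    obtain ⟨_, e2⟩ := ecs_ma hw.1 h1 h2
    funext x
    by_cases hx : x ∈ P
    · rw [eci_in _ hx, ecs_in w hx, e2]
      have e3 : 1 - 2 * (1 - ma P w) / 2 = ma P w := by ring
      rw [e3]
      exact ph_qh _ _
    · rw [eci_out _ hx, ecs_out w hx]
      ring
  have hYX : ∀ v, v ∈ UU G → ma P v = 1 → sS P (sI P v) = v := by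
    intro v hv h1
    obtain ⟨e1, _⟩ := eci_ma hv h1
    funext x
    by_cases hx : x ∈ P
    · rw [ecs_in _ hx, eci_in v hx, e1]
      exact qh_ph _ _
    · rw [ecs_out _ hx, eci_out v hx]
      ring
  have hI : ∀ v, v ∈ UU G → ma P v = 1 →
      ma P (sI P v) + ma Pᶜ (sI P v) = 1 ∧ 1 / 2 ≤ ma P (sI P v) := by
    intro v hv h1
    obtain ⟨e1, e2⟩ := eci_ma hv h1
    obtain ⟨t0, t1⟩ := eci_t (P := P) hv
    rw [e1, e2]
    constructor
    · ring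
    · linarith
  refine PPair.mk' (f := sS P) (g := sI P) ⟨ecs_pl P _, eci_pl P _, ?_, ?_, ?_, ?_⟩ ?_ ?_ ?_ ?_
  · rintro w ⟨hw, h1, h2⟩
    exact ⟨ecs_uu hw h1 h2, (ecs_ma hw.1 h1 h2).1⟩
  · rintro v ⟨hv, h1⟩
    exact ⟨eci_kk hv, (hI v hv h1).1, (hI v hv h1).2⟩
  · rintro w ⟨hw, h1, h2⟩
    exact hXY w hw h1 h2
  · rintro v ⟨hv, h1⟩
    exact hYX v hv h1
  · rintro w ⟨hw, h1, h2⟩
    exact ⟨hw, h1, h2.ge⟩
  · rintro v ⟨hv, h1, _⟩
    exact ⟨hv, h1⟩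
  · rintro w ⟨hw, h1, h2⟩
    obtain ⟨e1, e2⟩ := ecs_ma hw.1 h1 h2.ge
    refine ⟨ecs_uu hw h1 h2.ge, e1, ?_⟩
    rw [e2, h2]
    norm_num
  · rintro v ⟨hv, h1, h2⟩
    obtain ⟨e1, _⟩ := eci_ma hv h1
    refine ⟨eci_kk hv, (hI v hv h1).1, ?_⟩
    rw [e1, h2]
    norm_num

end MOT.Ec
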