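import Pool.Agent.MOT.EcK
import Pool.Agent.MOT.EbP

/-!
# MOT/EcT: from the sum to the maximum, separately on `P` and on `Pᶜ` (block E2, rc; helper16)

`tT P c = kp (cut0 P c) + kp (cut0 Pᶜ c)`, inverse `tI P w = kq (cut0 P w) + kq (cut0 Pᶜ w)`.
By `kp_ne` the support of `kp (cut0 P c)` is the support of `cut0 P c`, inside `P`; so
`cut0 P (tT P c) = kp (cut0 P c)`, `cut0 Pᶜ (tT P c) = kp (cut0 Pᶜ c)` (`tT_cut`), the support of `tT P c`
is that of `c`, hence `tT P c ∈ KK G`; `tI P (tT P c) = cut0 P c + cut0 Pᶜ c = c` by `kq_kp`, and the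
same in the other order.  `ma P (tT P c) = ma univ (kp (cut0 P c)) = ∑ cut0 P c = su P c` (`ma_congr`,
`ma_supp`, `ma_kp`), the same for `Pᶜ`.
-/

open Classical

noncomputable section

namespace MOT.Ec

variable {V : Type} {G : SimpleGraph V}

def tT (G : SimpleGraph V) (P : Set V) (c : V → ℝ) : V → ℝ :=
  fun x => kp G (cut0 P c) x + kp G (cut0 Pᶜ c) x

def tI (G : SimpleGraph V) (P : Set V) (w : V → ℝ) : V → ℝ :=
  fun x => kq G (cut0 P w) x + kq G (cut0 Pᶜ w) x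

/-- `kp` of a part vanishes outside this part -/
private theorem kp_out [Finite V] {P : Set V} {c : V → ℝ} (hc : c ∈ KK G) {x : V} (hx : x ∉ P) :
    kp G (cut0 P c) x = 0 := by
  by_contra h
  have h1 := (kp_ne (cut0_mem (A := P) hc)).1 h
  exact h1 (if_neg hx)

private theorem kq_out [Finite V] {P : Set V} {c : V → ℝ} (hc : c ∈ KK G) {x : V} (hx : x ∉ P) :
    kq G (cut0 P c) x = 0 := by
  by_contra h
  have h1 := (kq_ne (cut0_mem (A := P) hc)).1 h
  exact h1 (if_neg hx)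

private theorem cut0_in {P : Set V} {c : V → ℝ} {x : V} (hx : x ∈ P) : cut0 P c x = c x := if_pos hx

private theorem cut0_out {P : Set V} {c : V → ℝ} {x : V} (hx : x ∉ P) : cut0 P c x = 0 := if_neg hx

private theorem cut0_split (P : Set V) (c : V → ℝ) : (fun x => cut0 P c x + cut0 Pᶜ c x) = c := by
  funext x
  by_cases hx : x ∈ P
  · rw [cut0_in hx, cut0_out (P := Pᶜ) (fun h => h hx), add_zero]
  · rw [cut0_out hx, cut0_in (P := Pᶜ) hx, zero_add]

private theorem cut0_ne {P : Set V} {c : V → ℝ} {x : V} (h : cut0 P c x ≠ 0) : c x ≠ 0 := by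
  by_cases hx : x ∈ P
  · rwa [cut0_in hx] at h
  · exact absurd (cut0_out hx) h

private theorem re_kk {c : V → ℝ} (hc : c ∈ Re G) : c ∈ KK G := ⟨hc.1, hc.2.2.2⟩

private theorem cut0_pl [Finite V] (P : Set V) (X : Set (V → ℝ)) :
    PLOn (fun c : V → ℝ => cut0 P c) X := by
  refine PLOn.pi fun x => ?_
  by_cases hx : x ∈ P
  · exact ((PLOn.id X).apply x).congr fun c _ => cut0_in hx
  · exact (PLOn.const (0 : ℝ) X).congr fun c _ => cut0_out hx

theorem tT_cut [Finite V] (P : Set V) {c : V → ℝ} (hc : c ∈ KK G) :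
    cut0 P (tT G P c) = kp G (cut0 P c) ∧ cut0 Pᶜ (tT G P c) = kp G (cut0 Pᶜ c) := by
  constructor
  · funext x
    by_cases hx : x ∈ P
    · rw [cut0_in hx]
      show kp G (cut0 P c) x + kp G (cut0 Pᶜ c) x = _
      rw [kp_out hc (P := Pᶜ) (fun h => h hx), add_zero]
    · rw [cut0_out hx, kp_out hc hx]
  · funext x
    by_cases hx : x ∈ P
    · rw [cut0_out (P := Pᶜ) (fun h => h hx), kp_out hc (P := Pᶜ) (fun h => h hx)]
    · rw [cut0_in (P := Pᶜ) hx]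
      show kp G (cut0 P c) x + kp G (cut0 Pᶜ c) x = _
      rw [kp_out hc hx, zero_add]

theorem tI_cut [Finite V] (P : Set V) {w : V → ℝ} (hw : w ∈ KK G) :
    cut0 P (tI G P w) = kq G (cut0 P w) ∧ cut0 Pᶜ (tI G P w) = kq G (cut0 Pᶜ w) := by
  constructor
  · funext x
    by_cases hx : x ∈ P
    · rw [cut0_in hx]
      show kq G (cut0 P w) x + kq G (cut0 Pᶜ w) x = _
      rw [kq_out hw (P := Pᶜ) (fun h => h hx), add_zero]
    · rw [cut0_out hx, kq_out hw hx]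
  · funext x
    by_cases hx : x ∈ P
    · rw [cut0_out (P := Pᶜ) (fun h => h hx), kq_out hw (P := Pᶜ) (fun h => h hx)]
    · rw [cut0_in (P := Pᶜ) hx]
      show kq G (cut0 P w) x + kq G (cut0 Pᶜ w) x = _
      rw [kq_out hw hx, zero_add]

theorem tT_mem [Finite V] (P : Set V) {c : V → ℝ} (hc : c ∈ KK G) : tT G P c ∈ KK G := by
  have hs : ∀ x, tT G P c x ≠ 0 → c x ≠ 0 := by
    intro x hx
    by_cases hP : x ∈ P
    · have e : tT G P c x = kp G (cut0 P c) x := by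
        show kp G (cut0 P c) x + kp G (cut0 Pᶜ c) x = _
        rw [kp_out hc (P := Pᶜ) (fun h => h hP), add_zero]
      rw [e] at hx
      exact cut0_ne ((kp_ne (cut0_mem hc)).1 hx)
    · have e : tT G P c x = kp G (cut0 Pᶜ c) x := by
        show kp G (cut0 P c) x + kp G (cut0 Pᶜ c) x = _
        rw [kp_out hc hP, zero_add]
      rw [e] at hx
      exact cut0_ne ((kp_ne (cut0_mem hc)).1 hx)
  refine ⟨fun x => add_nonneg ((kp_mem (cut0_mem hc)).1 x) ((kp_mem (cut0_mem hc)).1 x),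
    fun x y hx hy hxy => hc.2 x y (hs x hx) (hs y hy) hxy⟩

theorem tI_mem [Finite V] (P : Set V) {w : V → ℝ} (hw : w ∈ KK G) : tI G P w ∈ KK G := by
  have hs : ∀ x, tI G P w x ≠ 0 → w x ≠ 0 := by
    intro x hx
    by_cases hP : x ∈ P
    · have e : tI G P w x = kq G (cut0 P w) x := by
        show kq G (cut0 P w) x + kq G (cut0 Pᶜ w) x = _
        rw [kq_out hw (P := Pᶜ) (fun h => h hP), add_zero]
      rw [e] at hx
      exact cut0_ne ((kq_ne (cut0_mem hw)).1 hx)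
    · have e : tI G P w x = kq G (cut0 Pᶜ w) x := by
        show kq G (cut0 P w) x + kq G (cut0 Pᶜ w) x = _
        rw [kq_out hw hP, zero_add]
      rw [e] at hx
      exact cut0_ne ((kq_ne (cut0_mem hw)).1 hx)
  refine ⟨fun x => add_nonneg ((kq_mem (cut0_mem hw)).1 x) ((kq_mem (cut0_mem hw)).1 x),
    fun x y hx hy hxy => hw.2 x y (hs x hx) (hs y hy) hxy⟩

theorem tI_tT [Finite V] (P : Set V) {c : V → ℝ} (hc : c ∈ KK G) : tI G P (tT G P c) = c := by
  obtain ⟨h1, h2⟩ := tT_cut P hc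
  show (fun x => kq G (cut0 P (tT G P c)) x + kq G (cut0 Pᶜ (tT G P c)) x) = c
  rw [h1, h2, kq_kp (cut0_mem hc), kq_kp (cut0_mem hc)]
  exact cut0_split P c

theorem tT_tI [Finite V] (P : Set V) {w : V → ℝ} (hw : w ∈ KK G) : tT G P (tI G P w) = w := by
  obtain ⟨h1, h2⟩ := tI_cut P hw
  show (fun x => kp G (cut0 P (tI G P w)) x + kp G (cut0 Pᶜ (tI G P w)) x) = w
  rw [h1, h2, kp_kq (cut0_mem hw), kp_kq (cut0_mem hw)]
  exact cut0_split P w

theorem ma_tT [Finite V] (P : Set V) {c : V → ℝ} (hc : c ∈ KK G) :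
    ma P (tT G P c) = su P c ∧ ma Pᶜ (tT G P c) = su Pᶜ c := by
  obtain ⟨h1, h2⟩ := tT_cut P hc
  constructor
  · have e1 : ma P (tT G P c) = ma P (kp G (cut0 P c)) := by
      rw [← h1]
      exact ma_congr fun x hx => (cut0_in hx).symm
    rw [e1, ma_supp (kp_mem (cut0_mem hc)).1 (fun x hx => kp_out hc hx), ma_kp (cut0_mem hc)]
    rfl
  · have e1 : ma Pᶜ (tT G P c) = ma Pᶜ (kp G (cut0 Pᶜ c)) := by
      rw [← h2]
      exact ma_congr fun x hx => (cut0_in hx).symm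
    rw [e1, ma_supp (kp_mem (cut0_mem hc)).1 (fun x hx => kp_out hc hx), ma_kp (cut0_mem hc)]
    rfl

/-- half spaces of the realisation in terms of maxima -/
theorem pair_T [Finite V] (G : SimpleGraph V) (P : Set V) :
    PPair {c | c ∈ Re G ∧ 1 / 2 ≤ su P c} {c | c ∈ Re G ∧ su P c = 1 / 2}
      {w | w ∈ KK G ∧ ma P w + ma Pᶜ w = 1 ∧ 1 / 2 ≤ ma P w}
      {w | w ∈ KK G ∧ ma P w + ma Pᶜ w = 1 ∧ ma P w = 1 / 2} := by
  have fpl : ∀ X : Set (V → ℝ), PLOn (tT G P) X := by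
    intro X
    have a1 : PLOn (fun c : V → ℝ => kp G (cut0 P c)) X :=
      (kp_pl (G := G) Set.univ).comp (cut0_pl P X) (fun _ _ => trivial)
    have a2 : PLOn (fun c : V → ℝ => kp G (cut0 Pᶜ c)) X :=
      (kp_pl (G := G) Set.univ).comp (cut0_pl Pᶜ X) (fun _ _ => trivial)
    exact (a1.add a2).congr fun c _ => rfl
  have gpl : ∀ X : Set (V → ℝ), PLOn (tI G P) X := by
    intro X
    have a1 : PLOn (fun c : V → ℝ => kq G (cut0 P c)) X :=
      (kq_pl (G := G) Set.univ).comp (cut0_pl P X) (fun _ _ => trivial)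
    have a2 : PLOn (fun c : V → ℝ => kq G (cut0 Pᶜ c)) X :=
      (kq_pl (G := G) Set.univ).comp (cut0_pl Pᶜ X) (fun _ _ => trivial)
    exact (a1.add a2).congr fun c _ => rfl
  have fc : ∀ c, c ∈ Re G → tT G P c ∈ KK G ∧ ma P (tT G P c) + ma Pᶜ (tT G P c) = 1 ∧
      ma P (tT G P c) = su P c := by
    intro c hc
    obtain ⟨h1, h2⟩ := ma_tT P (re_kk hc)
    refine ⟨tT_mem P (re_kk hc), ?_, h1⟩
    rw [h1, h2, su_add]
    exact hc.2.1
  have gc : ∀ w, w ∈ KK G → ma P w + ma Pᶜ w = 1 → tI G P w ∈ Re G ∧ su P (tI G P w) = ma P w := by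
    intro w hw hm
    have hI := tI_mem P hw
    obtain ⟨h1, h2⟩ := ma_tT P hI
    rw [tT_tI P hw] at h1 h2
    refine ⟨⟨hI.1, ?_, fun _ _ => trivial, hI.2⟩, h1.symm⟩
    rw [← su_add P, ← h1, ← h2]
    exact hm
  refine PPair.mk' (f := tT G P) (g := tI G P) ⟨fpl _, gpl _, ?_, ?_, ?_, ?_⟩ ?_ ?_ ?_ ?_
  · rintro c ⟨hc, h⟩
    obtain ⟨h1, h2, h3⟩ := fc c hc
    exact ⟨h1, h2, by rw [h3]; exact h⟩
  · rintro w ⟨hw, hm, h⟩
    obtain ⟨h1, h2⟩ := gc w hw hm
    exact ⟨h1, by rw [h2]; exact h⟩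
  · rintro c ⟨hc, _⟩
    exact tI_tT P (re_kk hc)
  · rintro w ⟨hw, _⟩
    exact tT_tI P hw
  · rintro c ⟨hc, h⟩
    exact ⟨hc, h.ge⟩
  · rintro w ⟨hw, hm, h⟩
    exact ⟨hw, hm, h.ge⟩
  · rintro c ⟨hc, h⟩
    obtain ⟨h1, h2, h3⟩ := fc c hc
    exact ⟨h1, h2, by rw [h3]; exact h⟩
  · rintro w ⟨hw, hm, h⟩
    obtain ⟨h1, h2⟩ := gc w hw hm
    exact ⟨h1, by rw [h2]; exact h⟩

end MOT.Ec
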