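import Pool.Agent.MOT.EcL
import Pool.Agent.MOT.EcE
import Pool.Agent.MOT.EcT
import Pool.Agent.MOT.EcS
import Pool.Agent.MOT.EbA

/-!
# MOT/EcZ: the dual region of `A` on level `n` is PL homeomorphic to the dual region of `pl G A` on
level `n + 1` (rule rc of block E2, helper16).  No hypothesis on `G` (finite) and `A`.
-/

open Classical

noncomputable section

namespace MOT.Ec

variable {V : Type} {G : SimpleGraph V}

theorem pair_rc [Finite V] (G : SimpleGraph V) (A : Set V) :
    PPair (Rl (sd G) (pl G A)) (Rl (sd G) (Fr G A)) (Rl (sd (sd G)) (pl (sd G) (pl G A)))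
      (Rl (sd (sd G)) (Fr (sd G) (pl G A))) :=
  (((((pair_lam G A).trans (pair_E G A).symm).trans (pair_half G A).symm).trans
    (pair_T (sd G) (pl G A))).trans (pair_S (sd G) (pl G A))).trans
    (pair_lam (sd G) (pl G A)).symm

end MOT.Ec

namespace MOT

variable {V : Type}

/-- rule rc -/
theorem rc [Finite V] (G : SimpleGraph V) (A : Set V) : BB (sd G) (pl G A) ↔ BB G A :=
  (Ec.pair_rc G A).ball.symm

end MOT
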