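import Pool.Agent.MOT.EaZ
import Pool.Agent.MOT.EaLa
import Pool.Agent.MOT.EcZ
import Pool.Agent.MOT.EbR

/-!
# MOT/EaEnd: block E, end: acyclic near regions away from the poles are PL balls (helper81)

`alex_itv` is the hypothesis `H` of `Fn.alex_of` (MOT/FnP): `ea_main` (MOT/EaZ) for the layering `lay_tw`
(MOT/EaLa) and the rules `ball_rules` (MOT/EbR) on level `n + 1`, then `rc` (MOT/EcZ).  The vertical path of
level `n` misses `A`: its inner vertices are not near, its ends are the poles `- e3`, `e3`.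
-/

open Classical

noncomputable section

namespace MOT

theorem alex_itv (R : ℝ) (n : ℕ) (A : Set (tw (cell16 R) n).V) (hc : Conn (tw (cell16 R) n).G A)
    (hz : HZ (tw (cell16 R) n).G A) (hcc : Conn (tw (cell16 R) n).G Aᶜ)
    (hn : A ⊆ (tw (cell16 R) n).near)
    (h0 : Ea.itv (cell16 R) ((3, false) : Fin 4 × Bool) n ∉ A)
    (h1 : Ea.itv (cell16 R) ((3, true) : Fin 4 × Bool) n ∉ A) :
    Ball 3 (Rl (sd (tw (cell16 R) n).G) (pl (tw (cell16 R) n).G A))
      (Rl (sd (tw (cell16 R) n).G) (Fr (tw (cell16 R) n).G A)) := by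
  obtain ⟨m, l, rho, L, e0, e1, e2⟩ := Ea.lay_tw R n
  have hS : IsSph3 (tw (cell16 R) n).G := L.sph
  have : Finite (tw (cell16 R) n).V := (tw (cell16 R) n).fin
  have hr : ∀ i ≤ m, rho i ∉ A := by
    intro i hi hA
    by_cases hi0 : i = 0
    · rw [hi0, e0] at hA; exact h0 hA
    · by_cases him : i = m
      · rw [e1 i him.ge] at hA; exact h1 hA
      · exact e2 i (by omega) (by omega) (hn hA)
  have h5 := Ea.ea_main L (ball_rules (sd_sph3 hS)) ⟨hc, hz, hcc⟩ hr
  exact (rc _ A).1 h5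

end MOT
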