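import Pool.Agent.MOT.Fib
import Pool.Agent.MOT.Srf

/-!
# MOT/Wal: walls (two-sided closed surfaces)
-/

open Classical

noncomputable section

namespace MOT

variable {V : Type} {G : SimpleGraph V} {A B M S Q P N W : Set V}

private theorem nadj_symm (h : NAdj G P N) : NAdj G N P := fun x hx y hy e => h y hy x hx e.symm

theorem Wall.swap (h : Wall G Q P N) : Wall G Q N P where
  cover := by
    rw [Set.union_assoc, Set.union_comm N P, ← Set.union_assoc]; exact h.cover
  dqp := h.dqn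
  dqn := h.dqp
  dpn := h.dpn.symm
  nadj := nadj_symm h.nadj
  surf := h.surf
  hp := h.hn
  hn := h.hp

private theorem disj_of {T : Type} {X Y : Set T} (h : ∀ x, x ∈ X → x ∈ Y → False) :
    Disjoint X Y := Set.disjoint_left.2 fun x hx hy => h x hx hy

private theorem disj_el {T : Type} {X Y : Set T} (h : Disjoint X Y) {x : T} (hx : x ∈ X)
    (hy : x ∈ Y) : False := Set.disjoint_left.1 h hx hy

/-- the part in `mi W` of the link of a chain of mixed simplices is a cone -/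
private theorem fr_side (c : Finset (Cq G)) (hn : c.Nonempty)
    (hc : (sd G).IsClique (c : Set (Cq G))) (hs : (c : Set (Cq G)) ⊆ Fr G W) :
    Conn (sd G) (Lk (sd G) (c : Set (Cq G)) ∩ mi G W) ∧
      HZ (sd G) (Lk (sd G) (c : Set (Cq G)) ∩ mi G W) := by
  obtain ⟨t, htc, ht⟩ := chain_bot c hc hn
  have htF := hs htc
  obtain ⟨x0, hx0, hx0W⟩ := htF.1
  let s0 : Finset V := t.1.filter (fun x => x ∈ W)
  have hs0 : ∀ x, x ∈ s0 ↔ x ∈ t.1 ∧ x ∈ W := fun x => by simp [s0]
  have hsub : s0 ⊆ t.1 := fun x hx => ((hs0 x).1 hx).1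
  let r0 : Cq G := ⟨s0, ⟨x0, (hs0 x0).2 ⟨hx0, hx0W⟩⟩, t.2.2.subset (fun x hx => hsub hx)⟩
  have hlt : ∀ r : Cq G, r ∈ mi G W → (∀ x ∈ r.1, x ∈ t.1) → ∀ u ∈ c, r < u := by
    intro r hr hrt u hu
    obtain ⟨y, hy, hyW⟩ := (hs hu).2
    refine lt_of_le_of_ne (fun x hx => ht u hu (hrt x hx)) ?_
    intro e
    exact hyW (hr y (by rw [e]; exact hy))
  have hr0m : r0 ∈ mi G W := fun x hx => ((hs0 x).1 hx).2
  have hr0 : r0 ∈ Lk (sd G) (c : Set (Cq G)) ∩ mi G W := by
    refine ⟨fun u hu => ?_, hr0m⟩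
    exact Or.inr (hlt r0 hr0m (fun x hx => hsub hx) u hu)
  have hcone : ∀ y ∈ Lk (sd G) (c : Set (Cq G)) ∩ mi G W, y ≠ r0 → (sd G).Adj r0 y := by
    rintro y ⟨hyL, hyW⟩ hne
    have h1 : (sd G).Adj t y := hyL t htc
    have h2 : y < t := by
      rcases h1 with h1 | h1
      · exfalso
        obtain ⟨z, hz, hzW⟩ := htF.2
        exact hzW (hyW z (h1.le hz))
      · exact h1
    refine Or.inr (lt_of_le_of_ne (fun x hx => ?_) hne)
    exact (hs0 x).2 ⟨h2.le hx, hyW x hx⟩
  exact ⟨cone_Conn hr0 hcone, cone_HZ hr0 hcone⟩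

/-- the frontier is a wall; its sides are `mi Wᶜ` and `mi W`.
Sketch: for a chain of mixed simplices with least element `s` the part of the link in `mi W` is
`{r | r ≤ tr W s}` (a mixed simplex is never below `r ⊆ W`, and `r` below all mixed simplices of the
chain lies in `s ∩ W`): it has a greatest element. -/
theorem Fr_wall [Finite V] (h : IsSph3 G) :
    Wall (sd G) (Fr G W) (mi G Wᶜ) (mi G W) where
  cover := by
    rw [Set.eq_univ_iff_forall]
    intro s
    by_cases h1 : s ∈ mi G W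
    · exact Or.inr h1
    by_cases h2 : s ∈ mi G Wᶜ
    · exact Or.inl (Or.inr h2)
    refine Or.inl (Or.inl ⟨?_, ?_⟩)
    · by_contra h3
      exact h2 (by rw [← compl_pl]; exact h3)
    · by_contra h3
      apply h1
      have : s ∈ (pl G Wᶜ)ᶜ := h3
      rw [compl_pl, compl_compl] at this
      exact this
  dqp := disj_of fun s hs hs' => by
    obtain ⟨x, hx, hxW⟩ := hs.1
    exact hs' x hx hxW
  dqn := disj_of fun s hs hs' => by
    obtain ⟨x, hx, hxW⟩ := hs.2
    exact hxW (hs' x hx)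
  dpn := disj_of fun s hs hs' => by
    obtain ⟨x, hx⟩ := s.2.1
    exact hs x hx (hs' x hx)
  nadj := by
    rintro s hs t ht (e | e)
    · obtain ⟨x, hx⟩ := s.2.1
      exact hs x hx (ht x (e.le hx))
    · obtain ⟨x, hx⟩ := t.2.1
      exact hs x (e.le hx) (ht x hx)
  surf := surf_Fr h
  hp := by
    intro c hn hc hs
    exact fr_side c hn hc (by rw [Fr_compl]; exact hs)
  hn := by
    intro c hn hc hs
    exact fr_side c hn hc hs

/-- the sides of a wall after subdivision -/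
def sdp (G : SimpleGraph V) (Q P : Set V) : Set (Cq G) :=
  {s | (∃ x ∈ s.1, x ∉ Q) ∧ ∀ x ∈ s.1, x ∉ Q → x ∈ P}

private theorem Wall.mem (h : Wall G Q P N) (x : V) : x ∈ Q ∨ x ∈ P ∨ x ∈ N := by
  have := Set.eq_univ_iff_forall.1 h.cover x
  rcases this with (h1 | h1) | h1
  · exact Or.inl h1
  · exact Or.inr (Or.inl h1)
  · exact Or.inr (Or.inr h1)

/-- vertices of a simplex which contains a vertex of `P` -/
private theorem Wall.mem_P (h : Wall G Q P N) {s : Cq G} {x : V} (hx : x ∈ s.1) (hxP : x ∈ P) :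
    ∀ y ∈ s.1, y ∉ Q → y ∈ P := by
  intro y hy hyQ
  rcases h.mem y with h1 | h1 | h1
  · exact absurd h1 hyQ
  · exact h1
  · exfalso
    have hne : x ≠ y := by
      rintro rfl
      exact disj_el h.dpn hxP h1
    exact h.nadj x hxP y h1 (s.2.2 hx hy hne)

private theorem Wall.side' (h : Wall G Q P N) {s : Cq G} (hs : s ∉ mi G Q) :
    s ∈ sdp G Q P ∨ s ∈ sdp G Q N := by
  have : ∃ x ∈ s.1, x ∉ Q := by
    by_contra h1
    push Not at h1
    exact hs h1
  obtain ⟨x, hx, hxQ⟩ := this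
  rcases h.mem x with h1 | h1 | h1
  · exact absurd h1 hxQ
  · exact Or.inl ⟨⟨x, hx, hxQ⟩, h.mem_P hx h1⟩
  · exact Or.inr ⟨⟨x, hx, hxQ⟩, h.swap.mem_P hx h1⟩

private theorem sdp_disj' (h : Wall G Q P N) : Disjoint (sdp G Q P) (sdp G Q N) := by
  refine disj_of fun s hs hs' => ?_
  obtain ⟨x, hx, hxQ⟩ := hs.1
  exact disj_el h.dpn (hs.2 x hx hxQ) (hs'.2 x hx hxQ)

private theorem Wall.sd_hp (h : Wall G Q P N) (c : Finset (Cq G)) (hn : c.Nonempty)
    (hc : (sd G).IsClique (c : Set (Cq G))) (hs : (c : Set (Cq G)) ⊆ mi G Q) :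
    Conn (sd G) (Lk (sd G) (c : Set (Cq G)) ∩ sdp G Q P) ∧
      HZ (sd G) (Lk (sd G) (c : Set (Cq G)) ∩ sdp G Q P) := by
  obtain ⟨t, htc, ht⟩ := chain_top c hc hn
  have htQ : t ∈ mi G Q := hs htc
  have heq : Lk (sd G) (c : Set (Cq G)) ∩ sdp G Q P =
      {s | t < s ∧ ∃ x ∈ s.1, x ∉ t.1 ∧ x ∈ P} := by
    ext s
    constructor
    · rintro ⟨hL, ⟨x, hx, hxQ⟩, hP⟩
      refine ⟨?_, x, hx, fun hxt => hxQ (htQ x hxt), hP x hx hxQ⟩
      rcases hL t htc with e | e
      · exact e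
      · exact absurd (htQ x (e.le hx)) hxQ
    · rintro ⟨hts, x, hx, hxt, hxP⟩
      have hxQ : x ∉ Q := fun hq => disj_el h.dqp hq hxP
      refine ⟨fun r hr => Or.inl (lt_of_le_of_lt (ht r hr) hts), ⟨x, hx, hxQ⟩, h.mem_P hx hxP⟩
  rw [heq]
  have h1 := h.hp t.1 t.2.1 t.2.2 (fun x hx => htQ x hx)
  exact ⟨(above_pl_Conn t P).2 h1.1, (above_pl_HZ t P).2 h1.2⟩

/-- WALLS LIVE FOREVER.  Sketch: for a chain in `mi Q` with greatest element `t` the part of the link
in `sdp Q P` is `{s | t < s ∧ ∃ x ∈ s, x ∉ t ∧ x ∈ P}`: use `above_pl_Conn`, `above_pl_HZ`. -/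
theorem Wall.sd [Finite V] (h : Wall G Q P N) :
    Wall (sd G) (mi G Q) (sdp G Q P) (sdp G Q N) where
  cover := by
    rw [Set.eq_univ_iff_forall]
    intro s
    by_cases h1 : s ∈ mi G Q
    · exact Or.inl (Or.inl h1)
    · rcases h.side' h1 with h2 | h2
      · exact Or.inl (Or.inr h2)
      · exact Or.inr h2
  dqp := disj_of fun s hs hs' => by
    obtain ⟨x, hx, hxQ⟩ := hs'.1
    exact hxQ (hs x hx)
  dqn := disj_of fun s hs hs' => by
    obtain ⟨x, hx, hxQ⟩ := hs'.1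
    exact hxQ (hs x hx)
  dpn := sdp_disj' h
  nadj := by
    rintro s hs t ht (e | e)
    · obtain ⟨x, hx, hxQ⟩ := hs.1
      exact disj_el h.dpn (hs.2 x hx hxQ) (ht.2 x (e.le hx) hxQ)
    · obtain ⟨x, hx, hxQ⟩ := ht.1
      exact disj_el h.dpn (hs.2 x (e.le hx) hxQ) (ht.2 x hx hxQ)
  surf := surf_sd h.surf
  hp := fun c hn hc hs => h.sd_hp c hn hc hs
  hn := fun c hn hc hs => h.swap.sd_hp c hn hc hs

/-- a simplex not inside the wall has its other vertices on one side -/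
theorem Wall.side (h : Wall G Q P N) {s : Cq G} (hs : s ∉ mi G Q) :
    s ∈ sdp G Q P ∨ s ∈ sdp G Q N := h.side' hs

theorem sdp_disj (h : Wall G Q P N) : Disjoint (sdp G Q P) (sdp G Q N) := sdp_disj' h

/-- the data of a union of two walls at a simplex of the first -/
private theorem union_lk {Q' P' N' : Set V} (h : Wall G Q P N) (h' : Wall G Q' P' N')
    (hn : NAdj G Q Q') (h1 : Q ⊆ P') {s : Finset V} (hne : s.Nonempty)
    (hs : (s : Set V) ⊆ Q) :
    Lk G (s : Set V) ∩ (P ∩ P') = Lk G (s : Set V) ∩ P ∧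
      Lk G (s : Set V) ∩ (N ∪ N') = Lk G (s : Set V) ∩ N := by
  obtain ⟨x, hx⟩ := hne
  have hxQ : x ∈ Q := hs hx
  constructor
  · ext v
    constructor
    · rintro ⟨hL, hP, -⟩; exact ⟨hL, hP⟩
    · rintro ⟨hL, hP⟩
      refine ⟨hL, hP, ?_⟩
      rcases h'.mem v with h2 | h2 | h2
      · exact absurd (hL x hx) (hn x hxQ v h2)
      · exact h2
      · exact absurd (hL x hx) (h'.nadj x (h1 hxQ) v h2)
  · ext v
    constructor
    · rintro ⟨hL, hN | hN⟩
      · exact ⟨hL, hN⟩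
      · exact absurd (hL x hx) (h'.nadj x (h1 hxQ) v hN)
    · rintro ⟨hL, hN⟩; exact ⟨hL, Or.inl hN⟩

private theorem clique_split {Q' : Set V} (hn : NAdj G Q Q') {s : Finset V}
    (hc : G.IsClique (s : Set V)) (hs : (s : Set V) ⊆ Q ∪ Q') :
    (s : Set V) ⊆ Q ∨ (s : Set V) ⊆ Q' := by
  by_cases h1 : (s : Set V) ⊆ Q
  · exact Or.inl h1
  · right
    rw [Set.not_subset] at h1
    obtain ⟨x, hx, hxQ⟩ := h1
    have hxQ' : x ∈ Q' := (hs hx).resolve_left hxQ
    intro y hy
    rcases hs hy with h2 | h2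
    · exfalso
      have hne : y ≠ x := by
        rintro rfl
        exact hxQ h2
      exact hn y h2 x hxQ' (hc hy hx hne)
    · exact h2

private theorem lk_union {Q' : Set V} (hn : NAdj G Q Q') {x : V} (hx : x ∈ Q) :
    Lk G {x} ∩ (Q ∪ Q') = Lk G {x} ∩ Q := by
  ext v
  constructor
  · rintro ⟨hL, h2 | h2⟩
    · exact ⟨hL, h2⟩
    · exact absurd (hL x rfl) (hn x hx v h2)
  · rintro ⟨hL, h2⟩; exact ⟨hL, Or.inl h2⟩

/-- union of two disjoint walls, each on the `P`-side of the other -/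
theorem Wall.union {Q' P' N' : Set V} (h : Wall G Q P N) (h' : Wall G Q' P' N')
    (hd : Disjoint Q Q') (hn : NAdj G Q Q') (h1 : Q ⊆ P') (h2 : Q' ⊆ P)
    (h4 : Disjoint N N') : Wall G (Q ∪ Q') (P ∩ P') (N ∪ N') where
  cover := by
    rw [Set.eq_univ_iff_forall]
    intro x
    rcases h.mem x with a | a | a
    · exact Or.inl (Or.inl (Or.inl a))
    · rcases h'.mem x with b | b | b
      · exact Or.inl (Or.inl (Or.inr b))
      · exact Or.inl (Or.inr ⟨a, b⟩)
      · exact Or.inr (Or.inr b)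
    · exact Or.inr (Or.inl a)
  dqp := disj_of fun x hx hx' => by
    rcases hx with hx | hx
    · exact disj_el h.dqp hx hx'.1
    · exact disj_el h'.dqp hx hx'.2
  dqn := disj_of fun x hx hx' => by
    rcases hx with hx | hx <;> rcases hx' with hx' | hx'
    · exact disj_el h.dqn hx hx'
    · exact disj_el h'.dpn (h1 hx) hx'
    · exact disj_el h.dpn (h2 hx) hx'
    · exact disj_el h'.dqn hx hx'
  dpn := disj_of fun x hx hx' => by
    rcases hx' with hx' | hx'
    · exact disj_el h.dpn hx.1 hx'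
    · exact disj_el h'.dpn hx.2 hx'
  nadj := by
    rintro x ⟨hx, hx'⟩ y (hy | hy)
    · exact h.nadj x hx y hy
    · exact h'.nadj x hx' y hy
  surf := by
    refine ⟨fun x hx => ?_, fun s hc hs => ?_⟩
    · rcases hx with hx | hx
      · rw [lk_union hn hx]; exact h.surf.lk x hx
      · rw [Set.union_comm, lk_union (nadj_symm hn) hx]; exact h'.surf.lk x hx
    · rcases clique_split hn hc hs with h3 | h3
      · exact h.surf.k4 s hc h3
      · exact h'.surf.k4 s hc h3
  hp := by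
    intro s hne hc hs
    rcases clique_split hn hc hs with h3 | h3
    · rw [(union_lk h h' hn h1 hne h3).1]; exact h.hp s hne hc h3
    · rw [Set.inter_comm P P', (union_lk h' h (nadj_symm hn) h2 hne h3).1]
      exact h'.hp s hne hc h3
  hn := by
    intro s hne hc hs
    rcases clique_split hn hc hs with h3 | h3
    · rw [(union_lk h h' hn h1 hne h3).2]; exact h.hn s hne hc h3
    · rw [Set.union_comm N N', (union_lk h' h (nadj_symm hn) h2 hne h3).2]
      exact h'.hn s hne hc h3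

end MOT
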