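import Pool.Agent.MOT.EaS
import Pool.Agent.MOT.EaT
import Pool.Agent.MOT.EaA
import Pool.Agent.MOT.DmB
import Pool.Agent.MOT.Wal
import Pool.Agent.MOT.Sph

/-!
# MOT/EaG: adding one vertex; discs in walls (block E, helper98)
-/

open Classical

noncomputable section

namespace MOT.Ea

variable {V : Type} {G : SimpleGraph V} {B : Set V → Prop} {X Y Z C Q P N : Set V} {x : V}

theorem Acy_single [Finite V] (h3 : IsSph3 G) (x : V) : Acy G {x} :=
  ⟨cone_Conn rfl fun y hy h => absurd hy h, cone_HZ rfl fun y hy h => absurd hy h,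
    (sph_compl_vertex h3 x).1⟩

/-- Sketch: `insert x X` is connected (`add_vertex_Conn`) and `HZ` (`add_vertex_Inj` and `HZ G X`).
Complement: `Xᶜ = insert x (insert x X)ᶜ` is connected and the link of `x` in `(insert x X)ᶜ` is
`Lk G {x} \ X`, connected by `sphere_compl` in the sphere `Lk G {x}` (`h3.lk_surf x`, `h3.vert x`); so
`(insert x X)ᶜ` is connected by `add_vertex_Conn`. -/
theorem Acy_insert [Finite V] (h3 : IsSph3 G) (h : Acy G X) (hx : x ∉ X)
    (hc : Conn G (Lk G {x} ∩ X)) (hz : HZ G (Lk G {x} ∩ X)) (hne : (Lk G {x} \ X).Nonempty) :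
    Acy G (insert x X) := by
  refine ⟨(add_vertex_Conn hx hc).2 h.1, ?_, ?_⟩
  · intro a ha
    refine add_vertex_Inj hx hc a ha ?_
    exact Triv_rs.1 (h.2.1 _ (rs_mem (Set.subset_insert x X) ha))
  · have hxL : x ∉ Lk G {x} := fun hh => G.irrefl (hh x rfl)
    have e1 : Lk G {x} ∩ (insert x X)ᶜ = Lk G {x} \ (Lk G {x} ∩ X) := by
      ext y
      constructor
      · rintro ⟨h1, h2⟩
        exact ⟨h1, fun h3 => h2 (Set.mem_insert_of_mem x h3.2)⟩
      · rintro ⟨h1, h2⟩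
        refine ⟨h1, fun h3 => ?_⟩
        rcases h3 with h3 | h3
        · exact hxL (h3 ▸ h1)
        · exact h2 ⟨h1, h3⟩
    have e2 : Xᶜ = insert x (insert x X)ᶜ := by
      ext y
      constructor
      · intro h1
        by_cases hy : y = x
        · exact Or.inl hy
        · refine Or.inr fun h3 => ?_
          rcases h3 with h3 | h3
          · exact hy h3
          · exact h1 h3
      · rintro (h1 | h1)
        · rw [h1]
          exact hx
        · exact fun h3 => h1 (Set.mem_insert_of_mem x h3)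
    have hne' : Lk G {x} ∩ X ≠ Lk G {x} := by
      intro h1
      obtain ⟨y, hy1, hy2⟩ := hne
      rw [← h1] at hy1
      exact hy2 hy1.2
    have h4 := (sphere_compl (h3.lk_surf x) (h3.vert x).1 (h3.vert x).2 Set.inter_subset_left
      hc hz hne').1
    rw [← e1] at h4
    have hxW : x ∉ (insert x X)ᶜ := fun h5 => h5 (Set.mem_insert x X)
    rw [← add_vertex_Conn hxW h4, ← e2]
    exact h.2.2

/-- Sketch: `EE G X {x} = {t | vx G x < t ∧ ∀ y ∈ t.1, y ∉ (vx G x).1 → y ∈ X}`; `above_mi_Conn`,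
`above_mi_HZ` (`(vx G x).1 = {x}`). -/
theorem EE_single (hx : x ∉ X) : (Conn (sd G) (EE G X {x}) ↔ Conn G (Lk G {x} ∩ X)) ∧
    (HZ (sd G) (EE G X {x}) ↔ HZ G (Lk G {x} ∩ X)) := by
  have e : EE G X {x} = {t | vx G x < t ∧ ∀ y ∈ t.1, y ∉ (vx G x).1 → y ∈ X} := by
    ext t
    have hv : ∀ y, y ∈ (vx G x).1 ↔ y = x := fun y => Finset.mem_singleton
    constructor
    · rintro ⟨⟨h1, ⟨y, hy, hyX⟩⟩, ⟨z, hz, hzx⟩⟩
      have hzx' : z = x := hzx
      subst hzx'
      refine ⟨?_, ?_⟩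
      · rw [Cq.lt_iff]
        refine ⟨fun w hw => ?_, fun h2 => ?_⟩
        · rw [(hv w).1 hw]
          exact hz
        · have := (hv y).1 (h2 hy)
          exact hx (this ▸ hyX)
      · intro w hw hwz
        rcases h1 w hw with h3 | h3
        · exact h3
        · exact absurd ((hv w).2 h3) hwz
    · rintro ⟨h1, h2⟩
      rw [Cq.lt_iff] at h1
      have hxt : x ∈ t.1 := h1.1 ((hv x).2 rfl)
      obtain ⟨y, hy, hyx⟩ := Finset.exists_of_ssubset h1
      refine ⟨⟨fun w hw => ?_, ⟨y, hy, h2 y hy hyx⟩⟩, ⟨x, hxt, rfl⟩⟩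
      by_cases hwx : w ∈ (vx G x).1
      · exact Or.inr ((hv w).1 hwx)
      · exact Or.inl (h2 w hw hwx)
  have e2 : ((vx G x).1 : Set V) = {x} := Finset.coe_singleton x
  rw [e]
  constructor
  · rw [above_mi_Conn, e2]
  · rw [above_mi_HZ, e2]

/-- adding one vertex to a ball -/
theorem BallRules.add [Finite V] (R : BallRules G B) (h3 : IsSph3 G) (h : Acy G X) (hx : x ∉ X)
    (hc : Conn G (Lk G {x} ∩ X)) (hz : HZ G (Lk G {x} ∩ X)) (hne : (Lk G {x} \ X).Nonempty)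
    (hB : B X) : B (insert x X) := by
  have e : insert x X = X ∪ {x} := by
    ext y; simp only [Set.mem_insert_iff, Set.mem_union, Set.mem_singleton_iff]; tauto
  have h' := Acy_insert h3 h hx hc hz hne
  rw [e] at h' ⊢
  exact R.r2 X {x} (Set.disjoint_singleton_right.2 hx) h (Acy_single h3 x) h'
    ((EE_single hx).1.2 hc) ((EE_single hx).2.2 hz) hB (R.r0 x)

/-- a disc in a wall with connected sides is acyclic.  Sketch: `Cᶜ = P ∪ N ∪ (Q \ C)`, every point of `Q` has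
neighbours in `P` and in `N` (`hw.hp {q}`, `hw.hn {q}`), `Q \ C` is not empty: `Conn_iff`. -/
theorem wall_acy (hw : Wall G Q P N) (hP : Conn G P) (hN : Conn G N) (hC : C ⊆ Q)
    (h1 : Conn G C) (h2 : HZ G C) (hne : C ≠ Q) : Acy G C := by
  refine ⟨h1, h2, ?_⟩
  have hPC : P ⊆ Cᶜ := fun y hy hyC => Set.disjoint_left.1 hw.dqp (hC hyC) hy
  have hNC : N ⊆ Cᶜ := fun y hy hyC => Set.disjoint_left.1 hw.dqn (hC hyC) hy
  obtain ⟨q, hqQ, hqC⟩ : ∃ q ∈ Q, q ∉ C := by
    by_contra hn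
    push Not at hn
    exact hne (Set.Subset.antisymm hC hn)
  have nbP : ∀ q ∈ Q, ∃ p ∈ P, G.Adj q p := by
    intro q hq
    obtain ⟨p, hp⟩ := (hw.hp {q} ⟨q, by simp⟩ (by simp) (by simpa using hq)).1.1
    exact ⟨p, hp.2, by simpa [Lk] using hp.1⟩
  have nbN : ∀ q ∈ Q, ∃ p ∈ N, G.Adj q p := by
    intro q hq
    obtain ⟨p, hp⟩ := (hw.hn {q} ⟨q, by simp⟩ (by simp) (by simpa using hq)).1.1
    exact ⟨p, hp.2, by simpa [Lk] using hp.1⟩
  rw [Conn_iff]
  refine ⟨⟨q, hqC⟩, fun f hf => ?_⟩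
  have fP : ∀ a ∈ P, ∀ b ∈ P, f a = f b := fun a ha b hb =>
    hP.const (f := f) (fun u v e => hf u v (e.mono hPC)) ha hb
  have fN : ∀ a ∈ N, ∀ b ∈ N, f a = f b := fun a ha b hb =>
    hN.const (f := f) (fun u v e => hf u v (e.mono hNC)) ha hb
  have fQP : ∀ a ∈ Q, a ∉ C → ∀ b ∈ P, f a = f b := by
    intro a ha haC b hb
    obtain ⟨p, hp, e⟩ := nbP a ha
    rw [hf a p ⟨e, haC, hPC hp⟩]
    exact fP p hp b hb
  have fQN : ∀ a ∈ Q, a ∉ C → ∀ b ∈ N, f a = f b := by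
    intro a ha haC b hb
    obtain ⟨p, hp, e⟩ := nbN a ha
    rw [hf a p ⟨e, haC, hNC hp⟩]
    exact fN p hp b hb
  have key : ∀ a, a ∉ C → f a = f q := by
    intro a haC
    have ha : a ∈ Q ∪ P ∪ N := by
      rw [hw.cover]
      trivial
    rcases ha with (ha | ha) | ha
    · obtain ⟨p, hp⟩ := hP.1
      rw [fQP a ha haC p hp, fQP q hqQ hqC p hp]
    · exact (fQP q hqQ hqC a ha).symm
    · exact (fQN q hqQ hqC a ha).symm
  intro a ha b hb
  rw [key a ha, key b hb]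

/-- THICK DISC: a disc in a wall is a ball -/
theorem thick_disc [Finite V] (R : BallRules G B) (h3 : IsSph3 G) (hw : Wall G Q P N)
    (hQ : Conn G Q) (hP : Conn G P) (hN : Conn G N) (hC : C ⊆ Q) (h1 : Conn G C) (h2 : HZ G C)
    (hne : C ≠ Q) : B C := by
  refine shell2_ind hw.surf hQ B (fun y _ => R.r0 y) ?_ hC hne h1 h2
  intro Z y hs _ hyZ z1 z2 _ _ l1 l2 ih
  have hZQ : Z ≠ Q := fun h => hyZ (h ▸ hs (Or.inl rfl))
  have hlk : (Lk G {y} \ Z).Nonempty := by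
    obtain ⟨p, hp⟩ := (hw.hp {y} ⟨y, by simp⟩ (by simp) (by simpa using hs (Or.inl rfl))).1.1
    refine ⟨p, by simpa using hp.1, fun h => ?_⟩
    exact Set.disjoint_left.1 hw.dqp (hs (Or.inr h)) hp.2
  exact R.add h3 (wall_acy hw hP hN (fun z hz => hs (Or.inr hz)) z1 z2 hZQ) hyZ l1 l2 hlk ih

end MOT.Ea
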