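import Pool.Agent.MOT.EaDef
import Pool.Agent.MOT.Lab
import Pool.Agent.MOT.Wal
import Pool.Agent.MOT.Cpt

/-!
# MOT/EaL: the layering of the subdivision (helper81)

`Lay_sd`: `l' s = min l + max l` (`lsd`), `rho' (2i) = vx (rho i)`, `rho' (2i+1) = re G rho i`.
`{l' = 2j} = mi {l = j}`, `{l' = 2j+1} = Fr {l ≤ j}`, `{l' ≤ 2j} = mi {l ≤ j}`, `{l' ≤ 2j+1} = pl {l ≤ j}`.
-/

open Classical

noncomputable section

namespace MOT.Ea

variable {V : Type} {G : SimpleGraph V} {l : V → ℕ} {m : ℕ} {rho : ℕ → V}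

/-- the vertical path of the subdivision -/
def rhs (G : SimpleGraph V) (rho : ℕ → V) (i : ℕ) : Cq G :=
  if i % 2 = 0 then vx G (rho (i / 2)) else re G rho (i / 2)

theorem rhs_even (j : ℕ) : rhs G rho (2 * j) = vx G (rho j) := by
  unfold rhs
  rw [if_pos (by omega), show 2 * j / 2 = j by omega]

theorem rhs_odd (j : ℕ) : rhs G rho (2 * j + 1) = re G rho j := by
  unfold rhs
  rw [if_neg (by omega), show (2 * j + 1) / 2 = j by omega]

theorem mem_vx {x y : V} : y ∈ (vx G x).1 ↔ y = x := by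
  unfold vx; simp

theorem mem_re {j : ℕ} (h : G.Adj (rho j) (rho (j + 1))) {y : V} :
    y ∈ (re G rho j).1 ↔ y = rho j ∨ y = rho (j + 1) := by
  unfold re
  rw [dif_pos h]
  unfold eg
  simp

theorem eq_vx {s : Cq G} {x : V} (h : ∀ y ∈ s.1, y = x) : s = vx G x := by
  apply Subtype.ext
  obtain ⟨y, hy⟩ := s.2.1
  ext z
  rw [mem_vx]
  constructor
  · exact h z
  · rintro rfl
    rw [← h y hy]; exact hy

private theorem set_ext' {i : ℕ} {f : V → ℕ} : {x | i < f x} = {x | f x ≤ i}ᶜ := by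
  ext x; simp

/-- side sets of the layers of the subdivision -/
theorem lsd_lt_odd (hl : ∀ x y, G.Adj x y → l x ≤ l y + 1) (j : ℕ) :
    {s : Cq G | lsd l s < 2 * j + 1} = mi G {x | l x ≤ j} := by
  rw [← lsd_even hl]; ext s; simp only [Set.mem_ofPred_eq]; omega

theorem lsd_gt_odd (hl : ∀ x y, G.Adj x y → l x ≤ l y + 1) (j : ℕ) :
    {s : Cq G | 2 * j + 1 < lsd l s} = mi G {x | l x ≤ j}ᶜ := by
  rw [set_ext', lsd_odd hl, compl_pl]

theorem lsd_gt_even (hl : ∀ x y, G.Adj x y → l x ≤ l y + 1) (j : ℕ) :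
    {s : Cq G | 2 * j < lsd l s} = pl G {x | j < l x} := by
  rw [set_ext', lsd_even hl, compl_mi, ← set_ext']

theorem lsd_sdp_lo (hl : ∀ x y, G.Adj x y → l x ≤ l y + 1) (j : ℕ) :
    sdp G {x | l x = j} {x | l x < j} = {s : Cq G | lsd l s < 2 * j} := by
  have e : {s : Cq G | lsd l s < 2 * j} = mi G {x | l x ≤ j} \ mi G {x | l x = j} := by
    rw [← lsd_even hl, ← lsd_eq_even hl]
    ext s; simp only [Set.mem_ofPred_eq, Set.mem_sdiff]; omega
  rw [e]
  ext s
  constructor
  · rintro ⟨⟨x, hx, h1⟩, h2⟩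
    refine ⟨fun y hy => ?_, fun h => h1 (h x hx)⟩
    by_cases h3 : l y = j
    · exact h3.le
    · exact le_of_lt (show l y < j from h2 y hy h3)
  · rintro ⟨h1, h2⟩
    refine ⟨?_, fun y hy h3 => lt_of_le_of_ne (h1 y hy) h3⟩
    by_contra h4
    exact h2 fun x hx => by_contra fun h5 => h4 ⟨x, hx, h5⟩

theorem lsd_sdp_hi (hl : ∀ x y, G.Adj x y → l x ≤ l y + 1) (j : ℕ) :
    sdp G {x | l x = j} {x | j < l x} = {s : Cq G | 2 * j < lsd l s} := by
  rw [lsd_gt_even hl]
  ext s
  constructor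
  · rintro ⟨⟨x, hx, h1⟩, h2⟩
    exact ⟨x, hx, h2 x hx h1⟩
  · rintro ⟨x, hx, h1⟩
    have h1' : j < l x := h1
    refine ⟨⟨x, hx, fun h => ?_⟩, fun y hy h3 => ?_⟩
    · have h' : l x = j := h
      omega
    · by_cases hxy : x = y
      · rw [← hxy]; exact h1
      · have h4 := hl x y (s.2.2 (Finset.mem_coe.2 hx) (Finset.mem_coe.2 hy) hxy)
        have h3' : l y ≠ j := h3
        show j < l y
        omega

private theorem par (i : ℕ) : ∃ j, i = 2 * j ∨ i = 2 * j + 1 := ⟨i / 2, by omega⟩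

private theorem Lay.co (h : Lay G m l rho) {j : ℕ} (hj : j < m) :
    Conn G {x | l x ≤ j}ᶜ ∧ HZ G {x | l x ≤ j}ᶜ := by
  rw [← set_ext']; exact ⟨h.uc j hj, h.uh j hj⟩

theorem Lay.FF_Conn [Finite V] (h : Lay G m l rho) {j : ℕ} (hj : j < m) :
    Conn (sd G) (FF G l j) := Fr_Conn h.sph (h.dc j hj) (h.co hj).1

theorem Lay.FF_HZ [Finite V] (h : Lay G m l rho) {j : ℕ} (hj : j < m) :
    HZ (sd G) (FF G l j) := by
  rw [← b1_eq_zero]
  unfold FF
  rw [b1_Fr h.sph]
  unfold bb
  rw [b1_eq_zero.2 (h.dh j hj), b1_eq_zero.2 (h.co hj).2]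

theorem Lay.FF_Surf [Finite V] (h : Lay G m l rho) (j : ℕ) : Surf (sd G) (FF G l j) :=
  surf_Fr h.sph

theorem Lay_sd [Finite V] (h : Lay G m l rho) :
    Lay (sd G) (2 * m) (lsd (G := G) l) (rhs G rho) where
  sph := sd_sph3 h.sph
  le s := by
    obtain ⟨x, hx, ex⟩ := Finset.exists_mem_eq_inf' s.2.1 l
    obtain ⟨y, hy, ey⟩ := Finset.exists_mem_eq_sup' s.2.1 l
    have h1 := h.le x
    have h2 := h.le y
    unfold lsd
    omega
  two := by have := h.two; omega
  lip := lsd_lip h.lip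
  bot s hs := by
    have h1 : s ∈ mi G {x | l x = 0} := by rw [← lsd_eq_even h.lip]; exact hs
    have h2 := rhs_even (G := G) (rho := rho) 0
    rw [Nat.mul_zero] at h2
    rw [h2]
    exact eq_vx fun y hy => h.bot y (h1 y hy)
  top s hs := by
    have h1 : s ∈ mi G {x | l x = m} := by rw [← lsd_eq_even h.lip]; exact hs
    rw [rhs_even]
    exact eq_vx fun y hy => h.top y (h1 y hy)
  wall i h0 hm := by
    obtain ⟨j, hj | hj⟩ := par i
    · subst hj
      have h1 := (h.wall j (by omega) (by omega)).sd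
      rw [lsd_sdp_lo h.lip, lsd_sdp_hi h.lip] at h1
      rw [lsd_eq_even h.lip]
      exact h1
    · subst hj
      rw [lsd_eq_odd h.lip, lsd_lt_odd h.lip, lsd_gt_odd h.lip]
      exact (Fr_wall h.sph).swap
  lc i hi := by
    obtain ⟨j, hj | hj⟩ := par i
    · subst hj
      rw [lsd_eq_even h.lip]
      exact sd_Conn.2 (h.lc j (by omega))
    · subst hj
      rw [lsd_eq_odd h.lip]
      exact h.FF_Conn (by omega)
  lh i hi := by
    obtain ⟨j, hj | hj⟩ := par i
    · subst hj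
      rw [lsd_eq_even h.lip]
      exact sd_HZ.2 (h.lh j (by omega))
    · subst hj
      rw [lsd_eq_odd h.lip]
      exact h.FF_HZ (by omega)
  dc i hi := by
    obtain ⟨j, hj | hj⟩ := par i
    · subst hj
      rw [lsd_even h.lip]
      exact sd_Conn.2 (h.dc j (by omega))
    · subst hj
      rw [lsd_odd h.lip]
      exact (bt_Conn mi_sub_pl subset_rfl).2 (h.dc j (by omega))
  dh i hi := by
    obtain ⟨j, hj | hj⟩ := par i
    · subst hj
      rw [lsd_even h.lip]
      exact sd_HZ.2 (h.dh j (by omega))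
    · subst hj
      rw [lsd_odd h.lip]
      exact (bt_HZ mi_sub_pl subset_rfl).2 (h.dh j (by omega))
  uc i hi := by
    obtain ⟨j, hj | hj⟩ := par i
    · subst hj
      rw [lsd_gt_even h.lip]
      exact (bt_Conn mi_sub_pl subset_rfl).2 (h.uc j (by omega))
    · subst hj
      rw [lsd_gt_odd h.lip]
      exact sd_Conn.2 (h.co (by omega)).1
  uh i hi := by
    obtain ⟨j, hj | hj⟩ := par i
    · subst hj
      rw [lsd_gt_even h.lip]
      exact (bt_HZ mi_sub_pl subset_rfl).2 (h.uh j (by omega))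
    · subst hj
      rw [lsd_gt_odd h.lip]
      exact sd_HZ.2 (h.co (by omega)).2
  rl i hi := by
    obtain ⟨j, hj | hj⟩ := par i
    · subst hj
      rw [rhs_even]
      have h1 : vx G (rho j) ∈ {s : Cq G | lsd l s = 2 * j} := by
        rw [lsd_eq_even h.lip]
        intro y hy
        rw [mem_vx] at hy
        rw [hy]; exact h.rl j (by omega)
      exact h1
    · subst hj
      rw [rhs_odd]
      have ha := h.ra j (by omega)
      have h1 : re G rho j ∈ {s : Cq G | lsd l s = 2 * j + 1} := by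
        rw [lsd_eq_odd h.lip]
        refine ⟨⟨rho j, (mem_re ha).2 (Or.inl rfl), ?_⟩, ⟨rho (j + 1), (mem_re ha).2 (Or.inr rfl), ?_⟩⟩
        · exact (h.rl j (by omega)).le
        · intro h2
          have h3 : l (rho (j + 1)) ≤ j := h2
          rw [h.rl (j + 1) (by omega)] at h3
          omega
      exact h1
  ra i hi := by
    obtain ⟨j, hj | hj⟩ := par i
    · subst hj
      have ha := h.ra j (by omega)
      rw [rhs_even, rhs_odd]
      refine sd_adj.2 (Or.inl (lt_of_le_of_ne ?_ ?_))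
      · intro y hy
        rw [mem_vx] at hy
        exact (mem_re ha).2 (Or.inl hy)
      · intro e
        have h1 : rho (j + 1) ∈ (vx G (rho j)).1 := by
          rw [e]; exact (mem_re ha).2 (Or.inr rfl)
        rw [mem_vx] at h1
        exact ha.ne h1.symm
    · subst hj
      have ha := h.ra j (by omega)
      rw [show 2 * j + 1 + 1 = 2 * (j + 1) by ring, rhs_even, rhs_odd]
      refine sd_adj.2 (Or.inr (lt_of_le_of_ne ?_ ?_))
      · intro y hy
        rw [mem_vx] at hy
        exact (mem_re ha).2 (Or.inr hy)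
      · intro e
        have h1 : rho j ∈ (vx G (rho (j + 1))).1 := by
          rw [e]; exact (mem_re ha).2 (Or.inl rfl)
        rw [mem_vx] at h1
        exact ha.ne h1

end MOT.Ea
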