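import Pool.Agent.MOT.EaP
import Pool.Agent.MOT.EaT
import Pool.Agent.MOT.Cpt
import Pool.Agent.MOT.Joi

/-!
# MOT/EaX: existence of a cut, the step from a layer to the next (block E, helper98)
-/

open Classical

noncomputable section

namespace MOT.Ea

variable {V : Type} {G : SimpleGraph V} {l : V → ℕ} {m i : ℕ} {rho : ℕ → V} {X Y A : Set V}

/-- `Y` is a disc, a component of `X` in the layer `i`, without neighbours in `X` in the layer
`i - 1` -/
structure Inv (G : SimpleGraph V) (l : V → ℕ) (rho : ℕ → V) (X : Set V) (i : ℕ) (Y : Set V) :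
    Prop where
  comp : IsComp G (X ∩ {x | l x = i}) Y
  hz : HZ G Y
  rho : rho i ∉ Y
  low : ∀ y ∈ Y, ∀ z, G.Adj y z → l z + 1 = i → z ∉ X

/-- `re` is in `FF` and contains `rho i` and `rho (i + 1)` -/
theorem re_mem (L : Lay G m l rho) (hi : i < m) :
    re G rho i ∈ FF G l i ∧ rho i ∈ (re G rho i).1 ∧ rho (i + 1) ∈ (re G rho i).1 := by
  have h := L.ra i hi
  have h1 := L.rl i hi.le
  have h2 := L.rl (i + 1) hi
  have e : (re G rho i).1 = {rho i, rho (i + 1)} := by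
    unfold re
    rw [dif_pos h]
    rfl
  refine ⟨⟨⟨rho i, by rw [e]; simp, h1.le⟩, ⟨rho (i + 1), by rw [e]; simp, ?_⟩⟩, by rw [e]; simp,
    by rw [e]; simp⟩
  show ¬ l (rho (i + 1)) ≤ i
  omega

private theorem eax_FF {s : Cq G} {x y : V} (hx : x ∈ s.1) (hxi : l x = i) (hy : y ∈ s.1)
    (hyi : l y = i + 1) : s ∈ FF G l i := by
  refine ⟨⟨x, hx, ?_⟩, ⟨y, hy, ?_⟩⟩
  · show l x ≤ i
    omega
  · show ¬ l y ≤ i
    omega

private theorem eax_star (L : Lay G m l rho) (hi : i < m) {w : V} (hw : l w = i + 1) :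
    Conn (sd G) {t : Cq G | t ∈ FF G l i ∧ w ∈ t.1} := by
  have h1 := (L.lk_dn hi (s := {w}) (Finset.singleton_nonempty w) (by simp)
    (fun x hx => by rw [Finset.mem_singleton.1 hx]; exact hw)).1
  have h2 := (above_pl_Conn (vx G w) {x | l x = i}).2 h1
  have e : {t : Cq G | t ∈ FF G l i ∧ w ∈ t.1} =
      {t | vx G w < t ∧ ∃ x ∈ t.1, x ∉ (vx G w).1 ∧ x ∈ {x | l x = i}} := by
    ext t
    constructor
    · rintro ⟨ht, hwt⟩
      obtain ⟨-, ⟨x, hx, hxi⟩, -⟩ := FF_two L ht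
      have hne : x ≠ w := by rintro rfl; omega
      have hxn : x ∉ (vx G w).1 := fun h => hne (Finset.mem_singleton.1 h)
      refine ⟨?_, x, hx, hxn, hxi⟩
      rw [Cq.lt_iff, Finset.ssubset_iff_subset_ne]
      refine ⟨fun y hy => by rw [Finset.mem_singleton.1 hy]; exact hwt, fun he => ?_⟩
      exact hxn (he ▸ hx)
    · rintro ⟨hlt, x, hx, -, hxi⟩
      have hwt : w ∈ t.1 := (Cq.lt_iff.1 hlt).1 (Finset.mem_singleton_self w)
      exact ⟨eax_FF hx hxi hwt hw, hwt⟩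
  rw [e]
  exact h2

private theorem eax_tr {M : Set V} {s : Cq G} (h : s ∈ pl G M) (z : V) :
    z ∈ (tr M s).1 ↔ z ∈ s.1 ∧ z ∈ M := by
  rw [tr_val h, Finset.mem_filter]

private theorem eax_eg {x y : V} (h : G.Adj x y) : x ∈ (eg G h).1 ∧ y ∈ (eg G h).1 :=
  ⟨by simp [eg], by simp [eg]⟩

/-- UP.  `Ht` is a component of `FF i \ T`, `T = mi X ∩ dnF Y`, inside `dnF Y`, with `H^1 = 0`.
Sketch: `H := {w | l w = i + 1 ∧ w ∉ X ∧ ∃ s ∈ Ht, w ∈ s.1}`.
(1) `w ∈ H`, `s' ∈ FF i`, `w ∈ s'.1` imply `s' ∈ Ht`: the set `{s' ∈ FF i | w ∈ s'.1}` is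
`{t | vx G w < t ∧ ∃ x ∈ t.1, x ∉ {w} ∧ l x = i}` (`FF_two`), connected (`above_pl_Conn`, `Lay.lk_dn`), contained in
`FF i \ T` (`w ∉ X`): `IsComp.absorb`.
(2) `w ∈ H`, `z` adjacent to `w`, `l z = i` imply `z ∈ Y`: the edge is in `Ht ⊆ dnF Y` by (1).
(3) `w ∈ H`, `w' ∉ X`, `l w' = i + 1`, adjacent: `w' ∈ H`: take `z` in the layer `i` adjacent to both
(`Lay.lk_dn`), `{z, w, w'} ∈ Ht` by (1).
(4) every `s ∈ Ht` contains an element of `H`: `s ∉ T`, `s ∈ dnF Y`, so `s` is not inside `X`; its vertices in the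
layer `i` are in `Y ⊆ X`.
(5) `s ↦ tr (H ∪ {l = i}) s` is a retraction of `Ht` to `upF G l i H` (`ret_Conn`, `ret_HZ`; `upF H ⊆ Ht` by (1)), so
`upF H` is connected and `HZ`; `of_upF_Conn`, `of_upF_HZ`.
(6) `IsComp_of` with (3); `rho (i + 1) ∈ H` would give `rho i ∈ Y` by (2); `low` by (2) and `Y ⊆ X`. -/
theorem inv_up [Finite V] (L : Lay G m l rho) (hi : i < m) (h : Inv G l rho X i Y)
    {Ht : Set (Cq G)} (hH : IsComp (sd G) (FF G l i \ (mi G X ∩ dnF G l i Y)) Ht)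
    (hs : Ht ⊆ dnF G l i Y) (hz : HZ (sd G) Ht) : ∃ H, Inv G l rho Xᶜ (i + 1) H := by
  have hHF : Ht ⊆ FF G l i := fun s hs' => (hH.sub hs').1
  have hYX : Y ⊆ X := fun y hy => (h.comp.sub hy).1
  -- (1)
  have h1 : ∀ w, l w = i + 1 → w ∉ X → (∃ s ∈ Ht, w ∈ s.1) → ∀ s' ∈ FF G l i, w ∈ s'.1 →
      s' ∈ Ht := by
    rintro w hw hwX ⟨s, hsH, hws⟩ s' hs' hws'
    refine hH.absorb (eax_star L hi hw) (fun t ht => ⟨ht.1, fun hT => hwX (hT.1 w ht.2)⟩)
      ⟨s, ⟨hHF hsH, hws⟩, hsH⟩ ⟨hs', hws'⟩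
  obtain ⟨H, hHd⟩ : ∃ H : Set V, ∀ w, w ∈ H ↔ (l w = i + 1 ∧ w ∉ X ∧ ∃ s ∈ Ht, w ∈ s.1) :=
    ⟨{w | l w = i + 1 ∧ w ∉ X ∧ ∃ s ∈ Ht, w ∈ s.1}, fun w => Iff.rfl⟩
  have h1' : ∀ w ∈ H, ∀ s' ∈ FF G l i, w ∈ s'.1 → s' ∈ Ht := fun w hw =>
    h1 w ((hHd w).1 hw).1 ((hHd w).1 hw).2.1 ((hHd w).1 hw).2.2
  have hHl : ∀ w ∈ H, l w = i + 1 := fun w hw => ((hHd w).1 hw).1
  have hHX : ∀ w ∈ H, w ∉ X := fun w hw => ((hHd w).1 hw).2.1
  -- (2)
  have h2 : ∀ w ∈ H, ∀ z, G.Adj w z → l z = i → z ∈ Y := by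
    intro w hw z e hz'
    have hm := eax_eg e
    have := hs (h1' w hw (eg G e) (eax_FF hm.2 hz' hm.1 (hHl w hw)) hm.1)
    exact this.2 z hm.2 hz'
  -- (3)
  have h3 : ∀ w ∈ H, ∀ w', w' ∉ X → l w' = i + 1 → G.Adj w w' → w' ∈ H := by
    intro w hw w' hwX hwl e
    have hcl : G.IsClique (({w, w'} : Finset V) : Set V) := (eg G e).2.2
    obtain ⟨z, hz1, hz2⟩ := (L.lk_dn hi (s := {w, w'}) ⟨w, by simp⟩ hcl (fun x hx => by
      rcases Finset.mem_insert.1 hx with rfl | hx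
      · exact hHl _ hw
      · rw [Finset.mem_singleton.1 hx]; exact hwl)).1.1
    have hz2' : l z = i := hz2
    have a1 : G.Adj w z := hz1 w (by simp)
    have a2 : G.Adj w' z := hz1 w' (by simp)
    have hc2 : G.IsClique ((insert z {w, w'} : Finset V) : Set V) := by
      refine clique_insert hcl fun y hy => ?_
      rcases Finset.mem_insert.1 hy with rfl | hy
      · exact a1.symm
      · rw [Finset.mem_singleton.1 hy]; exact a2.symm
    have hmem : (⟨insert z {w, w'}, ⟨z, by simp⟩, hc2⟩ : Cq G) ∈ Ht := by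
      refine h1' w hw _ (eax_FF (x := z) (y := w) ?_ hz2' ?_ (hHl w hw)) ?_
      · show z ∈ (insert z {w, w'} : Finset V)
        simp
      · show w ∈ (insert z {w, w'} : Finset V)
        simp
      · show w ∈ (insert z {w, w'} : Finset V)
        simp
    refine (hHd w').2 ⟨hwl, hwX, _, hmem, ?_⟩
    show w' ∈ (insert z {w, w'} : Finset V)
    simp
  -- (4)
  have h4 : ∀ s ∈ Ht, ∃ w ∈ s.1, w ∈ H := by
    intro s hsH
    have hd := hs hsH
    have hnX : ¬ s ∈ mi G X := fun hX => (hH.sub hsH).2 ⟨hX, hd⟩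
    have : ∃ x ∈ s.1, x ∉ X := by
      by_contra hcon
      refine hnX fun x hx => ?_
      by_contra hx'
      exact hcon ⟨x, hx, hx'⟩
    obtain ⟨x, hx, hxX⟩ := this
    rcases (FF_two L hd.1).1 x hx with hxi | hxi
    · exact absurd (hYX (hd.2 x hx hxi)) hxX
    · exact ⟨x, hx, (hHd x).2 ⟨hxi, hxX, s, hsH, hx⟩⟩
  -- (5)
  have g1 : upF G l i H ⊆ Ht := by
    rintro s ⟨hsF, hsu⟩
    obtain ⟨-, -, w, hw, hwl⟩ := FF_two L hsF
    exact h1' w (hsu w hw hwl) s hsF hw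
  have gp : ∀ s ∈ Ht, s ∈ pl G (H ∪ {x | l x = i}) := by
    intro s hsH
    obtain ⟨w, hw, hwH⟩ := h4 s hsH
    exact ⟨w, hw, Or.inl hwH⟩
  have g2 : ∀ s ∈ Ht, tr (H ∪ {x | l x = i}) s ∈ upF G l i H := by
    intro s hsH
    obtain ⟨w, hw, hwH⟩ := h4 s hsH
    obtain ⟨-, ⟨x, hx, hxi⟩, -⟩ := FF_two L (hHF hsH)
    have hmem : ∀ z, z ∈ (tr (H ∪ {x | l x = i}) s).1 ↔ z ∈ s.1 ∧ (z ∈ H ∨ l z = i) :=
      fun z => eax_tr (gp s hsH) z
    refine ⟨eax_FF ((hmem x).2 ⟨hx, Or.inr hxi⟩) hxi ((hmem w).2 ⟨hw, Or.inl hwH⟩) (hHl w hwH),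
      fun z hz' hzl => ?_⟩
    rcases ((hmem z).1 hz').2 with h' | h'
    · exact h'
    · omega
  have g3 : ∀ s ∈ Ht, tr (H ∪ {x | l x = i}) s ≤ s := fun s _ => tr_le s
  have g4 : ∀ s ∈ Ht, ∀ t ∈ Ht, s ≤ t → tr (H ∪ {x | l x = i}) s ≤ tr (H ∪ {x | l x = i}) t :=
    fun s hsH t _ hst => tr_mono (gp s hsH) hst
  have g5 : ∀ s ∈ upF G l i H, tr (H ∪ {x | l x = i}) s = s := by
    rintro s ⟨hsF, hsu⟩
    refine tr_id fun x hx => ?_
    rcases (FF_two L hsF).1 x hx with h' | h'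
    · exact Or.inr h'
    · exact Or.inl (hsu x hx h')
  have c1 : Conn (sd G) (upF G l i H) := (ret_Conn (P := Cq G) _ g1 g2 g3 g4).1 hH.conn
  have c2 : HZ (sd G) (upF G l i H) := (ret_HZ (P := Cq G) _ g1 g2 g3 g4 g5).1 hz
  have d1 := of_upF_Conn L hi hHl c1
  have d2 := of_upF_HZ L hi hHl c2
  refine ⟨H, ⟨?_, d2, ?_, ?_⟩⟩
  · refine IsComp_of d1 (fun w hw => ⟨hHX w hw, hHl w hw⟩) ?_
    rintro w hw w' ⟨⟨hw1, hw2⟩, hw3⟩ e
    exact hw3 (h3 w hw w' hw1 hw2 e)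
  · intro hr
    exact h.rho (h2 _ hr (rho i) (L.ra i hi).symm (L.rl i hi.le))
  · intro y hy z e hz' hzX
    exact hzX (hYX (h2 y hy z e (by omega)))

/-- STEP.  Sketch: `T := mi X ∩ dnF Y`.
(a) `T = ∅`: no vertex of `X \ Y` is adjacent to `Y` (layer `i`: `IsComp.nadj`; layer `i - 1`: `low`; layer
`i + 1`: the edge would be in `T`), `X` is connected, so `X = Y`.
(b) A component `D` of `T` with `HZ`: it is a component of `mi X ∩ FF i` (nested `s ∈ D`, `t ∈ mi X ∩ FF i` have a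
common vertex `y ∈ Y` in the layer `i`, the other vertices of `t` in the layer `i` are adjacent to `y`, in `X`,
so in `Y`: `t ∈ T`); `re ∉ D` since `rho i ∉ Y` (`re_mem`).
(c) Otherwise `leaf_disc` in the sphere `FF i` (`Lay.FF_surf`, `Lay.FF_conn`, `Lay.FF_hz`) with
`E := FF i \ dnF Y` (connected: `dnF Y` is a disc by `dnF_Conn`, `dnF_HZ`, `≠ FF i` since `re ∉ dnF Y`; `sphere_compl`):
a component `Ht` of `FF i \ T` disjoint from `E`, so `Ht ⊆ dnF Y`; `inv_up`. -/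
theorem inv_step [Finite V] (L : Lay G m l rho) (hi : i < m) (hX : Conn G X)
    (h : Inv G l rho X i Y) : X ⊆ {x | l x = i} ∨
      (∃ D, IsComp (sd G) (mi G X ∩ FF G l i) D ∧ HZ (sd G) D ∧ re G rho i ∉ D) ∨
      ∃ H, Inv G l rho Xᶜ (i + 1) H := by
  have hYX : Y ⊆ X := fun y hy => (h.comp.sub hy).1
  have hYl : ∀ y ∈ Y, l y = i := fun y hy => (h.comp.sub hy).2
  obtain ⟨hre1, hre2, hre3⟩ := re_mem L hi
  have hred : re G rho i ∉ dnF G l i Y := fun hd => h.rho (hd.2 _ hre2 (L.rl i hi.le))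
  by_cases hne : (mi G X ∩ dnF G l i Y).Nonempty
  · by_cases hD : ∃ D, IsComp (sd G) (mi G X ∩ dnF G l i Y) D ∧ HZ (sd G) D
    · obtain ⟨D, hD, hDz⟩ := hD
      refine Or.inr (Or.inl ⟨D, ?_, hDz, fun hr => hred (hD.sub hr).2⟩)
      refine IsComp_of hD.conn (fun s hs => ⟨(hD.sub hs).1, (hD.sub hs).2.1⟩) ?_
      rintro s hs t ⟨⟨htX, htF⟩, htD⟩ e
      have htY : t ∈ dnF G l i Y := by
        refine ⟨htF, fun z hz hzl => ?_⟩
        rcases sd_adj.1 e with hlt | hlt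
        · obtain ⟨-, ⟨y, hy, hyl⟩, -⟩ := FF_two L (hD.sub hs).2.1
          have hyY : y ∈ Y := (hD.sub hs).2.2 y hy hyl
          have hyt : y ∈ t.1 := (Cq.lt_iff.1 hlt).1 hy
          by_cases hzy : z = y
          · rw [hzy]; exact hyY
          · by_contra hzY
            exact h.comp.nadj y hyY z ⟨⟨htX z hz, hzl⟩, hzY⟩ (t.2.2 hyt hz (Ne.symm hzy))
        · exact (hD.sub hs).2.2 z ((Cq.lt_iff.1 hlt).1 hz) hzl
      exact hD.nadj s hs t ⟨⟨htX, htY⟩, htD⟩ e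
    · have hno : ∀ D, IsComp (sd G) (mi G X ∩ dnF G l i Y) D → ¬ HZ (sd G) D :=
        fun D h1 h2 => hD ⟨D, h1, h2⟩
      have hsub : dnF G l i Y ⊆ FF G l i := fun s hs => hs.1
      have hneq : dnF G l i Y ≠ FF G l i := fun he => hred (by rw [he]; exact hre1)
      have hE := (sphere_compl (L.FF_surf i) (L.FF_conn hi) (L.FF_hz hi) hsub
        (dnF_Conn L hi hYl h.comp.conn) (dnF_HZ L hi hYl h.hz) hneq).1
      obtain ⟨Ht, hH, hdis, hHz, -⟩ := leaf_disc (L.FF_surf i) (L.FF_conn hi) (L.FF_hz hi)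
        (T := mi G X ∩ dnF G l i Y) (fun s hs => hsub hs.2) hne hE
        (fun s hs => ⟨hs.1, fun hT => hs.2 hT.2⟩) hno
      refine Or.inr (Or.inr (inv_up L hi h hH (fun s hs => ?_) hHz))
      by_contra hcon
      exact Set.disjoint_left.1 hdis hs ⟨(hH.sub hs).1, hcon⟩
  · left
    have hcomp : IsComp G X Y := by
      refine IsComp_of h.comp.conn hYX ?_
      rintro y hy x ⟨hxX, hxY⟩ e
      have e1 := L.lip y x e
      have e2 := L.lip x y e.symm
      have e3 := hYl y hy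
      have hcase : l x = i ∨ l x + 1 = i ∨ l x = i + 1 := by omega
      rcases hcase with hx | hx | hx
      · exact h.comp.nadj y hy x ⟨⟨hxX, hx⟩, hxY⟩ e
      · exact h.low y hy x e hx hxX
      · have hm := eax_eg e
        refine hne ⟨eg G e, fun z hz => ?_, eax_FF hm.1 e3 hm.2 hx, fun z hz hzl => ?_⟩
        · have hz' : z ∈ ({y, x} : Finset V) := hz
          rcases Finset.mem_insert.1 hz' with rfl | hz'
          · exact hYX hy
          · rw [Finset.mem_singleton.1 hz']; exact hxX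
        · have hz' : z ∈ ({y, x} : Finset V) := hz
          rcases Finset.mem_insert.1 hz' with rfl | hz'
          · exact hy
          · rw [Finset.mem_singleton.1 hz'] at hzl
            omega
    obtain ⟨y, hy⟩ := h.comp.conn.1
    intro x hx
    exact hYl x (hcomp.absorb hX subset_rfl ⟨y, hYX hy, hy⟩ hx)

/-- START.  Sketch: `i + 1` := the lowest layer which meets `A` (`Nat.find`; it is not `0`, not `m`, since
these layers are `rho 0`, `rho m`).  The layer is a sphere (`L.wall`, `L.lc`, `L.lh`), `T := A ∩ layer`.  If a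
component `Y` of `T` has `HZ`: `Inv` (`low`: the layer `i` does not meet `A`).  Otherwise `leaf_disc` with
`E := {rho (i + 1)}`: a component `H` of `layer \ T`, `HZ`, not containing `rho (i + 1)`.  `D := upF G l i H`:
`upF_Conn`, `upF_HZ`; a component of `mi Aᶜ ∩ FF i` (`IsComp_of`; nested `s ∈ D`, `t` have a common vertex in `H`,
the other vertices of `t` in the layer `i + 1` are adjacent to it and not in `A`, so in `H`). -/
theorem inv_start [Finite V] (L : Lay G m l rho) (hne : A.Nonempty)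
    (hr : ∀ i ≤ m, rho i ∉ A) : ∃ i, i + 1 < m ∧ ((∃ Y, Inv G l rho A (i + 1) Y) ∨
      ∃ D, IsComp (sd G) (mi G Aᶜ ∩ FF G l i) D ∧ HZ (sd G) D ∧ re G rho i ∉ D) := by
  have hex : ∃ j, ∃ a ∈ A, l a = j := by
    obtain ⟨a, ha⟩ := hne
    exact ⟨l a, a, ha, rfl⟩
  obtain ⟨j, ⟨a, haA, haj⟩, hmin⟩ : ∃ j, (∃ a ∈ A, l a = j) ∧ ∀ k < j, ¬ ∃ a ∈ A, l a = k :=
    ⟨Nat.find hex, Nat.find_spec hex, fun k hk => Nat.find_min hex hk⟩
  have hj0 : j ≠ 0 := by
    rintro rfl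
    exact hr 0 (Nat.zero_le _) (L.bot a haj ▸ haA)
  have hjm : j ≠ m := by
    rintro rfl
    exact hr j le_rfl (L.top a haj ▸ haA)
  have hle := L.le a
  obtain ⟨i, rfl⟩ : ∃ i, j = i + 1 := ⟨j - 1, by omega⟩
  have him : i + 1 < m := by omega
  have hi : i < m := by omega
  have hlow : ∀ z, l z = i → z ∉ A := fun z hz hzA => hmin i (by omega) ⟨z, hzA, hz⟩
  refine ⟨i, him, ?_⟩
  by_cases hY : ∃ Y, IsComp G (A ∩ {x | l x = i + 1}) Y ∧ HZ G Y
  · obtain ⟨Y, hY, hYz⟩ := hY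
    refine Or.inl ⟨Y, hY, hYz, fun h => hr (i + 1) him.le (hY.sub h).1, ?_⟩
    intro y _ z _ hz
    exact hlow z (by omega)
  · right
    have hno : ∀ D, IsComp G (A ∩ {x | l x = i + 1}) D → ¬ HZ G D :=
      fun D h1 h2 => hY ⟨D, h1, h2⟩
    have hE : Conn G ({rho (i + 1)} : Set V) :=
      cone_Conn (x := rho (i + 1)) rfl (fun y hy hne => absurd hy hne)
    obtain ⟨H, hH, hdis, hHz, -⟩ := leaf_disc (S := {x | l x = i + 1})
      (T := A ∩ {x | l x = i + 1}) (L.wall (i + 1) (Nat.succ_pos _) him).surf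
      (L.lc (i + 1) him.le) (L.lh (i + 1) him.le) Set.inter_subset_right ⟨a, haA, haj⟩ hE
      (by
        rintro x hx
        rw [Set.mem_singleton_iff.1 hx]
        exact ⟨L.rl (i + 1) him.le, fun hT => hr (i + 1) him.le hT.1⟩) hno
    have hHl : ∀ w ∈ H, l w = i + 1 := fun w hw => (hH.sub hw).1
    have hHA : ∀ w ∈ H, w ∉ A := fun w hw hwA => (hH.sub hw).2 ⟨hwA, hHl w hw⟩
    refine ⟨upF G l i H, ?_, upF_HZ L hi hHl hHz, ?_⟩
    · refine IsComp_of (upF_Conn L hi hHl hH.conn) ?_ ?_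
      · rintro s ⟨hsF, hsu⟩
        refine ⟨fun x hx => ?_, hsF⟩
        rcases (FF_two L hsF).1 x hx with h' | h'
        · exact hlow x h'
        · exact hHA x (hsu x hx h')
      · rintro s ⟨hsF, hsu⟩ t ⟨⟨htA, htF⟩, htD⟩ e
        refine htD ⟨htF, fun z hz hzl => ?_⟩
        rcases sd_adj.1 e with hlt | hlt
        · obtain ⟨-, -, w, hw, hwl⟩ := FF_two L hsF
          have hwH : w ∈ H := hsu w hw hwl
          have hwt : w ∈ t.1 := (Cq.lt_iff.1 hlt).1 hw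
          by_cases hzw : z = w
          · rw [hzw]; exact hwH
          · by_contra hzH
            exact hH.nadj w hwH z ⟨⟨hzl, fun hT => htA z hz hT.1⟩, hzH⟩
              (t.2.2 hwt hz (Ne.symm hzw))
        · exact hsu z ((Cq.lt_iff.1 hlt).1 hz) hzl
    · intro hre
      have := hre.2 _ (re_mem L hi).2.2 (L.rl (i + 1) him.le)
      exact Set.disjoint_left.1 hdis this rfl

/-- EXISTENCE of a cut -/
theorem ea_exists [Finite V] (L : Lay G m l rho) (hA : Conn G A) (hAc : Conn G Aᶜ)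
    (hr : ∀ i ≤ m, rho i ∉ A) : (∃ i, 0 < i ∧ i < m ∧ A ⊆ {x | l x = i}) ∨
      ∃ i < m, ∃ D, HZ (sd G) D ∧ re G rho i ∉ D ∧ (IsComp (sd G) (mi G A ∩ FF G l i) D ∨
        IsComp (sd G) (mi G Aᶜ ∩ FF G l i) D) := by
  have key : ∀ k i X Y, X = A ∨ X = Aᶜ → m ≤ i + k → 0 < i → Inv G l rho X i Y →
      ((∃ i, 0 < i ∧ i < m ∧ A ⊆ {x | l x = i}) ∨
      ∃ i < m, ∃ D, HZ (sd G) D ∧ re G rho i ∉ D ∧ (IsComp (sd G) (mi G A ∩ FF G l i) D ∨
        IsComp (sd G) (mi G Aᶜ ∩ FF G l i) D)) := by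
    intro k
    induction k with
    | zero =>
      intro i X Y _ hm _ h
      exfalso
      obtain ⟨y, hy⟩ := h.comp.conn.1
      have hly : l y = i := (h.comp.sub hy).2
      have := L.le y
      have him : i = m := by omega
      subst him
      have := L.top y hly
      subst this
      exact h.rho hy
    | succ k ih =>
      intro i X Y hX hm h0 h
      by_cases hi : i < m
      · have hXc : Conn G X := by
          rcases hX with rfl | rfl
          · exact hA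
          · exact hAc
        rcases inv_step L hi hXc h with h1 | ⟨D, hD, hz, hre⟩ | ⟨H, hH⟩
        · rcases hX with rfl | rfl
          · exact Or.inl ⟨i, h0, hi, h1⟩
          · exfalso
            have h2 : rho 0 ∈ Aᶜ := hr 0 (Nat.zero_le _)
            have h3 : l (rho 0) = i := h1 h2
            rw [L.rl 0 (Nat.zero_le _)] at h3
            omega
        · refine Or.inr ⟨i, hi, D, hz, hre, ?_⟩
          rcases hX with rfl | rfl
          · exact Or.inl hD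
          · exact Or.inr hD
        · refine ih (i + 1) Xᶜ H ?_ (by omega) (by omega) hH
          rcases hX with rfl | rfl
          · exact Or.inr rfl
          · exact Or.inl (compl_compl _)
      · exact ih i X Y hX (by omega) h0 h
  obtain ⟨i, hi, ⟨Y, hY⟩ | ⟨D, hD, hz, hre⟩⟩ := inv_start L hA.1 hr
  · exact key m (i + 1) A Y (Or.inl rfl) (by omega) (by omega) hY
  · exact Or.inr ⟨i, by omega, D, hz, hre, Or.inr hD⟩

end MOT.Ea
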