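import Pool.Agent.MOT.EaE
import Pool.Agent.MOT.EaX

/-!
# MOT/EaM: induction over cuts (block E, helper98)
-/

open Classical

noncomputable section

namespace MOT.Ea

variable {V : Type} {G : SimpleGraph V} {l : V → ℕ} {m i : ℕ} {rho : ℕ → V}
  {A A0 A1 X : Set V} {D : Set (Cq G)}

/-- Sketch: swap the pairs. -/
theorem mu_compl [Finite V] : mu G l Aᶜ = mu G l A := by
  have h : {p : V × V | G.Adj p.1 p.2 ∧ l p.1 = l p.2 ∧ p.1 ∈ Aᶜ ∧ p.2 ∉ Aᶜ} =
      Prod.swap '' {p : V × V | G.Adj p.1 p.2 ∧ l p.1 = l p.2 ∧ p.1 ∈ A ∧ p.2 ∉ A} := by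
    ext ⟨x, y⟩
    constructor
    · rintro ⟨h1, h2, h3, h4⟩
      exact ⟨(y, x), ⟨h1.symm, h2.symm, not_not.1 h4, h3⟩, rfl⟩
    · rintro ⟨⟨u, v⟩, ⟨h1, h2, h3, h4⟩, h5⟩
      simp only [Prod.swap_prod_mk, Prod.mk.injEq] at h5
      obtain ⟨rfl, rfl⟩ := h5
      exact ⟨h1.symm, h2.symm, h4, fun h6 => h6 h3⟩
  unfold mu
  rw [h]
  exact Set.ncard_image_of_injective _ Prod.swap_injective

/-- Sketch: a pair of `mu A` starts in `A0` or in `A1`; its end is in the same layer, so by `ed` the pair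
starts in `A0` and ends outside `A` iff it starts in `A0` and ends outside `A0`
(`x ∈ A0`, `y ∈ A1` adjacent in one layer: `l x ≤ i`, `¬ l y ≤ i`). -/
theorem mu_split [Finite V] (h : Split G {x | l x ≤ i} A D A0 A1) :
    mu G l A = mu G l A0 + mu G l A1 := by
  have h1 : {p : V × V | G.Adj p.1 p.2 ∧ l p.1 = l p.2 ∧ p.1 ∈ A ∧ p.2 ∉ A} =
      {p : V × V | G.Adj p.1 p.2 ∧ l p.1 = l p.2 ∧ p.1 ∈ A0 ∧ p.2 ∉ A0} ∪
      {p : V × V | G.Adj p.1 p.2 ∧ l p.1 = l p.2 ∧ p.1 ∈ A1 ∧ p.2 ∉ A1} := by
    ext ⟨x, y⟩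
    constructor
    · rintro ⟨h1, h2, h3, h4⟩
      have h3' : x ∈ A0 ∪ A1 := by
        rw [h.un]
        exact h3
      have h4' : y ∉ A0 ∪ A1 := by
        rw [h.un]
        exact h4
      rcases h3' with h5 | h5
      · exact Or.inl ⟨h1, h2, h5, fun h6 => h4' (Or.inl h6)⟩
      · exact Or.inr ⟨h1, h2, h5, fun h6 => h4' (Or.inr h6)⟩
    · rintro (⟨h1, h2, h3, h4⟩ | ⟨h1, h2, h3, h4⟩)
      · have h1' : G.Adj x y := h1
        have h2' : l x = l y := h2
        refine ⟨h1, h2, ?_, fun h5 => ?_⟩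
        · show x ∈ A
          rw [← h.un]
          exact Or.inl h3
        · have h6 : y ∈ A0 ∪ A1 := by
            rw [h.un]
            exact h5
          rcases h6 with h6 | h6
          · exact h4 h6
          · obtain ⟨h7, h8⟩ := h.ed x h3 y h6 h1'
            have h7' : l x ≤ i := h7
            exact h8 (by show l y ≤ i; omega)
      · have h1' : G.Adj x y := h1
        have h2' : l x = l y := h2
        refine ⟨h1, h2, ?_, fun h5 => ?_⟩
        · show x ∈ A
          rw [← h.un]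
          exact Or.inr h3
        · have h6 : y ∈ A0 ∪ A1 := by
            rw [h.un]
            exact h5
          rcases h6 with h6 | h6
          · obtain ⟨h7, h8⟩ := h.ed y h6 x h3 h1'.symm
            have h7' : l y ≤ i := h7
            exact h8 (by show l x ≤ i; omega)
          · exact h4 h6
  unfold mu
  rw [h1]
  refine Set.ncard_union_eq ?_ (Set.toFinite _) (Set.toFinite _)
  rw [Set.disjoint_left]
  rintro ⟨x, y⟩ ⟨_, _, h3, _⟩ ⟨_, _, h4, _⟩
  exact Set.disjoint_left.1 h.dj h3 h4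

/-- Sketch: `x ∈ X`, the layer of `x` is connected and contains `rho (l x) ∉ X`: an edge of the layer leaves
`X` (`FrIn_nonempty` of MOT/Sf1 or `Conn_iff` with the indicator function). -/
theorem mu_pos [Finite V] (L : Lay G m l rho) (hX : X.Nonempty) (hr : ∀ i ≤ m, rho i ∉ X) :
    0 < mu G l X := by
  obtain ⟨x, hx⟩ := hX
  unfold mu
  rw [Set.ncard_pos (Set.toFinite _)]
  by_contra hne
  have hr1 := (L.lc (l x) (L.le x)).2 x rfl (rho (l x)) (L.rl (l x) (L.le x))
  have key : ∀ z, Relation.ReflTransGen (EIn G {z | l z = l x}) x z → z ∈ X := by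
    intro z hz
    induction hz with
    | refl => exact hx
    | @tail u v _ e ih =>
      by_contra hv
      have h1 : l u = l x := e.2.1
      have h2 : l v = l x := e.2.2
      exact hne ⟨(u, v), e.1, h1.trans h2.symm, ih, hv⟩
  exact hr (l x) (L.le x) (key _ hr1)

/-- Sketch: the edges of `rho` between `A0` and `A1` are in `D = EE A0 A1`; `rho j, rho (j + 1)` with `j ≠ i` is not in
`FF i` (`Split.ed`), and `re i ∉ D`.  Induction on `j`. -/
theorem rho_side (L : Lay G m l rho) (h : Split G {x | l x ≤ i} A D A0 A1)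
    (hre : re G rho i ∉ D) (hr : ∀ j ≤ m, rho j ∈ A) :
    (∀ j ≤ m, rho j ∈ A0) ∨ (∀ j ≤ m, rho j ∈ A1) := by
  have hst : ∀ j, j < m → (rho j ∈ A0 ↔ rho (j + 1) ∈ A0) := by
    intro j hj
    have e := L.ra j hj
    have l0 := L.rl j hj.le
    have l1 := L.rl (j + 1) hj
    have m0 : rho j ∈ A0 ∪ A1 := by
      rw [h.un]
      exact hr j hj.le
    have m1 : rho (j + 1) ∈ A0 ∪ A1 := by
      rw [h.un]
      exact hr (j + 1) hj
    constructor
    · intro h0
      refine m1.resolve_right (fun h1 => ?_)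
      obtain ⟨h2, h3⟩ := h.ed _ h0 _ h1 e
      have h2' : l (rho j) ≤ i := h2
      have h3' : ¬ l (rho (j + 1)) ≤ i := h3
      have hji : j = i := by omega
      subst hji
      apply hre
      unfold re
      rw [dif_pos e, ← h.ee]
      refine ⟨⟨fun w hw => ?_, ⟨rho j, Finset.mem_insert_self _ _, h0⟩⟩,
        ⟨rho (j + 1), Finset.mem_insert_of_mem (Finset.mem_singleton_self _), h1⟩⟩
      have hw' : w ∈ ({rho j, rho (j + 1)} : Finset V) := hw
      rw [Finset.mem_insert, Finset.mem_singleton] at hw'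
      rcases hw' with rfl | rfl
      · exact Or.inl h0
      · exact Or.inr h1
    · intro h1
      refine m0.resolve_right (fun h0 => ?_)
      obtain ⟨h2, h3⟩ := h.ed _ h1 _ h0 e.symm
      have h2' : l (rho (j + 1)) ≤ i := h2
      have h3' : ¬ l (rho j) ≤ i := h3
      omega
  have hall : ∀ j, j ≤ m → (rho 0 ∈ A0 ↔ rho j ∈ A0) := by
    intro j
    induction j with
    | zero => exact fun _ => Iff.rfl
    | succ j ih => exact fun hj => (ih (by omega)).trans (hst j hj)
  by_cases h0 : rho 0 ∈ A0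
  · exact Or.inl (fun j hj => (hall j hj).1 h0)
  · right
    intro j hj
    have m0 : rho j ∈ A0 ∪ A1 := by
      rw [h.un]
      exact hr j hj
    exact m0.resolve_left (fun h1 => h0 ((hall j hj).2 h1))

/-- INDUCTION -/
theorem mov [Finite V] (L : Lay G m l rho) (P : Set V → Prop)
    (hbase : ∀ i Y, 0 < i → i < m → Y ⊆ {x | l x = i} → Conn G Y → HZ G Y → rho i ∉ Y → P Y)
    (hrule : ∀ X Y, Disjoint X Y → Acy G X → Acy G Y → Acy G (X ∪ Y) →
      Conn (sd G) (EE G X Y) → HZ (sd G) (EE G X Y) → P Y → (P X ↔ P (X ∪ Y))) :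
    ∀ A, Acy G A → (∀ i ≤ m, rho i ∉ A) → P A := by
  have main : ∀ n A, mu G l A ≤ n → Acy G A → (∀ i ≤ m, rho i ∉ A) → P A := by
    intro n
    induction n with
    | zero =>
      intro A hn hA hr
      have := mu_pos L hA.1.1 hr
      omega
    | succ n ih =>
      intro A hn hA hr
      rcases ea_exists L hA.1 hA.2.2 hr with ⟨i, h0, hi, hAi⟩ | ⟨i, hi, D, hz, hre, hD | hD⟩
      · exact hbase i A h0 hi hAi hA.1 hA.2.1 (hr i hi.le)
      · have hne : D ≠ Fr G {x | l x ≤ i} := fun h => hre (by rw [h]; exact (re_mem L hi).1)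
        obtain ⟨A0, A1, hs, h0, h1⟩ := cut_acy hA hD hz (L.FF_conn hi) hne
        have r0 : ∀ i ≤ m, rho i ∉ A0 := fun j hj h => hr j hj (hs.un ▸ Or.inl h)
        have r1 : ∀ i ≤ m, rho i ∉ A1 := fun j hj h => hr j hj (hs.un ▸ Or.inr h)
        have p0 := mu_pos L h0.1.1 r0
        have p1 := mu_pos L h1.1.1 r1
        have e := mu_split hs
        have P0 : P A0 := ih A0 (by omega) h0 r0
        have P1 : P A1 := ih A1 (by omega) h1 r1
        have hc : Conn (sd G) (EE G A0 A1) := by rw [hs.ee]; exact hD.conn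
        have hz' : HZ (sd G) (EE G A0 A1) := by rw [hs.ee]; exact hz
        have := (hrule A0 A1 hs.dj h0 h1 (by rw [hs.un]; exact hA) hc hz' P1).1 P0
        rwa [hs.un] at this
      · have hne : D ≠ Fr G {x | l x ≤ i} := fun h => hre (by rw [h]; exact (re_mem L hi).1)
        have hAc : Acy G Aᶜ := hA.compl L.sph
        -- the two sides are symmetric
        have side : ∀ W N0 N1, Split G W Aᶜ D N0 N1 → Acy G N0 → Acy G N1 →
            mu G l Aᶜ = mu G l N0 + mu G l N1 → (∀ j ≤ m, rho j ∈ N0) → P A := by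
          intro W N0 N1 hs h0 h1 e hr0
          have hAN : A ∪ N1 = N0ᶜ := by
            ext x
            have hun : x ∈ N0 ∪ N1 ↔ x ∈ Aᶜ := by rw [hs.un]
            have hdj : x ∈ N0 → x ∉ N1 := fun h => Set.disjoint_left.1 hs.dj h
            simp only [Set.mem_union, Set.mem_compl_iff] at hun ⊢
            tauto
          have hd : Disjoint A N1 := by
            rw [Set.disjoint_left]
            intro x hx hx1
            have : x ∈ Aᶜ := hs.un ▸ Or.inr hx1
            exact this hx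
          have hU : Acy G (A ∪ N1) := by rw [hAN]; exact h0.compl L.sph
          have r1 : ∀ i ≤ m, rho i ∉ N1 := fun j hj h =>
            Set.disjoint_left.1 hs.dj (hr0 j hj) h
          have rU : ∀ i ≤ m, rho i ∉ A ∪ N1 := by
            rw [hAN]
            exact fun j hj h => h (hr0 j hj)
          have p1 := mu_pos L h1.1.1 r1
          have p0 := mu_pos L hU.1.1 rU
          have e0 : mu G l (A ∪ N1) = mu G l N0 := by rw [hAN]; exact mu_compl
          have e1 : mu G l Aᶜ = mu G l A := mu_compl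
          have hN : (Aᶜ)ᶜ.Nonempty := by rw [compl_compl]; exact hA.1.1
          have hE := ee_disc L.sph hs hN h0.2.2 h1 hD.conn hz
          rw [compl_compl] at hE
          exact (hrule A N1 hd hA h1 hU hE.1 hE.2 (ih N1 (by omega) h1 r1)).2
            (ih (A ∪ N1) (by omega) hU rU)
        obtain ⟨N0, N1, hs, h0, h1⟩ := cut_acy hAc hD hz (L.FF_conn hi) hne
        have e := mu_split hs
        rcases rho_side L hs hre (fun j hj => hr j hj) with h | h
        · exact side _ N0 N1 hs h0 h1 e h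
        · exact side _ N1 N0 hs.symm h1 h0 (by omega) h
  exact fun A hA hr => main _ A le_rfl hA hr

end MOT.Ea
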