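import Pool.Agent.MOT.Bas

/-!
# MOT/Fib: fibre lemma for posets
-/

open Classical

noncomputable section

namespace MOT

variable {P Q : Type} [PartialOrder P] [PartialOrder Q] {S S' : Set P} {T T' : Set Q}

/-- General fibre lemma, connectedness. -/
private theorem fib_gen_Conn (p : P → Q) (F : Q → Set P)
    (hFS : ∀ y ∈ T, F y ⊆ S) (hF : ∀ y ∈ T, Conn (cmp P) (F y))
    (nest : ∀ u v, EIn (cmp Q) T u v → F u ⊆ F v ∨ F v ⊆ F u)
    (self : ∀ x ∈ S, x ∈ F (p x)) (hp : ∀ x ∈ S, p x ∈ T)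
    (hT : Conn (cmp Q) T) : Conn (cmp P) S := by
  have hc : ∀ y ∈ T, ∃ x, x ∈ F y := fun y hy => (hF y hy).1
  rw [Conn_iff]
  constructor
  · obtain ⟨y, hy⟩ := hT.1
    obtain ⟨x, hx⟩ := hc y hy
    exact ⟨x, hFS y hy hx⟩
  intro f hf
  have h1 : ∀ y ∈ T, ∀ x ∈ F y, ∀ x' ∈ F y, f x = f x' := fun y hy x hx x' hx' =>
    (hF y hy).const (fun u v e => hf u v (e.mono (hFS y hy))) hx hx'
  have h2 : ∀ y, ∃ t : ZMod 2, y ∈ T → ∀ x ∈ F y, f x = t := by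
    intro y
    by_cases hy : y ∈ T
    · obtain ⟨x, hx⟩ := hc y hy
      exact ⟨f x, fun _ x' hx' => h1 y hy x' hx' x hx⟩
    · exact ⟨0, fun h => absurd h hy⟩
  choose g hg using h2
  have h3 : ∀ u v, EIn (cmp Q) T u v → g u = g v := by
    intro u v e
    rcases nest u v e with h | h
    · obtain ⟨x, hx⟩ := hc u e.2.1
      rw [← hg u e.2.1 x hx, ← hg v e.2.2 x (h hx)]
    · obtain ⟨x, hx⟩ := hc v e.2.2
      rw [← hg u e.2.1 x (h hx), ← hg v e.2.2 x hx]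
  intro x hx x' hx'
  rw [hg _ (hp x hx) x (self x hx), hg _ (hp x' hx') x' (self x' hx')]
  exact hT.const h3 (hp x hx) (hp x' hx')

/-- General fibre lemma, `H^1 = 0`. -/
private theorem fib_gen_HZ (p : P → Q) (F : Q → Set P)
    (hFS : ∀ y ∈ T, F y ⊆ S) (hF : ∀ y ∈ T, Conn (cmp P) (F y) ∧ HZ (cmp P) (F y))
    (nest : ∀ u v, EIn (cmp Q) T u v → F u ⊆ F v ∨ F v ⊆ F u)
    (self : ∀ x ∈ S, x ∈ F (p x))
    (edge : ∀ x y, EIn (cmp P) S x y → (p x = p y ∨ EIn (cmp Q) T (p x) (p y)) ∧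
      ((y ∈ F (p x) ∧ p x ∈ T) ∨ (x ∈ F (p y) ∧ p y ∈ T)))
    (hT : HZ (cmp Q) T) : HZ (cmp P) S := by
  intro a ha
  rcases isEmpty_or_nonempty P with hP | hP
  · exact ⟨0, fun x => (hP.false x).elim⟩
  obtain ⟨x₀⟩ := hP
  have h1 : ∀ y, ∃ f : P → ZMod 2, y ∈ T →
      ∀ x x', EIn (cmp P) (F y) x x' → a x x' = f x + f x' := by
    intro y
    by_cases hy : y ∈ T
    · obtain ⟨f, hf⟩ := (hF y hy).2 _ (rs_mem (hFS y hy) ha)
      refine ⟨f, fun _ x x' e => ?_⟩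
      rw [← hf x x' e, rs_apply e]
    · exact ⟨0, fun h => absurd h hy⟩
  choose f hf using h1
  have h2 : ∀ y, ∃ x : P, y ∈ T → x ∈ F y := by
    intro y
    by_cases hy : y ∈ T
    · obtain ⟨x, hx⟩ := (hF y hy).1.1
      exact ⟨x, fun _ => hx⟩
    · exact ⟨x₀, fun h => absurd h hy⟩
  choose c hc using h2
  have key : ∀ u v, u ∈ T → v ∈ T → F u ⊆ F v → ∀ x ∈ F u, ∀ x' ∈ F u,
      f u x + f v x = f u x' + f v x' := by
    intro u v hu hv huv x hx x' hx'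
    refine (hF u hu).1.const (f := fun z => f u z + f v z) ?_ hx hx'
    intro z z' e
    have e1 := hf u hu z z' e
    have e2 := hf v hv z z' (e.mono huv)
    have e3 : f u z + f u z' = f v z + f v z' := e1.symm.trans e2
    show f u z + f v z = f u z' + f v z'
    linear_combination e3 + two_add (f v z) - two_add (f u z')
  let b : Q → Q → ZMod 2 := fun u v =>
    if EIn (cmp Q) T u v then
      (if F u ⊆ F v then f u (c u) + f v (c u) else f u (c v) + f v (c v)) else 0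
  have hb0 : ∀ u v, ¬ EIn (cmp Q) T u v → b u v = 0 := fun u v h => if_neg h
  have hbx : ∀ u v, EIn (cmp Q) T u v → ∀ x, x ∈ F u → x ∈ F v →
      b u v = f u x + f v x := by
    intro u v e x hxu hxv
    have hb1 : b u v = if F u ⊆ F v then f u (c u) + f v (c u) else f u (c v) + f v (c v) :=
      if_pos e
    rw [hb1]
    split_ifs with h
    · exact key u v e.2.1 e.2.2 h _ (hc u e.2.1) x hxu
    · have h' : F v ⊆ F u := (nest u v e).resolve_left h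
      have := key v u e.2.2 e.2.1 h' _ (hc v e.2.2) x hxv
      rw [add_comm (f u (c v)), this, add_comm]
  have com : ∀ u v, EIn (cmp Q) T u v → ∃ x, x ∈ F u ∧ x ∈ F v := by
    intro u v e
    rcases nest u v e with h | h
    · exact ⟨c u, hc u e.2.1, h (hc u e.2.1)⟩
    · exact ⟨c v, h (hc v e.2.2), hc v e.2.2⟩
  have com3 : ∀ u v w, EIn (cmp Q) T u v → EIn (cmp Q) T v w → EIn (cmp Q) T u w →
      ∃ x, x ∈ F u ∧ x ∈ F v ∧ x ∈ F w := by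
    intro u v w e1 e2 e3
    have cu := hc u e1.2.1
    have cv := hc v e1.2.2
    have cw := hc w e2.2.2
    rcases nest u v e1 with h1 | h1 <;> rcases nest v w e2 with h2 | h2 <;>
      rcases nest u w e3 with h3 | h3
    · exact ⟨c u, cu, h1 cu, h3 cu⟩
    · exact ⟨c u, cu, h1 cu, h2 (h1 cu)⟩
    · exact ⟨c u, cu, h1 cu, h3 cu⟩
    · exact ⟨c w, h3 cw, h2 cw, cw⟩
    · exact ⟨c v, h1 cv, cv, h2 cv⟩
    · exact ⟨c v, h1 cv, cv, h2 cv⟩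
    · exact ⟨c w, h1 (h2 cw), h2 cw, cw⟩
    · exact ⟨c w, h1 (h2 cw), h2 cw, cw⟩
  have hbZ : b ∈ Z1 (cmp Q) T := by
    refine mem_Z1.2 ⟨hb0, fun u v => ?_, fun u v w e1 e2 e3 => ?_⟩
    · by_cases e : EIn (cmp Q) T u v
      · obtain ⟨x, hx, hx'⟩ := com u v e
        rw [hbx u v e x hx hx', hbx v u e.symm x hx' hx, add_comm]
      · rw [hb0 u v e, hb0 v u (fun e' => e e'.symm)]
    · obtain ⟨x, hu, hv, hw⟩ := com3 u v w e1 e2 e3
      rw [hbx u v e1 x hu hv, hbx v w e2 x hv hw, hbx u w e3 x hu hw]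
      linear_combination two_add (f v x)
  obtain ⟨g, hg⟩ := hT b hbZ
  refine ⟨fun x => f (p x) x + g (p x), fun x y e => ?_⟩
  show a x y = f (p x) x + g (p x) + (f (p y) y + g (p y))
  obtain ⟨h1, h2⟩ := edge x y e
  have sx := self x e.2.1
  have sy := self y e.2.2
  rcases h2 with ⟨h2, hT2⟩ | ⟨h2, hT2⟩
  · have ea := hf (p x) hT2 x y ⟨e.1, sx, h2⟩
    rcases h1 with h1 | h1
    · rw [← h1]
      linear_combination ea - two_add (g (p x))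
    · have eg := hg _ _ h1
      have eb := hbx _ _ h1 y h2 sy
      linear_combination ea + eg - eb - two_add (f (p y) y)
  · have ea := hf (p y) hT2 x y ⟨e.1, h2, sy⟩
    rcases h1 with h1 | h1
    · rw [h1]
      linear_combination ea - two_add (g (p y))
    · have eg := hg _ _ h1
      have eb := hbx _ _ h1 x sx h2
      linear_combination ea + eg - eb - two_add (f (p x) x)

private theorem nest_up (p : P → Q) : ∀ u v, EIn (cmp Q) T u v →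
    {x | x ∈ S ∧ u ≤ p x} ⊆ {x | x ∈ S ∧ v ≤ p x} ∨
    {x | x ∈ S ∧ v ≤ p x} ⊆ {x | x ∈ S ∧ u ≤ p x} := by
  intro u v e
  rcases e.1 with h | h
  · exact Or.inr fun x hx => ⟨hx.1, h.le.trans hx.2⟩
  · exact Or.inl fun x hx => ⟨hx.1, h.le.trans hx.2⟩

private theorem nest_dn (p : P → Q) : ∀ u v, EIn (cmp Q) T u v →
    {x | x ∈ S ∧ p x ≤ u} ⊆ {x | x ∈ S ∧ p x ≤ v} ∨
    {x | x ∈ S ∧ p x ≤ v} ⊆ {x | x ∈ S ∧ p x ≤ u} := by
  intro u v e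
  rcases e.1 with h | h
  · exact Or.inl fun x hx => ⟨hx.1, hx.2.trans h.le⟩
  · exact Or.inr fun x hx => ⟨hx.1, hx.2.trans h.le⟩

private theorem edge_cmp (p : P → Q) (hm : ∀ x ∈ S, ∀ y ∈ S, x ≤ y → p x ≤ p y)
    (hp : ∀ x ∈ S, p x ∈ T) {x y : P} (e : EIn (cmp P) S x y) :
    p x = p y ∨ EIn (cmp Q) T (p x) (p y) := by
  by_cases h : p x = p y
  · exact Or.inl h
  · refine Or.inr ⟨?_, hp x e.2.1, hp y e.2.2⟩
    rcases e.1 with h' | h'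
    · exact Or.inl (lt_of_le_of_ne (hm x e.2.1 y e.2.2 h'.le) h)
    · exact Or.inr (lt_of_le_of_ne (hm y e.2.2 x e.2.1 h'.le) (Ne.symm h))

/-- FIBRE LEMMA, connectedness: `p : S → T` monotone, the sets `{x ∈ S | y ≤ p x}` connected. -/
theorem fib_Conn (p : P → Q) (hm : ∀ x ∈ S, ∀ y ∈ S, x ≤ y → p x ≤ p y)
    (hp : ∀ x ∈ S, p x ∈ T) (hf : ∀ y ∈ T, Conn (cmp P) {x | x ∈ S ∧ y ≤ p x})
    (hT : Conn (cmp Q) T) : Conn (cmp P) S :=
  fib_gen_Conn p (fun y => {x | x ∈ S ∧ y ≤ p x}) (fun _ _ _ hx => hx.1) hf (nest_up p)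
    (fun _ hx => ⟨hx, le_rfl⟩) hp hT

/-- FIBRE LEMMA, `H^1 = 0`.
Sketch: `a = d f_y` on the fibre of `y`; for `y ≤ y'` the sum `f_y + f_y'` is a constant `b y y'` on
the smaller fibre; `b` is a cocycle of `T`, `b = dg`; `F x := f_(p x) x + g (p x)`. -/
theorem fib_HZ (p : P → Q) (hm : ∀ x ∈ S, ∀ y ∈ S, x ≤ y → p x ≤ p y)
    (hp : ∀ x ∈ S, p x ∈ T)
    (hf : ∀ y ∈ T, Conn (cmp P) {x | x ∈ S ∧ y ≤ p x} ∧ HZ (cmp P) {x | x ∈ S ∧ y ≤ p x})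
    (hT : HZ (cmp Q) T) : HZ (cmp P) S := by
  refine fib_gen_HZ p (fun y => {x | x ∈ S ∧ y ≤ p x}) (fun _ _ _ hx => hx.1) hf (nest_up p)
    (fun _ hx => ⟨hx, le_rfl⟩) ?_ hT
  intro x y e
  refine ⟨edge_cmp p hm hp e, ?_⟩
  rcases e.1 with h | h
  · exact Or.inl ⟨⟨e.2.2, hm x e.2.1 y e.2.2 h.le⟩, hp x e.2.1⟩
  · exact Or.inr ⟨⟨e.2.1, hm y e.2.2 x e.2.1 h.le⟩, hp y e.2.2⟩

/-- FIBRE LEMMA with fibres below: `{x ∈ S | p x ≤ y}`. -/
theorem fibd_Conn (p : P → Q) (hm : ∀ x ∈ S, ∀ y ∈ S, x ≤ y → p x ≤ p y)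
    (hp : ∀ x ∈ S, p x ∈ T) (hf : ∀ y ∈ T, Conn (cmp P) {x | x ∈ S ∧ p x ≤ y})
    (hT : Conn (cmp Q) T) : Conn (cmp P) S :=
  fib_gen_Conn p (fun y => {x | x ∈ S ∧ p x ≤ y}) (fun _ _ _ hx => hx.1) hf (nest_dn p)
    (fun _ hx => ⟨hx, le_rfl⟩) hp hT

theorem fibd_HZ (p : P → Q) (hm : ∀ x ∈ S, ∀ y ∈ S, x ≤ y → p x ≤ p y)
    (hp : ∀ x ∈ S, p x ∈ T)
    (hf : ∀ y ∈ T, Conn (cmp P) {x | x ∈ S ∧ p x ≤ y} ∧ HZ (cmp P) {x | x ∈ S ∧ p x ≤ y})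
    (hT : HZ (cmp Q) T) : HZ (cmp P) S := by
  refine fib_gen_HZ p (fun y => {x | x ∈ S ∧ p x ≤ y}) (fun _ _ _ hx => hx.1) hf (nest_dn p)
    (fun _ hx => ⟨hx, le_rfl⟩) ?_ hT
  intro x y e
  refine ⟨edge_cmp p hm hp e, ?_⟩
  rcases e.1 with h | h
  · exact Or.inr ⟨⟨e.2.1, hm x e.2.1 y e.2.2 h.le⟩, hp y e.2.2⟩
  · exact Or.inl ⟨⟨e.2.2, hm y e.2.2 x e.2.1 h.le⟩, hp x e.2.1⟩

end MOT
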