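import Pool.Agent.MOT.EaDef
import Pool.Agent.MOT.Fib
import Pool.Agent.MOT.Sph
import Pool.Agent.MOT.Sdi
import Pool.Agent.MOT.DuaB
import Pool.Agent.MOT.TlI
import Pool.Agent.MOT.PaDsk
import Pool.Agent.MOT.Pr

/-!
# MOT/EaP: the surface between two layers is projected to the layers (block E, helper98)
-/

open Classical

noncomputable section

namespace MOT.Ea

variable {V : Type} {G : SimpleGraph V} {l : V → ℕ} {m i : ℕ} {rho : ℕ → V} {Y : Set V}

/-- part of the surface between `L_i` and `L_(i+1)` over the set `Y` of the lower layer -/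
def dnF (G : SimpleGraph V) (l : V → ℕ) (i : ℕ) (Y : Set V) : Set (Cq G) :=
  {s | s ∈ FF G l i ∧ ∀ x ∈ s.1, l x = i → x ∈ Y}

/-- part of the surface between `L_i` and `L_(i+1)` under the set `Y` of the upper layer -/
def upF (G : SimpleGraph V) (l : V → ℕ) (i : ℕ) (Y : Set V) : Set (Cq G) :=
  {s | s ∈ FF G l i ∧ ∀ x ∈ s.1, l x = i + 1 → x ∈ Y}

/-- vertices of a simplex of `FF G l i` are in the layers `i`, `i + 1`, both occur -/
theorem FF_two (L : Lay G m l rho) {s : Cq G} (hs : s ∈ FF G l i) :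
    (∀ x ∈ s.1, l x = i ∨ l x = i + 1) ∧ (∃ x ∈ s.1, l x = i) ∧ ∃ x ∈ s.1, l x = i + 1 := by
  obtain ⟨⟨x, hx, hxi⟩, ⟨y, hy, hyi⟩⟩ := hs
  have hxi' : l x ≤ i := hxi
  have hyi' : ¬ l y ≤ i := hyi
  have hxy : x ≠ y := by rintro rfl; exact hyi' hxi'
  have exy : G.Adj x y := s.2.2 hx hy hxy
  have h1 := L.lip x y exy
  have h2 := L.lip y x exy.symm
  have hx2 : l x = i := by omega
  have hy2 : l y = i + 1 := by omega
  refine ⟨fun z hz => ?_, ⟨x, hx, hx2⟩, ⟨y, hy, hy2⟩⟩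
  by_cases hzx : z = x
  · subst hzx; exact Or.inl hx2
  by_cases hzy : z = y
  · subst hzy; exact Or.inr hy2
  have e1 : G.Adj z x := s.2.2 hz hx hzx
  have e2 : G.Adj z y := s.2.2 hz hy hzy
  have h3 := L.lip z x e1
  have h4 := L.lip y z e2.symm
  omega

/-- LINKS.  A simplex `s` of the layer `i < m` has a connected link with `H^1 = 0` in the layer `i + 1`
(`0 < i`: `Wall.hn`, the part of the link in `{i < l}` is in the layer `i + 1` by `lip`; `i = 0`: `s = {rho 0}`,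
`IsSph3.vert`, all neighbours of `rho 0` are in the layer 1). -/
theorem Lay.lk_up (L : Lay G m l rho) (hi : i < m) {s : Finset V} (hn : s.Nonempty)
    (hc : G.IsClique (s : Set V)) (hs : ∀ x ∈ s, l x = i) :
    Conn G (Lk G (s : Set V) ∩ {x | l x = i + 1}) ∧ HZ G (Lk G (s : Set V) ∩ {x | l x = i + 1}) := by
  obtain ⟨y, hy⟩ := hn
  have hyi := hs y hy
  rcases Nat.eq_zero_or_pos i with h0 | h0
  · subst h0
    have hse : (s : Set V) = {rho 0} := by
      ext x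
      rw [Finset.mem_coe, Set.mem_singleton_iff]
      constructor
      · exact fun hx => L.bot x (hs x hx)
      · rintro rfl
        rw [← L.bot y hyi]
        exact hy
    have hl : Lk G (s : Set V) ∩ {x | l x = 0 + 1} = Lk G {rho 0} := by
      rw [hse]
      refine Set.inter_eq_left.2 (fun x hx => ?_)
      have e : G.Adj (rho 0) x := hx _ rfl
      have h1 := L.lip x (rho 0) e.symm
      have h2 := L.rl 0 (Nat.zero_le _)
      have h3 : l x ≠ 0 := fun h4 => e.ne (L.bot x h4).symm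
      show l x = 0 + 1
      omega
    rw [hl]
    exact L.sph.vert (rho 0)
  · have hw := (L.wall i h0 hi).hn s ⟨y, hy⟩ hc (fun x hx => hs x (Finset.mem_coe.1 hx))
    have hl : Lk G (s : Set V) ∩ {x | l x = i + 1} = Lk G (s : Set V) ∩ {x | i < l x} := by
      ext x
      constructor
      · rintro ⟨h1, h2⟩
        have h3 : l x = i + 1 := h2
        exact ⟨h1, by show i < l x; omega⟩
      · rintro ⟨h1, h2⟩
        have h3 : i < l x := h2
        have e : G.Adj y x := h1 y (Finset.mem_coe.2 hy)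
        have h4 := L.lip x y e.symm
        exact ⟨h1, by show l x = i + 1; omega⟩
    rw [hl]
    exact hw

/-- LINKS, downwards (`Wall.hp`, or `IsSph3.vert` at `rho m`). -/
theorem Lay.lk_dn (L : Lay G m l rho) (hi : i < m) {s : Finset V} (hn : s.Nonempty)
    (hc : G.IsClique (s : Set V)) (hs : ∀ x ∈ s, l x = i + 1) :
    Conn G (Lk G (s : Set V) ∩ {x | l x = i}) ∧ HZ G (Lk G (s : Set V) ∩ {x | l x = i}) := by
  obtain ⟨y, hy⟩ := hn
  have hyi := hs y hy
  rcases Nat.lt_or_ge (i + 1) m with h0 | h0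
  · have hw := (L.wall (i + 1) (Nat.succ_pos i) h0).hp s ⟨y, hy⟩ hc
      (fun x hx => hs x (Finset.mem_coe.1 hx))
    have hl : Lk G (s : Set V) ∩ {x | l x = i} = Lk G (s : Set V) ∩ {x | l x < i + 1} := by
      ext x
      constructor
      · rintro ⟨h1, h2⟩
        have h3 : l x = i := h2
        exact ⟨h1, by show l x < i + 1; omega⟩
      · rintro ⟨h1, h2⟩
        have h3 : l x < i + 1 := h2
        have e : G.Adj y x := h1 y (Finset.mem_coe.2 hy)
        have h4 := L.lip y x e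
        exact ⟨h1, by show l x = i; omega⟩
    rw [hl]
    exact hw
  · have him : i + 1 = m := by omega
    have hse : (s : Set V) = {rho m} := by
      ext x
      rw [Finset.mem_coe, Set.mem_singleton_iff]
      constructor
      · exact fun hx => L.top x ((hs x hx).trans him)
      · rintro rfl
        rw [← L.top y (hyi.trans him)]
        exact hy
    have hl : Lk G (s : Set V) ∩ {x | l x = i} = Lk G {rho m} := by
      rw [hse]
      refine Set.inter_eq_left.2 (fun x hx => ?_)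
      have e : G.Adj (rho m) x := hx _ rfl
      have h1 := L.lip (rho m) x e
      have h2 := L.rl m le_rfl
      have h3 : l x ≠ m := fun h4 => e.ne (L.top x h4).symm
      have h4 := L.le x
      show l x = i
      omega
    rw [hl]
    exact L.sph.vert (rho m)

/-! ## general form: simplices inside `Y ∪ B` which meet `Y` and `B` -/

private def gD (G : SimpleGraph V) (Y B : Set V) : Set (Cq G) :=
  {s | (∀ x ∈ s.1, x ∈ Y ∨ x ∈ B) ∧ (∃ x ∈ s.1, x ∈ Y) ∧ ∃ x ∈ s.1, x ∈ B}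

private def gL (G : SimpleGraph V) (Y B : Set V) : Prop :=
  ∀ s : Finset V, s.Nonempty → G.IsClique (s : Set V) → (∀ x ∈ s, x ∈ Y) →
    Conn G (Lk G (s : Set V) ∩ B) ∧ HZ G (Lk G (s : Set V) ∩ B)

private def gr (B : Set V) (y s : Cq G) : Cq G :=
  if h : (s.1.filter (fun x => x ∈ y.1 ∨ x ∈ B)).Nonempty then
    ⟨s.1.filter (fun x => x ∈ y.1 ∨ x ∈ B), h, s.2.2.subset (by
      intro z hz
      exact Finset.mem_coe.2 (Finset.mem_filter.1 (Finset.mem_coe.1 hz)).1)⟩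
  else s

private theorem gr_val {B : Set V} {y s : Cq G} (h : y ≤ s) :
    (gr B y s).1 = s.1.filter (fun x => x ∈ y.1 ∨ x ∈ B) := by
  obtain ⟨z, hz⟩ := y.2.1
  have h1 : (s.1.filter (fun x => x ∈ y.1 ∨ x ∈ B)).Nonempty :=
    ⟨z, Finset.mem_filter.2 ⟨Cq.le_iff.1 h hz, Or.inl hz⟩⟩
  unfold gr
  rw [dif_pos h1]

private theorem gD_pl {B : Set V} {s : Cq G} (hs : s ∈ gD G Y B) : s ∈ pl G Y := hs.2.1

/-- the fibre over `y` -/
private theorem g_fib {B : Set V} (hd : Disjoint Y B) (hL : gL G Y B) {y : Cq G}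
    (hy : y ∈ mi G Y) :
    Conn (sd G) {s | s ∈ gD G Y B ∧ y ≤ tr Y s} ∧ HZ (sd G) {s | s ∈ gD G Y B ∧ y ≤ tr Y s} := by
  have h1 : {t | y < t ∧ ∀ x ∈ t.1, x ∉ y.1 → x ∈ B} ⊆ {s | s ∈ gD G Y B ∧ y ≤ tr Y s} := by
    rintro t ⟨h1, h2⟩
    have h3 := (Cq.lt_iff.1 h1).1
    have hpl : t ∈ pl G Y := by
      obtain ⟨z, hz⟩ := y.2.1
      exact ⟨z, h3 hz, hy z hz⟩
    refine ⟨⟨fun x hx => ?_, hpl, ?_⟩, ?_⟩
    · by_cases hxy : x ∈ y.1
      · exact Or.inl (hy x hxy)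
      · exact Or.inr (h2 x hx hxy)
    · obtain ⟨x, hx, hxy⟩ := Finset.exists_of_ssubset (Cq.lt_iff.1 h1)
      exact ⟨x, hx, h2 x hx hxy⟩
    · rw [Cq.le_iff, tr_val hpl]
      intro x hx
      exact Finset.mem_filter.2 ⟨h3 hx, hy x hx⟩
  have hle : ∀ s ∈ {s | s ∈ gD G Y B ∧ y ≤ tr Y s}, y ≤ s := fun s hs => hs.2.trans (tr_le s)
  have h2 : ∀ s ∈ {s | s ∈ gD G Y B ∧ y ≤ tr Y s},
      gr B y s ∈ {t | y < t ∧ ∀ x ∈ t.1, x ∉ y.1 → x ∈ B} := by
    intro s hs
    have hys := hle s hs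
    refine ⟨?_, fun x hx hxy => ?_⟩
    · rw [Cq.lt_iff, gr_val hys]
      refine Finset.ssubset_iff_subset_ne.2 ⟨fun x hx =>
        Finset.mem_filter.2 ⟨Cq.le_iff.1 hys hx, Or.inl hx⟩, fun h3 => ?_⟩
      obtain ⟨x, hx, hxB⟩ := hs.1.2.2
      have h4 : x ∈ y.1 := by
        rw [h3]
        exact Finset.mem_filter.2 ⟨hx, Or.inr hxB⟩
      exact Set.disjoint_left.1 hd (hy x h4) hxB
    · rw [gr_val hys] at hx
      exact (Finset.mem_filter.1 hx).2.resolve_left hxy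
  have h3 : ∀ s ∈ {s | s ∈ gD G Y B ∧ y ≤ tr Y s}, gr B y s ≤ s := by
    intro s hs
    rw [Cq.le_iff, gr_val (hle s hs)]
    exact Finset.filter_subset _ _
  have h4 : ∀ s ∈ {s | s ∈ gD G Y B ∧ y ≤ tr Y s}, ∀ t ∈ {s | s ∈ gD G Y B ∧ y ≤ tr Y s},
      s ≤ t → gr B y s ≤ gr B y t := by
    intro s hs t ht hst
    rw [Cq.le_iff, gr_val (hle s hs), gr_val (hle t ht)]
    exact Finset.filter_subset_filter _ (Cq.le_iff.1 hst)
  have h5 : ∀ t ∈ {t | y < t ∧ ∀ x ∈ t.1, x ∉ y.1 → x ∈ B}, gr B y t = t := by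
    rintro t ⟨h5, h6⟩
    refine Subtype.ext ?_
    rw [gr_val h5.le]
    refine Finset.filter_true_of_mem (fun x hx => ?_)
    by_cases hxy : x ∈ y.1
    · exact Or.inl hxy
    · exact Or.inr (h6 x hx hxy)
  have hl := hL y.1 y.2.1 y.2.2 hy
  exact ⟨(ret_Conn (P := Cq G) (gr B y) h1 h2 h3 h4).2 ((above_mi_Conn y B).2 hl.1),
    (ret_HZ (P := Cq G) (gr B y) h1 h2 h3 h4 h5).2 ((above_mi_HZ y B).2 hl.2)⟩

private theorem g_Conn {B : Set V} (hd : Disjoint Y B) (hL : gL G Y B) (h : Conn G Y) :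
    Conn (sd G) (gD G Y B) :=
  fib_Conn (P := Cq G) (Q := Cq G) (T := mi G Y) (tr Y)
    (fun _ hs _ _ hst => tr_mono (gD_pl hs) hst) (fun _ hs => tr_mem (gD_pl hs))
    (fun _ hy => (g_fib hd hL hy).1) (sd_Conn.2 h)

private theorem g_HZ {B : Set V} (hd : Disjoint Y B) (hL : gL G Y B) (h : HZ G Y) :
    HZ (sd G) (gD G Y B) :=
  fib_HZ (P := Cq G) (Q := Cq G) (T := mi G Y) (tr Y)
    (fun _ hs _ _ hst => tr_mono (gD_pl hs) hst) (fun _ hs => tr_mem (gD_pl hs))
    (fun _ hy => g_fib hd hL hy) (sd_HZ.2 h)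

/-- a vertex of `s` in `Y` -/
private def gp (Y : Set V) (s : Cq G) : V := if h : ∃ x ∈ s.1, x ∈ Y then h.choose else pk s

private theorem gp_mem {s : Cq G} (h : ∃ x ∈ s.1, x ∈ Y) : gp Y s ∈ s.1 ∧ gp Y s ∈ Y := by
  unfold gp
  rw [dif_pos h]
  exact h.choose_spec

private theorem gp_nr {s t : Cq G} (hs : ∃ x ∈ s.1, x ∈ Y) (ht : ∃ x ∈ t.1, x ∈ Y)
    (h : Nr (sd G) s t) : Nr G (gp Y s) (gp Y t) := by
  have key : ∀ {s t : Cq G}, (∃ x ∈ s.1, x ∈ Y) → (∃ x ∈ t.1, x ∈ Y) → s ≤ t →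
      gp Y s = gp Y t ∨ G.Adj (gp Y s) (gp Y t) := by
    intro s t hs ht hst
    by_cases he : gp Y s = gp Y t
    · exact Or.inl he
    · exact Or.inr (t.2.2 (Finset.mem_coe.2 (Cq.le_iff.1 hst (gp_mem hs).1))
        (Finset.mem_coe.2 (gp_mem ht).1) he)
  rcases h with h | h | h
  · exact key hs ht h.le
  · exact key hs ht h.le
  · rcases key ht hs h.le with h1 | h1
    · exact Or.inl h1.symm
    · exact Or.inr h1.symm

/-- the edge `{x, z}` -/
private theorem gD_eg {B : Set V} {x z : V} (hx : x ∈ Y) (hz : z ∈ B) (e : G.Adj x z) :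
    eg G e ∈ gD G Y B := by
  refine ⟨fun w hw => ?_, ⟨x, Finset.mem_insert_self _ _, hx⟩,
    ⟨z, Finset.mem_insert_of_mem (Finset.mem_singleton_self _), hz⟩⟩
  have hw' : w ∈ ({x, z} : Finset V) := hw
  rw [Finset.mem_insert, Finset.mem_singleton] at hw'
  rcases hw' with rfl | rfl
  · exact Or.inl hx
  · exact Or.inr hz

private theorem g_of_Conn {B : Set V} (hL : gL G Y B) (h : Conn (sd G) (gD G Y B)) :
    Conn G Y := by
  rw [Conn_iff]
  obtain ⟨s, hs⟩ := h.1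
  obtain ⟨x0, _, hx0⟩ := hs.2.1
  refine ⟨⟨x0, hx0⟩, fun f hf => ?_⟩
  have hloc : ∀ s t, EIn (sd G) (gD G Y B) s t → f (gp Y s) = f (gp Y t) := by
    intro s t e
    rcases gp_nr e.2.1.2.1 e.2.2.2.1 (Or.inr e.1) with h1 | h1
    · rw [h1]
    · exact hf _ _ ⟨h1, (gp_mem e.2.1.2.1).2, (gp_mem e.2.2.2.1).2⟩
  have hx : ∀ x ∈ Y, ∃ s ∈ gD G Y B, f (gp Y s) = f x := by
    intro x hx
    obtain ⟨z, hz1, hz2⟩ := (hL {x} (Finset.singleton_nonempty x) (by simp) (by simpa using hx)).1.1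
    have e : G.Adj x z := hz1 x (Finset.mem_coe.2 (Finset.mem_singleton_self _))
    refine ⟨eg G e, gD_eg hx hz2 e, ?_⟩
    have h1 := gp_mem (gD_eg hx hz2 e).2.1
    by_cases he : gp Y (eg G e) = x
    · rw [he]
    · exact hf _ _ ⟨(eg G e).2.2 (Finset.mem_coe.2 h1.1)
        (Finset.mem_coe.2 (Finset.mem_insert_self _ _)) he, h1.2, hx⟩
  intro x hxY x' hxY'
  obtain ⟨s, hs, hs'⟩ := hx x hxY
  obtain ⟨t, ht, ht'⟩ := hx x' hxY'
  rw [← hs', ← ht']
  exact h.const (f := fun s => f (gp Y s)) hloc hs ht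

private theorem Z1_self {A : Set V} {a : V → V → ZMod 2} (ha : a ∈ Z1 G A) (x : V) : a x x = 0 :=
  (mem_Z1.1 ha).1 x x (fun e => e.1.ne rfl)

private theorem g_of_HZ {B : Set V} (hd : Disjoint Y B) (hL : gL G Y B)
    (h : HZ (sd G) (gD G Y B)) : HZ G Y := by
  intro a ha
  obtain ⟨h0, hs, hc⟩ := mem_Z1.1 ha
  have hmem := pbk_mem (G' := sd G) (p := gp Y) ha (E := gD G Y B)
    (fun s t hst hs ht => gp_nr hs.2.1 ht.2.1 hst) (fun s hs => (gp_mem hs.2.1).2)
  obtain ⟨g, hg⟩ := Triv_rs.1 (h _ hmem)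
  have hg' : ∀ s t, EIn (sd G) (gD G Y B) s t → a (gp Y s) (gp Y t) = g s + g t :=
    fun s t e => hg s t e
  -- the simplices with the only vertex `y` in `Y`
  have hF : ∀ y ∈ Y, Conn (sd G) {t | vx G y < t ∧ ∀ x ∈ t.1, x ∉ (vx G y).1 → x ∈ B} := by
    intro y hy
    refine (above_mi_Conn (vx G y) B).2 ?_
    exact (hL _ (vx G y).2.1 (vx G y).2.2 (fun x hx => by
      rw [Finset.mem_singleton.1 hx]; exact hy)).1
  have hFD : ∀ y ∈ Y, ∀ t ∈ {t | vx G y < t ∧ ∀ x ∈ t.1, x ∉ (vx G y).1 → x ∈ B},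
      t ∈ gD G Y B ∧ gp Y t = y := by
    rintro y hy t ⟨h1, h2⟩
    have hyt : y ∈ t.1 := (Cq.lt_iff.1 h1).1 (Finset.mem_singleton_self _)
    have hD : t ∈ gD G Y B := by
      refine ⟨fun x hx => ?_, ⟨y, hyt, hy⟩, ?_⟩
      · by_cases hxy : x = y
        · exact Or.inl (by rw [hxy]; exact hy)
        · exact Or.inr (h2 x hx (fun h3 => hxy (Finset.mem_singleton.1 h3)))
      · obtain ⟨x, hx, hxy⟩ := Finset.exists_of_ssubset (Cq.lt_iff.1 h1)
        exact ⟨x, hx, h2 x hx hxy⟩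
    refine ⟨hD, ?_⟩
    by_contra hne
    have h3 := gp_mem hD.2.1
    exact Set.disjoint_left.1 hd h3.2 (h2 _ h3.1 (fun h4 => hne (Finset.mem_singleton.1 h4)))
  have hgc : ∀ y ∈ Y, ∀ s ∈ {t | vx G y < t ∧ ∀ x ∈ t.1, x ∉ (vx G y).1 → x ∈ B},
      ∀ t ∈ {t | vx G y < t ∧ ∀ x ∈ t.1, x ∉ (vx G y).1 → x ∈ B}, g s = g t := by
    intro y hy s hs t ht
    refine (hF y hy).const (fun u v e => ?_) hs ht
    have h1 := hFD y hy u e.2.1
    have h2 := hFD y hy v e.2.2
    have h3 := hg' u v ⟨e.1, h1.1, h2.1⟩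
    rw [h1.2, h2.2, Z1_self ha] at h3
    exact (z2_eq _ _).1 h3.symm
  have hch : ∀ y, ∃ c : ZMod 2, y ∈ Y →
      ∀ s ∈ {t | vx G y < t ∧ ∀ x ∈ t.1, x ∉ (vx G y).1 → x ∈ B}, g s = c := by
    intro y
    by_cases hy : y ∈ Y
    · obtain ⟨s, hs⟩ := (hF y hy).1
      exact ⟨g s, fun _ t ht => hgc y hy t ht s hs⟩
    · exact ⟨0, fun h => absurd h hy⟩
  choose c hcc using hch
  refine ⟨c, fun y y' e => ?_⟩
  obtain ⟨z, hz1, hz2⟩ := (hL {y, y'} ⟨y, by simp⟩ (eg G e.1).2.2 (by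
    intro x hx
    rw [Finset.mem_insert, Finset.mem_singleton] at hx
    rcases hx with rfl | rfl
    · exact e.2.1
    · exact e.2.2)).1.1
  have e1 : G.Adj y z := hz1 y (Finset.mem_coe.2 (by simp))
  have e2 : G.Adj y' z := hz1 y' (Finset.mem_coe.2 (by simp))
  have hcl : G.IsClique (({y, y', z} : Finset V) : Set V) := by
    have h1 := e.1
    intro u hu v hv huv
    simp only [Finset.coe_insert, Finset.coe_singleton, Set.mem_insert_iff,
      Set.mem_singleton_iff] at hu hv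
    rcases hu with rfl | rfl | rfl <;> rcases hv with rfl | rfl | rfl
    · exact absurd rfl huv
    · exact h1
    · exact e1
    · exact h1.symm
    · exact absurd rfl huv
    · exact e2
    · exact e1.symm
    · exact e2.symm
    · exact absurd rfl huv
  let T : Cq G := ⟨{y, y', z}, ⟨y, by simp⟩, hcl⟩
  have hT : T ∈ gD G Y B := by
    refine ⟨fun x hx => ?_, ⟨y, by simp [T], e.2.1⟩, ⟨z, by simp [T], hz2⟩⟩
    have hx' : x ∈ ({y, y', z} : Finset V) := hx
    simp only [Finset.mem_insert, Finset.mem_singleton] at hx'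
    rcases hx' with rfl | rfl | rfl
    · exact Or.inl e.2.1
    · exact Or.inl e.2.2
    · exact Or.inr hz2
  have hyz : ∀ {w : V} (hw : w ∈ Y) (ew : G.Adj w z),
      eg G ew ∈ {t | vx G w < t ∧ ∀ x ∈ t.1, x ∉ (vx G w).1 → x ∈ B} := by
    intro w hw ew
    have hv : (eg G ew).1 = {w, z} := rfl
    have hv2 : (vx G w).1 = {w} := rfl
    refine ⟨?_, fun x hx hxw => ?_⟩
    · rw [Cq.lt_iff, hv, hv2]
      refine Finset.ssubset_iff_subset_ne.2 ⟨by simp, fun h1 => ?_⟩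
      have h2 : z ∈ ({w} : Finset V) := by rw [h1]; simp
      exact ew.ne (Finset.mem_singleton.1 h2).symm
    · rw [hv, Finset.mem_insert, Finset.mem_singleton] at hx
      rcases hx with rfl | rfl
      · exact absurd (Finset.mem_singleton_self _) hxw
      · exact hz2
  have hyY : ∀ {w : V}, w ∈ Y → w ≠ z := fun hw hwz =>
    Set.disjoint_left.1 hd hw (by rw [hwz]; exact hz2)
  have hlt1 : eg G e1 < T := by
    rw [Cq.lt_iff]
    refine Finset.ssubset_iff_subset_ne.2 ⟨?_, fun h1 => ?_⟩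
    · intro x hx
      have hx' : x ∈ ({y, z} : Finset V) := hx
      simp only [Finset.mem_insert, Finset.mem_singleton] at hx'
      show x ∈ ({y, y', z} : Finset V)
      rcases hx' with rfl | rfl <;> simp
    · have h2 : y' ∈ (eg G e1).1 := by rw [h1]; simp [T]
      have h3 : y' ∈ ({y, z} : Finset V) := h2
      rw [Finset.mem_insert, Finset.mem_singleton] at h3
      rcases h3 with h3 | h3
      · exact e.1.ne h3.symm
      · exact hyY e.2.2 h3
  have hlt2 : eg G e2 < T := by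
    rw [Cq.lt_iff]
    refine Finset.ssubset_iff_subset_ne.2 ⟨?_, fun h1 => ?_⟩
    · intro x hx
      have hx' : x ∈ ({y', z} : Finset V) := hx
      simp only [Finset.mem_insert, Finset.mem_singleton] at hx'
      show x ∈ ({y, y', z} : Finset V)
      rcases hx' with rfl | rfl <;> simp
    · have h2 : y ∈ (eg G e2).1 := by rw [h1]; simp [T]
      have h3 : y ∈ ({y', z} : Finset V) := h2
      rw [Finset.mem_insert, Finset.mem_singleton] at h3
      rcases h3 with h3 | h3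
      · exact e.1.ne h3
      · exact hyY e.2.1 h3
  have d1 := hFD y e.2.1 _ (hyz e.2.1 e1)
  have d2 := hFD y' e.2.2 _ (hyz e.2.2 e2)
  have k1 := hg' (eg G e1) T ⟨Or.inl hlt1, d1.1, hT⟩
  have k2 := hg' (eg G e2) T ⟨Or.inl hlt2, d2.1, hT⟩
  rw [d1.2, hcc y e.2.1 _ (hyz e.2.1 e1)] at k1
  rw [d2.2, hcc y' e.2.2 _ (hyz e.2.2 e2)] at k2
  have k3 : a y (gp Y T) + a y' (gp Y T) = a y y' := by
    have h1 := gp_mem hT.2.1
    have h2 : gp Y T ∈ ({y, y', z} : Finset V) := h1.1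
    simp only [Finset.mem_insert, Finset.mem_singleton] at h2
    rcases h2 with h2 | h2 | h2
    · rw [h2, Z1_self ha, zero_add, hs]
    · rw [h2, Z1_self ha, add_zero]
    · exact absurd h2 (hyY h1.2)
  rw [← k3, k1, k2]
  linear_combination two_add (g T)

/-! ## the layers -/

private theorem dnF_eq (L : Lay G m l rho) (hY : ∀ y ∈ Y, l y = i) :
    dnF G l i Y = gD G Y {x | l x = i + 1} := by
  ext s
  constructor
  · rintro ⟨h1, h2⟩
    obtain ⟨h3, ⟨x, hx, hxi⟩, ⟨y, hy, hyi⟩⟩ := FF_two L h1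
    refine ⟨fun z hz => ?_, ⟨x, hx, h2 x hx hxi⟩, ⟨y, hy, hyi⟩⟩
    rcases h3 z hz with h4 | h4
    · exact Or.inl (h2 z hz h4)
    · exact Or.inr h4
  · rintro ⟨h1, ⟨x, hx, hxY⟩, ⟨y, hy, hyi⟩⟩
    have hyi' : l y = i + 1 := hyi
    refine ⟨⟨⟨x, hx, (hY x hxY).le⟩, ⟨y, hy, fun h2 => ?_⟩⟩, fun z hz hzi => ?_⟩
    · have h3 : l y ≤ i := h2
      omega
    · rcases h1 z hz with h4 | h4
      · exact h4
      · have h5 : l z = i + 1 := h4
        omega

private theorem upF_eq (L : Lay G m l rho) (hY : ∀ y ∈ Y, l y = i + 1) :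
    upF G l i Y = gD G Y {x | l x = i} := by
  ext s
  constructor
  · rintro ⟨h1, h2⟩
    obtain ⟨h3, ⟨x, hx, hxi⟩, ⟨y, hy, hyi⟩⟩ := FF_two L h1
    refine ⟨fun z hz => ?_, ⟨y, hy, h2 y hy hyi⟩, ⟨x, hx, hxi⟩⟩
    rcases h3 z hz with h4 | h4
    · exact Or.inr h4
    · exact Or.inl (h2 z hz h4)
  · rintro ⟨h1, ⟨y, hy, hyY⟩, ⟨x, hx, hxi⟩⟩
    have hxi' : l x = i := hxi
    have hyi' := hY y hyY
    refine ⟨⟨⟨x, hx, hxi'.le⟩, ⟨y, hy, fun h2 => ?_⟩⟩, fun z hz hzi => ?_⟩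
    · have h3 : l y ≤ i := h2
      omega
    · rcases h1 z hz with h4 | h4
      · exact h4
      · have h5 : l z = i := h4
        omega

/-- Sketch of the four statements.  `p s := tr {x | l x = i} s` maps `dnF G l i Y` to `mi G Y` monotonously; the
fibre over `t ∈ mi G Y` (upper fibre `{s | t ≤ p s}`) is retracted (`ret_Conn`, `ret_HZ`, `s ↦ t ∪ (part of s in the
layer i + 1)`, below `s`) to `{s | p s = t}`, which is isomorphic to the simplices of `Lk t` in the layer `i + 1`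
(or use `above_mi_Conn`, `above_mi_HZ` of MOT/Sph with `A = {l = i + 1}`; connected and `HZ` by `Lay.lk_up`).
Fibre lemma (MOT/Fib), `sd_Conn`, `sd_HZ`. -/
theorem dnF_Conn (L : Lay G m l rho) (hi : i < m) (hY : ∀ y ∈ Y, l y = i) (h : Conn G Y) :
    Conn (sd G) (dnF G l i Y) := by
  rw [dnF_eq L hY]
  exact g_Conn (Set.disjoint_left.2 (fun x hx hx' => by
    have h1 := hY x hx
    have h2 : l x = i + 1 := hx'
    omega))
    (fun s hn hc hs => L.lk_up hi hn hc (fun x hx => hY x (hs x hx))) h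

theorem dnF_HZ (L : Lay G m l rho) (hi : i < m) (hY : ∀ y ∈ Y, l y = i) (h : HZ G Y) :
    HZ (sd G) (dnF G l i Y) := by
  rw [dnF_eq L hY]
  exact g_HZ (Set.disjoint_left.2 (fun x hx hx' => by
    have h1 := hY x hx
    have h2 : l x = i + 1 := hx'
    omega))
    (fun s hn hc hs => L.lk_up hi hn hc (fun x hx => hY x (hs x hx))) h

theorem upF_Conn (L : Lay G m l rho) (hi : i < m) (hY : ∀ y ∈ Y, l y = i + 1) (h : Conn G Y) :
    Conn (sd G) (upF G l i Y) := by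
  rw [upF_eq L hY]
  exact g_Conn (Set.disjoint_left.2 (fun x hx hx' => by
    have h1 := hY x hx
    have h2 : l x = i := hx'
    omega))
    (fun s hn hc hs => L.lk_dn hi hn hc (fun x hx => hY x (hs x hx))) h

theorem upF_HZ (L : Lay G m l rho) (hi : i < m) (hY : ∀ y ∈ Y, l y = i + 1) (h : HZ G Y) :
    HZ (sd G) (upF G l i Y) := by
  rw [upF_eq L hY]
  exact g_HZ (Set.disjoint_left.2 (fun x hx hx' => by
    have h1 := hY x hx
    have h2 : l x = i := hx'
    omega))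
    (fun s hn hc hs => L.lk_dn hi hn hc (fun x hx => hY x (hs x hx))) h

/-- Converse, connected sets.  Sketch: `f` locally constant on `Y` gives `s ↦ f (a vertex of s in Y)` on `upF`,
locally constant; every `y ∈ Y` is in a simplex of `upF` (an edge `{x, y}`, `l x = i`, `Lay.lk_dn`). -/
theorem of_upF_Conn (L : Lay G m l rho) (hi : i < m) (hY : ∀ y ∈ Y, l y = i + 1)
    (h : Conn (sd G) (upF G l i Y)) : Conn G Y := by
  rw [upF_eq L hY] at h
  exact g_of_Conn (fun s hn hc hs => L.lk_dn hi hn hc (fun x hx => hY x (hs x hx))) h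

/-- Converse, `H^1 = 0`.  Sketch: `a ∈ Z1 G Y`; pick for `s ∈ upF` a vertex `r s ∈ s` in the layer `i + 1`;
`a' s t := a (r s) (r t)` is in `Z1 (sd G) (upF ..)`, so `a' = dg`.  For `y ∈ Y` the function `g` is constant on
`{s ∈ FF G l i | y is the only vertex of s in the layer i + 1}`: connected (the simplices of `Lk {y}` in the
layer `i`), `a' = 0` there; call the value `h y`.  For an edge `y y'` of `Y` take `x` in the layer `i` adjacent
to both (`Lay.lk_dn`) and `t = {x, y, y'}`: `h y + g t = a y (r t)`, `h y' + g t = a y' (r t)`, so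
`a y y' = h y + h y'`. -/
theorem of_upF_HZ (L : Lay G m l rho) (hi : i < m) (hY : ∀ y ∈ Y, l y = i + 1)
    (h : HZ (sd G) (upF G l i Y)) : HZ G Y := by
  rw [upF_eq L hY] at h
  exact g_of_HZ (Set.disjoint_left.2 (fun x hx hx' => by
    have h1 := hY x hx
    have h2 : l x = i := hx'
    omega))
    (fun s hn hc hs => L.lk_dn hi hn hc (fun x hx => hY x (hs x hx))) h

end MOT.Ea
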