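import Pool.Agent.MOT.EaG
import Pool.Agent.MOT.Sf1
import Pool.Agent.MOT.Fib
import Pool.Agent.MOT.Sdi

/-!
# MOT/EaR: the rule for the sets `pl X` (block E, helper98)
-/

open Classical

noncomputable section

namespace MOT.Ea

variable {V : Type} {G : SimpleGraph V} {B : Set (Cq G) → Prop} {X Y : Set V}

theorem mem_tr {M : Set V} {s : Cq G} (h : s ∈ pl G M) {x : V} :
    x ∈ (tr M s).1 ↔ x ∈ s.1 ∧ x ∈ M := by
  rw [tr_val h]; exact Finset.mem_filter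

/-- the closed interface is a retract of the thick interface -/
theorem thick_ret : EE G X Y ⊆ pl G X ∩ pl G Y ∧
    (∀ s ∈ pl G X ∩ pl G Y, tr (X ∪ Y) s ∈ EE G X Y) ∧
    (∀ s ∈ pl G X ∩ pl G Y, tr (X ∪ Y) s ≤ s) ∧
    (∀ s ∈ pl G X ∩ pl G Y, ∀ t ∈ pl G X ∩ pl G Y, s ≤ t → tr (X ∪ Y) s ≤ tr (X ∪ Y) t) ∧
    ∀ s ∈ EE G X Y, tr (X ∪ Y) s = s := by
  have hm : ∀ s ∈ pl G X ∩ pl G Y, s ∈ pl G (X ∪ Y) := by
    rintro s ⟨⟨x, hx, h⟩, _⟩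
    exact ⟨x, hx, Or.inl h⟩
  refine ⟨fun s hs => ⟨hs.1.2, hs.2⟩, fun s hs => ⟨⟨tr_mem (hm s hs), ?_⟩, ?_⟩,
    fun s _ => tr_le s, fun s hs t _ hst => tr_mono (hm s hs) hst, fun s hs => tr_id hs.1.1⟩
  · obtain ⟨⟨x, hx, h⟩, _⟩ := hs
    refine ⟨x, ?_, h⟩
    exact (mem_tr ⟨x, hx, Or.inl h⟩).2 ⟨hx, Or.inl h⟩
  · obtain ⟨_, ⟨x, hx, h⟩⟩ := hs
    refine ⟨x, ?_, h⟩
    exact (mem_tr ⟨x, hx, Or.inr h⟩).2 ⟨hx, Or.inr h⟩

theorem thick_Conn : Conn (sd G) (pl G X ∩ pl G Y) ↔ Conn (sd G) (EE G X Y) := by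
  obtain ⟨h1, h2, h3, h4, _⟩ := thick_ret (G := G) (X := X) (Y := Y)
  exact ret_Conn (tr (X ∪ Y)) h1 h2 h3 h4

theorem thick_HZ : HZ (sd G) (pl G X ∩ pl G Y) ↔ HZ (sd G) (EE G X Y) := by
  obtain ⟨h1, h2, h3, h4, h5⟩ := thick_ret (G := G) (X := X) (Y := Y)
  exact ret_HZ (tr (X ∪ Y)) h1 h2 h3 h4 h5

/-- simplices meeting `X` and not `Y` below a chain of simplices meeting `X` and `Y` -/
theorem below_top {q : Cq (sd G)} (hq : q ∈ mi (sd G) (pl G X ∩ pl G Y)) (hXY : Disjoint X Y) :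
    ∃ a ∈ Lk (sd G) (q.1 : Set (Cq G)) ∩ (pl G X \ pl G Y),
      ∀ u ∈ Lk (sd G) (q.1 : Set (Cq G)) ∩ (pl G X \ pl G Y), u ≤ a := by
  obtain ⟨b, hb, hmin⟩ := chain_bot q.1 q.2.2 q.2.1
  have hbq := hq b hb
  obtain ⟨⟨x, hx, hxX⟩, ⟨y, hy, hyY⟩⟩ := hbq
  have hxY : x ∈ Yᶜ := fun h => Set.disjoint_left.1 hXY hxX h
  have hbp : b ∈ pl G Yᶜ := ⟨x, hx, hxY⟩
  have hab : tr Yᶜ b < b := by
    refine lt_of_le_of_ne (tr_le b) fun e => ?_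
    have h1 : y ∈ (tr Yᶜ b).1 := by rw [e]; exact hy
    exact ((mem_tr hbp).1 h1).2 hyY
  have hxa : x ∈ (tr Yᶜ b).1 := (mem_tr hbp).2 ⟨hx, hxY⟩
  refine ⟨tr Yᶜ b, ⟨fun s hs => ?_, ⟨x, hxa, hxX⟩, ?_⟩, ?_⟩
  · exact Or.inr (lt_of_lt_of_le hab (hmin s hs))
  · rintro ⟨z, hz, hzY⟩
    exact ((mem_tr hbp).1 hz).2 hzY
  · rintro u ⟨hu, ⟨z, hz, hzX⟩, huY⟩
    have hub : u < b := by
      rcases hu b hb with h | h
      · exact absurd ⟨y, h.le hy, hyY⟩ huY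
      · exact h
    intro w hw
    exact (mem_tr hbp).2 ⟨hub.le hw, fun hwY => huY ⟨w, hw, hwY⟩⟩

/-- the fibres of `tr (thick interface)` -/
theorem fibre_ok (hXY : Disjoint X Y) {q : Cq (sd G)} (hq : q ∈ mi (sd G) (pl G X ∩ pl G Y)) :
    Conn (sd (sd G)) {c | c ∈ EE (sd G) (pl G X \ pl G Y) (pl G X ∩ pl G Y) ∧
      q ≤ tr (pl G X ∩ pl G Y) c} ∧
    HZ (sd (sd G)) {c | c ∈ EE (sd G) (pl G X \ pl G Y) (pl G X ∩ pl G Y) ∧
      q ≤ tr (pl G X ∩ pl G Y) c} := by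
  set U := pl G X \ pl G Y with hU
  set C := pl G X ∩ pl G Y with hC
  have hUC : Disjoint U C := by
    rw [Set.disjoint_left]
    rintro s ⟨_, h⟩ ⟨_, h'⟩
    exact h h'
  set F : Set (Cq (sd G)) := {c | c ∈ EE (sd G) U C ∧ q ≤ tr C c} with hF
  set F' : Set (Cq (sd G)) := {c | q < c ∧ ∀ x ∈ c.1, x ∉ q.1 → x ∈ U} with hF'
  -- the retraction
  let r : Cq (sd G) → Cq (sd G) := fun c => tr (U ∪ (q.1 : Set (Cq G))) c
  have hqc : ∀ c ∈ F, q ≤ c := fun c hc => hc.2.trans (tr_le c)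
  have hpl : ∀ c ∈ F, c ∈ pl (sd G) (U ∪ (q.1 : Set (Cq G))) := by
    rintro c ⟨⟨⟨_, ⟨u, hu, huU⟩⟩, _⟩, _⟩
    exact ⟨u, hu, Or.inl huU⟩
  have hsub : F' ⊆ F := by
    rintro c ⟨hqc, hcU⟩
    obtain ⟨u, huc, huq⟩ := Finset.exists_of_ssubset (Cq.lt_iff.1 hqc)
    have huU : u ∈ U := hcU u huc huq
    obtain ⟨w, hw⟩ := q.2.1
    have hwC : w ∈ C := hq w hw
    have hcC : c ∈ pl (sd G) C := ⟨w, hqc.le hw, hwC⟩
    refine ⟨⟨⟨fun z hz => ?_, ⟨u, huc, huU⟩⟩, hcC⟩, fun z hz => ?_⟩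
    · by_cases hzq : z ∈ q.1
      · exact Or.inr (hq z hzq)
      · exact Or.inl (hcU z hz hzq)
    · exact (mem_tr hcC).2 ⟨hqc.le hz, hq z hz⟩
  have hr1 : ∀ c ∈ F, r c ∈ F' := by
    intro c hc
    have hv : ∀ z, z ∈ (r c).1 ↔ z ∈ c.1 ∧ z ∈ U ∪ (q.1 : Set (Cq G)) :=
      fun z => mem_tr (hpl c hc)
    obtain ⟨u, hu, huU⟩ := hc.1.1.2
    refine ⟨?_, ?_⟩
    · rw [Cq.lt_iff]
      rw [Finset.ssubset_iff_of_subset]
      · refine ⟨u, ?_, fun h => ?_⟩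
        · exact (hv u).2 ⟨hu, Or.inl huU⟩
        · exact Set.disjoint_left.1 hUC huU (hq u h)
      · intro z hz
        exact (hv z).2 ⟨hqc c hc hz, Or.inr hz⟩
    · intro z hz hzq
      rcases ((hv z).1 hz).2 with h | h
      · exact h
      · exact absurd h hzq
  have hr3 : ∀ c ∈ F, ∀ d ∈ F, c ≤ d → r c ≤ r d := fun c hc d _ h => tr_mono (hpl c hc) h
  have hr5 : ∀ c ∈ F', r c = c := by
    rintro c ⟨_, hcU⟩
    refine tr_id fun z hz => ?_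
    by_cases hzq : z ∈ q.1
    · exact Or.inr hzq
    · exact Or.inl (hcU z hz hzq)
  obtain ⟨a, ha, htop⟩ := below_top hq hXY
  constructor
  · refine (ret_Conn r hsub hr1 (fun c _ => tr_le c) hr3).2 ?_
    exact (above_mi_Conn q U).2 (top_Conn ha htop)
  · refine (ret_HZ r hsub hr1 (fun c _ => tr_le c) hr3 hr5).2 ?_
    exact (above_mi_HZ q U).2 (top_HZ ha htop)

theorem pl_acy (h : Acy G X) : Acy (sd G) (pl G X) :=
  ⟨(bt_Conn mi_sub_pl subset_rfl).2 h.1, (bt_HZ mi_sub_pl subset_rfl).2 h.2.1, by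
    rw [compl_pl]; exact sd_Conn.2 h.2.2⟩

/-- Sketch: `tr (X ∪ Y)` is a retraction of `pl X ∩ pl Y` to `EE G X Y`, below the identity: `ret_Conn`,
`ret_HZ`. -/
theorem rule_C (hc : Conn (sd G) (EE G X Y)) (hz : HZ (sd G) (EE G X Y)) :
    Conn (sd G) (pl G X ∩ pl G Y) ∧ HZ (sd G) (pl G X ∩ pl G Y) := by
  exact ⟨thick_Conn.2 hc, thick_HZ.2 hz⟩

/-- Sketch: `Yᶜ = X ∪ (X ∪ Y)ᶜ` is connected, both parts are nonempty (`(X ∪ Y)ᶜ` is nonempty since it is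
connected), so there is an edge between them (`FrIn_nonempty` of MOT/Sf1 or `Conn_iff`): it is in `Fr G X`, not
in `pl G Y`. -/
theorem rule_ne (hd : Disjoint X Y) (hX : X.Nonempty) (hY : Conn G Yᶜ)
    (hU : (X ∪ Y)ᶜ.Nonempty) : pl G X ∩ pl G Y ≠ Fr G X := by
  have hA : X ⊆ Yᶜ := fun x hx hy => Set.disjoint_left.1 hd hx hy
  have hA' : X ≠ Yᶜ := by
    intro e
    obtain ⟨x, hx⟩ := hU
    have h1 : x ∈ Yᶜ := fun h => hx (Or.inr h)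
    rw [← e] at h1
    exact hx (Or.inl h1)
  obtain ⟨x, z, e, hx, hz'⟩ := FrIn_nonempty hY hA hX hA'
  intro h
  have h1 : eg G e.1 ∈ Fr G X := ⟨⟨x, Finset.mem_insert_self _ _, hx⟩,
    ⟨z, Finset.mem_insert_of_mem (Finset.mem_singleton_self _), hz'⟩⟩
  rw [← h] at h1
  obtain ⟨w, hw, hwY⟩ := h1.2
  have hw' : w ∈ ({x, z} : Finset V) := hw
  rw [Finset.mem_insert, Finset.mem_singleton] at hw'
  rcases hw' with rfl | rfl
  · exact hA hx hwY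
  · exact e.2.2 hwY

/-- Sketch: `U := pl X \ pl Y`, `C := pl X ∩ pl Y`; an element of `EE (sd G) U C` is a chain `c` of simplices in
`pl X`, some of them missing `Y` and some meeting `Y` (the latter are above the former).  `p c := tr C c` (the
part of the chain in `C`) is a monotone map to `mi (sd G) C`, which is connected and `HZ` (`sd_Conn`, `sd_HZ`).
Upper fibre over `d`: `{c | c ∈ EE U C, d ≤ tr C c}`, i.e. the chains `c ⊇ d` in `U ∪ C` which meet `U`; the retraction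
`c ↦ tr (U ∪ d) c`, i.e. `(c ∩ U) ∪ d`, below the identity, maps it to `{c | d < c, all new elements in U}`,
which is `above_mi` of MOT/Sph over `sd G` with `s = d`, `A = U`: equivalent to `Lk (sd G) d ∩ U`; with `q` the
least element of the chain `d` (`chain_bot`; `q ∈ C`) `Lk (sd G) d ∩ U = {u ∈ U | u < q}` (an element of `U` is not
above an element of `C`), and it has the greatest element `q \ Y` (it meets `X`, misses `Y`, `X` and `Y` are disjoint):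
`top_Conn`, `top_HZ`.  Fibre lemma `fib_Conn`, `fib_HZ` (MOT/Fib). -/
theorem rule_EE (hd : Disjoint X Y) (hc : Conn (sd G) (pl G X ∩ pl G Y))
    (hz : HZ (sd G) (pl G X ∩ pl G Y)) :
    Conn (sd (sd G)) (EE (sd G) (pl G X \ pl G Y) (pl G X ∩ pl G Y)) ∧
      HZ (sd (sd G)) (EE (sd G) (pl G X \ pl G Y) (pl G X ∩ pl G Y)) := by
  have hm : ∀ x ∈ EE (sd G) (pl G X \ pl G Y) (pl G X ∩ pl G Y),
      ∀ y ∈ EE (sd G) (pl G X \ pl G Y) (pl G X ∩ pl G Y), x ≤ y →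
      tr (pl G X ∩ pl G Y) x ≤ tr (pl G X ∩ pl G Y) y := fun x hx y _ h => tr_mono hx.2 h
  have hp : ∀ x ∈ EE (sd G) (pl G X \ pl G Y) (pl G X ∩ pl G Y),
      tr (pl G X ∩ pl G Y) x ∈ mi (sd G) (pl G X ∩ pl G Y) := fun x hx => tr_mem hx.2
  constructor
  · exact fib_Conn _ hm hp (fun q hq => (fibre_ok hd hq).1) (sd_Conn.2 hc)
  · exact fib_HZ _ hm hp (fun q hq => fibre_ok hd hq) (sd_HZ.2 hz)

/-- RULE -/
theorem rule [Finite V] (h3 : IsSph3 G) (R : BallRules (sd G) B) (hd : Disjoint X Y)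
    (hX : Acy G X) (hY : Acy G Y) (hU : Acy G (X ∪ Y)) (hc : Conn (sd G) (EE G X Y))
    (hz : HZ (sd G) (EE G X Y)) (hB : B (pl G Y)) : B (pl G X) ↔ B (pl G (X ∪ Y)) := by
  have h3' := sd_sph3 h3
  obtain ⟨c1, c2⟩ := rule_C hc hz
  have hne := rule_ne hd hX.1.1 hY.2.2 hU.2.2.1
  have hCF : pl G X ∩ pl G Y ⊆ Fr G X := fun s hs => ⟨hs.1, by
    obtain ⟨y, hy, hyY⟩ := hs.2
    exact ⟨y, hy, fun h => Set.disjoint_left.1 hd h hyY⟩⟩
  have hw := Fr_wall (W := X) h3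
  have hP : Conn (sd G) (mi G Xᶜ) := sd_Conn.2 hX.2.2
  have hN : Conn (sd G) (mi G X) := sd_Conn.2 hX.1
  have hQ : Conn (sd G) (Fr G X) := Fr_Conn h3 hX.1 hX.2.2
  have hC : Acy (sd G) (pl G X ∩ pl G Y) := wall_acy hw hP hN hCF c1 c2 hne
  have hBC : B (pl G X ∩ pl G Y) := thick_disc R h3' hw hQ hP hN hCF c1 c2 hne
  have e1 : (pl G X ∩ pl G Y) ∪ (pl G Y \ pl G X) = pl G Y := by
    ext s; simp only [Set.mem_union, Set.mem_inter_iff, Set.mem_sdiff]; tauto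
  have e2 : (pl G X \ pl G Y) ∪ (pl G X ∩ pl G Y) = pl G X := by
    ext s; simp only [Set.mem_union, Set.mem_inter_iff, Set.mem_sdiff]; tauto
  have e3 : (pl G X \ pl G Y) ∪ (pl G X ∩ pl G Y) ∪ (pl G Y \ pl G X) = pl G (X ∪ Y) := by
    rw [e2, pl_union]; ext s; simp only [Set.mem_union, Set.mem_sdiff]; tauto
  have hE := rule_EE hd c1 c2
  have := R.rt (pl G X \ pl G Y) (pl G X ∩ pl G Y) (pl G Y \ pl G X)
    (by rw [Set.disjoint_left]; rintro s ⟨_, h⟩ h'; exact h h'.2)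
    (by rw [Set.disjoint_left]; rintro s ⟨h, _⟩ h'; exact h'.2 h)
    (by rw [Set.disjoint_left]; rintro s ⟨_, h⟩ h'; exact h h'.1)
    (by
      rintro s ⟨⟨x, hx, hxX⟩, hsY⟩ t ⟨⟨y, hy, hyY⟩, htX⟩ e
      rcases sd_adj.1 e with h | h
      · exact htX ⟨x, (Cq.le_iff.1 h.le) hx, hxX⟩
      · exact hsY ⟨y, (Cq.le_iff.1 h.le) hy, hyY⟩)
    hC (by rw [e1]; exact pl_acy hY) (by rw [e2]; exact pl_acy hX) (by rw [e3]; exact pl_acy hU)
    hE.1 hE.2 hBC (by rw [e1]; exact hB)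
  rwa [e3, e2] at this

end MOT.Ea
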