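import Pool.Agent.MOT.Bas

/-!
# MOT: THIN, a cycle minus a vertex (helper23)

`C` is a cycle (connected, all degrees 2), `w ∈ C`.  Then every symmetric function on the edges of
`C \ {w}` is a coboundary.

(1) `C' := C \ {w}` is nonempty and connected.  If `C' = A ∪ B`, `A`, `B` nonempty disjoint without
edges between them, then each of them has an edge to `w` (`C` connected), `w` has degree 2, so exactly one
edge from `A` to `w`; but then the sum of the degrees of the vertices of `A` in `C`, `2 |A|`, is
`2 #(edges inside A) + 1`: contradiction (parity; e.g. count pairs `(x, y)`, `x ∈ A`, `y` adjacent to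
`x`; the pairs with `y ∈ A` come in pairs `(x, y), (y, x)`).
(2) Counting: the linear map `δ : functions on C' → symmetric functions on the edges of C'` has kernel
the constants (dimension 1), and the edges of `C'` are `|C| - 2 = |C'| - 1` many (`|C|` edges in `C`, two at
`w`).  So `δ` is surjective.  Alternative: `C'` connected with `|C'| - 1` edges is a tree
(`SimpleGraph.isTree_iff_connected_and_card`); or remove the vertices one by one from an end of the path
(induction): let `w1, w2` be the neighbours of `w`; order `C'` by distance.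
-/

open Classical

noncomputable section

namespace MOT

variable {V : Type} {G : SimpleGraph V}

private theorem forest_tjA [Finite V] (k : V → V → ZMod 2) (hk : ∀ x y, k x y = k y x) :
    ∀ (n : ℕ) (A : Set V), A.ncard = n →
      (∀ B ⊆ A, B.Nonempty → ∃ v ∈ B, {y | EIn G B v y}.ncard ≤ 1) →
      ∃ f : V → ZMod 2, ∀ x y, EIn G A x y → k x y = f x + f y := by
  intro n
  induction n with
  | zero =>
    intro A hA _
    rw [Set.ncard_eq_zero] at hA
    subst hA
    exact ⟨0, fun x y e => absurd e.2.1 (Set.notMem_empty x)⟩
  | succ n ih =>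
    intro A hA h
    have hne : A.Nonempty := by
      rw [← Set.ncard_pos]
      omega
    obtain ⟨v, hv, h1⟩ := h A subset_rfl hne
    obtain ⟨f, hf⟩ := ih (A \ {v}) (by
      rw [Set.ncard_sdiff_singleton_of_mem hv]
      omega) (fun B hB hn => h B (hB.trans Set.sdiff_subset) hn)
    by_cases hN : ∃ u, EIn G A v u
    · obtain ⟨u, hu⟩ := hN
      have huniq : ∀ y, EIn G A v y → y = u := fun y hy =>
        (Set.ncard_le_one (Set.toFinite _)).1 h1 y hy u hu
      have huv : u ≠ v := hu.1.ne'
      refine ⟨Function.update f v (k v u + f u), ?_⟩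
      intro x y e
      by_cases hx : x = v
      · subst hx
        have hyu : y = u := huniq y e
        subst hyu
        rw [Function.update_self, Function.update_of_ne huv, add_assoc, two_add, add_zero]
      · by_cases hy : y = v
        · subst hy
          have hxu : x = u := huniq x e.symm
          subst hxu
          rw [Function.update_self, Function.update_of_ne hx, add_comm, add_assoc, two_add,
            add_zero, hk]
        · rw [Function.update_of_ne hx, Function.update_of_ne hy]
          exact hf x y ⟨e.1, ⟨e.2.1, hx⟩, ⟨e.2.2, hy⟩⟩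
    · refine ⟨f, fun x y e => hf x y ⟨e.1, ⟨e.2.1, ?_⟩, ⟨e.2.2, ?_⟩⟩⟩
      · rintro rfl
        exact hN ⟨y, e⟩
      · rintro rfl
        exact hN ⟨x, e.symm⟩

theorem cyc_minus [Finite V] {C : Set V} (hC : IsCyc G C) {w : V} (hw : w ∈ C)
    (k : V → V → ZMod 2) (hk : ∀ x y, k x y = k y x) :
    ∃ f : V → ZMod 2, ∀ x y, EIn G (C \ {w}) x y → k x y = f x + f y := by
  refine forest_tjA k hk _ (C \ {w}) rfl ?_
  intro B hB hne
  by_contra hcon
  push Not at hcon
  have hcl : ∀ x ∈ B, ∀ y, EIn G C x y → y ∈ B := by
    intro x hx y e
    have hsub : {y | EIn G B x y} ⊆ {y | EIn G C x y} := fun z hz =>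
      ⟨hz.1, (hB hz.2.1).1, (hB hz.2.2).1⟩
    have heq : {y | EIn G B x y} = {y | EIn G C x y} := by
      refine Set.eq_of_subset_of_ncard_le hsub ?_ (Set.toFinite _)
      rw [hC.2 x (hB hx).1]
      exact hcon x hx
    have hy : y ∈ {y | EIn G B x y} := by
      rw [heq]
      exact e
    exact hy.2.2
  obtain ⟨b, hb⟩ := hne
  have key : ∀ z, Relation.ReflTransGen (EIn G C) b z → z ∈ B := by
    intro z hz
    induction hz with
    | refl => exact hb
    | tail _ e ih => exact hcl _ ih _ e
  exact (hB (key w (hC.1.2 b (hB hb).1 w hw))).2 rfl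

end MOT
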