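import Pool.Agent.MOT.Eul
import Pool.Agent.MOT.Cpt
import Pool.Agent.MOT.TjA

/-!
# MOT/PaCyc: connected proper parts of a cycle (block I)
-/

open Classical

noncomputable section

namespace MOT.Pa

variable {V : Type} {G : SimpleGraph V} {A D : Set V}

/-- the graph on `A` -/
private theorem ind_conn_paCyc (hc : Conn G A) : (G.induce A).Connected := by
  obtain ⟨⟨a, ha⟩, h⟩ := hc
  have : Nonempty A := ⟨⟨a, ha⟩⟩
  have key : ∀ x y : V, Relation.ReflTransGen (EIn G A) x y → ∀ hx : x ∈ A, ∀ hy : y ∈ A,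
      (G.induce A).Reachable ⟨x, hx⟩ ⟨y, hy⟩ := by
    intro x y r
    induction r with
    | refl => exact fun _ _ => SimpleGraph.Reachable.refl _
    | tail _ e ih =>
      intro hx hy
      exact (ih hx e.2.1).trans (SimpleGraph.Adj.reachable e.1)
  exact SimpleGraph.Connected.mk (fun x y => key x.1 y.1 (h x.1 x.2 y.1 y.2) x.2 y.2)

private theorem ind_deg_paCyc [Finite V] [Fintype A] (x : A)
    [Fintype ((G.induce A).neighborSet x)] :
    (G.induce A).degree x = {y | EIn G A x.1 y}.ncard := by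
  rw [← SimpleGraph.card_neighborSet_eq_degree, ← Nat.card_eq_fintype_card]
  have e : {y | EIn G A x.1 y} = Subtype.val '' ((G.induce A).neighborSet x) := by
    ext y
    constructor
    · rintro ⟨h1, h2, h3⟩
      exact ⟨⟨y, h3⟩, h1, rfl⟩
    · rintro ⟨z, h1, rfl⟩
      exact ⟨h1, x.2, z.2⟩
  rw [e, Set.ncard_image_of_injective _ Subtype.val_injective]
  rfl

/-- a connected proper part of a cycle is joined to the rest by exactly two edges.
Sketch: `2 E(A) + cut(A) = 2 |A|` (degrees), `E(A) ≥ |A| - 1` (connected; Mathlib: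
`SimpleGraph.Connected.card_vert_le_card_edgeSet_add_one`), so `cut(A)` is even and at most `2`, and
positive since `D` is connected. -/
theorem cyc_cut [Finite V] (hD : IsCyc G D) (hA : A ⊆ D) (hc : Conn G A) (hne : A ≠ D) :
    {p : V × V | p.1 ∈ A ∧ p.2 ∉ A ∧ EIn G D p.1 p.2}.ncard = 2 := by
  have hfA : Fintype A := Fintype.ofFinite A
  have hconn := ind_conn_paCyc hc
  have h1 := hconn.card_vert_le_card_edgeSet_add_one
  have h2 := (G.induce A).sum_degrees_eq_twice_card_edges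
  have h3 : Nat.card (G.induce A).edgeSet = (G.induce A).edgeFinset.card := by
    rw [SimpleGraph.edgeFinset_card, Nat.card_eq_fintype_card]
  -- the number of edges to the outside
  have h4 : {p : V × V | p.1 ∈ A ∧ p.2 ∉ A ∧ EIn G D p.1 p.2}.ncard =
      ∑ x : A, {y | y ∉ A ∧ EIn G D x.1 y}.ncard := by
    have e : {p : V × V | p.1 ∈ A ∧ p.2 ∉ A ∧ EIn G D p.1 p.2} =
        (fun q : (Σ x : A, {y // y ∉ A ∧ EIn G D x.1 y}) => ((q.1.1, q.2.1) : V × V)) ''
          Set.univ := by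
      ext ⟨u, v⟩
      constructor
      · rintro ⟨hu, hv, huv⟩
        exact ⟨⟨⟨u, hu⟩, ⟨v, hv, huv⟩⟩, trivial, rfl⟩
      · rintro ⟨⟨⟨u', hu⟩, ⟨v', hv, huv⟩⟩, -, h⟩
        cases h
        exact ⟨hu, hv, huv⟩
    rw [e, Set.ncard_image_of_injective, Set.ncard_univ, Nat.card_sigma]
    · rfl
    · rintro ⟨⟨u, hu⟩, ⟨v, hv⟩⟩ ⟨⟨u', hu'⟩, ⟨v', hv'⟩⟩ h
      cases h
      rfl
  have h5 : ∀ x : A, (G.induce A).degree x + {y | y ∉ A ∧ EIn G D x.1 y}.ncard = 2 := by
    intro x
    rw [ind_deg_paCyc, ← hD.2 x.1 (hA x.2), ← Set.ncard_union_eq]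
    · congr 1
      ext y
      constructor
      · rintro (h | ⟨-, h⟩)
        · exact h.mono hA
        · exact h
      · intro h
        by_cases hy : y ∈ A
        · exact Or.inl ⟨h.1, x.2, hy⟩
        · exact Or.inr ⟨hy, h⟩
    · rw [Set.disjoint_left]
      rintro y h ⟨h', -⟩
      exact h' h.2.2
  have h6 : ∑ x : A, (G.induce A).degree x + ∑ x : A, {y | y ∉ A ∧ EIn G D x.1 y}.ncard =
      2 * Nat.card A := by
    rw [← Finset.sum_add_distrib, Finset.sum_congr rfl (fun x _ => h5 x), Finset.sum_const,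
      Finset.card_univ, Nat.card_eq_fintype_card, smul_eq_mul, mul_comm]
  -- there is an edge to the outside
  have h7 : 0 < {p : V × V | p.1 ∈ A ∧ p.2 ∉ A ∧ EIn G D p.1 p.2}.ncard := by
    rw [Set.ncard_pos (Set.toFinite _)]
    obtain ⟨a, ha⟩ := hc.1
    obtain ⟨b, hb, hbA⟩ : ∃ b ∈ D, b ∉ A := by
      by_contra hcon
      push Not at hcon
      exact hne (Set.Subset.antisymm hA hcon)
    by_contra hcon
    rw [Set.not_nonempty_iff_eq_empty] at hcon
    have key : ∀ z, Relation.ReflTransGen (EIn G D) a z → z ∈ A := by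
      intro z hz
      induction hz with
      | refl => exact ha
      | @tail u v _ e ih =>
        by_contra hv
        have : ((u, v) : V × V) ∈ {p : V × V | p.1 ∈ A ∧ p.2 ∉ A ∧ EIn G D p.1 p.2} :=
          ⟨ih, hv, e⟩
        rw [hcon] at this
        exact this
    exact hbA (key b (hD.1.2 a (hA ha) b hb))
  omega

/-- ... and has `H^1 = 0`.  Sketch: `E(A) = |A| - 1` and `E(A) = fn G A 2`, `|A| = fn G A 1`; the space
`Z1 G A` has dimension at most `fn G A 2`, the coboundaries have dimension `fn G A 1 - b0 = |A| - 1`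
(`dim_B1`, `b0_eq_one`); or `euler`. -/
theorem cyc_HZ [Finite V] (hD : IsCyc G D) (hA : A ⊆ D) (hc : Conn G A) (hne : A ≠ D) :
    HZ G A := by
  intro a ha
  obtain ⟨w, hw, hwA⟩ : ∃ w ∈ D, w ∉ A := by
    by_contra hcon
    push Not at hcon
    exact hne (Set.Subset.antisymm hA hcon)
  obtain ⟨f, hf⟩ := cyc_minus hD hw a (mem_Z1.1 ha).2.1
  refine ⟨f, fun x y e => hf x y ⟨e.1, ⟨hA e.2.1, ?_⟩, ⟨hA e.2.2, ?_⟩⟩⟩
  · rintro rfl
    exact hwA e.2.1
  · rintro rfl
    exact hwA e.2.2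

end MOT.Pa
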