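import Pool.Agent.MOT.MV
import Pool.Agent.MOT.Joi
import Pool.Agent.MOT.PaCyc

/-!
# MOT/EaS: shelling of a disc in a closed surface by vertices (helper81)

`shell2`: `T` a connected closed surface, `C ⊂ T`, `C ≠ T`, connected, `HZ`, at least two vertices: some
`t ∈ C` has `Lk t ∩ C` connected with `HZ` and `C \ {t}` connected with `HZ`.
Proof: it suffices that `t` has a neighbour in `T \ C` and `C \ {t}` is connected (Mayer-Vietoris:
`Lk t ∩ C` is connected, a proper part of the cycle `Lk t ∩ T`, so `HZ`; then `HZ (C \ {t})` by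
`add_vertex_Surj`).  Otherwise every boundary vertex is a cut vertex; take a boundary vertex `t` and a
component `P` of `C \ {t}` with `|P|` minimal.  `P` contains a boundary vertex `p` (otherwise `P` is closed
in the connected set `T \ {t}`, so `C = T`).  `C \ P` is connected and contains `t`, so a component of
`C \ {p}` which does not contain `t` is properly contained in `P`.
`shell2_ind`: the induction principle.
-/

open Classical

noncomputable section

namespace MOT

variable {V : Type} {G : SimpleGraph V} {T C P : Set V} {t : V}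

/-- a set which is closed under adjacency in a connected set is everything -/
theorem Conn.closed (h : Conn G T) {P : Set V} (hP : P ⊆ T) (hne : P.Nonempty)
    (hcl : ∀ x ∈ P, ∀ y ∈ T, G.Adj x y → y ∈ P) : P = T := by
  obtain ⟨x, hx⟩ := hne
  refine Set.Subset.antisymm hP fun y hy => ?_
  have h1 := h.const (f := fun z => if z ∈ P then 1 else 0) (by
    intro u v e
    have : u ∈ P ↔ v ∈ P := ⟨fun hu => hcl u hu v e.2.2 e.1, fun hv => hcl v hv u e.2.1 e.1.symm⟩
    simp only [this]) (hP hx) hy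
  simp only [hx, if_true] at h1
  by_contra hn
  rw [if_neg hn] at h1
  exact one_ne_zero h1

/-- removing a vertex with connected link keeps a set connected -/
theorem Conn.remove (h : Conn G T) (hl : Conn G (Lk G {t} ∩ T)) : Conn G (T \ {t}) := by
  obtain ⟨u, hu⟩ := hl.1
  have hut : u ≠ t := fun e => by
    have := hu.1 t rfl
    rw [e] at this; exact G.loopless.irrefl t this
  rw [Conn_iff]
  refine ⟨⟨u, hu.2, hut⟩, fun f hf x hx y hy => ?_⟩
  have key := h.const (f := fun z => if z = t then f u else f z) (by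
    intro a b e
    have aux : ∀ b, EIn G T t b → f u = f b := fun b e =>
      hl.const (fun p q e' => hf p q ⟨e'.1, ⟨e'.2.1.2, fun h => by
          have := e'.2.1.1 t rfl; rw [show p = t from h] at this; exact G.loopless.irrefl t this⟩,
        ⟨e'.2.2.2, fun h => by
          have := e'.2.2.1 t rfl; rw [show q = t from h] at this; exact G.loopless.irrefl t this⟩⟩)
        hu ⟨fun z hz => by rw [show z = t from hz]; exact e.1, e.2.2⟩
    by_cases ha : a = t
    · subst ha
      by_cases hb : b = a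
      · rw [hb]
      · simp only [if_true, if_neg hb]; exact aux b e
    · by_cases hb : b = t
      · subst hb
        simp only [if_true, if_neg ha]; exact (aux a e.symm).symm
      · simp only [if_neg ha, if_neg hb]
        exact hf a b ⟨e.1, ⟨e.2.1, ha⟩, ⟨e.2.2, hb⟩⟩) hx.1 hy.1
  have hx' : x ≠ t := hx.2
  have hy' : y ≠ t := hy.2
  simpa only [if_neg hx', if_neg hy'] using key

/-- the complement of a union of components of `C \ {t}` is connected -/
theorem Conn.off (h : Conn G C) (ht : t ∈ C) (hP : P ⊆ C \ {t})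
    (hcl : ∀ x ∈ P, ∀ y ∈ C \ {t}, G.Adj x y → y ∈ P) : Conn G (C \ P) := by
  have htP : t ∉ P := fun h => (hP h).2 rfl
  rw [Conn_iff]
  refine ⟨⟨t, ht, htP⟩, fun f hf x hx y hy => ?_⟩
  have key := h.const (f := fun z => if z ∈ P then f t else f z) (by
    intro a b e
    have aux : ∀ a b, EIn G C a b → a ∈ P → b ∉ P → b = t := by
      intro a b e ha hb
      by_contra hne
      exact hb (hcl a ha b ⟨e.2.2, hne⟩ e.1)
    by_cases ha : a ∈ P
    · by_cases hb : b ∈ P
      · simp only [ha, hb, if_true]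
      · rw [if_pos ha, if_neg hb, aux a b e ha hb]
    · by_cases hb : b ∈ P
      · rw [if_neg ha, if_pos hb, aux b a e.symm hb ha]
      · rw [if_neg ha, if_neg hb]
        exact hf a b ⟨e.1, ⟨e.2.1, ha⟩, ⟨e.2.2, hb⟩⟩) hx.1 hy.1
  rwa [if_neg hx.2, if_neg hy.2] at key

theorem comp_cl {A : Set V} {x y z : V} (hy : y ∈ comp G A x) (hz : z ∈ A) (e : G.Adj y z) :
    z ∈ comp G A x := ⟨hy.1.tail ⟨e, hy.2, hz⟩, hz⟩

/-- a boundary vertex which is no cut vertex can be removed -/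
theorem shell_ok [Finite V] (hT : Surf G T) (hC : C ⊆ T) (hc : Conn G C) (hz : HZ G C)
    (h2 : ∃ x ∈ C, x ≠ t) (ht : t ∈ C) (hb : ∃ y ∈ T \ C, G.Adj t y) (h1 : Conn G (C \ {t})) :
    Conn G (Lk G {t} ∩ C) ∧ HZ G (Lk G {t} ∩ C) ∧ HZ G (C \ {t}) := by
  have hirr : ∀ x, x ∈ Lk G {t} → x ≠ t := fun x hx e => by
    have := hx t rfl
    rw [e] at this; exact G.loopless.irrefl t this
  have hLk : ∀ x, x ∈ Lk G {t} ↔ G.Adj t x := fun x =>
    ⟨fun h => h t rfl, fun h z hz => by rw [show z = t from hz]; exact h⟩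
  -- the star
  let B : Set V := insert t (Lk G {t} ∩ C)
  have hB : Conn G B := cone_Conn (x := t) (Set.mem_insert _ _) fun y hy hne => by
    rcases hy with hy | hy
    · exact absurd hy hne
    · exact (hLk y).1 hy.1
  have hU : (C \ {t}) ∪ B = C := by
    ext x
    constructor
    · rintro (h | h | h)
      · exact h.1
      · rw [h]; exact ht
      · exact h.2
    · intro h
      by_cases hx : x = t
      · exact Or.inr (Or.inl hx)
      · exact Or.inl ⟨h, hx⟩
  have hI : (C \ {t}) ∩ B = Lk G {t} ∩ C := by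
    ext x
    constructor
    · rintro ⟨h, h' | h'⟩
      · exact absurd h' h.2
      · exact h'
    · intro h
      exact ⟨⟨h.2, hirr x h.1⟩, Or.inr h⟩
  have hN : NAdj G ((C \ {t}) \ B) (B \ (C \ {t})) := by
    rintro x ⟨hx, hxB⟩ y ⟨hyB, hy⟩ e
    rcases hyB with hyt | hyL
    · rw [hyt] at e
      exact hxB (Or.inr ⟨(hLk x).2 e.symm, hx.1⟩)
    · exact hy ⟨hyL.2, hirr y hyL.1⟩
  have hne : ((C \ {t}) ∩ B).Nonempty := by
    rw [hI]
    by_contra hE
    rw [Set.not_nonempty_iff_eq_empty] at hE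
    obtain ⟨x, hx, hxt⟩ := h2
    have h3 := hc.closed (P := {t}) (Set.singleton_subset_iff.2 ht) ⟨t, rfl⟩ (by
      intro a ha b hb' e
      rw [show a = t from ha] at e
      have : b ∈ (∅ : Set V) := by rw [← hE]; exact ⟨(hLk b).2 e, hb'⟩
      exact absurd this (Set.notMem_empty b))
    rw [← h3] at hx
    exact hxt hx
  have c1 : Conn G (Lk G {t} ∩ C) := by
    rw [← hI]
    exact mv_conn_inter hN (by rw [hU]; exact hz) h1 hB hne
  have c2 : HZ G (Lk G {t} ∩ C) := by
    refine Pa.cyc_HZ (hT.lk t (hC ht)) (Set.inter_subset_inter_right _ hC) c1 fun e => ?_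
    obtain ⟨y, hy, hty⟩ := hb
    have : y ∈ Lk G {t} ∩ C := by rw [e]; exact ⟨(hLk y).2 hty, hy.1⟩
    exact hy.2 this.2
  refine ⟨c1, c2, fun b hb' => ?_⟩
  have hL2 : Lk G {t} ∩ (C \ {t}) = Lk G {t} ∩ C := by
    ext x
    exact ⟨fun h => ⟨h.1, h.2.1⟩, fun h => ⟨h.1, h.2, hirr x h.1⟩⟩
  have hS := add_vertex_Surj (G := G) (A := C \ {t}) (x := t) (fun h => h.2 rfl)
    (by rw [hL2]; exact c2)
  rw [Set.insert_diff_singleton, Set.insert_eq_of_mem ht] at hS
  obtain ⟨a, ha, hab⟩ := hS b hb'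
  have h5 := ((hz a ha).mono Set.diff_subset).add hab
  refine h5.congr fun x y _ => ?_
  simp only [Pi.add_apply]
  rw [← add_assoc, two_add, zero_add]

theorem shell2 [Finite V] (hT : Surf G T) (hcT : Conn G T) (hC : C ⊆ T) (hne : C ≠ T)
    (hc : Conn G C) (hz : HZ G C) (h2 : ∃ x ∈ C, ∃ y ∈ C, x ≠ y) :
    ∃ t ∈ C, Conn G (Lk G {t} ∩ C) ∧ HZ G (Lk G {t} ∩ C) ∧ Conn G (C \ {t}) ∧
      HZ G (C \ {t}) := by
  have h2' : ∀ t, ∃ x ∈ C, x ≠ t := by
    intro t
    obtain ⟨x, hx, y, hy, hxy⟩ := h2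
    by_cases h : x = t
    · exact ⟨y, hy, fun e => hxy (h.trans e.symm)⟩
    · exact ⟨x, hx, h⟩
  by_contra hno
  have hcut : ∀ t ∈ C, (∃ y ∈ T \ C, G.Adj t y) → ¬ Conn G (C \ {t}) := by
    intro t ht hb h1
    obtain ⟨a, b, c⟩ := shell_ok hT hC hc hz (h2' t) ht hb h1
    exact hno ⟨t, ht, a, b, h1, c⟩
  -- pairs
  let Pr : ℕ → Prop := fun k => ∃ t ∈ C, (∃ y ∈ T \ C, G.Adj t y) ∧ ∃ x ∈ C \ {t},
    (comp G (C \ {t}) x).ncard = k ∧ comp G (C \ {t}) x ≠ C \ {t}
  have hex : ∃ k, Pr k := by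
    obtain ⟨x, hx⟩ := hc.1
    have hbd : ∃ t ∈ C, ∃ y ∈ T \ C, G.Adj t y := by
      by_contra hn
      refine hne (hcT.closed hC hc.1 fun u hu v hv e => ?_)
      by_contra hvC
      exact hn ⟨u, hu, v, ⟨hv, hvC⟩, e⟩
    obtain ⟨t, ht, hb⟩ := hbd
    obtain ⟨x, hx, hxt⟩ := h2' t
    refine ⟨_, t, ht, hb, x, ⟨hx, hxt⟩, rfl, fun e => hcut t ht hb ?_⟩
    rw [← e]
    exact comp_Conn ⟨hx, hxt⟩
  obtain ⟨t, ht, hb, x, hx, hk, hneP⟩ := Nat.find_spec hex
  have hmin : ∀ k, k < Nat.find hex → ¬ Pr k := fun k hk => Nat.find_min hex hk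
  have hPsub : comp G (C \ {t}) x ⊆ C \ {t} := comp_sub
  have hPcl : ∀ u ∈ comp G (C \ {t}) x, ∀ v ∈ C \ {t}, G.Adj u v → v ∈ comp G (C \ {t}) x :=
    fun u hu v hv e => comp_cl hu hv e
  -- a boundary vertex in the component
  have hp : ∃ p ∈ comp G (C \ {t}) x, ∃ y ∈ T \ C, G.Adj p y := by
    by_contra hn
    have h3 : comp G (C \ {t}) x = T \ {t} := by
      refine (hcT.remove (hT.lk t (hC ht)).1).closed
        (fun u hu => ⟨hC (hPsub hu).1, (hPsub hu).2⟩) ⟨x, comp_self hx⟩ fun u hu v hv e => ?_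
      by_cases hvC : v ∈ C
      · exact hPcl u hu v ⟨hvC, hv.2⟩ e
      · exact absurd ⟨u, hu, v, ⟨hv.1, hvC⟩, e⟩ hn
    refine hne (Set.Subset.antisymm hC fun u hu => ?_)
    by_cases hut : u = t
    · rw [hut]; exact ht
    · have h4 : u ∈ comp G (C \ {t}) x := by rw [h3]; exact ⟨hu, hut⟩
      exact (hPsub h4).1
  obtain ⟨p, hpP, hpb⟩ := hp
  have hpC : p ∈ C := (hPsub hpP).1
  have htp : t ≠ p := fun e => (hPsub hpP).2 e.symm
  have hQ := hc.off ht hPsub hPcl
  have htP : t ∉ comp G (C \ {t}) x := fun h => (hPsub h).2 rfl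
  have hQsub : C \ comp G (C \ {t}) x ⊆ comp G (C \ {p}) t := by
    intro u hu
    have hsub : C \ comp G (C \ {t}) x ⊆ C \ {p} := fun v hv =>
      ⟨hv.1, fun e => hv.2 (by rw [show v = p from e]; exact hpP)⟩
    exact ⟨rtg_mono hsub (hQ.2 t ⟨ht, htP⟩ u hu), hsub hu⟩
  have hn2 := hcut p hpC hpb
  have hy : ∃ y ∈ C \ {p}, y ∉ comp G (C \ {p}) t := by
    by_contra hn
    refine hn2 ?_
    have e : comp G (C \ {p}) t = C \ {p} := Set.Subset.antisymm comp_sub fun u hu => by
      by_contra h; exact hn ⟨u, hu, h⟩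
    rw [← e]
    exact comp_Conn ⟨ht, htp⟩
  obtain ⟨y, hyC, hyt⟩ := hy
  have hdisj : ∀ u ∈ comp G (C \ {p}) y, u ∉ comp G (C \ {p}) t := by
    intro u hu hut
    exact hyt ⟨hut.1.trans (rtg_symm hu.1), hyC⟩
  have hsub2 : comp G (C \ {p}) y ⊂ comp G (C \ {t}) x := by
    refine ⟨fun u hu => ?_, fun h => ?_⟩
    · by_contra hn
      exact hdisj u hu (hQsub ⟨(comp_sub hu).1, hn⟩)
    · exact (comp_sub (h hpP)).2 rfl
  refine hmin _ ?_ ⟨p, hpC, hpb, y, hyC, rfl, fun e => ?_⟩
  · rw [← hk]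
    exact Set.ncard_lt_ncard hsub2 (Set.toFinite _)
  · have : t ∈ comp G (C \ {p}) y := by rw [e]; exact ⟨ht, htp⟩
    exact hdisj t this (comp_self ⟨ht, htp⟩)

/-- induction over a shelling -/
theorem shell2_ind [Finite V] (hT : Surf G T) (hcT : Conn G T) (Q : Set V → Prop)
    (h1 : ∀ t ∈ T, Q {t})
    (hs : ∀ X : Set V, ∀ t, insert t X ⊆ T → insert t X ≠ T → t ∉ X → Conn G X → HZ G X →
      Conn G (insert t X) → HZ G (insert t X) →
      Conn G (Lk G {t} ∩ X) → HZ G (Lk G {t} ∩ X) → Q X → Q (insert t X))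
    (hC : C ⊆ T) (hne : C ≠ T) (hc : Conn G C) (hz : HZ G C) : Q C := by
  obtain ⟨k, hk⟩ : ∃ k, C.ncard = k := ⟨_, rfl⟩
  induction k using Nat.strong_induction_on generalizing C with
  | _ k ih =>
    by_cases h2 : ∃ x ∈ C, ∃ y ∈ C, x ≠ y
    · obtain ⟨t, ht, a, b, c, d⟩ := shell2 hT hcT hC hne hc hz h2
      have e : insert t (C \ {t}) = C := by
        rw [Set.insert_diff_singleton, Set.insert_eq_of_mem ht]
      have hL : Lk G {t} ∩ (C \ {t}) = Lk G {t} ∩ C := by
        ext x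
        refine ⟨fun h => ⟨h.1, h.2.1⟩, fun h => ⟨h.1, h.2, fun hx => ?_⟩⟩
        have := h.1 t rfl
        rw [show x = t from hx] at this; exact G.loopless.irrefl t this
      have hlt : (C \ {t}).ncard < k := by
        rw [← hk]
        exact Set.ncard_lt_ncard ⟨Set.diff_subset, fun h => (h ht).2 rfl⟩ (Set.toFinite _)
      have hne' : C \ {t} ≠ T := fun h => (h ▸ hC ht : t ∈ C \ {t}).2 rfl
      have hQ := ih _ hlt (Set.diff_subset.trans hC) hne' c d rfl
      have := hs (C \ {t}) t (by rw [e]; exact hC) (by rw [e]; exact hne) (fun h => h.2 rfl) c d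
        (by rw [e]; exact hc) (by rw [e]; exact hz) (by rw [hL]; exact a) (by rw [hL]; exact b) hQ
      rwa [e] at this
    · obtain ⟨x, hx⟩ := hc.1
      have e : C = {x} := by
        refine Set.Subset.antisymm (fun y hy => ?_) (Set.singleton_subset_iff.2 hx)
        by_contra hn
        exact h2 ⟨y, hy, x, hx, hn⟩
      rw [e]
      exact h1 x (hC hx)

end MOT
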