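import Pool.Agent.MOT.EaM
import Pool.Agent.MOT.EaB
import Pool.Agent.MOT.EaR

/-!
# MOT/EaZ: combinatorial Alexander theorem (block E, helper98)
-/

open Classical

noncomputable section

namespace MOT.Ea

variable {V : Type} {G : SimpleGraph V} {l : V → ℕ} {m : ℕ} {rho : ℕ → V} {A : Set V}

/-- MAIN: in a layered 3-sphere the acyclic sets which miss the vertical path are balls -/
theorem ea_main [Finite V] (L : Lay G m l rho) {B : Set (Cq G) → Prop} (R : BallRules (sd G) B)
    (hA : Acy G A) (hr : ∀ i ≤ m, rho i ∉ A) : B (pl G A) :=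
  mov L (fun X => B (pl G X)) (ea_base L R)
    (fun _ _ hd hX hY hU hc hz hB => rule L.sph R hd hX hY hU hc hz hB) A hA hr

end MOT.Ea
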