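import Pool.Agent.MOT.JxB
import Pool.Agent.MOT.EaDef
import Pool.Agent.MOT.SfE
import Pool.Agent.MOT.Dua
import Pool.Agent.MOT.EbA

/-!
# MOT/EbS: complementary discs in the sphere `Fr G A` (block E2, helper16)

`fr_sphere`: `b1_Fr`: `b1 (Fr A) = b1 A + b1 Aᶜ`, `dual`: `b1 Aᶜ = b1 A = 0`; `Fr_Conn`.
`cmp_disc`: `S = Fr G A` is a closed surface (`surf_Fr`), `P = pl A ∩ pl U ⊆ S`, `P ≠ S`; by
`sphere_compl` (graph `sd G`) `S \ P` is connected with `HZ`.  `J = pl A ∩ pl (A ∪ U)ᶜ` retracts to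
`S \ P` by `tr Uᶜ` (`s ↦ s \ U`; `tr_le`, `tr_mono`, `tr_id`; note `A ⊆ Uᶜ`, so `J ⊆ pl G Uᶜ`):
`ret_Conn`, `ret_HZ` (`sd G = cmp (Cq G)`).  For the third claim: `S` is connected, `P` and `S \ P` are
nonempty, so there are adjacent `s ∈ P`, `s' ∈ S \ P`; `P` is an upper set, so `s' < s`; `s'` meets
`A` and `(A ∪ U)ᶜ`, `s` meets `U`.
`ee_disc`: `pl X ∩ pl Y` retracts to `EE G X Y` by `tr (X ∪ Y)`.
`disc_ball`: `J.ball_two` for the colouring `κ v = 0, 1, 2` for `v ∈ X`, `v ∈ Y`, else (in `Fin 3`),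
`A = {0, 1}`: `XX G κ A = pl X ∩ pl Y`, `J.Bd G κ A = pl X ∩ pl Y ∩ pl (X ∪ Y)ᶜ`.
-/

open Classical

noncomputable section

namespace MOT

open Ea

variable {V : Type} {G : SimpleGraph V}

private theorem mem_tr_ebS {M : Set V} {s : Cq G} (h : s ∈ pl G M) {x : V} :
    x ∈ (tr M s).1 ↔ x ∈ s.1 ∧ x ∈ M := by
  rw [tr_val h, Finset.mem_filter]

theorem fr_sphere [Finite V] (hG : IsSph3 G) {A : Set V} (h : Acy G A) :
    Conn (sd G) (Fr G A) ∧ HZ (sd G) (Fr G A) := by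
  refine ⟨Fr_Conn hG h.1 h.2.2, ?_⟩
  rw [← b1_eq_zero, b1_Fr hG, bb, ← dual hG h.1 h.2.2, b1_eq_zero.2 h.2.1]

theorem cmp_disc [Finite V] (hG : IsSph3 G) {A U : Set V} (hd : Disjoint A U)
    (hs : Conn (sd G) (Fr G A)) (hz : HZ (sd G) (Fr G A))
    (hc : Conn (sd G) (pl G A ∩ pl G U)) (hh : HZ (sd G) (pl G A ∩ pl G U))
    (hne : ∃ s ∈ Fr G A, s ∉ pl G U) :
    Conn (sd G) (pl G A ∩ pl G (A ∪ U)ᶜ) ∧ HZ (sd G) (pl G A ∩ pl G (A ∪ U)ᶜ) ∧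
    (pl G A ∩ pl G U ∩ pl G (A ∪ U)ᶜ).Nonempty := by
  have hsub : pl G A ∩ pl G U ⊆ Fr G A := by
    rintro s ⟨h1, x, hx, hxU⟩
    exact ⟨h1, x, hx, fun hA => Set.disjoint_left.1 hd hA hxU⟩
  have hne' : pl G A ∩ pl G U ≠ Fr G A := by
    intro e
    obtain ⟨s, h1, h2⟩ := hne
    rw [← e] at h1
    exact h2 h1.2
  obtain ⟨k1, k2⟩ := sphere_compl (surf_Fr hG) hs hz hsub hne' hc hh
  have r0 : ∀ s ∈ Fr G A \ (pl G A ∩ pl G U), ∃ y ∈ s.1, y ∈ (A ∪ U)ᶜ := by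
    rintro s ⟨⟨h1, y, hy, hyA⟩, h2⟩
    refine ⟨y, hy, ?_⟩
    rintro (h | h)
    · exact hyA h
    · exact h2 ⟨h1, y, hy, h⟩
  have r1 : Fr G A \ (pl G A ∩ pl G U) ⊆ pl G A ∩ pl G (A ∪ U)ᶜ := fun s hs =>
    ⟨hs.1.1, r0 s hs⟩
  have hpl : ∀ s ∈ pl G A ∩ pl G (A ∪ U)ᶜ, s ∈ pl G Uᶜ := by
    rintro s ⟨-, y, hy, hyA⟩
    exact ⟨y, hy, fun h => hyA (Or.inr h)⟩
  have r2 : ∀ s ∈ pl G A ∩ pl G (A ∪ U)ᶜ, tr Uᶜ s ∈ Fr G A \ (pl G A ∩ pl G U) := by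
    intro s hs'
    have hv := hpl s hs'
    have hm := tr_mem (hpl s hs')
    obtain ⟨⟨x, hx, hxA⟩, y, hy, hyA⟩ := hs'
    refine ⟨⟨⟨x, ?_, hxA⟩, y, ?_, fun h => hyA (Or.inl h)⟩, ?_⟩
    · exact (mem_tr_ebS hv).2 ⟨hx, fun h => Set.disjoint_left.1 hd hxA h⟩
    · exact (mem_tr_ebS hv).2 ⟨hy, fun h => hyA (Or.inr h)⟩
    · rintro ⟨-, z, hz', hzU⟩
      exact hm z hz' hzU
  have r5 : ∀ s ∈ Fr G A \ (pl G A ∩ pl G U), tr Uᶜ s = s := by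
    rintro s ⟨h1, h2⟩
    exact tr_id fun z hz' hzU => h2 ⟨h1.1, z, hz', hzU⟩
  refine ⟨(ret_Conn (tr Uᶜ) r1 r2 (fun s _ => tr_le s)
    (fun s hs' t _ hst => tr_mono (hpl s hs') hst)).2 k1,
    (ret_HZ (tr Uᶜ) r1 r2 (fun s _ => tr_le s)
    (fun s hs' t _ hst => tr_mono (hpl s hs') hst) r5).2 k2, ?_⟩
  -- an edge between the two discs
  obtain ⟨p, hp⟩ := hc.1
  obtain ⟨q, hq⟩ := k1.1
  by_contra hcon
  have key : ∀ z, Relation.ReflTransGen (EIn (sd G) (Fr G A)) p z → z ∈ pl G A ∩ pl G U := by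
    intro z hz'
    induction hz' with
    | refl => exact hp
    | @tail u v _ e ih =>
      by_contra hv
      rcases e.1 with h | h
      · obtain ⟨⟨x, hx, hxA⟩, y, hy, hyU⟩ := ih
        exact hv ⟨⟨x, Cq.le_iff.1 h.le hx, hxA⟩, y, Cq.le_iff.1 h.le hy, hyU⟩
      · obtain ⟨y, hy, hyAU⟩ := r0 v ⟨e.2.2, hv⟩
        exact hcon ⟨u, ih, y, Cq.le_iff.1 h.le hy, hyAU⟩
  exact hq.2 (key q (hs.2 p (hsub hp) q hq.1))

theorem ee_disc {X Y : Set V} (hd : Disjoint X Y)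
    (hc : Conn (sd G) (EE G X Y)) (hz : HZ (sd G) (EE G X Y)) :
    Conn (sd G) (pl G X ∩ pl G Y) ∧ HZ (sd G) (pl G X ∩ pl G Y) := by
  have r1 : EE G X Y ⊆ pl G X ∩ pl G Y := fun s hs => ⟨hs.1.2, hs.2⟩
  have hpl : ∀ s ∈ pl G X ∩ pl G Y, s ∈ pl G (X ∪ Y) := by
    rintro s ⟨⟨x, hx, hxX⟩, -⟩
    exact ⟨x, hx, Or.inl hxX⟩
  have r2 : ∀ s ∈ pl G X ∩ pl G Y, tr (X ∪ Y) s ∈ EE G X Y := by
    intro s hs
    have hv := hpl s hs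
    have hm := tr_mem (hpl s hs)
    obtain ⟨⟨x, hx, hxX⟩, y, hy, hyY⟩ := hs
    refine ⟨⟨hm, x, ?_, hxX⟩, y, ?_, hyY⟩
    · exact (mem_tr_ebS hv).2 ⟨hx, Or.inl hxX⟩
    · exact (mem_tr_ebS hv).2 ⟨hy, Or.inr hyY⟩
  exact ⟨(ret_Conn (tr (X ∪ Y)) r1 r2 (fun s _ => tr_le s)
    (fun s hs' t _ hst => tr_mono (hpl s hs') hst)).2 hc,
    (ret_HZ (tr (X ∪ Y)) r1 r2 (fun s _ => tr_le s)
    (fun s hs' t _ hst => tr_mono (hpl s hs') hst) (fun s hs => tr_id hs.1.1)).2 hz⟩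

theorem disc_ball [Finite V] (hG : IsSph3 G) {X Y : Set V} (hd : Disjoint X Y)
    (hc : Conn (sd G) (pl G X ∩ pl G Y)) (hz : HZ (sd G) (pl G X ∩ pl G Y))
    (hn : (pl G X ∩ pl G Y ∩ pl G (X ∪ Y)ᶜ).Nonempty) :
    Ball 2 (Rl (sd G) (pl G X ∩ pl G Y)) (Rl (sd G) (pl G X ∩ pl G Y ∩ pl G (X ∪ Y)ᶜ)) := by
  obtain ⟨κ, hκ⟩ : ∃ κ : V → Fin 3, κ = fun v => if v ∈ X then 0 else if v ∈ Y then 1 else 2 :=
    ⟨_, rfl⟩
  have k0 : ∀ v, κ v = 0 ↔ v ∈ X := by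
    intro v
    rw [hκ]
    by_cases h1 : v ∈ X
    · simp [h1]
    · by_cases h2 : v ∈ Y
      · simp [h1, h2]
      · simp [h1, h2]
  have k1 : ∀ v, κ v = 1 ↔ v ∈ Y := by
    intro v
    rw [hκ]
    by_cases h1 : v ∈ X
    · have h2 : v ∉ Y := Set.disjoint_left.1 hd h1
      simp [h1, h2]
    · by_cases h2 : v ∈ Y
      · simp [h1, h2]
      · simp [h1, h2]
  have k2 : ∀ v, κ v = 2 ↔ v ∈ (X ∪ Y)ᶜ := by
    intro v
    rw [hκ]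
    by_cases h1 : v ∈ X
    · simp [h1]
    · by_cases h2 : v ∈ Y
      · simp [h1, h2]
      · simp [h1, h2]
  have hA : ({0, 1} : Set (Fin 3)).ncard = 2 := Set.ncard_pair (by decide)
  have e1 : XX G κ ({0, 1} : Set (Fin 3)) = pl G X ∩ pl G Y := by
    ext s
    constructor
    · intro hs
      obtain ⟨x, hx, hx'⟩ := hs 0 (by simp)
      obtain ⟨y, hy, hy'⟩ := hs 1 (by simp)
      exact ⟨⟨x, hx, (k0 x).1 hx'⟩, y, hy, (k1 y).1 hy'⟩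
    · rintro ⟨⟨x, hx, hx'⟩, y, hy, hy'⟩ a ha
      have ha' : a = 0 ∨ a = 1 := by simpa using ha
      rcases ha' with rfl | rfl
      · exact ⟨x, hx, (k0 x).2 hx'⟩
      · exact ⟨y, hy, (k1 y).2 hy'⟩
  have e2 : J.Bd G κ ({0, 1} : Set (Fin 3)) = pl G X ∩ pl G Y ∩ pl G (X ∪ Y)ᶜ := by
    unfold J.Bd
    rw [e1]
    ext s
    constructor
    · rintro ⟨h1, b, hb, hs⟩
      obtain ⟨z, hz1, hz2⟩ := hs b rfl
      refine ⟨h1, z, hz1, (k2 z).1 ?_⟩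
      rw [hz2]
      have : b ≠ 0 ∧ b ≠ 1 := by
        constructor
        · rintro rfl
          exact hb (by simp)
        · rintro rfl
          exact hb (by simp)
      obtain ⟨h3, h4⟩ := this
      revert h3 h4
      clear hb hs hz2
      revert b
      decide
    · rintro ⟨h1, z, hz1, hz2⟩
      refine ⟨h1, 2, by decide, fun a ha => ⟨z, hz1, ?_⟩⟩
      have : a = 2 := ha
      rw [this]
      exact (k2 z).2 hz2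
  have := J.ball_two hG (κ := κ) hA (by rw [e2]; exact hn) (by rw [e1]; exact hc)
    (by rw [e1]; exact hz)
  rwa [e1, e2] at this

end MOT
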