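import Pool.Agent.MOT.Pl

/-!
# MOT/PlSel: construction of PL maps by components, selections, sums, min, max (helper25)

Products, finite selections, sums, minima and maxima of PL maps.
-/

open Classical

noncomputable section

namespace MOT

section Sel

variable {E F : Type}
variable [AddCommGroup E] [Module ℝ E] [TopologicalSpace E]
variable [AddCommGroup F] [Module ℝ F] [TopologicalSpace F]
variable {X : Set E}

/-- affine map into a power with given components -/
def apl {ι : Type} (A : ι → (E →ᵃ[ℝ] F)) : E →ᵃ[ℝ] (ι → F) where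
  toFun x i := A i x
  linear := LinearMap.pi fun i => (A i).linear
  map_vadd' x v := by
    funext i
    show A i (v +ᵥ x) = (A i).linear v +ᵥ A i x
    exact (A i).map_vadd x v

/-- component of an affine map into a power -/
def apr {ι : Type} (i : ι) (A : E →ᵃ[ℝ] (ι → F)) : E →ᵃ[ℝ] F where
  toFun x := A x i
  linear := (LinearMap.proj i).comp A.linear
  map_vadd' x v := by
    show A (v +ᵥ x) i = A.linear v i +ᵥ A x i
    rw [A.map_vadd x v]
    rfl

/-- a map into a power is PL if its components are -/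
theorem PLOn.pi {ι : Type} [Finite ι] {f : E → ι → F}
    (h : ∀ i, PLOn (fun x => f x i) X) : PLOn f X := by
  refine ⟨continuousOn_pi.2 fun i => (h i).1, ?_⟩
  choose S hS h2 using fun i => (h i).2
  refine ⟨(fun A : ι → (E →ᵃ[ℝ] F) => apl A) '' Set.pi Set.univ S,
    (Set.Finite.pi hS).image _, fun x hx => ?_⟩
  choose A hA hA' using fun i => h2 i x hx
  exact ⟨_, ⟨A, fun i _ => hA i, rfl⟩, funext fun i => hA' i⟩

/-- a component of a PL map is PL -/
theorem PLOn.apply {ι : Type} {f : E → ι → F} (h : PLOn f X) (i : ι) :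
    PLOn (fun x => f x i) X := by
  obtain ⟨hc, S, hS, h2⟩ := h
  refine ⟨fun x hx => (continuousWithinAt_pi.1 (hc x hx)) i,
    (fun A : E →ᵃ[ℝ] (ι → F) => apr i A) '' S, hS.image _, fun x hx => ?_⟩
  obtain ⟨A, hA, h3⟩ := h2 x hx
  exact ⟨_, ⟨A, hA, rfl⟩, by show f x i = A x i; rw [h3]⟩

/-- a continuous finite selection of PL maps is PL -/
theorem PLOn.select {ι : Type} [Finite ι] {f : E → F} {g : ι → E → F} (hc : ContinuousOn f X)
    (hg : ∀ i, PLOn (g i) X) (h : ∀ x ∈ X, ∃ i, f x = g i x) : PLOn f X := by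
  refine ⟨hc, ?_⟩
  choose S hS h2 using fun i => (hg i).2
  refine ⟨⋃ i, S i, Set.finite_iUnion hS, fun x hx => ?_⟩
  obtain ⟨i, hi⟩ := h x hx
  obtain ⟨A, hA, h3⟩ := h2 i x hx
  exact ⟨A, Set.mem_iUnion.2 ⟨i, hA⟩, by rw [hi, h3]⟩

/-- a continuous selection of two PL maps is PL -/
theorem PLOn.select2 {f g g' : E → F} (hc : ContinuousOn f X) (hg : PLOn g X) (hg' : PLOn g' X)
    (h : ∀ x ∈ X, f x = g x ∨ f x = g' x) : PLOn f X := by
  refine PLOn.select (ι := Bool) (g := fun b => if b then g else g') hc ?_ ?_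
  · intro b
    cases b
    · simpa using hg'
    · simpa using hg
  · intro x hx
    rcases h x hx with h | h
    · exact ⟨true, by simpa using h⟩
    · exact ⟨false, by simpa using h⟩

theorem PLOn.add [ContinuousAdd F] {f g : E → F} (hf : PLOn f X) (hg : PLOn g X) :
    PLOn (fun x => f x + g x) X := by
  refine ⟨hf.1.add hg.1, ?_⟩
  obtain ⟨S, hS, h2⟩ := hf.2
  obtain ⟨T, hT, h3⟩ := hg.2
  refine ⟨Set.image2 (fun A B => A + B) S T, Set.Finite.image2 _ hS hT, fun x hx => ?_⟩
  obtain ⟨A, hA, hA'⟩ := h2 x hx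
  obtain ⟨B, hB, hB'⟩ := h3 x hx
  exact ⟨_, Set.mem_image2_of_mem hA hB, by show f x + g x = A x + B x; rw [hA', hB']⟩

theorem PLOn.smul [ContinuousConstSMul ℝ F] {f : E → F} (c : ℝ) (hf : PLOn f X) :
    PLOn (fun x => c • f x) X := by
  refine ⟨hf.1.const_smul c, ?_⟩
  obtain ⟨S, hS, h2⟩ := hf.2
  refine ⟨(fun A => c • A) '' S, hS.image _, fun x hx => ?_⟩
  obtain ⟨A, hA, hA'⟩ := h2 x hx
  exact ⟨_, ⟨A, hA, rfl⟩, by show c • f x = c • A x; rw [hA']⟩

theorem PLOn.neg [ContinuousConstSMul ℝ F] {f : E → F} (hf : PLOn f X) :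
    PLOn (fun x => - f x) X :=
  (hf.smul (-1)).congr fun x _ => by simp

theorem PLOn.sub [ContinuousAdd F] [ContinuousConstSMul ℝ F] {f g : E → F} (hf : PLOn f X)
    (hg : PLOn g X) : PLOn (fun x => f x - g x) X :=
  (hf.add hg.neg).congr fun x _ => by rw [sub_eq_add_neg]

theorem PLOn.sum [ContinuousAdd F] {ι : Type} (s : Finset ι) {f : ι → E → F}
    (h : ∀ i ∈ s, PLOn (f i) X) : PLOn (fun x => ∑ i ∈ s, f i x) X := by
  induction s using Finset.induction_on with
  | empty => simpa using PLOn.const (0 : F) X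
  | insert a s ha ih =>
    refine ((h a (Finset.mem_insert_self a s)).add
      (ih fun i hi => h i (Finset.mem_insert_of_mem hi))).congr fun x _ => ?_
    rw [Finset.sum_insert ha]

/-- coordinates are PL -/
theorem PLOn.coord {ι : Type} (i : ι) (X : Set (ι → ℝ)) : PLOn (fun x : ι → ℝ => x i) X :=
  (PLOn.id X).apply i

end Sel

section Real

variable {E : Type} [AddCommGroup E] [Module ℝ E] [TopologicalSpace E] {X : Set E}

theorem PLOn.max {f g : E → ℝ} (hf : PLOn f X) (hg : PLOn g X) :
    PLOn (fun x => max (f x) (g x)) X :=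
  PLOn.select2 (hf.1.sup hg.1) hf hg fun x _ => by
    rcases le_total (f x) (g x) with h | h
    · exact Or.inr (max_eq_right h)
    · exact Or.inl (max_eq_left h)

theorem PLOn.min {f g : E → ℝ} (hf : PLOn f X) (hg : PLOn g X) :
    PLOn (fun x => min (f x) (g x)) X :=
  PLOn.select2 (hf.1.inf hg.1) hf hg fun x _ => by
    rcases le_total (f x) (g x) with h | h
    · exact Or.inl (min_eq_left h)
    · exact Or.inr (min_eq_right h)

theorem PLOn.abs {f : E → ℝ} (hf : PLOn f X) : PLOn (fun x => |f x|) X :=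
  (hf.max hf.neg).congr fun _ _ => rfl

theorem PLOn.inf' {ι : Type} {s : Finset ι} (hs : s.Nonempty) {f : ι → E → ℝ}
    (h : ∀ i ∈ s, PLOn (f i) X) : PLOn (fun x => s.inf' hs (fun i => f i x)) X := by
  induction hs using Finset.Nonempty.cons_induction with
  | singleton a => simpa using h a (Finset.mem_singleton_self a)
  | cons a s ha hs ih =>
    refine ((h a (Finset.mem_cons_self a s)).min
      (ih fun i hi => h i (Finset.mem_cons_of_mem hi))).congr fun x _ => ?_
    rw [Finset.inf'_cons hs]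

theorem PLOn.sup'  {ι : Type} {s : Finset ι} (hs : s.Nonempty) {f : ι → E → ℝ}
    (h : ∀ i ∈ s, PLOn (f i) X) : PLOn (fun x => s.sup' hs (fun i => f i x)) X := by
  induction hs using Finset.Nonempty.cons_induction with
  | singleton a => simpa using h a (Finset.mem_singleton_self a)
  | cons a s ha hs ih =>
    refine ((h a (Finset.mem_cons_self a s)).max
      (ih fun i hi => h i (Finset.mem_cons_of_mem hi))).congr fun x _ => ?_
    rw [Finset.sup'_cons hs]

theorem PLOn.fold_max {ι : Type} (s : Finset ι) {f : ι → E → ℝ}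
    (h : ∀ i ∈ s, PLOn (f i) X) : PLOn (fun x => s.fold Max.max 0 (fun i => f i x)) X := by
  induction s using Finset.induction_on with
  | empty => simpa using PLOn.const (0 : ℝ) X
  | insert a s ha ih =>
    refine ((h a (Finset.mem_insert_self a s)).max
      (ih fun i hi => h i (Finset.mem_insert_of_mem hi))).congr fun x _ => ?_
    rw [Finset.fold_insert ha]

end Real

end MOT
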