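import Pool.Agent.MOT.St2
import Pool.Agent.MOT.PlSel

/-!
# MOT/Nr: subdivision coordinates are piecewise linear (helper25)
-/

open Classical

noncomputable section

namespace MOT

variable {V : Type} {G : SimpleGraph V} {A : Set V}

theorem rdn_pl [Finite V] (X : Set (Cq G → ℝ)) : PLOn (rdn G) X := by
  have : Fintype (Cq G) := Fintype.ofFinite _
  refine PLOn.pi fun x => ?_
  have h : PLOn (fun c : Cq G → ℝ => ∑ s : Cq G, if x ∈ s.1 then c s / (s.1.card : ℝ) else 0) X := by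
    refine PLOn.sum _ fun s _ => ?_
    by_cases hx : x ∈ s.1
    · refine ((PLOn.coord s X).smul ((s.1.card : ℝ)⁻¹)).congr fun c _ => ?_
      rw [if_pos hx, smul_eq_mul, div_eq_inv_mul]
    · exact (PLOn.const (0 : ℝ) X).congr fun c _ => if_neg hx
  refine h.congr fun c _ => ?_
  show (∑ᶠ s : Cq G, if x ∈ s.1 then c s / (s.1.card : ℝ) else 0) = _
  exact finsum_eq_sum_of_fintype _

theorem rmx_eq_sup' [Fintype V] [Nonempty V] (c : V → ℝ) (s : Finset V) :
    rmx c s = (Finset.univ : Finset V).sup' Finset.univ_nonempty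
      (fun y => if y ∈ s then 0 else c y) := by
  rw [Finset.sup'_univ_eq_ciSup]
  rfl

theorem rmx_pl [Finite V] (s : Finset V) (X : Set (V → ℝ)) : PLOn (fun c => rmx c s) X := by
  rcases isEmpty_or_nonempty V with hV | hV
  · refine (PLOn.const (0 : ℝ) X).congr fun c _ => ?_
    show rmx c s = 0
    unfold rmx
    exact Real.iSup_of_isEmpty _
  have : Fintype V := Fintype.ofFinite V
  have h : PLOn (fun c : V → ℝ => (Finset.univ : Finset V).sup' Finset.univ_nonempty
      (fun y => if y ∈ s then 0 else c y)) X := by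
    refine PLOn.sup' _ fun y _ => ?_
    by_cases hy : y ∈ s
    · exact (PLOn.const (0 : ℝ) X).congr fun c _ => if_pos hy
    · exact (PLOn.coord y X).congr fun c _ => if_neg hy
  exact h.congr fun c _ => rmx_eq_sup' c s

theorem rup_pl [Finite V] (X : Set (V → ℝ)) : PLOn (rup G) X := by
  refine PLOn.pi fun s => ?_
  have h1 : PLOn (fun c : V → ℝ => s.1.inf' s.2.1 (fun i => c i)) X :=
    PLOn.inf' s.2.1 (f := fun (i : V) (c : V → ℝ) => c i) fun i _ => PLOn.coord i X
  have h2 : PLOn (fun c : V → ℝ => s.1.inf' s.2.1 (fun i => c i) - rmx c s.1) X :=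
    h1.sub (rmx_pl s.1 X)
  have h3 : PLOn (fun c : V → ℝ => max 0 (s.1.inf' s.2.1 (fun i => c i) - rmx c s.1)) X :=
    (PLOn.const (0 : ℝ) X).max h2
  exact h3.smul (s.1.card : ℝ)


private theorem Rl_mono {A B : Set V} (h : A ⊆ B) : Rl G A ⊆ Rl G B :=
  fun _ hc => ⟨hc.1, hc.2.1, fun x hx => h (hc.2.2.1 x hx), hc.2.2.2⟩

theorem Rl_sub_Re : Rl G A ⊆ Re G := Rl_mono (Set.subset_univ _)

theorem mem_Rl_of_Re {c : V → ℝ} (hc : c ∈ Re G) (h : ∀ x, c x ≠ 0 → x ∈ A) : c ∈ Rl G A :=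
  ⟨hc.1, hc.2.1, h, hc.2.2.2⟩

theorem rdn_mem_Rl [Finite V] {d : Cq G → ℝ} (hd : d ∈ Rl (sd G) (mi G A)) :
    rdn G d ∈ Rl G A := by
  refine mem_Rl_of_Re (rdn_mem (Rl_sub_Re hd)) fun x hx => ?_
  obtain ⟨s, hs, h1⟩ := (rdn_ne hd.1).1 hx
  exact hd.2.2.1 s h1 x hs

theorem rup_mem_Rl [Finite V] {c : V → ℝ} (hc : c ∈ Rl G A) : rup G c ∈ Rl (sd G) (mi G A) := by
  refine mem_Rl_of_Re (rup_mem (Rl_sub_Re hc)) fun s hs x hx => ?_
  exact hc.2.2.1 x (pos_of_rup_ne hc.1 hs hx).ne'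

/-- subdivision of a full subcomplex -/
theorem sd_plh [Finite V] (A : Set V) :
    PLH (Rl (sd G) (mi G A)) (Rl G A) (rdn G) (rup G) where
  fpl := rdn_pl _
  gpl := rup_pl _
  fm := fun _ h => rdn_mem_Rl h
  gm := fun _ h => rup_mem_Rl h
  gf := fun _ h => rup_rdn (Rl_sub_Re h)
  fg := fun _ h => rdn_rup (Rl_sub_Re h)

/-- the near part of level `n` and of level `0` -/
theorem near_plh (K : Lv) (n : ℕ) :
    PLH (Rl (tw K n).G (tw K n).near) (Rl K.G K.near) (re K n) (co K n) := by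
  induction n with
  | zero => exact PLH.refl _
  | succ n ih => exact (sd_plh (G := (tw K n).G) (tw K n).near).trans ih

/-- level `n` and level `0` -/
theorem re_plh (K : Lv) (n : ℕ) : PLH (Re (tw K n).G) (Re K.G) (re K n) (co K n) := by
  induction n with
  | zero => exact PLH.refl _
  | succ n ih =>
    have h := sd_plh (G := (tw K n).G) Set.univ
    have e : mi (tw K n).G Set.univ = Set.univ := by
      ext s
      exact ⟨fun _ => trivial, fun _ x _ => trivial⟩
    rw [e] at h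
    exact h.trans ih

end MOT
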