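import Pool.Agent.MOT.EcM
import Pool.Agent.MOT.Bas
import Pool.Agent.MOT.Nr

/-!
# MOT/EcK: the cone over a complex and its subdivision (block E2, rc; helper16)

`KK G`: nonnegative functions on the vertices whose support is a clique (cone over the realisation).
`lam G : KK (sd G) → KK G`, `lam G t x = ∑_{s ∋ x} t s` and `muu G : KK G → KK (sd G)`,
`muu G u s = (min_s u - max_{not s} u)^+` are inverse to each other (no normalisation).
`kp G = lam ∘ rup`, `kq G = rdn ∘ muu` are inverse to each other on `KK G`, keep supports and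
`max (kp c) = ∑ c`.

Proofs.  `lam_muu` is `rlayer` (St1).  `muu_mem`: if `muu u s ≠ 0` then `u y < u x` for `x ∈ s`, `y ∉ s`
(as `lt_of_rup_ne`), so two such `s` are comparable (as in `rup_mem`).  `lam_mem`: if `lam t x`,
`lam t y ≠ 0` there are `s ∋ x`, `s' ∋ y` in the support of `t`; they are comparable (or equal), so
`x`, `y` lie in one clique.  `muu_lam`: adapt the proof of `rup_rdn` (St1): for `t s ≠ 0` put
`T = ∑_{r > s} t r`; `lam t x ≥ T + t s` for `x ∈ s`, `lam t y ≤ T` for `y ∉ s` (an `r ∋ y` with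
`t r ≠ 0` is comparable with `s`, so `s < r`), and equality holds for one `x ∈ s` (not in the next
smaller element of the support), hence `muu (lam t) s ≥ t s` for all `s`; and
`∑ muu (lam t) s = ma univ (lam t) = ∑ t s` (use `ma_lam` for `t` and for `muu (lam t)` with
`lam (muu (lam t)) = lam t`), so all inequalities are equalities.  (Alternatively scale: `t = r • t'`.)
`ma_lam`: `t` is supported by a chain; if it meets `pl G A` let `s` be its least element in `pl G A`,
`x ∈ s ∩ A`: every element of the chain in `pl G A` contains `s ∋ x`, so `lam t x` is the sum over the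
elements of `pl G A`; for all `x ∈ A` `lam t x ≤` this sum.
`kp_ne`: `kp c x ≠ 0` iff some `s ∋ x` has `rup c s ≠ 0` iff some `s ∋ x` has `muu c s ≠ 0` iff
`c x = lam (muu c) x ≠ 0`.  `ma_kp`: `ma_lam` with `A = univ`: `∑ rup c s = ∑ c x` (`sum_rdn`-type
computation: `∑_x lam (muu c) x = ∑_s card s * muu c s`).
-/

open Classical

noncomputable section

namespace MOT.Ec

variable {V : Type} {G : SimpleGraph V}

/-- cone over the realisation -/
def KK (G : SimpleGraph V) : Set (V → ℝ) :=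
  {u | (∀ x, 0 ≤ u x) ∧ ∀ x y, u x ≠ 0 → u y ≠ 0 → x ≠ y → G.Adj x y}

/-- the points of the cone with maximum 1 -/
def UU (G : SimpleGraph V) : Set (V → ℝ) := {u | u ∈ KK G ∧ ma Set.univ u = 1}

def lam (G : SimpleGraph V) (t : Cq G → ℝ) : V → ℝ :=
  fun x => ∑ᶠ s : Cq G, if x ∈ s.1 then t s else 0

def muu (G : SimpleGraph V) (u : V → ℝ) : Cq G → ℝ :=
  fun s => max 0 (s.1.inf' s.2.1 u - rmx u s.1)

/-- keep the coordinates in `A` -/
def cut0 (A : Set V) (u : V → ℝ) : V → ℝ := fun x => if x ∈ A then u x else 0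

theorem cut0_mem {A : Set V} {u : V → ℝ} (hu : u ∈ KK G) : cut0 A u ∈ KK G := by
  refine ⟨fun x => ?_, fun x y hx hy hne => hu.2 x y ?_ ?_ hne⟩
  · unfold cut0
    split_ifs
    · exact hu.1 x
    · exact le_rfl
  · intro h; apply hx; unfold cut0; split_ifs <;> [exact h; rfl]
  · intro h; apply hy; unfold cut0; split_ifs <;> [exact h; rfl]

theorem kk_scale {u : V → ℝ} (hu : u ∈ KK G) {k : V → ℝ} (hk : ∀ x, 0 ≤ k x) :
    (fun x => k x * u x) ∈ KK G :=
  ⟨fun x => mul_nonneg (hk x) (hu.1 x), fun x y hx hy hne =>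
    hu.2 x y (fun h => hx (by simp [h])) (fun h => hy (by simp [h])) hne⟩

theorem muu_nonneg (u : V → ℝ) (s : Cq G) : 0 ≤ muu G u s := le_max_left _ _

theorem lt_of_muu_ne [Finite V] {u : V → ℝ} {s : Cq G} (h : muu G u s ≠ 0) {x y : V}
    (hx : x ∈ s.1) (hy : y ∉ s.1) : u y < u x := by
  have h2 : 0 < s.1.inf' s.2.1 u - rmx u s.1 := by
    by_contra h'
    exact h (max_eq_left (not_lt.1 h'))
  have h3 : s.1.inf' s.2.1 u ≤ u x := Finset.inf'_le _ hx
  have h4 : u y ≤ rmx u s.1 := le_rmx hy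
  linarith

theorem muu_mem [Finite V] (u : V → ℝ) : muu G u ∈ KK (sd G) := by
  refine ⟨fun s => muu_nonneg u s, ?_⟩
  intro s s' h h' hne
  show s < s' ∨ s' < s
  by_cases h1 : s.1 ⊆ s'.1
  · exact Or.inl (lt_of_le_of_ne (show s ≤ s' from h1) hne)
  · by_cases h2 : s'.1 ⊆ s.1
    · exact Or.inr (lt_of_le_of_ne (show s' ≤ s from h2) (Ne.symm hne))
    · obtain ⟨x, hx, hx'⟩ := Finset.not_subset.1 h1
      obtain ⟨y, hy, hy'⟩ := Finset.not_subset.1 h2
      exact absurd (lt_of_muu_ne h hx hy') (not_lt.2 (lt_of_muu_ne h' hy hx').le)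

theorem lam_nonneg {t : Cq G → ℝ} (ht : ∀ s, 0 ≤ t s) (x : V) : 0 ≤ lam G t x := by
  apply finsum_nonneg
  intro s
  by_cases h : x ∈ s.1
  · rw [if_pos h]
    exact ht s
  · rw [if_neg h]

theorem lam_sum [Fintype (Cq G)] (t : Cq G → ℝ) (x : V) :
    lam G t x = ∑ s : Cq G, if x ∈ s.1 then t s else 0 := finsum_eq_sum_of_fintype _

theorem lam_ne' [Finite V] {t : Cq G → ℝ} (ht : ∀ s, 0 ≤ t s) {x : V} :
    lam G t x ≠ 0 ↔ ∃ s : Cq G, x ∈ s.1 ∧ t s ≠ 0 := by
  have := Fintype.ofFinite (Cq G)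
  have hn : ∀ s : Cq G, 0 ≤ (if x ∈ s.1 then t s else 0) := by
    intro s
    by_cases h : x ∈ s.1
    · rw [if_pos h]
      exact ht s
    · rw [if_neg h]
  rw [lam_sum, ne_eq, Finset.sum_eq_zero_iff_of_nonneg fun s _ => hn s]
  push Not
  constructor
  · rintro ⟨s, -, hs⟩
    by_cases h : x ∈ s.1
    · refine ⟨s, h, fun h' => hs ?_⟩
      rw [if_pos h, h']
    · exact absurd (if_neg h) hs
  · rintro ⟨s, h, hs⟩
    refine ⟨s, Finset.mem_univ _, ?_⟩
    rw [if_pos h]
    exact hs

theorem lam_mem [Finite V] {t : Cq G → ℝ} (ht : t ∈ KK (sd G)) : lam G t ∈ KK G := by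
  refine ⟨fun x => lam_nonneg ht.1 x, ?_⟩
  intro x y hx hy hne
  obtain ⟨s, hs, h1⟩ := (lam_ne' ht.1).1 hx
  obtain ⟨r, hr, h2⟩ := (lam_ne' ht.1).1 hy
  by_cases hst : s = r
  · subst hst
    exact s.2.2 hs hr hne
  · rcases ht.2 s r h1 h2 hst with h | h
    · exact r.2.2 (show x ∈ (r.1 : Set V) from h.le hs) hr hne
    · exact s.2.2 hs (show y ∈ (s.1 : Set V) from h.le hr) hne

theorem lam_ne [Finite V] {t : Cq G → ℝ} (ht : ∀ s, 0 ≤ t s) {x : V} :
    lam G t x ≠ 0 ↔ ∃ s : Cq G, x ∈ s.1 ∧ t s ≠ 0 := lam_ne' ht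

theorem lam_muu [Finite V] {u : V → ℝ} (hu : u ∈ KK G) : lam G (muu G u) = u := by
  have := Fintype.ofFinite (Cq G)
  funext x
  rw [lam_sum]
  exact rlayer hu.1 hu.2 x

theorem sum_lam [Fintype V] [Fintype (Cq G)] (t : Cq G → ℝ) :
    ∑ x, lam G t x = ∑ s : Cq G, (s.1.card : ℝ) * t s := by
  simp only [lam_sum]
  rw [Finset.sum_comm]
  refine Finset.sum_congr rfl fun s _ => ?_
  rw [← Finset.sum_filter, Finset.sum_const, nsmul_eq_mul, Finset.filter_univ_mem]

theorem ma_lam [Finite V] (A : Set V) {t : Cq G → ℝ} (ht : t ∈ KK (sd G)) :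
    ma A (lam G t) = su (pl G A) t := by
  have := Fintype.ofFinite (Cq G)
  have hsu : su (pl G A) t = ∑ s : Cq G, if s ∈ pl G A then t s else 0 :=
    finsum_eq_sum_of_fintype _
  apply le_antisymm
  · refine ma_le (su_nonneg ht.1) fun x hx => ?_
    rw [lam_sum, hsu]
    refine Finset.sum_le_sum fun s _ => ?_
    by_cases h : x ∈ s.1
    · rw [if_pos h, if_pos ⟨x, h, hx⟩]
    · rw [if_neg h]
      split_ifs
      · exact ht.1 s
      · exact le_rfl
  · by_cases h0 : ∃ s : Cq G, s ∈ pl G A ∧ t s ≠ 0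
    · let F : Finset (Cq G) := Finset.univ.filter fun s => s ∈ pl G A ∧ t s ≠ 0
      obtain ⟨s0, h0⟩ := h0
      obtain ⟨s, hs, hmin⟩ := F.exists_min_image (fun s => s.1.card)
        ⟨s0, by simp only [F, Finset.mem_filter, Finset.mem_univ, true_and]; exact h0⟩
      simp only [F, Finset.mem_filter, Finset.mem_univ, true_and] at hs hmin
      obtain ⟨⟨x, hx, hxA⟩, hts⟩ := hs
      refine le_trans ?_ (le_ma hxA)
      rw [lam_sum, hsu]
      refine Finset.sum_le_sum fun r _ => ?_
      by_cases hr : r ∈ pl G A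
      · rw [if_pos hr]
        by_cases hr0 : t r = 0
        · rw [hr0]
          split_ifs <;> exact le_rfl
        · have hxr : x ∈ r.1 := by
            by_cases hrs : s = r
            · rw [← hrs]; exact hx
            · rcases ht.2 s r hts hr0 hrs with h | h
              · exact h.le hx
              · exfalso
                have h1 := hmin r ⟨hr, hr0⟩
                have h2 : r.1.card < s.1.card := Finset.card_lt_card (show r.1 ⊂ s.1 from h)
                omega
          rw [if_pos hxr]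
      · rw [if_neg hr]
        split_ifs
        · exact ht.1 r
        · exact le_rfl
    · have hz : su (pl G A) t = 0 := by
        rw [hsu]
        refine Finset.sum_eq_zero fun s _ => ?_
        by_cases h : s ∈ pl G A
        · rw [if_pos h]
          by_contra h'
          exact h0 ⟨s, h, h'⟩
        · rw [if_neg h]
      rw [hz]
      exact ma_nonneg (lam_nonneg ht.1)

theorem muu_lam [Finite V] {t : Cq G → ℝ} (ht : t ∈ KK (sd G)) : muu G (lam G t) = t := by
  have := Fintype.ofFinite V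
  have := Fintype.ofFinite (Cq G)
  have hb := lam_mem ht
  have hle : ∀ s : Cq G, t s ≤ muu G (lam G t) s := by
    intro s
    by_cases hs : t s = 0
    · rw [hs]
      exact muu_nonneg _ s
    set T : ℝ := ∑ r : Cq G, if s < r then t r else 0 with hT
    have hT0 : 0 ≤ T := Finset.sum_nonneg fun r _ => by
      by_cases h : s < r
      · rw [if_pos h]
        exact ht.1 r
      · rw [if_neg h]
    have h1 : T + t s ≤ s.1.inf' s.2.1 (lam G t) := by
      refine Finset.le_inf' _ _ fun x hx => ?_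
      rw [lam_sum, hT, ← Finset.sum_erase_add Finset.univ
          (fun r : Cq G => if s < r then t r else 0) (Finset.mem_univ s),
        ← Finset.sum_erase_add Finset.univ
          (fun r : Cq G => if x ∈ r.1 then t r else 0) (Finset.mem_univ s)]
      simp only [if_neg (lt_irrefl s), if_pos hx, add_zero]
      refine add_le_add (Finset.sum_le_sum fun r _ => ?_) le_rfl
      by_cases h : s < r
      · rw [if_pos h, if_pos (h.le hx)]
      · rw [if_neg h]
        by_cases h' : x ∈ r.1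
        · rw [if_pos h']
          exact ht.1 r
        · rw [if_neg h']
    have h2 : rmx (lam G t) s.1 ≤ T := by
      refine rmx_le hT0 fun y hy => ?_
      rw [lam_sum, hT]
      refine Finset.sum_le_sum fun r _ => ?_
      by_cases h' : y ∈ r.1
      · rw [if_pos h']
        by_cases hr0 : t r = 0
        · rw [hr0]
          by_cases h : s < r
          · rw [if_pos h]
          · rw [if_neg h]
        · have hne : s ≠ r := fun h => hy (h ▸ h')
          rcases ht.2 s r hs hr0 hne with h | h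
          · rw [if_pos h]
          · exact absurd (h.le h') hy
      · rw [if_neg h']
        by_cases h : s < r
        · rw [if_pos h]
          exact ht.1 r
        · rw [if_neg h]
    exact le_max_of_le_right (by linarith)
  have hle' : ∀ s ∈ (Finset.univ : Finset (Cq G)),
      (s.1.card : ℝ) * t s ≤ (s.1.card : ℝ) * muu G (lam G t) s :=
    fun s _ => mul_le_mul_of_nonneg_left (hle s) (rcard_pos s).le
  have hsum : ∑ s : Cq G, (s.1.card : ℝ) * t s = ∑ s : Cq G, (s.1.card : ℝ) * muu G (lam G t) s := by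
    rw [← sum_lam, ← sum_lam, lam_muu hb]
  have := (Finset.sum_eq_sum_iff_of_le hle').1 hsum
  funext s
  exact (mul_left_cancel₀ (rcard_pos s).ne' (this s (Finset.mem_univ s))).symm

theorem lam_pl [Finite V] (X : Set (Cq G → ℝ)) : PLOn (lam G) X := by
  have : Fintype (Cq G) := Fintype.ofFinite _
  refine PLOn.pi fun x => ?_
  have h : PLOn (fun c : Cq G → ℝ => ∑ s : Cq G, if x ∈ s.1 then c s else 0) X := by
    refine PLOn.sum _ fun s _ => ?_
    by_cases hx : x ∈ s.1
    · exact (PLOn.coord s X).congr fun c _ => if_pos hx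
    · exact (PLOn.const (0 : ℝ) X).congr fun c _ => if_neg hx
  exact h.congr fun c _ => lam_sum c x

theorem muu_pl [Finite V] (X : Set (V → ℝ)) : PLOn (muu G) X := by
  refine PLOn.pi fun s => ?_
  have h1 : PLOn (fun c : V → ℝ => s.1.inf' s.2.1 (fun i => c i)) X :=
    PLOn.inf' s.2.1 (f := fun (i : V) (c : V → ℝ) => c i) fun i _ => PLOn.coord i X
  have h2 : PLOn (fun c : V → ℝ => s.1.inf' s.2.1 (fun i => c i) - rmx c s.1) X :=
    h1.sub (rmx_pl s.1 X)
  exact (PLOn.const (0 : ℝ) X).max h2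

theorem rup_muu (c : V → ℝ) : rup G c = fun s : Cq G => (s.1.card : ℝ) * muu G c s := rfl

theorem rdn_lam (d : Cq G → ℝ) : rdn G d = lam G (fun s : Cq G => d s / (s.1.card : ℝ)) := rfl

theorem rup_mem' [Finite V] (c : V → ℝ) : rup G c ∈ KK (sd G) := by
  rw [rup_muu]
  exact kk_scale (muu_mem c) fun s => (rcard_pos s).le

theorem div_mem {d : Cq G → ℝ} (hd : d ∈ KK (sd G)) :
    (fun s : Cq G => d s / (s.1.card : ℝ)) ∈ KK (sd G) := by
  have h : (fun s : Cq G => d s / (s.1.card : ℝ)) = fun s : Cq G => (s.1.card : ℝ)⁻¹ * d s := by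
    funext s; rw [div_eq_inv_mul]
  rw [h]
  exact kk_scale hd fun s => (inv_pos.2 (rcard_pos s)).le

theorem rdn_rup' [Finite V] {c : V → ℝ} (hc : c ∈ KK G) : rdn G (rup G c) = c := by
  rw [rdn_lam, rup_muu]
  have h : (fun s : Cq G => (s.1.card : ℝ) * muu G c s / (s.1.card : ℝ)) = muu G c := by
    funext s
    rw [mul_div_cancel_left₀ _ (rcard_pos s).ne']
  rw [h, lam_muu hc]

theorem rup_rdn' [Finite V] {d : Cq G → ℝ} (hd : d ∈ KK (sd G)) : rup G (rdn G d) = d := by
  rw [rdn_lam, rup_muu, muu_lam (div_mem hd)]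
  funext s
  rw [mul_div_cancel₀ _ (rcard_pos s).ne']

/-- `max (kp c) = sum c` -/
def kp (G : SimpleGraph V) (c : V → ℝ) : V → ℝ := lam G (rup G c)

def kq (G : SimpleGraph V) (v : V → ℝ) : V → ℝ := rdn G (muu G v)

theorem kp_mem [Finite V] {c : V → ℝ} (hc : c ∈ KK G) : kp G c ∈ KK G := lam_mem (rup_mem' c)

theorem kq_mem [Finite V] {c : V → ℝ} (hc : c ∈ KK G) : kq G c ∈ KK G :=
  lam_mem (div_mem (muu_mem c))

theorem kq_kp [Finite V] {c : V → ℝ} (hc : c ∈ KK G) : kq G (kp G c) = c := by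
  unfold kq kp
  rw [muu_lam (rup_mem' c), rdn_rup' hc]

theorem kp_kq [Finite V] {c : V → ℝ} (hc : c ∈ KK G) : kp G (kq G c) = c := by
  unfold kq kp
  rw [rup_rdn' (muu_mem c), lam_muu hc]

theorem kp_ne [Finite V] {c : V → ℝ} (hc : c ∈ KK G) {x : V} : kp G c x ≠ 0 ↔ c x ≠ 0 := by
  have h1 := lam_ne (G := G) (muu_nonneg c) (x := x)
  rw [lam_muu hc] at h1
  rw [h1]
  unfold kp
  rw [lam_ne (rup_mem' c).1]
  refine exists_congr fun s => and_congr_right fun _ => ?_
  rw [rup_muu]
  simp only [ne_eq, mul_eq_zero, (rcard_pos s).ne', false_or]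

theorem kq_ne [Finite V] {c : V → ℝ} (hc : c ∈ KK G) {x : V} : kq G c x ≠ 0 ↔ c x ≠ 0 := by
  have h1 := lam_ne (G := G) (muu_nonneg c) (x := x)
  rw [lam_muu hc] at h1
  rw [h1]
  unfold kq
  exact rdn_ne (muu_nonneg c)

theorem ma_kp [Finite V] {c : V → ℝ} (hc : c ∈ KK G) : ma Set.univ (kp G c) = ∑ᶠ x, c x := by
  have := Fintype.ofFinite V
  have := Fintype.ofFinite (Cq G)
  have h1 : (∑ᶠ x, c x) = ∑ᶠ x, rdn G (rup G c) x := by rw [rdn_rup' hc]
  unfold kp
  rw [ma_lam _ (rup_mem' c), h1, finsum_eq_sum_of_fintype, sum_rdn]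
  show (∑ᶠ s : Cq G, if s ∈ pl G Set.univ then rup G c s else 0) = _
  rw [finsum_eq_sum_of_fintype]
  refine Finset.sum_congr rfl fun s _ => ?_
  obtain ⟨x, hx⟩ := s.2.1
  exact if_pos ⟨x, hx, trivial⟩

theorem kp_pl [Finite V] (X : Set (V → ℝ)) : PLOn (kp G) X :=
  (lam_pl Set.univ).comp (rup_pl X) fun _ _ => trivial

theorem kq_pl [Finite V] (X : Set (V → ℝ)) : PLOn (kq G) X :=
  (rdn_pl Set.univ).comp (muu_pl X) fun _ _ => trivial

end MOT.Ec
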