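import Pool.Agent.MOT.EcK
import Pool.Agent.MOT.EbA

/-!
# MOT/EcL: `Re (sd G)` in the coordinates `u = lam G t` (block E2, rc; helper16)

`Re (sd G) = {t ∈ KK (sd G) | ∑ t = 1}` corresponds to `UU G` (`ma_lam` with `A = univ`,
`pl G univ = univ`).  `mem_pl_iff`: `t ∈ Rl (sd G) (pl G A)` iff the support of `t` is inside `pl G A` iff
`su (pl G A) t = ∑ t = 1` (`su_full`) iff `ma A (lam G t) = 1` (`ma_lam`).  `mem_Fr_iff`: `Fr = pl A ∩ pl Aᶜ`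
(`Rl_inter`).  The pairs: `PPair.mk'` with the restriction of `plh_lam` (`PLH.restrict'`, or directly
the structure), every condition on `u = lam G t` translated by `ma_lam`, and `t = muu G u`.
-/

open Classical

noncomputable section

namespace MOT.Ec

variable {V : Type} {G : SimpleGraph V}

theorem mem_Re {G : SimpleGraph V} {c : V → ℝ} : c ∈ Re G ↔ c ∈ KK G ∧ ∑ᶠ x, c x = 1 := by
  constructor
  · rintro ⟨h1, h2, _, h4⟩
    exact ⟨⟨h1, h4⟩, h2⟩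
  · rintro ⟨⟨h1, h4⟩, h2⟩
    exact ⟨h1, h2, fun _ _ => trivial, h4⟩

private theorem su_pl_univ (t : Cq G → ℝ) : su (pl G Set.univ) t = ∑ᶠ s, t s := by
  unfold su
  apply finsum_congr
  intro s
  obtain ⟨x, hx⟩ := s.2.1
  exact if_pos ⟨x, hx, trivial⟩

theorem lam_UU [Finite V] {t : Cq G → ℝ} (ht : t ∈ Re (sd G)) : lam G t ∈ UU G := by
  obtain ⟨h1, h2⟩ := mem_Re.1 ht
  refine ⟨lam_mem h1, ?_⟩
  rw [ma_lam _ h1, su_pl_univ, h2]

theorem muu_Re [Finite V] {u : V → ℝ} (hu : u ∈ UU G) : muu G u ∈ Re (sd G) := by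
  refine mem_Re.2 ⟨muu_mem u, ?_⟩
  rw [← su_pl_univ, ← ma_lam _ (muu_mem u), lam_muu hu.1]
  exact hu.2

theorem plh_lam [Finite V] (G : SimpleGraph V) : PLH (Re (sd G)) (UU G) (lam G) (muu G) := by
  exact ⟨lam_pl _, muu_pl _, fun _ ht => lam_UU ht, fun _ hu => muu_Re hu,
    fun _ ht => muu_lam (mem_Re.1 ht).1, fun _ hu => lam_muu hu.1⟩

theorem mem_pl_iff [Finite V] {A : Set V} {t : Cq G → ℝ} (ht : t ∈ Re (sd G)) :
    t ∈ Rl (sd G) (pl G A) ↔ ma A (lam G t) = 1 := by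
  obtain ⟨h1, h2⟩ := mem_Re.1 ht
  rw [ma_lam _ h1, ← h2, su_full h1.1]
  constructor
  · intro h
    exact h.2.2.1
  · intro h
    exact ⟨ht.1, ht.2.1, h, ht.2.2.2⟩

theorem mem_Fr_iff [Finite V] {A : Set V} {t : Cq G → ℝ} (ht : t ∈ Re (sd G)) :
    t ∈ Rl (sd G) (Fr G A) ↔ ma A (lam G t) = 1 ∧ ma Aᶜ (lam G t) = 1 := by
  rw [← mem_pl_iff ht, ← mem_pl_iff ht, ← Set.mem_inter_iff, Rl_inter]
  rfl

/-- restriction of a PL homeomorphism to a pair -/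
private theorem pair_of {E F : Type} [AddCommGroup E] [Module ℝ E] [TopologicalSpace E]
    [AddCommGroup F] [Module ℝ F] [TopologicalSpace F] {X X' B : Set E} {Y Y' C : Set F}
    {f : E → F} {g : F → E} (h : PLH X Y f g) (hX : X' ⊆ X) (hY : Y' ⊆ Y) (hB : B ⊆ X')
    (hC : C ⊆ Y') (hf : ∀ x ∈ X', f x ∈ Y') (hg : ∀ y ∈ Y', g y ∈ X') (hfB : ∀ x ∈ B, f x ∈ C)
    (hgC : ∀ y ∈ C, g y ∈ B) : PPair X' B Y' C := by
  have h' : PLH X' Y' f g :=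
    ⟨h.fpl.mono hX, h.gpl.mono hY, hf, hg, fun x hx => h.gf x (hX hx), fun y hy => h.fg y (hY hy)⟩
  exact PPair.mk' h' hB hC hfB hgC

private theorem Rl_sub_Re (A : Set V) : Rl G A ⊆ Re G :=
  fun _ hc => ⟨hc.1, hc.2.1, fun _ _ => trivial, hc.2.2.2⟩

/-- the dual region of `A` in the coordinates `u` -/
theorem pair_lam [Finite V] (G : SimpleGraph V) (A : Set V) :
    PPair (Rl (sd G) (pl G A)) (Rl (sd G) (Fr G A)) {u | u ∈ UU G ∧ ma A u = 1}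
      {u | u ∈ UU G ∧ ma A u = 1 ∧ ma Aᶜ u = 1} := by
  refine pair_of (plh_lam G) (Rl_sub_Re _) (fun u hu => hu.1) (Rl_mono Set.inter_subset_left)
    (fun u hu => ⟨hu.1, hu.2.1⟩) ?_ ?_ ?_ ?_
  · intro t ht
    have h1 := Rl_sub_Re _ ht
    exact ⟨lam_UU h1, (mem_pl_iff h1).1 ht⟩
  · intro u hu
    refine (mem_pl_iff (muu_Re hu.1)).2 ?_
    rw [lam_muu hu.1.1]
    exact hu.2
  · intro t ht
    have h1 := Rl_sub_Re _ ht
    exact ⟨lam_UU h1, (mem_Fr_iff h1).1 ht⟩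
  · intro u hu
    refine (mem_Fr_iff (muu_Re hu.1)).2 ?_
    rw [lam_muu hu.1.1]
    exact hu.2

/-- the part of `Re (sd G)` where `pl G A` has at least half of the weight -/
theorem pair_half [Finite V] (G : SimpleGraph V) (A : Set V) :
    PPair {t | t ∈ Re (sd G) ∧ 1 / 2 ≤ su (pl G A) t} {t | t ∈ Re (sd G) ∧ su (pl G A) t = 1 / 2}
      {u | u ∈ UU G ∧ 1 / 2 ≤ ma A u} {u | u ∈ UU G ∧ ma A u = 1 / 2} := by
  refine pair_of (plh_lam G) (fun t ht => ht.1) (fun u hu => hu.1) (fun t ht => ⟨ht.1, ht.2.ge⟩)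
    (fun u hu => ⟨hu.1, hu.2.ge⟩) ?_ ?_ ?_ ?_
  · intro t ht
    refine ⟨lam_UU ht.1, ?_⟩
    rw [ma_lam _ (mem_Re.1 ht.1).1]
    exact ht.2
  · intro u hu
    refine ⟨muu_Re hu.1, ?_⟩
    rw [← ma_lam _ (muu_mem u), lam_muu hu.1.1]
    exact hu.2
  · intro t ht
    refine ⟨lam_UU ht.1, ?_⟩
    rw [ma_lam _ (mem_Re.1 ht.1).1]
    exact ht.2
  · intro u hu
    refine ⟨muu_Re hu.1, ?_⟩
    rw [← ma_lam _ (muu_mem u), lam_muu hu.1.1]
    exact hu.2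

end MOT.Ec
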