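import Pool.Agent.MOT.St1
import Pool.Agent.MOT.PlSel

/-!
# MOT/EcM: maximum over a set of vertices, sum over a set of vertices (block E2, rc; helper16)

`ma A u = max_{x ∈ A} u x` (`0` if `A` is empty), `su A u = ∑_{x ∈ A} u x`.
All proofs are elementary (finite type; `ciSup` over a finite type, or `Finset.sup'`).  For `ma_pl` use
`PLOn.select` with index type `Option V` (value `0` or a coordinate); continuity as in
`continuous_rmx` of `St1.lean` (or `ma A u = rmx u (Aᶜ as a finset)`).
-/

open Classical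

noncomputable section

namespace MOT.Ec

variable {V : Type} {A : Set V} {u v : V → ℝ}

/-- maximum over `A` -/
def ma (A : Set V) (u : V → ℝ) : ℝ := ⨆ x : V, if x ∈ A then u x else 0

/-- sum over `A` -/
def su (A : Set V) (u : V → ℝ) : ℝ := ∑ᶠ x : V, if x ∈ A then u x else 0

theorem ma_nonneg (hu : ∀ x, 0 ≤ u x) : 0 ≤ ma A u := by
  apply Real.iSup_nonneg
  intro x
  split_ifs
  · exact hu x
  · exact le_rfl

theorem le_ma [Finite V] {x : V} (hx : x ∈ A) : u x ≤ ma A u := by
  have h : (if x ∈ A then u x else 0) ≤ ma A u :=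
    le_ciSup (f := fun x : V => if x ∈ A then u x else 0) (Set.finite_range _).bddAbove x
  rwa [if_pos hx] at h

theorem ma_le {b : ℝ} (hb : 0 ≤ b) (h : ∀ x ∈ A, u x ≤ b) : ma A u ≤ b := by
  refine Real.iSup_le (fun x => ?_) hb
  split_ifs with hx
  · exact h x hx
  · exact hb

private theorem att42 [Finite V] [Nonempty V] (A : Set V) (u : V → ℝ) :
    ∃ x : V, (if x ∈ A then u x else 0) = ma A u :=
  exists_eq_ciSup_of_finite (f := fun x : V => if x ∈ A then u x else 0)

theorem ma_att [Finite V] (h : 0 < ma A u) : ∃ x ∈ A, u x = ma A u := by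
  rcases isEmpty_or_nonempty V with hV | hV
  · have : ma A u = 0 := Real.iSup_of_isEmpty _
    rw [this] at h
    exact absurd h (lt_irrefl _)
  · obtain ⟨x, hx⟩ := att42 A u
    by_cases hxA : x ∈ A
    · rw [if_pos hxA] at hx
      exact ⟨x, hxA, hx⟩
    · rw [if_neg hxA] at hx
      rw [← hx] at h
      exact absurd h (lt_irrefl _)

theorem ma_congr (h : ∀ x ∈ A, u x = v x) : ma A u = ma A v := by
  unfold ma
  congr 1
  funext x
  split_ifs with hx
  · exact h x hx
  · rfl

theorem ma_map [Finite V] {g : ℝ → ℝ} (hg : Monotone g) (h0 : g 0 = 0) (hu : ∀ x, 0 ≤ u x) :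
    ma A (fun x => g (u x)) = g (ma A u) := by
  apply le_antisymm
  · refine ma_le ?_ fun x hx => hg (le_ma hx)
    rw [← h0]
    exact hg (ma_nonneg hu)
  · rcases (ma_nonneg (A := A) hu).eq_or_lt with h | h
    · rw [← h, h0]
      refine ma_nonneg fun x => ?_
      rw [← h0]
      exact hg (hu x)
    · obtain ⟨x, hx, e⟩ := ma_att h
      rw [← e]
      exact le_ma (u := fun x => g (u x)) hx

theorem ma_univ [Finite V] (A : Set V) (hu : ∀ x, 0 ≤ u x) :
    ma Set.univ u = max (ma A u) (ma Aᶜ u) := by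
  apply le_antisymm
  · refine ma_le (le_max_of_le_left (ma_nonneg hu)) fun x _ => ?_
    by_cases hx : x ∈ A
    · exact le_max_of_le_left (le_ma hx)
    · exact le_max_of_le_right (le_ma hx)
  · exact max_le (ma_le (ma_nonneg hu) fun x _ => le_ma (Set.mem_univ x))
      (ma_le (ma_nonneg hu) fun x _ => le_ma (Set.mem_univ x))

/-- a function which vanishes outside `A` -/
theorem ma_supp [Finite V] (hu : ∀ x, 0 ≤ u x) (h : ∀ x, x ∉ A → u x = 0) :
    ma A u = ma Set.univ u := by
  have _ := hu
  unfold ma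
  congr 1
  funext x
  rw [if_pos (Set.mem_univ x)]
  by_cases hx : x ∈ A
  · rw [if_pos hx]
  · rw [if_neg hx, h x hx]

theorem ma_zero [Finite V] (h : ∀ x ∈ A, u x = 0) : ma A u = 0 := by
  have e : ma A u = ma A (fun _ => (0 : ℝ)) := ma_congr h
  rw [e]
  unfold ma
  simp only [ite_self]
  exact Real.iSup_const_zero

theorem ma_pl [Finite V] (A : Set V) (X : Set (V → ℝ)) : PLOn (ma A) X := by
  have := Fintype.ofFinite V
  rcases isEmpty_or_nonempty V with hV | hV
  · exact (PLOn.const 0 X).congr fun u _ => Real.iSup_of_isEmpty _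
  · have h : PLOn (fun u : V → ℝ => Finset.univ.sup' Finset.univ_nonempty
        (fun x : V => if x ∈ A then u x else 0)) X := by
      refine PLOn.sup' (f := fun (x : V) (u : V → ℝ) => if x ∈ A then u x else 0)
        Finset.univ_nonempty ?_
      intro x _
      by_cases hx : x ∈ A
      · simp only [if_pos hx]
        exact PLOn.coord x X
      · simp only [if_neg hx]
        exact PLOn.const 0 X
    exact h.congr fun u _ => (Finset.sup'_univ_eq_ciSup _).symm

theorem su_add [Finite V] (A : Set V) (u : V → ℝ) : su A u + su Aᶜ u = ∑ᶠ x, u x := by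
  unfold su
  rw [← finsum_add_distrib (Set.toFinite _) (Set.toFinite _)]
  refine finsum_congr fun x => ?_
  by_cases hx : x ∈ A
  · have hx' : x ∉ Aᶜ := fun h => h hx
    rw [if_pos hx, if_neg hx', add_zero]
  · have hx' : x ∈ Aᶜ := hx
    rw [if_neg hx, if_pos hx', zero_add]

theorem su_nonneg (hu : ∀ x, 0 ≤ u x) : 0 ≤ su A u := by
  refine finsum_nonneg fun x => ?_
  split_ifs
  · exact hu x
  · exact le_rfl

theorem su_mono [Finite V] {B : Set V} (h : A ⊆ B) (hu : ∀ x, 0 ≤ u x) : su A u ≤ su B u := by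
  have := Fintype.ofFinite V
  unfold su
  rw [finsum_eq_sum_of_fintype, finsum_eq_sum_of_fintype]
  refine Finset.sum_le_sum fun x _ => ?_
  by_cases hx : x ∈ A
  · rw [if_pos hx, if_pos (h hx)]
  · rw [if_neg hx]
    split_ifs
    · exact hu x
    · exact le_rfl

/-- the sum over `A` is everything iff the support is inside `A` -/
theorem su_full [Finite V] (hu : ∀ x, 0 ≤ u x) :
    su A u = ∑ᶠ x, u x ↔ ∀ x, u x ≠ 0 → x ∈ A := by
  have := Fintype.ofFinite V
  rw [← su_add A u]
  have e : su Aᶜ u = ∑ x, if x ∈ Aᶜ then u x else 0 := by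
    unfold su
    rw [finsum_eq_sum_of_fintype]
    refine Finset.sum_congr rfl fun x _ => ?_
    by_cases hx : x ∈ Aᶜ
    · rw [if_pos hx, if_pos hx]
    · rw [if_neg hx, if_neg hx]
  have h0 : ∀ x ∈ (Finset.univ : Finset V), 0 ≤ (if x ∈ Aᶜ then u x else 0) := by
    intro x _
    split_ifs
    · exact hu x
    · exact le_rfl
  constructor
  · intro h x hx
    by_contra hxA
    have h1 : su Aᶜ u = 0 := by linarith
    rw [e, Finset.sum_eq_zero_iff_of_nonneg h0] at h1
    have h2 := h1 x (Finset.mem_univ x)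
    have h3 : x ∈ Aᶜ := hxA
    rw [if_pos h3] at h2
    exact hx h2
  · intro h
    have h1 : su Aᶜ u = 0 := by
      rw [e, Finset.sum_eq_zero_iff_of_nonneg h0]
      intro x _
      split_ifs with hx
      · by_contra h'
        exact hx (h x h')
      · rfl
    rw [h1, add_zero]

end MOT.Ec
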