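import Pool.Agent.Helper25.Smooth

/-!
# MOT/ExtA: piecewise linear homeomorphisms of `Fin n → ℝ` shrinking a cube
-/

open Set Metric Topology Filter
open scoped NNReal

namespace MOT

open Pool.Agent.Helper25

variable {n : ℕ}

/-- a real function which coincides at each point with one of finitely many affine functions -/
def FS (f : (Fin n → ℝ) → ℝ) : Prop :=
  ∃ S : Set ((Fin n → ℝ) →ᵃ[ℝ] ℝ), S.Finite ∧ ∀ x, ∃ A ∈ S, f x = A x

theorem FS.affine (A : (Fin n → ℝ) →ᵃ[ℝ] ℝ) : FS (A : (Fin n → ℝ) → ℝ) :=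
  ⟨{A}, finite_singleton A, fun _ => ⟨A, rfl, rfl⟩⟩

theorem FS.const (c : ℝ) : FS (fun _ : Fin n → ℝ => c) :=
  FS.affine (AffineMap.const ℝ (Fin n → ℝ) c)

theorem FS.coord (i : Fin n) : FS (fun x : Fin n → ℝ => x i) :=
  FS.affine (LinearMap.proj (R := ℝ) (φ := fun _ : Fin n => ℝ) i).toAffineMap

theorem FS.add {f g : (Fin n → ℝ) → ℝ} (hf : FS f) (hg : FS g) : FS (fun x => f x + g x) := by
  obtain ⟨S, hS, hf⟩ := hf
  obtain ⟨T, hT, hg⟩ := hg
  refine ⟨image2 (fun A B => A + B) S T, hS.image2 _ hT, fun x => ?_⟩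
  obtain ⟨A, hA, hAe⟩ := hf x
  obtain ⟨B, hB, hBe⟩ := hg x
  exact ⟨A + B, mem_image2_of_mem hA hB, congrArg₂ (· + ·) hAe hBe⟩

theorem FS.smul (c : ℝ) {f : (Fin n → ℝ) → ℝ} (hf : FS f) : FS (fun x => c * f x) := by
  obtain ⟨S, hS, hf⟩ := hf
  refine ⟨(fun A => c • A) '' S, hS.image _, fun x => ?_⟩
  obtain ⟨A, hA, hAe⟩ := hf x
  exact ⟨c • A, mem_image_of_mem _ hA, congrArg (c * ·) hAe⟩

theorem FS.neg {f : (Fin n → ℝ) → ℝ} (hf : FS f) : FS (fun x => -f x) := by
  have := hf.smul (-1)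
  simpa using this

theorem FS.sub {f g : (Fin n → ℝ) → ℝ} (hf : FS f) (hg : FS g) : FS (fun x => f x - g x) := by
  have := hf.add hg.neg
  simpa [sub_eq_add_neg] using this

/-- a function with values, at each point, among the values of finitely many functions in `FS` -/
theorem FS.of_choice {ι : Type} [Finite ι] {f : (Fin n → ℝ) → ℝ} (F : ι → (Fin n → ℝ) → ℝ)
    (hF : ∀ k, FS (F k)) (h : ∀ x, ∃ k, f x = F k x) : FS f := by
  choose S hS hF using hF
  refine ⟨⋃ k, S k, finite_iUnion hS, fun x => ?_⟩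
  obtain ⟨k, hk⟩ := h x
  obtain ⟨A, hA, hAe⟩ := hF k x
  exact ⟨A, mem_iUnion_of_mem k hA, by rw [hk, hAe]⟩

theorem FS.max {f g : (Fin n → ℝ) → ℝ} (hf : FS f) (hg : FS g) : FS (fun x => max (f x) (g x)) := by
  refine FS.of_choice (fun b : Bool => if b then f else g) ?_ ?_
  · intro b; cases b <;> simpa
  · intro x
    rcases max_choice (f x) (g x) with h | h
    · exact ⟨true, by simpa using h⟩
    · exact ⟨false, by simpa using h⟩

theorem FS.min {f g : (Fin n → ℝ) → ℝ} (hf : FS f) (hg : FS g) : FS (fun x => min (f x) (g x)) := by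
  refine FS.of_choice (fun b : Bool => if b then f else g) ?_ ?_
  · intro b; cases b <;> simpa
  · intro x
    rcases min_choice (f x) (g x) with h | h
    · exact ⟨true, by simpa using h⟩
    · exact ⟨false, by simpa using h⟩

theorem FS.norm : FS (fun x : Fin n → ℝ => ‖x‖) := by
  refine FS.of_choice (ι := Option (Fin n × Bool))
    (fun k => match k with
      | none => fun _ => 0
      | some (i, true) => fun x => x i
      | some (i, false) => fun x => -x i) ?_ ?_
  · intro k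
    match k with
    | none => exact FS.const 0
    | some (i, true) => exact FS.coord i
    | some (i, false) => exact (FS.coord i).neg
  · intro x
    rcases isEmpty_or_nonempty (Fin n) with h | h
    · refine ⟨none, ?_⟩
      have : x = 0 := Subsingleton.elim _ _
      simp [this]
    · obtain ⟨i, hi⟩ : ∃ i, ‖x‖ = ‖x i‖ := by
        obtain ⟨i, _, hi⟩ := Finset.exists_mem_eq_sup' (s := (Finset.univ : Finset (Fin n)))
          Finset.univ_nonempty (fun i => ‖x i‖₊)
        refine ⟨i, ?_⟩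
        have h1 : ‖x‖₊ = ‖x i‖₊ := by
          rw [← hi, Pi.nnnorm_def, Finset.sup'_eq_sup]
        exact congrArg NNReal.toReal h1
      rw [Real.norm_eq_abs] at hi
      rcases abs_choice (x i) with h1 | h1
      · exact ⟨some (i, true), by rw [hi, h1]⟩
      · exact ⟨some (i, false), by rw [hi, h1]⟩

/-- a map all of whose coordinates are in `FS` is piecewise linear -/
theorem isPiecewiseLinear_of_FS {f : (Fin n → ℝ) → (Fin n → ℝ)} (hf : ∀ i, FS fun x => f x i) :
    IsPiecewiseLinear f := by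
  choose S hS hf using hf
  intro x
  refine ⟨univ, univ_mem, (fun A : Fin n → ((Fin n → ℝ) →ᵃ[ℝ] ℝ) => AffineMap.pi A) ''
    (Set.pi univ S), (Set.Finite.pi fun i => hS i).image _, fun y _ => ?_⟩
  choose A hA hAe using fun i => hf i y
  refine ⟨AffineMap.pi A, mem_image_of_mem _ (fun i _ => hA i), ?_⟩
  funext i
  exact hAe i

/-- truncation of `t` to `[-m, m]` -/
def trc (m t : ℝ) : ℝ := max (-m) (min m t)

theorem trc_lip (m t m' t' d : ℝ) (hm : |m - m'| ≤ d) (ht : |t - t'| ≤ d) :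
    |trc m t - trc m' t'| ≤ d := by
  unfold trc
  refine (abs_max_sub_max_le_max _ _ _ _).trans (max_le ?_ ?_)
  · rw [show -m - -m' = -(m - m') by ring, abs_neg]; exact hm
  · exact (abs_min_sub_min_le_max _ _ _ _).trans (max_le hm ht)

theorem trc_zero (t : ℝ) : trc 0 t = 0 := by
  unfold trc
  rw [neg_zero]
  exact max_eq_left (min_le_left _ _)

theorem trc_of_le {m t : ℝ} (h : |t| ≤ m) : trc m t = t := by
  unfold trc
  rw [min_eq_right (le_of_abs_le h), max_eq_right (neg_le_of_abs_le h)]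

/-- one step of the shrinking map -/
theorem exists_step (ρ : ℝ) : ∃ s : (Fin n → ℝ) ≃ₜ (Fin n → ℝ), IsPiecewiseLinear s ∧
    (∀ x, ρ ≤ ‖x‖ → s x = x) ∧ ∀ x, ‖x‖ ≤ 2 * ρ / 3 → s x = (3 / 4 : ℝ) • x := by
  set m : (Fin n → ℝ) → ℝ := fun x => max 0 (1 / 2 * (ρ - ‖x‖)) with hm
  set u : (Fin n → ℝ) → (Fin n → ℝ) := fun x i => -trc (m x) (1 / 4 * x i) with hu
  have hlip : LipschitzWith (1 / 2) u := by
    refine LipschitzWith.of_dist_le_mul fun x y => ?_
    have hcoe : (((1 / 2 : ℝ≥0)) : ℝ) = 1 / 2 := by norm_num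
    rw [hcoe, dist_pi_le_iff (by positivity)]
    intro i
    rw [Real.dist_eq]
    simp only [hu]
    rw [show -trc (m x) (1 / 4 * x i) - -trc (m y) (1 / 4 * y i) =
      -(trc (m x) (1 / 4 * x i) - trc (m y) (1 / 4 * y i)) by ring, abs_neg]
    apply trc_lip
    · simp only [hm]
      refine (abs_max_sub_max_le_max _ _ _ _).trans (max_le (by simp) ?_)
      rw [show 1 / 2 * (ρ - ‖x‖) - 1 / 2 * (ρ - ‖y‖) = -(1 / 2 * (‖x‖ - ‖y‖)) by ring, abs_neg,
        abs_mul, abs_of_pos (by norm_num : (0 : ℝ) < 1 / 2)]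
      have := abs_norm_sub_norm_le x y
      rw [dist_eq_norm]
      linarith
    · rw [show 1 / 4 * x i - 1 / 4 * y i = 1 / 4 * (x i - y i) by ring, abs_mul,
        abs_of_pos (by norm_num : (0 : ℝ) < 1 / 4)]
      have h1 : |x i - y i| ≤ dist x y := by
        have := dist_le_pi_dist x y i
        rwa [Real.dist_eq] at this
      have h2 : 0 ≤ dist x y := dist_nonneg
      linarith
  obtain ⟨s, hs⟩ := exists_homeo_add (K := 1 / 2) (by
    rw [← NNReal.coe_lt_coe]; norm_num) hlip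
  refine ⟨s, ?_, ?_, ?_⟩
  · apply isPiecewiseLinear_of_FS
    intro i
    have hmF : FS m := (FS.const 0).max ((FS.const ρ |>.sub FS.norm).smul (1 / 2))
    have h1 : FS (fun x : Fin n → ℝ => x i + -(max (-m x) (min (m x) (1 / 4 * x i)))) :=
      (FS.coord i).add ((hmF.neg.max (hmF.min ((FS.coord i).smul (1 / 4)))).neg)
    have h2 : (fun x => s x i) = fun x : Fin n → ℝ =>
        x i + -(max (-m x) (min (m x) (1 / 4 * x i))) := by
      funext x
      rw [hs]; rfl
    rw [h2]; exact h1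
  · intro x hx
    rw [hs]
    have h1 : m x = 0 := by
      simp only [hm]
      exact max_eq_left (by linarith)
    have h2 : u x = 0 := by
      funext i
      simp only [hu, h1, trc_zero, neg_zero, Pi.zero_apply]
    rw [h2, add_zero]
  · intro x hx
    rw [hs]
    funext i
    have h0 := norm_nonneg x
    have h1 : |x i| ≤ ‖x‖ := by
      have := norm_le_pi_norm x i
      rwa [Real.norm_eq_abs] at this
    have h2 : |1 / 4 * x i| ≤ m x := by
      rw [abs_mul, abs_of_pos (by norm_num : (0 : ℝ) < 1 / 4)]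
      simp only [hm]
      refine le_trans ?_ (le_max_right _ _)
      linarith
    simp only [hu, Pi.add_apply, Pi.smul_apply, smul_eq_mul, trc_of_le h2]
    ring

/-- a piecewise linear homeomorphism supported in the cube of radius `ρ` about `p` which maps the cube
of radius `2ρ/3` into the cube of radius `δ` -/
theorem exists_shrink (p : Fin n → ℝ) {ρ δ : ℝ} (hρ : 0 < ρ) (hδ : 0 < δ) :
    ∃ s : (Fin n → ℝ) ≃ₜ (Fin n → ℝ), IsPiecewiseLinear s ∧ (∀ x, ρ ≤ dist x p → s x = x) ∧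
      ∀ x, dist x p ≤ 2 * ρ / 3 → dist (s x) p ≤ δ := by
  obtain ⟨s, hs, h1, h2⟩ := exists_step (n := n) ρ
  obtain ⟨k, hk⟩ : ∃ k : ℕ, (3 / 4 : ℝ) ^ k * (2 * ρ / 3) < δ := by
    have h3 : Tendsto (fun k : ℕ => (3 / 4 : ℝ) ^ k * (2 * ρ / 3)) atTop (𝓝 (0 * (2 * ρ / 3))) :=
      (tendsto_pow_atTop_nhds_zero_of_lt_one (by norm_num) (by norm_num)).mul_const _
    rw [zero_mul] at h3
    exact (h3.eventually (gt_mem_nhds hδ)).exists
  have hpow : ∀ k : ℕ, s ^ k ∈ plGroup (Fin n → ℝ) := fun k =>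
    (plGroup (Fin n → ℝ)).pow_mem (show s ∈ plGroup _ from hs) k
  have hfix : ∀ k : ℕ, ∀ x, ρ ≤ ‖x‖ → (s ^ k) x = x := by
    intro k x hx
    induction k with
    | zero => simp
    | succ k ih =>
      rw [pow_succ]
      change (s ^ k) (s x) = x
      rw [h1 x hx, ih]
  have hsc : ∀ k : ℕ, ∀ x, ‖x‖ ≤ 2 * ρ / 3 → (s ^ k) x = ((3 / 4 : ℝ) ^ k) • x := by
    intro k
    induction k with
    | zero => intro x _; simp
    | succ k ih =>
      intro x hx
      rw [pow_succ]
      change (s ^ k) (s x) = _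
      rw [h2 x hx, ih, smul_smul, pow_succ]
      rw [norm_smul, Real.norm_eq_abs, abs_of_pos (by norm_num : (0 : ℝ) < 3 / 4)]
      have := norm_nonneg x
      linarith
  set T : (Fin n → ℝ) ≃ₜ (Fin n → ℝ) := Homeomorph.addRight p with hT
  have hTpl : T ∈ plGroup (Fin n → ℝ) := by
    have h3 := isPiecewiseLinear_affine
      (AffineMap.id ℝ (Fin n → ℝ) + AffineMap.const ℝ (Fin n → ℝ) p)
    exact h3
  refine ⟨T * s ^ k * T⁻¹, (plGroup (Fin n → ℝ)).mul_mem ((plGroup (Fin n → ℝ)).mul_mem hTpl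
    (hpow k)) ((plGroup (Fin n → ℝ)).inv_mem hTpl), ?_, ?_⟩
  · intro x hx
    have h3 : T⁻¹ x = x - p := by
      change T.symm x = _
      rw [sub_eq_add_neg]; rfl
    change (s ^ k) (T⁻¹ x) + p = x
    rw [h3, hfix k _ (by rwa [← dist_eq_norm]), sub_add_cancel]
  · intro x hx
    have h3 : T⁻¹ x = x - p := by
      change T.symm x = _
      rw [sub_eq_add_neg]; rfl
    change dist ((s ^ k) (T⁻¹ x) + p) p ≤ δ
    rw [h3, hsc k _ (by rwa [← dist_eq_norm]), dist_eq_norm, add_sub_cancel_right, norm_smul,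
      Real.norm_eq_abs, abs_of_pos (by positivity)]
    have h4 : ‖x - p‖ ≤ 2 * ρ / 3 := by rwa [← dist_eq_norm]
    calc (3 / 4 : ℝ) ^ k * ‖x - p‖ ≤ (3 / 4 : ℝ) ^ k * (2 * ρ / 3) := by gcongr
      _ ≤ δ := hk.le

end MOT
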