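import Pool.Agent.MOT.ExtA

/-!
# MOT/ExtB: a piecewise linear embedding of a cube is, on a smaller cube, the restriction of a
piecewise linear homeomorphism of the whole space
-/

open Set Metric Topology Filter
open scoped NNReal

namespace MOT

open Pool.Agent.Helper25

/-- finitely many closed sets covering a nonempty open set: one of them has interior points -/
theorem exists_interior_of_cover {X ι : Type*} [TopologicalSpace X] {T : Set ι} (hT : T.Finite)
    {C : ι → Set X} (hC : ∀ i ∈ T, IsClosed (C i)) {O : Set X} (hO : IsOpen O) (hne : O.Nonempty)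
    (h : O ⊆ ⋃ i ∈ T, C i) : ∃ i ∈ T, (interior (C i)).Nonempty := by
  by_contra hcon
  push Not at hcon
  have key : ∀ T' : Set ι, T'.Finite → T' ⊆ T → interior (⋃ i ∈ T', C i) = ∅ := by
    intro T' hT' hsub
    induction T', hT' using Set.Finite.induction_on with
    | empty => simp
    | @insert a s _ _ ih =>
      rw [biUnion_insert, interior_union_isClosed_of_interior_empty
        (hC a (hsub (mem_insert a s))) (ih ((subset_insert a s).trans hsub))]
      exact hcon a (hsub (mem_insert a s))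
  have h1 := interior_maximal h hO
  rw [key T hT subset_rfl] at h1
  obtain ⟨x, hx⟩ := hne
  exact h1 hx

section

variable {E : Type*} [NormedAddCommGroup E] [NormedSpace ℝ E] [FiniteDimensional ℝ E]

/-- the homeomorphism given by an injective affine map -/
theorem exists_affine_homeo (A : E →ᵃ[ℝ] E) (hA : Function.Injective A) :
    ∃ T : E ≃ₜ E, IsPiecewiseLinear T ∧ ∀ x, T x = A x := by
  have hlin : Function.Injective A.linear := (AffineMap.linear_injective_iff A).mpr hA
  set L : E ≃L[ℝ] E := (LinearEquiv.ofInjectiveEndo A.linear hlin).toContinuousLinearEquiv with hL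
  have h1 : ∀ x, (L.toHomeomorph.trans (Homeomorph.addRight (A 0))) x = A x := by
    intro x
    have h2 : A x = A.linear x + A 0 := by
      have := A.map_vadd 0 x
      simpa using this
    rw [h2]; rfl
  refine ⟨L.toHomeomorph.trans (Homeomorph.addRight (A 0)), ?_, h1⟩
  intro x
  exact ⟨univ, univ_mem, {A}, finite_singleton A, fun y _ => ⟨A, rfl, h1 y⟩⟩

/-- a piecewise linear embedding of a ball uses only injective affine maps -/
theorem inj_selection {g : E → E} {Q : Set E} (hQ : IsClosed Q) (hcl : Q ⊆ closure (interior Q))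
    (hc : ContinuousOn g Q) (hi : InjOn g Q) {S : Set (E →ᵃ[ℝ] E)} (hS : S.Finite)
    (hsel : ∀ y ∈ Q, ∃ A ∈ S, g y = A y) {y : E} (hy : y ∈ Q) :
    ∃ A ∈ S, Function.Injective A ∧ g y = A y := by
  have hclosed : ∀ A : E →ᵃ[ℝ] E, IsClosed {z | z ∈ Q ∧ g z = A z} := by
    intro A
    have hAc : Continuous A := A.continuous_of_finiteDimensional
    have h1 : ContinuousOn (fun z => g z - A z) Q := hc.sub hAc.continuousOn
    have h2 := h1.preimage_isClosed_of_isClosed hQ (isClosed_singleton (x := (0 : E)))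
    convert h2 using 1
    ext z
    simp [sub_eq_zero]
  set S' : Set (E →ᵃ[ℝ] E) := {A | A ∈ S ∧ Function.Injective A} with hS'
  set N : Set (E →ᵃ[ℝ] E) := {A | A ∈ S ∧ ¬ Function.Injective A} with hN
  have hS'f : S'.Finite := hS.subset fun A hA => hA.1
  have hNf : N.Finite := hS.subset fun A hA => hA.1
  set W : Set E := ⋃ A ∈ S', {z | z ∈ Q ∧ g z = A z} with hW
  have hWc : IsClosed W := hS'f.isClosed_biUnion fun A _ => hclosed A
  have hsub : interior Q ⊆ W := by
    by_contra hcon
    have hO : IsOpen (interior Q \ W) := isOpen_interior.sdiff hWc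
    have hne : (interior Q \ W).Nonempty := by
      rw [sdiff_nonempty]; exact hcon
    obtain ⟨A, hA, z, hz⟩ := exists_interior_of_cover (T := N) hNf
      (C := fun A => {z | z ∈ Q ∧ g z = A z}) (fun A _ => hclosed A) hO hne (by
        rintro z ⟨hz, hzW⟩
        obtain ⟨A, hA, hAe⟩ := hsel z (interior_subset hz)
        have hni : ¬ Function.Injective A := fun h => hzW (by
          rw [hW]
          exact mem_biUnion (show A ∈ S' from ⟨hA, h⟩) ⟨interior_subset hz, hAe⟩)
        exact mem_biUnion (show A ∈ N from ⟨hA, hni⟩) ⟨interior_subset hz, hAe⟩)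
    obtain ⟨r, hr, hball⟩ := Metric.isOpen_iff.mp isOpen_interior z hz
    have hker : ∃ v : E, v ≠ 0 ∧ A.linear v = 0 := by
      have h1 : ¬ Function.Injective A.linear := fun h => hA.2 ((AffineMap.linear_injective_iff A).mp h)
      rw [← LinearMap.ker_eq_bot, Submodule.eq_bot_iff] at h1
      push Not at h1
      obtain ⟨v, hv, hv0⟩ := h1
      exact ⟨v, hv0, hv⟩
    obtain ⟨v, hv0, hv⟩ := hker
    have hvn : 0 < ‖v‖ := norm_pos_iff.mpr hv0
    set w : E := (r / (2 * ‖v‖)) • v with hw
    have hwn : ‖w‖ = r / 2 := by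
      rw [hw, norm_smul, Real.norm_eq_abs, abs_of_pos (by positivity)]
      field_simp
    have hw0 : w ≠ 0 := by
      rw [← norm_pos_iff, hwn]; positivity
    have h2 : z + w ∈ interior {z | z ∈ Q ∧ g z = A z} := hball (by
      rw [mem_ball, dist_eq_norm, add_sub_cancel_left, hwn]; linarith)
    have h3 := interior_subset h2
    have h4 := interior_subset hz
    have h5 : A (z + w) = A z := by
      have h6 := A.map_vadd z w
      rw [vadd_eq_add, vadd_eq_add] at h6
      rw [add_comm z w, h6, hw, map_smul, hv, smul_zero, zero_add]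
    have h7 : z + w = z := hi h3.1 h4.1 (by rw [h3.2, h4.2, h5])
    exact hw0 (by simpa using h7)
  have h1 : y ∈ W := (closure_minimal hsub hWc) (hcl hy)
  rw [hW] at h1
  obtain ⟨A, hA, hy1, hy2⟩ := mem_iUnion₂.mp h1
  exact ⟨A, hA.1, hA.2, hy2⟩

end

section ext

open Classical in
/-- `g s g^{-1}` on `g(Q)`, the identity outside -/
noncomputable def exf {E : Type*} [Nonempty E] (g : E → E) (Q : Set E) (s : E → E) (y : E) : E :=
  if y ∈ g '' Q then g (s (Function.invFunOn g Q y)) else y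

variable {E : Type*} [NormedAddCommGroup E] [NormedSpace ℝ E] [FiniteDimensional ℝ E]
  {g : E → E} {Q K : Set E}

omit [NormedSpace ℝ E] [FiniteDimensional ℝ E] in
theorem exf_image (hi : InjOn g Q) (s : E → E) {x : E} (hx : x ∈ Q) :
    exf g Q s (g x) = g (s x) := by
  unfold exf
  rw [if_pos (mem_image_of_mem g hx)]
  have h1 : g (Function.invFunOn g Q (g x)) = g x := Function.invFunOn_eq ⟨x, hx, rfl⟩
  have h2 : Function.invFunOn g Q (g x) ∈ Q := Function.invFunOn_mem ⟨x, hx, rfl⟩
  rw [hi h2 hx h1]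

omit [NormedSpace ℝ E] [FiniteDimensional ℝ E] in
theorem exf_outside (s : E → E) {y : E} (hy : y ∉ g '' Q) : exf g Q s y = y := by
  unfold exf
  rw [if_neg hy]

omit [NormedSpace ℝ E] [FiniteDimensional ℝ E] in
theorem maps_of_fix (hKQ : K ⊆ Q) {s : E ≃ₜ E} (hs : ∀ x, x ∉ K → s x = x) {x : E} (hx : x ∈ Q) :
    s x ∈ Q := by
  by_cases hxK : x ∈ K
  · by_cases h : s x ∈ K
    · exact hKQ h
    · have h1 : s (s x) = s x := hs _ h
      have h2 : s x = x := s.injective h1
      rw [h2]; exact hx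
  · rw [hs x hxK]; exact hx

omit [NormedSpace ℝ E] [FiniteDimensional ℝ E] in
theorem exf_fix (hi : InjOn g Q) {s : E → E} (hs : ∀ x, x ∉ K → s x = x) {y : E}
    (hy : y ∉ g '' K) : exf g Q s y = y := by
  by_cases h : y ∈ g '' Q
  · obtain ⟨x, hx, rfl⟩ := h
    rw [exf_image hi s hx, hs x (fun hxK => hy (mem_image_of_mem g hxK))]
  · exact exf_outside s h

omit [NormedSpace ℝ E] [FiniteDimensional ℝ E] in
theorem exf_comp (hi : InjOn g Q) (hKQ : K ⊆ Q) {s : E ≃ₜ E} (hs : ∀ x, x ∉ K → s x = x) (y : E) :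
    exf g Q s.symm (exf g Q s y) = y := by
  by_cases h : y ∈ g '' Q
  · obtain ⟨x, hx, rfl⟩ := h
    rw [exf_image hi s hx, exf_image hi s.symm (maps_of_fix hKQ hs hx), s.symm_apply_apply]
  · rw [exf_outside s h, exf_outside _ h]

omit [NormedSpace ℝ E] [FiniteDimensional ℝ E] in
theorem exf_continuous (hQ : IsCompact Q) (hc : ContinuousOn g Q) (hi : InjOn g Q) (hK : IsCompact K)
    (hKQ : K ⊆ Q) (hint : g '' K ⊆ interior (g '' Q)) {s : E ≃ₜ E} (hs : ∀ x, x ∉ K → s x = x) :
    Continuous (exf g Q s) := by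
  have hgK : IsClosed (g '' K) := (hK.image_of_continuousOn (hc.mono hKQ)).isClosed
  have hinv : ContinuousOn (Function.invFunOn g Q) (g '' Q) := by
    intro y hy
    rw [ContinuousWithinAt, tendsto_def]
    intro U hU
    obtain ⟨V, hVU, hV, hyV⟩ := _root_.mem_nhds_iff.mp hU
    have h1 : IsClosed (g '' (Q \ V)) :=
      ((hQ.diff hV).image_of_continuousOn (hc.mono sdiff_subset)).isClosed
    have h2 : y ∉ g '' (Q \ V) := by
      rintro ⟨x, hx, rfl⟩
      have h3 : g (Function.invFunOn g Q (g x)) = g x := Function.invFunOn_eq hy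
      have h4 : Function.invFunOn g Q (g x) ∈ Q := Function.invFunOn_mem hy
      rw [hi h4 hx.1 h3] at hyV
      exact hx.2 hyV
    have h3 : (g '' (Q \ V))ᶜ ∈ 𝓝 y := h1.isOpen_compl.mem_nhds h2
    filter_upwards [mem_nhdsWithin_of_mem_nhds h3, self_mem_nhdsWithin] with z hz hzQ
    by_contra hzV
    apply hz
    have h4 : Function.invFunOn g Q z ∈ Q := Function.invFunOn_mem hzQ
    have h5 : g (Function.invFunOn g Q z) = z := Function.invFunOn_eq hzQ
    exact ⟨Function.invFunOn g Q z, ⟨h4, fun h6 => hzV (hVU h6)⟩, h5⟩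
  rw [continuous_iff_continuousAt]
  intro y
  by_cases hy : y ∈ g '' K
  · have h1 : g '' Q ∈ 𝓝 y := mem_interior_iff_mem_nhds.mp (hint hy)
    have h2 : ContinuousOn (fun z => g (s (Function.invFunOn g Q z))) (g '' Q) := by
      refine hc.comp (s.continuous.comp_continuousOn hinv) ?_
      intro z hz
      exact maps_of_fix hKQ hs (Function.invFunOn_mem hz)
    refine (h2.continuousAt h1).congr ?_
    filter_upwards [h1] with z hz
    unfold exf
    rw [if_pos hz]
  · have h1 : (g '' K)ᶜ ∈ 𝓝 y := hgK.isOpen_compl.mem_nhds hy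
    refine continuousAt_id.congr ?_
    filter_upwards [h1] with z hz
    rw [exf_fix hi hs hz]; rfl

theorem exf_pl (hQ : IsCompact Q) (hcl : Q ⊆ closure (interior Q)) (hc : ContinuousOn g Q)
    (hi : InjOn g Q) (hK : IsCompact K) (hKQ : K ⊆ Q) (hint : g '' K ⊆ interior (g '' Q))
    {S : Set (E →ᵃ[ℝ] E)} (hS : S.Finite) (hsel : ∀ y ∈ Q, ∃ A ∈ S, g y = A y)
    {s : E ≃ₜ E} (hs : ∀ x, x ∉ K → s x = x) (hpl : IsPiecewiseLinear s) :
    IsPiecewiseLinear (exf g Q s) := by
  have hgK : IsClosed (g '' K) := (hK.image_of_continuousOn (hc.mono hKQ)).isClosed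
  intro y
  by_cases hy : y ∈ g '' K
  · obtain ⟨x, hxK, hxy⟩ := hy
    obtain ⟨U, hU, T, hT, hUT⟩ := hpl x
    obtain ⟨V, hVU, hV, hxV⟩ := _root_.mem_nhds_iff.mp hU
    have h1 : IsClosed (g '' (Q \ V)) :=
      ((hQ.diff hV).image_of_continuousOn (hc.mono sdiff_subset)).isClosed
    have h2 : y ∉ g '' (Q \ V) := by
      rintro ⟨x', hx', he⟩
      rw [← hxy] at he
      rw [hi hx'.1 (hKQ hxK) he] at hx'
      exact hx'.2 hxV
    let f : (E →ᵃ[ℝ] E) → (E →ᵃ[ℝ] E) := fun A => by
      classical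
      exact if hA : Function.Injective A.linear then
        ((LinearEquiv.ofInjectiveEndo A.linear hA).symm : E →ₗ[ℝ] E).toAffineMap.comp
          (AffineMap.id ℝ E - AffineMap.const ℝ E (A 0))
      else 0
    refine ⟨interior (g '' Q) ∩ (g '' (Q \ V))ᶜ, inter_mem
      (isOpen_interior.mem_nhds (hint ⟨x, hxK, hxy⟩)) (h1.isOpen_compl.mem_nhds h2),
      image2 (fun C B => C.comp B) S (image2 (fun B A => B.comp (f A)) T S),
      hS.image2 _ (hT.image2 _ hS), ?_⟩
    rintro z ⟨hz1, hz2⟩
    obtain ⟨w, hwQ, hwz⟩ := interior_subset hz1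
    have hwV : w ∈ V := by
      by_contra hcon
      exact hz2 ⟨w, ⟨hwQ, hcon⟩, hwz⟩
    obtain ⟨A, hA, hAi, hAe⟩ := inj_selection hQ.isClosed hcl hc hi hS hsel hwQ
    obtain ⟨B, hB, hBe⟩ := hUT w (hVU hwV)
    obtain ⟨C, hC, hCe⟩ := hsel (s w) (maps_of_fix hKQ hs hwQ)
    refine ⟨C.comp (B.comp (f A)), mem_image2_of_mem hC (mem_image2_of_mem hB hA), ?_⟩
    have hlin : Function.Injective A.linear := (AffineMap.linear_injective_iff A).mpr hAi
    have hf : f A z = w := by
      have h3 : f A = ((LinearEquiv.ofInjectiveEndo A.linear hlin).symm : E →ₗ[ℝ] E).toAffineMap.comp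
          (AffineMap.id ℝ E - AffineMap.const ℝ E (A 0)) := dif_pos hlin
      rw [h3]
      change (LinearEquiv.ofInjectiveEndo A.linear hlin).symm (z - A 0) = w
      rw [LinearEquiv.symm_apply_eq]
      have h4 : A w = A.linear w + A 0 := by
        have := A.map_vadd 0 w
        simpa using this
      change z - A 0 = A.linear w
      rw [← hwz, hAe, h4, add_sub_cancel_right]
    rw [← hwz, exf_image hi s hwQ, hCe, hBe]
    simp only [AffineMap.comp_apply]
    rw [hwz, hf]
  · refine ⟨(g '' K)ᶜ, hgK.isOpen_compl.mem_nhds hy, {AffineMap.id ℝ E}, finite_singleton _, ?_⟩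
    intro z hz
    exact ⟨_, rfl, exf_fix hi hs hz⟩

/-- the homeomorphism `g s g^{-1}` -/
noncomputable def exh (hQ : IsCompact Q) (hc : ContinuousOn g Q) (hi : InjOn g Q) (hK : IsCompact K)
    (hKQ : K ⊆ Q) (hint : g '' K ⊆ interior (g '' Q)) (s : E ≃ₜ E) (hs : ∀ x, x ∉ K → s x = x) :
    E ≃ₜ E where
  toFun := exf g Q s
  invFun := exf g Q s.symm
  left_inv := fun y => exf_comp hi hKQ hs y
  right_inv := fun y => by
    have hs' : ∀ x, x ∉ K → s.symm x = x := fun x hx => by
      rw [s.symm_apply_eq, hs x hx]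
    have := exf_comp (s := s.symm) hi hKQ hs' y
    simpa using this
  continuous_toFun := exf_continuous hQ hc hi hK hKQ hint hs
  continuous_invFun := by
    have hs' : ∀ x, x ∉ K → s.symm x = x := fun x hx => by
      rw [s.symm_apply_eq, hs x hx]
    exact exf_continuous hQ hc hi hK hKQ hint hs'

end ext

/-- A piecewise linear embedding `g` of the cube `‖x‖ ≤ 1` coincides on the cube `‖x‖ ≤ 1/8` with a
piecewise linear homeomorphism of the whole space. -/
theorem exists_pl_extension {n : ℕ} {g : (Fin n → ℝ) → (Fin n → ℝ)}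
    (hc : ContinuousOn g (closedBall 0 1)) (hi : InjOn g (closedBall 0 1))
    {S : Set ((Fin n → ℝ) →ᵃ[ℝ] (Fin n → ℝ))} (hS : S.Finite)
    (hsel : ∀ y ∈ closedBall (0 : Fin n → ℝ) 1, ∃ A ∈ S, g y = A y)
    (hint : g '' closedBall 0 (1 / 2) ⊆ interior (g '' closedBall 0 1)) :
    ∃ G : (Fin n → ℝ) ≃ₜ (Fin n → ℝ), IsPiecewiseLinear G ∧
      ∀ x ∈ closedBall (0 : Fin n → ℝ) (1 / 8), G x = g x := by
  set Q : Set (Fin n → ℝ) := closedBall 0 1 with hQdef
  have hQ : IsCompact Q := isCompact_closedBall 0 1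
  have hcl : Q ⊆ closure (interior Q) := by
    rw [hQdef, interior_closedBall _ one_ne_zero, closure_ball _ one_ne_zero]
  have hsel' : ∀ y ∈ Q, ∃ A ∈ S, Function.Injective A ∧ g y = A y := fun y hy =>
    inj_selection hQ.isClosed hcl hc hi hS hsel hy
  -- a point near which `g` is affine
  obtain ⟨A, hA, p, hp⟩ := exists_interior_of_cover (X := Fin n → ℝ)
    (T := {A | A ∈ S ∧ Function.Injective A}) (hS.subset fun A hA => hA.1)
    (C := fun A => {z | z ∈ closedBall (0 : Fin n → ℝ) (1 / 16) ∧ g z = A z}) (by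
      intro A _
      have hAc : Continuous A := A.continuous_of_finiteDimensional
      have h1 : ContinuousOn (fun z => g z - A z) (closedBall (0 : Fin n → ℝ) (1 / 16)) :=
        (hc.mono (closedBall_subset_closedBall (by norm_num))).sub hAc.continuousOn
      have h2 := h1.preimage_isClosed_of_isClosed isClosed_closedBall
        (isClosed_singleton (x := (0 : Fin n → ℝ)))
      have h3 : {z | z ∈ closedBall (0 : Fin n → ℝ) (1 / 16) ∧ g z = A z} =
          closedBall 0 (1 / 16) ∩ (fun z => g z - A z) ⁻¹' {0} := by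
        apply Set.ext
        intro z
        constructor
        · rintro ⟨h4, h5⟩
          exact ⟨h4, sub_eq_zero.mpr h5⟩
        · rintro ⟨h4, h5⟩
          exact ⟨h4, sub_eq_zero.mp h5⟩
      rw [h3]
      exact h2) (O := ball (0 : Fin n → ℝ) (1 / 16)) isOpen_ball
    ⟨0, mem_ball_self (by norm_num)⟩ (by
      intro z hz
      have hz' : z ∈ Q := ball_subset_closedBall (ball_subset_ball (by norm_num) hz)
      obtain ⟨A, hA, hAi, hAe⟩ := hsel' z hz'
      exact mem_biUnion (show A ∈ {A | A ∈ S ∧ Function.Injective A} from ⟨hA, hAi⟩)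
        ⟨ball_subset_closedBall hz, hAe⟩)
  obtain ⟨δ, hδ, hball⟩ := Metric.nhds_basis_closedBall.mem_iff.mp (mem_interior_iff_mem_nhds.mp hp)
  have hp0 : dist p 0 ≤ 1 / 16 := (interior_subset hp).1
  obtain ⟨φ, hφ, hφ1, hφ2⟩ := exists_shrink p (ρ := 3 / 8) (δ := δ) (by norm_num) hδ
  obtain ⟨T, hT, hTA⟩ := exists_affine_homeo A hA.2
  set K : Set (Fin n → ℝ) := closedBall p (3 / 8) with hKdef
  have hK : IsCompact K := isCompact_closedBall _ _
  have hK2 : K ⊆ closedBall 0 (1 / 2) := by
    apply closedBall_subset_closedBall'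
    linarith
  have hKQ : K ⊆ Q := hK2.trans (closedBall_subset_closedBall (by norm_num))
  have hintK : g '' K ⊆ interior (g '' Q) := (image_mono hK2).trans hint
  have hfix : ∀ x, x ∉ K → φ x = x := by
    intro x hx
    apply hφ1
    rw [hKdef, mem_closedBall, not_le] at hx
    exact hx.le
  set Ψ := exh hQ hc hi hK hKQ hintK φ hfix with hΨ
  have hΨpl : IsPiecewiseLinear Ψ := exf_pl hQ hcl hc hi hK hKQ hintK hS hsel hfix hφ
  refine ⟨Ψ⁻¹ * T * φ, (plGroup (Fin n → ℝ)).mul_mem ((plGroup (Fin n → ℝ)).mul_mem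
    ((plGroup (Fin n → ℝ)).inv_mem hΨpl) hT) hφ, ?_⟩
  intro x hx
  change Ψ.symm (T (φ x)) = g x
  rw [Homeomorph.symm_apply_eq]
  have hxQ : x ∈ Q := closedBall_subset_closedBall (by norm_num) hx
  have h1 : Ψ (g x) = g (φ x) := exf_image hi φ hxQ
  have h2 : φ x ∈ closedBall p δ := by
    apply hφ2
    have h3 := dist_triangle x 0 p
    rw [dist_comm 0 p] at h3
    rw [mem_closedBall] at hx
    linarith
  rw [h1, hTA]
  exact (hball h2).2.symm

end MOT
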