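import Pool.Agent.MOT.ExtB
import Pool.Agent.Helper25.TypeB2

/-!
# MOT/ExtC: final assembly.  If every homeomorphism `h` of `Fin 3 → ℝ` can be approximated on the cube
`‖x‖ ≤ 1` by piecewise linear embeddings of this cube, then every homeomorphism of `E^3` is approximable
by piecewise linear homeomorphisms, and by the groups of type A and B.
-/

open Set Metric Topology Filter
open scoped NNReal

namespace MOT

open Pool.Agent.Helper25

/-- `g` is a piecewise linear embedding of the cube `‖x‖ ≤ 1` -/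
structure CubeEmb (g : (Fin 3 → ℝ) → (Fin 3 → ℝ)) : Prop where
  cont : ContinuousOn g (closedBall 0 1)
  inj : InjOn g (closedBall 0 1)
  aff : ∃ S : Set ((Fin 3 → ℝ) →ᵃ[ℝ] (Fin 3 → ℝ)), S.Finite ∧
    ∀ y ∈ closedBall (0 : Fin 3 → ℝ) 1, ∃ A ∈ S, g y = A y
  int : g '' closedBall 0 (1 / 2) ⊆ interior (g '' closedBall 0 1)

theorem isPiecewiseLinear_transfer {E F : Type*} [NormedAddCommGroup E] [NormedSpace ℝ E]
    [NormedAddCommGroup F] [NormedSpace ℝ F] (e : E ≃L[ℝ] F) (x : E) {G : F → F}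
    (hG : IsPiecewiseLinear G) : IsPiecewiseLinear (fun y => e.symm (G (e (y - x)))) := by
  intro y
  obtain ⟨U, hU, S, hS, hUS⟩ := hG (e (y - x))
  have hc : Continuous fun z : E => e (z - x) := e.continuous.comp (continuous_id.sub continuous_const)
  refine ⟨(fun z => e (z - x)) ⁻¹' U, hc.continuousAt hU,
    (fun A : F →ᵃ[ℝ] F => ((e.symm : F →L[ℝ] E) : F →ₗ[ℝ] E).toAffineMap.comp (A.comp
      (((e : E →L[ℝ] F) : E →ₗ[ℝ] F).toAffineMap.comp
        (AffineMap.id ℝ E - AffineMap.const ℝ E x)))) '' S, hS.image _, fun z hz => ?_⟩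
  obtain ⟨A, hA, hAe⟩ := hUS _ hz
  refine ⟨_, mem_image_of_mem _ hA, ?_⟩
  exact congrArg e.symm hAe

theorem approximable_groupA_of_cube
    (H : ∀ h : (Fin 3 → ℝ) ≃ₜ (Fin 3 → ℝ), ∀ ε : ℝ, 0 < ε → ∃ g : (Fin 3 → ℝ) → (Fin 3 → ℝ),
      CubeEmb g ∧ ∀ y ∈ closedBall (0 : Fin 3 → ℝ) 1, dist (g y) (h y) < ε)
    (h : EuclideanSpace ℝ (Fin 3) ≃ₜ EuclideanSpace ℝ (Fin 3)) :
    ApproximableBy (groupA 3 : Set (EuclideanSpace ℝ (Fin 3) ≃ₜ EuclideanSpace ℝ (Fin 3))) h := by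
  set e : EuclideanSpace ℝ (Fin 3) ≃L[ℝ] (Fin 3 → ℝ) := EuclideanSpace.equiv (Fin 3) ℝ with he
  refine approximable_of_local (containsSmall_groupA 3) ?_
  intro x
  set U : Set (EuclideanSpace ℝ (Fin 3)) := (fun y => e (y - x)) ⁻¹' closedBall 0 (1 / 8) ∩
    closedBall x 1 with hU
  refine ⟨U, inter_mem ?_ (closedBall_mem_nhds x one_pos), ?_⟩
  · have hc : Continuous fun z => e (z - x) := e.continuous.comp (continuous_id.sub continuous_const)
    apply hc.continuousAt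
    simp only [sub_self, map_zero]
    exact closedBall_mem_nhds _ (by norm_num)
  intro ε hε
  set C : ℝ := ‖(e.symm : (Fin 3 → ℝ) →L[ℝ] EuclideanSpace ℝ (Fin 3))‖ + 1 with hC
  have hC0 : 0 < C := by positivity
  set hx : (Fin 3 → ℝ) ≃ₜ (Fin 3 → ℝ) :=
    ((e.symm.toHomeomorph.trans (Homeomorph.addRight x)).trans h).trans e.toHomeomorph with hhx
  have hxa : ∀ v, hx v = e (h (e.symm v + x)) := fun v => rfl
  obtain ⟨g, hg, hgd⟩ := H hx (ε / (2 * C)) (by positivity)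
  obtain ⟨S, hS, hsel⟩ := hg.aff
  obtain ⟨G, hG, hGg⟩ := exists_pl_extension hg.cont hg.inj hS hsel hg.int
  set G' : EuclideanSpace ℝ (Fin 3) ≃ₜ EuclideanSpace ℝ (Fin 3) :=
    (((Homeomorph.addRight (-x)).trans e.toHomeomorph).trans G).trans e.symm.toHomeomorph with hG'
  have hGa : ∀ y, G' y = e.symm (G (e (y - x))) := by
    intro y
    rw [sub_eq_add_neg]; rfl
  have hGpl : IsPiecewiseLinear G' := by
    have h1 := isPiecewiseLinear_transfer e x hG
    have h2 : (G' : EuclideanSpace ℝ (Fin 3) → EuclideanSpace ℝ (Fin 3)) =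
        fun y => e.symm (G (e (y - x))) := funext hGa
    rw [h2]; exact h1
  have hap : Approximable (groupA 3) G' :=
    (piecewiseLinear_approximable hGpl).mono (stdGroup_le_groupA 3)
  obtain ⟨k, hk, hkd⟩ := hap U ((isBounded_closedBall (x := x) (r := 1)).subset inter_subset_right)
    (ε / 2) (by positivity)
  refine ⟨k, hk, fun y hy => ?_⟩
  have h1 := hkd y hy
  have h2 : e (y - x) ∈ closedBall (0 : Fin 3 → ℝ) (1 / 8) := hy.1
  have h3 := hgd (e (y - x)) (closedBall_subset_closedBall (by norm_num) h2)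
  rw [← hGg _ h2, hxa, e.symm_apply_apply, sub_add_cancel] at h3
  have h4 : dist (G' y) (h y) < ε / 2 := by
    rw [hGa, dist_eq_norm]
    have h5 : e.symm (G (e (y - x))) - h y =
        (e.symm : (Fin 3 → ℝ) →L[ℝ] EuclideanSpace ℝ (Fin 3)) (G (e (y - x)) - e (h y)) := by
      have h6 : e.symm (G (e (y - x)) - e (h y)) = e.symm (G (e (y - x))) - h y := by
        rw [map_sub, e.symm_apply_apply]
      exact h6.symm
    rw [h5]
    have h6 := (e.symm : (Fin 3 → ℝ) →L[ℝ] EuclideanSpace ℝ (Fin 3)).le_opNorm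
      (G (e (y - x)) - e (h y))
    have h7 : ‖G (e (y - x)) - e (h y)‖ < ε / (2 * C) := by rwa [← dist_eq_norm]
    have h8 : C * (ε / (2 * C)) = ε / 2 := by field_simp
    have h9 := norm_nonneg (G (e (y - x)) - e (h y))
    calc _ ≤ _ := h6
      _ ≤ C * ‖G (e (y - x)) - e (h y)‖ := by
        apply mul_le_mul_of_nonneg_right _ h9
        rw [hC]; linarith
      _ < C * (ε / (2 * C)) := by gcongr
      _ = ε / 2 := h8
  have h5 := dist_triangle (k y) (G' y) (h y)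
  linarith

theorem approximable_pl_of_cube
    (H : ∀ h : (Fin 3 → ℝ) ≃ₜ (Fin 3 → ℝ), ∀ ε : ℝ, 0 < ε → ∃ g : (Fin 3 → ℝ) → (Fin 3 → ℝ),
      CubeEmb g ∧ ∀ y ∈ closedBall (0 : Fin 3 → ℝ) 1, dist (g y) (h y) < ε)
    (h : EuclideanSpace ℝ (Fin 3) ≃ₜ EuclideanSpace ℝ (Fin 3)) :
    ApproximableBy {g | IsPiecewiseLinear g} h :=
  approximable_trans (G' := plGroup (EuclideanSpace ℝ (Fin 3)))
    (fun _ hg => stdGroup_approximable_plGroup hg)
    (stdGroup_approximable_of_groupA (approximable_groupA_of_cube H h))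

theorem approximable_groupB_of_cube
    (H : ∀ h : (Fin 3 → ℝ) ≃ₜ (Fin 3 → ℝ), ∀ ε : ℝ, 0 < ε → ∃ g : (Fin 3 → ℝ) → (Fin 3 → ℝ),
      CubeEmb g ∧ ∀ y ∈ closedBall (0 : Fin 3 → ℝ) 1, dist (g y) (h y) < ε)
    (h : EuclideanSpace ℝ (Fin 3) ≃ₜ EuclideanSpace ℝ (Fin 3)) :
    ApproximableBy (groupB : Set (EuclideanSpace ℝ (Fin 3) ≃ₜ EuclideanSpace ℝ (Fin 3))) h :=
  approximable_groupB_of_groupA (approximable_groupA_of_cube H h)

end MOT
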