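import Pool.Agent.MOT.Wal
import Pool.Agent.MOT.Cpt

/-!
# MOT/Flp: the flip `cut G Q M D = pl M \ sheet Q D`

`Q` is a wall with sides `P`, `N`; `D` is a union of components of `M ∩ Q`
(`hD : D ⊆ M ∩ Q`, `hn : NAdj G D ((M ∩ Q) \ D)`).
-/

open Classical

noncomputable section

namespace MOT

variable {V : Type} {G : SimpleGraph V} {A B M S Q P N D E : Set V}

/-- the part of the open star of `D` on the side `P` -/
def sidp (G : SimpleGraph V) (Q P D : Set V) : Set (Cq G) := pl G D ∩ sdp G Q P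

/-! ## elementary combinatorics -/

private theorem adjo {s : Cq G} {x y : V} (hx : x ∈ s.1) (hy : y ∈ s.1) (h : x ≠ y) :
    G.Adj x y := s.2.2 (Finset.mem_coe.2 hx) (Finset.mem_coe.2 hy) h

private theorem clos (hn : NAdj G D ((M ∩ Q) \ D)) {s : Cq G} {x y : V} (hx : x ∈ s.1)
    (hy : y ∈ s.1) (hyD : y ∈ D) (hxM : x ∈ M) (hxQ : x ∈ Q) : x ∈ D := by
  by_contra h
  exact hn y hyD x ⟨⟨hxM, hxQ⟩, h⟩ (adjo hy hx fun e => h (e ▸ hyD))

private theorem npl {s : Cq G} : s ∉ pl G M ↔ s ∈ mi G Mᶜ := by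
  rw [← Set.mem_compl_iff, compl_pl]

private theorem lts {s t : Cq G} (h : s < t) {x : V} (hx : x ∈ s.1) : x ∈ t.1 :=
  (Cq.le_iff.1 h.le) hx

private theorem les {s t : Cq G} (h : s ≤ t) {x : V} (hx : x ∈ s.1) : x ∈ t.1 :=
  (Cq.le_iff.1 h) hx

theorem fill_eq : fill G Q M D = (cut G Q Mᶜ D)ᶜ := by
  unfold fill cut
  ext s
  simp only [Set.mem_union, Set.mem_compl_iff, Set.mem_diff, not_and_or, not_not]
  have : s ∉ pl G Mᶜ ↔ s ∈ mi G M := by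
    rw [← Set.mem_compl_iff, compl_pl, compl_compl]
  rw [this]

theorem cut_compl : (cut G Q M D)ᶜ = mi G Mᶜ ∪ sheet G Q D := by
  unfold cut
  ext s
  simp only [Set.mem_union, Set.mem_compl_iff, Set.mem_diff, not_and_or, not_not]
  rw [npl]

/-- trace of the new region on the wall -/
theorem cut_trace (hD : D ⊆ M ∩ Q) (hn : NAdj G D ((M ∩ Q) \ D)) :
    cut G Q M D ∩ mi G Q = mi G Q ∩ pl G ((M ∩ Q) \ D) := by
  ext s
  constructor
  · rintro ⟨⟨⟨x, hx, hxM⟩, hs⟩, hQ⟩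
    exact ⟨hQ, x, hx, ⟨hxM, hQ x hx⟩, fun h => hs ⟨hQ, x, hx, h⟩⟩
  · rintro ⟨hQ, x, hx, ⟨hxM, hxQ⟩, hxD⟩
    refine ⟨⟨⟨x, hx, hxM⟩, ?_⟩, hQ⟩
    rintro ⟨-, y, hy, hyD⟩
    exact hxD (clos hn hx hy hyD hxM hxQ)

theorem cut_trace_compl (hD : D ⊆ M ∩ Q) (hn : NAdj G D ((M ∩ Q) \ D)) :
    mi G Q \ cut G Q M D = mi G (Q \ (M \ D)) := by
  ext s
  constructor
  · rintro ⟨hQ, hs⟩ x hx
    refine ⟨hQ x hx, fun h => ?_⟩
    refine hs ⟨⟨x, hx, h.1⟩, ?_⟩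
    rintro ⟨-, y, hy, hyD⟩
    exact h.2 (clos hn hx hy hyD h.1 (hQ x hx))
  · intro h
    have hQ : s ∈ mi G Q := fun x hx => (h x hx).1
    refine ⟨hQ, ?_⟩
    rintro ⟨⟨x, hx, hxM⟩, hs⟩
    refine hs ⟨hQ, x, hx, ?_⟩
    by_contra hD'
    exact (h x hx).2 ⟨hxM, hD'⟩

/-- a simplex missing `D` keeps its label -/
theorem cut_local {s : Cq G} (hs : s ∉ pl G D) : s ∈ cut G Q M D ↔ s ∈ pl G M := by
  exact ⟨fun h => h.1, fun h => ⟨h, fun h' => hs h'.2⟩⟩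

theorem cut_keep (hA : A ⊆ M) (hAD : Disjoint A D) : mi G A ⊆ cut G Q M D := by
  intro s hs
  refine ⟨mi_sub_pl (mi_mono hA hs), ?_⟩
  rintro ⟨-, y, hy, hyD⟩
  exact Set.disjoint_left.1 hAD (hs y hy) hyD

theorem cut_keep_compl (hB : B ⊆ Mᶜ) : mi G B ⊆ (cut G Q M D)ᶜ := by
  rintro s hs ⟨⟨x, hx, hxM⟩, -⟩
  exact hB (hs x hx) hxM

/-- a simplex comparable with `s ∈ sheet` that misses `M` is contained in `s`, hence in `Q` -/
theorem sheet_below {s t : Cq G} (hs : s ∈ sheet G Q D) (ht : t ∈ mi G Mᶜ) (hD : D ⊆ M)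
    (a : (sd G).Adj s t) : t < s ∧ t ∈ mi G Q := by
  obtain ⟨hQ, y, hy, hyD⟩ := hs
  rcases sd_adj.1 a with h | h
  · exact absurd (hD hyD) (ht y (lts h hy))
  · exact ⟨h, fun x hx => hQ x (lts h hx)⟩

/-- neighbours of the sheet in the new region lie above it, on one of the two sides -/
theorem sheet_above (w : Wall G Q P N) (hD : D ⊆ M ∩ Q) (hn : NAdj G D ((M ∩ Q) \ D))
    {s t : Cq G} (hs : s ∈ sheet G Q D) (ht : t ∈ cut G Q M D) (a : (sd G).Adj s t) :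
    s < t ∧ (t ∈ sidp G Q P D ∨ t ∈ sidp G Q N D) := by
  obtain ⟨hQ, y, hy, hyD⟩ := hs
  rcases sd_adj.1 a with h | h
  · refine ⟨h, ?_⟩
    have ht1 : t ∈ pl G D := ⟨y, lts h hy, hyD⟩
    have ht2 : t ∉ mi G Q := fun h' => ht.2 ⟨h', ht1⟩
    rcases w.side ht2 with h' | h'
    · exact Or.inl ⟨ht1, h'⟩
    · exact Or.inr ⟨ht1, h'⟩
  · exfalso
    obtain ⟨⟨x, hx, hxM⟩, hs'⟩ := ht
    have hxD := clos hn (lts h hx) hy hyD hxM (hQ x (lts h hx))
    exact hs' ⟨fun z hz => hQ z (lts h hz), x, hx, hxD⟩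

theorem sidp_cut (w : Wall G Q P N) (hD : D ⊆ M ∩ Q) :
    sidp G Q P D ⊆ cut G Q M D ∧ sidp G Q N D ⊆ cut G Q M D := by
  refine ⟨?_, ?_⟩
  · rintro s ⟨⟨y, hy, hyD⟩, ⟨x, hx, hxQ⟩, -⟩
    exact ⟨⟨y, hy, (hD hyD).1⟩, fun h => hxQ (h.1 x hx)⟩
  · rintro s ⟨⟨y, hy, hyD⟩, ⟨x, hx, hxQ⟩, -⟩
    exact ⟨⟨y, hy, (hD hyD).1⟩, fun h => hxQ (h.1 x hx)⟩

theorem sidp_nadj (w : Wall G Q P N) : NAdj (sd G) (sidp G Q P D) (sidp G Q N D) ∧
    Disjoint (sidp G Q P D) (sidp G Q N D) := by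
  refine ⟨?_, ?_⟩
  · rintro s ⟨-, ⟨x, hx, hxQ⟩, hs⟩ t ⟨-, ⟨y, hy, hyQ⟩, ht⟩ a
    rcases sd_adj.1 a with h | h
    · exact Set.disjoint_left.1 w.dpn (hs x hx hxQ) (ht x (lts h hx) hxQ)
    · exact Set.disjoint_left.1 w.dpn (hs y (lts h hy) hyQ) (ht y hy hyQ)
  · rw [Set.disjoint_left]
    rintro s ⟨-, ⟨x, hx, hxQ⟩, hs⟩ ⟨-, -, ht⟩
    exact Set.disjoint_left.1 w.dpn (hs x hx hxQ) (ht x hx hxQ)

/-! ## cohomology of the pieces -/

theorem sheet_Conn (hDQ : D ⊆ Q) : Conn (sd G) (sheet G Q D) ↔ Conn G D := by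
  refine bt_Conn (fun s hs => ⟨mi_mono hDQ hs, mi_sub_pl hs⟩) fun s hs => hs.2

theorem sheet_HZ (hDQ : D ⊆ Q) : HZ (sd G) (sheet G Q D) ↔ HZ G D := by
  refine bt_HZ (fun s hs => ⟨mi_mono hDQ hs, mi_sub_pl hs⟩) fun s hs => hs.2

private theorem tr_in {s : Cq G} {x : V} (hx : x ∈ s.1) (h : x ∈ Q) : x ∈ (tr Q s).1 := by
  rw [tr_val ⟨x, hx, h⟩]
  exact Finset.mem_filter.2 ⟨hx, h⟩

private theorem tr_sheet (hDQ : D ⊆ Q) {s : Cq G} (hs : s ∈ pl G D) : tr Q s ∈ sheet G Q D := by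
  obtain ⟨y, hy, hyD⟩ := hs
  exact ⟨tr_mem ⟨y, hy, hDQ hyD⟩, y, tr_in hy (hDQ hyD), hyD⟩

private theorem le_tr {s t : Cq G} (ht : t ∈ mi G Q) (h : t ≤ s) : t ≤ tr Q s := by
  rw [Cq.le_iff]
  intro x hx
  exact tr_in (les h hx) (ht x hx)

private theorem fib_set (hDQ : D ⊆ Q) {y : Cq G} (hy : y ∈ sheet G Q D) :
    {x | x ∈ sidp G Q P D ∧ y ≤ tr Q x} =
      Lk (sd G) (({y} : Finset (Cq G)) : Set (Cq G)) ∩ sdp G Q P := by
  ext x
  simp only [Lk, Finset.coe_singleton, Set.mem_inter_iff, Set.mem_setOf_eq, Set.mem_singleton_iff,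
    forall_eq]
  constructor
  · rintro ⟨hx, h⟩
    refine ⟨sd_adj.2 (Or.inl (lt_of_le_of_ne (h.trans (tr_le x)) ?_)), hx.2⟩
    rintro rfl
    obtain ⟨z, hz, hzQ⟩ := hx.2.1
    exact hzQ (hy.1 z hz)
  · rintro ⟨a, hx⟩
    have h : y < x := by
      rcases sd_adj.1 a with h | h
      · exact h
      · obtain ⟨z, hz, hzQ⟩ := hx.1
        exact absurd (hy.1 z (lts h hz)) hzQ
    obtain ⟨z, hz, hzD⟩ := hy.2
    exact ⟨⟨⟨z, lts h hz, hzD⟩, hx⟩, le_tr hy.1 h.le⟩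

/-- fibre lemma for `s ↦ s ∩ Q`, fibres `{s | t ≤ s, …}` as in `Wall.sd` -/
theorem sidp_Conn [Finite V] (w : Wall G Q P N) (hDQ : D ⊆ Q) (hc : Conn G D) :
    Conn (sd G) (sidp G Q P D) ∧ Conn (sd G) (sidp G Q N D) := by
  have key : ∀ {P N : Set V}, Wall G Q P N → Conn (sd G) (sidp G Q P D) := by
    intro P N w
    refine fib_Conn (S := sidp G Q P D) (T := sheet G Q D) (tr Q)
      (fun x hx y _ h => tr_mono (pl_mono hDQ hx.1) h) (fun x hx => tr_sheet hDQ hx.1) ?_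
      ((sheet_Conn hDQ).2 hc)
    intro y hy
    rw [fib_set hDQ hy]
    exact (w.sd.hp {y} (Finset.singleton_nonempty y) (by simp) (by
      intro z hz
      rw [Finset.coe_singleton, Set.mem_singleton_iff] at hz
      rw [hz]; exact hy.1)).1
  exact ⟨key w, key w.swap⟩

theorem sidp_HZ [Finite V] (w : Wall G Q P N) (hDQ : D ⊆ Q) (hz : HZ G D) :
    HZ (sd G) (sidp G Q P D) ∧ HZ (sd G) (sidp G Q N D) := by
  have key : ∀ {P N : Set V}, Wall G Q P N → HZ (sd G) (sidp G Q P D) := by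
    intro P N w
    refine fib_HZ (S := sidp G Q P D) (T := sheet G Q D) (tr Q)
      (fun x hx y _ h => tr_mono (pl_mono hDQ hx.1) h) (fun x hx => tr_sheet hDQ hx.1) ?_
      ((sheet_HZ hDQ).2 hz)
    intro y hy
    rw [fib_set hDQ hy]
    exact w.sd.hp {y} (Finset.singleton_nonempty y) (by simp) (by
      intro z hz
      rw [Finset.coe_singleton, Set.mem_singleton_iff] at hz
      rw [hz]; exact hy.1)
  exact ⟨key w, key w.swap⟩

private theorem star_pl {s : Cq G} (hs : s ∈ sheet G Q D ∪ sidp G Q P D ∪ sidp G Q N D) :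
    s ∈ pl G D := by
  rcases hs with (h | h) | h
  · exact h.2
  · exact h.1
  · exact h.1

/-- the sheet with its two sides retracts onto the sheet -/
theorem star_Conn [Finite V] (w : Wall G Q P N) (hDQ : D ⊆ Q) (hc : Conn G D) :
    Conn (sd G) (sheet G Q D ∪ sidp G Q P D ∪ sidp G Q N D) := by
  refine (ret_Conn (S' := sheet G Q D) (tr Q) (fun s hs => Or.inl (Or.inl hs))
    (fun x hx => tr_sheet hDQ (star_pl hx)) (fun x _ => tr_le x)
    fun x hx y _ h => tr_mono (pl_mono hDQ (star_pl hx)) h).2 ((sheet_Conn hDQ).2 hc)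

theorem star_HZ [Finite V] (w : Wall G Q P N) (hDQ : D ⊆ Q) (hz : HZ G D) :
    HZ (sd G) (sheet G Q D ∪ sidp G Q P D ∪ sidp G Q N D) := by
  refine (ret_HZ (S' := sheet G Q D) (tr Q) (fun s hs => Or.inl (Or.inl hs))
    (fun x hx => tr_sheet hDQ (star_pl hx)) (fun x _ => tr_le x)
    (fun x hx y _ h => tr_mono (pl_mono hDQ (star_pl hx)) h) fun x hx => tr_id hx.1).2
    ((sheet_HZ hDQ).2 hz)

/-- (F1) the complement: `H^1((cut)ᶜ) → H^1(mi Mᶜ)` is injective if the frontier of `D` in `Q` is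
connected (or empty).  Sketch: `a = df` on `mi Mᶜ`, `= dg` on the sheet; `f t + g s + a s t` is constant
on the pairs `t < s`, `s ∈ sheet`, `t ∈ mi Mᶜ`: `(s,t) ~ (s, tr Mᶜ s)`, and `s ↦ (s, tr Mᶜ s)` for
`s ∈ FrIn Q D` connected. -/
theorem flip_Inj (hD : D ⊆ M ∩ Q) (hn : NAdj G D ((M ∩ Q) \ D)) (hc : Conn G D) (hz : HZ G D)
    (hF : FrIn G Q D = ∅ ∨ Conn (sd G) (FrIn G Q D)) :
    Inj (sd G) (cut G Q M D)ᶜ (mi G Mᶜ) := by
  have hDQ : D ⊆ Q := fun x hx => (hD hx).2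
  have hDM : D ⊆ M := fun x hx => (hD hx).1
  intro a ha t0
  obtain ⟨f, hf⟩ := t0
  have hsub : sheet G Q D ⊆ (cut G Q M D)ᶜ := by
    rw [cut_compl]; exact Set.subset_union_right
  have hsub2 : mi G Mᶜ ⊆ (cut G Q M D)ᶜ := by
    rw [cut_compl]; exact Set.subset_union_left
  have hsh : HZ (sd G) (sheet G Q D) := (sheet_HZ hDQ).2 hz
  obtain ⟨g, hg⟩ := Triv_rs.1 (hsh _ (rs_mem hsub ha))
  have hs := (mem_Z1.1 ha).2.1
  have htri := (mem_Z1.1 ha).2.2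
  -- elements of `FrIn`
  have hFr1 : ∀ s ∈ FrIn G Q D, s ∈ sheet G Q D := fun s h => ⟨h.1.1, h.1.2⟩
  have hFr2 : ∀ s ∈ FrIn G Q D, s ∈ pl G Mᶜ := by
    rintro s ⟨⟨hQ, y, hy, hyD⟩, x, hx, hxD⟩
    exact ⟨x, hx, fun h => hxD (clos hn hx hy hyD h (hQ x hx))⟩
  have hlt : ∀ s ∈ FrIn G Q D, tr Mᶜ s < s := by
    intro s h
    refine lt_of_le_of_ne (tr_le s) fun e => ?_
    obtain ⟨y, hy, hyD⟩ := (hFr1 s h).2
    have := tr_mem (hFr2 s h)
    rw [e] at this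
    exact this y hy (hDM hyD)
  have hmix : ∀ s t, s ∈ sheet G Q D → t ∈ mi G Mᶜ → t < s → s ∈ FrIn G Q D := by
    intro s t h1 h2 h3
    obtain ⟨x, hx⟩ := t.2.1
    exact ⟨⟨h1.1, h1.2⟩, x, lts h3 hx, fun h => h2 x hx (hDM h)⟩
  have edge : ∀ s t, s ∈ sheet G Q D → t ∈ mi G Mᶜ → t < s →
      EIn (sd G) (cut G Q M D)ᶜ t s := fun s t h1 h2 h3 =>
    ⟨sd_adj.2 (Or.inl h3), hsub2 h2, hsub h1⟩
  have hc1 : ∀ s t, s ∈ sheet G Q D → t ∈ mi G Mᶜ → t < s →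
      f t + g s + a t s = f (tr Mᶜ s) + g s + a (tr Mᶜ s) s := by
    intro s t h1 h2 h3
    have hF := hmix s t h1 h2 h3
    have hr := tr_mem (hFr2 s hF)
    have hle : t ≤ tr Mᶜ s := le_tr h2 h3.le
    rcases hle.eq_or_lt with e | e
    · rw [← e]
    · have e1 : EIn (sd G) (mi G Mᶜ) t (tr Mᶜ s) := ⟨sd_adj.2 (Or.inl e), h2, hr⟩
      have h4 := htri t (tr Mᶜ s) s (e1.mono hsub2) (edge s _ h1 hr (hlt s hF))
        (edge s t h1 h2 h3)
      rw [hf _ _ e1] at h4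
      rw [← h4]
      have := two_add (f t)
      calc f t + g s + (f t + f (tr Mᶜ s) + a (tr Mᶜ s) s)
          = (f t + f t) + (f (tr Mᶜ s) + g s + a (tr Mᶜ s) s) := by abel
        _ = f (tr Mᶜ s) + g s + a (tr Mᶜ s) s := by rw [this, zero_add]
  have hc2 : ∀ s s', s ∈ FrIn G Q D → s' ∈ FrIn G Q D → s < s' →
      f (tr Mᶜ s) + g s + a (tr Mᶜ s) s = f (tr Mᶜ s') + g s' + a (tr Mᶜ s') s' := by
    intro s s' h1 h2 h3
    have hr := tr_mem (hFr2 s h1)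
    rw [← hc1 s' (tr Mᶜ s) (hFr1 s' h2) hr ((hlt s h1).trans h3)]
    have e1 : EIn (sd G) (sheet G Q D) s s' := ⟨sd_adj.2 (Or.inl h3), hFr1 s h1, hFr1 s' h2⟩
    have h4 := htri (tr Mᶜ s) s s' (edge s _ (hFr1 s h1) hr (hlt s h1)) (e1.mono hsub)
      (edge s' _ (hFr1 s' h2) hr ((hlt s h1).trans h3))
    rw [hg _ _ e1] at h4
    rw [← h4]
    have := two_add (g s')
    calc f (tr Mᶜ s) + g s + a (tr Mᶜ s) s
        = (f (tr Mᶜ s) + g s + a (tr Mᶜ s) s) + (g s' + g s') := by rw [this, add_zero]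
      _ = f (tr Mᶜ s) + g s' + (a (tr Mᶜ s) s + (g s + g s')) := by abel
  obtain ⟨c, hcc⟩ : ∃ c : ZMod 2, ∀ s ∈ FrIn G Q D,
      f (tr Mᶜ s) + g s + a (tr Mᶜ s) s = c := by
    rcases hF with h | h
    · exact ⟨0, fun s hs' => by rw [h] at hs'; exact absurd hs' (Set.notMem_empty s)⟩
    · obtain ⟨s0, hs0⟩ := h.1
      refine ⟨f (tr Mᶜ s0) + g s0 + a (tr Mᶜ s0) s0, fun s hs' => ?_⟩
      refine h.const (f := fun s => f (tr Mᶜ s) + g s + a (tr Mᶜ s) s) ?_ hs' hs0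
      intro x y e
      rcases sd_adj.1 e.1 with h' | h'
      · exact hc2 x y e.2.1 e.2.2 h'
      · exact (hc2 y x e.2.2 e.2.1 h').symm
  have hdis : ∀ s, s ∈ sheet G Q D → s ∉ mi G Mᶜ := by
    rintro s ⟨-, y, hy, hyD⟩ h
    exact h y hy (hDM hyD)
  -- mixed edges
  have hmx : ∀ s t, s ∈ sheet G Q D → t ∈ mi G Mᶜ → (sd G).Adj s t →
      a t s = f t + (g s + c) := by
    intro s t h1 h2 h3
    have h4 := (sheet_below h1 h2 hDM h3).1
    have h5 := hc1 s t h1 h2 h4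
    rw [hcc s (hmix s t h1 h2 h4)] at h5
    rw [← h5]
    have e1 := two_add (f t)
    have e2 := two_add (g s)
    calc a t s = (f t + f t) + (g s + g s) + a t s := by rw [e1, e2, add_zero, zero_add]
      _ = f t + (g s + (f t + g s + a t s)) := by abel
  refine ⟨fun s => if s ∈ mi G Mᶜ then f s else g s + c, fun x y e => ?_⟩
  have hx : x ∈ mi G Mᶜ ∪ sheet G Q D := by rw [← cut_compl]; exact e.2.1
  have hy : y ∈ mi G Mᶜ ∪ sheet G Q D := by rw [← cut_compl]; exact e.2.2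
  change a x y = (if x ∈ mi G Mᶜ then f x else g x + c) + (if y ∈ mi G Mᶜ then f y else g y + c)
  rcases hx with hx | hx <;> rcases hy with hy | hy
  · rw [if_pos hx, if_pos hy]; exact hf x y ⟨e.1, hx, hy⟩
  · rw [if_pos hx, if_neg (hdis y hy)]; exact hmx y x hy hx e.1.symm
  · rw [if_pos hy, if_neg (hdis x hx), hs x y, hmx x y hx hy e.1, add_comm]
  · rw [if_neg (hdis x hx), if_neg (hdis y hy), hg x y ⟨e.1, hx, hy⟩]
    have := two_add c
    calc g x + g y = g x + g y + (c + c) := by rw [this, add_zero]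
      _ = g x + c + (g y + c) := by abel

/-- (F2) every cocycle of the new region extends over the sheet -/
theorem flip_Surj [Finite V] (w : Wall G Q P N) (hD : D ⊆ M ∩ Q)
    (hn : NAdj G D ((M ∩ Q) \ D)) (hz : HZ G D) :
    Surj (sd G) (pl G M) (cut G Q M D) := by
  have hDQ : D ⊆ Q := fun x hx => (hD hx).2
  have hDM : D ⊆ M := fun x hx => (hD hx).1
  intro b hb
  obtain ⟨zP, zN⟩ := sidp_HZ w hDQ hz
  obtain ⟨cP, cN⟩ := sidp_cut (M := M) w hD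
  obtain ⟨fP, hfP⟩ := Triv_rs.1 (zP _ (rs_mem cP hb))
  obtain ⟨fN, hfN⟩ := Triv_rs.1 (zN _ (rs_mem cN hb))
  obtain ⟨nPN, dPN⟩ := sidp_nadj (D := D) w
  have hsc : cut G Q M D ⊆ pl G M := fun s hs => hs.1
  set F : Cq G → ZMod 2 := fun s => if s ∈ sidp G Q P D then fP s else fN s with hF
  have hb' := (Z1 (sd G) (cut G Q M D)).add_mem hb (cb_mem (G := sd G) (A := cut G Q M D) F)
  generalize hbd : b + cb (sd G) (cut G Q M D) F = b' at hb'
  obtain ⟨h0, hsy, htr⟩ := mem_Z1.1 hb'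
  have hb0 : ∀ x y, x ∈ sidp G Q P D ∨ x ∈ sidp G Q N D → y ∈ sidp G Q P D ∨ y ∈ sidp G Q N D →
      (sd G).Adj x y → b' x y = 0 := by
    intro x y hx hy a
    have hxc : x ∈ cut G Q M D := hx.elim (fun h => cP h) fun h => cN h
    have hyc : y ∈ cut G Q M D := hy.elim (fun h => cP h) fun h => cN h
    rw [← hbd, Pi.add_apply, Pi.add_apply, cb_apply ⟨a, hxc, hyc⟩, hF]
    rcases hx with hx | hx <;> rcases hy with hy | hy
    · rw [hfP x y ⟨a, hx, hy⟩]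
      simp only [if_pos hx, if_pos hy]
      exact two_add _
    · exact absurd a (nPN x hx y hy)
    · exact absurd a.symm (nPN y hy x hx)
    · rw [hfN x y ⟨a, hx, hy⟩]
      have hx' : x ∉ sidp G Q P D := fun h => Set.disjoint_left.1 dPN h hx
      have hy' : y ∉ sidp G Q P D := fun h => Set.disjoint_left.1 dPN h hy
      simp only [if_neg hx', if_neg hy']
      exact two_add _
  -- an edge opposite to a vertex of the sheet
  have hb1 : ∀ s x y, s ∈ sheet G Q D → (sd G).Adj s x → (sd G).Adj s y → (sd G).Adj x y →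
      b' x y = 0 := by
    intro s x y h1 h2 h3 h4
    by_cases h : EIn (sd G) (cut G Q M D) x y
    · exact hb0 x y (sheet_above w hD hn h1 h.2.1 h2).2 (sheet_above w hD hn h1 h.2.2 h3).2 h4
    · exact h0 x y h
  have hns : ∀ s x, s ∈ sheet G Q D → b' s x = 0 ∧ b' x s = 0 := fun s x h =>
    ⟨h0 _ _ fun h' => h'.2.1.2 h, h0 _ _ fun h' => h'.2.2.2 h⟩
  refine ⟨b', mem_Z1.2 ⟨fun x y h => h0 x y fun h' => h (h'.mono hsc), hsy, ?_⟩, ?_⟩
  · intro x y z e1 e2 e3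
    by_cases hx : x ∈ sheet G Q D
    · rw [(hns x y hx).1, (hns x z hx).1, hb1 x y z hx e1.1 e3.1 e2.1, add_zero]
    by_cases hy : y ∈ sheet G Q D
    · rw [(hns y x hy).2, (hns y z hy).1, hb1 y x z hy e1.1.symm e2.1 e3.1, add_zero]
    by_cases hz' : z ∈ sheet G Q D
    · rw [(hns z y hz').2, (hns z x hz').2, hb1 z x y hz' e3.1.symm e2.1.symm e1.1, add_zero]
    exact htr x y z ⟨e1.1, ⟨e1.2.1, hx⟩, ⟨e1.2.2, hy⟩⟩ ⟨e2.1, ⟨e2.2.1, hy⟩, ⟨e2.2.2, hz'⟩⟩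
      ⟨e3.1, ⟨e3.2.1, hx⟩, ⟨e3.2.2, hz'⟩⟩
  · refine (cb_triv (G := sd G) (A := cut G Q M D) F).congr fun x y e => ?_
    rw [← hbd]
    simp only [Pi.add_apply]
    have := two_add (b x y)
    calc cb (sd G) (cut G Q M D) F x y
        = (b x y + b x y) + cb (sd G) (cut G Q M D) F x y := by rw [this, zero_add]
      _ = b x y + cb (sd G) (cut G Q M D) F x y + b x y := by abel

/-- exact count (Mayer-Vietoris `mv_dim` with `star_Conn`, `star_HZ`, `sidp_Conn`, `sidp_HZ`) -/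
theorem flip_b1 [Finite V] (w : Wall G Q P N) (hD : D ⊆ M ∩ Q)
    (hn : NAdj G D ((M ∩ Q) \ D)) (hc : Conn G D) (hz : HZ G D) :
    b1 (sd G) (cut G Q M D) + b0 G M + 1 = b1 G M + b0 (sd G) (cut G Q M D) := by
  have hDQ : D ⊆ Q := fun x hx => (hD hx).2
  obtain ⟨cP, cN⟩ := sidp_cut (M := M) w hD
  obtain ⟨nPN, dPN⟩ := sidp_nadj (D := D) w
  obtain ⟨zP, zN⟩ := sidp_HZ w hDQ hz
  obtain ⟨kP, kN⟩ := sidp_Conn w hDQ hc
  have hU : cut G Q M D ∪ (sheet G Q D ∪ sidp G Q P D ∪ sidp G Q N D) = pl G M := by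
    ext s
    constructor
    · rintro (h | ((h | h) | h))
      · exact h.1
      · exact pl_mono (fun x hx => (hD hx).1) h.2
      · exact (cP h).1
      · exact (cN h).1
    · intro h
      by_cases h' : s ∈ sheet G Q D
      · exact Or.inr (Or.inl (Or.inl h'))
      · exact Or.inl ⟨h, h'⟩
  have hI : cut G Q M D ∩ (sheet G Q D ∪ sidp G Q P D ∪ sidp G Q N D) =
      sidp G Q P D ∪ sidp G Q N D := by
    ext s
    constructor
    · rintro ⟨h1, (h | h) | h⟩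
      · exact absurd h h1.2
      · exact Or.inl h
      · exact Or.inr h
    · rintro (h | h)
      · exact ⟨cP h, Or.inl (Or.inr h)⟩
      · exact ⟨cN h, Or.inr h⟩
  have hNA : NAdj (sd G) (cut G Q M D \ (sheet G Q D ∪ sidp G Q P D ∪ sidp G Q N D))
      ((sheet G Q D ∪ sidp G Q P D ∪ sidp G Q N D) \ cut G Q M D) := by
    rintro t ⟨h1, h2⟩ s ⟨h3, h4⟩ a
    have hs : s ∈ sheet G Q D := by
      rcases h3 with (h | h) | h
      · exact h
      · exact absurd (cP h) h4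
      · exact absurd (cN h) h4
    rcases (sheet_above w hD hn hs h1 a.symm).2 with h | h
    · exact h2 (Or.inl (Or.inr h))
    · exact h2 (Or.inr h)
  have hz2 : HZ (sd G) (cut G Q M D ∩ (sheet G Q D ∪ sidp G Q P D ∪ sidp G Q N D)) := by
    rw [hI, ← b1_eq_zero, b1_disj dPN nPN, b1_eq_zero.2 zP, b1_eq_zero.2 zN]
  have e := mv_dim hNA hz2
  rw [hU, hI, bt_b1 mi_sub_pl subset_rfl, bt_b0 mi_sub_pl subset_rfl,
    b0_eq_one.2 (star_Conn w hDQ hc), b1_eq_zero.2 (star_HZ w hDQ hz), b0_disj dPN nPN,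
    b0_eq_one.2 kP, b0_eq_one.2 kN] at e
  omega

theorem flip_b1_compl [Finite V] (hD : D ⊆ M ∩ Q) (hn : NAdj G D ((M ∩ Q) \ D))
    (hc : Conn G D) (hz : HZ G D) (hF : FrIn G Q D = ∅ ∨ Conn (sd G) (FrIn G Q D)) :
    b1 (sd G) (cut G Q M D)ᶜ ≤ b1 G Mᶜ := by
  have hsub2 : mi G Mᶜ ⊆ (cut G Q M D)ᶜ := by
    rw [cut_compl]; exact Set.subset_union_left
  have := (flip_Inj hD hn hc hz hF).le hsub2
  rwa [sd_b1] at this

theorem flip_bb [Finite V] (w : Wall G Q P N) (hD : D ⊆ M ∩ Q)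
    (hn : NAdj G D ((M ∩ Q) \ D)) (hc : Conn G D) (hz : HZ G D)
    (hF : FrIn G Q D = ∅ ∨ Conn (sd G) (FrIn G Q D)) :
    bb (sd G) (cut G Q M D) ≤ bb G M := by
  unfold bb
  have h1 := (flip_Surj w hD hn hz).le fun s hs => hs.1
  rw [bt_b1 mi_sub_pl subset_rfl] at h1
  exact Nat.add_le_add h1 (flip_b1_compl hD hn hc hz hF)

private theorem Conn_union {V : Type} {G : SimpleGraph V} {A B : Set V} (hA : Conn G A)
    (hB : Conn G B) {x y : V} (hx : x ∈ A) (hy : y ∈ B) (a : G.Adj x y) : Conn G (A ∪ B) := by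
  rw [Conn_iff]
  refine ⟨⟨x, Or.inl hx⟩, fun f hf => ?_⟩
  have h1 : ∀ z ∈ A, f z = f x := fun z hz =>
    hA.const (fun u v e => hf u v (e.mono Set.subset_union_left)) hz hx
  have h2 : ∀ z ∈ B, f z = f x := fun z hz =>
    (hB.const (fun u v e => hf u v (e.mono Set.subset_union_right)) hz hy).trans
      (hf y x ⟨a.symm, Or.inr hy, Or.inl hx⟩)
  have h3 : ∀ z ∈ A ∪ B, f z = f x := fun z hz => hz.elim (h1 z) (h2 z)
  intro u hu v hv
  rw [h3 u hu, h3 v hv]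

/-- the complement stays connected if `D` touches `Mᶜ` (`FrIn G Q D` nonempty) -/
theorem flip_compl_Conn (hD : D ⊆ M ∩ Q) (hn : NAdj G D ((M ∩ Q) \ D)) (hc : Conn G D)
    (hM : Conn G Mᶜ) (hF : (FrIn G Q D).Nonempty) : Conn (sd G) (cut G Q M D)ᶜ := by
  have hDQ : D ⊆ Q := fun x hx => (hD hx).2
  have hDM : D ⊆ M := fun x hx => (hD hx).1
  rw [cut_compl]
  obtain ⟨s, hs⟩ := hF
  have hs1 : s ∈ sheet G Q D := ⟨hs.1.1, hs.1.2⟩
  have hs2 : s ∈ pl G Mᶜ := by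
    obtain ⟨⟨hQ, y, hy, hyD⟩, x, hx, hxD⟩ := hs
    exact ⟨x, hx, fun h => hxD (clos hn hx hy hyD h (hQ x hx))⟩
  have hlt : tr Mᶜ s < s := by
    refine lt_of_le_of_ne (tr_le s) fun e => ?_
    obtain ⟨y, hy, hyD⟩ := hs1.2
    have := tr_mem hs2
    rw [e] at this
    exact this y hy (hDM hyD)
  exact Conn_union (sd_Conn.2 hM) ((sheet_Conn hDQ).2 hc) (tr_mem hs2) hs1
    (sd_adj.2 (Or.inl hlt))

/-- at most one new component of the region: every component of `cut` meets `sidp P`, `sidp N`, or is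
a component of `pl M` (for `M` connected: at most two components, each containing a side of `D`). -/
theorem flip_comp [Finite V] (w : Wall G Q P N) (hD : D ⊆ M ∩ Q) (hn : NAdj G D ((M ∩ Q) \ D))
    (hc : Conn G D) (hM : Conn G M) {C : Set (Cq G)} (hC : IsComp (sd G) (cut G Q M D) C) :
    sidp G Q P D ⊆ C ∨ sidp G Q N D ⊆ C := by
  have hDQ : D ⊆ Q := fun x hx => (hD hx).2
  obtain ⟨cP, cN⟩ := sidp_cut (M := M) w hD
  obtain ⟨kP, kN⟩ := sidp_Conn w hDQ hc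
  by_contra hcon
  rw [not_or] at hcon
  have hP : ∀ s ∈ sidp G Q P D, s ∉ C := fun s h1 h2 =>
    hcon.1 (hC.absorb kP cP ⟨s, h1, h2⟩)
  have hN : ∀ s ∈ sidp G Q N D, s ∉ C := fun s h1 h2 =>
    hcon.2 (hC.absorb kN cN ⟨s, h1, h2⟩)
  have hcl : ∀ x y, EIn (sd G) (pl G M) x y → x ∈ C → y ∈ C := by
    intro x y e hx
    by_contra hy
    have hxc := hC.sub hx
    by_cases hys : y ∈ sheet G Q D
    · rcases (sheet_above w hD hn hys hxc e.1.symm).2 with h | h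
      · exact hP x h hx
      · exact hN x h hx
    · exact hC.nadj x hx y ⟨⟨e.2.2, hys⟩, hy⟩ e.1
  obtain ⟨x, hx⟩ := hC.conn.1
  obtain ⟨y, hy⟩ := hc.1
  have hxM : x ∈ pl G M := (hC.sub hx).1
  have hys : vx G y ∈ sheet G Q D := by
    refine ⟨fun z hz => ?_, y, ?_, hy⟩
    · have : z = y := by simpa [vx] using hz
      rw [this]; exact hDQ hy
    · simp [vx]
  have hyM : vx G y ∈ pl G M := pl_mono (fun x hx => (hD hx).1) hys.2
  have hcM : Conn (sd G) (pl G M) := (bt_Conn mi_sub_pl subset_rfl).2 hM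
  have hall : ∀ z, Relation.ReflTransGen (EIn (sd G) (pl G M)) x z → z ∈ C := by
    intro z r
    induction r with
    | refl => exact hx
    | tail _ e ih => exact hcl _ _ e ih
  have : vx G y ∈ C := hall _ (hcM.2 x hxM (vx G y) hyM)
  exact (hC.sub this).2 hys

/-! ## the frontier after a flip -/

/-- the cap over `D` on the side `P`: chains in `sheet ∪ sidp` meeting both -/
def cap (G : SimpleGraph V) (Q P D : Set V) : Set (Cq (sd G)) :=
  {c | (∀ s ∈ c.1, s ∈ sheet G Q D ∪ sidp G Q P D) ∧ (∃ s ∈ c.1, s ∈ sheet G Q D) ∧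
    ∃ s ∈ c.1, s ∈ sidp G Q P D}

/-- restriction of a chain -/
private def cr (τ c : Cq (sd G)) (S : Set (Cq G)) : Cq (sd G) :=
  if h : τ.1 ⊆ c.1 then ⟨c.1.filter (· ∈ S) ∪ τ.1, by
    obtain ⟨x, hx⟩ := τ.2.1
    exact ⟨x, Finset.mem_union_right _ hx⟩, by
    refine c.2.2.subset ?_
    intro x hx
    rcases Finset.mem_union.1 (Finset.mem_coe.1 hx) with h' | h'
    · exact Finset.mem_coe.2 (Finset.mem_filter.1 h').1
    · exact Finset.mem_coe.2 (h h')⟩ else c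

private theorem mem_cr {τ c : Cq (sd G)} {S : Set (Cq G)} (h : τ.1 ⊆ c.1) {s : Cq G} :
    s ∈ (cr τ c S).1 ↔ (s ∈ c.1 ∧ s ∈ S) ∨ s ∈ τ.1 := by
  unfold cr
  rw [dif_pos h]
  simp only [Finset.mem_union, Finset.mem_filter]

/-- insertion of an element -/
private def ci (m : Cq G) (c : Cq (sd G)) : Cq (sd G) :=
  if h : (sd G).IsClique (insert m c.1 : Finset (Cq G)) then
    ⟨insert m c.1, Finset.insert_nonempty _ _, h⟩ else c

private theorem mem_ci {m : Cq G} {c : Cq (sd G)}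
    (h : ∀ s ∈ c.1, s ≠ m → (sd G).Adj s m) {s : Cq G} : s ∈ (ci m c).1 ↔ s = m ∨ s ∈ c.1 := by
  have h' : (sd G).IsClique (insert m c.1 : Finset (Cq G)) := by
    rw [Finset.coe_insert, SimpleGraph.isClique_insert]
    exact ⟨c.2.2, fun b hb hne => (h b (Finset.mem_coe.1 hb) (Ne.symm hne)).symm⟩
  unfold ci
  rw [dif_pos h']
  exact Finset.mem_insert

private theorem chain_cmp {c : Cq (sd G)} {s t : Cq G} (hs : s ∈ c.1) (ht : t ∈ c.1)
    (h : s ≠ t) : s < t ∨ t < s :=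
  sd_adj.1 (c.2.2 (Finset.mem_coe.2 hs) (Finset.mem_coe.2 ht) h)

private theorem cap_set {τ : Cq (sd G)} (hτ : τ ∈ mi (sd G) (sidp G Q P D)) :
    {x | x ∈ cap G Q P D ∧ τ ≤ tr (sidp G Q P D) x} = {c | c ∈ cap G Q P D ∧ τ.1 ⊆ c.1} := by
  ext c
  simp only [Set.mem_setOf_eq]
  constructor
  · rintro ⟨h1, h2⟩
    exact ⟨h1, Cq.le_iff.1 (h2.trans (tr_le c))⟩
  · rintro ⟨h1, h2⟩
    exact ⟨h1, le_tr hτ (Cq.le_iff.2 h2)⟩

private theorem cap_fib (hDQ : D ⊆ Q) {τ : Cq (sd G)}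
    (hτ : τ ∈ mi (sd G) (sidp G Q P D)) :
    Conn (cmp (Cq (sd G))) {c | c ∈ cap G Q P D ∧ τ.1 ⊆ c.1} ∧
      HZ (cmp (Cq (sd G))) {c | c ∈ cap G Q P D ∧ τ.1 ⊆ c.1} := by
  have hτ' : ∀ u ∈ τ.1, u ∈ sidp G Q P D := hτ
  -- least element of `τ`
  obtain ⟨t0, ht0, hmin⟩ : ∃ t ∈ τ.1, ∀ u ∈ τ.1, t ≤ u := by
    obtain ⟨t, ht, hm⟩ := τ.1.exists_minimal τ.2.1
    refine ⟨t, ht, fun u hu => ?_⟩
    by_cases e : t = u
    · exact e.le
    · rcases chain_cmp ht hu e with h | h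
      · exact h.le
      · exact hm hu h.le
  have hm0 : tr Q t0 ∈ sheet G Q D := tr_sheet hDQ (hτ' t0 ht0).1
  have hnQ : ∀ u ∈ sidp G Q P D, u ∉ mi G Q := by
    rintro u ⟨-, ⟨x, hx, hxQ⟩, -⟩ h
    exact hxQ (h x hx)
  have hm0lt : ∀ u ∈ τ.1, tr Q t0 < u := by
    intro u hu
    refine lt_of_le_of_ne ((tr_le t0).trans (hmin u hu)) fun e => ?_
    exact hnQ u (hτ' u hu) (e ▸ hm0.1)
  have hsle : ∀ c : Cq (sd G), τ.1 ⊆ c.1 → ∀ s ∈ c.1, s ∈ sheet G Q D → s ≤ tr Q t0 := by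
    intro c h1 s hs hs'
    have hne : s ≠ t0 := fun e => hnQ t0 (hτ' t0 ht0) (e ▸ hs'.1)
    rcases chain_cmp hs (h1 ht0) hne with h | h
    · exact le_tr hs'.1 h.le
    · exfalso
      exact hnQ t0 (hτ' t0 ht0) fun x hx => hs'.1 x (lts h hx)
  -- the three sets
  set S1 : Set (Cq (sd G)) := {c | c ∈ cap G Q P D ∧ τ.1 ⊆ c.1} with hS1
  set S2 : Set (Cq (sd G)) := {c | c ∈ S1 ∧ ∀ s ∈ c.1, s ∈ sheet G Q D ∨ s ∈ τ.1} with hS2
  set S3 : Set (Cq (sd G)) := {c | c ∈ S2 ∧ tr Q t0 ∈ c.1} with hS3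
  -- first retraction
  have r1 : ∀ c ∈ S1, cr τ c (sheet G Q D) ∈ S2 := by
    rintro c ⟨⟨h1, ⟨s, hs, hs'⟩, -⟩, h2⟩
    refine ⟨⟨⟨fun u hu => ?_, ⟨s, (mem_cr h2).2 (Or.inl ⟨hs, hs'⟩), hs'⟩,
      ⟨t0, (mem_cr h2).2 (Or.inr ht0), hτ' t0 ht0⟩⟩, fun u hu => (mem_cr h2).2 (Or.inr hu)⟩,
      fun u hu => ?_⟩
    · rcases (mem_cr h2).1 hu with h | h
      · exact Or.inl h.2
      · exact Or.inr (hτ' u h)
    · rcases (mem_cr h2).1 hu with h | h
      · exact Or.inl h.2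
      · exact Or.inr h
  have r2 : ∀ c ∈ S1, cr τ c (sheet G Q D) ≤ c := by
    intro c hc
    rw [Cq.le_iff]
    intro u hu
    rcases (mem_cr hc.2).1 hu with h | h
    · exact h.1
    · exact hc.2 h
  have r3 : ∀ c ∈ S1, ∀ c' ∈ S1, c ≤ c' →
      cr τ c (sheet G Q D) ≤ cr τ c' (sheet G Q D) := by
    intro c hc c' hc' h
    rw [Cq.le_iff] at h ⊢
    intro u hu
    rcases (mem_cr hc.2).1 hu with h' | h'
    · exact (mem_cr hc'.2).2 (Or.inl ⟨h h'.1, h'.2⟩)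
    · exact (mem_cr hc'.2).2 (Or.inr h')
  have r4 : ∀ c ∈ S2, cr τ c (sheet G Q D) = c := by
    intro c hc
    refine le_antisymm (r2 c hc.1) ?_
    rw [Cq.le_iff]
    intro u hu
    rcases hc.2 u hu with h | h
    · exact (mem_cr hc.1.2).2 (Or.inl ⟨hu, h⟩)
    · exact (mem_cr hc.1.2).2 (Or.inr h)
  have h21 : S2 ⊆ S1 := fun c hc => hc.1
  -- second retraction
  have ia : ∀ c ∈ S2, ∀ s ∈ c.1, s ≠ tr Q t0 → (sd G).Adj s (tr Q t0) := by
    intro c hc s hs hne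
    rw [sd_adj]
    rcases hc.2 s hs with h | h
    · exact Or.inl (lt_of_le_of_ne (hsle c hc.1.2 s hs h) hne)
    · exact Or.inr (hm0lt s h)
  have i1 : ∀ c ∈ S2, ci (tr Q t0) c ∈ S3 := by
    intro c hc
    have hm : ∀ {s : Cq G}, s ∈ (ci (tr Q t0) c).1 ↔ s = tr Q t0 ∨ s ∈ c.1 :=
      mem_ci (ia c hc)
    have h5 : ∀ s ∈ (ci (tr Q t0) c).1, s ∈ sheet G Q D ∨ s ∈ τ.1 := by
      intro s hs
      rcases hm.1 hs with h | h
      · exact Or.inl (h ▸ hm0)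
      · exact hc.2 s h
    refine ⟨⟨⟨⟨fun u hu => ?_, ⟨_, hm.2 (Or.inl rfl), hm0⟩,
      ⟨t0, hm.2 (Or.inr (hc.1.2 ht0)), hτ' t0 ht0⟩⟩, fun u hu => hm.2 (Or.inr (hc.1.2 hu))⟩, h5⟩,
      hm.2 (Or.inl rfl)⟩
    rcases h5 u hu with h | h
    · exact Or.inl h
    · exact Or.inr (hτ' u h)
  have i2 : ∀ c ∈ S2, c ≤ ci (tr Q t0) c := by
    intro c hc
    rw [Cq.le_iff]
    intro u hu
    exact (mem_ci (ia c hc)).2 (Or.inr hu)
  have i3 : ∀ c ∈ S2, ∀ c' ∈ S2, c ≤ c' → ci (tr Q t0) c ≤ ci (tr Q t0) c' := by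
    intro c hc c' hc' h
    rw [Cq.le_iff] at h ⊢
    intro u hu
    rcases (mem_ci (ia c hc)).1 hu with h' | h'
    · exact (mem_ci (ia c' hc')).2 (Or.inl h')
    · exact (mem_ci (ia c' hc')).2 (Or.inr (h h'))
  have i4 : ∀ c ∈ S3, ci (tr Q t0) c = c := by
    intro c hc
    refine le_antisymm ?_ (i2 c hc.1)
    rw [Cq.le_iff]
    intro u hu
    rcases (mem_ci (ia c hc.1)).1 hu with h | h
    · rw [h]; exact hc.2
    · exact h
  have h32 : S3 ⊆ S2 := fun c hc => hc.1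
  -- least element
  have hb : ∀ s ∈ τ.1, s ≠ tr Q t0 → (sd G).Adj s (tr Q t0) := fun s hs _ =>
    sd_adj.2 (Or.inr (hm0lt s hs))
  have hbm : ∀ {s : Cq G}, s ∈ (ci (tr Q t0) τ).1 ↔ s = tr Q t0 ∨ s ∈ τ.1 := mem_ci hb
  have hbot : ci (tr Q t0) τ ∈ S3 := by
    have h5 : ∀ s ∈ (ci (tr Q t0) τ).1, s ∈ sheet G Q D ∨ s ∈ τ.1 := by
      intro s hs
      rcases hbm.1 hs with h | h
      · exact Or.inl (h ▸ hm0)
      · exact Or.inr h
    refine ⟨⟨⟨⟨fun u hu => ?_, ⟨_, hbm.2 (Or.inl rfl), hm0⟩,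
      ⟨t0, hbm.2 (Or.inr ht0), hτ' t0 ht0⟩⟩, fun u hu => hbm.2 (Or.inr hu)⟩, h5⟩,
      hbm.2 (Or.inl rfl)⟩
    rcases h5 u hu with h | h
    · exact Or.inl h
    · exact Or.inr (hτ' u h)
  have hle : ∀ c ∈ S3, ci (tr Q t0) τ ≤ c := by
    intro c hc
    rw [Cq.le_iff]
    intro u hu
    rcases hbm.1 hu with h | h
    · rw [h]; exact hc.2
    · exact hc.1.1.2 h
  refine ⟨(ret_Conn _ h21 r1 r2 r3).2 ((retu_Conn _ h32 i1 i2 i3).2 (bot_Conn hbot hle)),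
    (ret_HZ _ h21 r1 r2 r3 r4).2 ((retu_HZ _ h32 i1 i2 i3 i4).2 (bot_HZ hbot hle))⟩

theorem cap_Conn [Finite V] (w : Wall G Q P N) (hDQ : D ⊆ Q) (hc : Conn G D) :
    Conn (sd (sd G)) (cap G Q P D) ∧ Conn (sd (sd G)) (cap G Q N D) := by
  have key : ∀ {P N : Set V}, Wall G Q P N → Conn (sd (sd G)) (cap G Q P D) := by
    intro P N w
    refine fib_Conn (S := cap G Q P D) (T := mi (sd G) (sidp G Q P D)) (tr (sidp G Q P D))
      (fun x hx y _ h => tr_mono hx.2.2 h) (fun x hx => tr_mem hx.2.2) ?_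
      (sd_Conn.2 (sidp_Conn w hDQ hc).1)
    intro y hy
    rw [cap_set hy]
    exact (cap_fib hDQ hy).1
  exact ⟨key w, key w.swap⟩

/-- Sketch: `c ↦ c ∩ sidp` is monotone to the chains in `sidp`; the fibre `{c | τ ⊆ c}` retracts by
`c ↦ (c ∩ sheet) ∪ τ` onto the chains in `{s ∈ sheet | s < min τ}`, which has the greatest element
`min τ ∩ Q`.  So `fib_HZ` with `sd_HZ`, `sidp_HZ`. -/
theorem cap_HZ [Finite V] (w : Wall G Q P N) (hDQ : D ⊆ Q) (hc : Conn G D) (hz : HZ G D) :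
    HZ (sd (sd G)) (cap G Q P D) ∧ HZ (sd (sd G)) (cap G Q N D) := by
  have key : ∀ {P N : Set V}, Wall G Q P N → HZ (sd (sd G)) (cap G Q P D) := by
    intro P N w
    refine fib_HZ (S := cap G Q P D) (T := mi (sd G) (sidp G Q P D)) (tr (sidp G Q P D))
      (fun x hx y _ h => tr_mono hx.2.2 h) (fun x hx => tr_mem hx.2.2) ?_
      (sd_HZ.2 (sidp_HZ w hDQ hz).1)
    intro y hy
    rw [cap_set hy]
    exact cap_fib hDQ hy
  exact ⟨key w, key w.swap⟩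

/-- (F4) exact description: the curve `FrIn (mi Q) (sheet)` is removed and two caps are inserted -/
theorem Fr_cut (w : Wall G Q P N) (hD : D ⊆ M ∩ Q) (hn : NAdj G D ((M ∩ Q) \ D)) :
    Fr (sd G) (cut G Q M D) =
      (Fr (sd G) (pl G M) \ FrIn (sd G) (mi G Q) (sheet G Q D)) ∪ cap G Q P D ∪ cap G Q N D := by
  have hDM : D ⊆ M := fun x hx => (hD hx).1
  obtain ⟨cP, cN⟩ := sidp_cut (M := M) w hD
  obtain ⟨nPN, dPN⟩ := sidp_nadj (D := D) w
  have hsc : sheet G Q D ⊆ (cut G Q M D)ᶜ := by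
    rw [cut_compl]; exact Set.subset_union_right
  ext c
  constructor
  · rintro ⟨⟨s, hs, hsc'⟩, t, ht, htc⟩
    by_cases hm : ∃ u ∈ c.1, u ∈ mi G Mᶜ
    · left; left
      obtain ⟨u, hu, huM⟩ := hm
      refine ⟨⟨⟨s, hs, hsc'.1⟩, u, hu, ?_⟩, ?_⟩
      · rw [compl_pl]; exact huM
      · rintro ⟨⟨hcQ, v, hv, hvs⟩, -⟩
        -- `s` lies in `Q`, meets `M` outside `D`
        have hsQ : s ∈ mi G Q := hcQ s hs
        obtain ⟨x, hx, hxM⟩ := hsc'.1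
        have hxD : x ∉ D := fun h => hsc'.2 ⟨hsQ, x, hx, h⟩
        obtain ⟨y, hy, hyD⟩ := hvs.2
        have hne : s ≠ v := fun e => hsc'.2 (e ▸ hvs)
        rcases chain_cmp hs hv hne with h | h
        · exact hxD (clos hn (lts h hx) hy hyD hxM (hsQ x hx))
        · exact hsc'.2 ⟨hsQ, y, lts h hy, hyD⟩
    · have hts : t ∈ sheet G Q D := by
        rw [cut_compl] at htc
        rcases htc with h | h
        · exact absurd ⟨t, ht, h⟩ hm
        · exact h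
      have hall : ∀ u ∈ c.1, u ∈ sheet G Q D ∨ u ∈ sidp G Q P D ∨ u ∈ sidp G Q N D := by
        intro u hu
        by_cases h1 : u ∈ sheet G Q D
        · exact Or.inl h1
        · right
          have h2 : u ∈ cut G Q M D := by
            refine ⟨?_, h1⟩
            by_contra h3
            exact hm ⟨u, hu, npl.1 h3⟩
          have hne : t ≠ u := fun e => h1 (e ▸ hts)
          exact (sheet_above w hD hn hts h2 (sd_adj.2 (chain_cmp ht hu hne))).2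
      have hss : s ∉ sheet G Q D := hsc'.2
      rcases hall s hs with h | h | h
      · exact absurd h hss
      · left; right
        refine ⟨fun u hu => ?_, ⟨t, ht, hts⟩, ⟨s, hs, h⟩⟩
        rcases hall u hu with h1 | h1 | h1
        · exact Or.inl h1
        · exact Or.inr h1
        · exfalso
          have hne : s ≠ u := fun e => Set.disjoint_left.1 dPN h (e ▸ h1)
          exact nPN s h u h1 (sd_adj.2 (chain_cmp hs hu hne))
      · right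
        refine ⟨fun u hu => ?_, ⟨t, ht, hts⟩, ⟨s, hs, h⟩⟩
        rcases hall u hu with h1 | h1 | h1
        · exact Or.inl h1
        · exfalso
          have hne : u ≠ s := fun e => Set.disjoint_left.1 dPN h1 (e ▸ h)
          exact nPN u h1 s h (sd_adj.2 (chain_cmp hu hs hne))
        · exact Or.inr h1
  · rintro ((⟨⟨⟨s, hs, hsM⟩, t, ht, htM⟩, hnf⟩ | ⟨-, ⟨t, ht, hts⟩, ⟨s, hs, hss⟩⟩) |
      ⟨-, ⟨t, ht, hts⟩, ⟨s, hs, hss⟩⟩)
    · rw [compl_pl] at htM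
      have htc : t ∈ (cut G Q M D)ᶜ := by rw [cut_compl]; exact Or.inl htM
      refine ⟨?_, t, ht, htc⟩
      by_contra hno
      have hcc : ∀ u ∈ c.1, u ∈ mi G Mᶜ ∪ sheet G Q D := by
        intro u hu
        rw [← cut_compl]
        exact fun h => hno ⟨u, hu, h⟩
      have hss : s ∈ sheet G Q D := by
        rcases hcc s hs with h | h
        · exact absurd hsM (npl.2 h)
        · exact h
      refine hnf ⟨⟨fun u hu => ?_, s, hs, hss⟩, t, ht, ?_⟩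
      · rcases hcc u hu with h | h
        · have hne : s ≠ u := fun e => (npl.2 h) (e ▸ hsM)
          exact (sheet_below hss h hDM (sd_adj.2 (chain_cmp hs hu hne))).2
        · exact h.1
      · rintro ⟨-, y, hy, hyD⟩
        exact htM y hy (hDM hyD)
    · exact ⟨⟨s, hs, cP hss⟩, t, ht, hsc hts⟩
    · exact ⟨⟨s, hs, cN hss⟩, t, ht, hsc hts⟩

theorem cap_disj (w : Wall G Q P N) (hD : D ⊆ M ∩ Q) :
    Disjoint (cap G Q P D) (cap G Q N D) ∧ NAdj (sd (sd G)) (cap G Q P D) (cap G Q N D) ∧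
    Disjoint (cap G Q P D) (Fr (sd G) (pl G M)) ∧ Disjoint (cap G Q N D) (Fr (sd G) (pl G M)) := by
  have hDM : D ⊆ M := fun x hx => (hD hx).1
  obtain ⟨nPN, dPN⟩ := sidp_nadj (D := D) w
  have hnQ : ∀ {P : Set V} {u : Cq G}, u ∈ sidp G Q P D → u ∉ sheet G Q D := by
    rintro P u ⟨-, ⟨x, hx, hxQ⟩, -⟩ h
    exact hxQ (h.1 x hx)
  have key : ∀ c c' : Cq (sd G), c ∈ cap G Q P D → c' ∈ cap G Q N D →
      c ≤ c' ∨ c' ≤ c → False := by
    rintro c c' ⟨h1, -, s, hs, hsP⟩ ⟨h1', -, t, ht, htN⟩ (h | h)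
    · rcases h1' s (Cq.le_iff.1 h hs) with h2 | h2
      · exact hnQ hsP h2
      · exact Set.disjoint_left.1 dPN hsP h2
    · rcases h1 t (Cq.le_iff.1 h ht) with h2 | h2
      · exact hnQ htN h2
      · exact Set.disjoint_left.1 dPN h2 htN
  refine ⟨?_, ?_, ?_, ?_⟩
  · rw [Set.disjoint_left]
    exact fun c h1 h2 => key c c h1 h2 (Or.inl le_rfl)
  · intro c h1 c' h2 a
    rcases sd_adj.1 a with h | h
    · exact key c c' h1 h2 (Or.inl h.le)
    · exact key c c' h1 h2 (Or.inr h.le)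
  · rw [Set.disjoint_left]
    rintro c ⟨h1, -⟩ ⟨-, u, hu, huM⟩
    rcases h1 u hu with h | h
    · exact huM (pl_mono hDM h.2)
    · exact huM (pl_mono hDM h.1)
  · rw [Set.disjoint_left]
    rintro c ⟨h1, -⟩ ⟨-, u, hu, huM⟩
    rcases h1 u hu with h | h
    · exact huM (pl_mono hDM h.2)
    · exact huM (pl_mono hDM h.1)

theorem curve_sub (hD : D ⊆ M ∩ Q) (hn : NAdj G D ((M ∩ Q) \ D)) :
    FrIn (sd G) (mi G Q) (sheet G Q D) ⊆ Fr (sd G) (pl G M) := by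
  have hDM : D ⊆ M := fun x hx => (hD hx).1
  rintro c ⟨⟨hcQ, s, hs, hss⟩, t, ht, hts⟩
  refine ⟨⟨s, hs, pl_mono hDM hss.2⟩, t, ht, fun htM => ?_⟩
  obtain ⟨x, hx, hxM⟩ := htM
  obtain ⟨y, hy, hyD⟩ := hss.2
  have htQ : t ∈ mi G Q := hcQ t ht
  have hne : s ≠ t := fun e => hts (e ▸ hss)
  rcases chain_cmp hs ht hne with h | h
  · exact hts ⟨htQ, y, lts h hy, hyD⟩
  · exact hts ⟨htQ, x, hx, clos hn (lts h hx) hy hyD hxM (htQ x hx)⟩

end MOT
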