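import Pool.Agent.MOT.Pl

/-!
# MOT/FnA: scalar PL functions on the whole space; maps with PL coordinates (helper90)
-/

open Classical

noncomputable section

namespace MOT

section

variable {E : Type} [AddCommGroup E] [Module ℝ E] [TopologicalSpace E]

/-- continuous selection of finitely many affine functions on the whole space -/
def PSc (f : E → ℝ) : Prop :=
  Continuous f ∧ ∃ S : Set (E →ᵃ[ℝ] ℝ), S.Finite ∧ ∀ x, ∃ A ∈ S, f x = A x

theorem PSc.affine (A : E →ᵃ[ℝ] ℝ) (hA : Continuous A) : PSc (fun x => A x) :=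
  ⟨hA, {A}, Set.finite_singleton _, fun _ => ⟨A, rfl, rfl⟩⟩

theorem PSc.const (c : ℝ) : PSc (fun _ : E => c) :=
  ⟨continuous_const, {AffineMap.const ℝ E c}, Set.finite_singleton _, fun _ => ⟨_, rfl, rfl⟩⟩

theorem PSc.add {f g : E → ℝ} (hf : PSc f) (hg : PSc g) : PSc (fun x => f x + g x) := by
  obtain ⟨cf, S, hS, h1⟩ := hf
  obtain ⟨cg, T, hT, h2⟩ := hg
  refine ⟨cf.add cg, Set.image2 (fun A B => A + B) S T, Set.Finite.image2 _ hS hT, fun x => ?_⟩
  obtain ⟨A, hA, hA'⟩ := h1 x
  obtain ⟨B, hB, hB'⟩ := h2 x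
  refine ⟨_, Set.mem_image2_of_mem hA hB, ?_⟩
  show f x + g x = A x + B x
  rw [hA', hB']

theorem PSc.smul (c : ℝ) {f : E → ℝ} (hf : PSc f) : PSc (fun x => c * f x) := by
  obtain ⟨cf, S, hS, h1⟩ := hf
  refine ⟨continuous_const.mul cf, (fun A => c • A) '' S, hS.image _, fun x => ?_⟩
  obtain ⟨A, hA, hA'⟩ := h1 x
  refine ⟨_, Set.mem_image_of_mem _ hA, ?_⟩
  show c * f x = c * A x
  rw [hA']

theorem PSc.neg {f : E → ℝ} (hf : PSc f) : PSc (fun x => - f x) := by
  have := hf.smul (-1)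
  simpa only [neg_one_mul] using this

theorem PSc.sub {f g : E → ℝ} (hf : PSc f) (hg : PSc g) : PSc (fun x => f x - g x) := by
  simpa only [sub_eq_add_neg] using hf.add hg.neg

theorem PSc.max {f g : E → ℝ} (hf : PSc f) (hg : PSc g) : PSc (fun x => max (f x) (g x)) := by
  obtain ⟨cf, S, hS, h1⟩ := hf
  obtain ⟨cg, T, hT, h2⟩ := hg
  refine ⟨cf.max cg, S ∪ T, hS.union hT, fun x => ?_⟩
  rcases le_total (f x) (g x) with h | h
  · obtain ⟨B, hB, hB'⟩ := h2 x
    exact ⟨B, Or.inr hB, (max_eq_right h).trans hB'⟩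
  · obtain ⟨A, hA, hA'⟩ := h1 x
    exact ⟨A, Or.inl hA, (max_eq_left h).trans hA'⟩

theorem PSc.min {f g : E → ℝ} (hf : PSc f) (hg : PSc g) : PSc (fun x => min (f x) (g x)) := by
  obtain ⟨cf, S, hS, h1⟩ := hf
  obtain ⟨cg, T, hT, h2⟩ := hg
  refine ⟨cf.min cg, S ∪ T, hS.union hT, fun x => ?_⟩
  rcases le_total (f x) (g x) with h | h
  · obtain ⟨A, hA, hA'⟩ := h1 x
    exact ⟨A, Or.inl hA, (min_eq_left h).trans hA'⟩
  · obtain ⟨B, hB, hB'⟩ := h2 x
    exact ⟨B, Or.inr hB, (min_eq_right h).trans hB'⟩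

theorem PSc.abs {f : E → ℝ} (hf : PSc f) : PSc (fun x => |f x|) := by
  have := hf.max hf.neg
  exact this

theorem PSc.sum {ι : Type} (s : Finset ι) {f : ι → E → ℝ} (hf : ∀ i ∈ s, PSc (f i)) :
    PSc (fun x => ∑ i ∈ s, f i x) := by
  induction s using Finset.induction_on with
  | empty => simpa only [Finset.sum_empty] using PSc.const 0
  | insert a s ha ih =>
    simp only [Finset.sum_insert ha]
    exact (hf a (Finset.mem_insert_self a s)).add
      (ih fun i hi => hf i (Finset.mem_insert_of_mem hi))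

theorem PSc.sup' {ι : Type} (s : Finset ι) (hs : s.Nonempty) {f : ι → E → ℝ}
    (hf : ∀ i ∈ s, PSc (f i)) : PSc (fun x => s.sup' hs (fun i => f i x)) := by
  induction hs using Finset.Nonempty.cons_induction with
  | singleton a => simpa only [Finset.sup'_singleton] using hf a (Finset.mem_singleton_self a)
  | cons a s h hs ih =>
    simp only [Finset.sup'_cons hs]
    exact (hf a (Finset.mem_cons_self a s)).max
      (ih fun i hi => hf i (Finset.mem_cons_of_mem hi))

theorem PSc.inf' {ι : Type} (s : Finset ι) (hs : s.Nonempty) {f : ι → E → ℝ}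
    (hf : ∀ i ∈ s, PSc (f i)) : PSc (fun x => s.inf' hs (fun i => f i x)) := by
  induction hs using Finset.Nonempty.cons_induction with
  | singleton a => simpa only [Finset.inf'_singleton] using hf a (Finset.mem_singleton_self a)
  | cons a s h hs ih =>
    simp only [Finset.inf'_cons hs]
    exact (hf a (Finset.mem_cons_self a s)).min
      (ih fun i hi => hf i (Finset.mem_cons_of_mem hi))

/-- a map with PL coordinates is PL -/
theorem PLOn_pi {W : Type} [Finite W] {F : E → W → ℝ} (h : ∀ w, PSc (fun x => F x w))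
    (X : Set E) : PLOn F X := by
  refine ⟨(continuous_pi fun w => (h w).1).continuousOn, ?_⟩
  choose S hS h2 using fun w => (h w).2
  refine ⟨(fun φ : W → (E →ᵃ[ℝ] ℝ) => AffineMap.pi φ) '' {φ | ∀ w, φ w ∈ S w},
    (Set.Finite.pi' hS).image _, fun x _ => ?_⟩
  choose A hA hA' using fun w => h2 w x
  refine ⟨AffineMap.pi A, ⟨A, hA, rfl⟩, ?_⟩
  funext w
  rw [AffineMap.pi_apply]
  exact hA' w

end

/-- coordinates are scalar PL functions -/
theorem PSc.coord {V : Type} (v : V) : PSc (fun c : V → ℝ => c v) :=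
  PSc.affine (LinearMap.proj (R := ℝ) (φ := fun _ : V => ℝ) v).toAffineMap (continuous_apply v)

end MOT
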