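import Pool.Agent.MOT.FnD

/-!
# MOT/FnB: the coordinate changes are PL; the near part of level `n` is the octahedron (helper90)
-/

open Classical

noncomputable section

namespace MOT.Fn

section

variable {V : Type} [Finite V] {G : SimpleGraph V}

theorem psc_rmx (s : Finset V) : PSc (fun c : V → ℝ => rmx c s) := by
  have := Fintype.ofFinite V
  by_cases hV : Nonempty V
  · have e : (fun c : V → ℝ => rmx c s) = fun c : V → ℝ =>
        Finset.univ.sup' Finset.univ_nonempty fun y : V => if y ∈ s then 0 else c y := by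
      funext c
      exact (Finset.sup'_univ_eq_ciSup _).symm
    rw [e]
    refine PSc.sup' Finset.univ Finset.univ_nonempty (f := fun (y : V) (c : V → ℝ) =>
      if y ∈ s then 0 else c y) fun y _ => ?_
    by_cases hy : y ∈ s
    · simp only [if_pos hy]; exact PSc.const 0
    · simp only [if_neg hy]; exact PSc.coord y
  · have e : (fun c : V → ℝ => rmx c s) = fun _ => 0 := by
      funext c
      have : IsEmpty V := not_nonempty_iff.mp hV
      exact Real.iSup_of_isEmpty _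
    rw [e]
    exact PSc.const 0

theorem psc_rup (s : Cq G) : PSc (fun c : V → ℝ => rup G c s) := by
  have h1 : PSc (fun c : V → ℝ => s.1.inf' s.2.1 c) :=
    PSc.inf' s.1 s.2.1 (f := fun (x : V) (c : V → ℝ) => c x) fun x _ => PSc.coord x
  exact ((PSc.const 0).max (h1.sub (psc_rmx s.1))).smul (s.1.card : ℝ)

theorem psc_rdn (x : V) : PSc (fun c : Cq G → ℝ => rdn G c x) := by
  have := Fintype.ofFinite (Cq G)
  have e : (fun c : Cq G → ℝ => rdn G c x) = fun c : Cq G → ℝ =>
      ∑ s : Cq G, if x ∈ s.1 then c s / (s.1.card : ℝ) else 0 := by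
    funext c
    exact finsum_eq_sum_of_fintype _
  rw [e]
  refine PSc.sum Finset.univ (f := fun (s : Cq G) (c : Cq G → ℝ) =>
    if x ∈ s.1 then c s / (s.1.card : ℝ) else 0) fun s _ => ?_
  by_cases hs : x ∈ s.1
  · simp only [if_pos hs, div_eq_inv_mul]; exact (PSc.coord s).smul _
  · simp only [if_neg hs]; exact PSc.const 0

theorem pl_rup (X : Set (V → ℝ)) : PLOn (rup G) X := PLOn_pi (fun s => psc_rup s) X

theorem pl_rdn (X : Set (Cq G → ℝ)) : PLOn (rdn G) X := PLOn_pi (fun x => psc_rdn x) X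

theorem rl_mono {A B : Set V} (h : A ⊆ B) : Rl G A ⊆ Rl G B := fun _ hc =>
  ⟨hc.1, hc.2.1, fun x hx => h (hc.2.2.1 x hx), hc.2.2.2⟩

theorem rl_re {A : Set V} {c : V → ℝ} (h : c ∈ Rl G A) : c ∈ Re G := rl_mono (Set.subset_univ A) h

theorem rup_near {A : Set V} {c : V → ℝ} (hc : c ∈ Rl G A) : rup G c ∈ Rl (sd G) (mi G A) := by
  have h := rup_mem (rl_re hc)
  refine ⟨h.1, h.2.1, fun s hs x hx => ?_, h.2.2.2⟩
  exact hc.2.2.1 x (pos_of_rup_ne hc.1 hs hx).ne'

theorem rdn_near {A : Set V} {d : Cq G → ℝ} (hd : d ∈ Rl (sd G) (mi G A)) : rdn G d ∈ Rl G A := by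
  have h := rdn_mem (rl_re hd)
  refine ⟨h.1, h.2.1, fun x hx => ?_, h.2.2.2⟩
  obtain ⟨s, hs, hs'⟩ := (rdn_ne hd.1).mp hx
  exact hd.2.2.1 s hs' x hs

end

variable {K : Lv}

theorem pl_co (X : Set (K.V → ℝ)) : ∀ n, PLOn (co K n) X
  | 0 => PLOn.id X
  | n + 1 => (pl_rup (G := (tw K n).G) Set.univ).comp (pl_co X n) (fun _ _ => trivial)

theorem pl_re : ∀ (n : ℕ) (X : Set ((tw K n).V → ℝ)), PLOn (re K n) X
  | 0, X => PLOn.id X
  | n + 1, X => (pl_re n Set.univ).comp (pl_rdn (G := (tw K n).G) X) (fun _ _ => trivial)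

theorem co_near {c : K.V → ℝ} (hc : c ∈ Rl K.G K.near) :
    ∀ n, co K n c ∈ Rl (tw K n).G (tw K n).near
  | 0 => hc
  | n + 1 => rup_near (co_near hc n)

theorem re_near : ∀ (n : ℕ) {c : (tw K n).V → ℝ}, c ∈ Rl (tw K n).G (tw K n).near →
    re K n c ∈ Rl K.G K.near
  | 0, _, hc => hc
  | n + 1, _, hc => re_near n (rdn_near hc)

theorem lin_succ (n : ℕ) (c : (tw K (n + 1)).V → ℝ) :
    lin K (n + 1) c = lin K n (rdn (tw K n).G c) := by
  have := Fintype.ofFinite (tw K n).V
  have hf : Fintype (Cq (tw K n).G) := Fintype.ofFinite _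
  have e1 : lin K (n + 1) c = ∑ s : Cq (tw K n).G, c s • ((s.1.card : ℝ)⁻¹ •
      ∑ x ∈ s.1, (tw K n).pos x) := finsum_eq_sum_of_fintype (α := Cq (tw K n).G) _
  have e2 : lin K n (rdn (tw K n).G c) = ∑ x, rdn (tw K n).G c x • (tw K n).pos x :=
    finsum_eq_sum_of_fintype _
  have e3 : ∀ x, rdn (tw K n).G c x = ∑ s : Cq (tw K n).G,
      if x ∈ s.1 then c s / (s.1.card : ℝ) else 0 := fun x => finsum_eq_sum_of_fintype _
  rw [e1, e2]
  simp only [e3, Finset.sum_smul]
  rw [Finset.sum_comm]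
  refine Finset.sum_congr rfl fun s _ => ?_
  rw [smul_smul, Finset.smul_sum, ← Finset.sum_filter_add_sum_filter_not Finset.univ
    (fun x => x ∈ s.1)]
  have h2 : ∑ x ∈ Finset.univ.filter (fun x => ¬ x ∈ s.1),
      (if x ∈ s.1 then c s / (s.1.card : ℝ) else 0) • (tw K n).pos x = 0 :=
    Finset.sum_eq_zero fun x hx => by
      rw [if_neg (Finset.mem_filter.mp hx).2, zero_smul]
  rw [h2, add_zero, Finset.filter_univ_mem]
  refine Finset.sum_congr rfl fun x hx => ?_
  rw [if_pos hx, div_eq_mul_inv]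

theorem lin_re : ∀ (n : ℕ) (c : (tw K n).V → ℝ), lin K n c = lin K 0 (re K n c)
  | 0, _ => rfl
  | n + 1, c => by
    rw [lin_succ, lin_re n]
    rfl

/-- the near part of level `n` and the octahedron -/
theorem plh_near {R : ℝ} (hR : 0 < R) (n : ℕ) :
    PLH (Rl (tw (cell16 R) n).G (tw (cell16 R) n).near) (Oct R) (lin (cell16 R) n)
      (fun p => co (cell16 R) n (ofR R p)) := by
  have h0 : PLH (Rl (tw (cell16 R) n).G (tw (cell16 R) n).near) (Rl (cell16 R).G (cell16 R).near)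
      (re (cell16 R) n) (co (cell16 R) n) := by
    refine ⟨pl_re n _, pl_co _ n, fun c hc => re_near n hc, fun c hc => co_near hc n, ?_, ?_⟩
    · intro c hc
      exact co_re n (rl_re hc)
    · intro c hc
      exact re_co (rl_re hc) n
  refine (h0.trans (plh_zero hR)).congr (fun c _ => ?_) (fun _ _ => rfl)
  rw [lin_re]
  exact lin_zero R _

end MOT.Fn
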