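import Pool.Agent.MOT.St2
import Pool.Agent.MOT.FnA

/-!
# MOT/FnC: the compactification `R^3 → Re (cell16 R)` (helper90)

`ofR R` is PL on the octahedron `Σ |p_i| ≤ R`, which is mapped onto the near part; the rest is mapped
onto the far part without the vertex `(0, true)` = infinity.
-/

open Classical

noncomputable section

namespace MOT.Fn

/-- norm of `p`, the octahedron is `sR ≤ 1` -/
def sR (R : ℝ) (p : Fin 3 → ℝ) : ℝ := (∑ i, |p i|) / R

/-- `max 1 sR` -/
def uR (R : ℝ) (p : Fin 3 → ℝ) : ℝ := max 1 (sR R p)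

/-- the embedding of `R^3` into the 16-cell -/
def ofR (R : ℝ) (p : Fin 3 → ℝ) : Fin 4 × Bool → ℝ := fun x =>
  (Fin.cons (fun b : Bool => if b then 1 - 1 / uR R p else max 0 (1 - sR R p))
    (fun j (b : Bool) => (if b then max 0 (p j) else max 0 (-p j)) / (R * (uR R p) ^ 2)) :
      Fin 4 → Bool → ℝ) x.1 x.2

/-- its inverse -/
def toR (R : ℝ) (c : Fin 4 × Bool → ℝ) : Fin 3 → ℝ := fun j =>
  R * (c (j.succ, true) - c (j.succ, false)) / (1 - c (0, true)) ^ 2

theorem ofR_zt (R : ℝ) (p : Fin 3 → ℝ) : ofR R p (0, true) = 1 - 1 / uR R p := rfl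

theorem ofR_zf (R : ℝ) (p : Fin 3 → ℝ) : ofR R p (0, false) = max 0 (1 - sR R p) := rfl

theorem ofR_st (R : ℝ) (p : Fin 3 → ℝ) (j : Fin 3) :
    ofR R p (j.succ, true) = max 0 (p j) / (R * (uR R p) ^ 2) := rfl

theorem ofR_sf (R : ℝ) (p : Fin 3 → ℝ) (j : Fin 3) :
    ofR R p (j.succ, false) = max 0 (-p j) / (R * (uR R p) ^ 2) := rfl

theorem uR_one_le (R : ℝ) (p : Fin 3 → ℝ) : 1 ≤ uR R p := le_max_left _ _

theorem uR_pos (R : ℝ) (p : Fin 3 → ℝ) : 0 < uR R p := lt_of_lt_of_le one_pos (uR_one_le R p)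

theorem sR_nonneg {R : ℝ} (hR : 0 < R) (p : Fin 3 → ℝ) : 0 ≤ sR R p :=
  div_nonneg (Finset.sum_nonneg fun i _ => abs_nonneg _) hR.le

theorem uR_of_le {R : ℝ} {p : Fin 3 → ℝ} (h : sR R p ≤ 1) : uR R p = 1 := max_eq_left h

theorem uR_of_ge {R : ℝ} {p : Fin 3 → ℝ} (h : 1 ≤ sR R p) : uR R p = sR R p := max_eq_right h

theorem max_add_max_neg (a : ℝ) : max 0 a + max 0 (-a) = |a| := by
  rcases le_total 0 a with h | h
  · rw [max_eq_right h, max_eq_left (by linarith), abs_of_nonneg h, add_zero]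
  · rw [max_eq_left h, max_eq_right (by linarith), abs_of_nonpos h, zero_add]

theorem max_sub_max_neg (a : ℝ) : max 0 a - max 0 (-a) = a := by
  rcases le_total 0 a with h | h
  · rw [max_eq_right h, max_eq_left (by linarith), sub_zero]
  · rw [max_eq_left h, max_eq_right (by linarith)]; ring

/-- sums over the vertices of the 16-cell -/
theorem sum_cell (c : Fin 4 × Bool → ℝ) :
    ∑ᶠ x, c x = c (0, true) + c (0, false) + ∑ j : Fin 3, (c (j.succ, true) + c (j.succ, false)) := by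
  rw [finsum_eq_sum_of_fintype, Fintype.sum_prod_type, Fin.sum_univ_succ]
  simp only [Fintype.sum_bool]

theorem ofR_sum {R : ℝ} (hR : 0 < R) (p : Fin 3 → ℝ) : ∑ᶠ x, ofR R p x = 1 := by
  rw [sum_cell, ofR_zt, ofR_zf]
  have hu := uR_pos R p
  have h1 : ∑ j : Fin 3, (ofR R p (j.succ, true) + ofR R p (j.succ, false)) =
      sR R p / (uR R p) ^ 2 := by
    have h2 : ∀ j : Fin 3, ofR R p (j.succ, true) + ofR R p (j.succ, false) =
        |p j| / (R * (uR R p) ^ 2) := fun j => by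
      rw [ofR_st, ofR_sf, ← add_div, max_add_max_neg]
    rw [Finset.sum_congr rfl fun j _ => h2 j, ← Finset.sum_div, sR, div_div]
  rw [h1]
  rcases le_total (sR R p) 1 with h | h
  · rw [uR_of_le h, max_eq_right (by linarith)]; ring
  · rw [uR_of_ge h, max_eq_left (by linarith)]
    have : sR R p ≠ 0 := by linarith
    field_simp
    ring

theorem ofR_nonneg {R : ℝ} (hR : 0 < R) (p : Fin 3 → ℝ) (x : Fin 4 × Bool) : 0 ≤ ofR R p x := by
  obtain ⟨i, b⟩ := x
  have hu := uR_pos R p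
  refine Fin.cases ?_ (fun j => ?_) i
  · cases b
    · rw [ofR_zf]; exact le_max_left _ _
    · rw [ofR_zt, sub_nonneg, div_le_one hu]; exact uR_one_le R p
  · cases b
    · rw [ofR_sf]; positivity
    · rw [ofR_st]; positivity

/-- opposite vertices are never both used -/
theorem ofR_opp {R : ℝ} (p : Fin 3 → ℝ) (i : Fin 4) (h1 : ofR R p (i, true) ≠ 0)
    (h2 : ofR R p (i, false) ≠ 0) : False := by
  revert h1 h2
  refine Fin.cases ?_ (fun j => ?_) i
  · intro h1 h2
    rw [ofR_zt] at h1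
    rw [ofR_zf] at h2
    rcases le_total (sR R p) 1 with h | h
    · rw [uR_of_le h] at h1
      exact h1 (by norm_num)
    · exact h2 (max_eq_left (by linarith))
  · intro h1 h2
    rw [ofR_st] at h1
    rw [ofR_sf] at h2
    rcases le_total 0 (p j) with h | h
    · exact h2 (by rw [max_eq_left (by linarith), zero_div])
    · exact h1 (by rw [max_eq_left h, zero_div])

/-- the graph of the 16-cell -/
def GO : SimpleGraph (Fin 4 × Bool) where
  Adj := fun x y => x.1 ≠ y.1
  symm := ⟨fun _ _ h => Ne.symm h⟩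
  loopless := ⟨fun _ h => h rfl⟩

theorem cell_mem {A : Set (Fin 4 × Bool)} {c : Fin 4 × Bool → ℝ} :
    c ∈ Rl GO A ↔ (∀ x, 0 ≤ c x) ∧ (∑ᶠ x, c x = 1) ∧ (∀ x, c x ≠ 0 → x ∈ A) ∧
      ∀ i, c (i, true) = 0 ∨ c (i, false) = 0 := by
  constructor
  · rintro ⟨h1, h2, h3, h4⟩
    refine ⟨h1, h2, h3, fun i => ?_⟩
    by_contra hcon
    push Not at hcon
    exact h4 (i, true) (i, false) hcon.1 hcon.2 (by simp) rfl
  · rintro ⟨h1, h2, h3, h4⟩
    refine ⟨h1, h2, h3, fun x y hx hy hxy => ?_⟩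
    obtain ⟨i, b⟩ := x
    obtain ⟨j, b'⟩ := y
    show i ≠ j
    rintro rfl
    have hb : b ≠ b' := fun h => hxy (by rw [h])
    rcases h4 i with h | h
    · cases b <;> cases b' <;> simp_all
    · cases b <;> cases b' <;> simp_all

theorem ofR_mem {R : ℝ} (hR : 0 < R) (p : Fin 3 → ℝ) : ofR R p ∈ Re GO := by
  rw [cell_mem]
  refine ⟨ofR_nonneg hR p, ofR_sum hR p, fun _ _ => Set.mem_univ _, fun i => ?_⟩
  by_contra hcon
  push Not at hcon
  exact ofR_opp p i hcon.1 hcon.2

theorem ofR_near {R : ℝ} (hR : 0 < R) {p : Fin 3 → ℝ} (h : sR R p ≤ 1) :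
    ofR R p ∈ Rl GO {x | x ≠ (0, true)} := by
  have h1 := cell_mem.mp (ofR_mem hR p)
  refine cell_mem.mpr ⟨h1.1, h1.2.1, fun x hx => ?_, h1.2.2.2⟩
  show x ≠ (0, true)
  rintro rfl
  rw [ofR_zt, uR_of_le h] at hx
  exact hx (by norm_num)

theorem ofR_ne {R : ℝ} (p : Fin 3 → ℝ) : ofR R p (0, true) ≠ 1 := by
  rw [ofR_zt]
  have : 0 < 1 / uR R p := one_div_pos.mpr (uR_pos R p)
  linarith

theorem toR_ofR {R : ℝ} (hR : 0 < R) (p : Fin 3 → ℝ) : toR R (ofR R p) = p := by
  funext j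
  rw [toR, ofR_st, ofR_sf, ofR_zt, ← sub_div, max_sub_max_neg]
  have hu := uR_pos R p
  have h1 : (1 : ℝ) - (1 - 1 / uR R p) = 1 / uR R p := by ring
  rw [h1]
  field_simp

theorem le_one_of_mem {V : Type} [Finite V] {G : SimpleGraph V} {A : Set V} {c : V → ℝ}
    (hc : c ∈ Rl G A) (x : V) : c x ≤ 1 := by
  rw [← hc.2.1]
  exact single_le_finsum x (Set.toFinite _) hc.1

theorem ofR_toR {R : ℝ} (hR : 0 < R) {c : Fin 4 × Bool → ℝ} (hc : c ∈ Re GO)
    (h1 : c (0, true) ≠ 1) : ofR R (toR R c) = c := by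
  obtain ⟨h0, hs, -, ho⟩ := cell_mem.mp hc
  have ht : c (0, true) ≤ 1 := le_one_of_mem hc _
  have ht' : 0 < 1 - c (0, true) := by
    have := lt_of_le_of_ne ht h1
    linarith
  rw [sum_cell] at hs
  set t := c (0, true) with htdef
  have habs : ∀ j, |toR R c j| = R * (c (j.succ, true) + c (j.succ, false)) / (1 - t) ^ 2 := by
    intro j
    rw [toR, ← htdef, abs_div, abs_mul, abs_of_pos hR, abs_of_pos (pow_pos ht' 2)]
    congr 2
    rcases ho j.succ with h | h
    · rw [h, zero_sub, zero_add, abs_neg, abs_of_nonneg (h0 _)]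
    · rw [h, sub_zero, add_zero, abs_of_nonneg (h0 _)]
  have hsR : sR R (toR R c) = (1 - t - c (0, false)) / (1 - t) ^ 2 := by
    rw [sR, Finset.sum_congr rfl fun j _ => habs j, ← Finset.sum_div, ← Finset.mul_sum]
    have : ∑ j : Fin 3, (c (j.succ, true) + c (j.succ, false)) = 1 - t - c (0, false) := by linarith
    rw [this]
    field_simp
  have hp : ∀ j, max 0 (toR R c j) = R * c (j.succ, true) / (1 - t) ^ 2 ∧
      max 0 (-toR R c j) = R * c (j.succ, false) / (1 - t) ^ 2 := by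
    intro j
    have e : toR R c j = R * (c (j.succ, true) - c (j.succ, false)) / (1 - t) ^ 2 := rfl
    rcases ho j.succ with h | h
    · have e1 : toR R c j = -(R * c (j.succ, false) / (1 - t) ^ 2) := by rw [e, h]; ring
      have e2 : 0 ≤ R * c (j.succ, false) / (1 - t) ^ 2 :=
        div_nonneg (mul_nonneg hR.le (h0 _)) (by positivity)
      rw [e1, neg_neg, h, max_eq_left (by linarith), max_eq_right e2]
      exact ⟨by ring, rfl⟩
    · have e1 : toR R c j = R * c (j.succ, true) / (1 - t) ^ 2 := by rw [e, h]; ring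
      have e2 : 0 ≤ R * c (j.succ, true) / (1 - t) ^ 2 :=
        div_nonneg (mul_nonneg hR.le (h0 _)) (by positivity)
      rw [e1, h, max_eq_right e2, max_eq_left (by linarith)]
      exact ⟨rfl, by ring⟩
  have hu : uR R (toR R c) = 1 / (1 - t) ∧ max 0 (1 - sR R (toR R c)) = c (0, false) := by
    rcases ho 0 with h | h
    · have ht0 : t = 0 := h
      rw [ht0] at hsR ⊢
      have e : sR R (toR R c) = 1 - c (0, false) := by rw [hsR]; ring
      have e0 := h0 (0, false)
      refine ⟨?_, ?_⟩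
      · rw [uR_of_le (by rw [e]; linarith)]; norm_num
      · rw [e, max_eq_right (by linarith)]; ring
    · rw [h] at hsR ⊢
      have e : sR R (toR R c) = 1 / (1 - t) := by rw [hsR]; field_simp; ring
      have e1 : 1 ≤ 1 / (1 - t) := by
        rw [le_div_iff₀ ht']
        have := h0 (0, true)
        linarith
      refine ⟨by rw [uR_of_ge (by rw [e]; exact e1), e], ?_⟩
      rw [e, max_eq_left (by linarith)]
  funext x
  obtain ⟨i, b⟩ := x
  refine Fin.cases ?_ (fun j => ?_) i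
  · cases b
    · rw [ofR_zf, hu.2]
    · rw [ofR_zt, hu.1, one_div_one_div]; ring
  · cases b
    · rw [ofR_sf, hu.1, (hp j).2]; field_simp
    · rw [ofR_st, hu.1, (hp j).1]; field_simp

/-- `lin` on level 0 -/
def lin0 (R : ℝ) (c : Fin 4 × Bool → ℝ) : Fin 3 → ℝ := fun j =>
  R * (c (j.succ, true) - c (j.succ, false))

theorem lin_zero (R : ℝ) (c : Fin 4 × Bool → ℝ) : lin (cell16 R) 0 c = lin0 R c := by
  let ps : Fin 4 × Bool → Fin 3 → ℝ := fun x j =>
    if x.1 = j.succ then (if x.2 then R else -R) else 0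
  have h : lin (cell16 R) 0 c = ∑ x : Fin 4 × Bool, c x • ps x :=
    finsum_eq_sum_of_fintype (fun x : Fin 4 × Bool => c x • ps x)
  rw [h]
  funext j
  rw [Finset.sum_apply, Fintype.sum_prod_type, Finset.sum_eq_single j.succ]
  · simp only [Fintype.sum_bool, Pi.smul_apply, smul_eq_mul, ps, lin0, if_true,
      Bool.false_eq_true, if_false]
    ring
  · intro i _ hi
    simp only [Fintype.sum_bool, Pi.smul_apply, smul_eq_mul, ps, if_neg hi]
    ring
  · intro h
    exact absurd (Finset.mem_univ _) h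

/-- on the near part, `lin` is the inverse of `ofR` -/
theorem lin0_toR {R : ℝ} {c : Fin 4 × Bool → ℝ} (h : c (0, true) = 0) :
    lin0 R c = toR R c := by
  funext j
  rw [lin0, toR, h]
  ring

end MOT.Fn
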