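import Pool.Agent.MOT.FnC

/-!
# MOT/FnD: the near part is PL homeomorphic to the octahedron; a homeomorphism of `R^3` gives a
homeomorphism of the 16-cell (helper90)
-/

open Classical

noncomputable section

namespace MOT.Fn

/-! ## the near part -/

/-- the octahedron of radius `R` -/
def Oct (R : ℝ) : Set (Fin 3 → ℝ) := {p | sR R p ≤ 1}

/-- `lin0` and `ofR` are mutually inverse between the near part and the octahedron -/
theorem plh_zero {R : ℝ} (hR : 0 < R) :
    PLH (Rl GO {x | x ≠ (0, true)}) (Oct R) (lin0 R) (ofR R) := by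
  have hz : ∀ c ∈ Rl GO {x : Fin 4 × Bool | x ≠ (0, true)}, c (0, true) = 0 := by
    intro c hc
    by_contra h
    exact hc.2.2.1 _ h rfl
  have hre : ∀ c ∈ Rl GO {x : Fin 4 × Bool | x ≠ (0, true)}, c ∈ Re GO := fun c hc =>
    ⟨hc.1, hc.2.1, fun _ _ => Set.mem_univ _, hc.2.2.2⟩
  have hgf : ∀ c ∈ Rl GO {x : Fin 4 × Bool | x ≠ (0, true)}, ofR R (lin0 R c) = c := by
    intro c hc
    rw [lin0_toR (hz c hc)]
    exact ofR_toR hR (hre c hc) (by rw [hz c hc]; norm_num)
  refine ⟨?_, ?_, ?_, ?_, hgf, ?_⟩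
  · refine PLOn_pi (fun j => ?_) _
    exact ((PSc.coord (j.succ, true)).sub (PSc.coord (j.succ, false))).smul R
  · have h : PLOn (fun (p : Fin 3 → ℝ) (x : Fin 4 × Bool) =>
        (Fin.cons (fun b : Bool => if b then 0 else 1 - R⁻¹ * ∑ i, |p i|)
          (fun j (b : Bool) => R⁻¹ * (if b then max 0 (p j) else max 0 (-p j))) :
            Fin 4 → Bool → ℝ) x.1 x.2) (Oct R) := by
      refine PLOn_pi (fun x => ?_) _
      obtain ⟨i, b⟩ := x
      refine Fin.cases ?_ (fun j => ?_) i
      · cases b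
        · exact (PSc.const 1).sub ((PSc.sum Finset.univ fun i _ => (PSc.coord i).abs).smul R⁻¹)
        · exact PSc.const 0
      · cases b
        · exact ((PSc.const 0).max (PSc.coord j).neg).smul R⁻¹
        · exact ((PSc.const 0).max (PSc.coord j)).smul R⁻¹
    refine h.congr fun p hp => ?_
    have hp' : sR R p ≤ 1 := hp
    funext x
    obtain ⟨i, b⟩ := x
    refine Fin.cases ?_ (fun j => ?_) i
    · cases b
      · rw [ofR_zf, max_eq_right (by linarith)]
        show 1 - sR R p = 1 - R⁻¹ * ∑ i, |p i|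
        rw [sR, div_eq_inv_mul]
      · rw [ofR_zt, uR_of_le hp']
        show (1 : ℝ) - 1 / 1 = 0
        norm_num
    · cases b
      · rw [ofR_sf, uR_of_le hp']
        show max 0 (-p j) / (R * 1 ^ 2) = R⁻¹ * max 0 (-p j)
        rw [one_pow, mul_one, div_eq_inv_mul]
      · rw [ofR_st, uR_of_le hp']
        show max 0 (p j) / (R * 1 ^ 2) = R⁻¹ * max 0 (p j)
        rw [one_pow, mul_one, div_eq_inv_mul]
  · intro c hc
    show sR R (lin0 R c) ≤ 1
    by_contra hcon
    push Not at hcon
    have h1 := hgf c hc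
    have h2 : ofR R (lin0 R c) (0, true) = 0 := by rw [h1]; exact hz c hc
    rw [ofR_zt, uR_of_ge hcon.le] at h2
    have h3 : 1 / sR R (lin0 R c) < 1 := by
      rw [div_lt_one (by linarith)]; exact hcon
    linarith
  · intro p hp
    exact ofR_near hR hp
  · intro p hp
    rw [lin0_toR (hz _ (ofR_near hR hp))]
    exact toR_ofR hR p

/-! ## topology -/

theorem isCompact_Rl {V : Type} [Finite V] (G : SimpleGraph V) (A : Set V) :
    IsCompact (Rl G A) := by
  have : Fintype V := Fintype.ofFinite V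
  have h1 : Rl G A ⊆ Set.Icc 0 1 := fun c hc => ⟨fun x => hc.1 x, fun x => le_one_of_mem hc x⟩
  refine isCompact_Icc.of_isClosed_subset ?_ h1
  have h2 : Rl G A = {c | ∀ x, 0 ≤ c x} ∩ ({c | ∑ x, c x = 1} ∩ ({c | ∀ x, x ∉ A → c x = 0} ∩
      {c | ∀ x y, (x ≠ y ∧ ¬ G.Adj x y) → c x * c y = 0})) := by
    ext c
    constructor
    · rintro ⟨a, b, d, e⟩
      refine ⟨a, (finsum_eq_sum_of_fintype c).symm.trans b, fun x hx => ?_, fun x y hxy => ?_⟩
      · by_contra h
        exact hx (d x h)
      · by_contra h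
        rw [mul_eq_zero, not_or] at h
        exact hxy.2 (e x y h.1 h.2 hxy.1)
    · rintro ⟨a, b, d, e⟩
      refine ⟨a, (finsum_eq_sum_of_fintype c).trans b, fun x hx => ?_, fun x y hx hy hxy => ?_⟩
      · by_contra h
        exact hx (d x h)
      · by_contra h
        exact (mul_ne_zero hx hy) (e x y ⟨hxy, h⟩)
  rw [h2]
  refine IsClosed.inter ?_ (IsClosed.inter ?_ (IsClosed.inter ?_ ?_))
  · simp only [Set.ofPred_forall]
    exact isClosed_iInter fun x => isClosed_le continuous_const (continuous_apply x)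
  · exact isClosed_eq (continuous_finsetSum _ fun x _ => continuous_apply x) continuous_const
  · simp only [Set.ofPred_forall]
    exact isClosed_iInter fun x => isClosed_iInter fun _ =>
      isClosed_eq (continuous_apply x) continuous_const
  · simp only [Set.ofPred_forall]
    exact isClosed_iInter fun x => isClosed_iInter fun y => isClosed_iInter fun _ =>
      isClosed_eq ((continuous_apply x).mul (continuous_apply y)) continuous_const

theorem ofR_cont {R : ℝ} (hR : 0 < R) : Continuous (ofR R) := by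
  have hs : Continuous (sR R) :=
    (continuous_finsetSum _ fun i _ => (continuous_apply i).abs).div_const R
  have hu : Continuous (uR R) := continuous_const.max hs
  refine continuous_pi fun x => ?_
  obtain ⟨i, b⟩ := x
  refine Fin.cases ?_ (fun j => ?_) i
  · cases b
    · exact continuous_const.max (continuous_const.sub hs)
    · exact continuous_const.sub (continuous_const.div hu fun p => (uR_pos R p).ne')
  · cases b
    · exact (continuous_const.max (continuous_apply j).neg).div
        (continuous_const.mul (hu.pow 2)) fun p => by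
          have := uR_pos R p
          positivity
    · exact (continuous_const.max (continuous_apply j)).div
        (continuous_const.mul (hu.pow 2)) fun p => by
          have := uR_pos R p
          positivity

theorem toR_cont (R : ℝ) : ContinuousOn (toR R) {c | c (0, true) ≠ 1} := by
  refine continuousOn_pi.mpr fun j => ?_
  have ca : ∀ x : Fin 4 × Bool, Continuous fun c : Fin 4 × Bool → ℝ => c x := fun x =>
    continuous_apply x
  refine ContinuousOn.div ?_ ?_ ?_
  · exact (continuous_const.mul ((ca _).sub (ca _))).continuousOn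
  · exact ((continuous_const.sub (ca _)).pow 2).continuousOn
  · intro c hc
    have : (1 : ℝ) - c (0, true) ≠ 0 := sub_ne_zero.mpr (Ne.symm hc)
    exact pow_ne_zero 2 this

/-- the vertex infinity -/
def infR : ↥(Re GO) := ⟨dlt (0, true), dlt_mem trivial⟩

theorem eq_dlt {c : Fin 4 × Bool → ℝ} (hc : c ∈ Re GO) (h : c (0, true) = 1) :
    c = dlt (0, true) := by
  funext x
  unfold dlt
  split_ifs with hx
  · rw [hx, h]
  · have h1 : ∑ x, c x = 1 := (finsum_eq_sum_of_fintype c).symm.trans hc.2.1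
    rw [← Finset.add_sum_erase Finset.univ c (Finset.mem_univ (0, true)), h] at h1
    have h2 : ∑ x ∈ Finset.univ.erase ((0 : Fin 4), true), c x = 0 := by linarith
    exact (Finset.sum_eq_zero_iff_of_nonneg fun i _ => hc.1 i).mp h2 x
      (Finset.mem_erase.mpr ⟨hx, Finset.mem_univ x⟩)

/-- `R^3` and the 16-cell without the vertex infinity -/
def eR {R : ℝ} (hR : 0 < R) :
    (Fin 3 → ℝ) ≃ₜ {c : ↥(Re GO) // c ≠ infR} where
  toFun p := ⟨⟨ofR R p, ofR_mem hR p⟩, fun h => by
    have h1 : ofR R p = dlt (0, true) := congrArg Subtype.val h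
    exact ofR_ne (R := R) p (by rw [h1]; unfold dlt; exact if_pos rfl)⟩
  invFun c := toR R c.1.1
  left_inv p := toR_ofR hR p
  right_inv c := by
    apply Subtype.ext
    apply Subtype.ext
    refine ofR_toR hR c.1.2 fun h => c.2 ?_
    exact Subtype.ext (eq_dlt c.1.2 h)
  continuous_toFun := by
    refine Continuous.subtype_mk (Continuous.subtype_mk (ofR_cont hR) _) _
  continuous_invFun := by
    refine (toR_cont R).comp_continuous
      (continuous_subtype_val.comp continuous_subtype_val) fun c h => c.2 ?_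
    exact Subtype.ext (eq_dlt c.1.2 h)

/-- the homeomorphism of the 16-cell given by a homeomorphism of `R^3` -/
theorem exists_homeo {R R' : ℝ} (hR : 0 < R) (hR' : 0 < R') (h : (Fin 3 → ℝ) ≃ₜ (Fin 3 → ℝ)) :
    ∃ F : ↥(Re GO) ≃ₜ ↥(Re GO), ∀ p, F ⟨ofR R p, ofR_mem hR p⟩ = ⟨ofR R' (h p), ofR_mem hR' (h p)⟩ := by
  have : CompactSpace ↥(Re GO) := isCompact_iff_compactSpace.mp (isCompact_Rl GO Set.univ)
  have key : ∀ {R : ℝ} (hR : 0 < R), ∃ e : OnePoint (Fin 3 → ℝ) ≃ₜ ↥(Re GO),
      ∀ p : Fin 3 → ℝ, e (p : OnePoint (Fin 3 → ℝ)) = ⟨ofR R p, ofR_mem hR p⟩ := by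
    intro R hR
    have h1 : Topology.IsEmbedding (fun p : Fin 3 → ℝ => ((eR hR p).1 : ↥(Re GO))) :=
      Topology.IsEmbedding.subtypeVal.comp (eR hR).isEmbedding
    have h2 : Set.range (fun p : Fin 3 → ℝ => ((eR hR p).1 : ↥(Re GO))) =
        {infR}ᶜ := by
      ext c
      constructor
      · rintro ⟨p, rfl⟩
        exact (eR hR p).2
      · intro hc
        refine ⟨(eR hR).symm ⟨c, hc⟩, ?_⟩
        show ((eR hR ((eR hR).symm ⟨c, hc⟩)).1 : ↥(Re GO)) = c
        rw [Homeomorph.apply_symm_apply]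
    exact ⟨OnePoint.equivOfIsEmbeddingOfRangeEq _ _ h1 h2, fun p =>
      OnePoint.equivOfIsEmbeddingOfRangeEq_apply_coe _ _ h1 h2 p⟩
  obtain ⟨e, he⟩ := key hR
  obtain ⟨e', he'⟩ := key hR'
  refine ⟨(e.symm.trans h.onePointCongr).trans e', fun p => ?_⟩
  have h1 : e.symm ⟨ofR R p, ofR_mem hR p⟩ = (p : OnePoint (Fin 3 → ℝ)) := by
    rw [← he p, Homeomorph.symm_apply_apply]
  show e' (h.onePointCongr (e.symm ⟨ofR R p, ofR_mem hR p⟩)) = _
  rw [h1]
  exact he' (h p)

end MOT.Fn
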