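import Pool.Agent.MOT.FnB
import Pool.Agent.MOT.ExtC

/-!
# MOT/FnE: from the PL homeomorphism of the patterns to a PL embedding of the cube close to `h`
(helper90)

Domain: 16-cell of radius `8`, level `n`; range: 16-cell of radius `R'`, level `m`.  `D a`, `E a`: cells
of the two patterns, `Big a`: small sets in the domain with `D a ⊆ Big a`, `F⁻¹ (E a) ⊆ Big a`.
-/

open Classical Set Metric

noncomputable section

namespace MOT.Fn

/-! ## metric lemmas on level 0 -/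

theorem sR_le_of_norm {R r : ℝ} (hR : 0 < R) {p : Fin 3 → ℝ} (hp : p ∈ closedBall (0 : Fin 3 → ℝ) r)
    (h : 3 * r ≤ R) : sR R p ≤ 1 := by
  have h1 : ∀ i, |p i| ≤ r := by
    intro i
    have := norm_le_pi_norm p i
    rw [mem_closedBall_zero_iff] at hp
    rw [Real.norm_eq_abs] at this
    linarith
  rw [sR, div_le_one hR]
  calc ∑ i, |p i| ≤ ∑ _i : Fin 3, r := Finset.sum_le_sum fun i _ => h1 i
    _ = 3 * r := by simp
    _ ≤ R := h

theorem ofR_near_zero {R : ℝ} {p : Fin 3 → ℝ} (h : sR R p ≤ 1) : ofR R p (0, true) = 0 := by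
  rw [ofR_zt, uR_of_le h]; norm_num

theorem lin0_ofR {R : ℝ} (hR : 0 < R) {p : Fin 3 → ℝ} (h : sR R p ≤ 1) : lin0 R (ofR R p) = p := by
  rw [lin0_toR (ofR_near_zero h)]
  exact toR_ofR hR p

theorem dist_lin0 {R : ℝ} (hR : 0 < R) (c c' : Fin 4 × Bool → ℝ) :
    dist (lin0 R c) (lin0 R c') ≤ 2 * R * dist c c' := by
  refine (dist_pi_le_iff (by positivity)).mpr fun j => ?_
  have h1 := dist_le_pi_dist c c' (j.succ, true)
  have h2 := dist_le_pi_dist c c' (j.succ, false)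
  rw [Real.dist_eq] at h1 h2 ⊢
  show |R * (c (j.succ, true) - c (j.succ, false)) -
    R * (c' (j.succ, true) - c' (j.succ, false))| ≤ _
  have h3 : R * (c (j.succ, true) - c (j.succ, false)) -
      R * (c' (j.succ, true) - c' (j.succ, false)) =
      R * (c (j.succ, true) - c' (j.succ, true)) -
      R * (c (j.succ, false) - c' (j.succ, false)) := by ring
  rw [h3]
  calc _ ≤ |R * (c (j.succ, true) - c' (j.succ, true))| +
        |R * (c (j.succ, false) - c' (j.succ, false))| := abs_sub _ _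
    _ = R * |c (j.succ, true) - c' (j.succ, true)| +
        R * |c (j.succ, false) - c' (j.succ, false)| := by
      rw [abs_mul, abs_mul, abs_of_pos hR]
    _ ≤ R * dist c c' + R * dist c c' :=
      add_le_add (mul_le_mul_of_nonneg_left h1 hR.le) (mul_le_mul_of_nonneg_left h2 hR.le)
    _ = 2 * R * dist c c' := by ring

/-- points of the 16-cell close to `ofR 8 p` -/
theorem close_pt {p : Fin 3 → ℝ} (hp : p ∈ closedBall (0 : Fin 3 → ℝ) (3 / 2))
    {y : Fin 4 × Bool → ℝ} (hy : y ∈ Re GO) (hd : dist y (ofR 8 p) ≤ 1 / 32) :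
    ∃ p', y = ofR 8 p' ∧ dist p' p ≤ 1 / 2 := by
  have h8 : (0 : ℝ) < 8 := by norm_num
  have hs : sR 8 p ≤ 9 / 16 := by
    have h1 : ∀ i, |p i| ≤ 3 / 2 := by
      intro i
      have := norm_le_pi_norm p i
      rw [mem_closedBall_zero_iff] at hp
      rw [Real.norm_eq_abs] at this
      linarith
    rw [sR, div_le_iff₀ h8]
    calc ∑ i, |p i| ≤ ∑ _i : Fin 3, (3 / 2 : ℝ) := Finset.sum_le_sum fun i _ => h1 i
      _ = 9 / 16 * 8 := by simp; norm_num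
  have h1 : y (0, false) ≠ 0 := by
    have h2 := dist_le_pi_dist y (ofR 8 p) (0, false)
    rw [ofR_zf, max_eq_right (by linarith), Real.dist_eq] at h2
    have h3 := (abs_le.mp (h2.trans hd)).1
    intro h0
    rw [h0] at h3
    linarith
  have h2 : y (0, true) = 0 := by
    rcases (cell_mem.mp hy).2.2.2 0 with h | h
    · exact h
    · exact absurd h h1
  refine ⟨toR 8 y, (ofR_toR h8 hy (by rw [h2]; norm_num)).symm, ?_⟩
  have h3 := dist_lin0 h8 y (ofR 8 p)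
  rw [lin0_toR h2, lin0_ofR h8 (by linarith)] at h3
  linarith

/-! ## the main step -/

/-- the two patterns and the PL homeomorphism between them (near part) -/
structure Cells (R' : ℝ) (F : ↥(Re GO) ≃ₜ ↥(Re GO)) (μ : ℝ) (n m : ℕ) (I : Type)
    (D : I → Set ((tw (cell16 8) n).V → ℝ)) (E : I → Set ((tw (cell16 R') m).V → ℝ))
    (Big : I → Set (Fin 4 × Bool → ℝ)) : Prop where
  big : ∀ a, Big a ⊆ Re GO
  diam : ∀ a, ∀ y ∈ Big a, ∀ y' ∈ Big a, dist y y' ≤ μ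
  dom : ∀ a, ∀ c ∈ D a, c ∈ Re (tw (cell16 8) n).G ∧ re (cell16 8) n c ∈ Big a
  rng : ∀ a, ∀ z ∈ E a, z ∈ Re (tw (cell16 R') m).G ∧
    ∃ y : ↥(Re GO), y.1 ∈ Big a ∧ re (cell16 R') m z = (F y).1
  covD : ∀ c ∈ Re (tw (cell16 8) n).G, ∃ a, c ∈ D a
  covE : ∀ z ∈ Re (tw (cell16 R') m).G, ∃ a, z ∈ E a
  plh : ∃ f g, PLH (⋃ a ∈ {a | Big a ⊆ ofR 8 '' closedBall 0 2}, D a)
    (⋃ a ∈ {a | Big a ⊆ ofR 8 '' closedBall 0 2}, E a) f g ∧
    ∀ a, Big a ⊆ ofR 8 '' closedBall 0 2 → f '' (D a) ⊆ E a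

theorem cube_of_cells {R' : ℝ} (hR' : 0 < R') (h : (Fin 3 → ℝ) ≃ₜ (Fin 3 → ℝ))
    (hh : ∀ p ∈ closedBall (0 : Fin 3 → ℝ) 2, sR R' (h p) ≤ 1) (F : ↥(Re GO) ≃ₜ ↥(Re GO))
    (h8 : (0 : ℝ) < 8)
    (hF : ∀ p, F ⟨ofR 8 p, ofR_mem h8 p⟩ = ⟨ofR R' (h p), ofR_mem hR' (h p)⟩)
    {ε : ℝ} (hε : 0 < ε) :
    ∃ μ : ℝ, 0 < μ ∧ ∀ (n m : ℕ) (I : Type) (D : I → Set ((tw (cell16 8) n).V → ℝ))
      (E : I → Set ((tw (cell16 R') m).V → ℝ)) (Big : I → Set (Fin 4 × Bool → ℝ)),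
      Cells R' F μ n m I D E Big →
      ∃ g, CubeEmb g ∧ ∀ p ∈ closedBall (0 : Fin 3 → ℝ) 1, dist (g p) (h p) < ε := by
  have hcs : CompactSpace ↥(Re GO) := isCompact_iff_compactSpace.mp (isCompact_Rl GO Set.univ)
  have huc : UniformContinuous F := CompactSpace.uniformContinuous_of_continuous F.continuous
  obtain ⟨δ, hδ, hδ'⟩ := Metric.uniformContinuous_iff.mp huc (ε / (2 * R')) (by positivity)
  refine ⟨min (1 / 32) (δ / 2), lt_min (by norm_num) (by positivity), ?_⟩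
  intro n m I D E Big hC
  set μ := min (1 / 32 : ℝ) (δ / 2) with hμ
  have hμ1 : μ ≤ 1 / 32 := min_le_left _ _
  have hμ2 : μ < δ := lt_of_le_of_lt (min_le_right _ _) (by linarith)
  obtain ⟨f, k, hfk, hfE⟩ := hC.plh
  set A0 : Set I := {a | Big a ⊆ ofR 8 '' closedBall 0 2} with hA0
  set X : Set ((tw (cell16 8) n).V → ℝ) := ⋃ a ∈ A0, D a with hX
  set Y : Set ((tw (cell16 R') m).V → ℝ) := ⋃ a ∈ A0, E a with hY
  have P := plh_near h8 n
  have P' := plh_near hR' m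
  -- small sets near the cube of radius 3/2
  have hA : ∀ a, ∀ p ∈ closedBall (0 : Fin 3 → ℝ) (3 / 2), ofR 8 p ∈ Big a → a ∈ A0 := by
    intro a p hp hpa y hy
    obtain ⟨p', rfl, h2⟩ := close_pt hp (hC.big a hy) ((hC.diam a y hy _ hpa).trans hμ1)
    refine ⟨p', ?_, rfl⟩
    rw [mem_closedBall] at hp ⊢
    calc dist p' 0 ≤ dist p' p + dist p 0 := dist_triangle _ _ _
      _ ≤ 1 / 2 + 3 / 2 := add_le_add h2 hp
      _ = 2 := by norm_num
  -- points of the domain cells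
  have hoct : ∀ p ∈ closedBall (0 : Fin 3 → ℝ) 2, p ∈ Oct 8 := fun p hp =>
    sR_le_of_norm h8 hp (by norm_num)
  have hXn : X ⊆ Rl (tw (cell16 8) n).G (tw (cell16 8) n).near := by
    intro c hc
    obtain ⟨a, ha, hca⟩ := mem_iUnion₂.mp hc
    obtain ⟨h1, h2⟩ := hC.dom a c hca
    obtain ⟨p, hp, h3⟩ := ha h2
    have h4 : co (cell16 8) n (re (cell16 8) n c) = c := co_re n h1
    rw [← h4, ← h3]
    exact P.gm (hoct p hp)
  -- points of the range cells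
  have hEp : ∀ a ∈ A0, ∀ z ∈ E a, ∃ p ∈ closedBall (0 : Fin 3 → ℝ) 2, ofR 8 p ∈ Big a ∧
      z = co (cell16 R') m (ofR R' (h p)) := by
    intro a ha z hz
    obtain ⟨h1, y, hy, h2⟩ := hC.rng a z hz
    obtain ⟨p, hp, h3⟩ := ha hy
    refine ⟨p, hp, by rw [h3]; exact hy, ?_⟩
    have h4 : co (cell16 R') m (re (cell16 R') m z) = z := co_re m h1
    have h5 : y = ⟨ofR 8 p, ofR_mem h8 p⟩ := Subtype.ext h3.symm
    rw [h5, hF] at h2
    rw [← h4, h2]
  have hYn : Y ⊆ Rl (tw (cell16 R') m).G (tw (cell16 R') m).near := by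
    intro z hz
    obtain ⟨a, ha, hza⟩ := mem_iUnion₂.mp hz
    obtain ⟨p, hp, -, rfl⟩ := hEp a ha z hza
    exact P'.gm (hh p hp)
  -- the cube is covered
  have hcX : ∀ p ∈ closedBall (0 : Fin 3 → ℝ) (3 / 2), ∃ a ∈ A0, co (cell16 8) n (ofR 8 p) ∈ D a ∧
      ofR 8 p ∈ Big a := by
    intro p hp
    have h1 : co (cell16 8) n (ofR 8 p) ∈ Re (tw (cell16 8) n).G := co_mem (ofR_mem h8 p) n
    obtain ⟨a, ha⟩ := hC.covD _ h1
    have h2 := (hC.dom a _ ha).2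
    have h3 : re (cell16 8) n (co (cell16 8) n (ofR 8 p)) = ofR 8 p := re_co (ofR_mem h8 p) n
    rw [h3] at h2
    exact ⟨a, hA a p hp h2, ha, h2⟩
  have hcY : ∀ p ∈ closedBall (0 : Fin 3 → ℝ) (3 / 2), co (cell16 R') m (ofR R' (h p)) ∈ Y := by
    intro p hp
    have h1 : co (cell16 R') m (ofR R' (h p)) ∈ Re (tw (cell16 R') m).G := co_mem (ofR_mem hR' (h p)) m
    obtain ⟨a, ha⟩ := hC.covE _ h1
    obtain ⟨-, y, hy, h2⟩ := hC.rng a _ ha
    have h3 : re (cell16 R') m (co (cell16 R') m (ofR R' (h p))) = ofR R' (h p) := re_co (ofR_mem hR' (h p)) m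
    rw [h3] at h2
    have h4 : F y = F ⟨ofR 8 p, ofR_mem h8 p⟩ := by
      rw [hF]; exact Subtype.ext h2.symm
    have h5 : y = ⟨ofR 8 p, ofR_mem h8 p⟩ := F.injective h4
    rw [h5] at hy
    exact mem_iUnion₂.mpr ⟨a, hA a p hp hy, ha⟩
  -- the map
  set g : (Fin 3 → ℝ) → (Fin 3 → ℝ) := fun p => lin (cell16 R') m (f (co (cell16 8) n (ofR 8 p))) with hg
  set G : (Fin 3 → ℝ) → (Fin 3 → ℝ) := fun q => lin (cell16 8) n (k (co (cell16 R') m (ofR R' q))) with hG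
  have hsub1 : closedBall (0 : Fin 3 → ℝ) 1 ⊆ closedBall 0 (3 / 2) :=
    closedBall_subset_closedBall (by norm_num)
  have hsub2 : closedBall (0 : Fin 3 → ℝ) (3 / 2) ⊆ closedBall 0 2 :=
    closedBall_subset_closedBall (by norm_num)
  have key : ∀ p ∈ closedBall (0 : Fin 3 → ℝ) (3 / 2), ∃ p', dist p' p ≤ 1 / 2 ∧ g p = h p' ∧
      dist (g p) (h p) < ε := by
    intro p hp
    obtain ⟨a, ha, h1, h2⟩ := hcX p hp
    have h3 : f (co (cell16 8) n (ofR 8 p)) ∈ E a := hfE a ha ⟨_, h1, rfl⟩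
    obtain ⟨p', hp', h4, h5⟩ := hEp a ha _ h3
    have h6 : g p = h p' := by
      show lin (cell16 R') m (f (co (cell16 8) n (ofR 8 p))) = _
      rw [h5]
      exact P'.fg _ (hh p' hp')
    have h7 : dist (ofR 8 p') (ofR 8 p) ≤ μ := hC.diam a _ h4 _ h2
    obtain ⟨p'', h8', h9⟩ := close_pt hp (ofR_mem h8 p') (h7.trans hμ1)
    have h10 : p'' = p' := by
      rw [← toR_ofR h8 p', h8', toR_ofR h8]
    rw [h10] at h9
    refine ⟨p', h9, h6, ?_⟩
    rw [h6]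
    have h11 := hδ' (a := ⟨ofR 8 p', ofR_mem h8 p'⟩) (b := ⟨ofR 8 p, ofR_mem h8 p⟩)
      (lt_of_le_of_lt h7 hμ2)
    rw [hF, hF, Subtype.dist_eq] at h11
    have h12 := dist_lin0 hR' (ofR R' (h p')) (ofR R' (h p))
    rw [lin0_ofR hR' (hh p' hp'), lin0_ofR hR' (hh p (hsub2 hp))] at h12
    calc dist (h p') (h p) ≤ 2 * R' * dist (ofR R' (h p')) (ofR R' (h p)) := h12
      _ < 2 * R' * (ε / (2 * R')) := mul_lt_mul_of_pos_left h11 (by positivity)
      _ = ε := by field_simp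
  have hmX : ∀ p ∈ closedBall (0 : Fin 3 → ℝ) (3 / 2), co (cell16 8) n (ofR 8 p) ∈ X := by
    intro p hp
    obtain ⟨a, ha, h1, -⟩ := hcX p hp
    exact mem_iUnion₂.mpr ⟨a, ha, h1⟩
  have hpl1 : PLOn (fun p => co (cell16 8) n (ofR 8 p)) (closedBall (0 : Fin 3 → ℝ) 1) :=
    P.gpl.mono fun p hp => hoct p (hsub2 (hsub1 hp))
  have hpl2 : PLOn (fun p => f (co (cell16 8) n (ofR 8 p))) (closedBall (0 : Fin 3 → ℝ) 1) :=
    hfk.fpl.comp hpl1 fun p hp => hmX p (hsub1 hp)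
  have hpl3 : PLOn g (closedBall (0 : Fin 3 → ℝ) 1) :=
    (P'.fpl.mono hYn).comp hpl2 fun p hp => hfk.fm (hmX p (hsub1 hp))
  refine ⟨g, ⟨hpl3.1, ?_, hpl3.2, ?_⟩, fun p hp => ?_⟩
  · intro p hp q hq hpq
    have h1 : f (co (cell16 8) n (ofR 8 p)) = f (co (cell16 8) n (ofR 8 q)) :=
      P'.inj (hYn (hfk.fm (hmX p (hsub1 hp)))) (hYn (hfk.fm (hmX q (hsub1 hq)))) hpq
    have h2 := hfk.inj (hmX p (hsub1 hp)) (hmX q (hsub1 hq)) h1
    exact P.symm.inj (hoct p (hsub2 (hsub1 hp))) (hoct q (hsub2 (hsub1 hq))) h2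
  · set V0 : Set (Fin 3 → ℝ) := h '' ball 0 (3 / 2) with hV0
    have hV0o : IsOpen V0 := h.isOpenMap _ isOpen_ball
    have hVo : ∀ q ∈ V0, q ∈ Oct R' ∧ co (cell16 R') m (ofR R' q) ∈ Y := by
      rintro _ ⟨p, hp, rfl⟩
      exact ⟨hh p (hsub2 (ball_subset_closedBall hp)), hcY p (ball_subset_closedBall hp)⟩
    have hGc : ContinuousOn G V0 := by
      have h1 : ContinuousOn (fun q => co (cell16 R') m (ofR R' q)) V0 :=
        P'.gpl.1.mono fun q hq => (hVo q hq).1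
      have h2 : ContinuousOn (fun q => k (co (cell16 R') m (ofR R' q))) V0 :=
        hfk.gpl.1.comp h1 fun q hq => (hVo q hq).2
      exact P.fpl.1.comp h2 fun q hq => hXn (hfk.gm (hVo q hq).2)
    have hU : IsOpen (V0 ∩ G ⁻¹' ball 0 1) := hGc.isOpen_inter_preimage hV0o isOpen_ball
    have hgG : ∀ q ∈ V0, g (G q) = q := by
      intro q hq
      obtain ⟨h1, h2⟩ := hVo q hq
      show lin (cell16 R') m (f (co (cell16 8) n (ofR 8 (lin (cell16 8) n (k (co (cell16 R') m (ofR R' q))))))) = q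
      have h3 : co (cell16 8) n (ofR 8 (lin (cell16 8) n (k (co (cell16 R') m (ofR R' q))))) = k (co (cell16 R') m (ofR R' q)) :=
        P.gf _ (hXn (hfk.gm h2))
      rw [h3, hfk.fg _ h2]
      exact P'.fg q h1
    have hUs : V0 ∩ G ⁻¹' ball 0 1 ⊆ g '' closedBall 0 1 := by
      rintro q ⟨hq, hq'⟩
      exact ⟨G q, ball_subset_closedBall hq', hgG q hq⟩
    rintro _ ⟨p, hp, rfl⟩
    refine interior_maximal hUs hU ⟨?_, ?_⟩
    · obtain ⟨p', h1, h2, -⟩ := key p (closedBall_subset_closedBall (by norm_num) hp)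
      rw [h2]
      refine ⟨p', ?_, rfl⟩
      rw [mem_closedBall] at hp
      rw [mem_ball]
      calc dist p' 0 ≤ dist p' p + dist p 0 := dist_triangle _ _ _
        _ ≤ 1 / 2 + 1 / 2 := add_le_add h1 hp
        _ < 3 / 2 := by norm_num
    · have hp1 : p ∈ closedBall (0 : Fin 3 → ℝ) (3 / 2) :=
        closedBall_subset_closedBall (by norm_num) hp
      have h1 : G (g p) = p := by
        show lin (cell16 8) n (k (co (cell16 R') m (ofR R' (lin (cell16 R') m (f (co (cell16 8) n (ofR 8 p))))))) = p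
        have h3 : co (cell16 R') m (ofR R' (lin (cell16 R') m (f (co (cell16 8) n (ofR 8 p))))) = f (co (cell16 8) n (ofR 8 p)) :=
          P'.gf _ (hYn (hfk.fm (hmX p hp1)))
        rw [h3, hfk.gf _ (hmX p hp1)]
        exact P.fg p (hoct p (hsub2 hp1))
      show G (g p) ∈ ball 0 1
      rw [h1]
      rw [mem_closedBall] at hp
      rw [mem_ball]
      linarith
  · obtain ⟨_, -, -, h1⟩ := key p (hsub1 hp)
    exact h1

end MOT.Fn
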