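import Pool.Agent.MOT.PlC

/-!
# MOT/PlD: cell complexes given by top cells: the cells are the intersections `XI X A`
-/

open Classical

noncomputable section

namespace MOT

variable {E F C : Type}

/-- intersection of the cells with colour in `A` -/
def XI (X : C → Set E) (A : Set C) : Set E := {x | ∀ a ∈ A, x ∈ X a}

/-- boundary of the cell `XI X A`: the points in one more top cell -/
def bdI (X : C → Set E) (A : Set C) : Set E := {x | x ∈ XI X A ∧ ∃ b, b ∉ A ∧ x ∈ X b}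

theorem XI_inter (X : C → Set E) (A B : Set C) : XI X A ∩ XI X B = XI X (A ∪ B) := by
  ext x
  constructor
  · rintro ⟨h1, h2⟩ a (ha | ha)
    · exact h1 a ha
    · exact h2 a ha
  · intro h
    exact ⟨fun a ha => h a (Or.inl ha), fun a ha => h a (Or.inr ha)⟩

variable [AddCommGroup E] [Module ℝ E] [TopologicalSpace E] [IsTopologicalAddGroup E]
  [ContinuousSMul ℝ E] [T2Space E] [FiniteDimensional ℝ E]
variable [AddCommGroup F] [Module ℝ F] [TopologicalSpace F] [IsTopologicalAddGroup F]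
  [ContinuousSMul ℝ F] [T2Space F] [FiniteDimensional ℝ F]

/-- one step: extend over one more cell -/
theorem cells_step {Y B Z : Set E} {Y' B' Z' : Set F} (hZ : IsClosed Z) (hZ' : IsClosed Z')
    (hY : IsClosed Y) (hYZ : Y ∩ Z = B) (hYZ' : Y' ∩ Z' = B') {p : E} {r : E → ℝ}
    (hc : IsCone Y B p r) {n : ℕ} (hb : Ball n Y' B') {φ : E → F} {ψ : F → E}
    (hφ : PLH Z Z' φ ψ) (hB : φ '' B = B') :
    ∃ f g, PLH (Z ∪ Y) (Z' ∪ Y') f g ∧ (∀ x ∈ Z, f x = φ x) ∧ f '' Y = Y' := by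
  have hBZ : B ⊆ Z := fun x hx => by
    rw [← hYZ] at hx
    exact hx.2
  have hφB : PLH B B' φ ψ := hφ.restrict' hBZ hB
  have hball : Ball n Y B := by
    obtain ⟨hsub, f', g', h1, h2⟩ := hb
    exact Ball.of_cone hc (hφB.trans (h1.restrict' hsub h2))
  obtain ⟨f2, g2, h3, h4, -⟩ := Ball.ext hball hb hφB
  have hZY : Z ∩ Y = B := by rw [Set.inter_comm]; exact hYZ
  have hZY' : Z' ∩ Y' = B' := by rw [Set.inter_comm]; exact hYZ'
  obtain ⟨f, g, h5, h6, h7, -, -⟩ := PLH.union hφ h3 hZ hY hZ' hb.isClosed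
    (fun x hx => by
      rw [hZY] at hx
      exact (h4 x hx).symm) (by rw [hZY, hZY', hB])
  refine ⟨f, g, h5, h6, ?_⟩
  rw [← h3.image]
  exact Set.image_congr h7

private theorem XI_closed {X : C → Set E} (hX : ∀ a, IsClosed (X a)) (A : Set C) :
    IsClosed (XI X A) := by
  have h : XI X A = ⋂ a ∈ A, X a := by
    ext x
    simp only [XI, Set.mem_ofPred_eq, Set.mem_iInter]
  rw [h]
  exact isClosed_biInter fun a _ => hX a

private theorem UI_closed [Finite C] {X : C → Set E} (hX : ∀ a, IsClosed (X a))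
    (L : Set (Set C)) : IsClosed (⋃ A ∈ L, XI X A) :=
  (Set.toFinite L).isClosed_biUnion fun A _ => XI_closed hX A

omit [AddCommGroup E] [Module ℝ E] [TopologicalSpace E] [IsTopologicalAddGroup E]
  [ContinuousSMul ℝ E] [T2Space E] [FiniteDimensional ℝ E] in
private theorem bd_eq {X : C → Set E} {L : Set (Set C)} {A : Set C} (hA : A ∈ L)
    (hL : ∀ A ∈ L, ∀ B, A ⊆ B → B ∈ L) (hmin : ∀ B ∈ L, B ⊆ A → B = A) :
    XI X A ∩ (⋃ B ∈ L \ {A}, XI X B) = bdI X A := by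
  ext x
  constructor
  · rintro ⟨h1, h2⟩
    rw [Set.mem_iUnion₂] at h2
    obtain ⟨B, ⟨hB, hBA⟩, h3⟩ := h2
    have h4 : ¬ B ⊆ A := fun h4 => hBA (hmin B hB h4)
    rw [Set.not_subset] at h4
    obtain ⟨b, hb, hbA⟩ := h4
    exact ⟨h1, b, hbA, h3 b hb⟩
  · rintro ⟨h1, b, hbA, h3⟩
    refine ⟨h1, ?_⟩
    rw [Set.mem_iUnion₂]
    refine ⟨insert b A, ⟨hL A hA _ (Set.subset_insert b A), fun h4 => hbA ?_⟩, ?_⟩
    · have h5 : insert b A = A := h4
      rw [← h5]
      exact Set.mem_insert b A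
    · intro a ha
      rcases Set.mem_insert_iff.1 ha with rfl | ha
      · exact h3
      · exact h1 a ha

omit [AddCommGroup E] [Module ℝ E] [TopologicalSpace E] [IsTopologicalAddGroup E]
  [ContinuousSMul ℝ E] [T2Space E] [FiniteDimensional ℝ E] in
private theorem bd_un {X : C → Set E} {A : Set C} :
    bdI X A = ⋃ b ∈ Aᶜ, XI X (insert b A) := by
  ext x
  rw [Set.mem_iUnion₂]
  constructor
  · rintro ⟨h1, b, hbA, h3⟩
    refine ⟨b, hbA, fun a ha => ?_⟩
    rcases Set.mem_insert_iff.1 ha with rfl | ha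
    · exact h3
    · exact h1 a ha
  · rintro ⟨b, hbA, h3⟩
    exact ⟨fun a ha => h3 a (Set.mem_insert_of_mem b ha), b, hbA, h3 b (Set.mem_insert b A)⟩

omit [AddCommGroup E] [Module ℝ E] [TopologicalSpace E] [IsTopologicalAddGroup E]
  [ContinuousSMul ℝ E] [T2Space E] [FiniteDimensional ℝ E] in
private theorem un_split {X : C → Set E} {L : Set (Set C)} {A : Set C} (hA : A ∈ L) :
    (⋃ B ∈ L, XI X B) = (⋃ B ∈ L \ {A}, XI X B) ∪ XI X A := by
  ext x
  rw [Set.mem_union, Set.mem_iUnion₂, Set.mem_iUnion₂]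
  constructor
  · rintro ⟨B, hB, h⟩
    by_cases hBA : B = A
    · rw [hBA] at h
      exact Or.inr h
    · exact Or.inl ⟨B, ⟨hB, hBA⟩, h⟩
  · rintro (⟨B, hB, h⟩ | h)
    · exact ⟨B, hB.1, h⟩
    · exact ⟨A, hA, h⟩

/-- induction over upward closed families of cells -/
theorem cells_up [Finite C] (X : C → Set E) (X' : C → Set F) (hX : ∀ a, IsClosed (X a))
    (hX' : ∀ a, IsClosed (X' a)) (L : Set (Set C)) (hL : ∀ A ∈ L, ∀ B, A ⊆ B → B ∈ L)
    (hne : ∀ A ∈ L, A.Nonempty)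
    (hE : ∀ A ∈ L, ((XI X A).Nonempty ↔ (XI X' A).Nonempty))
    (hc : ∀ A ∈ L, (XI X A).Nonempty → ∃ p r, IsCone (XI X A) (bdI X A) p r)
    (hb : ∀ A ∈ L, (XI X' A).Nonempty → ∃ n, Ball n (XI X' A) (bdI X' A)) :
    ∃ f g, PLH (⋃ A ∈ L, XI X A) (⋃ A ∈ L, XI X' A) f g ∧ ∀ A ∈ L, f '' XI X A = XI X' A := by
  induction hn : L.ncard using Nat.strong_induction_on generalizing L with
  | _ N ih =>
  rcases Set.eq_empty_or_nonempty L with h0 | hLn
  · subst h0
    have e1 : (⋃ A ∈ (∅ : Set (Set C)), XI X A) = ∅ := by simp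
    have e2 : (⋃ A ∈ (∅ : Set (Set C)), XI X' A) = ∅ := by simp
    rw [e1, e2]
    refine ⟨fun _ => 0, fun _ => 0, ⟨(PLOn.const 0 ∅), (PLOn.const 0 ∅), ?_, ?_, ?_, ?_⟩, ?_⟩
    · exact fun x hx => hx.elim
    · exact fun x hx => hx.elim
    · exact fun x hx => hx.elim
    · exact fun x hx => hx.elim
    · exact fun A hA => hA.elim
  · obtain ⟨A, hA, hmin⟩ : ∃ A ∈ L, ∀ B ∈ L, B ⊆ A → B = A := by
      obtain ⟨A, hA⟩ := (Set.toFinite L).exists_minimal hLn
      exact ⟨A, hA.1, fun B hB hBA => hA.eq_of_le hB hBA⟩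
    have hL' : ∀ B ∈ L \ {A}, ∀ D, B ⊆ D → D ∈ L \ {A} := by
      rintro B ⟨hB, hBA⟩ D hBD
      refine ⟨hL B hB D hBD, fun hD => hBA ?_⟩
      have h5 : D = A := hD
      rw [h5] at hBD
      exact hmin B hB hBD
    obtain ⟨φ, ψ, hφ, him⟩ := ih (L \ {A}).ncard
      (by rw [← hn]; exact Set.ncard_sdiff_singleton_lt_of_mem hA (Set.toFinite L)) (L \ {A}) hL'
      (fun B hB => hne B hB.1) (fun B hB => hE B hB.1) (fun B hB => hc B hB.1)
      (fun B hB => hb B hB.1) rfl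
    rw [un_split hA, un_split (X := X') hA]
    have hsub : ∀ B ∈ L, B ≠ A → XI X B ⊆ ⋃ B ∈ L \ {A}, XI X B := by
      intro B hB hBA x hx
      rw [Set.mem_iUnion₂]
      exact ⟨B, ⟨hB, hBA⟩, hx⟩
    by_cases hne' : (XI X A).Nonempty
    · obtain ⟨p, r, hcone⟩ := hc A hA hne'
      obtain ⟨n, hball⟩ := hb A hA ((hE A hA).1 hne')
      have hbd : φ '' bdI X A = bdI X' A := by
        rw [bd_un, bd_un, Set.image_iUnion₂]
        refine Set.iUnion₂_congr fun b hbA => ?_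
        refine him _ ⟨hL A hA _ (Set.subset_insert b A), fun h4 => hbA ?_⟩
        have h5 : insert b A = A := h4
        rw [← h5]
        exact Set.mem_insert b A
      obtain ⟨f, g, hf, hfφ, hfA⟩ := cells_step (UI_closed hX _) (UI_closed hX' _)
        (XI_closed hX A) (bd_eq hA hL hmin) (bd_eq hA hL hmin) hcone hball hφ hbd
      refine ⟨f, g, hf, fun B hB => ?_⟩
      by_cases hBA : B = A
      · rw [hBA]
        exact hfA
      · rw [← him B ⟨hB, hBA⟩]
        exact Set.image_congr fun x hx => hfφ x (hsub B hB hBA hx)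
    · have e1 : XI X A = ∅ := Set.not_nonempty_iff_eq_empty.1 hne'
      have e2 : XI X' A = ∅ := Set.not_nonempty_iff_eq_empty.1 fun h => hne' ((hE A hA).2 h)
      rw [e1, e2, Set.union_empty, Set.union_empty]
      refine ⟨φ, ψ, hφ, fun B hB => ?_⟩
      by_cases hBA : B = A
      · rw [hBA, e1, e2, Set.image_empty]
      · exact him B ⟨hB, hBA⟩

omit [AddCommGroup E] [Module ℝ E] [TopologicalSpace E] [IsTopologicalAddGroup E]
  [ContinuousSMul ℝ E] [T2Space E] [FiniteDimensional ℝ E] in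
private theorem un_all {X : C → Set E} (A0 : Set C) :
    (⋃ A ∈ {A : Set C | (A ∩ A0).Nonempty}, XI X A) = ⋃ a ∈ A0, X a := by
  ext x
  rw [Set.mem_iUnion₂, Set.mem_iUnion₂]
  constructor
  · rintro ⟨A, ⟨a, haA, ha0⟩, h⟩
    exact ⟨a, ha0, h a haA⟩
  · rintro ⟨a, ha, h⟩
    refine ⟨{a}, ⟨a, rfl, ha⟩, fun b hb => ?_⟩
    have h5 : b = a := hb
    rw [h5]
    exact h

/-- CELLS -/
theorem cells [Finite C] (X : C → Set E) (X' : C → Set F) (hX : ∀ a, IsClosed (X a))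
    (hX' : ∀ a, IsClosed (X' a)) (A0 : Set C)
    (hE : ∀ A : Set C, (A ∩ A0).Nonempty → ((XI X A).Nonempty ↔ (XI X' A).Nonempty))
    (hc : ∀ A : Set C, (A ∩ A0).Nonempty → (XI X A).Nonempty →
      ∃ p r, IsCone (XI X A) (bdI X A) p r)
    (hb : ∀ A : Set C, (A ∩ A0).Nonempty → (XI X' A).Nonempty →
      ∃ n, Ball n (XI X' A) (bdI X' A)) :
    ∃ f g, PLH (⋃ a ∈ A0, X a) (⋃ a ∈ A0, X' a) f g ∧
      ∀ A : Set C, (A ∩ A0).Nonempty → f '' XI X A = XI X' A := by
  rw [← un_all A0, ← un_all (X := X') A0]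
  exact cells_up X X' hX hX' {A : Set C | (A ∩ A0).Nonempty}
    (fun A hA B hAB => hA.mono (Set.inter_subset_inter_left A0 hAB))
    (fun A hA => hA.mono Set.inter_subset_left) hE hc hb

end MOT
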