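import Pool.Agent.MOT.Def

/-!
# MOT/St0: geometric realisation of the levels of a tower (definitions, helper18, block C1)

`Rl G A`: realisation of the full subcomplex on `A`: functions `c : V → ℝ` (barycentric coordinates).
`Re G = Rl G univ`.  `rup : Re G → Re (sd G)` and `rdn : Re (sd G) → Re G` are inverse to each other.
All points are seen in level `0`: `co K n y` = barycentric coordinates of `y : K.V → ℝ` on level `n`,
`re K n c` = the point with coordinates `c` on level `n`, `pt K n v` = the vertex `v` of level `n`,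
`ost K n v` = its open star.
-/

open Classical

noncomputable section

namespace MOT

variable {V : Type}

/-- realisation of the full subcomplex on `A` -/
def Rl (G : SimpleGraph V) (A : Set V) : Set (V → ℝ) :=
  {c | (∀ x, 0 ≤ c x) ∧ (∑ᶠ x, c x = 1) ∧ (∀ x, c x ≠ 0 → x ∈ A) ∧
    ∀ x y, c x ≠ 0 → c y ≠ 0 → x ≠ y → G.Adj x y}

/-- realisation of the whole complex -/
abbrev Re (G : SimpleGraph V) : Set (V → ℝ) := Rl G Set.univ

/-- coordinates of the vertex `v` -/
def dlt (v : V) : V → ℝ := fun x => if x = v then 1 else 0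

/-- from the coordinates in `sd G` to the coordinates in `G` -/
def rdn (G : SimpleGraph V) (c : Cq G → ℝ) : V → ℝ :=
  fun x => ∑ᶠ s : Cq G, if x ∈ s.1 then c s / (s.1.card : ℝ) else 0

/-- largest coordinate outside `s` -/
def rmx (c : V → ℝ) (s : Finset V) : ℝ := ⨆ y : V, if y ∈ s then 0 else c y

/-- from the coordinates in `G` to the coordinates in `sd G`:
`|s| (min_s c - max_{not s} c)^+` -/
def rup (G : SimpleGraph V) (c : V → ℝ) : Cq G → ℝ :=
  fun s => (s.1.card : ℝ) * max 0 (s.1.inf' s.2.1 c - rmx c s.1)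

/-- barycentric coordinates on level `n` -/
def co (K : Lv) : (n : ℕ) → (K.V → ℝ) → (tw K n).V → ℝ
  | 0, c => c
  | n + 1, c => rup (tw K n).G (co K n c)

/-- the point with given coordinates on level `n` -/
def re (K : Lv) : (n : ℕ) → ((tw K n).V → ℝ) → K.V → ℝ
  | 0, c => c
  | n + 1, c => re K n (rdn (tw K n).G c)

/-- the vertex `v` of level `n` -/
def pt (K : Lv) (n : ℕ) (v : (tw K n).V) : K.V → ℝ := re K n (dlt v)

/-- open star of the vertex `v` of level `n` -/
def ost (K : Lv) (n : ℕ) (v : (tw K n).V) : Set (K.V → ℝ) := {y | y ∈ Re K.G ∧ 0 < co K n y v}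

/-- realisation in `ℝ^3` of coordinates on level `n` (used on the near part) -/
def lin (K : Lv) (n : ℕ) (c : (tw K n).V → ℝ) : Fin 3 → ℝ := ∑ᶠ v, c v • (tw K n).pos v

end MOT
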