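import Pool.Agent.MOT.Pat
import Pool.Agent.MOT.St0
import Pool.Agent.MOT.PlD

/-!
# MOT/JdDef: the explicit cells of the domain

`Gc` coarse complex.  A point `y ∈ Rl (sd Gc) univ` has its support on a chain of simplices.
`lo y`: total weight of the vertices and edges, `hi y`: total weight of the triangles and
tetrahedra.  Cell of the vertex `v`: all simplices of the support contain `v` and `lo y ≥ 1/2`.
Cell of the tetrahedron `t`: all simplices of the support are contained in `t` and `hi y ≥ 1/2`.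
All intersections of these cells are cones.
-/

open Classical

noncomputable section

namespace MOT.J

variable {V : Type}

def lo (G : SimpleGraph V) (y : Cq G → ℝ) : ℝ := ∑ᶠ z : Cq G, if z.1.card ≤ 2 then y z else 0

def hi (G : SimpleGraph V) (y : Cq G → ℝ) : ℝ := ∑ᶠ z : Cq G, if z.1.card ≤ 2 then 0 else y z

/-- domain cells -/
def Dc (G : SimpleGraph V) : Co V → Set (Cq G → ℝ)
  | Sum.inl v => {y | y ∈ Rl (sd G) Set.univ ∧ (∀ z, y z ≠ 0 → v ∈ z.1) ∧ 1 / 2 ≤ lo G y}
  | Sum.inr t => {y | y ∈ Rl (sd G) Set.univ ∧ IsTet G t ∧ (∀ z, y z ≠ 0 → z.1 ⊆ t) ∧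
      1 / 2 ≤ hi G y}

theorem lo_add_hi [Finite V] (G : SimpleGraph V) {y : Cq G → ℝ} (hy : y ∈ Rl (sd G) Set.univ) :
    lo G y + hi G y = 1 := by
  unfold lo hi
  rw [← finsum_add_distrib (Set.toFinite _) (Set.toFinite _), ← hy.2.1]
  refine finsum_congr fun z => ?_
  split_ifs
  · rw [add_zero]
  · rw [zero_add]

private theorem fs42 {ι : Type} [Finite ι] {X : Type} [TopologicalSpace X] {f : ι → X → ℝ}
    (h : ∀ i, Continuous (f i)) : Continuous fun x => ∑ᶠ i, f i x := by
  have : Fintype ι := Fintype.ofFinite ι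
  have e : (fun x => ∑ᶠ i, f i x) = fun x => ∑ i, f i x := by
    funext x
    exact finsum_eq_sum_of_fintype _
  rw [e]
  exact continuous_finsetSum _ fun i _ => h i

private theorem lo_cont42 [Finite V] (G : SimpleGraph V) : Continuous (lo G) := by
  unfold lo
  refine fs42 fun z => ?_
  split_ifs
  · exact continuous_apply z
  · exact continuous_const

private theorem hi_cont42 [Finite V] (G : SimpleGraph V) : Continuous (hi G) := by
  unfold hi
  refine fs42 fun z => ?_
  split_ifs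
  · exact continuous_const
  · exact continuous_apply z

private theorem sup_closed42 {X : Type} (p : X → Prop) :
    IsClosed {y : X → ℝ | ∀ z, y z ≠ 0 → p z} := by
  have e : {y : X → ℝ | ∀ z, y z ≠ 0 → p z} = ⋂ z, {y : X → ℝ | y z ≠ 0 → p z} := by
    ext y; simp only [Set.mem_ofPred_eq, Set.mem_iInter]
  rw [e]
  refine isClosed_iInter fun z => ?_
  by_cases hp : p z
  · have : {y : X → ℝ | y z ≠ 0 → p z} = Set.univ := by
      ext y; simp only [Set.mem_ofPred_eq, Set.mem_univ, iff_true]; exact fun _ => hp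
    rw [this]; exact isClosed_univ
  · have : {y : X → ℝ | y z ≠ 0 → p z} = {y : X → ℝ | y z = 0} := by
      ext y; simp only [Set.mem_ofPred_eq]
      constructor
      · intro h; by_contra h'; exact hp (h h')
      · intro h h'; exact absurd h h'
    rw [this]
    exact isClosed_eq (continuous_apply z) continuous_const

private theorem Rl_closed42 {X : Type} [Finite X] (G : SimpleGraph X) :
    IsClosed (Rl G Set.univ) := by
  have e : Rl G Set.univ = (⋂ x, {c : X → ℝ | 0 ≤ c x}) ∩ ({c : X → ℝ | ∑ᶠ x, c x = 1} ∩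
      ⋂ x, ⋂ y, {c : X → ℝ | c x ≠ 0 → c y ≠ 0 → x ≠ y → G.Adj x y}) := by
    ext c
    simp only [Rl, Set.mem_ofPred_eq, Set.mem_inter_iff, Set.mem_iInter, Set.mem_univ,
      implies_true, true_and]
  rw [e]
  refine (isClosed_iInter fun x => isClosed_le continuous_const (continuous_apply x)).inter
    ((isClosed_eq (fs42 fun x => continuous_apply x) continuous_const).inter
      (isClosed_iInter fun x => isClosed_iInter fun y => ?_))
  by_cases h : x ≠ y → G.Adj x y
  · have : {c : X → ℝ | c x ≠ 0 → c y ≠ 0 → x ≠ y → G.Adj x y} = Set.univ := by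
      ext c; simp only [Set.mem_ofPred_eq, Set.mem_univ, iff_true]; exact fun _ _ => h
    rw [this]; exact isClosed_univ
  · have : {c : X → ℝ | c x ≠ 0 → c y ≠ 0 → x ≠ y → G.Adj x y} =
        {c : X → ℝ | c x = 0} ∪ {c : X → ℝ | c y = 0} := by
      ext c; simp only [Set.mem_ofPred_eq, Set.mem_union]
      constructor
      · intro h1
        by_contra h2
        rw [not_or] at h2
        exact h (h1 h2.1 h2.2)
      · rintro (h1 | h1) h2 h3
        · exact absurd h1 h2
        · exact absurd h1 h3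
    rw [this]
    exact (isClosed_eq (continuous_apply x) continuous_const).union
      (isClosed_eq (continuous_apply y) continuous_const)

theorem Dc_closed [Finite V] (G : SimpleGraph V) (a : Co V) : IsClosed (Dc G a) := by
  rcases a with v | t
  · have e : Dc G (Sum.inl v) = Rl (sd G) Set.univ ∩ ({y | ∀ z, y z ≠ 0 → v ∈ z.1} ∩
        {y | 1 / 2 ≤ lo G y}) := rfl
    rw [e]
    exact (Rl_closed42 _).inter ((sup_closed42 _).inter
      (isClosed_le continuous_const (lo_cont42 G)))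
  · by_cases ht : IsTet G t
    · have e : Dc G (Sum.inr t) = Rl (sd G) Set.univ ∩ ({y | ∀ z, y z ≠ 0 → z.1 ⊆ t} ∩
          {y | 1 / 2 ≤ hi G y}) := by
        ext y
        exact ⟨fun h => ⟨h.1, h.2.2.1, h.2.2.2⟩, fun h => ⟨h.1, ht, h.2.1, h.2.2⟩⟩
      rw [e]
      exact (Rl_closed42 _).inter ((sup_closed42 _).inter
        (isClosed_le continuous_const (hi_cont42 G)))
    · have e : Dc G (Sum.inr t) = ∅ := by
        ext y
        exact ⟨fun h => absurd h.2.1 ht, fun h => absurd h (Set.notMem_empty y)⟩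
      rw [e]; exact isClosed_empty

theorem Dc_sub (G : SimpleGraph V) (a : Co V) : Dc G a ⊆ Rl (sd G) Set.univ := by
  rcases a with v | t
  · exact fun y hy => hy.1
  · exact fun y hy => hy.1

private theorem supp_ne42 {X : Type} {G : SimpleGraph X} {y : X → ℝ}
    (hy : y ∈ Rl G Set.univ) : ∃ z, y z ≠ 0 := by
  by_contra h
  have h' : ∀ z, y z = 0 := by
    intro z; by_contra h'; exact h ⟨z, h'⟩
  have h1 := hy.2.1
  rw [finsum_congr h', finsum_zero] at h1
  exact zero_ne_one h1

private theorem supp_cmp42 {G : SimpleGraph V} {y : Cq G → ℝ} (hy : y ∈ Rl (sd G) Set.univ)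
    {z w : Cq G} (hz : y z ≠ 0) (hw : y w ≠ 0) : z ≤ w ∨ w ≤ z := by
  by_cases e : z = w
  · exact Or.inl e.le
  · rcases hy.2.2.2 z w hz hw e with h | h
    · exact Or.inl h.le
    · exact Or.inr h.le

private theorem mn42 [Finite V] {G : SimpleGraph V} {y : Cq G → ℝ}
    (hy : y ∈ Rl (sd G) Set.univ) : ∃ z0, y z0 ≠ 0 ∧ ∀ z, y z ≠ 0 → z0.1 ⊆ z.1 := by
  obtain ⟨z0, h0, hmin⟩ := Set.exists_min_image {z : Cq G | y z ≠ 0} (fun z => z.1.card)
    (Set.toFinite _) (supp_ne42 hy)
  refine ⟨z0, h0, fun z hz => ?_⟩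
  rcases supp_cmp42 hy h0 hz with h | h
  · exact h
  · exact (Finset.eq_of_subset_of_card_le h (hmin z hz)).ge

private theorem mx42 [Finite V] {G : SimpleGraph V} {y : Cq G → ℝ}
    (hy : y ∈ Rl (sd G) Set.univ) : ∃ z1, y z1 ≠ 0 ∧ ∀ z, y z ≠ 0 → z.1 ⊆ z1.1 := by
  obtain ⟨z1, h1, hmax⟩ := Set.exists_max_image {z : Cq G | y z ≠ 0} (fun z => z.1.card)
    (Set.toFinite _) (supp_ne42 hy)
  refine ⟨z1, h1, fun z hz => ?_⟩
  rcases supp_cmp42 hy h1 hz with h | h
  · exact (Finset.eq_of_subset_of_card_le h (hmax z hz)).ge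
  · exact h

private theorem ext42 {G : SimpleGraph V} (hG : IsSph3 G) {s : Finset V} (hs : s.Nonempty)
    (hc : G.IsClique (s : Set V)) (h3 : s.card ≤ 3) :
    ∃ x, x ∉ s ∧ G.IsClique ((insert x s : Finset V) : Set V) := by
  have key : (Lk G (s : Set V)).Nonempty := by
    have h1 := hs.card_pos
    have h2 : s.card = 1 ∨ s.card = 2 ∨ s.card = 3 := by omega
    rcases h2 with h2 | h2 | h2
    · obtain ⟨x, rfl⟩ := Finset.card_eq_one.1 h2
      rw [Finset.coe_singleton]
      exact (hG.vert x).1.1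
    · exact (hG.edge s hc h2).1.1
    · apply Set.nonempty_of_ncard_ne_zero
      rw [hG.tri s hc h2]; norm_num
  obtain ⟨x, hx⟩ := key
  have hx' : ∀ u ∈ s, G.Adj u x := fun u hu => hx u (Finset.mem_coe.2 hu)
  refine ⟨x, fun h => (hx' x h).ne rfl, ?_⟩
  intro a ha b hb hab
  rw [Finset.mem_coe, Finset.mem_insert] at ha hb
  rcases ha with rfl | ha
  · rcases hb with rfl | hb
    · exact absurd rfl hab
    · exact (hx' b hb).symm
  · rcases hb with rfl | hb
    · exact hx' a ha
    · exact hc (Finset.mem_coe.2 ha) (Finset.mem_coe.2 hb) hab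

/-- every simplex is contained in a simplex with `n` vertices, `n ≤ 4` -/
private theorem extn42 {G : SimpleGraph V} (hG : IsSph3 G) {s : Finset V} (hs : s.Nonempty)
    (hc : G.IsClique (s : Set V)) (n : ℕ) (hn : n ≤ 4) (hsn : s.card ≤ n) :
    ∃ t : Finset V, s ⊆ t ∧ G.IsClique (t : Set V) ∧ t.card = n := by
  obtain ⟨k, rfl⟩ := Nat.exists_eq_add_of_le hsn
  clear hsn
  induction k with
  | zero => exact ⟨s, subset_rfl, hc, rfl⟩
  | succ k ih =>
    obtain ⟨t, h1, h2, h3⟩ := ih (by omega)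
    obtain ⟨x, hx, hx'⟩ := ext42 hG (hs.mono h1) h2 (by omega)
    exact ⟨insert x t, h1.trans (Finset.subset_insert _ _), hx', by
      rw [Finset.card_insert_of_notMem hx, h3]; omega⟩

/-- the two tetrahedra at a triangle -/
private theorem tt42 {G : SimpleGraph V} (hG : IsSph3 G) {f : Finset V}
    (hc : G.IsClique (f : Set V)) (h3 : f.card = 3) :
    ∃ t t' : Finset V, IsTet G t ∧ IsTet G t' ∧ t ≠ t' ∧ t ∩ t' = f ∧
      ∀ s, IsTet G s → f ⊆ s → s = t ∨ s = t' := by
  obtain ⟨p, q, hpq, hset⟩ := Set.ncard_eq_two.1 (hG.tri f hc h3)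
  have hp : ∀ u ∈ f, G.Adj u p := by
    have : p ∈ Lk G (f : Set V) := by rw [hset]; exact Or.inl rfl
    exact fun u hu => this u (Finset.mem_coe.2 hu)
  have hq : ∀ u ∈ f, G.Adj u q := by
    have : q ∈ Lk G (f : Set V) := by rw [hset]; exact Or.inr rfl
    exact fun u hu => this u (Finset.mem_coe.2 hu)
  have hpf : p ∉ f := fun h => (hp p h).ne rfl
  have hqf : q ∉ f := fun h => (hq q h).ne rfl
  have hcl : ∀ x, (∀ u ∈ f, G.Adj u x) → G.IsClique ((insert x f : Finset V) : Set V) := by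
    intro x hx a ha b hb hab
    rw [Finset.mem_coe, Finset.mem_insert] at ha hb
    rcases ha with rfl | ha
    · rcases hb with rfl | hb
      · exact absurd rfl hab
      · exact (hx b hb).symm
    · rcases hb with rfl | hb
      · exact hx a ha
      · exact hc (Finset.mem_coe.2 ha) (Finset.mem_coe.2 hb) hab
  refine ⟨insert p f, insert q f, ⟨?_, hcl p hp⟩, ⟨?_, hcl q hq⟩, ?_, ?_, ?_⟩
  · rw [Finset.card_insert_of_notMem hpf, h3]
  · rw [Finset.card_insert_of_notMem hqf, h3]
  · intro h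
    have : p ∈ insert q f := by rw [← h]; exact Finset.mem_insert_self _ _
    rcases Finset.mem_insert.1 this with h' | h'
    · exact hpq h'
    · exact hpf h'
  · ext u
    simp only [Finset.mem_inter, Finset.mem_insert]
    constructor
    · rintro ⟨h1 | h1, h2 | h2⟩
      · exact absurd (h1.symm.trans h2) hpq
      · exact h2
      · exact h1
      · exact h1
    · exact fun h => ⟨Or.inr h, Or.inr h⟩
  · intro s hs hfs
    have hc1 : (s \ f).card = 1 := by
      rw [Finset.card_sdiff_of_subset hfs, hs.1, h3]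
    obtain ⟨r, hr⟩ := Finset.card_eq_one.1 hc1
    have hrs : r ∈ s \ f := by rw [hr]; exact Finset.mem_singleton_self r
    rw [Finset.mem_sdiff] at hrs
    have hsr : s = insert r f := by
      have h2 : f ∪ (s \ f) = s := Finset.union_sdiff_of_subset hfs
      rw [← h2, hr, Finset.union_comm]; rfl
    have hrl : r ∈ Lk G (f : Set V) := by
      intro u hu
      refine hs.2 (Finset.mem_coe.2 (hfs (Finset.mem_coe.1 hu))) (Finset.mem_coe.2 hrs.1) ?_
      rintro rfl
      exact hrs.2 (Finset.mem_coe.1 hu)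
    rw [hset] at hrl
    rcases hrl with h | h
    · left; rw [hsr, h]
    · right; rw [hsr, Set.mem_singleton_iff.1 h]

/-- the cells cover -/
theorem Dc_cover [Finite V] {G : SimpleGraph V} (hG : IsSph3 G) :
    Rl (sd G) Set.univ ⊆ ⋃ a, Dc G a := by
  intro y hy
  have hsum := lo_add_hi G hy
  rw [Set.mem_iUnion]
  rcases le_or_gt (1 / 2) (lo G y) with h | h
  · obtain ⟨z0, h0, h1⟩ := mn42 hy
    obtain ⟨v, hv⟩ := z0.2.1
    exact ⟨Sum.inl v, hy, fun z hz => h1 z hz hv, h⟩
  · obtain ⟨z1, h0, h1⟩ := mx42 hy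
    obtain ⟨t, h2, h3, h4⟩ := extn42 hG z1.2.1 z1.2.2 4 le_rfl (hG.k5 z1.1 z1.2.2)
    exact ⟨Sum.inr t, hy, ⟨h4, h3⟩, fun z hz => (h1 z hz).trans h2, by linarith⟩

private theorem lo_ex42 {G : SimpleGraph V} {y : Cq G → ℝ} (h : 1 / 2 ≤ lo G y) :
    ∃ z, y z ≠ 0 ∧ z.1.card ≤ 2 := by
  by_contra hn
  have h' : ∀ z : Cq G, (if z.1.card ≤ 2 then y z else 0) = 0 := by
    intro z
    split_ifs with hz
    · by_contra h'; exact hn ⟨z, h', hz⟩
    · rfl
  unfold lo at h
  rw [finsum_congr h', finsum_zero] at h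
  norm_num at h

private theorem hi_ex42 {G : SimpleGraph V} {y : Cq G → ℝ} (h : 1 / 2 ≤ hi G y) :
    ∃ z, y z ≠ 0 ∧ 3 ≤ z.1.card := by
  by_contra hn
  have h' : ∀ z : Cq G, (if z.1.card ≤ 2 then 0 else y z) = 0 := by
    intro z
    split_ifs with hz
    · rfl
    · by_contra h'; exact hn ⟨z, h', by omega⟩
  unfold hi at h
  rw [finsum_congr h', finsum_zero] at h
  norm_num at h

/-- the midpoint of two comparable simplices -/
private def mid42 {G : SimpleGraph V} (e f : Cq G) : Cq G → ℝ :=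
  fun z => (if z = e then 1 / 2 else 0) + (if z = f then 1 / 2 else 0)

private theorem fin1_42 {X : Type} [Finite X] (e : X) (g : X → ℝ) :
    ∑ᶠ z, (if z = e then g z else 0) = g e := by
  rw [finsum_eq_single _ e (fun z hz => if_neg hz), if_pos rfl]

private theorem mid_ne42 {G : SimpleGraph V} {e f z : Cq G} (h : mid42 e f z ≠ 0) :
    z = e ∨ z = f := by
  by_contra hn
  rw [not_or] at hn
  apply h
  unfold mid42
  rw [if_neg hn.1, if_neg hn.2, add_zero]

private theorem mid_mem42 [Finite V] {G : SimpleGraph V} {e f : Cq G} (hef : e < f) :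
    mid42 e f ∈ Rl (sd G) Set.univ := by
  refine ⟨?_, ?_, fun _ _ => Set.mem_univ _, ?_⟩
  · intro z
    unfold mid42
    have : (0 : ℝ) ≤ 1 / 2 := by norm_num
    split_ifs <;> linarith
  · unfold mid42
    rw [finsum_add_distrib (Set.toFinite _) (Set.toFinite _), fin1_42 e (fun _ => 1 / 2),
      fin1_42 f (fun _ => 1 / 2)]
    norm_num
  · intro z w hz hw hzw
    rcases mid_ne42 hz with rfl | rfl <;> rcases mid_ne42 hw with rfl | rfl
    · exact absurd rfl hzw
    · exact Or.inl hef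
    · exact Or.inr hef
    · exact absurd rfl hzw

private theorem mid_lo42 [Finite V] {G : SimpleGraph V} {e f : Cq G} (he : e.1.card ≤ 2)
    (hf : ¬ f.1.card ≤ 2) : lo G (mid42 e f) = 1 / 2 := by
  have h : ∀ z : Cq G, (if z.1.card ≤ 2 then mid42 e f z else 0) =
      if z = e then (1 / 2 : ℝ) else 0 := by
    intro z
    unfold mid42
    by_cases h1 : z = e
    · subst h1
      rw [if_pos he, if_pos rfl, if_neg (fun h => hf (by rw [← h]; exact he)), add_zero]
    · rw [if_neg h1, zero_add]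
      by_cases h2 : z = f
      · rw [h2, if_neg hf]
      · rw [if_neg h2, ite_self]
  unfold lo
  rw [finsum_congr h, fin1_42 e (fun _ => (1 / 2 : ℝ))]

/-- nonempty intersections = simplices of `T` (`⇐`: midpoint of the edge `vw` and the triangle
`t ∩ t'`; `⇒`: smallest and largest simplex of the support) -/
theorem XI_Dc_ne [Finite V] {G : SimpleGraph V} (hG : IsSph3 G) {A : Set (Co V)}
    (hA : A.Nonempty) : (XI (Dc G) A).Nonempty ↔ TS G A := by
  constructor
  · rintro ⟨y, hy⟩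
    have hyR : y ∈ Rl (sd G) Set.univ := by
      obtain ⟨a, ha⟩ := hA
      exact Dc_sub G a (hy a ha)
    obtain ⟨z0, h0, hmin⟩ := mn42 hyR
    obtain ⟨z1, h1, hmax⟩ := mx42 hyR
    have hv : ∀ v, Sum.inl v ∈ A → v ∈ z0.1 ∧ z0.1.card ≤ 2 := by
      intro v hv
      have h := hy _ hv
      obtain ⟨z, hz, hz2⟩ := lo_ex42 h.2.2
      exact ⟨h.2.1 z0 h0, (Finset.card_le_card (hmin z hz)).trans hz2⟩
    have ht : ∀ t, Sum.inr t ∈ A → IsTet G t ∧ z1.1 ⊆ t ∧ 3 ≤ z1.1.card := by
      intro t ht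
      have h := hy _ ht
      obtain ⟨z, hz, hz2⟩ := hi_ex42 h.2.2.2
      exact ⟨h.2.1, h.2.2.1 z1 h1, hz2.trans (Finset.card_le_card (hmax z hz))⟩
    -- the small simplex
    obtain ⟨P, hPz, hP2, hPA⟩ : ∃ P : Finset V, P ⊆ z0.1 ∧ P.card ≤ 2 ∧
        ∀ v, Sum.inl v ∈ A → v ∈ P := by
      by_cases h : ∃ v, (Sum.inl v : Co V) ∈ A
      · obtain ⟨v, hv'⟩ := h
        exact ⟨z0.1, subset_rfl, (hv v hv').2, fun w hw => (hv w hw).1⟩
      · exact ⟨∅, Finset.empty_subset _, by simp, fun v hv' => absurd ⟨v, hv'⟩ h⟩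
    -- the triangle
    obtain ⟨f, hPf, hfc, hf3, hfA⟩ : ∃ f : Finset V, P ⊆ f ∧ G.IsClique (f : Set V) ∧
        f.card = 3 ∧ ∀ t, Sum.inr t ∈ A → IsTet G t ∧ f ⊆ t := by
      by_cases h : ∃ t, (Sum.inr t : Co V) ∈ A
      · obtain ⟨t, ht'⟩ := h
        obtain ⟨f, hPf, hfz, hf3⟩ := Finset.exists_subsuperset_card_eq (hPz.trans (hmin z1 h1))
          (hP2.trans (by norm_num : 2 ≤ 3)) (ht t ht').2.2
        exact ⟨f, hPf, z1.2.2.subset (Finset.coe_subset.2 hfz), hf3,
          fun s hs => ⟨(ht s hs).1, hfz.trans (ht s hs).2.1⟩⟩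
      · have hz2 : z0.1.card ≤ 2 := by
          obtain ⟨a, ha⟩ := hA
          rcases a with v | t
          · exact (hv v ha).2
          · exact absurd ⟨t, ha⟩ h
        obtain ⟨f, hf1, hf2, hf3⟩ := extn42 hG z0.2.1 z0.2.2 3 (by norm_num) (by omega)
        exact ⟨f, hPz.trans hf1, hf2, hf3, fun t ht' => absurd ⟨t, ht'⟩ h⟩
    obtain ⟨e, hPe, hef, he2⟩ := Finset.exists_subsuperset_card_eq hPf hP2
      (by rw [hf3]; norm_num)
    obtain ⟨v, w, hvw, rfl⟩ := Finset.card_eq_two.1 he2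
    obtain ⟨t, t', k1, k2, k3, k4, k5⟩ := tt42 hG hfc hf3
    refine ⟨v, w, t, t', hvw, ?_, ?_, k1, k2, ⟨k3, by rw [k4, hf3]⟩, ?_⟩
    · rw [k4]; exact hef (by simp)
    · rw [k4]; exact hef (by simp)
    · rintro (x | s) hx
      · have h2 := hPe (hPA x hx)
        rw [Finset.mem_insert, Finset.mem_singleton] at h2
        rcases h2 with rfl | rfl
        · exact Or.inl rfl
        · exact Or.inr (Or.inl rfl)
      · obtain ⟨h2, h3⟩ := hfA s hx
        rcases k5 s h2 h3 with rfl | rfl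
        · exact Or.inr (Or.inr (Or.inl rfl))
        · exact Or.inr (Or.inr (Or.inr rfl))
  · rintro ⟨v, w, t, t', hvw, hv, hw, ht, ht', ⟨hne, hc3⟩, hAs⟩
    rw [Finset.mem_inter] at hv hw
    have hadj : G.Adj v w := ht.2 (Finset.mem_coe.2 hv.1) (Finset.mem_coe.2 hw.1) hvw
    have hfne : (t ∩ t').Nonempty := ⟨v, Finset.mem_inter.2 hv⟩
    let e : Cq G := ⟨{v, w}, ⟨v, Finset.mem_insert_self _ _⟩, by
      rw [Finset.coe_pair]
      exact SimpleGraph.isClique_pair.2 fun _ => hadj⟩
    let f : Cq G := ⟨t ∩ t', hfne, ht.2.subset (Finset.coe_subset.2 Finset.inter_subset_left)⟩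
    have he1 : e.1 = {v, w} := rfl
    have hf1 : f.1 = t ∩ t' := rfl
    have hes : e.1 ⊆ f.1 := by
      rw [he1, hf1]
      intro u hu
      rw [Finset.mem_insert, Finset.mem_singleton] at hu
      rcases hu with rfl | rfl
      · exact Finset.mem_inter.2 hv
      · exact Finset.mem_inter.2 hw
    have he2 : e.1.card = 2 := by rw [he1]; exact Finset.card_pair hvw
    have hf3 : f.1.card = 3 := by rw [hf1]; exact hc3
    have hlt : e < f := by
      refine lt_of_le_of_ne hes (fun h => ?_)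
      rw [h, hf3] at he2
      norm_num at he2
    have hR := mid_mem42 hlt
    have hlo : lo G (mid42 e f) = 1 / 2 := mid_lo42 he2.le (by rw [hf3]; norm_num)
    have hhi : hi G (mid42 e f) = 1 / 2 := by
      have := lo_add_hi G hR
      rw [hlo] at this
      linarith
    have hV : ∀ u, u ∈ e.1 → mid42 e f ∈ Dc G (Sum.inl u) := by
      intro u hu
      refine ⟨hR, fun z hz => ?_, hlo.ge⟩
      rcases mid_ne42 hz with rfl | rfl
      · exact hu
      · exact hes hu
    have hT : ∀ s, IsTet G s → f.1 ⊆ s → mid42 e f ∈ Dc G (Sum.inr s) := by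
      intro s hs hfs
      refine ⟨hR, hs, fun z hz => ?_, hhi.ge⟩
      rcases mid_ne42 hz with rfl | rfl
      · exact hes.trans hfs
      · exact hfs
    refine ⟨mid42 e f, fun a ha => ?_⟩
    rcases hAs ha with rfl | rfl | rfl | h
    · exact hV v (by rw [he1]; simp)
    · exact hV w (by rw [he1]; simp)
    · exact hT t ht (by rw [hf1]; exact Finset.inter_subset_left)
    · rw [Set.mem_singleton_iff.1 h]
      exact hT t' ht' (by rw [hf1]; exact Finset.inter_subset_right)

end MOT.J
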