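import Pool.Agent.MOT.St4
import Pool.Agent.MOT.Pr

/-!
# MOT/St5: the pair of towers of a homeomorphism (helper18, block C1)

`F : Re K.G → Re K'.G` is a homeomorphism with inverse `E`.
-/

open Classical

noncomputable section

namespace MOT

/-- a homeomorphism of the realisations `Re K.G`, `Re K'.G`, as two maps -/
structure RH (K K' : Lv) (F : (K.V → ℝ) → K'.V → ℝ) (E : (K'.V → ℝ) → K.V → ℝ) : Prop where
  contF : ContinuousOn F (Re K.G)
  contE : ContinuousOn E (Re K'.G)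
  mapF : Set.MapsTo F (Re K.G) (Re K'.G)
  mapE : Set.MapsTo E (Re K'.G) (Re K.G)
  EF : ∀ y ∈ Re K.G, E (F y) = y
  FE : ∀ y ∈ Re K'.G, F (E y) = y

variable {K K' : Lv} {F : (K.V → ℝ) → K'.V → ℝ} {E : (K'.V → ℝ) → K.V → ℝ}

/-- the pair of a homeomorphism: `up m n u x` iff `F (star u) ⊆ star x`, `dn n m x u` iff
`F⁻¹ (star x) ⊆ star u` -/
def RH.pair (h : RH K K' F E) (hk : ∀ s : Finset K.V, K.G.IsClique (s : Set K.V) → s.card ≤ 4)
    (hk' : ∀ s : Finset K'.V, K'.G.IsClique (s : Set K'.V) → s.card ≤ 4) : Pair K K' where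
  up m n u x := ∀ y ∈ ost K m u, F y ∈ ost K' n x
  dn n m x u := ∀ y ∈ ost K' n x, E y ∈ ost K m u
  up_ex n := star_map hk h.contF h.mapF n
  dn_ex m := star_map hk' h.contE h.mapE m
  up_nr m n u u' x x' h1 h2 hn := by
    obtain ⟨y, hy, hy'⟩ := ost_inter.2 hn
    exact ost_inter.1 ⟨F y, h1 y hy, h2 y hy'⟩
  dn_nr n m x x' u u' h1 h2 hn := by
    obtain ⟨y, hy, hy'⟩ := ost_inter.2 hn
    exact ost_inter.1 ⟨E y, h1 y hy, h2 y hy'⟩
  dn_up n k m x u y h1 h2 := by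
    refine ost_sub_iff.1 fun z hz => ?_
    rw [← h.FE z hz.1]
    exact h2 _ (h1 z hz)
  up_dn m k n u x w h1 h2 := by
    refine ost_sub_iff.1 fun z hz => ?_
    rw [← h.EF z hz.1]
    exact h2 _ (h1 z hz)
  dn_dn n k m j x x' y z u hxx hy h1 h2 w hw := by
    obtain ⟨p, hp, hp'⟩ := ost_inter.2 hxx
    exact ost_inter.1 ⟨E p, ost_sub_iff.2 hw (h1 p hp'), h2 p (ost_sub_iff.2 hy hp)⟩

theorem RH.pair_up (h : RH K K' F E) (hk : ∀ s : Finset K.V, K.G.IsClique (s : Set K.V) → s.card ≤ 4)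
    (hk' : ∀ s : Finset K'.V, K'.G.IsClique (s : Set K'.V) → s.card ≤ 4) {m n : ℕ}
    {u : (tw K m).V} {x : (tw K' n).V} :
    (h.pair hk hk').up m n u x ↔ ∀ y ∈ ost K m u, F y ∈ ost K' n x := Iff.rfl

theorem RH.pair_dn (h : RH K K' F E) (hk : ∀ s : Finset K.V, K.G.IsClique (s : Set K.V) → s.card ≤ 4)
    (hk' : ∀ s : Finset K'.V, K'.G.IsClique (s : Set K'.V) → s.card ≤ 4) {m n : ℕ}
    {x : (tw K' n).V} {u : (tw K m).V} :
    (h.pair hk hk').dn n m x u ↔ ∀ y ∈ ost K' n x, E y ∈ ost K m u := Iff.rfl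

/-- cliques of the 16-cell -/
theorem k5_cell16 (R : ℝ) (s : Finset (cell16 R).V) (hs : (cell16 R).G.IsClique (s : Set (cell16 R).V)) :
    s.card ≤ 4 := by
  have h : s.card ≤ (Finset.univ : Finset (Fin 4)).card := by
    refine Finset.card_le_card_of_injOn (fun x : Fin 4 × Bool => x.1) (fun x _ => Finset.mem_univ _) ?_
    intro x hx y hy hxy
    by_contra hne
    exact hs hx hy hne hxy
  simpa using h

end MOT
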