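import Pool.Agent.MOT.FnB
import Pool.Agent.MOT.FnDef
import Pool.Agent.MOT.St5
import Pool.Agent.MOT.JdDef

/-!
# MOT/FnF: the small sets of the domain and the location of the cells (helper90)
-/

open Classical

noncomputable section

namespace MOT.Fn

variable {K : Lv}

theorem sub_nbk {V : Type} {G : SimpleGraph V} {D : Set V} : ∀ k, D ⊆ nbk G k D
  | 0 => subset_rfl
  | k + 1 => (sub_nbk k).trans sub_nb

theorem nbk_dist (hk : ∀ s : Finset K.V, K.G.IsClique (s : Set K.V) → s.card ≤ 4) (n : ℕ)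
    {D : Set (tw K n).V} : ∀ (k : ℕ) {w : (tw K n).V}, w ∈ nbk (tw K n).G k D →
      ∃ v ∈ D, ∀ x, |pt K n w x - pt K n v x| ≤ k * (3 / 4 : ℝ) ^ n
  | 0, w, hw => ⟨w, hw, fun x => by simp⟩
  | k + 1, w, hw => by
    obtain ⟨w', hw', hn⟩ := hw
    obtain ⟨v, hv, h⟩ := nbk_dist hk n k hw'
    refine ⟨v, hv, fun x => ?_⟩
    have h1 := mesh_pt hk n w w' hn x
    have h2 := h x
    have h3 : |pt K n w x - pt K n v x| ≤ |pt K n w x - pt K n w' x| + |pt K n w' x - pt K n v x| :=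
      abs_sub_le _ _ _
    push_cast
    linarith

/-- small set belonging to the colour `a` -/
def Bg (K : Lv) (n c0 : ℕ) (a : Co (tw K n).V) : Set (K.V → ℝ) :=
  {y | (∀ t, a = Sum.inr t → IsTet (tw K n).G t) ∧
    ∃ w ∈ nbk (tw K n).G c0 (covs a), y ∈ ost K n w}

theorem Bg_sub {n c0 : ℕ} {a : Co (tw K n).V} : Bg K n c0 a ⊆ Re K.G := fun _ h => by
  obtain ⟨-, w, -, hw⟩ := h
  exact hw.1

theorem Bg_diam (hk : ∀ s : Finset K.V, K.G.IsClique (s : Set K.V) → s.card ≤ 4) {n c0 : ℕ}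
    {a : Co (tw K n).V} {y y' : K.V → ℝ} (hy : y ∈ Bg K n c0 a) (hy' : y' ∈ Bg K n c0 a) (x : K.V) :
    |y x - y' x| ≤ (2 * c0 + 3) * (3 / 4 : ℝ) ^ n := by
  obtain ⟨ht, w, hw, h1⟩ := hy
  obtain ⟨-, w', hw', h1'⟩ := hy'
  obtain ⟨v, hv, h2⟩ := nbk_dist hk n c0 hw
  obtain ⟨v', hv', h2'⟩ := nbk_dist hk n c0 hw'
  have h3 : v = v' ∨ (tw K n).G.Adj v v' := by
    by_cases h : v = v'
    · exact Or.inl h
    · right
      cases a with
      | inl u =>
        have e1 : v = u := hv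
        have e2 : v' = u := hv'
        exact absurd (e1.trans e2.symm) h
      | inr t => exact (ht t rfl).2 hv hv' h
  have m1 := abs_le.mp (mesh_ost hk n h1 x)
  have m2 := abs_le.mp (mesh_ost hk n h1' x)
  have m3 := abs_le.mp (h2 x)
  have m4 := abs_le.mp (h2' x)
  have m5 := abs_le.mp (mesh_pt hk n v v' h3 x)
  rw [abs_le]
  constructor <;> nlinarith [m1.1, m1.2, m2.1, m2.2, m3.1, m3.2, m4.1, m4.2, m5.1, m5.2]

/-- a point of the realisation has a nonzero coordinate -/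
theorem exists_ne {V : Type} {G : SimpleGraph V} {A : Set V} {c : V → ℝ} (hc : c ∈ Rl G A) :
    ∃ x, c x ≠ 0 := by
  by_contra h
  push Not at h
  have h1 := hc.2.1
  simp only [h, finsum_zero] at h1
  exact zero_ne_one h1

/-- a point whose `sd` coordinates are nonzero at a simplex containing `x` is in the star of `x` -/
theorem re_ost {n : ℕ} {c : Cq (tw K n).G → ℝ} (hc : c ∈ Re (sd (tw K n).G))
    {s : Cq (tw K n).G} (hs : c s ≠ 0) {x : (tw K n).V} (hx : x ∈ s.1) :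
    re K (n + 1) c ∈ ost K n x := by
  have h1 : rdn (tw K n).G c ∈ Re (tw K n).G := rdn_mem hc
  have h2 : co K n (re K (n + 1) c) = rdn (tw K n).G c := co_re n h1
  refine ⟨re_mem n h1, ?_⟩
  rw [h2]
  have h3 : rdn (tw K n).G c x ≠ 0 := (rdn_ne hc.1).mpr ⟨s, hx, hs⟩
  exact lt_of_le_of_ne (h1.1 x) (Ne.symm h3)

/-- domain cells are small -/
theorem Dc_Bg {n c0 : ℕ} {a : Co (tw K n).V} {c : Cq (tw K n).G → ℝ} (hc : c ∈ J.Dc (tw K n).G a) :
    c ∈ Re (sd (tw K n).G) ∧ re K (n + 1) c ∈ Bg K n c0 a := by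
  cases a with
  | inl v =>
    obtain ⟨h1, h2, -⟩ := hc
    obtain ⟨z, hz⟩ := exists_ne h1
    refine ⟨h1, fun t h => (by cases h), v, sub_nbk c0 rfl, re_ost h1 hz (h2 z hz)⟩
  | inr t =>
    obtain ⟨h1, h2, h3, -⟩ := hc
    obtain ⟨z, hz⟩ := exists_ne h1
    obtain ⟨x, hx⟩ := z.2.1
    refine ⟨h1, fun t' h => ?_, x, sub_nbk c0 (h3 z hz hx), re_ost h1 hz hx⟩
    cases h
    exact h2

/-- range cells lie in the stars of the vertices of their colour -/
theorem Rc_ost {n : ℕ} {C : Type} {κ : (tw K n).V → C} {a : C} {z : Cq (tw K n).G → ℝ}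
    (hz : z ∈ Rl (sd (tw K n).G) (XX (tw K n).G κ {a})) :
    ∃ x, κ x = a ∧ re K (n + 1) z ∈ ost K n x := by
  obtain ⟨s, hs⟩ := exists_ne hz
  obtain ⟨x, hx, hxa⟩ := hz.2.2.1 s hs a rfl
  exact ⟨x, hxa, re_ost (rl_re hz) hs hx⟩

/-- range cells cover -/
theorem Rc_cover {V C : Type} [Finite V] {G : SimpleGraph V} (κ : V → C) {z : Cq G → ℝ}
    (hz : z ∈ Re (sd G)) : ∃ a, z ∈ Rl (sd G) (XX G κ {a}) := by
  have hfin : {s : Cq G | z s ≠ 0}.Finite := Set.toFinite _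
  obtain ⟨s0, hs0, hmin⟩ := hfin.exists_minimalFor (fun s : Cq G => s.1.card) _ (exists_ne hz)
  obtain ⟨x, hx⟩ := s0.2.1
  refine ⟨κ x, hz.1, hz.2.1, fun s hs a ha => ?_, hz.2.2.2⟩
  have ha' : a = κ x := ha
  refine ⟨x, ?_, ha'.symm⟩
  by_cases h : s = s0
  · rw [h]; exact hx
  · rcases hz.2.2.2 s s0 hs hs0 h with h1 | h1
    · have h2 : s.1.card < s0.1.card := Finset.card_lt_card h1
      have h3 := hmin (j := s) hs h2.le
      exact absurd h2 (not_lt.mpr h3)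
    · exact (le_of_lt h1 : s0.1 ⊆ s.1) hx

end MOT.Fn
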