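import Pool.Agent.MOT.DmB
import Pool.Agent.MOT.Pat

/-!
# MOT/FnK: complements of the colour classes of a pattern are connected (helper90)
-/

open Classical

noncomputable section

namespace MOT.Fn

section coarse

variable {Vc : Type} {Gc : SimpleGraph Vc}

theorem tri_of_edge (h : IsSph3 Gc) {v w : Vc} (hvw : Gc.Adj v w) :
    ∃ u, Gc.Adj v u ∧ Gc.Adj w u := by
  have h1 := h.edge {v, w} (by
    intro x hx y hy hxy
    simp only [Finset.coe_insert, Finset.coe_singleton, Set.mem_insert_iff,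
      Set.mem_singleton_iff] at hx hy
    rcases hx with rfl | rfl <;> rcases hy with rfl | rfl
    · exact absurd rfl hxy
    · exact hvw
    · exact hvw.symm
    · exact absurd rfl hxy) (Finset.card_pair hvw.ne)
  obtain ⟨u, hu⟩ := h1.1.1
  exact ⟨u, hu v (by simp), hu w (by simp)⟩

theorem isTet_insert {f : Finset Vc} (hf : Gc.IsClique (f : Set Vc)) (h3 : f.card = 3) {p : Vc}
    (hp : p ∈ Lk Gc (f : Set Vc)) : IsTet Gc (insert p f) := by
  have hpf : p ∉ f := fun h => (hp p h).ne rfl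
  refine ⟨by rw [Finset.card_insert_of_notMem hpf, h3], ?_⟩
  rw [Finset.coe_insert]
  exact hf.insert fun x hx _ => (hp x hx).symm

theorem ts_facet {f : Finset Vc} (hf : Gc.IsClique (f : Set Vc)) (h3 : f.card = 3) {p q v w : Vc}
    (hp : p ∈ Lk Gc (f : Set Vc)) (hq : q ∈ Lk Gc (f : Set Vc)) (hpq : p ≠ q) (hv : v ∈ f)
    (hw : w ∈ f) (hvw : v ≠ w) {A : Set (Co Vc)}
    (hA : A ⊆ {Sum.inl v, Sum.inl w, Sum.inr (insert p f), Sum.inr (insert q f)}) : TS Gc A := by
  have hpf : p ∉ f := fun h => (hp p h).ne rfl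
  have hqf : q ∉ f := fun h => (hq q h).ne rfl
  have hi : insert p f ∩ insert q f = f := by
    ext x
    simp only [Finset.mem_inter, Finset.mem_insert]
    constructor
    · rintro ⟨rfl | h1, h2 | h2⟩
      · exact absurd h2 hpq
      · exact h2
      · exact h1
      · exact h1
    · intro h
      exact ⟨Or.inr h, Or.inr h⟩
  refine ⟨v, w, insert p f, insert q f, hvw, by rw [hi]; exact hv, by rw [hi]; exact hw,
    isTet_insert hf h3 hp, isTet_insert hf h3 hq, ⟨fun h => ?_, by rw [hi]; exact h3⟩, hA⟩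
  have h1 : p ∈ insert q f := by rw [← h]; exact Finset.mem_insert_self p f
  rcases Finset.mem_insert.mp h1 with h2 | h2
  · exact hpq h2
  · exact hpf h2

/-- adjacent vertices -/
theorem ts_edge (h : IsSph3 Gc) {v w : Vc} (hvw : Gc.Adj v w) :
    TS Gc {Sum.inl v, Sum.inl w} := by
  obtain ⟨u, h1, h2⟩ := tri_of_edge h hvw
  have hf : Gc.IsClique (({v, w, u} : Finset Vc) : Set Vc) := by
    intro x hx y hy hxy
    simp only [Finset.coe_insert, Finset.coe_singleton, Set.mem_insert_iff,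
      Set.mem_singleton_iff] at hx hy
    rcases hx with rfl | rfl | rfl <;> rcases hy with rfl | rfl | rfl <;>
      first
        | exact absurd rfl hxy
        | assumption
        | (apply SimpleGraph.Adj.symm; assumption)
  have h3 : ({v, w, u} : Finset Vc).card = 3 := by
    rw [Finset.card_eq_three]
    exact ⟨v, w, u, hvw.ne, h1.ne, h2.ne, rfl⟩
  obtain ⟨p, q, hpq, hl⟩ := Set.ncard_eq_two.mp (h.tri _ hf h3)
  have hp : p ∈ Lk Gc (({v, w, u} : Finset Vc) : Set Vc) := by rw [hl]; simp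
  have hq : q ∈ Lk Gc (({v, w, u} : Finset Vc) : Set Vc) := by rw [hl]; simp
  refine ts_facet hf h3 hp hq hpq (by simp : v ∈ ({v, w, u} : Finset Vc)) (by simp) hvw.ne ?_
  intro x hx
  rcases hx with rfl | hx
  · exact Or.inl rfl
  · exact Or.inr (Or.inl hx)

/-- vertices of a tetrahedron -/
theorem ts_tet (h : IsSph3 Gc) {v : Vc} {t : Finset Vc} (ht : IsTet Gc t) (hv : v ∈ t) :
    TS Gc {Sum.inl v, Sum.inr t} := by
  have h1 : (t.erase v).Nonempty := by
    rw [← Finset.card_pos, Finset.card_erase_of_mem hv, ht.1]; norm_num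
  obtain ⟨u, hu⟩ := h1
  obtain ⟨huv, hut⟩ := Finset.mem_erase.mp hu
  have h3 : (t.erase u).card = 3 := by rw [Finset.card_erase_of_mem hut, ht.1]
  have hf : Gc.IsClique ((t.erase u : Finset Vc) : Set Vc) :=
    ht.2.subset (by exact_mod_cast Finset.erase_subset u t)
  have hvf : v ∈ t.erase u := Finset.mem_erase.mpr ⟨fun h => huv h.symm, hv⟩
  have h4 : ((t.erase u).erase v).Nonempty := by
    rw [← Finset.card_pos, Finset.card_erase_of_mem hvf, h3]; norm_num
  obtain ⟨w, hw⟩ := h4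
  obtain ⟨hwv, hwf⟩ := Finset.mem_erase.mp hw
  have hul : u ∈ Lk Gc ((t.erase u : Finset Vc) : Set Vc) := by
    intro x hx
    obtain ⟨hxu, hxt⟩ := Finset.mem_erase.mp hx
    exact ht.2 hxt hut hxu
  obtain ⟨p, q, hpq, hl⟩ := Set.ncard_eq_two.mp (h.tri _ hf h3)
  have hex : ∃ q', q' ∈ Lk Gc ((t.erase u : Finset Vc) : Set Vc) ∧ u ≠ q' := by
    by_cases hup : u = p
    · exact ⟨q, by rw [hl]; simp, by rw [hup]; exact hpq⟩
    · exact ⟨p, by rw [hl]; simp, hup⟩
  obtain ⟨q', hq', huq⟩ := hex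
  refine ts_facet hf h3 hul hq' huq hvf hwf (fun h => hwv h.symm) ?_
  rw [Finset.insert_erase hut]
  intro x hx
  rcases hx with rfl | hx
  · exact Or.inl rfl
  · exact Or.inr (Or.inr (Or.inl hx))

theorem TS.mono {A B : Set (Co Vc)} (h : TS Gc A) (hBA : B ⊆ A) : TS Gc B := by
  obtain ⟨v, w, t, t', h1, h2, h3, h4, h5, h6, h7⟩ := h
  exact ⟨v, w, t, t', h1, h2, h3, h4, h5, h6, hBA.trans h7⟩

theorem ts_vert (h : IsSph3 Gc) (v : Vc) : TS Gc {Sum.inl v} := by
  obtain ⟨w, hw⟩ := (h.vert v).1.1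
  exact TS.mono (ts_edge h (hw v rfl)) (by simp)

theorem isTet_of_ts {t : Finset Vc} (h : TS Gc {Sum.inr t}) : IsTet Gc t := by
  obtain ⟨v, w, t1, t2, -, -, -, h1, h2, -, h3⟩ := h
  have h4 := h3 (Set.mem_singleton _)
  simp only [Set.mem_insert_iff, Set.mem_singleton_iff] at h4
  rcases h4 with h4 | h4 | h4 | h4
  · cases h4
  · cases h4
  · cases h4; exact h1
  · cases h4; exact h2

end coarse

theorem compl_conn {Vc V : Type} [Finite Vc] [Finite V] {Gc : SimpleGraph Vc}
    {G : SimpleGraph V} {κ : V → Co Vc} (hGc : IsSph3 Gc) (hP : PatT Gc G κ) (a : Co Vc)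
    (ha : TS Gc {a}) : Conn G (κ ⁻¹' {a})ᶜ := by
  set B : Set V := (κ ⁻¹' {a})ᶜ with hB
  -- classes are nonempty and connected
  have hne : ∀ b, TS Gc {b} → ∃ x, κ x = b := by
    intro b hb
    obtain ⟨s, hs⟩ := (hP.ne {b} (Set.singleton_nonempty b)).mpr hb
    obtain ⟨x, -, hx⟩ := hs b rfl
    exact ⟨x, hx⟩
  have hcl : ∀ x y, κ x = κ y → x ∈ B → Relation.ReflTransGen (EIn G B) x y := by
    intro x y hxy hx
    have h1 : (XX G κ {κ x}).Nonempty := by
      refine ⟨⟨{x}, Finset.singleton_nonempty x, by simp⟩, fun b hb => ?_⟩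
      have hb' : b = κ x := hb
      exact ⟨x, Finset.mem_singleton_self x, hb'.symm⟩
    have h2 := (hP.pat {κ x} (Set.singleton_nonempty _) h1).1
    have h3 : XX G κ {κ x} = pl G (κ ⁻¹' {κ x}) := by
      ext s
      constructor
      · intro h
        exact h _ rfl
      · rintro h b rfl
        exact h
    rw [h3] at h2
    have hmp : mi G (κ ⁻¹' {κ x}) ⊆ pl G (κ ⁻¹' {κ x}) := fun s hs => by
      obtain ⟨z, hz⟩ := s.2.1
      exact ⟨z, hz, hs z hz⟩
    have h4 := (bt_Conn hmp subset_rfl).mp h2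
    refine rtg_mono ?_ (h4.2 x rfl y hxy.symm)
    intro z hz hza
    have e1 : κ z = κ x := hz
    have e2 : κ z = a := hza
    exact hx (e1.symm.trans e2)
  -- edges between classes
  have hed : ∀ b b', TS Gc {b, b'} → b ≠ b' → ∃ x y, G.Adj x y ∧ κ x = b ∧ κ y = b' := by
    intro b b' h hbb
    obtain ⟨s, hs⟩ := (hP.ne {b, b'} ⟨b, Or.inl rfl⟩).mpr h
    obtain ⟨x, hx, hxb⟩ := hs b (Or.inl rfl)
    obtain ⟨y, hy, hyb⟩ := hs b' (Or.inr rfl)
    refine ⟨x, y, s.2.2 hx hy ?_, hxb, hyb⟩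
    rintro rfl
    exact hbb (hxb.symm.trans hyb)
  -- vertices of Gc other than a
  set S : Set Vc := {v | Sum.inl v ≠ a} with hS
  have hSc : Conn Gc S := by
    cases a with
    | inl v0 =>
      have : S = {v0}ᶜ := by
        ext v
        simp [hS]
      rw [this]
      exact (sph_compl_vertex hGc v0).1
    | inr t =>
      have : S = Set.univ := by
        ext v
        simp [hS]
      rw [this]
      exact hGc.conn
  have hBm : ∀ x, κ x ≠ a → x ∈ B := fun x h h' => h h'
  have hv : ∀ v w, v ∈ S → Relation.ReflTransGen (EIn Gc S) v w → ∀ x y, κ x = Sum.inl v →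
      κ y = Sum.inl w → Relation.ReflTransGen (EIn G B) x y := by
    intro v w hvS h
    induction h with
    | refl =>
      intro x y hx hy
      exact hcl x y (hx.trans hy.symm) (hBm x (by rw [hx]; exact hvS))
    | @tail w' w _ e ih =>
      intro x y hx hy
      obtain ⟨z, z', hzz, hz, hz'⟩ := hed _ _ (ts_edge hGc e.1)
        (fun h => e.1.ne (Sum.inl_injective h))
      have hzB : z ∈ B := hBm z (by rw [hz]; exact e.2.1)
      have hzB' : z' ∈ B := hBm z' (by rw [hz']; exact e.2.2)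
      exact ((ih x z hx hz).tail ⟨hzz, hzB, hzB'⟩).trans (hcl z' y (hz'.trans hy.symm) hzB')
  -- every point of B is connected to a vertex class
  have hgo : ∀ x ∈ B, ∃ v ∈ S, ∃ z, κ z = Sum.inl v ∧ Relation.ReflTransGen (EIn G B) x z := by
    intro x hx
    have hts : TS Gc {κ x} := by
      refine (hP.ne {κ x} (Set.singleton_nonempty _)).mp
        ⟨⟨{x}, Finset.singleton_nonempty x, by simp⟩, fun b hb => ?_⟩
      have hb' : b = κ x := hb
      exact ⟨x, Finset.mem_singleton_self x, hb'.symm⟩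
    rcases hk : κ x with v | t
    · exact ⟨v, fun h => hx (hk.trans h), x, hk, Relation.ReflTransGen.refl⟩
    · rw [hk] at hts
      have ht := isTet_of_ts hts
      have hex : ∃ v ∈ t, Sum.inl v ≠ a := by
        by_contra hcon
        push Not at hcon
        have h4 : t.card ≤ 1 := Finset.card_le_one.mpr fun p hp q hq =>
          Sum.inl_injective ((hcon p hp).trans (hcon q hq).symm)
        rw [ht.1] at h4
        omega
      obtain ⟨v, hvt, hva⟩ := hex
      obtain ⟨z, z', hzz, hz, hz'⟩ := hed _ _ (ts_tet hGc ht hvt) (by simp)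
      have hzB : z ∈ B := hBm z (by rw [hz]; exact hva)
      have hzB' : z' ∈ B := hBm z' (by rw [hz', ← hk]; exact hx)
      exact ⟨v, hva, z, hz, (hcl x z' (hk.trans hz'.symm) hx).tail ⟨hzz.symm, hzB', hzB⟩⟩
  obtain ⟨v0, hv0⟩ := hSc.1
  obtain ⟨x0, hx0⟩ := hne _ (ts_vert hGc v0)
  refine ⟨⟨x0, hBm x0 (by rw [hx0]; exact hv0)⟩, fun x hx y hy => ?_⟩
  obtain ⟨v, hvS, z, hz, h1⟩ := hgo x hx
  obtain ⟨w, hwS, z', hz', h2⟩ := hgo y hy
  exact (h1.trans (hv v w hvS (hSc.2 v hvS w hwS) z z' hz hz')).trans (rtg_symm h2)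

end MOT.Fn
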