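import Pool.Agent.MOT.JxDef

/-!
# MOT/JxA: cells with 4 colours are points, cells with 3 colours are 1-manifolds
-/

open Classical

noncomputable section

namespace MOT.J

variable {V C : Type}

private theorem jxa_mem {G : SimpleGraph V} {κ : V → C} {A : Set C} {s : Cq G} :
    s ∈ XX G κ A ↔ A ⊆ κ '' (s.1 : Set V) := Iff.rfl

private theorem jxa_cnt {κ : V → C} {B : Set C} {t : Finset V} (h : B ⊆ κ '' (t : Set V)) :
    B.ncard ≤ t.card := by
  have h1 := Set.ncard_le_ncard h (t.finite_toSet.image κ)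
  have h2 := Set.ncard_image_le (f := κ) t.finite_toSet
  rw [Set.ncard_coe_finset] at h2
  exact h1.trans h2

private theorem jxa_lti {G : SimpleGraph V} {s t : Cq G} : s < t ↔ s.1 ⊂ t.1 := by
  have h1 : ∀ s t : Cq G, s ≤ t ↔ s.1 ⊆ t.1 := fun _ _ => Iff.rfl
  rw [lt_iff_le_not_ge, h1, h1]
  rfl

private theorem jxa_lt {G : SimpleGraph V} {s t : Cq G} (h : s < t) : s.1.card < t.1.card :=
  Finset.card_lt_card (jxa_lti.1 h)

private theorem jxa_ins_mem {G : SimpleGraph V} {κ : V → C} {A : Set C} {b : C} {s : Cq G}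
    (hs : s ∈ XX G κ A) (hb : s ∈ XX G κ {b}) : insert b A ⊆ κ '' (s.1 : Set V) := by
  intro a ha
  rcases Set.mem_insert_iff.1 ha with h | h
  · rw [h]
    exact hb b rfl
  · exact hs a h

private theorem jxa_one {G : SimpleGraph V} (v : V) : Rl G {v} = {dlt v} := by
  ext c
  constructor
  · rintro ⟨-, h2, h3, -⟩
    have h5 : ∀ x, x ≠ v → c x = 0 := fun x hx => by
      by_contra h6
      exact hx (h3 x h6)
    rw [finsum_eq_single c v h5] at h2
    refine Set.mem_singleton_iff.2 (funext fun x => ?_)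
    unfold dlt
    by_cases hx : x = v
    · rw [if_pos hx, hx, h2]
    · rw [if_neg hx, h5 x hx]
  · intro hc
    rw [Set.mem_singleton_iff.1 hc]
    have h0 : ∀ x, dlt v x ≠ 0 → x = v := fun x hx => by
      by_contra h6
      exact hx (if_neg h6)
    refine ⟨fun x => ?_, ?_, fun x hx => h0 x hx, fun x y hx hy hxy => ?_⟩
    · unfold dlt
      split_ifs
      · exact zero_le_one
      · exact le_rfl
    · rw [finsum_eq_single (dlt v) v fun x hx => if_neg hx]
      exact if_pos rfl
    · exact absurd ((h0 x hx).trans (h0 y hy).symm) hxy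

private theorem jxa_none [Finite V] {G : SimpleGraph V} : Rl G (∅ : Set V) = ∅ := by
  rw [← Set.not_nonempty_iff_eq_empty, Rl_nonempty]
  exact Set.not_nonempty_empty

private theorem jxa_lk {G : SimpleGraph V} {x : Cq G} {v : V} (hv : v ∈ Lk G (x.1 : Set V)) :
    v ∉ x.1 := fun h => (hv v (Finset.mem_coe.2 h)).ne rfl

private theorem jxa_ins {G : SimpleGraph V} {x : Cq G} {v : V} (hv : v ∈ Lk G (x.1 : Set V)) :
    ∃ y : Cq G, y.1 = insert v x.1 := by
  refine ⟨⟨insert v x.1, ⟨v, Finset.mem_insert_self _ _⟩, ?_⟩, rfl⟩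
  intro a ha b hb hab
  rcases Finset.mem_insert.1 (Finset.mem_coe.1 ha) with h1 | h1
  · rcases Finset.mem_insert.1 (Finset.mem_coe.1 hb) with h2 | h2
    · exact absurd (h1.trans h2.symm) hab
    · rw [h1]
      exact (hv b (Finset.mem_coe.2 h2)).symm
  · rcases Finset.mem_insert.1 (Finset.mem_coe.1 hb) with h2 | h2
    · rw [h2]
      exact hv a (Finset.mem_coe.2 h1)
    · exact x.2.2 (Finset.mem_coe.2 h1) (Finset.mem_coe.2 h2) hab

private theorem jxa_er {G : SimpleGraph V} {x : Cq G} {v : V} (h : 2 ≤ x.1.card) :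
    ∃ y : Cq G, y.1 = x.1.erase v := by
  refine ⟨⟨x.1.erase v, ?_, ?_⟩, rfl⟩
  · rw [← Finset.card_pos]
    have := Finset.pred_card_le_card_erase (a := v) (s := x.1)
    omega
  · exact fun a ha b hb hab => x.2.2 (Finset.mem_coe.2 (Finset.mem_of_mem_erase ha))
      (Finset.mem_coe.2 (Finset.mem_of_mem_erase hb)) hab

private theorem jxa_three [Finite V] {G : SimpleGraph V} (hG : IsSph3 G) {κ : V → C}
    {A : Set C} (hA : A.ncard = 3) {x : Cq G} (hx : x ∈ XX G κ A) (h3 : x.1.card = 3) (y : Cq G) :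
    EIn (sd G) (XX G κ A) x y ↔ ∃ v ∈ Lk G (x.1 : Set V), y.1 = insert v x.1 := by
  constructor
  · intro e
    rcases e.1 with h1 | h1
    · have h2 := jxa_lti.1 h1
      obtain ⟨v, hv, hvx⟩ := Finset.exists_of_ssubset h2
      have hLk : v ∈ Lk G (x.1 : Set V) := by
        intro u hu
        exact y.2.2 (Finset.mem_coe.2 (h2.1 (Finset.mem_coe.1 hu))) (Finset.mem_coe.2 hv)
          fun h4 => hvx (h4 ▸ Finset.mem_coe.1 hu)
      refine ⟨v, hLk, (Finset.eq_of_subset_of_card_le ?_ ?_).symm⟩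
      · intro u hu
        rcases Finset.mem_insert.1 hu with h4 | h4
        · rw [h4]
          exact hv
        · exact h2.1 h4
      · rw [Finset.card_insert_of_notMem hvx, h3]
        exact hG.k5 y.1 y.2.2
    · have h2 := jxa_lt h1
      have h4 := jxa_cnt (jxa_mem.1 e.2.2)
      omega
  · rintro ⟨v, hv, hy⟩
    have hvx := jxa_lk hv
    have hlt : x < y := by
      rw [jxa_lti, hy]
      exact Finset.ssubset_insert hvx
    exact ⟨Or.inl hlt, hx, XX_up hx hlt.le⟩

private theorem jxa_four [Finite V] {G : SimpleGraph V} (hG : IsSph3 G) {κ : V → C}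
    {A : Set C} (hA : A.ncard = 3) {x : Cq G} (hx : x ∈ XX G κ A) (h4 : x.1.card = 4) (y : Cq G) :
    EIn (sd G) (XX G κ A) x y ↔
      ∃ v ∈ x.1, A ⊆ κ '' ((x.1.erase v : Finset V) : Set V) ∧ y.1 = x.1.erase v := by
  constructor
  · intro e
    rcases e.1 with h1 | h1
    · have h2 := jxa_lt h1
      have h3 := hG.k5 y.1 y.2.2
      omega
    · have h2 := jxa_lti.1 h1
      obtain ⟨v, hv, hvy⟩ := Finset.exists_of_ssubset h2
      have h3 := jxa_cnt (jxa_mem.1 e.2.2)
      have h5 : y.1 = x.1.erase v := by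
        refine Finset.eq_of_subset_of_card_le ?_ ?_
        · intro u hu
          exact Finset.mem_erase.2 ⟨fun h6 => hvy (h6 ▸ hu), h2.1 hu⟩
        · rw [Finset.card_erase_of_mem hv, h4]
          omega
      refine ⟨v, hv, ?_, h5⟩
      rw [← h5]
      exact jxa_mem.1 e.2.2
  · rintro ⟨v, hv, hvA, hy⟩
    have hlt : y < x := by
      rw [jxa_lti, hy]
      exact Finset.erase_ssubset hv
    refine ⟨Or.inr hlt, hx, jxa_mem.2 ?_⟩
    rw [hy]
    exact hvA

/-- 4 colours: one vertex, no boundary -/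
theorem XX_four [Finite V] {G : SimpleGraph V} (hG : IsSph3 G) {κ : V → C} {A : Set C}
    (hA : A.ncard = 4) (hc : Conn (sd G) (XX G κ A)) :
    (∃ s, XX G κ A = {s}) ∧ Bd G κ A = ∅ := by
  have hc4 : ∀ s ∈ XX G κ A, s.1.card = 4 := by
    intro s hs
    have h1 := jxa_cnt (jxa_mem.1 hs)
    have h2 := hG.k5 s.1 s.2.2
    omega
  have hna : ∀ s t, ¬ EIn (sd G) (XX G κ A) s t := by
    intro s t e
    have h1 := hc4 s e.2.1
    have h2 := hc4 t e.2.2
    rcases e.1 with h3 | h3
    · have := jxa_lt h3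
      omega
    · have := jxa_lt h3
      omega
  refine ⟨?_, ?_⟩
  · obtain ⟨⟨s, hs⟩, hr⟩ := hc
    refine ⟨s, Set.Subset.antisymm ?_ (Set.singleton_subset_iff.2 hs)⟩
    intro t ht
    have h1 := hr s hs t ht
    rcases Relation.ReflTransGen.cases_head h1 with h2 | ⟨u, h2, -⟩
    · exact h2.symm
    · exact absurd h2 (hna s u)
  · rw [Set.eq_empty_iff_forall_notMem]
    rintro s ⟨hs, b, hb, hsb⟩
    have h1 := jxa_cnt (jxa_ins_mem hs hsb)
    rw [Set.ncard_insert_of_notMem hb (Set.finite_of_ncard_ne_zero (by omega))] at h1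
    have h2 := hG.k5 s.1 s.2.2
    omega

theorem ball_four [Finite V] {G : SimpleGraph V} (hG : IsSph3 G) {κ : V → C} {A : Set C}
    (hA : A.ncard = 4) (hc : Conn (sd G) (XX G κ A)) :
    Ball 0 (Rl (sd G) (XX G κ A)) (Rl (sd G) (Bd G κ A)) := by
  obtain ⟨⟨s, hs⟩, hb⟩ := XX_four hG hA hc
  rw [hs, hb, jxa_one, jxa_none]
  exact ball_zero _

/-- 3 colours: triangles (two cofaces) and tetrahedra (one face with all three colours if there are
4 colours, two if there are 3 colours) -/
theorem fa_three [Finite V] {G : SimpleGraph V} (hG : IsSph3 G) {κ : V → C} {A : Set C}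
    (hA : A.ncard = 3) : Fa (sd G) (XX G κ A) (Bd G κ A) := by
  have hAf : A.Finite := Set.finite_of_ncard_ne_zero (by omega)
  have hc3 : ∀ s ∈ XX G κ A, 3 ≤ s.1.card ∧ s.1.card ≤ 4 := by
    intro s hs
    have h1 := jxa_cnt (jxa_mem.1 hs)
    exact ⟨by omega, hG.k5 s.1 s.2.2⟩
  have hb4 : ∀ s ∈ Bd G κ A, s.1.card = 4 := by
    rintro s ⟨hs, b, hb, hsb⟩
    have h1 := jxa_cnt (jxa_ins_mem hs hsb)
    rw [Set.ncard_insert_of_notMem hb hAf] at h1
    have h2 := hG.k5 s.1 s.2.2
    omega
  refine ⟨fun s hs => hs.1, ?_, ?_, ?_, ?_⟩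
  · intro x hx y hy e
    have h1 := hb4 x hx
    have h2 := hb4 y hy
    rcases e with h3 | h3
    · have := jxa_lt h3
      omega
    · have := jxa_lt h3
      omega
  · intro s hs hsX
    have h1 : s.card ≤ (Finset.Icc 3 4).card := by
      refine Finset.card_le_card_of_injOn (fun x => x.1.card) ?_ ?_
      · intro x hx
        rw [Finset.mem_coe, Finset.mem_Icc]
        exact hc3 x (hsX hx)
      · intro x hx y hy hxy
        by_contra hne
        have hxy' : x.1.card = y.1.card := hxy
        rcases hs hx hy hne with h | h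
        · have := jxa_lt h
          omega
        · have := jxa_lt h
          omega
    simpa using h1
  · intro x hx hxB
    rcases (show x.1.card = 3 ∨ x.1.card = 4 by have := hc3 x hx; omega) with h3 | h4
    · -- a triangle: two cofaces
      have h5 := hG.tri x.1 x.2.2 h3
      obtain ⟨a, b, hab, hL⟩ := Set.ncard_eq_two.1 h5
      obtain ⟨ya, hya⟩ := jxa_ins (show a ∈ Lk G (x.1 : Set V) by rw [hL]; simp)
      obtain ⟨yb, hyb⟩ := jxa_ins (show b ∈ Lk G (x.1 : Set V) by rw [hL]; simp)
      have e : {y | EIn (sd G) (XX G κ A) x y} = {ya, yb} := by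
        ext y
        rw [Set.mem_insert_iff, Set.mem_singleton_iff]
        rw [show (y ∈ {y | EIn (sd G) (XX G κ A) x y} ↔ EIn (sd G) (XX G κ A) x y) from Iff.rfl,
          jxa_three hG hA hx h3, hL]
        constructor
        · rintro ⟨v, hv, hy⟩
          rcases hv with hv | hv
          · left
            apply Subtype.ext
            rw [hy, hya, hv]
          · right
            apply Subtype.ext
            rw [hy, hyb, hv]
        · rintro (hy | hy)
          · exact ⟨a, Or.inl rfl, by rw [hy, hya]⟩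
          · exact ⟨b, Or.inr rfl, by rw [hy, hyb]⟩
      rw [e]
      refine Set.ncard_pair fun h6 => ?_
      have h7 : a ∈ insert b x.1 := by
        rw [← hyb, ← h6, hya]
        exact Finset.mem_insert_self a x.1
      rcases Finset.mem_insert.1 h7 with h8 | h8
      · exact hab h8
      · exact jxa_lk (show a ∈ Lk G (x.1 : Set V) by rw [hL]; simp) h8
    · -- a tetrahedron with three colours
      have hsub : ∀ v ∈ x.1, κ v ∈ A := by
        intro v hv
        by_contra h5
        exact hxB ⟨hx, κ v, h5, fun a ha => ⟨v, hv, (Set.mem_singleton_iff.1 ha).symm⟩⟩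
      obtain ⟨p, hp, q, hq, hpq, hk⟩ : ∃ p ∈ x.1, ∃ q ∈ x.1, p ≠ q ∧ κ p = κ q := by
        have h5 : hAf.toFinset.card < x.1.card := by
          rw [← Set.ncard_eq_toFinset_card A hAf, hA, h4]
          norm_num
        exact Finset.exists_ne_map_eq_of_card_lt_of_maps_to h5 fun v hv =>
          (Set.Finite.mem_toFinset hAf).2 (hsub v hv)
      have hP : ∀ v w, v ∈ x.1 → w ∈ x.1 → v ≠ w → κ v = κ w →
          A ⊆ κ '' ((x.1.erase v : Finset V) : Set V) := by
        intro v w _ hw hvw hk' a ha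
        obtain ⟨u, hu, hua⟩ := hx a ha
        by_cases huv : u = v
        · exact ⟨w, Finset.mem_coe.2 (Finset.mem_erase.2 ⟨hvw.symm, hw⟩), by
            rw [← hk', ← huv, hua]⟩
        · exact ⟨u, Finset.mem_coe.2 (Finset.mem_erase.2 ⟨huv, hu⟩), hua⟩
      have hPp := hP p q hp hq hpq hk
      have hPq := hP q p hq hp hpq.symm hk.symm
      have hN : ∀ v ∈ x.1, A ⊆ κ '' ((x.1.erase v : Finset V) : Set V) → v = p ∨ v = q := by
        intro v hv hvA
        by_contra hne
        push Not at hne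
        have h5 : A ⊆ κ '' (((x.1.erase v).erase p : Finset V) : Set V) := by
          intro a ha
          obtain ⟨u, hu, hua⟩ := hvA ha
          by_cases hup : u = p
          · refine ⟨q, Finset.mem_coe.2 (Finset.mem_erase.2 ⟨hpq.symm,
              Finset.mem_erase.2 ⟨hne.2.symm, hq⟩⟩), ?_⟩
            rw [← hk, ← hup, hua]
          · exact ⟨u, Finset.mem_coe.2 (Finset.mem_erase.2 ⟨hup, hu⟩), hua⟩
        have h6 := jxa_cnt h5
        rw [Finset.card_erase_of_mem (Finset.mem_erase.2 ⟨hne.1.symm, hp⟩),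
          Finset.card_erase_of_mem hv, h4, hA] at h6
        omega
      obtain ⟨yp, hyp⟩ := jxa_er (x := x) (v := p) (by omega)
      obtain ⟨yq, hyq⟩ := jxa_er (x := x) (v := q) (by omega)
      have e : {y | EIn (sd G) (XX G κ A) x y} = {yp, yq} := by
        ext y
        rw [Set.mem_insert_iff, Set.mem_singleton_iff]
        rw [show (y ∈ {y | EIn (sd G) (XX G κ A) x y} ↔ EIn (sd G) (XX G κ A) x y) from Iff.rfl,
          jxa_four hG hA hx h4]
        constructor
        · rintro ⟨v, hv, hvA, hy⟩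
          rcases hN v hv hvA with hv' | hv'
          · left
            apply Subtype.ext
            rw [hy, hyp, hv']
          · right
            apply Subtype.ext
            rw [hy, hyq, hv']
        · rintro (hy | hy)
          · exact ⟨p, hp, hPp, by rw [hy, hyp]⟩
          · exact ⟨q, hq, hPq, by rw [hy, hyq]⟩
      rw [e]
      refine Set.ncard_pair fun h6 => ?_
      have h7 : p ∈ x.1.erase p := by
        rw [← hyp, h6, hyq]
        exact Finset.mem_erase.2 ⟨hpq, hp⟩
      exact Finset.notMem_erase p x.1 h7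
  · rintro x ⟨hx, b, hb, hxb⟩
    have h4 := hb4 x ⟨hx, b, hb, hxb⟩
    obtain ⟨w, hw, hwb⟩ := hxb b rfl
    have hPw : A ⊆ κ '' ((x.1.erase w : Finset V) : Set V) := by
      intro a ha
      obtain ⟨u, hu, hua⟩ := hx a ha
      refine ⟨u, Finset.mem_coe.2 (Finset.mem_erase.2 ⟨fun h5 => hb ?_, hu⟩), hua⟩
      rw [← hwb, ← h5, hua]
      exact ha
    have hN : ∀ v ∈ x.1, A ⊆ κ '' ((x.1.erase v : Finset V) : Set V) → v = w := by
      intro v hv hvA
      by_contra hne
      have h5 : insert b A ⊆ κ '' ((x.1.erase v : Finset V) : Set V) := by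
        intro a ha
        rcases Set.mem_insert_iff.1 ha with h6 | h6
        · rw [h6]
          exact ⟨w, Finset.mem_coe.2 (Finset.mem_erase.2 ⟨fun h7 => hne h7.symm, hw⟩), hwb⟩
        · exact hvA h6
      have h6 := jxa_cnt h5
      rw [Finset.card_erase_of_mem hv, h4, Set.ncard_insert_of_notMem hb hAf, hA] at h6
      omega
    obtain ⟨yw, hyw⟩ := jxa_er (x := x) (v := w) (by omega)
    have e : {y | EIn (sd G) (XX G κ A) x y} = {yw} := by
      ext y
      rw [Set.mem_singleton_iff]
      rw [show (y ∈ {y | EIn (sd G) (XX G κ A) x y} ↔ EIn (sd G) (XX G κ A) x y) from Iff.rfl,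
        jxa_four hG hA hx h4]
      constructor
      · rintro ⟨v, hv, hvA, hy⟩
        apply Subtype.ext
        rw [hy, hyw, hN v hv hvA]
      · intro hy
        exact ⟨w, hw, hPw, by rw [hy, hyw]⟩
    rw [e, Set.ncard_singleton]

theorem ball_three [Finite V] {G : SimpleGraph V} (hG : IsSph3 G) {κ : V → C} {A : Set C}
    (hA : A.ncard = 3) (hc : Conn (sd G) (XX G κ A)) (hz : HZ (sd G) (XX G κ A)) :
    Ball 1 (Rl (sd G) (XX G κ A)) (Rl (sd G) (Bd G κ A)) :=
  ball_fa (fa_three hG hA) hc hz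

end MOT.J
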