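import Pool.Agent.MOT.JxBb

/-!
# MOT/JxB: cells with 2 colours are surfaces with boundary
-/

open Classical

noncomputable section

namespace MOT.J

variable {V C : Type}

/-! ## the links -/

/-- `|s| = 2`: the link is the subdivision of the link cycle of the edge `s` of `G` -/
theorem lk_two [Finite V] {G : SimpleGraph V} (hG : IsSph3 G) {κ : V → C} {A : Set C}
    (hA : A.ncard = 2) {s : Cq G} (hs : s ∈ XX G κ A) (h2 : s.1.card = 2) :
    s ∉ Bd G κ A ∧ IsCyc (sd G) (Lk (sd G) {s} ∩ XX G κ A) := by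
  have h1 : s ∉ Bd G κ A := fun h => by
    have := jxb_three hA h
    omega
  exact ⟨h1, jxb_int hG hA hs h1⟩

/-- `|s| = 3`, two colours: a cycle with 4 vertices -/
theorem lk_three [Finite V] {G : SimpleGraph V} (hG : IsSph3 G) {κ : V → C} {A : Set C}
    (hA : A.ncard = 2) {s : Cq G} (hs : s ∈ XX G κ A) (h3 : s.1.card = 3) (hb : s ∉ Bd G κ A) :
    IsCyc (sd G) (Lk (sd G) {s} ∩ XX G κ A) :=
  jxb_int hG hA hs hb

/-- `|s| = 3`, three colours: a path with 3 vertices, ends in `Bd` -/
theorem lk_three_bd [Finite V] {G : SimpleGraph V} (hG : IsSph3 G) {κ : V → C} {A : Set C}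
    (hA : A.ncard = 2) {s : Cq G} (hs : s ∈ Bd G κ A) (h3 : s.1.card = 3) :
    Conn (sd G) (Lk (sd G) {s} ∩ XX G κ A) ∧ (Lk (sd G) {s} ∩ Bd G κ A).Nonempty ∧
    ∀ y ∈ Lk (sd G) {s} ∩ XX G κ A,
      {z | EIn (sd G) (Lk (sd G) {s} ∩ XX G κ A) y z}.ncard = if y ∈ Bd G κ A then 1 else 2 := by
  obtain ⟨hU, hUn⟩ := above_two hG s h3
  have hne : (Lk (sd G) {s} ∩ Bd G κ A).Nonempty := by
    obtain ⟨t, ht⟩ := Set.nonempty_of_ncard_ne_zero (by omega : {t : Cq G | s < t}.ncard ≠ 0)
    have ht' : s < t := ht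
    refine ⟨t, fun y hy => ?_, jxb_bup hs ht'.le⟩
    rw [Set.mem_singleton_iff.1 hy]
    exact sd_adj.2 (Or.inl ht')
  obtain ⟨a, b, hab, rfl⟩ := Set.ncard_eq_two.1 hA
  have hs' := hs
  obtain ⟨hsX, c, hc, hsc⟩ := hs'
  obtain ⟨x, hx, hxa⟩ := hsX a (Set.mem_insert _ _)
  obtain ⟨y, hy, hyb⟩ := hsX b (Set.mem_insert_of_mem _ rfl)
  obtain ⟨z, hz, hzc⟩ := hsc c rfl
  have hca : c ≠ a := fun h => hc (by rw [h]; exact Set.mem_insert _ _)
  have hcb : c ≠ b := fun h => hc (by rw [h]; exact Set.mem_insert_of_mem _ rfl)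
  have hxy : x ≠ y := by rintro rfl; exact hab (hxa.symm.trans hyb)
  have hxz : x ≠ z := by rintro rfl; exact hca (hzc.symm.trans hxa)
  have hyz : y ≠ z := by rintro rfl; exact hcb (hzc.symm.trans hyb)
  have hs3 : s.1 = {x, y, z} := by
    refine (Finset.eq_of_subset_of_card_le ?_ ?_).symm
    · intro v hv
      simp only [Finset.mem_insert, Finset.mem_singleton] at hv
      rcases hv with rfl | rfl | rfl
      · exact hx
      · exact hy
      · exact hz
    · rw [h3, Finset.card_eq_three.2 ⟨x, y, z, hxy, hxz, hyz, rfl⟩]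
  let e : Cq G := ⟨{x, y}, Finset.insert_nonempty _ _, fun u hu v hv huv => by
    refine s.2.2 ?_ ?_ huv
    · rw [Finset.mem_coe, Finset.mem_insert, Finset.mem_singleton] at hu
      rcases hu with rfl | rfl
      · exact hx
      · exact hy
    · rw [Finset.mem_coe, Finset.mem_insert, Finset.mem_singleton] at hv
      rcases hv with rfl | rfl
      · exact hx
      · exact hy⟩
  have he1 : e.1 = {x, y} := rfl
  have hec : e.1.card = 2 := Finset.card_pair hxy
  have hes : e < s := by
    rw [Cq.lt_iff, Finset.ssubset_iff_subset_ne, he1, hs3]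
    refine ⟨?_, fun h => ?_⟩
    · intro v hv
      simp only [Finset.mem_insert, Finset.mem_singleton] at hv ⊢
      tauto
    · have : z ∈ ({x, y} : Finset V) := by rw [h]; simp
      simp only [Finset.mem_insert, Finset.mem_singleton] at this
      rcases this with h | h
      · exact hxz h.symm
      · exact hyz h.symm
  have heB : e ∉ Bd G κ {a, b} := fun h => by
    have := jxb_three hA h
    omega
  have heX : e ∈ XX G κ {a, b} := by
    intro d hd
    rcases Set.mem_insert_iff.1 hd with h | h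
    · rw [h]
      exact ⟨x, by rw [he1]; simp, hxa⟩
    · rw [Set.mem_singleton_iff.1 h]
      exact ⟨y, by rw [he1]; simp, hyb⟩
  have hL : Lk (sd G) {s} ∩ XX G κ {a, b} = insert e {t | s < t} := by
    rw [jxb_lk]
    ext t
    constructor
    · rintro (⟨h1, h2⟩ | ⟨h1, h2⟩)
      · left
        have h1' : t < s := h1
        have hsub := (Cq.lt_iff.1 h1').1
        have hcard := jxb_lt h1'
        obtain ⟨x', hx', hxa'⟩ := h2 a (Set.mem_insert _ _)
        obtain ⟨y', hy', hyb'⟩ := h2 b (Set.mem_insert_of_mem _ rfl)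
        have ex : x' = x := by
          have h5 := hsub hx'
          rw [hs3] at h5
          simp only [Finset.mem_insert, Finset.mem_singleton] at h5
          rcases h5 with h5 | h5 | h5
          · exact h5
          · exact absurd (hxa'.symm.trans ((congrArg κ h5).trans hyb)) hab
          · exact absurd ((hzc.symm.trans (congrArg κ h5.symm)).trans hxa') hca
        have ey : y' = y := by
          have h5 := hsub hy'
          rw [hs3] at h5
          simp only [Finset.mem_insert, Finset.mem_singleton] at h5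
          rcases h5 with h5 | h5 | h5
          · exact absurd ((hxa.symm.trans (congrArg κ h5.symm)).trans hyb') hab
          · exact h5
          · exact absurd ((hzc.symm.trans (congrArg κ h5.symm)).trans hyb') hcb
        refine Subtype.ext (Finset.eq_of_subset_of_card_le ?_ ?_).symm
        · intro v hv
          rw [he1, Finset.mem_insert, Finset.mem_singleton] at hv
          rcases hv with rfl | rfl
          · rw [← ex]; exact hx'
          · rw [← ey]; exact hy'
        · omega
      · right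
        exact h1
    · rintro (h | h)
      · rw [h]
        exact Or.inl ⟨hes, heX⟩
      · exact Or.inr ⟨h, jxb_up hsX (le_of_lt h)⟩
  have h5 := jxb_V (H := sd G) (L := Lk (sd G) {s} ∩ XX G κ {a, b}) (B := Bd G κ {a, b})
    (U := {t | s < t}) (e := e) heB (fun h => lt_asymm h hes) hL hU
    (fun t ht => jxb_bup hs (le_of_lt ht)) (fun t ht t' ht' => hUn t t' ht ht')
    (fun t ht => sd_adj.2 (Or.inl (lt_trans hes ht)))
  exact ⟨h5.1, hne, h5.2⟩

/-- `|s| = 4`, two colours: a cycle with 6 or 8 vertices -/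
theorem lk_four [Finite V] {G : SimpleGraph V} (hG : IsSph3 G) {κ : V → C} {A : Set C}
    (hA : A.ncard = 2) {s : Cq G} (hs : s ∈ XX G κ A) (h4 : s.1.card = 4) (hb : s ∉ Bd G κ A) :
    IsCyc (sd G) (Lk (sd G) {s} ∩ XX G κ A) :=
  jxb_int hG hA hs hb

private theorem jxb_chain {G : SimpleGraph V} (c : Finset (Cq G))
    (hc : (sd G).IsClique (c : Set (Cq G))) (a b : ℕ)
    (h1 : ∀ s ∈ c, a ≤ s.1.card) (h2 : ∀ s ∈ c, s.1.card ≤ b) : c.card ≤ b + 1 - a := by
  have hinj : Set.InjOn (fun s : Cq G => s.1.card) (c : Set (Cq G)) := by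
    intro s hs t ht hst
    by_contra hne
    rcases sd_adj.1 (hc hs ht hne) with h | h
    · exact absurd hst (ne_of_lt (jxb_lt h))
    · exact absurd hst (ne_of_gt (jxb_lt h))
  have hmap : ∀ s ∈ c, (fun s : Cq G => s.1.card) s ∈ Finset.Icc a b := fun s hs =>
    Finset.mem_Icc.2 ⟨h1 s hs, h2 s hs⟩
  have := Finset.card_le_card_of_injOn _ hmap hinj
  rw [Nat.card_Icc] at this
  exact this

theorem fs_two [Finite V] {G : SimpleGraph V} (hG : IsSph3 G) {κ : V → C} {A : Set C}
    (hA : A.ncard = 2) : Fs (sd G) (XX G κ A) (Bd G κ A) := by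
  have hk : ∀ s : Cq G, s.1.card ≤ 4 := fun s => hG.k5 s.1 s.2.2
  refine ⟨fun s hs => hs.1, ?_, ?_, ?_, ?_⟩
  · intro c hc hcB
    exact jxb_chain c hc 3 4 (fun s hs => jxb_three hA (hcB hs)) fun s _ => hk s
  · intro c hc hcX
    exact jxb_chain c hc 2 4 (fun s hs => jxb_two hA (hcX hs)) fun s _ => hk s
  · intro s hs hb
    exact jxb_int hG hA hs hb
  · intro s hs
    have h1 := jxb_three hA hs
    have h2 := hk s
    rcases (by omega : s.1.card = 3 ∨ s.1.card = 4) with h3 | h4
    · exact lk_three_bd hG hA hs h3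
    · exact lk_four_bd hG hA hs h4

theorem ball_two [Finite V] {G : SimpleGraph V} (hG : IsSph3 G) {κ : V → C} {A : Set C}
    (hA : A.ncard = 2) (hB : (Bd G κ A).Nonempty) (hc : Conn (sd G) (XX G κ A))
    (hz : HZ (sd G) (XX G κ A)) :
    Ball 2 (Rl (sd G) (XX G κ A)) (Rl (sd G) (Bd G κ A)) :=
  ball_fs (fs_two hG hA) hB hc hz

end MOT.J
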