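import Pool.Agent.MOT.JdB
import Pool.Agent.MOT.JxA
import Pool.Agent.MOT.JxB

/-!
# MOT/Jm: pattern in the range => PL homeomorphism onto the explicit cells of the domain
-/

open Classical

noncomputable section

namespace MOT.J

variable {Vc V : Type}

private theorem four_card {v w : Vc} {t t' : Finset Vc} :
    ({Sum.inl v, Sum.inl w, Sum.inr t, Sum.inr t'} : Set (Co Vc)).Finite ∧
      ({Sum.inl v, Sum.inl w, Sum.inr t, Sum.inr t'} : Set (Co Vc)).ncard ≤ 4 := by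
  refine ⟨Set.toFinite _, ?_⟩
  have e : (({Sum.inl v, Sum.inl w, Sum.inr t, Sum.inr t'} : Finset (Co Vc)) : Set (Co Vc)) =
      {Sum.inl v, Sum.inl w, Sum.inr t, Sum.inr t'} := by
    simp
  rw [← e, Set.ncard_coe_finset]
  exact Finset.card_le_four

private theorem four_card_eq {v w : Vc} {t t' : Finset Vc} (hvw : v ≠ w) (htt : t ≠ t') :
    ({Sum.inl v, Sum.inl w, Sum.inr t, Sum.inr t'} : Set (Co Vc)).ncard = 4 := by
  have e : (({Sum.inl v, Sum.inl w, Sum.inr t, Sum.inr t'} : Finset (Co Vc)) : Set (Co Vc)) =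
      {Sum.inl v, Sum.inl w, Sum.inr t, Sum.inr t'} := by
    simp
  rw [← e, Set.ncard_coe_finset]
  rw [Finset.card_insert_of_notMem, Finset.card_insert_of_notMem, Finset.card_insert_of_notMem,
    Finset.card_singleton]
  · rw [Finset.mem_singleton]
    exact fun h => htt (Sum.inr.inj h)
  · simp
  · simp [hvw]

/-- facets of `T` have 4 elements, faces of facets are in `T` -/
theorem TS_card {Gc : SimpleGraph Vc} (hGc : IsSph3 Gc) {A : Set (Co Vc)} (h : TS Gc A) :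
    A.Finite ∧ A.ncard ≤ 4 := by
  obtain ⟨v, w, t, t', _, _, _, _, _, _, hs⟩ := h
  obtain ⟨h1, h2⟩ := four_card (v := v) (w := w) (t := t) (t' := t')
  exact ⟨h1.subset hs, (Set.ncard_le_ncard hs h1).trans h2⟩

theorem TS_ext {Gc : SimpleGraph Vc} (hGc : IsSph3 Gc) {A : Set (Co Vc)} (h : TS Gc A)
    (hA : A.ncard < 4) : ∃ b, b ∉ A ∧ TS Gc (insert b A) := by
  obtain ⟨v, w, t, t', h1, h2, h3, h4, h5, h6, hs⟩ := h
  have h7 := four_card_eq (v := v) (w := w) (t := t) (t' := t') h1 h6.1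
  have h8 : ¬ ({Sum.inl v, Sum.inl w, Sum.inr t, Sum.inr t'} : Set (Co Vc)) ⊆ A := by
    intro h9
    rw [Set.Subset.antisymm hs h9, h7] at hA
    exact lt_irrefl _ hA
  obtain ⟨b, hb, hbA⟩ := Set.not_subset.1 h8
  refine ⟨b, hbA, v, w, t, t', h1, h2, h3, h4, h5, h6, ?_⟩
  exact Set.insert_subset hb hs

/-- cells of the range are balls -/
theorem ball_XX [Finite V] {Gc : SimpleGraph Vc} (hGc : IsSph3 Gc) {G : SimpleGraph V}
    (hG : IsSph3 G) {κ : V → Co Vc} (h : PatT Gc G κ) {A : Set (Co Vc)} (hA : 2 ≤ A.ncard)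
    (hne : (XX G κ A).Nonempty) : ∃ n, Ball n (Rl (sd G) (XX G κ A)) (Rl (sd G) (Bd G κ A)) := by
  obtain ⟨hfin, hle⟩ := XX_card hG hne
  have hAn : A.Nonempty := by
    rw [Set.nonempty_iff_ne_empty]
    rintro rfl
    rw [Set.ncard_empty] at hA
    omega
  obtain ⟨hc, hz⟩ := h.pat A hAn hne
  have h3 : A.ncard = 2 ∨ A.ncard = 3 ∨ A.ncard = 4 := by omega
  rcases h3 with h3 | h3 | h3
  · obtain ⟨b, hb, hT⟩ := TS_ext hGc ((h.ne A hAn).1 hne) (by omega)
    obtain ⟨s, hs⟩ := (h.ne _ (Set.insert_nonempty b A)).2 hT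
    have hB : (Bd G κ A).Nonempty := by
      refine ⟨s, fun a ha => hs a (Set.mem_insert_of_mem b ha), b, hb, ?_⟩
      intro a ha
      rw [show a = b from ha]
      exact hs b (Set.mem_insert b A)
    exact ⟨2, ball_two hG h3 hB hc hz⟩
  · exact ⟨1, ball_three hG h3 hc hz⟩
  · exact ⟨0, ball_four hG h3 hc⟩

/-- THEOREM J -/
theorem main [Finite Vc] [Finite V] {Gc : SimpleGraph Vc} (hGc : IsSph3 Gc) {G : SimpleGraph V}
    (hG : IsSph3 G) {κ : V → Co Vc} (h : PatT Gc G κ) (A0 : Set (Co Vc))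
    (hB : ∀ a ∈ A0, TS Gc {a} → Ball 3 (Rl (sd G) (XX G κ {a})) (Rl (sd G) (Bd G κ {a}))) :
    ∃ f g, PLH (⋃ a ∈ A0, Dc Gc a) (⋃ a ∈ A0, Rl (sd G) (XX G κ {a})) f g ∧
      ∀ a ∈ A0, f '' Dc Gc a = Rl (sd G) (XX G κ {a}) := by
  have hAn : ∀ A : Set (Co Vc), (A ∩ A0).Nonempty → A.Nonempty :=
    fun A hA => hA.mono Set.inter_subset_left
  have hX : ∀ A : Set (Co Vc), (A ∩ A0).Nonempty →
      ((XI (fun a => Rl (sd G) (XX G κ {a})) A).Nonempty ↔ (XX G κ A).Nonempty) := by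
    intro A hA
    rw [XI_Rl G κ A (hAn A hA)]
    exact Rl_nonempty (sd G) _
  obtain ⟨f, g, h1, h2⟩ := cells (Dc Gc) (fun a => Rl (sd G) (XX G κ {a}))
    (fun a => Dc_closed Gc a) (fun a => Rl_closed (sd G) _) A0
    (fun A hA => by
      rw [hX A hA, XI_Dc_ne hGc (hAn A hA)]
      exact (h.ne A (hAn A hA)).symm)
    (fun A hA hne => cone_Dc hGc (hAn A hA) ((XI_Dc_ne hGc (hAn A hA)).1 hne))
    (fun A hA hne => by
      have hne' := (hX A hA).1 hne
      rw [XI_Rl G κ A (hAn A hA), bdI_Rl G κ A (hAn A hA)]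
      by_cases h2 : 2 ≤ A.ncard
      · exact ball_XX hGc hG h h2 hne'
      · obtain ⟨a, haA, ha0⟩ := hA
        have hfin := (XX_card hG hne').1
        have h3 : A.ncard ≠ 0 := by
          intro h4
          rw [Set.ncard_eq_zero hfin] at h4
          rw [h4] at haA
          exact haA
        have h4 : A.ncard = 1 := by omega
        obtain ⟨b, rfl⟩ := Set.ncard_eq_one.1 h4
        have hab : a = b := haA
        subst hab
        exact ⟨3, hB a ha0 ((h.ne _ (Set.singleton_nonempty a)).1 hne')⟩)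
  refine ⟨f, g, h1, fun a ha => ?_⟩
  have h3 := h2 {a} ⟨a, rfl, ha⟩
  have e1 : XI (Dc Gc) {a} = Dc Gc a := by
    ext x
    exact ⟨fun hx => hx a rfl, fun hx b hb => by rw [show b = a from hb]; exact hx⟩
  have e2 : XI (fun a => Rl (sd G) (XX G κ {a})) {a} = Rl (sd G) (XX G κ {a}) := by
    ext x
    exact ⟨fun hx => hx a rfl, fun hx b hb => by rw [show b = a from hb]; exact hx⟩
  rw [e1, e2] at h3
  exact h3

end MOT.J
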