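import Pool.Agent.MOT.FnE
import Pool.Agent.MOT.FnF
import Pool.Agent.MOT.Jm
import Pool.Agent.MOT.Sph
import Pool.Agent.MOT.FnK

/-!
# MOT/FnG: every homeomorphism of `R^3` is close to a PL embedding on the cube, from COMB, J and
Alexander (helper90)
-/

open Classical Set Metric

noncomputable section

namespace MOT.Fn

/-- ALEXANDER (block E): acyclic near regions away from the poles are PL balls -/
def Alex : Prop :=
  ∀ (R : ℝ) (n : ℕ) (M : Set (tw (cell16 R) n).V), 0 < R → Conn (tw (cell16 R) n).G M →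
    HZ (tw (cell16 R) n).G M → Conn (tw (cell16 R) n).G Mᶜ → M ⊆ (tw (cell16 R) n).near →
    (∀ x ∈ M, ∀ y : Fin 4 × Bool → ℝ, y = pt (cell16 R) n x → 0 < y (0, false)) →
    Ball 3 (Rl (sd (tw (cell16 R) n).G) (pl (tw (cell16 R) n).G M))
      (Rl (sd (tw (cell16 R) n).G) (Fr (tw (cell16 R) n).G M))

theorem XX_pl {V C : Type} (G : SimpleGraph V) (κ : V → C) (a : C) :
    XX G κ {a} = pl G (κ ⁻¹' {a}) := by
  ext s
  constructor
  · intro h
    exact h a rfl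
  · rintro h b rfl
    exact h

theorem Bd_Fr {V C : Type} (G : SimpleGraph V) (κ : V → C) (a : C) :
    J.Bd G κ {a} = Fr G (κ ⁻¹' {a}) := by
  ext s
  constructor
  · rintro ⟨h1, b, hb, h2⟩
    refine ⟨by rw [← XX_pl]; exact h1, ?_⟩
    obtain ⟨x, hx, hxb⟩ := h2 b rfl
    refine ⟨x, hx, fun h => hb ?_⟩
    have : κ x = a := h
    rw [← hxb]; exact this
  · rintro ⟨h1, x, hx, hxa⟩
    refine ⟨by rw [XX_pl]; exact h1, κ x, fun h => hxa h, ?_⟩
    rintro b rfl
    exact ⟨x, hx, rfl⟩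

/-- the homeomorphism as two maps -/
theorem exists_RH (Φ : ↥(Re GO) ≃ₜ ↥(Re GO)) (R R' : ℝ) :
    ∃ (F E : (Fin 4 × Bool → ℝ) → Fin 4 × Bool → ℝ), RH (cell16 R) (cell16 R') F E ∧
      (∀ y : ↥(Re GO), F y.1 = (Φ y).1) ∧ ∀ y : ↥(Re GO), E y.1 = (Φ.symm y).1 := by
  let F : (Fin 4 × Bool → ℝ) → Fin 4 × Bool → ℝ := fun y =>
    if h : y ∈ Re GO then (Φ ⟨y, h⟩).1 else y
  let E : (Fin 4 × Bool → ℝ) → Fin 4 × Bool → ℝ := fun y =>
    if h : y ∈ Re GO then (Φ.symm ⟨y, h⟩).1 else y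
  have hF : ∀ y : ↥(Re GO), F y.1 = (Φ y).1 := fun y => dif_pos y.2
  have hE : ∀ y : ↥(Re GO), E y.1 = (Φ.symm y).1 := fun y => dif_pos y.2
  have cF : ContinuousOn F (Re GO) := by
    rw [continuousOn_iff_continuous_domRestrict]
    have : (Re GO).domRestrict F = fun y => (Φ y).1 := funext hF
    exact this ▸ continuous_subtype_val.comp Φ.continuous
  have cE : ContinuousOn E (Re GO) := by
    rw [continuousOn_iff_continuous_domRestrict]
    have : (Re GO).domRestrict E = fun y => (Φ.symm y).1 := funext hE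
    exact this ▸ continuous_subtype_val.comp Φ.symm.continuous
  refine ⟨F, E, ⟨cF, cE, ?_, ?_, ?_, ?_⟩, hF, hE⟩
  · intro y hy
    have := hF ⟨y, hy⟩
    rw [this]
    exact (Φ ⟨y, hy⟩).2
  · intro y hy
    have := hE ⟨y, hy⟩
    rw [this]
    exact (Φ.symm ⟨y, hy⟩).2
  · intro y hy
    have h1 := hF ⟨y, hy⟩
    have h2 := hE (Φ ⟨y, hy⟩)
    rw [Homeomorph.symm_apply_apply] at h2
    rw [h1]
    exact h2
  · intro y hy
    have h1 := hE ⟨y, hy⟩
    have h2 := hF (Φ.symm ⟨y, hy⟩)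
    rw [Homeomorph.apply_symm_apply] at h2
    rw [h1]
    exact h2

/-- vertices whose point is near are near -/
theorem near_of_pt {R : ℝ} {n : ℕ} {v : (tw (cell16 R) n).V} {y : Fin 4 × Bool → ℝ}
    (hy : y = pt (cell16 R) n v) (h : y (0, true) = 0) : v ∈ (tw (cell16 R) n).near := by
  have h1 : y ∈ Re (cell16 R).G := by rw [hy]; exact pt_mem n v
  have h2 : y ∈ Rl (cell16 R).G (cell16 R).near := by
    refine ⟨h1.1, h1.2.1, fun x hx => ?_, h1.2.2.2⟩
    show x ≠ (0, true)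
    intro hx'
    have h3 : y x = y (0, true) := congrArg y hx'
    exact hx (h3.trans h)
  have h3 := co_near h2 n
  have h4 : co (cell16 R) n y = dlt v := by rw [hy]; exact co_pt n v
  rw [h4] at h3
  exact h3.2.2.1 v (by rw [dlt_self]; exact one_ne_zero)

/-- THE FINAL STEP -/
theorem cube_main (hA : Alex) {c0 : ℕ} (hC : Comb c0)
    (h : (Fin 3 → ℝ) ≃ₜ (Fin 3 → ℝ)) {ε : ℝ} (hε : 0 < ε) :
    ∃ g, CubeEmb g ∧ ∀ p ∈ closedBall (0 : Fin 3 → ℝ) 1, dist (g p) (h p) < ε := by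
  have h8 : (0 : ℝ) < 8 := by norm_num
  -- the radius of the range
  obtain ⟨B, hB⟩ := (isCompact_closedBall (0 : Fin 3 → ℝ) 2).exists_bound_of_continuousOn
    h.continuous.continuousOn
  set R' : ℝ := 3 * max B 0 + 1 with hR'def
  have hB0 : 0 ≤ max B 0 := le_max_right _ _
  have hR' : 0 < R' := by positivity
  have hs : ∀ p ∈ closedBall (0 : Fin 3 → ℝ) 2, sR R' (h p) < 1 := by
    intro p hp
    have h1 : ∀ i, |h p i| ≤ max B 0 := fun i => by
      have h2 := norm_le_pi_norm (h p) i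
      rw [Real.norm_eq_abs] at h2
      exact h2.trans ((hB p hp).trans (le_max_left _ _))
    rw [sR, div_lt_one hR']
    calc ∑ i, |h p i| ≤ ∑ _i : Fin 3, max B 0 := Finset.sum_le_sum fun i _ => h1 i
      _ = 3 * max B 0 := by simp
      _ < R' := by rw [hR'def]; linarith
  obtain ⟨Φ, hΦ⟩ := exists_homeo h8 hR' h
  obtain ⟨μ, hμ, hμ'⟩ := cube_of_cells hR' h (fun p hp => (hs p hp).le) Φ h8 hΦ hε
  -- the pair
  obtain ⟨F, E, hRH, hF, hE⟩ := exists_RH Φ 8 R'
  set P : Pair (cell16 8) (cell16 R') := hRH.pair (k5_cell16 8) (k5_cell16 R') with hP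
  obtain ⟨n1, hn1⟩ := hC 8 R' h8 hR' P
  -- the level of the domain
  obtain ⟨n2, hn2⟩ := exists_pow_lt_of_lt_one (show (0 : ℝ) < μ / (2 * c0 + 3) by positivity)
    (show (3 / 4 : ℝ) < 1 by norm_num)
  set n0 := max n1 n2 with hn0
  have hpow : (2 * c0 + 3) * (3 / 4 : ℝ) ^ n0 ≤ μ := by
    have h1 : (3 / 4 : ℝ) ^ n0 ≤ (3 / 4 : ℝ) ^ n2 :=
      pow_le_pow_of_le_one (by norm_num) (by norm_num) (le_max_right _ _)
    have h2 : (3 / 4 : ℝ) ^ n0 ≤ μ / (2 * c0 + 3) := h1.trans hn2.le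
    calc (2 * (c0 : ℝ) + 3) * (3 / 4 : ℝ) ^ n0 ≤ (2 * c0 + 3) * (μ / (2 * c0 + 3)) :=
          mul_le_mul_of_nonneg_left h2 (by positivity)
      _ = μ := by field_simp
  obtain ⟨N2, κ, hpat, hκ⟩ := hn1 n0 (le_max_left _ _)
  have hGc : IsSph3 (tw (cell16 8) n0).G := tw_sph3 _ (cell16_sph3 8) n0
  have hG : IsSph3 (tw (cell16 R') N2).G := tw_sph3 _ (cell16_sph3 R') N2
  -- colours which occur
  have hTS : ∀ x' : (tw (cell16 R') N2).V, TS (tw (cell16 8) n0).G {κ x'} := by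
    intro x'
    refine (hpat.ne {κ x'} (singleton_nonempty _)).mp ?_
    refine ⟨⟨{x'}, Finset.singleton_nonempty x', by simp⟩, fun a ha => ?_⟩
    have ha' : a = κ x' := ha
    exact ⟨x', Finset.mem_singleton_self x', ha'.symm⟩
  have htet : ∀ a, TS (tw (cell16 8) n0).G {a} → ∀ t, a = Sum.inr t →
      IsTet (tw (cell16 8) n0).G t := by
    rintro a ⟨v, w, t1, t2, -, -, -, h1, h2, -, h3⟩ t rfl
    have h4 := h3 (mem_singleton _)
    simp only [mem_insert_iff, mem_singleton_iff] at h4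
    rcases h4 with h4 | h4 | h4 | h4
    · cases h4
    · cases h4
    · cases h4; exact h1
    · cases h4; exact h2
  -- location of the stars of the range
  have hstar : ∀ x' : (tw (cell16 R') N2).V, ∀ y : ↥(Re GO), y.1 ∈ ost (cell16 R') N2 x' →
      (Φ.symm y).1 ∈ Bg (cell16 8) n0 c0 (κ x') := by
    intro x' y hy
    obtain ⟨j, u, hdn, w, hw, hw'⟩ := hκ x'
    refine ⟨htet _ (hTS x'), w, hw', ?_⟩
    have h1 : E y.1 ∈ ost (cell16 8) (n0 + j) u := hdn y.1 hy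
    rw [hE] at h1
    exact ost_sub_iff.mpr hw h1
  refine hμ' (n0 + 1) (N2 + 1) (Co (tw (cell16 8) n0).V) (J.Dc (tw (cell16 8) n0).G)
    (fun a => Rl (sd (tw (cell16 R') N2).G) (XX (tw (cell16 R') N2).G κ {a}))
    (Bg (cell16 8) n0 c0) ⟨fun a => Bg_sub, ?_, fun a c hc => Dc_Bg hc, ?_, ?_, ?_, ?_⟩
  · intro a y hy y' hy'
    refine (dist_pi_le_iff hμ.le).mpr fun x => ?_
    rw [Real.dist_eq]
    exact (Bg_diam (k5_cell16 8) hy hy' x).trans hpow
  · intro a z hz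
    obtain ⟨x', hx', h1⟩ := Rc_ost hz
    refine ⟨rl_re hz, Φ.symm ⟨re (cell16 R') (N2 + 1) z, h1.1⟩, ?_, ?_⟩
    · rw [← hx']
      exact hstar x' ⟨re (cell16 R') (N2 + 1) z, h1.1⟩ h1
    · rw [Homeomorph.apply_symm_apply]
  · intro c hc
    exact mem_iUnion.mp (J.Dc_cover hGc hc)
  · intro z hz
    exact Rc_cover κ hz
  · set A0 : Set (Co (tw (cell16 8) n0).V) :=
      {a | Bg (cell16 8) n0 c0 a ⊆ ofR 8 '' closedBall 0 2} with hA0
    have hball : ∀ a ∈ A0, TS (tw (cell16 8) n0).G {a} →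
        Ball 3 (Rl (sd (tw (cell16 R') N2).G) (XX (tw (cell16 R') N2).G κ {a}))
          (Rl (sd (tw (cell16 R') N2).G) (J.Bd (tw (cell16 R') N2).G κ {a})) := by
      intro a ha hts
      rw [XX_pl, Bd_Fr]
      -- points of the vertices of this colour
      have hpt : ∀ x' : (tw (cell16 R') N2).V, κ x' = a → ∃ p ∈ closedBall (0 : Fin 3 → ℝ) 2,
          pt (cell16 R') N2 x' = ofR R' (h p) := by
        intro x' hx'
        have h1 := hstar x' ⟨pt (cell16 R') N2 x', pt_mem N2 x'⟩ (pt_mem_ost N2 x')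
        rw [hx'] at h1
        obtain ⟨p, hp, h2⟩ := ha h1
        refine ⟨p, hp, ?_⟩
        have h3 : Φ.symm ⟨pt (cell16 R') N2 x', pt_mem N2 x'⟩ = ⟨ofR 8 p, ofR_mem h8 p⟩ :=
          Subtype.ext h2.symm
        have h4 : (⟨pt (cell16 R') N2 x', pt_mem N2 x'⟩ : ↥(Re GO)) =
            Φ ⟨ofR 8 p, ofR_mem h8 p⟩ := by
          rw [← h3, Homeomorph.apply_symm_apply]
        rw [hΦ] at h4
        exact congrArg Subtype.val h4
      have hmp : mi (tw (cell16 R') N2).G (κ ⁻¹' {a}) ⊆ pl (tw (cell16 R') N2).G (κ ⁻¹' {a}) :=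
        fun s hs => by
          obtain ⟨x, hx⟩ := s.2.1
          exact ⟨x, hx, hs x hx⟩
      refine hA R' N2 (κ ⁻¹' {a}) hR' ?_ ?_ (compl_conn hGc hpat a hts) ?_ ?_
      · have h1 := (hpat.pat {a} (singleton_nonempty a)
          ((hpat.ne {a} (singleton_nonempty a)).mpr hts)).1
        rw [XX_pl] at h1
        exact (bt_Conn hmp subset_rfl).mp h1
      · have h1 := (hpat.pat {a} (singleton_nonempty a)
          ((hpat.ne {a} (singleton_nonempty a)).mpr hts)).2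
        rw [XX_pl] at h1
        exact (bt_HZ hmp subset_rfl).mp h1
      · intro x' hx'
        obtain ⟨p, hp, h1⟩ := hpt x' hx'
        exact near_of_pt h1.symm (ofR_near_zero (hs p hp).le)
      · intro x' hx' y hy
        obtain ⟨p, hp, h1⟩ := hpt x' hx'
        have h2 : y = ofR R' (h p) := hy.trans h1
        have h3 := hs p hp
        rw [h2, ofR_zf]
        exact lt_max_of_lt_right (by linarith)
    obtain ⟨f, k, h1, h2⟩ := J.main hGc hG hpat A0 hball
    exact ⟨f, k, h1, fun a ha => (h2 a ha).subset⟩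

end MOT.Fn
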