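import Pool.Agent.MOT.FnG
import Pool.Agent.MOT.EaLa

/-!
# MOT/FnP: the Alexander theorem of block E in the form used in FnG (helper90)
-/

open Classical

noncomputable section

namespace MOT.Fn

open MOT.Ea

theorem pt_itv (K : Lv) (x : K.V) : ∀ n, pt K n (itv K x n) = dlt x
  | 0 => rfl
  | n + 1 => by
    funext y
    have h := pt_succ n (vx (tw K n).G (itv K x n)) y
    have h2 : pt K (n + 1) (itv K x (n + 1)) y = (∑ v ∈ ({itv K x n} : Finset (tw K n).V),
        pt K n v y) / ((({itv K x n} : Finset (tw K n).V).card : ℕ) : ℝ) := h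
    rw [h2, Finset.sum_singleton, Finset.card_singleton, pt_itv K x n]
    simp

/-- the hypothesis of FnG from the theorem of block E -/
theorem alex_of (H : ∀ (R : ℝ) (n : ℕ) (A : Set (tw (cell16 R) n).V),
    Conn (tw (cell16 R) n).G A → HZ (tw (cell16 R) n).G A → Conn (tw (cell16 R) n).G Aᶜ →
    A ⊆ (tw (cell16 R) n).near →
    itv (cell16 R) ((3, false) : Fin 4 × Bool) n ∉ A →
    itv (cell16 R) ((3, true) : Fin 4 × Bool) n ∉ A →
    Ball 3 (Rl (sd (tw (cell16 R) n).G) (pl (tw (cell16 R) n).G A))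
      (Rl (sd (tw (cell16 R) n).G) (Fr (tw (cell16 R) n).G A))) : Alex := by
  intro R n M _ h1 h2 h3 h4 h5
  have key : ∀ b : Bool, itv (cell16 R) ((3, b) : Fin 4 × Bool) n ∉ M := by
    intro b hb
    have h6 := h5 _ hb (dlt ((3, b) : Fin 4 × Bool))
      (pt_itv (cell16 R) ((3, b) : Fin 4 × Bool) n).symm
    have h7 : dlt ((3, b) : Fin 4 × Bool) (0, false) = 0 := dlt_ne (by
      intro h
      have h8 : (0 : Fin 4) = 3 := congrArg Prod.fst h
      exact absurd h8 (by decide))
    rw [h7] at h6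
    exact lt_irrefl _ h6
  exact H R n M h1 h2 h3 h4 (key false) (key true)

end MOT.Fn
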