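import Pool.Agent.MOT.Eul

/-!
# MOT/Inc: incidence sums
-/

open Classical

noncomputable section

namespace MOT

variable {V : Type} {G : SimpleGraph V} {A B M S : Set V}

/-- common neighbours of `s` inside `S`, as a finset -/
def lkf [Finite V] (G : SimpleGraph V) (S : Set V) (s : Finset V) : Finset V :=
  (Set.toFinite (Lk G (s : Set V) ∩ S)).toFinset

theorem mem_lkf [Finite V] {s : Finset V} {v : V} :
    v ∈ lkf G S s ↔ (∀ x ∈ s, G.Adj x v) ∧ v ∈ S := by
  rw [lkf, Set.Finite.mem_toFinset]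
  exact ⟨fun h => ⟨fun x hx => h.1 x (Finset.mem_coe.2 hx), h.2⟩,
    fun h => ⟨fun x hx => h.1 x (Finset.mem_coe.1 hx), h.2⟩⟩

theorem clique_erase {x : V} {s : Finset V} (hc : G.IsClique (s : Set V)) (hx : x ∈ s) {y : V}
    (hy : y ∈ s.erase x) : G.Adj x y :=
  hc (Finset.mem_coe.2 hx) (Finset.mem_coe.2 (Finset.mem_of_mem_erase hy))
    (Finset.ne_of_mem_erase hy).symm

theorem clique_insert {x : V} {s : Finset V} (hc : G.IsClique (s : Set V))
    (h : ∀ y ∈ s, G.Adj x y) : G.IsClique ((insert x s : Finset V) : Set V) := by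
  intro u hu v hv huv
  simp only [Finset.coe_insert, Set.mem_insert_iff, Finset.mem_coe] at hu hv
  rcases hu with rfl | hu <;> rcases hv with rfl | hv
  · exact absurd rfl huv
  · exact h v hv
  · exact (h u hu).symm
  · exact hc (Finset.mem_coe.2 hu) (Finset.mem_coe.2 hv) huv

/-- simplices one dimension higher containing `e` -/
theorem star_card [Finite V] (e : Finset V) (k : ℕ) (hk : e.card = k)
    (hc : G.IsClique (e : Set V)) (hS : (e : Set V) ⊆ S) :
    {t : Finset V | t.card = k + 1 ∧ G.IsClique (t : Set V) ∧ (t : Set V) ⊆ S ∧ e ⊆ t} =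
      (fun z => insert z e) '' (Lk G (e : Set V) ∩ S) := by
  ext t
  constructor
  · rintro ⟨h1, h2, h3, h4⟩
    have : (t \ e).card = 1 := by
      rw [Finset.card_sdiff_of_subset h4, h1, hk]; omega
    obtain ⟨z, hz⟩ := Finset.card_eq_one.1 this
    have hzt : z ∈ t \ e := by rw [hz]; simp
    rw [Finset.mem_sdiff] at hzt
    refine ⟨z, ⟨?_, h3 (Finset.mem_coe.2 hzt.1)⟩, ?_⟩
    · intro x hx
      exact h2 (Finset.mem_coe.2 (h4 (Finset.mem_coe.1 hx))) (Finset.mem_coe.2 hzt.1)
        (fun h => hzt.2 (h ▸ Finset.mem_coe.1 hx))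
    · show insert z e = t
      rw [← Finset.sdiff_union_of_subset h4, hz]; rfl
  · rintro ⟨z, ⟨hz, hzS⟩, rfl⟩
    have hze : z ∉ e := fun h => G.irrefl (hz z (Finset.mem_coe.2 h))
    refine ⟨?_, ?_, ?_, ?_⟩
    · rw [Finset.card_insert_of_notMem hze, hk]
    · exact clique_insert hc fun y hy => (hz y (Finset.mem_coe.2 hy)).symm
    · intro y hy
      simp only [Finset.coe_insert, Set.mem_insert_iff, Finset.mem_coe] at hy
      rcases hy with rfl | hy
      · exact hzS
      · exact hS (Finset.mem_coe.2 hy)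
    · exact Finset.subset_insert _ _

theorem star_ncard [Finite V] (e : Finset V) (k : ℕ) (hk : e.card = k)
    (hc : G.IsClique (e : Set V)) (hS : (e : Set V) ⊆ S) :
    {t : Finset V | t.card = k + 1 ∧ G.IsClique (t : Set V) ∧ (t : Set V) ⊆ S ∧ e ⊆ t}.ncard =
      (Lk G (e : Set V) ∩ S).ncard := by
  rw [star_card e k hk hc hS, Set.InjOn.ncard_image]
  intro z hz z' hz' h
  have h1 : z ∉ e := fun h => G.irrefl (hz.1 z (Finset.mem_coe.2 h))
  have h' : insert z e = insert z' e := h
  have : z ∈ insert z' e := by rw [← h']; simp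
  rcases Finset.mem_insert.1 this with h2 | h2
  · exact h2
  · exact absurd h2 h1

theorem pair_comm3 (x y z : V) : ({x, y, z} : Finset V) = {y, x, z} := by
  ext w; simp only [Finset.mem_insert, Finset.mem_singleton]; tauto

theorem pair_comm3' (x y z : V) : ({x, y, z} : Finset V) = {x, z, y} := by
  ext w; simp only [Finset.mem_insert, Finset.mem_singleton]; tauto

/-- extension by zero of a function on simplices -/
def wbar {k : ℕ} (w : Kq G A k → ZMod 2) : Finset V → ZMod 2 := fun t =>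
  if h : t.card = k ∧ G.IsClique (t : Set V) ∧ (t : Set V) ⊆ A then w ⟨t, h⟩ else 0

theorem wbar_val {k : ℕ} (w : Kq G A k → ZMod 2) (t : Kq G A k) : wbar w t.1 = w t := by
  unfold wbar
  rw [dif_pos t.2]; rfl

theorem wbar_zero {k : ℕ} (w : Kq G A k → ZMod 2) {t : Finset V} {x : V} (hx : x ∈ t)
    (hxA : x ∉ A) : wbar w t = 0 := dif_neg fun h => hxA (h.2.2 hx)

theorem incT_sum [Finite V] (hAS : A ⊆ S) {k : ℕ} (w : Kq G A (k + 1) → ZMod 2)
    (e : Kq G A k) : (Matrix.transpose (inc G A k)).mulVec w e =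
      ∑ z ∈ lkf G S e.1, wbar w (insert z e.1) := by
  have h1 : (Matrix.transpose (inc G A k)).mulVec w e =
      ∑ t ∈ Finset.univ.filter (fun t : Kq G A (k + 1) => e.1 ⊆ t.1), w t := by
    rw [Finset.sum_filter, Matrix.mulVec, dotProduct]
    refine Finset.sum_congr rfl fun t _ => ?_
    simp only [Matrix.transpose_apply, inc, Matrix.of_apply]
    split_ifs <;> simp
  rw [h1]
  have h2 : ∑ z ∈ lkf G S e.1, wbar w (insert z e.1) =
      ∑ t ∈ (lkf G S e.1).image (fun z => insert z e.1), wbar w t := by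
    rw [Finset.sum_image]
    intro z hz z' hz' h
    have h1 : z ∉ e.1 := fun h => G.irrefl ((mem_lkf.1 hz).1 z h)
    have h' : insert z e.1 = insert z' e.1 := h
    have : z ∈ insert z' e.1 := by rw [← h']; simp
    rcases Finset.mem_insert.1 this with h2 | h2
    · exact h2
    · exact absurd h2 h1
  rw [h2]
  refine Finset.sum_of_injOn (fun t => t.1) ?_ ?_ ?_ ?_
  · intro t _ t' _ h
    exact Subtype.ext h
  · intro t ht
    simp only [Finset.coe_filter, Finset.mem_univ, true_and, Set.mem_ofPred_eq] at ht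
    have hmem : t.1 ∈ {t : Finset V | t.card = k + 1 ∧ G.IsClique (t : Set V) ∧
        (t : Set V) ⊆ S ∧ e.1 ⊆ t} := ⟨t.2.1, t.2.2.1, t.2.2.2.trans hAS, ht⟩
    rw [star_card e.1 k e.2.1 e.2.2.1 (e.2.2.2.trans hAS)] at hmem
    obtain ⟨z, hz, hzt⟩ := hmem
    simp only [Finset.coe_image, Set.mem_image, Finset.mem_coe]
    exact ⟨z, mem_lkf.2 ⟨fun x hx => hz.1 x hx, hz.2⟩, hzt⟩
  · intro t ht hn
    simp only [Finset.mem_image] at ht
    obtain ⟨z, hz, rfl⟩ := ht
    by_contra hne
    apply hn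
    unfold wbar at hne
    by_cases h : (insert z e.1).card = k + 1 ∧ G.IsClique ((insert z e.1 : Finset V) : Set V) ∧
        ((insert z e.1 : Finset V) : Set V) ⊆ A
    · exact ⟨⟨_, h⟩, Finset.mem_coe.2 (Finset.mem_filter.2 ⟨Finset.mem_univ _,
        Finset.subset_insert _ _⟩), rfl⟩
    · rw [dif_neg h] at hne; exact absurd rfl hne
  · intro t _
    exact (wbar_val w t).symm

theorem subset_clique {s t : Finset V} (h : s ⊆ t) (hc : G.IsClique (t : Set V)) :
    G.IsClique (s : Set V) := hc.subset (by exact_mod_cast h)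

end MOT
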