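import Pool.Agent.MOT.PlD
import Pool.Agent.MOT.PlSel

/-!
# MOT/JdA: a general criterion for cones

`X` is a set with apex `p`, `g i` finitely many affine functions with `0 ≤ g i ≤ 1` on `X`,
`g i p = 1`; the base is the part of `X` where some `g i` vanishes; radius `max (1 - g i)`.
-/

open Classical

noncomputable section

namespace MOT.J

variable {E ι : Type} [AddCommGroup E] [Module ℝ E] [TopologicalSpace E] [IsTopologicalAddGroup E]
  [ContinuousSMul ℝ E] [T2Space E] [FiniteDimensional ℝ E]

private theorem aff_cont (g : E →ᵃ[ℝ] ℝ) : Continuous g := by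
  have h : Continuous g.linear := LinearMap.continuous_of_finiteDimensional g.linear
  have e : (g : E → ℝ) = fun y => g.linear y + g 0 := by
    funext y
    rw [← vadd_eq_add, ← AffineMap.map_vadd, vadd_eq_add, add_zero]
  rw [e]
  exact h.add continuous_const

omit [TopologicalSpace E] [IsTopologicalAddGroup E] [ContinuousSMul ℝ E] [T2Space E]
  [FiniteDimensional ℝ E] in
private theorem aff_line (g : E →ᵃ[ℝ] ℝ) (p y : E) (l : ℝ) (hg : g p = 1) :
    g (p + l • (y - p)) = 1 - l * (1 - g y) := by
  have e : p + l • (y - p) = AffineMap.lineMap p y l := by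
    rw [AffineMap.lineMap_apply, vsub_eq_sub, vadd_eq_add, add_comm]
  rw [e, AffineMap.apply_lineMap, AffineMap.lineMap_apply, hg, vsub_eq_sub, vadd_eq_add,
    smul_eq_mul]
  ring

theorem cone_of_forms [Finite ι] {X : Set E} {p : E} (g : ι → E →ᵃ[ℝ] ℝ) (hp : p ∈ X)
    (h0 : ∀ y ∈ X, ∀ i, 0 ≤ g i y) (h1 : ∀ y ∈ X, ∀ i, g i y ≤ 1) (hg : ∀ i, g i p = 1)
    (hu : ∀ y ∈ X, (∀ i, g i y = 1) → y = p)
    (hs : ∀ y ∈ X, ∀ l : ℝ, 0 ≤ l → (∀ i, l * (1 - g i y) ≤ 1) → p + l • (y - p) ∈ X) :
    ∃ r, IsCone X {y | y ∈ X ∧ ∃ i, g i y = 0} p r := by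
  have := Fintype.ofFinite ι
  by_cases hι : Nonempty ι
  · have hne : (Finset.univ : Finset ι).Nonempty := Finset.univ_nonempty
    set m : E → ℝ := fun y => Finset.univ.inf' hne fun i => g i y with hm
    have mle : ∀ y i, m y ≤ g i y := fun y i => Finset.inf'_le _ (Finset.mem_univ i)
    have lem : ∀ y a, (∀ i, a ≤ g i y) → a ≤ m y := fun y a h =>
      Finset.le_inf' _ _ fun i _ => h i
    have mat : ∀ y, ∃ i, m y = g i y := fun y => by
      obtain ⟨i, -, hi⟩ := Finset.exists_mem_eq_inf' hne fun i => g i y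
      exact ⟨i, hi⟩
    refine ⟨fun y => 1 - m y, hp, fun y hy => hy.1, ?_, ?_, ?_, ?_, ?_, ?_⟩
    · refine PLOn.sub (PLOn.const 1 X) (PLOn.inf' hne fun i _ => ?_)
      exact PLOn.of_affine (g i) (aff_cont (g i)) X
    · intro y hy
      obtain ⟨i, hi⟩ := mat y
      have h2 := h1 y hy i
      show 0 ≤ 1 - m y
      rw [hi]; linarith
    · intro y hy
      have h2 := lem y 0 (h0 y hy)
      show 1 - m y ≤ 1
      linarith
    · intro y hy
      constructor
      · intro h
        refine hu y hy fun i => le_antisymm (h1 y hy i) ?_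
        have h2 := mle y i
        have h3 : 1 - m y = 0 := h
        linarith
      · intro h
        have h2 : 1 ≤ m y := lem y 1 fun i => by rw [h, hg]
        obtain ⟨i, hi⟩ := mat y
        have h3 := h1 y hy i
        show 1 - m y = 0
        linarith
    · intro y hy hyp
      have hpos : 0 < 1 - m y := by
        have h2 : m y ≠ 1 := fun h => by
          refine hyp (hu y hy fun i => le_antisymm (h1 y hy i) ?_)
          have := mle y i
          linarith
        obtain ⟨i, hi⟩ := mat y
        have h3 := h1 y hy i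
        have h4 : m y < 1 := lt_of_le_of_ne (by rw [hi]; exact h3) h2
        linarith
      refine ⟨p + (1 - m y)⁻¹ • (y - p), ⟨hs y hy _ (inv_nonneg.2 hpos.le) fun i => ?_, ?_⟩, ?_⟩
      · rw [inv_mul_le_iff₀ hpos]
        have := mle y i
        linarith
      · obtain ⟨i, hi⟩ := mat y
        refine ⟨i, ?_⟩
        rw [aff_line (g i) p y _ (hg i), ← hi, inv_mul_cancel₀ hpos.ne', sub_self]
      · rw [add_sub_cancel_left, smul_smul, mul_inv_cancel₀ hpos.ne', one_smul,
          add_sub_cancel]
    · rintro b ⟨hb, i0, hi0⟩ t ht0 ht1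
      refine ⟨hs b hb t ht0 fun i => ?_, ?_⟩
      · have h2 := h0 b hb i
        have h3 := h1 b hb i
        nlinarith
      · show 1 - m (p + t • (b - p)) = t
        have h2 : m (p + t • (b - p)) ≤ 1 - t := by
          have h3 := mle (p + t • (b - p)) i0
          rw [aff_line (g i0) p b _ (hg i0), hi0] at h3
          linarith
        have h4 : 1 - t ≤ m (p + t • (b - p)) := by
          refine lem _ _ fun i => ?_
          rw [aff_line (g i) p b _ (hg i)]
          have h5 := h0 b hb i
          nlinarith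
        linarith
  · have hie : IsEmpty ι := not_nonempty_iff.1 hι
    have hall : ∀ y ∈ X, y = p := fun y hy => hu y hy fun i => hie.elim i
    refine ⟨fun _ => 0, hp, fun y hy => hy.1, PLOn.const 0 X, fun _ _ => le_rfl,
      fun _ _ => zero_le_one, fun y hy => ⟨fun _ => hall y hy, fun _ => rfl⟩,
      fun y hy hne => absurd (hall y hy) hne, ?_⟩
    rintro b ⟨-, i, -⟩
    exact hie.elim i

end MOT.J
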