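import Pool.Agent.MOT.JdBZ

/-!
# MOT/JdB: the intersections of the domain cells are cones

`CI G a b`: cells in the form `a ≤ z ≤ b` for all `z` of the support, `a` a simplex with at most 2
vertices or `none`, `b` a simplex with at least 3 vertices or `none`; `lo ≥ 1/2` if `a ≠ none`,
`hi ≥ 1/2` if `b ≠ none`.  `CI`, `CB`, `XI_eq_CI` are in JdBX, `cone_both` in JdBY, `cone_low`, `cone_high` in JdBZ.
-/

open Classical

noncomputable section

namespace MOT.J

variable {V : Type}

theorem cone_Dc [Finite V] {G : SimpleGraph V} (hG : IsSph3 G) {A : Set (Co V)}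
    (hA : A.Nonempty) (hT : TS G A) : ∃ p r, IsCone (XI (Dc G) A) (bdI (Dc G) A) p r := by
  obtain ⟨a, b, hab, ha, hb, hc, h1, h2⟩ := XI_eq_CI hG hA hT
  rw [h1, h2]
  cases a with
  | none =>
    cases b with
    | none => simp at hab
    | some d => exact cone_high hG (hb d rfl)
  | some c =>
    cases b with
    | none => exact cone_low hG (ha c rfl)
    | some d => exact cone_both hG (ha c rfl) (hb d rfl) (hc c rfl d rfl)

end MOT.J
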