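import Pool.Agent.MOT.JdDef

/-!
# MOT/JdBX: the intersections of the domain cells in the form `a ≤ z ≤ b` (helper63)
-/

open Classical

noncomputable section

namespace MOT.J

variable {V : Type}

/-- cells by lower and upper bound -/
def CI (G : SimpleGraph V) (a b : Option (Cq G)) : Set (Cq G → ℝ) :=
  {y | y ∈ Rl (sd G) Set.univ ∧ (∀ z, y z ≠ 0 → (∀ c ∈ a, c ≤ z) ∧ (∀ c ∈ b, z ≤ c)) ∧
    (a ≠ none → 1 / 2 ≤ lo G y) ∧ (b ≠ none → 1 / 2 ≤ hi G y)}

/-- the part of the cell in one more top cell -/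
def CB (G : SimpleGraph V) (a b : Option (Cq G)) : Set (Cq G → ℝ) :=
  {y | y ∈ CI G a b ∧ ((∃ c ∈ a, c.1.card = 1 ∧ y c = 0) ∨ (∃ c ∈ b, c.1.card = 4 ∧ y c = 0) ∨
    (a = none ∧ lo G y = 1 / 2) ∨ (b = none ∧ hi G y = 1 / 2))}

/-! ## tetrahedra -/

private theorem tet_insert {G : SimpleGraph V} {τ : Finset V} (hτ : G.IsClique (τ : Set V))
    (h3 : τ.card = 3) {p : V} (hp : p ∈ Lk G (τ : Set V)) :
    p ∉ τ ∧ IsTet G (insert p τ) := by
  have hps : p ∉ τ := fun h => (hp p h).ne rfl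
  refine ⟨hps, by rw [Finset.card_insert_of_notMem hps, h3], ?_⟩
  rw [Finset.coe_insert]
  exact hτ.insert fun b hb _ => (hp b hb).symm

private theorem tet_form {G : SimpleGraph V} {τ s : Finset V} (h3 : τ.card = 3)
    (hs : IsTet G s) (h : τ ⊆ s) : ∃ p ∈ Lk G (τ : Set V), s = insert p τ := by
  have h1 : (s \ τ).card = 1 := by
    rw [Finset.card_sdiff_of_subset h, hs.1, h3]
  obtain ⟨x, hx⟩ := Finset.card_eq_one.1 h1
  have hx1 : x ∈ s \ τ := by rw [hx]; exact Finset.mem_singleton_self x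
  rw [Finset.mem_sdiff] at hx1
  refine ⟨x, ?_, ?_⟩
  · intro y hy
    have hy' : y ∈ τ := Finset.mem_coe.1 hy
    refine hs.2 (Finset.mem_coe.2 (h hy')) (Finset.mem_coe.2 hx1.1) ?_
    rintro rfl
    exact hx1.2 hy'
  · have h2 := Finset.sdiff_union_of_subset h
    rw [hx] at h2
    rw [← h2]
    rfl

/-- the other tetrahedron at a triangle -/
private theorem tet_other {G : SimpleGraph V} (hG : IsSph3 G) {τ t : Finset V}
    (h3 : τ.card = 3) (ht : IsTet G t) (h : τ ⊆ t) : ∃ s, IsTet G s ∧ s ≠ t ∧ τ ⊆ s := by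
  have hτ : G.IsClique (τ : Set V) := ht.2.subset (Finset.coe_subset.2 h)
  obtain ⟨p, hp, rfl⟩ := tet_form h3 ht h
  obtain ⟨a, b, hab, hL⟩ := Set.ncard_eq_two.1 (hG.tri τ hτ h3)
  have key : ∃ q ∈ Lk G (τ : Set V), q ≠ p := by
    by_cases e : a = p
    · exact ⟨b, by rw [hL]; simp, by rw [← e]; exact hab.symm⟩
    · exact ⟨a, by rw [hL]; simp, e⟩
  obtain ⟨q, hq, hqp⟩ := key
  obtain ⟨h4, h5⟩ := tet_insert hτ h3 hq
  refine ⟨_, h5, fun e => ?_, Finset.subset_insert _ _⟩
  have h6 : q ∈ insert p τ := e ▸ Finset.mem_insert_self q τ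
  rcases Finset.mem_insert.1 h6 with h7 | h7
  · exact hqp h7
  · exact h4 h7

/-- only two tetrahedra at a triangle -/
private theorem tet_two {G : SimpleGraph V} (hG : IsSph3 G) {τ s t t' : Finset V}
    (h3 : τ.card = 3) (hs : IsTet G s) (ht : IsTet G t) (ht' : IsTet G t') (h1 : τ ⊆ s)
    (h2 : τ ⊆ t) (h2' : τ ⊆ t') (hne : t ≠ t') : s = t ∨ s = t' := by
  have hτ : G.IsClique (τ : Set V) := ht.2.subset (Finset.coe_subset.2 h2)
  obtain ⟨p, hp, rfl⟩ := tet_form h3 hs h1
  obtain ⟨q, hq, rfl⟩ := tet_form h3 ht h2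
  obtain ⟨r, hr, rfl⟩ := tet_form h3 ht' h2'
  obtain ⟨a, b, hab, hL⟩ := Set.ncard_eq_two.1 (hG.tri τ hτ h3)
  rw [hL] at hp hq hr
  have hqr : q ≠ r := fun e => hne (by rw [e])
  rcases hp with rfl | hp <;> rcases hq with rfl | hq <;> rcases hr with rfl | hr <;>
    simp_all [Set.mem_singleton_iff]

/-- every simplex lies in a tetrahedron -/
private theorem tet_sup {G : SimpleGraph V} (hG : IsSph3 G) (z : Cq G) :
    ∃ s, IsTet G s ∧ z.1 ⊆ s := by
  have step : ∀ z : Cq G, z.1.card < 4 → ∃ z' : Cq G, z.1 ⊆ z'.1 ∧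
      z'.1.card = z.1.card + 1 := by
    intro z hz
    have h1 : (Lk G (z.1 : Set V)).Nonempty := by
      have h0 : 0 < z.1.card := Finset.card_pos.2 z.2.1
      rcases (by omega : z.1.card = 1 ∨ z.1.card = 2 ∨ z.1.card = 3) with h | h | h
      · obtain ⟨x, hx⟩ := Finset.card_eq_one.1 h
        rw [hx, Finset.coe_singleton]
        exact (hG.vert x).1.1
      · exact (hG.edge z.1 z.2.2 h).1.1
      · have := hG.tri z.1 z.2.2 h
        exact Set.nonempty_of_ncard_ne_zero (by omega)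
    obtain ⟨p, hp⟩ := h1
    have hps : p ∉ z.1 := fun h => (hp p h).ne rfl
    have hc : G.IsClique ((insert p z.1 : Finset V) : Set V) := by
      rw [Finset.coe_insert]
      exact z.2.2.insert fun b hb _ => (hp b hb).symm
    exact ⟨⟨insert p z.1, Finset.insert_nonempty _ _, hc⟩, Finset.subset_insert _ _,
      Finset.card_insert_of_notMem hps⟩
  have main : ∀ n (z : Cq G), z.1.card + n = 4 → ∃ s, IsTet G s ∧ z.1 ⊆ s := by
    intro n
    induction n with
    | zero =>
      intro z hz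
      exact ⟨z.1, ⟨by omega, z.2.2⟩, subset_rfl⟩
    | succ n ih =>
      intro z hz
      obtain ⟨z', h1, h2⟩ := step z (by omega)
      obtain ⟨s, hs, h3⟩ := ih z' (by omega)
      exact ⟨s, hs, h1.trans h3⟩
  have h4 := hG.k5 z.1 z.2.2
  exact main (4 - z.1.card) z (by omega)

/-! ## supports -/

private theorem supp_ne {G : SimpleGraph V} {y : Cq G → ℝ} (hy : y ∈ Rl (sd G) Set.univ) :
    ∃ z, y z ≠ 0 := by
  by_contra h
  push Not at h
  have h1 := hy.2.1
  rw [finsum_congr h, finsum_zero] at h1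
  exact zero_ne_one h1

private theorem supp_chain {G : SimpleGraph V} {y : Cq G → ℝ} (hy : y ∈ Rl (sd G) Set.univ)
    {z z' : Cq G} (h : y z ≠ 0) (h' : y z' ≠ 0) : z ≤ z' ∨ z' ≤ z := by
  by_cases e : z = z'
  · exact Or.inl e.le
  · rcases hy.2.2.2 z z' h h' e with h | h
    · exact Or.inl h.le
    · exact Or.inr h.le

private theorem exists_ext {α : Type} (f : α → ℕ) (p : α → Prop) (h : ∃ z, p z) :
    ∃ z, p z ∧ ∀ z', p z' → f z ≤ f z' := by
  have hex : ∃ n, ∃ z, p z ∧ f z = n := by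
    obtain ⟨z, hz⟩ := h
    exact ⟨f z, z, hz, rfl⟩
  obtain ⟨z, hz, e⟩ := Nat.find_spec hex
  exact ⟨z, hz, fun z' hz' => e ▸ Nat.find_min' hex ⟨z', hz', rfl⟩⟩

private theorem supp_min {G : SimpleGraph V} {y : Cq G → ℝ} (hy : y ∈ Rl (sd G) Set.univ) :
    ∃ z, y z ≠ 0 ∧ ∀ z', y z' ≠ 0 → z ≤ z' := by
  obtain ⟨z, hz, hm⟩ := exists_ext (fun z : Cq G => z.1.card) (fun z => y z ≠ 0) (supp_ne hy)
  refine ⟨z, hz, fun z' hz' => ?_⟩
  rcases supp_chain hy hz hz' with h | h
  · exact h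
  · exact (Subtype.ext (Finset.eq_of_subset_of_card_le h (hm z' hz'))).ge

private theorem supp_max {G : SimpleGraph V} (hG : IsSph3 G) {y : Cq G → ℝ}
    (hy : y ∈ Rl (sd G) Set.univ) : ∃ z, y z ≠ 0 ∧ ∀ z', y z' ≠ 0 → z' ≤ z := by
  obtain ⟨z, hz, hm⟩ := exists_ext (fun z : Cq G => 4 - z.1.card) (fun z => y z ≠ 0)
    (supp_ne hy)
  refine ⟨z, hz, fun z' hz' => ?_⟩
  rcases supp_chain hy hz hz' with h | h
  · have h1 : 4 - z.1.card ≤ 4 - z'.1.card := hm z' hz'
    have h2 := hG.k5 z.1 z.2.2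
    have h3 := hG.k5 z'.1 z'.2.2
    exact (Subtype.ext (Finset.eq_of_subset_of_card_le h (by omega))).ge
  · exact h

private theorem lo_pos {G : SimpleGraph V} {y : Cq G → ℝ} (h : 1 / 2 ≤ lo G y) :
    ∃ z, y z ≠ 0 ∧ z.1.card ≤ 2 := by
  by_contra hn
  push Not at hn
  have : lo G y = 0 := by
    unfold lo
    refine (finsum_congr (g := fun _ => (0 : ℝ)) fun z => ?_).trans finsum_zero
    by_cases hz : z.1.card ≤ 2
    · rw [if_pos hz]
      by_contra h0
      exact absurd (hn z h0) (not_lt.2 hz)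
    · rw [if_neg hz]
  rw [this] at h
  norm_num at h

private theorem hi_pos {G : SimpleGraph V} {y : Cq G → ℝ} (h : 1 / 2 ≤ hi G y) :
    ∃ z, y z ≠ 0 ∧ 3 ≤ z.1.card := by
  by_contra hn
  push Not at hn
  have : hi G y = 0 := by
    unfold hi
    refine (finsum_congr (g := fun _ => (0 : ℝ)) fun z => ?_).trans finsum_zero
    by_cases hz : z.1.card ≤ 2
    · rw [if_pos hz]
    · rw [if_neg hz]
      by_contra h0
      exact absurd (hn z h0) (by omega)
  rw [this] at h
  norm_num at h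

/-! ## lower and upper bound -/

private theorem aspec {G : SimpleGraph V} {A : Set (Co V)} {v w : V} {t t' : Finset V}
    (hcl : G.IsClique (({v, w} : Finset V) : Set V))
    (hA : A ⊆ {Sum.inl v, Sum.inl w, Sum.inr t, Sum.inr t'}) :
    ∃ a : Option (Cq G), (a = none ↔ ∀ u, Sum.inl u ∉ A) ∧ (∀ c ∈ a, c.1.card ≤ 2) ∧
      (∀ c ∈ a, ∀ u, Sum.inl u ∈ A ↔ u ∈ c.1) ∧ (∀ c ∈ a, c.1 ⊆ {v, w}) := by
  have hmem : ∀ u, (Sum.inl u : Co V) ∈ A → u ∈ ({v, w} : Finset V) := by
    intro u hu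
    have := hA hu
    simp only [Set.mem_insert_iff, Set.mem_singleton_iff, Sum.inl.injEq, reduceCtorEq,
      or_false] at this
    simpa using this
  by_cases h : ∃ u, (Sum.inl u : Co V) ∈ A
  · obtain ⟨u, hu⟩ := h
    let F : Finset V := ({v, w} : Finset V).filter (fun u => (Sum.inl u : Co V) ∈ A)
    have hF : ∀ x, x ∈ F ↔ (Sum.inl x : Co V) ∈ A := fun x =>
      ⟨fun h => (Finset.mem_filter.1 h).2, fun h => Finset.mem_filter.2 ⟨hmem x h, h⟩⟩
    have hs : F ⊆ {v, w} := Finset.filter_subset _ _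
    refine ⟨some ⟨F, ⟨u, (hF u).2 hu⟩, hcl.subset (Finset.coe_subset.2 hs)⟩, ?_, ?_, ?_, ?_⟩
    · constructor
      · intro h; cases h
      · intro h; exact absurd hu (h u)
    · rintro c ⟨⟩
      exact (Finset.card_le_card hs).trans Finset.card_le_two
    · rintro c ⟨⟩ x
      exact (hF x).symm
    · rintro c ⟨⟩
      exact hs
  · push Not at h
    refine ⟨none, ⟨fun _ => h, fun _ => rfl⟩, ?_, ?_, ?_⟩ <;> intro c hc <;> cases hc

private theorem bspec {G : SimpleGraph V} (hG : IsSph3 G) {A : Set (Co V)} {v w : V}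
    {t t' : Finset V} (hv : v ∈ t ∩ t') (hw : w ∈ t ∩ t') (ht : IsTet G t) (ht' : IsTet G t')
    (hne : t ≠ t') (h3 : (t ∩ t').card = 3)
    (hA : A ⊆ {Sum.inl v, Sum.inl w, Sum.inr t, Sum.inr t'}) :
    ∃ b : Option (Cq G), (b = none ↔ ∀ s, Sum.inr s ∉ A) ∧ (∀ c ∈ b, 3 ≤ c.1.card) ∧
      (∀ c ∈ b, ∀ z : Finset V, z ⊆ c.1 ↔ ∀ s, Sum.inr s ∈ A → z ⊆ s) ∧
      (∀ c ∈ b, c.1.card = 4 → ∀ s, Sum.inr s ∈ A → s = c.1) ∧
      (∀ c ∈ b, c.1.card = 3 → ∀ s, IsTet G s → c.1 ⊆ s → Sum.inr s ∈ A) ∧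
      (∀ s, Sum.inr s ∈ A → IsTet G s) ∧ (∀ c ∈ b, v ∈ c.1 ∧ w ∈ c.1) := by
  have hmem : ∀ s, (Sum.inr s : Co V) ∈ A → s = t ∨ s = t' := by
    intro s hs
    have := hA hs
    simpa only [Set.mem_insert_iff, Set.mem_singleton_iff, Sum.inr.injEq, reduceCtorEq,
      false_or] using this
  have htet : ∀ s, (Sum.inr s : Co V) ∈ A → IsTet G s := by
    intro s hs
    rcases hmem s hs with rfl | rfl
    exacts [ht, ht']
  rw [Finset.mem_inter] at hv hw
  have one : ∀ (r r' : Finset V), IsTet G r → (∀ s, (Sum.inr s : Co V) ∈ A → s = r ∨ s = r') →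
      v ∈ r → w ∈ r → (Sum.inr r : Co V) ∈ A → (Sum.inr r' : Co V) ∉ A →
    ∃ b : Option (Cq G), (b = none ↔ ∀ s, Sum.inr s ∉ A) ∧ (∀ c ∈ b, 3 ≤ c.1.card) ∧
      (∀ c ∈ b, ∀ z : Finset V, z ⊆ c.1 ↔ ∀ s, Sum.inr s ∈ A → z ⊆ s) ∧
      (∀ c ∈ b, c.1.card = 4 → ∀ s, Sum.inr s ∈ A → s = c.1) ∧
      (∀ c ∈ b, c.1.card = 3 → ∀ s, IsTet G s → c.1 ⊆ s → Sum.inr s ∈ A) ∧
      (∀ s, Sum.inr s ∈ A → IsTet G s) ∧ (∀ c ∈ b, v ∈ c.1 ∧ w ∈ c.1) := by
    intro r r' hr hm hvr hwr h1 h2
    have hm' : ∀ s, (Sum.inr s : Co V) ∈ A → s = r := by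
      intro s hs
      rcases hm s hs with h | h
      · exact h
      · exact absurd (h ▸ hs) h2
    refine ⟨some ⟨r, ⟨v, hvr⟩, hr.2⟩, ?_, ?_, ?_, ?_, ?_, htet, ?_⟩
    · constructor
      · intro h; cases h
      · intro h; exact absurd h1 (h r)
    · rintro c ⟨⟩
      show 3 ≤ r.card
      rw [hr.1]
      norm_num
    · rintro c ⟨⟩ z
      constructor
      · intro hz s hs
        rw [hm' s hs]
        exact hz
      · intro hz
        exact hz r h1
    · rintro c ⟨⟩ _ s hs
      exact hm' s hs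
    · rintro c ⟨⟩ h4 s hs hcs
      have h5 : r.card = 3 := h4
      rw [hr.1] at h5
      norm_num at h5
    · rintro c ⟨⟩
      exact ⟨hvr, hwr⟩
  by_cases h1 : (Sum.inr t : Co V) ∈ A <;> by_cases h2 : (Sum.inr t' : Co V) ∈ A
  · have hcl : G.IsClique ((t ∩ t' : Finset V) : Set V) :=
      ht.2.subset (Finset.coe_subset.2 Finset.inter_subset_left)
    refine ⟨some ⟨t ∩ t', ⟨v, Finset.mem_inter.2 hv⟩, hcl⟩, ?_, ?_, ?_, ?_, ?_, htet, ?_⟩
    · constructor
      · intro h; cases h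
      · intro h; exact absurd h1 (h t)
    · rintro c ⟨⟩
      exact h3.ge
    · rintro c ⟨⟩ z
      constructor
      · intro hz s hs
        rcases hmem s hs with rfl | rfl
        · exact hz.trans Finset.inter_subset_left
        · exact hz.trans Finset.inter_subset_right
      · intro hz
        exact Finset.subset_inter (hz t h1) (hz t' h2)
    · rintro c ⟨⟩ h4
      have h5 : (t ∩ t').card = 4 := h4
      rw [h3] at h5
      norm_num at h5
    · rintro c ⟨⟩ _ s hs hcs
      rcases tet_two hG h3 hs ht ht' hcs Finset.inter_subset_left Finset.inter_subset_right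
        hne with rfl | rfl
      exacts [h1, h2]
    · rintro c ⟨⟩
      exact ⟨Finset.mem_inter.2 hv, Finset.mem_inter.2 hw⟩
  · exact one t t' ht hmem hv.1 hw.1 h1 h2
  · exact one t' t ht' (fun s hs => (hmem s hs).symm) hv.2 hw.2 h2 h1
  · have h0 : ∀ s, (Sum.inr s : Co V) ∉ A := by
      intro s hs
      rcases hmem s hs with rfl | rfl
      exacts [h1 hs, h2 hs]
    refine ⟨none, ⟨fun _ => h0, fun _ => rfl⟩, ?_, ?_, ?_, ?_, htet, ?_⟩ <;>
      intro c hc <;> cases hc

/-- every simplex of `T` is an intersection of a simplex `a` and a simplex `b` -/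
theorem XI_eq_CI [Finite V] {G : SimpleGraph V} (hG : IsSph3 G) {A : Set (Co V)}
    (hA : A.Nonempty) (hT : TS G A) : ∃ a b : Option (Cq G), (a ≠ none ∨ b ≠ none) ∧
      (∀ c ∈ a, c.1.card ≤ 2) ∧ (∀ c ∈ b, 3 ≤ c.1.card) ∧ (∀ c ∈ a, ∀ d ∈ b, c ≤ d) ∧
      XI (Dc G) A = CI G a b ∧ bdI (Dc G) A = CB G a b := by
  obtain ⟨v, w, t, t', hvw, hv, hw, ht, ht', ⟨hne, h3⟩, hA'⟩ := hT
  have hcl : G.IsClique (({v, w} : Finset V) : Set V) := by
    refine ht.2.subset (Finset.coe_subset.2 ?_)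
    intro x hx
    simp only [Finset.mem_insert, Finset.mem_singleton] at hx
    rcases hx with rfl | rfl
    · exact (Finset.mem_inter.1 hv).1
    · exact (Finset.mem_inter.1 hw).1
  obtain ⟨a, a0, a2, am, asub⟩ := aspec hcl hA'
  obtain ⟨b, b0, b3, bm, b4, b3', btet, bvw⟩ := bspec hG hv hw ht ht' hne h3 hA'
  have hXI : XI (Dc G) A = CI G a b := by
    ext y
    constructor
    · intro hy
      have hR : y ∈ Rl (sd G) Set.univ := by
        obtain ⟨c, hc⟩ := hA
        exact Dc_sub G c (hy c hc)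
      refine ⟨hR, fun z hz => ⟨fun c hc u hu => ?_, fun c hc => ?_⟩, ?_, ?_⟩
      · exact (hy _ ((am c hc u).2 hu)).2.1 z hz
      · exact (bm c hc z.1).2 fun s hs => (hy _ hs).2.2.1 z hz
      · intro h
        have : ∃ u, (Sum.inl u : Co V) ∈ A := by
          by_contra hn
          push Not at hn
          exact h (a0.2 hn)
        obtain ⟨u, hu⟩ := this
        exact (hy _ hu).2.2
      · intro h
        have : ∃ s, (Sum.inr s : Co V) ∈ A := by
          by_contra hn
          push Not at hn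
          exact h (b0.2 hn)
        obtain ⟨s, hs⟩ := this
        exact (hy _ hs).2.2.2
    · rintro ⟨hR, hz, hl, hh⟩ (u | s) hc
      · have ha : a ≠ none := fun h => a0.1 h u hc
        obtain ⟨c, hca⟩ := Option.ne_none_iff_exists'.1 ha
        exact ⟨hR, fun z h => (hz z h).1 c hca ((am c hca u).1 hc), hl ha⟩
      · have hb : b ≠ none := fun h => b0.1 h s hc
        obtain ⟨c, hcb⟩ := Option.ne_none_iff_exists'.1 hb
        exact ⟨hR, btet s hc, fun z h => (bm c hcb z.1).1 ((hz z h).2 c hcb) s hc, hh hb⟩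
  refine ⟨a, b, ?_, a2, b3, ?_, hXI, ?_⟩
  · obtain ⟨(u | s), hc⟩ := hA
    · exact Or.inl fun h => a0.1 h u hc
    · exact Or.inr fun h => b0.1 h s hc
  · intro c hc d hd x hx
    have := asub c hc hx
    simp only [Finset.mem_insert, Finset.mem_singleton] at this
    rcases this with rfl | rfl
    · exact (bvw d hd).1
    · exact (bvw d hd).2
  · ext y
    constructor
    · rintro ⟨hy, c', hc', hy'⟩
      rw [hXI] at hy
      refine ⟨hy, ?_⟩
      obtain ⟨hR, hz, hl, hh⟩ := hy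
      have hlh := lo_add_hi G hR
      rcases c' with u | s
      · obtain ⟨-, hu, hlu⟩ := hy'
        by_cases ha : a = none
        · refine Or.inr (Or.inr (Or.inl ⟨ha, ?_⟩))
          have hb : b ≠ none := by
            intro hb
            obtain ⟨(u' | s'), hc⟩ := hA
            · exact a0.1 ha u' hc
            · exact b0.1 hb s' hc
          have := hh hb
          linarith
        · obtain ⟨c, hca⟩ := Option.ne_none_iff_exists'.1 ha
          have huc : u ∉ c.1 := fun h => hc' ((am c hca u).2 h)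
          have h2 := a2 c hca
          have h0 : 0 < c.1.card := Finset.card_pos.2 c.2.1
          by_cases h1 : c.1.card = 1
          · refine Or.inl ⟨c, hca, h1, ?_⟩
            by_contra h
            exact huc (hu c h)
          · exfalso
            obtain ⟨z, hz0, hz2⟩ := lo_pos hlu
            have h5 : insert u c.1 ⊆ z.1 := by
              intro x hx
              rcases Finset.mem_insert.1 hx with rfl | hx
              · exact hu z hz0
              · exact (hz z hz0).1 c hca hx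
            have h6 := Finset.card_le_card h5
            rw [Finset.card_insert_of_notMem huc] at h6
            omega
      · obtain ⟨-, hs, hsz, hhs⟩ := hy'
        by_cases hb : b = none
        · refine Or.inr (Or.inr (Or.inr ⟨hb, ?_⟩))
          have ha : a ≠ none := by
            intro ha
            obtain ⟨(u' | s'), hc⟩ := hA
            · exact a0.1 ha u' hc
            · exact b0.1 hb s' hc
          have := hl ha
          linarith
        · obtain ⟨d, hdb⟩ := Option.ne_none_iff_exists'.1 hb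
          have h3d := b3 d hdb
          have h4d := hG.k5 d.1 d.2.2
          by_cases h4 : d.1.card = 4
          · refine Or.inr (Or.inl ⟨d, hdb, h4, ?_⟩)
            by_contra h
            have h5 : d.1 ⊆ s := hsz d h
            have h6 : d.1 = s := Finset.eq_of_subset_of_card_le h5 (by rw [hs.1, h4])
            obtain ⟨s', hs'⟩ : ∃ s', (Sum.inr s' : Co V) ∈ A := by
              by_contra hn
              push Not at hn
              exact hb (b0.2 hn)
            have h7 := b4 d hdb h4 s' hs'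
            rw [h7, h6] at hs'
            exact hc' hs'
          · exfalso
            obtain ⟨z, hz0, hz3⟩ := hi_pos hhs
            have h5 : z.1 ⊆ d.1 := (hz z hz0).2 d hdb
            have h6 : z.1 = d.1 := Finset.eq_of_subset_of_card_le h5 (by omega)
            exact hc' (b3' d hdb (by omega) s hs (h6 ▸ hsz z hz0))
    · rintro ⟨hy, hcase⟩
      have hy2 : y ∈ XI (Dc G) A := by rw [hXI]; exact hy
      refine ⟨hy2, ?_⟩
      obtain ⟨hR, hz, hl, hh⟩ := hy
      have hlh := lo_add_hi G hR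
      rcases hcase with ⟨c, hca, h1, hyc⟩ | ⟨d, hdb, h4, hyd⟩ | ⟨ha, hlo⟩ | ⟨hb, hhi⟩
      · have ha : a ≠ none := by intro h; rw [h] at hca; cases hca
        obtain ⟨z0, hz0, hz2⟩ := lo_pos (hl ha)
        have hcz0 : c ≤ z0 := (hz z0 hz0).1 c hca
        have hcne : c ≠ z0 := by rintro rfl; exact hz0 hyc
        have hlt : c.1 ⊂ z0.1 := by
          refine Finset.ssubset_iff_subset_ne.2 ⟨hcz0, fun h => hcne (Subtype.ext h)⟩
        obtain ⟨u, hu, huc⟩ := Finset.exists_of_ssubset hlt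
        refine ⟨Sum.inl u, fun h => huc ((am c hca u).1 h), hR, fun z hzz => ?_, hl ha⟩
        rcases supp_chain hR hz0 hzz with h | h
        · exact h hu
        · -- `z ⊆ z0`, `c ⊆ z`, `z ≠ c`, so `z = z0`
          have hcz : c ≤ z := (hz z hzz).1 c hca
          have hcz' : c.1 ⊂ z.1 := by
            refine Finset.ssubset_iff_subset_ne.2 ⟨hcz, fun h' => ?_⟩
            have : c = z := Subtype.ext h'
            rw [← this] at hzz
            exact hzz hyc
          have h5 := Finset.card_lt_card hcz'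
          have h6 : z.1 = z0.1 := Finset.eq_of_subset_of_card_le h (by omega)
          rw [h6]
          exact hu
      · have hb : b ≠ none := by intro h; rw [h] at hdb; cases hdb
        obtain ⟨z0, hz0, hz3⟩ := hi_pos (hh hb)
        have hzd : z0 ≤ d := (hz z0 hz0).2 d hdb
        have hne0 : z0 ≠ d := by rintro rfl; exact hz0 hyd
        have hlt : z0.1 ⊂ d.1 := by
          refine Finset.ssubset_iff_subset_ne.2 ⟨hzd, fun h => hne0 (Subtype.ext h)⟩
        have h5 := Finset.card_lt_card hlt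
        obtain ⟨s, hs, hsd, hz0s⟩ := tet_other hG (by omega : z0.1.card = 3)
          (⟨h4, d.2.2⟩ : IsTet G d.1) hzd
        refine ⟨Sum.inr s, fun h => hsd (b4 d hdb h4 s h), hR, hs, fun z hzz => ?_, hh hb⟩
        rcases supp_chain hR hz0 hzz with h | h
        · have hzd' : z ≤ d := (hz z hzz).2 d hdb
          have hlt' : z.1 ⊂ d.1 := by
            refine Finset.ssubset_iff_subset_ne.2 ⟨hzd', fun h' => ?_⟩
            have : z = d := Subtype.ext h'
            rw [this] at hzz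
            exact hzz hyd
          have h6 := Finset.card_lt_card hlt'
          have h7 : z0.1 = z.1 := Finset.eq_of_subset_of_card_le h (by omega)
          rw [← h7]
          exact hz0s
        · exact Finset.Subset.trans h hz0s
      · obtain ⟨z0, hz0, hmin⟩ := supp_min hR
        obtain ⟨u, hu⟩ := z0.2.1
        exact ⟨Sum.inl u, a0.1 ha u, hR, fun z hzz => hmin z hzz hu, hlo.ge⟩
      · obtain ⟨z0, hz0, hmax⟩ := supp_max hG hR
        obtain ⟨s, hs, hz0s⟩ := tet_sup hG z0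
        exact ⟨Sum.inr s, b0.1 hb s, hR, hs, fun z hzz =>
          Finset.Subset.trans (hmax z hzz) hz0s, hhi.ge⟩

end MOT.J
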