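import Pool.Agent.MOT.JdBX
import Pool.Agent.MOT.JdA

/-!
# MOT/JdBY: the cone of a cell with lower and upper bound (helper63)
-/

open Classical

noncomputable section

namespace MOT.J

variable {V : Type}

/-- `lo` as a linear function -/
def loL [Finite V] (G : SimpleGraph V) : (Cq G → ℝ) →ₗ[ℝ] ℝ :=
  haveI := Fintype.ofFinite (Cq G)
  ∑ z : Cq G, if z.1.card ≤ 2 then LinearMap.proj z else 0

/-- `hi` as a linear function -/
def hiL [Finite V] (G : SimpleGraph V) : (Cq G → ℝ) →ₗ[ℝ] ℝ :=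
  haveI := Fintype.ofFinite (Cq G)
  ∑ z : Cq G, if z.1.card ≤ 2 then 0 else LinearMap.proj z

/-- total weight as a linear function -/
def suL [Finite V] (G : SimpleGraph V) : (Cq G → ℝ) →ₗ[ℝ] ℝ :=
  haveI := Fintype.ofFinite (Cq G)
  ∑ z : Cq G, LinearMap.proj z

theorem lo_eq [Finite V] (G : SimpleGraph V) (y : Cq G → ℝ) : lo G y = loL G y := by
  have := Fintype.ofFinite (Cq G)
  unfold lo loL
  rw [finsum_eq_sum_of_fintype, LinearMap.sum_apply]
  refine (Finset.sum_congr (by ext; simp) fun z _ => ?_)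
  split_ifs <;> simp

theorem hi_eq [Finite V] (G : SimpleGraph V) (y : Cq G → ℝ) : hi G y = hiL G y := by
  have := Fintype.ofFinite (Cq G)
  unfold hi hiL
  rw [finsum_eq_sum_of_fintype, LinearMap.sum_apply]
  refine (Finset.sum_congr (by ext; simp) fun z _ => ?_)
  split_ifs <;> simp

theorem su_eq [Finite V] (G : SimpleGraph V) (y : Cq G → ℝ) : ∑ᶠ z, y z = suL G y := by
  have := Fintype.ofFinite (Cq G)
  unfold suL
  rw [finsum_eq_sum_of_fintype, LinearMap.sum_apply]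
  exact (Finset.sum_congr (by ext; simp) fun z _ => rfl)

theorem lo_dlt [Finite V] (G : SimpleGraph V) {c : Cq G} (hc : c.1.card ≤ 2) :
    lo G (dlt c) = 1 := by
  unfold lo dlt
  rw [finsum_eq_single _ c]
  · simp [hc]
  · intro z hz
    simp [hz]

theorem lo_dlt' [Finite V] (G : SimpleGraph V) {c : Cq G} (hc : 3 ≤ c.1.card) :
    lo G (dlt c) = 0 := by
  unfold lo dlt
  rw [finsum_eq_single _ c]
  · simp; omega
  · intro z hz
    simp [hz]

theorem hi_dlt [Finite V] (G : SimpleGraph V) {c : Cq G} (hc : 3 ≤ c.1.card) :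
    hi G (dlt c) = 1 := by
  unfold hi dlt
  rw [finsum_eq_single _ c]
  · have : ¬ c.1.card ≤ 2 := by omega
    simp [this]
  · intro z hz
    simp [hz]

theorem hi_dlt' [Finite V] (G : SimpleGraph V) {c : Cq G} (hc : c.1.card ≤ 2) :
    hi G (dlt c) = 0 := by
  unfold hi dlt
  rw [finsum_eq_single _ c]
  · simp [hc]
  · intro z hz
    simp [hz]

theorem su_dlt [Finite V] (G : SimpleGraph V) (c : Cq G) : suL G (dlt c) = 1 := by
  rw [← su_eq]
  unfold dlt
  rw [finsum_eq_single _ c]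
  · simp
  · intro z hz
    simp [hz]

/-- `y c ≤ lo y`, with equality only if `c` is the only low element of the support -/
theorem le_lo [Finite V] (G : SimpleGraph V) {y : Cq G → ℝ} (hy : ∀ z, 0 ≤ y z) {c : Cq G}
    (hc : c.1.card ≤ 2) : y c ≤ lo G y := by
  have := Fintype.ofFinite (Cq G)
  unfold lo
  rw [finsum_eq_sum_of_fintype]
  have := Finset.single_le_sum (f := fun z : Cq G => if z.1.card ≤ 2 then y z else 0)
    (fun z _ => by split_ifs; exacts [hy z, le_rfl]) (Finset.mem_univ c)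
  simpa [hc] using this

theorem le_hi [Finite V] (G : SimpleGraph V) {y : Cq G → ℝ} (hy : ∀ z, 0 ≤ y z) {c : Cq G}
    (hc : 3 ≤ c.1.card) : y c ≤ hi G y := by
  have := Fintype.ofFinite (Cq G)
  have hc' : ¬ c.1.card ≤ 2 := by omega
  unfold hi
  rw [finsum_eq_sum_of_fintype]
  have := Finset.single_le_sum (f := fun z : Cq G => if z.1.card ≤ 2 then 0 else y z)
    (fun z _ => by split_ifs; exacts [le_rfl, hy z]) (Finset.mem_univ c)
  simpa [hc'] using this

/-- if the low weight is `y c` then all other low coordinates vanish -/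
theorem lo_zero [Finite V] (G : SimpleGraph V) {y : Cq G → ℝ} (hy : ∀ z, 0 ≤ y z) {c : Cq G}
    (hc : c.1.card ≤ 2) (h : lo G y = y c) {z : Cq G} (hz : z.1.card ≤ 2) (hne : z ≠ c) :
    y z = 0 := by
  have := Fintype.ofFinite (Cq G)
  unfold lo at h
  rw [finsum_eq_sum_of_fintype] at h
  have h1 := Finset.sum_le_univ_sum_of_nonneg (s := {z, c})
    (f := fun z : Cq G => if z.1.card ≤ 2 then y z else 0)
    (fun z => by split_ifs; exacts [hy z, le_rfl])
  rw [Finset.sum_pair hne, h] at h1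
  simp only [hz, hc, if_true] at h1
  have := hy z
  linarith

theorem hi_zero [Finite V] (G : SimpleGraph V) {y : Cq G → ℝ} (hy : ∀ z, 0 ≤ y z) {c : Cq G}
    (hc : 3 ≤ c.1.card) (h : hi G y = y c) {z : Cq G} (hz : 3 ≤ z.1.card) (hne : z ≠ c) :
    y z = 0 := by
  have := Fintype.ofFinite (Cq G)
  have hc' : ¬ c.1.card ≤ 2 := by omega
  have hz' : ¬ z.1.card ≤ 2 := by omega
  unfold hi at h
  rw [finsum_eq_sum_of_fintype] at h
  have h1 := Finset.sum_le_univ_sum_of_nonneg (s := {z, c})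
    (f := fun z : Cq G => if z.1.card ≤ 2 then 0 else y z)
    (fun z => by split_ifs; exacts [le_rfl, hy z])
  rw [Finset.sum_pair hne, h] at h1
  simp only [hz', hc', if_false] at h1
  have := hy z
  linarith

/-- if `c` is the only low element of the support then the low weight is `y c` -/
theorem lo_only [Finite V] (G : SimpleGraph V) {y : Cq G → ℝ} {c : Cq G}
    (hc : c.1.card ≤ 2) (h : ∀ z, y z ≠ 0 → z.1.card ≤ 2 → z = c) : lo G y = y c := by
  unfold lo
  rw [finsum_eq_single _ c]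
  · simp [hc]
  · intro z hz
    by_cases h2 : z.1.card ≤ 2
    · rw [if_pos h2]
      by_contra h0
      exact hz (h z h0 h2)
    · rw [if_neg h2]

theorem hi_only [Finite V] (G : SimpleGraph V) {y : Cq G → ℝ} {c : Cq G}
    (hc : 3 ≤ c.1.card) (h : ∀ z, y z ≠ 0 → 3 ≤ z.1.card → z = c) : hi G y = y c := by
  have hc' : ¬ c.1.card ≤ 2 := by omega
  unfold hi
  rw [finsum_eq_single _ c]
  · simp [hc']
  · intro z hz
    by_cases h2 : z.1.card ≤ 2
    · rw [if_pos h2]
    · rw [if_neg h2]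
      by_contra h0
      exact hz (h z h0 (by omega))

theorem cone_both [Finite V] {G : SimpleGraph V} (hG : IsSph3 G) {c d : Cq G}
    (hc : c.1.card ≤ 2) (hd : 3 ≤ d.1.card) (hcd : c ≤ d) :
    ∃ p r, IsCone (CI G (some c) (some d)) (CB G (some c) (some d)) p r := by
  have : Finite (Cq G) := inferInstance
  have hne : c ≠ d := by rintro rfl; omega
  have hd4 := hG.k5 d.1 d.2.2
  have hc1 : 0 < c.1.card := Finset.card_pos.2 c.2.1
  let p : Cq G → ℝ := (1 / 2 : ℝ) • dlt c + (1 / 2 : ℝ) • dlt d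
  have pc : p c = 1 / 2 := by simp [p, dlt, hne]
  have pd : p d = 1 / 2 := by simp [p, dlt, hne.symm]
  have pz : ∀ z, z ≠ c → z ≠ d → p z = 0 := fun z h1 h2 => by simp [p, dlt, h1, h2]
  have plo : loL G p = 1 / 2 := by
    simp only [p, map_add, map_smul, ← lo_eq, lo_dlt G hc, lo_dlt' G hd, smul_eq_mul]
    norm_num
  have phi : hiL G p = 1 / 2 := by
    simp only [p, map_add, map_smul, ← hi_eq, hi_dlt G hd, hi_dlt' G hc, smul_eq_mul]
    norm_num
  have psu : suL G p = 1 := by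
    simp only [p, map_add, map_smul, su_dlt, smul_eq_mul]
    norm_num
  -- facts on the cell
  have hX : ∀ y ∈ CI G (some c) (some d), (∀ z, 0 ≤ y z) ∧ lo G y = 1 / 2 ∧ hi G y = 1 / 2 ∧
      suL G y = 1 ∧ (∀ z, y z ≠ 0 → c ≤ z ∧ z ≤ d) ∧
      (∀ z z', y z ≠ 0 → y z' ≠ 0 → z ≠ z' → (sd G).Adj z z') := by
    rintro y ⟨hR, hz, hl, hh⟩
    have h1 := hl (by simp)
    have h2 := hh (by simp)
    have h3 := lo_add_hi G hR
    refine ⟨hR.1, by linarith, by linarith, ?_, fun z h => ⟨(hz z h).1 c rfl, (hz z h).2 d rfl⟩,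
      hR.2.2.2⟩
    rw [← su_eq]
    exact hR.2.1
  have hyc : ∀ y ∈ CI G (some c) (some d), c.1.card ≠ 1 → y c = 1 / 2 := by
    intro y hy h1
    obtain ⟨h0, h2, h3, h4, h5, h6⟩ := hX y hy
    rw [← h2]
    symm
    refine lo_only G hc fun z hz hz2 => ?_
    exact (Subtype.ext (Finset.eq_of_subset_of_card_le (h5 z hz).1 (by omega))).symm
  have hyd : ∀ y ∈ CI G (some c) (some d), d.1.card ≠ 4 → y d = 1 / 2 := by
    intro y hy h1
    obtain ⟨h0, h2, h3, h4, h5, h6⟩ := hX y hy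
    rw [← h3]
    symm
    refine hi_only G hd fun z hz hz2 => ?_
    exact Subtype.ext (Finset.eq_of_subset_of_card_le (h5 z hz).2 (by omega))
  have hR : ∀ q : Cq G → ℝ, (∀ z, 0 ≤ q z) → loL G q = 1 / 2 → hiL G q = 1 / 2 → suL G q = 1 →
      (∀ z, q z ≠ 0 → c ≤ z ∧ z ≤ d) →
      (∀ z z', q z ≠ 0 → q z' ≠ 0 → z ≠ z' → (sd G).Adj z z') →
      q ∈ CI G (some c) (some d) := by
    intro q h0 h1 h2 h3 h4 h5
    refine ⟨⟨h0, ?_, fun _ _ => Set.mem_univ _, h5⟩, fun z hz => ⟨?_, ?_⟩, fun _ => ?_,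
      fun _ => ?_⟩
    · rw [su_eq, h3]
    · rintro e ⟨⟩
      exact (h4 z hz).1
    · rintro e ⟨⟩
      exact (h4 z hz).2
    · rw [lo_eq, h1]
    · rw [hi_eq, h2]
  let ι : Type := {e : Cq G // (e = c ∧ c.1.card = 1) ∨ (e = d ∧ d.1.card = 4)}
  let g : ι → (Cq G → ℝ) →ᵃ[ℝ] ℝ := fun e => ((2 : ℝ) • LinearMap.proj e.1 :
    (Cq G → ℝ) →ₗ[ℝ] ℝ).toAffineMap
  have hgv : ∀ (e : ι) (y : Cq G → ℝ), g e y = 2 * y e.1 := fun e y => rfl
  have hB : CB G (some c) (some d) =
      {y | y ∈ CI G (some c) (some d) ∧ ∃ i, g i y = 0} := by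
    ext y
    constructor
    · rintro ⟨hy, h⟩
      refine ⟨hy, ?_⟩
      rcases h with ⟨e, ⟨⟩, h1, h2⟩ | ⟨e, ⟨⟩, h1, h2⟩ | ⟨h, -⟩ | ⟨h, -⟩
      · exact ⟨⟨c, Or.inl ⟨rfl, h1⟩⟩, by rw [hgv, h2, mul_zero]⟩
      · exact ⟨⟨d, Or.inr ⟨rfl, h1⟩⟩, by rw [hgv, h2, mul_zero]⟩
      · cases h
      · cases h
    · rintro ⟨hy, ⟨e, he⟩, h⟩
      refine ⟨hy, ?_⟩
      rw [hgv] at h
      have h' : y e = 0 := by
        have h0 : (2 : ℝ) * y e = 0 := h
        linarith
      rcases he with ⟨rfl, h1⟩ | ⟨rfl, h1⟩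
      · exact Or.inl ⟨e, rfl, h1, h'⟩
      · exact Or.inr (Or.inl ⟨e, rfl, h1, h'⟩)
  have hadj : ∀ (y : Cq G → ℝ), y ∈ CI G (some c) (some d) → ∀ z z' : Cq G,
      (y z ≠ 0 ∨ z = c ∨ z = d) → (y z' ≠ 0 ∨ z' = c ∨ z' = d) → z ≠ z' →
      (sd G).Adj z z' := by
    intro y hy z z' h h' hn
    obtain ⟨h0, h2, h3, h4, h5, h6⟩ := hX y hy
    have hb : ∀ z, (y z ≠ 0 ∨ z = c ∨ z = d) → c ≤ z ∧ z ≤ d := by
      rintro z (h | rfl | rfl)
      exacts [h5 z h, ⟨le_rfl, hcd⟩, ⟨hcd, le_rfl⟩]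
    have hb1 := hb z h
    have hb2 := hb z' h'
    rcases h with h | rfl | rfl
    · rcases h' with h' | rfl | rfl
      · exact h6 z z' h h' hn
      · exact Or.inr (lt_of_le_of_ne hb1.1 hn.symm)
      · exact Or.inl (lt_of_le_of_ne hb1.2 hn)
    · exact Or.inl (lt_of_le_of_ne hb2.1 hn)
    · exact Or.inr (lt_of_le_of_ne hb2.2 hn.symm)
  have hp : p ∈ CI G (some c) (some d) := by
    refine hR p ?_ plo phi psu ?_ ?_
    · intro z
      by_cases h1 : z = c
      · rw [h1, pc]; norm_num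
      · by_cases h2 : z = d
        · rw [h2, pd]; norm_num
        · rw [pz z h1 h2]
    · intro z hz
      by_cases h1 : z = c
      · rw [h1]; exact ⟨le_rfl, hcd⟩
      · by_cases h2 : z = d
        · rw [h2]; exact ⟨hcd, le_rfl⟩
        · exact absurd (pz z h1 h2) hz
    · intro z z' hz hz' hn
      have hm : ∀ z, p z ≠ 0 → z = c ∨ z = d := by
        intro z hz
        by_cases h1 : z = c
        · exact Or.inl h1
        · by_cases h2 : z = d
          · exact Or.inr h2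
          · exact absurd (pz z h1 h2) hz
      rcases hm z hz with rfl | rfl <;> rcases hm z' hz' with rfl | rfl
      · exact absurd rfl hn
      · exact Or.inl (lt_of_le_of_ne hcd hn)
      · exact Or.inr (lt_of_le_of_ne hcd hn.symm)
      · exact absurd rfl hn
  rw [hB]
  refine ⟨p, ?_⟩
  refine cone_of_forms g hp ?_ ?_ ?_ ?_ ?_
  · intro y hy e
    rw [hgv]
    have := (hX y hy).1 e.1
    linarith
  · rintro y hy ⟨e, he⟩
    rw [hgv]
    obtain ⟨h0, h2, h3, -⟩ := hX y hy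
    show 2 * y e ≤ 1
    rcases he with ⟨rfl, h1⟩ | ⟨rfl, h1⟩
    · have := le_lo G h0 hc
      linarith
    · have := le_hi G h0 hd
      linarith
  · rintro ⟨e, he⟩
    rw [hgv]
    show 2 * p e = 1
    rcases he with ⟨rfl, h1⟩ | ⟨rfl, h1⟩
    · rw [pc]; norm_num
    · rw [pd]; norm_num
  · intro y hy h
    obtain ⟨h0, h2, h3, h4, h5, h6⟩ := hX y hy
    have yc : y c = 1 / 2 := by
      by_cases h1 : c.1.card = 1
      · have h7 : 2 * y c = 1 := h ⟨c, Or.inl ⟨rfl, h1⟩⟩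
        linarith
      · exact hyc y hy h1
    have yd : y d = 1 / 2 := by
      by_cases h1 : d.1.card = 4
      · have h7 : 2 * y d = 1 := h ⟨d, Or.inr ⟨rfl, h1⟩⟩
        linarith
      · exact hyd y hy h1
    funext z
    by_cases h1 : z = c
    · rw [h1, pc, yc]
    by_cases h2' : z = d
    · rw [h2', pd, yd]
    rw [pz z h1 h2']
    by_cases hz : z.1.card ≤ 2
    · exact lo_zero G h0 hc (by rw [h2, yc]) hz h1
    · exact hi_zero G h0 hd (by rw [h3, yd]) (by omega) h2'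
  · intro y hy l hl hle
    obtain ⟨h0, h2, h3, h4, h5, h6⟩ := hX y hy
    rw [lo_eq] at h2
    rw [hi_eq] at h3
    have hqz : ∀ z, (p + l • (y - p)) z = p z + l * (y z - p z) := fun z => rfl
    have hsupp : ∀ z, (p + l • (y - p)) z ≠ 0 → y z ≠ 0 ∨ z = c ∨ z = d := by
      intro z hz
      by_cases h1 : z = c
      · exact Or.inr (Or.inl h1)
      by_cases h2' : z = d
      · exact Or.inr (Or.inr h2')
      left
      intro h
      apply hz
      rw [hqz, pz z h1 h2', h]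
      ring
    refine hR _ ?_ ?_ ?_ ?_ ?_ ?_
    · intro z
      rw [hqz]
      by_cases h1 : z = c
      · rw [h1, pc]
        by_cases h7 : c.1.card = 1
        · have h8 : l * (1 - 2 * y c) ≤ 1 := hle ⟨c, Or.inl ⟨rfl, h7⟩⟩
          nlinarith
        · rw [hyc y hy h7]; norm_num
      by_cases h2' : z = d
      · rw [h2', pd]
        by_cases h7 : d.1.card = 4
        · have h8 : l * (1 - 2 * y d) ≤ 1 := hle ⟨d, Or.inr ⟨rfl, h7⟩⟩
          nlinarith
        · rw [hyd y hy h7]; norm_num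
      rw [pz z h1 h2']
      have := h0 z
      have := mul_nonneg hl this
      linarith
    · simp only [map_add, map_smul, map_sub, plo, h2, smul_eq_mul]
      ring
    · simp only [map_add, map_smul, map_sub, phi, h3, smul_eq_mul]
      ring
    · simp only [map_add, map_smul, map_sub, psu, h4, smul_eq_mul]
      ring
    · intro z hz
      rcases hsupp z hz with h | rfl | rfl
      exacts [h5 z h, ⟨le_rfl, hcd⟩, ⟨hcd, le_rfl⟩]
    · intro z z' hz hz' hn
      exact hadj y hy z z' (hsupp z hz) (hsupp z' hz') hn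

end MOT.J
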