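import Pool.Agent.MOT.JdBY

/-!
# MOT/JdBZ: the cones of cells with only a lower or only an upper bound (helper63)
-/

open Classical

noncomputable section

namespace MOT.J

variable {V : Type}

/-- if one coordinate is the whole weight then the others vanish -/
theorem su_zero [Finite V] (G : SimpleGraph V) {y : Cq G → ℝ} (hy : ∀ z, 0 ≤ y z) {e : Cq G}
    (h : suL G y = 1) (he : y e = 1) {z : Cq G} (hne : z ≠ e) : y z = 0 := by
  have := Fintype.ofFinite (Cq G)
  rw [← su_eq, finsum_eq_sum_of_fintype] at h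
  have h1 := Finset.sum_le_univ_sum_of_nonneg (s := {z, e}) (f := y) hy
  rw [Finset.sum_pair hne, h, he] at h1
  have := hy z
  linarith

private theorem cone_one [Finite V] {G : SimpleGraph V} (P : Cq G → Prop)
    (H : (Cq G → ℝ) →ₗ[ℝ] ℝ) (e : Cq G) (k : Prop) (X : Set (Cq G → ℝ))
    (hX : ∀ y, y ∈ X ↔ y ∈ Rl (sd G) Set.univ ∧ (∀ z, y z ≠ 0 → P z) ∧ 1 / 2 ≤ H y)
    (hPe : P e) (hcmp : ∀ z, P z → z ≠ e → (sd G).Adj z e) (hHe : H (dlt e) = 1)
    (hle : ∀ y ∈ X, y e ≤ H y) (hH1 : ∀ y ∈ X, H y ≤ 1) (hk : ¬ k → ∀ y ∈ X, H y = y e) :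
    ∃ r, IsCone X {y | y ∈ X ∧ ((k ∧ y e = 0) ∨ H y = 1 / 2)} (dlt e) r := by
  have : Finite (Cq G) := inferInstance
  have pe : dlt e e = 1 := by simp [dlt]
  have pz : ∀ z, z ≠ e → dlt e z = 0 := fun z h => by simp [dlt, h]
  let ι : Type := {i : Bool // i = true → k}
  let g : ι → (Cq G → ℝ) →ᵃ[ℝ] ℝ := fun i => if i.1 = true then
    (LinearMap.proj e : (Cq G → ℝ) →ₗ[ℝ] ℝ).toAffineMap else
    ((2 : ℝ) • H).toAffineMap + AffineMap.const ℝ _ (-1 : ℝ)
  have gt : ∀ (h : true = true → k) (y : Cq G → ℝ), g ⟨true, h⟩ y = y e := fun h y => rfl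
  have gf : ∀ (h : false = true → k) (y : Cq G → ℝ), g ⟨false, h⟩ y = 2 * H y + -1 := by
    intro h y
    have h1 : g ⟨false, h⟩ = ((2 : ℝ) • H).toAffineMap + AffineMap.const ℝ _ (-1 : ℝ) :=
      if_neg (by simp)
    rw [h1]
    rfl
  have hB : {y | y ∈ X ∧ ((k ∧ y e = 0) ∨ H y = 1 / 2)} = {y | y ∈ X ∧ ∃ i, g i y = 0} := by
    ext y
    constructor
    · rintro ⟨hy, ⟨h1, h2⟩ | h2⟩
      · exact ⟨hy, ⟨true, fun _ => h1⟩, by rw [gt, h2]⟩
      · exact ⟨hy, ⟨false, fun h => absurd h (by simp)⟩, by rw [gf, h2]; norm_num⟩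
    · rintro ⟨hy, ⟨i, hi⟩, h⟩
      refine ⟨hy, ?_⟩
      cases i with
      | true =>
        rw [gt] at h
        exact Or.inl ⟨hi rfl, h⟩
      | false =>
        rw [gf] at h
        right
        linarith
  have hpX : dlt e ∈ X := by
    rw [hX]
    refine ⟨⟨fun z => ?_, ?_, fun _ _ => Set.mem_univ _, fun z z' hz hz' hn => ?_⟩,
      fun z hz => ?_, by rw [hHe]; norm_num⟩
    · by_cases h : z = e
      · rw [h, pe]; norm_num
      · rw [pz z h]
    · rw [su_eq, su_dlt]
    · have h1 : z = e := by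
        by_contra h
        exact hz (pz z h)
      have h2 : z' = e := by
        by_contra h
        exact hz' (pz z' h)
      exact absurd (h1.trans h2.symm) hn
    · have h1 : z = e := by
        by_contra h
        exact hz (pz z h)
      rw [h1]
      exact hPe
  rw [hB]
  refine cone_of_forms g hpX ?_ ?_ ?_ ?_ ?_
  · rintro y hy ⟨i, hi⟩
    cases i with
    | true =>
      rw [gt]
      exact ((hX y).1 hy).1.1 e
    | false =>
      rw [gf]
      have := ((hX y).1 hy).2.2
      linarith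
  · rintro y hy ⟨i, hi⟩
    have h1 := hH1 y hy
    have h2 := hle y hy
    cases i with
    | true =>
      rw [gt]
      linarith
    | false =>
      rw [gf]
      linarith
  · rintro ⟨i, hi⟩
    cases i with
    | true => rw [gt, pe]
    | false => rw [gf, hHe]; norm_num
  · intro y hy h
    have hR := ((hX y).1 hy).1
    have h2 := h ⟨false, fun h => absurd h (by simp)⟩
    rw [gf] at h2
    have ye : y e = 1 := by
      by_cases h1 : k
      · have h3 := h ⟨true, fun _ => h1⟩
        rw [gt] at h3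
        exact h3
      · rw [← hk h1 y hy]
        linarith
    have hsu : suL G y = 1 := by
      rw [← su_eq]
      exact hR.2.1
    funext z
    by_cases h1 : z = e
    · rw [h1, pe, ye]
    · rw [pz z h1, su_zero G hR.1 hsu ye h1]
  · intro y hy l hl hle'
    obtain ⟨hR, hP, hHy⟩ := (hX y).1 hy
    have h2 := hle' ⟨false, fun h => absurd h (by simp)⟩
    rw [gf] at h2
    have hqz : ∀ z, (dlt e + l • (y - dlt e)) z = dlt e z + l * (y z - dlt e z) := fun z => rfl
    have hsupp : ∀ z, (dlt e + l • (y - dlt e)) z ≠ 0 → z ≠ e → y z ≠ 0 := by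
      intro z hz h1 h
      apply hz
      rw [hqz, pz z h1, h]
      ring
    rw [hX]
    refine ⟨⟨fun z => ?_, ?_, fun _ _ => Set.mem_univ _, fun z z' hz hz' hn => ?_⟩,
      fun z hz => ?_, ?_⟩
    · rw [hqz]
      by_cases h1 : z = e
      · rw [h1, pe]
        by_cases h7 : k
        · have h8 := hle' ⟨true, fun _ => h7⟩
          rw [gt] at h8
          linarith
        · have h8 := hk h7 y hy
          rw [h8] at h2
          nlinarith
      · rw [pz z h1]
        have := mul_nonneg hl (hR.1 z)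
        linarith
    · rw [su_eq]
      have hsu : suL G y = 1 := by
        rw [← su_eq]
        exact hR.2.1
      simp only [map_add, map_smul, map_sub, su_dlt, hsu, smul_eq_mul]
      ring
    · by_cases h1 : z = e
      · have h1' : z' ≠ e := fun h => hn (h1.trans h.symm)
        rw [h1]
        exact (hcmp z' (hP z' (hsupp z' hz' h1')) h1').symm
      · by_cases h1' : z' = e
        · rw [h1']
          exact hcmp z (hP z (hsupp z hz h1)) h1
        · exact hR.2.2.2 z z' (hsupp z hz h1) (hsupp z' hz' h1') hn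
    · by_cases h1 : z = e
      · rw [h1]; exact hPe
      · exact hP z (hsupp z hz h1)
    · simp only [map_add, map_smul, map_sub, hHe, smul_eq_mul]
      nlinarith

/-- the cone of a vertex or an edge -/
theorem cone_low [Finite V] {G : SimpleGraph V} (hG : IsSph3 G) {c : Cq G} (hc : c.1.card ≤ 2) :
    ∃ p r, IsCone (CI G (some c) none) (CB G (some c) none) p r := by
  have hc1 : 0 < c.1.card := Finset.card_pos.2 c.2.1
  have hX : ∀ y, y ∈ CI G (some c) none ↔ y ∈ Rl (sd G) Set.univ ∧ (∀ z, y z ≠ 0 → c ≤ z) ∧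
      1 / 2 ≤ loL G y := by
    intro y
    rw [← lo_eq]
    constructor
    · rintro ⟨h1, h2, h3, -⟩
      exact ⟨h1, fun z hz => (h2 z hz).1 c rfl, h3 (by simp)⟩
    · rintro ⟨h1, h2, h3⟩
      refine ⟨h1, fun z hz => ⟨?_, ?_⟩, fun _ => h3, fun h => absurd rfl h⟩
      · rintro e ⟨⟩
        exact h2 z hz
      · intro e he
        cases he
  have hB : CB G (some c) none = {y | y ∈ CI G (some c) none ∧
      ((c.1.card = 1 ∧ y c = 0) ∨ loL G y = 1 / 2)} := by
    ext y
    constructor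
    · rintro ⟨hy, h⟩
      refine ⟨hy, ?_⟩
      rcases h with ⟨e, ⟨⟩, h1, h2⟩ | ⟨e, he, -⟩ | ⟨h, -⟩ | ⟨-, h⟩
      · exact Or.inl ⟨h1, h2⟩
      · cases he
      · cases h
      · right
        have := lo_add_hi G hy.1
        rw [← lo_eq]
        linarith
    · rintro ⟨hy, h⟩
      refine ⟨hy, ?_⟩
      rcases h with ⟨h1, h2⟩ | h
      · exact Or.inl ⟨c, rfl, h1, h2⟩
      · refine Or.inr (Or.inr (Or.inr ⟨rfl, ?_⟩))
        have := lo_add_hi G hy.1
        rw [← lo_eq] at h
        linarith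
  rw [hB]
  obtain ⟨r, hr⟩ := cone_one (G := G) (fun z => c ≤ z) (loL G) c (c.1.card = 1)
    (CI G (some c) none) hX le_rfl (fun z h hn => Or.inr (lt_of_le_of_ne h hn.symm))
    (by rw [← lo_eq, lo_dlt G hc]) (fun y hy => by rw [← lo_eq]; exact le_lo G hy.1.1 hc)
    (fun y hy => by
      rw [← lo_eq]
      have h1 := lo_add_hi G hy.1
      have h2 : 0 ≤ hi G y := by
        unfold hi
        refine finsum_nonneg fun z => ?_
        split_ifs
        exacts [le_rfl, hy.1.1 z]
      linarith)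
    (fun hk y hy => by
      rw [← lo_eq]
      refine lo_only G hc fun z hz hz2 => ?_
      have h1 := ((hX y).1 hy).2.1 z hz
      exact (Subtype.ext (Finset.eq_of_subset_of_card_le h1 (by omega))).symm)
  exact ⟨_, r, hr⟩

/-- the cone of a triangle or a tetrahedron -/
theorem cone_high [Finite V] {G : SimpleGraph V} (hG : IsSph3 G) {c : Cq G}
    (hc : 3 ≤ c.1.card) : ∃ p r, IsCone (CI G none (some c)) (CB G none (some c)) p r := by
  have hc4 := hG.k5 c.1 c.2.2
  have hX : ∀ y, y ∈ CI G none (some c) ↔ y ∈ Rl (sd G) Set.univ ∧ (∀ z, y z ≠ 0 → z ≤ c) ∧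
      1 / 2 ≤ hiL G y := by
    intro y
    rw [← hi_eq]
    constructor
    · rintro ⟨h1, h2, -, h3⟩
      exact ⟨h1, fun z hz => (h2 z hz).2 c rfl, h3 (by simp)⟩
    · rintro ⟨h1, h2, h3⟩
      refine ⟨h1, fun z hz => ⟨?_, ?_⟩, fun h => absurd rfl h, fun _ => h3⟩
      · intro e he
        cases he
      · rintro e ⟨⟩
        exact h2 z hz
  have hB : CB G none (some c) = {y | y ∈ CI G none (some c) ∧
      ((c.1.card = 4 ∧ y c = 0) ∨ hiL G y = 1 / 2)} := by
    ext y
    constructor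
    · rintro ⟨hy, h⟩
      refine ⟨hy, ?_⟩
      rcases h with ⟨e, he, -⟩ | ⟨e, ⟨⟩, h1, h2⟩ | ⟨-, h⟩ | ⟨h, -⟩
      · cases he
      · exact Or.inl ⟨h1, h2⟩
      · right
        have := lo_add_hi G hy.1
        rw [← hi_eq]
        linarith
      · cases h
    · rintro ⟨hy, h⟩
      refine ⟨hy, ?_⟩
      rcases h with ⟨h1, h2⟩ | h
      · exact Or.inr (Or.inl ⟨c, rfl, h1, h2⟩)
      · refine Or.inr (Or.inr (Or.inl ⟨rfl, ?_⟩))
        have := lo_add_hi G hy.1
        rw [← hi_eq] at h
        linarith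
  rw [hB]
  obtain ⟨r, hr⟩ := cone_one (G := G) (fun z => z ≤ c) (hiL G) c (c.1.card = 4)
    (CI G none (some c)) hX le_rfl (fun z h hn => Or.inl (lt_of_le_of_ne h hn))
    (by rw [← hi_eq, hi_dlt G hc]) (fun y hy => by rw [← hi_eq]; exact le_hi G hy.1.1 hc)
    (fun y hy => by
      rw [← hi_eq]
      have h1 := lo_add_hi G hy.1
      have h2 : 0 ≤ lo G y := by
        unfold lo
        refine finsum_nonneg fun z => ?_
        split_ifs
        exacts [hy.1.1 z, le_rfl]
      linarith)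
    (fun hk y hy => by
      rw [← hi_eq]
      refine hi_only G hc fun z hz hz2 => ?_
      have h1 := ((hX y).1 hy).2.1 z hz
      exact Subtype.ext (Finset.eq_of_subset_of_card_le h1 (by omega)))
  exact ⟨_, r, hr⟩

end MOT.J
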