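import Pool.Agent.MOT.JtDef

/-!
# MOT/JtA: geometry of simplices and polygonal paths in `V → ℝ`
-/

open Classical

noncomputable section

namespace MOT.J

variable {V : Type}

private theorem ja_supp {s t : Finset V} {c : V → ℝ} (hc : c ∈ Dl s)
    (h : ∀ v, c v ≠ 0 → v ∈ t) : c ∈ Dl t := by
  obtain ⟨h1, h2, h3⟩ := hc
  refine ⟨h1, ?_, fun v hv => ?_⟩
  · have e1 : ∑ v ∈ s ∩ t, c v = ∑ v ∈ s, c v := by
      refine Finset.sum_subset Finset.inter_subset_left fun v hv hv' => ?_
      by_contra h0
      exact hv' (Finset.mem_inter.2 ⟨hv, h v h0⟩)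
    have e2 : ∑ v ∈ s ∩ t, c v = ∑ v ∈ t, c v := by
      refine Finset.sum_subset Finset.inter_subset_right fun v hv hv' => ?_
      refine h3 v fun h0 => hv' (Finset.mem_inter.2 ⟨h0, hv⟩)
    rw [← e2, e1, h2]
  · by_contra h0
    exact hv (h v h0)

private theorem ja_supp' {s : Finset V} {c : V → ℝ} (hc : c ∈ Dl s) {v : V} (hv : c v ≠ 0) :
    v ∈ s := by
  by_contra h
  exact hv (hc.2.2 v h)

theorem dl_mem (x : V) (s : Finset V) : dl x ∈ Dl s ↔ x ∈ s := by
  constructor
  · intro h
    refine ja_supp' h ?_
    show (if x = x then (1 : ℝ) else 0) ≠ 0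
    rw [if_pos rfl]
    exact one_ne_zero
  · intro h
    refine ⟨fun v => ?_, ?_, fun v hv => ?_⟩
    · show 0 ≤ if v = x then (1 : ℝ) else 0
      split_ifs
      · exact zero_le_one
      · exact le_refl 0
    · show ∑ v ∈ s, (if v = x then (1 : ℝ) else 0) = 1
      rw [Finset.sum_ite_eq' s x (fun _ => (1 : ℝ)), if_pos h]
    · show (if v = x then (1 : ℝ) else 0) = 0
      refine if_neg fun e => ?_
      rw [e] at hv
      exact hv h

theorem Dl_inter (s t : Finset V) : Dl s ∩ Dl t = Dl (s ∩ t) := by
  ext c
  constructor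
  · rintro ⟨h1, h2⟩
    exact ja_supp h1 fun v hv => Finset.mem_inter.2 ⟨ja_supp' h1 hv, ja_supp' h2 hv⟩
  · intro h
    exact ⟨ja_supp h fun v hv => (Finset.mem_inter.1 (ja_supp' h hv)).1,
      ja_supp h fun v hv => (Finset.mem_inter.1 (ja_supp' h hv)).2⟩

theorem Dl_mono {s t : Finset V} (h : s ⊆ t) : Dl s ⊆ Dl t :=
  fun _ hc => ja_supp hc fun _ hv => h (ja_supp' hc hv)

theorem Dl_empty : Dl (∅ : Finset V) = ∅ := by
  ext c
  constructor
  · rintro ⟨_, h, _⟩
    rw [Finset.sum_empty] at h
    exact absurd h zero_ne_one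
  · intro h
    exact absurd h (Set.notMem_empty c)

theorem Dl_singleton (x : V) : Dl {x} = {dl x} := by
  ext c
  rw [Set.mem_singleton_iff]
  constructor
  · rintro ⟨h1, h2, h3⟩
    rw [Finset.sum_singleton] at h2
    funext v
    show c v = if v = x then 1 else 0
    by_cases hv : v = x
    · rw [if_pos hv, hv, h2]
    · rw [if_neg hv]
      exact h3 v (by rwa [Finset.mem_singleton])
  · rintro rfl
    exact (dl_mem x {x}).2 (Finset.mem_singleton_self x)

private theorem ja_dlx (x : V) : dl x x = 1 := if_pos rfl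

private theorem ja_dln {x v : V} (h : v ≠ x) : dl x v = 0 := if_neg h

theorem dl_inj {x y : V} (h : dl x = dl y) : x = y := by
  by_contra hn
  have h1 := congrFun h x
  rw [ja_dlx, ja_dln hn] at h1
  exact one_ne_zero h1

theorem Dl_pair (x y : V) : Dl {x, y} = segment ℝ (dl x) (dl y) := by
  by_cases hxy : x = y
  · subst hxy
    rw [Finset.pair_eq_singleton, Dl_singleton, segment_same]
  · ext c
    constructor
    · rintro ⟨h1, h2, h3⟩
      rw [Finset.sum_pair hxy] at h2
      refine ⟨c x, c y, h1 x, h1 y, h2, ?_⟩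
      funext v
      show c x * dl x v + c y * dl y v = c v
      by_cases hx : v = x
      · subst hx
        rw [ja_dlx, ja_dln hxy]
        ring
      · by_cases hy : v = y
        · subst hy
          rw [ja_dlx, ja_dln hx]
          ring
        · rw [ja_dln hx, ja_dln hy, h3 v (by simp [hx, hy])]
          ring
    · rintro ⟨a, b, ha, hb, hab, rfl⟩
      refine ⟨fun v => ?_, ?_, fun v hv => ?_⟩
      · show 0 ≤ a * dl x v + b * dl y v
        have h1 := ((dl_mem x {x}).2 (Finset.mem_singleton_self x)).1 v
        have h2 := ((dl_mem y {y}).2 (Finset.mem_singleton_self y)).1 v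
        positivity
      · rw [Finset.sum_pair hxy]
        show a * dl x x + b * dl y x + (a * dl x y + b * dl y y) = 1
        rw [ja_dlx, ja_dlx, ja_dln hxy, ja_dln (Ne.symm hxy)]
        linarith
      · have hv' : v ≠ x ∧ v ≠ y := by
          constructor
          · rintro rfl
            exact hv (by simp)
          · rintro rfl
            exact hv (by simp)
        show a * dl x v + b * dl y v = 0
        rw [ja_dln hv'.1, ja_dln hv'.2]
        ring

/-! ## lists -/

private theorem ja_head (x : V) (l : List V) : dl x ∈ Pa (x :: l) := by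
  cases l with
  | nil => exact rfl
  | cons y l => exact Or.inl ((dl_mem x {x, y}).2 (by simp))

private theorem ja_mem {v : V} {l : List V} (h : v ∈ l) : dl v ∈ Pa l := by
  induction l with
  | nil => simp at h
  | cons x l ih =>
    cases l with
    | nil =>
      rw [List.mem_singleton] at h
      subst h
      exact rfl
    | cons y l =>
      rcases List.mem_cons.1 h with h | h
      · subst h
        exact ja_head v _
      · exact Or.inr (ih h)

private theorem ja_pair (x y : V) : Pa [x, y] = Dl {x, y} := by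
  show Dl {x, y} ∪ {dl y} = Dl {x, y}
  rw [Set.union_eq_left, Set.singleton_subset_iff]
  exact (dl_mem y {x, y}).2 (by simp)

private theorem ja_cons (x y : V) (l : List V) : Pa (x :: y :: l) = Dl {x, y} ∪ Pa (y :: l) := rfl

/-- paths and lists -/
theorem Pa_append (l₁ l₂ : List V) (x : V) :
    Pa (l₁ ++ x :: l₂) = Pa (l₁ ++ [x]) ∪ Pa (x :: l₂) := by
  induction l₁ with
  | nil =>
    show Pa (x :: l₂) = {dl x} ∪ Pa (x :: l₂)
    rw [eq_comm, Set.union_eq_right, Set.singleton_subset_iff]
    exact ja_head x l₂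
  | cons a l ih =>
    cases l with
    | nil =>
      show Dl {a, x} ∪ Pa (x :: l₂) = Pa [a, x] ∪ Pa (x :: l₂)
      rw [ja_pair]
    | cons b l =>
      show Dl {a, b} ∪ Pa (b :: l ++ x :: l₂) = (Dl {a, b} ∪ Pa (b :: l ++ [x])) ∪ Pa (x :: l₂)
      rw [ih, Set.union_assoc]

theorem Pa_reverse (l : List V) : Pa l.reverse = Pa l := by
  induction l with
  | nil => rfl
  | cons x l ih =>
    cases l with
    | nil => rfl
    | cons y l =>
      have e : (x :: y :: l).reverse = l.reverse ++ y :: [x] := by simp
      have e' : (y :: l).reverse = l.reverse ++ [y] := by simp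
      rw [e, Pa_append, ← e', ih, ja_pair, ja_cons, Set.union_comm, Finset.pair_comm]

theorem Pg_rot (x : V) (l : List V) : Pg (l ++ [x]) = Pg (x :: l) := by
  cases l with
  | nil => rfl
  | cons y l =>
    show Pa (y :: (l ++ [x]) ++ [y]) = Pa (x :: y :: l ++ [x])
    have e : y :: (l ++ [x]) ++ [y] = (y :: l) ++ x :: [y] := by simp
    have e' : x :: y :: l ++ [x] = x :: y :: (l ++ [x]) := by simp
    have e'' : y :: l ++ [x] = y :: (l ++ [x]) := by simp
    rw [e, Pa_append, ja_pair, e', ja_cons, Set.union_comm, e'']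

theorem Pg_rev (l : List V) : Pg l.reverse = Pg l := by
  cases l with
  | nil => rfl
  | cons x l =>
    have e : (x :: l).reverse = l.reverse ++ [x] := by simp
    rw [e, Pg_rot]
    show Pa (x :: l.reverse ++ [x]) = Pa (x :: l ++ [x])
    have e' : x :: l.reverse ++ [x] = (x :: l ++ [x]).reverse := by simp
    rw [e', Pa_reverse]

/-- a point of a path has its support in the list -/
theorem Pa_supp {l : List V} {c : V → ℝ} (hc : c ∈ Pa l) {v : V} (hv : c v ≠ 0) : v ∈ l := by
  induction l with
  | nil => exact absurd hc (Set.notMem_empty c)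
  | cons x l ih =>
    cases l with
    | nil =>
      have hc' : c = dl x := hc
      subst hc'
      by_contra h
      rw [List.mem_singleton] at h
      exact hv (ja_dln h)
    | cons y l =>
      rcases hc with hc | hc
      · have h1 := ja_supp' hc hv
        rw [Finset.mem_insert, Finset.mem_singleton] at h1
        rcases h1 with h1 | h1
        · rw [h1]
          simp
        · rw [h1]
          simp
      · exact List.mem_cons_of_mem _ (ih hc)

/-- a path with at least one edge is the union of its edges -/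
theorem mem_Pa {l : List V} (hl : 2 ≤ l.length) (c : V → ℝ) :
    c ∈ Pa l ↔ ∃ (l₁ l₂ : List V) (u v : V), l = l₁ ++ u :: v :: l₂ ∧ c ∈ Dl {u, v} := by
  constructor
  · intro hc
    induction l with
    | nil => simp at hl
    | cons x l ih =>
      cases l with
      | nil => simp at hl
      | cons y l =>
        cases l with
        | nil =>
          rw [ja_pair] at hc
          exact ⟨[], [], x, y, rfl, hc⟩
        | cons z l =>
          rcases hc with hc | hc
          · exact ⟨[], z :: l, x, y, rfl, hc⟩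
          · obtain ⟨l₁, l₂, u, v, h1, h2⟩ := ih (by simp) hc
            exact ⟨x :: l₁, l₂, u, v, by rw [h1]; rfl, h2⟩
  · rintro ⟨l₁, l₂, u, v, rfl, hc⟩
    rw [Pa_append]
    exact Or.inr (Or.inl hc)

private theorem ja_edge {l : List V} {c : V → ℝ} (hc : c ∈ Pa l) : ∃ s : Finset V, c ∈ Dl s := by
  cases l with
  | nil => exact absurd hc (Set.notMem_empty c)
  | cons x l =>
    cases l with
    | nil =>
      have hc' : c ∈ Dl {x} := by
        rw [Dl_singleton]
        exact hc
      exact ⟨_, hc'⟩
    | cons y l =>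
      rw [mem_Pa (by simp)] at hc
      obtain ⟨_, _, u, v, _, h⟩ := hc
      exact ⟨_, h⟩

private theorem ja_one {l : List V} {c : V → ℝ} (hc : c ∈ Pa l) {y : V}
    (h : ∀ v, c v ≠ 0 → v = y) : c = dl y := by
  obtain ⟨s, hs⟩ := ja_edge hc
  have h1 : c ∈ Dl {y} := ja_supp hs fun v hv => Finset.mem_singleton.2 (h v hv)
  rw [Dl_singleton] at h1
  exact h1

/-- a nodup list split at `y`: the two paths meet in `dl y` -/
theorem Pa_inter {l₁ l₂ : List V} {y : V} (h : (l₁ ++ y :: l₂).Nodup) :
    Pa (l₁ ++ [y]) ∩ Pa (y :: l₂) = {dl y} := by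
  ext c
  rw [Set.mem_singleton_iff]
  constructor
  · rintro ⟨h1, h2⟩
    refine ja_one h2 fun v hv => ?_
    have h3 := Pa_supp h1 hv
    have h4 := Pa_supp h2 hv
    rw [List.nodup_append] at h
    rw [List.mem_append, List.mem_singleton] at h3
    rcases h3 with h3 | h3
    · exact absurd rfl (h.2.2 v h3 v h4)
    · exact h3
  · rintro rfl
    exact ⟨ja_mem (by simp), ja_mem (by simp)⟩

private theorem ja_arc {l : List V} {x y : V} (h : (x :: l ++ [y]).Nodup) (hl : l ≠ [])
    {c : V → ℝ} (hc : c ∈ Pa (x :: l ++ [y])) (hs : ∀ v, c v ≠ 0 → v = x ∨ v = y) :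
    c = dl x ∨ c = dl y := by
  cases l with
  | nil => exact absurd rfl hl
  | cons a l =>
    have hc' : c ∈ Dl {x, a} ∪ Pa (a :: l ++ [y]) := hc
    have h' : (x :: (a :: l ++ [y])).Nodup := h
    rw [List.nodup_cons] at h'
    have hax : a ≠ x := by
      rintro rfl
      exact h'.1 (by simp)
    have hay : a ≠ y := by
      rintro rfl
      have h2 : (a :: (l ++ [a])).Nodup := h'.2
      rw [List.nodup_cons] at h2
      exact h2.1 (by simp)
    rcases hc' with hc' | hc'
    · left
      have h1 : c ∈ Dl {x} := by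
        refine ja_supp hc' fun v hv => ?_
        rw [Finset.mem_singleton]
        have h2 := ja_supp' hc' hv
        rw [Finset.mem_insert, Finset.mem_singleton] at h2
        rcases h2 with h2 | h2
        · exact h2
        · rcases hs v hv with h3 | h3
          · exact h3
          · exact absurd (h2.symm.trans h3) hay
      rw [Dl_singleton] at h1
      exact h1
    · right
      refine ja_one hc' fun v hv => ?_
      rcases hs v hv with h3 | h3
      · rw [← h3] at h'
        exact absurd (Pa_supp hc' hv) h'.1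
      · exact h3

/-- a closed polygon split at `x` and `y`: the two paths meet in `dl x`, `dl y` -/
theorem Pg_inter {l₁ l₂ : List V} {x y : V} (h : (x :: l₁ ++ y :: l₂).Nodup)
    (hl : l₁ ≠ [] ∨ l₂ ≠ []) :
    Pa (x :: l₁ ++ [y]) ∩ Pa (y :: l₂ ++ [x]) = {dl x, dl y} := by
  ext c
  rw [Set.mem_insert_iff, Set.mem_singleton_iff]
  constructor
  · rintro ⟨h1, h2⟩
    have hs : ∀ v, c v ≠ 0 → v = x ∨ v = y := by
      intro v hv
      have h3 := Pa_supp h1 hv
      have h4 := Pa_supp h2 hv
      rw [List.mem_append, List.mem_singleton] at h3 h4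
      rcases h3 with h3 | h3
      · rcases h4 with h4 | h4
        · rw [List.nodup_append] at h
          exact absurd rfl (h.2.2 v h3 v h4)
        · exact Or.inl h4
      · exact Or.inr h3
    rcases hl with hl | hl
    · refine ja_arc ?_ hl h1 hs
      refine h.sublist ?_
      refine List.Sublist.append_left ?_ _
      simp
    · have h5 : (y :: l₂ ++ [x]).Nodup := by
        have h6 : ((y :: l₂) ++ (x :: l₁)).Nodup := by
          rw [List.nodup_append_comm]
          exact h
        refine h6.sublist ?_
        refine List.Sublist.append_left ?_ _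
        simp
      exact (ja_arc h5 hl h2 fun v hv => (hs v hv).symm).symm
  · rintro (rfl | rfl)
    · exact ⟨ja_mem (by simp), ja_mem (by simp)⟩
    · exact ⟨ja_mem (by simp), ja_mem (by simp)⟩

theorem Pg_split (l₁ l₂ : List V) (x y : V) :
    Pg (x :: l₁ ++ y :: l₂) = Pa (x :: l₁ ++ [y]) ∪ Pa (y :: l₂ ++ [x]) := by
  have h := Pa_append (x :: l₁) (l₂ ++ [x]) y
  show Pa (x :: (l₁ ++ y :: l₂) ++ [x]) = _
  have e : x :: (l₁ ++ y :: l₂) ++ [x] = x :: l₁ ++ y :: (l₂ ++ [x]) := by simp
  rw [e, h]
  rfl

variable [Finite V]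

set_option linter.unusedSectionVars false in
theorem Dl_closed (s : Finset V) : IsClosed (Dl s) := by
  have e : Dl s = (⋂ v : V, {c : V → ℝ | 0 ≤ c v}) ∩ ({c : V → ℝ | ∑ v ∈ s, c v = 1} ∩
      ⋂ v : V, {c : V → ℝ | v ∉ s → c v = 0}) := by
    ext c
    simp only [Dl, Set.mem_ofPred_eq, Set.mem_inter_iff, Set.mem_iInter]
  rw [e]
  refine IsClosed.inter (isClosed_iInter fun v => isClosed_le continuous_const
    (continuous_apply v)) (IsClosed.inter (isClosed_eq (continuous_finsetSum _ fun v _ =>
      continuous_apply v) continuous_const) (isClosed_iInter fun v => ?_))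
  by_cases hv : v ∈ s
  · have : {c : V → ℝ | v ∉ s → c v = 0} = Set.univ := by
      ext c
      simp [hv]
    rw [this]
    exact isClosed_univ
  · have : {c : V → ℝ | v ∉ s → c v = 0} = {c : V → ℝ | c v = 0} := by
      ext c
      simp [hv]
    rw [this]
    exact isClosed_eq (continuous_apply v) continuous_const

theorem Pa_closed (l : List V) : IsClosed (Pa l) := by
  induction l with
  | nil => exact isClosed_empty
  | cons x l ih =>
    cases l with
    | nil => exact isClosed_singleton
    | cons y l => exact (Dl_closed _).union ih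

theorem ball_pair {x y : V} (h : x ≠ y) : Ball 1 (Dl {x, y}) {dl x, dl y} := by
  rw [Dl_pair]
  exact ball_segment fun e => h (dl_inj e)

/-- a simple path is an arc -/
theorem ball_path (x y : V) (l : List V) (h : (x :: l ++ [y]).Nodup) :
    Ball 1 (Pa (x :: l ++ [y])) {dl x, dl y} := by
  induction l generalizing x with
  | nil =>
    have hxy : x ≠ y := by
      rintro rfl
      simp at h
    show Ball 1 (Pa [x, y]) {dl x, dl y}
    rw [ja_pair]
    exact ball_pair hxy
  | cons a l ih =>
    have h' : (x :: (a :: l ++ [y])).Nodup := h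
    rw [List.nodup_cons] at h'
    have hxa : x ≠ a := by
      rintro rfl
      exact h'.1 (by simp)
    have hay : a ≠ y := by
      rintro rfl
      have h2 : (a :: (l ++ [a])).Nodup := h'.2
      rw [List.nodup_cons] at h2
      exact h2.1 (by simp)
    have h1 := ball_pair hxa
    have h2 := ih a h'.2
    have h3 : Dl {x, a} ∩ Pa (a :: l ++ [y]) = {dl a} := by
      have h4 := Pa_inter (l₁ := [x]) (l₂ := l ++ [y]) (y := a) h
      rw [← h4]
      show _ = Pa [x, a] ∩ _
      rw [ja_pair]
      rfl
    have h5 : Ball (0 + 1) (Dl {x, a}) ({dl a} ∪ {dl x}) := by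
      have e : ({dl a} ∪ {dl x} : Set (V → ℝ)) = {dl x, dl a} := by
        rw [Set.union_comm]
        rfl
      rw [e]
      exact h1
    have h6 : Ball (0 + 1) (Pa (a :: l ++ [y])) ({dl a} ∪ {dl y}) := h2
    have h7 : ({dl a} : Set (V → ℝ)) ∩ {dl x} = ∅ := by
      rw [Set.singleton_inter_eq_empty, Set.mem_singleton_iff]
      exact fun e => hxa (dl_inj e).symm
    have h8 : ({dl a} : Set (V → ℝ)) ∩ {dl y} = ∅ := by
      rw [Set.singleton_inter_eq_empty, Set.mem_singleton_iff]
      exact fun e => hay (dl_inj e)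
    exact Ball.glue h5 h6 h3 (ball_zero _) (ball_zero _) (ball_zero _) h7 h8

/-- a triangle is a disc -/
theorem ball_tri {x y z : V} (h1 : x ≠ y) (h2 : y ≠ z) (h3 : x ≠ z) :
    Ball 2 (Dl {x, y, z}) (Pg [x, y, z]) := by
  let AL : (V → ℝ) →ₗ[ℝ] (Fin 2 → ℝ) :=
    { toFun := fun c => ![c z, c y - c x]
      map_add' := by
        intro c d
        funext i
        fin_cases i
        · rfl
        · show (c y + d y) - (c x + d x) = (c y - c x) + (d y - d x)
          ring
      map_smul' := by
        intro t c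
        funext i
        fin_cases i
        · rfl
        · show t * c y - t * c x = t * (c y - c x)
          ring }
  let Gm : (Fin 2 → ℝ) →ₗ[ℝ] (V → ℝ) :=
    { toFun := fun w => w 0 • dl z + ((w 1 - w 0) / 2) • dl y + ((- w 1 - w 0) / 2) • dl x
      map_add' := by
        intro c d
        funext i
        show (c 0 + d 0) * dl z i + ((c 1 + d 1 - (c 0 + d 0)) / 2) * dl y i +
          ((- (c 1 + d 1) - (c 0 + d 0)) / 2) * dl x i = (c 0 * dl z i +
          ((c 1 - c 0) / 2) * dl y i + ((- c 1 - c 0) / 2) * dl x i) + (d 0 * dl z i +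
          ((d 1 - d 0) / 2) * dl y i + ((- d 1 - d 0) / 2) * dl x i)
        ring
      map_smul' := by
        intro t c
        funext i
        show (t * c 0) * dl z i + ((t * c 1 - t * c 0) / 2) * dl y i +
          ((- (t * c 1) - t * c 0) / 2) * dl x i = t * (c 0 * dl z i +
          ((c 1 - c 0) / 2) * dl y i + ((- c 1 - c 0) / 2) * dl x i)
        ring }
  let G : (Fin 2 → ℝ) →ᵃ[ℝ] (V → ℝ) := Gm.toAffineMap +
    AffineMap.const ℝ _ ((1 / 2 : ℝ) • dl y + (1 / 2 : ℝ) • dl x)
  have hA : PLOn (fun c => AL.toAffineMap c) (Dl {x, y, z}) :=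
    PLOn.of_affine _ (LinearMap.continuous_of_finiteDimensional AL) _
  have hG : PLOn (fun w => G w) (Oh 1 1) := by
    refine PLOn.of_affine G ?_ _
    show Continuous fun w => Gm w + ((1 / 2 : ℝ) • dl y + (1 / 2 : ℝ) • dl x)
    exact (LinearMap.continuous_of_finiteDimensional Gm).add continuous_const
  have hGv : ∀ w v, G w v = w 0 * dl z v + ((1 - w 0 + w 1) / 2) * dl y v +
      ((1 - w 0 - w 1) / 2) * dl x v := by
    intro w v
    show (w 0 * dl z v + ((w 1 - w 0) / 2) * dl y v + ((- w 1 - w 0) / 2) * dl x v) +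
      ((1 / 2 : ℝ) * dl y v + (1 / 2 : ℝ) * dl x v) = _
    ring
  have hGx : ∀ w, G w x = (1 - w 0 - w 1) / 2 := by
    intro w
    rw [hGv, ja_dln h3, ja_dln h1, ja_dlx]
    ring
  have hGy : ∀ w, G w y = (1 - w 0 + w 1) / 2 := by
    intro w
    rw [hGv, ja_dln h2, ja_dlx, ja_dln h1.symm]
    ring
  have hGz : ∀ w, G w z = w 0 := by
    intro w
    rw [hGv, ja_dlx, ja_dln h2.symm, ja_dln h3.symm]
    ring
  have hsum : ∀ c : V → ℝ, ∑ v ∈ ({x, y, z} : Finset V), c v = c x + (c y + c z) := by
    intro c
    rw [Finset.sum_insert (by simp [h1, h3]), Finset.sum_pair h2]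
  have hmem : ∀ v, v ∉ ({x, y, z} : Finset V) → v ≠ x ∧ v ≠ y ∧ v ≠ z := by
    intro v hv
    simpa using hv
  have hO : ∀ w : Fin 2 → ℝ, w ∈ O 2 ↔ |w 0| + |w 1| ≤ 1 := by
    intro w
    show ∑ i, |w i| ≤ 1 ↔ _
    rw [Fin.sum_univ_two]
  have hS : ∀ w : Fin 2 → ℝ, w ∈ Sp 2 ↔ |w 0| + |w 1| = 1 := by
    intro w
    show ∑ i, |w i| = 1 ↔ _
    rw [Fin.sum_univ_two]
  have hA0 : ∀ c : V → ℝ, AL c 0 = c z := fun _ => rfl
  have hA1 : ∀ c : V → ℝ, AL c 1 = c y - c x := fun _ => rfl
  have hP : PLH (Dl {x, y, z}) (Oh 1 1) (fun c => AL.toAffineMap c) (fun w => G w) := by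
    refine ⟨hA, hG, ?_, ?_, ?_, ?_⟩
    · intro c hc
      obtain ⟨c1, c2, c3⟩ := hc
      rw [hsum] at c2
      show AL c ∈ O 2 ∧ 0 ≤ 1 * AL c 0
      rw [hO, hA0, hA1]
      have h4 : |c y - c x| ≤ c y + c x := by
        rw [abs_le]
        constructor <;> linarith [c1 x, c1 y]
      refine ⟨?_, ?_⟩
      · rw [abs_of_nonneg (c1 z)]
        linarith
      · linarith [c1 z]
    · intro w hw
      obtain ⟨w1, w2⟩ := hw
      have w1' : |w 0| + |w 1| ≤ 1 := (hO w).1 w1
      rw [one_mul] at w2
      rw [abs_of_nonneg w2] at w1'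
      have h4 : |w 1| ≤ 1 - w 0 := by linarith
      rw [abs_le] at h4
      show G w ∈ Dl {x, y, z}
      refine ⟨fun v => ?_, ?_, fun v hv => ?_⟩
      · by_cases hx : v = x
        · rw [hx, hGx]
          linarith [h4.2]
        · by_cases hy : v = y
          · rw [hy, hGy]
            linarith [h4.1]
          · by_cases hz : v = z
            · rw [hz, hGz]
              exact w2
            · rw [hGv, ja_dln hx, ja_dln hy, ja_dln hz]
              simp
      · rw [hsum, hGx, hGy, hGz]
        ring
      · obtain ⟨hx, hy, hz⟩ := hmem v hv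
        rw [hGv, ja_dln hx, ja_dln hy, ja_dln hz]
        simp
    · intro c hc
      obtain ⟨c1, c2, c3⟩ := hc
      rw [hsum] at c2
      show G (AL c) = c
      funext v
      by_cases hx : v = x
      · rw [hx, hGx, hA0, hA1]
        linarith
      · by_cases hy : v = y
        · rw [hy, hGy, hA0, hA1]
          linarith
        · by_cases hz : v = z
          · rw [hz, hGz, hA0]
          · rw [hGv, ja_dln hx, ja_dln hy, ja_dln hz, c3 v (by simp [hx, hy, hz])]
            simp
    · intro w hw
      show AL (G w) = w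
      funext i
      fin_cases i
      · show G w z = w 0
        rw [hGz]
      · show G w y - G w x = w 1
        rw [hGx, hGy]
        ring
  have hB := (ball_half 1 (ε := 1) (Or.inl rfl)).map hP.symm
  have he : (fun w => G w) '' (Om 1 ∪ Sh' 1 1) = Pg [x, y, z] := by
    have hPg : Pg [x, y, z] = Dl {x, y} ∪ (Dl {y, z} ∪ Dl {z, x}) := by
      show Pa (x :: y :: [z, x]) = _
      rw [ja_cons, ja_cons, ja_pair]
    have hsub : Om 1 ∪ Sh' 1 1 ⊆ Oh 1 1 := (ball_half 1 (ε := 1) (Or.inl rfl)).1
    have key : ∀ c ∈ Dl {x, y, z}, (AL c ∈ Om 1 ∪ Sh' 1 1 ↔ c z = 0 ∨ c x = 0 ∨ c y = 0) := by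
      intro c hc
      have hcO := hP.fm hc
      obtain ⟨c1, c2, c3⟩ := hc
      rw [hsum] at c2
      constructor
      · rintro (h | h)
        · exact Or.inl h.2
        · have h4 : |c z| + |c y - c x| = 1 := (hS _).1 h.1
          rw [abs_of_nonneg (c1 z)] at h4
          rcases abs_cases (c y - c x) with ⟨h5, _⟩ | ⟨h5, _⟩
          · right
            left
            linarith
          · right
            right
            linarith
      · rintro (h | h | h)
        · exact Or.inl ⟨hcO.1, h⟩
        · refine Or.inr ⟨(hS _).2 ?_, hcO.2⟩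
          show |c z| + |c y - c x| = 1
          rw [abs_of_nonneg (c1 z), h, sub_zero, abs_of_nonneg (c1 y)]
          linarith
        · refine Or.inr ⟨(hS _).2 ?_, hcO.2⟩
          show |c z| + |c y - c x| = 1
          rw [abs_of_nonneg (c1 z), h, zero_sub, abs_neg, abs_of_nonneg (c1 x)]
          linarith
    have key2 : ∀ c ∈ Dl {x, y, z}, (c ∈ Pg [x, y, z] ↔ c z = 0 ∨ c x = 0 ∨ c y = 0) := by
      intro c hc
      rw [hPg]
      constructor
      · rintro (h | h | h)
        · exact Or.inl (h.2.2 z (by simp [h3.symm, h2.symm]))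
        · exact Or.inr (Or.inl (h.2.2 x (by simp [h1, h3])))
        · exact Or.inr (Or.inr (h.2.2 y (by simp [h1.symm, h2])))
      · have hs : ∀ v, c v ≠ 0 → v = x ∨ v = y ∨ v = z := by
          intro v hv
          have := ja_supp' hc hv
          simpa using this
        rintro (h | h | h)
        · refine Or.inl (ja_supp hc fun v hv => ?_)
          rcases hs v hv with e | e | e
          · rw [e]; simp
          · rw [e]; simp
          · rw [e] at hv
            exact absurd h hv
        · refine Or.inr (Or.inl (ja_supp hc fun v hv => ?_))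
          rcases hs v hv with e | e | e
          · rw [e] at hv
            exact absurd h hv
          · rw [e]; simp
          · rw [e]; simp
        · refine Or.inr (Or.inr (ja_supp hc fun v hv => ?_))
          rcases hs v hv with e | e | e
          · rw [e]; simp
          · rw [e] at hv
            exact absurd h hv
          · rw [e]; simp
    have hPD : Pg [x, y, z] ⊆ Dl {x, y, z} := by
      rw [hPg]
      rintro c (h | h | h)
      · refine Dl_mono ?_ h
        intro v
        simp only [Finset.mem_insert, Finset.mem_singleton]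
        tauto
      · refine Dl_mono ?_ h
        intro v
        simp only [Finset.mem_insert, Finset.mem_singleton]
        tauto
      · refine Dl_mono ?_ h
        intro v
        simp only [Finset.mem_insert, Finset.mem_singleton]
        tauto
    ext c
    constructor
    · rintro ⟨w, hw, rfl⟩
      have h4 : G w ∈ Dl {x, y, z} := hP.gm (hsub hw)
      have h5 : AL (G w) = w := hP.fg w (hsub hw)
      show G w ∈ Pg [x, y, z]
      rw [key2 _ h4, ← key _ h4, h5]
      exact hw
    · intro hc
      have h4 := hPD hc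
      refine ⟨AL c, ?_, hP.gf c h4⟩
      rw [key c h4, ← key2 c h4]
      exact hc
  rw [he] at hB
  exact hB

end MOT.J
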