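import Pool.Agent.MOT.JtA

/-!
# MOT/JtB: complexes built up step by step are PL discs
-/

open Classical

noncomputable section

namespace MOT.J

variable {V : Type}

/-- consecutive pairs of a list -/
private def cp : List V → Set (Finset V)
  | [] => ∅
  | [_] => ∅
  | x :: y :: l => insert {x, y} (cp (y :: l))

private theorem cp_cons (x y : V) (l : List V) :
    cp (x :: y :: l) = insert {x, y} (cp (y :: l)) := rfl

private theorem cp_append (l₁ l₂ : List V) (x : V) :
    cp (l₁ ++ x :: l₂) = cp (l₁ ++ [x]) ∪ cp (x :: l₂) := by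
  induction l₁ with
  | nil => exact (Set.empty_union _).symm
  | cons a l ih =>
    cases l with
    | nil =>
      show insert {a, x} (cp (x :: l₂)) = insert {a, x} (cp [x]) ∪ cp (x :: l₂)
      rw [Set.insert_union]
      exact congrArg _ (Set.empty_union _).symm
    | cons b l =>
      show insert {a, b} (cp (b :: l ++ x :: l₂)) = insert {a, b} (cp (b :: l ++ [x])) ∪ _
      rw [ih, Set.insert_union]

private theorem cp_reverse (l : List V) : cp l.reverse = cp l := by
  induction l with
  | nil => rfl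
  | cons x l ih =>
    cases l with
    | nil => rfl
    | cons y l =>
      have e : (x :: y :: l).reverse = l.reverse ++ y :: [x] := by simp
      have e' : (y :: l).reverse = l.reverse ++ [y] := by simp
      rw [e, cp_append, ← e', ih, cp_cons]
      show cp (y :: l) ∪ insert {y, x} ∅ = _
      rw [Set.union_comm, Set.insert_union, Set.empty_union, Finset.pair_comm]
      rfl

private theorem mem_cp {l : List V} {e : Finset V} :
    e ∈ cp l ↔ ∃ (l₁ l₂ : List V) (u v : V), l = l₁ ++ u :: v :: l₂ ∧ e = {u, v} := by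
  constructor
  · induction l with
    | nil => exact fun h => absurd h (Set.notMem_empty e)
    | cons x l ih =>
      cases l with
      | nil => exact fun h => absurd h (Set.notMem_empty e)
      | cons y l =>
        rintro (h | h)
        · exact ⟨[], l, x, y, rfl, h⟩
        · obtain ⟨l₁, l₂, u, v, h1, h2⟩ := ih h
          exact ⟨x :: l₁, l₂, u, v, by rw [h1]; rfl, h2⟩
  · rintro ⟨l₁, l₂, u, v, rfl, rfl⟩
    rw [cp_append]
    exact Or.inr (Or.inl rfl)

private theorem Ce_cons (x : V) (l : List V) : Ce (x :: l) = cp (x :: l ++ [x]) := by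
  ext e
  rw [mem_cp]
  exact Iff.rfl

private theorem Ce_rot (x : V) (l : List V) : Ce (l ++ [x]) = Ce (x :: l) := by
  cases l with
  | nil => rfl
  | cons y l =>
    have e1 : Ce (y :: l ++ [x]) = cp ((y :: l) ++ x :: [y]) := by
      rw [List.cons_append, Ce_cons]
      congr 1
      simp
    have e2 : Ce (x :: y :: l) = insert {x, y} (cp (y :: l ++ [x])) := by
      rw [Ce_cons]
      rfl
    rw [e1, e2, cp_append, Set.union_comm]
    show insert {x, y} ∅ ∪ cp (y :: l ++ [x]) = _
    rw [Set.insert_union, Set.empty_union]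

private theorem Ce_rev (l : List V) : Ce l.reverse = Ce l := by
  cases l with
  | nil => rfl
  | cons x l =>
    have e : (x :: l).reverse = l.reverse ++ [x] := by simp
    rw [e, Ce_rot, Ce_cons, Ce_cons, ← cp_reverse (x :: l ++ [x])]
    congr 1
    simp

private theorem Ce_cons2 (x y : V) (l : List V) :
    Ce (x :: y :: l) = insert {x, y} (cp (y :: l ++ [x])) := by
  rw [Ce_cons]
  rfl

private theorem card3 {x y z : V} (h1 : x ≠ y) (h2 : y ≠ z) (h3 : x ≠ z) :
    ({x, y, z} : Finset V).card = 3 := Finset.card_eq_three.2 ⟨x, y, z, h1, h3, h2, rfl⟩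

private theorem sh_both {T : Finset (Finset V)} {l : List V} (h : Sh T l) :
    (∀ t ∈ T, t.card = 3) ∧
    l.Nodup ∧ 3 ≤ l.length ∧ (∀ v ∈ l, InV T v) ∧ ∀ e ∈ Ce l, ∃ t ∈ T, e ⊆ t := by
  induction h with
  | tri x y z h1 h2 h3 =>
    refine ⟨fun t ht => ?_, ?_, le_rfl, ?_, ?_⟩
    · rw [Finset.mem_singleton.1 ht]
      exact card3 h1 h2 h3
    · simp only [List.nodup_cons, List.mem_cons, List.not_mem_nil, or_false, not_or,
        not_false_eq_true, List.nodup_nil, and_true]
      exact ⟨⟨h1, h3⟩, h2⟩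
    · intro v hv
      refine ⟨_, Finset.mem_singleton_self _, ?_⟩
      simpa using hv
    · intro e he
      refine ⟨_, Finset.mem_singleton_self _, ?_⟩
      rw [Ce_cons2] at he
      rcases he with he | he | he | he
      · rw [he]; intro a ha
        simp only [Finset.mem_insert, Finset.mem_singleton] at ha ⊢
        tauto
      · rw [he]; intro a ha
        simp only [Finset.mem_insert, Finset.mem_singleton] at ha ⊢
        tauto
      · rw [he]; intro a ha
        simp only [Finset.mem_insert, Finset.mem_singleton] at ha ⊢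
        tauto
      · exact absurd he (Set.notMem_empty e)
  | rot T x l _ ih =>
    obtain ⟨h0, h1, h2, h3, h4⟩ := ih
    refine ⟨h0, ?_, ?_, ?_, ?_⟩
    · exact (List.perm_append_singleton x l).nodup_iff.2 h1
    · rw [(List.perm_append_singleton x l).length_eq]; exact h2
    · intro v hv
      exact h3 v ((List.perm_append_singleton x l).mem_iff.1 hv)
    · rw [Ce_rot]; exact h4
  | rev T l _ ih =>
    obtain ⟨h0, h1, h2, h3, h4⟩ := ih
    refine ⟨h0, List.nodup_reverse.2 h1, by rw [List.length_reverse]; exact h2, ?_, ?_⟩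
    · intro v hv
      exact h3 v (List.mem_reverse.1 hv)
    · rw [Ce_rev]; exact h4
  | two T x z y l _ hl hxy ih =>
    obtain ⟨h0, h1, h2, h3, h4⟩ := ih
    simp only [List.nodup_cons, List.mem_cons, not_or] at h1
    obtain ⟨⟨n1, n2, n3⟩, ⟨n4, n5⟩, n6, n7⟩ := h1
    refine ⟨?_, ?_, ?_, ?_, ?_⟩
    · intro t ht
      rcases Finset.mem_insert.1 ht with rfl | ht
      · exact card3 n2 (Ne.symm n4) n1
      · exact h0 t ht
    · simp only [List.nodup_cons, List.mem_cons, not_or]
      exact ⟨⟨n2, n3⟩, n6, n7⟩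
    · have := List.length_pos_iff.2 hl
      simp only [List.length_cons]
      omega
    · intro v hv
      have hv' : v ∈ x :: z :: y :: l := by
        simp only [List.mem_cons] at hv ⊢
        tauto
      obtain ⟨t, ht, hvt⟩ := h3 v hv'
      exact ⟨t, Finset.mem_insert_of_mem ht, hvt⟩
    · intro e he
      rw [Ce_cons2] at he h4
      rcases he with he | he
      · refine ⟨_, Finset.mem_insert_self _ _, ?_⟩
        rw [he]; intro a ha
        simp only [Finset.mem_insert, Finset.mem_singleton] at ha ⊢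
        tauto
      · obtain ⟨t, ht, het⟩ := h4 e (Or.inr (Or.inr he))
        exact ⟨t, Finset.mem_insert_of_mem ht, het⟩
  | one T x z y l _ hy ih =>
    obtain ⟨h0, h1, h2, h3, h4⟩ := ih
    have hy' : y ∉ x :: z :: l := fun h => hy (h3 y h)
    simp only [List.mem_cons, not_or] at hy'
    simp only [List.nodup_cons, List.mem_cons, not_or] at h1
    obtain ⟨⟨n1, n2⟩, n3, n4⟩ := h1
    obtain ⟨m1, m2, m3⟩ := hy'
    refine ⟨?_, ?_, ?_, ?_, ?_⟩
    · intro t ht
      rcases Finset.mem_insert.1 ht with rfl | ht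
      · exact card3 (Ne.symm m1) m2 n1
      · exact h0 t ht
    · simp only [List.nodup_cons, List.mem_cons, not_or]
      exact ⟨⟨Ne.symm m1, n1, n2⟩, ⟨m2, m3⟩, n3, n4⟩
    · simp only [List.length_cons] at h2 ⊢
      omega
    · intro v hv
      by_cases e : v = y
      · exact ⟨_, Finset.mem_insert_self _ _, by rw [e]; simp⟩
      · have hv' : v ∈ x :: z :: l := by
          simp only [List.mem_cons] at hv ⊢
          tauto
        obtain ⟨t, ht, hvt⟩ := h3 v hv'
        exact ⟨t, Finset.mem_insert_of_mem ht, hvt⟩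
    · intro e he
      rw [Ce_cons2] at he h4
      rcases he with he | he | he
      · refine ⟨_, Finset.mem_insert_self _ _, ?_⟩
        rw [he]; intro a ha
        simp only [Finset.mem_insert, Finset.mem_singleton] at ha ⊢
        tauto
      · refine ⟨_, Finset.mem_insert_self _ _, ?_⟩
        rw [he]; intro a ha
        simp only [Finset.mem_insert, Finset.mem_singleton] at ha ⊢
        tauto
      · obtain ⟨t, ht, het⟩ := h4 e (Or.inr he)
        exact ⟨t, Finset.mem_insert_of_mem ht, het⟩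
  | glue T₁ T₂ y z l₁ l₂ _ _ hyz ih1 ih2 =>
    obtain ⟨h0, h1, h2, h3, h4⟩ := ih1
    obtain ⟨g0, g1, g2, g3, g4⟩ := ih2
    have h1' := h1
    have g1' := g1
    simp only [List.nodup_cons, List.mem_cons, not_or] at h1 g1
    obtain ⟨⟨n1, n2⟩, n3, n4⟩ := h1
    obtain ⟨⟨m1, m2⟩, m3, m4⟩ := g1
    refine ⟨?_, ?_, ?_, ?_, ?_⟩
    · intro t ht
      rcases Finset.mem_union.1 ht with ht | ht
      · exact h0 t ht
      · exact g0 t ht
    · rw [List.nodup_append]
      refine ⟨List.nodup_cons.2 ⟨n3, n4⟩, List.nodup_cons.2 ⟨m3, m4⟩, ?_⟩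
      intro a ha b hb hab
      subst hab
      have i1 : InV T₁ a := h3 a (List.mem_cons_of_mem _ ha)
      have i2 : InV T₂ a := g3 a (List.mem_cons_of_mem _ hb)
      rcases hyz a i1 i2 with rfl | rfl
      · rcases List.mem_cons.1 ha with e | e
        · exact n1 e
        · exact n2 e
      · rcases List.mem_cons.1 hb with e | e
        · exact m1 e
        · exact m2 e
    · simp only [List.length_append, List.length_cons] at h2 g2 ⊢
      omega
    · intro v hv
      rcases List.mem_append.1 hv with hv | hv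
      · obtain ⟨t, ht, hvt⟩ := h3 v (List.mem_cons_of_mem _ hv)
        exact ⟨t, Finset.mem_union_left _ ht, hvt⟩
      · obtain ⟨t, ht, hvt⟩ := g3 v (List.mem_cons_of_mem _ hv)
        exact ⟨t, Finset.mem_union_right _ ht, hvt⟩
    · intro e he
      have e1 : Ce (z :: l₁ ++ y :: l₂) = cp ((z :: l₁) ++ y :: (l₂ ++ [z])) := by
        rw [List.cons_append, Ce_cons]
        congr 1
        simp
      rw [e1, cp_append] at he
      rw [Ce_cons2] at h4 g4
      rcases he with he | he
      · obtain ⟨t, ht, het⟩ := h4 e (Or.inr he)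
        exact ⟨t, Finset.mem_union_left _ ht, het⟩
      · obtain ⟨t, ht, het⟩ := g4 e (Or.inr he)
        exact ⟨t, Finset.mem_union_right _ ht, het⟩

theorem sh_card {T : Finset (Finset V)} {l : List V} (h : Sh T l) : ∀ t ∈ T, t.card = 3 :=
  (sh_both h).1

/-- the edges of the boundary polygon are edges of `T`, the list has no repetition -/
theorem sh_list {T : Finset (Finset V)} {l : List V} (h : Sh T l) :
    l.Nodup ∧ 3 ≤ l.length ∧ (∀ v ∈ l, InV T v) ∧ ∀ e ∈ Ce l, ∃ t ∈ T, e ⊆ t :=
  (sh_both h).2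

private theorem Dl_sub {s t u : Finset V} {c : V → ℝ} (hs : c ∈ Dl s) (ht : c ∈ Dl t)
    (h : s ∩ t ⊆ u) : c ∈ Dl u := by
  refine Dl_mono h ?_
  rw [← Dl_inter]
  exact ⟨hs, ht⟩

private theorem Pa_two (x y : V) : Pa [x, y] = Dl {x, y} := by
  show Dl {x, y} ∪ {dl y} = Dl {x, y}
  exact Set.union_eq_left.2 (Set.singleton_subset_iff.2 ((dl_mem y _).2 (by simp)))

private theorem Pa_three (x y z : V) : Pa [x, y, z] = Dl {x, y} ∪ Dl {y, z} := by
  show Dl {x, y} ∪ Pa [y, z] = _
  rw [Pa_two]

/-- a triangle attached along the path `x z y` -/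
theorem re_inter_two {T : Finset (Finset V)} {x y z : V} (hT : ∀ t ∈ T, t.card = 3)
    (h1 : ∃ t ∈ T, x ∈ t ∧ z ∈ t) (h2 : ∃ t ∈ T, z ∈ t ∧ y ∈ t)
    (h : ∀ t ∈ T, ¬ (x ∈ t ∧ y ∈ t)) :
    ReT T ∩ Dl {x, y, z} = Pa [x, z, y] := by
  have _ := hT
  rw [Pa_three]
  ext c
  constructor
  · rintro ⟨⟨t, ht, hct⟩, hc⟩
    by_cases hx : x ∈ t
    · refine Or.inl (Dl_sub hct hc fun a ha => ?_)
      have hat := (Finset.mem_inter.1 ha).1
      have hay : a ≠ y := by
        rintro rfl
        exact h t ht ⟨hx, hat⟩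
      have := (Finset.mem_inter.1 ha).2
      simp only [Finset.mem_insert, Finset.mem_singleton] at this ⊢
      tauto
    · refine Or.inr (Dl_sub hct hc fun a ha => ?_)
      have hat := (Finset.mem_inter.1 ha).1
      have hay : a ≠ x := by
        rintro rfl
        exact hx hat
      have := (Finset.mem_inter.1 ha).2
      simp only [Finset.mem_insert, Finset.mem_singleton] at this ⊢
      tauto
  · rintro (hc | hc)
    · obtain ⟨t, ht, hx, hz⟩ := h1
      refine ⟨⟨t, ht, Dl_mono ?_ hc⟩, Dl_mono ?_ hc⟩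
      · intro a ha
        simp only [Finset.mem_insert, Finset.mem_singleton] at ha
        rcases ha with rfl | rfl
        · exact hx
        · exact hz
      · intro a ha
        simp only [Finset.mem_insert, Finset.mem_singleton] at ha ⊢
        tauto
    · obtain ⟨t, ht, hz, hy⟩ := h2
      refine ⟨⟨t, ht, Dl_mono ?_ hc⟩, Dl_mono ?_ hc⟩
      · intro a ha
        simp only [Finset.mem_insert, Finset.mem_singleton] at ha
        rcases ha with rfl | rfl
        · exact hz
        · exact hy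
      · intro a ha
        simp only [Finset.mem_insert, Finset.mem_singleton] at ha ⊢
        tauto

theorem re_inter_one {T : Finset (Finset V)} {x y z : V}
    (h1 : ∃ t ∈ T, x ∈ t ∧ z ∈ t) (h : ¬ InV T y) :
    ReT T ∩ Dl {x, y, z} = Dl {x, z} := by
  ext c
  constructor
  · rintro ⟨⟨t, ht, hct⟩, hc⟩
    refine Dl_sub hct hc fun a ha => ?_
    have hat := (Finset.mem_inter.1 ha).1
    have hay : a ≠ y := by
      rintro rfl
      exact h ⟨t, ht, hat⟩
    have := (Finset.mem_inter.1 ha).2
    simp only [Finset.mem_insert, Finset.mem_singleton] at this ⊢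
    tauto
  · intro hc
    obtain ⟨t, ht, hx, hz⟩ := h1
    refine ⟨⟨t, ht, Dl_mono ?_ hc⟩, Dl_mono ?_ hc⟩
    · intro a ha
      simp only [Finset.mem_insert, Finset.mem_singleton] at ha
      rcases ha with rfl | rfl
      · exact hx
      · exact hz
    · intro a ha
      simp only [Finset.mem_insert, Finset.mem_singleton] at ha ⊢
      tauto

theorem re_inter_glue {T₁ T₂ : Finset (Finset V)} {y z : V}
    (h1 : ∃ t ∈ T₁, y ∈ t ∧ z ∈ t) (h2 : ∃ t ∈ T₂, y ∈ t ∧ z ∈ t)
    (h : ∀ v, InV T₁ v → InV T₂ v → v = y ∨ v = z) :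
    ReT T₁ ∩ ReT T₂ = Dl {y, z} := by
  ext c
  constructor
  · rintro ⟨⟨t, ht, hct⟩, s, hs, hcs⟩
    refine Dl_sub hct hcs fun a ha => ?_
    have := h a ⟨t, ht, (Finset.mem_inter.1 ha).1⟩ ⟨s, hs, (Finset.mem_inter.1 ha).2⟩
    simp only [Finset.mem_insert, Finset.mem_singleton]
    exact this
  · intro hc
    obtain ⟨t, ht, hy, hz⟩ := h1
    obtain ⟨s, hs, hy', hz'⟩ := h2
    refine ⟨⟨t, ht, Dl_mono ?_ hc⟩, ⟨s, hs, Dl_mono ?_ hc⟩⟩
    · intro a ha
      simp only [Finset.mem_insert, Finset.mem_singleton] at ha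
      rcases ha with rfl | rfl
      · exact hy
      · exact hz
    · intro a ha
      simp only [Finset.mem_insert, Finset.mem_singleton] at ha
      rcases ha with rfl | rfl
      · exact hy'
      · exact hz'

private theorem ReT_insert (t : Finset V) (T : Finset (Finset V)) :
    ReT (insert t T) = ReT T ∪ Dl t := by
  ext c
  constructor
  · rintro ⟨s, hs, hc⟩
    rcases Finset.mem_insert.1 hs with rfl | hs
    · exact Or.inr hc
    · exact Or.inl ⟨s, hs, hc⟩
  · rintro (⟨s, hs, hc⟩ | hc)
    · exact ⟨s, Finset.mem_insert_of_mem hs, hc⟩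
    · exact ⟨t, Finset.mem_insert_self _ _, hc⟩

private theorem ReT_union (T₁ T₂ : Finset (Finset V)) : ReT (T₁ ∪ T₂) = ReT T₁ ∪ ReT T₂ := by
  ext c
  constructor
  · rintro ⟨s, hs, hc⟩
    rcases Finset.mem_union.1 hs with hs | hs
    · exact Or.inl ⟨s, hs, hc⟩
    · exact Or.inr ⟨s, hs, hc⟩
  · rintro (⟨s, hs, hc⟩ | ⟨s, hs, hc⟩)
    · exact ⟨s, Finset.mem_union_left _ hs, hc⟩
    · exact ⟨s, Finset.mem_union_right _ hs, hc⟩

/-- the triangle `x y z` with the boundary cut at `x`, `z` -/
private theorem tri_cut [Finite V] {x y z : V} (h1 : x ≠ y) (h2 : y ≠ z) (h3 : x ≠ z) :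
    Ball 2 (Dl {x, y, z}) (Dl {x, z} ∪ Pa [x, y, z]) ∧
      Dl {x, z} ∩ Pa [x, y, z] = {dl x, dl z} := by
  have hn : (x :: [y] ++ z :: []).Nodup := by
    simp only [List.cons_append, List.nil_append, List.nodup_cons, List.mem_cons,
      List.not_mem_nil, or_false, not_or, not_false_eq_true, List.nodup_nil, and_true]
    exact ⟨⟨h1, h3⟩, h2⟩
  have e1 : Pa (z :: [] ++ [x]) = Dl {x, z} := by
    rw [Finset.pair_comm]
    exact Pa_two z x
  constructor
  · have h := ball_tri h1 h2 h3
    have e2 := Pg_split [y] [] x z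
    rw [e1, Set.union_comm] at e2
    have e3 : Pg [x, y, z] = Dl {x, z} ∪ Pa [x, y, z] := e2
    rwa [e3] at h
  · have e2 := Pg_inter hn (Or.inl (List.cons_ne_nil _ _))
    rw [e1, Set.inter_comm] at e2
    exact e2

private theorem path_ball [Finite V] {x y : V} {l : List V} (h : (x :: y :: l).Nodup) :
    Ball 1 (Pa (y :: l ++ [x])) {dl x, dl y} := by
  rw [Set.pair_comm]
  refine ball_path y x l ?_
  exact (List.perm_append_singleton x (y :: l)).nodup_iff.2 h

private theorem pair_inter {x y : V} {l : List V} (h : (x :: y :: l).Nodup) (hl : l ≠ []) :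
    Dl {x, y} ∩ Pa (y :: l ++ [x]) = {dl x, dl y} := by
  rw [← Pa_two]
  exact Pg_inter (l₁ := []) (l₂ := l) h (Or.inr hl)

private theorem ne_of_len {x y : V} {l : List V} (h : 3 ≤ (x :: y :: l).length) : l ≠ [] := by
  rintro rfl
  simp only [List.length_cons, List.length_nil] at h
  omega

/-- the realisation is a PL disc with the polygon as boundary -/
theorem ball_of_sh [Finite V] {T : Finset (Finset V)} {l : List V} (h : Sh T l) :
    Ball 2 (ReT T) (Pg l) := by
  induction h with
  | tri x y z h1 h2 h3 =>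
    have e : ReT {({x, y, z} : Finset V)} = Dl {x, y, z} := by
      ext c
      constructor
      · rintro ⟨t, ht, hc⟩
        rwa [Finset.mem_singleton.1 ht] at hc
      · exact fun hc => ⟨_, Finset.mem_singleton_self _, hc⟩
    rw [e]
    exact ball_tri h1 h2 h3
  | rot T x l _ ih => rw [Pg_rot]; exact ih
  | rev T l _ ih => rw [Pg_rev]; exact ih
  | two T x z y l hs hl hxy ih =>
    obtain ⟨hn, hlen, hv, he⟩ := sh_list hs
    have hn' := hn
    simp only [List.nodup_cons, List.mem_cons, not_or] at hn'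
    obtain ⟨⟨n1, n2, n3⟩, ⟨n4, n5⟩, n6, n7⟩ := hn'
    obtain ⟨t1, t2⟩ := tri_cut n1 n4 n2
    have hn2 : (x :: y :: l).Nodup := by
      simp only [List.nodup_cons, List.mem_cons, not_or]
      exact ⟨⟨n2, n3⟩, n6, n7⟩
    have e1 : ({x, z, y} : Finset V) = {x, y, z} := by
      rw [Finset.pair_comm z y]
    rw [e1] at t1
    have ex : ∃ t ∈ T, x ∈ t ∧ z ∈ t := by
      obtain ⟨t, ht, h⟩ := he {x, z} (by rw [Ce_cons2]; exact Or.inl rfl)
      exact ⟨t, ht, h (by simp), h (by simp)⟩
    have ey : ∃ t ∈ T, z ∈ t ∧ y ∈ t := by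
      obtain ⟨t, ht, h⟩ := he {z, y} (by rw [Ce_cons2]; exact Or.inr (Or.inl rfl))
      exact ⟨t, ht, h (by simp), h (by simp)⟩
    have es : Pg (x :: z :: y :: l) = Pa [x, z, y] ∪ Pa (y :: l ++ [x]) := Pg_split [z] l x y
    rw [es] at ih
    rw [Set.union_comm] at t1
    have g := Ball.glue ih t1 (re_inter_two (sh_card hs) ex ey hxy)
      (R := {dl x, dl y}) (ball_path x y [z] ?_) (path_ball hn2) (ball_pair n2) ?_ ?_
    · rw [ReT_insert]
      rw [Set.union_comm (Pa _)] at g
      exact g
    · simp only [List.cons_append, List.nil_append, List.nodup_cons, List.mem_cons,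
        List.not_mem_nil, or_false, not_or, not_false_eq_true, List.nodup_nil, and_true]
      exact ⟨⟨n1, n2⟩, n4⟩
    · exact Pg_inter (l₁ := [z]) (l₂ := l) hn (Or.inl (List.cons_ne_nil _ _))
    · rw [Set.inter_comm]; exact t2
  | one T x z y l hs hy ih =>
    obtain ⟨hn, hlen, hv, he⟩ := sh_list hs
    have hl := ne_of_len hlen
    have hxz : x ≠ z := by
      rintro rfl
      exact (List.nodup_cons.1 hn).1 (List.mem_cons_self ..)
    have hxy : x ≠ y := by
      rintro rfl
      exact hy (hv x (List.mem_cons_self ..))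
    have hyz : y ≠ z := by
      rintro rfl
      exact hy (hv y (List.mem_cons_of_mem _ (List.mem_cons_self ..)))
    obtain ⟨t1, t2⟩ := tri_cut hxy hyz hxz
    have ex : ∃ t ∈ T, x ∈ t ∧ z ∈ t := by
      obtain ⟨t, ht, h⟩ := he {x, z} (by rw [Ce_cons2]; exact Or.inl rfl)
      exact ⟨t, ht, h (by simp), h (by simp)⟩
    have es : Pg (x :: z :: l) = Dl {x, z} ∪ Pa (z :: l ++ [x]) := rfl
    rw [es] at ih
    have g := Ball.glue ih t1 (re_inter_one ex hy) (R := {dl x, dl z}) (ball_pair hxz)
      (path_ball hn) (ball_path x z [y] ?_) (pair_inter hn hl) t2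
    · rw [ReT_insert]
      rw [Set.union_comm (Pa _)] at g
      have e2 : Pg (x :: y :: z :: l) = Pa [x, y, z] ∪ Pa (z :: l ++ [x]) := Pg_split [y] l x z
      rw [e2]
      exact g
    · simp only [List.cons_append, List.nil_append, List.nodup_cons, List.mem_cons,
        List.not_mem_nil, or_false, not_or, not_false_eq_true, List.nodup_nil, and_true]
      exact ⟨⟨hxy, hxz⟩, hyz⟩
  | glue T₁ T₂ y z l₁ l₂ hs1 hs2 hyz ih1 ih2 =>
    obtain ⟨hn, hlen, hv, he⟩ := sh_list hs1
    obtain ⟨gn, glen, gv, ge⟩ := sh_list hs2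
    have hl := ne_of_len hlen
    have gl := ne_of_len glen
    have hne : y ≠ z := by
      rintro rfl
      exact (List.nodup_cons.1 hn).1 (List.mem_cons_self ..)
    have ex : ∃ t ∈ T₁, y ∈ t ∧ z ∈ t := by
      obtain ⟨t, ht, h⟩ := he {y, z} (by rw [Ce_cons2]; exact Or.inl rfl)
      exact ⟨t, ht, h (by simp), h (by simp)⟩
    have ey : ∃ t ∈ T₂, y ∈ t ∧ z ∈ t := by
      obtain ⟨t, ht, h⟩ := ge {z, y} (by rw [Ce_cons2]; exact Or.inl rfl)
      exact ⟨t, ht, h (by simp), h (by simp)⟩
    have es1 : Pg (y :: z :: l₁) = Dl {y, z} ∪ Pa (z :: l₁ ++ [y]) := rfl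
    have es2 : Pg (z :: y :: l₂) = Dl {y, z} ∪ Pa (y :: l₂ ++ [z]) := by
      rw [Finset.pair_comm]; rfl
    rw [es1] at ih1
    rw [es2] at ih2
    have p2 := path_ball gn
    rw [Set.pair_comm] at p2
    have i2 := pair_inter gn gl
    rw [Set.pair_comm, Finset.pair_comm] at i2
    have g := Ball.glue ih1 ih2 (re_inter_glue ex ey hyz) (R := {dl y, dl z}) (ball_pair hne)
      (path_ball hn) p2 (pair_inter hn hl) i2
    rw [ReT_union, Pg_split]
    exact g

end MOT.J
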