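import Pool.Agent.MOT.JtDef

/-!
# MOT/JtC: lists and boundary polygons (helper63)

`pE l`: the edges of the polygonal path `l`.  `Ce (x :: l) = pE (x :: l ++ [x])`.

`Sh_append`: induction on `a`, one `rot` for each element.
`Sh_norm`: by `mem_Ce` and the definition `x0 :: l ++ [x0] = l₁ ++ u :: v :: l₂`.  If `l₂ = []` then `v = x0`,
`x0 :: l = l₁ ++ [u]`, `l₁ = x0 :: l₁'` (as `x ≠ z`), rotate to `u :: x0 :: l₁'`.  Else `l₂ = l₂' ++ [x0]`,
`x0 :: l = l₁ ++ u :: v :: l₂'`, rotate to `u :: v :: l₂' ++ l₁`.  If `(u, v) = (z, x)`: reverse and rotate.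
`Sh_nodup`, `Sh_len`, `Sh_inV`: induction on `Sh` (prove the three together).
-/

open Classical

noncomputable section

namespace MOT.J

variable {V : Type}

/-- edges of the polygonal path `l` -/
def pE : List V → Set (Finset V)
  | [] => ∅
  | [_] => ∅
  | x :: y :: l => {e | e = {x, y} ∨ e ∈ pE (y :: l)}

theorem mem_pE {l : List V} {e : Finset V} :
    e ∈ pE l ↔ ∃ (l₁ l₂ : List V) (u v : V), l = l₁ ++ u :: v :: l₂ ∧ e = {u, v} := by
  induction l with
  | nil =>
    constructor
    · intro h
      exact absurd h (Set.notMem_empty e)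
    · rintro ⟨l₁, l₂, u, v, h, -⟩
      have := congrArg List.length h
      simp at this
  | cons x l ih =>
    cases l with
    | nil =>
      constructor
      · intro h
        exact absurd h (Set.notMem_empty e)
      · rintro ⟨l₁, l₂, u, v, h, -⟩
        have := congrArg List.length h
        simp only [List.length_cons, List.length_append, List.length_nil] at this
        omega
    | cons y l =>
      constructor
      · rintro (h | h)
        · exact ⟨[], l, x, y, rfl, h⟩
        · obtain ⟨l₁, l₂, u, v, h1, h2⟩ := ih.1 h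
          exact ⟨x :: l₁, l₂, u, v, by rw [h1]; rfl, h2⟩
      · rintro ⟨l₁, l₂, u, v, h1, h2⟩
        cases l₁ with
        | nil =>
          rw [List.nil_append, List.cons.injEq, List.cons.injEq] at h1
          left
          rw [h2, h1.1, h1.2.1]
        | cons a l₁ =>
          rw [List.cons_append, List.cons.injEq] at h1
          right
          exact ih.2 ⟨l₁, l₂, u, v, h1.2, h2⟩

theorem Ce_cons (x : V) (l : List V) : Ce (x :: l) = pE (x :: l ++ [x]) := by
  ext e
  exact mem_pE.symm

theorem pE_append (l₁ : List V) (x : V) (l₂ : List V) :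
    pE (l₁ ++ x :: l₂) = pE (l₁ ++ [x]) ∪ pE (x :: l₂) := by
  induction l₁ with
  | nil =>
    change pE (x :: l₂) = ∅ ∪ pE (x :: l₂)
    rw [Set.empty_union]
  | cons a l₁ ih =>
    cases l₁ with
    | nil =>
      ext e
      change (e = {a, x} ∨ e ∈ pE (x :: l₂)) ↔ ((e = {a, x} ∨ e ∈ (∅ : Set (Finset V))) ∨ _)
      rw [Set.mem_empty_iff_false, or_false]
    | cons b l₁ =>
      ext e
      change (e = {a, b} ∨ e ∈ pE (b :: l₁ ++ x :: l₂)) ↔
        ((e = {a, b} ∨ e ∈ pE (b :: l₁ ++ [x])) ∨ e ∈ pE (x :: l₂))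
      rw [ih, Set.mem_union, or_assoc]

private theorem jtc_rev (l : List V) : pE l.reverse ⊆ pE l := by
  intro e he
  obtain ⟨l₁, l₂, u, v, h1, h2⟩ := mem_pE.1 he
  refine mem_pE.2 ⟨l₂.reverse, l₁.reverse, v, u, ?_, ?_⟩
  · rw [← List.reverse_reverse l, h1]
    simp
  · rw [h2, Finset.pair_comm]

theorem pE_reverse (l : List V) : pE l.reverse = pE l := by
  refine Set.Subset.antisymm (jtc_rev l) ?_
  have h := jtc_rev l.reverse
  rwa [List.reverse_reverse] at h

/-- the vertices of an edge of the path are on the path -/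
theorem pE_mem {l : List V} {e : Finset V} (h : e ∈ pE l) {v : V} (hv : v ∈ e) : v ∈ l := by
  obtain ⟨l₁, l₂, u, w, h1, h2⟩ := mem_pE.1 h
  rw [h2, Finset.mem_insert, Finset.mem_singleton] at hv
  rw [h1]
  rcases hv with rfl | rfl
  · simp
  · simp

private theorem jtc_rot (x : V) (l : List V) : Ce (x :: l) = Ce (l ++ [x]) := by
  cases l with
  | nil => rfl
  | cons y l =>
    change Ce (x :: y :: l) = Ce (y :: (l ++ [x]))
    rw [Ce_cons, Ce_cons]
    have h1 : pE (y :: (l ++ [x]) ++ [y]) = pE (y :: l ++ [x]) ∪ pE (x :: [y]) := by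
      rw [← pE_append (y :: l) x [y]]
      congr 1
      simp
    rw [h1]
    ext e
    change (e = {x, y} ∨ e ∈ pE (y :: l ++ [x])) ↔
      (e ∈ pE (y :: l ++ [x]) ∨ (e = {x, y} ∨ e ∈ (∅ : Set (Finset V))))
    rw [Set.mem_empty_iff_false, or_false, or_comm]

theorem Ce_append (a b : List V) : Ce (a ++ b) = Ce (b ++ a) := by
  induction a generalizing b with
  | nil => rw [List.nil_append, List.append_nil]
  | cons x a ih =>
    have h1 := jtc_rot x (a ++ b)
    have h2 := ih (b ++ [x])
    rw [List.cons_append, h1, List.append_assoc, h2, List.append_assoc]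
    rfl

theorem Ce_reverse (l : List V) : Ce l.reverse = Ce l := by
  cases l with
  | nil => rfl
  | cons x l =>
    rw [List.reverse_cons, Ce_append l.reverse [x]]
    change Ce (x :: l.reverse) = Ce (x :: l)
    rw [Ce_cons, Ce_cons, ← pE_reverse (x :: l ++ [x])]
    congr 1
    simp

theorem Sh_append {T : Finset (Finset V)} (a b : List V) (h : Sh T (a ++ b)) : Sh T (b ++ a) := by
  induction a generalizing b with
  | nil =>
    rw [List.append_nil]
    exact h
  | cons x a ih =>
    have h1 : Sh T (a ++ (b ++ [x])) := by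
      rw [← List.append_assoc]
      exact Sh.rot T x (a ++ b) h
    have h2 := ih (b ++ [x]) h1
    rwa [List.append_assoc] at h2

/-- the vertices of the boundary polygon are vertices of `T`, they are distinct, at least 3 -/
theorem Sh_facts {T : Finset (Finset V)} {l : List V} (h : Sh T l) :
    l.Nodup ∧ 3 ≤ l.length ∧ ∀ v ∈ l, InV T v := by
  induction h with
  | tri x y z hxy hyz hxz =>
    refine ⟨by simp [hxy, hyz, hxz], by simp, fun v hv => ⟨{x, y, z}, by simp, ?_⟩⟩
    simpa using hv
  | rot T x l _ ih =>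
    have hp := List.perm_append_singleton x l
    exact ⟨hp.nodup_iff.2 ih.1, by rw [hp.length_eq]; exact ih.2.1,
      fun v hv => ih.2.2 v (hp.mem_iff.1 hv)⟩
  | rev T l _ ih =>
    exact ⟨List.nodup_reverse.2 ih.1, by rw [List.length_reverse]; exact ih.2.1,
      fun v hv => ih.2.2 v (List.mem_reverse.1 hv)⟩
  | two T x z y l _ hl _ ih =>
    obtain ⟨h1, h2, h3⟩ := ih
    rw [List.nodup_cons, List.nodup_cons] at h1
    refine ⟨?_, ?_, ?_⟩
    · rw [List.nodup_cons]
      exact ⟨fun h4 => h1.1 (List.mem_cons_of_mem _ h4), h1.2.2⟩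
    · have h4 := List.length_pos_iff.2 hl
      simp only [List.length_cons]
      omega
    · intro v hv
      have h4 : v ∈ x :: z :: y :: l := by
        rcases List.mem_cons.1 hv with h5 | h5
        · rw [h5]
          exact List.mem_cons_self
        · exact List.mem_cons_of_mem _ (List.mem_cons_of_mem _ h5)
      obtain ⟨t, ht, hvt⟩ := h3 v h4
      exact ⟨t, Finset.mem_insert_of_mem ht, hvt⟩
  | one T x z y l _ hy ih =>
    obtain ⟨h1, h2, h3⟩ := ih
    have hyn : y ∉ x :: z :: l := fun h4 => hy (h3 y h4)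
    have hp : (x :: y :: z :: l).Perm (y :: x :: z :: l) := List.Perm.swap _ _ _
    refine ⟨hp.nodup_iff.2 (List.nodup_cons.2 ⟨hyn, h1⟩), ?_, ?_⟩
    · simp only [List.length_cons] at h2 ⊢
      omega
    · intro v hv
      rcases List.mem_cons.1 (hp.mem_iff.1 hv) with h5 | h5
      · exact ⟨{x, y, z}, Finset.mem_insert_self _ _, by rw [h5]; simp⟩
      · obtain ⟨t, ht, hvt⟩ := h3 v h5
        exact ⟨t, Finset.mem_insert_of_mem ht, hvt⟩
  | glue T₁ T₂ y z l₁ l₂ _ _ hs ih1 ih2 =>
    obtain ⟨a1, a2, a3⟩ := ih1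
    obtain ⟨b1, b2, b3⟩ := ih2
    rw [List.nodup_cons, List.nodup_cons] at a1 b1
    have hz1 : z ∉ l₁ := a1.2.1
    have hy1 : y ∉ l₁ := fun h => a1.1 (List.mem_cons_of_mem _ h)
    have hzy : z ≠ y := fun h => a1.1 (by rw [h]; exact List.mem_cons_self)
    have hy2 : y ∉ l₂ := b1.2.1
    have hz2 : z ∉ l₂ := fun h => b1.1 (List.mem_cons_of_mem _ h)
    have hd : ∀ v ∈ l₁, v ∉ l₂ := by
      intro v hv hv'
      rcases hs v (a3 v (by simp [hv])) (b3 v (by simp [hv'])) with h | h
      · rw [h] at hv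
        exact hy1 hv
      · rw [h] at hv
        exact hz1 hv
    refine ⟨?_, ?_, ?_⟩
    · rw [List.nodup_append]
      refine ⟨List.nodup_cons.2 ⟨hz1, a1.2.2⟩, List.nodup_cons.2 ⟨hy2, b1.2.2⟩, ?_⟩
      intro u hu w hw huw
      rw [← huw] at hw
      rcases List.mem_cons.1 hu with h5 | h5
      · rw [h5] at hw
        rcases List.mem_cons.1 hw with h6 | h6
        · exact hzy h6
        · exact hz2 h6
      · rcases List.mem_cons.1 hw with h6 | h6
        · rw [h6] at h5
          exact hy1 h5
        · exact hd u h5 h6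
    · simp only [List.length_cons, List.length_append] at a2 b2 ⊢
      omega
    · intro v hv
      rcases List.mem_append.1 hv with h5 | h5
      · obtain ⟨t, ht, hvt⟩ := a3 v (List.mem_cons_of_mem _ h5)
        exact ⟨t, Finset.mem_union_left _ ht, hvt⟩
      · obtain ⟨t, ht, hvt⟩ := b3 v (List.mem_cons_of_mem _ h5)
        exact ⟨t, Finset.mem_union_right _ ht, hvt⟩

private theorem jtc_nm {x z w : V} {m : List V} (h : (x :: z :: w :: m).Nodup) :
    z ∉ w :: m ++ [x] := by
  rw [List.nodup_cons, List.nodup_cons] at h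
  intro hz
  rcases List.mem_append.1 hz with h1 | h1
  · exact h.2.1 h1
  · rw [List.mem_singleton] at h1
    exact h.1 (by rw [h1]; exact List.mem_cons_self)

/-- an edge of the boundary polygon can be moved to the front -/
theorem Sh_norm {T : Finset (Finset V)} {l : List V} (h : Sh T l) {x z : V} (hxz : x ≠ z)
    (he : ({x, z} : Finset V) ∈ Ce l) :
    ∃ m, Sh T (x :: z :: m) ∧ Ce (x :: z :: m) = Ce l := by
  obtain ⟨-, h3, -⟩ := Sh_facts h
  obtain ⟨u, v, m, h1, h2, h4⟩ : ∃ u v m, Sh T (u :: v :: m) ∧ Ce (u :: v :: m) = Ce l ∧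
      ({x, z} : Finset V) = {u, v} := by
    cases l with
    | nil =>
      simp at h3
    | cons x0 l =>
      rw [Ce_cons, mem_pE] at he
      obtain ⟨l₁, l₂, u, v, h5, h6⟩ := he
      rcases List.eq_nil_or_concat l₂ with h7 | ⟨l₂', w, h7⟩
      · have h8 : (x0 :: l) ++ [x0] = (l₁ ++ [u]) ++ [v] := by
          rw [h5, h7]
          simp
        obtain ⟨h9, h10⟩ := List.append_inj' h8 rfl
        rw [List.cons.injEq] at h10
        cases l₁ with
        | nil =>
          rw [h9] at h3
          simp at h3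
        | cons y l₁ =>
          have h11 : x0 = y := by
            rw [List.cons_append, List.cons.injEq] at h9
            exact h9.1
          refine ⟨u, v, l₁, ?_, ?_, h6⟩
          · rw [← h10.1, h11]
            rw [h9] at h
            exact Sh_append (y :: l₁) [u] h
          · rw [← h10.1, h11, ← h11, h9, h11]
            exact Ce_append [u] (y :: l₁)
      · have h8 : (x0 :: l) ++ [x0] = (l₁ ++ u :: v :: l₂') ++ [w] := by
          rw [h5, h7, List.concat_eq_append]
          simp
        obtain ⟨h9, h10⟩ := List.append_inj' h8 rfl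
        rw [h9] at h ⊢
        exact ⟨u, v, l₂' ++ l₁, Sh_append l₁ (u :: v :: l₂') h,
          Ce_append (u :: v :: l₂') l₁, h6⟩
  have h5 : (x = u ∧ z = v) ∨ (x = v ∧ z = u) := by
    have hx : x ∈ ({u, v} : Finset V) := by
      rw [← h4]
      simp
    have hz : z ∈ ({u, v} : Finset V) := by
      rw [← h4]
      simp
    rw [Finset.mem_insert, Finset.mem_singleton] at hx hz
    rcases hx with hx | hx
    · rcases hz with hz | hz
      · exact absurd (hx.trans hz.symm) hxz
      · exact Or.inl ⟨hx, hz⟩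
    · rcases hz with hz | hz
      · exact Or.inr ⟨hx, hz⟩
      · exact absurd (hx.trans hz.symm) hxz
  rcases h5 with ⟨h5, h6⟩ | ⟨h5, h6⟩
  · rw [h5, h6]
    exact ⟨m, h1, h2⟩
  · rw [h5, h6]
    have h7 := Sh.rev _ _ h1
    have h8 : (u :: v :: m).reverse = m.reverse ++ [v, u] := by simp
    rw [h8] at h7
    refine ⟨m.reverse, Sh_append m.reverse [v, u] h7, ?_⟩
    rw [← h2, ← Ce_reverse (u :: v :: m), h8]
    exact Ce_append [v, u] m.reverse

/-- the next edge -/
theorem Sh_next {T : Finset (Finset V)} {x z y : V} {m : List V} (h : Sh T (x :: z :: m))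
    (hxy : x ≠ y) (hzy : z ≠ y) (he : ({z, y} : Finset V) ∈ Ce (x :: z :: m)) : ∃ m', m = y :: m' := by
  obtain ⟨h1, h2, -⟩ := Sh_facts h
  rw [Ce_cons] at he
  rcases he with h3 | h3
  · have h4 : y ∈ ({x, z} : Finset V) := by
      rw [← h3]
      simp
    rw [Finset.mem_insert, Finset.mem_singleton] at h4
    rcases h4 with h4 | h4
    · exact absurd h4.symm hxy
    · exact absurd h4.symm hzy
  · cases m with
    | nil => simp at h2
    | cons w m =>
      rcases h3 with h3 | h3
      · have h4 : y ∈ ({z, w} : Finset V) := by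
          rw [← h3]
          simp
        rw [Finset.mem_insert, Finset.mem_singleton] at h4
        rcases h4 with h4 | h4
        · exact absurd h4.symm hzy
        · exact ⟨m, by rw [h4]⟩
      · exact absurd (pE_mem h3 (by simp : z ∈ ({z, y} : Finset V))) (jtc_nm h1)

/-- edges of the polygon `x z m` -/
theorem mem_Ce2 {x z : V} {m : List V} {e : Finset V} :
    e ∈ Ce (x :: z :: m) ↔ e = {x, z} ∨ e ∈ pE (z :: m ++ [x]) := by
  rw [Ce_cons]
  exact Iff.rfl

/-- the first edge occurs only once -/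
theorem not_mem_pE {T : Finset (Finset V)} {x z : V} {m : List V} (h : Sh T (x :: z :: m)) :
    ({x, z} : Finset V) ∉ pE (z :: m ++ [x]) := by
  obtain ⟨h1, h2, -⟩ := Sh_facts h
  intro h3
  cases m with
  | nil => simp at h2
  | cons w m =>
    rcases h3 with h3 | h3
    · have h4 : x ∈ ({z, w} : Finset V) := by
        rw [← h3]
        simp
      rw [Finset.mem_insert, Finset.mem_singleton] at h4
      rw [List.nodup_cons] at h1
      apply h1.1
      rcases h4 with h4 | h4
      · rw [h4]
        simp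
      · rw [h4]
        simp
    · exact jtc_nm h1 (pE_mem h3 (by simp : z ∈ ({x, z} : Finset V)))

/-- a vertex does not occur in the rest of the polygon -/
theorem not_mem_pE' {T : Finset (Finset V)} {x z y : V} {m : List V}
    (h : Sh T (x :: z :: y :: m)) {e : Finset V} (he : e ∈ pE (y :: m ++ [x])) : z ∉ e := by
  intro hz
  exact jtc_nm (Sh_facts h).1 (pE_mem he hz)

/-- edges of the polygon of step `one` -/
theorem mem_Ce_one {x y z : V} {l : List V} {e : Finset V} :
    e ∈ Ce (x :: y :: z :: l) ↔ e = {x, y} ∨ e = {y, z} ∨ e ∈ pE (z :: l ++ [x]) := by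
  rw [Ce_cons]
  exact Iff.rfl

/-- edges of the polygon of step `glue` -/
theorem mem_Ce_glue {y z : V} {l₁ l₂ : List V} {e : Finset V} :
    e ∈ Ce (z :: l₁ ++ y :: l₂) ↔ e ∈ pE (z :: l₁ ++ [y]) ∨ e ∈ pE (y :: l₂ ++ [z]) := by
  have h1 : Ce (z :: l₁ ++ y :: l₂) = pE (z :: l₁ ++ y :: (l₂ ++ [z])) := by
    rw [List.cons_append, Ce_cons]
    simp
  rw [h1, pE_append, Set.mem_union]
  exact Iff.rfl

end MOT.J
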