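import Pool.Agent.MOT.JtDef

/-!
# MOT/JtD: degrees, shortcut lemma, extension of cocycles (helper63)

`SC`: induction on the path, claim for its end `b`: `Q b → (path inside Q from s to b)` and
`¬ Q b → ∃ p c, R p c ∧ Q p ∧ ¬ Q c ∧ (path inside Q from s to p)`.

`hz_sub`: let `a` be symmetric with the cocycle rule on the triangles of `T₁`.  Put `a0 p q = a p q` if some
`s ∈ T₁` contains `p` and `q`, else `0`, and `a' p q = a0 p q` except `a' x y = a' y x = a0 x z + a0 z y`.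
`a'` has the cocycle rule on `T`: on `s ∈ T₁` it is `a` (`x`, `y` are not both in `s`, degree 1); on `s ∈ T \ T₁`,
`s ≠ {x,y,z}`, it is `0` (`h12`); on `{x,y,z}` by definition (six orders).  Apply `h` and restrict `f`.
-/

open Classical

noncomputable section

namespace MOT.J

variable {V : Type}

theorem TA.symm {T : Finset (Finset V)} {s t : Finset V} (h : TA T s t) : TA T t s :=
  ⟨h.2.1, h.1, by rw [Finset.inter_comm]; exact h.2.2⟩

theorem TA.mono {T T' : Finset (Finset V)} (hT : T ⊆ T') {s t : Finset V} (h : TA T s t) :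
    TA T' s t := ⟨hT h.1, hT h.2.1, h.2.2⟩

theorem InV.mono {T T' : Finset (Finset V)} (hT : T ⊆ T') {x : V} (h : InV T x) : InV T' x := by
  obtain ⟨t, ht, hx⟩ := h
  exact ⟨t, hT ht, hx⟩

theorem dg_mono {T T' : Finset (Finset V)} (hT : T ⊆ T') (e : Finset V) : dg T e ≤ dg T' e :=
  Finset.card_le_card (Finset.filter_subset_filter _ hT)

theorem dg_insert {T : Finset (Finset V)} {t : Finset V} (ht : t ∉ T) (e : Finset V) :
    dg (insert t T) e = dg T e + if e ⊆ t then 1 else 0 := by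
  unfold dg
  rw [Finset.filter_insert]
  split_ifs with h
  · rw [Finset.card_insert_of_notMem (fun h' => ht (Finset.mem_filter.1 h').1)]
  · rw [add_zero]

theorem dg_erase {T : Finset (Finset V)} {t : Finset V} (ht : t ∈ T) (e : Finset V) :
    dg T e = dg (T.erase t) e + if e ⊆ t then 1 else 0 := by
  rw [← dg_insert (Finset.notMem_erase t T) e, Finset.insert_erase ht]

theorem dg_union {T₁ T₂ : Finset (Finset V)} (h : Disjoint T₁ T₂) (e : Finset V) :
    dg (T₁ ∪ T₂) e = dg T₁ e + dg T₂ e := by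
  unfold dg
  rw [Finset.filter_union, Finset.card_union_of_disjoint (Finset.disjoint_filter_filter h)]

theorem dg_pos {T : Finset (Finset V)} {e : Finset V} : 0 < dg T e ↔ ∃ t ∈ T, e ⊆ t := by
  unfold dg
  rw [Finset.card_pos]
  constructor
  · rintro ⟨t, ht⟩
    exact ⟨t, (Finset.mem_filter.1 ht).1, (Finset.mem_filter.1 ht).2⟩
  · rintro ⟨t, ht, he⟩
    exact ⟨t, Finset.mem_filter.2 ⟨ht, he⟩⟩

theorem dg_one {T : Finset (Finset V)} {e s t : Finset V} (h : dg T e ≤ 1) (hs : s ∈ T)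
    (hes : e ⊆ s) (ht : t ∈ T) (het : e ⊆ t) : s = t :=
  Finset.card_le_one.1 h s (Finset.mem_filter.2 ⟨hs, hes⟩) t (Finset.mem_filter.2 ⟨ht, het⟩)

theorem dg_two {T : Finset (Finset V)} {e r s t : Finset V} (h : dg T e ≤ 2) (hr : r ∈ T)
    (her : e ⊆ r) (hs : s ∈ T) (hes : e ⊆ s) (ht : t ∈ T) (het : e ⊆ t) (h1 : r ≠ t)
    (h2 : s ≠ t) : r = s := by
  by_contra h3
  have h4 : 2 < (T.filter (fun t => e ⊆ t)).card := by
    rw [Finset.two_lt_card]
    exact ⟨r, Finset.mem_filter.2 ⟨hr, her⟩, s, Finset.mem_filter.2 ⟨hs, hes⟩, t,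
      Finset.mem_filter.2 ⟨ht, het⟩, h3, h1, h2⟩
  have h5 : (T.filter (fun t => e ⊆ t)).card ≤ 2 := h
  omega

/-- shortcut lemma: all portals of `Q` are connected inside `Q` -/
theorem SC {α : Type} {R : α → α → Prop} (hR : ∀ a b, R a b → R b a) (Q : α → Prop)
    (hQ : ∀ b c b' c', R b c → Q b → ¬ Q c → R b' c' → Q b' → ¬ Q c' →
      Relation.ReflTransGen (fun a b => R a b ∧ Q a ∧ Q b) b b') {s s' : α} (hs : Q s)
    (hs' : Q s') (h : Relation.ReflTransGen R s s') :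
    Relation.ReflTransGen (fun a b => R a b ∧ Q a ∧ Q b) s s' := by
  have key : ∀ b, Relation.ReflTransGen R s b →
      (Q b → Relation.ReflTransGen (fun a b => R a b ∧ Q a ∧ Q b) s b) ∧
      (¬ Q b → ∃ p c, R p c ∧ Q p ∧ ¬ Q c ∧
        Relation.ReflTransGen (fun a b => R a b ∧ Q a ∧ Q b) s p) := by
    intro b hb
    induction hb with
    | refl => exact ⟨fun _ => Relation.ReflTransGen.refl, fun h => absurd hs h⟩
    | @tail b c _ e ih =>
      obtain ⟨ih1, ih2⟩ := ih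
      refine ⟨fun hc => ?_, fun hc => ?_⟩
      · by_cases hb : Q b
        · exact (ih1 hb).tail ⟨e, hb, hc⟩
        · obtain ⟨p, c0, h1, h2, h3, h4⟩ := ih2 hb
          exact h4.trans (hQ p c0 c b h1 h2 h3 (hR _ _ e) hc hb)
      · by_cases hb : Q b
        · exact ⟨b, c, e, hb, hc, ih1 hb⟩
        · exact ih2 hb
  exact (key s' h).1 hs'

private theorem ne3 {p q r : V} (h : ({p, q, r} : Finset V).card = 3) :
    p ≠ q ∧ q ≠ r ∧ p ≠ r := by
  refine ⟨?_, ?_, ?_⟩ <;> rintro rfl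
  · have h1 : ({p, p, r} : Finset V) = {p, r} := by simp
    rw [h1] at h
    have := Finset.card_le_two (a := p) (b := r)
    omega
  · have h1 : ({p, q, q} : Finset V) = {p, q} := by simp
    rw [h1] at h
    have := Finset.card_le_two (a := p) (b := q)
    omega
  · have h1 : ({p, q, p} : Finset V) = {p, q} := by
      ext v
      simp only [Finset.mem_insert, Finset.mem_singleton]
      tauto
    rw [h1] at h
    have := Finset.card_le_two (a := p) (b := q)
    omega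

private theorem two_le_inter {s s' : Finset V} {p q : V} (hne : p ≠ q) (hp : p ∈ s) (hq : q ∈ s)
    (hp' : p ∈ s') (hq' : q ∈ s') : 2 ≤ (s ∩ s').card := by
  have h : 1 < (s ∩ s').card := Finset.one_lt_card.2
    ⟨p, Finset.mem_inter.2 ⟨hp, hp'⟩, q, Finset.mem_inter.2 ⟨hq, hq'⟩, hne⟩
  omega

private theorem z2_cases (A B : ZMod 2) : A + (A + B) = B ∧ (A + B) + B = A ∧ A + B = A + B ∧
    B + (A + B) = A ∧ (A + B) + A = B ∧ B + A = A + B := by
  revert A B; decide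

/-- extension of cocycles from a part `T₁` -/
theorem hz_sub {T T₁ : Finset (Finset V)}
    (h : ∀ a : V → V → ZMod 2, (∀ x y, a x y = a y x) →
      (∀ x y z, ({x, y, z} : Finset V) ∈ T → a x y + a y z = a x z) →
      ∃ f : V → ZMod 2, ∀ t ∈ T, ∀ x ∈ t, ∀ y ∈ t, x ≠ y → a x y = f x + f y)
    (hc : ∀ t ∈ T, t.card = 3) {x y z : V} (hxy : x ≠ y) (hyz : y ≠ z) (hxz : x ≠ z)
    (ht : ({x, y, z} : Finset V) ∈ T) (hd : dg T {x, y} = 1)
    (hs : T₁ ⊆ T.erase {x, y, z})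
    (h12 : ∀ s ∈ T₁, ∀ s' ∈ T.erase {x, y, z}, s' ∉ T₁ → (s ∩ s').card ≤ 1) :
    ∀ a : V → V → ZMod 2, (∀ x y, a x y = a y x) →
      (∀ x y z, ({x, y, z} : Finset V) ∈ T₁ → a x y + a y z = a x z) →
      ∃ f : V → ZMod 2, ∀ t ∈ T₁, ∀ x ∈ t, ∀ y ∈ t, x ≠ y → a x y = f x + f y := by
  intro a ha hcoc
  have hdt : dg T {x, y} ≤ 1 := hd.le
  -- pairs of triangles other than `{x, y, z}`
  have hP : ∀ s ∈ T, s ≠ {x, y, z} → ∀ p ∈ s, ∀ q ∈ s,
      ¬ ((p = x ∧ q = y) ∨ (p = y ∧ q = x)) := by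
    intro s hsT hne p hp q hq hpq
    have hxs : x ∈ s ∧ y ∈ s := by
      rcases hpq with ⟨h1, h2⟩ | ⟨h1, h2⟩
      · exact ⟨h1 ▸ hp, h2 ▸ hq⟩
      · exact ⟨h2 ▸ hq, h1 ▸ hp⟩
    apply hne
    refine dg_one hdt hsT ?_ ht ?_
    · intro v hv
      rw [Finset.mem_insert, Finset.mem_singleton] at hv
      rcases hv with rfl | rfl
      · exact hxs.1
      · exact hxs.2
    · intro v hv
      rw [Finset.mem_insert, Finset.mem_singleton] at hv
      rcases hv with rfl | rfl <;> simp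
  obtain ⟨a0, ha0⟩ : ∃ a0 : V → V → ZMod 2, a0 = fun p q =>
      if ∃ s ∈ T₁, p ∈ s ∧ q ∈ s then a p q else 0 := ⟨_, rfl⟩
  have ha0s : ∀ p q, a0 p q = a0 q p := by
    intro p q
    rw [ha0]
    have : (∃ s ∈ T₁, p ∈ s ∧ q ∈ s) ↔ ∃ s ∈ T₁, q ∈ s ∧ p ∈ s :=
      ⟨fun ⟨s, h1, h2, h3⟩ => ⟨s, h1, h3, h2⟩, fun ⟨s, h1, h2, h3⟩ => ⟨s, h1, h3, h2⟩⟩
    by_cases h1 : ∃ s ∈ T₁, p ∈ s ∧ q ∈ s
    · simp only [if_pos h1, if_pos (this.1 h1), ha p q]
    · simp only [if_neg h1, if_neg (fun h2 => h1 (this.2 h2))]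
  obtain ⟨a', ha'⟩ : ∃ a' : V → V → ZMod 2, a' = fun p q =>
      if (p = x ∧ q = y) ∨ (p = y ∧ q = x) then a0 x z + a0 z y else a0 p q := ⟨_, rfl⟩
  have ha's : ∀ p q, a' p q = a' q p := by
    intro p q
    rw [ha']
    by_cases h1 : (p = x ∧ q = y) ∨ (p = y ∧ q = x)
    · have h2 : (q = x ∧ p = y) ∨ (q = y ∧ p = x) := by tauto
      simp only [if_pos h1, if_pos h2]
    · have h2 : ¬ ((q = x ∧ p = y) ∨ (q = y ∧ p = x)) := by tauto
      simp only [if_neg h1, if_neg h2, ha0s p q]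
  have hval : ∀ p q, ¬ ((p = x ∧ q = y) ∨ (p = y ∧ q = x)) → a' p q = a0 p q := by
    intro p q hn
    rw [ha']
    exact if_neg hn
  have hval1 : ∀ s ∈ T₁, ∀ p ∈ s, ∀ q ∈ s, a' p q = a p q := by
    intro s hs1 p hp q hq
    have h1 := Finset.mem_erase.1 (hs hs1)
    rw [hval p q (hP s h1.2 h1.1 p hp q hq), ha0]
    exact if_pos ⟨s, hs1, hp, hq⟩
  have hval0 : ∀ s ∈ T, s ≠ {x, y, z} → s ∉ T₁ → ∀ p ∈ s, ∀ q ∈ s, p ≠ q → a' p q = 0 := by
    intro s hsT hne hs1 p hp q hq hpq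
    rw [hval p q (hP s hsT hne p hp q hq), ha0]
    refine if_neg ?_
    rintro ⟨s1, h1, h2, h3⟩
    have h4 := h12 s1 h1 s (Finset.mem_erase.2 ⟨hne, hsT⟩) hs1
    have h5 := two_le_inter hpq h2 h3 hp hq
    omega
  have exy : a' x y = a0 x z + a0 z y := by
    rw [ha']; exact if_pos (Or.inl ⟨rfl, rfl⟩)
  have exz : a' x z = a0 x z := hval x z (by
    rintro (⟨-, h1⟩ | ⟨h1, -⟩)
    · exact hyz h1.symm
    · exact hxy h1)
  have ezy : a' z y = a0 z y := hval z y (by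
    rintro (⟨h1, -⟩ | ⟨h1, -⟩)
    · exact hxz h1.symm
    · exact hyz h1.symm)
  obtain ⟨f, hf⟩ := h a' ha's (by
    intro p q r hpqr
    obtain ⟨n1, n2, n3⟩ := ne3 (hc _ hpqr)
    have mp : p ∈ ({p, q, r} : Finset V) := by simp
    have mq : q ∈ ({p, q, r} : Finset V) := by simp
    have mr : r ∈ ({p, q, r} : Finset V) := by simp
    by_cases h1 : ({p, q, r} : Finset V) = {x, y, z}
    · rw [h1] at mp mq mr
      simp only [Finset.mem_insert, Finset.mem_singleton] at mp mq mr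
      have eyx : a' y x = a0 x z + a0 z y := by rw [ha's]; exact exy
      have ezx : a' z x = a0 x z := by rw [ha's]; exact exz
      have eyz : a' y z = a0 z y := by rw [ha's]; exact ezy
      obtain ⟨c1, c2, c3, c4, c5, c6⟩ := z2_cases (a0 x z) (a0 z y)
      rcases mp with rfl | rfl | rfl <;> rcases mq with rfl | rfl | rfl <;>
        rcases mr with rfl | rfl | rfl <;>
        first
          | exact absurd rfl n1
          | exact absurd rfl n2
          | exact absurd rfl n3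
          | (simp only [exy, exz, ezy, eyx, ezx, eyz]; assumption)
          | (simp only [exy, exz, ezy, eyx, ezx, eyz])
    · by_cases h2 : ({p, q, r} : Finset V) ∈ T₁
      · rw [hval1 _ h2 p mp q mq, hval1 _ h2 q mq r mr, hval1 _ h2 p mp r mr]
        exact hcoc p q r h2
      · rw [hval0 _ hpqr h1 h2 p mp q mq n1, hval0 _ hpqr h1 h2 q mq r mr n2,
          hval0 _ hpqr h1 h2 p mp r mr n3, add_zero])
  refine ⟨f, fun t ht1 p hp q hq hpq => ?_⟩
  rw [← hval1 t ht1 p hp q hq]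
  exact hf t (Finset.mem_of_mem_erase (hs ht1)) p hp q hq hpq

end MOT.J
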