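import Pool.Agent.MOT.PlC

/-!
# MOT/JtDef: definitions for the 2-dimensional classification

`Dl s`: closed simplex in `V → ℝ` spanned by the finite set `s`;  `ReT T`: union of simplices;
`Pa l`: polygonal path with vertices `l`;  `Pg l`: closed polygon with vertices `l`.
`Sh T l`: the triangle complex `T` is built up by attaching triangles, its boundary polygon is `l`.
`Dsc T`: `T` is homologically a disc (connected surface with boundary, `H^1 = 0`).
-/

open Classical

noncomputable section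

namespace MOT.J

variable {V : Type}

/-- closed simplex spanned by `s` -/
def Dl (s : Finset V) : Set (V → ℝ) :=
  {c | (∀ v, 0 ≤ c v) ∧ ∑ v ∈ s, c v = 1 ∧ ∀ v, v ∉ s → c v = 0}

/-- the vertex `x` as a point -/
def dl (x : V) : V → ℝ := fun v => if v = x then 1 else 0

/-- union of the simplices of `T` -/
def ReT (T : Finset (Finset V)) : Set (V → ℝ) := {c | ∃ t ∈ T, c ∈ Dl t}

/-- polygonal path -/
def Pa : List V → Set (V → ℝ)
  | [] => ∅
  | [x] => {dl x}
  | x :: y :: l => Dl {x, y} ∪ Pa (y :: l)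

/-- closed polygon -/
def Pg : List V → Set (V → ℝ)
  | [] => ∅
  | x :: l => Pa (x :: l ++ [x])

/-- `x` is a vertex of `T` -/
def InV (T : Finset (Finset V)) (x : V) : Prop := ∃ t ∈ T, x ∈ t

/-- triangle complexes built up step by step; the list is the boundary polygon -/
inductive Sh : Finset (Finset V) → List V → Prop
  /-- one triangle -/
  | tri (x y z : V) : x ≠ y → y ≠ z → x ≠ z → Sh {{x, y, z}} [x, y, z]
  /-- rotation of the boundary -/
  | rot (T : Finset (Finset V)) (x : V) (l : List V) : Sh T (x :: l) → Sh T (l ++ [x])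
  /-- reversal of the boundary -/
  | rev (T : Finset (Finset V)) (l : List V) : Sh T l → Sh T l.reverse
  /-- a triangle attached along two edges `xz`, `zy` -/
  | two (T : Finset (Finset V)) (x z y : V) (l : List V) : Sh T (x :: z :: y :: l) → l ≠ [] →
      (∀ t ∈ T, ¬ (x ∈ t ∧ y ∈ t)) → Sh (insert {x, y, z} T) (x :: y :: l)
  /-- a triangle attached along one edge `xz`, with a new vertex `y` -/
  | one (T : Finset (Finset V)) (x z y : V) (l : List V) : Sh T (x :: z :: l) →
      ¬ InV T y → Sh (insert {x, y, z} T) (x :: y :: z :: l)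
  /-- two complexes glued along one edge `yz` -/
  | glue (T₁ T₂ : Finset (Finset V)) (y z : V) (l₁ l₂ : List V) : Sh T₁ (y :: z :: l₁) →
      Sh T₂ (z :: y :: l₂) → (∀ v, InV T₁ v → InV T₂ v → v = y ∨ v = z) →
      Sh (T₁ ∪ T₂) (z :: l₁ ++ y :: l₂)

/-- adjacent triangles -/
def TA (T : Finset (Finset V)) (s t : Finset V) : Prop := s ∈ T ∧ t ∈ T ∧ 2 ≤ (s ∩ t).card

/-- number of triangles which contain `e` -/
def dg (T : Finset (Finset V)) (e : Finset V) : ℕ := (T.filter (fun t => e ⊆ t)).card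

/-- the triangle complex `T` is a disc in the sense of homology -/
structure Dsc (T : Finset (Finset V)) : Prop where
  card : ∀ t ∈ T, t.card = 3
  deg : ∀ e : Finset V, e.card = 2 → dg T e ≤ 2
  lk : ∀ x, ∀ s ∈ T, ∀ t ∈ T, x ∈ s → x ∈ t →
    Relation.ReflTransGen (fun a b => TA T a b ∧ x ∈ a ∧ x ∈ b) s t
  conn : ∀ s ∈ T, ∀ t ∈ T, Relation.ReflTransGen (TA T) s t
  hz : ∀ a : V → V → ZMod 2, (∀ x y, a x y = a y x) →
    (∀ x y z, ({x, y, z} : Finset V) ∈ T → a x y + a y z = a x z) →
    ∃ f : V → ZMod 2, ∀ t ∈ T, ∀ x ∈ t, ∀ y ∈ t, x ≠ y → a x y = f x + f y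
  bd : ∃ e : Finset V, e.card = 2 ∧ dg T e = 1

/-- consecutive pairs of a closed polygon (as sets) -/
def Ce : List V → Set (Finset V)
  | [] => ∅
  | x :: l => {e | ∃ (l₁ l₂ : List V) (u v : V), x :: l ++ [x] = l₁ ++ u :: v :: l₂ ∧ e = {u, v}}

end MOT.J
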