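import Pool.Agent.MOT.JtF

/-!
# MOT/JtG: splitting of a homological disc at a pinched vertex (helper63)

`Dsc.split`: `P s := ReflTransGen (around z in T.erase t) t₁ s`; `a p q = 1` iff (`p = z` or `q = z`, and some `s`
with `P s` contains `p`, `q`) or `{p, q} = {x, y}`.  Cocycle rule: on `s ∈ T.erase t` with `z ∈ s`: all edges of `s` at `z`
are `1` if `P s`, `0` if not (a common edge at `z` with a triangle of `P` gives `P s`); on `t`: `a z x = 1`, `a z y = 0`
(else `P t₂`, as a triangle with `P` which contains `{y,z}` is `t₂` by `dg_two`), `a x y = 1`.  `h.hz` gives `f`.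
`T₁ := {s ∈ T.erase t | ∀ v ∈ s, v ≠ z → f v = f z + 1}`, `T₂` the same with `f v = f z`.
`T₁`, `T₂` disjoint: every `s` has a vertex `v ≠ z`.  `T₁ ∪ T₂`: `f` is constant on the vertices `v ≠ z` of `s`.
Around `z` in `T₁`: `s ∈ T₁`, `z ∈ s` gives `P s` (else `a z v = 0` for `v ∈ s`); all triangles of the path from `t₁` to `s`
have `P`, so they are in `T₁`.  Around `z` in `T₂`: `h.lk` and `SC` with `Q a := a ∈ T₂`; portals: `c ∈ T₁` is impossible
(common vertex `v ≠ z`), so `c = t`, and `b ∩ t` is `{y,z}` (`{x,z}` would give `b = t₁` by `dg_two`), `b = t₂`.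
-/

open Classical

noncomputable section

namespace MOT.J

variable {V : Type}

private theorem z2self (u : ZMod 2) : u + u = 0 := by decide +revert

private theorem z2alt (u w : ZMod 2) (h : u ≠ w + 1) : u = w := by decide +revert

private theorem z2ne (u : ZMod 2) : u ≠ u + 1 := by decide +revert

private theorem pair_sub {s : Finset V} {p q : V} (hp : p ∈ s) (hq : q ∈ s) :
    ({p, q} : Finset V) ⊆ s := by
  intro v hv
  rw [Finset.mem_insert, Finset.mem_singleton] at hv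
  rcases hv with rfl | rfl
  · exact hp
  · exact hq

private theorem two_le_inter {s s' : Finset V} {p q : V} (hpq : p ≠ q) (h1 : p ∈ s) (h2 : q ∈ s)
    (h1' : p ∈ s') (h2' : q ∈ s') : 2 ≤ (s ∩ s').card := by
  rw [← Finset.card_pair hpq]
  exact Finset.card_le_card (pair_sub (Finset.mem_inter.2 ⟨h1, h1'⟩)
    (Finset.mem_inter.2 ⟨h2, h2'⟩))

private theorem distinct3 {p q r : V} (h : ({p, q, r} : Finset V).card = 3) :
    p ≠ q ∧ q ≠ r ∧ p ≠ r := by
  refine ⟨?_, ?_, ?_⟩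
  · rintro rfl
    have : ({p, p, r} : Finset V) = {p, r} := by simp
    rw [this] at h
    have := Finset.card_le_two (a := p) (b := r)
    omega
  · rintro rfl
    have : ({p, q, q} : Finset V) = {p, q} := by simp
    rw [this] at h
    have := Finset.card_le_two (a := p) (b := q)
    omega
  · rintro rfl
    have : ({p, q, p} : Finset V) = {p, q} := by
      ext v; simp only [Finset.mem_insert, Finset.mem_singleton]; tauto
    rw [this] at h
    have := Finset.card_le_two (a := p) (b := q)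
    omega

/-- one edge of degree 1, the rest is not connected around `z` -/
theorem Dsc.split {T : Finset (Finset V)} (h : Dsc T) {x y z : V} (hxy : x ≠ y) (hyz : y ≠ z)
    (hxz : x ≠ z) (ht : ({x, y, z} : Finset V) ∈ T) (hd : dg T {x, y} = 1)
    {t₁ t₂ : Finset V} (h1 : t₁ ∈ T.erase {x, y, z}) (h1x : x ∈ t₁) (h1z : z ∈ t₁)
    (h2 : t₂ ∈ T.erase {x, y, z}) (h2y : y ∈ t₂) (h2z : z ∈ t₂)
    (hc : ¬ Relation.ReflTransGen (Ar (T.erase {x, y, z}) z) t₁ t₂) :
    ∃ T₁ T₂ : Finset (Finset V), T₁ ∪ T₂ = T.erase {x, y, z} ∧ Disjoint T₁ T₂ ∧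
      t₁ ∈ T₁ ∧ t₂ ∈ T₂ ∧ (∀ v, InV T₁ v → InV T₂ v → v = z) ∧
      (∀ s ∈ T₁, ∀ s' ∈ T₁, z ∈ s → z ∈ s' → Relation.ReflTransGen (Ar T₁ z) s s') ∧
      (∀ s ∈ T₂, ∀ s' ∈ T₂, z ∈ s → z ∈ s' → Relation.ReflTransGen (Ar T₂ z) s s') := by
  set t : Finset V := {x, y, z} with htdef
  set T' := T.erase t with hT'def
  have hxt : x ∈ t := by rw [htdef]; simp
  have hyt : y ∈ t := by rw [htdef]; simp
  have hzt : z ∈ t := by rw [htdef]; simp
  have hT' : ∀ s ∈ T', s ∈ T ∧ s ≠ t := fun s hs =>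
    ⟨Finset.mem_of_mem_erase hs, Finset.ne_of_mem_erase hs⟩
  have hnxy : ∀ s ∈ T', x ∈ s → y ∈ s → False := by
    intro s hs hx hy
    exact (hT' s hs).2 (dg_one hd.le (hT' s hs).1 (pair_sub hx hy) ht (pair_sub hxt hyt))
  -- the component of `t₁` around `z`
  have hPm : ∀ s, Relation.ReflTransGen (Ar T' z) t₁ s → s ∈ T' ∧ z ∈ s := by
    intro s hs
    induction hs with
    | refl => exact ⟨h1, h1z⟩
    | tail _ e _ => exact ⟨e.1.2.1, e.2.2⟩
  have hstep : ∀ s, Relation.ReflTransGen (Ar T' z) t₁ s → ∀ s' ∈ T', z ∈ s' → ∀ v ∈ s,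
      v ∈ s' → v ≠ z → Relation.ReflTransGen (Ar T' z) t₁ s' := by
    intro s hP s' hs' hz' v hv hv' hne
    obtain ⟨hs, hz⟩ := hPm s hP
    exact hP.tail ⟨⟨hs, hs', two_le_inter (Ne.symm hne) hz hv hz' hv'⟩, hz, hz'⟩
  let P : Finset V → Prop := fun s => Relation.ReflTransGen (Ar T' z) t₁ s
  have hP1 : P t₁ := Relation.ReflTransGen.refl
  have hP2 : ¬ P t₂ := hc
  obtain ⟨a, ha⟩ : ∃ a : V → V → ZMod 2, a = fun p q =>
      if ((p = z ∨ q = z) ∧ ∃ s, P s ∧ p ∈ s ∧ q ∈ s) ∨ (p = x ∧ q = y) ∨ (p = y ∧ q = x)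
        then 1 else 0 := ⟨_, rfl⟩
  have asymm : ∀ p q, a p q = a q p := by
    intro p q
    rw [ha]
    have : (((p = z ∨ q = z) ∧ ∃ s, P s ∧ p ∈ s ∧ q ∈ s) ∨ (p = x ∧ q = y) ∨ (p = y ∧ q = x)) ↔
        (((q = z ∨ p = z) ∧ ∃ s, P s ∧ q ∈ s ∧ p ∈ s) ∨ (q = x ∧ p = y) ∨ (q = y ∧ p = x)) := by
      constructor
      · rintro (⟨h1, s, h2, h3, h4⟩ | ⟨h1, h2⟩ | ⟨h1, h2⟩)
        · exact Or.inl ⟨h1.symm, s, h2, h4, h3⟩
        · exact Or.inr (Or.inr ⟨h2, h1⟩)
        · exact Or.inr (Or.inl ⟨h2, h1⟩)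
      · rintro (⟨h1, s, h2, h3, h4⟩ | ⟨h1, h2⟩ | ⟨h1, h2⟩)
        · exact Or.inl ⟨h1.symm, s, h2, h4, h3⟩
        · exact Or.inr (Or.inr ⟨h2, h1⟩)
        · exact Or.inr (Or.inl ⟨h2, h1⟩)
    simp only [this]
  have az : ∀ s ∈ T', z ∈ s → ∀ v ∈ s, v ≠ z → a z v = if P s then 1 else 0 := by
    intro s hs hz v hv hne
    rw [ha]
    have : (((z = z ∨ v = z) ∧ ∃ s, P s ∧ z ∈ s ∧ v ∈ s) ∨ (z = x ∧ v = y) ∨ (z = y ∧ v = x)) ↔
        P s := by
      constructor
      · rintro (⟨-, s', h2, h3, h4⟩ | ⟨h1, h2⟩ | ⟨h1, h2⟩)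
        · exact hstep s' h2 s hs hz v h4 hv hne
        · exact absurd h1.symm hxz
        · exact absurd h1.symm hyz
      · intro hp
        exact Or.inl ⟨Or.inl rfl, s, hp, hz, hv⟩
    by_cases hp : P s
    · rw [if_pos hp]
      exact if_pos (this.2 hp)
    · rw [if_neg hp]
      exact if_neg (mt this.1 hp)
  have a0 : ∀ s ∈ T', ∀ p ∈ s, ∀ q ∈ s, p ≠ z → q ≠ z → a p q = 0 := by
    intro s hs p hp q hq hpz hqz
    rw [ha]
    refine if_neg ?_
    rintro (⟨h1, -⟩ | ⟨h1, h2⟩ | ⟨h1, h2⟩)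
    · rcases h1 with h1 | h1
      · exact hpz h1
      · exact hqz h1
    · exact hnxy s hs (h1 ▸ hp) (h2 ▸ hq)
    · exact hnxy s hs (h2 ▸ hq) (h1 ▸ hp)
  -- values on `t`
  have v1 : a x y = 1 := by rw [ha]; exact if_pos (Or.inr (Or.inl ⟨rfl, rfl⟩))
  have v2 : a y x = 1 := by rw [asymm, v1]
  have v3 : a z x = 1 := by
    rw [az t₁ h1 h1z x h1x hxz, if_pos hP1]
  have v4 : a x z = 1 := by rw [asymm, v3]
  have v5 : a z y = 0 := by
    rw [az t₂ h2 h2z y h2y hyz, if_neg hP2]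
  have v6 : a y z = 0 := by rw [asymm, v5]
  have cocy : ∀ p q r, ({p, q, r} : Finset V) ∈ T → a p q + a q r = a p r := by
    intro p q r hs
    obtain ⟨hpq, hqr, hpr⟩ := distinct3 (h.card _ hs)
    have hp' : p ∈ ({p, q, r} : Finset V) := by simp
    have hq' : q ∈ ({p, q, r} : Finset V) := by simp
    have hr' : r ∈ ({p, q, r} : Finset V) := by simp
    by_cases hst : ({p, q, r} : Finset V) = t
    · have hp : p = x ∨ p = y ∨ p = z := by
        have : p ∈ t := hst ▸ hp'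
        simpa [htdef] using this
      have hq : q = x ∨ q = y ∨ q = z := by
        have : q ∈ t := hst ▸ hq'
        simpa [htdef] using this
      have hr : r = x ∨ r = y ∨ r = z := by
        have : r ∈ t := hst ▸ hr'
        simpa [htdef] using this
      rcases hp with e1 | e1 | e1 <;> rcases hq with e2 | e2 | e2 <;>
        rcases hr with e3 | e3 | e3 <;>
        first
        | exact absurd (e1.trans e2.symm) hpq
        | exact absurd (e2.trans e3.symm) hqr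
        | exact absurd (e1.trans e3.symm) hpr
        | (rw [e1, e2, e3]; simp only [v1, v2, v3, v4, v5, v6]; rfl)
    · have hs' : ({p, q, r} : Finset V) ∈ T' := Finset.mem_erase.2 ⟨hst, hs⟩
      by_cases e1 : p = z
      · have hz : z ∈ ({p, q, r} : Finset V) := e1 ▸ hp'
        have hqz : q ≠ z := fun h => hpq (e1.trans h.symm)
        have hrz : r ≠ z := fun h => hpr (e1.trans h.symm)
        have w1 := az _ hs' hz q hq' hqz
        have w2 := az _ hs' hz r hr' hrz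
        have w3 := a0 _ hs' q hq' r hr' hqz hrz
        have g1 : a p q = a z q := by rw [e1]
        have g2 : a p r = a z r := by rw [e1]
        rw [g1, g2, w1, w2, w3, add_zero]
      · by_cases e2 : q = z
        · have hz : z ∈ ({p, q, r} : Finset V) := e2 ▸ hq'
          have hrz : r ≠ z := fun h => hqr (e2.trans h.symm)
          have w1 := az _ hs' hz p hp' e1
          have w2 := az _ hs' hz r hr' hrz
          have w3 := a0 _ hs' p hp' r hr' e1 hrz
          have g1 : a p q = a z p := by rw [e2, asymm]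
          have g2 : a q r = a z r := by rw [e2]
          rw [g1, g2, w1, w2, w3]
          exact z2self _
        · by_cases e3 : r = z
          · have hz : z ∈ ({p, q, r} : Finset V) := e3 ▸ hr'
            have w1 := az _ hs' hz p hp' e1
            have w2 := az _ hs' hz q hq' e2
            have w3 := a0 _ hs' p hp' q hq' e1 e2
            have g1 : a q r = a z q := by rw [e3, asymm]
            have g2 : a p r = a z p := by rw [e3, asymm]
            rw [g1, g2, w1, w2, w3, zero_add]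
          · rw [a0 _ hs' p hp' q hq' e1 e2, a0 _ hs' q hq' r hr' e2 e3,
              a0 _ hs' p hp' r hr' e1 e3, add_zero]
  obtain ⟨f, hf⟩ := h.hz a asymm cocy
  have f1 : ∀ s ∈ T', z ∈ s → P s → ∀ v ∈ s, v ≠ z → f v = f z + 1 := by
    intro s hs hz hP v hv hne
    have e1 := hf s (hT' s hs).1 z hz v hv (Ne.symm hne)
    rw [az s hs hz v hv hne, if_pos hP] at e1
    linear_combination - e1 - z2self (f z)
  have f2 : ∀ s ∈ T', z ∈ s → ¬ P s → ∀ v ∈ s, v ≠ z → f v = f z := by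
    intro s hs hz hP v hv hne
    have e1 := hf s (hT' s hs).1 z hz v hv (Ne.symm hne)
    rw [az s hs hz v hv hne, if_neg hP] at e1
    linear_combination - e1 - z2self (f z)
  have f3 : ∀ s ∈ T', ∀ v ∈ s, ∀ w ∈ s, v ≠ z → w ≠ z → f v = f w := by
    intro s hs v hv w hw hvz hwz
    by_cases e : v = w
    · rw [e]
    · have e1 := hf s (hT' s hs).1 v hv w hw e
      rw [a0 s hs v hv w hw hvz hwz] at e1
      linear_combination - e1 - z2self (f w)
  have hex : ∀ s ∈ T', ∃ v ∈ s, v ≠ z := by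
    intro s hs
    have hc3 := h.card s (hT' s hs).1
    exact Finset.exists_mem_ne (by omega) z
  obtain ⟨T₁, hT₁⟩ : ∃ T₁ : Finset (Finset V), T₁ = T'.filter
    (fun s => ∀ v ∈ s, v ≠ z → f v = f z + 1) := ⟨_, rfl⟩
  obtain ⟨T₂, hT₂⟩ : ∃ T₂ : Finset (Finset V), T₂ = T'.filter
    (fun s => ∀ v ∈ s, v ≠ z → f v = f z) := ⟨_, rfl⟩
  have m1 : ∀ s, s ∈ T₁ ↔ s ∈ T' ∧ ∀ v ∈ s, v ≠ z → f v = f z + 1 := by
    intro s; rw [hT₁, Finset.mem_filter]
  have m2 : ∀ s, s ∈ T₂ ↔ s ∈ T' ∧ ∀ v ∈ s, v ≠ z → f v = f z := by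
    intro s; rw [hT₂, Finset.mem_filter]
  have hdis : ∀ s ∈ T₁, ∀ s' ∈ T₂, ∀ v ∈ s, v ∈ s' → v = z := by
    intro s hs s' hs' v hv hv'
    by_contra hne
    have e1 := ((m1 s).1 hs).2 v hv hne
    have e2 := ((m2 s').1 hs').2 v hv' hne
    exact z2ne (f z) (e2.symm.trans e1)
  have hun : ∀ s ∈ T', s ∈ T₁ ∨ s ∈ T₂ := by
    intro s hs
    obtain ⟨v, hv, hvz⟩ := hex s hs
    by_cases e : f v = f z + 1
    · left
      exact (m1 s).2 ⟨hs, fun w hw hwz => (f3 s hs w hw v hv hwz hvz).trans e⟩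
    · right
      exact (m2 s).2 ⟨hs, fun w hw hwz => (f3 s hs w hw v hv hwz hvz).trans (z2alt _ _ e)⟩
  have ht₁ : t₁ ∈ T₁ := (m1 t₁).2 ⟨h1, f1 t₁ h1 h1z hP1⟩
  have ht₂ : t₂ ∈ T₂ := (m2 t₂).2 ⟨h2, f2 t₂ h2 h2z hP2⟩
  refine ⟨T₁, T₂, ?_, ?_, ht₁, ht₂, ?_, ?_, ?_⟩
  · ext s
    rw [Finset.mem_union]
    constructor
    · rintro (hs | hs)
      · exact ((m1 s).1 hs).1
      · exact ((m2 s).1 hs).1
    · exact hun s
  · rw [Finset.disjoint_left]
    intro s hs hs'
    obtain ⟨v, hv, hvz⟩ := hex s ((m1 s).1 hs).1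
    exact hvz (hdis s hs s hs' v hv hv)
  · rintro v ⟨s, hs, hv⟩ ⟨s', hs', hv'⟩
    exact hdis s hs s' hs' v hv hv'
  · have key : ∀ s, P s → Relation.ReflTransGen (Ar T₁ z) t₁ s := by
      have hin : ∀ s, P s → s ∈ T₁ := by
        intro s hs
        obtain ⟨hs1, hs2⟩ := hPm s hs
        exact (m1 s).2 ⟨hs1, f1 s hs1 hs2 hs⟩
      intro s hs
      induction hs with
      | refl => exact Relation.ReflTransGen.refl
      | tail hab e ih =>
        refine ih.tail ⟨⟨hin _ hab, hin _ (hab.tail e), e.1.2.2⟩, e.2.1, e.2.2⟩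
    have hPs : ∀ s ∈ T₁, z ∈ s → P s := by
      intro s hs hz
      by_contra hn
      obtain ⟨v, hv, hvz⟩ := hex s ((m1 s).1 hs).1
      have e1 := ((m1 s).1 hs).2 v hv hvz
      have e2 := f2 s ((m1 s).1 hs).1 hz hn v hv hvz
      exact z2ne (f z) (e2.symm.trans e1)
    have hsym : ∀ s s', Relation.ReflTransGen (Ar T₁ z) s s' →
        Relation.ReflTransGen (Ar T₁ z) s' s := by
      intro s s' hs
      induction hs with
      | refl => exact Relation.ReflTransGen.refl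
      | tail _ e ih => exact Relation.ReflTransGen.head ⟨e.1.symm, e.2.2, e.2.1⟩ ih
    intro s hs s' hs' hz hz'
    exact (hsym _ _ (key s (hPs s hs hz))).trans (key s' (hPs s' hs' hz'))
  · intro s hs s' hs' hz hz'
    have hR : ∀ a b, (TA T a b ∧ z ∈ a ∧ z ∈ b) → (TA T b a ∧ z ∈ b ∧ z ∈ a) :=
      fun a b e => ⟨e.1.symm, e.2.2, e.2.1⟩
    have hport : ∀ b c, (TA T b c ∧ z ∈ b ∧ z ∈ c) → b ∈ T₂ → ¬ c ∈ T₂ → b = t₂ := by
      intro b c e hb hcn
      have hb' := ((m2 b).1 hb).1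
      have hcT := e.1.2.1
      by_cases hct : c = t
      · have hcard := e.1.2.2
        have hex2 : ∃ v ∈ b ∩ c, v ≠ z := Finset.exists_mem_ne (by omega) z
        obtain ⟨v, hv, hvz⟩ := hex2
        obtain ⟨hvb, hvc⟩ := Finset.mem_inter.1 hv
        rw [hct] at hvc
        have hv3 : v = x ∨ v = y ∨ v = z := by simpa [htdef] using hvc
        rcases hv3 with rfl | rfl | rfl
        · exfalso
          have hb1 : b = t₁ := dg_two (h.deg {v, z} (Finset.card_pair hxz)) (hT' b hb').1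
            (pair_sub hvb e.2.1) (hT' t₁ h1).1 (pair_sub h1x h1z) ht (pair_sub hxt hzt)
            (hT' b hb').2 (hT' t₁ h1).2
          exact hvz (hdis t₁ ht₁ t₁ (hb1 ▸ hb) v h1x h1x)
        · exact dg_two (h.deg {v, z} (Finset.card_pair hyz)) (hT' b hb').1
            (pair_sub hvb e.2.1) (hT' t₂ h2).1 (pair_sub h2y h2z) ht (pair_sub hyt hzt)
            (hT' b hb').2 (hT' t₂ h2).2
        · exact absurd rfl hvz
      · exfalso
        have hc' : c ∈ T' := Finset.mem_erase.2 ⟨hct, hcT⟩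
        have hc1 : c ∈ T₁ := (hun c hc').resolve_right hcn
        have hcard := e.1.2.2
        have hex2 : ∃ v ∈ b ∩ c, v ≠ z := Finset.exists_mem_ne (by omega) z
        obtain ⟨v, hv, hvz⟩ := hex2
        obtain ⟨hvb, hvc⟩ := Finset.mem_inter.1 hv
        exact hvz (hdis c hc1 b hb v hvc hvb)
    have hsc := SC (R := fun a b => TA T a b ∧ z ∈ a ∧ z ∈ b) hR (fun a => a ∈ T₂)
      (by
        intro b c b' c' r1 q1 n1 r2 q2 n2
        rw [hport b c r1 q1 n1, hport b' c' r2 q2 n2])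
      hs hs' (h.lk z s (hT' s ((m2 s).1 hs).1).1 s' (hT' s' ((m2 s').1 hs').1).1 hz hz')
    refine Relation.ReflTransGen.mono (p := fun a b => Ar T₂ z a b) ?_ s s' hsc
    rintro a b ⟨⟨e1, e2, e3⟩, q1, q2⟩
    exact ⟨⟨q1, q2, e1.2.2⟩, e2, e3⟩

end MOT.J
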