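import Pool.Agent.MOT.JtC
import Pool.Agent.MOT.JtG

/-!
# MOT/JtE: every homological disc is built up step by step (helper63)
-/

open Classical

noncomputable section

namespace MOT.J

variable {V : Type}

private theorem exists_third {t : Finset V} (ht : t.card = 3) {x y : V} (hxy : x ≠ y)
    (hx : x ∈ t) (hy : y ∈ t) : ∃ z, y ≠ z ∧ x ≠ z ∧ t = {x, y, z} := by
  have h1 : ((t.erase x).erase y).card = 1 := by
    rw [Finset.card_erase_of_mem (Finset.mem_erase.2 ⟨hxy.symm, hy⟩),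
      Finset.card_erase_of_mem hx, ht]
  obtain ⟨z, hz⟩ := Finset.card_eq_one.1 h1
  have hz' : z ∈ (t.erase x).erase y := by rw [hz]; exact Finset.mem_singleton_self z
  rw [Finset.mem_erase, Finset.mem_erase] at hz'
  refine ⟨z, Ne.symm hz'.1, Ne.symm hz'.2.1, ?_⟩
  ext v
  simp only [Finset.mem_insert, Finset.mem_singleton]
  constructor
  · intro hv
    by_cases h2 : v = x
    · exact Or.inl h2
    by_cases h3 : v = y
    · exact Or.inr (Or.inl h3)
    have : v ∈ (t.erase x).erase y := Finset.mem_erase.2 ⟨h3, Finset.mem_erase.2 ⟨h2, hv⟩⟩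
    rw [hz, Finset.mem_singleton] at this
    exact Or.inr (Or.inr this)
  · rintro (rfl | rfl | rfl)
    exacts [hx, hy, hz'.2.2]

private theorem edge_of_tri {x y z : V} {e : Finset V} (he : e.card = 2)
    (h : e ⊆ {x, y, z}) : e = {x, y} ∨ e = {y, z} ∨ e = {x, z} := by
  obtain ⟨u, v, huv, rfl⟩ := Finset.card_eq_two.1 he
  have hu := h (Finset.mem_insert_self u {v})
  have hv := h (Finset.mem_insert_of_mem (Finset.mem_singleton_self v))
  simp only [Finset.mem_insert, Finset.mem_singleton] at hu hv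
  rcases hu with rfl | rfl | rfl <;> rcases hv with rfl | rfl | rfl
  · exact absurd rfl huv
  · exact Or.inl rfl
  · exact Or.inr (Or.inr rfl)
  · exact Or.inl (Finset.pair_comm _ _)
  · exact absurd rfl huv
  · exact Or.inr (Or.inl rfl)
  · exact Or.inr (Or.inr (Finset.pair_comm _ _))
  · exact Or.inr (Or.inl (Finset.pair_comm _ _))
  · exact absurd rfl huv

private theorem sub_xy {x y z : V} : ({x, y} : Finset V) ⊆ {x, y, z} := by
  intro v hv
  simp only [Finset.mem_insert, Finset.mem_singleton] at hv ⊢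
  rcases hv with h | h
  exacts [Or.inl h, Or.inr (Or.inl h)]

private theorem sub_yz {x y z : V} : ({y, z} : Finset V) ⊆ {x, y, z} :=
  Finset.subset_insert _ _

private theorem sub_xz {x y z : V} : ({x, z} : Finset V) ⊆ {x, y, z} := by
  intro v hv
  simp only [Finset.mem_insert, Finset.mem_singleton] at hv ⊢
  rcases hv with h | h
  exacts [Or.inl h, Or.inr (Or.inr h)]

private theorem pair_sub {x y : V} {s : Finset V} (hx : x ∈ s) (hy : y ∈ s) :
    ({x, y} : Finset V) ⊆ s := by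
  intro v hv
  simp only [Finset.mem_insert, Finset.mem_singleton] at hv
  rcases hv with rfl | rfl
  exacts [hx, hy]

/-- boundary list -/
def BdL (T : Finset (Finset V)) (l : List V) : Prop :=
  ∀ e, e ∈ Ce l ↔ e.card = 2 ∧ dg T e = 1

private theorem pE_iff {T : Finset (Finset V)} {x z : V} {m : List V} (h : Sh T (x :: z :: m))
    (hb : BdL T (x :: z :: m)) (e : Finset V) :
    e ∈ pE (z :: m ++ [x]) ↔ e.card = 2 ∧ dg T e = 1 ∧ e ≠ {x, z} := by
  constructor
  · intro he
    have h1 := (hb e).1 (mem_Ce2.2 (Or.inr he))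
    refine ⟨h1.1, h1.2, ?_⟩
    rintro rfl
    exact not_mem_pE h he
  · rintro ⟨h1, h2, h3⟩
    exact (mem_Ce2.1 ((hb e).2 ⟨h1, h2⟩)).resolve_left h3

/-- the last triangle -/
private theorem step_tri {x y z : V} (hxy : x ≠ y) (hyz : y ≠ z) (hxz : x ≠ z) :
    ∃ l, Sh ({({x, y, z} : Finset V)} : Finset (Finset V)) l ∧
      BdL ({({x, y, z} : Finset V)} : Finset (Finset V)) l := by
  refine ⟨[x, y, z], Sh.tri x y z hxy hyz hxz, fun e => ?_⟩
  have hd : dg ({({x, y, z} : Finset V)} : Finset (Finset V)) e =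
      if e ⊆ {x, y, z} then 1 else 0 := by
    have := dg_insert (Finset.notMem_empty ({x, y, z} : Finset V)) e
    have h0 : dg (∅ : Finset (Finset V)) e = 0 := by simp [dg]
    rw [h0, zero_add] at this
    exact this
  rw [hd, mem_Ce_one]
  constructor
  · rintro (rfl | rfl | h)
    · exact ⟨Finset.card_pair hxy, if_pos sub_xy⟩
    · exact ⟨Finset.card_pair hyz, if_pos sub_yz⟩
    · rcases h with rfl | h
      · rw [Finset.pair_comm]
        exact ⟨Finset.card_pair hxz, if_pos sub_xz⟩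
      · exact absurd h (Set.notMem_empty e)
  · rintro ⟨h1, h2⟩
    have h3 : e ⊆ {x, y, z} := by
      by_contra h
      rw [if_neg h] at h2
      exact zero_ne_one h2
    rcases edge_of_tri h1 h3 with rfl | rfl | rfl
    · exact Or.inl rfl
    · exact Or.inr (Or.inl rfl)
    · exact Or.inr (Or.inr (Or.inl (Finset.pair_comm _ _)))

/-- step with a leaf -/
private theorem step_one {T : Finset (Finset V)} {x y z : V} (hxy : x ≠ y) (hyz : y ≠ z)
    (hxz : x ≠ z) (ht : ({x, y, z} : Finset V) ∈ T) (hd1 : dg T {x, y} = 1)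
    (hd2 : dg T {y, z} = 1) (hd3 : dg T {x, z} = 2) (hy : ¬ InV (T.erase {x, y, z}) y)
    (ih : ∃ l, Sh (T.erase {x, y, z}) l ∧ BdL (T.erase {x, y, z}) l) :
    ∃ l, Sh T l ∧ BdL T l := by
  obtain ⟨l, hl, hb⟩ := ih
  have e3 := dg_erase ht {x, z}
  rw [if_pos sub_xz, hd3] at e3
  have he : ({x, z} : Finset V) ∈ Ce l := (hb _).2 ⟨Finset.card_pair hxz, by omega⟩
  obtain ⟨m, hm, hc⟩ := Sh_norm hl hxz he
  have hb' : BdL (T.erase {x, y, z}) (x :: z :: m) := fun e => by rw [hc]; exact hb e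
  have h1 := Sh.one _ x z y m hm hy
  rw [Finset.insert_erase ht] at h1
  refine ⟨_, h1, fun e => ?_⟩
  rw [mem_Ce_one, pE_iff hm hb']
  have hde := dg_erase ht e
  constructor
  · rintro (rfl | rfl | ⟨h2, h3, h4⟩)
    · exact ⟨Finset.card_pair hxy, hd1⟩
    · exact ⟨Finset.card_pair hyz, hd2⟩
    · refine ⟨h2, ?_⟩
      by_cases h5 : e ⊆ {x, y, z}
      · rw [if_pos h5] at hde
        rcases edge_of_tri h2 h5 with rfl | rfl | rfl
        · omega
        · omega
        · exact absurd rfl h4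
      · rw [if_neg h5] at hde
        omega
  · rintro ⟨h2, h3⟩
    by_cases h5 : e ⊆ {x, y, z}
    · rcases edge_of_tri h2 h5 with rfl | rfl | rfl
      · exact Or.inl rfl
      · exact Or.inr (Or.inl rfl)
      · omega
    · rw [if_neg h5] at hde
      refine Or.inr (Or.inr ⟨h2, by omega, ?_⟩)
      rintro rfl
      exact h5 sub_xz

/-- step with two edges -/
private theorem step_two {T : Finset (Finset V)} {x y z : V} (hxy : x ≠ y) (hyz : y ≠ z)
    (hxz : x ≠ z) (ht : ({x, y, z} : Finset V) ∈ T) (hd1 : dg T {x, y} = 1)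
    (hd2 : dg T {y, z} = 2) (hd3 : dg T {x, z} = 2)
    (ih : ∃ l, Sh (T.erase {x, y, z}) l ∧ BdL (T.erase {x, y, z}) l) :
    ∃ l, Sh T l ∧ BdL T l := by
  obtain ⟨l, hl, hb⟩ := ih
  have e1 := dg_erase ht {x, y}
  rw [if_pos sub_xy, hd1] at e1
  have e2 := dg_erase ht {y, z}
  rw [if_pos sub_yz, hd2] at e2
  have e3 := dg_erase ht {x, z}
  rw [if_pos sub_xz, hd3] at e3
  have he : ({x, z} : Finset V) ∈ Ce l := (hb _).2 ⟨Finset.card_pair hxz, by omega⟩
  obtain ⟨m, hm, hc⟩ := Sh_norm hl hxz he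
  have hb' : BdL (T.erase {x, y, z}) (x :: z :: m) := fun e => by rw [hc]; exact hb e
  have he2 : ({z, y} : Finset V) ∈ Ce (x :: z :: m) := by
    rw [Finset.pair_comm]
    exact (hb' _).2 ⟨Finset.card_pair hyz, by omega⟩
  obtain ⟨m', rfl⟩ := Sh_next hm hxy hyz.symm he2
  have hne : m' ≠ [] := by
    rintro rfl
    have : ({x, y} : Finset V) ∈ Ce [x, z, y] := by
      rw [mem_Ce_one]
      exact Or.inr (Or.inr (Or.inl (Finset.pair_comm _ _)))
    have := (hb' _).1 this
    omega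
  have hno : ∀ s ∈ T.erase {x, y, z}, ¬ (x ∈ s ∧ y ∈ s) := by
    rintro s hs ⟨hx, hy⟩
    have : 0 < dg (T.erase {x, y, z}) {x, y} := dg_pos.2 ⟨s, hs, pair_sub hx hy⟩
    omega
  have h1 := Sh.two _ x z y m' hm hne hno
  rw [Finset.insert_erase ht] at h1
  refine ⟨_, h1, fun e => ?_⟩
  rw [mem_Ce2]
  have hde := dg_erase ht e
  have key : e ∈ pE (z :: y :: m' ++ [x]) ↔ e = {z, y} ∨ e ∈ pE (y :: m' ++ [x]) := Iff.rfl
  have hp := pE_iff hm hb' e
  constructor
  · rintro (rfl | h)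
    · exact ⟨Finset.card_pair hxy, hd1⟩
    · obtain ⟨h2, h3, h4⟩ := hp.1 (key.2 (Or.inr h))
      have hz := not_mem_pE' hm h
      refine ⟨h2, ?_⟩
      by_cases h5 : e ⊆ {x, y, z}
      · rw [if_pos h5] at hde
        rcases edge_of_tri h2 h5 with rfl | rfl | rfl
        · omega
        · exact absurd (Finset.mem_insert_of_mem (Finset.mem_singleton_self z)) hz
        · exact absurd rfl h4
      · rw [if_neg h5] at hde
        omega
  · rintro ⟨h2, h3⟩
    by_cases h5 : e ⊆ {x, y, z}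
    · rcases edge_of_tri h2 h5 with rfl | rfl | rfl
      · exact Or.inl rfl
      · omega
      · omega
    · rw [if_neg h5] at hde
      right
      have h6 : e ∈ pE (z :: y :: m' ++ [x]) := by
        refine hp.2 ⟨h2, by omega, ?_⟩
        rintro rfl
        exact h5 sub_xz
      refine (key.1 h6).resolve_left ?_
      rintro rfl
      rw [Finset.pair_comm] at h5
      exact h5 sub_yz

/-- step with a split -/
private theorem step_glue {T T₁ T₂ : Finset (Finset V)} {x y z : V} (hxy : x ≠ y)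
    (hyz : y ≠ z) (hxz : x ≠ z) (ht : ({x, y, z} : Finset V) ∈ T) (hd1 : dg T {x, y} = 1)
    (hd2 : dg T {y, z} = 2) (hd3 : dg T {x, z} = 2) (hT : T₁ ∪ T₂ = T.erase {x, y, z})
    (hdis : Disjoint T₁ T₂) {t₁ t₂ : Finset V} (h1 : t₁ ∈ T₁) (h2 : t₂ ∈ T₂) (h1x : x ∈ t₁)
    (h1z : z ∈ t₁) (h2y : y ∈ t₂) (h2z : z ∈ t₂)
    (hv : ∀ v, InV T₁ v → InV T₂ v → v = z)
    (ih1 : ∃ l, Sh T₁ l ∧ BdL T₁ l) (ih2 : ∃ l, Sh T₂ l ∧ BdL T₂ l) :
    ∃ l, Sh T l ∧ BdL T l := by
  obtain ⟨l₁, hl₁, hb₁⟩ := ih1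
  obtain ⟨l₂, hl₂, hb₂⟩ := ih2
  have hde : ∀ e, dg T e = dg T₁ e + dg T₂ e + if e ⊆ {x, y, z} then 1 else 0 := by
    intro e
    rw [dg_erase ht e, ← hT, dg_union hdis]
  have p1 : 0 < dg T₁ {x, z} := dg_pos.2 ⟨t₁, h1, pair_sub h1x h1z⟩
  have p2 : 0 < dg T₂ {y, z} := dg_pos.2 ⟨t₂, h2, pair_sub h2y h2z⟩
  have e1 := hde {x, y}
  rw [if_pos sub_xy, hd1] at e1
  have e2 := hde {y, z}
  rw [if_pos sub_yz, hd2] at e2
  have e3 := hde {x, z}
  rw [if_pos sub_xz, hd3] at e3
  have he1 : ({x, z} : Finset V) ∈ Ce l₁ := (hb₁ _).2 ⟨Finset.card_pair hxz, by omega⟩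
  have he2 : ({z, y} : Finset V) ∈ Ce l₂ := by
    rw [Finset.pair_comm]
    exact (hb₂ _).2 ⟨Finset.card_pair hyz, by omega⟩
  obtain ⟨m₁, hm₁, hc₁⟩ := Sh_norm hl₁ hxz he1
  obtain ⟨m₂, hm₂, hc₂⟩ := Sh_norm hl₂ hyz.symm he2
  have hb₁' : BdL T₁ (x :: z :: m₁) := fun e => by rw [hc₁]; exact hb₁ e
  have hb₂' : BdL T₂ (z :: y :: m₂) := fun e => by rw [hc₂]; exact hb₂ e
  have hy1 : ¬ InV T₁ y := fun h => hyz (hv y h ⟨t₂, h2, h2y⟩)
  have hx2 : ¬ InV T₂ x := fun h => hxz (hv x ⟨t₁, h1, h1x⟩ h)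
  have s1 := Sh.rot _ _ _ (Sh.one _ x z y m₁ hm₁ hy1)
  have s2 := Sh.glue _ T₂ y z (m₁ ++ [x]) m₂ s1 hm₂ (by
    rintro v ⟨s, hs, hvs⟩ hv2
    rcases Finset.mem_insert.1 hs with rfl | hs
    · simp only [Finset.mem_insert, Finset.mem_singleton] at hvs
      rcases hvs with rfl | rfl | rfl
      · exact absurd hv2 hx2
      · exact Or.inl rfl
      · exact Or.inr rfl
    · exact Or.inr (hv v ⟨s, hs, hvs⟩ hv2))
  have hTT : insert ({x, y, z} : Finset V) T₁ ∪ T₂ = T := by
    rw [Finset.insert_union, hT, Finset.insert_erase ht]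
  rw [hTT] at s2
  refine ⟨_, s2, fun e => ?_⟩
  rw [mem_Ce_glue]
  have k1 : e ∈ pE (z :: (m₁ ++ [x]) ++ [y]) ↔ e ∈ pE (z :: m₁ ++ [x]) ∨ e = {x, y} := by
    have : z :: (m₁ ++ [x]) ++ [y] = (z :: m₁) ++ x :: [y] := by simp
    rw [this, pE_append]
    constructor
    · rintro (h | h)
      · exact Or.inl h
      · rcases h with h | h
        · exact Or.inr h
        · exact absurd h (Set.notMem_empty e)
    · rintro (h | h)
      · exact Or.inl h
      · exact Or.inr (Or.inl h)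
  rw [k1, pE_iff hm₁ hb₁', pE_iff hm₂ hb₂']
  have hboth : e.card = 2 → 0 < dg T₁ e → 0 < dg T₂ e → False := by
    intro hc ha hb
    obtain ⟨s, hs, hes⟩ := dg_pos.1 ha
    obtain ⟨s', hs', hes'⟩ := dg_pos.1 hb
    obtain ⟨u, v, huv, rfl⟩ := Finset.card_eq_two.1 hc
    have hu := Finset.mem_insert_self u {v}
    have hv' : v ∈ ({u, v} : Finset V) := Finset.mem_insert_of_mem (Finset.mem_singleton_self v)
    exact huv ((hv u ⟨s, hs, hes hu⟩ ⟨s', hs', hes' hu⟩).trans
      (hv v ⟨s, hs, hes hv'⟩ ⟨s', hs', hes' hv'⟩).symm)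
  have hdT := hde e
  have hy1' : dg T₁ {y, z} = 0 := by
    by_contra h
    obtain ⟨s, hs, hes⟩ := dg_pos.1 (Nat.pos_of_ne_zero h)
    exact hy1 ⟨s, hs, hes (Finset.mem_insert_self _ _)⟩
  have hx2' : dg T₂ {x, z} = 0 := by
    by_contra h
    obtain ⟨s, hs, hes⟩ := dg_pos.1 (Nat.pos_of_ne_zero h)
    exact hx2 ⟨s, hs, hes (Finset.mem_insert_self _ _)⟩
  constructor
  · rintro ((⟨h3, h4, h5⟩ | rfl) | ⟨h3, h4, h5⟩)
    · refine ⟨h3, ?_⟩
      have h6 : dg T₂ e = 0 := by
        by_contra h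
        exact hboth h3 (by omega) (Nat.pos_of_ne_zero h)
      by_cases h7 : e ⊆ {x, y, z}
      · rcases edge_of_tri h3 h7 with rfl | rfl | rfl
        · omega
        · omega
        · exact absurd rfl h5
      · rw [if_neg h7] at hdT
        omega
    · exact ⟨Finset.card_pair hxy, hd1⟩
    · refine ⟨h3, ?_⟩
      have h6 : dg T₁ e = 0 := by
        by_contra h
        exact hboth h3 (Nat.pos_of_ne_zero h) (by omega)
      by_cases h7 : e ⊆ {x, y, z}
      · rcases edge_of_tri h3 h7 with rfl | rfl | rfl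
        · omega
        · exact absurd (Finset.pair_comm _ _) h5
        · omega
      · rw [if_neg h7] at hdT
        omega
  · rintro ⟨h3, h4⟩
    by_cases h7 : e ⊆ {x, y, z}
    · rcases edge_of_tri h3 h7 with rfl | rfl | rfl
      · exact Or.inl (Or.inr rfl)
      · omega
      · omega
    · rw [if_neg h7] at hdT
      by_cases h8 : dg T₁ e = 0
      · refine Or.inr ⟨h3, by omega, ?_⟩
        rintro rfl
        rw [Finset.pair_comm] at h7
        exact h7 sub_yz
      · refine Or.inl (Or.inl ⟨h3, by omega, ?_⟩)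
        rintro rfl
        exact h7 sub_xz

private theorem sh_aux (n : ℕ) : ∀ T : Finset (Finset V), T.card = n → Dsc T →
    ∃ l, Sh T l ∧ BdL T l := by
  induction n using Nat.strong_induction_on with
  | _ n ih =>
    intro T hn h
    obtain ⟨e, he2, he1⟩ := h.bd
    obtain ⟨x, y, hxy, rfl⟩ := Finset.card_eq_two.1 he2
    obtain ⟨t, ht, het⟩ := dg_pos.1 (show 0 < dg T {x, y} by omega)
    obtain ⟨z, hyz, hxz, rfl⟩ := exists_third (h.card t ht) hxy
      (het (Finset.mem_insert_self _ _))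
      (het (Finset.mem_insert_of_mem (Finset.mem_singleton_self _)))
    have hlt : ∀ T' : Finset (Finset V), T' ⊆ T.erase {x, y, z} → T'.card < n := by
      intro T' hT'
      rw [← hn]
      exact lt_of_le_of_lt (Finset.card_le_card hT') (Finset.card_erase_lt_of_mem ht)
    by_cases hne : (T.erase {x, y, z}).Nonempty
    · have p2 : 0 < dg T {y, z} := dg_pos.2 ⟨_, ht, sub_yz⟩
      have p3 : 0 < dg T {x, z} := dg_pos.2 ⟨_, ht, sub_xz⟩
      have q2 := h.deg _ (Finset.card_pair hyz)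
      have q3 := h.deg _ (Finset.card_pair hxz)
      by_cases hd2 : dg T {y, z} = 1
      · obtain ⟨hD, hy, hd3⟩ := h.leaf hxy hyz hxz ht he1 hd2 hne
        exact step_one hxy hyz hxz ht he1 hd2 hd3 hy (ih _ (hlt _ subset_rfl) _ rfl hD)
      by_cases hd3 : dg T {x, z} = 1
      · have hs : ({x, y, z} : Finset V) = {y, x, z} := Finset.insert_comm _ _ _
        have hp : ({x, y} : Finset V) = {y, x} := Finset.pair_comm _ _
        rw [hs] at ht hne hlt
        rw [hp] at he1
        obtain ⟨hD, hx, hd3'⟩ := h.leaf hxy.symm hxz hyz ht he1 hd3 hne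
        exact step_one hxy.symm hxz hyz ht he1 hd3 hd3' hx (ih _ (hlt _ subset_rfl) _ rfl hD)
      have hd2' : dg T {y, z} = 2 := by omega
      have hd3' : dg T {x, z} = 2 := by omega
      have e2 := dg_erase ht {y, z}
      rw [if_pos sub_yz, hd2'] at e2
      have e3 := dg_erase ht {x, z}
      rw [if_pos sub_xz, hd3'] at e3
      obtain ⟨t₁, h1, h1'⟩ := dg_pos.1 (show 0 < dg (T.erase {x, y, z}) {x, z} by omega)
      obtain ⟨t₂, h2, h2'⟩ := dg_pos.1 (show 0 < dg (T.erase {x, y, z}) {y, z} by omega)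
      have h1x := h1' (Finset.mem_insert_self _ _)
      have h1z := h1' (Finset.mem_insert_of_mem (Finset.mem_singleton_self _))
      have h2y := h2' (Finset.mem_insert_self _ _)
      have h2z := h2' (Finset.mem_insert_of_mem (Finset.mem_singleton_self _))
      by_cases hc : Relation.ReflTransGen (Ar (T.erase {x, y, z}) z) t₁ t₂
      · exact step_two hxy hyz hxz ht he1 hd2' hd3' (ih _ (hlt _ subset_rfl) _ rfl
          (h.two hxy hyz hxz ht he1 h1 h1x h1z h2 h2y h2z hc))
      · obtain ⟨T₁, T₂, hT, hdis, g1, g2, hv, c1, c2⟩ :=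
          h.split hxy hyz hxz ht he1 h1 h1x h1z h2 h2y h2z hc
        have s1 : T₁ ⊆ T.erase {x, y, z} := hT ▸ Finset.subset_union_left
        have s2 : T₂ ⊆ T.erase {x, y, z} := hT ▸ Finset.subset_union_right
        have hle : ∀ s s' : Finset V, (∀ v ∈ s ∩ s', v = z) → (s ∩ s').card ≤ 1 := by
          intro s s' hss
          rw [Finset.card_le_one_iff]
          intro a b ha hb
          rw [hss a ha, hss b hb]
        have d1 : Dsc T₁ := by
          refine h.sub hxy hyz hxz ht he1 s1 ?_ c1 ⟨{x, z}, Finset.card_pair hxz, ?_⟩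
          · intro s hs s' hs' hn'
            have h3 : s' ∈ T₂ := by
              rw [← hT, Finset.mem_union] at hs'
              exact hs'.resolve_left hn'
            refine hle s s' fun v hv' => ?_
            rw [Finset.mem_inter] at hv'
            exact hv v ⟨s, hs, hv'.1⟩ ⟨s', h3, hv'.2⟩
          · have := dg_mono s1 {x, z}
            have : 0 < dg T₁ {x, z} := dg_pos.2 ⟨t₁, g1, pair_sub h1x h1z⟩
            omega
        have d2 : Dsc T₂ := by
          refine h.sub hxy hyz hxz ht he1 s2 ?_ c2 ⟨{y, z}, Finset.card_pair hyz, ?_⟩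
          · intro s hs s' hs' hn'
            have h3 : s' ∈ T₁ := by
              rw [← hT, Finset.mem_union] at hs'
              exact hs'.resolve_right hn'
            refine hle s s' fun v hv' => ?_
            rw [Finset.mem_inter] at hv'
            exact hv v ⟨s', h3, hv'.2⟩ ⟨s, hs, hv'.1⟩
          · have := dg_mono s2 {y, z}
            have : 0 < dg T₂ {y, z} := dg_pos.2 ⟨t₂, g2, pair_sub h2y h2z⟩
            omega
        exact step_glue hxy hyz hxz ht he1 hd2' hd3' hT hdis g1 g2 h1x h1z h2y h2z hv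
          (ih _ (hlt _ s1) _ rfl d1) (ih _ (hlt _ s2) _ rfl d2)
    · have hT : T = {({x, y, z} : Finset V)} := by
        rw [Finset.not_nonempty_iff_eq_empty] at hne
        rw [← Finset.insert_erase ht, hne]
        rfl
      rw [hT]
      exact step_tri hxy hyz hxz

/-- CLASSIFICATION: a homological disc is built up by attaching triangles and gluing along edges;
the list is its boundary polygon. -/
theorem sh_of_dsc (T : Finset (Finset V)) (h : Dsc T) :
    ∃ l, Sh T l ∧ ∀ e, e ∈ Ce l ↔ e.card = 2 ∧ dg T e = 1 :=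
  sh_aux _ T rfl h

end MOT.J
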