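import Pool.Agent.MOT.JtD

/-!
# MOT/JtF: removal of a boundary triangle of a homological disc (helper63)

`Dsc.sub`: `card`, `deg` by inclusion, `hz` is `hz_sub`.  `lk` at `v` and `conn`: `SC` with `Q a := a ∈ T₁`, `R` the
relation for `T` (around `v`).  Portals: `b ∈ T₁`, `c ∈ T`, `c ∉ T₁`, `2 ≤ |b ∩ c|`: `c = t := {x,y,z}` by `h12`, and
`b ⊇ {x,z}` or `b ⊇ {y,z}` (`b ∩ t` has 2 elements, `b ⊇ {x,y}` is excluded by `hd`).  `conn` and `v = z`: `hzc`.
`v = x`: both portals contain `{x,z}` (they contain `x`), so they are equal by `dg_two`.  `v = y`: the same with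
`{y,z}`.  `v ∉ t`: no portals.

`Dsc.leaf`: by `conn` some `s ∈ T.erase t` has `2 ≤ |s ∩ t|`, so it contains `{x,z}`: `dg T {x,z} = 2`.  `y` is not a
vertex of `T.erase t`: path around `y` from `s ∋ y` to `t`, its last step enters `t` from a triangle which contains
`{x,y}` or `{y,z}`.  `hzc` by `SC` (`lk` at `z`; portals contain `{x,z}`, equal by `dg_two`).

`Dsc.two`: `hzc` by `SC`; portals around `z` are `t₁` or `t₂` by `dg_two`.
-/

open Classical

noncomputable section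

namespace MOT.J

variable {V : Type}

/-- triangles around `z` -/
def Ar (T : Finset (Finset V)) (z : V) : Finset V → Finset V → Prop :=
  fun a b => TA T a b ∧ z ∈ a ∧ z ∈ b

private theorem rtg_lift {α : Type} {R R' : α → α → Prop} (h : ∀ a b, R a b → R' a b) {a b : α}
    (p : Relation.ReflTransGen R a b) : Relation.ReflTransGen R' a b := by
  induction p with
  | refl => exact Relation.ReflTransGen.refl
  | tail _ e ih => exact ih.tail (h _ _ e)

private theorem rtg_sy {α : Type} {R : α → α → Prop} (h : ∀ a b, R a b → R b a) {a b : α}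
    (p : Relation.ReflTransGen R a b) : Relation.ReflTransGen R b a := by
  induction p with
  | refl => exact Relation.ReflTransGen.refl
  | tail _ e ih => exact Relation.ReflTransGen.head (h _ _ e) ih

private theorem last_step {α : Type} {R : α → α → Prop} {s t : α}
    (p : Relation.ReflTransGen R s t) (hst : s ≠ t) : ∃ b, R b t ∧ b ≠ t := by
  have key : ∀ c, Relation.ReflTransGen R s c → c = t → ∃ b, R b t ∧ b ≠ t := by
    intro c hc
    induction hc with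
    | refl => exact fun e => absurd e hst
    | @tail b c _ e ih =>
      intro hct
      by_cases hb : b = t
      · exact ih hb
      · exact ⟨b, hct ▸ e, hb⟩
  exact key t p rfl

private theorem pair_sub {x y : V} {b : Finset V} : ({x, y} : Finset V) ⊆ b ↔ x ∈ b ∧ y ∈ b := by
  rw [Finset.insert_subset_iff, Finset.singleton_subset_iff]

private theorem mem_tri {x y z v : V} : v ∈ ({x, y, z} : Finset V) ↔ v = x ∨ v = y ∨ v = z := by
  rw [Finset.mem_insert, Finset.mem_insert, Finset.mem_singleton]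

private theorem portal_f {T T₁ : Finset (Finset V)} {x y z : V}
    (ht : ({x, y, z} : Finset V) ∈ T) (hd : dg T {x, y} = 1)
    (hs : T₁ ⊆ T.erase {x, y, z})
    (h12 : ∀ s ∈ T₁, ∀ s' ∈ T.erase {x, y, z}, s' ∉ T₁ → (s ∩ s').card ≤ 1)
    {b c : Finset V} (hTA : TA T b c) (hb : b ∈ T₁) (hc : c ∉ T₁) :
    c = {x, y, z} ∧ b ≠ {x, y, z} ∧ ({x, z} ⊆ b ∨ {y, z} ⊆ b) ∧ ¬ {x, y} ⊆ b := by
  have hbe := Finset.mem_erase.1 (hs hb)
  have hct : c = {x, y, z} := by
    by_contra hne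
    have h1 := h12 b hb c (Finset.mem_erase.2 ⟨hne, hTA.2.1⟩) hc
    have h2 := hTA.2.2
    omega
  have hn : ¬ {x, y} ⊆ b := fun k => hbe.1 (dg_one hd.le hbe.2 k ht
    (pair_sub.2 ⟨by simp, by simp⟩))
  refine ⟨hct, hbe.1, ?_, hn⟩
  by_contra hno
  push Not at hno
  obtain ⟨n1, n2⟩ := hno
  have h2 : 2 ≤ (b ∩ {x, y, z}).card := by
    have := hTA.2.2
    rwa [hct] at this
  have h3 : (b ∩ {x, y, z}).card ≤ 1 := by
    rw [Finset.card_le_one]
    intro u hu v hv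
    rw [Finset.mem_inter, mem_tri] at hu hv
    obtain ⟨hu1, hu2⟩ := hu
    obtain ⟨hv1, hv2⟩ := hv
    rcases hu2 with rfl | rfl | rfl <;> rcases hv2 with rfl | rfl | rfl
    · rfl
    · exact absurd (pair_sub.2 ⟨hu1, hv1⟩) hn
    · exact absurd (pair_sub.2 ⟨hu1, hv1⟩) n1
    · exact absurd (pair_sub.2 ⟨hv1, hu1⟩) hn
    · rfl
    · exact absurd (pair_sub.2 ⟨hu1, hv1⟩) n2
    · exact absurd (pair_sub.2 ⟨hv1, hu1⟩) n1
    · exact absurd (pair_sub.2 ⟨hv1, hu1⟩) n2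
    · rfl
  omega

theorem Dsc.sub {T T₁ : Finset (Finset V)} (h : Dsc T) {x y z : V} (hxy : x ≠ y) (hyz : y ≠ z)
    (hxz : x ≠ z) (ht : ({x, y, z} : Finset V) ∈ T) (hd : dg T {x, y} = 1)
    (hs : T₁ ⊆ T.erase {x, y, z})
    (h12 : ∀ s ∈ T₁, ∀ s' ∈ T.erase {x, y, z}, s' ∉ T₁ → (s ∩ s').card ≤ 1)
    (hzc : ∀ s ∈ T₁, ∀ s' ∈ T₁, z ∈ s → z ∈ s' → Relation.ReflTransGen (Ar T₁ z) s s')
    (hbd : ∃ e : Finset V, e.card = 2 ∧ dg T₁ e = 1) : Dsc T₁ := by
  have por := @portal_f V T T₁ x y z ht hd hs h12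
  refine
    { card := fun s hs' => h.card s (Finset.mem_of_mem_erase (hs hs'))
      deg := fun e he => (dg_mono (fun s hs' => Finset.mem_of_mem_erase (hs hs')) e).trans
        (h.deg e he)
      lk := ?_
      conn := ?_
      hz := hz_sub h.hz h.card hxy hyz hxz ht hd hs h12
      bd := hbd }
  · intro v s hs1 s' hs2 hvs hvs'
    have hp := h.lk v s (Finset.mem_of_mem_erase (hs hs1)) s' (Finset.mem_of_mem_erase (hs hs2))
      hvs hvs'
    refine rtg_lift ?_ (SC (Q := fun a => a ∈ T₁)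
      (fun a b k => ⟨k.1.symm, k.2.2, k.2.1⟩) ?_ hs1 hs2 hp)
    · rintro a b ⟨⟨k1, k2⟩, k3, k4⟩
      exact ⟨⟨k3, k4, k1.2.2⟩, k2⟩
    · intro b c b' c' hbc hb hc hbc' hb' hc'
      obtain ⟨e1, e2, e3, e4⟩ := por hbc.1 hb hc
      obtain ⟨e1', e2', e3', e4'⟩ := por hbc'.1 hb' hc'
      have hbT := hbc.1.1
      have hbT' := hbc'.1.1
      have hvt : v ∈ ({x, y, z} : Finset V) := e1 ▸ hbc.2.2
      have hvb := hbc.2.1
      have hvb' := hbc'.2.1
      rw [mem_tri] at hvt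
      rcases hvt with rfl | rfl | rfl
      · have k : {v, z} ⊆ b := by
          rcases e3 with k | k
          · exact k
          · exact absurd (pair_sub.2 ⟨hvb, (pair_sub.1 k).1⟩) e4
        have k' : {v, z} ⊆ b' := by
          rcases e3' with k | k
          · exact k
          · exact absurd (pair_sub.2 ⟨hvb', (pair_sub.1 k).1⟩) e4'
        have e := dg_two (h.deg {v, z} (Finset.card_pair hxz)) hbT k hbT' k' ht
          (pair_sub.2 ⟨by simp, by simp⟩) e2 e2'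
        rw [e]
      · have k : {v, z} ⊆ b := by
          rcases e3 with k | k
          · exact absurd (pair_sub.2 ⟨(pair_sub.1 k).1, hvb⟩) e4
          · exact k
        have k' : {v, z} ⊆ b' := by
          rcases e3' with k | k
          · exact absurd (pair_sub.2 ⟨(pair_sub.1 k).1, hvb'⟩) e4'
          · exact k
        have e := dg_two (h.deg {v, z} (Finset.card_pair hyz)) hbT k hbT' k' ht
          (pair_sub.2 ⟨by simp, by simp⟩) e2 e2'
        rw [e]
      · refine rtg_lift ?_ (hzc b hb b' hb' hvb hvb')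
        rintro a a' ⟨k1, k2⟩
        exact ⟨⟨k1.mono (fun s hs' => Finset.mem_of_mem_erase (hs hs')), k2⟩, k1.1, k1.2.1⟩
  · intro s hs1 s' hs2
    have hp := h.conn s (Finset.mem_of_mem_erase (hs hs1)) s' (Finset.mem_of_mem_erase (hs hs2))
    refine rtg_lift ?_ (SC (Q := fun a => a ∈ T₁) (fun a b k => k.symm) ?_ hs1 hs2 hp)
    · rintro a b ⟨k1, k3, k4⟩
      exact ⟨k3, k4, k1.2.2⟩
    · intro b c b' c' hbc hb hc hbc' hb' hc'
      obtain ⟨-, -, e3, -⟩ := por hbc hb hc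
      obtain ⟨-, -, e3', -⟩ := por hbc' hb' hc'
      have k : z ∈ b := by
        rcases e3 with k | k
        · exact (pair_sub.1 k).2
        · exact (pair_sub.1 k).2
      have k' : z ∈ b' := by
        rcases e3' with k | k
        · exact (pair_sub.1 k).2
        · exact (pair_sub.1 k).2
      refine rtg_lift ?_ (hzc b hb b' hb' k k')
      rintro a a' ⟨k1, -⟩
      exact ⟨k1.mono (fun s hs' => Finset.mem_of_mem_erase (hs hs')), k1.1, k1.2.1⟩

/-- two edges of degree 1 -/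
theorem Dsc.leaf {T : Finset (Finset V)} (h : Dsc T) {x y z : V} (hxy : x ≠ y) (hyz : y ≠ z)
    (hxz : x ≠ z) (ht : ({x, y, z} : Finset V) ∈ T) (hd : dg T {x, y} = 1)
    (hd' : dg T {y, z} = 1) (hne : (T.erase {x, y, z}).Nonempty) :
    Dsc (T.erase {x, y, z}) ∧ ¬ InV (T.erase {x, y, z}) y ∧ dg T {x, z} = 2 := by
  have h12 : ∀ s ∈ T.erase {x, y, z}, ∀ s' ∈ T.erase {x, y, z}, s' ∉ T.erase {x, y, z} →
      (s ∩ s').card ≤ 1 := fun s _ s' h1 h2 => absurd h1 h2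
  have por := @portal_f V T (T.erase {x, y, z}) x y z ht hd (Finset.Subset.refl _) h12
  have nyz : ∀ b ∈ T.erase {x, y, z}, ¬ {y, z} ⊆ b := by
    intro b hb k
    exact (Finset.mem_erase.1 hb).1 (dg_one hd'.le (Finset.mem_of_mem_erase hb) k ht
      (pair_sub.2 ⟨by simp, by simp⟩))
  have nxy : ∀ b ∈ T.erase {x, y, z}, ¬ {x, y} ⊆ b := by
    intro b hb k
    exact (Finset.mem_erase.1 hb).1 (dg_one hd.le (Finset.mem_of_mem_erase hb) k ht
      (pair_sub.2 ⟨by simp, by simp⟩))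
  have hzt : ∀ a b, TA T a b → a ∈ T.erase {x, y, z} → b ∉ T.erase {x, y, z} → {x, z} ⊆ a := by
    intro a b k1 k2 k3
    obtain ⟨-, -, e3, -⟩ := por k1 k2 k3
    rcases e3 with e3 | e3
    · exact e3
    · exact absurd e3 (nyz a k2)
  have hdg : dg T {x, z} = dg (T.erase {x, y, z}) {x, z} + 1 := by
    have := dg_erase ht {x, z}
    rwa [if_pos (pair_sub.2 ⟨by simp, by simp⟩)] at this
  have hle := h.deg {x, z} (Finset.card_pair hxz)
  have hpos : 0 < dg (T.erase {x, y, z}) {x, z} := by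
    obtain ⟨s0, hs0⟩ := hne
    obtain ⟨b, hb, hbt⟩ := last_step (h.conn s0 (Finset.mem_of_mem_erase hs0) _ ht)
      (Finset.mem_erase.1 hs0).1
    have hb' : b ∈ T.erase {x, y, z} := Finset.mem_erase.2 ⟨hbt, hb.1⟩
    exact dg_pos.2 ⟨b, hb', hzt b _ hb hb' (Finset.notMem_erase _ _)⟩
  refine ⟨?_, ?_, by omega⟩
  · refine h.sub hxy hyz hxz ht hd (Finset.Subset.refl _) h12 ?_
      ⟨{x, z}, Finset.card_pair hxz, by omega⟩
    intro s hs1 s' hs2 hzs hzs'
    have hp := h.lk z s (Finset.mem_of_mem_erase hs1) s' (Finset.mem_of_mem_erase hs2) hzs hzs'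
    refine rtg_lift ?_ (SC (Q := fun a => a ∈ T.erase {x, y, z})
      (fun a b k => ⟨k.1.symm, k.2.2, k.2.1⟩) ?_ hs1 hs2 hp)
    · rintro a b ⟨⟨k1, k2⟩, k3, k4⟩
      exact ⟨⟨k3, k4, k1.2.2⟩, k2⟩
    · intro b c b' c' hbc hb hc hbc' hb' hc'
      have e := dg_two hle hbc.1.1 (hzt b c hbc.1 hb hc) hbc'.1.1 (hzt b' c' hbc'.1 hb' hc') ht
        (pair_sub.2 ⟨by simp, by simp⟩) (Finset.mem_erase.1 hb).1 (Finset.mem_erase.1 hb').1
      rw [e]
  · rintro ⟨s, hs, hys⟩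
    have hyt : y ∈ ({x, y, z} : Finset V) := by simp
    obtain ⟨b, hb, hbt⟩ := last_step (h.lk y s (Finset.mem_of_mem_erase hs) _ ht hys hyt)
      (Finset.mem_erase.1 hs).1
    have hb' : b ∈ T.erase {x, y, z} := Finset.mem_erase.2 ⟨hbt, hb.1.1⟩
    have k := hzt b _ hb.1 hb' (Finset.notMem_erase _ _)
    exact nxy b hb' (pair_sub.2 ⟨(pair_sub.1 k).1, hb.2.1⟩)

/-- one edge of degree 1, the rest is connected around `z` -/
theorem Dsc.two {T : Finset (Finset V)} (h : Dsc T) {x y z : V} (hxy : x ≠ y) (hyz : y ≠ z)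
    (hxz : x ≠ z) (ht : ({x, y, z} : Finset V) ∈ T) (hd : dg T {x, y} = 1)
    {t₁ t₂ : Finset V} (h1 : t₁ ∈ T.erase {x, y, z}) (h1x : x ∈ t₁) (h1z : z ∈ t₁)
    (h2 : t₂ ∈ T.erase {x, y, z}) (h2y : y ∈ t₂) (h2z : z ∈ t₂)
    (hc : Relation.ReflTransGen (Ar (T.erase {x, y, z}) z) t₁ t₂) :
    Dsc (T.erase {x, y, z}) := by
  have h12 : ∀ s ∈ T.erase {x, y, z}, ∀ s' ∈ T.erase {x, y, z}, s' ∉ T.erase {x, y, z} →
      (s ∩ s').card ≤ 1 := fun s _ s' h1 h2 => absurd h1 h2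
  have por := @portal_f V T (T.erase {x, y, z}) x y z ht hd (Finset.Subset.refl _) h12
  have hdg : dg T {x, z} = dg (T.erase {x, y, z}) {x, z} + 1 := by
    have := dg_erase ht {x, z}
    rwa [if_pos (pair_sub.2 ⟨by simp, by simp⟩)] at this
  have hle := h.deg {x, z} (Finset.card_pair hxz)
  have hpos : 0 < dg (T.erase {x, y, z}) {x, z} := dg_pos.2 ⟨t₁, h1, pair_sub.2 ⟨h1x, h1z⟩⟩
  have hb12 : ∀ b ∈ T.erase {x, y, z}, ({x, z} ⊆ b ∨ {y, z} ⊆ b) → b = t₁ ∨ b = t₂ := by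
    intro b hb k
    rcases k with k | k
    · exact Or.inl (dg_two hle (Finset.mem_of_mem_erase hb) k (Finset.mem_of_mem_erase h1)
        (pair_sub.2 ⟨h1x, h1z⟩) ht (pair_sub.2 ⟨by simp, by simp⟩) (Finset.mem_erase.1 hb).1
        (Finset.mem_erase.1 h1).1)
    · exact Or.inr (dg_two (h.deg {y, z} (Finset.card_pair hyz)) (Finset.mem_of_mem_erase hb) k
        (Finset.mem_of_mem_erase h2) (pair_sub.2 ⟨h2y, h2z⟩) ht (pair_sub.2 ⟨by simp, by simp⟩)
        (Finset.mem_erase.1 hb).1 (Finset.mem_erase.1 h2).1)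
  refine h.sub hxy hyz hxz ht hd (Finset.Subset.refl _) h12 ?_
      ⟨{x, z}, Finset.card_pair hxz, by omega⟩
  intro s hs1 s' hs2 hzs hzs'
  have hp := h.lk z s (Finset.mem_of_mem_erase hs1) s' (Finset.mem_of_mem_erase hs2) hzs hzs'
  refine rtg_lift ?_ (SC (Q := fun a => a ∈ T.erase {x, y, z})
    (fun a b k => ⟨k.1.symm, k.2.2, k.2.1⟩) ?_ hs1 hs2 hp)
  · rintro a b ⟨⟨k1, k2⟩, k3, k4⟩
    exact ⟨⟨k3, k4, k1.2.2⟩, k2⟩
  · intro b c b' c' hbc hb hcc hbc' hb' hcc'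
    have e3 := hb12 b hb (por hbc.1 hb hcc).2.2.1
    have e3' := hb12 b' hb' (por hbc'.1 hb' hcc').2.2.1
    have key : Relation.ReflTransGen (fun a b => (TA T a b ∧ z ∈ a ∧ z ∈ b) ∧
        a ∈ T.erase {x, y, z} ∧ b ∈ T.erase {x, y, z}) t₁ t₂ := by
      refine rtg_lift ?_ hc
      rintro a a' ⟨k1, k2⟩
      exact ⟨⟨k1.mono (Finset.erase_subset _ _), k2⟩, k1.1, k1.2.1⟩
    have key' : Relation.ReflTransGen (fun a b => (TA T a b ∧ z ∈ a ∧ z ∈ b) ∧
        a ∈ T.erase {x, y, z} ∧ b ∈ T.erase {x, y, z}) t₂ t₁ := by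
      refine rtg_sy ?_ key
      rintro a a' ⟨⟨k1, k2, k3⟩, k4, k5⟩
      exact ⟨⟨k1.symm, k3, k2⟩, k5, k4⟩
    rcases e3 with rfl | rfl <;> rcases e3' with rfl | rfl
    · exact Relation.ReflTransGen.refl
    · exact key
    · exact key'
    · exact Relation.ReflTransGen.refl

end MOT.J
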