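import Pool.Agent.MOT.Def
import Pool.Agent.MOT.St0
import Pool.Agent.MOT.JtA
import Pool.Agent.MOT.Bas

/-!
# MOT/JuF: 1-dimensional complexes: `H^1 = 0` and connected => arc
-/

open Classical

noncomputable section

namespace MOT.J

variable {V : Type}

/-- `S` is a 1-manifold with boundary `B` -/
structure Fa (G : SimpleGraph V) (S B : Set V) : Prop where
  sub : B ⊆ S
  bb : ∀ x ∈ B, ∀ y ∈ B, ¬ G.Adj x y
  tri : ∀ s : Finset V, G.IsClique (s : Set V) → (s : Set V) ⊆ S → s.card ≤ 2
  dI : ∀ x ∈ S, x ∉ B → {y | EIn G S x y}.ncard = 2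
  dB : ∀ x ∈ B, {y | EIn G S x y}.ncard = 1

/-- consecutive elements of a list, in any order -/
private def Cs (L : List V) (u v : V) : Prop :=
  ∃ l₁ l₂ : List V, L = l₁ ++ u :: v :: l₂ ∨ L = l₁ ++ v :: u :: l₂

private theorem cs_cons {x z : V} {m : List V} {u v : V} :
    Cs (x :: z :: m) u v ↔ (u = x ∧ v = z) ∨ (v = x ∧ u = z) ∨ Cs (z :: m) u v := by
  constructor
  · rintro ⟨l₁, l₂, h | h⟩
    · cases l₁ with
      | nil =>
        rw [List.nil_append, List.cons.injEq, List.cons.injEq] at h
        exact Or.inl ⟨h.1.symm, h.2.1.symm⟩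
      | cons b l₁ =>
        rw [List.cons_append, List.cons.injEq] at h
        exact Or.inr (Or.inr ⟨l₁, l₂, Or.inl h.2⟩)
    · cases l₁ with
      | nil =>
        rw [List.nil_append, List.cons.injEq, List.cons.injEq] at h
        exact Or.inr (Or.inl ⟨h.1.symm, h.2.1.symm⟩)
      | cons b l₁ =>
        rw [List.cons_append, List.cons.injEq] at h
        exact Or.inr (Or.inr ⟨l₁, l₂, Or.inr h.2⟩)
  · rintro (⟨rfl, rfl⟩ | ⟨rfl, rfl⟩ | ⟨l₁, l₂, h | h⟩)
    · exact ⟨[], m, Or.inl rfl⟩
    · exact ⟨[], m, Or.inr rfl⟩
    · exact ⟨x :: l₁, l₂, Or.inl (by rw [h]; rfl)⟩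
    · exact ⟨x :: l₁, l₂, Or.inr (by rw [h]; rfl)⟩

private theorem cs_single {x : V} {u v : V} : ¬ Cs [x] u v := by
  rintro ⟨l₁, l₂, h | h⟩
  · have := congrArg List.length h
    simp only [List.length_append, List.length_cons, List.length_nil] at this
    omega
  · have := congrArg List.length h
    simp only [List.length_append, List.length_cons, List.length_nil] at this
    omega

/-- no triangle in `S` -/
private theorem fa_notri {G : SimpleGraph V} {S B : Set V} (h : Fa G S B) {x y z : V}
    (h1 : EIn G S x y) (h2 : EIn G S y z) (h3 : EIn G S x z) : False := by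
  have hc := h.tri {x, y, z} (by
    intro u hu v hv huv
    simp only [Finset.coe_insert, Finset.coe_singleton, Set.mem_insert_iff,
      Set.mem_singleton_iff] at hu hv
    rcases hu with rfl | rfl | rfl <;> rcases hv with rfl | rfl | rfl
    · exact absurd rfl huv
    · exact h1.1
    · exact h3.1
    · exact h1.1.symm
    · exact absurd rfl huv
    · exact h2.1
    · exact h3.1.symm
    · exact h2.1.symm
    · exact absurd rfl huv) (by
    intro u hu
    simp only [Finset.coe_insert, Finset.coe_singleton, Set.mem_insert_iff,
      Set.mem_singleton_iff] at hu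
    rcases hu with rfl | rfl | rfl
    · exact h1.2.1
    · exact h1.2.2
    · exact h3.2.2)
  have e : ({x, y, z} : Finset V).card = 3 := by
    rw [Finset.card_insert_of_notMem, Finset.card_pair h2.1.ne]
    simp only [Finset.mem_insert, Finset.mem_singleton, not_or]
    exact ⟨h1.1.ne, h3.1.ne⟩
  omega

/-- no boundary: a cycle, `H^1` not zero (the cocycle with value 1 on one edge is not a coboundary,
by counting degrees in the component of one end after removing the edge) -/
theorem fa_bd_nonempty [Finite V] {G : SimpleGraph V} {S B : Set V} (h : Fa G S B)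
    (hc : Conn G S) (hz : HZ G S) : B.Nonempty := by
  by_contra hB
  have hB' : ∀ v, v ∉ B := fun v hv => hB ⟨v, hv⟩
  obtain ⟨x, hx⟩ := hc.1
  have hd : ∀ v ∈ S, {y | EIn G S v y}.ncard = 2 := fun v hv => h.dI v hv (hB' v)
  obtain ⟨y, hy⟩ : {y | EIn G S x y}.Nonempty := by
    rw [← Set.ncard_pos (Set.toFinite _), hd x hx]
    exact two_pos
  have hxy : EIn G S x y := hy
  have hne : x ≠ y := hxy.1.ne
  let a : V → V → ZMod 2 := fun u v => if (u = x ∧ v = y) ∨ (u = y ∧ v = x) then 1 else 0
  have ha : a ∈ Z1 G S := by
    refine mem_Z1.2 ⟨fun u v e => if_neg ?_, fun u v => ?_, fun u v w e1 e2 e3 =>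
      (fa_notri h e1 e2 e3).elim⟩
    · rintro (⟨rfl, rfl⟩ | ⟨rfl, rfl⟩)
      · exact e hxy
      · exact e hxy.symm
    · show (if (u = x ∧ v = y) ∨ (u = y ∧ v = x) then (1 : ZMod 2) else 0) =
        if (v = x ∧ u = y) ∨ (v = y ∧ u = x) then 1 else 0
      have e : ((u = x ∧ v = y) ∨ (u = y ∧ v = x)) ↔ ((v = x ∧ u = y) ∨ (v = y ∧ u = x)) := by
        tauto
      simp only [e]
  obtain ⟨f, hf⟩ := hz a ha
  have hfx : f x ≠ f y := by
    intro e
    have e1 := hf x y hxy
    have e2 : a x y = 1 := if_pos (Or.inl ⟨rfl, rfl⟩)
    rw [e2, e, two_add] at e1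
    exact one_ne_zero e1
  have hfe : ∀ u v, EIn G S u v → ¬ ((u = x ∧ v = y) ∨ (u = y ∧ v = x)) → f u = f v := by
    intro u v e e'
    have e1 := hf u v e
    have e2 : a u v = 0 := if_neg e'
    rw [e2] at e1
    exact (z2_eq _ _).1 e1.symm
  let H : SimpleGraph V :=
    { Adj := fun u v => G.Adj u v ∧ (u ∈ S ∧ f u = f x) ∧ (v ∈ S ∧ f v = f x)
      symm := ⟨fun _ _ e => ⟨e.1.symm, e.2.2, e.2.1⟩⟩
      loopless := ⟨fun _ e => G.loopless.irrefl _ e.1⟩ }
  have : Fintype V := Fintype.ofFinite V
  have hdeg : ∀ v, H.degree v = {w | H.Adj v w}.ncard := by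
    intro v
    rw [Set.ncard_eq_toFinset_card', ← SimpleGraph.card_neighborFinset_eq_degree]
    congr 1
  have hdx : H.degree x = 1 := by
    have e : {w | EIn G S x w} = insert y {w | H.Adj x w} := by
      ext w
      constructor
      · intro e
        have e : EIn G S x w := e
        by_cases hw : w = y
        · exact Or.inl hw
        · refine Or.inr ⟨e.1, ⟨hx, rfl⟩, e.2.2, ?_⟩
          refine (hfe x w e ?_).symm
          rintro (⟨_, h2⟩ | ⟨h1, _⟩)
          · exact hw h2
          · exact hne h1
      · rintro (rfl | e)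
        · exact hxy
        · exact ⟨e.1, hx, e.2.2.1⟩
    have e2 := hd x hx
    have hny : y ∉ {w | H.Adj x w} := by
      intro e3
      exact hfx e3.2.2.2.symm
    rw [e, Set.ncard_insert_of_notMem hny (Set.toFinite _)] at e2
    rw [hdeg]
    omega
  have hdv : ∀ v, v ≠ x → 2 ∣ H.degree v := by
    intro v hv
    rw [hdeg]
    by_cases hW : v ∈ S ∧ f v = f x
    · have e : {w | H.Adj v w} = {w | EIn G S v w} := by
        ext w
        constructor
        · intro e
          exact ⟨e.1, hW.1, e.2.2.1⟩
        · intro e
          have e : EIn G S v w := e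
          refine ⟨e.1, hW, e.2.2, ?_⟩
          rw [← hW.2]
          refine (hfe v w e ?_).symm
          rintro (⟨h1, _⟩ | ⟨h1, _⟩)
          · exact hv h1
          · rw [h1] at hW
            exact hfx hW.2.symm
      rw [e, hd v hW.1]
    · have e : {w | H.Adj v w} = ∅ := by
        ext w
        constructor
        · intro e
          exact hW e.2.1
        · intro e
          exact absurd e (Set.notMem_empty w)
      rw [e, Set.ncard_empty]
      exact dvd_zero 2
  have hsum := H.sum_degrees_eq_twice_card_edges
  rw [← Finset.add_sum_erase Finset.univ (fun v => H.degree v) (Finset.mem_univ x)] at hsum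
  have hev : 2 ∣ ∑ v ∈ Finset.univ.erase x, H.degree v :=
    Finset.dvd_sum fun v hv => hdv v (Finset.ne_of_mem_erase hv)
  simp only [hdx] at hsum
  omega

/-- `Fa` without the condition that the ends are not adjacent -/
private structure Fb (G : SimpleGraph V) (S B : Set V) : Prop where
  sub : B ⊆ S
  dI : ∀ x ∈ S, x ∉ B → {y | EIn G S x y}.ncard = 2
  dB : ∀ x ∈ B, {y | EIn G S x y}.ncard = 1

private theorem fb_conn {G : SimpleGraph V} {S : Set V} (hc : Conn G S) {x z : V}
    (hz : EIn G S x z) (hu : ∀ y, EIn G S x y → y = z) : Conn G (S \ {x}) := by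
  refine ⟨⟨z, hz.2.2, fun e => hz.1.ne (Eq.symm e)⟩, ?_⟩
  intro u hu' v hv'
  have hux : ¬ u = x := hu'.2
  have hvx : ¬ v = x := hv'.2
  have key : ∀ w, Relation.ReflTransGen (EIn G S) u w →
      Relation.ReflTransGen (EIn G (S \ {x})) u (if w = x then z else w) := by
    intro w hw
    induction hw with
    | refl =>
      rw [if_neg hux]
    | @tail b c _ e ih =>
      by_cases hb : b = x
      · rw [if_pos hb] at ih
        subst hb
        have hcz := hu c e
        subst hcz
        rw [if_neg hz.1.ne.symm]
        exact ih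
      · rw [if_neg hb] at ih
        by_cases hcx : c = x
        · rw [if_pos hcx]
          subst hcx
          have hbz := hu b e.symm
          subst hbz
          exact ih
        · rw [if_neg hcx]
          exact ih.tail ⟨e.1, ⟨e.2.1, hb⟩, ⟨e.2.2, hcx⟩⟩
  have := key v (hc.2 u hu'.1 v hv'.1)
  rwa [if_neg hvx] at this

private theorem fb_list [Finite V] {G : SimpleGraph V} (n : ℕ) : ∀ (S B : Set V) (x : V),
    S.ncard = n → Fb G S B → Conn G S → x ∈ B →
    ∃ (y : V) (l : List V), (x :: l ++ [y]).Nodup ∧ (∀ v, v ∈ x :: l ++ [y] ↔ v ∈ S) ∧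
      B = {x, y} ∧ ∀ u v, EIn G S u v ↔ Cs (x :: l ++ [y]) u v := by
  induction n with
  | zero =>
    intro S B x hn h _ hx
    rw [Set.ncard_eq_zero (Set.toFinite _)] at hn
    have := h.sub hx
    rw [hn] at this
    exact absurd this (Set.notMem_empty x)
  | succ n ih =>
    intro S B x hn h hc hx
    obtain ⟨z, hz⟩ := Set.ncard_eq_one.1 (h.dB x hx)
    have hxz : EIn G S x z := by
      have : z ∈ {y | EIn G S x y} := by rw [hz]; rfl
      exact this
    have hu : ∀ y, EIn G S x y → y = z := by
      intro y e
      have : y ∈ {y | EIn G S x y} := e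
      rw [hz] at this
      exact this
    have hne : x ≠ z := hxz.1.ne
    by_cases hzB : z ∈ B
    · -- two points
      obtain ⟨w, hw⟩ := Set.ncard_eq_one.1 (h.dB z hzB)
      have hu2 : ∀ y, EIn G S z y → y = x := by
        intro y e
        have h1 : y ∈ {y | EIn G S z y} := e
        have h2 : x ∈ {y | EIn G S z y} := hxz.symm
        rw [hw] at h1 h2
        exact Eq.trans h1 (Eq.symm h2)
      have hS : ∀ v ∈ S, v = x ∨ v = z := by
        intro v hv
        have hr := hc.2 x (h.sub hx) v hv
        clear hv
        induction hr with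
        | refl => exact Or.inl rfl
        | @tail b c _ e ih' =>
          rcases ih' with rfl | rfl
          · exact Or.inr (hu c e)
          · exact Or.inl (hu2 c e)
      refine ⟨z, [], ?_, ?_, ?_, ?_⟩
      · simp [hne]
      · intro v
        simp only [List.cons_append, List.nil_append, List.mem_cons, List.not_mem_nil, or_false]
        constructor
        · rintro (rfl | rfl)
          · exact h.sub hx
          · exact hxz.2.2
        · exact hS v
      · ext v
        constructor
        · intro hv
          rcases hS v (h.sub hv) with rfl | rfl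
          · exact Or.inl rfl
          · exact Or.inr rfl
        · rintro (rfl | rfl)
          · exact hx
          · exact hzB
      · intro u v
        show _ ↔ Cs (x :: z :: []) u v
        rw [cs_cons]
        constructor
        · intro e
          rcases hS u e.2.1 with rfl | rfl
          · exact Or.inl ⟨rfl, hu v e⟩
          · exact Or.inr (Or.inl ⟨hu2 v e, rfl⟩)
        · rintro (⟨rfl, rfl⟩ | ⟨rfl, rfl⟩ | e)
          · exact hxz
          · exact hxz.symm
          · exact (cs_single e).elim
    · -- remove x
      have hS' : (S \ {x}).ncard = n := by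
        have := Set.ncard_sdiff_singleton_add_one (h.sub hx) (Set.toFinite S)
        omega
      have hzS : z ∈ S \ {x} := ⟨hxz.2.2, hne.symm⟩
      have hsame : ∀ v ∈ S \ {x}, v ≠ z → {y | EIn G (S \ {x}) v y} = {y | EIn G S v y} := by
        intro v hv hvz
        ext y
        constructor
        · intro e
          exact ⟨e.1, e.2.1.1, e.2.2.1⟩
        · intro e
          have e : EIn G S v y := e
          refine ⟨e.1, hv, e.2.2, ?_⟩
          intro hy
          have hy : y = x := hy
          subst hy
          exact hvz (hu v e.symm)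
      have hb : Fb G (S \ {x}) (insert z (B \ {x})) := by
        refine ⟨?_, ?_, ?_⟩
        · rintro v (rfl | hv)
          · exact hzS
          · exact ⟨h.sub hv.1, hv.2⟩
        · intro v hv hvB
          have hvz : v ≠ z := fun e => hvB (Or.inl e)
          rw [hsame v hv hvz]
          exact h.dI v hv.1 fun e => hvB (Or.inr ⟨e, hv.2⟩)
        · rintro v (rfl | hv)
          · have h2 := h.dI v hzS.1 hzB
            have e : {y | EIn G S v y} = insert x {y | EIn G (S \ {x}) v y} := by
              ext y
              constructor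
              · intro e
                have e : EIn G S v y := e
                by_cases hy : y = x
                · exact Or.inl hy
                · exact Or.inr ⟨e.1, hzS, e.2.2, hy⟩
              · rintro (rfl | e)
                · exact hxz.symm
                · exact ⟨e.1, e.2.1.1, e.2.2.1⟩
            have hnx : x ∉ {y | EIn G (S \ {x}) v y} := fun e => e.2.2.2 rfl
            rw [e, Set.ncard_insert_of_notMem hnx (Set.toFinite _)] at h2
            omega
          · have hvz : v ≠ z := by
              rintro rfl
              exact hzB hv.1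
            rw [hsame v ⟨h.sub hv.1, hv.2⟩ hvz]
            exact h.dB v hv.1
      obtain ⟨y, l, h1, h2, h3, h4⟩ := ih (S \ {x}) (insert z (B \ {x})) z hS' hb
        (fb_conn hc hxz hu) (Or.inl rfl)
      have hyz : y ≠ z := by
        rintro rfl
        have h1' : (y :: (l ++ [y])).Nodup := h1
        rw [List.nodup_cons] at h1'
        exact h1'.1 (by simp)
      have hyB : y ∈ B := by
        have : y ∈ insert z (B \ {x}) := by
          rw [h3]
          exact Or.inr rfl
        rcases this with e | e
        · exact absurd e hyz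
        · exact e.1
      refine ⟨y, z :: l, ?_, ?_, ?_, ?_⟩
      · show (x :: (z :: l ++ [y])).Nodup
        rw [List.nodup_cons]
        refine ⟨fun e => ?_, h1⟩
        exact ((h2 x).1 e).2 rfl
      · intro v
        show v ∈ x :: (z :: l ++ [y]) ↔ _
        rw [List.mem_cons, h2]
        constructor
        · rintro (rfl | e)
          · exact h.sub hx
          · exact e.1
        · intro e
          by_cases hv : v = x
          · exact Or.inl hv
          · exact Or.inr ⟨e, hv⟩
      · ext v
        constructor
        · intro hv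
          by_cases hvx : v = x
          · exact Or.inl hvx
          · have : v ∈ insert z (B \ {x}) := Or.inr ⟨hv, hvx⟩
            rw [h3] at this
            rcases this with e | e
            · rw [e] at hv
              exact absurd hv hzB
            · exact Or.inr e
        · rintro (rfl | rfl)
          · exact hx
          · exact hyB
      · intro u v
        show _ ↔ Cs (x :: z :: (l ++ [y])) u v
        rw [cs_cons]
        have h4' := h4 u v
        rw [show (z :: (l ++ [y])) = z :: l ++ [y] from rfl, ← h4']
        constructor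
        · intro e
          by_cases hux : u = x
          · subst hux
            exact Or.inl ⟨rfl, hu v e⟩
          · by_cases hvx : v = x
            · subst hvx
              exact Or.inr (Or.inl ⟨rfl, hu u e.symm⟩)
            · exact Or.inr (Or.inr ⟨e.1, ⟨e.2.1, hux⟩, ⟨e.2.2, hvx⟩⟩)
        · rintro (⟨rfl, rfl⟩ | ⟨rfl, rfl⟩ | e)
          · exact hxz
          · exact hxz.symm
          · exact ⟨e.1, e.2.1.1, e.2.2.1⟩

/-- `S` is a path (induction on the number of vertices, remove an end) -/
theorem fa_list [Finite V] {G : SimpleGraph V} {S B : Set V} (h : Fa G S B)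
    (hc : Conn G S) (hz : HZ G S) :
    ∃ (x y : V) (l : List V), (x :: l ++ [y]).Nodup ∧ (∀ v, v ∈ x :: l ++ [y] ↔ v ∈ S) ∧
      B = {x, y} ∧ ∀ u v, EIn G S u v ↔
        ∃ l₁ l₂ : List V, x :: l ++ [y] = l₁ ++ u :: v :: l₂ ∨ x :: l ++ [y] = l₁ ++ v :: u :: l₂ := by
  obtain ⟨x, hx⟩ := fa_bd_nonempty h hc hz
  obtain ⟨y, l, h1⟩ := fb_list S.ncard S B x rfl ⟨h.sub, h.dI, h.dB⟩ hc hx
  exact ⟨x, y, l, h1⟩

private theorem dl_supp {s : Finset V} {c : V → ℝ} (hc : c ∈ Dl s) {v : V} (hv : c v ≠ 0) :
    v ∈ s := by
  by_contra h
  exact hv (hc.2.2 v h)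

/-- a point of the realisation whose support is contained in `s` -/
private theorem rl_dl {G : SimpleGraph V} {A : Set V} {c : V → ℝ} (hc : c ∈ Rl G A)
    {s : Finset V} (hs : ∀ v, c v ≠ 0 → v ∈ s) : c ∈ Dl s := by
  refine ⟨hc.1, ?_, fun v hv => ?_⟩
  · have h1 := hc.2.1
    rw [finsum_eq_sum_of_support_subset c (s := s)] at h1
    · exact h1
    · intro v hv
      exact hs v hv
  · by_contra h0
    exact hv (hs v h0)

private theorem dl_rl {G : SimpleGraph V} {A : Set V} {c : V → ℝ} {s : Finset V}
    (hc : c ∈ Dl s) (hA : ∀ v ∈ s, v ∈ A) (hs : ∀ u ∈ s, ∀ v ∈ s, u ≠ v → G.Adj u v) :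
    c ∈ Rl G A := by
  refine ⟨hc.1, ?_, fun v hv => hA v (dl_supp hc hv), fun u v hu hv huv =>
    hs u (dl_supp hc hu) v (dl_supp hc hv) huv⟩
  rw [finsum_eq_sum_of_support_subset c (s := s)]
  · exact hc.2.1
  · intro v hv
    exact dl_supp hc hv

/-- realisation -/
theorem ball_fa [Finite V] {G : SimpleGraph V} {S B : Set V} (h : Fa G S B)
    (hc : Conn G S) (hz : HZ G S) : Ball 1 (Rl G S) (Rl G B) := by
  obtain ⟨x, y, l, h1, h2, h3, h4⟩ := fa_list h hc hz
  have hlen : 2 ≤ (x :: l ++ [y]).length := by
    simp only [List.length_append, List.length_cons, List.length_nil]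
    omega
  have hRS : Rl G S = Pa (x :: l ++ [y]) := by
    ext c
    rw [mem_Pa hlen]
    constructor
    · intro hcS
      -- the support
      have : Fintype V := Fintype.ofFinite V
      let s : Finset V := Finset.univ.filter (fun v => c v ≠ 0)
      have hs : ∀ v, v ∈ s ↔ c v ≠ 0 := fun v => by
        show v ∈ Finset.univ.filter (fun v => c v ≠ 0) ↔ _
        rw [Finset.mem_filter]
        exact ⟨fun e => e.2, fun e => ⟨Finset.mem_univ v, e⟩⟩
      have hcard : s.card ≤ 2 := by
        refine h.tri s ?_ ?_
        · intro u hu v hv huv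
          exact hcS.2.2.2 u v ((hs u).1 hu) ((hs v).1 hv) huv
        · intro u hu
          exact hcS.2.2.1 u ((hs u).1 hu)
      have hne : s.Nonempty := by
        by_contra hs0
        rw [Finset.not_nonempty_iff_eq_empty] at hs0
        have h5 := rl_dl hcS (s := s) fun v hv => (hs v).2 hv
        rw [hs0, Dl_empty] at h5
        exact absurd h5 (Set.notMem_empty c)
      obtain ⟨u, hu⟩ := hne
      have huS : u ∈ S := hcS.2.2.1 u ((hs u).1 hu)
      by_cases hex : ∃ v ∈ s, v ≠ u
      · obtain ⟨v, hv, hvu⟩ := hex
        have hse : s = {u, v} := by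
          symm
          apply Finset.eq_of_subset_of_card_le
          · intro w hw
            rw [Finset.mem_insert, Finset.mem_singleton] at hw
            rcases hw with rfl | rfl
            · exact hu
            · exact hv
          · rw [Finset.card_pair hvu.symm]
            exact hcard
        have hcD : c ∈ Dl {u, v} := rl_dl hcS fun w hw => by
          rw [← hse]
          exact (hs w).2 hw
        have he : EIn G S u v := ⟨hcS.2.2.2 u v ((hs u).1 hu) ((hs v).1 hv) hvu.symm, huS,
          hcS.2.2.1 v ((hs v).1 hv)⟩
        obtain ⟨l₁, l₂, e | e⟩ := (h4 u v).1 he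
        · exact ⟨l₁, l₂, u, v, e, hcD⟩
        · refine ⟨l₁, l₂, v, u, e, ?_⟩
          rw [Finset.pair_comm]
          exact hcD
      · -- one point
        have hone : ∀ v, c v ≠ 0 → v = u := by
          intro v hv
          by_contra hvu
          exact hex ⟨v, (hs v).2 hv, hvu⟩
        have hcD : ∀ v, c ∈ Dl {u, v} := fun v => rl_dl hcS fun w hw => by
          rw [hone w hw]
          exact Finset.mem_insert_self u {v}
        -- a neighbour of `u`
        obtain ⟨v, hv⟩ : ∃ v, EIn G S u v := by
          have : {y | EIn G S u y}.Nonempty := by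
            rw [← Set.ncard_pos (Set.toFinite _)]
            by_cases huB : u ∈ B
            · rw [h.dB u huB]
              exact one_pos
            · rw [h.dI u huS huB]
              exact two_pos
          exact this
        obtain ⟨l₁, l₂, e | e⟩ := (h4 u v).1 hv
        · exact ⟨l₁, l₂, u, v, e, hcD v⟩
        · refine ⟨l₁, l₂, v, u, e, ?_⟩
          rw [Finset.pair_comm]
          exact hcD v
    · rintro ⟨l₁, l₂, u, v, e, hcD⟩
      have he : EIn G S u v := (h4 u v).2 ⟨l₁, l₂, Or.inl e⟩
      refine dl_rl hcD ?_ ?_
      · intro w hw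
        rw [Finset.mem_insert, Finset.mem_singleton] at hw
        rcases hw with rfl | rfl
        · exact he.2.1
        · exact he.2.2
      · intro a ha b hb hab
        rw [Finset.mem_insert, Finset.mem_singleton] at ha hb
        rcases ha with rfl | rfl <;> rcases hb with rfl | rfl
        · exact absurd rfl hab
        · exact he.1
        · exact he.1.symm
        · exact absurd rfl hab
  have hxB : x ∈ B := by rw [h3]; exact Or.inl rfl
  have hyB : y ∈ B := by rw [h3]; exact Or.inr rfl
  have hRB : Rl G B = {dl x, dl y} := by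
    ext c
    rw [Set.mem_insert_iff, Set.mem_singleton_iff]
    constructor
    · intro hcB
      have hmem : ∀ v, c v ≠ 0 → v = x ∨ v = y := by
        intro v hv
        have := hcB.2.2.1 v hv
        rw [h3] at this
        exact this
      by_cases hx0 : c x = 0
      · right
        have h5 : c ∈ Dl {y} := rl_dl hcB fun v hv => by
          rw [Finset.mem_singleton]
          rcases hmem v hv with e | e
          · rw [e] at hv
            exact absurd hx0 hv
          · exact e
        rw [Dl_singleton] at h5
        exact h5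
      · left
        have h5 : c ∈ Dl {x} := rl_dl hcB fun v hv => by
          rw [Finset.mem_singleton]
          rcases hmem v hv with e | e
          · exact e
          · by_contra hvx
            exact h.bb x hxB v (by rw [e]; exact hyB) (hcB.2.2.2 x v hx0 hv (Ne.symm hvx))
        rw [Dl_singleton] at h5
        exact h5
    · rintro (rfl | rfl)
      · refine dl_rl ((dl_mem x {x}).2 (Finset.mem_singleton_self x)) ?_ ?_
        · intro v hv
          rw [Finset.mem_singleton.1 hv]
          exact hxB
        · intro a ha b hb hab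
          exact absurd ((Finset.mem_singleton.1 ha).trans (Finset.mem_singleton.1 hb).symm) hab
      · refine dl_rl ((dl_mem y {y}).2 (Finset.mem_singleton_self y)) ?_ ?_
        · intro v hv
          rw [Finset.mem_singleton.1 hv]
          exact hyB
        · intro a ha b hb hab
          exact absurd ((Finset.mem_singleton.1 ha).trans (Finset.mem_singleton.1 hb).symm) hab
  rw [hRS, hRB]
  exact ball_path x y l h1

end MOT.J
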