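import Pool.Agent.MOT.JuF
import Pool.Agent.MOT.JtB

/-!
# MOT/JuG: 2-dimensional full subcomplexes: connected, `H^1 = 0`, nonempty boundary => PL disc
-/

open Classical

noncomputable section

namespace MOT.J

variable {V : Type}

/-- `S` is a surface with boundary `B` (an edge with both ends in `B` is in one triangle, all other
edges are in two) -/
structure Fs (G : SimpleGraph V) (S B : Set V) : Prop where
  sub : B ⊆ S
  k3 : ∀ s : Finset V, G.IsClique (s : Set V) → (s : Set V) ⊆ B → s.card ≤ 2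
  k4 : ∀ s : Finset V, G.IsClique (s : Set V) → (s : Set V) ⊆ S → s.card ≤ 3
  lkI : ∀ x ∈ S, x ∉ B → IsCyc G (Lk G {x} ∩ S)
  lkB : ∀ x ∈ B, Conn G (Lk G {x} ∩ S) ∧ (Lk G {x} ∩ B).Nonempty ∧
    ∀ y ∈ Lk G {x} ∩ S, {z | EIn G (Lk G {x} ∩ S) y z}.ncard = if y ∈ B then 1 else 2

/-- the triangles of `S` -/
def tri3 [Finite V] (G : SimpleGraph V) (S : Set V) : Finset (Finset V) :=
  (Set.toFinite {t : Finset V | t.card = 3 ∧ G.IsClique (t : Set V) ∧ (t : Set V) ⊆ S}).toFinset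

private theorem third3 {s : Finset V} (h : s.card = 3) {x y : V} (hx : x ∈ s) (hy : y ∈ s)
    (hxy : x ≠ y) : ∃ z ∈ s, z ≠ x ∧ z ≠ y ∧ s = {x, y, z} := by
  have h1 : ((s.erase x).erase y).card = 1 := by
    rw [Finset.card_erase_of_mem (Finset.mem_erase.2 ⟨hxy.symm, hy⟩),
      Finset.card_erase_of_mem hx, h]
  obtain ⟨z, hz⟩ := Finset.card_eq_one.1 h1
  have hz' : z ∈ (s.erase x).erase y := by rw [hz]; exact Finset.mem_singleton_self z
  rw [Finset.mem_erase, Finset.mem_erase] at hz'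
  refine ⟨z, hz'.2.2, hz'.2.1, hz'.1, ?_⟩
  symm
  refine Finset.eq_of_subset_of_card_le ?_ ?_
  · intro v hv
    rw [Finset.mem_insert, Finset.mem_insert, Finset.mem_singleton] at hv
    rcases hv with rfl | rfl | rfl
    · exact hx
    · exact hy
    · exact hz'.2.2
  · rw [h, Finset.card_eq_three.2 ⟨x, y, z, hxy, Ne.symm hz'.2.1, Ne.symm hz'.1, rfl⟩]

private theorem tri_ok {G : SimpleGraph V} {S : Set V} {x y z : V} (a1 : G.Adj x y)
    (a2 : G.Adj y z) (a3 : G.Adj x z) (hx : x ∈ S) (hy : y ∈ S) (hz : z ∈ S) :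
    ({x, y, z} : Finset V).card = 3 ∧ G.IsClique (({x, y, z} : Finset V) : Set V) ∧
      (({x, y, z} : Finset V) : Set V) ⊆ S := by
  refine ⟨Finset.card_eq_three.2 ⟨x, y, z, a1.ne, a3.ne, a2.ne, rfl⟩, ?_, ?_⟩
  · intro u hu v hv huv
    rw [Finset.mem_coe, Finset.mem_insert, Finset.mem_insert, Finset.mem_singleton] at hu hv
    rcases hu with rfl | rfl | rfl <;> rcases hv with rfl | rfl | rfl
    · exact absurd rfl huv
    · exact a1
    · exact a3
    · exact a1.symm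
    · exact absurd rfl huv
    · exact a2
    · exact a3.symm
    · exact a2.symm
    · exact absurd rfl huv
  · intro u hu
    rw [Finset.mem_coe, Finset.mem_insert, Finset.mem_insert, Finset.mem_singleton] at hu
    rcases hu with rfl | rfl | rfl
    · exact hx
    · exact hy
    · exact hz

private theorem two_le {s t : Finset V} {u v : V} (huv : u ≠ v) (hu : u ∈ s) (hv : v ∈ s)
    (hu' : u ∈ t) (hv' : v ∈ t) : 2 ≤ (s ∩ t).card := by
  have h1 : ({u, v} : Finset V) ⊆ s ∩ t := by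
    rw [Finset.insert_subset_iff, Finset.singleton_subset_iff]
    exact ⟨Finset.mem_inter.2 ⟨hu, hu'⟩, Finset.mem_inter.2 ⟨hv, hv'⟩⟩
  have h2 := Finset.card_le_card h1
  rwa [Finset.card_pair huv] at h2

private theorem lift3 {α : Type} {R R' : α → α → Prop} (h : ∀ a b, R a b → R' a b) {a b : α}
    (p : Relation.ReflTransGen R a b) : Relation.ReflTransGen R' a b := by
  induction p with
  | refl => exact Relation.ReflTransGen.refl
  | tail _ e ih => exact ih.tail (h _ _ e)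

private theorem fs_lkc {G : SimpleGraph V} {S B : Set V} (h : Fs G S B) {x : V} (hx : x ∈ S) :
    Conn G (Lk G {x} ∩ S) := by
  by_cases hxB : x ∈ B
  · exact (h.lkB x hxB).1
  · exact (h.lkI x hx hxB).1

private theorem dl_rl [Finite V] {G : SimpleGraph V} {S : Set V} {t : Finset V} {c : V → ℝ}
    (hc : c ∈ Dl t) (hcl : G.IsClique (t : Set V)) (hsub : (t : Set V) ⊆ S) : c ∈ Rl G S := by
  obtain ⟨h1, h2, h3⟩ := hc
  have hs : ∀ x, c x ≠ 0 → x ∈ t := fun x hx => by
    by_contra k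
    exact hx (h3 x k)
  refine ⟨h1, ?_, fun x hx => hsub (Finset.mem_coe.2 (hs x hx)), fun x y hx hy hxy =>
    hcl (Finset.mem_coe.2 (hs x hx)) (Finset.mem_coe.2 (hs y hy)) hxy⟩
  rw [finsum_eq_sum_of_support_subset c (s := t) (fun x hx => Finset.mem_coe.2 (hs x hx))]
  exact h2

private theorem rl_supp [Finite V] {G : SimpleGraph V} {S : Set V} {c : V → ℝ}
    (hc : c ∈ Rl G S) : G.IsClique ((Set.toFinite {x | c x ≠ 0}).toFinset : Set V) ∧
      ((Set.toFinite {x | c x ≠ 0}).toFinset : Set V) ⊆ S ∧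
      (Set.toFinite {x | c x ≠ 0}).toFinset.Nonempty ∧
      c ∈ Dl (Set.toFinite {x | c x ≠ 0}).toFinset := by
  obtain ⟨h1, h2, h3, h4⟩ := hc
  have hm : ∀ x, x ∈ (Set.toFinite {x | c x ≠ 0}).toFinset ↔ c x ≠ 0 := fun x => by
    rw [Set.Finite.mem_toFinset]
    rfl
  have hsum : ∑ x ∈ (Set.toFinite {x | c x ≠ 0}).toFinset, c x = 1 := by
    rw [← finsum_eq_sum_of_support_subset c (s := (Set.toFinite {x | c x ≠ 0}).toFinset)
      (fun x hx => Finset.mem_coe.2 ((hm x).2 hx))]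
    exact h2
  refine ⟨fun x hx y hy hxy => h4 x y ((hm x).1 (Finset.mem_coe.1 hx))
    ((hm y).1 (Finset.mem_coe.1 hy)) hxy, fun x hx => h3 x ((hm x).1 (Finset.mem_coe.1 hx)), ?_,
    h1, hsum, fun x hx => ?_⟩
  · by_contra k
    rw [Finset.not_nonempty_iff_eq_empty] at k
    rw [k, Finset.sum_empty] at hsum
    exact zero_ne_one hsum
  · by_contra k
    exact hx ((hm x).2 k)

theorem mem_tri3 [Finite V] (G : SimpleGraph V) (S : Set V) (t : Finset V) :
    t ∈ tri3 G S ↔ t.card = 3 ∧ G.IsClique (t : Set V) ∧ (t : Set V) ⊆ S := by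
  unfold tri3
  rw [Set.Finite.mem_toFinset]
  rfl

/-- number of triangles at an edge -/
theorem fs_dg [Finite V] {G : SimpleGraph V} {S B : Set V} (h : Fs G S B) {x y : V}
    (hxy : EIn G S x y) : dg (tri3 G S) {x, y} = if x ∈ B ∧ y ∈ B then 1 else 2 := by
  obtain ⟨hadj, hx, hy⟩ := hxy
  have hne : x ≠ y := hadj.ne
  have hyL : y ∈ Lk G {x} ∩ S := ⟨fun u hu => by rw [Set.mem_singleton_iff.1 hu]; exact hadj, hy⟩
  have hcount : {z | EIn G (Lk G {x} ∩ S) y z}.ncard = if x ∈ B ∧ y ∈ B then 1 else 2 := by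
    by_cases hxB : x ∈ B
    · rw [(h.lkB x hxB).2.2 y hyL]
      by_cases hyB : y ∈ B
      · rw [if_pos hyB, if_pos ⟨hxB, hyB⟩]
      · rw [if_neg hyB, if_neg (fun k => hyB k.2)]
    · rw [(h.lkI x hx hxB).2 y hyL, if_neg (fun k => hxB k.1)]
  rw [← hcount]
  have himg : (tri3 G S).filter (fun t => {x, y} ⊆ t) =
      (Set.toFinite {z | EIn G (Lk G {x} ∩ S) y z}).toFinset.image
        (fun z => ({x, y, z} : Finset V)) := by
    ext t
    rw [Finset.mem_filter, mem_tri3, Finset.mem_image]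
    constructor
    · rintro ⟨⟨h3, hcl, hsub⟩, hxyt⟩
      have hxt : x ∈ t := hxyt (Finset.mem_insert_self _ _)
      have hyt : y ∈ t := hxyt (Finset.mem_insert_of_mem (Finset.mem_singleton_self _))
      obtain ⟨z, hz, hzx, hzy, he⟩ := third3 h3 hxt hyt hne
      refine ⟨z, ?_, he.symm⟩
      rw [Set.Finite.mem_toFinset]
      have a1 : G.Adj y z := hcl (Finset.mem_coe.2 hyt) (Finset.mem_coe.2 hz) (Ne.symm hzy)
      have a2 : G.Adj x z := hcl (Finset.mem_coe.2 hxt) (Finset.mem_coe.2 hz) (Ne.symm hzx)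
      exact ⟨a1, hyL, fun u hu => by rw [Set.mem_singleton_iff.1 hu]; exact a2,
        hsub (Finset.mem_coe.2 hz)⟩
    · rintro ⟨z, hz, rfl⟩
      rw [Set.Finite.mem_toFinset] at hz
      obtain ⟨a1, -, a2, hzS⟩ := hz
      have a3 : G.Adj x z := a2 x rfl
      exact ⟨tri_ok hadj a1 a3 hx hy hzS, by
        intro v hv
        rw [Finset.mem_insert, Finset.mem_singleton] at hv
        rw [Finset.mem_insert, Finset.mem_insert, Finset.mem_singleton]
        tauto⟩
  unfold dg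
  rw [himg, Finset.card_image_of_injOn, Set.ncard_eq_toFinset_card _ (Set.toFinite _)]
  intro z hz z' hz' e
  rw [Finset.mem_coe, Set.Finite.mem_toFinset] at hz hz'
  have e' : ({x, y, z} : Finset V) = {x, y, z'} := e
  have h1 : z ∈ ({x, y, z'} : Finset V) := by
    rw [← e']
    exact Finset.mem_insert_of_mem (Finset.mem_insert_of_mem (Finset.mem_singleton_self _))
  rw [Finset.mem_insert, Finset.mem_insert, Finset.mem_singleton] at h1
  rcases h1 with h1 | h1 | h1
  · exact absurd h1 (hz.2.2.1 x rfl).ne'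
  · exact absurd h1 hz.1.ne'
  · exact h1

private theorem fs_ex [Finite V] {G : SimpleGraph V} {S B : Set V} (h : Fs G S B) {x y : V}
    (hxy : EIn G S x y) : ∃ t ∈ tri3 G S, ({x, y} : Finset V) ⊆ t := by
  have h1 := fs_dg h hxy
  have h2 : 0 < dg (tri3 G S) {x, y} := by
    rw [h1]
    split_ifs <;> norm_num
  unfold dg at h2
  obtain ⟨t, ht⟩ := Finset.card_pos.1 h2
  rw [Finset.mem_filter] at ht
  exact ⟨t, ht.1, ht.2⟩

theorem fs_dg_zero [Finite V] {G : SimpleGraph V} {S : Set V} {x y : V} (hne : x ≠ y)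
    (hxy : ¬ EIn G S x y) : dg (tri3 G S) {x, y} = 0 := by
  unfold dg
  rw [Finset.card_eq_zero, Finset.filter_eq_empty_iff]
  intro t ht k
  rw [mem_tri3] at ht
  obtain ⟨-, hcl, hsub⟩ := ht
  have hxt : x ∈ t := k (Finset.mem_insert_self _ _)
  have hyt : y ∈ t := k (Finset.mem_insert_of_mem (Finset.mem_singleton_self _))
  exact hxy ⟨hcl (Finset.mem_coe.2 hxt) (Finset.mem_coe.2 hyt) hne, hsub (Finset.mem_coe.2 hxt),
    hsub (Finset.mem_coe.2 hyt)⟩

theorem fs_lk [Finite V] {G : SimpleGraph V} {S B : Set V} (h : Fs G S B) (x : V) :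
    ∀ s ∈ tri3 G S, ∀ t ∈ tri3 G S, x ∈ s → x ∈ t →
    Relation.ReflTransGen (fun a b => TA (tri3 G S) a b ∧ x ∈ a ∧ x ∈ b) s t := by
  intro s hs t ht hxs hxt
  have hs' := (mem_tri3 G S s).1 hs
  have ht' := (mem_tri3 G S t).1 ht
  have hxS : x ∈ S := hs'.2.2 (Finset.mem_coe.2 hxs)
  obtain ⟨y, hys, hyx⟩ := Finset.exists_mem_ne (by omega : 1 < s.card) x
  obtain ⟨y', hyt, hyx'⟩ := Finset.exists_mem_ne (by omega : 1 < t.card) x
  have inL : ∀ r ∈ tri3 G S, x ∈ r → ∀ u ∈ r, u ≠ x → u ∈ Lk G {x} ∩ S := by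
    intro r hr hxr u hur hux
    have hr' := (mem_tri3 G S r).1 hr
    refine ⟨fun v hv => ?_, hr'.2.2 (Finset.mem_coe.2 hur)⟩
    rw [Set.mem_singleton_iff.1 hv]
    exact hr'.2.1 (Finset.mem_coe.2 hxr) (Finset.mem_coe.2 hur) (Ne.symm hux)
  have hp := (fs_lkc h hxS).2 y (inL s hs hxs y hys hyx) y' (inL t ht hxt y' hyt hyx')
  have key : ∀ u, Relation.ReflTransGen (EIn G (Lk G {x} ∩ S)) y u → u ≠ x →
      ∀ r ∈ tri3 G S, x ∈ r → u ∈ r →
      Relation.ReflTransGen (fun a b => TA (tri3 G S) a b ∧ x ∈ a ∧ x ∈ b) s r := by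
    intro u hu
    induction hu with
    | refl =>
      intro hux r hr hxr hur
      exact Relation.ReflTransGen.single ⟨⟨hs, hr, two_le hux hys hxs hur hxr⟩, hxs, hxr⟩
    | @tail u v _ e ih =>
      intro hvx r hr hxr hvr
      have a1 : G.Adj x u := e.2.1.1 x rfl
      have a2 : G.Adj x v := e.2.2.1 x rfl
      have hm : ({x, u, v} : Finset V) ∈ tri3 G S :=
        (mem_tri3 G S _).2 (tri_ok a1 e.1 a2 hxS e.2.1.2 e.2.2.2)
      have hq := ih a1.ne' _ hm (by simp) (by simp)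
      exact hq.tail ⟨⟨hm, hr, two_le hvx (by simp) (by simp) hvr hxr⟩, by simp, hxr⟩
  exact key y' hp hyx' t ht hxt hyt

theorem fs_conn [Finite V] {G : SimpleGraph V} {S B : Set V} (h : Fs G S B)
    (hc : Conn G S) :
    ∀ s ∈ tri3 G S, ∀ t ∈ tri3 G S, Relation.ReflTransGen (TA (tri3 G S)) s t := by
  intro s hs t ht
  have hs' := (mem_tri3 G S s).1 hs
  have ht' := (mem_tri3 G S t).1 ht
  obtain ⟨x, hxs⟩ := Finset.card_pos.1 (by omega : 0 < s.card)
  obtain ⟨x', hxt⟩ := Finset.card_pos.1 (by omega : 0 < t.card)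
  have lk' : ∀ v, ∀ r ∈ tri3 G S, ∀ r' ∈ tri3 G S, v ∈ r → v ∈ r' →
      Relation.ReflTransGen (TA (tri3 G S)) r r' := by
    intro v r hr r' hr' hv hv'
    exact lift3 (fun a b k => k.1) (fs_lk h v r hr r' hr' hv hv')
  have key : ∀ u, Relation.ReflTransGen (EIn G S) x u → ∀ r ∈ tri3 G S, u ∈ r →
      Relation.ReflTransGen (TA (tri3 G S)) s r := by
    intro u hu
    induction hu with
    | refl =>
      intro r hr hur
      exact lk' x s hs r hr hxs hur
    | @tail u v _ e ih =>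
      intro r hr hvr
      obtain ⟨q, hq, hqe⟩ := fs_ex h e
      have huq : u ∈ q := hqe (Finset.mem_insert_self _ _)
      have hvq : v ∈ q := hqe (Finset.mem_insert_of_mem (Finset.mem_singleton_self _))
      exact (ih q hq huq).trans (lk' v q hq r hr hvq hvr)
  exact key x' (hc.2 x (hs'.2.2 (Finset.mem_coe.2 hxs)) x' (ht'.2.2 (Finset.mem_coe.2 hxt))) t ht
    hxt

theorem fs_hz [Finite V] {G : SimpleGraph V} {S B : Set V} (h : Fs G S B) (hz : HZ G S) :
    ∀ a : V → V → ZMod 2, (∀ x y, a x y = a y x) →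
    (∀ x y z, ({x, y, z} : Finset V) ∈ tri3 G S → a x y + a y z = a x z) →
    ∃ f : V → ZMod 2, ∀ t ∈ tri3 G S, ∀ x ∈ t, ∀ y ∈ t, x ≠ y → a x y = f x + f y := by
  intro a ha hco
  have hm : (fun x y => if EIn G S x y then a x y else 0) ∈ Z1 G S := by
    refine ⟨fun x y e => if_neg e, fun x y => ?_, fun x y z e1 e2 e3 => ?_⟩
    · show (if EIn G S x y then a x y else 0) = (if EIn G S y x then a y x else 0)
      by_cases e : EIn G S x y
      · have e' : EIn G S y x := ⟨e.1.symm, e.2.2, e.2.1⟩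
        rw [if_pos e, if_pos e', ha]
      · rw [if_neg e, if_neg (fun e' => e ⟨e'.1.symm, e'.2.2, e'.2.1⟩)]
    · show (if EIn G S x y then a x y else 0) + (if EIn G S y z then a y z else 0) =
        (if EIn G S x z then a x z else 0)
      rw [if_pos e1, if_pos e2, if_pos e3]
      exact hco x y z ((mem_tri3 G S _).2 (tri_ok e1.1 e2.1 e3.1 e1.2.1 e1.2.2 e2.2.2))
  obtain ⟨f, hf⟩ := hz _ hm
  refine ⟨f, fun t ht x hx y hy hxy => ?_⟩
  have ht' := (mem_tri3 G S t).1 ht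
  have e : EIn G S x y := ⟨ht'.2.1 (Finset.mem_coe.2 hx) (Finset.mem_coe.2 hy) hxy,
    ht'.2.2 (Finset.mem_coe.2 hx), ht'.2.2 (Finset.mem_coe.2 hy)⟩
  have h5 : (if EIn G S x y then a x y else 0) = f x + f y := hf x y e
  rwa [if_pos e] at h5

theorem fs_dsc [Finite V] {G : SimpleGraph V} {S B : Set V} (h : Fs G S B) (hB : B.Nonempty)
    (hc : Conn G S) (hz : HZ G S) : Dsc (tri3 G S) := by
  refine
    { card := fun t ht => ((mem_tri3 G S t).1 ht).1
      deg := ?_
      lk := fs_lk h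
      conn := fs_conn h hc
      hz := fs_hz h hz
      bd := ?_ }
  · intro e he
    obtain ⟨x, y, hxy, rfl⟩ := Finset.card_eq_two.1 he
    by_cases k : EIn G S x y
    · rw [fs_dg h k]
      split_ifs <;> norm_num
    · rw [fs_dg_zero hxy k]
      norm_num
  · obtain ⟨x, hx⟩ := hB
    obtain ⟨y, hy1, hy2⟩ := (h.lkB x hx).2.1
    have a : G.Adj x y := hy1 x rfl
    refine ⟨{x, y}, Finset.card_pair a.ne, ?_⟩
    rw [fs_dg h ⟨a, h.sub hx, h.sub hy2⟩, if_pos ⟨hx, hy2⟩]

theorem fs_re [Finite V] {G : SimpleGraph V} {S B : Set V} (h : Fs G S B) :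
    ReT (tri3 G S) = Rl G S := by
  ext c
  constructor
  · rintro ⟨t, ht, hc⟩
    have ht' := (mem_tri3 G S t).1 ht
    exact dl_rl hc ht'.2.1 ht'.2.2
  · intro hc
    obtain ⟨hcl, hsub, hne, hD⟩ := rl_supp hc
    have hc3 := h.k4 _ hcl hsub
    obtain ⟨t, ht, hst⟩ : ∃ t ∈ tri3 G S, (Set.toFinite {x | c x ≠ 0}).toFinset ⊆ t := by
      have hc1 := Finset.card_pos.2 hne
      rcases (by omega : (Set.toFinite {x | c x ≠ 0}).toFinset.card = 1 ∨
        (Set.toFinite {x | c x ≠ 0}).toFinset.card = 2 ∨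
        (Set.toFinite {x | c x ≠ 0}).toFinset.card = 3) with k | k | k
      · obtain ⟨x, hx⟩ := Finset.card_eq_one.1 k
        have hxS : x ∈ S := hsub (by rw [hx]; simp)
        obtain ⟨y, hy1, hy2⟩ := (fs_lkc h hxS).1
        obtain ⟨q, hq, hqe⟩ := fs_ex h (⟨hy1 x rfl, hxS, hy2⟩ : EIn G S x y)
        refine ⟨q, hq, ?_⟩
        rw [hx, Finset.singleton_subset_iff]
        exact hqe (Finset.mem_insert_self _ _)
      · obtain ⟨x, y, hxy, he⟩ := Finset.card_eq_two.1 k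
        have hxS : x ∈ S := hsub (by rw [he]; simp)
        have hyS : y ∈ S := hsub (by rw [he]; simp)
        have a : G.Adj x y := hcl (by rw [he]; simp) (by rw [he]; simp) hxy
        obtain ⟨q, hq, hqe⟩ := fs_ex h (⟨a, hxS, hyS⟩ : EIn G S x y)
        exact ⟨q, hq, by rw [he]; exact hqe⟩
      · exact ⟨_, (mem_tri3 G S _).2 ⟨k, hcl, hsub⟩, Finset.Subset.refl _⟩
    exact ⟨t, ht, Dl_mono hst hD⟩

/-- the polygon is the boundary -/
theorem fs_pg [Finite V] {G : SimpleGraph V} {S B : Set V} (h : Fs G S B) {l : List V}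
    (hl : 3 ≤ l.length) (he : ∀ e, e ∈ Ce l ↔ e.card = 2 ∧ dg (tri3 G S) e = 1) :
    Pg l = Rl G B := by
  have hPg : ∀ c, c ∈ Pg l ↔ ∃ e ∈ Ce l, c ∈ Dl e := by
    intro c
    cases l with
    | nil => simp at hl
    | cons x l =>
      have h2 : 2 ≤ (x :: l ++ [x]).length := by
        simp only [List.length_append, List.length_cons, List.length_nil]
        omega
      show c ∈ Pa (x :: l ++ [x]) ↔ _
      rw [mem_Pa h2]
      constructor
      · rintro ⟨l₁, l₂, u, v, e, hc⟩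
        exact ⟨{u, v}, ⟨l₁, l₂, u, v, e, rfl⟩, hc⟩
      · rintro ⟨e, ⟨l₁, l₂, u, v, e1, rfl⟩, hc⟩
        exact ⟨l₁, l₂, u, v, e1, hc⟩
  have hbe : ∀ u v, u ≠ v → (dg (tri3 G S) {u, v} = 1 ↔ G.Adj u v ∧ u ∈ B ∧ v ∈ B) := by
    intro u v huv
    constructor
    · intro k
      by_cases e : EIn G S u v
      · rw [fs_dg h e] at k
        by_cases hb : u ∈ B ∧ v ∈ B
        · exact ⟨e.1, hb⟩
        · rw [if_neg hb] at k
          norm_num at k
      · rw [fs_dg_zero huv e] at k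
        norm_num at k
    · rintro ⟨a, hu, hv⟩
      rw [fs_dg h ⟨a, h.sub hu, h.sub hv⟩, if_pos ⟨hu, hv⟩]
  ext c
  rw [hPg c]
  constructor
  · rintro ⟨e, hel, hc⟩
    obtain ⟨he2, hed⟩ := (he e).1 hel
    obtain ⟨x, y, hxy, rfl⟩ := Finset.card_eq_two.1 he2
    obtain ⟨a, hx, hy⟩ := (hbe x y hxy).1 hed
    refine dl_rl hc ?_ ?_
    · intro u hu v hv huv
      rw [Finset.mem_coe, Finset.mem_insert, Finset.mem_singleton] at hu hv
      rcases hu with rfl | rfl <;> rcases hv with rfl | rfl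
      · exact absurd rfl huv
      · exact a
      · exact a.symm
      · exact absurd rfl huv
    · intro u hu
      rw [Finset.mem_coe, Finset.mem_insert, Finset.mem_singleton] at hu
      rcases hu with rfl | rfl
      · exact hx
      · exact hy
  · intro hc
    obtain ⟨hcl, hsub, hne, hD⟩ := rl_supp hc
    have hc3 := h.k3 _ hcl hsub
    have hc1 := Finset.card_pos.2 hne
    obtain ⟨x, y, a, hx, hy, hst⟩ : ∃ x y, G.Adj x y ∧ x ∈ B ∧ y ∈ B ∧
        (Set.toFinite {x | c x ≠ 0}).toFinset ⊆ {x, y} := by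
      rcases (by omega : (Set.toFinite {x | c x ≠ 0}).toFinset.card = 1 ∨
        (Set.toFinite {x | c x ≠ 0}).toFinset.card = 2) with k | k
      · obtain ⟨x, hx⟩ := Finset.card_eq_one.1 k
        have hxB : x ∈ B := hsub (by rw [hx]; simp)
        obtain ⟨y, hy1, hy2⟩ := (h.lkB x hxB).2.1
        refine ⟨x, y, hy1 x rfl, hxB, hy2, ?_⟩
        rw [hx, Finset.singleton_subset_iff]
        exact Finset.mem_insert_self _ _
      · obtain ⟨x, y, hxy, he'⟩ := Finset.card_eq_two.1 k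
        have hxS : x ∈ B := hsub (by rw [he']; simp)
        have hyS : y ∈ B := hsub (by rw [he']; simp)
        have a : G.Adj x y := hcl (by rw [he']; simp) (by rw [he']; simp) hxy
        exact ⟨x, y, a, hxS, hyS, by rw [he']⟩
    exact ⟨{x, y}, (he _).2 ⟨Finset.card_pair a.ne, (hbe x y a.ne).2 ⟨a, hx, hy⟩⟩,
      Dl_mono hst hD⟩

end MOT.J
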