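import Pool.Agent.MOT.JuG
import Pool.Agent.MOT.JtE

/-!
# MOT/JuH: the 2-dimensional classification
-/

open Classical

noncomputable section

namespace MOT.J

variable {V : Type}

/-- D2 -/
theorem ball_fs [Finite V] {G : SimpleGraph V} {S B : Set V} (h : Fs G S B) (hB : B.Nonempty)
    (hc : Conn G S) (hz : HZ G S) : Ball 2 (Rl G S) (Rl G B) := by
  obtain ⟨l, hl, he⟩ := sh_of_dsc (tri3 G S) (fs_dsc h hB hc hz)
  have h1 := ball_of_sh hl
  rw [fs_re h, fs_pg h (sh_list hl).2.1 he] at h1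
  exact h1

end MOT.J
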