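import Pool.Agent.MOT.JxDef
import Pool.Agent.MOT.Srf

/-!
# MOT/JxBa: cells with 2 colours are surfaces with boundary

Link of `s` in `XX G κ A` (graph `sd G`): the elements above `s` and the elements of `XX G κ A`
below `s`.
-/

open Classical

noncomputable section

namespace MOT.J

variable {V C : Type}

/-! ## private helpers -/

theorem jxb_lt {G : SimpleGraph V} {s t : Cq G} (h : s < t) : s.1.card < t.1.card :=
  Finset.card_lt_card (Cq.lt_iff.1 h)

theorem jxb_lk {G : SimpleGraph V} (s : Cq G) (X : Set (Cq G)) :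
    Lk (sd G) {s} ∩ X = ({t | t < s} ∩ X) ∪ ({t | s < t} ∩ X) := by
  ext t
  constructor
  · rintro ⟨h1, h2⟩
    rcases sd_adj.1 (h1 s rfl) with h | h
    · exact Or.inr ⟨h, h2⟩
    · exact Or.inl ⟨h, h2⟩
  · rintro (⟨h1, h2⟩ | ⟨h1, h2⟩)
    · refine ⟨fun y hy => ?_, h2⟩
      rw [Set.mem_singleton_iff] at hy
      rw [hy]
      exact sd_adj.2 (Or.inr h1)
    · refine ⟨fun y hy => ?_, h2⟩
      rw [Set.mem_singleton_iff] at hy
      rw [hy]
      exact sd_adj.2 (Or.inl h1)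

theorem jxb_up {G : SimpleGraph V} {κ : V → C} {A : Set C} {s t : Cq G}
    (h : s ∈ XX G κ A) (hst : s ≤ t) : t ∈ XX G κ A := by
  intro a ha
  obtain ⟨x, hx, hxa⟩ := h a ha
  exact ⟨x, Cq.le_iff.1 hst hx, hxa⟩

theorem jxb_bup {G : SimpleGraph V} {κ : V → C} {A : Set C} {s t : Cq G}
    (h : s ∈ Bd G κ A) (hst : s ≤ t) : t ∈ Bd G κ A := by
  obtain ⟨h1, b, hb, h2⟩ := h
  exact ⟨jxb_up h1 hst, b, hb, jxb_up h2 hst⟩

theorem jxb_cnt {κ : V → C} {B : Set C} {t : Finset V} (h : B ⊆ κ '' (t : Set V)) :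
    B.ncard ≤ t.card := by
  have h1 := Set.ncard_le_ncard h (t.finite_toSet.image κ)
  have h2 := Set.ncard_image_le (f := κ) t.finite_toSet
  rw [Set.ncard_coe_finset] at h2
  exact h1.trans h2

theorem jxb_two {G : SimpleGraph V} {κ : V → C} {A : Set C} (hA : A.ncard = 2)
    {s : Cq G} (hs : s ∈ XX G κ A) : 2 ≤ s.1.card := by
  rw [← hA]
  exact jxb_cnt fun a ha => hs a ha

theorem jxb_three {G : SimpleGraph V} {κ : V → C} {A : Set C} (hA : A.ncard = 2)
    {s : Cq G} (hs : s ∈ Bd G κ A) : 3 ≤ s.1.card := by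
  obtain ⟨h1, b, hb, h2⟩ := hs
  have hf : A.Finite := Set.finite_of_ncard_ne_zero (by omega)
  have h3 : (insert b A).ncard = 3 := by rw [Set.ncard_insert_of_notMem hb hf, hA]
  rw [← h3]
  refine jxb_cnt (κ := κ) fun a ha => ?_
  rcases Set.mem_insert_iff.1 ha with h | h
  · rw [h]
    exact h2 b rfl
  · exact h1 a h

/-- interior simplices: the link is the link in a frontier -/
theorem jxb_int [Finite V] {G : SimpleGraph V} (hG : IsSph3 G) {κ : V → C} {A : Set C}
    (hA : A.ncard = 2) {s : Cq G} (hs : s ∈ XX G κ A) (hb : s ∉ Bd G κ A) :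
    IsCyc (sd G) (Lk (sd G) {s} ∩ XX G κ A) := by
  obtain ⟨a, b, hab, rfl⟩ := Set.ncard_eq_two.1 hA
  have hall : ∀ x ∈ s.1, κ x = a ∨ κ x = b := by
    intro x hx
    by_contra hk
    refine hb ⟨hs, κ x, fun h => hk ?_, fun c hc => ⟨x, hx, (Set.mem_singleton_iff.1 hc).symm⟩⟩
    rcases Set.mem_insert_iff.1 h with h | h
    · exact Or.inl h
    · exact Or.inr (Set.mem_singleton_iff.1 h)
  have hsa := hs a (Set.mem_insert _ _)
  have hsb := hs b (Set.mem_insert_of_mem _ rfl)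
  have key : ∀ t : Cq G, (t ≤ s ∨ s ≤ t) →
      (t ∈ XX G κ {a, b} ↔ t ∈ Fr G {v | κ v = a}) := by
    intro t ht
    constructor
    · intro h
      obtain ⟨x, hx, hxa⟩ := h a (Set.mem_insert _ _)
      obtain ⟨y, hy, hyb⟩ := h b (Set.mem_insert_of_mem _ rfl)
      refine ⟨⟨x, hx, hxa⟩, ⟨y, hy, fun h => hab ?_⟩⟩
      have h' : κ y = a := h
      rw [← h', hyb]
    · rintro ⟨⟨x, hx, hxa⟩, ⟨y, hy, hya⟩⟩
      rcases ht with ht | ht
      · have hyb : κ y = b := (hall y (Cq.le_iff.1 ht hy)).resolve_left hya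
        intro c hc
        rcases Set.mem_insert_iff.1 hc with h | h
        · rw [h]
          exact ⟨x, hx, hxa⟩
        · rw [Set.mem_singleton_iff.1 h]
          exact ⟨y, hy, hyb⟩
      · exact jxb_up hs ht
  have e : Lk (sd G) {s} ∩ XX G κ {a, b} = Lk (sd G) {s} ∩ Fr G {v | κ v = a} := by
    ext t
    have h0 : t ∈ Lk (sd G) {s} → (t ≤ s ∨ s ≤ t) := fun h => by
      rcases sd_adj.1 (h s rfl) with h | h
      · exact Or.inr h.le
      · exact Or.inl h.le
    exact ⟨fun h => ⟨h.1, (key t (h0 h.1)).1 h.2⟩, fun h => ⟨h.1, (key t (h0 h.1)).2 h.2⟩⟩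
  rw [e]
  exact (surf_Fr hG).lk s ((key s (Or.inl le_rfl)).1 hs)

/-- a cone over two points -/
theorem jxb_V {W : Type} {H : SimpleGraph W} {L B U : Set W} {e : W} (he : e ∉ B)
    (heU : e ∉ U) (hL : L = insert e U) (hU : U.ncard = 2) (hUB : U ⊆ B)
    (hn : ∀ x ∈ U, ∀ y ∈ U, ¬ H.Adj x y) (ha : ∀ x ∈ U, H.Adj e x) :
    Conn H L ∧ ∀ y ∈ L, {z | EIn H L y z}.ncard = if y ∈ B then 1 else 2 := by
  subst hL
  have heL : e ∈ insert e U := Set.mem_insert e U
  refine ⟨cone_Conn heL fun y hy hne => ha y ((Set.mem_insert_iff.1 hy).resolve_left hne), ?_⟩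
  intro y hy
  rcases Set.mem_insert_iff.1 hy with rfl | hyU
  · rw [if_neg he, ← hU]
    congr 1
    ext z
    constructor
    · rintro ⟨h1, -, h2⟩
      rcases Set.mem_insert_iff.1 h2 with rfl | h2
      · exact absurd h1 (H.loopless.irrefl _)
      · exact h2
    · intro hz
      exact ⟨ha z hz, heL, Set.mem_insert_of_mem _ hz⟩
  · rw [if_pos (hUB hyU), ← Set.ncard_singleton e]
    congr 1
    ext z
    constructor
    · rintro ⟨h1, -, h2⟩
      rcases Set.mem_insert_iff.1 h2 with rfl | h2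
      · rfl
      · exact absurd h1 (hn y hyU z h2)
    · intro hz
      rw [Set.mem_singleton_iff.1 hz]
      exact ⟨(ha y hyU).symm, hy, heL⟩

/-- degrees are transported -/
theorem jxb_deg {W W' : Type} {G : SimpleGraph W} {H : SimpleGraph W'} {A : Set W}
    {B : Set W'} {e : W → W'} (h : GIso G H A B e) {x : W} (hx : x ∈ A) :
    {y | EIn G A x y}.ncard = {v | EIn H B (e x) v}.ncard := by
  have h1 : {v | EIn H B (e x) v} = e '' {y | EIn G A x y} := by
    ext v
    constructor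
    · intro hv
      obtain ⟨y, hy, rfl⟩ := h.bij.surjOn hv.2.2
      exact ⟨y, (h.ein_iff hx hy).2 hv, rfl⟩
    · rintro ⟨y, hy, rfl⟩
      exact h.ein hy
  rw [h1, Set.InjOn.ncard_image (h.bij.injOn.mono fun y hy => hy.2.2)]

theorem jxb_dec {p : Prop} [Decidable p] {b : Bool} (h : p ↔ b = true) :
    decide p = b := by
  cases b
  · exact decide_eq_false fun hp => Bool.false_ne_true (h.1 hp)
  · exact decide_eq_true (h.2 rfl)

/-! ### a finite model -/

abbrev B4 : Type := Bool × Bool × Bool × Bool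

def le4 (u v : B4) : Bool :=
  (!u.1 || v.1) && (!u.2.1 || v.2.1) && (!u.2.2.1 || v.2.2.1) && (!u.2.2.2 || v.2.2.2)

def ad4 (u v : B4) : Bool := (le4 u v && !le4 v u) || (le4 v u && !le4 u v)

def in4 (k : Fin 3) (u : B4) : Bool :=
  (u.1 || (k == 0 && u.2.2.2)) && (u.2.1 || (k == 1 && u.2.2.2)) &&
    !(u.1 && u.2.1 && u.2.2.1 && u.2.2.2)

def bd4 (k : Fin 3) (u : B4) : Bool := u.2.2.1 || (k == 2 && u.2.2.2)

theorem deg4 : ∀ k : Fin 3, ∀ u : B4, in4 k u = true →
    (Finset.univ.filter (fun v : B4 => ad4 u v = true ∧ in4 k v = true)).card =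
      if bd4 k u = true then 1 else 2 := by
  decide +kernel

def ctr (k : Fin 3) : B4 :=
  if k = 2 then (true, true, false, false) else (true, true, false, true)

theorem conn4 : ∀ k : Fin 3, in4 k (ctr k) = true ∧ ∀ u : B4, in4 k u = true →
    ∃ v : B4, in4 k v = true ∧ (u = v ∨ ad4 u v = true) ∧
      (v = ctr k ∨ ad4 v (ctr k) = true) := by
  decide +kernel

theorem ad4_symm : ∀ u v : B4, ad4 u v = true → ad4 v u = true := by
  decide +kernel

theorem ad4_irr : ∀ u : B4, ¬ ad4 u u = true := by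
  decide +kernel

def H4 : SimpleGraph B4 where
  Adj u v := ad4 u v = true
  symm := ⟨fun u v h => ad4_symm u v h⟩
  loopless := ⟨fun u h => ad4_irr u h⟩

theorem H4_conn (k : Fin 3) : Conn H4 {u | in4 k u = true} := by
  obtain ⟨h0, h1⟩ := conn4 k
  have key : ∀ u : B4, in4 k u = true →
      Relation.ReflTransGen (EIn H4 {u | in4 k u = true}) u (ctr k) := by
    intro u hu
    obtain ⟨v, hv, h2, h3⟩ := h1 u hu
    have h4 : Relation.ReflTransGen (EIn H4 {u | in4 k u = true}) u v := by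
      rcases h2 with h2 | h2
      · rw [h2]
      · exact Relation.ReflTransGen.single ⟨h2, hu, hv⟩
    have h5 : Relation.ReflTransGen (EIn H4 {u | in4 k u = true}) v (ctr k) := by
      rcases h3 with h3 | h3
      · rw [h3]
      · exact Relation.ReflTransGen.single ⟨h3, hv, h0⟩
    exact h4.trans h5
  exact ⟨⟨ctr k, h0⟩, fun u hu v hv => (key u hu).trans (rtg_symm (key v hv))⟩

theorem H4_deg (k : Fin 3) {u : B4} (hu : in4 k u = true) :
    {v | EIn H4 {u | in4 k u = true} u v}.ncard = if bd4 k u = true then 1 else 2 := by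
  rw [← deg4 k u hu, ← Set.ncard_coe_finset]
  congr 1
  ext v
  simp only [Finset.coe_filter, Finset.mem_univ, true_and]
  exact ⟨fun h => ⟨h.1, h.2.2⟩, fun h => ⟨h.1, hu, h.2⟩⟩


end MOT.J
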