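import Pool.Agent.MOT.JxBa

/-!
# MOT/JxBb: links of tetrahedra with three or four colours
-/

open Classical

noncomputable section

namespace MOT.J

variable {V C : Type}

/-- `|s| = 4`, three or four colours: a path with 5 or 3 vertices, ends in `Bd` -/
theorem lk_four_bd [Finite V] {G : SimpleGraph V} (hG : IsSph3 G) {κ : V → C} {A : Set C}
    (hA : A.ncard = 2) {s : Cq G} (hs : s ∈ Bd G κ A) (h4 : s.1.card = 4) :
    Conn (sd G) (Lk (sd G) {s} ∩ XX G κ A) ∧ (Lk (sd G) {s} ∩ Bd G κ A).Nonempty ∧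
    ∀ y ∈ Lk (sd G) {s} ∩ XX G κ A,
      {z | EIn (sd G) (Lk (sd G) {s} ∩ XX G κ A) y z}.ncard = if y ∈ Bd G κ A then 1 else 2 := by
  obtain ⟨a, b, hab, rfl⟩ := Set.ncard_eq_two.1 hA
  have hs' := hs
  obtain ⟨hsX, c, hc, hsc⟩ := hs'
  obtain ⟨x, hx, hxa⟩ := hsX a (Set.mem_insert _ _)
  obtain ⟨y, hy, hyb⟩ := hsX b (Set.mem_insert_of_mem _ rfl)
  obtain ⟨z, hz, hzc⟩ := hsc c rfl
  have hca : c ≠ a := fun h => hc (by rw [h]; exact Set.mem_insert _ _)
  have hcb : c ≠ b := fun h => hc (by rw [h]; exact Set.mem_insert_of_mem _ rfl)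
  have hxy : x ≠ y := by rintro rfl; exact hab (hxa.symm.trans hyb)
  have hxz : x ≠ z := by rintro rfl; exact hca (hzc.symm.trans hxa)
  have hyz : y ≠ z := by rintro rfl; exact hcb (hzc.symm.trans hyb)
  have h3 : ({x, y, z} : Finset V).card = 3 :=
    Finset.card_eq_three.2 ⟨x, y, z, hxy, hxz, hyz, rfl⟩
  obtain ⟨w, hw, hw'⟩ := Finset.exists_mem_notMem_of_card_lt_card
    (by omega : ({x, y, z} : Finset V).card < s.1.card)
  simp only [Finset.mem_insert, Finset.mem_singleton, not_or] at hw'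
  obtain ⟨hwx, hwy, hwz⟩ := hw'
  have hs4 : ∀ v, v ∈ s.1 ↔ v = x ∨ v = y ∨ v = z ∨ v = w := by
    have h5 : ({w, x, y, z} : Finset V) = s.1 := by
      refine Finset.eq_of_subset_of_card_le ?_ ?_
      · intro v hv
        simp only [Finset.mem_insert, Finset.mem_singleton] at hv
        rcases hv with rfl | rfl | rfl | rfl
        · exact hw
        · exact hx
        · exact hy
        · exact hz
      · rw [h4, Finset.card_insert_of_notMem (by
          simp only [Finset.mem_insert, Finset.mem_singleton, not_or]; exact ⟨hwx, hwy, hwz⟩), h3]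
    intro v
    rw [← h5]
    simp only [Finset.mem_insert, Finset.mem_singleton]
    constructor
    · rintro (h | h | h | h)
      · exact Or.inr (Or.inr (Or.inr h))
      · exact Or.inl h
      · exact Or.inr (Or.inl h)
      · exact Or.inr (Or.inr (Or.inl h))
    · rintro (h | h | h | h)
      · exact Or.inr (Or.inl h)
      · exact Or.inr (Or.inr (Or.inl h))
      · exact Or.inr (Or.inr (Or.inr h))
      · exact Or.inl h
  have hsub3 : ∀ u, (u = x ∨ u = y ∨ u = z) → (u = x ∨ u = y ∨ u = z ∨ u = w) := fun u h =>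
    h.elim Or.inl fun h => Or.inr (h.elim Or.inl fun h => Or.inr (Or.inl h))
  -- the type of the fourth vertex
  obtain ⟨k, hka, hkb, hkc⟩ : ∃ k : Fin 3, (κ w = a ↔ k = 0) ∧ (κ w = b ↔ k = 1) ∧
      ((κ w ≠ a ∧ κ w ≠ b) ↔ k = 2) := by
    by_cases h1 : κ w = a
    · refine ⟨0, by simp [h1], ?_, ?_⟩
      · constructor
        · intro h; exact absurd (h1.symm.trans h) hab
        · intro h; exact absurd h (by decide)
      · constructor
        · intro h; exact absurd h1 h.1
        · intro h; exact absurd h (by decide)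
    · by_cases h2 : κ w = b
      · refine ⟨1, ?_, by simp [h2], ?_⟩
        · constructor
          · intro h; exact absurd h h1
          · intro h; exact absurd h (by decide)
        · constructor
          · intro h; exact absurd h2 h.2
          · intro h; exact absurd h (by decide)
      · refine ⟨2, ?_, ?_, by simp [h1, h2]⟩
        · constructor
          · intro h; exact absurd h h1
          · intro h; exact absurd h (by decide)
        · constructor
          · intro h; exact absurd h h2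
          · intro h; exact absurd h (by decide)
  let φ : Cq G → B4 := fun t => (decide (x ∈ t.1), decide (y ∈ t.1), decide (z ∈ t.1),
    decide (w ∈ t.1))
  have hle : ∀ t t' : Cq G, t ≤ s → (t ≤ t' ↔ le4 (φ t) (φ t') = true) := by
    intro t t' ht
    have h5 : le4 (φ t) (φ t') = true ↔ ((x ∈ t.1 → x ∈ t'.1) ∧ (y ∈ t.1 → y ∈ t'.1) ∧
        (z ∈ t.1 → z ∈ t'.1) ∧ (w ∈ t.1 → w ∈ t'.1)) := by
      simp only [le4, φ, Bool.and_eq_true, Bool.or_eq_true, Bool.not_eq_true', decide_eq_true_eq,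
        decide_eq_false_iff_not, ← imp_iff_not_or, and_assoc]
    rw [h5]
    constructor
    · intro h
      exact ⟨fun k => h k, fun k => h k, fun k => h k, fun k => h k⟩
    · rintro ⟨k1, k2, k3, k4⟩ v hv
      rcases (hs4 v).1 (ht hv) with h | h | h | h
      · rw [h] at hv ⊢; exact k1 hv
      · rw [h] at hv ⊢; exact k2 hv
      · rw [h] at hv ⊢; exact k3 hv
      · rw [h] at hv ⊢; exact k4 hv
  have hadj : ∀ t t' : Cq G, t ≤ s → t' ≤ s →
      ((sd G).Adj t t' ↔ H4.Adj (φ t) (φ t')) := by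
    intro t t' ht ht'
    have h5 : H4.Adj (φ t) (φ t') ↔ ((le4 (φ t) (φ t') = true ∧ ¬ le4 (φ t') (φ t) = true) ∨
        (le4 (φ t') (φ t) = true ∧ ¬ le4 (φ t) (φ t') = true)) := by
      show ad4 (φ t) (φ t') = true ↔ _
      simp only [ad4, Bool.and_eq_true, Bool.or_eq_true, Bool.not_eq_true', Bool.not_eq_true]
    rw [h5, ← hle t t' ht, ← hle t' t ht', sd_adj, lt_iff_le_not_ge, lt_iff_le_not_ge]
  have hXX : ∀ t : Cq G, t ≤ s → (t ∈ XX G κ {a, b} ↔
      (x ∈ t.1 ∨ (k = 0 ∧ w ∈ t.1)) ∧ (y ∈ t.1 ∨ (k = 1 ∧ w ∈ t.1))) := by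
    intro t ht
    constructor
    · intro h
      obtain ⟨x', hx', hxa'⟩ := h a (Set.mem_insert _ _)
      obtain ⟨y', hy', hyb'⟩ := h b (Set.mem_insert_of_mem _ rfl)
      constructor
      · rcases (hs4 x').1 (ht hx') with h | h | h | h
        · rw [h] at hx'; exact Or.inl hx'
        · rw [h] at hxa'; exact absurd (hxa'.symm.trans hyb) hab
        · rw [h] at hxa'; exact absurd (hzc.symm.trans hxa') hca
        · rw [h] at hx' hxa'; exact Or.inr ⟨hka.1 hxa', hx'⟩
      · rcases (hs4 y').1 (ht hy') with h | h | h | h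
        · rw [h] at hyb'; exact absurd (hxa.symm.trans hyb') hab
        · rw [h] at hy'; exact Or.inl hy'
        · rw [h] at hyb'; exact absurd (hzc.symm.trans hyb') hcb
        · rw [h] at hy' hyb'; exact Or.inr ⟨hkb.1 hyb', hy'⟩
    · rintro ⟨h1, h2⟩ d hd
      rcases Set.mem_insert_iff.1 hd with h | h
      · rw [h]
        rcases h1 with h1 | ⟨h1, h1'⟩
        · exact ⟨x, h1, hxa⟩
        · exact ⟨w, h1', hka.2 h1⟩
      · rw [Set.mem_singleton_iff.1 h]
        rcases h2 with h2 | ⟨h2, h2'⟩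
        · exact ⟨y, h2, hyb⟩
        · exact ⟨w, h2', hkb.2 h2⟩
  have hBB : ∀ t : Cq G, t ≤ s → t ∈ XX G κ {a, b} → (t ∈ Bd G κ {a, b} ↔ bd4 k (φ t) = true) := by
    intro t ht htX
    have h5 : bd4 k (φ t) = true ↔ (z ∈ t.1 ∨ (k = 2 ∧ w ∈ t.1)) := by
      simp only [bd4, φ, Bool.and_eq_true, Bool.or_eq_true, decide_eq_true_eq, beq_iff_eq]
    rw [h5]
    constructor
    · rintro ⟨-, d, hd, h⟩
      obtain ⟨v, hv, hvd⟩ := h d rfl
      have hda : d ≠ a := fun h => hd (by rw [h]; exact Set.mem_insert _ _)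
      have hdb : d ≠ b := fun h => hd (by rw [h]; exact Set.mem_insert_of_mem _ rfl)
      rcases (hs4 v).1 (ht hv) with h | h | h | h
      · rw [h] at hvd; exact absurd (hvd.symm.trans hxa) hda
      · rw [h] at hvd; exact absurd (hvd.symm.trans hyb) hdb
      · rw [h] at hv; exact Or.inl hv
      · rw [h] at hv hvd
        refine Or.inr ⟨hkc.1 ⟨?_, ?_⟩, hv⟩
        · rw [hvd]; exact hda
        · rw [hvd]; exact hdb
    · rintro (h | ⟨h, h'⟩)
      · refine ⟨htX, c, hc, fun d hd => ⟨z, h, ?_⟩⟩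
        rw [Set.mem_singleton_iff.1 hd]; exact hzc
      · refine ⟨htX, κ w, fun hd => ?_, fun d hd => ⟨w, h', (Set.mem_singleton_iff.1 hd).symm⟩⟩
        have h6 := hkc.2 h
        rcases Set.mem_insert_iff.1 hd with h7 | h7
        · exact h6.1 h7
        · exact h6.2 (Set.mem_singleton_iff.1 h7)
  have hL : Lk (sd G) {s} ∩ XX G κ {a, b} = {t | t < s ∧ t ∈ XX G κ {a, b}} := by
    rw [jxb_lk]
    ext t
    constructor
    · rintro (⟨h1, h2⟩ | ⟨h1, h2⟩)
      · exact ⟨h1, h2⟩
      · exfalso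
        have h5 := jxb_lt (show s < t from h1)
        have h6 := hG.k5 t.1 t.2.2
        omega
    · rintro ⟨h1, h2⟩
      exact Or.inl ⟨h1, h2⟩
  have hin : ∀ t : Cq G, t ≤ s → ((t < s ∧ t ∈ XX G κ {a, b}) ↔ in4 k (φ t) = true) := by
    intro t ht
    have h5 : in4 k (φ t) = true ↔ ((x ∈ t.1 ∨ (k = 0 ∧ w ∈ t.1)) ∧
        (y ∈ t.1 ∨ (k = 1 ∧ w ∈ t.1))) ∧ ¬ (x ∈ t.1 ∧ y ∈ t.1 ∧ z ∈ t.1 ∧ w ∈ t.1) := by
      have h7 : (!((φ t).1 && (φ t).2.1 && (φ t).2.2.1 && (φ t).2.2.2)) = true ↔
          ¬ (x ∈ t.1 ∧ y ∈ t.1 ∧ z ∈ t.1 ∧ w ∈ t.1) := by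
        rw [Bool.not_eq_true', ← Bool.not_eq_true]
        simp only [φ, Bool.and_eq_true, decide_eq_true_eq, and_assoc]
      unfold in4
      rw [Bool.and_eq_true, h7]
      simp only [φ, Bool.and_eq_true, Bool.or_eq_true, decide_eq_true_eq, beq_iff_eq]
    have h6 : t < s ↔ ¬ (x ∈ t.1 ∧ y ∈ t.1 ∧ z ∈ t.1 ∧ w ∈ t.1) := by
      rw [lt_iff_le_not_ge]
      constructor
      · rintro ⟨-, h⟩ ⟨k1, k2, k3, k4⟩
        refine h fun v hv => ?_
        rcases (hs4 v).1 hv with h | h | h | h
        · rw [h]; exact k1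
        · rw [h]; exact k2
        · rw [h]; exact k3
        · rw [h]; exact k4
      · intro h
        exact ⟨ht, fun h' => h ⟨h' hx, h' hy, h' hz, h' hw⟩⟩
    rw [h5, hXX t ht, h6]
    exact and_comm
  have hiso : GIso (sd G) H4 (Lk (sd G) {s} ∩ XX G κ {a, b}) {u | in4 k u = true} φ := by
    rw [hL]
    refine ⟨⟨?_, ?_, ?_⟩, ?_⟩
    · intro t ht
      exact (hin t (le_of_lt ht.1)).1 ht
    · intro t ht t' ht' e
      have h5 : le4 (φ t) (φ t') = true := (hle t t' (le_of_lt ht.1)).1 ?_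
      · exact le_antisymm ((hle t t' (le_of_lt ht.1)).2 h5)
          ((hle t' t (le_of_lt ht'.1)).2 (by rw [e] at h5 ⊢; exact h5))
      · have h6 : le4 (φ t') (φ t') = true := (hle t' t' (le_of_lt ht'.1)).1 le_rfl
        rw [← e] at h6
        exact (hle t t' (le_of_lt ht.1)).2 (by rw [← e]; exact h6)
    · intro u hu
      have hu' : in4 k u = true := hu
      let t0 : Finset V := s.1.filter fun v => (v = x ∧ u.1 = true) ∨ (v = y ∧ u.2.1 = true) ∨
        (v = z ∧ u.2.2.1 = true) ∨ (v = w ∧ u.2.2.2 = true)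
      have e1 : x ∈ t0 ↔ u.1 = true := by
        simp only [t0, Finset.mem_filter]
        constructor
        · rintro ⟨-, h | h | h | h⟩
          · exact h.2
          · exact absurd h.1 hxy
          · exact absurd h.1 hxz
          · exact absurd h.1.symm hwx
        · intro h
          exact ⟨hx, Or.inl ⟨trivial, h⟩⟩
      have e2 : y ∈ t0 ↔ u.2.1 = true := by
        simp only [t0, Finset.mem_filter]
        constructor
        · rintro ⟨-, h | h | h | h⟩
          · exact absurd h.1.symm hxy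
          · exact h.2
          · exact absurd h.1 hyz
          · exact absurd h.1.symm hwy
        · intro h
          exact ⟨hy, Or.inr (Or.inl ⟨trivial, h⟩)⟩
      have e3 : z ∈ t0 ↔ u.2.2.1 = true := by
        simp only [t0, Finset.mem_filter]
        constructor
        · rintro ⟨-, h | h | h | h⟩
          · exact absurd h.1.symm hxz
          · exact absurd h.1.symm hyz
          · exact h.2
          · exact absurd h.1.symm hwz
        · intro h
          exact ⟨hz, Or.inr (Or.inr (Or.inl ⟨trivial, h⟩))⟩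
      have e4 : w ∈ t0 ↔ u.2.2.2 = true := by
        simp only [t0, Finset.mem_filter]
        constructor
        · rintro ⟨-, h | h | h | h⟩
          · exact absurd h.1 hwx
          · exact absurd h.1 hwy
          · exact absurd h.1 hwz
          · exact h.2
        · intro h
          exact ⟨hw, Or.inr (Or.inr (Or.inr ⟨trivial, h⟩))⟩
      have hne : t0.Nonempty := by
        have h5 : u.1 = true ∨ u.2.2.2 = true := by
          simp only [in4, Bool.and_eq_true, Bool.or_eq_true] at hu'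
          rcases hu'.1.1 with h | h
          · exact Or.inl h
          · exact Or.inr h.2
        rcases h5 with h5 | h5
        · exact ⟨x, e1.2 h5⟩
        · exact ⟨w, e4.2 h5⟩
      have hsub : t0 ⊆ s.1 := Finset.filter_subset _ _
      let t : Cq G := ⟨t0, hne, fun v hv v' hv' hvv => s.2.2 (hsub hv) (hsub hv') hvv⟩
      have hts : t ≤ s := Cq.le_iff.2 hsub
      have hφ : φ t = u := by
        show (decide (x ∈ t0), decide (y ∈ t0), decide (z ∈ t0), decide (w ∈ t0)) = u
        rw [jxb_dec e1, jxb_dec e2, jxb_dec e3, jxb_dec e4]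
      refine ⟨t, (hin t hts).2 ?_, hφ⟩
      rw [hφ]
      exact hu'
    · intro t ht t' ht'
      exact hadj t t' (le_of_lt ht.1) (le_of_lt ht'.1)
  refine ⟨hiso.conn.2 (H4_conn k), ?_, ?_⟩
  · have hcl : G.IsClique ((({x, y, z} : Finset V)) : Set V) := by
      intro u hu v hv huv
      refine s.2.2 ?_ ?_ huv
      · rw [Finset.mem_coe] at hu ⊢
        simp only [Finset.mem_insert, Finset.mem_singleton] at hu
        exact (hs4 u).2 (hsub3 u hu)
      · rw [Finset.mem_coe] at hv ⊢
        simp only [Finset.mem_insert, Finset.mem_singleton] at hv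
        exact (hs4 v).2 (hsub3 v hv)
    let t : Cq G := ⟨{x, y, z}, Finset.insert_nonempty _ _, hcl⟩
    have ht1 : t.1 = {x, y, z} := rfl
    have hts : t < s := by
      rw [Cq.lt_iff, Finset.ssubset_iff_subset_ne]
      refine ⟨?_, fun h => ?_⟩
      · intro v hv
        rw [ht1] at hv
        simp only [Finset.mem_insert, Finset.mem_singleton] at hv
        exact (hs4 v).2 (hsub3 v hv)
      · rw [← h, ht1, h3] at h4
        omega
    have htX : t ∈ XX G κ {a, b} := by
      intro d hd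
      rcases Set.mem_insert_iff.1 hd with h | h
      · rw [h]
        exact ⟨x, by rw [ht1]; simp, hxa⟩
      · rw [Set.mem_singleton_iff.1 h]
        exact ⟨y, by rw [ht1]; simp, hyb⟩
    refine ⟨t, fun v hv => ?_, htX, c, hc, fun d hd => ⟨z, by rw [ht1]; simp, ?_⟩⟩
    · rw [Set.mem_singleton_iff.1 hv]
      exact sd_adj.2 (Or.inr hts)
    · rw [Set.mem_singleton_iff.1 hd]
      exact hzc
  · intro t ht
    have ht' : t < s ∧ t ∈ XX G κ {a, b} := by
      rw [hL] at ht
      exact ht
    rw [jxb_deg hiso ht, H4_deg k ((hin t (le_of_lt ht'.1)).1 ht')]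
    have h5 := hBB t (le_of_lt ht'.1) ht'.2
    by_cases h6 : t ∈ Bd G κ {a, b}
    · rw [if_pos h6, if_pos (h5.1 h6)]
    · rw [if_neg h6, if_neg fun h => h6 (h5.2 h)]


end MOT.J
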