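import Pool.Agent.MOT.Pat
import Pool.Agent.MOT.PlD
import Pool.Agent.MOT.JuH

/-!
# MOT/JxDef: cells of a colouring in the range (definitions and reduction)
-/

open Classical

noncomputable section

namespace MOT.J

variable {V C : Type}

/-- boundary of the cell `XX G κ A`: simplices with one more colour -/
def Bd (G : SimpleGraph V) (κ : V → C) (A : Set C) : Set (Cq G) :=
  {s | s ∈ XX G κ A ∧ ∃ b, b ∉ A ∧ s ∈ XX G κ {b}}

theorem XX_union (G : SimpleGraph V) (κ : V → C) (A B : Set C) :
    XX G κ A ∩ XX G κ B = XX G κ (A ∪ B) := by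
  ext s
  constructor
  · rintro ⟨h1, h2⟩ a (ha | ha)
    · exact h1 a ha
    · exact h2 a ha
  · intro h
    exact ⟨fun a ha => h a (Or.inl ha), fun a ha => h a (Or.inr ha)⟩

/-- `XX` is an upper set -/
theorem XX_up {G : SimpleGraph V} {κ : V → C} {A : Set C} {s t : Cq G} (h : s ∈ XX G κ A)
    (hst : s ≤ t) : t ∈ XX G κ A := by
  intro a ha
  obtain ⟨x, hx, e⟩ := h a ha
  have h1 : s.1 ⊆ t.1 := hst
  exact ⟨x, h1 hx, e⟩

/-- realisations of the cells -/
theorem XI_Rl (G : SimpleGraph V) (κ : V → C) (A : Set C) (hA : A.Nonempty) :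
    XI (fun a => Rl (sd G) (XX G κ {a})) A = Rl (sd G) (XX G κ A) := by
  ext c
  constructor
  · intro h
    obtain ⟨a0, ha0⟩ := hA
    obtain ⟨h1, h2, -, h4⟩ := h a0 ha0
    exact ⟨h1, h2, fun s hs a ha => (h a ha).2.2.1 s hs a rfl, h4⟩
  · rintro ⟨h1, h2, h3, h4⟩ a ha
    refine ⟨h1, h2, fun s hs b hb => ?_, h4⟩
    have h5 : b = a := hb
    rw [h5]
    exact h3 s hs a ha

/-- realisations of the boundaries (the smallest element of a chain in `Bd` has a further colour) -/
theorem bdI_Rl [Finite V] (G : SimpleGraph V) (κ : V → C) (A : Set C) (hA : A.Nonempty) :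
    bdI (fun a => Rl (sd G) (XX G κ {a})) A = Rl (sd G) (Bd G κ A) := by
  ext c
  constructor
  · rintro ⟨h, b, hb, hbc⟩
    rw [XI_Rl G κ A hA] at h
    obtain ⟨h1, h2, h3, h4⟩ := h
    exact ⟨h1, h2, fun s hs => ⟨h3 s hs, b, hb, hbc.2.2.1 s hs⟩, h4⟩
  · rintro ⟨h1, h2, h3, h4⟩
    have hne : {s | c s ≠ 0}.Nonempty := by
      by_contra hn
      rw [Set.not_nonempty_iff_eq_empty, Set.eq_empty_iff_forall_notMem] at hn
      have h5 : ∀ s, c s = 0 := fun s => not_not.1 (hn s)
      rw [finsum_congr h5, finsum_zero] at h2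
      exact zero_ne_one h2
    obtain ⟨s0, hs0⟩ := (Set.toFinite {s | c s ≠ 0}).exists_minimal hne
    have hs0c : c s0 ≠ 0 := hs0.1
    obtain ⟨-, b, hb, hsb⟩ := h3 s0 hs0c
    refine ⟨?_, b, hb, h1, h2, fun s hs => ?_, h4⟩
    · rw [XI_Rl G κ A hA]
      exact ⟨h1, h2, fun s hs => (h3 s hs).1, h4⟩
    · by_cases he : s0 = s
      · rw [← he]
        exact hsb
      · refine XX_up hsb ?_
        rcases h4 s0 s hs0c hs he with h5 | h5
        · exact h5.le
        · exact hs0.2 hs h5.le

theorem Rl_nonempty [Finite V] (G : SimpleGraph V) (A : Set V) : (Rl G A).Nonempty ↔ A.Nonempty := by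
  constructor
  · rintro ⟨c, -, h2, h3, -⟩
    by_contra hn
    rw [Set.not_nonempty_iff_eq_empty] at hn
    have h5 : ∀ x, c x = 0 := by
      intro x
      by_contra hx
      have h6 := h3 x hx
      rw [hn] at h6
      exact h6
    rw [finsum_congr h5, finsum_zero] at h2
    exact zero_ne_one h2
  · rintro ⟨v, hv⟩
    have h0 : ∀ x, dlt v x ≠ 0 → x = v := by
      intro x hx
      by_contra hxv
      exact hx (if_neg hxv)
    refine ⟨dlt v, fun x => ?_, ?_, fun x hx => by rw [h0 x hx]; exact hv, fun x y hx hy hxy => ?_⟩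
    · unfold dlt
      split_ifs
      · exact zero_le_one
      · exact le_rfl
    · rw [finsum_eq_single (dlt v) v fun x hx => if_neg hx]
      exact if_pos rfl
    · exact absurd ((h0 x hx).trans (h0 y hy).symm) hxy

theorem Rl_closed [Finite V] (G : SimpleGraph V) (A : Set V) : IsClosed (Rl G A) := by
  have := Fintype.ofFinite V
  have e : Rl G A = (⋂ x, {c : V → ℝ | 0 ≤ c x}) ∩ ({c : V → ℝ | ∑ x, c x = 1} ∩
      ((⋂ x, {c : V → ℝ | x ∈ A ∨ c x = 0}) ∩
        ⋂ x, ⋂ y, {c : V → ℝ | (x ≠ y → G.Adj x y) ∨ c x = 0 ∨ c y = 0})) := by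
    ext c
    simp only [Rl, Set.mem_ofPred_eq, Set.mem_inter_iff, Set.mem_iInter, finsum_eq_sum_of_fintype]
    refine and_congr Iff.rfl (and_congr Iff.rfl (and_congr ?_ ?_))
    · refine forall_congr' fun x => ?_
      tauto
    · refine forall_congr' fun x => forall_congr' fun y => ?_
      tauto
  rw [e]
  refine IsClosed.inter (isClosed_iInter fun x => isClosed_le continuous_const
    (continuous_apply x)) (IsClosed.inter (isClosed_eq (continuous_finsetSum _ fun x _ =>
      continuous_apply x) continuous_const) (IsClosed.inter (isClosed_iInter fun x => ?_)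
        (isClosed_iInter fun x => isClosed_iInter fun y => ?_)))
  · exact isClosed_const.union (isClosed_eq (continuous_apply x) continuous_const)
  · exact isClosed_const.union ((isClosed_eq (continuous_apply x) continuous_const).union
      (isClosed_eq (continuous_apply y) continuous_const))

/-- number of colours of a nonempty cell -/
theorem XX_card {G : SimpleGraph V} (hG : IsSph3 G) {κ : V → C} {A : Set C}
    (h : (XX G κ A).Nonempty) : A.Finite ∧ A.ncard ≤ 4 := by
  obtain ⟨s, hs⟩ := h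
  have hsub : A ⊆ κ '' (s.1 : Set V) := by
    intro a ha
    obtain ⟨x, hx, e⟩ := hs a ha
    exact ⟨x, Finset.mem_coe.2 hx, e⟩
  have hfin : (κ '' (s.1 : Set V)).Finite := (Finset.finite_toSet s.1).image κ
  refine ⟨hfin.subset hsub, (Set.ncard_le_ncard hsub hfin).trans ?_⟩
  refine (Set.ncard_image_le (Finset.finite_toSet s.1)).trans ?_
  rw [Set.ncard_coe_finset]
  exact hG.k5 s.1 s.2.2

end MOT.J
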