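import Pool.Agent.MOT.FnG
import Pool.Agent.MOT.FnP
import Pool.Agent.MOT.Cmb
import Pool.Agent.MOT.EaEnd
import Pool.Agent.MOT.ExtC

/-!
# MOT/Moise: Moise's approximation theorem in dimension 3, and the two approximation theorems of
problem MP_0907b2_gt (helper90)

`comb` (block C2, S2, P) gives the combinatorial pattern, `alex_itv` (block E) the PL Schoenflies step,
`Fn.cube_main` (block C1) the metric estimate, `ExtC` the passage from a cube to all of `E^3`.
-/

open Pool.Agent.Helper25 Metric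

namespace MOT

/-- Every homeomorphism of `ℝ³` is, on the unit cube, a uniform limit of PL embeddings of the cube. -/
theorem moise_cube (h : (Fin 3 → ℝ) ≃ₜ (Fin 3 → ℝ)) (ε : ℝ) (hε : 0 < ε) :
    ∃ g : (Fin 3 → ℝ) → (Fin 3 → ℝ),
      CubeEmb g ∧ ∀ p ∈ closedBall (0 : Fin 3 → ℝ) 1, dist (g p) (h p) < ε := by
  obtain ⟨c0, hC⟩ := comb
  exact Fn.cube_main (Fn.alex_of alex_itv) hC h hε

/-- Moise: every homeomorphism of `E^3` is a limit of PL homeomorphisms, uniformly on bounded sets. -/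
theorem moise_pl (h : EuclideanSpace ℝ (Fin 3) ≃ₜ EuclideanSpace ℝ (Fin 3)) :
    ApproximableBy {g | IsPiecewiseLinear g} h :=
  approximable_pl_of_cube moise_cube h

/-- type A, `n = 3` -/
theorem moise_groupA (h : EuclideanSpace ℝ (Fin 3) ≃ₜ EuclideanSpace ℝ (Fin 3)) :
    ApproximableBy (groupA 3 : Set (EuclideanSpace ℝ (Fin 3) ≃ₜ EuclideanSpace ℝ (Fin 3))) h :=
  approximable_groupA_of_cube moise_cube h

/-- type B -/
theorem moise_groupB (h : EuclideanSpace ℝ (Fin 3) ≃ₜ EuclideanSpace ℝ (Fin 3)) :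
    ApproximableBy (groupB : Set (EuclideanSpace ℝ (Fin 3) ≃ₜ EuclideanSpace ℝ (Fin 3))) h :=
  approximable_groupB_of_cube moise_cube h

end MOT
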