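import Pool.Agent.MOT.Nr

/-!
# MOT/NrB: the near map is piecewise linear (helper25)
-/

open Classical

noncomputable section

namespace MOT

theorem lin_sd (K : Lv) (n : ℕ) (c : (tw K (n + 1)).V → ℝ) :
    lin K (n + 1) c = lin K n (rdn (tw K n).G c) := by
  have : Fintype (tw K n).V := Fintype.ofFinite _
  have : Fintype (Cq (tw K n).G) := Fintype.ofFinite _
  have h1 : lin K (n + 1) c = ∑ s : Cq (tw K n).G,
      c s • ((s.1.card : ℝ)⁻¹ • ∑ x ∈ s.1, (tw K n).pos x) :=
    finsum_eq_sum_of_fintype (fun s : Cq (tw K n).G =>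
      c s • ((s.1.card : ℝ)⁻¹ • ∑ x ∈ s.1, (tw K n).pos x))
  have h2 : lin K n (rdn (tw K n).G c) = ∑ x : (tw K n).V,
      (∑ s : Cq (tw K n).G, if x ∈ s.1 then c s / (s.1.card : ℝ) else 0) • (tw K n).pos x := by
    show (∑ᶠ x : (tw K n).V, rdn (tw K n).G c x • (tw K n).pos x) = _
    rw [finsum_eq_sum_of_fintype]
    refine Finset.sum_congr rfl fun x _ => ?_
    show (∑ᶠ s : Cq (tw K n).G, if x ∈ s.1 then c s / (s.1.card : ℝ) else 0) • _ = _
    rw [finsum_eq_sum_of_fintype]
  rw [h1, h2]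
  simp only [Finset.sum_smul]
  rw [Finset.sum_comm]
  refine Finset.sum_congr rfl fun s _ => ?_
  rw [smul_smul, Finset.smul_sum]
  rw [← Finset.sum_subset (Finset.subset_univ s.1)]
  · refine Finset.sum_congr rfl fun x hx => ?_
    rw [if_pos hx, div_eq_mul_inv]
  · intro x _ hx
    rw [if_neg hx, zero_smul]

theorem lin_re (K : Lv) (n : ℕ) (c : (tw K n).V → ℝ) : lin K n c = lin K 0 (re K n c) := by
  induction n with
  | zero => rfl
  | succ n ih => rw [lin_sd, ih]; rfl

/-! ## level 0 -/

/-- inverse of the near map on level `0` -/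
def lv0 (R : ℝ) (x : Fin 3 → ℝ) : (cell16 R).V → ℝ := fun p : Fin 4 × Bool =>
  Fin.cases (if p.2 then 0 else 1 - R⁻¹ * ∑ i, |x i|)
    (fun i => R⁻¹ * max 0 (if p.2 then x i else - x i)) p.1

theorem lv0_zero_t (R : ℝ) (x : Fin 3 → ℝ) : lv0 R x ((0, true) : Fin 4 × Bool) = 0 := rfl

theorem lv0_zero_f (R : ℝ) (x : Fin 3 → ℝ) :
    lv0 R x ((0, false) : Fin 4 × Bool) = 1 - R⁻¹ * ∑ i, |x i| := rfl

theorem lv0_succ_t (R : ℝ) (x : Fin 3 → ℝ) (i : Fin 3) :
    lv0 R x ((i.succ, true) : Fin 4 × Bool) = R⁻¹ * max 0 (x i) := rfl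

theorem lv0_succ_f (R : ℝ) (x : Fin 3 → ℝ) (i : Fin 3) :
    lv0 R x ((i.succ, false) : Fin 4 × Bool) = R⁻¹ * max 0 (- x i) := rfl

theorem lin0_apply (R : ℝ) (c : (cell16 R).V → ℝ) (j : Fin 3) :
    lin (cell16 R) 0 c j = R * (c ((j.succ, true) : Fin 4 × Bool)
      - c ((j.succ, false) : Fin 4 × Bool)) := by
  have h : lin (cell16 R) 0 c = ∑ p : Fin 4 × Bool, c p • (cell16 R).pos p :=
    finsum_eq_sum_of_fintype (fun p : Fin 4 × Bool => c p • (cell16 R).pos p)
  rw [h, Finset.sum_apply]
  simp only [Pi.smul_apply, smul_eq_mul]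
  have h2 : ∀ p : Fin 4 × Bool, (cell16 R).pos p j =
      if p.1 = j.succ then (if p.2 then R else -R) else 0 := fun p => rfl
  simp only [h2]
  rw [Fintype.sum_prod_type]
  rw [Finset.sum_eq_single j.succ]
  · simp
    ring
  · intro b _ hb
    simp [hb]
  · intro h
    exact absurd (Finset.mem_univ _) h

theorem lin0_pl (R : ℝ) (X : Set ((cell16 R).V → ℝ)) : PLOn (lin (cell16 R) 0) X := by
  refine PLOn.pi fun j => ?_
  have h := ((PLOn.coord (ι := (cell16 R).V) ((j.succ, true) : Fin 4 × Bool) X).sub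
    (PLOn.coord (ι := (cell16 R).V) ((j.succ, false) : Fin 4 × Bool) X)).smul R
  exact h.congr fun c _ => lin0_apply R c j

theorem lv0_pl (R : ℝ) (X : Set (Fin 3 → ℝ)) : PLOn (lv0 R) X := by
  have h3 : PLOn (fun x : Fin 3 → ℝ => 1 - R⁻¹ * ∑ i, |x i|) X := by
    have h4 : PLOn (fun x : Fin 3 → ℝ => ∑ i, |x i|) X :=
      PLOn.sum _ fun i _ => (PLOn.coord i X).abs
    exact (PLOn.const (1 : ℝ) X).sub (h4.smul R⁻¹)
  have hs : ∀ i : Fin 3, PLOn (fun x : Fin 3 → ℝ => R⁻¹ * max 0 (x i)) X := fun i =>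
    ((PLOn.const (0 : ℝ) X).max (PLOn.coord i X)).smul R⁻¹
  have hs' : ∀ i : Fin 3, PLOn (fun x : Fin 3 → ℝ => R⁻¹ * max 0 (- x i)) X := fun i =>
    ((PLOn.const (0 : ℝ) X).max (PLOn.coord i X).neg).smul R⁻¹
  refine PLOn.pi (ι := Fin 4 × Bool) fun p => ?_
  obtain ⟨i, b⟩ := p
  refine Fin.cases ?_ (fun j => ?_) i
  · cases b
    · exact h3
    · exact PLOn.const (0 : ℝ) X
  · cases b
    · exact hs' j
    · exact hs j

theorem max_add_max (t : ℝ) : max 0 t + max 0 (-t) = |t| := by
  rcases le_total 0 t with h | h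
  · rw [max_eq_right h, max_eq_left (by linarith), abs_of_nonneg h, add_zero]
  · rw [max_eq_left h, max_eq_right (by linarith), abs_of_nonpos h, zero_add]

theorem max_sub_max (t : ℝ) : max 0 t - max 0 (-t) = t := by
  rcases le_total 0 t with h | h
  · rw [max_eq_right h, max_eq_left (by linarith), sub_zero]
  · rw [max_eq_left h, max_eq_right (by linarith)]; ring

theorem sum16 (f : Fin 4 × Bool → ℝ) : ∑ p, f p = f (0, true) + f (0, false) +
    ∑ i : Fin 3, (f (i.succ, true) + f (i.succ, false)) := by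
  rw [Fintype.sum_prod_type, Fin.sum_univ_succ]
  simp

theorem lin0_plh {R : ℝ} (hR : 0 < R) :
    PLH (Rl (cell16 R).G (cell16 R).near) {x : Fin 3 → ℝ | ∑ i, |x i| ≤ R}
      (lin (cell16 R) 0) (lv0 R) where
  fpl := lin0_pl R _
  gpl := lv0_pl R _
  fm := by
    rintro c ⟨h0, h1, h2, h3⟩
    have h4 : ∑ p : Fin 4 × Bool, c p = 1 := by
      rw [← h1]; exact (finsum_eq_sum_of_fintype (fun p : Fin 4 × Bool => c p)).symm
    rw [sum16] at h4
    have h5 : ∀ i : Fin 3, |lin (cell16 R) 0 c i| ≤ R * (c ((i.succ, true) : Fin 4 × Bool)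
        + c ((i.succ, false) : Fin 4 × Bool)) := by
      intro i
      rw [lin0_apply, abs_mul, abs_of_pos hR]
      refine mul_le_mul_of_nonneg_left ?_ hR.le
      have a := h0 ((i.succ, true) : Fin 4 × Bool)
      have b := h0 ((i.succ, false) : Fin 4 × Bool)
      rw [abs_le]
      constructor <;> linarith
    show ∑ i, |lin (cell16 R) 0 c i| ≤ R
    refine (Finset.sum_le_sum fun i _ => h5 i).trans ?_
    rw [← Finset.mul_sum]
    have a := h0 ((0, true) : Fin 4 × Bool)
    have b := h0 ((0, false) : Fin 4 × Bool)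
    have h6 : ∑ i : Fin 3, (c ((i.succ, true) : Fin 4 × Bool)
        + c ((i.succ, false) : Fin 4 × Bool)) ≤ 1 := by linarith
    calc R * _ ≤ R * 1 := mul_le_mul_of_nonneg_left h6 hR.le
      _ = R := mul_one R
  gm := by
    intro x hx
    have hx' : ∑ i, |x i| ≤ R := hx
    have hRi : 0 ≤ R⁻¹ := (inv_pos.2 hR).le
    refine ⟨?_, ?_, ?_, ?_⟩
    · rintro ⟨i, b⟩
      refine Fin.cases ?_ (fun j => ?_) i
      · cases b
        · rw [lv0_zero_f]
          have : R⁻¹ * ∑ i, |x i| ≤ R⁻¹ * R := mul_le_mul_of_nonneg_left hx' hRi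
          rw [inv_mul_cancel₀ hR.ne'] at this
          linarith
        · exact le_refl _
      · cases b
        · exact mul_nonneg hRi (le_max_left _ _)
        · exact mul_nonneg hRi (le_max_left _ _)
    · have h4 : (∑ᶠ p, lv0 R x p) = ∑ p : Fin 4 × Bool, lv0 R x p :=
        finsum_eq_sum_of_fintype (fun p : Fin 4 × Bool => lv0 R x p)
      rw [h4, sum16 (fun p => lv0 R x p)]
      simp only [lv0_zero_t, lv0_zero_f, lv0_succ_t, lv0_succ_f]
      rw [Finset.mul_sum, zero_add]
      have : ∀ i : Fin 3, R⁻¹ * max 0 (x i) + R⁻¹ * max 0 (- x i) = R⁻¹ * |x i| := fun i => by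
        rw [← mul_add, max_add_max]
      simp only [this]
      ring
    · rintro p hp rfl
      exact hp rfl
    · rintro ⟨i, b⟩ ⟨j, b'⟩ hp hq hne
      show i ≠ j
      rintro rfl
      have hbb : b ≠ b' := fun h => hne (by rw [h])
      revert hp hq
      refine Fin.cases ?_ (fun j => ?_) i
      · intro hp hq
        cases b
        · cases b'
          · exact hbb rfl
          · exact hq rfl
        · exact hp rfl
      · intro hp hq
        have key : max 0 (x j) = 0 ∨ max 0 (- x j) = 0 := by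
          rcases le_total 0 (x j) with h | h
          · exact Or.inr (max_eq_left (by linarith))
          · exact Or.inl (max_eq_left h)
        have e1 := lv0_succ_t R x j
        have e2 := lv0_succ_f R x j
        cases b <;> cases b'
        · exact hbb rfl
        · rcases key with h | h
          · exact hq (by rw [e1, h, mul_zero])
          · exact hp (by rw [e2, h, mul_zero])
        · rcases key with h | h
          · exact hp (by rw [e1, h, mul_zero])
          · exact hq (by rw [e2, h, mul_zero])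
        · exact hbb rfl
  gf := by
    rintro c ⟨h0, h1, h2, h3⟩
    have h4 : ∑ p : Fin 4 × Bool, c p = 1 := by
      rw [← h1]; exact (finsum_eq_sum_of_fintype (fun p : Fin 4 × Bool => c p)).symm
    rw [sum16] at h4
    have h5 : c ((0, true) : Fin 4 × Bool) = 0 := by
      by_contra h
      exact h2 _ h rfl
    have h6 : ∀ i : Fin 3, c ((i.succ, true) : Fin 4 × Bool) = 0 ∨
        c ((i.succ, false) : Fin 4 × Bool) = 0 := by
      intro i
      by_contra h
      push Not at h
      have := h3 ((i.succ, true) : Fin 4 × Bool) ((i.succ, false) : Fin 4 × Bool) h.1 h.2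
        (fun e => by
          have := congrArg (Prod.snd : Fin 4 × Bool → Bool) e
          simp at this)
      exact this rfl
    have h7 : ∀ i : Fin 3, R⁻¹ * max 0 (lin (cell16 R) 0 c i) =
        c ((i.succ, true) : Fin 4 × Bool) ∧
        R⁻¹ * max 0 (- lin (cell16 R) 0 c i) = c ((i.succ, false) : Fin 4 × Bool) := by
      intro i
      rw [lin0_apply]
      have a := h0 ((i.succ, true) : Fin 4 × Bool)
      have b := h0 ((i.succ, false) : Fin 4 × Bool)
      rcases h6 i with h | h
      · rw [h]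
        rw [max_eq_left (by nlinarith), max_eq_right (by nlinarith)]
        constructor
        · rw [mul_zero]
        · field_simp
          ring
      · rw [h]
        rw [max_eq_right (by nlinarith), max_eq_left (by nlinarith)]
        constructor
        · field_simp
          ring
        · rw [mul_zero]
    have h8 : ∀ i : Fin 3, R⁻¹ * |lin (cell16 R) 0 c i| =
        c ((i.succ, true) : Fin 4 × Bool) + c ((i.succ, false) : Fin 4 × Bool) := by
      intro i
      rw [← max_add_max, mul_add, (h7 i).1, (h7 i).2]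
    funext p
    obtain ⟨i, b⟩ := p
    refine Fin.cases ?_ (fun j => ?_) i
    · cases b
      · rw [lv0_zero_f, Finset.mul_sum]
        simp only [h8]
        rw [h5] at h4
        linarith
      · exact h5.symm
    · cases b
      · exact (h7 j).2
      · exact (h7 j).1
  fg := by
    intro x hx
    funext i
    rw [lin0_apply, lv0_succ_t, lv0_succ_f, ← mul_sub, max_sub_max, ← mul_assoc,
      mul_inv_cancel₀ hR.ne', one_mul]

/-- THE NEAR MAP of level `n` -/
theorem lin_plh {R : ℝ} (hR : 0 < R) (n : ℕ) :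
    PLH (Rl (tw (cell16 R) n).G (tw (cell16 R) n).near) {x : Fin 3 → ℝ | ∑ i, |x i| ≤ R}
      (lin (cell16 R) n) (fun x => co (cell16 R) n (lv0 R x)) :=
  ((near_plh (cell16 R) n).trans (lin0_plh hR)).congr (fun c _ => lin_re _ n c) (fun _ _ => rfl)

end MOT
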