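import Pool.Agent.MOT.PaOrc

/-!
# MOT/PaBgn: a disc region with two corners is a bigon (block I)
-/

open Classical

noncomputable section

namespace MOT.Pa

variable {V C W : Type} {G : SimpleGraph V} {κ : V → C} {S : Sys C} {ρ : C → ℕ}
  {a b c d v w t t' t1 t2 : C} {R H I J : Set (Cq G)} {p q r : Cq G}

private theorem bgn4 {a b c d : C} (h : a ≠ b ∧ a ≠ c ∧ a ≠ d ∧ b ≠ c ∧ b ≠ d ∧ c ≠ d) :
    ({a, b, c, d} : Set C).ncard = 4 := by
  obtain ⟨h1, h2, h3, h4, h5, h6⟩ := h
  rw [Set.ncard_insert_of_notMem (by simp [h1, h2, h3]) (Set.toFinite _),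
    Set.ncard_insert_of_notMem (by simp [h4, h5]) (Set.toFinite _), Set.ncard_pair h6]

private theorem bgn_comp {σ : Set C} {r : Cq G} (hr : cols κ r = σ) :
    IsComp (sd G) (Ex G κ σ) (comp (sd G) (Ex G κ σ) r) ∧ r ∈ comp (sd G) (Ex G κ σ) r :=
  ⟨⟨r, hr, rfl⟩, comp_self hr⟩

private theorem bgn_conn {A B : Set (Cq G)} (hA : Conn (sd G) A) (hB : ∀ x ∈ B, ∃ q ∈ A, q < x) :
    Conn (sd G) (A ∪ B) := by
  refine Conn_iff.2 ⟨hA.1.mono Set.subset_union_left, fun f hf => ?_⟩
  obtain ⟨q0, hq0⟩ := hA.1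
  have h1 : ∀ x ∈ A ∪ B, f x = f q0 := by
    rintro x (hx | hx)
    · exact hA.const (fun u v e => hf u v (e.mono Set.subset_union_left)) hx hq0
    · obtain ⟨q, hq, hqx⟩ := hB x hx
      rw [← hf q x ⟨Or.inl hqx, Or.inl hq, Or.inr hx⟩]
      exact hA.const (fun u v e => hf u v (e.mono Set.subset_union_left)) hq hq0
  intro x hx y hy
  rw [h1 x hx, h1 y hy]

/-- BIGON.  Corner `p`, colours `{v, w, t, t'}` (`cor_form`); `nx κ p t'` and `nx κ p w` are corners
different from `p` (`nx_cor`, `nx_spec`, `nx_spec'`), so both are the other corner `p'`, and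
`cols κ p' = {v, w, t, t'}`.  A neighbour `r` of `R` with three colours lies in an interval or arc whose
ends are corners (`int_nbr`, `arc_nbr`, `end_two`), so `cols κ r` is `{v, w, t}` or `{v, t, t'}`.
`nbr R ∩ Ex {v, w, t} = st κ p t'` (`st_uniq`), `nbr R ∩ Ex {v, t, t'} = st κ p w`,
`nbr R ∩ Ex {v, w, t, t'} = {p, p'}`; `p` is above `tc κ {v, t, t'} p ∈ st κ p w`, the same for `p'`. -/
theorem bigon [Finite V] (hG : IsSph3 G) (hS : S.Good) (hP : Pre G κ S) (hv : S.side v = true)
    (ht : S.side t = false) (hR : IsComp (sd G) (Ex G κ {v, t}) R) (hz : HZ (sd G) R)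
    (h2 : (cor κ R).ncard = 2) : ∃ w t', Big G κ S v w t t' R := by
  have hs : S.side t ≠ S.side v := by
    rw [hv, ht]
    decide
  have hs' : S.side v ≠ S.side t := hs.symm
  have hne : (cor κ R).Nonempty := (Set.ncard_pos (Set.toFinite _)).1 (by omega)
  obtain ⟨p, hp⟩ := hne
  obtain ⟨w, t', hpc, hinc⟩ := cor_form hG hP hs hR hp
  refine ⟨w, t', ?_⟩
  obtain ⟨hn1, hn2, hs1, hs2⟩ := nx_cor hG hS hP hR hp hpc hinc
  obtain ⟨d', hd', hdc, hdp, -, hst1, hcor1⟩ := nx_spec hG hS hP hpc hinc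
  obtain ⟨b', hb', hbc, hbp, -, hst2, hcor2⟩ := nx_spec' hG hS hP hpc hinc
  obtain ⟨n1, n2, n3, n4, n5, n6⟩ := hinc.ne
  have ht' : S.side t' = false := by
    rw [← S.E_side hinc.2.1]
    exact ht
  have hcor : cor κ R = {p, nx κ p t'} := by
    symm
    apply Set.eq_of_subset_of_ncard_le
    · intro q hq
      rcases hq with rfl | hq
      · exact hp
      · rw [Set.mem_singleton_iff.1 hq]
        exact hn1
    · rw [h2, Set.ncard_pair hdp.symm]
    · exact Set.toFinite _
  have he : nx κ p w = nx κ p t' := by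
    have h := hn2
    rw [hcor] at h
    rcases h with h | h
    · exact absurd h hbp
    · exact h
  have hd : t' = d' := by
    have h : t' ∈ cols κ (nx κ p t') := by
      rw [← he, hbc]
      simp
    rw [hdc] at h
    rcases h with h | h | h | h
    · exact absurd h.symm n3
    · exact absurd h.symm n5
    · exact absurd h.symm n6
    · exact h
  have hb : w = b' := by
    have h : w ∈ cols κ (nx κ p w) := by
      rw [he, hdc]
      simp
    rw [hbc] at h
    rcases h with h | h | h | h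
    · exact absurd h.symm n1
    · exact h
    · exact absurd h n4
    · exact absurd h n5
  rw [← hd] at hdc hst1
  rw [← hb, he] at hst2
  rw [he] at hcor2
  have hall : ∀ q ∈ cor κ R, cols κ q = {v, w, t, t'} := by
    intro q hq
    rw [hcor] at hq
    rcases hq with rfl | hq
    · exact hpc
    · rw [Set.mem_singleton_iff.1 hq]
      exact hdc
  have hset : ∀ x y z : C, ({x, y, z} : Set C) = {y, z, x} := by
    intro x y z
    ext u
    simp only [Set.mem_insert_iff, Set.mem_singleton_iff]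
    tauto
  -- ends
  have e1 : ∀ {b : C} {I : Set (Cq G)}, S.E v b → IsComp (sd G) (Ex G κ {v, b, t}) I →
      (cor κ I).Nonempty := by
    intro b I hvb hI
    have h4 := end_two hG hS hP hvb hs hI
    exact (Set.ncard_pos (Set.toFinite _)).1 (by omega)
  have e2 : ∀ {d : C} {I : Set (Cq G)}, S.E t d → IsComp (sd G) (Ex G κ {v, t, d}) I →
      (cor κ I).Nonempty := by
    intro d I htd hI
    rw [hset v t d] at hI
    have h4 := end_two hG hS hP htd hs' hI
    exact (Set.ncard_pos (Set.toFinite _)).1 (by omega)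
  have hP4 : nbr R ∩ Ex G κ {v, w, t, t'} = cor κ R := by
    apply Set.Subset.antisymm
    · rintro r ⟨hr, hrc⟩
      rw [cor_nbr hG hR n2]
      refine ⟨hr, ?_⟩
      show (cols κ r).ncard = 4
      rw [show cols κ r = {v, w, t, t'} from hrc]
      exact bgn4 hinc.ne
    · intro r hr
      refine ⟨?_, hall r hr⟩
      rw [cor_nbr hG hR n2] at hr
      exact hr.1
  have hB : nbr R ∩ Ex G κ {v, w, t} = st κ p t' := by
    apply Set.Subset.antisymm
    · rintro r ⟨hr, hrc⟩
      obtain ⟨hI, hrI⟩ := bgn_comp (κ := κ) hrc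
      obtain ⟨-, hc⟩ := int_nbr hG hP hs hR hinc.1 hI ⟨r, hrI, hr⟩
      obtain ⟨p1, hp1⟩ := e1 hinc.1 hI
      have h5 := hc hp1
      rw [hcor] at h5
      rcases h5 with h5 | h5
      · rw [h5] at hp1
        rw [← st_uniq hG hP hpc hinc hI hp1]
        exact hrI
      · rw [Set.mem_singleton_iff.1 h5] at hp1
        rw [← hst1, ← st_uniq hG hP hdc hinc hI hp1]
        exact hrI
    · intro r hr
      exact ⟨hs1 hr, (st_comp hG hP hpc hinc).1.sub hr⟩
  have hA : nbr R ∩ (Ex G κ {v, t, t'} ∪ Ex G κ {v, w, t, t'}) = st κ p w ∪ cor κ R := by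
    rw [Set.inter_union_distrib_left, hP4]
    congr 1
    apply Set.Subset.antisymm
    · rintro r ⟨hr, hrc⟩
      obtain ⟨hI, hrI⟩ := bgn_comp (κ := κ) hrc
      obtain ⟨-, hc⟩ := arc_nbr hG hP hs hR hinc.2.1 hI ⟨r, hrI, hr⟩
      obtain ⟨p1, hp1⟩ := e2 hinc.2.1 hI
      have h5 := hc hp1
      rw [hcor] at h5
      rcases h5 with h5 | h5
      · rw [h5] at hp1
        rw [← st_uniq' hG hP hpc hinc hI hp1]
        exact hrI
      · rw [Set.mem_singleton_iff.1 h5] at hp1
        rw [← hst2, ← st_uniq' hG hP hdc hinc hI hp1]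
        exact hrI
    · intro r hr
      exact ⟨hs2 hr, (st_comp' hG hP hpc hinc).1.sub hr⟩
  refine ⟨hinc, hv, hR, hz, ?_, ?_, ?_, ?_⟩
  · intro r hr
    obtain ⟨hrR, ⟨b, hvb, hrc⟩ | ⟨d, htd, hrc⟩ | ⟨b, d, hbd, hrc⟩⟩ := nbr_form hP hs hR hr
    · left
      obtain ⟨hI, hrI⟩ := bgn_comp (κ := κ) hrc
      obtain ⟨-, hc⟩ := int_nbr hG hP hs hR hvb hI ⟨r, hrI, hr⟩
      obtain ⟨p1, hp1⟩ := e1 hvb hI
      have h5 := hall p1 (hc hp1)
      obtain ⟨-, q, hq, hqp⟩ := hp1
      have h6 : b ∈ cols κ q := by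
        rw [show cols κ q = {v, b, t} from hI.sub hq]
        simp
      have h7 := cols_mono (κ := κ) hqp.le h6
      rw [h5] at h7
      have hbt : S.side b = true := by
        rw [← S.E_side hvb]
        exact hv
      rcases h7 with h | h | h | h
      · exact absurd h.symm (S.E_ne hvb)
      · rw [h] at hrc
        exact hrc
      · rw [h, ht] at hbt
        cases hbt
      · rw [Set.mem_singleton_iff.1 h, ht'] at hbt
        cases hbt
    · right
      left
      obtain ⟨hI, hrI⟩ := bgn_comp (κ := κ) hrc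
      obtain ⟨-, hc⟩ := arc_nbr hG hP hs hR htd hI ⟨r, hrI, hr⟩
      obtain ⟨p1, hp1⟩ := e2 htd hI
      have h5 := hall p1 (hc hp1)
      obtain ⟨-, q, hq, hqp⟩ := hp1
      have h6 : d ∈ cols κ q := by
        rw [show cols κ q = {v, t, d} from hI.sub hq]
        simp
      have h7 := cols_mono (κ := κ) hqp.le h6
      rw [h5] at h7
      have hdt : S.side d = false := by
        rw [← S.E_side htd]
        exact ht
      have hw : S.side w = true := by
        rw [← S.E_side hinc.1]
        exact hv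
      rcases h7 with h | h | h | h
      · rw [h, hv] at hdt
        cases hdt
      · rw [h, hw] at hdt
        cases hdt
      · exact absurd h.symm (S.E_ne htd)
      · rw [Set.mem_singleton_iff.1 h] at hrc
        exact hrc
    · right
      right
      apply hall
      rw [cor_nbr hG hR n2]
      refine ⟨hr, ?_⟩
      show (cols κ r).ncard = 4
      rw [hrc]
      exact bgn4 hbd.ne
  · rw [hB]
    exact (st_comp hG hP hpc hinc).1.conn
  · rw [hA]
    refine bgn_conn (st_comp' hG hP hpc hinc).1.conn fun x hx => ?_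
    rw [hcor, ← hcor2] at hx
    exact hx.2
  · rw [hP4, h2]

end MOT.Pa
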