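import Pool.Agent.MOT.PaCol
import Pool.Agent.MOT.Fib
import Pool.Agent.MOT.Ret
import Pool.Agent.MOT.Sph

/-!
# MOT/PaBig: elementary consequences of the bigon conditions; top element of a chain (block I)
-/

open Classical

noncomputable section

namespace MOT.Pa

variable {V C W : Type} {G : SimpleGraph V} {κ : V → C} {S : Sys C} {ρ : C → ℕ}
  {v w t t' : C} {R : Set (Cq G)}

/-! ## top element of a chain -/

/-- the largest element of a simplex of `sd G` -/
def tp (Q : Cq (sd G)) : Cq G := (chain_top Q.1 Q.2.2 Q.2.1).choose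

theorem tp_mem (Q : Cq (sd G)) : tp Q ∈ Q.1 := (chain_top Q.1 Q.2.2 Q.2.1).choose_spec.1

theorem le_tp {Q : Cq (sd G)} {q : Cq G} (h : q ∈ Q.1) : q ≤ tp Q :=
  (chain_top Q.1 Q.2.2 Q.2.1).choose_spec.2 q h

theorem tp_mono {Q Q' : Cq (sd G)} (h : Q ≤ Q') : tp Q ≤ tp Q' := le_tp (h (tp_mem Q))

/-- two elements of a simplex of `sd G` are comparable -/
theorem ch_cmp {Q : Cq (sd G)} {q r : Cq G} (hq : q ∈ Q.1) (hr : r ∈ Q.1) : q ≤ r ∨ r ≤ q := by
  by_cases e : q = r
  · exact Or.inl e.le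
  · rcases Q.2.2 (Finset.mem_coe.2 hq) (Finset.mem_coe.2 hr) e with h | h
    · exact Or.inl h.le
    · exact Or.inr h.le

/-- base rule: colours of a chain are colours of its top element -/
theorem cols_mx_sub (Q : Cq (sd G)) : cols (mx κ ρ) Q ⊆ cols κ (tp Q) := by
  rintro c ⟨q, hq, rfl⟩
  exact cols_mono (le_tp hq) (mx_mem q)

/-! ## components -/

/-- a simplex comparable with an element of a component of `Ex σ`, with the same colours -/
theorem comp_of_le {σ : Set C} {R : Set (Cq G)} (hR : IsComp (sd G) (Ex G κ σ) R) {q r : Cq G}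
    (hq : q ∈ R) (hr : r ∈ Ex G κ σ) (h : q ≤ r ∨ r ≤ q) : r ∈ R := by
  obtain ⟨x, hx, rfl⟩ := hR
  by_cases e : q = r
  · rw [← e]; exact hq
  · refine ⟨hq.1.tail ⟨?_, hq.2, hr⟩, hr⟩
    rcases h with h | h
    · exact Or.inl (lt_of_le_of_ne h e)
    · exact Or.inr (lt_of_le_of_ne h (Ne.symm e))

theorem comp_cols {σ : Set C} {R : Set (Cq G)} (hR : IsComp (sd G) (Ex G κ σ) R) {q : Cq G}
    (hq : q ∈ R) : cols κ q = σ := by
  obtain ⟨x, hx, rfl⟩ := hR
  exact hq.2

/-! ## bigons -/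

theorem Big.ne_vw (h : Big G κ S v w t t' R) : v ≠ w := S.E_ne h.inc.1

theorem Big.ne_tt (h : Big G κ S v w t t' R) : t ≠ t' := S.E_ne h.inc.2.1

theorem Big.sw (h : Big G κ S v w t t' R) : S.side w = true := by
  rw [← S.E_side h.inc.1]; exact h.sv

theorem Big.st (h : Big G κ S v w t t' R) : S.side t = false := by
  have h1 := S.I_side h.inc.2.2.1
  rw [h.sv] at h1
  cases e : S.side t
  · rfl
  · rw [e] at h1; exact absurd rfl h1

theorem Big.st' (h : Big G κ S v w t t' R) : S.side t' = false := by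
  rw [← S.E_side h.inc.2.1]; exact h.st

theorem side_ne {a b : C} (ha : S.side a = true) (hb : S.side b = false) : a ≠ b := by
  rintro rfl
  rw [ha] at hb
  exact Bool.false_ne_true hb.symm

theorem Big.ne_vt (h : Big G κ S v w t t' R) : v ≠ t := side_ne h.sv h.st

theorem Big.ne_vt' (h : Big G κ S v w t t' R) : v ≠ t' := side_ne h.sv h.st'

theorem Big.ne_wt (h : Big G κ S v w t t' R) : w ≠ t := side_ne h.sw h.st

theorem Big.ne_wt' (h : Big G κ S v w t t' R) : w ≠ t' := side_ne h.sw h.st'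

theorem Big.colR (h : Big G κ S v w t t' R) {q : Cq G} (hq : q ∈ R) : cols κ q = {v, t} :=
  comp_cols h.comp hq

/-- the side of the bigon on the curve of `v, w` -/
def bI (G : SimpleGraph V) (κ : V → C) (v w t : C) (R : Set (Cq G)) : Set (Cq G) :=
  nbr R ∩ Ex G κ {v, w, t}

/-- the closed arc: side of the bigon on the curve of `t, t'` with its two ends -/
def aI (G : SimpleGraph V) (κ : V → C) (v w t t' : C) (R : Set (Cq G)) : Set (Cq G) :=
  nbr R ∩ (Ex G κ {v, t, t'} ∪ Ex G κ {v, w, t, t'})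

theorem mem_Zb {q : Cq G} : q ∈ Zb G κ v w t R ↔ q ∈ R ∨ q ∈ bI G κ v w t R := Iff.rfl

/-- trace on `{v, t}` of a simplex above an element of `R` -/
theorem Big.tcR (h : Big G κ S v w t t' R) {q r : Cq G} (hq : q ∈ R) (hqr : q ≤ r) :
    tc κ {v, t} r ∈ R := by
  have h1 : q ≤ tc κ {v, t} r := le_tc hqr (h.colR hq).le
  refine comp_of_le h.comp hq ?_ (Or.inl h1)
  refine tc_cols_sub ⟨v, by simp⟩ ?_
  rw [← h.colR hq]
  exact cols_mono hqr

theorem Big.tcZ (h : Big G κ S v w t t' R) {q : Cq G} (hq : q ∈ Zb G κ v w t R) :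
    tc κ {v, t} q ∈ R := by
  rcases hq with hq | ⟨⟨_, r, hr, hrq⟩, _⟩
  · exact h.tcR hq le_rfl
  · exact h.tcR hr hrq.le

/-- colours on `Z` -/
theorem Big.colZ (h : Big G κ S v w t t' R) {q : Cq G} (hq : q ∈ Zb G κ v w t R) :
    cols κ q = {v, t} ∨ cols κ q = {v, w, t} := by
  rcases hq with hq | hq
  · exact Or.inl (h.colR hq)
  · exact Or.inr hq.2

theorem Big.colZ_sub (h : Big G κ S v w t t' R) {q : Cq G} (hq : q ∈ Zb G κ v w t R) :
    {v, t} ⊆ cols κ q ∧ cols κ q ⊆ {v, w, t} ∧ t' ∉ cols κ q := by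
  have e1 := h.ne_vt'
  have e2 := h.ne_wt'
  have e3 := h.ne_tt
  rcases h.colZ hq with e | e
  · rw [e]
    refine ⟨subset_rfl, ?_, ?_⟩
    · intro x hx
      simp only [Set.mem_insert_iff, Set.mem_singleton_iff] at hx ⊢
      tauto
    · simp only [Set.mem_insert_iff, Set.mem_singleton_iff, not_or]
      exact ⟨e1.symm, e3.symm⟩
  · rw [e]
    refine ⟨?_, subset_rfl, ?_⟩
    · intro x hx
      simp only [Set.mem_insert_iff, Set.mem_singleton_iff] at hx ⊢
      tauto
    · simp only [Set.mem_insert_iff, Set.mem_singleton_iff, not_or]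
      exact ⟨e1.symm, e2.symm, e3.symm⟩

/-- a simplex above an element of `Z` is in `Z` or in the closed arc -/
theorem Big.up (h : Big G κ S v w t t' R) {q r : Cq G} (hq : q ∈ Zb G κ v w t R) (hqr : q ≤ r) :
    r ∈ Zb G κ v w t R ∨ r ∈ aI G κ v w t t' R := by
  have h0 : ∃ q0 ∈ R, q0 ≤ r := by
    rcases hq with hq | ⟨⟨_, q0, h0, h1⟩, _⟩
    · exact ⟨q, hq, hqr⟩
    · exact ⟨q0, h0, h1.le.trans hqr⟩
  obtain ⟨q0, h0, h1⟩ := h0
  by_cases hr : r ∈ R
  · exact Or.inl (Or.inl hr)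
  · have hn : r ∈ nbr R := by
      refine ⟨hr, q0, h0, lt_of_le_of_ne h1 ?_⟩
      rintro rfl
      exact hr h0
    rcases h.nb hn with h2 | h2
    · exact Or.inl (Or.inr ⟨hn, h2⟩)
    · exact Or.inr ⟨hn, h2⟩

/-- a simplex below an element of `Z` with colours `v`, `t` is in `Z` -/
theorem Big.down (h : Big G κ S v w t t' R) {q r : Cq G} (hq : q ∈ Zb G κ v w t R) (hr : r ≤ q)
    (hc : {v, t} ⊆ cols κ r) : r ∈ Zb G κ v w t R := by
  have h1 : tc κ {v, t} r ≤ tc κ {v, t} q := tc_mono ⟨v, hc (by simp), by simp⟩ hr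
  have h2 : cols κ (tc κ {v, t} r) = {v, t} := tc_cols_sub ⟨v, by simp⟩ hc
  have h3 : tc κ {v, t} r ∈ R := comp_of_le h.comp (h.tcZ hq) h2 (Or.inr h1)
  by_cases hrR : r ∈ R
  · exact Or.inl hrR
  · refine Or.inr ⟨⟨hrR, _, h3, lt_of_le_of_ne (tc_le r _) ?_⟩, ?_⟩
    · intro e
      rw [e] at h3
      exact hrR h3
    · show cols κ r = {v, w, t}
      have h4 : cols κ r ⊆ {v, w, t} := (cols_mono hr).trans (h.colZ_sub hq).2.1
      refine Set.Subset.antisymm h4 ?_
      have h5 : w ∈ cols κ r := by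
        by_contra hw
        apply hrR
        refine comp_of_le h.comp h3 ?_ (Or.inl (tc_le r _))
        refine Set.Subset.antisymm ?_ hc
        intro x hx
        have := h4 hx
        simp only [Set.mem_insert_iff, Set.mem_singleton_iff] at this ⊢
        rcases this with e | e | e
        · exact Or.inl e
        · rw [e] at hx; exact absurd hx hw
        · exact Or.inr e
      intro x hx
      simp only [Set.mem_insert_iff, Set.mem_singleton_iff] at hx
      rcases hx with rfl | rfl | rfl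
      · exact hc (by simp)
      · exact h5
      · exact hc (by simp)

/-- colours of a simplex containing an element of `Z` -/
theorem Big.col_up (h : Big G κ S v w t t' R) {q r : Cq G} (hq : q ∈ Zb G κ v w t R)
    (hqr : q ≤ r) : cols κ r ⊆ {v, w, t, t'} := by
  intro x hx
  have hs : x ∈ ({v, w, t} : Set C) → x ∈ ({v, w, t, t'} : Set C) := by
    intro h; simp only [Set.mem_insert_iff, Set.mem_singleton_iff] at h ⊢; tauto
  rcases h.up hq hqr with h1 | ⟨_, h1 | h1⟩
  · exact hs ((h.colZ_sub h1).2.1 hx)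
  · have h1' : cols κ r = {v, t, t'} := h1
    rw [h1'] at hx
    simp only [Set.mem_insert_iff, Set.mem_singleton_iff] at hx ⊢
    tauto
  · have h1' : cols κ r = {v, w, t, t'} := h1
    rw [h1'] at hx
    exact hx

/-- `Z` is connected with `H^1 = 0` (it retracts onto `R` by `tc {v, t}`) -/
theorem Big.Z_Conn (h : Big G κ S v w t t' R) : Conn (sd G) (Zb G κ v w t R) := by
  have hR : Conn (sd G) R := by
    obtain ⟨x, hx, rfl⟩ := h.comp
    refine ⟨⟨x, Relation.ReflTransGen.refl, hx⟩, ?_⟩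
    have key : ∀ y, Relation.ReflTransGen (EIn (sd G) (Ex G κ {v, t})) x y →
        y ∈ Ex G κ {v, t} → Relation.ReflTransGen (EIn (sd G) (MOT.comp (sd G) (Ex G κ {v, t}) x)) x y := by
      intro y hy
      induction hy with
      | refl => intro _; exact Relation.ReflTransGen.refl
      | tail h1 h2 ih =>
        intro h3
        exact (ih h2.2.1).tail ⟨h2.1, ⟨h1, h2.2.1⟩, ⟨h1.tail h2, h3⟩⟩
    intro a ha b hb
    exact (rtg_symm (key a ha.1 ha.2)).trans (key b hb.1 hb.2)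
  refine (ret_Conn (tc κ {v, t}) (S' := R) (fun q hq => Or.inl hq) (fun q hq => h.tcZ hq)
    (fun q _ => tc_le q _) ?_).2 hR
  intro q hq r hr hqr
  exact tc_mono ⟨v, (h.colZ_sub hq).1 (by simp), by simp⟩ hqr

theorem Big.Z_HZ (h : Big G κ S v w t t' R) : HZ (sd G) (Zb G κ v w t R) := by
  refine (ret_HZ (tc κ {v, t}) (S' := R) (fun q hq => Or.inl hq) (fun q hq => h.tcZ hq)
    (fun q _ => tc_le q _) ?_ ?_).2 h.hz
  · intro q hq r hr hqr
    exact tc_mono ⟨v, (h.colZ_sub hq).1 (by simp), by simp⟩ hqr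
  · intro q hq
    exact tc_id (h.colR hq).le

theorem Big.R_Conn (h : Big G κ S v w t t' R) : Conn (sd G) R := by
  refine (ret_Conn (tc κ {v, t}) (S' := R) (fun q hq => Or.inl hq) (fun q hq => h.tcZ hq)
    (fun q _ => tc_le q _) ?_).1 h.Z_Conn
  intro q hq r hr hqr
  exact tc_mono ⟨v, (h.colZ_sub hq).1 (by simp), by simp⟩ hqr

/-- colours of a chain of the moved colouring -/
theorem Big.cols_nk (h : Big G κ S v w t t' R) (Q : Cq (sd G)) :
    cols (nk κ ρ (Zb G κ v w t R) t') Q ⊆ cols κ (tp Q) ∨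
      cols (nk κ ρ (Zb G κ v w t R) t') Q ⊆ {v, w, t, t'} := by
  by_cases hz : ∃ q ∈ Q.1, q ∈ Zb G κ v w t R
  · obtain ⟨q, hq, hqZ⟩ := hz
    refine Or.inr ?_
    rintro c ⟨r, hr, rfl⟩
    by_cases hrZ : r ∈ Zb G κ v w t R
    · rw [nk_pos hrZ]; simp
    · rw [nk_neg hrZ]
      exact h.col_up hqZ (le_tp hq) (cols_mono (le_tp hr) (mx_mem r))
  · refine Or.inl ?_
    rintro c ⟨r, hr, rfl⟩
    rw [nk_neg (fun hrZ => hz ⟨r, hr, hrZ⟩)]
    exact cols_mono (le_tp hr) (mx_mem r)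

/-- if the chain meets `Z`, its new colours are among `v, w, t, t'` -/
theorem Big.cols_nk_Z (h : Big G κ S v w t t' R) {Q : Cq (sd G)} {q : Cq G} (hq : q ∈ Q.1)
    (hqZ : q ∈ Zb G κ v w t R) : cols (nk κ ρ (Zb G κ v w t R) t') Q ⊆ {v, w, t, t'} ∧
      cols (mx κ ρ) Q ⊆ {v, w, t, t'} := by
  constructor
  · rintro c ⟨r, hr, rfl⟩
    by_cases hrZ : r ∈ Zb G κ v w t R
    · rw [nk_pos hrZ]; simp
    · rw [nk_neg hrZ]
      exact h.col_up hqZ (le_tp hq) (cols_mono (le_tp hr) (mx_mem r))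
  · rintro c ⟨r, hr, rfl⟩
    exact h.col_up hqZ (le_tp hq) (cols_mono (le_tp hr) (mx_mem r))

end MOT.Pa
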