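import Pool.Agent.MOT.PaOrc

/-!
# MOT/PaCnt: the count of the corners of the regions of a piece (block I)
-/

open Classical

noncomputable section

namespace MOT.Pa

variable {V C W : Type} {G : SimpleGraph V} {κ : V → C} {S : Sys C} {ρ : C → ℕ}
  {a b c d v w t t' t1 t2 : C} {R H I J : Set (Cq G)} {p q r : Cq G}

/-- term of a region -/
def tm (κ : V → C) (R : Set (Cq G)) : ℤ := (cor κ R).ncard - 4 * chi (sd G) R

/-- the regions of the piece of `a` as a finite set -/
def rgs [Finite V] (G : SimpleGraph V) (κ : V → C) (S : Sys C) (a : C) :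
    Finset (Set (Cq G)) := (Set.toFinite (Rg G κ S a)).toFinset

/-- elements of the piece with three colours (arcs of the curves of the other side) -/
def Ar (G : SimpleGraph V) (κ : V → C) (S : Sys C) (a : C) : Set (Cq G) :=
  {q | q ∈ So G κ S a ∧ (cols κ q).ncard = 3}

private theorem ct_mem [Finite V] : R ∈ rgs G κ S a ↔
    ∃ c, S.side c ≠ S.side a ∧ IsComp (sd G) (Ex G κ {a, c}) R := by
  rw [rgs, Set.Finite.mem_toFinset]
  rfl

private theorem ct_two (a c : C) : ({a, c} : Set C).ncard ≤ 2 := by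
  have h := Set.ncard_insert_le a ({c} : Set C)
  rw [Set.ncard_singleton] at h
  exact h

private theorem ct_three (h1 : a ≠ c) (h2 : a ≠ d) (h3 : c ≠ d) :
    ({a, c, d} : Set C).ncard = 3 := by
  rw [Set.ncard_eq_three]
  exact ⟨a, c, d, h1, h2, h3, rfl⟩

/-- the piece: its regions and `Ar` -/
theorem so_parts [Finite V] (hP : Pre G κ S) (a : C) :
    So G κ S a = (⋃ R ∈ rgs G κ S a, R) ∪ Ar G κ S a ∧
      Disjoint (⋃ R ∈ rgs G κ S a, R) (Ar G κ S a) ∧
      ∀ X ∈ rgs G κ S a, ∀ Y ∈ rgs G κ S a, X ≠ Y → Disjoint X Y := by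
  refine ⟨?_, ?_, ?_⟩
  · ext q
    simp only [Set.mem_union, Set.mem_iUnion, exists_prop]
    constructor
    · intro hq
      rcases so_form hP hq with ⟨c, hs, hc⟩ | ⟨c, d, hs, hE, hc⟩
      · left
        exact ⟨comp (sd G) (Ex G κ {a, c}) q, ct_mem.2 ⟨c, hs, q, hc, rfl⟩, comp_self hc⟩
      · right
        refine ⟨hq, ?_⟩
        rw [hc]
        have hsd := S.E_side hE
        exact ct_three (fun e => hs (by rw [e])) (fun e => hs (by rw [hsd, e])) (S.E_ne hE)
    · rintro (⟨R, hR, hq⟩ | hq)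
      · obtain ⟨c, hs, hR⟩ := ct_mem.1 hR
        exact (reg_sub hs hR).1 hq
      · exact hq.1
  · rw [Set.disjoint_left]
    intro q hq hq'
    simp only [Set.mem_iUnion, exists_prop] at hq
    obtain ⟨R, hR, hq⟩ := hq
    obtain ⟨c, hs, hR⟩ := ct_mem.1 hR
    have h1 : cols κ q = {a, c} := hR.sub hq
    have h2 := hq'.2
    rw [h1] at h2
    have := ct_two a c
    omega
  · intro X hX Y hY hne
    obtain ⟨c, hs, hX⟩ := ct_mem.1 hX
    obtain ⟨d, hs', hY⟩ := ct_mem.1 hY
    rw [Set.disjoint_left]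
    intro q hq hq'
    have h1 : cols κ q = {a, c} := hX.sub hq
    have h2 : cols κ q = {a, d} := hY.sub hq'
    have h3 : c ∈ ({a, d} : Set C) := by rw [← h2, h1]; simp
    simp only [Set.mem_insert_iff, Set.mem_singleton_iff] at h3
    rcases h3 with e | e
    · exact hs (by rw [e])
    · subst e
      exact hne (hX.eq_of_inter hY ⟨q, hq, hq'⟩)

/-! ## the double count -/

/-- face of a simplex -/
private def ct_er (r : Cq G) (z : V) (h : 2 ≤ r.1.card) : Cq G :=
  ⟨r.1.erase z, by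
    rw [← Finset.card_pos]
    have := Finset.pred_card_le_card_erase (s := r.1) (a := z)
    omega, r.2.2.subset (by
      intro x hx
      exact Finset.mem_coe.2 (Finset.mem_of_mem_erase (Finset.mem_coe.1 hx)))⟩

private theorem ct_above (hG : IsSph3 G) (q : Cq G) (hq : q.1.card = 3) :
    {r : Cq G | q < r ∧ r.1.card = 4}.ncard = 2 := by
  rw [← hG.tri q.1 q.2.2 hq]
  symm
  have hn : ∀ x ∈ Lk G (q.1 : Set V), x ∉ q.1 := by
    intro x hx h
    exact (hx x (Finset.mem_coe.2 h)).ne rfl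
  refine Set.ncard_congr (fun x hx => ⟨insert x q.1, Finset.insert_nonempty _ _, ?_⟩) ?_ ?_ ?_
  · rw [Finset.coe_insert]
    exact q.2.2.insert fun y hy _ => (hx y hy).symm
  · intro x hx
    refine ⟨Cq.lt_iff.2 ?_, ?_⟩
    · exact Finset.ssubset_insert (hn x hx)
    · show (insert x q.1).card = 4
      rw [Finset.card_insert_of_notMem (hn x hx), hq]
  · intro x y hx hy e
    have e' : insert x q.1 = insert y q.1 := congrArg Subtype.val e
    have h1 : x ∈ insert y q.1 := by rw [← e']; exact Finset.mem_insert_self _ _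
    rcases Finset.mem_insert.1 h1 with h | h
    · exact h
    · exact absurd h (hn x hx)
  · rintro r ⟨h1, h2⟩
    have h3 := Cq.lt_iff.1 h1
    obtain ⟨x, hx, hxq⟩ := Finset.exists_of_ssubset h3
    have h4 : insert x q.1 = r.1 := by
      refine Finset.eq_of_subset_of_card_le (Finset.insert_subset hx h3.1) ?_
      rw [Finset.card_insert_of_notMem hxq, hq, h2]
    refine ⟨x, ?_, Subtype.ext h4⟩
    intro y hy
    refine r.2.2 (Finset.mem_coe.2 (h3.1 (Finset.mem_coe.1 hy))) (Finset.mem_coe.2 hx) ?_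
    intro e
    exact hxq (e ▸ Finset.mem_coe.1 hy)

private theorem ct_up (hP : Pre G κ S) (hq : q ∈ Ar G κ S a) (h : q ≤ r) (hr : r.1.card = 4) :
    r ∈ Ar G κ S a ∨ (r ∈ P4 G κ ∧ a ∈ cols κ r) := by
  obtain ⟨c, d, hs, hE, hc⟩ : ∃ c d, S.side c ≠ S.side a ∧ S.E c d ∧ cols κ q = {a, c, d} := by
    rcases so_form hP hq.1 with ⟨c, _, hc⟩ | h
    · have h2 := hq.2
      rw [hc] at h2
      have := ct_two a c
      omega
    · exact h
  have hsd := S.E_side hE
  have h0 := cols_mono (κ := κ) h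
  have ha : a ∈ cols κ r := h0 (by rw [hc]; simp)
  have hcc : c ∈ cols κ r := h0 (by rw [hc]; simp)
  have hd : d ∈ cols κ r := h0 (by rw [hc]; simp)
  by_cases hall : ∀ e ∈ cols κ r, e = a ∨ e = c ∨ e = d
  · left
    have h1 : cols κ r = {a, c, d} := by
      refine Set.Subset.antisymm (fun e he => by simpa using hall e he) ?_
      rw [← hc]; exact h0
    refine ⟨⟨ha, ?_, c, hcc, hs⟩, by rw [h1, ← hc]; exact hq.2⟩
    intro e he hea
    rcases hall e he with e1 | e1 | e1
    · exact e1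
    · subst e1; exact absurd hea hs
    · subst e1; exact absurd (hsd.trans hea) hs
  · right
    refine ⟨?_, ha⟩
    push Not at hall
    obtain ⟨e, he, e1, e2, e3⟩ := hall
    have h5 : (cols κ r).ncard ≤ 4 := hr ▸ cols_ncard_le (κ := κ) r
    have h6 : insert e (cols κ q) ⊆ cols κ r := Set.insert_subset he h0
    have h7 := Set.ncard_le_ncard h6 (cols_fin r)
    have h8 : e ∉ cols κ q := by
      rw [hc]
      simp [e1, e2, e3]
    rw [Set.ncard_insert_of_notMem h8 (cols_fin q), hq.2] at h7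
    show (cols κ r).ncard = 4
    omega

private theorem ct_inj {s : Finset V} (h : (κ '' (s : Set V)).ncard = s.card) {x y : V}
    (hx : x ∈ s) (hy : y ∈ s) (e : κ x = κ y) : x = y := by
  have h4 : (κ '' (s : Set V)).ncard = (s : Set V).ncard := by
    rw [h, Set.ncard_coe_finset]
  exact (Set.ncard_image_iff (Finset.finite_toSet s)).1 h4 (Finset.mem_coe.2 hx)
    (Finset.mem_coe.2 hy) e

private theorem ct_low1 (hr : r ∈ Ar G κ S a) (hr4 : r.1.card = 4) :
    {q | (q ∈ Ar G κ S a ∧ q.1.card = 3) ∧ q < r}.ncard = 2 := by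
  have h0 : (κ '' (r.1 : Set V)).ncard = 3 := by rw [← cols_eq_image]; exact hr.2
  obtain ⟨x, hx, y, hy, hxy, e⟩ : ∃ x ∈ r.1, ∃ y ∈ r.1, x ≠ y ∧ κ x = κ y := by
    by_contra hcon
    push Not at hcon
    have : (κ '' (r.1 : Set V)).ncard = (r.1 : Set V).ncard :=
      Set.InjOn.ncard_image fun x hx y hy e => by
        by_contra hne
        exact hcon x (Finset.mem_coe.1 hx) y (Finset.mem_coe.1 hy) hne e
    rw [h0, Set.ncard_coe_finset, hr4] at this
    omega
  have hge : 2 ≤ r.1.card := by omega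
  have key : ∀ x ∈ r.1, ∀ y ∈ r.1, x ≠ y → κ x = κ y →
      (ct_er r x hge ∈ Ar G κ S a ∧ (ct_er r x hge).1.card = 3) ∧ ct_er r x hge < r := by
    intro x hx y hy hxy e
    have hc : cols κ (ct_er r x hge) = cols κ r := by
      ext w
      constructor
      · rintro ⟨z, hz, rfl⟩
        exact ⟨z, Finset.mem_of_mem_erase hz, rfl⟩
      · rintro ⟨z, hz, rfl⟩
        by_cases hzx : z = x
        · subst hzx
          exact ⟨y, Finset.mem_erase.2 ⟨hxy.symm, hy⟩, e.symm⟩
        · exact ⟨z, Finset.mem_erase.2 ⟨hzx, hz⟩, rfl⟩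
    have hcard : (ct_er r x hge).1.card = 3 := by
      show (r.1.erase x).card = 3
      rw [Finset.card_erase_of_mem hx, hr4]
    refine ⟨⟨⟨?_, ?_⟩, hcard⟩, Cq.lt_iff.2 (Finset.erase_ssubset hx)⟩
    · obtain ⟨h1, h2, h3⟩ := hr.1
      refine ⟨?_, ?_, ?_⟩
      · rw [hc]; exact h1
      · rw [hc]; exact h2
      · rw [hc]; exact h3
    · rw [hc]; exact hr.2
  have hset : {q | (q ∈ Ar G κ S a ∧ q.1.card = 3) ∧ q < r} =
      {ct_er r x hge, ct_er r y hge} := by
    ext q
    simp only [Set.mem_ofPred_eq, Set.mem_insert_iff, Set.mem_singleton_iff]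
    constructor
    · rintro ⟨⟨hq, hq3⟩, hlt⟩
      have hsub := Cq.lt_iff.1 hlt
      have hin : ∀ u ∈ q.1, ∀ u' ∈ q.1, κ u = κ u' → u = u' := by
        intro u hu u' hu' e
        refine ct_inj (κ := κ) (s := q.1) ?_ hu hu' e
        rw [← cols_eq_image, hq.2, hq3]
      by_cases hxq : x ∈ q.1
      · right
        have hyq : y ∉ q.1 := fun h => hxy (hin x hxq y h e)
        refine Subtype.ext (Finset.eq_of_subset_of_card_le ?_ ?_)
        · intro z hz
          exact Finset.mem_erase.2 ⟨fun h => hyq (h ▸ hz), hsub.1 hz⟩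
        · show (r.1.erase y).card ≤ q.1.card
          rw [Finset.card_erase_of_mem hy, hr4, hq3]
      · left
        refine Subtype.ext (Finset.eq_of_subset_of_card_le ?_ ?_)
        · intro z hz
          exact Finset.mem_erase.2 ⟨fun h => hxq (h ▸ hz), hsub.1 hz⟩
        · show (r.1.erase x).card ≤ q.1.card
          rw [Finset.card_erase_of_mem hx, hr4, hq3]
    · rintro (rfl | rfl)
      · exact key x hx y hy hxy e
      · exact key y hy x hx hxy.symm e.symm
  rw [hset, Set.ncard_pair]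
  intro h
  have h' : r.1.erase x = r.1.erase y := congrArg Subtype.val h
  have h1 : y ∈ r.1.erase x := Finset.mem_erase.2 ⟨hxy.symm, hy⟩
  rw [h'] at h1
  exact Finset.notMem_erase _ _ h1

private theorem ct_low2 (hG : IsSph3 G) (hP : Pre G κ S) (hr : r ∈ P4 G κ) (ha : a ∈ cols κ r) :
    {q | (q ∈ Ar G κ S a ∧ q.1.card = 3) ∧ q < r}.ncard = 1 := by
  obtain ⟨b, c, d, hc, hI⟩ := p4_form hP hr ha
  obtain ⟨n1, n2, n3, n4, n5, n6⟩ := Sys.Inc4.ne hI
  have hr4 := p4_card hG hr
  have hge : 2 ≤ r.1.card := by omega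
  have sab := S.E_side hI.1
  have scd := S.E_side hI.2.1
  have sac := S.I_side hI.2.2.1
  have sad := S.I_side hI.2.2.2.1
  obtain ⟨z, hz, hzb⟩ : b ∈ cols κ r := by rw [hc]; simp
  have hset : {q | (q ∈ Ar G κ S a ∧ q.1.card = 3) ∧ q < r} = {ct_er r z hge} := by
    ext q
    simp only [Set.mem_ofPred_eq, Set.mem_singleton_iff]
    constructor
    · rintro ⟨⟨hq, hq3⟩, hlt⟩
      have hsub := Cq.lt_iff.1 hlt
      have hzq : z ∉ q.1 := by
        intro h
        exact n1 (hq.1.2.1 b ⟨z, h, hzb⟩ sab.symm).symm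
      refine Subtype.ext (Finset.eq_of_subset_of_card_le ?_ ?_)
      · intro u hu
        exact Finset.mem_erase.2 ⟨fun h => hzq (h ▸ hu), hsub.1 hu⟩
      · show (r.1.erase z).card ≤ q.1.card
        rw [Finset.card_erase_of_mem hz, hr4, hq3]
    · rintro rfl
      have hcard : (ct_er r z hge).1.card = 3 := by
        show (r.1.erase z).card = 3
        rw [Finset.card_erase_of_mem hz, hr4]
      have hcc : ∀ e, e ≠ b → e ∈ cols κ r → e ∈ cols κ (ct_er r z hge) := by
        rintro e he ⟨u, hu, rfl⟩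
        refine ⟨u, Finset.mem_erase.2 ⟨?_, hu⟩, rfl⟩
        intro h
        exact he (h ▸ hzb)
      have hcb : ∀ e ∈ cols κ (ct_er r z hge), e ≠ b ∧ e ∈ cols κ r := by
        rintro e ⟨u, hu, rfl⟩
        obtain ⟨h1, h2⟩ := Finset.mem_erase.1 hu
        refine ⟨?_, u, h2, rfl⟩
        intro h
        exact h1 (p4_inj hG hr h2 hz (h.trans hzb.symm))
      refine ⟨⟨⟨⟨hcc a n1 ha, ?_, c, hcc c n4.symm (by rw [hc]; simp), sac.symm⟩, ?_⟩, hcard⟩,
        Cq.lt_iff.2 (Finset.erase_ssubset hz)⟩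
      · intro e he hea
        obtain ⟨h1, h2⟩ := hcb e he
        rw [hc] at h2
        simp only [Set.mem_insert_iff, Set.mem_singleton_iff] at h2
        rcases h2 with h2 | h2 | h2 | h2
        · exact h2
        · exact absurd h2 h1
        · subst h2; exact absurd hea.symm sac
        · subst h2; exact absurd hea.symm sad
      · rw [cols_eq_image, Set.InjOn.ncard_image, Set.ncard_coe_finset, hcard]
        intro u hu u' hu' e
        have h1 : u ∈ r.1 := (Finset.mem_erase.1 (Finset.mem_coe.1 hu)).2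
        have h2 : u' ∈ r.1 := (Finset.mem_erase.1 (Finset.mem_coe.1 hu')).2
        exact p4_inj hG hr h1 h2 e
  rw [hset, Set.ncard_singleton]

private theorem ct_flt {X : Type} [Fintype X] (P : X → Prop) [DecidablePred P] :
    (Finset.univ.filter P).card = {q | P q}.ncard := by
  rw [← Set.ncard_coe_finset]
  congr 1
  ext q
  simp

/-- DOUBLE COUNT of the pairs `q < r`, `q ∈ Ar` of size 3, `r` of size 4 in `Ar` or a point with colour
`a`: every `q` has exactly two `r` (`hG.tri`; the fourth vertex cannot have a third colour of the other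
side, `hP.two`), `r ∈ Ar` has exactly two `q` (one colour twice), a point has exactly one. -/
theorem ar_count [Finite V] (hG : IsSph3 G) (hP : Pre G κ S) (a : C) :
    2 * es (Ar G κ S a) = - ({p | p ∈ P4 G κ ∧ a ∈ cols κ p}.ncard : ℤ) := by
  have : Fintype (Cq G) := Fintype.ofFinite _
  set Q : Finset (Cq G) := Finset.univ.filter (fun q => q ∈ Ar G κ S a ∧ q.1.card = 3) with hQ
  set T1 : Finset (Cq G) := Finset.univ.filter (fun q => q ∈ Ar G κ S a ∧ q.1.card = 4) with hT1
  set T2 : Finset (Cq G) := Finset.univ.filter (fun p => p ∈ P4 G κ ∧ a ∈ cols κ p) with hT2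
  have hd : Disjoint T1 T2 := by
    rw [Finset.disjoint_left]
    intro r h1 h2
    have h3 := (Finset.mem_filter.1 h1).2.1.2
    have h4 : (cols κ r).ncard = 4 := (Finset.mem_filter.1 h2).2.1
    omega
  have hdc := Finset.sum_card_bipartiteAbove_eq_sum_card_bipartiteBelow (s := Q)
    (t := T1 ∪ T2) (fun q r : Cq G => q < r)
  have hL : ∀ q ∈ Q, (Finset.bipartiteAbove (fun q r : Cq G => q < r) (T1 ∪ T2) q).card = 2 := by
    intro q hq
    have hq' := (Finset.mem_filter.1 hq).2
    rw [← ct_above hG q hq'.2, ← Set.ncard_coe_finset]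
    congr 1
    ext r
    simp only [Finset.mem_coe, Finset.mem_bipartiteAbove, Finset.mem_union, Set.mem_ofPred_eq]
    constructor
    · rintro ⟨h | h, hlt⟩
      · exact ⟨hlt, (Finset.mem_filter.1 h).2.2⟩
      · exact ⟨hlt, p4_card hG (Finset.mem_filter.1 h).2.1⟩
    · rintro ⟨hlt, h4⟩
      refine ⟨?_, hlt⟩
      rcases ct_up hP hq'.1 hlt.le h4 with h | h
      · exact Or.inl (Finset.mem_filter.2 ⟨Finset.mem_univ _, h, h4⟩)
      · exact Or.inr (Finset.mem_filter.2 ⟨Finset.mem_univ _, h⟩)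
  have hB : ∀ r : Cq G, (Finset.bipartiteBelow (fun q r : Cq G => q < r) Q r).card =
      {q | (q ∈ Ar G κ S a ∧ q.1.card = 3) ∧ q < r}.ncard := by
    intro r
    rw [← Set.ncard_coe_finset]
    congr 1
    ext q
    simp only [Finset.mem_coe, Finset.mem_bipartiteBelow, Set.mem_ofPred_eq, hQ,
      Finset.mem_filter, Finset.mem_univ, true_and]
  rw [Finset.sum_const_nat hL, Finset.sum_union hd,
    Finset.sum_const_nat (m := 2) fun r hr => by
      rw [hB]
      have h := (Finset.mem_filter.1 hr).2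
      exact ct_low1 h.1 h.2,
    Finset.sum_const_nat (m := 1) fun r hr => by
      rw [hB]
      have h := (Finset.mem_filter.1 hr).2
      exact ct_low2 hG hP h.1 h.2] at hdc
  have e1 : Q.card = {q | q ∈ Ar G κ S a ∧ q.1.card = 3}.ncard := ct_flt _
  have e2 : T1.card = {q | q ∈ Ar G κ S a ∧ q.1.card = 4}.ncard := ct_flt _
  have e3 : T2.card = {p | p ∈ P4 G κ ∧ a ∈ cols κ p}.ncard := ct_flt _
  rw [e1, e2, e3] at hdc
  have h2 : {q | q ∈ Ar G κ S a ∧ q.1.card = 2} = ∅ := by
    ext q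
    simp only [Set.mem_ofPred_eq, Set.mem_empty_iff_false, iff_false, not_and]
    intro hq h
    have := cols_ncard_le (κ := κ) q
    rw [hq.2, h] at this
    omega
  unfold es
  rw [h2, Set.ncard_empty]
  push_cast
  omega

/-- every point with colour `a` is a corner of exactly two regions of the piece (`rg_comp`, `rg_uniq`;
colours `a, c` and `a, d`) -/
theorem cor_count [Finite V] (hG : IsSph3 G) (hP : Pre G κ S) (a : C) :
    ∑ R ∈ rgs G κ S a, (cor κ R).ncard = 2 * {p | p ∈ P4 G κ ∧ a ∈ cols κ p}.ncard := by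
  have : Fintype (Cq G) := Fintype.ofFinite _
  set T : Finset (Cq G) := Finset.univ.filter (fun p => p ∈ P4 G κ ∧ a ∈ cols κ p) with hT
  have hdc := Finset.sum_card_bipartiteAbove_eq_sum_card_bipartiteBelow (s := rgs G κ S a)
    (t := T) (fun R p => p ∈ cor κ R)
  have hL : ∀ R ∈ rgs G κ S a,
      (Finset.bipartiteAbove (fun R p => p ∈ cor κ R) T R).card = (cor κ R).ncard := by
    intro R hR
    obtain ⟨c, hs, hR⟩ := ct_mem.1 hR
    rw [← Set.ncard_coe_finset]
    congr 1
    ext p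
    simp only [Finset.mem_coe, Finset.mem_bipartiteAbove, hT, Finset.mem_filter,
      Finset.mem_univ, true_and]
    constructor
    · exact fun h => h.2
    · intro h
      refine ⟨⟨h.1, ?_⟩, h⟩
      exact ((mem_cor hG ⟨a, by simp⟩ hR).1 h).2.1 (by simp)
  have e3 : T.card = {p | p ∈ P4 G κ ∧ a ∈ cols κ p}.ncard := ct_flt _
  rw [Finset.sum_congr rfl hL] at hdc
  rw [hdc, ← e3, mul_comm]
  refine Finset.sum_const_nat ?_
  · intro p hp
    obtain ⟨hp4, ha⟩ := (Finset.mem_filter.1 hp).2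
    obtain ⟨b, c, d, hc, hI⟩ := p4_form hP hp4 ha
    obtain ⟨n1, n2, n3, n4, n5, n6⟩ := Sys.Inc4.ne hI
    have hc' : cols κ p = {a, b, d, c} := by
      rw [hc]
      ext x
      simp only [Set.mem_insert_iff, Set.mem_singleton_iff]
      tauto
    have g1 := rg_comp hG hP hc hI
    have g2 := rg_comp hG hP hc' hI.right
    have sab := S.E_side hI.1
    have scd := S.E_side hI.2.1
    have sac := S.I_side hI.2.2.1
    have sad := S.I_side hI.2.2.2.1
    have hne : rg κ p a c ≠ rg κ p a d := by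
      intro e
      obtain ⟨x, hx⟩ := g1.1.conn.1
      have h1 : cols κ x = {a, c} := g1.1.sub hx
      rw [e] at hx
      have h2 : cols κ x = {a, d} := g2.1.sub hx
      have h3 : c ∈ ({a, d} : Set C) := by rw [← h2, h1]; simp
      simp only [Set.mem_insert_iff, Set.mem_singleton_iff] at h3
      rcases h3 with e | e
      · exact n2 e.symm
      · exact n6 e
    have hset : Finset.bipartiteBelow (fun R p => p ∈ cor κ R) (rgs G κ S a) p =
        {rg κ p a c, rg κ p a d} := by
      ext R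
      simp only [Finset.mem_bipartiteBelow, Finset.mem_insert, Finset.mem_singleton]
      constructor
      · rintro ⟨hR, hpR⟩
        obtain ⟨c', hs, hR⟩ := ct_mem.1 hR
        have h1 := ((mem_cor hG ⟨a, by simp⟩ hR).1 hpR).2.1
        have h2 : c' ∈ cols κ p := h1 (by simp)
        rw [hc] at h2
        simp only [Set.mem_insert_iff, Set.mem_singleton_iff] at h2
        rcases h2 with h2 | h2 | h2 | h2
        · exact absurd (by rw [h2]) hs
        · exact absurd (by rw [h2, sab]) hs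
        · subst h2; exact Or.inl (rg_uniq hG hR hpR)
        · subst h2; exact Or.inr (rg_uniq hG hR hpR)
      · rintro (rfl | rfl)
        · exact ⟨ct_mem.2 ⟨c, sac.symm, g1.1⟩, g1.2⟩
        · exact ⟨ct_mem.2 ⟨d, sad.symm, g2.1⟩, g2.2⟩
    rw [hset, Finset.card_pair hne]

private theorem ct_so : So G κ S a ⊆ Fr G (cs κ a) ∧
    (∀ q ∈ So G κ S a, ∀ r ∈ Fr G (cs κ a), r ≤ q → r ∈ So G κ S a) := by
  constructor
  · rintro q ⟨h1, h2, c, ⟨y, hy, hyc⟩, hcs⟩
    refine ⟨h1, y, hy, fun e => hcs ?_⟩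
    have e' : κ y = a := e
    rw [← hyc, e']
  · rintro q ⟨h1, h2, c, hc, hcs⟩ r ⟨h4, y, hy, hya⟩ hrq
    refine ⟨h4, fun e he => h2 e (cols_mono hrq he), κ y, ⟨y, hy, rfl⟩, ?_⟩
    intro e
    exact hya (h2 _ (cols_mono hrq ⟨y, hy, rfl⟩) e)

/-- THE COUNT: `chi_es` for the piece and for the regions (`reg_sub`), `so_chi`, `es_union`,
`es_sUnion` -/
theorem sum_tm [Finite V] [Finite C] (hG : IsSph3 G) (hS : S.Good) (hP : Pre G κ S) (a : C) :
    ∑ R ∈ rgs G κ S a, tm κ R = 4 * (({b | S.E a b}.ncard : ℤ) - 2) := by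
  obtain ⟨h1, h2, h3⟩ := so_parts hP a
  have h4 := so_chi hG hS hP a
  rw [chi_es hG ct_so.1 ct_so.2, h1, es_union h2, es_sUnion _ h3] at h4
  have h5 := ar_count hG hP a
  have h6 := cor_count hG hP a
  have h7 : ∑ R ∈ rgs G κ S a, tm κ R =
      ((∑ R ∈ rgs G κ S a, (cor κ R).ncard : ℕ) : ℤ) - 4 * ∑ R ∈ rgs G κ S a, es R := by
    rw [Nat.cast_sum, Finset.mul_sum, ← Finset.sum_sub_distrib]
    refine Finset.sum_congr rfl fun R hR => ?_
    obtain ⟨c, hs, hR⟩ := ct_mem.1 hR
    obtain ⟨k1, k2, k3⟩ := reg_sub hs hR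
    rw [tm, chi_es hG k2 k3]
  rw [h7, h6]
  push_cast
  linarith

end MOT.Pa
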