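import Pool.Agent.MOT.PaDef

/-!
# MOT/PaCol: API for colour sets, traces and priorities (block I)
-/

open Classical

noncomputable section

namespace MOT.Pa

variable {V C W : Type} {G : SimpleGraph V} {κ : V → C} {S : Sys C} {ρ : C → ℕ}

/-! ## colour sets -/

theorem mem_cols {q : Cq G} {c : C} : c ∈ cols κ q ↔ ∃ x ∈ q.1, κ x = c := Iff.rfl

theorem cols_mono {q r : Cq G} (h : q ≤ r) : cols κ q ⊆ cols κ r := by
  rintro c ⟨x, hx, e⟩
  exact ⟨x, h hx, e⟩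

theorem cols_ne (q : Cq G) : (cols κ q).Nonempty := by
  obtain ⟨x, hx⟩ := q.2.1
  exact ⟨κ x, x, hx, rfl⟩

theorem cols_eq_image (q : Cq G) : cols κ q = κ '' (q.1 : Set V) := by
  ext c
  constructor
  · rintro ⟨x, hx, e⟩
    exact ⟨x, Finset.mem_coe.2 hx, e⟩
  · rintro ⟨x, hx, e⟩
    exact ⟨x, Finset.mem_coe.1 hx, e⟩

theorem cols_fin (q : Cq G) : (cols κ q).Finite := by
  rw [cols_eq_image]
  exact (Finset.finite_toSet _).image _

theorem cols_ncard_le (q : Cq G) : (cols κ q).ncard ≤ q.1.card := by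
  rw [cols_eq_image]
  exact (Set.ncard_image_le (Finset.finite_toSet _)).trans (Set.ncard_coe_finset _).le

theorem XX_iff {q : Cq G} {σ : Set C} : q ∈ XX G κ σ ↔ σ ⊆ cols κ q := Iff.rfl

theorem Ex_sub_XX {σ : Set C} : Ex G κ σ ⊆ XX G κ σ := by
  intro q hq
  have : cols κ q = σ := hq
  exact XX_iff.2 this.ge

theorem XX_up {q r : Cq G} {σ : Set C} (h : q ≤ r) (hq : q ∈ XX G κ σ) : r ∈ XX G κ σ :=
  XX_iff.2 ((XX_iff.1 hq).trans (cols_mono h))

/-! ## traces -/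

theorem tc_ne {q : Cq G} {σ : Set C} (h : ∃ c ∈ cols κ q, c ∈ σ) :
    (q.1.filter (fun x => κ x ∈ σ)).Nonempty := by
  obtain ⟨c, ⟨x, hx, e⟩, hc⟩ := h
  exact ⟨x, Finset.mem_filter.2 ⟨hx, by rw [e]; exact hc⟩⟩

theorem tc_val {q : Cq G} {σ : Set C} (h : ∃ c ∈ cols κ q, c ∈ σ) :
    (tc κ σ q).1 = q.1.filter (fun x => κ x ∈ σ) := by
  unfold tc
  rw [dif_pos (tc_ne h)]

theorem mem_tc {q : Cq G} {σ : Set C} (h : ∃ c ∈ cols κ q, c ∈ σ) {x : V} :
    x ∈ (tc κ σ q).1 ↔ x ∈ q.1 ∧ κ x ∈ σ := by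
  rw [tc_val h, Finset.mem_filter]

theorem tc_le (q : Cq G) (σ : Set C) : tc κ σ q ≤ q := by
  unfold tc
  split_ifs with h
  · exact Cq.le_iff.2 (Finset.filter_subset _ _)
  · exact le_rfl

theorem tc_cols {q : Cq G} {σ : Set C} (h : ∃ c ∈ cols κ q, c ∈ σ) :
    cols κ (tc κ σ q) = cols κ q ∩ σ := by
  ext c
  constructor
  · rintro ⟨x, hx, e⟩
    rw [mem_tc h] at hx
    exact ⟨⟨x, hx.1, e⟩, by rw [← e]; exact hx.2⟩
  · rintro ⟨⟨x, hx, e⟩, hc⟩
    exact ⟨x, (mem_tc h).2 ⟨hx, by rw [e]; exact hc⟩, e⟩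

theorem tc_cols_sub {q : Cq G} {σ : Set C} (hσ : σ.Nonempty) (h : σ ⊆ cols κ q) :
    cols κ (tc κ σ q) = σ := by
  obtain ⟨c, hc⟩ := hσ
  rw [tc_cols ⟨c, h hc, hc⟩, Set.inter_eq_self_of_subset_right h]

theorem tc_mono {q r : Cq G} {σ : Set C} (h : ∃ c ∈ cols κ q, c ∈ σ) (hqr : q ≤ r) :
    tc κ σ q ≤ tc κ σ r := by
  have h' : ∃ c ∈ cols κ r, c ∈ σ := by
    obtain ⟨c, hc, hs⟩ := h
    exact ⟨c, cols_mono hqr hc, hs⟩
  refine Cq.le_iff.2 fun x hx => ?_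
  rw [mem_tc h] at hx
  exact (mem_tc h').2 ⟨hqr hx.1, hx.2⟩

theorem le_tc {q r : Cq G} {σ : Set C} (hqr : q ≤ r) (hq : cols κ q ⊆ σ) : q ≤ tc κ σ r := by
  obtain ⟨c, hc⟩ := cols_ne (κ := κ) q
  refine Cq.le_iff.2 fun x hx => (mem_tc ⟨c, cols_mono hqr hc, hq hc⟩).2 ⟨hqr hx, hq ⟨x, hx, rfl⟩⟩

theorem tc_id {q : Cq G} {σ : Set C} (hq : cols κ q ⊆ σ) : tc κ σ q = q :=
  le_antisymm (tc_le q σ) (le_tc le_rfl hq)

/-- the surface is the frontier of the vertex side -/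
theorem Su_eq_Fr : Su G κ S = Fr G {x | S.side (κ x) = true} := by
  ext q
  constructor
  · rintro ⟨⟨a, ⟨x, hx, rfl⟩, ha⟩, b, ⟨y, hy, rfl⟩, hb⟩
    refine ⟨⟨x, hx, ha⟩, ⟨y, hy, ?_⟩⟩
    intro h
    have h' : S.side (κ y) = true := h
    rw [hb] at h'
    exact Bool.false_ne_true h'
  · rintro ⟨⟨x, hx, ha⟩, ⟨y, hy, hb⟩⟩
    refine ⟨⟨κ x, ⟨x, hx, rfl⟩, ha⟩, κ y, ⟨y, hy, rfl⟩, ?_⟩
    have hb' : ¬ S.side (κ y) = true := hb
    simpa using hb'

/-! ## priorities -/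

theorem mx_mem (q : Cq G) : mx κ ρ q ∈ cols κ q :=
  ⟨_, (Finset.exists_max_image q.1 (fun x => ρ (κ x)) q.2.1).choose_spec.1, rfl⟩

theorem mx_max {q : Cq G} {d : C} (hd : d ∈ cols κ q) : ρ d ≤ ρ (mx κ ρ q) := by
  obtain ⟨x, hx, rfl⟩ := hd
  exact (Finset.exists_max_image q.1 (fun x => ρ (κ x)) q.2.1).choose_spec.2 x hx

theorem mx_eq (hρ : Function.Injective ρ) {q : Cq G} {c : C} (hc : c ∈ cols κ q)
    (hm : ∀ d ∈ cols κ q, ρ d ≤ ρ c) : mx κ ρ q = c :=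
  hρ (le_antisymm (hm _ (mx_mem q)) (mx_max hc))

theorem mx_mono {q r : Cq G} (h : q ≤ r) : ρ (mx κ ρ q) ≤ ρ (mx κ ρ r) :=
  mx_max (cols_mono h (mx_mem q))

theorem nk_pos {Z : Set (Cq G)} {t' : C} {q : Cq G} (h : q ∈ Z) : nk κ ρ Z t' q = t' :=
  if_pos h

theorem nk_neg {Z : Set (Cq G)} {t' : C} {q : Cq G} (h : q ∉ Z) : nk κ ρ Z t' q = mx κ ρ q :=
  if_neg h

/-- a priority function exists -/
theorem exists_rho [Finite C] (S : Sys C) (t t' : C) (ht : S.side t = false)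
    (ht' : S.side t' = false) (hne : t ≠ t') : ∃ ρ : C → ℕ, Rho S t t' ρ := by
  obtain ⟨n, ⟨e⟩⟩ := Finite.exists_equiv_fin C
  let f : C → ℕ := fun c => (e c).1
  have hf : Function.Injective f := fun a b h => e.injective (Fin.ext h)
  have hl : ∀ c, f c < n := fun c => (e c).2
  refine ⟨fun c => if c = t' then 2 * n + 1 else if c = t then 2 * n else
    if S.side c = true then f c else n + f c, ?_, ?_, ?_, ?_⟩
  · intro a b h
    beta_reduce at h
    have ha := hl a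
    have hb := hl b
    by_cases a1 : a = t'
    · by_cases b1 : b = t'
      · rw [a1, b1]
      · rw [if_pos a1, if_neg b1] at h
        split_ifs at h <;> omega
    · by_cases b1 : b = t'
      · rw [if_neg a1, if_pos b1] at h
        split_ifs at h <;> omega
      · rw [if_neg a1, if_neg b1] at h
        by_cases a2 : a = t
        · by_cases b2 : b = t
          · rw [a2, b2]
          · rw [if_pos a2, if_neg b2] at h
            split_ifs at h <;> omega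
        · by_cases b2 : b = t
          · rw [if_neg a2, if_pos b2] at h
            split_ifs at h <;> omega
          · rw [if_neg a2, if_neg b2] at h
            apply hf
            split_ifs at h <;> omega
  · intro a b ha hb
    have h1 : a ≠ t' := by rintro rfl; rw [ha] at ht'; exact Bool.false_ne_true ht'.symm
    have h2 : a ≠ t := by rintro rfl; rw [ha] at ht; exact Bool.false_ne_true ht.symm
    have h3 : ¬ S.side b = true := by rw [hb]; exact Bool.false_ne_true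
    beta_reduce
    rw [if_neg h1, if_neg h2, if_pos ha, if_neg h3]
    have := hl a
    split_ifs <;> omega
  · intro a ha
    beta_reduce
    rw [if_neg ha, if_pos rfl]
    have := hl a
    split_ifs <;> omega
  · intro a ha ha'
    beta_reduce
    rw [if_neg ha', if_neg ha, if_neg hne, if_pos rfl]
    have := hl a
    split_ifs <;> omega

end MOT.Pa
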