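import Pool.Agent.MOT.Sf1
import Pool.Agent.MOT.Cpt

/-!
# MOT/SfC: 2-regular graphs without triangles (disjoint circles), evaluation of cocycles on them
-/

open Classical

noncomputable section

namespace MOT

variable {V : Type} {G : SimpleGraph V} {A B C F M S P : Set V}

/-- the full subcomplex on `F` is 2-regular and has no triangle: a disjoint union of circles -/
structure TwoReg (G : SimpleGraph V) (F : Set V) : Prop where
  two : ∀ x ∈ F, {y | EIn G F x y}.ncard = 2
  tri : ∀ x y z, EIn G F x y → EIn G F y z → EIn G F x z → False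

theorem TwoReg.no3 (h : TwoReg G F) {s : Finset V} (hs : G.IsClique (s : Set V))
    (hF : (s : Set V) ⊆ F) (h3 : 3 ≤ s.card) : False := by
  obtain ⟨t, ht, hc⟩ := Finset.exists_subset_card_eq h3
  obtain ⟨x, y, z, hxy, hxz, hyz, rfl⟩ := Finset.card_eq_three.1 hc
  have hx : x ∈ s := ht (by simp)
  have hy : y ∈ s := ht (by simp)
  have hz : z ∈ s := ht (by simp)
  exact h.tri x y z ⟨hs hx hy hxy, hF hx, hF hy⟩ ⟨hs hy hz hyz, hF hy, hF hz⟩
    ⟨hs hx hz hxz, hF hx, hF hz⟩

theorem TwoReg.fn_two [Finite V] (h : TwoReg G F) : fn G F 1 = fn G F 2 := by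
  have lem1 : ∀ e ∈ (Set.toFinite {s : Finset V | s.card = 1 ∧ G.IsClique (s : Set V) ∧
      (s : Set V) ⊆ F}).toFinset, ((Set.toFinite {s : Finset V | s.card = 2 ∧
      G.IsClique (s : Set V) ∧ (s : Set V) ⊆ F}).toFinset.filter (fun t => e ⊆ t)).card = 2 := by
    intro e he
    obtain ⟨h1, h2, h3⟩ := (Set.Finite.mem_toFinset _).1 he
    obtain ⟨x, rfl⟩ := Finset.card_eq_one.1 h1
    have hx : x ∈ F := h3 (by simp)
    have hset : ((((Set.toFinite {s : Finset V | s.card = 2 ∧ G.IsClique (s : Set V) ∧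
        (s : Set V) ⊆ F}).toFinset.filter (fun t => {x} ⊆ t)) : Finset (Finset V)) :
        Set (Finset V)) =
        {t : Finset V | t.card = 1 + 1 ∧ G.IsClique (t : Set V) ∧ (t : Set V) ⊆ F ∧ {x} ⊆ t} := by
      ext t
      simp only [Finset.coe_filter, Set.Finite.mem_toFinset, Set.mem_ofPred_eq]
      tauto
    rw [← Set.ncard_coe_finset, hset, star_ncard {x} 1 h1 h2 h3, ← h.two x hx]
    congr 1
    ext y
    constructor
    · rintro ⟨h4, h5⟩
      exact ⟨h4 x (by simp), hx, h5⟩
    · rintro ⟨h4, -, h5⟩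
      refine ⟨fun z hz => ?_, h5⟩
      have hz' : z = x := by simpa using hz
      rw [hz']; exact h4
  have lem2 : ∀ t ∈ (Set.toFinite {s : Finset V | s.card = 2 ∧ G.IsClique (s : Set V) ∧
      (s : Set V) ⊆ F}).toFinset, ((Set.toFinite {s : Finset V | s.card = 1 ∧
      G.IsClique (s : Set V) ∧ (s : Set V) ⊆ F}).toFinset.filter (fun e => e ⊆ t)).card = 2 := by
    intro t ht
    obtain ⟨h1, h2, h3⟩ := (Set.Finite.mem_toFinset _).1 ht
    obtain ⟨x, y, hxy, rfl⟩ := Finset.card_eq_two.1 h1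
    have hfil : (Set.toFinite {s : Finset V | s.card = 1 ∧ G.IsClique (s : Set V) ∧
        (s : Set V) ⊆ F}).toFinset.filter (fun e => e ⊆ {x, y}) = {{x}, {y}} := by
      ext e
      simp only [Finset.mem_filter, Set.Finite.mem_toFinset, Set.mem_ofPred_eq,
        Finset.mem_insert, Finset.mem_singleton]
      constructor
      · rintro ⟨⟨h4, -, -⟩, h5⟩
        obtain ⟨z, rfl⟩ := Finset.card_eq_one.1 h4
        have hz : z ∈ ({x, y} : Finset V) := h5 (by simp)
        simp only [Finset.mem_insert, Finset.mem_singleton] at hz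
        rcases hz with rfl | rfl
        · exact Or.inl rfl
        · exact Or.inr rfl
      · rintro (rfl | rfl)
        · refine ⟨⟨by simp, by simp, ?_⟩, by simp⟩
          intro z hz
          have : z = x := by simpa using hz
          rw [this]; exact h3 (by simp)
        · refine ⟨⟨by simp, by simp, ?_⟩, by simp⟩
          intro z hz
          have : z = y := by simpa using hz
          rw [this]; exact h3 (by simp)
    rw [hfil, Finset.card_pair]
    intro h
    exact hxy (Finset.singleton_injective h)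
  have key := dc_two
    (Set.toFinite {s : Finset V | s.card = 1 ∧ G.IsClique (s : Set V) ∧ (s : Set V) ⊆ F}).toFinset
    (Set.toFinite {s : Finset V | s.card = 2 ∧ G.IsClique (s : Set V) ∧ (s : Set V) ⊆ F}).toFinset
    (fun e t => e ⊆ t) (fun e he => by convert lem1 e he) (fun t ht => by convert lem2 t ht)
  unfold fn
  rw [Set.ncard_eq_toFinset_card, Set.ncard_eq_toFinset_card]
  exact key

theorem TwoReg.b1_eq [Finite V] (h : TwoReg G F) : b1 G F = b0 G F := by
  have hE : IsEmpty (Kq G F 3) := ⟨fun t => h.no3 t.2.2.1 t.2.2.2 t.2.1.ge⟩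
  have h3 : fn G F 3 = 0 := by
    rw [← card_Kq]
    exact Fintype.card_eq_zero
  have hz : z2 G F = 0 := by
    unfold z2
    have : Subsingleton (Kq G F 3 → ZMod 2) := ⟨fun f g => funext fun t => (hE.false t).elim⟩
    exact Module.finrank_zero_of_subsingleton
  have h4 := euler (G := G) (A := F)
  have h5 := h.fn_two
  omega

theorem TwoReg.comp (h : TwoReg G F) (hC : IsComp G F C) : TwoReg G C := by
  have key : ∀ x ∈ C, {y | EIn G C x y} = {y | EIn G F x y} := by
    intro x hx
    ext y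
    constructor
    · rintro e
      exact e.mono hC.sub
    · intro e
      refine ⟨e.1, hx, ?_⟩
      by_contra hy
      exact hC.nadj x hx y ⟨e.2.2, hy⟩ e.1
  refine ⟨fun x hx => ?_, fun x y z e1 e2 e3 =>
    h.tri x y z (e1.mono hC.sub) (e2.mono hC.sub) (e3.mono hC.sub)⟩
  rw [key x hx]
  exact h.two x (hC.sub hx)

theorem TwoReg.cyc (h : TwoReg G F) (hC : IsComp G F C) : IsCyc G C :=
  ⟨hC.conn, (h.comp hC).two⟩

theorem TwoReg.b1_comp [Finite V] (h : TwoReg G F) (hC : IsComp G F C) : b1 G C = 1 := by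
  rw [(h.comp hC).b1_eq, b0_eq_one]
  exact hC.conn

/-- the frontier of a part of a surface consists of disjoint circles -/
theorem FrIn_TwoReg [Finite V] (hS : Surf G S) : TwoReg (sd G) (FrIn G S P) :=
  ⟨fun _ hs => FrIn_two hS hs, fun _ _ _ e1 e2 e3 => FrIn_no_tri hS e1 e2 e3⟩

theorem FrIn_b1 [Finite V] (hS : Surf G S) :
    b1 (sd G) (FrIn G S P) = b0 (sd G) (FrIn G S P) := (FrIn_TwoReg hS).b1_eq

/-- if `b1 = 1` the sum of two nontrivial classes is trivial -/
theorem b1_one_add [Finite V] (h : b1 G A = 1) {a b : V → V → ZMod 2} (ha : a ∈ Z1 G A)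
    (hb : b ∈ Z1 G A) (na : ¬ Triv G A a) (nb : ¬ Triv G A b) : Triv G A (a + b) := by
  unfold b1 rk1 at h
  obtain ⟨v, hv, hall⟩ := finrank_eq_one_iff'.1 h
  have key : ∀ c : V → V → ZMod 2, ∀ hc : c ∈ Z1 G A, ¬ Triv G A c →
      (Submodule.Quotient.mk (⟨c, hc⟩ : Z1 G A) :
        (Z1 G A) ⧸ (K1 G A A).comap (Z1 G A).subtype) = v := by
    intro c hc nc
    obtain ⟨r, hr⟩ := hall (Submodule.Quotient.mk (⟨c, hc⟩ : Z1 G A))
    have hr' : r = 0 ∨ r = 1 := by
      have : ∀ r : ZMod 2, r = 0 ∨ r = 1 := by decide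
      exact this r
    rcases hr' with rfl | rfl
    · exfalso
      rw [zero_smul] at hr
      have h1 := (Submodule.Quotient.mk_eq_zero _).1 hr.symm
      exact nc h1.2
    · rw [one_smul] at hr
      exact hr.symm
  have h1 := (key a ha na).trans (key b hb nb).symm
  rw [Submodule.Quotient.eq] at h1
  refine h1.2.congr fun x y _ => ?_
  simp only [Submodule.subtype_apply, Submodule.coe_sub, Pi.sub_apply, Pi.add_apply,
    CharTwo.sub_eq_add]

/-! ## evaluation -/

/-- value of a symmetric cochain on a pair -/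
def pv (a : V → V → ZMod 2) (e : Finset V) : ZMod 2 :=
  if h : ∃ x y, x ≠ y ∧ e = {x, y} then a h.choose h.choose_spec.choose else 0

theorem pv_pair {a : V → V → ZMod 2} (hs : ∀ x y, a x y = a y x) {x y : V} (hxy : x ≠ y) :
    pv a {x, y} = a x y := by
  have h : ∃ x' y', x' ≠ y' ∧ ({x, y} : Finset V) = {x', y'} := ⟨x, y, hxy, rfl⟩
  unfold pv
  rw [dif_pos h]
  have key : ∀ x' y' : V, x' ≠ y' → ({x, y} : Finset V) = {x', y'} → a x' y' = a x y := by
    intro x' y' h1 h2
    have hx : x' ∈ ({x, y} : Finset V) := by rw [h2]; simp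
    have hy : y' ∈ ({x, y} : Finset V) := by rw [h2]; simp
    simp only [Finset.mem_insert, Finset.mem_singleton] at hx hy
    rcases hx with rfl | rfl <;> rcases hy with rfl | rfl
    · exact absurd rfl h1
    · rfl
    · exact hs _ _
    · exact absurd rfl h1
  exact key _ _ h.choose_spec.choose_spec.1 h.choose_spec.choose_spec.2

/-- the edges of `C` as a finset of pairs -/
def eds (G : SimpleGraph V) [Finite V] (C : Set V) : Finset (Finset V) :=
  (Set.toFinite {s : Finset V | s.card = 2 ∧ G.IsClique (s : Set V) ∧ (s : Set V) ⊆ C}).toFinset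

theorem mem_eds [Finite V] {e : Finset V} :
    e ∈ eds G C ↔ e.card = 2 ∧ G.IsClique (e : Set V) ∧ (e : Set V) ⊆ C :=
  Set.Finite.mem_toFinset _

theorem mem_eds' [Finite V] {e : Finset V} :
    e ∈ eds G C ↔ ∃ x y, EIn G C x y ∧ e = {x, y} := by
  rw [mem_eds]
  constructor
  · rintro ⟨h1, h2, h3⟩
    obtain ⟨x, y, hxy, rfl⟩ := Finset.card_eq_two.1 h1
    exact ⟨x, y, ⟨h2 (by simp) (by simp) hxy, h3 (by simp), h3 (by simp)⟩, rfl⟩
  · rintro ⟨x, y, e, rfl⟩
    refine ⟨Finset.card_pair e.1.ne, ?_, ?_⟩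
    · rw [Finset.coe_pair, SimpleGraph.isClique_pair]
      exact fun _ => e.1
    · intro z hz
      have hz' : z ∈ ({x, y} : Finset V) := hz
      simp only [Finset.mem_insert, Finset.mem_singleton] at hz'
      rcases hz' with rfl | rfl
      · exact e.2.1
      · exact e.2.2

/-- sum of a cochain over the edges of `C` -/
def cev (G : SimpleGraph V) [Finite V] (C : Set V) (a : V → V → ZMod 2) : ZMod 2 :=
  ∑ e ∈ eds G C, pv a e

theorem cev_congr [Finite V] {a b : V → V → ZMod 2} (ha : ∀ x y, a x y = a y x)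
    (hb : ∀ x y, b x y = b y x) (h : ∀ x y, EIn G C x y → a x y = b x y) :
    cev G C a = cev G C b := by
  refine Finset.sum_congr rfl fun e he => ?_
  obtain ⟨x, y, exy, rfl⟩ := mem_eds'.1 he
  rw [pv_pair ha exy.1.ne, pv_pair hb exy.1.ne, h x y exy]

theorem cev_add [Finite V] {a b : V → V → ZMod 2} (ha : ∀ x y, a x y = a y x)
    (hb : ∀ x y, b x y = b y x) : cev G C (a + b) = cev G C a + cev G C b := by
  unfold cev
  rw [← Finset.sum_add_distrib]
  refine Finset.sum_congr rfl fun e he => ?_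
  obtain ⟨x, y, exy, rfl⟩ := mem_eds'.1 he
  rw [pv_pair ha exy.1.ne, pv_pair hb exy.1.ne, pv_pair _ exy.1.ne]
  · rfl
  · intro x y
    show a x y + b x y = a y x + b y x
    rw [ha, hb]

/-- coboundaries have value zero -/
theorem cev_triv [Finite V] (h : TwoReg G C) {a : V → V → ZMod 2} (ha : ∀ x y, a x y = a y x)
    (t : Triv G C a) : cev G C a = 0 := by
  obtain ⟨f, hf⟩ := t
  have h1 : cev G C a = ∑ e ∈ eds G C, ∑ x ∈ e, f x := by
    refine Finset.sum_congr rfl fun e he => ?_
    obtain ⟨x, y, exy, rfl⟩ := mem_eds'.1 he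
    rw [pv_pair ha exy.1.ne, hf x y exy, Finset.sum_pair exy.1.ne]
  let Cf : Finset V := (Set.toFinite C).toFinset
  have h2 : ∑ e ∈ eds G C, ∑ x ∈ e, f x =
      ∑ x ∈ Cf, ∑ e ∈ (eds G C).filter (fun e => x ∈ e), f x := by
    rw [Finset.sum_comm' (t' := Cf) (s' := fun x => (eds G C).filter (fun e => x ∈ e))]
    intro e x
    simp only [Finset.mem_filter, Cf, Set.Finite.mem_toFinset]
    constructor
    · rintro ⟨h3, h4⟩
      exact ⟨⟨h3, h4⟩, (mem_eds.1 h3).2.2 h4⟩
    · rintro ⟨⟨h3, h4⟩, -⟩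
      exact ⟨h3, h4⟩
  rw [h1, h2]
  refine Finset.sum_eq_zero fun x hx => ?_
  have hxC : x ∈ C := (Set.Finite.mem_toFinset _).1 hx
  have hcard : ((eds G C).filter (fun e => x ∈ e)).card = 2 := by
    have hset : (((eds G C).filter (fun e => x ∈ e) : Finset (Finset V)) : Set (Finset V)) =
        {t : Finset V | t.card = 1 + 1 ∧ G.IsClique (t : Set V) ∧ (t : Set V) ⊆ C ∧ {x} ⊆ t} := by
      ext t
      simp only [Finset.coe_filter, mem_eds, Set.mem_ofPred_eq, Finset.singleton_subset_iff]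
      tauto
    rw [← Set.ncard_coe_finset, hset, star_ncard {x} 1 (by simp) (by simp) (by simpa using hxC),
      ← h.two x hxC]
    congr 1
    ext y
    constructor
    · rintro ⟨h4, h5⟩
      exact ⟨h4 x (by simp), hxC, h5⟩
    · rintro ⟨h4, -, h5⟩
      refine ⟨fun z hz => ?_, h5⟩
      have hz' : z = x := by simpa using hz
      rw [hz']; exact h4
  rw [Finset.sum_const, hcard, two_smul, two_add]

/-- on a circle a cochain is a coboundary iff its value is zero -/
theorem cev_iff [Finite V] (h : TwoReg G C) (hc : Conn G C) {a : V → V → ZMod 2}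
    (ha : ∀ x y, a x y = a y x) : cev G C a = 0 ↔ Triv G C a := by
  refine ⟨fun h0 => ?_, cev_triv h ha⟩
  have mem : ∀ b : V → V → ZMod 2, (∀ x y, b x y = b y x) → rs G C b ∈ Z1 G C := by
    intro b hb
    refine mem_Z1.2 ⟨fun x y e => if_neg e, fun x y => ?_, fun x y z e1 e2 e3 =>
      (h.tri x y z e1 e2 e3).elim⟩
    unfold rs
    by_cases e : EIn G C x y
    · rw [if_pos e, if_pos e.symm, hb]
    · rw [if_neg e, if_neg (fun e' => e e'.symm)]
  obtain ⟨x0, hx0⟩ := hc.1
  obtain ⟨y0, hy0⟩ : {y | EIn G C x0 y}.Nonempty := by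
    rw [← Set.ncard_pos (Set.toFinite _), h.two x0 hx0]
    norm_num
  have hy0' : EIn G C x0 y0 := hy0
  -- the indicator of an edge
  let b : V → V → ZMod 2 := fun x y => if ({x, y} : Finset V) = {x0, y0} then 1 else 0
  have hb : ∀ x y, b x y = b y x := by
    intro x y
    show (if _ then _ else _) = (if _ then _ else _)
    rw [Finset.pair_comm]
  have hsb : ∀ x y, rs G C b x y = rs G C b y x := (mem_Z1.1 (mem b hb)).2.1
  have hsa : ∀ x y, rs G C a x y = rs G C a y x := (mem_Z1.1 (mem a ha)).2.1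
  have evb : cev G C b = 1 := by
    have hmem : ({x0, y0} : Finset V) ∈ eds G C := mem_eds'.2 ⟨x0, y0, hy0', rfl⟩
    unfold cev
    rw [Finset.sum_eq_single_of_mem _ hmem]
    · rw [pv_pair hb hy0'.1.ne]
      exact if_pos rfl
    · intro e he hne
      obtain ⟨x, y, exy, rfl⟩ := mem_eds'.1 he
      rw [pv_pair hb exy.1.ne]
      exact if_neg hne
  have evb' : cev G C (rs G C b) = 1 := by
    rw [← evb]
    exact cev_congr hsb hb fun x y e => rs_apply e
  have eva' : cev G C (rs G C a) = 0 := by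
    rw [← h0]
    exact cev_congr hsa ha fun x y e => rs_apply e
  have nb : ¬ Triv G C (rs G C b) := by
    intro t
    rw [cev_triv h hsb t] at evb'
    exact zero_ne_one evb'
  by_contra na
  have na' : ¬ Triv G C (rs G C a) := fun t => na (Triv_rs.1 t)
  have hb1 : b1 G C = 1 := by
    rw [h.b1_eq, b0_eq_one]; exact hc
  have t := b1_one_add hb1 (mem a ha) (mem b hb) na' nb
  have h2 := cev_triv h (by
    intro x y
    show rs G C a x y + rs G C b x y = rs G C a y x + rs G C b y x
    rw [hsa, hsb]) t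
  rw [cev_add hsa hsb, eva', evb', zero_add] at h2
  exact one_ne_zero h2

/-- the value on a disjoint non adjacent union -/
theorem cev_union [Finite V] (hd : Disjoint A B) (hn : NAdj G A B) (a : V → V → ZMod 2) :
    cev G (A ∪ B) a = cev G A a + cev G B a := by
  unfold cev
  have h1 : eds G (A ∪ B) = eds G A ∪ eds G B := by
    ext e
    rw [Finset.mem_union, mem_eds', mem_eds', mem_eds']
    constructor
    · rintro ⟨x, y, ⟨h1, h2 | h2, h3 | h3⟩, rfl⟩
      · exact Or.inl ⟨x, y, ⟨h1, h2, h3⟩, rfl⟩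
      · exact absurd h1 (hn x h2 y h3)
      · exact absurd h1.symm (hn y h3 x h2)
      · exact Or.inr ⟨x, y, ⟨h1, h2, h3⟩, rfl⟩
    · rintro (⟨x, y, e, rfl⟩ | ⟨x, y, e, rfl⟩)
      · exact ⟨x, y, e.mono Set.subset_union_left, rfl⟩
      · exact ⟨x, y, e.mono Set.subset_union_right, rfl⟩
  rw [h1, Finset.sum_union]
  rw [Finset.disjoint_left]
  intro e he he'
  obtain ⟨x, y, exy, rfl⟩ := mem_eds'.1 he
  have := (mem_eds.1 he').2.2 (show x ∈ ((({x, y} : Finset V)) : Set V) by simp)
  exact Set.disjoint_left.1 hd exy.2.1 this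

end MOT
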