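import Pool.Agent.MOT.DuaB
import Pool.Agent.MOT.Cpt
import Pool.Agent.MOT.SfC

/-!
# MOT/PaEul: Euler characteristic of a part of a frontier by counting simplices (block I)
-/

open Classical

noncomputable section

namespace MOT.Pa

variable {V : Type} {G : SimpleGraph V} {M : Set V} {A B : Set V} {X Y : Set (Cq G)}

/-- mixed edges (vertices of the dual cell surface) minus mixed triangles plus mixed tetrahedra -/
def es (X : Set (Cq G)) : ℤ :=
  ({q | q ∈ X ∧ q.1.card = 2}.ncard : ℤ) - {q | q ∈ X ∧ q.1.card = 3}.ncard +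
    {q | q ∈ X ∧ q.1.card = 4}.ncard

private theorem es_cnt [Finite V] (h : Disjoint X Y) (k : ℕ) :
    {q | q ∈ X ∪ Y ∧ q.1.card = k}.ncard =
      {q | q ∈ X ∧ q.1.card = k}.ncard + {q | q ∈ Y ∧ q.1.card = k}.ncard := by
  rw [← Set.ncard_union_eq (Set.disjoint_left.2 fun q h1 h2 => Set.disjoint_left.1 h h1.1 h2.1)
    (Set.toFinite _) (Set.toFinite _)]
  congr 1
  ext q
  constructor
  · rintro ⟨h1 | h1, h2⟩
    · exact Or.inl ⟨h1, h2⟩
    · exact Or.inr ⟨h1, h2⟩
  · rintro (⟨h1, h2⟩ | ⟨h1, h2⟩)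
    · exact ⟨Or.inl h1, h2⟩
    · exact ⟨Or.inr h1, h2⟩

theorem es_union [Finite V] (h : Disjoint X Y) : es (X ∪ Y) = es X + es Y := by
  unfold es
  rw [es_cnt h 2, es_cnt h 3, es_cnt h 4]
  push_cast
  ring

theorem es_empty : es (∅ : Set (Cq G)) = 0 := by
  have h : ∀ k, {q : Cq G | q ∈ (∅ : Set (Cq G)) ∧ q.1.card = k} = ∅ := by
    intro k; ext q
    constructor
    · rintro ⟨h, -⟩; exact h
    · intro h; exact absurd h (Set.notMem_empty q)
  unfold es
  rw [h 2, h 3, h 4, Set.ncard_empty]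
  simp

theorem es_sUnion [Finite V] (F : Finset (Set (Cq G)))
    (h : ∀ X ∈ F, ∀ Y ∈ F, X ≠ Y → Disjoint X Y) :
    es (⋃ X ∈ F, X) = ∑ X ∈ F, es X := by
  induction F using Finset.induction_on with
  | empty => simpa using es_empty (G := G)
  | insert Z F hZ ih =>
    rw [Finset.sum_insert hZ, Finset.set_biUnion_insert, es_union, ih]
    · exact fun X hX Y hY => h X (Finset.mem_insert_of_mem hX) Y (Finset.mem_insert_of_mem hY)
    · rw [Set.disjoint_left]
      intro q hq hq'
      simp only [Set.mem_iUnion] at hq'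
      obtain ⟨Y, hY, hqY⟩ := hq'
      have hne : Z ≠ Y := fun e => hZ (e ▸ hY)
      exact Set.disjoint_left.1 (h Z (Finset.mem_insert_self _ _) Y
        (Finset.mem_insert_of_mem hY) hne) hq hqY

/-! ## additivity -/

private theorem fn_nadj [Finite V] (h : Disjoint A B) (hn : NAdj G A B) {k : ℕ} (hk : 0 < k) :
    fn G (A ∪ B) k = fn G A k + fn G B k := by
  let F : Set V → Set (Finset V) := fun X =>
    {s | s.card = k ∧ G.IsClique (s : Set V) ∧ (s : Set V) ⊆ X}
  have hd : Disjoint (F A) (F B) := by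
    rw [Set.disjoint_left]
    rintro s ⟨a, -, c⟩ ⟨-, -, c'⟩
    have hne : s.Nonempty := Finset.card_pos.1 (by omega)
    obtain ⟨x, hx⟩ := hne
    exact Set.disjoint_left.1 h (c (Finset.mem_coe.2 hx)) (c' (Finset.mem_coe.2 hx))
  have hu : F (A ∪ B) = F A ∪ F B := by
    apply Set.Subset.antisymm
    · rintro s ⟨a, b, c⟩
      by_cases hA : (s : Set V) ⊆ A
      · exact Or.inl ⟨a, b, hA⟩
      · refine Or.inr ⟨a, b, fun x hx => ?_⟩
        obtain ⟨y, hy, hyA⟩ := Set.not_subset.1 hA
        have hyB : y ∈ B := (c hy).resolve_left hyA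
        rcases c hx with hxA | hxB
        · exfalso
          have hne : x ≠ y := fun e => hyA (e ▸ hxA)
          exact hn x hxA y hyB (b hx hy hne)
        · exact hxB
    · rintro s (⟨a, b, c⟩ | ⟨a, b, c⟩)
      · exact ⟨a, b, c.trans Set.subset_union_left⟩
      · exact ⟨a, b, c.trans Set.subset_union_right⟩
  show (F (A ∪ B)).ncard = (F A).ncard + (F B).ncard
  rw [hu, Set.ncard_union_eq hd (Set.toFinite _) (Set.toFinite _)]

/-- additivity without edges in between -/
theorem chi_nadj [Finite V] (h : Disjoint A B) (hn : NAdj G A B) :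
    chi G (A ∪ B) = chi G A + chi G B := by
  unfold chi
  rw [fn_nadj h hn (k := 1) (by norm_num), fn_nadj h hn (k := 2) (by norm_num),
    fn_nadj h hn (k := 3) (by norm_num), fn_nadj h hn (k := 4) (by norm_num)]
  push_cast
  ring

theorem chi_sUnion [Finite V] {ι : Type} (F : Finset ι) (f : ι → Set V)
    (hd : ∀ i ∈ F, ∀ j ∈ F, i ≠ j → Disjoint (f i) (f j) ∧ NAdj G (f i) (f j)) :
    chi G (⋃ i ∈ F, f i) = ∑ i ∈ F, chi G (f i) := by
  induction F using Finset.induction_on with
  | empty => simpa using chi_empty (G := G)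
  | insert i F hi ih =>
    rw [Finset.sum_insert hi, Finset.set_biUnion_insert, chi_nadj, ih]
    · exact fun a ha b hb => hd a (Finset.mem_insert_of_mem ha) b (Finset.mem_insert_of_mem hb)
    · rw [Set.disjoint_left]
      intro q hq hq'
      simp only [Set.mem_iUnion] at hq'
      obtain ⟨j, hj, hqj⟩ := hq'
      have hne : i ≠ j := fun e => hi (e ▸ hj)
      exact Set.disjoint_left.1 (hd i (Finset.mem_insert_self _ _) j
        (Finset.mem_insert_of_mem hj) hne).1 hq hqj
    · intro q hq q' hq'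
      simp only [Set.mem_iUnion] at hq'
      obtain ⟨j, hj, hqj⟩ := hq'
      have hne : i ≠ j := fun e => hi (e ▸ hj)
      exact (hd i (Finset.mem_insert_self _ _) j (Finset.mem_insert_of_mem hj) hne).2 q hq q' hqj

/-! ## links in the frontier -/

theorem chi_anti [Finite V] (h : ∀ x ∈ A, ∀ y ∈ A, ¬ G.Adj x y) : chi G A = A.ncard := by
  have h0 : ∀ k, 2 ≤ k → fn G A k = 0 := by
    intro k hk
    have : {s : Finset V | s.card = k ∧ G.IsClique (s : Set V) ∧ (s : Set V) ⊆ A} = ∅ := by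
      ext s
      simp only [Set.mem_empty_iff_false, iff_false]
      rintro ⟨a, b, c⟩
      obtain ⟨x, hx, y, hy, hxy⟩ := Finset.one_lt_card.1 (by omega : 1 < s.card)
      exact h x (c (Finset.mem_coe.2 hx)) y (c (Finset.mem_coe.2 hy))
        (b (Finset.mem_coe.2 hx) (Finset.mem_coe.2 hy) hxy)
    rw [fn, this, Set.ncard_empty]
  unfold chi
  rw [h0 2 le_rfl, h0 3 (by norm_num), h0 4 (by norm_num), fn_one]
  simp

theorem TwoReg_chi [Finite V] (h : TwoReg G A) : chi G A = 0 := by
  have h0 : ∀ k, 3 ≤ k → fn G A k = 0 := by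
    intro k hk
    have : {s : Finset V | s.card = k ∧ G.IsClique (s : Set V) ∧ (s : Set V) ⊆ A} = ∅ := by
      ext s
      simp only [Set.mem_empty_iff_false, iff_false]
      rintro ⟨a, b, c⟩
      exact h.no3 b c (by omega)
    rw [fn, this, Set.ncard_empty]
  unfold chi
  rw [h0 3 le_rfl, h0 4 (by norm_num), h.fn_two]
  simp

theorem Fr_card {q : Cq G} (h : q ∈ Fr G M) : 2 ≤ q.1.card := by
  obtain ⟨⟨x, hx, hxM⟩, y, hy, hyM⟩ := h
  have hne : x ≠ y := fun e => hyM (e ▸ hxM)
  exact Finset.one_lt_card.2 ⟨x, hx, y, hy, hne⟩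

theorem below_tri [Finite V] (hG : IsSph3 G) {q : Cq G} (h3 : q.1.card = 3)
    (hq : q ∈ Fr G M) : ({t | t < q} ∩ Fr G M).ncard = 2 := by
  obtain ⟨v, hv⟩ : (Lk G (q.1 : Set V)).Nonempty := by
    rw [← Set.ncard_pos, hG.tri q.1 q.2.2 h3]; norm_num
  have hvq : v ∉ q.1 := fun h => G.irrefl (hv v (Finset.mem_coe.2 h))
  have hcl : G.IsClique ((insert v q.1 : Finset V) : Set V) :=
    clique_insert q.2.2 fun y hy => (hv y (Finset.mem_coe.2 hy)).symm
  let t : Cq G := ⟨insert v q.1, ⟨v, by simp⟩, hcl⟩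
  have htc : t.1.card = 4 := by
    show (insert v q.1).card = 4
    rw [Finset.card_insert_of_notMem hvq, h3]
  have hqt : q < t := by
    rw [Cq.lt_iff]
    exact Finset.ssubset_insert hvq
  have htF : t ∈ Fr G M := by
    obtain ⟨⟨x, hx, hxM⟩, y, hy, hyM⟩ := hq
    exact ⟨⟨x, (Cq.lt_iff.1 hqt).1 hx, hxM⟩, y, (Cq.lt_iff.1 hqt).1 hy, hyM⟩
  have hL := (surf_Fr hG (W := M)).lk q hq
  have htL : t ∈ Lk (sd G) {q} ∩ Fr G M := by
    refine ⟨fun r hr => ?_, htF⟩
    rw [Set.mem_singleton_iff] at hr; subst hr; exact Or.inl hqt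
  rw [← hL.2 t htL]
  congr 1
  ext r
  constructor
  · rintro ⟨h1, h2⟩
    refine ⟨Or.inr (lt_trans h1 hqt), htL, fun u hu => ?_, h2⟩
    rw [Set.mem_singleton_iff] at hu; subst hu; exact Or.inr h1
  · rintro ⟨h1, -, h2, h3'⟩
    have h4 : (sd G).Adj q r := h2 q rfl
    refine ⟨?_, h3'⟩
    rcases h4 with h4 | h4
    · exfalso
      have c1 := Finset.card_lt_card (Cq.lt_iff.1 h4)
      have c2 := hG.k5 r.1 r.2.2
      rcases h1 with h1 | h1
      · have c3 := Finset.card_lt_card (Cq.lt_iff.1 h1); omega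
      · have c3 := Finset.card_lt_card (Cq.lt_iff.1 h1); omega
    · exact h4

/-- `1 - chi` of the part of the frontier below `q` -/
theorem below_chi [Finite V] (hG : IsSph3 G) {q : Cq G} (hq : q ∈ Fr G M) :
    (q.1.card = 2 ∧ chi (sd G) ({t | t < q} ∩ Fr G M) = 0) ∨
    (q.1.card = 3 ∧ chi (sd G) ({t | t < q} ∩ Fr G M) = 2) ∨
    (q.1.card = 4 ∧ chi (sd G) ({t | t < q} ∩ Fr G M) = 0) := by
  have c1 := Fr_card hq
  have c2 := hG.k5 q.1 q.2.2
  have hb : ∀ r ∈ {t | t < q} ∩ Fr G M, 2 ≤ r.1.card ∧ r.1.card < q.1.card := fun r hr =>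
    ⟨Fr_card hr.2, Finset.card_lt_card (Cq.lt_iff.1 hr.1)⟩
  rcases (by omega : q.1.card = 2 ∨ q.1.card = 3 ∨ q.1.card = 4) with h | h | h
  · left
    refine ⟨h, ?_⟩
    have : {t | t < q} ∩ Fr G M = ∅ := by
      rw [Set.eq_empty_iff_forall_notMem]
      intro r hr
      have := hb r hr
      omega
    rw [this, chi_empty]
  · right; left
    refine ⟨h, ?_⟩
    rw [chi_anti, below_tri hG h hq]
    · rfl
    · intro x hx y hy e
      have h1 := hb x hx
      have h2 := hb y hy
      rcases e with e | e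
      · have := Finset.card_lt_card (Cq.lt_iff.1 e); omega
      · have := Finset.card_lt_card (Cq.lt_iff.1 e); omega
  · right; right
    refine ⟨h, TwoReg_chi ⟨(Fr_tet_cyc q h hq).2, ?_⟩⟩
    intro x y z e1 e2 e3
    have h1 := hb x e1.2.1
    have h2 := hb y e1.2.2
    have h3 := hb z e2.2.2
    rcases e1.1 with a | a <;> rcases e2.1 with b | b <;> rcases e3.1 with c | c <;>
    · have c1 := Finset.card_lt_card (Cq.lt_iff.1 a)
      have c2 := Finset.card_lt_card (Cq.lt_iff.1 b)
      have c3 := Finset.card_lt_card (Cq.lt_iff.1 c)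
      omega

theorem es_singleton {q : Cq G} : (q.1.card = 2 → es {q} = 1) ∧ (q.1.card = 3 → es {q} = -1) ∧
    (q.1.card = 4 → es {q} = 1) := by
  have hy : ∀ k, q.1.card = k → {r : Cq G | r ∈ ({q} : Set (Cq G)) ∧ r.1.card = k}.ncard = 1 := by
    intro k hk
    have : {r : Cq G | r ∈ ({q} : Set (Cq G)) ∧ r.1.card = k} = {q} := by
      ext r
      constructor
      · rintro ⟨h, -⟩; exact h
      · intro h
        rw [Set.mem_singleton_iff] at h; subst h
        exact ⟨rfl, hk⟩
    rw [this, Set.ncard_singleton]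
  have hn : ∀ k, q.1.card ≠ k → {r : Cq G | r ∈ ({q} : Set (Cq G)) ∧ r.1.card = k}.ncard = 0 := by
    intro k hk
    have : {r : Cq G | r ∈ ({q} : Set (Cq G)) ∧ r.1.card = k} = ∅ := by
      rw [Set.eq_empty_iff_forall_notMem]
      rintro r ⟨h, h'⟩
      rw [Set.mem_singleton_iff] at h; subst h
      exact hk h'
    rw [this, Set.ncard_empty]
  refine ⟨fun h => ?_, fun h => ?_, fun h => ?_⟩
  · unfold es; rw [hy 2 h, hn 3 (by omega), hn 4 (by omega)]; norm_num
  · unfold es; rw [hn 2 (by omega), hy 3 h, hn 4 (by omega)]; norm_num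
  · unfold es; rw [hn 2 (by omega), hn 3 (by omega), hy 4 h]; norm_num

/-- MAIN: `X` closed downwards in the frontier -/
theorem chi_es [Finite V] (hG : IsSph3 G) (hX : X ⊆ Fr G M)
    (hd : ∀ q ∈ X, ∀ r ∈ Fr G M, r ≤ q → r ∈ X) : chi (sd G) X = es X := by
  induction hn : X.ncard using Nat.strong_induction_on generalizing X with
  | _ n ih =>
    by_cases hne : X.Nonempty
    · obtain ⟨q, hq, hmax⟩ := Set.exists_max_image X (fun q : Cq G => q.1.card)
        (Set.toFinite X) hne
      have hqX : q ∉ X \ {q} := fun h => h.2 rfl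
      have hins : insert q (X \ {q}) = X := by
        rw [Set.insert_sdiff_singleton, Set.insert_eq_of_mem hq]
      have hX' : X \ {q} ⊆ Fr G M := fun r hr => hX hr.1
      have hd' : ∀ p ∈ X \ {q}, ∀ r ∈ Fr G M, r ≤ p → r ∈ X \ {q} := by
        intro p hp r hr hrp
        refine ⟨hd p hp.1 r hr hrp, ?_⟩
        intro h
        rw [Set.mem_singleton_iff] at h
        subst h
        have hlt : r < p := lt_of_le_of_ne hrp (fun h => hp.2 h.symm)
        have := Finset.card_lt_card (Cq.lt_iff.1 hlt)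
        have := hmax p hp.1
        omega
      have hlt : (X \ {q}).ncard < n := by
        rw [← hn]
        exact Set.ncard_lt_ncard ⟨Set.sdiff_subset, fun h => hqX (h hq)⟩ (Set.toFinite _)
      have h1 := ih _ hlt hX' hd' rfl
      have h2 := chi_insert (G := sd G) hqX (fun c hc => sd_k5 hG c hc)
      have h3 : Lk (sd G) {q} ∩ (X \ {q}) = {t | t < q} ∩ Fr G M := by
        ext r
        constructor
        · rintro ⟨ha, hb⟩
          refine ⟨?_, hX hb.1⟩
          rcases ha q rfl with h | h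
          · exfalso
            have := Finset.card_lt_card (Cq.lt_iff.1 h)
            have := hmax r hb.1
            omega
          · exact h
        · rintro ⟨ha, hb⟩
          refine ⟨fun u hu => ?_, hd q hq r hb (le_of_lt ha), ?_⟩
          · rw [Set.mem_singleton_iff] at hu; subst hu; exact Or.inr ha
          · intro h
            rw [Set.mem_singleton_iff] at h; subst h
            exact absurd ha (lt_irrefl r)
      rw [hins, h3] at h2
      have h4 : es X = es (X \ {q}) + es {q} := by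
        rw [← es_union (Set.disjoint_singleton_right.2 hqX), Set.union_singleton, hins]
      rw [h2, h4, h1]
      rcases below_chi hG (hX hq) with ⟨c, h5⟩ | ⟨c, h5⟩ | ⟨c, h5⟩
      · rw [h5, es_singleton.1 c]; ring
      · rw [h5, es_singleton.2.1 c]; ring
      · rw [h5, es_singleton.2.2 c]; ring
    · rw [Set.not_nonempty_iff_eq_empty] at hne
      rw [hne, chi_empty, es_empty]

end MOT.Pa
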