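import Pool.Agent.MOT.Ptd
import Pool.Agent.MOT.PaBig
import Pool.Agent.MOT.PaDsk
import Pool.Agent.MOT.Srf
import Pool.Agent.MOT.Dua

/-!
# MOT/PtC: the curves of a pre-pattern are cycles (blocks P, I)
-/

open Classical

noncomputable section

namespace MOT.Pa

variable {V C : Type} {G : SimpleGraph V} {κ : V → C} {S : Sys C} {a b : C}

/-- the frontier of a region is a sphere -/
theorem sph_cs [Finite V] (hG : IsSph3 G) (hP : Pre0 G κ S) (a : C) :
    Surf (sd G) (Fr G (cs κ a)) ∧ Conn (sd G) (Fr G (cs κ a)) ∧ HZ (sd G) (Fr G (cs κ a)) := by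
  refine ⟨surf_Fr hG, Fr_Conn hG (hP.conn a) (hP.cconn a), b1_eq_zero.1 ?_⟩
  rw [b1_Fr hG]
  unfold bb
  rw [b1_eq_zero.2 (hP.hz a), b1_eq_zero.2 (hP.chz a)]

theorem mem_Cu {q : Cq G} : q ∈ Cu G κ S a b ↔ a ∈ cols κ q ∧ b ∈ cols κ q ∧
    ∃ c ∈ cols κ q, S.side c ≠ S.side a := Iff.rfl

theorem Cu_up {q r : Cq G} (h : q ∈ Cu G κ S a b) (hqr : q ≤ r) : r ∈ Cu G κ S a b := by
  obtain ⟨h1, h2, c, h3, h4⟩ := h
  exact ⟨cols_mono hqr h1, cols_mono hqr h2, c, cols_mono hqr h3, h4⟩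

/-- three representatives -/
theorem cu_rep (hab : S.E a b) {q : Cq G} (h : q ∈ Cu G κ S a b) : ∃ x ∈ q.1, ∃ y ∈ q.1, ∃ z ∈ q.1,
    κ x = a ∧ κ y = b ∧ S.side (κ z) ≠ S.side a ∧ x ≠ y ∧ x ≠ z ∧ y ≠ z := by
  obtain ⟨⟨x, hx, e1⟩, ⟨y, hy, e2⟩, c, ⟨z, hz, e3⟩, h4⟩ := h
  have hs := S.E_side hab
  have hne := S.E_ne hab
  refine ⟨x, hx, y, hy, z, hz, e1, e2, by rw [e3]; exact h4, ?_, ?_, ?_⟩
  · rintro rfl; exact hne (e1.symm.trans e2)
  · rintro rfl; exact h4 (by rw [← e3, e1])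
  · rintro rfl; exact h4 (by rw [← e3, e2, hs])

theorem cu_three (hab : S.E a b) {q : Cq G} (h : q ∈ Cu G κ S a b) : 3 ≤ q.1.card := by
  obtain ⟨x, hx, y, hy, z, hz, _, _, _, h1, h2, h3⟩ := cu_rep hab h
  have hsub : ({x, y, z} : Finset V) ⊆ q.1 := by
    intro u hu
    simp only [Finset.mem_insert, Finset.mem_singleton] at hu
    rcases hu with rfl | rfl | rfl <;> assumption
  have := Finset.card_le_card hsub
  rwa [Finset.card_eq_three.2 ⟨x, y, z, h1, h2, h3, rfl⟩] at this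

theorem cu_card (hG : IsSph3 G) (_hP : Pre0 G κ S) (hab : S.E a b) {q : Cq G}
    (h : q ∈ Cu G κ S a b) : q.1.card = 3 ∨ q.1.card = 4 := by
  have h1 := cu_three hab h
  have h2 := hG.k5 q.1 q.2.2
  omega

/-- class of a vertex of an element of the curve -/
def clC (κ : V → C) (a b : C) (x : V) : ℕ := if κ x = a then 0 else if κ x = b then 1 else 2

theorem cu_side (hP : Pre0 G κ S) (hab : S.E a b) {q : Cq G} (h : q ∈ Cu G κ S a b) {x : V}
    (hx : x ∈ q.1) (ha : κ x ≠ a) (hb : κ x ≠ b) : S.side (κ x) ≠ S.side a := by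
  intro hs
  rcases hP.two q a h.1 b h.2.1 (κ x) ⟨x, hx, rfl⟩ (S.E_side hab) (by rw [hs, S.E_side hab])
    with e | e | e
  · exact S.E_ne hab e
  · exact hb e.symm
  · exact ha e.symm

/-- membership of a face in the curve in terms of classes -/
theorem cu_face (hP : Pre0 G κ S) (hab : S.E a b) {q r : Cq G} (h : q ∈ Cu G κ S a b)
    (hrq : r ≤ q) : r ∈ Cu G κ S a b ↔ ∀ i < 3, ∃ x ∈ r.1, clC κ a b x = i := by
  have hne := S.E_ne hab
  have hs := S.E_side hab
  constructor
  · rintro hr i hi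
    obtain ⟨x, hx, y, hy, z, hz, h1, h2, h3, _⟩ := cu_rep hab hr
    have hza : κ z ≠ a := fun e => h3 (by rw [e])
    have hzb : κ z ≠ b := fun e => h3 (by rw [e, hs])
    have : i = 0 ∨ i = 1 ∨ i = 2 := by omega
    rcases this with rfl | rfl | rfl
    · exact ⟨x, hx, by unfold clC; rw [if_pos h1]⟩
    · exact ⟨y, hy, by unfold clC; rw [if_neg (by rw [h2]; exact hne.symm), if_pos h2]⟩
    · exact ⟨z, hz, by unfold clC; rw [if_neg hza, if_neg hzb]⟩
  · intro h0
    obtain ⟨x, hx, h1⟩ := h0 0 (by decide)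
    obtain ⟨y, hy, h2⟩ := h0 1 (by decide)
    obtain ⟨z, hz, h3⟩ := h0 2 (by decide)
    have k1 : κ x = a := by
      unfold clC at h1
      by_contra hc
      rw [if_neg hc] at h1
      split_ifs at h1
    have k2 : κ y = b := by
      unfold clC at h2
      by_contra hc
      rw [if_neg hc] at h2
      split_ifs at h2
      exact absurd h2 (by decide)
    have k3 : κ z ≠ a ∧ κ z ≠ b := by
      unfold clC at h3
      constructor
      · intro e; rw [if_pos e] at h3; exact absurd h3 (by decide)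
      · intro e
        rw [if_pos e] at h3
        split_ifs at h3
        exact absurd h3 (by decide)
    exact ⟨⟨x, hx, k1⟩, ⟨y, hy, k2⟩, κ z, ⟨z, hz, rfl⟩,
      cu_side hP hab h (hrq hz) k3.1 k3.2⟩

/-- in a set with four elements and all three classes, exactly two elements can be erased -/
theorem four_two {q : Finset V} (hq : q.card = 4) (f : V → ℕ) (hf : ∀ x, f x < 3)
    (h : ∀ i < 3, ∃ x ∈ q, f x = i) :
    {w | w ∈ q ∧ ∀ i < 3, ∃ x ∈ q.erase w, f x = i}.ncard = 2 := by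
  obtain ⟨x, hx, h1⟩ := h 0 (by decide)
  obtain ⟨y, hy, h2⟩ := h 1 (by decide)
  obtain ⟨z, hz, h3⟩ := h 2 (by decide)
  have n1 : x ≠ y := by rintro rfl; omega
  have n2 : x ≠ z := by rintro rfl; omega
  have n3 : y ≠ z := by rintro rfl; omega
  have hsub : ({x, y, z} : Finset V) ⊆ q := by
    intro u hu
    simp only [Finset.mem_insert, Finset.mem_singleton] at hu
    rcases hu with rfl | rfl | rfl <;> assumption
  have hc3 : ({x, y, z} : Finset V).card = 3 := Finset.card_eq_three.2 ⟨x, y, z, n1, n2, n3, rfl⟩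
  obtain ⟨u, hu⟩ : ∃ u, q \ {x, y, z} = {u} := by
    rw [← Finset.card_eq_one, Finset.card_sdiff_of_subset hsub, hc3, hq]
  have hu' : u ∈ q ∧ u ∉ ({x, y, z} : Finset V) := by
    rw [← Finset.mem_sdiff, hu]; simp
  have hall : ∀ w ∈ q, w = x ∨ w = y ∨ w = z ∨ w = u := by
    intro w hw
    by_cases e : w ∈ ({x, y, z} : Finset V)
    · simp only [Finset.mem_insert, Finset.mem_singleton] at e
      tauto
    · have : w ∈ q \ {x, y, z} := Finset.mem_sdiff.2 ⟨hw, e⟩
      rw [hu] at this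
      simp only [Finset.mem_singleton] at this
      tauto
  obtain ⟨huq, hux⟩ := hu'
  simp only [Finset.mem_insert, Finset.mem_singleton, not_or] at hux
  obtain ⟨u1, u2, u3⟩ := hux
  -- `m` is the partner of `u`
  have main : ∀ m n p : V, m ∈ q → n ∈ q → p ∈ q → f m = f u → f n ≠ f u → f p ≠ f u →
      f n ≠ f p → m ≠ u → (∀ w ∈ q, w = m ∨ w = n ∨ w = p ∨ w = u) →
      {w | w ∈ q ∧ ∀ i < 3, ∃ x ∈ q.erase w, f x = i}.ncard = 2 := by
    intro m n p hm hn hp e1 e2 e3 e4 e5 hq4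
    have hfu := hf u
    have hfn := hf n
    have hfp := hf p
    have nn : n ≠ u := by rintro rfl; exact e2 rfl
    have np : p ≠ u := by rintro rfl; exact e3 rfl
    have nm : n ≠ m := by rintro rfl; exact e2 e1
    have pm : p ≠ m := by rintro rfl; exact e3 e1
    have hset : {w | w ∈ q ∧ ∀ i < 3, ∃ x ∈ q.erase w, f x = i} = {u, m} := by
      ext w
      simp only [Set.mem_setOf_eq, Set.mem_insert_iff, Set.mem_singleton_iff]
      constructor
      · rintro ⟨hw, hi⟩
        rcases hq4 w hw with e | e | e | e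
        · exact Or.inr e
        · exfalso
          obtain ⟨x', hx', hfx⟩ := hi (f n) hfn
          rw [Finset.mem_erase, e] at hx'
          rcases hq4 x' hx'.2 with k | k | k | k
          · rw [k, e1] at hfx; exact e2 hfx.symm
          · exact hx'.1 k
          · rw [k] at hfx; exact e4 hfx.symm
          · rw [k] at hfx; exact e2 hfx.symm
        · exfalso
          obtain ⟨x', hx', hfx⟩ := hi (f p) hfp
          rw [Finset.mem_erase, e] at hx'
          rcases hq4 x' hx'.2 with k | k | k | k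
          · rw [k, e1] at hfx; exact e3 hfx.symm
          · rw [k] at hfx; exact e4 hfx
          · exact hx'.1 k
          · rw [k] at hfx; exact e3 hfx.symm
        · exact Or.inl e
      · have hi : ∀ i < 3, i = f u ∨ i = f n ∨ i = f p := by
          intro i hi; omega
        rintro (rfl | rfl)
        · refine ⟨huq, fun i hi' => ?_⟩
          rcases hi i hi' with e | e | e
          · exact ⟨m, Finset.mem_erase.2 ⟨e5, hm⟩, by rw [e, e1]⟩
          · exact ⟨n, Finset.mem_erase.2 ⟨nn, hn⟩, e.symm⟩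
          · exact ⟨p, Finset.mem_erase.2 ⟨np, hp⟩, e.symm⟩
        · refine ⟨hm, fun i hi' => ?_⟩
          rcases hi i hi' with e | e | e
          · exact ⟨u, Finset.mem_erase.2 ⟨e5.symm, huq⟩, e.symm⟩
          · exact ⟨n, Finset.mem_erase.2 ⟨nm, hn⟩, e.symm⟩
          · exact ⟨p, Finset.mem_erase.2 ⟨pm, hp⟩, e.symm⟩
    rw [hset, Set.ncard_pair e5.symm]
  have hfu := hf u
  have : f u = 0 ∨ f u = 1 ∨ f u = 2 := by omega
  rcases this with e | e | e
  · exact main x y z hx hy hz (by omega) (by omega) (by omega) (by omega) (Ne.symm u1)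
      (fun w hw => by have := hall w hw; tauto)
  · exact main y x z hy hx hz (by omega) (by omega) (by omega) (by omega) (Ne.symm u2)
      (fun w hw => by have := hall w hw; tauto)
  · exact main z x y hz hx hy (by omega) (by omega) (by omega) (by omega) (Ne.symm u3)
      (fun w hw => by have := hall w hw; tauto)

/-- the face of `q` without `w` -/
def er (q : Cq G) (w : V) : Cq G :=
  if h : (q.1.erase w).Nonempty then
    ⟨q.1.erase w, h, fun x hx y hy hxy =>
      q.2.2 (Finset.mem_coe.2 (Finset.mem_of_mem_erase (Finset.mem_coe.1 hx)))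
        (Finset.mem_coe.2 (Finset.mem_of_mem_erase (Finset.mem_coe.1 hy))) hxy⟩
  else q

theorem er_val {q : Cq G} {w : V} (h : 2 ≤ q.1.card) : (er q w).1 = q.1.erase w := by
  unfold er
  rw [dif_pos]
  rw [← Finset.card_pos]
  have := Finset.pred_card_le_card_erase (s := q.1) (a := w)
  omega

theorem cu_deg [Finite V] (hG : IsSph3 G) (hP : Pre0 G κ S) (hab : S.E a b) {q : Cq G}
    (h : q ∈ Cu G κ S a b) : {r | EIn (sd G) (Cu G κ S a b) q r}.ncard = 2 := by
  rcases cu_card hG hP hab h with hc | hc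
  · have e : {r | EIn (sd G) (Cu G κ S a b) q r} = {t | q < t} := by
      ext r
      constructor
      · rintro ⟨h1 | h1, _, hr⟩
        · exact h1
        · have h2 := cu_three hab hr
          have h3 := Finset.card_lt_card (Cq.lt_iff.1 h1)
          omega
      · intro hr
        have hr' : q < r := hr
        exact ⟨Or.inl hr', h, Cu_up h hr'.le⟩
    rw [e]
    exact (above_two hG q hc).1
  · have h4 := four_two hc (clC κ a b) (fun x => by unfold clC; split_ifs <;> omega)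
      ((cu_face hP hab h le_rfl).1 h)
    have hinj : Set.InjOn (er q) {w | w ∈ q.1 ∧ ∀ i < 3, ∃ x ∈ q.1.erase w, clC κ a b x = i} := by
      intro w hw w' hw' e
      have e1 : (er q w).1 = (er q w').1 := by rw [e]
      rw [er_val (by omega), er_val (by omega)] at e1
      by_contra hne
      have h5 : w' ∈ q.1.erase w := Finset.mem_erase.2 ⟨Ne.symm hne, hw'.1⟩
      rw [e1] at h5
      exact absurd h5 (Finset.notMem_erase w' _)
    rw [← h4, ← hinj.ncard_image]
    congr 1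
    ext r
    constructor
    · rintro ⟨h1 | h1, _, hr⟩
      · have h3 := Finset.card_lt_card (Cq.lt_iff.1 h1)
        have h5 := hG.k5 r.1 r.2.2
        omega
      · have h2 := cu_three hab hr
        have h3 := Cq.lt_iff.1 h1
        have h3' := Finset.card_lt_card h3
        obtain ⟨w, hw, hwr⟩ := Finset.exists_of_ssubset h3
        have e1 : r.1 = q.1.erase w := by
          refine Finset.eq_of_subset_of_card_le (fun u hu => Finset.mem_erase.2
            ⟨fun e => hwr (e ▸ hu), h3.1 hu⟩) ?_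
          rw [Finset.card_erase_of_mem hw]
          omega
        refine ⟨w, ⟨hw, ?_⟩, ?_⟩
        · rw [← e1]; exact (cu_face hP hab h h1.le).1 hr
        · apply Subtype.ext
          rw [er_val (by omega), e1]
    · rintro ⟨w, ⟨hw, hi⟩, rfl⟩
      have e1 : (er q w).1 = q.1.erase w := er_val (by omega)
      have h1 : er q w < q := by
        rw [Cq.lt_iff, e1]
        exact Finset.erase_ssubset hw
      exact ⟨Or.inr h1, h, (cu_face hP hab h h1.le).2 (by rw [e1]; exact hi)⟩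

/-- the disc `{q ∋ a, b}` lies in the sphere around `a` -/
theorem XX_sub_Fr (hab : S.E a b) : XX G κ {a, b} ⊆ Fr G (cs κ a) := by
  intro q hq
  obtain ⟨x, hx, e1⟩ := hq a (by simp)
  obtain ⟨y, hy, e2⟩ := hq b (by simp)
  exact ⟨⟨x, hx, e1⟩, y, hy, fun e => S.E_ne hab ((show κ y = a from e).symm.trans e2)⟩

/-- a chain in the sphere which is mixed for the disc has its top in the curve -/
theorem tp_cu (hP : Pre0 G κ S) (hab : S.E a b) {Q : Cq (sd G)}
    (hQ : Q ∈ FrIn (sd G) (Fr G (cs κ a)) (XX G κ {a, b})) : tp Q ∈ Cu G κ S a b := by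
  obtain ⟨⟨h1, q, hq, hqX⟩, p, hp, hpX⟩ := hQ
  have ha : a ∈ cols κ (tp Q) := cols_mono (le_tp hq) (hqX a (by simp))
  have hb : b ∈ cols κ (tp Q) := cols_mono (le_tp hq) (hqX b (by simp))
  obtain ⟨⟨x, hx, hxa⟩, y, hy, hya⟩ := h1 p hp
  have hxa' : κ x = a := hxa
  have hya' : κ y ≠ a := hya
  have hyb : κ y ≠ b := by
    intro e
    apply hpX
    intro c hc
    rcases hc with rfl | hc
    · exact ⟨x, hx, hxa'⟩
    · rw [Set.mem_singleton_iff.1 hc]; exact ⟨y, hy, e⟩
  have hyc : κ y ∈ cols κ (tp Q) := cols_mono (le_tp hp) ⟨y, hy, rfl⟩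
  refine ⟨ha, hb, κ y, hyc, fun hs => ?_⟩
  rcases hP.two (tp Q) a ha b hb (κ y) hyc (S.E_side hab) (by rw [hs, S.E_side hab]) with e | e | e
  · exact S.E_ne hab e
  · exact hyb e.symm
  · exact hya' e.symm

/-- every element of the curve is the top of such a chain -/
theorem cu_tp (hab : S.E a b) {q : Cq G} (h : q ∈ Cu G κ S a b) :
    ∃ Q ∈ FrIn (sd G) (Fr G (cs κ a)) (XX G κ {a, b}), tp Q = q := by
  obtain ⟨x, hx, y, hy, z, hz, h1, h2, h3, n1, n2, n3⟩ := cu_rep hab h
  have hza : κ z ≠ a := fun e => h3 (by rw [e])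
  have hzb : κ z ≠ b := fun e => h3 (by rw [e, S.E_side hab])
  have hadj : G.Adj x z := q.2.2 (Finset.mem_coe.2 hx) (Finset.mem_coe.2 hz) n2
  have hlt : eg G hadj < q := by
    rw [Cq.lt_iff, Finset.ssubset_iff_of_subset]
    · refine ⟨y, hy, ?_⟩
      show y ∉ ({x, z} : Finset V)
      simp only [Finset.mem_insert, Finset.mem_singleton, not_or]
      exact ⟨Ne.symm n1, n3⟩
    · intro u hu
      have hu' : u ∈ ({x, z} : Finset V) := hu
      simp only [Finset.mem_insert, Finset.mem_singleton] at hu'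
      rcases hu' with rfl | rfl <;> assumption
  have hA : (sd G).Adj (eg G hadj) q := Or.inl hlt
  have hqX : q ∈ XX G κ {a, b} := by
    intro c hc
    rcases hc with rfl | hc
    · exact h.1
    · rw [Set.mem_singleton_iff.1 hc]; exact h.2.1
  have hpX : eg G hadj ∉ XX G κ {a, b} := by
    intro hp
    obtain ⟨u, hu, e⟩ := hp b (by simp)
    have hu' : u ∈ ({x, z} : Finset V) := hu
    simp only [Finset.mem_insert, Finset.mem_singleton] at hu'
    rcases hu' with rfl | rfl
    · exact S.E_ne hab (h1.symm.trans e)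
    · exact hzb e
  have hpS : eg G hadj ∈ Fr G (cs κ a) := by
    refine ⟨⟨x, ?_, h1⟩, z, ?_, hza⟩
    · show x ∈ ({x, z} : Finset V)
      simp
    · show z ∈ ({x, z} : Finset V)
      simp
  refine ⟨eg (sd G) hA, ⟨⟨?_, q, ?_, hqX⟩, eg G hadj, ?_, hpX⟩, ?_⟩
  · intro r hr
    have hr' : r ∈ ({eg G hadj, q} : Finset (Cq G)) := hr
    simp only [Finset.mem_insert, Finset.mem_singleton] at hr'
    rcases hr' with rfl | rfl
    · exact hpS
    · exact XX_sub_Fr hab hqX
  · show q ∈ ({eg G hadj, q} : Finset (Cq G))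
    simp
  · show eg G hadj ∈ ({eg G hadj, q} : Finset (Cq G))
    simp
  · have h5 : q ≤ tp (eg (sd G) hA) := le_tp (by
      show q ∈ ({eg G hadj, q} : Finset (Cq G))
      simp)
    have h6 : tp (eg (sd G) hA) ∈ ({eg G hadj, q} : Finset (Cq G)) := tp_mem (eg (sd G) hA)
    simp only [Finset.mem_insert, Finset.mem_singleton] at h6
    rcases h6 with e | e
    · rw [e] at h5
      exact absurd hlt (not_lt_of_ge h5)
    · exact e

theorem cu_conn [Finite V] (hG : IsSph3 G) (hP : Pre0 G κ S) (hab : S.E a b)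
    (hne : (Cu G κ S a b).Nonempty) : Conn (sd G) (Cu G κ S a b) := by
  obtain ⟨h1, h2, _⟩ := sph_cs hG hP a
  have hne' : XX G κ {a, b} ≠ Fr G (cs κ a) := by
    intro e
    obtain ⟨q, hq⟩ := hne
    obtain ⟨Q, ⟨⟨h3, _⟩, p, hp, hpX⟩, _⟩ := cu_tp hab hq
    apply hpX
    rw [e]
    exact h3 p hp
  have h3 := dsk_bd h1 h2 (XX_sub_Fr hab) (hP.dconn a b hab) (hP.dhz a b hab) hne'
  rw [Conn_iff] at h3 ⊢
  refine ⟨hne, fun f hf x hx y hy => ?_⟩
  obtain ⟨Q, hQ, e1⟩ := cu_tp hab hx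
  obtain ⟨Q', hQ', e2⟩ := cu_tp hab hy
  have key : ∀ P P', P ∈ FrIn (sd G) (Fr G (cs κ a)) (XX G κ {a, b}) →
      P' ∈ FrIn (sd G) (Fr G (cs κ a)) (XX G κ {a, b}) → P ≤ P' → f (tp P) = f (tp P') := by
    intro P P' hP1 hP2 hle
    have h5 := tp_mono hle
    by_cases e : tp P = tp P'
    · rw [e]
    · exact hf _ _ ⟨Or.inl (lt_of_le_of_ne h5 e), tp_cu hP hab hP1, tp_cu hP hab hP2⟩
  have h4 := h3.2 (fun P => f (tp P)) (fun P P' hPP => by
    rcases hPP.1 with h | h
    · exact key P P' hPP.2.1 hPP.2.2 h.le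
    · exact (key P' P hPP.2.2 hPP.2.1 h.le).symm) Q hQ Q' hQ'
  rw [← e1, ← e2]
  exact h4

/-- CURVES ARE CYCLES -/
theorem cu_cyc [Finite V] (hG : IsSph3 G) (hP : Pre0 G κ S) (hab : S.E a b)
    (hne : (Cu G κ S a b).Nonempty) : IsCyc (sd G) (Cu G κ S a b) :=
  ⟨cu_conn hG hP hab hne, fun _ hq => cu_deg hG hP hab hq⟩

/-- the curve is not empty if `a` has another neighbour of the same side -/
theorem cu_ne [Finite V] (hG : IsSph3 G) (hP : Pre0 G κ S) (hab : S.E a b) {b' : C}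
    (hab' : S.E a b') (hbb : b' ≠ b) : (Cu G κ S a b).Nonempty := by
  by_contra hne
  obtain ⟨_, h2, _⟩ := sph_cs hG hP a
  -- a locally constant function: the indicator of the disc
  rw [Conn_iff] at h2
  obtain ⟨q, hq⟩ := (hP.dconn a b hab).1
  obtain ⟨p, hp⟩ := (hP.dconn a b' hab').1
  obtain ⟨x, hx, hxa⟩ := hp a (by simp)
  obtain ⟨y, hy, hyb⟩ := hp b' (by simp)
  have hxy : G.Adj x y := p.2.2 (Finset.mem_coe.2 hx) (Finset.mem_coe.2 hy) (by
    rintro rfl; exact S.E_ne hab' (hxa.symm.trans hyb))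
  have hmem : ∀ u, u ∈ (eg G hxy).1 ↔ u = x ∨ u = y := by
    intro u
    show u ∈ ({x, y} : Finset V) ↔ _
    simp
  have hrS : eg G hxy ∈ Fr G (cs κ a) :=
    ⟨⟨x, (hmem x).2 (Or.inl rfl), hxa⟩, y, (hmem y).2 (Or.inr rfl), fun e =>
      S.E_ne hab' ((show κ y = a from e).symm.trans hyb)⟩
  have hrX : eg G hxy ∉ XX G κ {a, b} := by
    intro h
    obtain ⟨u, hu, e⟩ := h b (by simp)
    rcases (hmem u).1 hu with rfl | rfl
    · exact S.E_ne hab (hxa.symm.trans e)
    · exact hbb (hyb.symm.trans e)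
  have key : ∀ r s, r ∈ Fr G (cs κ a) → s ∈ Fr G (cs κ a) → r ≤ s → s ∈ XX G κ {a, b} →
      r ∈ XX G κ {a, b} := by
    intro r s hr _ hrs hs
    by_contra hrX
    obtain ⟨⟨x', hx', hxa'⟩, y', hy', hya'⟩ := hr
    apply hne
    refine ⟨s, hs a (by simp), hs b (by simp), κ y', ⟨y', hrs hy', rfl⟩, fun hside => ?_⟩
    have hya2 : κ y' ≠ a := hya'
    rcases hP.two s a (hs a (by simp)) b (hs b (by simp)) (κ y') ⟨y', hrs hy', rfl⟩
      (S.E_side hab) (by rw [hside, S.E_side hab]) with e | e | e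
    · exact S.E_ne hab e
    · apply hrX
      intro c hc
      rcases hc with rfl | hc
      · exact ⟨x', hx', hxa'⟩
      · rw [Set.mem_singleton_iff.1 hc]; exact ⟨y', hy', e.symm⟩
    · exact hya2 e.symm
  have hup : ∀ r s : Cq G, r ≤ s → r ∈ XX G κ {a, b} → s ∈ XX G κ {a, b} := fun r s h hr => XX_up h hr
  have h3 := h2.2 (fun r => if r ∈ XX G κ {a, b} then 1 else 0) (fun r s hrs => by
    have : r ∈ XX G κ {a, b} ↔ s ∈ XX G κ {a, b} := by
      rcases hrs.1 with h | h
      · exact ⟨hup r s h.le, key r s hrs.2.1 hrs.2.2 h.le⟩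
      · exact ⟨key s r hrs.2.2 hrs.2.1 h.le, hup s r h.le⟩
    beta_reduce
    exact if_congr this rfl rfl) q (XX_sub_Fr hab hq) (eg G hxy) hrS
  beta_reduce at h3
  rw [if_pos hq, if_neg hrX] at h3
  exact absurd h3 (by decide)

end MOT.Pa
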