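import Pool.Agent.MOT.PaPt
import Pool.Agent.MOT.PtC
import Pool.Agent.MOT.PaEul

/-!
# MOT/PaCur: the pieces are connected, their Euler characteristic (block I)
-/

open Classical

noncomputable section

namespace MOT.Pa

variable {V C W : Type} {G : SimpleGraph V} {κ : V → C} {S : Sys C} {ρ : C → ℕ}
  {a b c d v w t t' : C} {R I J : Set (Cq G)} {p q r : Cq G}

/-- every colour is in an incident four-tuple and in a point -/
theorem inc4_ex (hS : S.Good) (a : C) : ∃ b c d, S.Inc4 a b c d := by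
  obtain ⟨c, hc⟩ := hS.exI a
  have h3 := hS.three a c hc
  have hne : {b | S.E a b ∧ S.I b c}.Nonempty := by
    rw [Set.nonempty_iff_ne_empty]
    intro h
    rw [h, Set.ncard_empty] at h3
    exact absurd h3 (by norm_num)
  obtain ⟨b, hb, -⟩ := hne
  obtain ⟨c', d, h⟩ := hS.ex a b hb
  exact ⟨b, c', d, h⟩

/-- the frontier of a region consists of the piece `So a` and the discs `XX {a, b}` -/
theorem fr_cs (hP : Pre G κ S) (a : C) :
    Fr G (cs κ a) = So G κ S a ∪ ⋃ b ∈ {b | S.E a b}, XX G κ {a, b} := by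
  ext q
  constructor
  · rintro ⟨⟨x, hx, hxa⟩, y, hy, hya⟩
    have ha : a ∈ cols κ q := ⟨x, hx, hxa⟩
    by_cases h : ∃ b ∈ cols κ q, S.side b = S.side a ∧ b ≠ a
    · obtain ⟨b, hb, hs, hne⟩ := h
      right
      rw [Set.mem_iUnion₂]
      refine ⟨b, hP.adj q a ha b hb hs.symm hne.symm, ?_⟩
      rw [XX_iff]
      intro c hc
      rcases hc with hc | hc
      · rw [hc]
        exact ha
      · rw [Set.mem_singleton_iff.1 hc]
        exact hb
    · push Not at h
      left
      exact ⟨ha, h, κ y, ⟨y, hy, rfl⟩, fun hs => hya (h (κ y) ⟨y, hy, rfl⟩ hs)⟩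
  · rintro (h | h)
    · obtain ⟨⟨x, hx, hxa⟩, -, c, ⟨y, hy, hyc⟩, hs⟩ := h
      exact ⟨⟨x, hx, hxa⟩, y, hy, fun e => hs (by rw [← hyc, show κ y = a from e])⟩
    · rw [Set.mem_iUnion₂] at h
      obtain ⟨b, hb, hq⟩ := h
      exact XX_sub_Fr hb hq

/-- the piece is not empty: `tc κ {a, c} p` for a point `p` -/
theorem so_ne (hS : S.Good) (hP : Pre G κ S) (a : C) : (So G κ S a).Nonempty := by
  obtain ⟨b, c, d, h⟩ := inc4_ex hS a
  obtain ⟨p, hp⟩ := p4_ex hP h
  have hs : S.side c ≠ S.side a := (S.I_side h.2.2.1).symm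
  have hsub : ({a, c} : Set C) ⊆ cols κ p := by
    rw [hp]
    intro x hx
    rcases hx with hx | hx
    · exact Or.inl hx
    · exact Or.inr (Or.inr (Or.inl (Set.mem_singleton_iff.1 hx)))
  have h1 := tc_cols_sub ⟨a, by simp⟩ hsub
  refine ⟨tc κ {a, c} p, ?_, ?_, c, ?_, hs⟩
  · rw [h1]
    exact Or.inl rfl
  · intro e he hse
    rw [h1] at he
    rcases he with he | he
    · exact he
    · rw [Set.mem_singleton_iff.1 he] at hse
      exact absurd hse hs
  · rw [h1]
    exact Or.inr rfl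

/-- discs of `a` are disjoint, not adjacent -/
theorem dsk_nadj (hP : Pre G κ S) (hab : S.E a b) (had : S.E a d) (hbd : b ≠ d) :
    Disjoint (XX G κ {a, b}) (XX G κ {a, d}) ∧ NAdj (sd G) (XX G κ {a, b}) (XX G κ {a, d}) := by
  have key : ∀ m : Cq G, m ∈ XX G κ {a, b} → m ∈ XX G κ {a, d} → False := by
    intro m h1 h2
    rw [XX_iff] at h1 h2
    rcases hP.two m a (h1 (Or.inl rfl)) b (h1 (Or.inr rfl)) d (h2 (Or.inr rfl)) (S.E_side hab)
      ((S.E_side hab).symm.trans (S.E_side had)) with e | e | e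
    · exact S.E_ne hab e
    · exact hbd e
    · exact S.E_ne had e
  refine ⟨Set.disjoint_left.2 fun m h1 h2 => key m h1 h2, fun x hx y hy e => ?_⟩
  rcases e with e | e
  · exact key y (XX_up e.le hx) hy
  · exact key x hx (XX_up e.le hy)

private theorem pc_so (hab : S.E a b) (hq : q ∈ So G κ S a) : q ∉ XX G κ {a, b} := by
  intro h
  exact S.E_ne hab (hq.2.1 b ((XX_iff.1 h) (Or.inr rfl)) (S.E_side hab).symm).symm

private theorem pc_tc (hP : Pre G κ S) (hab : S.E a b) (h : q ∈ Cu G κ S a b) :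
    tc κ {x | x ≠ b} q ∈ So G κ S a := by
  obtain ⟨ha, hb, c, hc, hcs⟩ := h
  have h1 : cols κ (tc κ {x | x ≠ b} q) = cols κ q ∩ {x | x ≠ b} :=
    tc_cols ⟨a, ha, S.E_ne hab⟩
  refine ⟨?_, ?_, c, ?_, hcs⟩
  · rw [h1]
    exact ⟨ha, S.E_ne hab⟩
  · intro e he hse
    rw [h1] at he
    rcases hP.two q a ha b hb e he.1 (S.E_side hab)
      ((S.E_side hab).symm.trans hse.symm) with h2 | h2 | h2
    · exact absurd h2 (S.E_ne hab)
    · exact absurd h2.symm he.2
    · exact h2.symm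
  · rw [h1]
    refine ⟨hc, fun e => hcs ?_⟩
    rw [show c = b from e]
    exact (S.E_side hab).symm

/-- EULER CHARACTERISTIC of the piece: sphere `Fr G (cs κ a)` (`sph_cs`, `surf_chi`: 2) minus the discs
(`chi = 1` by `surf_chi_part`, `b0_eq_one`, `b1_eq_zero`; `chi_sUnion`), `surf_chi_add`. -/
theorem so_chi [Finite V] [Finite C] (hG : IsSph3 G) (hS : S.Good) (hP : Pre G κ S) (a : C) :
    chi (sd G) (So G κ S a) = 2 - {b | S.E a b}.ncard := by
  obtain ⟨h1, h2, h3⟩ := sph_cs hG hP.pre0 a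
  have hchi := surf_chi h1 h2
  rw [b1_eq_zero.2 h3] at hchi
  have hfr := fr_cs hP a
  have hdis : ∀ q, q ∈ So G κ S a → q ∉ ⋃ b ∈ {b | S.E a b}, XX G κ {a, b} := by
    intro q hq h
    rw [Set.mem_iUnion₂] at h
    obtain ⟨b, hb, hqb⟩ := h
    exact pc_so hb hq hqb
  have hD : (⋃ b ∈ {b | S.E a b}, XX G κ {a, b}) ⊆ Fr G (cs κ a) := by
    rw [hfr]
    exact Set.subset_union_right
  have hso : Fr G (cs κ a) \ (⋃ b ∈ {b | S.E a b}, XX G κ {a, b}) = So G κ S a := by
    ext q
    constructor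
    · rintro ⟨hq, hq'⟩
      rw [hfr] at hq
      rcases hq with hq | hq
      · exact hq
      · exact absurd hq hq'
    · intro hq
      refine ⟨?_, hdis q hq⟩
      rw [hfr]
      exact Or.inl hq
  have hadd := surf_chi_add h1 hD
  rw [hso, hchi] at hadd
  have hF : (⋃ b ∈ {b | S.E a b}, XX G κ {a, b}) =
      ⋃ b ∈ (Set.toFinite {b | S.E a b}).toFinset, XX G κ {a, b} := by
    ext q
    simp only [Set.mem_iUnion, Set.Finite.mem_toFinset]
  have hne : ∀ b, S.E a b → XX G κ {a, b} ≠ Fr G (cs κ a) := by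
    intro b hb he
    obtain ⟨q, hq⟩ := so_ne hS hP a
    apply pc_so hb hq
    rw [he, hfr]
    exact Or.inl hq
  have hsum : chi (sd G) (⋃ b ∈ {b | S.E a b}, XX G κ {a, b}) = ({b | S.E a b}.ncard : ℤ) := by
    rw [hF, chi_sUnion _ _ ?_]
    · rw [Finset.sum_congr rfl (g := fun _ => (1 : ℤ)) fun b hb => ?_]
      · rw [Finset.sum_const, nsmul_eq_mul, mul_one, Set.ncard_eq_toFinset_card _ (Set.toFinite _)]
      · have hb' : S.E a b := (Set.Finite.mem_toFinset _).1 hb
        exact (dsk_chi h1 h2 (XX_sub_Fr hb') (hP.dconn a b hb') (hne b hb')).2.2 (hP.dhz a b hb')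
    · intro b hb d hd hbd
      exact dsk_nadj hP ((Set.Finite.mem_toFinset _).1 hb) ((Set.Finite.mem_toFinset _).1 hd) hbd
  rw [hsum] at hadd
  push_cast at hadd ⊢
  linarith

/-- the pieces are connected.  `f` locally constant on `So a`.  On `Cu a b` the function
`q ↦ f (tc κ {x | x ≠ b} q)` is locally constant, so constant (`cu_conn`); extend `f` by this constant over
the disc `XX {a, b}` (all `b` with `E a b`); the extension is locally constant on `Fr G (cs κ a)` (which is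
connected, `sph_cs`). -/
theorem so_Conn [Finite V] (hG : IsSph3 G) (hS : S.Good) (hP : Pre G κ S) (a : C) :
    Conn (sd G) (So G κ S a) := by
  obtain ⟨-, h2, -⟩ := sph_cs hG hP.pre0 a
  have hfr := fr_cs hP a
  rw [Conn_iff]
  refine ⟨so_ne hS hP a, fun f hf x hx y hy => ?_⟩
  have hle : ∀ p q, p ∈ So G κ S a → q ∈ So G κ S a → p ≤ q → f p = f q := by
    intro p q hp hq hpq
    by_cases e : p = q
    · rw [e]
    · exact hf p q ⟨Or.inl (lt_of_le_of_ne hpq e), hp, hq⟩
  -- the constants on the curves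
  have hk : ∀ b, ∃ k : ZMod 2, S.E a b → ∀ q ∈ Cu G κ S a b, f (tc κ {x | x ≠ b} q) = k := by
    intro b
    by_cases hab : S.E a b
    · obtain ⟨c, d, hi⟩ := hS.ex a b hab
      obtain ⟨p, hp⟩ := p4_ex hP hi
      have hpC : p ∈ Cu G κ S a b := by
        refine ⟨?_, ?_, c, ?_, (S.I_side hi.2.2.1).symm⟩
        · rw [hp]
          exact Or.inl rfl
        · rw [hp]
          exact Or.inr (Or.inl rfl)
        · rw [hp]
          exact Or.inr (Or.inr (Or.inl rfl))
      have hcc := cu_conn hG hP.pre0 hab ⟨p, hpC⟩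
      refine ⟨f (tc κ {x | x ≠ b} p), fun _ q hq => ?_⟩
      refine hcc.const (f := fun q => f (tc κ {x | x ≠ b} q)) (fun q r e => ?_) hq hpC
      have hqr : ∀ q r, q ∈ Cu G κ S a b → r ∈ Cu G κ S a b → q < r →
          f (tc κ {x | x ≠ b} q) = f (tc κ {x | x ≠ b} r) := by
        intro q r hq hr h
        exact hle _ _ (pc_tc hP hab hq) (pc_tc hP hab hr)
          (tc_mono ⟨a, hq.1, S.E_ne hab⟩ h.le)
      rcases e.1 with h | h
      · exact hqr q r e.2.1 e.2.2 h
      · exact (hqr r q e.2.2 e.2.1 h).symm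
    · exact ⟨0, fun h => absurd h hab⟩
  choose k hk using hk
  have hβ : ∀ q : Cq G, ∃ b, q ∈ (⋃ b ∈ {b | S.E a b}, XX G κ {a, b}) →
      S.E a b ∧ q ∈ XX G κ {a, b} := by
    intro q
    by_cases h : q ∈ ⋃ b ∈ {b | S.E a b}, XX G κ {a, b}
    · have h' := h
      rw [Set.mem_iUnion₂] at h'
      obtain ⟨b, hb, hqb⟩ := h'
      exact ⟨b, fun _ => ⟨hb, hqb⟩⟩
    · exact ⟨a, fun h' => absurd h' h⟩
  choose β hβ using hβ
  set F : Cq G → ZMod 2 := fun q => if q ∈ So G κ S a then f q else k (β q) with hF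
  have hFs : ∀ q, q ∈ So G κ S a → F q = f q := fun q hq => if_pos hq
  have hFd : ∀ b q, S.E a b → q ∈ XX G κ {a, b} → F q = k b := by
    intro b q hb hq
    have h3 : F q = k (β q) := if_neg fun h => pc_so hb h hq
    have h4 : q ∈ ⋃ b ∈ {b | S.E a b}, XX G κ {a, b} := by
      rw [Set.mem_iUnion₂]
      exact ⟨b, hb, hq⟩
    obtain ⟨h5, h6⟩ := hβ q h4
    have h7 : β q = b := by
      by_contra hne
      exact Set.disjoint_left.1 (dsk_nadj hP h5 hb hne).1 h6 hq
    rw [h3, h7]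
  have key : ∀ p q, p ∈ Fr G (cs κ a) → q ∈ Fr G (cs κ a) → p < q → F p = F q := by
    intro p q hp hq hlt
    rw [hfr] at hp hq
    rcases hq with hq | hq
    · have hp' : p ∈ So G κ S a := by
        rcases hp with hp | hp
        · exact hp
        · rw [Set.mem_iUnion₂] at hp
          obtain ⟨b, hb, hpb⟩ := hp
          exact absurd (XX_up hlt.le hpb) (pc_so hb hq)
      rw [hFs p hp', hFs q hq]
      exact hle p q hp' hq hlt.le
    · rw [Set.mem_iUnion₂] at hq
      obtain ⟨b, hb, hqb⟩ := hq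
      rw [hFd b q hb hqb]
      rcases hp with hp | hp
      · rw [hFs p hp]
        have hbq := XX_iff.1 hqb
        have hqC : q ∈ Cu G κ S a b := by
          obtain ⟨-, -, c, hc, hcs⟩ := hp
          exact ⟨hbq (Or.inl rfl), hbq (Or.inr rfl), c, cols_mono hlt.le hc, hcs⟩
        rw [← hk b hb q hqC]
        refine hle p _ hp (pc_tc hP hb hqC) (le_tc hlt.le fun e he hne => ?_)
        rw [show e = b from hne] at he
        exact S.E_ne hb (hp.2.1 b he (S.E_side hb).symm).symm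
      · rw [Set.mem_iUnion₂] at hp
        obtain ⟨d, hd, hpd⟩ := hp
        have h7 : d = b := by
          by_contra hne
          exact Set.disjoint_left.1 (dsk_nadj hP hd hb hne).1 (XX_up hlt.le hpd) hqb
        rw [hFd d p hd hpd, h7]
  have h5 := h2.const (f := F) (fun p q e => by
    rcases e.1 with h | h
    · exact key p q e.2.1 e.2.2 h
    · exact (key q p e.2.2 e.2.1 h).symm) (x := x) (y := y)
    (by rw [hfr]; exact Or.inl hx) (by rw [hfr]; exact Or.inl hy)
  rwa [hFs x hx, hFs y hy] at h5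

end MOT.Pa
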