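import Pool.Agent.MOT.PaPt
import Pool.Agent.MOT.PtC
import Pool.Agent.MOT.PaCyc

/-!
# MOT/PaEnd: an interval (arc) has exactly two ends (block I)
-/

open Classical

noncomputable section

namespace MOT.Pa

variable {V C W : Type} {G : SimpleGraph V} {κ : V → C} {S : Sys C} {ρ : C → ℕ}
  {a b c d v w t t' : C} {R I J : Set (Cq G)} {p q r : Cq G}

theorem Sys.Inc4.swap (h : S.Inc4 a b c d) : S.Inc4 c d a b :=
  ⟨h.2.1, h.1, S.I_symm h.2.2.1, S.I_symm h.2.2.2.2.1, S.I_symm h.2.2.2.1, S.I_symm h.2.2.2.2.2⟩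

theorem Sys.Inc4.left (h : S.Inc4 a b c d) : S.Inc4 b a c d :=
  ⟨S.E_symm h.1, h.2.1, h.2.2.2.2.1, h.2.2.2.2.2, h.2.2.1, h.2.2.2.1⟩

theorem Sys.Inc4.right (h : S.Inc4 a b c d) : S.Inc4 a b d c :=
  ⟨h.1, S.E_symm h.2.1, h.2.2.2.1, h.2.2.1, h.2.2.2.2.2, h.2.2.2.2.1⟩

/-- the four colours are different -/
theorem Sys.Inc4.ne (h : S.Inc4 a b c d) : a ≠ b ∧ a ≠ c ∧ a ≠ d ∧ b ≠ c ∧ b ≠ d ∧ c ≠ d := by
  obtain ⟨h1, h2, h3, h4, h5, h6⟩ := h
  exact ⟨S.E_ne h1, fun e => S.I_side h3 (by rw [e]), fun e => S.I_side h4 (by rw [e]),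
    fun e => S.I_side h5 (by rw [e]), fun e => S.I_side h6 (by rw [e]), S.E_ne h2⟩

private theorem pe_three (h : cols κ p = {a, b, c}) : p ∉ P4 G κ := by
  intro hp
  have h4 : (cols κ p).ncard = 4 := hp
  rw [h] at h4
  have h5 : ({a, b, c} : Set C) = (({a, b, c} : Finset C) : Set C) := by simp
  rw [h5, Set.ncard_coe_finset] at h4
  have := Finset.card_le_three (a := a) (b := b) (c := c)
  omega

/-- an interval is not the whole curve: the curve contains a point (`hS.ex`, `p4_ex`) -/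
theorem end_ne (hS : S.Good) (hP : Pre G κ S) (hab : S.E a b) (hs : S.side c ≠ S.side a)
    (hI : IsComp (sd G) (Ex G κ {a, b, c}) I) :
    I ⊆ Cu G κ S a b ∧ I ≠ Cu G κ S a b := by
  refine ⟨?_, ?_⟩
  · intro q hq
    have h1 : cols κ q = {a, b, c} := hI.sub hq
    refine ⟨?_, ?_, c, ?_, hs⟩ <;> rw [h1] <;> simp
  · intro e
    obtain ⟨c', d', h⟩ := hS.ex a b hab
    obtain ⟨p, hp⟩ := p4_ex hP h
    have h1 : p ∈ Cu G κ S a b := by
      refine ⟨?_, ?_, c', ?_, (S.I_side h.2.2.1).symm⟩ <;> rw [hp] <;> simp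
    rw [← e] at h1
    exact pe_three (hI.sub h1) (p4_of hP h hp)

private theorem pe_cyc [Finite V] (hG : IsSph3 G) (hS : S.Good) (hP : Pre G κ S) (hab : S.E a b)
    (hs : S.side c ≠ S.side a) (hI : IsComp (sd G) (Ex G κ {a, b, c}) I) :
    IsCyc (sd G) (Cu G κ S a b) :=
  cu_cyc hG hP.pre0 hab (hI.conn.1.mono (end_ne hS hP hab hs hI).1)

private theorem pe_cut (hG : IsSph3 G) (hP : Pre G κ S) (hab : S.E a b)
    (hs : S.side c ≠ S.side a) (hI : IsComp (sd G) (Ex G κ {a, b, c}) I)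
    (hp : p ∈ I) (hq : q ∈ Cu G κ S a b) (hqI : q ∉ I) (hA : (sd G).Adj p q) :
    q ∈ cor κ I ∧ p = tc κ {a, b, c} q := by
  have h1 : cols κ p = {a, b, c} := hI.sub hp
  have hnot : cols κ q ≠ {a, b, c} := by
    intro e
    exact hI.nadj p hp q ⟨e, hqI⟩ hA
  have hsab := S.E_side hab
  have hlt : p < q := by
    rcases hA with h | h
    · exact h
    · exfalso
      apply hnot
      obtain ⟨ha, hb, c', hc', hs'⟩ := hq
      have hsub := cols_mono (κ := κ) h.le
      rw [h1] at hsub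
      have hcc : c' = c := by
        have := hsub hc'
        simp only [Set.mem_insert_iff, Set.mem_singleton_iff] at this
        rcases this with e | e | e
        · exact absurd (by rw [e]) hs'
        · exact absurd (by rw [e, hsab]) hs'
        · exact e
      refine Set.Subset.antisymm hsub ?_
      intro x hx
      simp only [Set.mem_insert_iff, Set.mem_singleton_iff] at hx
      rcases hx with rfl | rfl | rfl
      · exact ha
      · exact hb
      · exact hcc ▸ hc'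
  have hsub := cols_mono (κ := κ) hlt.le
  rw [h1] at hsub
  have hP4 : q ∈ P4 G κ := by
    rcases cu_form hP hab hq with ⟨c', hc', e⟩ | ⟨c', d', hi, e⟩
    · exfalso
      apply hnot
      have : c ∈ cols κ q := hsub (by simp)
      rw [e] at this
      simp only [Set.mem_insert_iff, Set.mem_singleton_iff] at this
      rcases this with e1 | e1 | e1
      · exact absurd (by rw [e1]) hs
      · exact absurd (by rw [e1, hsab]) hs
      · rw [e, e1]
    · exact p4_of hP hi e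
  refine ⟨⟨hP4, p, hp, hlt⟩, le_antisymm (le_tc hlt.le h1.le) ?_⟩
  refine Cq.le_iff.2 fun z hz => ?_
  rw [mem_tc ⟨a, hsub (by simp), by simp⟩] at hz
  obtain ⟨hz1, hz2⟩ := hz
  rw [← h1] at hz2
  obtain ⟨z', hz', e⟩ := hz2
  have := p4_inj hG hP4 (hlt.le hz') hz1 e
  exact this ▸ hz'

/-- EXACTLY TWO ENDS.  `cyc_cut` for `I ⊆ Cu a b` (`cu_cyc`, use `hP.pre0`): the pairs x, y with `x ∈ I`,
`y ∈ Cu a b`, `y ∉ I`, adjacent, are: `y ∈ cor κ I` and `x` the only element of `I` below `y` (`x < y` since an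
element of the curve below `x` has the same colours; `y` has four colours, otherwise it is in `I`;
`x = tc κ {a, b, c} y` because all elements of `Ex {a, b, c}` below `y` consist of the three vertices of
`y` with these colours). -/
theorem end_two [Finite V] (hG : IsSph3 G) (hS : S.Good) (hP : Pre G κ S) (hab : S.E a b)
    (hs : S.side c ≠ S.side a) (hI : IsComp (sd G) (Ex G κ {a, b, c}) I) :
    (cor κ I).ncard = 2 := by
  have h1 := cyc_cut (pe_cyc hG hS hP hab hs hI) (end_ne hS hP hab hs hI).1 hI.conn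
    (end_ne hS hP hab hs hI).2
  have h2 : {x : Cq G × Cq G | x.1 ∈ I ∧ x.2 ∉ I ∧ EIn (sd G) (Cu G κ S a b) x.1 x.2} =
      (fun y => (tc κ {a, b, c} y, y)) '' cor κ I := by
    ext ⟨x, y⟩
    constructor
    · rintro ⟨hx, hy, hA, _, hyC⟩
      obtain ⟨h3, h4⟩ := pe_cut hG hP hab hs hI hx hyC hy hA
      have h4' : x = tc κ {a, b, c} y := h4
      exact ⟨y, h3, by rw [h4']⟩
    · rintro ⟨z, hz, e⟩
      simp only [Prod.mk.injEq] at e
      obtain ⟨e1, e2⟩ := e
      rw [← e1, ← e2]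
      obtain ⟨hz4, x', hx', hlt⟩ := hz
      have hzI : z ∉ I := fun h => pe_three (hI.sub h) hz4
      have hzC : z ∈ Cu G κ S a b := Cu_up ((end_ne hS hP hab hs hI).1 hx') hlt.le
      obtain ⟨_, h4⟩ := pe_cut hG hP hab hs hI hx' hzC hzI (Or.inl hlt)
      rw [← h4]
      exact ⟨hx', hzI, Or.inl hlt, (end_ne hS hP hab hs hI).1 hx', hzC⟩
  rw [h2, Set.ncard_image_of_injective] at h1
  · exact h1
  · intro y y' e
    exact congrArg Prod.snd e

/-- `cyc_HZ` -/
theorem end_HZ [Finite V] (hG : IsSph3 G) (hS : S.Good) (hP : Pre G κ S) (hab : S.E a b)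
    (hs : S.side c ≠ S.side a) (hI : IsComp (sd G) (Ex G κ {a, b, c}) I) : HZ (sd G) I :=
  cyc_HZ (pe_cyc hG hS hP hab hs hI) (end_ne hS hP hab hs hI).1 hI.conn
    (end_ne hS hP hab hs hI).2

/-! ## the partner of a point -/

/-- the interval (arc) at the point `p` opposite to the colour `d` -/
def st (κ : V → C) (p : Cq G) (d : C) : Set (Cq G) :=
  comp (sd G) (Ex G κ (cols κ p \ {d})) (tc κ (cols κ p \ {d}) p)

/-- the other end of the interval (arc) at `p` opposite to the colour `d` -/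
def nx (κ : V → C) (p : Cq G) (d : C) : Cq G :=
  if h : ∃ p', p' ∈ cor κ (st κ p d) ∧ p' ≠ p then h.choose else p

private theorem pe_sd (h : S.Inc4 a b c d) : ({a, b, c, d} : Set C) \ {d} = {a, b, c} := by
  obtain ⟨_, _, h3, _, h5, h6⟩ := h.ne
  ext x
  simp only [Set.mem_diff, Set.mem_insert_iff, Set.mem_singleton_iff]
  constructor
  · rintro ⟨e | e | e | e, hx⟩
    · exact Or.inl e
    · exact Or.inr (Or.inl e)
    · exact Or.inr (Or.inr e)
    · exact absurd e hx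
  · rintro (rfl | rfl | rfl)
    · exact ⟨Or.inl rfl, h3⟩
    · exact ⟨Or.inr (Or.inl rfl), h5⟩
    · exact ⟨Or.inr (Or.inr (Or.inl rfl)), h6⟩

/-- `st κ p d` is a component of `Ex {a, b, c}` for `cols κ p = {a, b, c, d}` -/
theorem st_comp (hG : IsSph3 G) (hP : Pre G κ S) (hp : cols κ p = {a, b, c, d})
    (h : S.Inc4 a b c d) :
    IsComp (sd G) (Ex G κ {a, b, c}) (st κ p d) ∧ p ∈ cor κ (st κ p d) := by
  have h1 : cols κ p \ {d} = {a, b, c} := by rw [hp, pe_sd h]
  have h2 : ({a, b, c} : Set C) ⊆ cols κ p := by rw [← h1]; exact Set.diff_subset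
  have h3 : ({a, b, c} : Set C).Nonempty := ⟨a, by simp⟩
  have h4 : tc κ {a, b, c} p ∈ Ex G κ {a, b, c} := tc_cols_sub h3 h2
  have h5 : st κ p d = comp (sd G) (Ex G κ {a, b, c}) (tc κ {a, b, c} p) := by
    unfold st
    rw [h1]
  have h6 : IsComp (sd G) (Ex G κ {a, b, c}) (st κ p d) := ⟨_, h4, h5⟩
  have h7 := p4_of hP h hp
  refine ⟨h6, (mem_cor hG h3 h6).2 ⟨h7, h2, fun e => pe_three e.symm h7, ?_⟩⟩
  rw [h5]
  exact comp_self h4

/-- if `p` is an end of the component `I` of `Ex {a, b, c}` then `I = st κ p d` -/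
theorem st_uniq (hG : IsSph3 G) (hP : Pre G κ S) (hp : cols κ p = {a, b, c, d})
    (h : S.Inc4 a b c d) (hI : IsComp (sd G) (Ex G κ {a, b, c}) I) (hpI : p ∈ cor κ I) :
    I = st κ p d := by
  obtain ⟨h1, h2⟩ := st_comp hG hP hp h
  have h3 : ({a, b, c} : Set C).Nonempty := ⟨a, by simp⟩
  exact hI.eq_of_inter h1 ⟨tc κ {a, b, c} p, ((mem_cor hG h3 hI).1 hpI).2.2.2,
    ((mem_cor hG h3 h1).1 h2).2.2.2⟩

private theorem pe_nx (h : (cor κ (st κ p d)).ncard = 2) (hp : p ∈ cor κ (st κ p d)) :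
    nx κ p d ∈ cor κ (st κ p d) ∧ nx κ p d ≠ p ∧ cor κ (st κ p d) = {p, nx κ p d} := by
  obtain ⟨x, y, hxy, e⟩ := Set.ncard_eq_two.1 h
  have hex : ∃ p', p' ∈ cor κ (st κ p d) ∧ p' ≠ p := by
    by_cases hx : x = p
    · exact ⟨y, by rw [e]; simp, fun h => hxy (hx.trans h.symm)⟩
    · exact ⟨x, by rw [e]; simp, hx⟩
  have hn : nx κ p d = hex.choose := by
    unfold nx
    rw [dif_pos hex]
  obtain ⟨h1, h2⟩ := hex.choose_spec
  rw [← hn] at h1 h2
  refine ⟨h1, h2, ?_⟩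
  have h1' := h1
  have hp' := hp
  rw [e] at h1' hp'
  simp only [Set.mem_insert_iff, Set.mem_singleton_iff] at h1' hp'
  rw [e]
  rcases hp' with e1 | e1 <;> rcases h1' with e2 | e2
  · exact absurd (e2.trans e1.symm) h2
  · rw [e2, e1]
  · rw [e2, e1, Set.pair_comm]
  · exact absurd (e2.trans e1.symm) h2

/-- the partner: another point with colours `{a, b, c, d'}`, and the partner of the partner is `p` -/
theorem nx_spec [Finite V] (hG : IsSph3 G) (hS : S.Good) (hP : Pre G κ S)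
    (hp : cols κ p = {a, b, c, d}) (h : S.Inc4 a b c d) :
    ∃ d', S.Inc4 a b c d' ∧ cols κ (nx κ p d) = {a, b, c, d'} ∧ nx κ p d ≠ p ∧
      nx κ (nx κ p d) d' = p ∧ st κ (nx κ p d) d' = st κ p d ∧
      cor κ (st κ p d) = {p, nx κ p d} := by
  obtain ⟨h1, h2⟩ := st_comp hG hP hp h
  have hs : S.side c ≠ S.side a := (S.I_side h.2.2.1).symm
  have h3 := end_two hG hS hP h.1 hs h1
  obtain ⟨h4, h5, h6⟩ := pe_nx h3 h2
  have h0 : ({a, b, c} : Set C).Nonempty := ⟨a, by simp⟩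
  obtain ⟨k1, k2, _, _⟩ := (mem_cor hG h0 h1).1 h4
  have hC : nx κ p d ∈ Cu G κ S a b :=
    ⟨k2 (by simp), k2 (by simp), c, k2 (by simp), hs⟩
  obtain ⟨d', hi, he⟩ : ∃ d', S.Inc4 a b c d' ∧ cols κ (nx κ p d) = {a, b, c, d'} := by
    rcases cu_form hP h.1 hC with ⟨c', hc', e⟩ | ⟨c', d', hi, e⟩
    · exact absurd k1 (pe_three e)
    · have hc : c ∈ cols κ (nx κ p d) := k2 (by simp)
      rw [e] at hc
      simp only [Set.mem_insert_iff, Set.mem_singleton_iff] at hc
      obtain ⟨_, n2, _, n4, _, _⟩ := h.ne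
      rcases hc with e1 | e1 | e1 | e1
      · exact absurd e1.symm n2
      · exact absurd e1.symm n4
      · rw [e1]
        exact ⟨d', hi, e⟩
      · rw [e1]
        exact ⟨c', hi.right, by rw [e, Set.pair_comm]⟩
  have h7 : st κ p d = st κ (nx κ p d) d' := st_uniq hG hP he hi h1 h4
  have h8 := h3
  have h9 := h4
  rw [h7] at h8 h9
  obtain ⟨m1, m2, _⟩ := pe_nx h8 h9
  refine ⟨d', hi, he, h5, ?_, h7.symm, h6⟩
  rw [← h7, h6] at m1
  simp only [Set.mem_insert_iff, Set.mem_singleton_iff] at m1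
  rcases m1 with e | e
  · exact e
  · exact absurd e m2

/-! ## the same for the other colours of `p` (`{a, b, c, d} = {c, d, a, b}`, `h.swap`) -/

private theorem pe_rot (a b c d : C) : ({a, b, c, d} : Set C) = {c, d, a, b} := by
  ext x
  simp only [Set.mem_insert_iff, Set.mem_singleton_iff]
  tauto

private theorem pe_rot3 (a c d : C) : ({c, d, a} : Set C) = {a, c, d} := by
  ext x
  simp only [Set.mem_insert_iff, Set.mem_singleton_iff]
  tauto

theorem st_comp' (hG : IsSph3 G) (hP : Pre G κ S) (hp : cols κ p = {a, b, c, d})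
    (h : S.Inc4 a b c d) :
    IsComp (sd G) (Ex G κ {a, c, d}) (st κ p b) ∧ p ∈ cor κ (st κ p b) := by
  have h1 := st_comp hG hP (hp.trans (pe_rot a b c d)) h.swap
  rw [pe_rot3] at h1
  exact h1

theorem st_uniq' (hG : IsSph3 G) (hP : Pre G κ S) (hp : cols κ p = {a, b, c, d})
    (h : S.Inc4 a b c d) (hI : IsComp (sd G) (Ex G κ {a, c, d}) I) (hpI : p ∈ cor κ I) :
    I = st κ p b := by
  rw [← pe_rot3] at hI
  exact st_uniq hG hP (hp.trans (pe_rot a b c d)) h.swap hI hpI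

theorem nx_spec' [Finite V] (hG : IsSph3 G) (hS : S.Good) (hP : Pre G κ S)
    (hp : cols κ p = {a, b, c, d}) (h : S.Inc4 a b c d) :
    ∃ b', S.Inc4 a b' c d ∧ cols κ (nx κ p b) = {a, b', c, d} ∧ nx κ p b ≠ p ∧
      nx κ (nx κ p b) b' = p ∧ st κ (nx κ p b) b' = st κ p b ∧
      cor κ (st κ p b) = {p, nx κ p b} := by
  obtain ⟨b', h1, h2, h3⟩ := nx_spec hG hS hP (hp.trans (pe_rot a b c d)) h.swap
  exact ⟨b', h1.swap, h2.trans (pe_rot c d a b'), h3⟩

end MOT.Pa
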