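import Pool.Agent.MOT.PaBig
import Pool.Agent.MOT.Joi

/-!
# MOT/PaFib: the base rule keeps all strata (block I)

For an injective priority `ρ` the colouring `mx κ ρ` of `sd G` has the same strata: if
`XX G κ σ` is connected with `H^1 = 0` then so is `XX (sd G) (mx κ ρ) σ`.  Fibre lemma
(`fibd_Conn`, `fibd_HZ`) for `tp : Cq (sd G) → Cq G` (`sd (sd G)` is `cmp (Cq (sd G))`).
-/

open Classical

noncomputable section

namespace MOT.Pa

variable {V C W : Type} {G : SimpleGraph V} {κ : V → C} {S : Sys C} {ρ : C → ℕ}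
  {v w t t' : C} {R : Set (Cq G)}

/-- `d` is the colour of largest priority of the trace -/
private theorem mx_u42 (hρ : Function.Injective ρ) {q0 : Cq G} {d : C} (hd : d ∈ cols κ q0) :
    mx κ ρ (tc κ {c | ρ c ≤ ρ d} q0) = d := by
  have hd' : d ∈ {c | ρ c ≤ ρ d} := le_refl (ρ d)
  have h : ∃ c ∈ cols κ q0, c ∈ {c | ρ c ≤ ρ d} := ⟨d, hd, hd'⟩
  refine mx_eq hρ ?_ ?_
  · rw [tc_cols h]; exact ⟨hd, hd'⟩
  · intro e he
    rw [tc_cols h] at he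
    exact he.2

private theorem le_u42 {q q0 : Cq G} {d : C} (hq : q ≤ q0) (h : ρ (mx κ ρ q) ≤ ρ d) :
    q ≤ tc κ {c | ρ c ≤ ρ d} q0 :=
  le_tc hq fun _ hc => (mx_max hc).trans h

private theorem u_le_u42 (hρ : Function.Injective ρ) {q0 : Cq G} {d e : C} (hd : d ∈ cols κ q0)
    (h : ρ d ≤ ρ e) : tc κ {c | ρ c ≤ ρ d} q0 ≤ tc κ {c | ρ c ≤ ρ e} q0 :=
  le_u42 (tc_le _ _) (by rw [mx_u42 hρ hd]; exact h)

/-- insert an element in a chain -/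
private def ins42 (w : Cq G) (Q : Cq (sd G)) : Cq (sd G) :=
  if h : (sd G).IsClique ((insert w Q.1 : Finset (Cq G)) : Set (Cq G)) then
    ⟨insert w Q.1, Finset.insert_nonempty _ _, h⟩ else Q

private theorem ins_val42 {w : Cq G} {Q : Cq (sd G)} (h : ∀ q ∈ Q.1, q ≤ w ∨ w ≤ q) :
    (ins42 w Q).1 = insert w Q.1 := by
  have h' : (sd G).IsClique ((insert w Q.1 : Finset (Cq G)) : Set (Cq G)) := by
    intro a ha b hb hab
    rw [Finset.mem_coe, Finset.mem_insert] at ha hb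
    rcases ha with rfl | ha
    · rcases hb with rfl | hb
      · exact absurd rfl hab
      · rcases h b hb with h1 | h1
        · exact Or.inr (lt_of_le_of_ne h1 hab.symm)
        · exact Or.inl (lt_of_le_of_ne h1 hab)
    · rcases hb with rfl | hb
      · rcases h a ha with h1 | h1
        · exact Or.inl (lt_of_le_of_ne h1 hab)
        · exact Or.inr (lt_of_le_of_ne h1 hab.symm)
      · exact Q.2.2 (Finset.mem_coe.2 ha) (Finset.mem_coe.2 hb) hab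
  unfold ins42
  rw [dif_pos h']

/-- keep the elements of a chain with a property -/
private def fil42 (p : Cq G → Prop) (Q : Cq (sd G)) : Cq (sd G) :=
  if h : (Q.1.filter p).Nonempty then
    ⟨Q.1.filter p, h, fun _ hx _ hy hxy =>
      Q.2.2 (Finset.mem_coe.2 (Finset.mem_filter.1 (Finset.mem_coe.1 hx)).1)
        (Finset.mem_coe.2 (Finset.mem_filter.1 (Finset.mem_coe.1 hy)).1) hxy⟩
  else Q

private theorem fil_val42 {p : Cq G → Prop} {Q : Cq (sd G)} (h : ∃ q ∈ Q.1, p q) :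
    (fil42 p Q).1 = Q.1.filter p := by
  obtain ⟨q, hq, hp⟩ := h
  unfold fil42
  rw [dif_pos ⟨q, Finset.mem_filter.2 ⟨hq, hp⟩⟩]

private theorem mem_fil42 {p : Cq G → Prop} {Q : Cq (sd G)} (h : ∃ q ∈ Q.1, p q) {q : Cq G} :
    q ∈ (fil42 p Q).1 ↔ q ∈ Q.1 ∧ p q := by
  rw [fil_val42 h, Finset.mem_filter]

private theorem fil_mono42 {p : Cq G → Prop} {Q R : Cq (sd G)} (h : ∃ q ∈ Q.1, p q)
    (h' : ∃ q ∈ R.1, p q) (hQR : Q ≤ R) : fil42 p Q ≤ fil42 p R := by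
  refine Cq.le_iff.2 fun q hq => ?_
  rw [mem_fil42 h] at hq
  exact (mem_fil42 h').2 ⟨hQR hq.1, hq.2⟩

private theorem fil_id42 {p : Cq G → Prop} {Q : Cq (sd G)} (h : ∀ q ∈ Q.1, p q) :
    fil42 p Q = Q := by
  obtain ⟨q0, hq0⟩ := Q.2.1
  apply Subtype.ext
  ext q
  rw [mem_fil42 ⟨q0, hq0, h q0 hq0⟩]
  exact ⟨fun h' => h'.1, fun h' => ⟨h', h q h'⟩⟩

private theorem fil_le42 (p : Cq G → Prop) (Q : Cq (sd G)) : fil42 p Q ≤ Q := by
  unfold fil42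
  split_ifs with h
  · exact Cq.le_iff.2 (Finset.filter_subset _ _)
  · exact le_rfl

/-- the chains of the filtration -/
private def Fs42 (κ : V → C) (ρ : C → ℕ) (σ : Set C) (q0 : Cq G) (τ : Set C) :
    Set (Cq (sd G)) :=
  {Q | (∀ a ∈ σ, ∃ q ∈ Q.1, mx κ ρ q = a) ∧ ∀ q ∈ Q.1, q ≤ q0 ∧ mx κ ρ q ∈ σ ∧
    (mx κ ρ q ∈ τ → q = tc κ {c | ρ c ≤ ρ (mx κ ρ q)} q0)}

private theorem step42 (hρ : Function.Injective ρ) {σ : Set C} {q0 : Cq G}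
    (h : σ ⊆ cols κ q0) {τ : Set C} (hup : ∀ c ∈ τ, ∀ d ∈ σ, ρ c ≤ ρ d → d ∈ τ) {c : C}
    (hcσ : c ∈ σ) (hcτ : c ∉ τ) (hmax : ∀ d ∈ σ, d ∉ τ → ρ d ≤ ρ c)
    (H : Conn (cmp (Cq (sd G))) (Fs42 κ ρ σ q0 (insert c τ)) ∧
      HZ (cmp (Cq (sd G))) (Fs42 κ ρ σ q0 (insert c τ))) :
    Conn (cmp (Cq (sd G))) (Fs42 κ ρ σ q0 τ) ∧ HZ (cmp (Cq (sd G))) (Fs42 κ ρ σ q0 τ) := by
  set u : Cq G := tc κ {e | ρ e ≤ ρ c} q0 with hu
  have hmu : mx κ ρ u = c := mx_u42 hρ (h hcσ)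
  have hcmp : ∀ Q ∈ Fs42 κ ρ σ q0 τ, ∀ q ∈ Q.1, q ≤ u ∨ u ≤ q := by
    rintro Q hQ q hq
    obtain ⟨h1, h2, h3⟩ := hQ.2 q hq
    by_cases ht : mx κ ρ q ∈ τ
    · right
      rw [h3 ht]
      refine u_le_u42 hρ (h hcσ) ?_
      by_contra hlt
      exact hcτ (hup _ ht c hcσ (le_of_lt (not_le.1 hlt)))
    · left
      exact le_u42 h1 (hmax _ h2 ht)
  -- upwards
  let G1 : Set (Cq (sd G)) := {Q | Q ∈ Fs42 κ ρ σ q0 τ ∧ u ∈ Q.1}
  have a1 : G1 ⊆ Fs42 κ ρ σ q0 τ := fun Q hQ => hQ.1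
  have a2 : ∀ Q ∈ Fs42 κ ρ σ q0 τ, ins42 u Q ∈ G1 := by
    intro Q hQ
    have hv := ins_val42 (hcmp Q hQ)
    refine ⟨⟨?_, ?_⟩, ?_⟩
    · intro a ha
      obtain ⟨q, hq, e⟩ := hQ.1 a ha
      exact ⟨q, by rw [hv]; exact Finset.mem_insert_of_mem hq, e⟩
    · intro q hq
      rw [hv, Finset.mem_insert] at hq
      rcases hq with rfl | hq
      · refine ⟨tc_le _ _, by rw [hmu]; exact hcσ, fun ht => ?_⟩
        rw [hmu] at ht
        exact absurd ht hcτ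
      · exact hQ.2 q hq
    · rw [hv]; exact Finset.mem_insert_self _ _
  have a3 : ∀ Q ∈ Fs42 κ ρ σ q0 τ, Q ≤ ins42 u Q := by
    intro Q hQ
    rw [Cq.le_iff, ins_val42 (hcmp Q hQ)]
    exact Finset.subset_insert _ _
  have a4 : ∀ Q ∈ Fs42 κ ρ σ q0 τ, ∀ R ∈ Fs42 κ ρ σ q0 τ, Q ≤ R → ins42 u Q ≤ ins42 u R := by
    intro Q hQ R hR hQR
    rw [Cq.le_iff, ins_val42 (hcmp Q hQ), ins_val42 (hcmp R hR)]
    exact Finset.insert_subset_insert _ hQR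
  have a5 : ∀ Q ∈ G1, ins42 u Q = Q := by
    intro Q hQ
    apply Subtype.ext
    rw [ins_val42 (hcmp Q hQ.1)]
    exact Finset.insert_eq_of_mem hQ.2
  -- downwards
  have hex : ∀ Q ∈ G1, ∃ q ∈ Q.1, q = u ∨ mx κ ρ q ≠ c := fun Q hQ => ⟨u, hQ.2, Or.inl rfl⟩
  have b1 : Fs42 κ ρ σ q0 (insert c τ) ⊆ G1 := by
    intro Q hQ
    refine ⟨⟨hQ.1, fun q hq => ?_⟩, ?_⟩
    · obtain ⟨h1, h2, h3⟩ := hQ.2 q hq
      exact ⟨h1, h2, fun ht => h3 (Set.mem_insert_of_mem _ ht)⟩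
    · obtain ⟨q, hq, e⟩ := hQ.1 c hcσ
      have h3 := (hQ.2 q hq).2.2 (by rw [e]; exact Set.mem_insert _ _)
      rw [e] at h3
      rw [hu, ← h3]; exact hq
  have b2 : ∀ Q ∈ G1, fil42 (fun q => q = u ∨ mx κ ρ q ≠ c) Q ∈
      Fs42 κ ρ σ q0 (insert c τ) := by
    intro Q hQ
    refine ⟨?_, ?_⟩
    · intro a ha
      by_cases hac : a = c
      · refine ⟨u, ?_, by rw [hmu, hac]⟩
        exact (mem_fil42 (hex Q hQ)).2 ⟨hQ.2, Or.inl rfl⟩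
      · obtain ⟨q, hq, e⟩ := hQ.1.1 a ha
        refine ⟨q, ?_, e⟩
        exact (mem_fil42 (hex Q hQ)).2 ⟨hq, Or.inr (by rw [e]; exact hac)⟩
    · intro q hq
      rw [mem_fil42 (hex Q hQ)] at hq
      obtain ⟨h1, h2, h3⟩ := hQ.1.2 q hq.1
      refine ⟨h1, h2, fun ht => ?_⟩
      rcases ht with ht | ht
      · rcases hq.2 with e | e
        · rw [ht]; exact e
        · exact absurd ht e
      · exact h3 ht
  have b3 : ∀ Q ∈ G1, fil42 (fun q => q = u ∨ mx κ ρ q ≠ c) Q ≤ Q := fun Q _ => fil_le42 _ Q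
  have b4 : ∀ Q ∈ G1, ∀ R ∈ G1, Q ≤ R → fil42 (fun q => q = u ∨ mx κ ρ q ≠ c) Q ≤
      fil42 (fun q => q = u ∨ mx κ ρ q ≠ c) R := by
    intro Q hQ R hR hQR
    exact fil_mono42 (hex Q hQ) (hex R hR) hQR
  have b5 : ∀ Q ∈ Fs42 κ ρ σ q0 (insert c τ),
      fil42 (fun q => q = u ∨ mx κ ρ q ≠ c) Q = Q := by
    intro Q hQ
    apply fil_id42
    intro q hq
    by_cases e : mx κ ρ q = c
    · left
      have h3 := (hQ.2 q hq).2.2 (by rw [e]; exact Set.mem_insert _ _)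
      rw [e] at h3
      exact h3
    · exact Or.inr e
  exact ⟨(retu_Conn _ a1 a2 a3 a4).2 ((ret_Conn _ b1 b2 b3 b4).2 H.1),
    (retu_HZ _ a1 a2 a3 a4 a5).2 ((ret_HZ _ b1 b2 b3 b4 b5).2 H.2)⟩

private theorem main42 (hρ : Function.Injective ρ) {σ : Set C} (hσ : σ.Nonempty) {q0 : Cq G}
    (h : σ ⊆ cols κ q0) : ∀ (n : ℕ) (τ : Set C),
      (∀ c ∈ τ, ∀ d ∈ σ, ρ c ≤ ρ d → d ∈ τ) → (σ \ τ).ncard = n →
      Conn (cmp (Cq (sd G))) (Fs42 κ ρ σ q0 τ) ∧ HZ (cmp (Cq (sd G))) (Fs42 κ ρ σ q0 τ) := by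
  have hfin : σ.Finite := (cols_fin q0).subset h
  intro n
  induction n with
  | zero =>
    intro τ hup hn
    have hστ : σ ⊆ τ := by
      rw [Set.ncard_eq_zero (hfin.subset Set.sdiff_subset)] at hn
      exact Set.sdiff_eq_empty.1 hn
    have hcl : (sd G).IsClique ((hfin.toFinset.image
        (fun d => tc κ {c | ρ c ≤ ρ d} q0) : Finset (Cq G)) : Set (Cq G)) := by
      intro a ha b hb hab
      rw [Finset.mem_coe, Finset.mem_image] at ha hb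
      obtain ⟨d, hd, rfl⟩ := ha
      obtain ⟨e, he, rfl⟩ := hb
      rw [Set.Finite.mem_toFinset] at hd he
      rcases le_total (ρ d) (ρ e) with hde | hde
      · exact Or.inl (lt_of_le_of_ne (u_le_u42 hρ (h hd) hde) hab)
      · exact Or.inr (lt_of_le_of_ne (u_le_u42 hρ (h he) hde) hab.symm)
    have hne : (hfin.toFinset.image (fun d => tc κ {c | ρ c ≤ ρ d} q0)).Nonempty := by
      obtain ⟨c, hc⟩ := hσ
      exact ⟨_, Finset.mem_image_of_mem _ ((Set.Finite.mem_toFinset hfin).2 hc)⟩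
    let m : Cq (sd G) := ⟨hfin.toFinset.image (fun d => tc κ {c | ρ c ≤ ρ d} q0), hne, hcl⟩
    have hmm : ∀ q, q ∈ m.1 ↔ ∃ d ∈ σ, tc κ {c | ρ c ≤ ρ d} q0 = q := by
      intro q
      show q ∈ hfin.toFinset.image (fun d => tc κ {c | ρ c ≤ ρ d} q0) ↔ _
      rw [Finset.mem_image]
      simp only [Set.Finite.mem_toFinset]
    have hm : m ∈ Fs42 κ ρ σ q0 τ := by
      refine ⟨?_, ?_⟩
      · intro a ha
        exact ⟨_, (hmm _).2 ⟨a, ha, rfl⟩, mx_u42 hρ (h ha)⟩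
      · intro q hq
        obtain ⟨d, hd, rfl⟩ := (hmm q).1 hq
        rw [mx_u42 hρ (h hd)]
        exact ⟨tc_le _ _, hd, fun _ => rfl⟩
    have hle : ∀ Q ∈ Fs42 κ ρ σ q0 τ, Q ≤ m := by
      intro Q hQ
      refine Cq.le_iff.2 fun q hq => ?_
      obtain ⟨h1, h2, h3⟩ := hQ.2 q hq
      exact (hmm q).2 ⟨_, h2, (h3 (hστ h2)).symm⟩
    exact ⟨top_Conn hm hle, top_HZ hm hle⟩
  | succ n ih =>
    intro τ hup hn
    have hfd : (σ \ τ).Finite := hfin.subset Set.sdiff_subset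
    have hne : (σ \ τ).Nonempty := by
      apply Set.nonempty_of_ncard_ne_zero
      rw [hn]; exact Nat.succ_ne_zero n
    obtain ⟨c, ⟨hcσ, hcτ⟩, hmax⟩ := Set.exists_max_image (σ \ τ) ρ hfd hne
    refine step42 hρ h hup hcσ hcτ (fun d hd hd' => hmax d ⟨hd, hd'⟩) (ih (insert c τ) ?_ ?_)
    · intro x hx d hd hxd
      rcases hx with rfl | hx
      · by_cases hdτ : d ∈ τ
        · exact Or.inr hdτ
        · exact Or.inl (hρ (le_antisymm (hmax d ⟨hd, hdτ⟩) hxd))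
      · exact Or.inr (hup x hx d hd hxd)
    · have e : σ \ insert c τ = (σ \ τ) \ {c} := by
        ext x
        simp only [Set.mem_sdiff, Set.mem_insert_iff, Set.mem_singleton_iff, not_or]
        tauto
      have hc : c ∈ σ \ τ := ⟨hcσ, hcτ⟩
      rw [e, Set.ncard_sdiff_singleton_of_mem hc, hn]
      rfl

/-- FIBRE.  `q0` has all colours of `σ`; the chains below `q0` whose priorities cover `σ`.
Sketch: let `u d := tc κ {c | ρ c ≤ ρ d} q0` for `d ∈ σ` (the greatest simplex `≤ q0` with `mx = d`).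
First retract (downwards, `ret_*`) by `Q ↦ {q ∈ Q | mx κ ρ q ∈ σ}`.  Then for `τ ⊆ σ` closed upwards
for `ρ` let `F τ` be the set of such chains in which every `q` with `mx q ∈ τ` equals `u (mx q)`.
From `F τ` to `F (insert c τ)`, `c` the `ρ`-largest colour of `σ \ τ`: `Q ↦ insert (u c) Q` (upwards,
`retu_*`; `q ≤ u c` for all `q ∈ Q` with `mx q ∉ τ`, and `u c ≤ u d` for `d ∈ τ`), then remove all
`q ≠ u c` with `mx q = c` (downwards).  `F σ` has one element.  (Only finitely many colours: `σ ⊆ cols κ q0`.)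
An induction on the number of elements of `σ \ τ` proves `Conn` and `HZ` together. -/
theorem fib_base (hρ : Function.Injective ρ) {σ : Set C} (hσ : σ.Nonempty) {q0 : Cq G}
    (h : σ ⊆ cols κ q0) :
    Conn (sd (sd G)) {Q | Q ∈ XX (sd G) (mx κ ρ) σ ∧ tp Q ≤ q0} ∧
      HZ (sd (sd G)) {Q | Q ∈ XX (sd G) (mx κ ρ) σ ∧ tp Q ≤ q0} := by
  have H := main42 hρ hσ h _ ∅ (fun c hc => absurd hc (Set.notMem_empty c)) rfl
  let X : Set (Cq (sd G)) := {Q | Q ∈ XX (sd G) (mx κ ρ) σ ∧ tp Q ≤ q0}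
  have hex : ∀ Q ∈ X, ∃ q ∈ Q.1, mx κ ρ q ∈ σ := by
    intro Q hQ
    obtain ⟨a, ha⟩ := hσ
    obtain ⟨q, hq, e⟩ := hQ.1 a ha
    exact ⟨q, hq, by rw [e]; exact ha⟩
  have b1 : Fs42 κ ρ σ q0 ∅ ⊆ X := fun Q hQ => ⟨hQ.1, (hQ.2 _ (tp_mem Q)).1⟩
  have b2 : ∀ Q ∈ X, fil42 (fun q => mx κ ρ q ∈ σ) Q ∈ Fs42 κ ρ σ q0 ∅ := by
    intro Q hQ
    refine ⟨?_, ?_⟩
    · intro a ha
      obtain ⟨q, hq, e⟩ := hQ.1 a ha
      refine ⟨q, ?_, e⟩
      exact (mem_fil42 (hex Q hQ)).2 ⟨hq, by rw [e]; exact ha⟩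
    · intro q hq
      rw [mem_fil42 (hex Q hQ)] at hq
      exact ⟨(le_tp hq.1).trans hQ.2, hq.2, fun ht => absurd ht (Set.notMem_empty _)⟩
  have b3 : ∀ Q ∈ X, fil42 (fun q => mx κ ρ q ∈ σ) Q ≤ Q := fun Q _ => fil_le42 _ Q
  have b4 : ∀ Q ∈ X, ∀ R ∈ X, Q ≤ R → fil42 (fun q => mx κ ρ q ∈ σ) Q ≤
      fil42 (fun q => mx κ ρ q ∈ σ) R := by
    intro Q hQ R hR hQR
    exact fil_mono42 (hex Q hQ) (hex R hR) hQR
  have b5 : ∀ Q ∈ Fs42 κ ρ σ q0 ∅, fil42 (fun q => mx κ ρ q ∈ σ) Q = Q := by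
    intro Q hQ
    exact fil_id42 fun q hq => (hQ.2 q hq).2.1
  exact ⟨(ret_Conn _ b1 b2 b3 b4).2 H.1, (ret_HZ _ b1 b2 b3 b4 b5).2 H.2⟩

theorem base_Conn (hρ : Function.Injective ρ) {σ : Set C} (hσ : σ.Nonempty)
    (h : Conn (sd G) (XX G κ σ)) : Conn (sd (sd G)) (XX (sd G) (mx κ ρ) σ) :=
  fibd_Conn (T := XX G κ σ) tp (fun _ _ _ _ h' => tp_mono h')
    (fun Q hQ => XX_iff.2 ((XX_iff.1 hQ).trans (cols_mx_sub Q)))
    (fun _ hy => (fib_base hρ hσ (XX_iff.1 hy)).1) h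

theorem base_HZ (hρ : Function.Injective ρ) {σ : Set C} (hσ : σ.Nonempty)
    (h : HZ (sd G) (XX G κ σ)) : HZ (sd (sd G)) (XX (sd G) (mx κ ρ) σ) :=
  fibd_HZ (T := XX G κ σ) tp (fun _ _ _ _ h' => tp_mono h')
    (fun Q hQ => XX_iff.2 ((XX_iff.1 hQ).trans (cols_mx_sub Q)))
    (fun _ hy => fib_base hρ hσ (XX_iff.1 hy)) h

end MOT.Pa
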