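import Pool.Agent.MOT.PaRec

/-!
# MOT/PaMix: a region with an odd number of mixed intervals (block I)
-/

open Classical

noncomputable section

namespace MOT.Pa

variable {V C W : Type} {G : SimpleGraph V} {κ : V → C} {S : Sys C} {ρ : C → ℕ}
  {a b c d v w t t' t1 t2 : C} {R H I J : Set (Cq G)} {p q r : Cq G}

/-- the two faces of `t` at the edge `v, w` -/
theorem two_faces (hS : S.Good) (hvw : S.E v w) (hv : S.I v t) (hw : S.I w t) :
    ∃ t1 t2, t1 ≠ t2 ∧ S.Inc4 v w t t1 ∧ S.Inc4 v w t t2 ∧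
      ∀ d, S.Inc4 v w t d → d = t1 ∨ d = t2 := by
  obtain ⟨t1, t2, hne, he⟩ := Set.ncard_eq_two.1 (hS.two v w t hvw hv hw)
  have h1 : t1 ∈ {d | S.E t d ∧ S.I v d ∧ S.I w d} := by
    rw [he]
    exact Or.inl rfl
  have h2 : t2 ∈ {d | S.E t d ∧ S.I v d ∧ S.I w d} := by
    rw [he]
    exact Or.inr rfl
  refine ⟨t1, t2, hne, ⟨hvw, h1.1, hv, h1.2.1, hw, h1.2.2⟩, ⟨hvw, h2.1, hv, h2.2.1, hw, h2.2.2⟩,
    fun d hd => ?_⟩
  have h3 : d ∈ {d | S.E t d ∧ S.I v d ∧ S.I w d} := ⟨hd.2.1, hd.2.2.2.1, hd.2.2.2.2.2⟩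
  rw [he] at h3
  exact h3

private theorem pmx_even [Finite V] {X : Set (Cq G)} (g : Cq G → Cq G)
    (h1 : ∀ x ∈ X, g x ∈ X) (h2 : ∀ x ∈ X, g (g x) = x) (h3 : ∀ x ∈ X, g x ≠ x) :
    Even X.ncard := by
  rw [Set.ncard_eq_toFinset_card X (Set.toFinite X)]
  have h4 : ∑ _x ∈ (Set.toFinite X).toFinset, (1 : ZMod 2) = 0 := by
    refine Finset.sum_involution (fun x _ => g x) ?_ ?_ ?_ ?_
    · intro x _
      exact CharTwo.add_self_eq_zero 1
    · intro x hx _
      exact h3 x ((Set.Finite.mem_toFinset _).1 hx)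
    · intro x hx
      exact (Set.Finite.mem_toFinset _).2 (h1 x ((Set.Finite.mem_toFinset _).1 hx))
    · intro x hx
      exact h2 x ((Set.Finite.mem_toFinset _).1 hx)
  rw [Finset.sum_const, nsmul_eq_mul, mul_one] at h4
  exact (ZMod.natCast_eq_zero_iff_even).1 h4

/-- (S1) `Ex {v, w, t, t1}` is odd (`hP.odd`), the points whose partner `nx κ p t1` is again in
`Ex {v, w, t, t1}` are paired. -/
theorem mix_odd [Finite V] (hG : IsSph3 G) (hS : S.Good) (hP : Pre G κ S)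
    (h1 : S.Inc4 v w t t1) (h2 : S.Inc4 v w t t2) (hne : t1 ≠ t2)
    (hall : ∀ d, S.Inc4 v w t d → d = t1 ∨ d = t2) :
    Odd {p : Cq G | cols κ p = {v, w, t, t1} ∧ cols κ (nx κ p t1) = {v, w, t, t2}}.ncard := by
  have hX := hP.odd v w t t1 h1
  have hn := h2.ne
  have hn1 := h1.ne
  have hdiff : ({v, w, t, t1} : Set C) ≠ {v, w, t, t2} := by
    intro e
    have h3 : t1 ∈ ({v, w, t, t2} : Set C) := by
      rw [← e]
      exact Or.inr (Or.inr (Or.inr rfl))
    rcases h3 with h3 | h3 | h3 | h3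
    · exact hn1.2.2.1 h3.symm
    · exact hn1.2.2.2.2.1 h3.symm
    · exact hn1.2.2.2.2.2 h3.symm
    · exact hne h3
  have hdis : Disjoint
      {p : Cq G | cols κ p = {v, w, t, t1} ∧ cols κ (nx κ p t1) = {v, w, t, t2}}
      {p : Cq G | cols κ p = {v, w, t, t1} ∧ cols κ (nx κ p t1) = {v, w, t, t1}} := by
    rw [Set.disjoint_left]
    rintro p ⟨-, h3⟩ ⟨-, h4⟩
    exact hdiff (h4.symm.trans h3)
  have hun : Ex G κ {v, w, t, t1} =
      {p : Cq G | cols κ p = {v, w, t, t1} ∧ cols κ (nx κ p t1) = {v, w, t, t2}} ∪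
      {p : Cq G | cols κ p = {v, w, t, t1} ∧ cols κ (nx κ p t1) = {v, w, t, t1}} := by
    ext p
    constructor
    · intro hp
      have hp' : cols κ p = {v, w, t, t1} := hp
      obtain ⟨d', hd, hc, -⟩ := nx_spec hG hS hP hp' h1
      rcases hall d' hd with h3 | h3
      · rw [h3] at hc
        exact Or.inr ⟨hp', hc⟩
      · rw [h3] at hc
        exact Or.inl ⟨hp', hc⟩
    · rintro (h | h)
      · exact h.1
      · exact h.1
  have hB : Even {p : Cq G | cols κ p = {v, w, t, t1} ∧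
      cols κ (nx κ p t1) = {v, w, t, t1}}.ncard := by
    have hinv : ∀ p : Cq G, cols κ p = {v, w, t, t1} → cols κ (nx κ p t1) = {v, w, t, t1} →
        nx κ (nx κ p t1) t1 = p ∧ nx κ p t1 ≠ p := by
      intro p hp hc
      obtain ⟨d', hd, hc', h3, h4, -⟩ := nx_spec hG hS hP hp h1
      rcases hall d' hd with h5 | h5
      · rw [h5] at h4
        exact ⟨h4, h3⟩
      · rw [h5] at hc'
        exact absurd (hc.symm.trans hc') hdiff
    refine pmx_even (fun p => nx κ p t1) ?_ ?_ ?_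
    · rintro p ⟨hp, hc⟩
      refine ⟨hc, ?_⟩
      rw [(hinv p hp hc).1]
      exact hp
    · rintro p ⟨hp, hc⟩
      exact (hinv p hp hc).1
    · rintro p ⟨hp, hc⟩
      exact (hinv p hp hc).2
  rw [hun, Set.ncard_union_eq hdis (Set.toFinite _) (Set.toFinite _)] at hX
  exact (Nat.odd_add.1 hX).2 hB

/-- some region contains an odd number (the regions `rg κ p v t` partition the set above) -/
theorem mix_reg [Finite V] (hG : IsSph3 G) (hS : S.Good) (hP : Pre G κ S)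
    (h1 : S.Inc4 v w t t1) (h2 : S.Inc4 v w t t2) (hne : t1 ≠ t2)
    (hall : ∀ d, S.Inc4 v w t d → d = t1 ∨ d = t2) :
    ∃ R, IsComp (sd G) (Ex G κ {v, t}) R ∧ Odd {p | p ∈ cor κ R ∧ cols κ p = {v, w, t, t1} ∧
      cols κ (nx κ p t1) = {v, w, t, t2}}.ncard := by
  by_contra hcon
  push Not at hcon
  have hodd := mix_odd hG hS hP h1 h2 hne hall
  apply Nat.not_even_iff_odd.2 hodd
  rw [Set.ncard_eq_toFinset_card _ (Set.toFinite _)]
  rw [Finset.card_eq_sum_card_image (fun p => rg κ p v t)]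
  refine Finset.even_sum _ fun R hR => ?_
  obtain ⟨p0, hp0, hR0⟩ := Finset.mem_image.1 hR
  rw [Set.Finite.mem_toFinset] at hp0
  have hcomp := (rg_comp hG hP hp0.1 h1).1
  rw [hR0] at hcomp
  have h3 := Nat.not_odd_iff_even.1 (hcon R hcomp)
  have e : {p | p ∈ cor κ R ∧ cols κ p = {v, w, t, t1} ∧ cols κ (nx κ p t1) = {v, w, t, t2}} =
      (((Set.toFinite {p : Cq G | cols κ p = {v, w, t, t1} ∧
        cols κ (nx κ p t1) = {v, w, t, t2}}).toFinset.filter fun p => rg κ p v t = R :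
          Finset (Cq G)) : Set (Cq G)) := by
    ext p
    rw [Finset.mem_coe, Finset.mem_filter, Set.Finite.mem_toFinset]
    constructor
    · rintro ⟨hp1, hp2, hp3⟩
      exact ⟨⟨hp2, hp3⟩, (rg_uniq hG hcomp hp1).symm⟩
    · rintro ⟨⟨hp2, hp3⟩, hp1⟩
      refine ⟨?_, hp2, hp3⟩
      rw [← hp1]
      exact (rg_comp hG hP hp2 h1).2
  rw [e, Set.ncard_coe_finset] at h3
  exact h3

/-- a region which is not a rectangle (`rect_even`) and has corners of colours `{v, w, t, d}` for both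
faces `d` (the corner `p` and its partner, `nx_cor`) -/
theorem mix_nr [Finite V] (hG : IsSph3 G) (hS : S.Good) (hP : Pre G κ S)
    (hvw : S.E v w) (hv : S.I v t) (hw : S.I w t) :
    ∃ R, IsComp (sd G) (Ex G κ {v, t}) R ∧ ¬ Rct κ R ∧
      ∀ d, S.Inc4 v w t d → (cor κ R ∩ Ex G κ {v, w, t, d}).Nonempty := by
  obtain ⟨t1, t2, hne, h1, h2, hall⟩ := two_faces hS hvw hv hw
  obtain ⟨R, hR, hodd⟩ := mix_reg hG hS hP h1 h2 hne hall
  refine ⟨R, hR, fun hr => ?_, fun d hd => ?_⟩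
  · exact Nat.not_even_iff_odd.2 hodd (rect_even hG hS hP h1 h2 hne hR hr)
  · have hne' : {p | p ∈ cor κ R ∧ cols κ p = {v, w, t, t1} ∧
        cols κ (nx κ p t1) = {v, w, t, t2}}.Nonempty := by
      rw [Set.nonempty_iff_ne_empty]
      intro h
      rw [h, Set.ncard_empty] at hodd
      exact Nat.not_odd_zero hodd
    obtain ⟨p, hp, hp1, hp2⟩ := hne'
    rcases hall d hd with h3 | h3
    · rw [h3]
      exact ⟨p, hp, hp1⟩
    · rw [h3]
      exact ⟨nx κ p t1, (nx_cor hG hS hP hR hp hp1 h1).1, hp2⟩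

end MOT.Pa
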