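import Pool.Agent.MOT.PaBgn
import Pool.Agent.MOT.PaMix
import Pool.Agent.MOT.PaCnt

/-!
# MOT/PaHex: no bigon: all regions are hexagons or rectangles, one hexagon for every incident pair (block I)
-/

open Classical

noncomputable section

namespace MOT.Pa

variable {V C W : Type} {G : SimpleGraph V} {κ : V → C} {S : Sys C} {ρ : C → ℕ}
  {a b c d v w t t' t1 t2 : C} {R H I J : Set (Cq G)} {p q r : Cq G}

/-- hexagon of the incident pair `v, t` -/
structure Hx (G : SimpleGraph V) (κ : V → C) (S : Sys C) (v t : C) (H : Set (Cq G)) : Prop where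
  comp : IsComp (sd G) (Ex G κ {v, t}) H
  inc : S.I v t
  hz : HZ (sd G) H
  six : (cor κ H).ncard = 6
  one : ∀ w d, S.Inc4 v w t d → (cor κ H ∩ Ex G κ {v, w, t, d}).ncard = 1

/-- one hexagon for every incident pair, all other regions are rectangles -/
def Dich (G : SimpleGraph V) (κ : V → C) (S : Sys C) : Prop :=
  ∀ v t, S.side v = true → S.I v t → ∃ H, Hx G κ S v t H ∧
    ∀ R, IsComp (sd G) (Ex G κ {v, t}) R → R = H ∨ Rct κ R

private theorem hex_side (hv : S.side v = true) (h : S.side c ≠ S.side v) :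
    S.side c = false := by
  rw [hv] at h
  cases hc : S.side c
  · rfl
  · exact absurd hc h

private theorem hex_col {w' d' : C} (h : S.Inc4 v w t d) (h' : S.Inc4 v w' t d')
    (e : ({v, w, t, d} : Set C) = {v, w', t, d'}) : w = w' ∧ d = d' := by
  have hb : w' ∈ ({v, w, t, d} : Set C) := by rw [e]; simp
  have hd : d' ∈ ({v, w, t, d} : Set C) := by rw [e]; simp
  simp only [Set.mem_insert_iff, Set.mem_singleton_iff] at hb hd
  have s1 := S.E_side h.1
  have s2 := S.E_side h.2.1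
  have s3 := S.I_side h.2.2.1
  have s4 := S.E_side h'.1
  have s5 := S.E_side h'.2.1
  have n1 := S.E_ne h'.1
  have n2 := S.E_ne h'.2.1
  constructor
  · rcases hb with e1 | e1 | e1 | e1
    · exact absurd e1.symm n1
    · exact e1.symm
    · rw [e1] at s4; exact absurd s4 s3
    · rw [e1] at s4; exact absurd (s4.trans s2.symm) s3
  · rcases hd with e1 | e1 | e1 | e1
    · rw [e1] at s5; exact absurd s5.symm s3
    · rw [e1] at s5; exact absurd (s1.trans s5.symm) s3
    · exact absurd e1.symm n2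
    · exact e1.symm

/-- the colours of a region -/
private theorem hex_reg {c' : C} (hc : S.I v c) (h1 : IsComp (sd G) (Ex G κ {v, c}) R)
    (h2 : IsComp (sd G) (Ex G κ {v, c'}) R) : c' = c := by
  obtain ⟨q, hq⟩ := h1.conn.1
  have e1 : cols κ q = {v, c} := h1.sub hq
  have e2 : cols κ q = {v, c'} := h2.sub hq
  have h3 : c ∈ ({v, c'} : Set C) := by
    rw [← e2, e1]
    simp
  rcases h3 with h3 | h3
  · exact absurd (by rw [h3]) (S.I_side hc)
  · exact (Set.mem_singleton_iff.1 h3).symm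

/-- the term of a region without bigons: `cor_ne`, `cor_even`, `dsk_chi` in the sphere
`Fr G (cs κ v)` (`sph_cs`, `reg_sub`, `reg_ne`), `bigon`.  `chi ≤ 1`; if `chi = 1` then `HZ`, the number of
corners is even, positive, not 2; if `chi ≤ 0` the term is at least the number of corners. -/
theorem tm_reg [Finite V] (hG : IsSph3 G) (hS : S.Good) (hP : Pre G κ S)
    (hnb : ∀ v w t t' R, ¬ Big G κ S v w t t' R) (hv : S.side v = true) (ht : S.side t = false)
    (hR : IsComp (sd G) (Ex G κ {v, t}) R) :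
    0 ≤ tm κ R ∧ (tm κ R = 0 → Rct κ R) ∧ (tm κ R ≠ 0 → 2 ≤ tm κ R) ∧
      (tm κ R = 2 → 6 ≤ (cor κ R).ncard → HZ (sd G) R ∧ (cor κ R).ncard = 6) := by
  have hs : S.side t ≠ S.side v := by
    rw [hv, ht]
    decide
  obtain ⟨s1, s2, -⟩ := sph_cs hG hP.pre0 v
  have h1 := dsk_chi s1 s2 (reg_sub (S := S) hs hR).2.1 hR.conn (reg_ne hS hP hs hR).2
  have h2 := (Set.ncard_pos (Set.toFinite _)).2 (cor_ne hG hS hP hs hR)
  have h4 : HZ (sd G) R → (cor κ R).ncard ≠ 2 := by
    intro hz h5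
    obtain ⟨w, t', hb⟩ := bigon hG hS hP hv ht hR hz h5
    exact hnb _ _ _ _ _ hb
  obtain ⟨k, hk⟩ := cor_even hG hS hP hs hR
  unfold tm Rct
  by_cases hc : chi (sd G) R = 1
  · have hz := h1.2.1 hc
    have h5 := h4 hz
    rw [hc]
    refine ⟨by omega, fun h => ⟨hz, by omega⟩, fun h => by omega, fun h _ => ⟨hz, by omega⟩⟩
  · have h6 : chi (sd G) R ≤ 0 := by
      have := h1.1
      omega
    refine ⟨by omega, fun h => ?_, fun h => by omega, fun h h' => ?_⟩
    · exfalso
      omega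
    · exfalso
      omega

/-- CHOICE: for every `t` with `I v t` take a region `H t` of colours `v, t` which is not a rectangle
(`mix_nr`).  Its term is at least 2.  These regions are different, the sum of all terms is
`4 (val - 2) = 2 #{t | I v t}` (`sum_tm`, `hS.link`), so the term of `H t` is 2 and all other terms are 0:
all other regions are rectangles. -/
theorem nonrect [Finite V] [Finite C] (hG : IsSph3 G) (hS : S.Good) (hP : Pre G κ S)
    (hnb : ∀ v w t t' R, ¬ Big G κ S v w t t' R) (hv : S.side v = true) (hvt : S.I v t) :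
    ∃ H, IsComp (sd G) (Ex G κ {v, t}) H ∧ tm κ H = 2 ∧
      ∀ R, IsComp (sd G) (Ex G κ {v, t}) R → R = H ∨ Rct κ R := by
  have hex : ∀ c, S.I v c → ∃ R, IsComp (sd G) (Ex G κ {v, c}) R ∧ ¬ Rct κ R := by
    intro c hc
    have h3 := hS.three v c hc
    obtain ⟨w, hw⟩ : {b | S.E v b ∧ S.I b c}.Nonempty :=
      (Set.ncard_pos (Set.toFinite _)).1 (by omega)
    obtain ⟨R, hR, hn, -⟩ := mix_nr hG hS hP hw.1 hc hw.2
    exact ⟨R, hR, hn⟩
  choose! H hH1 hH2 using hex
  have htm : ∀ c, S.I v c → 2 ≤ tm κ (H c) := by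
    intro c hc
    obtain ⟨-, h1, h2, -⟩ := tm_reg hG hS hP hnb hv (hex_side hv (S.I_side hc).symm) (hH1 c hc)
    exact h2 (fun h => hH2 c hc (h1 h))
  let D : Finset C := (Set.toFinite {c | S.I v c}).toFinset
  have hD : ∀ c, c ∈ D ↔ S.I v c := fun c => Set.Finite.mem_toFinset _
  have hDc : D.card = {c | S.I v c}.ncard := (Set.ncard_eq_toFinset_card _ _).symm
  have hinj : ∀ c ∈ D, ∀ c' ∈ D, H c = H c' → c = c' := by
    intro c hc c' hc' e
    rw [hD] at hc hc'
    have h1 := hH1 c hc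
    rw [e] at h1
    exact hex_reg hc' (hH1 c' hc') h1
  have hrg : ∀ R, R ∈ rgs G κ S v ↔ R ∈ Rg G κ S v := fun R => Set.Finite.mem_toFinset _
  have himg : D.image H ⊆ rgs G κ S v := by
    intro R hR
    obtain ⟨c, hc, rfl⟩ := Finset.mem_image.1 hR
    rw [hD] at hc
    rw [hrg]
    exact ⟨c, (S.I_side hc).symm, hH1 c hc⟩
  have hnn : ∀ R ∈ rgs G κ S v, 0 ≤ tm κ R := by
    intro R hR
    rw [hrg] at hR
    obtain ⟨c, hc, hRc⟩ := hR
    exact (tm_reg hG hS hP hnb hv (hex_side hv hc) hRc).1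
  have hsum := sum_tm hG hS hP v
  have hlink := hS.link v hv
  have hsplit := Finset.sum_sdiff (f := tm κ) himg
  have hnn' : ∀ R ∈ rgs G κ S v \ D.image H, 0 ≤ tm κ R := fun R hR =>
    hnn R (Finset.mem_sdiff.1 hR).1
  have hrest := Finset.sum_nonneg hnn'
  have himgsum : ∑ R ∈ D.image H, tm κ R = ∑ c ∈ D, tm κ (H c) :=
    Finset.sum_image (fun c hc c' hc' e => hinj c hc c' hc' e)
  have hge : ∑ _c ∈ D, (2 : ℤ) ≤ ∑ c ∈ D, tm κ (H c) :=
    Finset.sum_le_sum fun c hc => htm c ((hD c).1 hc)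
  have hconst : ∑ _c ∈ D, (2 : ℤ) = 2 * (D.card : ℤ) := by
    rw [Finset.sum_const, nsmul_eq_mul, mul_comm]
  have e1 : ∑ _c ∈ D, (2 : ℤ) = ∑ c ∈ D, tm κ (H c) := by omega
  have e2 : ∑ R ∈ rgs G κ S v \ D.image H, tm κ R = 0 := by omega
  have h1 := (Finset.sum_eq_sum_iff_of_le (fun c hc => htm c ((hD c).1 hc))).1 e1
  have h2 := (Finset.sum_eq_zero_iff_of_nonneg hnn').1 e2
  refine ⟨H t, hH1 t hvt, (h1 t ((hD t).2 hvt)).symm, fun R hR => ?_⟩
  by_cases e : R = H t
  · exact Or.inl e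
  · right
    refine (tm_reg hG hS hP hnb hv (hex_side hv (S.I_side hvt).symm) hR).2.1 (h2 R ?_)
    rw [Finset.mem_sdiff, hrg]
    refine ⟨⟨t, (S.I_side hvt).symm, hR⟩, fun h => ?_⟩
    obtain ⟨c, hc, hcR⟩ := Finset.mem_image.1 h
    rw [hD] at hc
    have h3 := hH1 c hc
    rw [hcR] at h3
    rw [hex_reg hvt hR h3] at hcR
    exact e hcR.symm

/-- the region of `mix_nr` is `H` for each of the three `w` (`hS.three`) and has a corner in
`Ex {v, w, t, d}` for both `d` (`hS.two`): at least six corners; with `tm_reg` exactly six, exactly one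
in each of the six sets (they are disjoint). -/
theorem dich [Finite V] [Finite C] (hG : IsSph3 G) (hS : S.Good) (hP : Pre G κ S)
    (hnb : ∀ v w t t' R, ¬ Big G κ S v w t t' R) : Dich G κ S := by
  intro v t hv hvt
  obtain ⟨H, hH, htm, hdi⟩ := nonrect hG hS hP hnb hv hvt
  have ht : S.side t = false := hex_side hv (S.I_side hvt).symm
  obtain ⟨q0, hq0⟩ := hH.conn.1
  have : Nonempty (Cq G) := ⟨q0⟩
  have hex : ∀ x : C × C, S.Inc4 v x.1 t x.2 → ∃ q : Cq G, q ∈ cor κ H ∧
      cols κ q = {v, x.1, t, x.2} := by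
    rintro ⟨w, d⟩ h
    obtain ⟨R, hR, hn, hc⟩ := mix_nr hG hS hP h.1 hvt h.2.2.2.2.1
    rcases hdi R hR with e | e
    · obtain ⟨q, hq1, hq2⟩ := hc d h
      rw [e] at hq1
      exact ⟨q, hq1, hq2⟩
    · exact absurd e hn
  choose! f hf1 hf2 using hex
  let P : Finset (C × C) := (Set.toFinite {x : C × C | S.Inc4 v x.1 t x.2}).toFinset
  have hPm : ∀ x, x ∈ P ↔ S.Inc4 v x.1 t x.2 := fun x => Set.Finite.mem_toFinset _
  have hPc : P.card = 6 := by
    let B : Finset C := (Set.toFinite {b | S.E v b ∧ S.I b t}).toFinset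
    have hBm : ∀ b, b ∈ B ↔ S.E v b ∧ S.I b t := fun b => Set.Finite.mem_toFinset _
    have hB : B.card = 3 := by
      rw [← hS.three v t hvt]
      exact (Set.ncard_eq_toFinset_card _ _).symm
    have hmaps : Set.MapsTo Prod.fst (P : Set (C × C)) (B : Set C) := by
      intro x hx
      have h := (hPm x).1 (Finset.mem_coe.1 hx)
      exact Finset.mem_coe.2 ((hBm _).2 ⟨h.1, h.2.2.2.2.1⟩)
    rw [Finset.card_eq_sum_card_fiberwise hmaps]
    have h2 : ∀ b ∈ B, (P.filter (fun x => x.1 = b)).card = 2 := by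
      intro b hb
      rw [hBm] at hb
      rw [← hS.two v b t hb.1 hvt hb.2, Set.ncard_eq_toFinset_card _ (Set.toFinite _)]
      refine Finset.card_bij (fun x _ => x.2) ?_ ?_ ?_
      · intro x hx
        obtain ⟨hx1, hx2⟩ := Finset.mem_filter.1 hx
        have h := (hPm x).1 hx1
        rw [Set.Finite.mem_toFinset]
        rw [hx2] at h
        exact ⟨h.2.1, h.2.2.2.1, h.2.2.2.2.2⟩
      · intro x hx y hy e
        obtain ⟨-, hx2⟩ := Finset.mem_filter.1 hx
        obtain ⟨-, hy2⟩ := Finset.mem_filter.1 hy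
        exact Prod.ext (hx2.trans hy2.symm) e
      · intro d hd
        rw [Set.Finite.mem_toFinset] at hd
        exact ⟨(b, d), Finset.mem_filter.2 ⟨(hPm _).2 ⟨hb.1, hd.1, hvt, hd.2.1, hb.2, hd.2.2⟩, rfl⟩,
          rfl⟩
    rw [Finset.sum_congr rfl h2, Finset.sum_const, hB]
    rfl
  have hinj : ∀ x ∈ P, ∀ y ∈ P, f x = f y → x = y := by
    intro x hx y hy e
    rw [hPm] at hx hy
    have h1 := hf2 x hx
    rw [e, hf2 y hy] at h1
    obtain ⟨h2, h3⟩ := hex_col hy hx h1
    exact (Prod.ext h2 h3).symm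
  let K : Finset (Cq G) := (Set.toFinite (cor κ H)).toFinset
  have hKm : ∀ q, q ∈ K ↔ q ∈ cor κ H := fun q => Set.Finite.mem_toFinset _
  have hKc : K.card = (cor κ H).ncard := (Set.ncard_eq_toFinset_card _ _).symm
  have himg : P.image f ⊆ K := by
    intro q hq
    obtain ⟨x, hx, rfl⟩ := Finset.mem_image.1 hq
    exact (hKm _).2 (hf1 x ((hPm x).1 hx))
  have hic : (P.image f).card = 6 := by
    rw [Finset.card_image_of_injOn (fun x hx y hy e => hinj x hx y hy e), hPc]
  have h6 : 6 ≤ (cor κ H).ncard := by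
    rw [← hKc, ← hic]
    exact Finset.card_le_card himg
  obtain ⟨hz, hc6⟩ := (tm_reg hG hS hP hnb hv ht hH).2.2.2 htm h6
  have heq : P.image f = K := Finset.eq_of_subset_of_card_le himg (by omega)
  refine ⟨H, ⟨hH, hvt, hz, hc6, fun w d h => ?_⟩, hdi⟩
  rw [Set.ncard_eq_one]
  refine ⟨f (w, d), ?_⟩
  ext q
  rw [Set.mem_singleton_iff]
  constructor
  · rintro ⟨hq1, hq2⟩
    have hq3 := (hKm q).2 hq1
    rw [← heq] at hq3
    obtain ⟨x, hx, hxq⟩ := Finset.mem_image.1 hq3
    rw [hPm] at hx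
    have h1 := hf2 x hx
    rw [hxq, show cols κ q = {v, w, t, d} from hq2] at h1
    obtain ⟨h2, h3⟩ := hex_col h hx h1
    rw [← hxq]
    congr 1
    exact (Prod.ext h2 h3).symm
  · intro hq
    rw [hq]
    exact ⟨hf1 (w, d) h, hf2 (w, d) h⟩

end MOT.Pa
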