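import Pool.Agent.MOT.PaFib

/-!
# MOT/PaMvD: the bigon move, colours of simplices and the discs other than `{t, t'}` (block I)
-/

open Classical

noncomputable section

namespace MOT.Pa

variable {V C W : Type} {G : SimpleGraph V} {κ : V → C} {S : Sys C} {ρ : C → ℕ}
  {v w t t' : C} {R : Set (Cq G)}

private theorem PaMvD_side (h : Big G κ S v w t t' R) {x : C}
    (hx : x ∈ ({v, w, t, t'} : Set C)) : (S.side x = true ∧ (x = v ∨ x = w)) ∨
      (S.side x = false ∧ (x = t ∨ x = t')) := by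
  simp only [Set.mem_insert_iff, Set.mem_singleton_iff] at hx
  rcases hx with e | e | e | e
  · exact Or.inl ⟨by rw [e]; exact h.sv, Or.inl e⟩
  · exact Or.inl ⟨by rw [e]; exact h.sw, Or.inr e⟩
  · exact Or.inr ⟨by rw [e]; exact h.st, Or.inl e⟩
  · exact Or.inr ⟨by rw [e]; exact h.st', Or.inr e⟩

/-- at most two colours of each side.  By `Big.cols_nk` the colours of `Q` are among those of
`tp Q` (`hP.two`) or among `v, w | t, t'`. -/
theorem mv_two (hP : Pre G κ S) (h : Big G κ S v w t t' R) (Q : Cq (sd G)) :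
    ∀ a ∈ cols (nk κ ρ (Zb G κ v w t R) t') Q, ∀ b ∈ cols (nk κ ρ (Zb G κ v w t R) t') Q,
      ∀ c ∈ cols (nk κ ρ (Zb G κ v w t R) t') Q, S.side a = S.side b →
        S.side b = S.side c → a = b ∨ b = c ∨ a = c := by
  intro a ha b hb c hc hab hbc
  rcases h.cols_nk (ρ := ρ) Q with h1 | h1
  · exact hP.two (tp Q) a (h1 ha) b (h1 hb) c (h1 hc) hab hbc
  · rcases PaMvD_side h (h1 ha) with ⟨ha1, ha2⟩ | ⟨ha1, ha2⟩ <;>
      rcases PaMvD_side h (h1 hb) with ⟨hb1, hb2⟩ | ⟨hb1, hb2⟩ <;>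
      rcases PaMvD_side h (h1 hc) with ⟨hc1, hc2⟩ | ⟨hc1, hc2⟩
    · rcases ha2 with e1 | e1 <;> rcases hb2 with e2 | e2 <;> rcases hc2 with e3 | e3 <;>
        simp [e1, e2, e3]
    · rw [hb1, hc1] at hbc
      exact Bool.noConfusion hbc
    · rw [ha1, hb1] at hab
      exact Bool.noConfusion hab
    · rw [ha1, hb1] at hab
      exact Bool.noConfusion hab
    · rw [ha1, hb1] at hab
      exact Bool.noConfusion hab
    · rw [ha1, hb1] at hab
      exact Bool.noConfusion hab
    · rw [hb1, hc1] at hbc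
      exact Bool.noConfusion hbc
    · rcases ha2 with e1 | e1 <;> rcases hb2 with e2 | e2 <;> rcases hc2 with e3 | e3 <;>
        simp [e1, e2, e3]

theorem mv_adj (hP : Pre G κ S) (h : Big G κ S v w t t' R) (Q : Cq (sd G)) :
    ∀ a ∈ cols (nk κ ρ (Zb G κ v w t R) t') Q, ∀ b ∈ cols (nk κ ρ (Zb G κ v w t R) t') Q,
      S.side a = S.side b → a ≠ b → S.E a b := by
  intro a ha b hb hab hne
  rcases h.cols_nk (ρ := ρ) Q with h1 | h1
  · exact hP.adj (tp Q) a (h1 ha) b (h1 hb) hab hne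
  · rcases PaMvD_side h (h1 ha) with ⟨ha1, ha2⟩ | ⟨ha1, ha2⟩ <;>
      rcases PaMvD_side h (h1 hb) with ⟨hb1, hb2⟩ | ⟨hb1, hb2⟩
    · rcases ha2 with e1 | e1 <;> rcases hb2 with e2 | e2
      · exact absurd (e1.trans e2.symm) hne
      · rw [e1, e2]
        exact h.inc.1
      · rw [e1, e2]
        exact S.E_symm h.inc.1
      · exact absurd (e1.trans e2.symm) hne
    · rw [ha1, hb1] at hab
      exact Bool.noConfusion hab
    · rw [ha1, hb1] at hab
      exact Bool.noConfusion hab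
    · rcases ha2 with e1 | e1 <;> rcases hb2 with e2 | e2
      · exact absurd (e1.trans e2.symm) hne
      · rw [e1, e2]
        exact h.inc.2.1
      · rw [e1, e2]
        exact S.E_symm h.inc.2.1
      · exact absurd (e1.trans e2.symm) hne

/-- on `Z` the base colour is `t` -/
theorem Big.mxZ (h : Big G κ S v w t t' R) (hρ : Rho S t t' ρ) {q : Cq G}
    (hq : q ∈ Zb G κ v w t R) : mx κ ρ q = t := by
  obtain ⟨h1, h2, h3⟩ := h.colZ_sub hq
  refine mx_eq hρ.inj (h1 (by simp)) fun d hd => ?_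
  by_cases e : d = t
  · rw [e]
  · exact (hρ.snd d e (fun e' => h3 (by rw [← e']; exact hd))).le

/-- discs other than `{t, t'}` are those of the base rule.  If `q ∈ Q` is in `Z` then all colours of `Q`
(old rule and new rule) are in `{v, w, t, t'}` (`Big.cols_nk_Z`); the pair `{a, b}`, `E a b`, is then `{v, w}`
or `{t, t'}`; the colours of the side of `v` are not changed (`Big.mxZ`). -/
theorem mv_dis_eq (h : Big G κ S v w t t' R) (hρ : Rho S t t' ρ) {a b : C} (hab : S.E a b)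
    (hne : ({a, b} : Set C) ≠ {t, t'}) :
    XX (sd G) (nk κ ρ (Zb G κ v w t R) t') {a, b} = XX (sd G) (mx κ ρ) {a, b} := by
  -- colours of the side of `v`
  have key : ∀ (Q : Cq (sd G)) (c : C), S.side c = true →
      (c ∈ cols (nk κ ρ (Zb G κ v w t R) t') Q ↔ c ∈ cols (mx κ ρ) Q) := by
    intro Q c hc
    constructor
    · rintro ⟨r, hr, e⟩
      have hrZ : r ∉ Zb G κ v w t R := by
        intro hrZ
        rw [nk_pos hrZ] at e
        rw [← e, h.st'] at hc
        exact Bool.noConfusion hc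
      rw [nk_neg hrZ] at e
      exact ⟨r, hr, e⟩
    · rintro ⟨r, hr, e⟩
      have hrZ : r ∉ Zb G κ v w t R := by
        intro hrZ
        rw [h.mxZ hρ hrZ] at e
        rw [← e, h.st] at hc
        exact Bool.noConfusion hc
      exact ⟨r, hr, by rw [nk_neg hrZ]; exact e⟩
  have hsub : ∀ (s : Set C), ({a, b} : Set C) ⊆ s ↔ a ∈ s ∧ b ∈ s := by
    intro s
    rw [Set.insert_subset_iff, Set.singleton_subset_iff]
  ext Q
  rw [XX_iff, XX_iff, hsub, hsub]
  have hside := S.E_side hab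
  cases ha : S.side a
  · rw [ha] at hside
    by_cases hz : ∃ q ∈ Q.1, q ∈ Zb G κ v w t R
    · obtain ⟨q, hq, hqZ⟩ := hz
      obtain ⟨h1, h2⟩ := h.cols_nk_Z (ρ := ρ) hq hqZ
      have hno : ∀ s : Set C, s ⊆ {v, w, t, t'} → ¬ (a ∈ s ∧ b ∈ s) := by
        rintro s hs ⟨has, hbs⟩
        rcases PaMvD_side h (hs has) with ⟨ha1, _⟩ | ⟨_, ha2⟩
        · rw [ha1] at ha
          exact Bool.noConfusion ha
        · rcases PaMvD_side h (hs hbs) with ⟨hb1, _⟩ | ⟨_, hb2⟩
          · rw [hb1] at hside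
            exact Bool.noConfusion hside
          · have hab' := S.E_ne hab
            rcases ha2 with e1 | e1 <;> rcases hb2 with e2 | e2
            · exact hab' (e1.trans e2.symm)
            · exact hne (by rw [e1, e2])
            · exact hne (by rw [e1, e2, Set.pair_comm])
            · exact hab' (e1.trans e2.symm)
      exact ⟨fun h3 => absurd h3 (hno _ h1), fun h3 => absurd h3 (hno _ h2)⟩
    · have he : cols (nk κ ρ (Zb G κ v w t R) t') Q = cols (mx κ ρ) Q := by
        ext c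
        constructor
        · rintro ⟨r, hr, e⟩
          rw [nk_neg (fun hrZ => hz ⟨r, hr, hrZ⟩)] at e
          exact ⟨r, hr, e⟩
        · rintro ⟨r, hr, e⟩
          exact ⟨r, hr, by rw [nk_neg (fun hrZ => hz ⟨r, hr, hrZ⟩)]; exact e⟩
      rw [he]
  · rw [ha] at hside
    rw [key Q a ha, key Q b hside.symm]

theorem mv_dis (hP : Pre G κ S) (h : Big G κ S v w t t' R) (hρ : Rho S t t' ρ) {a b : C}
    (hab : S.E a b) (hne : ({a, b} : Set C) ≠ {t, t'}) :
    Conn (sd (sd G)) (XX (sd G) (nk κ ρ (Zb G κ v w t R) t') {a, b}) ∧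
      HZ (sd (sd G)) (XX (sd G) (nk κ ρ (Zb G κ v w t R) t') {a, b}) := by
  rw [mv_dis_eq h hρ hab hne]
  exact ⟨base_Conn hρ.inj ⟨a, Or.inl rfl⟩ (hP.dconn a b hab),
    base_HZ hρ.inj ⟨a, Or.inl rfl⟩ (hP.dhz a b hab)⟩

end MOT.Pa
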