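import Pool.Agent.MOT.PaFib
import Pool.Agent.MOT.PaMvD
import Pool.Agent.MOT.Sdi
import Pool.Agent.MOT.MV

/-!
# MOT/PaMvE: the bigon move, the disc `{t, t'}` (block I)

`κ' := nk κ ρ Z t'`.  `κ' q = t` iff `t ∈ cols κ q`, `t' ∉ cols κ q`, `q ∉ Z`; `κ' q = t'` iff `t' ∈ cols κ q` or
`q ∈ Z`.  So `XX (sd G) κ' {t, t'} = U1 ∪ U2`, both closed upwards.
-/

open Classical

noncomputable section

namespace MOT.Pa

variable {V C W : Type} {G : SimpleGraph V} {κ : V → C} {S : Sys C} {ρ : C → ℕ}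
  {v w t t' : C} {R : Set (Cq G)}

/-- chains with an element of new colour `t` and an element with old colour `t'` -/
def U1 (G : SimpleGraph V) (κ : V → C) (ρ : C → ℕ) (v w t t' : C) (R : Set (Cq G)) :
    Set (Cq (sd G)) :=
  {Q | (∃ q ∈ Q.1, nk κ ρ (Zb G κ v w t R) t' q = t) ∧ ∃ q ∈ Q.1, t' ∈ cols κ q}

/-- chains with an element of new colour `t` and an element of `Z` -/
def U2 (G : SimpleGraph V) (κ : V → C) (ρ : C → ℕ) (v w t t' : C) (R : Set (Cq G)) :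
    Set (Cq (sd G)) :=
  {Q | (∃ q ∈ Q.1, nk κ ρ (Zb G κ v w t R) t' q = t) ∧ ∃ q ∈ Q.1, q ∈ Zb G κ v w t R}

theorem Big.nk_t (h : Big G κ S v w t t' R) (hρ : Rho S t t' ρ) {q : Cq G} :
    nk κ ρ (Zb G κ v w t R) t' q = t ↔
      t ∈ cols κ q ∧ t' ∉ cols κ q ∧ q ∉ Zb G κ v w t R := by
  constructor
  · intro e
    by_cases hZ : q ∈ Zb G κ v w t R
    · rw [nk_pos hZ] at e
      exact absurd e.symm h.ne_tt
    · rw [nk_neg hZ] at e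
      refine ⟨e ▸ mx_mem q, fun h1 => ?_, hZ⟩
      have h2 : ρ t' ≤ ρ (mx κ ρ q) := mx_max h1
      rw [e] at h2
      exact absurd (hρ.top t h.ne_tt) (not_lt.2 h2)
  · rintro ⟨h1, h2, h3⟩
    rw [nk_neg h3]
    refine mx_eq hρ.inj h1 fun d hd => ?_
    by_cases e : d = t
    · rw [e]
    · exact (hρ.snd d e (fun e' => h2 (e' ▸ hd))).le

theorem Big.nk_t' (h : Big G κ S v w t t' R) (hρ : Rho S t t' ρ) {q : Cq G} :
    nk κ ρ (Zb G κ v w t R) t' q = t' ↔ t' ∈ cols κ q ∨ q ∈ Zb G κ v w t R := by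
  constructor
  · intro e
    by_cases hZ : q ∈ Zb G κ v w t R
    · exact Or.inr hZ
    · rw [nk_neg hZ] at e
      exact Or.inl (e ▸ mx_mem q)
  · intro h1
    by_cases hZ : q ∈ Zb G κ v w t R
    · exact nk_pos hZ
    · rw [nk_neg hZ]
      refine mx_eq hρ.inj (h1.resolve_right hZ) fun d hd => ?_
      by_cases e : d = t'
      · rw [e]
      · exact (hρ.top d e).le

theorem Big.disc_eq (h : Big G κ S v w t t' R) (hρ : Rho S t t' ρ) :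
    XX (sd G) (nk κ ρ (Zb G κ v w t R) t') {t, t'} = U1 G κ ρ v w t t' R ∪ U2 G κ ρ v w t t' R := by
  ext Q
  constructor
  · intro hQ
    have h1 : ∃ q ∈ Q.1, nk κ ρ (Zb G κ v w t R) t' q = t := hQ t (by simp)
    obtain ⟨q, hq, e⟩ : ∃ q ∈ Q.1, nk κ ρ (Zb G κ v w t R) t' q = t' := hQ t' (by simp)
    rcases (h.nk_t' hρ).1 e with h2 | h2
    · exact Or.inl ⟨h1, q, hq, h2⟩
    · exact Or.inr ⟨h1, q, hq, h2⟩
  · intro hQ c hc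
    have hc' : c = t ∨ c = t' := by simpa using hc
    rcases hQ with ⟨h1, q, hq, h2⟩ | ⟨h1, q, hq, h2⟩
    · rcases hc' with rfl | rfl
      · exact h1
      · exact ⟨q, hq, (h.nk_t' hρ).2 (Or.inl h2)⟩
    · rcases hc' with rfl | rfl
      · exact h1
      · exact ⟨q, hq, (h.nk_t' hρ).2 (Or.inr h2)⟩

/-! ### chains -/

/-- add an upper bound to a chain -/
private def insE (q0 : Cq G) (Q : Cq (sd G)) : Cq (sd G) :=
  if h : ∀ q ∈ Q.1, q ≤ q0 then ⟨insert q0 Q.1, Finset.insert_nonempty _ _, by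
    intro x hx y hy hxy
    rcases Finset.mem_insert.1 (Finset.mem_coe.1 hx) with rfl | hx'
    · rcases Finset.mem_insert.1 (Finset.mem_coe.1 hy) with rfl | hy'
      · exact absurd rfl hxy
      · exact Or.inr (lt_of_le_of_ne (h y hy') (Ne.symm hxy))
    · rcases Finset.mem_insert.1 (Finset.mem_coe.1 hy) with rfl | hy'
      · exact Or.inl (lt_of_le_of_ne (h x hx') hxy)
      · exact Q.2.2 (Finset.mem_coe.2 hx') (Finset.mem_coe.2 hy') hxy⟩ else Q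

private theorem insE_mem {q0 : Cq G} {Q : Cq (sd G)} (h : ∀ q ∈ Q.1, q ≤ q0) {q : Cq G} :
    q ∈ (insE q0 Q).1 ↔ q = q0 ∨ q ∈ Q.1 := by
  unfold insE
  rw [dif_pos h]
  exact Finset.mem_insert

/-- part of a chain -/
private def filE (D : Set (Cq G)) (Q : Cq (sd G)) : Cq (sd G) :=
  if h : (Q.1.filter (fun q => q ∈ D)).Nonempty then ⟨Q.1.filter (fun q => q ∈ D), h, by
    intro x hx y hy hxy
    exact Q.2.2 (Finset.mem_coe.2 (Finset.mem_filter.1 (Finset.mem_coe.1 hx)).1)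
      (Finset.mem_coe.2 (Finset.mem_filter.1 (Finset.mem_coe.1 hy)).1) hxy⟩ else Q

private theorem filE_mem {D : Set (Cq G)} {Q : Cq (sd G)} (h : ∃ q ∈ Q.1, q ∈ D) {q : Cq G} :
    q ∈ (filE D Q).1 ↔ q ∈ Q.1 ∧ q ∈ D := by
  obtain ⟨r, hr, hrD⟩ := h
  unfold filE
  rw [dif_pos ⟨r, Finset.mem_filter.2 ⟨hr, hrD⟩⟩]
  exact Finset.mem_filter

private theorem tp_le_iff {Q : Cq (sd G)} {q0 : Cq G} : tp Q ≤ q0 ↔ ∀ q ∈ Q.1, q ≤ q0 :=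
  ⟨fun h _ hq => (le_tp hq).trans h, fun h => h _ (tp_mem Q)⟩

/-- the elements of new colour `t` below `q0` -/
private theorem D_ok (h : Big G κ S v w t t' R) (hρ : Rho S t t' ρ) {q0 : Cq G}
    (h0 : {t, t'} ⊆ cols κ q0) :
    Conn (sd G) {q | q < q0 ∧ nk κ ρ (Zb G κ v w t R) t' q = t} ∧
      HZ (sd G) {q | q < q0 ∧ nk κ ρ (Zb G κ v w t R) t' q = t} := by
  have ht0 : t ∈ cols κ q0 := h0 (by simp)
  have ht0' : t' ∈ cols κ q0 := h0 (by simp)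
  have hsub : {q : Cq G | q < q0 ∧ cols κ q = {t}} ⊆
      {q | q < q0 ∧ nk κ ρ (Zb G κ v w t R) t' q = t} := by
    rintro q ⟨h1, h2⟩
    refine ⟨h1, (h.nk_t hρ).2 ⟨by rw [h2]; rfl, ?_, ?_⟩⟩
    · rw [h2]
      exact fun e => h.ne_tt e.symm
    · intro hZ
      have h3 := (h.colZ_sub hZ).1 (show v ∈ ({v, t} : Set C) by simp)
      rw [h2] at h3
      exact h.ne_vt h3
  have hr2 : ∀ q ∈ {q : Cq G | q < q0 ∧ nk κ ρ (Zb G κ v w t R) t' q = t},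
      tc κ {t} q ∈ {q : Cq G | q < q0 ∧ cols κ q = {t}} := by
    rintro q ⟨h1, h2⟩
    refine ⟨lt_of_le_of_lt (tc_le q _) h1, tc_cols_sub ⟨t, rfl⟩ ?_⟩
    intro c hc
    rw [show c = t from hc]
    exact ((h.nk_t hρ).1 h2).1
  have hr4 : ∀ q ∈ {q : Cq G | q < q0 ∧ nk κ ρ (Zb G κ v w t R) t' q = t},
      ∀ r ∈ {q : Cq G | q < q0 ∧ nk κ ρ (Zb G κ v w t R) t' q = t}, q ≤ r →
      tc κ {t} q ≤ tc κ {t} r := by
    rintro q ⟨h1, h2⟩ r _ hqr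
    exact tc_mono ⟨t, ((h.nk_t hρ).1 h2).1, rfl⟩ hqr
  have hm : tc κ {t} q0 ∈ {q : Cq G | q < q0 ∧ cols κ q = {t}} := by
    have e : cols κ (tc κ {t} q0) = {t} := by
      refine tc_cols_sub ⟨t, rfl⟩ ?_
      intro c hc
      rw [show c = t from hc]
      exact ht0
    refine ⟨lt_of_le_of_ne (tc_le q0 _) ?_, e⟩
    intro e'
    rw [e'] at e
    rw [e] at ht0'
    exact h.ne_tt ht0'.symm
  have htop : ∀ q ∈ {q : Cq G | q < q0 ∧ cols κ q = {t}}, q ≤ tc κ {t} q0 := by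
    rintro q ⟨h1, h2⟩
    exact le_tc h1.le h2.le
  constructor
  · exact (ret_Conn (tc κ {t}) hsub hr2 (fun q _ => tc_le q _) hr4).2 (top_Conn hm htop)
  · exact (ret_HZ (tc κ {t}) hsub hr2 (fun q _ => tc_le q _) hr4
      (fun q hq => tc_id hq.2.le)).2 (top_HZ hm htop)

/-- the fibre of `tp : U1 → XX G κ {t, t'}` over `q0` -/
private theorem U1_fib (h : Big G κ S v w t t' R) (hρ : Rho S t t' ρ) {q0 : Cq G}
    (h0 : {t, t'} ⊆ cols κ q0) :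
    Conn (sd (sd G)) {Q | Q ∈ U1 G κ ρ v w t t' R ∧ tp Q ≤ q0} ∧
      HZ (sd (sd G)) {Q | Q ∈ U1 G κ ρ v w t t' R ∧ tp Q ≤ q0} := by
  obtain ⟨dc, dz⟩ := D_ok h hρ h0
  have ht0' : t' ∈ cols κ q0 := h0 (by simp)
  have hn0 : nk κ ρ (Zb G κ v w t R) t' q0 = t' := (h.nk_t' hρ).2 (Or.inl ht0')
  -- the set of elements of new colour `t` below `q0`
  have hlt : ∀ q : Cq G, q ≤ q0 → nk κ ρ (Zb G κ v w t R) t' q = t →
      q ∈ {q | q < q0 ∧ nk κ ρ (Zb G κ v w t R) t' q = t} := by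
    intro q h1 h2
    refine ⟨lt_of_le_of_ne h1 ?_, h2⟩
    rintro rfl
    rw [hn0] at h2
    exact h.ne_tt h2.symm
  generalize hD : {q | q < q0 ∧ nk κ ρ (Zb G κ v w t R) t' q = t} = D at dc dz hlt
  have hDlt : ∀ q ∈ D, q < q0 := by
    rw [← hD]
    exact fun q hq => hq.1
  have hDt : ∀ q ∈ D, nk κ ρ (Zb G κ v w t R) t' q = t := by
    rw [← hD]
    exact fun q hq => hq.2
  have hex : ∀ Q ∈ {Q | Q ∈ U1 G κ ρ v w t t' R ∧ tp Q ≤ q0}, ∃ q ∈ Q.1, q ∈ D := by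
    rintro Q ⟨⟨⟨q, hq, e⟩, _⟩, h2⟩
    exact ⟨q, hq, hlt q (tp_le_iff.1 h2 q hq) e⟩
  have hm : ∀ Q ∈ {Q | Q ∈ U1 G κ ρ v w t t' R ∧ tp Q ≤ q0},
      ∀ Q' ∈ {Q | Q ∈ U1 G κ ρ v w t t' R ∧ tp Q ≤ q0}, Q ≤ Q' → filE D Q ≤ filE D Q' := by
    intro Q hQ Q' hQ' hle
    refine Cq.le_iff.2 fun q hq => ?_
    rw [filE_mem (hex Q hQ)] at hq
    rw [filE_mem (hex Q' hQ')]
    exact ⟨Cq.le_iff.1 hle hq.1, hq.2⟩
  have hp : ∀ Q ∈ {Q | Q ∈ U1 G κ ρ v w t t' R ∧ tp Q ≤ q0}, filE D Q ∈ mi (sd G) D := by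
    intro Q hQ q hq
    rw [filE_mem (hex Q hQ)] at hq
    exact hq.2
  -- fibres of `filE D`
  have hf : ∀ T ∈ mi (sd G) D,
      Conn (sd (sd G)) {Q | Q ∈ {Q | Q ∈ U1 G κ ρ v w t t' R ∧ tp Q ≤ q0} ∧ T ≤ filE D Q} ∧
        HZ (sd (sd G)) {Q | Q ∈ {Q | Q ∈ U1 G κ ρ v w t t' R ∧ tp Q ≤ q0} ∧
          T ≤ filE D Q} := by
    intro T hT
    have hT0 : ∀ q ∈ T.1, q ≤ q0 := fun q hq => (hDlt q (hT q hq)).le
    have hiff : ∀ Q ∈ {Q | Q ∈ U1 G κ ρ v w t t' R ∧ tp Q ≤ q0}, (T ≤ filE D Q ↔ T ≤ Q) := by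
      intro Q hQ
      constructor
      · intro h1
        refine Cq.le_iff.2 fun q hq => ?_
        exact ((filE_mem (hex Q hQ)).1 (Cq.le_iff.1 h1 hq)).1
      · intro h1
        refine Cq.le_iff.2 fun q hq => ?_
        exact (filE_mem (hex Q hQ)).2 ⟨Cq.le_iff.1 h1 hq, hT q hq⟩
    have hin : ∀ Q ∈ {Q | Q ∈ {Q | Q ∈ U1 G κ ρ v w t t' R ∧ tp Q ≤ q0} ∧ T ≤ filE D Q},
        insE q0 Q ∈ {Q | (Q ∈ {Q | Q ∈ U1 G κ ρ v w t t' R ∧ tp Q ≤ q0} ∧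
          T ≤ filE D Q) ∧ q0 ∈ Q.1} := by
      rintro Q ⟨hQ, h1⟩
      have hb : ∀ q ∈ Q.1, q ≤ q0 := tp_le_iff.1 hQ.2
      have hQ' : insE q0 Q ∈ {Q | Q ∈ U1 G κ ρ v w t t' R ∧ tp Q ≤ q0} := by
        obtain ⟨⟨⟨q, hq, e⟩, ⟨r, hr, er⟩⟩, h2⟩ := hQ
        refine ⟨⟨⟨q, (insE_mem hb).2 (Or.inr hq), e⟩, ⟨r, (insE_mem hb).2 (Or.inr hr), er⟩⟩, ?_⟩
        refine tp_le_iff.2 fun s hs => ?_
        rcases (insE_mem hb).1 hs with rfl | hs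
        · exact le_rfl
        · exact hb s hs
      refine ⟨⟨hQ', (hiff _ hQ').2 ?_⟩, (insE_mem hb).2 (Or.inl rfl)⟩
      have h2 := (hiff _ hQ).1 h1
      exact Cq.le_iff.2 fun q hq => (insE_mem hb).2 (Or.inr (Cq.le_iff.1 h2 hq))
    have hsub : {Q | (Q ∈ {Q | Q ∈ U1 G κ ρ v w t t' R ∧ tp Q ≤ q0} ∧ T ≤ filE D Q) ∧
        q0 ∈ Q.1} ⊆ {Q | Q ∈ {Q | Q ∈ U1 G κ ρ v w t t' R ∧ tp Q ≤ q0} ∧ T ≤ filE D Q} :=
      fun Q hQ => hQ.1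
    have hle : ∀ Q ∈ {Q | Q ∈ {Q | Q ∈ U1 G κ ρ v w t t' R ∧ tp Q ≤ q0} ∧ T ≤ filE D Q},
        Q ≤ insE q0 Q := by
      rintro Q ⟨hQ, _⟩
      exact Cq.le_iff.2 fun q hq => (insE_mem (tp_le_iff.1 hQ.2)).2 (Or.inr hq)
    have hmono : ∀ Q ∈ {Q | Q ∈ {Q | Q ∈ U1 G κ ρ v w t t' R ∧ tp Q ≤ q0} ∧ T ≤ filE D Q},
        ∀ Q' ∈ {Q | Q ∈ {Q | Q ∈ U1 G κ ρ v w t t' R ∧ tp Q ≤ q0} ∧ T ≤ filE D Q},
        Q ≤ Q' → insE q0 Q ≤ insE q0 Q' := by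
      rintro Q ⟨hQ, _⟩ Q' ⟨hQ', _⟩ h1
      refine Cq.le_iff.2 fun q hq => ?_
      rw [insE_mem (tp_le_iff.1 hQ'.2)]
      rcases (insE_mem (tp_le_iff.1 hQ.2)).1 hq with e | h2
      · exact Or.inl e
      · exact Or.inr (Cq.le_iff.1 h1 h2)
    -- the least element
    have hTU : insE q0 T ∈ {Q | Q ∈ U1 G κ ρ v w t t' R ∧ tp Q ≤ q0} := by
      obtain ⟨q, hq⟩ := T.2.1
      refine ⟨⟨⟨q, (insE_mem hT0).2 (Or.inr hq), hDt q (hT q hq)⟩,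
        ⟨q0, (insE_mem hT0).2 (Or.inl rfl), ht0'⟩⟩, ?_⟩
      refine tp_le_iff.2 fun s hs => ?_
      rcases (insE_mem hT0).1 hs with rfl | hs
      · exact le_rfl
      · exact hT0 s hs
    have hbm : insE q0 T ∈ {Q | (Q ∈ {Q | Q ∈ U1 G κ ρ v w t t' R ∧ tp Q ≤ q0} ∧
        T ≤ filE D Q) ∧ q0 ∈ Q.1} := by
      refine ⟨⟨hTU, (hiff _ hTU).2 ?_⟩, (insE_mem hT0).2 (Or.inl rfl)⟩
      exact Cq.le_iff.2 fun q hq => (insE_mem hT0).2 (Or.inr hq)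
    have hbot : ∀ Q ∈ {Q | (Q ∈ {Q | Q ∈ U1 G κ ρ v w t t' R ∧ tp Q ≤ q0} ∧
        T ≤ filE D Q) ∧ q0 ∈ Q.1}, insE q0 T ≤ Q := by
      rintro Q ⟨⟨hQ, h1⟩, h2⟩
      refine Cq.le_iff.2 fun q hq => ?_
      rcases (insE_mem hT0).1 hq with rfl | hq
      · exact h2
      · exact Cq.le_iff.1 ((hiff _ hQ).1 h1) hq
    have hid : ∀ Q ∈ {Q | (Q ∈ {Q | Q ∈ U1 G κ ρ v w t t' R ∧ tp Q ≤ q0} ∧
        T ≤ filE D Q) ∧ q0 ∈ Q.1}, insE q0 Q = Q := by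
      rintro Q ⟨hQ, h2⟩
      refine le_antisymm ?_ (hle Q hQ)
      refine Cq.le_iff.2 fun q hq => ?_
      rcases (insE_mem (tp_le_iff.1 hQ.1.2)).1 hq with rfl | hq
      · exact h2
      · exact hq
    constructor
    · exact (retu_Conn (insE q0) hsub hin hle hmono).2 (bot_Conn hbm hbot)
    · exact (retu_HZ (insE q0) hsub hin hle hmono hid).2 (bot_HZ hbm hbot)
  constructor
  · exact fib_Conn (filE D) hm hp (fun T hT => (hf T hT).1) (sd_Conn.2 dc)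
  · exact fib_HZ (filE D) hm hp hf (sd_HZ.2 dz)

/-- `U1` is the old disc: fibre lemma `fibd_*` for `tp : U1 → XX G κ {t, t'}`.  Fibre over `q0`: add `q0`
(upwards), remove all other elements with the colour `t'` and all elements which have neither new
colour `t` nor colour `t'` (downwards); what remains is `T ∪ {q0}`, `T` a nonempty chain of elements
`q < q0` of new colour `t`: retracts (`q ↦ tc {t} q`, elementwise, or: this set is a copy of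
`mi (sd G) {q | q < q0, new colour t}` and `sd_Conn`, `sd_HZ`, `ret_*` with `q ↦ tc {t} q`, greatest element
`tc {t} q0`). -/
theorem U1_ok (hP : Pre G κ S) (h : Big G κ S v w t t' R) (hρ : Rho S t t' ρ) :
    Conn (sd (sd G)) (U1 G κ ρ v w t t' R) ∧ HZ (sd (sd G)) (U1 G κ ρ v w t t' R) := by
  have hm : ∀ Q ∈ U1 G κ ρ v w t t' R, ∀ Q' ∈ U1 G κ ρ v w t t' R, Q ≤ Q' → tp Q ≤ tp Q' :=
    fun Q _ Q' _ hle => tp_mono hle
  have hp : ∀ Q ∈ U1 G κ ρ v w t t' R, tp Q ∈ XX G κ {t, t'} := by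
    rintro Q ⟨⟨q, hq, e⟩, ⟨r, hr, er⟩⟩
    refine XX_iff.2 fun c hc => ?_
    have hc' : c = t ∨ c = t' := by simpa using hc
    rcases hc' with rfl | rfl
    · exact cols_mono (le_tp hq) ((h.nk_t hρ).1 e).1
    · exact cols_mono (le_tp hr) er
  have hf : ∀ q0 ∈ XX G κ {t, t'},
      Conn (sd (sd G)) {Q | Q ∈ U1 G κ ρ v w t t' R ∧ tp Q ≤ q0} ∧
        HZ (sd (sd G)) {Q | Q ∈ U1 G κ ρ v w t t' R ∧ tp Q ≤ q0} :=
    fun q0 hq0 => U1_fib h hρ (XX_iff.1 hq0)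
  constructor
  · exact fibd_Conn tp hm hp (fun q0 hq0 => (hf q0 hq0).1) (hP.dconn t t' h.inc.2.1)
  · exact fibd_HZ tp hm hp hf (hP.dhz t t' h.inc.2.1)

end MOT.Pa
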