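import Pool.Agent.MOT.PaBig
import Pool.Agent.MOT.Sdi

/-!
# MOT/PaMvR: the bigon move, regions of the colours other than `t'` (block I)
-/

open Classical

noncomputable section

namespace MOT.Pa

variable {V C W : Type} {G : SimpleGraph V} {κ : V → C} {S : Sys C} {ρ : C → ℕ}
  {v w t t' : C} {R : Set (Cq G)}

/-- the new region of `c ≠ t'` lies between `mi` and `pl` of the old one (`Z` has the two colours
`v`, `t`, so it misses `mi (cs κ c)`) -/
theorem Big.bt (h : Big G κ S v w t t' R) {c : C} (hc : c ≠ t') :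
    mi G (cs κ c) ⊆ cs (nk κ ρ (Zb G κ v w t R) t') c ∧
      cs (nk κ ρ (Zb G κ v w t R) t') c ⊆ pl G (cs κ c) := by
  constructor
  · intro q hq
    have hq' : ∀ x ∈ q.1, κ x = c := hq
    have hone : ∀ d ∈ cols κ q, d = c := by
      rintro d ⟨x, hx, rfl⟩
      exact hq' x hx
    have hZ : q ∉ Zb G κ v w t R := by
      intro hqZ
      have h1 := (h.colZ_sub hqZ).1
      have h2 : v ∈ cols κ q := h1 (by simp)
      have h3 : t ∈ cols κ q := h1 (by simp)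
      exact h.ne_vt ((hone v h2).trans (hone t h3).symm)
    show nk κ ρ (Zb G κ v w t R) t' q = c
    rw [nk_neg hZ]
    exact hone _ (mx_mem q)
  · intro q hq
    have hq' : nk κ ρ (Zb G κ v w t R) t' q = c := hq
    have hZ : q ∉ Zb G κ v w t R := by
      intro hqZ
      rw [nk_pos hqZ] at hq'
      exact hc hq'.symm
    rw [nk_neg hZ] at hq'
    obtain ⟨x, hx, e⟩ := mx_mem (κ := κ) (ρ := ρ) q
    exact ⟨x, hx, e.trans hq'⟩

/-- use `bt_Conn`, `bt_HZ`, `bt_compl` of `MOT/Sdi` -/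
theorem mv_reg (hP : Pre G κ S) (h : Big G κ S v w t t' R) {c : C} (hc : c ≠ t') :
    Conn (sd G) (cs (nk κ ρ (Zb G κ v w t R) t') c) ∧
      HZ (sd G) (cs (nk κ ρ (Zb G κ v w t R) t') c) ∧
      Conn (sd G) (cs (nk κ ρ (Zb G κ v w t R) t') c)ᶜ ∧
      HZ (sd G) (cs (nk κ ρ (Zb G κ v w t R) t') c)ᶜ := by
  obtain ⟨h1, h2⟩ := h.bt (ρ := ρ) hc
  obtain ⟨h3, h4⟩ := bt_compl h1 h2
  exact ⟨(bt_Conn h1 h2).2 (hP.conn c), (bt_HZ h1 h2).2 (hP.hz c),
    (bt_Conn h3 h4).2 (hP.cconn c), (bt_HZ h3 h4).2 (hP.chz c)⟩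

/-- the region of `t'` -/
theorem Big.cs_top (h : Big G κ S v w t t' R) (hρ : Rho S t t' ρ) :
    cs (nk κ ρ (Zb G κ v w t R) t') t' = pl G (cs κ t') ∪ Zb G κ v w t R := by
  ext q
  constructor
  · intro hq
    have hq' : nk κ ρ (Zb G κ v w t R) t' q = t' := hq
    by_cases hZ : q ∈ Zb G κ v w t R
    · exact Or.inr hZ
    · rw [nk_neg hZ] at hq'
      obtain ⟨x, hx, e⟩ := mx_mem (κ := κ) (ρ := ρ) q
      exact Or.inl ⟨x, hx, e.trans hq'⟩
  · intro hq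
    show nk κ ρ (Zb G κ v w t R) t' q = t'
    by_cases hZ : q ∈ Zb G κ v w t R
    · exact nk_pos hZ
    · rw [nk_neg hZ]
      rcases hq with ⟨x, hx, e⟩ | hq
      · refine mx_eq hρ.inj ⟨x, hx, e⟩ fun d _ => ?_
        by_cases hd : d = t'
        · rw [hd]
        · exact (hρ.top d hd).le
      · exact absurd hq hZ

theorem Big.cs_topc (h : Big G κ S v w t t' R) (hρ : Rho S t t' ρ) :
    (cs (nk κ ρ (Zb G κ v w t R) t') t')ᶜ = mi G (cs κ t')ᶜ \ Zb G κ v w t R := by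
  rw [h.cs_top hρ]
  ext q
  constructor
  · intro hq
    exact ⟨fun x hx hxt => hq (Or.inl ⟨x, hx, hxt⟩), fun hZ => hq (Or.inr hZ)⟩
  · rintro ⟨h1, h2⟩ (⟨x, hx, hxt⟩ | hZ)
    · exact h1 x hx hxt
    · exact h2 hZ

end MOT.Pa
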