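import Pool.Agent.MOT.PaMvR
import Pool.Agent.MOT.Joi

/-!
# MOT/PaMvT: the bigon move, the region of `t'` (block I)
-/

open Classical

noncomputable section

namespace MOT.Pa

variable {V C W : Type} {G : SimpleGraph V} {κ : V → C} {S : Sys C} {ρ : C → ℕ}
  {v w t t' : C} {R : Set (Cq G)}

/-- cocycle relation on a chain, degenerate cases included -/
private theorem z1_chain {P : Type} [PartialOrder P] {A : Set P} {a : P → P → ZMod 2}
    (ha : a ∈ Z1 (cmp P) A) {x y z : P} (hx : x ∈ A) (hy : y ∈ A) (hz : z ∈ A)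
    (h1 : x ≤ y) (h2 : y ≤ z) : a x y + a y z = a x z := by
  obtain ⟨h0, hs, hc⟩ := mem_Z1.1 ha
  have hxx : ∀ u, a u u = 0 := fun u => h0 u u (fun e => (cmp P).irrefl e.1)
  by_cases e1 : x = y
  · rw [e1, hxx, zero_add]
  · by_cases e2 : y = z
    · rw [e2, hxx, add_zero]
    · have l1 : x < y := lt_of_le_of_ne h1 e1
      have l2 : y < z := lt_of_le_of_ne h2 e2
      exact hc x y z ⟨Or.inl l1, hx, hy⟩ ⟨Or.inl l2, hy, hz⟩ ⟨Or.inl (l1.trans l2), hx, hz⟩

private theorem pot_le {P : Type} [PartialOrder P] {A B : Set P} {a : P → P → ZMod 2}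
    (ha : a ∈ Z1 (cmp P) A) {f : P → ZMod 2} (hf : ∀ x y, EIn (cmp P) B x y → a x y = f x + f y)
    {x y : P} (hx : x ∈ B) (hy : y ∈ B) (h1 : x ≤ y) : a x y = f x + f y := by
  obtain ⟨h0, hs, hc⟩ := mem_Z1.1 ha
  by_cases e1 : x = y
  · rw [e1, two_add]
    exact h0 y y (fun e => (cmp P).irrefl e.1)
  · exact hf x y ⟨Or.inl (lt_of_le_of_ne h1 e1), hx, hy⟩

/-- linear algebra modulo 2 of the two triangles -/
private theorem alg_u {A B C D E f f' g g' : ZMod 2} (h1 : A + B = C) (h2 : D + E = C)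
    (h3 : B = f + f') (h4 : D = g + g') : f + g + A = f' + g' + E := by
  subst h3 h4
  have h5 : A + (f + f') = g + g' + E := h1.trans h2.symm
  have e1 := two_add f'
  have e2 := two_add g
  calc f + g + A = (A + (f + f')) + g + f' := by
        have : A + (f + f') + g + f' = f + g + A + (f' + f') := by ring
        rw [this, e1, add_zero]
    _ = (g + g' + E) + g + f' := by rw [h5]
    _ = f' + g' + E := by
        have : g + g' + E + g + f' = f' + g' + E + (g + g) := by ring
        rw [this, e2, add_zero]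

/-- the region of `t'` after the move: `pl G (cs κ t') ∪ Z`.
Sketch.  `Conn`: both parts are connected (`bt_Conn`, `Big.Z_Conn`) and adjacent (`h.pts`: there is
`p ∈ nbr R` with colour `t'`).  `HZ`: let `a ∈ Z1`; `a = df` on `pl (cs κ t')` (`bt_HZ`), `a = dg` on `Z`
(`Big.Z_HZ`).  All edges between the two parts are pairs `q < r`, `q ∈ Z`, `r ∈ aI` (`Big.up`; a simplex
below `q ∈ Z` does not have the colour `t'`).  For `r ∈ aI` put `m r := tc κ {v, w, t} r`: it is in `Z`
(`Big.down`), it is the greatest element of `Z` below `r`; `m` is monotone on `aI`.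
`u r := f r + g (m r) + a (m r) r` is locally constant on `aI` (triangles `m r ≤ m r' < r'`,
`m r < r ≤ r'`), `aI` is connected (`h.aconn`), so `u = c`.  For `q < r`, `q ∈ Z`: triangle `q ≤ m r < r`
gives `f r + g q + a q r = c`.  Potential: `f` on `pl`, `g + c` on `Z`. -/
theorem mv_top (hP : Pre G κ S) (h : Big G κ S v w t t' R) :
    Conn (sd G) (pl G (cs κ t') ∪ Zb G κ v w t R) ∧
      HZ (sd G) (pl G (cs κ t') ∪ Zb G κ v w t R) := by
  have hPt : ∀ {q : Cq G}, q ∈ pl G (cs κ t') ↔ t' ∈ cols κ q := fun {q} => Iff.rfl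
  have hZt : ∀ {q : Cq G}, q ∈ Zb G κ v w t R → t' ∉ cols κ q := fun hq => (h.colZ_sub hq).2.2
  have hPC : Conn (sd G) (pl G (cs κ t')) := (bt_Conn mi_sub_pl subset_rfl).2 (hP.conn t')
  have hPH : HZ (sd G) (pl G (cs κ t')) := (bt_HZ mi_sub_pl subset_rfl).2 (hP.hz t')
  constructor
  · have hne : (nbr R ∩ Ex G κ {v, w, t, t'}).Nonempty := by
      rw [← Set.ncard_pos (Set.finite_of_ncard_ne_zero (by rw [h.pts]; norm_num)), h.pts]
      norm_num
    obtain ⟨p, ⟨_, q, hq, hqp⟩, hp⟩ := hne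
    have hp' : cols κ p = {v, w, t, t'} := hp
    refine conn_union_adj hPC h.Z_Conn (x := p) (y := q) (hPt.2 ?_) (Or.inl hq) (Or.inr hqp)
    rw [hp']; simp
  · intro a ha
    obtain ⟨h0, hs, hc⟩ := mem_Z1.1 ha
    obtain ⟨f, hf⟩ := Triv_rs.1 (hPH _ (rs_mem (B := pl G (cs κ t')) Set.subset_union_left ha))
    obtain ⟨g, hg⟩ := Triv_rs.1 (h.Z_HZ _ (rs_mem (B := Zb G κ v w t R) Set.subset_union_right ha))
    have haI : ∀ r ∈ aI G κ v w t t' R, t' ∈ cols κ r ∧ v ∈ cols κ r := by
      rintro r ⟨_, h1 | h1⟩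
      · have h1' : cols κ r = {v, t, t'} := h1
        rw [h1']; simp
      · have h1' : cols κ r = {v, w, t, t'} := h1
        rw [h1']; simp
    have hv3 : v ∈ ({v, w, t} : Set C) := by simp
    have hmle : ∀ r : Cq G, tc κ {v, w, t} r ≤ r := fun r => tc_le r _
    have hm : ∀ r ∈ aI G κ v w t t' R, tc κ {v, w, t} r ∈ Zb G κ v w t R := by
      intro r hr
      obtain ⟨ht', hv⟩ := haI r hr
      obtain ⟨⟨_, q, hq, hqr⟩, _⟩ := hr
      have hqc : cols κ q ⊆ {v, w, t} := (h.colZ_sub (Or.inl hq)).2.1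
      have h1 : q ≤ tc κ {v, w, t} r := le_tc hqr.le hqc
      rcases h.up (Or.inl hq) h1 with h2 | h2
      · exact h2
      · exfalso
        have h3 := (haI _ h2).1
        rw [tc_cols ⟨v, hv, hv3⟩] at h3
        have h4 := h3.2
        simp only [Set.mem_insert_iff, Set.mem_singleton_iff] at h4
        rcases h4 with e | e | e
        · exact h.ne_vt' e.symm
        · exact h.ne_wt' e.symm
        · exact h.ne_tt e.symm
    have hu : ∀ r ∈ aI G κ v w t t' R, ∀ r' ∈ aI G κ v w t t' R, r ≤ r' →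
        f r + g (tc κ {v, w, t} r) + a (tc κ {v, w, t} r) r =
          f r' + g (tc κ {v, w, t} r') + a (tc κ {v, w, t} r') r' := by
      intro r hr r' hr' hrr
      have hP1 : r ∈ pl G (cs κ t') := hPt.2 (haI r hr).1
      have hP2 : r' ∈ pl G (cs κ t') := hPt.2 (haI r' hr').1
      have hZ1 := hm r hr
      have hZ2 := hm r' hr'
      have hmm : tc κ {v, w, t} r ≤ tc κ {v, w, t} r' := tc_mono ⟨v, (haI r hr).2, hv3⟩ hrr
      exact alg_u (z1_chain ha (Or.inr hZ1) (Or.inl hP1) (Or.inl hP2) (hmle r) hrr)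
        (z1_chain ha (Or.inr hZ1) (Or.inr hZ2) (Or.inl hP2) hmm (hmle r'))
        (pot_le ha hf hP1 hP2 hrr) (pot_le ha hg hZ1 hZ2 hmm)
    obtain ⟨r0, hr0⟩ : (aI G κ v w t t' R).Nonempty := h.aconn.1
    have huc : ∀ r ∈ aI G κ v w t t' R,
        f r + g (tc κ {v, w, t} r) + a (tc κ {v, w, t} r) r =
          f r0 + g (tc κ {v, w, t} r0) + a (tc κ {v, w, t} r0) r0 := by
      intro r hr
      refine h.aconn.const (f := fun r => f r + g (tc κ {v, w, t} r) + a (tc κ {v, w, t} r) r) ?_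
        hr hr0
      intro x y e
      rcases e.1 with e1 | e1
      · exact hu x e.2.1 y e.2.2 e1.le
      · exact (hu y e.2.2 x e.2.1 e1.le).symm
    obtain ⟨c, hcdef⟩ : ∃ c, c = f r0 + g (tc κ {v, w, t} r0) + a (tc κ {v, w, t} r0) r0 :=
      ⟨_, rfl⟩
    rw [← hcdef] at huc
    -- cross edges
    have hX : ∀ x y, x ∈ pl G (cs κ t') → y ∈ Zb G κ v w t R → (sd G).Adj x y →
        a x y = f x + (g y + c) := by
      intro x y hx hy e
      have hyx : y < x := by
        rcases e with e | e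
        · exact absurd (cols_mono e.le (hPt.1 hx)) (hZt hy)
        · exact e
      have hxI : x ∈ aI G κ v w t t' R := by
        rcases h.up hy hyx.le with h1 | h1
        · exact absurd (hPt.1 hx) (hZt h1)
        · exact h1
      have hym : y ≤ tc κ {v, w, t} x := le_tc hyx.le (h.colZ_sub hy).2.1
      have h1 := z1_chain ha (Or.inr hy) (Or.inr (hm x hxI)) (Or.inl hx) hym (hmle x)
      have h2 := pot_le ha hg hy (hm x hxI) hym
      have h3 := huc x hxI
      rw [hs x y, ← h1, h2, ← h3]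
      have e1 := two_add (f x)
      have : f x + (g y + (f x + g (tc κ {v, w, t} x) + a (tc κ {v, w, t} x) x)) =
        g y + g (tc κ {v, w, t} x) + a (tc κ {v, w, t} x) x + (f x + f x) := by ring
      rw [this, e1, add_zero]
    refine ⟨fun x => if x ∈ pl G (cs κ t') then f x else g x + c, ?_⟩
    intro x y e
    by_cases hx : x ∈ pl G (cs κ t')
    · by_cases hy : y ∈ pl G (cs κ t')
      · simp only [if_pos hx, if_pos hy]
        exact hf x y ⟨e.1, hx, hy⟩
      · simp only [if_pos hx, if_neg hy]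
        exact hX x y hx (e.2.2.resolve_left hy) e.1
    · by_cases hy : y ∈ pl G (cs κ t')
      · simp only [if_neg hx, if_pos hy]
        rw [hs x y, hX y x hy (e.2.1.resolve_left hx) e.1.symm, add_comm]
      · simp only [if_neg hx, if_neg hy]
        rw [hg x y ⟨e.1, e.2.1.resolve_left hx, e.2.2.resolve_left hy⟩]
        have e1 := two_add c
        have : g x + c + (g y + c) = g x + g y + (c + c) := by ring
        rw [this, e1, add_zero]

end MOT.Pa
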