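import Pool.Agent.MOT.PaEnd
import Pool.Agent.MOT.PaCur

/-!
# MOT/PaOrb: regions, their neighbours and corners (block I)
-/

open Classical

noncomputable section

namespace MOT.Pa

variable {V C W : Type} {G : SimpleGraph V} {κ : V → C} {S : Sys C} {ρ : C → ℕ}
  {a b c d v w t t' : C} {R I J : Set (Cq G)} {p q r : Cq G}

private theorem tc_step {σ : Set C} (hσ : σ.Nonempty) (hR : IsComp (sd G) (Ex G κ σ) R)
    (hq : σ ⊆ cols κ q) (hr : σ ⊆ cols κ r) (h : q ≤ r ∨ r ≤ q) (hqR : tc κ σ q ∈ R) :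
    tc κ σ r ∈ R := by
  obtain ⟨x, hx⟩ := hσ
  refine comp_of_le hR hqR (tc_cols_sub ⟨x, hx⟩ hr) ?_
  rcases h with h | h
  · exact Or.inl (tc_mono ⟨x, hq hx, hx⟩ h)
  · exact Or.inr (tc_mono ⟨x, hr hx, hx⟩ h)

/-- the trace of a stratum lies in one stratum -/
theorem tc_const {σ τ : Set C} (hσ : σ.Nonempty) (h : σ ⊆ τ)
    (hI : IsComp (sd G) (Ex G κ τ) I) (hR : IsComp (sd G) (Ex G κ σ) R) (hq : q ∈ I) (hr : r ∈ I)
    (hqR : tc κ σ q ∈ R) : tc κ σ r ∈ R := by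
  have h1 := hI.conn.2 q hq r hr
  have h2 : ∀ x ∈ I, σ ⊆ cols κ x := by
    intro x hx
    have e : cols κ x = τ := hI.sub hx
    rw [e]; exact h
  clear hr
  induction h1 with
  | refl => exact hqR
  | tail _ e ih =>
    refine tc_step hσ hR (h2 _ e.2.1) (h2 _ e.2.2) ?_ ih
    rcases e.1 with h3 | h3
    · exact Or.inl h3.le
    · exact Or.inr h3.le

private theorem sub_of {σ : Set C} (hR : IsComp (sd G) (Ex G κ σ) R) (hq : q ∈ R) :
    cols κ q = σ := hR.sub hq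

/-- colours of a corner of a region -/
theorem cor_form (hG : IsSph3 G) (hP : Pre G κ S) (hs : S.side c ≠ S.side a)
    (hR : IsComp (sd G) (Ex G κ {a, c}) R) (hp : p ∈ cor κ R) :
    ∃ b d, cols κ p = {a, b, c, d} ∧ S.Inc4 a b c d := by
  obtain ⟨h1, h2, _, _⟩ := (mem_cor hG ⟨a, by simp⟩ hR).1 hp
  obtain ⟨b, c', d', h3, h4⟩ := p4_form (a := a) hP h1 (h2 (by simp))
  have h5 : c ∈ cols κ p := h2 (by simp)
  rw [h3] at h5
  simp only [Set.mem_insert_iff, Set.mem_singleton_iff] at h5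
  rcases h5 with e | e | e | e
  · rw [e] at hs; exact absurd rfl hs
  · rw [e, ← S.E_side h4.1] at hs; exact absurd rfl hs
  · subst e
    exact ⟨b, d', h3, h4⟩
  · subst e
    refine ⟨b, c', ?_, Sys.Inc4.right h4⟩
    rw [h3, Set.pair_comm c' c]

/-- the region of colours `a, c` at the point `p` -/
def rg (κ : V → C) (p : Cq G) (a c : C) : Set (Cq G) :=
  comp (sd G) (Ex G κ {a, c}) (tc κ {a, c} p)

private theorem ac_sub (hp : cols κ p = {a, b, c, d}) : {a, c} ⊆ cols κ p := by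
  rw [hp]
  intro x hx
  simp only [Set.mem_insert_iff, Set.mem_singleton_iff] at hx ⊢
  tauto

theorem rg_comp (hG : IsSph3 G) (hP : Pre G κ S) (hp : cols κ p = {a, b, c, d})
    (h : S.Inc4 a b c d) :
    IsComp (sd G) (Ex G κ {a, c}) (rg κ p a c) ∧ p ∈ cor κ (rg κ p a c) := by
  have h1 := ac_sub hp
  have h2 : tc κ {a, c} p ∈ Ex G κ {a, c} := tc_cols_sub ⟨a, by simp⟩ h1
  have h3 : IsComp (sd G) (Ex G κ {a, c}) (rg κ p a c) := ⟨_, h2, rfl⟩
  obtain ⟨n1, n2, n3, n4, n5, n6⟩ := Sys.Inc4.ne h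
  refine ⟨h3, (mem_cor hG ⟨a, by simp⟩ h3).2 ⟨p4_of hP h hp, h1, ?_, comp_self h2⟩⟩
  intro e
  have h4 : b ∈ cols κ p := by rw [hp]; simp
  rw [← e] at h4
  simp only [Set.mem_insert_iff, Set.mem_singleton_iff] at h4
  rcases h4 with e | e
  · exact n1 e.symm
  · exact n4 e

theorem rg_uniq (hG : IsSph3 G) (hR : IsComp (sd G) (Ex G κ {a, c}) R) (hp : p ∈ cor κ R) :
    R = rg κ p a c := by
  obtain ⟨_, _, _, h4⟩ := (mem_cor hG ⟨a, by simp⟩ hR).1 hp
  have h2 : tc κ {a, c} p ∈ Ex G κ {a, c} := hR.sub h4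
  exact hR.eq_of_inter ⟨_, h2, rfl⟩ ⟨_, h4, comp_self h2⟩

/-- a region lies in the piece of `a`, is closed downwards in the frontier of `cs κ a` -/
theorem reg_sub (hs : S.side c ≠ S.side a) (hR : IsComp (sd G) (Ex G κ {a, c}) R) :
    R ⊆ So G κ S a ∧ R ⊆ Fr G (cs κ a) ∧ (∀ q ∈ R, ∀ r ∈ Fr G (cs κ a), r ≤ q → r ∈ R) := by
  have hca : c ≠ a := fun e => hs (by rw [e])
  have h0 : ∀ q ∈ R, a ∈ cols κ q ∧ c ∈ cols κ q ∧ ∀ e ∈ cols κ q, e = a ∨ e = c := by
    intro q hq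
    rw [sub_of hR hq]
    exact ⟨by simp, by simp, fun e he => by simpa using he⟩
  refine ⟨fun q hq => ?_, fun q hq => ?_, fun q hq r hr hrq => ?_⟩
  · obtain ⟨h1, h2, h3⟩ := h0 q hq
    refine ⟨h1, fun b hb hba => ?_, c, h2, hs⟩
    rcases h3 b hb with e | e
    · exact e
    · rw [e] at hba; exact absurd hba hs
  · obtain ⟨h1, ⟨y, hy, hyc⟩, h3⟩ := h0 q hq
    exact ⟨h1, y, hy, fun e => hca (hyc.symm.trans e)⟩
  · obtain ⟨h1, h2, h3⟩ := h0 q hq
    obtain ⟨h4, y, hy, hya⟩ := hr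
    refine comp_of_le hR hq ?_ (Or.inr hrq)
    have h5 : κ y = c := (h3 _ (cols_mono hrq ⟨y, hy, rfl⟩)).resolve_left hya
    refine Set.Subset.antisymm (fun e he => ?_) fun e he => ?_
    · have := h3 e (cols_mono hrq he)
      simpa using this
    · simp only [Set.mem_insert_iff, Set.mem_singleton_iff] at he
      rcases he with rfl | rfl
      · exact h4
      · exact ⟨y, hy, h5⟩

/-- ... and is not everything: `So a` contains elements with three colours (`p4_ex`, `tc`) -/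
theorem reg_ne (hS : S.Good) (hP : Pre G κ S) (hs : S.side c ≠ S.side a)
    (hR : IsComp (sd G) (Ex G κ {a, c}) R) : R ≠ So G κ S a ∧ R ≠ Fr G (cs κ a) := by
  obtain ⟨b, c', d', h⟩ := inc4_ex hS a
  obtain ⟨p, hp⟩ := p4_ex hP h
  obtain ⟨n1, n2, n3, n4, n5, n6⟩ := Sys.Inc4.ne h
  have hb : b ∈ cols κ p := by rw [hp]; simp
  have s1 := S.E_side h.1
  have s2 := S.E_side h.2.1
  have s3 := S.I_side h.2.2.1
  have hsub : ({a, c', d'} : Set C) ⊆ cols κ p := by
    rw [hp]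
    intro x hx
    simp only [Set.mem_insert_iff, Set.mem_singleton_iff] at hx ⊢
    tauto
  have hq := tc_cols_sub ⟨a, by simp⟩ hsub
  constructor
  · intro e
    have h1 : tc κ {a, c', d'} p ∈ So G κ S a := by
      refine ⟨by rw [hq]; simp, fun x hx hxa => ?_, c', by rw [hq]; simp, Ne.symm s3⟩
      rw [hq] at hx
      simp only [Set.mem_insert_iff, Set.mem_singleton_iff] at hx
      rcases hx with h2 | h2 | h2
      · exact h2
      · rw [h2] at hxa; exact absurd hxa.symm s3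
      · rw [h2, ← s2] at hxa; exact absurd hxa.symm s3
    rw [← e] at h1
    have h2 := sub_of hR h1
    rw [hq] at h2
    have h3 : c' ∈ ({a, c} : Set C) := by rw [← h2]; simp
    have h4 : d' ∈ ({a, c} : Set C) := by rw [← h2]; simp
    simp only [Set.mem_insert_iff, Set.mem_singleton_iff] at h3 h4
    rcases h3 with h3 | h3
    · exact n2 h3.symm
    · rcases h4 with h4 | h4
      · exact n3 h4.symm
      · exact n6 (h3.trans h4.symm)
  · intro e
    have h1 : p ∈ Fr G (cs κ a) := by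
      obtain ⟨y, hy, hyb⟩ := hb
      have ha : a ∈ cols κ p := hsub (by simp)
      exact ⟨ha, y, hy, fun e => n1 ((show κ y = a from e).symm.trans hyb)⟩
    rw [← e] at h1
    have h2 := sub_of hR h1
    rw [h2] at hb
    simp only [Set.mem_insert_iff, Set.mem_singleton_iff] at hb
    rcases hb with h3 | h3
    · exact n1 h3.symm
    · rw [h3] at s1
      exact hs s1.symm

theorem mem_nbr (hR : IsComp (sd G) (Ex G κ {a, c}) R) :
    r ∈ nbr R ↔ {a, c} ⊆ cols κ r ∧ {a, c} ≠ cols κ r ∧ tc κ {a, c} r ∈ R := by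
  constructor
  · rintro ⟨h1, q, hq, hqr⟩
    have h2 := sub_of hR hq
    have h3 : {a, c} ⊆ cols κ r := h2 ▸ cols_mono hqr.le
    refine ⟨h3, fun e => h1 (comp_of_le hR hq e.symm (Or.inl hqr.le)), ?_⟩
    exact comp_of_le hR hq (tc_cols_sub ⟨a, by simp⟩ h3) (Or.inl (le_tc hqr.le h2.le))
  · rintro ⟨h1, h2, h3⟩
    have h4 : r ∉ R := fun h => h2 (sub_of hR h).symm
    refine ⟨h4, _, h3, lt_of_le_of_ne (tc_le _ _) fun e => ?_⟩
    rw [e] at h3
    exact h4 h3

/-- neighbours of a region -/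
theorem nbr_form (hP : Pre G κ S) (hs : S.side c ≠ S.side a)
    (hR : IsComp (sd G) (Ex G κ {a, c}) R) (hr : r ∈ nbr R) : tc κ {a, c} r ∈ R ∧
      ((∃ b, S.E a b ∧ cols κ r = {a, b, c}) ∨ (∃ d, S.E c d ∧ cols κ r = {a, c, d}) ∨
        ∃ b d, S.Inc4 a b c d ∧ cols κ r = {a, b, c, d}) := by
  obtain ⟨h1, h2, h3⟩ := (mem_nbr hR).1 hr
  refine ⟨h3, ?_⟩
  have hca : c ≠ a := fun e => hs (by rw [e])
  have ha : a ∈ cols κ r := h1 (by simp)
  have hc : c ∈ cols κ r := h1 (by simp)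
  rcases so_or_cu hP ha hc hs with h4 | ⟨b, hab, h4⟩
  · rcases so_form hP h4 with ⟨c', hc', e⟩ | ⟨c', d', hc', hE, e⟩
    · rw [e] at hc
      simp only [Set.mem_insert_iff, Set.mem_singleton_iff] at hc
      have h5 := hc.resolve_left hca
      rw [← h5] at e
      exact absurd e.symm h2
    · have hc2 := hc
      rw [e] at hc2
      simp only [Set.mem_insert_iff, Set.mem_singleton_iff] at hc2
      rcases hc2.resolve_left hca with h5 | h5
      · subst h5
        exact Or.inr (Or.inl ⟨d', hE, e⟩)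
      · subst h5
        refine Or.inr (Or.inl ⟨c', S.E_symm hE, ?_⟩)
        rw [e, Set.pair_comm c' c]
  · have hcb : c ≠ b := fun e => hs (by rw [e, ← S.E_side hab])
    rcases cu_form hP hab h4 with ⟨c', hc', e⟩ | ⟨c', d', hI, e⟩
    · have hc2 := hc
      rw [e] at hc2
      simp only [Set.mem_insert_iff, Set.mem_singleton_iff] at hc2
      have h5 := (hc2.resolve_left hca).resolve_left hcb
      subst h5
      exact Or.inl ⟨b, hab, e⟩
    · have hc2 := hc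
      rw [e] at hc2
      simp only [Set.mem_insert_iff, Set.mem_singleton_iff] at hc2
      rcases (hc2.resolve_left hca).resolve_left hcb with h5 | h5
      · subst h5
        exact Or.inr (Or.inr ⟨b, d', hI, e⟩)
      · subst h5
        refine Or.inr (Or.inr ⟨b, c', Sys.Inc4.right hI, ?_⟩)
        rw [e, Set.pair_comm c' c]

/-- corners are the neighbours with four colours -/
theorem cor_nbr (hG : IsSph3 G) (hR : IsComp (sd G) (Ex G κ {a, c}) R) (hca : a ≠ c) :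
    cor κ R = nbr R ∩ P4 G κ := by
  have _ := hca
  ext p
  rw [mem_cor hG ⟨a, by simp⟩ hR, Set.mem_inter_iff, mem_nbr hR]
  tauto

private theorem st_nbr {σ : Set C} {x : C} (hR : IsComp (sd G) (Ex G κ {a, c}) R)
    (hσ : {a, c} ⊆ σ) (hx : x ∈ σ) (hx' : x ∉ ({a, c} : Set C))
    (hI : IsComp (sd G) (Ex G κ σ) I) (hn : (I ∩ nbr R).Nonempty) :
    I ⊆ nbr R ∧ cor κ I ⊆ cor κ R := by
  obtain ⟨q, hqI, hqn⟩ := hn
  obtain ⟨_, _, h3⟩ := (mem_nbr hR).1 hqn
  have h : I ⊆ nbr R := by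
    intro r hr
    have e := sub_of hI hr
    refine (mem_nbr hR).2 ⟨by rw [e]; exact hσ, ?_, tc_const ⟨a, by simp⟩ hσ hI hR hqI hr h3⟩
    intro e'
    rw [e] at e'
    rw [← e'] at hx
    exact hx' hx
  refine ⟨h, ?_⟩
  rintro p ⟨hp, q, hq, hqp⟩
  obtain ⟨_, q', hq', h4⟩ := h hq
  exact ⟨hp, q', hq', h4.trans hqp⟩

private theorem b_not (hs : S.side c ≠ S.side a) (hab : S.E a b) : b ∉ ({a, c} : Set C) := by
  intro h
  simp only [Set.mem_insert_iff, Set.mem_singleton_iff] at h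
  rcases h with e | e
  · exact S.E_ne hab e.symm
  · exact hs (by rw [← e, ← S.E_side hab])

private theorem d_not (hs : S.side c ≠ S.side a) (hcd : S.E c d) : d ∉ ({a, c} : Set C) := by
  intro h
  simp only [Set.mem_insert_iff, Set.mem_singleton_iff] at h
  rcases h with e | e
  · exact hs (by rw [← e, ← S.E_side hcd])
  · exact S.E_ne hcd e.symm

private theorem s1 : ({a, c} : Set C) ⊆ {a, b, c} := by
  intro x hx
  simp only [Set.mem_insert_iff, Set.mem_singleton_iff] at hx ⊢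
  tauto

private theorem s2 : ({a, c} : Set C) ⊆ {a, c, d} := by
  intro x hx
  simp only [Set.mem_insert_iff, Set.mem_singleton_iff] at hx ⊢
  tauto

/-- an interval with one element above the region: it lies in `nbr R`, its ends are corners
(`tc_const`) -/
theorem int_nbr (hG : IsSph3 G) (hP : Pre G κ S) (hs : S.side c ≠ S.side a)
    (hR : IsComp (sd G) (Ex G κ {a, c}) R) (hab : S.E a b)
    (hI : IsComp (sd G) (Ex G κ {a, b, c}) I) (hn : (I ∩ nbr R).Nonempty) :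
    I ⊆ nbr R ∧ cor κ I ⊆ cor κ R := by
  have _ := hG
  have _ := hP
  exact st_nbr (x := b) hR s1 (by simp) (b_not hs hab) hI hn

/-- the same for arcs -/
theorem arc_nbr (hG : IsSph3 G) (hP : Pre G κ S) (hs : S.side c ≠ S.side a)
    (hR : IsComp (sd G) (Ex G κ {a, c}) R) (hcd : S.E c d)
    (hI : IsComp (sd G) (Ex G κ {a, c, d}) I) (hn : (I ∩ nbr R).Nonempty) :
    I ⊆ nbr R ∧ cor κ I ⊆ cor κ R := by
  have _ := hG
  have _ := hP
  exact st_nbr (x := d) hR s2 (by simp) (d_not hs hcd) hI hn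

private theorem st_meet (hG : IsSph3 G) {σ : Set C} {x : C}
    (hR : IsComp (sd G) (Ex G κ {a, c}) R) (hp : p ∈ cor κ R) (hσ : {a, c} ⊆ σ) (hx : x ∈ σ)
    (hx' : x ∉ ({a, c} : Set C)) (hI : IsComp (sd G) (Ex G κ σ) I) (hpI : p ∈ cor κ I) :
    (I ∩ nbr R).Nonempty := by
  obtain ⟨_, h2, _, h4⟩ := (mem_cor hG ⟨a, by simp⟩ hR).1 hp
  obtain ⟨_, q, hq, hqp⟩ := hpI
  have e := sub_of hI hq
  have h5 : {a, c} ⊆ cols κ q := by rw [e]; exact hσ
  refine ⟨q, hq, (mem_nbr hR).2 ⟨h5, ?_, tc_step ⟨a, by simp⟩ hR h2 h5 (Or.inr hqp.le) h4⟩⟩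
  intro e'
  rw [e] at e'
  rw [← e'] at hx
  exact hx' hx

/-- the partners of a corner are corners; the interval and the arc lie in `nbr R` -/
theorem nx_cor [Finite V] (hG : IsSph3 G) (hS : S.Good) (hP : Pre G κ S)
    (hR : IsComp (sd G) (Ex G κ {a, c}) R) (hp : p ∈ cor κ R) (hpc : cols κ p = {a, b, c, d})
    (h : S.Inc4 a b c d) : nx κ p d ∈ cor κ R ∧ nx κ p b ∈ cor κ R ∧
      st κ p d ⊆ nbr R ∧ st κ p b ⊆ nbr R := by
  have hs : S.side c ≠ S.side a := (S.I_side h.2.2.1).symm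
  obtain ⟨g1, g2⟩ := st_comp hG hP hpc h
  obtain ⟨k1, k2⟩ := st_comp' hG hP hpc h
  obtain ⟨u1, u2⟩ := st_nbr (x := b) hR s1 (by simp) (b_not hs h.1) g1
    (st_meet hG (x := b) hR hp s1 (by simp) (b_not hs h.1) g1 g2)
  obtain ⟨v1, v2⟩ := st_nbr (x := d) hR s2 (by simp) (d_not hs h.2.1) k1
    (st_meet hG (x := d) hR hp s2 (by simp) (d_not hs h.2.1) k1 k2)
  obtain ⟨_, _, _, _, _, _, e1⟩ := nx_spec hG hS hP hpc h
  obtain ⟨_, _, _, _, _, _, e2⟩ := nx_spec' hG hS hP hpc h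
  refine ⟨u2 ?_, v2 ?_, u1, v1⟩
  · rw [e1]; exact Or.inr rfl
  · rw [e2]; exact Or.inr rfl

end MOT.Pa
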