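import Pool.Agent.MOT.PaOrb

/-!
# MOT/PaOrc: regions have corners, their number is even, transitivity (block I)
-/

open Classical

noncomputable section

namespace MOT.Pa

variable {V C W : Type} {G : SimpleGraph V} {κ : V → C} {S : Sys C} {ρ : C → ℕ}
  {a b c d v w t t' : C} {R I J : Set (Cq G)} {p q r : Cq G}

/-- a nonempty part of a connected set, closed under adjacency, is everything -/
private theorem closed_eq {A D : Set (Cq G)} (hA : Conn (sd G) A) (hD : D ⊆ A)
    (hne : D.Nonempty) (h : ∀ x ∈ D, ∀ y ∈ A, (sd G).Adj x y → y ∈ D) : D = A := by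
  obtain ⟨x, hx⟩ := hne
  refine Set.Subset.antisymm hD fun y hy => ?_
  have h1 := hA.2 x (hD hx) y hy
  have key : ∀ z, Relation.ReflTransGen (EIn (sd G) A) x z → z ∈ D := by
    intro z hz
    induction hz with
    | refl => exact hx
    | tail _ e ih => exact h _ ih _ e.2.2 e.1
  exact key y h1

private theorem perm3 (a c d : C) : ({a, c, d} : Set C) = {c, d, a} := by
  ext x
  simp only [Set.mem_insert_iff, Set.mem_singleton_iff]
  tauto

private theorem comp_ex {σ : Set C} (h : cols κ r = σ) :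
    ∃ I, IsComp (sd G) (Ex G κ σ) I ∧ r ∈ I := by
  have hr : r ∈ Ex G κ σ := h
  exact ⟨comp (sd G) (Ex G κ σ) r, ⟨r, hr, rfl⟩, comp_self hr⟩

/-- the other colours of a point are determined -/
private theorem uniq4 {b' d' : C} (h : S.Inc4 a b c d) (h' : S.Inc4 a b' c d')
    (e : ({a, b, c, d} : Set C) = {a, b', c, d'}) : b = b' ∧ d = d' := by
  obtain ⟨h1, h2, h3, h4, h5, h6⟩ := h
  obtain ⟨k1, k2, k3, k4, k5, k6⟩ := h'
  have s1 := S.E_side h1
  have s2 := S.E_side k1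
  have s3 := S.I_side h4
  have s4 := S.I_side k4
  have s5 := S.I_side h5
  have n1 := S.E_ne h1
  have n2 := S.E_ne h2
  constructor
  · have hb : b ∈ ({a, b', c, d'} : Set C) := by rw [← e]; simp
    simp only [Set.mem_insert_iff, Set.mem_singleton_iff] at hb
    rcases hb with rfl | rfl | rfl | rfl
    · exact absurd rfl n1
    · rfl
    · exact absurd rfl s5
    · exact absurd s1 s4
  · have hd : d ∈ ({a, b', c, d'} : Set C) := by rw [← e]; simp
    simp only [Set.mem_insert_iff, Set.mem_singleton_iff] at hd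
    rcases hd with rfl | rfl | rfl | rfl
    · exact absurd rfl s3
    · exact absurd s2 s3
    · exact absurd rfl n2
    · rfl

/-- a region has corners: otherwise `nbr R` is empty (`nbr_form`, `int_nbr`, `arc_nbr`, `end_two`), so `R`
is closed under adjacency in the connected piece `So a` (`so_Conn`, `reg_sub`), against `reg_ne` -/
theorem cor_ne [Finite V] (hG : IsSph3 G) (hS : S.Good) (hP : Pre G κ S)
    (hs : S.side c ≠ S.side a) (hR : IsComp (sd G) (Ex G κ {a, c}) R) : (cor κ R).Nonempty := by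
  by_contra hne
  rw [Set.not_nonempty_iff_eq_empty] at hne
  have hca : a ≠ c := by
    rintro rfl
    exact hs rfl
  have hn : nbr R = ∅ := by
    rw [Set.eq_empty_iff_forall_notMem]
    intro r hr
    obtain ⟨_, ⟨b, hab, hb⟩ | ⟨d, hcd, hd⟩ | ⟨b, d, h, hbd⟩⟩ := nbr_form hP hs hR hr
    · obtain ⟨I, hI, hrI⟩ := comp_ex hb
      have h1 := (int_nbr hG hP hs hR hab hI ⟨r, hrI, hr⟩).2
      have h2 := end_two hG hS hP hab hs hI
      rw [hne] at h1
      rw [Set.subset_empty_iff.1 h1, Set.ncard_empty] at h2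
      exact absurd h2 (by decide)
    · obtain ⟨I, hI, hrI⟩ := comp_ex hd
      have h1 := (arc_nbr hG hP hs hR hcd hI ⟨r, hrI, hr⟩).2
      rw [perm3 a c d] at hI
      have h2 := end_two hG hS hP hcd hs.symm hI
      rw [hne] at h1
      rw [Set.subset_empty_iff.1 h1, Set.ncard_empty] at h2
      exact absurd h2 (by decide)
    · have h1 : r ∈ cor κ R := by
        rw [cor_nbr hG hR hca]
        exact ⟨hr, p4_of hP h hbd⟩
      rw [hne] at h1
      exact h1
  obtain ⟨h1, _, h3⟩ := reg_sub (S := S) hs hR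
  refine (reg_ne hS hP hs hR).1 (closed_eq (so_Conn hG hS hP a) h1 hR.conn.1 ?_)
  intro x hx y hy hxy
  rcases hxy with h | h
  · by_contra hyR
    have : y ∈ nbr R := ⟨hyR, x, hx, h⟩
    rw [hn] at this
    exact this
  · refine h3 x hx y ?_ h.le
    obtain ⟨⟨u, hu, hua⟩, _, e, ⟨z, hz, rfl⟩, hes⟩ := hy
    exact ⟨⟨u, hu, hua⟩, z, hz, fun h => hes (by rw [show κ z = a from h])⟩

theorem reg_inc [Finite V] (hG : IsSph3 G) (hS : S.Good) (hP : Pre G κ S)
    (hs : S.side c ≠ S.side a) (hR : IsComp (sd G) (Ex G κ {a, c}) R) : S.I a c := by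
  obtain ⟨p, hp⟩ := cor_ne hG hS hP hs hR
  obtain ⟨b, d, _, h⟩ := cor_form hG hP hs hR hp
  exact h.2.2.1

/-- fixed point free involution `p ↦ nx κ p d`, `cols κ p = {a, b, c, d}` -/
theorem cor_even [Finite V] (hG : IsSph3 G) (hS : S.Good) (hP : Pre G κ S)
    (hs : S.side c ≠ S.side a) (hR : IsComp (sd G) (Ex G κ {a, c}) R) :
    Even (cor κ R).ncard := by
  have hfin : (cor κ R).Finite := Set.toFinite _
  have key : ∀ p, ∃ d, p ∈ cor κ R → ∃ b, cols κ p = {a, b, c, d} ∧ S.Inc4 a b c d := by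
    intro p
    by_cases hp : p ∈ cor κ R
    · obtain ⟨b, d, h1, h2⟩ := cor_form hG hP hs hR hp
      exact ⟨d, fun _ => ⟨b, h1, h2⟩⟩
    · exact ⟨a, fun h => absurd h hp⟩
  choose D hD using key
  have hcor : ∀ p ∈ cor κ R, nx κ p (D p) ∈ cor κ R := by
    intro p hp
    obtain ⟨b, h1, h2⟩ := hD p hp
    exact (nx_cor hG hS hP hR hp h1 h2).1
  have hne : ∀ p ∈ cor κ R, nx κ p (D p) ≠ p := by
    intro p hp
    obtain ⟨b, h1, h2⟩ := hD p hp
    obtain ⟨d', _, _, h3, _⟩ := nx_spec hG hS hP h1 h2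
    exact h3
  have hinv : ∀ p ∈ cor κ R, nx κ (nx κ p (D p)) (D (nx κ p (D p))) = p := by
    intro p hp
    obtain ⟨b, h1, h2⟩ := hD p hp
    obtain ⟨d', h3, h4, _, h5, _⟩ := nx_spec hG hS hP h1 h2
    obtain ⟨b', h6, h7⟩ := hD _ (hcor p hp)
    have h8 := (uniq4 h7 h3 (h6.symm.trans h4)).2
    rw [h8]
    exact h5
  rw [Set.ncard_eq_toFinset_card _ hfin]
  have h0 : ∑ _x ∈ hfin.toFinset, (1 : ZMod 2) = 0 := by
    refine Finset.sum_involution (fun p _ => nx κ p (D p)) (fun _ _ => two_add 1) ?_ ?_ ?_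
    · intro p hp _
      exact hne p (hfin.mem_toFinset.1 hp)
    · intro p hp
      exact hfin.mem_toFinset.2 (hcor p (hfin.mem_toFinset.1 hp))
    · intro p hp
      exact hinv p (hfin.mem_toFinset.1 hp)
  rw [Finset.sum_const, nsmul_eq_mul, mul_one, ZMod.natCast_eq_zero_iff] at h0
  exact even_iff_two_dvd.2 h0

/-- the neighbours of a disc region are connected: image under `tp` of
`FrIn (sd G) (Fr G (cs κ a)) R` (`dsk_bd` in the sphere `sph_cs`) -/
theorem nbr_Conn [Finite V] (hG : IsSph3 G) (hS : S.Good) (hP : Pre G κ S)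
    (hs : S.side c ≠ S.side a) (hR : IsComp (sd G) (Ex G κ {a, c}) R) (hz : HZ (sd G) R) :
    Conn (sd G) (nbr R) := by
  obtain ⟨_, h2, h3⟩ := reg_sub (S := S) hs hR
  obtain ⟨h4, h5, _⟩ := sph_cs hG hP.pre0 a
  have h6 := dsk_bd h4 h5 h2 hR.conn hz (reg_ne hS hP hs hR).2
  have htp : ∀ Q ∈ FrIn (sd G) (Fr G (cs κ a)) R, tp Q ∈ nbr R := by
    rintro Q ⟨⟨k1, q, hq, hqR⟩, p, hp, hpR⟩
    have k2 : tp Q ∉ R := fun k => hpR (h3 _ k p (k1 p hp) (le_tp hp))
    exact ⟨k2, q, hqR, lt_of_le_of_ne (le_tp hq) (fun e => k2 (e ▸ hqR))⟩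
  have hex : ∀ r ∈ nbr R, ∃ Q ∈ FrIn (sd G) (Fr G (cs κ a)) R, tp Q = r := by
    rintro r ⟨hr, q, hq, hlt⟩
    have hA : (sd G).Adj q r := Or.inl hlt
    have hrF : r ∈ Fr G (cs κ a) := by
      obtain ⟨⟨x, hx, hx1⟩, y, hy, hy1⟩ := h2 hq
      exact ⟨⟨x, hlt.le hx, hx1⟩, y, hlt.le hy, hy1⟩
    refine ⟨eg (sd G) hA, ⟨⟨?_, q, ?_, hq⟩, r, ?_, hr⟩, ?_⟩
    · intro u hu
      have hu' : u ∈ ({q, r} : Finset (Cq G)) := hu
      simp only [Finset.mem_insert, Finset.mem_singleton] at hu'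
      rcases hu' with rfl | rfl
      · exact h2 hq
      · exact hrF
    · show q ∈ ({q, r} : Finset (Cq G))
      simp
    · show r ∈ ({q, r} : Finset (Cq G))
      simp
    · have k5 : r ≤ tp (eg (sd G) hA) := le_tp (by
        show r ∈ ({q, r} : Finset (Cq G))
        simp)
      have k6 : tp (eg (sd G) hA) ∈ ({q, r} : Finset (Cq G)) := tp_mem (eg (sd G) hA)
      simp only [Finset.mem_insert, Finset.mem_singleton] at k6
      rcases k6 with e | e
      · rw [e] at k5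
        exact absurd hlt (not_lt_of_ge k5)
      · exact e
  rw [Conn_iff] at h6 ⊢
  obtain ⟨⟨Q₀, hQ₀⟩, h7⟩ := h6
  refine ⟨⟨tp Q₀, htp Q₀ hQ₀⟩, fun f hf x hx y hy => ?_⟩
  obtain ⟨Q, hQ, e1⟩ := hex x hx
  obtain ⟨Q', hQ', e2⟩ := hex y hy
  have key : ∀ P P', P ∈ FrIn (sd G) (Fr G (cs κ a)) R →
      P' ∈ FrIn (sd G) (Fr G (cs κ a)) R → P ≤ P' → f (tp P) = f (tp P') := by
    intro P P' hP1 hP2 hle
    have k5 := tp_mono hle
    by_cases e : tp P = tp P'
    · rw [e]
    · exact hf _ _ ⟨Or.inl (lt_of_le_of_ne k5 e), htp P hP1, htp P' hP2⟩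
  have h8 := h7 (fun P => f (tp P)) (fun P P' hPP => by
    rcases hPP.1 with h | h
    · exact key P P' hPP.2.1 hPP.2.2 h.le
    · exact (key P' P hPP.2.2 hPP.2.1 h.le).symm) Q hQ Q' hQ'
  rw [← e1, ← e2]
  exact h8

/-- comparable with an element of a component with three colours: in the component or an end -/
private theorem comp_step {x y : Cq G} {σ : Set C} (hI : IsComp (sd G) (Ex G κ σ) I)
    (hσ : σ.ncard = 3) (hf : σ.Finite) (hx : x ∈ I) (hxy : (sd G).Adj x y)
    (hy : (cols κ y).ncard = 3 ∨ (y ∈ P4 G κ)) : y ∈ I ∨ y ∈ cor κ I := by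
  have hxc : cols κ x = σ := comp_cols hI hx
  rcases hy with hy | hy
  · refine Or.inl (comp_of_le hI hx ?_ (hxy.imp le_of_lt le_of_lt))
    show cols κ y = σ
    rcases hxy with h | h
    · have h1 := cols_mono (κ := κ) h.le
      rw [hxc] at h1
      exact (Set.eq_of_subset_of_ncard_le h1 (by rw [hy, hσ]) (cols_fin y)).symm
    · have h1 := cols_mono (κ := κ) h.le
      rw [hxc] at h1
      exact Set.eq_of_subset_of_ncard_le h1 (by rw [hy, hσ]) hf
  · rcases hxy with h | h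
    · exact Or.inr ⟨hy, x, hx, h⟩
    · exfalso
      have h1 := cols_mono (κ := κ) h.le
      rw [hxc] at h1
      have h2 := Set.ncard_le_ncard h1 hf
      have h3 : (cols κ y).ncard = 4 := hy
      omega

private theorem ncard3 {x y z : C} (h1 : x ≠ y) (h2 : x ≠ z) (h3 : y ≠ z) :
    ({x, y, z} : Set C).ncard = 3 := by
  rw [Set.ncard_eq_three]
  exact ⟨x, y, z, h1, h2, h3, rfl⟩

/-- TRANSITIVITY: if both partners of a corner coincide there are only two corners.  The set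
`st κ p d ∪ st κ p b ∪ {p, nx κ p d}` is closed under adjacency in `nbr R`, so it is `nbr R`. -/
theorem orb2 [Finite V] (hG : IsSph3 G) (hS : S.Good) (hP : Pre G κ S)
    (hR : IsComp (sd G) (Ex G κ {a, c}) R) (hz : HZ (sd G) R) (hp : p ∈ cor κ R)
    (hpc : cols κ p = {a, b, c, d}) (h : S.Inc4 a b c d) (e : nx κ p d = nx κ p b) :
    cor κ R = {p, nx κ p d} := by
  have hs : S.side c ≠ S.side a := (S.I_side h.2.2.1).symm
  obtain ⟨n1, n2, n3, n4, n5, n6⟩ := h.ne
  obtain ⟨k1, k2, k3, k4⟩ := nx_cor hG hS hP hR hp hpc h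
  obtain ⟨d', a1, a2, a3, a4, a5, a6⟩ := nx_spec hG hS hP hpc h
  obtain ⟨b', b1, b2, b3, b4, b5, b6⟩ := nx_spec' hG hS hP hpc h
  rw [← e] at b2 b3 b4 b5 b6
  obtain ⟨e1, e2⟩ := uniq4 a1 b1 (a2.symm.trans b2)
  subst e1
  subst e2
  set p' := nx κ p d' with hp'
  have hI := (st_comp hG hP hpc h).1
  have hJ := (st_comp' hG hP hpc h).1
  rw [cor_nbr hG hR n2] at hp k1
  -- colours of the elements of `nbr R`
  have hform : ∀ y ∈ nbr R, (∃ b₁, S.E a b₁ ∧ cols κ y = {a, b₁, c} ∧ (cols κ y).ncard = 3) ∨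
      (∃ d₁, S.E c d₁ ∧ cols κ y = {a, c, d₁} ∧ (cols κ y).ncard = 3) ∨ y ∈ P4 G κ := by
    intro y hy
    obtain ⟨_, ⟨b₁, h1, h2⟩ | ⟨d₁, h1, h2⟩ | ⟨b₁, d₁, h1, h2⟩⟩ := nbr_form hP hs hR hy
    · refine Or.inl ⟨b₁, h1, h2, ?_⟩
      rw [h2]
      refine ncard3 (S.E_ne h1) n2 ?_
      rintro rfl
      exact hs (S.E_side h1).symm
    · refine Or.inr (Or.inl ⟨d₁, h1, h2, ?_⟩)
      rw [h2]
      refine ncard3 n2 ?_ (S.E_ne h1)
      rintro rfl
      exact hs (S.E_side h1)
    · exact Or.inr (Or.inr (p4_of hP h1 h2))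
  have hform' : ∀ y ∈ nbr R, (cols κ y).ncard = 3 ∨ y ∈ P4 G κ := by
    intro y hy
    rcases hform y hy with ⟨_, _, _, h3⟩ | ⟨_, _, _, h3⟩ | h3
    · exact Or.inl h3
    · exact Or.inl h3
    · exact Or.inr h3
  -- faces of the two points
  have hpt : ∀ x, cols κ x = {a, b, c, d'} → st κ x d' = st κ p d' → st κ x b = st κ p b →
      ∀ y ∈ nbr R, (sd G).Adj x y → y ∈ st κ p d' ∪ st κ p b := by
    intro x hx hx1 hx2 y hy hxy
    have hxP : x ∈ P4 G κ := p4_of hP h hx
    have hlt : y < x := by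
      rcases hxy with h1 | h1
      · exact absurd (p4_top hG hxP h1.le) h1.ne'
      · exact h1
    have hsub := cols_mono (κ := κ) hlt.le
    rw [hx] at hsub
    rcases hform y hy with ⟨b₁, h1, h2, _⟩ | ⟨d₁, h1, h2, _⟩ | h3
    · have h4 : b₁ ∈ ({a, b, c, d'} : Set C) := hsub (by rw [h2]; simp)
      simp only [Set.mem_insert_iff, Set.mem_singleton_iff] at h4
      have h5 : b₁ = b := by
        rcases h4 with rfl | rfl | rfl | rfl
        · exact absurd rfl (S.E_ne h1)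
        · rfl
        · exact absurd (S.E_side h1).symm hs
        · exact absurd (S.E_side h1) (S.I_side h.2.2.2.1)
      subst h5
      obtain ⟨I₁, hI₁, hyI⟩ := comp_ex h2
      have h6 : I₁ = st κ x d' := st_uniq hG hP hx h hI₁ ⟨hxP, y, hyI, hlt⟩
      left
      rw [← hx1, ← h6]
      exact hyI
    · have h4 : d₁ ∈ ({a, b, c, d'} : Set C) := hsub (by rw [h2]; simp)
      simp only [Set.mem_insert_iff, Set.mem_singleton_iff] at h4
      have h5 : d₁ = d' := by
        rcases h4 with rfl | rfl | rfl | rfl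
        · exact absurd (S.E_side h1) hs
        · exact absurd (S.E_side h1).symm (S.I_side h.2.2.2.2.1)
        · exact absurd rfl (S.E_ne h1)
        · rfl
      subst h5
      obtain ⟨I₁, hI₁, hyI⟩ := comp_ex h2
      have h6 : I₁ = st κ x b := st_uniq' hG hP hx h hI₁ ⟨hxP, y, hyI, hlt⟩
      right
      rw [← hx2, ← h6]
      exact hyI
    · exact absurd (p4_top hG h3 hlt.le) hlt.ne'
  have hT : (st κ p d' ∪ st κ p b) ∪ {p, p'} = nbr R := by
    refine closed_eq (nbr_Conn hG hS hP hs hR hz) ?_ ⟨p, Or.inr (Or.inl rfl)⟩ ?_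
    · rintro y ((hy | hy) | rfl | rfl)
      · exact k3 hy
      · exact k4 hy
      · exact hp.1
      · exact k1.1
    · rintro x ((hx | hx) | rfl | rfl) y hy hxy
      · rcases comp_step hI (ncard3 n1 n2 n4) (Set.toFinite _) hx hxy (hform' y hy) with h1 | h1
        · exact Or.inl (Or.inl h1)
        · rw [a6] at h1
          exact Or.inr h1
      · rcases comp_step hJ (ncard3 n2 n3 n6) (Set.toFinite _) hx hxy (hform' y hy) with h1 | h1
        · exact Or.inl (Or.inr h1)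
        · rw [b6] at h1
          exact Or.inr h1
      · exact Or.inl (hpt x hpc rfl rfl y hy hxy)
      · exact Or.inl (hpt p' a2 a5 b5 y hy hxy)
  rw [cor_nbr hG hR n2, ← hT]
  ext y
  constructor
  · rintro ⟨(hy | hy) | hy, hyP⟩
    · exfalso
      have h1 := comp_cols hI hy
      have h2 : (cols κ y).ncard = 4 := hyP
      rw [h1, ncard3 n1 n2 n4] at h2
      omega
    · exfalso
      have h1 := comp_cols hJ hy
      have h2 : (cols κ y).ncard = 4 := hyP
      rw [h1, ncard3 n2 n3 n6] at h2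
      omega
    · exact hy
  · rintro (rfl | rfl)
    · exact ⟨Or.inr (Or.inl rfl), hp.2⟩
    · exact ⟨Or.inr (Or.inr rfl), k1.2⟩

end MOT.Pa
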