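import Pool.Agent.MOT.PaRet

/-!
# MOT/PaOut: no bigon: the pattern is standard (block I)
-/

open Classical

noncomputable section

namespace MOT.Pa

variable {V C W : Type} {G : SimpleGraph V} {κ : V → C} {S : Sys C} {ρ : C → ℕ}
  {a b c d v w t t' t1 t2 : C} {R H I J : Set (Cq G)} {p q r : Cq G}

/-- closed cell and open cell: retraction `tc κ σ` (`ret_Conn`, `ret_HZ`; `sd G = cmp (Cq G)`) -/
theorem xx_ex {σ : Set C} (hσ : σ.Nonempty) :
    (Conn (sd G) (XX G κ σ) ↔ Conn (sd G) (Ex G κ σ)) ∧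
      (HZ (sd G) (XX G κ σ) ↔ HZ (sd G) (Ex G κ σ)) := by
  obtain ⟨x, hx⟩ := hσ
  have h2 : ∀ q ∈ XX G κ σ, tc κ σ q ∈ Ex G κ σ := fun q hq =>
    tc_cols_sub ⟨x, hx⟩ (XX_iff.1 hq)
  have h4 : ∀ q ∈ XX G κ σ, ∀ r ∈ XX G κ σ, q ≤ r → tc κ σ q ≤ tc κ σ r := fun q hq r _ hqr =>
    tc_mono ⟨x, XX_iff.1 hq hx, hx⟩ hqr
  exact ⟨ret_Conn (tc κ σ) Ex_sub_XX h2 (fun q _ => tc_le q σ) h4,
    ret_HZ (tc κ σ) Ex_sub_XX h2 (fun q _ => tc_le q σ) h4 fun q hq =>
      tc_id (show cols κ q = σ from hq).le⟩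

/-- if all components are equal to `H` -/
private theorem po_one {A : Set (Cq G)} (hH : IsComp (sd G) A H)
    (hall : ∀ R, IsComp (sd G) A R → R = H) : A = H := by
  refine Set.Subset.antisymm (fun q hq => ?_) hH.sub
  rw [← hall _ ⟨q, hq, rfl⟩]
  exact comp_self hq

private theorem po_side (hv : S.side v = true) (hI : S.I v t) : S.side t = false := by
  have h := S.I_side hI
  rw [hv] at h
  cases e : S.side t
  · rfl
  · rw [e] at h
    exact absurd rfl h

/-- `Ex {v, t}` is the hexagon -/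
theorem hex_all [Finite V] (hG : IsSph3 G) (hS : S.Good) (hP : Pre G κ S) (hD : Dich G κ S)
    (hv : S.side v = true) (hI : S.I v t) : Hx G κ S v t (Ex G κ {v, t}) := by
  obtain ⟨H, hH, hall⟩ := hD v t hv hI
  have h1 : Ex G κ {v, t} = H := po_one hH.comp fun R hR =>
    (hall R hR).resolve_right (no_rect hG hS hP hD hv (po_side hv hI) hR)
  rw [h1]
  exact hH

private theorem po_rot (a b c d : C) : ({a, b, c, d} : Set C) = {c, d, a, b} := by
  ext x
  simp only [Set.mem_insert_iff, Set.mem_singleton_iff]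
  tauto

private theorem po_uniq [Finite V] (hG : IsSph3 G) (hS : S.Good) (hP : Pre G κ S)
    (hD : Dich G κ S) (hv : S.side a = true) (h : S.Inc4 a b c d) (hp : cols κ p = {a, b, c, d})
    (hq : cols κ q = {a, b, c, d}) : p = q := by
  have hH := hex_all hG hS hP hD hv h.2.2.1
  have key : ∀ x : Cq G, cols κ x = {a, b, c, d} → x ∈ cor κ (Ex G κ {a, c}) := by
    intro x hx
    obtain ⟨h1, h2⟩ := rg_comp hG hP hx h
    obtain ⟨y, hy⟩ := h1.conn.1
    have h3 := h1.eq_of_inter hH.comp ⟨y, hy, h1.sub hy⟩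
    rw [← h3]
    exact h2
  exact hH.not_two h (key p hp) (key q hq) hp hq

/-- exactly one point for incident colours: all points of colours `{v, w, t, d}` are corners of the
hexagon -/
theorem pt_one [Finite V] (hG : IsSph3 G) (hS : S.Good) (hP : Pre G κ S) (hD : Dich G κ S)
    (h : S.Inc4 a b c d) : ∃! q : Cq G, cols κ q = {a, b, c, d} := by
  obtain ⟨p, hp⟩ := p4_ex hP h
  refine ⟨p, hp, fun q hq => ?_⟩
  have hq' : cols κ q = {a, b, c, d} := hq
  by_cases ha : S.side a = true
  · exact po_uniq hG hS hP hD ha h hq' hp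
  · have hc : S.side c = true := by
      have h1 := S.I_side h.2.2.1
      cases e : S.side c
      · rw [e] at h1
        exact absurd (Bool.eq_false_iff.2 ha) h1
      · rfl
    rw [po_rot] at hp hq'
    exact po_uniq hG hS hP hD hc h.swap hq' hp

/-- one interval (arc): exactly two points with the colours `a, b, c` (`hS.two`, `pt_one`), every
component of `Ex {a, b, c}` has two ends (`end_two`), so both points are ends of every component
(`st_uniq`) -/
theorem arc_one [Finite V] (hG : IsSph3 G) (hS : S.Good) (hP : Pre G κ S) (hD : Dich G κ S)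
    (hab : S.E a b) (ha : S.I a c) (hb : S.I b c) :
    IsComp (sd G) (Ex G κ {a, b, c}) (Ex G κ {a, b, c}) := by
  have hs : S.side c ≠ S.side a := (S.I_side ha).symm
  obtain ⟨d1, d2, hdd, hset⟩ := Set.ncard_eq_two.1 (hS.two a b c hab ha hb)
  have hd : ∀ d, S.Inc4 a b c d ↔ d = d1 ∨ d = d2 := by
    intro d
    have h1 : d ∈ {d | S.E c d ∧ S.I a d ∧ S.I b d} ↔ d = d1 ∨ d = d2 := by
      rw [hset, Set.mem_insert_iff, Set.mem_singleton_iff]
    rw [← h1]
    exact ⟨fun h => ⟨h.2.1, h.2.2.2.1, h.2.2.2.2.2⟩, fun h => ⟨hab, h.1, ha, h.2.1, hb, h.2.2⟩⟩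
  have i1 : S.Inc4 a b c d1 := (hd d1).2 (Or.inl rfl)
  have i2 : S.Inc4 a b c d2 := (hd d2).2 (Or.inr rfl)
  obtain ⟨p1, hp1, u1⟩ := pt_one hG hS hP hD i1
  obtain ⟨p2, hp2, u2⟩ := pt_one hG hS hP hD i2
  obtain ⟨k1, -⟩ := st_comp hG hP hp1 i1
  have hall : ∀ I, IsComp (sd G) (Ex G κ {a, b, c}) I → I = st κ p1 d1 := by
    intro I hI
    apply st_uniq hG hP hp1 i1 hI
    have htwo := end_two hG hS hP hab hs hI
    have hsub : cor κ I ⊆ {p1, p2} := by
      intro p hp
      obtain ⟨h4, h5, -, -⟩ := (mem_cor hG ⟨a, by simp⟩ hI).1 hp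
      have hpa : a ∈ cols κ p := h5 (by simp)
      have hpb : b ∈ cols κ p := h5 (by simp)
      have hpc : c ∈ cols κ p := h5 (by simp)
      have hC : p ∈ Cu G κ S a b := ⟨hpa, hpb, c, hpc, hs⟩
      obtain ⟨d, hi, he⟩ : ∃ d, S.Inc4 a b c d ∧ cols κ p = {a, b, c, d} := by
        rcases cu_form hP hab hC with ⟨c', hc', e⟩ | ⟨c', d', hi, e⟩
        · exfalso
          have h6 : (cols κ p).ncard = 4 := h4
          have h7 : ({a, b, c'} : Set C) = (({a, b, c'} : Finset C) : Set C) := by simp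
          rw [e, h7, Set.ncard_coe_finset] at h6
          have := Finset.card_le_three (a := a) (b := b) (c := c')
          omega
        · have hc := hpc
          rw [e] at hc
          simp only [Set.mem_insert_iff, Set.mem_singleton_iff] at hc
          obtain ⟨-, n2, -, n4, -, -⟩ := i1.ne
          rcases hc with e1 | e1 | e1 | e1
          · exact absurd e1.symm n2
          · exact absurd e1.symm n4
          · rw [e1]
            exact ⟨d', hi, e⟩
          · rw [e1]
            exact ⟨c', hi.right, by rw [e, Set.pair_comm]⟩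
      rcases (hd d).1 hi with e | e
      · rw [e] at he
        exact Or.inl (u1 p he)
      · rw [e] at he
        exact Or.inr (u2 p he)
    have heq : cor κ I = {p1, p2} := by
      apply Set.eq_of_subset_of_ncard_le hsub
      rw [htwo]
      refine (Set.ncard_insert_le p1 {p2}).trans ?_
      rw [Set.ncard_singleton]
    rw [heq]
    exact Or.inl rfl
  have h8 := po_one k1 hall
  rw [← h8] at k1
  exact k1

/-- OUTPUT.  `inc`: `reg_inc` for the component of `tc κ {a, b} q`; `hexc`, `hexz`, `arcc`, `arcz`: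
`xx_ex`, `hex_all` (for `side a = false` swap, `Set.pair_comm`), `arc_one`, `end_HZ`. -/
theorem std [Finite V] [Finite C] (hG : IsSph3 G) (hS : S.Good) (hP : Pre G κ S)
    (hnb : ∀ v w t t' R, ¬ Big G κ S v w t t' R) : Std G κ S := by
  have hD := dich hG hS hP hnb
  have hex : ∀ a c, S.I a c → Conn (sd G) (Ex G κ {a, c}) ∧ HZ (sd G) (Ex G κ {a, c}) := by
    intro a c h
    by_cases ha : S.side a = true
    · have hH := hex_all hG hS hP hD ha h
      exact ⟨hH.comp.conn, hH.hz⟩
    · have hc : S.side c = true := by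
        have h1 := S.I_side h
        cases e : S.side c
        · rw [e] at h1
          exact absurd (Bool.eq_false_iff.2 ha) h1
        · rfl
      have hH := hex_all hG hS hP hD hc (S.I_symm h)
      rw [Set.pair_comm]
      exact ⟨hH.comp.conn, hH.hz⟩
  refine ⟨hP, ?_, ?_, ?_, ?_, ?_, ?_⟩
  · intro q a ha b hb hab
    have h1 : ({a, b} : Set C) ⊆ cols κ q := by
      intro x hx
      rcases hx with hx | hx
      · rw [hx]
        exact ha
      · rw [Set.mem_singleton_iff.1 hx]
        exact hb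
    have h2 : tc κ {a, b} q ∈ Ex G κ {a, b} := tc_cols_sub ⟨a, by simp⟩ h1
    exact reg_inc hG hS hP hab.symm ⟨_, h2, rfl⟩
  · intro a c h
    exact (xx_ex ⟨a, by simp⟩).1.2 (hex a c h).1
  · intro a c h
    exact (xx_ex ⟨a, by simp⟩).2.2 (hex a c h).2
  · intro a b c hab ha hb
    exact (xx_ex ⟨a, by simp⟩).1.2 (arc_one hG hS hP hD hab ha hb).conn
  · intro a b c hab ha hb
    exact (xx_ex ⟨a, by simp⟩).2.2
      (end_HZ hG hS hP hab (S.I_side ha).symm (arc_one hG hS hP hD hab ha hb))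
  · intro a b c d h
    exact pt_one hG hS hP hD h

end MOT.Pa
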