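import Pool.Agent.MOT.PaHex

/-!
# MOT/PaPur: all intervals are mixed (block I)
-/

open Classical

noncomputable section

namespace MOT.Pa

variable {V C W : Type} {G : SimpleGraph V} {κ : V → C} {S : Sys C} {ρ : C → ℕ}
  {a b c d v w t t' t1 t2 : C} {R H I J : Set (Cq G)} {p q r : Cq G}

private theorem pur_col {b' d' : C} (h : S.Inc4 a b c d) (h' : S.Inc4 a b' c d')
    (e : ({a, b, c, d} : Set C) = {a, b', c, d'}) : b = b' ∧ d = d' := by
  have hb : b' ∈ ({a, b, c, d} : Set C) := by rw [e]; simp
  have hd : d' ∈ ({a, b, c, d} : Set C) := by rw [e]; simp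
  simp only [Set.mem_insert_iff, Set.mem_singleton_iff] at hb hd
  have s1 := S.E_side h.1
  have s2 := S.E_side h.2.1
  have s3 := S.I_side h.2.2.1
  have s4 := S.E_side h'.1
  have s5 := S.E_side h'.2.1
  have n1 := S.E_ne h'.1
  have n2 := S.E_ne h'.2.1
  constructor
  · rcases hb with e1 | e1 | e1 | e1
    · exact absurd e1.symm n1
    · exact e1.symm
    · rw [e1] at s4; exact absurd s4 s3
    · rw [e1] at s4; exact absurd (s4.trans s2.symm) s3
  · rcases hd with e1 | e1 | e1 | e1
    · rw [e1] at s5; exact absurd s5.symm s3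
    · rw [e1] at s5; exact absurd (s1.trans s5.symm) s3
    · exact absurd e1.symm n2
    · exact e1.symm

private theorem pur_side (hv : S.side v = true) (ht : S.side t = false) :
    S.side t ≠ S.side v := by
  rw [hv, ht]
  decide

/-- regions of the piece of `t` (side `false`) and of `v` (side `true`) -/
theorem Dich.reg [Finite V] (hG : IsSph3 G) (hS : S.Good) (hP : Pre G κ S) (hD : Dich G κ S)
    (hv : S.side v = true) (ht : S.side t = false) (hR : IsComp (sd G) (Ex G κ {v, t}) R) :
    Hx G κ S v t R ∨ Rct κ R := by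
  have hI := reg_inc hG hS hP (pur_side hv ht) hR
  obtain ⟨H, hH, hall⟩ := hD v t hv hI
  rcases hall R hR with e | e
  · rw [e]
    exact Or.inl hH
  · exact Or.inr e

/-- two different corners with the same colours: not a hexagon -/
theorem Hx.not_two (hH : Hx G κ S v t H) (h : S.Inc4 v w t d) (hp : p ∈ cor κ H)
    (hq : q ∈ cor κ H) (hpc : cols κ p = {v, w, t, d}) (hqc : cols κ q = {v, w, t, d}) :
    p = q := by
  obtain ⟨x, hx⟩ := Set.ncard_eq_one.1 (hH.one w d h)
  have h1 : p ∈ cor κ H ∩ Ex G κ {v, w, t, d} := ⟨hp, hpc⟩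
  have h2 : q ∈ cor κ H ∩ Ex G κ {v, w, t, d} := ⟨hq, hqc⟩
  rw [hx, Set.mem_singleton_iff] at h1 h2
  rw [h1, h2]

/-- pure point: the partner `nx κ p t1` has the same colours `{v, w, t, t1}` -/
def Pu (κ : V → C) (S : Sys C) (v w t t1 : C) (p : Cq G) : Prop :=
  S.side v = true ∧ S.Inc4 v w t t1 ∧ cols κ p = {v, w, t, t1} ∧
    cols κ (nx κ p t1) = {v, w, t, t1}

theorem Pu.symm (h : Pu κ S v w t t1 p) : Pu κ S w v t t1 p := by
  obtain ⟨h1, h2, h3, h4⟩ := h
  refine ⟨?_, h2.left, ?_, ?_⟩
  · rw [← S.E_side h2.1]
    exact h1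
  · rw [h3, Set.insert_comm]
  · rw [h4, Set.insert_comm]

/-- all corners of a rectangle with a pure corner are pure (`rect` with `a = v`, `c = t`): for every
corner `q` of colours `{v, x, t, d}` -/
theorem pu_rect [Finite V] (hG : IsSph3 G) (hS : S.Good) (hP : Pre G κ S)
    (hR : IsComp (sd G) (Ex G κ {v, t}) R) (hr : Rct κ R) (hp : p ∈ cor κ R)
    (hpu : Pu κ S v w t t1 p) (hq : q ∈ cor κ R) {x : C} (hqc : cols κ q = {v, x, t, d})
    (h : S.Inc4 v x t d) : Pu κ S v x t d q := by
  obtain ⟨hv, hi, hc, hc2⟩ := hpu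
  obtain ⟨b', d', i1, i2, i3, k1, k2, k3, -, hcor⟩ := rect hG hS hP hR hr hp hc hi
  have hd : t1 = d' := (pur_col hi i2 (hc2.symm.trans k1)).2
  rw [← hd] at k1 k3 i2 i3
  have key : ∀ (b : C) (q : Cq G), S.Inc4 v b t t1 → cols κ q = {v, b, t, t1} →
      cols κ (nx κ q t1) = {v, b, t, t1} → ∀ {x d : C}, cols κ q = {v, x, t, d} →
      S.Inc4 v x t d → Pu κ S v x t d q := by
    intro b q h1 h2 h3 x d h4 h5
    obtain ⟨e1, e2⟩ := pur_col h1 h5 (h2.symm.trans h4)
    subst e1
    subst e2
    exact ⟨hv, h1, h2, h3⟩
  have back : ∀ (b : C) (q : Cq G), S.Inc4 v b t t1 → cols κ q = {v, b, t, t1} →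
      cols κ (nx κ q t1) = {v, b, t, t1} → nx κ (nx κ q t1) t1 = q := by
    intro b q h1 h2 h3
    obtain ⟨d2, j1, j2, -, j4, -, -⟩ := nx_spec hG hS hP h2 h1
    have e := (pur_col h1 j1 (h3.symm.trans j2)).2
    rw [← e] at j4
    exact j4
  rw [hcor] at hq
  simp only [Set.mem_insert_iff, Set.mem_singleton_iff] at hq
  rcases hq with e | e | e | e
  · rw [e] at hqc ⊢
    exact key w p hi hc hc2 hqc h
  · rw [e] at hqc ⊢
    refine key w _ hi hc2 ?_ hqc h
    rw [back w p hi hc hc2]
    exact hc
  · rw [e] at hqc ⊢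
    exact key b' _ i1 k2 k3 hqc h
  · rw [e] at hqc ⊢
    refine key b' _ i1 k3 ?_ hqc h
    rw [back b' _ i1 k2 k3]
    exact k2

/-- the pure part of the piece of `t` -/
def PuS (G : SimpleGraph V) (κ : V → C) (S : Sys C) (t : C) : Set (Cq G) :=
  {q | q ∈ So G κ S t ∧ ∃ v w t1 p, Pu κ S v w t t1 p ∧
    (q ∈ st κ p t1 ∨ ∃ R, IsComp (sd G) (Ex G κ {v, t}) R ∧ p ∈ cor κ R ∧ q ∈ R)}

/-- a rectangle at a pure point -/
private theorem pu_rct [Finite V] (hG : IsSph3 G) (hS : S.Good) (hP : Pre G κ S)
    (hD : Dich G κ S) (ht : S.side t = false) (hpu : Pu κ S v w t t1 p)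
    (hR : IsComp (sd G) (Ex G κ {v, t}) R) (hp : p ∈ cor κ R) : Rct κ R := by
  obtain ⟨hv, hi, hc, hc2⟩ := hpu
  rcases hD.reg hG hS hP hv ht hR with hH | hr
  · exfalso
    have h1 := (nx_cor hG hS hP hR hp hc hi).1
    obtain ⟨d', -, -, hne, -⟩ := nx_spec hG hS hP hc hi
    exact hne (hH.not_two hi hp h1 hc hc2).symm
  · exact hr

/-- closed under adjacency in the piece.  `q ∈ st κ p t1` (colours `{v, w, t}`): above `q` in `So t` only
the same interval (`st`); below it the same interval or colours `{v, t}`, `{w, t}`: a region with corner `p`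
(`tc_const`, `Pu.symm`).  `q ∈ R` (colours `{v, t}`): `R` is not a hexagon (`Hx.not_two` for `p` and
`nx κ p t1`, `nx_cor`), so a rectangle (`Dich.reg`); below `q` only `R`, above it `R` or colours
`{v, x, t}`: an interval whose ends are corners of `R` (`int_nbr`), pure by `pu_rect` (`st_uniq`). -/
theorem puS_closed [Finite V] (hG : IsSph3 G) (hS : S.Good) (hP : Pre G κ S) (hD : Dich G κ S)
    (ht : S.side t = false) (hq : q ∈ PuS G κ S t) (hr : r ∈ So G κ S t)
    (e : (sd G).Adj q r) : r ∈ PuS G κ S t := by
  obtain ⟨hqS, v, w, t1, p, hpu, hq⟩ := hq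
  refine ⟨hr, ?_⟩
  obtain ⟨hv, hi, hc, hc2⟩ := id hpu
  have hw : S.side w = true := by rw [← S.E_side hi.1]; exact hv
  -- colours of elements of the piece which are on side true
  have htc : t ∈ cols κ r := hr.1
  rcases hq with hq | ⟨R, hR, hpR, hqR⟩
  · obtain ⟨hI, hpI⟩ := st_comp hG hP hc hi
    have hqc : cols κ q = {v, w, t} := hI.sub hq
    have hcmp : q ≤ r ∨ r ≤ q := by
      rcases e with e | e
      · exact Or.inl e.le
      · exact Or.inr e.le
    by_cases h3 : cols κ r = {v, w, t}
    · exact ⟨v, w, t1, p, hpu, Or.inl (comp_of_le hI hq h3 hcmp)⟩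
    · have hrq : r ≤ q := by
        rcases hcmp with h | h
        · exfalso
          have hsub := cols_mono (κ := κ) h
          rw [hqc] at hsub
          apply h3
          refine Set.Subset.antisymm ?_ hsub
          rcases so_form hP hr with ⟨c, hcs, ec⟩ | ⟨c, d, hcs, hcd, ec⟩
          · exfalso
            have hv' := hsub (show v ∈ ({v, w, t} : Set C) by simp)
            have hw' := hsub (show w ∈ ({v, w, t} : Set C) by simp)
            rw [ec] at hv' hw'
            simp only [Set.mem_insert_iff, Set.mem_singleton_iff] at hv' hw'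
            have hvt : v ≠ t := fun e' => by rw [e', ht] at hv; exact Bool.false_ne_true hv
            have hwt : w ≠ t := fun e' => by rw [e', ht] at hw; exact Bool.false_ne_true hw
            exact S.E_ne hi.1 ((hv'.resolve_left hvt).trans (hw'.resolve_left hwt).symm)
          · have hv' := hsub (show v ∈ ({v, w, t} : Set C) by simp)
            have hw' := hsub (show w ∈ ({v, w, t} : Set C) by simp)
            rw [ec] at hv' hw'
            simp only [Set.mem_insert_iff, Set.mem_singleton_iff] at hv' hw'
            have hvt : v ≠ t := fun e' => by rw [e', ht] at hv; exact Bool.false_ne_true hv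
            have hwt : w ≠ t := fun e' => by rw [e', ht] at hw; exact Bool.false_ne_true hw
            have hvw := S.E_ne hi.1
            intro x hx
            rw [ec] at hx
            simp only [Set.mem_insert_iff, Set.mem_singleton_iff] at hx ⊢
            rcases hv'.resolve_left hvt with h4 | h4 <;>
              rcases hw'.resolve_left hwt with h5 | h5
            · exact absurd (h4.trans h5.symm) hvw
            · rcases hx with hx | hx | hx
              · exact Or.inr (Or.inr hx)
              · exact Or.inl (hx.trans h4.symm)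
              · exact Or.inr (Or.inl (hx.trans h5.symm))
            · rcases hx with hx | hx | hx
              · exact Or.inr (Or.inr hx)
              · exact Or.inr (Or.inl (hx.trans h5.symm))
              · exact Or.inl (hx.trans h4.symm)
            · exact absurd (h4.trans h5.symm) hvw
        · exact h
      have hsub := cols_mono (κ := κ) hrq
      rw [hqc] at hsub
      -- the colours of `r` are `{v, t}` or `{w, t}`
      have hex : ∃ u, (u = v ∨ u = w) ∧ cols κ r = {u, t} := by
        by_cases h1 : v ∈ cols κ r <;> by_cases h2 : w ∈ cols κ r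
        · exfalso
          apply h3
          refine Set.Subset.antisymm hsub ?_
          intro x hx
          simp only [Set.mem_insert_iff, Set.mem_singleton_iff] at hx
          rcases hx with rfl | rfl | rfl
          exacts [h1, h2, htc]
        · refine ⟨v, Or.inl rfl, Set.Subset.antisymm ?_ ?_⟩
          · intro x hx
            have hx' := hsub hx
            simp only [Set.mem_insert_iff, Set.mem_singleton_iff] at hx' ⊢
            rcases hx' with h | h | h
            · exact Or.inl h
            · exact absurd (h ▸ hx) h2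
            · exact Or.inr h
          · intro x hx
            simp only [Set.mem_insert_iff, Set.mem_singleton_iff] at hx
            rcases hx with rfl | rfl
            exacts [h1, htc]
        · refine ⟨w, Or.inr rfl, Set.Subset.antisymm ?_ ?_⟩
          · intro x hx
            have hx' := hsub hx
            simp only [Set.mem_insert_iff, Set.mem_singleton_iff] at hx' ⊢
            rcases hx' with h | h | h
            · exact absurd (h ▸ hx) h1
            · exact Or.inl h
            · exact Or.inr h
          · intro x hx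
            simp only [Set.mem_insert_iff, Set.mem_singleton_iff] at hx
            rcases hx with rfl | rfl
            exacts [h2, htc]
        · exfalso
          obtain ⟨-, -, c, hc', hcs⟩ := hr
          have hx' := hsub hc'
          simp only [Set.mem_insert_iff, Set.mem_singleton_iff] at hx'
          rcases hx' with h | h | h
          · exact h1 (h ▸ hc')
          · exact h2 (h ▸ hc')
          · exact hcs (by rw [h])
      have fin : ∀ v w, Pu κ S v w t t1 p → q ∈ st κ p t1 → cols κ r = {v, t} →
          ∃ v w t1 p, Pu κ S v w t t1 p ∧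
            (r ∈ st κ p t1 ∨ ∃ R, IsComp (sd G) (Ex G κ {v, t}) R ∧ p ∈ cor κ R ∧ r ∈ R) := by
        intro v w hpu hq hrc
        obtain ⟨hv, hi, hc, hc2⟩ := id hpu
        obtain ⟨g1, g2⟩ := rg_comp hG hP hc hi
        have g3 := (nx_cor hG hS hP g1 g2 hc hi).2.2.1 hq
        obtain ⟨-, -, g4⟩ := (mem_nbr g1).1 g3
        exact ⟨v, w, t1, p, hpu, Or.inr ⟨_, g1, g2, comp_of_le g1 g4 hrc
          (Or.inr (le_tc hrq hrc.le))⟩⟩
      obtain ⟨u, hu | hu, hrc⟩ := hex
      · rw [hu] at hrc
        exact fin v w hpu hq hrc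
      · rw [hu] at hrc
        exact fin w v hpu.symm hq hrc
  · have hrct := pu_rct hG hS hP hD ht hpu hR hpR
    have hqc : cols κ q = {v, t} := hR.sub hqR
    have hvt : v ≠ t := fun e' => by rw [e', ht] at hv; exact Bool.false_ne_true hv
    have hcmp : q ≤ r ∨ r ≤ q := by
      rcases e with e | e
      · exact Or.inl e.le
      · exact Or.inr e.le
    by_cases h3 : cols κ r = {v, t}
    · exact ⟨v, w, t1, p, hpu, Or.inr ⟨R, hR, hpR, comp_of_le hR hqR h3 hcmp⟩⟩
    · have hqr : q ≤ r := by
        rcases hcmp with h | h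
        · exact h
        · exfalso
          have hsub := cols_mono (κ := κ) h
          rw [hqc] at hsub
          apply h3
          refine Set.Subset.antisymm hsub ?_
          obtain ⟨-, -, c, hc', hcs⟩ := hr
          have hx' := hsub hc'
          simp only [Set.mem_insert_iff, Set.mem_singleton_iff] at hx'
          have hcv : c = v := by
            rcases hx' with h | h
            · exact h
            · exact absurd (by rw [h]) hcs
          intro x hx
          simp only [Set.mem_insert_iff, Set.mem_singleton_iff] at hx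
          rcases hx with rfl | rfl
          · rw [← hcv]; exact hc'
          · exact htc
      have hsub := cols_mono (κ := κ) hqr
      rw [hqc] at hsub
      have hvr : v ∈ cols κ r := hsub (by simp)
      -- the colours of `r` are `{v, x, t}`
      have hex : ∃ x, S.E v x ∧ cols κ r = {v, x, t} := by
        rcases so_form hP hr with ⟨c, hcs, ec⟩ | ⟨c, d, hcs, hcd, ec⟩
        · exfalso
          apply h3
          rw [ec] at hvr ⊢
          simp only [Set.mem_insert_iff, Set.mem_singleton_iff] at hvr
          rw [← hvr.resolve_left hvt, Set.pair_comm]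
        · have h4 := hvr
          rw [ec] at h4
          simp only [Set.mem_insert_iff, Set.mem_singleton_iff] at h4
          rcases h4.resolve_left hvt with h5 | h5
          · refine ⟨d, by rw [h5]; exact hcd, ?_⟩
            rw [ec, h5]
            ext x
            simp only [Set.mem_insert_iff, Set.mem_singleton_iff]
            tauto
          · refine ⟨c, by rw [h5]; exact S.E_symm hcd, ?_⟩
            rw [ec, h5]
            ext x
            simp only [Set.mem_insert_iff, Set.mem_singleton_iff]
            tauto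
      obtain ⟨x, hvx, hrc⟩ := hex
      have hrI : IsComp (sd G) (Ex G κ {v, x, t}) (comp (sd G) (Ex G κ {v, x, t}) r) :=
        ⟨r, hrc, rfl⟩
      have hr1 : r ∈ comp (sd G) (Ex G κ {v, x, t}) r := comp_self hrc
      have hqne : q ≠ r := fun e' => h3 (e' ▸ hqc)
      have hrn : r ∈ nbr R := ⟨fun h => h3 (hR.sub h), q, hqR, lt_of_le_of_ne hqr hqne⟩
      have hs := pur_side hv ht
      obtain ⟨-, hcI⟩ := int_nbr hG hP hs hR hvx hrI ⟨r, hr1, hrn⟩
      have h2 := end_two hG hS hP hvx hs hrI
      obtain ⟨q', hq'⟩ : (cor κ (comp (sd G) (Ex G κ {v, x, t}) r)).Nonempty :=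
        (Set.ncard_pos (Set.toFinite _)).1 (by omega)
      obtain ⟨b, d, hbc, hbi⟩ := cor_form hG hP hs hR (hcI hq')
      obtain ⟨-, hsub2, -, -⟩ := (mem_cor hG ⟨v, by simp⟩ hrI).1 hq'
      have hxb : x = b := by
        have h4 := hsub2 (show x ∈ ({v, x, t} : Set C) by simp)
        rw [hbc] at h4
        simp only [Set.mem_insert_iff, Set.mem_singleton_iff] at h4
        have hx : S.side x = true := by rw [← S.E_side hvx]; exact hv
        have hd' : S.side d = false := by rw [← S.E_side hbi.2.1]; exact ht
        rcases h4 with h4 | h4 | h4 | h4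
        · exact absurd h4.symm (S.E_ne hvx)
        · exact h4
        · rw [h4, ht] at hx; exact absurd hx Bool.false_ne_true
        · rw [h4, hd'] at hx; exact absurd hx Bool.false_ne_true
      rw [← hxb] at hbc hbi
      have hpu' := pu_rect hG hS hP hR hrct hpR hpu (hcI hq') hbc hbi
      have hst := st_uniq hG hP hbc hbi hrI hq'
      exact ⟨v, x, d, q', hpu', Or.inl (hst ▸ hr1)⟩

/-- (S4a) ALL INTERVALS ARE MIXED: otherwise `PuS` is the whole connected piece `So t` (`so_Conn`), but it
does not contain the elements of a hexagon `H` of colours `v0, t` (`hS.exI t`, `Dich`; an element of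
`H ∩ PuS` has two colours, so it is in a region with a pure corner, which is `H`: `Hx.not_two`). -/
theorem mixed [Finite V] (hG : IsSph3 G) (hS : S.Good) (hP : Pre G κ S) (hD : Dich G κ S) :
    ¬ Pu κ S v w t t1 p := by
  intro hpu
  obtain ⟨hv, hi, hc, hc2⟩ := id hpu
  have ht : S.side t = false := by
    have h1 := S.I_side hi.2.2.1
    rw [hv] at h1
    simpa using h1.symm
  have hw : S.side w = true := by rw [← S.E_side hi.1]; exact hv
  have hwt : w ≠ t := fun e' => by rw [e', ht] at hw; exact Bool.false_ne_true hw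
  have hvt : v ≠ t := fun e' => by rw [e', ht] at hv; exact Bool.false_ne_true hv
  obtain ⟨hI, hpI⟩ := st_comp hG hP hc hi
  obtain ⟨q, hq⟩ := hI.conn.1
  have hqc : cols κ q = {v, w, t} := hI.sub hq
  have hqS : q ∈ So G κ S t := by
    refine ⟨by rw [hqc]; simp, fun b hb hbs => ?_, v, by rw [hqc]; simp, (pur_side hv ht).symm⟩
    rw [hqc] at hb
    simp only [Set.mem_insert_iff, Set.mem_singleton_iff] at hb
    rcases hb with h | h | h
    · rw [h, hv, ht] at hbs; exact absurd hbs.symm Bool.false_ne_true
    · rw [h, hw, ht] at hbs; exact absurd hbs.symm Bool.false_ne_true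
    · exact h
  have hqP : q ∈ PuS G κ S t := ⟨hqS, v, w, t1, p, hpu, Or.inl hq⟩
  have hall : ∀ r, Relation.ReflTransGen (EIn (sd G) (So G κ S t)) q r → r ∈ PuS G κ S t := by
    intro r hr
    induction hr with
    | refl => exact hqP
    | tail _ e ih => exact puS_closed hG hS hP hD ht ih e.2.2 e.1
  obtain ⟨v0, hv0⟩ := hS.exI t
  have hv0s : S.side v0 = true := by
    have h1 := S.I_side hv0
    rw [ht] at h1
    simpa using h1.symm
  obtain ⟨H, hH, -⟩ := hD v0 t hv0s (S.I_symm hv0)
  obtain ⟨h, hh⟩ := hH.comp.conn.1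
  have hhc : cols κ h = {v0, t} := hH.comp.sub hh
  have hv0t : v0 ≠ t := fun e' => by rw [e', ht] at hv0s; exact Bool.false_ne_true hv0s
  have hhS : h ∈ So G κ S t := by
    refine ⟨by rw [hhc]; simp, fun b hb hbs => ?_, v0, by rw [hhc]; simp,
      (pur_side hv0s ht).symm⟩
    rw [hhc] at hb
    simp only [Set.mem_insert_iff, Set.mem_singleton_iff] at hb
    rcases hb with h | h
    · rw [h, hv0s, ht] at hbs; exact absurd hbs.symm Bool.false_ne_true
    · exact h
  obtain ⟨-, v', w', t1', p', hpu', hcase⟩ := hall h ((so_Conn hG hS hP t).2 q hqS h hhS)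
  obtain ⟨hv', hi', hc', hc2'⟩ := id hpu'
  have hw' : S.side w' = true := by rw [← S.E_side hi'.1]; exact hv'
  have hwt' : w' ≠ t := fun e' => by rw [e', ht] at hw'; exact Bool.false_ne_true hw'
  have hvt' : v' ≠ t := fun e' => by rw [e', ht] at hv'; exact Bool.false_ne_true hv'
  rcases hcase with h1 | ⟨R, hR, hpR, hhR⟩
  · have h2 : cols κ h = {v', w', t} := (st_comp hG hP hc' hi').1.sub h1
    have h3 : v' ∈ cols κ h := by rw [h2]; simp
    have h4 : w' ∈ cols κ h := by rw [h2]; simp
    rw [hhc] at h3 h4
    simp only [Set.mem_insert_iff, Set.mem_singleton_iff] at h3 h4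
    exact S.E_ne hi'.1 ((h3.resolve_right hvt').trans (h4.resolve_right hwt').symm)
  · have h2 : cols κ h = {v', t} := hR.sub hhR
    have h3 : v' ∈ cols κ h := by rw [h2]; simp
    rw [hhc] at h3
    simp only [Set.mem_insert_iff, Set.mem_singleton_iff] at h3
    have e : v' = v0 := h3.resolve_right hvt'
    subst e
    have hRH : R = H := hR.eq_of_inter hH.comp ⟨h, hhR, hh⟩
    rw [hRH] at hpR
    have h5 := (nx_cor hG hS hP hH.comp hpR hc' hi').1
    obtain ⟨d', -, -, hne, -⟩ := nx_spec hG hS hP hc' hi'
    exact hne (hH.not_two hi' hpR h5 hc' hc2').symm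

end MOT.Pa
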