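import Pool.Agent.MOT.PaOrc

/-!
# MOT/PaRec: rectangles (block I)
-/

open Classical

noncomputable section

namespace MOT.Pa

variable {V C W : Type} {G : SimpleGraph V} {κ : V → C} {S : Sys C} {ρ : C → ℕ}
  {a b c d v w t t' t1 t2 : C} {R H I J : Set (Cq G)} {p q r : Cq G}

/-- rectangle: a disc region with four corners -/
def Rct (κ : V → C) (R : Set (Cq G)) : Prop := HZ (sd G) R ∧ (cor κ R).ncard = 4

private theorem rec_col {b' d' : C} (h : S.Inc4 a b c d) (h' : S.Inc4 a b' c d')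
    (e : ({a, b, c, d} : Set C) = {a, b', c, d'}) : b = b' ∧ d = d' := by
  have hb : b' ∈ ({a, b, c, d} : Set C) := by rw [e]; simp
  have hd : d' ∈ ({a, b, c, d} : Set C) := by rw [e]; simp
  simp only [Set.mem_insert_iff, Set.mem_singleton_iff] at hb hd
  have s1 := S.E_side h.1
  have s2 := S.E_side h.2.1
  have s3 := S.I_side h.2.2.1
  have s4 := S.E_side h'.1
  have s5 := S.E_side h'.2.1
  have n1 := S.E_ne h'.1
  have n2 := S.E_ne h'.2.1
  constructor
  · rcases hb with e1 | e1 | e1 | e1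
    · exact absurd e1.symm n1
    · exact e1.symm
    · rw [e1] at s4; exact absurd s4 s3
    · rw [e1] at s4; exact absurd (s4.trans s2.symm) s3
  · rcases hd with e1 | e1 | e1 | e1
    · rw [e1] at s5; exact absurd s5.symm s3
    · rw [e1] at s5; exact absurd (s1.trans s5.symm) s3
    · exact absurd e1.symm n2
    · exact e1.symm

private theorem rec_inv {α : Type} [Finite α] {N : Set α} (f : α → α) (h1 : ∀ x ∈ N, f x ∈ N)
    (h2 : ∀ x ∈ N, f (f x) = x) (h3 : ∀ x ∈ N, f x ≠ x) : Even N.ncard := by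
  have hf : N.Finite := Set.toFinite N
  have hm : ∀ x, x ∈ hf.toFinset ↔ x ∈ N := fun x => hf.mem_toFinset
  rw [Set.ncard_eq_toFinset_card N hf, ← ZMod.natCast_eq_zero_iff_even]
  have := Finset.sum_involution (s := hf.toFinset) (f := fun _ => (1 : ZMod 2)) (fun x _ => f x)
    (fun x _ => by decide) (fun x hx _ => h3 x ((hm x).1 hx))
    (fun x hx => (hm _).2 (h1 x ((hm x).1 hx))) (fun x hx => h2 x ((hm x).1 hx))
  simpa using this

/-- THE CORNERS OF A RECTANGLE.  `p1 = p`, `p2 = nx κ p d`, `p4 = nx κ p b`, `p3 = nx κ p2 b` are corners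
(`nx_cor`); `p4 ≠ p2` by `orb2`; `p3 ≠ p1, p2, p4` (partner of the partner); so these are all.
`nx κ p4 d` is a corner, not `p4`, not `p1`, not `p2` (partner of the partner, `p4 ≠ p2`), so it is `p3`;
compare the colours of `p3`. -/
theorem rect [Finite V] (hG : IsSph3 G) (hS : S.Good) (hP : Pre G κ S)
    (hR : IsComp (sd G) (Ex G κ {a, c}) R) (hr : Rct κ R) (hp : p ∈ cor κ R)
    (hpc : cols κ p = {a, b, c, d}) (h : S.Inc4 a b c d) :
    ∃ b' d', S.Inc4 a b' c d ∧ S.Inc4 a b c d' ∧ S.Inc4 a b' c d' ∧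
      cols κ (nx κ p d) = {a, b, c, d'} ∧ cols κ (nx κ p b) = {a, b', c, d} ∧
      cols κ (nx κ (nx κ p b) d) = {a, b', c, d'} ∧
      nx κ (nx κ p d) b = nx κ (nx κ p b) d ∧
      cor κ R = {p, nx κ p d, nx κ p b, nx κ (nx κ p b) d} := by
  obtain ⟨d', i2, k2, n2, e2, -, -⟩ := nx_spec hG hS hP hpc h
  obtain ⟨b', i4, k4, n4, e4, -, -⟩ := nx_spec' hG hS hP hpc h
  obtain ⟨m2, m4, -, -⟩ := nx_cor hG hS hP hR hp hpc h
  obtain ⟨b3, i3, k3, n3, e3, -, -⟩ := nx_spec' hG hS hP k2 i2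
  obtain ⟨-, m3, -, -⟩ := nx_cor hG hS hP hR m2 k2 i2
  obtain ⟨dq, iq, kq, nq, eq, -, -⟩ := nx_spec hG hS hP k4 i4
  obtain ⟨mq, -, -, -⟩ := nx_cor hG hS hP hR m4 k4 i4
  have h24 : nx κ p d ≠ nx κ p b := by
    intro e
    have h1 := orb2 hG hS hP hR hr.1 hp hpc h e
    have h4 := hr.2
    rw [h1] at h4
    have h5 := Set.ncard_insert_le p {nx κ p d}
    rw [Set.ncard_singleton] at h5
    omega
  have h31 : nx κ (nx κ p d) b ≠ p := by
    intro e
    have k3' := k3
    rw [e, hpc] at k3'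
    have hb := (rec_col h i3 k3').1
    rw [e, ← hb] at e3
    exact h24 e3.symm
  have h34 : nx κ (nx κ p d) b ≠ nx κ p b := by
    intro e
    have k3' := k3
    rw [e, k4] at k3'
    have hb := (rec_col i4 i3 k3').1
    rw [e, ← hb, e4] at e3
    exact n2 e3.symm
  have hq1 : nx κ (nx κ p b) d ≠ p := by
    intro e
    have kq' := kq
    rw [e, hpc] at kq'
    have hd := (rec_col h iq kq').2
    rw [e, ← hd] at eq
    exact h24 eq
  have hq2 : nx κ (nx κ p b) d ≠ nx κ p d := by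
    intro e
    have kq' := kq
    rw [e, k2] at kq'
    have hd := (rec_col i2 iq kq').2
    rw [e, ← hd, e2] at eq
    exact n4 eq.symm
  have hcard : ({p, nx κ p d, nx κ p b, nx κ (nx κ p d) b} : Set (Cq G)).ncard = 4 := by
    rw [Set.ncard_insert_of_notMem, Set.ncard_insert_of_notMem, Set.ncard_pair h34.symm]
    · simp only [Set.mem_insert_iff, Set.mem_singleton_iff, not_or]
      exact ⟨h24, n3.symm⟩
    · simp only [Set.mem_insert_iff, Set.mem_singleton_iff, not_or]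
      exact ⟨n2.symm, n4.symm, h31.symm⟩
  have hcor : ({p, nx κ p d, nx κ p b, nx κ (nx κ p d) b} : Set (Cq G)) = cor κ R := by
    refine Set.eq_of_subset_of_ncard_le ?_ ?_ (Set.toFinite _)
    · intro x hx
      simp only [Set.mem_insert_iff, Set.mem_singleton_iff] at hx
      rcases hx with rfl | rfl | rfl | rfl
      · exact hp
      · exact m2
      · exact m4
      · exact m3
    · rw [hcard, hr.2]
  have hq3 : nx κ (nx κ p b) d = nx κ (nx κ p d) b := by
    have hm := mq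
    rw [← hcor] at hm
    simp only [Set.mem_insert_iff, Set.mem_singleton_iff] at hm
    rcases hm with e | e | e | e
    · exact absurd e hq1
    · exact absurd e hq2
    · exact absurd e nq
    · exact e
  have kq' := kq
  rw [hq3, k3] at kq'
  obtain ⟨-, hd⟩ := rec_col i3 iq kq'
  refine ⟨b', d', i4, i2, ?_, k2, k4, ?_, hq3.symm, ?_⟩
  · rw [hd]; exact iq
  · rw [hd]; exact kq
  · rw [hq3]; exact hcor.symm

/-- (S2) a rectangle contains an even number of corners `p` of colours `{v, w, t, t1}` whose partner has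
colours `{v, w, t, t2}`: fixed point free involution `p ↦ nx κ p w` on these corners (by `rect` the
colours of `nx κ p w` are `{v, b', t, t1}`, those of its partner `{v, b', t, t2}`; `b' = w` by
`hS.uniq`). -/
theorem rect_even [Finite V] (hG : IsSph3 G) (hS : S.Good) (hP : Pre G κ S)
    (h1 : S.Inc4 v w t t1) (h2 : S.Inc4 v w t t2) (hne : t1 ≠ t2)
    (hR : IsComp (sd G) (Ex G κ {v, t}) R) (hr : Rct κ R) :
    Even {p | p ∈ cor κ R ∧ cols κ p = {v, w, t, t1} ∧
      cols κ (nx κ p t1) = {v, w, t, t2}}.ncard := by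
  have key : ∀ p, p ∈ cor κ R → cols κ p = {v, w, t, t1} → cols κ (nx κ p t1) = {v, w, t, t2} →
      nx κ p w ∈ cor κ R ∧ cols κ (nx κ p w) = {v, w, t, t1} ∧
        cols κ (nx κ (nx κ p w) t1) = {v, w, t, t2} ∧ nx κ (nx κ p w) w = p ∧ nx κ p w ≠ p := by
    intro p hp hc hc2
    obtain ⟨b', d', i1, i2, i3, k1, k2, k3, -, -⟩ := rect hG hS hP hR hr hp hc h1
    rw [hc2] at k1
    have hd : t2 = d' := (rec_col h2 i2 k1).2
    rw [← hd] at i3 k3
    have hb : w = b' := hS.uniq v w b' t t1 t2 h1 h2 i1 i3 hne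
    rw [← hb] at k2 k3 i1
    obtain ⟨b1, j1, l1, n1, e1, -, -⟩ := nx_spec' hG hS hP hc h1
    have hb1 : w = b1 := by
      rw [k2] at l1
      exact (rec_col h1 j1 l1).1
    rw [← hb1] at e1
    exact ⟨(nx_cor hG hS hP hR hp hc h1).2.1, k2, k3, e1, n1⟩
  refine rec_inv (fun p => nx κ p w) ?_ ?_ ?_
  · rintro p ⟨h1, h2, h3⟩
    obtain ⟨k1, k2, k3, -, -⟩ := key p h1 h2 h3
    exact ⟨k1, k2, k3⟩
  · rintro p ⟨h1, h2, h3⟩
    exact (key p h1 h2 h3).2.2.2.1
  · rintro p ⟨h1, h2, h3⟩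
    exact (key p h1 h2 h3).2.2.2.2

end MOT.Pa
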