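import Pool.Agent.MOT.PaPur

/-!
# MOT/PaRet: there are no rectangles (block I)
-/

open Classical

noncomputable section

namespace MOT.Pa

variable {V C W : Type} {G : SimpleGraph V} {κ : V → C} {S : Sys C} {ρ : C → ℕ}
  {a b c d v w t t' t1 t2 : C} {R H I J : Set (Cq G)} {p q r : Cq G}

/-- returning point: the other end of the arc at `p` has the same colours -/
def Re (κ : V → C) (S : Sys C) (v w t t1 : C) (p : Cq G) : Prop :=
  S.side v = true ∧ S.Inc4 v w t t1 ∧ cols κ p = {v, w, t, t1} ∧
    cols κ (nx κ p w) = {v, w, t, t1}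

theorem Re.symm (h : Re κ S v w t t1 p) : Re κ S v w t1 t p := by
  obtain ⟨h1, h2, h3, h4⟩ := h
  rw [Set.pair_comm t t1] at h3 h4
  exact ⟨h1, h2.right, h3, h4⟩

/-- all corners of a rectangle are returning: `rect`, `mixed`, `hS.uniq` -/
theorem re_rect [Finite V] (hG : IsSph3 G) (hS : S.Good) (hP : Pre G κ S) (hD : Dich G κ S)
    (hv : S.side v = true) (hR : IsComp (sd G) (Ex G κ {v, t}) R) (hr : Rct κ R)
    (hp : p ∈ cor κ R) (hpc : cols κ p = {v, w, t, d}) (h : S.Inc4 v w t d) :
    Re κ S v w t d p := by
  obtain ⟨b', d', h1, h2, h3, h4, h5, -⟩ := rect hG hS hP hR hr hp hpc h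
  have hne : d ≠ d' := by
    intro e
    rw [← e] at h4
    exact mixed hG hS hP hD ⟨hv, h, hpc, h4⟩
  have hb := hS.uniq v w b' t d d' h h2 h1 h3 hne
  rw [← hb] at h5
  exact ⟨hv, h, hpc, h5⟩

/-- the part of the piece of `v` in rectangles and returning arcs -/
def ReS (G : SimpleGraph V) (κ : V → C) (S : Sys C) (v : C) : Set (Cq G) :=
  {q | q ∈ So G κ S v ∧ ((∃ t R, S.side t = false ∧ IsComp (sd G) (Ex G κ {v, t}) R ∧ Rct κ R ∧
      q ∈ R) ∨ ∃ w t t1 p, Re κ S v w t t1 p ∧ q ∈ st κ p w)}

private theorem prt_low [Finite V] (hG : IsSph3 G) (hS : S.Good) (hP : Pre G κ S)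
    (hD : Dich G κ S) (h : Re κ S v w t t1 p) (hq : q ∈ st κ p w) (hr : r ∈ So G κ S v)
    (hc : cols κ r = {v, t}) (hlt : r < q) : r ∈ ReS G κ S v := by
  obtain ⟨hv, hinc, hpc, hnc⟩ := h
  have hs : S.side t ≠ S.side v := (S.I_side hinc.2.2.1).symm
  have ht : S.side t = false := by
    rw [hv] at hs
    simpa using hs
  obtain ⟨hI, -⟩ := st_comp' hG hP hpc hinc
  obtain ⟨b', -, -, hne, -, -, hcor⟩ := nx_spec' hG hS hP hpc hinc
  have hcq := comp_cols hI hq
  have hR : IsComp (sd G) (Ex G κ {v, t}) (comp (sd G) (Ex G κ {v, t}) r) := ⟨r, hc, rfl⟩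
  have hrR : r ∈ comp (sd G) (Ex G κ {v, t}) r := comp_self hc
  have hqR : q ∉ comp (sd G) (Ex G κ {v, t}) r := by
    intro h2
    have h3 := comp_cols hR h2
    have h4 : t1 ∈ ({v, t} : Set C) := by
      rw [← h3, hcq]
      exact Or.inr (Or.inr rfl)
    rcases h4 with h4 | h4
    · exact hinc.ne.2.2.1 h4.symm
    · exact hinc.ne.2.2.2.2.2 (Set.mem_singleton_iff.1 h4).symm
  obtain ⟨-, hsub⟩ := arc_nbr hG hP hs hR hinc.2.1 hI ⟨q, hq, hqR, r, hrR, hlt⟩
  have hp1 : p ∈ cor κ (comp (sd G) (Ex G κ {v, t}) r) := by
    apply hsub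
    rw [hcor]
    exact Or.inl rfl
  have hp2 : nx κ p w ∈ cor κ (comp (sd G) (Ex G κ {v, t}) r) := by
    apply hsub
    rw [hcor]
    exact Or.inr rfl
  rcases hD.reg hG hS hP hv ht hR with hH | hr4
  · exact absurd (hH.not_two hinc hp1 hp2 hpc hnc).symm hne
  · exact ⟨hr, Or.inl ⟨t, _, ht, hR, hr4, hrR⟩⟩

/-- closed under adjacency in the piece.  `q ∈ R` rectangle: below `q` only `R`, above it `R` or colours
`{v, t, d}`: an arc whose ends are corners of `R` (`arc_nbr`), so returning (`re_rect`, `st_uniq'`).
`q ∈ st κ p w` (colours `{v, t, t1}`): above `q` in `So v` only the same arc; below it the same arc or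
colours `{v, t}`, `{v, t1}`: a region with the corners `p` and `nx κ p w` of the same colours, not a
hexagon (`Hx.not_two`, `Re.symm`), so a rectangle (`Dich.reg`). -/
theorem reS_closed [Finite V] (hG : IsSph3 G) (hS : S.Good) (hP : Pre G κ S) (hD : Dich G κ S)
    (hv : S.side v = true) (hq : q ∈ ReS G κ S v) (hr : r ∈ So G κ S v)
    (e : (sd G).Adj q r) : r ∈ ReS G κ S v := by
  obtain ⟨hqS, hq⟩ := hq
  rcases hq with ⟨t, R, ht, hR, hr4, hqR⟩ | ⟨w, t, t1, p, hRe, hqI⟩
  · have hs : S.side t ≠ S.side v := by
      rw [hv, ht]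
      exact Bool.false_ne_true
    have hcq := comp_cols hR hqR
    rcases e with hlt | hlt
    · -- above
      have hsub : ({v, t} : Set C) ⊆ cols κ r := by
        rw [← hcq]
        exact cols_mono hlt.le
      have htr : t ∈ cols κ r := hsub (Or.inr rfl)
      have hfin : cols κ r = {v, t} → r ∈ ReS G κ S v := fun h1 =>
        ⟨hr, Or.inl ⟨t, R, ht, hR, hr4, comp_of_le hR hqR h1 (Or.inl hlt.le)⟩⟩
      rcases so_form hP hr with ⟨c, hc, h1⟩ | ⟨c, d, hc, hcd, h1⟩
      · apply hfin
        rw [h1] at htr ⊢
        rcases htr with h2 | h2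
        · exact absurd (by rw [h2]) hs
        · rw [Set.mem_singleton_iff.1 h2]
      · obtain ⟨d', hE, hcr⟩ : ∃ d', S.E t d' ∧ cols κ r = {v, t, d'} := by
          rw [h1] at htr
          rcases htr with h2 | h2 | h2
          · exact absurd (by rw [h2]) hs
          · exact ⟨d, by rw [h2]; exact hcd, by rw [h1, h2]⟩
          · rw [Set.mem_singleton_iff.1 h2]
            exact ⟨c, S.E_symm hcd, by rw [h1, Set.pair_comm c d]⟩
        have hI : IsComp (sd G) (Ex G κ {v, t, d'}) (comp (sd G) (Ex G κ {v, t, d'}) r) :=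
          ⟨r, hcr, rfl⟩
        have hrI : r ∈ comp (sd G) (Ex G κ {v, t, d'}) r := comp_self hcr
        have hdv : d' ≠ v := fun h2 => hs (by rw [← h2]; exact S.E_side hE)
        have hrR : r ∉ R := by
          intro h2
          have h3 := comp_cols hR h2
          have h4 : d' ∈ ({v, t} : Set C) := by
            rw [← h3, hcr]
            exact Or.inr (Or.inr rfl)
          rcases h4 with h4 | h4
          · exact hdv h4
          · exact S.E_ne hE (Set.mem_singleton_iff.1 h4).symm
        obtain ⟨-, hcor⟩ := arc_nbr hG hP hs hR hE hI ⟨r, hrI, hrR, q, hqR, hlt⟩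
        have hset : ({v, t, d'} : Set C) = {t, d', v} := by
          ext x
          simp only [Set.mem_insert_iff, Set.mem_singleton_iff]
          tauto
        have htwo : (cor κ (comp (sd G) (Ex G κ {v, t, d'}) r)).ncard = 2 := by
          refine end_two hG hS hP hE hs.symm ?_
          rw [← hset]
          exact hI
        have hne : (cor κ (comp (sd G) (Ex G κ {v, t, d'}) r)).Nonempty := by
          rw [Set.nonempty_iff_ne_empty]
          intro h2
          rw [h2, Set.ncard_empty] at htwo
          exact absurd htwo (by norm_num)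
        obtain ⟨p, hpI⟩ := hne
        have hpR := hcor hpI
        obtain ⟨b, d, hpc, hinc⟩ := cor_form hG hP hs hR hpR
        have hd' : d' ∈ cols κ p := by
          obtain ⟨-, q0, hq0, hlt0⟩ := hpI
          apply cols_mono hlt0.le
          rw [comp_cols hI hq0]
          exact Or.inr (Or.inr rfl)
        have hdd : d' = d := by
          rw [hpc] at hd'
          rcases hd' with h2 | h2 | h2 | h2
          · exact absurd h2 hdv
          · exfalso
            apply hs
            rw [S.E_side hE, h2]
            exact (S.E_side hinc.1).symm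
          · exact absurd h2.symm (S.E_ne hE)
          · exact h2
        rw [← hdd] at hpc hinc
        have hre := re_rect hG hS hP hD hv hR hr4 hpR hpc hinc
        have hst := st_uniq' hG hP hpc hinc hI hpI
        refine ⟨hr, Or.inr ⟨b, t, d', p, hre, ?_⟩⟩
        rw [← hst]
        exact hrI
    · -- below
      have h1 : cols κ r = {v, t} := by
        refine Set.Subset.antisymm ?_ ?_
        · rw [← hcq]
          exact cols_mono hlt.le
        · obtain ⟨h2, -, c, h3, h4⟩ := hr
          have h5 : c ∈ ({v, t} : Set C) := by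
            rw [← hcq]
            exact cols_mono hlt.le h3
          rcases h5 with h5 | h5
          · exact absurd (by rw [h5]) h4
          · rw [Set.mem_singleton_iff.1 h5] at h3
            intro x hx
            rcases hx with hx | hx
            · rw [hx]
              exact h2
            · rw [Set.mem_singleton_iff.1 hx]
              exact h3
      exact ⟨hr, Or.inl ⟨t, R, ht, hR, hr4, comp_of_le hR hqR h1 (Or.inr hlt.le)⟩⟩
  · obtain ⟨-, hinc, hpc, hnc⟩ := id hRe
    obtain ⟨hI, hpI⟩ := st_comp' hG hP hpc hinc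
    have hcq := comp_cols hI hqI
    have hfin : cols κ r = {v, t, t1} → (q ≤ r ∨ r ≤ q) → r ∈ ReS G κ S v := fun h1 h2 =>
      ⟨hr, Or.inr ⟨w, t, t1, p, hRe, comp_of_le hI hqI h1 h2⟩⟩
    have htt : t ≠ t1 := hinc.ne.2.2.2.2.2
    have htv : t ≠ v := hinc.ne.2.1.symm
    have ht1v : t1 ≠ v := hinc.ne.2.2.1.symm
    rcases e with hlt | hlt
    · -- above
      have hsub : ({v, t, t1} : Set C) ⊆ cols κ r := by
        rw [← hcq]
        exact cols_mono hlt.le
      have htr : t ∈ cols κ r := hsub (Or.inr (Or.inl rfl))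
      have ht1r : t1 ∈ cols κ r := hsub (Or.inr (Or.inr rfl))
      refine hfin (Set.Subset.antisymm ?_ hsub) (Or.inl hlt.le)
      rcases so_form hP hr with ⟨c, hc, h1⟩ | ⟨c, d, hc, hcd, h1⟩
      · exfalso
        rw [h1] at htr ht1r
        rcases htr with h2 | h2
        · exact htv h2
        · rcases ht1r with h3 | h3
          · exact ht1v h3
          · exact htt ((Set.mem_singleton_iff.1 h2).trans (Set.mem_singleton_iff.1 h3).symm)
      · rw [h1] at htr ht1r ⊢
        intro x hx
        simp only [Set.mem_insert_iff, Set.mem_singleton_iff] at htr ht1r hx ⊢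
        rcases htr with h2 | h2 | h2
        · exact absurd h2 htv
        · rcases ht1r with h3 | h3 | h3
          · exact absurd h3 ht1v
          · exact absurd (h2.trans h3.symm) htt
          · rw [h2, h3]
            exact hx
        · rcases ht1r with h3 | h3 | h3
          · exact absurd h3 ht1v
          · rw [h2, h3]
            rcases hx with hx | hx | hx
            · exact Or.inl hx
            · exact Or.inr (Or.inr hx)
            · exact Or.inr (Or.inl hx)
          · exact absurd (h2.trans h3.symm) htt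
    · -- below
      have hsub : cols κ r ⊆ {v, t, t1} := by
        rw [← hcq]
        exact cols_mono hlt.le
      have hvr : v ∈ cols κ r := hr.1
      by_cases h1 : t ∈ cols κ r
      · by_cases h2 : t1 ∈ cols κ r
        · refine hfin (Set.Subset.antisymm hsub ?_) (Or.inr hlt.le)
          intro x hx
          rcases hx with hx | hx | hx
          · rw [hx]
            exact hvr
          · rw [hx]
            exact h1
          · rw [Set.mem_singleton_iff.1 hx]
            exact h2
        · refine prt_low hG hS hP hD hRe hqI hr (Set.Subset.antisymm ?_ ?_) hlt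
          · intro x hx
            rcases hsub hx with h3 | h3 | h3
            · exact Or.inl h3
            · exact Or.inr h3
            · rw [Set.mem_singleton_iff.1 h3] at hx
              exact absurd hx h2
          · intro x hx
            rcases hx with hx | hx
            · rw [hx]
              exact hvr
            · rw [Set.mem_singleton_iff.1 hx]
              exact h1
      · obtain ⟨c, hc, hcs⟩ := hr.2.2
        have h2 : t1 ∈ cols κ r := by
          rcases hsub hc with h3 | h3 | h3
          · exact absurd (by rw [h3]) hcs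
          · rw [h3] at hc
            exact absurd hc h1
          · rw [Set.mem_singleton_iff.1 h3] at hc
            exact hc
        refine prt_low hG hS hP hD hRe.symm hqI hr (Set.Subset.antisymm ?_ ?_) hlt
        · intro x hx
          rcases hsub hx with h3 | h3 | h3
          · exact Or.inl h3
          · rw [h3] at hx
            exact absurd hx h1
          · exact Or.inr h3
        · intro x hx
          rcases hx with hx | hx
          · rw [hx]
            exact hvr
          · rw [Set.mem_singleton_iff.1 hx]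
            exact h2

/-- (S4b) NO RECTANGLES: otherwise `ReS` is the whole connected piece `So v` (`so_Conn`), but it does not
contain the elements of a hexagon of colours `v, t0` (`hS.exI v`; two colours, so in a rectangle with the
same colours, equal to the hexagon; `6 ≠ 4` corners). -/
theorem no_rect [Finite V] (hG : IsSph3 G) (hS : S.Good) (hP : Pre G κ S) (hD : Dich G κ S)
    (hv : S.side v = true) (ht : S.side t = false) (hR : IsComp (sd G) (Ex G κ {v, t}) R) :
    ¬ Rct κ R := by
  intro hr4
  have hs : S.side t ≠ S.side v := by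
    rw [hv, ht]
    exact Bool.false_ne_true
  obtain ⟨q, hq⟩ := hR.conn.1
  have hqS : q ∈ So G κ S v := (reg_sub hs hR).1 hq
  have hqR : q ∈ ReS G κ S v := ⟨hqS, Or.inl ⟨t, R, ht, hR, hr4, hq⟩⟩
  obtain ⟨t0, ht0⟩ := hS.exI v
  obtain ⟨H, hH, -⟩ := hD v t0 hv ht0
  obtain ⟨x, hx⟩ := hH.comp.conn.1
  have hs0 : S.side t0 ≠ S.side v := (S.I_side ht0).symm
  have hxS : x ∈ So G κ S v := (reg_sub hs0 hH.comp).1 hx
  have hxR : x ∈ ReS G κ S v := by
    have hr := (so_Conn hG hS hP v).2 q hqS x hxS
    clear hx hxS
    induction hr with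
    | refl => exact hqR
    | tail _ e ih => exact reS_closed hG hS hP hD hv ih e.2.2 e.1
  have hxc := comp_cols hH.comp hx
  have hne0 : t0 ≠ v := fun h => hs0 (by rw [h])
  rcases hxR.2 with ⟨t', R', ht', hR', hr', hxR'⟩ | ⟨w, t', t1, p, hRe, hxI⟩
  · have h1 := comp_cols hR' hxR'
    have h2 : t' = t0 := by
      have h3 : t0 ∈ ({v, t'} : Set C) := by
        rw [← h1, hxc]
        exact Or.inr rfl
      rcases h3 with h3 | h3
      · exact absurd h3 hne0
      · exact (Set.mem_singleton_iff.1 h3).symm
    rw [h2] at hR'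
    have h4 := hR'.eq_of_inter hH.comp ⟨x, hxR', hx⟩
    have h5 := hr'.2
    rw [h4, hH.six] at h5
    exact absurd h5 (by norm_num)
  · obtain ⟨-, hinc, hpc, -⟩ := hRe
    have h1 := comp_cols (st_comp' hG hP hpc hinc).1 hxI
    have h2 : t' ∈ ({v, t0} : Set C) := by
      rw [← hxc, h1]
      exact Or.inr (Or.inl rfl)
    have h3 : t1 ∈ ({v, t0} : Set C) := by
      rw [← hxc, h1]
      exact Or.inr (Or.inr rfl)
    rcases h2 with h2 | h2
    · exact hinc.ne.2.1 h2.symm
    · rcases h3 with h3 | h3
      · exact hinc.ne.2.2.1 h3.symm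
      · exact hinc.ne.2.2.2.2.2 ((Set.mem_singleton_iff.1 h2).trans
          (Set.mem_singleton_iff.1 h3).symm)

end MOT.Pa
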