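import Mathlib

/-!
# MOT: piecewise linear maps (selection form), PL homeomorphisms of sets, PL balls

`PLOn f X`: `f` is continuous on `X` and at every point of `X` equal to one of finitely many affine
maps.  `PLH X Y f g`: `f` and `g` are mutually inverse bijections between `X` and `Y`, both PL.
-/

open Classical

noncomputable section

namespace MOT

section Basic

variable {E F H : Type}
variable [AddCommGroup E] [Module ℝ E] [TopologicalSpace E]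
variable [AddCommGroup F] [Module ℝ F] [TopologicalSpace F]
variable [AddCommGroup H] [Module ℝ H] [TopologicalSpace H]

/-- `f` is piecewise linear on `X` (selection form) -/
def PLOn (f : E → F) (X : Set E) : Prop :=
  ContinuousOn f X ∧ ∃ S : Set (E →ᵃ[ℝ] F), S.Finite ∧ ∀ x ∈ X, ∃ A ∈ S, f x = A x

/-- `f : X → Y` is a PL homeomorphism with inverse `g` -/
structure PLH (X : Set E) (Y : Set F) (f : E → F) (g : F → E) : Prop where
  fpl : PLOn f X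
  gpl : PLOn g Y
  fm : Set.MapsTo f X Y
  gm : Set.MapsTo g Y X
  gf : ∀ x ∈ X, g (f x) = x
  fg : ∀ y ∈ Y, f (g y) = y

/-- the cross polytope -/
def O (n : ℕ) : Set (Fin n → ℝ) := {x | ∑ i, |x i| ≤ 1}

/-- the boundary of the cross polytope -/
def Sp (n : ℕ) : Set (Fin n → ℝ) := {x | ∑ i, |x i| = 1}

/-- `X` is a PL ball of dimension `n` with boundary `B` -/
def Ball (n : ℕ) (X B : Set E) : Prop :=
  B ⊆ X ∧ ∃ f g, PLH X (O n) f g ∧ f '' B = Sp n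

/-! ## maps -/

theorem PLOn.mono {f : E → F} {X Y : Set E} (h : PLOn f Y) (hXY : X ⊆ Y) : PLOn f X :=
  ⟨h.1.mono hXY, by
    obtain ⟨S, hS, h2⟩ := h.2
    exact ⟨S, hS, fun x hx => h2 x (hXY hx)⟩⟩

theorem PLOn.congr {f f' : E → F} {X : Set E} (h : PLOn f X) (he : ∀ x ∈ X, f' x = f x) :
    PLOn f' X :=
  ⟨h.1.congr he, by
    obtain ⟨S, hS, h2⟩ := h.2
    refine ⟨S, hS, fun x hx => ?_⟩
    obtain ⟨A, hA, h3⟩ := h2 x hx
    exact ⟨A, hA, by rw [he x hx, h3]⟩⟩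

theorem PLOn.comp {f : E → F} {g : F → H} {X : Set E} {Y : Set F} (hg : PLOn g Y)
    (hf : PLOn f X) (hm : Set.MapsTo f X Y) : PLOn (fun x => g (f x)) X := by
  refine ⟨hg.1.comp hf.1 hm, ?_⟩
  obtain ⟨S, hS, h2⟩ := hf.2
  obtain ⟨T, hT, h3⟩ := hg.2
  refine ⟨Set.image2 (fun A B => AffineMap.comp B A) S T, Set.Finite.image2 _ hS hT,
    fun x hx => ?_⟩
  obtain ⟨A, hA, hA'⟩ := h2 x hx
  obtain ⟨B, hB, hB'⟩ := h3 _ (hm hx)
  refine ⟨_, Set.mem_image2_of_mem hA hB, ?_⟩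
  show g (f x) = _
  rw [hB', hA']
  rfl

theorem PLOn.of_affine (A : E →ᵃ[ℝ] F) (hA : Continuous A) (X : Set E) : PLOn (fun x => A x) X :=
  ⟨hA.continuousOn, {A}, Set.finite_singleton _, fun _ _ => ⟨A, rfl, rfl⟩⟩

theorem PLOn.id (X : Set E) : PLOn (fun x => x) X :=
  ⟨continuousOn_id, {AffineMap.id ℝ E}, Set.finite_singleton _, fun _ _ => ⟨_, rfl, rfl⟩⟩

theorem PLOn.const (y : F) (X : Set E) : PLOn (fun _ => y) X :=
  ⟨continuousOn_const, {AffineMap.const ℝ E y}, Set.finite_singleton _, fun _ _ => ⟨_, rfl, rfl⟩⟩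

/-- gluing of PL maps on two closed sets -/
theorem PLOn.union {f : E → F} {X Y : Set E} (hX : PLOn f X) (hY : PLOn f Y)
    (cX : IsClosed X) (cY : IsClosed Y) : PLOn f (X ∪ Y) := by
  refine ⟨?_, ?_⟩
  · exact hX.1.union_of_isClosed hY.1 cX cY
  · obtain ⟨S, hS, h2⟩ := hX.2
    obtain ⟨T, hT, h3⟩ := hY.2
    refine ⟨S ∪ T, hS.union hT, ?_⟩
    rintro x (hx | hx)
    · obtain ⟨A, hA, h⟩ := h2 x hx
      exact ⟨A, Or.inl hA, h⟩
    · obtain ⟨A, hA, h⟩ := h3 x hx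
      exact ⟨A, Or.inr hA, h⟩

/-! ## homeomorphisms -/

theorem PLH.symm {X : Set E} {Y : Set F} {f : E → F} {g : F → E} (h : PLH X Y f g) :
    PLH Y X g f :=
  ⟨h.gpl, h.fpl, h.gm, h.fm, h.fg, h.gf⟩

theorem PLH.refl (X : Set E) : PLH X X (fun x => x) (fun x => x) :=
  ⟨PLOn.id X, PLOn.id X, fun _ h => h, fun _ h => h, fun _ _ => rfl, fun _ _ => rfl⟩

theorem PLH.trans {X : Set E} {Y : Set F} {Z : Set H} {f : E → F} {g : F → E} {f' : F → H}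
    {g' : H → F} (h : PLH X Y f g) (h' : PLH Y Z f' g') :
    PLH X Z (fun x => f' (f x)) (fun z => g (g' z)) where
  fpl := h'.fpl.comp h.fpl h.fm
  gpl := h.gpl.comp h'.gpl h'.gm
  fm := fun x hx => h'.fm (h.fm hx)
  gm := fun z hz => h.gm (h'.gm hz)
  gf := fun x hx => by
    have : g' (f' (f x)) = f x := h'.gf _ (h.fm hx)
    show g (g' (f' (f x))) = x
    rw [this, h.gf x hx]
  fg := fun z hz => by
    have : f (g (g' z)) = g' z := h.fg _ (h'.gm hz)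
    show f' (f (g (g' z))) = z
    rw [this, h'.fg z hz]

theorem PLH.image {X : Set E} {Y : Set F} {f : E → F} {g : F → E} (h : PLH X Y f g) :
    f '' X = Y := by
  ext y
  constructor
  · rintro ⟨x, hx, rfl⟩
    exact h.fm hx
  · intro hy
    exact ⟨g y, h.gm hy, h.fg y hy⟩

theorem PLH.inj {X : Set E} {Y : Set F} {f : E → F} {g : F → E} (h : PLH X Y f g) :
    Set.InjOn f X := by
  intro x hx y hy hxy
  rw [← h.gf x hx, ← h.gf y hy, hxy]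

/-- restriction to a subset -/
theorem PLH.restrict {X : Set E} {Y : Set F} {f : E → F} {g : F → E} (h : PLH X Y f g)
    {X' : Set E} (hX : X' ⊆ X) : PLH X' (f '' X') f g where
  fpl := h.fpl.mono hX
  gpl := h.gpl.mono (by
    rintro _ ⟨x, hx, rfl⟩
    exact h.fm (hX hx))
  fm := fun x hx => ⟨x, hx, rfl⟩
  gm := by
    rintro _ ⟨x, hx, rfl⟩
    rw [h.gf x (hX hx)]
    exact hx
  gf := fun x hx => h.gf x (hX hx)
  fg := by
    rintro _ ⟨x, hx, rfl⟩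
    rw [h.gf x (hX hx)]

/-- restriction with prescribed image -/
theorem PLH.restrict' {X : Set E} {Y : Set F} {f : E → F} {g : F → E} (h : PLH X Y f g)
    {X' : Set E} {Y' : Set F} (hX : X' ⊆ X) (hY : f '' X' = Y') : PLH X' Y' f g :=
  hY ▸ h.restrict hX

theorem PLH.image_symm {X : Set E} {Y : Set F} {f : E → F} {g : F → E} (h : PLH X Y f g)
    {X' : Set E} (hX : X' ⊆ X) : g '' (f '' X') = X' :=
  (h.restrict hX).symm.image

theorem PLH.congr {X : Set E} {Y : Set F} {f f' : E → F} {g g' : F → E} (h : PLH X Y f g)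
    (hf : ∀ x ∈ X, f' x = f x) (hg : ∀ y ∈ Y, g' y = g y) : PLH X Y f' g' where
  fpl := h.fpl.congr hf
  gpl := h.gpl.congr hg
  fm := fun x hx => by rw [hf x hx]; exact h.fm hx
  gm := fun y hy => by rw [hg y hy]; exact h.gm hy
  gf := fun x hx => by rw [hf x hx, hg _ (h.fm hx)]; exact h.gf x hx
  fg := fun y hy => by rw [hg y hy, hf _ (h.gm hy)]; exact h.fg y hy

/-- gluing of two PL homeomorphisms along closed sets -/
theorem PLH.union {X₁ X₂ : Set E} {Y₁ Y₂ : Set F} {f₁ f₂ : E → F} {g₁ g₂ : F → E}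
    (h₁ : PLH X₁ Y₁ f₁ g₁) (h₂ : PLH X₂ Y₂ f₂ g₂)
    (cX₁ : IsClosed X₁) (cX₂ : IsClosed X₂) (cY₁ : IsClosed Y₁) (cY₂ : IsClosed Y₂)
    (he : ∀ x ∈ X₁ ∩ X₂, f₁ x = f₂ x) (hi : f₁ '' (X₁ ∩ X₂) = Y₁ ∩ Y₂) :
    ∃ f g, PLH (X₁ ∪ X₂) (Y₁ ∪ Y₂) f g ∧ (∀ x ∈ X₁, f x = f₁ x) ∧ (∀ x ∈ X₂, f x = f₂ x) ∧
      (∀ y ∈ Y₁, g y = g₁ y) ∧ (∀ y ∈ Y₂, g y = g₂ y) := by
  have hge : ∀ y ∈ Y₁ ∩ Y₂, g₁ y = g₂ y := by
    intro y hy
    rw [← hi] at hy
    obtain ⟨x, hx, rfl⟩ := hy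
    rw [h₁.gf x hx.1, he x hx, h₂.gf x hx.2]
  let f : E → F := fun x => if x ∈ X₁ then f₁ x else f₂ x
  let g : F → E := fun y => if y ∈ Y₁ then g₁ y else g₂ y
  have hf1 : ∀ x ∈ X₁, f x = f₁ x := fun x hx => if_pos hx
  have hf2 : ∀ x ∈ X₂, f x = f₂ x := by
    intro x hx
    by_cases h : x ∈ X₁
    · rw [hf1 x h]; exact he x ⟨h, hx⟩
    · exact if_neg h
  have hg1 : ∀ y ∈ Y₁, g y = g₁ y := fun y hy => if_pos hy
  have hg2 : ∀ y ∈ Y₂, g y = g₂ y := by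
    intro y hy
    by_cases h : y ∈ Y₁
    · rw [hg1 y h]; exact hge y ⟨h, hy⟩
    · exact if_neg h
  refine ⟨f, g, ⟨?_, ?_, ?_, ?_, ?_, ?_⟩, hf1, hf2, hg1, hg2⟩
  · exact (h₁.fpl.congr hf1).union (h₂.fpl.congr hf2) cX₁ cX₂
  · exact (h₁.gpl.congr hg1).union (h₂.gpl.congr hg2) cY₁ cY₂
  · rintro x (hx | hx)
    · rw [hf1 x hx]; exact Or.inl (h₁.fm hx)
    · rw [hf2 x hx]; exact Or.inr (h₂.fm hx)
  · rintro y (hy | hy)
    · rw [hg1 y hy]; exact Or.inl (h₁.gm hy)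
    · rw [hg2 y hy]; exact Or.inr (h₂.gm hy)
  · rintro x (hx | hx)
    · rw [hf1 x hx, hg1 _ (h₁.fm hx), h₁.gf x hx]
    · rw [hf2 x hx, hg2 _ (h₂.fm hx), h₂.gf x hx]
  · rintro y (hy | hy)
    · rw [hg1 y hy, hf1 _ (h₁.gm hy), h₁.fg y hy]
    · rw [hg2 y hy, hf2 _ (h₂.gm hy), h₂.fg y hy]

end Basic

end MOT
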