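import Pool.Agent.MOT.Pl

/-!
# MOT/PlA: cones, and the extension of PL homeomorphisms from the base of a cone to the cone
-/

open Classical

noncomputable section

namespace MOT

/-- `X` is the cone with apex `p` over `B`; `r` is the (piecewise linear) radius -/
structure IsCone {E : Type} [AddCommGroup E] [Module ℝ E] [TopologicalSpace E]
    (X B : Set E) (p : E) (r : E → ℝ) : Prop where
  pX : p ∈ X
  sub : B ⊆ X
  rpl : PLOn r X
  rnn : ∀ x ∈ X, 0 ≤ r x
  rle : ∀ x ∈ X, r x ≤ 1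
  rp : ∀ x ∈ X, (r x = 0 ↔ x = p)
  down : ∀ x ∈ X, x ≠ p → ∃ b ∈ B, x = p + r x • (b - p)
  up : ∀ b ∈ B, ∀ t : ℝ, 0 ≤ t → t ≤ 1 → p + t • (b - p) ∈ X ∧ r (p + t • (b - p)) = t

section

variable {E F : Type}
variable [AddCommGroup E] [Module ℝ E] [TopologicalSpace E] [IsTopologicalAddGroup E]
  [ContinuousSMul ℝ E] [T2Space E] [FiniteDimensional ℝ E]
variable [AddCommGroup F] [Module ℝ F] [TopologicalSpace F] [IsTopologicalAddGroup F]
  [ContinuousSMul ℝ F] [T2Space F] [FiniteDimensional ℝ F]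

/-- a selection of finitely many functions which are continuous at `x` with the same value -/
theorem tendsto_sel {f : E → F} {X : Set E} {S : Set (E → F)} (hS : S.Finite) {x : E} {y : F}
    (hc : ∀ A ∈ S, Filter.Tendsto A (nhdsWithin x X) (nhds y))
    (hf : ∀ z ∈ X, z ≠ x → ∃ A ∈ S, f z = A z) (hx : f x = y) : ContinuousWithinAt f X x := by
  unfold ContinuousWithinAt
  rw [hx]
  intro U hU
  have h1 : ∀ᶠ z in nhdsWithin x X, ∀ A ∈ S, A z ∈ U :=
    (Filter.eventually_all_finite hS).2 fun A hA => hc A hA hU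
  have h2 : ∀ᶠ z in nhdsWithin x X, f z ∈ U := by
    filter_upwards [h1, self_mem_nhdsWithin] with z hz hzX
    by_cases h : z = x
    · rw [h, hx]
      exact mem_of_mem_nhds hU
    · obtain ⟨A, hA, e⟩ := hf z hzX h
      rw [e]
      exact hz A hA
  exact h2

/-- the cone extension of a map (to be used for `φ : B → B'`) -/
def coneMap (p : E) (r : E → ℝ) (p' : F) (φ : E → F) : E → F :=
  fun x => if x = p then p' else p' + r x • (φ (p + (r x)⁻¹ • (x - p)) - p')

private theorem pla_base {X B : Set E} {p : E} {r : E → ℝ} (h : IsCone X B p r) {z : E}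
    (hz : z ∈ X) (hzp : z ≠ p) : p + (r z)⁻¹ • (z - p) ∈ B ∧ 0 < r z := by
  obtain ⟨b, hb, e⟩ := h.down z hz hzp
  have hr0 : r z ≠ 0 := fun e' => hzp ((h.rp z hz).1 e')
  refine ⟨?_, lt_of_le_of_ne (h.rnn z hz) (Ne.symm hr0)⟩
  have e1 : z - p = r z • (b - p) := by
    rw [sub_eq_iff_eq_add]
    exact e.trans (add_comm _ _)
  rw [e1, smul_smul, inv_mul_cancel₀ hr0, one_smul, add_sub_cancel]
  exact hb

private theorem pla_ray {X B : Set E} {p : E} {r : E → ℝ} (h : IsCone X B p r) (p' : F)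
    (φ : E → F) {b : E} (hb : b ∈ B) {t : ℝ} (h0 : 0 ≤ t) (h1 : t ≤ 1) :
    coneMap p r p' φ (p + t • (b - p)) = p' + t • (φ b - p') := by
  obtain ⟨hX, hr⟩ := h.up b hb t h0 h1
  by_cases ht : t = 0
  · rw [ht, zero_smul, zero_smul, add_zero, add_zero]
    exact if_pos rfl
  · have hne : p + t • (b - p) ≠ p := by
      intro e
      rw [e, (h.rp p h.pX).2 rfl] at hr
      exact ht hr.symm
    unfold coneMap
    rw [if_neg hne, hr, add_sub_cancel_left, smul_smul, inv_mul_cancel₀ ht, one_smul,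
      add_sub_cancel]

private theorem pla_maps {X B : Set E} {p : E} {r : E → ℝ} (h : IsCone X B p r) {X' B' : Set F}
    {p' : F} {r' : F → ℝ} (h' : IsCone X' B' p' r') {φ : E → F} (hm : Set.MapsTo φ B B') :
    Set.MapsTo (coneMap p r p' φ) X X' := by
  intro x hx
  by_cases hxp : x = p
  · rw [show coneMap p r p' φ x = p' from if_pos hxp]
    exact h'.pX
  · obtain ⟨b, hb, e⟩ := h.down x hx hxp
    have e2 := pla_ray h p' φ hb (h.rnn x hx) (h.rle x hx)
    rw [← e] at e2
    rw [e2]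
    exact (h'.up _ (hm hb) _ (h.rnn x hx) (h.rle x hx)).1

private theorem pla_inv {X B : Set E} {p : E} {r : E → ℝ} (h : IsCone X B p r) {X' B' : Set F}
    {p' : F} {r' : F → ℝ} (h' : IsCone X' B' p' r') {φ : E → F} {ψ : F → E}
    (hm : Set.MapsTo φ B B') (hi : ∀ b ∈ B, ψ (φ b) = b) :
    ∀ x ∈ X, coneMap p' r' p ψ (coneMap p r p' φ x) = x := by
  intro x hx
  by_cases hxp : x = p
  · rw [show coneMap p r p' φ x = p' from if_pos hxp, hxp]
    exact if_pos rfl
  · obtain ⟨b, hb, e⟩ := h.down x hx hxp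
    have e2 := pla_ray h p' φ hb (h.rnn x hx) (h.rle x hx)
    rw [← e] at e2
    rw [e2, pla_ray h' p ψ (hm hb) (h.rnn x hx) (h.rle x hx), hi b hb]
    exact e.symm

theorem coneMap_pl {X B : Set E} {p : E} {r : E → ℝ} (h : IsCone X B p r) (p' : F) {φ : E → F}
    (hφ : PLOn φ B) : PLOn (coneMap p r p' φ) X := by
  obtain ⟨hφc, S, hS, hSφ⟩ := hφ
  obtain ⟨T, hT, hTr⟩ := h.rpl.2
  -- the map away from the apex
  have hsel : ∀ z ∈ X, z ≠ p → ∃ A ∈ S,
      coneMap p r p' φ z = p' + r z • (A p - p') + A.linear (z - p) := by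
    intro z hz hzp
    obtain ⟨hb, hr0⟩ := pla_base h hz hzp
    obtain ⟨A, hA, hA'⟩ := hSφ _ hb
    refine ⟨A, hA, ?_⟩
    have e1 : A (p + (r z)⁻¹ • (z - p)) = (r z)⁻¹ • A.linear (z - p) + A p := by
      have e2 := A.map_vadd p ((r z)⁻¹ • (z - p))
      rw [vadd_eq_add, vadd_eq_add, map_smul] at e2
      rw [← e2, add_comm]
    unfold coneMap
    rw [if_neg hzp, hA', e1]
    rw [show (r z)⁻¹ • A.linear (z - p) + A p - p' =
      (r z)⁻¹ • A.linear (z - p) + (A p - p') by abel, smul_add, smul_smul,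
      mul_inv_cancel₀ hr0.ne', one_smul]
    abel
  refine ⟨?_, ?_⟩
  · intro x hx
    by_cases hxp : x = p
    · rw [hxp]
      refine tendsto_sel (S := (fun (A : E →ᵃ[ℝ] F) (z : E) =>
        p' + r z • (A p - p') + A.linear (z - p)) '' S) (hS.image _) (y := p') ?_ ?_ ?_
      · rintro _ ⟨A, hA, rfl⟩
        have h1 : Filter.Tendsto r (nhdsWithin p X) (nhds 0) := by
          have h2 := h.rpl.1 p h.pX
          unfold ContinuousWithinAt at h2
          rwa [(h.rp p h.pX).2 rfl] at h2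
        have h3 : Filter.Tendsto (fun z => A.linear (z - p)) (nhdsWithin p X) (nhds 0) := by
          have h4 : Continuous fun z : E => A.linear (z - p) :=
            (LinearMap.continuous_of_finiteDimensional A.linear).comp
              (continuous_id.sub continuous_const)
          have h5 := (h4.tendsto p).mono_left (nhdsWithin_le_nhds (s := X))
          rwa [sub_self, map_zero] at h5
        have h6 := ((tendsto_const_nhds (x := p')).add
          (h1.smul (tendsto_const_nhds (x := A p - p')))).add h3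
        rwa [zero_smul, add_zero, add_zero] at h6
      · intro z hz hzp
        obtain ⟨A, hA, e⟩ := hsel z hz hzp
        exact ⟨_, ⟨A, hA, rfl⟩, e⟩
      · exact if_pos rfl
    · have hr0 : r x ≠ 0 := fun e => hxp ((h.rp x hx).1 e)
      have h1 : X \ {p} ∈ nhdsWithin x X := by
        rw [Set.sdiff_eq]
        exact Filter.inter_mem self_mem_nhdsWithin
          (mem_nhdsWithin_of_mem_nhds (isOpen_compl_singleton.mem_nhds hxp))
      have hr : ContinuousWithinAt r (X \ {p}) x := (h.rpl.1 x hx).mono Set.sdiff_subset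
      have h2 : ContinuousWithinAt (fun z => p + (r z)⁻¹ • (z - p)) (X \ {p}) x :=
        continuousWithinAt_const.add
          ((hr.inv₀ hr0).smul (continuousWithinAt_id.sub continuousWithinAt_const))
      have h3 : Set.MapsTo (fun z => p + (r z)⁻¹ • (z - p)) (X \ {p}) B :=
        fun z hz => (pla_base h hz.1 hz.2).1
      have h4 : ContinuousWithinAt (fun z => φ (p + (r z)⁻¹ • (z - p))) (X \ {p}) x :=
        ContinuousWithinAt.comp (g := φ) (f := fun z => p + (r z)⁻¹ • (z - p))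
          (hφc _ (h3 ⟨hx, hxp⟩)) h2 h3
      have h5 : ContinuousWithinAt (fun z => p' + r z • (φ (p + (r z)⁻¹ • (z - p)) - p'))
          (X \ {p}) x :=
        continuousWithinAt_const.add (hr.smul (h4.sub continuousWithinAt_const))
      have h6 : ContinuousWithinAt (coneMap p r p' φ) (X \ {p}) x :=
        h5.congr (fun z hz => if_neg hz.2) (if_neg hxp)
      exact h6.mono_of_mem_nhdsWithin h1
  · refine ⟨{AffineMap.const ℝ E p'} ∪ Set.image2 (fun (A : E →ᵃ[ℝ] F) (R : E →ᵃ[ℝ] ℝ) =>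
      AffineMap.const ℝ E p' + (LinearMap.toSpanSingleton ℝ F (A p - p')).toAffineMap.comp R +
        (A - AffineMap.const ℝ E (A p))) S T, (Set.finite_singleton _).union
        (Set.Finite.image2 _ hS hT), fun x hx => ?_⟩
    by_cases hxp : x = p
    · exact ⟨_, Or.inl rfl, if_pos hxp⟩
    · obtain ⟨A, hA, e⟩ := hsel x hx hxp
      obtain ⟨R, hR, e'⟩ := hTr x hx
      refine ⟨_, Or.inr (Set.mem_image2_of_mem hA hR), ?_⟩
      rw [e, e']
      have e3 : A.linear (x - p) = A x - A p := A.linearMap_vsub x p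
      rw [e3]
      simp

theorem coneMap_bd {X B : Set E} {p : E} {r : E → ℝ} (h : IsCone X B p r) (p' : F) (φ : E → F) :
    ∀ b ∈ B, coneMap p r p' φ b = φ b := by
  intro b hb
  have h1 := pla_ray h p' φ hb zero_le_one le_rfl
  rwa [one_smul, one_smul, add_sub_cancel, add_sub_cancel] at h1

/-- cone extension of a PL homeomorphism -/
theorem cone_ext {X B : Set E} {p : E} {r : E → ℝ} (h : IsCone X B p r) {X' B' : Set F} {p' : F}
    {r' : F → ℝ} (h' : IsCone X' B' p' r') {φ : E → F} {ψ : F → E} (hφ : PLH B B' φ ψ) :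
    ∃ f g, PLH X X' f g ∧ (∀ b ∈ B, f b = φ b) ∧ (∀ b ∈ B', g b = ψ b) := by
  exact ⟨coneMap p r p' φ, coneMap p' r' p ψ,
    ⟨coneMap_pl h p' hφ.fpl, coneMap_pl h' p hφ.gpl, pla_maps h h' hφ.fm, pla_maps h' h hφ.gm,
      pla_inv h h' hφ.fm hφ.gf, pla_inv h' h hφ.gm hφ.fg⟩,
    coneMap_bd h p' φ, coneMap_bd h' p ψ⟩

end

/-- the cross polytope is a cone over its boundary -/
theorem cone_O (n : ℕ) : IsCone (O n) (Sp n) 0 (fun x => ∑ i, |x i|) := by
  refine ⟨?_, ?_, ⟨?_, ?_⟩, ?_, ?_, ?_, ?_, ?_⟩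
  · change ∑ i : Fin n, |(0 : Fin n → ℝ) i| ≤ 1
    simp
  · intro x hx
    have hx' : ∑ i, |x i| = 1 := hx
    exact hx'.le
  · have h1 : Continuous fun x : Fin n → ℝ => ∑ i, |x i| := by fun_prop
    exact h1.continuousOn
  · refine ⟨Set.range fun s : Fin n → Bool =>
      (∑ i, (if s i then (1 : ℝ) else -1) • (LinearMap.proj i : (Fin n → ℝ) →ₗ[ℝ] ℝ)).toAffineMap,
      Set.finite_range _, fun x _ => ⟨_, ⟨fun i => decide (0 ≤ x i), rfl⟩, ?_⟩⟩
    rw [LinearMap.coe_toAffineMap, LinearMap.sum_apply]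
    refine Finset.sum_congr rfl fun i _ => ?_
    rw [LinearMap.smul_apply, LinearMap.proj_apply, smul_eq_mul]
    by_cases h1 : 0 ≤ x i
    · rw [abs_of_nonneg h1]
      simp [h1]
    · rw [abs_of_neg (not_le.1 h1)]
      simp [h1]
  · exact fun x _ => Finset.sum_nonneg fun i _ => abs_nonneg _
  · exact fun x hx => hx
  · intro x _
    rw [Finset.sum_eq_zero_iff_of_nonneg fun i _ => abs_nonneg _]
    constructor
    · intro h1
      funext i
      exact abs_eq_zero.1 (h1 i (Finset.mem_univ i))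
    · intro h1 i _
      rw [h1]
      exact abs_zero
  · intro x hx hx0
    have h0 : ∑ i, |x i| ≠ 0 := by
      intro h1
      apply hx0
      rw [Finset.sum_eq_zero_iff_of_nonneg fun i _ => abs_nonneg _] at h1
      funext i
      exact abs_eq_zero.1 (h1 i (Finset.mem_univ i))
    have hnn : 0 ≤ (∑ i, |x i|)⁻¹ := inv_nonneg.2 (Finset.sum_nonneg fun i _ => abs_nonneg _)
    refine ⟨(∑ i, |x i|)⁻¹ • x, ?_, ?_⟩
    · change ∑ j, |((∑ i, |x i|)⁻¹ • x) j| = 1
      simp only [Pi.smul_apply, smul_eq_mul, abs_mul, abs_of_nonneg hnn]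
      rw [← Finset.mul_sum, inv_mul_cancel₀ h0]
    · rw [zero_add, sub_zero, smul_smul, mul_inv_cancel₀ h0, one_smul]
  · intro b hb t ht ht1
    have hb' : ∑ i, |b i| = 1 := hb
    have e : ∑ i, |((0 : Fin n → ℝ) + t • (b - 0)) i| = t := by
      rw [zero_add, sub_zero]
      simp only [Pi.smul_apply, smul_eq_mul, abs_mul, abs_of_nonneg ht]
      rw [← Finset.mul_sum, hb', mul_one]
    refine ⟨?_, e⟩
    change ∑ i, |((0 : Fin n → ℝ) + t • (b - 0)) i| ≤ 1
    rw [e]
    exact ht1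

theorem isCompact_O (n : ℕ) : IsCompact (O n) := by
  refine (isCompact_univ_pi fun _ : Fin n => isCompact_Icc (a := (-1 : ℝ)) (b := 1)).of_isClosed_subset
    ?_ ?_
  · have h1 : Continuous fun x : Fin n → ℝ => ∑ i, |x i| := by fun_prop
    exact isClosed_le h1 continuous_const
  · intro x hx i _
    have hx' : ∑ j, |x j| ≤ 1 := hx
    have h1 : |x i| ≤ ∑ j, |x j| :=
      Finset.single_le_sum (f := fun j => |x j|) (fun j _ => abs_nonneg _) (Finset.mem_univ i)
    exact abs_le.1 (h1.trans hx')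

theorem isCompact_Sp (n : ℕ) : IsCompact (Sp n) := by
  refine (isCompact_O n).of_isClosed_subset ?_ (cone_O n).sub
  have h1 : Continuous fun x : Fin n → ℝ => ∑ i, |x i| := by fun_prop
  exact isClosed_eq h1 continuous_const

end MOT
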