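import Pool.Agent.MOT.PlA

/-!
# MOT/PlB: balls: compactness, transport, extension from the boundary
-/

open Classical

noncomputable section

namespace MOT

variable {E F : Type}
variable [AddCommGroup E] [Module ℝ E] [TopologicalSpace E] [IsTopologicalAddGroup E]
  [ContinuousSMul ℝ E] [T2Space E] [FiniteDimensional ℝ E]
variable [AddCommGroup F] [Module ℝ F] [TopologicalSpace F] [IsTopologicalAddGroup F]
  [ContinuousSMul ℝ F] [T2Space F] [FiniteDimensional ℝ F]

theorem PLH.isCompact {X : Set E} {Y : Set F} {f : E → F} {g : F → E} (h : PLH X Y f g)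
    (hX : IsCompact X) : IsCompact Y := by
  rw [← h.image]
  exact hX.image_of_continuousOn h.fpl.1

theorem Ball.isCompact {n : ℕ} {X B : Set E} (h : Ball n X B) : IsCompact X := by
  obtain ⟨_, f, g, hfg, _⟩ := h
  exact hfg.symm.isCompact (isCompact_O n)

theorem Ball.bd_isCompact {n : ℕ} {X B : Set E} (h : Ball n X B) : IsCompact B := by
  obtain ⟨hB, f, g, hfg, hf⟩ := h
  have h1 : PLH B (Sp n) f g := hfg.restrict' hB hf
  exact h1.symm.isCompact (isCompact_Sp n)

theorem Ball.isClosed {n : ℕ} {X B : Set E} (h : Ball n X B) : IsClosed X := by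
  exact h.isCompact.isClosed

theorem Ball.bd_isClosed {n : ℕ} {X B : Set E} (h : Ball n X B) : IsClosed B := by
  exact h.bd_isCompact.isClosed

theorem Ball.nonempty {n : ℕ} {X B : Set E} (h : Ball n X B) : X.Nonempty := by
  obtain ⟨_, f, g, hfg, _⟩ := h
  refine ⟨g 0, hfg.gm ?_⟩
  show ∑ i, |(0 : Fin n → ℝ) i| ≤ 1
  simp

/-- transport along a PL homeomorphism -/
theorem Ball.map {n : ℕ} {X B : Set E} (h : Ball n X B) {Y : Set F} {f : E → F} {g : F → E}
    (hf : PLH X Y f g) : Ball n Y (f '' B) := by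
  obtain ⟨hB, f₀, g₀, hfg, h0⟩ := h
  refine ⟨?_, _, _, hf.symm.trans hfg, ?_⟩
  · rintro _ ⟨b, hb, rfl⟩
    exact hf.fm (hB hb)
  · rw [← h0]
    ext z
    constructor
    · rintro ⟨_, ⟨b, hb, rfl⟩, rfl⟩
      refine ⟨b, hb, ?_⟩
      show f₀ b = f₀ (g (f b))
      rw [hf.gf b (hB hb)]
    · rintro ⟨b, hb, rfl⟩
      refine ⟨f b, ⟨b, hb, rfl⟩, ?_⟩
      show f₀ (g (f b)) = f₀ b
      rw [hf.gf b (hB hb)]

theorem ball_O (n : ℕ) : Ball n (O n) (Sp n) := by
  refine ⟨?_, _, _, PLH.refl _, ?_⟩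
  · intro x hx
    exact le_of_eq hx
  · exact Set.image_id _

/-- the boundary of a ball -/
theorem Ball.bd_plh {n : ℕ} {X B : Set E} (h : Ball n X B) :
    ∃ f g, PLH B (Sp n) f g := by
  obtain ⟨hB, f, g, hfg, hf⟩ := h
  exact ⟨f, g, hfg.restrict' hB hf⟩

/-- a cone over a sphere is a ball -/
theorem Ball.of_cone {n : ℕ} {X B : Set E} {p : E} {r : E → ℝ} (h : IsCone X B p r)
    {φ : E → Fin n → ℝ} {ψ : (Fin n → ℝ) → E} (hφ : PLH B (Sp n) φ ψ) : Ball n X B := by
  obtain ⟨f, g, hfg, h1, _⟩ := cone_ext h (cone_O n) hφ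
  refine ⟨h.sub, f, g, hfg, ?_⟩
  rw [← hφ.image]
  exact Set.image_congr h1

/-- EXT: a PL homeomorphism between the boundaries of two balls extends to the balls -/
theorem Ball.ext {n : ℕ} {X B : Set E} {X' B' : Set F} (h : Ball n X B) (h' : Ball n X' B')
    {φ : E → F} {ψ : F → E} (hφ : PLH B B' φ ψ) :
    ∃ f g, PLH X X' f g ∧ (∀ b ∈ B, f b = φ b) ∧ (∀ b ∈ B', g b = ψ b) := by
  obtain ⟨hB, f₀, g₀, h0, hb0⟩ := h
  obtain ⟨hB', f₁, g₁, h1, hb1⟩ := h'
  have k0 : PLH B (Sp n) f₀ g₀ := h0.restrict' hB hb0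
  have k1 : PLH B' (Sp n) f₁ g₁ := h1.restrict' hB' hb1
  obtain ⟨f, g, hfg, hf, hg⟩ := cone_ext (cone_O n) (cone_O n) ((k0.symm.trans hφ).trans k1)
  refine ⟨_, _, (h0.trans hfg).trans h1.symm, ?_, ?_⟩
  · intro b hb
    show g₁ (f (f₀ b)) = φ b
    rw [hf _ (k0.fm hb)]
    show g₁ (f₁ (φ (g₀ (f₀ b)))) = φ b
    rw [k0.gf b hb, k1.gf _ (hφ.fm hb)]
  · intro b hb
    show g₀ (g (f₁ b)) = ψ b
    rw [hg _ (k1.fm hb)]
    show g₀ (f₀ (ψ (g₁ (f₁ b)))) = ψ b
    rw [k1.gf b hb, k0.gf _ (hφ.gm hb)]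

/-- any two balls of the same dimension are PL homeomorphic as pairs -/
theorem Ball.plh {n : ℕ} {X B : Set E} {X' B' : Set F} (h : Ball n X B) (h' : Ball n X' B') :
    ∃ f g, PLH X X' f g ∧ f '' B = B' := by
  obtain ⟨hB, f₀, g₀, h0, hb0⟩ := h
  obtain ⟨hB', f₁, g₁, h1, hb1⟩ := h'
  have k1 : PLH B' (Sp n) f₁ g₁ := h1.restrict' hB' hb1
  refine ⟨_, _, h0.trans h1.symm, ?_⟩
  have : (fun x => g₁ (f₀ x)) '' B = g₁ '' (f₀ '' B) := by
    rw [Set.image_image]
  rw [this, hb0]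
  exact k1.symm.image

/-- points are balls of dimension 0 -/
theorem ball_zero (x : E) : Ball 0 ({x} : Set E) ∅ := by
  refine ⟨Set.empty_subset _, fun _ => 0, fun _ => x,
    ⟨PLOn.const _ _, PLOn.const _ _, ?_, ?_, ?_, ?_⟩, ?_⟩
  · intro z _
    show ∑ i, |(0 : Fin 0 → ℝ) i| ≤ 1
    simp
  · intro z _
    rfl
  · intro z hz
    exact hz.symm
  · intro y _
    exact Subsingleton.elim _ _
  · rw [Set.image_empty]
    ext z
    simp [Sp]

/-- segments are balls of dimension 1 -/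
theorem ball_segment {x y : E} (h : x ≠ y) : Ball 1 (segment ℝ x y) {x, y} := by
  have hv : y - x ≠ 0 := sub_ne_zero.mpr h.symm
  obtain ⟨ℓ, hℓ⟩ : ∃ ℓ : E →ₗ[ℝ] ℝ, ℓ (y - x) = 1 := by
    have h1 : ¬ ∀ φ : Module.Dual ℝ E, φ (y - x) = 0 := by
      rw [Module.forall_dual_apply_eq_zero_iff]
      exact hv
    push Not at h1
    obtain ⟨φ, hφ⟩ := h1
    refine ⟨(φ (y - x))⁻¹ • φ, ?_⟩
    show (φ (y - x))⁻¹ * φ (y - x) = 1
    exact inv_mul_cancel₀ hφ
  let A : E →ᵃ[ℝ] (Fin 1 → ℝ) :=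
    { toFun := fun z _ => 2 * ℓ (z - x) - 1
      linear := LinearMap.pi (fun _ => (2 : ℝ) • ℓ)
      map_vadd' := by
        intro p v
        funext i
        show 2 * ℓ (v + p - x) - 1 = 2 * ℓ v + (2 * ℓ (p - x) - 1)
        rw [add_sub_assoc, map_add]
        ring }
  let G : (Fin 1 → ℝ) →ᵃ[ℝ] E :=
    { toFun := fun w => x + ((w 0 + 1) / 2) • (y - x)
      linear := ((1 / 2 : ℝ) • (LinearMap.proj 0 : (Fin 1 → ℝ) →ₗ[ℝ] ℝ)).smulRight (y - x)
      map_vadd' := by
        intro p v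
        show x + (((v + p) 0 + 1) / 2) • (y - x) = ((1 / 2 : ℝ) * v 0) • (y - x) +
          (x + ((p 0 + 1) / 2) • (y - x))
        have : ((v + p) 0 + 1) / 2 = (1 / 2 : ℝ) * v 0 + (p 0 + 1) / 2 := by
          show (v 0 + p 0 + 1) / 2 = _
          ring
        rw [this, add_smul]
        abel }
  have hAc : Continuous A := by
    show Continuous (fun z (_ : Fin 1) => 2 * ℓ (z - x) - 1)
    have hc : Continuous ℓ := LinearMap.continuous_of_finiteDimensional ℓ
    exact continuous_pi fun _ => ((continuous_const.mul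
      (hc.comp (continuous_id.sub continuous_const))).sub continuous_const)
  have hGc : Continuous G := by
    show Continuous (fun w : Fin 1 → ℝ => x + ((w 0 + 1) / 2) • (y - x))
    exact continuous_const.add ((((continuous_apply 0).add continuous_const).div_const 2).smul
      continuous_const)
  have hAv : ∀ (t : ℝ) (i : Fin 1), A (x + t • (y - x)) i = 2 * t - 1 := by
    intro t i
    show 2 * ℓ (x + t • (y - x) - x) - 1 = 2 * t - 1
    rw [add_sub_cancel_left, map_smul, hℓ, smul_eq_mul, mul_one]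
  have hGv : ∀ w : Fin 1 → ℝ, G w = x + ((w 0 + 1) / 2) • (y - x) := fun _ => rfl
  have hseg : ∀ z ∈ segment ℝ x y, ∃ t : ℝ, 0 ≤ t ∧ t ≤ 1 ∧ z = x + t • (y - x) := by
    intro z hz
    rw [segment_eq_image'] at hz
    obtain ⟨t, ht, rfl⟩ := hz
    exact ⟨t, ht.1, ht.2, rfl⟩
  have hO : ∀ w : Fin 1 → ℝ, w ∈ O 1 ↔ |w 0| ≤ 1 := by
    intro w
    show ∑ i, |w i| ≤ 1 ↔ _
    simp
  have hS : ∀ w : Fin 1 → ℝ, w ∈ Sp 1 ↔ |w 0| = 1 := by
    intro w
    show ∑ i, |w i| = 1 ↔ _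
    simp
  have hAx : ∀ i, A x i = -1 := by
    intro i
    have := hAv 0 i
    simpa using this
  have hAy : ∀ i, A y i = 1 := by
    intro i
    have := hAv 1 i
    rw [one_smul, add_sub_cancel] at this
    rw [this]
    norm_num
  refine ⟨?_, fun z => A z, fun w => G w,
    ⟨PLOn.of_affine A hAc _, PLOn.of_affine G hGc _, ?_, ?_, ?_, ?_⟩, ?_⟩
  · rintro z (rfl | rfl)
    · exact left_mem_segment ℝ _ _
    · exact right_mem_segment ℝ _ _
  · intro z hz
    obtain ⟨t, h0, h1, rfl⟩ := hseg z hz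
    rw [hO]
    show |A (x + t • (y - x)) 0| ≤ 1
    rw [hAv, abs_le]
    constructor <;> linarith
  · intro w hw
    rw [hO, abs_le] at hw
    rw [segment_eq_image']
    refine ⟨(w 0 + 1) / 2, ⟨by linarith [hw.1], by linarith [hw.2]⟩, rfl⟩
  · intro z hz
    obtain ⟨t, h0, h1, rfl⟩ := hseg z hz
    show G (A (x + t • (y - x))) = x + t • (y - x)
    rw [hGv, hAv]
    congr 2
    ring
  · intro w hw
    funext i
    show A (G w) i = w i
    rw [hGv, hAv, Subsingleton.elim i 0]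
    ring
  · ext w
    rw [hS]
    constructor
    · rintro ⟨z, hz, rfl⟩
      rcases hz with rfl | hz
      · show |A z 0| = 1
        rw [hAx]
        norm_num
      · rw [Set.mem_singleton_iff] at hz
        subst hz
        show |A z 0| = 1
        rw [hAy]
        norm_num
    · intro hw
      rcases eq_or_eq_neg_of_abs_eq hw with hw | hw
      · refine ⟨y, Or.inr rfl, ?_⟩
        funext i
        show A y i = w i
        rw [hAy, Subsingleton.elim i 0, hw]
      · refine ⟨x, Or.inl rfl, ?_⟩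
        funext i
        show A x i = w i
        rw [hAx, Subsingleton.elim i 0, hw]

/-- only `∅` bounds a 0-ball, and a 0-ball is a point -/
theorem Ball.zero_iff {X B : Set E} (h : Ball 0 X B) : (∃ x, X = {x}) ∧ B = ∅ := by
  obtain ⟨hB, f, g, hfg, hf⟩ := h
  constructor
  · refine ⟨g 0, ?_⟩
    rw [← hfg.symm.image]
    ext z
    constructor
    · rintro ⟨w, hw, rfl⟩
      rw [Subsingleton.elim w 0]
      rfl
    · intro hz
      rw [Set.mem_singleton_iff] at hz
      refine ⟨0, ?_, hz.symm⟩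
      show ∑ i, |(0 : Fin 0 → ℝ) i| ≤ 1
      simp
  · have h0 : Sp 0 = ∅ := by
      ext z
      simp [Sp]
    rw [h0] at hf
    exact Set.image_eq_empty.mp hf

/-- the boundary of a 1-ball consists of two points -/
theorem Ball.one_bd {X B : Set E} (h : Ball 1 X B) : ∃ x y, x ≠ y ∧ B = {x, y} := by
  obtain ⟨hB, f, g, hfg, hf⟩ := h
  have k : PLH B (Sp 1) f g := hfg.restrict' hB hf
  have hS : ∀ w : Fin 1 → ℝ, w ∈ Sp 1 ↔ |w 0| = 1 := by
    intro w
    show ∑ i, |w i| = 1 ↔ _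
    simp
  have h1 : (fun _ => 1 : Fin 1 → ℝ) ∈ Sp 1 := by
    rw [hS]
    norm_num
  have h2 : (fun _ => -1 : Fin 1 → ℝ) ∈ Sp 1 := by
    rw [hS]
    norm_num
  refine ⟨g (fun _ => 1), g (fun _ => -1), ?_, ?_⟩
  · intro he
    have := k.symm.inj h1 h2 he
    have h3 := congrFun this 0
    norm_num at h3
  · rw [← k.symm.image]
    ext z
    constructor
    · rintro ⟨w, hw, rfl⟩
      rw [hS] at hw
      rcases eq_or_eq_neg_of_abs_eq hw with hw | hw
      · left
        congr 1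
        funext i
        rw [Subsingleton.elim i 0, hw]
      · right
        rw [Set.mem_singleton_iff]
        congr 1
        funext i
        rw [Subsingleton.elim i 0, hw]
    · rintro (rfl | hz)
      · exact ⟨_, h1, rfl⟩
      · rw [Set.mem_singleton_iff] at hz
        subst hz
        exact ⟨_, h2, rfl⟩

end MOT
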