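import Pool.Agent.MOT.PlB

/-!
# MOT/PlC: the two halves of the cross polytope; union of two balls along a common ball of the
boundaries

In `Fin (n+1) → ℝ` the coordinate `0` is the height, `Fin.tail x` the rest.
-/

open Classical

noncomputable section

namespace MOT

/-- upper half (sign `1`) resp. lower half (sign `-1`) of the cross polytope -/
def Oh (n : ℕ) (ε : ℝ) : Set (Fin (n + 1) → ℝ) := {x | x ∈ O (n + 1) ∧ 0 ≤ ε * x 0}

/-- the middle disc -/
def Om (n : ℕ) : Set (Fin (n + 1) → ℝ) := {x | x ∈ O (n + 1) ∧ x 0 = 0}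

/-- the upper resp. lower part of the boundary -/
def Sh' (n : ℕ) (ε : ℝ) : Set (Fin (n + 1) → ℝ) := {x | x ∈ Sp (n + 1) ∧ 0 ≤ ε * x 0}

/-- the equator -/
def Eq' (n : ℕ) : Set (Fin (n + 1) → ℝ) := {x | x ∈ Sp (n + 1) ∧ x 0 = 0}

/-! ### auxiliary PL maps -/

private theorem mem_O' {n : ℕ} {x : Fin (n + 1) → ℝ} :
    x ∈ O (n + 1) ↔ |x 0| + ∑ i : Fin n, |x i.succ| ≤ 1 := by
  show ∑ i, |x i| ≤ 1 ↔ _
  rw [Fin.sum_univ_succ]

private theorem mem_Sp' {n : ℕ} {x : Fin (n + 1) → ℝ} :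
    x ∈ Sp (n + 1) ↔ |x 0| + ∑ i : Fin n, |x i.succ| = 1 := by
  show ∑ i, |x i| = 1 ↔ _
  rw [Fin.sum_univ_succ]

private theorem abs_sel (t : ℝ) : |t| = (if decide (0 ≤ t) = true then (1 : ℝ) else -1) * t := by
  by_cases h : 0 ≤ t
  · rw [abs_of_nonneg h]; simp [h]
  · rw [abs_of_neg (not_le.1 h)]; simp [h]

/-- `x ↦ (a x0 + b |tail x| + c, tail x)` -/
private def cm (n : ℕ) (a b c : ℝ) (x : Fin (n + 1) → ℝ) : Fin (n + 1) → ℝ :=
  Fin.cons (a * x 0 + b * ∑ i : Fin n, |x i.succ| + c) (fun i => x i.succ)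

private theorem cm_zero (n : ℕ) (a b c : ℝ) (x : Fin (n + 1) → ℝ) :
    cm n a b c x 0 = a * x 0 + b * ∑ i : Fin n, |x i.succ| + c := rfl

private theorem cm_succ (n : ℕ) (a b c : ℝ) (x : Fin (n + 1) → ℝ) (i : Fin n) :
    cm n a b c x i.succ = x i.succ := rfl

private theorem cm_pl (n : ℕ) (a b c : ℝ) (X : Set (Fin (n + 1) → ℝ)) : PLOn (cm n a b c) X := by
  refine ⟨?_, ?_⟩
  · refine Continuous.continuousOn (continuous_pi fun i => ?_)
    refine Fin.cases ?_ (fun i => ?_) i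
    · show Continuous fun x : Fin (n + 1) → ℝ => a * x 0 + b * ∑ i : Fin n, |x i.succ| + c
      fun_prop
    · show Continuous fun x : Fin (n + 1) → ℝ => x i.succ
      fun_prop
  · let L : (Fin n → Bool) → (Fin (n + 1) → ℝ) →ₗ[ℝ] (Fin (n + 1) → ℝ) := fun s =>
      { toFun := fun x => Fin.cons (a * x 0 + b * ∑ i : Fin n, (if s i = true then (1 : ℝ) else -1) *
          x i.succ) (fun i => x i.succ)
        map_add' := by
          intro x y
          funext i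
          refine Fin.cases ?_ (fun i => ?_) i
          · simp only [Fin.cons_zero, Pi.add_apply, mul_add, Finset.sum_add_distrib]
            ring
          · simp only [Fin.cons_succ, Pi.add_apply]
        map_smul' := by
          intro t x
          funext i
          refine Fin.cases ?_ (fun i => ?_) i
          · simp only [Fin.cons_zero, Pi.smul_apply, smul_eq_mul, RingHom.id_apply]
            rw [show ∑ i : Fin n, (if s i = true then (1 : ℝ) else -1) * (t * x i.succ) =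
              t * ∑ i : Fin n, (if s i = true then (1 : ℝ) else -1) * x i.succ by
                rw [Finset.mul_sum]
                exact Finset.sum_congr rfl fun i _ => by ring]
            ring
          · simp only [Fin.cons_succ, Pi.smul_apply, RingHom.id_apply] }
    let v : Fin (n + 1) → ℝ := Fin.cons c (fun _ => 0)
    refine ⟨Set.range fun s => (L s).toAffineMap + AffineMap.const ℝ _ v, Set.finite_range _,
      fun x _ => ⟨_, ⟨fun i => decide (0 ≤ x i.succ), rfl⟩, ?_⟩⟩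
    funext i
    refine Fin.cases ?_ (fun i => ?_) i
    · show a * x 0 + b * ∑ i : Fin n, |x i.succ| + c = (a * x 0 + b * ∑ i : Fin n,
        (if decide (0 ≤ x i.succ) = true then (1 : ℝ) else -1) * x i.succ) + c
      rw [Finset.sum_congr rfl fun i _ => abs_sel (x (Fin.succ i))]
    · show x i.succ = x i.succ + 0
      rw [add_zero]

/-- `y ↦ (a |y| + c, y)` -/
private def cn (n : ℕ) (a c : ℝ) (y : Fin n → ℝ) : Fin (n + 1) → ℝ :=
  Fin.cons (a * ∑ i : Fin n, |y i| + c) y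

private theorem cn_zero (n : ℕ) (a c : ℝ) (x : Fin n → ℝ) :
    cn n a c x 0 = a * ∑ i : Fin n, |x i| + c := rfl

private theorem cn_succ (n : ℕ) (a c : ℝ) (x : Fin n → ℝ) (i : Fin n) :
    cn n a c x i.succ = x i := rfl

private def zc (n : ℕ) : (Fin n → ℝ) →ₗ[ℝ] (Fin (n + 1) → ℝ) where
  toFun := fun y => Fin.cons 0 y
  map_add' := by
    intro x y
    funext i
    refine Fin.cases ?_ (fun i => ?_) i
    · simp only [Fin.cons_zero, Pi.add_apply, add_zero]
    · simp only [Fin.cons_succ, Pi.add_apply]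
  map_smul' := by
    intro t x
    funext i
    refine Fin.cases ?_ (fun i => ?_) i
    · simp only [Fin.cons_zero, Pi.smul_apply, smul_zero]
    · simp only [Fin.cons_succ, Pi.smul_apply, RingHom.id_apply]

private theorem cn_pl (n : ℕ) (a c : ℝ) (X : Set (Fin n → ℝ)) : PLOn (cn n a c) X := by
  have h1 : PLOn (fun y => (zc n).toAffineMap y) X :=
    PLOn.of_affine _ (LinearMap.continuous_of_finiteDimensional (zc n)) X
  have h2 : PLOn (fun y => cm n 0 a c ((zc n).toAffineMap y)) X :=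
    (cm_pl n 0 a c Set.univ).comp h1 (fun _ _ => Set.mem_univ _)
  refine h2.congr fun y _ => ?_
  funext i
  refine Fin.cases ?_ (fun i => ?_) i
  · rw [cn_zero, cm_zero]
    show _ = 0 * (0 : ℝ) + a * ∑ i : Fin n, |y i| + c
    ring
  · rfl

private theorem tl_pl (n : ℕ) (X : Set (Fin (n + 1) → ℝ)) :
    PLOn (fun (x : Fin (n + 1) → ℝ) (i : Fin n) => x i.succ) X :=
  PLOn.of_affine (LinearMap.funLeft ℝ ℝ (Fin.succ : Fin n → Fin (n + 1))).toAffineMap
    (LinearMap.continuous_of_finiteDimensional _) X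

private theorem eps_mul {ε : ℝ} (hε : ε = 1 ∨ ε = -1) : ε * ε = 1 := by
  rcases hε with rfl | rfl <;> norm_num

private theorem eps_abs {ε : ℝ} (hε : ε = 1 ∨ ε = -1) (t : ℝ) : |ε * t| = |t| := by
  rcases hε with rfl | rfl <;> simp

private theorem eps_ext {n : ℕ} {x y : Fin (n + 1) → ℝ} (h0 : x 0 = y 0)
    (hs : ∀ i : Fin n, x i.succ = y i.succ) : x = y := by
  funext i
  refine Fin.cases ?_ (fun i => ?_) i
  · exact h0
  · exact hs i

/-- `(t, x) ↦ (2 t - (1 - |x|), x)` maps the upper half onto the cross polytope -/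
theorem ball_half (n : ℕ) {ε : ℝ} (hε : ε = 1 ∨ ε = -1) :
    Ball (n + 1) (Oh n ε) (Om n ∪ Sh' n ε) := by
  have hεε := eps_mul hε
  have key : ∀ x : Fin (n + 1) → ℝ, 0 ≤ ε * x 0 → |x 0| = ε * x 0 := by
    intro x hx
    rw [← eps_abs hε (x 0), abs_of_nonneg hx]
  refine ⟨?_, cm n (2 * ε) 1 (-1), cm n (ε / 2) (-ε / 2) (ε / 2),
    ⟨cm_pl _ _ _ _ _, cm_pl _ _ _ _ _, ?_, ?_, ?_, ?_⟩, ?_⟩
  · rintro x (⟨hx, h0⟩ | ⟨hx, h0⟩)
    · refine ⟨hx, ?_⟩
      rw [h0, mul_zero]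
    · exact ⟨le_of_eq hx, h0⟩
  · rintro x ⟨hx, h0⟩
    rw [mem_O'] at hx ⊢
    rw [key x h0] at hx
    rw [cm_zero]
    simp only [cm_succ]
    have h1 : |2 * ε * x 0 + 1 * ∑ i : Fin n, |x i.succ| + -1| ≤ 1 - ∑ i : Fin n, |x i.succ| := by
      rw [abs_le]
      constructor <;> linarith
    linarith
  · intro y hy
    rw [mem_O'] at hy
    have h1 : |y 0| ≤ 1 - ∑ i : Fin n, |y i.succ| := by linarith
    rw [abs_le] at h1
    have h2 : ε * cm n (ε / 2) (-ε / 2) (ε / 2) y 0 = (y 0 + 1 - ∑ i : Fin n, |y i.succ|) / 2 := by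
      rw [cm_zero]
      have : ε * (ε / 2 * y 0 + -ε / 2 * ∑ i : Fin n, |y i.succ| + ε / 2) =
        (ε * ε) * (y 0 + 1 - ∑ i : Fin n, |y i.succ|) / 2 := by ring
      rw [this, hεε, one_mul]
    have h3 : 0 ≤ ε * cm n (ε / 2) (-ε / 2) (ε / 2) y 0 := by
      rw [h2]
      linarith [h1.1]
    refine ⟨?_, h3⟩
    rw [mem_O', key _ h3, h2]
    simp only [cm_succ]
    linarith [h1.2]
  · rintro x ⟨hx, h0⟩
    refine eps_ext ?_ (fun i => rfl)
    rw [cm_zero, cm_zero]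
    simp only [cm_succ]
    have : ε / 2 * (2 * ε * x 0 + 1 * ∑ i : Fin n, |x i.succ| + -1) +
      -ε / 2 * ∑ i : Fin n, |x i.succ| + ε / 2 = (ε * ε) * x 0 := by ring
    rw [this, hεε, one_mul]
  · intro y hy
    refine eps_ext ?_ (fun i => rfl)
    rw [cm_zero, cm_zero]
    simp only [cm_succ]
    have : 2 * ε * (ε / 2 * y 0 + -ε / 2 * ∑ i : Fin n, |y i.succ| + ε / 2) +
      1 * ∑ i : Fin n, |y i.succ| + -1 = (ε * ε) * (y 0 - ∑ i : Fin n, |y i.succ| + 1) +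
        ∑ i : Fin n, |y i.succ| - 1 := by ring
    rw [this, hεε]
    ring
  · ext y
    constructor
    · rintro ⟨x, (⟨hx, h0⟩ | ⟨hx, h0⟩), rfl⟩
      · rw [mem_O', h0, abs_zero, zero_add] at hx
        rw [mem_Sp', cm_zero, h0]
        simp only [cm_succ]
        have : |2 * ε * 0 + 1 * ∑ i : Fin n, |x i.succ| + -1| = 1 - ∑ i : Fin n, |x i.succ| := by
          rw [abs_of_nonpos (by linarith)]
          ring
        rw [this]
        ring
      · rw [mem_Sp', key x h0] at hx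
        rw [mem_Sp', cm_zero]
        simp only [cm_succ]
        have : |2 * ε * x 0 + 1 * ∑ i : Fin n, |x i.succ| + -1| = ε * x 0 := by
          rw [show 2 * ε * x 0 + 1 * ∑ i : Fin n, |x i.succ| + -1 = ε * x 0 by linarith]
          exact abs_of_nonneg h0
        rw [this]
        exact hx
    · intro hy
      have hyO : y ∈ O (n + 1) := le_of_eq hy
      rw [mem_Sp'] at hy
      have h1 : |y 0| = 1 - ∑ i : Fin n, |y i.succ| := by linarith
      have h2 : cm n (ε / 2) (-ε / 2) (ε / 2) y 0 =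
          ε * ((y 0 + 1 - ∑ i : Fin n, |y i.succ|) / 2) := by
        rw [cm_zero]
        ring
      have hinv : cm n (2 * ε) 1 (-1) (cm n (ε / 2) (-ε / 2) (ε / 2) y) = y := by
        refine eps_ext ?_ (fun i => rfl)
        rw [cm_zero, cm_zero]
        simp only [cm_succ]
        have : 2 * ε * (ε / 2 * y 0 + -ε / 2 * ∑ i : Fin n, |y i.succ| + ε / 2) +
          1 * ∑ i : Fin n, |y i.succ| + -1 = (ε * ε) * (y 0 - ∑ i : Fin n, |y i.succ| + 1) +
            ∑ i : Fin n, |y i.succ| - 1 := by ring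
        rw [this, hεε]
        ring
      have hTle : 0 ≤ 1 - ∑ i : Fin n, |y i.succ| := by rw [← h1]; exact abs_nonneg _
      refine ⟨cm n (ε / 2) (-ε / 2) (ε / 2) y, ?_, hinv⟩
      rcases abs_cases (y 0) with ⟨ha, hb⟩ | ⟨ha, hb⟩
      · right
        have h3 : ε * cm n (ε / 2) (-ε / 2) (ε / 2) y 0 = 1 - ∑ i : Fin n, |y i.succ| := by
          rw [h2, ← mul_assoc, hεε, one_mul]
          linarith
        refine ⟨?_, ?_⟩
        · rw [mem_Sp', key _ (by rw [h3]; exact hTle), h3]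
          simp only [cm_succ]
          ring
        · rw [h3]
          exact hTle
      · left
        have h3 : cm n (ε / 2) (-ε / 2) (ε / 2) y 0 = 0 := by
          rw [h2]
          have : y 0 + 1 - ∑ i : Fin n, |y i.succ| = 0 := by linarith
          rw [this]
          ring
        refine ⟨?_, h3⟩
        rw [mem_O', h3, abs_zero, zero_add]
        simp only [cm_succ]
        linarith

theorem ball_mid (n : ℕ) : Ball n (Om n) (Eq' n) := by
  refine ⟨?_, fun x i => x i.succ, cn n 0 0, ⟨tl_pl _ _, cn_pl _ _ _ _, ?_, ?_, ?_, ?_⟩, ?_⟩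
  · rintro x ⟨hx, h0⟩
    exact ⟨le_of_eq hx, h0⟩
  · rintro x ⟨hx, h0⟩
    rw [mem_O', h0, abs_zero, zero_add] at hx
    exact hx
  · intro y hy
    have h0 : cn n 0 0 y 0 = 0 := by rw [cn_zero]; ring
    refine ⟨?_, h0⟩
    rw [mem_O', h0, abs_zero, zero_add]
    exact hy
  · rintro x ⟨hx, h0⟩
    refine eps_ext ?_ (fun i => rfl)
    rw [cn_zero, h0]
    ring
  · intro y hy
    rfl
  · ext y
    constructor
    · rintro ⟨x, ⟨hx, h0⟩, rfl⟩
      rw [mem_Sp', h0, abs_zero, zero_add] at hx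
      exact hx
    · intro hy
      have h0 : cn n 0 0 y 0 = 0 := by rw [cn_zero]; ring
      refine ⟨cn n 0 0 y, ⟨?_, h0⟩, rfl⟩
      rw [mem_Sp', h0, abs_zero, zero_add]
      exact hy

theorem ball_cap (n : ℕ) {ε : ℝ} (hε : ε = 1 ∨ ε = -1) : Ball n (Sh' n ε) (Eq' n) := by
  have hεε := eps_mul hε
  have key : ∀ x : Fin (n + 1) → ℝ, 0 ≤ ε * x 0 → |x 0| = ε * x 0 := by
    intro x hx
    rw [← eps_abs hε (x 0), abs_of_nonneg hx]
  have h0' : ∀ y : Fin n → ℝ, ε * cn n (-ε) ε y 0 = 1 - ∑ i : Fin n, |y i| := by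
    intro y
    rw [cn_zero]
    have : ε * (-ε * ∑ i : Fin n, |y i| + ε) = (ε * ε) * (1 - ∑ i : Fin n, |y i|) := by ring
    rw [this, hεε, one_mul]
  have hmem : ∀ y : Fin n → ℝ, ∑ i : Fin n, |y i| ≤ 1 → cn n (-ε) ε y ∈ Sh' n ε := by
    intro y hy
    have h3 : 0 ≤ ε * cn n (-ε) ε y 0 := by rw [h0' y]; linarith
    refine ⟨?_, h3⟩
    rw [mem_Sp', key _ h3, h0' y]
    simp only [cn_succ]
    ring
  refine ⟨?_, fun x i => x i.succ, cn n (-ε) ε, ⟨tl_pl _ _, cn_pl _ _ _ _, ?_, ?_, ?_, ?_⟩, ?_⟩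
  · rintro x ⟨hx, h0⟩
    refine ⟨hx, ?_⟩
    rw [h0, mul_zero]
  · rintro x ⟨hx, h0⟩
    rw [mem_Sp'] at hx
    show ∑ i : Fin n, |x i.succ| ≤ 1
    linarith [abs_nonneg (x 0)]
  · intro y hy
    exact hmem y hy
  · rintro x ⟨hx, h0⟩
    rw [mem_Sp', key x h0] at hx
    refine eps_ext ?_ (fun i => rfl)
    rw [cn_zero]
    have h1 : -ε * ∑ i : Fin n, |x i.succ| + ε = ε * (ε * x 0) := by
      rw [show ε * x 0 = 1 - ∑ i : Fin n, |x i.succ| by linarith]
      ring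
    rw [h1, ← mul_assoc, hεε, one_mul]
  · intro y hy
    rfl
  · ext y
    constructor
    · rintro ⟨x, ⟨hx, h0⟩, rfl⟩
      rw [mem_Sp', h0, abs_zero, zero_add] at hx
      exact hx
    · intro hy
      have hy' : ∑ i : Fin n, |y i| = 1 := hy
      have h0 : cn n (-ε) ε y 0 = 0 := by
        rw [cn_zero, hy']
        ring
      refine ⟨cn n (-ε) ε y, ⟨?_, h0⟩, rfl⟩
      rw [mem_Sp', h0, abs_zero, zero_add]
      exact hy

theorem half_facts (n : ℕ) :
    Oh n 1 ∪ Oh n (-1) = O (n + 1) ∧ Oh n 1 ∩ Oh n (-1) = Om n ∧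
    Sh' n 1 ∪ Sh' n (-1) = Sp (n + 1) ∧ Om n ∩ Sh' n 1 = Eq' n ∧ Om n ∩ Sh' n (-1) = Eq' n := by
  refine ⟨?_, ?_, ?_, ?_, ?_⟩
  · ext x
    constructor
    · rintro (h | h) <;> exact h.1
    · intro h
      rcases le_total 0 (x 0) with h0 | h0
      · exact Or.inl ⟨h, by rw [one_mul]; exact h0⟩
      · exact Or.inr ⟨h, by linarith⟩
  · ext x
    constructor
    · rintro ⟨h1, h2⟩
      refine ⟨h1.1, ?_⟩
      have h3 := h1.2
      have h4 := h2.2
      linarith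
    · rintro ⟨h1, h2⟩
      exact ⟨⟨h1, by rw [h2, mul_zero]⟩, h1, by rw [h2, mul_zero]⟩
  · ext x
    constructor
    · rintro (h | h) <;> exact h.1
    · intro h
      rcases le_total 0 (x 0) with h0 | h0
      · exact Or.inl ⟨h, by rw [one_mul]; exact h0⟩
      · exact Or.inr ⟨h, by linarith⟩
  · ext x
    constructor
    · rintro ⟨h1, h2⟩
      exact ⟨h2.1, h1.2⟩
    · rintro ⟨h1, h2⟩
      exact ⟨⟨le_of_eq h1, h2⟩, h1, by rw [h2, mul_zero]⟩
  · ext x
    constructor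
    · rintro ⟨h1, h2⟩
      exact ⟨h2.1, h1.2⟩
    · rintro ⟨h1, h2⟩
      exact ⟨⟨le_of_eq h1, h2⟩, h1, by rw [h2, mul_zero]⟩

variable {E : Type}
variable [AddCommGroup E] [Module ℝ E] [TopologicalSpace E] [IsTopologicalAddGroup E]
  [ContinuousSMul ℝ E] [T2Space E] [FiniteDimensional ℝ E]

/-- a ball with boundary `D ∪ D₁`, two balls with common boundary `R`, is a half ball; the
homeomorphism can be prescribed on `D` -/
theorem half_of_ball {n : ℕ} {X D D₁ R : Set E} {ε : ℝ} (hε : ε = 1 ∨ ε = -1)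
    (hX : Ball (n + 1) X (D ∪ D₁)) (hD : Ball n D R) (hD₁ : Ball n D₁ R) (hR : D ∩ D₁ = R)
    {φ : E → Fin (n + 1) → ℝ} {ψ : (Fin (n + 1) → ℝ) → E} (hφ : PLH D (Om n) φ ψ)
    (hφR : φ '' R = Eq' n) :
    ∃ f g, PLH X (Oh n ε) f g ∧ (∀ x ∈ D, f x = φ x) ∧ f '' D₁ = Sh' n ε := by
  have hRD : R ⊆ D := by rw [← hR]; exact Set.inter_subset_left
  have hRD₁ : R ⊆ D₁ := by rw [← hR]; exact Set.inter_subset_right
  have hOS : Om n ∩ Sh' n ε = Eq' n := by
    rcases hε with rfl | rfl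
    · exact (half_facts n).2.2.2.1
    · exact (half_facts n).2.2.2.2
  have k0 : PLH R (Eq' n) φ ψ := hφ.restrict' hRD hφR
  obtain ⟨f1, g1, h1, hf1, hg1⟩ := hD₁.ext (ball_cap n hε) k0
  obtain ⟨f2, g2, h2, ha, hb, _, _⟩ := PLH.union hφ h1 hD.isClosed hD₁.isClosed
    (ball_mid n).isClosed (ball_cap n hε).isClosed
    (fun x hx => by
      rw [hR] at hx
      exact (hf1 x hx).symm)
    (by rw [hR, hφR, hOS])
  obtain ⟨f, g, h3, hc, _⟩ := hX.ext (ball_half n hε) h2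
  refine ⟨f, g, h3, fun x hx => ?_, ?_⟩
  · rw [hc x (Or.inl hx), ha x hx]
  · rw [← h1.image]
    refine Set.image_congr fun x hx => ?_
    rw [hc x (Or.inr hx), hb x hx]

/-- GLUE -/
theorem Ball.glue {n : ℕ} {X₁ X₂ D D₁ D₂ R : Set E}
    (h₁ : Ball (n + 1) X₁ (D ∪ D₁)) (h₂ : Ball (n + 1) X₂ (D ∪ D₂)) (hX : X₁ ∩ X₂ = D)
    (hD : Ball n D R) (hD₁ : Ball n D₁ R) (hD₂ : Ball n D₂ R)
    (hR₁ : D ∩ D₁ = R) (hR₂ : D ∩ D₂ = R) :
    Ball (n + 1) (X₁ ∪ X₂) (D₁ ∪ D₂) := by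
  obtain ⟨φ, ψ, hφ, hφR⟩ := hD.plh (ball_mid n)
  obtain ⟨f1, g1, k1, ha1, hb1⟩ := half_of_ball (ε := 1) (Or.inl rfl) h₁ hD hD₁ hR₁ hφ hφR
  obtain ⟨f2, g2, k2, ha2, hb2⟩ := half_of_ball (ε := -1) (Or.inr rfl) h₂ hD hD₂ hR₂ hφ hφR
  obtain ⟨e1, e2, e3, _, _⟩ := half_facts n
  have hi : f1 '' D = Om n := by
    rw [← hφ.image]
    exact Set.image_congr ha1
  obtain ⟨f, g, k, hf, hf', _, _⟩ := PLH.union k1 k2 h₁.isClosed h₂.isClosed
    (ball_half n (Or.inl rfl)).isClosed (ball_half n (Or.inr rfl)).isClosed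
    (fun x hx => by
      rw [hX] at hx
      rw [ha1 x hx, ha2 x hx])
    (by rw [hX, hi, e2])
  rw [e1] at k
  have hD1X : D₁ ⊆ X₁ := fun x hx => h₁.1 (Or.inr hx)
  have hD2X : D₂ ⊆ X₂ := fun x hx => h₂.1 (Or.inr hx)
  refine ⟨Set.union_subset_union hD1X hD2X, f, g, k, ?_⟩
  rw [Set.image_union, Set.image_congr fun x hx => hf x (hD1X hx),
    Set.image_congr fun x hx => hf' x (hD2X hx), hb1, hb2, e3]

end MOT
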