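import Pool.Agent.MOT.PaMvFX
import Pool.Agent.MOT.PaCol

/-!
# MOT/PtF: fibres of the greatest element of a chain; removal of a down set (block P)
-/

open Classical

noncomputable section

namespace MOT.Pt

open MOT.Pa MOT.Pa.FX

variable {V : Type} {G : SimpleGraph V}

/-- chains below `q0` which meet `A` and `B` (disjoint, `q0 ∈ B` is the greatest element) -/
theorem fb {A B : Set (Cq G)} {q0 : Cq G} (hA : ∀ r ∈ A, r ≤ q0) (hB : ∀ r ∈ B, r ≤ q0)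
    (h0 : q0 ∈ B) (hd : ∀ r ∈ A, r ∉ B) (hc : Conn (sd G) A) (hz : HZ (sd G) A)
    {S : Set (Cq (sd G))} (hS : ∀ c : Cq (sd G), c ∈ S ↔ (∃ r ∈ c.1, r ∈ A) ∧ (∃ r ∈ c.1, r ∈ B) ∧
      ∀ r ∈ c.1, r ∈ A ∨ r ∈ B) : Conn (sd (sd G)) S ∧ HZ (sd (sd G)) S := by
  have hlt : ∀ c ∈ mi (sd G) A, ∀ r ∈ c.1, r < q0 := by
    intro c hc r hr
    exact lt_of_le_of_ne (hA r (hc r hr)) (fun e => hd r (hc r hr) (e ▸ h0))
  set S1 : Set (Cq (sd G)) := {c | c ∈ S ∧ q0 ∈ c.1} with hS1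
  have hle : ∀ c ∈ S, ∀ r ∈ c.1, r ≤ q0 := by
    intro c hc r hr
    rcases ((hS c).1 hc).2.2 r hr with h | h
    · exact hA r h
    · exact hB r h
  have u1 : S1 ⊆ S := fun c h => h.1
  have u2 : ∀ c ∈ S, insC q0 c ∈ S1 := by
    intro c hc
    obtain ⟨⟨r, hr, hrA⟩, ⟨r', hr', hrB⟩, h3⟩ := (hS c).1 hc
    have hm := fun {r} => mem_insC (G := G) (a := q0) (Q := c) (hle c hc) (q := r)
    refine ⟨(hS _).2 ⟨⟨r, hm.2 (Or.inr hr), hrA⟩, ⟨r', hm.2 (Or.inr hr'), hrB⟩, ?_⟩,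
      hm.2 (Or.inl rfl)⟩
    intro s hs
    rcases hm.1 hs with e | e
    · rw [e]; exact Or.inr h0
    · exact h3 s e
  have u3 : ∀ c ∈ S, c ≤ insC q0 c := fun c _ => le_insC q0 c
  have u4 : ∀ c ∈ S, ∀ c' ∈ S, c ≤ c' → insC q0 c ≤ insC q0 c' := fun c _ c' hc' h =>
    insC_mono (hle c' hc') h
  have u5 : ∀ c ∈ S1, insC q0 c = c := by
    intro c hc
    apply Subtype.ext
    ext r
    rw [mem_insC (hle c hc.1)]
    constructor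
    · rintro (e | e)
      · rw [e]; exact hc.2
      · exact e
    · exact fun e => Or.inr e
  -- second step: drop the other elements of `B`
  set M : Set (Cq G) := A ∪ {q0} with hM
  have hmA : ∀ c ∈ S1, ∃ r ∈ c.1, r ∈ M := fun c hc => ⟨q0, hc.2, Or.inr rfl⟩
  have hCN : ∀ c : Cq (sd G), c ∈ CN q0 (mi (sd G) A) ↔
      (∃ r ∈ c.1, r ∈ A) ∧ q0 ∈ c.1 ∧ ∀ r ∈ c.1, r ∈ A ∨ r = q0 := by
    intro c
    constructor
    · rintro ⟨c', hc', h⟩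
      obtain ⟨r, hr⟩ := c'.2.1
      refine ⟨⟨r, (h r).2 (Or.inr hr), hc' r hr⟩, (h q0).2 (Or.inl rfl), fun s hs => ?_⟩
      rcases (h s).1 hs with e | e
      · exact Or.inr e
      · exact Or.inl (hc' s e)
    · rintro ⟨⟨r, hr, hrA⟩, h1, h2⟩
      have hp : c ∈ pl (sd G) A := ⟨r, hr, hrA⟩
      refine ⟨tr A c, tr_mem hp, fun s => ?_⟩
      rw [tr_val hp, Finset.mem_filter]
      constructor
      · intro hs
        rcases h2 s hs with e | e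
        · exact Or.inr ⟨hs, e⟩
        · exact Or.inl e
      · rintro (e | e)
        · rw [e]; exact h1
        · exact e.1
  have v1 : CN q0 (mi (sd G) A) ⊆ S1 := by
    intro c hc
    obtain ⟨⟨r, hr, hrA⟩, h1, h2⟩ := (hCN c).1 hc
    refine ⟨(hS c).2 ⟨⟨r, hr, hrA⟩, ⟨q0, h1, h0⟩, fun s hs => ?_⟩, h1⟩
    rcases h2 s hs with e | e
    · exact Or.inl e
    · rw [e]; exact Or.inr h0
  have v2 : ∀ c ∈ S1, tr M c ∈ CN q0 (mi (sd G) A) := by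
    intro c hc
    obtain ⟨⟨r, hr, hrA⟩, _, _⟩ := (hS c).1 hc.1
    refine (hCN _).2 ⟨⟨r, (mem_tr (hmA c hc)).2 ⟨hr, Or.inl hrA⟩, hrA⟩,
      (mem_tr (hmA c hc)).2 ⟨hc.2, Or.inr rfl⟩, fun s hs => ?_⟩
    exact ((mem_tr (hmA c hc)).1 hs).2
  have v3 : ∀ c ∈ S1, tr M c ≤ c := fun c _ => tr_le c
  have v4 : ∀ c ∈ S1, ∀ c' ∈ S1, c ≤ c' → tr M c ≤ tr M c' := fun c hc c' _ h =>
    tr_mono (G := sd G) (hmA c hc) h
  have v5 : ∀ c ∈ CN q0 (mi (sd G) A), tr M c = c := by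
    intro c hc
    apply tr_id
    intro s hs
    exact ((hCN c).1 hc).2.2 s hs
  have w1 : Conn (sd (sd G)) (CN q0 (mi (sd G) A)) := cn_Conn hlt (sd_Conn.2 hc)
  have w2 : HZ (sd (sd G)) (CN q0 (mi (sd G) A)) := cn_HZ hlt (sd_HZ.2 hz)
  have x1 : Conn (sd (sd G)) S1 := (ret_Conn (tr M) v1 v2 v3 v4).2 w1
  have x2 : HZ (sd (sd G)) S1 := (ret_HZ (tr M) v1 v2 v3 v4 v5).2 w2
  exact ⟨(retu_Conn (insC q0) u1 u2 u3 u4).2 x1, (retu_HZ (insC q0) u1 u2 u3 u4 u5).2 x2⟩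

/-- removal of a part `Z` whose upper links in the rest are connected with `H^1 = 0` -/
theorem rem_ok {A Z : Set (Cq G)} (hc : Conn (sd G) A) (hz : HZ (sd G) A)
    (h : ∀ σ ∈ A, σ ∈ Z → Conn (sd G) {x | x ∈ A \ Z ∧ σ ≤ x} ∧
      HZ (sd G) {x | x ∈ A \ Z ∧ σ ≤ x}) : Conn (sd G) (A \ Z) ∧ HZ (sd G) (A \ Z) := by
  have hf : ∀ y ∈ A, Conn (sd G) {x | x ∈ A \ Z ∧ y ≤ x} ∧ HZ (sd G) {x | x ∈ A \ Z ∧ y ≤ x} := by
    intro y hy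
    by_cases e : y ∈ Z
    · exact h y hy e
    · exact ⟨bot_Conn (m := y) ⟨⟨hy, e⟩, le_rfl⟩ (fun x hx => hx.2),
        bot_HZ (m := y) ⟨⟨hy, e⟩, le_rfl⟩ (fun x hx => hx.2)⟩
  exact ⟨fib_Conn (T := A) (fun x => x) (fun _ _ _ _ h => h) (fun x hx => hx.1)
      (fun y hy => (hf y hy).1) hc,
    fib_HZ (T := A) (fun x => x) (fun _ _ _ _ h => h) (fun x hx => hx.1) hf hz⟩

end MOT.Pt
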