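import Pool.Agent.MOT.PtN

/-!
# MOT/PtM: the open side on the next level: discs, complements, assembly (block P)
-/

open Classical

noncomputable section

namespace MOT.Pt

open MOT.Pa

variable {V A B : Type} {G : SimpleGraph V} {E : A → A → Prop} {e1 e2 : B → A} {S P N : Set V}
  {F : B → Set (Cq G)} {tt : V → A} {ρ : A → ℕ}

/-- the disc without its part in `S` -/
theorem F_ok (w : Wall G S P N) (h : SCol G E e1 e2 (S ∪ N) F tt) (b : B) :
    Conn (sd G) (F b \ mi G S) ∧ HZ (sd G) (F b \ mi G S) := by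
  refine rem_ok (h.dc b) (h.dz b) ?_
  intro σ hσF hσ
  obtain ⟨h1, h2, h3⟩ := (mem_disc h).1 hσF
  refine up_ok w hσ (fun x hx hxN => ?_) ?_
  · refine ⟨⟨(mem_disc h).2 ⟨fun y hy => ?_, cols_mono hx.le h2, cols_mono hx.le h3⟩, ?_⟩, hx.le⟩
    · by_cases e : y ∈ σ.1
      · exact Or.inl (hσ y e)
      · exact Or.inr (hxN y hy e)
    · intro hxS
      have h4 := (tr_over w hσ hx.le hxN).2
      rw [tr_id hxS] at h4
      exact hx.ne h4.symm
  · rintro x ⟨⟨h4, h5⟩, h6⟩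
    exact ⟨h6, (pl_iff w).2 ⟨((mem_disc h).1 h4).1, h5⟩⟩

/-- the discs on the open side -/
theorem dN_ok (w : Wall G S P N) (h : SCol G E e1 e2 (S ∪ N) F tt) (hne : ∀ a, ¬ E a a)
    (hρ : Function.Injective ρ) (b : B) :
    Conn (sd (sd G)) (Dn (sd G) (pl G N) e1 e2 (cr G S tt ρ) b) ∧
      HZ (sd (sd G)) (Dn (sd G) (pl G N) e1 e2 (cr G S tt ρ) b) := by
  have hb : e1 b ≠ e2 b := fun e => by
    have := h.ends.e b
    rw [e] at this
    exact hne _ this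
  have hT : ∀ c ∈ Dn (sd G) (pl G N) e1 e2 (cr G S tt ρ) b, tp c ∈ F b \ mi G S := by
    rintro c ⟨hc, ⟨x, hx, ex⟩, y, hy, ey⟩
    obtain ⟨h1, h2⟩ := (pl_iff w).1 (hc _ (tp_mem c))
    refine ⟨(mem_disc h).2 ⟨h1, ?_, ?_⟩, h2⟩
    · rw [← ex]; exact cols_mono (le_tp hx) (cr_mem x)
    · rw [← ey]; exact cols_mono (le_tp hy) (cr_mem y)
  have hf : ∀ q0 ∈ F b \ mi G S,
      Conn (sd (sd G)) {c | c ∈ Dn (sd G) (pl G N) e1 e2 (cr G S tt ρ) b ∧ tp c ≤ q0} ∧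
      HZ (sd (sd G)) {c | c ∈ Dn (sd G) (pl G N) e1 e2 (cr G S tt ρ) b ∧ tp c ≤ q0} := by
    rintro q0 ⟨hq0, hq0S⟩
    obtain ⟨hX, k1, k2⟩ := (mem_disc h).1 hq0
    have hqN : q0 ∈ pl G N := (pl_iff w).2 ⟨hX, hq0S⟩
    have hle : ∀ c : Cq (sd G), tp c ≤ q0 ↔ ∀ r ∈ c.1, r ≤ q0 := fun c =>
      ⟨fun h r hr => (le_tp hr).trans h, fun h => h _ (tp_mem c)⟩
    have hab : ∀ r : Cq G, r ≤ q0 → cr G S tt ρ r = e1 b ∨ cr G S tt ρ r = e2 b := fun r hr =>
      two_of h hne hq0 (cols_mono hr (cr_mem r))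
    have main : ∀ a a' : A, a ≠ a' → a ∈ cols tt q0 → cr G S tt ρ q0 = a' →
        (∀ r : Cq G, r ≤ q0 → cr G S tt ρ r = a ∨ cr G S tt ρ r = a') →
        (∀ c : Cq (sd G), c ∈ {c | c ∈ Dn (sd G) (pl G N) e1 e2 (cr G S tt ρ) b ∧ tp c ≤ q0} ↔
          (∃ r ∈ c.1, cr G S tt ρ r = a) ∧ (∃ r ∈ c.1, cr G S tt ρ r = a') ∧
            ∀ r ∈ c.1, r ≤ q0 ∧ r ∈ pl G N) →
        Conn (sd (sd G)) {c | c ∈ Dn (sd G) (pl G N) e1 e2 (cr G S tt ρ) b ∧ tp c ≤ q0} ∧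
        HZ (sd (sd G)) {c | c ∈ Dn (sd G) (pl G N) e1 e2 (cr G S tt ρ) b ∧ tp c ≤ q0} := by
      intro a a' haa ha ha' hr hc
      obtain ⟨f1, f2⟩ := face_ok w hρ hqN ha
      refine fb (A := {r | r ≤ q0 ∧ r ∈ cN G S N tt ρ a})
        (B := {r | r ≤ q0 ∧ r ∈ cN G S N tt ρ a'})
        (q0 := q0) (fun r h => h.1) (fun r h => h.1) ⟨le_rfl, hqN, ha'⟩
        (fun r h h' => haa (h.2.2.symm.trans h'.2.2)) f1 f2 (fun c => ?_)
      rw [hc c]
      constructor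
      · rintro ⟨⟨r, h1, h2⟩, ⟨s, h3, h4⟩, h5⟩
        exact ⟨⟨r, h1, (h5 r h1).1, (h5 r h1).2, h2⟩, ⟨s, h3, (h5 s h3).1, (h5 s h3).2, h4⟩,
          fun t ht => by
          rcases hr t (h5 t ht).1 with e | e
          · exact Or.inl ⟨(h5 t ht).1, (h5 t ht).2, e⟩
          · exact Or.inr ⟨(h5 t ht).1, (h5 t ht).2, e⟩⟩
      · rintro ⟨⟨r, h1, h2⟩, ⟨s, h3, h4⟩, h5⟩
        exact ⟨⟨r, h1, h2.2.2⟩, ⟨s, h3, h4.2.2⟩, fun t ht => by
          rcases h5 t ht with e | e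
          · exact ⟨e.1, e.2.1⟩
          · exact ⟨e.1, e.2.1⟩⟩
    rcases hab q0 le_rfl with e | e
    · refine main (e2 b) (e1 b) hb.symm k2 e (fun r hr => (hab r hr).symm) (fun c => ?_)
      constructor
      · rintro ⟨⟨h1, h2, h3⟩, h4⟩
        exact ⟨h3, h2, fun r hr => ⟨(hle c).1 h4 r hr, h1 r hr⟩⟩
      · rintro ⟨h1, h2, h3⟩
        exact ⟨⟨fun r hr => (h3 r hr).2, h2, h1⟩, (hle c).2 fun r hr => (h3 r hr).1⟩
    · refine main (e1 b) (e2 b) hb k1 e (fun r hr => hab r hr) (fun c => ?_)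
      constructor
      · rintro ⟨⟨h1, h2, h3⟩, h4⟩
        exact ⟨h2, h3, fun r hr => ⟨(hle c).1 h4 r hr, h1 r hr⟩⟩
      · rintro ⟨h1, h2, h3⟩
        exact ⟨⟨fun r hr => (h3 r hr).2, h1, h2⟩, (hle c).2 fun r hr => (h3 r hr).1⟩
  obtain ⟨t1, t2⟩ := F_ok w h b
  exact ⟨fibd_Conn (T := F b \ mi G S) tp (fun _ _ _ _ h' => tp_mono h') hT
      (fun q hq => (hf q hq).1) t1,
    fibd_HZ (T := F b \ mi G S) tp (fun _ _ _ _ h' => tp_mono h') hT hf t2⟩

/-- complements of the classes are connected -/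
theorem cN_compl (w : Wall G S P N) (h : SCol G E e1 e2 (S ∪ N) F tt)
    (hρ : Function.Injective ρ) (hX : Conn G (S ∪ P)) (hS : ∀ a, ∃ x ∈ S, tt x = a) (a : A) :
    Conn (sd G) (cN G S N tt ρ a)ᶜ := by
  have hX' : Conn (sd G) (mi G (S ∪ P)) := sd_Conn.2 hX
  have hnot : ∀ q ∈ mi G (S ∪ P), q ∉ pl G N := by
    intro q hq hqN
    rw [← mi_compl w] at hqN
    exact hqN hq
  have hsub : mi G (S ∪ P) ⊆ (cN G S N tt ρ a)ᶜ := fun q hq hq' => hnot q hq hq'.1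
  rw [Conn_iff] at hX' ⊢
  obtain ⟨⟨q1, hq1⟩, hX2⟩ := hX'
  refine ⟨⟨q1, hsub hq1⟩, fun f hf => ?_⟩
  have hfX := hX2 f (fun x y hxy => hf x y (hxy.mono hsub))
  have key : ∀ x ∈ (cN G S N tt ρ a)ᶜ, f x = f q1 := by
    intro x hx
    by_cases hxX : x ∈ mi G (S ∪ P)
    · exact hfX x hxX q1 hq1
    · have hxN : x ∈ pl G N := by
        rw [← mi_compl w]; exact hxX
      have hne : cr G S tt ρ x ≠ a := fun e => hx ⟨hxN, e⟩
      obtain ⟨c1, _⟩ := cN_ok w hρ (h.conn (cr G S tt ρ x)) (h.hz (cr G S tt ρ x))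
      rw [Conn_iff] at c1
      have hsub2 : cN G S N tt ρ (cr G S tt ρ x) ⊆ (cN G S N tt ρ a)ᶜ := fun q hq hq' =>
        hne (hq.2.symm.trans hq'.2)
      obtain ⟨y, hy, ey⟩ := hS (cr G S tt ρ x)
      have hyS : vx G y ∈ mi G S := by
        intro z hz
        have hz' : z ∈ ({y} : Finset V) := hz
        rw [Finset.mem_singleton.1 hz']; exact hy
      obtain ⟨⟨n, hn, hnN⟩, _⟩ := (nonempty_sd (vx G y) hyS w).1
      have hadj : G.Adj y n := hn y (by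
        show y ∈ ((({y} : Finset V)) : Set V)
        simp)
      have hmem : ∀ u, u ∈ (eg G hadj).1 ↔ u = y ∨ u = n := by
        intro u
        show u ∈ ({y, n} : Finset V) ↔ _
        simp
      have hp : eg G hadj ∈ pl G S := ⟨y, (hmem y).2 (Or.inl rfl), hy⟩
      have hz : eg G hadj ∈ cN G S N tt ρ (cr G S tt ρ x) := by
        refine ⟨⟨n, (hmem n).2 (Or.inr rfl), hnN⟩, ?_⟩
        rw [cr_pos hp]
        refine Pa.mx_eq hρ ⟨y, (tr_iff hp).2 ⟨(hmem y).2 (Or.inl rfl), hy⟩, ey⟩ ?_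
        rintro d ⟨u, hu, rfl⟩
        obtain ⟨hu1, hu2⟩ := (tr_iff hp).1 hu
        rcases (hmem u).1 hu1 with e | e
        · rw [e, ey]
        · rw [e] at hu2
          exact absurd hnN (Set.disjoint_left.1 w.dqn hu2)
      have e1 : f x = f (eg G hadj) :=
        c1.2 f (fun u v huv => hf u v (huv.mono hsub2)) x ⟨hxN, rfl⟩ _ hz
      have hvX : vx G y ∈ mi G (S ∪ P) := fun z hz => Or.inl (hyS z hz)
      have hlt : vx G y < eg G hadj := by
        rw [Cq.lt_iff, Finset.ssubset_iff_of_subset]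
        · refine ⟨n, (hmem n).2 (Or.inr rfl), ?_⟩
          show n ∉ ({y} : Finset V)
          rw [Finset.mem_singleton]
          exact hadj.ne.symm
        · intro u hu
          have hu' : u ∈ ({y} : Finset V) := hu
          exact (hmem u).2 (Or.inl (Finset.mem_singleton.1 hu'))
      have e2 : f (vx G y) = f (eg G hadj) :=
        hf _ _ ⟨Or.inl hlt, hsub hvX, hsub2 hz⟩
      rw [e1, ← e2]
      exact hfX _ hvX q1 hq1
  intro x hx y hy
  rw [key x hx, key y hy]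

/-- THE NEXT LEVEL, open side -/
theorem scol_open [Finite V] (hG : IsSph3 G) (w : Wall G S P N) (hX : Conn G (S ∪ P))
    (h : SCol G E e1 e2 (S ∪ N) F tt) (hne : ∀ a, ¬ E a a) (hρ : Function.Injective ρ)
    (hS : ∀ a, ∃ x ∈ S, tt x = a) :
    SCol (sd G) E e1 e2 (mi G (S ∪ P))ᶜ (Dn (sd G) (mi G (S ∪ P))ᶜ e1 e2 (cr G S tt ρ))
      (cr G S tt ρ) := by
  rw [mi_compl w]
  have hcl : ∀ a, {x | x ∈ pl G N ∧ cr G S tt ρ x = a} = cN G S N tt ρ a := fun a => rfl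
  have hok := fun a => cN_ok w hρ (h.conn a) (h.hz a)
  have hcc := fun a => cN_compl w h hρ hX hS a
  exact {
    ends := h.ends
    adj := by
      intro x y hxy
      rcases cmp_le hxy with hle | hle
      · exact adj_of h (pl_sub w hxy.2.2) (cols_mono hle (cr_mem x)) (cr_mem y)
      · exact adj_of h (pl_sub w hxy.2.1) (cr_mem x) (cols_mono hle (cr_mem y))
    two := by
      intro x y z h1 h2 h3
      obtain ⟨u, hu, hx, hy, hz⟩ := top3 (cmp_le h1) (cmp_le h2) (cmp_le h3)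
      have huX : u ∈ pl G N := by
        rcases hu with rfl | rfl | rfl
        · exact h1.2.1
        · exact h1.2.2
        · exact h2.2.2
      exact two_of3 h (pl_sub w huX) (cols_mono hx (cr_mem x)) (cols_mono hy (cr_mem y))
        (cols_mono hz (cr_mem z))
    disc := fun b => rfl
    conn := fun a => (hok a).1
    hz := fun a => (hok a).2
    cconn := fun a => hcc a
    chz := fun a => by
      rw [hcl a]
      apply b1_eq_zero.1
      rw [← dual (sd_sph3 hG) (hok a).1 (hcc a)]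
      exact b1_eq_zero.2 (hok a).2
    dc := fun b => (dN_ok w h hne hρ b).1
    dz := fun b => (dN_ok w h hne hρ b).2 }

end MOT.Pt
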