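import Pool.Agent.MOT.PtX
import Pool.Agent.MOT.Sph
import Pool.Agent.MOT.Dua

/-!
# MOT/PtN: from the closed side `S ∪ N` of a wall to the open side on the next level (block P)
-/

open Classical

noncomputable section

namespace MOT.Pt

open MOT.Pa

variable {V A B : Type} {G : SimpleGraph V} {E : A → A → Prop} {e1 e2 : B → A} {S P N : Set V}
  {F : B → Set (Cq G)} {tt : V → A} {ρ : A → ℕ}

/-- CORE RULE: the colour of a simplex which meets `S` is decided by its part in `S` -/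
def cr (G : SimpleGraph V) (S : Set V) (f : V → A) (ρ : A → ℕ) : Cq G → A := fun q =>
  if q ∈ pl G S then Pa.mx f ρ (tr S q) else Pa.mx f ρ q

theorem cr_pos {q : Cq G} (h : q ∈ pl G S) : cr G S tt ρ q = Pa.mx tt ρ (tr S q) := if_pos h

theorem cr_neg {q : Cq G} (h : q ∉ pl G S) : cr G S tt ρ q = Pa.mx tt ρ q := if_neg h

theorem cr_mem (q : Cq G) : cr G S tt ρ q ∈ cols tt q := by
  by_cases h : q ∈ pl G S
  · rw [cr_pos h]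
    exact cols_mono (tr_le q) (Pa.mx_mem _)
  · rw [cr_neg h]
    exact Pa.mx_mem _

theorem pl_sub (w : Wall G S P N) : pl G N ⊆ mi G (S ∪ N) := by
  rintro q ⟨x, hx, hxN⟩ y hy
  have hc : y ∈ S ∪ P ∪ N := by rw [w.cover]; trivial
  rcases hc with (h | h) | h
  · exact Or.inl h
  · exfalso
    by_cases e : y = x
    · rw [e] at h; exact (Set.disjoint_left.1 w.dpn h) hxN
    · exact w.nadj y h x hxN (q.2.2 (Finset.mem_coe.2 hy) (Finset.mem_coe.2 hx) e)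
  · exact Or.inr h

theorem mi_compl (w : Wall G S P N) : (mi G (S ∪ P))ᶜ = pl G N := by
  rw [compl_mi]
  congr 1
  ext x
  constructor
  · intro hx
    have hc : x ∈ S ∪ P ∪ N := by rw [w.cover]; trivial
    rcases hc with h | h
    · exact absurd h hx
    · exact h
  · rintro hx (h | h)
    · exact Set.disjoint_left.1 w.dqn h hx
    · exact Set.disjoint_left.1 w.dpn h hx

theorem pl_iff (w : Wall G S P N) {q : Cq G} : q ∈ pl G N ↔ q ∈ mi G (S ∪ N) ∧ q ∉ mi G S := by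
  constructor
  · intro h
    refine ⟨pl_sub w h, fun h' => ?_⟩
    obtain ⟨x, hx, hxN⟩ := h
    exact Set.disjoint_left.1 w.dqn (h' x hx) hxN
  · rintro ⟨h1, h2⟩
    by_contra h3
    apply h2
    intro x hx
    rcases h1 x hx with h | h
    · exact h
    · exact absurd ⟨x, hx, h⟩ h3

theorem nonempty_sd (σ : Cq G) (hσ : σ ∈ mi G S) (w : Wall G S P N) :
    Conn G (Lk G (σ.1 : Set V) ∩ N) ∧ HZ G (Lk G (σ.1 : Set V) ∩ N) :=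
  w.hn σ.1 σ.2.1 σ.2.2 (fun x hx => hσ x (Finset.mem_coe.1 hx))

/-- upper links of simplices of `S` on the side `N` -/
theorem up_ok (w : Wall G S P N) {σ : Cq G} (hσ : σ ∈ mi G S) {T : Set (Cq G)}
    (h1 : ∀ x : Cq G, σ < x → (∀ y ∈ x.1, y ∉ σ.1 → y ∈ N) → x ∈ T)
    (h2 : ∀ x ∈ T, σ ≤ x ∧ x ∈ pl G N) : Conn (sd G) T ∧ HZ (sd G) T := by
  set M : Set V := {y | y ∈ σ.1 ∨ y ∈ N} with hM
  set T' : Set (Cq G) := {x | σ < x ∧ ∀ y ∈ x.1, y ∉ σ.1 → y ∈ N} with hT'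
  have hex : ∀ x ∈ T, ∃ y ∈ x.1, y ∈ M := by
    intro x hx
    obtain ⟨y, hy, hyN⟩ := (h2 x hx).2
    exact ⟨y, hy, Or.inr hyN⟩
  have r1 : T' ⊆ T := fun x hx => h1 x hx.1 hx.2
  have r2 : ∀ x ∈ T, tr M x ∈ T' := by
    intro x hx
    obtain ⟨hle, y, hy, hyN⟩ := h2 x hx
    have hm := fun {z} => tr_iff (M := M) (hex x hx) (x := z)
    constructor
    · refine lt_of_le_of_ne (Cq.le_iff.2 fun z hz => hm.2 ⟨hle hz, Or.inl hz⟩) ?_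
      intro e
      have h3 : y ∈ σ.1 := by
        rw [e]; exact hm.2 ⟨hy, Or.inr hyN⟩
      exact Set.disjoint_left.1 w.dqn (hσ y h3) hyN
    · intro z hz hzσ
      rcases (hm.1 hz).2 with e | e
      · exact absurd e hzσ
      · exact e
  have r3 : ∀ x ∈ T, tr M x ≤ x := fun x _ => tr_le x
  have r4 : ∀ x ∈ T, ∀ y ∈ T, x ≤ y → tr M x ≤ tr M y := fun x hx y _ h => tr_mono (hex x hx) h
  have r5 : ∀ x ∈ T', tr M x = x := by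
    intro x hx
    apply tr_id
    intro y hy
    by_cases e : y ∈ σ.1
    · exact Or.inl e
    · exact Or.inr (hx.2 y hy e)
  obtain ⟨c1, c2⟩ := nonempty_sd σ hσ w
  exact ⟨(ret_Conn (tr M) r1 r2 r3 r4).2 ((above_mi_Conn σ N).2 c1),
    (ret_HZ (tr M) r1 r2 r3 r4 r5).2 ((above_mi_HZ σ N).2 c2)⟩

/-- trace on `S` of a simplex over `σ` -/
theorem tr_over (w : Wall G S P N) {σ x : Cq G} (hσ : σ ∈ mi G S) (hx : σ ≤ x)
    (h : ∀ y ∈ x.1, y ∉ σ.1 → y ∈ N) : x ∈ pl G S ∧ tr S x = σ := by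
  obtain ⟨y, hy⟩ := σ.2.1
  have hp : x ∈ pl G S := ⟨y, hx hy, hσ y hy⟩
  refine ⟨hp, Subtype.ext ?_⟩
  ext z
  rw [tr_iff hp]
  constructor
  · rintro ⟨h1, h2⟩
    by_contra h3
    exact Set.disjoint_left.1 w.dqn h2 (h z h1 h3)
  · intro h1
    exact ⟨hx h1, hσ z h1⟩

theorem cr_mi {σ : Cq G} (hσ : σ ∈ mi G S) : cr G S tt ρ σ = Pa.mx tt ρ σ := by
  obtain ⟨y, hy⟩ := σ.2.1
  rw [cr_pos ⟨y, hy, hσ y hy⟩, tr_id hσ]

/-- classes on the closed side, core rule -/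
theorem cC_bt (hρ : Function.Injective ρ) (a : A) :
    mi G {x | x ∈ S ∪ N ∧ tt x = a} ⊆ {q | q ∈ mi G (S ∪ N) ∧ cr G S tt ρ q = a} ∧
      {q | q ∈ mi G (S ∪ N) ∧ cr G S tt ρ q = a} ⊆ pl G {x | x ∈ S ∪ N ∧ tt x = a} := by
  constructor
  · intro q hq
    refine ⟨fun x hx => (hq x hx).1, ?_⟩
    obtain ⟨x, hx, e⟩ := cr_mem (S := S) (tt := tt) (ρ := ρ) q
    rw [← e]
    exact (hq x hx).2
  · rintro q ⟨hq, e⟩
    obtain ⟨x, hx, e'⟩ := cr_mem (S := S) (tt := tt) (ρ := ρ) q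
    exact ⟨x, hx, hq x hx, e'.trans e⟩

/-- the class of `a` on the open side of the next level -/
def cN (G : SimpleGraph V) (S N : Set V) (tt : V → A) (ρ : A → ℕ) (a : A) : Set (Cq G) :=
  {q | q ∈ pl G N ∧ cr G S tt ρ q = a}

theorem cN_eq (w : Wall G S P N) (a : A) : cN G S N tt ρ a =
    {q | q ∈ mi G (S ∪ N) ∧ cr G S tt ρ q = a} \ mi G S := by
  ext q
  constructor
  · rintro ⟨h1, h2⟩
    obtain ⟨h3, h4⟩ := (pl_iff w).1 h1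
    exact ⟨⟨h3, h2⟩, h4⟩
  · rintro ⟨⟨h1, h2⟩, h3⟩
    exact ⟨(pl_iff w).2 ⟨h1, h3⟩, h2⟩

theorem cN_ok (w : Wall G S P N) (hρ : Function.Injective ρ) {a : A}
    (hc : Conn G {x | x ∈ S ∪ N ∧ tt x = a}) (hz : HZ G {x | x ∈ S ∪ N ∧ tt x = a}) :
    Conn (sd G) (cN G S N tt ρ a) ∧ HZ (sd G) (cN G S N tt ρ a) := by
  obtain ⟨b1, b2⟩ := cC_bt (G := G) (S := S) (N := N) (tt := tt) hρ a
  rw [cN_eq w]
  refine rem_ok ((bt_Conn b1 b2).2 hc) ((bt_HZ b1 b2).2 hz) ?_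
  rintro σ ⟨hσ1, hσ2⟩ hσ
  rw [cr_mi hσ] at hσ2
  refine up_ok w hσ (fun x hx hxN => ?_) ?_
  · obtain ⟨h1, h2⟩ := tr_over w hσ hx.le hxN
    refine ⟨⟨⟨fun y hy => ?_, ?_⟩, ?_⟩, hx.le⟩
    · by_cases e : y ∈ σ.1
      · exact Or.inl (hσ y e)
      · exact Or.inr (hxN y hy e)
    · rw [cr_pos h1, h2]; exact hσ2
    · intro hxS
      apply hx.ne
      rw [← h2, tr_id hxS]
  · rintro x ⟨⟨h1, h2⟩, h3⟩
    exact ⟨h3, (pl_iff w).2 ⟨h1.1, h2⟩⟩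

/-- faces of `q0` which meet `N` with core colour `a`, for a colour `a` of `q0` -/
theorem face_ok (w : Wall G S P N) (hρ : Function.Injective ρ) {q0 : Cq G} (h0 : q0 ∈ pl G N) {a : A}
    (ha : a ∈ cols tt q0) : Conn (sd G) {r | r ≤ q0 ∧ r ∈ cN G S N tt ρ a} ∧
      HZ (sd G) {r | r ≤ q0 ∧ r ∈ cN G S N tt ρ a} := by
  obtain ⟨n, hn, hnN⟩ := h0
  by_cases hS : ∃ x ∈ q0.1, x ∈ S ∧ tt x = a
  · obtain ⟨x0, hx0, hx0S, hx0a⟩ := hS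
    -- insert all vertices of `S` of priority at most `a`
    set L : Set V := {x | x ∈ S ∧ ρ (tt x) ≤ ρ a} with hL
    set g : Cq G → Cq G := fun r => tr {x | x ∈ r.1 ∨ x ∈ L} q0 with hg
    have hx0L : x0 ∈ L := ⟨hx0S, by rw [hx0a]⟩
    have hgm : ∀ r x, x ∈ (g r).1 ↔ x ∈ q0.1 ∧ (x ∈ r.1 ∨ x ∈ L) := fun r x =>
      tr_iff (M := {x | x ∈ r.1 ∨ x ∈ L}) ⟨x0, hx0, Or.inr hx0L⟩
    have hgq : ∀ r, g r ≤ q0 := fun r => tr_le q0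
    -- the core colour after insertion
    have hgc : ∀ r : Cq G, r ≤ q0 → r ∈ cN G S N tt ρ a → g r ∈ cN G S N tt ρ a := by
      rintro r hr ⟨⟨m, hm, hmN⟩, hra⟩
      refine ⟨⟨m, (hgm r m).2 ⟨hr hm, Or.inl hm⟩, hmN⟩, ?_⟩
      have hp : g r ∈ pl G S := ⟨x0, (hgm r x0).2 ⟨hx0, Or.inr hx0L⟩, hx0S⟩
      rw [cr_pos hp]
      refine Pa.mx_eq hρ ⟨x0, (tr_iff hp).2 ⟨(hgm r x0).2 ⟨hx0, Or.inr hx0L⟩, hx0S⟩, hx0a⟩ ?_
      rintro d ⟨y, hy, rfl⟩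
      obtain ⟨hy1, hyS⟩ := (tr_iff hp).1 hy
      rcases ((hgm r y).1 hy1).2 with hyr | hyL
      · have hrp : r ∈ pl G S := ⟨y, hyr, hyS⟩
        rw [cr_pos hrp] at hra
        have : ρ (tt y) ≤ ρ (Pa.mx tt ρ (tr S r)) :=
          Pa.mx_max ⟨y, (tr_iff hrp).2 ⟨hyr, hyS⟩, rfl⟩
        rw [hra] at this
        exact this
      · exact hyL.2
    -- top element
    set m : Cq G := tr {x | x ∈ N ∨ x ∈ L} q0 with hmdef
    have hmm : ∀ x, x ∈ m.1 ↔ x ∈ q0.1 ∧ (x ∈ N ∨ x ∈ L) := fun x =>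
      tr_iff (M := {x | x ∈ N ∨ x ∈ L}) ⟨x0, hx0, Or.inr hx0L⟩
    have hmc : m ∈ cN G S N tt ρ a := by
      refine ⟨⟨n, (hmm n).2 ⟨hn, Or.inl hnN⟩, hnN⟩, ?_⟩
      have hp : m ∈ pl G S := ⟨x0, (hmm x0).2 ⟨hx0, Or.inr hx0L⟩, hx0S⟩
      rw [cr_pos hp]
      refine Pa.mx_eq hρ ⟨x0, (tr_iff hp).2 ⟨(hmm x0).2 ⟨hx0, Or.inr hx0L⟩, hx0S⟩, hx0a⟩ ?_
      rintro d ⟨y, hy, rfl⟩
      obtain ⟨hy1, hyS⟩ := (tr_iff hp).1 hy
      rcases ((hmm y).1 hy1).2 with hyN | hyL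
      · exact absurd hyN (Set.disjoint_left.1 w.dqn hyS)
      · exact hyL.2
    have hrm : ∀ r : Cq G, r ≤ q0 → r ∈ cN G S N tt ρ a → r ≤ m := by
      rintro r hr ⟨hrN, hra⟩
      refine Cq.le_iff.2 fun y hy => (hmm y).2 ⟨hr hy, ?_⟩
      rcases pl_sub w hrN y hy with hyS | hyN
      · right
        refine ⟨hyS, ?_⟩
        have hrp : r ∈ pl G S := ⟨y, hy, hyS⟩
        rw [cr_pos hrp] at hra
        have : ρ (tt y) ≤ ρ (Pa.mx tt ρ (tr S r)) :=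
          Pa.mx_max ⟨y, (tr_iff hrp).2 ⟨hy, hyS⟩, rfl⟩
        rw [hra] at this
        exact this
      · exact Or.inl hyN
    set T' : Set (Cq G) := {r | (r ≤ q0 ∧ r ∈ cN G S N tt ρ a) ∧ ∀ x ∈ q0.1, x ∈ L → x ∈ r.1}
      with hT'
    have hmq : m ≤ q0 := tr_le q0
    have hmT : m ∈ T' := ⟨⟨hmq, hmc⟩, fun x hx hxL => (hmm x).2 ⟨hx, Or.inr hxL⟩⟩
    have r1 : T' ⊆ {r | r ≤ q0 ∧ r ∈ cN G S N tt ρ a} := fun r h => h.1
    have r2 : ∀ r ∈ {r | r ≤ q0 ∧ r ∈ cN G S N tt ρ a}, g r ∈ T' := fun r h =>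
      ⟨⟨hgq r, hgc r h.1 h.2⟩, fun x hx hxL => (hgm r x).2 ⟨hx, Or.inr hxL⟩⟩
    have r3 : ∀ r ∈ {r | r ≤ q0 ∧ r ∈ cN G S N tt ρ a}, r ≤ g r := fun r h =>
      Cq.le_iff.2 fun x hx => (hgm r x).2 ⟨h.1 hx, Or.inl hx⟩
    have r4 : ∀ r ∈ {r | r ≤ q0 ∧ r ∈ cN G S N tt ρ a}, ∀ s ∈ {r | r ≤ q0 ∧ r ∈ cN G S N tt ρ a},
        r ≤ s → g r ≤ g s := fun r _ s _ h =>
      Cq.le_iff.2 fun x hx => (hgm s x).2 ⟨((hgm r x).1 hx).1, by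
        rcases ((hgm r x).1 hx).2 with e | e
        · exact Or.inl (h e)
        · exact Or.inr e⟩
    have r5 : ∀ r ∈ T', g r = r := by
      intro r hr
      refine le_antisymm (Cq.le_iff.2 fun x hx => ?_) (r3 r hr.1)
      obtain ⟨h1, h2⟩ := (hgm r x).1 hx
      rcases h2 with e | e
      · exact e
      · exact hr.2 x h1 e
    exact ⟨(retu_Conn g r1 r2 r3 r4).2 (top_Conn hmT fun r h => hrm r h.1.1 h.1.2),
      (retu_HZ g r1 r2 r3 r4 r5).2 (top_HZ hmT fun r h => hrm r h.1.1 h.1.2)⟩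
  · -- no vertex of colour `a` in `S`: all these faces lie in `N`
    have hex : ∃ x ∈ q0.1, x ∈ {x | x ∈ N ∧ ρ (tt x) ≤ ρ a} := by
      obtain ⟨x, hx, e⟩ := ha
      refine ⟨x, hx, ?_, by show ρ (tt x) ≤ ρ a; rw [e]⟩
      rcases pl_sub w ⟨n, hn, hnN⟩ x hx with h | h
      · exact absurd ⟨x, hx, h, e⟩ hS
      · exact h
    have hmm : ∀ x, x ∈ (tr {x | x ∈ N ∧ ρ (tt x) ≤ ρ a} q0).1 ↔
        x ∈ q0.1 ∧ x ∈ N ∧ ρ (tt x) ≤ ρ a := fun x => tr_iff hex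
    have hall : ∀ r : Cq G, r ≤ q0 → r ∈ cN G S N tt ρ a → ∀ x ∈ r.1, x ∈ N ∧ ρ (tt x) ≤ ρ a := by
      rintro r hr ⟨hrN, hra⟩ x hx
      have hrS : r ∉ pl G S := by
        intro hp
        rw [cr_pos hp] at hra
        obtain ⟨y, hy, e⟩ := Pa.mx_mem (κ := tt) (ρ := ρ) (tr S r)
        obtain ⟨h1, h2⟩ := (tr_iff hp).1 hy
        exact hS ⟨y, hr h1, h2, e.trans hra⟩
      rw [cr_neg hrS] at hra
      constructor
      · rcases pl_sub w hrN x hx with h | h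
        · exact absurd ⟨x, hx, h⟩ hrS
        · exact h
      · have : ρ (tt x) ≤ ρ (Pa.mx tt ρ r) := Pa.mx_max ⟨x, hx, rfl⟩
        rw [hra] at this
        exact this
    have hm : tr {x | x ∈ N ∧ ρ (tt x) ≤ ρ a} q0 ∈ {r | r ≤ q0 ∧ r ∈ cN G S N tt ρ a} := by
      obtain ⟨x, hx, hxN, hxa⟩ := hex
      refine ⟨tr_le q0, ⟨x, (hmm x).2 ⟨hx, hxN, hxa⟩, hxN⟩, ?_⟩
      have hnS : tr {x | x ∈ N ∧ ρ (tt x) ≤ ρ a} q0 ∉ pl G S := by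
        rintro ⟨y, hy, hyS⟩
        exact Set.disjoint_left.1 w.dqn hyS ((hmm y).1 hy).2.1
      rw [cr_neg hnS]
      refine Pa.mx_eq hρ ?_ ?_
      · obtain ⟨y, hy, e⟩ := ha
        refine ⟨y, (hmm y).2 ⟨hy, ?_, by rw [e]⟩, e⟩
        rcases pl_sub w ⟨n, hn, hnN⟩ y hy with h | h
        · exact absurd ⟨y, hy, h, e⟩ hS
        · exact h
      · rintro d ⟨y, hy, rfl⟩
        exact ((hmm y).1 hy).2.2
    exact ⟨top_Conn hm fun r h => Cq.le_iff.2 fun x hx => (hmm x).2 ⟨h.1 hx, hall r h.1 h.2 x hx⟩,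
      top_HZ hm fun r h => Cq.le_iff.2 fun x hx => (hmm x).2 ⟨h.1 hx, hall r h.1 h.2 x hx⟩⟩

end MOT.Pt
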