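import Pool.Agent.MOT.Bas

/-!
# MOT/PtO: a cochain on a cycle with an even number of crossings is a coboundary (block P)
-/

open Classical

noncomputable section

namespace MOT.Pt

variable {W : Type} {H : SimpleGraph W} {C : Set W}

/-- indicator of the edge `xy` -/
def ed (x y : W) : W → W → ZMod 2 := fun a b => if (a = x ∧ b = y) ∨ (a = y ∧ b = x) then 1 else 0

theorem ed_symm (x y : W) : ed x y = ed y x := by
  funext a b
  unfold ed
  exact if_congr (by tauto) rfl rfl

theorem trans_ed {a b c : W → W → ZMod 2} (h1 : Triv H C (a + b)) (h2 : Triv H C (b + c)) :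
    Triv H C (a + c) := by
  refine (h1.add h2).congr fun x y _ => ?_
  simp only [Pi.add_apply]
  have := two_add (b x y)
  linear_combination this

/-- two edges at the same vertex of a cycle -/
theorem ed_two (h : IsCyc H C) {x y z : W} (hy : EIn H C x y) (hz : EIn H C x z) :
    Triv H C (ed x y + ed x z) := by
  by_cases e : y = z
  · refine ⟨0, fun a b _ => ?_⟩
    rw [e]
    simp only [Pi.add_apply, Pi.zero_apply, two_add]
  have h1 : {u | EIn H C x u} = {y, z} := by
    have hx : x ∈ C := hy.2.1
    have h2 := h.2 x hx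
    have h3 : ({y, z} : Set W) ⊆ {u | EIn H C x u} := by
      intro u hu
      rcases hu with rfl | hu
      · exact hy
      · rw [Set.mem_singleton_iff.1 hu]; exact hz
    have hf : {u | EIn H C x u}.Finite := Set.finite_of_ncard_ne_zero (by rw [h2]; decide)
    exact (Set.eq_of_subset_of_ncard_le h3 (by rw [h2, Set.ncard_pair e]) hf).symm
  refine ⟨fun a => if a = x then 1 else 0, fun a b hab => ?_⟩
  have hne : a ≠ b := hab.1.ne
  have k1 : ∀ u, EIn H C x u → u = y ∨ u = z := by
    intro u hu
    have : u ∈ ({y, z} : Set W) := by rw [← h1]; exact hu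
    simpa using this
  have hyx : y ≠ x := fun e => hy.1.ne e.symm
  have hzx : z ≠ x := fun e => hz.1.ne e.symm
  simp only [Pi.add_apply]
  unfold ed
  by_cases ha : a = x
  · subst ha
    have hb : b ≠ a := fun e => hne e.symm
    rcases k1 b hab with rfl | rfl
    · simp [hb, e]
    · simp [hb, Ne.symm e]
  · by_cases hb : b = x
    · subst hb
      rcases k1 a (EIn.symm hab) with rfl | rfl
      · simp [ha, e]
      · simp [ha, Ne.symm e]
    · simp [ha, hb]

/-- all edges of a cycle are cohomologous -/
theorem ed_all (h : IsCyc H C) {x0 y0 x y : W} (h0 : EIn H C x0 y0) (h1 : EIn H C x y) :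
    Triv H C (ed x0 y0 + ed x y) := by
  have key : ∀ z, Relation.ReflTransGen (EIn H C) x0 z → ∀ u, EIn H C z u →
      Triv H C (ed x0 y0 + ed z u) := by
    intro z hz
    induction hz with
    | refl => intro u hu; exact ed_two h h0 hu
    | tail h2 h3 ih =>
      rename_i b c
      intro u hu
      have h4 := ih c h3
      rw [ed_symm b c] at h4
      exact trans_ed h4 (ed_two h (EIn.symm h3) hu)
  exact key x (h.1.2 x0 h0.2.1 x h1.2.1) y h1

/-- a sum of an even number of edges of a cycle is a coboundary -/
theorem ed_sum (h : IsCyc H C) {x0 y0 : W} (h0 : EIn H C x0 y0) (f : W → W) (T : Finset W)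
    (hf : ∀ p ∈ T, EIn H C p (f p)) :
    Triv H C ((∑ p ∈ T, ed p (f p)) + fun a b => (T.card : ZMod 2) * ed x0 y0 a b) := by
  induction T using Finset.induction_on with
  | empty =>
    refine ⟨0, fun a b _ => ?_⟩
    simp
  | insert p T hp ih =>
    have h1 := ih (fun q hq => hf q (Finset.mem_insert_of_mem hq))
    have h2 := ed_all h h0 (hf p (Finset.mem_insert_self p T))
    refine (h1.add h2).congr fun a b _ => ?_
    rw [Finset.sum_insert hp, Finset.card_insert_of_notMem hp]
    simp only [Pi.add_apply]
    push_cast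
    ring

/-- PARITY.  `w` is a symmetric cochain on the cycle `C`; at every point `p ∈ Z` exactly one of the two
edges has `w = 1`, all other edges have `w = 0`.  If the number of points is even, `w` is trivial. -/
theorem cyc_triv (h : IsCyc H C) {w : W → W → ZMod 2} (hw : ∀ x y, w x y = w y x) {Z : Set W}
    (hZf : Z.Finite)
    (h1 : ∀ p ∈ Z, ∃ y, EIn H C p y ∧ ∀ z, EIn H C p z → w p z = if z = y then 1 else 0)
    (h2 : ∀ x y, EIn H C x y → x ∉ Z → y ∉ Z → w x y = 0)
    (h3 : ∀ x ∈ Z, ∀ y ∈ Z, ¬ H.Adj x y) (he : Even Z.ncard) : Triv H C w := by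
  rcases Set.eq_empty_or_nonempty Z with rfl | ⟨p0, hp0⟩
  · exact ⟨0, fun x y hxy => by rw [h2 x y hxy (by simp) (by simp)]; simp⟩
  choose! f hf using h1
  have h0 := (hf p0 hp0).1
  set T := hZf.toFinset with hT
  have hm : ∀ p, p ∈ T ↔ p ∈ Z := fun p => hZf.mem_toFinset
  have h4 := ed_sum h h0 f T (fun p hp => (hf p ((hm p).1 hp)).1)
  have h5 : (T.card : ZMod 2) = 0 := by
    rw [← Set.ncard_eq_toFinset_card Z hZf]
    exact (ZMod.natCast_eq_zero_iff_even).2 he
  refine h4.congr fun a b hab => ?_
  simp only [Pi.add_apply, h5, zero_mul, add_zero]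
  rw [Finset.sum_apply, Finset.sum_apply]
  by_cases ha : a ∈ Z
  · have hb : b ∉ Z := fun hb => h3 a ha b hb hab.1
    rw [Finset.sum_eq_single a]
    · rw [(hf a ha).2 b hab]
      unfold ed
      have hne : a ≠ b := hab.1.ne
      by_cases e : b = f a
      · simp [e]
      · rw [if_neg, if_neg e]
        rintro (⟨_, h⟩ | ⟨h, h'⟩)
        · exact e h
        · exact hne h'.symm
    · intro p hp hpa
      unfold ed
      rw [if_neg]
      rintro (⟨h, _⟩ | ⟨_, h⟩)
      · exact hpa h.symm
      · exact hb (by rw [h]; exact (hm p).1 hp)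
    · intro h; exact absurd ((hm a).2 ha) h
  · by_cases hb : b ∈ Z
    · rw [Finset.sum_eq_single b]
      · rw [hw a b, (hf b hb).2 a (EIn.symm hab)]
        unfold ed
        have hne : a ≠ b := hab.1.ne
        by_cases e : a = f b
        · simp [e]
        · rw [if_neg, if_neg e]
          rintro (⟨h, _⟩ | ⟨h, h'⟩)
          · exact hne h
          · exact e h
      · intro p hp hpb
        unfold ed
        rw [if_neg]
        rintro (⟨h, _⟩ | ⟨_, h⟩)
        · exact ha (by rw [h]; exact (hm p).1 hp)
        · exact hpb h.symm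
      · intro h; exact absurd ((hm b).2 hb) h
    · rw [h2 a b hab ha hb]
      refine Finset.sum_eq_zero fun p hp => ?_
      unfold ed
      rw [if_neg]
      rintro (⟨h, _⟩ | ⟨_, h⟩)
      · exact ha (by rw [h]; exact (hm p).1 hp)
      · exact hb (by rw [h]; exact (hm p).1 hp)

end MOT.Pt
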