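import Pool.Agent.MOT.PaDef

/-!
# MOT/Ptd: the pre-pattern conditions without the two about points (block P)
-/

open Classical

noncomputable section

namespace MOT

variable {V : Type} {G : SimpleGraph V}

/-- all fields of `Pa.Pre` except the two about points -/
structure Pre0 {C : Type} (G : SimpleGraph V) (κ : V → C) (S : Pa.Sys C) : Prop where
  two : ∀ q : Cq G, ∀ a ∈ Pa.cols κ q, ∀ b ∈ Pa.cols κ q, ∀ c ∈ Pa.cols κ q,
    S.side a = S.side b → S.side b = S.side c → a = b ∨ b = c ∨ a = c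
  adj : ∀ q : Cq G, ∀ a ∈ Pa.cols κ q, ∀ b ∈ Pa.cols κ q, S.side a = S.side b → a ≠ b → S.E a b
  conn : ∀ c, Conn G (Pa.cs κ c)
  hz : ∀ c, HZ G (Pa.cs κ c)
  cconn : ∀ c, Conn G (Pa.cs κ c)ᶜ
  chz : ∀ c, HZ G (Pa.cs κ c)ᶜ
  dconn : ∀ a b, S.E a b → Conn (sd G) (XX G κ {a, b})
  dhz : ∀ a b, S.E a b → HZ (sd G) (XX G κ {a, b})

theorem _root_.MOT.Pa.Pre.pre0 {C : Type} {κ : V → C} {S : Pa.Sys C} (h : Pa.Pre G κ S) :
    Pre0 G κ S where
  two := h.two
  adj := h.adj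
  conn := h.conn
  hz := h.hz
  cconn := h.cconn
  chz := h.chz
  dconn := h.dconn
  dhz := h.dhz

theorem Pre0.pre {C : Type} {κ : V → C} {S : Pa.Sys C} (h : Pre0 G κ S)
    (odd : ∀ a b c d, S.Inc4 a b c d → Odd (Pa.Ex G κ {a, b, c, d}).ncard)
    (none : ∀ a b c d, S.E a b → S.E c d → S.side a ≠ S.side c → ¬ S.Inc4 a b c d →
      Pa.Ex G κ {a, b, c, d} = ∅) : Pa.Pre G κ S where
  two := h.two
  adj := h.adj
  conn := h.conn
  hz := h.hz
  cconn := h.cconn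
  chz := h.chz
  dconn := h.dconn
  dhz := h.dhz
  odd := odd
  none := none

end MOT
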