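import Pool.Agent.MOT.SbDef
import Pool.Agent.MOT.PaCol
import Pool.Agent.MOT.Ptd
import Pool.Agent.MOT.Ret
import Pool.Agent.MOT.Cpt
import Pool.Agent.MOT.Start

/-!
# MOT/PtP: block P, the colouring before minimal position

`X` = the closed `M`-side of the wall, coloured by vertices (`vc`), its complement is coloured by
tetrahedra (`tt`); both colourings come from the structure theorem (`StrOut`).
-/

open Classical

noncomputable section

namespace MOT.Pt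

variable {Vc V A B A' B' : Type} {G : SimpleGraph V}

/-- the edges `b` with ends `e1 b`, `e2 b` are exactly the pairs related by `E` -/
structure EndOf (E : A → A → Prop) (e1 e2 : B → A) : Prop where
  e : ∀ b, E (e1 b) (e2 b)
  ex : ∀ a a', E a a' → ∃ b, ({a, a'} : Set A) = {e1 b, e2 b}

/-- what is used of one side: `D b` are the discs -/
structure SCol (G : SimpleGraph V) (E : A → A → Prop) (e1 e2 : B → A) (X : Set V)
    (D : B → Set (Cq G)) (vc : V → A) : Prop where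
  ends : EndOf E e1 e2
  adj : ∀ x y, EIn G X x y → vc x = vc y ∨ ∃ b, ({vc x, vc y} : Set A) = {e1 b, e2 b}
  two : ∀ x y z, EIn G X x y → EIn G X y z → EIn G X x z →
    vc x = vc y ∨ vc y = vc z ∨ vc x = vc z
  disc : ∀ b, {s : Cq G | s ∈ mi G X ∧ (∃ x ∈ s.1, vc x = e1 b) ∧ ∃ x ∈ s.1, vc x = e2 b} = D b
  conn : ∀ a, Conn G {x | x ∈ X ∧ vc x = a}
  hz : ∀ a, HZ G {x | x ∈ X ∧ vc x = a}
  cconn : ∀ a, Conn G {x | x ∈ X ∧ vc x = a}ᶜ
  chz : ∀ a, HZ G {x | x ∈ X ∧ vc x = a}ᶜ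
  dc : ∀ b, Conn (sd G) (D b)
  dz : ∀ b, HZ (sd G) (D b)

/-- output of the structure theorem -/
theorem scol_of [Fintype B] {e1 e2 : B → A} {X : Set V} {U : B → Set V}
    {D : B → Set (Cq G)} {Lv : A → Set V} {Le : B → Set V} {top vc : V → A} {E : A → A → Prop}
    (h : StrIn G e1 e2 X U D Lv Le top) (o : StrOut G e1 e2 X D Lv vc) (he : EndOf E e1 e2) :
    SCol G E e1 e2 X D vc where
  ends := he
  adj := o.adj
  two := o.two
  disc := o.disc
  conn := o.conn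
  hz := o.hz
  cconn := o.cconn
  chz := o.chz
  dc b := (h.Dc b).conn
  dz := h.Dz

/-- the tetrahedra of `Gc` as colours -/
abbrev Tt (Gc : SimpleGraph Vc) : Type := {s : Finset Vc // s.card = 4 ∧ Gc.IsClique (s : Set Vc)}

/-- the colouring: vertices on `X`, tetrahedra on the complement -/
def kp (Gc : SimpleGraph Vc) (X : Set V) (vc : V → Vc) (tt : V → Tt Gc) : V → Pa.Col Gc :=
  fun x => if x ∈ X then Sum.inl (vc x) else Sum.inr (tt x)

theorem kp_pos {Gc : SimpleGraph Vc} {X : Set V} {vc : V → Vc} {tt : V → Tt Gc} {x : V}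
    (h : x ∈ X) : kp Gc X vc tt x = Sum.inl (vc x) := if_pos h

theorem kp_neg {Gc : SimpleGraph Vc} {X : Set V} {vc : V → Vc} {tt : V → Tt Gc} {x : V}
    (h : x ∉ X) : kp Gc X vc tt x = Sum.inr (tt x) := if_neg h

theorem kp_inl {Gc : SimpleGraph Vc} {X : Set V} {vc : V → Vc} {tt : V → Tt Gc} {x : V} {v : Vc} :
    kp Gc X vc tt x = Sum.inl v ↔ x ∈ X ∧ vc x = v := by
  by_cases h : x ∈ X
  · rw [kp_pos h]
    exact ⟨fun e => ⟨h, Sum.inl.inj e⟩, fun e => by rw [e.2]⟩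
  · rw [kp_neg h]
    exact ⟨fun e => absurd e (by simp), fun e => absurd e.1 h⟩

theorem kp_inr {Gc : SimpleGraph Vc} {X : Set V} {vc : V → Vc} {tt : V → Tt Gc} {x : V}
    {t : Tt Gc} : kp Gc X vc tt x = Sum.inr t ↔ x ∈ Xᶜ ∧ tt x = t := by
  by_cases h : x ∈ X
  · rw [kp_pos h]
    exact ⟨fun e => absurd e (by simp), fun e => absurd h e.1⟩
  · rw [kp_neg h]
    exact ⟨fun e => ⟨h, Sum.inr.inj e⟩, fun e => by rw [e.2]⟩

/-- a disc and its thick version: `q ↦ q ∩ X` -/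
theorem SCol.thick {E : A → A → Prop} {e1 e2 : B → A} {X : Set V} {D : B → Set (Cq G)}
    {vc : V → A} (h : SCol G E e1 e2 X D vc) {a a' : A} (hE : E a a') {S : Set (Cq G)}
    (hS : ∀ q : Cq G, q ∈ S ↔ (∃ x ∈ q.1, x ∈ X ∧ vc x = a) ∧ ∃ x ∈ q.1, x ∈ X ∧ vc x = a') :
    Conn (sd G) S ∧ HZ (sd G) S := by
  obtain ⟨b, hb⟩ := h.ends.ex a a' hE
  have key : ∀ q : Cq G, q ∈ D b ↔ q ∈ mi G X ∧ (∃ x ∈ q.1, vc x = a) ∧ ∃ x ∈ q.1, vc x = a' := by
    intro q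
    rw [← h.disc b]
    have h1 : e1 b = a ∧ e2 b = a' ∨ e1 b = a' ∧ e2 b = a := by
      have := Set.pair_eq_pair_iff.1 hb.symm
      exact this
    rcases h1 with ⟨e1, e2⟩ | ⟨e1, e2⟩
    · rw [← e1, ← e2]; exact Iff.rfl
    · rw [← e1, ← e2]
      exact ⟨fun h => ⟨h.1, h.2.2, h.2.1⟩, fun h => ⟨h.1, h.2.2, h.2.1⟩⟩
  have h1 : D b ⊆ S := by
    intro q hq
    obtain ⟨h1, ⟨x, hx, hxa⟩, y, hy, hya⟩ := (key q).1 hq
    exact (hS q).2 ⟨⟨x, hx, h1 x hx, hxa⟩, y, hy, h1 y hy, hya⟩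
  have hp : ∀ q ∈ S, q ∈ pl G X := by
    intro q hq
    obtain ⟨⟨x, hx, hxX, _⟩, _⟩ := (hS q).1 hq
    exact ⟨x, hx, hxX⟩
  have h2 : ∀ q ∈ S, tr X q ∈ D b := by
    intro q hq
    obtain ⟨⟨x, hx, hxX, hxa⟩, y, hy, hyX, hya⟩ := (hS q).1 hq
    refine (key _).2 ⟨tr_mem (hp q hq), ⟨x, ?_, hxa⟩, y, ?_, hya⟩
    · rw [tr_val (hp q hq)]; exact Finset.mem_filter.2 ⟨hx, hxX⟩
    · rw [tr_val (hp q hq)]; exact Finset.mem_filter.2 ⟨hy, hyX⟩
  exact ⟨(ret_Conn (tr X) h1 h2 (fun q _ => tr_le q)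
      (fun q hq r _ hqr => tr_mono (hp q hq) hqr)).2 (h.dc b),
    (ret_HZ (tr X) h1 h2 (fun q _ => tr_le q)
      (fun q hq r _ hqr => tr_mono (hp q hq) hqr)
      (fun q hq => tr_id ((key q).1 hq).1)).2 (h.dz b)⟩

/-- two tetrahedra with a common triangle -/
def TE (Gc : SimpleGraph Vc) (s t : Tt Gc) : Prop := (s.1 ∩ t.1).card = 3

variable {Gc : SimpleGraph Vc} {X : Set V} {vc : V → Vc} {tt : V → Tt Gc}
  {e1 e2 : B → Vc} {f1 f2 : B' → Tt Gc} {D : B → Set (Cq G)} {F : B' → Set (Cq G)}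

theorem side_inl (v : Vc) : (Pa.colH Gc).side (Sum.inl v) = true := rfl

theorem side_inr (t : Tt Gc) : (Pa.colH Gc).side (Sum.inr t) = false := rfl

theorem cs_inl (v : Vc) : Pa.cs (kp Gc X vc tt) (Sum.inl v) = {x | x ∈ X ∧ vc x = v} := by
  ext x
  exact kp_inl

theorem cs_inr (t : Tt Gc) : Pa.cs (kp Gc X vc tt) (Sum.inr t) = {x | x ∈ Xᶜ ∧ tt x = t} := by
  ext x
  exact kp_inr

theorem mem_inl {q : Cq G} {v : Vc} : (Sum.inl v : Pa.Col Gc) ∈ Pa.cols (kp Gc X vc tt) q ↔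
    ∃ x ∈ q.1, x ∈ X ∧ vc x = v := by
  constructor
  · rintro ⟨x, hx, e⟩
    exact ⟨x, hx, kp_inl.1 e⟩
  · rintro ⟨x, hx, e⟩
    exact ⟨x, hx, kp_inl.2 e⟩

theorem mem_inr {q : Cq G} {t : Tt Gc} : (Sum.inr t : Pa.Col Gc) ∈ Pa.cols (kp Gc X vc tt) q ↔
    ∃ x ∈ q.1, x ∈ Xᶜ ∧ tt x = t := by
  constructor
  · rintro ⟨x, hx, e⟩
    exact ⟨x, hx, kp_inr.1 e⟩
  · rintro ⟨x, hx, e⟩
    exact ⟨x, hx, kp_inr.2 e⟩

theorem SCol.two_cl {E : A → A → Prop} {e1 e2 : B → A} {X : Set V} {D : B → Set (Cq G)}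
    {vc : V → A} (h : SCol G E e1 e2 X D vc) (q : Cq G) {x y z : V} (hx : x ∈ q.1)
    (hy : y ∈ q.1) (hz : z ∈ q.1) (hxX : x ∈ X) (hyX : y ∈ X) (hzX : z ∈ X) :
    vc x = vc y ∨ vc y = vc z ∨ vc x = vc z := by
  by_cases e1 : x = y
  · exact Or.inl (by rw [e1])
  by_cases e2 : y = z
  · exact Or.inr (Or.inl (by rw [e2]))
  by_cases e3 : x = z
  · exact Or.inr (Or.inr (by rw [e3]))
  exact h.two x y z ⟨q.2.2 (Finset.mem_coe.2 hx) (Finset.mem_coe.2 hy) e1, hxX, hyX⟩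
    ⟨q.2.2 (Finset.mem_coe.2 hy) (Finset.mem_coe.2 hz) e2, hyX, hzX⟩
    ⟨q.2.2 (Finset.mem_coe.2 hx) (Finset.mem_coe.2 hz) e3, hxX, hzX⟩

theorem SCol.adj_cl {E : A → A → Prop} {e1 e2 : B → A} {X : Set V} {D : B → Set (Cq G)}
    {vc : V → A} (hE : ∀ a b, E a b → E b a) (h : SCol G E e1 e2 X D vc) (q : Cq G) {x y : V}
    (hx : x ∈ q.1) (hy : y ∈ q.1) (hxX : x ∈ X) (hyX : y ∈ X) (hne : vc x ≠ vc y) :
    E (vc x) (vc y) := by
  have e1 : x ≠ y := fun e => hne (by rw [e])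
  rcases h.adj x y ⟨q.2.2 (Finset.mem_coe.2 hx) (Finset.mem_coe.2 hy) e1, hxX, hyX⟩ with e | ⟨b, hb⟩
  · exact absurd e hne
  · rcases Set.pair_eq_pair_iff.1 hb with ⟨e1, e2⟩ | ⟨e1, e2⟩
    · rw [e1, e2]; exact h.ends.e b
    · rw [e1, e2]; exact hE _ _ (h.ends.e b)

theorem XX_pair' {C : Type} {κ : V → C} {a b : C} {q : Cq G} :
    q ∈ XX G κ {a, b} ↔ a ∈ Pa.cols κ q ∧ b ∈ Pa.cols κ q := by
  constructor
  · intro h
    exact ⟨h a (by simp), h b (by simp)⟩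
  · rintro ⟨h1, h2⟩ c hc
    rcases hc with rfl | hc
    · exact h1
    · rw [Set.mem_singleton_iff.1 hc]; exact h2

/-- BLOCK P, all conditions except those about points -/
theorem pre0 (hv : SCol G Gc.Adj e1 e2 X D vc) (ht : SCol G (TE Gc) f1 f2 Xᶜ F tt) :
    Pre0 G (kp Gc X vc tt) (Pa.colH Gc) where
  two := by
    rintro q (a | a) ha (b | b) hb (c | c) hc h1 h2
    · obtain ⟨x, hx, hxX, rfl⟩ := mem_inl.1 ha
      obtain ⟨y, hy, hyX, rfl⟩ := mem_inl.1 hb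
      obtain ⟨z, hz, hzX, rfl⟩ := mem_inl.1 hc
      rcases hv.two_cl q hx hy hz hxX hyX hzX with e | e | e
      · exact Or.inl (by rw [e])
      · exact Or.inr (Or.inl (by rw [e]))
      · exact Or.inr (Or.inr (by rw [e]))
    · exact absurd h2 (by simp [Pa.colH])
    · exact absurd h1 (by simp [Pa.colH])
    · exact absurd h1 (by simp [Pa.colH])
    · exact absurd h1 (by simp [Pa.colH])
    · exact absurd h1 (by simp [Pa.colH])
    · exact absurd h2 (by simp [Pa.colH])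
    · obtain ⟨x, hx, hxX, rfl⟩ := mem_inr.1 ha
      obtain ⟨y, hy, hyX, rfl⟩ := mem_inr.1 hb
      obtain ⟨z, hz, hzX, rfl⟩ := mem_inr.1 hc
      rcases ht.two_cl q hx hy hz hxX hyX hzX with e | e | e
      · exact Or.inl (by rw [e])
      · exact Or.inr (Or.inl (by rw [e]))
      · exact Or.inr (Or.inr (by rw [e]))
  adj := by
    rintro q (a | a) ha (b | b) hb h1 hne
    · obtain ⟨x, hx, hxX, rfl⟩ := mem_inl.1 ha
      obtain ⟨y, hy, hyX, rfl⟩ := mem_inl.1 hb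
      exact hv.adj_cl (fun _ _ h => h.symm) q hx hy hxX hyX (fun e => hne (by rw [e]))
    · exact absurd h1 (by simp [Pa.colH])
    · exact absurd h1 (by simp [Pa.colH])
    · obtain ⟨x, hx, hxX, rfl⟩ := mem_inr.1 ha
      obtain ⟨y, hy, hyX, rfl⟩ := mem_inr.1 hb
      exact ht.adj_cl (fun s t h => by show (t.1 ∩ s.1).card = 3; rw [Finset.inter_comm]; exact h)
        q hx hy hxX hyX (fun e => hne (by rw [e]))
  conn := by
    rintro (c | c)
    · rw [cs_inl]; exact hv.conn c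
    · rw [cs_inr]; exact ht.conn c
  hz := by
    rintro (c | c)
    · rw [cs_inl]; exact hv.hz c
    · rw [cs_inr]; exact ht.hz c
  cconn := by
    rintro (c | c)
    · rw [cs_inl]; exact hv.cconn c
    · rw [cs_inr]; exact ht.cconn c
  chz := by
    rintro (c | c)
    · rw [cs_inl]; exact hv.chz c
    · rw [cs_inr]; exact ht.chz c
  dconn := by
    rintro (a | a) (b | b) hE
    · exact (hv.thick hE (fun q => by
        rw [← mem_inl (tt := tt), ← mem_inl (tt := tt)]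
        exact XX_pair')).1
    · exact absurd hE id
    · exact absurd hE id
    · exact (ht.thick hE (fun q => by
        rw [← mem_inr (vc := vc), ← mem_inr (vc := vc)]
        exact XX_pair')).1
  dhz := by
    rintro (a | a) (b | b) hE
    · exact (hv.thick hE (fun q => by
        rw [← mem_inl (tt := tt), ← mem_inl (tt := tt)]
        exact XX_pair')).2
    · exact absurd hE id
    · exact absurd hE id
    · exact (ht.thick hE (fun q => by
        rw [← mem_inr (vc := vc), ← mem_inr (vc := vc)]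
        exact XX_pair')).2

end MOT.Pt
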