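import Pool.Agent.MOT.PtC
import Pool.Agent.MOT.PtO
import Pool.Agent.MOT.SbDef
import Pool.Agent.MOT.Pr

/-!
# MOT/PtQ: a nontrivial class on a curve gives an odd number of points (block P)
-/

open Classical

noncomputable section

namespace MOT.Pt

open MOT.Pa

variable {V C : Type} {G : SimpleGraph V} {κ : V → C} {S : Sys C} {a b c d : C}

/-- vertices with a colour of the same side as `c` -/
def Sd (κ : V → C) (S : Sys C) (c : C) : Set V := {x | S.side (κ x) = S.side c}

/-- the chosen vertex of a simplex on the side of `c` -/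
def ph (κ : V → C) (S : Sys C) (c : C) (q : Cq G) : V := pk (tr (Sd κ S c) q)

theorem ph_mem {q : Cq G} (h : ∃ x ∈ q.1, S.side (κ x) = S.side c) :
    ph κ S c q ∈ q.1 ∧ S.side (κ (ph κ S c q)) = S.side c := by
  have hq : q ∈ pl G (Sd κ S c) := h
  have h1 := pk_mem (tr (Sd κ S c) q)
  rw [tr_val hq, Finset.mem_filter] at h1
  exact h1

theorem cu_pl (h2 : S.side a ≠ S.side c) {q : Cq G} (hq : q ∈ Cu G κ S a b) :
    ∃ x ∈ q.1, S.side (κ x) = S.side c := by
  obtain ⟨_, _, e, ⟨x, hx, rfl⟩, h⟩ := hq
  refine ⟨x, hx, ?_⟩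
  cases h3 : S.side (κ x) <;> cases h4 : S.side c <;> cases h5 : S.side a <;>
    simp_all

theorem wtt_symm (f : V → C) (p q : C) (x y : V) : wtt f p q x y = wtt f p q y x := by
  unfold wtt
  exact if_congr (by tauto) rfl rfl

theorem wtt_self (f : V → C) {p q : C} (h : p ≠ q) (x : V) : wtt f p q x x = 0 := by
  unfold wtt
  rw [if_neg]
  rintro (⟨h1, h2⟩ | ⟨h1, h2⟩)
  · exact h (h1.symm.trans h2)
  · exact h (h2.symm.trans h1)

/-- a point has exactly four vertices -/
theorem ex_four (hG : IsSph3 G) (h1 : S.E a b) (h2 : S.E c d) (h3 : S.side a ≠ S.side c)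
    {q : Cq G} (hq : {a, b, c, d} ⊆ cols κ q) : ∃ x y z u, q.1 = {x, y, z, u} ∧ κ x = a ∧ κ y = b ∧
      κ z = c ∧ κ u = d := by
  obtain ⟨x, hx, ex⟩ := hq (show a ∈ ({a, b, c, d} : Set C) by simp)
  obtain ⟨y, hy, ey⟩ := hq (show b ∈ ({a, b, c, d} : Set C) by simp)
  obtain ⟨z, hz, ez⟩ := hq (show c ∈ ({a, b, c, d} : Set C) by simp)
  obtain ⟨u, hu, eu⟩ := hq (show d ∈ ({a, b, c, d} : Set C) by simp)
  have nab := S.E_ne h1
  have ncd := S.E_ne h2
  have sab := S.E_side h1
  have scd := S.E_side h2
  have nac : a ≠ c := fun e => h3 (by rw [e])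
  have nad : a ≠ d := fun e => h3 (by rw [e, scd])
  have nbc : b ≠ c := fun e => h3 (by rw [sab, e])
  have nbd : b ≠ d := fun e => h3 (by rw [sab, e, scd])
  have n1 : x ≠ y := by rintro rfl; exact nab (ex.symm.trans ey)
  have n2 : x ≠ z := by rintro rfl; exact nac (ex.symm.trans ez)
  have n3 : x ≠ u := by rintro rfl; exact nad (ex.symm.trans eu)
  have n4 : y ≠ z := by rintro rfl; exact nbc (ey.symm.trans ez)
  have n5 : y ≠ u := by rintro rfl; exact nbd (ey.symm.trans eu)
  have n6 : z ≠ u := by rintro rfl; exact ncd (ez.symm.trans eu)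
  refine ⟨x, y, z, u, ?_, ex, ey, ez, eu⟩
  symm
  apply Finset.eq_of_subset_of_card_le
  · intro r hr
    simp only [Finset.mem_insert, Finset.mem_singleton] at hr
    rcases hr with rfl | rfl | rfl | rfl <;> assumption
  · have h4 := hG.k5 q.1 q.2.2
    have h5 : ({x, y, z, u} : Finset V).card = 4 := by
      rw [Finset.card_insert_of_notMem, Finset.card_insert_of_notMem, Finset.card_pair n6]
      · simp only [Finset.mem_insert, Finset.mem_singleton, not_or]
        exact ⟨n4, n5⟩
      · simp only [Finset.mem_insert, Finset.mem_singleton, not_or]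
        exact ⟨n1, n2, n3⟩
    omega

theorem ex_of_sub (hG : IsSph3 G) (h1 : S.E a b) (h2 : S.E c d) (h3 : S.side a ≠ S.side c)
    {q : Cq G} (hq : {a, b, c, d} ⊆ cols κ q) : q ∈ Ex G κ {a, b, c, d} := by
  refine Set.Subset.antisymm ?_ hq
  obtain ⟨x, y, z, u, e, ex, ey, ez, eu⟩ := ex_four hG h1 h2 h3 hq
  rintro r ⟨w, hw, rfl⟩
  rw [e] at hw
  simp only [Finset.mem_insert, Finset.mem_singleton] at hw
  rcases hw with rfl | rfl | rfl | rfl <;> simp [*]

/-- PARITY OF THE POINTS.  The cochain `1 iff the two colours are c, d` is not trivial on the curve of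
`a, b`: then the number of points with colours `a, b, c, d` is odd. -/
theorem odd_of [Finite V] (hG : IsSph3 G) (hP : Pre0 G κ S) (h1 : S.E a b) (h2 : S.E c d)
    (h3 : S.side a ≠ S.side c)
    (hn : ¬ Triv (sd G) (Cu G κ S a b) (pbk (ph κ S c) (wtt κ c d))) :
    Odd (Ex G κ {a, b, c, d}).ncard := by
  rw [← Nat.not_even_iff_odd]
  intro he
  apply hn
  have sab := S.E_side h1
  have scd := S.E_side h2
  have ncd := S.E_ne h2
  have hXC : ∀ q ∈ Ex G κ {a, b, c, d}, q ∈ Cu G κ S a b := by
    intro q hq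
    have hq' : cols κ q = {a, b, c, d} := hq
    exact ⟨by rw [hq']; simp, by rw [hq']; simp, c, by rw [hq']; simp, Ne.symm h3⟩
  have hcard : ∀ q ∈ Ex G κ {a, b, c, d}, q.1.card = 4 := by
    intro q hq
    obtain ⟨x, y, z, u, e, ex, ey, ez, eu⟩ := ex_four hG h1 h2 h3 (show {a, b, c, d} ⊆ cols κ q from
      (show cols κ q = {a, b, c, d} from hq).ge)
    have h4 := hG.k5 q.1 q.2.2
    have h5 := cols_ncard_le (κ := κ) q
    rw [show cols κ q = {a, b, c, d} from hq] at h5
    have nab := S.E_ne h1
    have nac : a ≠ c := fun e => h3 (by rw [e])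
    have nad : a ≠ d := fun e => h3 (by rw [e, scd])
    have nbc : b ≠ c := fun e => h3 (by rw [sab, e])
    have nbd : b ≠ d := fun e => h3 (by rw [sab, e, scd])
    have h6 : ({a, b, c, d} : Set C).ncard = 4 := by
      rw [Set.ncard_insert_of_notMem, Set.ncard_insert_of_notMem, Set.ncard_pair ncd]
      · simp [nbc, nbd]
      · simp [nab, nac, nad]
    omega
  rcases Set.eq_empty_or_nonempty (Cu G κ S a b) with hem | hne
  · refine ⟨0, fun x y hxy => ?_⟩
    have := hxy.2.1
    rw [hem] at this
    exact absurd this (by simp)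
  refine cyc_triv (cu_cyc hG hP h1 hne) (fun x y => ?_) (Z := Ex G κ {a, b, c, d})
    (Set.toFinite _) ?_ ?_ ?_ he
  · unfold pbk
    exact wtt_symm κ c d _ _
  · -- at a point
    intro p hp
    obtain ⟨x, y, z, u, e, ex, ey, ez, eu⟩ := ex_four hG h1 h2 h3 (show {a, b, c, d} ⊆ cols κ p from
      (show cols κ p = {a, b, c, d} from hp).ge)
    have hpC := hXC p hp
    have hp4 := hcard p hp
    obtain ⟨m1, m2⟩ := ph_mem (κ := κ) (S := S) (c := c) (cu_pl h3 hpC)
    -- the chosen vertex is `z` or `u`
    have hzu : ph κ S c p = z ∨ ph κ S c p = u := by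
      rw [e] at m1
      simp only [Finset.mem_insert, Finset.mem_singleton] at m1
      rcases m1 with k | k | k | k
      · rw [k, ex] at m2; exact absurd m2 h3
      · rw [k, ey, ← sab] at m2; exact absurd m2 h3
      · exact Or.inl k
      · exact Or.inr k
    have hzp : z ∈ p.1 := by rw [e]; simp
    have hup : u ∈ p.1 := by rw [e]; simp
    have hxp : x ∈ p.1 := by rw [e]; simp
    have hyp : y ∈ p.1 := by rw [e]; simp
    have nxz : x ≠ z := by rintro rfl; exact h3 (by rw [← ex, ez])
    have nxu : x ≠ u := by rintro rfl; exact h3 (by rw [← ex, eu, scd])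
    have nyz : y ≠ z := by rintro rfl; exact h3 (by rw [sab, ← ey, ez])
    have nyu : y ≠ u := by rintro rfl; exact h3 (by rw [sab, ← ey, eu, scd])
    have nzu : z ≠ u := by rintro rfl; exact ncd (ez.symm.trans eu)
    have scz : S.side (κ z) = S.side c := by rw [ez]
    have scu : S.side (κ u) = S.side c := by rw [eu, scd]
    -- `g` = chosen vertex, `o` = the other one
    have main : ∀ g o : V, g ∈ p.1 → o ∈ p.1 → g ≠ o → x ≠ g → y ≠ g → x ≠ o → y ≠ o →
        S.side (κ g) = S.side c → S.side (κ o) = S.side c → ph κ S c p = g →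
        wtt κ c d g o = 1 → (∀ r ∈ p.1, r = x ∨ r = y ∨ r = g ∨ r = o) →
        ∃ y', EIn (sd G) (Cu G κ S a b) p y' ∧ ∀ z', EIn (sd G) (Cu G κ S a b) p z' →
          pbk (ph κ S c) (wtt κ c d) p z' = if z' = y' then 1 else 0 := by
      intro g o hg ho hgo hxg hyg hxo hyo sg so hph hw hall
      have hval : ∀ r, (er p r).1 = p.1.erase r := fun r => er_val (by omega)
      have hlt : ∀ r ∈ p.1, er p r < p := by
        intro r hr
        rw [Cq.lt_iff, hval r]
        exact Finset.erase_ssubset hr
      have hmem : ∀ r r', r ∈ (er p r').1 ↔ r ≠ r' ∧ r ∈ p.1 := by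
        intro r r'
        rw [hval r', Finset.mem_erase]
      have herg : er p g ∈ Cu G κ S a b :=
        ⟨⟨x, (hmem x g).2 ⟨hxg, hxp⟩, ex⟩, ⟨y, (hmem y g).2 ⟨hyg, hyp⟩, ey⟩, κ o,
          ⟨o, (hmem o g).2 ⟨hgo.symm, ho⟩, rfl⟩, fun e' => h3 (by rw [← e', so])⟩
      refine ⟨er p g, ⟨Or.inr (hlt g hg), hpC, herg⟩, fun z' hz' => ?_⟩
      have hz1 : z' < p := by
        rcases hz'.1 with h | h
        · have h5 := Finset.card_lt_card (Cq.lt_iff.1 h)
          have h6 := hG.k5 z'.1 z'.2.2
          omega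
        · exact h
      have hz2 := hz'.2.2
      have h5 := cu_three h1 hz2
      have h6 := Cq.lt_iff.1 hz1
      have h6' := Finset.card_lt_card h6
      obtain ⟨r, hr, hrz⟩ := Finset.exists_of_ssubset h6
      have hz3 : z' = er p r := by
        apply Subtype.ext
        rw [hval r]
        refine Finset.eq_of_subset_of_card_le (fun u hu => Finset.mem_erase.2
          ⟨fun e => hrz (e ▸ hu), h6.1 hu⟩) ?_
        rw [Finset.card_erase_of_mem hr]
        omega
      obtain ⟨m3, m4⟩ := ph_mem (κ := κ) (S := S) (c := c) (cu_pl h3 hz2)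
      have hphz : ph κ S c z' = g ∨ ph κ S c z' = o := by
        rcases hall _ (h6.1 m3) with k | k | k | k
        · rw [k, ex] at m4; exact absurd m4 h3
        · rw [k, ey, ← sab] at m4; exact absurd m4 h3
        · exact Or.inl k
        · exact Or.inr k
      by_cases hrg : r = g
      · subst hrg
        rw [if_pos hz3]
        rcases hphz with k | k
        · rw [k] at m3; exact absurd m3 hrz
        · show wtt κ c d (ph κ S c p) (ph κ S c z') = 1
          rw [hph, k, hw]
      · have hne : z' ≠ er p g := by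
          intro e'
          have : g ∈ z'.1 := by rw [hz3]; exact (hmem g r).2 ⟨Ne.symm hrg, hg⟩
          rw [e'] at this
          exact ((hmem g g).1 this).1 rfl
        rw [if_neg hne]
        have hro : r = o := by
          rcases hall r hr with k | k | k | k
          · exfalso
            obtain ⟨x', hx', e'⟩ := hz2.1
            have hx'' : x' ≠ r ∧ x' ∈ p.1 := (hmem x' r).1 (by rw [← hz3]; exact hx')
            rcases hall x' hx''.2 with j | j | j | j
            · exact hx''.1 (j.trans k.symm)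
            · rw [j, ey] at e'; exact S.E_ne h1 e'.symm
            · rw [j] at e'; exact h3 (by rw [← e', sg])
            · rw [j] at e'; exact h3 (by rw [← e', so])
          · exfalso
            obtain ⟨x', hx', e'⟩ := hz2.2.1
            have hx'' : x' ≠ r ∧ x' ∈ p.1 := (hmem x' r).1 (by rw [← hz3]; exact hx')
            rcases hall x' hx''.2 with j | j | j | j
            · rw [j, ex] at e'; exact S.E_ne h1 e'
            · exact hx''.1 (j.trans k.symm)
            · rw [j] at e'; exact h3 (by rw [sab, ← e', sg])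
            · rw [j] at e'; exact h3 (by rw [sab, ← e', so])
          · exact absurd k hrg
          · exact k
        rcases hphz with k | k
        · show wtt κ c d (ph κ S c p) (ph κ S c z') = 0
          rw [hph, k]
          exact wtt_self κ ncd g
        · rw [k, ← hro] at m3; exact absurd m3 hrz
    rcases hzu with k | k
    · refine main z u hzp hup nzu nxz nyz nxu nyu scz scu k ?_ ?_
      · unfold wtt; rw [if_pos (Or.inl ⟨ez, eu⟩)]
      · intro r hr; rw [e] at hr; simpa using hr
    · refine main u z hup hzp nzu.symm nxu nyu nxz nyz scu scz k ?_ ?_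
      · unfold wtt; rw [if_pos (Or.inr ⟨eu, ez⟩)]
      · intro r hr
        rw [e] at hr
        simp only [Finset.mem_insert, Finset.mem_singleton] at hr
        tauto
  · -- away from the points
    intro x y hxy hx hy
    by_contra hne'
    have hw : wtt κ c d (ph κ S c x) (ph κ S c y) ≠ 0 := hne'
    have hcd : (κ (ph κ S c x) = c ∧ κ (ph κ S c y) = d) ∨
        (κ (ph κ S c x) = d ∧ κ (ph κ S c y) = c) := by
      by_contra hc
      apply hw
      unfold wtt
      rw [if_neg hc]
    have hxm := (ph_mem (κ := κ) (S := S) (c := c) (cu_pl h3 hxy.2.1)).1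
    have hym := (ph_mem (κ := κ) (S := S) (c := c) (cu_pl h3 hxy.2.2)).1
    have key : ∀ q : Cq G, q ∈ Cu G κ S a b → ph κ S c x ∈ q.1 → ph κ S c y ∈ q.1 →
        q ∈ Ex G κ {a, b, c, d} := by
      intro q hq k1 k2
      refine ex_of_sub hG h1 h2 h3 ?_
      intro r hr
      simp only [Set.mem_insert_iff, Set.mem_singleton_iff] at hr
      rcases hr with rfl | rfl | rfl | rfl
      · exact hq.1
      · exact hq.2.1
      · rcases hcd with ⟨k, _⟩ | ⟨_, k⟩
        · exact ⟨_, k1, k⟩
        · exact ⟨_, k2, k⟩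
      · rcases hcd with ⟨_, k⟩ | ⟨k, _⟩
        · exact ⟨_, k2, k⟩
        · exact ⟨_, k1, k⟩
    rcases hxy.1 with h | h
    · exact hy (key y hxy.2.2 (h.le hxm) hym)
    · exact hx (key x hxy.2.1 hxm (h.le hym))
  · intro x hx y hy hxy
    have e1 := hcard x hx
    have e2 := hcard y hy
    rcases hxy with h | h
    · have := Finset.card_lt_card (Cq.lt_iff.1 h); omega
    · have := Finset.card_lt_card (Cq.lt_iff.1 h); omega

end MOT.Pt
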