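import Pool.Agent.MOT.PtM
import Pool.Agent.MOT.PtQ

/-!
# MOT/PtR: the class on the curve of an edge, transfer to the next level (block P)
-/

open Classical

noncomputable section

namespace MOT.Pt

open MOT.Pa

variable {V A B : Type} {G : SimpleGraph V}

/-! ## Chains with four elements -/

/-- the chain `x1 ≤ x2 ≤ x3 ≤ x4` -/
def ch4 {x1 x2 x3 x4 : Cq G} (h1 : x1 ≤ x2) (h2 : x2 ≤ x3) (h3 : x3 ≤ x4) : Cq (sd G) :=
  ⟨{x1, x2, x3, x4}, ⟨x1, by simp⟩, by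
    have h13 := h1.trans h2
    have h24 := h2.trans h3
    have h14 := h13.trans h3
    have key : ∀ u ∈ ({x1, x2, x3, x4} : Finset (Cq G)), ∀ v ∈ ({x1, x2, x3, x4} : Finset (Cq G)),
        u ≤ v ∨ v ≤ u := by
      intro u hu v hv
      simp only [Finset.mem_insert, Finset.mem_singleton] at hu hv
      rcases hu with rfl | rfl | rfl | rfl <;> rcases hv with rfl | rfl | rfl | rfl <;> simp [*]
    intro u hu v hv hne
    rcases key u (Finset.mem_coe.1 hu) v (Finset.mem_coe.1 hv) with h | h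
    · exact Or.inl (lt_of_le_of_ne h hne)
    · exact Or.inr (lt_of_le_of_ne h hne.symm)⟩

theorem mem_ch4 {x1 x2 x3 x4 : Cq G} (h1 : x1 ≤ x2) (h2 : x2 ≤ x3) (h3 : x3 ≤ x4) {y : Cq G} :
    y ∈ (ch4 h1 h2 h3).1 ↔ y = x1 ∨ y = x2 ∨ y = x3 ∨ y = x4 := by
  show y ∈ ({x1, x2, x3, x4} : Finset (Cq G)) ↔ _
  simp

theorem ch4_le {x1 x2 x3 x4 : Cq G} (h1 : x1 ≤ x2) (h2 : x2 ≤ x3) (h3 : x3 ≤ x4)
    {c : Cq (sd G)} (k1 : x1 ∈ c.1) (k2 : x2 ∈ c.1) (k3 : x3 ∈ c.1) (k4 : x4 ∈ c.1) :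
    ch4 h1 h2 h3 ≤ c := by
  refine Cq.le_iff.2 fun y hy => ?_
  rcases (mem_ch4 h1 h2 h3).1 hy with rfl | rfl | rfl | rfl <;> assumption

/-! ## The cochain of a pair of colours -/

/-- three vertices with at most two colours -/
theorem wtt_coc {f : V → A} {p q : A} (hpq : p ≠ q) {x y z : V}
    (h : f x = f y ∨ f y = f z ∨ f x = f z) :
    wtt f p q x y + wtt f p q y z = wtt f p q x z := by
  have h0 : ∀ u v, f u = f v → wtt f p q u v = 0 := by
    intro u v e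
    unfold wtt
    rw [if_neg]
    rintro (⟨h1, h2⟩ | ⟨h1, h2⟩)
    · exact hpq (h1.symm.trans (e.trans h2))
    · exact hpq (h2.symm.trans (e.symm.trans h1))
  have hc : ∀ u v u' v', f u = f u' → f v = f v' → wtt f p q u v = wtt f p q u' v' := by
    intro u v u' v' e1 e2
    unfold wtt
    rw [e1, e2]
  rcases h with e | e | e
  · rw [h0 x y e, zero_add]
    exact hc _ _ _ _ e.symm rfl
  · rw [h0 y z e, add_zero]
    exact hc _ _ _ _ rfl e
  · rw [h0 x z e, hc y z y x rfl e.symm, wtt_symm f p q y x]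
    exact two_add _

section wcoc

variable {E : A → A → Prop} {f1 f2 : B → A} {Y : Set V} {F : B → Set (Cq G)} {tt tt0 : V → A}

theorem gam_eq (h : SCol G E f1 f2 Y F tt) {s : B} (hne : f1 s ≠ f2 s) {x y : V}
    (hxy : EIn G Y x y) : gam (F s) x y = wtt tt (f1 s) (f2 s) x y := by
  unfold gam wtt
  refine if_congr ?_ rfl rfl
  constructor
  · rintro ⟨r, hr, e⟩
    obtain ⟨_, ⟨u, hu, eu⟩, v, hv, ev⟩ := (mem_disc h).1 hr
    rw [e] at hu hv
    simp only [Finset.mem_insert, Finset.mem_singleton] at hu hv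
    rcases hu with rfl | rfl <;> rcases hv with rfl | rfl
    · exact absurd (eu.symm.trans ev) hne
    · exact Or.inl ⟨eu, ev⟩
    · exact Or.inr ⟨ev, eu⟩
    · exact absurd (eu.symm.trans ev) hne
  · intro h1
    have hmem : ∀ u, u ∈ (eg G hxy.1).1 ↔ u = x ∨ u = y := by
      intro u
      show u ∈ ({x, y} : Finset V) ↔ _
      simp
    refine ⟨eg G hxy.1, (mem_disc h).2 ⟨?_, ?_⟩, rfl⟩
    · intro u hu
      rcases (hmem u).1 hu with rfl | rfl
      · exact hxy.2.1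
      · exact hxy.2.2
    · rcases h1 with ⟨e1, e2⟩ | ⟨e1, e2⟩
      · exact ⟨⟨x, (hmem x).2 (Or.inl rfl), e1⟩, y, (hmem y).2 (Or.inr rfl), e2⟩
      · exact ⟨⟨y, (hmem y).2 (Or.inr rfl), e2⟩, x, (hmem x).2 (Or.inl rfl), e1⟩

/-- the class of the disc and the class of the old cochain agree up to a potential -/
theorem w_pot (h : SCol G E f1 f2 Y F tt) {s : B} (hne : f1 s ≠ f2 s)
    (cls : Triv G Y (gam (F s) + wtt tt0 (f1 s) (f2 s))) :
    ∃ ξ : V → ZMod 2, ∀ q ∈ mi G Y, ∀ x ∈ q.1, ∀ y ∈ q.1,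
      wtt tt (f1 s) (f2 s) x y = wtt tt0 (f1 s) (f2 s) x y + ξ x + ξ y := by
  obtain ⟨ξ, hξ⟩ := cls
  refine ⟨ξ, fun q hq x hx y hy => ?_⟩
  by_cases e : x = y
  · rw [e, wtt_self tt hne, wtt_self tt0 hne, zero_add]
    exact (two_add _).symm
  · have hxy : EIn G Y x y :=
      ⟨q.2.2 (Finset.mem_coe.2 hx) (Finset.mem_coe.2 hy) e, hq x hx, hq y hy⟩
    have h1 := hξ x y hxy
    simp only [Pi.add_apply] at h1
    rw [gam_eq h hne hxy] at h1
    have h2 := two_add (wtt tt0 (f1 s) (f2 s) x y)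
    linear_combination h1 - h2

/-- the old cochain is a cocycle on the simplices of `Y` -/
theorem w_coc (h : SCol G E f1 f2 Y F tt) {s : B} (hne : f1 s ≠ f2 s)
    (cls : Triv G Y (gam (F s) + wtt tt0 (f1 s) (f2 s))) {q : Cq G} (hq : q ∈ mi G Y) {x y z : V}
    (hx : x ∈ q.1) (hy : y ∈ q.1) (hz : z ∈ q.1) :
    wtt tt0 (f1 s) (f2 s) x y + wtt tt0 (f1 s) (f2 s) y z = wtt tt0 (f1 s) (f2 s) x z := by
  obtain ⟨ξ, hξ⟩ := w_pot h hne cls
  have h0 := wtt_coc hne (h.two_cl q hx hy hz (hq x hx) (hq y hy) (hq z hz))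
  rw [hξ q hq x hx y hy, hξ q hq y hy z hz, hξ q hq x hx z hz] at h0
  have h1 := two_add (ξ y)
  linear_combination h0 - h1

end wcoc

end MOT.Pt
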