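import Pool.Agent.MOT.PtR

/-!
# MOT/PtS: the class on the curve of an edge, transfer to the next level: main part (block P)
-/

open Classical

noncomputable section

namespace MOT.Pt

open MOT.Pa

variable {Vc V B B' : Type} {G : SimpleGraph V} {Gc : SimpleGraph Vc} {S P N : Set V}
  {D : B → Set (Cq G)} {F : B' → Set (Cq G)} {vc : V → Vc} {tt tt0 : V → Tt Gc}
  {e1 e2 : B → Vc} {f1 f2 : B' → Tt Gc} {ρ : Vc → ℕ} {ρ' : Tt Gc → ℕ}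

/-- the colouring on the next level -/
def kq (G : SimpleGraph V) (Gc : SimpleGraph Vc) (S P : Set V) (vc : V → Vc) (tt : V → Tt Gc)
    (ρ : Vc → ℕ) (ρ' : Tt Gc → ℕ) : Cq G → Pa.Col Gc :=
  kp Gc (mi G (S ∪ P)) (Pa.mx vc ρ) (cr G S tt ρ')

/-- greatest element of a chain in `mi (S ∪ P)` -/
def pi (G : SimpleGraph V) (S P : Set V) (c : Cq (sd G)) : Cq G := tp (tr (mi G (S ∪ P)) c)

theorem mem_cuk {v v' : Vc} {c : Cq (sd G)} :
    c ∈ Cu (sd G) (kq G Gc S P vc tt ρ ρ') (colH Gc) (Sum.inl v) (Sum.inl v') ↔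
      (∃ r ∈ c.1, r ∈ mi G (S ∪ P) ∧ Pa.mx vc ρ r = v) ∧
      (∃ r ∈ c.1, r ∈ mi G (S ∪ P) ∧ Pa.mx vc ρ r = v') ∧ ∃ r ∈ c.1, r ∉ mi G (S ∪ P) := by
  unfold Cu kq
  constructor
  · rintro ⟨h1, h2, d, hd, hs⟩
    refine ⟨mem_inl.1 h1, mem_inl.1 h2, ?_⟩
    rcases d with d | d
    · exact absurd rfl hs
    · obtain ⟨r, hr, hrX, _⟩ := mem_inr.1 hd
      exact ⟨r, hr, hrX⟩
  · rintro ⟨h1, h2, r, hr, hrX⟩
    refine ⟨mem_inl.2 h1, mem_inl.2 h2, Sum.inr (cr G S tt ρ' r), mem_inr.2 ⟨r, hr, hrX, rfl⟩, ?_⟩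
    exact fun e => Bool.false_ne_true e

theorem pi_eq {c : Cq (sd G)} {q : Cq G} (hq : q ∈ c.1) (hX : q ∈ mi G (S ∪ P))
    (h : ∀ r ∈ c.1, r ∈ mi G (S ∪ P) → r ≤ q) : pi G S P c = q := by
  have hex : ∃ r ∈ c.1, r ∈ mi G (S ∪ P) := ⟨q, hq, hX⟩
  have h1 := tp_mem (tr (mi G (S ∪ P)) c)
  rw [tr_iff hex] at h1
  refine le_antisymm (h _ h1.1 h1.2) (le_tp ?_)
  exact (tr_iff hex).2 ⟨hq, hX⟩

theorem pi_spec {c : Cq (sd G)} (hex : ∃ r ∈ c.1, r ∈ mi G (S ∪ P)) :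
    pi G S P c ∈ c.1 ∧ pi G S P c ∈ mi G (S ∪ P) ∧ ∀ r ∈ c.1, r ∈ mi G (S ∪ P) → r ≤ pi G S P c := by
  have h1 := tp_mem (tr (mi G (S ∪ P)) c)
  rw [tr_iff hex] at h1
  exact ⟨h1.1, h1.2, fun r hr hrX => le_tp ((tr_iff hex).2 ⟨hr, hrX⟩)⟩

theorem mi_dn {X : Set V} {r s : Cq G} (h : r ≤ s) (hs : s ∈ mi G X) : r ∈ mi G X :=
  fun x hx => hs x (h hx)

/-- facts about the elements of the new curve -/
theorem cuk_spec (w : Wall G S P N) (hv : SCol G Gc.Adj e1 e2 (S ∪ P) D vc) {b : B}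
    {c : Cq (sd G)}
    (hc : c ∈ Cu (sd G) (kq G Gc S P vc tt ρ ρ') (colH Gc) (Sum.inl (e1 b)) (Sum.inl (e2 b))) :
    pi G S P c ∈ c.1 ∧ pi G S P c ∈ D b ∩ mi G S ∧
      (∀ r ∈ c.1, r ∈ mi G (S ∪ P) → r ≤ pi G S P c) ∧
      ∀ r ∈ c.1, r ∉ mi G (S ∪ P) → pi G S P c ≤ r ∧ r ∈ pl G N := by
  obtain ⟨⟨r1, h1, h1X, h1e⟩, ⟨r2, h2, h2X, h2e⟩, r3, h3, h3X⟩ := mem_cuk.1 hc
  obtain ⟨p1, p2, p3⟩ := pi_spec (S := S) (P := P) ⟨r1, h1, h1X⟩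
  have p4 : ∀ r ∈ c.1, r ∉ mi G (S ∪ P) → pi G S P c ≤ r ∧ r ∈ pl G N := by
    intro r hr hrX
    constructor
    · rcases ch_cmp p1 hr with h | h
      · exact h
      · exact absurd (mi_dn h p2) hrX
    · rw [← mi_compl w]
      exact hrX
  refine ⟨p1, ⟨(mem_disc hv).2 ⟨p2, ?_, ?_⟩, ?_⟩, p3, p4⟩
  · rw [← h1e]; exact cols_mono (p3 r1 h1 h1X) (Pa.mx_mem r1)
  · rw [← h2e]; exact cols_mono (p3 r2 h2 h2X) (Pa.mx_mem r2)
  · intro x hx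
    obtain ⟨h4, h5⟩ := p4 r3 h3 h3X
    rcases p2 x hx with h | h
    · exact h
    · rcases pl_sub w h5 x (h4 hx) with h' | h'
      · exact h'
      · exact absurd h' (Set.disjoint_left.1 w.dpn h)

/-- a vertex with the core colour -/
def pr (G : SimpleGraph V) (S : Set V) (tt : V → Tt Gc) (ρ' : Tt Gc → ℕ) (r : Cq G) : V :=
  (cr_mem (S := S) (tt := tt) (ρ := ρ') r).choose

theorem pr_spec (r : Cq G) : pr G S tt ρ' r ∈ r.1 ∧ tt (pr G S tt ρ' r) = cr G S tt ρ' r :=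
  (cr_mem (S := S) (tt := tt) (ρ := ρ') r).choose_spec

theorem wtt_eq_of {V' A A' : Type} {f : V → A} {f' : V' → A'} {p q : A} {p' q' : A'} {x y : V}
    {x' y' : V'} (h : ((f x = p ∧ f y = q) ∨ (f x = q ∧ f y = p)) ↔
      ((f' x' = p' ∧ f' y' = q') ∨ (f' x' = q' ∧ f' y' = p'))) :
    wtt f p q x y = wtt f' p' q' x' y' := by
  unfold wtt
  exact if_congr h rfl rfl

theorem alg1 {A B C D E X Y F F' : ZMod 2} (h1 : A + X + Y = F + F') (w1 : B + A = C)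
    (w2 : C + D = E) : F + X + B + (F' + Y + D) = E := by
  subst w1 w2
  have h2 : F + X + B + (F' + Y + D) = (F + F') + (X + Y + B + D) := by ring
  rw [h2, ← h1]
  have d2 := two_add X
  have d3 := two_add Y
  linear_combination d2 + d3

/-- TRANSFER.  If the cochain of the pair of tetrahedra at `s` is trivial on the new curve of `b` then
it is trivial on the old curve `D b ∩ mi S`. -/
theorem par_dn (w : Wall G S P N) (hv : SCol G Gc.Adj e1 e2 (S ∪ P) D vc)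
    (ht : SCol G (TE Gc) f1 f2 (S ∪ N) F tt) (hρ : Function.Injective ρ)
    {b : B} {s : B'} (hne : f1 s ≠ f2 s)
    (cls : Triv G (S ∪ N) (gam (F s) + wtt tt0 (f1 s) (f2 s)))
    (hT : Triv (sd (sd G))
      (Cu (sd G) (kq G Gc S P vc tt ρ ρ') (colH Gc) (Sum.inl (e1 b)) (Sum.inl (e2 b)))
      (pbk (ph (kq G Gc S P vc tt ρ ρ') (colH Gc) (Sum.inr (f1 s)))
        (wtt (kq G Gc S P vc tt ρ ρ') (Sum.inr (f1 s)) (Sum.inr (f2 s))))) :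
    Triv (sd G) (D b ∩ mi G S) (pbk pk (wtt tt0 (f1 s) (f2 s))) := by
  obtain ⟨f, hf⟩ := hT
  obtain ⟨ξ, hξ⟩ := w_pot ht hne cls
  have hW := fun {q : Cq G} (hq : q ∈ mi G (S ∪ N)) {x y z : V} (hx : x ∈ q.1) (hy : y ∈ q.1)
    (hz : z ∈ q.1) => w_coc ht hne cls hq hx hy hz
  set W : V → V → ZMod 2 := wtt tt0 (f1 s) (f2 s) with hWdef
  have hWs : ∀ x, W x x = 0 := fun x => wtt_self tt0 hne x
  have hWc : ∀ x y, W x y = W y x := fun x y => wtt_symm tt0 _ _ x y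
  set κ := kq G Gc S P vc tt ρ ρ' with hκ
  set C' := Cu (sd G) κ (colH Gc) (Sum.inl (e1 b)) (Sum.inl (e2 b)) with hC'
  set φ : Cq (sd G) → Cq G := ph κ (colH Gc) (Sum.inr (f1 s)) with hφ
  set h : Cq (sd G) → ZMod 2 := fun c =>
    f c + ξ (pr G S tt ρ' (φ c)) + W (pr G S tt ρ' (φ c)) (pk (pi G S P c)) with hh
  have hspec : ∀ c ∈ C', pi G S P c ∈ c.1 ∧ pi G S P c ∈ D b ∩ mi G S ∧
      (∀ r ∈ c.1, r ∈ mi G (S ∪ P) → r ≤ pi G S P c) ∧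
      ∀ r ∈ c.1, r ∉ mi G (S ∪ P) → pi G S P c ≤ r ∧ r ∈ pl G N := fun c hc => cuk_spec w hv hc
  -- the chosen element
  have hφs : ∀ c ∈ C', φ c ∈ c.1 ∧ φ c ∉ mi G (S ∪ P) := by
    intro c hc
    have h1 : ∃ x ∈ c.1, (colH Gc).side (κ x) = (colH Gc).side (Sum.inr (f1 s)) :=
      cu_pl (a := Sum.inl (e1 b)) (c := Sum.inr (f1 s)) (by
        rw [side_inl, side_inr]; exact Bool.noConfusion) hc
    obtain ⟨h2, h3⟩ := ph_mem h1
    refine ⟨h2, fun h4 => ?_⟩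
    have h5 : κ (φ c) = Sum.inl (Pa.mx vc ρ (φ c)) := kp_pos h4
    have h6 : (colH Gc).side (κ (φ c)) = (colH Gc).side (Sum.inr (f1 s)) := h3
    rw [h5, side_inl, side_inr] at h6
    exact Bool.noConfusion h6
  -- the main formula
  have step : ∀ c ∈ C', ∀ c' ∈ C', c ≤ c' → h c + h c' = W (pk (pi G S P c)) (pk (pi G S P c')) := by
    intro c hc c' hc' hle
    by_cases e : c = c'
    · rw [e, hWs]; exact two_add _
    · have h1 := hf c c' ⟨Or.inl (lt_of_le_of_ne hle e), hc, hc'⟩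
      obtain ⟨a1, a2⟩ := hφs c hc
      obtain ⟨b1, b2⟩ := hφs c' hc'
      have t1 : tp c' ∉ mi G (S ∪ P) := fun h2 => b2 (mi_dn (le_tp b1) h2)
      have t2 := ((hspec c' hc').2.2.2 _ (tp_mem c') t1).2
      have t3 : tp c' ∈ mi G (S ∪ N) := pl_sub w t2
      have m1 : pr G S tt ρ' (φ c) ∈ (tp c').1 := (le_tp (hle a1)) (pr_spec (φ c)).1
      have m2 : pr G S tt ρ' (φ c') ∈ (tp c').1 := (le_tp b1) (pr_spec (φ c')).1
      have m3 : pk (pi G S P c) ∈ (tp c').1 := (le_tp (hle (hspec c hc).1)) (pk_mem _)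
      have m4 : pk (pi G S P c') ∈ (tp c').1 := (le_tp (hspec c' hc').1) (pk_mem _)
      have h2 : pbk φ (wtt κ (Sum.inr (f1 s)) (Sum.inr (f2 s))) c c' =
          wtt tt (f1 s) (f2 s) (pr G S tt ρ' (φ c)) (pr G S tt ρ' (φ c')) := by
        have k1 : κ (φ c) = Sum.inr (cr G S tt ρ' (φ c)) := kp_neg a2
        have k2 : κ (φ c') = Sum.inr (cr G S tt ρ' (φ c')) := kp_neg b2
        rw [← (pr_spec (tt := tt) (ρ' := ρ') (S := S) (φ c)).2] at k1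
        rw [← (pr_spec (tt := tt) (ρ' := ρ') (S := S) (φ c')).2] at k2
        have i1 : ∀ (u t : Tt Gc), (Sum.inr u : Vc ⊕ Tt Gc) = Sum.inr t ↔ u = t := fun u t =>
          ⟨fun e => Sum.inr.inj e, fun e => by rw [e]⟩
        refine wtt_eq_of ?_
        rw [k1, k2]
        exact or_congr (and_congr (i1 _ _) (i1 _ _)) (and_congr (i1 _ _) (i1 _ _))
      rw [h2, hξ (tp c') t3 _ m1 _ m2] at h1
      have w1 := hW t3 m3 m1 m2
      have w2 := hW t3 m3 m2 m4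
      rw [hWc (pk (pi G S P c)) (pr G S tt ρ' (φ c))] at w1
      exact alg1 h1 w1 w2
  have step' : ∀ c ∈ C', ∀ c' ∈ C', c ≤ c' → pi G S P c = pi G S P c' → h c = h c' := by
    intro c hc c' hc' hle e
    have h1 := step c hc c' hc' hle
    rw [e, hWs] at h1
    exact (z2_eq _ _).1 h1
  -- membership of four-chains
  have mk : ∀ (a a' : Vc), ({a, a'} : Set Vc) = {e1 b, e2 b} → ∀ {x1 x2 x3 x4 : Cq G}
      (h1 : x1 ≤ x2) (h2 : x2 ≤ x3) (h3 : x3 ≤ x4), (∃ r, (r = x1 ∨ r = x2 ∨ r = x3 ∨ r = x4) ∧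
      r ∈ mi G (S ∪ P) ∧ Pa.mx vc ρ r = a) → (∃ r, (r = x1 ∨ r = x2 ∨ r = x3 ∨ r = x4) ∧
      r ∈ mi G (S ∪ P) ∧ Pa.mx vc ρ r = a') → x4 ∈ pl G N → ch4 h1 h2 h3 ∈ C' := by
    intro a a' haa x1 x2 x3 x4 h1 h2 h3 ⟨r, hr, hrX, hra⟩ ⟨r', hr', hrX', hra'⟩ h4
    have h5 : x4 ∉ mi G (S ∪ P) := by
      intro h6
      rw [← mi_compl w] at h4
      exact h4 h6
    have hm := fun {y} => mem_ch4 h1 h2 h3 (y := y)
    rcases Set.pair_eq_pair_iff.1 haa with ⟨i1, i2⟩ | ⟨i1, i2⟩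
    · exact mem_cuk.2 ⟨⟨r, hm.2 hr, hrX, hra.trans i1⟩, ⟨r', hm.2 hr', hrX', hra'.trans i2⟩,
        x4, hm.2 (Or.inr (Or.inr (Or.inr rfl))), h5⟩
    · exact mem_cuk.2 ⟨⟨r', hm.2 hr', hrX', hra'.trans i2⟩, ⟨r, hm.2 hr, hrX, hra.trans i1⟩,
        x4, hm.2 (Or.inr (Or.inr (Or.inr rfl))), h5⟩
  have hnX : ∀ r ∈ pl G N, r ∉ mi G (S ∪ P) := by
    intro r hr h6
    rw [← mi_compl w] at hr
    exact hr h6
  -- data of an element of the old curve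
  have old : ∀ q ∈ D b ∩ mi G S, ∃ a a' : Vc, ∃ m : Cq G, ({a, a'} : Set Vc) = {e1 b, e2 b} ∧
      Pa.mx vc ρ q = a' ∧ m ≤ q ∧ Pa.mx vc ρ m = a ∧ m ∈ mi G (S ∪ P) ∧ q ∈ mi G (S ∪ P) ∧
      ∀ r : Cq G, r ≤ q → Pa.mx vc ρ r = a → r ≤ m := by
    rintro q ⟨hqD, hqS⟩
    obtain ⟨hX, k1, k2⟩ := (mem_disc hv).1 hqD
    rcases two_of hv (fun a => Gc.irrefl) hqD (Pa.mx_mem (κ := vc) (ρ := ρ) q) with e | e
    · obtain ⟨m, m1, m2, m3⟩ := mx_top hρ k2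
      exact ⟨e2 b, e1 b, m, Set.pair_comm _ _, e, m1, m2, mi_dn m1 hX, hX, m3⟩
    · obtain ⟨m, m1, m2, m3⟩ := mx_top hρ k1
      exact ⟨e1 b, e2 b, m, rfl, e, m1, m2, mi_dn m1 hX, hX, m3⟩
  -- up sets
  have up : ∀ q ∈ D b ∩ mi G S, Conn (sd G) {r | r ∈ pl G N ∧ q ≤ r} := by
    rintro q ⟨_, hqS⟩
    refine (up_ok w hqS (fun x hx hxN => ?_) (fun x hx => ⟨hx.2, hx.1⟩)).1
    refine ⟨(pl_iff w).2 ⟨fun y hy => ?_, fun hxS => ?_⟩, hx.le⟩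
    · by_cases e : y ∈ q.1
      · exact Or.inl (hqS y e)
      · exact Or.inr (hxN y hy e)
    · have h4 := (tr_over w hqS hx.le hxN).2
      rw [tr_id hxS] at h4
      exact hx.ne h4.symm
  -- `h` depends only on `pi`
  have cst : ∀ q ∈ D b ∩ mi G S, ∃ g : ZMod 2, ∀ c ∈ C', pi G S P c = q → h c = g := by
    intro q hq
    obtain ⟨a, a', m, haa, hqa, hmq, hma, hmX, hqX, hmax⟩ := old q hq
    have hc3 : ∀ {r : Cq G} (hr : r ∈ pl G N) (hqr : q ≤ r), ch4 (le_refl m) hmq hqr ∈ C' ∧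
        pi G S P (ch4 (le_refl m) hmq hqr) = q := by
      intro r hr hqr
      refine ⟨mk a a' haa _ _ _ ⟨m, Or.inl rfl, hmX, hma⟩ ⟨q, Or.inr (Or.inr (Or.inl rfl)), hqX, hqa⟩
        hr, pi_eq ((mem_ch4 _ _ _).2 (Or.inr (Or.inr (Or.inl rfl)))) hqX fun x hx hxX => ?_⟩
      rcases (mem_ch4 _ _ _).1 hx with rfl | rfl | rfl | rfl
      · exact hmq
      · exact hmq
      · exact le_rfl
      · exact absurd hxX (hnX _ hr)
    have hU := up q hq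
    rw [Conn_iff] at hU
    obtain ⟨⟨r0, hr0⟩, hU2⟩ := hU
    -- the function on the up set
    have hstep : ∀ {r r' : Cq G} (hr : r ∈ pl G N) (hqr : q ≤ r) (hr' : r' ∈ pl G N)
        (hqr' : q ≤ r'), r ≤ r' → h (ch4 (le_refl m) hmq hqr) = h (ch4 (le_refl m) hmq hqr') := by
      intro r r' hr hqr hr' hqr' hle
      have b1 : ch4 hmq hqr hle ∈ C' :=
        mk a a' haa _ _ _ ⟨m, Or.inl rfl, hmX, hma⟩ ⟨q, Or.inr (Or.inl rfl), hqX, hqa⟩ hr'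
      have b2 : pi G S P (ch4 hmq hqr hle) = q := by
        refine pi_eq ((mem_ch4 _ _ _).2 (Or.inr (Or.inl rfl))) hqX fun x hx hxX => ?_
        rcases (mem_ch4 _ _ _).1 hx with rfl | rfl | rfl | rfl
        · exact hmq
        · exact le_rfl
        · exact absurd hxX (hnX _ hr)
        · exact absurd hxX (hnX _ hr')
      have i1 : ch4 (le_refl m) hmq hqr ≤ ch4 hmq hqr hle :=
        ch4_le _ _ _ ((mem_ch4 _ _ _).2 (Or.inl rfl)) ((mem_ch4 _ _ _).2 (Or.inl rfl))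
          ((mem_ch4 _ _ _).2 (Or.inr (Or.inl rfl))) ((mem_ch4 _ _ _).2 (Or.inr (Or.inr (Or.inl rfl))))
      have i2 : ch4 (le_refl m) hmq hqr' ≤ ch4 hmq hqr hle :=
        ch4_le _ _ _ ((mem_ch4 _ _ _).2 (Or.inl rfl)) ((mem_ch4 _ _ _).2 (Or.inl rfl))
          ((mem_ch4 _ _ _).2 (Or.inr (Or.inl rfl))) ((mem_ch4 _ _ _).2 (Or.inr (Or.inr (Or.inr rfl))))
      obtain ⟨j1, j2⟩ := hc3 hr hqr
      obtain ⟨j3, j4⟩ := hc3 hr' hqr'
      rw [step' _ j1 _ b1 i1 (j2.trans b2.symm), step' _ j3 _ b1 i2 (j4.trans b2.symm)]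
    have hg : ∀ {r : Cq G} (hr : r ∈ pl G N) (hqr : q ≤ r),
        h (ch4 (le_refl m) hmq hqr) = h (ch4 (le_refl m) hmq hr0.2) := by
      intro r hr hqr
      have h7 := hU2 (fun r => if hq' : q ≤ r then h (ch4 (le_refl m) hmq hq') else 0)
        (fun u v huv => by
          have hu : q ≤ u := huv.2.1.2
          have hv' : q ≤ v := huv.2.2.2
          beta_reduce
          rw [dif_pos hu, dif_pos hv']
          rcases huv.1 with k | k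
          · exact hstep huv.2.1.1 hu huv.2.2.1 hv' k.le
          · exact (hstep huv.2.2.1 hv' huv.2.1.1 hu k.le).symm) r ⟨hr, hqr⟩ r0 hr0
      beta_reduce at h7
      rw [dif_pos hqr, dif_pos hr0.2] at h7
      exact h7
    refine ⟨h (ch4 (le_refl m) hmq hr0.2), fun c hc hpc => ?_⟩
    obtain ⟨s1, s2, s3, s4⟩ := hspec c hc
    rw [hpc] at s1 s3
    obtain ⟨k1, k2, r, hr, hrX⟩ := mem_cuk.1 hc
    have hx : ∃ x ∈ c.1, x ∈ mi G (S ∪ P) ∧ Pa.mx vc ρ x = a := by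
      rcases Set.pair_eq_pair_iff.1 haa with ⟨i1, _⟩ | ⟨i1, _⟩
      · rw [i1]; exact k1
      · rw [i1]; exact k2
    obtain ⟨x, hx, hxX, hxa⟩ := hx
    have hxq : x ≤ q := s3 x hx hxX
    have hxm : x ≤ m := hmax x hxq hxa
    obtain ⟨hqr, hrN⟩ := s4 r hr hrX
    rw [hpc] at hqr
    -- c ≥ {x, q, r} ≤ {x, m, q, r} ≥ {m, q, r}
    have u1 : ch4 hxq (le_refl q) hqr ∈ C' :=
      mk a a' haa _ _ _ ⟨x, Or.inl rfl, hxX, hxa⟩ ⟨q, Or.inr (Or.inl rfl), hqX, hqa⟩ hrN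
    have u2 : ch4 hxm hmq hqr ∈ C' :=
      mk a a' haa _ _ _ ⟨x, Or.inl rfl, hxX, hxa⟩ ⟨q, Or.inr (Or.inr (Or.inl rfl)), hqX, hqa⟩ hrN
    have p1 : pi G S P (ch4 hxq (le_refl q) hqr) = q := by
      refine pi_eq ((mem_ch4 _ _ _).2 (Or.inr (Or.inl rfl))) hqX fun y hy hyX => ?_
      rcases (mem_ch4 _ _ _).1 hy with rfl | rfl | rfl | rfl
      · exact hxq
      · exact le_rfl
      · exact le_rfl
      · exact absurd hyX hrX
    have p2 : pi G S P (ch4 hxm hmq hqr) = q := by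
      refine pi_eq ((mem_ch4 _ _ _).2 (Or.inr (Or.inr (Or.inl rfl)))) hqX fun y hy hyX => ?_
      rcases (mem_ch4 _ _ _).1 hy with rfl | rfl | rfl | rfl
      · exact hxq
      · exact hmq
      · exact le_rfl
      · exact absurd hyX hrX
    obtain ⟨u3, p3⟩ := hc3 hrN hqr
    have i1 : ch4 hxq (le_refl q) hqr ≤ c := ch4_le _ _ _ hx s1 s1 hr
    have i2 : ch4 hxq (le_refl q) hqr ≤ ch4 hxm hmq hqr :=
      ch4_le _ _ _ ((mem_ch4 _ _ _).2 (Or.inl rfl)) ((mem_ch4 _ _ _).2 (Or.inr (Or.inr (Or.inl rfl))))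
        ((mem_ch4 _ _ _).2 (Or.inr (Or.inr (Or.inl rfl))))
        ((mem_ch4 _ _ _).2 (Or.inr (Or.inr (Or.inr rfl))))
    have i3 : ch4 (le_refl m) hmq hqr ≤ ch4 hxm hmq hqr :=
      ch4_le _ _ _ ((mem_ch4 _ _ _).2 (Or.inr (Or.inl rfl))) ((mem_ch4 _ _ _).2 (Or.inr (Or.inl rfl)))
        ((mem_ch4 _ _ _).2 (Or.inr (Or.inr (Or.inl rfl))))
        ((mem_ch4 _ _ _).2 (Or.inr (Or.inr (Or.inr rfl))))
    rw [← step' _ u1 _ hc i1 (p1.trans hpc.symm), step' _ u1 _ u2 i2 (p1.trans p2.symm),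
      ← step' _ u3 _ u2 i3 (p3.trans p2.symm)]
    exact hg hrN hqr
  choose! g hg using cst
  refine ⟨g, fun q q' hqq => ?_⟩
  have main : ∀ q ∈ D b ∩ mi G S, ∀ q' ∈ D b ∩ mi G S, q ≤ q' → W (pk q) (pk q') = g q + g q' := by
    intro q hq q' hq' hle
    obtain ⟨a, a', m, haa, hqa, hmq, hma, hmX, hqX, _⟩ := old q hq
    obtain ⟨_, _, _, _, _, _, _, _, hqX', _⟩ := old q' hq'
    obtain ⟨r, hrN, hqr⟩ := (up q' hq').1
    have u1 : ch4 hmq (le_refl q) (hle.trans hqr) ∈ C' :=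
      mk a a' haa _ _ _ ⟨m, Or.inl rfl, hmX, hma⟩ ⟨q, Or.inr (Or.inl rfl), hqX, hqa⟩ hrN
    have u2 : ch4 hmq hle hqr ∈ C' :=
      mk a a' haa _ _ _ ⟨m, Or.inl rfl, hmX, hma⟩ ⟨q, Or.inr (Or.inl rfl), hqX, hqa⟩ hrN
    have p1 : pi G S P (ch4 hmq (le_refl q) (hle.trans hqr)) = q := by
      refine pi_eq ((mem_ch4 _ _ _).2 (Or.inr (Or.inl rfl))) hqX fun y hy hyX => ?_
      rcases (mem_ch4 _ _ _).1 hy with rfl | rfl | rfl | rfl
      · exact hmq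
      · exact le_rfl
      · exact le_rfl
      · exact absurd hyX (hnX _ hrN)
    have p2 : pi G S P (ch4 hmq hle hqr) = q' := by
      refine pi_eq ((mem_ch4 _ _ _).2 (Or.inr (Or.inr (Or.inl rfl)))) hqX' fun y hy hyX => ?_
      rcases (mem_ch4 _ _ _).1 hy with rfl | rfl | rfl | rfl
      · exact hmq.trans hle
      · exact hle
      · exact le_rfl
      · exact absurd hyX (hnX _ hrN)
    have i1 : ch4 hmq (le_refl q) (hle.trans hqr) ≤ ch4 hmq hle hqr :=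
      ch4_le _ _ _ ((mem_ch4 _ _ _).2 (Or.inl rfl)) ((mem_ch4 _ _ _).2 (Or.inr (Or.inl rfl)))
        ((mem_ch4 _ _ _).2 (Or.inr (Or.inl rfl))) ((mem_ch4 _ _ _).2 (Or.inr (Or.inr (Or.inr rfl))))
    have h1 := step _ u1 _ u2 i1
    rw [p1, p2, hg q hq _ u1 p1, hg q' hq' _ u2 p2] at h1
    exact h1.symm
  rcases hqq.1 with h1 | h1
  · exact main q hqq.2.1 q' hqq.2.2 h1.le
  · show W (pk q) (pk q') = g q + g q'
    rw [hWc, main q' hqq.2.2 q hqq.2.1 h1.le, add_comm]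

end MOT.Pt
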