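import Pool.Agent.MOT.PtP
import Pool.Agent.MOT.PtF

/-!
# MOT/PtX: the colouring of a region on the next level (block P)
-/

open Classical

noncomputable section

namespace MOT.Pt

open MOT.Pa

variable {V A B : Type} {G : SimpleGraph V} {E : A → A → Prop} {e1 e2 : B → A} {X : Set V}
  {D : B → Set (Cq G)} {vc : V → A} {ρ : A → ℕ}

/-- the discs of a colouring on the next level: simplices of `sd G` inside `X'` with both colours -/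
def Dn {W : Type} (H : SimpleGraph W) (X' : Set W) (e1 e2 : B → A) (f : W → A) (b : B) :
    Set (Cq H) :=
  {c | c ∈ mi H X' ∧ (∃ x ∈ c.1, f x = e1 b) ∧ ∃ x ∈ c.1, f x = e2 b}

theorem mem_disc (h : SCol G E e1 e2 X D vc) {b : B} {q : Cq G} :
    q ∈ D b ↔ q ∈ mi G X ∧ e1 b ∈ cols vc q ∧ e2 b ∈ cols vc q := by
  rw [← h.disc b]
  exact Iff.rfl

/-- colours of a simplex in `X` with the colours of `b` -/
theorem two_of (h : SCol G E e1 e2 X D vc) (hne : ∀ a, ¬ E a a) {b : B} {q : Cq G} (hq : q ∈ D b)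
    {a : A} (ha : a ∈ cols vc q) : a = e1 b ∨ a = e2 b := by
  obtain ⟨hX, ⟨x, hx, ex⟩, y, hy, ey⟩ := (mem_disc h).1 hq
  obtain ⟨z, hz, rfl⟩ := ha
  rcases h.two_cl q hx hy hz (hX x hx) (hX y hy) (hX z hz) with e | e | e
  · exfalso
    have : e1 b = e2 b := by rw [← ex, ← ey, e]
    have h1 := h.ends.e b
    rw [this] at h1
    exact hne _ h1
  · exact Or.inr (by rw [← e, ey])
  · exact Or.inl (by rw [← e, ex])

theorem tr_iff {M : Set V} {q : Cq G} (h : ∃ x ∈ q.1, x ∈ M) {x : V} :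
    x ∈ (tr M q).1 ↔ x ∈ q.1 ∧ x ∈ M := by
  rw [tr_val (show q ∈ pl G M from h), Finset.mem_filter]

/-- the largest face with `mx = a` of a simplex is a greatest element of `{r ≤ q | mx r = a}` -/
theorem mx_top (hρ : Function.Injective ρ) {q : Cq G} {a : A} (ha : a ∈ cols vc q) :
    ∃ m : Cq G, m ≤ q ∧ Pa.mx vc ρ m = a ∧ ∀ r : Cq G, r ≤ q → Pa.mx vc ρ r = a → r ≤ m := by
  have hp : ∃ x ∈ q.1, x ∈ {x | ρ (vc x) ≤ ρ a} := by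
    obtain ⟨x, hx, e⟩ := ha
    exact ⟨x, hx, by show ρ (vc x) ≤ ρ a; rw [e]⟩
  refine ⟨tr {x | ρ (vc x) ≤ ρ a} q, tr_le q, ?_, ?_⟩
  · refine Pa.mx_eq hρ ?_ ?_
    · obtain ⟨x, hx, e⟩ := ha
      exact ⟨x, (tr_iff hp).2 ⟨hx, by show ρ (vc x) ≤ ρ a; rw [e]⟩, e⟩
    · rintro c ⟨x, hx, rfl⟩
      exact ((tr_iff hp).1 hx).2
  · intro r hr e
    refine Cq.le_iff.2 fun x hx => (tr_iff hp).2 ⟨hr hx, ?_⟩
    have h1 : ρ (vc x) ≤ ρ (Pa.mx vc ρ r) := Pa.mx_max ⟨x, hx, rfl⟩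
    rw [e] at h1
    exact h1

/-- the greatest of three pairwise comparable elements -/
theorem top3 {P : Type} [PartialOrder P] {x y z : P} (h1 : x ≤ y ∨ y ≤ x) (h2 : y ≤ z ∨ z ≤ y)
    (h3 : x ≤ z ∨ z ≤ x) : ∃ w, (w = x ∨ w = y ∨ w = z) ∧ x ≤ w ∧ y ≤ w ∧ z ≤ w := by
  rcases h1 with h1 | h1
  · rcases h2 with h2 | h2
    · exact ⟨z, Or.inr (Or.inr rfl), h1.trans h2, h2, le_rfl⟩
    · exact ⟨y, Or.inr (Or.inl rfl), h1, le_rfl, h2⟩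
  · rcases h3 with h3 | h3
    · exact ⟨z, Or.inr (Or.inr rfl), h3, h1.trans h3, le_rfl⟩
    · exact ⟨x, Or.inl rfl, le_rfl, h1, h3⟩

theorem cmp_le {H : Set (Cq G)} {x y : Cq G} (h : EIn (sd G) H x y) : x ≤ y ∨ y ≤ x := by
  rcases h.1 with h | h
  · exact Or.inl h.le
  · exact Or.inr h.le

/-- adjacency from colours in one simplex -/
theorem adj_of (h : SCol G E e1 e2 X D vc) {q : Cq G} (hq : q ∈ mi G X) {a b : A}
    (ha : a ∈ cols vc q) (hb : b ∈ cols vc q) :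
    a = b ∨ ∃ c, ({a, b} : Set A) = {e1 c, e2 c} := by
  obtain ⟨x, hx, rfl⟩ := ha
  obtain ⟨y, hy, rfl⟩ := hb
  by_cases e : x = y
  · exact Or.inl (by rw [e])
  · exact h.adj x y ⟨q.2.2 (Finset.mem_coe.2 hx) (Finset.mem_coe.2 hy) e, hq x hx, hq y hy⟩

theorem two_of3 (h : SCol G E e1 e2 X D vc) {q : Cq G} (hq : q ∈ mi G X) {a b c : A}
    (ha : a ∈ cols vc q) (hb : b ∈ cols vc q) (hc : c ∈ cols vc q) : a = b ∨ b = c ∨ a = c := by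
  obtain ⟨x, hx, rfl⟩ := ha
  obtain ⟨y, hy, rfl⟩ := hb
  obtain ⟨z, hz, rfl⟩ := hc
  exact h.two_cl q hx hy hz (hq x hx) (hq y hy) (hq z hz)

/-- the classes on the next level -/
theorem cls_bt (hρ : Function.Injective (ρ : A → ℕ)) (a : A) :
    mi G {x | x ∈ X ∧ vc x = a} ⊆ {q | q ∈ mi G X ∧ Pa.mx vc ρ q = a} ∧
      {q | q ∈ mi G X ∧ Pa.mx vc ρ q = a} ⊆ pl G {x | x ∈ X ∧ vc x = a} := by
  constructor
  · intro q hq
    refine ⟨fun x hx => (hq x hx).1, Pa.mx_eq hρ ?_ ?_⟩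
    · obtain ⟨x, hx⟩ := q.2.1
      exact ⟨x, hx, (hq x hx).2⟩
    · rintro d ⟨x, hx, rfl⟩
      rw [(hq x hx).2]
  · rintro q ⟨hq, e⟩
    obtain ⟨x, hx, e'⟩ := Pa.mx_mem (κ := vc) (ρ := ρ) q
    exact ⟨x, hx, hq x hx, e'.trans e⟩

/-- the discs on the next level -/
theorem dn_ok (h : SCol G E e1 e2 X D vc) (hne : ∀ a, ¬ E a a)
    (hρ : Function.Injective (ρ : A → ℕ)) (b : B) :
    Conn (sd (sd G)) (Dn (sd G) (mi G X) e1 e2 (Pa.mx vc ρ) b) ∧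
      HZ (sd (sd G)) (Dn (sd G) (mi G X) e1 e2 (Pa.mx vc ρ) b) := by
  have hb : e1 b ≠ e2 b := fun e => by
    have := h.ends.e b
    rw [e] at this
    exact hne _ this
  have hT : ∀ c ∈ Dn (sd G) (mi G X) e1 e2 (Pa.mx vc ρ) b, tp c ∈ D b := by
    rintro c ⟨hc, ⟨x, hx, ex⟩, y, hy, ey⟩
    refine (mem_disc h).2 ⟨hc _ (tp_mem c), ?_, ?_⟩
    · rw [← ex]; exact cols_mono (le_tp hx) (Pa.mx_mem x)
    · rw [← ey]; exact cols_mono (le_tp hy) (Pa.mx_mem y)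
  have hf : ∀ q0 ∈ D b,
      Conn (sd (sd G)) {c | c ∈ Dn (sd G) (mi G X) e1 e2 (Pa.mx vc ρ) b ∧ tp c ≤ q0} ∧
      HZ (sd (sd G)) {c | c ∈ Dn (sd G) (mi G X) e1 e2 (Pa.mx vc ρ) b ∧ tp c ≤ q0} := by
    intro q0 hq0
    obtain ⟨hX, k1, k2⟩ := (mem_disc h).1 hq0
    have hle : ∀ c : Cq (sd G), tp c ≤ q0 ↔ ∀ r ∈ c.1, r ≤ q0 := fun c =>
      ⟨fun h r hr => (le_tp hr).trans h, fun h => h _ (tp_mem c)⟩
    have hX' : ∀ r : Cq G, r ≤ q0 → r ∈ mi G X := fun r hr x hx => hX x (hr hx)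
    have hab : ∀ r : Cq G, r ≤ q0 → Pa.mx vc ρ r = e1 b ∨ Pa.mx vc ρ r = e2 b := fun r hr =>
      two_of h hne hq0 (cols_mono hr (Pa.mx_mem r))
    have main : ∀ a a' : A, a ≠ a' → a ∈ cols vc q0 → Pa.mx vc ρ q0 = a' →
        (∀ r : Cq G, r ≤ q0 → Pa.mx vc ρ r = a ∨ Pa.mx vc ρ r = a') →
        (∀ c : Cq (sd G), c ∈ {c | c ∈ Dn (sd G) (mi G X) e1 e2 (Pa.mx vc ρ) b ∧ tp c ≤ q0} ↔
          (∃ r ∈ c.1, Pa.mx vc ρ r = a) ∧ (∃ r ∈ c.1, Pa.mx vc ρ r = a') ∧ ∀ r ∈ c.1, r ≤ q0) →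
        Conn (sd (sd G)) {c | c ∈ Dn (sd G) (mi G X) e1 e2 (Pa.mx vc ρ) b ∧ tp c ≤ q0} ∧
        HZ (sd (sd G)) {c | c ∈ Dn (sd G) (mi G X) e1 e2 (Pa.mx vc ρ) b ∧ tp c ≤ q0} := by
      intro a a' haa ha ha' hr hc
      obtain ⟨m, hm1, hm2, hm3⟩ := mx_top (vc := vc) hρ ha
      refine fb (A := {r | r ≤ q0 ∧ Pa.mx vc ρ r = a}) (B := {r | r ≤ q0 ∧ Pa.mx vc ρ r = a'})
        (q0 := q0) (fun r h => h.1) (fun r h => h.1) ⟨le_rfl, ha'⟩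
        (fun r h h' => haa (h.2.symm.trans h'.2))
        (top_Conn (m := m) ⟨hm1, hm2⟩ (fun r h => hm3 r h.1 h.2))
        (top_HZ (m := m) ⟨hm1, hm2⟩ (fun r h => hm3 r h.1 h.2)) (fun c => ?_)
      rw [hc c]
      constructor
      · rintro ⟨⟨r, h1, h2⟩, ⟨s, h3, h4⟩, h5⟩
        exact ⟨⟨r, h1, h5 r h1, h2⟩, ⟨s, h3, h5 s h3, h4⟩, fun t ht => by
          rcases hr t (h5 t ht) with e | e
          · exact Or.inl ⟨h5 t ht, e⟩
          · exact Or.inr ⟨h5 t ht, e⟩⟩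
      · rintro ⟨⟨r, h1, h2⟩, ⟨s, h3, h4⟩, h5⟩
        exact ⟨⟨r, h1, h2.2⟩, ⟨s, h3, h4.2⟩, fun t ht => by
          rcases h5 t ht with e | e
          · exact e.1
          · exact e.1⟩
    rcases hab q0 le_rfl with e | e
    · refine main (e2 b) (e1 b) hb.symm k2 e (fun r hr => (hab r hr).symm) (fun c => ?_)
      constructor
      · rintro ⟨⟨h1, h2, h3⟩, h4⟩
        exact ⟨h3, h2, (hle c).1 h4⟩
      · rintro ⟨h1, h2, h3⟩
        exact ⟨⟨fun r hr => hX' r (h3 r hr), h2, h1⟩, (hle c).2 h3⟩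
    · refine main (e1 b) (e2 b) hb k1 e (fun r hr => hab r hr) (fun c => ?_)
      constructor
      · rintro ⟨⟨h1, h2, h3⟩, h4⟩
        exact ⟨h2, h3, (hle c).1 h4⟩
      · rintro ⟨h1, h2, h3⟩
        exact ⟨⟨fun r hr => hX' r (h3 r hr), h1, h2⟩, (hle c).2 h3⟩
  exact ⟨fibd_Conn (T := D b) tp (fun _ _ _ _ h' => tp_mono h') hT (fun q hq => (hf q hq).1)
      (h.dc b),
    fibd_HZ (T := D b) tp (fun _ _ _ _ h' => tp_mono h') hT hf (h.dz b)⟩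

/-- THE NEXT LEVEL, closed side -/
theorem scol_sd (h : SCol G E e1 e2 X D vc) (hne : ∀ a, ¬ E a a)
    (hρ : Function.Injective (ρ : A → ℕ)) :
    SCol (sd G) E e1 e2 (mi G X) (Dn (sd G) (mi G X) e1 e2 (Pa.mx vc ρ)) (Pa.mx vc ρ) where
  ends := h.ends
  adj := by
    intro x y hxy
    rcases cmp_le hxy with hle | hle
    · exact adj_of h hxy.2.2 (cols_mono hle (Pa.mx_mem x)) (Pa.mx_mem y)
    · exact adj_of h hxy.2.1 (Pa.mx_mem x) (cols_mono hle (Pa.mx_mem y))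
  two := by
    intro x y z h1 h2 h3
    obtain ⟨w, hw, hx, hy, hz⟩ := top3 (cmp_le h1) (cmp_le h2) (cmp_le h3)
    have hwX : w ∈ mi G X := by
      rcases hw with rfl | rfl | rfl
      · exact h1.2.1
      · exact h1.2.2
      · exact h2.2.2
    exact two_of3 h hwX (cols_mono hx (Pa.mx_mem x)) (cols_mono hy (Pa.mx_mem y))
      (cols_mono hz (Pa.mx_mem z))
  disc b := rfl
  conn a := (bt_Conn (cls_bt hρ a).1 (cls_bt hρ a).2).2 (h.conn a)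
  hz a := (bt_HZ (cls_bt hρ a).1 (cls_bt hρ a).2).2 (h.hz a)
  cconn a := by
    obtain ⟨h1, h2⟩ := bt_compl (cls_bt (G := G) (X := X) (vc := vc) hρ a).1 (cls_bt hρ a).2
    exact (bt_Conn h1 h2).2 (h.cconn a)
  chz a := by
    obtain ⟨h1, h2⟩ := bt_compl (cls_bt (G := G) (X := X) (vc := vc) hρ a).1 (cls_bt hρ a).2
    exact (bt_HZ h1 h2).2 (h.chz a)
  dc b := (dn_ok h hne hρ b).1
  dz b := (dn_ok h hne hρ b).2

end MOT.Pt
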