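import Pool.Agent.MOT.SaF

/-!
# MOT/SaA: one pruning step keeps admissibility; persistence of marked loops
-/

open Classical

noncomputable section

namespace MOT

variable {V : Type} {G : SimpleGraph V} {B Bs M Q P N D X : Set V} {E F : Type} [Fintype E]
  [Fintype F] {C : Submodule (ZMod 2) (E → ZMod 2)} {C' : Submodule (ZMod 2) (F → ZMod 2)}
  {we : E → V → V → ZMod 2} {ws : F → V → V → ZMod 2} {w0 : V → V → ZMod 2}

theorem Adm.swap {r : ℕ} (h : Adm G B Bs M r) : Adm G Bs B Mᶜ r := by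
  refine ⟨h.cN, ?_, h.hBs, ?_, ?_⟩
  · rw [compl_compl]
    exact h.cM
  · rw [compl_compl]
    exact h.hB
  · rw [bb_compl]
    exact h.hb

/-- exact Betti numbers of an admissible region (`Fam.le` twice) -/
theorem Adm.b1_eq [Finite V] (hF : Fam G B Bs C we) (hF' : Fam G Bs B C' ws)
    (h : Adm G B Bs M (fq C + fq C')) : b1 G M = fq C ∧ b1 G Mᶜ = fq C' := by
  have h1 : fq C ≤ b1 G M := hF.le h.hB (Set.disjoint_right.2 fun x hx hxM => h.hBs hx hxM)
  have h2 : fq C' ≤ b1 G Mᶜ :=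
    hF'.le h.hBs (Set.disjoint_right.2 fun x hx hxM => hxM (h.hB hx))
  have h3 : b1 G M + b1 G Mᶜ ≤ fq C + fq C' := h.hb
  omega

/-- STEP.  Sketch: `mi B` is connected and lies in `cut` (`cut_keep`, `D ⊆ Q`), `M'` := its
component; `step_compl_Conn`, `step_bb`; `mi Bs` misses `cut`.  By `Adm.b1_eq` one level later
`b1 M' = fq C = b1 M`, so by `flip_cases`, `flip_two` every other component has `b1 = 0`. -/
theorem adm_cut [Finite V] (h : IsSph3 G) (w : Wall G Q P N) (hF : Fam G B Bs C we)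
    (hF' : Fam G Bs B C' ws) (hB : Conn G B) (hQB : Disjoint Q B)
    (a : Adm G B Bs M (fq C + fq C')) (hD : IsComp G (M ∩ Q) D) (hz : HZ G D)
    (hc : Conn (sd G) (FrIn G Q D)) :
    ∃ M' : Set (Cq G), IsComp (sd G) (cut G Q M D) M' ∧
      Adm (sd G) (mi G B) (mi G Bs) M' (fq C + fq C') ∧
      (∀ Y, IsComp (sd G) (cut G Q M D) Y → Y ≠ M' → HZ (sd G) Y ∧ Disjoint Y (mi G B)) ∧
      b0 (sd (sd G)) (FrIn (sd G) (mi G Q) M') < b0 (sd G) (FrIn G Q M) := by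
  have hBD : Disjoint B D :=
    Set.disjoint_left.2 fun x hx hxD => Set.disjoint_left.1 hQB (hD.sub hxD).2 hx
  have hmB : mi G B ⊆ cut G Q M D := cut_keep a.hB hBD
  have hmBs : mi G Bs ⊆ (cut G Q M D)ᶜ := cut_keep_compl a.hBs
  have hcB : Conn (sd G) (mi G B) := sd_Conn.2 hB
  obtain ⟨b, hb⟩ := hcB.1
  have hM' : IsComp (sd G) (cut G Q M D) (comp (sd G) (cut G Q M D) b) := ⟨b, hmB hb, rfl⟩
  have hBM : mi G B ⊆ comp (sd G) (cut G Q M D) b :=
    hM'.absorb hcB hmB ⟨b, hb, comp_self (hmB hb)⟩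
  generalize comp (sd G) (cut G Q M D) b = M' at hM' hBM
  have a' : Adm (sd G) (mi G B) (mi G Bs) M' (fq C + fq C') :=
    ⟨hM'.conn, step_compl_Conn w hD a.cM a.cN hc.1 hM', hBM,
      hmBs.trans (Set.compl_subset_compl.2 hM'.sub),
      (step_bb h w hD hz (Or.inr hc) hM').trans a.hb⟩
  have e0 : b1 G M = fq C := (Adm.b1_eq hF hF' a).1
  have e1 : b1 (sd G) M' = fq C := (Adm.b1_eq hF.sd hF'.sd a').1
  refine ⟨M', hM', a', ?_, step_kk hD hc hM'⟩
  intro Y hY hne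
  have hdj : Disjoint Y (mi G B) :=
    Set.disjoint_left.2 fun x hx hxB => hne (hY.eq_of_inter hM' ⟨x, hx, hBM hxB⟩)
  refine ⟨?_, hdj⟩
  obtain ⟨y, hy⟩ := hY.conn.1
  rcases flip_cases w hD a.cM with h1 | ⟨C1, C2, k1, k2, ku, kd, _, _, _⟩
  · exfalso
    have h2 : cut G Q M D ⊆ M' := hM'.absorb h1 subset_rfl ⟨b, hmB hb, hBM hb⟩
    exact hne (hY.eq_of_inter hM' ⟨y, hy, h2 (hY.sub hy)⟩)
  · have h3 := flip_two w hD hz a.cM k1 k2 ku kd
    have hb' : b ∈ C1 ∪ C2 := by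
      rw [ku]
      exact hmB hb
    have hy' : y ∈ C1 ∪ C2 := by
      rw [ku]
      exact hY.sub hy
    refine b1_eq_zero.1 ?_
    rcases hb' with hb' | hb'
    · have f1 : M' = C1 := hM'.eq_of_inter k1 ⟨b, hBM hb, hb'⟩
      rcases hy' with hy' | hy'
      · exact absurd ((hY.eq_of_inter k1 ⟨y, hy, hy'⟩).trans f1.symm) hne
      · rw [hY.eq_of_inter k2 ⟨y, hy, hy'⟩]
        rw [f1] at e1
        omega
    · have f1 : M' = C2 := hM'.eq_of_inter k2 ⟨b, hBM hb, hb'⟩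
      rcases hy' with hy' | hy'
      · rw [hY.eq_of_inter k1 ⟨y, hy, hy'⟩]
        rw [f1] at e1
        omega
      · exact absurd ((hY.eq_of_inter k2 ⟨y, hy, hy'⟩).trans f1.symm) hne

/-- PERSISTENCE.  `X ⊆ M ∩ Q` connected, carrying a nontrivial class defined off `B`.
Sketch: `X` does not meet `D` (else `X ⊆ D`, `HZ G D`), so `mi X ⊆ cut`, and `mi X` lies in one
component; in a component `≠ M'` the class is trivial (`Triv_pw`). -/
theorem pers (hw : CocO G B w0) (hX : Conn G X) (hXM : X ⊆ M ∩ Q) (hn : ¬ Triv G X w0)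
    (hD : IsComp G (M ∩ Q) D) (hz : HZ G D) (hDB : Disjoint D B) {M' : Set (Cq G)}
    (hM' : IsComp (sd G) (cut G Q M D) M')
    (hY : ∀ Y, IsComp (sd G) (cut G Q M D) Y → Y ≠ M' →
      HZ (sd G) Y ∧ Disjoint Y (mi G B)) : mi G X ⊆ M' := by
  have hXD : Disjoint X D := by
    rw [Set.disjoint_iff_inter_eq_empty]
    by_contra hne
    have hs : X ⊆ D := hD.absorb hX hXM (Set.nonempty_iff_ne_empty.2 hne)
    exact hn ((Triv_rs.1 (hz _ (hw.rs_mem hDB))).mono hs)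
  have hmX : mi G X ⊆ cut G Q M D := cut_keep (fun x hx => (hXM hx).1) hXD
  have hcX : Conn (sd G) (mi G X) := sd_Conn.2 hX
  obtain ⟨c, hc⟩ := hcX.1
  have hC : IsComp (sd G) (cut G Q M D) (comp (sd G) (cut G Q M D) c) := ⟨c, hmX hc, rfl⟩
  have hs : mi G X ⊆ comp (sd G) (cut G Q M D) c :=
    hC.absorb hcX hmX ⟨c, hc, comp_self (hmX hc)⟩
  by_cases e : comp (sd G) (cut G Q M D) c = M'
  · rw [← e]
    exact hs
  · exfalso
    obtain ⟨hz', hdj⟩ := hY _ hC e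
    exact hn ((Triv_pw hw.symm hw.zero).1 ((Triv_rs.1 (hz' _ (hw.pw.rs_mem hdj))).mono hs))

/-- a set in the complement stays in the complement -/
theorem pers_compl (hX : X ⊆ Mᶜ) {M' : Set (Cq G)}
    (hM' : IsComp (sd G) (cut G Q M D) M') : mi G X ⊆ M'ᶜ :=
  (cut_keep_compl hX).trans (Set.compl_subset_compl.2 hM'.sub)

end MOT
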