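import Pool.Agent.MOT.SaDef

/-!
# MOT/SaC: cochains which are cocycles off a set, under subdivision
-/

open Classical

noncomputable section

namespace MOT

variable {V : Type} {G : SimpleGraph V} {A B Bs M : Set V} {N : Set (Cq G)}
  {w : V → V → ZMod 2}

/-- the greatest element of a clique of `sd G` -/
private theorem top_of (c : Cq (sd G)) : ∃ m ∈ c.1, ∀ s ∈ c.1, ∀ x ∈ s.1, x ∈ m.1 := by
  obtain ⟨m, hm, hmax⟩ := c.1.exists_max_image (fun s : Cq G => s.1.card) c.2.1
  refine ⟨m, hm, fun s hs x hx => ?_⟩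
  by_cases h : s = m
  · rw [← h]; exact hx
  · rcases c.2.2 hs hm h with h1 | h1
    · exact h1.le hx
    · have h2 := Finset.card_lt_card (Cq.lt_iff.1 h1)
      have h3 := hmax s hs
      omega

private theorem top_not {c : Cq (sd G)} (hc : c ∉ mi (sd G) (mi G B)) :
    ∃ m : Cq G, m ∉ mi G B ∧ ∀ s ∈ c.1, pk s ∈ m.1 := by
  obtain ⟨m, -, h⟩ := top_of c
  refine ⟨m, fun hm => hc fun s hs x hx => hm x (h s hs x hx), fun s hs => h s hs _ (pk_mem s)⟩

/-- Sketch: a clique of `sd G` is a chain; if it is not inside `mi B` its greatest element `m` is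
not in `mi B`, and all `pk s` (`s` in the chain) lie in `m`. -/
theorem CocO.pw (h : CocO G B w) : CocO (sd G) (mi G B) (pw G w) where
  symm := fun s t => h.symm _ _
  zero := fun s => h.zero _
  coc := by
    intro c hc s hs t ht r hr
    obtain ⟨m, hm, hk⟩ := top_not hc
    exact h.coc m hm _ (hk s hs) _ (hk t ht) _ (hk r hr)

theorem CobO.pw {u : V → ZMod 2} (h : CobO G B w u) :
    CobO (sd G) (mi G B) (pw G w) (fun s => u (pk s)) := by
  intro c hc s hs t ht
  obtain ⟨m, hm, hk⟩ := top_not hc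
  exact h m hm _ (hk s hs) _ (hk t ht)

/-- restriction to a set disjoint from `B` (apply `coc` to the clique `{x, y, z}`) -/
theorem CocO.rs_mem (h : CocO G B w) (hd : Disjoint M B) : rs G M w ∈ Z1 G M := by
  refine mem_Z1.2 ⟨fun x y e => if_neg e, fun x y => ?_, fun x y z e1 e2 e3 => ?_⟩
  · unfold rs
    by_cases e : EIn G M x y
    · rw [if_pos e, if_pos e.symm, h.symm]
    · rw [if_neg e, if_neg (fun e' => e e'.symm)]
  · rw [rs_apply e1, rs_apply e2, rs_apply e3]
    have hc : G.IsClique ((({x, y, z} : Finset V)) : Set V) := by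
      intro u hu v hv huv
      simp only [Finset.coe_insert, Finset.coe_singleton, Set.mem_insert_iff,
        Set.mem_singleton_iff] at hu hv
      rcases hu with rfl | rfl | rfl <;> rcases hv with rfl | rfl | rfl
      · exact absurd rfl huv
      · exact e1.1
      · exact e3.1
      · exact e1.1.symm
      · exact absurd rfl huv
      · exact e2.1
      · exact e3.1.symm
      · exact e2.1.symm
      · exact absurd rfl huv
    let s : Cq G := ⟨{x, y, z}, ⟨x, by simp⟩, hc⟩
    have hx : x ∈ s.1 := by simp [s]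
    have hy : y ∈ s.1 := by simp [s]
    have hz : z ∈ s.1 := by simp [s]
    exact h.coc s (fun hs => Set.disjoint_left.1 hd e1.2.1 (hs x hx)) x hx y hy z hz

theorem CobO.triv {u : V → ZMod 2} (h : CobO G B w u) (hd : Disjoint M B) : Triv G M w := by
  refine ⟨u, fun x y e => ?_⟩
  have hx : x ∈ (eg G e.1).1 := Finset.mem_insert_self x {y}
  have hy : y ∈ (eg G e.1).1 := Finset.mem_insert_of_mem (Finset.mem_singleton_self y)
  exact h (eg G e.1) (fun hs => Set.disjoint_left.1 hd e.2.1 (hs x hx)) x hx y hy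

private theorem pk_vx (x : V) : pk (vx G x) = x := Finset.mem_singleton.1 (pk_mem (vx G x))

private theorem vx_lt_l {x y : V} (h : G.Adj x y) : vx G x < eg G h := by
  rw [Cq.lt_iff, Finset.ssubset_iff_of_subset]
  · refine ⟨y, Finset.mem_insert_of_mem (Finset.mem_singleton_self y), fun hy => ?_⟩
    exact h.ne (Finset.mem_singleton.1 hy).symm
  · intro u hu
    rw [Finset.mem_singleton.1 hu]
    exact Finset.mem_insert_self x {y}

private theorem vx_lt_r {x y : V} (h : G.Adj x y) : vx G y < eg G h := by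
  rw [Cq.lt_iff, Finset.ssubset_iff_of_subset]
  · refine ⟨x, Finset.mem_insert_self x {y}, fun hy => ?_⟩
    exact h.ne (Finset.mem_singleton.1 hy)
  · intro u hu
    rw [Finset.mem_singleton.1 hu]
    exact Finset.mem_insert_of_mem (Finset.mem_singleton_self y)

/-- Sketch: `f` for `sd` gives `x ↦ f {x}` (`pk {x,y}` is `x` or `y`); conversely `s ↦ f (pk s)`. -/
theorem Triv_pw (hs : ∀ x y, w x y = w y x) (h0 : ∀ x, w x x = 0) :
    Triv (sd G) (mi G A) (pw G w) ↔ Triv G A w := by
  constructor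
  · rintro ⟨f, hf⟩
    refine ⟨fun x => f (vx G x), fun x y e => ?_⟩
    have mx : vx G x ∈ mi G A := fun u hu => by rw [Finset.mem_singleton.1 hu]; exact e.2.1
    have my : vx G y ∈ mi G A := fun u hu => by rw [Finset.mem_singleton.1 hu]; exact e.2.2
    have me : eg G e.1 ∈ mi G A := by
      intro u hu
      rcases Finset.mem_insert.1 hu with hu | hu
      · rw [hu]; exact e.2.1
      · rw [Finset.mem_singleton.1 hu]; exact e.2.2
    have a1 := hf _ _ (⟨Or.inl (vx_lt_l e.1), mx, me⟩ : EIn (sd G) (mi G A) (vx G x) (eg G e.1))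
    have a2 := hf _ _ (⟨Or.inl (vx_lt_r e.1), my, me⟩ : EIn (sd G) (mi G A) (vx G y) (eg G e.1))
    simp only [pw, pk_vx] at a1 a2
    show w x y = f (vx G x) + f (vx G y)
    rcases Finset.mem_insert.1 (pk_mem (eg G e.1)) with hk | hk
    · rw [hk, h0] at a1
      rw [hk, hs] at a2
      have a3 := (z2_eq _ _).1 a1.symm
      rw [a2, ← a3, add_comm]
    · rw [Finset.mem_singleton] at hk
      rw [hk, h0] at a2
      rw [hk] at a1
      have a3 := (z2_eq _ _).1 a2.symm
      rw [a1, ← a3]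
  · rintro ⟨f, hf⟩
    refine ⟨fun s => f (pk s), fun s t e => ?_⟩
    show w (pk s) (pk t) = f (pk s) + f (pk t)
    by_cases hk : pk s = pk t
    · rw [hk, h0, two_add]
    · refine hf _ _ ⟨?_, e.2.1 _ (pk_mem s), e.2.2 _ (pk_mem t)⟩
      rcases e.1 with h1 | h1
      · exact t.2.2 (h1.le (pk_mem s)) (pk_mem t) hk
      · exact s.2.2 (pk_mem s) (h1.le (pk_mem t)) hk

/-- for `N` between `mi M` and `pl M` (`bt_Triv`) -/
theorem Triv_pw_bt (h : CocO G B w) (h1 : mi G M ⊆ N) (h2 : N ⊆ pl G M)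
    (hd : Disjoint N (mi G B)) : Triv (sd G) N (pw G w) ↔ Triv G M w := by
  have ha := h.pw.rs_mem hd
  have e1 := bt_Triv h1 h2 ha
  have e2 : Triv (sd G) (mi G M) (rs (sd G) N (MOT.pw G w)) ↔
      Triv (sd G) (mi G M) (MOT.pw G w) :=
    ⟨fun t => t.congr fun _ _ e => rs_apply (e.mono h1),
      fun t => t.congr fun _ _ e => (rs_apply (e.mono h1)).symm⟩
  rw [← Triv_rs, e1, e2, Triv_pw h.symm h.zero]

/-- a component of `A` has its frontier in the frontier of `A` -/
theorem Fr_comp {C : Set V} (hC : IsComp G A C) : Fr G C ⊆ Fr G A := by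
  rintro s ⟨⟨x, hx, hxC⟩, y, hy, hyC⟩
  refine ⟨⟨x, hx, hC.sub hxC⟩, y, hy, fun hyA => ?_⟩
  have hne : x ≠ y := by
    rintro rfl
    exact hyC hxC
  exact hC.nadj x hxC y ⟨hyA, hyC⟩ (s.2.2 hx hy hne)

/-- `lc` commutes with `pw` -/
theorem lc_pw {E : Type} [Fintype E] (a : E → ZMod 2) (w : E → V → V → ZMod 2) :
    lc a (fun e => pw G (w e)) = pw G (lc a w) := rfl

theorem lc_symm {E : Type} [Fintype E] (a : E → ZMod 2) {w : E → V → V → ZMod 2}
    (h : ∀ e, CocO G B (w e)) : CocO G B (lc a w) where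
  symm := fun x y => Finset.sum_congr rfl fun e _ => by rw [(h e).symm]
  zero := fun x => Finset.sum_eq_zero fun e _ => by rw [(h e).zero, mul_zero]
  coc := by
    intro s hs x hx y hy z hz
    show (∑ e, a e * w e x y) + (∑ e, a e * w e y z) = ∑ e, a e * w e x z
    rw [← Finset.sum_add_distrib]
    refine Finset.sum_congr rfl fun e _ => ?_
    rw [← mul_add, (h e).coc s hs x hx y hy z hz]

theorem Fam.sd {E : Type} [Fintype E] {C : Submodule (ZMod 2) (E → ZMod 2)}
    {w : E → V → V → ZMod 2} (h : Fam G B Bs C w) :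
    Fam (MOT.sd G) (mi G B) (mi G Bs) C (fun e => MOT.pw G (w e)) where
  coc := fun e => (h.coc e).pw
  ker := by
    intro a ha
    have hc := lc_symm a h.coc
    rw [lc_pw] at ha
    exact h.ker a ((Triv_pw hc.symm hc.zero).1 ha)
  rel := by
    intro a ha
    obtain ⟨u, hu⟩ := h.rel a ha
    exact ⟨fun s => u (pk s), hu.pw⟩

end MOT
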