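import Pool.Agent.MOT.Stp

/-!
# MOT/SaDef: stage 1 (tori as walls, the region moves): definitions
-/

open Classical

noncomputable section

namespace MOT

variable {V : Type} {G : SimpleGraph V}

/-- a symmetric cochain which is a cocycle on every clique not contained in `B` -/
structure CocO (G : SimpleGraph V) (B : Set V) (w : V → V → ZMod 2) : Prop where
  symm : ∀ x y, w x y = w y x
  zero : ∀ x, w x x = 0
  coc : ∀ s : Cq G, s ∉ mi G B → ∀ x ∈ s.1, ∀ y ∈ s.1, ∀ z ∈ s.1, w x y + w y z = w x z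

/-- `w` is the coboundary of `u` on every clique not contained in `B` -/
def CobO (G : SimpleGraph V) (B : Set V) (w : V → V → ZMod 2) (u : V → ZMod 2) : Prop :=
  ∀ s : Cq G, s ∉ mi G B → ∀ x ∈ s.1, ∀ y ∈ s.1, w x y = u x + u y

/-- pull back of a cochain to `sd` along `pk` -/
def pw (G : SimpleGraph V) (w : V → V → ZMod 2) : Cq G → Cq G → ZMod 2 :=
  fun s t => w (pk s) (pk t)

/-- linear combination of cochains -/
def lc {E : Type} [Fintype E] (A : E → ZMod 2) (w : E → V → V → ZMod 2) : V → V → ZMod 2 :=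
  fun x y => ∑ e, A e * w e x y

/-- a family of classes on the complement of `Bs`, with relations `C`, detected on `B` -/
structure Fam (G : SimpleGraph V) (B Bs : Set V) {E : Type} [Fintype E]
    (C : Submodule (ZMod 2) (E → ZMod 2)) (w : E → V → V → ZMod 2) : Prop where
  coc : ∀ e, CocO G Bs (w e)
  ker : ∀ A : E → ZMod 2, Triv G B (lc A w) → A ∈ C
  rel : ∀ A ∈ C, ∃ u : V → ZMod 2, CobO G Bs (lc A w) u

/-- dimension of the quotient by the relations -/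
def fq {E : Type} (C : Submodule (ZMod 2) (E → ZMod 2)) : ℕ :=
  Module.finrank (ZMod 2) ((E → ZMod 2) ⧸ C)

/-- admissible regions -/
structure Adm (G : SimpleGraph V) (B Bs M : Set V) (r : ℕ) : Prop where
  cM : Conn G M
  cN : Conn G Mᶜ
  hB : B ⊆ M
  hBs : Bs ⊆ Mᶜ
  hb : bb G M ≤ r

/-- the objects of stage 1 at one level: tori `T e`, zones `We e` around them, sides `P`, `N` of the
wall `⋃ T e`, deep cores `B`, `Bs`, marked loops `Cm e`, `Cp e`, neighbourhoods `Nv v`, zone `Zt` of the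
curves on the wall, cochains -/
structure Tor (V : Type) (Vc Ec Fc : Type) where
  T : Ec → Set V
  We : Ec → Set V
  Cm : Ec → Set V
  Cp : Ec → Set V
  P : Set V
  N : Set V
  B : Set V
  Bs : Set V
  Nv : Vc → Set V
  Zt : Set V
  we : Ec → V → V → ZMod 2
  ws : Fc → V → V → ZMod 2

variable {Vc Ec Fc : Type}

/-- the wall -/
def Tor.Q (X : Tor V Vc Ec Fc) : Set V := ⋃ e, X.T e

/-- the same objects one level later -/
def Tor.sd (G : SimpleGraph V) (X : Tor V Vc Ec Fc) : Tor (Cq G) Vc Ec Fc where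
  T e := mi G (X.T e)
  We e := pl G (X.We e)
  Cm e := mi G (X.Cm e)
  Cp e := mi G (X.Cp e)
  P := sdp G X.Q X.P
  N := sdp G X.Q X.N
  B := mi G X.B
  Bs := mi G X.Bs
  Nv v := pl G (X.Nv v)
  Zt := mi G X.Zt
  we e := pw G (X.we e)
  ws s := pw G (X.ws s)

/-- the objects `k` levels later -/
def torN (K : Lv) (n : ℕ) (X : Tor (tw K n).V Vc Ec Fc) :
    (k : ℕ) → Tor (tw K (n + k)).V Vc Ec Fc
  | 0 => X
  | k + 1 => (torN K n X k).sd (tw K (n + k)).G

/-- static hypotheses of stage 1; `inc v e` means that `v` is an end of `e` -/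
structure TorOK (G : SimpleGraph V) [Fintype Ec] [Fintype Fc] (X : Tor V Vc Ec Fc)
    (inc : Vc → Ec → Prop) (C : Submodule (ZMod 2) (Ec → ZMod 2))
    (C' : Submodule (ZMod 2) (Fc → ZMod 2)) : Prop where
  sph : IsSph3 G
  wall : Wall G X.Q X.P X.N
  cT : ∀ e, Conn G (X.T e)
  bT : ∀ e, b1 G (X.T e) ≤ 2
  dT : ∀ e e', e ≠ e' → Disjoint (X.T e) (X.T e') ∧ NAdj G (X.T e) (X.T e')
  cB : Conn G X.B
  cBs : Conn G X.Bs
  QB : Disjoint X.Q X.B
  QBs : Disjoint X.Q X.Bs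
  fam : Fam G X.B X.Bs C X.we
  fams : Fam G X.Bs X.B C' X.ws
  cCm : ∀ e, Conn G (X.Cm e)
  cCp : ∀ e, Conn G (X.Cp e)
  CmT : ∀ e, X.Cm e ⊆ X.T e
  CpT : ∀ e, X.Cp e ⊆ X.T e
  round : ∀ e, ∀ a ∈ Z1 G (X.T e), (Triv G (X.Cm e) a ↔ Triv G (X.Cp e) a)
  odd : ∀ e, ∃ s, ¬ Triv G (X.Cm e) (X.ws s)
  W1 : ∀ e, X.T e ⊆ X.We e
  W2 : X.N ⊆ ⋃ e, X.We e
  W3 : ∀ v e, inc v e → X.We e ⊆ X.Nv v
  W4 : ∀ v e, ∀ s : Cq G, s ∈ pl G (X.We e) → s ∈ pl G (X.Nv v) → inc v e
  W5 : ∀ e e', ∀ s : Cq G, s ∈ pl G (X.We e) → s ∈ pl G (X.We e') → e = e'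

/-- outside part of the frontier of `M` (mixed simplices not in `N ∪ Q`) -/
def Out (G : SimpleGraph V) (Q P M : Set V) : Set (Cq G) := Fr G M ∩ sdp G Q P

/-- `lam` is locally constant on `Out`, and labels are near -/
structure LabO (G : SimpleGraph V) (Q P M : Set V) (Nv : Vc → Set V) (lam : Cq G → Vc) : Prop where
  const : ∀ s t : Cq G, s ≤ t → s ∈ Out G Q P M → t ∈ Out G Q P M → lam s = lam t
  near : ∀ s ∈ Out G Q P M, s ∈ pl G (Nv (lam s))

/-- invariants of the moving region in stage 1 -/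
structure S1Inv (G : SimpleGraph V) (X : Tor V Vc Ec Fc)
    (C : Submodule (ZMod 2) (Ec → ZMod 2)) (C' : Submodule (ZMod 2) (Fc → ZMod 2))
    (M : Set V) (lam : Cq G → Vc) : Prop where
  adm : Adm G X.B X.Bs M (fq C + fq C')
  cm : ∀ e, X.Cm e ⊆ M
  cp : ∀ e, X.Cp e ⊆ Mᶜ
  lab : LabO G X.Q X.P M X.Nv lam
  crc : FrIn G X.Q M ⊆ mi G X.Zt

end MOT
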