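import Pool.Agent.MOT.SaC

/-!
# MOT/SaF: lower bound for `b1` from a detected family of classes; spanning
-/

open Classical

noncomputable section

namespace MOT

variable {V : Type} {G : SimpleGraph V} {B Bs M : Set V} {E : Type} [Fintype E]
  {C : Submodule (ZMod 2) (E → ZMod 2)} {w : E → V → V → ZMod 2}

private theorem lc_add19 (A A' : E → ZMod 2) : lc (A + A') w = lc A w + lc A' w := by
  funext x y
  simp only [lc, Pi.add_apply, add_mul, Finset.sum_add_distrib]

private theorem lc_smul19 (c : ZMod 2) (A : E → ZMod 2) : lc (c • A) w = c • lc A w := by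
  funext x y
  simp only [lc, Pi.smul_apply, smul_eq_mul, mul_assoc, Finset.mul_sum]

private theorem fun_two19 (a : V → V → ZMod 2) : a + a = 0 := by
  funext x y
  exact two_add _

/-- the linear map to the cocycles of `M` -/
private def fm19 (h : Fam G B Bs C w) (hd : Disjoint M Bs) : (E → ZMod 2) →ₗ[ZMod 2] (Z1 G M) where
  toFun := fun A => ⟨rs G M (lc A w), (lc_symm A h.coc).rs_mem hd⟩
  map_add' := by
    intro A A'
    ext x y
    simp only [lc_add19, Submodule.coe_add, rs, Pi.add_apply]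
    split_ifs <;> simp
  map_smul' := by
    intro c A
    ext x y
    simp only [lc_smul19, Submodule.coe_smul, rs, Pi.smul_apply, RingHom.id_apply]
    split_ifs <;> simp

private theorem triv_iff19 (h : Fam G B Bs C w) (hB : B ⊆ M) (hd : Disjoint M Bs)
    (A : E → ZMod 2) : Triv G M (lc A w) ↔ A ∈ C := by
  constructor
  · intro t
    exact h.ker A (t.mono hB)
  · intro hA
    obtain ⟨u, hu⟩ := h.rel A hA
    exact hu.triv hd

/-- the linear map to `H^1(M)` -/
private def hm19 (h : Fam G B Bs C w) (hd : Disjoint M Bs) :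
    (E → ZMod 2) →ₗ[ZMod 2] ((Z1 G M) ⧸ (K1 G M M).comap (Z1 G M).subtype) :=
  (Submodule.mkQ _).comp (fm19 h hd)

private theorem ker_hm19 (h : Fam G B Bs C w) (hB : B ⊆ M) (hd : Disjoint M Bs) :
    LinearMap.ker (hm19 h hd) = C := by
  ext A
  rw [← triv_iff19 h hB hd A, ← Triv_rs, LinearMap.mem_ker]
  have e : hm19 h hd A = Submodule.Quotient.mk (fm19 h hd A) := rfl
  rw [e, Submodule.Quotient.mk_eq_zero]
  simp only [Submodule.mem_comap, Submodule.subtype_apply, mem_K1]
  constructor
  · rintro ⟨_, t⟩; exact t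
  · intro t; exact ⟨(fm19 h hd A).2, t⟩

private theorem rank_hm19 (h : Fam G B Bs C w) (hB : B ⊆ M) (hd : Disjoint M Bs) :
    fq C = Module.finrank (ZMod 2) (LinearMap.range (hm19 h hd)) := by
  exact LinearEquiv.finrank_eq ((Submodule.quotEquivOfEq _ _ (ker_hm19 h hB hd).symm).trans
    (LinearMap.quotKerEquivRange (hm19 h hd)))

/-- (LB).  Sketch: the linear map `(E → F_2) → H^1(M)`, `a ↦ [rs G M (lc a w)]`, has its kernel in
`C` (restrict to `B`), so `fq C ≤ rank ≤ b1`. -/
theorem Fam.le [Finite V] (h : Fam G B Bs C w) (hB : B ⊆ M) (hd : Disjoint M Bs) :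
    fq C ≤ b1 G M := by
  rw [rank_hm19 h hB hd]
  exact Submodule.finrank_le _

/-- if `b1 G M ≤ fq C` the family spans `H^1(M)` -/
theorem Fam.span [Finite V] (h : Fam G B Bs C w) (hB : B ⊆ M) (hd : Disjoint M Bs)
    (hb : b1 G M ≤ fq C) {a : V → V → ZMod 2} (ha : a ∈ Z1 G M) :
    ∃ A : E → ZMod 2, Triv G M (a + lc A w) := by
  have htop : LinearMap.range (hm19 h hd) = ⊤ := by
    refine Submodule.eq_top_of_finrank_eq (le_antisymm (Submodule.finrank_le _) ?_)
    rw [← rank_hm19 h hB hd]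
    exact hb
  have hmem : (Submodule.Quotient.mk (⟨a, ha⟩ : Z1 G M) :
      (Z1 G M) ⧸ (K1 G M M).comap (Z1 G M).subtype) ∈ LinearMap.range (hm19 h hd) := by
    rw [htop]; trivial
  obtain ⟨A, hA⟩ := hmem
  refine ⟨A, ?_⟩
  have e : hm19 h hd A = Submodule.Quotient.mk (fm19 h hd A) := rfl
  rw [e, Submodule.Quotient.eq] at hA
  have t : Triv G M ((fm19 h hd A).1 - a) := hA.2
  refine t.congr fun x y exy => ?_
  have e2 : (fm19 h hd A).1 x y = lc A w x y := rs_apply exy
  simp only [Pi.sub_apply, Pi.add_apply, e2, CharTwo.sub_eq_add]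
  rw [add_comm]

/-- ... and `H^1(M) → H^1(B)` is injective.  Sketch: `a` is `lc A w` up to a coboundary; trivial on `B`
gives `A ∈ C`, `rel` gives triviality on `M`. -/
theorem Fam.inj [Finite V] (h : Fam G B Bs C w) (hB : B ⊆ M) (hd : Disjoint M Bs)
    (hb : b1 G M ≤ fq C) : Inj G M B := by
  intro a ha ht
  obtain ⟨A, hA⟩ := h.span hB hd hb ha
  have h1 : Triv G B (lc A w) := by
    have := ht.add (hA.mono hB)
    rwa [← add_assoc, fun_two19, zero_add] at this
  have h2 : Triv G M (lc A w) := (triv_iff19 h hB hd A).2 (h.ker A h1)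
  have h3 := hA.add h2
  rwa [add_assoc, fun_two19, add_zero] at h3

/-- a combination is trivial on `M` iff it is a relation -/
theorem Fam.triv_iff (h : Fam G B Bs C w) (hB : B ⊆ M) (hd : Disjoint M Bs) (A : E → ZMod 2) :
    Triv G M (lc A w) ↔ A ∈ C :=
  triv_iff19 h hB hd A

end MOT
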