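import Pool.Agent.MOT.SaG
import Pool.Agent.MOT.SaI
import Pool.Agent.MOT.Dua

/-!
# MOT/SaS: `Start1` gives the input of stage 1 (one level later, region `pl M0`)
-/

open Classical

noncomputable section

namespace MOT

variable {Vc V : Type} {Gc : SimpleGraph Vc} {G : SimpleGraph V}

/-- the union of the solid tori -/
def Start1.W (S : Start1 Gc G) : Set V := ⋃ e, S.Wt e

/-- the objects of stage 1 on the level of `sd G` -/
def torS (S : Start1 Gc G) : Tor (Cq G) Vc (Ec Gc) (Fc Gc) where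
  T e := Fr G (S.Wt e)
  We e := pl G (S.Wt e)
  Cm e := S.Cm e
  Cp e := S.Cp e
  P := mi G S.Wᶜ
  N := mi G S.W
  B := mi G S.BL
  Bs := mi G S.BsL
  Nv v := pl G (S.Om v ∪ {x | ∃ e : Ec Gc, v ∈ e.1 ∧ x ∈ S.Wt e})
  Zt := {s | ∃ t : Cq G, s ≤ t ∧ t ∈ Fr G S.M0 ∧ ∃ e, t ∈ Fr G (S.Wt e)}
  we e := pw G (S.we e)
  ws s := pw G (S.ws s)

theorem cmb_eq_lc {I : Type} [Fintype I] (A : I → ZMod 2) (w : I → V → V → ZMod 2) :
    cmb A w = lc A w := by
  funext x y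
  exact finsum_eq_sum_of_fintype _

theorem Coc.CocO {B : Set V} {w : V → V → ZMod 2} (h : Coc G B w) : CocO G B w :=
  ⟨h.sym, h.dia, fun s hs x hx y hy z hz =>
    h.coc (s.1 : Set V) s.2.2 (fun hsub => hs fun v hv => hsub hv) x hx y hy z hz⟩

/-- two vertices of a simplex are in the same solid torus -/
private theorem same_e_h75 (S : Start1 Gc G) {s : Cq G} {x y : V} (hx : x ∈ s.1) (hy : y ∈ s.1)
    {e e' : Ec Gc} (hxe : x ∈ S.Wt e) (hye : y ∈ S.Wt e') : e = e' := by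
  by_contra hne
  obtain ⟨hd, hn⟩ := S.Wt_dis e e' hne
  have hxy : x ≠ y := by
    rintro rfl
    exact Set.disjoint_left.1 hd hxe hye
  exact hn x hxe y hye (s.2.2 hx hy hxy)

/-- the frontier of the union of the solid tori -/
theorem torS_Q (S : Start1 Gc G) : (torS S).Q = Fr G S.W := by
  ext s
  constructor
  · intro hs
    obtain ⟨e, ⟨x, hx, hxe⟩, y, hy, hye⟩ := Set.mem_iUnion.1 hs
    refine ⟨⟨x, hx, Set.mem_iUnion.2 ⟨e, hxe⟩⟩, y, hy, fun h => ?_⟩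
    obtain ⟨e', he'⟩ := Set.mem_iUnion.1 h
    have := same_e_h75 S hx hy hxe he'
    subst this
    exact hye he'
  · rintro ⟨⟨x, hx, hxW⟩, y, hy, hyW⟩
    obtain ⟨e, he⟩ := Set.mem_iUnion.1 hxW
    exact Set.mem_iUnion.2 ⟨e, ⟨x, hx, he⟩, y, hy, fun h => hyW (Set.mem_iUnion.2 ⟨e, h⟩)⟩

private theorem mi_mem_h75 {B : Set V} {s : Cq G} (h : s ∉ mi G B) : ¬ (s.1 : Set V) ⊆ B :=
  fun hsub => h fun v hv => hsub hv

private theorem Coc_mono_h75 {B B' : Set V} {w : V → V → ZMod 2} (h : CocO G B w) (hB : B ⊆ B') :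
    CocO G B' w :=
  ⟨h.symm, h.zero, fun s hs => h.coc s fun hm => hs (mi_mono hB hm)⟩

theorem start_fam [Finite Vc] [Fintype (Ec Gc)] (S : Start1 Gc G) :
    Fam G S.B S.Bs (cutE Gc) S.we := by
  refine ⟨fun e => Coc_mono_h75 (S.we_coc e).CocO fun x hx => (S.Bde_sub e x hx).1,
    fun A hA => S.lb_e A (by rw [cmb_eq_lc]; exact hA), ?_⟩
  rintro A ⟨f, hf⟩
  refine ⟨fun x => f (S.top x), fun s hs x hx y hy => ?_⟩
  obtain ⟨v, w, hvw, hall⟩ := S.top_cl (s.1 : Set V) s.2.2 (mi_mem_h75 hs)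
  have hval : lc A S.we x y = ∑ e : Ec Gc, A e *
      (if S.top x ≠ S.top y ∧ S.top x ∈ e.1 ∧ S.top y ∈ e.1 then 1 else 0) := by
    refine Finset.sum_congr rfl fun e _ => ?_
    rw [S.we_def e (s.1 : Set V) s.2.2 (mi_mem_h75 hs) x hx y hy]
  rw [hval]
  by_cases hne : S.top x = S.top y
  · have h0 : ∀ e : Ec Gc, A e *
        (if S.top x ≠ S.top y ∧ S.top x ∈ e.1 ∧ S.top y ∈ e.1 then (1 : ZMod 2) else 0) = 0 := by
      intro e
      rw [if_neg fun h => h.1 hne, mul_zero]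
    rw [Finset.sum_congr rfl fun e _ => h0 e, Finset.sum_const_zero]
    simp only [hne, two_add]
  · have hadj : Gc.Adj (S.top x) (S.top y) := by
      rcases hall x hx with h1 | h1 <;> rcases hall y hy with h2 | h2
      · exact absurd (h1.trans h2.symm) hne
      · rw [h1, h2]
        rcases hvw with h3 | h3
        · exact absurd (h1.trans (h3.trans h2.symm)) hne
        · exact h3
      · rw [h1, h2]
        rcases hvw with h3 | h3
        · exact absurd (h1.trans (h3.symm.trans h2.symm)) hne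
        · exact h3.symm
      · exact absurd (h1.trans h2.symm) hne
    let e1 : Ec Gc := ⟨{S.top x, S.top y}, Finset.card_pair hne, by
      rw [Finset.coe_pair, SimpleGraph.isClique_pair]; exact fun _ => hadj⟩
    rw [Finset.sum_eq_single e1]
    · rw [if_pos ⟨hne, by simp [e1], by simp [e1]⟩, mul_one]
      exact hf e1 _ _ hne (by simp [e1]) (by simp [e1])
    · intro e _ hee
      rw [if_neg, mul_zero]
      rintro ⟨-, h1, h2⟩
      apply hee
      refine Subtype.ext (Finset.eq_of_subset_of_card_le ?_ ?_).symm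
      · rw [Finset.insert_subset_iff, Finset.singleton_subset_iff]
        exact ⟨h1, h2⟩
      · rw [e.2.1, Finset.card_pair hne]
    · intro h
      exact absurd (Finset.mem_univ _) h

theorem start_fams (hc : IsSph3 Gc) [Finite Vc] [Fintype (Fc Gc)] (S : Start1 Gc G) :
    Fam G S.Bs S.B (cutF Gc) S.ws := by
  refine ⟨fun e => Coc_mono_h75 (S.ws_coc e).CocO fun x hx => (S.Bd_sub e x hx).1,
    fun A hA => S.lb_s A (by rw [cmb_eq_lc]; exact hA), ?_⟩
  rintro A ⟨f, hf⟩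
  refine ⟨fun x => if h : IsTet Gc (S.tt x) then f ⟨S.tt x, h⟩ else 0, fun s hs x hx y hy => ?_⟩
  obtain ⟨v, w, hvw, hall⟩ := S.tt_cl (s.1 : Set V) s.2.2 (mi_mem_h75 hs)
  have hval : lc A S.ws x y = ∑ e : Fc Gc, A e *
      (if S.tt x ≠ S.tt y ∧ e.1 ⊆ S.tt x ∧ e.1 ⊆ S.tt y then 1 else 0) := by
    refine Finset.sum_congr rfl fun e _ => ?_
    rw [S.ws_def e (s.1 : Set V) s.2.2 (mi_mem_h75 hs) x hx y hy]
  have htx : IsTet Gc (S.tt x) := by
    rcases hall x hx with h | h <;> rw [h]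
    · exact v.2
    · exact w.2
  have hty : IsTet Gc (S.tt y) := by
    rcases hall y hy with h | h <;> rw [h]
    · exact v.2
    · exact w.2
  simp only [dif_pos htx, dif_pos hty]
  rw [hval]
  by_cases hne : S.tt x = S.tt y
  · have h0 : ∀ e : Fc Gc, A e *
        (if S.tt x ≠ S.tt y ∧ e.1 ⊆ S.tt x ∧ e.1 ⊆ S.tt y then (1 : ZMod 2) else 0) = 0 := by
      intro e
      rw [if_neg fun h => h.1 hne, mul_zero]
    have h1 : (⟨S.tt x, htx⟩ : Te Gc) = ⟨S.tt y, hty⟩ := Subtype.ext hne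
    rw [Finset.sum_congr rfl fun e _ => h0 e, Finset.sum_const_zero, h1, two_add]
  · have hadj : TAdj (S.tt x) (S.tt y) := by
      refine ⟨hne, ?_⟩
      rcases hall x hx with h1 | h1 <;> rcases hall y hy with h2 | h2
      · exact absurd (h1.trans h2.symm) hne
      · rw [h1, h2]
        rcases hvw with h3 | h3
        · exact absurd (h1.trans ((congrArg Subtype.val h3).trans h2.symm)) hne
        · exact h3.2
      · rw [h1, h2]
        rcases hvw with h3 | h3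
        · exact absurd (h1.trans ((congrArg Subtype.val h3).symm.trans h2.symm)) hne
        · rw [Finset.inter_comm]; exact h3.2
      · exact absurd (h1.trans h2.symm) hne
    let e1 : Fc Gc := ⟨S.tt x ∩ S.tt y, hadj.2, by
      refine htx.2.subset ?_
      intro z hz
      exact (Finset.mem_inter.1 hz).1⟩
    have he1 : e1.1 ⊆ S.tt x := Finset.inter_subset_left
    have he2 : e1.1 ⊆ S.tt y := Finset.inter_subset_right
    rw [Finset.sum_eq_single e1]
    · rw [if_pos ⟨hne, he1, he2⟩, mul_one]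
      exact hf e1 _ _ (fun h => hne (congrArg Subtype.val h)) he1 he2
    · intro e _ hee
      rw [if_neg, mul_zero]
      rintro ⟨-, h1, h2⟩
      apply hee
      refine Subtype.ext (Finset.eq_of_subset_of_card_le (Finset.subset_inter h1 h2) ?_)
      rw [e.2.1]
      exact hadj.2.le
    · intro h
      exact absurd (Finset.mem_univ _) h

/-- larger cores -/
theorem Fam.cores {E : Type} [Fintype E] {C : Submodule (ZMod 2) (E → ZMod 2)} {B Bs B' Bs' : Set V}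
    {w : E → V → V → ZMod 2} (h : Fam G B Bs C w) (hB : B ⊆ B') (hBs : Bs ⊆ Bs') :
    Fam G B' Bs' C w where
  coc e := Coc_mono_h75 (h.coc e) hBs
  ker A hA := h.ker A (hA.mono hB)
  rel A hA := by
    obtain ⟨u, hu⟩ := h.rel A hA
    exact ⟨u, fun s hs => hu s fun hm => hs (mi_mono hBs hm)⟩

/-- static hypotheses.  `hO`: a vertex in `Om v ∩ Wt e` has `v ∈ e`.
(`Fr_wall`, `Fr_Conn`, `b1_Fr`, `Fr_union`, `Fam.sd`, `Ec.tri`.) -/
theorem start_ok (hc : IsSph3 Gc) (hG : IsSph3 G) [Finite Vc] [Finite V] [Fintype (Ec Gc)]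
    [Fintype (Fc Gc)] (S : Start1 Gc G) (hO : ∀ v e x, x ∈ S.Om v → x ∈ S.Wt e → v ∈ e.1) :
    TorOK (sd G) (torS S) (fun v e => v ∈ e.1) (cutE Gc) (cutF Gc) where
  sph := sd_sph3 hG
  wall := by
    rw [torS_Q]
    exact Fr_wall hG
  cT e := Fr_Conn hG (S.Wt_c e) (S.Wt_cc e)
  bT e := by
    change b1 (sd G) (Fr G (S.Wt e)) ≤ 2
    rw [b1_Fr hG]
    exact S.Wt_bb e
  dT e e' hne := by
    obtain ⟨hd, hn⟩ := S.Wt_dis e e' hne
    exact (Fr_union hd hn).2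
  cB := sd_Conn.2 S.cBL
  cBs := sd_Conn.2 S.cBsL
  QB := by
    refine Set.disjoint_left.2 fun s hs hB => ?_
    obtain ⟨e, ⟨x, hx, hxe⟩, -⟩ := Set.mem_iUnion.1 hs
    exact Set.disjoint_left.1 (S.Wt_B e).1 hxe (hB x hx)
  QBs := by
    refine Set.disjoint_left.2 fun s hs hB => ?_
    obtain ⟨e, ⟨x, hx, hxe⟩, -⟩ := Set.mem_iUnion.1 hs
    exact Set.disjoint_left.1 (S.Wt_Bs e).1 hxe (hB x hx)
  fam := ((start_fam S).cores S.B_BL S.Bs_BsL).sd
  fams := ((start_fams hc S).cores S.Bs_BsL S.B_BL).sd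
  cCm := S.Cm_c
  cCp := S.Cp_c
  CmT := S.Cm_Fr
  CpT := S.Cp_Fr
  round := S.round
  odd e := by
    obtain ⟨s, hs⟩ := Ec.tri hc e
    exact ⟨s, fun h => (S.Cm_ws e s).1 h hs⟩
  W1 e := fun s hs => hs.1
  W2 := by
    intro s hs
    obtain ⟨x, hx⟩ := s.2.1
    obtain ⟨e, he⟩ := Set.mem_iUnion.1 (hs x hx)
    exact Set.mem_iUnion.2 ⟨e, x, hx, he⟩
  W3 v e h := pl_mono fun x hx => Or.inr ⟨e, h, hx⟩
  W4 v e s hs hs' := by
    obtain ⟨x, hx, hxe⟩ := pl_pl hs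
    obtain ⟨y, hy, hye⟩ := pl_pl hs'
    rcases hye with hye | ⟨e', hve', hye⟩
    · by_cases hxy : y = x
      · subst hxy
        exact hO v e y hye hxe
      · exact S.loc1 v e y x hye hxe (Or.inr ((mx s).2.2 hy hx hxy))
    · have := same_e_h75 S hx hy hxe hye
      subst this
      exact hve'
  W5 e e' s hs hs' := by
    obtain ⟨x, hx, hxe⟩ := pl_pl hs
    obtain ⟨y, hy, hye⟩ := pl_pl hs'
    exact same_e_h75 S hx hy hxe hye

theorem start_adm (hc : IsSph3 Gc) [Finite Vc] [Finite V] (S : Start1 Gc G) :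
    Adm (sd G) (torS S).B (torS S).Bs (pl G S.M0) (fq (cutE Gc) + fq (cutF Gc)) where
  cM := (bt_Conn mi_sub_pl subset_rfl).2 S.M0_c
  cN := by
    rw [compl_pl]
    exact sd_Conn.2 S.M0_cc
  hB := (mi_mono S.M0_B).trans mi_sub_pl
  hBs := by
    rw [compl_pl]
    exact mi_mono fun x hx hM => Set.disjoint_left.1 S.M0_Bs hM hx
  hb := by
    rw [bt_bb (M := S.M0) mi_sub_pl subset_rfl]
    have h1 := fq_cutE hc
    have h2 := fq_cutF hc
    have h3 := S.M0_bb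
    omega

/-- labels at the start.  Sketch: `c ∈ Out`: the least element `s` of the chain `c` misses `W`, and the
greatest is mixed for `M0`, so by `loc0` every vertex of `s` is in some `Om v`, the same `v` for all
(`Om_dis`); `lam c := v`. -/
theorem start_lab (hc : IsSph3 Gc) [Finite V] (S : Start1 Gc G) : ∃ lam : Cq (sd G) → Vc,
    LabO (sd G) (torS S).Q (torS S).P (pl G S.M0) (torS S).Nv lam := by
  obtain ⟨v0, -⟩ := hc.conn.1
  have hex : ∀ c : Cq (sd G), c ∈ Out (sd G) (torS S).Q (torS S).P (pl G S.M0) →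
      ∃ v, ∃ s ∈ c.1, (∀ t ∈ c.1, s ≤ t) ∧ ∃ x ∈ s.1, x ∈ S.Om v := by
    rintro c ⟨⟨⟨s1, hs1, h1⟩, s2, hs2, h2⟩, ⟨s3, hs3, h3⟩, h4⟩
    obtain ⟨s, hs, hmin⟩ := chain_bot c.1 c.2.2 c.2.1
    obtain ⟨x, hx⟩ := s.2.1
    have hxW : x ∉ S.W := h4 s3 hs3 h3 x (Cq.le_iff.1 (hmin s3 hs3) hx)
    have hmx : (((mx c).1 : Set V) ∩ S.M0).Nonempty := by
      obtain ⟨y, hy, hyM⟩ := h1
      exact ⟨y, Cq.le_iff.1 (le_mx c hs1) hy, hyM⟩
    have hmx' : (((mx c).1 : Set V) \ S.M0).Nonempty := by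
      obtain ⟨y, hy⟩ := s2.2.1
      exact ⟨y, Cq.le_iff.1 (le_mx c hs2) hy, fun hyM => h2 ⟨y, hy, hyM⟩⟩
    rcases S.loc0 ((mx c).1 : Set V) (mx c).2.2 hmx hmx' x (Cq.le_iff.1 (le_mx c hs) hx) with
      ⟨e, he⟩ | ⟨v, hv⟩
    · exact absurd (Set.mem_iUnion.2 ⟨e, he⟩) hxW
    · exact ⟨v, s, hs, hmin, x, hx, hv⟩
  let lam : Cq (sd G) → Vc := fun c =>
    if h : ∃ v, ∃ s ∈ c.1, (∀ t ∈ c.1, s ≤ t) ∧ ∃ x ∈ s.1, x ∈ S.Om v then h.choose else v0
  have hlam : ∀ c : Cq (sd G), c ∈ Out (sd G) (torS S).Q (torS S).P (pl G S.M0) →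
      ∃ s ∈ c.1, (∀ t ∈ c.1, s ≤ t) ∧ ∃ x ∈ s.1, x ∈ S.Om (lam c) := by
    intro c hco
    have h := hex c hco
    have e : lam c = h.choose := dif_pos h
    rw [e]
    exact h.choose_spec
  refine ⟨lam, ⟨fun c c' hcc hco hco' => ?_, fun c hco => ?_⟩⟩
  · obtain ⟨s, hs, hmin, x, hx, hxv⟩ := hlam c hco
    obtain ⟨s', hs', hmin', x', hx', hxv'⟩ := hlam c' hco'
    have hle : s' ≤ s := hmin' s (Cq.le_iff.1 hcc hs)
    have hx'' : x' ∈ s.1 := Cq.le_iff.1 hle hx'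
    by_contra hne
    obtain ⟨hd, hn⟩ := S.Om_dis _ _ hne
    have hxx : x ≠ x' := by
      rintro rfl
      exact Set.disjoint_left.1 hd hxv hxv'
    exact hn x hxv x' hxv' (s.2.2 hx hx'' hxx)
  · obtain ⟨s, hs, hmin, x, hx, hxv⟩ := hlam c hco
    exact ⟨s, hs, x, hx, Or.inl hxv⟩

/-- the curves: a chain of mixed simplices of the tori which is mixed for `pl M0` has its greatest element
mixed for `M0` -/
theorem start_crc (S : Start1 Gc G) :
    FrIn (sd G) (torS S).Q (pl G S.M0) ⊆ mi (sd G) (torS S).Zt := by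
  rintro c ⟨⟨hQ, s1, hs1, h1⟩, s2, hs2, h2⟩ s hs
  refine ⟨mx c, le_mx c hs, ⟨?_, ?_⟩, ?_⟩
  · obtain ⟨y, hy, hyM⟩ := h1
    exact ⟨y, Cq.le_iff.1 (le_mx c hs1) hy, hyM⟩
  · obtain ⟨y, hy⟩ := s2.2.1
    exact ⟨y, Cq.le_iff.1 (le_mx c hs2) hy, fun hyM => h2 ⟨y, hy, hyM⟩⟩
  · exact Set.mem_iUnion.1 (hQ (mx c) (mx_mem c))

theorem start_inv (hc : IsSph3 Gc) [Finite Vc] [Finite V] (S : Start1 Gc G) :
    ∃ lam : Cq (sd G) → Vc, S1Inv (sd G) (torS S) (cutE Gc) (cutF Gc) (pl G S.M0) lam := by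
  obtain ⟨lam, hl⟩ := start_lab hc S
  exact ⟨lam, start_adm hc S, S.Cm_M, fun e x hx hM => Set.disjoint_left.1 (S.Cp_M e) hx hM,
    hl, start_crc S⟩

end MOT
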