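import Pool.Agent.MOT.SbDef

/-!
# MOT/Sba: structure theorem, part 1: crossing cochains and potentials
-/

open Classical

noncomputable section

namespace MOT

variable {V : Type} {G : SimpleGraph V} {A Bc : Type} [Fintype Bc] {e1 e2 : Bc → A} {M : Set V}
  {U : Bc → Set V} {D : Bc → Set (Cq G)} {Lv : A → Set V} {Le : Bc → Set V} {top : V → A}

private theorem gam_iff {D : Set (Cq G)} {x y : V} :
    gam D x y = 1 ↔ ∃ s ∈ D, s.1 = {x, y} := by
  unfold gam
  split_ifs with h
  · exact ⟨fun _ => h, fun _ => rfl⟩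
  · exact ⟨fun h' => absurd h' (by decide), fun h' => absurd h' h⟩

private theorem gam_zero {D : Set (Cq G)} {x y : V} (h : gam D x y ≠ 1) : gam D x y = 0 := by
  have : ∀ a : ZMod 2, a ≠ 1 → a = 0 := by decide
  exact this _ h

private theorem wt_iff {top : V → A} {p q : A} {x y : V} :
    wtt top p q x y = 1 ↔ ({top x, top y} : Set A) = {p, q} := by
  rw [Set.pair_eq_pair_iff]
  unfold wtt
  split_ifs with h
  · exact ⟨fun _ => h, fun _ => rfl⟩
  · exact ⟨fun h' => absurd h' (by decide), fun h' => absurd h' h⟩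

private theorem wt_zero {top : V → A} {p q : A} {x y : V}
    (h : ({top x, top y} : Set A) ≠ {p, q}) : wtt top p q x y = 0 := by
  have : ∀ a : ZMod 2, a ≠ 1 → a = 0 := by decide
  exact this _ fun h' => h (wt_iff.1 h')

theorem gam_symm {D : Set (Cq G)} (x y : V) : gam D x y = gam D y x := by
  unfold gam
  rw [Finset.pair_comm]

private theorem D_sub (h : StrIn G e1 e2 M U D Lv Le top) {b : Bc} {s : Cq G} (hs : s ∈ D b) :
    s ∈ mi G M ∩ Fr G (U b) := by
  obtain ⟨x, hx, e⟩ := h.Dc b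
  rw [e] at hs
  exact hs.2

private theorem D_cl (h : StrIn G e1 e2 M U D Lv Le top) {b : Bc} {s t : Cq G} (hs : s ∈ D b)
    (ht : t ∈ mi G M ∩ Fr G (U b)) (hst : s ≤ t ∨ t ≤ s) : t ∈ D b := by
  by_cases he : s = t
  · rw [← he]; exact hs
  have hs' := D_sub h hs
  have hadj : (sd G).Adj s t := by
    rcases hst with h1 | h1
    · exact Or.inl (lt_of_le_of_ne h1 he)
    · exact Or.inr (lt_of_le_of_ne h1 (Ne.symm he))
  obtain ⟨x, hx, e⟩ := h.Dc b
  rw [e] at hs ⊢
  exact ⟨hs.1.tail ⟨hadj, hs', ht⟩, ht⟩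

/-- an edge inside `M` which is mixed for `U b` and lies in a clique of `D b` is in `D b` -/
theorem StrIn.edge_mem (h : StrIn G e1 e2 M U D Lv Le top) {b : Bc} {s : Cq G} (hs : s ∈ D b)
    {x y : V} (hx : x ∈ s.1) (hy : y ∈ s.1) (hxU : x ∈ U b) (hyU : y ∉ U b) :
    gam (D b) x y = 1 := by
  have hs' := D_sub h hs
  have hne : x ≠ y := fun e => hyU (e ▸ hxU)
  have hadj : G.Adj x y := s.2.2 (Finset.mem_coe.2 hx) (Finset.mem_coe.2 hy) hne
  refine gam_iff.2 ⟨eg G hadj, ?_, rfl⟩
  have hsub : (eg G hadj).1 ⊆ s.1 := by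
    intro z hz
    have h1 : z = x ∨ z = y := by simpa [eg] using hz
    rcases h1 with rfl | rfl
    · exact hx
    · exact hy
  refine D_cl h hs ⟨fun z hz => hs'.1 z (hsub hz), ⟨x, by simp [eg], hxU⟩, ⟨y, by simp [eg], hyU⟩⟩
    (Or.inr (Cq.le_iff.2 hsub))

/-- edges in `D b` are mixed for `U b` and lie in `M` -/
theorem StrIn.gam_one (h : StrIn G e1 e2 M U D Lv Le top) {b : Bc} {x y : V}
    (hg : gam (D b) x y = 1) : EIn G M x y ∧ ((x ∈ U b ∧ y ∉ U b) ∨ (x ∉ U b ∧ y ∈ U b)) := by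
  obtain ⟨s, hs, he⟩ := gam_iff.1 hg
  obtain ⟨h1, ⟨u, hu, huU⟩, ⟨v, hv, hvU⟩⟩ := D_sub h hs
  have hxs : x ∈ s.1 := by rw [he]; simp
  have hys : y ∈ s.1 := by rw [he]; simp
  have hmix : (x ∈ U b ∧ y ∉ U b) ∨ (x ∉ U b ∧ y ∈ U b) := by
    rw [he, Finset.mem_insert, Finset.mem_singleton] at hu hv
    rcases hu with rfl | rfl <;> rcases hv with rfl | rfl
    · exact absurd huU hvU
    · exact Or.inl ⟨huU, hvU⟩
    · exact Or.inr ⟨hvU, huU⟩
    · exact absurd huU hvU
  have hne : x ≠ y := by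
    rintro rfl
    rcases hmix with ⟨h2, h3⟩ | ⟨h2, h3⟩
    · exact h3 h2
    · exact h2 h3
  exact ⟨⟨s.2.2 (Finset.mem_coe.2 hxs) (Finset.mem_coe.2 hys) hne, h1 x hxs, h1 y hys⟩, hmix⟩

/-- an edge lies in at most one `D b` (the `U b` are far from each other) -/
theorem StrIn.gam_unique (h : StrIn G e1 e2 M U D Lv Le top) {b b' : Bc} {x y : V}
    (hg : gam (D b) x y = 1) (hg' : gam (D b') x y = 1) : b = b' := by
  by_contra hne
  obtain ⟨h1, h2⟩ := h.gam_one hg
  obtain ⟨-, h2'⟩ := h.gam_one hg'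
  obtain ⟨h3, h4⟩ := h.Ud b b' hne
  rw [Set.disjoint_left] at h3
  rcases h2 with ⟨a1, a2⟩ | ⟨a1, a2⟩
  · rcases h2' with ⟨c1, c2⟩ | ⟨c1, c2⟩
    · exact h3 a1 c1
    · exact h4 x a1 y c2 h1.1
  · rcases h2' with ⟨c1, c2⟩ | ⟨c1, c2⟩
    · exact h4 y a2 x c1 h1.1.symm
    · exact h3 a2 c2

private theorem mix_imp (h : StrIn G e1 e2 M U D Lv Le top) {b : Bc} {x y z : V}
    (hxy : EIn G M x y) (hyz : EIn G M y z) (hxz : EIn G M x z)
    (hm : (x ∈ U b ∧ z ∉ U b) ∨ (x ∉ U b ∧ z ∈ U b)) (hg : gam (D b) x y = 1) :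
    gam (D b) x z = 1 := by
  obtain ⟨s, hs, he⟩ := gam_iff.1 hg
  have hcl : G.IsClique (({x, y, z} : Finset V) : Set V) := by
    intro u hu v hv huv
    simp only [Finset.coe_insert, Finset.coe_singleton, Set.mem_insert_iff,
      Set.mem_singleton_iff] at hu hv
    rcases hu with rfl | rfl | rfl <;> rcases hv with rfl | rfl | rfl
    · exact absurd rfl huv
    · exact hxy.1
    · exact hxz.1
    · exact hxy.1.symm
    · exact absurd rfl huv
    · exact hyz.1
    · exact hxz.1.symm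
    · exact hyz.1.symm
    · exact absurd rfl huv
  set t : Cq G := ⟨{x, y, z}, ⟨x, by simp⟩, hcl⟩ with ht
  have hxt : x ∈ t.1 := by simp [ht]
  have hzt : z ∈ t.1 := by simp [ht]
  have htD : t ∈ D b := by
    refine D_cl h hs ⟨?_, ?_⟩ (Or.inl (Cq.le_iff.2 ?_))
    · intro u hu
      have h1 : u = x ∨ u = y ∨ u = z := by simpa [ht] using hu
      rcases h1 with rfl | rfl | rfl
      · exact hxy.2.1
      · exact hxy.2.2
      · exact hxz.2.2
    · rcases hm with ⟨m1, m2⟩ | ⟨m1, m2⟩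
      · exact ⟨⟨x, hxt, m1⟩, ⟨z, hzt, m2⟩⟩
      · exact ⟨⟨z, hzt, m2⟩, ⟨x, hxt, m1⟩⟩
    · rw [he]
      intro u hu
      have h1 : u = x ∨ u = y := by simpa using hu
      rcases h1 with rfl | rfl <;> simp [ht]
  rcases hm with ⟨m1, m2⟩ | ⟨m1, m2⟩
  · exact h.edge_mem htD hxt hzt m1 m2
  · rw [gam_symm]
    exact h.edge_mem htD hzt hxt m2 m1

private theorem mix_eq (h : StrIn G e1 e2 M U D Lv Le top) {b : Bc} {x y z : V}
    (hxy : EIn G M x y) (hyz : EIn G M y z) (hxz : EIn G M x z)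
    (h1 : (x ∈ U b ∧ z ∉ U b) ∨ (x ∉ U b ∧ z ∈ U b))
    (h2 : (x ∈ U b ∧ y ∉ U b) ∨ (x ∉ U b ∧ y ∈ U b)) : gam (D b) x y = gam (D b) x z := by
  by_cases hg : gam (D b) x y = 1
  · rw [hg, mix_imp h hxy hyz hxz h1 hg]
  · by_cases hg' : gam (D b) x z = 1
    · exact absurd (mix_imp h hxz hyz.symm hxy h2 hg') hg
    · rw [gam_zero hg, gam_zero hg']

private theorem gam_same (h : StrIn G e1 e2 M U D Lv Le top) {b : Bc} {x y : V}
    (h1 : x ∈ U b ↔ y ∈ U b) : gam (D b) x y = 0 := by
  refine gam_zero fun hg => ?_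
  rcases (h.gam_one hg).2 with ⟨m1, m2⟩ | ⟨m1, m2⟩
  · exact m2 (h1.1 m1)
  · exact m1 (h1.2 m2)

/-- `gam (D b)` is a cocycle on `M`: a triangle in `M` mixed for `U b` has exactly two mixed edges,
both are in `D b` or none -/
theorem StrIn.gam_coc (h : StrIn G e1 e2 M U D Lv Le top) (b : Bc) {x y z : V}
    (hxy : EIn G M x y) (hyz : EIn G M y z) (hxz : EIn G M x z) :
    gam (D b) x y + gam (D b) y z = gam (D b) x z := by
  by_cases hx : x ∈ U b <;> by_cases hy : y ∈ U b <;> by_cases hz : z ∈ U b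
  · rw [gam_same h (by tauto), gam_same h (by tauto), gam_same h (by tauto), add_zero]
  · rw [gam_same (x := x) (y := y) h (by tauto), zero_add, gam_symm y z, gam_symm x z]
    exact mix_eq h hyz.symm hxy.symm hxz.symm (by tauto) (by tauto)
  · rw [gam_same (x := x) (y := z) h (by tauto), gam_symm x y]
    rw [mix_eq h hxy.symm hxz hyz (by tauto) (by tauto)]
    exact two_add _
  · rw [gam_same (x := y) (y := z) h (by tauto), add_zero]
    exact mix_eq h hxy hyz hxz (by tauto) (by tauto)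
  · rw [gam_same (x := y) (y := z) h (by tauto), add_zero]
    exact mix_eq h hxy hyz hxz (by tauto) (by tauto)
  · rw [gam_same (x := x) (y := z) h (by tauto), gam_symm x y]
    rw [mix_eq h hxy.symm hxz hyz (by tauto) (by tauto)]
    exact two_add _
  · rw [gam_same (x := x) (y := y) h (by tauto), zero_add, gam_symm y z, gam_symm x z]
    exact mix_eq h hyz.symm hxy.symm hxz.symm (by tauto) (by tauto)
  · rw [gam_same h (by tauto), gam_same h (by tauto), gam_same h (by tauto), add_zero]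

/-- `sum over the edges b at a of w b` is the coboundary of `1_(top = a)` on `M` (by `t1`; use `ne`,
`simple`) -/
theorem StrIn.star (h : StrIn G e1 e2 M U D Lv Le top) (a : A) {x y : V} (hxy : EIn G M x y) :
    (∑ b, if a = e1 b ∨ a = e2 b then wtt top (e1 b) (e2 b) x y else 0) =
      (if top x = a then 1 else 0) + (if top y = a then 1 else 0) := by
  by_cases htop : top x = top y
  · rw [htop, two_add]
    refine Finset.sum_eq_zero fun b _ => ?_
    have h1 : wtt top (e1 b) (e2 b) x y = 0 := by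
      refine wt_zero fun h2 => h.ne b ?_
      rw [Set.pair_eq_pair_iff, htop] at h2
      rcases h2 with ⟨m1, m2⟩ | ⟨m1, m2⟩
      · rw [← m1, ← m2]
      · rw [← m1, ← m2]
    rw [h1, ite_self]
  · rcases h.t1 x y hxy with h1 | ⟨b0, hb0⟩
    · exact absurd h1 htop
    · rw [Finset.sum_eq_single b0]
      · rw [wt_iff.2 hb0]
        rw [Set.pair_eq_pair_iff] at hb0
        rcases hb0 with ⟨m1, m2⟩ | ⟨m1, m2⟩
        · rw [m1, m2]
          by_cases c1 : a = e1 b0
          · have c2 : ¬ a = e2 b0 := fun c2 => h.ne b0 (c1.symm.trans c2)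
            rw [if_pos (Or.inl c1), if_pos c1.symm, if_neg fun c3 => c2 c3.symm, add_zero]
          · by_cases c2 : a = e2 b0
            · rw [if_pos (Or.inr c2), if_neg fun c3 => c1 c3.symm, if_pos c2.symm, zero_add]
            · rw [if_neg (by tauto), if_neg fun c3 => c1 c3.symm, if_neg fun c3 => c2 c3.symm,
                add_zero]
        · rw [m1, m2]
          by_cases c1 : a = e1 b0
          · have c2 : ¬ a = e2 b0 := fun c2 => h.ne b0 (c1.symm.trans c2)
            rw [if_pos (Or.inl c1), if_neg fun c3 => c2 c3.symm, if_pos c1.symm, zero_add]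
          · by_cases c2 : a = e2 b0
            · rw [if_pos (Or.inr c2), if_pos c2.symm, if_neg fun c3 => c1 c3.symm, add_zero]
            · rw [if_neg (by tauto), if_neg fun c3 => c2 c3.symm, if_neg fun c3 => c1 c3.symm,
                add_zero]
      · intro b _ hb
        have h1 : wtt top (e1 b) (e2 b) x y = 0 :=
          wt_zero fun h2 => hb (h.simple b b0 (h2.symm.trans hb0))
        rw [h1, ite_self]
      · intro h1
        exact absurd (Finset.mem_univ _) h1

/-- normalised potentials: `gam (D b) + w b = d (p b)` on `M` and `p b = 0` on all `Lv a`.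
Sketch: `p b` is constant on `Le b'`, `b' ≠ b` (no edge of `Le b'` is mixed for `U b`, `w b = 0` there
by `simple`) and on `Lv a`; the constants agree by `graph`; subtract the constant. -/
theorem StrIn.pot (h : StrIn G e1 e2 M U D Lv Le top) :
    ∃ p : Bc → V → ZMod 2, (∀ b x y, EIn G M x y →
      gam (D b) x y + wtt top (e1 b) (e2 b) x y = p b x + p b y) ∧
      ∀ b a, ∀ x ∈ Lv a, p b x = 0 := by
  choose f hf using h.cls
  have hLe : ∀ b b', b' ≠ b → ∀ x ∈ Le b', ∀ y ∈ Le b', f b x = f b y := by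
    intro b b' hb x hx y hy
    refine (h.LeC b').const (f := f b) (fun u v e => ?_) hx hy
    have h1 := hf b u v (e.mono (h.LeM b'))
    have hd := Set.disjoint_left.1 (h.LeU b' b hb)
    have h2 : gam (D b) u v = 0 := gam_same h ⟨fun m => absurd m (hd e.2.1),
      fun m => absurd m (hd e.2.2)⟩
    have h3 : wtt top (e1 b) (e2 b) u v = 0 := by
      refine wt_zero fun h4 => ?_
      have h5 := Set.pair_eq_pair_iff.1 h4
      have h6 := h.Let b' u e.2.1
      have h7 := h.Let b' v e.2.2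
      refine hb (h.simple b' b ?_)
      have hne := h.ne b
      have hne' := h.ne b'
      rw [Set.pair_eq_pair_iff]
      rcases h5 with ⟨m1, m2⟩ | ⟨m1, m2⟩ <;> rw [m1] at h6 <;> rw [m2] at h7
      · rcases h6 with k1 | k1 <;> rcases h7 with k2 | k2
        · exact absurd (k1.trans k2.symm) hne
        · exact Or.inl ⟨k1.symm, k2.symm⟩
        · exact Or.inr ⟨k2.symm, k1.symm⟩
        · exact absurd (k1.trans k2.symm) hne
      · rcases h6 with k1 | k1 <;> rcases h7 with k2 | k2
        · exact absurd (k2.trans k1.symm) hne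
        · exact Or.inr ⟨k1.symm, k2.symm⟩
        · exact Or.inl ⟨k2.symm, k1.symm⟩
        · exact absurd (k2.trans k1.symm) hne
    rw [Pi.add_apply, Pi.add_apply, h2, h3, add_zero] at h1
    exact (z2_eq _ _).1 h1.symm
  have hLv : ∀ b a, ∀ x ∈ Lv a, ∀ y ∈ Lv a, f b x = f b y := by
    intro b a x hx y hy
    refine (h.LvC a).const (f := f b) (fun u v e => ?_) hx hy
    have h1 := hf b u v (e.mono (h.LvM a))
    have hd := Set.disjoint_left.1 (h.LvU a b)
    have h2 : gam (D b) u v = 0 := gam_same h ⟨fun m => absurd m (hd e.2.1),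
      fun m => absurd m (hd e.2.2)⟩
    have h3 : wtt top (e1 b) (e2 b) u v = 0 := by
      refine wt_zero fun h4 => h.ne b ?_
      have h5 := Set.pair_eq_pair_iff.1 h4
      rw [h.Lvt a u e.2.1, h.Lvt a v e.2.2] at h5
      rcases h5 with ⟨m1, m2⟩ | ⟨m1, m2⟩
      · rw [← m1, ← m2]
      · rw [← m1, ← m2]
    rw [Pi.add_apply, Pi.add_apply, h2, h3, add_zero] at h1
    exact (z2_eq _ _).1 h1.symm
  choose xa hxa using fun a => (h.LvC a).1
  have hc : ∀ b a a', f b (xa a) = f b (xa a') := by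
    intro b
    refine h.graph b (fun a => f b (xa a)) fun b' hb' => ?_
    exact hLe b b' hb' _ (h.Le1 b' (hxa _)) _ (h.Le2 b' (hxa _))
  refine ⟨fun b x => f b x + f b (xa (e1 b)), fun b x y hxy => ?_, fun b a x hx => ?_⟩
  · have h1 := hf b x y hxy
    rw [Pi.add_apply, Pi.add_apply] at h1
    rw [h1]
    have : ∀ a b c : ZMod 2, a + b = a + c + (b + c) := by decide
    exact this _ _ _
  · show f b x + f b (xa (e1 b)) = 0
    rw [hLv b a x hx _ (hxa a), hc b a (e1 b)]
    exact two_add _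

/-- the functions `psi a`: `d (psi a) = sum over b at a of gam (D b)`, `psi a = [a = a']` on `Lv a'`
(`psi a := 1_(top = a) + sum over b at a of p b`) -/
theorem StrIn.psi (h : StrIn G e1 e2 M U D Lv Le top) :
    ∃ psi : A → V → ZMod 2, (∀ a x y, EIn G M x y →
      (∑ b, if a = e1 b ∨ a = e2 b then gam (D b) x y else 0) = psi a x + psi a y) ∧
      ∀ a a', ∀ x ∈ Lv a', psi a x = if a = a' then 1 else 0 := by
  obtain ⟨p, hp, hp0⟩ := h.pot
  refine ⟨fun a x => (if top x = a then 1 else 0) +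
    ∑ b, (if a = e1 b ∨ a = e2 b then p b x else 0), fun a x y hxy => ?_, fun a a' x hx => ?_⟩
  · have h1 := h.star a hxy
    have h2 : ∑ b, (if a = e1 b ∨ a = e2 b then gam (D b) x y else 0) =
        ∑ b, (if a = e1 b ∨ a = e2 b then wtt top (e1 b) (e2 b) x y else 0) +
        (∑ b, (if a = e1 b ∨ a = e2 b then p b x else 0) +
          ∑ b, (if a = e1 b ∨ a = e2 b then p b y else 0)) := by
      rw [← Finset.sum_add_distrib, ← Finset.sum_add_distrib]
      refine Finset.sum_congr rfl fun b _ => ?_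
      by_cases c : a = e1 b ∨ a = e2 b
      · rw [if_pos c, if_pos c, if_pos c, if_pos c, ← hp b x y hxy]
        have : ∀ a b : ZMod 2, a = b + (a + b) := by decide
        exact this _ _
      · rw [if_neg c, if_neg c, if_neg c, if_neg c, add_zero, add_zero]
    rw [h2, h1]
    have : ∀ a b c d : ZMod 2, a + b + (c + d) = a + c + (b + d) := by decide
    exact this _ _ _ _
  · have h1 : ∑ b, (if a = e1 b ∨ a = e2 b then p b x else 0) = 0 :=
      Finset.sum_eq_zero fun b _ => by rw [hp0 b a' x hx, ite_self]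
    show (if top x = a then 1 else 0) + ∑ b, (if a = e1 b ∨ a = e2 b then p b x else 0) = _
    rw [h1, add_zero, h.Lvt a' x hx]
    by_cases c : a = a'
    · rw [if_pos c, if_pos c.symm]
    · rw [if_neg c, if_neg fun c' => c c'.symm]

end MOT
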