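import Pool.Agent.MOT.Sba

/-!
# MOT/Sbb: structure theorem, part 2: components of `M` cut along the discs
-/

open Classical

noncomputable section

namespace MOT

variable {V : Type} {G : SimpleGraph V} {A Bc : Type} [Fintype Bc] {e1 e2 : Bc → A} {M : Set V}
  {U : Bc → Set V} {D : Bc → Set (Cq G)} {Lv : A → Set V} {Le : Bc → Set V} {top : V → A}

/-- an edge of `M` is a step of `RC` iff it is in no disc -/
theorem RC.step {x y : V} (hxy : EIn G M x y) (h0 : ∀ b, gam (D b) x y = 0) :
    RC G M D x y := by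
  refine Relation.ReflTransGen.single ⟨hxy, fun b s hs he => ?_⟩
  have h1 : gam (D b) x y = 1 := if_pos ⟨s, hs, he⟩
  rw [h0 b] at h1
  exact zero_ne_one h1

theorem RC.symm {x y : V} (h : RC G M D x y) : RC G M D y x := by
  have hs : ∀ u v, EC G M D u v → EC G M D v u := by
    rintro u v ⟨h1, h2⟩
    refine ⟨h1.symm, fun b s hs he => h2 b s hs ?_⟩
    rw [he, Finset.pair_comm]
  induction h with
  | refl => exact Relation.ReflTransGen.refl
  | tail _ e ih => exact Relation.ReflTransGen.head (hs _ _ e) ih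

private theorem z2_of_ne {a : ZMod 2} (h : a ≠ 1) : a = 0 := by
  revert h a
  decide

private theorem gam_of_ne {D : Set (Cq G)} {x y : V} (h : ¬ gam D x y = 0) : gam D x y = 1 := by
  by_contra h1
  exact h (z2_of_ne h1)

private theorem gam_ex {D : Set (Cq G)} {x y : V} (h : gam D x y = 1) :
    ∃ s ∈ D, s.1 = {x, y} := by
  by_contra h1
  have h2 : gam D x y = 0 := if_neg h1
  rw [h2] at h
  exact zero_ne_one h

private theorem pair_cases {p q u v : A} (h : ({u, v} : Set A) = {p, q}) :
    (u = p ∧ v = q) ∨ (u = q ∧ v = p) := by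
  have h1 : u ∈ ({p, q} : Set A) := by rw [← h]; exact Set.mem_insert u _
  have h2 : v ∈ ({p, q} : Set A) := by rw [← h]; exact Set.mem_insert_of_mem u rfl
  have h3 : p ∈ ({u, v} : Set A) := by rw [h]; exact Set.mem_insert p _
  have h4 : q ∈ ({u, v} : Set A) := by rw [h]; exact Set.mem_insert_of_mem p rfl
  rcases h1 with h1 | h1
  · rcases h4 with h4 | h4
    · rcases h2 with h2 | h2
      · exact Or.inl ⟨h1, by rw [h2, h4, h1]⟩
      · exact Or.inl ⟨h1, h2⟩
    · exact Or.inl ⟨h1, h4.symm⟩
  · rcases h3 with h3 | h3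
    · rcases h2 with h2 | h2
      · exact Or.inr ⟨h1, h2⟩
      · exact Or.inr ⟨h1, by rw [h2, h3]; exact h1.symm⟩
    · exact Or.inr ⟨h1, h3.symm⟩

private theorem wt_one {p q : A} {u v : V} (h : ({top u, top v} : Set A) = {p, q}) :
    wtt top p q u v = 1 := if_pos (pair_cases h)

private theorem wt_pair {p q : A} {u v : V} (h : ¬ wtt top p q u v = 0) :
    ({top u, top v} : Set A) = {p, q} := by
  by_contra h1
  apply h
  refine if_neg ?_
  rintro (⟨h2, h3⟩ | ⟨h2, h3⟩)
  · exact h1 (by rw [h2, h3])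
  · exact h1 (by rw [h2, h3, Set.pair_comm])

private theorem wt_zero {p q : A} (hpq : p ≠ q) {u v : V} (h : top u = top v) :
    wtt top p q u v = 0 := by
  refine if_neg ?_
  rintro (⟨h2, h3⟩ | ⟨h2, h3⟩)
  · exact hpq (by rw [← h2, ← h3, h])
  · exact hpq (by rw [← h2, ← h3, h])

private theorem comp_of_IsComp {W : Type} {H : SimpleGraph W} {S C : Set W} (h : IsComp H S C) :
    Conn H C ∧ C ⊆ S := by
  obtain ⟨x, hx, rfl⟩ := h
  have key : ∀ y, Relation.ReflTransGen (EIn H S) x y →
      Relation.ReflTransGen (EIn H (comp H S x)) x y := by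
    intro y hy
    induction hy with
    | refl => exact Relation.ReflTransGen.refl
    | tail hab hbc ih =>
      exact ih.tail ⟨hbc.1, ⟨hab, hbc.2.1⟩, ⟨hab.tail hbc, hbc.2.2⟩⟩
  refine ⟨⟨⟨x, Relation.ReflTransGen.refl, hx⟩, fun y hy z hz => ?_⟩, fun y hy => hy.2⟩
  exact (rtg_symm (key y hy.1)).trans (key z hz.1)

private theorem psi_const {psi : A → V → ZMod 2} (h : ∀ a x y, EIn G M x y →
      (∑ b, if a = e1 b ∨ a = e2 b then gam (D b) x y else 0) = psi a x + psi a y) (a : A)
    {x y : V} (hxy : RC G M D x y) : psi a x = psi a y := by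
  induction hxy with
  | refl => rfl
  | @tail u v _ e ih =>
    rw [ih]
    have h1 := h a u v e.1
    have h2 : (∑ b, if a = e1 b ∨ a = e2 b then gam (D b) u v else 0) = 0 := by
      refine Finset.sum_eq_zero fun b _ => ?_
      have h3 : gam (D b) u v = 0 := by
        refine if_neg ?_
        rintro ⟨s, hs, he⟩
        exact e.2 b s hs he
      rw [h3, ite_self]
    rw [h2] at h1
    exact (z2_eq _ _).1 h1.symm

private theorem side_one (h : StrIn G e1 e2 M U D Lv Le top) {b : Bc} {q : Cq G} (hq : q ∈ D b)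
    {x y : V} (hx : x ∈ q.1) (hy : y ∈ q.1) (hU : x ∈ U b ↔ y ∈ U b) : RC G M D x y := by
  by_cases hxy : x = y
  · rw [hxy]
    exact Relation.ReflTransGen.refl
  · have hc := comp_of_IsComp (h.Dc b)
    have hqM := (hc.2 hq).1
    have hqF := (hc.2 hq).2
    have hadj : G.Adj x y := q.2.2 (Finset.mem_coe.2 hx) (Finset.mem_coe.2 hy) hxy
    refine RC.step ⟨hadj, hqM x hx, hqM y hy⟩ fun b' => ?_
    by_contra hne
    have hmix := (h.gam_one (gam_of_ne hne)).2
    by_cases hbb : b' = b
    · subst hbb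
      rcases hmix with h1 | h1
      · exact h1.2 (hU.1 h1.1)
      · exact h1.1 (hU.2 h1.2)
    · have hd := h.Ud b' b hbb
      obtain ⟨w, hwq, hwU⟩ : ∃ w ∈ q.1, w ∈ U b' := by
        rcases hmix with h1 | h1
        · exact ⟨x, hx, h1.1⟩
        · exact ⟨y, hy, h1.2⟩
      obtain ⟨z, hz, hzU⟩ := hqF.1
      have hwz : w ≠ z := fun e => Set.disjoint_left.1 hd.1 hwU (e ▸ hzU)
      exact hd.2 w hwU z hzU (q.2.2 (Finset.mem_coe.2 hwq) (Finset.mem_coe.2 hz) hwz)

/-- all vertices of `U b` in cliques of `D b` are in one class; the same outside `U b`.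
Sketch: for `q ≤ q'` in `D b` the vertices of `q'` in `U b` are pairwise joined by edges which are
not mixed for any `U b'` (the `U b'` are far from `U b`); `D b` is connected.  Outside `U b`: an
edge of `q'` with both ends outside `U b` is not in `D b'`, `b' ≠ b`, since then `q'` would meet `U b` and
`U b'`. -/
theorem StrIn.side (h : StrIn G e1 e2 M U D Lv Le top) (b : Bc) {q q' : Cq G} (hq : q ∈ D b)
    (hq' : q' ∈ D b) {x y : V} (hx : x ∈ q.1) (hy : y ∈ q'.1) (hU : x ∈ U b ↔ y ∈ U b) :
    RC G M D x y := by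
  have hc := comp_of_IsComp (h.Dc b)
  have key : ∀ q2, Relation.ReflTransGen (EIn (sd G) (D b)) q q2 →
      ∀ z ∈ q2.1, (x ∈ U b ↔ z ∈ U b) → RC G M D x z := by
    intro q2 hp
    induction hp with
    | refl => exact fun z hz hU => side_one h hq hx hz hU
    | @tail q1 q2 _ e ih =>
      intro z hz hU
      rcases e.1 with h1 | h1
      · have h2 : q1.1 ⊆ q2.1 := h1.le
        obtain ⟨u, hu, huz⟩ : ∃ u ∈ q1.1, (u ∈ U b ↔ z ∈ U b) := by
          have h3 := (hc.2 e.2.1).2
          by_cases hzU : z ∈ U b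
          · obtain ⟨u, hu, huU⟩ := h3.1
            exact ⟨u, hu, fun _ => hzU, fun _ => huU⟩
          · obtain ⟨u, hu, huU⟩ := h3.2
            exact ⟨u, hu, fun h4 => absurd h4 huU, fun h4 => absurd h4 hzU⟩
        exact (ih u hu (hU.trans huz.symm)).trans (side_one h e.2.2 (h2 hu) hz huz)
      · have h2 : q2.1 ⊆ q1.1 := h1.le
        exact ih z (h2 hz) hU
  exact key q' (hc.1.2 q hq q' hq') y hy hU

/-- `Lv a` lies in one class -/
theorem StrIn.Lv_RC (h : StrIn G e1 e2 M U D Lv Le top) {a : A} {x y : V} (hx : x ∈ Lv a)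
    (hy : y ∈ Lv a) : RC G M D x y := by
  have hp := (h.LvC a).2 x hx y hy
  clear hy
  induction hp with
  | refl => exact Relation.ReflTransGen.refl
  | @tail u v _ e ih =>
    refine ih.trans (RC.step (e.mono (h.LvM a)) fun b => ?_)
    by_contra hne
    rcases (h.gam_one (gam_of_ne hne)).2 with h1 | h1
    · exact Set.disjoint_left.1 (h.LvU a b) e.2.1 h1.1
    · exact Set.disjoint_left.1 (h.LvU a b) e.2.2 h1.2

/-- every class meets some `Lv a`.
Sketch: let `R` be the class of `x`, `c b := 1` if the edges of `D b` have exactly one end in `R` (well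
defined by `StrIn.side`), else `0`.  Then `d 1_R = lc c gam` on `M`, so `lc c w` is trivial on `M`,
`c = d f` is a cut; with the potentials of `StrIn.pot` and `StrIn.star`
`1_R + ∑ a, f a 1_(top = a) + ∑ b, c b p b` is constant on `M` (connected): `1_R = f a + const` on
`Lv a`.  If `R` meets no `Lv a`, `f` is constant, so `c = 0`, `R = M`: contradiction (`Lv a ≠ ∅`).  (`A` is
possibly infinite: write `f (top x)` instead of the sum over `a`.) -/
theorem StrIn.reach (h : StrIn G e1 e2 M U D Lv Le top) {x : V} (hx : x ∈ M) :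
    ∃ a, ∃ y ∈ Lv a, RC G M D x y := by
  by_contra hno
  push Not at hno
  obtain ⟨p, hp1, hp2⟩ := h.pot
  obtain ⟨rho, hrho⟩ : ∃ rho : V → ZMod 2, rho = fun z => if RC G M D x z then 1 else 0 :=
    ⟨_, rfl⟩
  obtain ⟨c, hc⟩ : ∃ c : Bc → ZMod 2, c = fun b =>
      if ∃ u v, gam (D b) u v = 1 ∧ rho u + rho v = 1 then 1 else 0 := ⟨_, rfl⟩
  have cls : ∀ u v, RC G M D u v → rho u = rho v := by
    intro u v huv
    have e : RC G M D x u ↔ RC G M D x v := ⟨fun h1 => h1.trans huv, fun h1 => h1.trans huv.symm⟩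
    rw [hrho]
    simp only [e]
  -- the coboundary of the class
  have hcob : ∀ u v, EIn G M u v → ∑ b, c b * gam (D b) u v = rho u + rho v := by
    intro u v e
    by_cases hg : ∀ b, gam (D b) u v = 0
    · rw [cls u v (RC.step e hg), two_add]
      exact Finset.sum_eq_zero fun b _ => by rw [hg b, mul_zero]
    · push Not at hg
      obtain ⟨b, hb⟩ := hg
      have hb1 := gam_of_ne hb
      rw [Finset.sum_eq_single b]
      · rw [hb1, mul_one]
        have key : ∀ u' v', gam (D b) u' v' = 1 → rho u' + rho v' = rho u + rho v := by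
          intro u' v' hb2
          have s1 := (h.gam_one hb1).2
          have s2 := (h.gam_one hb2).2
          obtain ⟨q, hq, hqe⟩ := gam_ex hb1
          obtain ⟨q', hq', hqe'⟩ := gam_ex hb2
          have m1 : u ∈ q.1 := by rw [hqe]; exact Finset.mem_insert_self _ _
          have m2 : v ∈ q.1 := by
            rw [hqe]; exact Finset.mem_insert_of_mem (Finset.mem_singleton_self _)
          have m3 : u' ∈ q'.1 := by rw [hqe']; exact Finset.mem_insert_self _ _
          have m4 : v' ∈ q'.1 := by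
            rw [hqe']; exact Finset.mem_insert_of_mem (Finset.mem_singleton_self _)
          rcases s1 with s1 | s1 <;> rcases s2 with s2 | s2
          · rw [cls _ _ (h.side b hq hq' m1 m3 ⟨fun _ => s2.1, fun _ => s1.1⟩),
              cls _ _ (h.side b hq hq' m2 m4 ⟨fun k => absurd k s1.2, fun k => absurd k s2.2⟩)]
          · rw [cls _ _ (h.side b hq hq' m1 m4 ⟨fun _ => s2.2, fun _ => s1.1⟩),
              cls _ _ (h.side b hq hq' m2 m3 ⟨fun k => absurd k s1.2, fun k => absurd k s2.1⟩),
              add_comm]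
          · rw [cls _ _ (h.side b hq hq' m1 m4 ⟨fun k => absurd k s1.1, fun k => absurd k s2.2⟩),
              cls _ _ (h.side b hq hq' m2 m3 ⟨fun _ => s2.1, fun _ => s1.2⟩), add_comm]
          · rw [cls _ _ (h.side b hq hq' m1 m3 ⟨fun k => absurd k s1.1, fun k => absurd k s2.1⟩),
              cls _ _ (h.side b hq hq' m2 m4 ⟨fun _ => s2.2, fun _ => s1.2⟩)]
        by_cases h1 : rho u + rho v = 1
        · rw [h1, hc]
          exact if_pos ⟨u, v, hb1, h1⟩
        · have h0 : rho u + rho v = 0 := z2_of_ne h1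
          rw [h0, hc]
          refine if_neg ?_
          rintro ⟨u', v', k1, k2⟩
          rw [key u' v' k1] at k2
          exact h1 k2
      · intro b' _ hb'
        have : gam (D b') u v = 0 := by
          by_contra h1
          exact hb' (h.gam_unique (gam_of_ne h1) hb1)
        rw [this, mul_zero]
      · intro h1
        exact absurd (Finset.mem_univ b) h1
  have hlc : ∀ u v, EIn G M u v →
      ∑ b, c b * wtt top (e1 b) (e2 b) u v =
        (rho u + ∑ b, c b * p b u) + (rho v + ∑ b, c b * p b v) := by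
    intro u v e
    have e1' : ∀ b, wtt top (e1 b) (e2 b) u v = gam (D b) u v + (p b u + p b v) := by
      intro b
      rw [← hp1 b u v e]
      have := two_add (gam (D b) u v)
      linear_combination (-1 : ZMod 2) * this
    have : ∑ b, c b * wtt top (e1 b) (e2 b) u v =
        ∑ b, c b * gam (D b) u v + (∑ b, c b * p b u + ∑ b, c b * p b v) := by
      rw [← Finset.sum_add_distrib, ← Finset.sum_add_distrib]
      refine Finset.sum_congr rfl fun b _ => ?_
      rw [e1' b]
      ring
    rw [this, hcob u v e]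
    ring
  obtain ⟨f, hf⟩ := h.ker c ⟨fun z => rho z + ∑ b, c b * p b z, fun u v e => hlc u v e⟩
  have hlf : ∀ u v, EIn G M u v →
      ∑ b, c b * wtt top (e1 b) (e2 b) u v = f (top u) + f (top v) := by
    intro u v e
    rcases h.t1 u v e with h1 | ⟨b, hb⟩
    · rw [h1, two_add]
      refine Finset.sum_eq_zero fun b _ => ?_
      rw [wt_zero (h.ne b) (by rw [h1]), mul_zero]
    · have hb1 : wtt top (e1 b) (e2 b) u v = 1 := wt_one hb
      rw [Finset.sum_eq_single b]
      · rw [hb1, mul_one, hf b]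
        rcases pair_cases hb with ⟨k1, k2⟩ | ⟨k1, k2⟩
        · rw [k1, k2]
        · rw [k1, k2, add_comm]
      · intro b' _ hb'
        have : wtt top (e1 b') (e2 b') u v = 0 := by
          by_contra h1
          have h2 := wt_pair h1
          exact hb' (h.simple b' b (h2.symm.trans hb))
        rw [this, mul_zero]
      · intro h1
        exact absurd (Finset.mem_univ b) h1
  have hconst : ∀ u v, u ∈ M → v ∈ M →
      rho u + ∑ b, c b * p b u + f (top u) = rho v + ∑ b, c b * p b v + f (top v) := by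
    intro u v hu hv
    refine h.cM.const (f := fun z => rho z + ∑ b, c b * p b z + f (top z)) ?_ hu hv
    intro u v e
    have k1 := hlc u v e
    have k2 := hlf u v e
    rw [k1] at k2
    have t1 := two_add (rho v + ∑ b, c b * p b v)
    have t2 := two_add (f (top u))
    show rho u + ∑ b, c b * p b u + f (top u) = rho v + ∑ b, c b * p b v + f (top v)
    linear_combination k2 - t1 + t2
  have hLv : ∀ a, ∀ y ∈ Lv a, rho y = 0 ∧ ∑ b, c b * p b y = 0 := by
    intro a y hy
    refine ⟨?_, Finset.sum_eq_zero fun b _ => by rw [hp2 b a y hy, mul_zero]⟩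
    rw [hrho]
    exact if_neg (hno a y hy)
  have hfc : ∀ a a', f a = f a' := by
    intro a a'
    obtain ⟨y, hy⟩ := (h.LvC a).1
    obtain ⟨y', hy'⟩ := (h.LvC a').1
    have k := hconst y y' (h.LvM a hy) (h.LvM a' hy')
    rw [(hLv a y hy).1, (hLv a y hy).2, (hLv a' y' hy').1, (hLv a' y' hy').2, h.Lvt a y hy,
      h.Lvt a' y' hy'] at k
    simpa using k
  have hc0 : ∀ b, c b = 0 := by
    intro b
    rw [hf b, hfc (e1 b) (e2 b), two_add]
  obtain ⟨y, hy⟩ := (h.LvC (top x)).1
  have k : rho x = rho y := by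
    refine h.cM.const (f := rho) ?_ hx (h.LvM _ hy)
    intro u v e
    have k1 := hcob u v e
    have k2 : ∑ b, c b * gam (D b) u v = 0 :=
      Finset.sum_eq_zero fun b _ => by rw [hc0 b, zero_mul]
    rw [k2] at k1
    exact (z2_eq _ _).1 k1.symm
  rw [(hLv _ y hy).1, hrho] at k
  have k3 : (if RC G M D x x then (1 : ZMod 2) else 0) = 1 :=
    if_pos Relation.ReflTransGen.refl
  rw [show (fun z => if RC G M D x z then (1 : ZMod 2) else 0) x =
    (if RC G M D x x then (1 : ZMod 2) else 0) from rfl, k3] at k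
  exact one_ne_zero k

/-- different `Lv a`, `Lv a'` are in different classes (`psi a` is constant on classes) -/
theorem StrIn.sep (h : StrIn G e1 e2 M U D Lv Le top) {a a' : A} {x y : V} (hx : x ∈ Lv a)
    (hy : y ∈ Lv a') (hxy : RC G M D x y) : a = a' := by
  obtain ⟨psi, h1, h2⟩ := h.psi
  have k := psi_const h1 a hxy
  rw [h2 a a x hx, h2 a a' y hy, if_pos rfl] at k
  by_contra hne
  rw [if_neg hne] at k
  exact one_ne_zero k

/-- the colouring -/
theorem StrIn.col (h : StrIn G e1 e2 M U D Lv Le top) :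
    ∃ vc : V → A, (∀ x ∈ M, ∃ y ∈ Lv (vc x), RC G M D x y) ∧
      (∀ a, ∀ x ∈ Lv a, vc x = a) ∧
      (∀ x ∈ M, ∀ y ∈ M, vc x = vc y ↔ RC G M D x y) := by
  obtain ⟨vc, hvc⟩ : ∃ vc : V → A, ∀ x ∈ M, ∃ y ∈ Lv (vc x), RC G M D x y := by
    refine ⟨fun x => if hx : x ∈ M then (h.reach hx).choose else top x, fun x hx => ?_⟩
    have e : (if hx : x ∈ M then (h.reach hx).choose else top x) = (h.reach hx).choose :=
      dif_pos hx
    show ∃ y ∈ Lv (if hx : x ∈ M then (h.reach hx).choose else top x), RC G M D x y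
    rw [e]
    exact (h.reach hx).choose_spec
  refine ⟨vc, hvc, fun a x hx => ?_, fun x hx y hy => ?_⟩
  · obtain ⟨y, hy, hr⟩ := hvc x (h.LvM a hx)
    exact (h.sep hx hy hr).symm
  · obtain ⟨x', hx', hr⟩ := hvc x hx
    obtain ⟨y', hy', hr'⟩ := hvc y hy
    constructor
    · intro e
      rw [← e] at hy'
      exact (hr.trans (h.Lv_RC hx' hy')).trans hr'.symm
    · intro e
      exact h.sep hx' hy' ((hr.symm.trans e).trans hr')

/-- across an edge of `D b` the colour changes from one end of `b` to the other; across all other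
edges of `M` it does not change.  (`psi a = 1_(vc = a)` on `M`.) -/
theorem StrIn.cross (h : StrIn G e1 e2 M U D Lv Le top) {vc : V → A}
    (h1 : ∀ x ∈ M, ∃ y ∈ Lv (vc x), RC G M D x y) (h2 : ∀ a, ∀ x ∈ Lv a, vc x = a)
    (h3 : ∀ x ∈ M, ∀ y ∈ M, vc x = vc y ↔ RC G M D x y) {x y : V} (hxy : EIn G M x y) :
    (∀ b, gam (D b) x y = 1 → ({vc x, vc y} : Set A) = {e1 b, e2 b}) ∧
    ((∀ b, gam (D b) x y = 0) → vc x = vc y) := by
  refine ⟨fun b hb => ?_, fun h0 => (h3 x hxy.2.1 y hxy.2.2).2 (RC.step hxy h0)⟩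
  obtain ⟨psi, k1, k2⟩ := h.psi
  have hpsi : ∀ a, ∀ z ∈ M, psi a z = if a = vc z then 1 else 0 := by
    intro a z hz
    obtain ⟨z', hz', hr⟩ := h1 z hz
    rw [psi_const k1 a hr, k2 a (vc z) z' hz']
  have hs : ∀ a, (∑ b, if a = e1 b ∨ a = e2 b then gam (D b) x y else 0) =
      if a = e1 b ∨ a = e2 b then 1 else 0 := by
    intro a
    rw [Finset.sum_eq_single b]
    · rw [hb]
    · intro b' _ hb'
      have : gam (D b') x y = 0 := by
        by_contra h5
        exact hb' (h.gam_unique (gam_of_ne h5) hb)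
      rw [this, ite_self]
    · intro h5
      exact absurd (Finset.mem_univ b) h5
  have hh : ∀ a, (if a = e1 b ∨ a = e2 b then (1 : ZMod 2) else 0) =
      (if a = vc x then 1 else 0) + (if a = vc y then 1 else 0) := by
    intro a
    rw [← hs a, k1 a x y hxy, hpsi a x hxy.2.1, hpsi a y hxy.2.2]
  have g1 := hh (e1 b)
  have g2 := hh (e2 b)
  rw [if_pos (Or.inl rfl)] at g1
  rw [if_pos (Or.inr rfl)] at g2
  have hne := h.ne b
  by_cases c1 : e1 b = vc x
  · have c2 : ¬ e2 b = vc x := fun k => hne (c1.trans k.symm)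
    rw [if_neg c2, zero_add] at g2
    have c3 : e2 b = vc y := by
      by_contra k
      rw [if_neg k] at g2
      exact one_ne_zero g2
    rw [← c1, ← c3]
  · rw [if_neg c1, zero_add] at g1
    have c3 : e1 b = vc y := by
      by_contra k
      rw [if_neg k] at g1
      exact one_ne_zero g1
    have c4 : ¬ e2 b = vc y := fun k => hne (c3.trans k.symm)
    rw [if_neg c4, add_zero] at g2
    have c5 : e2 b = vc x := by
      by_contra k
      rw [if_neg k] at g2
      exact one_ne_zero g2
    rw [← c3, ← c5, Set.pair_comm]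

end MOT
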