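import Pool.Agent.MOT.ScDef

/-!
# MOT/ScA: the static hypotheses of stage 2 under subdivision (helper73)

A clique of `sd G` is a chain; `mx c` its greatest element (Cv / SaC).  `mi G S ∪ sdp G S P = mi G (S ∪ P)`
because a simplex cannot meet `P` and `N`.  `sdp G S P` lies between `mi G P` and `pl G P` (`bt_Conn`).
Classes: `dnc`, `upc`, `Triv_dnc`, `Triv_upc`, `upc_dnc`, `Triv_pw`.
-/

open Classical

noncomputable section

namespace MOT

variable {V : Type} {G : SimpleGraph V} {A Bc Cc : Type} {S P N Q : Set V}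

private theorem el_h69 {T : Type} {X Y : Set T} (h : Disjoint X Y) {x : T} (hx : x ∈ X)
    (hy : x ∈ Y) : False := Set.disjoint_left.1 h hx hy

private theorem top_of_h69 (c : Cq (sd G)) : ∃ m ∈ c.1, ∀ s ∈ c.1, ∀ x ∈ s.1, x ∈ m.1 := by
  obtain ⟨m, hm, hmax⟩ := c.1.exists_max_image (fun s : Cq G => s.1.card) c.2.1
  refine ⟨m, hm, fun s hs x hx => ?_⟩
  by_cases h : s = m
  · rw [← h]; exact hx
  · rcases c.2.2 hs hm h with h1 | h1
    · exact h1.le hx
    · have h2 := Finset.card_lt_card (Cq.lt_iff.1 h1)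
      have h3 := hmax s hs
      omega

private theorem mem_P_h69 (h : Wall G S P N) {s : Cq G} {x : V} (hx : x ∈ s.1) (hxP : x ∈ P) :
    ∀ y ∈ s.1, y ∉ S → y ∈ P := by
  intro y hy hyQ
  rcases Set.eq_univ_iff_forall.1 h.cover y with (h1 | h1) | h1
  · exact absurd h1 hyQ
  · exact h1
  · exfalso
    have hne : x ≠ y := by
      rintro rfl
      exact el_h69 h.dpn hxP h1
    exact h.nadj x hxP y h1 (s.2.2 hx hy hne)

private theorem Z1_self_h69 {A : Set V} {a : V → V → ZMod 2} (ha : a ∈ Z1 G A) (x : V) :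
    a x x = 0 := (mem_Z1.1 ha).1 x x (fun h => h.1.ne rfl)

private theorem upc_pw_h69 {A : Set V} {a : V → V → ZMod 2} (h0 : ∀ x, a x x = 0)
    {s t : Cq G} (e : EIn (sd G) (mi G A) s t) : upc G A a s t = pw G a s t := by
  unfold upc pw
  rw [if_pos e]
  by_cases hk : pk s = pk t
  · rw [if_pos hk, hk, h0]
  · rw [if_neg hk]

/-- the closed side one level later -/
theorem clos_sd (w : Wall G S P N) : mi G S ∪ sdp G S P = mi G (S ∪ P) := by
  ext s
  constructor
  · rintro (h | h)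
    · exact mi_mono Set.subset_union_left h
    · intro x hx
      by_cases hxS : x ∈ S
      · exact Or.inl hxS
      · exact Or.inr (h.2 x hx hxS)
  · intro h
    by_cases h1 : s ∈ mi G S
    · exact Or.inl h1
    · right
      refine ⟨?_, fun x hx hxS => (h x hx).resolve_left hxS⟩
      by_contra h2
      push Not at h2
      exact h1 h2

/-- the open side lies between `mi` and `pl` -/
theorem sdp_bt (w : Wall G S P N) : mi G P ⊆ sdp G S P ∧ sdp G S P ⊆ pl G P := by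
  constructor
  · intro s hs
    obtain ⟨x, hx⟩ := s.2.1
    exact ⟨⟨x, hx, fun h => el_h69 w.dqp h (hs x hx)⟩, fun y hy _ => hs y hy⟩
  · rintro s ⟨⟨x, hx, hxS⟩, h⟩
    exact ⟨x, hx, h x hx hxS⟩

theorem sdp_eq_pl (w : Wall G S P N) : sdp G S P = pl G P := by
  refine Set.Subset.antisymm (sdp_bt w).2 ?_
  rintro s ⟨x, hx, hxP⟩
  exact ⟨⟨x, hx, fun h => el_h69 w.dqp h hxP⟩, mem_P_h69 w hx hxP⟩

theorem wall_compl (w : Wall G S P N) : (S ∪ P)ᶜ = N := by
  ext x
  constructor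
  · intro h
    rcases Set.eq_univ_iff_forall.1 w.cover x with h1 | h1
    · exact absurd h1 h
    · exact h1
  · rintro h (h1 | h1)
    · exact el_h69 w.dqn h1 h
    · exact el_h69 w.dpn h1 h

theorem Sc.X_sd {X : Sc V A Bc Cc} (w : Wall G X.S X.P X.N) : (X.sd G).X = mi G X.X :=
  clos_sd w

theorem Sc.Y_sd {X : Sc V A Bc Cc} (w : Wall G X.S X.P X.N) : (X.sd G).Y = mi G X.Y :=
  clos_sd w.swap

/-- transport of a relation: for a cocycle `a` of `mi G A` and a cochain `w` -/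
theorem Triv_dnc_add {A : Set V} {a : Cq G → Cq G → ZMod 2} (ha : a ∈ Z1 (sd G) (mi G A))
    {w : V → V → ZMod 2} (hs : ∀ x y, w x y = w y x) (h0 : ∀ x, w x x = 0)
    (h : Triv G A (dnc G A a + w)) : Triv (sd G) (mi G A) (a + pw G w) := by
  have hd := dnc_mem ha
  have hd0 := Z1_self_h69 hd
  have t1 : Triv (sd G) (mi G A) (pw G (dnc G A a + w)) := by
    refine (Triv_pw (fun x y => ?_) (fun x => ?_)).2 h
    · rw [Pi.add_apply, Pi.add_apply, Pi.add_apply, Pi.add_apply, hs x y,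
        (mem_Z1.1 hd).2.1 x y]
    · rw [Pi.add_apply, Pi.add_apply, h0, hd0, add_zero]
  refine (t1.add (upc_dnc ha)).congr fun s t e => ?_
  have e1 := upc_pw_h69 hd0 e
  rw [Pi.add_apply, Pi.add_apply, Pi.add_apply, Pi.add_apply, Pi.add_apply, Pi.add_apply, e1]
  have e2 : pw G (dnc G A a + w) s t = pw G (dnc G A a) s t + pw G w s t := rfl
  rw [e2]
  have alg : ∀ p q r : ZMod 2, p + q + (p + r) = r + q := by decide
  exact alg _ _ _

/-- a property of cliques for cliques of `sd` -/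
theorem top2_sd {X : Sc V A Bc Cc} {R : A → A → Prop}
    (h : ∀ q : Cq G, q ∉ mi G X.Bs → ∃ u v, R u v ∧ ∀ x ∈ q.1, X.top x = u ∨ X.top x = v)
    (q : Cq (sd G)) (hq : q ∉ mi (sd G) (mi G X.Bs)) :
    ∃ u v, R u v ∧ ∀ x ∈ q.1, X.top (pk x) = u ∨ X.top (pk x) = v := by
  obtain ⟨m, -, hm⟩ := top_of_h69 q
  obtain ⟨u, v, huv, h1⟩ := h m (fun h2 => hq fun s hs x hx => h2 x (hm s hs x hx))
  exact ⟨u, v, huv, fun s hs => h1 _ (hm s hs _ (pk_mem s))⟩

theorem split_sd (w : Wall G S P N)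
    (h : ∀ c ∈ Z1 G S, ∃ a ∈ Z1 G (S ∪ P), ∃ b ∈ Z1 G (S ∪ N), Triv G S (a + b + c)) :
    ∀ c ∈ Z1 (sd G) (mi G S), ∃ a ∈ Z1 (sd G) (mi G (S ∪ P)), ∃ b ∈ Z1 (sd G) (mi G (S ∪ N)),
      Triv (sd G) (mi G S) (a + b + c) := by
  intro c hc
  obtain ⟨a, ha, b, hb, t⟩ := h _ (dnc_mem hc)
  refine ⟨upc G (S ∪ P) a, upc_mem ha, upc G (S ∪ N) b, upc_mem hb, ?_⟩
  have t1 : Triv (sd G) (mi G S) (c + pw G (a + b)) := by
    refine Triv_dnc_add hc (fun x y => ?_) (fun x => ?_) (by rw [add_comm]; exact t)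
    · rw [Pi.add_apply, Pi.add_apply, Pi.add_apply, Pi.add_apply, (mem_Z1.1 ha).2.1 x y,
        (mem_Z1.1 hb).2.1 x y]
    · rw [Pi.add_apply, Pi.add_apply, Z1_self_h69 ha, Z1_self_h69 hb, add_zero]
  refine t1.congr fun s u e => ?_
  have e1 := upc_pw_h69 (Z1_self_h69 ha) (e.mono (mi_mono (Set.subset_union_left (t := P))))
  have e2 := upc_pw_h69 (Z1_self_h69 hb) (e.mono (mi_mono (Set.subset_union_left (t := N))))
  rw [Pi.add_apply, Pi.add_apply, Pi.add_apply, Pi.add_apply, Pi.add_apply, Pi.add_apply, e1, e2]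
  have e3 : pw G (a + b) s u = pw G a s u + pw G b s u := rfl
  rw [e3, add_comm]

end MOT
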