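import Pool.Agent.MOT.ScA

/-!
# MOT/ScAB: `ScS`, `ScU`, `NoD` and the number of curves under subdivision (helper73, helper21)
-/

open Classical

noncomputable section

namespace MOT

variable {V : Type} {G : SimpleGraph V} {A Bc Cc : Type} {e1 e2 : Bc → A}
  {inc : Bc → Cc → Prop} {X : Sc V A Bc Cc}

private theorem wtt_symm_ScAB (f : V → A) (p q : A) (x y : V) : wtt f p q x y = wtt f p q y x := by
  unfold wtt
  exact if_congr (by tauto) rfl rfl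

private theorem wtt_self_ScAB (f : V → A) {p q : A} (h : p ≠ q) (x : V) : wtt f p q x x = 0 := by
  unfold wtt
  rw [if_neg]
  rintro (⟨h1, h2⟩ | ⟨h1, h2⟩)
  · exact h (h1.symm.trans h2)
  · exact h (h2.symm.trans h1)

/-- subsets of a side -/
private theorem mi_sdp_ScAB {S P L : Set V} (hd : Disjoint S P) (h : L ⊆ P) :
    mi G L ⊆ sdp G S P := fun s hs =>
  ⟨⟨pk s, pk_mem s, fun hS => Set.disjoint_left.1 hd hS (h (hs _ (pk_mem s)))⟩,
    fun x hx _ => h (hs x hx)⟩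

/-- chosen vertices of neighbours -/
private theorem pk_nr_ScAB {s t : Cq G} (h : (sd G).Adj s t) (hne : pk s ≠ pk t) :
    G.Adj (pk s) (pk t) := by
  rcases sd_adj.1 h with h | h
  · exact t.2.2 (Finset.mem_coe.2 (Cq.le_iff.1 h.le (pk_mem s))) (Finset.mem_coe.2 (pk_mem t)) hne
  · exact s.2.2 (Finset.mem_coe.2 (pk_mem s)) (Finset.mem_coe.2 (Cq.le_iff.1 h.le (pk_mem t))) hne

/-- all static hypotheses are kept.  `sd_sph3`, `Wall.sd`, `sd_Conn`, `sdp_bt` + `bt_Conn`,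
`split_sd`, `top2_sd`, `Triv_dnc_add` (for `span`, `spanY`: `a ↦ dnc a`), `Triv_dnc` (for `injY`), `CocO.pw`,
`Triv_pw`. -/
theorem ScS.sd [Finite V] [Fintype Bc] [Fintype Cc] (h : ScS G e1 e2 inc X) :
    ScS (MOT.sd G) e1 e2 inc (X.sd G) where
  neB := h.neB
  sph := sd_sph3 h.sph
  wall := h.wall.sd
  cS := sd_Conn.2 h.cS
  cP := (bt_Conn (sdp_bt h.wall).1 (sdp_bt h.wall).2).2 h.cP
  cN := (bt_Conn (sdp_bt h.wall.swap).1 (sdp_bt h.wall.swap).2).2 h.cN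
  split := by
    rw [Sc.X_sd h.wall, Sc.Y_sd h.wall]
    exact split_sd h.wall h.split
  ne := h.ne
  simple := h.simple
  graph := h.graph
  top2 := fun q hq => top2_sd (R := fun u v => u = v ∨ ∃ b, ({u, v} : Set A) = {e1 b, e2 b})
    h.top2 q hq
  span := by
    rw [Sc.X_sd h.wall]
    intro a ha
    obtain ⟨c, hc⟩ := h.span _ (dnc_mem ha)
    refine ⟨c, Triv_dnc_add ha (fun x y => ?_) (fun x => ?_) hc⟩
    · exact Finset.sum_congr rfl fun e _ => by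
        show c e * wtt X.top (e1 e) (e2 e) x y = c e * wtt X.top (e1 e) (e2 e) y x
        rw [wtt_symm_ScAB]
    · exact Finset.sum_eq_zero fun e _ => by
        show c e * wtt X.top (e1 e) (e2 e) x x = 0
        rw [wtt_self_ScAB _ (h.ne e), mul_zero]
  spanY := by
    rw [Sc.Y_sd h.wall]
    intro a ha
    obtain ⟨c, hc⟩ := h.spanY _ (dnc_mem ha)
    refine ⟨c, Triv_dnc_add ha (fun x y => ?_) (fun x => ?_) hc⟩
    · exact Finset.sum_congr rfl fun e _ => by rw [(h.wco e).symm]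
    · exact Finset.sum_eq_zero fun e _ => by rw [(h.wco e).zero, mul_zero]
  injY := by
    rw [Sc.Y_sd h.wall]
    intro a ha t
    have hs : X.Bs ⊆ X.Y := fun x hx => Or.inr (h.BsN hx)
    exact (Triv_dnc ha subset_rfl).1 (h.injY _ (dnc_mem ha) ((Triv_dnc ha hs).2 t))
  cBs := sd_Conn.2 h.cBs
  BsN := mi_sdp_ScAB h.wall.dqn h.BsN
  LvC := fun a => sd_Conn.2 (h.LvC a)
  LvL := fun a b => mi_mono (h.LvL a b)
  Lvt := fun a s hs => h.Lvt a _ (hs _ (pk_mem s))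
  LeC := fun b => sd_Conn.2 (h.LeC b)
  LeP := fun b => mi_sdp_ScAB h.wall.dqp (h.LeP b)
  Let := fun b s hs => h.Let b _ (hs _ (pk_mem s))
  Le1 := fun b => mi_mono (h.Le1 b)
  Le2 := fun b => mi_mono (h.Le2 b)
  LeL := fun b b' hb => mi_mono (h.LeL b b' hb)
  LrC := fun b => sd_Conn.2 (h.LrC b)
  LrP := fun b => mi_sdp_ScAB h.wall.dqp (h.LrP b)
  wco := fun c => (h.wco c).pw
  BdP := fun c => mi_sdp_ScAB h.wall.dqp (h.BdP c)
  BdL := fun b c hb => mi_mono (h.BdL b c hb)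
  inc1 := h.inc1
  inc0 := by
    intro b
    obtain ⟨c, hc, hn⟩ := h.inc0 b
    exact ⟨c, hc, fun t => hn ((Triv_pw (h.wco c).symm (h.wco c).zero).1 t)⟩
  inc2 := h.inc2

/-- pointwise at `pk` (`pk s`, `pk t` are equal or adjacent; `w c x x = 0`) -/
theorem ScPar.sd [Fintype Bc] [Fintype Cc] (hS : ScS G e1 e2 inc X) (h : ScPar G inc X) :
    ScPar (MOT.sd G) inc (X.sd G) where
  par0 := by
    intro b c hb s t e
    rw [Sc.Y_sd hS.wall] at e
    show X.w c (pk s) (pk t) = 0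
    by_cases hk : pk s = pk t
    · rw [hk, (hS.wco c).zero]
    · exact h.par0 b c hb _ _ ⟨pk_nr_ScAB e.1 hk, ⟨e.2.1.1 _ (pk_mem s), e.2.1.2⟩,
        ⟨e.2.2.1 _ (pk_mem t), e.2.2.2⟩⟩
  par1 := by
    intro b c c' hb hb'
    obtain ⟨f, hf⟩ := h.par1 b c c' hb hb'
    refine ⟨fun s => f (pk s), fun s t e => ?_⟩
    rw [Sc.Y_sd hS.wall] at e
    show X.w c (pk s) (pk t) + X.w c' (pk s) (pk t) = f (pk s) + f (pk t)
    by_cases hk : pk s = pk t
    · rw [hk, (hS.wco c).zero, (hS.wco c').zero, two_add, two_add]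
    · exact hf _ _ ⟨pk_nr_ScAB e.1 hk, ⟨e.2.1.1 _ (pk_mem s), e.2.1.2⟩,
        ⟨e.2.2.1 _ (pk_mem t), e.2.2.2⟩⟩

theorem ScPar.upd (h : ScPar G inc X) (U' : Bc → Set V) : ScPar G inc (X.upd U') := by
  cases h
  constructor <;> assumption

/-- the hypotheses do not depend on the plates -/
theorem ScS.upd [Fintype Bc] [Fintype Cc] (h : ScS G e1 e2 inc X) (U' : Bc → Set V) :
    ScS G e1 e2 inc (X.upd U') := by
  cases h
  constructor <;> assumption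

/-- localization of the curves for `mi G (U b)`: a clique `q` of `sd G` with `x, y ∈ q`, `x, y ⊆ S`, `x ⊆ U`,
`y` not: then `x < y` (otherwise `y ⊆ x ⊆ U`), `y` is a mixed simplex; `z ∈ q`: `z ≥ y` (apply `h` to `z`) or
`z ≤ y` (apply `h` to `y`). -/
theorem loc_sd {S U Ze : Set V}
    (h : ∀ q : Cq G, (∃ x ∈ q.1, x ∈ S ∧ x ∈ U) → (∃ y ∈ q.1, y ∈ S ∧ y ∉ U) →
      ∀ z ∈ q.1, z ∈ Ze)
    (q : Cq (sd G)) (h1 : ∃ x ∈ q.1, x ∈ mi G S ∧ x ∈ mi G U)
    (h2 : ∃ y ∈ q.1, y ∈ mi G S ∧ y ∉ mi G U) : ∀ z ∈ q.1, pk z ∈ Ze := by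
  obtain ⟨x, hx, hxS, hxU⟩ := h1
  obtain ⟨y, hy, hyS, hyU⟩ := h2
  have cm : ∀ s t : Cq G, s ∈ q.1 → t ∈ q.1 → s ≤ t ∨ t ≤ s := by
    intro s t hs ht
    by_cases e : s = t
    · exact Or.inl e.le
    · rcases q.2.2 hs ht e with e | e
      · exact Or.inl e.le
      · exact Or.inr e.le
  have hxy : x ≤ y := by
    rcases cm x y hx hy with e | e
    · exact e
    · exact absurd (fun z hz => hxU z (Cq.le_iff.1 e hz)) hyU
  have hpx : pk x ∈ y.1 := Cq.le_iff.1 hxy (pk_mem x)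
  obtain ⟨v, hv, hvU⟩ : ∃ v ∈ y.1, v ∉ U := by
    by_contra hc
    push Not at hc
    exact hyU hc
  intro z hz
  rcases cm y z hy hz with e | e
  · have e' := Cq.le_iff.1 e
    exact h z ⟨pk x, e' hpx, hxS _ (pk_mem x), hxU _ (pk_mem x)⟩ ⟨v, e' hv, hyS v hv, hvU⟩ _
      (pk_mem z)
  · exact h y ⟨pk x, hpx, hxS _ (pk_mem x), hxU _ (pk_mem x)⟩ ⟨v, hv, hyS v hv, hvU⟩ _
      (Cq.le_iff.1 e (pk_mem z))

private theorem mi_dis_ScAB {M N : Set V} (h : Disjoint M N) : Disjoint (mi G M) (mi G N) :=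
  Set.disjoint_left.2 fun s hs hs' =>
    Set.disjoint_left.1 h (hs _ (pk_mem s)) (hs' _ (pk_mem s))

private theorem mi_nadj_ScAB {M N : Set V} (h : Disjoint M N) : NAdj (sd G) (mi G M) (mi G N) := by
  rintro s hs t ht (e | e)
  · exact Set.disjoint_left.1 h (hs _ (pk_mem s)) (ht _ (Cq.le_iff.1 e.le (pk_mem s)))
  · exact Set.disjoint_left.1 h (hs _ (Cq.le_iff.1 e.le (pk_mem t))) (ht _ (pk_mem t))

/-- the greatest element of a frontier chain is a frontier simplex -/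
private theorem fr_mx_ScAB {U : Set V} {c : Cq (sd G)} (h : c ∈ Fr (sd G) (mi G U)) :
    mx c ∈ Fr G U := by
  obtain ⟨⟨x, hx, hxU⟩, y, hy, hyU⟩ := h
  refine ⟨⟨pk x, Cq.le_iff.1 (le_mx c hx) (pk_mem x), hxU _ (pk_mem x)⟩, ?_⟩
  have : ∃ v ∈ y.1, v ∉ U := by
    by_contra hc
    push Not at hc
    exact hyU hc
  obtain ⟨v, hv, hvU⟩ := this
  exact ⟨v, Cq.le_iff.1 (le_mx c hy) hv, hvU⟩

/-- (`hS` is necessary for `U3`, `U4`: the cochains must vanish on the diagonal) -/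
theorem ScU.sd [Finite V] [Fintype Bc] [Fintype Cc] (h : ScU G e1 e2 inc X)
    (hS : ScS G e1 e2 inc X) : ScU (MOT.sd G) e1 e2 inc (X.sd G) where
  UC := fun b => sd_Conn.2 (h.UC b)
  UCc := fun b => by
    show Conn (MOT.sd G) (mi G (X.U b))ᶜ
    rw [compl_mi]
    exact (bt_Conn mi_sub_pl subset_rfl).2 (h.UCc b)
  Ubb := fun b => (bt_bb subset_rfl mi_sub_pl).trans (h.Ubb b)
  Ud := fun b b' hb => ⟨mi_dis_ScAB (h.Ud b b' hb).1, mi_nadj_ScAB (h.Ud b b' hb).1⟩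
  UBs := fun b => mi_dis_ScAB (h.UBs b)
  ULr := fun b => mi_dis_ScAB (h.ULr b)
  U3 := by
    intro b
    obtain ⟨Z, hZ, hZs, hn⟩ := h.U3 b
    refine ⟨mi G Z, sd_Conn.2 hZ, fun s hs => ⟨fun x hx => (hZs (hs x hx)).1,
      fun x hx => (hZs (hs x hx)).2⟩, fun c hc t => hn c hc ?_⟩
    exact (Triv_pw (hS.wco c).symm (hS.wco c).zero).1 t
  U4 := by
    intro b
    have h1 : Triv (MOT.sd G) (mi G (X.U b ∪ X.Le b)) (pw G (X.wb e1 e2 b)) :=
      (Triv_pw (wtt_symm_ScAB _ _ _) (wtt_self_ScAB _ (hS.ne b))).2 (h.U4 b)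
    refine Triv.mono ?_ h1
    rintro s (hs | hs)
    · exact fun x hx => Or.inl (hs x hx)
    · exact fun x hx => Or.inr (hs x hx)
  loc := fun b q h1 h2 => loc_sd (h.loc b) q h1 h2
  old := by
    intro b q hq
    have h1 : mx q ∈ FrIn G X.S (X.U b) := by
      have h2 := fr_mx_ScAB ⟨hq.1.2, hq.2⟩
      exact ⟨⟨hq.1.1 _ (mx_mem q), h2.1⟩, h2.2⟩
    exact ⟨mx q, mx_mem q, fun s hs => le_mx q hs, h.old b _ h1⟩
  fro := by
    intro b q hq z hz
    exact h.fro b _ (fr_mx_ScAB hq) _ (Cq.le_iff.1 (le_mx q hz) (pk_mem z))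

/-- curves of `mi G U` on `mi G S`: `FrIn_compl`, `compl_mi`, `curve_b0` -/
theorem kk_mi [Finite V] {S U : Set V} :
    b0 (sd (sd G)) (FrIn (sd G) (mi G S) (mi G U)) = b0 (sd G) (FrIn G S U) := by
  rw [← FrIn_compl (A := mi G U), compl_mi, curve_b0, FrIn_compl]

theorem kc_sd [Finite V] [Fintype Bc] : kc (MOT.sd G) (X.sd G) = kc G X :=
  Finset.sum_congr rfl fun _ _ => kk_mi

/-- the complement of the plates one level later -/
private theorem bt_W_ScAB (h : ScU G e1 e2 inc X) :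
    mi G (X.S \ X.W) ⊆ (X.sd G).S \ (X.sd G).W ∧ (X.sd G).S \ (X.sd G).W ⊆ pl G (X.S \ X.W) := by
  constructor
  · intro s hs
    refine ⟨fun x hx => (hs x hx).1, fun hW => ?_⟩
    obtain ⟨b, hb⟩ := Set.mem_iUnion.1 hW
    exact (hs _ (pk_mem s)).2 (Set.mem_iUnion.2 ⟨b, hb _ (pk_mem s)⟩)
  · rintro s ⟨hs, hW⟩
    by_contra hn
    have hn' : ∀ x ∈ s.1, x ∈ X.W := by
      intro x hx
      by_contra hxW
      exact hn ⟨x, hx, hs x hx, hxW⟩
    obtain ⟨b, hb⟩ := Set.mem_iUnion.1 (hn' _ (pk_mem s))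
    refine hW (Set.mem_iUnion.2 ⟨b, fun x hx => ?_⟩)
    obtain ⟨b', hb'⟩ := Set.mem_iUnion.1 (hn' x hx)
    by_cases e : b = b'
    · rw [e]; exact hb'
    · exfalso
      obtain ⟨h1, h2⟩ := h.Ud b b' e
      by_cases e2 : pk s = x
      · exact Set.disjoint_left.1 h1 hb (e2 ▸ hb')
      · exact h2 _ hb _ hb' (s.2.2 (pk_mem s) hx e2)

/-- a component between `mi M` and `pl M` comes from a component of `M` -/
private theorem comp_bt_ScAB {M : Set V} {N D : Set (Cq G)} (h1 : mi G M ⊆ N) (h2 : N ⊆ pl G M)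
    (hD : IsComp (sd G) N D) : ∃ C, IsComp G M C ∧ (HZ (sd G) D → HZ G C) := by
  obtain ⟨s, hs⟩ := hD.conn.1
  obtain ⟨x, hx, hxM⟩ := h2 (hD.sub hs)
  have hC : IsComp G M (comp G M x) := ⟨x, hxM, rfl⟩
  have hN := bt_comp h1 h2 hC
  have e : D = N ∩ pl G (comp G M x) :=
    hD.eq_of_inter hN ⟨s, hs, hD.sub hs, x, hx, comp_self hxM⟩
  refine ⟨_, hC, fun hz => ?_⟩
  rw [e] at hz
  have h3 : mi G (comp G M x) ⊆ N ∩ pl G (comp G M x) :=
    fun t ht => ⟨h1 (mi_mono hC.sub ht), mi_sub_pl ht⟩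
  exact (bt_HZ h3 Set.inter_subset_right).1 hz

/-- `mi S ∩ mi U = mi (U ∩ S)`; `mi S \ ⋃ mi (U b)` lies between `mi (S \ W)` and `pl (S \ W)` (the plates are not
adjacent, so a clique in `W` lies in one plate); components correspond (`bt_comp`, `bt_HZ`, `sd_HZ`). -/
theorem NoD.sd [Finite V] (h : ScU G e1 e2 inc X) (hn : NoD G X) : NoD (MOT.sd G) (X.sd G) where
  inn := by
    intro b D hD hz
    have h1 : mi G (X.U b ∩ X.S) ⊆ (X.sd G).U b ∩ (X.sd G).S := mi_inter.le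
    have h2 : (X.sd G).U b ∩ (X.sd G).S ⊆ pl G (X.U b ∩ X.S) := by
      rw [show (X.sd G).U b ∩ (X.sd G).S = mi G (X.U b ∩ X.S) from mi_inter.symm]
      exact mi_sub_pl
    obtain ⟨C, hC, h3⟩ := comp_bt_ScAB h1 h2 hD
    exact hn.inn b C hC (h3 hz)
  out := by
    intro D hD hz
    obtain ⟨C, hC, h3⟩ := comp_bt_ScAB (bt_W_ScAB h).1 (bt_W_ScAB h).2 hD
    exact hn.out C hC (h3 hz)

theorem ScS.scN {K : Lv} {n : ℕ} [Fintype Bc] [Fintype Cc] {X : Sc (tw K n).V A Bc Cc}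
    (h : ScS (tw K n).G e1 e2 inc X) (k : ℕ) : ScS (tw K (n + k)).G e1 e2 inc (scN K n X k) := by
  induction k with
  | zero => exact h
  | succ k ih => exact ih.sd

theorem ScPar.scN {K : Lv} {n : ℕ} [Fintype Bc] [Fintype Cc] {X : Sc (tw K n).V A Bc Cc}
    (hS : ScS (tw K n).G e1 e2 inc X) (h : ScPar (tw K n).G inc X) (k : ℕ) :
    ScPar (tw K (n + k)).G inc (scN K n X k) := by
  induction k with
  | zero => exact h
  | succ k ih => exact ih.sd (hS.scN k)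

end MOT
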