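import Pool.Agent.MOT.ScA

/-!
# MOT/ScB: consequences of the static hypotheses of stage 2: the crossing cochains `wb b` (helper73)
-/

open Classical

noncomputable section

namespace MOT

variable {V : Type} {G : SimpleGraph V} {A Bc Cc : Type} [Fintype Bc] [Fintype Cc]
  {e1 e2 : Bc → A} {inc : Bc → Cc → Prop} {X : Sc V A Bc Cc}

private def kk (p q u v : A) : ZMod 2 := if (u = p ∧ v = q) ∨ (u = q ∧ v = p) then 1 else 0

private theorem kk_self {p q : A} (hpq : p ≠ q) (u : A) : kk p q u u = 0 := by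
  unfold kk
  rw [if_neg]
  rintro (⟨h1, h2⟩ | ⟨h1, h2⟩)
  · exact hpq (h1.symm.trans h2)
  · exact hpq (h2.symm.trans h1)

private theorem kk_symm (p q u v : A) : kk p q u v = kk p q v u := by
  unfold kk
  have : ((u = p ∧ v = q) ∨ (u = q ∧ v = p)) ↔ ((v = p ∧ u = q) ∨ (v = q ∧ u = p)) := by tauto
  simp only [this]

private theorem wb_kk (b : Bc) (x y : V) :
    X.wb e1 e2 b x y = kk (e1 b) (e2 b) (X.top x) (X.top y) := rfl

/-- Sketch: `top2`; on a clique with tops in `{u, v}` the cochain `wtt` is `0` or the crossing of `u | v`. -/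
theorem ScS.wb_co (h : ScS G e1 e2 inc X) (b : Bc) : CocO G X.Bs (X.wb e1 e2 b) where
  symm x y := by rw [wb_kk, wb_kk, kk_symm]
  zero x := by rw [wb_kk, kk_self (h.ne b)]
  coc s hs x hx y hy z hz := by
    obtain ⟨u, v, -, ht⟩ := h.top2 s hs
    rw [wb_kk, wb_kk, wb_kk]
    have e := kk_symm (e1 b) (e2 b) u v
    have d := kk_self (h.ne b)
    rcases ht x hx with hx' | hx' <;> rcases ht y hy with hy' | hy' <;>
      rcases ht z hz with hz' | hz' <;> rw [hx', hy', hz'] <;>
      simp only [d, e, two_add, add_zero, zero_add]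

private theorem lc_self (h : ScS G e1 e2 inc X) (c : Bc → ZMod 2) {x y : V}
    (e : X.top x = X.top y) : lc c (X.wb e1 e2) x y = 0 := by
  refine Finset.sum_eq_zero fun b _ => ?_
  rw [wb_kk, e, kk_self (h.ne b), mul_zero]

private theorem lc_one (h : ScS G e1 e2 inc X) (c : Bc → ZMod 2) {x y : V} {b : Bc}
    (e : ({X.top x, X.top y} : Set A) = {e1 b, e2 b}) : lc c (X.wb e1 e2) x y = c b := by
  have h1 : X.wb e1 e2 b x y = 1 := by
    rw [wb_kk]
    unfold kk
    exact if_pos (Set.pair_eq_pair_iff.1 e)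
  have h2 : ∀ b', b' ≠ b → X.wb e1 e2 b' x y = 0 := by
    intro b' hb'
    rw [wb_kk]
    unfold kk
    refine if_neg fun h3 => hb' ?_
    exact h.simple b' b ((Set.pair_eq_pair_iff.2 h3).symm.trans e)
  show ∑ b', c b' * X.wb e1 e2 b' x y = c b
  rw [Finset.sum_eq_single b (fun b' _ hb' => by rw [h2 b' hb', mul_zero])
    (fun hb' => absurd (Finset.mem_univ b) hb'), h1, mul_one]

/-- a cut is a coboundary off `Bs` (potential `f ∘ top`) -/
theorem ScS.cut_co (h : ScS G e1 e2 inc X) {c : Bc → ZMod 2} (hc : c ∈ cutS e1 e2) :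
    ∃ u : V → ZMod 2, CobO G X.Bs (lc c (X.wb e1 e2)) u := by
  obtain ⟨f, hf⟩ := hc
  refine ⟨fun x => f (X.top x), fun s hs x hx y hy => ?_⟩
  obtain ⟨u, v, huv, ht⟩ := h.top2 s hs
  show lc c (X.wb e1 e2) x y = f (X.top x) + f (X.top y)
  by_cases e : X.top x = X.top y
  · rw [lc_self h c e, e, two_add]
  · have hb : ∃ b, ({X.top x, X.top y} : Set A) = {e1 b, e2 b} := by
      have huv' : u ≠ v := by
        rintro rfl
        exact e (((ht x hx).elim id id).trans ((ht y hy).elim id id).symm)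
      obtain ⟨b, hb⟩ := huv.resolve_left huv'
      refine ⟨b, ?_⟩
      rcases ht x hx with hx' | hx' <;> rcases ht y hy with hy' | hy'
      · exact absurd (hx'.trans hy'.symm) e
      · rw [hx', hy']; exact hb
      · rw [hx', hy', Set.pair_comm]; exact hb
      · exact absurd (hx'.trans hy'.symm) e
    obtain ⟨b, hb⟩ := hb
    rw [lc_one h c hb, hf b]
    rcases Set.pair_eq_pair_iff.1 hb with ⟨h1, h2⟩ | ⟨h1, h2⟩
    · rw [h1, h2]
    · rw [h1, h2, add_comm]

/-- Sketch: potential `g` on `R`; `g` is constant on `Lv a` (all tops equal): `f a`; on `Le b` the combination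
is `c b` times the crossing of `e1 b | e2 b` (tops in `{e1 b, e2 b}`, `simple`), so `g + c b * [top = e1 b]` is
constant on `Le b`, which contains `Lv (e1 b)` and `Lv (e2 b)`. -/
theorem ScS.pot (h : ScS G e1 e2 inc X) {R : Set V} (hR : ∀ a, X.Lv a ⊆ R) {c : Bc → ZMod 2}
    (t : Triv G R (lc c (X.wb e1 e2))) :
    ∃ f : A → ZMod 2, ∀ b, X.Le b ⊆ R → c b = f (e1 b) + f (e2 b) := by
  obtain ⟨g, hg⟩ := t
  choose pt hpt using fun a => (h.LvC a).1
  refine ⟨fun a => g (pt a), fun b hb => ?_⟩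
  have key : ∀ x y, EIn G (X.Le b) x y →
      g x + c b * (if X.top x = e1 b then 1 else 0) =
        g y + c b * (if X.top y = e1 b then 1 else 0) := by
    intro x y e
    have h1 := hg x y (e.mono hb)
    have hne := h.ne b
    rcases h.Let b x e.2.1 with hx | hx <;> rcases h.Let b y e.2.2 with hy | hy
    · rw [lc_self h c (hx.trans hy.symm)] at h1
      rw [if_pos hx, if_pos hy, (z2_eq _ _).1 h1.symm]
    · rw [lc_one h c (b := b) (by rw [hx, hy])] at h1
      rw [if_pos hx, if_neg (fun h2 => hne (h2.symm.trans hy)), h1, mul_one, mul_zero, add_zero,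
        ← add_assoc, two_add, zero_add]
    · rw [lc_one h c (b := b) (by rw [hx, hy, Set.pair_comm])] at h1
      rw [if_pos hy, if_neg (fun h2 => hne (h2.symm.trans hx)), h1, mul_one, mul_zero, add_zero,
        add_comm (g x) (g y), ← add_assoc, two_add, zero_add]
    · rw [lc_self h c (hx.trans hy.symm)] at h1
      rw [if_neg (fun h2 => hne (h2.symm.trans hx)), if_neg (fun h2 => hne (h2.symm.trans hy)),
        (z2_eq _ _).1 h1.symm]
  have p1 : pt (e1 b) ∈ X.Le b := h.Le1 b (hpt _)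
  have p2 : pt (e2 b) ∈ X.Le b := h.Le2 b (hpt _)
  have h2 := (h.LeC b).const key p1 p2
  have t1 : X.top (pt (e1 b)) = e1 b := h.Lvt _ _ (hpt _)
  have t2 : X.top (pt (e2 b)) = e2 b := h.Lvt _ _ (hpt _)
  rw [t1, t2, if_pos rfl, if_neg (h.ne b).symm, mul_one, mul_zero, add_zero] at h2
  show c b = g (pt (e1 b)) + g (pt (e2 b))
  rw [← h2, ← add_assoc, two_add, zero_add]

private theorem z2_cases (r : ZMod 2) : r = 0 ∨ r = 1 := by
  revert r
  decide

/-- detection on the own side: a trivial combination is a cut -/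
theorem ScS.ker (h : ScS G e1 e2 inc X) {R : Set V} (hL : ∀ a, X.Lv a ⊆ R)
    (hR : ∀ b, X.Le b ⊆ R) {c : Bc → ZMod 2} (t : Triv G R (lc c (X.wb e1 e2))) :
    c ∈ cutS e1 e2 := by
  obtain ⟨f, hf⟩ := h.pot hL t
  exact ⟨f, fun b => hf b (hR b)⟩

/-- `wb b` is not trivial on the own core (`pot` with the indicator of `b`, `graph`) -/
theorem ScS.no_B (h : ScS G e1 e2 inc X) (b : Bc) :
    ¬ Triv G (X.Lr b ∪ X.Le b) (X.wb e1 e2 b) := by
  intro t
  have hlc : lc (fun b' => if b' = b then (1 : ZMod 2) else 0) (X.wb e1 e2) = X.wb e1 e2 b := by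
    funext x y
    show ∑ b', (if b' = b then (1 : ZMod 2) else 0) * X.wb e1 e2 b' x y = X.wb e1 e2 b x y
    rw [Finset.sum_eq_single b (fun b' _ hb' => by rw [if_neg hb', zero_mul])
      (fun hb' => absurd (Finset.mem_univ b) hb'), if_pos rfl, one_mul]
  rw [← hlc] at t
  obtain ⟨f, hf⟩ := h.pot (fun a => (h.LvL a b).trans Set.subset_union_left) t
  have h1 : ∀ b', b' ≠ b → f (e1 b') = f (e2 b') := by
    intro b' hb'
    have h2 := hf b' ((h.LeL b' b hb').trans Set.subset_union_left)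
    rw [if_neg hb'] at h2
    exact (z2_eq _ _).1 h2.symm
  have h3 := hf b Set.subset_union_right
  rw [if_pos rfl, h.graph b f h1 (e1 b) (e2 b), two_add] at h3
  exact one_ne_zero h3

theorem ScS.no_X (h : ScS G e1 e2 inc X) (b : Bc) : ¬ Triv G X.X (X.wb e1 e2 b) := fun t =>
  h.no_B b (t.mono ((Set.union_subset (h.LrP b) (h.LeP b)).trans Set.subset_union_right))

private theorem dXB (h : ScS G e1 e2 inc X) : Disjoint X.X X.Bs := by
  refine Set.disjoint_left.2 fun x hx hx' => ?_
  rcases hx with hx | hx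
  · exact Set.disjoint_left.1 h.wall.dqn hx (h.BsN hx')
  · exact Set.disjoint_left.1 h.wall.dpn hx (h.BsN hx')

/-- (CLS) Sketch: `a` is a combination `c` of the `wb` up to a coboundary (`span`); `pot` with `R = Lr b` gives
`f`; `c = cut of f + (c b + f (e1 b) + f (e2 b)) δ_b`; cuts are trivial (`cut_co`, `X` and `Bs` disjoint). -/
theorem ScS.cls_two (h : ScS G e1 e2 inc X) (b : Bc) {a : V → V → ZMod 2} (ha : a ∈ Z1 G X.X)
    (t : Triv G (X.Lr b) a) : Triv G X.X a ∨ Triv G X.X (a + X.wb e1 e2 b) := by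
  obtain ⟨c, hc⟩ := h.span a ha
  have hsub : X.Lr b ⊆ X.X := (h.LrP b).trans Set.subset_union_right
  have t1 : Triv G (X.Lr b) (lc c (X.wb e1 e2)) := by
    refine ((hc.mono hsub).add t).congr fun x y _ => ?_
    simp only [Pi.add_apply]
    rw [add_comm (a x y) _, add_assoc, two_add, add_zero]
  obtain ⟨f, hf⟩ := h.pot (fun a => h.LvL a b) t1
  obtain ⟨u, hu⟩ := h.cut_co (c := fun b' => f (e1 b') + f (e2 b')) ⟨f, fun _ => rfl⟩
  have t2 : Triv G X.X (lc (fun b' => f (e1 b') + f (e2 b')) (X.wb e1 e2)) :=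
    hu.triv (dXB h)
  have hsum : ∀ x y, lc c (X.wb e1 e2) x y =
      lc (fun b' => f (e1 b') + f (e2 b')) (X.wb e1 e2) x y +
        (c b + (f (e1 b) + f (e2 b))) * X.wb e1 e2 b x y := by
    intro x y
    have h1 : ∀ b', c b' = (f (e1 b') + f (e2 b')) +
        (if b' = b then c b + (f (e1 b) + f (e2 b)) else 0) := by
      intro b'
      by_cases hb' : b' = b
      · subst hb'
        rw [if_pos rfl, ← add_assoc, add_comm _ (c b'), add_assoc, two_add, add_zero]
      · rw [if_neg hb', add_zero]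
        exact hf b' (h.LeL b' b hb')
    show ∑ b', c b' * X.wb e1 e2 b' x y = ∑ b', (f (e1 b') + f (e2 b')) * X.wb e1 e2 b' x y + _
    rw [Finset.sum_congr rfl (fun b' _ => by rw [h1 b', add_mul]), Finset.sum_add_distrib]
    congr 1
    rw [Finset.sum_eq_single b (fun b' _ hb' => by rw [if_neg hb', zero_mul])
      (fun hb' => absurd (Finset.mem_univ b) hb'), if_pos rfl]
  rcases z2_cases (c b + (f (e1 b) + f (e2 b))) with e | e
  · left
    refine (hc.add t2).congr fun x y _ => ?_
    simp only [Pi.add_apply]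
    rw [hsum x y, e, zero_mul, add_zero, add_assoc, two_add, add_zero]
  · right
    refine (hc.add t2).congr fun x y _ => ?_
    simp only [Pi.add_apply]
    rw [hsum x y, e, one_mul]
    generalize a x y = r1
    generalize lc (fun b' => f (e1 b') + f (e2 b')) (X.wb e1 e2) x y = r2
    generalize X.wb e1 e2 b x y = r3
    revert r1 r2 r3
    decide

/-- restriction from the closed own side to the wall is injective (`main_Inj` with
`M = P ∪ N`, `A = P`) -/
theorem ScS.inj_S (h : ScS G e1 e2 inc X) : Inj G X.X X.S := by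
  have w := h.wall
  have hc : (X.P ∪ X.N)ᶜ = X.S := by
    ext x
    have hcov := Set.eq_univ_iff_forall.1 w.cover x
    constructor
    · intro hx
      rcases hcov with (h1 | h1) | h1
      · exact h1
      · exact absurd (Or.inl h1) hx
      · exact absurd (Or.inr h1) hx
    · rintro hx (h1 | h1)
      · exact Set.disjoint_left.1 w.dqp hx h1
      · exact Set.disjoint_left.1 w.dqn hx h1
  have h1 := main_Inj (G := G) (A := X.P) (M := X.P ∪ X.N) h.sph.hz Set.subset_union_left
    (fun x hx y hy => w.nadj x hx y (hy.1.resolve_left hy.2))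
  rw [hc] at h1
  exact h1

private theorem wall_conn {S P N : Set V} (w : Wall G S P N) (cS : Conn G S)
    (cP : Conn G P) : Conn G (S ∪ P) := by
  obtain ⟨x, hx⟩ := cS.1
  have h1 := w.hp {x} (Finset.singleton_nonempty x) (by simp) (by simpa using hx)
  obtain ⟨y, hy, hyP⟩ := h1.1.1
  exact conn_union_adj cS cP hx hyP (hy x (by simp))

theorem ScS.cX [Finite V] (h : ScS G e1 e2 inc X) : Conn G X.X :=
  wall_conn h.wall h.cS h.cP

theorem ScS.cY [Finite V] (h : ScS G e1 e2 inc X) : Conn G X.Y :=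
  wall_conn h.wall.swap h.cS h.cN

/-- a plate meets the wall, and the wall is not inside a plate: `Z ⊆ U b ∩ S`; `S ⊆ U b` would put the
connected set `(U b)ᶜ`, which meets `P` (`Lr b`) and `N` (`Bs`), inside `P ∪ N`, and `P`, `N` are not
adjacent. -/
theorem ScU.meet (h : ScS G e1 e2 inc X) (hu : ScU G e1 e2 inc X) (b : Bc) :
    (X.U b ∩ X.S).Nonempty ∧ (X.S \ X.U b).Nonempty := by
  constructor
  · obtain ⟨Z, hZ, hZs, -⟩ := hu.U3 b
    exact hZ.1.mono hZs
  · by_contra hne
    rw [Set.not_nonempty_iff_eq_empty, Set.diff_eq_empty] at hne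
    obtain ⟨x, hx⟩ := (h.LrC b).1
    obtain ⟨y, hy⟩ := h.cBs.1
    have hx' : x ∈ (X.U b)ᶜ := fun h1 => Set.disjoint_left.1 (hu.ULr b) h1 hx
    have hy' : y ∈ (X.U b)ᶜ := fun h1 => Set.disjoint_left.1 (hu.UBs b) h1 hy
    have hr := (hu.UCc b).2 x hx' y hy'
    have key : ∀ z, Relation.ReflTransGen (EIn G (X.U b)ᶜ) x z → z ∈ X.P := by
      intro z hz
      induction hz with
      | refl => exact h.LrP b hx
      | @tail u v _ e ih =>
        rcases Set.eq_univ_iff_forall.1 h.wall.cover v with (h1 | h1) | h1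
        · exact absurd (hne h1) e.2.2
        · exact h1
        · exact absurd e.1 (h.wall.nadj u ih v h1)
    exact Set.disjoint_left.1 h.wall.dpn (key y hr) (h.BsN hy)

end MOT
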