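import Pool.Agent.MOT.DmA
import Pool.Agent.MOT.CyE

/-!
# MOT/ScC: coarse combinatorics of `IsSph3 Gc` (helper10, for S1 and S2)

`Ec`, `Fc`, `Te` = edges, triangles, tetrahedra of the coarse complex.
`coarse_e`: the 1-skeleton minus an edge is connected.  `coarse_s`: the dual graph minus a triangle is
connected.  `around_e`, `around_s`: the tetrahedra around an edge (the vertices of a triangle) form a cycle.
-/

open Classical

noncomputable section

namespace MOT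

variable {Vc : Type} {Gc : SimpleGraph Vc}

private theorem nm_h10 {s : Finset Vc} {z : Vc} (hz : z ∈ Lk Gc (s : Set Vc)) : z ∉ s :=
  fun h => (hz z (Finset.mem_coe.2 h)).ne rfl

private theorem ins_h10 {s : Finset Vc} (hs : Gc.IsClique (s : Set Vc)) {z : Vc}
    (hz : z ∈ Lk Gc (s : Set Vc)) : Gc.IsClique ((insert z s : Finset Vc) : Set Vc) := by
  rw [Finset.coe_insert]
  exact hs.insert fun b hb _ => (hz b hb).symm

private theorem te_h10 (s : Fc Gc) {z : Vc} (hz : z ∈ Lk Gc (s.1 : Set Vc)) :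
    ∃ t : Te Gc, t.1 = insert z s.1 :=
  ⟨⟨insert z s.1, by rw [Finset.card_insert_of_notMem (nm_h10 hz), s.2.1], ins_h10 s.2.2 hz⟩, rfl⟩

private theorem ted_h10 (s : Fc Gc) (t : Te Gc) (h : s.1 ⊆ t.1) :
    ∃ z ∈ Lk Gc (s.1 : Set Vc), t.1 = insert z s.1 := by
  have h1 : (t.1 \ s.1).card = 1 := by
    rw [Finset.card_sdiff_of_subset h, t.2.1, s.2.1]
  obtain ⟨x, hx⟩ := Finset.card_eq_one.1 h1
  have hx1 : x ∈ t.1 \ s.1 := by rw [hx]; exact Finset.mem_singleton_self x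
  rw [Finset.mem_sdiff] at hx1
  refine ⟨x, fun y hy => ?_, ?_⟩
  · have hy' : y ∈ s.1 := Finset.mem_coe.1 hy
    refine t.2.2 (Finset.mem_coe.2 (h hy')) (Finset.mem_coe.2 hx1.1) ?_
    rintro rfl
    exact hx1.2 hy'
  · have h2 := Finset.sdiff_union_of_subset h
    rw [hx] at h2
    rw [← h2]
    rfl

/-- two different vertices of an edge are adjacent -/
theorem e_adj (e : Ec Gc) {v w : Vc} (hv : v ∈ e.1) (hw : w ∈ e.1) (hvw : v ≠ w) : Gc.Adj v w :=
  e.2.2 (Finset.mem_coe.2 hv) (Finset.mem_coe.2 hw) hvw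

/-- the edge `vw` -/
def mkE {v w : Vc} (h : Gc.Adj v w) : Ec Gc := ⟨{v, w}, Finset.card_pair h.ne, (eg Gc h).2.2⟩

theorem ends_e (e : Ec Gc) : ∃ v w, v ≠ w ∧ e.1 = {v, w} := by
  obtain ⟨v, w, h1, h2⟩ := Finset.card_eq_two.1 e.2.1
  exact ⟨v, w, h1, h2⟩

/-- an edge is determined by two different vertices of it -/
theorem simple_e {e e' : Ec Gc} {v w : Vc} (hvw : v ≠ w) (h1 : v ∈ e.1) (h2 : w ∈ e.1)
    (h3 : v ∈ e'.1) (h4 : w ∈ e'.1) : e = e' := by
  have key : ∀ e : Ec Gc, v ∈ e.1 → w ∈ e.1 → ({v, w} : Finset Vc) = e.1 := by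
    intro e h1 h2
    refine Finset.eq_of_subset_of_card_le ?_ (by rw [e.2.1, Finset.card_pair hvw])
    intro z hz
    rw [Finset.mem_insert, Finset.mem_singleton] at hz
    rcases hz with rfl | rfl
    · exact h1
    · exact h2
  exact Subtype.ext ((key e h1 h2).symm.trans (key e' h3 h4))

theorem inter_s (s : Fc Gc) (t t' : Te Gc) (h : t ≠ t') (h1 : s.1 ⊆ t.1) (h2 : s.1 ⊆ t'.1) :
    t.1 ∩ t'.1 = s.1 := by
  refine (Finset.eq_of_subset_of_card_le (Finset.subset_inter h1 h2) ?_).symm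
  rw [s.2.1]
  by_contra hn
  have h3 := Finset.card_le_card (Finset.inter_subset_left : t.1 ∩ t'.1 ⊆ t.1)
  rw [t.2.1] at h3
  have h4 : t.1 ∩ t'.1 = t.1 :=
    Finset.eq_of_subset_of_card_le Finset.inter_subset_left (by rw [t.2.1]; omega)
  have h5 : t.1 ∩ t'.1 = t'.1 :=
    Finset.eq_of_subset_of_card_le Finset.inter_subset_right (by rw [t'.2.1]; omega)
  exact h (Subtype.ext (h4.symm.trans h5))

/-- a triangle is determined by two different tetrahedra above it -/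
theorem simple_s {s s' : Fc Gc} {t t' : Te Gc} (htt : t ≠ t') (h1 : s.1 ⊆ t.1) (h2 : s.1 ⊆ t'.1)
    (h3 : s'.1 ⊆ t.1) (h4 : s'.1 ⊆ t'.1) : s = s' :=
  Subtype.ext ((inter_s s t t' htt h1 h2).symm.trans (inter_s s' t t' htt h3 h4))

theorem TAdj_iff (t t' : Te Gc) :
    TAdj t.1 t'.1 ↔ t ≠ t' ∧ ∃ s : Fc Gc, s.1 ⊆ t.1 ∧ s.1 ⊆ t'.1 := by
  constructor
  · rintro ⟨h1, h2⟩
    refine ⟨fun e => h1 (congrArg Subtype.val e), ⟨⟨t.1 ∩ t'.1, h2, ?_⟩,
      Finset.inter_subset_left, Finset.inter_subset_right⟩⟩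
    exact t.2.2.subset (Finset.coe_subset.2 Finset.inter_subset_left)
  · rintro ⟨h1, s, h2, h3⟩
    exact ⟨fun e => h1 (Subtype.ext e), by rw [inter_s s t t' h1 h2 h3, s.2.1]⟩

theorem ends_s (h : IsSph3 Gc) (s : Fc Gc) : ∃ t t' : Te Gc, t ≠ t' ∧ s.1 ⊆ t.1 ∧ s.1 ⊆ t'.1 ∧
    ∀ t'' : Te Gc, s.1 ⊆ t''.1 → t'' = t ∨ t'' = t' := by
  obtain ⟨a, b, hab, hL⟩ := Set.ncard_eq_two.1 (h.tri s.1 s.2.2 s.2.1)
  have ha : a ∈ Lk Gc (s.1 : Set Vc) := by rw [hL]; simp
  have hb : b ∈ Lk Gc (s.1 : Set Vc) := by rw [hL]; simp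
  obtain ⟨t, ht⟩ := te_h10 s ha
  obtain ⟨t', ht'⟩ := te_h10 s hb
  refine ⟨t, t', ?_, by rw [ht]; exact Finset.subset_insert _ _,
    by rw [ht']; exact Finset.subset_insert _ _, fun u hu => ?_⟩
  · intro e
    have h2 : a ∈ insert b s.1 := by rw [← ht', ← e, ht]; exact Finset.mem_insert_self _ _
    rcases Finset.mem_insert.1 h2 with h3 | h3
    · exact hab h3
    · exact nm_h10 ha h3
  · obtain ⟨z, hz, hu'⟩ := ted_h10 s u hu
    rw [hL] at hz
    rcases hz with rfl | hz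
    · exact Or.inl (Subtype.ext (hu'.trans ht.symm))
    · rw [Set.mem_singleton_iff] at hz
      subst hz
      exact Or.inr (Subtype.ext (hu'.trans ht'.symm))

/-- every edge lies in a triangle -/
theorem e_tri (h : IsSph3 Gc) (e : Ec Gc) : ∃ (s : Fc Gc) (z : Vc), z ∉ e.1 ∧
    s.1 = insert z e.1 := by
  obtain ⟨⟨x, hx⟩, -⟩ := (h.edge e.1 e.2.2 e.2.1).1
  exact ⟨⟨insert x e.1, by rw [Finset.card_insert_of_notMem (nm_h10 hx), e.2.1],
    ins_h10 e.2.2 hx⟩, x, nm_h10 hx, rfl⟩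

/-- every edge lies in a tetrahedron -/
theorem e_te (h : IsSph3 Gc) (e : Ec Gc) : ∃ t : Te Gc, e.1 ⊆ t.1 := by
  obtain ⟨s, z, -, hs⟩ := e_tri h e
  obtain ⟨t, -, -, ht, -⟩ := ends_s h s
  exact ⟨t, fun x hx => ht (by rw [hs]; exact Finset.mem_insert_of_mem hx)⟩

/-- every vertex lies in an edge -/
theorem v_e (h : IsSph3 Gc) (v : Vc) : ∃ e : Ec Gc, v ∈ e.1 := by
  obtain ⟨⟨y, hy⟩, -⟩ := (h.vert v).1
  exact ⟨mkE (hy v rfl : Gc.Adj v y), Finset.mem_insert_self _ _⟩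

theorem Te_ne (h : IsSph3 Gc) : Nonempty (Te Gc) := by
  obtain ⟨⟨x, -⟩, -⟩ := h.conn
  obtain ⟨e, -⟩ := v_e h x
  obtain ⟨t, -⟩ := e_te h e
  exact ⟨t⟩

/-- a tetrahedron without one vertex -/
theorem te_erase (t : Te Gc) {x : Vc} (hx : x ∈ t.1) : ∃ s : Fc Gc, s.1 = t.1.erase x :=
  ⟨⟨t.1.erase x, by rw [Finset.card_erase_of_mem hx, t.2.1],
    t.2.2.subset (Finset.coe_subset.2 (Finset.erase_subset _ _))⟩, rfl⟩

theorem e_not_s (h : IsSph3 Gc) (e : Ec Gc) : ∃ s : Fc Gc, ¬ e.1 ⊆ s.1 := by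
  obtain ⟨t, ht⟩ := e_te h e
  obtain ⟨v, w, -, he⟩ := ends_e e
  have hv : v ∈ e.1 := by rw [he]; simp
  obtain ⟨s, hs⟩ := te_erase t (ht hv)
  refine ⟨s, fun h1 => ?_⟩
  have h2 := h1 hv
  rw [hs] at h2
  exact Finset.notMem_erase v t.1 h2

theorem s_not_e (h : IsSph3 Gc) (s : Fc Gc) : ∃ e : Ec Gc, ¬ e.1 ⊆ s.1 := by
  obtain ⟨t, -, -, ht, -⟩ := ends_s h s
  obtain ⟨z, hz, -⟩ := ted_h10 s t ht
  obtain ⟨x, hx⟩ : s.1.Nonempty := by
    rw [← Finset.card_pos, s.2.1]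
    norm_num
  refine ⟨mkE (hz x (Finset.mem_coe.2 hx)), fun h1 => ?_⟩
  exact nm_h10 hz (h1 (show z ∈ ({x, z} : Finset Vc) by simp))

/-- for `v ∉ e` there is a triangle above `e` without `v` -/
theorem s_no_v (h : IsSph3 Gc) (e : Ec Gc) (v : Vc) (hv : v ∉ e.1) :
    ∃ s : Fc Gc, e.1 ⊆ s.1 ∧ v ∉ s.1 := by
  have hC := h.edge e.1 e.2.2 e.2.1
  obtain ⟨x, hx, hxv⟩ : ∃ x ∈ Lk Gc (e.1 : Set Vc), x ≠ v := by
    obtain ⟨⟨x, hx⟩, -⟩ := hC.1
    by_cases e1 : x = v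
    · obtain ⟨y, hy⟩ : {y | EIn Gc (Lk Gc (e.1 : Set Vc)) x y}.Nonempty :=
        Set.nonempty_of_ncard_ne_zero (by rw [hC.2 x hx]; norm_num)
      exact ⟨y, hy.2.2, fun e2 => hy.1.ne (e1.trans e2.symm)⟩
    · exact ⟨x, hx, e1⟩
  refine ⟨⟨insert x e.1, by rw [Finset.card_insert_of_notMem (nm_h10 hx), e.2.1],
    ins_h10 e.2.2 hx⟩, Finset.subset_insert _ _, fun h1 => ?_⟩
  rcases Finset.mem_insert.1 h1 with h2 | h2
  · exact hxv h2.symm
  · exact hv h2

/-! ## The graphs minus an edge are connected -/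

theorem coarse_e (h : IsSph3 Gc) (e : Ec Gc) (f : Vc → ZMod 2)
    (hf : ∀ e' : Ec Gc, e' ≠ e → ∀ v ∈ e'.1, ∀ w ∈ e'.1, f v = f w) (v w : Vc) : f v = f w := by
  obtain ⟨s, z, hz, hs⟩ := e_tri h e
  have h1 : ∀ x ∈ e.1, f x = f z := by
    intro x hx
    have hxs : x ∈ s.1 := by rw [hs]; exact Finset.mem_insert_of_mem hx
    have hzs : z ∈ s.1 := by rw [hs]; exact Finset.mem_insert_self _ _
    have hxz : x ≠ z := fun h => hz (h ▸ hx)
    have had : Gc.Adj x z := s.2.2 (Finset.mem_coe.2 hxs) (Finset.mem_coe.2 hzs) hxz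
    have hz' : z ∈ (mkE had).1 := show z ∈ ({x, z} : Finset Vc) by simp
    refine hf (mkE had) ?_ x (show x ∈ ({x, z} : Finset Vc) by simp) z hz'
    intro he
    rw [he] at hz'
    exact hz hz'
  refine h.conn.const (f := f) (fun x y hxy => ?_) trivial trivial
  by_cases he : mkE hxy.1 = e
  · have hx : x ∈ e.1 := by rw [← he]; exact show x ∈ ({x, y} : Finset Vc) by simp
    have hy : y ∈ e.1 := by rw [← he]; exact show y ∈ ({x, y} : Finset Vc) by simp
    rw [h1 x hx, h1 y hy]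
  · exact hf _ he x (show x ∈ ({x, y} : Finset Vc) by simp) y
      (show y ∈ ({x, y} : Finset Vc) by simp)

private theorem clt_sc_h10 {s t : Cq Gc} (h : s < t) : s.1.card < t.1.card :=
  Finset.card_lt_card (Cq.lt_iff.1 h)

private theorem lt_sc_h10 {s t : Cq Gc} (h : s.1 ⊆ t.1) (hc : s.1.card < t.1.card) : s < t := by
  rw [Cq.lt_iff]
  exact ⟨h, fun e => absurd (Finset.card_le_card e) (not_le.2 hc)⟩

private theorem up_two_sc_h10 [Finite Vc] (h : IsSph3 Gc) (e : Ec Gc) :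
    TwoReg (sd Gc) {σ | e.q < σ} := by
  refine ⟨(above_cyc h e.q e.2.1).2, fun x y z h1 h2 h3 => ?_⟩
  have he : e.q.1.card = 2 := e.2.1
  have kx := h.k5 x.1 x.2.2
  have ky := h.k5 y.1 y.2.2
  have kz := h.k5 z.1 z.2.2
  have lx := clt_sc_h10 (show e.q < x from h1.2.1)
  have ly := clt_sc_h10 (show e.q < y from h1.2.2)
  have lz := clt_sc_h10 (show e.q < z from h2.2.2)
  rcases h1.1 with a | a <;> rcases h2.1 with b | b <;> rcases h3.1 with c | c <;>
    have a' := clt_sc_h10 a <;> have b' := clt_sc_h10 b <;> have c' := clt_sc_h10 c <;> omega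

/-- an edge of the cycle above `e`: a triangle in a tetrahedron -/
private theorem up_pair_h10 (h : IsSph3 Gc) (e : Ec Gc) {x y : Cq Gc} (hx : e.q < x)
    (hxy : x < y) : ∃ (s : Fc Gc) (t : Te Gc), x = s.q ∧ y = t.q ∧ e.1 ⊆ s.1 ∧ s.1 ⊆ t.1 := by
  have he : e.q.1.card = 2 := e.2.1
  have k1 := clt_sc_h10 hx
  have k2 := clt_sc_h10 hxy
  have k3 := h.k5 y.1 y.2.2
  exact ⟨⟨x.1, by omega, x.2.2⟩, ⟨y.1, by omega, y.2.2⟩, rfl, rfl, (Cq.lt_iff.1 hx).1,
    (Cq.lt_iff.1 hxy).1⟩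

private theorem qs_h10 {s s' : Fc Gc} (h : s.q = s'.q) : s = s' :=
  Subtype.ext (congrArg (fun q : Cq Gc => q.1) h)

private theorem qt_h10 {s s' : Te Gc} (h : s.q = s'.q) : s = s' :=
  Subtype.ext (congrArg (fun q : Cq Gc => q.1) h)

private theorem st_h10 (s : Fc Gc) (t : Te Gc) : s.q ≠ t.q := by
  intro h
  have h1 : s.q.1.card = t.q.1.card := by rw [h]
  rw [show s.q.1.card = 3 from s.2.1, show t.q.1.card = 4 from t.2.1] at h1
  omega

private theorem est_h10 {e : Ec Gc} {s : Fc Gc} {t : Te Gc} (h1 : e.1 ⊆ s.1) (h2 : s.1 ⊆ t.1) :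
    EIn (sd Gc) {σ | e.q < σ} s.q t.q := by
  have c1 : e.q.1.card = 2 := e.2.1
  have c2 : s.q.1.card = 3 := s.2.1
  have c3 : t.q.1.card = 4 := t.2.1
  have l1 : e.q < s.q := lt_sc_h10 h1 (by omega)
  have l2 : s.q < t.q := lt_sc_h10 h2 (by omega)
  exact ⟨Or.inl l2, l1, l1.trans l2⟩

/-- indicator of the edge `{s, t}` -/
private def iw_h10 (s : Fc Gc) (t : Te Gc) : Cq Gc → Cq Gc → ZMod 2 := fun a b =>
  if (a = s.q ∧ b = t.q) ∨ (b = s.q ∧ a = t.q) then 1 else 0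

private theorem iw_sym_h10 (s : Fc Gc) (t : Te Gc) (a b : Cq Gc) :
    iw_h10 s t a b = iw_h10 s t b a := if_congr or_comm rfl rfl

private theorem iw_val_h10 (s s' : Fc Gc) (t t' : Te Gc) :
    iw_h10 s t s'.q t'.q = if s' = s ∧ t' = t then 1 else 0 := by
  refine if_congr ?_ rfl rfl
  constructor
  · rintro (⟨a, b⟩ | ⟨a, -⟩)
    · exact ⟨qs_h10 a, qt_h10 b⟩
    · exact absurd a.symm (st_h10 s t')
  · rintro ⟨rfl, rfl⟩
    exact Or.inl ⟨rfl, rfl⟩

/-- a value for a simplex of the dual graph -/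
private def fv_h10 (h : IsSph3 Gc) (f : Te Gc → ZMod 2) (s : Fc Gc) (a : ZMod 2) (x : Cq Gc) :
    ZMod 2 :=
  if h4 : x.1.card = 4 then f ⟨x.1, h4, x.2.2⟩
  else if x = s.q then a
  else if h3 : x.1.card = 3 then f (ends_s h ⟨x.1, h3, x.2.2⟩).choose else 0

private theorem fv_t_h10 (h : IsSph3 Gc) (f : Te Gc → ZMod 2) (s : Fc Gc) (a : ZMod 2)
    (t : Te Gc) : fv_h10 h f s a t.q = f t := by
  unfold fv_h10
  rw [dif_pos (show t.q.1.card = 4 from t.2.1)]
  rfl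

private theorem fv_s_h10 (h : IsSph3 Gc) (f : Te Gc → ZMod 2) (s : Fc Gc) (a : ZMod 2) :
    fv_h10 h f s a s.q = a := by
  unfold fv_h10
  rw [dif_neg (by rw [show s.q.1.card = 3 from s.2.1]; norm_num), if_pos rfl]

private theorem fv_o_h10 (h : IsSph3 Gc) (f : Te Gc → ZMod 2) (s : Fc Gc) (a : ZMod 2)
    (s' : Fc Gc) (hne : s' ≠ s) : fv_h10 h f s a s'.q = f (ends_s h s').choose := by
  unfold fv_h10
  rw [dif_neg (by rw [show s'.q.1.card = 3 from s'.2.1]; norm_num),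
    if_neg (fun e => hne (qs_h10 e)), dif_pos (show s'.q.1.card = 3 from s'.2.1)]
  rfl

/-- a function which is constant across all triangles is constant -/
theorem te_const [Finite Vc] (h : IsSph3 Gc) (f : Te Gc → ZMod 2)
    (hf : ∀ s' : Fc Gc, ∀ t t' : Te Gc, s'.1 ⊆ t.1 → s'.1 ⊆ t'.1 → f t = f t')
    (t t' : Te Gc) : f t = f t' := by
  obtain ⟨x, hx⟩ : t.1.Nonempty := by
    rw [← Finset.card_pos, t.2.1]
    norm_num
  obtain ⟨s, hs⟩ := te_erase t hx
  have hst : s.1 ⊆ t.1 := by rw [hs]; exact Finset.erase_subset _ _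
  set a := f t with ha
  have key : ∀ (s' : Fc Gc) (u : Te Gc), s'.1 ⊆ u.1 → fv_h10 h f s a s'.q = f u := by
    intro s' u hu
    by_cases e : s' = s
    · rw [e, fv_s_h10, ha]
      exact hf s t u hst (e ▸ hu)
    · rw [fv_o_h10 h f s a s' e]
      exact hf s' _ u (ends_s h s').choose_spec.choose_spec.2.1 hu
  have h1 := (Xs_compl_Conn h).const (f := fv_h10 h f s a) (fun x y e => ?_) (x := t.q)
    (y := t'.q) (fun hc => ?_) (fun hc => ?_)
  · rwa [fv_t_h10, fv_t_h10, ← ha] at h1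
  · have hx : ¬ x.1.card ≤ 2 := e.2.1
    have hy : ¬ y.1.card ≤ 2 := e.2.2
    have main : ∀ x y : Cq Gc, ¬ x.1.card ≤ 2 → x < y → fv_h10 h f s a x = fv_h10 h f s a y := by
      intro x y hx hxy
      have k1 := clt_sc_h10 hxy
      have k2 := h.k5 y.1 y.2.2
      obtain ⟨s1, es⟩ : ∃ s1 : Fc Gc, s1.q = x := ⟨⟨x.1, by omega, x.2.2⟩, rfl⟩
      obtain ⟨t1, et⟩ : ∃ t1 : Te Gc, t1.q = y := ⟨⟨y.1, by omega, y.2.2⟩, rfl⟩
      have hst : s1.q.1 ⊆ t1.q.1 := by rw [es, et]; exact (Cq.lt_iff.1 hxy).1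
      rw [← es, ← et, fv_t_h10]
      exact key s1 t1 hst
    rcases e.1 with h2 | h2
    · exact main x y hx h2
    · exact (main y x hy h2).symm
  · have h2 : t.q.1.card ≤ 2 := hc
    rw [show t.q.1.card = 4 from t.2.1] at h2
    omega
  · have h2 : t'.q.1.card ≤ 2 := hc
    rw [show t'.q.1.card = 4 from t'.2.1] at h2
    omega

theorem coarse_s [Finite Vc] (h : IsSph3 Gc) (s : Fc Gc) (f : Te Gc → ZMod 2)
    (hf : ∀ s' : Fc Gc, s' ≠ s → ∀ t t' : Te Gc, s'.1 ⊆ t.1 → s'.1 ⊆ t'.1 → f t = f t')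
    (t t' : Te Gc) : f t = f t' := by
  refine te_const h f (fun s' u u' hu hu' => ?_) t t'
  by_cases e : s' = s
  swap
  · exact hf s' e u u' hu hu'
  subst e
  obtain ⟨a, b, hab, ha, hb, hall⟩ := ends_s h s'
  have main : f a = f b := by
    by_contra hne
    obtain ⟨E, hE1, hE2⟩ := Finset.exists_subset_card_eq
      (show 2 ≤ s'.1.card by rw [s'.2.1]; norm_num)
    let e : Ec Gc := ⟨E, hE2, s'.2.2.subset (Finset.coe_subset.2 hE1)⟩
    have hes : e.1 ⊆ s'.1 := hE1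
    refine cyc_ed1 (up_two_sc_h10 h e) (est_h10 hes hb) ⟨fv_h10 h f s' (f a), fun x y exy => ?_⟩
    have key : ∀ x y : Cq Gc, e.q < x → x < y →
        iw_h10 s' b x y = fv_h10 h f s' (f a) x + fv_h10 h f s' (f a) y := by
      intro x y hx hxy
      obtain ⟨s2, t2, rfl, rfl, h1, h2⟩ := up_pair_h10 h e hx hxy
      rw [iw_val_h10, fv_t_h10]
      by_cases e2 : s2 = s'
      · subst e2
        rw [fv_s_h10]
        rcases hall t2 h2 with rfl | rfl
        · rw [if_neg (fun h => hab h.2), two_add]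
        · rw [if_pos ⟨rfl, rfl⟩]
          have : ∀ p q : ZMod 2, p ≠ q → 1 = p + q := by decide
          exact this _ _ hne
      · rw [if_neg (fun h => e2 h.1), fv_o_h10 h f s' (f a) s2 e2,
          hf s2 e2 _ t2 (ends_s h s2).choose_spec.choose_spec.2.1 h2, two_add]
    rcases exy.1 with h3 | h3
    · exact key x y exy.2.1 h3
    · have h4 := key y x exy.2.2 h3
      rw [iw_sym_h10, add_comm] at h4
      exact h4
  rcases hall u hu with rfl | rfl <;> rcases hall u' hu' with rfl | rfl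
  · rfl
  · exact main
  · exact main.symm
  · rfl

theorem around_e [Finite Vc] (h : IsSph3 Gc) (e : Ec Gc) (s s' : Fc Gc) (hs : e.1 ⊆ s.1)
    (hs' : e.1 ⊆ s'.1) : ∃ f : Te Gc → ZMod 2, ∀ (s'' : Fc Gc) (t t' : Te Gc), t ≠ t' →
      e.1 ⊆ s''.1 → s''.1 ⊆ t.1 → s''.1 ⊆ t'.1 →
      f t + f t' = (if s'' = s then 1 else 0) + (if s'' = s' then 1 else 0) := by
  obtain ⟨a, -, -, ha, -, -⟩ := ends_s h s
  obtain ⟨b, -, -, hb, -, -⟩ := ends_s h s'
  have hT := up_two_sc_h10 h e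
  have hC : IsCyc (sd Gc) {σ | e.q < σ} := above_cyc h e.q e.2.1
  have hZ : ∀ (s : Fc Gc) (t : Te Gc), rs (sd Gc) {σ | e.q < σ} (iw_h10 s t) ∈
      Z1 (sd Gc) {σ | e.q < σ} := by
    intro s t
    refine mem_Z1.2 ⟨fun x y e => if_neg e, fun x y => ?_, fun x y z e1 e2 e3 =>
      (hT.tri x y z e1 e2 e3).elim⟩
    unfold rs
    by_cases e : EIn (sd Gc) {σ | e.q < σ} x y
    · rw [if_pos e, if_pos e.symm, iw_sym_h10]
    · rw [if_neg e, if_neg (fun e' => e e'.symm)]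
  obtain ⟨F, hF⟩ := cyc_sum hC (hZ s a) (hZ s' b)
    (fun t => cyc_ed1 hT (est_h10 hs ha) (Triv_rs.1 t))
    (fun t => cyc_ed1 hT (est_h10 hs' hb) (Triv_rs.1 t))
  refine ⟨fun t => F t.q, fun s'' t t' htt he ht ht' => ?_⟩
  have e1 := hF _ _ (est_h10 he ht)
  have e2 := hF _ _ (est_h10 he ht')
  simp only [Pi.add_apply, rs_apply (est_h10 he ht), iw_val_h10] at e1
  simp only [Pi.add_apply, rs_apply (est_h10 he ht'), iw_val_h10] at e2
  have key : ∀ (s : Fc Gc) (a : Te Gc), s.1 ⊆ a.1 →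
      (if s'' = s ∧ t = a then (1 : ZMod 2) else 0) + (if s'' = s ∧ t' = a then 1 else 0) =
        if s'' = s then 1 else 0 := by
    intro s a ha
    by_cases e : s'' = s
    · subst e
      have h3 : a = t ∨ a = t' := by
        obtain ⟨p, q, hpq, -, -, hall⟩ := ends_s h s''
        rcases hall t ht with rfl | rfl <;> rcases hall t' ht' with rfl | rfl
        · exact absurd rfl htt
        · exact hall a ha
        · exact (hall a ha).symm
        · exact absurd rfl htt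
      rcases h3 with rfl | rfl
      · rw [if_pos ⟨rfl, rfl⟩, if_neg (fun h => htt h.2.symm), if_pos rfl, add_zero]
      · rw [if_neg (fun h => htt h.2), if_pos ⟨rfl, rfl⟩, if_pos rfl, zero_add]
    · rw [if_neg (fun h => e h.1), if_neg (fun h => e h.1), if_neg e, add_zero]
  have k1 := key s a ha
  have k2 := key s' b hb
  have k3 := two_add (F s''.q)
  linear_combination k1 + k2 - e1 - e2 - k3

theorem around_s (s : Fc Gc) (e e' : Ec Gc) (he : e.1 ⊆ s.1) (he' : e'.1 ⊆ s.1) :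
    ∃ f : Vc → ZMod 2, ∀ (e'' : Ec Gc) (v w : Vc), v ≠ w → e''.1 ⊆ s.1 → v ∈ e''.1 → w ∈ e''.1 →
      f v + f w = (if e'' = e then 1 else 0) + (if e'' = e' then 1 else 0) := by
  by_cases hee : e = e'
  · subst hee
    refine ⟨0, fun e'' v w _ _ _ _ => ?_⟩
    rw [two_add]
    simp
  · -- the common vertex
    obtain ⟨p, hp, hp'⟩ : ∃ p ∈ e.1, p ∈ e'.1 := by
      by_contra hn
      push Not at hn
      have h1 : Disjoint e.1 e'.1 := Finset.disjoint_left.2 hn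
      have h2 := Finset.card_le_card (Finset.union_subset he he')
      rw [Finset.card_union_of_disjoint h1, e.2.1, e'.2.1, s.2.1] at h2
      omega
    have huniq : ∀ x ∈ e.1, x ∈ e'.1 → x = p := by
      intro x hx hx'
      by_contra hne
      exact hee (simple_e hne hx hp hx' hp')
    have hcov : ∀ x ∈ s.1, x ∈ e.1 ∨ x ∈ e'.1 := by
      have h1 : (e.1 ∩ e'.1).card ≤ 1 := by
        refine Finset.card_le_one.2 fun x hx y hy => ?_
        rw [Finset.mem_inter] at hx hy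
        rw [huniq x hx.1 hx.2, huniq y hy.1 hy.2]
      have h2 : e.1 ∪ e'.1 = s.1 := by
        refine Finset.eq_of_subset_of_card_le (Finset.union_subset he he') ?_
        have h3 := Finset.card_union_add_card_inter e.1 e'.1
        rw [e.2.1, e'.2.1] at h3
        rw [s.2.1]
        omega
      intro x hx
      rw [← h2] at hx
      exact Finset.mem_union.1 hx
    refine ⟨fun x => if x = p then 1 else 0, fun e'' v w hvw hes hv hw => ?_⟩
    show (if v = p then (1 : ZMod 2) else 0) + (if w = p then 1 else 0) = _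
    have key : ∀ v w, v ≠ w → v ∈ e''.1 → w ∈ e''.1 → v = p →
        (1 : ZMod 2) = (if e'' = e then 1 else 0) + (if e'' = e' then 1 else 0) := by
      rintro v w hvw hv hw rfl
      rcases hcov w (hes hw) with h1 | h1
      · have h2 : e'' = e := simple_e hvw hv hw hp h1
        rw [if_pos h2, if_neg (fun h => hee (h2.symm.trans h)), add_zero]
      · have h2 : e'' = e' := simple_e hvw hv hw hp' h1
        rw [if_neg (fun h => hee (h.symm.trans h2)), if_pos h2, zero_add]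
    by_cases h1 : v = p
    · rw [if_pos h1, if_neg (fun h => hvw (h1.trans h.symm)), add_zero]
      exact key v w hvw hv hw h1
    · by_cases h2 : w = p
      · rw [if_neg h1, if_pos h2, zero_add]
        exact key w v hvw.symm hw hv h2
      · have hpe : p ∉ e''.1 := by
          intro h3
          obtain ⟨a, b, hab, h4⟩ := ends_e e''
          rw [h4, Finset.mem_insert, Finset.mem_singleton] at h3 hv hw
          rcases hv with rfl | rfl <;> rcases hw with rfl | rfl <;> rcases h3 with rfl | rfl <;>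
            first | exact hvw rfl | exact h1 rfl | exact h2 rfl
        rw [if_neg h1, if_neg h2, if_neg (fun h => hpe (by rw [h]; exact hp)),
          if_neg (fun h => hpe (by rw [h]; exact hp'))]

/-! ## Functions `e1`, `e2` (ends of an edge) and `s1`, `s2` (the two tetrahedra at a triangle) for
helper14's fields -/

/-- first end of an edge -/
def cE1 (e : Ec Gc) : Vc := (ends_e e).choose

/-- second end of an edge -/
def cE2 (e : Ec Gc) : Vc := (ends_e e).choose_spec.choose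

theorem cE_ne (e : Ec Gc) : cE1 e ≠ cE2 e := (ends_e e).choose_spec.choose_spec.1

theorem cE_eq (e : Ec Gc) : e.1 = {cE1 e, cE2 e} := (ends_e e).choose_spec.choose_spec.2

theorem cE_m1 (e : Ec Gc) : cE1 e ∈ e.1 := by
  rw [cE_eq e]
  exact Finset.mem_insert_self _ _

theorem cE_m2 (e : Ec Gc) : cE2 e ∈ e.1 := by
  rw [cE_eq e]
  exact Finset.mem_insert_of_mem (Finset.mem_singleton_self _)

theorem cE_simple (e e' : Ec Gc) (h : ({cE1 e, cE2 e} : Set Vc) = {cE1 e', cE2 e'}) : e = e' := by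
  have key : ∀ x, x ∈ ({cE1 e', cE2 e'} : Set Vc) → x ∈ e'.1 := by
    rintro x (rfl | hx)
    · exact cE_m1 e'
    · rw [Set.mem_singleton_iff.1 hx]
      exact cE_m2 e'
  refine simple_e (cE_ne e) (cE_m1 e) (cE_m2 e) (key _ ?_) (key _ ?_)
  · rw [← h]; simp
  · rw [← h]; simp

theorem cE_graph (h : IsSph3 Gc) (e : Ec Gc) (f : Vc → ZMod 2)
    (hf : ∀ e' : Ec Gc, e' ≠ e → f (cE1 e') = f (cE2 e')) (v w : Vc) : f v = f w := by
  refine coarse_e h e f (fun e' he x hx y hy => ?_) v w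
  rw [cE_eq e', Finset.mem_insert, Finset.mem_singleton] at hx hy
  rcases hx with rfl | rfl <;> rcases hy with rfl | rfl
  · rfl
  · exact hf e' he
  · exact (hf e' he).symm
  · rfl

/-- first tetrahedron at a triangle -/
def cS1 (h : IsSph3 Gc) (s : Fc Gc) : Te Gc := (ends_s h s).choose

/-- second tetrahedron at a triangle -/
def cS2 (h : IsSph3 Gc) (s : Fc Gc) : Te Gc := (ends_s h s).choose_spec.choose

theorem cS_ne (h : IsSph3 Gc) (s : Fc Gc) : cS1 h s ≠ cS2 h s :=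
  (ends_s h s).choose_spec.choose_spec.1

theorem cS_sub1 (h : IsSph3 Gc) (s : Fc Gc) : s.1 ⊆ (cS1 h s).1 :=
  (ends_s h s).choose_spec.choose_spec.2.1

theorem cS_sub2 (h : IsSph3 Gc) (s : Fc Gc) : s.1 ⊆ (cS2 h s).1 :=
  (ends_s h s).choose_spec.choose_spec.2.2.1

theorem cS_all (h : IsSph3 Gc) (s : Fc Gc) (t : Te Gc) (ht : s.1 ⊆ t.1) :
    t = cS1 h s ∨ t = cS2 h s :=
  (ends_s h s).choose_spec.choose_spec.2.2.2 t ht

theorem cS_simple (h : IsSph3 Gc) (s s' : Fc Gc)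
    (he : ({cS1 h s, cS2 h s} : Set (Te Gc)) = {cS1 h s', cS2 h s'}) : s = s' := by
  have key : ∀ x, x ∈ ({cS1 h s', cS2 h s'} : Set (Te Gc)) → s'.1 ⊆ x.1 := by
    rintro x (rfl | hx)
    · exact cS_sub1 h s'
    · rw [Set.mem_singleton_iff.1 hx]
      exact cS_sub2 h s'
  refine simple_s (cS_ne h s) (cS_sub1 h s) (cS_sub2 h s) (key _ ?_) (key _ ?_)
  · rw [← he]; simp
  · rw [← he]; simp

theorem cS_graph [Finite Vc] (h : IsSph3 Gc) (s : Fc Gc) (f : Te Gc → ZMod 2)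
    (hf : ∀ s' : Fc Gc, s' ≠ s → f (cS1 h s') = f (cS2 h s')) (t t' : Te Gc) : f t = f t' := by
  refine coarse_s h s f (fun s' hs x y hx hy => ?_) t t'
  rcases cS_all h s' x hx with rfl | rfl <;> rcases cS_all h s' y hy with rfl | rfl
  · rfl
  · exact hf s' hs
  · exact (hf s' hs).symm
  · rfl

end MOT
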