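import Pool.Agent.MOT.ScAB
import Pool.Agent.MOT.ScB
import Pool.Agent.MOT.SaIX

/-!
# MOT/ScE: stage 2, flip of a disc of the wall inside a plate (helper73)
-/

open Classical

noncomputable section

namespace MOT

variable {V : Type} {G : SimpleGraph V} {A Bc Cc : Type} [Fintype Bc] [Fintype Cc]
  {e1 e2 : Bc → A} {inc : Bc → Cc → Prop} {X : Sc V A Bc Cc}

private theorem cq_adj_sce {s : Cq G} {x y : V} (hx : x ∈ s.1) (hy : y ∈ s.1) (h : x ≠ y) :
    G.Adj x y := s.2.2 (Finset.mem_coe.2 hx) (Finset.mem_coe.2 hy) h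

private theorem cq_nr_sce {s : Cq G} {x y : V} (hx : x ∈ s.1) (hy : y ∈ s.1) :
    Nr G x y := by
  by_cases h : x = y
  · exact Or.inl h
  · exact Or.inr (cq_adj_sce hx hy h)

/-- two elements of a clique of `sd G`, one in a component of the cut region, the other one not, both on
the wall -/
private theorem cut_pair_sce {S M D : Set V} (hD : IsComp G (M ∩ S) D) {C : Set (Cq G)}
    (hC : IsComp (sd G) (cut G S M D) C) {q : Cq (sd G)} {x y : Cq G} (hx : x ∈ q.1)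
    (hxS : x ∈ mi G S) (hxC : x ∈ C) (hy : y ∈ q.1) (hyS : y ∈ mi G S) (hyC : y ∉ C) :
    ∃ v ∈ x.1, ∃ u ∈ x.1, v ∈ M ∧ u ∉ M := by
  have hne : x ≠ y := fun e => hyC (e ▸ hxC)
  have ha : (sd G).Adj x y := cq_adj_sce hx hy hne
  have hycut : y ∉ cut G S M D := fun h => hC.nadj x hxC y ⟨h, hyC⟩ ha
  have h1 : x ∈ mi G S ∩ pl G ((M ∩ S) \ D) := by
    rw [← cut_trace hD.sub hD.nadj]
    exact ⟨hC.sub hxC, hxS⟩
  have h2 : y ∈ mi G (S \ (M \ D)) := by
    rw [← cut_trace_compl hD.sub hD.nadj]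
    exact ⟨hyS, hycut⟩
  obtain ⟨-, v, hv, ⟨hvM, hvS⟩, hvD⟩ := h1
  rcases ha with h | h
  · exact absurd (h2 v (h.le hv)).2 (fun h' => h' ⟨hvM, hvD⟩)
  · obtain ⟨u, hu⟩ := y.2.1
    have hux : u ∈ x.1 := h.le hu
    refine ⟨v, hv, u, hux, hvM, fun huM => ?_⟩
    have huD : u ∈ D := by
      by_contra h'
      exact (h2 u hu).2 ⟨huM, h'⟩
    have huv : u ≠ v := fun e => hvD (e ▸ huD)
    exact hD.nadj u huD v ⟨⟨hvM, hvS⟩, hvD⟩ (cq_adj_sce hux hv huv)

/-- localization after a flip.  `M` is the plate or its complement.  Sketch: `x ∈ C`, `y ∉ C`, both in `q` and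
in `mi S`; let `m` be the larger one of `x`, `y`.  `{x, y}` is mixed for `C` inside `mi S`, so for `cut G S M D`
(`C` is a component), `cut_curves`, `mx_curve`: `m ∈ FrIn G S ((M ∩ S) \ D)`, and `D` is not adjacent to the rest
of `M ∩ S`: `m` contains a vertex of `M` and one outside `M`.  `z ∈ q`: `z ≥ m` (apply `h` to `z`) or `z ≤ m`
(apply `h` to `m`). -/
theorem loc_cutS {S M D Ze : Set V} (hD : IsComp G (M ∩ S) D) {C : Set (Cq G)}
    (hC : IsComp (sd G) (cut G S M D) C)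
    (h : ∀ q : Cq G, (∃ x ∈ q.1, x ∈ S ∧ x ∈ M) → (∃ y ∈ q.1, y ∈ S ∧ y ∉ M) →
      ∀ z ∈ q.1, z ∈ Ze)
    (q : Cq (sd G)) (h1 : ∃ x ∈ q.1, x ∈ mi G S ∧ x ∈ C)
    (h2 : ∃ y ∈ q.1, y ∈ mi G S ∧ y ∉ C) : ∀ z ∈ q.1, pk z ∈ Ze := by
  obtain ⟨x, hx, hxS, hxC⟩ := h1
  obtain ⟨y, hy, hyS, hyC⟩ := h2
  obtain ⟨v, hv, u, hu, hvM, huM⟩ := cut_pair_sce hD hC hx hxS hxC hy hyS hyC
  intro z hz
  have hle : x ≤ mx q := le_mx q hx
  exact h (mx q) ⟨v, hle hv, hxS v hv, hvM⟩ ⟨u, hle hu, hxS u hu, huM⟩ (pk z)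
    (le_mx q hz (pk_mem z))

/-- the curves after a flip are old curves (`Fr_comp`-like for `FrIn`, `cut_curves`, `mx_curve`, then
`FrIn G S ((M ∩ S) \ D) ⊆ FrIn G S M`) -/
theorem old_cut {S M D : Set V} (hD : IsComp G (M ∩ S) D) {C : Set (Cq G)}
    (hC : IsComp (sd G) (cut G S M D) C) {c : Cq (sd G)} (hc : c ∈ FrIn (sd G) (mi G S) C) :
    mx c ∈ FrIn G S M := by
  obtain ⟨⟨hS, x, hx, hxC⟩, y, hy, hyC⟩ := hc
  obtain ⟨v, hv, u, hu, hvM, huM⟩ := cut_pair_sce hD hC hx (hS x hx) hxC hy (hS y hy) hyC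
  have hle : x ≤ mx c := le_mx c hx
  exact ⟨⟨hS _ (mx_mem c), v, hle hv, hvM⟩, u, hle hu, huM⟩

/-- location of the frontier after a flip: a chain which is mixed for `cut G S M D` contains a mixed simplex of
`M`, or all its elements are adjacent to `D` or meet `D`.  Sketch: `Q ∋ s ∈ cut`, `Q ∋ t ∉ cut`, so
`s ∈ pl G M \ sheet`, `t ∈ mi G Mᶜ ∪ sheet G S D`.  If `t ⊆ Mᶜ`: `t < s`, `s` is mixed for `M`.  If `t ∈ sheet`: `s`, `t`
comparable, so the larger one `m` contains a vertex `d ∈ D`; all `z ∈ Q`: `z ≤ mx Q` and `mx Q ∋ d`. -/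
theorem fro_cut {S M D A' : Set V} (h : ∀ q ∈ Fr G M, ∀ x ∈ q.1, x ∈ A')
    (hF : ∀ x ∈ D, ∀ y, Nr G x y → y ∈ A') :
    ∀ Q ∈ Fr (sd G) (cut G S M D), ∀ q ∈ Q.1, pk q ∈ A' := by
  rintro Q ⟨⟨s, hs, hsc⟩, t, ht, htc⟩ q hq
  have hqm : pk q ∈ (mx Q).1 := le_mx Q hq (pk_mem q)
  rw [cut_compl] at htc
  rcases htc with htc | htc
  · obtain ⟨v, hv, hvM⟩ := hsc.1
    obtain ⟨u, hu⟩ := t.2.1
    exact h (mx Q) ⟨⟨v, le_mx Q hs hv, hvM⟩, u, le_mx Q ht hu, htc u hu⟩ (pk q) hqm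
  · obtain ⟨-, d, hd, hdD⟩ := htc
    exact hF d hdD (pk q) (cq_nr_sce (le_mx Q ht hd) hqm)

/-- the hypothesis of `DscZ` for a disc along which one flips (`IsComp`, `ScU.loc`) -/
theorem dsc_hyp (hu : ScU G e1 e2 inc X) {b : Bc} {D : Set V}
    (hD : IsComp G (X.U b ∩ X.S) D ∨ IsComp G ((X.U b)ᶜ ∩ X.S) D) :
    ∀ y ∈ D, ∀ z ∈ X.S \ D, G.Adj y z → y ∈ X.Ze b := by
  intro y hy z hz e
  have my : y ∈ (eg G e).1 := Finset.mem_insert_self y {z}
  have mz : z ∈ (eg G e).1 := Finset.mem_insert_of_mem (Finset.mem_singleton_self z)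
  rcases hD with hD | hD
  · have h1 := hD.sub hy
    have h2 : z ∉ X.U b := fun h => hD.nadj y hy z ⟨⟨h, hz.1⟩, hz.2⟩ e
    exact hu.loc b (eg G e) ⟨y, my, h1.2, h1.1⟩ ⟨z, mz, hz.1, h2⟩ y my
  · have h1 := hD.sub hy
    have h2 : z ∈ X.U b := by
      by_contra h
      exact hD.nadj y hy z ⟨⟨h, hz.1⟩, hz.2⟩ e
    exact hu.loc b (eg G e) ⟨z, mz, hz.1, h2⟩ ⟨y, my, h1.2, h1.1⟩ y my

/-- sets between `mi` and `pl` of non adjacent disjoint sets -/
theorem bt_dis {M M' : Set V} (hd : Disjoint M M') (hn : NAdj G M M') :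
    Disjoint (pl G M) (mi G M') ∧ NAdj (sd G) (pl G M) (mi G M') := by
  refine ⟨Set.disjoint_left.2 ?_, ?_⟩
  · rintro s ⟨x, hx, hxM⟩ hs
    exact Set.disjoint_left.1 hd hxM (hs x hx)
  · rintro s ⟨x, hx, hxM⟩ t ht a
    rcases a with a | a
    · exact Set.disjoint_left.1 hd hxM (ht x (a.le hx))
    · obtain ⟨y, hy⟩ := t.2.1
      have hne : x ≠ y := fun e => Set.disjoint_left.1 hd hxM (e ▸ ht y hy)
      exact hn x hxM y (ht y hy) (cq_adj_sce hx (a.le hy) hne)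

theorem pl_mi_dis {M M' : Set V} (hd : Disjoint M M') : Disjoint (pl G M) (mi G M') := by
  refine Set.disjoint_left.2 ?_
  rintro s ⟨x, hx, hxM⟩ hs
  exact Set.disjoint_left.1 hd hxM (hs x hx)

/-- the piece `Z` of the plate on the wall misses a disc `D` of `U b ∩ S`: otherwise `Z ⊆ D`, and `w c`,
`inc b c`, is a cocycle on `D` (`D ⊆ S` misses `Bd c ⊆ P`), `HZ G D`. -/
theorem ScU.Z_dis (h : ScS G e1 e2 inc X) {b : Bc} {D Z : Set V}
    (hD : IsComp G (X.U b ∩ X.S) D) (hz : HZ G D) (hZ : Conn G Z) (hZU : Z ⊆ X.U b ∩ X.S)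
    (hn : ∀ c, inc b c → ¬ Triv G Z (X.w c)) : Disjoint Z D := by
  by_contra hnd
  rw [Set.not_disjoint_iff] at hnd
  obtain ⟨x, hx, hx'⟩ := hnd
  have hZD : Z ⊆ D := hD.absorb hZ hZU ⟨x, hx, hx'⟩
  obtain ⟨c, hc⟩ := h.inc1 b
  refine hn c hc (Triv.mono hZD ?_)
  have hd : Disjoint D (X.Bd c) := Set.disjoint_left.2 fun y hy hy' =>
    Set.disjoint_left.1 h.wall.dqp (hD.sub hy).2 (h.BdP c hy')
  exact Triv_rs.1 (hz _ ((h.wco c).rs_mem hd))

/-- the curve of a disc: nonempty and connected (`ScU.meet`, `FrIn_ne`, `disc_curve_h75`) -/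
theorem ScU.curve [Finite V] (h : ScS G e1 e2 inc X) {D : Set V} (hD : Conn G D) (hz : HZ G D)
    (hDS : D ⊆ X.S) (hne : D ≠ X.S) : Conn (MOT.sd G) (FrIn G X.S D) :=
  disc_curve_h75 h.sph h.wall hDS hD hz (FrIn_ne h.cS hDS hD.1 hne)

/-- FLIP of a disc `D` of `U b ∩ S`: `U' b` = the component of `cut G S (U b) D` which contains `mi G Z`,
`U' b' = mi G (U b')` otherwise.  `step_compl_Conn`, `step_bb`; `U' b ⊆ pl G (U b)`, `bt_dis`, `pl_mi_dis`;
`U4`: `pl G (U b) ∪ mi G (Le b)` and `mi (U b ∪ Le b)` lie in `N := pl G (U b) ∪ mi G (U b ∪ Le b)`, `Triv_pw_bt`; `U3`: `Triv_pw`;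
`loc`: `loc_cutS`, `loc_sd`; the number of curves: `step_kk` for `b`, `kk_mi` for the others. -/
theorem sc_cut [Finite V] (h : ScS G e1 e2 inc X) (hu : ScU G e1 e2 inc X) (hf : DscZ G X)
    {b : Bc} {D : Set V} (hD : IsComp G (X.U b ∩ X.S) D) (hz : HZ G D) :
    ∃ U' : Bc → Set (Cq G), ScU (MOT.sd G) e1 e2 inc ((X.sd G).upd U') ∧
      kc (MOT.sd G) ((X.sd G).upd U') < kc G X := by
  have hDS : D ⊆ X.S := fun x hx => (hD.sub hx).2
  have hne : D ≠ X.S := by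
    obtain ⟨y, hy, hy'⟩ := (ScU.meet h hu b).2
    intro e
    rw [← e] at hy
    exact hy' (hD.sub hy).1
  have hF := ScU.curve h hD.conn hz hDS hne
  obtain ⟨Z, hZ, hZU, hZn⟩ := hu.U3 b
  have hZD := ScU.Z_dis h hD hz hZ hZU hZn
  have hZc : mi G Z ⊆ cut G X.S (X.U b) D := cut_keep (fun x hx => (hZU hx).1) hZD
  have hZC : Conn (MOT.sd G) (mi G Z) := sd_Conn.2 hZ
  obtain ⟨z0, hz0⟩ := hZC.1
  obtain ⟨C, hC0⟩ : ∃ C, C = comp (MOT.sd G) (cut G X.S (X.U b) D) z0 := ⟨_, rfl⟩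
  have hC : IsComp (MOT.sd G) (cut G X.S (X.U b) D) C := ⟨z0, hZc hz0, hC0⟩
  have hz0C : z0 ∈ C := by
    rw [hC0]; exact comp_self (hZc hz0)
  have hZsub : mi G Z ⊆ C := hC.absorb hZC hZc ⟨z0, hz0, hz0C⟩
  have hCpl : C ⊆ pl G (X.U b) := fun s hs => (hC.sub hs).1
  have hs := hu.sd h
  obtain ⟨U', hU'⟩ : ∃ U' : Bc → Set (Cq G), U' = fun b' => if b' = b then C else mi G (X.U b') :=
    ⟨_, rfl⟩
  have e1' : U' b = C := by rw [hU']; exact if_pos rfl
  have e2' : ∀ b', b' ≠ b → U' b' = mi G (X.U b') := fun b' hb => by rw [hU']; exact if_neg hb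
  have hsub : ∀ b', U' b' ⊆ pl G (X.U b') := by
    intro b'
    by_cases hb : b' = b
    · subst hb; rw [e1']; exact hCpl
    · rw [e2' b' hb]; exact mi_sub_pl
  refine ⟨U', ?_, ?_⟩
  · constructor
    · intro b'
      show Conn (MOT.sd G) (U' b')
      by_cases hb : b' = b
      · subst hb; rw [e1']; exact hC.conn
      · rw [e2' b' hb]; exact hs.UC b'
    · intro b'
      show Conn (MOT.sd G) (U' b')ᶜ
      by_cases hb : b' = b
      · subst hb; rw [e1']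
        exact step_compl_Conn h.wall hD (hu.UC b') (hu.UCc b') hF.1 hC
      · rw [e2' b' hb]; exact hs.UCc b'
    · intro b'
      show bb (MOT.sd G) (U' b') = 0
      by_cases hb : b' = b
      · subst hb; rw [e1']
        have h1 := step_bb h.sph h.wall hD hz (Or.inr hF) hC
        rw [hu.Ubb b'] at h1
        omega
      · rw [e2' b' hb]; exact hs.Ubb b'
    · intro b1 b2 hb12
      show Disjoint (U' b1) (U' b2) ∧ NAdj (MOT.sd G) (U' b1) (U' b2)
      by_cases hb2 : b2 = b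
      · have hb1 : b1 ≠ b := fun e => hb12 (e.trans hb2.symm)
        rw [e2' b1 hb1]
        obtain ⟨d1, d2⟩ := hu.Ud b2 b1 (Ne.symm hb12)
        obtain ⟨d3, d4⟩ := bt_dis (G := G) d1 d2
        exact ⟨(d3.mono_left (hsub b2)).symm, fun x hx y hy a => d4 y (hsub b2 hy) x hx a.symm⟩
      · rw [e2' b2 hb2]
        obtain ⟨d1, d2⟩ := hu.Ud b1 b2 hb12
        obtain ⟨d3, d4⟩ := bt_dis (G := G) d1 d2
        exact ⟨d3.mono_left (hsub b1), fun x hx y hy => d4 x (hsub b1 hx) y hy⟩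
    · intro b'
      exact (pl_mi_dis (hu.UBs b')).mono_left (hsub b')
    · intro b'
      exact (pl_mi_dis (hu.ULr b')).mono_left (hsub b')
    · intro b'
      by_cases hb : b' = b
      · subst hb
        refine ⟨mi G Z, hZC, ?_, ?_⟩
        · show mi G Z ⊆ U' b' ∩ mi G X.S
          rw [e1']
          exact fun s hs' => ⟨hZsub hs', fun x hx => (hZU (hs' x hx)).2⟩
        · intro c hc ht
          exact hZn c hc ((Triv_pw (h.wco c).symm (h.wco c).zero).1 ht)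
      · obtain ⟨Z', k1, k2, k3⟩ := hs.U3 b'
        refine ⟨Z', k1, ?_, k3⟩
        show Z' ⊆ U' b' ∩ mi G X.S
        rw [e2' b' hb]
        exact k2
    · intro b'
      have hd : Disjoint (pl G (X.U b') ∪ mi G (X.U b' ∪ X.Le b')) (mi G X.Bs) := by
        refine Set.disjoint_union_left.2 ⟨pl_mi_dis (hu.UBs b'), ?_⟩
        refine (pl_mi_dis ?_).mono_left mi_sub_pl
        refine Set.disjoint_union_left.2 ⟨hu.UBs b', ?_⟩
        refine Set.disjoint_left.2 fun x hx hx' => ?_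
        exact Set.disjoint_left.1 h.wall.dpn (h.LeP b' hx) (h.BsN hx')
      have ht := (Triv_pw_bt (h.wb_co b') (M := X.U b' ∪ X.Le b')
        (N := pl G (X.U b') ∪ mi G (X.U b' ∪ X.Le b')) Set.subset_union_right
        (Set.union_subset (pl_mono Set.subset_union_left) mi_sub_pl) hd).2 (hu.U4 b')
      refine Triv.mono ?_ ht
      show U' b' ∪ mi G (X.Le b') ⊆ _
      exact Set.union_subset (fun s hs' => Or.inl (hsub b' hs'))
        (fun s hs' => Or.inr (mi_mono Set.subset_union_right hs'))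
    · intro b'
      by_cases hb : b' = b
      · subst hb
        intro q h1 h2
        have e : ((X.sd G).upd U').U b' = C := e1'
        rw [e] at h1 h2
        exact loc_cutS hD hC (hu.loc b') q h1 h2
      · intro q h1 h2
        have e : ((X.sd G).upd U').U b' = mi G (X.U b') := e2' b' hb
        rw [e] at h1 h2
        exact hs.loc b' q h1 h2
    · intro b'
      by_cases hb : b' = b
      · subst hb
        intro q hq
        have e : ((X.sd G).upd U').U b' = C := e1'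
        rw [e] at hq
        exact ⟨mx q, mx_mem q, fun s hs' => le_mx q hs', hu.old b' (mx q) (old_cut hD hC hq)⟩
      · intro q hq
        have e : ((X.sd G).upd U').U b' = mi G (X.U b') := e2' b' hb
        rw [e] at hq
        exact hs.old b' q hq
    · intro b'
      by_cases hb : b' = b
      · subst hb
        intro q hq
        have e : ((X.sd G).upd U').U b' = C := e1'
        rw [e] at hq
        exact fro_cut (hu.fro b') (hf b' D hDS hD.conn hz hne (dsc_hyp hu (Or.inl hD))) q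
          (Fr_comp hC hq)
      · intro q hq
        have e : ((X.sd G).upd U').U b' = mi G (X.U b') := e2' b' hb
        rw [e] at hq
        exact hs.fro b' q hq
  · show (∑ b', b0 (MOT.sd (MOT.sd G)) (FrIn (MOT.sd G) (mi G X.S) (U' b'))) <
      ∑ b', b0 (MOT.sd G) (FrIn G X.S (X.U b'))
    refine Finset.sum_lt_sum (fun b' _ => ?_) ⟨b, Finset.mem_univ b, ?_⟩
    · by_cases hb : b' = b
      · subst hb; rw [e1']
        exact (step_kk hD hF hC).le
      · rw [e2' b' hb, kk_mi]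
    · rw [e1']
      exact step_kk hD hF hC

end MOT
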