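import Pool.Agent.MOT.SvDef
import Pool.Agent.MOT.SaG
import Pool.Agent.MOT.ScC
import Pool.Agent.MOT.SbDef

/-!
# MOT/ScEndD: output record of stage 2 (helper73)
-/

open Classical

noncomputable section

namespace MOT

variable {Vc V : Type} {Gc : SimpleGraph Vc} {G : SimpleGraph V}

/-- position in the dual graph as a tetrahedron -/
def BaseU.tto [Finite Vc] (hc : IsSph3 Gc) (b : BaseU Gc G) (x : V) : Te Gc :=
  if h : IsTet Gc (b.tt x) then ⟨b.tt x, h⟩ else (Te_ne hc).some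

/-- output of stage 2 on one level: wall `S` with sides `P` (towards the 1-skeleton) and `N` (towards the dual
graph), plates in final position, discs `D e` (closed side `S ∪ P`) and `F s` (closed side `S ∪ N`) -/
structure S2Out [Finite Vc] [Fintype (Ec Gc)] [Fintype (Fc Gc)] (hc : IsSph3 Gc)
    (b : BaseU Gc G) (S : Set V) {J : Type} (Cv : J → Set V) where
  P : Set V
  N : Set V
  Ue : Ec Gc → Set V
  Ud : Fc Gc → Set V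
  D : Ec Gc → Set (Cq G)
  F : Fc Gc → Set (Cq G)
  wall : Wall G S P N
  cS : Conn G S
  cP : Conn G P
  cN : Conn G N
  BP : b.BL ⊆ P
  BsN : b.BsL ⊆ N
  strE : StrIn G cE1 cE2 (S ∪ P) Ue D b.Lv b.Le b.top
  strF : StrIn G (cS1 hc) (cS2 hc) (S ∪ N) Ud F b.Lt b.Ls (b.tto hc)
  /-- the curve of `D e` crosses the triangles at `e` -/
  par : ∀ (e : Ec Gc) (s : Fc Gc), e.1 ⊆ s.1 → ¬ Triv (sd G) (D e ∩ mi G S)
    (pbk pk (wtt (b.tto hc) (cS1 hc s) (cS2 hc s)))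
  cne : ∀ e, ∃ q ∈ D e, q ∈ mi G S
  i1 : ∀ e, ∀ q ∈ D e, q ∈ mi G S → ∀ x ∈ q.1, e.q ∈ b.cr x
  i2 : ∀ e, ∀ q ∈ D e, ∀ x ∈ q.1, x ∈ b.Ns (nb Gc (e.1 : Set Vc))
  i3 : ∀ e, ∀ q ∈ D e, q ∈ mi G S → ∀ j, ¬ (q.1 : Set V) ⊆ Cv j
  i4 : ∀ (s : Fc Gc) (e : Ec Gc), ¬ e.1 ⊆ s.1 → ∀ q ∈ D e, ¬ (q.1 : Set V) ⊆ b.Lb s
  cneF : ∀ s, ∃ q ∈ F s, q ∈ mi G S
  i1F : ∀ s, ∀ q ∈ F s, q ∈ mi G S → ∀ x ∈ q.1, s.q ∈ b.cr x
  i2F : ∀ s, ∀ q ∈ F s, ∀ x ∈ q.1, x ∈ b.Ns (nb Gc (s.1 : Set Vc))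

end MOT
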