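import Pool.Agent.MOT.ScE

/-!
# MOT/ScF: stage 2, flip of a disc of the wall outside the plates; the loop (helper73)
-/

open Classical

noncomputable section

namespace MOT

variable {V : Type} {G : SimpleGraph V} {A Bc Cc : Type} [Fintype Bc] [Fintype Cc]
  {e1 e2 : Bc → A} {inc : Bc → Cc → Prop} {X : Sc V A Bc Cc}

private theorem scf_ne (h : ScS G e1 e2 inc X) (hu : ScU G e1 e2 inc X) {D : Set V} (b : Bc)
    (hd : Disjoint D (X.U b)) : D ≠ X.S := by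
  intro e
  obtain ⟨⟨x, hx, hxS⟩, -⟩ := ScU.meet h hu b
  rw [← e] at hxS
  exact Set.disjoint_left.1 hd hxS hx

omit [Fintype Bc] [Fintype Cc] in
private theorem scf_bb (hu : ScU G e1 e2 inc X) (b : Bc) :
    b1 G (X.U b) = 0 ∧ b1 G (X.U b)ᶜ = 0 := by
  have h1 := hu.Ubb b
  unfold bb at h1
  omega

private theorem scf_mi {M N : Set V} (h : Disjoint M N) : Disjoint (mi G M) (mi G N) := by
  refine Set.disjoint_left.2 fun s h1 h2 => ?_
  obtain ⟨x, hx⟩ := s.2.1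
  exact Set.disjoint_left.1 h (h1 x hx) (h2 x hx)

private theorem scf_nmi {M N : Set V} (h : Disjoint M N) : NAdj (sd G) (mi G M) (mi G N) := by
  rintro s hs t ht (e | e)
  · obtain ⟨x, hx⟩ := s.2.1
    exact Set.disjoint_left.1 h (hs x hx) (ht x (Cq.le_iff.1 e.le hx))
  · obtain ⟨x, hx⟩ := t.2.1
    exact Set.disjoint_left.1 h (hs x (Cq.le_iff.1 e.le hx)) (ht x hx)

/-- a disc `D` of `S \ W` touches exactly one plate on the wall: its curve is connected and every simplex of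
the curve has vertices in exactly one plate (the plates are not adjacent) -/
theorem out_one [Finite V] (h : ScS G e1 e2 inc X) (hu : ScU G e1 e2 inc X) {D : Set V}
    (hD : IsComp G (X.S \ X.W) D) (hz : HZ G D) :
    ∃ b, IsComp G ((X.U b)ᶜ ∩ X.S) D ∧ (∀ b', Disjoint D (X.U b')) ∧
      ∀ b', b' ≠ b → NAdj G D (X.U b' ∩ X.S) := by
  obtain ⟨b0⟩ := h.neB
  have hdis : ∀ b', Disjoint D (X.U b') := fun b' => Set.disjoint_left.2 fun x hx hx' =>
    (hD.sub hx).2 (Set.mem_iUnion.2 ⟨b', hx'⟩)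
  have hDS : D ⊆ X.S := fun x hx => (hD.sub hx).1
  have hcv := ScU.curve h hD.conn hz hDS (scf_ne h hu b0 (hdis b0))
  have hW : ∀ x ∈ D, ∀ y ∈ X.S \ D, G.Adj x y → y ∈ X.W := by
    intro x hx y hy e
    by_contra hyW
    exact hD.nadj x hx y ⟨⟨hy.1, hyW⟩, hy.2⟩ e
  have hmeet : ∀ q ∈ FrIn G X.S D, ∃ b, ∃ y ∈ q.1, y ∈ X.U b := by
    rintro q ⟨⟨hqS, x, hx, hxD⟩, y, hy, hyD⟩
    have hxy : x ≠ y := by
      rintro rfl
      exact hyD hxD
    have h1 := hW x hxD y ⟨hqS y hy, hyD⟩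
      (q.2.2 (Finset.mem_coe.2 hx) (Finset.mem_coe.2 hy) hxy)
    obtain ⟨b, hb⟩ := Set.mem_iUnion.1 h1
    exact ⟨b, y, hy, hb⟩
  have huniq : ∀ q : Cq G, ∀ b b', (∃ y ∈ q.1, y ∈ X.U b) → (∃ y ∈ q.1, y ∈ X.U b') →
      b = b' := by
    rintro q b b' ⟨y, hy, hyb⟩ ⟨y', hy', hyb'⟩
    by_contra hbb
    obtain ⟨h1, h2⟩ := hu.Ud b b' hbb
    by_cases e : y = y'
    · rw [e] at hyb
      exact Set.disjoint_left.1 h1 hyb hyb'
    · exact h2 y hyb y' hyb' (q.2.2 (Finset.mem_coe.2 hy) (Finset.mem_coe.2 hy') e)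
  obtain ⟨q0, hq0⟩ := hcv.1
  obtain ⟨b, hb⟩ := hmeet q0 hq0
  have hstep : ∀ q r : Cq G, q ∈ FrIn G X.S D → q < r →
      ((∃ y ∈ q.1, y ∈ X.U b) ↔ ∃ y ∈ r.1, y ∈ X.U b) := by
    intro q r hq hqr
    have hm : ∀ b, (∃ y ∈ q.1, y ∈ X.U b) → ∃ y ∈ r.1, y ∈ X.U b := by
      rintro b ⟨y, hy, hyb⟩
      exact ⟨y, Cq.le_iff.1 hqr.le hy, hyb⟩
    refine ⟨hm b, fun hr => ?_⟩
    obtain ⟨b', hb'⟩ := hmeet q hq
    rw [huniq r b b' hr (hm b' hb')]
    exact hb'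
  have hloc : ∀ q r, EIn (sd G) (FrIn G X.S D) q r →
      (fun q : Cq G => if ∃ y ∈ q.1, y ∈ X.U b then (1 : ZMod 2) else 0) q =
        (fun q : Cq G => if ∃ y ∈ q.1, y ∈ X.U b then (1 : ZMod 2) else 0) r := by
    rintro q r ⟨e | e, hq, hr⟩
    · exact if_congr (hstep q r hq e) rfl rfl
    · exact if_congr (hstep r q hr e).symm rfl rfl
  have hall : ∀ q ∈ FrIn G X.S D, ∃ y ∈ q.1, y ∈ X.U b := by
    intro q hq
    have h1 : (if ∃ y ∈ q0.1, y ∈ X.U b then (1 : ZMod 2) else 0) =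
      if ∃ y ∈ q.1, y ∈ X.U b then (1 : ZMod 2) else 0 := hcv.const hloc hq0 hq
    rw [if_pos hb] at h1
    by_contra hn
    rw [if_neg hn] at h1
    exact one_ne_zero h1
  have hWb : ∀ x ∈ D, ∀ y ∈ X.S \ D, G.Adj x y → y ∈ X.U b := by
    intro x hx y hy e
    obtain ⟨z, hz, hzb⟩ := hall (eg G e) ⟨⟨fun u hu => by
      have h1 : u = x ∨ u = y := by simpa [eg] using hu
      rcases h1 with rfl | rfl
      · exact hDS hx
      · exact hy.1, x, by simp [eg], hx⟩, y, by simp [eg], hy.2⟩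
    have h1 : z = x ∨ z = y := by simpa [eg] using hz
    rcases h1 with rfl | rfl
    · exact absurd hzb (Set.disjoint_left.1 (hdis b) hx)
    · exact hzb
  refine ⟨b, IsComp_of hD.conn (fun x hx => ⟨Set.disjoint_left.1 (hdis b) hx, hDS hx⟩)
    (fun x hx y hy e => hy.1.1 (hWb x hx y ⟨hy.1.2, hy.2⟩ e)), hdis, ?_⟩
  intro b' hb' x hx y hy e
  have h1 := hWb x hx y ⟨hy.2, fun h => Set.disjoint_left.1 (hdis b') h hy.1⟩ e
  exact Set.disjoint_left.1 (hu.Ud b' b hb').1 hy.1 h1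

/-- the pocket.  `K = cut G S (U b)ᶜ D`, `N0` = component of `K` containing `mi G (Lr b)`.  Every other
component `N1` of `K` has `HZ` (`flip_cases`, `flip_two`, `b1 (U b)ᶜ = 0`) and misses `mi (Bd c)` for
`c` not incident with `b` (`BdL`), so `mi Bs` (`inc0`) and `mi (U b')`, `b' ≠ b` (`inc2`, `U3`) lie in `N0`. -/
theorem out_N0 [Finite V] (h : ScS G e1 e2 inc X) (hu : ScU G e1 e2 inc X) {b : Bc} {D : Set V}
    (hD : IsComp G ((X.U b)ᶜ ∩ X.S) D) (hz : HZ G D) (hd : ∀ b', Disjoint D (X.U b')) :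
    ∃ N0, IsComp (sd G) (cut G X.S (X.U b)ᶜ D) N0 ∧ mi G (X.Lr b) ⊆ N0 ∧ mi G X.Bs ⊆ N0 ∧
      ∀ b', b' ≠ b → mi G (X.U b') ⊆ N0 := by
  have hPS : Disjoint X.P X.S := h.wall.dqp.symm
  have hNS : Disjoint X.N X.S := h.wall.dqn.symm
  have hDS : D ⊆ X.S := fun x hx => (hD.sub hx).2
  have hLr : mi G (X.Lr b) ⊆ cut G X.S (X.U b)ᶜ D :=
    cut_keep (fun x hx hxU => Set.disjoint_left.1 (hu.ULr b) hxU hx)
      (hPS.mono (h.LrP b) hDS)
  have hBs : mi G X.Bs ⊆ cut G X.S (X.U b)ᶜ D :=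
    cut_keep (fun x hx hxU => Set.disjoint_left.1 (hu.UBs b) hxU hx)
      (hNS.mono h.BsN hDS)
  have hUs : ∀ b', b' ≠ b → mi G (X.U b') ⊆ cut G X.S (X.U b)ᶜ D := fun b' hb' =>
    cut_keep (fun x hx hxU => Set.disjoint_left.1 (hu.Ud b' b hb').1 hx hxU) (hd b').symm
  obtain ⟨x0, hx0⟩ := (sd_Conn.2 (h.LrC b)).1
  have h0 : IsComp (sd G) (cut G X.S (X.U b)ᶜ D) (comp (sd G) (cut G X.S (X.U b)ᶜ D) x0) :=
    ⟨x0, hLr hx0, rfl⟩
  have hL0 := h0.absorb (sd_Conn.2 (h.LrC b)) hLr ⟨x0, hx0, comp_self (hLr hx0)⟩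
  generalize comp (sd G) (cut G X.S (X.U b)ᶜ D) x0 = N0 at h0 hL0
  have key : ∀ Y : Set (Cq G), Y ⊆ cut G X.S (X.U b)ᶜ D → Conn (sd G) Y →
      (∃ c, ¬ inc b c ∧ ¬ Triv (sd G) Y (pw G (X.w c))) → Y ⊆ N0 := by
    rintro Y hY hYc ⟨c, hc, ht⟩
    by_cases hn : (Y ∩ N0).Nonempty
    · exact h0.absorb hYc hY hn
    exfalso
    obtain ⟨y, hy⟩ := hYc.1
    have h1 : IsComp (sd G) (cut G X.S (X.U b)ᶜ D) (comp (sd G) (cut G X.S (X.U b)ᶜ D) y) :=
      ⟨y, hY hy, rfl⟩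
    have hy1 := comp_self (G := sd G) (hY hy)
    have hY1 := h1.absorb hYc hY ⟨y, hy, hy1⟩
    generalize comp (sd G) (cut G X.S (X.U b)ᶜ D) y = N1 at h1 hy1 hY1
    have hyN : y ∉ N0 := fun h => hn ⟨y, hy, h⟩
    have hdj : Disjoint N1 N0 := by
      refine Set.disjoint_left.2 fun z h2 h3 => hyN ?_
      rw [← h1.eq_of_inter h0 ⟨z, h2, h3⟩]
      exact hy1
    have hz1 : HZ (sd G) N1 := by
      rcases flip_cases h.wall hD (hu.UCc b) with hc | ⟨C, C', hC, hC', hCC, hdC, -, -, -⟩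
      · exfalso
        obtain ⟨z, hz⟩ := h0.conn.1
        exact hyN (h0.absorb hc subset_rfl ⟨z, h0.sub hz, hz⟩ (hY hy))
      · have h2 := flip_two h.wall hD hz (hu.UCc b) hC hC' hCC hdC
        rw [(scf_bb hu b).2] at h2
        have hyC := hY hy
        rw [← hCC] at hyC
        apply b1_eq_zero.1
        rcases hyC with h3 | h3
        · rw [h1.eq_of_inter hC ⟨y, hy1, h3⟩]
          omega
        · rw [h1.eq_of_inter hC' ⟨y, hy1, h3⟩]
          omega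
    have h2 : Disjoint N1 (mi G (X.Bd c)) := by
      refine Set.disjoint_left.2 fun s h3 h4 => ?_
      exact Set.disjoint_left.1 hdj h3 (hL0 (mi_mono (h.BdL b c hc) h4))
    exact ht ((Triv_rs.1 (hz1 _ ((h.wco c).pw.rs_mem h2))).mono hY1)
  refine ⟨N0, h0, hL0, ?_, ?_⟩
  · obtain ⟨c, hc, ht⟩ := h.inc0 b
    exact key _ hBs (sd_Conn.2 h.cBs)
      ⟨c, hc, fun t => ht ((Triv_pw (h.wco c).symm (h.wco c).zero).1 t)⟩
  · intro b' hb'
    obtain ⟨c, hc, hc'⟩ := h.inc2 b b' hb'.symm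
    obtain ⟨Z, -, hZU, hZt⟩ := hu.U3 b'
    refine key _ (hUs b' hb') (sd_Conn.2 (hu.UC b')) ⟨c, hc', fun t => hZt c hc ?_⟩
    refine (Triv_pw (h.wco c).symm (h.wco c).zero).1 (t.mono (mi_mono fun x hx => (hZU hx).1))

/-- `N0ᶜ = mi U ∪ sheet D ∪ (rest)`, the rest is not adjacent to `N0` -/
theorem out_eq {U D S : Set V} (hD : IsComp G (Uᶜ ∩ S) D) {N0 : Set (Cq G)}
    (h0 : IsComp (sd G) (cut G S Uᶜ D) N0) :
    N0ᶜ = mi G U ∪ sheet G S D ∪ (cut G S Uᶜ D \ N0) ∧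
      NAdj (sd G) (cut G S Uᶜ D \ N0) N0 := by
  refine ⟨?_, fun x hx y hy e => h0.nadj y hy x hx e.symm⟩
  have h1 := cut_compl (G := G) (Q := S) (M := Uᶜ) (D := D)
  rw [compl_compl] at h1
  rw [← h1]
  ext s
  constructor
  · intro hs
    by_cases hk : s ∈ cut G S Uᶜ D
    · exact Or.inr ⟨hk, hs⟩
    · exact Or.inl hk
  · rintro (hs | hs) hn
    · exact hs (h0.sub hn)
    · exact hs.2 hn

/-- `U4` for `N0ᶜ`.  (1) `mi G (U b ∪ Le b)`: `Triv_pw`.  (2) `fill = mi U ∪ sheet D` has `HZ`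
(`flip_b1_compl`), so `wb` is trivial on it; `mv_triv` with `mi U ∪ mi Le` (intersection `mi U`, connected;
`sheet D ⊆ mi S` is not adjacent to `mi Le ⊆ mi P`).  (3) `main_Inj` with `M = K \ mi Le`,
`A = (K \ N0) \ mi Le`. -/
theorem out_U4 [Finite V] (h : ScS G e1 e2 inc X) (hu : ScU G e1 e2 inc X) {b : Bc} {D : Set V}
    (hD : IsComp G ((X.U b)ᶜ ∩ X.S) D) (hz : HZ G D) {N0 : Set (Cq G)}
    (h0 : IsComp (sd G) (cut G X.S (X.U b)ᶜ D) N0) (hBs : mi G X.Bs ⊆ N0) :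
    Triv (sd G) (N0ᶜ ∪ mi G (X.Le b)) (pw G (X.wb e1 e2 b)) := by
  have hco := h.wb_co b
  have hcp := hco.pw
  obtain ⟨u1, u2⟩ := scf_bb hu b
  obtain ⟨c1, c2⟩ := comp_hyp hD
  have hDS : D ⊆ X.S := fun x hx => (hD.sub hx).2
  have hdU : Disjoint D (X.U b) := Set.disjoint_left.2 fun x hx => (hD.sub hx).1
  have hcv := ScU.curve h hD.conn hz hDS (scf_ne h hu b hdU)
  have hKc : (cut G X.S (X.U b)ᶜ D)ᶜ = mi G (X.U b) ∪ sheet G X.S D := by
    rw [cut_compl, compl_compl]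
  have hzK : HZ (sd G) (cut G X.S (X.U b)ᶜ D)ᶜ := by
    have h1 := flip_b1_compl c1 c2 hD.conn hz (Or.inr hcv)
    rw [compl_compl (X.U b), u1] at h1
    exact b1_eq_zero.1 (by omega)
  have hUK : mi G (X.U b) ⊆ (cut G X.S (X.U b)ᶜ D)ᶜ := by
    rw [hKc]
    exact Set.subset_union_left
  have hN0K : (cut G X.S (X.U b)ᶜ D)ᶜ ⊆ N0ᶜ := fun s hs hn => hs (h0.sub hn)
  have hd1 : Disjoint N0ᶜ (mi G X.Bs) := Set.disjoint_left.2 fun s hs hn => hs (hBs hn)
  have hd2 : Disjoint (mi G (X.Le b)) (mi G X.Bs) :=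
    scf_mi (h.wall.dpn.mono (h.LeP b) h.BsN)
  have hSP : Disjoint (mi G X.S) (mi G (X.Le b)) :=
    scf_mi (h.wall.dqp.mono subset_rfl (h.LeP b))
  have hSPn : NAdj (sd G) (mi G X.S) (mi G (X.Le b)) :=
    scf_nmi (h.wall.dqp.mono subset_rfl (h.LeP b))
  -- on the filled plate
  have t1 : Triv (sd G) (cut G X.S (X.U b)ᶜ D)ᶜ (pw G (X.wb e1 e2 b)) :=
    Triv_rs.1 (hzK _ (hcp.rs_mem (hd1.mono hN0K subset_rfl)))
  have t2 : Triv (sd G) (mi G (X.U b) ∪ mi G (X.Le b)) (pw G (X.wb e1 e2 b)) := by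
    refine ((Triv_pw hco.symm hco.zero).2 (hu.U4 b)).mono ?_
    rintro s (hs | hs) x hx
    · exact Or.inl (hs x hx)
    · exact Or.inr (hs x hx)
  have k1 : (cut G X.S (X.U b)ᶜ D)ᶜ ∩ (mi G (X.U b) ∪ mi G (X.Le b)) = mi G (X.U b) := by
    apply Set.Subset.antisymm
    · rintro s ⟨h1, h2 | h2⟩
      · exact h2
      · rw [hKc] at h1
        rcases h1 with h1 | h1
        · exact h1
        · exact absurd h2 (Set.disjoint_left.1 hSP h1.1)
    · intro s hs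
      exact ⟨hUK hs, Or.inl hs⟩
  have e2' : (cut G X.S (X.U b)ᶜ D)ᶜ ∪ (mi G (X.U b) ∪ mi G (X.Le b)) =
      (cut G X.S (X.U b)ᶜ D)ᶜ ∪ mi G (X.Le b) := by
    rw [← Set.union_assoc, Set.union_eq_self_of_subset_right hUK]
  have hd3 : Disjoint ((cut G X.S (X.U b)ᶜ D)ᶜ ∪ mi G (X.Le b)) (mi G X.Bs) :=
    Set.disjoint_union_left.2 ⟨hd1.mono hN0K subset_rfl, hd2⟩
  have t3 : Triv (sd G) ((cut G X.S (X.U b)ᶜ D)ᶜ ∪ mi G (X.Le b)) (pw G (X.wb e1 e2 b)) := by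
    have hm := hcp.rs_mem hd3
    rw [← e2'] at hm ⊢
    refine Triv_rs.1 (mv_triv ?_ ?_ hm (t1.congr fun x y e => ?_) (t2.congr fun x y e => ?_))
    · rintro s ⟨h1, h2⟩ t ⟨h3, h4⟩
      have h5 : s ∈ mi G X.S := by
        rw [hKc] at h1
        rcases h1 with h1 | h1
        · exact absurd (Or.inl h1) h2
        · exact h1.1
      have h6 : t ∈ mi G (X.Le b) := by
        rcases h3 with h3 | h3
        · exact absurd (hUK h3) h4
        · exact h3
      exact hSPn s h5 t h6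
    · rw [k1]
      exact sd_Conn.2 (hu.UC b)
    · exact (rs_apply (e.mono Set.subset_union_left)).symm
    · exact (rs_apply (e.mono Set.subset_union_right)).symm
  -- the rest
  have hI := main_Inj (G := sd G) (M := cut G X.S (X.U b)ᶜ D \ mi G (X.Le b))
    (A := (cut G X.S (X.U b)ᶜ D \ N0) \ mi G (X.Le b)) (sd_sph3 h.sph).hz
    (fun s hs => ⟨hs.1.1, hs.2⟩) (by
      rintro s ⟨⟨hs1, hs2⟩, hs3⟩ t ⟨⟨ht1, ht2⟩, ht3⟩ e
      have ht0 : t ∈ N0 := by
        by_contra hn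
        exact ht3 ⟨⟨ht1, hn⟩, ht2⟩
      exact h0.nadj t ht0 s ⟨hs1, hs2⟩ e.symm)
  have e3 : (cut G X.S (X.U b)ᶜ D \ mi G (X.Le b))ᶜ =
      (cut G X.S (X.U b)ᶜ D)ᶜ ∪ mi G (X.Le b) := by
    ext s
    constructor
    · intro hs
      by_cases h1 : s ∈ cut G X.S (X.U b)ᶜ D
      · right
        by_contra h2
        exact hs ⟨h1, h2⟩
      · exact Or.inl h1
    · rintro (hs | hs) ⟨h1, h2⟩
      · exact hs h1
      · exact h2 hs
  have e4 : (cut G X.S (X.U b)ᶜ D)ᶜ ∪ mi G (X.Le b) ∪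
      (cut G X.S (X.U b)ᶜ D \ N0) \ mi G (X.Le b) = N0ᶜ ∪ mi G (X.Le b) := by
    ext s
    constructor
    · rintro ((hs | hs) | hs)
      · exact Or.inl (hN0K hs)
      · exact Or.inr hs
      · exact Or.inl hs.1.2
    · rintro (hs | hs)
      · by_cases h1 : s ∈ cut G X.S (X.U b)ᶜ D
        · by_cases h2 : s ∈ mi G (X.Le b)
          · exact Or.inl (Or.inr h2)
          · exact Or.inr ⟨⟨h1, hs⟩, h2⟩
        · exact Or.inl (Or.inl h1)
      · exact Or.inl (Or.inr hs)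
  rw [e3, e4] at hI
  have hd4 : Disjoint (N0ᶜ ∪ mi G (X.Le b)) (mi G X.Bs) :=
    Set.disjoint_union_left.2 ⟨hd1, hd2⟩
  refine Triv_rs.1 (hI _ (hcp.rs_mem hd4) (t3.congr fun x y e => ?_))
  refine (rs_apply (e.mono ?_)).symm
  rintro s (hs | hs)
  · exact Or.inl (hN0K hs)
  · exact Or.inr hs

/-- FLIP of a disc `D` of `S \ W`: `U' b = N0ᶜ`, `U' b' = mi G (U b')` otherwise. -/
theorem sc_fill [Finite V] (h : ScS G e1 e2 inc X) (hu : ScU G e1 e2 inc X) (hf : DscZ G X)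
    {D : Set V} (hD : IsComp G (X.S \ X.W) D) (hz : HZ G D) :
    ∃ U' : Bc → Set (Cq G), ScU (MOT.sd G) e1 e2 inc ((X.sd G).upd U') ∧
      kc (MOT.sd G) ((X.sd G).upd U') < kc G X := by
  obtain ⟨b, hDb, hdis, hnad⟩ := out_one h hu hD hz
  obtain ⟨N0, h0, hL0, hBs0, hU0⟩ := out_N0 h hu hDb hz hdis
  have hDS : D ⊆ X.S := fun x hx => (hDb.sub hx).2
  have hneS := scf_ne h hu b (hdis b)
  have hcv := ScU.curve h hDb.conn hz hDS hneS
  have hsd := hu.sd h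
  have hmU : mi G (X.U b) ⊆ N0ᶜ := by
    intro s hs hn
    obtain ⟨x, hx, hxU⟩ := (h0.sub hn).1
    exact hxU (hs x hx)
  have hMc : Conn G ((X.U b)ᶜ)ᶜ := by
    rw [compl_compl]
    exact hu.UC b
  -- frontiers of the filled plate
  obtain ⟨heq, hrest⟩ := out_eq (G := G) hDb h0
  have hdU : ∀ b', b' ≠ b → Disjoint N0ᶜ (mi G (X.U b')) ∧
      NAdj (MOT.sd G) N0ᶜ (mi G (X.U b')) := by
    intro b' hb'
    refine ⟨Set.disjoint_left.2 fun s hs hn => hs (hU0 b' hb' hn), ?_⟩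
    intro s hs t ht e
    have hs' := hs
    rw [heq] at hs'
    rcases hs' with (hs' | hs') | hs'
    · exact scf_nmi (hu.Ud b b' hb'.symm).1 s hs' t ht e
    · obtain ⟨hsS, x, hx, hxD⟩ := hs'
      rcases e with e | e
      · exact Set.disjoint_left.1 (hdis b') hxD (ht x (Cq.le_iff.1 e.le hx))
      · obtain ⟨y, hy⟩ := t.2.1
        have hys := Cq.le_iff.1 e.le hy
        have hyU := ht y hy
        have hxy : x ≠ y := by
          rintro rfl
          exact Set.disjoint_left.1 (hdis b') hxD hyU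
        exact hnad b' hb' x hxD y ⟨hyU, hsS y hys⟩
          (s.2.2 (Finset.mem_coe.2 hx) (Finset.mem_coe.2 hys) hxy)
    · exact hrest s hs' t (hU0 b' hb' ht) e
  let U' : Bc → Set (Cq G) := fun b' => if b' = b then N0ᶜ else mi G (X.U b')
  have hUb : U' b = N0ᶜ := if_pos rfl
  have hUo : ∀ b', b' ≠ b → U' b' = mi G (X.U b') := fun b' hb' => if_neg hb'
  refine ⟨U', ?_, ?_⟩
  · constructor
    · intro b'
      show Conn (MOT.sd G) (U' b')
      obtain rfl | hb' := eq_or_ne b' b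
      · rw [hUb]
        exact step_compl_Conn h.wall hDb (hu.UCc b') hMc hcv.1 h0
      · rw [hUo b' hb']
        exact hsd.UC b'
    · intro b'
      show Conn (MOT.sd G) (U' b')ᶜ
      obtain rfl | hb' := eq_or_ne b' b
      · rw [hUb, compl_compl]
        exact h0.conn
      · rw [hUo b' hb']
        exact hsd.UCc b'
    · intro b'
      show bb (MOT.sd G) (U' b') = 0
      obtain rfl | hb' := eq_or_ne b' b
      · rw [hUb, bb_compl]
        have h1 := step_bb h.sph h.wall hDb hz (Or.inr hcv) h0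
        rw [bb_compl, hu.Ubb b'] at h1
        omega
      · rw [hUo b' hb']
        exact hsd.Ubb b'
    · intro c c' hcc
      show Disjoint (U' c) (U' c') ∧ NAdj (MOT.sd G) (U' c) (U' c')
      obtain rfl | hc := eq_or_ne c b
      · rw [hUb, hUo c' hcc.symm]
        exact hdU c' hcc.symm
      · obtain rfl | hc' := eq_or_ne c' b
        · rw [hUb, hUo c hc]
          obtain ⟨h1, h2⟩ := hdU c hc
          exact ⟨h1.symm, fun s hs t ht e => h2 t ht s hs e.symm⟩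
        · rw [hUo c hc, hUo c' hc']
          exact hsd.Ud c c' hcc
    · intro b'
      show Disjoint (U' b') (mi G X.Bs)
      obtain rfl | hb' := eq_or_ne b' b
      · rw [hUb]
        exact Set.disjoint_left.2 fun s hs hn => hs (hBs0 hn)
      · rw [hUo b' hb']
        exact hsd.UBs b'
    · intro b'
      show Disjoint (U' b') (mi G (X.Lr b'))
      obtain rfl | hb' := eq_or_ne b' b
      · rw [hUb]
        exact Set.disjoint_left.2 fun s hs hn => hs (hL0 hn)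
      · rw [hUo b' hb']
        exact hsd.ULr b'
    · intro b'
      obtain ⟨Z, hZ, hZU, hZt⟩ := hsd.U3 b'
      refine ⟨Z, hZ, ?_, hZt⟩
      show Z ⊆ U' b' ∩ mi G X.S
      obtain rfl | hb' := eq_or_ne b' b
      · rw [hUb]
        exact fun s hs => ⟨hmU (hZU hs).1, (hZU hs).2⟩
      · rw [hUo b' hb']
        exact hZU
    · intro b'
      show Triv (MOT.sd G) (U' b' ∪ mi G (X.Le b')) (pw G (X.wb e1 e2 b'))
      obtain rfl | hb' := eq_or_ne b' b
      · rw [hUb]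
        exact out_U4 h hu hDb hz h0 hBs0
      · rw [hUo b' hb']
        exact hsd.U4 b'
    · intro b' q h1 h2 z hz'
      have h1' : ∃ x ∈ q.1, x ∈ mi G X.S ∧ x ∈ U' b' := h1
      have h2' : ∃ y ∈ q.1, y ∈ mi G X.S ∧ y ∉ U' b' := h2
      obtain rfl | hb' := eq_or_ne b' b
      · rw [hUb] at h1' h2'
        refine loc_cutS (Ze := X.Ze b') hDb h0 (fun q g1 g2 z hz => ?_) q ?_ ?_ z hz'
        · obtain ⟨x, hx, hxS, hxU⟩ := g1
          obtain ⟨y, hy, hyS, hyU⟩ := g2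
          refine hu.loc b' q ⟨y, hy, hyS, ?_⟩ ⟨x, hx, hxS, hxU⟩ z hz
          by_contra hn
          exact hyU hn
        · obtain ⟨y, hy, hyS, hyU⟩ := h2'
          refine ⟨y, hy, hyS, ?_⟩
          by_contra hn
          exact hyU hn
        · obtain ⟨x, hx, hxS, hxU⟩ := h1'
          exact ⟨x, hx, hxS, hxU⟩
      · rw [hUo b' hb'] at h1' h2'
        exact hsd.loc b' q h1' h2' z hz'
    · intro b' q hq
      have hq' : q ∈ FrIn (MOT.sd G) (mi G X.S) (U' b') := hq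
      obtain rfl | hb' := eq_or_ne b' b
      · rw [hUb, FrIn_compl] at hq'
        have h1 := old_cut hDb h0 hq'
        rw [FrIn_compl] at h1
        exact ⟨mx q, mx_mem q, fun s hs => le_mx q hs, hu.old b' _ h1⟩
      · rw [hUo b' hb'] at hq'
        exact hsd.old b' q hq'
    · intro b' q hq z hz'
      have hq' : q ∈ Fr (MOT.sd G) (U' b') := hq
      obtain rfl | hb' := eq_or_ne b' b
      · rw [hUb, Fr_compl] at hq'
        refine fro_cut (A' := X.Zf b') (M := (X.U b')ᶜ) (S := X.S) (D := D) ?_ ?_ q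
          (Fr_comp h0 hq') z hz'
        · intro r hr
          rw [Fr_compl] at hr
          exact hu.fro b' r hr
        · exact hf b' D hDS hDb.conn hz hneS (dsc_hyp hu (Or.inr hDb))
      · rw [hUo b' hb'] at hq'
        exact hsd.fro b' q hq' z hz'
  · refine Finset.sum_lt_sum (fun b' _ => ?_) ⟨b, Finset.mem_univ b, ?_⟩
    · show b0 (MOT.sd (MOT.sd G)) (FrIn (MOT.sd G) (mi G X.S) (U' b')) ≤
        b0 (MOT.sd G) (FrIn G X.S (X.U b'))
      obtain rfl | hb' := eq_or_ne b' b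
      · rw [hUb, FrIn_compl]
        have h1 := step_kk hDb hcv h0
        rw [FrIn_compl] at h1
        exact h1.le
      · rw [hUo b' hb', kk_mi]
    · show b0 (MOT.sd (MOT.sd G)) (FrIn (MOT.sd G) (mi G X.S) (U' b)) <
        b0 (MOT.sd G) (FrIn G X.S (X.U b))
      rw [hUb, FrIn_compl]
      have h1 := step_kk hDb hcv h0
      rw [FrIn_compl] at h1
      exact h1

end MOT
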