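import Pool.Agent.MOT.Fib
import Pool.Agent.MOT.Joi

/-!
# MOT/ScH: inverse fibre lemmas; adding elements below (helper73)
-/

open Classical

noncomputable section

namespace MOT

variable {P Q : Type} [PartialOrder P] [PartialOrder Q] {S E F : Set P} {T : Set Q}

private theorem z1t_h12 {a : Q → Q → ZMod 2} (ha : a ∈ Z1 (cmp Q) T) {x y z : Q} (hx : x ∈ T)
    (hy : y ∈ T) (hz : z ∈ T) (h1 : x ≤ y ∨ y ≤ x) (h2 : y ≤ z ∨ z ≤ y) (h3 : x ≤ z ∨ z ≤ x) :
    a x y + a y z = a x z := by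
  obtain ⟨h0, hs, hc⟩ := ha
  have d : ∀ u, a u u = 0 := fun u => h0 u u (fun h => h.1.ne rfl)
  have adj : ∀ u v : Q, u ≠ v → (u ≤ v ∨ v ≤ u) → (cmp Q).Adj u v := by
    intro u v hne h
    rcases h with h | h
    · exact Or.inl (lt_of_le_of_ne h hne)
    · exact Or.inr (lt_of_le_of_ne h (Ne.symm hne))
  by_cases e1 : x = y
  · rw [e1, d, zero_add]
  by_cases e2 : y = z
  · rw [e2, d, add_zero]
  by_cases e3 : x = z
  · rw [e3, hs y z, d]
    exact two_add _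
  exact hc x y z ⟨adj x y e1 h1, hx, hy⟩ ⟨adj y z e2 h2, hy, hz⟩ ⟨adj x z e3 h3, hx, hz⟩

/-- images: `y ∈ T`, choose `x ∈ S` with `y ≤ p x`; paths in `S` are mapped to paths in `T` -/
theorem fibi_Conn (p : P → Q) (hm : ∀ x ∈ S, ∀ y ∈ S, x ≤ y → p x ≤ p y)
    (hp : ∀ x ∈ S, p x ∈ T) (hf : ∀ y ∈ T, ∃ x ∈ S, y ≤ p x)
    (hS : Conn (cmp P) S) : Conn (cmp Q) T := by
  have hfT := hf
  rw [Conn_iff]
  obtain ⟨x0, hx0⟩ := hS.1
  refine ⟨⟨p x0, hp x0 hx0⟩, fun f hf y hy y' hy' => ?_⟩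
  have hc : ∀ u ∈ T, ∀ v ∈ T, u ≤ v → f u = f v := by
    intro u hu v hv h
    by_cases e : u = v
    · rw [e]
    · exact hf u v ⟨Or.inl (lt_of_le_of_ne h e), hu, hv⟩
  obtain ⟨x, hx, h1⟩ := hfT y hy
  obtain ⟨x', hx', h2⟩ := hfT y' hy'
  rw [hc y hy _ (hp x hx) h1, hc y' hy' _ (hp x' hx') h2]
  refine hS.const (f := fun x => f (p x)) (fun u v e => ?_) hx hx'
  rcases e.1 with h | h
  · exact hc _ (hp u e.2.1) _ (hp v e.2.2) (hm u e.2.1 v e.2.2 h.le)
  · exact (hc _ (hp v e.2.2) _ (hp u e.2.1) (hm v e.2.2 u e.2.1 h.le)).symm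

/-- a cocycle of the base whose pull back is trivial.  Sketch: `a (p x) (p x') = ψ x + ψ x'`.  For `y ∈ T` the
function `ψ x + a y (p x)` (`a y y = 0`) is locally constant on the fibre `{x | y ≤ p x}`: value `g y`.  For `y < y'`
take `x` in the fibre of `y'`: `g y + g y' = a y (p x) + a y' (p x) = a y y'`. -/
theorem fibi_Triv (p : P → Q) (hm : ∀ x ∈ S, ∀ y ∈ S, x ≤ y → p x ≤ p y)
    (hp : ∀ x ∈ S, p x ∈ T) (hf : ∀ y ∈ T, Conn (cmp P) {x | x ∈ S ∧ y ≤ p x})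
    {a : Q → Q → ZMod 2} (ha : a ∈ Z1 (cmp Q) T)
    (h : Triv (cmp P) S (fun x x' => a (p x) (p x'))) : Triv (cmp Q) T a := by
  obtain ⟨ψ, hψ⟩ := h
  obtain ⟨_, hs, _⟩ := id ha
  -- the function of the fibre is constant
  have hk : ∀ y ∈ T, ∀ x ∈ {x | x ∈ S ∧ y ≤ p x}, ∀ x' ∈ {x | x ∈ S ∧ y ≤ p x},
      ψ x + a y (p x) = ψ x' + a y (p x') := by
    intro y hy x hx x' hx'
    refine (hf y hy).const (f := fun z => ψ z + a y (p z)) (fun u v e => ?_) hx hx'
    have hcmp : p u ≤ p v ∨ p v ≤ p u := by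
      rcases e.1 with h | h
      · exact Or.inl (hm u e.2.1.1 v e.2.2.1 h.le)
      · exact Or.inr (hm v e.2.2.1 u e.2.1.1 h.le)
    have e1 := z1t_h12 ha hy (hp u e.2.1.1) (hp v e.2.2.1) (Or.inl e.2.1.2) hcmp
      (Or.inl e.2.2.2)
    have e2 : a (p u) (p v) = ψ u + ψ v := hψ u v ⟨e.1, e.2.1.1, e.2.2.1⟩
    show ψ u + a y (p u) = ψ v + a y (p v)
    rw [← e1, e2]
    linear_combination - two_add (ψ v)
  have hc : ∀ y, ∃ g : ZMod 2, y ∈ T → ∀ x ∈ {x | x ∈ S ∧ y ≤ p x}, ψ x + a y (p x) = g := by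
    intro y
    by_cases hy : y ∈ T
    · obtain ⟨c, hc⟩ := (hf y hy).1
      exact ⟨ψ c + a y (p c), fun _ x hx => hk y hy x hx c hc⟩
    · exact ⟨0, fun h => absurd h hy⟩
  choose g hg using hc
  have key : ∀ y ∈ T, ∀ y' ∈ T, y ≤ y' → a y y' = g y + g y' := by
    intro y hy y' hy' hle
    obtain ⟨x, hx, hx'⟩ := (hf y' hy').1
    rw [← hg y hy x ⟨hx, hle.trans hx'⟩, ← hg y' hy' x ⟨hx, hx'⟩]
    have e1 := z1t_h12 ha hy hy' (hp x hx) (Or.inl hle) (Or.inl hx') (Or.inl (hle.trans hx'))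
    rw [← e1]
    linear_combination - two_add (ψ x) - two_add (a y' (p x))
  refine ⟨g, fun y y' e => ?_⟩
  rcases e.1 with h | h
  · exact key y e.2.1 y' e.2.2 h.le
  · rw [hs y y', key y' e.2.2 y e.2.1 h.le, add_comm]

theorem fibi_HZ (p : P → Q) (hm : ∀ x ∈ S, ∀ y ∈ S, x ≤ y → p x ≤ p y)
    (hp : ∀ x ∈ S, p x ∈ T) (hf : ∀ y ∈ T, Conn (cmp P) {x | x ∈ S ∧ y ≤ p x})
    (hS : HZ (cmp P) S) : HZ (cmp Q) T := by
  intro a ha
  have hcm : ∀ u ∈ S, ∀ v ∈ S, (u < v ∨ v < u) → (p u ≤ p v ∨ p v ≤ p u) := by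
    intro u hu v hv h
    rcases h with h | h
    · exact Or.inl (hm u hu v hv h.le)
    · exact Or.inr (hm v hv u hu h.le)
  have hb : rs (cmp P) S (fun x x' => a (p x) (p x')) ∈ Z1 (cmp P) S := by
    obtain ⟨_, hs, _⟩ := id ha
    refine mem_Z1.2 ⟨fun x y e => if_neg e, fun x y => ?_, fun x y z e1 e2 e3 => ?_⟩
    · unfold rs
      by_cases e : EIn (cmp P) S x y
      · rw [if_pos e, if_pos e.symm]
        exact hs _ _
      · rw [if_neg e, if_neg (fun e' => e e'.symm)]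
    · rw [rs_apply e1, rs_apply e2, rs_apply e3]
      exact z1t_h12 ha (hp x e1.2.1) (hp y e1.2.2) (hp z e2.2.2) (hcm x e1.2.1 y e1.2.2 e1.1)
        (hcm y e2.2.1 z e2.2.2 e2.1) (hcm x e3.2.1 z e3.2.2 e3.1)
  exact fibi_Triv p hm hp hf ha (Triv_rs.1 (hS _ hb))

private theorem av_HZ_h12 {V : Type} {G : SimpleGraph V} {A : Set V} {x : V} (hx : x ∉ A)
    (hc : Conn G (Lk G {x} ∩ A)) (hz : HZ G (Lk G {x} ∩ A)) :
    HZ G (insert x A) ↔ HZ G A := by
  have hi := add_vertex_Inj hx hc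
  have hsu := add_vertex_Surj hx hz
  have hsub : A ⊆ insert x A := Set.subset_insert x A
  constructor
  · intro h b hb
    obtain ⟨a, ha, t⟩ := hsu b hb
    refine (t.add ((h a ha).mono hsub)).congr fun u v _ => ?_
    simp only [Pi.add_apply]
    linear_combination two_add (a u v)
  · intro h a ha
    exact hi a ha (Triv_rs.1 (h _ (rs_mem hsub ha)))

/-- ADDING ELEMENTS BELOW: every `t ∈ F` has only upper neighbours in `E`, and they form a connected set with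
`H^1 = 0`.  Induction on `F` (finite): remove a maximal element `t` of `F`; its link in `E ∪ (F \ {t})` is the join
of `{x ∈ E | t < x}` and `{x ∈ F | x < t}` (`join_Conn`, `join_HZ`; if the second set is empty use `h`), then
`add_vertex_Conn`, `add_vertex_Inj`, `add_vertex_Surj`. -/
theorem addb [Finite P] (hd : Disjoint E F) (hl : ∀ t ∈ F, ∀ x ∈ E, ¬ x < t)
    (h : ∀ t ∈ F, Conn (cmp P) {x | x ∈ E ∧ t < x} ∧ HZ (cmp P) {x | x ∈ E ∧ t < x}) :
    (Conn (cmp P) (E ∪ F) ↔ Conn (cmp P) E) ∧ (HZ (cmp P) (E ∪ F) ↔ HZ (cmp P) E) := by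
  induction hn : F.ncard generalizing F with
  | zero =>
    rw [Set.ncard_eq_zero (Set.toFinite F)] at hn
    rw [hn, Set.union_empty]
    exact ⟨Iff.rfl, Iff.rfl⟩
  | succ n ih =>
    have hne : F.Nonempty := by
      rw [Set.nonempty_iff_ne_empty]
      rintro rfl
      rw [Set.ncard_empty] at hn
      omega
    obtain ⟨t, ht⟩ := (Set.toFinite F).exists_maximal hne
    have htF : t ∈ F := ht.1
    have htm : ∀ x ∈ F, t ≤ x → x = t := fun x hx h => le_antisymm (ht.2 hx h) h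
    have hsub : F \ {t} ⊆ F := Set.sdiff_subset
    have hn' : (F \ {t}).ncard = n := by
      rw [Set.ncard_sdiff_singleton_of_mem htF, hn]
      rfl
    obtain ⟨i1, i2⟩ := ih (F := F \ {t}) (hd.mono_right hsub) (fun u hu => hl u (hsub hu))
      (fun u hu => h u (hsub hu)) hn'
    have htE : t ∉ E := fun h' => Set.disjoint_left.1 hd h' htF
    have htn : t ∉ E ∪ (F \ {t}) := by
      rintro (h' | h')
      · exact htE h'
      · exact h'.2 rfl
    have hins : E ∪ F = insert t (E ∪ (F \ {t})) := by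
      ext x
      constructor
      · rintro (hx | hx)
        · exact Or.inr (Or.inl hx)
        · by_cases e : x = t
          · exact Or.inl e
          · exact Or.inr (Or.inr ⟨hx, e⟩)
      · rintro (hx | hx | hx)
        · rw [hx]
          exact Or.inr htF
        · exact Or.inl hx
        · exact Or.inr hx.1
    -- the link of `t`
    have hLk : Lk (cmp P) {t} ∩ (E ∪ (F \ {t})) =
        {x | x ∈ E ∧ t < x} ∪ {x | x ∈ F \ {t} ∧ x < t} := by
      ext x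
      constructor
      · rintro ⟨h1, h2⟩
        have h3 : t < x ∨ x < t := h1 t rfl
        rcases h2 with h2 | h2
        · rcases h3 with h3 | h3
          · exact Or.inl ⟨h2, h3⟩
          · exact absurd h3 (hl t htF x h2)
        · rcases h3 with h3 | h3
          · exact absurd (htm x h2.1 h3.le) h2.2
          · exact Or.inr ⟨h2, h3⟩
      · rintro (⟨h1, h2⟩ | ⟨h1, h2⟩)
        · refine ⟨fun y hy => ?_, Or.inl h1⟩
          rw [show y = t from hy]
          exact Or.inl h2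
        · refine ⟨fun y hy => ?_, Or.inr h1⟩
          rw [show y = t from hy]
          exact Or.inr h2
    have hj : ∀ x ∈ {x | x ∈ E ∧ t < x}, ∀ y ∈ {x | x ∈ F \ {t} ∧ x < t}, (cmp P).Adj x y :=
      fun x hx y hy => Or.inr (hy.2.trans hx.2)
    have hcz : Conn (cmp P) (Lk (cmp P) {t} ∩ (E ∪ (F \ {t}))) ∧
        HZ (cmp P) (Lk (cmp P) {t} ∩ (E ∪ (F \ {t}))) := by
      rw [hLk]
      obtain ⟨g1, g2⟩ := h t htF
      rcases Set.eq_empty_or_nonempty {x | x ∈ F \ {t} ∧ x < t} with h0 | h0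
      · rw [h0, Set.union_empty]
        exact ⟨g1, g2⟩
      · exact ⟨join_Conn hj g1.1 h0, join_HZ hj g1 h0⟩
    rw [hins]
    exact ⟨(add_vertex_Conn htn hcz.1).trans i1, (av_HZ_h12 htn hcz.1 hcz.2).trans i2⟩

end MOT
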