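import Pool.Agent.MOT.SbDef
import Pool.Agent.MOT.MV
import Pool.Agent.MOT.Cpt
import Pool.Agent.MOT.Sdi

/-!
# MOT/ScJ: a disc `D` of the frontier of `U` inside a region `R` and its crossing cochain (helper73)

`D` is a component of `mi G R ∩ Fr G U` (simplices in `R` with vertices in `U` and outside `U`).
-/

open Classical

noncomputable section

namespace MOT

variable {V : Type} {G : SimpleGraph V} {R U R0 R1 : Set V} {D : Set (Cq G)}

/-- `R = R0 ⊔ R1`, the mixed simplices are exactly those of `D` -/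
structure Spl (G : SimpleGraph V) (R R0 R1 : Set V) (D : Set (Cq G)) : Prop where
  un : R0 ∪ R1 = R
  dis : Disjoint R0 R1
  c0 : Conn G R0
  c1 : Conn G R1
  eq : D = {q | q ∈ mi G R ∧ (∃ x ∈ q.1, x ∈ R0) ∧ ∃ x ∈ q.1, x ∈ R1}

theorem Spl.symm (h : Spl G R R0 R1 D) : Spl G R R1 R0 D where
  un := by rw [Set.union_comm]; exact h.un
  dis := h.dis.symm
  c0 := h.c1
  c1 := h.c0
  eq := by
    rw [h.eq]
    ext q
    constructor
    · rintro ⟨h1, h2, h3⟩; exact ⟨h1, h3, h2⟩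
    · rintro ⟨h1, h2, h3⟩; exact ⟨h1, h3, h2⟩

/-- `gam D x y = 1` iff `{x, y} ∈ D` -/
theorem gam_one {x y : V} : gam D x y = 1 ↔ ∃ s ∈ D, s.1 = {x, y} := by
  unfold gam
  constructor
  · intro h
    by_contra h'
    rw [if_neg h'] at h
    exact absurd h (by decide)
  · intro h
    rw [if_pos h]

private theorem gam_zero_j {x y : V} (h : ¬ ∃ s ∈ D, s.1 = {x, y}) : gam D x y = 0 := if_neg h

private theorem gam_symm_j (x y : V) : gam D x y = gam D y x := by
  unfold gam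
  rw [Finset.pair_comm]

private theorem mem_D_j (hD : IsComp (sd G) (mi G R ∩ Fr G U) D) {s q : Cq G} (hs : s ∈ D)
    (hq : q ∈ mi G R ∩ Fr G U) (h : s ≤ q ∨ q ≤ s) : q ∈ D := by
  by_contra hn
  have hne : s ≠ q := fun e => hn (e ▸ hs)
  refine hD.nadj s hs q ⟨hq, hn⟩ (sd_adj.2 ?_)
  rcases h with h | h
  · exact Or.inl (lt_of_le_of_ne h hne)
  · exact Or.inr (lt_of_le_of_ne h (Ne.symm hne))

/-- a simplex of `mi G R` which contains a pair of `D` is in `D`; in a simplex of `D` the pairs in `D` are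
exactly the pairs which are mixed for `U` -/
theorem D_pair (hD : IsComp (sd G) (mi G R ∩ Fr G U) D) {q : Cq G} (hq : q ∈ mi G R)
    {x y : V} (hx : x ∈ q.1) (hy : y ∈ q.1) :
    (gam D x y = 1 → q ∈ D) ∧ (q ∈ D → (gam D x y = 1 ↔ ((x ∈ U ∧ y ∉ U) ∨ (x ∉ U ∧ y ∈ U)))) := by
  have hle : ∀ s : Cq G, s.1 = {x, y} → s ≤ q := by
    intro s hs
    rw [Cq.le_iff, hs]
    intro z hz
    simp only [Finset.mem_insert, Finset.mem_singleton] at hz
    rcases hz with rfl | rfl
    · exact hx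
    · exact hy
  constructor
  · intro h
    obtain ⟨s, hs, e⟩ := gam_one.1 h
    have hF := (hD.sub hs).2
    refine mem_D_j hD hs ⟨hq, ?_, ?_⟩ (Or.inl (hle s e))
    · obtain ⟨z, hz, hz'⟩ := hF.1
      exact ⟨z, Cq.le_iff.1 (hle s e) hz, hz'⟩
    · obtain ⟨z, hz, hz'⟩ := hF.2
      exact ⟨z, Cq.le_iff.1 (hle s e) hz, hz'⟩
  · intro hqD
    constructor
    · intro h
      obtain ⟨s, hs, e⟩ := gam_one.1 h
      obtain ⟨⟨z, hz, hzU⟩, ⟨w, hw, hwU⟩⟩ := (hD.sub hs).2
      rw [e] at hz hw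
      simp only [Finset.mem_insert, Finset.mem_singleton] at hz hw
      rcases hz with rfl | rfl <;> rcases hw with rfl | rfl
      · exact absurd hzU hwU
      · exact Or.inl ⟨hzU, hwU⟩
      · exact Or.inr ⟨hwU, hzU⟩
      · exact absurd hzU hwU
    · intro h
      have hne : x ≠ y := by
        rintro rfl
        rcases h with h | h
        · exact h.2 h.1
        · exact h.1 h.2
      have ha : G.Adj x y := q.2.2 (Finset.mem_coe.2 hx) (Finset.mem_coe.2 hy) hne
      refine gam_one.2 ⟨eg G ha, ?_, rfl⟩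
      refine mem_D_j hD hqD ⟨?_, ?_, ?_⟩ (Or.inr (hle _ rfl))
      · intro z hz
        exact hq z (Cq.le_iff.1 (hle _ rfl) hz)
      · rcases h with h | h
        · exact ⟨x, Finset.mem_insert_self _ _, h.1⟩
        · exact ⟨y, Finset.mem_insert_of_mem (Finset.mem_singleton_self y), h.2⟩
      · rcases h with h | h
        · exact ⟨y, Finset.mem_insert_of_mem (Finset.mem_singleton_self y), h.2⟩
        · exact ⟨x, Finset.mem_insert_self _ _, h.1⟩

private def tr3_j {x y z : V} (h1 : G.Adj x y) (h2 : G.Adj y z) (h3 : G.Adj x z) : Cq G :=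
  ⟨{x, y, z}, ⟨x, by simp⟩, by
    intro u hu v hv huv
    simp only [Finset.coe_insert, Finset.coe_singleton, Set.mem_insert_iff,
      Set.mem_singleton_iff] at hu hv
    rcases hu with rfl | rfl | rfl <;> rcases hv with rfl | rfl | rfl <;>
      first | exact absurd rfl huv | assumption | (apply SimpleGraph.Adj.symm; assumption)⟩

private theorem zz_j {a : ZMod 2} (h : a ≠ 1) : a = 0 := by
  revert h; revert a; decide

/-- `gam D` is a cocycle of `R`: a triangle in `R` has `0` or `2` mixed edges, and two mixed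
edges are in the same component -/
theorem gam_mem (hD : IsComp (sd G) (mi G R ∩ Fr G U) D) : rs G R (gam D) ∈ Z1 G R := by
  refine mem_Z1.2 ⟨fun x y e => if_neg e, fun x y => ?_, fun x y z e1 e2 e3 => ?_⟩
  · unfold rs
    by_cases e : EIn G R x y
    · rw [if_pos e, if_pos e.symm, gam_symm_j]
    · rw [if_neg e, if_neg (fun e' => e e'.symm)]
  · rw [rs_apply e1, rs_apply e2, rs_apply e3]
    let q : Cq G := tr3_j e1.1 e2.1 e3.1
    have hx : x ∈ q.1 := by show x ∈ ({x, y, z} : Finset V); simp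
    have hy : y ∈ q.1 := by show y ∈ ({x, y, z} : Finset V); simp
    have hz : z ∈ q.1 := by show z ∈ ({x, y, z} : Finset V); simp
    have hq : q ∈ mi G R := by
      intro u hu
      have hu' : u ∈ ({x, y, z} : Finset V) := hu
      simp only [Finset.mem_insert, Finset.mem_singleton] at hu'
      rcases hu' with rfl | rfl | rfl
      · exact e1.2.1
      · exact e1.2.2
      · exact e2.2.2
    have pxy := D_pair hD hq hx hy
    have pyz := D_pair hD hq hy hz
    have pxz := D_pair hD hq hx hz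
    by_cases hqD : q ∈ D
    · have v : ∀ u w : V, (gam D u w = 1 ↔ ((u ∈ U ∧ w ∉ U) ∨ (u ∉ U ∧ w ∈ U))) →
          gam D u w = (if u ∈ U then 1 else 0) + (if w ∈ U then 1 else 0) := by
        intro u w hu
        by_cases h1 : u ∈ U <;> by_cases h2 : w ∈ U
        · rw [if_pos h1, if_pos h2, zz_j (a := gam D u w) (fun h => by
            rcases hu.1 h with h' | h'
            · exact h'.2 h2
            · exact h'.1 h1)]
          rfl
        · rw [if_pos h1, if_neg h2, hu.2 (Or.inl ⟨h1, h2⟩)]; rfl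
        · rw [if_neg h1, if_pos h2, hu.2 (Or.inr ⟨h1, h2⟩)]; rfl
        · rw [if_neg h1, if_neg h2, zz_j (a := gam D u w) (fun h => by
            rcases hu.1 h with h' | h'
            · exact h1 h'.1
            · exact h2 h'.2)]
          rfl
      rw [v x y (pxy.2 hqD), v y z (pyz.2 hqD), v x z (pxz.2 hqD)]
      have : ∀ a b c : ZMod 2, a + b + (b + c) = a + c := by decide
      exact this _ _ _
    · rw [zz_j (a := gam D x y) (fun h => hqD (pxy.1 h)),
        zz_j (a := gam D y z) (fun h => hqD (pyz.1 h)),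
        zz_j (a := gam D x z) (fun h => hqD (pxz.1 h))]; rfl

/-- connectedness of one part -/
private theorem part_conn_j (hR : Conn G R) (hDc : Conn (sd G) D) (hun : R0 ∪ R1 = R)
    (heq : D = {q | q ∈ mi G R ∧ (∃ x ∈ q.1, x ∈ R0) ∧ ∃ x ∈ q.1, x ∈ R1}) :
    Conn G R0 := by
  obtain ⟨q0, hq0⟩ := hDc.1
  have hq0' := hq0
  rw [heq] at hq0'
  obtain ⟨hq0R, ⟨x0, hx0, hx0R⟩, ⟨y0, hy0, hy0R⟩⟩ := hq0'
  rw [Conn_iff]
  refine ⟨⟨x0, hx0R⟩, fun f hf => ?_⟩
  have hcl : ∀ (q : Cq G) (x y : V), x ∈ q.1 → y ∈ q.1 → x ∈ R0 → y ∈ R0 → f x = f y := by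
    intro q x y hx hy hxR hyR
    by_cases e : x = y
    · rw [e]
    · exact hf x y ⟨q.2.2 (Finset.mem_coe.2 hx) (Finset.mem_coe.2 hy) e, hxR, hyR⟩
  let φ : Cq G → ZMod 2 := fun q => if h : ∃ x ∈ q.1, x ∈ R0 then f h.choose else 0
  have hφ : ∀ (q : Cq G) (x : V), x ∈ q.1 → x ∈ R0 → φ q = f x := by
    intro q x hx hxR
    have h : ∃ x ∈ q.1, x ∈ R0 := ⟨x, hx, hxR⟩
    show (if h : ∃ x ∈ q.1, x ∈ R0 then f h.choose else 0) = f x
    rw [dif_pos h]
    exact hcl q _ _ h.choose_spec.1 hx h.choose_spec.2 hxR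
  have hφle : ∀ q q' : Cq G, q ∈ D → q ≤ q' → φ q = φ q' := by
    intro q q' hq hle
    rw [heq] at hq
    obtain ⟨-, ⟨x, hx, hxR⟩, -⟩ := hq
    rw [hφ q x hx hxR, hφ q' x (Cq.le_iff.1 hle hx) hxR]
  have hφc : ∀ q ∈ D, φ q = f x0 := by
    intro q hq
    rw [← hφ q0 x0 hx0 hx0R]
    refine hDc.const (f := φ) (fun s t e => ?_) hq hq0
    rcases sd_adj.1 e.1 with h | h
    · exact hφle s t e.2.1 h.le
    · exact (hφle t s e.2.2 h.le).symm
  -- the function on `R`
  let g : V → ZMod 2 := fun x => if x ∈ R0 then f x + f x0 else 0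
  have hmix : ∀ x y, EIn G R x y → x ∈ R0 → y ∉ R0 → g x = 0 := by
    intro x y e hx hy
    have hyR1 : y ∈ R1 := by
      have : y ∈ R0 ∪ R1 := by rw [hun]; exact e.2.2
      exact this.resolve_left hy
    have hq : eg G e.1 ∈ D := by
      rw [heq]
      refine ⟨?_, ⟨x, Finset.mem_insert_self _ _, hx⟩,
        ⟨y, Finset.mem_insert_of_mem (Finset.mem_singleton_self y), hyR1⟩⟩
      intro z hz
      have hz' : z ∈ ({x, y} : Finset V) := hz
      simp only [Finset.mem_insert, Finset.mem_singleton] at hz'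
      rcases hz' with rfl | rfl
      · exact e.2.1
      · exact e.2.2
    have h1 := hφc _ hq
    rw [hφ _ x (Finset.mem_insert_self _ _) hx] at h1
    show (if x ∈ R0 then f x + f x0 else 0) = 0
    rw [if_pos hx, h1, two_add]
  have hg : ∀ x y, EIn G R x y → g x = g y := by
    intro x y e
    by_cases hx : x ∈ R0 <;> by_cases hy : y ∈ R0
    · show (if x ∈ R0 then f x + f x0 else 0) = (if y ∈ R0 then f y + f x0 else 0)
      rw [if_pos hx, if_pos hy, hf x y ⟨e.1, hx, hy⟩]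
    · rw [hmix x y e hx hy]
      exact (if_neg hy).symm
    · rw [hmix y x e.symm hy hx]
      exact if_neg hx
    · exact (if_neg hx).trans (if_neg hy).symm
  have key : ∀ x ∈ R0, f x = f x0 := by
    intro x hx
    have hxR : x ∈ R := hun ▸ Or.inl hx
    have h1 := hR.const hg hxR (hq0R x0 hx0)
    have h2 : g x = f x + f x0 := if_pos hx
    have h3 : g x0 = f x0 + f x0 := if_pos hx0R
    rw [h2, h3, two_add] at h1
    exact (z2_eq _ _).1 h1
  intro x hx y hy
  rw [key x hx, key y hy]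

/-- POCKET.  `gam D` has a potential `g` on `R`: `R0 = {g = 0}`, `R1 = {g = 1}`.  The ends of the simplices of `D`
in `R0` lie in one component of `R0` (`D` connected, `q ∩ R0` a clique), and every component of `R0` touches
`R1`, i.e. `D` (`R` connected, `D` nonempty). -/
theorem pocket_split (hR : Conn G R) (hD : IsComp (sd G) (mi G R ∩ Fr G U) D)
    (ht : Triv G R (gam D)) : ∃ R0 R1, Spl G R R0 R1 D := by
  obtain ⟨f, hf⟩ := ht
  have hun : {x | x ∈ R ∧ f x = 0} ∪ {x | x ∈ R ∧ f x = 1} = R := by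
    ext x
    constructor
    · rintro (h | h)
      · exact h.1
      · exact h.1
    · intro h
      by_cases e : f x = 1
      · exact Or.inr ⟨h, e⟩
      · exact Or.inl ⟨h, zz_j e⟩
  have heq : D = {q | q ∈ mi G R ∧ (∃ x ∈ q.1, x ∈ {x | x ∈ R ∧ f x = 0}) ∧
      ∃ x ∈ q.1, x ∈ {x | x ∈ R ∧ f x = 1}} := by
    ext q
    constructor
    · intro hq
      obtain ⟨hqR, ⟨x, hx, hxU⟩, ⟨y, hy, hyU⟩⟩ := hD.sub hq
      have hne : x ≠ y := by
        rintro rfl
        exact hyU hxU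
      have ha : G.Adj x y := q.2.2 (Finset.mem_coe.2 hx) (Finset.mem_coe.2 hy) hne
      have h1 := ((D_pair hD hqR hx hy).2 hq).2 (Or.inl ⟨hxU, hyU⟩)
      rw [hf x y ⟨ha, hqR x hx, hqR y hy⟩] at h1
      by_cases e : f x = 1
      · have e' : f y = 0 := by
          rw [e] at h1
          have : ∀ a : ZMod 2, 1 + a = 1 → a = 0 := by decide
          exact this _ h1
        exact ⟨hqR, ⟨y, hy, hqR y hy, e'⟩, ⟨x, hx, hqR x hx, e⟩⟩
      · have e0 := zz_j e
        have e' : f y = 1 := by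
          rw [e0, zero_add] at h1
          exact h1
        exact ⟨hqR, ⟨x, hx, hqR x hx, e0⟩, ⟨y, hy, hqR y hy, e'⟩⟩
    · rintro ⟨hqR, ⟨x, hx, -, ex⟩, ⟨y, hy, -, ey⟩⟩
      have hne : x ≠ y := by
        rintro rfl
        rw [ex] at ey
        exact absurd ey (by decide)
      have ha : G.Adj x y := q.2.2 (Finset.mem_coe.2 hx) (Finset.mem_coe.2 hy) hne
      refine (D_pair hD hqR hx hy).1 ?_
      rw [hf x y ⟨ha, hqR x hx, hqR y hy⟩, ex, ey]
      rfl
  have heq' : D = {q | q ∈ mi G R ∧ (∃ x ∈ q.1, x ∈ {x | x ∈ R ∧ f x = 1}) ∧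
      ∃ x ∈ q.1, x ∈ {x | x ∈ R ∧ f x = 0}} := by
    rw [heq]
    ext q
    constructor
    · rintro ⟨h1, h2, h3⟩; exact ⟨h1, h3, h2⟩
    · rintro ⟨h1, h2, h3⟩; exact ⟨h1, h3, h2⟩
  refine ⟨_, _, hun, ?_, part_conn_j hR hD.conn hun heq,
    part_conn_j hR hD.conn ((Set.union_comm _ _).trans hun) heq', heq⟩
  rw [Set.disjoint_left]
  rintro x ⟨-, h1⟩ ⟨-, h2⟩
  rw [h1] at h2
  exact absurd h2 (by decide)

/-- a connected set which no pair of `D` crosses lies in one part -/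
theorem Spl.one (h : Spl G R R0 R1 D) {B : Set V} (hB : Conn G B) (hBR : B ⊆ R)
    (h0 : ∀ x ∈ B, ∀ y ∈ B, gam D x y = 0) : B ⊆ R0 ∨ B ⊆ R1 := by
  have hcase : ∀ x ∈ B, x ∈ R0 ∨ x ∈ R1 := by
    intro x hx
    have : x ∈ R0 ∪ R1 := by rw [h.un]; exact hBR hx
    exact this
  have hno : ∀ x y, EIn G B x y → x ∈ R0 → y ∈ R1 → False := by
    intro x y e hx hy
    have hq : eg G e.1 ∈ D := by
      rw [h.eq]
      refine ⟨?_, ⟨x, Finset.mem_insert_self _ _, hx⟩,
        ⟨y, Finset.mem_insert_of_mem (Finset.mem_singleton_self y), hy⟩⟩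
      intro z hz
      have hz' : z ∈ ({x, y} : Finset V) := hz
      simp only [Finset.mem_insert, Finset.mem_singleton] at hz'
      rcases hz' with rfl | rfl
      · exact hBR e.2.1
      · exact hBR e.2.2
    have h1 : gam D x y = 1 := gam_one.2 ⟨_, hq, rfl⟩
    rw [h0 x e.2.1 y e.2.2] at h1
    exact absurd h1 (by decide)
  obtain ⟨b, hb⟩ := hB.1
  have hloc : ∀ x y, EIn G B x y →
      (if x ∈ R0 then (1 : ZMod 2) else 0) = if y ∈ R0 then 1 else 0 := by
    intro x y e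
    by_cases hx : x ∈ R0 <;> by_cases hy : y ∈ R0
    · rw [if_pos hx, if_pos hy]
    · exact (hno x y e hx ((hcase y e.2.2).resolve_left hy)).elim
    · exact (hno y x e.symm hy ((hcase x e.2.1).resolve_left hx)).elim
    · rw [if_neg hx, if_neg hy]
  by_cases hb0 : b ∈ R0
  · left
    intro x hx
    by_contra hx0
    have h1 := hB.const (f := fun x => if x ∈ R0 then (1 : ZMod 2) else 0) hloc hx hb
    simp only [if_pos hb0, if_neg hx0] at h1
    exact absurd h1 (by decide)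
  · right
    intro x hx
    refine (hcase x hx).resolve_left fun hx0 => ?_
    have h1 := hB.const (f := fun x => if x ∈ R0 then (1 : ZMod 2) else 0) hloc hx hb
    simp only [if_pos hx0, if_neg hb0] at h1
    exact absurd h1 (by decide)

private theorem ch_j {W : Type} {H : SimpleGraph W} {A : Set W} {a b c : W → W → ZMod 2}
    (s : Triv H A (a + b)) (t : Triv H A (b + c)) : Triv H A (a + c) := by
  refine (s.add t).congr fun x y _ => ?_
  simp only [Pi.add_apply]
  have : ∀ a b c : ZMod 2, a + b + (b + c) = a + c := by decide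
  exact this _ _ _

/-- extension of a class of `R1` by zero over `R0`.  Sketch on `sd G`: `mi G R = A0 ∪ A1`, `Ai` = simplices in `R`
meeting `Ri`, `A0 ∩ A1 = D`, `mi Ri ⊆ Ai ⊆ pl Ri`; the class of `A1` given by `α` (`bt_Surj`, `upc`) and `0` on `A0` agree
on `D` up to a coboundary (`HZ`): `mv_glue`; then `dnc`, `bt_Triv`, `Triv_dnc`. -/
theorem Spl.glue (h : Spl G R R0 R1 D) (hz : HZ (sd G) D) {α : V → V → ZMod 2}
    (ha : α ∈ Z1 G R1) : ∃ c ∈ Z1 G R, Triv G R0 c ∧ Triv G R1 (c + α) := by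
  have hR0 : R0 ⊆ R := h.un ▸ Set.subset_union_left
  have hR1 : R1 ⊆ R := h.un ▸ Set.subset_union_right
  let A0 : Set (Cq G) := {q | q ∈ mi G R ∧ ∃ x ∈ q.1, x ∈ R0}
  let A1 : Set (Cq G) := {q | q ∈ mi G R ∧ ∃ x ∈ q.1, x ∈ R1}
  have m0 : mi G R0 ⊆ A0 := fun q hq => ⟨mi_mono hR0 hq, mi_sub_pl hq⟩
  have m1 : mi G R1 ⊆ A1 := fun q hq => ⟨mi_mono hR1 hq, mi_sub_pl hq⟩
  have hun : A0 ∪ A1 = mi G R := by
    ext q
    constructor
    · rintro (hq | hq)
      · exact hq.1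
      · exact hq.1
    · intro hq
      obtain ⟨x, hx⟩ := q.2.1
      have : x ∈ R0 ∪ R1 := by rw [h.un]; exact hq x hx
      rcases this with h1 | h1
      · exact Or.inl ⟨hq, x, hx, h1⟩
      · exact Or.inr ⟨hq, x, hx, h1⟩
  have hint : A0 ∩ A1 = D := by
    rw [h.eq]
    ext q
    constructor
    · rintro ⟨h1, h2⟩; exact ⟨h1.1, h1.2, h2.2⟩
    · rintro ⟨h1, h2, h3⟩; exact ⟨⟨h1, h2⟩, ⟨h1, h3⟩⟩
  have hnad : NAdj (sd G) (A0 \ A1) (A1 \ A0) := by
    rintro s ⟨hs0, hs1⟩ t ⟨ht1, ht0⟩ e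
    rcases sd_adj.1 e with h1 | h1
    · obtain ⟨x, hx, hxR⟩ := hs0.2
      exact ht0 ⟨ht1.1, x, Cq.le_iff.1 h1.le hx, hxR⟩
    · obtain ⟨x, hx, hxR⟩ := ht1.2
      exact hs1 ⟨hs0.1, x, Cq.le_iff.1 h1.le hx, hxR⟩
  have ha' := upc_mem ha
  obtain ⟨b, hb, tb⟩ := bt_Surj (G := G) (M := R1) (N := A1) m1 (fun q hq => hq.2) _ ha'
  have t0 : Triv (sd G) (A0 ∩ A1) (0 + b) := by
    rw [zero_add, hint]
    have hDA : D ⊆ A1 := hint ▸ Set.inter_subset_right
    exact Triv_rs.1 (hz _ (rs_mem hDA hb))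
  obtain ⟨c, hc, tc0, tc1⟩ := mv_glue hnad (Z1 (sd G) A0).zero_mem hb t0
  rw [hun] at hc
  rw [add_zero] at tc0
  refine ⟨dnc G R c, dnc_mem hc, (Triv_dnc hc hR0).2 (tc0.mono m0), ?_⟩
  have u1 : Triv (sd G) (mi G R1) (upc G R (dnc G R c) + c) :=
    (upc_dnc hc).mono (mi_mono hR1)
  have u2 := ch_j (ch_j u1 (tc1.mono m1)) tb
  have hr := rs_mem hR1 (dnc_mem hc)
  have hs : rs G R1 (dnc G R c) + α ∈ Z1 G R1 := (Z1 G R1).add_mem hr ha
  have u3 : Triv (sd G) (mi G R1) (upc G R1 (rs G R1 (dnc G R c) + α)) := by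
    refine u2.congr fun s t e => ?_
    have eR := e.mono (mi_mono (G := G) hR1)
    simp only [Pi.add_apply, upc, if_pos e, if_pos eR]
    by_cases hk : pk s = pk t
    · simp only [if_pos hk, add_zero]
    · simp only [if_neg hk]
      have hadj : EIn G R1 (pk s) (pk t) := by
        refine ⟨?_, e.2.1 _ (pk_mem s), e.2.2 _ (pk_mem t)⟩
        rcases sd_adj.1 e.1 with h1 | h1
        · exact t.2.2 (Finset.mem_coe.2 (Cq.le_iff.1 h1.le (pk_mem s)))
            (Finset.mem_coe.2 (pk_mem t)) hk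
        · exact s.2.2 (Finset.mem_coe.2 (pk_mem s))
            (Finset.mem_coe.2 (Cq.le_iff.1 h1.le (pk_mem t))) hk
      rw [rs_apply hadj]
  have u4 := (Triv_upc hs subset_rfl).1 u3
  refine u4.congr fun x y e => ?_
  simp only [Pi.add_apply]
  rw [rs_apply e]

/-- on `D` the two partitions (by `U`, by `R0 | R1`) agree up to exchange -/
theorem Spl.sides (h : Spl G R R0 R1 D) (hD : IsComp (sd G) (mi G R ∩ Fr G U) D) :
    (∀ q ∈ D, ∀ x ∈ q.1, (x ∈ U ↔ x ∈ R0)) ∨ (∀ q ∈ D, ∀ x ∈ q.1, (x ∈ U ↔ x ∈ R1)) := by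
  have hR : ∀ q ∈ D, ∀ x ∈ q.1, x ∈ R0 ∨ x ∈ R1 := by
    intro q hq x hx
    have : x ∈ R0 ∪ R1 := by rw [h.un]; exact (hD.sub hq).1 x hx
    exact this
  have hdis : ∀ x, x ∈ R0 → x ∈ R1 → False := fun x h0 h1 => Set.disjoint_left.1 h.dis h0 h1
  -- pairs in `D`: mixed for `U` iff mixed for `R0 | R1`
  have hp : ∀ q ∈ D, ∀ x ∈ q.1, ∀ y ∈ q.1,
      (((x ∈ U ∧ y ∉ U) ∨ (x ∉ U ∧ y ∈ U)) ↔ ((x ∈ R0 ∧ y ∈ R1) ∨ (x ∈ R1 ∧ y ∈ R0))) := by
    intro q hq x hx y hy
    rw [← (D_pair hD (hD.sub hq).1 hx hy).2 hq, gam_one]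
    constructor
    · rintro ⟨s, hs, e⟩
      rw [h.eq] at hs
      obtain ⟨-, ⟨z, hz, hz0⟩, ⟨w, hw, hw1⟩⟩ := hs
      rw [e] at hz hw
      simp only [Finset.mem_insert, Finset.mem_singleton] at hz hw
      rcases hz with rfl | rfl <;> rcases hw with rfl | rfl
      · exact (hdis _ hz0 hw1).elim
      · exact Or.inl ⟨hz0, hw1⟩
      · exact Or.inr ⟨hw1, hz0⟩
      · exact (hdis _ hz0 hw1).elim
    · intro hxy
      have hne : x ≠ y := by
        rintro rfl
        rcases hxy with hxy | hxy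
        · exact hdis _ hxy.1 hxy.2
        · exact hdis _ hxy.2 hxy.1
      have ha : G.Adj x y := q.2.2 (Finset.mem_coe.2 hx) (Finset.mem_coe.2 hy) hne
      refine ⟨eg G ha, ?_, rfl⟩
      rw [h.eq]
      refine ⟨?_, ?_, ?_⟩
      · intro z hz
        have hz' : z ∈ ({x, y} : Finset V) := hz
        simp only [Finset.mem_insert, Finset.mem_singleton] at hz'
        rcases hz' with rfl | rfl
        · exact (hD.sub hq).1 _ hx
        · exact (hD.sub hq).1 _ hy
      · rcases hxy with hxy | hxy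
        · exact ⟨x, Finset.mem_insert_self _ _, hxy.1⟩
        · exact ⟨y, Finset.mem_insert_of_mem (Finset.mem_singleton_self y), hxy.2⟩
      · rcases hxy with hxy | hxy
        · exact ⟨y, Finset.mem_insert_of_mem (Finset.mem_singleton_self y), hxy.2⟩
        · exact ⟨x, Finset.mem_insert_self _ _, hxy.1⟩
  -- the type of `q`: 1 iff `U` and `R0` agree on `q`
  let ty : V → ZMod 2 := fun x => if (x ∈ U ↔ x ∈ R0) then 1 else 0
  have hty : ∀ q ∈ D, ∀ x ∈ q.1, ∀ y ∈ q.1, ty x = ty y := by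
    intro q hq x hx y hy
    have h1 := hp q hq x hx y hy
    have hx' := hR q hq x hx
    have hy' := hR q hq y hy
    have hxn := hdis x
    have hyn := hdis y
    show (if (x ∈ U ↔ x ∈ R0) then (1 : ZMod 2) else 0) = if (y ∈ U ↔ y ∈ R0) then 1 else 0
    congr 1
    apply propext
    tauto
  let Φ : Cq G → ZMod 2 := fun q => ty (pk q)
  have hΦ : ∀ s t, EIn (sd G) D s t → Φ s = Φ t := by
    intro s t e
    rcases sd_adj.1 e.1 with h1 | h1
    · exact hty t e.2.2 _ (Cq.le_iff.1 h1.le (pk_mem s)) _ (pk_mem t)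
    · exact hty s e.2.1 _ (pk_mem s) _ (Cq.le_iff.1 h1.le (pk_mem t))
  obtain ⟨q0, hq0⟩ := hD.conn.1
  have hall : ∀ q ∈ D, ∀ x ∈ q.1, ty x = Φ q0 := by
    intro q hq x hx
    rw [hty q hq x hx _ (pk_mem q)]
    exact hD.conn.const (f := Φ) hΦ hq hq0
  by_cases h1 : Φ q0 = 1
  · left
    intro q hq x hx
    have h2 := hall q hq x hx
    rw [h1] at h2
    by_contra hn
    have h3 : ty x = 0 := if_neg hn
    rw [h3] at h2
    exact absurd h2 (by decide)
  · right
    intro q hq x hx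
    have h2 := hall q hq x hx
    have hn : ¬ (x ∈ U ↔ x ∈ R0) := by
      intro hn
      have h3 : ty x = 1 := if_pos hn
      rw [h3] at h2
      exact h1 h2.symm
    have hx' := hR q hq x hx
    have hxn := hdis x
    tauto

end MOT
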