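import Pool.Agent.MOT.ScH
import Pool.Agent.MOT.ScJ
import Pool.Agent.MOT.ScB
import Pool.Agent.MOT.SfD
import Pool.Agent.MOT.DuaB

/-!
# MOT/ScK: an inessential disc contradicts NoD (helper73)

`w : Wall G S P N` (used for both sides), `R = S ∪ P`.
-/

open Classical

noncomputable section

namespace MOT

variable {V : Type} {G : SimpleGraph V} {S P N R0 R1 U : Set V} {D : Set (Cq G)}

private theorem w_tri (w : Wall G S P N) (x : V) : x ∈ S ∨ x ∈ P ∨ x ∈ N := by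
  have h : x ∈ S ∪ P ∪ N := by rw [w.cover]; trivial
  rcases h with (h | h) | h
  · exact Or.inl h
  · exact Or.inr (Or.inl h)
  · exact Or.inr (Or.inr h)

private theorem notR (w : Wall G S P N) {x : V} (hx : x ∈ N) : x ∉ S ∪ P := by
  rintro (h | h)
  · exact Set.disjoint_left.1 w.dqn h hx
  · exact Set.disjoint_left.1 w.dpn h hx

private theorem wall_nb (w : Wall G S P N) {x : V} (hx : x ∈ S) : ∃ y, G.Adj x y ∧ y ∈ N := by
  obtain ⟨y, hy, hyN⟩ := (w.hn {x} (Finset.singleton_nonempty x) (by simp) (by simpa using hx)).1.1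
  exact ⟨y, hy x (by simp), hyN⟩

private theorem compl_part (w : Wall G S P N) (h : Spl G (S ∪ P) R0 R1 D) : R1ᶜ = R0 ∪ N := by
  ext x
  constructor
  · intro hx
    rcases w_tri w x with h1 | h1 | h1
    · have : x ∈ R0 ∪ R1 := by rw [h.un]; exact Or.inl h1
      exact Or.inl (this.resolve_right hx)
    · have : x ∈ R0 ∪ R1 := by rw [h.un]; exact Or.inr h1
      exact Or.inl (this.resolve_right hx)
    · exact Or.inr h1
  · rintro (h1 | h1) hx
    · exact Set.disjoint_left.1 h.dis h1 hx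
    · apply notR w h1
      rw [← h.un]
      exact Or.inr hx

/-- the disc touches the other side: some `q ∈ D` lies in `S` -/
theorem touch [Finite V] (w : Wall G S P N) (hc : Conn (sd G) (Fr G U))
    (hD : IsComp (sd G) (mi G (S ∪ P) ∩ Fr G U) D)
    (hne : (Fr G U ∩ pl G N).Nonempty) : ∃ q ∈ D, q ∈ mi G S := by
  obtain ⟨y, hyU, hyN⟩ := hne
  by_contra hcon
  push Not at hcon
  obtain ⟨q0, hq0⟩ := hD.conn.1
  have hsub := hD.sub
  have key : ∀ q ∈ D, ∀ r, EIn (sd G) (Fr G U) q r → r ∈ D := by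
    intro q hq r e
    obtain ⟨v, hv, hvS⟩ : ∃ v ∈ q.1, v ∈ P := by
      by_contra hno
      push Not at hno
      refine hcon q hq fun x hx => ?_
      rcases (hsub hq).1 x hx with h1 | h1
      · exact h1
      · exact absurd h1 (hno x hx)
    have hr : r ∈ mi G (S ∪ P) := by
      rcases e.1 with h1 | h1
      · intro x hx
        have hvr : v ∈ r.1 := Cq.le_iff.1 h1.le hv
        rcases w_tri w x with h2 | h2 | h2
        · exact Or.inl h2
        · exact Or.inr h2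
        · by_cases hxv : v = x
          · exact Or.inr (hxv ▸ hvS)
          · exact absurd (r.2.2 (Finset.mem_coe.2 hvr) (Finset.mem_coe.2 hx) hxv)
              (w.nadj v hvS x h2)
      · intro x hx
        exact (hsub hq).1 x (Cq.le_iff.1 h1.le hx)
    by_contra hrD
    exact hD.nadj q hq r ⟨⟨hr, e.2.2⟩, hrD⟩ e.1
  have hp := hc.2 q0 (hsub hq0).2 y hyU
  have hyD : y ∈ D := by
    clear hyN
    induction hp with
    | refl => exact hq0
    | tail _ e ih => exact key _ (ih e.2.1) _ e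
  obtain ⟨x, hx, hxN⟩ := hyN
  rcases (hsub hyD).1 x hx with h1 | h1
  · exact Set.disjoint_left.1 w.dqn h1 hxN
  · exact Set.disjoint_left.1 w.dpn h1 hxN

/-- the complement of `R1` is connected: `R0 ∪ N`, joined through `S ∩ R0` -/
theorem pk_compl [Finite V] (w : Wall G S P N) (hN : Conn G N) (h : Spl G (S ∪ P) R0 R1 D)
    (ht : ∃ q ∈ D, q ∈ mi G S) : Conn G R1ᶜ := by
  obtain ⟨q, hq, hqS⟩ := ht
  have hq' := hq
  rw [h.eq] at hq'
  obtain ⟨-, ⟨x, hx, hx0⟩, -⟩ := hq'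
  obtain ⟨y, hy, hyN⟩ := wall_nb w (hqS x hx)
  rw [compl_part w h]
  exact conn_union_adj h.c0 hN hx0 hyN hy

/-- `Fr G R1` is a sphere (`dual`, `surf_Fr`, `Fr_Conn`, `b1_Fr`) and `D` a disc in it: the rest
`F = {q | q meets R1 and N}` is connected with `HZ` (`sphere_compl`) -/
theorem pk_F [Finite V] (hG : IsSph3 G) (w : Wall G S P N) (hN : Conn G N)
    (h : Spl G (S ∪ P) R0 R1 D) (ht : ∃ q ∈ D, q ∈ mi G S) (hcD : Conn (sd G) D)
    (hzD : HZ (sd G) D) (hz : HZ G R1) :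
    Conn (sd G) (pl G R1 ∩ pl G N) ∧ HZ (sd G) (pl G R1 ∩ pl G N) := by
  have hF := surf_Fr (W := R1) hG
  have hcF : Conn (sd G) (Fr G R1) := Fr_Conn hG h.c1 (pk_compl w hN h ht)
  have hb : b1 (sd G) (Fr G R1) = 0 := by
    rw [b1_Fr hG, bb, ← dual hG h.c1 (pk_compl w hN h ht), b1_eq_zero.2 hz]
  have hDF : D ⊆ Fr G R1 := by
    intro q hq
    rw [h.eq] at hq
    obtain ⟨-, ⟨x, hx, hx0⟩, hq1⟩ := hq
    exact ⟨hq1, x, hx, fun h1 => Set.disjoint_left.1 h.dis hx0 h1⟩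
  have heq : Fr G R1 \ D = pl G R1 ∩ pl G N := by
    ext q
    constructor
    · rintro ⟨⟨h1, x, hx, hx1⟩, hD⟩
      refine ⟨h1, ?_⟩
      by_contra hno
      apply hD
      have hR : q ∈ mi G (S ∪ P) := by
        intro z hz
        rcases w_tri w z with h2 | h2 | h2
        · exact Or.inl h2
        · exact Or.inr h2
        · exact absurd ⟨z, hz, h2⟩ hno
      rw [h.eq]
      refine ⟨hR, ⟨x, hx, ?_⟩, h1⟩
      have hxR := hR x hx
      rw [← h.un] at hxR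
      exact hxR.resolve_right hx1
    · rintro ⟨h1, x, hx, hxN⟩
      have hxR : x ∉ S ∪ P := notR w hxN
      refine ⟨⟨h1, x, hx, fun h2 => hxR ?_⟩, fun hD => ?_⟩
      · rw [← h.un]; exact Or.inr h2
      · rw [h.eq] at hD
        exact hxR (hD.1 x hx)
  have hne : D ≠ Fr G R1 := by
    intro he
    obtain ⟨q, hq, hqS⟩ := ht
    have hq' := hq
    rw [h.eq] at hq'
    obtain ⟨-, -, ⟨x, hx, hx1⟩⟩ := hq'
    obtain ⟨y, hy, hyN⟩ := wall_nb w (hqS x hx)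
    have hm : eg G hy ∈ pl G R1 ∩ pl G N :=
      ⟨⟨x, by simp [eg], hx1⟩, y, by simp [eg], hyN⟩
    rw [← heq] at hm
    exact hm.2 (he ▸ hm.1)
  obtain ⟨h1, h2⟩ := disc_compl hF hcF hDF hne hcD hzD
  rw [heq] at h1 h2
  refine ⟨h1, b1_eq_zero.1 ?_⟩
  rw [h2, hb]

/-- `F → mi G (S ∩ R1)`, `q ↦ q ∩ R1` (`tr R1`): fibre over `σ` = simplices above `σ` which meet `N`
(`above_pl_Conn`, `Wall.hn`); `fibi_Conn`, `fibi_HZ`, `sd_Conn`, `sd_HZ` -/
theorem pk_disc [Finite V] (w : Wall G S P N) (h : Spl G (S ∪ P) R0 R1 D)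
    (hc : Conn (sd G) (pl G R1 ∩ pl G N)) (hz : HZ (sd G) (pl G R1 ∩ pl G N)) :
    Conn G (S ∩ R1) ∧ HZ G (S ∩ R1) := by
  have hm : ∀ x ∈ pl G R1 ∩ pl G N, ∀ y ∈ pl G R1 ∩ pl G N, x ≤ y → tr R1 x ≤ tr R1 y :=
    fun x hx y _ hxy => tr_mono hx.1 hxy
  have hp : ∀ x ∈ pl G R1 ∩ pl G N, tr R1 x ∈ mi G (S ∩ R1) := by
    rintro q ⟨hq1, y, hy, hyN⟩ x hx
    rw [tr_val hq1, Finset.mem_filter] at hx
    refine ⟨?_, hx.2⟩
    have hxR : x ∈ S ∪ P := by rw [← h.un]; exact Or.inr hx.2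
    rcases hxR with h1 | h1
    · exact h1
    · have hxy : x ≠ y := fun he => Set.disjoint_left.1 w.dpn h1 (he ▸ hyN)
      exact absurd (q.2.2 (Finset.mem_coe.2 hx.1) (Finset.mem_coe.2 hy) hxy) (w.nadj x h1 y hyN)
  have hf : ∀ y ∈ mi G (S ∩ R1), Conn (sd G) {x | x ∈ pl G R1 ∩ pl G N ∧ y ≤ tr R1 x} := by
    intro σ hσ
    have hN := w.hn σ.1 σ.2.1 σ.2.2 (fun x hx => (hσ x (Finset.mem_coe.1 hx)).1)
    have he : {x | x ∈ pl G R1 ∩ pl G N ∧ σ ≤ tr R1 x} =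
        {t | σ < t ∧ ∃ x ∈ t.1, x ∉ σ.1 ∧ x ∈ N} := by
      ext q
      constructor
      · rintro ⟨⟨hq1, y, hy, hyN⟩, hle⟩
        have hyσ : y ∉ σ.1 := fun h1 => Set.disjoint_left.1 w.dqn (hσ y h1).1 hyN
        refine ⟨Cq.lt_iff.2 (Finset.ssubset_iff_subset_ne.2 ⟨?_, ?_⟩), y, hy, hyσ, hyN⟩
        · exact Cq.le_iff.1 (hle.trans (tr_le q))
        · intro h1; exact hyσ (h1 ▸ hy)
      · rintro ⟨hlt, y, hy, hyσ, hyN⟩
        have hsub := Cq.le_iff.1 hlt.le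
        obtain ⟨z, hz⟩ := σ.2.1
        have hq1 : q ∈ pl G R1 := ⟨z, hsub hz, (hσ z hz).2⟩
        refine ⟨⟨hq1, y, hy, hyN⟩, Cq.le_iff.2 fun x hx => ?_⟩
        rw [tr_val hq1, Finset.mem_filter]
        exact ⟨hsub hx, (hσ x hx).2⟩
    rw [he]
    exact (above_pl_Conn σ N).2 hN.1
  constructor
  · rw [← sd_Conn]
    exact fibi_Conn (tr R1) hm hp (fun y hy => (hf y hy).1) hc
  · rw [← sd_HZ]
    exact fibi_HZ (tr R1) hm hp hf hz

/-- the part of the wall in the pocket is a disc whose curve is in the curves of `U` -/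
theorem pk_all [Finite V] (hG : IsSph3 G) (w : Wall G S P N) (hN : Conn G N)
    (hcU : Conn (sd G) (Fr G U)) (hne : (Fr G U ∩ pl G N).Nonempty)
    (hD : IsComp (sd G) (mi G (S ∪ P) ∩ Fr G U) D) (hzD : HZ (sd G) D)
    (h : Spl G (S ∪ P) R0 R1 D) (hz : HZ G R1) :
    Conn G (S ∩ R1) ∧ HZ G (S ∩ R1) ∧ S ∩ R1 ≠ S ∧ FrIn G S (S ∩ R1) ⊆ FrIn G S U := by
  have ht := touch w hcU hD hne
  obtain ⟨h1, h2⟩ := pk_F hG w hN h ht hD.conn hzD hz
  obtain ⟨h3, h4⟩ := pk_disc w h h1 h2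
  refine ⟨h3, h4, ?_, ?_⟩
  · intro he
    obtain ⟨q, hq, hqS⟩ := ht
    have hq' := hq
    rw [h.eq] at hq'
    obtain ⟨-, ⟨x, hx, hx0⟩, -⟩ := hq'
    have : x ∈ S ∩ R1 := by rw [he]; exact hqS x hx
    exact Set.disjoint_left.1 h.dis hx0 this.2
  · rintro q ⟨⟨hqS, x, hx, hxS, hx1⟩, y, hy, hyn⟩
    have hR : q ∈ mi G (S ∪ P) := fun z hz => Or.inl (hqS z hz)
    have hy1 : y ∉ R1 := fun h5 => hyn ⟨hqS y hy, h5⟩
    have hqD : q ∈ D := by
      rw [h.eq]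
      refine ⟨hR, ⟨y, hy, ?_⟩, x, hx, hx1⟩
      have hyR := hR y hy
      rw [← h.un] at hyR
      exact hyR.resolve_right hy1
    have hFr := (hD.sub hqD).2
    exact ⟨⟨hqS, hFr.1⟩, hFr.2⟩

end MOT
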