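import Pool.Agent.MOT.ScK
import Pool.Agent.MOT.Dua
import Pool.Agent.MOT.Srf
import Pool.Agent.MOT.SgB

/-!
# MOT/ScL: leaves of the frontier sphere of a plate (helper73)
-/

open Classical

noncomputable section

namespace MOT

variable {V : Type} {G : SimpleGraph V} {A Bc Cc : Type} [Fintype Bc] [Fintype Cc]
  {e1 e2 : Bc → A} {inc : Bc → Cc → Prop} {X : Sc V A Bc Cc}

/-- the frontier of a plate is a sphere -/
theorem ScU.sphere [Finite V] (h : ScS G e1 e2 inc X) (hu : ScU G e1 e2 inc X) (b : Bc) :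
    Surf (MOT.sd G) (Fr G (X.U b)) ∧ Conn (MOT.sd G) (Fr G (X.U b)) ∧
      HZ (MOT.sd G) (Fr G (X.U b)) := by
  refine ⟨surf_Fr h.sph, Fr_Conn h.sph (hu.UC b) (hu.UCc b), ?_⟩
  rw [← b1_eq_zero, b1_Fr h.sph]
  exact hu.Ubb b

private theorem mixed_edge {S U : Set V} (hS : Conn G S) (h1 : (U ∩ S).Nonempty)
    (h2 : (S \ U).Nonempty) : ∃ x y, G.Adj x y ∧ x ∈ S ∧ y ∈ S ∧ x ∈ U ∧ y ∉ U := by
  by_contra hno
  push Not at hno
  obtain ⟨x, hxU, hxS⟩ := h1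
  obtain ⟨y, hyS, hyU⟩ := h2
  have hc := hS.const (f := fun z => if z ∈ U then 1 else 0) (fun a b e => by
    by_cases ha : a ∈ U
    · have hb : b ∈ U := hno a b e.1 e.2.1 e.2.2 ha
      simp only [if_pos ha, if_pos hb]
    · by_cases hb : b ∈ U
      · exact absurd (hno b a e.1.symm e.2.2 e.2.1 hb) ha
      · simp only [if_neg ha, if_neg hb]) hxS hyS
  simp only [if_pos hxU, if_neg hyU] at hc
  exact one_ne_zero hc

private theorem tri_meet {S P N U : Set V} (w : Wall G S P N) {x y : V} (hxy : G.Adj x y)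
    (hx : x ∈ S) (hy : y ∈ S) (hxU : x ∈ U) (hyU : y ∉ U) : (Fr G U ∩ pl G P).Nonempty := by
  have hc := (w.hp {x, y} ⟨x, by simp⟩ (eg G hxy).2.2 (by
    intro z hz
    simp only [Finset.coe_insert, Finset.coe_singleton, Set.mem_insert_iff,
      Set.mem_singleton_iff] at hz
    rcases hz with rfl | rfl
    · exact hx
    · exact hy)).1
  obtain ⟨z, hz, hzP⟩ := hc.1
  have zx : G.Adj x z := hz x (by simp)
  have zy : G.Adj y z := hz y (by simp)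
  refine ⟨⟨insert z {x, y}, ⟨z, by simp⟩, ?_⟩, ⟨⟨x, by simp, hxU⟩, ⟨y, by simp, hyU⟩⟩,
    ⟨z, by simp, hzP⟩⟩
  rw [Finset.coe_insert]
  exact SimpleGraph.IsClique.insert (eg G hxy).2.2 fun v hv _ => (hz v hv).symm

/-- it meets the wall and both sides (`ScU.meet`, the wall is connected, `Wall.hp`, `Wall.hn`) -/
theorem ScU.fr_ne [Finite V] (h : ScS G e1 e2 inc X) (hu : ScU G e1 e2 inc X) (b : Bc) :
    (Fr G (X.U b) ∩ mi G X.S).Nonempty ∧ (Fr G (X.U b) ∩ pl G X.P).Nonempty ∧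
      (Fr G (X.U b) ∩ pl G X.N).Nonempty := by
  obtain ⟨m1, m2⟩ := ScU.meet h hu b
  obtain ⟨x, y, hxy, hx, hy, hxU, hyU⟩ := mixed_edge h.cS m1 m2
  refine ⟨⟨eg G hxy, ⟨⟨x, by simp [eg], hxU⟩, ⟨y, by simp [eg], hyU⟩⟩, ?_⟩,
    tri_meet h.wall hxy hx hy hxU hyU, tri_meet h.wall.swap hxy hx hy hxU hyU⟩
  intro z hz
  simp only [eg, Finset.mem_insert, Finset.mem_singleton] at hz
  rcases hz with rfl | rfl
  · exact hx
  · exact hy

/-- an open leaf gives a closed leaf: `E` a component of `Fr G U ∩ pl G N`; add the simplices of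
`mi G S ∩ Fr G U` below elements of `E` (`addb`; all `τ > σ` which meet `N` form a connected set with `HZ`,
`above_pl_Conn`, so they lie in one component of `Fr G U ∩ pl G N`) -/
theorem clo_leaf [Finite V] {S P N U : Set V} (w : Wall G S P N) {E : Set (Cq G)}
    (hE : IsComp (sd G) (Fr G U ∩ pl G N) E) (hz : HZ (sd G) E) :
    ∃ D, IsComp (sd G) (mi G (S ∪ N) ∩ Fr G U) D ∧ HZ (sd G) D := by
  have hSN : ∀ x, x ∈ S → x ∉ N := fun x h1 h2 => Set.disjoint_left.1 w.dqn h1 h2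
  -- the upper set of a wall simplex
  have up : ∀ σ : Cq G, σ ∈ mi G S → σ ∈ Fr G U →
      Conn (sd G) {τ | σ < τ ∧ τ ∈ pl G N} ∧ HZ (sd G) {τ | σ < τ ∧ τ ∈ pl G N} ∧
        {τ | σ < τ ∧ τ ∈ pl G N} ⊆ Fr G U ∩ pl G N := by
    intro σ hσ hσU
    have e : {τ : Cq G | σ < τ ∧ τ ∈ pl G N} =
        {τ | σ < τ ∧ ∃ x ∈ τ.1, x ∉ σ.1 ∧ x ∈ N} := by
      ext τ
      constructor
      · rintro ⟨h1, x, hx, hxN⟩
        exact ⟨h1, x, hx, fun h2 => hSN x (hσ x h2) hxN, hxN⟩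
      · rintro ⟨h1, x, hx, -, hxN⟩
        exact ⟨h1, x, hx, hxN⟩
    have hw := w.hn σ.1 σ.2.1 σ.2.2 (fun x hx => hσ x hx)
    refine ⟨?_, ?_, ?_⟩
    · rw [e]; exact (above_pl_Conn σ N).2 hw.1
    · rw [e]; exact (above_pl_HZ σ N).2 hw.2
    · rintro τ ⟨h1, h2⟩
      have h3 : σ.1 ⊆ τ.1 := h1.le
      obtain ⟨⟨x, hx, hxU⟩, ⟨y, hy, hyU⟩⟩ := hσU
      exact ⟨⟨⟨x, h3 hx, hxU⟩, ⟨y, h3 hy, hyU⟩⟩, h2⟩
  have upE : ∀ σ : Cq G, σ ∈ mi G S → σ ∈ Fr G U → ∀ τ ∈ E, σ < τ →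
      {τ | σ < τ ∧ τ ∈ pl G N} ⊆ E := by
    intro σ hσ hσU τ hτ hlt
    obtain ⟨h1, -, h3⟩ := up σ hσ hσU
    exact hE.absorb h1 h3 ⟨τ, ⟨hlt, (hE.sub hτ).2⟩, hτ⟩
  set F : Set (Cq G) := {σ | σ ∈ mi G S ∧ σ ∈ Fr G U ∧ ∃ τ ∈ E, σ < τ} with hF
  have hd : Disjoint E F := by
    rw [Set.disjoint_left]
    rintro τ h1 ⟨h2, -, -⟩
    obtain ⟨x, hx, hxN⟩ := (hE.sub h1).2
    exact hSN x (h2 x hx) hxN
  have hnl : ∀ t ∈ F, ∀ x ∈ E, ¬ x < t := by
    rintro t ⟨h1, -, -⟩ x hx hlt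
    obtain ⟨y, hy, hyN⟩ := (hE.sub hx).2
    have h3 : x.1 ⊆ t.1 := hlt.le
    exact hSN y (h1 y (h3 hy)) hyN
  have hup : ∀ t ∈ F, Conn (cmp (Cq G)) {x | x ∈ E ∧ t < x} ∧
      HZ (cmp (Cq G)) {x | x ∈ E ∧ t < x} := by
    rintro t ⟨h1, h2, τ, hτ, hlt⟩
    have e : {x | x ∈ E ∧ t < x} = {τ | t < τ ∧ τ ∈ pl G N} := by
      ext x
      constructor
      · rintro ⟨h3, h4⟩
        exact ⟨h4, (hE.sub h3).2⟩
      · rintro ⟨h3, h4⟩
        exact ⟨upE t h1 h2 τ hτ hlt ⟨h3, h4⟩, h3⟩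
    rw [e]
    exact ⟨(up t h1 h2).1, (up t h1 h2).2.1⟩
  obtain ⟨hconn, hhz⟩ := addb hd hnl hup
  refine ⟨E ∪ F, IsComp_of (hconn.2 hE.conn) ?_ ?_, hhz.2 hz⟩
  · rintro τ (h1 | ⟨h1, h2, -⟩)
    · have h2 := hE.sub h1
      refine ⟨fun x hx => ?_, h2.1⟩
      obtain ⟨y, hy, hyN⟩ := h2.2
      have hcov : x ∈ S ∪ P ∪ N := by rw [w.cover]; trivial
      rcases hcov with (hxS | hxP) | hxN
      · exact Or.inl hxS
      · by_cases hxy : x = y
        · exact absurd hyN (fun h => Set.disjoint_left.1 w.dpn hxP (hxy ▸ h))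
        · exact absurd (τ.2.2 hx hy hxy) (w.nadj x hxP y hyN)
      · exact Or.inr hxN
    · exact ⟨fun x hx => Or.inl (h1 x hx), h2⟩
  · rintro d hdD d' ⟨⟨hd'1, hd'2⟩, hd'3⟩ hadj
    -- `d'` meets `N` or lies in `S`
    have hcase : d' ∈ pl G N ∨ d' ∈ mi G S := by
      by_cases h : ∃ x ∈ d'.1, x ∈ N
      · exact Or.inl h
      · refine Or.inr fun x hx => ?_
        rcases hd'1 x hx with h1 | h1
        · exact h1
        · exact absurd ⟨x, hx, h1⟩ h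
    refine hd'3 ?_
    have hadj' : d < d' ∨ d' < d := hadj
    rcases hdD with hdE | ⟨f1, f2, τ, hτ, hlt⟩
    · rcases hcase with hN | hS
      · refine Or.inl ?_
        by_contra hnE
        exact hE.nadj d hdE d' ⟨⟨hd'2, hN⟩, hnE⟩ hadj
      · refine Or.inr ⟨hS, hd'2, d, hdE, ?_⟩
        rcases hadj' with h | h
        · obtain ⟨y, hy, hyN⟩ := (hE.sub hdE).2
          have h3 : d.1 ⊆ d'.1 := h.le
          exact absurd hyN (hSN y (hS y (h3 hy)))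
        · exact h
    · rcases hcase with hN | hS
      · refine Or.inl (upE d f1 f2 τ hτ hlt ⟨?_, hN⟩)
        rcases hadj' with h | h
        · exact h
        · obtain ⟨y, hy, hyN⟩ := hN
          have h3 : d'.1 ⊆ d.1 := h.le
          exact absurd hyN (hSN y (f1 y (h3 hy)))
      · refine Or.inr ⟨hS, hd'2, ?_⟩
        rcases hadj' with h | h
        · obtain ⟨τ', hτ'⟩ := (up d' hS hd'2).1.1
          exact ⟨τ', upE d f1 f2 τ hτ hlt ⟨lt_trans h hτ'.1, hτ'.2⟩, hτ'.1⟩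
        · exact ⟨τ, hτ, lt_trans h hlt⟩

omit [Fintype Bc] [Fintype Cc] in
/-- components of the wall on or off the union of the plates are not discs -/
theorem NoD.all (hu : ScU G e1 e2 inc X) (hn : NoD G X) {K : Set V} (hz : HZ G K) :
    ¬ IsComp G (X.S ∩ X.W) K ∧ ¬ IsComp G (X.S \ X.W) K := by
  refine ⟨fun hK => ?_, fun hK => hn.out K hK hz⟩
  obtain ⟨x, hx⟩ := hK.conn.1
  obtain ⟨b, hb⟩ := Set.mem_iUnion.1 (hK.sub hx).2
  have hKb : K ⊆ X.U b := by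
    intro y hy
    have hpath := hK.conn.2 x hx y hy
    induction hpath with
    | refl => exact hb
    | tail _ e ih =>
      obtain ⟨b', hb'⟩ := Set.mem_iUnion.1 (hK.sub e.2.2).2
      by_cases hbb : b = b'
      · rw [hbb]; exact hb'
      · exact absurd e.1 ((hu.Ud b b' hbb).2 _ (ih e.2.1) _ hb')
  refine hn.inn b K (IsComp_of hK.conn (fun y hy => ⟨hKb hy, (hK.sub hy).1⟩) ?_) hz
  rintro y hy z ⟨⟨hz1, hz2⟩, hz3⟩ hadj
  exact hK.nadj y hy z ⟨⟨hz2, Set.mem_iUnion.2 ⟨b, hz1⟩⟩, hz3⟩ hadj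

omit [Fintype Bc] [Fintype Cc] in
/-- frontier inside the wall: a plate against all plates -/
theorem FrIn_W (hu : ScU G e1 e2 inc X) (b : Bc) : FrIn G X.S (X.U b) ⊆ FrIn G X.S X.W := by
  rintro s ⟨⟨h1, x, hx, hxU⟩, ⟨y, hy, hyU⟩⟩
  refine ⟨⟨h1, x, hx, Set.mem_iUnion.2 ⟨b, hxU⟩⟩, ⟨y, hy, fun hyW => ?_⟩⟩
  obtain ⟨b', hb'⟩ := Set.mem_iUnion.1 hyW
  have hbb : b ≠ b' := fun h => hyU (h ▸ hb')
  have hxy : x ≠ y := fun h => hyU (h ▸ hxU)
  exact (hu.Ud b b' hbb).2 x hxU y hb' (s.2.2 hx hy hxy)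

/-- a disc `D` in the other closed side is impossible: `gam D` vanishes on `Bs`, so it is trivial on `Y`
(`injY`): `pocket_split`, `Bs ⊆ R0` (`Spl.one`), a class of `R1` extended by `0` (`Spl.glue`) is trivial on `Bs`, so
trivial: `HZ R1`; `pk_all` (wall `Wall G S N P`), `disc_inside`, `NoD.all`. -/
theorem leafY_no [Finite V] (h : ScS G e1 e2 inc X) (hu : ScU G e1 e2 inc X) (hn : NoD G X)
    {b : Bc} {D : Set (Cq G)} (hD : IsComp (sd G) (mi G X.Y ∩ Fr G (X.U b)) D)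
    (hz : HZ (sd G) D) : False := by
  have hBY : X.Bs ⊆ X.Y := fun x hx => Or.inr (h.BsN hx)
  have g0 : ∀ x ∈ X.Bs, ∀ y ∈ X.Bs, gam D x y = 0 := by
    intro x hx y hy
    by_contra hne
    have hone : gam D x y = 1 := by
      unfold gam at hne ⊢
      by_cases hex : ∃ s ∈ D, s.1 = {x, y}
      · rw [if_pos hex]
      · rw [if_neg hex] at hne
        exact absurd rfl hne
    obtain ⟨s, hs, hsxy⟩ := gam_one.1 hone
    obtain ⟨z, hzs, hzU⟩ := (hD.sub hs).2.1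
    rw [hsxy, Finset.mem_insert, Finset.mem_singleton] at hzs
    rcases hzs with rfl | rfl
    · exact Set.disjoint_left.1 (hu.UBs b) hzU hx
    · exact Set.disjoint_left.1 (hu.UBs b) hzU hy
  have tB : Triv G X.Bs (rs G X.Y (gam D)) := by
    refine ⟨0, fun x y e => ?_⟩
    rw [rs_apply (e.mono hBY), g0 x e.2.1 y e.2.2]
    simp
  have tY : Triv G X.Y (gam D) := Triv_rs.1 (h.injY _ (gam_mem hD) tB)
  obtain ⟨R0, R1, hspl⟩ := pocket_split h.cY hD tY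
  -- the rest is symmetric in `R0`, `R1`
  have main : ∀ R0 R1 : Set V, Spl G X.Y R0 R1 D → X.Bs ⊆ R0 → False := by
    intro R0 R1 hs hB
    have hR1Y : R1 ⊆ X.Y := by rw [← hs.un]; exact Set.subset_union_right
    have hR0Y : R0 ⊆ X.Y := by rw [← hs.un]; exact Set.subset_union_left
    have hz1 : HZ G R1 := by
      intro α hα
      obtain ⟨c, hc, t0, t1⟩ := hs.glue hz hα
      have t2 : Triv G R1 c := (h.injY c hc (t0.mono hB)).mono hR1Y
      have t3 := t2.add t1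
      refine t3.congr fun x y _ => ?_
      simp only [Pi.add_apply]
      rw [← add_assoc, two_add, zero_add]
    obtain ⟨-, hcU, -⟩ := ScU.sphere h hu b
    obtain ⟨-, hneP, -⟩ := ScU.fr_ne h hu b
    obtain ⟨q1, q2, q3, q4⟩ := pk_all h.sph h.wall.swap h.cP hcU hneP hD hz hs hz1
    obtain ⟨D', -, hzD', hcomp⟩ := disc_inside h.wall.surf h.cS (R := X.S ∩ R1) (W := X.W)
      Set.inter_subset_left q3 q1 q2 (q4.trans (FrIn_W hu b))
    obtain ⟨n1, n2⟩ := hn.all hu hzD'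
    rcases hcomp with hc | hc
    · exact n1 hc
    · exact n2 hc
  rcases hspl.one h.cBs hBY g0 with hB | hB
  · exact main R0 R1 hspl hB
  · exact main R1 R0 hspl.symm hB

end MOT
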