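import Pool.Agent.MOT.SfT

/-!
# MOT/SfS: spheres cut in two: discs among the pieces, planar pieces, the tree
-/

open Classical

noncomputable section

namespace MOT

variable {V : Type} {G : SimpleGraph V} {A B C D F M S P : Set V}

/-- a sphere cut in two: one of the pieces is a disc -/
theorem sphere_leaf [Finite V] (hS : Surf G S) (hc : Conn G S) (hz : HZ G S) {A : Set V}
    (hA : A ⊆ S) (h1 : A.Nonempty) (h2 : A ≠ S) :
    ∃ D, HZ G D ∧ (IsComp G A D ∨ IsComp G (S \ A) D) := by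
  by_contra hn
  push Not at hn
  have e1 := b0_le_b1 fun D hD hzD => (hn D hzD).1 hD
  have e2 := b0_le_b1 fun D hD hzD => (hn D hzD).2 hD
  have e3 := cut2 hS hc hA h1 h2
  rw [b1_eq_zero.2 hz] at e3
  omega

private theorem leaf2_aux [Finite V] (hS : Surf G S) (hc : Conn G S) (hz : HZ G S) {A : Set V}
    (hA : A ⊆ S) (h1 : A.Nonempty) (h2 : A ≠ S) (hD : IsComp G A D) :
    ∃ D', D' ≠ D ∧ HZ G D' ∧ (IsComp G A D' ∨ IsComp G (S \ A) D') := by
  by_contra hn
  push Not at hn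
  have hne : ∀ E, IsComp G (A \ D) E → E ≠ D := by
    rintro E hE rfl
    obtain ⟨x, hx⟩ := hE.conn.1
    exact (hE.sub hx).2 hx
  have hne' : ∀ E, IsComp G (S \ A) E → E ≠ D := by
    rintro E hE rfl
    obtain ⟨x, hx⟩ := hE.conn.1
    exact (hE.sub hx).2 (hD.sub hx)
  have e1 := b0_le_b1 fun E hE hzE => (hn E (hne E hE) hzE).1 (hD.of_diff hE)
  have e2 := b0_le_b1 fun E hE hzE => (hn E (hne' E hE) hzE).2 hE
  have e3 := cut2 hS hc hA h1 h2
  obtain ⟨e4, e5⟩ := comp_split hD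
  rw [b1_eq_zero.2 hz] at e3
  omega

/-- a sphere cut in two: a piece `D` given, there is a disc different from `D` -/
theorem sphere_leaf' [Finite V] (hS : Surf G S) (hc : Conn G S) (hz : HZ G S) {A : Set V}
    (hA : A ⊆ S) (h1 : A.Nonempty) (h2 : A ≠ S) (hD : IsComp G A D ∨ IsComp G (S \ A) D) :
    ∃ D', D' ≠ D ∧ HZ G D' ∧ (IsComp G A D' ∨ IsComp G (S \ A) D') := by
  rcases hD with hD | hD
  · exact leaf2_aux hS hc hz hA h1 h2 hD
  · have hss : S \ (S \ A) = A := sdiff_sdiff_eq_self hA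
    have h3 : (S \ A).Nonempty := by
      obtain ⟨x, hx⟩ := hD.conn.1
      exact ⟨x, hD.sub hx⟩
    have h4 : S \ A ≠ S := by
      intro h
      obtain ⟨x, hx⟩ := h1
      have : x ∈ S \ A := by rw [h]; exact hA hx
      exact this.2 hx
    obtain ⟨D', h5, h6, h7⟩ := leaf2_aux hS hc hz Set.sdiff_subset h3 h4 hD
    rw [hss] at h7
    exact ⟨D', h5, h6, h7.symm⟩

/-- a sphere cut in two: two different discs -/
theorem sphere_leaf2 [Finite V] (hS : Surf G S) (hc : Conn G S) (hz : HZ G S) {A : Set V}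
    (hA : A ⊆ S) (h1 : A.Nonempty) (h2 : A ≠ S) :
    ∃ D D', D ≠ D' ∧ HZ G D ∧ HZ G D' ∧ (IsComp G A D ∨ IsComp G (S \ A) D) ∧
      (IsComp G A D' ∨ IsComp G (S \ A) D') := by
  obtain ⟨D, hzD, hD⟩ := sphere_leaf hS hc hz hA h1 h2
  obtain ⟨D', hne, hz', hD'⟩ := sphere_leaf' hS hc hz hA h1 h2 hD
  exact ⟨D', D, hne, hz', hzD, hD', hD⟩

/-! ## planar pieces -/

/-- gluing: a cocycle of the part over `D` which is trivial on the curves is the restriction of a
cocycle of the surface (up to coboundaries) -/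
theorem cut_ext {a : Cq G → Cq G → ZMod 2} (ha : a ∈ Z1 (sd G) (prt G S D))
    (ht : Triv (sd G) (FrIn G S D) a) :
    ∃ c ∈ Z1 (sd G) (mi G S), Triv (sd G) (prt G S D) (c + a) ∧
      Triv (sd G) (mi G S ∩ pl G Dᶜ) c := by
  have hu : mi G S ∩ pl G D ∪ mi G S ∩ pl G Dᶜ = mi G S := by
    ext s
    constructor
    · rintro (h | h)
      · exact h.1
      · exact h.1
    · intro h
      obtain ⟨x, hx⟩ := s.2.1
      by_cases hD : x ∈ D
      · exact Or.inl ⟨h, x, hx, hD⟩
      · exact Or.inr ⟨h, x, hx, hD⟩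
  have hi : (mi G S ∩ pl G D) ∩ (mi G S ∩ pl G Dᶜ) = FrIn G S D := by
    ext s
    constructor
    · rintro ⟨h1, h2⟩
      exact ⟨h1, h2.2⟩
    · rintro ⟨h1, h2⟩
      exact ⟨h1, h1.1, h2⟩
  have hn : NAdj (sd G) ((mi G S ∩ pl G D) \ (mi G S ∩ pl G Dᶜ))
      ((mi G S ∩ pl G Dᶜ) \ (mi G S ∩ pl G D)) := by
    rintro s ⟨⟨h1, h2⟩, h3⟩ t ⟨⟨h4, h5⟩, h6⟩ e
    have hsD : ∀ x ∈ s.1, x ∈ D := fun x hx => by
      by_contra h
      exact h3 ⟨h1, x, hx, h⟩
    have htD : ∀ x ∈ t.1, x ∉ D := fun x hx h => h6 ⟨h4, x, hx, h⟩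
    rcases e with e | e
    · obtain ⟨x, hx⟩ := s.2.1
      exact htD x ((Cq.lt_iff.1 e).1 hx) (hsD x hx)
    · obtain ⟨x, hx⟩ := t.2.1
      exact htD x hx (hsD x ((Cq.lt_iff.1 e).1 hx))
  obtain ⟨c, hc, h1, h2⟩ := mv_glue hn ha
    ((Z1 (sd G) (mi G S ∩ pl G Dᶜ)).zero_mem) (by
      rw [add_zero, hi]
      exact ht)
  rw [hu] at hc
  rw [add_zero] at h2
  exact ⟨c, hc, h1, h2⟩

/-- in a sphere: restriction from the part over `D` to its frontier is injective -/
theorem sphere_Inj (hz : HZ G S) : Inj (sd G) (prt G S D) (FrIn G S D) := by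
  intro a ha ht
  obtain ⟨c, hc, h1, -⟩ := cut_ext ha ht
  have h2 : Triv (sd G) (prt G S D) c := (sd_HZ.2 hz c hc).mono Set.inter_subset_left
  have h3 := h1.add h2
  have : c + a + c = a := by
    rw [add_comm c a, add_assoc]
    have : c + c = 0 := by
      funext x y; exact two_add _
    rw [this, add_zero]
  rwa [this] at h3

/-- PLANAR: a connected proper part of a sphere has `b1 + 1` circles -/
theorem sphere_planar [Finite V] (hS : Surf G S) (hcS : Conn G S) (hz : HZ G S) (hP : P ⊆ S)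
    (hne : P ≠ S) (hc : Conn G P) : b0 (sd G) (FrIn G S P) = b1 G P + 1 := by
  have h1 := prt_rk hS hcS hP hne hc
  rw [(sphere_Inj hz).rk1_eq FrIn_sub_prt] at h1
  rw [← h1, bt_b1 (prt_btw hP).1 (prt_btw hP).2]

/-- a general surface: circles of a part, summed over the components -/
theorem circ_sum [Finite V] (hS : Surf G S) (hcS : Conn G S) (hz : HZ G S) {A : Set V}
    (hA : A ⊆ S) (hne : A ≠ S) : b0 (sd G) (FrIn G S A) = b1 G A + b0 G A := by
  have key : ∀ (n : ℕ) (A : Set V), A ⊆ S → A ≠ S → b0 G A = n →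
      b0 (sd G) (FrIn G S A) = b1 G A + b0 G A := by
    intro n
    induction n with
    | zero =>
      intro A hA hne h0
      have hE := b0_eq_zero.1 h0
      have hF : FrIn G S A = ∅ := by
        rw [Set.eq_empty_iff_forall_notMem]
        rintro s ⟨⟨-, x, -, hx⟩, -⟩
        rw [hE] at hx
        exact hx
      have hzE : HZ G (∅ : Set V) := fun a _ => ⟨0, fun x y e => absurd e.2.1 (Set.notMem_empty x)⟩
      rw [hF, hE, b0_empty, b0_empty, b1_eq_zero.2 hzE]
    | succ n ih =>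
      intro A hA hne h0
      obtain ⟨x, hx⟩ : A.Nonempty := by
        rw [Set.nonempty_iff_ne_empty]
        intro hE
        rw [hE, b0_empty] at h0
        omega
      have hD := IsComp_comp (G := G) hx
      obtain ⟨e0, e1⟩ := comp_split hD
      have hDS : comp G A x ⊆ S := hD.sub.trans hA
      have hDne : comp G A x ≠ S := fun h => hne (Set.Subset.antisymm hA (h ▸ hD.sub))
      have hBS : A \ comp G A x ⊆ S := Set.sdiff_subset.trans hA
      have hBne : A \ comp G A x ≠ S := fun h => hne (Set.Subset.antisymm hA (by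
        rw [← h]; exact Set.sdiff_subset))
      have h1 := ih _ hBS hBne (by omega)
      have h2 := sphere_planar hS hcS hz hDS hDne hD.conn
      obtain ⟨f1, f2, f3⟩ := FrIn_un (S := S) hDS hBS Set.disjoint_sdiff_right hD.nadj
      rw [Set.union_sdiff_cancel hD.sub] at f1
      have h3 := b0_disj f2 f3
      rw [← f1] at h3
      omega
  exact key _ A hA hne rfl

/-- THE TREE: number of circles plus one is the number of pieces -/
theorem sphere_tree [Finite V] (hS : Surf G S) (hcS : Conn G S) (hz : HZ G S) {A : Set V}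
    (hA : A ⊆ S) (h1 : A.Nonempty) (h2 : A ≠ S) :
    b0 (sd G) (FrIn G S A) + 1 = b0 G A + b0 G (S \ A) := by
  have e1 := circ_sum hS hcS hz hA h2
  have h4 : S \ A ≠ S := by
    intro h
    obtain ⟨x, hx⟩ := h1
    have : x ∈ S \ A := by rw [h]; exact hA hx
    exact this.2 hx
  have e2 := circ_sum hS hcS hz (A := S \ A) Set.sdiff_subset h4
  rw [FrIn_diff] at e2
  have e3 := cut2 hS hcS hA h1 h2
  rw [b1_eq_zero.2 hz] at e3
  omega

end MOT
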