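import Pool.Agent.MOT.ScL
import Pool.Agent.MOT.SfS
import Pool.Agent.MOT.SgB

/-!
# MOT/ScM: the leaf in the own side; output of stage 2 for one side (helper73)
-/

open Classical

noncomputable section

namespace MOT

variable {V : Type} {G : SimpleGraph V} {A Bc Cc : Type} [Fintype Bc] [Fintype Cc]
  {e1 e2 : Bc → A} {inc : Bc → Cc → Prop} {X : Sc V A Bc Cc}

private theorem za1 (a b c d : ZMod 2) (h : a + b = c + d) : a + c = b + d := by
  decide +revert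

private theorem za2 (a b c k : ZMod 2) (h : a + b = k) : b + c = a + (c + k) := by
  decide +revert

private theorem za3 (a a' b b' t : ZMod 2) :
    a + b + (a + a' + t) = a' + b' + (t + (b + b')) := by
  decide +revert

private theorem za4 (a b w k : ZMod 2) (h : a + b + w = k) : w = a + (b + k) := by
  decide +revert

private theorem za5 (a b k : ZMod 2) : a + b = a + k + (b + k) := by
  decide +revert

private theorem const_D {R0 R1 : Set V} {D : Set (Cq G)} {F : V → V → ZMod 2}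
    (hc : Conn (sd G) D) (hD : ∀ q ∈ D, (∃ x ∈ q.1, x ∈ R0) ∧ ∃ y ∈ q.1, y ∈ R1)
    (h : ∀ q ∈ D, ∀ x ∈ q.1, x ∈ R0 → ∀ y ∈ q.1, y ∈ R1 → ∀ x' ∈ q.1, x' ∈ R0 →
      ∀ y' ∈ q.1, y' ∈ R1 → F x y = F x' y') :
    ∃ k, ∀ q ∈ D, ∀ x ∈ q.1, x ∈ R0 → ∀ y ∈ q.1, y ∈ R1 → F x y = k := by
  have h0 : ∀ q : Cq G, ∃ x y : V, q ∈ D → (x ∈ q.1 ∧ x ∈ R0) ∧ (y ∈ q.1 ∧ y ∈ R1) := by
    intro q
    by_cases hq : q ∈ D
    · obtain ⟨⟨x, hx⟩, ⟨y, hy⟩⟩ := hD q hq
      exact ⟨x, y, fun _ => ⟨hx, hy⟩⟩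
    · obtain ⟨x, -⟩ := q.2.1
      exact ⟨x, x, fun h => absurd h hq⟩
  choose r0 r1 hr using h0
  obtain ⟨q0, hq0⟩ := hc.1
  have hloc : ∀ s t, EIn (sd G) D s t → F (r0 s) (r1 s) = F (r0 t) (r1 t) := by
    intro s t e
    obtain ⟨⟨a1, a2⟩, a3, a4⟩ := hr s e.2.1
    obtain ⟨⟨c1, c2⟩, c3, c4⟩ := hr t e.2.2
    rcases sd_adj.1 e.1 with hlt | hlt
    · have hsub := (Cq.lt_iff.1 hlt).1
      exact h t e.2.2 _ (hsub a1) a2 _ (hsub a3) a4 _ c1 c2 _ c3 c4
    · have hsub := (Cq.lt_iff.1 hlt).1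
      exact h s e.2.1 _ a1 a2 _ a3 a4 _ (hsub c1) c2 _ (hsub c3) c4
  refine ⟨F (r0 q0) (r1 q0), fun q hq x hx hx0 y hy hy1 => ?_⟩
  obtain ⟨⟨a1, a2⟩, a3, a4⟩ := hr q hq
  rw [h q hq x hx hx0 y hy hy1 _ a1 a2 _ a3 a4]
  exact hc.const (f := fun s => F (r0 s) (r1 s)) hloc hq hq0

private theorem eg_l {x y : V} (h : G.Adj x y) : x ∈ (eg G h).1 :=
  show x ∈ ({x, y} : Finset V) by simp

private theorem eg_r {x y : V} (h : G.Adj x y) : y ∈ (eg G h).1 :=
  show y ∈ ({x, y} : Finset V) by simp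

private theorem tr_mem_iff {M : Set V} {s : Cq G} (h : s ∈ pl G M) (z : V) :
    z ∈ (tr M s).1 ↔ z ∈ s.1 ∧ z ∈ M := by
  rw [tr_val h, Finset.mem_filter]

private theorem XB (h : ScS G e1 e2 inc X) : ∀ x ∈ X.X, x ∉ X.Bs := by
  intro x hx hB
  have hx' : x ∈ X.S ∨ x ∈ X.P := hx
  rcases hx' with hx | hx
  · exact Set.disjoint_left.1 h.wall.dqn hx (h.BsN hB)
  · exact Set.disjoint_left.1 h.wall.dpn hx (h.BsN hB)

/-- the key step.  `X = R0 ⊔ R1` along the disc `D` with `Lr b ⊆ R0`, and `wb b` trivial on `R0` (potential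
`ψ`): then `wb b` is trivial on `Lr b ∪ Le b`.  Let `φ` be the potential on `U b ∪ Le b` (`U4`).  `Spl.sides`: (i) on `D`,
`U b` is the `R0`-part: `ψ + φ` has a constant value `κ` on the vertices of `R0` in simplices of `D` (adjacent
vertices of `R0 ∩ U b`; `D` connected).  (ii) `U b` is the `R1`-part: `ψ x + φ y + wb b x y = κ` for all
`x ∈ R0`, `y ∈ R1` in a simplex of `D`.  In both cases `Ψ = ψ` on `R0`, `φ + κ` on `R1 ∩ Le b` is a potential of
`wb b` on `R0 ∪ (R1 ∩ Le b)`: an edge between `x ∈ R0` and `y ∈ R1` is in `D`. -/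
theorem key_pot (h : ScS G e1 e2 inc X) (hu : ScU G e1 e2 inc X) {b : Bc} {D : Set (Cq G)}
    {R0 R1 : Set V} (hD : IsComp (sd G) (mi G X.X ∩ Fr G (X.U b)) D) (hs : Spl G X.X R0 R1 D)
    (hL : X.Lr b ⊆ R0) (ht : Triv G R0 (X.wb e1 e2 b)) :
    Triv G (X.Lr b ∪ X.Le b) (X.wb e1 e2 b) := by
  obtain ⟨ψ, hψ⟩ := ht
  obtain ⟨φ, hφ⟩ := hu.U4 b
  obtain ⟨w, hw⟩ : ∃ w, w = X.wb e1 e2 b := ⟨_, rfl⟩
  rw [← hw] at hψ hφ ⊢
  have hco : CocO G X.Bs w := by rw [hw]; exact h.wb_co b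
  have hR0 : R0 ⊆ X.X := by rw [← hs.un]; exact Set.subset_union_left
  have hDm : ∀ q, q ∈ D ↔ (q ∈ mi G X.X ∧ (∃ x ∈ q.1, x ∈ R0) ∧ ∃ x ∈ q.1, x ∈ R1) := by
    intro q
    rw [hs.eq]
    exact Iff.rfl
  have hDB : ∀ q ∈ D, q ∉ mi G X.Bs := by
    intro q hq hm
    obtain ⟨x, hx⟩ := q.2.1
    exact XB h x (((hDm q).1 hq).1 x hx) (hm x hx)
  have e0 : ∀ q ∈ D, ∀ x ∈ q.1, x ∈ R0 → ∀ x' ∈ q.1, x' ∈ R0 → w x x' = ψ x + ψ x' := by
    intro q hq x hx hx0 x' hx' hx0'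
    by_cases e : x = x'
    · rw [e, hco.zero, two_add]
    · exact hψ x x' ⟨q.2.2 hx hx' e, hx0, hx0'⟩
  have eU : ∀ q ∈ D, ∀ x ∈ q.1, x ∈ X.U b → ∀ x' ∈ q.1, x' ∈ X.U b → w x x' = φ x + φ x' := by
    intro q hq x hx hx0 x' hx' hx0'
    by_cases e : x = x'
    · rw [e, hco.zero, two_add]
    · exact hφ x x' ⟨q.2.2 hx hx' e, Or.inl hx0, Or.inl hx0'⟩
  have hmix : ∀ x y, EIn G (X.Lr b ∪ X.Le b) x y → x ∈ R0 → y ∉ R0 →
      y ∈ R1 ∧ y ∈ X.Le b ∧ ∃ q ∈ D, x ∈ q.1 ∧ y ∈ q.1 := by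
    intro x y e hx hy
    have hyL : y ∈ X.Le b := e.2.2.resolve_left (fun h1 => hy (hL h1))
    have hyX : y ∈ X.X := Or.inr (h.LeP b hyL)
    have hy1 : y ∈ R1 := by
      have h2 : y ∈ R0 ∪ R1 := by rw [hs.un]; exact hyX
      exact h2.resolve_left hy
    refine ⟨hy1, hyL, eg G e.1, (hDm _).2 ⟨?_, ⟨x, eg_l e.1, hx⟩, ⟨y, eg_r e.1, hy1⟩⟩,
      eg_l e.1, eg_r e.1⟩
    intro z hz
    have hz' : z ∈ ({x, y} : Finset V) := hz
    rcases Finset.mem_insert.1 hz' with rfl | hz'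
    · exact hR0 hx
    · rw [Finset.mem_singleton.1 hz']; exact hyX
  suffices hk : ∃ k, ∀ x y, EIn G (X.Lr b ∪ X.Le b) x y → x ∈ R0 → y ∉ R0 →
      w x y = ψ x + (φ y + k) by
    obtain ⟨k, hk⟩ := hk
    refine ⟨fun x => if x ∈ R0 then ψ x else φ x + k, fun x y e => ?_⟩
    by_cases hx : x ∈ R0
    · by_cases hy : y ∈ R0
      · simp only [hx, hy, if_true]
        exact hψ x y ⟨e.1, hx, hy⟩
      · simp only [hx, hy, if_true, if_false]
        exact hk x y e hx hy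
    · by_cases hy : y ∈ R0
      · simp only [hx, hy, if_true, if_false]
        rw [hco.symm, hk y x e.symm hy hx, add_comm]
      · simp only [hx, hy, if_false]
        have hxL : x ∈ X.Le b := e.2.1.resolve_left (fun h1 => hx (hL h1))
        have hyL : y ∈ X.Le b := e.2.2.resolve_left (fun h1 => hy (hL h1))
        rw [hφ x y ⟨e.1, Or.inr hxL, Or.inr hyL⟩]
        exact za5 _ _ _
  rcases hs.sides hD with hsd | hsd
  · obtain ⟨k, hk⟩ := const_D (R0 := R0) (R1 := R1) (F := fun x _ => ψ x + φ x) hD.conn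
      (fun q hq => ((hDm q).1 hq).2) (by
        intro q hq x hx hx0 y hy hy1 x' hx' hx0' y' hy' hy1'
        have a1 := e0 q hq x hx hx0 x' hx' hx0'
        have a2 := eU q hq x hx ((hsd q hq x hx).2 hx0) x' hx' ((hsd q hq x' hx').2 hx0')
        rw [a1] at a2
        exact za1 _ _ _ _ a2)
    refine ⟨k, fun x y e hx hy => ?_⟩
    obtain ⟨hy1, hyL, q, hq, hxq, hyq⟩ := hmix x y e hx hy
    rw [hφ x y ⟨e.1, Or.inl ((hsd q hq x hxq).2 hx), Or.inr hyL⟩]
    exact za2 _ _ _ _ (hk q hq x hxq hx y hyq hy1)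
  · obtain ⟨k, hk⟩ := const_D (R0 := R0) (R1 := R1) (F := fun x y => ψ x + φ y + w x y) hD.conn
      (fun q hq => ((hDm q).1 hq).2) (by
        intro q hq x hx hx0 y hy hy1 x' hx' hx0' y' hy' hy1'
        have a1 := e0 q hq x hx hx0 x' hx' hx0'
        have a2 := eU q hq y hy ((hsd q hq y hy).2 hy1) y' hy' ((hsd q hq y' hy').2 hy1')
        have a3 := hco.coc q (hDB q hq) x hx x' hx' y hy
        have a4 := hco.coc q (hDB q hq) x' hx' y hy y' hy'
        show ψ x + φ y + w x y = ψ x' + φ y' + w x' y'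
        rw [← a3, ← a4, a1, a2]
        exact za3 _ _ _ _ _)
    refine ⟨k, fun x y e hx hy => ?_⟩
    obtain ⟨hy1, hyL, q, hq, hxq, hyq⟩ := hmix x y e hx hy
    exact za4 _ _ _ _ (hk q hq x hxq hx y hyq hy1)

private theorem leafX_aux [Finite V] (h : ScS G e1 e2 inc X) (hu : ScU G e1 e2 inc X)
    (hn : NoD G X) {b : Bc} {D : Set (Cq G)} {R0 R1 : Set V}
    (hD : IsComp (sd G) (mi G X.X ∩ Fr G (X.U b)) D) (hz : HZ (sd G) D)
    (hs : Spl G X.X R0 R1 D) (hL : X.Lr b ⊆ R0) : False := by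
  have hR0 : R0 ⊆ X.X := by rw [← hs.un]; exact Set.subset_union_left
  have hR1 : R1 ⊆ X.X := by rw [← hs.un]; exact Set.subset_union_right
  have hzR1 : HZ G R1 := by
    intro α hα
    obtain ⟨c, hc, hc0, hc1⟩ := hs.glue hz hα
    rcases h.cls_two b hc (hc0.mono hL) with h1 | h1
    · refine (hc1.add (h1.mono hR1)).congr fun x y _ => ?_
      simp only [Pi.add_apply]
      have h3 := two_add (c x y)
      calc c x y + α x y + c x y = α x y + (c x y + c x y) := by abel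
        _ = α x y := by rw [h3, add_zero]
    · exfalso
      have h2 : Triv G R0 (X.wb e1 e2 b) := by
        refine (hc0.add (h1.mono hR0)).congr fun x y _ => ?_
        simp only [Pi.add_apply]
        rw [← add_assoc, two_add, zero_add]
      exact h.no_B b (key_pot h hu hD hs hL h2)
  obtain ⟨p1, p2, p3, p4⟩ := pk_all h.sph h.wall h.cN (ScU.sphere h hu b).2.1
    (ScU.fr_ne h hu b).2.2 hD hz hs hzR1
  obtain ⟨K, -, hK, hK2⟩ := disc_inside h.wall.surf h.cS (R := X.S ∩ R1) (W := X.W)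
    Set.inter_subset_left p3 p1 p2 (p4.trans (FrIn_W hu b))
  rcases hK2 with h1 | h1
  · exact (NoD.all hu hn hK).1 h1
  · exact (NoD.all hu hn hK).2 h1

/-- a disc `D` in the own closed side has the class `wb b`.  `cls_two`; if `gam D` is trivial on `X`:
`pocket_split`, `Lr b ⊆ R0`; a class `α` of `R1` extended by `0` is trivial on `Lr b`, so it is trivial on `X` or
equal to `wb b`; in the second case `wb b` is trivial on `R0`: `key_pot`, `no_B`.  So `HZ R1`, and `pk_all`,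
`disc_inside`, `NoD.all` give a contradiction. -/
theorem leafX [Finite V] (h : ScS G e1 e2 inc X) (hu : ScU G e1 e2 inc X) (hn : NoD G X)
    {b : Bc} {D : Set (Cq G)} (hD : IsComp (sd G) (mi G X.X ∩ Fr G (X.U b)) D)
    (hz : HZ (sd G) D) : Triv G X.X (gam D + X.wb e1 e2 b) := by
  have hgam := gam_mem hD
  have hLrX : X.Lr b ⊆ X.X := fun x hx => Or.inr (h.LrP b hx)
  have hg0 : ∀ x ∈ X.Lr b, ∀ y ∈ X.Lr b, gam D x y = 0 := by
    intro x hx y hy
    unfold gam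
    rw [if_neg]
    rintro ⟨s, hs, he⟩
    obtain ⟨-, ⟨z, hz1, hzU⟩, -⟩ := hD.sub hs
    rw [he, Finset.mem_insert, Finset.mem_singleton] at hz1
    rcases hz1 with rfl | rfl
    · exact Set.disjoint_left.1 (hu.ULr b) hzU hx
    · exact Set.disjoint_left.1 (hu.ULr b) hzU hy
  have ht0 : Triv G (X.Lr b) (rs G X.X (gam D)) := by
    refine ⟨0, fun x y e => ?_⟩
    rw [rs_apply (e.mono hLrX), hg0 x e.2.1 y e.2.2]
    simp
  rcases h.cls_two b hgam ht0 with h1 | h1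
  · exfalso
    obtain ⟨R0, R1, hs⟩ := pocket_split h.cX hD (Triv_rs.1 h1)
    rcases hs.one (h.LrC b) hLrX hg0 with h3 | h3
    · exact leafX_aux h hu hn hD hz hs h3
    · exact leafX_aux h hu hn hD hz hs.symm h3
  · refine h1.congr fun x y e => ?_
    simp only [Pi.add_apply]
    rw [rs_apply e]

/-- existence of a leaf: `sphere_leaf` for `Fr G (U b)` and `A = mi G X.X ∩ Fr`, complement
`Fr ∩ pl G N`; `clo_leaf`, `leafY_no` -/
theorem sc_leaf_ex [Finite V] (h : ScS G e1 e2 inc X) (hu : ScU G e1 e2 inc X) (hn : NoD G X)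
    (b : Bc) : ∃ D, IsComp (sd G) (mi G X.X ∩ Fr G (X.U b)) D ∧ HZ (sd G) D := by
  obtain ⟨s1, s2, s3⟩ := ScU.sphere h hu b
  obtain ⟨n1, n2, n3⟩ := ScU.fr_ne h hu b
  have hXc : X.Xᶜ = X.N := wall_compl h.wall
  have hne : mi G X.X ∩ Fr G (X.U b) ≠ Fr G (X.U b) := by
    intro he
    obtain ⟨q, hq, x, hx, hxN⟩ := n3
    rw [← he] at hq
    have h2 : x ∈ X.Xᶜ := by rw [hXc]; exact hxN
    exact h2 (hq.1 x hx)
  have hne1 : (mi G X.X ∩ Fr G (X.U b)).Nonempty := by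
    obtain ⟨q, hq, hq2⟩ := n1
    exact ⟨q, fun x hx => Or.inl (hq2 x hx), hq⟩
  obtain ⟨D, hz, hD⟩ := sphere_leaf s1 s2 s3 Set.inter_subset_right hne1 hne
  rcases hD with hD | hD
  · exact ⟨D, hD, hz⟩
  · exfalso
    have e : Fr G (X.U b) \ (mi G X.X ∩ Fr G (X.U b)) = Fr G (X.U b) ∩ pl G X.N := by
      ext q
      constructor
      · rintro ⟨h1, h2⟩
        refine ⟨h1, ?_⟩
        have h4 : q ∈ (mi G X.X)ᶜ := fun h3 => h2 ⟨h3, h1⟩
        rw [compl_mi, hXc] at h4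
        exact h4
      · rintro ⟨h1, h2⟩
        refine ⟨h1, fun h3 => ?_⟩
        have h4 : q ∈ pl G X.Xᶜ := by rw [hXc]; exact h2
        rw [← compl_mi] at h4
        exact h4 h3.1
    rw [e] at hD
    obtain ⟨D', hD', hz'⟩ := clo_leaf h.wall hD hz
    exact leafY_no h hu hn hD' hz'

/-- `touch` gives `q ∈ D`, `q ⊆ S`, which has vertices in `U b` and outside; every vertex of `S` has a
neighbour in `N` -/
theorem leaf_tch [Finite V] (h : ScS G e1 e2 inc X) (hu : ScU G e1 e2 inc X) {b : Bc}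
    {D : Set (Cq G)} (hD : IsComp (sd G) (mi G X.X ∩ Fr G (X.U b)) D) :
    (∃ q ∈ D, ∃ x ∈ q.1, x ∈ X.U b ∧ ∃ y, y ∉ X.X ∧ G.Adj x y) ∧
      ∃ q ∈ D, ∃ x ∈ q.1, x ∉ X.U b ∧ ∃ y, y ∉ X.X ∧ G.Adj x y := by
  obtain ⟨q, hq, hqS⟩ := touch h.wall (ScU.sphere h hu b).2.1 hD (ScU.fr_ne h hu b).2.2
  obtain ⟨-, ⟨x, hx, hxU⟩, ⟨y, hy, hyU⟩⟩ := hD.sub hq
  have key : ∀ z ∈ X.S, ∃ y, y ∉ X.X ∧ G.Adj z y := by
    intro z hz
    obtain ⟨y, hy1, hy2⟩ := (h.wall.hn {z} (Finset.singleton_nonempty z) (by simp)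
      (by simpa using hz)).1.1
    refine ⟨y, ?_, hy1 z (by simp)⟩
    intro h0
    have h0' : y ∈ X.S ∨ y ∈ X.P := h0
    rcases h0' with h1 | h1
    · exact Set.disjoint_left.1 h.wall.dqn h1 hy2
    · exact Set.disjoint_left.1 h.wall.dpn h1 hy2
  exact ⟨⟨q, hq, x, hx, hxU, key x (hqS x hx)⟩, ⟨q, hq, y, hy, hyU, key y (hqS y hy)⟩⟩

/-- OUTPUT of stage 2 for one side -/
theorem sc_str [Finite V] (h : ScS G e1 e2 inc X) (hu : ScU G e1 e2 inc X) (hn : NoD G X) :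
    ∃ D : Bc → Set (Cq G), StrIn G e1 e2 X.X X.U D X.Lv X.Le X.top := by
  choose D hD hz using fun b => sc_leaf_ex h hu hn b
  have hXc : X.Xᶜ = X.N := wall_compl h.wall
  have hLrX : ∀ b, X.Lr b ⊆ X.X := fun b x hx => Or.inr (h.LrP b hx)
  obtain ⟨b0⟩ := h.neB
  have hLvX : ∀ a, X.Lv a ⊆ X.X := fun a => (h.LvL a b0).trans (hLrX b0)
  have hLeX : ∀ b, X.Le b ⊆ X.X := fun b x hx => Or.inr (h.LeP b hx)
  refine ⟨D, ?_⟩
  exact
    { sph := h.sph
      ne := h.ne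
      simple := h.simple
      graph := h.graph
      cM := h.cX
      cN := by rw [hXc]; exact h.cN
      t1 := by
        intro x y e
        obtain ⟨u, v, huv, ht⟩ := h.top2 (eg G e.1)
          (fun hm => XB h x e.2.1 (hm x (eg_l e.1)))
        have hx := ht x (eg_l e.1)
        have hy := ht y (eg_r e.1)
        rcases hx with hx | hx <;> rcases hy with hy | hy
        · exact Or.inl (hx.trans hy.symm)
        · rcases huv with rfl | ⟨b, hb⟩
          · exact Or.inl (hx.trans hy.symm)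
          · exact Or.inr ⟨b, by rw [hx, hy]; exact hb⟩
        · rcases huv with rfl | ⟨b, hb⟩
          · exact Or.inl (hx.trans hy.symm)
          · exact Or.inr ⟨b, by rw [hx, hy, Set.pair_comm]; exact hb⟩
        · exact Or.inl (hx.trans hy.symm)
      t2 := by
        intro x y z e1' e2' e3'
        have hc : G.IsClique ((insert x {y, z} : Finset V) : Set V) := by
          refine clique_insert (eg G e2'.1).2.2 fun w hw => ?_
          rcases Finset.mem_insert.1 hw with rfl | hw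
          · exact e1'.1
          · rw [Finset.mem_singleton.1 hw]; exact e3'.1
        have mx : x ∈ (insert x {y, z} : Finset V) := by simp
        have my : y ∈ (insert x {y, z} : Finset V) := by simp
        have mz : z ∈ (insert x {y, z} : Finset V) := by simp
        obtain ⟨u, v, -, ht⟩ := h.top2 ⟨insert x {y, z}, ⟨x, mx⟩, hc⟩
          (fun hm => XB h x e1'.2.1 (hm x mx))
        have hx := ht x mx
        have hy := ht y my
        have hz' := ht z mz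
        rcases hx with hx | hx <;> rcases hy with hy | hy <;> rcases hz' with hz' | hz' <;>
          first
          | exact Or.inl (hx.trans hy.symm)
          | exact Or.inr (Or.inl (hy.trans hz'.symm))
          | exact Or.inr (Or.inr (hx.trans hz'.symm))
      Ud := hu.Ud
      Dc := hD
      Dz := hz
      cls := fun b => leafX h hu hn (hD b) (hz b)
      span := h.span
      ker := fun c t => h.ker (R := X.X) hLvX hLeX t
      LvC := h.LvC
      LvM := hLvX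
      Lvt := h.Lvt
      LvU := fun a b => ((hu.ULr b).mono_right (h.LvL a b)).symm
      LeC := h.LeC
      LeM := hLeX
      Let := h.Let
      LeU := fun b b' hb => ((hu.ULr b').mono_right (h.LeL b b' hb)).symm
      Le1 := h.Le1
      Le2 := h.Le2
      tch1 := fun b => (leaf_tch h hu (hD b)).1
      tch2 := fun b => (leaf_tch h hu (hD b)).2 }

/-- localization of the curves: `q` mixed for the side and its part in the side is in `D b` -/
theorem sc_loc (h : ScS G e1 e2 inc X) (hu : ScU G e1 e2 inc X) {b : Bc} {D : Set (Cq G)}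
    (hD : IsComp (sd G) (mi G X.X ∩ Fr G (X.U b)) D) {q : Cq G} (hq : q ∈ Fr G X.X)
    (hqD : tr X.X q ∈ D) : ∀ z ∈ q.1, z ∈ X.Ze b := by
  obtain ⟨⟨a, ha, haX⟩, ⟨n, hn, hnX⟩⟩ := hq
  have hpl : q ∈ pl G X.X := ⟨a, ha, haX⟩
  have hXc : X.Xᶜ = X.N := wall_compl h.wall
  have hnN : n ∈ X.N := by rw [← hXc]; exact hnX
  obtain ⟨-, ⟨x, hx, hxU⟩, ⟨y, hy, hyU⟩⟩ := hD.sub hqD
  have key : ∀ z, z ∈ (tr X.X q).1 → z ∈ q.1 ∧ z ∈ X.S := by
    intro z hz
    have hz' := (tr_mem_iff hpl z).1 hz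
    refine ⟨hz'.1, ?_⟩
    have h2 : z ∈ X.S ∨ z ∈ X.P := hz'.2
    rcases h2 with h1 | h1
    · exact h1
    · exfalso
      have hne : z ≠ n := by rintro rfl; exact hnX hz'.2
      exact h.wall.nadj z h1 n hnN (q.2.2 hz'.1 hn hne)
  exact hu.loc b q ⟨x, (key x hx).1, (key x hx).2, hxU⟩ ⟨y, (key y hy).1, (key y hy).2, hyU⟩

end MOT
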