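import Pool.Agent.MOT.ScAB
import Pool.Agent.MOT.ScB
import Pool.Agent.MOT.DmG
import Pool.Agent.MOT.SfT
import Pool.Agent.MOT.SgA

/-!
# MOT/ScQ: the start of stage 2: from a region `M` to the wall `Fr G M` (helper73)

One-sided data `SpD` on the level of `M` (own side `M`, other side `Mᶜ`); one level later the wall is `Fr G M`
with sides `mi G M`, `mi G Mᶜ`.
-/

open Classical

noncomputable section

namespace MOT

variable {V : Type} {G : SimpleGraph V} {A Bc Cc : Type}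

/-- one-sided data before the wall is introduced; `BsL` large other core -/
structure SpD (V A Bc Cc : Type) where
  Bs : Set V
  BsL : Set V
  U : Bc → Set V
  Lv : A → Set V
  Le : Bc → Set V
  Lr : Bc → Set V
  Ze : Bc → Set V
  Zf : Bc → Set V
  Bd : Cc → Set V
  top : V → A
  w : Cc → V → V → ZMod 2

/-- the data of stage 2 for the wall `Fr G M` -/
def SpD.toSc (G : SimpleGraph V) (Y : SpD V A Bc Cc) (M : Set V) : Sc (Cq G) A Bc Cc where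
  S := Fr G M
  P := mi G M
  N := mi G Mᶜ
  Bs := mi G Y.Bs
  U b := mi G (Y.U b)
  Lv a := mi G (Y.Lv a)
  Le b := mi G (Y.Le b)
  Lr b := mi G (Y.Lr b)
  Ze b := {s | pk s ∈ Y.Ze b}
  Zf b := {s | pk s ∈ Y.Zf b}
  Fo b := {c | ∃ q ∈ FrIn (sd G) (Fr G M) (mi G (Y.U b)), q.1 = c}
  Bd c := mi G (Y.Bd c)
  top s := Y.top (pk s)
  w c := pw G (Y.w c)

/-- the hypotheses -/
structure SpOK (G : SimpleGraph V) [Fintype Bc] [Fintype Cc] (e1 e2 : Bc → A)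
    (inc : Bc → Cc → Prop) (Y : SpD V A Bc Cc) (M : Set V) : Prop where
  neB : Nonempty Bc
  sph : IsSph3 G
  cM : Conn G M
  cN : Conn G Mᶜ
  ne : ∀ b, e1 b ≠ e2 b
  simple : ∀ b b', ({e1 b, e2 b} : Set A) = {e1 b', e2 b'} → b = b'
  graph : ∀ b, ∀ f : A → ZMod 2, (∀ b', b' ≠ b → f (e1 b') = f (e2 b')) → ∀ a a', f a = f a'
  top2 : ∀ q : Cq G, q ∉ mi G Y.Bs → ∃ u v, (u = v ∨ ∃ b, ({u, v} : Set A) = {e1 b, e2 b}) ∧
    ∀ x ∈ q.1, Y.top x = u ∨ Y.top x = v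
  span : ∀ a ∈ Z1 G M, ∃ c : Bc → ZMod 2,
    Triv G M (a + lc c (fun b => wtt Y.top (e1 b) (e2 b)))
  spanN : ∀ a ∈ Z1 G Mᶜ, ∃ c : Cc → ZMod 2, Triv G Mᶜ (a + lc c Y.w)
  injN : ∀ a ∈ Z1 G Mᶜ, Triv G Y.Bs a → Triv G Mᶜ a
  cBs : Conn G Y.Bs
  BsN : Y.Bs ⊆ Mᶜ
  BsL : Y.BsL ⊆ Mᶜ
  LvC : ∀ a, Conn G (Y.Lv a)
  LvL : ∀ a b, Y.Lv a ⊆ Y.Lr b
  Lvt : ∀ a, ∀ x ∈ Y.Lv a, Y.top x = a
  LeC : ∀ b, Conn G (Y.Le b)
  LeM : ∀ b, Y.Le b ⊆ M
  Let : ∀ b, ∀ x ∈ Y.Le b, Y.top x = e1 b ∨ Y.top x = e2 b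
  Le1 : ∀ b, Y.Lv (e1 b) ⊆ Y.Le b
  Le2 : ∀ b, Y.Lv (e2 b) ⊆ Y.Le b
  LeL : ∀ b b', b ≠ b' → Y.Le b ⊆ Y.Lr b'
  LrC : ∀ b, Conn G (Y.Lr b)
  LrM : ∀ b, Y.Lr b ⊆ M
  wco : ∀ c, CocO G (Y.Bd c) (Y.w c)
  BdM : ∀ c, Y.Bd c ⊆ M
  BdL : ∀ b c, ¬ inc b c → Y.Bd c ⊆ Y.Lr b
  inc0 : ∀ b, ∃ c, ¬ inc b c ∧ ¬ Triv G Y.Bs (Y.w c)
  inc2 : ∀ b b', b ≠ b' → ∃ c, inc b' c ∧ ¬ inc b c
  UC : ∀ b, Conn G (Y.U b)
  UCc : ∀ b, Conn G (Y.U b)ᶜ
  Ubb : ∀ b, bb G (Y.U b) = 0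
  Ud : ∀ b b', b ≠ b' → Disjoint (Y.U b) (Y.U b') ∧ NAdj G (Y.U b) (Y.U b')
  UBs : ∀ b, Disjoint (Y.U b) Y.Bs
  ULr : ∀ b, Disjoint (Y.U b) (Y.Lr b)
  U4 : ∀ b, Triv G (Y.U b ∪ Y.Le b) (wtt Y.top (e1 b) (e2 b))
  Unb : ∀ b, ∀ x ∈ Y.U b, ∀ y, Nr G x y → y ∈ Y.Ze b
  ZeZf : ∀ b, Y.Ze b ⊆ Y.Zf b
  rim : ∀ b, ∃ c, inc b c ∧ ¬ Triv G (Y.U b ∩ Y.BsL) (Y.w c)
  /-- on simplices meeting `Mᶜ` -/
  z0 : ∀ b c, ¬ inc b c → ∀ q ∈ pl G Mᶜ, ∀ x ∈ q.1, ∀ y ∈ q.1, x ∈ Y.Ze b → y ∈ Y.Ze b →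
    Y.w c x y = 0
  z1 : ∀ b c c', inc b c → inc b c' → ∃ f : V → ZMod 2, ∀ q ∈ pl G Mᶜ, ∀ x ∈ q.1, ∀ y ∈ q.1,
    x ∈ Y.Ze b → y ∈ Y.Ze b → Y.w c x y + Y.w c' x y = f x + f y

variable [Fintype Bc] [Fintype Cc] {e1 e2 : Bc → A} {inc : Bc → Cc → Prop} {Y : SpD V A Bc Cc}
  {M : Set V}

/-- the closed sides of the wall `Fr G M` are `pl G M` and `pl G Mᶜ` -/
theorem toSc_X : (Y.toSc G M).X = pl G M ∧ (Y.toSc G M).Y = pl G Mᶜ := by
  have h1 : ∀ N : Set V, Fr G N ∪ mi G N = pl G N := by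
    intro N
    ext s
    constructor
    · rintro (h | h)
      · exact h.1
      · exact mi_sub_pl h
    · intro h
      by_cases hm : s ∈ mi G N
      · exact Or.inr hm
      · left
        refine ⟨h, ?_⟩
        rw [← compl_mi]
        exact hm
  constructor
  · exact h1 M
  · have h2 := h1 Mᶜ
    rw [Fr_compl] at h2
    exact h2

private theorem wtt_symm_Q (f : V → A) (p q : A) (x y : V) : wtt f p q x y = wtt f p q y x := by
  unfold wtt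
  exact if_congr (by tauto) rfl rfl

private theorem wtt_self_Q (f : V → A) {p q : A} (h : p ≠ q) (x : V) : wtt f p q x x = 0 := by
  unfold wtt
  rw [if_neg]
  rintro (⟨h1, h2⟩ | ⟨h1, h2⟩)
  · exact h (h1.symm.trans h2)
  · exact h (h2.symm.trans h1)

private theorem wtt_co_Q {B : Set V} {f : V → A} {p q : A} (h : p ≠ q)
    (ht : ∀ s : Cq G, s ∉ mi G B → ∃ u v, ∀ x ∈ s.1, f x = u ∨ f x = v) :
    CocO G B (wtt f p q) where
  symm x y := wtt_symm_Q f p q x y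
  zero x := wtt_self_Q f h x
  coc s hs x hx y hy z hz := by
    obtain ⟨u, v, ht⟩ := ht s hs
    have e1 : ∀ a b : V, f a = f b → wtt f p q a b = 0 := by
      intro a b hab
      unfold wtt
      rw [if_neg]
      rintro (⟨h1, h2⟩ | ⟨h1, h2⟩)
      · exact h (h1.symm.trans (hab.trans h2))
      · exact h (h2.symm.trans (hab.symm.trans h1))
    have e2 : ∀ a b c d : V, f a = f c → f b = f d → wtt f p q a b = wtt f p q c d := by
      intro a b c d hac hbd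
      unfold wtt
      rw [hac, hbd]
    rcases ht x hx with hx' | hx' <;> rcases ht y hy with hy' | hy' <;>
      rcases ht z hz with hz' | hz'
    · rw [e1 x y (hx'.trans hy'.symm), e1 y z (hy'.trans hz'.symm), e1 x z (hx'.trans hz'.symm),
        add_zero]
    · rw [e1 x y (hx'.trans hy'.symm), zero_add, e2 y z x z (hy'.trans hx'.symm) rfl]
    · rw [e1 x z (hx'.trans hz'.symm), e2 y z y x rfl (hz'.trans hx'.symm), wtt_symm_Q f p q y x,
        two_add]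
    · rw [e1 y z (hy'.trans hz'.symm), add_zero, e2 x z x y rfl (hz'.trans hy'.symm)]
    · rw [e1 y z (hy'.trans hz'.symm), add_zero, e2 x z x y rfl (hz'.trans hy'.symm)]
    · rw [e1 x z (hx'.trans hz'.symm), e2 y z y x rfl (hz'.trans hx'.symm), wtt_symm_Q f p q y x,
        two_add]
    · rw [e1 x y (hx'.trans hy'.symm), zero_add, e2 y z x z (hy'.trans hx'.symm) rfl]
    · rw [e1 x y (hx'.trans hy'.symm), e1 y z (hy'.trans hz'.symm), e1 x z (hx'.trans hz'.symm),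
        add_zero]

/-- classes of `pl G M` from classes of `M` -/
private theorem span_Q {B M : Set V} {E : Type} [Fintype E] {w : E → V → V → ZMod 2}
    (hw : ∀ e, CocO G B (w e)) (hB : B ⊆ Mᶜ)
    (h : ∀ a ∈ Z1 G M, ∃ c : E → ZMod 2, Triv G M (a + lc c w))
    {a : Cq G → Cq G → ZMod 2} (ha : a ∈ Z1 (sd G) (pl G M)) :
    ∃ c : E → ZMod 2, Triv (sd G) (pl G M) (a + lc c (fun e => pw G (w e))) := by
  have h0 : mi G M ⊆ pl G M := mi_sub_pl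
  have ha' := rs_mem h0 ha
  obtain ⟨c, hc⟩ := h _ (dnc_mem ha')
  have hco : CocO G B (lc c w) := lc_symm c hw
  have t1 := Triv_dnc_add ha' hco.symm hco.zero hc
  have hd : Disjoint (pl G M) (mi G B) := by
    rw [Set.disjoint_left]
    rintro s ⟨x, hx, hxM⟩ hs
    exact hB (hs x hx) hxM
  have hz := hco.pw.rs_mem hd
  have hsum := (Z1 (sd G) (pl G M)).add_mem ha hz
  have t2 : Triv (sd G) (mi G M) (a + rs (sd G) (pl G M) (pw G (lc c w))) := by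
    refine t1.congr fun s t e => ?_
    simp only [Pi.add_apply]
    rw [rs_apply e, rs_apply (e.mono h0)]
  have t3 := (bt_Triv h0 subset_rfl hsum).2 t2
  refine ⟨c, t3.congr fun s t e => ?_⟩
  simp only [Pi.add_apply]
  rw [rs_apply e, lc_pw]

/-- the wall: `Fr_wall`, `Fr_Conn`; `split`: `fr_split`; `span`, `spanY`, `injY`: `a ∈ Z1 (pl G M)`, restrict to
`mi G M`, `dnc`, `Triv_dnc_add`, then back to `pl G M` by `bt_Triv` (the cochains `w c`, `wb b` are cocycles on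
`pl G Mᶜ`, `pl G M`); `top2_sd`; the rest as in `ScS.sd`; `inc1` from `rim` -/
theorem SpOK.scS [Finite V] (h : SpOK G e1 e2 inc Y M) : ScS (sd G) e1 e2 inc (Y.toSc G M) where
  neB := h.neB
  sph := sd_sph3 h.sph
  wall := (Fr_wall h.sph).swap
  cS := Fr_Conn h.sph h.cM h.cN
  cP := sd_Conn.2 h.cM
  cN := sd_Conn.2 h.cN
  split := by
    rw [toSc_X.1, toSc_X.2]
    exact fun c hc => fr_split h.sph hc
  ne := h.ne
  simple := h.simple
  graph := h.graph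
  top2 := by
    intro q hq
    obtain ⟨u, v, huv, ht⟩ := h.top2 (mx q) (fun hm => hq fun s hs x hx =>
      hm x (Cq.le_iff.1 (le_mx q hs) hx))
    exact ⟨u, v, huv, fun s hs => ht _ (Cq.le_iff.1 (le_mx q hs) (pk_mem s))⟩
  span := by
    rw [toSc_X.1]
    intro a ha
    refine span_Q (w := fun b => wtt Y.top (e1 b) (e2 b)) (fun b => wtt_co_Q (h.ne b) ?_) h.BsN
      h.span ha
    intro s hs
    obtain ⟨u, v, -, ht⟩ := h.top2 s hs
    exact ⟨u, v, ht⟩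
  spanY := by
    rw [toSc_X.2]
    intro a ha
    refine span_Q (B := M) (w := Y.w) (fun c => ?_) (compl_compl M).ge h.spanN ha
    exact ⟨(h.wco c).symm, (h.wco c).zero, fun s hs =>
      (h.wco c).coc s (fun hm => hs (mi_mono (h.BdM c) hm))⟩
  injY := by
    rw [toSc_X.2]
    intro a ha t
    have h0 : mi G Mᶜ ⊆ pl G Mᶜ := mi_sub_pl
    have ha' := rs_mem h0 ha
    have t1 : Triv (sd G) (mi G Y.Bs) (rs (sd G) (mi G Mᶜ) a) :=
      t.congr fun s t e => (rs_apply (e.mono (mi_mono h.BsN))).symm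
    have t2 := h.injN _ (dnc_mem ha') ((Triv_dnc ha' h.BsN).2 t1)
    have t3 := (Triv_dnc ha' subset_rfl).1 t2
    exact (bt_Triv h0 subset_rfl ha).2 (t3.congr fun s t e => rs_apply e)
  cBs := sd_Conn.2 h.cBs
  BsN := mi_mono h.BsN
  LvC := fun a => sd_Conn.2 (h.LvC a)
  LvL := fun a b => mi_mono (h.LvL a b)
  Lvt := fun a s hs => h.Lvt a _ (hs _ (pk_mem s))
  LeC := fun b => sd_Conn.2 (h.LeC b)
  LeP := fun b => mi_mono (h.LeM b)
  Let := fun b s hs => h.Let b _ (hs _ (pk_mem s))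
  Le1 := fun b => mi_mono (h.Le1 b)
  Le2 := fun b => mi_mono (h.Le2 b)
  LeL := fun b b' hb => mi_mono (h.LeL b b' hb)
  LrC := fun b => sd_Conn.2 (h.LrC b)
  LrP := fun b => mi_mono (h.LrM b)
  wco := fun c => (h.wco c).pw
  BdP := fun c => mi_mono (h.BdM c)
  BdL := fun b c hb => mi_mono (h.BdL b c hb)
  inc1 := by
    intro b
    obtain ⟨c, hc, -⟩ := h.rim b
    exact ⟨c, hc⟩
  inc0 := by
    intro b
    obtain ⟨c, hc, hn⟩ := h.inc0 b
    exact ⟨c, hc, fun t => hn ((Triv_pw (h.wco c).symm (h.wco c).zero).1 t)⟩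
  inc2 := h.inc2

theorem SpOK.scPar [Finite V] (h : SpOK G e1 e2 inc Y M) :
    ScPar (sd G) inc (Y.toSc G M) where
  par0 := by
    intro b c hb s t e
    rw [toSc_X.2] at e
    show Y.w c (pk s) (pk t) = 0
    rcases sd_adj.1 e.1 with h1 | h1
    · exact h.z0 b c hb t e.2.2.1 _ (Cq.le_iff.1 h1.le (pk_mem s)) _ (pk_mem t) e.2.1.2 e.2.2.2
    · exact h.z0 b c hb s e.2.1.1 _ (pk_mem s) _ (Cq.le_iff.1 h1.le (pk_mem t)) e.2.1.2 e.2.2.2
  par1 := by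
    intro b c c' hb hb'
    obtain ⟨f, hf⟩ := h.z1 b c c' hb hb'
    refine ⟨fun s => f (pk s), fun s t e => ?_⟩
    rw [toSc_X.2] at e
    show Y.w c (pk s) (pk t) + Y.w c' (pk s) (pk t) = f (pk s) + f (pk t)
    rcases sd_adj.1 e.1 with h1 | h1
    · exact hf t e.2.2.1 _ (Cq.le_iff.1 h1.le (pk_mem s)) _ (pk_mem t) e.2.1.2 e.2.2.2
    · exact hf s e.2.1.1 _ (pk_mem s) _ (Cq.le_iff.1 h1.le (pk_mem t)) e.2.1.2 e.2.2.2

private theorem fp_h71 (h : SpOK G e1 e2 inc Y M) {c : Cc} {q : Cq G} (hq : q ∈ pl G Mᶜ)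
    {x y z : V} (hx : x ∈ q.1) (hy : y ∈ q.1) (hz : z ∈ q.1) :
    Y.w c x y + Y.w c y z = Y.w c x z := by
  refine (h.wco c).coc q (fun hB => ?_) x hx y hy z hz
  obtain ⟨v, hv, hvM⟩ := hq
  exact hvM (h.BdM c (hB v hv))

private theorem ed_h71 {Z : Set (Cq G)} {s t : Cq G} (e : EIn (sd G) Z s t) :
    ∃ q ∈ Z, s.1 ⊆ q.1 ∧ t.1 ⊆ q.1 := by
  rcases sd_adj.1 e.1 with h | h
  · exact ⟨t, e.2.2, Cq.le_iff.1 h.le, Finset.Subset.refl _⟩
  · exact ⟨s, e.2.1, Finset.Subset.refl _, Cq.le_iff.1 h.le⟩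

/-- the piece of the plate on the wall.  `c` from `rim`.  If `w c` is trivial on `mi G (U b) ∩ Fr G M`, then
`w c` on `U b ∩ Mᶜ`, `0` on `U b ∩ M` glue to a class of `U b` (`glue0` with `D = U b` and `Mᶜ`; `pkm` against
`pk`: contiguous), which is trivial (`HZ`), so `w c` is trivial on `U b ∩ Mᶜ`, which contains the rim:
contradiction.  So `w c` is not trivial on some component `Z` (`Triv_of_comps`); for `c'` incident with `b` use
`z1` (`mi (U b) ∩ Fr M` is in the zone). -/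
theorem SpOK.U3 [Finite V] (h : SpOK G e1 e2 inc Y M) (b : Bc) :
    ∃ Z, Conn (sd G) Z ∧ Z ⊆ mi G (Y.U b) ∩ Fr G M ∧
      ∀ c, inc b c → ¬ Triv (sd G) Z (pw G (Y.w c)) := by
  obtain ⟨c0, hc0, hrim⟩ := h.rim b
  have hUZ : ∀ x ∈ Y.U b, x ∈ Y.Ze b := fun x hx => h.Unb b x hx x (Or.inl rfl)
  -- the class is not trivial on the whole intersection
  have hA : ¬ Triv (sd G) (mi G (Y.U b) ∩ Fr G M) (pw G (Y.w c0)) := by
    rintro ⟨f, hf⟩
    have hdis : Disjoint (Y.U b ∩ Mᶜ) (Y.Bd c0) := by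
      rw [Set.disjoint_left]
      rintro x ⟨-, hx⟩ hB
      exact hx (h.BdM c0 hB)
    have ha := (h.wco c0).rs_mem hdis
    have ht : Triv (sd G) (mi G (Y.U b) ∩ Fr G Mᶜ)
        (fun s t => rs G (Y.U b ∩ Mᶜ) (Y.w c0) (pkm Mᶜ s) (pkm Mᶜ t)) := by
      refine ⟨fun s => f s + Y.w c0 (pkm Mᶜ s) (pk s), fun s t e => ?_⟩
      have e' : EIn (sd G) (mi G (Y.U b) ∩ Fr G M) s t := by
        rw [Fr_compl] at e
        exact e
      have h1 := hf s t e'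
      obtain ⟨q, hq, hsq, htq⟩ := ed_h71 e'
      have hsC : s ∈ pl G Mᶜ := e'.2.1.2.2
      have htC : t ∈ pl G Mᶜ := e'.2.2.2.2
      have hqC : q ∈ pl G Mᶜ := hq.2.2
      have ps := pkm_mem hsC
      have pt := pkm_mem htC
      have k1 := fp_h71 h (c := c0) hqC (hsq ps.1) (hsq (pk_mem s)) (htq (pk_mem t))
      have k2 := fp_h71 h (c := c0) hqC (hsq ps.1) (htq (pk_mem t)) (htq pt.1)
      have k3 := (h.wco c0).symm (pk t) (pkm Mᶜ t)
      have k4 : rs G (Y.U b ∩ Mᶜ) (Y.w c0) (pkm Mᶜ s) (pkm Mᶜ t) =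
          Y.w c0 (pkm Mᶜ s) (pkm Mᶜ t) := by
        by_cases hk : pkm Mᶜ s = pkm Mᶜ t
        · rw [hk, (h.wco c0).zero]
          exact (mem_Z1.1 ha).1 _ _ (fun e => G.irrefl e.1)
        · refine rs_apply ⟨q.2.2 (Finset.mem_coe.2 (hsq ps.1)) (Finset.mem_coe.2 (htq pt.1)) hk,
            ⟨e'.2.1.1 _ ps.1, ps.2⟩, ⟨e'.2.2.1 _ pt.1, pt.2⟩⟩
      have h2 : Y.w c0 (pk s) (pk t) = f s + f t := h1
      show rs G (Y.U b ∩ Mᶜ) (Y.w c0) (pkm Mᶜ s) (pkm Mᶜ t) = _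
      rw [k4, ← k2, ← k1, k3, h2]
      have : ∀ p q r s : ZMod 2, p + (q + r) + s = q + p + (r + s) := by decide
      exact this _ _ _ _
    obtain ⟨w', hw', t1, -⟩ := glue0 ha ht
    have hz : HZ G (Y.U b) := by
      rw [← b1_eq_zero]
      have h3 := h.Ubb b
      unfold bb at h3
      omega
    have t2 : Triv G (Y.U b ∩ Mᶜ) w' := (hz w' hw').mono Set.inter_subset_left
    have t3 : Triv G (Y.U b ∩ Mᶜ) (Y.w c0) := by
      refine Triv_rs.1 ((t1.add t2).congr fun x y _ => ?_)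
      simp only [Pi.add_apply]
      rw [add_comm (w' x y) _, add_assoc, two_add, add_zero]
    exact hrim (t3.mono (Set.inter_subset_inter_right _ h.BsL))
  -- a component
  have hB : ∃ Z, IsComp (sd G) (mi G (Y.U b) ∩ Fr G M) Z ∧
      ¬ Triv (sd G) Z (pw G (Y.w c0)) := by
    by_contra hno
    push Not at hno
    exact hA (Triv_of_comps fun C hC => hno C hC)
  obtain ⟨Z, hZ, hZn⟩ := hB
  refine ⟨Z, hZ.conn, hZ.sub, fun c hc ht => hZn ?_⟩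
  obtain ⟨f, hf⟩ := h.z1 b c0 c hc0 hc
  have h1 : Triv (sd G) Z (pw G (Y.w c0) + pw G (Y.w c)) := by
    refine ⟨fun s => f (pk s), fun s t e => ?_⟩
    obtain ⟨q, hq, hsq, htq⟩ := ed_h71 e
    have hqF := hZ.sub hq
    exact hf q hqF.2.2 _ (hsq (pk_mem s)) _ (htq (pk_mem t))
      (hUZ _ (hqF.1 _ (hsq (pk_mem s)))) (hUZ _ (hqF.1 _ (htq (pk_mem t))))
  refine (h1.add ht).congr fun x y _ => ?_
  simp only [Pi.add_apply]
  rw [add_assoc, two_add, add_zero]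

private theorem wtt_symm_h16 (f : V → A) (p q : A) (x y : V) : wtt f p q x y = wtt f p q y x := by
  unfold wtt
  exact if_congr (by tauto) rfl rfl

private theorem wtt_self_h16 (f : V → A) {p q : A} (h : p ≠ q) (x : V) : wtt f p q x x = 0 := by
  unfold wtt
  rw [if_neg]
  rintro (⟨h1, h2⟩ | ⟨h1, h2⟩)
  · exact h (h1.symm.trans h2)
  · exact h (h2.symm.trans h1)

private theorem mi_dis_h16 {M N : Set V} (h : Disjoint M N) : Disjoint (mi G M) (mi G N) :=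
  Set.disjoint_left.2 fun s hs hs' =>
    Set.disjoint_left.1 h (hs _ (pk_mem s)) (hs' _ (pk_mem s))

private theorem mi_nadj_h16 {M N : Set V} (h : Disjoint M N) : NAdj (sd G) (mi G M) (mi G N) := by
  rintro s hs t ht (e | e)
  · exact Set.disjoint_left.1 h (hs _ (pk_mem s)) (ht _ (Cq.le_iff.1 e.le (pk_mem s)))
  · exact Set.disjoint_left.1 h (hs _ (Cq.le_iff.1 e.le (pk_mem t))) (ht _ (pk_mem t))

private theorem pk_nr_h16 {q : Cq (sd G)} {s z : Cq G} (hs : s ∈ q.1) (hz : z ∈ q.1) :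
    Nr G (pk s) (pk z) := by
  by_cases h : pk s = pk z
  · exact Or.inl h
  · have hne : s ≠ z := fun e => h (e ▸ rfl)
    rcases sd_adj.1 (q.2.2 (Finset.mem_coe.2 hs) (Finset.mem_coe.2 hz) hne) with h1 | h1
    · exact Or.inr (z.2.2 (Finset.mem_coe.2 (Cq.le_iff.1 h1.le (pk_mem s)))
        (Finset.mem_coe.2 (pk_mem z)) h)
    · exact Or.inr (s.2.2 (Finset.mem_coe.2 (pk_mem s))
        (Finset.mem_coe.2 (Cq.le_iff.1 h1.le (pk_mem z))) h)

/-- the plates: `loc`, `fro`: a clique of `sd G` with an element inside `U b` has all its vertices `pk z` in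
`Ze b` (`Unb`); `old` by definition -/
theorem SpOK.scU [Finite V] (h : SpOK G e1 e2 inc Y M) : ScU (sd G) e1 e2 inc (Y.toSc G M) where
  UC := fun b => sd_Conn.2 (h.UC b)
  UCc := fun b => by
    show Conn (MOT.sd G) (mi G (Y.U b))ᶜ
    rw [compl_mi]
    exact (bt_Conn mi_sub_pl subset_rfl).2 (h.UCc b)
  Ubb := fun b => (bt_bb subset_rfl mi_sub_pl).trans (h.Ubb b)
  Ud := fun b b' hb => ⟨mi_dis_h16 (h.Ud b b' hb).1, mi_nadj_h16 (h.Ud b b' hb).1⟩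
  UBs := fun b => mi_dis_h16 (h.UBs b)
  ULr := fun b => mi_dis_h16 (h.ULr b)
  U3 := fun b => h.U3 b
  U4 := by
    intro b
    have h1 : Triv (MOT.sd G) (mi G (Y.U b ∪ Y.Le b)) (pw G (wtt Y.top (e1 b) (e2 b))) :=
      (Triv_pw (wtt_symm_h16 _ _ _) (wtt_self_h16 _ (h.ne b))).2 (h.U4 b)
    refine Triv.mono ?_ h1
    rintro s (hs | hs)
    · exact fun x hx => Or.inl (hs x hx)
    · exact fun x hx => Or.inr (hs x hx)
  loc := by
    rintro b q ⟨s, hs, -, hU⟩ - z hz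
    exact h.Unb b _ (hU _ (pk_mem s)) _ (pk_nr_h16 hs hz)
  old := fun b q hq => ⟨q, hq, rfl⟩
  fro := by
    rintro b q ⟨⟨s, hs, hU⟩, -⟩ z hz
    exact h.ZeZf b (h.Unb b _ (hU _ (pk_mem s)) _ (pk_nr_h16 hs hz))

end MOT
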