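import Pool.Agent.MOT.ScQ
import Pool.Agent.MOT.ScEndD
import Pool.Agent.MOT.SaF
import Pool.Agent.MOT.SaA

/-!
# MOT/ScR: the edge side: `SpOK` from `BaseU`, `PltU` (helper73)
-/

open Classical

noncomputable section

namespace MOT

variable {Vc V : Type} {Gc : SimpleGraph Vc} {G : SimpleGraph V}

/-- the core without the middle of `e` -/
def LrE (b : BaseU Gc G) (e : Ec Gc) : Set V :=
  {x | (∃ v, x ∈ b.Lv v) ∨ (∃ e', e' ≠ e ∧ x ∈ b.Le e') ∨ ∃ s : Fc Gc, ¬ e.1 ⊆ s.1 ∧ x ∈ b.Lb s}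

/-- the data of the edge side -/
def spE (b : BaseU Gc G) (p : PltU b) : SpD V Vc (Ec Gc) (Fc Gc) where
  Bs := b.Bs
  BsL := b.BsL
  U := p.Ue
  Lv := b.Lv
  Le := b.Le
  Lr := LrE b
  Ze e := {x | e.q ∈ b.cr x}
  Zf e := b.Ns (nb Gc (e.1 : Set Vc))
  Bd := b.Bd
  top := b.top
  w := b.ws

variable [Finite Vc] [Fintype (Ec Gc)] [Fintype (Fc Gc)]

private theorem mi_mem_r90 {B : Set V} {s : Cq G} (h : s ∉ mi G B) : ¬ (s.1 : Set V) ⊆ B :=
  fun hsub => h fun v hv => hsub hv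

private theorem coco_r90 {B B' : Set V} {w : V → V → ZMod 2} (h : Coc G B w) (hB : B ⊆ B') :
    CocO G B' w :=
  ⟨h.sym, h.dia, fun s hs x hx y hy z hz =>
    h.coc (s.1 : Set V) s.2.2 (fun hsub => hs fun v hv => hB (hsub hv)) x hx y hy z hz⟩

private theorem cmb_lc_r90 {I : Type} [Fintype I] (A : I → ZMod 2) (w : I → V → V → ZMod 2) :
    cmb A w = lc A w := by
  funext x y
  exact finsum_eq_sum_of_fintype _

/-- the families of classes with the small cores (as `start_fam`, `start_fams` of SaS, now for `BaseU`) -/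
theorem BaseU.famE (b : BaseU Gc G) : Fam G b.B b.Bs (cutE Gc) b.we := by
  refine ⟨fun e => coco_r90 (b.we_coc e) ((b.Bde_Lbs e).trans (b.Lbs_Bs e)),
    fun A hA => b.lb_e A (by rw [cmb_lc_r90]; exact hA), ?_⟩
  rintro A ⟨f, hf⟩
  refine ⟨fun x => f (b.top x), fun s hs x hx y hy => ?_⟩
  obtain ⟨v, w, hvw, hall⟩ := b.top_cl (s.1 : Set V) s.2.2 (mi_mem_r90 hs)
  have hval : lc A b.we x y = ∑ e : Ec Gc, A e *
      (if b.top x ≠ b.top y ∧ b.top x ∈ e.1 ∧ b.top y ∈ e.1 then 1 else 0) := by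
    refine Finset.sum_congr rfl fun e _ => ?_
    rw [b.we_def e (s.1 : Set V) s.2.2 (mi_mem_r90 hs) x hx y hy]
  rw [hval]
  by_cases hne : b.top x = b.top y
  · have h0 : ∀ e : Ec Gc, A e *
        (if b.top x ≠ b.top y ∧ b.top x ∈ e.1 ∧ b.top y ∈ e.1 then (1 : ZMod 2) else 0) = 0 := by
      intro e
      rw [if_neg fun h => h.1 hne, mul_zero]
    rw [Finset.sum_congr rfl fun e _ => h0 e, Finset.sum_const_zero]
    simp only [hne, two_add]
  · have hadj : Gc.Adj (b.top x) (b.top y) := by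
      rcases hall x hx with h1 | h1 <;> rcases hall y hy with h2 | h2
      · exact absurd (h1.trans h2.symm) hne
      · rw [h1, h2]
        rcases hvw with h3 | h3
        · exact absurd (h1.trans (h3.trans h2.symm)) hne
        · exact h3
      · rw [h1, h2]
        rcases hvw with h3 | h3
        · exact absurd (h1.trans (h3.symm.trans h2.symm)) hne
        · exact h3.symm
      · exact absurd (h1.trans h2.symm) hne
    have hm1 : b.top x ∈ (mkE hadj).1 := show b.top x ∈ ({b.top x, b.top y} : Finset Vc) by simp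
    have hm2 : b.top y ∈ (mkE hadj).1 := show b.top y ∈ ({b.top x, b.top y} : Finset Vc) by simp
    rw [Finset.sum_eq_single (mkE hadj)]
    · rw [if_pos ⟨hne, hm1, hm2⟩, mul_one]
      exact hf (mkE hadj) _ _ hne hm1 hm2
    · intro e _ hee
      rw [if_neg, mul_zero]
      rintro ⟨-, h1, h2⟩
      exact hee (simple_e hne h1 h2 hm1 hm2)
    · intro h
      exact absurd (Finset.mem_univ _) h

/-- the value of `tt` off `B` -/
private theorem tet_r90 (b : BaseU Gc G) {Q : Set V} (hQ : G.IsClique Q) (hB : ¬ Q ⊆ b.B) {x : V}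
    (hx : x ∈ Q) : IsTet Gc (b.tt x) := by
  obtain ⟨v, w, -, hall⟩ := b.tt_cl Q hQ hB
  rcases hall x hx with h | h <;> rw [h]
  · exact v.2
  · exact w.2

private theorem tadj_r90 (b : BaseU Gc G) {Q : Set V} (hQ : G.IsClique Q) (hB : ¬ Q ⊆ b.B) {x y : V}
    (hx : x ∈ Q) (hy : y ∈ Q) (hne : b.tt x ≠ b.tt y) : TAdj (b.tt x) (b.tt y) := by
  obtain ⟨v, w, hvw, hall⟩ := b.tt_cl Q hQ hB
  refine ⟨hne, ?_⟩
  rcases hall x hx with h1 | h1 <;> rcases hall y hy with h2 | h2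
  · exact absurd (h1.trans h2.symm) hne
  · rw [h1, h2]
    rcases hvw with h3 | h3
    · exact absurd (h1.trans ((congrArg Subtype.val h3).trans h2.symm)) hne
    · exact h3.2
  · rw [h1, h2]
    rcases hvw with h3 | h3
    · exact absurd (h1.trans ((congrArg Subtype.val h3).symm.trans h2.symm)) hne
    · rw [Finset.inter_comm]; exact h3.2
  · exact absurd (h1.trans h2.symm) hne

/-- the common triangle -/
private theorem tri_r90 (b : BaseU Gc G) {Q : Set V} (hQ : G.IsClique Q) (hB : ¬ Q ⊆ b.B) {x y : V}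
    (hx : x ∈ Q) (hy : y ∈ Q) (hne : b.tt x ≠ b.tt y) :
    ∃ s : Fc Gc, s.1 = b.tt x ∩ b.tt y :=
  ⟨⟨b.tt x ∩ b.tt y, (tadj_r90 b hQ hB hx hy hne).2, (tet_r90 b hQ hB hx).2.subset
    (Finset.coe_subset.2 Finset.inter_subset_left)⟩, rfl⟩

/-- the value of `ws s` in terms of the common triangle -/
private theorem ws_tri_r90 (b : BaseU Gc G) {Q : Set V} (hQ : G.IsClique Q) (hB : ¬ Q ⊆ b.B)
    {x y : V} (hx : x ∈ Q) (hy : y ∈ Q) (hne : b.tt x ≠ b.tt y) {s0 : Fc Gc}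
    (h0 : s0.1 = b.tt x ∩ b.tt y) (s : Fc Gc) : b.ws s x y = if s0 = s then 1 else 0 := by
  rw [b.ws_def s Q hQ hB x hx y hy]
  by_cases h : s0 = s
  · subst h
    rw [if_pos rfl, if_pos]
    rw [h0]
    exact ⟨hne, Finset.inter_subset_left, Finset.inter_subset_right⟩
  · rw [if_neg h, if_neg]
    rintro ⟨-, h1, h2⟩
    apply h
    refine (Subtype.ext (Finset.eq_of_subset_of_card_le ?_ ?_)).symm
    · rw [h0]
      exact Finset.subset_inter h1 h2
    · rw [s.2.1]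
      exact s0.2.1.le

private theorem ws_eq_r90 (b : BaseU Gc G) {Q : Set V} (hQ : G.IsClique Q) (hB : ¬ Q ⊆ b.B)
    {x y : V} (hx : x ∈ Q) (hy : y ∈ Q) (he : b.tt x = b.tt y) (s : Fc Gc) :
    b.ws s x y = 0 := by
  rw [b.ws_def s Q hQ hB x hx y hy, if_neg fun h => h.1 he]

theorem BaseU.famF (hc : IsSph3 Gc) (b : BaseU Gc G) : Fam G b.Bs b.B (cutF Gc) b.ws := by
  refine ⟨fun e => coco_r90 (b.ws_coc e) ((b.Bd_Lb e).trans (b.Lb_B e)),
    fun A hA => b.lb_s A (by rw [cmb_lc_r90]; exact hA), ?_⟩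
  rintro A ⟨f, hf⟩
  refine ⟨fun x => if h : IsTet Gc (b.tt x) then f ⟨b.tt x, h⟩ else 0, fun s hs x hx y hy => ?_⟩
  have hB := mi_mem_r90 hs
  have htx := tet_r90 b s.2.2 hB hx
  have hty := tet_r90 b s.2.2 hB hy
  simp only [dif_pos htx, dif_pos hty]
  by_cases hne : b.tt x = b.tt y
  · have h1 : (⟨b.tt x, htx⟩ : Te Gc) = ⟨b.tt y, hty⟩ := Subtype.ext hne
    have h0 : lc A b.ws x y = 0 :=
      Finset.sum_eq_zero fun e _ => by rw [ws_eq_r90 b s.2.2 hB hx hy hne e, mul_zero]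
    rw [h0, h1, two_add]
  · obtain ⟨s0, h0⟩ := tri_r90 b s.2.2 hB hx hy hne
    have hval : lc A b.ws x y = ∑ e : Fc Gc, A e * (if s0 = e then 1 else 0) :=
      Finset.sum_congr rfl fun e _ => by rw [ws_tri_r90 b s.2.2 hB hx hy hne h0 e]
    rw [hval, Finset.sum_eq_single s0]
    · rw [if_pos rfl, mul_one]
      refine hf s0 _ _ (fun h => hne (congrArg Subtype.val h)) ?_ ?_
      · rw [h0]; exact Finset.inter_subset_left
      · rw [h0]; exact Finset.inter_subset_right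
    · intro e _ hee
      rw [if_neg (fun h => hee h.symm), mul_zero]
    · intro h
      exact absurd (Finset.mem_univ _) h

/-- admissible with the small cores -/
private theorem adm_small_r90 (b : BaseU Gc G) {M : Set V} {r : ℕ} (hM : Adm G b.BL b.BsL M r) :
    Adm G b.B b.Bs M r :=
  ⟨hM.cM, hM.cN, b.B_BL.trans hM.hB, b.Bs_BsL.trans hM.hBs, hM.hb⟩

/-- Betti numbers of the region of stage 1 -/
theorem adm_b1 [Finite V] (hc : IsSph3 Gc) (b : BaseU Gc G) {M : Set V}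
    (hM : Adm G b.BL b.BsL M (fq (cutE Gc) + fq (cutF Gc))) :
    b1 G M ≤ fq (cutE Gc) ∧ b1 G Mᶜ ≤ fq (cutF Gc) := by
  obtain ⟨h1, h2⟩ := Adm.b1_eq b.famE (b.famF hc) (adm_small_r90 b hM)
  exact ⟨h1.le, h2.le⟩

/-- off `Bs` the crossing cochain of `e` is the pull back by `top` -/
theorem we_wtt (b : BaseU Gc G) (e : Ec Gc) {q : Cq G} (hq : q ∉ mi G b.Bs) {x y : V}
    (hx : x ∈ q.1) (hy : y ∈ q.1) : b.we e x y = wtt b.top (cE1 e) (cE2 e) x y := by
  rw [b.we_def e (q.1 : Set V) q.2.2 (mi_mem_r90 hq) x hx y hy]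
  unfold wtt
  by_cases h : (b.top x = cE1 e ∧ b.top y = cE2 e) ∨ (b.top x = cE2 e ∧ b.top y = cE1 e)
  · rw [if_pos h, if_pos]
    rcases h with ⟨h1, h2⟩ | ⟨h1, h2⟩ <;> rw [h1, h2]
    · exact ⟨cE_ne e, cE_m1 e, cE_m2 e⟩
    · exact ⟨(cE_ne e).symm, cE_m2 e, cE_m1 e⟩
  · rw [if_neg h, if_neg]
    rintro ⟨h1, h2, h3⟩
    apply h
    rw [cE_eq e, Finset.mem_insert, Finset.mem_singleton] at h2 h3
    rcases h2 with h2 | h2 <;> rcases h3 with h3 | h3
    · exact absurd (h2.trans h3.symm) h1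
    · exact Or.inl ⟨h2, h3⟩
    · exact Or.inr ⟨h2, h3⟩
    · exact absurd (h2.trans h3.symm) h1

/-- `LrE b e` is connected: `cE_graph` for the function `v ↦ f on Lv v`; each `Lb s` is connected and contains
`Lv v`, `v ∈ s` (`Lv_Le`, `Le_Lb`) -/
theorem LrE_conn (hc : IsSph3 Gc) (b : BaseU Gc G) (e : Ec Gc) : Conn G (LrE b e) := by
  have hLv : ∀ v, b.Lv v ⊆ LrE b e := fun v x hx => Or.inl ⟨v, hx⟩
  rw [Conn_iff]
  refine ⟨⟨_, hLv (cE1 e) (b.Lv_c (cE1 e)).1.some_mem⟩, fun f hf => ?_⟩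
  have hcon : ∀ {A : Set V}, A ⊆ LrE b e → Conn G A → ∀ x ∈ A, ∀ y ∈ A, f x = f y :=
    fun hA hC x hx y hy => hC.const (fun u v huv => hf u v ⟨huv.1, hA huv.2.1, hA huv.2.2⟩) hx hy
  let g : Vc → ZMod 2 := fun v => f (b.Lv_c v).1.some
  have hLe : ∀ e', e' ≠ e → b.Le e' ⊆ LrE b e := fun e' he x hx => Or.inr (Or.inl ⟨e', he, hx⟩)
  have hLb : ∀ s : Fc Gc, ¬ e.1 ⊆ s.1 → b.Lb s ⊆ LrE b e := fun s hs x hx =>
    Or.inr (Or.inr ⟨s, hs, hx⟩)
  have hg : ∀ v w, g v = g w := by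
    refine cE_graph hc e g fun e' he => ?_
    exact hcon (hLe e' he) (b.Le_c e') _ (b.Lv_Le _ _ (cE_m1 e') (b.Lv_c (cE1 e')).1.some_mem) _
      (b.Lv_Le _ _ (cE_m2 e') (b.Lv_c (cE2 e')).1.some_mem)
  have hall : ∀ x ∈ LrE b e, ∃ v, f x = g v := by
    rintro x (⟨v, hx⟩ | ⟨e', he, hx⟩ | ⟨s, hs, hx⟩)
    · exact ⟨v, hcon (hLv v) (b.Lv_c v) x hx _ (b.Lv_c v).1.some_mem⟩
    · exact ⟨cE1 e', hcon (hLe e' he) (b.Le_c e') x hx _
        (b.Lv_Le _ _ (cE_m1 e') (b.Lv_c (cE1 e')).1.some_mem)⟩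
    · obtain ⟨v, w, hvw, hv, hw⟩ : ∃ v w : Vc, v ≠ w ∧ v ∈ s.1 ∧ w ∈ s.1 := by
        obtain ⟨v, w, h1, h2, h3⟩ := Finset.one_lt_card_iff.1 (by rw [s.2.1]; norm_num : 1 < s.1.card)
        exact ⟨v, w, h3, h1, h2⟩
      have had : Gc.Adj v w := s.2.2 (Finset.mem_coe.2 hv) (Finset.mem_coe.2 hw) hvw
      have hsub : (mkE had).1 ⊆ s.1 := by
        intro z hz
        have hz' : z ∈ ({v, w} : Finset Vc) := hz
        rw [Finset.mem_insert, Finset.mem_singleton] at hz'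
        rcases hz' with rfl | rfl
        · exact hv
        · exact hw
      have hv' : v ∈ (mkE had).1 := show v ∈ ({v, w} : Finset Vc) by simp
      exact ⟨v, hcon (hLb s hs) (b.Lb_c s) x hx _
        (b.Le_Lb _ _ hsub (b.Lv_Le _ _ hv' (b.Lv_c v).1.some_mem))⟩
  intro x hx y hy
  obtain ⟨v, hv⟩ := hall x hx
  obtain ⟨w, hw⟩ := hall y hy
  rw [hv, hw, hg v w]

/-- `z0`, `z1` for the edge side: a simplex `q` meeting `Mᶜ` has no vertex in `NTs` (all neighbours of `NTs`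
are in `BL ⊆ M`) and is not inside `B`; `e ≤ cr x` gives `e ⊆ tt x` (`cr_tt`); `ws_def`, `tt_cl`; `around_e` -/
theorem spE_z (hc : IsSph3 Gc) (b : BaseU Gc G) (hn : ∀ x ∈ b.NTs, ∀ y, Nr G x y → y ∈ b.BL)
    {M : Set V} (hB : b.BL ⊆ M) (e : Ec Gc) :
    (∀ s : Fc Gc, ¬ e.1 ⊆ s.1 → ∀ q ∈ pl G Mᶜ, ∀ x ∈ q.1, ∀ y ∈ q.1, e.q ∈ b.cr x →
      e.q ∈ b.cr y → b.ws s x y = 0) ∧
    ∀ s s' : Fc Gc, e.1 ⊆ s.1 → e.1 ⊆ s'.1 → ∃ f : V → ZMod 2, ∀ q ∈ pl G Mᶜ, ∀ x ∈ q.1,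
      ∀ y ∈ q.1, e.q ∈ b.cr x → e.q ∈ b.cr y → b.ws s x y + b.ws s' x y = f x + f y := by
  have hNr : ∀ (q : Cq G), ∀ x ∈ q.1, ∀ y ∈ q.1, Nr G x y := by
    intro q x hx y hy
    by_cases h : x = y
    · exact Or.inl h
    · exact Or.inr (q.2.2 (Finset.mem_coe.2 hx) (Finset.mem_coe.2 hy) h)
  have hq : ∀ q ∈ pl G Mᶜ, ¬ (q.1 : Set V) ⊆ b.B := by
    rintro q ⟨z, hz, hzM⟩ hsub
    exact hzM (hB (b.B_BL (hsub hz)))
  have hsub : ∀ q ∈ pl G Mᶜ, ∀ x ∈ q.1, e.q ∈ b.cr x → e.1 ⊆ b.tt x := by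
    rintro q ⟨z, hz, hzM⟩ x hx hex
    exact b.cr_tt x (fun hN => hzM (hB (hn x hN z (hNr q x hx z hz)))) e.q hex
  refine ⟨fun s hs q hqM x hx y hy hex hey => ?_, fun s s' hs hs' => ?_⟩
  · by_cases hne : b.tt x = b.tt y
    · exact ws_eq_r90 b q.2.2 (hq q hqM) hx hy hne s
    · obtain ⟨s0, h0⟩ := tri_r90 b q.2.2 (hq q hqM) hx hy hne
      rw [ws_tri_r90 b q.2.2 (hq q hqM) hx hy hne h0 s, if_neg]
      rintro rfl
      apply hs
      rw [h0]
      exact Finset.subset_inter (hsub q hqM x hx hex) (hsub q hqM y hy hey)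
  · obtain ⟨f, hf⟩ := around_e hc e s s' hs hs'
    refine ⟨fun x => if h : IsTet Gc (b.tt x) then f ⟨b.tt x, h⟩ else 0,
      fun q hqM x hx y hy hex hey => ?_⟩
    have hQ := hq q hqM
    have htx := tet_r90 b q.2.2 hQ hx
    have hty := tet_r90 b q.2.2 hQ hy
    simp only [dif_pos htx, dif_pos hty]
    by_cases hne : b.tt x = b.tt y
    · have h1 : (⟨b.tt x, htx⟩ : Te Gc) = ⟨b.tt y, hty⟩ := Subtype.ext hne
      rw [ws_eq_r90 b q.2.2 hQ hx hy hne s, ws_eq_r90 b q.2.2 hQ hx hy hne s', h1]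
      exact (add_zero 0).trans (two_add _).symm
    · obtain ⟨s0, h0⟩ := tri_r90 b q.2.2 hQ hx hy hne
      rw [ws_tri_r90 b q.2.2 hQ hx hy hne h0 s, ws_tri_r90 b q.2.2 hQ hx hy hne h0 s']
      refine (hf s0 ⟨b.tt x, htx⟩ ⟨b.tt y, hty⟩ (fun h => hne (congrArg Subtype.val h)) ?_ ?_ ?_).symm
      · rw [h0]
        exact Finset.subset_inter (hsub q hqM x hx hex) (hsub q hqM y hy hey)
      · rw [h0]; exact Finset.inter_subset_left
      · rw [h0]; exact Finset.inter_subset_right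

/-- INSTANCE for the edges -/
theorem spE_ok [Finite V] (hc : IsSph3 Gc) (hG : IsSph3 G) (b : BaseU Gc G) (p : PltU b)
    (hn : ∀ x ∈ b.NTs, ∀ y, Nr G x y → y ∈ b.BL) {M : Set V}
    (hM : Adm G b.BL b.BsL M (fq (cutE Gc) + fq (cutF Gc))) :
    SpOK G cE1 cE2 (fun e s => e.1 ⊆ s.1) (spE b p) M := by
  have hs := adm_small_r90 b hM
  have hb := adm_b1 hc b hM
  have hdM : Disjoint M b.Bs := Set.disjoint_right.2 fun x hx hxM => hs.hBs hx hxM
  have hdN : Disjoint Mᶜ b.B := Set.disjoint_right.2 fun x hx hxM => hxM (hs.hB hx)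
  obtain ⟨v0, -⟩ := hc.conn.1
  have htopU : ∀ (e : Ec Gc), ∀ x ∈ p.Ue e, b.top x ∈ e.1 := fun e x hx =>
    b.cr_top x (p.Ue_NT e x hx x (Nr.refl x)) e.q (p.Ue_cr e x hx x (Nr.refl x))
  have hLrB : ∀ e, LrE b e ⊆ b.B := by
    rintro e x (⟨v, hx⟩ | ⟨e', -, hx⟩ | ⟨s, -, hx⟩)
    · obtain ⟨e', he'⟩ := v_e hc v
      exact b.Le_B e' (b.Lv_Le v e' he' hx)
    · exact b.Le_B e' hx
    · exact b.Lb_B s hx
  refine
    { neB := ⟨(v_e hc v0).choose⟩
      sph := hG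
      cM := hM.cM
      cN := hM.cN
      ne := cE_ne
      simple := cE_simple
      graph := fun e f hf => cE_graph hc e f hf
      top2 := ?_
      span := ?_
      spanN := ?_
      injN := ?_
      cBs := b.cBs
      BsN := hs.hBs
      BsL := hM.hBs
      LvC := b.Lv_c
      LvL := fun a e x hx => Or.inl ⟨a, hx⟩
      Lvt := fun a x hx => (b.Lv_top a x hx).1
      LeC := b.Le_c
      LeM := fun e => (b.Le_B e).trans hs.hB
      Let := ?_
      Le1 := fun e => b.Lv_Le _ _ (cE_m1 e)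
      Le2 := fun e => b.Lv_Le _ _ (cE_m2 e)
      LeL := fun e e' he x hx => Or.inr (Or.inl ⟨e, he, hx⟩)
      LrC := LrE_conn hc b
      LrM := fun e => (hLrB e).trans hs.hB
      wco := fun s => coco_r90 (b.ws_coc s) subset_rfl
      BdM := fun s => (b.Bd_Lb s).trans ((b.Lb_B s).trans hs.hB)
      BdL := fun e s he x hx => Or.inr (Or.inr ⟨s, he, b.Bd_Lb s hx⟩)
      inc0 := ?_
      inc2 := ?_
      UC := p.Ue_c
      UCc := p.Ue_cc
      Ubb := p.Ue_bb
      Ud := p.Ue_dis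
      UBs := fun e => (p.Ue_Bs e).1
      ULr := ?_
      U4 := ?_
      Unb := fun e x hx y hy => p.Ue_cr e x hx y hy
      ZeZf := ?_
      rim := p.rim_e
      z0 := fun e s hes q hq x hx y hy hex hey =>
        (spE_z hc b hn hM.hB e).1 s hes q hq x hx y hy hex hey
      z1 := fun e s s' h1 h2 => (spE_z hc b hn hM.hB e).2 s s' h1 h2 }
  · intro q hq
    obtain ⟨v, w, hvw, hall⟩ := b.top_cl (q.1 : Set V) q.2.2 (mi_mem_r90 hq)
    refine ⟨v, w, hvw.imp id fun h => ⟨mkE h, ?_⟩, hall⟩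
    have h1 := cE_eq (mkE h)
    have h2 : ((mkE h).1 : Set Vc) = {v, w} := by
      show ((({v, w} : Finset Vc)) : Set Vc) = {v, w}
      simp
    rw [← h2, h1]
    simp
  · intro a ha
    obtain ⟨A, hA⟩ := b.famE.span hs.hB hdM hb.1 ha
    refine ⟨A, hA.congr fun x y hxy => ?_⟩
    simp only [Pi.add_apply]
    congr 1
    refine Finset.sum_congr rfl fun e _ => ?_
    congr 1
    refine we_wtt b e (q := eg G hxy.1) ?_ ?_ ?_
    · intro hmi
      exact Set.disjoint_left.1 hdM hxy.2.1 (hmi x (by simp [eg]))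
    · simp [eg]
    · simp [eg]
  · intro a ha
    exact (b.famF hc).span hs.hBs hdN hb.2 ha
  · exact (b.famF hc).inj hs.hBs hdN hb.2
  · intro e x hx
    have h1 := b.Le_top e x hx
    rw [cE_eq e, Finset.mem_insert, Finset.mem_singleton] at h1
    exact h1
  · intro e
    obtain ⟨s, hs'⟩ := e_not_s hc e
    refine ⟨s, hs', fun ht => ?_⟩
    obtain ⟨f, hf⟩ := b.lb_s (fun s' => if s' = s then 1 else 0) (by
      rw [cmb_lc_r90]
      refine Triv.congr ht fun x y _ => ?_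
      unfold lc
      rw [Finset.sum_eq_single s]
      · show b.ws s x y = (if s = s then 1 else 0) * b.ws s x y
        rw [if_pos rfl, one_mul]
      · intro s' _ hne
        show (if s' = s then 1 else 0) * b.ws s' x y = 0
        rw [if_neg hne, zero_mul]
      · intro h
        exact absurd (Finset.mem_univ _) h)
    have hg := cS_graph hc s f fun s' hne => by
      have h1 := hf s' (cS1 hc s') (cS2 hc s') (cS_ne hc s') (cS_sub1 hc s') (cS_sub2 hc s')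
      simp only [if_neg hne] at h1
      exact (z2_eq _ _).1 h1.symm
    have h1 := hf s (cS1 hc s) (cS2 hc s) (cS_ne hc s) (cS_sub1 hc s) (cS_sub2 hc s)
    simp only [if_pos] at h1
    rw [hg (cS1 hc s) (cS2 hc s), two_add] at h1
    exact one_ne_zero h1
  · intro e e' hne
    obtain ⟨v, hv, hv'⟩ : ∃ v ∈ e.1, v ∉ e'.1 := by
      by_contra hcon
      push Not at hcon
      exact hne (Subtype.ext (Finset.eq_of_subset_of_card_le hcon (by rw [e.2.1, e'.2.1])))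
    obtain ⟨s, h1, h2⟩ := s_no_v hc e' v hv'
    exact ⟨s, h1, fun h => h2 (h hv)⟩
  · intro e
    refine Set.disjoint_left.2 ?_
    rintro x hx (⟨v, hv⟩ | ⟨e', he', hv⟩ | ⟨s, hes, hv⟩)
    · exact Set.disjoint_left.1 (p.Ue_Lv e v) hx hv
    · exact Set.disjoint_left.1 (p.Ue_Le e e' he'.symm) hx hv
    · exact Set.disjoint_left.1 (p.Ue_Lb e s hes) hx hv
  · intro e
    have htop : ∀ x ∈ p.Ue e ∪ b.Le e, b.top x = cE1 e ∨ b.top x = cE2 e := by
      intro x hx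
      have h1 : b.top x ∈ e.1 := by
        rcases hx with hx | hx
        · exact htopU e x hx
        · exact b.Le_top e x hx
      rw [cE_eq e, Finset.mem_insert, Finset.mem_singleton] at h1
      exact h1
    refine ⟨fun x => if b.top x = cE1 e then 1 else 0, fun x y hxy => ?_⟩
    have hne := cE_ne e
    show wtt b.top (cE1 e) (cE2 e) x y = _
    unfold wtt
    rcases htop x hxy.2.1 with h1 | h1 <;> rcases htop y hxy.2.2 with h2 | h2 <;>
      simp only [h1, h2, hne, hne.symm, if_true, if_false, and_true, and_false, or_false, false_or,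
        true_and, false_and, or_true, true_or, or_self, and_self]
    · exact (two_add 1).symm
    · exact (add_zero 1).symm
    · exact (zero_add 1).symm
    · exact (add_zero 0).symm
  · intro e x hx
    exact ⟨e.q, hx, fun v hv => ⟨v, hv, Nr.refl v⟩⟩

end MOT
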