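import Pool.Agent.MOT.Sf1
import Pool.Agent.MOT.Flp
import Pool.Agent.MOT.Joi

/-!
# MOT/Sf2: the circles of a piece of a surface
-/

open Classical

noncomputable section

namespace MOT

variable {V : Type} {G : SimpleGraph V} {A B M S P : Set V}

/-! ## the part of the subdivided surface over `P` -/

theorem prt_btw (hP : P ⊆ S) : mi G P ⊆ mi G S ∩ pl G P ∧ mi G S ∩ pl G P ⊆ pl G P :=
  ⟨fun _ hs => ⟨mi_mono hP hs, mi_sub_pl hs⟩, Set.inter_subset_right⟩

/-- triangles around a vertex of a surface -/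
theorem around [Finite V] (hS : Surf G S) {v : V} (hv : v ∈ S) (T : Finset V → ZMod 2)
    (h : ∀ y z z', EIn G S v y → z ∈ Lk G {v, y} ∩ S → z' ∈ Lk G {v, y} ∩ S →
      T {v, y, z} = T {v, y, z'}) {y z y' z' : V} (e : EIn G S v y)
    (hz : z ∈ Lk G {v, y} ∩ S) (e' : EIn G S v y') (hz' : z' ∈ Lk G {v, y'} ∩ S) :
    T {v, y, z} = T {v, y', z'} := by
  have hg : ∃ g : V → ZMod 2, ∀ y z, EIn G S v y → z ∈ Lk G {v, y} ∩ S → g y = T {v, y, z} := by
    refine ⟨fun y => if h : (Lk G {v, y} ∩ S).Nonempty then T {v, y, h.some} else 0, ?_⟩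
    intro y z e hz
    have hne : (Lk G {v, y} ∩ S).Nonempty := ⟨z, hz⟩
    show dite _ _ _ = _
    rw [dif_pos hne]
    exact h y _ _ e hne.some_mem hz
  obtain ⟨g, hg⟩ := hg
  rw [← hg y z e hz, ← hg y' z' e' hz']
  have hlk := hS.lk v hv
  refine hlk.1.const (f := g) ?_ ⟨fun u hu => ?_, e.2.2⟩ ⟨fun u hu => ?_, e'.2.2⟩
  · intro u w euw
    have hu : G.Adj v u := euw.2.1.1 v rfl
    have hw : G.Adj v w := euw.2.2.1 v rfl
    have h1 : w ∈ Lk G {v, u} ∩ S := ⟨by
      intro r hr
      rcases hr with rfl | hr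
      · exact hw
      · rw [Set.mem_singleton_iff] at hr; subst hr; exact euw.1, euw.2.2.2⟩
    have h2 : u ∈ Lk G {v, w} ∩ S := ⟨by
      intro r hr
      rcases hr with rfl | hr
      · exact hu
      · rw [Set.mem_singleton_iff] at hr; subst hr; exact euw.1.symm, euw.2.1.2⟩
    rw [hg u w ⟨hu, hv, euw.2.1.2⟩ h1, hg w u ⟨hw, hv, euw.2.2.2⟩ h2, pair_comm3']
  · rw [Set.mem_singleton_iff] at hu; subst hu; exact e.1
  · rw [Set.mem_singleton_iff] at hu; subst hu; exact e'.1

/-- in a chain of the part over `P` the smaller of two elements that are not both mixed lies in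
`P` -/
theorem small_in (hP : P ⊆ S) {s t : Cq G} (a : s < t) (hs : s ∈ mi G S ∩ pl G P)
    (ht : t ∈ mi G S ∩ pl G P) (hn : ¬ (s ∈ FrIn G S P ∧ t ∈ FrIn G S P)) : s ∈ mi G P := by
  intro x hx
  by_contra hxP
  obtain ⟨y, hy, hyP⟩ := hs.2
  exact hn ⟨⟨⟨hs.1, y, hy, hyP⟩, x, hx, hxP⟩, ⟨ht.1, y, (Cq.lt_iff.1 a).1 hy, hyP⟩, x,
    (Cq.lt_iff.1 a).1 hx, hxP⟩

theorem third_in (hP : P ⊆ S) {s t u : Cq G} (a : (sd G).Adj s t) (hs : s ∈ mi G S ∩ pl G P)
    (ht : t ∈ mi G S ∩ pl G P) (hn : ¬ (s ∈ FrIn G S P ∧ t ∈ FrIn G S P))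
    (hu : u ∈ Lk (sd G) {s, t} ∩ mi G S) : u ∈ mi G S ∩ pl G P := by
  refine ⟨hu.2, ?_⟩
  have key : ∀ s t : Cq G, s < t → s ∈ mi G S ∩ pl G P → t ∈ mi G S ∩ pl G P →
      ¬ (s ∈ FrIn G S P ∧ t ∈ FrIn G S P) → (sd G).Adj s u → u ∈ pl G P := by
    intro s t a hs ht hn hsu
    have h1 := small_in hP a hs ht hn
    rcases hsu with b | b
    · obtain ⟨x, hx⟩ := s.2.1
      exact ⟨x, (Cq.lt_iff.1 b).1 hx, h1 x hx⟩
    · obtain ⟨x, hx⟩ := u.2.1
      exact ⟨x, hx, h1 x ((Cq.lt_iff.1 b).1 hx)⟩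
  rcases a with a | a
  · exact key s t a hs ht hn (hu.1 s (by simp))
  · exact key t s a ht hs (fun h => hn ⟨h.2, h.1⟩) (hu.1 t (by simp))

/-- strong connectivity of the part over a connected set `P` through edges not in the frontier -/
theorem prt_strong [Finite V] (hS : Surf G S) (hP : P ⊆ S) (hc : Conn G P)
    (T : Finset (Cq G) → ZMod 2)
    (hT : ∀ s t u u', EIn (sd G) (mi G S ∩ pl G P) s t →
      ¬ (s ∈ FrIn G S P ∧ t ∈ FrIn G S P) →
      u ∈ Lk (sd G) {s, t} ∩ mi G S → u' ∈ Lk (sd G) {s, t} ∩ mi G S →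
      T {s, t, u} = T {s, t, u'}) :
    ∃ c, ∀ s t u, EIn (sd G) (mi G S ∩ pl G P) s t → u ∈ Lk (sd G) {s, t} ∩ (mi G S ∩ pl G P) →
      T {s, t, u} = c := by
  have hS' := surf_sd hS
  -- the vertex simplices
  have hvS : ∀ x ∈ P, vx G x ∈ mi G S ∩ pl G P := by
    intro x hx
    refine ⟨fun y hy => ?_, x, by simp [vx], hx⟩
    have : y ∈ ({x} : Finset V) := hy
    rw [Finset.mem_singleton] at this; subst this; exact hP hx
  have hvF : ∀ x, vx G x ∉ FrIn G S P := by
    rintro x ⟨⟨-, y, hy, hyP⟩, z, hz, hzP⟩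
    have h1 : y ∈ ({x} : Finset V) := hy
    have h2 : z ∈ ({x} : Finset V) := hz
    rw [Finset.mem_singleton] at h1 h2
    subst h1; subst h2; exact hzP hyP
  -- neighbours of a vertex simplex of `P` in `mi S` lie over `P`
  have hnb : ∀ x ∈ P, ∀ t, EIn (sd G) (mi G S) (vx G x) t → vx G x < t ∧ t ∈ mi G S ∩ pl G P := by
    intro x hx t e
    have h1 : vx G x < t := by
      rcases e.1 with a | a
      · exact a
      · exfalso
        have h1 := Finset.card_lt_card (Cq.lt_iff.1 a)
        have h2 : (vx G x).1.card = 1 := Finset.card_singleton x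
        have h3 := Finset.card_pos.2 t.2.1
        omega
    refine ⟨h1, e.2.2, x, (Cq.lt_iff.1 h1).1 ?_, hx⟩
    show x ∈ ({x} : Finset V)
    simp
  have hloc : ∀ x ∈ P, ∀ y z y' z', EIn (sd G) (mi G S) (vx G x) y →
      z ∈ Lk (sd G) {vx G x, y} ∩ mi G S → EIn (sd G) (mi G S) (vx G x) y' →
      z' ∈ Lk (sd G) {vx G x, y'} ∩ mi G S → T {vx G x, y, z} = T {vx G x, y', z'} := by
    intro x hx y z y' z' e hz e' hz'
    refine around hS' (hvS x hx).1 T ?_ e hz e' hz'
    intro y z z' e hz hz'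
    exact hT _ _ _ _ ⟨e.1, hvS x hx, (hnb x hx y e).2⟩ (fun h => hvF x h.1) hz hz'
  -- value at a vertex
  have hf : ∃ f : V → ZMod 2, ∀ x ∈ P, ∀ y z, EIn (sd G) (mi G S) (vx G x) y →
      z ∈ Lk (sd G) {vx G x, y} ∩ mi G S → T {vx G x, y, z} = f x := by
    refine ⟨fun x => if h : ∃ y z, EIn (sd G) (mi G S) (vx G x) y ∧
      z ∈ Lk (sd G) {vx G x, y} ∩ mi G S then T {vx G x, h.choose, h.choose_spec.choose} else 0,
      ?_⟩
    intro x hx y z e hz
    have h : ∃ y z, EIn (sd G) (mi G S) (vx G x) y ∧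
      z ∈ Lk (sd G) {vx G x, y} ∩ mi G S := ⟨y, z, e, hz⟩
    show _ = dite _ _ _
    rw [dif_pos h]
    exact hloc x hx _ _ _ _ e hz h.choose_spec.choose_spec.1 h.choose_spec.choose_spec.2
  obtain ⟨f, hf⟩ := hf
  have hfc : ∀ x y, EIn G P x y → f x = f y := by
    intro x y e
    have exy : EIn G S x y := e.mono hP
    obtain ⟨z, hz⟩ := hS.edge_ne exy
    have hcl : G.IsClique (({x, y, z} : Finset V) : Set V) :=
      clique_insert (s := {y, z}) (clique_insert (s := {z}) (by simp)
        (by simpa using hz.1 y (by simp))) (by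
          intro v hv
          simp only [Finset.mem_insert, Finset.mem_singleton] at hv
          rcases hv with rfl | rfl
          · exact e.1
          · exact hz.1 x (by simp))
    let t : Cq G := ⟨{x, y, z}, ⟨x, by simp⟩, hcl⟩
    let s : Cq G := eg G e.1
    have hsval : s.1 = {x, y} := rfl
    have htval : t.1 = {x, y, z} := rfl
    have hzx : z ≠ x := fun h => G.irrefl (h ▸ hz.1 x (by simp))
    have hzy : z ≠ y := fun h => G.irrefl (h ▸ hz.1 y (by simp))
    have hst : s < t := by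
      rw [Cq.lt_iff, hsval, htval, Finset.ssubset_iff_subset_ne]
      refine ⟨fun v hv => ?_, fun h => ?_⟩
      · simp only [Finset.mem_insert, Finset.mem_singleton] at hv ⊢
        tauto
      · have : z ∈ ({x, y} : Finset V) := by rw [h]; simp
        simp only [Finset.mem_insert, Finset.mem_singleton] at this
        tauto
    have hxs : vx G x < s := by
      rw [Cq.lt_iff, hsval, Finset.ssubset_iff_subset_ne]
      refine ⟨fun v hv => ?_, fun h => ?_⟩
      · have : v ∈ ({x} : Finset V) := hv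
        rw [Finset.mem_singleton] at this; subst this; simp
      · have : y ∈ ({x} : Finset V) := by
          have h' : ({x} : Finset V) = {x, y} := h
          rw [h']; simp
        rw [Finset.mem_singleton] at this
        exact e.1.ne this.symm
    have hys : vx G y < s := by
      rw [Cq.lt_iff, hsval, Finset.ssubset_iff_subset_ne]
      refine ⟨fun v hv => ?_, fun h => ?_⟩
      · have : v ∈ ({y} : Finset V) := hv
        rw [Finset.mem_singleton] at this; subst this; simp
      · have : x ∈ ({y} : Finset V) := by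
          have h' : ({y} : Finset V) = {x, y} := h
          rw [h']; simp
        rw [Finset.mem_singleton] at this
        exact e.1.ne this
    have hsP : s ∈ mi G P := by
      intro v hv
      rw [hsval] at hv
      simp only [Finset.mem_insert, Finset.mem_singleton] at hv
      rcases hv with rfl | rfl
      · exact e.2.1
      · exact e.2.2
    have hsS : s ∈ mi G S ∩ pl G P := ⟨mi_mono hP hsP, mi_sub_pl hsP⟩
    have htS : t ∈ mi G S ∩ pl G P := by
      refine ⟨fun v hv => ?_, x, by rw [htval]; simp, e.2.1⟩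
      rw [htval] at hv
      simp only [Finset.mem_insert, Finset.mem_singleton] at hv
      rcases hv with rfl | rfl | rfl
      · exact exy.2.1
      · exact exy.2.2
      · exact hz.2
    have hsF : s ∉ FrIn G S P := by
      rintro ⟨-, v, hv, hvP⟩
      exact hvP (hsP v hv)
    have hxt : vx G x < t := hxs.trans hst
    have hyt : vx G y < t := hys.trans hst
    have hlx : vx G x ∈ Lk (sd G) {s, t} ∩ mi G S := ⟨by
      intro r hr
      rcases hr with rfl | hr
      · exact Or.inr hxs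
      · rw [Set.mem_singleton_iff] at hr; subst hr; exact Or.inr hxt, (hvS x e.2.1).1⟩
    have hly : vx G y ∈ Lk (sd G) {s, t} ∩ mi G S := ⟨by
      intro r hr
      rcases hr with rfl | hr
      · exact Or.inr hys
      · rw [Set.mem_singleton_iff] at hr; subst hr; exact Or.inr hyt, (hvS y e.2.2).1⟩
    have h1 := hT s t _ _ ⟨Or.inl hst, hsS, htS⟩ (fun h => hsF h.1) hlx hly
    have r : ∀ a : Cq G, ({s, t, a} : Finset (Cq G)) = {a, s, t} := by
      intro a; ext v; simp only [Finset.mem_insert, Finset.mem_singleton]; tauto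
    rw [r, r] at h1
    have h2 := hf x e.2.1 s t ⟨Or.inl hxs, (hvS x e.2.1).1, hsS.1⟩ ⟨by
      intro r hr
      rcases hr with rfl | hr
      · exact Or.inl hxt
      · rw [Set.mem_singleton_iff] at hr; subst hr; exact Or.inl hst, htS.1⟩
    have h3 := hf y e.2.2 s t ⟨Or.inl hys, (hvS y e.2.2).1, hsS.1⟩ ⟨by
      intro r hr
      rcases hr with rfl | hr
      · exact Or.inl hyt
      · rw [Set.mem_singleton_iff] at hr; subst hr; exact Or.inl hst, htS.1⟩
    rw [← h2, ← h3]; exact h1
  obtain ⟨x0, hx0⟩ := hc.1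
  refine ⟨f x0, ?_⟩
  intro s t u e hu
  -- the triangle contains a vertex simplex of `P`
  have hcl : (sd G).IsClique (({s, t, u} : Finset (Cq G)) : Set (Cq G)) :=
    clique_insert (s := {t, u}) (clique_insert (s := {u}) (by simp)
      (by simpa using hu.1 t (by simp))) (by
        intro v hv
        simp only [Finset.mem_insert, Finset.mem_singleton] at hv
        rcases hv with rfl | rfl
        · exact e.1
        · exact hu.1 s (by simp))
  have hne1 : s ≠ t := e.1.ne
  have hne2 : s ≠ u := (hu.1 s (by simp)).ne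
  have hne3 : t ≠ u := (hu.1 t (by simp)).ne
  have hmem : ∀ r ∈ ({s, t, u} : Finset (Cq G)), r ∈ mi G S ∩ pl G P := by
    intro r hr
    simp only [Finset.mem_insert, Finset.mem_singleton] at hr
    rcases hr with rfl | rfl | rfl
    · exact e.2.1
    · exact e.2.2
    · exact hu.2
  obtain ⟨b, hb, hbot⟩ := chain_bot _ hcl ⟨s, by simp⟩
  have hcards : ∀ r ∈ ({s, t, u} : Finset (Cq G)), r.1.card ≤ 3 := fun r hr =>
    hS.card_le (hmem r hr).1
  have hbc : b.1.card = 1 := by
    have h0 := Finset.card_pos.2 b.2.1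
    have d : ∀ r ∈ ({s, t, u} : Finset (Cq G)), r ≠ b → b.1.card < r.1.card := by
      intro r hr hne
      have h1 : b < r := lt_of_le_of_ne (hbot r hr) (Ne.symm hne)
      exact Finset.card_lt_card (Cq.lt_iff.1 h1)
    have dd : ∀ r r' : Cq G, r ∈ ({s, t, u} : Finset (Cq G)) → r' ∈ ({s, t, u} : Finset (Cq G)) →
        r ≠ r' → r.1.card ≠ r'.1.card := by
      intro r r' hr hr' hne
      rcases hcl (Finset.mem_coe.2 hr) (Finset.mem_coe.2 hr') hne with a | a
      · exact (Finset.card_lt_card (Cq.lt_iff.1 a)).ne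
      · exact (Finset.card_lt_card (Cq.lt_iff.1 a)).ne'
    have k1 := dd s t (by simp) (by simp) hne1
    have k2 := dd s u (by simp) (by simp) hne2
    have k3 := dd t u (by simp) (by simp) hne3
    have l1 := hcards s (by simp)
    have l2 := hcards t (by simp)
    have l3 := hcards u (by simp)
    have m1 := Finset.card_le_card (hbot s (by simp))
    have m2 := Finset.card_le_card (hbot t (by simp))
    have m3 := Finset.card_le_card (hbot u (by simp))
    omega
  obtain ⟨x, hx⟩ := Finset.card_eq_one.1 hbc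
  have hbx : b = vx G x := Subtype.ext hx
  have hxP : x ∈ P := by
    obtain ⟨y, hy, hyP⟩ := (hmem b hb).2
    rw [hx, Finset.mem_singleton] at hy
    exact hy ▸ hyP
  have hfx : f x = f x0 := hc.const (f := f) hfc hxP hx0
  -- rewrite the triangle with `b` first
  have htri : ∃ y z, ({s, t, u} : Finset (Cq G)) = {b, y, z} ∧ b ≠ y ∧ b ≠ z ∧ y ≠ z := by
    simp only [Finset.mem_insert, Finset.mem_singleton] at hb
    rcases hb with rfl | rfl | rfl
    · exact ⟨t, u, rfl, hne1, hne2, hne3⟩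
    · exact ⟨s, u, pair_comm3 _ _ _, hne1.symm, hne3, hne2⟩
    · refine ⟨s, t, ?_, hne2.symm, hne3.symm, hne1⟩
      ext v; simp only [Finset.mem_insert, Finset.mem_singleton]; tauto
  obtain ⟨y, z, htri, hby, hbz, hyz⟩ := htri
  have hy : y ∈ ({s, t, u} : Finset (Cq G)) := by rw [htri]; simp
  have hz : z ∈ ({s, t, u} : Finset (Cq G)) := by rw [htri]; simp
  have ab : (sd G).Adj b y := hcl (Finset.mem_coe.2 hb) (Finset.mem_coe.2 hy) hby
  have ac : (sd G).Adj b z := hcl (Finset.mem_coe.2 hb) (Finset.mem_coe.2 hz) hbz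
  have bc : (sd G).Adj y z := hcl (Finset.mem_coe.2 hy) (Finset.mem_coe.2 hz) hyz
  rw [htri, ← hfx, hbx]
  refine hf x hxP y z ⟨hbx ▸ ab, (hvS x hxP).1, (hmem y hy).1⟩ ⟨?_, (hmem z hz).1⟩
  intro r hr
  rcases hr with rfl | hr
  · exact hbx ▸ ac
  · rw [Set.mem_singleton_iff] at hr; subst hr; exact bc

end MOT
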