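import Pool.Agent.MOT.SfC
import Pool.Agent.MOT.Sf2

/-!
# MOT/SfV: the circles of a part of a surface bound together (values)
-/

open Classical

noncomputable section

namespace MOT

variable {V : Type} {G : SimpleGraph V} {A B C F M S P X Y : Set V}

/-- the triangles of `Y` -/
private def trs (G : SimpleGraph V) [Finite V] (Y : Set V) : Finset (Finset V) :=
  (Set.toFinite {s : Finset V | s.card = 3 ∧ G.IsClique (s : Set V) ∧ (s : Set V) ⊆ Y}).toFinset

private theorem mem_trs [Finite V] {t : Finset V} :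
    t ∈ trs G Y ↔ t.card = 3 ∧ G.IsClique (t : Set V) ∧ (t : Set V) ⊆ Y :=
  Set.Finite.mem_toFinset _

/-- if `F` is the boundary of `Y` mod 2, every cocycle of `Y` has value zero on `F` -/
theorem even_sum [Finite V] (hF : F ⊆ Y)
    (h1 : ∀ x y, EIn G Y x y → ¬ EIn G F x y → (Lk G {x, y} ∩ Y).ncard = 2)
    (h2 : ∀ x y, EIn G F x y → (Lk G {x, y} ∩ Y).ncard = 1)
    {a : V → V → ZMod 2} (ha : a ∈ Z1 G Y) : cev G F a = 0 := by
  obtain ⟨h0, hs, hc⟩ := mem_Z1.1 ha
  have hL : ∀ t ∈ trs G Y, ∑ e ∈ (eds G Y).filter (fun e => e ⊆ t), pv a e = 0 := by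
    intro t ht
    obtain ⟨t1, t2, t3⟩ := mem_trs.1 ht
    obtain ⟨x, y, z, hxy, hxz, hyz, rfl⟩ := Finset.card_eq_three.1 t1
    have ex : EIn G Y x y := ⟨t2 (by simp) (by simp) hxy, t3 (by simp), t3 (by simp)⟩
    have ey : EIn G Y y z := ⟨t2 (by simp) (by simp) hyz, t3 (by simp), t3 (by simp)⟩
    have ez : EIn G Y x z := ⟨t2 (by simp) (by simp) hxz, t3 (by simp), t3 (by simp)⟩
    have hfil : (eds G Y).filter (fun e => e ⊆ {x, y, z}) = {{x, y}, {y, z}, {x, z}} := by
      ext e
      simp only [Finset.mem_filter, Finset.mem_insert, Finset.mem_singleton]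
      constructor
      · rintro ⟨he, hsub⟩
        obtain ⟨u, v, euv, rfl⟩ := mem_eds'.1 he
        have hu : u ∈ ({x, y, z} : Finset V) := hsub (by simp)
        have hv : v ∈ ({x, y, z} : Finset V) := hsub (by simp)
        simp only [Finset.mem_insert, Finset.mem_singleton] at hu hv
        have hne := euv.1.ne
        rcases hu with rfl | rfl | rfl <;> rcases hv with rfl | rfl | rfl
        · exact absurd rfl hne
        · exact Or.inl rfl
        · exact Or.inr (Or.inr rfl)
        · exact Or.inl (Finset.pair_comm _ _)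
        · exact absurd rfl hne
        · exact Or.inr (Or.inl rfl)
        · exact Or.inr (Or.inr (Finset.pair_comm _ _))
        · exact Or.inr (Or.inl (Finset.pair_comm _ _))
        · exact absurd rfl hne
      · rintro (rfl | rfl | rfl)
        · refine ⟨mem_eds'.2 ⟨x, y, ex, rfl⟩, fun v hv => ?_⟩
          simp only [Finset.mem_insert, Finset.mem_singleton] at hv ⊢
          tauto
        · refine ⟨mem_eds'.2 ⟨y, z, ey, rfl⟩, fun v hv => ?_⟩
          simp only [Finset.mem_insert, Finset.mem_singleton] at hv ⊢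
          tauto
        · refine ⟨mem_eds'.2 ⟨x, z, ez, rfl⟩, fun v hv => ?_⟩
          simp only [Finset.mem_insert, Finset.mem_singleton] at hv ⊢
          tauto
    have n1 : ({x, y} : Finset V) ≠ {y, z} := by
      intro h
      have : x ∈ ({y, z} : Finset V) := by rw [← h]; simp
      simp only [Finset.mem_insert, Finset.mem_singleton] at this
      tauto
    have n2 : ({x, y} : Finset V) ≠ {x, z} := by
      intro h
      have : y ∈ ({x, z} : Finset V) := by rw [← h]; simp
      simp only [Finset.mem_insert, Finset.mem_singleton] at this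
      rcases this with h | h
      · exact hxy h.symm
      · exact hyz h
    have n3 : ({y, z} : Finset V) ≠ {x, z} := by
      intro h
      have : y ∈ ({x, z} : Finset V) := by rw [← h]; simp
      simp only [Finset.mem_insert, Finset.mem_singleton] at this
      rcases this with h | h
      · exact hxy h.symm
      · exact hyz h
    rw [hfil, Finset.sum_insert (by simp [n1, n2]), Finset.sum_insert (by simp [n3]),
      Finset.sum_singleton, pv_pair hs hxy, pv_pair hs hyz, pv_pair hs hxz, ← add_assoc,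
      hc x y z ex ey ez, two_add]
  have hswap : ∑ t ∈ trs G Y, ∑ e ∈ (eds G Y).filter (fun e => e ⊆ t), pv a e =
      ∑ e ∈ eds G Y, ∑ t ∈ (trs G Y).filter (fun t => e ⊆ t), pv a e := by
    rw [Finset.sum_comm' (t' := eds G Y) (s' := fun e => (trs G Y).filter (fun t => e ⊆ t))]
    intro t e
    simp only [Finset.mem_filter]
    tauto
  have hR : ∀ e ∈ eds G Y, ∑ t ∈ (trs G Y).filter (fun t => e ⊆ t), pv a e =
      if e ∈ eds G F then pv a e else 0 := by
    intro e he
    obtain ⟨e1, e2, e3⟩ := mem_eds.1 he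
    obtain ⟨x, y, exy, rfl⟩ := mem_eds'.1 he
    have hcoe : (({x, y} : Finset V) : Set V) = {x, y} := by simp
    have hcard : ((trs G Y).filter (fun t => {x, y} ⊆ t)).card = (Lk G {x, y} ∩ Y).ncard := by
      have hset : (((trs G Y).filter (fun t => {x, y} ⊆ t) : Finset (Finset V)) :
          Set (Finset V)) =
          {t : Finset V | t.card = 2 + 1 ∧ G.IsClique (t : Set V) ∧ (t : Set V) ⊆ Y ∧
            {x, y} ⊆ t} := by
        ext t
        simp only [Finset.coe_filter, mem_trs, Set.mem_ofPred_eq]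
        tauto
      rw [← Set.ncard_coe_finset, hset, star_ncard {x, y} 2 e1 e2 e3, hcoe]
    rw [Finset.sum_const, hcard]
    by_cases hF' : EIn G F x y
    · rw [h2 x y hF', one_smul, if_pos (mem_eds'.2 ⟨x, y, hF', rfl⟩)]
    · rw [h1 x y exy hF', two_smul, two_add, if_neg]
      intro h
      have := (mem_eds.1 h).2.2
      exact hF' ⟨exy.1, this (by simp), this (by simp)⟩
  have h3 : ∑ t ∈ trs G Y, ∑ e ∈ (eds G Y).filter (fun e => e ⊆ t), pv a e = 0 :=
    Finset.sum_eq_zero hL
  rw [hswap, Finset.sum_congr rfl hR, ← Finset.sum_filter] at h3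
  have h4 : (eds G Y).filter (fun e => e ∈ eds G F) = eds G F := by
    ext e
    simp only [Finset.mem_filter]
    refine ⟨fun h => h.2, fun h => ⟨?_, h⟩⟩
    obtain ⟨h5, h6, h7⟩ := mem_eds.1 h
    exact mem_eds.2 ⟨h5, h6, h7.trans hF⟩
  rw [h4] at h3
  exact h3

private theorem one_third (hS : Surf G S) {s t : Cq G} (hst : s < t) (hs : s ∈ FrIn G S P)
    (ht : t ∈ FrIn G S P) : (Lk (sd G) {s, t} ∩ (mi G S ∩ pl G P)).ncard = 1 := by
  have hlt := Finset.card_lt_card (Cq.lt_iff.1 hst)
  have h2 : s.1.card = 2 := by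
    have := FrIn_card hS hs
    have := FrIn_card hS ht
    omega
  have h3 : t.1.card = 3 := by
    have := FrIn_card hS ht
    omega
  obtain ⟨⟨hmi, x, hx, hxP⟩, y, hy, hyP⟩ := id hs
  have hxy : x ≠ y := fun h => hyP (h ▸ hxP)
  have hsxy : s.1 = {x, y} := by
    symm
    refine Finset.eq_of_subset_of_card_le ?_ ?_
    · intro z hz
      simp only [Finset.mem_insert, Finset.mem_singleton] at hz
      rcases hz with rfl | rfl
      · exact hx
      · exact hy
    · rw [h2, Finset.card_pair hxy]
  have hvs : vx G x < s := by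
    rw [Cq.lt_iff, Finset.ssubset_iff_subset_ne]
    refine ⟨fun v hv => ?_, fun h => ?_⟩
    · have : v = x := Finset.mem_singleton.1 hv
      rw [this]; exact hx
    · have h4 : (vx G x).1.card = 1 := Finset.card_singleton x
      rw [h, h2] at h4
      omega
  rw [Set.ncard_eq_one]
  refine ⟨vx G x, ?_⟩
  ext r
  rw [Set.mem_singleton_iff]
  constructor
  · rintro ⟨hr, hrS, hrP⟩
    have h4 : (sd G).Adj s r := hr s (by simp)
    have h5 : (sd G).Adj t r := hr t (by simp)
    have hr3 := hS.card_le hrS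
    have hlts : r < s := by
      rcases h4 with h4 | h4
      · exfalso
        have k1 := Finset.card_lt_card (Cq.lt_iff.1 h4)
        rcases h5 with h5 | h5
        · have k2 := Finset.card_lt_card (Cq.lt_iff.1 h5)
          omega
        · have k2 := Finset.card_lt_card (Cq.lt_iff.1 h5)
          omega
      · exact h4
    have k1 := Finset.card_lt_card (Cq.lt_iff.1 hlts)
    have k2 := Finset.card_pos.2 r.2.1
    have k3 : r.1.card = 1 := by omega
    obtain ⟨z, hz⟩ := Finset.card_eq_one.1 k3
    obtain ⟨w, hw, hwP⟩ := hrP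
    have hwz : w = z := by rw [hz] at hw; simpa using hw
    have hws : w ∈ s.1 := (Cq.lt_iff.1 hlts).1 hw
    rw [hsxy] at hws
    simp only [Finset.mem_insert, Finset.mem_singleton] at hws
    have hwx : w = x := by
      rcases hws with h | h
      · exact h
      · exact absurd (h ▸ hwP) hyP
    refine Subtype.ext ?_
    rw [hz, ← hwz, hwx]
    rfl
  · rintro rfl
    refine ⟨?_, ?_, x, Finset.mem_singleton_self x, hxP⟩
    · intro r hr
      rcases hr with rfl | hr
      · exact Or.inr hvs
      · rw [Set.mem_singleton_iff] at hr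
        rw [hr]
        exact Or.inr (hvs.trans hst)
    · intro v hv
      have : v = x := Finset.mem_singleton.1 hv
      rw [this]; exact hmi x hx

/-- a cocycle of the part over `P` has value zero on the frontier of `P` -/
theorem prt_even [Finite V] (hS : Surf G S) (hP : P ⊆ S) {a : Cq G → Cq G → ZMod 2}
    (ha : a ∈ Z1 (sd G) (mi G S ∩ pl G P)) : cev (sd G) (FrIn G S P) a = 0 := by
  refine even_sum (Y := mi G S ∩ pl G P) (fun s hs => ⟨hs.1.1, hs.1.2⟩) ?_ ?_ ha
  · intro s t e hn
    have hS' := surf_sd hS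
    have h1 : Lk (sd G) {s, t} ∩ (mi G S ∩ pl G P) = Lk (sd G) {s, t} ∩ mi G S := by
      ext u
      constructor
      · rintro ⟨h1, h2⟩
        exact ⟨h1, h2.1⟩
      · intro h
        exact ⟨h.1, third_in hP e.1 e.2.1 e.2.2 (fun h' => hn ⟨e.1, h'.1, h'.2⟩) h⟩
    rw [h1]
    exact (hS'.edge ⟨e.1, e.2.1.1, e.2.2.1⟩).1
  · intro s t e
    rcases e.1 with h | h
    · exact one_third hS h e.2.1 e.2.2
    · rw [Set.pair_comm]
      exact one_third hS h e.2.2 e.2.1

/-- two circles: a cocycle is trivial on both or on none -/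
theorem two_circ [Finite V] (hS : Surf G S) (hP : P ⊆ S)
    (h2 : b0 (sd G) (FrIn G S P) = 2) {C : Set (Cq G)} (hC : IsComp (sd G) (FrIn G S P) C)
    {a : Cq G → Cq G → ZMod 2} (ha : a ∈ Z1 (sd G) (mi G S ∩ pl G P)) :
    IsComp (sd G) (FrIn G S P) (FrIn G S P \ C) ∧
      (Triv (sd G) C a ↔ Triv (sd G) (FrIn G S P \ C) a) := by
  have hT := FrIn_TwoReg (P := P) hS
  have hd : Disjoint C (FrIn G S P \ C) := Set.disjoint_sdiff_right
  have hn : NAdj (sd G) C (FrIn G S P \ C) := hC.nadj
  have hu : C ∪ FrIn G S P \ C = FrIn G S P := Set.union_sdiff_cancel hC.sub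
  have hb := b0_disj hd hn
  rw [hu, h2, b0_eq_one.2 hC.conn] at hb
  have hc' : Conn (sd G) (FrIn G S P \ C) := by
    rw [← b0_eq_one]; omega
  have hcomp : IsComp (sd G) (FrIn G S P) (FrIn G S P \ C) := by
    refine IsComp_of hc' Set.sdiff_subset ?_
    rintro x hx y ⟨hy1, hy2⟩ e
    have hyC : y ∈ C := by
      by_contra h
      exact hy2 ⟨hy1, h⟩
    exact hn y hyC x hx e.symm
  refine ⟨hcomp, ?_⟩
  have hsym : ∀ x y, a x y = a y x := (mem_Z1.1 ha).2.1
  have hev := prt_even hS hP ha
  rw [← hu, cev_union hd hn] at hev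
  rw [← cev_iff (hT.comp hC) hC.conn hsym, ← cev_iff (hT.comp hcomp) hc' hsym]
  rw [(z2_eq _ _).1 hev]

end MOT
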