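import Pool.Agent.MOT.St0

/-!
# MOT/St1: `rup` and `rdn` are inverse to each other (helper18, block C1)
-/

open Classical

noncomputable section

namespace MOT

variable {V : Type} {G : SimpleGraph V} {c : V → ℝ} {s : Finset V}

theorem rmx_ge (hc : ∀ x, 0 ≤ c x) : 0 ≤ rmx c s := by
  apply Real.iSup_nonneg
  intro y
  by_cases hy : y ∈ s
  · simp [hy]
  · simp [hy, hc y]

theorem le_rmx [Finite V] {y : V} (hy : y ∉ s) : c y ≤ rmx c s := by
  have h : (if y ∈ s then 0 else c y) ≤ rmx c s :=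
    le_ciSup (f := fun y : V => if y ∈ s then 0 else c y) (Set.finite_range _).bddAbove y
  rwa [if_neg hy] at h

theorem rmx_le {B : ℝ} (hB : 0 ≤ B) (h : ∀ y, y ∉ s → c y ≤ B) : rmx c s ≤ B := by
  apply Real.iSup_le _ hB
  intro y
  by_cases hy : y ∈ s
  · simp [hy, hB]
  · simp [hy, h y hy]

theorem rup_nonneg (s : Cq G) : 0 ≤ rup G c s :=
  mul_nonneg (Nat.cast_nonneg _) (le_max_left _ _)

theorem rcard_pos (s : Cq G) : (0 : ℝ) < (s.1.card : ℝ) :=
  Nat.cast_pos.2 (Finset.card_pos.2 s.2.1)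

/-- `s` with positive coordinate is an upper level set -/
theorem lt_of_rup_ne [Finite V] {s : Cq G} (h : rup G c s ≠ 0) {x y : V} (hx : x ∈ s.1)
    (hy : y ∉ s.1) : c y < c x := by
  have h1 : max 0 (s.1.inf' s.2.1 c - rmx c s.1) ≠ 0 := fun h' => h (by simp [rup, h'])
  have h2 : 0 < s.1.inf' s.2.1 c - rmx c s.1 := by
    by_contra h'
    exact h1 (max_eq_left (not_lt.1 h'))
  have h3 : s.1.inf' s.2.1 c ≤ c x := Finset.inf'_le _ hx
  have h4 : c y ≤ rmx c s.1 := le_rmx hy
  linarith

theorem pos_of_rup_ne (hc : ∀ x, 0 ≤ c x) {s : Cq G} (h : rup G c s ≠ 0) {x : V}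
    (hx : x ∈ s.1) : 0 < c x := by
  have h1 : max 0 (s.1.inf' s.2.1 c - rmx c s.1) ≠ 0 := fun h' => h (by simp [rup, h'])
  have h2 : 0 < s.1.inf' s.2.1 c - rmx c s.1 := by
    by_contra h'
    exact h1 (max_eq_left (not_lt.1 h'))
  have h3 : s.1.inf' s.2.1 c ≤ c x := Finset.inf'_le _ hx
  have h4 : 0 ≤ rmx c s.1 := rmx_ge hc
  linarith

/-- rlayer cake -/
theorem rlayer [Finite V] (hc : ∀ x, 0 ≤ c x) (hk : ∀ x y, c x ≠ 0 → c y ≠ 0 → x ≠ y → G.Adj x y)
    (x : V) [Fintype (Cq G)] :
    ∑ s : Cq G, (if x ∈ s.1 then max 0 (s.1.inf' s.2.1 c - rmx c s.1) else 0) = c x := by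
  rw [← Finset.sum_filter]
  have key : Set.Ico 0 (c x) = ⋃ s ∈ (Finset.univ.filter fun s : Cq G => x ∈ s.1),
      Set.Ico (rmx c s.1) (s.1.inf' s.2.1 c) := by
    ext t
    simp only [Set.mem_iUnion, Finset.mem_filter, Finset.mem_univ, true_and, exists_prop,
      Set.mem_Ico]
    constructor
    · rintro ⟨h0, h1⟩
      let L : Finset V := (Set.toFinite {y | t < c y}).toFinset
      have mL : ∀ y, y ∈ L ↔ t < c y := fun y => by simp [L]
      have hxL : x ∈ L := (mL x).2 h1
      have hL : G.IsClique (L : Set V) := by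
        intro a ha b hb hab
        exact hk a b (ne_of_gt (lt_of_le_of_lt h0 ((mL a).1 ha)))
          (ne_of_gt (lt_of_le_of_lt h0 ((mL b).1 hb))) hab
      refine ⟨⟨L, ⟨x, hxL⟩, hL⟩, hxL, ?_, ?_⟩
      · exact rmx_le h0 fun y hy => not_lt.1 fun h => hy ((mL y).2 h)
      · exact (Finset.lt_inf'_iff _).2 fun y hy => (mL y).1 hy
    · rintro ⟨s, hs, h1, h2⟩
      exact ⟨(rmx_ge hc).trans h1, lt_of_lt_of_le h2 (Finset.inf'_le _ hs)⟩
  have hd : Set.PairwiseDisjoint (↑(Finset.univ.filter fun s : Cq G => x ∈ s.1))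
      (fun s : Cq G => Set.Ico (rmx c s.1) (s.1.inf' s.2.1 c)) := by
    intro s _ s' _ hne
    refine Set.disjoint_left.2 fun t h1 h2 => hne ?_
    have e : ∀ r : Cq G, t ∈ Set.Ico (rmx c r.1) (r.1.inf' r.2.1 c) → ∀ y, y ∈ r.1 ↔ t < c y := by
      intro r hr y
      constructor
      · intro hy
        exact lt_of_lt_of_le hr.2 (Finset.inf'_le _ hy)
      · intro hy
        by_contra h'
        exact absurd (lt_of_lt_of_le hy (le_rmx h')) (not_lt.2 hr.1)
    apply Subtype.ext
    ext y
    rw [e s h1 y, e s' h2 y]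
  have hv := congrArg (MeasureTheory.Measure.real MeasureTheory.volume) key
  rw [MeasureTheory.measureReal_biUnion_finset hd (fun s _ => measurableSet_Ico)
    (fun s _ => by simp [Real.volume_Ico])] at hv
  simp only [Real.volume_real_Ico] at hv
  rw [sub_zero, max_eq_left (hc x)] at hv
  rw [hv]
  exact Finset.sum_congr rfl fun s _ => max_comm _ _

theorem rdn_rup [Finite V] (hc : c ∈ Re G) : rdn G (rup G c) = c := by
  have := Fintype.ofFinite V
  have := Fintype.ofFinite (Cq G)
  funext x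
  rw [rdn, finsum_eq_sum_of_fintype, ← rlayer hc.1 hc.2.2.2 x]
  refine Finset.sum_congr rfl fun s _ => ?_
  by_cases h : x ∈ s.1
  · rw [if_pos h, if_pos h, rup, mul_div_cancel_left₀ _ (rcard_pos s).ne']
  · rw [if_neg h, if_neg h]

theorem sum_rdn [Fintype V] [Fintype (Cq G)] (d : Cq G → ℝ) : ∑ x, rdn G d x = ∑ s, d s := by
  have h : ∀ x, rdn G d x = ∑ s : Cq G, if x ∈ s.1 then d s / (s.1.card : ℝ) else 0 :=
    fun x => finsum_eq_sum_of_fintype _
  simp only [h]
  rw [Finset.sum_comm]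
  refine Finset.sum_congr rfl fun s _ => ?_
  rw [← Finset.sum_filter, Finset.sum_const, nsmul_eq_mul, Finset.filter_univ_mem,
    mul_div_cancel₀ _ (rcard_pos s).ne']

theorem rup_mem [Finite V] (hc : c ∈ Re G) : rup G c ∈ Re (sd G) := by
  have := Fintype.ofFinite V
  have := Fintype.ofFinite (Cq G)
  refine ⟨fun s => rup_nonneg s, ?_, fun _ _ => trivial, ?_⟩
  · rw [finsum_eq_sum_of_fintype, ← sum_rdn, rdn_rup hc, ← finsum_eq_sum_of_fintype]
    exact hc.2.1
  · intro s s' h h' hne
    show s < s' ∨ s' < s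
    by_cases h1 : s.1 ⊆ s'.1
    · exact Or.inl (lt_of_le_of_ne (show s ≤ s' from h1) hne)
    · by_cases h2 : s'.1 ⊆ s.1
      · exact Or.inr (lt_of_le_of_ne (show s' ≤ s from h2) (Ne.symm hne))
      · obtain ⟨x, hx, hx'⟩ := Finset.not_subset.1 h1
        obtain ⟨y, hy, hy'⟩ := Finset.not_subset.1 h2
        exact absurd (lt_of_rup_ne h hx hy') (not_lt.2 (lt_of_rup_ne h' hy hx').le)

theorem rdn_nonneg {d : Cq G → ℝ} (hd : ∀ s, 0 ≤ d s) (x : V) : 0 ≤ rdn G d x := by
  apply finsum_nonneg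
  intro s
  by_cases h : x ∈ s.1
  · rw [if_pos h]
    exact div_nonneg (hd s) (Nat.cast_nonneg _)
  · rw [if_neg h]

theorem rdn_ne [Finite V] {d : Cq G → ℝ} (hd : ∀ s, 0 ≤ d s) {x : V} :
    rdn G d x ≠ 0 ↔ ∃ s : Cq G, x ∈ s.1 ∧ d s ≠ 0 := by
  have := Fintype.ofFinite (Cq G)
  have hn : ∀ s : Cq G, 0 ≤ (if x ∈ s.1 then d s / (s.1.card : ℝ) else 0) := by
    intro s
    by_cases h : x ∈ s.1
    · rw [if_pos h]
      exact div_nonneg (hd s) (Nat.cast_nonneg _)
    · rw [if_neg h]
  rw [rdn, finsum_eq_sum_of_fintype, ne_eq, Finset.sum_eq_zero_iff_of_nonneg fun s _ => hn s]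
  push Not
  constructor
  · rintro ⟨s, -, hs⟩
    by_cases h : x ∈ s.1
    · refine ⟨s, h, fun h' => hs ?_⟩
      rw [if_pos h, h', zero_div]
    · exact absurd (if_neg h) hs
  · rintro ⟨s, h, hs⟩
    refine ⟨s, Finset.mem_univ _, ?_⟩
    rw [if_pos h]
    exact div_ne_zero hs (rcard_pos s).ne'

theorem rdn_mem [Finite V] {d : Cq G → ℝ} (hd : d ∈ Re (sd G)) : rdn G d ∈ Re G := by
  have := Fintype.ofFinite V
  have := Fintype.ofFinite (Cq G)
  refine ⟨fun x => rdn_nonneg hd.1 x, ?_, fun _ _ => trivial, ?_⟩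
  · rw [finsum_eq_sum_of_fintype, sum_rdn, ← finsum_eq_sum_of_fintype]
    exact hd.2.1
  · intro x y hx hy hne
    obtain ⟨s, hs, h1⟩ := (rdn_ne hd.1).1 hx
    obtain ⟨t, ht, h2⟩ := (rdn_ne hd.1).1 hy
    by_cases hst : s = t
    · subst hst
      exact s.2.2 hs ht hne
    · rcases hd.2.2.2 s t h1 h2 hst with h | h
      · exact t.2.2 (show x ∈ (t.1 : Set V) from h.le hs) ht hne
      · exact s.2.2 hs (show y ∈ (s.1 : Set V) from h.le ht) hne

theorem rup_rdn [Finite V] {d : Cq G → ℝ} (hd : d ∈ Re (sd G)) : rup G (rdn G d) = d := by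
  have := Fintype.ofFinite V
  have := Fintype.ofFinite (Cq G)
  have hb := rdn_mem hd
  have hr := rup_mem hb
  have hle : ∀ s ∈ (Finset.univ : Finset (Cq G)), d s ≤ rup G (rdn G d) s := by
    intro s _
    by_cases hs : d s = 0
    · rw [hs]
      exact rup_nonneg s
    have hdn : ∀ x, rdn G d x = ∑ r : Cq G, if x ∈ r.1 then d r / (r.1.card : ℝ) else 0 :=
      fun x => finsum_eq_sum_of_fintype _
    set T : ℝ := ∑ r : Cq G, if s < r then d r / (r.1.card : ℝ) else 0 with hT
    have hT0 : 0 ≤ T := Finset.sum_nonneg fun r _ => by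
      by_cases h : s < r
      · rw [if_pos h]
        exact div_nonneg (hd.1 r) (Nat.cast_nonneg _)
      · rw [if_neg h]
    have h1 : T + d s / (s.1.card : ℝ) ≤ s.1.inf' s.2.1 (rdn G d) := by
      refine Finset.le_inf' _ _ fun x hx => ?_
      rw [hdn x, hT, ← Finset.sum_erase_add Finset.univ
          (fun r : Cq G => if s < r then d r / (r.1.card : ℝ) else 0) (Finset.mem_univ s),
        ← Finset.sum_erase_add Finset.univ
          (fun r : Cq G => if x ∈ r.1 then d r / (r.1.card : ℝ) else 0) (Finset.mem_univ s)]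
      simp only [if_neg (lt_irrefl s), if_pos hx, add_zero]
      refine add_le_add (Finset.sum_le_sum fun r _ => ?_) le_rfl
      by_cases h : s < r
      · rw [if_pos h, if_pos (h.le hx)]
      · rw [if_neg h]
        by_cases h' : x ∈ r.1
        · rw [if_pos h']
          exact div_nonneg (hd.1 r) (Nat.cast_nonneg _)
        · rw [if_neg h']
    have h2 : rmx (rdn G d) s.1 ≤ T := by
      refine rmx_le hT0 fun y hy => ?_
      rw [hdn y, hT]
      refine Finset.sum_le_sum fun r _ => ?_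
      by_cases h' : y ∈ r.1
      · rw [if_pos h']
        by_cases hr0 : d r = 0
        · rw [hr0, zero_div]
          by_cases h : s < r
          · rw [if_pos h]
          · rw [if_neg h]
        · have hne : s ≠ r := fun h => hy (h ▸ h')
          rcases hd.2.2.2 s r hs hr0 hne with h | h
          · rw [if_pos h]
          · exact absurd (h.le h') hy
      · rw [if_neg h']
        by_cases h : s < r
        · rw [if_pos h]
          exact div_nonneg (hd.1 r) (Nat.cast_nonneg _)
        · rw [if_neg h]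
    have h3 : d s / (s.1.card : ℝ) ≤ max 0 (s.1.inf' s.2.1 (rdn G d) - rmx (rdn G d) s.1) :=
      le_max_of_le_right (by linarith)
    have h4 := mul_le_mul_of_nonneg_left h3 (rcard_pos s).le
    rwa [mul_div_cancel₀ _ (rcard_pos s).ne'] at h4
  have hsum : ∑ s : Cq G, d s = ∑ s : Cq G, rup G (rdn G d) s := by
    rw [← finsum_eq_sum_of_fintype, ← finsum_eq_sum_of_fintype, hd.2.1, hr.2.1]
  have := (Finset.sum_eq_sum_iff_of_le hle).1 hsum
  funext s
  exact (this s (Finset.mem_univ s)).symm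

theorem continuous_rmx [Finite V] (s : Finset V) : Continuous fun c : V → ℝ => rmx c s := by
  have := Fintype.ofFinite V
  by_cases hV : Nonempty V
  · have e : (fun c : V → ℝ => rmx c s) = fun c : V → ℝ =>
        Finset.univ.sup' Finset.univ_nonempty fun y : V => if y ∈ s then 0 else c y := by
      funext c
      exact (Finset.sup'_univ_eq_ciSup _).symm
    rw [e]
    refine Continuous.finset_sup'_apply _ fun y _ => ?_
    by_cases hy : y ∈ s
    · simp only [if_pos hy]
      exact continuous_const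
    · simp only [if_neg hy]
      exact continuous_apply y
  · have : IsEmpty V := not_nonempty_iff.1 hV
    have e : (fun c : V → ℝ => rmx c s) = fun _ => 0 := by
      funext c
      exact Real.iSup_of_isEmpty _
    rw [e]
    exact continuous_const

theorem continuous_rup [Finite V] : Continuous (rup G) := by
  refine continuous_pi fun s => ?_
  refine continuous_const.mul (continuous_const.max (Continuous.sub ?_ (continuous_rmx s.1)))
  exact Continuous.finset_inf'_apply _ fun y _ => continuous_apply y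

theorem continuous_rdn [Finite V] : Continuous (rdn G) := by
  have := Fintype.ofFinite (Cq G)
  refine continuous_pi fun x => ?_
  have e : (fun d : Cq G → ℝ => rdn G d x) = fun d : Cq G → ℝ =>
      ∑ s : Cq G, if x ∈ s.1 then d s / (s.1.card : ℝ) else 0 := by
    funext d
    exact finsum_eq_sum_of_fintype _
  rw [e]
  refine continuous_finsetSum _ fun s _ => ?_
  by_cases h : x ∈ s.1
  · simp only [if_pos h]
    exact (continuous_apply s).div_const _
  · simp only [if_neg h]
    exact continuous_const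

end MOT
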