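import Pool.Agent.MOT.St1

/-!
# MOT/St2: coordinates on all levels, open stars (helper18, block C1)
-/

open Classical

noncomputable section

namespace MOT

section general

variable {V : Type} {G : SimpleGraph V}

theorem dlt_self (v : V) : dlt v v = 1 := if_pos rfl

theorem dlt_ne {v x : V} (h : x ≠ v) : dlt v x = 0 := if_neg h

theorem dlt_nonneg (v x : V) : 0 ≤ dlt v x := by
  by_cases h : x = v
  · subst h; rw [dlt_self]; exact zero_le_one
  · rw [dlt_ne h]

theorem dlt_pos {v x : V} (h : 0 < dlt v x) : x = v := by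
  by_contra h'
  rw [dlt_ne h'] at h
  exact lt_irrefl _ h

theorem sum_dlt [Fintype V] (v : V) : ∑ x, dlt v x = 1 := by
  simp [dlt]

theorem dlt_mem [Finite V] {A : Set V} {v : V} (hv : v ∈ A) : dlt v ∈ Rl G A := by
  have := Fintype.ofFinite V
  refine ⟨dlt_nonneg v, ?_, ?_, ?_⟩
  · rw [finsum_eq_sum_of_fintype, sum_dlt]
  · intro x hx
    by_cases h : x = v
    · rwa [h]
    · exact absurd (dlt_ne h) hx
  · intro x y hx hy hne
    have h1 : x = v := by
      by_contra h
      exact hx (dlt_ne h)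
    have h2 : y = v := by
      by_contra h
      exact hy (dlt_ne h)
    exact absurd (h1.trans h2.symm) hne

/-- midpoint of two vertices which are equal or adjacent -/
def rmid (u v : V) : V → ℝ := fun x => (dlt u x + dlt v x) / 2

theorem rmid_mem [Finite V] {u v : V} (h : u = v ∨ G.Adj u v) : rmid u v ∈ Re G := by
  have := Fintype.ofFinite V
  refine ⟨fun x => ?_, ?_, fun _ _ => trivial, ?_⟩
  · have h1 := dlt_nonneg u x
    have h2 := dlt_nonneg v x
    unfold rmid; positivity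
  · rw [finsum_eq_sum_of_fintype]
    unfold rmid
    rw [← Finset.sum_div, Finset.sum_add_distrib, sum_dlt, sum_dlt]
    norm_num
  · have key : ∀ x, rmid u v x ≠ 0 → x = u ∨ x = v := by
      intro x hx
      by_contra h'
      push Not at h'
      exact hx (by unfold rmid; rw [dlt_ne h'.1, dlt_ne h'.2]; norm_num)
    intro x y hx hy hne
    rcases key x hx with h1 | h1 <;> rcases key y hy with h2 | h2
    · exact absurd (h1.trans h2.symm) hne
    · subst h1; subst h2
      exact h.resolve_left hne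
    · subst h1; subst h2
      exact (h.resolve_left (Ne.symm hne)).symm
    · exact absurd (h1.trans h2.symm) hne

theorem rmid_left (u v : V) : 0 < rmid u v u := by
  have h := dlt_nonneg v u
  unfold rmid; rw [dlt_self]; linarith

theorem rmid_right (u v : V) : 0 < rmid u v v := by
  have h := dlt_nonneg u v
  unfold rmid; rw [dlt_self]; linarith

end general

variable {K : Lv}

theorem co_mem {y : K.V → ℝ} (hy : y ∈ Re K.G) : ∀ n, co K n y ∈ Re (tw K n).G
  | 0 => hy
  | n + 1 => rup_mem (co_mem hy n)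

theorem re_mem : ∀ (n : ℕ) {c : (tw K n).V → ℝ}, c ∈ Re (tw K n).G → re K n c ∈ Re K.G
  | 0, _, hc => hc
  | n + 1, _, hc => re_mem n (rdn_mem hc)

theorem re_co {y : K.V → ℝ} (hy : y ∈ Re K.G) : ∀ n, re K n (co K n y) = y
  | 0 => rfl
  | n + 1 => by
    show re K n (rdn (tw K n).G (rup (tw K n).G (co K n y))) = y
    rw [rdn_rup (co_mem hy n)]
    exact re_co hy n

theorem co_re : ∀ (n : ℕ) {c : (tw K n).V → ℝ}, c ∈ Re (tw K n).G → co K n (re K n c) = c
  | 0, _, _ => rfl
  | n + 1, c, hc => by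
    show rup (tw K n).G (co K n (re K n (rdn (tw K n).G c))) = c
    rw [co_re n (rdn_mem hc)]
    exact rup_rdn hc

theorem rdn_co {y : K.V → ℝ} (hy : y ∈ Re K.G) (n : ℕ) :
    rdn (tw K n).G (co K (n + 1) y) = co K n y := rdn_rup (co_mem hy n)

theorem continuous_co : ∀ n, Continuous (co K n)
  | 0 => continuous_id
  | n + 1 => continuous_rup.comp (continuous_co n)

theorem continuous_re : ∀ n, Continuous (re K n)
  | 0 => continuous_id
  | n + 1 => (continuous_re n).comp continuous_rdn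

theorem pt_mem (n : ℕ) (v : (tw K n).V) : pt K n v ∈ Re K.G := re_mem n (dlt_mem trivial)

theorem co_pt (n : ℕ) (v : (tw K n).V) : co K n (pt K n v) = dlt v := co_re n (dlt_mem trivial)

theorem pt_mem_ost (n : ℕ) (v : (tw K n).V) : pt K n v ∈ ost K n v :=
  ⟨pt_mem n v, by rw [co_pt, dlt_self]; exact zero_lt_one⟩

theorem ost_sub_Re {n : ℕ} {v : (tw K n).V} : ost K n v ⊆ Re K.G := fun _ h => h.1

/-- stars are relatively open -/
theorem ost_open (n : ℕ) (v : (tw K n).V) : ∃ U, IsOpen U ∧ ost K n v = Re K.G ∩ U :=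
  ⟨{y | 0 < co K n y v}, isOpen_lt continuous_const ((continuous_apply v).comp (continuous_co n)),
    rfl⟩

theorem ost_cover {y : K.V → ℝ} (hy : y ∈ Re K.G) (n : ℕ) : ∃ v, y ∈ ost K n v := by
  have h := co_mem hy n
  by_contra h'
  push Not at h'
  have h0 : ∀ v, co K n y v = 0 := fun v => le_antisymm (not_lt.1 fun hv => h' v ⟨hy, hv⟩) (h.1 v)
  have h1 := h.2.1
  simp only [h0, finsum_zero] at h1
  exact zero_ne_one h1

theorem ost_inter {n : ℕ} {u v : (tw K n).V} :
    (ost K n u ∩ ost K n v).Nonempty ↔ (u = v ∨ (tw K n).G.Adj u v) := by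
  constructor
  · rintro ⟨y, h1, h2⟩
    by_cases h : u = v
    · exact Or.inl h
    · exact Or.inr ((co_mem h1.1 n).2.2.2 u v (ne_of_gt h1.2) (ne_of_gt h2.2) h)
  · intro h
    have hm := rmid_mem h
    refine ⟨re K n (rmid u v), ⟨re_mem n hm, ?_⟩, re_mem n hm, ?_⟩
    · rw [co_re n hm]; exact rmid_left u v
    · rw [co_re n hm]; exact rmid_right u v

theorem co_pos_step {y : K.V → ℝ} (hy : y ∈ Re K.G) (n : ℕ) (u : (tw K n).V) :
    0 < co K n y u ↔ ∃ s : Cq (tw K n).G, u ∈ s.1 ∧ 0 < co K (n + 1) y s := by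
  have hn := co_mem hy (n + 1)
  have h := rdn_ne (G := (tw K n).G) (d := co K (n + 1) y) hn.1 (x := u)
  rw [rdn_co hy n] at h
  have h1 : 0 < co K n y u ↔ co K n y u ≠ 0 :=
    ⟨fun h => h.ne', fun h => lt_of_le_of_ne ((co_mem hy n).1 u) (Ne.symm h)⟩
  rw [h1, h]
  constructor
  · rintro ⟨s, hs, h2⟩
    exact ⟨s, hs, lt_of_le_of_ne (hn.1 s) (Ne.symm h2)⟩
  · rintro ⟨s, hs, h2⟩
    exact ⟨s, hs, h2.ne'⟩

theorem co_pos_iff {y : K.V → ℝ} (hy : y ∈ Re K.G) (n : ℕ) (u : (tw K n).V) : ∀ k,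
    (0 < co K n y u ↔ ∃ v : (tw K (n + k)).V, 0 < co K (n + k) y v ∧ u ∈ car K n k v)
  | 0 => by
    constructor
    · intro h
      exact ⟨u, h, rfl⟩
    · rintro ⟨v, h, hv⟩
      have : u = v := hv
      rw [this]; exact h
  | k + 1 => by
    rw [co_pos_iff hy n u k]
    constructor
    · rintro ⟨v, hv, hu⟩
      obtain ⟨s, hs, h⟩ := (co_pos_step hy (n + k) v).1 hv
      exact ⟨s, h, v, hs, hu⟩
    · rintro ⟨s, h, v, hs, hu⟩
      exact ⟨v, (co_pos_step hy (n + k) v).2 ⟨s, hs, h⟩, hu⟩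

/-- `star v ⊆ star u` iff `u` is a vertex of the carrier of `v` -/
theorem ost_sub_iff {n k : ℕ} {u : (tw K n).V} {v : (tw K (n + k)).V} :
    ost K (n + k) v ⊆ ost K n u ↔ u ∈ car K n k v := by
  constructor
  · intro h
    have h1 := (h (pt_mem_ost (n + k) v)).2
    obtain ⟨w, hw, hu⟩ := (co_pos_iff (pt_mem (n + k) v) n u k).1 h1
    rw [co_pt] at hw
    rw [dlt_pos hw] at hu
    exact hu
  · intro hu y hy
    exact ⟨hy.1, (co_pos_iff hy.1 n u k).2 ⟨v, hy.2, hu⟩⟩

end MOT
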