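import Pool.Agent.MOT.St2

/-!
# MOT/St3: mesh of the levels of a tower (helper18, block C1)
-/

open Classical

noncomputable section

namespace MOT

section general

variable {V : Type} {G : SimpleGraph V}

/-- cliques of a barycentric subdivision have at most 4 elements if this holds for `G` -/
theorem k5_sd (hk : ∀ s : Finset V, G.IsClique (s : Set V) → s.card ≤ 4)
    (S : Finset (Cq G)) (hS : (sd G).IsClique (S : Set (Cq G))) : S.card ≤ 4 := by
  have h : S.card ≤ (Finset.Icc 1 4).card := by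
    refine Finset.card_le_card_of_injOn (fun s : Cq G => s.1.card) ?_ ?_
    · intro s _
      simp only [Finset.coe_Icc, Set.mem_Icc]
      exact ⟨Finset.card_pos.2 s.2.1, hk s.1 s.2.2⟩
    · intro s hs t ht hst
      by_contra hne
      have e : s.1.card = t.1.card := hst
      rcases hS hs ht hne with h | h
      · have h1 : s.1 ⊂ t.1 := h
        exact absurd (Finset.card_lt_card h1) (by omega)
      · have h1 : t.1 ⊂ s.1 := h
        exact absurd (Finset.card_lt_card h1) (by omega)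
  simpa using h

theorem rdn_dlt [Finite V] (s : Cq G) (v : V) :
    rdn G (dlt s) v = if v ∈ s.1 then 1 / (s.1.card : ℝ) else 0 := by
  have := Fintype.ofFinite (Cq G)
  rw [rdn, finsum_eq_sum_of_fintype, Finset.sum_eq_single s]
  · rw [dlt_self]
  · intro r _ hr
    rw [dlt_ne hr, zero_div, ite_self]
  · intro h
    exact absurd (Finset.mem_univ s) h

/-- averages over nested sets of numbers -/
theorem avg_le {a : V → ℝ} {s t : Finset V} (hs : s.Nonempty) (hst : s ⊆ t) (h4 : t.card ≤ 4)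
    {m : ℝ} (hm : ∀ x ∈ t, ∀ y ∈ t, |a x - a y| ≤ m) :
    |(∑ x ∈ s, a x) / (s.card : ℝ) - (∑ x ∈ t, a x) / (t.card : ℝ)| ≤ 3 / 4 * m := by
  have hsc : (0 : ℝ) < s.card := Nat.cast_pos.2 (Finset.card_pos.2 hs)
  have htc : (0 : ℝ) < t.card := Nat.cast_pos.2 (Finset.card_pos.2 (hs.mono hst))
  have h4' : (t.card : ℝ) ≤ 4 := by exact_mod_cast h4
  set A : ℝ := (∑ x ∈ t, a x) / (t.card : ℝ) with hA
  have hm0 : 0 ≤ m := by
    obtain ⟨x, hx⟩ := hs
    exact (abs_nonneg _).trans (hm x (hst hx) x (hst hx))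
  have h1 : ∀ x ∈ t, |a x - A| ≤ 3 / 4 * m := by
    intro x hx
    have e : a x - A = (∑ y ∈ t.erase x, (a x - a y)) / (t.card : ℝ) := by
      have e1 : ∑ y ∈ t, (a x - a y) = ∑ y ∈ t.erase x, (a x - a y) := by
        rw [← Finset.sum_erase_add t _ hx, sub_self, add_zero]
      rw [← e1, Finset.sum_sub_distrib, Finset.sum_const, nsmul_eq_mul, hA]
      field_simp
    rw [e, abs_div, abs_of_pos htc, div_le_iff₀ htc]
    calc |∑ y ∈ t.erase x, (a x - a y)| ≤ ∑ y ∈ t.erase x, |a x - a y| :=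
          Finset.abs_sum_le_sum_abs _ _
      _ ≤ ∑ y ∈ t.erase x, m := Finset.sum_le_sum fun y hy => hm x hx y (Finset.mem_of_mem_erase hy)
      _ = ((t.card : ℝ) - 1) * m := by
          rw [Finset.sum_const, nsmul_eq_mul, Finset.card_erase_of_mem hx,
            Nat.cast_sub (Finset.card_pos.2 ⟨x, hx⟩), Nat.cast_one]
      _ ≤ 3 / 4 * m * (t.card : ℝ) := by nlinarith
  have e : (∑ x ∈ s, a x) / (s.card : ℝ) - A = (∑ x ∈ s, (a x - A)) / (s.card : ℝ) := by
    rw [Finset.sum_sub_distrib, Finset.sum_const, nsmul_eq_mul]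
    field_simp
  rw [e, abs_div, abs_of_pos hsc, div_le_iff₀ hsc]
  calc |∑ x ∈ s, (a x - A)| ≤ ∑ x ∈ s, |a x - A| := Finset.abs_sum_le_sum_abs _ _
    _ ≤ ∑ x ∈ s, (3 / 4 * m) := Finset.sum_le_sum fun x hx => h1 x (hst hx)
    _ = 3 / 4 * m * (s.card : ℝ) := by rw [Finset.sum_const, nsmul_eq_mul]; ring

end general

variable {K : Lv}

theorem k5_tw (hk : ∀ s : Finset K.V, K.G.IsClique (s : Set K.V) → s.card ≤ 4) :
    ∀ (n : ℕ) (s : Finset (tw K n).V), (tw K n).G.IsClique (s : Set (tw K n).V) → s.card ≤ 4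
  | 0 => hk
  | n + 1 => k5_sd (k5_tw hk n)

theorem re_eq (n : ℕ) : ∀ (c : (tw K n).V → ℝ) (x : K.V), re K n c x = ∑ᶠ v, c v * pt K n v x := by
  induction n with
  | zero =>
    intro c x
    have := Fintype.ofFinite K.V
    show c x = ∑ᶠ v : K.V, c v * dlt v x
    rw [finsum_eq_sum_of_fintype, Finset.sum_eq_single x]
    · rw [dlt_self, mul_one]
    · intro v _ hv
      rw [dlt_ne (Ne.symm hv), mul_zero]
    · intro h
      exact absurd (Finset.mem_univ x) h
  | succ n ih =>
    intro c x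
    have := Fintype.ofFinite (tw K n).V
    have : Fintype (Cq (tw K n).G) := Fintype.ofFinite _
    have h1 : ∀ d : Cq (tw K n).G → ℝ, re K n (rdn (tw K n).G d) x =
        ∑ s : Cq (tw K n).G, d s * ((∑ v ∈ s.1, pt K n v x) / (s.1.card : ℝ)) := by
      intro d
      rw [ih, finsum_eq_sum_of_fintype]
      have e : ∀ v, rdn (tw K n).G d v * pt K n v x = ∑ s : Cq (tw K n).G,
          if v ∈ s.1 then d s / (s.1.card : ℝ) * pt K n v x else 0 := by
        intro v
        rw [rdn, finsum_eq_sum_of_fintype, Finset.sum_mul]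
        exact Finset.sum_congr rfl fun s _ => by rw [ite_mul, zero_mul]
      simp only [e]
      rw [Finset.sum_comm]
      refine Finset.sum_congr rfl fun s _ => ?_
      rw [← Finset.sum_filter, Finset.filter_univ_mem, ← Finset.mul_sum]
      ring
    have h2 : ∀ s : Cq (tw K n).G, pt K (n + 1) s x = (∑ v ∈ s.1, pt K n v x) / (s.1.card : ℝ) := by
      intro s
      show re K n (rdn (tw K n).G (dlt s)) x = _
      rw [h1, Finset.sum_eq_single s]
      · rw [dlt_self, one_mul]
      · intro r _ hr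
        rw [dlt_ne hr, zero_mul]
      · intro h
        exact absurd (Finset.mem_univ s) h
    show re K n (rdn (tw K n).G c) x = ∑ᶠ s : Cq (tw K n).G, c s * pt K (n + 1) s x
    rw [h1, finsum_eq_sum_of_fintype]
    exact Finset.sum_congr rfl fun s _ => by rw [h2]

theorem pt_succ (n : ℕ) (s : Cq (tw K n).G) (x : K.V) :
    pt K (n + 1) s x = (∑ v ∈ s.1, pt K n v x) / (s.1.card : ℝ) := by
  have := Fintype.ofFinite (tw K n).V
  show re K n (rdn (tw K n).G (dlt s)) x = _
  rw [re_eq, finsum_eq_sum_of_fintype]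
  have e : ∀ v, rdn (tw K n).G (dlt s) v * pt K n v x =
      if v ∈ s.1 then 1 / (s.1.card : ℝ) * pt K n v x else 0 := by
    intro v
    rw [rdn_dlt, ite_mul, zero_mul]
  simp only [e]
  rw [← Finset.sum_filter, Finset.filter_univ_mem, ← Finset.mul_sum]
  ring

/-- mesh of level `n` -/
theorem mesh_pt (hk : ∀ s : Finset K.V, K.G.IsClique (s : Set K.V) → s.card ≤ 4) :
    ∀ (n : ℕ) (u v : (tw K n).V), (u = v ∨ (tw K n).G.Adj u v) → ∀ x : K.V,
      |pt K n u x - pt K n v x| ≤ (3 / 4 : ℝ) ^ n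
  | 0, u, v, _, x => by
    show |dlt u x - dlt v x| ≤ _
    rw [pow_zero, abs_le]
    unfold dlt
    split_ifs <;> norm_num
  | n + 1, s, t, h, x => by
    have e : (3 / 4 : ℝ) ^ (n + 1) = 3 / 4 * (3 / 4 : ℝ) ^ n := by ring
    rcases h with h | h
    · rw [h, sub_self, abs_zero]; positivity
    · have hcl : ∀ r : Cq (tw K n).G, ∀ a ∈ r.1, ∀ b ∈ r.1,
          |pt K n a x - pt K n b x| ≤ (3 / 4 : ℝ) ^ n := by
        intro r a ha b hb
        refine mesh_pt hk n a b ?_ x
        by_cases hab : a = b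
        · exact Or.inl hab
        · exact Or.inr (r.2.2 ha hb hab)
      have key : ∀ s t : Cq (tw K n).G, s < t →
          |pt K (n + 1) s x - pt K (n + 1) t x| ≤ (3 / 4 : ℝ) ^ (n + 1) := by
        intro s t hst
        have h1 : s.1 ⊆ t.1 := hst.le
        rw [pt_succ, pt_succ, e]
        exact avg_le s.2.1 h1 (k5_tw hk n _ t.2.2) (hcl t)
      have h' : @LT.lt (Cq (tw K n).G) _ s t ∨ @LT.lt (Cq (tw K n).G) _ t s := h
      rcases h' with h' | h'
      · exact key s t h'
      · rw [abs_sub_comm]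
        exact key t s h'

/-- stars of level `n` are small -/
theorem mesh_ost (hk : ∀ s : Finset K.V, K.G.IsClique (s : Set K.V) → s.card ≤ 4) (n : ℕ)
    {v : (tw K n).V} {y : K.V → ℝ} (hy : y ∈ ost K n v) (x : K.V) :
    |y x - pt K n v x| ≤ (3 / 4 : ℝ) ^ n := by
  have := Fintype.ofFinite (tw K n).V
  have hc := co_mem hy.1 n
  have h1 : y x = ∑ w, co K n y w * pt K n w x := by
    rw [← finsum_eq_sum_of_fintype, ← re_eq, re_co hy.1]
  have h2 : ∑ w, co K n y w = 1 := by rw [← finsum_eq_sum_of_fintype]; exact hc.2.1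
  have e : y x - pt K n v x = ∑ w, co K n y w * (pt K n w x - pt K n v x) := by
    rw [h1]
    simp only [mul_sub]
    rw [Finset.sum_sub_distrib, ← Finset.sum_mul, h2, one_mul]
  rw [e]
  calc |∑ w, co K n y w * (pt K n w x - pt K n v x)|
      ≤ ∑ w, |co K n y w * (pt K n w x - pt K n v x)| := Finset.abs_sum_le_sum_abs _ _
    _ ≤ ∑ w, co K n y w * (3 / 4 : ℝ) ^ n := by
        refine Finset.sum_le_sum fun w _ => ?_
        rw [abs_mul, abs_of_nonneg (hc.1 w)]
        by_cases h0 : co K n y w = 0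
        · rw [h0, zero_mul, zero_mul]
        · refine mul_le_mul_of_nonneg_left ?_ (hc.1 w)
          refine mesh_pt hk n w v ?_ x
          by_cases hwv : w = v
          · exact Or.inl hwv
          · exact Or.inr (hc.2.2.2 w v h0 (ne_of_gt hy.2) hwv)
    _ = (3 / 4 : ℝ) ^ n := by rw [← Finset.sum_mul, h2, one_mul]

end MOT
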