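import Pool.Agent.MOT.SuDef
import Pool.Agent.MOT.SaC
import Pool.Agent.MOT.SaT

/-!
# MOT/SuB: `BaseU` and `PltU` one level later

Sets by `mi`, functions by `pk`, cochains by `pw`.  Tools: `chain_top` (a clique of `sd G` is a chain, its
greatest element `m` contains all vertices of its elements; it is not inside `Bs` if the clique is not inside
`mi Bs`), `sd_Conn`, `mi_disj`, `mi_nadj`, `mi_mono`, `Triv_pw`.
-/

open Classical

noncomputable section

namespace MOT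

variable {Vc V : Type} {Gc : SimpleGraph Vc} {G : SimpleGraph V}

private theorem pk_vx' (x : V) : pk (vx G x) = x := Finset.mem_singleton.1 (pk_mem (vx G x))

/-- two vertices of a simplex are equal or adjacent -/
private theorem nr_of_mem (m : Cq G) {x y : V} (hx : x ∈ m.1) (hy : y ∈ m.1) : Nr G x y := by
  by_cases e : x = y
  · exact Or.inl e
  · exact Or.inr (m.2.2 (Finset.mem_coe.2 hx) (Finset.mem_coe.2 hy) e)

/-- the greatest element of a clique of `sd G` which is not inside `mi B` -/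
private theorem topQ [Finite V] {B : Set V} {Q : Set (Cq G)} (hQ : (sd G).IsClique Q)
    (hB : ¬ Q ⊆ mi G B) : ∃ m : Cq G, G.IsClique (m.1 : Set V) ∧ ¬ (m.1 : Set V) ⊆ B ∧
      ∀ s ∈ Q, pk s ∈ (m.1 : Set V) := by
  have hf : Q.Finite := Set.toFinite Q
  have hne : hf.toFinset.Nonempty := by
    rw [Set.Finite.toFinset_nonempty, Set.nonempty_iff_ne_empty]
    rintro rfl
    exact hB (Set.empty_subset _)
  obtain ⟨m, hm, hmax⟩ := chain_top hf.toFinset (by rw [hf.coe_toFinset]; exact hQ) hne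
  refine ⟨m, m.2.2, ?_, ?_⟩
  · intro hmB
    apply hB
    intro s hs x hx
    exact hmB (Finset.mem_coe.2 (Cq.le_iff.1 (hmax s (hf.mem_toFinset.2 hs)) hx))
  · intro s hs
    exact Finset.mem_coe.2 (Cq.le_iff.1 (hmax s (hf.mem_toFinset.2 hs)) (pk_mem s))

theorem Nr_pk {s t : Cq G} (h : Nr (sd G) s t) : Nr G (pk s) (pk t) := by
  rcases h with h | h
  · exact Or.inl (by rw [h])
  · rcases sd_adj.1 h with h1 | h1
    · exact nr_of_mem t (Cq.le_iff.1 h1.le (pk_mem s)) (pk_mem t)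
    · exact nr_of_mem s (pk_mem s) (Cq.le_iff.1 h1.le (pk_mem t))

theorem Coc.pw [Finite V] {B : Set V} {w : V → V → ZMod 2} (h : Coc G B w) :
    Coc (sd G) (mi G B) (MOT.pw G w) where
  sym := fun _ _ => h.sym _ _
  dia := fun _ => h.dia _
  coc := by
    intro Q hQ hB x hx y hy z hz
    obtain ⟨m, h1, h2, h3⟩ := topQ hQ hB
    exact h.coc _ h1 h2 _ (h3 x hx) _ (h3 y hy) _ (h3 z hz)

theorem cmb_pw [Finite V] {I : Type} [Finite I] (A : I → ZMod 2) (w : I → V → V → ZMod 2) :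
    cmb A (fun i => pw G (w i)) = pw G (cmb A w) := rfl

private theorem cmb_sym {I : Type} (A : I → ZMod 2) {w : I → V → V → ZMod 2}
    (h : ∀ i x y, w i x y = w i y x) (x y : V) : cmb A w x y = cmb A w y x :=
  finsum_congr (fun i => by rw [h i x y])

private theorem cmb_dia {I : Type} (A : I → ZMod 2) {w : I → V → V → ZMod 2}
    (h : ∀ i x, w i x x = 0) (x : V) : cmb A w x x = 0 :=
  finsum_eq_zero_of_forall_eq_zero (fun i => by rw [h i x, mul_zero])

/-- a path in `{x | P x}` gives a path in `{s | P (pk s)}` (through the simplices `{x}`, `{x, y}`, `{y}`) -/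
theorem rtg_pk {P : Set V} {s : Cq G} {y : V} (hs : pk s ∈ P)
    (h : Relation.ReflTransGen (EIn G P) (pk s) y) :
    Relation.ReflTransGen (EIn (sd G) {t | pk t ∈ P}) s (vx G y) := by
  have lt_of : ∀ (a : V) (t : Cq G), a ∈ t.1 → vx G a ≠ t → vx G a < t := by
    intro a t ha hne
    refine lt_of_le_of_ne ?_ hne
    rw [Cq.le_iff]
    intro z hz
    rw [Finset.mem_singleton.1 hz]
    exact ha
  induction h with
  | refl =>
    by_cases e : vx G (pk s) = s
    · rw [e]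
    · refine Relation.ReflTransGen.single ⟨Or.inr (lt_of _ _ (pk_mem s) e), hs, ?_⟩
      show pk (vx G (pk s)) ∈ P
      rw [pk_vx']
      exact hs
  | tail _ e ih =>
    rename_i u v _
    have hu : u ∈ (eg G e.1).1 := Finset.mem_insert_self u {v}
    have hv : v ∈ (eg G e.1).1 := Finset.mem_insert_of_mem (Finset.mem_singleton_self v)
    have card2 : (eg G e.1).1.card = 2 := Finset.card_pair e.1.ne
    have ne1 : ∀ a, vx G a ≠ eg G e.1 := by
      intro a ha
      rw [← ha] at card2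
      have h1 : (vx G a).1.card = 1 := Finset.card_singleton a
      omega
    have hpk : pk (eg G e.1) ∈ P := by
      rcases Finset.mem_insert.1 (pk_mem (eg G e.1)) with h1 | h1
      · rw [h1]; exact e.2.1
      · rw [Finset.mem_singleton.1 h1]; exact e.2.2
    have hpu : pk (vx G u) ∈ P := by rw [pk_vx']; exact e.2.1
    have hpv : pk (vx G v) ∈ P := by rw [pk_vx']; exact e.2.2
    refine (ih.tail ⟨Or.inl (lt_of u _ hu (ne1 u)), hpu, hpk⟩).tail
      ⟨Or.inr (lt_of v _ hv (ne1 v)), hpk, hpv⟩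

private theorem Nr_in {s : Cq G} {x y : V} (hx : x ∈ s.1) (hy : y ∈ s.1) : Nr G x y := by
  by_cases h : x = y
  · exact Or.inl h
  · exact Or.inr (s.2.2 (Finset.mem_coe.2 hx) (Finset.mem_coe.2 hy) h)

/-- `BaseU` one level later -/
def BaseU.up [Finite Vc] [Finite V] (b : BaseU Gc G) : BaseU Gc (sd G) where
  B := mi G b.B
  Bs := mi G b.Bs
  BL := mi G b.BL
  BsL := mi G b.BsL
  NT := {s | pk s ∈ b.NT}
  NTs := {s | pk s ∈ b.NTs}
  cr s := b.cr (pk s)
  top s := b.top (pk s)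
  tt s := b.tt (pk s)
  we e := pw G (b.we e)
  ws s := pw G (b.ws s)
  Bde e := mi G (b.Bde e)
  Bd s := mi G (b.Bd s)
  Lv v := mi G (b.Lv v)
  Le e := mi G (b.Le e)
  Lt t := mi G (b.Lt t)
  Ls s := mi G (b.Ls s)
  Lb s := mi G (b.Lb s)
  Lbs e := mi G (b.Lbs e)
  cB := by
    exact sd_Conn.2 b.cB
  cBs := by
    exact sd_Conn.2 b.cBs
  nBB := by
    exact mi_nadj b.dBB
  dBB := by
    exact mi_disj b.dBB
  cBL := by
    exact sd_Conn.2 b.cBL
  cBsL := by
    exact sd_Conn.2 b.cBsL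
  B_BL := by
    exact mi_mono b.B_BL
  Bs_BsL := by
    exact mi_mono b.Bs_BsL
  dBL := by
    exact mi_disj b.dBL
  nBL := by
    exact mi_nadj b.dBL
  NTs_nb := by
    intro s hs t hst z hz
    refine b.NTs_nb (pk s) hs z ?_
    rcases hst with h | h | h
    · subst h
      exact Nr_in (pk_mem s) hz
    · exact Nr_in (Cq.le_iff.1 h.le (pk_mem s)) hz
    · exact Nr_in (pk_mem s) (Cq.le_iff.1 h.le hz)
  NT_nb := by
    intro s hs t hst z hz
    refine b.NT_nb (pk s) hs z ?_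
    rcases hst with h | h | h
    · subst h
      exact Nr_in (pk_mem s) hz
    · exact Nr_in (Cq.le_iff.1 h.le (pk_mem s)) hz
    · exact Nr_in (pk_mem s) (Cq.le_iff.1 h.le hz)
  cr_ne := by
    exact fun s => b.cr_ne (pk s)
  cr_chain := by
    exact fun s t h => b.cr_chain _ _ (Nr_pk h)
  cr_top := by
    exact fun s h => b.cr_top (pk s) h
  cr_tt := by
    exact fun s h => b.cr_tt (pk s) h
  top_cl := by
    intro Q hQ hB
    obtain ⟨m, h1, h2, h3⟩ := topQ hQ hB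
    obtain ⟨v, w, h4, h5⟩ := b.top_cl _ h1 h2
    exact ⟨v, w, h4, fun x hx => h5 _ (h3 x hx)⟩
  tt_cl := by
    intro Q hQ hB
    obtain ⟨m, h1, h2, h3⟩ := topQ hQ hB
    obtain ⟨v, w, h4, h5⟩ := b.tt_cl _ h1 h2
    exact ⟨v, w, h4, fun x hx => h5 _ (h3 x hx)⟩
  we_def := by
    intro e Q hQ hB x hx y hy
    obtain ⟨m, h1, h2, h3⟩ := topQ hQ hB
    exact b.we_def e _ h1 h2 _ (h3 x hx) _ (h3 y hy)
  ws_def := by
    intro e Q hQ hB x hx y hy
    obtain ⟨m, h1, h2, h3⟩ := topQ hQ hB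
    exact b.ws_def e _ h1 h2 _ (h3 x hx) _ (h3 y hy)
  we_coc := by
    exact fun e => (b.we_coc e).pw
  ws_coc := by
    exact fun s => (b.ws_coc s).pw
  Bde_Lbs := by
    exact fun e => mi_mono (b.Bde_Lbs e)
  Bd_Lb := by
    exact fun s => mi_mono (b.Bd_Lb s)
  lb_e := by
    intro A hA
    rw [cmb_pw] at hA
    exact b.lb_e A ((Triv_pw (cmb_sym A (fun i => (b.we_coc i).sym))
      (cmb_dia A (fun i => (b.we_coc i).dia))).1 hA)
  lb_s := by
    intro A hA
    rw [cmb_pw] at hA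
    exact b.lb_s A ((Triv_pw (cmb_sym A (fun i => (b.ws_coc i).sym))
      (cmb_dia A (fun i => (b.ws_coc i).dia))).1 hA)
  Lv_c := by
    exact fun v => sd_Conn.2 (b.Lv_c v)
  Le_c := by
    exact fun v => sd_Conn.2 (b.Le_c v)
  Lt_c := by
    exact fun v => sd_Conn.2 (b.Lt_c v)
  Ls_c := by
    exact fun v => sd_Conn.2 (b.Ls_c v)
  Lb_c := by
    exact fun v => sd_Conn.2 (b.Lb_c v)
  Lbs_c := by
    exact fun v => sd_Conn.2 (b.Lbs_c v)
  Lv_top := by
    exact fun v x hx => b.Lv_top v _ (hx _ (pk_mem x))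
  Le_top := by
    exact fun v x hx => b.Le_top v _ (hx _ (pk_mem x))
  Lt_tt := by
    exact fun v x hx => b.Lt_tt v _ (hx _ (pk_mem x))
  Ls_tt := by
    exact fun v x hx => b.Ls_tt v _ (hx _ (pk_mem x))
  Lv_Le := by
    exact fun v e h => mi_mono (b.Lv_Le v e h)
  Lt_Ls := by
    exact fun v e h => mi_mono (b.Lt_Ls v e h)
  Le_Lb := by
    exact fun v e h => mi_mono (b.Le_Lb v e h)
  Ls_Lbs := by
    exact fun v e h => mi_mono (b.Ls_Lbs v e h)
  Le_B := by
    exact fun e => mi_mono (b.Le_B e)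
  Ls_Bs := by
    exact fun e => mi_mono (b.Ls_Bs e)
  Lb_B := by
    exact fun e => mi_mono (b.Lb_B e)
  Lbs_Bs := by
    exact fun e => mi_mono (b.Lbs_Bs e)
  far_B := by
    intro Z x hx
    obtain ⟨y, hy, hr⟩ := b.far_B Z (pk x) hx
    refine ⟨vx G y, ?_, rtg_pk (P := {z | ∀ s ∈ b.cr z, ¬ (s.1 : Set Vc) ⊆ Z}) ?_ hr⟩
    · intro z hz
      rw [Finset.mem_singleton.1 hz]
      exact hy
    · intro s hs h
      exact hx s hs (h.trans sub_nb)
  far_Bs := by
    intro Z x hx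
    obtain ⟨y, hy, hr⟩ := b.far_Bs Z (pk x) hx
    refine ⟨vx G y, ?_, rtg_pk (P := {z | ∀ s ∈ b.cr z, ¬ (s.1 : Set Vc) ⊆ Z}) ?_ hr⟩
    · intro z hz
      rw [Finset.mem_singleton.1 hz]
      exact hy
    · intro s hs h
      exact hx s hs (h.trans sub_nb)

/-- the plates one level later (`bt_bb` for `bb`, `sd_Conn`, `bt_Conn` for the complements) -/
def PltU.up [Finite Vc] [Finite V] {b : BaseU Gc G} (p : PltU b) : PltU b.up where
  Ue e := mi G (p.Ue e)
  Ud s := mi G (p.Ud s)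
  Ue_c := by
    exact fun e => sd_Conn.2 (p.Ue_c e)
  Ue_cc := by
    intro e
    show Conn (sd G) (mi G (p.Ue e))ᶜ
    rw [compl_mi]
    exact (bt_Conn mi_sub_pl subset_rfl).2 (p.Ue_cc e)
  Ue_bb := by
    intro e
    show bb (sd G) (mi G (p.Ue e)) = 0
    rw [bt_bb subset_rfl mi_sub_pl]
    exact p.Ue_bb e
  Ue_dis := by
    exact fun e e' h => ⟨mi_disj (p.Ue_dis e e' h).1, mi_nadj (p.Ue_dis e e' h).1⟩
  Ue_Bs := by
    exact fun e => ⟨mi_disj (p.Ue_Bs e).1, mi_nadj (p.Ue_Bs e).1⟩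
  Ue_NT := by
    exact fun e x hx y hy => p.Ue_NT e _ (hx _ (pk_mem x)) _ (Nr_pk hy)
  Ue_Lv := by
    exact fun e v => mi_disj (p.Ue_Lv e v)
  Ue_Le := by
    exact fun e e' h => mi_disj (p.Ue_Le e e' h)
  Ue_Lb := by
    exact fun e e' h => mi_disj (p.Ue_Lb e e' h)
  Ue_cr := by
    exact fun e x hx y hy => p.Ue_cr e _ (hx _ (pk_mem x)) _ (Nr_pk hy)
  rim_e := by
    intro e
    obtain ⟨s, hs, hn⟩ := p.rim_e e
    refine ⟨s, hs, fun ht => hn ?_⟩
    have ht' : Triv (sd G) (mi G (p.Ue e) ∩ mi G b.BsL) (pw G (b.ws s)) := ht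
    rw [← mi_inter] at ht'
    exact (Triv_pw (b.ws_coc s).sym (b.ws_coc s).dia).1 ht'
  Ud_c := by
    exact fun e => sd_Conn.2 (p.Ud_c e)
  Ud_cc := by
    intro e
    show Conn (sd G) (mi G (p.Ud e))ᶜ
    rw [compl_mi]
    exact (bt_Conn mi_sub_pl subset_rfl).2 (p.Ud_cc e)
  Ud_bb := by
    intro e
    show bb (sd G) (mi G (p.Ud e)) = 0
    rw [bt_bb subset_rfl mi_sub_pl]
    exact p.Ud_bb e
  Ud_dis := by
    exact fun e e' h => ⟨mi_disj (p.Ud_dis e e' h).1, mi_nadj (p.Ud_dis e e' h).1⟩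
  Ud_B := by
    exact fun e => ⟨mi_disj (p.Ud_B e).1, mi_nadj (p.Ud_B e).1⟩
  Ud_NTs := by
    exact fun e x hx y hy => p.Ud_NTs e _ (hx _ (pk_mem x)) _ (Nr_pk hy)
  Ud_Lt := by
    exact fun e v => mi_disj (p.Ud_Lt e v)
  Ud_Ls := by
    exact fun e e' h => mi_disj (p.Ud_Ls e e' h)
  Ud_Lbs := by
    exact fun e e' h => mi_disj (p.Ud_Lbs e e' h)
  Ud_cr := by
    exact fun e x hx y hy => p.Ud_cr e _ (hx _ (pk_mem x)) _ (Nr_pk hy)
  rim_s := by
    intro e
    obtain ⟨s, hs, hn⟩ := p.rim_s e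
    refine ⟨s, hs, fun ht => hn ?_⟩
    have ht' : Triv (sd G) (mi G (p.Ud e) ∩ mi G b.BL) (pw G (b.we s)) := ht
    rw [← mi_inter] at ht'
    exact (Triv_pw (b.we_coc s).sym (b.we_coc s).dia).1 ht'

/-- `BaseU` on level `n + k` -/
def upN (K : Lv) (n : ℕ) [Finite Vc] (b : BaseU Gc (tw K n).G) :
    (k : ℕ) → BaseU Gc (tw K (n + k)).G
  | 0 => b
  | k + 1 => (upN K n b k).up

/-- plates on level `n + k` -/
def upP (K : Lv) (n : ℕ) [Finite Vc] {b : BaseU Gc (tw K n).G} (p : PltU b) :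
    (k : ℕ) → PltU (upN K n b k)
  | 0 => p
  | k + 1 => (upP K n p k).up

end MOT
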