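import Pool.Agent.MOT.Start
import Pool.Agent.MOT.SaDef

/-!
# MOT/SuDef: the part of `Base` and `Start2` which is stable under subdivision
-/

open Classical

noncomputable section

namespace MOT

variable {Vc V : Type}

/-- the topology of the end game on one level, in a form which is stable under subdivision.
`NT`, `NTs`: sets outside which `top`, `tt` are compatible with `cr`; `Lb s`: neighbourhood of the boundary of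
`s`, `Lbs e`: neighbourhood of the dual loop around `e`. -/
structure BaseU (Gc : SimpleGraph Vc) (G : SimpleGraph V) where
  B : Set V
  Bs : Set V
  BL : Set V
  BsL : Set V
  NT : Set V
  NTs : Set V
  cr : V → Set (Cq Gc)
  top : V → Vc
  tt : V → Finset Vc
  we : Ec Gc → V → V → ZMod 2
  ws : Fc Gc → V → V → ZMod 2
  Bde : Ec Gc → Set V
  Bd : Fc Gc → Set V
  Lv : Vc → Set V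
  Le : Ec Gc → Set V
  Lt : Te Gc → Set V
  Ls : Fc Gc → Set V
  Lb : Fc Gc → Set V
  Lbs : Ec Gc → Set V
  cB : Conn G B
  cBs : Conn G Bs
  nBB : NAdj G B Bs
  dBB : Disjoint B Bs
  cBL : Conn G BL
  cBsL : Conn G BsL
  B_BL : B ⊆ BL
  Bs_BsL : Bs ⊆ BsL
  dBL : Disjoint BL BsL
  nBL : NAdj G BL BsL
  NTs_nb : ∀ x ∈ NTs, ∀ y, Nr G x y → y ∈ BL
  NT_nb : ∀ x ∈ NT, ∀ y, Nr G x y → y ∈ BsL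
  cr_ne : ∀ x, (cr x).Nonempty
  cr_chain : ∀ x y, Nr G x y → IsChain (· ≤ ·) (cr x ∪ cr y)
  cr_top : ∀ x, x ∉ NT → ∀ σ ∈ cr x, top x ∈ σ.1
  cr_tt : ∀ x, x ∉ NTs → ∀ σ ∈ cr x, σ.1 ⊆ tt x
  top_cl : ∀ Q : Set V, G.IsClique Q → ¬ Q ⊆ Bs → ∃ v w, (v = w ∨ Gc.Adj v w) ∧
    ∀ x ∈ Q, top x = v ∨ top x = w
  tt_cl : ∀ Q : Set V, G.IsClique Q → ¬ Q ⊆ B → ∃ t t' : Te Gc, (t = t' ∨ TAdj t.1 t'.1) ∧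
    ∀ x ∈ Q, tt x = t.1 ∨ tt x = t'.1
  we_def : ∀ e, ∀ Q : Set V, G.IsClique Q → ¬ Q ⊆ Bs → ∀ x ∈ Q, ∀ y ∈ Q,
    we e x y = if top x ≠ top y ∧ top x ∈ e.1 ∧ top y ∈ e.1 then 1 else 0
  ws_def : ∀ s, ∀ Q : Set V, G.IsClique Q → ¬ Q ⊆ B → ∀ x ∈ Q, ∀ y ∈ Q,
    ws s x y = if tt x ≠ tt y ∧ s.1 ⊆ tt x ∧ s.1 ⊆ tt y then 1 else 0
  we_coc : ∀ e, Coc G (Bde e) (we e)
  ws_coc : ∀ s, Coc G (Bd s) (ws s)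
  Bde_Lbs : ∀ e, Bde e ⊆ Lbs e
  Bd_Lb : ∀ s, Bd s ⊆ Lb s
  lb_e : ∀ A : Ec Gc → ZMod 2, Triv G B (cmb A we) →
    ∃ f : Vc → ZMod 2, ∀ (e : Ec Gc) (v w : Vc), v ≠ w → v ∈ e.1 → w ∈ e.1 → A e = f v + f w
  lb_s : ∀ A : Fc Gc → ZMod 2, Triv G Bs (cmb A ws) →
    ∃ f : Te Gc → ZMod 2, ∀ (s : Fc Gc) (t t' : Te Gc), t ≠ t' → s.1 ⊆ t.1 → s.1 ⊆ t'.1 →
      A s = f t + f t'
  Lv_c : ∀ v, Conn G (Lv v)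
  Le_c : ∀ e, Conn G (Le e)
  Lt_c : ∀ t, Conn G (Lt t)
  Ls_c : ∀ s, Conn G (Ls s)
  Lb_c : ∀ s, Conn G (Lb s)
  Lbs_c : ∀ e, Conn G (Lbs e)
  Lv_top : ∀ v, ∀ x ∈ Lv v, top x = v ∧ vx Gc v ∈ cr x
  Le_top : ∀ e, ∀ x ∈ Le e, top x ∈ e.1
  Lt_tt : ∀ t, ∀ x ∈ Lt t, tt x = t.1 ∧ t.q ∈ cr x
  Ls_tt : ∀ s, ∀ x ∈ Ls s, s.1 ⊆ tt x
  Lv_Le : ∀ v e, v ∈ e.1 → Lv v ⊆ Le e
  Lt_Ls : ∀ t s, s.1 ⊆ t.1 → Lt t ⊆ Ls s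
  Le_Lb : ∀ e s, e.1 ⊆ s.1 → Le e ⊆ Lb s
  Ls_Lbs : ∀ s e, e.1 ⊆ s.1 → Ls s ⊆ Lbs e
  Le_B : ∀ e, Le e ⊆ B
  Ls_Bs : ∀ s, Ls s ⊆ Bs
  Lb_B : ∀ s, Lb s ⊆ B
  Lbs_Bs : ∀ e, Lbs e ⊆ Bs
  far_B : ∀ (Z : Set Vc) (x : V), (∀ s ∈ cr x, ¬ (s.1 : Set Vc) ⊆ nb Gc Z) →
    ∃ y ∈ B, Relation.ReflTransGen (EIn G {z | ∀ s ∈ cr z, ¬ (s.1 : Set Vc) ⊆ Z}) x y
  far_Bs : ∀ (Z : Set Vc) (x : V), (∀ s ∈ cr x, ¬ (s.1 : Set Vc) ⊆ nb Gc Z) →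
    ∃ y ∈ Bs, Relation.ReflTransGen (EIn G {z | ∀ s ∈ cr z, ¬ (s.1 : Set Vc) ⊆ Z}) x y

/-- the plates on one level, in a form which is stable under subdivision -/
structure PltU {Gc : SimpleGraph Vc} {G : SimpleGraph V} (b : BaseU Gc G) where
  Ue : Ec Gc → Set V
  Ud : Fc Gc → Set V
  Ue_c : ∀ e, Conn G (Ue e)
  Ue_cc : ∀ e, Conn G (Ue e)ᶜ
  Ue_bb : ∀ e, bb G (Ue e) = 0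
  Ue_dis : ∀ e e', e ≠ e' → Disjoint (Ue e) (Ue e') ∧ NAdj G (Ue e) (Ue e')
  Ue_Bs : ∀ e, Disjoint (Ue e) b.Bs ∧ NAdj G (Ue e) b.Bs
  Ue_NT : ∀ e, ∀ x ∈ Ue e, ∀ y, Nr G x y → y ∉ b.NT
  Ue_Lv : ∀ e v, Disjoint (Ue e) (b.Lv v)
  Ue_Le : ∀ e e', e ≠ e' → Disjoint (Ue e) (b.Le e')
  Ue_Lb : ∀ e s, ¬ e.1 ⊆ s.1 → Disjoint (Ue e) (b.Lb s)
  Ue_cr : ∀ e, ∀ x ∈ Ue e, ∀ y, Nr G x y → e.q ∈ b.cr y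
  rim_e : ∀ e, ∃ s : Fc Gc, e.1 ⊆ s.1 ∧ ¬ Triv G (Ue e ∩ b.BsL) (b.ws s)
  Ud_c : ∀ s, Conn G (Ud s)
  Ud_cc : ∀ s, Conn G (Ud s)ᶜ
  Ud_bb : ∀ s, bb G (Ud s) = 0
  Ud_dis : ∀ s s', s ≠ s' → Disjoint (Ud s) (Ud s') ∧ NAdj G (Ud s) (Ud s')
  Ud_B : ∀ s, Disjoint (Ud s) b.B ∧ NAdj G (Ud s) b.B
  Ud_NTs : ∀ s, ∀ x ∈ Ud s, ∀ y, Nr G x y → y ∉ b.NTs
  Ud_Lt : ∀ s t, Disjoint (Ud s) (b.Lt t)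
  Ud_Ls : ∀ s s', s ≠ s' → Disjoint (Ud s) (b.Ls s')
  Ud_Lbs : ∀ s e, ¬ e.1 ⊆ s.1 → Disjoint (Ud s) (b.Lbs e)
  Ud_cr : ∀ s, ∀ x ∈ Ud s, ∀ y, Nr G x y → s.q ∈ b.cr y
  rim_s : ∀ s, ∃ e : Ec Gc, e.1 ⊆ s.1 ∧ ¬ Triv G (Ud s ∩ b.BL) (b.we e)

end MOT
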