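import Pool.Agent.MOT.SzDef
import Pool.Agent.MOT.SaC

/-!
# MOT/Sza: pieces under subdivision; discs of `S` are near their boundary
-/

open Classical

noncomputable section

namespace MOT

variable {V : Type} {G : SimpleGraph V} {I J : Type} {S B : Set V} {Pc Zi : I → Set V}
  {Cv : J → Set V}

/-- a clique all of whose vertices are on curves is on one curve -/
private theorem one_curve (h : Pieces G S B Pc Zi Cv) {s : Cq G} (hs : ∀ x ∈ s.1, ∃ j, x ∈ Cv j) :
    ∃ j, ∀ x ∈ s.1, x ∈ Cv j := by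
  obtain ⟨x, hx⟩ := s.2.1
  obtain ⟨j, hj⟩ := hs x hx
  refine ⟨j, fun y hy => ?_⟩
  obtain ⟨j', hj'⟩ := hs y hy
  by_cases e : j = j'
  · rw [e]; exact hj'
  · exfalso
    by_cases exy : x = y
    · subst exy
      exact Set.disjoint_left.1 (h.cna j j' e).1 hj hj'
    · exact (h.cna j j' e).2 x hj y hj' (s.2.2 (Finset.mem_coe.2 hx) (Finset.mem_coe.2 hy) exy)

/-- a clique inside `S` lies in one closed piece.
Sketch: if some `x ∈ s` is on no curve, `x ∈ Pc i`, then all of `s` is in `Pc i` (`fro` at `x`);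
otherwise `s` lies on one curve (`cna`) and `cin` applies. -/
theorem Pieces.clique (h : Pieces G S B Pc Zi Cv) {s : Cq G} (hs : s ∈ mi G S) :
    ∃ i, s ∈ mi G (Pc i) := by
  by_cases hc : ∀ x ∈ s.1, ∃ j, x ∈ Cv j
  · obtain ⟨j, hj⟩ := one_curve h hc
    obtain ⟨x, hx⟩ := s.2.1
    obtain ⟨i, hi⟩ := h.cover x (hs x hx)
    exact ⟨i, fun y hy => h.cin i j x (hj x hx) hi (hj y hy)⟩
  · push Not at hc
    obtain ⟨x, hx, hxc⟩ := hc
    obtain ⟨i, hi⟩ := h.cover x (hs x hx)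
    refine ⟨i, fun z hz => ?_⟩
    by_contra hzi
    have hne : x ≠ z := by
      rintro rfl
      exact hzi hi
    obtain ⟨j, hj⟩ := h.fro i x hi z (hs z hz) hzi
      (s.2.2 (Finset.mem_coe.2 hx) (Finset.mem_coe.2 hz) hne)
    exact hxc j hj

/-- Sketch of `fro`: `s ⊆ Pc i`, `z ⊆ S` adjacent, not inside `Pc i`: then `s < z`, some `z0 ∈ z` is not in
`Pc i`, all vertices of `s` are adjacent to `z0`, hence on curves, on one curve by `cna`. -/
theorem Pieces.sd (h : Pieces G S B Pc Zi Cv) :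
    Pieces (MOT.sd G) (mi G S) (mi G B) (fun i => mi G (Pc i)) (fun i => pl G (Zi i))
      (fun j => mi G (Cv j)) where
  cS := sd_Conn.2 h.cS
  sub := fun i => mi_mono (h.sub i)
  cover := fun s hs => h.clique hs
  zone := fun i => (mi_sub_pl).trans (pl_mono (h.zone i))
  fro := by
    intro i y hy z hz hzi hyz
    have hlt : y < z := by
      rcases sd_adj.1 hyz with h1 | h1
      · exact h1
      · exfalso
        exact hzi (fun x hx => hy x ((Cq.lt_iff.1 h1).1 hx))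
    have h2 : ∃ z0 ∈ z.1, z0 ∉ Pc i := by
      by_contra hc
      push Not at hc
      exact hzi hc
    obtain ⟨z0, hz0, hz0i⟩ := h2
    refine one_curve h (fun x hx => ?_)
    have hne : x ≠ z0 := by
      rintro rfl
      exact hz0i (hy x hx)
    exact h.fro i x (hy x hx) z0 (hz z0 hz0) hz0i
      (z.2.2 (Finset.mem_coe.2 ((Cq.lt_iff.1 hlt).1 hx)) (Finset.mem_coe.2 hz0) hne)
  csub := fun j => mi_mono (h.csub j)
  cin := by
    intro i j y hy hyi
    obtain ⟨x, hx⟩ := y.2.1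
    exact mi_mono (h.cin i j x (hy x hx) (hyi x hx))
  cc := fun j => sd_Conn.2 (h.cc j)
  cn := by
    intro j
    obtain ⟨w, hw, hn⟩ := h.cn j
    exact ⟨pw G w, hw.pw, fun t => hn ((Triv_pw hw.symm hw.zero).1 t)⟩
  cna := by
    intro j j' hj
    have key : ∀ s ∈ mi G (Cv j), ∀ t ∈ mi G (Cv j'), ∀ x ∈ s.1, x ∉ t.1 := by
      intro s hs t ht x hx hx'
      exact Set.disjoint_left.1 (h.cna j j' hj).1 (hs x hx) (ht x hx')
    constructor
    · rw [Set.disjoint_left]
      intro s hs hs'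
      obtain ⟨x, hx⟩ := s.2.1
      exact key s hs s hs' x hx hx
    · intro s hs t ht hst
      rcases sd_adj.1 hst with h1 | h1
      · obtain ⟨x, hx⟩ := s.2.1
        exact key s hs t ht x hx ((Cq.lt_iff.1 h1).1 hx)
      · obtain ⟨x, hx⟩ := t.2.1
        exact key s hs t ht x ((Cq.lt_iff.1 h1).1 hx) hx

/-- a connected set which meets `A` and its complement has an edge leaving `A` -/
private theorem exit_edge {C A : Set V} (hC : Conn G C) {x y : V} (hx : x ∈ C) (hxA : x ∈ A)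
    (hy : y ∈ C) (hyA : y ∉ A) : ∃ u v, EIn G C u v ∧ u ∈ A ∧ v ∉ A := by
  by_contra hc
  push Not at hc
  have key : ∀ z, Relation.ReflTransGen (EIn G C) x z → z ∈ A := by
    intro z hz
    induction hz with
    | refl => exact hxA
    | tail _ e ih => exact hc _ _ e ih
  exact hyA (key y (hC.2 x hx y hy))

/-- LOCATION OF DISCS.  `F ⊆ S` connected with `H^1 = 0`, `F /= S`: every `x ∈ F` lies in a closed piece
that contains a vertex of `F` with a neighbour in `S \ F`.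
Sketch: `x ∈ Pc i`, `K` := component of `x` in `F ∩ Pc i`.  Suppose no vertex of `Pc i ∩ F` has a
neighbour in `S \ F`.  `K /= S`, so some `y ∈ K` has a neighbour `z ∈ S \ K`; `z ∈ F`, so `z ∉ Pc i`
and `y ∈ Cv j`; the connected set `Cv j ⊆ Pc i` stays in `F`, so in `K`; but the class of `cn` is trivial
on `F` (`HZ`, `F` disjoint from `B`). -/
theorem Pieces.disc (h : Pieces G S B Pc Zi Cv) {F : Set V} (hF : F ⊆ S) (hz : HZ G F)
    (hB : Disjoint F B) (hne : F ≠ S) {x : V} (hx : x ∈ F) :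
    ∃ i, x ∈ Pc i ∧ ∃ y ∈ Pc i, y ∈ F ∧ ∃ z ∈ S, z ∉ F ∧ G.Adj y z := by
  obtain ⟨i, hi⟩ := h.cover x (hF hx)
  refine ⟨i, hi, ?_⟩
  by_contra hc
  push Not at hc
  obtain ⟨p, hpS, hpF⟩ : ∃ p ∈ S, p ∉ F := by
    by_contra hc2
    push Not at hc2
    exact hne (Set.Subset.antisymm hF hc2)
  obtain ⟨y, z, e, hy, hz'⟩ := exit_edge (A := F ∩ Pc i) h.cS (hF hx) ⟨hx, hi⟩ hpS
    (fun hp => hpF hp.1)
  have hzF : z ∈ F := by
    by_contra hzF
    exact hc y hy.2 hy.1 z e.2.2 hzF e.1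
  have hzi : z ∉ Pc i := fun hzi => hz' ⟨hzF, hzi⟩
  obtain ⟨j, hj⟩ := h.fro i y hy.2 z e.2.2 hzi e.1
  have hCi : Cv j ⊆ Pc i := h.cin i j y hj hy.2
  have hCF : Cv j ⊆ F := by
    intro q hq
    by_contra hqF
    obtain ⟨u, v, e', hu, hv⟩ := exit_edge (A := F) (h.cc j) hj hy.1 hq hqF
    exact hc u (hCi e'.2.1) hu v (h.csub j e'.2.2) hv e'.1
  obtain ⟨w, hw, hn⟩ := h.cn j
  exact hn ((Triv_rs.1 (hz _ (hw.rs_mem hB))).mono hCF)

/-- iterated transport of functions of sets by `mi` and `pl` -/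
theorem Pieces.miN {K : Lv} {n : ℕ} {S B : Set (tw K n).V} {Pc Zi : I → Set (tw K n).V}
    {Cv : J → Set (tw K n).V} (h : Pieces (tw K n).G S B Pc Zi Cv) (k : ℕ) :
    Pieces (tw K (n + k)).G (MOT.miN K n S k) (MOT.miN K n B k)
      (fun i => MOT.miN K n (Pc i) k) (fun i => plN K n (Zi i) k)
      (fun j => MOT.miN K n (Cv j) k) := by
  induction k with
  | zero => exact h
  | succ k ih => exact ih.sd

end MOT
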