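import Pool.Agent.MOT.SvDef
import Pool.Agent.MOT.Sza
import Pool.Agent.MOT.Flp

/-!
# MOT/SvA: transport of `PcsU`; location of discs and of frontiers after a flip
-/

open Classical

noncomputable section

namespace MOT

variable {Vc V : Type} {Gc : SimpleGraph Vc} {G : SimpleGraph V} {b : BaseU Gc G} {S : Set V}
  {J : Type}

theorem Ns_mono {A A' : Set Vc} (h : A ⊆ A') : b.Ns A ⊆ b.Ns A' :=
  fun _ ⟨τ, h1, h2⟩ => ⟨τ, h1, h2.trans h⟩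

theorem nb_mono' {A A' : Set Vc} (h : A ⊆ A') : nb Gc A ⊆ nb Gc A' :=
  fun _ ⟨y, hy, e⟩ => ⟨y, h hy, e⟩

/-- two vertices of a clique are equal or adjacent -/
theorem Nr_cl {s : Cq G} {x y : V} (hx : x ∈ s.1) (hy : y ∈ s.1) : Nr G x y := by
  by_cases h : x = y
  · exact Or.inl h
  · exact Or.inr (s.2.2 (Finset.mem_coe.2 hx) (Finset.mem_coe.2 hy) h)

/-- vertices of comparable cliques are equal or adjacent -/
theorem Nr_cl2 {s t : Cq G} {x y : V} (h : Nr (sd G) s t) (hx : x ∈ s.1) (hy : y ∈ t.1) :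
    Nr G x y := by
  rcases h with rfl | h | h
  · exact Nr_cl hx hy
  · exact Nr_cl (s := t) ((Cq.lt_iff.1 h).1 hx) hy
  · exact Nr_cl (s := s) hx ((Cq.lt_iff.1 h).1 hy)

/-- one more layer: `cr x ∪ cr y` is a chain -/
theorem Ns_nr {A : Set Vc} {x y : V} (h : Nr G x y) (hx : x ∈ b.Ns A) : y ∈ b.Ns (nb Gc A) := by
  obtain ⟨τ, h1, h2⟩ := hx
  obtain ⟨ρ, hρ⟩ := b.cr_ne y
  refine ⟨ρ, hρ, fun v hv => ?_⟩
  rcases (b.cr_chain x y h).total (Or.inl h1) (Or.inr hρ) with h3 | h3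
  · obtain ⟨u, hu⟩ := τ.2.1
    exact ⟨u, h2 (Finset.mem_coe.2 hu), Nr_cl (s := ρ) (Finset.mem_coe.1 hv) (Cq.le_iff.1 h3 hu)⟩
  · exact ⟨v, h2 (Finset.mem_coe.2 (Cq.le_iff.1 h3 (Finset.mem_coe.1 hv))), Or.inl rfl⟩

/-- `e.q ∈ cr x`: all vertices equal or adjacent to `x` are near `e` (`σ` any coarse simplex) -/
theorem Ns_of {σ : Cq Gc} {x y : V} (h : Nr G x y) (hx : σ ∈ b.cr x) :
    y ∈ b.Ns (nb Gc (σ.1 : Set Vc)) :=
  Ns_nr h ⟨σ, hx, subset_rfl⟩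

/-- the pieces one level later (`Pieces.sd`; `zn`: `x ∈ pl G (Zi i)`, `Nr x y` give `a ∈ Zi i` with
`Nr G a (pk y)`; `rel` at `pk`; `cw`: `Triv_pw`) -/
def PcsU.up [Finite Vc] [Finite V] (P : PcsU b S J) : PcsU b.up (mi G S) J where
  Pc i := mi G (P.Pc i)
  Zi i := pl G (P.Zi i)
  Cv j := mi G (P.Cv j)
  ej := P.ej
  pcs := P.pcs.sd
  SB := mi_disj P.SB
  SBs := mi_disj P.SBs
  zn := fun i x ⟨a, ha, haZ⟩ y h => P.zn i a haZ (pk y) (Nr_cl2 h ha (pk_mem y))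
  rel := fun i x hx σ hσ h2 => P.rel i (pk x) (hx _ (pk_mem x)) σ hσ h2
  cz := fun i j h => by
    refine P.cz i j fun x hx => ?_
    have h1 : vx G x ∈ mi G (P.Pc i) := h (fun y hy => by
      have : y ∈ ({x} : Finset V) := hy
      rw [Finset.mem_singleton] at this; subst this; exact hx)
    exact h1 x (Finset.mem_singleton_self x)
  cw := fun j s => by
    have h1 : Triv (MOT.sd G) (mi G (P.Cv j)) (pw G (b.ws s)) ↔ Triv G (P.Cv j) (b.ws s) :=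
      Triv_pw (b.ws_coc s).sym (b.ws_coc s).dia
    exact h1.trans (P.cw j s)

/-- the pieces on level `n + k` -/
def PcsU.upK {K : Lv} {n : ℕ} [Finite Vc] {b : BaseU Gc (tw K n).G} {S : Set (tw K n).V}
    (P : PcsU b S J) : (k : ℕ) → PcsU (upN K n b k) (miN K n S k) J
  | 0 => P
  | k + 1 => (P.upK k).up

/-- LOCATION OF DISCS: a disc `F` in `S` is near `σ` if its boundary is at `σ` (`Pieces.disc`, `rel`,
`zone`, `zn`) -/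
theorem PcsU.disc (P : PcsU b S J) {F : Set V} (hF : F ⊆ S) (hz : HZ G F) (hne : F ≠ S)
    {σ : Cq Gc} (h2 : 2 ≤ σ.1.card) (h : ∀ y ∈ F, ∀ z ∈ S, z ∉ F → G.Adj y z → σ ∈ b.cr y)
    {x : V} (hx : x ∈ F) {y : V} (hy : Nr G x y) : y ∈ b.Ns (nb Gc (σ.1 : Set Vc)) := by
  obtain ⟨i, hxi, y0, hy0i, hy0F, z, hzS, hzF, hadj⟩ := P.pcs.disc hF hz
    (P.SB.mono_left hF) hne hx
  have h3 := P.rel i y0 hy0i σ (h y0 hy0F z hzS hzF hadj) h2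
  exact Ns_mono (nb_mono' (Finset.coe_subset.2 h3)) (P.zn i x (P.pcs.zone i hxi) y hy)

/-- frontier after a cut along `F`: old frontier or at `F` -/
theorem Fr_cut_cases {U F : Set V} {Q : Cq (sd G)} (hQ : Q ∈ Fr (sd G) (cut G S U F)) :
    mx Q ∈ Fr G U ∨ mx Q ∈ pl G F := by
  by_cases hF : mx Q ∈ pl G F
  · exact Or.inr hF
  left
  have hnot : ∀ q ∈ Q.1, q ∉ pl G F := by
    rintro q hq ⟨x, hx, hxF⟩
    exact hF ⟨x, Cq.le_iff.1 (le_mx Q hq) hx, hxF⟩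
  obtain ⟨⟨q, hq, hqc⟩, q', hq', hqc'⟩ := hQ
  refine ⟨?_, ?_⟩
  · obtain ⟨x, hx, hxU⟩ := hqc.1
    exact ⟨x, Cq.le_iff.1 (le_mx Q hq) hx, hxU⟩
  · have h1 : q' ∉ pl G U := fun h => hqc' ⟨h, fun h' => hnot q' hq' h'.2⟩
    obtain ⟨x, hx⟩ := q'.2.1
    exact ⟨x, Cq.le_iff.1 (le_mx Q hq') hx, fun hxU => h1 ⟨x, hx, hxU⟩⟩

theorem loc_cut {U F A : Set V} (h : ∀ q ∈ Fr G U, ∀ x ∈ q.1, x ∈ A)
    (hF : ∀ x ∈ F, ∀ y, Nr G x y → y ∈ A) :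
    ∀ Q ∈ Fr (sd G) (cut G S U F), ∀ q ∈ Q.1, pk q ∈ A := by
  intro Q hQ q hq
  have hm : pk q ∈ (mx Q).1 := Cq.le_iff.1 (le_mx Q hq) (pk_mem q)
  rcases Fr_cut_cases hQ with h1 | ⟨x, hx, hxF⟩
  · exact h _ h1 _ hm
  · exact hF x hxF _ (Nr_cl hx hm)

theorem loc_fill {U F A : Set V} (h : ∀ q ∈ Fr G U, ∀ x ∈ q.1, x ∈ A)
    (hF : ∀ x ∈ F, ∀ y, Nr G x y → y ∈ A) :
    ∀ Q ∈ Fr (sd G) (fill G S U F), ∀ q ∈ Q.1, pk q ∈ A := by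
  rw [fill_eq, Fr_compl]
  exact loc_cut (fun q hq => h q (by rwa [Fr_compl] at hq)) hF

/-- curves of the plates on `S` are never inside the curves `Cv j` -/
theorem curve_up {C : Set V} {T : Set (Cq G)} (h : ∀ q ∈ T, ¬ (q.1 : Set V) ⊆ C) :
    ∀ Q ∈ mi (sd G) T, ¬ (Q.1 : Set (Cq G)) ⊆ mi G C := by
  intro Q hQ hs
  obtain ⟨q, hq⟩ := Q.2.1
  exact h q (hQ q hq) fun x hx => hs (Finset.mem_coe.2 hq) x hx

end MOT
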