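import Pool.Agent.MOT.Sza

/-!
# MOT/Szc: control: the colour classes are near their vertex
-/

open Classical

noncomputable section

namespace MOT

variable {V : Type} {G : SimpleGraph V} {I J : Type} {S B : Set V} {Pc Zi : I → Set V}
  {Cv : J → Set V} {Vc Ec Fc : Type} {e1 e2 : Ec → Vc} {es : Ec → Fc → Prop} {X : Set V}
  {ej : J → Ec} {nr : I → Ec → Prop} {D : Ec → Set (Cq G)} {Zq Zc : Ec → Set V} {vc : V → Vc}
  {ws : Fc → V → V → ZMod 2} {Bd : Fc → Set V}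

private theorem szc_exit {A K : Set V} {x x' : V} (r : Relation.ReflTransGen (EIn G A) x x')
    (hx : x ∈ K) (hx' : x' ∉ K) : ∃ y z, y ∈ K ∧ z ∉ K ∧ EIn G A y z := by
  induction r with
  | refl => exact absurd hx hx'
  | @tail b c r e ih =>
    by_cases hb : b ∈ K
    · exact ⟨b, c, hb, hx', e⟩
    · exact ih hb

/-- a curve in the region of `v` belongs to an edge at `v`.
Sketch: otherwise take a triangle `s` at the edge with `v ∉ s` (`coarse`); `ws s` is a cocycle on the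
region (`loc`), which is `HZ`, but it is not trivial on the curve. -/
theorem CtlIn.curve (h : CtlIn G e1 e2 es X S B Pc Zi Cv ej nr D Zq Zc vc ws Bd) {j : J} {y : V}
    (hy : y ∈ Cv j) : vc y = e1 (ej j) ∨ vc y = e2 (ej j) := by
  by_contra hn
  rw [not_or] at hn
  obtain ⟨s, hs, hs'⟩ := h.coarse (vc y) (ej j) hn.1 hn.2
  obtain ⟨hc, hd⟩ := h.loc s (vc y) hs'
  have h1 := h.hz (vc y) _ (hc.rs_mem hd)
  have h2 := Triv_rs.1 h1
  refine h.nontriv j s hs (h2.mono ?_)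
  intro x hx
  exact ⟨h.SX (h.pcs.csub j hx), h.mono j x hx y hy⟩

/-- an edge of `X` with two colours belongs to a disc at both colours -/
theorem CtlIn.edgeD (h : CtlIn G e1 e2 es X S B Pc Zi Cv ej nr D Zq Zc vc ws Bd) {x y : V}
    (hxy : EIn G X x y) (hne : vc x ≠ vc y) :
    ∃ b, (vc x = e1 b ∨ vc x = e2 b) ∧ eg G hxy.1 ∈ D b := by
  rcases h.adj x y hxy with h1 | ⟨b, hb⟩
  · exact absurd h1 hne
  have hx : vc x = e1 b ∨ vc x = e2 b := by
    have : vc x ∈ ({e1 b, e2 b} : Set Vc) := by rw [← hb]; exact Set.mem_insert _ _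
    simpa using this
  have hy : vc y = e1 b ∨ vc y = e2 b := by
    have : vc y ∈ ({e1 b, e2 b} : Set Vc) := by
      rw [← hb]; exact Set.mem_insert_of_mem _ rfl
    simpa using this
  have mx : x ∈ (eg G hxy.1).1 := Finset.mem_insert_self x {y}
  have my : y ∈ (eg G hxy.1).1 := Finset.mem_insert_of_mem (Finset.mem_singleton_self y)
  have hX : eg G hxy.1 ∈ mi G X := by
    intro u hu
    have hu' : u = x ∨ u = y := by
      have : u ∈ ({x, y} : Finset V) := hu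
      simpa using this
    rcases hu' with rfl | rfl
    · exact hxy.2.1
    · exact hxy.2.2
  have hD : eg G hxy.1 ∈ D b := by
    rw [← h.disc b]
    refine ⟨hX, ?_, ?_⟩
    · rcases hx with hx | hx
      · exact ⟨x, mx, hx⟩
      · rcases hy with hy | hy
        · exact ⟨y, my, hy⟩
        · exact absurd (hx.trans hy.symm) hne
    · rcases hx with hx | hx
      · rcases hy with hy | hy
        · exact absurd (hx.trans hy.symm) hne
        · exact ⟨y, my, hy⟩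
      · exact ⟨x, mx, hx⟩
  exact ⟨b, hx, hD⟩

/-- an edge of `X` with two colours lies in the zone of a disc at both colours -/
theorem CtlIn.edge (h : CtlIn G e1 e2 es X S B Pc Zi Cv ej nr D Zq Zc vc ws Bd) {x y : V}
    (hxy : EIn G X x y) (hne : vc x ≠ vc y) :
    ∃ b, (vc x = e1 b ∨ vc x = e2 b) ∧ x ∈ Zq b := by
  obtain ⟨b, hb, hD⟩ := h.edgeD hxy hne
  exact ⟨b, hb, h.zq b _ hD x (Finset.mem_insert_self x {y})⟩

theorem CtlIn.edgeS (h : CtlIn G e1 e2 es X S B Pc Zi Cv ej nr D Zq Zc vc ws Bd) {x y : V}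
    (hxy : EIn G S x y) (hne : vc x ≠ vc y) :
    ∃ b, (vc x = e1 b ∨ vc x = e2 b) ∧ x ∈ Zc b := by
  obtain ⟨b, hb, hD⟩ := h.edgeD (hxy.mono h.SX) hne
  refine ⟨b, hb, h.zc b _ hD ?_ x (Finset.mem_insert_self x {y})⟩
  intro u hu
  have hu' : u = x ∨ u = y := by
    have : u ∈ ({x, y} : Finset V) := hu
    simpa using this
  rcases hu' with rfl | rfl
  · exact hxy.2.1
  · exact hxy.2.2

/-- CONTROL ON `S`.  Sketch: `x ∈ Pc i`, `K` := component of `x` in `{y ∈ S ∩ Pc i | vc y = vc x}`;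
`K /= S` by `two`, so `y ∈ K` has a neighbour `z ∈ S \ K`.  `vc z /= vc y`: `CtlIn.edge`, `rel`.
Otherwise `z ∉ Pc i`, so `y ∈ Cv j ⊆ Pc i`: `cz`, `CtlIn.curve`. -/
theorem CtlIn.onS (h : CtlIn G e1 e2 es X S B Pc Zi Cv ej nr D Zq Zc vc ws Bd) {x : V}
    (hx : x ∈ S) : ∃ i b, (vc x = e1 b ∨ vc x = e2 b) ∧ nr i b ∧ x ∈ Pc i := by
  obtain ⟨i, hi⟩ := h.pcs.cover x hx
  obtain ⟨x', hx', hv⟩ := h.two (vc x)
  have hxK : x ∈ comp G {y | y ∈ S ∧ y ∈ Pc i ∧ vc y = vc x} x :=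
    ⟨Relation.ReflTransGen.refl, hx, hi, rfl⟩
  have hx'K : x' ∉ comp G {y | y ∈ S ∧ y ∈ Pc i ∧ vc y = vc x} x := fun hk => hv hk.2.2.2
  obtain ⟨y, z, hy, hz, e⟩ := szc_exit (h.pcs.cS.2 x hx x' hx') hxK hx'K
  have hyi : y ∈ Pc i := hy.2.2.1
  have hyc : vc y = vc x := hy.2.2.2
  by_cases hc : vc y = vc z
  · have hzi : z ∉ Pc i := by
      intro hzi
      exact hz ⟨hy.1.tail ⟨e.1, hy.2, e.2.2, hzi, hc.symm.trans hyc⟩, e.2.2, hzi,
        hc.symm.trans hyc⟩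
    obtain ⟨j, hj⟩ := h.pcs.fro i y hyi z e.2.2 hzi e.1
    have hji := h.pcs.cin i j y hj hyi
    refine ⟨i, ej j, ?_, h.cz i j hji, hi⟩
    rw [← hyc]
    exact h.curve hj
  · obtain ⟨b, hb, hyb⟩ := h.edgeS e hc
    refine ⟨i, b, ?_, h.rel i b y hyi hyb, hi⟩
    rw [← hyc]
    exact hb

/-- CONTROL.  If every vertex outside `N` can be connected to a vertex which is not in the region of `v` by
a path outside the zone of `v`, the region is in `N`.  (A vertex of the region with a neighbour outside the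
region is in the zone: `bdry`, `CtlIn.onS`, `CtlIn.edge`.) -/
theorem CtlIn.nearF (h : CtlIn G e1 e2 es X S B Pc Zi Cv ej nr D Zq Zc vc ws Bd) {v : Vc}
    {N : Set V} (hf : ∀ x, x ∉ N → ∃ y, ¬ (y ∈ X ∧ vc y = v) ∧
      Relation.ReflTransGen (EIn G (Znear e1 e2 Zi nr Zq v)ᶜ) x y) :
    {x | x ∈ X ∧ vc x = v} ⊆ N := by
  rintro x ⟨hxX, hxv⟩
  by_contra hn
  obtain ⟨z, hz', hr⟩ := hf x hn
  obtain ⟨y, z', hy, hz1, e⟩ := szc_exit (K := {x | x ∈ X ∧ vc x = v}) hr ⟨hxX, hxv⟩ hz'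
  refine e.2.1 ?_
  by_cases hzX : z' ∈ X
  · have hcz : vc y ≠ vc z' := fun h1 => hz1 ⟨hzX, h1.symm.trans hy.2⟩
    obtain ⟨b, hb, hyb⟩ := h.edge ⟨e.1, hy.1, hzX⟩ hcz
    rw [hy.2] at hb
    exact ⟨b, hb, Or.inl hyb⟩
  · obtain ⟨i, b, hb, hnr, hyi⟩ := h.onS (h.bdry y z' hy.1 hzX e.1)
    rw [hy.2] at hb
    exact ⟨b, hb, Or.inr ⟨i, hnr, h.pcs.zone i hyi⟩⟩

end MOT
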