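import Pool.Agent.MOT.SvA
import Pool.Agent.MOT.Szc
import Pool.Agent.MOT.ScC
import Pool.Agent.MOT.SbDef
import Pool.Agent.MOT.SaS
import Pool.Agent.MOT.FnDef

/-!
# MOT/SvC: control of the colour classes of the structure theorem (side of `M`)
-/

open Classical

noncomputable section

namespace MOT

variable {Vc V : Type} {Gc : SimpleGraph Vc} {G : SimpleGraph V} {b : BaseU Gc G} {S X : Set V}
  {J : Type} {D : Ec Gc → Set (Cq G)} {vc : V → Vc}

/-- input of the control theorem on one level: `X` = closed side of the surface `S`, `vc` = colouring of `X`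
by the structure theorem, `D e` = disc of the edge `e`.  `i1`, `i2`, `i3`, `i4` are helper73's invariants
(I1) .. (I4). -/
structure CtlU (b : BaseU Gc G) (S X : Set V) (P : PcsU b S J) (D : Ec Gc → Set (Cq G))
    (vc : V → Vc) : Prop where
  SX : S ⊆ X
  bdry : ∀ x y, x ∈ X → y ∉ X → G.Adj x y → x ∈ S
  XBs : Disjoint X b.Bs
  BX : b.B ⊆ X
  out : StrOut G cE1 cE2 X D b.Lv vc
  cne : ∀ e, ∃ q ∈ D e, q ∈ mi G S
  i1 : ∀ e, ∀ q ∈ D e, q ∈ mi G S → ∀ x ∈ q.1, e.q ∈ b.cr x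
  i2 : ∀ e, ∀ q ∈ D e, ∀ x ∈ q.1, x ∈ b.Ns (nb Gc (e.1 : Set Vc))
  i3 : ∀ e, ∀ q ∈ D e, q ∈ mi G S → ∀ j, ¬ (q.1 : Set V) ⊆ P.Cv j
  i4 : ∀ (s : Fc Gc) (e : Ec Gc), ¬ e.1 ⊆ s.1 → ∀ q ∈ D e, ¬ (q.1 : Set V) ⊆ b.Lb s

/-- an edge of `X` with two colours is an element of some `D e` -/
theorem CtlU.edge {P : PcsU b S J} (h : CtlU b S X P D vc) {x y : V} (hxy : EIn G X x y)
    (hne : vc x ≠ vc y) : ∃ e : Ec Gc, vc x ∈ e.1 ∧ vc y ∈ e.1 ∧ eg G hxy.1 ∈ D e := by
  rcases h.out.adj x y hxy with h1 | ⟨e, he⟩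
  · exact absurd h1 hne
  have hx : vc x = cE1 e ∨ vc x = cE2 e := by
    have : vc x ∈ ({cE1 e, cE2 e} : Set Vc) := by rw [← he]; exact Set.mem_insert _ _
    simpa using this
  have hy : vc y = cE1 e ∨ vc y = cE2 e := by
    have : vc y ∈ ({cE1 e, cE2 e} : Set Vc) := by
      rw [← he]; exact Set.mem_insert_of_mem _ rfl
    simpa using this
  have mx : x ∈ (eg G hxy.1).1 := Finset.mem_insert_self x {y}
  have my : y ∈ (eg G hxy.1).1 := Finset.mem_insert_of_mem (Finset.mem_singleton_self y)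
  have hX : eg G hxy.1 ∈ mi G X := by
    intro u hu
    have hu' : u = x ∨ u = y := by
      have : u ∈ ({x, y} : Finset V) := hu
      simpa using this
    rcases hu' with rfl | rfl
    · exact hxy.2.1
    · exact hxy.2.2
  refine ⟨e, ?_, ?_, ?_⟩
  · rcases hx with hx | hx <;> rw [hx]
    · exact cE_m1 e
    · exact cE_m2 e
  · rcases hy with hy | hy <;> rw [hy]
    · exact cE_m1 e
    · exact cE_m2 e
  · rw [← h.out.disc e]
    refine ⟨hX, ?_, ?_⟩
    · rcases hx with hx | hx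
      · exact ⟨x, mx, hx⟩
      · rcases hy with hy | hy
        · exact ⟨y, my, hy⟩
        · exact absurd (hx.trans hy.symm) hne
    · rcases hx with hx | hx
      · rcases hy with hy | hy
        · exact absurd (hx.trans hy.symm) hne
        · exact ⟨y, my, hy⟩
      · exact ⟨x, mx, hx⟩

private theorem eg_sub {A : Set V} {x y : V} (e : G.Adj x y) (hx : x ∈ A) (hy : y ∈ A) :
    ∀ u ∈ (eg G e).1, u ∈ A := by
  intro u hu
  have hu' : u = x ∨ u = y := by
    have : u ∈ ({x, y} : Finset V) := hu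
    simpa using this
  rcases hu' with rfl | rfl
  · exact hx
  · exact hy

/-- the curves `Cv j` have one colour (`i3`) -/
theorem CtlU.mono {P : PcsU b S J} (h : CtlU b S X P D vc) (j : J) {x y : V} (hx : x ∈ P.Cv j)
    (hy : y ∈ P.Cv j) : vc x = vc y := by
  have hr := (P.pcs.cc j).2 x hx y hy
  have key : ∀ z, Relation.ReflTransGen (EIn G (P.Cv j)) x z → vc x = vc z := by
    intro z hz
    induction hz with
    | refl => rfl
    | @tail u w _ e ih =>
      rw [ih]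
      by_contra hne
      have hS : ∀ u ∈ P.Cv j, u ∈ S := fun u hu => P.pcs.csub j hu
      obtain ⟨b', -, -, hD⟩ := h.edge (e.mono fun u hu => h.SX (hS u hu)) hne
      exact h.i3 b' _ hD (eg_sub e.1 (hS _ e.2.1) (hS _ e.2.2)) j
        (eg_sub e.1 e.2.1 e.2.2)
  exact key y hr

/-- on `Lb s` the colours are vertices of `s`: `Lb s` is connected, contains `Lv v` for `v ∈ s` (colour `v` by
`StrOut.anchor`), and a change of colour along an edge of `Lb s` is an element of `D e` inside `Lb s`, so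
`e < s` by `i4` -/
theorem CtlU.Lb_col {P : PcsU b S J} (h : CtlU b S X P D vc) (s : Fc Gc) {x : V}
    (hx : x ∈ b.Lb s) : vc x ∈ s.1 := by
  obtain ⟨v, w, u, hvw, hvu, hwu, hs⟩ := Finset.card_eq_three.1 s.2.1
  have hvs : v ∈ s.1 := by rw [hs]; simp
  have hws : w ∈ s.1 := by rw [hs]; simp
  have hadj : Gc.Adj v w := s.2.2 (Finset.mem_coe.2 hvs) (Finset.mem_coe.2 hws) hvw
  have hes : (mkE hadj).1 ⊆ s.1 := by
    intro z hz
    have : z ∈ ({v, w} : Finset Vc) := hz
    simp only [Finset.mem_insert, Finset.mem_singleton] at this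
    rcases this with rfl | rfl <;> assumption
  have hve : v ∈ (mkE hadj).1 := Finset.mem_insert_self v {w}
  obtain ⟨x0, hx0⟩ := (b.Lv_c v).1
  have hx0' : x0 ∈ b.Lb s := b.Le_Lb _ s hes (b.Lv_Le v _ hve hx0)
  have h0 : vc x0 = v := h.out.anchor v x0 hx0
  have key : ∀ z, Relation.ReflTransGen (EIn G (b.Lb s)) x0 z → vc z ∈ s.1 := by
    intro z hz
    induction hz with
    | refl => rw [h0]; exact hvs
    | @tail u w _ e ih =>
      by_cases hne : vc u = vc w
      · rw [← hne]; exact ih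
      · have hX : ∀ u ∈ b.Lb s, u ∈ X := fun u hu => h.BX (b.Lb_B s hu)
        obtain ⟨e', -, hw, hD⟩ := h.edge (e.mono fun u hu => hX u hu) hne
        by_cases hsub : e'.1 ⊆ s.1
        · exact hsub hw
        · exact absurd (eg_sub e.1 e.2.1 e.2.2) (h.i4 s e' hsub _ hD)
  exact key x ((b.Lb_c s).2 x0 hx0' x hx)

/-- the hypotheses of the general control theorem -/
theorem CtlU.ctlIn [Finite V] (hc : IsSph3 Gc) {P : PcsU b S J} (h : CtlU b S X P D vc) :
    CtlIn G cE1 cE2 (fun (e : Ec Gc) (s : Fc Gc) => e.1 ⊆ s.1) X S b.BL P.Pc P.Zi P.Cv P.ej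
      (fun i e => cvI i ⊆ e.1) D (fun e => b.Ns (nb Gc (e.1 : Set Vc)))
      (fun e => {x | e.q ∈ b.cr x}) vc b.ws b.Bd where
  pcs := P.pcs
  SX := h.SX
  bdry := h.bdry
  nontriv := fun j s hs ht => (P.cw j s).1 ht hs
  mono := fun j _ hx _ hy => h.mono j hx hy
  cz := P.cz
  zq := h.i2
  zc := h.i1
  rel := fun i e x hx he => P.rel i x hx e.q he (by
    show 2 ≤ e.1.card
    rw [e.2.1])
  adj := h.out.adj
  disc := h.out.disc
  hz := h.out.hz
  loc := by
    intro s v hv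
    refine ⟨(b.ws_coc s).CocO, ?_⟩
    have hvs : v ∉ s.1 := by
      intro hvs
      obtain ⟨w, hw, hne⟩ : ∃ w ∈ s.1, w ≠ v := by
        have : 1 < s.1.card := by rw [s.2.1]; norm_num
        exact Finset.exists_mem_ne this v
      have hadj : Gc.Adj v w := s.2.2 (Finset.mem_coe.2 hvs) (Finset.mem_coe.2 hw) hne.symm
      have hes : (mkE hadj).1 ⊆ s.1 := by
        intro z hz
        have : z ∈ ({v, w} : Finset Vc) := hz
        simp only [Finset.mem_insert, Finset.mem_singleton] at this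
        rcases this with rfl | rfl <;> assumption
      have hve : v ∈ (mkE hadj).1 := Finset.mem_insert_self v {w}
      rw [cE_eq] at hve
      have := hv _ hes
      simp only [Finset.mem_insert, Finset.mem_singleton] at hve
      tauto
    rw [Set.disjoint_left]
    rintro x ⟨-, hxv⟩ hxB
    have := h.Lb_col s (b.Bd_Lb s hxB)
    rw [hxv] at this
    exact hvs this
  coarse := by
    intro v e' h1 h2
    have hv : v ∉ e'.1 := by
      rw [cE_eq]; simp only [Finset.mem_insert, Finset.mem_singleton, not_or]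
      exact ⟨h1, h2⟩
    obtain ⟨s, hs, hvs⟩ := s_no_v hc e' v hv
    refine ⟨s, hs, fun e he => ⟨?_, ?_⟩⟩
    · rintro rfl
      exact hvs (he (cE_m1 e))
    · rintro rfl
      exact hvs (he (cE_m2 e))
  two := by
    intro v
    obtain ⟨e, -⟩ := v_e hc v
    obtain ⟨q, hq, hqS⟩ := h.cne e
    rw [← h.out.disc e] at hq
    obtain ⟨-, ⟨x, hx, hx1⟩, y, hy, hy2⟩ := hq
    by_cases hv : vc x = v
    · refine ⟨y, hqS y hy, fun hv' => cE_ne e ?_⟩
      rw [← hx1, ← hy2, hv, hv']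
    · exact ⟨x, hqS x hx, hv⟩

/-- CONTROL, side of `M`: the class of the vertex `v` is near `v` -/
theorem CtlU.near [Finite V] (hc : IsSph3 Gc) {P : PcsU b S J} (h : CtlU b S X P D vc) {x : V}
    (hx : x ∈ X) : x ∈ b.Ns (nbk Gc 3 {vc x}) := by
  refine (h.ctlIn hc).nearF (v := vc x) (N := b.Ns (nbk Gc 3 {vc x})) ?_ ⟨hx, rfl⟩
  intro z hz
  obtain ⟨y, hy, hr⟩ := b.far_Bs (nbk Gc 2 {vc x}) z (fun τ hτ hsub => hz ⟨τ, hτ, hsub⟩)
  refine ⟨y, fun h' => Set.disjoint_left.1 h.XBs h'.1 hy, rtg_mono ?_ hr⟩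
  rintro u hu ⟨e, hv, hu'⟩
  have hve : vc x ∈ e.1 := by
    rw [cE_eq]; simp only [Finset.mem_insert, Finset.mem_singleton]; exact hv
  have hsub : nb Gc (e.1 : Set Vc) ⊆ nbk Gc 2 {vc x} := by
    refine nb_mono' ?_
    intro w hw
    refine ⟨vc x, rfl, ?_⟩
    by_cases hwv : w = vc x
    · exact Or.inl hwv
    · exact Or.inr (e.2.2 hw (Finset.mem_coe.2 hve) hwv)
  have hN : u ∈ b.Ns (nb Gc (e.1 : Set Vc)) := by
    rcases hu' with hu' | ⟨i, hi, hui⟩
    · exact hu'
    · exact Ns_mono (nb_mono' (Finset.coe_subset.2 hi)) (P.zn i u hui u (Or.inl rfl))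
  obtain ⟨τ, hτ, hsub'⟩ := Ns_mono hsub hN
  exact hu τ hτ hsub'

end MOT
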