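import Pool.Agent.MOT.SbDef

/-!
# MOT/SzDef: control of positions: definitions

`Pieces`: the surface `S` (a vertex set) is divided into closed pieces `Pc i` along connected curves
`Cv j` (vertex sets), each of which carries a nontrivial class defined off `B`.
-/

open Classical

noncomputable section

namespace MOT

variable {V : Type} {G : SimpleGraph V} {I J : Type}

structure Pieces (G : SimpleGraph V) (S B : Set V) (Pc Zi : I → Set V) (Cv : J → Set V) :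
    Prop where
  cS : Conn G S
  sub : ∀ i, Pc i ⊆ S
  cover : ∀ x ∈ S, ∃ i, x ∈ Pc i
  zone : ∀ i, Pc i ⊆ Zi i
  fro : ∀ i, ∀ y ∈ Pc i, ∀ z ∈ S, z ∉ Pc i → G.Adj y z → ∃ j, y ∈ Cv j
  csub : ∀ j, Cv j ⊆ S
  cin : ∀ i j, ∀ y ∈ Cv j, y ∈ Pc i → Cv j ⊆ Pc i
  cc : ∀ j, Conn G (Cv j)
  cn : ∀ j, ∃ w : V → V → ZMod 2, CocO G B w ∧ ¬ Triv G (Cv j) w
  cna : ∀ j j', j ≠ j' → Disjoint (Cv j) (Cv j') ∧ NAdj G (Cv j) (Cv j')

/-- hypotheses of the control theorem on one level.  `X` closed side of `S`, `vc` the colouring of `X` by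
the structure theorem with discs `D b`, zones `Zq b` of the discs, `ej j` the coarse edge of the
curve `Cv j`, `nr i b`: the piece `i` is near the edge `b`; `es b s`: the edge `b` is in the triangle `s`;
`Zc b`: zone of the curve of the disc `b` in `S`; `Bd s`: neighbourhood of the boundary of `s`, off which
`ws s` is a cocycle. -/
structure CtlIn {Vc Ec Fc : Type} (G : SimpleGraph V) (e1 e2 : Ec → Vc) (es : Ec → Fc → Prop)
    (X S B : Set V) (Pc Zi : I → Set V) (Cv : J → Set V) (ej : J → Ec) (nr : I → Ec → Prop)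
    (D : Ec → Set (Cq G)) (Zq Zc : Ec → Set V) (vc : V → Vc) (ws : Fc → V → V → ZMod 2)
    (Bd : Fc → Set V) : Prop where
  pcs : Pieces G S B Pc Zi Cv
  SX : S ⊆ X
  bdry : ∀ x y, x ∈ X → y ∉ X → G.Adj x y → x ∈ S
  nontriv : ∀ j s, es (ej j) s → ¬ Triv G (Cv j) (ws s)
  mono : ∀ j, ∀ x ∈ Cv j, ∀ y ∈ Cv j, vc x = vc y
  cz : ∀ i j, Cv j ⊆ Pc i → nr i (ej j)
  zq : ∀ b, ∀ q ∈ D b, ∀ x ∈ q.1, x ∈ Zq b
  zc : ∀ b, ∀ q ∈ D b, q ∈ mi G S → ∀ x ∈ q.1, x ∈ Zc b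
  rel : ∀ i b, ∀ x ∈ Pc i, x ∈ Zc b → nr i b
  adj : ∀ x y, EIn G X x y → vc x = vc y ∨ ∃ b, ({vc x, vc y} : Set Vc) = {e1 b, e2 b}
  disc : ∀ b, {s : Cq G | s ∈ mi G X ∧ (∃ x ∈ s.1, vc x = e1 b) ∧ ∃ x ∈ s.1, vc x = e2 b} = D b
  hz : ∀ v, HZ G {x | x ∈ X ∧ vc x = v}
  loc : ∀ s v, (∀ e, es e s → v ≠ e1 e ∧ v ≠ e2 e) →
    CocO G (Bd s) (ws s) ∧ Disjoint {x | x ∈ X ∧ vc x = v} (Bd s)
  coarse : ∀ v e', v ≠ e1 e' → v ≠ e2 e' →
    ∃ s, es e' s ∧ ∀ e, es e s → v ≠ e1 e ∧ v ≠ e2 e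
  two : ∀ v, ∃ x ∈ S, vc x ≠ v

/-- the zone of the colour `v` -/
def Znear {Vc Ec : Type} (e1 e2 : Ec → Vc) (Zi : I → Set V) (nr : I → Ec → Prop)
    (Zq : Ec → Set V) (v : Vc) : Set V :=
  {x | ∃ b, (v = e1 b ∨ v = e2 b) ∧ (x ∈ Zq b ∨ ∃ i, nr i b ∧ x ∈ Zi i)}

end MOT
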