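import Pool.Agent.MOT.SuDef
import Pool.Agent.MOT.SuB
import Pool.Agent.MOT.SzDef

/-!
# MOT/SvDef: the pieces of the surface with their coarse position
-/

open Classical

noncomputable section

namespace MOT

variable {Vc V : Type} {Gc : SimpleGraph Vc} {G : SimpleGraph V}

/-- coarse support of a piece: a vertex or an edge -/
def cvI : Vc ⊕ Ec Gc → Finset Vc
  | Sum.inl v => {v}
  | Sum.inr e => e.1

/-- some element of `cr x` lies in `A` -/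
def BaseU.Ns (b : BaseU Gc G) (A : Set Vc) : Set V := {x | ∃ τ ∈ b.cr x, (τ.1 : Set Vc) ⊆ A}

/-- pieces of the surface `S` with their coarse position, stable under subdivision -/
structure PcsU (b : BaseU Gc G) (S : Set V) (J : Type) where
  Pc : Vc ⊕ Ec Gc → Set V
  Zi : Vc ⊕ Ec Gc → Set V
  Cv : J → Set V
  ej : J → Ec Gc
  pcs : Pieces G S b.BL Pc Zi Cv
  SB : Disjoint S b.BL
  SBs : Disjoint S b.BsL
  zn : ∀ i, ∀ x ∈ Zi i, ∀ y, Nr G x y → y ∈ b.Ns (nb Gc (cvI i : Set Vc))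
  rel : ∀ i, ∀ x ∈ Pc i, ∀ σ ∈ b.cr x, 2 ≤ σ.1.card → cvI i ⊆ σ.1
  cz : ∀ i j, Cv j ⊆ Pc i → cvI i ⊆ (ej j).1
  cw : ∀ j (s : Fc Gc), Triv G (Cv j) (b.ws s) ↔ ¬ (ej j).1 ⊆ s.1

end MOT
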