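import Pool.Agent.MOT.TmDef
import Pool.Agent.MOT.Bas

/-!
# MOT: THIN, coarse cells seen on a fine level (helper23)

`G0` is the coarse triangulation (graph on `V0`), `G` a fine level, `c x : Set V0` the carrier of the
vertex `x`.  Everything in the files `Tc*`, `Tf*`, `Tl*` uses only the fields of `CY`.
-/

open Classical

noncomputable section

namespace MOT

variable {V0 V : Type}

/-- closed coarse cell -/
def cel (c : V → Set V0) (t : Set V0) : Set V := {x | c x ⊆ t}

/-- boundary of a coarse cell -/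
def bdc (c : V → Set V0) (t : Set V0) : Set V := {x | c x ⊂ t}

/-- open coarse cell -/
def opc (c : V → Set V0) (t : Set V0) : Set V := {x | c x = t}

/-- 2-skeleton, 1-skeleton -/
def sk (c : V → Set V0) (d : ℕ) : Set V := {x | (c x).ncard ≤ d}

/-- boundaries of the coarse tetrahedra -/
def bdd (G0 : SimpleGraph V0) (c : V → Set V0) : Set (Set V) :=
  {B | ∃ t : Set V0, G0.IsClique t ∧ t.ncard = 4 ∧ B = bdc c t}

/-- carriers on the subdivision -/
def cs {G : SimpleGraph V} (c : V → Set V0) (s : Cq G) : Set V0 := {u | ∃ x ∈ s.1, u ∈ c x}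

/-- the coarse triangulation `G0` seen on the level `G` with carriers `c` -/
structure CY (G0 : SimpleGraph V0) (G : SimpleGraph V) (c : V → Set V0) : Prop where
  clq : ∀ x, (c x).Nonempty ∧ G0.IsClique (c x)
  cmp : ∀ x y, G.Adj x y → c x ⊆ c y ∨ c y ⊆ c x
  dim : ∀ t : Set V0, G0.IsClique t → ∀ s : Finset V, G.IsClique (s : Set V) →
    (∀ x ∈ s, c x ⊆ t) → s.card ≤ t.ncard
  cell : ∀ t : Set V0, t.Nonempty → G0.IsClique t → Conn G (cel c t) ∧ HZ G (cel c t)
  half : ∀ t : Set V0, G0.IsClique t → ∀ s : Finset V, s.Nonempty → G.IsClique (s : Set V) →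
    (∀ x ∈ s, c x ⊂ t) →
    Conn G (Lk G (s : Set V) ∩ opc c t) ∧ HZ G (Lk G (s : Set V) ∩ opc c t)
  vert : ∀ v : V0, ∃! x, c x = {v}
  path : ∀ t : Set V0, G0.IsClique t → t.ncard = 2 → ∀ x, c x = t →
    {y | G.Adj x y ∧ c y ⊆ t}.ncard = 2
  fin : ∀ t : Set V0, G0.IsClique t → t.ncard = 2 → ∀ x, c x ⊂ t →
    {y | G.Adj x y ∧ c y ⊆ t}.ncard = 1
  bd : ∀ t : Set V0, G0.IsClique t → t.ncard = 4 →
    Surf G (bdc c t) ∧ Conn G (bdc c t) ∧ HZ G (bdc c t)
  two : Conn G (sk c 3) ∧ HZ G (sk c 3)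

end MOT
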