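import Pool.Agent.MOT.TcSa
import Pool.Agent.MOT.Sph

/-!
# MOT: THIN, subdivision of a surface; cells, boundaries, 2-skeleton on `sd` (helper16)

`above_in_iso`: `t ↦ t \ s` (as in `above_iso`, file Sph).
`surf_edge`: in the cycle `C = Lk {x} ∩ S` the vertex `y` has exactly 2 neighbours, these are the common
neighbours of `x`, `y` in `S`; they are not adjacent (otherwise a 4-clique in `S`).
`surf_tri`: no vertex of `S` is adjacent to all vertices of a 3-clique in `S` (`k4`).
`sd_surf`: for `s ⊆ S`, `card s ≤ 3`, `Lk (sd G) {s} ∩ mi G S = {t < s} ∪ {t > s, t ⊆ S}`.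
`card s = 1`: `{t < s}` is empty, the second set is isomorphic to `mi (Lk s ∩ S)`, a subdivided cycle
(`sd_cyc`, no triangle in `Lk s ∩ S` by `k4`).  `card s = 2`: two points (`below_two`) and the two triangles
(`surf_edge`), `join_cyc`.  `card s = 3`: a hexagon (`below_cyc`), the second set is empty.  Cliques of `sd G`
in `mi G S` are chains of simplices with at most 3 vertices, so have at most 3 members.
-/

open Classical

noncomputable section

namespace MOT

variable {V0 V : Type} {G0 : SimpleGraph V0} {G : SimpleGraph V} {c : V → Set V0} {S : Set V}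

/-- the simplex `t \ s` -/
private def dff (s t : Cq G) : Cq G :=
  if h : (t.1.filter (fun x => x ∉ s.1)).Nonempty then
    ⟨t.1.filter (fun x => x ∉ s.1), h, t.2.2.subset (by
      intro x hx
      exact Finset.mem_coe.2 (Finset.mem_filter.1 (Finset.mem_coe.1 hx)).1)⟩
  else t

private theorem dff_val {s t : Cq G} (h : s < t) :
    (dff s t).1 = t.1.filter (fun x => x ∉ s.1) := by
  have hn : (t.1.filter (fun x => x ∉ s.1)).Nonempty := by
    obtain ⟨x, hx, hxs⟩ := Finset.exists_of_ssubset (Cq.lt_iff.1 h)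
    exact ⟨x, Finset.mem_filter.2 ⟨hx, hxs⟩⟩
  unfold dff
  rw [dif_pos hn]

private theorem dff_le {s t t' : Cq G} (h : s < t) (h' : s < t') :
    dff s t ≤ dff s t' ↔ t ≤ t' := by
  rw [Cq.le_iff, Cq.le_iff, dff_val h, dff_val h']
  constructor
  · intro hh x hx
    by_cases hxs : x ∈ s.1
    · exact (Cq.lt_iff.1 h').1 hxs
    · exact (Finset.mem_filter.1 (hh (Finset.mem_filter.2 ⟨hx, hxs⟩))).1
  · intro hh
    exact Finset.filter_subset_filter _ hh

private theorem dff_lt {s t t' : Cq G} (h : s < t) (h' : s < t') :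
    dff s t < dff s t' ↔ t < t' := by
  rw [lt_iff_le_not_ge, lt_iff_le_not_ge, dff_le h h', dff_le h' h]

private theorem above_in_iso' (s : Cq G) (A : Set V) :
    GIso (sd G) (sd G) {t | s < t ∧ ∀ x ∈ t.1, x ∉ s.1 → x ∈ A}
      (mi G (Lk G (s.1 : Set V) ∩ A)) (dff s) := by
  refine ⟨⟨?_, ?_, ?_⟩, ?_⟩
  · rintro t ⟨ht, hA⟩ x hx
    rw [dff_val ht, Finset.mem_filter] at hx
    refine ⟨fun y hy => ?_, hA x hx.1 hx.2⟩
    have hy' : y ∈ s.1 := hy
    refine t.2.2 (Finset.mem_coe.2 ((Cq.lt_iff.1 ht).1 hy')) (Finset.mem_coe.2 hx.1) ?_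
    rintro rfl
    exact hx.2 hy'
  · rintro t ⟨ht, -⟩ t' ⟨ht', -⟩ e
    exact le_antisymm ((dff_le ht ht').1 e.le) ((dff_le ht' ht).1 e.ge)
  · rintro r hr
    have hdis : ∀ x ∈ r.1, x ∉ s.1 := fun x hx hxs =>
      G.irrefl ((hr x hx).1 x (Finset.mem_coe.2 hxs))
    have hcl : G.IsClique ((s.1 ∪ r.1 : Finset V) : Set V) := by
      intro x hx y hy hxy
      rw [Finset.mem_coe, Finset.mem_union] at hx hy
      rcases hx with hx | hx <;> rcases hy with hy | hy
      · exact s.2.2 (Finset.mem_coe.2 hx) (Finset.mem_coe.2 hy) hxy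
      · exact (hr y hy).1 x (Finset.mem_coe.2 hx)
      · exact ((hr x hx).1 y (Finset.mem_coe.2 hy)).symm
      · exact r.2.2 (Finset.mem_coe.2 hx) (Finset.mem_coe.2 hy) hxy
    obtain ⟨x0, hx0⟩ := r.2.1
    have hst : s < (⟨s.1 ∪ r.1, ⟨x0, Finset.mem_union_right _ hx0⟩, hcl⟩ : Cq G) := by
      rw [Cq.lt_iff, Finset.ssubset_iff_of_subset Finset.subset_union_left]
      exact ⟨x0, Finset.mem_union_right _ hx0, hdis x0 hx0⟩
    refine ⟨⟨s.1 ∪ r.1, ⟨x0, Finset.mem_union_right _ hx0⟩, hcl⟩, ⟨hst, ?_⟩, ?_⟩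
    · intro x hx hxs
      exact (hr x ((Finset.mem_union.1 hx).resolve_left hxs)).2
    · refine Subtype.ext ?_
      rw [dff_val hst]
      ext x
      simp only [Finset.mem_filter, Finset.mem_union]
      constructor
      · rintro ⟨h1 | h1, h2⟩
        · exact absurd h1 h2
        · exact h1
      · intro h1
        exact ⟨Or.inr h1, hdis x h1⟩
  · rintro t ⟨ht, -⟩ t' ⟨ht', -⟩
    rw [sd_adj, sd_adj, dff_lt ht ht', dff_lt ht' ht]

theorem above_in_iso (s : Cq G) (A : Set V) : ∃ e : Cq G → Cq G,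
    GIso (sd G) (sd G) {t | s < t ∧ ∀ x ∈ t.1, x ∉ s.1 → x ∈ A}
      (mi G (Lk G (s.1 : Set V) ∩ A)) e :=
  ⟨dff s, above_in_iso' s A⟩

/-- four pairwise adjacent vertices of `S` do not exist -/
private theorem no4 (hS : Surf G S) {x y z w : V} (hx : x ∈ S) (hy : y ∈ S) (hz : z ∈ S)
    (hw : w ∈ S) (h1 : G.Adj x y) (h2 : G.Adj x z) (h3 : G.Adj x w) (h4 : G.Adj y z)
    (h5 : G.Adj y w) (h6 : G.Adj z w) : False := by
  have hc : ({x, y, z, w} : Finset V).card = 4 := by
    rw [Finset.card_insert_of_notMem, Finset.card_insert_of_notMem,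
      Finset.card_insert_of_notMem, Finset.card_singleton]
    · simp only [Finset.mem_singleton]; exact h6.ne
    · simp only [Finset.mem_insert, Finset.mem_singleton, not_or]
      exact ⟨h4.ne, h5.ne⟩
    · simp only [Finset.mem_insert, Finset.mem_singleton, not_or]
      exact ⟨h1.ne, h2.ne, h3.ne⟩
  have hk := hS.k4 {x, y, z, w} (by
    intro u hu v hv huv
    simp only [Finset.coe_insert, Finset.coe_singleton, Set.mem_insert_iff,
      Set.mem_singleton_iff] at hu hv
    rcases hu with rfl | rfl | rfl | rfl <;> rcases hv with rfl | rfl | rfl | rfl <;>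
      first
        | exact absurd rfl huv
        | assumption
        | (apply SimpleGraph.Adj.symm; assumption)) (by
    intro u hu
    simp only [Finset.coe_insert, Finset.coe_singleton, Set.mem_insert_iff,
      Set.mem_singleton_iff] at hu
    rcases hu with rfl | rfl | rfl | rfl <;> assumption)
  omega

theorem surf_edge (hS : Surf G S) {x y : V} (h : EIn G S x y) :
    (Lk G {x, y} ∩ S).ncard = 2 ∧
      ∀ z ∈ Lk G {x, y} ∩ S, ∀ w ∈ Lk G {x, y} ∩ S, ¬ G.Adj z w := by
  constructor
  · have hc := (hS.lk x h.2.1).2 y ⟨by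
      intro u hu
      rw [Set.mem_singleton_iff] at hu
      subst hu
      exact h.1, h.2.2⟩
    rw [← hc]
    congr 1
    ext w
    constructor
    · rintro ⟨h1, h2⟩
      refine ⟨h1 y (by simp), ⟨?_, h.2.2⟩, ?_, h2⟩
      · intro u hu
        rw [Set.mem_singleton_iff] at hu
        subst hu
        exact h.1
      · intro u hu
        rw [Set.mem_singleton_iff] at hu
        subst hu
        exact h1 u (by simp)
    · rintro ⟨h1, -, h2, h3⟩
      refine ⟨?_, h3⟩
      intro u hu
      rcases hu with rfl | hu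
      · exact h2 u rfl
      · rw [Set.mem_singleton_iff] at hu
        subst hu
        exact h1
  · rintro z ⟨hz, hzS⟩ w ⟨hw, hwS⟩ hzw
    exact no4 hS h.2.1 h.2.2 hzS hwS h.1 (hz x (by simp)) (hw x (by simp)) (hz y (by simp))
      (hw y (by simp)) hzw

/-- simplices in an independent set are vertices -/
private theorem ind_mi {T : Set V} (hT : ∀ z ∈ T, ∀ w ∈ T, ¬ G.Adj z w) :
    mi G T = (vx G) '' T := by
  ext s
  constructor
  · intro hs
    obtain ⟨x, hx⟩ := s.2.1
    refine ⟨x, hs x hx, ?_⟩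
    refine Subtype.ext ?_
    change ({x} : Finset V) = s.1
    ext y
    rw [Finset.mem_singleton]
    constructor
    · rintro rfl
      exact hx
    · intro hy
      by_contra hne
      exact hT y (hs y hy) x (hs x hx) (s.2.2 (Finset.mem_coe.2 hy) (Finset.mem_coe.2 hx) hne)
  · rintro ⟨x, hx, rfl⟩ y hy
    have : y = x := Finset.mem_singleton.1 hy
    rw [this]
    exact hx

private theorem vx_inj : Function.Injective (vx G) := by
  intro x y e
  have e1 : ({x} : Finset V) = {y} := congrArg Subtype.val e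
  exact Finset.singleton_injective e1

private theorem vx_nadj (x y : V) : ¬ (sd G).Adj (vx G x) (vx G y) := by
  rw [sd_adj]
  rintro (h | h)
  · have h1 := Finset.card_lt_card (Cq.lt_iff.1 h)
    change ({x} : Finset V).card < ({y} : Finset V).card at h1
    rw [Finset.card_singleton, Finset.card_singleton] at h1
    exact lt_irrefl _ h1
  · have h1 := Finset.card_lt_card (Cq.lt_iff.1 h)
    change ({y} : Finset V).card < ({x} : Finset V).card at h1
    rw [Finset.card_singleton, Finset.card_singleton] at h1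
    exact lt_irrefl _ h1

private theorem lk_sd {s : Cq G} (hs : s ∈ mi G S) : Lk (sd G) {s} ∩ mi G S =
    {t | t < s} ∪ {t | s < t ∧ ∀ x ∈ t.1, x ∉ s.1 → x ∈ S} := by
  ext t
  constructor
  · rintro ⟨h1, h2⟩
    rcases h1 s rfl with h | h
    · exact Or.inr ⟨h, fun x hx _ => h2 x hx⟩
    · exact Or.inl h
  · rintro (h | ⟨h, h2⟩)
    · refine ⟨?_, fun x hx => hs x ((Cq.lt_iff.1 h).1 hx)⟩
      intro u hu
      rw [Set.mem_singleton_iff] at hu
      subst hu
      exact Or.inr h
    · refine ⟨?_, fun x hx => ?_⟩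
      · intro u hu
        rw [Set.mem_singleton_iff] at hu
        subst hu
        exact Or.inl h
      · by_cases hxs : x ∈ s.1
        · exact hs x hxs
        · exact h2 x hx hxs

theorem sd_surf [Finite V] (hS : Surf G S) : Surf (sd G) (mi G S) := by
  have hcard : ∀ s ∈ mi G S, s.1.card ≤ 3 := fun s hs =>
    hS.k4 s.1 s.2.2 (fun x hx => hs x (Finset.mem_coe.1 hx))
  refine ⟨?_, ?_⟩
  · intro s hs
    rw [lk_sd hs]
    have h3 := hcard s hs
    have h1 : 1 ≤ s.1.card := Finset.card_pos.2 s.2.1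
    have hcases : s.1.card = 1 ∨ s.1.card = 2 ∨ s.1.card = 3 := by omega
    rcases hcases with h | h | h
    · -- a vertex
      have he : {t : Cq G | t < s} = ∅ := by
        rw [Set.eq_empty_iff_forall_notMem]
        intro t ht
        have h4 := Finset.card_lt_card (Cq.lt_iff.1 ht)
        have h5 : 1 ≤ t.1.card := Finset.card_pos.2 t.2.1
        omega
      rw [he, Set.empty_union, (above_in_iso' s S).isCyc]
      obtain ⟨x, hx⟩ := Finset.card_eq_one.1 h
      have hxS : x ∈ S := hs x (by rw [hx]; exact Finset.mem_singleton_self x)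
      rw [hx, Finset.coe_singleton]
      refine sd_cyc (hS.lk x hxS) ?_
      intro u v w huv hvw huw
      exact no4 hS hxS huv.2.1.2 huv.2.2.2 hvw.2.2.2 (huv.2.1.1 x rfl) (huv.2.2.1 x rfl)
        (hvw.2.2.1 x rfl) huv.1 huw.1 hvw.1
    · -- an edge
      obtain ⟨x, y, hxy, hxys⟩ := Finset.card_eq_two.1 h
      have hx : x ∈ s.1 := by rw [hxys]; simp
      have hy : y ∈ s.1 := by rw [hxys]; simp
      have hadj : G.Adj x y := s.2.2 (Finset.mem_coe.2 hx) (Finset.mem_coe.2 hy) hxy
      have hse := surf_edge hS (x := x) (y := y) ⟨hadj, hs x hx, hs y hy⟩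
      have hco : (s.1 : Set V) = {x, y} := by rw [hxys]; simp
      have iso := above_in_iso' s S
      rw [hco, ind_mi hse.2] at iso
      have hb2 := below_two s h
      refine join_cyc hb2.1 ?_ (fun t ht t' ht' => hb2.2 t t' ht ht') ?_ ?_
      · rw [← iso.bij.injOn.ncard_image, iso.bij.image_eq, Set.ncard_image_of_injective _ vx_inj]
        exact hse.1
      · intro t ht t' ht'
        rw [iso.adj t ht t' ht']
        obtain ⟨u, -, hu⟩ := iso.bij.mapsTo ht
        obtain ⟨v, -, hv⟩ := iso.bij.mapsTo ht'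
        rw [← hu, ← hv]
        exact vx_nadj u v
      · intro t ht t' ht'
        exact Or.inl (lt_trans ht ht'.1)
    · -- a triangle
      have he : {t : Cq G | s < t ∧ ∀ x ∈ t.1, x ∉ s.1 → x ∈ S} = ∅ := by
        rw [Set.eq_empty_iff_forall_notMem]
        rintro t ⟨ht, htS⟩
        have h4 := Finset.card_lt_card (Cq.lt_iff.1 ht)
        have h5 := hcard t (fun x hx => by
          by_cases hxs : x ∈ s.1
          · exact hs x hxs
          · exact htS x hx hxs)
        omega
      rw [he, Set.union_empty]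
      exact below_cyc s h
  · intro C hC hCS
    have hmap : ∀ s ∈ C, s.1.card ∈ Finset.Icc 1 3 := by
      intro s hs
      rw [Finset.mem_Icc]
      exact ⟨Finset.card_pos.2 s.2.1, hcard s (hCS (Finset.mem_coe.2 hs))⟩
    have hinj : Set.InjOn (fun s : Cq G => s.1.card) (C : Set (Cq G)) := by
      intro s hs t ht e
      by_contra hne
      rcases hC hs ht hne with h | h
      · exact (Finset.card_lt_card (Cq.lt_iff.1 h)).ne e
      · exact (Finset.card_lt_card (Cq.lt_iff.1 h)).ne e.symm
    have := Finset.card_le_card_of_injOn (fun s : Cq G => s.1.card) hmap hinj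
    simpa using this

theorem cy_cell (h : CY G0 G c) {t : Set V0} (hne : t.Nonempty) (ht : G0.IsClique t) :
    Conn (sd G) (cel (cs (G := G) c) t) ∧ HZ (sd G) (cel (cs (G := G) c) t) := by
  rw [← mi_cel]
  exact ⟨sd_Conn.2 (h.cell t hne ht).1, sd_HZ.2 (h.cell t hne ht).2⟩

theorem cy_bd [Finite V] (h : CY G0 G c) {t : Set V0} (ht : G0.IsClique t) (h4 : t.ncard = 4) :
    Surf (sd G) (bdc (cs (G := G) c) t) ∧ Conn (sd G) (bdc (cs (G := G) c) t) ∧
      HZ (sd G) (bdc (cs (G := G) c) t) := by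
  rw [← mi_bdc h]
  have hb := h.bd t ht h4
  exact ⟨sd_surf hb.1, sd_Conn.2 hb.2.1, sd_HZ.2 hb.2.2⟩

theorem cy_two [Finite V0] (h : CY G0 G c) :
    Conn (sd G) (sk (cs (G := G) c) 3) ∧ HZ (sd G) (sk (cs (G := G) c) 3) := by
  rw [← mi_sk h]
  exact ⟨sd_Conn.2 h.two.1, sd_HZ.2 h.two.2⟩

end MOT
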