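import Pool.Agent.MOT.TcSa
import Pool.Agent.MOT.Sph

/-!
# MOT: THIN, carriers on the subdivision III: half links (helper23)

Let `S` be a nonempty clique of `sd G` (a chain of simplices) with `cs c s ⊂ t` for `s ∈ S`, `s0` its
largest member.  A vertex `r` of `sd G` with `cs c r = t` comparable with `s0` is not contained in `s0`
(`cs_mono`), so `s0 ⊂ r`, and then it is above all of `S`.  So
`Lk (sd G) S ∩ opc (cs c) t = {r | s0 < r ∧ cs c r = t} =: U`.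
Retraction of `U` onto `U0 := {r | s0 < r ∧ ∀ x ∈ r.1, x ∉ s0.1 → x ∈ opc c t}` by
`r ↦ s0 ∪ (r ∩ opc c t)` (`ret_Conn`, `ret_HZ`; `r` contains a vertex with carrier `t`, by `cs_eq`, and all
carriers of `s0` are different from `t`).  For `U0` use `above_mi_Conn`, `above_mi_HZ` with
`A = opc c t` (file `Sph`), and `CY.half`.
-/

open Classical

noncomputable section

namespace MOT

variable {V0 V : Type} {G0 : SimpleGraph V0} {G : SimpleGraph V} {c : V → Set V0}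

/-- the retraction `r ↦ s0 ∪ (r ∩ opc c t)` -/
private def rho (c : V → Set V0) (t : Set V0) (s0 r : Cq G) : Cq G :=
  if h : (r.1.filter (fun x => x ∈ s0.1 ∨ c x = t)).Nonempty then
    ⟨r.1.filter (fun x => x ∈ s0.1 ∨ c x = t), h, r.2.2.subset (by
      intro x hx
      exact Finset.mem_coe.2 (Finset.mem_filter.1 (Finset.mem_coe.1 hx)).1)⟩
  else r

private theorem rho_val {t : Set V0} {s0 r : Cq G}
    (h : (r.1.filter (fun x => x ∈ s0.1 ∨ c x = t)).Nonempty) :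
    (rho c t s0 r).1 = r.1.filter (fun x => x ∈ s0.1 ∨ c x = t) := by
  unfold rho
  rw [dif_pos h]

private theorem rho_ne {t : Set V0} {s0 r : Cq G} (h : s0 < r) :
    (r.1.filter (fun x => x ∈ s0.1 ∨ c x = t)).Nonempty := by
  obtain ⟨x, hx⟩ := s0.2.1
  exact ⟨x, Finset.mem_filter.2 ⟨(Cq.lt_iff.1 h).1 hx, Or.inl hx⟩⟩

/-- the simplices strictly above `s0` with carrier `t` -/
theorem up_half (h : CY G0 G c) {t : Set V0} (ht : G0.IsClique t) (s0 : Cq G)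
    (hs : ∀ x ∈ s0.1, c x ⊂ t) :
    Conn (sd G) {r | s0 < r ∧ cs c r = t} ∧ HZ (sd G) {r | s0 < r ∧ cs c r = t} := by
  have h1 : {r : Cq G | s0 < r ∧ ∀ x ∈ r.1, x ∉ s0.1 → x ∈ opc c t} ⊆
      {r : Cq G | s0 < r ∧ cs c r = t} := by
    rintro r ⟨hr, hx⟩
    refine ⟨hr, (cs_eq h).2 ⟨fun x hxr => ?_, ?_⟩⟩
    · by_cases hx0 : x ∈ s0.1
      · exact (hs x hx0).1
      · have e : c x = t := hx x hxr hx0
        rw [e]
    · obtain ⟨x, hxr, hx0⟩ := Finset.exists_of_ssubset (Cq.lt_iff.1 hr)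
      exact ⟨x, hxr, hx x hxr hx0⟩
  have h2 : ∀ r ∈ {r : Cq G | s0 < r ∧ cs c r = t}, rho c t s0 r ∈
      {r : Cq G | s0 < r ∧ ∀ x ∈ r.1, x ∉ s0.1 → x ∈ opc c t} := by
    rintro r ⟨hr, hc⟩
    have hv := rho_val (c := c) (t := t) (rho_ne hr)
    obtain ⟨y, hyr, hy⟩ := ((cs_eq h).1 hc).2
    have hy0 : y ∉ s0.1 := fun hy0 => (hs y hy0).ne hy
    refine ⟨Cq.lt_iff.2 ?_, ?_⟩
    · rw [hv, Finset.ssubset_iff_of_subset]
      · exact ⟨y, Finset.mem_filter.2 ⟨hyr, Or.inr hy⟩, hy0⟩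
      · intro x hx
        exact Finset.mem_filter.2 ⟨(Cq.lt_iff.1 hr).1 hx, Or.inl hx⟩
    · intro x hx hx0
      rw [hv] at hx
      exact (Finset.mem_filter.1 hx).2.resolve_left hx0
  have h3 : ∀ r ∈ {r : Cq G | s0 < r ∧ cs c r = t}, rho c t s0 r ≤ r := by
    rintro r ⟨hr, -⟩
    rw [Cq.le_iff, rho_val (c := c) (t := t) (rho_ne hr)]
    exact Finset.filter_subset _ _
  have h4 : ∀ r ∈ {r : Cq G | s0 < r ∧ cs c r = t}, ∀ r' ∈ {r : Cq G | s0 < r ∧ cs c r = t},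
      r ≤ r' → rho c t s0 r ≤ rho c t s0 r' := by
    rintro r ⟨hr, -⟩ r' ⟨hr', -⟩ hle
    rw [Cq.le_iff, rho_val (c := c) (t := t) (rho_ne hr),
      rho_val (c := c) (t := t) (rho_ne hr')]
    exact Finset.filter_subset_filter _ (Cq.le_iff.1 hle)
  have h5 : ∀ r ∈ {r : Cq G | s0 < r ∧ ∀ x ∈ r.1, x ∉ s0.1 → x ∈ opc c t},
      rho c t s0 r = r := by
    rintro r ⟨hr, hx⟩
    refine Subtype.ext ?_
    rw [rho_val (c := c) (t := t) (rho_ne hr), Finset.filter_eq_self]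
    intro x hxr
    by_cases hx0 : x ∈ s0.1
    · exact Or.inl hx0
    · exact Or.inr (hx x hxr hx0)
  have hh := h.half t ht s0.1 s0.2.1 s0.2.2 hs
  exact ⟨(ret_Conn (rho c t s0) h1 h2 h3 h4).2 ((above_mi_Conn s0 (opc c t)).2 hh.1),
    (ret_HZ (rho c t s0) h1 h2 h3 h4 h5).2 ((above_mi_HZ s0 (opc c t)).2 hh.2)⟩

theorem cy_half (h : CY G0 G c) {t : Set V0} (ht : G0.IsClique t) (S : Finset (Cq G))
    (hne : S.Nonempty) (hS : (sd G).IsClique (S : Set (Cq G))) (hc : ∀ s ∈ S, cs c s ⊂ t) :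
    Conn (sd G) (Lk (sd G) (S : Set (Cq G)) ∩ opc (cs c) t) ∧
      HZ (sd G) (Lk (sd G) (S : Set (Cq G)) ∩ opc (cs c) t) := by
  obtain ⟨s0, hs0, hm⟩ := chain_top S hS hne
  have e : Lk (sd G) (S : Set (Cq G)) ∩ opc (cs c) t = {r | s0 < r ∧ cs c r = t} := by
    ext r
    constructor
    · rintro ⟨hl, hr⟩
      refine ⟨?_, hr⟩
      rcases hl s0 (Finset.mem_coe.2 hs0) with h1 | h1
      · exact h1
      · exfalso
        have h2 : cs c r ⊆ cs c s0 := cs_mono h1.le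
        have h3 : cs c r = t := hr
        rw [h3] at h2
        exact (hc s0 hs0).2 h2
    · rintro ⟨h1, hr⟩
      exact ⟨fun s hs => Or.inl (lt_of_le_of_lt (hm s (Finset.mem_coe.1 hs)) h1), hr⟩
  rw [e]
  exact up_half h ht s0 ((cs_ssub h).1 (hc s0 hs0))

end MOT
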