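import Pool.Agent.MOT.TcSa

/-!
# MOT: THIN, carriers on the subdivision IV: edges (helper23)

`t` a coarse edge (`t.ncard = 2`).  By `CY.dim` the simplices inside `cel c t` have at most 2 vertices.
`cy_path`: let `cs c s = t`.  If `s = {x}` then `c x = t` and the neighbours of `s` in the cell are the
`{x, y}`, `y` one of the two neighbours of `x` in the cell (`CY.path`).  If `s = {x, y}` then the neighbours
are `{x}` and `{y}`.
`cy_fin`: `cs c s ⊂ t`, so `cs c s = {v}` for some `v ∈ t` (nonempty proper subset of a 2-set), `s = {x}`,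
`c x = {v}` (two vertices with carrier `{v}` are equal by `CY.vert`), and the neighbours in the cell are
the `{x, y}`, `y` the unique neighbour of `x` in the cell (`CY.fin`).
-/

open Classical

noncomputable section

namespace MOT

variable {V0 V : Type} {G0 : SimpleGraph V0} {G : SimpleGraph V} {c : V → Set V0}

private def vl (G : SimpleGraph V) (r : Cq G) : Finset V := r.1

private theorem vl_inj (G : SimpleGraph V) : Function.Injective (vl G) := fun _ _ h => Subtype.ext h

private theorem nb_sing {t : Set V0} {x : V} {s : Cq G} (hx : s.1 = {x}) (hxt : c x ⊆ t)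
    (hd : ∀ r : Cq G, cs c r ⊆ t → r.1.card ≤ 2) :
    {r | (sd G).Adj s r ∧ cs c r ⊆ t}.ncard = {y | G.Adj x y ∧ c y ⊆ t}.ncard := by
  have e : (vl G) '' {r | (sd G).Adj s r ∧ cs c r ⊆ t} =
      (fun y => ({x, y} : Finset V)) '' {y | G.Adj x y ∧ c y ⊆ t} := by
    ext a
    constructor
    · rintro ⟨r, ⟨hr, hrt⟩, rfl⟩
      have hr' : s < r ∨ r < s := hr
      rcases hr' with h1 | h1
      · have h2 : s.1 ⊂ r.1 := h1
        rw [hx] at h2
        have hxr : x ∈ r.1 := h2.1 (Finset.mem_singleton_self x)
        have h3 : 1 < r.1.card := by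
          have := Finset.card_lt_card h2
          rwa [Finset.card_singleton] at this
        have h4 := hd r hrt
        have h5 : (r.1.erase x).card = 1 := by
          rw [Finset.card_erase_of_mem hxr]; omega
        obtain ⟨y, hy⟩ := Finset.card_eq_one.1 h5
        have hym : y ∈ r.1.erase x := by rw [hy]; exact Finset.mem_singleton_self y
        have hyx : y ≠ x := (Finset.mem_erase.1 hym).1
        have hyr : y ∈ r.1 := (Finset.mem_erase.1 hym).2
        refine ⟨y, ⟨?_, ?_⟩, ?_⟩
        · exact r.2.2 (Finset.mem_coe.2 hxr) (Finset.mem_coe.2 hyr) (Ne.symm hyx)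
        · exact cs_sub.1 hrt y hyr
        · show ({x, y} : Finset V) = r.1
          rw [← Finset.insert_erase hxr, hy]
      · exfalso
        have h2 : r.1 ⊂ s.1 := h1
        rw [hx] at h2
        have h3 := Finset.card_lt_card h2
        rw [Finset.card_singleton] at h3
        have h4 := Finset.card_pos.2 r.2.1
        omega
    · rintro ⟨y, ⟨hy, hyt⟩, rfl⟩
      have hne : x ≠ y := hy.ne
      have hcl : G.IsClique (({x, y} : Finset V) : Set V) := by
        intro a ha b hb hab
        simp only [Finset.coe_insert, Finset.coe_singleton, Set.mem_insert_iff,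
          Set.mem_singleton_iff] at ha hb
        rcases ha with rfl | rfl <;> rcases hb with rfl | rfl
        · exact absurd rfl hab
        · exact hy
        · exact hy.symm
        · exact absurd rfl hab
      refine ⟨⟨{x, y}, ⟨x, Finset.mem_insert_self _ _⟩, hcl⟩, ⟨?_, ?_⟩, rfl⟩
      · left
        show s.1 ⊂ ({x, y} : Finset V)
        rw [hx, Finset.ssubset_iff_of_subset (by
          intro z hz; rw [Finset.mem_singleton] at hz; rw [hz]; exact Finset.mem_insert_self _ _)]
        exact ⟨y, by simp, by simpa using hne.symm⟩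
      · refine cs_sub.2 ?_
        intro z hz
        have hz' : z ∈ ({x, y} : Finset V) := hz
        rw [Finset.mem_insert, Finset.mem_singleton] at hz'
        rcases hz' with rfl | rfl
        · exact hxt
        · exact hyt
  rw [← Set.ncard_image_of_injective _ (vl_inj G), e]
  refine Set.InjOn.ncard_image ?_
  rintro y ⟨hy, -⟩ z ⟨hz, -⟩ hyz
  have h1 : ({x, y} : Finset V) = {x, z} := hyz
  have h2 : y ∈ ({x, z} : Finset V) := by rw [← h1]; simp
  rw [Finset.mem_insert, Finset.mem_singleton] at h2
  rcases h2 with h2 | h2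
  · exact absurd h2 hy.ne.symm
  · exact h2

theorem cy_path [Finite V] (h : CY G0 G c) {t : Set V0} (ht : G0.IsClique t)
    (h2 : t.ncard = 2) (s : Cq G) (hs : cs c s = t) :
    {r | (sd G).Adj s r ∧ cs c r ⊆ t}.ncard = 2 := by
  have hd : ∀ r : Cq G, cs c r ⊆ t → r.1.card ≤ 2 := by
    intro r hr
    have := h.dim t ht r.1 r.2.2 (cs_sub.1 hr)
    rwa [h2] at this
  have h3 := hd s (le_of_eq hs)
  have h4 := Finset.card_pos.2 s.2.1
  obtain ⟨hall, x0, hx0, hx0t⟩ := (cs_eq h).1 hs
  have h5 : s.1.card = 1 ∨ s.1.card = 2 := by omega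
  rcases h5 with h5 | h5
  · obtain ⟨x, hx⟩ := Finset.card_eq_one.1 h5
    have hxx : x0 = x := by
      rw [hx, Finset.mem_singleton] at hx0
      exact hx0
    subst hxx
    rw [nb_sing hx (le_of_eq hx0t) hd]
    exact h.path t ht h2 _ hx0t
  · obtain ⟨x, y, hxy, hs2⟩ := Finset.card_eq_two.1 h5
    have e : (vl G) '' {r | (sd G).Adj s r ∧ cs c r ⊆ t} =
        {({x} : Finset V), ({y} : Finset V)} := by
      ext a
      constructor
      · rintro ⟨r, ⟨hr, hrt⟩, rfl⟩
        have hr' : s < r ∨ r < s := hr
        rcases hr' with h1 | h1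
        · exfalso
          have h6 : s.1 ⊂ r.1 := h1
          have h7 := Finset.card_lt_card h6
          have h8 := hd r hrt
          omega
        · have h6 : r.1 ⊂ s.1 := h1
          have h7 := Finset.card_lt_card h6
          have h8 := Finset.card_pos.2 r.2.1
          have h9 : r.1.card = 1 := by omega
          obtain ⟨z, hz⟩ := Finset.card_eq_one.1 h9
          have hz2 : z ∈ s.1 := h6.1 (by rw [hz]; exact Finset.mem_singleton_self z)
          rw [hs2, Finset.mem_insert, Finset.mem_singleton] at hz2
          rcases hz2 with rfl | rfl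
          · left; exact hz
          · right; exact hz
      · intro ha
        have key : ∀ z ∈ s.1, ({z} : Finset V) ∈
            (vl G) '' {r | (sd G).Adj s r ∧ cs c r ⊆ t} := by
          intro z hz
          have hcl : G.IsClique (({z} : Finset V) : Set V) := by
            intro a ha b hb hab
            simp only [Finset.coe_singleton, Set.mem_singleton_iff] at ha hb
            exact absurd (ha.trans hb.symm) hab
          refine ⟨⟨{z}, Finset.singleton_nonempty z, hcl⟩, ⟨?_, ?_⟩, rfl⟩
          · right
            show ({z} : Finset V) ⊂ s.1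
            refine Finset.ssubset_iff_subset_ne.2 ⟨by simpa using hz, ?_⟩
            intro hc
            rw [← hc, Finset.card_singleton] at h5
            omega
          · refine cs_sub.2 ?_
            intro w hw
            have hw' : w ∈ ({z} : Finset V) := hw
            rw [Finset.mem_singleton] at hw'
            rw [hw']
            exact hall z hz
        rcases ha with ha | ha
        · rw [ha]; exact key x (by rw [hs2]; simp)
        · have ha' : a = {y} := ha
          rw [ha']; exact key y (by rw [hs2]; simp)
    rw [← Set.ncard_image_of_injective _ (vl_inj G), e]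
    exact Set.ncard_pair (by
      intro hc
      exact hxy (Finset.singleton_injective hc))

theorem cy_fin [Finite V] (h : CY G0 G c) {t : Set V0} (ht : G0.IsClique t)
    (h2 : t.ncard = 2) (s : Cq G) (hs : cs c s ⊂ t) :
    {r | (sd G).Adj s r ∧ cs c r ⊆ t}.ncard = 1 := by
  have hd : ∀ r : Cq G, cs c r ⊆ t → r.1.card ≤ 2 := by
    intro r hr
    have := h.dim t ht r.1 r.2.2 (cs_sub.1 hr)
    rwa [h2] at this
  have htf : t.Finite := Set.finite_of_ncard_pos (by omega)
  have hall := (cs_ssub h).1 hs
  have hone : ∀ x ∈ s.1, ∃ v, c x = {v} := by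
    intro x hx
    have h3 := Set.ncard_lt_ncard (hall x hx) htf
    have hfx : (c x).Finite := htf.subset (hall x hx).1
    have h4 := (Set.ncard_pos hfx).2 (h.clq x).1
    exact Set.ncard_eq_one.1 (by omega)
  obtain ⟨x, hx⟩ := s.2.1
  have hsx : s.1 = {x} := by
    refine Finset.eq_singleton_iff_unique_mem.2 ⟨hx, ?_⟩
    intro y hy
    by_contra hne
    obtain ⟨v, hv⟩ := hone x hx
    obtain ⟨w, hw⟩ := hone y hy
    have hvw : w = v := by
      rcases h.cmp y x (s.2.2 (Finset.mem_coe.2 hy) (Finset.mem_coe.2 hx) hne) with h1 | h1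
      · rw [hv, hw] at h1
        exact Set.singleton_subset_singleton.1 h1
      · rw [hv, hw] at h1
        exact (Set.singleton_subset_singleton.1 h1).symm
    rw [hvw] at hw
    exact hne ((h.vert v).unique hw hv)
  rw [nb_sing hsx (hall x hx).1 hd]
  exact h.fin t ht h2 x (hall x hx)

end MOT
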