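import Pool.Agent.MOT.TcSb
import Pool.Agent.MOT.TcSc
import Pool.Agent.MOT.TcSd
import Pool.Agent.MOT.TcE

/-!
# MOT: THIN, `CY` is inherited by the subdivision (helper16): collect TcSb, TcSc, TcSd, TcE
-/

open Classical

noncomputable section

namespace MOT

variable {V0 V : Type} {G0 : SimpleGraph V0} {G : SimpleGraph V} {c : V → Set V0}

theorem cy_sd [Finite V0] [Finite V] (h : CY G0 G c) : CY G0 (sd G) (cs (G := G) c) where
  clq := cy_clq h
  cmp := fun _ _ e => cy_cmp e
  dim := fun _ ht s hs hc => cy_dim h ht s hs hc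
  cell := fun _ hne ht => cy_cell h hne ht
  half := fun _ ht s hne hs hc => cy_half h ht s hne hs hc
  vert := cy_vert h
  path := fun _ ht h2 s hs => cy_path h ht h2 s hs
  fin := fun _ ht h2 s hs => cy_fin h ht h2 s hs
  bd := fun _ ht h4 => cy_bd h ht h4
  two := cy_two h

end MOT
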