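import Pool.Agent.MOT.Tc
import Pool.Agent.MOT.Sph

/-!
# MOT: THIN, the first subdivision: the easy fields of `CY G0 (sd G0) c1` (helper16)

`c1 s = s` (the set of vertices of the simplex `s`).
`one_cell`: the simplices inside the clique `t` have the top element `t` (`top_Conn`, `top_HZ`).
`one_half`: the only vertex `r` of `sd G0` with `c1 r = t` is `t` itself, it is adjacent to all members of
the chain: the set is a single point.
`one_dim`: the members of a chain inside `t` have different cardinalities in `1..t.ncard`.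
`one_path`: `t = {u, v}`: neighbours of `s = t` in the cell are `{u}`, `{v}`.  `one_fin`: the proper subsets of
`t` are `{u}`, `{v}`, with the only neighbour `t`.
-/

open Classical

noncomputable section

namespace MOT

variable {V0 : Type} {G0 : SimpleGraph V0}

/-- carriers on the first subdivision -/
def c1 (G0 : SimpleGraph V0) (s : Cq G0) : Set V0 := (s.1 : Set V0)

private theorem tcb_inj {s t : Cq G0} (h : c1 G0 s = c1 G0 t) : s = t :=
  Subtype.ext (Finset.coe_injective h)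

private theorem tcb_adj {s t : Cq G0} :
    (sd G0).Adj s t ↔ c1 G0 s ⊂ c1 G0 t ∨ c1 G0 t ⊂ c1 G0 s := by
  rw [sd_adj, Cq.lt_iff, Cq.lt_iff, ← Finset.coe_ssubset, ← Finset.coe_ssubset]
  rfl

private theorem tcb_mk [Finite V0] {t : Set V0} (hne : t.Nonempty) (ht : G0.IsClique t) :
    ∃ m : Cq G0, c1 G0 m = t := by
  refine ⟨⟨(Set.toFinite t).toFinset, ?_, ?_⟩, ?_⟩
  · rwa [Set.Finite.toFinset_nonempty]
  · rwa [Set.Finite.coe_toFinset]
  · exact Set.Finite.coe_toFinset _

private theorem tcb_vx (v : V0) : c1 G0 (vx G0 v) = {v} := Finset.coe_singleton v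

private theorem tcb_left {u v : V0} (h : u ≠ v) : ({u} : Set V0) ⊂ {u, v} := by
  refine ⟨fun x hx => Or.inl hx, fun hc => ?_⟩
  have h1 : v ∈ ({u} : Set V0) := hc (Or.inr rfl)
  exact h (Set.mem_singleton_iff.1 h1).symm

private theorem tcb_ss (a b : V0) : ¬ ({a} : Set V0) ⊂ {b} := by
  intro h
  have h1 : a = b := h.subset (Set.mem_singleton a)
  rw [h1] at h
  exact ssubset_irrefl _ h

theorem one_clq (s : Cq G0) : (c1 G0 s).Nonempty ∧ G0.IsClique (c1 G0 s) := by
  exact ⟨Finset.coe_nonempty.2 s.2.1, s.2.2⟩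

theorem one_cmp {s t : Cq G0} (e : (sd G0).Adj s t) : c1 G0 s ⊆ c1 G0 t ∨ c1 G0 t ⊆ c1 G0 s := by
  rcases tcb_adj.1 e with h | h
  · exact Or.inl h.subset
  · exact Or.inr h.subset

theorem one_dim [Finite V0] {t : Set V0} (ht : G0.IsClique t) (s : Finset (Cq G0))
    (hs : (sd G0).IsClique (s : Set (Cq G0))) (hc : ∀ x ∈ s, c1 G0 x ⊆ t) :
    s.card ≤ t.ncard := by
  have h1 : s.card ≤ (Finset.Icc 1 t.ncard).card := by
    refine Finset.card_le_card_of_injOn (fun x => x.1.card) ?_ ?_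
    · intro x hx
      rw [Finset.mem_coe, Finset.mem_Icc]
      refine ⟨Finset.card_pos.2 x.2.1, ?_⟩
      have h2 := Set.ncard_le_ncard (hc x hx) (Set.toFinite t)
      rwa [c1, Set.ncard_coe_finset] at h2
    · intro x hx y hy hxy
      by_contra hne
      have hxy' : x.1.card = y.1.card := hxy
      rcases hs hx hy hne with h | h
      · have := Finset.card_lt_card (Cq.lt_iff.1 h)
        omega
      · have := Finset.card_lt_card (Cq.lt_iff.1 h)
        omega
  rwa [Nat.card_Icc, Nat.add_sub_cancel] at h1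

theorem one_cell [Finite V0] {t : Set V0} (hne : t.Nonempty) (ht : G0.IsClique t) :
    Conn (sd G0) (cel (c1 G0) t) ∧ HZ (sd G0) (cel (c1 G0) t) := by
  obtain ⟨m, hm⟩ := tcb_mk hne ht
  have h1 : m ∈ cel (c1 G0) t := hm.subset
  have h2 : ∀ x ∈ cel (c1 G0) t, x ≤ m := by
    intro x hx
    have hx' : c1 G0 x ⊆ c1 G0 m := hm ▸ hx
    exact Cq.le_iff.2 (Finset.coe_subset.1 hx')
  exact ⟨top_Conn h1 h2, top_HZ h1 h2⟩

theorem one_half [Finite V0] {t : Set V0} (ht : G0.IsClique t) (S : Finset (Cq G0))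
    (hne : S.Nonempty) (hS : (sd G0).IsClique (S : Set (Cq G0)))
    (hc : ∀ s ∈ S, c1 G0 s ⊂ t) :
    Conn (sd G0) (Lk (sd G0) (S : Set (Cq G0)) ∩ opc (c1 G0) t) ∧
      HZ (sd G0) (Lk (sd G0) (S : Set (Cq G0)) ∩ opc (c1 G0) t) := by
  obtain ⟨s, hs⟩ := hne
  obtain ⟨m, hm⟩ := tcb_mk ((one_clq s).1.mono (hc s hs).subset) ht
  have h1 : m ∈ Lk (sd G0) (S : Set (Cq G0)) ∩ opc (c1 G0) t := by
    refine ⟨fun x hx => ?_, hm⟩
    rw [tcb_adj, hm]
    exact Or.inl (hc x hx)
  have h2 : ∀ y ∈ Lk (sd G0) (S : Set (Cq G0)) ∩ opc (c1 G0) t, y ≠ m → (sd G0).Adj m y := by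
    intro y hy hne
    have hy' : c1 G0 y = t := hy.2
    exact absurd (tcb_inj (hy'.trans hm.symm)) hne
  exact ⟨cone_Conn h1 h2, cone_HZ h1 h2⟩

theorem one_vert (v : V0) : ∃! s : Cq G0, c1 G0 s = {v} := by
  exact ⟨vx G0 v, tcb_vx v, fun s hs => tcb_inj (hs.trans (tcb_vx v).symm)⟩

theorem one_path [Finite V0] {t : Set V0} (ht : G0.IsClique t) (h2 : t.ncard = 2) (s : Cq G0)
    (hs : c1 G0 s = t) : {r | (sd G0).Adj s r ∧ c1 G0 r ⊆ t}.ncard = 2 := by
  obtain ⟨u, v, huv, rfl⟩ := Set.ncard_eq_two.1 h2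
  have e : {r | (sd G0).Adj s r ∧ c1 G0 r ⊆ {u, v}} = {vx G0 u, vx G0 v} := by
    ext r
    constructor
    · rintro ⟨h3, h4⟩
      rw [tcb_adj, hs] at h3
      rcases Set.subset_pair_iff_eq.1 h4 with h | h | h | h
      · exact absurd h (one_clq r).1.ne_empty
      · exact Or.inl (tcb_inj (h.trans (tcb_vx u).symm))
      · exact Or.inr (tcb_inj (h.trans (tcb_vx v).symm))
      · rw [h] at h3
        rcases h3 with h3 | h3
        · exact absurd h3 (ssubset_irrefl _)
        · exact absurd h3 (ssubset_irrefl _)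
    · rintro (h | h)
      · rw [h]
        refine ⟨tcb_adj.2 (Or.inr ?_), ?_⟩
        · rw [tcb_vx, hs]
          exact tcb_left huv
        · rw [tcb_vx]
          exact (tcb_left huv).subset
      · rw [h]
        refine ⟨tcb_adj.2 (Or.inr ?_), ?_⟩
        · rw [tcb_vx, hs, Set.pair_comm]
          exact tcb_left huv.symm
        · rw [tcb_vx, Set.pair_comm]
          exact (tcb_left huv.symm).subset
  rw [e, Set.ncard_pair]
  intro h
  have h3 := congrArg (c1 G0) h
  rw [tcb_vx, tcb_vx, Set.singleton_eq_singleton_iff] at h3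
  exact huv h3

theorem one_fin [Finite V0] {t : Set V0} (ht : G0.IsClique t) (h2 : t.ncard = 2) (s : Cq G0)
    (hs : c1 G0 s ⊂ t) : {r | (sd G0).Adj s r ∧ c1 G0 r ⊆ t}.ncard = 1 := by
  obtain ⟨u, v, huv, rfl⟩ := Set.ncard_eq_two.1 h2
  obtain ⟨m, hm⟩ := tcb_mk ((one_clq s).1.mono hs.subset) ht
  have hw : ∃ w, c1 G0 s = {w} := by
    rcases Set.subset_pair_iff_eq.1 hs.subset with h | h | h | h
    · exact absurd h (one_clq s).1.ne_empty
    · exact ⟨u, h⟩
    · exact ⟨v, h⟩
    · rw [h] at hs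
      exact absurd hs (ssubset_irrefl _)
  obtain ⟨w, hw⟩ := hw
  have e : {r | (sd G0).Adj s r ∧ c1 G0 r ⊆ {u, v}} = {m} := by
    ext r
    constructor
    · rintro ⟨h3, h4⟩
      rw [tcb_adj, hw] at h3
      rcases Set.subset_pair_iff_eq.1 h4 with h | h | h | h
      · exact absurd h (one_clq r).1.ne_empty
      · rw [h] at h3
        rcases h3 with h3 | h3
        · exact absurd h3 (tcb_ss _ _)
        · exact absurd h3 (tcb_ss _ _)
      · rw [h] at h3
        rcases h3 with h3 | h3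
        · exact absurd h3 (tcb_ss _ _)
        · exact absurd h3 (tcb_ss _ _)
      · exact tcb_inj (h.trans hm.symm)
    · intro h
      rw [Set.mem_singleton_iff] at h
      rw [h]
      refine ⟨tcb_adj.2 (Or.inl ?_), hm.subset⟩
      rw [hm]
      exact hs
  rw [e, Set.ncard_singleton]

end MOT
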