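import Pool.Agent.MOT.TcB

/-!
# MOT: THIN, the first subdivision: boundaries of tetrahedra and the 2-skeleton (helper16)

`one_bd`: `t` with 4 vertices, `t'` the simplex: `bdc (c1 G0) t = {r | r < t'}`; `below_Conn`, `below_HZ`.
Surface: for `s < t'`: `Lk {s} ∩ {r < t'} = {r < s} ∪ {s < r < t'}`: `card s = 1`: empty and a hexagon
(`between_cyc`); `card s = 2`: two points and two points (`below_two`, `between_two`, `join_cyc`);
`card s = 3`: a hexagon (`below_cyc`) and nothing.  A chain of proper nonempty subsets of a 4-set has at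
most 3 members.
`one_two`: `sk (c1 G0) 3` = simplices with at most 3 vertices.  Connected: every simplex is adjacent or
equal to some `{x}` (`x` in it), and `{x}`, `{x, y}`, `{y}` is a path for an edge `x y`; `G0` is connected.
`HZ`: all simplices have `HZ` (`sd_HZ` with `A = univ`), remove the simplices `t` with 4 vertices: they
are pairwise not adjacent and not adjacent to anything outside `{r < t}`; a cocycle on the simplices
with at most 3 vertices is trivial on each `{r < t}` (`below_HZ`), so it extends over `t` (potential `f_t`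
there, put `a r t := f_t r`); the extension to all `t` at once is a cocycle of `univ`
(`IsSph3.k5`: no simplex with 5 vertices), hence trivial.
-/

open Classical

noncomputable section

namespace MOT

variable {V0 : Type} {G0 : SimpleGraph V0}

private theorem card_lt_of_lt {s t : Cq G0} (h : s < t) : s.1.card < t.1.card :=
  Finset.card_lt_card (Cq.lt_iff.1 h)

private theorem card_ne_of_adj {s t : Cq G0} (h : (sd G0).Adj s t) : s.1.card ≠ t.1.card := by
  rcases h with h | h
  · exact (card_lt_of_lt h).ne
  · exact (card_lt_of_lt h).ne'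

private theorem card_pos' (s : Cq G0) : 0 < s.1.card := Finset.card_pos.2 s.2.1

private theorem c1_ncard (s : Cq G0) : (c1 G0 s).ncard = s.1.card := by
  unfold c1
  exact Set.ncard_coe_finset _

private theorem lk_below (s t : Cq G0) (hs : s < t) :
    Lk (sd G0) {s} ∩ {r | r < t} = {r | r < s} ∪ {r | s < r ∧ r < t} := by
  ext r
  constructor
  · rintro ⟨h1, h2⟩
    rcases h1 s rfl with h | h
    · exact Or.inr ⟨h, h2⟩
    · exact Or.inl h
  · rintro (h | h)
    · refine ⟨fun x hx => ?_, lt_trans h hs⟩
      rw [Set.mem_singleton_iff] at hx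
      subst hx
      exact Or.inr h
    · refine ⟨fun x hx => ?_, h.2⟩
      rw [Set.mem_singleton_iff] at hx
      subst hx
      exact Or.inl h.1

theorem one_bd [Finite V0] {t : Set V0} (ht : G0.IsClique t) (h4 : t.ncard = 4) :
    Surf (sd G0) (bdc (c1 G0) t) ∧ Conn (sd G0) (bdc (c1 G0) t) ∧
      HZ (sd G0) (bdc (c1 G0) t) := by
  have htf : t.Finite := Set.toFinite t
  obtain ⟨T, rfl⟩ : ∃ T : Finset V0, (T : Set V0) = t := ⟨htf.toFinset, htf.coe_toFinset⟩
  rw [Set.ncard_coe_finset] at h4
  have hne : T.Nonempty := by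
    rw [← Finset.card_pos]; omega
  let t' : Cq G0 := ⟨T, hne, ht⟩
  have hc4 : t'.1.card = 4 := h4
  have hbd : bdc (c1 G0) (T : Set V0) = {r | r < t'} := by
    ext r
    show ((r.1 : Set V0) ⊂ (T : Set V0)) ↔ r < t'
    rw [Cq.lt_iff, Finset.coe_ssubset]
  rw [hbd]
  refine ⟨⟨?_, ?_⟩, below_Conn t' (by omega), below_HZ t' (by omega)⟩
  · intro s hs
    have hs' : s < t' := hs
    have hlt := card_lt_of_lt hs'
    have hpos := card_pos' s
    rw [lk_below s t' hs']
    have h123 : s.1.card = 1 ∨ s.1.card = 2 ∨ s.1.card = 3 := by omega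
    rcases h123 with h1 | h2 | h3
    · have he : {r : Cq G0 | r < s} = ∅ := by
        ext r
        simp only [Set.mem_setOf_eq, Set.mem_empty_iff_false, iff_false]
        intro hr
        have := card_lt_of_lt hr
        have := card_pos' r
        omega
      rw [he, Set.empty_union]
      exact between_cyc s t' hs' (by omega)
    · obtain ⟨a1, a2⟩ := below_two s h2
      obtain ⟨b1, b2⟩ := between_two s t' hs' (by omega)
      refine join_cyc a1 b1 (fun x hx y hy => a2 x y hx hy)
        (fun x hx y hy => b2 x y hx.1 hx.2 hy.1 hy.2) ?_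
      intro x hx y hy
      exact Or.inl (lt_trans hx hy.1)
    · have he : {r : Cq G0 | s < r ∧ r < t'} = ∅ := by
        ext r
        simp only [Set.mem_setOf_eq, Set.mem_empty_iff_false, iff_false]
        rintro ⟨hr1, hr2⟩
        have := card_lt_of_lt hr1
        have := card_lt_of_lt hr2
        omega
      rw [he, Set.union_empty]
      exact below_cyc s h3
  · intro s hs hsub
    have hmaps : ∀ x ∈ s, x.1.card ∈ Finset.Icc 1 3 := by
      intro x hx
      have h1 : x < t' := hsub (Finset.mem_coe.2 hx)
      have := card_lt_of_lt h1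
      have := card_pos' x
      rw [Finset.mem_Icc]
      omega
    have hinj : Set.InjOn (fun x : Cq G0 => x.1.card) (s : Set (Cq G0)) := by
      intro x hx y hy hxy
      by_contra hne
      exact card_ne_of_adj (hs hx hy hne) hxy
    have := Finset.card_le_card_of_injOn (fun x : Cq G0 => x.1.card) hmaps hinj
    simpa using this

theorem one_two [Finite V0] (h : IsSph3 G0) :
    Conn (sd G0) (sk (c1 G0) 3) ∧ HZ (sd G0) (sk (c1 G0) 3) := by
  have hmem : ∀ s : Cq G0, s ∈ sk (c1 G0) 3 ↔ s.1.card ≤ 3 := by
    intro s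
    show (c1 G0 s).ncard ≤ 3 ↔ _
    rw [c1_ncard]
  have hle4 : ∀ s : Cq G0, s.1.card ≤ 4 := fun s => h.k5 s.1 s.2.2
  constructor
  · rw [Conn_iff]
    constructor
    · obtain ⟨v, -⟩ := h.conn.1
      refine ⟨vx G0 v, ?_⟩
      rw [hmem]
      simp [vx]
    intro f hf
    have hvx : ∀ v : V0, vx G0 v ∈ sk (c1 G0) 3 := by
      intro v
      rw [hmem]
      simp [vx]
    have hg : ∀ u v : V0, EIn G0 Set.univ u v → f (vx G0 u) = f (vx G0 v) := by
      intro u v e
      have huv : u ≠ v := e.1.ne
      have hm : eg G0 e.1 ∈ sk (c1 G0) 3 := by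
        rw [hmem]
        show ({u, v} : Finset V0).card ≤ 3
        rw [Finset.card_pair huv]
        norm_num
      have e1 : vx G0 u < eg G0 e.1 := by
        rw [Cq.lt_iff]
        show ({u} : Finset V0) ⊂ {u, v}
        rw [Finset.ssubset_iff_of_subset (by simp)]
        exact ⟨v, by simp, by simpa using huv.symm⟩
      have e2 : vx G0 v < eg G0 e.1 := by
        rw [Cq.lt_iff]
        show ({v} : Finset V0) ⊂ {u, v}
        rw [Finset.ssubset_iff_of_subset (by simp)]
        exact ⟨u, by simp, by simpa using huv⟩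
      rw [hf _ _ ⟨Or.inl e1, hvx u, hm⟩, hf _ _ ⟨Or.inl e2, hvx v, hm⟩]
    have hs : ∀ s ∈ sk (c1 G0) 3, ∃ v, f s = f (vx G0 v) := by
      intro s hs
      obtain ⟨v, hv⟩ := s.2.1
      refine ⟨v, ?_⟩
      by_cases e : vx G0 v = s
      · rw [e]
      · have hle : vx G0 v ≤ s := by
          rw [Cq.le_iff]
          show ({v} : Finset V0) ⊆ s.1
          rw [Finset.singleton_subset_iff]
          exact hv
        exact (hf _ _ ⟨Or.inl (lt_of_le_of_ne hle e), hvx v, hs⟩).symm
    intro x hx y hy
    obtain ⟨u, hu⟩ := hs x hx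
    obtain ⟨v, hv⟩ := hs y hy
    rw [hu, hv]
    exact h.conn.const (f := fun z => f (vx G0 z)) hg (Set.mem_univ u) (Set.mem_univ v)
  · have hU : HZ (sd G0) Set.univ := by
      have h1 := (sd_HZ (G := G0) (A := Set.univ)).2 h.hz
      have h2 : mi G0 (Set.univ : Set V0) = Set.univ := by
        ext s
        simp [mi]
      rwa [h2] at h1
    intro a ha
    obtain ⟨h0, hs, hc⟩ := mem_Z1.1 ha
    have hsub : ∀ t : Cq G0, t.1.card = 4 → {r | r < t} ⊆ sk (c1 G0) 3 := by
      intro t ht r hr
      rw [hmem]
      have := card_lt_of_lt hr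
      omega
    have h1 : ∀ t : Cq G0, ∃ f : Cq G0 → ZMod 2, t.1.card = 4 →
        ∀ x y, EIn (sd G0) {r | r < t} x y → a x y = f x + f y := by
      intro t
      by_cases ht : t.1.card = 4
      · obtain ⟨f, hf⟩ := below_HZ t (by omega) _ (rs_mem (hsub t ht) ha)
        refine ⟨f, fun _ x y e => ?_⟩
        rw [← hf x y e, rs_apply e]
      · exact ⟨0, fun h => absurd h ht⟩
    choose f hf using h1
    -- an element adjacent to a simplex with four vertices lies below it
    have hlt : ∀ x y : Cq G0, (sd G0).Adj x y → x.1.card = 4 → y < x := by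
      intro x y e hx
      rcases e with e | e
      · have := card_lt_of_lt e
        have := hle4 y
        omega
      · exact e
    have hn4 : ∀ x y : Cq G0, (sd G0).Adj x y → x.1.card = 4 → y.1.card ≠ 4 := by
      intro x y e hx hy
      exact card_ne_of_adj e (hx.trans hy.symm)
    have hsk : ∀ x : Cq G0, x.1.card ≠ 4 → x ∈ sk (c1 G0) 3 := by
      intro x hx
      rw [hmem]
      have := hle4 x
      omega
    let b : Cq G0 → Cq G0 → ZMod 2 := fun r s =>
      if (sd G0).Adj r s then
        (if r.1.card = 4 then f r s else if s.1.card = 4 then f s r else a r s) else 0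
    have b0 : ∀ r s, ¬ (sd G0).Adj r s → b r s = 0 := fun r s e => if_neg e
    have bl : ∀ r s, (sd G0).Adj r s → r.1.card = 4 → b r s = f r s := by
      intro r s e hr
      simp only [b, if_pos e, if_pos hr]
    have br : ∀ r s, (sd G0).Adj r s → s.1.card = 4 → b r s = f s r := by
      intro r s e hr
      simp only [b, if_pos e, if_neg (hn4 s r e.symm hr), if_pos hr]
    have bn : ∀ r s, (sd G0).Adj r s → r.1.card ≠ 4 → s.1.card ≠ 4 → b r s = a r s := by
      intro r s e hr hs'
      simp only [b, if_pos e, if_neg hr, if_neg hs']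
    have hb : b ∈ Z1 (sd G0) Set.univ := by
      refine mem_Z1.2 ⟨fun x y e => b0 x y (fun e' => e ⟨e', trivial, trivial⟩), ?_, ?_⟩
      · intro x y
        by_cases e : (sd G0).Adj x y
        · by_cases hx : x.1.card = 4
          · rw [bl x y e hx, br y x e.symm hx]
          · by_cases hy : y.1.card = 4
            · rw [br x y e hy, bl y x e.symm hy]
            · rw [bn x y e hx hy, bn y x e.symm hy hx, hs]
        · rw [b0 x y e, b0 y x (fun e' => e e'.symm)]
      · intro x y z e1 e2 e3
        by_cases hx : x.1.card = 4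
        · have hy := hn4 x y e1.1 hx
          have hz := hn4 x z e3.1 hx
          rw [bl x y e1.1 hx, bl x z e3.1 hx, bn y z e2.1 hy hz,
            hf x hx y z ⟨e2.1, hlt x y e1.1 hx, hlt x z e3.1 hx⟩]
          linear_combination two_add (f x y)
        · by_cases hy : y.1.card = 4
          · have hz := hn4 y z e2.1 hy
            rw [br x y e1.1 hy, bl y z e2.1 hy, bn x z e3.1 hx hz,
              hf y hy x z ⟨e3.1, hlt y x e1.1.symm hy, hlt y z e2.1 hy⟩]
          · by_cases hz : z.1.card = 4
            · rw [bn x y e1.1 hx hy, br y z e2.1 hz, br x z e3.1 hz,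
                hf z hz x y ⟨e1.1, hlt z x e3.1.symm hz, hlt z y e2.1.symm hz⟩]
              linear_combination two_add (f z y)
            · rw [bn x y e1.1 hx hy, bn y z e2.1 hy hz, bn x z e3.1 hx hz]
              exact hc x y z ⟨e1.1, hsk x hx, hsk y hy⟩ ⟨e2.1, hsk y hy, hsk z hz⟩
                ⟨e3.1, hsk x hx, hsk z hz⟩
    obtain ⟨F, hF⟩ := hU b hb
    refine ⟨F, fun x y e => ?_⟩
    have hx : x.1.card ≠ 4 := by
      have := (hmem x).1 e.2.1
      omega
    have hy : y.1.card ≠ 4 := by
      have := (hmem y).1 e.2.2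
      omega
    rw [← hF x y ⟨e.1, trivial, trivial⟩, bn x y e.1 hx hy]

end MOT
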