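import Pool.Agent.MOT.TcAsm

/-! MOT: renamed to `TcAsm` (theorem `cy_sd`); this file only imports it. -/
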