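import Pool.Agent.MOT.Tc

/-!
# MOT: THIN, carriers on the subdivision I (helper23)

A simplex `s` is a clique, its carriers are pairwise comparable (`CY.cmp`), so there is a largest one
(finite set, induction or `Finset.exists_maximal`), and `cs c s` equals it.  All other statements
follow from that.  `[Finite V0]` is used for `ncard`.
-/

open Classical

noncomputable section

namespace MOT

variable {V0 V : Type} {G0 : SimpleGraph V0} {G : SimpleGraph V} {c : V → Set V0}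

private theorem cmp_max (h : CY G0 G c) {s : Finset V} (hs : s.Nonempty)
    (hc : G.IsClique (s : Set V)) : ∃ x ∈ s, ∀ y ∈ s, c y ⊆ c x := by
  obtain ⟨x, hx, hm⟩ := s.exists_maximalFor c hs
  refine ⟨x, hx, fun y hy => ?_⟩
  by_cases hxy : x = y
  · rw [hxy]
  · rcases h.cmp x y (hc (Finset.mem_coe.2 hx) (Finset.mem_coe.2 hy) hxy) with h1 | h1
    · exact hm hy h1
    · exact h1

theorem cs_max (h : CY G0 G c) (s : Cq G) : ∃ x ∈ s.1, cs c s = c x ∧ ∀ y ∈ s.1, c y ⊆ c x := by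
  obtain ⟨x, hx, hm⟩ := cmp_max h s.2.1 s.2.2
  refine ⟨x, hx, ?_, hm⟩
  ext u
  constructor
  · rintro ⟨y, hy, hu⟩
    exact hm y hy hu
  · intro hu
    exact ⟨x, hx, hu⟩

/-- the same for a nonempty clique -/
theorem cl_max (h : CY G0 G c) {s : Finset V} (hs : s.Nonempty) (hc : G.IsClique (s : Set V)) :
    ∃ x ∈ s, ∀ y ∈ s, c y ⊆ c x := cmp_max h hs hc

theorem cs_sub {s : Cq G} {t : Set V0} : cs c s ⊆ t ↔ ∀ x ∈ s.1, c x ⊆ t := by
  constructor
  · intro h x hx u hu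
    exact h ⟨x, hx, hu⟩
  · rintro h u ⟨x, hx, hu⟩
    exact h x hx hu

theorem cs_ssub (h : CY G0 G c) {s : Cq G} {t : Set V0} : cs c s ⊂ t ↔ ∀ x ∈ s.1, c x ⊂ t := by
  obtain ⟨x, hx, he, hm⟩ := cs_max h s
  rw [he]
  constructor
  · intro h1 y hy
    exact lt_of_le_of_lt (hm y hy) h1
  · intro h1
    exact h1 x hx

theorem cs_eq (h : CY G0 G c) {s : Cq G} {t : Set V0} :
    cs c s = t ↔ (∀ x ∈ s.1, c x ⊆ t) ∧ ∃ x ∈ s.1, c x = t := by
  obtain ⟨x, hx, he, hm⟩ := cs_max h s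
  rw [he]
  constructor
  · rintro rfl
    exact ⟨hm, x, hx, rfl⟩
  · rintro ⟨h1, y, hy, h2⟩
    refine Set.Subset.antisymm (h1 x hx) ?_
    rw [← h2]
    exact hm y hy

theorem cs_mono {s t : Cq G} (h : s ≤ t) : cs c s ⊆ cs c t := by
  rintro u ⟨x, hx, hu⟩
  have h' : s.1 ⊆ t.1 := h
  exact ⟨x, h' hx, hu⟩

theorem mi_cel (t : Set V0) : mi G (cel c t) = cel (cs (G := G) c) t := by
  ext s
  exact cs_sub.symm

theorem mi_bdc (h : CY G0 G c) (t : Set V0) : mi G (bdc c t) = bdc (cs (G := G) c) t := by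
  ext s
  exact (cs_ssub h).symm

theorem mi_sk [Finite V0] (h : CY G0 G c) (d : ℕ) : mi G (sk c d) = sk (cs (G := G) c) d := by
  ext s
  obtain ⟨x, hx, he, hm⟩ := cs_max h s
  show (∀ y ∈ s.1, (c y).ncard ≤ d) ↔ (cs c s).ncard ≤ d
  rw [he]
  constructor
  · intro h1
    exact h1 x hx
  · intro h1 y hy
    exact (Set.ncard_le_ncard (hm y hy) (Set.toFinite _)).trans h1

theorem mi_bdd (h : CY G0 G c) : (mi G) '' (bdd G0 c) = bdd G0 (cs (G := G) c) := by
  ext B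
  constructor
  · rintro ⟨_, ⟨t, ht, h4, rfl⟩, rfl⟩
    exact ⟨t, ht, h4, mi_bdc h t⟩
  · rintro ⟨t, ht, h4, rfl⟩
    exact ⟨bdc c t, ⟨t, ht, h4, rfl⟩, mi_bdc h t⟩

end MOT
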