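import Pool.Agent.MOT.TcSa

/-!
# MOT: THIN, carriers on the subdivision II: the easy fields (helper23)

`cy_clq`, `cy_cmp`: from `cs_max`, `cs_mono`.
`cy_dim`: a clique of `sd G` is a chain of simplices; its largest element (nonempty case) is a clique of
`G` inside `cel c t`, so has at most `t.ncard` vertices (`CY.dim`); the cardinalities of the members of
the chain are pairwise different numbers in `1..t.ncard` (`Finset.card_le_card_of_injOn` into
`Finset.Icc 1 t.ncard`).
`cy_vert`: `cs c s = {v}` iff all `x ∈ s` have `c x ⊆ {v}`, i.e. `c x = {v}` (nonempty), i.e. `x = x_v`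
(`CY.vert`), so `s = {x_v}`.
-/

open Classical

noncomputable section

namespace MOT

variable {V0 V : Type} {G0 : SimpleGraph V0} {G : SimpleGraph V} {c : V → Set V0}

theorem cy_clq (h : CY G0 G c) (s : Cq G) : (cs c s).Nonempty ∧ G0.IsClique (cs c s) := by
  obtain ⟨x, hx, he, hm⟩ := cs_max h s
  rw [he]
  exact h.clq x

theorem cy_cmp {s t : Cq G} (e : (sd G).Adj s t) : cs c s ⊆ cs c t ∨ cs c t ⊆ cs c s := by
  rcases e with h1 | h1
  · exact Or.inl (cs_mono h1.le)
  · exact Or.inr (cs_mono h1.le)

private theorem cysb_card {s t : Cq G} (h : s < t) : s.1.card < t.1.card := by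
  have h1 : s.1 < t.1 := h
  exact Finset.card_lt_card h1

theorem cy_dim (h : CY G0 G c) {t : Set V0} (ht : G0.IsClique t) (s : Finset (Cq G))
    (hs : (sd G).IsClique (s : Set (Cq G))) (hc : ∀ x ∈ s, cs c x ⊆ t) : s.card ≤ t.ncard := by
  rcases s.eq_empty_or_nonempty with hse | hne
  · rw [hse, Finset.card_empty]
    exact Nat.zero_le _
  · obtain ⟨x, hx, hm⟩ := s.exists_maximalFor id hne
    have hadj : ∀ y ∈ s, ∀ z ∈ s, y ≠ z → y < z ∨ z < y := by
      intro y hy z hz hyz
      exact hs (Finset.mem_coe.2 hy) (Finset.mem_coe.2 hz) hyz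
    have hle : ∀ y ∈ s, y ≤ x := by
      intro y hy
      by_cases hxy : x = y
      · rw [hxy]
      · rcases hadj x hx y hy hxy with h1 | h1
        · exact hm hy h1.le
        · exact h1.le
    have hxt : x.1.card ≤ t.ncard := by
      refine h.dim t ht x.1 x.2.2 ?_
      intro u hu
      exact (cs_sub.1 (hc x hx)) u hu
    refine le_trans ?_ hxt
    have hI : s.card ≤ (Finset.Icc 1 x.1.card).card := by
      refine Finset.card_le_card_of_injOn (fun y => y.1.card) ?_ ?_
      · intro y hy
        have hy' : y ∈ s := Finset.mem_coe.1 hy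
        have h1 : y.1 ≤ x.1 := hle y hy'
        have h2 : 0 < y.1.card := Finset.card_pos.2 y.2.1
        exact Finset.mem_coe.2 (Finset.mem_Icc.2 ⟨h2, Finset.card_le_card h1⟩)
      · intro y hy z hz hyz
        by_contra hne2
        rcases hadj y (Finset.mem_coe.1 hy) z (Finset.mem_coe.1 hz) hne2 with h1 | h1
        · have h3 := cysb_card h1
          simp only at hyz
          omega
        · have h3 := cysb_card h1
          simp only at hyz
          omega
    rw [Nat.card_Icc] at hI
    omega

theorem cy_vert (h : CY G0 G c) (v : V0) : ∃! s : Cq G, cs c s = {v} := by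
  obtain ⟨x, hx, hu⟩ := h.vert v
  have hcl : G.IsClique (({x} : Finset V) : Set V) := by
    intro a ha b hb hab
    have ha' : a = x := by simpa using ha
    have hb' : b = x := by simpa using hb
    exact absurd (ha'.trans hb'.symm) hab
  refine ⟨⟨{x}, Finset.singleton_nonempty x, hcl⟩, ?_, ?_⟩
  · refine (cs_eq h).2 ⟨?_, x, Finset.mem_singleton_self x, hx⟩
    intro y hy
    rw [Finset.mem_singleton.1 hy]
    exact hx.subset
  · intro s hs
    have h1 := ((cs_eq h).1 hs).1
    have h2 : ∀ y ∈ s.1, y = x := by
      intro y hy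
      apply hu
      refine Set.Subset.antisymm (h1 y hy) ?_
      obtain ⟨w, hw⟩ := (h.clq y).1
      have h3 : w = v := h1 y hy hw
      intro w' hw'
      have h4 : w' = v := hw'
      rw [h4, ← h3]
      exact hw
    apply Subtype.ext
    exact Finset.eq_singleton_iff_nonempty_unique_mem.2 ⟨s.2.1, h2⟩

end MOT
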