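import Pool.Agent.MOT.TcAsm
import Pool.Agent.MOT.TcC

/-!
# MOT: THIN, the tower satisfies `CY` (helper16)
-/

open Classical

noncomputable section

namespace MOT

variable {V0 : Type} {G0 : SimpleGraph V0}

theorem cy_one [Finite V0] (h : IsSph3 G0) : CY G0 (sd G0) (c1 G0) where
  clq := one_clq
  cmp := fun _ _ e => one_cmp e
  dim := fun _ ht s hs hc => one_dim ht s hs hc
  cell := fun _ hne ht => one_cell hne ht
  half := fun _ ht s hne hs hc => one_half ht s hne hs hc
  vert := one_vert
  path := fun _ ht h2 s hs => one_path ht h2 s hs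
  fin := fun _ ht h2 s hs => one_fin ht h2 s hs
  bd := fun _ ht h4 => one_bd ht h4
  two := one_two h

theorem car_succ (K : Lv) (n k : ℕ) :
    car K n (k + 1) = cs (G := (tw K (n + k)).G) (car K n k) := rfl

theorem car_one (K : Lv) (n : ℕ) : car K n 1 = c1 (tw K n).G := by
  funext s
  ext u
  constructor
  · rintro ⟨x, hx, hu⟩
    have h1 : u = x := hu
    rw [h1]
    exact hx
  · intro hu
    exact ⟨u, hu, rfl⟩

/-- `miN` in terms of carriers -/
theorem miN_car (K : Lv) (n k : ℕ) (A : Set (tw K n).V) : miN K n A k = cel (car K n k) A := by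
  induction k with
  | zero =>
    ext v
    constructor
    · intro hv u hu
      have h1 : u = v := hu
      rw [h1]
      exact hv
    · intro hv
      exact hv rfl
  | succ k ih =>
    ext s
    constructor
    · rintro hs u ⟨x, hx, hu⟩
      have h1 : x ∈ miN K n A k := hs x hx
      rw [ih] at h1
      exact h1 hu
    · intro hs x hx
      have h1 : x ∈ cel (car K n k) A := fun u hu => hs ⟨x, hx, hu⟩
      rw [← ih] at h1
      exact h1

theorem tw_cy (K : Lv) (n : ℕ) (h : IsSph3 (tw K n).G) (k : ℕ) :
    CY (tw K n).G (tw K (n + (k + 1))).G (car K n (k + 1)) := by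
  induction k with
  | zero =>
    rw [car_one]
    exact cy_one h
  | succ k ih =>
    rw [car_succ K n (k + 1)]
    exact cy_sd ih

end MOT
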