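import Pool.Agent.MOT.Bas

/-!
# MOT: THIN, extension of a cocycle over a line: algebra (helper23)

`J ⊆ P`; all neighbours in `P` of a vertex of `J` are in `J` or in one of the strips `S g`, `g ∈ L`; the
strips are disjoint and pairwise not adjacent, contained in `P \ J`; `a = d (p g)` on `S g`.  Put
`a' x y = 0` for `x, y ∈ J`, `a' x y = a' y x = p g y` for `x ∈ J`, `y ∈ S g` adjacent, `a' = a` on the
edges of `P \ J`, `0` for non-edges of `P`.  (The `g` with `y ∈ S g` is unique.)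
Cocycle: a triangle of `P` with exactly one vertex `x ∈ J`: the other two, `y, y'`, are in the same strip
(not adjacent otherwise) and `p g y + a y y' = p g y'`; two vertices `x, x' ∈ J`: `0 + p g y = p g y`.
Last statement (for a set `B` with a potential `k` of `a` on `(P \ J) ∩ B` which agrees with `p g` on
`S g ∩ B`): the potential `k` on `P \ J`, `0` on `J` works on `P ∩ B`.
-/

open Classical

noncomputable section

namespace MOT

variable {V I : Type} {G : SimpleGraph V}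

/-- the common value of the potentials on the strips -/
private def qf (L : Set I) (S : I → Set V) (p : I → V → ZMod 2) (y : V) : ZMod 2 :=
  if h : ∃ g ∈ L, y ∈ S g then p h.choose y else 0

private theorem qf_eq {L : Set I} {S : I → Set V} {p : I → V → ZMod 2}
    (hd : ∀ g ∈ L, ∀ g' ∈ L, g ≠ g' → Disjoint (S g) (S g') ∧ NAdj G (S g) (S g'))
    {g : I} (hg : g ∈ L) {y : V} (hy : y ∈ S g) : qf L S p y = p g y := by
  have h : ∃ g ∈ L, y ∈ S g := ⟨g, hg, hy⟩
  unfold qf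
  rw [dif_pos h]
  have e : h.choose = g := by
    by_contra hne
    exact Set.disjoint_left.1 (hd _ h.choose_spec.1 g hg hne).1 h.choose_spec.2 hy
  rw [e]

/-- the extended cochain -/
private def ea (G : SimpleGraph V) (P J : Set V) (q : V → ZMod 2) (a : V → V → ZMod 2) (x y : V) :
    ZMod 2 :=
  if EIn G P x y then
    (if x ∈ J then (if y ∈ J then 0 else q y) else (if y ∈ J then q x else a x y)) else 0

private theorem ea_jj {P J : Set V} {q : V → ZMod 2} {a : V → V → ZMod 2} {x y : V}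
    (hx : x ∈ J) (hy : y ∈ J) : ea G P J q a x y = 0 := by
  unfold ea; rw [if_pos hx, if_pos hy, ite_self]

private theorem ea_jn {P J : Set V} {q : V → ZMod 2} {a : V → V → ZMod 2} {x y : V}
    (e : EIn G P x y) (hx : x ∈ J) (hy : y ∉ J) : ea G P J q a x y = q y := by
  unfold ea; rw [if_pos e, if_pos hx, if_neg hy]

private theorem ea_nj {P J : Set V} {q : V → ZMod 2} {a : V → V → ZMod 2} {x y : V}
    (e : EIn G P x y) (hx : x ∉ J) (hy : y ∈ J) : ea G P J q a x y = q x := by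
  unfold ea; rw [if_pos e, if_neg hx, if_pos hy]

private theorem ea_nn {P J : Set V} {q : V → ZMod 2} {a : V → V → ZMod 2} {x y : V}
    (e : EIn G P x y) (hx : x ∉ J) (hy : y ∉ J) : ea G P J q a x y = a x y := by
  unfold ea; rw [if_pos e, if_neg hx, if_neg hy]

theorem ext_core {P J : Set V} (hJP : J ⊆ P) (L : Set I) (S : I → Set V)
    (hS : ∀ g ∈ L, S g ⊆ P \ J)
    (hd : ∀ g ∈ L, ∀ g' ∈ L, g ≠ g' → Disjoint (S g) (S g') ∧ NAdj G (S g) (S g'))
    (hnb : ∀ x ∈ J, ∀ y ∈ P, G.Adj x y → y ∈ J ∨ ∃ g ∈ L, y ∈ S g)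
    {a : V → V → ZMod 2} (ha : a ∈ Z1 G (P \ J)) (p : I → V → ZMod 2)
    (hp : ∀ g ∈ L, ∀ x y, EIn G (S g) x y → a x y = p g x + p g y) :
    ∃ a' ∈ Z1 G P, (∀ x y, EIn G (P \ J) x y → a' x y = a x y) ∧
      ∀ B : Set V, ∀ k : V → ZMod 2,
        (∀ x y, EIn G ((P \ J) ∩ B) x y → a x y = k x + k y) →
        (∀ g ∈ L, ∀ y ∈ S g, y ∈ B → k y = p g y) → Triv G (P ∩ B) a' := by
  have hq : ∀ g ∈ L, ∀ y ∈ S g, qf L S p y = p g y := fun g hg y hy => qf_eq hd hg hy
  -- edges between vertices outside J that are in strips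
  have hyz : ∀ x ∈ J, ∀ y z, EIn G P x y → EIn G P x z → EIn G P y z → y ∉ J → z ∉ J →
      a y z = qf L S p y + qf L S p z := by
    intro x hx y z e1 e2 e3 hy hz
    obtain ⟨g, hg, hyg⟩ := (hnb x hx y e1.2.2 e1.1).resolve_left hy
    obtain ⟨g', hg', hzg⟩ := (hnb x hx z e2.2.2 e2.1).resolve_left hz
    have hgg : g = g' := by
      by_contra hne
      exact (hd g hg g' hg' hne).2 y hyg z hzg e3.1
    subst hgg
    rw [hq g hg y hyg, hq g hg z hzg]
    exact hp g hg y z ⟨e3.1, hyg, hzg⟩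
  obtain ⟨h0, hs, hc⟩ := mem_Z1.1 ha
  have hin : ∀ x y, EIn G P x y → x ∉ J → y ∉ J → EIn G (P \ J) x y := fun x y e hx hy =>
    ⟨e.1, ⟨e.2.1, hx⟩, ⟨e.2.2, hy⟩⟩
  refine ⟨ea G P J (qf L S p) a, mem_Z1.2 ⟨fun x y e => ?_, fun x y => ?_, ?_⟩, ?_, ?_⟩
  · unfold ea; exact if_neg e
  · by_cases e : EIn G P x y
    · by_cases hx : x ∈ J
      · by_cases hy : y ∈ J
        · rw [ea_jj hx hy, ea_jj hy hx]
        · rw [ea_jn e hx hy, ea_nj e.symm hy hx]
      · by_cases hy : y ∈ J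
        · rw [ea_nj e hx hy, ea_jn e.symm hy hx]
        · rw [ea_nn e hx hy, ea_nn e.symm hy hx, hs]
    · have e' : ¬ EIn G P y x := fun e' => e e'.symm
      unfold ea
      rw [if_neg e, if_neg e']
  · intro x y z e1 e2 e3
    by_cases hx : x ∈ J
    · by_cases hy : y ∈ J
      · by_cases hz : z ∈ J
        · rw [ea_jj hx hy, ea_jj hy hz, ea_jj hx hz, add_zero]
        · rw [ea_jj hx hy, ea_jn e2 hy hz, ea_jn e3 hx hz, zero_add]
      · by_cases hz : z ∈ J
        · rw [ea_jn e1 hx hy, ea_nj e2 hy hz, ea_jj hx hz]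
          exact two_add _
        · rw [ea_jn e1 hx hy, ea_nn e2 hy hz, ea_jn e3 hx hz, hyz x hx y z e1 e3 e2 hy hz,
            ← add_assoc, two_add, zero_add]
    · by_cases hy : y ∈ J
      · by_cases hz : z ∈ J
        · rw [ea_nj e1 hx hy, ea_jj hy hz, ea_nj e3 hx hz, add_zero]
        · rw [ea_nj e1 hx hy, ea_jn e2 hy hz, ea_nn e3 hx hz, hyz y hy x z e1.symm e2 e3 hx hz]
      · by_cases hz : z ∈ J
        · rw [ea_nn e1 hx hy, ea_nj e2 hy hz, ea_nj e3 hx hz,
            hyz z hz x y e3.symm e2.symm e1 hx hy, add_assoc, two_add, add_zero]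
        · rw [ea_nn e1 hx hy, ea_nn e2 hy hz, ea_nn e3 hx hz]
          exact hc x y z (hin x y e1 hx hy) (hin y z e2 hy hz) (hin x z e3 hx hz)
  · intro x y e
    exact ea_nn ⟨e.1, e.2.1.1, e.2.2.1⟩ e.2.1.2 e.2.2.2
  · intro B k hk hkp
    have hkq : ∀ x ∈ J, ∀ y, EIn G (P ∩ B) x y → y ∉ J → qf L S p y = k y := by
      intro x hx y e hy
      obtain ⟨g, hg, hyg⟩ := (hnb x hx y e.2.2.1 e.1).resolve_left hy
      rw [hq g hg y hyg, hkp g hg y hyg e.2.2.2]
    refine ⟨fun x => if x ∈ J then 0 else k x, fun x y e => ?_⟩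
    have eP : EIn G P x y := e.mono Set.inter_subset_left
    beta_reduce
    by_cases hx : x ∈ J
    · by_cases hy : y ∈ J
      · rw [ea_jj hx hy, if_pos hx, if_pos hy, add_zero]
      · rw [ea_jn eP hx hy, if_pos hx, if_neg hy, zero_add]
        exact hkq x hx y e hy
    · by_cases hy : y ∈ J
      · rw [ea_nj eP hx hy, if_neg hx, if_pos hy, add_zero]
        exact hkq y hy x e.symm hx
      · rw [ea_nn eP hx hy, if_neg hx, if_neg hy]
        exact hk x y ⟨e.1, ⟨⟨eP.2.1, hx⟩, e.2.1.2⟩, ⟨⟨eP.2.2, hy⟩, e.2.2.2⟩⟩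

end MOT
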