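import Pool.Agent.MOT.TjC

/-!
# MOT: THIN, lines (helper23)

`Line`: `J` is a thin line on the coarse edge `e` with label `i`, all its neighbours in the 2-skeleton
outside `cel c e` have label `i`, its two end neighbours `u, w` on `cel c e` have label `i' = i ± 1` and are
connected in `{l = i'}` inside the coarse face `f`.  The label of `J` will be changed to `i'`.

`line_nb`: `y` adjacent to `x ∈ J`, `y ∈ sk c 3`: `c y` is comparable with `e` (`CY.cmp`).  `c y ⊆ e`: `Line.nb`;
`e ⊂ c y`: `(c y).ncard = 3`, `c y = insert v e`, `v ∈ Lk G0 e` as `c y` is a clique.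
`line_sep`: the carriers are different faces of the same size, not comparable.
-/

open Classical

noncomputable section

namespace MOT

variable {V0 V : Type} {G0 : SimpleGraph V0} {G : SimpleGraph V} {c : V → Set V0}

structure Line (G0 : SimpleGraph V0) (G : SimpleGraph V) (c : V → Set V0) (l : V → ℕ)
    (e f : Set V0) (i i' : ℕ) (J : Set V) (u w : V) : Prop where
  he : G0.IsClique e
  he2 : e.ncard = 2
  hf : G0.IsClique f
  hf3 : f.ncard = 3
  hef : e ⊂ f
  ii : i' = i + 1 ∨ i = i' + 1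
  conn : Conn G J
  je : ∀ x ∈ J, c x = e ∧ l x = i
  hu : c u ⊆ e ∧ l u = i'
  hw : c w ⊆ e ∧ l w = i'
  huw : u ≠ w
  nuw : ¬ G.Adj u w
  au : ∃ x ∈ J, G.Adj x u
  aw : ∃ x ∈ J, G.Adj x w
  nb : ∀ x ∈ J, ∀ y, G.Adj x y → c y ⊆ e → y ∈ J ∨ y = u ∨ y = w
  nb2 : ∀ x ∈ J, ∀ y, G.Adj x y → (c y).ncard = 3 → l y = i
  st : ∀ g : Set V0, G0.IsClique g → g.ncard = 3 → e ⊂ g →
    Conn G (strip G c J g) ∧ HZ G (strip G c J g)
  cf : Relation.ReflTransGen (EIn G {x | c x ⊆ f ∧ l x = i'}) w u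

variable {l : V → ℕ} {e f : Set V0} {i i' : ℕ} {J : Set V} {u w : V}

theorem line_nb [Finite V0] (h : CY G0 G c) (L : Line G0 G c l e f i i' J u w) {x y : V}
    (hx : x ∈ J) (hy : y ∈ sk c 3) (e1 : G.Adj x y) :
    y ∈ J ∨ y = u ∨ y = w ∨ ∃ v ∈ Lk G0 e, y ∈ strip G c J (insert v e) := by
  have hcx : c x = e := (L.je x hx).1
  by_cases hye : c y ⊆ e
  · rcases L.nb x hx y e1 hye with h1 | h1 | h1
    · exact Or.inl h1
    · exact Or.inr (Or.inl h1)
    · exact Or.inr (Or.inr (Or.inl h1))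
  · have hey : e ⊆ c y := by
      rcases h.cmp x y e1 with h1 | h1
      · rw [← hcx]; exact h1
      · rw [hcx] at h1; exact absurd h1 hye
    have hy3 : (c y).ncard ≤ 3 := hy
    obtain ⟨v, hv, hve⟩ := Set.not_subset.1 hye
    have hins : insert v e ⊆ c y := Set.insert_subset hv hey
    have hc : (insert v e).ncard = 3 := by
      rw [Set.ncard_insert_of_notMem hve (Set.toFinite e), L.he2]
    have heq : insert v e = c y :=
      Set.eq_of_subset_of_ncard_le hins (by omega) (Set.toFinite _)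
    refine Or.inr (Or.inr (Or.inr ⟨v, ?_, heq.symm, x, hx, e1⟩))
    intro z hz
    refine (h.clq y).2 (hey hz) hv ?_
    rintro rfl
    exact hve hz

theorem line_sep [Finite V0] (h : CY G0 G c) (L : Line G0 G c l e f i i' J u w) {v v' : V0}
    (hv : v ∈ Lk G0 e) (hv' : v' ∈ Lk G0 e) (hne : v ≠ v') :
    Disjoint (strip G c J (insert v e)) (strip G c J (insert v' e)) ∧
      NAdj G (strip G c J (insert v e)) (strip G c J (insert v' e)) := by
  have key : ∀ a b : V0, a ∈ Lk G0 e → a ≠ b → ¬ insert a e ⊆ insert b e := by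
    intro a b ha hab hs
    rcases hs (Set.mem_insert a e) with h1 | h1
    · exact hab h1
    · exact G0.loopless.irrefl a (ha a h1)
  constructor
  · rw [Set.disjoint_left]
    rintro y ⟨h1, -⟩ ⟨h2, -⟩
    exact key v v' hv hne (h1.symm.trans h2).subset
  · rintro x ⟨h1, -⟩ y ⟨h2, -⟩ e1
    rcases h.cmp x y e1 with h3 | h3
    · rw [h1, h2] at h3
      exact key v v' hv hne h3
    · rw [h1, h2] at h3
      exact key v' v hv' hne.symm h3

end MOT
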