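import Pool.Agent.MOT.TjA
import Pool.Agent.MOT.TfL

/-!
# MOT: THIN, choice of the constants on the strips (helper23)

`line_choice`.  For `v ∈ Lk G0 e` put `g v = insert v e`, `S v = strip G c J (g v)` (connected, `H^1 = 0` by
`Line.st`; `S v ⊆ P \ J`).  Let `p v` be a potential of `a` on `S v` (`rs G (S v) a` is a cocycle).
`f = insert vf e`.  `jordan` with `A = {x | c x ⊆ f ∧ l x = i'}` (disjoint from `P`) gives `q` with `q x = q y` on
the edges of `P \ J`, `q = 1` on `S vf`, `q = 0` on the other strips.  (Hypotheses of `jordan`: the path in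
`J ∪ {u, w}` from `au`, `conn`, `aw`; `strip ∩ A = ∅` since `l = i` on the strip by `nb2`.)
For each coarse tetrahedron `D` let `k D` be a potential of `a` on `(P \ J) ∩ bdc c D` (hat condition).  For
`v, v'` adjacent in `Lk G0 e`, `D = insert v' (insert v e)`: `k D + p v` is constant on `S v` (`= al v v'`), and
`k D + p v'` is constant on `S v'` (`= al v' v`).  `K v v' := al v v' + al v' v` is symmetric.  `cyc_minus` for the
cycle `Lk G0 e` (`IsSph3.edge`) minus `vf`: there is `b` with `K v v' = b v + b v'` for adjacent `v, v' ≠ vf`.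
Put `p' v := p v + b v`.  For `D ⊇ e`, `D = insert v' (insert v e)`:
 - `v, v' ≠ vf`: `k' = k D + al v v' + b v`;
 - `v = vf`: `k' = k D + (al v' v + b v') + (al v v' + b v + al v' v + b v') * q`.
Then `k'` is a potential of `a` on `(P \ J) ∩ bdc c D` and equals `p'` on `S v` and on `S v'`.

-/

open Classical

noncomputable section

namespace MOT

variable {V0 V : Type} {G0 : SimpleGraph V0} {G : SimpleGraph V} {c : V → Set V0}
variable {l : V → ℕ} {e f : Set V0} {i i' : ℕ} {J : Set V} {u w : V}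

private theorem z4 : ∀ a b c d : ZMod 2, a + b = c + d → a + c = b + d := by decide

private theorem lk_nm {v : V0} (hv : v ∈ Lk G0 e) : v ∉ e := fun h => G0.loopless.irrefl v (hv v h)

private theorem lk_ins [Finite V0] (he : G0.IsClique e) (he2 : e.ncard = 2) {v : V0}
    (hv : v ∈ Lk G0 e) :
    G0.IsClique (insert v e) ∧ (insert v e).ncard = 3 ∧ e ⊂ insert v e := by
  refine ⟨SimpleGraph.isClique_insert.2 ⟨he, fun b hb _ => (hv b hb).symm⟩, ?_, ?_⟩
  · rw [Set.ncard_insert_of_notMem (lk_nm hv) (Set.toFinite e), he2]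
  · exact Set.ssubset_insert (lk_nm hv)

private theorem dec4 [Finite V0] (he2 : e.ncard = 2) {D : Set V0} (hD : G0.IsClique D)
    (hD4 : D.ncard = 4) (heD : e ⊆ D) :
    ∃ v1 v2, v1 ∈ Lk G0 e ∧ v2 ∈ Lk G0 e ∧ G0.Adj v1 v2 ∧ D = insert v1 (insert v2 e) := by
  have h1 : e ⊂ D := by
    refine lt_of_le_of_ne heD ?_
    rintro rfl
    omega
  obtain ⟨v2, hv2, hv2e⟩ := Set.exists_of_ssubset h1
  have hs : insert v2 e ⊆ D := Set.insert_subset hv2 heD
  have hc3 : (insert v2 e).ncard = 3 := by
    rw [Set.ncard_insert_of_notMem hv2e (Set.toFinite e), he2]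
  have h2 : insert v2 e ⊂ D := by
    refine lt_of_le_of_ne hs ?_
    intro hh
    rw [hh] at hc3
    omega
  obtain ⟨v1, hv1, hv1e⟩ := Set.exists_of_ssubset h2
  have hc4 : (insert v1 (insert v2 e)).ncard = 4 := by
    rw [Set.ncard_insert_of_notMem hv1e (Set.toFinite _), hc3]
  have hv1n : v1 ∉ e := fun hh => hv1e (Or.inr hh)
  have hne : v1 ≠ v2 := fun hh => hv1e (Or.inl hh)
  refine ⟨v1, v2, fun x hx => ?_, fun x hx => ?_, hD hv1 hv2 hne, ?_⟩
  · exact hD (heD hx) hv1 (fun hh => hv1n (hh ▸ hx))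
  · exact hD (heD hx) hv2 (fun hh => hv2e (hh ▸ hx))
  · exact (Set.eq_of_subset_of_ncard_le (Set.insert_subset hv1 hs) (by omega)
      (Set.toFinite D)).symm

theorem line_choice [Finite V0] [Finite V] (h0 : IsSph3 G0) (h : CY G0 G c)
    (L : Line G0 G c l e f i i' J u w) {P : Set V} (hP : P ⊆ sk c 3) (hPi : ∀ x ∈ P, l x ≠ i')
    (hPs : ∀ x ∈ J, ∀ y, G.Adj x y → (c y).ncard = 3 → y ∈ P) {a : V → V → ZMod 2}
    (ha : a ∈ Zh G (bdd G0 c) (P \ J)) :
    ∃ p : V0 → V → ZMod 2,
      (∀ v ∈ Lk G0 e, ∀ x y, EIn G (strip G c J (insert v e)) x y → a x y = p v x + p v y) ∧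
      ∀ D : Set V0, G0.IsClique D → D.ncard = 4 → e ⊆ D → ∃ k : V → ZMod 2,
        (∀ x y, EIn G ((P \ J) ∩ bdc c D) x y → a x y = k x + k y) ∧
        ∀ v ∈ Lk G0 e, v ∈ D → ∀ y ∈ strip G c J (insert v e), k y = p v y := by
  have hii : i ≠ i' := by
    rcases L.ii with h1 | h1 <;> omega
  have hS : ∀ v ∈ Lk G0 e, strip G c J (insert v e) ⊆ P \ J := by
    intro v hv y hy
    obtain ⟨hy1, x, hx, hxy⟩ := hy
    have h3 := lk_ins L.he L.he2 hv
    refine ⟨hPs x hx y hxy (by rw [hy1]; exact h3.2.1), fun hyJ => ?_⟩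
    have h4 := (L.je y hyJ).1
    rw [hy1] at h4
    exact h3.2.2.ne h4.symm
  -- the potentials on the strips
  have hp0 : ∀ v : V0, ∃ p : V → ZMod 2, v ∈ Lk G0 e →
      ∀ x y, EIn G (strip G c J (insert v e)) x y → a x y = p x + p y := by
    intro v
    by_cases hv : v ∈ Lk G0 e
    · have h3 := lk_ins L.he L.he2 hv
      obtain ⟨p, hp⟩ := (L.st _ h3.1 h3.2.1 h3.2.2).2 _ (rs_mem (hS v hv) ha.1)
      exact ⟨p, fun _ x y e1 => by rw [← hp x y e1, rs_apply e1]⟩
    · exact ⟨0, fun hh => absurd hh hv⟩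
  choose p hp using hp0
  -- the potentials on the boundaries of the tetrahedra
  have hk0 : ∀ D : Set V0, ∃ k : V → ZMod 2, G0.IsClique D → D.ncard = 4 →
      ∀ x y, EIn G ((P \ J) ∩ bdc c D) x y → a x y = k x + k y := by
    intro D
    by_cases hD : G0.IsClique D ∧ D.ncard = 4
    · obtain ⟨k, hk⟩ := ha.2 (bdc c D) ⟨D, hD.1, hD.2, rfl⟩
      exact ⟨k, fun _ _ => hk⟩
    · exact ⟨0, fun h1 h2 => absurd ⟨h1, h2⟩ hD⟩
  choose kk hkk using hk0
  have hSD : ∀ D : Set V0, D.ncard = 4 → e ⊆ D → ∀ v ∈ Lk G0 e, v ∈ D →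
      strip G c J (insert v e) ⊆ (P \ J) ∩ bdc c D := by
    intro D hD4 heD v hv hvD y hy
    refine ⟨hS v hv hy, ?_⟩
    show c y ⊂ D
    rw [hy.1]
    refine lt_of_le_of_ne (Set.insert_subset hvD heD) ?_
    intro hh
    have h3 := (lk_ins L.he L.he2 hv).2.1
    rw [hh] at h3
    omega
  have hal0 : ∀ (D : Set V0) (v : V0), ∃ s : ZMod 2, G0.IsClique D → D.ncard = 4 → e ⊆ D →
      v ∈ Lk G0 e → v ∈ D → ∀ y ∈ strip G c J (insert v e), kk D y + p v y = s := by
    intro D v
    by_cases hh : G0.IsClique D ∧ D.ncard = 4 ∧ e ⊆ D ∧ v ∈ Lk G0 e ∧ v ∈ D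
    · obtain ⟨hD, hD4, heD, hv, hvD⟩ := hh
      have h3 := lk_ins L.he L.he2 hv
      have hcn := (L.st _ h3.1 h3.2.1 h3.2.2).1
      obtain ⟨y0, hy0⟩ := hcn.1
      refine ⟨kk D y0 + p v y0, fun _ _ _ _ _ y hy => ?_⟩
      refine hcn.const (f := fun z => kk D z + p v z) (fun x z e1 => ?_) hy hy0
      have h5 := hkk D hD hD4 x z (e1.mono (hSD D hD4 heD v hv hvD))
      have h6 := hp v hv x z e1
      exact z4 _ _ _ _ (h5.symm.trans h6)
    · exact ⟨0, fun h1 h2 h3 h4 h5 => absurd ⟨h1, h2, h3, h4, h5⟩ hh⟩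
  choose al hal using hal0
  -- the face `f`
  obtain ⟨vf, hvf, hvfe⟩ := Set.exists_of_ssubset L.hef
  have hfe : insert vf e = f := by
    refine Set.eq_of_subset_of_ncard_le (Set.insert_subset hvf L.hef.1) ?_ (Set.toFinite f)
    rw [Set.ncard_insert_of_notMem hvfe (Set.toFinite e), L.he2, L.hf3]
  have hvfL : vf ∈ Lk G0 e := fun x hx => L.hf (L.hef.1 hx) hvf (fun hh => hvfe (hh ▸ hx))
  obtain ⟨xu, hxu, hxu'⟩ := L.au
  obtain ⟨xw, hxw, hxw'⟩ := L.aw
  have hJc : Relation.ReflTransGen (EIn G (J ∪ {u, w})) u w := by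
    refine Relation.ReflTransGen.head (b := xu) ⟨hxu'.symm, Or.inr (Or.inl rfl), Or.inl hxu⟩ ?_
    refine Relation.ReflTransGen.tail (b := xw) ?_ ⟨hxw', Or.inl hxw, Or.inr (Or.inr rfl)⟩
    exact rtg_mono Set.subset_union_left (L.conn.2 xu hxu xw hxw)
  obtain ⟨q, hq1, hq2, hq3⟩ := jordan h0 h L.hf L.hf3 L.hef (J := J)
    (A := {x | c x ⊆ f ∧ l x = i'}) (u := u) (w := w) (fun x hx => (L.je x hx).1) L.hu.1 L.hw.1
    L.huw L.nuw hJc (fun x hx => hx.1)
    (Set.disjoint_left.2 fun x hx hxJ => hii ((L.je x hxJ).2.symm.trans hx.2))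
    ⟨L.hu.1.trans L.hef.1, L.hu.2⟩ ⟨L.hw.1.trans L.hef.1, L.hw.2⟩ L.cf
    (L.st f L.hf L.hf3 L.hef).1
    (Set.disjoint_left.2 fun y hy hyA => by
      obtain ⟨hy1, x, hx, hxy⟩ := hy
      have h5 := L.nb2 x hx y hxy (by rw [hy1]; exact L.hf3)
      exact hii (h5.symm.trans hyA.2))
  have hqc : ∀ x y, EIn G (P \ J) x y → q x = q y := by
    intro x y e1
    refine hq1 x y ⟨e1.1, hP e1.2.1.1, hP e1.2.2.1⟩ ?_ ?_
    · rintro (hh | hh)
      · exact e1.2.1.2 hh
      · exact hPi x e1.2.1.1 hh.2
    · rintro (hh | hh)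
      · exact e1.2.2.2 hh
      · exact hPi y e1.2.2.1 hh.2
  -- the constants
  have hcyc : IsCyc G0 (Lk G0 e) := by
    have h5 := h0.edge (Set.toFinite e).toFinset (by rw [Set.Finite.coe_toFinset]; exact L.he)
      (by rw [← Set.ncard_eq_toFinset_card e (Set.toFinite e)]; exact L.he2)
    rwa [Set.Finite.coe_toFinset] at h5
  obtain ⟨b, hb⟩ := cyc_minus hcyc hvfL
    (fun v v' => al (insert v (insert v' e)) v + al (insert v (insert v' e)) v')
    (fun v v' => by
      show al (insert v (insert v' e)) v + al (insert v (insert v' e)) v' =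
        al (insert v' (insert v e)) v' + al (insert v' (insert v e)) v
      rw [Set.insert_comm v' v e, add_comm])
  refine ⟨fun v y => p v y + b v, fun v hv x y e1 => ?_, fun D hD hD4 heD => ?_⟩
  · rw [hp v hv x y e1]
    have := two_add (b v)
    show p v x + p v y = (p v x + b v) + (p v y + b v)
    calc p v x + p v y = p v x + p v y + (b v + b v) := by rw [this, add_zero]
      _ = _ := by abel
  -- the core
  have core : ∀ v1 v2, v1 ∈ Lk G0 e → v2 ∈ Lk G0 e → G0.Adj v1 v2 → v2 ≠ vf →
      D = insert v1 (insert v2 e) → ∃ k : V → ZMod 2,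
        (∀ x y, EIn G ((P \ J) ∩ bdc c D) x y → a x y = k x + k y) ∧
        ∀ v ∈ Lk G0 e, v ∈ D → ∀ y ∈ strip G c J (insert v e), k y = p v y + b v := by
    intro v1 v2 hv1 hv2 hadj hne hDe
    have hv1D : v1 ∈ D := by rw [hDe]; exact Or.inl rfl
    have hv2D : v2 ∈ D := by rw [hDe]; exact Or.inr (Or.inl rfl)
    have hor : ∀ v ∈ Lk G0 e, v ∈ D → v = v1 ∨ v = v2 := by
      intro v hv hvD
      rw [hDe] at hvD
      rcases hvD with hh | hh | hh
      · exact Or.inl hh
      · exact Or.inr hh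
      · exact absurd hh (lk_nm hv)
    have ha1 := hal D v1 hD hD4 heD hv1 hv1D
    have ha2 := hal D v2 hD hD4 heD hv2 hv2D
    by_cases h1 : v1 = vf
    · refine ⟨fun y => kk D y + (al D v2 + b v2) +
        (al D v1 + (al D v2 + b v2) + b v1) * q y, fun x y e1 => ?_, fun v hv hvD y hy => ?_⟩
      · have hqe := hqc x y (e1.mono Set.inter_subset_left)
        rw [hkk D hD hD4 x y e1]
        show kk D x + kk D y = (kk D x + (al D v2 + b v2) +
          (al D v1 + (al D v2 + b v2) + b v1) * q x) + (kk D y + (al D v2 + b v2) +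
          (al D v1 + (al D v2 + b v2) + b v1) * q y)
        rw [hqe]
        generalize kk D x = A1
        generalize kk D y = A2
        generalize al D v2 + b v2 = A3
        generalize (al D v1 + A3 + b v1) * q y = A4
        revert A1 A2 A3 A4
        decide
      · rcases hor v hv hvD with rfl | rfl
        · have hqy : q y = 1 := by
            refine hq2 y ?_
            rw [h1, hfe] at hy
            exact hy
          have h5 := ha1 y hy
          show kk D y + (al D v2 + b v2) + (al D v + (al D v2 + b v2) + b v) * q y = p v y + b v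
          rw [hqy, ← h5]
          generalize kk D y = A1
          generalize al D v2 = A3
          generalize b v2 = A4
          generalize p v y = A5
          generalize b v = A6
          revert A1 A3 A4 A5 A6
          decide
        · have hqy : q y = 0 := by
            refine hq3 y ?_
            rw [hy.1, ← hfe]
            intro hh
            have h6 : v ∈ insert vf e := by rw [← hh]; exact Or.inl rfl
            rcases h6 with h6 | h6
            · exact hne h6
            · exact lk_nm hv h6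
          have h5 := ha2 y hy
          show kk D y + (al D v + b v) + (al D v1 + (al D v + b v) + b v1) * q y = p v y + b v
          rw [hqy, ← h5, mul_zero, add_zero]
          generalize kk D y = A1
          generalize p v y = A5
          generalize b v = A6
          revert A1 A5 A6
          decide
    · have hK : al D v1 + al D v2 = b v1 + b v2 := by
        have h5 := hb v1 v2 ⟨hadj, ⟨hv1, h1⟩, ⟨hv2, hne⟩⟩
        rw [← hDe] at h5
        exact h5
      refine ⟨fun y => kk D y + (al D v1 + b v1), fun x y e1 => ?_, fun v hv hvD y hy => ?_⟩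
      · rw [hkk D hD hD4 x y e1]
        show kk D x + kk D y = (kk D x + (al D v1 + b v1)) + (kk D y + (al D v1 + b v1))
        generalize kk D x = A1
        generalize kk D y = A2
        generalize al D v1 + b v1 = A3
        revert A1 A2 A3
        decide
      · rcases hor v hv hvD with rfl | rfl
        · have h5 := ha1 y hy
          show kk D y + (al D v + b v) = p v y + b v
          rw [← h5]
          generalize kk D y = A1
          generalize p v y = A5
          generalize b v = A6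
          revert A1 A5 A6
          decide
        · have h5 := ha2 y hy
          show kk D y + (al D v1 + b v1) = p v y + b v
          have h6 : al D v1 + b v1 = al D v + b v := z4 _ _ _ _ hK
          rw [h6, ← h5]
          generalize kk D y = A1
          generalize p v y = A5
          generalize b v = A6
          revert A1 A5 A6
          decide
  obtain ⟨v1, v2, hv1, hv2, hadj, hDe⟩ := dec4 L.he2 hD hD4 heD
  by_cases h2 : v2 = vf
  · refine core v2 v1 hv2 hv1 hadj.symm ?_ (by rw [hDe, Set.insert_comm])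
    rw [← h2]
    exact hadj.ne
  · exact core v1 v2 hv1 hv2 hadj h2 hDe

end MOT
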