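import Pool.Agent.MOT.TfX

/-!
# MOT: THIN, changing the label of a line (helper23)

`line_grow`: let `a k ∈ Zh P`, `∑ c_k a_k = s` trivial on `R`, potential `g`.  `B := bdc c D`, `D ⊇ f` a coarse
tetrahedron (`up4`), `s ∈ Zh P` has a potential `k` on `P ∩ B`.  Along the path `cf` from `w` to `u` (inside
`R ∩ B`) `g + k` is constant, `= t`.  New potential: `g` on `R`, `k + t` on `J`.  An edge between `x ∈ J` and
`y ∈ R` has `y = u` or `y = w` (`line_nb`; on the strips the label is `i ≠ i'`).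

`line_rk`.  Let `l' x = i'` for `x ∈ J`, `l' x = l x` otherwise, `Y = sk c 3`.
 `j = i`: `band` is the same, `lev Y l' i = lev Y l i \ J`: restrict.
 `j = i'`: `band` is the same, `lev Y l' i' = lev Y l i' ∪ J`: `line_grow`.
 `|i - j| ≤ 1`, `j ≠ i`, `j ≠ i'`: then `|i' - j| = 2`, `band Y l' j = band Y l j \ J`, `lev` is the same (disjoint from
 `J`): extend the cocycles by `line_ext` (`hPi`: `i'` is not in the band; `hPs`: these `y` have label `i`).
 `|i' - j| ≤ 1`, `j ≠ i`, `j ≠ i'`: `band Y l' j = band Y l j ∪ J`: restrict hat cocycles (`rs`), `lev` is the same.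
 otherwise nothing changes.

`line_ok`: Lipschitz: a vertex of `J` is adjacent in `Y` only to `J` (label `i'`), `u`, `w` (label `i'`) and
vertices of label `i` (`line_nb`, `nb2`).  `x0`: a vertex of `J ∩ X0` would give `e ⊆ A0`, so `u ∈ X0`, `l u = 0 = i`,
but `i' ≠ i`.  `top`: `i' = l u ≤ m + 1`.
`line_wt`: `E = sk c 2`.  All neighbours in `E` of a vertex of `J` are in `J ∪ {u, w}` (their carrier is comparable
with `e` and has at most two elements, so it is `⊆ e`), so the changing pairs of `l'` are changing pairs of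
`l`; the pair `(x, u)` with `x ∈ J` adjacent to `u` changes for `l`, not for `l'`.
-/

open Classical

noncomputable section

namespace MOT

variable {V0 V : Type} {G0 : SimpleGraph V0} {G : SimpleGraph V} {c : V → Set V0}

variable {l : V → ℕ} {e f : Set V0} {i i' : ℕ} {J : Set V} {u w : V}

private theorem Line.lii (L : Line G0 G c l e f i i' J u w) : i ≠ i' := by
  rcases L.ii with h1 | h1 <;> omega

private theorem Line.jsk (L : Line G0 G c l e f i i' J u w) {x : V} (hx : x ∈ J) {d : ℕ}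
    (hd : 2 ≤ d) : x ∈ sk c d := by
  show (c x).ncard ≤ d
  rw [(L.je x hx).1, L.he2]
  exact hd

private theorem Line.esk [Finite V0] (L : Line G0 G c l e f i i' J u w) {x : V} (hx : c x ⊆ e)
    {d : ℕ} (hd : 2 ≤ d) : x ∈ sk c d := by
  have h1 := Set.ncard_le_ncard hx (Set.toFinite _)
  rw [L.he2] at h1
  exact h1.trans hd

private theorem Line.unj (L : Line G0 G c l e f i i' J u w) : u ∉ J := fun h =>
  L.lii ((L.je u h).2.symm.trans L.hu.2)

private theorem zh_rs {DD : Set (Set V)} {P P' : Set V} (h : P ⊆ P') {a : V → V → ZMod 2}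
    (ha : a ∈ Zh G DD P') : rs G P a ∈ Zh G DD P := by
  refine ⟨rs_mem h ha.1, fun B hB => ?_⟩
  exact ((ha.2 B hB).mono (Set.inter_subset_inter_left B h)).congr
    (fun x y e => (rs_apply (e.mono Set.inter_subset_left)).symm)

private theorem rk_mono {DD : Set (Set V)} {P P' R R' : Set V} {r : ℕ} (h : P ⊆ P')
    (hR : R' ⊆ R) (hRP : R' ⊆ P) (hr : Rk G DD P R r) : Rk G DD P' R' r := by
  intro a ha
  obtain ⟨k, hk, ht⟩ := hr (fun i => rs G P (a i)) (fun i => zh_rs h (ha i))
  refine ⟨k, hk, (ht.mono hR).congr fun x y e => ?_⟩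
  simp only [Finset.sum_apply, Pi.smul_apply]
  exact Finset.sum_congr rfl fun i _ => by rw [rs_apply (e.mono hRP)]

theorem line_grow [Finite V0] [Finite V] (h0 : IsSph3 G0) (h : CY G0 G c)
    (L : Line G0 G c l e f i i' J u w) {P : Set V} {r : ℕ} (hP : P ⊆ sk c 3) (hJP : J ⊆ P)
    (hR : lev (sk c 3) l i' ⊆ P) (hr : Rk G (bdd G0 c) P (lev (sk c 3) l i') r) :
    Rk G (bdd G0 c) P (lev (sk c 3) l i' ∪ J) r := by
  intro a ha
  obtain ⟨k, hk, g, hg⟩ := hr a ha
  refine ⟨k, hk, ?_⟩
  have hs : (∑ i, k i • a i) ∈ Zh G (bdd G0 c) P :=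
    Submodule.sum_mem _ fun i _ => Submodule.smul_mem _ _ (ha i)
  obtain ⟨s, hs0⟩ : ∃ s, s = ∑ i, k i • a i := ⟨_, rfl⟩
  rw [← hs0] at hs hg ⊢
  have hfne : f.Nonempty := Set.nonempty_of_ncard_ne_zero (by rw [L.hf3]; norm_num)
  obtain ⟨D, hD, hD4, hfD⟩ := up4 h0 L.hf hfne (by rw [L.hf3]; norm_num)
  have hss : f ⊂ D := by
    refine hfD.ssubset_of_ne ?_
    rintro rfl
    have := L.hf3
    omega
  have hB : ∀ x, c x ⊆ f → x ∈ bdc c D := fun x hx => lt_of_le_of_lt hx hss
  obtain ⟨q, hq⟩ := hs.2 (bdc c D) ⟨D, hD, hD4, rfl⟩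
  have hfl : ∀ x, c x ⊆ f ∧ l x = i' → x ∈ lev (sk c 3) l i' := by
    intro x hx
    refine ⟨?_, hx.2⟩
    have h1 := Set.ncard_le_ncard hx.1 (Set.toFinite _)
    rw [L.hf3] at h1
    exact h1
  have hgq : g w + q w = g u + q u := by
    refine rtg_const (A := {x | c x ⊆ f ∧ l x = i'}) (f := fun x => g x + q x) ?_ L.cf
    intro x y exy
    have e1 := hg x y ⟨exy.1, hfl x exy.2.1, hfl y exy.2.2⟩
    have e2 := hq x y ⟨exy.1, ⟨hR (hfl x exy.2.1), hB x exy.2.1.1⟩,
      ⟨hR (hfl y exy.2.2), hB y exy.2.2.1⟩⟩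
    have e3 : g x + g y = q x + q y := e1.symm.trans e2
    linear_combination e3 + two_add (q x) - two_add (g y)
  have hJR : ∀ x ∈ J, x ∉ lev (sk c 3) l i' := fun x hx hx' =>
    L.lii ((L.je x hx).2.symm.trans hx'.2)
  have hJB : ∀ x ∈ J, x ∈ P ∩ bdc c D := fun x hx =>
    ⟨hJP hx, hB x ((L.je x hx).1.le.trans L.hef.1)⟩
  -- mixed edges
  have hmix : ∀ x ∈ J, ∀ y, y ∈ lev (sk c 3) l i' → G.Adj x y →
      s x y = q x + (g w + q w) + g y := by
    intro x hx y hy hxy
    have hyJ : y ∉ J := fun h' => hJR y h' hy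
    have hyuw : y = u ∨ y = w := by
      rcases line_nb h L hx hy.1 hxy with h1 | h1 | h1 | ⟨v, hv, h1⟩
      · exact absurd h1 hyJ
      · exact Or.inl h1
      · exact Or.inr h1
      · exfalso
        have hve : v ∉ e := fun hve => G0.loopless.irrefl v (hv v hve)
        have h3 : (c y).ncard = 3 := by
          rw [h1.1, Set.ncard_insert_of_notMem hve (Set.toFinite _), L.he2]
        exact L.lii ((L.nb2 x hx y hxy h3).symm.trans hy.2)
    have hyf : c y ⊆ f := by
      rcases hyuw with rfl | rfl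
      · exact L.hu.1.trans L.hef.1
      · exact L.hw.1.trans L.hef.1
    have e1 := hq x y ⟨hxy, hJB x hx, ⟨hR hy, hB y hyf⟩⟩
    have e2 : g w + q w = g y + q y := by
      rcases hyuw with rfl | rfl
      · exact hgq
      · rfl
    rw [e1, e2]
    linear_combination - two_add (g y)
  refine ⟨fun x => if x ∈ J then q x + (g w + q w) else g x, fun x y exy => ?_⟩
  by_cases hx : x ∈ J <;> by_cases hy : y ∈ J
  · simp only [hx, hy, if_true]
    rw [hq x y ⟨exy.1, hJB x hx, hJB y hy⟩]
    linear_combination - two_add (g w + q w)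
  · have hyR : y ∈ lev (sk c 3) l i' := exy.2.2.resolve_right hy
    simp only [hx, hy, if_true, if_false]
    exact hmix x hx y hyR exy.1
  · have hxR : x ∈ lev (sk c 3) l i' := exy.2.1.resolve_right hx
    simp only [hx, hy, if_true, if_false]
    rw [(mem_Z1.1 hs.1).2.1 x y, hmix y hy x hxR exy.1.symm]
    ring
  · have hxR : x ∈ lev (sk c 3) l i' := exy.2.1.resolve_right hx
    have hyR : y ∈ lev (sk c 3) l i' := exy.2.2.resolve_right hy
    simp only [hx, hy, if_false]
    exact hg x y ⟨exy.1, hxR, hyR⟩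

/-- the new labels -/
def newl (l : V → ℕ) (J : Set V) (i' : ℕ) (x : V) : ℕ := if x ∈ J then i' else l x

private theorem newl_in {x : V} (hx : x ∈ J) : newl l J i' x = i' := if_pos hx

private theorem newl_out {x : V} (hx : x ∉ J) : newl l J i' x = l x := if_neg hx

theorem line_rk [Finite V0] [Finite V] (h0 : IsSph3 G0) (h : CY G0 G c)
    (L : Line G0 G c l e f i i' J u w) {j r : ℕ} (hj : 1 ≤ j)
    (hr : Rk G (bdd G0 c) (band (sk c 3) l j) (lev (sk c 3) l j) r) :
    Rk G (bdd G0 c) (band (sk c 3) (newl l J i') j) (lev (sk c 3) (newl l J i') j) r := by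
  have hii := L.ii
  have hJl : ∀ x ∈ J, l x = i := fun x hx => (L.je x hx).2
  have hJY : ∀ x ∈ J, x ∈ sk c 3 := fun x hx => L.jsk hx (by norm_num)
  by_cases hji' : j = i'
  · -- the label grows
    subst hji'
    have hP : band (sk c 3) l j ⊆ sk c 3 := fun x hx => hx.1
    have hJP : J ⊆ band (sk c 3) l j := by
      intro x hx
      refine ⟨hJY x hx, ?_, ?_⟩
      · rw [hJl x hx]; omega
      · rw [hJl x hx]; omega
    have hR : lev (sk c 3) l j ⊆ band (sk c 3) l j := by
      intro x hx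
      have h1 : l x = j := hx.2
      exact ⟨hx.1, by omega, by omega⟩
    refine rk_mono ?_ ?_ ?_ (line_grow h0 h L hP hJP hR hr)
    · intro x hx
      refine ⟨hx.1, ?_⟩
      by_cases hxJ : x ∈ J
      · rw [newl_in hxJ]; omega
      · rw [newl_out hxJ]; exact hx.2
    · intro x hx
      by_cases hxJ : x ∈ J
      · exact Or.inr hxJ
      · left
        refine ⟨hx.1, ?_⟩
        have := hx.2
        rwa [newl_out hxJ] at this
    · intro x hx
      by_cases hxJ : x ∈ J
      · exact hJP hxJ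
      · refine hR ⟨hx.1, ?_⟩
        have := hx.2
        rwa [newl_out hxJ] at this
  by_cases hc : j ≠ i ∧ j ≤ i + 1 ∧ i ≤ j + 1
  · -- extension
    obtain ⟨hji, h1, h2⟩ := hc
    have hbn : band (sk c 3) (newl l J i') j = band (sk c 3) l j \ J := by
      ext x
      constructor
      · rintro ⟨hx, h3⟩
        by_cases hxJ : x ∈ J
        · rw [newl_in hxJ] at h3; omega
        · rw [newl_out hxJ] at h3
          exact ⟨⟨hx, h3⟩, hxJ⟩
      · rintro ⟨⟨hx, h3⟩, hxJ⟩
        refine ⟨hx, ?_⟩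
        rwa [newl_out hxJ]
    have hlv : lev (sk c 3) (newl l J i') j = lev (sk c 3) l j := by
      ext x
      constructor
      · rintro ⟨hx, h3⟩
        by_cases hxJ : x ∈ J
        · rw [newl_in hxJ] at h3; exact absurd h3.symm hji'
        · rw [newl_out hxJ] at h3
          exact ⟨hx, h3⟩
      · rintro ⟨hx, h3⟩
        have hxJ : x ∉ J := fun hxJ => hji (h3.symm.trans (hJl x hxJ))
        refine ⟨hx, ?_⟩
        rwa [newl_out hxJ]
    rw [hbn, hlv]
    intro a ha
    have hex : ∀ k, ∃ a' ∈ Zh G (bdd G0 c) (band (sk c 3) l j),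
        ∀ x y, EIn G (band (sk c 3) l j \ J) x y → a' x y = a k x y := by
      intro k
      refine line_ext h0 h L (fun x hx => hx.1) ?_ ?_ ?_ (ha k)
      · intro x hx
        refine ⟨hJY x hx, ?_, ?_⟩
        · rw [hJl x hx]; omega
        · rw [hJl x hx]; omega
      · intro x hx hxi
        have h3 := hx.2
        rw [hxi] at h3
        omega
      · intro x hx y hxy h3
        refine ⟨h3.le, ?_, ?_⟩
        · rw [L.nb2 x hx y hxy h3]; omega
        · rw [L.nb2 x hx y hxy h3]; omega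
    choose a' ha' haa using hex
    obtain ⟨k, hk, ht⟩ := hr a' ha'
    refine ⟨k, hk, ht.congr fun x y exy => ?_⟩
    have hsub : lev (sk c 3) l j ⊆ band (sk c 3) l j \ J := by
      intro z hz
      have h3 : l z = j := hz.2
      exact ⟨⟨hz.1, by omega, by omega⟩, fun hzJ => hji (h3.symm.trans (hJl z hzJ))⟩
    simp only [Finset.sum_apply, Pi.smul_apply]
    exact Finset.sum_congr rfl fun m _ => by rw [haa m x y (exy.mono hsub)]
  · -- restriction
    refine rk_mono ?_ ?_ ?_ hr
    · intro x hx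
      refine ⟨hx.1, ?_⟩
      by_cases hxJ : x ∈ J
      · have h3 := hx.2
        rw [hJl x hxJ] at h3
        rw [newl_in hxJ]
        have h4 : j = i := by
          by_contra h4
          exact hc ⟨h4, h3.1, h3.2⟩
        omega
      · rw [newl_out hxJ]; exact hx.2
    · intro x hx
      have hxJ : x ∉ J := by
        intro hxJ
        have := hx.2
        rw [newl_in hxJ] at this
        exact hji' this.symm
      refine ⟨hx.1, ?_⟩
      have := hx.2
      rwa [newl_out hxJ] at this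
    · intro x hx
      have hxJ : x ∉ J := by
        intro hxJ
        have := hx.2
        rw [newl_in hxJ] at this
        exact hji' this.symm
      have h3 : l x = j := by
        have := hx.2
        rwa [newl_out hxJ] at this
      exact ⟨hx.1, by omega, by omega⟩

theorem line_ok [Finite V0] [Finite V] (h0 : IsSph3 G0) (h : CY G0 G c)
    (L : Line G0 G c l e f i i' J u w) {A0 A1 : Set V0} {m r : ℕ}
    (hl : LabOK G (bdd G0 c) (sk c 3) (sk c 3 ∩ cel c A0) (sk c 3 ∩ cel c A1) m r l) :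
    LabOK G (bdd G0 c) (sk c 3) (sk c 3 ∩ cel c A0) (sk c 3 ∩ cel c A1) m r
      (newl l J i') := by
  have hii := L.ii
  have hJl : ∀ x ∈ J, l x = i := fun x hx => (L.je x hx).2
  have huY : u ∈ sk c 3 := L.esk L.hu.1 (by norm_num)
  have hnb : ∀ x ∈ J, ∀ y ∈ sk c 3, y ∉ J → G.Adj x y → l y = i ∨ l y = i' := by
    intro x hx y hy hyJ hxy
    rcases line_nb h L hx hy hxy with h1 | h1 | h1 | ⟨v, hv, h1⟩
    · exact absurd h1 hyJ
    · right; rw [h1]; exact L.hu.2
    · right; rw [h1]; exact L.hw.2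
    · left
      refine L.nb2 x hx y hxy ?_
      rw [h1.1]
      have hve : v ∉ e := fun hve => G0.loopless.irrefl v (hv v hve)
      rw [Set.ncard_insert_of_notMem hve (Set.toFinite _), L.he2]
  refine ⟨?_, ?_, ?_, ?_, ?_⟩
  · intro x y exy
    by_cases hx : x ∈ J <;> by_cases hy : y ∈ J
    · rw [newl_in hx, newl_in hy]; omega
    · rw [newl_in hx, newl_out hy]
      rcases hnb x hx y exy.2.2 hy exy.1 with h1 | h1 <;> omega
    · rw [newl_out hx, newl_in hy]
      rcases hnb y hy x exy.2.1 hx exy.1.symm with h1 | h1 <;> omega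
    · rw [newl_out hx, newl_out hy]
      exact hl.lip x y exy
  · intro x hx
    by_cases hxJ : x ∈ J
    · rw [newl_in hxJ, ← L.hu.2]
      exact hl.top u huY
    · rw [newl_out hxJ]
      exact hl.top x hx
  · intro x hx
    have hxJ : x ∉ J := by
      intro hxJ
      have hx0 := hl.x0 x hx
      have heA : e ⊆ A0 := by
        have := hx.2
        rwa [show x ∈ cel c A0 ↔ c x ⊆ A0 from Iff.rfl, (L.je x hxJ).1] at this
      have hu0 := hl.x0 u ⟨huY, L.hu.1.trans heA⟩
      rw [hJl x hxJ] at hx0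
      rw [L.hu.2] at hu0
      omega
    rw [newl_out hxJ]
    exact hl.x0 x hx
  · intro x hx
    have hxJ : x ∉ J := by
      intro hxJ
      have hx0 := hl.x1 x hx
      have heA : e ⊆ A1 := by
        have := hx.2
        rwa [show x ∈ cel c A1 ↔ c x ⊆ A1 from Iff.rfl, (L.je x hxJ).1] at this
      have hu0 := hl.x1 u ⟨huY, L.hu.1.trans heA⟩
      rw [hJl x hxJ] at hx0
      rw [L.hu.2] at hu0
      omega
    rw [newl_out hxJ]
    exact hl.x1 x hx
  · intro j hj hjm
    exact line_rk h0 h L hj (hl.rk j hj hjm)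

theorem line_wt [Finite V0] [Finite V] (h : CY G0 G c)
    (L : Line G0 G c l e f i i' J u w) : wt G (sk c 2) (newl l J i') < wt G (sk c 2) l := by
  have hJl : ∀ x ∈ J, l x = i := fun x hx => (L.je x hx).2
  have hnb : ∀ x ∈ J, ∀ y ∈ sk c 2, y ∉ J → G.Adj x y → l y = i' := by
    intro x hx y hy hyJ hxy
    have hye : c y ⊆ e := by
      rcases h.cmp x y hxy with h1 | h1
      · rw [(L.je x hx).1] at h1
        have h2 : (c y).ncard ≤ e.ncard := by rw [L.he2]; exact hy
        exact (Set.eq_of_subset_of_ncard_le h1 h2 (Set.toFinite _)).symm.le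
      · rwa [(L.je x hx).1] at h1
    rcases L.nb x hx y hxy hye with h1 | h1 | h1
    · exact absurd h1 hyJ
    · rw [h1]; exact L.hu.2
    · rw [h1]; exact L.hw.2
  unfold wt
  refine Set.ncard_lt_ncard ?_ (Set.toFinite _)
  refine ⟨?_, ?_⟩
  · rintro ⟨x, y⟩ ⟨exy, hne⟩
    refine ⟨exy, ?_⟩
    dsimp only at exy hne ⊢
    by_cases hx : x ∈ J <;> by_cases hy : y ∈ J
    · rw [newl_in hx, newl_in hy] at hne
      exact absurd rfl hne
    · rw [newl_in hx, newl_out hy] at hne
      exact absurd (hnb x hx y exy.2.2 hy exy.1).symm hne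
    · rw [newl_out hx, newl_in hy] at hne
      exact absurd (hnb y hy x exy.2.1 hx exy.1.symm) hne
    · rwa [newl_out hx, newl_out hy] at hne
  · intro hsub
    obtain ⟨x, hx, hxu⟩ := L.au
    have h1 : (x, u) ∈ {p : V × V | EIn G (sk c 2) p.1 p.2 ∧ l p.1 ≠ l p.2} := by
      refine ⟨⟨hxu, L.jsk hx le_rfl, L.esk L.hu.1 le_rfl⟩, ?_⟩
      show l x ≠ l u
      rw [hJl x hx, L.hu.2]
      exact L.lii
    have h2 := (hsub h1).2
    dsimp only at h2
    rw [newl_in hx, newl_out L.unj, L.hu.2] at h2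
    exact h2 rfl

end MOT
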