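import Pool.Agent.MOT.TfL
import Pool.Agent.MOT.TcSa
import Pool.Agent.MOT.Fib

/-!
# MOT: THIN, fingers, the strips (helper23)

`Finger`: an interval `I` of `{l = i}` on the coarse edge `e`, both end neighbours `u, w` have label `i'` and
are connected in `{l = i'}` inside the coarse face `f`.  On the subdivision the simplices of `I ∪ {u, w}` which
meet `I` form a thin line.

`finger_strip`:
 `st`: `S := strip (sd G) (cs c) J g = {t | cs c t = g, t > s for some s ∈ J}` (a `t < s` has carrier `⊆ e`).  Map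
  `p t := t ∩ cel c e` (a simplex, contains `s`, so it meets `I`; its other vertex, if any, is adjacent to a
  vertex of `I`, so in `I ∪ {u, w}`: `p t ∈ J`).  `p` is monotone; for `s ∈ J` the fibre `{t ∈ S | s ≤ p t}` is
  `{t | s < t ∧ cs c t = g}`, connected with `H^1 = 0`: this is the hypothesis `hup` (theorem `up_half`).  `J` is
  connected, and `HZ J`: `J ⊆ cel c e` where there are no triangles on level `sd G` (hypothesis `CY` of the
  subdivision, `CY.dim`), so a cocycle of `J`, extended by zero, is a cocycle of the cell, which has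
  `H^1 = 0`.  `fib_Conn`, `fib_HZ`.

-/

open Classical

noncomputable section

namespace MOT

variable {V0 V : Type} {G0 : SimpleGraph V0} {G : SimpleGraph V} {c : V → Set V0}

structure Finger (G0 : SimpleGraph V0) (G : SimpleGraph V) (c : V → Set V0) (l : V → ℕ)
    (e f : Set V0) (i i' : ℕ) (I : Set V) (u w : V) : Prop where
  he : G0.IsClique e
  he2 : e.ncard = 2
  hf : G0.IsClique f
  hf3 : f.ncard = 3
  hef : e ⊂ f
  ii : i' = i + 1 ∨ i = i' + 1
  conn : Conn G I
  ie : ∀ x ∈ I, c x = e ∧ l x = i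
  hu : c u ⊆ e ∧ l u = i'
  hw : c w ⊆ e ∧ l w = i'
  huw : u ≠ w
  au : ∃ x ∈ I, G.Adj x u
  aw : ∃ x ∈ I, G.Adj x w
  nb : ∀ x ∈ I, ∀ y, G.Adj x y → c y ⊆ e → y ∈ I ∨ y = u ∨ y = w
  cf : Relation.ReflTransGen (EIn G {x | c x ⊆ f ∧ l x = i'}) w u

/-- the line of a finger on the subdivision -/
def fJ (G : SimpleGraph V) (I : Set V) (u w : V) : Set (Cq G) :=
  {s | (∀ x ∈ s.1, x ∈ I ∨ x = u ∨ x = w) ∧ ∃ x ∈ s.1, x ∈ I}

variable {l : V → ℕ} {e f : Set V0} {i i' : ℕ} {I : Set V} {u w : V}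

private theorem Finger.fD_sub (L : Finger G0 G c l e f i i' I u w) {s : Cq G}
    (hs : s ∈ fJ G I u w) : ∀ x ∈ s.1, c x ⊆ e := by
  intro x hx
  rcases hs.1 x hx with h1 | rfl | rfl
  · exact (L.ie x h1).1.le
  · exact L.hu.1
  · exact L.hw.1

private theorem Finger.fD_vx {x : V} (hx : x ∈ I) : vx G x ∈ fJ G I u w := by
  refine ⟨fun y hy => ?_, x, by simp [vx], hx⟩
  rw [show y = x by simpa [vx] using hy]
  exact Or.inl hx

private theorem Finger.fD_conn (L : Finger G0 G c l e f i i' I u w) :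
    Conn (sd G) (fJ G I u w) := by
  rw [Conn_iff]
  obtain ⟨x0, hx0⟩ := L.conn.1
  refine ⟨⟨vx G x0, Finger.fD_vx hx0⟩, fun φ hφ s hs t ht => ?_⟩
  have h1 : ∀ x ∈ I, ∀ y ∈ I, φ (vx G x) = φ (vx G y) := by
    intro x hx y hy
    refine L.conn.const (f := fun z => φ (vx G z)) (fun a b hab => ?_) hx hy
    have hE : eg G hab.1 ∈ fJ G I u w := by
      refine ⟨fun z hz => ?_, a, by simp [eg], hab.2.1⟩
      have : z = a ∨ z = b := by simpa [eg] using hz
      rcases this with rfl | rfl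
      · exact Or.inl hab.2.1
      · exact Or.inl hab.2.2
    have ha : vx G a < eg G hab.1 := by
      rw [Cq.lt_iff]
      refine ⟨by simp [vx, eg], fun hh => ?_⟩
      have : b ∈ (vx G a).1 := hh (by simp [eg])
      exact hab.1.ne (by simpa [vx] using this : b = a).symm
    have hb : vx G b < eg G hab.1 := by
      rw [Cq.lt_iff]
      refine ⟨by simp [vx, eg], fun hh => ?_⟩
      have : a ∈ (vx G b).1 := hh (by simp [eg])
      exact hab.1.ne (by simpa [vx] using this : a = b)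
    have e1 := hφ (vx G a) (eg G hab.1) ⟨Or.inl ha, Finger.fD_vx hab.2.1, hE⟩
    have e2 := hφ (vx G b) (eg G hab.1) ⟨Or.inl hb, Finger.fD_vx hab.2.2, hE⟩
    exact e1.trans e2.symm
  have h2 : ∀ s ∈ fJ G I u w, ∃ x ∈ I, φ s = φ (vx G x) := by
    intro s hs
    obtain ⟨x, hx, hxI⟩ := hs.2
    refine ⟨x, hxI, ?_⟩
    by_cases hsx : vx G x = s
    · rw [hsx]
    · have hlt : vx G x < s := by
        refine lt_of_le_of_ne ?_ hsx
        rw [Cq.le_iff]
        simpa [vx] using hx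
      exact (hφ (vx G x) s ⟨Or.inl hlt, Finger.fD_vx hxI, hs⟩).symm
  obtain ⟨x, hx, ex⟩ := h2 s hs
  obtain ⟨y, hy, ey⟩ := h2 t ht
  rw [ex, ey]
  exact h1 x hx y hy

theorem finger_strip (h : CY G0 G c) (h' : CY G0 (sd G) (cs (G := G) c))
    (L : Finger G0 G c l e f i i' I u w) {g : Set V0} (hg : G0.IsClique g) (hg3 : g.ncard = 3)
    (heg : e ⊂ g)
    (hup : ∀ s0 : Cq G, (∀ x ∈ s0.1, c x ⊂ g) →
      Conn (sd G) {r | s0 < r ∧ cs c r = g} ∧ HZ (sd G) {r | s0 < r ∧ cs c r = g}) :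
    Conn (sd G) (strip (sd G) (cs c) (fJ G I u w) g) ∧
      HZ (sd G) (strip (sd G) (cs c) (fJ G I u w) g) := by
  have hsub : ∀ s ∈ fJ G I u w, ∀ x ∈ s.1, c x ⊆ e := fun s hs x hx => L.fD_sub hs x hx
  -- the projection
  let p : Cq G → Cq G := fun t =>
    if hne : (t.1.filter (fun x => c x ⊆ e)).Nonempty then
      ⟨t.1.filter (fun x => c x ⊆ e), hne, fun a ha b hb hab =>
        t.2.2 (Finset.mem_coe.2 (Finset.mem_filter.1 (Finset.mem_coe.1 ha)).1)
          (Finset.mem_coe.2 (Finset.mem_filter.1 (Finset.mem_coe.1 hb)).1) hab⟩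
    else t
  have hpv : ∀ t : Cq G, (t.1.filter (fun x => c x ⊆ e)).Nonempty →
      (p t).1 = t.1.filter (fun x => c x ⊆ e) := by
    intro t ht
    show (if hne : (t.1.filter (fun x => c x ⊆ e)).Nonempty then _ else t : Cq G).1 = _
    rw [dif_pos ht]
  -- members of the strip
  have hS : ∀ t ∈ strip (sd G) (cs c) (fJ G I u w) g, cs c t = g ∧ ∃ s ∈ fJ G I u w, s < t := by
    rintro t ⟨htg, s, hs, ha⟩
    refine ⟨htg, s, hs, ?_⟩
    rcases ha with ha | ha
    · exact ha
    · exfalso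
      have h1 : cs c t ⊆ e := (cs_mono ha.le).trans (cs_sub.2 (hsub s hs))
      rw [htg] at h1
      exact absurd h1 heg.2
  have hSne : ∀ t ∈ strip (sd G) (cs c) (fJ G I u w) g,
      (t.1.filter (fun x => c x ⊆ e)).Nonempty := by
    intro t ht
    obtain ⟨_, s, hs, hst⟩ := hS t ht
    obtain ⟨x, hx, _⟩ := hs.2
    exact ⟨x, Finset.mem_filter.2 ⟨(Cq.le_iff.1 hst.le) hx, hsub s hs x hx⟩⟩
  have hm : ∀ x ∈ strip (sd G) (cs c) (fJ G I u w) g,
      ∀ y ∈ strip (sd G) (cs c) (fJ G I u w) g, x ≤ y → p x ≤ p y := by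
    intro x hx y hy hxy
    rw [Cq.le_iff, hpv x (hSne x hx), hpv y (hSne y hy)]
    exact Finset.filter_subset_filter _ (Cq.le_iff.1 hxy)
  have hp : ∀ t ∈ strip (sd G) (cs c) (fJ G I u w) g, p t ∈ fJ G I u w := by
    intro t ht
    obtain ⟨_, s, hs, hst⟩ := hS t ht
    obtain ⟨x, hx, hxI⟩ := hs.2
    have hxt : x ∈ t.1 := (Cq.le_iff.1 hst.le) hx
    refine ⟨fun y hy => ?_, x, ?_, hxI⟩
    · rw [hpv t (hSne t ht)] at hy
      obtain ⟨hyt, hye⟩ := Finset.mem_filter.1 hy
      by_cases hxy : x = y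
      · rw [← hxy]; exact Or.inl hxI
      · exact L.nb x hxI y (t.2.2 (Finset.mem_coe.2 hxt) (Finset.mem_coe.2 hyt) hxy) hye
    · rw [hpv t (hSne t ht)]
      exact Finset.mem_filter.2 ⟨hxt, hsub s hs x hx⟩
  have hfib : ∀ s ∈ fJ G I u w,
      {t | t ∈ strip (sd G) (cs c) (fJ G I u w) g ∧ s ≤ p t} = {r | s < r ∧ cs c r = g} := by
    intro s hs
    ext t
    constructor
    · rintro ⟨ht, hst⟩
      have hle : s ≤ t := by
        rw [Cq.le_iff, hpv t (hSne t ht)] at hst
        exact fun x hx => (Finset.mem_filter.1 (hst hx)).1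
      refine ⟨lt_of_le_of_ne hle ?_, (hS t ht).1⟩
      rintro rfl
      have h1 : cs c s ⊆ e := cs_sub.2 (hsub s hs)
      rw [(hS s ht).1] at h1
      exact heg.2 h1
    · rintro ⟨hst, htg⟩
      have ht : t ∈ strip (sd G) (cs c) (fJ G I u w) g := ⟨htg, s, hs, Or.inl hst⟩
      refine ⟨ht, ?_⟩
      rw [Cq.le_iff, hpv t (hSne t ht)]
      exact fun x hx => Finset.mem_filter.2 ⟨(Cq.le_iff.1 hst.le) hx, hsub s hs x hx⟩
  have hfb : ∀ s ∈ fJ G I u w,
      Conn (cmp (Cq G)) {t | t ∈ strip (sd G) (cs c) (fJ G I u w) g ∧ s ≤ p t} ∧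
        HZ (cmp (Cq G)) {t | t ∈ strip (sd G) (cs c) (fJ G I u w) g ∧ s ≤ p t} := by
    intro s hs
    rw [hfib s hs]
    exact hup s (fun x hx => lt_of_le_of_lt (hsub s hs x hx) heg)
  have hene : e.Nonempty := by
    rw [Set.nonempty_iff_ne_empty]
    rintro rfl
    have := L.he2
    simp at this
  have hTz : HZ (sd G) (fJ G I u w) := by
    intro a ha
    obtain ⟨ha0, has, hac⟩ := mem_Z1.1 ha
    have hsubc : fJ G I u w ⊆ cel (cs c) e := fun s hs => cs_sub.2 (hsub s hs)
    have hZ : a ∈ Z1 (sd G) (cel (cs c) e) := by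
      refine mem_Z1.2 ⟨fun x y hxy => ha0 x y (fun e' => hxy (e'.mono hsubc)), has, ?_⟩
      intro x y z e1 e2 e3
      exfalso
      have hcl : (sd G).IsClique (({x, y, z} : Finset (Cq G)) : Set (Cq G)) := by
        intro a ha b hb hab
        simp only [Finset.coe_insert, Finset.coe_singleton, Set.mem_insert_iff,
          Set.mem_singleton_iff] at ha hb
        rcases ha with rfl | rfl | rfl <;> rcases hb with rfl | rfl | rfl
        · exact absurd rfl hab
        · exact e1.1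
        · exact e3.1
        · exact e1.1.symm
        · exact absurd rfl hab
        · exact e2.1
        · exact e3.1.symm
        · exact e2.1.symm
        · exact absurd rfl hab
      have h1 := h'.dim e L.he {x, y, z} hcl (by
        intro a ha
        simp only [Finset.mem_insert, Finset.mem_singleton] at ha
        rcases ha with rfl | rfl | rfl
        · exact e1.2.1
        · exact e1.2.2
        · exact e2.2.2)
      have h2 : ({x, y, z} : Finset (Cq G)).card = 3 := by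
        rw [Finset.card_eq_three]
        exact ⟨x, y, z, e1.1.ne, e3.1.ne, e2.1.ne, rfl⟩
      rw [h2, L.he2] at h1
      omega
    exact ((h'.cell e hene L.he).2 a hZ).mono hsubc
  exact ⟨fib_Conn p hm hp (fun s hs => (hfb s hs).1) L.fD_conn,
    fib_HZ p hm hp hfb hTz⟩

end MOT
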