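import Pool.Agent.MOT.TmDef

/-!
# MOT: THIN, labels on the subdivision (helper16)

Rule: `l' s` is the label of some vertex of `s` for every simplex `s` inside `Y`.

Rank: given hat cocycles `a_k` of `P' = band (mi G Y) l' j`, put for an edge `x y` of `P = band Y l j`:
`b_k x y = a_k {x} {x,y} + a_k {y} {x,y}` (and `0` otherwise): a hat cocycle of `P` (all simplices with
vertices in `P` are in `P'`, by the rule; triangle: use `{x,y,z}`; potential on `P ∩ B`: `g x = f {x}`).
Let `∑ c_k b_k x y = g x + g y` on `R = lev Y l j`, `A = ∑ c_k a_k`.  For `s ∈ R' = lev (mi G Y) l' j` choose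
`x ∈ s` with `l x = j` and put `F s = g x + A {x} s` (`A {x} {x} = 0`).  Independent of the choice:
`A {x} s + A {y} s = A {x} {x,y} + A {y} {x,y} = g x + g y`, (`{x,y} ⊆ s` has label `j` by the rule).
For `s < t` in `R'` use the same `x`: `F s + F t = A s t`.  So `A` is trivial on `R'`.

Lipschitz: two adjacent simplices are `s < t`, all labels of `t` differ by at most 1.
Weight: if `E` contains no triangle, the changing edges `({x}, {x,y})` of `mi G E` inject into the
changing edges `(x, y)` of `E`, (not both `({x},{x,y})` and `({y},{x,y})` change).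
-/

open Classical

noncomputable section

namespace MOT

variable {V : Type}

/-- a vertex as a simplex -/
private def sg (G : SimpleGraph V) (x : V) : Cq G :=
  ⟨{x}, Finset.singleton_nonempty x, by simp⟩

/-- an edge as a simplex -/
private def ed {G : SimpleGraph V} {x y : V} (h : G.Adj x y) : Cq G :=
  ⟨{x, y}, by simp, by
    intro u hu v hv huv
    simp only [Finset.coe_insert, Finset.coe_singleton, Set.mem_insert_iff,
      Set.mem_singleton_iff] at hu hv
    rcases hu with rfl | rfl <;> rcases hv with rfl | rfl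
    · exact absurd rfl huv
    · exact h
    · exact h.symm
    · exact absurd rfl huv⟩

private theorem lt_iff' {G : SimpleGraph V} {s t : Cq G} : s < t ↔ s.1 ⊂ t.1 := Iff.rfl

private theorem sg_lt_ed {G : SimpleGraph V} {x y : V} (h : G.Adj x y) : sg G x < ed h := by
  rw [lt_iff']
  refine ⟨fun z hz => ?_, fun hh => ?_⟩
  · have : z = x := by simpa [sg] using hz
    subst this; simp [ed]
  · have : y ∈ (sg G x).1 := hh (by simp [ed])
    have : y = x := by simpa [sg] using this
    exact h.ne this.symm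

private theorem sg_lt_ed' {G : SimpleGraph V} {x y : V} (h : G.Adj x y) : sg G y < ed h := by
  rw [lt_iff']
  refine ⟨fun z hz => ?_, fun hh => ?_⟩
  · have : z = y := by simpa [sg] using hz
    subst this; simp [ed]
  · have : x ∈ (sg G y).1 := hh (by simp [ed])
    have : x = y := by simpa [sg] using this
    exact h.ne this

private theorem sg_lt {G : SimpleGraph V} {x : V} {s : Cq G} (hx : x ∈ s.1) (hne : s ≠ sg G x) :
    sg G x < s := by
  rw [lt_iff']
  refine (Finset.ssubset_iff_subset_ne).2 ⟨by simpa [sg] using hx, fun h => hne ?_⟩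
  exact Subtype.ext h.symm

private theorem ed_lt {G : SimpleGraph V} {x y : V} {s : Cq G} (h : G.Adj x y) (hx : x ∈ s.1)
    (hy : y ∈ s.1) (hne : s ≠ ed h) : ed h < s := by
  rw [lt_iff']
  refine (Finset.ssubset_iff_subset_ne).2 ⟨?_, fun h => hne ?_⟩
  · intro z hz
    have hz' : z = x ∨ z = y := by simpa [ed] using hz
    rcases hz' with rfl | rfl
    · exact hx
    · exact hy
  · exact Subtype.ext h.symm

private theorem adj_of_mem {G : SimpleGraph V} {x y : V} {s : Cq G} (hx : x ∈ s.1) (hy : y ∈ s.1)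
    (hne : x ≠ y) : G.Adj x y :=
  s.2.2 (Finset.mem_coe.2 hx) (Finset.mem_coe.2 hy) hne

private theorem self0 {G : SimpleGraph V} {P : Set V} {a : V → V → ZMod 2} (ha : a ∈ Z1 G P)
    (x : V) : a x x = 0 :=
  ha.1 x x (fun h => G.loopless.irrefl x h.1)

private theorem coc {G : SimpleGraph V} {P : Set V} {a : V → V → ZMod 2} (ha : a ∈ Z1 G P)
    {x y z : V} (h1 : EIn G P x y) (h2 : EIn G P y z) (h3 : EIn G P x z) :
    a x y + a y z = a x z := ha.2.2 x y z h1 h2 h3

private theorem sym' {G : SimpleGraph V} {P : Set V} {a : V → V → ZMod 2} (ha : a ∈ Z1 G P)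
    (x y : V) : a x y = a y x := ha.2.1 x y

section rk

variable {G : SimpleGraph V} {DD : Set (Set V)} {Y : Set V} {l : V → ℕ} {l' : Cq G → ℕ}

private theorem mi_band (hr : ∀ s ∈ mi G Y, ∃ x ∈ s.1, l' s = l x) {j : ℕ} {s : Cq G}
    (hs : s ∈ mi G (band Y l j)) : s ∈ band (mi G Y) l' j := by
  have hY : s ∈ mi G Y := fun x hx => (hs x hx).1
  obtain ⟨x, hx, e⟩ := hr s hY
  have := hs x hx
  exact ⟨hY, by rw [e]; exact this.2.1, by rw [e]; exact this.2.2⟩

private theorem lev_band {j : ℕ} {Y : Set V} {l : V → ℕ} : lev Y l j ⊆ band Y l j := by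
  intro x hx
  exact ⟨hx.1, by have := hx.2; omega, by have := hx.2; omega⟩

/-- the cocycle on the coarse level -/
private def push (G : SimpleGraph V) (P : Set V) (a : Cq G → Cq G → ZMod 2) (x y : V) : ZMod 2 :=
  if h : EIn G P x y then a (sg G x) (ed h.1) + a (sg G y) (ed h.1) else 0

private theorem ed_symm {x y : V} (h : G.Adj x y) : ed h = ed h.symm :=
  Subtype.ext (Finset.pair_comm x y)

private theorem sg_mi {P : Set V} {x : V} (hx : x ∈ P) : sg G x ∈ mi G P := by
  intro z hz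
  have : z = x := by simpa [sg] using hz
  rw [this]; exact hx

private theorem ed_mi {P : Set V} {x y : V} (h : G.Adj x y) (hx : x ∈ P) (hy : y ∈ P) :
    ed h ∈ mi G P := by
  intro z hz
  have : z = x ∨ z = y := by simpa [ed] using hz
  rcases this with rfl | rfl
  · exact hx
  · exact hy

private theorem ein_lt {Q : Set (Cq G)} {s t : Cq G} (h : s < t) (hs : s ∈ Q) (ht : t ∈ Q) :
    EIn (sd G) Q s t := ⟨Or.inl h, hs, ht⟩

private theorem push_mem (hr : ∀ s ∈ mi G Y, ∃ x ∈ s.1, l' s = l x) {j : ℕ}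
    {a : Cq G → Cq G → ZMod 2} (ha : a ∈ Zh (sd G) ((mi G) '' DD) (band (mi G Y) l' j)) :
    push G (band Y l j) a ∈ Zh G DD (band Y l j) := by
  obtain ⟨haZ, haT⟩ := ha
  have hP := fun (s : Cq G) (hs : s ∈ mi G (band Y l j)) => mi_band hr hs
  have z2 : ∀ u : ZMod 2, u + u = 0 := fun u => CharTwo.add_self_eq_zero u
  refine ⟨⟨fun x y h => dif_neg h, fun x y => ?_, fun x y z h1 h2 h3 => ?_⟩, fun B hB => ?_⟩
  · by_cases h : EIn G (band Y l j) x y
    · have h' : EIn G (band Y l j) y x := ⟨h.1.symm, h.2.2, h.2.1⟩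
      rw [push, push, dif_pos h, dif_pos h', ed_symm h.1]
      exact add_comm _ _
    · have h' : ¬ EIn G (band Y l j) y x := fun q => h ⟨q.1.symm, q.2.2, q.2.1⟩
      rw [push, push, dif_neg h, dif_neg h']
  · rw [push, push, push, dif_pos h1, dif_pos h2, dif_pos h3]
    have hne : x ≠ z := h3.1.ne
    let t : Cq G := ⟨{x, y, z}, by simp, by
      intro u hu v hv huv
      simp only [Finset.coe_insert, Finset.coe_singleton, Set.mem_insert_iff,
        Set.mem_singleton_iff] at hu hv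
      rcases hu with rfl | rfl | rfl <;> rcases hv with rfl | rfl | rfl
      · exact absurd rfl huv
      · exact h1.1
      · exact h3.1
      · exact h1.1.symm
      · exact absurd rfl huv
      · exact h2.1
      · exact h3.1.symm
      · exact h2.1.symm
      · exact absurd rfl huv⟩
    have tx : x ∈ t.1 := by simp [t]
    have ty : y ∈ t.1 := by simp [t]
    have tz : z ∈ t.1 := by simp [t]
    have htm : t ∈ mi G (band Y l j) := by
      intro u hu
      have : u = x ∨ u = y ∨ u = z := by simpa [t] using hu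
      rcases this with rfl | rfl | rfl
      · exact h1.2.1
      · exact h1.2.2
      · exact h2.2.2
    have key : ∀ (u v : V) (h : EIn G (band Y l j) u v), u ∈ t.1 → v ∈ t.1 →
        a (sg G u) (ed h.1) + a (sg G v) (ed h.1) = a (sg G u) t + a (sg G v) t := by
      intro u v h hu hv
      have hlt : ed h.1 < t := by
        refine ed_lt h.1 hu hv fun e => ?_
        have e1 : t.1 = {u, v} := by rw [e]; rfl
        have hc : t.1.card = 3 := by
          show ({x, y, z} : Finset V).card = 3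
          rw [Finset.card_eq_three]
          exact ⟨x, y, z, h1.1.ne, hne, h2.1.ne, rfl⟩
        have : ({u, v} : Finset V).card ≤ 2 := Finset.card_le_two
        rw [← e1] at this
        omega
      have m1 := hP _ (sg_mi (G := G) h.2.1)
      have m2 := hP _ (sg_mi (G := G) h.2.2)
      have m3 := hP _ (ed_mi h.1 h.2.1 h.2.2)
      have m4 := hP _ htm
      have q1 := coc haZ (ein_lt (sg_lt_ed h.1) m1 m3) (ein_lt hlt m3 m4)
        (ein_lt ((sg_lt_ed h.1).trans hlt) m1 m4)
      have q2 := coc haZ (ein_lt (sg_lt_ed' h.1) m2 m3) (ein_lt hlt m3 m4)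
        (ein_lt ((sg_lt_ed' h.1).trans hlt) m2 m4)
      rw [← q1, ← q2]
      linear_combination (-1 : ZMod 2) * z2 (a (ed h.1) t)
    rw [key x y h1 tx ty, key y z h2 ty tz, key x z h3 tx tz]
    linear_combination z2 (a (sg G y) t)
  · obtain ⟨f, hf⟩ := haT (mi G B) ⟨B, hB, rfl⟩
    refine ⟨fun x => f (sg G x), fun x y h => ?_⟩
    have h' : EIn G (band Y l j) x y := ⟨h.1, h.2.1.1, h.2.2.1⟩
    rw [push, dif_pos h']
    have m1 := hP _ (sg_mi (G := G) h'.2.1)
    have m2 := hP _ (sg_mi (G := G) h'.2.2)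
    have m3 := hP _ (ed_mi h.1 h'.2.1 h'.2.2)
    have b1 : sg G x ∈ mi G B := sg_mi h.2.1.2
    have b2 : sg G y ∈ mi G B := sg_mi h.2.2.2
    have b3 : ed h.1 ∈ mi G B := ed_mi h.1 h.2.1.2 h.2.2.2
    rw [hf _ _ (ein_lt (sg_lt_ed h.1) ⟨m1, b1⟩ ⟨m3, b3⟩),
      hf _ _ (ein_lt (sg_lt_ed' h.1) ⟨m2, b2⟩ ⟨m3, b3⟩)]
    linear_combination z2 (f (ed h.1))

private theorem lift_triv (hr : ∀ s ∈ mi G Y, ∃ x ∈ s.1, l' s = l x) {j : ℕ}
    {A : Cq G → Cq G → ZMod 2} (hA : A ∈ Z1 (sd G) (band (mi G Y) l' j))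
    (h : Triv G (lev Y l j) (push G (band Y l j) A)) : Triv (sd G) (lev (mi G Y) l' j) A := by
  obtain ⟨g, hg⟩ := h
  have z2 : ∀ u : ZMod 2, u + u = 0 := fun u => CharTwo.add_self_eq_zero u
  -- the chosen vertex
  have hex : ∀ s : Cq G, ∃ x : V, s ∈ lev (mi G Y) l' j → x ∈ s.1 ∧ l x = j := by
    intro s
    by_cases hs : s ∈ lev (mi G Y) l' j
    · obtain ⟨x, hx, e⟩ := hr s hs.1
      exact ⟨x, fun _ => ⟨hx, by rw [← e]; exact hs.2⟩⟩
    · obtain ⟨x, _⟩ := s.2.1
      exact ⟨x, fun h => absurd h hs⟩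
  choose w hw using hex
  have hsP : ∀ x, x ∈ Y → l x = j → sg G x ∈ band (mi G Y) l' j := fun x hx e =>
    mi_band hr (sg_mi (lev_band ⟨hx, e⟩))
  have ind : ∀ s ∈ lev (mi G Y) l' j, ∀ x ∈ s.1, ∀ y ∈ s.1, l x = j → l y = j →
      g x + A (sg G x) s = g y + A (sg G y) s := by
    intro s hs x hx y hy ex ey
    by_cases hxy : x = y
    · rw [hxy]
    have hadj := adj_of_mem hx hy hxy
    have hxl : x ∈ lev Y l j := ⟨hs.1 x hx, ex⟩
    have hyl : y ∈ lev Y l j := ⟨hs.1 y hy, ey⟩
    have hE : EIn G (band Y l j) x y := ⟨hadj, lev_band hxl, lev_band hyl⟩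
    have e0 := hg x y ⟨hadj, hxl, hyl⟩
    rw [push, dif_pos hE] at e0
    have m1 := hsP x hxl.1 ex
    have m2 := hsP y hyl.1 ey
    have m3 : ed hadj ∈ band (mi G Y) l' j := mi_band hr (ed_mi hadj (lev_band hxl) (lev_band hyl))
    have m4 : s ∈ band (mi G Y) l' j := lev_band hs
    have e1 : A (sg G x) s + A (sg G y) s = A (sg G x) (ed hadj) + A (sg G y) (ed hadj) := by
      by_cases hse : s = ed hadj
      · rw [hse]
      have hlt : ed hadj < s := ed_lt hadj hx hy hse
      have q1 := coc hA (ein_lt (sg_lt_ed hadj) m1 m3) (ein_lt hlt m3 m4)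
        (ein_lt ((sg_lt_ed hadj).trans hlt) m1 m4)
      have q2 := coc hA (ein_lt (sg_lt_ed' hadj) m2 m3) (ein_lt hlt m3 m4)
        (ein_lt ((sg_lt_ed' hadj).trans hlt) m2 m4)
      rw [← q1, ← q2]
      linear_combination z2 (A (ed hadj) s)
    linear_combination e1 + e0 + z2 (g x) - z2 (A (sg G y) s) +
      (0 : ZMod 2) * z2 (g y)
  have low : ∀ s ∈ lev (mi G Y) l' j, ∀ t ∈ lev (mi G Y) l' j, s < t →
      A s t = (g (w s) + A (sg G (w s)) s) + (g (w t) + A (sg G (w t)) t) := by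
    intro s hs t ht hst
    obtain ⟨ws, es⟩ := hw s hs
    obtain ⟨wt, et⟩ := hw t ht
    have wst : w s ∈ t.1 := hst.1 ws
    rw [← ind t ht (w s) wst (w t) wt es et]
    have m0 := hsP (w s) (hs.1 _ ws) es
    have m1 : s ∈ band (mi G Y) l' j := lev_band hs
    have m2 : t ∈ band (mi G Y) l' j := lev_band ht
    by_cases hse : s = sg G (w s)
    · have e0 : A (sg G (w s)) s = 0 := by rw [← hse]; exact self0 hA s
      have e1 : A (sg G (w s)) t = A s t := by rw [← hse]
      rw [e0, e1]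
      linear_combination (-1 : ZMod 2) * z2 (g (w s))
    · have hlt := sg_lt ws hse
      have q := coc hA (ein_lt hlt m0 m1) (ein_lt hst m1 m2) (ein_lt (hlt.trans hst) m0 m2)
      rw [← q]
      linear_combination (-1 : ZMod 2) * z2 (g (w s)) - z2 (A (sg G (w s)) s)
  refine ⟨fun s => g (w s) + A (sg G (w s)) s, fun s t h => ?_⟩
  rcases h.1 with hst | hts
  · exact low s h.2.1 t h.2.2 hst
  · rw [sym' hA s t, low t h.2.2 s h.2.1 hts, add_comm]

end rk

theorem sd_rk {G : SimpleGraph V} {DD : Set (Set V)} {Y : Set V} {l : V → ℕ} {l' : Cq G → ℕ}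
    (hr : ∀ s ∈ mi G Y, ∃ x ∈ s.1, l' s = l x) {j r : ℕ}
    (h : Rk G DD (band Y l j) (lev Y l j) r) :
    Rk (sd G) ((mi G) '' DD) (band (mi G Y) l' j) (lev (mi G Y) l' j) r := by
  intro a ha
  obtain ⟨c, hc, ht⟩ := h (fun k => push G (band Y l j) (a k)) (fun k => push_mem hr (ha k))
  refine ⟨c, hc, ?_⟩
  have hA : (∑ k, c k • a k) ∈ Zh (sd G) ((mi G) '' DD) (band (mi G Y) l' j) :=
    Submodule.sum_mem _ fun k _ => Submodule.smul_mem _ _ (ha k)
  refine lift_triv hr hA.1 ?_
  obtain ⟨g, hg⟩ := ht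
  refine ⟨g, fun x y hxy => ?_⟩
  rw [← hg x y hxy]
  simp only [Finset.sum_apply, Pi.smul_apply, smul_eq_mul]
  by_cases hE : EIn G (band Y l j) x y
  · simp only [push, dif_pos hE, Finset.sum_apply, Pi.smul_apply, smul_eq_mul]
    rw [← Finset.sum_add_distrib]
    exact Finset.sum_congr rfl fun k _ => by ring
  · simp only [push, dif_neg hE, mul_zero, Finset.sum_const_zero]

/-- labels on the subdivision -/
theorem sd_ok {G : SimpleGraph V} {DD : Set (Set V)} {Y X0 X1 : Set V} {m r : ℕ} {l : V → ℕ}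
    {l' : Cq G → ℕ} (h : LabOK G DD Y X0 X1 m r l) (h0 : X0 ⊆ Y) (h1 : X1 ⊆ Y)
    (hr : ∀ s ∈ mi G Y, ∃ x ∈ s.1, l' s = l x) :
    LabOK (sd G) ((mi G) '' DD) (mi G Y) (mi G X0) (mi G X1) m r l' := by
  have key : ∀ (t : Cq G), t ∈ mi G Y → ∀ x ∈ t.1, ∀ y ∈ t.1, l x ≤ l y + 1 := by
    intro t ht x hx y hy
    by_cases hxy : x = y
    · rw [hxy]; exact Nat.le_succ _
    · exact h.lip x y ⟨adj_of_mem hx hy hxy, ht x hx, ht y hy⟩
  refine ⟨fun s t hst => ?_, fun s hs => ?_, fun s hs => ?_, fun s hs => ?_,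
    fun j hj hj' => sd_rk hr (h.rk j hj hj')⟩
  · obtain ⟨x, hx, ex⟩ := hr s hst.2.1
    obtain ⟨y, hy, ey⟩ := hr t hst.2.2
    rw [ex, ey]
    rcases hst.1 with hlt | hlt
    · exact key t hst.2.2 x (hlt.1 hx) y hy
    · exact key s hst.2.1 x hx y (hlt.1 hy)
  · obtain ⟨x, hx, ex⟩ := hr s hs
    rw [ex]; exact h.top x (hs x hx)
  · obtain ⟨x, hx, ex⟩ := hr s (fun z hz => h0 (hs z hz))
    rw [ex]; exact h.x0 x (hs x hx)
  · obtain ⟨x, hx, ex⟩ := hr s (fun z hz => h1 (hs z hz))
    rw [ex]; exact h.x1 x (hs x hx)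

theorem sd_wt [Finite V] {G : SimpleGraph V} {Y E : Set V} {l : V → ℕ} {l' : Cq G → ℕ}
    (hE : E ⊆ Y) (h3 : ∀ x y z, EIn G E x y → EIn G E y z → EIn G E x z → False)
    (hr : ∀ s ∈ mi G Y, ∃ x ∈ s.1, l' s = l x) :
    wt (sd G) (mi G E) l' ≤ wt G E l := by
  classical
  have hrE : ∀ s ∈ mi G E, ∃ x ∈ s.1, l' s = l x := fun s hs => hr s fun x hx => hE (hs x hx)
  -- the shape of the edges of the subdivision inside `E`
  have shape : ∀ s t : Cq G, s < t → t ∈ mi G E → ∃ (x y : V) (h : G.Adj x y), x ∈ E ∧ y ∈ E ∧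
      s = sg G x ∧ t = ed h := by
    intro s t hst ht
    obtain ⟨x, hx⟩ := s.2.1
    obtain ⟨y, hy, hys⟩ := Finset.exists_of_ssubset hst
    have hxt : x ∈ t.1 := hst.1 hx
    have hxy : x ≠ y := fun e => hys (e ▸ hx)
    have hadj := adj_of_mem hxt hy hxy
    have all : ∀ z ∈ t.1, z = x ∨ z = y := by
      intro z hz
      by_contra hc
      push Not at hc
      exact h3 x y z ⟨hadj, ht x hxt, ht y hy⟩
        ⟨adj_of_mem hy hz hc.2.symm, ht y hy, ht z hz⟩
        ⟨adj_of_mem hxt hz hc.1.symm, ht x hxt, ht z hz⟩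
    refine ⟨x, y, hadj, ht x hxt, ht y hy, ?_, ?_⟩
    · refine Subtype.ext (Finset.ext fun z => ?_)
      constructor
      · intro hz
        rcases all z (hst.1 hz) with rfl | rfl
        · simp [sg]
        · exact absurd hz hys
      · intro hz
        have : z = x := by simpa [sg] using hz
        rw [this]; exact hx
    · refine Subtype.ext (Finset.ext fun z => ?_)
      constructor
      · intro hz
        rcases all z hz with rfl | rfl
        · simp [ed]
        · simp [ed]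
      · intro hz
        have : z = x ∨ z = y := by simpa [ed] using hz
        rcases this with rfl | rfl
        · exact hxt
        · exact hy
  have hsg : ∀ x ∈ E, l' (sg G x) = l x := by
    intro x hx
    obtain ⟨z, hz, e⟩ := hrE (sg G x) (sg_mi hx)
    have : z = x := by simpa [sg] using hz
    rw [e, this]
  have hed : ∀ x y (h : G.Adj x y), x ∈ E → y ∈ E → l' (ed h) = l x ∨ l' (ed h) = l y := by
    intro x y h hx hy
    obtain ⟨z, hz, e⟩ := hrE (ed h) (ed_mi h hx hy)
    have : z = x ∨ z = y := by simpa [ed] using hz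
    rcases this with rfl | rfl
    · exact Or.inl e
    · exact Or.inr e
  let F : V × V → Cq G × Cq G := fun p =>
    if h : G.Adj p.1 p.2 then
      (if l' (ed h) = l p.2 then (sg G p.1, ed h) else (ed h, sg G p.2))
    else (sg G p.1, sg G p.1)
  unfold wt
  refine le_trans (Set.ncard_le_ncard (t := F '' {p : V × V | EIn G E p.1 p.2 ∧ l p.1 ≠ l p.2})
    ?_ (Set.toFinite _)) (Set.ncard_image_le (Set.toFinite _))
  rintro ⟨s, t⟩ ⟨⟨hst, hs, ht⟩, hne⟩
  dsimp only at hst hs ht hne
  rcases hst with hlt | hlt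
  · obtain ⟨x, y, h, hx, hy, rfl, rfl⟩ := shape s t hlt ht
    have e1 := hsg x hx
    have e2 : l' (ed h) = l y := by
      rcases hed x y h hx hy with e | e
      · exact absurd (by rw [e1, e]) hne
      · exact e
    refine ⟨(x, y), ⟨⟨h, hx, hy⟩, ?_⟩, ?_⟩
    · show l x ≠ l y
      rw [← e1, ← e2]; exact hne
    · show F (x, y) = _
      simp only [F]
      rw [dif_pos h, if_pos e2]
  · obtain ⟨y, x, h, hy, hx, rfl, rfl⟩ := shape t s hlt hs
    have e1 := hsg y hy
    have e2 : l' (ed h) = l x := by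
      rcases hed y x h hy hx with e | e
      · exact absurd (by rw [e1, e]) hne
      · exact e
    have hxy : l x ≠ l y := by
      rw [← e1, ← e2]; exact hne
    refine ⟨(x, y), ⟨⟨h.symm, hx, hy⟩, hxy⟩, ?_⟩
    show F (x, y) = _
    simp only [F]
    rw [dif_pos h.symm, if_neg, ed_symm h]
    rw [← ed_symm h, e2]
    exact hxy

/-- the rule: `i` if the simplex has a vertex with label `i`, otherwise the smallest label -/
def rule (G : SimpleGraph V) (l : V → ℕ) (i : ℕ) (s : Cq G) : ℕ :=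
  if ∃ x ∈ s.1, l x = i then i else sInf {j | ∃ x ∈ s.1, l x = j}

theorem rule_spec (G : SimpleGraph V) (l : V → ℕ) (i : ℕ) (s : Cq G) :
    ∃ x ∈ s.1, rule G l i s = l x := by
  unfold rule
  split_ifs with h
  · obtain ⟨x, hx, e⟩ := h
    exact ⟨x, hx, e.symm⟩
  · obtain ⟨x0, hx0⟩ := s.2.1
    have hne : {j | ∃ x ∈ s.1, l x = j}.Nonempty := ⟨l x0, x0, hx0, rfl⟩
    obtain ⟨x, hx, e⟩ := Nat.sInf_mem hne
    exact ⟨x, hx, e.symm⟩

end MOT
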