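import Pool.Agent.MOT.TfD
import Pool.Agent.MOT.TmSd

/-!
# MOT: THIN, the line of a finger (helper23)

`finger_line`, field by field (labels `rule G l i`, carriers `cs c`, `J = fJ G I u w`, `vx u`, `vx w`):
 `conn`: adjacent `x, y ∈ I` give the path `{x}, {x,y}, {y}`; every `s ∈ J` contains some `x ∈ I`, `{x} ≤ s`.
 `je`: `cs_eq`; `s` meets `I`, so the rule gives `i`.
 `hu`, `hw`: `cs c {u} = c u`, `rule {u} = l u` (the infimum of one number; `i' ≠ i`).
 `nuw`: singletons are not comparable.  `au`: `{x, u}`, `x ∈ I` adjacent to `u`.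
 `nb`: `t` adjacent to `s ∈ J`, `cs c t ⊆ e`.  `s, t` are cliques in `cel c e`, at most 2 vertices (`CY.dim`).
  `t < s`: `t = {y}`, `y ∈ I` (then `t ∈ J`) or `y = u` or `y = w`.  `s < t`: `s = {x}`, `x ∈ I`, `t = {x, y}`, by
  `Finger.nb` `t ∈ J`.
 `nb2`: `(cs c t).ncard = 3`: not `t < s` (`cs c t ⊆ cs c s = e`), so `s < t`, `t` meets `I`, `rule t = i`.
 `cf`: for adjacent `x, y` with labels `i'` in `cel c f` use `{x}, {x,y}, {y}`, all with rule label `i'`.
 `st`: `finger_strip`.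
-/

open Classical

noncomputable section

namespace MOT

variable {V0 V : Type} {G0 : SimpleGraph V0} {G : SimpleGraph V} {c : V → Set V0}
variable {l : V → ℕ} {e f : Set V0} {i i' : ℕ} {I : Set V} {u w : V}

private theorem fE_sub (L : Finger G0 G c l e f i i' I u w) {s : Cq G}
    (hs : s ∈ fJ G I u w) : ∀ x ∈ s.1, c x ⊆ e := by
  intro x hx
  rcases hs.1 x hx with h1 | rfl | rfl
  · exact (L.ie x h1).1.le
  · exact L.hu.1
  · exact L.hw.1

private theorem fE_vx {x : V} (hx : x ∈ I) : vx G x ∈ fJ G I u w := by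
  refine ⟨fun y hy => ?_, x, by simp [vx], hx⟩
  rw [show y = x by simpa [vx] using hy]
  exact Or.inl hx

private theorem vx_lt_eg {a b : V} (hab : G.Adj a b) : vx G a < eg G hab ∧ vx G b < eg G hab := by
  constructor
  · rw [Cq.lt_iff]
    refine ⟨by simp [vx, eg], fun hh => ?_⟩
    have : b ∈ (vx G a).1 := hh (by simp [eg])
    exact hab.ne (by simpa [vx] using this : b = a).symm
  · rw [Cq.lt_iff]
    refine ⟨by simp [vx, eg], fun hh => ?_⟩
    have : a ∈ (vx G b).1 := hh (by simp [eg])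
    exact hab.ne (by simpa [vx] using this : a = b)

private theorem fE_conn (L : Finger G0 G c l e f i i' I u w) :
    Conn (sd G) (fJ G I u w) := by
  rw [Conn_iff]
  obtain ⟨x0, hx0⟩ := L.conn.1
  refine ⟨⟨vx G x0, fE_vx hx0⟩, fun φ hφ s hs t ht => ?_⟩
  have h1 : ∀ x ∈ I, ∀ y ∈ I, φ (vx G x) = φ (vx G y) := by
    intro x hx y hy
    refine L.conn.const (f := fun z => φ (vx G z)) (fun a b hab => ?_) hx hy
    have hE : eg G hab.1 ∈ fJ G I u w := by
      refine ⟨fun z hz => ?_, a, by simp [eg], hab.2.1⟩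
      have : z = a ∨ z = b := by simpa [eg] using hz
      rcases this with rfl | rfl
      · exact Or.inl hab.2.1
      · exact Or.inl hab.2.2
    have e1 := hφ (vx G a) (eg G hab.1) ⟨Or.inl (vx_lt_eg hab.1).1, fE_vx hab.2.1, hE⟩
    have e2 := hφ (vx G b) (eg G hab.1) ⟨Or.inl (vx_lt_eg hab.1).2, fE_vx hab.2.2, hE⟩
    exact e1.trans e2.symm
  have h2 : ∀ s ∈ fJ G I u w, ∃ x ∈ I, φ s = φ (vx G x) := by
    intro s hs
    obtain ⟨x, hx, hxI⟩ := hs.2
    refine ⟨x, hxI, ?_⟩
    by_cases hsx : vx G x = s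
    · rw [hsx]
    · have hlt : vx G x < s := by
        refine lt_of_le_of_ne ?_ hsx
        rw [Cq.le_iff]
        simpa [vx] using hx
      exact (hφ (vx G x) s ⟨Or.inl hlt, fE_vx hxI, hs⟩).symm
  obtain ⟨x, hx, ex⟩ := h2 s hs
  obtain ⟨y, hy, ey⟩ := h2 t ht
  rw [ex, ey]
  exact h1 x hx y hy

private theorem fE_au {x y : V} (hx : x ∈ I) (hy : y = u ∨ y = w) (hxy : G.Adj x y) :
    ∃ s ∈ fJ G I u w, (sd G).Adj s (vx G y) := by
  refine ⟨eg G hxy, ⟨fun z hz => ?_, x, by simp [eg], hx⟩, Or.inr (vx_lt_eg hxy).2⟩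
  have : z = x ∨ z = y := by simpa [eg] using hz
  rcases this with rfl | rfl
  · exact Or.inl hx
  · exact Or.inr hy

private theorem rule_const {s : Cq G} {j : ℕ} (hs : ∀ x ∈ s.1, l x = j) : rule G l i s = j := by
  obtain ⟨x, hx, e⟩ := rule_spec G l i s
  rw [e]; exact hs x hx

private theorem rule_i {s : Cq G} (hs : ∃ x ∈ s.1, l x = i) : rule G l i s = i := if_pos hs

theorem finger_line [Finite V0] (h : CY G0 G c) (h' : CY G0 (sd G) (cs (G := G) c))
    (L : Finger G0 G c l e f i i' I u w)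
    (hup : ∀ g : Set V0, G0.IsClique g → ∀ s0 : Cq G, (∀ x ∈ s0.1, c x ⊂ g) →
      Conn (sd G) {r | s0 < r ∧ cs c r = g} ∧ HZ (sd G) {r | s0 < r ∧ cs c r = g}) :
    Line G0 (sd G) (cs c) (rule G l i) e f i i' (fJ G I u w) (vx G u) (vx G w) := by
  have hsI : ∀ s ∈ fJ G I u w, ∃ x ∈ s.1, x ∈ I ∧ c x = e ∧ l x = i := by
    intro s hs
    obtain ⟨x, hx, hxI⟩ := hs.2
    exact ⟨x, hx, hxI, L.ie x hxI⟩
  have hce : ∀ s ∈ fJ G I u w, cs c s = e := by
    intro s hs
    obtain ⟨x, hx, _, hxe, _⟩ := hsI s hs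
    exact (cs_eq h).2 ⟨fE_sub L hs, x, hx, hxe⟩
  have hvx : ∀ x : V, ∀ y ∈ (vx G x).1, y = x := fun x y hy => by simpa [vx] using hy
  refine ⟨L.he, L.he2, L.hf, L.hf3, L.hef, L.ii, fE_conn L, ?_, ?_, ?_, ?_, ?_, ?_, ?_, ?_, ?_, ?_,
    ?_⟩
  · intro s hs
    obtain ⟨x, hx, _, _, hxl⟩ := hsI s hs
    exact ⟨hce s hs, rule_i ⟨x, hx, hxl⟩⟩
  · refine ⟨cs_sub.2 fun x hx => ?_, rule_const fun x hx => ?_⟩
    · rw [hvx u x hx]; exact L.hu.1
    · rw [hvx u x hx]; exact L.hu.2
  · refine ⟨cs_sub.2 fun x hx => ?_, rule_const fun x hx => ?_⟩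
    · rw [hvx w x hx]; exact L.hw.1
    · rw [hvx w x hx]; exact L.hw.2
  · intro hh
    have : u ∈ (vx G w).1 := by rw [← hh]; simp [vx]
    exact L.huw (hvx w u this)
  · rintro (hh | hh)
    · have : u ∈ (vx G w).1 := (Cq.le_iff.1 hh.le) (by simp [vx])
      exact L.huw (hvx w u this)
    · have : w ∈ (vx G u).1 := (Cq.le_iff.1 hh.le) (by simp [vx])
      exact L.huw (hvx u w this).symm
  · obtain ⟨x, hx, hxu⟩ := L.au
    exact fE_au hx (Or.inl rfl) hxu
  · obtain ⟨x, hx, hxw⟩ := L.aw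
    exact fE_au hx (Or.inr rfl) hxw
  · intro s hs t hst hte
    rcases hst with hst | hst
    · -- s < t
      obtain ⟨x, hx, hxI, _, _⟩ := hsI s hs
      have hxt : x ∈ t.1 := (Cq.le_iff.1 hst.le) hx
      left
      refine ⟨fun y hy => ?_, x, hxt, hxI⟩
      by_cases hxy : x = y
      · rw [← hxy]; exact Or.inl hxI
      · exact L.nb x hxI y (t.2.2 (Finset.mem_coe.2 hxt) (Finset.mem_coe.2 hy) hxy)
          (cs_sub.1 hte y hy)
    · -- t < s
      have hts : t.1 ⊂ s.1 := Cq.lt_iff.1 hst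
      have hsc : s.1.card ≤ 2 := by
        have := h.dim e L.he s.1 s.2.2 (fE_sub L hs)
        rwa [L.he2] at this
      have htc : t.1.card = 1 := by
        have h1 := Finset.card_lt_card hts
        have h2 := Finset.card_pos.2 t.2.1
        omega
      obtain ⟨y, hy⟩ := Finset.card_eq_one.1 htc
      have hty : t = vx G y := Subtype.ext hy
      have hys : y ∈ s.1 := hts.1 (by rw [hy]; simp)
      rcases hs.1 y hys with hyI | rfl | rfl
      · left; rw [hty]; exact fE_vx hyI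
      · right; left; exact hty
      · right; right; exact hty
  · intro s hs t hst ht3
    rcases hst with hst | hst
    · obtain ⟨x, hx, _, _, hxl⟩ := hsI s hs
      exact rule_i ⟨x, (Cq.le_iff.1 hst.le) hx, hxl⟩
    · exfalso
      have h1 : cs c t ⊆ e := (cs_mono hst.le).trans (hce s hs).le
      have h2 := Set.ncard_le_ncard h1 (Set.toFinite _)
      rw [ht3, L.he2] at h2
      omega
  · intro g hg hg3 heg
    exact finger_strip h h' L hg hg3 heg (hup g hg)
  · have hii : i' ≠ i := by rcases L.ii with h1 | h1 <;> omega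
    have hmem : ∀ x, c x ⊆ f → l x = i' → vx G x ∈ {s | cs c s ⊆ f ∧ rule G l i s = i'} := by
      intro x hxf hxl
      refine ⟨cs_sub.2 fun y hy => ?_, rule_const fun y hy => ?_⟩
      · rw [hvx x y hy]; exact hxf
      · rw [hvx x y hy]; exact hxl
    have key : ∀ x, Relation.ReflTransGen (EIn G {x | c x ⊆ f ∧ l x = i'}) w x →
        Relation.ReflTransGen (EIn (sd G) {s | cs c s ⊆ f ∧ rule G l i s = i'})
          (vx G w) (vx G x) := by
      intro x hx
      induction hx with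
      | refl => exact Relation.ReflTransGen.refl
      | @tail a b _ hab ih =>
        have hE : eg G hab.1 ∈ {s | cs c s ⊆ f ∧ rule G l i s = i'} := by
          have h3 : ∀ z ∈ (eg G hab.1).1, z = a ∨ z = b := fun z hz => by simpa [eg] using hz
          refine ⟨cs_sub.2 fun z hz => ?_, rule_const fun z hz => ?_⟩
          · rcases h3 z hz with rfl | rfl
            · exact hab.2.1.1
            · exact hab.2.2.1
          · rcases h3 z hz with rfl | rfl
            · exact hab.2.1.2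
            · exact hab.2.2.2
        have ha := hmem a hab.2.1.1 hab.2.1.2
        have hb := hmem b hab.2.2.1 hab.2.2.2
        exact (ih.tail ⟨Or.inl (vx_lt_eg hab.1).1, ha, hE⟩).tail
          ⟨Or.inr (vx_lt_eg hab.1).2, hE, hb⟩
    exact key u L.cf

end MOT
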