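import Pool.Agent.MOT.TfE
import Pool.Agent.MOT.TfC

/-!
# MOT: THIN, finger move (helper23)

`finger_ok`: `rule_spec`, `sd_ok`, `sd_wt` (no triangles in `sk c 2`: three pairwise adjacent vertices lie in one
cell with at most 2 coarse vertices, `CY.dim`) for the labels `rule G l i` on the subdivision; rewrite with
`mi_sk`, `mi_bdd`, `mi_cel`, `mi_inter`; then `line_ok`, `line_wt`.
-/

open Classical

noncomputable section

namespace MOT

variable {V0 V : Type} {G0 : SimpleGraph V0} {G : SimpleGraph V} {c : V → Set V0}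
variable {l : V → ℕ} {e f : Set V0} {i i' : ℕ} {I : Set V} {u w : V}

private theorem tfg_tri (h : CY G0 G c) (x y z : V) (e1 : EIn G (sk c 2) x y)
    (e2 : EIn G (sk c 2) y z) (e3 : EIn G (sk c 2) x z) : False := by
  have hcl : G.IsClique (({x, y, z} : Finset V) : Set V) := by
    intro a ha b hb hab
    simp only [Finset.coe_insert, Finset.coe_singleton, Set.mem_insert_iff,
      Set.mem_singleton_iff] at ha hb
    rcases ha with rfl | rfl | rfl <;> rcases hb with rfl | rfl | rfl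
    · exact absurd rfl hab
    · exact e1.1
    · exact e3.1
    · exact e1.1.symm
    · exact absurd rfl hab
    · exact e2.1
    · exact e3.1.symm
    · exact e2.1.symm
    · exact absurd rfl hab
  obtain ⟨p, hp, hm⟩ := cl_max h ⟨x, Finset.mem_insert_self _ _⟩ hcl
  have h1 := h.dim (c p) (h.clq p).2 {x, y, z} hcl hm
  have h2 : ({x, y, z} : Finset V).card = 3 := by
    rw [Finset.card_eq_three]
    exact ⟨x, y, z, e1.1.ne, e3.1.ne, e2.1.ne, rfl⟩
  have h3 : (c p).ncard ≤ 2 := by
    simp only [Finset.mem_insert, Finset.mem_singleton] at hp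
    rcases hp with rfl | rfl | rfl
    · exact e1.2.1
    · exact e1.2.2
    · exact e2.2.2
  omega

theorem finger_ok [Finite V0] [Finite V] (h0 : IsSph3 G0) (h : CY G0 G c)
    (h' : CY G0 (sd G) (cs (G := G) c)) (L : Finger G0 G c l e f i i' I u w)
    (hup : ∀ g : Set V0, G0.IsClique g → ∀ s0 : Cq G, (∀ x ∈ s0.1, c x ⊂ g) →
      Conn (sd G) {r | s0 < r ∧ cs c r = g} ∧ HZ (sd G) {r | s0 < r ∧ cs c r = g})
    {A0 A1 : Set V0} {m r : ℕ}
    (hl : LabOK G (bdd G0 c) (sk c 3) (sk c 3 ∩ cel c A0) (sk c 3 ∩ cel c A1) m r l) :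
    ∃ l' : Cq G → ℕ, LabOK (sd G) (bdd G0 (cs (G := G) c)) (sk (cs (G := G) c) 3)
        (sk (cs (G := G) c) 3 ∩ cel (cs (G := G) c) A0)
        (sk (cs (G := G) c) 3 ∩ cel (cs (G := G) c) A1) m r l' ∧
      wt (sd G) (sk (cs (G := G) c) 2) l' < wt G (sk c 2) l := by
  have hr : ∀ s ∈ mi G (sk c 3), ∃ x ∈ s.1, rule G l i s = l x := fun s _ => rule_spec G l i s
  have h1 := sd_ok hl Set.inter_subset_left Set.inter_subset_left hr
  rw [mi_inter, mi_inter, mi_bdd h, mi_sk h, mi_cel, mi_cel] at h1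
  have L' := finger_line h h' L hup
  have hE : sk c 2 ⊆ sk c 3 := by
    intro x hx
    have hx' : (c x).ncard ≤ 2 := hx
    exact hx'.trans (by norm_num)
  have h4 := sd_wt hE (tfg_tri h) hr
  rw [mi_sk h] at h4
  exact ⟨newl (rule G l i) (fJ G I u w) i', line_ok h0 h' L' h1,
    lt_of_lt_of_le (line_wt h' L') h4⟩

end MOT
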