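import Pool.Agent.MOT.TfB
import Pool.Agent.MOT.TfA

/-!
# MOT: THIN, extension of hat cocycles over a line (helper23)

`line_ext`: `ext_core` with `L = Lk G0 e`.  Hat condition for `B = bdc c D`: if `e ⊆ D`, use `k'` (a vertex of
`S v ∩ B` has carrier `insert v e ⊂ D`, so `v ∈ D`); otherwise `J ∩ B = ∅`, and `a'` agrees with `a` on `P ∩ B`.
-/

open Classical

noncomputable section

namespace MOT

variable {V0 V : Type} {G0 : SimpleGraph V0} {G : SimpleGraph V} {c : V → Set V0}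
variable {l : V → ℕ} {e f : Set V0} {i i' : ℕ} {J : Set V} {u w : V}

theorem line_ext [Finite V0] [Finite V] (h0 : IsSph3 G0) (h : CY G0 G c)
    (L : Line G0 G c l e f i i' J u w) {P : Set V} (hP : P ⊆ sk c 3) (hJP : J ⊆ P)
    (hPi : ∀ x ∈ P, l x ≠ i') (hPs : ∀ x ∈ J, ∀ y, G.Adj x y → (c y).ncard = 3 → y ∈ P)
    {a : V → V → ZMod 2} (ha : a ∈ Zh G (bdd G0 c) (P \ J)) :
    ∃ a' ∈ Zh G (bdd G0 c) P, ∀ x y, EIn G (P \ J) x y → a' x y = a x y := by
  obtain ⟨p, hp, hk⟩ := line_choice h0 h L hP hPi hPs ha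
  have hcard : ∀ v ∈ Lk G0 e, (insert v e).ncard = 3 := by
    intro v hv
    have hve : v ∉ e := fun hh => G0.loopless.irrefl v (hv v hh)
    rw [Set.ncard_insert_of_notMem hve (Set.toFinite e), L.he2]
  have hS : ∀ v ∈ Lk G0 e, strip G c J (insert v e) ⊆ P \ J := by
    rintro v hv y ⟨hy, x, hx, hxy⟩
    refine ⟨hPs x hx y hxy (by rw [hy]; exact hcard v hv), fun hyJ => ?_⟩
    have h1 := (L.je y hyJ).1
    rw [hy] at h1
    have h2 := hcard v hv
    rw [h1, L.he2] at h2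
    omega
  obtain ⟨a', ha', haa, ht⟩ := ext_core (G := G) hJP (Lk G0 e)
    (fun v => strip G c J (insert v e)) hS
    (fun v hv v' hv' hne => line_sep h L hv hv' hne)
    (by
      intro x hx y hy hxy
      rcases line_nb h L hx (hP hy) hxy with h1 | h1 | h1 | h1
      · exact Or.inl h1
      · exact absurd L.hu.2 (by rw [← h1]; exact hPi y hy)
      · exact absurd L.hw.2 (by rw [← h1]; exact hPi y hy)
      · exact Or.inr h1)
    ha.1 p (fun v hv x y exy => hp v hv x y exy)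
  refine ⟨a', ⟨ha', ?_⟩, haa⟩
  rintro B ⟨D, hD, hD4, rfl⟩
  by_cases heD : e ⊆ D
  · obtain ⟨k, hk1, hk2⟩ := hk D hD hD4 heD
    refine ht (bdc c D) k hk1 ?_
    intro v hv y hy hyB
    refine hk2 v hv ?_ y hy
    have h1 : c y ⊂ D := hyB
    rw [hy.1] at h1
    exact h1.1 (Set.mem_insert v e)
  · have h1 := ha.2 (bdc c D) ⟨D, hD, hD4, rfl⟩
    have h2 : P ∩ bdc c D ⊆ (P \ J) ∩ bdc c D := by
      rintro x ⟨hx, hxB⟩
      refine ⟨⟨hx, fun hxJ => heD ?_⟩, hxB⟩
      have h3 : c x ⊂ D := hxB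
      rw [(L.je x hxJ).1] at h3
      exact h3.1
    refine (h1.mono h2).congr fun x y exy => ?_
    exact (haa x y ⟨exy.1, (h2 exy.2.1).1, (h2 exy.2.2).1⟩).symm

end MOT
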