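import Pool.Agent.MOT.TgDef
import Pool.Agent.MOT.Cpt

/-!
# MOT: THIN, elementary properties of pieces (helper81)

`pce G X l x = comp G (lev X l (l x)) x` is nonempty iff `x ∈ X`; two pieces are equal or disjoint.
All statements are short: `comp` is `{y | ReflTransGen (EIn G A) x y ∧ y ∈ A}`; use `rtg_symm`, `rtg_mono`,
`rtg_mem` of Bas and `comp_sub`, `comp_Conn`, `comp_self` of Cpt.
-/

open Classical

noncomputable section

namespace MOT

variable {V : Type} {G : SimpleGraph V} {X X' : Set V} {l : V → ℕ} {x y z w : V}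

theorem pce_sub : pce G X l x ⊆ X := by
  exact fun y hy => hy.2.1

theorem pce_lab (h : y ∈ pce G X l x) : l y = l x := by
  exact h.2.2

theorem pce_self (hx : x ∈ X) : x ∈ pce G X l x := by
  exact ⟨Relation.ReflTransGen.refl, hx, rfl⟩

theorem pce_mem_left (h : y ∈ pce G X l x) : x ∈ X := by
  exact (rtg_mem h.2 (rtg_symm h.1)).1

theorem pce_eq (h : y ∈ pce G X l x) : pce G X l y = pce G X l x := by
  have hl : l y = l x := h.2.2
  unfold pce
  rw [hl]
  ext z
  constructor
  · rintro ⟨h1, h2⟩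
    exact ⟨h.1.trans h1, h2⟩
  · rintro ⟨h1, h2⟩
    exact ⟨(rtg_symm h.1).trans h1, h2⟩

theorem pce_symm (h : y ∈ pce G X l x) : x ∈ pce G X l y := by
  rw [pce_eq h]
  exact pce_self (pce_mem_left h)

theorem pce_trans (h : y ∈ pce G X l x) (h' : z ∈ pce G X l y) : z ∈ pce G X l x := by
  rw [← pce_eq h]
  exact h'

theorem pce_adj (h : y ∈ pce G X l x) (hz : z ∈ X) (hl : l z = l y) (e : G.Adj y z) :
    z ∈ pce G X l x := by
  have h1 : l z = l x := hl.trans h.2.2
  exact ⟨h.1.tail ⟨e, h.2, hz, h1⟩, hz, h1⟩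

theorem pce_Conn (hx : x ∈ X) : Conn G (pce G X l x) := by
  exact comp_Conn ⟨hx, rfl⟩

/-- pieces are monotone in `X` -/
theorem pce_mono (h : X ⊆ X') : pce G X l x ⊆ pce G X' l x := by
  have h1 : lev X l (l x) ⊆ lev X' l (l x) := fun z hz => ⟨h hz.1, hz.2⟩
  exact fun y hy => ⟨rtg_mono h1 hy.1, h1 hy.2⟩

/-- a connected subset of `X` with constant label lies in one piece -/
theorem pce_of_conn {B : Set V} (hB : Conn G B) (hs : B ⊆ X) {a : ℕ} (ha : ∀ z ∈ B, l z = a)
    (hx : x ∈ B) (hy : y ∈ B) : y ∈ pce G X l x := by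
  have hsub : B ⊆ lev X l (l x) := fun z hz => ⟨hs hz, (ha z hz).trans (ha x hx).symm⟩
  exact ⟨rtg_mono hsub (hB.2 x hx y hy), hsub hy⟩

theorem NbP.symm (h : NbP G X l x y) : NbP G X l y x := by
  obtain ⟨hne, x', hx', y', hy', e⟩ := h
  exact ⟨hne.symm, y', hy', x', hx', e.symm⟩

theorem NbP.left (h : NbP G X l x y) : x ∈ X := by
  obtain ⟨_, x', hx', _⟩ := h
  exact pce_mem_left hx'

theorem NbP.right (h : NbP G X l x y) : y ∈ X := by
  exact h.symm.left

theorem NbP.congr (h : NbP G X l x y) (hz : z ∈ pce G X l x) (hw : w ∈ pce G X l y) :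
    NbP G X l z w := by
  obtain ⟨hne, x', hx', y', hy', e⟩ := h
  refine ⟨?_, x', ?_, y', ?_, e⟩
  · rw [pce_lab hz, pce_lab hw]
    exact hne
  · rw [pce_eq hz]
    exact hx'
  · rw [pce_eq hw]
    exact hy'

/-- adjacent vertices with different labels -/
theorem nbP_of_adj (hx : x ∈ X) (hy : y ∈ X) (e : G.Adj x y) (hl : l x ≠ l y) : NbP G X l x y := by
  exact ⟨hl, x, pce_self hx, y, pce_self hy, e⟩

/-- labels of neighbour pieces differ by one -/
theorem NbP.lip (h : NbP G X l x y) (hl : ∀ u v, EIn G X u v → l u ≤ l v + 1) :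
    l y = l x + 1 ∨ l x = l y + 1 := by
  obtain ⟨hne, x', hx', y', hy', e⟩ := h
  have h1 := hl x' y' ⟨e, pce_sub hx', pce_sub hy'⟩
  have h2 := hl y' x' ⟨e.symm, pce_sub hy', pce_sub hx'⟩
  have h3 := pce_lab hx'
  have h4 := pce_lab hy'
  omega

theorem NbP.mono (hX : X ⊆ X') (h : NbP G X l x y) : NbP G X' l x y := by
  obtain ⟨hne, x', hx', y', hy', e⟩ := h
  exact ⟨hne, x', pce_mono hX hx', y', pce_mono hX hy', e⟩

/-- a subset of a cell with closed pieces: the piece of `x` in `X` when `X` is closed under adjacency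
inside `X'` for the vertices of the piece -/
theorem pce_of_closed (hX : X ⊆ X') (hx : x ∈ X)
    (hc : ∀ u ∈ pce G X l x, ∀ v ∈ X', G.Adj u v → v ∈ X) : pce G X' l x = pce G X l x := by
  refine Set.Subset.antisymm ?_ (pce_mono hX)
  have key : ∀ y, Relation.ReflTransGen (EIn G (lev X' l (l x))) x y → y ∈ pce G X l x := by
    intro y hy
    induction hy with
    | refl => exact pce_self hx
    | tail _ e ih =>
      exact pce_adj ih (hc _ ih _ e.2.2.1 e.1) (e.2.2.2.trans (pce_lab ih).symm) e.1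
  exact fun y hy => key y hy.1

end MOT
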