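import Pool.Agent.MOT.Tc

/-!
# MOT: THIN, pieces, fingers, good levels: definitions (helper81)

`X` is a set of vertices (mostly a closed coarse cell `cel c t`), `l` a labelling.  The pieces of `X` are
the components of the level sets `lev X l a`.
-/

open Classical

noncomputable section

namespace MOT

variable {V0 V : Type}

/-- the piece of `x` in `X`: its component in the level set of its label -/
def pce (G : SimpleGraph V) (X : Set V) (l : V → ℕ) (x : V) : Set V :=
  comp G (lev X l (l x)) x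

/-- the pieces of `x` and `y` in `X` have different labels and are adjacent -/
def NbP (G : SimpleGraph V) (X : Set V) (l : V → ℕ) (x y : V) : Prop :=
  l x ≠ l y ∧ ∃ x' ∈ pce G X l x, ∃ y' ∈ pce G X l y, G.Adj x' y'

/-- the piece of `x` has at most one neighbour piece -/
def Amo (G : SimpleGraph V) (X : Set V) (l : V → ℕ) (x : V) : Prop :=
  ∀ y z, NbP G X l x y → NbP G X l x z → z ∈ pce G X l y

/-- the piece of `x` has exactly two neighbour pieces -/
def Two (G : SimpleGraph V) (X : Set V) (l : V → ℕ) (x : V) : Prop :=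
  ∃ y z, NbP G X l x y ∧ NbP G X l x z ∧ z ∉ pce G X l y ∧
    ∀ w, NbP G X l x w → w ∈ pce G X l y ∨ w ∈ pce G X l z

/-- the piece of `x` has exactly one neighbour piece with label `b` -/
def One (G : SimpleGraph V) (X : Set V) (l : V → ℕ) (x : V) (b : ℕ) : Prop :=
  ∃ y, l y = b ∧ NbP G X l x y ∧ ∀ w, NbP G X l x w → l w = b → w ∈ pce G X l y

/-- A finger: an interval `I` of the open coarse edge `e` with constant label `b`, its two outer
neighbours `y`, `y'` on the closed edge have label `a = b ± 1` and lie in the same piece of the closed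
triangle `f` containing `e`. -/
structure Fing (G0 : SimpleGraph V0) (G : SimpleGraph V) (c : V → Set V0) (l : V → ℕ) (a b : ℕ)
    (e f : Set V0) (I : Set V) (y y' : V) : Prop where
  ec : G0.IsClique e
  e2 : e.ncard = 2
  fc : G0.IsClique f
  f3 : f.ncard = 3
  ef : e ⊆ f
  ic : Conn G I
  io : I ⊆ opc c e
  ib : ∀ x ∈ I, l x = b
  ne : y ≠ y'
  ye : y ∈ cel c e
  ye' : y' ∈ cel c e
  ya : ∃ x ∈ I, G.Adj x y
  ya' : ∃ x ∈ I, G.Adj x y'
  nb : ∀ x ∈ I, ∀ z ∈ cel c e, G.Adj x z → z ∈ I ∨ z = y ∨ z = y'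
  la : l y = a
  la' : l y' = a
  ab : a = b + 1 ∨ b = a + 1
  jn : y' ∈ pce G (cel c f) l y

/-- no fingers -/
def NoF (G0 : SimpleGraph V0) (G : SimpleGraph V) (c : V → Set V0) (l : V → ℕ) : Prop :=
  ∀ a b e f I y y', ¬ Fing G0 G c l a b e f I y y'

/-- enumeration of a path -/
structure Pth (G : SimpleGraph V) (X : Set V) (n : ℕ) (p : ℕ → V) : Prop where
  mem : ∀ i ≤ n, p i ∈ X
  sur : ∀ x ∈ X, ∃ i ≤ n, p i = x
  inj : ∀ i ≤ n, ∀ j ≤ n, p i = p j → i = j
  adj : ∀ i ≤ n, ∀ j ≤ n, (G.Adj (p i) (p j) ↔ (i = j + 1 ∨ j = i + 1))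

/-- level `j` is good: no coarse vertex has label `j`, and all pieces with label `j` of coarse triangles
have exactly two neighbour pieces -/
def GoodL (G0 : SimpleGraph V0) (G : SimpleGraph V) (c : V → Set V0) (l : V → ℕ) (j : ℕ) : Prop :=
  (∀ x, (c x).ncard = 1 → l x ≠ j) ∧
    ∀ f : Set V0, G0.IsClique f → f.ncard = 3 → ∀ x ∈ cel c f, l x = j → Two G (cel c f) l x

/-- level `j` is a product level: no coarse vertex has label `j`, and every piece with label `j` of a
coarse edge or triangle has exactly one neighbour piece of label `j - 1` and one of label `j + 1` -/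
def PrdL (G0 : SimpleGraph V0) (G : SimpleGraph V) (c : V → Set V0) (l : V → ℕ) (j : ℕ) : Prop :=
  (∀ x, (c x).ncard = 1 → l x ≠ j) ∧
    ∀ t : Set V0, G0.IsClique t → (t.ncard = 2 ∨ t.ncard = 3) → ∀ x ∈ cel c t, l x = j →
      One G (cel c t) l x (j - 1) ∧ One G (cel c t) l x (j + 1)

/-- `S ⊆ T` and in every closed coarse cell of dimension at most 2 the inclusion `S → T` is a bijection
on components -/
def Bij0 (G0 : SimpleGraph V0) (G : SimpleGraph V) (c : V → Set V0) (S T : Set V) : Prop :=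
  S ⊆ T ∧ ∀ t : Set V0, t.Nonempty → G0.IsClique t → t.ncard ≤ 3 →
    (∀ x ∈ T ∩ cel c t, ∃ y ∈ S ∩ cel c t, Relation.ReflTransGen (EIn G (T ∩ cel c t)) x y) ∧
    ∀ x ∈ S ∩ cel c t, ∀ y ∈ S ∩ cel c t, Relation.ReflTransGen (EIn G (T ∩ cel c t)) x y →
      Relation.ReflTransGen (EIn G (S ∩ cel c t)) x y

/-- every coarse simplex lies in a coarse tetrahedron, no simplex has more than 4 vertices -/
structure Pur (G0 : SimpleGraph V0) : Prop where
  k5 : ∀ t : Set V0, G0.IsClique t → t.ncard ≤ 4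
  up : ∀ t : Set V0, t.Nonempty → G0.IsClique t → ∃ D : Set V0, G0.IsClique D ∧ D.ncard = 4 ∧ t ⊆ D

/-- number of coarse triangles -/
def ntri (G0 : SimpleGraph V0) : ℕ := {t : Set V0 | G0.IsClique t ∧ t.ncard = 3}.ncard

end MOT
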