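import Mathlib

/-!
# MOT: THIN, branch vertices of a finite tree with at most three leaves (helper81)

`tree_branch` is a statement about finite trees: `∑ degree = 2 (#vertices - 1)`
(`SimpleGraph.sum_degrees_eq_twice_card_edges`, `SimpleGraph.IsTree.card_edgeFinset`), so
`∑ (degree - 2) = -2`; if there are at least two vertices all degrees are positive and
`#{degree ≥ 3} ≤ #{degree = 1} - 2 ≤ 1`; with one vertex there is nothing to prove.
-/

open Classical

noncomputable section

namespace MOT

theorem tree_branch {P : Type} [Finite P] (T : SimpleGraph P) (hT : T.IsTree)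
    (h3 : {v | (T.neighborSet v).ncard ≤ 1}.ncard ≤ 3) :
    {v | 3 ≤ (T.neighborSet v).ncard}.ncard ≤ 1 := by
  have : Fintype P := Fintype.ofFinite P
  have hdeg : ∀ v, (T.neighborSet v).ncard = T.degree v := by
    intro v
    rw [Set.ncard_eq_toFinset_card' (T.neighborSet v), ← SimpleGraph.card_neighborFinset_eq_degree]
    rfl
  simp only [hdeg] at h3 ⊢
  rcases subsingleton_or_nontrivial P with hs | hn
  · have h0 : {v : P | 3 ≤ T.degree v} = ∅ := by
      ext v
      simp only [Set.mem_ofPred_eq, Set.mem_empty_iff_false, iff_false, not_le]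
      have h1 : T.degree v < Fintype.card P := T.degree_lt_card_verts v
      have h2 : Fintype.card P ≤ 1 := Fintype.card_le_one_iff_subsingleton.2 hs
      omega
    rw [h0]
    simp
  · have hpos : ∀ v, 1 ≤ T.degree v := fun v =>
      hT.1.preconnected.degree_pos_of_nontrivial v
    have hsum : ∑ v, T.degree v = 2 * T.edgeFinset.card := T.sum_degrees_eq_twice_card_edges
    have hcard := hT.card_edgeFinset
    have hL : {v : P | T.degree v ≤ 1}.ncard = ∑ v : P, (if T.degree v ≤ 1 then 1 else 0) := by
      rw [Set.ncard_eq_toFinset_card', ← Finset.card_filter]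
      congr 1
      ext v
      simp
    have hB : {v : P | 3 ≤ T.degree v}.ncard = ∑ v : P, (if 3 ≤ T.degree v then 1 else 0) := by
      rw [Set.ncard_eq_toFinset_card', ← Finset.card_filter]
      congr 1
      ext v
      simp
    have hkey : ∑ v : P, (2 + (if 3 ≤ T.degree v then 1 else 0)) ≤
        ∑ v : P, (T.degree v + (if T.degree v ≤ 1 then 1 else 0)) := by
      refine Finset.sum_le_sum fun v _ => ?_
      have := hpos v
      split_ifs <;> omega
    rw [Finset.sum_add_distrib, Finset.sum_add_distrib, ← hL, ← hB, hsum] at hkey
    simp only [Finset.sum_const, Finset.card_univ, smul_eq_mul] at hkey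
    omega

end MOT
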