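import Pool.Agent.MOT.TgTra
import Pool.Agent.MOT.TgTbr

/-!
# MOT: THIN, all but four levels of a cell with three corners are good (helper81)

`amo_iff`, `two_iff`: translation between `Amo`, `Two` and the degree in the graph of pieces `pgr`
(`pgr_adj`, `mkP_eq`; every element of `PcT` is `mkP x hx`; a neighbour `w` of `x` in the sense of `NbP` is in
`X` by `NbP.right`).

`tree_levels`: every vertex of degree `≤ 1` of `pgr G X l` contains an element of `Q` (`hleaf` with
`amo_iff`); different pieces are disjoint, so there are at most `Q.ncard ≤ 3` of them; so there is at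
most one vertex of degree `≥ 3` (`tree_branch`).  `B` := the labels of the elements of `Q` and of this
vertex (if it exists).  A vertex `x` with `l x ∉ B` lies in a piece of degree `≠ 0, 1` (otherwise the piece
contains some `q ∈ Q` and `l x = l q ∈ B`) and not `≥ 3`, so of degree 2.
-/

open Classical

noncomputable section

namespace MOT

variable {V : Type}

private theorem TgTrb_ex {G : SimpleGraph V} {X : Set V} {l : V → ℕ} (a : PcT G X l) :
    ∃ y, ∃ hy : y ∈ X, a = mkP G X l y hy := by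
  obtain ⟨S, y, hy, rfl⟩ := a
  exact ⟨y, hy, rfl⟩

theorem amo_iff [Finite V] {G : SimpleGraph V} {X : Set V} {l : V → ℕ} {x : V} (hx : x ∈ X) :
    Amo G X l x ↔ ((pgr G X l).neighborSet (mkP G X l x hx)).ncard ≤ 1 := by
  rw [Set.ncard_le_one (Set.toFinite _)]
  constructor
  · intro h a ha b hb
    obtain ⟨y, hy, rfl⟩ := TgTrb_ex a
    obtain ⟨z, hz, rfl⟩ := TgTrb_ex b
    exact (mkP_eq hy hz).2 (h y z ((pgr_adj hx hy).1 ha) ((pgr_adj hx hz).1 hb))
  · intro h y z hy hz
    exact (mkP_eq hy.right hz.right).1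
      (h _ ((pgr_adj hx hy.right).2 hy) _ ((pgr_adj hx hz.right).2 hz))

theorem two_iff [Finite V] {G : SimpleGraph V} {X : Set V} {l : V → ℕ} {x : V} (hx : x ∈ X) :
    Two G X l x ↔ ((pgr G X l).neighborSet (mkP G X l x hx)).ncard = 2 := by
  rw [Set.ncard_eq_two]
  constructor
  · rintro ⟨y, z, hy, hz, hyz, hw⟩
    refine ⟨mkP G X l y hy.right, mkP G X l z hz.right, fun h => hyz ((mkP_eq _ _).1 h), ?_⟩
    ext a
    obtain ⟨w, hwX, rfl⟩ := TgTrb_ex a
    constructor
    · intro ha
      rcases hw w ((pgr_adj hx hwX).1 ha) with h | h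
      · exact Or.inl ((mkP_eq hy.right hwX).2 h).symm
      · exact Or.inr ((mkP_eq hz.right hwX).2 h).symm
    · rintro (h | h)
      · rw [h]
        exact (pgr_adj hx hy.right).2 hy
      · rw [Set.mem_singleton_iff.1 h]
        exact (pgr_adj hx hz.right).2 hz
  · rintro ⟨a, b, hab, hs⟩
    obtain ⟨y, hy, rfl⟩ := TgTrb_ex a
    obtain ⟨z, hz, rfl⟩ := TgTrb_ex b
    have h1 : mkP G X l y hy ∈ (pgr G X l).neighborSet (mkP G X l x hx) := by
      rw [hs]
      exact Or.inl rfl
    have h2 : mkP G X l z hz ∈ (pgr G X l).neighborSet (mkP G X l x hx) := by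
      rw [hs]
      exact Or.inr rfl
    refine ⟨y, z, (pgr_adj hx hy).1 h1, (pgr_adj hx hz).1 h2,
      fun h => hab ((mkP_eq hy hz).2 h), fun w hw => ?_⟩
    have h3 : mkP G X l w hw.right ∈ (pgr G X l).neighborSet (mkP G X l x hx) :=
      (pgr_adj hx hw.right).2 hw
    rw [hs] at h3
    rcases h3 with h3 | h3
    · exact Or.inl ((mkP_eq hy hw.right).1 h3.symm)
    · exact Or.inr ((mkP_eq hz hw.right).1 (Set.mem_singleton_iff.1 h3).symm)

theorem tree_levels [Finite V] {G : SimpleGraph V} {X : Set V} {l : V → ℕ} (hc : Conn G X)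
    (hz : HZ G X) (hl : ∀ x y, EIn G X x y → l x ≤ l y + 1) {Q : Set V} (hQ : Q ⊆ X)
    (hQ3 : Q.ncard ≤ 3) (hleaf : ∀ x ∈ X, Amo G X l x → ∃ z ∈ pce G X l x, z ∈ Q) :
    ∃ B : Finset ℕ, B.card ≤ 4 ∧ (∀ q ∈ Q, l q ∈ B) ∧ ∀ x ∈ X, l x ∉ B → Two G X l x := by
  have hT := pgr_tree hc hz hl
  -- a representative and the label of a piece
  have hrep : ∀ v : PcT G X l, ∃ y, ∃ hy : y ∈ X, v = mkP G X l y hy := TgTrb_ex
  choose r hr hr' using hrep
  have hlab : ∀ x, ∀ hx : x ∈ X, l (r (mkP G X l x hx)) = l x := by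
    intro x hx
    have h1 := (mkP_eq hx (hr (mkP G X l x hx))).1 (hr' (mkP G X l x hx))
    exact pce_lab h1
  -- the leaves
  have hq : ∀ v : PcT G X l, ((pgr G X l).neighborSet v).ncard ≤ 1 → ∃ q, q ∈ v.1 ∧ q ∈ Q := by
    intro v hv
    obtain ⟨y, hy, rfl⟩ := TgTrb_ex v
    exact hleaf y hy ((amo_iff hy).2 hv)
  have hL : {v | ((pgr G X l).neighborSet v).ncard ≤ 1}.ncard ≤ 3 := by
    refine le_trans ?_ hQ3
    refine Set.ncard_le_ncard_of_injOn
      (fun v => if h : ∃ q, q ∈ v.1 ∧ q ∈ Q then h.choose else r v) ?_ ?_ (Set.toFinite Q)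
    · intro v hv
      have h1 := hq v hv
      simp only [dif_pos h1]
      exact h1.choose_spec.2
    · intro v hv w hw hvw
      have h1 := hq v hv
      have h2 := hq w hw
      simp only [dif_pos h1, dif_pos h2] at hvw
      have h3 := h1.choose_spec.1
      have h4 := h2.choose_spec.1
      rw [← hvw] at h4
      obtain ⟨a, ha, rfl⟩ := TgTrb_ex v
      obtain ⟨b, hb, rfl⟩ := TgTrb_ex w
      exact Subtype.ext ((pce_eq h3).symm.trans (pce_eq h4))
  have hB := tree_branch (pgr G X l) hT hL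
  have hfQ : Q.Finite := Set.toFinite Q
  have hfB : {v | 3 ≤ ((pgr G X l).neighborSet v).ncard}.Finite := Set.toFinite _
  refine ⟨hfQ.toFinset.image l ∪ hfB.toFinset.image (fun v => l (r v)), ?_, ?_, ?_⟩
  · have h1 : (hfQ.toFinset.image l).card ≤ 3 := by
      refine Finset.card_image_le.trans ?_
      rw [← Set.ncard_eq_toFinset_card Q hfQ]
      exact hQ3
    have h2 : (hfB.toFinset.image (fun v => l (r v))).card ≤ 1 := by
      refine Finset.card_image_le.trans ?_
      rw [← Set.ncard_eq_toFinset_card _ hfB]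
      exact hB
    exact (Finset.card_union_le _ _).trans (by omega)
  · intro q hqQ
    exact Finset.mem_union_left _ (Finset.mem_image_of_mem l ((Set.Finite.mem_toFinset hfQ).2 hqQ))
  · intro x hx hxB
    rw [two_iff hx]
    by_contra hne
    rcases Nat.lt_or_ge ((pgr G X l).neighborSet (mkP G X l x hx)).ncard 2 with h1 | h1
    · obtain ⟨z, hz1, hz2⟩ := hleaf x hx ((amo_iff hx).2 (by omega))
      apply hxB
      rw [← pce_lab hz1]
      exact Finset.mem_union_left _
        (Finset.mem_image_of_mem l ((Set.Finite.mem_toFinset hfQ).2 hz2))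
    · apply hxB
      refine Finset.mem_union_right _ (Finset.mem_image.2 ⟨mkP G X l x hx, ?_, hlab x hx⟩)
      rw [Set.Finite.mem_toFinset]
      change 3 ≤ ((pgr G X l).neighborSet (mkP G X l x hx)).ncard
      omega

end MOT
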