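import Pool.Agent.MOT.TgLf
import Pool.Agent.MOT.TgTrb

/-!
# MOT: THIN, three consecutive good levels (helper81)

`face_levels`: `tree_levels` with `X = cel c f` (`CY.cell`), `Q = {z ∈ cel c f | (c z).ncard = 1}`
(at most 3 elements: `z ↦` the element of `c z` is injective into `f` by `CY.vert`), `hleaf` from
`leaf_corner`.

`good_three`: for every triangle `f` of `G0` choose `B f` by `face_levels`; the union `B` of all `B f` has at
most `4 N` elements, `N = ntri G0`.  If `j ∉ B` then `j` is good: a coarse vertex `x` (`c x = {v}`) lies in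
`cel c f` for some triangle `f` containing `v` (`Pur.up`, a subset with 3 elements of a tetrahedron
containing `v`), so `l x ∈ B`.  The `4 N + 1` blocks `{3 i + 1, 3 i + 2, 3 i + 3}`, `i ≤ 4 N`, are disjoint
subsets of `{1, …, m}`, so one of them does not meet `B`; take `j = 3 i + 2`.
-/

open Classical

noncomputable section

namespace MOT

variable {V0 V : Type} {G0 : SimpleGraph V0} {G : SimpleGraph V} {c : V → Set V0} {l : V → ℕ}

theorem face_levels [Finite V0] [Finite V] (h : CY G0 G c) {m : ℕ}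
    (hl : ∀ x y, EIn G (sk c 3) x y → l x ≤ l y + 1) (ht : ∀ x ∈ sk c 3, l x ≤ m + 1)
    (hlow : ∀ i, Conn G (low (sk c 3) l i)) (hupp : ∀ i, i ≤ m + 1 → Conn G (upp (sk c 3) l i))
    {x0 x1 : V} (hx0 : (c x0).ncard = 1) (h0 : l x0 = 0) (hx1 : (c x1).ncard = 1)
    (h1 : l x1 = m + 1) (hno : NoF G0 G c l) {f : Set V0} (hf : G0.IsClique f)
    (h3 : f.ncard = 3) :
    ∃ B : Finset ℕ, B.card ≤ 4 ∧ (∀ z ∈ cel c f, (c z).ncard = 1 → l z ∈ B) ∧
      ∀ x ∈ cel c f, l x ∉ B → Two G (cel c f) l x := by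
  have hne : f.Nonempty := by
    rw [← Set.ncard_pos (Set.toFinite f), h3]
    norm_num
  have hsk : cel c f ⊆ sk c 3 := cel_sk h3.le
  obtain ⟨hC, hZ⟩ := h.cell f hne hf
  have hQs : {z | z ∈ cel c f ∧ (c z).ncard = 1} ⊆ (fun v => (h.vert v).choose) '' f := by
    rintro z ⟨hz, h1⟩
    obtain ⟨v, hv⟩ := Set.ncard_eq_one.1 h1
    refine ⟨v, hz (by rw [hv]; exact rfl), ?_⟩
    exact (h.vert v).unique (h.vert v).choose_spec.1 hv
  obtain ⟨B, hB, hB1, hB2⟩ := tree_levels (Q := {z | z ∈ cel c f ∧ (c z).ncard = 1}) hC hZ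
    (fun x y e => hl x y ⟨e.1, hsk e.2.1, hsk e.2.2⟩) (fun z hz => hz.1)
    (((Set.ncard_le_ncard hQs (Set.toFinite _)).trans (Set.ncard_image_le (Set.toFinite f))).trans
      h3.le)
    (by
      intro x hx hd
      obtain ⟨z, hz, hz1⟩ := leaf_corner h hl ht hlow hupp hx0 h0 hx1 h1 hno hf h3 hx hd
      exact ⟨z, hz, pce_sub hz, hz1⟩)
  exact ⟨B, hB, fun z hz hz1 => hB1 z ⟨hz, hz1⟩, hB2⟩

theorem good_three [Finite V0] [Finite V] (h : CY G0 G c) (hp : Pur G0) {m : ℕ}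
    (hl : ∀ x y, EIn G (sk c 3) x y → l x ≤ l y + 1) (ht : ∀ x ∈ sk c 3, l x ≤ m + 1)
    (hlow : ∀ i, Conn G (low (sk c 3) l i)) (hupp : ∀ i, i ≤ m + 1 → Conn G (upp (sk c 3) l i))
    {x0 x1 : V} (hx0 : (c x0).ncard = 1) (h0 : l x0 = 0) (hx1 : (c x1).ncard = 1)
    (h1 : l x1 = m + 1) (hno : NoF G0 G c l) (hm : 12 * ntri G0 + 3 ≤ m) :
    ∃ j, 2 ≤ j ∧ j + 1 ≤ m ∧ GoodL G0 G c l (j - 1) ∧ GoodL G0 G c l j ∧
      GoodL G0 G c l (j + 1) := by
  have hT : {t : Set V0 | G0.IsClique t ∧ t.ncard = 3}.Finite := Set.toFinite _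
  have hfl : ∀ f : Set V0, ∃ B : Finset ℕ, G0.IsClique f → f.ncard = 3 → B.card ≤ 4 ∧
      (∀ z ∈ cel c f, (c z).ncard = 1 → l z ∈ B) ∧
      ∀ x ∈ cel c f, l x ∉ B → Two G (cel c f) l x := by
    intro f
    by_cases hf : G0.IsClique f ∧ f.ncard = 3
    · obtain ⟨B, hB⟩ := face_levels h hl ht hlow hupp hx0 h0 hx1 h1 hno hf.1 hf.2
      exact ⟨B, fun _ _ => hB⟩
    · exact ⟨∅, fun h1 h2 => absurd ⟨h1, h2⟩ hf⟩
  choose B hB using hfl
  have hN : ntri G0 = hT.toFinset.card := Set.ncard_eq_toFinset_card _ hT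
  have hU : (hT.toFinset.biUnion B).card ≤ hT.toFinset.card * 4 := by
    refine Finset.card_biUnion_le_card_mul _ _ _ (fun f hf => ?_)
    rw [Set.Finite.mem_toFinset] at hf
    exact (hB f hf.1 hf.2).1
  -- a block which does not meet the union
  have hblk : ∃ i ≤ 4 * ntri G0, ∀ k, 3 * i < k → k ≤ 3 * i + 3 → k ∉ hT.toFinset.biUnion B := by
    by_contra hcon
    push Not at hcon
    have h2 : ∀ i : ℕ, ∃ k, i ≤ 4 * ntri G0 → (3 * i < k ∧ k ≤ 3 * i + 3 ∧
        k ∈ hT.toFinset.biUnion B) := by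
      intro i
      by_cases hi : i ≤ 4 * ntri G0
      · obtain ⟨k, hk1, hk2, hk3⟩ := hcon i hi
        exact ⟨k, fun _ => ⟨hk1, hk2, hk3⟩⟩
      · exact ⟨0, fun h => absurd h hi⟩
    choose g hg using h2
    have h3 : (Finset.range (4 * ntri G0 + 1)).card ≤ (hT.toFinset.biUnion B).card := by
      refine Finset.card_le_card_of_injOn g ?_ ?_
      · intro i hi
        have hi' := Finset.mem_range.1 (Finset.mem_coe.1 hi)
        exact (hg i (by omega)).2.2
      · intro i hi j hj hij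
        have hi' := Finset.mem_range.1 (Finset.mem_coe.1 hi)
        have hj' := Finset.mem_range.1 (Finset.mem_coe.1 hj)
        have h5 := hg i (by omega)
        have h6 := hg j (by omega)
        omega
    rw [Finset.card_range] at h3
    omega
  obtain ⟨i, hi, hblk⟩ := hblk
  have hgood : ∀ k, k ∉ hT.toFinset.biUnion B → GoodL G0 G c l k := by
    intro k hk
    have hk' : ∀ f : Set V0, G0.IsClique f → f.ncard = 3 → k ∉ B f := fun f hf hf3 hkB =>
      hk (Finset.mem_biUnion.2 ⟨f, (Set.Finite.mem_toFinset hT).2 ⟨hf, hf3⟩, hkB⟩)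
    refine ⟨fun x hx hlx => ?_, fun f hf hf3 x hx hlx => ?_⟩
    · obtain ⟨v, hv⟩ := Set.ncard_eq_one.1 hx
      obtain ⟨D, hD, hD4, hvD⟩ := hp.up (c x) (h.clq x).1 (h.clq x).2
      obtain ⟨f, hf1, hf2, hf3⟩ := Set.exists_subsuperset_card_eq hvD
        (by omega : (c x).ncard ≤ 3) (by omega : 3 ≤ D.ncard)
      have hf : G0.IsClique f := hD.subset hf2
      have h7 := (hB f hf hf3).2.1 x hf1 hx
      rw [hlx] at h7
      exact hk' f hf hf3 h7
    · have h8 := hk' f hf hf3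
      rw [← hlx] at h8
      exact (hB f hf hf3).2.2 x hx h8
  refine ⟨3 * i + 2, by omega, by omega, hgood _ (hblk _ (by omega) (by omega)),
    hgood _ (hblk _ (by omega) (by omega)), hgood _ (hblk _ (by omega) (by omega))⟩

end MOT
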