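import Pool.Agent.MOT.TgPth

/-!
# MOT: THIN, without fingers a leaf piece of a coarse triangle contains a coarse vertex (helper81)

`cy_up`: a neighbour (in the 2-skeleton `sk c 3`) of a vertex `x` with `(c x).ncard = 3` lies in
`cel c (c x)`: carriers are comparable (`CY.cmp`), `c x ⊆ c y` and `(c y).ncard ≤ 3` give `c y = c x`
(`Set.eq_of_subset_of_ncard_le`).

`leaf_corner`.  Suppose that `S = pce G (cel c f) l x` contains no vertex with `(c z).ncard = 1`.
Case 1: `S` contains `u` with `(c u).ncard = 2`.  Put `e = c u ⊆ f` (a clique, `CY.clq`),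
`I = pce G (cel c e) l u ⊆ S` (`pce_mono`, `pce_trans`).  `cy_interval` gives `y ≠ y'` in `cel c e`, adjacent
to `I`, `l y ≠ l x`, `l y' ≠ l x`.  So `NbP x y`, `NbP x y'` in `cel c f` (`nbP_of_adj`, `NbP.congr`), so
`y' ∈ pce G (cel c f) l y` by `hd`, in particular `l y' = l y`, and `l y = l x ± 1` by `hl`.
So `Fing G0 G c l (l y) (l x) e f I y y'` holds, against `hno`.
Case 2: all `u ∈ S` have `c u = f` (`ncard` is 3: `c u ⊆ f`, nonempty, not of `ncard` 1 or 2).  All
neighbours of `S` in `sk c 3` are in `cel c f` (`cy_up`).  If `S` has no neighbour with label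
`l x - 1` (i.e. no `v ∈ cel c f`, `l v + 1 = l x`, adjacent to `S`), then `S` is closed under adjacency in
`low (sk c 3) l (l x)`, which is connected and contains `x` and `x0`: so `x0 ∈ S`, but `(c x0).ncard = 1`.
Otherwise, by `hd` and `NbP.lip`, `S` has no neighbour with label `l x + 1` (a neighbour piece is unique and
has only one label), so `S` is closed under adjacency in `upp (sk c 3) l (l x)`, which is connected
(`l x ≤ m + 1`) and contains `x1`: contradiction in the same way.
(`cel c f ⊆ sk c 3` since `f.ncard = 3`, `f` is finite.)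
-/

open Classical

noncomputable section

namespace MOT

variable {V0 V : Type} {G0 : SimpleGraph V0} {G : SimpleGraph V} {c : V → Set V0} {l : V → ℕ}

theorem cel_sk [Finite V0] {t : Set V0} {d : ℕ} (h : t.ncard ≤ d) : cel c t ⊆ sk c d := by
  intro x hx
  exact (Set.ncard_le_ncard (show c x ⊆ t from hx) (Set.toFinite t)).trans h

theorem cy_up [Finite V0] (h : CY G0 G c) {x y : V} (hx : (c x).ncard = 3)
    (e : EIn G (sk c 3) x y) : y ∈ cel c (c x) := by
  rcases h.cmp x y e.1 with h1 | h1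
  · have h2 : c x = c y := by
      refine Set.eq_of_subset_of_ncard_le h1 ?_ (Set.toFinite _)
      rw [hx]
      exact e.2.2
    exact h2.symm.subset
  · exact h1

theorem leaf_corner [Finite V0] [Finite V] (h : CY G0 G c) {m : ℕ}
    (hl : ∀ x y, EIn G (sk c 3) x y → l x ≤ l y + 1) (ht : ∀ x ∈ sk c 3, l x ≤ m + 1)
    (hlow : ∀ i, Conn G (low (sk c 3) l i)) (hupp : ∀ i, i ≤ m + 1 → Conn G (upp (sk c 3) l i))
    {x0 x1 : V} (hx0 : (c x0).ncard = 1) (h0 : l x0 = 0) (hx1 : (c x1).ncard = 1)
    (h1 : l x1 = m + 1) (hno : NoF G0 G c l) {f : Set V0} (hf : G0.IsClique f)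
    (h3 : f.ncard = 3) {x : V} (hx : x ∈ cel c f) (hd : Amo G (cel c f) l x) :
    ∃ z ∈ pce G (cel c f) l x, (c z).ncard = 1 := by
  by_contra hcon
  have hS1 : ∀ z ∈ pce G (cel c f) l x, (c z).ncard ≠ 1 := fun z hz e => hcon ⟨z, hz, e⟩
  have hsk : cel c f ⊆ sk c 3 := cel_sk h3.le
  have hlf : ∀ u v, EIn G (cel c f) u v → l u ≤ l v + 1 := fun u v e =>
    hl u v ⟨e.1, hsk e.2.1, hsk e.2.2⟩
  by_cases hc : ∃ u ∈ pce G (cel c f) l x, (c u).ncard = 2
  · obtain ⟨u, hu, hu2⟩ := hc
    have hef : c u ⊆ f := pce_sub hu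
    have hce : cel c (c u) ⊆ cel c f := fun z hz => Set.Subset.trans hz hef
    have hue : u ∈ cel c (c u) := Set.Subset.refl _
    have hIS : pce G (cel c (c u)) l u ⊆ pce G (cel c f) l x := fun z hz =>
      pce_trans hu (pce_mono hce hz)
    obtain ⟨hio, y, y', hne, hy, hy', hly, hly', hya, hya', hnb⟩ :=
      cy_interval h (h.clq u).2 hu2 hue (fun z hz => hS1 z (hIS hz))
    have hlu : l u = l x := pce_lab hu
    have hnbP : ∀ w, w ∈ cel c (c u) → l w ≠ l u →
        (∃ z ∈ pce G (cel c (c u)) l u, G.Adj z w) → NbP G (cel c f) l x w := by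
      rintro w hw hlw ⟨z, hz, hzw⟩
      have hzf : z ∈ cel c f := pce_sub (hIS hz)
      have hlz : l z = l u := pce_lab hz
      have k := nbP_of_adj (l := l) hzf (hce hw) hzw (by rw [hlz]; exact hlw.symm)
      exact k.congr (pce_symm (hIS hz)) (pce_self (hce hw))
    have k1 := hnbP y hy hly hya
    have k2 := hnbP y' hy' hly' hya'
    have k3 := hd y y' k1 k2
    refine hno (l y) (l x) (c u) f (pce G (cel c (c u)) l u) y y' ?_
    refine ⟨(h.clq u).2, hu2, hf, h3, hef, pce_Conn hue, hio, ?_, hne, hy, hy', hya, hya', hnb,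
      rfl, pce_lab k3, k1.lip hlf, k3⟩
    intro z hz
    exact (pce_lab hz).trans hlu
  · have hc3 : ∀ z ∈ pce G (cel c f) l x, c z = f := by
      intro z hz
      have hzf : c z ⊆ f := pce_sub hz
      have e1 := hS1 z hz
      have e2 : (c z).ncard ≠ 2 := fun e => hc ⟨z, hz, e⟩
      have e3 : 0 < (c z).ncard := (Set.ncard_pos (Set.toFinite _)).2 (h.clq z).1
      refine Set.eq_of_subset_of_ncard_le hzf ?_ (Set.toFinite _)
      omega
    have hup : ∀ u ∈ pce G (cel c f) l x, ∀ v ∈ sk c 3, G.Adj u v → v ∈ cel c f := by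
      intro u hu v hv huv
      have e1 := hc3 u hu
      have e2 : (c u).ncard = 3 := by rw [e1]; exact h3
      have e3 : EIn G (sk c 3) u v := ⟨huv, hsk (pce_sub hu), hv⟩
      have k := cy_up h e2 e3
      rw [e1] at k
      exact k
    have hcl : ∀ A : Set V, A ⊆ sk c 3 → Conn G A → x ∈ A →
        (∀ u ∈ pce G (cel c f) l x, ∀ v ∈ A, G.Adj u v → v ∈ cel c f → l v = l x) →
        ∀ w ∈ A, w ∈ pce G (cel c f) l x := by
      intro A hA hAc hxA hk w hw
      have hr := hAc.2 x hxA w hw
      clear hw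
      induction hr with
      | refl => exact pce_self hx
      | tail _ e ih =>
        have hv := hup _ ih _ (hA e.2.2) e.1
        have hlv := hk _ ih _ e.2.2 e.1 hv
        exact pce_adj ih hv (hlv.trans (pce_lab ih).symm) e.1
    by_cases hdn : ∃ v ∈ cel c f, l v + 1 = l x ∧ ∃ u ∈ pce G (cel c f) l x, G.Adj u v
    · obtain ⟨v, hv, hlv, u, hu, huv⟩ := hdn
      have mk : ∀ u ∈ pce G (cel c f) l x, ∀ v ∈ cel c f, G.Adj u v → l v ≠ l x →
          NbP G (cel c f) l x v := by
        intro u hu v hv huv hlv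
        have hlu : l u = l x := pce_lab hu
        have k := nbP_of_adj (l := l) (pce_sub hu) hv huv (by rw [hlu]; exact hlv.symm)
        exact k.congr (pce_symm hu) (pce_self hv)
      have k1 := mk u hu v hv huv (by omega)
      have hxA : x ∈ upp (sk c 3) l (l x) := ⟨hsk hx, le_rfl⟩
      have := hcl (upp (sk c 3) l (l x)) (fun z hz => hz.1) (hupp _ (ht x (hsk hx))) hxA
        (by
          intro u' hu' w hw hu'w hwf
          by_contra hlw
          have k2 := mk u' hu' w hwf hu'w hlw
          have k3 := pce_lab (hd v w k1 k2)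
          have k4 : l x ≤ l w := hw.2
          omega) x1 ⟨by show (c x1).ncard ≤ 3; omega, by rw [h1]; exact ht x (hsk hx)⟩
      exact hS1 x1 this hx1
    · have hxA : x ∈ low (sk c 3) l (l x) := ⟨hsk hx, le_rfl⟩
      have := hcl (low (sk c 3) l (l x)) (fun z hz => hz.1) (hlow _) hxA
        (by
          intro u' hu' w hw hu'w hwf
          by_contra hlw
          have k4 : l w ≤ l x := hw.2
          have k5 := hlf u' w ⟨hu'w, pce_sub hu', hwf⟩
          have k6 : l u' = l x := pce_lab hu'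
          exact hdn ⟨w, hwf, by omega, u', hu', hu'w⟩) x0
        ⟨by show (c x0).ncard ≤ 3; omega, by rw [h0]; exact Nat.zero_le _⟩
      exact hS1 x0 this hx0

end MOT
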