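import Pool.Agent.MOT.TgBas

/-!
# MOT: THIN, closed coarse edges are paths (helper81)

`pth_of_deg`: `X` connected, all vertices have at most 2 neighbours in `X`, `x0` has exactly one.
Take the largest `n` for which there is `p : ℕ → V` with `p 0 = x0`, `p i ∈ X` for `i ≤ n`, `p` injective on
`i ≤ n` and `p i`, `p (i+1)` adjacent for `i < n` (`n < card V`).  `n ≥ 1` since `x0` has a neighbour.
The neighbours of `p 0` in `X` are `p 1` only; the neighbours of `p i`, `0 < i < n`, are exactly
`p (i-1)`, `p (i+1)` (`ncard ≤ 2`).  A neighbour of `p n` in `X` is one of the `p j` by maximality, and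
`j < n - 1` is impossible (`p j` would have the further neighbour `p n`), so it is `p (n-1)`.  Hence
`{p i | i ≤ n}` is closed under adjacency in `X`, so it is `X`, and `p i`, `p j` are adjacent iff
`i = j + 1` or `j = i + 1`.

`cy_pth`: the closed cell of a coarse edge `e = {u, v}`: apply `pth_of_deg` with `x0` = the vertex with
carrier `{u}` (`CY.vert`, `CY.fin`; interior vertices: `CY.path`; `CY.cell` for `Conn`).  A vertex with
`c x ≠ e`, `c x ⊆ e`, `c x` nonempty has `c x = {u}` or `{v}` and has only one neighbour in `cel c e`, so it is `p 0` or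
`p n`; the vertices with carrier `{u}` and `{v}` are different, so both `p 0` and `p n` have carriers `≠ e`
(`p n`: the vertex with carrier `{v}` is some `p j` with only one neighbour, so `j = n`).

`cy_interval`: `I = pce G (cel c e) l x` without coarse vertices: with `p` from `cy_pth`, `x = p i`,
`0 < i < n`: let `s < i` be the largest index with `l (p s) ≠ l x` and `t > i` the smallest one; they exist
since otherwise `p 0 ∈ I` (resp. `p n ∈ I`), whose carrier is not `e`.  `I = {p k | s < k < t}`,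
`y = p s`, `y' = p t`.
-/

open Classical

noncomputable section

namespace MOT

variable {V0 V : Type} {G0 : SimpleGraph V0} {G : SimpleGraph V} {c : V → Set V0} {l : V → ℕ}

/-- walk without repetitions of length `n` from `x0` in `X` -/
private def Wk (G : SimpleGraph V) (X : Set V) (x0 : V) (n : ℕ) : Prop :=
  ∃ p : ℕ → V, p 0 = x0 ∧ (∀ i ≤ n, p i ∈ X) ∧ (∀ i ≤ n, ∀ j ≤ n, p i = p j → i = j) ∧
    ∀ i < n, G.Adj (p i) (p (i + 1))

theorem pth_of_deg [Finite V] {X : Set V} (hc : Conn G X) {x0 : V} (h0 : x0 ∈ X)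
    (h1 : {y | G.Adj x0 y ∧ y ∈ X}.ncard = 1)
    (h2 : ∀ x ∈ X, {y | G.Adj x y ∧ y ∈ X}.ncard ≤ 2) :
    ∃ (n : ℕ) (p : ℕ → V), 0 < n ∧ Pth G X n p ∧ p 0 = x0 := by
  have hbd : ∀ n, Wk G X x0 n → n ≤ Nat.card V := by
    rintro n ⟨p, -, -, hp, -⟩
    have hi : Function.Injective (fun i : Fin (n + 1) => p i.1) := by
      intro a b hab
      exact Fin.ext (hp a.1 (Nat.le_of_lt_succ a.2) b.1 (Nat.le_of_lt_succ b.2) hab)
    have := Nat.card_le_card_of_injective _ hi
    rw [Nat.card_eq_fintype_card, Fintype.card_fin] at this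
    omega
  have hP0 : Wk G X x0 0 := by
    refine ⟨fun _ => x0, rfl, fun _ _ => h0, fun i hi j hj _ => by omega, fun i hi => by omega⟩
  obtain ⟨n, hn, hmax⟩ : ∃ n, Wk G X x0 n ∧ ∀ m, Wk G X x0 m → m ≤ n := by
    refine ⟨Nat.findGreatest (fun n => Wk G X x0 n) (Nat.card V), ?_, fun m hm => ?_⟩
    · exact Nat.findGreatest_spec (P := fun n => Wk G X x0 n) (m := 0) (Nat.zero_le _) hP0
    · exact Nat.le_findGreatest (hbd m hm) hm
  obtain ⟨p, p0, pm, pi, pa⟩ := hn
  have hext : ∀ y ∈ X, G.Adj (p n) y → ∃ j ≤ n, y = p j := by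
    intro y hy hya
    by_contra hcon
    have hcon' : ∀ j ≤ n, y ≠ p j := fun j hj e => hcon ⟨j, hj, e⟩
    have : Wk G X x0 (n + 1) := by
      refine ⟨fun i => if i ≤ n then p i else y, ?_, ?_, ?_, ?_⟩
      · simp [p0]
      · intro i _
        by_cases h : i ≤ n
        · simp only [h, if_true]; exact pm i h
        · simp only [h, if_false]; exact hy
      · intro i hi j hj hij
        by_cases h : i ≤ n <;> by_cases h' : j ≤ n
        · simp only [h, h', if_true] at hij
          exact pi i h j h' hij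
        · simp only [h, h', if_true, if_false] at hij
          exact absurd hij.symm (hcon' i h)
        · simp only [h, h', if_true, if_false] at hij
          exact absurd hij (hcon' j h')
        · omega
      · intro i hi
        by_cases h : i < n
        · have e1 : i ≤ n := h.le
          have e2 : i + 1 ≤ n := h
          simp only [e1, e2, if_true]
          exact pa i h
        · have e0 : i = n := by omega
          subst e0
          have e2 : ¬ (i + 1 ≤ i) := by omega
          simp only [le_refl, e2, if_true, if_false]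
          exact hya
    have := hmax _ this
    omega
  have hn0 : 0 < n := by
    obtain ⟨y, hy⟩ := Set.ncard_eq_one.1 h1
    have hy' : y ∈ {y | G.Adj x0 y ∧ y ∈ X} := by rw [hy]; rfl
    have : Wk G X x0 1 := by
      refine ⟨fun i => if i = 0 then x0 else y, ?_, ?_, ?_, ?_⟩
      · simp
      · intro i _
        by_cases h : i = 0
        · simp only [h, if_true]; exact h0
        · simp only [h, if_false]; exact hy'.2
      · intro i hi j hj hij
        by_cases h : i = 0 <;> by_cases h' : j = 0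
        · omega
        · simp only [h, h', if_true, if_false] at hij
          exact absurd hij hy'.1.ne
        · simp only [h, h', if_true, if_false] at hij
          exact absurd hij.symm hy'.1.ne
        · omega
      · intro i hi
        have : i = 0 := by omega
        subst this
        simp only [if_true]
        exact hy'.1
    exact hmax _ this
  have hA0 : ∀ i < n, ∀ y ∈ X, G.Adj (p i) y → ∃ j ≤ n, y = p j ∧ (i = j + 1 ∨ j = i + 1) := by
    intro i hi y hy hya
    by_cases h : i = 0
    · subst h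
      obtain ⟨z, hz⟩ := Set.ncard_eq_one.1 h1
      have e1 : y ∈ ({z} : Set V) := by rw [← hz]; exact ⟨by rw [← p0]; exact hya, hy⟩
      have e2 : p 1 ∈ ({z} : Set V) := by
        rw [← hz]; exact ⟨by rw [← p0]; exact pa 0 hi, pm 1 hi⟩
      rw [Set.mem_singleton_iff] at e1 e2
      exact ⟨1, hi, by rw [e1, e2], Or.inr rfl⟩
    · obtain ⟨k, rfl⟩ := Nat.exists_eq_succ_of_ne_zero h
      have hne : p k ≠ p (k + 2) := fun e => by
        have := pi k (by omega) (k + 2) (by omega) e
        omega
      have hsub : ({p k, p (k + 2)} : Set V) ⊆ {y | G.Adj (p (k + 1)) y ∧ y ∈ X} := by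
        rintro w (rfl | rfl)
        · exact ⟨(pa k (by omega)).symm, pm k (by omega)⟩
        · exact ⟨pa (k + 1) hi, pm (k + 2) (by omega)⟩
      have heq : ({p k, p (k + 2)} : Set V) = {y | G.Adj (p (k + 1)) y ∧ y ∈ X} := by
        refine Set.eq_of_subset_of_ncard_le hsub ?_ (Set.toFinite _)
        rw [Set.ncard_pair hne]
        exact h2 _ (pm (k + 1) (by omega))
      have hyy : y ∈ ({p k, p (k + 2)} : Set V) := by rw [heq]; exact ⟨hya, hy⟩
      rcases hyy with h' | h'
      · exact ⟨k, by omega, h', Or.inl rfl⟩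
      · exact ⟨k + 2, by omega, h', Or.inr rfl⟩
  have hA : ∀ i ≤ n, ∀ y ∈ X, G.Adj (p i) y → ∃ j ≤ n, y = p j ∧ (i = j + 1 ∨ j = i + 1) := by
    intro i hi y hy hya
    by_cases h : i < n
    · exact hA0 i h y hy hya
    · have e0 : i = n := by omega
      subst e0
      obtain ⟨j, hj, rfl⟩ := hext y hy hya
      have hji : j ≠ i := fun e => by subst e; exact hya.ne rfl
      obtain ⟨k, hk, e, hk'⟩ := hA0 j (by omega) (p i) (pm i hi) hya.symm
      have := pi i hi k hk e
      exact ⟨j, hj, rfl, by omega⟩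
  refine ⟨n, p, hn0, ⟨pm, ?_, pi, ?_⟩, p0⟩
  · intro x hx
    have hr := hc.2 x0 h0 x hx
    clear hx
    induction hr with
    | refl => exact ⟨0, Nat.zero_le _, p0⟩
    | tail _ e ih =>
      obtain ⟨i, hi, rfl⟩ := ih
      obtain ⟨j, hj, e', -⟩ := hA i hi _ e.2.2 e.1
      exact ⟨j, hj, e'.symm⟩
  · intro i hi j hj
    constructor
    · intro e
      obtain ⟨k, hk, e', hk'⟩ := hA i hi (p j) (pm j hj) e
      have := pi j hj k hk e'
      subst this
      exact hk'
    · rintro (rfl | rfl)
      · exact (pa j (by omega)).symm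
      · exact pa i (by omega)

theorem cy_pth [Finite V0] [Finite V] (h : CY G0 G c) {e : Set V0} (he : G0.IsClique e)
    (h2 : e.ncard = 2) : ∃ (n : ℕ) (p : ℕ → V), 1 < n ∧ Pth G (cel c e) n p ∧
      (∀ i, 0 < i → i < n → c (p i) = e) ∧ (c (p 0)).ncard = 1 ∧ (c (p n)).ncard = 1 := by
  obtain ⟨u, v, huv, rfl⟩ := Set.ncard_eq_two.1 h2
  obtain ⟨xu, hxu, -⟩ := h.vert u
  obtain ⟨xv, hxv, -⟩ := h.vert v
  have hss : ∀ z, c z ⊆ ({u, v} : Set V0) → c z ≠ {u, v} → c z ⊂ {u, v} := fun z h1 h2 =>
    HasSubset.Subset.ssubset_of_ne h1 h2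
  have hun : ({u} : Set V0) ≠ {u, v} := by
    intro e0
    have : v ∈ ({u} : Set V0) := by rw [e0]; right; rfl
    exact huv this.symm
  have hvn : ({v} : Set V0) ≠ {u, v} := by
    intro e0
    have : u ∈ ({v} : Set V0) := by rw [e0]; left; rfl
    exact huv this
  have hxuS : c xu ⊂ ({u, v} : Set V0) := by
    refine hss xu ?_ ?_
    · rw [hxu]; intro w hw; left; exact hw
    · rw [hxu]; exact hun
  have hxvS : c xv ⊆ ({u, v} : Set V0) := by
    rw [hxv]; intro w hw; right; exact hw
  have hconn : Conn G (cel c {u, v}) := (h.cell _ ⟨u, Or.inl rfl⟩ he).1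
  obtain ⟨n, p, hn0, hp, hp0⟩ := pth_of_deg hconn (x0 := xu) hxuS.subset (h.fin _ he h2 xu hxuS)
    (by
      intro x hx
      by_cases hx' : c x = {u, v}
      · exact (h.path _ he h2 x hx').le
      · exact (h.fin _ he h2 x (hss x hx hx')).le.trans (by norm_num))
  have hmid : ∀ i, 0 < i → i < n → c (p i) = {u, v} := by
    intro i hi hin
    by_contra hcon
    have h1 := h.fin _ he h2 (p i) (hss _ (hp.mem i hin.le) hcon)
    obtain ⟨z, hz⟩ := Set.ncard_eq_one.1 h1
    have e1 : p (i - 1) ∈ ({z} : Set V) := by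
      rw [← hz]
      exact ⟨(hp.adj i hin.le (i - 1) (by omega)).2 (by omega), hp.mem _ (by omega)⟩
    have e2 : p (i + 1) ∈ ({z} : Set V) := by
      rw [← hz]
      exact ⟨(hp.adj i hin.le (i + 1) (by omega)).2 (by omega), hp.mem _ (by omega)⟩
    rw [Set.mem_singleton_iff] at e1 e2
    have := hp.inj (i - 1) (by omega) (i + 1) (by omega) (e1.trans e2.symm)
    omega
  obtain ⟨j, hj, hjv⟩ := hp.sur xv hxvS
  have hj0 : j ≠ 0 := by
    rintro rfl
    rw [hp0] at hjv
    rw [hjv, hxv] at hxu
    exact huv (Set.singleton_injective hxu).symm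
  have hjn : j = n := by
    by_contra hcon
    have := hmid j (by omega) (by omega)
    rw [hjv, hxv] at this
    exact hvn this
  subst hjn
  refine ⟨j, p, ?_, hp, hmid, ?_, ?_⟩
  · by_contra hcon
    have h1 : j = 1 := by omega
    subst h1
    have ha : G.Adj (p 0) (p 1) := (hp.adj 0 (by omega) 1 (by omega)).2 (Or.inr rfl)
    rw [hp0, hjv] at ha
    rcases h.cmp _ _ ha with h' | h'
    · rw [hxu, hxv] at h'
      exact huv (h' rfl)
    · rw [hxu, hxv] at h'
      exact huv (h' rfl).symm
  · rw [hp0, hxu]; exact Set.ncard_singleton _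
  · rw [hjv, hxv]; exact Set.ncard_singleton _

theorem cy_interval [Finite V0] [Finite V] (h : CY G0 G c) {e : Set V0} (he : G0.IsClique e)
    (h2 : e.ncard = 2) {x : V} (hx : x ∈ cel c e)
    (hI : ∀ z ∈ pce G (cel c e) l x, (c z).ncard ≠ 1) :
    pce G (cel c e) l x ⊆ opc c e ∧ ∃ y y', y ≠ y' ∧ y ∈ cel c e ∧ y' ∈ cel c e ∧
      l y ≠ l x ∧ l y' ≠ l x ∧
      (∃ z ∈ pce G (cel c e) l x, G.Adj z y) ∧ (∃ z ∈ pce G (cel c e) l x, G.Adj z y') ∧
      ∀ z ∈ pce G (cel c e) l x, ∀ w ∈ cel c e, G.Adj z w →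
        w ∈ pce G (cel c e) l x ∨ w = y ∨ w = y' := by
  obtain ⟨n, p, hn1, hp, hmid, hp0, hpn⟩ := cy_pth h he h2
  obtain ⟨i, hi, rfl⟩ := hp.sur x hx
  have hxI : p i ∈ pce G (cel c e) l (p i) := pce_self hx
  have hi0 : i ≠ 0 := by rintro rfl; exact hI _ hxI hp0
  have hin : i ≠ n := by rintro rfl; exact hI _ hxI hpn
  have hup : ∀ k, i + k ≤ n → (∀ m ≤ k, l (p (i + m)) = l (p i)) →
      p (i + k) ∈ pce G (cel c e) l (p i) := by
    intro k
    induction k with
    | zero => intro _ _; exact hxI
    | succ k ih =>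
      intro hk hl
      have h1 := ih (by omega) (fun m hm => hl m (by omega))
      refine pce_adj h1 (hp.mem _ hk) ?_ ((hp.adj _ (by omega) _ hk).2 (Or.inr (by omega)))
      rw [hl (k + 1) le_rfl, hl k (by omega)]
  have hdn : ∀ k, k ≤ i → (∀ m ≤ k, l (p (i - m)) = l (p i)) →
      p (i - k) ∈ pce G (cel c e) l (p i) := by
    intro k
    induction k with
    | zero => intro _ _; exact hxI
    | succ k ih =>
      intro hk hl
      have h1 := ih (by omega) (fun m hm => hl m (by omega))
      refine pce_adj h1 (hp.mem _ (by omega)) ?_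
        ((hp.adj _ (by omega) _ (by omega)).2 (Or.inl (by omega)))
      rw [hl (k + 1) le_rfl, hl k (by omega)]
  have hex1 : ∃ k, k ≤ i ∧ l (p (i - k)) ≠ l (p i) := by
    by_contra hcon
    have := hdn i le_rfl (fun m hm => by
      by_contra h'
      exact hcon ⟨m, hm, h'⟩)
    rw [Nat.sub_self] at this
    exact hI _ this hp0
  have hex2 : ∃ k, i + k ≤ n ∧ l (p (i + k)) ≠ l (p i) := by
    by_contra hcon
    have := hup (n - i) (by omega) (fun m hm => by
      by_contra h'
      exact hcon ⟨m, by omega, h'⟩)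
    have e0 : i + (n - i) = n := by omega
    rw [e0] at this
    exact hI _ this hpn
  obtain ⟨s, hs, hls, hseg1⟩ : ∃ s, s < i ∧ l (p s) ≠ l (p i) ∧
      ∀ j, s < j → j ≤ i → p j ∈ pce G (cel c e) l (p i) := by
    have hf := Nat.find_spec hex1
    have hm := fun m => @Nat.find_min _ _ hex1 m
    generalize Nat.find hex1 = k1 at hf hm
    have hk1 : k1 ≠ 0 := by
      rintro rfl
      exact hf.2 rfl
    refine ⟨i - k1, by omega, hf.2, fun j hj hji => ?_⟩
    have := hdn (i - j) (by omega) (fun m hm' => by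
      by_contra h'
      exact hm m (by omega) ⟨by omega, h'⟩)
    have e0 : i - (i - j) = j := by omega
    rwa [e0] at this
  obtain ⟨t, ht, htn, hlt, hseg2⟩ : ∃ t, i < t ∧ t ≤ n ∧ l (p t) ≠ l (p i) ∧
      ∀ j, i ≤ j → j < t → p j ∈ pce G (cel c e) l (p i) := by
    have hf := Nat.find_spec hex2
    have hm := fun m => @Nat.find_min _ _ hex2 m
    generalize Nat.find hex2 = k2 at hf hm
    have hk2 : k2 ≠ 0 := by
      rintro rfl
      exact hf.2 rfl
    refine ⟨i + k2, by omega, hf.1, hf.2, fun j hj hji => ?_⟩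
    have := hup (j - i) (by omega) (fun m hm' => by
      by_contra h'
      exact hm m (by omega) ⟨by omega, h'⟩)
    have e0 : i + (j - i) = j := by omega
    rwa [e0] at this
  have hseg : ∀ j, s < j → j < t → p j ∈ pce G (cel c e) l (p i) := by
    intro j h1 h2'
    by_cases h3 : j ≤ i
    · exact hseg1 j h1 h3
    · exact hseg2 j (by omega) h2'
  have hrev : ∀ z ∈ pce G (cel c e) l (p i), ∃ j, s < j ∧ j < t ∧ z = p j := by
    intro z hz
    have hr := hz.1
    clear hz
    induction hr with
    | refl => exact ⟨i, hs, ht, rfl⟩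
    | tail _ e' ih =>
      obtain ⟨j, hj1, hj2, rfl⟩ := ih
      obtain ⟨j', hj', rfl⟩ := hp.sur _ e'.2.2.1
      have ha := (hp.adj j (by omega) j' hj').1 e'.1
      have hl' : l (p j') = l (p i) := e'.2.2.2
      have h1 : j' ≠ s := by rintro rfl; exact hls hl'
      have h2' : j' ≠ t := by rintro rfl; exact hlt hl'
      exact ⟨j', by omega, by omega, rfl⟩
  refine ⟨?_, p s, p t, ?_, hp.mem s (by omega), hp.mem t htn, hls, hlt, ?_, ?_, ?_⟩
  · intro z hz
    obtain ⟨j, hj1, hj2, rfl⟩ := hrev z hz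
    exact hmid j (by omega) (by omega)
  · intro e0
    have := hp.inj s (by omega) t htn e0
    omega
  · exact ⟨p (s + 1), hseg _ (by omega) (by omega),
      (hp.adj _ (by omega) _ (by omega)).2 (Or.inl rfl)⟩
  · exact ⟨p (t - 1), hseg _ (by omega) (by omega),
      (hp.adj _ (by omega) _ htn).2 (Or.inr (by omega))⟩
  · intro z hz w hw hzw
    obtain ⟨j, hj1, hj2, rfl⟩ := hrev z hz
    obtain ⟨j', hj', rfl⟩ := hp.sur w hw
    have ha := (hp.adj j (by omega) j' hj').1 hzw
    by_cases h1 : j' = s
    · right; left; rw [h1]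
    by_cases h3 : j' = t
    · right; right; rw [h3]
    left
    exact hseg j' (by omega) (by omega)

end MOT
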