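import Pool.Agent.MOT.TgBas

/-!
# MOT: THIN, the pieces of a connected set with `H^1 = 0` form a tree (helper81)

`PcT G X l` = the pieces of `X`, `pgr` = the graph of adjacent pieces.

Connected: `X` is connected; consecutive vertices of a path in `X` lie in the same piece (same label,
`pce_adj`) or in adjacent pieces.

Acyclic (`SimpleGraph.isAcyclic_iff_forall_edge_isBridge` or the version with `Adj`): let `S0`, `T0` be
adjacent pieces.  Put `a x y = 1` if `x`, `y` are adjacent in `X` and one is in `S0`, the other in `T0`, and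
`a x y = 0` otherwise.  `a ∈ Z1 G X`: the three vertices of a triangle in `X` have at most two different
labels (`l` is 1-Lipschitz: three different labels of pairwise adjacent vertices would differ by 2),
two vertices of a triangle with the same label are in the same piece; so a triangle meets at most two
pieces, and the cocycle condition holds.  `HZ G X`: `a x y = f x + f y`.  `f` is constant on every piece
(inside a piece `a = 0`), so it gives `F : PcT → ZMod 2` with `F S = F T` for all adjacent pairs
`{S, T} ≠ {S0, T0}` and `F S0 ≠ F T0`.  So `S0` and `T0` are not reachable from each other after deleting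
the edge: it is a bridge.
-/

open Classical

noncomputable section

namespace MOT

variable {V : Type}

/-- the pieces of `X` -/
def PcT (G : SimpleGraph V) (X : Set V) (l : V → ℕ) : Type :=
  {S : Set V // ∃ x ∈ X, S = pce G X l x}

instance [Finite V] (G : SimpleGraph V) (X : Set V) (l : V → ℕ) : Finite (PcT G X l) :=
  inferInstanceAs (Finite {S : Set V // ∃ x ∈ X, S = pce G X l x})

/-- the piece of a vertex as an element of `PcT` -/
def mkP (G : SimpleGraph V) (X : Set V) (l : V → ℕ) (x : V) (hx : x ∈ X) : PcT G X l :=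
  ⟨pce G X l x, x, hx, rfl⟩

/-- graph of adjacent pieces -/
def pgr (G : SimpleGraph V) (X : Set V) (l : V → ℕ) : SimpleGraph (PcT G X l) where
  Adj S T := S ≠ T ∧ ∃ x ∈ S.1, ∃ y ∈ T.1, G.Adj x y
  symm := ⟨fun _ _ h => ⟨h.1.symm, by obtain ⟨x, hx, y, hy, e⟩ := h.2; exact ⟨y, hy, x, hx, e.symm⟩⟩⟩
  loopless := ⟨fun _ h => h.1 rfl⟩

theorem mkP_eq {G : SimpleGraph V} {X : Set V} {l : V → ℕ} {x y : V} (hx : x ∈ X) (hy : y ∈ X) :
    mkP G X l x hx = mkP G X l y hy ↔ y ∈ pce G X l x := by
  constructor
  · intro h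
    have h1 : pce G X l x = pce G X l y := congrArg Subtype.val h
    rw [h1]
    exact pce_self hy
  · intro h
    exact Subtype.ext (pce_eq h).symm

theorem pgr_adj {G : SimpleGraph V} {X : Set V} {l : V → ℕ} {x y : V} (hx : x ∈ X) (hy : y ∈ X) :
    (pgr G X l).Adj (mkP G X l x hx) (mkP G X l y hy) ↔ NbP G X l x y := by
  constructor
  · rintro ⟨hne, x', hx', y', hy', e⟩
    refine ⟨?_, x', hx', y', hy', e⟩
    intro hl
    apply hne
    have h1 : x' ∈ pce G X l x := hx'
    have h2 : y' ∈ pce G X l y := hy'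
    have h3 : y' ∈ pce G X l x :=
      pce_adj h1 (pce_sub h2) ((pce_lab h2).trans (hl.symm.trans (pce_lab h1).symm)) e
    refine (mkP_eq hx hy).2 ?_
    exact pce_trans h3 (pce_symm h2)
  · rintro ⟨hl, x', hx', y', hy', e⟩
    refine ⟨?_, x', hx', y', hy', e⟩
    intro h
    exact hl (pce_lab ((mkP_eq hx hy).1 h)).symm

private theorem tgtra_conn {G : SimpleGraph V} {X : Set V} {l : V → ℕ} (hc : Conn G X) :
    (pgr G X l).Connected := by
  obtain ⟨x0, hx0⟩ := hc.1
  have : Nonempty (PcT G X l) := ⟨mkP G X l x0 hx0⟩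
  refine SimpleGraph.Connected.mk ?_
  rintro ⟨S, x, hx, rfl⟩ ⟨T, y, hy, rfl⟩
  show (pgr G X l).Reachable (mkP G X l x hx) (mkP G X l y hy)
  have key : ∀ z, Relation.ReflTransGen (EIn G X) x z → ∀ hz : z ∈ X,
      (pgr G X l).Reachable (mkP G X l x hx) (mkP G X l z hz) := by
    intro z r
    induction r with
    | refl => intro hz; exact SimpleGraph.Reachable.refl _
    | @tail b c' _ e ih =>
      intro hz
      refine (ih e.2.1).trans ?_
      by_cases hl : l b = l c'
      · have h1 : mkP G X l b e.2.1 = mkP G X l c' hz :=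
          (mkP_eq e.2.1 hz).2 (pce_adj (pce_self e.2.1) hz hl.symm e.1)
        rw [h1]
      · exact SimpleGraph.Adj.reachable ((pgr_adj e.2.1 hz).2 (nbP_of_adj e.2.1 hz e.1 hl))
  exact key y (hc.2 x hx y hy) hy

/-- indicator -/
private def tgtra_i (S : Set V) (x : V) : ZMod 2 := if x ∈ S then 1 else 0

private theorem tgtra_i_adj {G : SimpleGraph V} {X : Set V} {l : V → ℕ} {x0 x y : V}
    (e : EIn G X x y) (hl : l x = l y) :
    tgtra_i (pce G X l x0) x = tgtra_i (pce G X l x0) y := by
  unfold tgtra_i
  have h1 : x ∈ pce G X l x0 ↔ y ∈ pce G X l x0 :=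
    ⟨fun h => pce_adj h e.2.2 hl.symm e.1, fun h => pce_adj h e.2.1 hl e.1.symm⟩
  simp only [h1]

private theorem tgtra_acyc {G : SimpleGraph V} {X : Set V} {l : V → ℕ}
    (hz : HZ G X) (hl : ∀ x y, EIn G X x y → l x ≤ l y + 1) {x0 y0 : V} (hx0 : x0 ∈ X)
    (hy0 : y0 ∈ X) (hn : NbP G X l x0 y0) :
    ∃ F : PcT G X l → ZMod 2, F (mkP G X l x0 hx0) ≠ F (mkP G X l y0 hy0) ∧
      ∀ S T, (pgr G X l).Adj S T → s(S, T) ≠ s(mkP G X l x0 hx0, mkP G X l y0 hy0) →
        F S = F T := by
  set s : V → ZMod 2 := tgtra_i (pce G X l x0) with hs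
  set t : V → ZMod 2 := tgtra_i (pce G X l y0) with ht
  have hst : ∀ x, s x * t x = 0 := by
    intro x
    rw [hs, ht]
    unfold tgtra_i
    by_cases h1 : x ∈ pce G X l x0
    · by_cases h2 : x ∈ pce G X l y0
      · exact absurd ((pce_lab h1).symm.trans (pce_lab h2)) hn.1
      · rw [if_neg h2, mul_zero]
    · rw [if_neg h1, zero_mul]
  have hsa : ∀ x y, EIn G X x y → l x = l y → s x = s y ∧ t x = t y := by
    intro x y e h
    exact ⟨tgtra_i_adj e h, tgtra_i_adj e h⟩
  set a : V → V → ZMod 2 := fun x y => if EIn G X x y then s x * t y + t x * s y else 0 with ha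
  have haz : a ∈ Z1 G X := by
    refine mem_Z1.2 ⟨fun x y h => if_neg h, fun x y => ?_, fun x y z h1 h2 h3 => ?_⟩
    · by_cases e : EIn G X x y
      · have e' : EIn G X y x := e.symm
        simp only [ha, if_pos e, if_pos e']
        ring
      · have e' : ¬ EIn G X y x := fun h => e h.symm
        simp only [ha, if_neg e, if_neg e']
    · simp only [ha, if_pos h1, if_pos h2, if_pos h3]
      have q : ∀ r : ZMod 2, r + r = 0 := two_add
      have l1 := hl x y h1
      have l1' := hl y x h1.symm
      have l2 := hl y z h2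
      have l2' := hl z y h2.symm
      have l3 := hl x z h3
      have l3' := hl z x h3.symm
      by_cases hxy : l x = l y
      · obtain ⟨e1, e2⟩ := hsa x y h1 hxy
        rw [e1, e2]
        have := hst y
        linear_combination 2 * this
      · by_cases hyz : l y = l z
        · obtain ⟨e1, e2⟩ := hsa y z h2 hyz
          rw [e1, e2]
          have := hst z
          linear_combination 2 * this
        · have hxz : l x = l z := by omega
          obtain ⟨e1, e2⟩ := hsa x z h3 hxz
          rw [e1, e2]
          have h4 := hst z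
          have h5 := q (s z * t y + t z * s y)
          linear_combination h5 - 2 * h4
  obtain ⟨f, hf⟩ := hz a haz
  have hsame : ∀ x y, y ∈ pce G X l x → f x = f y := by
    intro x y h
    have h' : Relation.ReflTransGen (EIn G (lev X l (l x))) x y ∧ y ∈ lev X l (l x) := h
    refine rtg_const ?_ h'.1
    intro u v e
    have e1 : EIn G X u v := ⟨e.1, e.2.1.1, e.2.2.1⟩
    have e2 : l u = l v := e.2.1.2.trans e.2.2.2.symm
    have h1 := hf u v e1
    obtain ⟨e3, e4⟩ := hsa u v e1 e2
    have h2 : a u v = 0 := by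
      simp only [ha, if_pos e1, e3, e4]
      have := hst v
      linear_combination 2 * this
    rw [h2] at h1
    exact (z2_eq _ _).1 h1.symm
  refine ⟨fun S => f (Classical.choose S.2), ?_, ?_⟩
  · have hc1 : ∀ x (hx : x ∈ X), f (Classical.choose (mkP G X l x hx).2) = f x := by
      intro x hx
      have h1 := Classical.choose_spec (mkP G X l x hx).2
      have h2 : pce G X l x = pce G X l (Classical.choose (mkP G X l x hx).2) := h1.2
      refine hsame _ _ ?_
      rw [← h2]
      exact pce_self hx
    show f (Classical.choose (mkP G X l x0 hx0).2) ≠ f (Classical.choose (mkP G X l y0 hy0).2)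
    rw [hc1, hc1]
    obtain ⟨hne, x', hx', y', hy', e⟩ := hn
    rw [hsame x0 x' hx', hsame y0 y' hy']
    intro h
    have e1 : EIn G X x' y' := ⟨e, pce_sub hx', pce_sub hy'⟩
    have h1 := hf x' y' e1
    rw [h, two_add] at h1
    have s1 : s x' = 1 := if_pos hx'
    have t1 : t y' = 1 := if_pos hy'
    have t0 : t x' = 0 := by
      have := hst x'
      rwa [s1, one_mul] at this
    simp only [ha, if_pos e1, s1, t1, t0, mul_one, zero_mul, add_zero] at h1
    exact one_ne_zero h1
  · rintro ⟨S, x, hx, rfl⟩ ⟨T, y, hy, rfl⟩ hadj hne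
    have hc1 : ∀ x (hx : x ∈ X), f (Classical.choose (mkP G X l x hx).2) = f x := by
      intro x hx
      have h1 := Classical.choose_spec (mkP G X l x hx).2
      have h2 : pce G X l x = pce G X l (Classical.choose (mkP G X l x hx).2) := h1.2
      refine hsame _ _ ?_
      rw [← h2]
      exact pce_self hx
    show f (Classical.choose (mkP G X l x hx).2) = f (Classical.choose (mkP G X l y hy).2)
    rw [hc1, hc1]
    obtain ⟨hne2, x', hx', y', hy', e⟩ := hadj
    have hx1 : x' ∈ pce G X l x := hx'
    have hy1 : y' ∈ pce G X l y := hy'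
    rw [hsame x x' hx1, hsame y y' hy1]
    have e1 : EIn G X x' y' := ⟨e, pce_sub hx1, pce_sub hy1⟩
    have h1 := hf x' y' e1
    have h2 : a x' y' = 0 := by
      simp only [ha, if_pos e1]
      by_cases c1 : x' ∈ pce G X l x0 ∧ y' ∈ pce G X l y0
      · exfalso
        apply hne
        have g1 : mkP G X l x hx = mkP G X l x0 hx0 :=
          ((mkP_eq hx0 hx).2 (pce_trans c1.1 (pce_symm hx1))).symm
        have g2 : mkP G X l y hy = mkP G X l y0 hy0 :=
          ((mkP_eq hy0 hy).2 (pce_trans c1.2 (pce_symm hy1))).symm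
        show s(mkP G X l x hx, mkP G X l y hy) = _
        rw [g1, g2]
      · by_cases c2 : x' ∈ pce G X l y0 ∧ y' ∈ pce G X l x0
        · exfalso
          apply hne
          have g1 : mkP G X l x hx = mkP G X l y0 hy0 :=
            ((mkP_eq hy0 hx).2 (pce_trans c2.1 (pce_symm hx1))).symm
          have g2 : mkP G X l y hy = mkP G X l x0 hx0 :=
            ((mkP_eq hx0 hy).2 (pce_trans c2.2 (pce_symm hy1))).symm
          show s(mkP G X l x hx, mkP G X l y hy) = _
          rw [g1, g2, Sym2.eq_swap]
        · have k1 : s x' * t y' = 0 := by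
            show tgtra_i (pce G X l x0) x' * tgtra_i (pce G X l y0) y' = 0
            unfold tgtra_i
            by_cases d1 : x' ∈ pce G X l x0
            · have d2 : ¬ y' ∈ pce G X l y0 := fun d => c1 ⟨d1, d⟩
              rw [if_neg d2, mul_zero]
            · rw [if_neg d1, zero_mul]
          have k2 : t x' * s y' = 0 := by
            show tgtra_i (pce G X l y0) x' * tgtra_i (pce G X l x0) y' = 0
            unfold tgtra_i
            by_cases d1 : x' ∈ pce G X l y0
            · have d2 : ¬ y' ∈ pce G X l x0 := fun d => c2 ⟨d1, d⟩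
              rw [if_neg d2, mul_zero]
            · rw [if_neg d1, zero_mul]
          rw [k1, k2, add_zero]
    rw [h2] at h1
    exact (z2_eq _ _).1 h1.symm

theorem pgr_tree [Finite V] {G : SimpleGraph V} {X : Set V} {l : V → ℕ} (hc : Conn G X)
    (hz : HZ G X) (hl : ∀ x y, EIn G X x y → l x ≤ l y + 1) : (pgr G X l).IsTree := by
  refine ⟨tgtra_conn hc, ?_⟩
  rw [SimpleGraph.isAcyclic_iff_forall_adj_isBridge]
  rintro ⟨S, x, hx, rfl⟩ ⟨T, y, hy, rfl⟩ hadj
  have hadj' : (pgr G X l).Adj (mkP G X l x hx) (mkP G X l y hy) := hadj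
  obtain ⟨F, hF1, hF2⟩ := tgtra_acyc hz hl hx hy ((pgr_adj hx hy).1 hadj')
  show (pgr G X l).IsBridge s(mkP G X l x hx, mkP G X l y hy)
  rw [SimpleGraph.isBridge_iff]
  have key : ∀ A B : PcT G X l,
      ((pgr G X l).deleteEdges {s(mkP G X l x hx, mkP G X l y hy)}).Walk A B → F A = F B := by
    intro A B w
    induction w with
    | nil => rfl
    | cons e _ ih =>
      rw [SimpleGraph.deleteEdges_adj] at e
      exact (hF2 _ _ e.1 (fun h => e.2 (Set.mem_singleton_iff.2 h))).trans ih
  rintro ⟨w⟩
  exact hF1 (key _ _ w)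

end MOT
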