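import Pool.Agent.MOT.TgLf
import Pool.Agent.MOT.MV

/-!
# MOT: THIN, level sets are connected; ends of intervals of a good level (helper81)

`hit`: a path in the connected set `sk c 3` from `x0` (label `0`) to `x1` (label `m + 1`) changes the label
by at most 1 in every step.  So for `j ≤ m` there are adjacent `x`, `y` in `sk c 3` with labels `j`, `j + 1`
(otherwise `{l ≤ j}` would be closed under adjacency).

`lev_conn`: `mv_conn_inter` with `A = low (sk c 3) l j`, `B = upp (sk c 3) l j`: `A ∪ B = sk c 3` has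
`HZ` (`CY.two`), `A ∩ B = lev (sk c 3) l j` is nonempty (`hit`, or `x0` for `j = 0`, resp. `hit` with `j - 1`),
`A \ B = {l < j}` and `B \ A = {l > j}` are not adjacent (`hl`).

`com_tri`: two adjacent vertices of `sk c 3` lie in a common closed triangle: the larger carrier is a
clique with at most 3 elements, contained in a tetrahedron (`Pur.up`), so in a triangle.

`edge_ends`: `I = pce G (cel c e) l x` has no vertex with `(c z).ncard = 1` since these have labels `≠ j`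
(`GoodL`).  `cy_interval` gives `y`, `y'` with `l y ≠ j`, `l y' ≠ j`.  A neighbour piece of `I` in
`cel c e` contains a neighbour of `I` outside `I`, i.e. `y` or `y'`.  For a triangle `f ⊇ e`: if `y'` were in
`pce G (cel c f) l y` then `l y' = l y`, `= j ± 1` by `hl`, and `Fing G0 G c l (l y) j e f I y y'`
contradicts `hno`.  `NbP G (cel c f) l x y` and `NbP G (cel c f) l x y'` (`NbP.mono`), and by `GoodL` (`Two`)
every neighbour piece is one of two, which must be those of `y` and `y'`.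
-/

open Classical

noncomputable section

namespace MOT

variable {V0 V : Type} {G0 : SimpleGraph V0} {G : SimpleGraph V} {c : V → Set V0} {l : V → ℕ}

theorem hit (h : CY G0 G c) [Finite V0] {m : ℕ}
    (hl : ∀ x y, EIn G (sk c 3) x y → l x ≤ l y + 1)
    {x0 x1 : V} (hx0 : x0 ∈ sk c 3) (h0 : l x0 = 0) (hx1 : x1 ∈ sk c 3)
    (h1 : l x1 = m + 1) {j : ℕ} (hj : j ≤ m) :
    ∃ x y, EIn G (sk c 3) x y ∧ l x = j ∧ l y = j + 1 := by
  by_contra hcon
  have key : ∀ z, Relation.ReflTransGen (EIn G (sk c 3)) x0 z → l z ≤ j := by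
    intro z hz
    induction hz with
    | refl => omega
    | @tail u v _ e ih =>
      by_contra hv
      have h2 := hl v u e.symm
      exact hcon ⟨u, v, e, by omega, by omega⟩
  have h3 := key x1 (h.two.1.2 x0 hx0 x1 hx1)
  omega

theorem lev_conn (h : CY G0 G c) [Finite V0] {m : ℕ}
    (hl : ∀ x y, EIn G (sk c 3) x y → l x ≤ l y + 1)
    (hlow : ∀ i, Conn G (low (sk c 3) l i)) (hupp : ∀ i, i ≤ m + 1 → Conn G (upp (sk c 3) l i))
    {x0 x1 : V} (hx0 : x0 ∈ sk c 3) (h0 : l x0 = 0) (hx1 : x1 ∈ sk c 3)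
    (h1 : l x1 = m + 1) {j : ℕ} (hj : j ≤ m + 1) : Conn G (lev (sk c 3) l j) := by
  have eU : low (sk c 3) l j ∪ upp (sk c 3) l j = sk c 3 := by
    ext z
    simp only [low, upp, Set.mem_union, Set.mem_ofPred_eq]
    constructor
    · rintro (h2 | h2)
      · exact h2.1
      · exact h2.1
    · intro h2
      rcases le_total (l z) j with h3 | h3
      · exact Or.inl ⟨h2, h3⟩
      · exact Or.inr ⟨h2, h3⟩
  have eI : low (sk c 3) l j ∩ upp (sk c 3) l j = lev (sk c 3) l j := by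
    ext z
    simp only [low, upp, lev, Set.mem_inter_iff, Set.mem_ofPred_eq]
    constructor
    · rintro ⟨⟨h2, h3⟩, -, h4⟩
      exact ⟨h2, le_antisymm h3 h4⟩
    · rintro ⟨h2, h3⟩
      exact ⟨⟨h2, h3.le⟩, h2, h3.ge⟩
  rw [← eI]
  refine mv_conn_inter ?_ ?_ (hlow j) (hupp j hj) ?_
  · rintro u ⟨⟨hu, hu1⟩, hu2⟩ v ⟨⟨hv, hv1⟩, hv2⟩ e
    have h2 : ¬ j ≤ l u := fun h3 => hu2 ⟨hu, h3⟩
    have h3 : ¬ l v ≤ j := fun h3 => hv2 ⟨hv, h3⟩
    have h4 := hl v u ⟨e.symm, hv, hu⟩
    omega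
  · rw [eU]
    exact h.two.2
  · rw [eI]
    rcases Nat.eq_zero_or_pos j with h2 | h2
    · exact ⟨x0, hx0, by rw [h0, h2]⟩
    · obtain ⟨u, v, e, -, hv⟩ := hit h hl hx0 h0 hx1 h1 (j := j - 1) (by omega)
      exact ⟨v, e.2.2, by omega⟩

private theorem in_tri_aux [Finite V0] (hp : Pur G0) {t : Set V0} (ht : t.Nonempty)
    (hc : G0.IsClique t) (h3 : t.ncard ≤ 3) :
    ∃ f : Set V0, G0.IsClique f ∧ f.ncard = 3 ∧ t ⊆ f := by
  obtain ⟨D, hD, hD4, htD⟩ := hp.up t ht hc
  obtain ⟨f, hf1, hf2, hf3⟩ := Set.exists_subsuperset_card_eq htD h3 (by omega)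
  exact ⟨f, hD.subset hf2, hf3, hf1⟩

theorem com_tri [Finite V0] (h : CY G0 G c) (hp : Pur G0) {x y : V} (e : EIn G (sk c 3) x y) :
    ∃ f : Set V0, G0.IsClique f ∧ f.ncard = 3 ∧ x ∈ cel c f ∧ y ∈ cel c f := by
  rcases h.cmp x y e.1 with h1 | h1
  · obtain ⟨f, hf, hf3, hs⟩ := in_tri_aux hp (h.clq y).1 (h.clq y).2 e.2.2
    exact ⟨f, hf, hf3, h1.trans hs, hs⟩
  · obtain ⟨f, hf, hf3, hs⟩ := in_tri_aux hp (h.clq x).1 (h.clq x).2 e.2.1
    exact ⟨f, hf, hf3, hs, h1.trans hs⟩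

/-- every clique with at most three elements lies in a triangle -/
theorem in_tri [Finite V0] (hp : Pur G0) {t : Set V0} (ht : t.Nonempty) (hc : G0.IsClique t)
    (h3 : t.ncard ≤ 3) : ∃ f : Set V0, G0.IsClique f ∧ f.ncard = 3 ∧ t ⊆ f :=
  in_tri_aux hp ht hc h3

theorem edge_ends [Finite V0] [Finite V] (h : CY G0 G c)
    (hl : ∀ x y, EIn G (sk c 3) x y → l x ≤ l y + 1) (hno : NoF G0 G c l) {j : ℕ}
    (hg : GoodL G0 G c l j) {e : Set V0} (he : G0.IsClique e) (h2 : e.ncard = 2) {x : V}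
    (hx : x ∈ cel c e) (hxj : l x = j) :
    ∃ y y', y ∈ cel c e ∧ y' ∈ cel c e ∧ NbP G (cel c e) l x y ∧ NbP G (cel c e) l x y' ∧
      (∀ w, NbP G (cel c e) l x w →
        w ∈ pce G (cel c e) l y ∨ w ∈ pce G (cel c e) l y') ∧
      ∀ f : Set V0, G0.IsClique f → f.ncard = 3 → e ⊆ f →
        y' ∉ pce G (cel c f) l y ∧ ∀ w, NbP G (cel c f) l x w →
          w ∈ pce G (cel c f) l y ∨ w ∈ pce G (cel c f) l y' := by
  have hsk : cel c e ⊆ sk c 3 := cel_sk (by omega)
  have hI : ∀ z ∈ pce G (cel c e) l x, (c z).ncard ≠ 1 := fun z hz h1 =>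
    hg.1 z h1 ((pce_lab hz).trans hxj)
  obtain ⟨hio, y, y', hne, hy, hy', hly, hly', hya, hya', hnb⟩ := cy_interval h he h2 hx hI
  have mk : ∀ w, w ∈ cel c e → l w ≠ l x → (∃ z ∈ pce G (cel c e) l x, G.Adj z w) →
      NbP G (cel c e) l x w := by
    rintro w hw hlw ⟨z, hz, hzw⟩
    exact ⟨hlw.symm, z, hz, w, pce_self hw, hzw⟩
  have k1 := mk y hy hly hya
  have k2 := mk y' hy' hly' hya'
  refine ⟨y, y', hy, hy', k1, k2, ?_, ?_⟩
  · rintro w ⟨hlw, x', hx', w', hw', e'⟩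
    rcases hnb x' hx' w' (pce_sub hw') e' with h1 | h1 | h1
    · exact absurd ((pce_lab h1).symm.trans (pce_lab hw')) hlw
    · subst h1
      exact Or.inl (pce_symm hw')
    · subst h1
      exact Or.inr (pce_symm hw')
  · intro f hf h3 hef
    have hce : cel c e ⊆ cel c f := fun z hz => Set.Subset.trans hz hef
    have hnot : y' ∉ pce G (cel c f) l y := by
      intro hjn
      have hab : l y = j + 1 ∨ j = l y + 1 := by
        have h4 := k1.lip fun u v e' => hl u v (e'.mono hsk)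
        rwa [hxj] at h4
      exact hno (l y) j e f (pce G (cel c e) l x) y y'
        ⟨he, h2, hf, h3, hef, pce_Conn hx, hio, fun z hz => (pce_lab hz).trans hxj, hne, hy, hy',
          hya, hya', hnb, rfl, pce_lab hjn, hab, hjn⟩
    refine ⟨hnot, ?_⟩
    obtain ⟨p, q, -, -, -, hpq⟩ := hg.2 f hf h3 x (hce hx) hxj
    intro w hw
    rcases hpq y (k1.mono hce) with a1 | a1 <;> rcases hpq y' (k2.mono hce) with a2 | a2
    · exact absurd (pce_trans (pce_symm a1) a2) hnot
    · rcases hpq w hw with a3 | a3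
      · exact Or.inl (pce_trans (pce_symm a1) a3)
      · exact Or.inr (pce_trans (pce_symm a2) a3)
    · rcases hpq w hw with a3 | a3
      · exact Or.inr (pce_trans (pce_symm a2) a3)
      · exact Or.inl (pce_trans (pce_symm a1) a3)
    · exact absurd (pce_trans (pce_symm a1) a2) hnot

end MOT
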