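import Pool.Agent.MOT.TgTya

/-!
# MOT: THIN, good levels are product levels (helper81)

Fix `b` with `b + 1 = j` or `b = j + 1`.  For `x` with label `j` in `sk c 3` and a triangle `f` with
`x ∈ cel c f` let `D x f` say that the piece of `x` in `cel c f` has a neighbour piece with label `b`.

(1) `D x f` does not depend on `f`: if `x` lies in `cel c f` and in `cel c f'`, `f ≠ f'`, then `c x ⊆ f ∩ f'` has
at most 2 elements, and not 1 (`GoodL`), so `e = c x` is an edge in `f ∩ f'`; by `edge_ends` the neighbour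
pieces of `x` in `cel c f` and those in `cel c f'` are the pieces of the same two vertices `y`, `y'`, so
both statements say `l y = b ∨ l y' = b`.
(2) `D` is the same for adjacent `x`, `x'` with label `j`: they lie in a common `cel c f` (`com_tri`), in the
same piece.  As `lev (sk c 3) l j` is connected, `D` holds for all `x` with label `j` or for none.
(3) `hit` gives adjacent `x`, `y` in `sk c 3` with `l x = j`, `l y = b`; they lie in a common `cel c f`: `D`
holds for `x`.  So `D` always holds.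

`good_face`: for both `b` there is a neighbour piece with label `b`; there are exactly two neighbour
pieces (`Two`), so exactly one has label `j - 1` and exactly one has label `j + 1`.
`good_prd`: triangles: `good_face`.  Edges `e`: take a triangle `f ⊇ e` (`in_tri`) and `y`, `y'` from
`edge_ends`: in `cel c f` the pieces of `y`, `y'` are the two neighbour pieces, so one label is `j - 1` and the
other one `j + 1`; in `cel c e` the neighbour pieces are those of `y` and `y'`.
-/

open Classical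

noncomputable section

namespace MOT

variable {V0 V : Type} {G0 : SimpleGraph V0} {G : SimpleGraph V} {c : V → Set V0} {l : V → ℕ}

/-- the piece of `x` in `cel c f` has a neighbour piece with label `b` -/
private def Dp (G : SimpleGraph V) (c : V → Set V0) (l : V → ℕ) (b : ℕ) (x : V) (f : Set V0) :
    Prop := ∃ w, NbP G (cel c f) l x w ∧ l w = b

private theorem cel_mono' {e f : Set V0} (h : e ⊆ f) : cel c e ⊆ cel c f :=
  fun _ hx => Set.Subset.trans hx h

/-- `Dp` does not depend on the triangle -/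
private theorem dp_face [Finite V0] [Finite V] (h : CY G0 G c)
    (hl : ∀ x y, EIn G (sk c 3) x y → l x ≤ l y + 1) (hno : NoF G0 G c l) {j : ℕ}
    (hg : GoodL G0 G c l j) {b : ℕ} {x : V} (hxj : l x = j) {f f' : Set V0}
    (hf : G0.IsClique f) (h3 : f.ncard = 3) (hf' : G0.IsClique f') (h3' : f'.ncard = 3)
    (hx : x ∈ cel c f) (hx' : x ∈ cel c f') (hD : Dp G c l b x f) : Dp G c l b x f' := by
  by_cases hff : f = f'
  · rw [← hff]; exact hD
  have hcx : c x ⊆ f ∩ f' := Set.subset_inter hx hx'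
  have h1 : (f ∩ f').ncard ≤ 2 := by
    by_contra h2
    have h4 : f.ncard ≤ (f ∩ f').ncard := by omega
    have h5 : f ∩ f' = f := Set.eq_of_subset_of_ncard_le Set.inter_subset_left h4 (Set.toFinite _)
    have h6 : f ⊆ f' := Set.inter_eq_left.1 h5
    exact hff (Set.eq_of_subset_of_ncard_le h6 (by omega) (Set.toFinite _))
  have h2 : (c x).ncard ≤ 2 := (Set.ncard_le_ncard hcx (Set.toFinite _)).trans h1
  have h4 : (c x).ncard ≠ 1 := fun h4 => hg.1 x h4 hxj
  have h5 : 0 < (c x).ncard := (Set.ncard_pos (Set.toFinite _)).2 (h.clq x).1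
  have h6 : (c x).ncard = 2 := by omega
  obtain ⟨y, y', -, -, ny, ny', -, hall⟩ := edge_ends h hl hno hg (h.clq x).2 h6
    (show x ∈ cel c (c x) from Set.Subset.rfl) hxj
  obtain ⟨w, hw, hwb⟩ := hD
  rcases (hall f hf h3 hx).2 w hw with h7 | h7
  · exact ⟨y, ny.mono (cel_mono' hx'), by rw [← pce_lab h7]; exact hwb⟩
  · exact ⟨y', ny'.mono (cel_mono' hx'), by rw [← pce_lab h7]; exact hwb⟩

private theorem dp_adj [Finite V0] [Finite V] (h : CY G0 G c) (hp : Pur G0)
    (hl : ∀ x y, EIn G (sk c 3) x y → l x ≤ l y + 1) (hno : NoF G0 G c l) {j : ℕ}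
    (hg : GoodL G0 G c l j) {b : ℕ} {x x' : V} (e : EIn G (lev (sk c 3) l j) x x')
    (hD : ∀ f : Set V0, G0.IsClique f → f.ncard = 3 → x ∈ cel c f → Dp G c l b x f) :
    ∀ f : Set V0, G0.IsClique f → f.ncard = 3 → x' ∈ cel c f → Dp G c l b x' f := by
  intro f hf h3 hx'
  obtain ⟨f0, hf0, h30, hx0, hx0'⟩ := com_tri h hp (⟨e.1, e.2.1.1, e.2.2.1⟩ : EIn G (sk c 3) x x')
  obtain ⟨w, hw, hwb⟩ := hD f0 hf0 h30 hx0
  have h1 : x' ∈ pce G (cel c f0) l x :=
    pce_adj (pce_self hx0) hx0' (e.2.2.2.trans e.2.1.2.symm) e.1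
  have h2 : Dp G c l b x' f0 := ⟨w, hw.congr h1 (pce_self hw.right), hwb⟩
  exact dp_face h hl hno hg e.2.2.2 hf0 h30 hf h3 hx0' hx' h2

private theorem dp_all [Finite V0] [Finite V] (h : CY G0 G c) (hp : Pur G0) {m : ℕ}
    (hl : ∀ x y, EIn G (sk c 3) x y → l x ≤ l y + 1)
    (hlow : ∀ i, Conn G (low (sk c 3) l i)) (hupp : ∀ i, i ≤ m + 1 → Conn G (upp (sk c 3) l i))
    {x0 x1 : V} (hx0 : x0 ∈ sk c 3) (h0 : l x0 = 0) (hx1 : x1 ∈ sk c 3) (h1 : l x1 = m + 1)
    (hno : NoF G0 G c l) {j : ℕ} (h1j : 1 ≤ j) (hjm : j ≤ m) (hg : GoodL G0 G c l j)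
    {b : ℕ} (hb : b + 1 = j ∨ b = j + 1)
    {f : Set V0} (hf : G0.IsClique f) (h3 : f.ncard = 3) {x : V} (hx : x ∈ cel c f)
    (hxj : l x = j) : ∃ w, NbP G (cel c f) l x w ∧ l w = b := by
  -- adjacent vertices with labels `j` and `b`
  obtain ⟨u, v, euv, hu, hv⟩ : ∃ u v, EIn G (sk c 3) u v ∧ l u = j ∧ l v = b := by
    rcases hb with hb | hb
    · obtain ⟨u, v, e, hu, hv⟩ := hit h hl hx0 h0 hx1 h1 (j := b) (by omega)
      exact ⟨v, u, e.symm, by omega, hu⟩
    · obtain ⟨u, v, e, hu, hv⟩ := hit h hl hx0 h0 hx1 h1 (j := j) hjm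
      exact ⟨u, v, e, hu, by omega⟩
  obtain ⟨f0, hf0, h30, hu0, hv0⟩ := com_tri h hp euv
  have hD0 : Dp G c l b u f0 := ⟨v, nbP_of_adj hu0 hv0 euv.1 (by omega), hv⟩
  have hDu : ∀ f : Set V0, G0.IsClique f → f.ncard = 3 → u ∈ cel c f → Dp G c l b u f :=
    fun f hf h3 huf => dp_face h hl hno hg hu hf0 h30 hf h3 hu0 huf hD0
  have hxs : x ∈ sk c 3 := by
    show (c x).ncard ≤ 3
    rw [← h3]
    exact Set.ncard_le_ncard hx (Set.toFinite _)
  have hc := lev_conn h hl hlow hupp hx0 h0 hx1 h1 (j := j) (by omega)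
  have hr := hc.2 u ⟨euv.2.1, hu⟩ x ⟨hxs, hxj⟩
  have hall : ∀ f : Set V0, G0.IsClique f → f.ncard = 3 → x ∈ cel c f → Dp G c l b x f := by
    clear hxs hxj hx
    induction hr with
    | refl => exact hDu
    | tail _ e ih => exact dp_adj h hp hl hno hg e ih
  exact hall f hf h3 hx

theorem good_face [Finite V0] [Finite V] (h : CY G0 G c) (hp : Pur G0) {m : ℕ}
    (hl : ∀ x y, EIn G (sk c 3) x y → l x ≤ l y + 1)
    (hlow : ∀ i, Conn G (low (sk c 3) l i)) (hupp : ∀ i, i ≤ m + 1 → Conn G (upp (sk c 3) l i))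
    {x0 x1 : V} (hx0 : x0 ∈ sk c 3) (h0 : l x0 = 0) (hx1 : x1 ∈ sk c 3) (h1 : l x1 = m + 1)
    (hno : NoF G0 G c l) {j : ℕ} (h1j : 1 ≤ j) (hjm : j ≤ m) (hg : GoodL G0 G c l j)
    {f : Set V0} (hf : G0.IsClique f) (h3 : f.ncard = 3) {x : V} (hx : x ∈ cel c f)
    (hxj : l x = j) : One G (cel c f) l x (j - 1) ∧ One G (cel c f) l x (j + 1) := by
  obtain ⟨w1, n1, l1⟩ := dp_all h hp hl hlow hupp hx0 h0 hx1 h1 hno h1j hjm hg (b := j - 1)
    (by omega) hf h3 hx hxj
  obtain ⟨w2, n2, l2⟩ := dp_all h hp hl hlow hupp hx0 h0 hx1 h1 hno h1j hjm hg (b := j + 1)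
    (by omega) hf h3 hx hxj
  obtain ⟨y, z, -, -, -, hall⟩ := hg.2 f hf h3 x hx hxj
  have key : ∀ y z, (∀ w, NbP G (cel c f) l x w →
      w ∈ pce G (cel c f) l y ∨ w ∈ pce G (cel c f) l z) → w1 ∈ pce G (cel c f) l y →
      w2 ∈ pce G (cel c f) l z → One G (cel c f) l x (j - 1) ∧ One G (cel c f) l x (j + 1) := by
    intro y z hall a1 a2
    have e1 := pce_lab a1
    have e2 := pce_lab a2
    refine ⟨⟨w1, l1, n1, fun w hw hlw => ?_⟩, ⟨w2, l2, n2, fun w hw hlw => ?_⟩⟩
    · rcases hall w hw with h4 | h4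
      · rw [pce_eq a1]; exact h4
      · have := pce_lab h4
        omega
    · rcases hall w hw with h4 | h4
      · have := pce_lab h4
        omega
      · rw [pce_eq a2]; exact h4
  rcases hall w1 n1 with a1 | a1 <;> rcases hall w2 n2 with a2 | a2
  · have e1 := pce_lab a1
    have e2 := pce_lab a2
    omega
  · exact key y z hall a1 a2
  · exact key z y (fun w hw => (hall w hw).symm) a1 a2
  · have e1 := pce_lab a1
    have e2 := pce_lab a2
    omega

theorem good_prd [Finite V0] [Finite V] (h : CY G0 G c) (hp : Pur G0) {m : ℕ}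
    (hl : ∀ x y, EIn G (sk c 3) x y → l x ≤ l y + 1)
    (hlow : ∀ i, Conn G (low (sk c 3) l i)) (hupp : ∀ i, i ≤ m + 1 → Conn G (upp (sk c 3) l i))
    {x0 x1 : V} (hx0 : x0 ∈ sk c 3) (h0 : l x0 = 0) (hx1 : x1 ∈ sk c 3) (h1 : l x1 = m + 1)
    (hno : NoF G0 G c l) {j : ℕ} (h1j : 1 ≤ j) (hjm : j ≤ m) (hg : GoodL G0 G c l j) :
    PrdL G0 G c l j := by
  refine ⟨hg.1, fun t ht hcard x hx hxj => ?_⟩
  rcases hcard with h2 | h3
  · have hne : t.Nonempty := (Set.ncard_pos (Set.toFinite _)).1 (by omega)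
    obtain ⟨f, hf, h3, htf⟩ := in_tri hp hne ht (by omega)
    obtain ⟨y, y', -, -, ny, ny', hedge, hall⟩ := edge_ends h hl hno hg ht h2 hx hxj
    obtain ⟨⟨w1, l1, n1, -⟩, ⟨w2, l2, n2, -⟩⟩ := good_face h hp hl hlow hupp hx0 h0 hx1 h1 hno
      h1j hjm hg hf h3 (cel_mono' htf hx) hxj
    have key : ∀ y y', NbP G (cel c t) l x y → NbP G (cel c t) l x y' →
        (∀ w, NbP G (cel c t) l x w →
          w ∈ pce G (cel c t) l y ∨ w ∈ pce G (cel c t) l y') → l y = j - 1 → l y' = j + 1 →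
        One G (cel c t) l x (j - 1) ∧ One G (cel c t) l x (j + 1) := by
      intro y y' ny ny' hedge e1 e2
      refine ⟨⟨y, e1, ny, fun w hw hlw => ?_⟩, ⟨y', e2, ny', fun w hw hlw => ?_⟩⟩
      · rcases hedge w hw with h4 | h4
        · exact h4
        · have := pce_lab h4
          omega
      · rcases hedge w hw with h4 | h4
        · have := pce_lab h4
          omega
        · exact h4
    rcases (hall f hf h3 htf).2 w1 n1 with a1 | a1 <;>
      rcases (hall f hf h3 htf).2 w2 n2 with a2 | a2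
    · have e1 := pce_lab a1
      have e2 := pce_lab a2
      omega
    · have e1 := pce_lab a1
      have e2 := pce_lab a2
      exact key y y' ny ny' hedge (by omega) (by omega)
    · have e1 := pce_lab a1
      have e2 := pce_lab a2
      exact key y' y ny' ny (fun w hw => (hedge w hw).symm) (by omega) (by omega)
    · have e1 := pce_lab a1
      have e2 := pce_lab a2
      omega
  · exact good_face h hp hl hlow hupp hx0 h0 hx1 h1 hno h1j hjm hg ht h3 hx hxj

end MOT
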