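import Pool.Agent.MOT.Bas

/-!
# MOT: THIN, duality: a closed mod 2 path is a boundary if `H^1 = 0` (helper23)

`chain_of`: induction on the path (`Relation.ReflTransGen`): adding the edge `v w` changes `z v w` and
`z w v` by 1.
`cyc_bd`: let `W` be the space of functions `V → V → ZMod 2`, `B ⊆ W` the span of the functions
`∂ {x, y, w}` (`= 1` on the six ordered pairs of distinct elements of the triangle), `{x, y, w}` a triangle
of `X`.  If `z ∉ B`, there is a linear functional `φ` on `W` with `φ = 0` on `B` and `φ z ≠ 0`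
(`Submodule.exists_le_ker_of_notMem`).  `φ` is given by a matrix `p`: `φ u = ∑ x, ∑ y, p x y * u x y`.
Choose an order on `V` (or a linear order, or represent each symmetric function by `∑ over unordered
pairs`); put `a x y := p x y + p y x` on the edges of `X`, `0` otherwise.  `φ (∂ T) = 0` says that `a` is a
cocycle of `X`.  By `HZ G X`, `a x y = g x + g y`.  As `z` is symmetric and supported on the edges of `X`,
`φ z = ∑ over unordered edges {x, y} of a x y * z x y = ∑ over unordered edges of (g x + g y) z x y =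
∑ x, g x * ∑ y, z x y = 0`.  Contradiction.  So `z = ∑_T F T • ∂ T`, and the value at an edge `x y` is the sum
of `F {x, y, w}` over the common neighbours `w ∈ X`.
-/

open Classical

noncomputable section

namespace MOT

variable {V : Type} {G : SimpleGraph V}

theorem chain_of [Fintype V] {A : Set V} {u w : V}
    (h : Relation.ReflTransGen (EIn G A) u w) :
    ∃ z : V → V → ZMod 2, (∀ x y, z x y = z y x) ∧ (∀ x y, ¬ EIn G A x y → z x y = 0) ∧
      ∀ x, ∑ y, z x y = (if x = u then 1 else 0) + (if x = w then 1 else 0) := by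
  induction h with
  | refl =>
    refine ⟨0, fun _ _ => rfl, fun _ _ _ => rfl, fun x => ?_⟩
    rw [two_add]
    simp
  | @tail v w _ e ih =>
    obtain ⟨z, hs, hz, hc⟩ := ih
    refine ⟨fun x y => z x y + ((if x = v then (if y = w then 1 else 0) else 0) +
      (if x = w then (if y = v then 1 else 0) else 0)), fun x y => ?_, fun x y hn => ?_,
      fun x => ?_⟩
    · simp only
      rw [hs x y]
      congr 1
      rw [add_comm]
      congr 1
      · by_cases h1 : x = w <;> by_cases h2 : y = v <;> simp [h1, h2]
      · by_cases h1 : x = v <;> by_cases h2 : y = w <;> simp [h1, h2]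
    · simp only
      rw [hz x y hn, zero_add]
      have h1 : (if x = v then (if y = w then (1 : ZMod 2) else 0) else 0) = 0 := by
        by_cases hx : x = v
        · by_cases hy : y = w
          · subst hx hy
            exact absurd e hn
          · simp [hy]
        · simp [hx]
      have h2 : (if x = w then (if y = v then (1 : ZMod 2) else 0) else 0) = 0 := by
        by_cases hx : x = w
        · by_cases hy : y = v
          · subst hx hy
            exact absurd e.symm hn
          · simp [hy]
        · simp [hx]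
      rw [h1, h2, add_zero]
    · simp only
      rw [Finset.sum_add_distrib, Finset.sum_add_distrib, hc]
      have h1 : ∑ y : V, (if x = v then (if y = w then (1 : ZMod 2) else 0) else 0) =
          if x = v then 1 else 0 := by
        by_cases hx : x = v <;> simp [hx]
      have h2 : ∑ y : V, (if x = w then (if y = v then (1 : ZMod 2) else 0) else 0) =
          if x = w then 1 else 0 := by
        by_cases hx : x = w <;> simp [hx]
      rw [h1, h2]
      have h3 := two_add (if x = v then (1 : ZMod 2) else 0)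
      calc (if x = u then (1 : ZMod 2) else 0) + (if x = v then 1 else 0) +
            ((if x = v then 1 else 0) + (if x = w then 1 else 0))
          = (if x = u then (1 : ZMod 2) else 0) + ((if x = v then 1 else 0) +
            (if x = v then 1 else 0)) + (if x = w then 1 else 0) := by abel
        _ = _ := by rw [h3, add_zero]

private theorem sum3_83 [Fintype V] (f : V → ZMod 2) {x y w : V} (hxy : x ≠ y) (hyw : y ≠ w)
    (hxw : x ≠ w) (h : ∀ v, v ≠ x → v ≠ y → v ≠ w → f v = 0) :
    ∑ v, f v = f x + f y + f w := by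
  have h1 : ∑ v, f v = ∑ v ∈ ({x, y, w} : Finset V), f v := by
    symm
    refine Finset.sum_subset (Finset.subset_univ _) fun v _ hv => ?_
    simp only [Finset.mem_insert, Finset.mem_singleton, not_or] at hv
    exact h v hv.1 hv.2.1 hv.2.2
  rw [h1, Finset.sum_insert (by simp [hxy, hxw]), Finset.sum_insert (by simp [hyw]),
    Finset.sum_singleton, add_assoc]

private theorem sumsym_83 [Fintype V] (h : V → V → ZMod 2) (hs : ∀ x y, h x y = h y x)
    (h0 : ∀ x, h x x = 0) : ∑ x, ∑ y, h x y = 0 := by
  rw [← Finset.sum_product']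
  refine Finset.sum_involution (fun p _ => p.swap) ?_ ?_ ?_ ?_
  · intro p _
    simp only [Prod.fst_swap, Prod.snd_swap]
    rw [hs p.2 p.1, two_add]
  · intro p _ hp hc
    apply hp
    have h1 : p.2 = p.1 := by
      have := congrArg Prod.fst hc
      simpa using this
    rw [h1, h0]
  · intro p _
    simp
  · intro p _
    simp

/-- the boundary map -/
private def Phi83 [Fintype V] (G : SimpleGraph V) (X : Set V) :
    (Finset V → ZMod 2) →ₗ[ZMod 2] (V → V → ZMod 2) where
  toFun F := fun x y => if EIn G X x y then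
    ∑ w : V, (if EIn G X x w ∧ EIn G X y w then F {x, y, w} else 0) else 0
  map_add' F F' := by
    funext x y
    simp only [Pi.add_apply]
    by_cases h : EIn G X x y
    · rw [if_pos h, if_pos h, if_pos h, ← Finset.sum_add_distrib]
      refine Finset.sum_congr rfl fun w _ => ?_
      split_ifs <;> simp
    · rw [if_neg h, if_neg h, if_neg h, add_zero]
  map_smul' c F := by
    funext x y
    simp only [Pi.smul_apply, RingHom.id_apply]
    by_cases h : EIn G X x y
    · rw [if_pos h, if_pos h, Finset.smul_sum]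
      refine Finset.sum_congr rfl fun w _ => ?_
      split_ifs <;> simp
    · rw [if_neg h, if_neg h, smul_zero]

private theorem phi_repr83 [Fintype V] (φ : (V → V → ZMod 2) →ₗ[ZMod 2] ZMod 2)
    (u : V → V → ZMod 2) :
    φ u = ∑ x, ∑ y, φ (Pi.single x (Pi.single y 1)) * u x y := by
  have h1 : u = ∑ x, ∑ y, u x y • (Pi.single x (Pi.single y 1) : V → V → ZMod 2) := by
    funext a b
    simp only [Finset.sum_apply, Pi.smul_apply, smul_eq_mul]
    rw [Finset.sum_eq_single a, Finset.sum_eq_single b]
    · simp
    · intro y _ hy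
      simp [Pi.single_apply, Ne.symm hy]
    · simp
    · intro x _ hx
      refine Finset.sum_eq_zero fun y _ => ?_
      simp [Pi.single_apply, Ne.symm hx]
    · simp
  conv_lhs => rw [h1]
  rw [map_sum]
  refine Finset.sum_congr rfl fun x _ => ?_
  rw [map_sum]
  refine Finset.sum_congr rfl fun y _ => ?_
  rw [map_smul, smul_eq_mul, mul_comm]

private theorem tri_eval83 [Fintype V] {X : Set V} (p : V → V → ZMod 2) {x y w : V}
    (exy : EIn G X x y) (eyw : EIn G X y w) (exw : EIn G X x w) :
    ∑ a, ∑ b, p a b * Phi83 G X (Pi.single {x, y, w} 1) a b =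
      (p x y + p y x) + (p y w + p w y) + (p x w + p w x) := by
  have hxy : x ≠ y := exy.1.ne
  have hyw : y ≠ w := eyw.1.ne
  have hxw : x ≠ w := exw.1.ne
  have hirr : ∀ v, ¬ EIn G X v v := fun v h => h.1.ne rfl
  have s1 : ({x, w, y} : Finset V) = {x, y, w} := by ext v; simp; tauto
  have s2 : ({y, x, w} : Finset V) = {x, y, w} := by ext v; simp; tauto
  have s3 : ({y, w, x} : Finset V) = {x, y, w} := by ext v; simp; tauto
  have s4 : ({w, x, y} : Finset V) = {x, y, w} := by ext v; simp; tauto
  have s5 : ({w, y, x} : Finset V) = {x, y, w} := by ext v; simp; tauto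
  -- the value of the boundary of the triangle
  have hval : ∀ a b, Phi83 G X (Pi.single {x, y, w} 1) a b =
      if EIn G X a b then ∑ c : V, (if EIn G X a c ∧ EIn G X b c then
        (Pi.single ({x, y, w} : Finset V) (1 : ZMod 2) : Finset V → ZMod 2) {a, b, c} else 0)
        else 0 := fun a b => rfl
  have hout : ∀ a b c : V, (a ∉ ({x, y, w} : Finset V) ∨ b ∉ ({x, y, w} : Finset V) ∨
      c ∉ ({x, y, w} : Finset V)) →
      (Pi.single ({x, y, w} : Finset V) (1 : ZMod 2) : Finset V → ZMod 2) {a, b, c} = 0 := by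
    intro a b c h
    rw [Pi.single_apply, if_neg]
    intro hcon
    rw [← hcon] at h
    simp at h
  have hsum : ∀ a b : V, ∑ c : V, (if EIn G X a c ∧ EIn G X b c then
        (Pi.single ({x, y, w} : Finset V) (1 : ZMod 2) : Finset V → ZMod 2) {a, b, c} else 0) =
      (if EIn G X a x ∧ EIn G X b x then
        (Pi.single ({x, y, w} : Finset V) (1 : ZMod 2) : Finset V → ZMod 2) {a, b, x} else 0) +
      (if EIn G X a y ∧ EIn G X b y then
        (Pi.single ({x, y, w} : Finset V) (1 : ZMod 2) : Finset V → ZMod 2) {a, b, y} else 0) +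
      (if EIn G X a w ∧ EIn G X b w then
        (Pi.single ({x, y, w} : Finset V) (1 : ZMod 2) : Finset V → ZMod 2) {a, b, w} else 0) := by
    intro a b
    refine sum3_83 _ hxy hyw hxw fun v h1 h2 h3 => ?_
    rw [hout a b v (Or.inr (Or.inr (by simp [h1, h2, h3])))]
    simp
  have hz : ∀ a b, (a ∉ ({x, y, w} : Finset V) ∨ b ∉ ({x, y, w} : Finset V)) →
      Phi83 G X (Pi.single {x, y, w} 1) a b = 0 := by
    intro a b h
    rw [hval]
    split_ifs
    · refine Finset.sum_eq_zero fun c _ => ?_
      rw [hout a b c (by tauto)]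
      simp
    · rfl
  have hd : ∀ a, Phi83 G X (Pi.single {x, y, w} 1) a a = 0 := by
    intro a
    rw [hval, if_neg (hirr a)]
  rw [sum3_83 _ hxy hyw hxw fun v h1 h2 h3 => Finset.sum_eq_zero fun b _ => by
    rw [hz v b (Or.inl (by simp [h1, h2, h3])), mul_zero]]
  rw [sum3_83 (fun b => p x b * _) hxy hyw hxw fun v h1 h2 h3 => by
      rw [hz x v (Or.inr (by simp [h1, h2, h3])), mul_zero],
    sum3_83 (fun b => p y b * _) hxy hyw hxw fun v h1 h2 h3 => by
      rw [hz y v (Or.inr (by simp [h1, h2, h3])), mul_zero],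
    sum3_83 (fun b => p w b * _) hxy hyw hxw fun v h1 h2 h3 => by
      rw [hz w v (Or.inr (by simp [h1, h2, h3])), mul_zero]]
  have v1 : Phi83 G X (Pi.single {x, y, w} 1) x y = 1 := by
    rw [hval, if_pos exy, hsum, if_neg (fun h => hirr x h.1), if_neg (fun h => hirr y h.2),
      if_pos ⟨exw, eyw⟩, Pi.single_eq_same]
    simp
  have v2 : Phi83 G X (Pi.single {x, y, w} 1) y x = 1 := by
    rw [hval, if_pos exy.symm, hsum, if_neg (fun h => hirr x h.2), if_neg (fun h => hirr y h.1),
      if_pos ⟨eyw, exw⟩, s2, Pi.single_eq_same]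
    simp
  have v3 : Phi83 G X (Pi.single {x, y, w} 1) y w = 1 := by
    rw [hval, if_pos eyw, hsum, if_pos ⟨exy.symm, exw.symm⟩, if_neg (fun h => hirr y h.1),
      if_neg (fun h => hirr w h.2), s3, Pi.single_eq_same]
    simp
  have v4 : Phi83 G X (Pi.single {x, y, w} 1) w y = 1 := by
    rw [hval, if_pos eyw.symm, hsum, if_pos ⟨exw.symm, exy.symm⟩, if_neg (fun h => hirr y h.2),
      if_neg (fun h => hirr w h.1), s5, Pi.single_eq_same]
    simp
  have v5 : Phi83 G X (Pi.single {x, y, w} 1) x w = 1 := by
    rw [hval, if_pos exw, hsum, if_neg (fun h => hirr x h.1), if_pos ⟨exy, eyw.symm⟩,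
      if_neg (fun h => hirr w h.2), s1, Pi.single_eq_same]
    simp
  have v6 : Phi83 G X (Pi.single {x, y, w} 1) w x = 1 := by
    rw [hval, if_pos exw.symm, hsum, if_neg (fun h => hirr x h.2), if_pos ⟨eyw.symm, exy⟩,
      if_neg (fun h => hirr w h.1), s4, Pi.single_eq_same]
    simp
  rw [hd, hd, hd, v1, v2, v3, v4, v5, v6]
  ring

theorem cyc_bd [Fintype V] {X : Set V} (hX : HZ G X) (z : V → V → ZMod 2)
    (hs : ∀ x y, z x y = z y x) (hz : ∀ x y, ¬ EIn G X x y → z x y = 0)
    (hc : ∀ x, ∑ y, z x y = 0) :
    ∃ F : Finset V → ZMod 2, ∀ x y, EIn G X x y →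
      z x y = ∑ w : V, if EIn G X x w ∧ EIn G X y w then F {x, y, w} else 0 := by
  by_cases hmem : z ∈ LinearMap.range (Phi83 G X)
  · obtain ⟨F, hF⟩ := hmem
    refine ⟨F, fun x y e => ?_⟩
    rw [← hF]
    change (if EIn G X x y then
      ∑ w : V, (if EIn G X x w ∧ EIn G X y w then F {x, y, w} else 0) else 0) = _
    rw [if_pos e]
  exfalso
  obtain ⟨φ, hφz, hφ⟩ := Submodule.exists_le_ker_of_notMem hmem
  set p : V → V → ZMod 2 := fun x y => φ (Pi.single x (Pi.single y 1)) with hp
  have hrep : ∀ u, φ u = ∑ x, ∑ y, p x y * u x y := fun u => phi_repr83 φ u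
  -- the cocycle
  have ha : (fun x y => if EIn G X x y then p x y + p y x else 0) ∈ Z1 G X := by
    refine mem_Z1.2 ⟨fun x y e => if_neg e, fun x y => ?_, fun x y w e1 e2 e3 => ?_⟩
    · by_cases e : EIn G X x y
      · rw [if_pos e, if_pos e.symm, add_comm]
      · rw [if_neg e, if_neg (fun e' => e e'.symm)]
    · rw [if_pos e1, if_pos e2, if_pos e3]
      have h1 : φ (Phi83 G X (Pi.single {x, y, w} 1)) = 0 :=
        hφ (LinearMap.mem_range_self _ _)
      rw [hrep, tri_eval83 p e1 e2 e3] at h1
      exact (z2_eq _ _).1 h1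
  obtain ⟨g, hg⟩ := hX _ ha
  apply hφz
  rw [hrep]
  have h2 : ∑ x, ∑ y, g x * z x y = 0 := by
    refine Finset.sum_eq_zero fun x _ => ?_
    rw [← Finset.mul_sum, hc, mul_zero]
  have h3 : ∑ x, ∑ y, (p x y + g x) * z x y = 0 := by
    refine sumsym_83 _ (fun x y => ?_) (fun x => ?_)
    · by_cases e : EIn G X x y
      · have h4 := hg x y e
        simp only [if_pos e] at h4
        rw [hs y x, ← z2_eq, ← add_mul]
        have h5 : p x y + g x + (p y x + g y) = 0 := by
          calc p x y + g x + (p y x + g y) = (p x y + p y x) + (g x + g y) := by abel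
            _ = 0 := by rw [h4, two_add]
        rw [h5, zero_mul]
      · rw [hz x y e, hz y x (fun e' => e e'.symm), mul_zero, mul_zero]
    · rw [hz x x (fun e => e.1.ne rfl), mul_zero]
  have h4 : ∑ x, ∑ y, (p x y + g x) * z x y =
      ∑ x, ∑ y, p x y * z x y + ∑ x, ∑ y, g x * z x y := by
    simp only [add_mul, Finset.sum_add_distrib]
  rw [h4, h2, add_zero] at h3
  exact h3

end MOT
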