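import Pool.Agent.MOT.TfF
import Pool.Agent.MOT.TjB

/-!
# MOT: THIN, Jordan in a coarse face (helper23)

Setting: `e` a coarse edge, `f ⊇ e` a coarse face, `J` a set of vertices with carrier `e`, `u, w` two
vertices of `cel c e`, not adjacent, different, `J ∪ {u, w}` connected, `u` and `w` also connected by
a path in `A`, `A ⊆ cel c f` disjoint from `J`.  Then the part of the face cut off by the closed curve
`J ∪ (path in A)` is described by a function `q` which is constant on edges outside `J ∪ A`, zero outside the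
open face, and equal to one on the vertices of the open face adjacent to `J` (one of them, and the
set of all of them (strip) is connected: this last hypothesis is `hst`).

Proof.  `X := cel c f`, `HZ G X` (`CY.cell`).  `z := z1 + z2`, `z1` from `chain_of` for a path from `u` to `w`
in `J ∪ {u, w}`, `z2` from `chain_of` for a path from `w` to `u` in `A`.  `∑ y, z x y = 0` for all `x`.
By `cyc_bd` there is `F` with `z x y = ∑ (F {x, y, v})` over the common neighbours `v ∈ X`.
(a) if `x ∈ X` is on no edge of `z` (true for `x ∉ J ∪ A ∪ {u,w}`, and `u, w ∈ A`), then `F {x, y, v}` is the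
same for all triangles of `X` at `x`: for `y ∈ Lk x ∩ X` the edge `x y` has one or two
triangles in `X` (`face_one`, `face_two`), and `z x y = 0`: if two, they have the same `F`; and `Lk x ∩ X` is
connected (`face_lk`; go along a path `y_0, y_1, ...` in it: the triangles `{x, y_i, y_(i+1)}`).  If
`c x ⊂ f` this common value is 0: `c x` lies in a coarse edge `e' ⊂ f` (or is one), `x` has a neighbour `y`
in `cel c e'` (`CY.path`, `CY.fin`) so `c x, c y ⊂ f`, and `face_one`: one triangle, so `F = z x y = 0`.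
(b) put `q x :=` this common value if `c x = f` and `x ∉ J ∪ A`, `0` otherwise.  For `x y` adjacent in
`sk c 3`, both not in `J ∪ A`: if both are in `X`, they have a common neighbour in `X` (`face_one`,
`face_two`), so `q x = q y` (both `F` of this triangle, or 0 if a carrier is smaller).  If one is not
in `X`, say `y`, then `c x ≠ f` (otherwise `c x ⊆ c y`, `(c y).ncard ≤ 3`, so `c y = f`), and `q x = 0`; `q y = 0`.
(c) `∑ y, z1 u y = 1`, so there is `y` with `z1 u y = 1`, `y ∈ J ∪ {u, w}` adjacent to `u`, so `y ∈ J`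
(`u, w` not adjacent).  `z2 u y = 0` as `y ∉ A`.  So `z u y = 1`.  `c u, c y ⊆ e ⊂ f`, `face_one`: the triangle
`{u, y, v}` with `c v = f` has `F = 1`.  `v` is adjacent to `y ∈ J`, so `v` is in the strip, `q v = 1` if `v ∉ A`
(hypothesis `hdis`: the strip is disjoint from `A`; it is disjoint from `J` by the carriers).  The strip is
connected and disjoint from `J ∪ A`, so `q = 1` on it.
-/

open Classical

noncomputable section

namespace MOT

variable {V0 V : Type} {G0 : SimpleGraph V0} {G : SimpleGraph V} {c : V → Set V0}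

/-- vertices of the open cell `g` adjacent to `J` -/
def strip (G : SimpleGraph V) (c : V → Set V0) (J : Set V) (g : Set V0) : Set V :=
  {y | c y = g ∧ ∃ x ∈ J, G.Adj x y}

private theorem sum_pred [Fintype V] (p : V → Prop) [DecidablePred p] (g : V → ZMod 2)
    (T : Finset V) (hT : ∀ w, p w ↔ w ∈ T) :
    ∑ w : V, (if p w then g w else 0) = ∑ w ∈ T, g w := by
  rw [← Finset.sum_filter]
  congr 1
  ext w
  simp [hT w]

private theorem ne_zero_one {a : ZMod 2} (h : a ≠ 0) : a = 1 := by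
  revert h; revert a; decide

private theorem ins_swap (x y v : V) : ({x, y, v} : Finset V) = {x, v, y} := by
  ext t
  simp only [Finset.mem_insert, Finset.mem_singleton]
  tauto

private theorem ins_rot (x y v : V) : ({x, y, v} : Finset V) = {y, x, v} := by
  ext t
  simp only [Finset.mem_insert, Finset.mem_singleton]
  tauto

/-- a neighbour with a smaller carrier -/
private theorem small_nb [Finite V0] (h : CY G0 G c) {f : Set V0} (hf : G0.IsClique f)
    (hf3 : f.ncard = 3) {x : V} (hx : c x ⊂ f) : ∃ y, G.Adj x y ∧ c y ⊂ f := by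
  obtain ⟨hne, hcl⟩ := h.clq x
  have hfin : f.Finite := Set.toFinite f
  have hlt : (c x).ncard < 3 := by
    rw [← hf3]; exact Set.ncard_lt_ncard hx hfin
  have hpos : 0 < (c x).ncard := (Set.ncard_pos (Set.toFinite _)).2 hne
  have key : ∀ t : Set V0, t.ncard = 2 → t ⊆ f → t ⊂ f := by
    intro t ht hs
    refine lt_of_le_of_ne hs ?_
    rintro rfl
    omega
  have h12 : (c x).ncard = 1 ∨ (c x).ncard = 2 := by omega
  rcases h12 with h1 | h2
  · obtain ⟨a, ha⟩ := Set.ncard_eq_one.1 h1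
    have haf : a ∈ f := hx.1 (by rw [ha]; rfl)
    obtain ⟨b, hb, hba⟩ := Set.exists_ne_of_one_lt_ncard (s := f) (by omega) a
    have hab : a ≠ b := fun e => hba e.symm
    have hsub : ({a, b} : Set V0) ⊆ f := by
      rintro t (rfl | rfl)
      · exact haf
      · exact hb
    have h2 : ({a, b} : Set V0).ncard = 2 := Set.ncard_pair hab
    have hxs : c x ⊂ ({a, b} : Set V0) := by
      rw [ha]
      refine ⟨fun t ht => Or.inl ht, fun hh => ?_⟩
      have : b ∈ ({a} : Set V0) := hh (Or.inr rfl)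
      exact hba this
    have hn := h.fin {a, b} (hf.subset hsub) h2 x hxs
    obtain ⟨y, hy⟩ := Set.ncard_eq_one.1 hn
    have hy' : y ∈ {y | G.Adj x y ∧ c y ⊆ ({a, b} : Set V0)} := by rw [hy]; rfl
    exact ⟨y, hy'.1, lt_of_le_of_lt hy'.2 (key _ h2 hsub)⟩
  · have hn := h.path (c x) hcl h2 x rfl
    obtain ⟨y, y', _, hy⟩ := Set.ncard_eq_two.1 hn
    have hy' : y ∈ {y | G.Adj x y ∧ c y ⊆ c x} := by rw [hy]; exact Or.inl rfl
    exact ⟨y, hy'.1, lt_of_le_of_lt hy'.2 hx⟩

theorem jordan [Finite V0] [Finite V] (h0 : IsSph3 G0) (h : CY G0 G c) {e f : Set V0}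
    (hf : G0.IsClique f) (hf3 : f.ncard = 3) (hef : e ⊂ f) {J A : Set V} {u w : V}
    (hJ : ∀ x ∈ J, c x = e) (hu : c u ⊆ e) (hw : c w ⊆ e) (huw : u ≠ w)
    (hn : ¬ G.Adj u w) (hJc : Relation.ReflTransGen (EIn G (J ∪ {u, w})) u w)
    (hA : A ⊆ cel c f) (hAJ : Disjoint A J) (huA : u ∈ A) (hwA : w ∈ A)
    (hAc : Relation.ReflTransGen (EIn G A) w u)
    (hst : Conn G (strip G c J f)) (hdis : Disjoint (strip G c J f) A) :
    ∃ q : V → ZMod 2,
      (∀ x y, EIn G (sk c 3) x y → x ∉ J ∪ A → y ∉ J ∪ A → q x = q y) ∧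
      (∀ x ∈ strip G c J f, q x = 1) ∧ ∀ x, c x ≠ f → q x = 0 := by
  have : Fintype V := Fintype.ofFinite V
  have hfne : f.Nonempty := by
    rw [Set.nonempty_iff_ne_empty]
    rintro rfl
    simp at hf3
  have hX : HZ G (cel c f) := (h.cell f hfne hf).2
  have hJX : ∀ x ∈ J, x ∈ cel c f := fun x hx => by
    show c x ⊆ f
    rw [hJ x hx]; exact hef.1
  have hJuw : J ∪ {u, w} ⊆ cel c f := by
    rintro x (hx | rfl | rfl)
    · exact hJX x hx
    · exact hu.trans hef.1
    · exact hw.trans hef.1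
  have hJB : J ∪ {u, w} ⊆ J ∪ A := by
    rintro x (hx | rfl | rfl)
    · exact Or.inl hx
    · exact Or.inr huA
    · exact Or.inr hwA
  obtain ⟨z1, hs1, hz1, hc1⟩ := chain_of hJc
  obtain ⟨z2, hs2, hz2, hc2⟩ := chain_of hAc
  have hzz : ∀ x y, ¬ (x ∈ J ∪ A ∧ y ∈ J ∪ A) → z1 x y + z2 x y = 0 := by
    intro x y hn'
    rw [hz1 x y (fun e' => hn' ⟨hJB e'.2.1, hJB e'.2.2⟩),
      hz2 x y (fun e' => hn' ⟨Or.inr e'.2.1, Or.inr e'.2.2⟩), add_zero]
  obtain ⟨F, hF⟩ := cyc_bd hX (fun x y => z1 x y + z2 x y)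
    (fun x y => by
      show z1 x y + z2 x y = z1 y x + z2 y x
      rw [hs1 x y, hs2 x y])
    (fun x y hn' => by
      show z1 x y + z2 x y = 0
      rw [hz1 x y (fun e' => hn' (e'.mono hJuw)), hz2 x y (fun e' => hn' (e'.mono hA)), add_zero])
    (fun x => by
      show ∑ y, (z1 x y + z2 x y) = 0
      rw [Finset.sum_add_distrib, hc1 x, hc2 x]
      have h1 := two_add (if x = u then (1 : ZMod 2) else 0)
      have h2 := two_add (if x = w then (1 : ZMod 2) else 0)
      calc (if x = u then (1 : ZMod 2) else 0) + (if x = w then 1 else 0) +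
            ((if x = w then 1 else 0) + (if x = u then 1 else 0))
          = ((if x = u then (1 : ZMod 2) else 0) + (if x = u then 1 else 0)) +
            ((if x = w then 1 else 0) + (if x = w then 1 else 0)) := by abel
        _ = 0 := by rw [h1, h2, add_zero])
  have hcom : ∀ x y, EIn G (cel c f) x y →
      ((∃ v, {t | EIn G (cel c f) x t ∧ EIn G (cel c f) y t} = {v}) ∧ c x ⊂ f ∧ c y ⊂ f) ∨
      (∃ v v', v ≠ v' ∧ {t | EIn G (cel c f) x t ∧ EIn G (cel c f) y t} = {v, v'}) := by
    intro x y exy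
    by_cases hh : c x = f ∨ c y = f
    · right
      obtain ⟨v, v', hne, hv⟩ := Set.ncard_eq_two.1 (face_two h0 h hf hf3 exy hh)
      exact ⟨v, v', hne, hv⟩
    · left
      push Not at hh
      have hx' : c x ⊂ f := lt_of_le_of_ne exy.2.1 hh.1
      have hy' : c y ⊂ f := lt_of_le_of_ne exy.2.2 hh.2
      obtain ⟨v, _, hv⟩ := face_one h0 h hf hf3 exy hx' hy'
      exact ⟨⟨v, hv⟩, hx', hy'⟩
  have hone : ∀ x y v, EIn G (cel c f) x y →
      {t | EIn G (cel c f) x t ∧ EIn G (cel c f) y t} = {v} →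
      z1 x y + z2 x y = F {x, y, v} := by
    intro x y v exy hv
    have h1 := hF x y exy
    rw [sum_pred _ _ {v} (fun t => by
      have : t ∈ {t | EIn G (cel c f) x t ∧ EIn G (cel c f) y t} ↔ t ∈ ({v} : Set V) := by rw [hv]
      simpa using this), Finset.sum_singleton] at h1
    exact h1
  have htwo : ∀ x y v v', EIn G (cel c f) x y → v ≠ v' →
      {t | EIn G (cel c f) x t ∧ EIn G (cel c f) y t} = {v, v'} →
      z1 x y + z2 x y = F {x, y, v} + F {x, y, v'} := by
    intro x y v v' exy hne hv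
    have h1 := hF x y exy
    rw [sum_pred _ _ {v, v'} (fun t => by
      have : t ∈ {t | EIn G (cel c f) x t ∧ EIn G (cel c f) y t} ↔ t ∈ ({v, v'} : Set V) := by
        rw [hv]
      simpa using this), Finset.sum_pair hne] at h1
    exact h1
  -- constancy along an edge
  have A1 : ∀ x, x ∉ J ∪ A → ∀ y v v', EIn G (cel c f) x y → EIn G (cel c f) x v →
      EIn G (cel c f) y v → EIn G (cel c f) x v' → EIn G (cel c f) y v' →
      F {x, y, v} = F {x, y, v'} := by
    intro x hx y v v' exy exv eyv exv' eyv'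
    have hz0 : z1 x y + z2 x y = 0 := hzz x y (fun hh => hx hh.1)
    have hv : v ∈ {t | EIn G (cel c f) x t ∧ EIn G (cel c f) y t} := ⟨exv, eyv⟩
    have hv' : v' ∈ {t | EIn G (cel c f) x t ∧ EIn G (cel c f) y t} := ⟨exv', eyv'⟩
    rcases hcom x y exy with ⟨⟨a, ha⟩, _, _⟩ | ⟨a, b, hab, hh⟩
    · rw [ha] at hv hv'
      rw [Set.mem_singleton_iff.1 hv, Set.mem_singleton_iff.1 hv']
    · have h2 := htwo x y a b exy hab hh
      rw [hz0] at h2
      have h3 : F {x, y, a} = F {x, y, b} := (z2_eq _ _).1 h2.symm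
      rw [hh] at hv hv'
      rcases hv with hv | hv <;> rcases hv' with hv' | hv'
      · rw [hv, hv']
      · rw [hv, Set.mem_singleton_iff.1 hv', h3]
      · rw [Set.mem_singleton_iff.1 hv, hv', h3]
      · rw [Set.mem_singleton_iff.1 hv, Set.mem_singleton_iff.1 hv']
  -- constancy around a vertex
  have A3 : ∀ x, x ∈ cel c f → x ∉ J ∪ A → ∀ y v y' v', EIn G (cel c f) x y →
      EIn G (cel c f) x v → EIn G (cel c f) y v → EIn G (cel c f) x y' →
      EIn G (cel c f) x v' → EIn G (cel c f) y' v' → F {x, y, v} = F {x, y', v'} := by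
    intro x hxX hx y v y' v' exy exv eyv exy' exv' eyv'
    have hlk := (face_lk h0 h hf hf3 (x := x) hxX).2 y
      ⟨fun t ht => by rw [Set.mem_singleton_iff.1 ht]; exact exy.1, exy.2.2⟩ y'
      ⟨fun t ht => by rw [Set.mem_singleton_iff.1 ht]; exact exy'.1, exy'.2.2⟩
    have key : ∀ t, Relation.ReflTransGen (EIn G (Lk G {x} ∩ cel c f)) y t →
        EIn G (cel c f) x t ∧ ∀ s, EIn G (cel c f) x s → EIn G (cel c f) t s →
          F {x, y, v} = F {x, t, s} := by
      intro t ht
      induction ht with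
      | refl =>
        exact ⟨exy, fun s exs eys => A1 x hx y v s exy exv eyv exs eys⟩
      | @tail a b _ hab ih =>
        have exb : EIn G (cel c f) x b :=
          ⟨hab.2.2.1 x rfl, hxX, hab.2.2.2⟩
        have eab : EIn G (cel c f) a b := ⟨hab.1, hab.2.1.2, hab.2.2.2⟩
        refine ⟨exb, fun s exs ebs => ?_⟩
        rw [ih.2 b exb eab, ins_swap x a b]
        exact A1 x hx b a s exb ih.1 eab.symm exs ebs
    exact (key y' hlk).2 v' exv' eyv'
  have A4 : ∀ x, x ∉ J ∪ A → c x ⊂ f → ∀ y v, EIn G (cel c f) x y →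
      EIn G (cel c f) x v → EIn G (cel c f) y v → F {x, y, v} = 0 := by
    intro x hx hxf y v exy exv eyv
    obtain ⟨t, ht, htf⟩ := small_nb h hf hf3 hxf
    have ext' : EIn G (cel c f) x t := ⟨ht, hxf.1, htf.1⟩
    obtain ⟨s, _, hs⟩ := face_one h0 h hf hf3 ext' hxf htf
    have h1 := hone x t s ext' hs
    rw [hzz x t (fun hh => hx hh.1)] at h1
    have hs' : s ∈ {q | EIn G (cel c f) x q ∧ EIn G (cel c f) t q} := by rw [hs]; rfl
    rw [A3 x hxf.1 hx y v t s exy exv eyv ext' hs'.1 hs'.2, ← h1]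
  have hval : ∀ x, x ∈ cel c f → x ∉ J ∪ A → ∃ val : ZMod 2, ∀ y v, EIn G (cel c f) x y →
      EIn G (cel c f) x v → EIn G (cel c f) y v → F {x, y, v} = val := by
    intro x hxX hx
    by_cases hex : ∃ y v, EIn G (cel c f) x y ∧ EIn G (cel c f) x v ∧ EIn G (cel c f) y v
    · obtain ⟨y, v, e1, e2, e3⟩ := hex
      exact ⟨F {x, y, v}, fun y' v' e1' e2' e3' => A3 x hxX hx y' v' y v e1' e2' e3' e1 e2 e3⟩
    · exact ⟨0, fun y v e1 e2 e3 => absurd ⟨y, v, e1, e2, e3⟩ hex⟩
  obtain ⟨q, hq1, hq2⟩ : ∃ q : V → ZMod 2, (∀ x, c x ≠ f → q x = 0) ∧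
      ∀ x, c x = f → x ∉ J ∪ A → ∀ y v, EIn G (cel c f) x y →
      EIn G (cel c f) x v → EIn G (cel c f) y v → F {x, y, v} = q x := by
    refine ⟨fun x => if hh : c x = f ∧ x ∉ J ∪ A then
      Classical.choose (hval x (show c x ⊆ f from hh.1 ▸ subset_rfl) hh.2) else 0, ?_, ?_⟩
    · intro x hx
      exact dif_neg (fun hh => hx hh.1)
    · intro x hx hxB y v e1 e2 e3
      show _ = dite _ _ _
      rw [dif_pos ⟨hx, hxB⟩]
      exact Classical.choose_spec (hval x (show c x ⊆ f from hx ▸ subset_rfl) hxB) y v e1 e2 e3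
  have Q : ∀ x, x ∈ cel c f → x ∉ J ∪ A → ∀ y v, EIn G (cel c f) x y →
      EIn G (cel c f) x v → EIn G (cel c f) y v → F {x, y, v} = q x := by
    intro x hxX hx y v e1 e2 e3
    by_cases hxf : c x = f
    · exact hq2 x hxf hx y v e1 e2 e3
    · rw [hq1 x hxf]
      exact A4 x hx (lt_of_le_of_ne hxX hxf) y v e1 e2 e3
  have hconst : ∀ x y, EIn G (sk c 3) x y → x ∉ J ∪ A → y ∉ J ∪ A → q x = q y := by
    have hout : ∀ x y, EIn G (sk c 3) x y → x ∈ cel c f → y ∉ cel c f → c x ≠ f := by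
      intro x y exy hxX hyX hxf
      rcases h.cmp x y exy.1 with hh | hh
      · rw [hxf] at hh
        apply hyX
        show c y ⊆ f
        have h3 : (c y).ncard ≤ f.ncard := by rw [hf3]; exact exy.2.2
        rw [Set.eq_of_subset_of_ncard_le hh h3 (Set.toFinite _)]
      · rw [hxf] at hh
        exact hyX hh
    intro x y exy hx hy
    by_cases hxX : x ∈ cel c f
    · by_cases hyX : y ∈ cel c f
      · have e1 : EIn G (cel c f) x y := ⟨exy.1, hxX, hyX⟩
        have hv : ∃ v, EIn G (cel c f) x v ∧ EIn G (cel c f) y v := by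
          rcases hcom x y e1 with ⟨⟨a, ha⟩, _, _⟩ | ⟨a, b, hab, hh⟩
          · have : a ∈ {t | EIn G (cel c f) x t ∧ EIn G (cel c f) y t} := by rw [ha]; rfl
            exact ⟨a, this⟩
          · have : a ∈ {t | EIn G (cel c f) x t ∧ EIn G (cel c f) y t} := by
              rw [hh]; exact Or.inl rfl
            exact ⟨a, this⟩
        obtain ⟨v, exv, eyv⟩ := hv
        rw [← Q x hxX hx y v e1 exv eyv, ← Q y hyX hy x v e1.symm eyv exv, ins_rot x y v]
      · rw [hq1 x (hout x y exy hxX hyX), hq1 y (fun hh => hyX (show c y ⊆ f from hh ▸ subset_rfl))]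
    · have hx0 : q x = 0 := hq1 x (fun hh => hxX (show c x ⊆ f from hh ▸ subset_rfl))
      by_cases hyX : y ∈ cel c f
      · rw [hx0, hq1 y (hout y x exy.symm hyX hxX)]
      · rw [hx0, hq1 y (fun hh => hyX (show c y ⊆ f from hh ▸ subset_rfl))]
  have hstB : ∀ x ∈ strip G c J f, x ∉ J ∪ A := by
    rintro x hx (hxJ | hxA)
    · have h1 := hJ x hxJ
      rw [hx.1] at h1
      exact hef.ne h1.symm
    · exact Set.disjoint_left.1 hdis hx hxA
  refine ⟨q, hconst, ?_, hq1⟩
  -- one vertex of the strip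
  have hsum : ∑ y, z1 u y = 1 := by
    rw [hc1 u, if_pos rfl, if_neg huw, add_zero]
  obtain ⟨y, _, hy⟩ : ∃ y ∈ (Finset.univ : Finset V), z1 u y ≠ 0 := by
    by_contra hcon
    push Not at hcon
    rw [Finset.sum_eq_zero hcon] at hsum
    exact zero_ne_one hsum
  have euy : EIn G (J ∪ {u, w}) u y := by
    by_contra hcon
    exact hy (hz1 u y hcon)
  have hyJ : y ∈ J := by
    rcases euy.2.2 with hh | rfl | rfl
    · exact hh
    · exact absurd euy.1 (G.loopless.irrefl y)
    · exact absurd euy.1 hn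
  have hz2y : z2 u y = 0 := hz2 u y (fun hh => Set.disjoint_left.1 hAJ hh.2.2 hyJ)
  have ey : EIn G (cel c f) u y := ⟨euy.1, hu.trans hef.1, hJX y hyJ⟩
  have hyf : c y ⊂ f := by rw [hJ y hyJ]; exact hef
  obtain ⟨v, hvf, hv⟩ := face_one h0 h hf hf3 ey (lt_of_le_of_lt hu hef) hyf
  have h1 := hone u y v ey hv
  rw [hz2y, add_zero, ne_zero_one hy] at h1
  have hv' : v ∈ {t | EIn G (cel c f) u t ∧ EIn G (cel c f) y t} := by rw [hv]; rfl
  have hvst : v ∈ strip G c J f := ⟨hvf, y, hyJ, hv'.2.1⟩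
  have hvX : v ∈ cel c f := show c v ⊆ f from hvf ▸ subset_rfl
  have hqv : q v = 1 := by
    rw [← Q v hvX (hstB v hvst) u y hv'.1.symm hv'.2.symm ey, h1]
    congr 1
    ext t
    simp only [Finset.mem_insert, Finset.mem_singleton]
    tauto
  intro x hx
  have hp := hst.2 v hvst x hx
  have key : ∀ t, Relation.ReflTransGen (EIn G (strip G c J f)) v t → q t = 1 := by
    intro t ht
    induction ht with
    | refl => exact hqv
    | @tail a b _ hab ih =>
      rw [← hconst a b ⟨hab.1, ?_, ?_⟩ (hstB a hab.2.1) (hstB b hab.2.2)]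
      · exact ih
      · show (c a).ncard ≤ 3
        rw [hab.2.1.1, hf3]
      · show (c b).ncard ≤ 3
        rw [hab.2.2.1, hf3]
  exact key x hp

end MOT
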