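import Pool.Agent.MOT.Cpt
import Pool.Agent.MOT.Sdi

/-!
# MOT: THIN, fillings: definitions and idle steps (helper23)

`GC G T S M`: every component of `M ∩ T` and of `Mᶜ ∩ T` has `H^1 = 0` and meets `S` in a nonempty connected
set (`T` a closed coarse tetrahedron, `S` its boundary sphere).
`LD G S M H N` (leaf data): `H`, `N` disjoint, outside `M`, `H` connected with `H^1 = 0`, `N` connected, `H ∪ N` is a
component of `S \ M`, all neighbours of `H` in `S` are in `H ∪ N`.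

`comp_mi`: `C` contains some `s ⊆ X`; `s` is a clique, so it lies in one component `C2` of `X`.  `mi C2` is
connected (`sd_Conn`) and not adjacent to `mi X \ mi C2` (comparable simplices inside `X` lie in the same
component); use `IsComp_of`, `IsComp.eq_of_inter`.
`comp_pl`: the same: `s ∈ mi T` meets `X`; the vertices of `s` in `X` are pairwise adjacent, so they lie in one
component `C2`; `pl C2 ∩ mi T` is connected: it lies between `mi C2` and `pl C2` (`bt_Conn`; `C2 ⊆ X ⊆ T`).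
`gc_mi`: components of `mi M ∩ mi T = mi (M ∩ T)` by `comp_mi`: `HZ (mi C)` by `sd_HZ`, `mi C ∩ mi S = mi (C ∩ S)`
connected by `sd_Conn`.  Complement: `(mi M)ᶜ ∩ mi T = pl Mᶜ ∩ mi T = pl (Mᶜ ∩ T) ∩ mi T`, components
`pl C ∩ mi T` by `comp_pl`, `bt_HZ`, and `pl C ∩ mi T ∩ mi S = pl (C ∩ S) ∩ mi S` is between `mi (C ∩ S)` and
`pl (C ∩ S)`: `bt_Conn`.
`gc_pl`: `gc_mi` for `Mᶜ` and `GC.compl`.
-/

open Classical

noncomputable section

namespace MOT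

variable {V : Type} {G : SimpleGraph V}

/-- good filling -/
def GC (G : SimpleGraph V) (T S M : Set V) : Prop :=
  (∀ C, IsComp G (M ∩ T) C → HZ G C ∧ Conn G (C ∩ S)) ∧
    ∀ C, IsComp G (Mᶜ ∩ T) C → HZ G C ∧ Conn G (C ∩ S)

/-- leaf data -/
structure LD (G : SimpleGraph V) (S M H N : Set V) : Prop where
  hs : H ⊆ S
  ns : N ⊆ S
  hm : Disjoint H M
  nm : Disjoint N M
  hn : Disjoint H N
  hc : Conn G H
  hz : HZ G H
  nc : Conn G N
  adj : ∃ x ∈ H, ∃ y ∈ N, G.Adj x y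
  nbh : ∀ x ∈ H, ∀ y ∈ S, G.Adj x y → y ∈ H ∨ y ∈ N
  nbn : ∀ x ∈ N, ∀ y ∈ S, G.Adj x y → y ∈ H ∨ y ∈ N ∨ y ∈ M

theorem GC.compl {T S M : Set V} (h : GC G T S M) : GC G T S Mᶜ :=
  ⟨h.2, by rw [compl_compl]; exact h.1⟩

private theorem comp_bt {X : Set V} {N C : Set (Cq G)} (h1 : mi G X ⊆ N) (h2 : N ⊆ pl G X)
    (h : IsComp (sd G) N C) : ∃ C2, IsComp G X C2 ∧ C = N ∩ pl G C2 := by
  obtain ⟨s, hs⟩ := h.conn.1
  obtain ⟨x, hx, hxX⟩ := h2 (h.sub hs)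
  have hC2 : IsComp G X (comp G X x) := ⟨x, hxX, rfl⟩
  refine ⟨comp G X x, hC2, ?_⟩
  exact h.eq_of_inter (bt_comp h1 h2 hC2) ⟨s, hs, h.sub hs, x, hx, comp_self hxX⟩

theorem comp_mi {X : Set V} {C : Set (Cq G)} (h : IsComp (sd G) (mi G X) C) :
    ∃ C2, IsComp G X C2 ∧ C = mi G C2 := by
  obtain ⟨C2, hC2, e⟩ := comp_bt subset_rfl mi_sub_pl h
  refine ⟨C2, hC2, e.trans (Set.Subset.antisymm ?_ ?_)⟩
  · rintro s ⟨hs, x, hx, hxC⟩ y hy
    by_cases hxy : x = y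
    · rw [← hxy]; exact hxC
    · by_contra hn
      exact hC2.nadj x hxC y ⟨hs y hy, hn⟩
        (s.2.2 (Finset.mem_coe.2 hx) (Finset.mem_coe.2 hy) hxy)
  · intro s hs
    exact ⟨mi_mono hC2.sub hs, mi_sub_pl hs⟩

theorem comp_pl {X T : Set V} (hX : X ⊆ T) {C : Set (Cq G)}
    (h : IsComp (sd G) (pl G X ∩ mi G T) C) : ∃ C2, IsComp G X C2 ∧ C = pl G C2 ∩ mi G T := by
  obtain ⟨C2, hC2, e⟩ := comp_bt (X := X) (N := pl G X ∩ mi G T)
    (fun s hs => ⟨mi_sub_pl hs, mi_mono hX hs⟩) Set.inter_subset_left h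
  refine ⟨C2, hC2, e.trans (Set.Subset.antisymm ?_ ?_)⟩
  · rintro s ⟨⟨_, hs⟩, hs'⟩
    exact ⟨hs', hs⟩
  · rintro s ⟨hs, hs'⟩
    exact ⟨⟨pl_mono hC2.sub hs, hs'⟩, hs⟩

theorem gc_mi {T S M : Set V} (hS : S ⊆ T) (h : GC G T S M) :
    GC (sd G) (mi G T) (mi G S) (mi G M) := by
  constructor
  · intro C hC
    rw [← mi_inter] at hC
    obtain ⟨C2, hC2, rfl⟩ := comp_mi hC
    rw [← mi_inter, sd_HZ, sd_Conn]
    exact h.1 C2 hC2
  · intro C hC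
    have e : (mi G M)ᶜ ∩ mi G T = pl G (Mᶜ ∩ T) ∩ mi G T := by
      rw [compl_mi]
      refine Set.Subset.antisymm ?_ ?_
      · rintro s ⟨⟨x, hx, hxM⟩, hs⟩
        exact ⟨⟨x, hx, hxM, hs x hx⟩, hs⟩
      · rintro s ⟨⟨x, hx, hxM, _⟩, hs⟩
        exact ⟨⟨x, hx, hxM⟩, hs⟩
    rw [e] at hC
    obtain ⟨C2, hC2, rfl⟩ := comp_pl Set.inter_subset_right hC
    have hT : C2 ⊆ T := fun x hx => (hC2.sub hx).2
    refine ⟨(bt_HZ (M := C2) (N := pl G C2 ∩ mi G T)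
      (fun s hs => ⟨mi_sub_pl hs, mi_mono hT hs⟩) Set.inter_subset_left).2 (h.2 C2 hC2).1, ?_⟩
    refine (bt_Conn (M := C2 ∩ S) ?_ ?_).2 (h.2 C2 hC2).2
    · intro s hs
      rw [mi_inter] at hs
      exact ⟨⟨mi_sub_pl hs.1, mi_mono hT hs.1⟩, hs.2⟩
    · rintro s ⟨⟨⟨x, hx, hxC⟩, _⟩, hs⟩
      exact ⟨x, hx, hxC, hs x hx⟩

theorem gc_pl {T S M : Set V} (hS : S ⊆ T) (h : GC G T S M) :
    GC (sd G) (mi G T) (mi G S) (pl G M) := by
  have h2 := (gc_mi hS h.compl).compl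
  rwa [compl_mi, compl_compl] at h2

end MOT
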