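import Pool.Agent.MOT.TcSc
import Pool.Agent.MOT.Fib

/-!
# MOT: THIN, fillings: the neighbourhood of a piece of the boundary sphere (helper23)

`up_add`: induction on `(S \ S').ncard`.  Take `x ∈ S \ S'` maximal in `S \ S'`.  The elements of `S'`
comparable with `x` are exactly `{y ∈ S | x < y}` (an element of `S'` below `x` would give `x ∈ S'`).  So
`insert x S'` has the same properties by `add_vertex_Conn`, `add_vertex_Inj` (file `Joi`), and is upward
closed in `S`.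
`up_cel`: induction on `4 - s0.card` (cliques in `cel c D` have at most 4 vertices, `CY.dim`, or strong
induction downwards).  `S = {r | s0 < r ∧ r ∈ mi (cel c D)}`, `S' = {r | s0 < r ∧ cs c r = D}` (`up_half`),
`x ∈ S \ S'`: `cs c x ⊂ D`, `s0 < x`, `{y ∈ S | x < y} = {r | x < r ∧ r ∈ mi (cel c D)}`: induction hypothesis.
`up_out`: `S = {t | r0 < t ∧ t ∈ mi (cel c D) ∧ t ∉ mi H}`, `S' = {t | r0 < t ∧ cs c t = D}` (not in `mi H` since
`H ⊆ bdc c D`), for `x ∈ S \ S'`: `{y ∈ S | x < y} = {y | x < y ∧ y ∈ mi (cel c D)}` (`x ∉ mi H` implies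
`y ∉ mi H`): `up_cel`.
`nb_ok`: fibre lemma (`fib_Conn`, `fib_HZ`) for `p t = tr H t` (trace, file `Sdi`), target `mi H` (connected,
`H^1 = 0` by `sd_Conn`, `sd_HZ`); for `r0 ∈ mi H` the fibre `{t ∈ Nb | r0 ≤ tr H t}` is the set of `up_out`
(`t ≠ r0` because `t ∉ mi H`).
-/

open Classical

noncomputable section

namespace MOT

variable {V0 V : Type} {G0 : SimpleGraph V0} {G : SimpleGraph V} {c : V → Set V0}

theorem up_add {P : Type} [PartialOrder P] [Finite P] {S S' : Set P} (hs : S' ⊆ S)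
    (hu : ∀ x ∈ S', ∀ y ∈ S, x ≤ y → y ∈ S')
    (hx : ∀ x ∈ S, x ∉ S' → Conn (cmp P) {y | y ∈ S ∧ x < y})
    (hc : Conn (cmp P) S') (hz : HZ (cmp P) S') : Conn (cmp P) S ∧ HZ (cmp P) S := by
  obtain ⟨n, hn⟩ : ∃ n, n = (S \ S').ncard := ⟨_, rfl⟩
  induction n using Nat.strong_induction_on generalizing S' with
  | _ n ih =>
    by_cases he : (S \ S').Nonempty
    · obtain ⟨x, hxS, hmax⟩ := (Set.toFinite (S \ S')).exists_maximal he
      have up : ∀ y ∈ S, x < y → y ∈ S' := by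
        intro y hy hxy
        by_contra hyn
        exact not_le_of_gt hxy (hmax ⟨hy, hyn⟩ hxy.le)
      have hl : Lk (cmp P) {x} ∩ S' = {y | y ∈ S ∧ x < y} := by
        ext y
        constructor
        · rintro ⟨hy1, hy2⟩
          refine ⟨hs hy2, ?_⟩
          rcases hy1 x rfl with h1 | h1
          · exact h1
          · exact absurd (hu y hy2 x hxS.1 h1.le) hxS.2
        · rintro ⟨hy1, hy2⟩
          refine ⟨fun z hz => ?_, up y hy1 hy2⟩
          rw [Set.mem_singleton_iff] at hz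
          rw [hz]
          exact Or.inl hy2
      have hcl : Conn (cmp P) (Lk (cmp P) {x} ∩ S') := by
        rw [hl]
        exact hx x hxS.1 hxS.2
      refine ih (S \ insert x S').ncard ?_ (S' := insert x S') ?_ ?_ ?_ ?_ ?_ rfl
      · rw [hn]
        refine Set.ncard_lt_ncard ?_ (Set.toFinite _)
        refine ⟨fun y hy => ⟨hy.1, fun h1 => hy.2 (Set.mem_insert_of_mem x h1)⟩, fun h1 => ?_⟩
        exact (h1 hxS).2 (Set.mem_insert x S')
      · exact Set.insert_subset hxS.1 hs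
      · intro z hz y hy hzy
        rcases hz with rfl | hz
        · rcases hzy.eq_or_lt with h1 | h1
          · exact Or.inl h1.symm
          · exact Or.inr (up y hy h1)
        · exact Or.inr (hu z hz y hy hzy)
      · intro z hz hz'
        exact hx z hz fun h1 => hz' (Set.mem_insert_of_mem x h1)
      · exact (add_vertex_Conn hxS.2 hcl).2 hc
      · intro a ha
        refine add_vertex_Inj hxS.2 hcl a ha ?_
        exact Triv_rs.1 (hz _ (rs_mem (Set.subset_insert x S') ha))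
    · have e : S = S' := by
        refine Set.Subset.antisymm (fun y hy => ?_) hs
        by_contra h1
        exact he ⟨y, hy, h1⟩
      rw [e]
      exact ⟨hc, hz⟩

theorem up_cel [Finite V0] [Finite V] (h : CY G0 G c) {D : Set V0} (hD : G0.IsClique D)
    (s0 : Cq G) (hs : ∀ x ∈ s0.1, c x ⊂ D) :
    Conn (sd G) {r | s0 < r ∧ r ∈ mi G (cel c D)} ∧
      HZ (sd G) {r | s0 < r ∧ r ∈ mi G (cel c D)} := by
  have hwf : WellFoundedGT (Cq G) := Finite.to_wellFoundedGT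
  revert hs
  induction s0 using hwf.induction with
  | _ s0 ih =>
    intro hs
    have hh := up_half h hD s0 hs
    refine up_add (P := Cq G) (S' := {r | s0 < r ∧ cs c r = D}) ?_ ?_ ?_ hh.1 hh.2
    · rintro r ⟨h1, h2⟩
      exact ⟨h1, cs_sub.1 h2.subset⟩
    · rintro x ⟨h1, h2⟩ y ⟨h3, h4⟩ hxy
      refine ⟨h3, Set.Subset.antisymm (cs_sub.2 h4) ?_⟩
      rw [← h2]
      exact cs_mono hxy
    · rintro x ⟨h1, h2⟩ h3
      have h4 : cs c x ⊂ D := lt_of_le_of_ne (cs_sub.2 h2) fun h5 => h3 ⟨h1, h5⟩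
      have e : {y | y ∈ {r : Cq G | s0 < r ∧ r ∈ mi G (cel c D)} ∧ x < y} =
          {r : Cq G | x < r ∧ r ∈ mi G (cel c D)} := by
        ext y
        constructor
        · rintro ⟨h5, h6⟩
          exact ⟨h6, h5.2⟩
        · rintro ⟨h5, h6⟩
          exact ⟨⟨h1.trans h5, h6⟩, h5⟩
      rw [e]
      exact (ih x h1 ((cs_ssub h).1 h4)).1

theorem up_out [Finite V0] [Finite V] (h : CY G0 G c) {D : Set V0} (hD : G0.IsClique D)
    {H : Set V} (hH : H ⊆ bdc c D) {r0 : Cq G} (hr : r0 ∈ mi G H) :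
    Conn (sd G) {t | r0 < t ∧ t ∈ mi G (cel c D) ∧ t ∉ mi G H} ∧
      HZ (sd G) {t | r0 < t ∧ t ∈ mi G (cel c D) ∧ t ∉ mi G H} := by
  have hs : ∀ x ∈ r0.1, c x ⊂ D := fun x hx => hH (hr x hx)
  have hh := up_half h hD r0 hs
  refine up_add (P := Cq G) (S' := {r | r0 < r ∧ cs c r = D}) ?_ ?_ ?_ hh.1 hh.2
  · rintro r ⟨h1, h2⟩
    refine ⟨h1, cs_sub.1 h2.subset, fun h3 => ?_⟩
    obtain ⟨x, hx, hxD⟩ := ((cs_eq h).1 h2).2
    have h4 : c x ⊂ D := hH (h3 x hx)
    rw [hxD] at h4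
    exact h4.2 h4.1
  · rintro x ⟨h1, h2⟩ y ⟨h3, h4, -⟩ hxy
    refine ⟨h3, Set.Subset.antisymm (cs_sub.2 h4) ?_⟩
    rw [← h2]
    exact cs_mono hxy
  · rintro x ⟨h1, h2, h2'⟩ h3
    have h4 : cs c x ⊂ D := lt_of_le_of_ne (cs_sub.2 h2) fun h5 => h3 ⟨h1, h5⟩
    have e : {y | y ∈ {t : Cq G | r0 < t ∧ t ∈ mi G (cel c D) ∧ t ∉ mi G H} ∧ x < y} =
        {r : Cq G | x < r ∧ r ∈ mi G (cel c D)} := by
      ext y
      constructor
      · rintro ⟨h5, h6⟩
        exact ⟨h6, h5.2.1⟩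
      · rintro ⟨h5, h6⟩
        exact ⟨⟨h1.trans h5, h6, fun h7 => h2' fun z hz => h7 z (h5.le hz)⟩, h5⟩
    rw [e]
    exact (up_cel h hD x ((cs_ssub h).1 h4)).1

/-- the simplices of `T` which meet `H` and are not inside `H` -/
def Nbh (G : SimpleGraph V) (T H : Set V) : Set (Cq G) := {t | t ∈ mi G T ∧ t ∈ pl G H ∧ t ∉ mi G H}

theorem nb_ok [Finite V0] [Finite V] (h : CY G0 G c) {D : Set V0} (hD : G0.IsClique D)
    {H : Set V} (hH : H ⊆ bdc c D) (hc : Conn G H) (hz : HZ G H) :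
    Conn (sd G) (Nbh G (cel c D) H) ∧ HZ (sd G) (Nbh G (cel c D) H) := by
  have hf : ∀ y ∈ mi G H, {x | x ∈ Nbh G (cel c D) H ∧ y ≤ tr H x} =
      {t | y < t ∧ t ∈ mi G (cel c D) ∧ t ∉ mi G H} := by
    intro y hy
    ext t
    constructor
    · rintro ⟨⟨h1, h2, h3⟩, h4⟩
      refine ⟨lt_of_le_of_ne (h4.trans (tr_le t)) fun h5 => h3 (h5 ▸ hy), h1, h3⟩
    · rintro ⟨h1, h2, h3⟩
      have h4 : t ∈ pl G H := by
        obtain ⟨x, hx⟩ := y.2.1
        exact ⟨x, h1.le hx, hy x hx⟩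
      refine ⟨⟨h2, h4, h3⟩, ?_⟩
      rw [Cq.le_iff, tr_val h4]
      intro x hx
      exact Finset.mem_filter.2 ⟨h1.le hx, hy x hx⟩
  have hm : ∀ x ∈ Nbh G (cel c D) H, ∀ y ∈ Nbh G (cel c D) H, x ≤ y → tr H x ≤ tr H y :=
    fun x hx y _ hxy => tr_mono hx.2.1 hxy
  have hp : ∀ x ∈ Nbh G (cel c D) H, tr H x ∈ mi G H := fun x hx => tr_mem hx.2.1
  refine ⟨fib_Conn (tr H) hm hp (fun y hy => ?_) (sd_Conn.2 hc),
    fib_HZ (tr H) hm hp (fun y hy => ?_) (sd_HZ.2 hz)⟩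
  · rw [hf y hy]
    exact (up_out h hD hH hy).1
  · rw [hf y hy]
    exact up_out h hD hH hy

end MOT
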