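import Pool.Agent.MOT.TlA
import Pool.Agent.MOT.TlB

/-!
# MOT: THIN, fillings: insertion of a leaf (helper23)

`ins_mid`: `T = cel c D`, `C0` connected with `H^1 = 0`, `H ⊆ C0 ⊆ T`, `H ⊆ bdc c D` connected with `H^1 = 0`,
`U := {s ∈ mi T | s meets C0, s ∉ mi H}`, assumed nonempty.  `W := pl C0 ∩ mi T = U ∪ mi H` is between `mi C0`
and `pl C0`: connected with `H^1 = 0` (`bt_Conn`, `bt_HZ`).  The neighbours of `mi H` in `U` are exactly in
`Nbh G T H ⊆ U` (`t < s ∈ mi H` is in `mi H`; `s < t` with `t ∉ mi H`), which is connected with `H^1 = 0`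
(`nb_ok`).
 Connected (`Conn_iff`): a function constant on the edges of `U` is constant on `Nbh`, extend it by this
 constant to `mi H`: constant on the edges of `W`, so constant.
 `H^1 = 0`: `a ∈ Z1 U`, `a = d g` on `Nbh`; `a' = a` on `U`, `a' s t = a' t s = g t` for `s ∈ mi H`, `t ∈ Nbh`
 comparable, `0` on `mi H`: a cocycle of `W`, so trivial on `W`, hence `a` is trivial on `U`.
`ins`: `M1 := mi M ∪ mi H`, `T = cel c D`, `S = bdc c D`.
 Components of `M1 ∩ mi T`: `mi M` and `mi H` are not adjacent (comparable simplices have a common vertex,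
 `H` and `M` are disjoint).  The component of a point of `mi H` is `mi H` (connected), it has `H^1 = 0`, and
 `mi H ∩ mi S = mi H`.  The component of a point of `mi M ∩ mi T` is `mi C`, `C` a component of `M ∩ T`
 (`comp_mi`), as in `gc_mi`.
 Complement: `M1ᶜ ∩ mi T = {s ∈ mi T | s meets Mᶜ, s ∉ mi H}`.  Let `C0` be the component of `Mᶜ ∩ T` which
 contains `H`.  Components: `pl C ∩ mi T` for the components `C ≠ C0` of `Mᶜ ∩ T` (as in `gc_pl`), and
 `U = {s ∈ mi T | s meets C0, s ∉ mi H}`, connected with `H^1 = 0` by `ins_mid` (it contains the vertices of `N`).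
 `U ∩ mi S`: `C0 ∩ S` is connected (`GC`), contains `H`, lies in `S \ M`; as `H ∪ N` is connected and closed under
 neighbours in `S \ M` (`LD.nbh`, `LD.nbn`), `C0 ∩ S = H ∪ N`.  So `U ∩ mi S = {s ∈ mi S | s meets N}` (if `s`
 meets `H` and not `N` then `s ⊆ H` by `LD.nbh`), between `mi N` and `pl N`: connected (`bt_Conn`).
-/

open Classical

noncomputable section

namespace MOT

variable {V0 V : Type} {G0 : SimpleGraph V0} {G : SimpleGraph V} {c : V → Set V0}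

private theorem tlc_sub {A A' C : Set (Cq G)} (h : IsComp (sd G) A C) (hC : C ⊆ A')
    (hA : A' ⊆ A) : IsComp (sd G) A' C :=
  IsComp_of h.conn hC fun x hx y hy => h.nadj x hx y ⟨hA hy.1, hy.2⟩

private theorem tlc_big {A A' C : Set (Cq G)} (h : IsComp (sd G) A C) (hA : A ⊆ A')
    (hn : NAdj (sd G) C (A' \ A)) : IsComp (sd G) A' C := by
  refine IsComp_of h.conn (h.sub.trans hA) fun x hx y hy => ?_
  by_cases hyA : y ∈ A
  · exact h.nadj x hx y ⟨hyA, hy.2⟩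
  · exact hn x hx y ⟨hy.1, hyA⟩

private theorem tlc_na {H M : Set V} (hd : Disjoint H M) {x y : Cq G} (hx : x ∈ mi G M)
    (hy : y ∈ mi G H) : ¬ (sd G).Adj x y := by
  rintro (h1 | h1)
  · obtain ⟨v, hv⟩ := x.2.1
    exact Set.disjoint_left.1 hd (hy v ((Cq.le_iff.1 h1.le) hv)) (hx v hv)
  · obtain ⟨v, hv⟩ := y.2.1
    exact Set.disjoint_left.1 hd (hy v hv) (hx v ((Cq.le_iff.1 h1.le) hv))

theorem ins_mid [Finite V0] [Finite V] (h : CY G0 G c) {D : Set V0} (hD : G0.IsClique D)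
    {H C0 : Set V} (hH : H ⊆ bdc c D) (hc : Conn G H) (hz : HZ G H) (hHC : H ⊆ C0)
    (hCT : C0 ⊆ cel c D) (hc0 : Conn G C0) (hz0 : HZ G C0)
    (hne : {s | s ∈ mi G (cel c D) ∧ s ∈ pl G C0 ∧ s ∉ mi G H}.Nonempty) :
    Conn (sd G) {s | s ∈ mi G (cel c D) ∧ s ∈ pl G C0 ∧ s ∉ mi G H} ∧
      HZ (sd G) {s | s ∈ mi G (cel c D) ∧ s ∈ pl G C0 ∧ s ∉ mi G H} := by
  set T : Set V := cel c D with hT
  set U : Set (Cq G) := {s | s ∈ mi G T ∧ s ∈ pl G C0 ∧ s ∉ mi G H} with hU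
  set W : Set (Cq G) := pl G C0 ∩ mi G T with hW
  have hmW : mi G C0 ⊆ W := fun s hs => ⟨mi_sub_pl hs, mi_mono hCT hs⟩
  have hWc : Conn (sd G) W := (bt_Conn hmW Set.inter_subset_left).2 hc0
  have hWz : HZ (sd G) W := (bt_HZ hmW Set.inter_subset_left).2 hz0
  have hUW : U ⊆ W := fun s hs => ⟨hs.2.1, hs.1⟩
  have hWU : ∀ s ∈ W, s ∉ mi G H → s ∈ U := fun s hs h1 => ⟨hs.2, hs.1, h1⟩
  have hNU : Nbh G T H ⊆ U := fun s hs => ⟨hs.1, pl_mono hHC hs.2.1, hs.2.2⟩
  have hnb : Conn (sd G) (Nbh G T H) ∧ HZ (sd G) (Nbh G T H) := nb_ok h hD hH hc hz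
  -- a neighbour of `mi H` which is not in `mi H` is in `Nbh`
  have key : ∀ x y, EIn (sd G) W x y → x ∈ mi G H → y ∉ mi G H → y ∈ Nbh G T H := by
    intro x y e hx hy
    rcases e.1 with h1 | h1
    · obtain ⟨v, hv⟩ := x.2.1
      exact ⟨e.2.2.2, ⟨v, (Cq.le_iff.1 h1.le) hv, hx v hv⟩, hy⟩
    · exact absurd (fun v hv => hx v ((Cq.le_iff.1 h1.le) hv)) hy
  refine ⟨?_, ?_⟩
  · rw [Conn_iff]
    refine ⟨hne, fun f hf x hx y hy => ?_⟩
    obtain ⟨t0, ht0⟩ := hnb.1.1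
    have hfN : ∀ t ∈ Nbh G T H, f t = f t0 := fun t ht =>
      hnb.1.const (fun p q e => hf p q (e.mono hNU)) ht ht0
    have h1 := hWc.const (f := fun s => if s ∈ mi G H then f t0 else f s) (fun p q e => by
      by_cases hp : p ∈ mi G H
      · by_cases hq : q ∈ mi G H
        · simp only [if_pos hp, if_pos hq]
        · simp only [if_pos hp, if_neg hq]
          exact (hfN q (key p q e hp hq)).symm
      · by_cases hq : q ∈ mi G H
        · simp only [if_neg hp, if_pos hq]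
          exact hfN p (key q p e.symm hq hp)
        · simp only [if_neg hp, if_neg hq]
          exact hf p q ⟨e.1, hWU p e.2.1 hp, hWU q e.2.2 hq⟩) (hUW hx) (hUW hy)
    simp only [if_neg hx.2.2, if_neg hy.2.2] at h1
    exact h1
  · intro a ha
    obtain ⟨g, hg⟩ := Triv_rs.1 (hnb.2 _ (rs_mem hNU ha))
    set g' : Cq G → ZMod 2 := fun s => if s ∈ Nbh G T H then g s else 0 with hg'
    set b : Cq G → Cq G → ZMod 2 := a + cb (sd G) U g' with hb
    have hbU : b ∈ Z1 (sd G) U := (Z1 (sd G) U).add_mem ha (cb_mem g')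
    obtain ⟨b0, bs, bc⟩ := mem_Z1.1 hbU
    have hmz : ∀ p q, p ∈ mi G H ∨ q ∈ mi G H → b p q = 0 := by
      intro p q hpq
      refine b0 p q fun e => ?_
      rcases hpq with h1 | h1
      · exact e.2.1.2.2 h1
      · exact e.2.2.2.2 h1
    have hnz : ∀ p q, (sd G).Adj p q → p ∈ Nbh G T H → q ∈ Nbh G T H → b p q = 0 := by
      intro p q e hp hq
      have e1 : EIn (sd G) U p q := ⟨e, hNU hp, hNU hq⟩
      have e2 : b p q = a p q + cb (sd G) U g' p q := rfl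
      rw [e2, cb_apply e1, hg p q ⟨e, hp, hq⟩]
      have e3 : g' p = g p := if_pos hp
      have e4 : g' q = g q := if_pos hq
      rw [e3, e4]
      exact two_add _
    have hv : ∀ p q r, EIn (sd G) W p q → EIn (sd G) W r p → EIn (sd G) W r q → r ∈ mi G H →
        b p q = 0 := by
      intro p q r e1 e2 e3 hr
      by_cases hp : p ∈ mi G H
      · exact hmz p q (Or.inl hp)
      · by_cases hq : q ∈ mi G H
        · exact hmz p q (Or.inr hq)
        · exact hnz p q e1.1 (key r p e2 hr hp) (key r q e3 hr hq)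
    have hbW : b ∈ Z1 (sd G) W := by
      refine mem_Z1.2 ⟨fun x y e => b0 x y fun e' => e (e'.mono hUW), bs, ?_⟩
      intro x y z e1 e2 e3
      by_cases hx : x ∈ mi G H
      · rw [hmz x y (Or.inl hx), hmz x z (Or.inl hx), hv y z x e2 e1 e3 hx, add_zero]
      · by_cases hy : y ∈ mi G H
        · rw [hmz x y (Or.inr hy), hmz y z (Or.inl hy), hv x z y e3 e1.symm e2 hy, add_zero]
        · by_cases hz' : z ∈ mi G H
          · rw [hmz x z (Or.inr hz'), hmz y z (Or.inr hz'), hv x y z e1 e3.symm e2.symm hz',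
              add_zero]
          · exact bc x y z ⟨e1.1, hWU x e1.2.1 hx, hWU y e1.2.2 hy⟩
              ⟨e2.1, hWU y e2.2.1 hy, hWU z e2.2.2 hz'⟩ ⟨e3.1, hWU x e3.2.1 hx, hWU z e3.2.2 hz'⟩
    have h1 : Triv (sd G) U b := (hWz b hbW).mono hUW
    refine (h1.add (cb_triv g')).congr fun x y _ => ?_
    have e2 : (b + cb (sd G) U g') x y = a x y + (cb (sd G) U g' x y + cb (sd G) U g' x y) := by
      rw [hb]
      simp only [Pi.add_apply, add_assoc]
    rw [e2, two_add, add_zero]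

theorem ins [Finite V0] [Finite V] (h : CY G0 G c) {D : Set V0} (hD : G0.IsClique D)
    {M H N : Set V} (g : GC G (cel c D) (bdc c D) M) (L : LD G (bdc c D) M H N) :
    GC (sd G) (mi G (cel c D)) (mi G (bdc c D)) (mi G M ∪ mi G H) := by
  set T : Set V := cel c D with hT
  set S : Set V := bdc c D with hS
  have hST : S ⊆ T := fun x hx => (show c x ⊂ D from hx).subset
  have hHT : H ⊆ T := L.hs.trans hST
  have hNT : N ⊆ T := L.ns.trans hST
  have hHM : ∀ x, x ∈ H → x ∉ M := fun x hx hm => Set.disjoint_left.1 L.hm hx hm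
  have hNM : ∀ x, x ∈ N → x ∉ M := fun x hx hm => Set.disjoint_left.1 L.nm hx hm
  have hHN : ∀ x, x ∈ H → x ∉ N := fun x hx hm => Set.disjoint_left.1 L.hn hx hm
  refine ⟨fun C hC => ?_, fun C hC => ?_⟩
  · obtain ⟨s0, hs0⟩ := hC.conn.1
    have hs0' := hC.sub hs0
    by_cases hsH : s0 ∈ mi G H
    · have h1 : IsComp (sd G) ((mi G M ∪ mi G H) ∩ mi G T) (mi G H) := by
        refine IsComp_of (sd_Conn.2 L.hc) (fun s hs => ⟨Or.inr hs, mi_mono hHT hs⟩) ?_
        rintro x hx y ⟨⟨hy, -⟩, hy'⟩ e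
        rcases hy with hy | hy
        · exact tlc_na L.hm hy hx e.symm
        · exact hy' hy
      have h2 : C = mi G H := hC.eq_of_inter h1 ⟨s0, hs0, hsH⟩
      rw [h2]
      refine ⟨sd_HZ.2 L.hz, ?_⟩
      rw [Set.inter_eq_left.2 (mi_mono L.hs)]
      exact sd_Conn.2 L.hc
    · have hsM : s0 ∈ mi G M := by
        rcases hs0'.1 with h1 | h1
        · exact h1
        · exact absurd h1 hsH
      have hsMT : s0 ∈ mi G (M ∩ T) := fun x hx => ⟨hsM x hx, hs0'.2 x hx⟩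
      have h1 : IsComp (sd G) (mi G (M ∩ T)) (comp (sd G) (mi G (M ∩ T)) s0) := ⟨s0, hsMT, rfl⟩
      have h2 : IsComp (sd G) ((mi G M ∪ mi G H) ∩ mi G T) (comp (sd G) (mi G (M ∩ T)) s0) := by
        refine tlc_big h1 ?_ ?_
        · exact fun s hs => ⟨Or.inl fun x hx => (hs x hx).1, fun x hx => (hs x hx).2⟩
        · rintro x hx y ⟨⟨hy, hyT⟩, hy'⟩ e
          rcases hy with hy | hy
          · exact hy' fun v hv => ⟨hy v hv, hyT v hv⟩
          · exact tlc_na L.hm (fun v hv => (h1.sub hx v hv).1) hy e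
      have h3 := hC.eq_of_inter h2 ⟨s0, hs0, comp_self hsMT⟩
      obtain ⟨C2, hC2, e2⟩ := comp_mi h1
      rw [h3, e2]
      refine ⟨sd_HZ.2 (g.1 C2 hC2).1, ?_⟩
      rw [← mi_inter]
      exact sd_Conn.2 (g.1 C2 hC2).2
  · obtain ⟨s0, hs0⟩ := hC.conn.1
    have hs0' := hC.sub hs0
    have hAA : (mi G M ∪ mi G H)ᶜ ∩ mi G T ⊆ pl G (Mᶜ ∩ T) ∩ mi G T := by
      rintro s ⟨h1, h2⟩
      refine ⟨?_, h2⟩
      by_contra h3
      refine h1 (Or.inl fun x hx => ?_)
      by_contra h4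
      exact h3 ⟨x, hx, h4, h2 x hx⟩
    have hs0A := hAA hs0'
    have h1 : IsComp (sd G) (pl G (Mᶜ ∩ T) ∩ mi G T) (comp (sd G) (pl G (Mᶜ ∩ T) ∩ mi G T) s0) :=
      ⟨s0, hs0A, rfl⟩
    have hself := comp_self (G := sd G) hs0A
    obtain ⟨C2, hC2, e2⟩ := comp_pl Set.inter_subset_right h1
    rw [e2] at h1 hself
    have hC2T : C2 ⊆ T := fun x hx => (hC2.sub hx).2
    have hC2M : ∀ x ∈ C2, x ∉ M := fun x hx => (hC2.sub hx).1
    have hH0 : H ⊆ Mᶜ ∩ T := fun x hx => ⟨hHM x hx, hHT hx⟩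
    have hN0 : N ⊆ Mᶜ ∩ T := fun x hx => ⟨hNM x hx, hNT hx⟩
    have hg := g.2 C2 hC2
    by_cases hHC : (H ∩ C2).Nonempty
    · have hHC2 : H ⊆ C2 := hC2.absorb L.hc hH0 hHC
      have hs0U : s0 ∈ {s | s ∈ mi G T ∧ s ∈ pl G C2 ∧ s ∉ mi G H} :=
        ⟨hself.2, hself.1, fun h2 => hs0'.1 (Or.inr h2)⟩
      have hU := ins_mid h hD L.hs L.hc L.hz hHC2 hC2T hC2.conn hg.1 ⟨s0, hs0U⟩
      have h2 : IsComp (sd G) ((mi G M ∪ mi G H)ᶜ ∩ mi G T)
          {s | s ∈ mi G T ∧ s ∈ pl G C2 ∧ s ∉ mi G H} := by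
        refine IsComp_of hU.1 ?_ ?_
        · rintro s ⟨h2, ⟨x, hx, hxC⟩, h3⟩
          refine ⟨?_, h2⟩
          rintro (h4 | h4)
          · exact hC2M x hxC (h4 x hx)
          · exact h3 h4
        · rintro x ⟨hx1, hx2, hx3⟩ y ⟨hy, hy'⟩ e
          by_cases hyC : y ∈ pl G C2 ∩ mi G T
          · exact hy' ⟨hyC.2, hyC.1, fun h4 => hy.1 (Or.inr h4)⟩
          · exact h1.nadj x ⟨hx2, hx1⟩ y ⟨hAA hy, hyC⟩ e
      rw [hC.eq_of_inter h2 ⟨s0, hs0, hs0U⟩]
      refine ⟨hU.2, ?_⟩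
      -- `C2 ∩ S = H ∪ N`
      have hCS : ∀ y ∈ C2 ∩ S, y ∈ H ∨ y ∈ N := by
        obtain ⟨x0, hx0⟩ := L.hc.1
        intro y hy
        have hr := hg.2.2 x0 ⟨hHC2 hx0, L.hs hx0⟩ y hy
        clear hy
        induction hr with
        | refl => exact Or.inl hx0
        | tail _ e ih =>
          rcases ih with ih | ih
          · exact L.nbh _ ih _ e.2.2.2 e.1
          · rcases L.nbn _ ih _ e.2.2.2 e.1 with h3 | h3 | h3
            · exact Or.inl h3
            · exact Or.inr h3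
            · exact absurd h3 (hC2M _ e.2.2.1)
      have hNC : N ⊆ C2 := by
        obtain ⟨x, hx, y, hy, e⟩ := L.adj
        refine hC2.absorb L.nc hN0 ⟨y, hy, ?_⟩
        by_contra h3
        exact hC2.nadj x (hHC2 hx) y ⟨hN0 hy, h3⟩ e
      refine (bt_Conn (M := N) ?_ ?_).2 L.nc
      · intro s hs
        obtain ⟨x, hx⟩ := s.2.1
        exact ⟨⟨mi_mono hNT hs, pl_mono hNC (mi_sub_pl hs), fun h4 => hHN x (h4 x hx) (hs x hx)⟩,
          mi_mono L.ns hs⟩
      · rintro s ⟨⟨-, ⟨x, hx, hxC⟩, h3⟩, h4⟩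
        rcases hCS x ⟨hxC, h4 x hx⟩ with h5 | h5
        · have h6 : ∃ y ∈ s.1, y ∉ H := by
            by_contra h7
            push Not at h7
            exact h3 h7
          obtain ⟨y, hy, hyH⟩ := h6
          have hxy : x ≠ y := fun h7 => hyH (h7 ▸ h5)
          have e := s.2.2 (Finset.mem_coe.2 hx) (Finset.mem_coe.2 hy) hxy
          rcases L.nbh x h5 y (h4 y hy) e with h8 | h8
          · exact absurd h8 hyH
          · exact ⟨y, hy, h8⟩
        · exact ⟨x, hx, h5⟩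
    · have h2 : IsComp (sd G) ((mi G M ∪ mi G H)ᶜ ∩ mi G T) (pl G C2 ∩ mi G T) := by
        refine tlc_sub h1 ?_ hAA
        rintro s ⟨⟨x, hx, hxC⟩, h2⟩
        refine ⟨?_, h2⟩
        rintro (h4 | h4)
        · exact hC2M x hxC (h4 x hx)
        · exact hHC ⟨x, h4 x hx, hxC⟩
      rw [hC.eq_of_inter h2 ⟨s0, hs0, hself⟩]
      have hmC : mi G C2 ⊆ pl G C2 ∩ mi G T := fun s hs => ⟨mi_sub_pl hs, mi_mono hC2T hs⟩
      refine ⟨(bt_HZ hmC Set.inter_subset_left).2 hg.1,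
        (bt_Conn (M := C2 ∩ S) ?_ ?_).2 hg.2⟩
      · intro s hs
        exact ⟨⟨pl_mono Set.inter_subset_left (mi_sub_pl hs), fun x hx => hST (hs x hx).2⟩,
          fun x hx => (hs x hx).2⟩
      · rintro s ⟨⟨⟨x, hx, hxC⟩, -⟩, h4⟩
        exact ⟨x, hx, hxC, h4 x hx⟩

end MOT
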