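import Pool.Agent.MOT.TlA

/-!
# MOT: THIN, fillings: leaf data on the subdivision (helper23)

`ld_mi`: new sets `mi M`, `mi H`, `N' = mi S ∩ pl N`.  `N'` is between `mi N` and `pl N`: connected.  If `s ∈ N'` and
`t` comparable with `s` in `mi S`: `s < t`: `t ∈ N'`.  `t < s`: if `t` meets `N`, `t ∈ N'`; otherwise `t` has vertices
in `S` adjacent to a vertex of `N ∩ s`, so in `H ∪ M` (`LD.nbn`), and `H`, `M` are not adjacent in `S`
(`LD.nbh`, disjointness), so `t ∈ mi H` or `t ∈ mi M`.  If `s ∈ mi H`, `s < t`, `t ∈ mi S`: all vertices of `t` are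
in `H ∪ N` (`LD.nbh`): `t ∈ mi H` or `t` meets `N`.  Adjacent pair: `{x}`, `{x, y}`, `x ∈ H`, `y ∈ N`.
`ld_pl`: new sets `pl M`, `H' = mi S ∩ pl H`, `mi N`.  `H'` is between `mi H` and `pl H`: connected, `H^1 = 0`.  A
simplex of `S` which meets `H` has all vertices in `H ∪ N` (`LD.nbh`).  `t` comparable with `s ∈ H'`: `s < t`:
`t ∈ H'`; `t < s`: `t ⊆ H ∪ N`, `t ∈ H'` or `t ∈ mi N`.  `t` comparable with `s ∈ mi N`: `t < s`: `t ∈ mi N`;
`s < t`: `t` in `mi N`, or meets `H`, or meets `M` (`LD.nbn`).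
`ld_union`: for a set `A` with `A ∩ S = (M ∩ S) ∪ H`: `mi A` and `mi M ∪ mi H` have the same trace on `mi S`, and
`pl A` and `pl M ∪ (mi S ∩ pl H)` too.
-/

open Classical

noncomputable section

namespace MOT

variable {V : Type} {G : SimpleGraph V} {S M H N : Set V}

private theorem TlD_lt {x y : V} (h : G.Adj x y) : vx G x < eg G h := by
  rw [Cq.lt_iff]
  refine ⟨by simp [vx, eg], fun hh => ?_⟩
  have h1 : y ∈ (vx G x).1 := hh (by simp [eg])
  have h2 : y = x := by simpa [vx] using h1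
  exact h.ne h2.symm

private theorem TlD_lt' {x y : V} (h : G.Adj x y) : vx G y < eg G h := by
  rw [Cq.lt_iff]
  refine ⟨by simp [vx, eg], fun hh => ?_⟩
  have h1 : x ∈ (vx G y).1 := hh (by simp [eg])
  have h2 : x = y := by simpa [vx] using h1
  exact h.ne h2

private theorem TlD_vx {x : V} {A : Set V} (h : x ∈ A) : vx G x ∈ mi G A := by
  intro y hy
  have h1 : y = x := by simpa [vx] using hy
  rw [h1]
  exact h

private theorem TlD_eg {x y : V} {A : Set V} (e : G.Adj x y) (hx : x ∈ A) (hy : y ∈ A) :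
    eg G e ∈ mi G A := by
  intro z hz
  have h1 : z = x ∨ z = y := by simpa [eg] using hz
  rcases h1 with rfl | rfl
  · exact hx
  · exact hy

private theorem TlD_adj {s : Cq G} {x y : V} (hx : x ∈ s.1) (hy : y ∈ s.1) :
    x = y ∨ G.Adj x y := by
  by_cases h : x = y
  · exact Or.inl h
  · exact Or.inr (s.2.2 (Finset.mem_coe.2 hx) (Finset.mem_coe.2 hy) h)

theorem ld_mi (L : LD G S M H N) :
    LD (sd G) (mi G S) (mi G M) (mi G H) (mi G S ∩ pl G N) := by
  refine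
    { hs := mi_mono L.hs
      ns := Set.inter_subset_left
      hm := ?_
      nm := ?_
      hn := ?_
      hc := sd_Conn.2 L.hc
      hz := sd_HZ.2 L.hz
      nc := (bt_Conn (M := N) (N := mi G S ∩ pl G N) (fun s hs => ⟨mi_mono L.ns hs, mi_sub_pl hs⟩)
        Set.inter_subset_right).2 L.nc
      adj := ?_
      nbh := ?_
      nbn := ?_ }
  · rw [Set.disjoint_left]
    intro s hs hs'
    obtain ⟨x, hx⟩ := s.2.1
    exact Set.disjoint_left.1 L.hm (hs x hx) (hs' x hx)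
  · rw [Set.disjoint_left]
    rintro s ⟨-, x, hx, hxN⟩ hs'
    exact Set.disjoint_left.1 L.nm hxN (hs' x hx)
  · rw [Set.disjoint_left]
    rintro s hs ⟨-, x, hx, hxN⟩
    exact Set.disjoint_left.1 L.hn (hs x hx) hxN
  · obtain ⟨x, hx, y, hy, e⟩ := L.adj
    refine ⟨vx G x, TlD_vx hx, eg G e, ⟨TlD_eg e (L.hs hx) (L.ns hy), y, ?_, hy⟩,
      Or.inl (TlD_lt e)⟩
    simp [eg]
  · intro s hs t ht e
    rcases e with e | e
    · obtain ⟨x, hx⟩ := s.2.1
      have hxt : x ∈ t.1 := (Cq.le_iff.1 e.le) hx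
      by_cases hN : ∃ y ∈ t.1, y ∈ N
      · exact Or.inr ⟨ht, hN⟩
      · refine Or.inl fun y hy => ?_
        rcases TlD_adj hxt hy with rfl | h1
        · exact hs x hx
        · rcases L.nbh x (hs x hx) y (ht y hy) h1 with h2 | h2
          · exact h2
          · exact absurd ⟨y, hy, h2⟩ hN
    · exact Or.inl fun y hy => hs y ((Cq.le_iff.1 e.le) hy)
  · rintro s ⟨hs, x, hx, hxN⟩ t ht e
    rcases e with e | e
    · exact Or.inr (Or.inl ⟨ht, x, (Cq.le_iff.1 e.le) hx, hxN⟩)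
    · by_cases hN : ∃ y ∈ t.1, y ∈ N
      · exact Or.inr (Or.inl ⟨ht, hN⟩)
      · have h1 : ∀ y ∈ t.1, y ∈ H ∨ y ∈ M := by
          intro y hy
          have hys : y ∈ s.1 := (Cq.le_iff.1 e.le) hy
          rcases TlD_adj hx hys with rfl | h2
          · exact absurd ⟨x, hy, hxN⟩ hN
          · rcases L.nbn x hxN y (ht y hy) h2 with h3 | h3 | h3
            · exact Or.inl h3
            · exact absurd ⟨y, hy, h3⟩ hN
            · exact Or.inr h3
        by_cases hH : ∃ y ∈ t.1, y ∈ H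
        · obtain ⟨y, hy, hyH⟩ := hH
          refine Or.inl fun z hz => ?_
          rcases h1 z hz with h2 | h2
          · exact h2
          · exfalso
            rcases TlD_adj hy hz with rfl | h3
            · exact Set.disjoint_left.1 L.hm hyH h2
            · rcases L.nbh y hyH z (ht z hz) h3 with h4 | h4
              · exact Set.disjoint_left.1 L.hm h4 h2
              · exact Set.disjoint_left.1 L.nm h4 h2
        · refine Or.inr (Or.inr fun z hz => ?_)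
          rcases h1 z hz with h2 | h2
          · exact absurd ⟨z, hz, h2⟩ hH
          · exact h2

theorem ld_pl (L : LD G S M H N) :
    LD (sd G) (mi G S) (pl G M) (mi G S ∩ pl G H) (mi G N) := by
  have hHN : ∀ s : Cq G, s ∈ mi G S → ∀ x ∈ s.1, x ∈ H → ∀ y ∈ s.1, y ∈ H ∨ y ∈ N := by
    intro s hs x hx hxH y hy
    rcases TlD_adj hx hy with rfl | h1
    · exact Or.inl hxH
    · exact L.nbh x hxH y (hs y hy) h1
  refine
    { hs := Set.inter_subset_left
      ns := mi_mono L.ns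
      hm := ?_
      nm := ?_
      hn := ?_
      hc := (bt_Conn (M := H) (N := mi G S ∩ pl G H) (fun s hs => ⟨mi_mono L.hs hs, mi_sub_pl hs⟩)
        Set.inter_subset_right).2 L.hc
      hz := (bt_HZ (M := H) (N := mi G S ∩ pl G H) (fun s hs => ⟨mi_mono L.hs hs, mi_sub_pl hs⟩)
        Set.inter_subset_right).2 L.hz
      nc := sd_Conn.2 L.nc
      adj := ?_
      nbh := ?_
      nbn := ?_ }
  · rw [Set.disjoint_left]
    rintro s ⟨hs, x, hx, hxH⟩ ⟨y, hy, hyM⟩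
    rcases hHN s hs x hx hxH y hy with h2 | h2
    · exact Set.disjoint_left.1 L.hm h2 hyM
    · exact Set.disjoint_left.1 L.nm h2 hyM
  · rw [Set.disjoint_left]
    rintro s hs ⟨y, hy, hyM⟩
    exact Set.disjoint_left.1 L.nm (hs y hy) hyM
  · rw [Set.disjoint_left]
    rintro s ⟨-, x, hx, hxH⟩ hs'
    exact Set.disjoint_left.1 L.hn hxH (hs' x hx)
  · obtain ⟨x, hx, y, hy, e⟩ := L.adj
    refine ⟨eg G e, ⟨TlD_eg e (L.hs hx) (L.ns hy), x, ?_, hx⟩, vx G y, TlD_vx hy,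
      Or.inr (TlD_lt' e)⟩
    simp [eg]
  · rintro s ⟨hs, x, hx, hxH⟩ t ht e
    rcases e with e | e
    · exact Or.inl ⟨ht, x, (Cq.le_iff.1 e.le) hx, hxH⟩
    · by_cases hH : ∃ y ∈ t.1, y ∈ H
      · exact Or.inl ⟨ht, hH⟩
      · refine Or.inr fun y hy => ?_
        rcases hHN s hs x hx hxH y ((Cq.le_iff.1 e.le) hy) with h2 | h2
        · exact absurd ⟨y, hy, h2⟩ hH
        · exact h2
  · intro s hs t ht e
    rcases e with e | e
    · obtain ⟨x, hx⟩ := s.2.1
      have hxt : x ∈ t.1 := (Cq.le_iff.1 e.le) hx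
      by_cases hH : ∃ y ∈ t.1, y ∈ H
      · exact Or.inl ⟨ht, hH⟩
      · by_cases hM : ∃ y ∈ t.1, y ∈ M
        · exact Or.inr (Or.inr hM)
        · refine Or.inr (Or.inl fun y hy => ?_)
          rcases TlD_adj hxt hy with rfl | h1
          · exact hs x hx
          · rcases L.nbn x (hs x hx) y (ht y hy) h1 with h2 | h2 | h2
            · exact absurd ⟨y, hy, h2⟩ hH
            · exact h2
            · exact absurd ⟨y, hy, h2⟩ hM
    · exact Or.inr (Or.inl fun y hy => hs y ((Cq.le_iff.1 e.le) hy))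

theorem ld_union_mi (L : LD G S M H N) {A : Set V} (hA : A ∩ S = (M ∩ S) ∪ H) :
    mi G A ∩ mi G S = (mi G M ∩ mi G S) ∪ mi G H := by
  have hAm : ∀ x, x ∈ A → x ∈ S → (x ∈ M ∧ x ∈ S) ∨ x ∈ H := by
    intro x h1 h2
    have h3 : x ∈ A ∩ S := ⟨h1, h2⟩
    rw [hA] at h3
    exact h3
  have hAm' : ∀ x, ((x ∈ M ∧ x ∈ S) ∨ x ∈ H) → x ∈ A := by
    intro x h1
    have h3 : x ∈ (M ∩ S) ∪ H := h1
    rw [← hA] at h3
    exact h3.1
  ext s
  constructor
  · rintro ⟨h1, h2⟩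
    by_cases hH : ∃ x ∈ s.1, x ∈ H
    · obtain ⟨x, hx, hxH⟩ := hH
      refine Or.inr fun y hy => ?_
      rcases hAm y (h1 y hy) (h2 y hy) with h3 | h3
      · exfalso
        rcases TlD_adj hx hy with rfl | h4
        · exact Set.disjoint_left.1 L.hm hxH h3.1
        · rcases L.nbh x hxH y (h2 y hy) h4 with h5 | h5
          · exact Set.disjoint_left.1 L.hm h5 h3.1
          · exact Set.disjoint_left.1 L.nm h5 h3.1
      · exact h3
    · refine Or.inl ⟨fun y hy => ?_, h2⟩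
      rcases hAm y (h1 y hy) (h2 y hy) with h3 | h3
      · exact h3.1
      · exact absurd ⟨y, hy, h3⟩ hH
  · rintro (⟨h1, h2⟩ | h1)
    · exact ⟨fun y hy => hAm' y (Or.inl ⟨h1 y hy, h2 y hy⟩), h2⟩
    · exact ⟨fun y hy => hAm' y (Or.inr (h1 y hy)), mi_mono L.hs h1⟩

theorem ld_union_pl (L : LD G S M H N) {A : Set V} (hA : A ∩ S = (M ∩ S) ∪ H) :
    pl G A ∩ mi G S = (pl G M ∩ mi G S) ∪ (mi G S ∩ pl G H) := by
  have hAm : ∀ x, x ∈ A → x ∈ S → (x ∈ M ∧ x ∈ S) ∨ x ∈ H := by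
    intro x h1 h2
    have h3 : x ∈ A ∩ S := ⟨h1, h2⟩
    rw [hA] at h3
    exact h3
  have hAm' : ∀ x, ((x ∈ M ∧ x ∈ S) ∨ x ∈ H) → x ∈ A := by
    intro x h1
    have h3 : x ∈ (M ∩ S) ∪ H := h1
    rw [← hA] at h3
    exact h3.1
  ext s
  constructor
  · rintro ⟨⟨x, hx, hxA⟩, h2⟩
    rcases hAm x hxA (h2 x hx) with h3 | h3
    · exact Or.inl ⟨⟨x, hx, h3.1⟩, h2⟩
    · exact Or.inr ⟨h2, x, hx, h3⟩
  · rintro (⟨⟨x, hx, hxM⟩, h2⟩ | ⟨h2, x, hx, hxH⟩)
    · exact ⟨⟨x, hx, hAm' x (Or.inl ⟨hxM, h2 x hx⟩)⟩, h2⟩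
    · exact ⟨⟨x, hx, hAm' x (Or.inr hxH)⟩, h2⟩

end MOT
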