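import Pool.Agent.MOT.TlD
import Pool.Agent.MOT.TcT

/-!
# MOT: THIN, fillings: evolution along a schedule (helper23)

`ev K n k b A t`: the set `A` (level `n + k`) on level `n + (k + t)`, refined in step `t` by `mi` if `b t`, by `pl`
otherwise.  `ev_compl`: induction (`compl_mi`, `compl_pl`).

`ld_ev`: for leaf data `L` at level `n + k` (with `S = bdc (car K n k) D`) and every `t` there are `H', N'` with leaf
data at level `n + (k + t)` for `ev M` and, if `A ∩ S = (M ∩ S) ∪ H`, `ev A ∩ S' = (ev M ∩ S') ∪ H'`.  Induction on `t`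
with `ld_mi`, `ld_union_mi` (if `b t`) and `ld_pl`, `ld_union_pl` (otherwise); `mi S = S'` is `mi_bdc` (with
`tw_cy`, needs `1 ≤ k`, written as level `k + 1`).

`fill_idle`: induction on `t'` (`Nat.le_induction`): `gc_mi` or `gc_pl` according to `b t'`; the trace of `mi M` on
`mi S` is `mi (M ∩ S)`, the trace of `pl M` on `mi S` is `pl (M ∩ S) ∩ mi S`.
Levels: `tw_cy_pos` gives `CY` on level `n + k` for `1 ≤ k`; `mi (cel ..) = cel ..`, `mi (bdc ..) = bdc ..` on the next level by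
`mi_cel`, `mi_bdc` and `car_succ` (`rfl`).
-/

open Classical

noncomputable section

namespace MOT

theorem tw_cy_pos (K : Lv) (n : ℕ) (h : IsSph3 (tw K n).G) {k : ℕ} (hk : 1 ≤ k) :
    CY (tw K n).G (tw K (n + k)).G (car K n k) := by
  obtain ⟨k', rfl⟩ : ∃ k', k = k' + 1 := ⟨k - 1, by omega⟩
  exact tw_cy K n h k'

/-- evolution of a set along a schedule -/
def ev (K : Lv) (n k : ℕ) (b : ℕ → Bool) (A : Set (tw K (n + k)).V) :
    (t : ℕ) → Set (tw K (n + (k + t))).V
  | 0 => A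
  | t + 1 => if b t then mi (tw K (n + (k + t))).G (ev K n k b A t)
      else pl (tw K (n + (k + t))).G (ev K n k b A t)

theorem ev_compl (K : Lv) (n k : ℕ) (b : ℕ → Bool) (A : Set (tw K (n + k)).V) (t : ℕ) :
    ev K n k (fun i => !b i) Aᶜ t = (ev K n k b A t)ᶜ := by
  induction t with
  | zero => rfl
  | succ t ih =>
    cases hb : b t with
    | true =>
      have e1 : ev K n k (fun i => !b i) Aᶜ (t + 1) =
          pl (tw K (n + (k + t))).G (ev K n k (fun i => !b i) Aᶜ t) := if_neg (by simp [hb])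
      have e2 : ev K n k b A (t + 1) = mi (tw K (n + (k + t))).G (ev K n k b A t) := if_pos hb
      rw [e1, e2, ih]
      exact compl_mi.symm
    | false =>
      have e1 : ev K n k (fun i => !b i) Aᶜ (t + 1) =
          mi (tw K (n + (k + t))).G (ev K n k (fun i => !b i) Aᶜ t) := if_pos (by simp [hb])
      have e2 : ev K n k b A (t + 1) = pl (tw K (n + (k + t))).G (ev K n k b A t) :=
        if_neg (by simp [hb])
      rw [e1, e2, ih]
      exact compl_pl.symm

theorem LD.congr {V : Type} {G : SimpleGraph V} {S M M' H N : Set V} (L : LD G S M H N)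
    (h : M ∩ S = M' ∩ S) : LD G S M' H N := by
  have h1 : ∀ x ∈ S, x ∈ M' ↔ x ∈ M := by
    intro x hx
    have h2 : x ∈ M ∩ S ↔ x ∈ M' ∩ S := by rw [h]
    exact ⟨fun h3 => (h2.2 ⟨h3, hx⟩).1, fun h3 => (h2.1 ⟨h3, hx⟩).1⟩
  refine
    { hs := L.hs
      ns := L.ns
      hm := Set.disjoint_left.2 fun x hx hm => Set.disjoint_left.1 L.hm hx ((h1 x (L.hs hx)).1 hm)
      nm := Set.disjoint_left.2 fun x hx hm => Set.disjoint_left.1 L.nm hx ((h1 x (L.ns hx)).1 hm)
      hn := L.hn
      hc := L.hc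
      hz := L.hz
      nc := L.nc
      adj := L.adj
      nbh := L.nbh
      nbn := fun x hx y hy e => ?_ }
  rcases L.nbn x hx y hy e with h2 | h2 | h2
  · exact Or.inl h2
  · exact Or.inr (Or.inl h2)
  · exact Or.inr (Or.inr ((h1 y hy).2 h2))

theorem ld_ev (K : Lv) (n k : ℕ) (h : IsSph3 (tw K n).G) {D : Set (tw K n).V} (b : ℕ → Bool)
    {M A H N : Set (tw K (n + (k + 1))).V}
    (L : LD (tw K (n + (k + 1))).G (bdc (car K n (k + 1)) D) M H N)
    (hA : A ∩ bdc (car K n (k + 1)) D = (M ∩ bdc (car K n (k + 1)) D) ∪ H) (t : ℕ) :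
    ∃ H' N' : Set (tw K (n + (k + 1 + t))).V,
      LD (tw K (n + (k + 1 + t))).G (bdc (car K n (k + 1 + t)) D) (ev K n (k + 1) b M t) H' N' ∧
      ev K n (k + 1) b A t ∩ bdc (car K n (k + 1 + t)) D =
        (ev K n (k + 1) b M t ∩ bdc (car K n (k + 1 + t)) D) ∪ H' := by
  induction t with
  | zero => exact ⟨H, N, L, hA⟩
  | succ t ih =>
    obtain ⟨H', N', L', e'⟩ := ih
    have hS : mi (tw K (n + (k + 1 + t))).G (bdc (car K n (k + 1 + t)) D) =
        bdc (car K n (k + 1 + (t + 1))) D := mi_bdc (tw_cy_pos K n h (by omega)) D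
    by_cases hb : b t = true
    · have e1 : ev K n (k + 1) b M (t + 1) =
          mi (tw K (n + (k + 1 + t))).G (ev K n (k + 1) b M t) := if_pos hb
      have e2 : ev K n (k + 1) b A (t + 1) =
          mi (tw K (n + (k + 1 + t))).G (ev K n (k + 1) b A t) := if_pos hb
      refine ⟨mi (tw K (n + (k + 1 + t))).G H',
        mi (tw K (n + (k + 1 + t))).G (bdc (car K n (k + 1 + t)) D) ∩
          pl (tw K (n + (k + 1 + t))).G N', ?_, ?_⟩
      · rw [e1, ← hS]
        exact ld_mi L'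
      · rw [e1, e2, ← hS]
        exact ld_union_mi L' e'
    · have e1 : ev K n (k + 1) b M (t + 1) =
          pl (tw K (n + (k + 1 + t))).G (ev K n (k + 1) b M t) := if_neg hb
      have e2 : ev K n (k + 1) b A (t + 1) =
          pl (tw K (n + (k + 1 + t))).G (ev K n (k + 1) b A t) := if_neg hb
      refine ⟨mi (tw K (n + (k + 1 + t))).G (bdc (car K n (k + 1 + t)) D) ∩
          pl (tw K (n + (k + 1 + t))).G H', mi (tw K (n + (k + 1 + t))).G N', ?_, ?_⟩
      · rw [e1, ← hS]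
        exact ld_pl L'
      · rw [e1, e2, ← hS]
        exact ld_union_pl L' e'

private theorem mi_tr {V : Type} {G : SimpleGraph V} {M A S : Set V} (e : M ∩ S = A ∩ S) :
    mi G M ∩ mi G S = mi G A ∩ mi G S := by
  rw [← mi_inter, ← mi_inter, e]

private theorem pl_tr {V : Type} {G : SimpleGraph V} {M A S : Set V} (e : M ∩ S = A ∩ S) :
    pl G M ∩ mi G S = pl G A ∩ mi G S := by
  have h1 : ∀ {M A : Set V}, M ∩ S = A ∩ S → pl G M ∩ mi G S ⊆ pl G A ∩ mi G S := by
    rintro M A e s ⟨⟨x, hx, hxM⟩, hs⟩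
    have h2 : x ∈ M ∩ S := ⟨hxM, hs x hx⟩
    rw [e] at h2
    exact ⟨⟨x, hx, h2.1⟩, hs⟩
  exact Set.Subset.antisymm (h1 e) (h1 e.symm)

theorem fill_idle (K : Lv) (n k : ℕ) (h : IsSph3 (tw K n).G) {D : Set (tw K n).V} (b : ℕ → Bool)
    {A : Set (tw K (n + (k + 1))).V} {t : ℕ} {M : Set (tw K (n + (k + 1 + t))).V}
    (g : GC (tw K (n + (k + 1 + t))).G (cel (car K n (k + 1 + t)) D)
      (bdc (car K n (k + 1 + t)) D) M)
    (e : M ∩ bdc (car K n (k + 1 + t)) D = ev K n (k + 1) b A t ∩ bdc (car K n (k + 1 + t)) D)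
    {t' : ℕ} (ht : t ≤ t') :
    ∃ M' : Set (tw K (n + (k + 1 + t'))).V,
      GC (tw K (n + (k + 1 + t'))).G (cel (car K n (k + 1 + t')) D)
        (bdc (car K n (k + 1 + t')) D) M' ∧
      M' ∩ bdc (car K n (k + 1 + t')) D =
        ev K n (k + 1) b A t' ∩ bdc (car K n (k + 1 + t')) D := by
  obtain ⟨d, rfl⟩ := Nat.exists_eq_add_of_le ht
  clear ht
  induction d with
  | zero => exact ⟨M, g, e⟩
  | succ d ih =>
    obtain ⟨M', g', e'⟩ := ih
    have hS : mi (tw K (n + (k + 1 + (t + d)))).G (bdc (car K n (k + 1 + (t + d))) D) =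
        bdc (car K n (k + 1 + (t + (d + 1)))) D := mi_bdc (tw_cy_pos K n h (by omega)) D
    have hT : mi (tw K (n + (k + 1 + (t + d)))).G (cel (car K n (k + 1 + (t + d))) D) =
        cel (car K n (k + 1 + (t + (d + 1)))) D := mi_cel D
    have hsub : bdc (car K n (k + 1 + (t + d))) D ⊆ cel (car K n (k + 1 + (t + d))) D :=
      fun x hx => hx.1
    by_cases hb : b (t + d) = true
    · have e2 : ev K n (k + 1) b A (t + (d + 1)) =
          mi (tw K (n + (k + 1 + (t + d)))).G (ev K n (k + 1) b A (t + d)) := if_pos hb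
      refine ⟨mi (tw K (n + (k + 1 + (t + d)))).G M', ?_, ?_⟩
      · rw [← hS, ← hT]
        exact gc_mi hsub g'
      · rw [e2, ← hS]
        exact mi_tr e'
    · have e2 : ev K n (k + 1) b A (t + (d + 1)) =
          pl (tw K (n + (k + 1 + (t + d)))).G (ev K n (k + 1) b A (t + d)) := if_neg hb
      refine ⟨pl (tw K (n + (k + 1 + (t + d)))).G M', ?_, ?_⟩
      · rw [← hS, ← hT]
        exact gc_pl hsub g'
      · rw [e2, ← hS]
        exact pl_tr e'

end MOT
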