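import Pool.Agent.MOT.TlC
import Pool.Agent.MOT.TlJ
import Pool.Agent.MOT.TlE

/-!
# MOT: THIN, fillings: one coarse tetrahedron (helper23)

`fill_one`: induction on `w` (number of mixed pairs at most `w`).
 Case no mixed pairs (in particular `w = 0`): `S ⊆ A` or `S` disjoint from `A` (`mx2_zero`).  Then
 `S_t ⊆ ev A t` for all `t` (or disjoint), and `M = univ` (or `∅`) works at level `t`: the only component of
 `univ ∩ cel D` is `cel D`, `H^1 = 0` (`CY.cell`), and `cel D ∩ bdc D = bdc D` is connected (`CY.bd`).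
 Case mixed pairs exist: both `A ∩ S` and `S \ A` are nonempty; `leaf_ex` gives a leaf `H` with neighbour `N`.
 (i) `H` a component of `A ∩ S`: `M0 := A \ H`, leaf data `LD S M0 H N`.  `mx2 S M0 < mx2 S A` (`mx2_lt`).  Choose
 `t0 ∈ {2 (w - 1), 2 (w - 1) + 1}` with `b t0 = true` (alternating).  Induction hypothesis: filling `M1` of `M0` at
 level `t0`.  `ins` with `ld_ev` (leaf data for `ev M0 t0`; replace `ev M0 t0` by `M1`, which has the same trace on
 `S`: `LD` only depends on `M ∩ S`, see `LD.congr`) gives the filling `mi M1 ∪ mi H'` at level `t0 + 1 ≤ 2 w`, with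
 trace `mi (ev A t0) = ev A (t0 + 1)`.  Then idle steps (`gc_mi`, `gc_pl`) up to `t`: the trace of `mi M`
 on `mi S` is `mi (trace)`, of `pl M` it is `pl (trace) ∩ mi S`.
 (ii) `H` a component of `S \ A`: apply (i) to `Aᶜ` and the schedule `fun t => !b t`, and take complements
 (`GC.compl`, `ev_compl`, `mx2_compl`).
-/

open Classical

noncomputable section

namespace MOT

private theorem fo_univ (K : Lv) (n k : ℕ) (h : IsSph3 (tw K n).G) {D : Set (tw K n).V}
    (hD : (tw K n).G.IsClique D) (h4 : D.ncard = 4) :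
    GC (tw K (n + (k + 1))).G (cel (car K n (k + 1)) D) (bdc (car K n (k + 1)) D) Set.univ := by
  have hcy := tw_cy K n h k
  have hne : D.Nonempty := by
    by_contra h0
    rw [Set.not_nonempty_iff_eq_empty] at h0
    rw [h0, Set.ncard_empty] at h4
    omega
  have hcell := hcy.cell D hne hD
  have hbd := hcy.bd D hD h4
  refine ⟨fun C hC => ?_, fun C hC => ?_⟩
  · have h1 : IsComp (tw K (n + (k + 1))).G (Set.univ ∩ cel (car K n (k + 1)) D)
        (cel (car K n (k + 1)) D) := by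
      refine IsComp_of hcell.1 (fun x hx => ⟨trivial, hx⟩) fun x _ y hy => ?_
      exact absurd hy.1.2 hy.2
    obtain ⟨x, hx⟩ := hC.conn.1
    have h2 := hC.eq_of_inter h1 ⟨x, hx, (hC.sub hx).2⟩
    rw [h2]
    refine ⟨hcell.2, ?_⟩
    have h3 : cel (car K n (k + 1)) D ∩ bdc (car K n (k + 1)) D = bdc (car K n (k + 1)) D :=
      Set.inter_eq_right.2 fun x hx => hx.1
    rw [h3]
    exact hbd.2.1
  · obtain ⟨x, hx⟩ := hC.conn.1
    exact absurd trivial (hC.sub hx).1

private theorem fo_mono (K : Lv) (n k : ℕ) (h : IsSph3 (tw K n).G) {D : Set (tw K n).V}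
    (hD : (tw K n).G.IsClique D) (h4 : D.ncard = 4) (b : ℕ → Bool)
    {A : Set (tw K (n + (k + 1))).V}
    (hA : bdc (car K n (k + 1)) D ⊆ A ∨ Disjoint (bdc (car K n (k + 1)) D) A) (t : ℕ) :
    ∃ M : Set (tw K (n + (k + 1 + t))).V,
      GC (tw K (n + (k + 1 + t))).G (cel (car K n (k + 1 + t)) D)
        (bdc (car K n (k + 1 + t)) D) M ∧
      M ∩ bdc (car K n (k + 1 + t)) D =
        ev K n (k + 1) b A t ∩ bdc (car K n (k + 1 + t)) D := by
  have hg := fo_univ K n k h hD h4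
  rcases hA with hA | hA
  · refine fill_idle K n k h b (A := A) (t := 0) (M := Set.univ) hg ?_ (Nat.zero_le t)
    ext x
    constructor
    · rintro ⟨-, hx⟩
      exact ⟨hA hx, hx⟩
    · rintro ⟨-, hx⟩
      exact ⟨trivial, hx⟩
  · refine fill_idle K n k h b (A := A) (t := 0) (M := Set.univᶜ) hg.compl ?_ (Nat.zero_le t)
    ext x
    constructor
    · rintro ⟨hx, -⟩
      exact absurd trivial hx
    · rintro ⟨hx, hx'⟩
      exact absurd hx (Set.disjoint_left.1 hA hx')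

private theorem fo_step (K : Lv) (n k : ℕ) (h : IsSph3 (tw K n).G) {D : Set (tw K n).V}
    (hD : (tw K n).G.IsClique D) (w : ℕ)
    (ih : ∀ (b : ℕ → Bool), (∀ i, b (i + 1) = !b i) → ∀ A : Set (tw K (n + (k + 1))).V,
      mx2 (tw K (n + (k + 1))).G (bdc (car K n (k + 1)) D) A ≤ w → ∀ t, 2 * w ≤ t →
      ∃ M : Set (tw K (n + (k + 1 + t))).V,
        GC (tw K (n + (k + 1 + t))).G (cel (car K n (k + 1 + t)) D)
          (bdc (car K n (k + 1 + t)) D) M ∧
        M ∩ bdc (car K n (k + 1 + t)) D =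
          ev K n (k + 1) b A t ∩ bdc (car K n (k + 1 + t)) D)
    (b : ℕ → Bool) (hb : ∀ i, b (i + 1) = !b i) (A H N : Set (tw K (n + (k + 1))).V)
    (hm : mx2 (tw K (n + (k + 1))).G (bdc (car K n (k + 1)) D) A ≤ w + 1) (t : ℕ)
    (ht : 2 * (w + 1) ≤ t)
    (hH : IsComp (tw K (n + (k + 1))).G (A ∩ bdc (car K n (k + 1)) D) H)
    (hN : IsComp (tw K (n + (k + 1))).G (bdc (car K n (k + 1)) D \ A) N)
    (hz : HZ (tw K (n + (k + 1))).G H)
    (hnb : ∀ x ∈ H, ∀ y ∈ bdc (car K n (k + 1)) D, (tw K (n + (k + 1))).G.Adj x y →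
      y ∈ H ∨ y ∈ N)
    (hadj : ∃ x ∈ H, ∃ y ∈ N, (tw K (n + (k + 1))).G.Adj x y) :
    ∃ M : Set (tw K (n + (k + 1 + t))).V,
      GC (tw K (n + (k + 1 + t))).G (cel (car K n (k + 1 + t)) D)
        (bdc (car K n (k + 1 + t)) D) M ∧
      M ∩ bdc (car K n (k + 1 + t)) D =
        ev K n (k + 1) b A t ∩ bdc (car K n (k + 1 + t)) D := by
  have L : LD (tw K (n + (k + 1))).G (bdc (car K n (k + 1)) D) (A \ H) H N :=
    { hs := fun x hx => (hH.sub hx).2
      ns := fun x hx => (hN.sub hx).1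
      hm := Set.disjoint_left.2 fun x hx hx' => hx'.2 hx
      nm := Set.disjoint_left.2 fun x hx hx' => (hN.sub hx).2 hx'.1
      hn := Set.disjoint_left.2 fun x hx hx' => (hN.sub hx').2 (hH.sub hx).1
      hc := hH.conn
      hz := hz
      nc := hN.conn
      adj := hadj
      nbh := hnb
      nbn := fun x hx y hy e => by
        by_cases hyA : y ∈ A
        · by_cases hyH : y ∈ H
          · exact Or.inl hyH
          · exact Or.inr (Or.inr ⟨hyA, hyH⟩)
        · refine Or.inr (Or.inl ?_)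
          by_contra hyN
          exact hN.nadj x hx y ⟨⟨hy, hyA⟩, hyN⟩ e }
  have hAH : A ∩ bdc (car K n (k + 1)) D = ((A \ H) ∩ bdc (car K n (k + 1)) D) ∪ H := by
    ext x
    constructor
    · rintro ⟨h1, h2⟩
      by_cases hx : x ∈ H
      · exact Or.inr hx
      · exact Or.inl ⟨⟨h1, hx⟩, h2⟩
    · rintro (⟨h1, h2⟩ | hx)
      · exact ⟨h1.1, h2⟩
      · exact hH.sub hx
  have hlt : mx2 (tw K (n + (k + 1))).G (bdc (car K n (k + 1)) D) (A \ H) ≤ w := by
    have h1 : mx2 (tw K (n + (k + 1))).G (bdc (car K n (k + 1)) D) (A \ H) <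
        mx2 (tw K (n + (k + 1))).G (bdc (car K n (k + 1)) D) A := by
      refine mx2_lt hH ?_
      obtain ⟨x, hx, y, hy, e⟩ := hadj
      exact ⟨x, hx, y, hN.sub hy, e⟩
    omega
  obtain ⟨t0, ht1, ht2, ht3⟩ : ∃ t0, 2 * w ≤ t0 ∧ t0 + 1 ≤ 2 * (w + 1) ∧ b t0 = true := by
    by_cases hb0 : b (2 * w) = true
    · exact ⟨2 * w, le_refl _, by omega, hb0⟩
    · refine ⟨2 * w + 1, by omega, by omega, ?_⟩
      rw [hb, Bool.eq_false_iff.2 hb0]
      rfl
  obtain ⟨M1, g1, e1⟩ := ih b hb (A \ H) hlt t0 ht1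
  obtain ⟨H', N', L', e2⟩ := ld_ev K n k h b L hAH t0
  have L1 := L'.congr e1.symm
  have hcy := tw_cy_pos K n h (k := k + 1 + t0) (by omega)
  have g2 := ins hcy hD g1 L1
  have hS : mi (tw K (n + (k + 1 + t0))).G (bdc (car K n (k + 1 + t0)) D) =
      bdc (car K n (k + 1 + (t0 + 1))) D := mi_bdc hcy D
  have hT : mi (tw K (n + (k + 1 + t0))).G (cel (car K n (k + 1 + t0)) D) =
      cel (car K n (k + 1 + (t0 + 1))) D := mi_cel D
  have e3 : ev K n (k + 1) b A (t0 + 1) =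
      mi (tw K (n + (k + 1 + t0))).G (ev K n (k + 1) b A t0) := if_pos ht3
  have e4 : ev K n (k + 1) b A t0 ∩ bdc (car K n (k + 1 + t0)) D =
      (M1 ∩ bdc (car K n (k + 1 + t0)) D) ∪ H' := by
    rw [e2, e1]
  have e5 := ld_union_mi L1 e4
  refine fill_idle K n k h b (A := A) (t := t0 + 1)
    (M := mi (tw K (n + (k + 1 + t0))).G M1 ∪ mi (tw K (n + (k + 1 + t0))).G H') ?_ ?_
    (ht2.trans ht)
  · rw [← hS, ← hT]
    exact g2
  · rw [e3, ← hS]
    refine Eq.trans ?_ e5.symm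
    ext s
    constructor
    · rintro ⟨h1 | h1, h2⟩
      · exact Or.inl ⟨h1, h2⟩
      · exact Or.inr h1
    · rintro (⟨h1, h2⟩ | h1)
      · exact ⟨Or.inl h1, h2⟩
      · exact ⟨Or.inr h1, mi_mono L1.hs h1⟩

theorem fill_one (K : Lv) (n k : ℕ) (h : IsSph3 (tw K n).G) {D : Set (tw K n).V}
    (hD : (tw K n).G.IsClique D) (h4 : D.ncard = 4) (w : ℕ) :
    ∀ (b : ℕ → Bool), (∀ i, b (i + 1) = !b i) → ∀ A : Set (tw K (n + (k + 1))).V,
      mx2 (tw K (n + (k + 1))).G (bdc (car K n (k + 1)) D) A ≤ w → ∀ t, 2 * w ≤ t →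
      ∃ M : Set (tw K (n + (k + 1 + t))).V,
        GC (tw K (n + (k + 1 + t))).G (cel (car K n (k + 1 + t)) D)
          (bdc (car K n (k + 1 + t)) D) M ∧
        M ∩ bdc (car K n (k + 1 + t)) D =
          ev K n (k + 1) b A t ∩ bdc (car K n (k + 1 + t)) D := by
  induction w with
  | zero =>
    intro b _ A hm t _
    refine fo_mono K n k h hD h4 b ?_ t
    exact mx2_zero ((tw_cy K n h k).bd D hD h4).2.1 (by omega)
  | succ w ih =>
    intro b hb A hm t ht
    have hbd := (tw_cy K n h k).bd D hD h4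
    by_cases h1 : (A ∩ bdc (car K n (k + 1)) D).Nonempty
    · by_cases h2 : (bdc (car K n (k + 1)) D \ A).Nonempty
      · obtain ⟨H, N, hHN, hz, hnb, hadj⟩ := leaf_ex hbd.1 hbd.2.1 hbd.2.2 h1 h2
        rcases hHN with ⟨hH, hN⟩ | ⟨hH, hN⟩
        · exact fo_step K n k h hD w ih b hb A H N hm t ht hH hN hz hnb hadj
        · have s1 : Aᶜ ∩ bdc (car K n (k + 1)) D = bdc (car K n (k + 1)) D \ A := by
            ext x
            exact ⟨fun hx => ⟨hx.2, hx.1⟩, fun hx => ⟨hx.2, hx.1⟩⟩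
          have s2 : bdc (car K n (k + 1)) D \ Aᶜ = A ∩ bdc (car K n (k + 1)) D := by
            ext x
            exact ⟨fun hx => ⟨not_not.1 hx.2, hx.1⟩, fun hx => ⟨hx.2, not_not.2 hx.1⟩⟩
          obtain ⟨M, g, e⟩ := fo_step K n k h hD w ih (fun i => !b i)
            (fun i => by simp only [hb]) Aᶜ H N (by rw [mx2_compl]; exact hm) t ht
            (by rw [s1]; exact hH) (by rw [s2]; exact hN) hz hnb hadj
          refine ⟨Mᶜ, g.compl, ?_⟩
          rw [ev_compl] at e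
          have key : ∀ x ∈ bdc (car K n (k + 1 + t)) D, x ∈ M ↔ x ∈ (ev K n (k + 1) b A t)ᶜ := by
            intro x hx
            have h3 : x ∈ M ∩ bdc (car K n (k + 1 + t)) D ↔
                x ∈ (ev K n (k + 1) b A t)ᶜ ∩ bdc (car K n (k + 1 + t)) D := by rw [e]
            exact ⟨fun h5 => (h3.1 ⟨h5, hx⟩).1, fun h5 => (h3.2 ⟨h5, hx⟩).1⟩
          ext x
          constructor
          · rintro ⟨h5, hx⟩
            refine ⟨?_, hx⟩
            by_contra h6
            exact h5 ((key x hx).2 h6)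
          · rintro ⟨h5, hx⟩
            exact ⟨fun h6 => (key x hx).1 h6 h5, hx⟩
      · refine fo_mono K n k h hD h4 b (Or.inl fun x hx => ?_) t
        by_contra h3
        exact h2 ⟨x, hx, h3⟩
    · refine fo_mono K n k h hD h4 b (Or.inr (Set.disjoint_left.2 fun x hx hx' => ?_)) t
      exact h1 ⟨x, hx', hx⟩

end MOT
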