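import Pool.Agent.MOT.TlJ
import Pool.Agent.MOT.TmEnd

/-!
# MOT: THIN, evolution of ranks, connectedness and protected cells (helper23)

`ev_rk2`, `ev_conn`, `ev_in`: induction on `t`: `ev (t + 1)` is between `mi (ev t)` and `pl (ev t)` (both for the set and
for the complement, inside the 2-skeleton `sk (t + 1) = mi (sk t)`, `mi_sk`): `rk2_sd`, `bt_Conn`; a simplex inside
`cel c A0 ∩ sk` has all vertices in `ev t`.
-/

open Classical

noncomputable section

namespace MOT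

private theorem ev_step (K : Lv) (n k : ℕ) (b : ℕ → Bool) (A : Set (tw K (n + k)).V) (t : ℕ) :
    ev K n k b A (t + 1) = mi (tw K (n + (k + t))).G (ev K n k b A t) ∨
      ev K n k b A (t + 1) = pl (tw K (n + (k + t))).G (ev K n k b A t) := by
  by_cases hb : b t = true
  · exact Or.inl (if_pos hb)
  · exact Or.inr (if_neg hb)

private theorem ev_btw {V : Type} {G : SimpleGraph V} {A S : Set V} {E : Set (Cq G)}
    (hE : E = mi G A ∨ E = pl G A) :
    mi G (A ∩ S) ⊆ E ∩ mi G S ∧ E ∩ mi G S ⊆ pl G (A ∩ S) ∧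
      mi G (Aᶜ ∩ S) ⊆ Eᶜ ∩ mi G S ∧ Eᶜ ∩ mi G S ⊆ pl G (Aᶜ ∩ S) := by
  have key : ∀ {A : Set V} {E : Set (Cq G)}, (E = mi G A ∨ E = pl G A) →
      mi G (A ∩ S) ⊆ E ∩ mi G S ∧ E ∩ mi G S ⊆ pl G (A ∩ S) := by
    intro A E hE
    constructor
    · rw [mi_inter]
      refine Set.inter_subset_inter_left _ ?_
      rcases hE with rfl | rfl
      · exact subset_rfl
      · exact mi_sub_pl
    · rintro s ⟨hs, hS⟩
      have h1 : s ∈ pl G A := by
        rcases hE with rfl | rfl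
        · exact mi_sub_pl hs
        · exact hs
      obtain ⟨x, hx, hxA⟩ := h1
      exact ⟨x, hx, hxA, hS x hx⟩
  have hE' : Eᶜ = mi G Aᶜ ∨ Eᶜ = pl G Aᶜ := by
    rcases hE with rfl | rfl
    · exact Or.inr compl_mi
    · exact Or.inl compl_pl
  exact ⟨(key hE).1, (key hE).2, (key hE').1, (key hE').2⟩

theorem ev_rk2 (K : Lv) (n k : ℕ) (h : IsSph3 (tw K n).G) (b : ℕ → Bool) {r : ℕ}
    {A : Set (tw K (n + (k + 1))).V}
    (hr : Rk2 (tw K (n + (k + 1))).G (bdd (tw K n).G (car K n (k + 1)))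
      (A ∩ sk (car K n (k + 1)) 3) (Aᶜ ∩ sk (car K n (k + 1)) 3) r) (t : ℕ) :
    Rk2 (tw K (n + (k + 1 + t))).G (bdd (tw K n).G (car K n (k + 1 + t)))
      (ev K n (k + 1) b A t ∩ sk (car K n (k + 1 + t)) 3)
      ((ev K n (k + 1) b A t)ᶜ ∩ sk (car K n (k + 1 + t)) 3) r := by
  induction t with
  | zero => exact hr
  | succ t ih =>
    have hB : (mi (tw K (n + (k + 1 + t))).G) '' (bdd (tw K n).G (car K n (k + 1 + t))) =
        bdd (tw K n).G (car K n (k + 1 + (t + 1))) := mi_bdd (tw_cy_pos K n h (by omega))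
    have hS : mi (tw K (n + (k + 1 + t))).G (sk (car K n (k + 1 + t)) 3) =
        sk (car K n (k + 1 + (t + 1))) 3 := mi_sk (tw_cy_pos K n h (by omega)) 3
    obtain ⟨h1, h2, h3, h4⟩ := ev_btw (S := sk (car K n (k + 1 + t)) 3) (ev_step K n (k + 1) b A t)
    rw [← hB, ← hS]
    exact rk2_sd ih h1 h2 h3 h4

theorem ev_conn (K : Lv) (n k : ℕ) (h : IsSph3 (tw K n).G) (b : ℕ → Bool)
    {A : Set (tw K (n + (k + 1))).V}
    (hc : Conn (tw K (n + (k + 1))).G (A ∩ sk (car K n (k + 1)) 3)) (t : ℕ) :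
    Conn (tw K (n + (k + 1 + t))).G (ev K n (k + 1) b A t ∩ sk (car K n (k + 1 + t)) 3) := by
  induction t with
  | zero => exact hc
  | succ t ih =>
    have hS : mi (tw K (n + (k + 1 + t))).G (sk (car K n (k + 1 + t)) 3) =
        sk (car K n (k + 1 + (t + 1))) 3 := mi_sk (tw_cy_pos K n h (by omega)) 3
    obtain ⟨h1, h2, -, -⟩ := ev_btw (S := sk (car K n (k + 1 + t)) 3) (ev_step K n (k + 1) b A t)
    rw [← hS]
    exact (bt_Conn h1 h2).2 ih

theorem ev_in (K : Lv) (n k : ℕ) (b : ℕ → Bool) {A : Set (tw K (n + (k + 1))).V}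
    {A0 : Set (tw K n).V} (hA : sk (car K n (k + 1)) 3 ∩ cel (car K n (k + 1)) A0 ⊆ A) (t : ℕ) :
    sk (car K n (k + 1 + t)) 3 ∩ cel (car K n (k + 1 + t)) A0 ⊆ ev K n (k + 1) b A t := by
  induction t with
  | zero => exact hA
  | succ t ih =>
    intro s hs
    have h1 : s ∈ mi (tw K (n + (k + 1 + t))).G (ev K n (k + 1) b A t) := by
      intro x hx
      have hsub : car K n (k + 1 + t) x ⊆ car K n (k + 1 + (t + 1)) s := fun u hu => ⟨x, hx, hu⟩
      refine ih ⟨?_, hsub.trans hs.2⟩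
      have h2 : (car K n (k + 1 + (t + 1)) s).ncard ≤ 3 := hs.1
      exact (Set.ncard_le_ncard hsub (Set.toFinite _)).trans h2
    rcases ev_step K n (k + 1) b A t with e | e
    · rw [e]
      exact h1
    · rw [e]
      exact mi_sub_pl h1

end MOT
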