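import Pool.Agent.MOT.Def

/-!
# MOT: THIN, definitions of the labelled 2-skeleton (helper16)

`Y` is the ambient set (the 2-skeleton of the coarse complex, seen on a fine level), `DD` the set of
the boundaries of the coarse tetrahedra, `E` the 1-skeleton, `X0`, `X1` the protected sets.
-/

open Classical

noncomputable section

namespace MOT

variable {V : Type}

/-- hat cocycles of `P`: cocycles which are trivial on `P ∩ B` for all `B ∈ DD` -/
def Zh (G : SimpleGraph V) (DD : Set (Set V)) (P : Set V) :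
    Submodule (ZMod 2) (V → V → ZMod 2) where
  carrier := {a | a ∈ Z1 G P ∧ ∀ B ∈ DD, Triv G (P ∩ B) a}
  add_mem' := by
    rintro a b ⟨ha, ha'⟩ ⟨hb, hb'⟩
    refine ⟨(Z1 G P).add_mem ha hb, fun B hB => ?_⟩
    obtain ⟨f, hf⟩ := ha' B hB
    obtain ⟨g, hg⟩ := hb' B hB
    refine ⟨f + g, fun x y h => ?_⟩
    simp only [Pi.add_apply, hf x y h, hg x y h]; abel
  zero_mem' := ⟨(Z1 G P).zero_mem, fun _ _ => ⟨0, fun _ _ _ => by simp⟩⟩
  smul_mem' := by
    rintro c a ⟨ha, ha'⟩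
    refine ⟨(Z1 G P).smul_mem c ha, fun B hB => ?_⟩
    obtain ⟨f, hf⟩ := ha' B hB
    refine ⟨c • f, fun x y h => ?_⟩
    simp only [Pi.smul_apply, hf x y h, smul_add]

/-- the rank of the hat classes of `P` on `R` is at most `r` -/
def Rk (G : SimpleGraph V) (DD : Set (Set V)) (P R : Set V) (r : ℕ) : Prop :=
  ∀ a : Fin (r + 1) → V → V → ZMod 2, (∀ k, a k ∈ Zh G DD P) →
    ∃ c : Fin (r + 1) → ZMod 2, c ≠ 0 ∧ Triv G R (∑ k, c k • a k)

/-- `{l = j}` in `Y` -/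
def lev (Y : Set V) (l : V → ℕ) (j : ℕ) : Set V := {x | x ∈ Y ∧ l x = j}

/-- `{l ≤ i}` in `Y` -/
def low (Y : Set V) (l : V → ℕ) (i : ℕ) : Set V := {x | x ∈ Y ∧ l x ≤ i}

/-- `{i ≤ l}` in `Y` -/
def upp (Y : Set V) (l : V → ℕ) (i : ℕ) : Set V := {x | x ∈ Y ∧ i ≤ l x}

/-- `{j - 1 ≤ l ≤ j + 1}` in `Y` -/
def band (Y : Set V) (l : V → ℕ) (j : ℕ) : Set V := {x | x ∈ Y ∧ j ≤ l x + 1 ∧ l x ≤ j + 1}

/-- a labelling of `Y` with values in `0..m+1`: 1-Lipschitz, `0` on `X0`, `m+1` on `X1`, and the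
rank condition `(Z_j)` for `1 ≤ j ≤ m` -/
structure LabOK (G : SimpleGraph V) (DD : Set (Set V)) (Y X0 X1 : Set V) (m r : ℕ)
    (l : V → ℕ) : Prop where
  lip : ∀ x y, EIn G Y x y → l x ≤ l y + 1
  top : ∀ x ∈ Y, l x ≤ m + 1
  x0 : ∀ x ∈ X0, l x = 0
  x1 : ∀ x ∈ X1, l x = m + 1
  rk : ∀ j, 1 ≤ j → j ≤ m → Rk G DD (band Y l j) (lev Y l j) r

/-- the weight: twice the number of edges of the 1-skeleton `E` on which the label changes -/
def wt (G : SimpleGraph V) (E : Set V) (l : V → ℕ) : ℕ :=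
  {p : V × V | EIn G E p.1 p.2 ∧ l p.1 ≠ l p.2}.ncard

/-- the 2-skeleton of level `n` seen on level `n + k` -/
def Y2 (K : Lv) (n k : ℕ) : Set (tw K (n + k)).V := {v | (car K n k v).ncard ≤ 3}

/-- the 1-skeleton of level `n` seen on level `n + k` -/
def E1 (K : Lv) (n k : ℕ) : Set (tw K (n + k)).V := {v | (car K n k v).ncard ≤ 2}

/-- the boundary of the simplex `D` of level `n` seen on level `n + k` -/
def bdS (K : Lv) (n k : ℕ) (D : Set (tw K n).V) : Set (tw K (n + k)).V :=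
  {v | car K n k v ⊂ D}

/-- all boundaries of tetrahedra of level `n` seen on level `n + k` -/
def DDs (K : Lv) (n k : ℕ) : Set (Set (tw K (n + k)).V) :=
  {B | ∃ D : Finset (tw K n).V, (tw K n).G.IsClique (D : Set (tw K n).V) ∧ D.card = 4 ∧
    B = bdS K n k (D : Set (tw K n).V)}

end MOT
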