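import Pool.Agent.MOT.TgDef
import Pool.Agent.MOT.TfD

/-!
# MOT: THIN, small lemmas for the final argument (helper16)

`sk_cel_conn`: for `u ∈ A` let `x_u` be the vertex with `c x_u = {u}` (`CY.vert`).  For adjacent `u, v ∈ A` the
cell `cel c {u, v}` is connected (`CY.cell`) and contained in `sk c 3 ∩ cel c A`; for `x ∈ sk c 3 ∩ cel c A` the cell
`cel c (c x)` is connected, contained in `sk c 3 ∩ cel c A`, and contains `x_u` for `u ∈ c x ⊆ A`.
`fing_finger`: the definitions of helper81 (`Fing`) and helper23 (`Finger`) agree; the path in `Fing.jn`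
lives in `lev (cel c f) l (l y)`, reverse it.
-/

open Classical

noncomputable section

namespace MOT

variable {V0 V : Type} {G0 : SimpleGraph V0} {G : SimpleGraph V} {c : V → Set V0}

theorem sk_cel_conn [Finite V0] (h : CY G0 G c) {A : Set V0} (hA : Conn G0 A) :
    Conn G (sk c 3 ∩ cel c A) := by
  choose ξ hξ using fun v => (h.vert v).exists
  -- cells inside the set
  have hcell : ∀ t : Set V0, t.Nonempty → G0.IsClique t → t.ncard ≤ 3 → t ⊆ A →
      ∀ x ∈ cel c t, ∀ y ∈ cel c t,
        Relation.ReflTransGen (EIn G (sk c 3 ∩ cel c A)) x y := by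
    intro t hn ht h3 htA x hx y hy
    have hsub : cel c t ⊆ sk c 3 ∩ cel c A := by
      intro z hz
      exact ⟨(Set.ncard_le_ncard hz (Set.toFinite t)).trans h3, Set.Subset.trans hz htA⟩
    exact rtg_mono hsub ((h.cell t hn ht).1.2 x hx y hy)
  have hξs : ∀ (u : V0) (t : Set V0), u ∈ t → ξ u ∈ cel c t := by
    intro u t hu
    change c (ξ u) ⊆ t
    rw [hξ]
    exact Set.singleton_subset_iff.2 hu
  have hpair : ∀ u v : V0, EIn G0 A u v →
      Relation.ReflTransGen (EIn G (sk c 3 ∩ cel c A)) (ξ u) (ξ v) := by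
    intro u v e
    refine hcell {u, v} ⟨u, Or.inl rfl⟩ ?_ ?_ ?_ _ (hξs u _ (Or.inl rfl)) _
      (hξs v _ (Or.inr rfl))
    · intro a ha b hb hab
      rcases ha with rfl | ha
      · rcases hb with rfl | hb
        · exact absurd rfl hab
        · rw [Set.mem_singleton_iff.1 hb]
          exact e.1
      · rcases hb with rfl | hb
        · rw [Set.mem_singleton_iff.1 ha]
          exact e.1.symm
        · rw [Set.mem_singleton_iff.1 ha, Set.mem_singleton_iff.1 hb] at hab
          exact absurd rfl hab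
    · have h1 := Set.ncard_insert_le u {v}
      rw [Set.ncard_singleton] at h1
      omega
    · intro a ha
      rcases ha with rfl | ha
      · exact e.2.1
      · rw [Set.mem_singleton_iff.1 ha]
        exact e.2.2
  have hpath : ∀ u v : V0, Relation.ReflTransGen (EIn G0 A) u v →
      Relation.ReflTransGen (EIn G (sk c 3 ∩ cel c A)) (ξ u) (ξ v) := by
    intro u v r
    induction r with
    | refl => exact Relation.ReflTransGen.refl
    | tail _ e ih => exact ih.trans (hpair _ _ e)
  have hpt : ∀ x ∈ sk c 3 ∩ cel c A, ∀ u ∈ c x,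
      Relation.ReflTransGen (EIn G (sk c 3 ∩ cel c A)) x (ξ u) := by
    intro x hx u hu
    exact hcell (c x) (h.clq x).1 (h.clq x).2 hx.1 hx.2 x (subset_refl (c x)) _ (hξs u _ hu)
  obtain ⟨u0, hu0⟩ := hA.1
  refine ⟨⟨ξ u0, ?_, hξs u0 A hu0⟩, ?_⟩
  · change (c (ξ u0)).ncard ≤ 3
    rw [hξ, Set.ncard_singleton]
    norm_num
  · intro x hx y hy
    obtain ⟨u, hu⟩ := (h.clq x).1
    obtain ⟨v, hv⟩ := (h.clq y).1
    exact ((hpt x hx u hu).trans (hpath u v (hA.2 u (hx.2 hu) v (hy.2 hv)))).trans
      (rtg_symm (hpt y hy v hv))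

theorem fing_finger [Finite V0] {l : V → ℕ} {a b : ℕ} {e f : Set V0} {I : Set V} {y y' : V}
    (F : Fing G0 G c l a b e f I y y') : Finger G0 G c l e f b a I y y' := by
  have hj : Relation.ReflTransGen (EIn G (lev (cel c f) l (l y))) y y' := F.jn.1
  rw [F.la] at hj
  exact
    { he := F.ec
      he2 := F.e2
      hf := F.fc
      hf3 := F.f3
      hef := by
        refine F.ef.ssubset_of_ne ?_
        intro h1
        have h2 := F.f3
        rw [← h1, F.e2] at h2
        omega
      ii := F.ab
      conn := F.ic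
      ie := fun x hx => ⟨F.io hx, F.ib x hx⟩
      hu := ⟨F.ye, F.la⟩
      hw := ⟨F.ye', F.la'⟩
      huw := F.ne
      au := F.ya
      aw := F.ya'
      nb := fun x hx z hz hze => F.nb x hx z hze hz
      cf := rtg_symm hj }

end MOT
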