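import Pool.Agent.MOT.TmMcb

/-!
# MOT: THIN, main components III (helper16)

`mcl_ok`: collects TmMca, TmMcb.  `LabOK.dual`: the labels `m + 1 - l` (exchange `X0` and `X1`;
`band Y (m+1-l) j = band Y l (m+1-j)` and the same for `lev`, using `l ≤ m + 1` on `Y`).
`mainComp`: apply `mcl_ok` with `x0 ∈ X0` (makes all `{l ≤ i}` connected), then to the dual labels with
`x1 ∈ X1` (makes all `{i ≤ l}` connected and keeps `{l ≤ i}` connected by `mcl_upp`), and dualise back.
`wt` of the dual label is the same for `E ⊆ Y`.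
-/

open Classical

noncomputable section

namespace MOT

variable {V : Type}

theorem mcl_ok {G : SimpleGraph V} {DD : Set (Set V)} {Y X0 X1 : Set V} {m r : ℕ} {l : V → ℕ}
    (h : LabOK G DD Y X0 X1 m r l) (hY : Conn G Y) (hz : HZ G Y) (hX : Conn G X0)
    (h0 : X0 ⊆ Y) (h1 : X1 ⊆ Y) {x0 : V} (hx0 : x0 ∈ X0) :
    LabOK G DD Y X0 X1 m r (mcl G Y l x0) := by
  refine ⟨fun x y hxy => mcl_lip hY (h0 hx0) h.top h.lip hxy,
    fun x hx => mcl_top hY (h0 hx0) h.top hx,
    fun x hx => mcl_zero hY h.top hX h0 h.x0 hx0 hx, fun x hx => ?_, fun j hj hjm => ?_⟩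
  · have e1 := le_mcl hY (h0 hx0) h.top (h1 hx)
    have e2 := mcl_top hY (h0 hx0) h.top (h1 hx)
    have e3 := h.x1 x hx
    omega
  · exact mcl_rk hY hz (h0 hx0) h.top h.lip hj (h.rk j hj hjm)

theorem LabOK.dual {G : SimpleGraph V} {DD : Set (Set V)} {Y X0 X1 : Set V} {m r : ℕ}
    {l : V → ℕ} (h : LabOK G DD Y X0 X1 m r l) (h0 : X0 ⊆ Y) (h1 : X1 ⊆ Y) :
    LabOK G DD Y X1 X0 m r (fun x => m + 1 - l x) := by
  refine ⟨fun x y hxy => ?_, fun x hx => ?_, fun x hx => ?_, fun x hx => ?_, fun j hj hjm => ?_⟩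
  · have e1 := h.lip y x ⟨hxy.1.symm, hxy.2.2, hxy.2.1⟩
    show m + 1 - l x ≤ m + 1 - l y + 1
    omega
  · show m + 1 - l x ≤ m + 1
    omega
  · show m + 1 - l x = 0
    have e1 := h.x1 x hx
    omega
  · show m + 1 - l x = m + 1
    have e1 := h.x0 x hx
    omega
  · have e1 : band Y (fun x => m + 1 - l x) j = band Y l (m + 1 - j) := by
      ext x
      constructor
      · rintro ⟨hx, ha, hb⟩
        have e := h.top x hx
        refine ⟨hx, ?_, ?_⟩
        · have hb' : m + 1 - l x ≤ j + 1 := hb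
          omega
        · have ha' : j ≤ m + 1 - l x + 1 := ha
          omega
      · rintro ⟨hx, ha, hb⟩
        have e := h.top x hx
        refine ⟨hx, ?_, ?_⟩
        · show j ≤ m + 1 - l x + 1
          omega
        · show m + 1 - l x ≤ j + 1
          omega
    have e2 : lev Y (fun x => m + 1 - l x) j = lev Y l (m + 1 - j) := by
      ext x
      constructor
      · rintro ⟨hx, ha⟩
        have e := h.top x hx
        have ha' : m + 1 - l x = j := ha
        exact ⟨hx, by omega⟩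
      · rintro ⟨hx, ha⟩
        have e := h.top x hx
        refine ⟨hx, ?_⟩
        show m + 1 - l x = j
        omega
    rw [e1, e2]
    exact h.rk (m + 1 - j) (by omega) (by omega)

theorem low_conn_mcl {G : SimpleGraph V} {Y : Set V} {l : V → ℕ} {x0 : V} {m : ℕ}
    (hY : Conn G Y) (hx0 : x0 ∈ Y) (ht : ∀ x ∈ Y, l x ≤ m + 1) (h0 : l x0 = 0) (i : ℕ) :
    Conn G (low Y (mcl G Y l x0) i) := by
  rw [low_mcl hY hx0 ht i]
  exact comp_conn ⟨hx0, by omega⟩

theorem wt_dual {G : SimpleGraph V} {Y E : Set V} {l : V → ℕ} {m : ℕ} (hE : E ⊆ Y)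
    (ht : ∀ x ∈ Y, l x ≤ m + 1) : wt G E (fun x => m + 1 - l x) = wt G E l := by
  unfold wt
  congr 1
  ext p
  constructor
  · rintro ⟨hp, hne⟩
    have e1 := ht _ (hE hp.2.1)
    have e2 := ht _ (hE hp.2.2)
    refine ⟨hp, fun h => hne ?_⟩
    show m + 1 - l p.1 = m + 1 - l p.2
    omega
  · rintro ⟨hp, hne⟩
    have e1 := ht _ (hE hp.2.1)
    have e2 := ht _ (hE hp.2.2)
    refine ⟨hp, fun h => hne ?_⟩
    have h' : m + 1 - l p.1 = m + 1 - l p.2 := h
    omega

theorem mainComp [Finite V] {G : SimpleGraph V} {DD : Set (Set V)} {Y X0 X1 E : Set V} {m r : ℕ}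
    {l : V → ℕ} (h : LabOK G DD Y X0 X1 m r l) (hY : Conn G Y) (hz : HZ G Y) (hX0 : Conn G X0)
    (hX1 : Conn G X1) (h0 : X0 ⊆ Y) (h1 : X1 ⊆ Y) (hE : E ⊆ Y) :
    ∃ l' : V → ℕ, LabOK G DD Y X0 X1 m r l' ∧ (∀ i, Conn G (low Y l' i)) ∧
      (∀ i, i ≤ m + 1 → Conn G (upp Y l' i)) ∧ wt G E l' ≤ wt G E l := by
  obtain ⟨x0, hx0⟩ := hX0.1
  obtain ⟨x1, hx1⟩ := hX1.1
  have L1 := mcl_ok h hY hz hX0 h0 h1 hx0
  have c1 : ∀ i, Conn G (low Y (mcl G Y l x0) i) := fun i =>
    low_conn_mcl hY (h0 hx0) h.top (h.x0 x0 hx0) i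
  have w1 : wt G E (mcl G Y l x0) ≤ wt G E l := mcl_wt hY (h0 hx0) h.top hE
  generalize mcl G Y l x0 = l1 at L1 c1 w1
  have L2 := L1.dual h0 h1
  have w2 : wt G E (fun x => m + 1 - l1 x) = wt G E l1 := wt_dual hE L1.top
  have u2 : ∀ i, i ≤ m + 1 → Conn G (upp Y (fun x => m + 1 - l1 x) i) := by
    intro i hi
    have e : upp Y (fun x => m + 1 - l1 x) i = low Y l1 (m + 1 - i) := by
      ext x
      constructor
      · rintro ⟨hx, ha⟩
        have e := L1.top x hx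
        have ha' : i ≤ m + 1 - l1 x := ha
        exact ⟨hx, by omega⟩
      · rintro ⟨hx, ha⟩
        have e := L1.top x hx
        refine ⟨hx, ?_⟩
        show i ≤ m + 1 - l1 x
        omega
    rw [e]
    exact c1 _
  generalize (fun x => m + 1 - l1 x) = l2 at L2 w2 u2
  have L3 := mcl_ok L2 hY hz hX1 h1 h0 hx1
  have c3 : ∀ i, Conn G (low Y (mcl G Y l2 x1) i) := fun i =>
    low_conn_mcl hY (h1 hx1) L2.top (L2.x0 x1 hx1) i
  have u3 : ∀ i, i ≤ m + 1 → Conn G (upp Y (mcl G Y l2 x1) i) := fun i hi =>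
    mcl_upp hY (h1 hx1) L2.top (u2 i hi)
  have w3 : wt G E (mcl G Y l2 x1) ≤ wt G E l2 := mcl_wt hY (h1 hx1) L2.top hE
  generalize mcl G Y l2 x1 = l3 at L3 c3 u3 w3
  refine ⟨fun x => m + 1 - l3 x, L3.dual h1 h0, fun i => ?_, fun i hi => ?_, ?_⟩
  · have e : low Y (fun x => m + 1 - l3 x) i = upp Y l3 (m + 1 - i) := by
      ext x
      constructor
      · rintro ⟨hx, ha⟩
        have ha' : m + 1 - l3 x ≤ i := ha
        exact ⟨hx, by omega⟩
      · rintro ⟨hx, ha⟩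
        refine ⟨hx, ?_⟩
        show m + 1 - l3 x ≤ i
        omega
    rw [e]
    exact u3 _ (by omega)
  · have e : upp Y (fun x => m + 1 - l3 x) i = low Y l3 (m + 1 - i) := by
      ext x
      constructor
      · rintro ⟨hx, ha⟩
        have e := L3.top x hx
        have ha' : i ≤ m + 1 - l3 x := ha
        exact ⟨hx, by omega⟩
      · rintro ⟨hx, ha⟩
        have e := L3.top x hx
        refine ⟨hx, ?_⟩
        show i ≤ m + 1 - l3 x
        omega
    rw [e]
    exact c3 _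
  · rw [wt_dual hE L3.top]
    exact (w3.trans w2.le).trans w1

end MOT
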