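import Pool.Agent.MOT.TmG
import Pool.Agent.MOT.TfG
import Pool.Agent.MOT.TcT
import Pool.Agent.MOT.TmMcc

/-!
# MOT: THIN, minimal weight over the tower (helper16)
-/

open Classical

noncomputable section

namespace MOT

/-- a labelling of the 2-skeleton of level `n`, seen on level `n + k` -/
def LabT (K : Lv) (n k : ℕ) (A0 A1 : Set (tw K n).V) (m r : ℕ) (l : (tw K (n + k)).V → ℕ) :
    Prop :=
  LabOK (tw K (n + k)).G (bdd (tw K n).G (car K n k)) (sk (car K n k) 3)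
    (sk (car K n k) 3 ∩ cel (car K n k) A0) (sk (car K n k) 3 ∩ cel (car K n k) A1) m r l

theorem exists_nof (K : Lv) (n : ℕ) (h : IsSph3 (tw K n).G) {A0 A1 : Set (tw K n).V}
    (hA0 : Conn (tw K n).G A0) (hA1 : Conn (tw K n).G A1) {m r k : ℕ}
    {l : (tw K (n + (k + 1))).V → ℕ} (hl : LabT K n (k + 1) A0 A1 m r l) :
    ∃ k', k ≤ k' ∧ ∃ l' : (tw K (n + (k' + 1))).V → ℕ, LabT K n (k' + 1) A0 A1 m r l' ∧
      (∀ i, Conn (tw K (n + (k' + 1))).G (low (sk (car K n (k' + 1)) 3) l' i)) ∧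
      (∀ i, i ≤ m + 1 → Conn (tw K (n + (k' + 1))).G (upp (sk (car K n (k' + 1)) 3) l' i)) ∧
      NoF (tw K n).G (tw K (n + (k' + 1))).G (car K n (k' + 1)) l' := by
  classical
  -- the set of weights
  set W : Set ℕ := {w | ∃ k', k ≤ k' ∧ ∃ l' : (tw K (n + (k' + 1))).V → ℕ,
    LabT K n (k' + 1) A0 A1 m r l' ∧
      wt (tw K (n + (k' + 1))).G (sk (car K n (k' + 1)) 2) l' = w} with hW
  have hne : W.Nonempty := ⟨_, k, le_rfl, l, hl, rfl⟩
  obtain ⟨k', hk', l', hl', hw⟩ := Nat.sInf_mem hne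
  have hcy := tw_cy K n h k'
  have h3 := hcy.two
  have hsk : sk (car K n (k' + 1)) 2 ⊆ sk (car K n (k' + 1)) 3 := by
    intro x hx
    have hx' : (car K n (k' + 1) x).ncard ≤ 2 := hx
    show (car K n (k' + 1) x).ncard ≤ 3
    omega
  obtain ⟨l2, h2, hlow, hupp, hwt⟩ := mainComp (E := sk (car K n (k' + 1)) 2) hl' h3.1 h3.2
    (sk_cel_conn hcy hA0) (sk_cel_conn hcy hA1) Set.inter_subset_left Set.inter_subset_left hsk
  refine ⟨k', hk', l2, h2, hlow, hupp, ?_⟩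
  intro a b e f I y y' F
  have hcy' := tw_cy K n h (k' + 1)
  obtain ⟨l3, h4, h5⟩ := finger_ok h hcy hcy' (fing_finger F)
    (fun g hg s0 hs => up_half hcy hg s0 hs) h2
  have h6 : wt (tw K (n + (k' + 1 + 1))).G (sk (car K n (k' + 1 + 1)) 2) l3 ∈ W :=
    ⟨k' + 1, by omega, l3, h4, rfl⟩
  have h7 := Nat.sInf_le h6
  have h8 : wt (tw K (n + (k' + 1 + 1))).G (sk (car K n (k' + 1 + 1)) 2) l3 <
      wt (tw K (n + (k' + 1))).G (sk (car K n (k' + 1)) 2) l2 := h5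
  omega

end MOT
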