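import Pool.Agent.MOT.TmDef

/-!
# MOT: THIN, main components I (helper16)

`mcl G Y l x0 x` = smallest `i` such that `x` lies in the component of `x0` in `{l ≤ i}` (minimax
label).  Elementary properties.

Proofs.  `comp G A x0` is monotone in `A`; for `i ≥ m + 1`, `low Y l i = Y` is connected.  So the set
in `mcl` is nonempty for `x ∈ Y` and upward closed: `low_mcl`.  `l ≤ mcl` since `comp ⊆ low`.
Lipschitz: `mcl x = i`, `y` adjacent to `x` in `Y`: `l y ≤ l x + 1 ≤ i + 1`, so `x, y ∈ low Y l (i+1)`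
and `y` is in the component of `x0` there.  `mcl_edge`: if `mcl x < mcl y`, `x, y` adjacent in `Y`,
`i = mcl x`: `y` is not in `low Y l i` (otherwise it would be in the component), so `l y > i ≥ l x`.
`upp_conn`: `upp Y (mcl) i = Y \ comp G (low Y l (i-1)) x0` contains the connected set `upp Y l i`;
a point `y` of it with `l y ≤ i - 1`: follow a path in `Y` from `y` to `x0`; all points before the
first one outside `low Y l (i-1)` are in the component of `y` in `low Y l (i-1)`, which is not the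
one of `x0`, so they lie in `upp Y (mcl) i`, and the first point outside exists (otherwise
`y ∈ comp G (low Y l (i-1)) x0`) and lies in `upp Y l i`.
-/

open Classical

noncomputable section

namespace MOT

variable {V : Type}

/-- minimax label -/
def mcl (G : SimpleGraph V) (Y : Set V) (l : V → ℕ) (x0 x : V) : ℕ :=
  sInf {i | x ∈ comp G (low Y l i) x0}

private theorem rtg_symm {G : SimpleGraph V} {A : Set V} {x y : V}
    (h : Relation.ReflTransGen (EIn G A) x y) : Relation.ReflTransGen (EIn G A) y x := by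
  induction h with
  | refl => exact Relation.ReflTransGen.refl
  | tail _ hbc ih => exact Relation.ReflTransGen.head ⟨hbc.1.symm, hbc.2.2, hbc.2.1⟩ ih

private theorem rtg_mono {G : SimpleGraph V} {A B : Set V} (h : A ⊆ B) {x y : V}
    (hp : Relation.ReflTransGen (EIn G A) x y) : Relation.ReflTransGen (EIn G B) x y := by
  induction hp with
  | refl => exact Relation.ReflTransGen.refl
  | tail _ hbc ih => exact ih.tail ⟨hbc.1, h hbc.2.1, h hbc.2.2⟩

private theorem low_mono {Y : Set V} {l : V → ℕ} {i j : ℕ} (h : i ≤ j) : low Y l i ⊆ low Y l j :=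
  fun _ hz => ⟨hz.1, hz.2.trans h⟩

theorem comp_mono {G : SimpleGraph V} {A B : Set V} (h : A ⊆ B) {x : V} :
    comp G A x ⊆ comp G B x := by
  rintro y ⟨hy, hyA⟩
  exact ⟨rtg_mono h hy, h hyA⟩

/-- a neighbour in `A` of a point of the component is in the component -/
theorem comp_adj {G : SimpleGraph V} {A : Set V} {x y z : V} (hy : y ∈ comp G A x)
    (hyz : EIn G A y z) : z ∈ comp G A x := by
  exact ⟨hy.1.tail hyz, hyz.2.2⟩

theorem comp_conn {G : SimpleGraph V} {A : Set V} {x : V} (hx : x ∈ A) :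
    Conn G (comp G A x) := by
  have key : ∀ y, Relation.ReflTransGen (EIn G A) x y →
      Relation.ReflTransGen (EIn G (comp G A x)) x y := by
    intro y hy
    induction hy with
    | refl => exact Relation.ReflTransGen.refl
    | tail hab hbc ih =>
      exact ih.tail ⟨hbc.1, ⟨hab, hbc.2.1⟩, ⟨hab.tail hbc, hbc.2.2⟩⟩
  refine ⟨⟨x, Relation.ReflTransGen.refl, hx⟩, fun y hy z hz => ?_⟩
  exact (rtg_symm (key y hy.1)).trans (key z hz.1)

private theorem mcl_ne {G : SimpleGraph V} {Y : Set V} {l : V → ℕ} {x0 : V} {m : ℕ}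
    (hY : Conn G Y) (hx0 : x0 ∈ Y) (ht : ∀ x ∈ Y, l x ≤ m + 1) {x : V} (hx : x ∈ Y) :
    x ∈ comp G (low Y l (m + 1)) x0 := by
  have hsub : Y ⊆ low Y l (m + 1) := fun z hz => ⟨hz, ht z hz⟩
  exact ⟨rtg_mono hsub (hY.2 x0 hx0 x hx), hsub hx⟩

private theorem mcl_mem {G : SimpleGraph V} {Y : Set V} {l : V → ℕ} {x0 : V} {m : ℕ}
    (hY : Conn G Y) (hx0 : x0 ∈ Y) (ht : ∀ x ∈ Y, l x ≤ m + 1) {x : V} (hx : x ∈ Y) :
    x ∈ comp G (low Y l (mcl G Y l x0 x)) x0 :=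
  Nat.sInf_mem (s := {i | x ∈ comp G (low Y l i) x0}) ⟨m + 1, mcl_ne hY hx0 ht hx⟩

theorem low_mcl {G : SimpleGraph V} {Y : Set V} {l : V → ℕ} {x0 : V} {m : ℕ} (hY : Conn G Y)
    (hx0 : x0 ∈ Y) (ht : ∀ x ∈ Y, l x ≤ m + 1) (i : ℕ) :
    low Y (mcl G Y l x0) i = comp G (low Y l i) x0 := by
  ext x
  constructor
  · rintro ⟨hx, hxi⟩
    exact comp_mono (low_mono hxi) (mcl_mem hY hx0 ht hx)
  · intro hx
    exact ⟨hx.2.1, Nat.sInf_le hx⟩

theorem le_mcl {G : SimpleGraph V} {Y : Set V} {l : V → ℕ} {x0 : V} {m : ℕ} (hY : Conn G Y)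
    (hx0 : x0 ∈ Y) (ht : ∀ x ∈ Y, l x ≤ m + 1) {x : V} (hx : x ∈ Y) : l x ≤ mcl G Y l x0 x := by
  exact (mcl_mem hY hx0 ht hx).2.2

theorem mcl_top {G : SimpleGraph V} {Y : Set V} {l : V → ℕ} {x0 : V} {m : ℕ} (hY : Conn G Y)
    (hx0 : x0 ∈ Y) (ht : ∀ x ∈ Y, l x ≤ m + 1) {x : V} (hx : x ∈ Y) :
    mcl G Y l x0 x ≤ m + 1 := by
  exact Nat.sInf_le (mcl_ne hY hx0 ht hx)

theorem mcl_lip {G : SimpleGraph V} {Y : Set V} {l : V → ℕ} {x0 : V} {m : ℕ} (hY : Conn G Y)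
    (hx0 : x0 ∈ Y) (ht : ∀ x ∈ Y, l x ≤ m + 1) (hl : ∀ x y, EIn G Y x y → l x ≤ l y + 1)
    {x y : V} (h : EIn G Y x y) : mcl G Y l x0 x ≤ mcl G Y l x0 y + 1 := by
  have h1 := mcl_mem hY hx0 ht h.2.2
  have h2 : y ∈ comp G (low Y l (mcl G Y l x0 y + 1)) x0 :=
    comp_mono (low_mono (Nat.le_succ _)) h1
  have h3 := hl x y h
  refine Nat.sInf_le (comp_adj h2 ⟨h.1.symm, h2.2, h.2.1, ?_⟩)
  exact h3.trans (Nat.succ_le_succ h1.2.2)

theorem mcl_edge {G : SimpleGraph V} {Y : Set V} {l : V → ℕ} {x0 : V} {m : ℕ} (hY : Conn G Y)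
    (hx0 : x0 ∈ Y) (ht : ∀ x ∈ Y, l x ≤ m + 1) {x y : V} (h : EIn G Y x y)
    (hne : mcl G Y l x0 x ≠ mcl G Y l x0 y) : l x ≠ l y := by
  intro he
  rcases lt_or_gt_of_ne hne with h1 | h1
  · have h2 := mcl_mem hY hx0 ht h.2.1
    have h3 : mcl G Y l x0 y ≤ mcl G Y l x0 x :=
      Nat.sInf_le (comp_adj h2 ⟨h.1, h2.2, h.2.2, he ▸ h2.2.2⟩)
    omega
  · have h2 := mcl_mem hY hx0 ht h.2.2
    have h3 : mcl G Y l x0 x ≤ mcl G Y l x0 y :=
      Nat.sInf_le (comp_adj h2 ⟨h.1.symm, h2.2, h.2.1, he ▸ h2.2.2⟩)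
    omega

/-- `mcl = 0` on a connected set of label `0` which contains `x0` -/
theorem mcl_zero {G : SimpleGraph V} {Y X0 : Set V} {l : V → ℕ} {x0 : V} {m : ℕ} (hY : Conn G Y)
    (ht : ∀ x ∈ Y, l x ≤ m + 1) (hX : Conn G X0) (hXY : X0 ⊆ Y) (hl : ∀ x ∈ X0, l x = 0)
    (hx0 : x0 ∈ X0) {x : V} (hx : x ∈ X0) : mcl G Y l x0 x = 0 := by
  have hsub : X0 ⊆ low Y l 0 := fun z hz => ⟨hXY hz, (hl z hz).le⟩
  have h1 : x ∈ comp G (low Y l 0) x0 :=
    ⟨rtg_mono hsub (hX.2 x0 hx0 x hx), hsub hx⟩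
  exact Nat.le_zero.1 (Nat.sInf_le h1)

theorem mcl_upp {G : SimpleGraph V} {Y : Set V} {l : V → ℕ} {x0 : V} {m : ℕ} (hY : Conn G Y)
    (hx0 : x0 ∈ Y) (ht : ∀ x ∈ Y, l x ≤ m + 1) {i : ℕ} (h : Conn G (upp Y l i)) :
    Conn G (upp Y (mcl G Y l x0) i) := by
  have hsub : upp Y l i ⊆ upp Y (mcl G Y l x0) i :=
    fun z hz => ⟨hz.1, hz.2.trans (le_mcl hY hx0 ht hz.1)⟩
  have key : ∀ y ∈ Y, Relation.ReflTransGen (EIn G Y) y x0 → i ≤ mcl G Y l x0 y →
      ∃ z ∈ upp Y l i, Relation.ReflTransGen (EIn G (upp Y (mcl G Y l x0) i)) y z := by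
    intro y hyY hp
    induction hp using Relation.ReflTransGen.head_induction_on with
    | refl =>
      intro hi
      have h1 : mcl G Y l x0 x0 ≤ l x0 :=
        Nat.sInf_le ⟨Relation.ReflTransGen.refl, hx0, le_rfl⟩
      exact ⟨x0, ⟨hx0, hi.trans h1⟩, Relation.ReflTransGen.refl⟩
    | @head a c hac _ ih =>
      intro hi
      rcases le_or_gt i (l a) with h1 | h1
      · exact ⟨a, ⟨hac.2.1, h1⟩, Relation.ReflTransGen.refl⟩
      · have h2 : i ≤ mcl G Y l x0 c := by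
          by_contra h3
          have h3' : mcl G Y l x0 c < i := not_le.1 h3
          have h4 := mcl_mem hY hx0 ht hac.2.2
          have h5 : c ∈ comp G (low Y l (i - 1)) x0 :=
            comp_mono (low_mono (by omega)) h4
          have h6 : mcl G Y l x0 a ≤ i - 1 :=
            Nat.sInf_le (comp_adj h5 ⟨hac.1.symm, h5.2, hac.2.1, by omega⟩)
          omega
        obtain ⟨z, hz, hp'⟩ := ih hac.2.2 h2
        exact ⟨z, hz, Relation.ReflTransGen.head ⟨hac.1, ⟨hac.2.1, hi⟩, hac.2.2, h2⟩ hp'⟩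
  refine ⟨h.1.mono hsub, fun y hy z hz => ?_⟩
  obtain ⟨y', hy', py⟩ := key y hy.1 (hY.2 y hy.1 x0 hx0) hy.2
  obtain ⟨z', hz', pz⟩ := key z hz.1 (hY.2 z hz.1 x0 hx0) hz.2
  have h1 : Relation.ReflTransGen (EIn G (upp Y (mcl G Y l x0) i)) y' z' :=
    rtg_mono hsub (h.2 y' hy' z' hz')
  exact (py.trans h1).trans (rtg_symm pz)

theorem mcl_wt [Finite V] {G : SimpleGraph V} {Y E : Set V} {l : V → ℕ} {x0 : V} {m : ℕ}
    (hY : Conn G Y) (hx0 : x0 ∈ Y) (ht : ∀ x ∈ Y, l x ≤ m + 1) (hE : E ⊆ Y) :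
    wt G E (mcl G Y l x0) ≤ wt G E l := by
  unfold wt
  refine Set.ncard_le_ncard (fun p hp => ⟨hp.1, ?_⟩) (Set.toFinite _)
  exact mcl_edge hY hx0 ht ⟨hp.1.1, hE hp.1.2.1, hE hp.1.2.2⟩ hp.2

end MOT
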