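import Pool.Agent.MOT.TmMca

/-!
# MOT: THIN, main components II: the rank condition survives (helper16)

Let `l' = mcl G Y l x0`, `P = band Y l j`, `R = lev Y l j`, `P' = band Y l' j`, `R' = lev Y l' j`.

(1) `P ∩ P'` and `P \ P'` are not adjacent: for `x ∈ P ∩ P'`, `y ∈ P \ P'`: `l' y ≥ j + 2`
(as `l' ≥ l ≥ j - 1`), but `l y ≤ j + 1`, `x ∈ comp G (low Y l (j+1)) x0` (by `low_mcl`), so `y` is
in this component and `l' y ≤ j + 1`.
(2) given hat cocycles `a' k` of `P'`, `a k x y := a' k x y` if `x, y ∈ P ∩ P'`, else `0`, is a hat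
cocycle of `P` (by (1) a triangle of `P` is inside or outside `P ∩ P'`; potential on `P ∩ B`: the one
of `a'` on `P'`, and `0` on `P \ P'`).
(3) let `∑ c_k a_k x y = f x + f y` on the edges of `R`.  Put `b x y = ∑ c_k a'_k x y + f x + f y` on the
edges of `R'`, `0` otherwise.  `b = 0` on the edges inside `R ∩ R'`.  If `x ∈ R' \ R` (so `l x < j`)
then every neighbour `y ∈ Y` of `x` is in `R'`: `l y ≤ j`, so `l' y ≤ j` (component of `{l ≤ j}`); if
`l' y ≤ j - 1` then `y` is in the component of `x0` in `{l ≤ j - 1}` and `x ∈ {l ≤ j - 1}` too,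
contradiction.  Hence `b` is a cocycle of `Y`, so `b` is trivial by `HZ G Y`, and
`∑ c_k a'_k` is trivial on `R'`.
-/

open Classical

noncomputable section

namespace MOT

variable {V : Type}

private theorem nadj42 {G : SimpleGraph V} {Y : Set V} {l : V → ℕ} {x0 : V} {m : ℕ}
    (hY : Conn G Y) (hx0 : x0 ∈ Y) (ht : ∀ x ∈ Y, l x ≤ m + 1) {j : ℕ} {x y : V}
    (hxy : G.Adj x y) (hx' : x ∈ band Y (mcl G Y l x0) j) (hy : y ∈ band Y l j) :
    y ∈ band Y (mcl G Y l x0) j := by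
  have hle : l y ≤ mcl G Y l x0 y := le_mcl hY hx0 ht hy.1
  refine ⟨hy.1, by have := hy.2.1; omega, ?_⟩
  have hxc : x ∈ comp G (low Y l (j + 1)) x0 := by
    rw [← low_mcl hY hx0 ht (j + 1)]
    exact ⟨hx'.1, hx'.2.2⟩
  have hyc : y ∈ comp G (low Y l (j + 1)) x0 :=
    comp_adj hxc ⟨hxy, hxc.2, ⟨hy.1, hy.2.2⟩⟩
  rw [← low_mcl hY hx0 ht (j + 1)] at hyc
  exact hyc.2

private theorem nb42 {G : SimpleGraph V} {Y : Set V} {l : V → ℕ} {x0 : V} {m : ℕ}
    (hY : Conn G Y) (hx0 : x0 ∈ Y) (ht : ∀ x ∈ Y, l x ≤ m + 1)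
    (hl : ∀ x y, EIn G Y x y → l x ≤ l y + 1) {j : ℕ} (hj : 1 ≤ j) {x z : V}
    (hxz : G.Adj x z) (hx : x ∈ lev Y (mcl G Y l x0) j) (hxn : x ∉ lev Y l j) (hz : z ∈ Y) :
    z ∈ lev Y (mcl G Y l x0) j := by
  have hle : l x ≤ mcl G Y l x0 x := le_mcl hY hx0 ht hx.1
  have hx2 : mcl G Y l x0 x = j := hx.2
  have hne : l x ≠ j := fun h => hxn ⟨hx.1, h⟩
  have hzx : l z ≤ l x + 1 := hl z x ⟨hxz.symm, hz, hx.1⟩
  have hxc : x ∈ comp G (low Y l j) x0 := by
    rw [← low_mcl hY hx0 ht j]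
    exact ⟨hx.1, hx2.le⟩
  have hzc : z ∈ comp G (low Y l j) x0 := comp_adj hxc ⟨hxz, hxc.2, ⟨hz, by omega⟩⟩
  rw [← low_mcl hY hx0 ht j] at hzc
  refine ⟨hz, le_antisymm hzc.2 ?_⟩
  by_contra hcon
  have hzc' : z ∈ comp G (low Y l (j - 1)) x0 := by
    rw [← low_mcl hY hx0 ht (j - 1)]
    exact ⟨hz, by omega⟩
  have hxc' : x ∈ comp G (low Y l (j - 1)) x0 :=
    comp_adj hzc' ⟨hxz.symm, hzc'.2, ⟨hx.1, by omega⟩⟩
  rw [← low_mcl hY hx0 ht (j - 1)] at hxc'
  have := hxc'.2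
  omega

private theorem zm42 (a b : ZMod 2) : a + a = 0 ∧ (a + b) + b = a := by
  revert a b; decide

private theorem sub42 {Y : Set V} {l : V → ℕ} {j : ℕ} {x : V} (h : x ∈ lev Y l j) :
    x ∈ band Y l j := ⟨h.1, by have := h.2; omega, by have := h.2; omega⟩

theorem mcl_rk {G : SimpleGraph V} {DD : Set (Set V)} {Y : Set V} {l : V → ℕ} {x0 : V} {m r : ℕ}
    (hY : Conn G Y) (hz : HZ G Y) (hx0 : x0 ∈ Y) (ht : ∀ x ∈ Y, l x ≤ m + 1)
    (hl : ∀ x y, EIn G Y x y → l x ≤ l y + 1) {j : ℕ} (hj : 1 ≤ j)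
    (h : Rk G DD (band Y l j) (lev Y l j) r) :
    Rk G DD (band Y (mcl G Y l x0) j) (lev Y (mcl G Y l x0) j) r := by
  intro a' ha'
  set P : Set V := band Y l j with hP
  set R : Set V := lev Y l j with hR
  set P' : Set V := band Y (mcl G Y l x0) j with hP'
  set R' : Set V := lev Y (mcl G Y l x0) j with hR'
  have hnadj : ∀ {x y : V}, G.Adj x y → x ∈ P → y ∈ P → (x ∈ P' ↔ y ∈ P') := by
    intro x y hxy hx hy
    exact ⟨fun h1 => nadj42 hY hx0 ht hxy h1 hy, fun h1 => nadj42 hY hx0 ht hxy.symm h1 hx⟩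
  have ha : ∀ k, (fun x y => if (x ∈ P ∧ x ∈ P') ∧ (y ∈ P ∧ y ∈ P') then a' k x y else 0)
      ∈ Zh G DD P := by
    intro k
    obtain ⟨⟨h1, h2, h3⟩, h4⟩ := ha' k
    refine ⟨⟨?_, ?_, ?_⟩, ?_⟩
    · intro x y hxy
      show (if _ then _ else _) = _
      split_ifs with hc
      · exact h1 x y fun hE => hxy ⟨hE.1, hc.1.1, hc.2.1⟩
      · rfl
    · intro x y
      show (if _ then _ else _) = (if _ then _ else _)
      by_cases hc : (x ∈ P ∧ x ∈ P') ∧ (y ∈ P ∧ y ∈ P')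
      · rw [if_pos hc, if_pos ⟨hc.2, hc.1⟩, h2]
      · rw [if_neg hc, if_neg fun hc' => hc ⟨hc'.2, hc'.1⟩]
    · intro x y z hxy hyz hxz
      show (if _ then _ else _) + (if _ then _ else _) = (if _ then _ else _)
      have e1 := hnadj hxy.1 hxy.2.1 hxy.2.2
      have e2 := hnadj hxz.1 hxz.2.1 hxz.2.2
      by_cases hx : x ∈ P'
      · have hy := e1.1 hx
        have hz := e2.1 hx
        have hxP := hxy.2.1
        have hyP := hxy.2.2
        have hzP := hxz.2.2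
        rw [if_pos ⟨⟨hxP, hx⟩, ⟨hyP, hy⟩⟩, if_pos ⟨⟨hyP, hy⟩, ⟨hzP, hz⟩⟩,
          if_pos ⟨⟨hxP, hx⟩, ⟨hzP, hz⟩⟩]
        exact h3 x y z ⟨hxy.1, hx, hy⟩ ⟨hyz.1, hy, hz⟩ ⟨hxz.1, hx, hz⟩
      · have hy := fun h => hx (e1.2 h)
        rw [if_neg (fun hc => hx hc.1.2), if_neg (fun hc => hy hc.1.2),
          if_neg (fun hc => hx hc.1.2), add_zero]
    · intro B hB
      obtain ⟨f, hf⟩ := h4 B hB
      refine ⟨fun x => if x ∈ P' then f x else 0, ?_⟩
      intro x y hxy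
      show (if _ then _ else _) = (if _ then _ else _) + (if _ then _ else _)
      have e1 := hnadj hxy.1 hxy.2.1.1 hxy.2.2.1
      by_cases hx : x ∈ P'
      · have hy := e1.1 hx
        rw [if_pos ⟨⟨hxy.2.1.1, hx⟩, ⟨hxy.2.2.1, hy⟩⟩, if_pos hx, if_pos hy]
        exact hf x y ⟨hxy.1, ⟨hx, hxy.2.1.2⟩, ⟨hy, hxy.2.2.2⟩⟩
      · have hy := fun h => hx (e1.2 h)
        rw [if_neg (fun hc => hx hc.1.2), if_neg hx, if_neg hy, add_zero]
  obtain ⟨c, hc, f, hf⟩ := h _ ha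
  refine ⟨c, hc, ?_⟩
  set s : V → V → ZMod 2 := ∑ k, c k • a' k with hs
  have hsZ : s ∈ Z1 G P' := (Z1 G P').sum_mem fun k _ => (Z1 G P').smul_mem _ (ha' k).1
  -- on the edges of `R ∩ R'` the sum is `f x + f y`
  have hRR : ∀ {x y : V}, G.Adj x y → x ∈ R → x ∈ R' → y ∈ R → y ∈ R' → s x y = f x + f y := by
    intro x y hxy hx hx' hy hy'
    rw [← hf x y ⟨hxy, hx, hy⟩, hs, Finset.sum_apply, Finset.sum_apply, Finset.sum_apply,
      Finset.sum_apply]
    refine Finset.sum_congr rfl fun k _ => ?_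
    show c k • a' k x y = c k • (if _ then _ else _)
    rw [if_pos ⟨⟨sub42 hx, sub42 hx'⟩, ⟨sub42 hy, sub42 hy'⟩⟩]
  have hb0 : ∀ {x y z : V}, G.Adj x y → G.Adj x z → G.Adj y z → z ∈ Y → x ∈ R' → y ∈ R' →
      z ∉ R' → s x y + (f x + f y) = 0 := by
    intro x y z hxy hxz hyz hz hx hy hzn
    have hxR : x ∈ R := by
      by_contra hxn
      exact hzn (nb42 hY hx0 ht hl hj hxz hx hxn hz)
    have hyR : y ∈ R := by
      by_contra hyn
      exact hzn (nb42 hY hx0 ht hl hj hyz hy hyn hz)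
    rw [hRR hxy hxR hx hyR hy]
    exact (zm42 _ 0).1
  have hbZ : (fun x y => if EIn G R' x y then s x y + (f x + f y) else 0) ∈ Z1 G Y := by
    refine ⟨?_, ?_, ?_⟩
    · intro x y hxy
      show (if _ then _ else _) = _
      exact if_neg fun hc => hxy ⟨hc.1, hc.2.1.1, hc.2.2.1⟩
    · intro x y
      show (if _ then _ else _) = (if _ then _ else _)
      by_cases hc : EIn G R' x y
      · rw [if_pos hc, if_pos ⟨hc.1.symm, hc.2.2, hc.2.1⟩, hsZ.2.1 x y, add_comm (f x)]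
      · rw [if_neg hc, if_neg fun hc' => hc ⟨hc'.1.symm, hc'.2.2, hc'.2.1⟩]
    · intro x y z hxy hyz hxz
      show (if _ then _ else _) + (if _ then _ else _) = (if _ then _ else _)
      have hxY := hxy.2.1
      have hyY := hxy.2.2
      have hzY := hxz.2.2
      have h1 := hxy.1
      have h2 := hyz.1
      have h3 := hxz.1
      by_cases hx : x ∈ R'
      · by_cases hy : y ∈ R'
        · by_cases hz : z ∈ R'
          · rw [if_pos ⟨h1, hx, hy⟩, if_pos ⟨h2, hy, hz⟩, if_pos ⟨h3, hx, hz⟩,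
              ← hsZ.2.2 x y z ⟨h1, sub42 hx, sub42 hy⟩ ⟨h2, sub42 hy, sub42 hz⟩
                ⟨h3, sub42 hx, sub42 hz⟩]
            have e := (zm42 (f y) 0).1
            calc s x y + (f x + f y) + (s y z + (f y + f z))
                = s x y + s y z + (f x + f z) + (f y + f y) := by ring
              _ = _ := by rw [e, add_zero]
          · rw [if_pos ⟨h1, hx, hy⟩, if_neg (fun hc => hz hc.2.2), if_neg (fun hc => hz hc.2.2),
              add_zero]
            exact hb0 h1 h3 h2 hzY hx hy hz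
        · by_cases hz : z ∈ R'
          · rw [if_neg (fun hc => hy hc.2.2), if_neg (fun hc => hy hc.2.1), if_pos ⟨h3, hx, hz⟩,
              add_zero]
            exact (hb0 h3 h1 h2.symm hyY hx hz hy).symm
          · rw [if_neg (fun hc => hy hc.2.2), if_neg (fun hc => hy hc.2.1),
              if_neg (fun hc => hz hc.2.2), add_zero]
      · by_cases hy : y ∈ R'
        · by_cases hz : z ∈ R'
          · rw [if_neg (fun hc => hx hc.2.1), if_pos ⟨h2, hy, hz⟩, if_neg (fun hc => hx hc.2.1),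
              zero_add]
            exact hb0 h2 h1.symm h3.symm hxY hy hz hx
          · rw [if_neg (fun hc => hx hc.2.1), if_neg (fun hc => hz hc.2.2),
              if_neg (fun hc => hx hc.2.1), zero_add]
        · rw [if_neg (fun hc => hx hc.2.1), if_neg (fun hc => hy hc.2.1),
            if_neg (fun hc => hx hc.2.1), zero_add]
  obtain ⟨g, hg⟩ := hz _ hbZ
  refine ⟨fun x => g x + f x, fun x y hxy => ?_⟩
  have e1 := hg x y ⟨hxy.1, hxy.2.1.1, hxy.2.2.1⟩
  have e2 : (if EIn G R' x y then s x y + (f x + f y) else 0) = g x + g y := e1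
  rw [if_pos hxy] at e2
  have e3 := (zm42 (s x y) (f x + f y)).2
  show s x y = (g x + f x) + (g y + f y)
  rw [← e3, e2]
  ring

end MOT
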