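import Pool.Agent.MOT.Tw

/-!
# MOT/Tra: a fine level of the range is a copy of the domain level up to one layer (helper82)

`P : Pair K K'`, `m` a level of the domain, `n` a level of the range, `p x` with `dn n m x (p x)`.
Choose `m + k` with `f : V(m+k) → V'(n)`, `up (m+k) n u (f u)`, and then `n + l` with
`g : V'(n+l) → V(m+k)`, `dn (n+l) (m+k) x (g x)` (`up_ex`, `dn_ex`; take the level large and of the form
`m + k`, `n + l`).  By `up_dn`: `p (f u) ∈ car K m k u`; by `dn_up`: `f (g x) ∈ car K' n l x`.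

(fmi)  `f` maps `miN K m D k` into `p ⁻¹' D`.
(gmi)  if `nb D' ⊆ D` then `g` maps `miN K' n (p ⁻¹' D') l` into `miN K m D k`: `y = g x`, `f y ∈ car x ⊆ p⁻¹ D'`,
       `p (f y) ∈ D' ∩ car y`, `car y` is a clique (`car_cl`), so `car y ⊆ nb D' ⊆ D`.
(lift) `a ∈ Z1 (p⁻¹ D)`; `rs (pbk f a)` is a cocycle of `miN D` (`pbk_mem`, `up_nr`), `lift_choice` gives
       `w ∈ Z1 D` with `pbk f a + pbk ch w` trivial on `miN D`; pull back by `g`: on `E = miN K' n (p⁻¹ D') l`
       the cochain `pbk (f ∘ g) a + pbk (ch ∘ g) w` is trivial (`Triv_pbk`).  `f ∘ g` and `ch K' n l` are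
       contiguous on `E` (both in carriers, `car_nr`), so `pbk (f ∘ g) a + pbk ch a` is trivial
       (`pbk_contig`); `ch K m k ∘ g` and `p ∘ ch K' n l` are contiguous by `dn_dn`; so `pbk ch (a + pbk p w)` is
       trivial on `E`, and by `Triv_choice` `a + pbk p w` is trivial on `p⁻¹ D'`.
(inj)  `pbk p w` trivial on `p⁻¹ D` ⟹ `pbk (p ∘ f) w` trivial on `miN D` (`Triv_pbk`, (fmi)); `p ∘ f` is a choice,
       `Triv_choice`.
(surj) `u`: take `y ∈ V(m+k)` with `car y = {u}` (`car_full`): `p (f y) ∈ {u}`.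
(conn) `E' = plN K m D' k` is connected (`plN_Conn`); for `x` with `p x ∈ D'` take `x' ∈ V'(n+l)` with `car x' = {x}`,
       `y = g x'`: `f y = x`, `p x = p (f y) ∈ car y`, so `y ∈ E'`.  A path in `E'` from `y1` to `y2` is mapped by
       `f` to a walk (steps equal or adjacent, `up_nr`) from `x1` to `x2` in `p⁻¹ (nb D')`.
-/

open Classical

noncomputable section

namespace MOT

variable {K K' : Lv}

/-- fine levels `m + k`, `n + l` and the maps between them (see the head of the file) -/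
private theorem tra_fg (P : Pair K K') {m n : ℕ} {p : (tw K' n).V → (tw K m).V}
    (hp : ∀ x, P.dn n m x (p x)) :
    ∃ (k : ℕ) (f : (tw K (m + k)).V → (tw K' n).V), (∀ u, p (f u) ∈ car K m k u) ∧
      (∀ u u', Nr (tw K (m + k)).G u u' → Nr (tw K' n).G (f u) (f u')) ∧
      ∃ (l : ℕ) (g : (tw K' (n + l)).V → (tw K (m + k)).V), (∀ x, f (g x) ∈ car K' n l x) ∧
        (∀ x x', Nr (tw K' (n + l)).G x x' → Nr (tw K (m + k)).G (g x) (g x')) ∧
        (∀ (x x' : (tw K' (n + l)).V) (y : (tw K' n).V), Nr (tw K' (n + l)).G x x' →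
          y ∈ car K' n l x → ∀ w ∈ car K m k (g x'), Nr (tw K m).G w (p y)) := by
  obtain ⟨k, hk⟩ := P.up_ex n
  have hf := hk (m + k) (Nat.le_add_left k m)
  choose f hf using hf
  obtain ⟨l, hl⟩ := P.dn_ex (m + k)
  have hg := hl (n + l) (Nat.le_add_left l n)
  choose g hg using hg
  refine ⟨k, f, fun u => P.up_dn m k n u (f u) (p (f u)) (hf u) (hp (f u)),
    fun u u' h => P.up_nr (m + k) n u u' (f u) (f u') (hf u) (hf u') h, l, g,
    fun x => P.dn_up n l (m + k) x (g x) (f (g x)) (hg x) (hf (g x)),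
    fun x x' h => P.dn_nr (n + l) (m + k) x x' (g x) (g x') (hg x) (hg x') h, ?_⟩
  intro x x' y h hy w hw
  exact P.dn_dn n l m k x x' y (g x') (p y) h hy (hg x') (hp y) w hw

private theorem tra_nr (P : Pair K K') {m n : ℕ} {p : (tw K' n).V → (tw K m).V}
    (hp : ∀ x, P.dn n m x (p x)) {x y : (tw K' n).V} (h : Nr (tw K' n).G x y) :
    Nr (tw K m).G (p x) (p y) :=
  P.dn_nr n m x y (p x) (p y) (hp x) (hp y) h

private theorem Z1_d {V : Type} {G : SimpleGraph V} {D : Set V} {a : V → V → ZMod 2}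
    (ha : a ∈ Z1 G D) (x : V) : a x x = 0 := (mem_Z1.1 ha).1 x x fun h => h.1.ne rfl

theorem tra_lift (P : Pair K K') {m n : ℕ} {p : (tw K' n).V → (tw K m).V}
    (hp : ∀ x, P.dn n m x (p x)) {D D' : Set (tw K m).V} (hD : nb (tw K m).G D' ⊆ D)
    {a : (tw K' n).V → (tw K' n).V → ZMod 2} (ha : a ∈ Z1 (tw K' n).G (p ⁻¹' D)) :
    ∃ w ∈ Z1 (tw K m).G D, Triv (tw K' n).G (p ⁻¹' D') (a + pbk p w) := by
  obtain ⟨k, f, hpf, hfn, l, g, hfg, hgn, hdd⟩ := tra_fg P hp
  have hDD : D' ⊆ D := sub_nb.trans hD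
  have hfm : ∀ u ∈ miN K m D k, f u ∈ p ⁻¹' D := fun u hu => mem_miN.1 hu (hpf u)
  obtain ⟨w, hw, ht⟩ := lift_choice (K := K) (n := m) (k := k) (p := ch K m k) ch_mem (A := D)
    (pbk_mem (G' := (tw K (m + k)).G) ha (E := miN K m D k) (fun x y h _ _ => hfn x y h) hfm)
  refine ⟨w, hw, ?_⟩
  have hE : ∀ x ∈ miN K' n (p ⁻¹' D') l, ∀ y ∈ car K' n l x, p y ∈ D' :=
    fun x hx y hy => mem_miN.1 hx hy
  have hgm : ∀ x ∈ miN K' n (p ⁻¹' D') l, g x ∈ miN K m D k := by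
    intro x hx
    refine mem_miN.2 fun u hu => hD ?_
    exact ⟨p (f (g x)), hE x hx _ (hfg x), car_nr (Nr.refl (g x)) hu (hpf (g x))⟩
  have t1 := Triv_pbk (G' := (tw K' (n + l)).G) (E := miN K' n (p ⁻¹' D') l) (p := g)
    (fun x => by
      simp only [Pi.add_apply]
      rw [Z1_d (pbk_mem (G' := (tw K (m + k)).G) ha (E := miN K m D k)
        (fun x y h _ _ => hfn x y h) hfm) x]
      show 0 + w _ _ = 0
      rw [Z1_d hw, add_zero]) ht (fun x y h _ _ => hgn x y h) hgm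
  have t2 : Triv (tw K' (n + l)).G (miN K' n (p ⁻¹' D') l)
      (pbk (fun x => f (g x)) a + pbk (ch K' n l) a) :=
    pbk_contig ha (fun x y h _ _ => car_nr h (hfg x) (hfg y))
      (fun x y h _ _ => car_nr h (ch_mem x) (ch_mem y))
      (fun x y h _ _ => car_nr h (hfg x) (ch_mem y))
      (fun x hx => hDD (hE x hx _ (hfg x))) (fun x hx => hDD (hE x hx _ (ch_mem x)))
  have t3 : Triv (tw K' (n + l)).G (miN K' n (p ⁻¹' D') l)
      (pbk (fun x => ch K m k (g x)) w + pbk (fun x => p (ch K' n l x)) w) :=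
    pbk_contig hw (fun x y h _ _ => car_nr (hgn x y h) (ch_mem _) (ch_mem _))
      (fun x y h _ _ => tra_nr P hp (car_nr h (ch_mem x) (ch_mem y)))
      (fun x y h _ _ => hdd y x (ch K' n l y) h.symm (ch_mem y) _ (ch_mem _))
      (fun x hx => mem_miN.1 (hgm x hx) (ch_mem _)) (fun x hx => hDD (hE x hx _ (ch_mem x)))
  have hb : a + rs (tw K' n).G (p ⁻¹' D) (pbk p w) ∈ Z1 (tw K' n).G (p ⁻¹' D) :=
    (Z1 _ _).add_mem ha (pbk_mem hw (fun x y h _ _ => tra_nr P hp h) fun x hx => hx)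
  have t4 : Triv (tw K' (n + l)).G (miN K' n (p ⁻¹' D') l)
      (pbk (ch K' n l) (a + rs (tw K' n).G (p ⁻¹' D) (pbk p w))) := by
    refine ((t1.add t2).add t3).congr fun x y e => ?_
    have hx := e.2.1
    have hy := e.2.2
    have c1 : rs (tw K (m + k)).G (miN K m D k) (pbk f a) (g x) (g y) = a (f (g x)) (f (g y)) := by
      rcases hgn x y (Or.inr e.1) with h | h
      · rw [h, Z1_d ha]; exact if_neg fun h => h.1.ne rfl
      · exact rs_apply ⟨h, hgm x hx, hgm y hy⟩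
    have c2 : rs (tw K' n).G (p ⁻¹' D) (pbk p w) (ch K' n l x) (ch K' n l y) =
        w (p (ch K' n l x)) (p (ch K' n l y)) := by
      rcases car_nr (Or.inr e.1) (ch_mem x) (ch_mem y) with h | h
      · rw [h, Z1_d hw]; exact if_neg fun h => h.1.ne rfl
      · exact rs_apply ⟨h, hDD (hE x hx _ (ch_mem x)), hDD (hE y hy _ (ch_mem y))⟩
    simp only [Pi.add_apply, pbk] at c1 c2 ⊢
    rw [c1, c2]
    have t : ∀ r s t u : ZMod 2, r + s + (r + t) + (s + u) = t + u := by decide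
    exact t _ _ _ _
  refine ((Triv_choice ch_mem hb (Set.preimage_mono hDD)).1 t4).congr fun x y e => ?_
  simp only [Pi.add_apply]
  rw [rs_apply (e.mono (Set.preimage_mono hDD))]

theorem tra_inj (P : Pair K K') {m n : ℕ} {p : (tw K' n).V → (tw K m).V}
    (hp : ∀ x, P.dn n m x (p x)) {D : Set (tw K m).V}
    {w : (tw K m).V → (tw K m).V → ZMod 2} (hw : w ∈ Z1 (tw K m).G D)
    (h : Triv (tw K' n).G (p ⁻¹' D) (pbk p w)) : Triv (tw K m).G D w := by
  obtain ⟨k, f, hpf, hfn, -⟩ := tra_fg P hp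
  have t := Triv_pbk (G' := (tw K (m + k)).G) (E := miN K m D k) (p := f)
    (fun x => Z1_d hw (p x)) h (fun x y h _ _ => hfn x y h)
    (fun u hu => mem_miN.1 hu (hpf u))
  exact (Triv_choice (p := fun u => p (f u)) hpf hw subset_rfl).1 t

theorem tra_surj (P : Pair K K') {m n : ℕ} {p : (tw K' n).V → (tw K m).V}
    (hp : ∀ x, P.dn n m x (p x)) : Function.Surjective p := by
  intro u
  obtain ⟨k, f, hpf, -⟩ := tra_fg P hp
  obtain ⟨x, hx⟩ := car_full k u
  have h := hpf x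
  rw [hx] at h
  exact ⟨f x, h⟩

theorem tra_conn (P : Pair K K') {m n : ℕ} {p : (tw K' n).V → (tw K m).V}
    (hp : ∀ x, P.dn n m x (p x)) {D D' : Set (tw K m).V} (hD : nb (tw K m).G D' ⊆ D)
    (hc : Conn (tw K m).G D') (x y : (tw K' n).V) (hx : p x ∈ D') (hy : p y ∈ D') :
    Relation.ReflTransGen (EIn (tw K' n).G (p ⁻¹' D)) x y := by
  obtain ⟨k, f, hpf, hfn, l, g, hfg, -, -⟩ := tra_fg P hp
  have hz : ∀ x, p x ∈ D' → ∃ z ∈ plN K m D' k, f z = x := by
    intro x hx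
    obtain ⟨x', hx'⟩ := car_full l x
    have h1 := hfg x'
    rw [hx'] at h1
    have h2 : f (g x') = x := h1
    refine ⟨g x', mem_plN.2 ⟨p x, ?_, hx⟩, h2⟩
    have h3 := hpf (g x')
    rwa [h2] at h3
  have hf : ∀ z ∈ plN K m D' k, f z ∈ p ⁻¹' D := by
    intro z hz
    obtain ⟨u, hu, hu'⟩ := mem_plN.1 hz
    exact hD ⟨u, hu', car_nr (Nr.refl z) (hpf z) hu⟩
  obtain ⟨z1, h1, rfl⟩ := hz x hx
  obtain ⟨z2, h2, rfl⟩ := hz y hy
  have r := (plN_Conn.2 hc).2 z1 h1 z2 h2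
  clear hx hy h1 h2
  induction r with
  | refl => exact Relation.ReflTransGen.refl
  | tail _ e ih =>
    rcases hfn _ _ (Or.inr e.1) with h | h
    · rw [← h]; exact ih
    · exact ih.tail ⟨h, hf _ e.2.1, hf _ e.2.2⟩

theorem Pair.tra (P : Pair K K') {m n : ℕ} {p : (tw K' n).V → (tw K m).V}
    (hp : ∀ x, P.dn n m x (p x)) : Tra (tw K m).G (tw K' n).G p where
  nr x y h := P.dn_nr n m x y (p x) (p y) (hp x) (hp y) h
  surj := tra_surj P hp
  lift _ _ hD _ ha := tra_lift P hp hD ha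
  inj _ _ hw h := tra_inj P hp hw h
  conn _ _ hD hc x y hx hy := tra_conn P hp hD hc x y hx hy

end MOT
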