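import Pool.Agent.MOT.Pr

/-!
# MOT/Tw: carriers and cohomology in a tower (helper82)

`car K n k x` = vertices (level `n`) of the carrier of the vertex `x` of level `n + k`.
Everything by induction on `k` (`car K n (k+1) s = {u | ∃ x ∈ s.1, u ∈ car K n k x}` is `rfl`;
`miN K n A (k+1) = mi _ (miN K n A k)`, `plN K n A (k+1) = pl _ (plN K n A k)` are `rfl`).

`ch K n k x` is a chosen vertex of the carrier; any other choice is contiguous to it (`car_nr`,
`pbk_contig`), so `Triv_ch`, `lift_ch` hold for every choice `p` with `p x ∈ car K n k x`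
(stated for arbitrary choices).
`Triv_ch`, `lift_ch`: induction on `k` with `Sdi`: on one step the choice is `pk` up to contiguity, `upc G A a`
is `pbk pk a` on the edges in `mi A`; `Triv_upc`, `dnc_mem`, `upc_dnc`.
-/

open Classical

noncomputable section

namespace MOT

variable {K : Lv} {n k : ℕ}

private theorem car_succ (s : Cq (tw K (n + k)).G) :
    car K n (k + 1) s = {u | ∃ x ∈ s.1, u ∈ car K n k x} := rfl

private theorem miN_succ {A : Set (tw K n).V} :
    miN K n A (k + 1) = mi (tw K (n + k)).G (miN K n A k) := rfl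

private theorem plN_succ {A : Set (tw K n).V} :
    plN K n A (k + 1) = pl (tw K (n + k)).G (plN K n A k) := rfl

theorem car_ne (x : (tw K (n + k)).V) : (car K n k x).Nonempty := by
  induction k with
  | zero => exact ⟨x, rfl⟩
  | succ k ih =>
    let s : Cq (tw K (n + k)).G := x
    obtain ⟨y, hy⟩ := s.2.1
    obtain ⟨u, hu⟩ := ih y
    exact ⟨u, y, hy, hu⟩

theorem car_nr {x y : (tw K (n + k)).V} (h : Nr (tw K (n + k)).G x y) {u w : (tw K n).V}
    (hu : u ∈ car K n k x) (hw : w ∈ car K n k y) : Nr (tw K n).G u w := by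
  induction k generalizing u w with
  | zero =>
    have hu' : u = x := hu
    have hw' : w = y := hw
    rw [hu', hw']
    exact h
  | succ k ih =>
    let s : Cq (tw K (n + k)).G := x
    let t : Cq (tw K (n + k)).G := y
    obtain ⟨p, hp, hup⟩ : ∃ p ∈ s.1, u ∈ car K n k p := hu
    obtain ⟨q, hq, hwq⟩ : ∃ q ∈ t.1, w ∈ car K n k q := hw
    have key : ∀ r : Cq (tw K (n + k)).G, p ∈ r.1 → q ∈ r.1 → Nr (tw K (n + k)).G p q := by
      intro r h1 h2
      by_cases e : p = q
      · exact Or.inl e
      · exact Or.inr (r.2.2 (Finset.mem_coe.2 h1) (Finset.mem_coe.2 h2) e)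
    have hst : s = t ∨ (s < t ∨ t < s) := h
    have hpq : Nr (tw K (n + k)).G p q := by
      rcases hst with h | h | h
      · exact key s hp (h ▸ hq)
      · exact key t ((Cq.le_iff.1 h.le) hp) hq
      · exact key s hp ((Cq.le_iff.1 h.le) hq)
    exact ih hpq hup hwq

theorem car_cl (x : (tw K (n + k)).V) : (tw K n).G.IsClique (car K n k x) := by
  intro u hu w hw hne
  exact (car_nr (Nr.refl x) hu hw).resolve_left hne

/-- carriers of adjacent vertices are nested (this needs at least one subdivision) -/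
theorem car_cmp {x y : (tw K (n + (k + 1))).V} (h : (tw K (n + (k + 1))).G.Adj x y) :
    car K n (k + 1) x ⊆ car K n (k + 1) y ∨ car K n (k + 1) y ⊆ car K n (k + 1) x := by
  let s : Cq (tw K (n + k)).G := x
  let t : Cq (tw K (n + k)).G := y
  have hst : s < t ∨ t < s := h
  rcases hst with h | h
  · left
    rintro u ⟨p, hp, hu⟩
    exact ⟨p, (Cq.le_iff.1 h.le) hp, hu⟩
  · right
    rintro u ⟨p, hp, hu⟩
    exact ⟨p, (Cq.le_iff.1 h.le) hp, hu⟩

theorem mem_miN {A : Set (tw K n).V} {x : (tw K (n + k)).V} :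
    x ∈ miN K n A k ↔ car K n k x ⊆ A := by
  induction k with
  | zero => exact ⟨fun h u hu => by rw [show u = x from hu]; exact h, fun h => h rfl⟩
  | succ k ih =>
    let s : Cq (tw K (n + k)).G := x
    have h1 : x ∈ miN K n A (k + 1) ↔ ∀ y ∈ s.1, y ∈ miN K n A k := Iff.rfl
    rw [h1]
    constructor
    · rintro h u ⟨y, hy, hu⟩
      exact (ih.1 (h y hy)) hu
    · intro h y hy
      exact ih.2 fun u hu => h ⟨y, hy, hu⟩

theorem mem_plN {A : Set (tw K n).V} {x : (tw K (n + k)).V} :
    x ∈ plN K n A k ↔ ∃ u ∈ car K n k x, u ∈ A := by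
  induction k with
  | zero => exact ⟨fun h => ⟨x, rfl, h⟩, fun ⟨u, hu, h⟩ => by rw [← show u = x from hu]; exact h⟩
  | succ k ih =>
    let s : Cq (tw K (n + k)).G := x
    have h1 : x ∈ plN K n A (k + 1) ↔ ∃ y ∈ s.1, y ∈ plN K n A k := Iff.rfl
    rw [h1]
    constructor
    · rintro ⟨y, hy, h⟩
      obtain ⟨u, hu, hA⟩ := ih.1 h
      exact ⟨u, ⟨y, hy, hu⟩, hA⟩
    · rintro ⟨u, ⟨y, hy, hu⟩, hA⟩
      exact ⟨y, hy, ih.2 ⟨u, hu, hA⟩⟩

theorem miN_sub_plN {A : Set (tw K n).V} : miN K n A k ⊆ plN K n A k := by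
  intro x hx
  obtain ⟨u, hu⟩ := car_ne x
  exact mem_plN.2 ⟨u, hu, mem_miN.1 hx hu⟩

theorem plN_compl {A : Set (tw K n).V} : (plN K n A k)ᶜ = miN K n Aᶜ k := by
  ext x
  rw [Set.mem_compl_iff, mem_plN, mem_miN]
  constructor
  · intro h u hu hA
    exact h ⟨u, hu, hA⟩
  · rintro h ⟨u, hu, hA⟩
    exact h hu hA

/-- the vertex `u` seen on level `n + k` -/
theorem car_full (k : ℕ) (u : (tw K n).V) : ∃ x : (tw K (n + k)).V, car K n k x = {u} := by
  induction k with
  | zero => exact ⟨u, rfl⟩
  | succ k ih =>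
    obtain ⟨x, hx⟩ := ih
    refine ⟨vx (tw K (n + k)).G x, ?_⟩
    rw [← hx]
    ext w
    constructor
    · rintro ⟨y, hy, hw⟩
      have hy' : y ∈ ({x} : Finset (tw K (n + k)).V) := hy
      rw [Finset.mem_singleton] at hy'
      rw [← hy']
      exact hw
    · intro hw
      exact ⟨x, Finset.mem_singleton_self x, hw⟩

/-- a vertex of the carrier -/
def ch (K : Lv) (n k : ℕ) (x : (tw K (n + k)).V) : (tw K n).V := (car_ne x).some

theorem ch_mem (x : (tw K (n + k)).V) : ch K n k x ∈ car K n k x := (car_ne x).some_mem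

/-- any choice of a vertex of the carrier is simplicial -/
theorem choice_nr {p : (tw K (n + k)).V → (tw K n).V} (hp : ∀ x, p x ∈ car K n k x)
    (x y : (tw K (n + k)).V) (h : Nr (tw K (n + k)).G x y) : Nr (tw K n).G (p x) (p y) :=
  car_nr h (hp x) (hp y)

/-- two choices are contiguous -/
private theorem choice_contig {p q : (tw K (n + k)).V → (tw K n).V}
    (hp : ∀ x, p x ∈ car K n k x) (hq : ∀ x, q x ∈ car K n k x)
    {A : Set (tw K n).V} {a : (tw K n).V → (tw K n).V → ZMod 2} (ha : a ∈ Z1 (tw K n).G A) :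
    Triv (tw K (n + k)).G (miN K n A k) (pbk p a + pbk q a) := by
  refine pbk_contig ha (fun x y h _ _ => car_nr h (hp x) (hp y))
    (fun x y h _ _ => car_nr h (hq x) (hq y)) (fun x y h _ _ => car_nr h (hp x) (hq y))
    (fun x hx => mem_miN.1 hx (hp x)) (fun x hx => mem_miN.1 hx (hq x))

private theorem Triv_swap {V : Type} {G : SimpleGraph V} {B : Set V}
    {a b : V → V → ZMod 2} (h : Triv G B (a + b)) : Triv G B a ↔ Triv G B b := by
  constructor
  · intro h1
    refine (h.add h1).congr fun x y _ => ?_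
    simp only [Pi.add_apply]
    linear_combination two_add (a x y)
  · intro h1
    refine (h.add h1).congr fun x y _ => ?_
    simp only [Pi.add_apply]
    linear_combination two_add (b x y)

section one

variable {V : Type} {G : SimpleGraph V} {A B : Set V}

private theorem upc_eq {a a' : V → V → ZMod 2} (h0 : ∀ x, a x x = 0)
    (h : ∀ x y, EIn G A x y → a' x y = a x y) {s t : Cq G}
    (e : EIn (sd G) (mi G A) s t) : upc G A a' s t = pbk pk a s t := by
  have h1 : upc G A a' s t = if pk s = pk t then 0 else a' (pk s) (pk t) := if_pos e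
  rw [h1]
  show _ = a (pk s) (pk t)
  by_cases hst : pk s = pk t
  · rw [if_pos hst, hst, h0]
  · rw [if_neg hst]
    refine h _ _ ⟨?_, e.2.1 _ (pk_mem s), e.2.2 _ (pk_mem t)⟩
    rcases e.1 with l | l
    · exact t.2.2 (Finset.mem_coe.2 ((Cq.le_iff.1 l.le) (pk_mem s)))
        (Finset.mem_coe.2 (pk_mem t)) hst
    · exact s.2.2 (Finset.mem_coe.2 (pk_mem s))
        (Finset.mem_coe.2 ((Cq.le_iff.1 l.le) (pk_mem t))) hst

end one

private theorem z1_diag {V : Type} {G : SimpleGraph V} {A : Set V} {a : V → V → ZMod 2}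
    (ha : a ∈ Z1 G A) (x : V) : a x x = 0 := (mem_Z1.1 ha).1 x x (fun h => h.1.ne rfl)

theorem Triv_choice {p : (tw K (n + k)).V → (tw K n).V} (hp : ∀ x, p x ∈ car K n k x)
    {A B : Set (tw K n).V} {a : (tw K n).V → (tw K n).V → ZMod 2} (ha : a ∈ Z1 (tw K n).G A)
    (h : B ⊆ A) : Triv (tw K (n + k)).G (miN K n B k) (pbk p a) ↔ Triv (tw K n).G B a := by
  induction k with
  | zero =>
    have hpx : p = id := funext fun x => hp x
    rw [hpx]
    exact Iff.rfl
  | succ k ih =>
    have hch : ∀ x, ch K n k x ∈ car K n k x := ch_mem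
    have ihc := ih (p := ch K n k) hch
    let q : (tw K (n + (k + 1))).V → (tw K n).V :=
      fun s => ch K n k (pk (G := (tw K (n + k)).G) s)
    have hq : ∀ s : (tw K (n + (k + 1))).V, q s ∈ car K n (k + 1) s := fun s =>
      ⟨pk (G := (tw K (n + k)).G) s, pk_mem (G := (tw K (n + k)).G) s, hch _⟩
    have hsub : miN K n B k ⊆ miN K n A k := fun x hx => mem_miN.2 ((mem_miN.1 hx).trans h)
    -- the cocycle on level `n + k`
    let a' := rs (tw K (n + k)).G (miN K n A k) (pbk (ch K n k) a)
    have ha' : a' ∈ Z1 (tw K (n + k)).G (miN K n A k) :=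
      pbk_mem ha (fun x y hxy _ _ => choice_nr hch x y hxy) (fun x hx => mem_miN.1 hx (hch x))
    have h0 : ∀ x, pbk (ch K n k) a x x = 0 := fun x => z1_diag ha _
    have e1 : Triv (tw K (n + k)).G (miN K n B k) a' ↔
        Triv (tw K (n + k)).G (miN K n B k) (pbk (ch K n k) a) :=
      ⟨fun t => t.congr fun x y e => rs_apply (e.mono hsub),
        fun t => t.congr fun x y e => (rs_apply (e.mono hsub)).symm⟩
    have e2 := Triv_upc ha' hsub
    have hmi : mi (tw K (n + k)).G (miN K n B k) ⊆ mi (tw K (n + k)).G (miN K n A k) :=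
      mi_mono hsub
    have e3 : ∀ s t : Cq (tw K (n + k)).G,
        EIn (sd (tw K (n + k)).G) (mi (tw K (n + k)).G (miN K n B k)) s t →
        upc (tw K (n + k)).G (miN K n A k) a' s t = pbk (W := Cq (tw K (n + k)).G) q a s t := by
      intro s t e
      exact upc_eq h0 (fun x y e => rs_apply e) (e.mono hmi)
    have e4 : Triv (sd (tw K (n + k)).G) (mi (tw K (n + k)).G (miN K n B k))
        (upc (tw K (n + k)).G (miN K n A k) a') ↔
        Triv (sd (tw K (n + k)).G) (mi (tw K (n + k)).G (miN K n B k))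
          (pbk (W := Cq (tw K (n + k)).G) q a) :=
      ⟨fun t => t.congr e3, fun t => t.congr fun s t e => (e3 s t e).symm⟩
    have e5 : Triv (tw K (n + (k + 1))).G (miN K n A (k + 1)) (pbk p a + pbk q a) :=
      choice_contig hp hq ha
    have e6 : Triv (tw K (n + (k + 1))).G (miN K n B (k + 1)) (pbk p a + pbk q a) :=
      e5.mono hmi
    rw [Triv_swap e6]
    exact (e4.symm.trans (e2.trans e1)).trans ihc

theorem lift_choice {p : (tw K (n + k)).V → (tw K n).V} (hp : ∀ x, p x ∈ car K n k x)
    {A : Set (tw K n).V} {b : (tw K (n + k)).V → (tw K (n + k)).V → ZMod 2}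
    (hb : b ∈ Z1 (tw K (n + k)).G (miN K n A k)) :
    ∃ a ∈ Z1 (tw K n).G A, Triv (tw K (n + k)).G (miN K n A k) (b + pbk p a) := by
  induction k with
  | zero =>
    have hpx : p = id := funext fun x => hp x
    refine ⟨b, hb, 0, fun x y _ => ?_⟩
    rw [hpx]
    exact (two_add (b x y)).trans (two_add 0).symm
  | succ k ih =>
    have hch : ∀ x, ch K n k x ∈ car K n k x := ch_mem
    let q : (tw K (n + (k + 1))).V → (tw K n).V :=
      fun s => ch K n k (pk (G := (tw K (n + k)).G) s)
    have hq : ∀ s : (tw K (n + (k + 1))).V, q s ∈ car K n (k + 1) s := fun s =>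
      ⟨pk (G := (tw K (n + k)).G) s, pk_mem (G := (tw K (n + k)).G) s, hch _⟩
    have hb' : b ∈ Z1 (sd (tw K (n + k)).G) (mi (tw K (n + k)).G (miN K n A k)) := hb
    have hd := dnc_mem hb'
    obtain ⟨a, ha, t⟩ := ih (p := ch K n k) hch hd
    refine ⟨a, ha, ?_⟩
    let a' := rs (tw K (n + k)).G (miN K n A k) (pbk (ch K n k) a)
    have ha' : a' ∈ Z1 (tw K (n + k)).G (miN K n A k) :=
      pbk_mem ha (fun x y hxy _ _ => choice_nr hch x y hxy) (fun x hx => mem_miN.1 hx (hch x))
    have h0 : ∀ x, pbk (ch K n k) a x x = 0 := fun x => z1_diag ha _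
    let d := dnc (tw K (n + k)).G (miN K n A k) b
    have hs : d + a' ∈ Z1 (tw K (n + k)).G (miN K n A k) := Submodule.add_mem _ hd ha'
    have t1 : Triv (tw K (n + k)).G (miN K n A k) (d + a') :=
      t.congr fun x y e => by
        show d x y + pbk (ch K n k) a x y = d x y + a' x y
        rw [show a' x y = pbk (ch K n k) a x y from rs_apply e]
    have t2 := (Triv_upc hs subset_rfl).2 t1
    have t3 := upc_dnc hb'
    have t4 : Triv (tw K (n + (k + 1))).G (miN K n A (k + 1)) (pbk q a + pbk p a) :=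
      choice_contig hq hp ha
    let p' : Cq (tw K (n + k)).G → (tw K n).V := p
    let q' : Cq (tw K (n + k)).G → (tw K n).V := q
    have t4' : Triv (sd (tw K (n + k)).G) (mi (tw K (n + k)).G (miN K n A k))
      (pbk q' a + pbk p' a) := t4
    have t5 := (t2.add t3).add t4'
    let b' : Cq (tw K (n + k)).G → Cq (tw K (n + k)).G → ZMod 2 := b
    have t6 : Triv (sd (tw K (n + k)).G) (mi (tw K (n + k)).G (miN K n A k))
        (b' + pbk p' a) := by
      refine t5.congr fun s t e => ?_
      have u1 : upc (tw K (n + k)).G (miN K n A k) a' s t = pbk q' a s t :=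
        upc_eq h0 (fun x y e => rs_apply e) e
      have u2 : upc (tw K (n + k)).G (miN K n A k) (d + a') s t =
          upc (tw K (n + k)).G (miN K n A k) d s t +
            upc (tw K (n + k)).G (miN K n A k) a' s t := by
        unfold upc
        rw [if_pos e, if_pos e, if_pos e]
        by_cases h : pk s = pk t
        · rw [if_pos h, if_pos h, if_pos h, add_zero]
        · rw [if_neg h, if_neg h, if_neg h]
          rfl
      show upc (tw K (n + k)).G (miN K n A k) (d + a') s t +
        (upc (tw K (n + k)).G (miN K n A k) d s t + b' s t) + (pbk q' a s t + pbk p' a s t) =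
          b' s t + pbk p' a s t
      rw [u2, u1]
      linear_combination two_add (upc (tw K (n + k)).G (miN K n A k) d s t) +
        two_add (pbk q' a s t)
    exact t6

theorem miN_Conn {A : Set (tw K n).V} :
    Conn (tw K (n + k)).G (miN K n A k) ↔ Conn (tw K n).G A := by
  induction k with
  | zero => exact Iff.rfl
  | succ k ih => exact (sd_Conn (G := (tw K (n + k)).G) (A := miN K n A k)).trans ih

theorem plN_Conn {A : Set (tw K n).V} :
    Conn (tw K (n + k)).G (plN K n A k) ↔ Conn (tw K n).G A := by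
  induction k with
  | zero => exact Iff.rfl
  | succ k ih =>
    exact (bt_Conn (G := (tw K (n + k)).G) (M := plN K n A k) mi_sub_pl subset_rfl).trans ih

theorem miN_HZ {A : Set (tw K n).V} : HZ (tw K (n + k)).G (miN K n A k) ↔ HZ (tw K n).G A := by
  induction k with
  | zero => exact Iff.rfl
  | succ k ih => exact (sd_HZ (G := (tw K (n + k)).G) (A := miN K n A k)).trans ih

theorem plN_HZ {A : Set (tw K n).V} : HZ (tw K (n + k)).G (plN K n A k) ↔ HZ (tw K n).G A := by
  induction k with
  | zero => exact Iff.rfl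
  | succ k ih =>
    exact (bt_HZ (G := (tw K (n + k)).G) (M := plN K n A k) mi_sub_pl subset_rfl).trans ih

theorem miN_bb {A : Set (tw K n).V} : bb (tw K (n + k)).G (miN K n A k) = bb (tw K n).G A := by
  induction k with
  | zero => rfl
  | succ k ih =>
    exact (bt_bb (G := (tw K (n + k)).G) (M := miN K n A k) subset_rfl mi_sub_pl).trans ih

theorem plN_bb {A : Set (tw K n).V} : bb (tw K (n + k)).G (plN K n A k) = bb (tw K n).G A := by
  induction k with
  | zero => rfl
  | succ k ih =>
    exact (bt_bb (G := (tw K (n + k)).G) (M := plN K n A k) mi_sub_pl subset_rfl).trans ih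

end MOT
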