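import Pool.Agent.MOT.Pat
import Pool.Agent.MOT.Sph

/-!
# MOT: RANGE block I: simplices with given colours (helper23)

`XX G κ A` = simplices whose colours contain `A`.  `bdX G κ A` = those with one more colour.
All statements are elementary: a simplex `s ∈ XX G κ A` has for every colour in `A` a vertex of this
colour, so `A.ncard ≤ s.card`, and if equality holds then `κ` is a bijection `s → A`, so `s` has no
other colour.  `A` is finite when `XX G κ A` is nonempty.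
`xx_four`: `IsSph3.k5` bounds the number of vertices by 4.
-/

open Classical

noncomputable section

namespace MOT

variable {V C : Type} {G : SimpleGraph V} {κ : V → C} {A : Set C}

/-- simplices of `XX G κ A` with one more colour -/
def bdX (G : SimpleGraph V) (κ : V → C) (A : Set C) : Set (Cq G) :=
  {s | s ∈ XX G κ A ∧ ∃ b, b ∉ A ∧ ∃ x ∈ s.1, κ x = b}

theorem xx_up {s t : Cq G} (h : s ∈ XX G κ A) (hst : s ≤ t) : t ∈ XX G κ A := by
  intro a ha
  obtain ⟨x, hx, e⟩ := h a ha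
  exact ⟨x, hst hx, e⟩

theorem bdX_up {s t : Cq G} (h : s ∈ bdX G κ A) (hst : s ≤ t) : t ∈ bdX G κ A := by
  obtain ⟨h1, b, hb, x, hx, e⟩ := h
  exact ⟨xx_up h1 hst, b, hb, x, hst hx, e⟩

private theorem xx_sub {s : Cq G} (h : s ∈ XX G κ A) : A ⊆ κ '' (s.1 : Set V) := by
  intro a ha
  obtain ⟨x, hx, e⟩ := h a ha
  exact ⟨x, Finset.mem_coe.2 hx, e⟩

private theorem xx_img (κ : V → C) (s : Cq G) :
    (κ '' (s.1 : Set V)).Finite ∧ (κ '' (s.1 : Set V)).ncard ≤ s.1.card :=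
  ⟨(Finset.finite_toSet _).image _,
    (Set.ncard_image_le (Finset.finite_toSet _)).trans (Set.ncard_coe_finset _).le⟩

theorem xx_ncard {s : Cq G} (h : s ∈ XX G κ A) : A.Finite ∧ A.ncard ≤ s.1.card := by
  obtain ⟨h1, h2⟩ := xx_img κ s
  exact ⟨h1.subset (xx_sub h), (Set.ncard_le_ncard (xx_sub h) h1).trans h2⟩

theorem xx_bij {s : Cq G} (h : s ∈ XX G κ A) (hc : s.1.card = A.ncard) :
    (∀ x ∈ s.1, κ x ∈ A) ∧ ∀ x ∈ s.1, ∀ y ∈ s.1, κ x = κ y → x = y := by
  obtain ⟨h1, h2⟩ := xx_img κ s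
  have h3 : A = κ '' (s.1 : Set V) :=
    Set.eq_of_subset_of_ncard_le (xx_sub h) (by rw [← hc]; exact h2) h1
  refine ⟨fun x hx => ?_, ?_⟩
  · rw [h3]
    exact ⟨x, Finset.mem_coe.2 hx, rfl⟩
  · have h4 : (κ '' (s.1 : Set V)).ncard = (s.1 : Set V).ncard := by
      rw [← h3, ← hc, Set.ncard_coe_finset]
    have h5 := (Set.ncard_image_iff (Finset.finite_toSet s.1)).1 h4
    exact fun x hx y hy e => h5 (Finset.mem_coe.2 hx) (Finset.mem_coe.2 hy) e

theorem bdX_eq : bdX G κ A = {s | ∃ b, b ∉ A ∧ s ∈ XX G κ (insert b A)} := by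
  ext s
  constructor
  · rintro ⟨h1, b, hb, hx⟩
    refine ⟨b, hb, fun a ha => ?_⟩
    rcases Set.mem_insert_iff.1 ha with rfl | ha
    · exact hx
    · exact h1 a ha
  · rintro ⟨b, hb, h⟩
    exact ⟨fun a ha => h a (Set.mem_insert_of_mem _ ha), b, hb, h b (Set.mem_insert _ _)⟩

theorem bdX_ncard {s : Cq G} (h : s ∈ bdX G κ A) : A.ncard + 1 ≤ s.1.card := by
  have h' := h
  rw [bdX_eq] at h'
  obtain ⟨b, hb, hs⟩ := h'
  have h2 := (xx_ncard hs).2
  rwa [Set.ncard_insert_of_notMem hb (xx_ncard h.1).1] at h2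

/-- four colours: one simplex -/
theorem xx_four (hG : IsSph3 G) (hp : PatJ G κ) (hA : A.ncard = 4)
    (hne : (XX G κ A).Nonempty) : ∃ t : Cq G, t.1.card = 4 ∧ XX G κ A = {t} ∧ bdX G κ A = ∅ := by
  have hc : ∀ s ∈ XX G κ A, s.1.card = 4 := by
    intro s hs
    have h1 := (xx_ncard hs).2
    have h2 := hG.k5 s.1 s.2.2
    omega
  have hAne : A.Nonempty := by
    rw [Set.nonempty_iff_ne_empty]
    rintro rfl
    rw [Set.ncard_empty] at hA
    omega
  have hne' := hne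
  obtain ⟨t, ht⟩ := hne'
  have hno : ∀ s ∈ XX G κ A, ∀ u ∈ XX G κ A, ¬ s < u := by
    intro s hs u hu h
    have h1 := Finset.card_lt_card (Cq.lt_iff.1 h)
    rw [hc s hs, hc u hu] at h1
    exact lt_irrefl _ h1
  refine ⟨t, hc t ht, ?_, ?_⟩
  · refine Set.eq_singleton_iff_unique_mem.2 ⟨ht, fun s hs => ?_⟩
    have h1 := (hp A hAne hne).1.2 t ht s hs
    rcases Relation.ReflTransGen.cases_tail h1 with h2 | ⟨u, _, h3⟩
    · exact h2
    · rcases h3.1 with h4 | h4
      · exact absurd h4 (hno _ h3.2.1 _ h3.2.2)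
      · exact absurd h4 (hno _ h3.2.2 _ h3.2.1)
  · refine Set.eq_empty_of_forall_notMem fun s hs => ?_
    have h1 := bdX_ncard hs
    have h2 := hG.k5 s.1 s.2.2
    omega

theorem xx_five (hG : IsSph3 G) (hA : A.Finite) (h5 : 5 ≤ A.ncard) : XX G κ A = ∅ := by
  refine Set.eq_empty_of_forall_notMem fun s hs => ?_
  have h1 := (xx_ncard hs).2
  have h2 := hG.k5 s.1 s.2.2
  omega

end MOT
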