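import Pool.Agent.MOT.XsA
import Pool.Agent.MOT.TgPth

/-!
# MOT: RANGE block II: three colours, arcs (helper23)

`A.ncard = 3`.  The members of `XX G κ A` have 3 or 4 vertices (`xx_ncard`, `IsSph3.k5`), and adjacent members
are `s < t` with `s.card = 3`, `t.card = 4`; so there are no three pairwise adjacent members.
`xs3_tri`: all simplices above `s` are in `XX` (`xx_up`), there are exactly two of them (`above_two`), and
nothing in `XX` is below `s`.
`xs3_tet`: `t.card = 4`: the members of `XX` below `t` are the triangles `t \ {x}` which have all colours of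
`A`.  If `t ∈ bdX`: the vertex `x` with a colour not in `A` is unique and the other three have the three
colours of `A`: exactly one triangle, `t \ {x}`.  If `t ∉ bdX`: all four vertices have colours in `A`, exactly one colour
occurs twice, at `x`, `y`: exactly the two triangles `t \ {x}`, `t \ {y}`.
`no_cyc`: a connected graph `X` without triangles, with `H^1 = 0`, cannot have all degrees 2.  Take an
edge `x0 y0` of `X`, `a = 1` on it and `0` on the other edges: a cocycle (no triangles), so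
`a x y = f x + f y`.  Let `P = {x ∈ X | f x = f x0}`; it does not contain `y0`, and `x0 y0` is the only edge
between `P` and `X \ P`.  Sum of the degrees of the vertices of `P`: `2 |P|` on one hand, and `2 #(edges
inside P) + 1` on the other hand: contradiction.
`xx_three`: degrees are 1 or 2, not all 2 by `no_cyc`; `pth_of_deg`.  The ends: in the path `p 0 .. p n` the
vertices `p i` with `0 < i < n` have degree 2, `p 0` and `p n` have degree 1 (`Pth.adj`), and degree 1 means `bdX`.
`p 0` has 4 vertices, so does `p n`; neighbours alternate.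
-/

open Classical

noncomputable section

namespace MOT

variable {V C : Type} {G : SimpleGraph V} {κ : V → C} {A : Set C}

private theorem xb_lt {s t : Cq G} (h : s < t) : s.1.card < t.1.card :=
  Finset.card_lt_card (Cq.lt_iff.1 h)

/-- a face with one vertex less -/
private theorem xb_erase {t : Cq G} (h4 : t.1.card = 4) {x : V} (hx : x ∈ t.1) :
    ∃ s : Cq G, s.1 = t.1.erase x ∧ s < t ∧ s.1.card = 3 := by
  have hc : (t.1.erase x).card = 3 := by rw [Finset.card_erase_of_mem hx, h4]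
  let s : Cq G := ⟨t.1.erase x, Finset.card_pos.1 (by omega), fun a ha b hb hab =>
    t.2.2 (Finset.mem_coe.2 (Finset.mem_of_mem_erase (Finset.mem_coe.1 ha)))
      (Finset.mem_coe.2 (Finset.mem_of_mem_erase (Finset.mem_coe.1 hb))) hab⟩
  exact ⟨s, rfl, Cq.lt_iff.2 (Finset.erase_ssubset hx), hc⟩

private theorem xb_of_lt {s t : Cq G} (h : s < t) (h3 : s.1.card = 3) (h4 : t.1.card = 4) :
    ∃ x ∈ t.1, s.1 = t.1.erase x := by
  have h1 := Cq.lt_iff.1 h
  obtain ⟨x, hx, hxs⟩ := Finset.exists_of_ssubset h1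
  refine ⟨x, hx, Finset.eq_of_subset_of_card_le ?_ ?_⟩
  · intro y hy
    exact Finset.mem_erase.2 ⟨fun e => hxs (by rw [← e]; exact hy), h1.1 hy⟩
  · rw [Finset.card_erase_of_mem hx, h4, h3]

/-- the neighbours of a tetrahedron in `XX` -/
private theorem xb_adj (hG : IsSph3 G) (hA : A.ncard = 3) {t s : Cq G} (h4 : t.1.card = 4) :
    ((sd G).Adj t s ∧ s ∈ XX G κ A) ↔ (s < t ∧ s.1.card = 3 ∧ s ∈ XX G κ A) := by
  constructor
  · rintro ⟨h1, h2⟩
    have h3 := (xx_ncard h2).2
    rcases h1 with h1 | h1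
    · have h5 := xb_lt h1
      have h6 := hG.k5 s.1 s.2.2
      omega
    · have h5 := xb_lt h1
      exact ⟨h1, by omega, h2⟩
  · rintro ⟨h1, _, h3⟩
    exact ⟨Or.inr h1, h3⟩

theorem xs3_tri [Finite V] (hG : IsSph3 G) (hA : A.ncard = 3) {s : Cq G} (hs : s ∈ XX G κ A)
    (h3 : s.1.card = 3) : {t | (sd G).Adj s t ∧ t ∈ XX G κ A}.ncard = 2 := by
  have e : {t | (sd G).Adj s t ∧ t ∈ XX G κ A} = {t : Cq G | s < t} := by
    ext t
    constructor
    · rintro ⟨h1, h2⟩
      rcases h1 with h1 | h1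
      · exact h1
      · have h4 := xb_lt h1
        have h5 := (xx_ncard h2).2
        omega
    · intro h1
      have h1' : s < t := h1
      exact ⟨Or.inl h1', xx_up hs h1'.le⟩
  rw [e]
  exact (above_two hG s h3).1

theorem xs3_tet [Finite V] (hG : IsSph3 G) (hA : A.ncard = 3) {t : Cq G} (ht : t ∈ XX G κ A)
    (h4 : t.1.card = 4) : {s | (sd G).Adj t s ∧ s ∈ XX G κ A}.ncard =
      if t ∈ bdX G κ A then 1 else 2 := by
  have e : {s | (sd G).Adj t s ∧ s ∈ XX G κ A} =
      {s : Cq G | s < t ∧ s.1.card = 3 ∧ s ∈ XX G κ A} := by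
    ext s
    exact xb_adj hG hA h4
  rw [e]
  split_ifs with hb
  · obtain ⟨_, b, hbA, x, hx, hxb⟩ := hb
    obtain ⟨s, hs, hst, hs3⟩ := xb_erase h4 hx
    rw [Set.ncard_eq_one]
    refine ⟨s, Set.eq_singleton_iff_unique_mem.2 ⟨⟨hst, hs3, ?_⟩, ?_⟩⟩
    · intro a ha
      obtain ⟨y, hy, hya⟩ := ht a ha
      refine ⟨y, ?_, hya⟩
      rw [hs]
      refine Finset.mem_erase.2 ⟨?_, hy⟩
      rintro rfl
      exact hbA (by rw [← hxb, hya]; exact ha)
    · rintro s' ⟨h1, h2, h3⟩
      obtain ⟨y, hy, hsy⟩ := xb_of_lt h1 h2 h4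
      have hyx : y = x := by
        by_contra hne
        have h5 : x ∈ s'.1 := by
          rw [hsy]
          exact Finset.mem_erase.2 ⟨fun h => hne h.symm, hx⟩
        have h6 := (xx_bij h3 (by rw [h2, hA])).1 x h5
        exact hbA (by rw [← hxb]; exact h6)
      apply Subtype.ext
      rw [hsy, hs, hyx]
  · have hall : ∀ x ∈ t.1, κ x ∈ A := by
      intro x hx
      by_contra h
      exact hb ⟨ht, κ x, h, x, hx, rfl⟩
    have hAf : A.Finite := (xx_ncard ht).1
    obtain ⟨x, hx, y, hy, hxy, hk⟩ : ∃ x ∈ t.1, ∃ y ∈ t.1, x ≠ y ∧ κ x = κ y := by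
      have h1 : (hAf.toFinset).card < t.1.card := by
        rw [← Set.ncard_eq_toFinset_card A hAf, hA, h4]
        norm_num
      exact Finset.exists_ne_map_eq_of_card_lt_of_maps_to h1
        (fun x hx => (Set.Finite.mem_toFinset hAf).2 (hall x hx))
    obtain ⟨s, hs, hst, hs3⟩ := xb_erase h4 hx
    obtain ⟨s', hs', hst', hs3'⟩ := xb_erase h4 hy
    rw [Set.ncard_eq_two]
    refine ⟨s, s', ?_, ?_⟩
    · intro h
      have h1 : x ∈ s'.1 := by
        rw [hs']
        exact Finset.mem_erase.2 ⟨hxy, hx⟩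
      rw [← h, hs] at h1
      exact Finset.notMem_erase x _ h1
    · ext r
      constructor
      · rintro ⟨h1, h2, h3⟩
        obtain ⟨z, hz, hrz⟩ := xb_of_lt h1 h2 h4
        by_cases hzx : z = x
        · left
          apply Subtype.ext
          rw [hrz, hs, hzx]
        by_cases hzy : z = y
        · right
          apply Subtype.ext
          rw [hrz, hs', hzy]
        exfalso
        refine hxy ((xx_bij h3 (by rw [h2, hA])).2 x ?_ y ?_ hk)
        · rw [hrz]
          exact Finset.mem_erase.2 ⟨fun h => hzx h.symm, hx⟩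
        · rw [hrz]
          exact Finset.mem_erase.2 ⟨fun h => hzy h.symm, hy⟩
      · rintro (h | h)
        · rw [h]
          refine ⟨hst, hs3, fun a ha => ?_⟩
          obtain ⟨z, hz, hza⟩ := ht a ha
          rw [hs]
          by_cases hzx : z = x
          · exact ⟨y, Finset.mem_erase.2 ⟨fun h => hxy h.symm, hy⟩, by rw [← hk, ← hzx, hza]⟩
          · exact ⟨z, Finset.mem_erase.2 ⟨hzx, hz⟩, hza⟩
        · have h' : r = s' := h
          rw [h']
          refine ⟨hst', hs3', fun a ha => ?_⟩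
          obtain ⟨z, hz, hza⟩ := ht a ha
          rw [hs']
          by_cases hzy : z = y
          · exact ⟨x, Finset.mem_erase.2 ⟨hxy, hx⟩, by rw [hk, ← hzy, hza]⟩
          · exact ⟨z, Finset.mem_erase.2 ⟨hzy, hz⟩, hza⟩

theorem no_cyc {W : Type} [Finite W] {H : SimpleGraph W} {X : Set W} (hc : Conn H X)
    (hz : HZ H X) (h3 : ∀ x y z, EIn H X x y → EIn H X y z → EIn H X x z → False)
    (hd : ∀ x ∈ X, {y | H.Adj x y ∧ y ∈ X}.ncard = 2) : False := by
  obtain ⟨x0, hx0⟩ := hc.1
  obtain ⟨y0, y1, hy01, hy⟩ := Set.ncard_eq_two.1 (hd x0 hx0)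
  have hy0 : H.Adj x0 y0 ∧ y0 ∈ X := by
    have h : y0 ∈ {y | H.Adj x0 y ∧ y ∈ X} := by rw [hy]; exact Or.inl rfl
    exact h
  have hne : x0 ≠ y0 := hy0.1.ne
  obtain ⟨a, ha⟩ : ∃ a : W → W → ZMod 2, a = fun x y =>
    if (x = x0 ∧ y = y0) ∨ (x = y0 ∧ y = x0) then 1 else 0 := ⟨_, rfl⟩
  have haZ : a ∈ Z1 H X := by
    refine mem_Z1.2 ⟨?_, ?_, ?_⟩
    · intro x y hxy
      rw [ha]
      simp only
      rw [if_neg]
      rintro (⟨rfl, rfl⟩ | ⟨rfl, rfl⟩)
      · exact hxy ⟨hy0.1, hx0, hy0.2⟩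
      · exact hxy ⟨hy0.1.symm, hy0.2, hx0⟩
    · intro x y
      rw [ha]
      simp only
      congr 1
      apply propext
      constructor
      · rintro (⟨h1, h2⟩ | ⟨h1, h2⟩)
        · exact Or.inr ⟨h2, h1⟩
        · exact Or.inl ⟨h2, h1⟩
      · rintro (⟨h1, h2⟩ | ⟨h1, h2⟩)
        · exact Or.inr ⟨h2, h1⟩
        · exact Or.inl ⟨h2, h1⟩
    · intro x y z h1 h2 h4
      exact absurd h4 (fun h => h3 x y z h1 h2 h)
  obtain ⟨f, hf⟩ := hz a haZ
  have hf0 : f x0 ≠ f y0 := by
    intro h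
    have h1 := hf x0 y0 ⟨hy0.1, hx0, hy0.2⟩
    rw [ha, h, two_add] at h1
    simp at h1
  have hfe : ∀ x y, EIn H X x y → ¬ ((x = x0 ∧ y = y0) ∨ (x = y0 ∧ y = x0)) → f x = f y := by
    intro x y e h
    have h1 := hf x y e
    rw [ha] at h1
    simp only at h1
    rw [if_neg h] at h1
    exact (z2_eq _ _).1 h1.symm
  have : Fintype W := Fintype.ofFinite W
  let H' : SimpleGraph W :=
    { Adj := fun x y => H.Adj x y ∧ (x ∈ X ∧ f x = f x0) ∧ (y ∈ X ∧ f y = f x0)
      symm := ⟨fun x y h => ⟨h.1.symm, h.2.2, h.2.1⟩⟩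
      loopless := ⟨fun x h => h.1.ne rfl⟩ }
  have hdeg : ∀ x, H'.degree x = {y | H'.Adj x y}.ncard := by
    intro x
    rw [← SimpleGraph.card_neighborSet_eq_degree, ← Nat.card_eq_fintype_card]
    rfl
  have hodd : ∀ x, Odd (H'.degree x) ↔ x = x0 := by
    intro x
    rw [hdeg]
    constructor
    · intro ho
      by_contra hxx
      by_cases hxP : x ∈ X ∧ f x = f x0
      · have e : {y | H'.Adj x y} = {y | H.Adj x y ∧ y ∈ X} := by
          ext y
          constructor
          · rintro ⟨h1, _, h2⟩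
            exact ⟨h1, h2.1⟩
          · rintro ⟨h1, h2⟩
            refine ⟨h1, hxP, h2, ?_⟩
            rw [← hfe x y ⟨h1, hxP.1, h2⟩ ?_]
            · exact hxP.2
            · rintro (⟨h4, _⟩ | ⟨h4, _⟩)
              · exact hxx h4
              · rw [h4] at hxP
                exact hf0 hxP.2.symm
        rw [e, hd x hxP.1] at ho
        exact (by decide : ¬ Odd 2) ho
      · have e : {y | H'.Adj x y} = ∅ := by
          refine Set.eq_empty_of_forall_notMem fun y h => hxP h.2.1
        rw [e, Set.ncard_empty] at ho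
        exact (by decide : ¬ Odd 0) ho
    · rintro rfl
      have e : {y | H'.Adj x y} = {y1} := by
        ext y
        constructor
        · rintro ⟨h1, _, h2⟩
          have h4 : y ∈ ({y0, y1} : Set W) := by rw [← hy]; exact ⟨h1, h2.1⟩
          rcases h4 with h4 | h4
          · rw [h4] at h2
            exact absurd h2.2.symm hf0
          · exact h4
        · rintro rfl
          have h4 : y ∈ {y | H.Adj x y ∧ y ∈ X} := by rw [hy]; exact Or.inr rfl
          refine ⟨h4.1, ⟨hx0, rfl⟩, h4.2, ?_⟩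
          refine (hfe x y ⟨h4.1, hx0, h4.2⟩ ?_).symm
          rintro (⟨_, h5⟩ | ⟨h5, _⟩)
          · exact hy01 h5.symm
          · exact hne h5
      rw [e, Set.ncard_singleton]
      exact odd_one
  have hev := H'.even_card_odd_degree_vertices
  have e : (Finset.univ.filter fun v => Odd (H'.degree v)) = {x0} := by
    ext x
    simp only [Finset.mem_filter, Finset.mem_univ, true_and, Finset.mem_singleton]
    exact hodd x
  rw [e, Finset.card_singleton] at hev
  exact (by decide : ¬ Even 1) hev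

theorem xx_three [Finite V] (hG : IsSph3 G) (hp : PatJ G κ) (hA : A.ncard = 3)
    (hne : (XX G κ A).Nonempty) : ∃ (n : ℕ) (p : ℕ → Cq G), 1 < n ∧
      Pth (sd G) (XX G κ A) n p ∧ bdX G κ A = {p 0, p n} ∧ (p 0).1.card = 4 ∧
      (p n).1.card = 4 := by
  have hAne : A.Nonempty := by
    rw [Set.nonempty_iff_ne_empty]
    rintro rfl
    rw [Set.ncard_empty] at hA
    omega
  obtain ⟨hc, hz⟩ := hp A hAne hne
  have hcard : ∀ s ∈ XX G κ A, s.1.card = 3 ∨ s.1.card = 4 := by
    intro s hs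
    have h1 := (xx_ncard hs).2
    have h2 := hG.k5 s.1 s.2.2
    omega
  have hEc : ∀ s t, EIn (sd G) (XX G κ A) s t → s.1.card ≠ t.1.card := by
    intro s t h
    rcases h.1 with h1 | h1
    · exact (xb_lt h1).ne
    · exact (xb_lt h1).ne'
  have hnotri : ∀ x y z, EIn (sd G) (XX G κ A) x y → EIn (sd G) (XX G κ A) y z →
      EIn (sd G) (XX G κ A) x z → False := by
    intro x y z h1 h2 h3
    have e1 := hEc x y h1
    have e2 := hEc y z h2
    have e3 := hEc x z h3
    have c1 := hcard x h1.2.1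
    have c2 := hcard y h2.2.1
    have c3 := hcard z h2.2.2
    omega
  have hdeg : ∀ x ∈ XX G κ A, {y | (sd G).Adj x y ∧ y ∈ XX G κ A}.ncard ≤ 2 ∧
      ({y | (sd G).Adj x y ∧ y ∈ XX G κ A}.ncard ≠ 2 → x ∈ bdX G κ A ∧ x.1.card = 4) ∧
      (x ∈ bdX G κ A → {y | (sd G).Adj x y ∧ y ∈ XX G κ A}.ncard = 1) := by
    intro x hx
    rcases hcard x hx with h3 | h4
    · have h5 := xs3_tri hG hA hx h3
      rw [h5]
      refine ⟨le_rfl, fun h => absurd rfl h, fun h => ?_⟩
      have h6 := bdX_ncard h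
      omega
    · have h5 := xs3_tet hG hA hx h4
      rw [h5]
      split_ifs with hb
      · exact ⟨by norm_num, fun _ => ⟨hb, h4⟩, fun _ => rfl⟩
      · exact ⟨le_rfl, fun h => absurd rfl h, fun h => absurd h hb⟩
  obtain ⟨x0, hx0, hx0d⟩ : ∃ x ∈ XX G κ A, {y | (sd G).Adj x y ∧ y ∈ XX G κ A}.ncard ≠ 2 := by
    by_contra hcon
    refine no_cyc hc hz hnotri fun x hx => ?_
    by_contra h
    exact hcon ⟨x, hx, h⟩
  have hx0b := (hdeg x0 hx0).2.1 hx0d
  have hx01 := (hdeg x0 hx0).2.2 hx0b.1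
  obtain ⟨n, p, hn, hP, hp0⟩ := pth_of_deg hc hx0 hx01 (fun x hx => (hdeg x hx).1)
  have hn1 : 1 < n := by
    by_contra hcon
    have h1 : n = 1 := by omega
    subst h1
    have h2 : (sd G).Adj (p 0) (p 1) := (hP.adj 0 (by omega) 1 (by omega)).2 (Or.inr rfl)
    have h3 := hEc (p 0) (p 1) ⟨h2, hP.mem 0 (by omega), hP.mem 1 (by omega)⟩
    have h4 := hcard (p 1) (hP.mem 1 (by omega))
    rw [hp0, hx0b.2] at h3
    have h5 := xs3_tri hG hA (hP.mem 1 (by omega)) (by omega)
    have e : {y | (sd G).Adj (p 1) y ∧ y ∈ XX G κ A} = {p 0} := by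
      ext y
      constructor
      · rintro ⟨h6, h7⟩
        obtain ⟨j, hj, rfl⟩ := hP.sur y h7
        have h8 := (hP.adj 1 le_rfl j hj).1 h6
        have h9 : j = 0 := by omega
        rw [h9]
        exact rfl
      · intro h6
        rw [Set.mem_singleton_iff.1 h6]
        exact ⟨h2.symm, hP.mem 0 (by omega)⟩
    rw [e, Set.ncard_singleton] at h5
    omega
  have hend : {y | (sd G).Adj (p n) y ∧ y ∈ XX G κ A} = {p (n - 1)} := by
    ext y
    constructor
    · rintro ⟨h6, h7⟩
      obtain ⟨j, hj, rfl⟩ := hP.sur y h7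
      have h8 := (hP.adj n le_rfl j hj).1 h6
      have h9 : j = n - 1 := by omega
      rw [h9]
      exact rfl
    · intro h6
      rw [Set.mem_singleton_iff.1 h6]
      exact ⟨(hP.adj n le_rfl (n - 1) (by omega)).2 (by omega), hP.mem _ (by omega)⟩
  have hpn := (hdeg (p n) (hP.mem n le_rfl)).2.1 (by
    rw [hend, Set.ncard_singleton]
    norm_num)
  have hmid : ∀ i, 0 < i → i < n → p i ∉ bdX G κ A := by
    intro i hi hin hb
    have h1 := (hdeg (p i) (hP.mem i hin.le)).2.2 hb
    obtain ⟨z, hz'⟩ := Set.ncard_eq_one.1 h1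
    have e1 : p (i - 1) ∈ ({z} : Set (Cq G)) := by
      rw [← hz']
      exact ⟨(hP.adj i hin.le (i - 1) (by omega)).2 (by omega), hP.mem _ (by omega)⟩
    have e2 : p (i + 1) ∈ ({z} : Set (Cq G)) := by
      rw [← hz']
      exact ⟨(hP.adj i hin.le (i + 1) (by omega)).2 (by omega), hP.mem _ (by omega)⟩
    rw [Set.mem_singleton_iff] at e1 e2
    have := hP.inj (i - 1) (by omega) (i + 1) (by omega) (e1.trans e2.symm)
    omega
  refine ⟨n, p, hn1, hP, ?_, by rw [hp0]; exact hx0b.2, hpn.2⟩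
  ext s
  constructor
  · intro hs
    obtain ⟨i, hi, rfl⟩ := hP.sur s hs.1
    by_cases h0 : i = 0
    · left; rw [h0]
    by_cases h1 : i = n
    · right; rw [h1]; exact rfl
    exact absurd hs (hmid i (by omega) (by omega))
  · rintro (h | h)
    · rw [h, hp0]
      exact hx0b.1
    · have h' : s = p n := h
      rw [h']
      exact hpn.1

end MOT
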