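import Pool.Agent.MOT.XsA

/-!
# MOT: RANGE block III: two colours, local structure (helper23)

`A.ncard = 2`, `A = {a, b}`.  Members of `XX` have 2, 3 or 4 vertices; a member with 2 vertices is not in `bdX`.
`xs2_edge`: `s < t` members of `XX`; the members comparable with both, different from both:
 `|s| = 2, |t| = 3`: the simplices above `t`: exactly two (`above_two`);
 `|s| = 2, |t| = 4`: the simplices between `s` and `t`: exactly two (`between_two`), all in `XX` (`xx_up`);
 `|s| = 3, |t| = 4`: nothing above `t` (`IsSph3.k5`), nothing between; below `s`: the 2-subsets of `s` with both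
  colours: if `s ∈ bdX` the three vertices have colours `a, b, c`: exactly one; otherwise the colours are
  `a, a, b` or `a, b, b`: exactly two.
`xs2_lk`: the members comparable with `s` form a connected graph:
 `|s| = 2`: the simplices above `s` (`above_cyc`, connected);
 `|s| = 3`: above: two tetrahedra; below: at least one 2-subset with both colours; every one below is
  adjacent to every one above;
 `|s| = 4`: the proper faces with both colours: `s` has vertices `x` of colour `a` and `y` of colour `b`; every face
  with both colours contains an edge `{x', y'}` with these colours; `{x', y'}` is connected with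
  `{x', y}` through `{x', y, y'}` and then with `{x, y}` through `{x, x', y}` (faces with three vertices,
  or equal).
-/

open Classical

noncomputable section

namespace MOT

variable {V C : Type} {G : SimpleGraph V} {κ : V → C} {A : Set C}

private theorem clt {s t : Cq G} (h : s < t) : s.1.card < t.1.card :=
  Finset.card_lt_card (Cq.lt_iff.1 h)

/-- the face `f` of `s` -/
private def sb (s : Cq G) (f : Finset V) : Cq G :=
  if h : f.Nonempty ∧ f ⊆ s.1 then
    ⟨f, h.1, fun _ ha _ hb hab =>
      s.2.2 (Finset.mem_coe.2 (h.2 (Finset.mem_coe.1 ha)))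
        (Finset.mem_coe.2 (h.2 (Finset.mem_coe.1 hb))) hab⟩
  else s

private theorem sb_val {s : Cq G} {f : Finset V} (h : f.Nonempty) (h' : f ⊆ s.1) :
    (sb s f).1 = f := by
  unfold sb
  rw [dif_pos ⟨h, h'⟩]

private theorem sb_lt {s : Cq G} {f : Finset V} (h : f.Nonempty) (h' : f ⊆ s.1)
    (hc : f.card < s.1.card) : sb s f < s := by
  rw [Cq.lt_iff, sb_val h h']
  exact ⟨h', fun k => absurd (Finset.card_le_card k) (not_le.2 hc)⟩

private theorem pair_sub' {x y : V} {b : Finset V} (hx : x ∈ b) (hy : y ∈ b) :
    ({x, y} : Finset V) ⊆ b := by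
  rw [Finset.insert_subset_iff, Finset.singleton_subset_iff]
  exact ⟨hx, hy⟩

private theorem xx_pair {r : Cq G} {a b : C} {x y : V} (hx : x ∈ r.1) (hxa : κ x = a)
    (hy : y ∈ r.1) (hyb : κ y = b) : r ∈ XX G κ {a, b} := by
  rintro c (rfl | hc)
  · exact ⟨x, hx, hxa⟩
  · rw [Set.mem_singleton_iff] at hc
    rw [hc]
    exact ⟨y, hy, hyb⟩

private theorem third {s : Finset V} (h : s.card = 3) {x y : V} (hx : x ∈ s) (hy : y ∈ s)
    (hxy : x ≠ y) : ∃ z ∈ s, z ≠ x ∧ z ≠ y ∧ s = {x, y, z} := by
  have h1 : ((s.erase x).erase y).card = 1 := by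
    rw [Finset.card_erase_of_mem (Finset.mem_erase.2 ⟨hxy.symm, hy⟩),
      Finset.card_erase_of_mem hx, h]
  obtain ⟨z, hz⟩ := Finset.card_eq_one.1 h1
  have hz' : z ∈ (s.erase x).erase y := by rw [hz]; exact Finset.mem_singleton_self z
  rw [Finset.mem_erase, Finset.mem_erase] at hz'
  refine ⟨z, hz'.2.2, hz'.2.1, hz'.1, ?_⟩
  symm
  refine Finset.eq_of_subset_of_card_le ?_ ?_
  · intro v hv
    rw [Finset.mem_insert, Finset.mem_insert, Finset.mem_singleton] at hv
    rcases hv with rfl | rfl | rfl
    · exact hx
    · exact hy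
    · exact hz'.2.2
  · rw [h, Finset.card_eq_three.2 ⟨x, y, z, hxy, Ne.symm hz'.2.1, Ne.symm hz'.1, rfl⟩]

private theorem two_count {s : Cq G} {a b : C} (hab : a ≠ b) (hA : A = {a, b})
    (h3 : s.1.card = 3) {p q w : V} (hp : p ∈ s.1) (hq : q ∈ s.1) (hw : w ∈ s.1) (hpq : p ≠ q)
    (hpw : p ≠ w) (hqw : q ≠ w) (hs : s.1 = {p, q, w}) (kp : κ p = a) (kq : κ q = a)
    (kw : κ w = b) : {r | r ∈ XX G κ A ∧ r < s}.ncard = 2 := by
  have he : {r | r ∈ XX G κ A ∧ r < s} = {sb s {p, w}, sb s {q, w}} := by
    ext r
    constructor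
    · rintro ⟨k1, k2⟩
      obtain ⟨x', hx', e1⟩ := k1 a (by rw [hA]; exact Set.mem_insert a _)
      obtain ⟨y', hy', e2⟩ := k1 b (by rw [hA]; exact Set.mem_insert_of_mem a rfl)
      have m1 := k2.le hx'
      have m2 := k2.le hy'
      rw [hs, Finset.mem_insert, Finset.mem_insert, Finset.mem_singleton] at m1 m2
      have f2 : y' = w := by
        rcases m2 with rfl | rfl | rfl
        · exact absurd (kp.symm.trans e2) hab
        · exact absurd (kq.symm.trans e2) hab
        · rfl
      rw [f2] at hy'
      have nb : ¬ (p ∈ r.1 ∧ q ∈ r.1) := by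
        rintro ⟨n1, n2⟩
        have f4 := clt k2
        have f5 : s.1 ⊆ r.1 := by
          rw [hs]
          intro v hv
          rw [Finset.mem_insert, Finset.mem_insert, Finset.mem_singleton] at hv
          rcases hv with rfl | rfl | rfl
          · exact n1
          · exact n2
          · exact hy'
        have f6 := Finset.card_le_card f5
        omega
      rcases m1 with rfl | rfl | rfl
      · refine Or.inl (Subtype.ext ?_)
        rw [sb_val (Finset.insert_nonempty _ _) (pair_sub' hp hw)]
        refine Finset.Subset.antisymm (fun v hv => ?_) (pair_sub' hx' hy')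
        have m3 := k2.le hv
        rw [hs, Finset.mem_insert, Finset.mem_insert, Finset.mem_singleton] at m3
        rw [Finset.mem_insert, Finset.mem_singleton]
        rcases m3 with rfl | rfl | rfl
        · exact Or.inl rfl
        · exact absurd ⟨hx', hv⟩ nb
        · exact Or.inr rfl
      · refine Or.inr (Set.mem_singleton_iff.2 (Subtype.ext ?_))
        rw [sb_val (Finset.insert_nonempty _ _) (pair_sub' hq hw)]
        refine Finset.Subset.antisymm (fun v hv => ?_) (pair_sub' hx' hy')
        have m3 := k2.le hv
        rw [hs, Finset.mem_insert, Finset.mem_insert, Finset.mem_singleton] at m3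
        rw [Finset.mem_insert, Finset.mem_singleton]
        rcases m3 with rfl | rfl | rfl
        · exact absurd ⟨hv, hx'⟩ nb
        · exact Or.inl rfl
        · exact Or.inr rfl
      · exact absurd (e1.symm.trans kw) hab
    · have key : ∀ u ∈ s.1, u ≠ w → κ u = a →
          sb s {u, w} ∈ {r | r ∈ XX G κ A ∧ r < s} := by
        intro u hu huw hua
        have hv := sb_val (Finset.insert_nonempty _ _) (pair_sub' hu hw)
        refine ⟨?_, sb_lt (Finset.insert_nonempty _ _) (pair_sub' hu hw)
            (by rw [Finset.card_pair huw]; omega)⟩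
        rw [hA]
        exact xx_pair (by rw [hv]; exact Finset.mem_insert_self _ _) hua
            (by rw [hv]; exact Finset.mem_insert_of_mem (Finset.mem_singleton_self _)) kw
      rintro (rfl | rfl)
      · exact key p hp hpw kp
      · exact key q hq hqw kq
  rw [he]
  refine Set.ncard_pair fun k => ?_
  have h1 : (sb s {p, w}).1 = (sb s {q, w}).1 := by rw [k]
  rw [sb_val (Finset.insert_nonempty _ _) (pair_sub' hp hw),
    sb_val (Finset.insert_nonempty _ _) (pair_sub' hq hw)] at h1
  have h2 : p ∈ ({q, w} : Finset V) := by rw [← h1]; exact Finset.mem_insert_self _ _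
  rw [Finset.mem_insert, Finset.mem_singleton] at h2
  rcases h2 with h2 | h2
  · exact hpq h2
  · exact hpw h2

private theorem le_path {S : Set (Cq G)} {r t : Cq G} (hr : r ∈ S) (ht : t ∈ S) (h : r ≤ t) :
    Relation.ReflTransGen (EIn (sd G) S) r t := by
  rcases h.eq_or_lt with h | h
  · rw [h]
  · exact Relation.ReflTransGen.single ⟨Or.inl h, hr, ht⟩

theorem xs2_edge [Finite V] (hG : IsSph3 G) (hA : A.ncard = 2) {s t : Cq G}
    (hs : s ∈ XX G κ A) (hst : s < t) :
    {r | r ∈ XX G κ A ∧ (sd G).Adj s r ∧ (sd G).Adj t r}.ncard =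
      if s ∈ bdX G κ A then 1 else 2 := by
  have ht : t ∈ XX G κ A := xx_up hs hst.le
  have c1 := (xx_ncard hs).2
  have c2 := clt hst
  have c3 := hG.k5 t.1 t.2.2
  rw [hA] at c1
  have cx : ∀ r ∈ XX G κ A, 2 ≤ r.1.card := fun r hr => by
    have := (xx_ncard hr).2
    rwa [hA] at this
  have ck : ∀ r : Cq G, r.1.card ≤ 4 := fun r => hG.k5 r.1 r.2.2
  rcases (by omega : s.1.card = 2 ∨ s.1.card = 3) with h2 | h3
  · have hnb : s ∉ bdX G κ A := fun h => by
      have := bdX_ncard h
      omega
    rw [if_neg hnb]
    have hr1 : ∀ r ∈ XX G κ A, (sd G).Adj s r → s < r := by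
      intro r hr k
      rcases k with k | k
      · exact k
      · have k1 := clt k
        have k2 := cx r hr
        omega
    rcases (by omega : t.1.card = 3 ∨ t.1.card = 4) with t3 | t4
    · rw [← (above_two hG t t3).1]
      congr 1
      ext r
      constructor
      · rintro ⟨k1, k2, k3⟩
        rcases k3 with k3 | k3
        · exact k3
        · have k4 := clt (hr1 r k1 k2)
          have k5 := clt k3
          omega
      · intro k
        have k' : t < r := k
        exact ⟨xx_up ht k'.le, Or.inl (hst.trans k'), Or.inl k'⟩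
    · rw [← (between_two s t hst (by omega)).1]
      congr 1
      ext r
      constructor
      · rintro ⟨k1, k2, k3⟩
        refine ⟨hr1 r k1 k2, ?_⟩
        rcases k3 with k3 | k3
        · have k4 := clt k3
          have k5 := ck r
          omega
        · exact k3
      · rintro ⟨k1, k2⟩
        exact ⟨xx_up hs k1.le, Or.inl k1, Or.inr k2⟩
  · have hW : {r | r ∈ XX G κ A ∧ (sd G).Adj s r ∧ (sd G).Adj t r} =
        {r | r ∈ XX G κ A ∧ r < s} := by
      ext r
      constructor
      · rintro ⟨k1, k2, k3⟩
        refine ⟨k1, ?_⟩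
        rcases k2 with k2 | k2
        · have k4 := clt k2
          rcases k3 with k3 | k3
          · have k5 := clt k3
            have k6 := ck r
            omega
          · have k5 := clt k3
            have k6 := ck t
            omega
        · exact k2
      · rintro ⟨k1, k2⟩
        exact ⟨k1, Or.inr k2, Or.inr (k2.trans hst)⟩
    rw [hW]
    obtain ⟨a, b, hab, hAe⟩ := Set.ncard_eq_two.1 hA
    obtain ⟨x, hx, hxa⟩ := hs a (by rw [hAe]; exact Set.mem_insert a _)
    obtain ⟨y, hy, hyb⟩ := hs b (by rw [hAe]; exact Set.mem_insert_of_mem a rfl)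
    have hxy : x ≠ y := fun e => hab (by rw [← hxa, ← hyb, e])
    obtain ⟨z, hz, hzx, hzy, hsz⟩ := third h3 hx hy hxy
    by_cases hb : s ∈ bdX G κ A
    · rw [if_pos hb]
      obtain ⟨-, c, hc, w, hw, hwc⟩ := hb
      have hwz : w = z := by
        rw [hsz, Finset.mem_insert, Finset.mem_insert, Finset.mem_singleton] at hw
        rcases hw with rfl | rfl | rfl
        · exact absurd (by rw [hAe, ← hwc, hxa]; exact Set.mem_insert a _) hc
        · exact absurd (by rw [hAe, ← hwc, hyb]; exact Set.mem_insert_of_mem a rfl) hc
        · rfl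
      rw [hwz] at hwc
      have hza : κ z ≠ a := fun e => hc (by rw [hAe, ← hwc, e]; exact Set.mem_insert a _)
      have hzb : κ z ≠ b := fun e => hc (by
        rw [hAe, ← hwc, e]; exact Set.mem_insert_of_mem a rfl)
      have he : {r | r ∈ XX G κ A ∧ r < s} = {sb s {x, y}} := by
        ext r
        constructor
        · rintro ⟨k1, k2⟩
          obtain ⟨x', hx', e1⟩ := k1 a (by rw [hAe]; exact Set.mem_insert a _)
          obtain ⟨y', hy', e2⟩ := k1 b (by rw [hAe]; exact Set.mem_insert_of_mem a rfl)
          have m1 := k2.le hx'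
          have m2 := k2.le hy'
          rw [hsz, Finset.mem_insert, Finset.mem_insert, Finset.mem_singleton] at m1 m2
          have f1 : x' = x := by
            rcases m1 with rfl | rfl | rfl
            · rfl
            · exact absurd (e1.symm.trans hyb) hab
            · exact absurd e1 hza
          have f2 : y' = y := by
            rcases m2 with rfl | rfl | rfl
            · exact absurd (hxa.symm.trans e2) hab
            · rfl
            · exact absurd e2 hzb
          rw [f1] at hx'
          rw [f2] at hy'
          have f3 : z ∉ r.1 := by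
            intro hz'
            have f4 := clt k2
            have f5 : s.1 ⊆ r.1 := by
              rw [hsz]
              intro v hv
              rw [Finset.mem_insert, Finset.mem_insert, Finset.mem_singleton] at hv
              rcases hv with rfl | rfl | rfl
              · exact hx'
              · exact hy'
              · exact hz'
            have f6 := Finset.card_le_card f5
            omega
          refine Set.mem_singleton_iff.2 (Subtype.ext ?_)
          rw [sb_val (Finset.insert_nonempty _ _) (pair_sub' hx hy)]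
          refine Finset.Subset.antisymm (fun v hv => ?_) (pair_sub' hx' hy')
          have m3 := k2.le hv
          rw [hsz, Finset.mem_insert, Finset.mem_insert, Finset.mem_singleton] at m3
          rw [Finset.mem_insert, Finset.mem_singleton]
          rcases m3 with rfl | rfl | rfl
          · exact Or.inl rfl
          · exact Or.inr rfl
          · exact absurd hv f3
        · intro k
          rw [Set.mem_singleton_iff.1 k]
          have hv := sb_val (Finset.insert_nonempty _ _) (pair_sub' hx hy)
          refine ⟨?_, sb_lt (Finset.insert_nonempty _ _) (pair_sub' hx hy)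
            (by rw [Finset.card_pair hxy]; omega)⟩
          rw [hAe]
          exact xx_pair (by rw [hv]; exact Finset.mem_insert_self _ _) hxa
            (by rw [hv]; exact Finset.mem_insert_of_mem (Finset.mem_singleton_self _)) hyb
      rw [he, Set.ncard_singleton]
    · rw [if_neg hb]
      have hzA : κ z = a ∨ κ z = b := by
        by_contra hno
        push Not at hno
        apply hb
        refine ⟨hs, κ z, ?_, z, hz, rfl⟩
        rw [hAe]
        rintro (k | k)
        · exact hno.1 k
        · exact hno.2 k
      rcases hzA with hza | hzb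
      · exact two_count (a := a) (b := b) hab hAe h3 hx hz hy (Ne.symm hzx) hxy hzy
          (by rw [hsz]; ext v; simp; tauto) hxa hza hyb
      · refine two_count (a := b) (b := a) hab.symm (by rw [hAe, Set.pair_comm]) h3 hy hz hx
          (Ne.symm hzy) (Ne.symm hxy) hzx ?_ hyb hzb hxa
        rw [hsz]
        ext v
        simp
        tauto

theorem xs2_lk [Finite V] (hG : IsSph3 G) (hA : A.ncard = 2) {s : Cq G}
    (hs : s ∈ XX G κ A) : Conn (sd G) (Lk (sd G) {s} ∩ XX G κ A) := by
  have c1 := (xx_ncard hs).2
  have c3 := hG.k5 s.1 s.2.2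
  rw [hA] at c1
  have cx : ∀ r ∈ XX G κ A, 2 ≤ r.1.card := fun r hr => by
    have := (xx_ncard hr).2
    rwa [hA] at this
  have ck : ∀ r : Cq G, r.1.card ≤ 4 := fun r => hG.k5 r.1 r.2.2
  obtain ⟨a, b, hab, hAe⟩ := Set.ncard_eq_two.1 hA
  have haA : a ∈ A := by rw [hAe]; exact Set.mem_insert a _
  have hbA : b ∈ A := by rw [hAe]; exact Set.mem_insert_of_mem a rfl
  obtain ⟨x, hx, hxa⟩ := hs a haA
  obtain ⟨y, hy, hyb⟩ := hs b hbA
  have hxy : x ≠ y := fun e => hab (by rw [← hxa, ← hyb, e])
  have hL : Lk (sd G) {s} ∩ XX G κ A = {t | s < t} ∪ {r | r ∈ XX G κ A ∧ r < s} := by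
    ext r
    constructor
    · rintro ⟨k1, k2⟩
      rcases k1 s rfl with k3 | k3
      · exact Or.inl k3
      · exact Or.inr ⟨k2, k3⟩
    · rintro (k | k)
      · have k' : s < r := k
        refine ⟨fun u hu => ?_, xx_up hs k'.le⟩
        rw [Set.mem_singleton_iff.1 hu]
        exact Or.inl k'
      · refine ⟨fun u hu => ?_, k.1⟩
        rw [Set.mem_singleton_iff.1 hu]
        exact Or.inr k.2
  rw [hL]
  rcases (by omega : s.1.card = 2 ∨ s.1.card = 3 ∨ s.1.card = 4) with h2 | h3 | h4
  · have he : {r | r ∈ XX G κ A ∧ r < s} = ∅ := by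
      refine Set.eq_empty_of_forall_notMem ?_
      rintro r ⟨k1, k2⟩
      have k3 := clt k2
      have k4 := cx r k1
      omega
    rw [he, Set.union_empty]
    exact (above_cyc hG s h2).1
  · rw [Set.union_comm]
    refine join_Conn ?_ ?_ ?_
    · rintro r ⟨-, hr⟩ t ht
      exact Or.inl (hr.trans ht)
    · refine ⟨sb s {x, y}, ?_, sb_lt (Finset.insert_nonempty _ _) (pair_sub' hx hy)
            (by rw [Finset.card_pair hxy]; omega)⟩
      rw [hAe]
      have hv := sb_val (Finset.insert_nonempty _ _) (pair_sub' hx hy)
      exact xx_pair (by rw [hv]; exact Finset.mem_insert_self _ _) hxa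
            (by rw [hv]; exact Finset.mem_insert_of_mem (Finset.mem_singleton_self _)) hyb
    · exact Set.nonempty_of_ncard_ne_zero (by rw [(above_two hG s h3).1]; norm_num)
  · have he : {t | s < t} = ∅ := by
      refine Set.eq_empty_of_forall_notMem fun t ht => ?_
      have k3 := clt (show s < t from ht)
      have k4 := ck t
      omega
    rw [he, Set.empty_union]
    -- faces
    have fac : ∀ f : Finset V, f ⊆ s.1 → f.card ≤ 3 → (∃ u ∈ f, κ u = a) → (∃ v ∈ f, κ v = b) →
        sb s f ∈ {r | r ∈ XX G κ A ∧ r < s} := by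
      rintro f hf hc ⟨u, hu, hua⟩ ⟨v, hv, hvb⟩
      have hne : f.Nonempty := ⟨u, hu⟩
      have hval := sb_val hne hf
      refine ⟨?_, sb_lt hne hf (by omega)⟩
      rw [hAe]
      exact xx_pair (by rw [hval]; exact hu) hua (by rw [hval]; exact hv) hvb
    have stp : ∀ f g : Finset V, f.Nonempty → f ⊆ g → g ⊆ s.1 → g.card ≤ 3 →
        (∃ u ∈ f, κ u = a) → (∃ v ∈ f, κ v = b) →
        Relation.ReflTransGen (EIn (sd G) {r | r ∈ XX G κ A ∧ r < s}) (sb s f) (sb s g) := by
      rintro f g hne hfg hg hc ⟨u, hu, hua⟩ ⟨v, hv, hvb⟩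
      have m1 := fac f (hfg.trans hg) ((Finset.card_le_card hfg).trans hc) ⟨u, hu, hua⟩
        ⟨v, hv, hvb⟩
      have m2 := fac g hg hc ⟨u, hfg hu, hua⟩ ⟨v, hfg hv, hvb⟩
      refine le_path m1 m2 ?_
      rw [Cq.le_iff, sb_val hne (hfg.trans hg), sb_val (hne.mono hfg) hg]
      exact hfg
    have edge : ∀ x' ∈ s.1, ∀ y' ∈ s.1, κ x' = a → κ y' = b →
        Relation.ReflTransGen (EIn (sd G) {r | r ∈ XX G κ A ∧ r < s}) (sb s {x', y'})
          (sb s {x, y}) := by
      intro x' hx' y' hy' hxa' hyb'
      have s1 := stp {x', y'} {x', y, y'} (Finset.insert_nonempty _ _) (by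
        intro v hv
        rw [Finset.mem_insert, Finset.mem_singleton] at hv
        rw [Finset.mem_insert, Finset.mem_insert, Finset.mem_singleton]
        tauto) (by
        intro v hv
        rw [Finset.mem_insert, Finset.mem_insert, Finset.mem_singleton] at hv
        rcases hv with rfl | rfl | rfl
        · exact hx'
        · exact hy
        · exact hy') Finset.card_le_three ⟨x', by simp, hxa'⟩ ⟨y', by simp, hyb'⟩
      have s2 := stp {x', y} {x', y, y'} (Finset.insert_nonempty _ _) (by
        intro v hv
        rw [Finset.mem_insert, Finset.mem_singleton] at hv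
        rw [Finset.mem_insert, Finset.mem_insert, Finset.mem_singleton]
        tauto) (by
        intro v hv
        rw [Finset.mem_insert, Finset.mem_insert, Finset.mem_singleton] at hv
        rcases hv with rfl | rfl | rfl
        · exact hx'
        · exact hy
        · exact hy') Finset.card_le_three ⟨x', by simp, hxa'⟩ ⟨y, by simp, hyb⟩
      have s3 := stp {x', y} {x, x', y} (Finset.insert_nonempty _ _) (by
        intro v hv
        rw [Finset.mem_insert, Finset.mem_singleton] at hv
        rw [Finset.mem_insert, Finset.mem_insert, Finset.mem_singleton]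
        tauto) (by
        intro v hv
        rw [Finset.mem_insert, Finset.mem_insert, Finset.mem_singleton] at hv
        rcases hv with rfl | rfl | rfl
        · exact hx
        · exact hx'
        · exact hy) Finset.card_le_three ⟨x', by simp, hxa'⟩ ⟨y, by simp, hyb⟩
      have s4 := stp {x, y} {x, x', y} (Finset.insert_nonempty _ _) (by
        intro v hv
        rw [Finset.mem_insert, Finset.mem_singleton] at hv
        rw [Finset.mem_insert, Finset.mem_insert, Finset.mem_singleton]
        tauto) (by
        intro v hv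
        rw [Finset.mem_insert, Finset.mem_insert, Finset.mem_singleton] at hv
        rcases hv with rfl | rfl | rfl
        · exact hx
        · exact hx'
        · exact hy) Finset.card_le_three ⟨x, by simp, hxa⟩ ⟨y, by simp, hyb⟩
      exact ((s1.trans (rtg_symm s2)).trans s3).trans (rtg_symm s4)
    have hall : ∀ r ∈ {r | r ∈ XX G κ A ∧ r < s},
        Relation.ReflTransGen (EIn (sd G) {r | r ∈ XX G κ A ∧ r < s}) r (sb s {x, y}) := by
      rintro r ⟨k1, k2⟩
      obtain ⟨x', hx', e1⟩ := k1 a haA
      obtain ⟨y', hy', e2⟩ := k1 b hbA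
      have m := fac {x', y'} (pair_sub' (k2.le hx') (k2.le hy'))
        (Finset.card_le_two.trans (by norm_num)) ⟨x', by simp, e1⟩ ⟨y', by simp, e2⟩
      have p : Relation.ReflTransGen (EIn (sd G) {r | r ∈ XX G κ A ∧ r < s}) (sb s {x', y'}) r := by
        refine le_path m ⟨k1, k2⟩ ?_
        rw [Cq.le_iff, sb_val (Finset.insert_nonempty _ _) (pair_sub' (k2.le hx') (k2.le hy'))]
        exact pair_sub' hx' hy'
      exact (rtg_symm p).trans (edge x' (k2.le hx') y' (k2.le hy') e1 e2)
    refine ⟨⟨sb s {x, y}, fac {x, y} (pair_sub' hx hy) (Finset.card_le_two.trans (by norm_num))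
      ⟨x, by simp, hxa⟩ ⟨y, by simp, hyb⟩⟩, fun r hr r' hr' => ?_⟩
    exact (hall r hr).trans (rtg_symm (hall r' hr'))

/-- an edge of `XX` between two members of `bdX` has a triangle and a tetrahedron -/
theorem xs2_bd (hG : IsSph3 G) (hA : A.ncard = 2) {s t : Cq G} (hs : s ∈ bdX G κ A)
    (hst : s < t) : s.1.card = 3 ∧ t.1.card = 4 ∧ t ∈ bdX G κ A := by
  have h1 := bdX_ncard hs
  have h2 := clt hst
  have h3 := hG.k5 t.1 t.2.2
  exact ⟨by omega, by omega, bdX_up hs hst.le⟩

end MOT
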