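import Pool.Agent.MOT.XsC
import Pool.Agent.MOT.JtDef

/-!
# MOT: RANGE block IV: two colours, the triangle complex is a homological disc (helper23)

`Tc G κ A` = the 3-element cliques of `sd G` inside `XX G κ A`.

`tc_edge`: for `e.card = 2`: if `e = {s, t}` with `s < t` in `XX`, the triangles of `Tc` containing `e` correspond to the
members comparable with both: `xs2_edge`.  Otherwise there is no triangle.  So `dg = 1` iff `s ∈ bdX`, and
then `t ∈ bdX` (`bdX_up`); conversely `s, t ∈ bdX` (`xs2_bd`).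
`tc_top`: every clique inside `XX` is contained in a member of `Tc`: a clique with 2 elements by `xs2_edge`
(at least one), a clique with one element: its link is nonempty (`xs2_lk`); no clique has 4 elements
(the cardinalities 2, 3, 4 are different).
`tc_dsc`: `card`: definition; `deg`: `tc_edge`; `lk`: the triangles at `x` correspond to the edges of
`Lk {x} ∩ XX`, which is connected (`xs2_lk`): triangles `{x, y_i, y_(i+1)}` along a path; `conn`: a path in `XX`
(`PatJ`), consecutive vertices lie in a common triangle (`tc_top`), and `lk`; `hz`: restrict the cochain to the edges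
of `XX` (`rs`): a cocycle (all triangles of `XX` are in `Tc`), `HZ` from `PatJ`; `bd`: `hb` gives a member `s` of `bdX`;
if `s.card = 4` it contains a triangle with three colours containing `A`, a member of `bdX`; so there is
`s ∈ bdX` with `s.card = 3`, and `t > s` (`above_two`): the edge `{s, t}`.
-/

open Classical

noncomputable section

namespace MOT

variable {V C : Type} {G : SimpleGraph V} {κ : V → C} {A : Set C}

/-- the triangles of the order complex of `XX G κ A` -/
def Tc [Finite V] (G : SimpleGraph V) (κ : V → C) (A : Set C) : Finset (Finset (Cq G)) :=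
  (Set.toFinite {c : Finset (Cq G) | c.card = 3 ∧ (sd G).IsClique (c : Set (Cq G)) ∧
    ∀ s ∈ c, s ∈ XX G κ A}).toFinset

theorem mem_Tc [Finite V] {c : Finset (Cq G)} : c ∈ Tc G κ A ↔
    c.card = 3 ∧ (sd G).IsClique (c : Set (Cq G)) ∧ ∀ s ∈ c, s ∈ XX G κ A := by
  unfold Tc
  rw [Set.Finite.mem_toFinset]
  exact Iff.rfl

/-- common neighbours of `s`, `t` in `XX` -/
private def xsM (G : SimpleGraph V) (κ : V → C) (A : Set C) (s t : Cq G) : Set (Cq G) :=
  {r | r ∈ XX G κ A ∧ (sd G).Adj s r ∧ (sd G).Adj t r}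

private theorem tri_Tc [Finite V] {s t r : Cq G} (hs : s ∈ XX G κ A) (ht : t ∈ XX G κ A)
    (hr : r ∈ XX G κ A) (h1 : (sd G).Adj s t) (h2 : (sd G).Adj s r) (h3 : (sd G).Adj t r) :
    ({s, t, r} : Finset (Cq G)) ∈ Tc G κ A := by
  rw [mem_Tc]
  refine ⟨Finset.card_eq_three.2 ⟨s, t, r, h1.ne, h2.ne, h3.ne, rfl⟩, ?_, ?_⟩
  · intro x hx y hy hxy
    rw [Finset.mem_coe, Finset.mem_insert, Finset.mem_insert, Finset.mem_singleton] at hx hy
    rcases hx with rfl | rfl | rfl <;> rcases hy with rfl | rfl | rfl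
    · exact absurd rfl hxy
    · exact h1
    · exact h2
    · exact h1.symm
    · exact absurd rfl hxy
    · exact h3
    · exact h2.symm
    · exact h3.symm
    · exact absurd rfl hxy
  · intro x hx
    rw [Finset.mem_insert, Finset.mem_insert, Finset.mem_singleton] at hx
    rcases hx with rfl | rfl | rfl
    · exact hs
    · exact ht
    · exact hr

private theorem dg_eq [Finite V] {s t : Cq G} (hs : s ∈ XX G κ A) (ht : t ∈ XX G κ A)
    (h1 : (sd G).Adj s t) : J.dg (Tc G κ A) {s, t} = (xsM G κ A s t).ncard := by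
  have himg : (((Tc G κ A).filter (fun c => ({s, t} : Finset (Cq G)) ⊆ c) :
      Finset (Finset (Cq G))) : Set (Finset (Cq G))) =
      (fun r => ({s, t, r} : Finset (Cq G))) '' xsM G κ A s t := by
    ext c
    rw [Finset.mem_coe, Finset.mem_filter, mem_Tc]
    constructor
    · rintro ⟨⟨hc, hcl, hX⟩, hsub⟩
      have hs' : s ∈ c := hsub (by simp)
      have ht' : t ∈ c := hsub (by simp)
      have hcard : (c \ {s, t}).card = 1 := by
        rw [Finset.card_sdiff_of_subset hsub, hc, Finset.card_pair h1.ne]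
      obtain ⟨r, hr⟩ := Finset.card_eq_one.1 hcard
      have hrc : r ∈ c \ {s, t} := by
        rw [hr]
        exact Finset.mem_singleton_self r
      rw [Finset.mem_sdiff, Finset.mem_insert, Finset.mem_singleton, not_or] at hrc
      refine ⟨r, ⟨hX r hrc.1, hcl (Finset.mem_coe.2 hs') (Finset.mem_coe.2 hrc.1)
        (Ne.symm hrc.2.1), hcl (Finset.mem_coe.2 ht') (Finset.mem_coe.2 hrc.1)
        (Ne.symm hrc.2.2)⟩, ?_⟩
      show ({s, t, r} : Finset (Cq G)) = c
      refine Finset.eq_of_subset_of_card_le ?_ ?_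
      · intro x hx
        rw [Finset.mem_insert, Finset.mem_insert, Finset.mem_singleton] at hx
        rcases hx with rfl | rfl | rfl
        · exact hs'
        · exact ht'
        · exact hrc.1
      · rw [hc, Finset.card_eq_three.2 ⟨s, t, r, h1.ne, Ne.symm hrc.2.1, Ne.symm hrc.2.2, rfl⟩]
    · rintro ⟨r, ⟨hr, h2, h3⟩, rfl⟩
      refine ⟨mem_Tc.1 (tri_Tc hs ht hr h1 h2 h3), ?_⟩
      intro x hx
      rw [Finset.mem_insert, Finset.mem_singleton] at hx
      show x ∈ ({s, t, r} : Finset (Cq G))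
      rcases hx with rfl | rfl <;> simp
  unfold J.dg
  rw [← Set.ncard_coe_finset, himg]
  refine Set.InjOn.ncard_image ?_
  rintro r ⟨_, h2, h3⟩ r' ⟨_, h2', h3'⟩ e
  have e' : ({s, t, r} : Finset (Cq G)) = {s, t, r'} := e
  have h4 : r ∈ ({s, t, r'} : Finset (Cq G)) := by
    rw [← e']
    simp
  rw [Finset.mem_insert, Finset.mem_insert, Finset.mem_singleton] at h4
  rcases h4 with h4 | h4 | h4
  · exact absurd h4.symm h2.ne
  · exact absurd h4.symm h3.ne
  · exact h4

/-- two adjacent members, in order -/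
private theorem pair_lt {e : Finset (Cq G)} (he : e.card = 2)
    (hcl : (sd G).IsClique (e : Set (Cq G))) : ∃ s t : Cq G, s < t ∧ e = {s, t} := by
  obtain ⟨x, y, hxy, rfl⟩ := Finset.card_eq_two.1 he
  have h1 : x < y ∨ y < x := hcl (by simp) (by simp) hxy
  rcases h1 with h1 | h1
  · exact ⟨x, y, h1, rfl⟩
  · exact ⟨y, x, h1, Finset.pair_comm x y⟩

private theorem ext2 [Finite V] (hG : IsSph3 G) (hA : A.ncard = 2) {s t : Cq G}
    (hs : s ∈ XX G κ A) (ht : t ∈ XX G κ A) (h : (sd G).Adj s t) :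
    ∃ r ∈ XX G κ A, (sd G).Adj s r ∧ (sd G).Adj t r := by
  have key : ∀ s t : Cq G, s ∈ XX G κ A → s < t →
      ∃ r ∈ XX G κ A, (sd G).Adj s r ∧ (sd G).Adj t r := by
    intro s t hs hst
    have h1 := xs2_edge hG hA hs hst
    have h2 : ({r | r ∈ XX G κ A ∧ (sd G).Adj s r ∧ (sd G).Adj t r} : Set (Cq G)).Nonempty := by
      rw [Set.nonempty_iff_ne_empty]
      intro h0
      rw [h0, Set.ncard_empty] at h1
      split_ifs at h1
    obtain ⟨r, hr, h3, h4⟩ := h2
    exact ⟨r, hr, h3, h4⟩
  rcases h with h | h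
  · exact key s t hs h
  · obtain ⟨r, hr, h3, h4⟩ := key t s ht h
    exact ⟨r, hr, h4, h3⟩

private theorem ext1 [Finite V] (hG : IsSph3 G) (hA : A.ncard = 2) {s : Cq G}
    (hs : s ∈ XX G κ A) : ∃ r ∈ XX G κ A, (sd G).Adj s r := by
  obtain ⟨⟨r, hr, hrX⟩, -⟩ := xs2_lk hG hA hs
  exact ⟨r, hrX, hr s rfl⟩

theorem tc_edge [Finite V] (hG : IsSph3 G) (hA : A.ncard = 2) {e : Finset (Cq G)}
    (he : e.card = 2) : J.dg (Tc G κ A) e ≤ 2 ∧
      (J.dg (Tc G κ A) e = 1 ↔ (sd G).IsClique (e : Set (Cq G)) ∧ ∀ s ∈ e, s ∈ bdX G κ A) := by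
  by_cases h : (sd G).IsClique (e : Set (Cq G)) ∧ ∀ s ∈ e, s ∈ XX G κ A
  · obtain ⟨hcl, hX⟩ := h
    obtain ⟨s, t, hst, rfl⟩ := pair_lt he hcl
    have hs : s ∈ XX G κ A := hX s (by simp)
    have ht : t ∈ XX G κ A := hX t (by simp)
    have h1 : J.dg (Tc G κ A) {s, t} = if s ∈ bdX G κ A then 1 else 2 := by
      rw [dg_eq hs ht (Or.inl hst)]
      exact xs2_edge hG hA hs hst
    rw [h1]
    constructor
    · split_ifs <;> omega
    · constructor
      · intro h2
        have hb : s ∈ bdX G κ A := by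
          by_contra hb
          rw [if_neg hb] at h2
          omega
        refine ⟨hcl, fun x hx => ?_⟩
        rw [Finset.mem_insert, Finset.mem_singleton] at hx
        rcases hx with rfl | rfl
        · exact hb
        · exact bdX_up hb hst.le
      · rintro ⟨-, hb⟩
        rw [if_pos (hb s (by simp))]
  · have h0 : J.dg (Tc G κ A) e = 0 := by
      unfold J.dg
      rw [Finset.card_eq_zero, Finset.filter_eq_empty_iff]
      intro c hc hsub
      obtain ⟨-, hcl, hX⟩ := mem_Tc.1 hc
      exact h ⟨fun x hx y hy hxy => hcl (hsub hx) (hsub hy) hxy, fun x hx => hX x (hsub hx)⟩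
    rw [h0]
    refine ⟨by omega, fun h1 => absurd h1 (by omega), fun h1 => absurd ⟨h1.1, fun x hx =>
      (h1.2 x hx).1⟩ h⟩

theorem tc_top [Finite V] (hG : IsSph3 G) (hA : A.ncard = 2) {c : Finset (Cq G)}
    (hc : (sd G).IsClique (c : Set (Cq G))) (hX : ∀ s ∈ c, s ∈ XX G κ A)
    (hne : (XX G κ A).Nonempty) : ∃ d ∈ Tc G κ A, c ⊆ d := by
  have two : ∀ s t : Cq G, s ∈ XX G κ A → t ∈ XX G κ A → (sd G).Adj s t →
      ∃ d ∈ Tc G κ A, s ∈ d ∧ t ∈ d := by
    intro s t hs ht h
    obtain ⟨r, hr, h1, h2⟩ := ext2 hG hA hs ht h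
    exact ⟨_, tri_Tc hs ht hr h h1 h2, by simp, by simp⟩
  have one : ∀ s : Cq G, s ∈ XX G κ A → ∃ d ∈ Tc G κ A, s ∈ d := by
    intro s hs
    obtain ⟨t, ht, h⟩ := ext1 hG hA hs
    obtain ⟨d, hd, h1, -⟩ := two s t hs ht h
    exact ⟨d, hd, h1⟩
  have hle : c.card ≤ 3 := by
    have h1 : c.card ≤ (Finset.Icc 2 4).card := by
      refine Finset.card_le_card_of_injOn (fun s => s.1.card) ?_ ?_
      · intro s hs
        have h2 := (xx_ncard (hX s (Finset.mem_coe.1 hs))).2
        rw [hA] at h2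
        exact Finset.mem_coe.2 (Finset.mem_Icc.2 ⟨h2, hG.k5 s.1 s.2.2⟩)
      · intro s hs t ht e
        by_contra hne
        have e' : s.1.card = t.1.card := e
        rcases hc hs ht hne with k | k
        · have := Finset.card_lt_card (Cq.lt_iff.1 k)
          omega
        · have := Finset.card_lt_card (Cq.lt_iff.1 k)
          omega
    simpa using h1
  have h4 : c.card = 0 ∨ c.card = 1 ∨ c.card = 2 ∨ c.card = 3 := by omega
  rcases h4 with h | h | h | h
  · obtain ⟨s, hs⟩ := hne
    obtain ⟨d, hd, -⟩ := one s hs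
    refine ⟨d, hd, ?_⟩
    rw [Finset.card_eq_zero.1 h]
    exact Finset.empty_subset _
  · obtain ⟨s, rfl⟩ := Finset.card_eq_one.1 h
    obtain ⟨d, hd, h1⟩ := one s (hX s (by simp))
    exact ⟨d, hd, Finset.singleton_subset_iff.2 h1⟩
  · obtain ⟨s, t, hst, rfl⟩ := pair_lt h hc
    obtain ⟨d, hd, h1, h2⟩ := two s t (hX s (by simp)) (hX t (by simp)) (Or.inl hst)
    refine ⟨d, hd, ?_⟩
    intro x hx
    rw [Finset.mem_insert, Finset.mem_singleton] at hx
    rcases hx with rfl | rfl
    · exact h1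
    · exact h2
  · exact ⟨c, mem_Tc.2 ⟨h, hc, hX⟩, Finset.Subset.refl _⟩

theorem tc_dsc [Finite V] (hG : IsSph3 G) (hp : PatJ G κ) (hA : A.ncard = 2)
    (hb : (bdX G κ A).Nonempty) : J.Dsc (Tc G κ A) := by
  have hne : (XX G κ A).Nonempty := hb.mono fun s hs => hs.1
  have hAne : A.Nonempty := by
    rw [Set.nonempty_iff_ne_empty]
    rintro rfl
    rw [Set.ncard_empty] at hA
    omega
  obtain ⟨hconn, hhz⟩ := hp A hAne hne
  -- two triangles with two common vertices
  have hTA : ∀ (x y : Cq G) (s t : Finset (Cq G)), x ≠ y → s ∈ Tc G κ A → t ∈ Tc G κ A →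
      x ∈ s → y ∈ s → x ∈ t → y ∈ t → J.TA (Tc G κ A) s t := by
    intro x y s t hxy hs ht h1 h2 h3 h4
    refine ⟨hs, ht, ?_⟩
    rw [← Finset.card_pair hxy]
    refine Finset.card_le_card fun u hu => ?_
    rw [Finset.mem_insert, Finset.mem_singleton] at hu
    rw [Finset.mem_inter]
    rcases hu with rfl | rfl
    · exact ⟨h1, h3⟩
    · exact ⟨h2, h4⟩
  have hadj : ∀ s ∈ Tc G κ A, ∀ x ∈ s, ∀ y ∈ s, x ≠ y → (sd G).Adj x y := by
    intro s hs x hx y hy hxy
    exact (mem_Tc.1 hs).2.1 (Finset.mem_coe.2 hx) (Finset.mem_coe.2 hy) hxy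
  have hX : ∀ s ∈ Tc G κ A, ∀ x ∈ s, x ∈ XX G κ A := fun s hs => (mem_Tc.1 hs).2.2
  have hother : ∀ s ∈ Tc G κ A, ∀ x, ∃ y ∈ s, y ≠ x := by
    intro s hs x
    refine Finset.exists_mem_ne ?_ x
    rw [(mem_Tc.1 hs).1]
    omega
  have hlk : ∀ x, ∀ s ∈ Tc G κ A, ∀ t ∈ Tc G κ A, x ∈ s → x ∈ t →
      Relation.ReflTransGen (fun a b => J.TA (Tc G κ A) a b ∧ x ∈ a ∧ x ∈ b) s t := by
    intro x s hs t ht hxs hxt
    obtain ⟨y, hy, hyx⟩ := hother s hs x
    obtain ⟨y', hy', hyx'⟩ := hother t ht x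
    have hxX := hX s hs x hxs
    have hyL : y ∈ Lk (sd G) {x} ∩ XX G κ A := by
      refine ⟨fun u hu => ?_, hX s hs y hy⟩
      rw [Set.mem_singleton_iff.1 hu]
      exact hadj s hs x hxs y hy (Ne.symm hyx)
    have hyL' : y' ∈ Lk (sd G) {x} ∩ XX G κ A := by
      refine ⟨fun u hu => ?_, hX t ht y' hy'⟩
      rw [Set.mem_singleton_iff.1 hu]
      exact hadj t ht x hxt y' hy' (Ne.symm hyx')
    have hpath := (xs2_lk hG hA hxX).2 y hyL y' hyL'
    have key : ∀ z, Relation.ReflTransGen (EIn (sd G) (Lk (sd G) {x} ∩ XX G κ A)) y z →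
        ∀ t ∈ Tc G κ A, x ∈ t → z ∈ t → z ≠ x →
        Relation.ReflTransGen (fun a b => J.TA (Tc G κ A) a b ∧ x ∈ a ∧ x ∈ b) s t := by
      intro z hz
      induction hz with
      | refl =>
        intro t ht hxt hzt hzx
        exact Relation.ReflTransGen.single ⟨hTA x y s t (Ne.symm hyx) hs ht hxs hy hxt hzt,
          hxs, hxt⟩
      | @tail z z' _ e ih =>
        intro t ht hxt hzt hzx
        have h1 : (sd G).Adj x z := e.2.1.1 x rfl
        have h2 : (sd G).Adj x z' := e.2.2.1 x rfl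
        have hu := tri_Tc hxX e.2.1.2 e.2.2.2 h1 h2 e.1
        have h3 := ih _ hu (by simp) (by simp) h1.ne.symm
        exact h3.tail ⟨hTA x z' _ t h2.ne hu ht (by simp) (by simp) hxt hzt, by simp, hxt⟩
    exact key y' hpath t ht hxt hy' hyx'
  refine
    { card := fun t ht => (mem_Tc.1 ht).1
      deg := fun e he => (tc_edge hG hA he).1
      lk := hlk
      conn := ?_
      hz := ?_
      bd := ?_ }
  · intro s hs t ht
    have hsne : s.Nonempty := by
      rw [← Finset.card_pos, (mem_Tc.1 hs).1]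
      omega
    have htne : t.Nonempty := by
      rw [← Finset.card_pos, (mem_Tc.1 ht).1]
      omega
    obtain ⟨x, hx⟩ := hsne
    obtain ⟨y, hy⟩ := htne
    have hpath := hconn.2 x (hX s hs x hx) y (hX t ht y hy)
    have drop : ∀ z (p q : Finset (Cq G)), Relation.ReflTransGen
        (fun a b => J.TA (Tc G κ A) a b ∧ z ∈ a ∧ z ∈ b) p q →
        Relation.ReflTransGen (J.TA (Tc G κ A)) p q := by
      intro z p q h
      induction h with
      | refl => exact Relation.ReflTransGen.refl
      | tail _ e ih => exact ih.tail e.1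
    have key : ∀ z, Relation.ReflTransGen (EIn (sd G) (XX G κ A)) x z →
        ∀ t ∈ Tc G κ A, z ∈ t → Relation.ReflTransGen (J.TA (Tc G κ A)) s t := by
      intro z hz
      induction hz with
      | refl =>
        intro t ht hxt
        exact drop x s t (hlk x s hs t ht hx hxt)
      | @tail z z' _ e ih =>
        intro t ht hzt
        obtain ⟨r, hr, h1, h2⟩ := ext2 hG hA e.2.1 e.2.2 e.1
        have hu := tri_Tc e.2.1 e.2.2 hr e.1 h1 h2
        exact (ih _ hu (by simp)).trans (drop z' _ t (hlk z' _ hu t ht (by simp) hzt))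
    exact key y hpath t ht hy
  · intro a hsym hco
    have hz1 : rs (sd G) (XX G κ A) a ∈ Z1 (sd G) (XX G κ A) := by
      refine mem_Z1.2 ⟨fun x y e => if_neg e, fun x y => ?_, fun x y z h1 h2 h3 => ?_⟩
      · unfold rs
        by_cases e : EIn (sd G) (XX G κ A) x y
        · rw [if_pos e, if_pos e.symm, hsym]
        · rw [if_neg e, if_neg fun e' => e e'.symm]
      · rw [rs_apply h1, rs_apply h2, rs_apply h3]
        exact hco x y z (tri_Tc h1.2.1 h1.2.2 h2.2.2 h1.1 h3.1 h2.1)
    obtain ⟨f, hf⟩ := hhz _ hz1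
    refine ⟨f, fun t ht x hx y hy hxy => ?_⟩
    have e : EIn (sd G) (XX G κ A) x y := ⟨hadj t ht x hx y hy hxy, hX t ht x hx, hX t ht y hy⟩
    rw [← hf x y e, rs_apply e]
  · obtain ⟨s, hs⟩ := hb
    have h3 := bdX_ncard hs
    rw [hA] at h3
    have h4 := hG.k5 s.1 s.2.2
    have hex : ∃ u t : Cq G, u < t ∧ u ∈ bdX G κ A := by
      by_cases h5 : s.1.card = 3
      · have h6 := (above_two hG s h5).1
        have h7 : ({t : Cq G | s < t}).Nonempty := by
          rw [Set.nonempty_iff_ne_empty]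
          intro h0
          rw [h0, Set.ncard_empty] at h6
          omega
        obtain ⟨t, ht⟩ := h7
        exact ⟨s, t, ht, hs⟩
      · obtain ⟨a, b, hab, hAab⟩ := Set.ncard_eq_two.1 hA
        obtain ⟨hsX, c, hc, z, hz, hzc⟩ := hs
        obtain ⟨x, hx, hxa⟩ := hsX a (by rw [hAab]; simp)
        obtain ⟨y, hy, hyb⟩ := hsX b (by rw [hAab]; simp)
        have hca : c ≠ a := by
          rintro rfl
          exact hc (by rw [hAab]; simp)
        have hcb : c ≠ b := by
          rintro rfl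
          exact hc (by rw [hAab]; simp)
        have hxy : x ≠ y := by
          rintro rfl
          exact hab (hxa.symm.trans hyb)
        have hxz : x ≠ z := by
          rintro rfl
          exact hca (hzc.symm.trans hxa)
        have hyz : y ≠ z := by
          rintro rfl
          exact hcb (hzc.symm.trans hyb)
        have hsub : ({x, y, z} : Finset V) ⊆ s.1 := by
          intro u hu
          rw [Finset.mem_insert, Finset.mem_insert, Finset.mem_singleton] at hu
          rcases hu with rfl | rfl | rfl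
          · exact hx
          · exact hy
          · exact hz
        let u : Cq G := ⟨{x, y, z}, Finset.insert_nonempty _ _, fun p hp q hq hpq =>
          s.2.2 (Finset.mem_coe.2 (hsub (Finset.mem_coe.1 hp)))
            (Finset.mem_coe.2 (hsub (Finset.mem_coe.1 hq))) hpq⟩
        have hcu : ({x, y, z} : Finset V).card = 3 :=
          Finset.card_eq_three.2 ⟨x, y, z, hxy, hxz, hyz, rfl⟩
        refine ⟨u, s, ?_, ?_, c, hc, z, ?_, hzc⟩
        · rw [Cq.lt_iff]
          refine ⟨hsub, fun h => ?_⟩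
          have h6 := Finset.card_le_card h
          have h7 : u.1.card = 3 := hcu
          omega
        · intro d hd
          rw [hAab, Set.mem_insert_iff, Set.mem_singleton_iff] at hd
          rcases hd with rfl | rfl
          · exact ⟨x, by show x ∈ ({x, y, z} : Finset V); simp, hxa⟩
          · exact ⟨y, by show y ∈ ({x, y, z} : Finset V); simp, hyb⟩
        · show z ∈ ({x, y, z} : Finset V)
          simp
    obtain ⟨u, t, hut, hu⟩ := hex
    have hne' : u ≠ t := hut.ne
    refine ⟨{u, t}, Finset.card_pair hne', (tc_edge hG hA (Finset.card_pair hne')).2.2 ⟨?_, ?_⟩⟩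
    · intro p hp q hq hpq
      rw [Finset.mem_coe, Finset.mem_insert, Finset.mem_singleton] at hp hq
      rcases hp with rfl | rfl <;> rcases hq with rfl | rfl
      · exact absurd rfl hpq
      · exact Or.inl hut
      · exact Or.inr hut
      · exact absurd rfl hpq
    · intro p hp
      rw [Finset.mem_insert, Finset.mem_singleton] at hp
      rcases hp with rfl | rfl
      · exact hu
      · exact bdX_up hu hut.le

end MOT
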